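import Pool.Agent.P.MP_b8021b_nt.VC.DefN
import Pool.Agent.P.MP_b8021b_nt.VE.BasicP

/-! Elementary lemmas on the definitions of part N. -/

namespace Pool.Agent.P.MP_b8021b_nt.VC

open Polynomial NumberField Finset Pool.Agent.P.MP_b8021b_nt.VE
open scoped Classical ComplexConjugate

/-! ### directions and types -/

lemma dir_mul (z w : ℂ) : dir (z * w) = dir z * dir w := by
  unfold dir; rw [norm_mul]; push_cast; rw [mul_div_mul_comm]

lemma dir_one : dir 1 = 1 := by simp [dir]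

lemma norm_dir {z : ℂ} (h : z ≠ 0) : ‖dir z‖ = 1 := by
  unfold dir; rw [norm_div, Complex.norm_real, norm_norm, div_self (norm_ne_zero_iff.2 h)]

lemma dir_ne_zero {z : ℂ} (h : z ≠ 0) : dir z ≠ 0 := fun e => by
  have := norm_dir h
  rw [e, norm_zero] at this
  exact zero_ne_one this

lemma dir_ofReal {x : ℝ} (h : 0 < x) : dir x = 1 := by
  unfold dir
  rw [Complex.norm_real, Real.norm_eq_abs, abs_of_pos h, div_self (by exact_mod_cast h.ne')]

lemma dir_prod {J : Type} (s : Finset J) (z : J → ℂ) : dir (∏ j ∈ s, z j) = ∏ j ∈ s, dir (z j) := by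
  induction s using Finset.induction_on with
  | empty => simp [dir_one]
  | insert a s h ih => rw [prod_insert h, prod_insert h, dir_mul, ih]

lemma conj_dir {z : ℂ} (h : z ≠ 0) : conj (dir z) = (dir z)⁻¹ :=
  (Complex.inv_eq_conj (norm_dir h)).symm

lemma dir_mul_norm (z : ℂ) : dir z * (‖z‖ : ℂ) = z := by
  by_cases h : z = 0
  · simp [h]
  · unfold dir; rw [div_mul_cancel₀]; exact_mod_cast norm_ne_zero_iff.2 h

section Vec

variable {ι : Type} [Fintype ι] {κ κ' : ι → ℤ} {τ τ' : ι → ℝ} {z w : ι → ℂ}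

lemma ty_eq (κ : ι → ℤ) (τ : ι → ℝ) (z : ι → ℂ) : ty κ τ z =
    (∏ φ, dir (z φ) ^ κ φ) * Complex.exp (Complex.I * ((∑ φ, τ φ * lg z φ : ℝ) : ℂ)) := by
  unfold ty lg
  rw [prod_mul_distrib, ← Complex.exp_sum, ← mul_sum]
  push_cast; rfl

lemma ty_tau_zero (κ : ι → ℤ) (z : ι → ℂ) : ty κ 0 z = ∏ φ, dir (z φ) ^ κ φ := by simp [ty]

lemma ty_zero (z : ι → ℂ) : ty 0 0 z = 1 := by simp [ty]

lemma ty_one (κ : ι → ℤ) (τ : ι → ℝ) : ty κ τ 1 = 1 := by simp [ty, dir_one]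

lemma ty_const (j : ℤ) (z : ι → ℂ) : ty (fun _ => j) 0 z = dir (∏ φ, z φ) ^ j := by
  rw [ty_tau_zero, dir_prod, prod_zpow]

omit [Fintype ι] in
lemma lg_mul (hz : ∀ φ, z φ ≠ 0) (hw : ∀ φ, w φ ≠ 0) : lg (z * w) = lg z + lg w := by
  funext φ
  simp only [lg, Pi.mul_apply, Pi.add_apply, norm_mul]
  exact Real.log_mul (norm_ne_zero_iff.2 (hz φ)) (norm_ne_zero_iff.2 (hw φ))

omit [Fintype ι] in
lemma lg_one : lg (1 : ι → ℂ) = 0 := by funext φ; simp [lg]

lemma ty_mul (κ : ι → ℤ) (τ : ι → ℝ) (hz : ∀ φ, z φ ≠ 0) (hw : ∀ φ, w φ ≠ 0) :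
    ty κ τ (z * w) = ty κ τ z * ty κ τ w := by
  rw [ty_eq, ty_eq, ty_eq, lg_mul hz hw, mul_mul_mul_comm, ← Complex.exp_add, ← prod_mul_distrib]
  congr 1
  · exact prod_congr rfl fun φ _ => by rw [Pi.mul_apply, dir_mul, mul_zpow]
  · congr 1
    simp only [Pi.add_apply, mul_add, sum_add_distrib]
    push_cast; ring

lemma norm_ty (κ : ι → ℤ) (τ : ι → ℝ) (hz : ∀ φ, z φ ≠ 0) : ‖ty κ τ z‖ = 1 := by
  rw [ty_eq, norm_mul, norm_prod, mul_comm Complex.I, Complex.norm_exp_ofReal_mul_I, mul_one]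
  exact prod_eq_one fun φ _ => by rw [norm_zpow, norm_dir (hz φ), one_zpow]

lemma ty_ne_zero (κ : ι → ℤ) (τ : ι → ℝ) (hz : ∀ φ, z φ ≠ 0) : ty κ τ z ≠ 0 := fun e => by
  have := norm_ty κ τ hz
  rw [e, norm_zero] at this
  exact zero_ne_one this

lemma ty_add (κ κ' : ι → ℤ) (τ τ' : ι → ℝ) (hz : ∀ φ, z φ ≠ 0) :
    ty (κ + κ') (τ + τ') z = ty κ τ z * ty κ' τ' z := by
  rw [ty_eq, ty_eq, ty_eq, mul_mul_mul_comm, ← Complex.exp_add, ← prod_mul_distrib]
  congr 1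
  · exact prod_congr rfl fun φ _ => by rw [Pi.add_apply, zpow_add₀ (dir_ne_zero (hz φ))]
  · congr 1
    simp only [Pi.add_apply, add_mul, sum_add_distrib]
    push_cast; ring

lemma ty_neg (κ : ι → ℤ) (τ : ι → ℝ) (hz : ∀ φ, z φ ≠ 0) : ty (-κ) (-τ) z = conj (ty κ τ z) := by
  have h := ty_add κ (-κ) τ (-τ) hz
  rw [add_neg_cancel, add_neg_cancel, ty_zero] at h
  rw [← Complex.inv_eq_conj (norm_ty κ τ hz)]
  exact eq_inv_of_mul_eq_one_right h.symm

lemma ty_mul_conj (κ : ι → ℤ) (τ : ι → ℝ) (hz : ∀ φ, z φ ≠ 0) : ty κ τ z * conj (ty κ τ z) = 1 := by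
  rw [Complex.mul_conj, Complex.normSq_eq_norm_sq, norm_ty κ τ hz]; simp

lemma nz_nonneg (z : ι → ℂ) : 0 ≤ nz z := prod_nonneg fun _ _ => by positivity

lemma nz_mul (z w : ι → ℂ) : nz (z * w) = nz z * nz w := by
  unfold nz; rw [← prod_mul_distrib]
  exact prod_congr rfl fun φ _ => by rw [Pi.mul_apply, norm_mul, mul_pow]

lemma nz_pos (hz : ∀ φ, z φ ≠ 0) : 0 < nz z :=
  prod_pos fun φ _ => pow_pos (norm_pos_iff.2 (hz φ)) 2

lemma ne_zero_of_nz (h : nz z ≠ 0) (φ : ι) : z φ ≠ 0 := fun e =>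
  h (prod_eq_zero (mem_univ φ) (by simp [e]))

lemma log_nz (hz : ∀ φ, z φ ≠ 0) : Real.log (nz z) = 2 * ∑ φ, lg z φ := by
  unfold nz lg
  rw [Real.log_prod fun φ _ => pow_ne_zero 2 (norm_ne_zero_iff.2 (hz φ)), mul_sum]
  exact sum_congr rfl fun φ _ => by rw [Real.log_pow]; norm_num

lemma continuous_nz : Continuous (nz : (ι → ℂ) → ℝ) := by unfold nz; fun_prop

end Vec

/-! ### bump functions -/

lemma Bump.zero_of_lt {g : ℝ → ℝ} {Λ x : ℝ} (h : Bump g Λ) (hx : x < 1 / 3) : g x = 0 := by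
  by_contra e; exact absurd (h.supp x e).1 (not_le.2 hx)

lemma Bump.zero_of_gt {g : ℝ → ℝ} {Λ x : ℝ} (h : Bump g Λ) (hx : 3 < x) : g x = 0 := by
  by_contra e; exact absurd (h.supp x e).2 (not_le.2 hx)

lemma Bump.zero {g : ℝ → ℝ} {Λ : ℝ} (h : Bump g Λ) : g 0 = 0 := h.zero_of_lt (by norm_num)

lemma Bump.continuous {g : ℝ → ℝ} {Λ : ℝ} (h : Bump g Λ) : Continuous g :=
  (LipschitzWith.of_dist_le' (K := Λ) fun x y => by
    simpa only [Real.dist_eq] using h.lip x y).continuous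

lemma Bump.compact {g : ℝ → ℝ} {Λ : ℝ} (h : Bump g Λ) : HasCompactSupport g :=
  HasCompactSupport.intro (isCompact_Icc (a := 1 / 3) (b := 3)) fun x hx => by
    by_contra e; exact hx (h.supp x e)

lemma bump_tent {c : ℝ} (h1 : 4 / 3 ≤ c) (h2 : c ≤ 2) : Bump (fun x => tent (x - c)) 1 where
  one_le := le_rfl
  abs_le x := by rw [abs_of_nonneg (tent_nonneg _)]; exact tent_le_one _
  lip x x' := by simpa using abs_tent_sub (x - c) (x' - c)
  supp x hx := by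
    have := abs_lt.1 (tent_ne_zero hx)
    constructor <;> linarith [this.1, this.2]

/-! ### ideals coprime to `n` -/

section Cop

variable {E : Type} [Field E] {n m : ℕ} {I J : Ideal (𝓞 E)}

lemma cop_mul : Cop n (I * J) ↔ Cop n I ∧ Cop n J := IsCoprime.mul_left_iff

lemma cop_top : Cop n (⊤ : Ideal (𝓞 E)) := by
  unfold Cop; rw [← Ideal.one_eq_top]; exact isCoprime_one_left

lemma cop_mul_nat : Cop (n * m) I ↔ Cop n I ∧ Cop m I := by
  unfold Cop
  rw [Nat.cast_mul, ← Ideal.span_singleton_mul_span_singleton, IsCoprime.mul_right_iff]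

lemma cop_pow_nat {j : ℕ} (hj : 0 < j) : Cop (n ^ j) I ↔ Cop n I := by
  unfold Cop
  rw [Nat.cast_pow, ← Ideal.span_singleton_pow, IsCoprime.pow_right_iff hj]

lemma Cop_of_dvd (h : Cop n I) (hm : m ∣ n) : Cop m I := by
  obtain ⟨c, rfl⟩ := hm; exact (cop_mul_nat.1 h).1

lemma cop_span_of_dvd {α : 𝓞 E} (h : (n : 𝓞 E) ∣ α - 1) : Cop n (Ideal.span {α}) := by
  unfold Cop
  rw [Ideal.isCoprime_span_singleton_iff]
  obtain ⟨c, hc⟩ := h
  exact ⟨1, -c, by linear_combination hc⟩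

lemma triv_apply : triv E n I = if Cop n I then 1 else 0 := rfl

lemma triv_cop (h : Cop n I) : triv E n I = 1 := if_pos h

lemma triv_not (h : ¬ Cop n I) : triv E n I = 0 := if_neg h

lemma isChar_triv : IsChar n (triv E n) :=
  ⟨fun _ h => by rw [triv_cop h, norm_one], fun _ h => triv_not h⟩

lemma isTriv_triv : IsTriv n (triv E n) := fun _ h => triv_cop h

lemma eq_triv {χ : Ideal (𝓞 E) →* ℂ} (h : IsChar n χ) (h' : IsTriv n χ) : χ = triv E n := by
  ext I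
  by_cases c : Cop n I
  · rw [h' I c, triv_cop c]
  · rw [h.zero I c, triv_not c]

lemma norm_char_le {χ : Ideal (𝓞 E) →* ℂ} (h : IsChar n χ) (I : Ideal (𝓞 E)) : ‖χ I‖ ≤ 1 := by
  by_cases c : Cop n I
  · exact (h.norm_cop I c).le
  · rw [h.zero I c, norm_zero]; exact zero_le_one

lemma char_ext {χ χ' : Ideal (𝓞 E) →* ℂ} (h : IsChar n χ) (h' : IsChar n χ')
    (e : ∀ I, Cop n I → χ I = χ' I) : χ = χ' := by
  ext I
  by_cases c : Cop n I
  · exact e I c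
  · rw [h.zero I c, h'.zero I c]

lemma char_mul_conj {χ : Ideal (𝓞 E) →* ℂ} (h : IsChar n χ) (c : Cop n I) :
    χ I * conj (χ I) = 1 := by
  rw [Complex.mul_conj, Complex.normSq_eq_norm_sq, h.norm_cop I c]; simp

lemma cj_apply (χ : Ideal (𝓞 E) →* ℂ) (I : Ideal (𝓞 E)) : cj χ I = conj (χ I) := rfl

variable [NumberField E]

lemma not_unit_nat (hn : 2 ≤ n) : ¬ IsUnit (n : 𝓞 E) := fun h => by
  have h1 := Ideal.span_singleton_eq_top.2 h
  have h2 := congrArg Ideal.absNorm h1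
  rw [Ideal.absNorm_span_singleton, Ideal.absNorm_top, ← map_natCast (algebraMap ℤ (𝓞 E)),
    Algebra.norm_algebraMap, Int.natAbs_pow, Int.natAbs_natCast] at h2
  have h3 : Module.finrank ℤ (𝓞 E) ≠ 0 := Module.finrank_pos.ne'
  have := (pow_eq_one_iff.1 h2).resolve_right h3
  omega

lemma ne_zero_of_dvd (hn : 2 ≤ n) {α : 𝓞 E} (h : (n : 𝓞 E) ∣ α - 1) : α ≠ 0 := fun e => by
  rw [e, zero_sub, dvd_neg] at h
  exact not_unit_nat hn (isUnit_of_dvd_one h)

lemma Cop_ne_bot (hn : 2 ≤ n) (h : Cop n I) : I ≠ ⊥ := fun e => by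
  unfold Cop at h
  rw [e, Ideal.isCoprime_iff_sup_eq, bot_sup_eq, Ideal.span_singleton_eq_top] at h
  exact not_unit_nat hn h

lemma cop_iff_coprime : Cop n I ↔ (Ideal.absNorm I).Coprime n := by
  constructor
  · intro h
    by_contra c
    obtain ⟨l, hl, h1, h2⟩ := Nat.Prime.not_coprime_iff_dvd.1 c
    obtain ⟨P, hP, hI, hP'⟩ : ∃ P : Ideal (𝓞 E), P.IsMaximal ∧ I ≤ P ∧ (l : 𝓞 E) ∈ P := by
      by_contra hc
      push Not at hc
      have hs : I ⊔ Ideal.span {(l : 𝓞 E)} = ⊤ := by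
        by_contra ht
        obtain ⟨P, hP, hle⟩ := Ideal.exists_le_maximal _ ht
        exact hc P hP (le_sup_left.trans hle)
          (hle (Ideal.mem_sup_right (Ideal.mem_span_singleton_self _)))
      by_cases h0 : I = ⊥
      · rw [h0, bot_sup_eq, Ideal.span_singleton_eq_top] at hs
        exact not_unit_nat hl.two_le hs
      have : Finite (𝓞 E ⧸ I) := Ideal.finiteQuotientOfFreeOfNeBot I h0
      have := Fact.mk hl
      obtain ⟨g, hg⟩ := exists_prime_addOrderOf_dvd_card' (G := 𝓞 E ⧸ I) l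
        (by rwa [Ideal.absNorm_apply, Submodule.cardQuot_apply] at h1)
      have h1' : (1 : 𝓞 E) ∈ I ⊔ Ideal.span {(l : 𝓞 E)} := hs ▸ Submodule.mem_top
      obtain ⟨a, ha, b, hb, hab⟩ := Submodule.mem_sup.1 h1'
      obtain ⟨c, rfl⟩ := Ideal.mem_span_singleton'.1 hb
      have e1 : Ideal.Quotient.mk I c * (l : 𝓞 E ⧸ I) = 1 := by
        have := congrArg (Ideal.Quotient.mk I) hab
        rwa [map_add, Ideal.Quotient.eq_zero_iff_mem.2 ha, zero_add, map_mul, map_natCast,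
          map_one] at this
      have e2 : (l : 𝓞 E ⧸ I) * g = 0 := by rw [← nsmul_eq_mul, ← hg, addOrderOf_nsmul_eq_zero]
      have e3 : g = 0 := by rw [← one_mul g, ← e1, mul_assoc, e2, mul_zero]
      rw [e3, addOrderOf_zero] at hg
      exact hl.one_lt.ne hg
    unfold Cop at h
    rw [Ideal.isCoprime_iff_sup_eq] at h
    apply hP.ne_top
    rw [eq_top_iff, ← h]
    refine sup_le hI ((Ideal.span_singleton_le_iff_mem _).2 ?_)
    obtain ⟨c, rfl⟩ := h2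
    rw [Nat.cast_mul]; exact P.mul_mem_right _ hP'
  · intro h
    unfold Cop
    rw [Ideal.isCoprime_iff_sup_eq, Ideal.eq_top_iff_one]
    obtain ⟨a, b, hab⟩ := Nat.isCoprime_iff_coprime.2 h
    have : (1 : 𝓞 E) = (a : 𝓞 E) * (Ideal.absNorm I : 𝓞 E) + (b : 𝓞 E) * n := by
      exact_mod_cast congrArg (Int.cast : ℤ → 𝓞 E) hab.symm
    rw [this]
    exact Submodule.add_mem_sup (I.mul_mem_left _ (Ideal.absNorm_mem I))
      (Ideal.mul_mem_left _ _ (Ideal.mem_span_singleton_self _))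

lemma finite_absNorm (m : ℕ) : {I : Ideal (𝓞 E) | Ideal.absNorm I = m}.Finite :=
  Ideal.finite_setOf_absNorm_eq m

lemma lam_eq_sum (χ : Ideal (𝓞 E) → ℂ) (m : ℕ) :
    lam χ m = ∑ I ∈ (finite_absNorm (E := E) m).toFinset, χ I :=
  finsum_mem_eq_finite_toFinset_sum _ _

lemma lam_congr {χ χ' : Ideal (𝓞 E) → ℂ} {m : ℕ} (h : ∀ I, Ideal.absNorm I = m → χ I = χ' I) :
    lam χ m = lam χ' m := finsum_mem_congr rfl h

lemma lam_eq_zero {χ : Ideal (𝓞 E) →* ℂ} (h : IsChar n χ) {m : ℕ} (hm : ¬ m.Coprime n) :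
    lam χ m = 0 :=
  finsum_mem_eq_zero_of_forall_eq_zero fun I hI => h.zero I fun c => hm (by
    rw [← (show Ideal.absNorm I = m from hI)]; exact cop_iff_coprime.1 c)

lemma nrm_apply {E' : Type} [Field E'] [NumberField E'] [Algebra E E'] (χ : Ideal (𝓞 E) →* ℂ)
    (I : Ideal (𝓞 E')) : nrm E' χ I = χ (Ideal.relNorm (𝓞 E) I) := rfl

omit [NumberField E] in
lemma res_apply {E' : Type} [Field E'] [Algebra E E'] (χ : Ideal (𝓞 E') →* ℂ)
    (I : Ideal (𝓞 E)) : res E χ I = χ (I.map (algebraMap (𝓞 E) (𝓞 E'))) := rfl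

lemma absNorm_rel {E' : Type} [Field E'] [NumberField E'] [Algebra E E'] (I : Ideal (𝓞 E')) :
    Ideal.absNorm (Ideal.relNorm (𝓞 E) I) = Ideal.absNorm I := Ideal.absNorm_relNorm _ _ I

lemma cop_rel {E' : Type} [Field E'] [NumberField E'] [Algebra E E'] {I : Ideal (𝓞 E')} :
    Cop n (Ideal.relNorm (𝓞 E) I) ↔ Cop n I := by
  rw [cop_iff_coprime, cop_iff_coprime, absNorm_rel]

end Cop

/-! ### the embedding -/

section Fld

variable {k : Type} [Field k] [Algebra k ℂ] {E : Type} [Field E] [Algebra k E]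

lemma emb_apply (a : 𝓞 E) (φ : Emb k E) : emb k a φ = φ a := rfl

lemma emb_add (a b : 𝓞 E) : emb k (a + b) = emb k a + emb k b := by
  funext φ; simp [emb]

lemma emb_sub (a b : 𝓞 E) : emb k (a - b) = emb k a - emb k b := by
  funext φ; simp [emb]

lemma emb_neg (a : 𝓞 E) : emb k (-a) = -emb k a := by funext φ; simp [emb]

lemma emb_mul (a b : 𝓞 E) : emb k (a * b) = emb k a * emb k b := by
  funext φ; simp [emb]

lemma emb_zero : emb k (0 : 𝓞 E) = 0 := by funext φ; simp [emb]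

lemma emb_one : emb k (1 : 𝓞 E) = 1 := by funext φ; simp [emb]

lemma emb_ne_zero {a : 𝓞 E} (h : a ≠ 0) (φ : Emb k E) : emb k a φ ≠ 0 := by
  rw [emb_apply, _root_.map_ne_zero]; exact_mod_cast h

lemma emb_unit_ne_zero (η : (𝓞 E)ˣ) (φ : Emb k E) : emb k (η : 𝓞 E) φ ≠ 0 :=
  emb_ne_zero η.ne_zero φ

/-- the embedding as a ring homomorphism -/
noncomputable def embH (k : Type) [Field k] [Algebra k ℂ] (E : Type) [Field E] [Algebra k E] :
    𝓞 E →+* (Emb k E → ℂ) where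
  toFun := emb k
  map_one' := emb_one
  map_mul' := emb_mul
  map_zero' := emb_zero
  map_add' := emb_add

lemma embH_apply (a : 𝓞 E) : embH k E a = emb k a := rfl

variable [NumberField k] [NumberField E] {n : ℕ} {κ : Emb k E → ℤ} {τ : Emb k E → ℝ}
  {χ : Ideal (𝓞 E) →* ℂ}

lemma ty_emb_mul (κ : Emb k E → ℤ) (τ : Emb k E → ℝ) {a b : 𝓞 E} (ha : a ≠ 0) (hb : b ≠ 0) :
    ty κ τ (emb k (a * b)) = ty κ τ (emb k a) * ty κ τ (emb k b) := by
  rw [emb_mul, ty_mul κ τ (emb_ne_zero ha) (emb_ne_zero hb)]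

lemma isH_triv (n : ℕ) : IsH k n 0 0 (triv E n) where
  toIsChar := isChar_triv
  sum := by simp
  prin α h := by rw [triv_cop (cop_span_of_dvd h), ty_zero]

lemma IsH.unit (h : IsH k n κ τ χ) (η : (𝓞 E)ˣ) (hη : (n : 𝓞 E) ∣ (η : 𝓞 E) - 1) :
    ty κ τ (emb k (η : 𝓞 E)) = 1 := by
  rw [← h.prin _ hη, Ideal.span_singleton_eq_top.2 η.isUnit, ← Ideal.one_eq_top, map_one]

lemma IsH.tr (h : IsH k n κ τ χ) {ℓ : ℝ} (U : UB k E n ℓ) : U.Tr κ τ := fun j =>
  h.unit _ (U.cong j)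

lemma IsH.norm_le (h : IsH k n κ τ χ) (I : Ideal (𝓞 E)) : ‖χ I‖ ≤ 1 := norm_char_le h.toIsChar I

namespace UB

variable {ℓ : ℝ} (U : UB k E n ℓ)

lemma β_nonneg (z : Emb k E → ℂ) : 0 ≤ U.β z := prod_nonneg fun _ _ => tent_nonneg _

lemma β_le_one (z : Emb k E → ℂ) : U.β z ≤ 1 :=
  prod_le_one (fun _ _ => tent_nonneg _) fun _ _ => tent_le_one _

lemma abs_co_lt {z : Emb k E → ℂ} (h : U.β z ≠ 0) (j : Fin U.m) : |U.co (lg z) j| < 1 :=
  tent_ne_zero fun e => h (prod_eq_zero (mem_univ j) e)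

lemma co_const (c : ℝ) : U.co (fun _ => c) = 0 := by
  have : (fun _ : Emb k E => c) = c • fun _ => (1 : ℝ) := by funext φ; simp
  rw [this, map_smul, U.co_one, smul_zero]

lemma lv_co {x : Emb k E → ℝ} (h : ∑ φ, x φ = 0) : U.lv (U.co x) = x := U.span x h

lemma co_lv (x : Fin U.m → ℝ) : U.co (U.lv x) = x := by
  unfold lv
  rw [map_sum]
  simp only [map_smul, U.co_ε]
  funext j
  simp [Finset.sum_apply, Pi.single_apply]

lemma lv_add (x y : Fin U.m → ℝ) : U.lv (x + y) = U.lv x + U.lv y := by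
  unfold lv; simp only [Pi.add_apply, add_smul, sum_add_distrib]

lemma lv_sub (x y : Fin U.m → ℝ) : U.lv (x - y) = U.lv x - U.lv y := by
  unfold lv; simp only [Pi.sub_apply, sub_smul, sum_sub_distrib]

lemma norm_le_lv (x : Fin U.m → ℝ) : ‖x‖ ≤ ‖U.lv x‖ / 100 := by
  have := U.small (U.lv x)
  rwa [U.co_lv] at this

lemma norm_lv_le (x : Fin U.m → ℝ) : ‖U.lv x‖ ≤ U.m * ℓ * ‖x‖ := by
  unfold lv
  refine (norm_sum_le _ _).trans ((sum_le_card_nsmul _ _ (ℓ * ‖x‖) fun j _ => ?_).trans ?_)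
  · rw [norm_smul, mul_comm]
    exact mul_le_mul (U.size j) (norm_le_pi_norm x j) (norm_nonneg _) (zero_le_one.trans U.one_le)
  · simp [mul_assoc]

end UB

end Fld

end Pool.Agent.P.MP_b8021b_nt.VC
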