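import Pool.Agent.P.MP_b8021b_nt.VC.StG

/-! The partition of unity attached to a system of independent units. -/

namespace Pool.Agent.P.MP_b8021b_nt.VC

open Polynomial NumberField Finset MeasureTheory Pool.Agent.P.MP_b8021b_nt.VE
open scoped Classical ComplexConjugate

namespace PartU

lemma tent_nonneg (a : ℝ) : 0 ≤ tent a := le_max_left _ _

lemma tent_ne {a : ℝ} (h : tent a ≠ 0) : |a| < 1 := by
  by_contra hc
  exact h (max_eq_left (by linarith [not_lt.1 hc]))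

lemma tent_pair (x : ℝ) : ∑ m ∈ ({-⌊x⌋, -⌊x⌋ - 1} : Finset ℤ), tent (x + m) = 1 := by
  have h1 := Int.floor_le x
  have h2 := Int.lt_floor_add_one x
  rw [sum_pair (by omega)]
  unfold tent
  push_cast
  rw [abs_of_nonneg (by linarith), abs_of_nonpos (by linarith), max_eq_right (by linarith),
    max_eq_right (by linarith)]
  ring

lemma tent_mem {x : ℝ} {m : ℤ} (h : tent (x + m) ≠ 0) : m ∈ ({-⌊x⌋, -⌊x⌋ - 1} : Finset ℤ) := by
  have h1 := Int.floor_le x
  have h2 := Int.lt_floor_add_one x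
  have := abs_lt.1 (tent_ne h)
  have k1 : ((-⌊x⌋ - 2 : ℤ) : ℝ) < m := by push_cast; linarith
  have k2 : (m : ℝ) < ((-⌊x⌋ + 1 : ℤ) : ℝ) := by push_cast; linarith
  have k3 : -⌊x⌋ - 2 < m := by exact_mod_cast k1
  have k4 : m < -⌊x⌋ + 1 := by exact_mod_cast k2
  simp only [mem_insert, mem_singleton]
  omega

lemma tent_pi {m : ℕ} (x : Fin m → ℝ) :
    {μ : Fin m → ℤ | ∏ j, tent (x j + μ j) ≠ 0}.Finite ∧
      ∑ᶠ μ : Fin m → ℤ, ∏ j, tent (x j + μ j) = 1 := by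
  have hs : Function.support (fun μ : Fin m → ℤ => ∏ j, tent (x j + μ j)) ⊆
      (Fintype.piFinset fun j => ({-⌊x j⌋, -⌊x j⌋ - 1} : Finset ℤ) : Finset (Fin m → ℤ)) := by
    intro μ hμ
    simp only [mem_coe, Fintype.mem_piFinset]
    exact fun j => tent_mem (prod_ne_zero_iff.mp hμ j (mem_univ j))
  refine ⟨(Finset.finite_toSet _).subset hs, ?_⟩
  rw [finsum_eq_sum_of_support_subset _ hs,
    ← prod_univ_sum (fun j => ({-⌊x j⌋, -⌊x j⌋ - 1} : Finset ℤ)) fun j (a : ℤ) => tent (x j + a)]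
  exact prod_eq_one fun j _ => tent_pair (x j)

/-- the double partition trick -/
lemma double {G M : Type} [CommGroup G] [AddCommGroup M] (e : M → G)
    (he : ∀ μ, e (-μ) * e μ = 1) (b₁ b₂ f : G → ℂ) (h₁ : (Function.support b₁).Finite)
    (h₂ : (Function.support b₂).Finite)
    (p₁ : ∀ η, {μ | b₁ (e μ * η) ≠ 0}.Finite ∧ ∑ᶠ μ, b₁ (e μ * η) = 1)
    (p₂ : ∀ η, {μ | b₂ (e μ * η) ≠ 0}.Finite ∧ ∑ᶠ μ, b₂ (e μ * η) = 1)
    (hf : ∀ μ η, f (e μ * η) = f η) : ∑ᶠ η, b₁ η * f η = ∑ᶠ η, b₂ η * f η := by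
  have half : ∀ a b : G → ℂ, (Function.support a).Finite →
      (∀ η, {μ | b (e μ * η) ≠ 0}.Finite ∧ ∑ᶠ μ, b (e μ * η) = 1) →
      ∑ᶠ p : G × M, a p.1 * b (e p.2 * p.1) * f p.1 = ∑ᶠ η, a η * f η := by
    intro a b ha hb
    rw [finsum_curry]
    · refine finsum_congr fun η => ?_
      have : ∀ μ, a η * b (e μ * η) * f η = (a η * f η) * b (e μ * η) := fun μ => by ring
      simp only [this]
      rw [← mul_finsum, (hb η).2, mul_one]
    · refine (ha.biUnion fun η _ => (hb η).1.image fun μ => (η, μ)).subset ?_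
      rintro ⟨η, μ⟩ hp
      simp only [Function.mem_support, ne_eq, mul_eq_zero, not_or] at hp
      exact Set.mem_biUnion (show η ∈ Function.support a from hp.1.1) ⟨μ, hp.1.2, rfl⟩
  rw [← half b₁ b₂ h₁ p₂, ← half b₂ b₁ h₂ p₁]
  have inv : Function.Involutive fun p : G × M => (e p.2 * p.1, -p.2) := by
    rintro ⟨η, μ⟩
    simp only [neg_neg, ← mul_assoc, he, one_mul]
  refine finsum_eq_of_bijective _ inv.bijective ?_
  rintro ⟨η, μ⟩
  simp only [← mul_assoc, he, one_mul, hf]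
  ring

section Vec

variable {ι : Type} [Fintype ι]

omit [Fintype ι] in
lemma lg_mul {z w : ι → ℂ} (hz : ∀ φ, z φ ≠ 0) (hw : ∀ φ, w φ ≠ 0) : lg (z * w) = lg z + lg w := by
  funext φ
  simp only [lg, Pi.mul_apply, Pi.add_apply, norm_mul]
  exact Real.log_mul (norm_ne_zero_iff.mpr (hz φ)) (norm_ne_zero_iff.mpr (hw φ))

lemma ty_mul (κ : ι → ℤ) (τ : ι → ℝ) {z w : ι → ℂ} (hz : ∀ φ, z φ ≠ 0) (hw : ∀ φ, w φ ≠ 0) :
    ty κ τ (z * w) = ty κ τ z * ty κ τ w := by
  unfold ty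
  rw [← prod_mul_distrib]
  refine prod_congr rfl fun φ _ => ?_
  have hd : dir (z φ * w φ) = dir (z φ) * dir (w φ) := by
    unfold dir
    rw [norm_mul, Complex.ofReal_mul, mul_div_mul_comm]
  rw [Pi.mul_apply, hd, norm_mul,
    Real.log_mul (norm_ne_zero_iff.mpr (hz φ)) (norm_ne_zero_iff.mpr (hw φ)), mul_add,
    Complex.ofReal_add, mul_add, Complex.exp_add, mul_zpow]
  ring

lemma ty_one (κ : ι → ℤ) (τ : ι → ℝ) : ty κ τ 1 = 1 := by
  simp [ty, dir]

end Vec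

section Fld

variable {k : Type} [Field k] [NumberField k] [Algebra k ℂ] {E : Type} [Field E] [NumberField E]
  [Algebra k E]

omit [NumberField k] [NumberField E] in
lemma emb_mul (a b : 𝓞 E) : emb k (a * b) = emb k a * emb k b := by
  funext φ
  simp [emb]

omit [NumberField k] [NumberField E] in
lemma emb_one : emb k (1 : 𝓞 E) = 1 := by
  funext φ
  simp [emb]

omit [NumberField k] [NumberField E] in
lemma emb_ne {a : 𝓞 E} (ha : a ≠ 0) (φ : Emb k E) : emb k a φ ≠ 0 := by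
  simpa [emb] using ha

/-- the logarithmic embedding of the units -/
noncomputable def lgU : Additive (𝓞 E)ˣ →+ (Emb k E → ℝ) where
  toFun u := lg (emb k ((Additive.toMul u : (𝓞 E)ˣ) : 𝓞 E))
  map_zero' := by
    funext φ
    simp [lg, emb]
  map_add' u v := by
    rw [toMul_add, Units.val_mul, emb_mul,
      lg_mul (emb_ne (Units.ne_zero _)) (emb_ne (Units.ne_zero _))]

/-- the type on the units -/
noncomputable def tyU (κ : Emb k E → ℤ) (τ : Emb k E → ℝ) : (𝓞 E)ˣ →* ℂ where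
  toFun u := ty κ τ (emb k (u : 𝓞 E))
  map_one' := by rw [Units.val_one, emb_one, ty_one]
  map_mul' u v := by
    rw [Units.val_mul, emb_mul, ty_mul κ τ (emb_ne (Units.ne_zero _)) (emb_ne (Units.ne_zero _))]

/-- the units congruent to one -/
def cong (E : Type) [Field E] (n : ℕ) : Subgroup (𝓞 E)ˣ where
  carrier := {η | (n : 𝓞 E) ∣ (η : 𝓞 E) - 1}
  one_mem' := by simp
  mul_mem' {a b} ha hb := by
    have : ((a * b : (𝓞 E)ˣ) : 𝓞 E) - 1 = a * (b - 1) + (a - 1) := by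
      rw [Units.val_mul]
      ring
    rw [Set.mem_ofPred_eq, this]
    exact dvd_add (Dvd.dvd.mul_left hb _) ha
  inv_mem' {a} ha := by
    have : ((a⁻¹ : (𝓞 E)ˣ) : 𝓞 E) - 1 = -((a⁻¹ : (𝓞 E)ˣ) : 𝓞 E) * (a - 1) := by
      rw [neg_mul, mul_sub, Units.inv_mul]
      ring
    rw [Set.mem_ofPred_eq, this]
    exact Dvd.dvd.mul_left ha _

variable {n : ℕ} {ℓ : ℝ} (U : UB k E n ℓ)

lemma co_eq (z : Emb k E → ℂ) (μ : Fin U.m → ℤ) (hz : ∀ φ, z φ ≠ 0) :
    U.co (lg (emb k ((∏ j, U.ε j ^ μ j : (𝓞 E)ˣ) : 𝓞 E) * z)) =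
      U.co (lg z) + fun j => (μ j : ℝ) := by
  have h : lg (emb k ((∏ j, U.ε j ^ μ j : (𝓞 E)ˣ) : 𝓞 E)) =
      ∑ j, μ j • lg (emb k (U.ε j : 𝓞 E)) := by
    have := map_sum (lgU (k := k) (E := E)) (fun j => μ j • Additive.ofMul (U.ε j)) univ
    simp only [map_zsmul] at this
    refine Eq.trans ?_ this
    simp only [← ofMul_zpow, ← ofMul_prod]
    rfl
  rw [lg_mul (emb_ne (Units.ne_zero _)) hz, map_add, h, map_sum, add_comm]
  congr 1
  funext i
  simp only [map_zsmul, U.co_ε]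
  simp [Pi.single_apply]

lemma part (z : Emb k E → ℂ) (hz : ∀ φ, z φ ≠ 0) :
    {μ : Fin U.m → ℤ | U.β (emb k ((∏ j, U.ε j ^ μ j : (𝓞 E)ˣ) : 𝓞 E) * z) ≠ 0}.Finite ∧
      ∑ᶠ μ : Fin U.m → ℤ, U.β (emb k ((∏ j, U.ε j ^ μ j : (𝓞 E)ˣ) : 𝓞 E) * z) = 1 := by
  simp only [UB.β, co_eq U z _ hz, Pi.add_apply]
  exact tent_pi _

lemma bound (hc : Fintype.card (Emb k E) = U.m + 1) (Z : ℝ) : ∃ R : ℝ, ∀ z : Emb k E → ℂ,
    U.β z ≠ 0 → nz z ≤ Z → (∀ φ, z φ ≠ 0) → ‖z‖ ≤ R := by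
  refine ⟨Real.exp (|Real.log Z| + U.m * ℓ), fun z hβ hZ hz => ?_⟩
  rw [pi_norm_le_iff_of_nonneg (Real.exp_pos _).le]
  intro φ
  set c : ℝ := (∑ ψ, lg z ψ) / (U.m + 1) with hcdef
  have hm : (0 : ℝ) < U.m + 1 := by positivity
  have h0 : ∑ ψ, (lg z - c • (fun _ => (1 : ℝ) : Emb k E → ℝ) : Emb k E → ℝ) ψ = 0 := by
    simp only [Pi.sub_apply, Pi.smul_apply, smul_eq_mul, mul_one, sum_sub_distrib, sum_const,
      card_univ, hc, nsmul_eq_mul, hcdef]
    push_cast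
    field_simp
    ring
  have h1 := congrFun (U.span _ h0) φ
  rw [map_sub, map_smul, U.co_one, smul_zero, sub_zero] at h1
  simp only [Finset.sum_apply, Pi.smul_apply, smul_eq_mul, Pi.sub_apply, mul_one] at h1
  have h2 : ∑ j, U.co (lg z) j * lg (emb k (U.ε j : 𝓞 E)) φ ≤ U.m * ℓ := by
    calc _ ≤ ∑ _j : Fin U.m, ℓ := sum_le_sum fun j _ => ?_
      _ = _ := by simp
    have a := tent_ne (prod_ne_zero_iff.mp hβ j (mem_univ j))
    have b : |lg (emb k (U.ε j : 𝓞 E)) φ| ≤ ℓ := (norm_le_pi_norm _ φ).trans (U.size j)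
    calc _ ≤ |U.co (lg z) j| * |lg (emb k (U.ε j : 𝓞 E)) φ| := by
          rw [← abs_mul]
          exact le_abs_self _
      _ ≤ 1 * ℓ := mul_le_mul a.le b (abs_nonneg _) zero_le_one
      _ = ℓ := one_mul _
  have hpos : 0 < nz z := prod_pos fun ψ _ => pow_pos (norm_pos_iff.mpr (hz ψ)) 2
  have h3 : 2 * ∑ ψ, lg z ψ ≤ Real.log Z := by
    have : Real.log (nz z) = 2 * ∑ ψ, lg z ψ := by
      rw [nz, Real.log_prod fun ψ _ => (pow_pos (norm_pos_iff.mpr (hz ψ)) 2).ne', mul_sum]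
      refine sum_congr rfl fun ψ _ => ?_
      rw [Real.log_pow]
      rfl
    rw [← this]
    exact Real.log_le_log hpos hZ
  have h4 : c ≤ |Real.log Z| := by
    rw [hcdef, div_le_iff₀ hm]
    have := le_abs_self (Real.log Z)
    have := abs_nonneg (Real.log Z)
    have : (0 : ℝ) ≤ U.m := Nat.cast_nonneg _
    nlinarith
  rw [← Real.exp_log (norm_pos_iff.mpr (hz φ))]
  refine Real.exp_le_exp.mpr ?_
  have : lg z φ = Real.log ‖z φ‖ := rfl
  linarith

end Fld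

end PartU

open PartU in
theorem p_part (hEmb : S_Emb) : S_Part := by
  intro k _ _ _ K E _ _ _ n ℓ U
  obtain ⟨C, hC⟩ := hEmb k K (Module.finrank k E)
  obtain ⟨hc, -, hD, hnm, -, hlat, hdisc, -⟩ := hC E rfl
  have hball : ∀ R : ℝ, {α : 𝓞 E | ‖emb k α‖ ≤ R}.Finite := by
    intro R
    obtain ⟨⟨hd, -⟩, -⟩ := hdisc ⊤ top_ne_bot
    have : DiscreteTopology (lat k (⊤ : Ideal (𝓞 E))).toAddSubgroup := hd
    have hfin := Metric.finite_isBounded_inter_isClosed
      (s := ((lat k (⊤ : Ideal (𝓞 E))).toAddSubgroup : Set (Emb k E → ℂ)))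
      ⟨this⟩ (Metric.isBounded_closedBall (x := (0 : Emb k E → ℂ)) (r := R))
      AddSubgroup.isClosed_of_discrete
    have hne : Nonempty (Emb k E) := Fintype.card_pos_iff.mp (by omega)
    refine (hfin.preimage (f := emb k) ?_).subset ?_
    · intro a _ b _ hab
      obtain ⟨φ⟩ := hne
      exact RingOfIntegers.ext (φ.toRingHom.injective (congrFun hab φ))
    · intro α hα
      exact ⟨by simpa using hα, (hlat ⊤ _).mpr ⟨α, trivial, rfl⟩⟩
  have hfin : ∀ Z : ℝ, {α : 𝓞 E | U.β (emb k α) ≠ 0 ∧ nz (emb k α) ≤ Z}.Finite := by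
    intro Z
    obtain ⟨R, hR⟩ := bound U (hc.trans U.hm.symm) Z
    refine ((hball R).insert 0).subset fun α hα => ?_
    by_cases h0 : α = 0
    · exact Or.inl h0
    · exact Or.inr (hR _ hα.1 hα.2 (emb_ne h0))
  have hsupp : ∀ α : 𝓞 E, α ≠ 0 →
      (Function.support fun η : (𝓞 E)ˣ => U.β (emb k (η * α))).Finite := by
    intro α hα
    refine ((hfin (nz (emb k α))).preimage (f := fun η : (𝓞 E)ˣ => (η : 𝓞 E) * α) ?_).subset ?_
    · intro a _ b _ hab
      exact Units.ext (mul_right_cancel₀ hα hab)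
    · intro η hη
      refine ⟨hη, le_of_eq ?_⟩
      rw [← hnm, ← hnm, Ideal.span_singleton_mul_left_unit η.isUnit]
  set e : (Fin U.m → ℤ) → (𝓞 E)ˣ := fun μ => ∏ j, U.ε j ^ μ j with he
  have he1 : ∀ μ, e (-μ) * e μ = 1 := by
    intro μ
    simp only [he, ← prod_mul_distrib, ← zpow_add, Pi.neg_apply, neg_add_cancel, zpow_zero,
      prod_const_one]
  have heH : ∀ μ, e μ ∈ cong E n := fun μ =>
    Subgroup.prod_mem _ fun j _ => Subgroup.zpow_mem _ (show U.ε j ∈ cong E n from U.cong j) _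
  have hp : ∀ α : 𝓞 E, α ≠ 0 → ∀ η : (𝓞 E)ˣ,
      {μ | ((U.β (emb k ((e μ * η : (𝓞 E)ˣ) * α)) : ℝ) : ℂ) ≠ 0}.Finite ∧
        ∑ᶠ μ, ((U.β (emb k ((e μ * η : (𝓞 E)ˣ) * α)) : ℝ) : ℂ) = 1 := by
    intro α hα η
    obtain ⟨h1, h2⟩ := part U (emb k (η * α)) (emb_ne (mul_ne_zero η.ne_zero hα))
    simp only [Units.val_mul, mul_assoc, emb_mul (e _ : 𝓞 E), ne_eq, Complex.ofReal_eq_zero]
    refine ⟨h1, ?_⟩
    rw [← Complex.ofReal_one, ← h2]
    exact (Complex.ofRealHom.toAddMonoidHom.map_finsum h1).symm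
  have hsC : ∀ α : 𝓞 E, α ≠ 0 →
      (Function.support fun η : (𝓞 E)ˣ => ((U.β (emb k (η * α)) : ℝ) : ℂ)).Finite :=
    fun α hα => (hsupp α hα).subset fun η hη h => hη (by simp only [h, Complex.ofReal_zero])
  have hs1 : (Function.support fun η : (𝓞 E)ˣ => U.β (emb k (η : 𝓞 E))).Finite := by
    simpa only [mul_one] using hsupp 1 one_ne_zero
  refine ⟨part U, co_eq U, hfin, ?_, fun κ τ α hα hT => ?_⟩
  · obtain ⟨h1, h2⟩ := part U 1 fun _ => one_ne_zero
    simp only [mul_one] at h1 h2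
    have einj : Function.Injective e := by
      intro μ ν hμν
      have a := co_eq U 1 μ fun _ => one_ne_zero
      have b := co_eq U 1 ν fun _ => one_ne_zero
      have hμν' : (∏ j, U.ε j ^ μ j) = ∏ j, U.ε j ^ ν j := hμν
      rw [hμν', b, add_right_inj] at a
      funext j
      exact_mod_cast (congrFun a j).symm
    have h3 : ∑ᶠ η ∈ Set.range e, U.β (emb k (η : 𝓞 E)) = 1 := by
      rw [finsum_mem_range einj]
      exact h2
    rw [← h3, UB.j0, finsum_mem_def, finsum_mem_def]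
    refine finsum_le_finsum' (hs1.subset ?_) (hs1.subset ?_) fun η => ?_
    · exact fun η hη => (Set.support_indicator.subset hη).2
    · exact fun η hη => (Set.support_indicator.subset hη).2
    · refine Set.indicator_le_indicator_of_subset ?_ (fun η => ?_) η
      · rintro _ ⟨μ, rfl⟩
        exact heH μ
      · exact prod_nonneg fun j _ => tent_nonneg _
  · set f : (𝓞 E)ˣ → ℂ := fun η => if η ∈ cong E n then tyU κ τ η else 0 with hf
    have hte : ∀ μ, tyU κ τ (e μ) = 1 := by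
      intro μ
      simp only [he, map_prod, map_zpow]
      exact prod_eq_one fun j _ => by
        rw [show tyU κ τ (U.ε j) = 1 from hT j, one_zpow]
    have hfe : ∀ μ η, f (e μ * η) = f η := by
      intro μ η
      simp only [hf, (cong E n).mul_mem_cancel_left (heH μ), map_mul, hte, one_mul]
    have key : ∀ γ : 𝓞 E, γ ≠ 0 → ∑ᶠ η : (𝓞 E)ˣ, (U.β (emb k (η * γ)) : ℂ) * f η =
        ∑ᶠ η : (𝓞 E)ˣ, (U.β (emb k (η : 𝓞 E)) : ℂ) * f η := by
      intro γ hγ
      have := double e he1 _ _ f (hsC γ hγ) (hsC 1 one_ne_zero) (hp γ hγ) (hp 1 one_ne_zero) hfe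
      simpa only [mul_one] using this
    have lhs : ∑ᶠ η ∈ {η : (𝓞 E)ˣ | (n : 𝓞 E) ∣ (η : 𝓞 E) - 1},
        (U.β (emb k (η * α)) : ℂ) * ty κ τ (emb k (η * α)) =
        (∑ᶠ η : (𝓞 E)ˣ, (U.β (emb k (η : 𝓞 E)) : ℂ) * f η) * ty κ τ (emb k α) := by
      rw [← key α hα, finsum_mul, finsum_mem_def]
      refine finsum_congr fun η => ?_
      by_cases h : η ∈ cong E n
      · rw [Set.indicator_of_mem (show η ∈ {η : (𝓞 E)ˣ | (n : 𝓞 E) ∣ (η : 𝓞 E) - 1} from h)]
        simp only [hf, if_pos h]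
        rw [emb_mul, ty_mul κ τ (emb_ne η.ne_zero) (emb_ne hα), mul_assoc]
        rfl
      · rw [Set.indicator_of_notMem (show η ∉ {η : (𝓞 E)ˣ | (n : 𝓞 E) ∣ (η : 𝓞 E) - 1} from h)]
        simp only [hf, if_neg h, mul_zero, zero_mul]
    rw [lhs]
    split_ifs with hall
    · congr 1
      rw [UB.j0, finsum_mem_def]
      refine Eq.trans (finsum_congr fun η => ?_)
        (Complex.ofRealHom.toAddMonoidHom.map_finsum
          (hs1.subset fun η hη => (Set.support_indicator.subset hη).2)).symm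
      by_cases h : η ∈ cong E n
      · rw [Set.indicator_of_mem (show η ∈ {η : (𝓞 E)ˣ | (n : 𝓞 E) ∣ (η : 𝓞 E) - 1} from h)]
        simp only [hf, if_pos h]
        rw [show tyU κ τ η = 1 from hall η h, mul_one]
        rfl
      · rw [Set.indicator_of_notMem (show η ∉ {η : (𝓞 E)ˣ | (n : 𝓞 E) ∣ (η : 𝓞 E) - 1} from h)]
        simp [hf, if_neg h]
    · push Not at hall
      obtain ⟨η₀, h0, hne⟩ := hall
      have h0' : η₀ ∈ cong E n := h0
      have hne' : tyU κ τ η₀ ≠ 1 := hne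
      set S := ∑ᶠ η : (𝓞 E)ˣ, (U.β (emb k (η : 𝓞 E)) : ℂ) * f η with hS
      have h1 : S * tyU κ τ η₀ = S := by
        conv_lhs => rw [← key η₀ η₀.ne_zero, finsum_mul]
        refine finsum_eq_of_bijective _ (Group.mulRight_bijective η₀) fun η => ?_
        simp only [hf, (cong E n).mul_mem_cancel_right h0', map_mul, Units.val_mul]
        split_ifs
        · ring
        · ring
      have h2 : S = 0 := by
        by_contra hS0
        exact hne' (mul_left_cancel₀ hS0 (h1.trans (mul_one S).symm))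
      rw [h2, zero_mul]

end Pool.Agent.P.MP_b8021b_nt.VC
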