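import Pool.Agent.P.MP_b8021b_nt.VC.GD

/-! Constants are bounded by powers of the size parameter. -/

namespace Pool.Agent.P.MP_b8021b_nt.VC.Geo

open NumberField Finset Pool.Agent.P.MP_b8021b_nt.VE
open scoped Classical

/-- a polynomial bound in a parameter that is at least two is a power of the parameter -/
lemma ex_pow (A : ℝ) (a : ℕ) : ∃ C : ℕ, ∀ C', C ≤ C' → ∀ Q : ℝ, 2 ≤ Q → A * Q ^ a ≤ Q ^ C' := by
  obtain ⟨n, hn⟩ := pow_unbounded_of_one_lt A (one_lt_two (α := ℝ))
  refine ⟨n + a, fun C' hC Q hQ => ?_⟩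
  have h1 : (1 : ℝ) ≤ Q := by linarith
  refine le_trans ?_ (pow_le_pow_right₀ h1 hC)
  rw [pow_add]
  exact mul_le_mul_of_nonneg_right (hn.le.trans (pow_le_pow_left₀ zero_le_two hQ n))
    (by positivity)

variable {k : Type} [Field k] [NumberField k] [Algebra k ℂ] (E : Type) [Field E] [NumberField E]
  [Algebra k E]

variable (k) in
lemma exSmall : ∃ Q : ℝ, 2 ≤ Q ∧ Small k E Q := by
  let B := Module.finBasis k E
  have h : ∀ i, ∃ (c : ℤ) (a : 𝓞 E), c ≠ 0 ∧ (a : E) = c • B i := fun i => by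
    have h1 : IsAlgebraic ℤ (B i) :=
      (IsFractionRing.isAlgebraic_iff ℤ ℚ E).2 (Algebra.IsAlgebraic.isAlgebraic _)
    obtain ⟨c, hc, h2⟩ := h1.exists_integral_multiple
    exact ⟨c, ⟨_, h2⟩, hc, rfl⟩
  choose c a hc ha using h
  refine ⟨2 + ∑ i, ‖emb k (a i)‖, le_add_of_nonneg_right (sum_nonneg fun _ _ => norm_nonneg _),
    a, ?_, fun i φ => ?_⟩
  · have := B.linearIndependent.units_smul fun i => Units.mk0 (c i : k) (Int.cast_ne_zero.2 (hc i))
    have e : (fun i => (a i : E)) =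
        (fun i => Units.mk0 (c i : k) (Int.cast_ne_zero.2 (hc i))) • ⇑B := by
      funext i
      rw [ha]
      simp [Units.smul_def, Int.cast_smul_eq_zsmul]
    rw [e]
    exact this
  · have := single_le_sum (f := fun i => ‖emb k (a i)‖) (fun _ _ => norm_nonneg _) (mem_univ i)
    linarith [norm_le_pi_norm (emb k (a i)) φ]

/-- the geometric data exist for every field over the base field -/
lemma exDat0 (K : BF k) : ∃ (Q : ℝ) (F : Dat E (Emb k E) Q), ∀ a φ, F.τ φ a = emb k a φ := by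
  obtain ⟨Q, -, h⟩ := exSmall k E
  exact ⟨_, exDat K h⟩

end Pool.Agent.P.MP_b8021b_nt.VC.Geo
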