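import Pool.Agent.P.MP_b8021b_nt.VC.GD

/-! Integration in logarithmic polar coordinates. -/

namespace Pool.Agent.P.MP_b8021b_nt.VC.Geo

open MeasureTheory NumberField Finset Pool.Agent.P.MP_b8021b_nt.VE
open scoped Classical

lemma tent_supp : HasCompactSupport tent := by
  refine HasCompactSupport.intro (isCompact_Icc (a := -1) (b := 1)) fun v hv => ?_
  by_contra h
  exact hv (abs_le.mp (tent_ne h).le)

lemma tent_int : ∫ v, tent v = 1 := by
  rw [← intervalIntegral.integral_eq_integral_of_support_subset (a := -1) (b := 1)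
    (fun v hv => ⟨(abs_lt.mp (tent_ne hv)).1, (abs_lt.mp (tent_ne hv)).2.le⟩),
    ← intervalIntegral.integral_add_adjacent_intervals (b := 0)
      (tent_cont.intervalIntegrable _ _) (tent_cont.intervalIntegrable _ _)]
  have h1 : ∫ v in (-1 : ℝ)..0, tent v = ∫ v in (-1 : ℝ)..0, (1 + v) := by
    refine intervalIntegral.integral_congr fun v hv => ?_
    rw [Set.uIcc_of_le (by norm_num)] at hv
    unfold tent
    rw [abs_of_nonpos hv.2, max_eq_right (by linarith [hv.1])]
    ring
  have h2 : ∫ v in (0 : ℝ)..1, tent v = ∫ v in (0 : ℝ)..1, (1 - v) := by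
    refine intervalIntegral.integral_congr fun v hv => ?_
    rw [Set.uIcc_of_le (by norm_num)] at hv
    unfold tent
    rw [abs_of_nonneg hv.1, max_eq_right (by linarith [hv.2])]
  rw [h1, h2, intervalIntegral.integral_add (by simp) (by simp),
    intervalIntegral.integral_sub (by simp) (by simp)]
  simp only [integral_id, intervalIntegral.integral_const, smul_eq_mul]
  norm_num

lemma int_angle (κ : ℤ) : ∫ θ in Set.Ioc (-Real.pi) Real.pi, Complex.exp (θ * Complex.I) ^ κ =
    if κ = 0 then ((2 * Real.pi : ℝ) : ℂ) else 0 := by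
  rw [← intervalIntegral.integral_of_le (by linarith [Real.pi_pos])]
  split_ifs with h
  · simp [h, two_mul]
  · have e : ∀ θ : ℝ, Complex.exp (θ * Complex.I) ^ κ = Complex.exp (κ * Complex.I * θ) :=
      fun θ => by
        rw [← Complex.exp_int_mul]
        congr 1
        ring
    simp only [e]
    rw [integral_exp_mul_complex (mul_ne_zero (Int.cast_ne_zero.2 h) Complex.I_ne_zero)]
    have e2 : (κ : ℂ) * Complex.I * (Real.pi : ℝ) =
        κ * Complex.I * (-Real.pi : ℝ) + κ * (2 * Real.pi * Complex.I) := by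
      push_cast
      ring
    rw [e2, Complex.exp_add, Complex.exp_int_mul_two_pi_mul_I, mul_one, sub_self, zero_div]

/-- the radial integral -/
lemma int_rad (g : ℝ → ℝ) (hg : ∀ x, x ≤ 0 → g x = 0) {Z : ℝ} (hZ : 0 < Z) :
    ∫ s, Real.exp (2 * s) * g (Real.exp (2 * s) / Z) = Z / 2 * ∫ x, g x := by
  have hd : ∀ s ∈ (Set.univ : Set ℝ), HasDerivWithinAt (fun s => Real.exp (2 * s) / Z)
      (Real.exp (2 * s) * 2 / Z) Set.univ s := fun s _ => by
    have := (((hasDerivAt_id s).const_mul 2).exp.div_const Z).hasDerivWithinAt (s := Set.univ)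
    simpa using this
  have h := integral_image_eq_integral_abs_deriv_smul MeasurableSet.univ hd
    (fun a _ b _ hab => by
      have := Real.exp_injective ((div_left_inj' hZ.ne').1 hab)
      linarith) g
  have hi : (fun s => Real.exp (2 * s) / Z) '' Set.univ = Set.Ioi 0 := by
    ext x
    simp only [Set.image_univ, Set.mem_range, Set.mem_Ioi]
    constructor
    · rintro ⟨s, rfl⟩
      positivity
    · intro hx
      refine ⟨Real.log (x * Z) / 2, ?_⟩
      rw [mul_div_cancel₀ _ two_ne_zero, Real.exp_log (by positivity), mul_div_cancel_right₀ _ hZ.ne']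
  rw [hi, setIntegral_eq_integral_of_forall_compl_eq_zero (s := Set.Ioi 0)
    fun x hx => hg x (not_lt.1 hx), setIntegral_univ] at h
  rw [h, ← integral_const_mul]
  refine integral_congr_ae (Filter.Eventually.of_forall fun s => ?_)
  simp only [smul_eq_mul]
  rw [abs_of_pos (by positivity)]
  field_simp

variable {ι : Type} [Fintype ι]

lemma ae_ne : ∀ᵐ z : ι → ℂ, ∀ i, z i ≠ 0 := by
  rw [ae_all_iff]
  intro i
  exact Measure.ae_eval_ne (fun _ : ι => (volume : Measure ℂ)) i 0

lemma nz_eq {z : ι → ℂ} (hz : ∀ i, z i ≠ 0) : nz z = Real.exp (2 * ∑ i, lg z i) := by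
  rw [nz, mul_sum, Real.exp_sum]
  refine prod_congr rfl fun i _ => ?_
  rw [lg, two_mul, Real.exp_add, Real.exp_log (norm_pos_iff.2 (hz i)), pow_two]

lemma ty_zero (κ : ι → ℤ) (z : ι → ℂ) : ty κ 0 z = ∏ i, dir (z i) ^ κ i := by
  simp [ty]

/-- logarithmic polar coordinates -/
theorem int_polar (κ : ι → ℤ) (G : (ι → ℝ) → ℂ) (f : (ι → ℂ) → ℂ)
    (hf : ∀ z, (∀ i, z i ≠ 0) → f z = ty κ 0 z * G (lg z)) :
    ∫ z, f z = (if κ = 0 then (((2 * Real.pi) ^ Fintype.card ι : ℝ) : ℂ) else 0) *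
      ∫ x : ι → ℝ, (Real.exp (2 * ∑ i, x i) : ℝ) * G x := by
  let T : Set (ι → ℝ) := Set.pi Set.univ fun _ => Set.Ioc (-Real.pi) Real.pi
  let e : (ι → ℂ) ≃ᵐ (ι → ℝ) × (ι → ℝ) :=
    (MeasurableEquiv.piCongrRight fun _ : ι => Complex.measurableEquivRealProd).trans
      (MeasurableEquiv.arrowProdEquivProdArrow ℝ ℝ ι)
  have he : MeasurePreserving e volume volume :=
    (volume_measurePreserving_arrowProdEquivProdArrow ℝ ℝ ι).comp
      (volume_preserving_pi fun _ : ι => Complex.volume_preserving_equiv_real_prod)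
  have e1 : ∀ z, e z = (fun i => (z i).re, fun i => (z i).im) := fun z => rfl
  have hT : MeasurableSet ((Set.univ : Set (ι → ℝ)) ×ˢ T) :=
    MeasurableSet.univ.prod (MeasurableSet.univ_pi fun _ => measurableSet_Ioc)
  let S : Set (ι → ℂ) := e ⁻¹' (Set.univ ×ˢ T)
  have hS : ∀ z, z ∈ S ↔ ∀ i, -Real.pi < (z i).im ∧ (z i).im ≤ Real.pi := fun z => by
    simp [S, e1, T]
  have hd : ∀ z ∈ S, HasFDerivWithinAt (fun (z : ι → ℂ) i => Complex.exp (z i))
      (LinearMap.toContinuousLinearMap (mm fun i => Complex.exp (z i))) S z := fun z _ => by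
    apply HasFDerivAt.hasFDerivWithinAt
    rw [hasFDerivAt_pi']
    intro i
    have h1 := ((Complex.hasDerivAt_exp (z i)).hasFDerivAt.restrictScalars ℝ).comp z
      (hasFDerivAt_apply (𝕜 := ℝ) i z)
    refine h1.congr_fderiv ?_
    ext w
    simp [mm_apply, mul_comm]
  have h := integral_image_eq_integral_abs_det_fderiv_smul volume (e.measurable hT) hd
    (fun a ha b hb hab => funext fun i => Complex.exp_inj_of_neg_pi_lt_of_le_pi
      ((hS a).1 ha i).1 ((hS a).1 ha i).2 ((hS b).1 hb i).1 ((hS b).1 hb i).2 (congrFun hab i)) f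
  have hi : (fun (z : ι → ℂ) i => Complex.exp (z i)) '' S =ᵐ[volume] Set.univ := by
    refine Filter.eventuallyEq_univ.2 (ae_ne.mono fun z hz => ?_)
    exact ⟨fun i => Complex.log (z i), (hS _).2 fun i =>
      ⟨Complex.neg_pi_lt_log_im _, Complex.log_im_le_pi _⟩, funext fun i => Complex.exp_log (hz i)⟩
  rw [setIntegral_congr_set hi, setIntegral_univ] at h
  rw [h]
  have h2 := he.setIntegral_preimage_emb e.measurableEmbedding
    (fun p => ((Real.exp (2 * ∑ i, p.1 i) : ℝ) * G p.1) *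
      ∏ i, Complex.exp (p.2 i * Complex.I) ^ κ i) (Set.univ ×ˢ T)
  rw [Measure.volume_eq_prod, setIntegral_prod_mul
    (fun x : ι → ℝ => ((Real.exp (2 * ∑ i, x i) : ℝ) * G x))
    (fun y : ι → ℝ => ∏ i, Complex.exp (y i * Complex.I) ^ κ i), setIntegral_univ] at h2
  have h3 : ∫ y in T, ∏ i, Complex.exp (y i * Complex.I) ^ κ i =
      if κ = 0 then (((2 * Real.pi) ^ Fintype.card ι : ℝ) : ℂ) else 0 := by
    rw [volume_pi, Measure.restrict_pi_pi, integral_fintype_prod_eq_prod
      (fun i (θ : ℝ) => Complex.exp (θ * Complex.I) ^ κ i)]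
    simp only [int_angle]
    split_ifs with h0
    · simp [h0]
    · obtain ⟨i, hi⟩ := Function.ne_iff.1 h0
      exact prod_eq_zero (mem_univ i) (if_neg hi)
  rw [h3, mul_comm] at h2
  rw [← h2]
  refine setIntegral_congr_fun (e.measurable hT) fun z _ => ?_
  have h4 : lg (fun i => Complex.exp (z i)) = fun i => (z i).re := by
    funext i
    rw [lg, Complex.norm_exp, Real.log_exp]
  have h5 : ∀ i, dir (Complex.exp (z i)) = Complex.exp ((z i).im * Complex.I) := fun i => by
    rw [dir, Complex.norm_exp, div_eq_iff (by simp), Complex.ofReal_exp, ← Complex.exp_add,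
      add_comm, Complex.re_add_im]
  have h6 : (LinearMap.toContinuousLinearMap (mm fun i => Complex.exp (z i))).det =
      Real.exp (2 * ∑ i, (z i).re) := by
    have := nz_eq (z := fun i => Complex.exp (z i)) fun i => Complex.exp_ne_zero _
    rw [h4] at this
    rw [← this, nz, ← det_mm]
    rfl
  simp only [h6, e1]
  rw [hf _ fun i => Complex.exp_ne_zero _, h4, ty_zero, abs_of_pos (Real.exp_pos _),
    Complex.real_smul]
  simp only [h5]
  ring

variable {k : Type} [Field k] [NumberField k] [Algebra k ℂ] {E : Type} [Field E] [NumberField E]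
  [Algebra k E] {n : ℕ} {ℓ : ℝ} (U : UB k E n ℓ)

/-- coordinates on the logarithmic space -/
noncomputable def cs : (Emb k E → ℝ) →ₗ[ℝ] (Fin U.m → ℝ) × ℝ :=
  U.co.prod (∑ φ, LinearMap.proj φ)

lemma cs_apply (x : Emb k E → ℝ) : cs U x = (U.co x, ∑ φ, x φ) := by
  simp [cs]

lemma cs_inj : Function.Injective (cs U) := by
  rw [injective_iff_map_eq_zero]
  intro x hx
  rw [cs_apply, Prod.mk_eq_zero] at hx
  rw [← U.span x hx.2, hx.1]
  simp

/-- the Jacobian of the coordinates -/
theorem exJ0 : ∃ J : ℝ, 0 < J ∧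
    (∀ s, MeasurableSet s → volume (cs U ⁻¹' s) = ENNReal.ofReal J * volume s) ∧
    ∀ F : (Fin U.m → ℝ) × ℝ → ℂ, ∫ x, F (cs U x) = J * ∫ p, F p := by
  let L := (LinearMap.linearEquivOfInjective (cs U) (cs_inj U) (by
    simp [U.hm])).toContinuousLinearEquiv
  have : (volume : Measure ((Fin U.m → ℝ) × ℝ)).IsAddHaarMeasure :=
    Measure.prod.instIsAddHaarMeasure _ _
  have : (volume.map L).IsAddHaarMeasure := L.isAddHaarMeasure_map _
  have h := Measure.isAddLeftInvariant_eq_smul (volume.map L) volume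
  have hp := Measure.addHaarScalarFactor_pos_of_isAddHaarMeasure (volume.map L) volume
  refine ⟨Measure.addHaarScalarFactor (volume.map L) volume, hp, fun s hs => ?_, fun F => ?_⟩
  · have h1 : volume (cs U ⁻¹' s) = (volume.map L) s :=
      (Measure.map_apply L.continuous.measurable hs).symm
    rw [h1, ENNReal.ofReal_coe_nnreal]
    conv_lhs => rw [h]
    rfl
  · have h1 : ∫ x, F (cs U x) = ∫ p, F p ∂(volume.map L) :=
      (integral_map_equiv L.toHomeomorph.toMeasurableEquiv F).symm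
    rw [h1]
    conv_lhs => rw [h]
    rw [integral_smul_nnreal_measure, NNReal.smul_def, Complex.real_smul]

lemma int_aux {J : ℝ} (hJ : ∀ F : (Fin U.m → ℝ) × ℝ → ℂ, ∫ x, F (cs U x) = J * ∫ p, F p)
    (g : ℝ → ℝ) (hg : ∀ x, x ≤ 0 → g x = 0) {Z : ℝ} (hZ : 0 < Z) (κ : Emb k E → ℤ)
    (h : (Fin U.m → ℝ) → ℂ) :
    ∫ z : Emb k E → ℂ, ty κ 0 z * h (U.co (lg z)) * (g (nz z / Z) : ℝ) = if κ = 0 then
      ((J * (2 * Real.pi) ^ Fintype.card (Emb k E) / 2 * Z * ∫ x, g x : ℝ) : ℂ) * ∫ x, h x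
      else 0 := by
  rw [int_polar κ (fun x => h (U.co x) * (g (Real.exp (2 * ∑ i, x i) / Z) : ℝ)) _
    fun z hz => by rw [nz_eq hz, mul_assoc]]
  split_ifs with h0
  · have h1 := hJ fun p => h p.1 * (Real.exp (2 * p.2) * g (Real.exp (2 * p.2) / Z) : ℝ)
    rw [Measure.volume_eq_prod, integral_prod_mul h
      (fun s : ℝ => ((Real.exp (2 * s) * g (Real.exp (2 * s) / Z) : ℝ) : ℂ)), integral_complex_ofReal,
      int_rad g hg hZ] at h1
    have h2 : ∀ x : Emb k E → ℝ, ((Real.exp (2 * ∑ i, x i) : ℝ) : ℂ) *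
        (h (U.co x) * (g (Real.exp (2 * ∑ i, x i) / Z) : ℝ)) = h (cs U x).1 *
        (Real.exp (2 * (cs U x).2) * g (Real.exp (2 * (cs U x).2) / Z) : ℝ) := fun x => by
      rw [cs_apply, Complex.ofReal_mul]
      ring
    simp only [h2]
    rw [h1]
    push_cast
    ring
  · rw [zero_mul]

/-- the Jacobian of the coordinates and the volume of the fundamental domain -/
theorem exJ : ∃ J : ℝ, 0 < J ∧ U.vol = J * (2 * Real.pi) ^ Fintype.card (Emb k E) / 2 ∧
    (∀ s, MeasurableSet s → volume (cs U ⁻¹' s) = ENNReal.ofReal J * volume s) ∧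
    ∀ F : (Fin U.m → ℝ) × ℝ → ℂ, ∫ x, F (cs U x) = J * ∫ p, F p := by
  obtain ⟨J, h1, h2, h3⟩ := exJ0 U
  refine ⟨J, h1, ?_, h2, h3⟩
  have h := int_aux U h3 (fun x => tent (x - 2)) (fun x hx => by
    by_contra hc
    linarith [(abs_lt.1 (tent_ne hc)).1]) one_pos 0 fun x => (∏ j, tent (x j) : ℝ)
  rw [if_pos rfl, integral_sub_right_eq_self tent, integral_complex_ofReal,
    integral_fintype_prod_volume_eq_pow, tent_int] at h
  simp only [ty_zero, Pi.zero_apply, zpow_zero, prod_const_one, one_mul, div_one, mul_one, one_pow,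
    ← Complex.ofReal_mul] at h
  rw [integral_complex_ofReal] at h
  exact_mod_cast h

/-- the image of the Lebesgue measure in the logarithmic space -/
theorem int_co (g : ℝ → ℝ) (hg : ∀ x, x ≤ 0 → g x = 0) {Z : ℝ} (hZ : 0 < Z) (κ : Emb k E → ℤ)
    (h : (Fin U.m → ℝ) → ℂ) :
    ∫ z : Emb k E → ℂ, ty κ 0 z * h (U.co (lg z)) * (g (nz z / Z) : ℝ) =
      if κ = 0 then ((U.vol * Z * ∫ x, g x : ℝ) : ℂ) * ∫ x, h x else 0 := by
  obtain ⟨J, -, h2, -, h3⟩ := exJ U
  rw [h2]
  exact int_aux U h3 g hg hZ κ h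

end Pool.Agent.P.MP_b8021b_nt.VC.Geo
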