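import Pool.Agent.P.MP_b8021b_nt.VC.StG
import Pool.Agent.P.MP_b8021b_nt.VC.GC
import Pool.Agent.P.MP_b8021b_nt.VC.GI

/-! Sums of the test functions over a coset. -/

namespace Pool.Agent.P.MP_b8021b_nt.VC

open MeasureTheory NumberField Finset Pool.Agent.P.MP_b8021b_nt.VE Geo
open scoped Classical

namespace Win2

lemma exp_lip {a b : ℝ} (ha : a ≤ Real.log 4) (hb : b ≤ Real.log 4) :
    |Real.exp a - Real.exp b| ≤ 4 * |a - b| := by
  wlog h : a ≤ b generalizing a b
  · rw [abs_sub_comm, abs_sub_comm a]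
    exact this hb ha (le_of_not_ge h)
  have h1 : Real.exp b ≤ 4 := (Real.exp_le_exp.2 hb).trans_eq (Real.exp_log (by norm_num))
  have h2 : Real.exp a = Real.exp b * Real.exp (a - b) := by
    rw [← Real.exp_add]
    congr 1
    ring
  have h3 := Real.add_one_le_exp (a - b)
  rw [abs_sub_comm, abs_of_nonneg (sub_nonneg.2 (Real.exp_le_exp.2 h)), abs_sub_comm,
    abs_of_nonneg (sub_nonneg.2 h), h2]
  nlinarith [Real.exp_pos b]

lemma bump_exp {g : ℝ → ℝ} {Λ : ℝ} (hg : Bump g Λ) (u v : ℝ) :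
    |g (Real.exp u) - g (Real.exp v)| ≤ 4 * Λ * |u - v| := by
  have h0 : ∀ x, 4 ≤ x → g x = 0 := fun x hx => by
    by_contra hc
    linarith [(hg.supp x hc).2]
  have h1 : ∀ u, g (Real.exp u) = g (Real.exp (min u (Real.log 4))) := fun u => by
    rcases le_total u (Real.log 4) with h | h
    · rw [min_eq_left h]
    · rw [min_eq_right h, Real.exp_log (by norm_num), h0 4 le_rfl, h0]
      exact (Real.exp_log (by norm_num)).symm.trans_le (Real.exp_le_exp.2 h)
  rw [h1 u, h1 v]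
  refine (hg.lip _ _).trans ?_
  have h2 := exp_lip (min_le_right u (Real.log 4)) (min_le_right v (Real.log 4))
  have h3 : |min u (Real.log 4) - min v (Real.log 4)| ≤ |u - v| := by
    simpa using abs_min_sub_min_le_max u (Real.log 4) v (Real.log 4)
  have := hg.one_le
  nlinarith

variable {ι : Type} [Fintype ι]

omit [Fintype ι] in
lemma ML_congr {Λ : ℝ} {f f' : (ι → ℂ) → ℂ} (h : ML Λ f)
    (e : ∀ z, (∀ i, z i ≠ 0) → f' z = f z) : ML Λ f' := by
  intro z w δ h0 h1 h2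
  rw [e z fun i => (h2 i).1, e w fun i => close_ne h1 (h2 i).1 (h2 i).2]
  exact h z w δ h0 h1 h2

lemma ty_le (κ : ι → ℤ) (τ : ι → ℝ) (z : ι → ℂ) : ‖ty κ τ z‖ ≤ 1 := by
  rw [ty, norm_prod]
  refine prod_le_one (fun _ _ => norm_nonneg _) fun i _ => ?_
  rw [norm_mul, Complex.norm_exp_I_mul_ofReal, mul_one]
  exact norm_dir_le _ _

lemma ty_ML {κ : ι → ℤ} {τ : ι → ℝ} {Kb : ℝ} (h1 : ∀ i, |(κ i : ℝ)| ≤ Kb) (h2 : ∀ i, |τ i| ≤ Kb) :
    ML (Fintype.card ι * (4 * Kb)) (ty κ τ) := by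
  have := ML.prod (ι := ι) univ (Λ := fun _ : ι => 4 * Kb)
    (f := fun φ z => dir (z φ) ^ κ φ *
      Complex.exp (Complex.I * ((τ φ * Real.log ‖z φ‖ : ℝ) : ℂ)))
    (fun φ => ((ML_dir φ (κ φ)).mul
      (ML_log (Λ := Kb) (fun x => Complex.exp (Complex.I * ((τ φ * x φ : ℝ) : ℂ)))
        fun x y c hc0 hc => by
          have e : Complex.exp (Complex.I * ((τ φ * x φ : ℝ) : ℂ)) -
              Complex.exp (Complex.I * ((τ φ * y φ : ℝ) : ℂ)) =
              (Complex.exp (Complex.I * ((τ φ * (x φ - y φ) : ℝ) : ℂ)) - 1) *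
              Complex.exp (Complex.I * ((τ φ * y φ : ℝ) : ℂ)) := by
            rw [sub_mul, ← Complex.exp_add, one_mul]
            congr 2
            push_cast
            ring
          rw [e, norm_mul, Complex.norm_exp_I_mul_ofReal, mul_one]
          refine Real.norm_exp_I_mul_ofReal_sub_one_le.trans ?_
          rw [Real.norm_eq_abs, abs_mul]
          exact mul_le_mul (h2 φ) (hc φ) (abs_nonneg _) ((abs_nonneg _).trans (h2 φ)))
      (fun z => norm_dir_le _ _) fun z => (Complex.norm_exp_I_mul_ofReal _).le).mono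
        (by linarith [h1 φ]))
    fun φ z => by
      rw [norm_mul, Complex.norm_exp_I_mul_ofReal, mul_one]
      exact norm_dir_le _ _
  simp only [sum_const, card_univ, nsmul_eq_mul] at this
  exact this

lemma g_ML {g : ℝ → ℝ} {Λ Z : ℝ} (hg : Bump g Λ) (hZ : 0 < Z) :
    ML (2 * (8 * Λ * Fintype.card ι)) fun z : ι → ℂ => (g (nz z / Z) : ℝ) := by
  refine ML_congr (ML_log (fun x => (g (Real.exp (2 * ∑ i, x i - Real.log Z)) : ℝ))
    fun x y c _ hc => ?_) fun z hz => ?_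
  · rw [← Complex.ofReal_sub, Complex.norm_real, Real.norm_eq_abs]
    refine (bump_exp hg _ _).trans ?_
    have e : 2 * ∑ i, x i - Real.log Z - (2 * ∑ i, y i - Real.log Z) = 2 * ∑ i, (x i - y i) := by
      rw [sum_sub_distrib]
      ring
    have h1 : |∑ i, (x i - y i)| ≤ Fintype.card ι * c := by
      refine (abs_sum_le_sum_abs _ _).trans ((sum_le_card_nsmul _ _ c fun i _ => hc i).trans ?_)
      simp
    rw [e, abs_mul, abs_two]
    have := hg.one_le
    nlinarith
  · rw [nz_eq hz, Real.exp_sub, Real.exp_log hZ]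
    rfl

variable {k : Type} [Field k] [NumberField k] [Algebra k ℂ] {E : Type} [Field E] [NumberField E]
  [Algebra k E] {n : ℕ} {ℓ : ℝ} (U : UB k E n ℓ)

lemma beta_le (z : Emb k E → ℂ) : ‖((U.β z : ℝ) : ℂ)‖ ≤ 1 := by
  rw [Complex.norm_real, UB.β, norm_prod]
  refine prod_le_one (fun _ _ => norm_nonneg _) fun i _ => ?_
  rw [Real.norm_of_nonneg (tent_nonneg _)]
  exact tent_le _

lemma beta_ML : ML (U.m * 2) fun z => ((U.β z : ℝ) : ℂ) := by
  have := ML.prod (ι := Emb k E) univ (Λ := fun _ : Fin U.m => 2 * 1)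
    (f := fun j z => ((tent (U.co (lg z) j) : ℝ) : ℂ))
    (fun j => ML_log (fun x => ((tent (U.co x j) : ℝ) : ℂ)) fun x y c hc0 hc => by
      rw [← Complex.ofReal_sub, Complex.norm_real, Real.norm_eq_abs, one_mul]
      refine (tent_lip _ _).trans ?_
      have h1 : |U.co x j - U.co y j| ≤ ‖U.co (x - y)‖ := by
        rw [map_sub]
        exact norm_le_pi_norm (U.co x - U.co y) j
      have h2 : ‖x - y‖ ≤ c := (pi_norm_le_iff_of_nonneg hc0).2 hc
      linarith [U.small (x - y)])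
    fun j z => by
      rw [Complex.norm_real, Real.norm_of_nonneg (tent_nonneg _)]
      exact tent_le _
  simpa [UB.β] using this

lemma supp_beta {z : Emb k E → ℂ} (h : U.β z ≠ 0) (c : ℝ) (hc : |∑ i, (lg z i - c)| ≤ 1)
    (i : Emb k E) : |lg z i - c| ≤ U.m * ℓ + 1 := by
  have hd : (Fintype.card (Emb k E) : ℝ) = U.m + 1 := by
    rw [card_emb, ← U.hm]
    simp
  have hm : (0 : ℝ) ≤ U.m := by positivity
  set a : ℝ := (∑ i, (lg z i - c)) / (U.m + 1) with ha
  have h1 : |a| ≤ 1 := by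
    rw [ha, abs_div, abs_of_pos (by positivity : (0 : ℝ) < U.m + 1), div_le_one (by positivity)]
    linarith
  let y : Emb k E → ℝ := lg z - (c + a) • fun _ => 1
  have hy : ∀ i, y i = lg z i - c - a := fun i => by
    simp only [y, Pi.sub_apply, Pi.smul_apply, smul_eq_mul]
    ring
  have h2 : ∑ i, y i = 0 := by
    simp only [hy]
    rw [sum_sub_distrib, sum_const, card_univ, nsmul_eq_mul, hd, ha, mul_div_cancel₀ _
      (by positivity), sub_self]
  have h3 : U.co y = U.co (lg z) := by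
    simp only [y]
    rw [map_sub, map_smul, U.co_one, smul_zero, sub_zero]
  have h4 : ‖y‖ ≤ U.m * ℓ := by
    rw [← U.span y h2, h3]
    refine (norm_sum_le _ _).trans ((sum_le_card_nsmul _ _ ℓ fun j _ => ?_).trans (by simp))
    rw [norm_smul]
    have h5 := tent_ne ((prod_ne_zero_iff.1 h) j (mem_univ j))
    exact (mul_le_of_le_one_left (norm_nonneg _) h5.le).trans (U.size j)
  have h5 : |y i| ≤ ‖y‖ := norm_le_pi_norm y i
  have h6 : lg z i - c = y i + a := by rw [hy]; ring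
  rw [h6]
  linarith [abs_add_le (y i) a]

end Win2

open Win2 in
theorem p_win2 (hVol : S_Vol) (hLat : VE.S_Lat) : S_Win2 := by
  intro k _ _ _ K D
  obtain ⟨C0, hV⟩ := hVol k K D
  obtain ⟨C, hC⟩ := ex_pow (Cw D * |(K.D : ℝ)| ^ (4 * D + 2) * (4 * D) ^ D * (23 * D))
    (4 * D + 2 + D + 1 + 1)
  refine ⟨C, fun E _ _ _ hD Q n ℓ U g Λ Z Kb κ τ 𝔟 β₀ hQ hS hg hZ hK h1 h2 h3 h4 h5 => ?_⟩
  have hc : Fintype.card (Emb k E) = D := card_emb.trans hD
  obtain ⟨F, hF⟩ := exDat K hS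
  have hD1 : 1 ≤ D := hc ▸ card_pos F
  have hDR : (1 : ℝ) ≤ D := by exact_mod_cast hD1
  have hm : (U.m : ℝ) + 1 = D := by exact_mod_cast U.hm.trans hD
  have hm0 : (0 : ℝ) ≤ U.m := by positivity
  have hZ0 : 0 < Z := by linarith
  have hℓ := U.one_le
  have hΛ := hg.one_le
  have hN := one_le_normR h5
  have hgb : ∀ z : Emb k E → ℂ, ‖((g (nz z / Z) : ℝ) : ℂ)‖ ≤ 1 := fun z => by
    rw [Complex.norm_real]
    exact hg.abs_le _
  have hb2 : ∀ z : Emb k E → ℂ, ‖((U.β z : ℝ) : ℂ) * ((g (nz z / Z) : ℝ) : ℂ)‖ ≤ 1 := fun z => by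
    rw [norm_mul]
    exact mul_le_one₀ (beta_le U z) (norm_nonneg _) (hgb z)
  have hρ : Real.log (Z ^ (1 / (2 * D) : ℝ)) = 1 / (2 * D) * Real.log Z := Real.log_rpow hZ0 _
  have hW := (winGen F hLat (f := fun z => ty κ τ z * (U.β z * g (nz z / Z) : ℝ))
    (ρ := Z ^ (1 / (2 * D) : ℝ)) (L := U.m * ℓ + 1)
    (Λ := D * (4 * Kb) + (U.m * 2 + 2 * (8 * Λ * D)))
    (Real.one_le_rpow hZ (by positivity)) (by positivity) (by positivity)
    (fun z => by
      rw [norm_mul, Complex.ofReal_mul]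
      exact mul_le_one₀ (ty_le κ τ z) (norm_nonneg _) (hb2 z))
    (by
      have := (ty_ML h1 h2).mul ((beta_ML U).mul (g_ML hg hZ0) (beta_le U) hgb) (ty_le κ τ) hb2
      rw [hc] at this
      simpa only [Complex.ofReal_mul] using this)
    (fun z hz => by
      have h6 := Complex.ofReal_ne_zero.1 (right_ne_zero_of_mul hz)
      obtain ⟨h7, h8⟩ := hg.supp _ (right_ne_zero_of_mul h6)
      have h9 : ∀ i, z i ≠ 0 := fun i h0 => by
        have : nz z = 0 := prod_eq_zero (mem_univ i) (by simp [h0])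
        rw [this, zero_div] at h7
        linarith
      have h10 : |∑ i, (lg z i - Real.log (Z ^ (1 / (2 * D) : ℝ)))| ≤ 1 := by
        have e : ∑ i, (lg z i - Real.log (Z ^ (1 / (2 * D) : ℝ))) = Real.log (nz z / Z) / 2 := by
          rw [nz_eq h9, Real.log_div (Real.exp_ne_zero _) hZ0.ne', Real.log_exp, sum_sub_distrib,
            sum_const, card_univ, hc, hρ, nsmul_eq_mul]
          field_simp
        have hp : 0 < nz z / Z := by linarith
        have h11 := Real.log_le_sub_one_of_pos hp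
        have h12 := Real.log_le_sub_one_of_pos (inv_pos.2 hp)
        have h13 : (nz z / Z)⁻¹ ≤ 3 := inv_le_of_inv_le₀ (by norm_num) (by linarith)
        rw [Real.log_inv] at h12
        rw [e, abs_le]
        constructor <;> linarith
      exact ⟨fun i => ⟨h9 i, supp_beta U (left_ne_zero_of_mul h6) _ h10 i⟩, h10⟩) h5 β₀).2.2.2
  simp only [ph_eq hF, cov_eq2 hF] at hW
  rw [(hV E hD n ℓ U).2.2.2.2.2.2 g Λ Z κ τ hg hZ0 h3 h4, ite_div, zero_div, ← Complex.ofReal_div,
    hc] at hW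
  refine hW.trans ?_
  have e1 : (Z ^ (1 / (2 * D) : ℝ)) ^ (2 * D - 1) = Z ^ (1 - 1 / (2 * D) : ℝ) := by
    rw [← Real.rpow_natCast, ← Real.rpow_mul hZ0.le, Nat.cast_sub (by omega)]
    congr 1
    push_cast
    field_simp
  rw [e1]
  refine mul_le_mul_of_nonneg_right ?_ (by positivity)
  set N : ℝ := (Ideal.absNorm 𝔟 : ℝ)
  have hr : Geo.rt (Emb k E) N ≤ N := by
    rw [Geo.rt, hc]
    refine (Real.rpow_le_rpow_of_exponent_le hN (z := 1) ?_).trans_eq (Real.rpow_one _)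
    rw [div_le_one (by positivity)]
    linarith
  have hr0 := (rt_pos (ι := Emb k E) (x := N) (by linarith)).le
  set W : ℝ := Q * N * ℓ * Kb with hWd
  have hQ1 : 1 ≤ Q := by linarith
  have a1 : 1 ≤ Q * N := one_le_mul_of_one_le_of_one_le hQ1 hN
  have a2 : 1 ≤ Q * N * ℓ := one_le_mul_of_one_le_of_one_le a1 hℓ
  have a3 : Q * N * ℓ ≤ W := le_mul_of_one_le_right (by linarith) hK
  have a4 : Q * N ≤ W := (le_mul_of_one_le_right (by linarith) hℓ).trans a3
  have b1 : Q ≤ W := (le_mul_of_one_le_right (by linarith) hN).trans a4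
  have b2 : N ≤ W := (le_mul_of_one_le_left (by linarith) hQ1).trans a4
  have b3 : ℓ ≤ W := (le_mul_of_one_le_left (by linarith) a1).trans a3
  have b4 : Kb ≤ W := le_mul_of_one_le_left (by linarith) a2
  have hW1 : 1 ≤ W := hQ1.trans b1
  have c1 : U.m * ℓ + 1 + 2 ≤ 4 * D * W := by nlinarith
  have c2 : D * (4 * Kb) + (U.m * 2 + 2 * (8 * Λ * D)) + 1 ≤ 23 * D * W * Λ := by
    have d1 : 1 ≤ W * Λ := one_le_mul_of_one_le_of_one_le hW1 hΛ
    have d2 : Kb ≤ W * Λ := b4.trans (le_mul_of_one_le_right (by linarith) hΛ)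
    have d3 : Λ ≤ W * Λ := le_mul_of_one_le_left (by linarith) hW1
    nlinarith
  have hCw : 0 ≤ Cw D := by
    unfold Cw
    positivity
  refine le_trans ?_ (mul_le_mul_of_nonneg_right (hC C le_rfl W (hQ.trans b1)) (by linarith))
  calc _ ≤ Cw D * (|(K.D : ℝ)| * W) ^ (4 * D + 2) * (4 * D * W) ^ D * (23 * D * W * Λ) * W := by
        gcongr
        exact hr.trans b2
    _ = _ := by ring

end Pool.Agent.P.MP_b8021b_nt.VC
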