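import Pool.Agent.P.MP_b8021b_nt.VC.GB
import Pool.Agent.P.MP_b8021b_nt.VE.StN

/-! Sums of a test function over a coset of an ideal, by windows in the logarithmic space. -/

namespace Pool.Agent.P.MP_b8021b_nt.VC.Geo

open MeasureTheory NumberField Finset Pool.Agent.P.MP_b8021b_nt.VE
open scoped Classical

lemma tent_lip (a b : ℝ) : |tent a - tent b| ≤ |a - b| := by
  unfold tent
  have h := abs_max_sub_max_le_abs (1 - |a|) (1 - |b|) 0
  rw [max_comm (1 - |a|), max_comm (1 - |b|)] at h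
  refine h.trans ?_
  have : 1 - |a| - (1 - |b|) = -(|a| - |b|) := by ring
  rw [this, abs_neg]
  exact abs_abs_sub_abs_le_abs_sub a b

lemma tent_nonneg (a : ℝ) : 0 ≤ tent a := le_max_left _ _

lemma tent_le (a : ℝ) : tent a ≤ 1 := max_le zero_le_one (by linarith [abs_nonneg a])

lemma tent_ne {a : ℝ} (h : tent a ≠ 0) : |a| < 1 := by
  by_contra hc
  exact h (max_eq_left (by linarith [not_lt.1 hc]))

lemma tent_cont : Continuous tent := by
  unfold tent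
  fun_prop

lemma tent_sum (s : Finset ℤ) (x : ℝ) (h : ∀ m : ℤ, |x - m| < 1 → m ∈ s) :
    ∑ m ∈ s, tent (x - m) = 1 := by
  have h1 := Int.floor_le x
  have h2 := Int.lt_floor_add_one x
  have e1 : ∑ m ∈ s, tent (x - m) = ∑ m ∈ s ∪ {⌊x⌋, ⌊x⌋ + 1}, tent (x - m) :=
    sum_subset subset_union_left fun m _ hm => by
      by_contra hc
      exact hm (h m (tent_ne hc))
  have e2 : ∑ m ∈ ({⌊x⌋, ⌊x⌋ + 1} : Finset ℤ), tent (x - m) =
      ∑ m ∈ s ∪ {⌊x⌋, ⌊x⌋ + 1}, tent (x - m) :=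
    sum_subset subset_union_right fun m _ hm => by
      by_contra hc
      have := abs_lt.1 (tent_ne hc)
      have k1 : ((⌊x⌋ - 1 : ℤ) : ℝ) < m := by push_cast; linarith
      have k2 : (m : ℝ) < ((⌊x⌋ + 2 : ℤ) : ℝ) := by push_cast; linarith
      have k3 : ⌊x⌋ - 1 < m := by exact_mod_cast k1
      have k4 : m < ⌊x⌋ + 2 := by exact_mod_cast k2
      simp only [mem_insert, mem_singleton] at hm
      omega
  rw [e1, ← e2, sum_pair (by omega)]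
  unfold tent
  push_cast
  rw [abs_of_nonneg (by linarith), abs_of_nonpos (by linarith), max_eq_right (by linarith),
    max_eq_right (by linarith)]
  ring

lemma norm_dir {z : ℂ} (hz : z ≠ 0) : ‖dir z‖ = 1 := by
  unfold dir
  rw [norm_div, Complex.norm_real, norm_norm, div_self (norm_ne_zero_iff.mpr hz)]

lemma norm_dir_le (z : ℂ) (k : ℤ) : ‖dir z ^ k‖ ≤ 1 := by
  by_cases hz : z = 0
  · subst hz
    by_cases hk : k = 0
    · simp [hk]
    · simp [dir, zero_zpow k hk]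
  · rw [norm_zpow, norm_dir hz, one_zpow]

lemma dir_mul (a b : ℂ) : dir (a * b) = dir a * dir b := by
  unfold dir
  rw [norm_mul, Complex.ofReal_mul, mul_div_mul_comm]

lemma pow_lip {u v : ℂ} (hu : ‖u‖ = 1) (hv : ‖v‖ = 1) (n : ℕ) :
    ‖u ^ n - v ^ n‖ ≤ n * ‖u - v‖ := by
  induction n with
  | zero => simp
  | succ n ih =>
    have : u ^ (n + 1) - v ^ (n + 1) = (u ^ n - v ^ n) * u + v ^ n * (u - v) := by ring
    rw [this]
    refine (norm_add_le _ _).trans ?_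
    rw [norm_mul, norm_mul, hu, norm_pow, hv, one_pow]
    push_cast
    linarith

lemma zpow_lip {u v : ℂ} (hu : ‖u‖ = 1) (hv : ‖v‖ = 1) (k : ℤ) :
    ‖u ^ k - v ^ k‖ ≤ |(k : ℝ)| * ‖u - v‖ := by
  obtain ⟨n, rfl | rfl⟩ := Int.eq_nat_or_neg k
  · simpa using pow_lip hu hv n
  · have hu0 : u ≠ 0 := by rintro rfl; simp at hu
    have hv0 : v ≠ 0 := by rintro rfl; simp at hv
    have h1 : u ^ (-(n : ℤ)) - v ^ (-(n : ℤ)) = -(u ^ n - v ^ n) / (u ^ n * v ^ n) := by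
      rw [zpow_neg, zpow_neg, zpow_natCast, zpow_natCast]
      field_simp
      ring
    rw [h1, norm_div, norm_neg, norm_mul, norm_pow, norm_pow, hu, hv]
    simpa using pow_lip hu hv n

lemma close_ne {z w : ℂ} {δ : ℝ} (hδ : δ ≤ 1 / 2) (hz : z ≠ 0) (h : ‖w - z‖ ≤ δ * ‖z‖) :
    w ≠ 0 := by
  rintro rfl
  rw [zero_sub, norm_neg] at h
  nlinarith [norm_pos_iff.2 hz]

lemma dir_close {z w : ℂ} {δ : ℝ} (hδ : δ ≤ 1 / 2) (hz : z ≠ 0) (h : ‖w - z‖ ≤ δ * ‖z‖) :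
    ‖dir w - dir z‖ ≤ 2 * δ := by
  have hw := close_ne hδ hz h
  have hz0 : (‖z‖ : ℂ) ≠ 0 := by exact_mod_cast norm_ne_zero_iff.2 hz
  have hw0 : (‖w‖ : ℂ) ≠ 0 := by exact_mod_cast norm_ne_zero_iff.2 hw
  have h1 : dir w - dir z = ((w - z) + dir w * ((‖z‖ - ‖w‖ : ℝ) : ℂ)) / (‖z‖ : ℂ) := by
    unfold dir
    push_cast
    field_simp
    ring
  rw [h1, norm_div, Complex.norm_real, norm_norm, div_le_iff₀ (norm_pos_iff.2 hz)]
  have h2 := norm_add_le (w - z) (dir w * ((‖z‖ - ‖w‖ : ℝ) : ℂ))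
  rw [norm_mul, norm_dir hw, Complex.norm_real, Real.norm_eq_abs] at h2
  have h3 : |‖z‖ - ‖w‖| ≤ ‖w - z‖ := by
    rw [norm_sub_rev]; exact abs_norm_sub_norm_le z w
  linarith

lemma log_close {z w : ℂ} {δ : ℝ} (h0 : 0 ≤ δ) (hδ : δ ≤ 1 / 2) (hz : z ≠ 0)
    (h : ‖w - z‖ ≤ δ * ‖z‖) : |Real.log ‖w‖ - Real.log ‖z‖| ≤ 2 * δ := by
  have hw := norm_pos_iff.2 (close_ne hδ hz h)
  have hz' := norm_pos_iff.2 hz
  have h3 := abs_le.1 ((abs_norm_sub_norm_le w z).trans h)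
  rw [abs_le]
  constructor
  · have h1 := Real.log_le_sub_one_of_pos (div_pos hz' hw)
    rw [Real.log_div hz'.ne' hw.ne'] at h1
    have h2 : ‖z‖ / ‖w‖ ≤ 1 + 2 * δ := by
      rw [div_le_iff₀ hw]
      nlinarith [mul_nonneg h0 hz'.le, mul_nonneg (mul_nonneg h0 hz'.le) (sub_nonneg.2 hδ)]
    linarith
  · have h1 := Real.log_le_sub_one_of_pos (div_pos hw hz')
    rw [Real.log_div hw.ne' hz'.ne'] at h1
    have h2 : ‖w‖ / ‖z‖ ≤ 1 + δ := by
      rw [div_le_iff₀ hz']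
      linarith
    linarith

variable {ι : Type} [Fintype ι]

/-- multiplicatively Lipschitz functions -/
def ML (Λ : ℝ) (f : (ι → ℂ) → ℂ) : Prop :=
  ∀ (z w : ι → ℂ) (δ : ℝ), 0 ≤ δ → δ ≤ 1 / 2 → (∀ i, z i ≠ 0 ∧ ‖w i - z i‖ ≤ δ * ‖z i‖) →
    ‖f w - f z‖ ≤ Λ * δ

omit [Fintype ι] in
lemma ML.mono {Λ Λ' : ℝ} {f : (ι → ℂ) → ℂ} (h : ML Λ f) (hΛ : Λ ≤ Λ') : ML Λ' f :=
  fun z w δ h0 h1 h2 => (h z w δ h0 h1 h2).trans (mul_le_mul_of_nonneg_right hΛ h0)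

omit [Fintype ι] in
lemma ML.mul {Λ Λ' : ℝ} {f g : (ι → ℂ) → ℂ} (hf : ML Λ f) (hg : ML Λ' g) (bf : ∀ z, ‖f z‖ ≤ 1)
    (bg : ∀ z, ‖g z‖ ≤ 1) : ML (Λ + Λ') fun z => f z * g z := by
  intro z w δ h0 h1 h2
  have e : f w * g w - f z * g z = (f w - f z) * g w + f z * (g w - g z) := by ring
  show ‖f w * g w - f z * g z‖ ≤ _
  rw [e, add_mul]
  refine (norm_add_le _ _).trans (add_le_add ?_ ?_)
  · rw [norm_mul]
    exact (mul_le_of_le_one_right (norm_nonneg _) (bg w)).trans (hf z w δ h0 h1 h2)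
  · rw [norm_mul]
    exact (mul_le_of_le_one_left (norm_nonneg _) (bf z)).trans (hg z w δ h0 h1 h2)

omit [Fintype ι] in
lemma ML.prod {J : Type} (s : Finset J) {Λ : J → ℝ} {f : J → (ι → ℂ) → ℂ}
    (hf : ∀ j, ML (Λ j) (f j)) (bf : ∀ j z, ‖f j z‖ ≤ 1) :
    ML (∑ j ∈ s, Λ j) fun z => ∏ j ∈ s, f j z := by
  induction s using Finset.induction_on with
  | empty => intro z w δ _ _ _; simp
  | insert a s ha ih =>
    simp only [sum_insert ha, prod_insert ha]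
    exact (hf a).mul ih (bf a) fun z => by
      rw [norm_prod]
      exact prod_le_one (fun _ _ => norm_nonneg _) fun j _ => bf j z

omit [Fintype ι] in
lemma ML_dir (i : ι) (k : ℤ) : ML (2 * |(k : ℝ)|) fun z : ι → ℂ => dir (z i) ^ k := by
  intro z w δ h0 h1 h2
  refine (zpow_lip (norm_dir (close_ne h1 (h2 i).1 (h2 i).2)) (norm_dir (h2 i).1) k).trans ?_
  have := mul_le_mul_of_nonneg_left (dir_close h1 (h2 i).1 (h2 i).2) (abs_nonneg (k : ℝ))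
  linarith

omit [Fintype ι] in
lemma ML_log {Λ : ℝ} (G : (ι → ℝ) → ℂ)
    (hG : ∀ (x y : ι → ℝ) (c : ℝ), 0 ≤ c → (∀ i, |x i - y i| ≤ c) → ‖G x - G y‖ ≤ Λ * c) :
    ML (2 * Λ) fun z : ι → ℂ => G fun i => Real.log ‖z i‖ := by
  intro z w δ h0 h1 h2
  refine (hG _ _ (2 * δ) (by linarith) fun i => log_close h0 h1 (h2 i).1 (h2 i).2).trans ?_
  linarith

omit [Fintype ι] in
lemma add_lip {f : (ι → ℂ) → ℂ} {Λ ρ R : ℝ} {t : ι → ℝ} (hρ : 0 < ρ) (hΛ : 0 ≤ Λ) (hR : 0 < R)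
    (hb : ∀ z, ‖f z‖ ≤ 1) (hl : ML Λ f)
    (hs : ∀ z, f z ≠ 0 → ∀ i, ρ * Real.exp (t i) ≤ R * ‖z i‖) (y η : ι → ℂ) {P : ℝ} (hP : 0 ≤ P)
    (hη : ∀ i, ‖η i‖ ≤ P * Real.exp (t i)) : ‖f (y + η) - f y‖ ≤ (Λ + 4) * (R * P / ρ) := by
  have h0 : 0 ≤ R * P / ρ := by positivity
  by_cases hδ : 1 / 2 ≤ R * P / ρ
  · have := (norm_sub_le _ _).trans (add_le_add (hb (y + η)) (hb y))
    nlinarith
  have hδ := (not_le.1 hδ).le
  have key : ∀ z w : ι → ℂ, f z ≠ 0 → (∀ i, ‖w i - z i‖ = ‖η i‖) →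
      ‖f w - f z‖ ≤ (Λ + 4) * (R * P / ρ) := by
    intro z w hz hw
    refine (hl z w _ h0 hδ fun i => ⟨fun h => ?_, ?_⟩).trans (by nlinarith)
    · have := hs z hz i
      rw [h, norm_zero, mul_zero] at this
      nlinarith [Real.exp_pos (t i)]
    · rw [hw, div_mul_eq_mul_div, le_div_iff₀ hρ]
      have h1 := mul_le_mul_of_nonneg_left (hs z hz i) hP
      have h2 := mul_le_mul_of_nonneg_right (hη i) hρ.le
      nlinarith
  by_cases h1 : f y = 0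
  · by_cases h2 : f (y + η) = 0
    · rw [h1, h2, sub_zero, norm_zero]; positivity
    · rw [norm_sub_rev]
      exact key _ _ h2 fun i => by simp
  · exact key _ _ h1 fun i => by simp

lemma cont_of_ML {f : (ι → ℂ) → ℂ} {Λ ρ R : ℝ} {t : ι → ℝ} (hρ : 0 < ρ) (hΛ : 0 ≤ Λ) (hR : 0 < R)
    (hb : ∀ z, ‖f z‖ ≤ 1) (hl : ML Λ f)
    (hs : ∀ z, f z ≠ 0 → ∀ i, ρ * Real.exp (t i) ≤ R * ‖z i‖) : Continuous f := by
  have : LipschitzWith ⟨(Λ + 4) * (R * Real.exp (∑ i, |t i|) / ρ), by positivity⟩ f :=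
    LipschitzWith.of_dist_le_mul fun w z => by
      rw [dist_eq_norm, dist_eq_norm]
      have := add_lip hρ hΛ hR hb hl hs z (w - z) (P := ‖w - z‖ * Real.exp (∑ i, |t i|))
        (by positivity) fun i => by
          refine (norm_le_pi_norm (w - z) i).trans ?_
          rw [mul_assoc, ← Real.exp_add]
          refine le_mul_of_one_le_right (norm_nonneg _) (Real.one_le_exp ?_)
          have h1 := single_le_sum (f := fun i => |t i|) (fun _ _ => abs_nonneg _) (mem_univ i)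
          linarith [neg_abs_le (t i)]
      rw [add_sub_cancel] at this
      refine this.trans (le_of_eq ?_)
      show _ = (Λ + 4) * (R * Real.exp (∑ i, |t i|) / ρ) * ‖w - z‖
      ring
  exact this.continuous

variable {K : Type} [Field K] [NumberField K] {Q : ℝ} (F : Dat K ι Q)

lemma fin_supp {f : (ι → ℂ) → ℂ} {s : ι → ℝ} (hs : ∀ z, f z ≠ 0 → ∀ i, ‖z i‖ ≤ s i) :
    {β : 𝓞 K | f (F.ph β) ≠ 0}.Finite := by
  refine (finite_bdd F (∑ i, |s i|)).subset fun β hβ => ?_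
  refine (pi_norm_le_iff_of_nonneg (sum_nonneg fun _ _ => abs_nonneg _)).2 fun i => ?_
  exact ((hs _ hβ i).trans (le_abs_self _)).trans
    (single_le_sum (f := fun i => |s i|) (fun _ _ => abs_nonneg _) (mem_univ i))

omit [Fintype ι] in
lemma cpt_supp {f : (ι → ℂ) → ℂ} {s : ι → ℝ} (hs : ∀ z, f z ≠ 0 → ∀ i, ‖z i‖ ≤ s i) :
    HasCompactSupport f :=
  HasCompactSupport.intro (box_compact 0 s) fun x hx => by
    by_contra hc
    exact hx (mem_box.2 fun i => by simpa using hs x hc i)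

lemma window (hLat : S_Lat) {f : (ι → ℂ) → ℂ} {Λ ρ R : ℝ} {t : ι → ℝ} (ht : ∑ i, t i = 0)
    (hρ : 1 ≤ ρ) (hΛ : 0 ≤ Λ) (hR : 0 < R) (hb : ∀ z, ‖f z‖ ≤ 1) (hl : ML Λ f)
    (hs : ∀ z, f z ≠ 0 → ∀ i, ρ * Real.exp (t i) ≤ R * ‖z i‖ ∧ ‖z i‖ ≤ R * ρ * Real.exp (t i))
    {𝔟 : Ideal (𝓞 K)} (h : 𝔟 ≠ ⊥) (β₀ : 𝓞 K) {P : ℝ}
    (hP : P = 12 * (Fintype.card ι : ℝ) ^ 2 * Q ^ 2 * rt ι (Ideal.absNorm 𝔟)) :
    ‖∑ᶠ β ∈ {β : 𝓞 K | β - β₀ ∈ 𝔟}, f (F.ph β) - (∫ w, f w) / (Ideal.absNorm 𝔟 * F.cov : ℝ)‖ ≤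
      (Λ + 4) * R * P * (R + P) ^ (2 * Fintype.card ι) * 8 ^ Fintype.card ι / Ideal.absNorm 𝔟 *
        ρ ^ (2 * Fintype.card ι - 1) := by
  have := lat_isZ F h
  have hρ0 : 0 < ρ := by linarith
  have hQ := one_le_Q F
  have hN := one_le_normR h
  have hr := rt_pos (ι := ι) (x := Ideal.absNorm 𝔟) (by linarith)
  have hP0 : 0 ≤ P := by rw [hP]; positivity
  obtain ⟨γ, hγb, hγ, g⟩ := mink F h ht
  have hδ : ∀ c : Fin (2 * Fintype.card ι) → ℝ, (∀ j, |c j| ≤ 1) → ∀ i,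
      ‖(∑ j, c j • F.bas hγ j) i‖ ≤ P * Real.exp (t i) := by
    intro c hc i
    refine (norm_comb F hγ c hc i).trans
      ((mul_le_mul_of_nonneg_left (g i) (by positivity)).trans (le_of_eq ?_))
    rw [hP]; ring
  have main := hLat (ι → ℂ) volume (F.lat 𝔟) _ (F.bas hγ) f ((Λ + 4) * (R * P / ρ))
    (box 0 fun i => (R * ρ + P) * Real.exp (t i)) (F.ph β₀)
    (fun j => by
      rw [bas_apply]
      exact (mem_lat F).mpr ⟨_, 𝔟.mul_mem_right _ hγb, rfl⟩)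
    (cont_of_ML hρ0 hΛ hR hb hl fun z hz i => (hs z hz i).1)
    (cpt_supp fun z hz i => (hs z hz i).2) (box_compact _ _).measure_lt_top.ne
    (fun y c hc => add_lip hρ0 hΛ hR hb hl (fun z hz i => (hs z hz i).1) y _ hP0 (hδ c hc))
    (fun y c hc hy => mem_box.2 fun i => by
      rw [Pi.zero_apply, sub_zero, Pi.add_apply]
      refine (norm_add_le _ _).trans ?_
      linarith [(hs y hy i).2, hδ c hc i])
  rw [cov_eq F h, volr_box _ (fun i => by positivity), prod_sq_exp _ ht] at main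
  rw [sum_conv]
  refine main.trans ?_
  have hc := cov_ge F
  have hd := card_pos F
  obtain ⟨n, hn⟩ : ∃ n, 2 * Fintype.card ι = n + 1 := ⟨2 * Fintype.card ι - 1, by omega⟩
  have h1 : (R * ρ + P) ^ (2 * Fintype.card ι) ≤ ((R + P) * ρ) ^ (2 * Fintype.card ι) :=
    pow_le_pow_left₀ (by positivity) (by nlinarith) _
  have h2 : Real.pi ^ Fintype.card ι ≤ 4 ^ Fintype.card ι :=
    pow_le_pow_left₀ Real.pi_pos.le Real.pi_le_four _
  calc _ ≤ (Λ + 4) * (R * P / ρ) * (4 ^ Fintype.card ι * ((R + P) * ρ) ^ (2 * Fintype.card ι)) /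
        (Ideal.absNorm 𝔟 * (1 / 2) ^ Fintype.card ι) := by gcongr
    _ = _ := by
      rw [mul_pow, show (8 : ℝ) = 4 * 2 by norm_num, mul_pow, one_div, inv_pow,
        show 2 * Fintype.card ι - 1 = n by omega, hn, pow_succ ρ]
      field_simp

/-- the constant in the window theorem -/
noncomputable def Cw (d : ℕ) : ℝ :=
  2 ^ d * (2 * d + 4) * 21 * 3 ^ (2 * d) * 8 ^ d * (12 * (d : ℝ) ^ 2) ^ (2 * d + 1)

/-- the window with centre `m` -/
noncomputable def wd (ρ : ℝ) (m : ι → ℤ) (z : ι → ℂ) : ℂ :=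
  ∏ i, (tent (Real.log ‖z i‖ - Real.log ρ - m i) : ℝ)

lemma wd_le (ρ : ℝ) (m : ι → ℤ) (z : ι → ℂ) : ‖wd ρ m z‖ ≤ 1 := by
  rw [wd, norm_prod]
  refine prod_le_one (fun _ _ => norm_nonneg _) fun i _ => ?_
  rw [Complex.norm_real, Real.norm_of_nonneg (tent_nonneg _)]
  exact tent_le _

lemma wd_ML (ρ : ℝ) (m : ι → ℤ) : ML (2 * Fintype.card ι) (wd ρ m) := by
  have := ML.prod (ι := ι) univ (Λ := fun _ : ι => 2 * 1)
    (f := fun i z => ((tent (Real.log ‖z i‖ - Real.log ρ - m i) : ℝ) : ℂ))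
    (fun i => ML_log (fun x => ((tent (x i - Real.log ρ - m i) : ℝ) : ℂ)) fun x y c _ hc => by
      rw [← Complex.ofReal_sub, Complex.norm_real, Real.norm_eq_abs, one_mul]
      refine (tent_lip _ _).trans (le_of_eq_of_le (congrArg _ (by ring)) (hc i)))
    (fun i z => by
      rw [Complex.norm_real, Real.norm_of_nonneg (tent_nonneg _)]
      exact tent_le _)
  refine this.mono (le_of_eq ?_)
  simp [mul_comm]

theorem winGen (hLat : S_Lat) {f : (ι → ℂ) → ℂ} {Λ ρ L : ℝ} (hρ : 1 ≤ ρ) (hΛ : 0 ≤ Λ) (hL : 0 ≤ L)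
    (hb : ∀ z, ‖f z‖ ≤ 1) (hl : ML Λ f)
    (hs : ∀ z, f z ≠ 0 → (∀ i, z i ≠ 0 ∧ |Real.log ‖z i‖ - Real.log ρ| ≤ L) ∧
      |∑ i, (Real.log ‖z i‖ - Real.log ρ)| ≤ 1) {𝔟 : Ideal (𝓞 K)} (h : 𝔟 ≠ ⊥) (β₀ : 𝓞 K) :
    Continuous f ∧ HasCompactSupport f ∧ {β : 𝓞 K | f (F.ph β) ≠ 0}.Finite ∧
    ‖∑ᶠ β ∈ {β : 𝓞 K | β - β₀ ∈ 𝔟}, f (F.ph β) - (∫ w, f w) / (Ideal.absNorm 𝔟 * F.cov : ℝ)‖ ≤
      Cw (Fintype.card ι) * Q ^ (4 * Fintype.card ι + 2) * (L + 2) ^ Fintype.card ι * (Λ + 1) *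
        rt ι (Ideal.absNorm 𝔟) * ρ ^ (2 * Fintype.card ι - 1) := by
  have := F.ne
  have hρ0 : 0 < ρ := by linarith
  have hQ := one_le_Q F
  have hN := one_le_normR h
  have hr := one_le_rt (ι := ι) hN
  have hd : (1 : ℝ) ≤ Fintype.card ι := by exact_mod_cast card_pos F
  set d := Fintype.card ι with hdd
  let S : Finset (ι → ℤ) := Fintype.piFinset fun _ => Icc (-⌈L⌉) ⌈L⌉
  have hdec : ∀ z, f z = ∑ m ∈ S, f z * wd ρ m z := by
    intro z
    by_cases hz : f z = 0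
    · simp [hz]
    rw [← mul_sum]
    have : ∑ m ∈ S, wd ρ m z = 1 := by
      simp only [wd, S]
      rw [← prod_univ_sum (fun _ : ι => Icc (-⌈L⌉) ⌈L⌉)
        fun i (a : ℤ) => ((tent (Real.log ‖z i‖ - Real.log ρ - a) : ℝ) : ℂ)]
      refine prod_eq_one fun i _ => ?_
      rw [← Complex.ofReal_sum, tent_sum _ _ fun a ha => ?_, Complex.ofReal_one]
      have k1 := abs_le.1 ((hs z hz).1 i).2
      have k2 := abs_lt.1 ha
      have k3 := Int.le_ceil L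
      have k4 : ((-⌈L⌉ - 1 : ℤ) : ℝ) < a := by push_cast; linarith
      have k5 : (a : ℝ) < ((⌈L⌉ + 1 : ℤ) : ℝ) := by push_cast; linarith
      have k6 : -⌈L⌉ - 1 < a := by exact_mod_cast k4
      have k7 : a < ⌈L⌉ + 1 := by exact_mod_cast k5
      rw [mem_Icc]
      omega
    rw [this, mul_one]
  have hb' : ∀ m z, ‖f z * wd ρ m z‖ ≤ 1 := fun m z => by
    rw [norm_mul]
    exact mul_le_one₀ (hb z) (norm_nonneg _) (wd_le ρ m z)
  have hl' : ∀ m, ML (Λ + 2 * d) fun z => f z * wd ρ m z := fun m =>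
    hl.mul (wd_ML ρ m) hb (wd_le ρ m)
  let t : (ι → ℤ) → ι → ℝ := fun m i => m i - (∑ j, (m j : ℝ)) / d
  have ht : ∀ m, ∑ i, t m i = 0 := fun m => by
    simp only [t, sum_sub_distrib, sum_const, card_univ, nsmul_eq_mul]
    field_simp
    ring
  have e3 : Real.exp 3 ≤ 21 := by
    have h1 := Real.exp_one_lt_d9
    have h2 : Real.exp 3 = Real.exp 1 ^ 3 := by rw [← Real.exp_nat_mul]; norm_num
    rw [h2]
    exact (pow_le_pow_left₀ (Real.exp_pos 1).le h1.le 3).trans (by norm_num)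
  have hs' : ∀ m z, f z * wd ρ m z ≠ 0 → ∀ i, ρ * Real.exp (t m i) ≤ 21 * ‖z i‖ ∧
      ‖z i‖ ≤ 21 * ρ * Real.exp (t m i) := by
    intro m z hz i
    obtain ⟨h1, h2⟩ := mul_ne_zero_iff.1 hz
    have h3 : ∀ j, |Real.log ‖z j‖ - Real.log ρ - m j| ≤ 1 := fun j =>
      (tent_ne fun h0 => h2 (prod_eq_zero (mem_univ j) (by rw [h0, Complex.ofReal_zero]))).le
    have h4 : |∑ j, (Real.log ‖z j‖ - Real.log ρ - m j)| ≤ d := by
      refine (abs_sum_le_sum_abs _ _).trans ((sum_le_card_nsmul _ _ 1 fun j _ => h3 j).trans ?_)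
      simp [hdd]
    rw [sum_sub_distrib] at h4
    have h5 := abs_le.1 (hs z h1).2
    have h6 := abs_le.1 h4
    have h7 : |(∑ j, (m j : ℝ)) / d| ≤ 2 := by
      rw [abs_div, abs_of_pos (a := (d : ℝ)) (by linarith), div_le_iff₀ (by linarith), abs_le]
      constructor <;> linarith
    have h8 := abs_le.1 h7
    have h9 := abs_le.1 (h3 i)
    have hz0 := norm_pos_iff.2 ((hs z h1).1 i).1
    have k1 : Real.log ρ + t m i ≤ 3 + Real.log ‖z i‖ := by simp only [t]; linarith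
    have k2 : Real.log ‖z i‖ ≤ 3 + Real.log ρ + t m i := by simp only [t]; linarith
    have k3 := Real.exp_le_exp.2 k1
    have k4 := Real.exp_le_exp.2 k2
    rw [Real.exp_add, Real.exp_add, Real.exp_log hρ0, Real.exp_log hz0] at k3
    rw [Real.exp_add, Real.exp_add, Real.exp_log hρ0, Real.exp_log hz0] at k4
    exact ⟨k3.trans (by gcongr), k4.trans (by gcongr)⟩
  have hc' : ∀ m, Continuous fun z => f z * wd ρ m z := fun m =>
    cont_of_ML hρ0 (by positivity) (by norm_num) (hb' m) (hl' m) fun z hz i => (hs' m z hz i).1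
  have hk' : ∀ m, HasCompactSupport fun z => f z * wd ρ m z := fun m =>
    cpt_supp fun z hz i => (hs' m z hz i).2
  have hbd : ∀ z, f z ≠ 0 → ∀ i, ‖z i‖ ≤ Real.exp (Real.log ρ + L) := fun z hz i => by
    rw [← Real.exp_log (norm_pos_iff.2 ((hs z hz).1 i).1)]
    exact Real.exp_le_exp.2 (by linarith [(abs_le.1 ((hs z hz).1 i).2).2])
  refine ⟨?_, cpt_supp hbd, fin_supp F hbd, ?_⟩
  · rw [funext hdec]
    exact continuous_finsetSum _ fun m _ => hc' m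
  have hsum : ∑ᶠ β ∈ {β : 𝓞 K | β - β₀ ∈ 𝔟}, f (F.ph β) = ∑ m ∈ S,
      ∑ᶠ β ∈ {β : 𝓞 K | β - β₀ ∈ 𝔟}, f (F.ph β) * wd ρ m (F.ph β) := by
    rw [finsum_mem_congr rfl fun β _ => hdec (F.ph β)]
    simp only [← finsum_set_coe_eq_finsum_mem]
    refine finsum_sum_comm _ _ fun m _ => ?_
    exact (fin_supp F (f := fun z => f z * wd ρ m z) fun z hz i => (hs' m z hz i).2).preimage
      Subtype.val_injective.injOn
  have hI : ∫ w, f w = ∑ m ∈ S, ∫ w, f w * wd ρ m w := by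
    rw [← integral_finsetSum _ fun m _ => (hc' m).integrable_of_hasCompactSupport (hk' m)]
    exact congrArg _ (funext hdec)
  rw [hsum, hI, sum_div, ← sum_sub_distrib]
  set P := 12 * (d : ℝ) ^ 2 * Q ^ 2 * rt ι (Ideal.absNorm 𝔟) with hP
  refine (norm_sum_le _ _).trans ((sum_le_card_nsmul _ _ _ fun m _ =>
    window F hLat (ht m) hρ (by positivity) (by norm_num) (hb' m) (hl' m) (hs' m) h β₀ hP).trans ?_)
  have hS : (#S : ℝ) ≤ (2 * (L + 2)) ^ d := by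
    simp only [S, Fintype.card_piFinset, prod_const, card_univ, Int.card_Icc]
    push_cast
    refine pow_le_pow_left₀ (Nat.cast_nonneg _) ?_ _
    have h1 : 0 ≤ ⌈L⌉ := Int.ceil_nonneg hL
    have h2 := Int.ceil_lt_add_one L
    have h3 : (((⌈L⌉ + 1 - -⌈L⌉).toNat : ℤ) : ℝ) = ((2 * ⌈L⌉ + 1 : ℤ) : ℝ) := by
      congr 1; omega
    push_cast at h3
    linarith
  have hP12 : 12 ≤ P := by
    have h1 : (1 : ℝ) ≤ (d : ℝ) ^ 2 * Q ^ 2 * rt ι (Ideal.absNorm 𝔟) :=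
      one_le_mul_of_one_le_of_one_le (one_le_mul_of_one_le_of_one_le (one_le_pow₀ hd)
        (one_le_pow₀ hQ)) hr
    rw [hP]; linarith
  have hPp : P * P ^ (2 * d) = (12 * (d : ℝ) ^ 2) ^ (2 * d + 1) * Q ^ (4 * d + 2) *
      rt ι (Ideal.absNorm 𝔟) * Ideal.absNorm 𝔟 := by
    rw [hP, mul_pow _ (rt ι _), rt_pow (by linarith)]
    ring
  rw [nsmul_eq_mul, ← hdd, ← mul_assoc]
  refine mul_le_mul_of_nonneg_right ?_ (by positivity)
  calc _ ≤ (2 * (L + 2)) ^ d * (((2 * d + 4) * (Λ + 1)) * 21 * P * (3 * P) ^ (2 * d) * 8 ^ d /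
        Ideal.absNorm 𝔟) := by
        gcongr
        · nlinarith
        · linarith
    _ = (2 * (L + 2)) ^ d * ((2 * d + 4) * (Λ + 1)) * 21 * 3 ^ (2 * d) * 8 ^ d *
        (P * P ^ (2 * d)) / Ideal.absNorm 𝔟 := by rw [mul_pow 3]; ring
    _ = _ := by
      rw [hPp, Cw, mul_pow 2]
      field_simp

end Pool.Agent.P.MP_b8021b_nt.VC.Geo
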