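import Pool.Agent.P.MP_b8021b_nt.VC.DefN
import Pool.Agent.P.MP_b8021b_nt.VC.GW

/-! Geometry of numbers for fields over the imaginary quadratic base field: the bridge. -/

namespace Pool.Agent.P.MP_b8021b_nt.VC.Geo

open MeasureTheory NumberField Finset Pool.Agent.P.MP_b8021b_nt.VE
open scoped Classical ComplexConjugate

variable {k : Type} [Field k] [NumberField k] [Algebra k ℂ]

lemma om_sq (K : BF k) : algebraMap k ℂ K.ω ^ 2 = (K.D : ℂ) := by
  have h : ((K.ω : k)) ^ 2 = (K.D : k) := by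
    have := congrArg (algebraMap (𝓞 k) k) K.sq
    simpa using this
  rw [← map_pow, h, map_intCast]

lemma om_im (K : BF k) : (algebraMap k ℂ K.ω).im ≠ 0 := by
  intro h0
  have h := congrArg Complex.re (om_sq K)
  rw [pow_two, Complex.mul_re, h0, Complex.intCast_re] at h
  have : (K.D : ℝ) < 0 := by exact_mod_cast K.neg
  nlinarith [mul_self_nonneg (algebraMap k ℂ K.ω).re]

lemma one_le_D (K : BF k) : (1 : ℝ) ≤ |(K.D : ℝ)| := by
  have : 1 ≤ |K.D| := Int.one_le_abs K.neg.ne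
  exact_mod_cast this

lemma om_le (K : BF k) : ‖algebraMap k ℂ K.ω‖ ≤ |(K.D : ℝ)| := by
  have h := congrArg norm (om_sq K)
  rw [norm_pow, Complex.norm_intCast] at h
  have := one_le_D K
  nlinarith [norm_nonneg (algebraMap k ℂ K.ω)]

lemma norm_k (K : BF k) (x : k) : |((Algebra.norm ℚ x : ℚ) : ℝ)| = ‖algebraMap k ℂ x‖ ^ 2 := by
  let a : k →ₐ[ℚ] ℂ := (algebraMap k ℂ).toRatAlgHom
  let b : k →ₐ[ℚ] ℂ := ((starRingEnd ℂ).comp (algebraMap k ℂ)).toRatAlgHom
  have hab : a ≠ b := fun h => by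
    have h1 : algebraMap k ℂ K.ω = conj (algebraMap k ℂ K.ω) := DFunLike.congr_fun h (K.ω : k)
    exact om_im K (Complex.conj_eq_iff_im.1 h1.symm)
  have hu : (univ : Finset (k →ₐ[ℚ] ℂ)) = {a, b} := by
    symm
    apply eq_univ_of_card
    rw [card_pair hab, AlgHom.card, K.deg]
  have h := Algebra.norm_eq_prod_embeddings ℚ ℂ x
  rw [hu, prod_pair hab] at h
  have h2 := congrArg norm h
  have h3 : ‖b x‖ = ‖algebraMap k ℂ x‖ := Complex.norm_conj _
  rw [norm_mul, h3, eq_ratCast, Complex.norm_ratCast] at h2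
  rw [h2, pow_two]
  rfl

variable {E : Type} [Field E] [NumberField E] [Algebra k E]

lemma card_emb : Fintype.card (Emb k E) = Module.finrank k E := AlgHom.card k E ℂ

omit [NumberField k] [NumberField E] in
lemma emb_mul (a b : 𝓞 E) : emb k (a * b) = emb k a * emb k b := by
  funext φ
  simp [emb]

omit [NumberField k] [NumberField E] in
lemma emb_one : emb k (1 : 𝓞 E) = 1 := by
  funext φ
  simp [emb]

lemma nz_emb (K : BF k) (β : 𝓞 E) : nz (emb k β) = Ideal.absNorm (Ideal.span {β}) := by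
  have h1 : ((Ideal.absNorm (Ideal.span {β}) : ℕ) : ℝ) = |((Algebra.norm ℚ (β : E) : ℚ) : ℝ)| := by
    rw [Ideal.absNorm_span_singleton, Nat.cast_natAbs, ← Algebra.coe_norm_int]
    simp
  rw [h1, ← Algebra.norm_norm (S := k), norm_k K, Algebra.norm_eq_prod_embeddings k ℂ, norm_prod,
    nz, prod_pow]
  rfl

lemma li_emb {b : Fin (Module.finrank k E) → 𝓞 E} (hb : LinearIndependent k fun i => (b i : E)) :
    LinearIndependent ℂ fun i => emb k (b i) := by
  have hp : 0 < Module.finrank k E := Module.finrank_pos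
  have : Nonempty (Fin (Module.finrank k E)) := ⟨⟨0, hp⟩⟩
  let B := basisOfLinearIndependentOfCardEqFinrank hb (Fintype.card_fin _)
  let e : Fin (Module.finrank k E) ≃ Emb k E := (Fintype.equivFinOfCardEq card_emb).symm
  have h1 := Algebra.discr_eq_det_embeddingsMatrixReindex_pow_two k ℂ B e
  have h2 : (Algebra.embeddingsMatrixReindex k ℂ B e).det ≠ 0 := fun h0 => by
    rw [h0, zero_pow two_ne_zero, map_eq_zero] at h1
    exact Algebra.discr_not_zero_of_basis k B h1
  have h3 := Matrix.linearIndependent_rows_of_det_ne_zero h2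
  refine LinearIndependent.of_comp (LinearMap.funLeft ℂ ℂ e) ?_
  have e1 : (⇑(LinearMap.funLeft ℂ ℂ ⇑e) ∘ fun i => emb k (b i)) =
      fun i => Algebra.embeddingsMatrixReindex k ℂ (⇑B) e i := by
    funext i j
    simp [Algebra.embeddingsMatrixReindex, B, emb, LinearMap.funLeft]
  rw [e1]
  exact h3

theorem exDat (K : BF k) {Q : ℝ} (h : Small k E Q) :
    ∃ F : Dat E (Emb k E) (|(K.D : ℝ)| * Q), ∀ a φ, F.τ φ a = emb k a φ := by
  obtain ⟨b, hb, hQ⟩ := h
  have hp : 0 < Module.finrank k E := Module.finrank_pos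
  have hne : Nonempty (Emb k E) := Fintype.card_pos_iff.1 (by rw [card_emb]; exact hp)
  have hQ0 : 0 ≤ Q := (norm_nonneg _).trans (hQ ⟨0, hp⟩ hne.some)
  let w : 𝓞 E := algebraMap (𝓞 k) (𝓞 E) K.ω
  have hw : ∀ φ, emb k w φ = algebraMap k ℂ K.ω := fun φ => φ.commutes (K.ω : k)
  let c : Fin (Module.finrank k E) ⊕ Fin (Module.finrank k E) → 𝓞 E :=
    Sum.elim b fun i => w * b i
  let e : Fin (Module.finrank k E) ⊕ Fin (Module.finrank k E) ≃
      Fin (2 * Fintype.card (Emb k E)) :=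
    Fintype.equivFinOfCardEq (by rw [card_emb]; simp [two_mul])
  have hl : LinearIndependent ℝ fun j => emb k (c j) := by
    rw [Fintype.linearIndependent_iff]
    intro g hg
    have h1 := Fintype.linearIndependent_iff.1 (li_emb hb)
      (fun i => (g (Sum.inl i) : ℂ) + g (Sum.inr i) * algebraMap k ℂ K.ω) (by
        rw [← hg, Fintype.sum_sum_type, ← sum_add_distrib]
        refine sum_congr rfl fun i _ => ?_
        funext φ
        simp only [c, Sum.elim_inl, Sum.elim_inr, emb_mul, Pi.smul_apply, Pi.add_apply,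
          Pi.mul_apply, hw, smul_eq_mul, Complex.real_smul]
        ring)
    have h2 : ∀ i, g (Sum.inr i) = 0 := fun i => by
      have := congrArg Complex.im (h1 i)
      simpa [om_im K] using this
    rintro (i | i)
    · simpa [h2 i] using h1 i
    · exact h2 i
  refine ⟨⟨fun φ => (φ : E →+* ℂ).comp (algebraMap (𝓞 E) E), hne, ?_,
    fun β => (nz_emb K β).symm, c ∘ e.symm, hl.comp e.symm e.symm.injective, fun φ j => ?_⟩,
    fun _ _ => rfl⟩
  · rw [card_emb, ← K.deg, Module.finrank_mul_finrank]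
  · show ‖emb k (c (e.symm j)) φ‖ ≤ _
    rcases e.symm j with i | i
    · exact (hQ i φ).trans (le_mul_of_one_le_left hQ0 (one_le_D K))
    · show ‖emb k (w * b i) φ‖ ≤ _
      rw [emb_mul, Pi.mul_apply, norm_mul, hw]
      exact mul_le_mul (om_le K) (hQ i φ) (norm_nonneg _) (abs_nonneg _)

variable {Q : ℝ} {F : Dat E (Emb k E) Q}

lemma ph_eq (hF : ∀ a φ, F.τ φ a = emb k a φ) (a : 𝓞 E) : F.ph a = emb k a :=
  funext fun φ => hF a φ

lemma lg_eq (hF : ∀ a φ, F.τ φ a = emb k a φ) (a : 𝓞 E) : F.lg a = lg (emb k a) :=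
  funext fun φ => by rw [Dat.lg, hF, lg]

lemma lat_eq (hF : ∀ a φ, F.τ φ a = emb k a φ) (𝔟 : Ideal (𝓞 E)) : F.lat 𝔟 = lat k 𝔟 := by
  apply le_antisymm
  · rintro x ⟨β, hβ, rfl⟩
    exact Submodule.subset_span ⟨β, hβ, (ph_eq hF β).symm⟩
  · rw [lat, Submodule.span_le]
    rintro x ⟨β, hβ, rfl⟩
    exact ⟨β, hβ, ph_eq hF β⟩

lemma cov_eq2 (hF : ∀ a φ, F.τ φ a = emb k a φ) : F.cov = cov2 k E := by
  rw [Dat.cov, cov2, lat_eq hF]

end Pool.Agent.P.MP_b8021b_nt.VC.Geo
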