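import Pool.Agent.P.MP_b8021b_nt.VC.StG

/-! Dirichlet density of the primes of degree one. -/

namespace Pool.Agent.P.MP_b8021b_nt.VC

open NumberField Finset MeasureTheory Filter Topology IsDedekindDomain
open Pool.Agent.P.MP_b8021b_nt.VE
open scoped Classical

namespace Den

variable {E : Type} [Field E] [NumberField E]

theorem two_le (P : HeightOneSpectrum (𝓞 E)) : 2 ≤ Ideal.absNorm P.asIdeal := by
  have h0 : Ideal.absNorm P.asIdeal ≠ 0 := Ideal.absNorm_eq_zero_iff.not.2 P.ne_bot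
  have h1 : Ideal.absNorm P.asIdeal ≠ 1 := Ideal.absNorm_eq_one_iff.not.2 P.isPrime.ne_top
  omega

/-- the primes of higher degree give a convergent sum -/
theorem high : Summable fun P : HeightOneSpectrum (𝓞 E) =>
    if (Ideal.absNorm P.asIdeal).Prime then (0 : ℝ) else (Ideal.absNorm P.asIdeal : ℝ)⁻¹ := by
  let p : HeightOneSpectrum (𝓞 E) → ℕ := fun P => Ideal.absNorm (P.asIdeal.under ℤ)
  have hp : ∀ P, (p P).Prime := fun P =>
    have := P.isPrime
    have : NeZero P.asIdeal := ⟨P.ne_bot⟩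
    Nat.absNorm_under_prime P.asIdeal
  have hl : ∀ P : HeightOneSpectrum (𝓞 E), P.asIdeal.LiesOver (Ideal.span {(p P : ℤ)}) :=
    fun P => Int.liesOver_span_absNorm P.asIdeal
  have h2 : Summable fun m : ℕ => ((m : ℝ) ^ 2)⁻¹ := Real.summable_nat_pow_inv.2 one_lt_two
  have h1 : Summable fun P => ((p P : ℝ) ^ 2)⁻¹ := by
    refine summable_of_sum_le (c := Module.finrank ℚ E * ∑' m : ℕ, ((m : ℝ) ^ 2)⁻¹)
      (fun P => by positivity) fun S => ?_
    rw [sum_comp (fun m : ℕ => ((m : ℝ) ^ 2)⁻¹) p]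
    refine le_trans (sum_le_sum fun m hm => ?_) ((mul_sum _ _ _).ge.trans
      (mul_le_mul_of_nonneg_left (h2.sum_le_tsum _ fun _ _ => by positivity) (by positivity)))
    obtain ⟨P₀, -, rfl⟩ := mem_image.1 hm
    rw [nsmul_eq_mul]
    refine mul_le_mul_of_nonneg_right (Nat.cast_le.2 ?_) (by positivity)
    have h0 : Ideal.span {(p P₀ : ℤ)} ≠ ⊥ := by simpa using (hp P₀).ne_zero
    have : (Ideal.span {(p P₀ : ℤ)}).IsMaximal := PrincipalIdealRing.isMaximal_of_irreducible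
      (Nat.prime_iff_prime_int.1 (hp P₀)).irreducible
    refine le_trans (card_le_card_of_injOn (fun P => P.asIdeal) (fun P hP => ?_)
      fun P _ Q _ h => HeightOneSpectrum.ext h)
      (Ideal.card_primesOverFinset_le_finrank (𝓞 E) ℚ E h0)
    rw [mem_coe, IsDedekindDomain.mem_primesOverFinset_iff h0]
    exact ⟨P.isPrime, (mem_filter.1 hP).2 ▸ hl P⟩
  refine h1.of_nonneg_of_le (fun P => by split_ifs <;> positivity) fun P => ?_
  split_ifs with h
  · positivity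
  · have := hl P
    have h3 := Ideal.absNorm_eq_pow_inertiaDeg' P.asIdeal (hp P)
    have h4 := two_le P
    generalize (Ideal.span {(p P : ℤ)}).inertiaDeg' P.asIdeal = f at h3
    have h5 : 2 ≤ f := by
      rcases f with _ | _ | f
      · rw [pow_zero] at h3; omega
      · rw [zero_add, pow_one] at h3; exact absurd (h3 ▸ hp P) h
      · omega
    have h6 := (hp P).pos
    rw [h3]
    refine inv_anti₀ (by positivity) ?_
    exact_mod_cast Nat.pow_le_pow_right h6 h5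

/-- the summand of the sum over the primes of degree one -/
noncomputable def tm (χ : Ideal (𝓞 E) → ℂ) (s : ℝ) (I : Ideal (𝓞 E)) : ℝ :=
  if (Ideal.absNorm I).Prime then (χ I).re * (Ideal.absNorm I : ℝ) ^ (-s) else 0

theorem tm_le {χ : Ideal (𝓞 E) → ℂ} (hχ : ∀ I, ‖χ I‖ ≤ 1) (s : ℝ) (I : Ideal (𝓞 E)) :
    ‖tm χ s I‖ ≤ (Ideal.absNorm I : ℝ) ^ (-s) := by
  unfold tm
  split_ifs
  · rw [norm_mul, Real.norm_of_nonneg (r := (Ideal.absNorm I : ℝ) ^ (-s)) (by positivity)]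
    exact mul_le_of_le_one_left (by positivity) ((Complex.abs_re_le_norm _).trans (hχ I))
  · rw [norm_zero]; positivity

theorem dsum_eq {χ : Ideal (𝓞 E) → ℂ} {s a : ℝ}
    (h : HasSum (fun P : HeightOneSpectrum (𝓞 E) => tm χ s P.asIdeal) a) :
    dsum (lam χ) s = a := by
  have h1 : HasSum (tm χ s) a := by
    refine (Function.Injective.hasSum_iff (g := fun P : HeightOneSpectrum (𝓞 E) => P.asIdeal)
      (fun P Q h => HeightOneSpectrum.ext h) fun I hI => if_neg fun h2 => hI ?_).1 h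
    exact ⟨⟨I, Ideal.isPrime_of_irreducible_absNorm h2,
      Ideal.absNorm_eq_zero_iff.not.1 h2.ne_zero⟩, rfl⟩
  have h2 := h1.tsum_fiberwise Ideal.absNorm
  have h3 : ∀ m : ℕ, ∑' I : (Ideal.absNorm : Ideal (𝓞 E) → ℕ) ⁻¹' {m}, tm χ s I =
      if m.Prime then (lam χ m).re * (m : ℝ) ^ (-s) else 0 := fun m => by
    have hf : {I : Ideal (𝓞 E) | Ideal.absNorm I = m}.Finite :=
      Ideal.finite_setOfPred_absNorm_eq m
    rw [lam, finsum_mem_eq_finite_toFinset_sum _ hf, Complex.re_sum, sum_mul,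
      show (Ideal.absNorm : Ideal (𝓞 E) → ℕ) ⁻¹' {m} = hf.toFinset from hf.coe_toFinset.symm,
      Finset.tsum_subtype' _ (tm χ s)]
    split_ifs with h
    · refine sum_congr rfl fun I hI => ?_
      have e : Ideal.absNorm I = m := hf.mem_toFinset.1 hI
      rw [tm, e, if_pos h]
    · refine sum_eq_zero fun I hI => ?_
      have e : Ideal.absNorm I = m := hf.mem_toFinset.1 hI
      rw [tm, e, if_neg h]
  simp only [h3] at h2
  have h4 := (Function.Injective.hasSum_iff (g := fun q : Nat.Primes => (q : ℕ))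
    Subtype.val_injective fun m hm => if_neg fun h => hm ⟨⟨m, h⟩, rfl⟩).2 h2
  exact (tsum_congr fun q => (if_pos q.2).symm).trans h4.tsum_eq

theorem pw_le (P : HeightOneSpectrum (𝓞 E)) {s t : ℝ} (h : t ≤ s) :
    (Ideal.absNorm P.asIdeal : ℝ) ^ (-s) ≤ (Ideal.absNorm P.asIdeal : ℝ) ^ (-t) :=
  Real.rpow_le_rpow_of_exponent_le (by exact_mod_cast one_le_two.trans (two_le P)) (by linarith)

theorem sm (hEP : S_EP) {s : ℝ} (hs : 1 < s) :
    Summable fun P : HeightOneSpectrum (𝓞 E) => (Ideal.absNorm P.asIdeal : ℝ) ^ (-s) :=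
  (hEP E 1 s (fun I => by simp) hs).2.1

/-- away from the pole -/
theorem far (hEP : S_EP) {χ : Ideal (𝓞 E) → ℂ} (hχ : ∀ I, ‖χ I‖ ≤ 1) {t : ℝ} (ht : 1 < t) :
    ∃ C, ∀ s, t ≤ s → |dsum (lam χ) s| ≤ C := by
  obtain ⟨B, hB⟩ := sm (E := E) hEP ht
  refine ⟨B, fun s hs => ?_⟩
  have h1 : ∀ P : HeightOneSpectrum (𝓞 E), ‖tm χ s P.asIdeal‖ ≤ _ :=
    fun P => (tm_le hχ s _).trans (pw_le P hs)
  rw [dsum_eq ((sm hEP ht).of_norm_bounded h1).hasSum]
  exact tsum_of_norm_bounded hB h1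

/-- comparison with the logarithm of the `L`-series -/
theorem cmp (hEP : S_EP) (χ : Ideal (𝓞 E) →* ℂ) (hχ : ∀ I, ‖χ I‖ ≤ 1) :
    ∃ C, ∀ s : ℝ, 1 < s → LSeries (lam χ) s ≠ 0 ∧
      |dsum (lam χ) s - Real.log ‖LSeries (lam χ) s‖| ≤ C := by
  obtain ⟨B, hB⟩ := (sm (E := E) hEP one_lt_two).add high
  refine ⟨B, fun s hs => ?_⟩
  obtain ⟨-, -, h1⟩ := hEP E χ s hχ hs
  let z : HeightOneSpectrum (𝓞 E) → ℂ := fun P =>
    χ P.asIdeal * (Ideal.absNorm P.asIdeal : ℂ) ^ (-(s : ℂ))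
  have hz : ∀ P, z P = χ P.asIdeal * ((Ideal.absNorm P.asIdeal : ℝ) ^ (-s) : ℝ) := fun P => by
    rw [Complex.ofReal_cpow (by positivity), Complex.ofReal_natCast, Complex.ofReal_neg]
  have z1 : ∀ P, ‖z P‖ ≤ (Ideal.absNorm P.asIdeal : ℝ) ^ (-s) := fun P => by
    rw [hz, norm_mul, Complex.norm_real, Real.norm_of_nonneg (by positivity)]
    exact mul_le_of_le_one_left (by positivity) (hχ _)
  have z2 : ∀ P, ‖z P‖ ≤ (Ideal.absNorm P.asIdeal : ℝ)⁻¹ := fun P => by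
    rw [← Real.rpow_neg_one]
    exact (z1 P).trans (pw_le P hs.le)
  have z3 : ∀ P, ‖z P‖ ≤ 1 / 2 := fun P => by
    rw [one_div]
    exact (z2 P).trans (inv_anti₀ two_pos (by exact_mod_cast two_le P))
  have z4 : ∀ P, ‖-Complex.log (1 - z P) - z P‖ ≤ ‖z P‖ ^ 2 := fun P => by
    have h2 := Complex.norm_log_one_add_sub_self_le (z := -z P)
      (by rw [norm_neg]; linarith [z3 P])
    have h3 : (1 - ‖z P‖)⁻¹ ≤ 2 := inv_le_of_inv_le₀ two_pos (by linarith [z3 P])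
    rw [norm_neg, ← sub_eq_add_neg, ← norm_neg, neg_sub', neg_neg] at h2
    have := mul_le_mul_of_nonneg_left h3 (sq_nonneg ‖z P‖)
    linarith
  have hT : Summable fun P => -Complex.log (1 - z P) := by
    refine ((sm hEP hs).mul_left 2).of_norm_bounded fun P => ?_
    have h2 := norm_le_norm_sub_add (-Complex.log (1 - z P)) (z P)
    nlinarith [z1 P, z3 P, z4 P, norm_nonneg (z P)]
  have hF := ((sm hEP hs).of_norm_bounded fun P => tm_le hχ s P.asIdeal).hasSum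
  have hD := hF.sub (Complex.hasSum_re hT.hasSum)
  refine ⟨h1 ▸ Complex.exp_ne_zero _, ?_⟩
  rw [h1, Complex.norm_exp, Real.log_exp, dsum_eq hF, ← hD.tsum_eq, ← Real.norm_eq_abs]
  refine tsum_of_norm_bounded hB fun P => ?_
  have h2 := (Complex.abs_re_le_norm _).trans (z4 P)
  have h3 : ‖z P‖ ^ 2 ≤ (Ideal.absNorm P.asIdeal : ℝ) ^ (-(2 : ℝ)) := by
    rw [Real.rpow_neg (by positivity), Real.rpow_two, ← inv_pow]
    exact pow_le_pow_left₀ (norm_nonneg _) (z2 P) 2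
  have h4 := (Complex.abs_re_le_norm _).trans (z2 P)
  rw [Complex.sub_re, abs_le] at h2
  rw [abs_le] at h4
  rw [Real.norm_eq_abs, abs_le, tm]
  split_ifs
  · rw [← Complex.re_mul_ofReal, ← hz]
    constructor <;> linarith [h2.1, h2.2]
  · constructor <;> linarith [h2.1, h2.2, h4.1, h4.2]

/-- Abel summation -/
theorem abel {a : ℕ → ℂ} {K θ : ℝ} (h0 : 0 ≤ θ) (h1 : θ < 1)
    (h : ∀ X : ℕ, ‖∑ j ∈ Icc 1 X, a j‖ ≤ K * (X : ℝ) ^ θ) :
    ∃ C, ∀ s : ℝ, 1 < s → s ≤ 2 → LSeriesSummable a s → ‖LSeries a s‖ ≤ C := by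
  have hK : 0 ≤ K := by simpa using (norm_nonneg _).trans (h 1)
  refine ⟨2 * ∫ t in Set.Ioi (1 : ℝ), K * t ^ (θ - 2), fun s s1 s2 hs => ?_⟩
  rw [LSeries_eq_mul_integral a h0 (by simpa using h1.trans s1) hs
    (Asymptotics.IsBigO.of_bound K (Eventually.of_forall fun X => by
      rw [Real.norm_of_nonneg (by positivity)]; exact h X)), norm_mul]
  refine mul_le_mul (by rwa [Complex.norm_real, Real.norm_of_nonneg (by linarith)])
    (norm_integral_le_of_norm_le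
      ((integrableOn_Ioi_rpow_of_lt (by linarith) one_pos).const_mul K) ?_)
    (norm_nonneg _) two_pos.le
  filter_upwards [ae_restrict_mem measurableSet_Ioi] with t ht
  have t1 : (1 : ℝ) < t := ht
  have t0 : (0 : ℝ) < t := by linarith
  rw [norm_mul, Complex.norm_cpow_eq_rpow_re_of_pos t0, sub_eq_add_neg, Real.rpow_add t0,
    ← mul_assoc]
  refine mul_le_mul ((h _).trans (mul_le_mul_of_nonneg_left
    (Real.rpow_le_rpow (by positivity) (Nat.floor_le t0.le) h0) hK))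
    (Real.rpow_le_rpow_of_exponent_le t1.le (by simp; linarith)) (by positivity) (by positivity)

omit [NumberField E] in
theorem norm_le {n : ℕ} {χ : Ideal (𝓞 E) →* ℂ} (h : IsChar n χ) (I : Ideal (𝓞 E)) :
    ‖χ I‖ ≤ 1 := by
  by_cases hI : Cop n I
  · exact (h.norm_cop I hI).le
  · rw [h.zero I hI, norm_zero]; exact zero_le_one

/-- the residue at the pole -/
theorem pole {a : ℕ → ℂ} {K θ R : ℝ} (h1 : θ < 1)
    (h : ∀ X : ℕ, ‖∑ j ∈ Icc 1 X, a j - (R * X : ℝ)‖ ≤ K * (X : ℝ) ^ θ)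
    (hs : ∀ s : ℝ, 1 < s → LSeriesSummable a s) :
    Tendsto (fun s : ℝ => (s - 1) * LSeries a s) (𝓝[>] 1) (𝓝 R) := by
  refine LSeries_tendsto_sub_mul_nhds_one_of_tendsto_sum_div ?_ hs
  have h2 : Tendsto (fun X : ℕ => K * (X : ℝ) ^ (-(1 - θ))) atTop (𝓝 0) := by
    simpa using ((tendsto_rpow_neg_atTop (sub_pos.2 h1)).comp
      tendsto_natCast_atTop_atTop).const_mul K
  refine tendsto_iff_norm_sub_tendsto_zero.2 (squeeze_zero' (.of_forall fun _ => norm_nonneg _)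
    ?_ h2)
  filter_upwards [eventually_gt_atTop 0] with X hX
  have X0 : (0 : ℝ) < X := by exact_mod_cast hX
  have X1 : (X : ℂ) ≠ 0 := by exact_mod_cast hX.ne'
  rw [show (∑ j ∈ Icc 1 X, a j) / X - R = (∑ j ∈ Icc 1 X, a j - (R * X : ℝ)) / X by
    push_cast; field_simp, norm_div, Complex.norm_natCast, neg_sub, Real.rpow_sub_one X0.ne',
    ← mul_div_assoc]
  exact div_le_div_of_nonneg_right (h X) X0.le

end Den

theorem p_den (hEmb : S_Emb) (hPSs : S_PSs) (hEP : S_EP) : S_Den := by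
  intro k _ _ _ K E _ _ _ n hn
  obtain ⟨_, h1⟩ := hEmb k K (Module.finrank k E)
  obtain ⟨-, -, hD, -, -, -, -, -, ⟨Q, Q2, hQ⟩, -⟩ := h1 E rfl
  obtain ⟨C, h2⟩ := hPSs k K (Module.finrank k E)
  obtain ⟨R0, -, h3, h4⟩ := h2 E rfl Q n Q2 hQ hn
  have hD' : (1 : ℝ) ≤ Module.finrank k E := by exact_mod_cast hD
  have θ1 : (1 - 1 / (4 * Module.finrank k E) : ℝ) < 1 := sub_lt_self _ (by positivity)
  have θ0 : (0 : ℝ) ≤ 1 - 1 / (4 * Module.finrank k E) :=
    sub_nonneg.2 ((div_le_one (by positivity)).2 (by linarith))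
  refine ⟨?_, fun κ τ χ hχ hnt => ?_⟩
  · have hχ : ∀ I, ‖triv E n I‖ ≤ 1 := fun I => by
      show ‖if Cop n I then (1 : ℂ) else 0‖ ≤ 1
      split_ifs <;> simp
    obtain ⟨C1, c1⟩ := Den.cmp hEP _ hχ
    have h5 := ((Den.pole θ1 h3 fun s hs => (hEP E _ s hχ hs).1).norm.log
      (by simpa using R0.ne')).eventually (Metric.ball_mem_nhds _ one_pos)
    obtain ⟨u, u1, h6⟩ := mem_nhdsGT_iff_exists_Ioo_subset.1 h5
    have u2 : (1 : ℝ) < u := u1
    obtain ⟨C2, c2⟩ := Den.far hEP hχ u2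
    refine ⟨max (C1 + (1 + |Real.log ‖(Rs E n : ℂ)‖|)) (C2 + |Real.log (u - 1)|),
      fun s s1 s2 => ?_⟩
    rw [one_div, Real.log_inv]
    rcases lt_or_ge s u with h | h
    · have h7 : dist _ _ < 1 := h6 ⟨s1, h⟩
      obtain ⟨c3, c4⟩ := c1 s s1
      rw [Real.dist_eq, norm_mul, ← Complex.ofReal_one, ← Complex.ofReal_sub, Complex.norm_real,
        Real.norm_of_nonneg (by linarith), Real.log_mul (by linarith) (norm_ne_zero_iff.2 c3),
        abs_lt] at h7
      refine le_trans ?_ (le_max_left _ _)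
      rw [abs_le] at c4 ⊢
      constructor <;> linarith [c4.1, c4.2, h7.1, h7.2, le_abs_self (Real.log ‖(Rs E n : ℂ)‖),
        neg_abs_le (Real.log ‖(Rs E n : ℂ)‖)]
    · have h7 := Real.log_le_log (by linarith) (sub_le_sub_right h 1)
      have h8 := Real.log_nonpos (x := s - 1) (by linarith) (by linarith)
      have c3 := abs_le.1 (c2 s h)
      refine le_trans ?_ (le_max_right _ _)
      rw [abs_le]
      constructor <;> linarith [c3.1, c3.2, neg_abs_le (Real.log (u - 1)),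
        abs_nonneg (Real.log (u - 1))]
  · have hχ1 := Den.norm_le hχ.toIsChar
    obtain ⟨C1, c1⟩ := Den.cmp hEP _ hχ1
    have a1 : 0 ≤ ∑ φ, |(κ φ : ℝ)| := sum_nonneg fun _ _ => abs_nonneg _
    have a2 : 0 ≤ ∑ φ, |τ φ| := sum_nonneg fun _ _ => abs_nonneg _
    obtain ⟨C2, c2⟩ := Den.abel θ0 θ1 fun X => h4 X (1 + ∑ φ, |(κ φ : ℝ)| + ∑ φ, |τ φ|) κ τ χ
      (by linarith)
      (fun φ => by linarith [single_le_sum (fun φ _ => abs_nonneg (κ φ : ℝ)) (mem_univ φ)])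
      (fun φ => by linarith [single_le_sum (fun φ _ => abs_nonneg (τ φ)) (mem_univ φ)]) hχ hnt
    refine ⟨C1 + C2, fun s s1 s2 => ?_⟩
    have h5 := c2 s s1 s2 (hEP E _ s hχ1 s1).1
    have h6 := Real.log_le_self (norm_nonneg (LSeries (lam χ) s))
    linarith [(abs_le.1 (c1 s s1).2).2]

end Pool.Agent.P.MP_b8021b_nt.VC
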