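import Pool.Agent.P.MP_b8021b_nt.VC.StG
import Pool.Agent.P.MP_b8021b_nt.VC.GC

/-! Balanced elements of an ideal. -/

namespace Pool.Agent.P.MP_b8021b_nt.VC

open NumberField Finset Pool.Agent.P.MP_b8021b_nt.VE Geo
open scoped Classical

theorem p_bal : S_Bal := by
  intro k _ _ _ K D
  obtain ⟨C, h1⟩ := ex_pow (6 * D * |(K.D : ℝ)|) 1
  refine ⟨C, fun E _ _ _ hD Q 𝔞 v hQ hS h hv => ?_⟩
  have hc : Fintype.card (Emb k E) = D := card_emb.trans hD
  obtain ⟨F, hF⟩ := exDat K hS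
  obtain ⟨γ, g1, g2, g3⟩ := mink F h hv
  refine ⟨γ, g1, g2, fun φ => ?_⟩
  rw [← hF]
  refine (g3 φ).trans ?_
  rw [Geo.rt, hc]
  refine mul_le_mul_of_nonneg_right (mul_le_mul_of_nonneg_right ?_ (by positivity))
    (Real.exp_pos _).le
  refine le_trans (le_of_eq ?_) (h1 C le_rfl Q hQ)
  ring

end Pool.Agent.P.MP_b8021b_nt.VC
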