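import Pool.Agent.P.MP_b8021b_nt.VC.StG
import Pool.Agent.P.MP_b8021b_nt.VC.BasicN

/-! Lattice points of a coset in a ball. -/

namespace Pool.Agent.P.MP_b8021b_nt.VC

open NumberField MeasureTheory Metric
open scoped Classical ENNReal

namespace BallP

section Gen

variable {V : Type} [NormedAddCommGroup V] (Λ : Submodule ℤ V)

/-- the points of the lattice whose translate lies in a ball -/
def pts (a ζ : V) (r : ℝ) : Set Λ := {x | (x : V) + a ∈ closedBall ζ r}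

theorem pts_le {R : ℝ} (hR : ∀ y : V, ∃ x ∈ Λ, ‖y - x‖ ≤ R) (a a' ζ : V) {r r' : ℝ}
    (h : r + R ≤ r') : (pts Λ a ζ r).encard ≤ (pts Λ a' ζ r').encard := by
  obtain ⟨x₀, hx, hn⟩ := hR (a - a')
  refine Set.encard_le_encard_of_injOn (f := fun x => x + ⟨x₀, hx⟩) (fun x hx' => ?_)
    (add_left_injective _).injOn
  have h1 : ‖(x : V) + a - ζ‖ ≤ r := mem_closedBall_iff_norm.1 hx'
  refine mem_closedBall_iff_norm.2 ?_
  calc ‖(x : V) + x₀ + a' - ζ‖ = ‖((x : V) + a - ζ) - (a - a' - x₀)‖ := by congr 1; abel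
    _ ≤ _ := norm_sub_le _ _
    _ ≤ r' := by linarith

theorem pts_eq (a ζ : V) (r : ℝ) : ((pts Λ a ζ r).encard : ℝ≥0∞) =
    ∑' x : Λ, (closedBall ζ r).indicator (1 : V → ℝ≥0∞) ((x : V) + a) := by
  rw [← ENNReal.tsum_set_one, tsum_subtype (pts Λ a ζ r) fun _ => (1 : ℝ≥0∞)]
  refine tsum_congr fun x => ?_
  by_cases h : x ∈ pts Λ a ζ r
  · rw [Set.indicator_of_mem h, Set.indicator_of_mem (show (x : V) + a ∈ closedBall ζ r from h)]
    rfl
  · rw [Set.indicator_of_notMem h,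
      Set.indicator_of_notMem (show (x : V) + a ∉ closedBall ζ r from h)]

variable [NormedSpace ℝ V] [FiniteDimensional ℝ V] [MeasurableSpace V] [BorelSpace V]
  (μ : Measure V) [μ.IsAddHaarMeasure] [DiscreteTopology Λ] [IsZLattice ℝ Λ]

theorem count {R : ℝ} (hR : ∀ y : V, ∃ x ∈ Λ, ‖y - x‖ ≤ R) (a ζ : V) (r : ℝ) :
    (pts Λ a ζ r).Finite ∧
      μ.real (closedBall ζ (r - R)) ≤ (pts Λ a ζ r).ncard * ZLattice.covolume Λ μ ∧
      (pts Λ a ζ r).ncard * ZLattice.covolume Λ μ ≤ μ.real (closedBall ζ (r + R)) := by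
  have hM : MeasurableVAdd Λ V := (inferInstance : MeasurableVAdd Λ.toAddSubgroup V)
  have hI : VAddInvariantMeasure Λ V μ :=
    (inferInstance : VAddInvariantMeasure Λ.toAddSubgroup V μ)
  set b := Module.Free.chooseBasis ℤ Λ
  have hF := ZLattice.isAddFundamentalDomain b μ
  set F := ZSpan.fundamentalDomain (b.ofZLatticeBasis ℝ Λ)
  have F0 : μ F ≠ 0 := ZSpan.measure_fundamentalDomain_ne_zero _
  have F1 : μ F ≠ ⊤ := (ZSpan.fundamentalDomain_isBounded _).measure_lt_top.ne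
  have key : ∀ s, ∫⁻ y in F, ((pts Λ y ζ s).encard : ℝ≥0∞) ∂μ = μ (closedBall ζ s) := fun s => by
    simp only [pts_eq]
    rw [← lintegral_indicator_one measurableSet_closedBall, hF.lintegral_eq_tsum'']
    exact lintegral_tsum fun x : Λ => ((measurable_one.indicator measurableSet_closedBall).comp
      (measurable_const_add (x : V))).aemeasurable
  have up : ((pts Λ a ζ r).encard : ℝ≥0∞) * μ F ≤ μ (closedBall ζ (r + R)) := by
    rw [← key, ← setLIntegral_const]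
    exact lintegral_mono fun y => ENat.toENNReal_le.2 (pts_le Λ hR a y ζ le_rfl)
  have lo : μ (closedBall ζ (r - R)) ≤ ((pts Λ a ζ r).encard : ℝ≥0∞) * μ F := by
    rw [← key, ← setLIntegral_const]
    exact lintegral_mono fun y => ENat.toENNReal_le.2 (pts_le Λ hR y a ζ (by linarith))
  have B1 : μ (closedBall ζ (r + R)) ≠ ⊤ := isBounded_closedBall.measure_lt_top.ne
  have fin : (pts Λ a ζ r).Finite := by
    by_contra h
    rw [Set.Infinite.encard_eq h, ENat.toENNReal_top, ENNReal.top_mul F0] at up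
    exact B1 (top_le_iff.1 up)
  rw [← fin.cast_ncard_eq, ENat.toENNReal_coe] at up lo
  have e : ((pts Λ a ζ r).ncard : ℝ) * ZLattice.covolume Λ μ =
      (((pts Λ a ζ r).ncard : ℝ≥0∞) * μ F).toReal := by
    rw [ZLattice.covolume_eq_measure_fundamentalDomain Λ μ hF, ENNReal.toReal_mul,
      ENNReal.toReal_natCast, measureReal_def]
  rw [e]
  exact ⟨fin, ENNReal.toReal_mono (ENNReal.mul_ne_top (ENNReal.natCast_ne_top _) F1) lo,
    ENNReal.toReal_mono B1 up⟩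

end Gen

theorem vol {ι : Type} [Fintype ι] (ζ : ι → ℂ) {s : ℝ} (hs : 0 ≤ s) :
    volume.real (closedBall ζ s) = (s ^ 2 * Real.pi) ^ Fintype.card ι := by
  rw [measureReal_def, volume_pi_closedBall ζ hs]
  simp [Complex.volume_closedBall, ENNReal.toReal_ofReal hs]

variable {k : Type} [Field k] [NumberField k] [Algebra k ℂ] {E : Type} [Field E] [NumberField E]
  [Algebra k E]

theorem emb_inj (h : 0 < Fintype.card (Emb k E)) :
    Function.Injective (emb k : 𝓞 E → Emb k E → ℂ) := fun a b e => by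
  obtain ⟨φ⟩ := Fintype.card_pos_iff.1 h
  by_contra hne
  exact emb_ne_zero (k := k) (sub_ne_zero.2 hne) φ (by rw [emb_sub, e, sub_self]; rfl)

theorem near {J : Type} [Fintype J] (v : Module.Basis J ℝ (Emb k E → ℂ))
    (hv : ∀ j, ∃ a : 𝓞 E, emb k a = v j)
    (hl : ∀ (𝔟 : Ideal (𝓞 E)) (z : Emb k E → ℂ), z ∈ lat k 𝔟 ↔ ∃ a ∈ 𝔟, emb k a = z)
    {𝔟 : Ideal (𝓞 E)} {n : ℕ} (hn : 1 ≤ n) (hb : (n : 𝓞 E) ∈ 𝔟) (y : Emb k E → ℂ) :
    ∃ x ∈ lat k 𝔟, ‖y - x‖ ≤ n * ∑ j, ‖v j‖ := by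
  have n0 : (0 : ℝ) < n := by exact_mod_cast hn
  have h1 : Submodule.span ℤ (Set.range v) ≤ lat k (⊤ : Ideal (𝓞 E)) :=
    Submodule.span_mono (by rintro _ ⟨j, rfl⟩; exact (hv j).imp fun a ha => ⟨trivial, ha⟩)
  obtain ⟨a, -, ha⟩ := (hl ⊤ _).1 (h1 (ZSpan.floor v ((n : ℝ)⁻¹ • y)).2)
  refine ⟨emb k ((n : 𝓞 E) * a), (hl _ _).2 ⟨_, 𝔟.mul_mem_right a hb, rfl⟩, ?_⟩
  have e : y - emb k ((n : 𝓞 E) * a) = (n : ℝ) • ZSpan.fract v ((n : ℝ)⁻¹ • y) := by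
    rw [ZSpan.fract_apply, ← ha, smul_sub, smul_inv_smul₀ n0.ne']
    congr 1
    funext φ
    simp [emb]
  rw [e, norm_smul, Real.norm_of_nonneg n0.le]
  exact mul_le_mul_of_nonneg_left (ZSpan.norm_fract_le v _) n0.le

theorem image (hl : ∀ (𝔟 : Ideal (𝓞 E)) (z : Emb k E → ℂ), z ∈ lat k 𝔟 ↔ ∃ a ∈ 𝔟, emb k a = z)
    (𝔟 : Ideal (𝓞 E)) (α₀ : 𝓞 E) (ζ : Emb k E → ℂ) (ϱ : ℝ) :
    (fun α => emb k (α - α₀)) '' {α : 𝓞 E | α - α₀ ∈ 𝔟 ∧ ‖emb k α - ζ‖ ≤ ϱ} =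
      Subtype.val '' pts (lat k 𝔟) (emb k α₀) ζ ϱ := by
  ext z
  constructor
  · rintro ⟨α, ⟨h1, h2⟩, rfl⟩
    refine ⟨⟨_, (hl _ _).2 ⟨_, h1, rfl⟩⟩, mem_closedBall_iff_norm.2 ?_, rfl⟩
    simpa only [emb_sub, sub_add_cancel] using h2
  · rintro ⟨x, hx, rfl⟩
    obtain ⟨a, ha, e⟩ := (hl _ _).1 x.2
    refine ⟨a + α₀, ⟨by simpa using ha, ?_⟩, by simpa using e⟩
    rw [emb_add, e]
    exact mem_closedBall_iff_norm.1 hx

end BallP

open BallP in
theorem p_ball (hE : S_Emb) : S_Ball := by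
  intro k _ _ _ K D
  obtain ⟨C, hC⟩ := hE k K D
  refine ⟨C + (3 * D + 2), fun E _ _ _ hD => ?_⟩
  obtain ⟨h1, -, h2, -, -, hl, hz, -, ⟨Q₀, q1, q2⟩, hQ⟩ := hC E hD
  have inj : ∀ α₀ : 𝓞 E, Function.Injective fun α => emb k (α - α₀) := fun α₀ a b e =>
    sub_left_injective (emb_inj (by omega) e)
  refine ⟨fun ζ ϱ => ?_, fun Q ϱ 𝔟 n α₀ ζ hq hs hn hb hr => ?_⟩
  · obtain ⟨-, v, hv⟩ := hQ Q₀ q1 q2
    obtain ⟨⟨_, _⟩, -⟩ := hz ⊤ top_ne_bot
    have f := (count (lat k ⊤) volume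
      (near v (fun j => (hv j).2) hl (𝔟 := ⊤) le_rfl trivial) (emb k 0) ζ ϱ).1.image Subtype.val
    rw [← image hl] at f
    exact (f.of_finite_image (inj 0).injOn).subset fun α h => ⟨trivial, h⟩
  obtain ⟨-, v, hv⟩ := hQ Q hq hs
  have b0 : 𝔟 ≠ ⊥ := fun e => by
    rw [e, Ideal.mem_bot, Nat.cast_eq_zero] at hb
    omega
  obtain ⟨⟨_, _⟩, hc⟩ := hz 𝔟 b0
  have c0 := ZLattice.covolume_pos (lat k 𝔟) volume
  have n0 : (0 : ℝ) < n := by exact_mod_cast hn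
  have hR : n * ∑ j, ‖v j‖ ≤ ϱ / 2 := by
    have s1 : ∑ j, ‖v j‖ ≤ 2 * D * Q ^ C := by
      refine (Finset.sum_le_card_nsmul _ _ _ fun j _ => (hv j).1).trans_eq ?_
      simp [mul_comm]
    have s2 : (D : ℝ) ≤ 2 ^ (3 * D) := by
      exact_mod_cast (Nat.lt_two_pow_self.le.trans (Nat.pow_le_pow_right two_pos (by omega)) :
        D ≤ 2 ^ (3 * D))
    have s3 : (2 : ℝ) ^ (3 * D + 2) ≤ Q ^ (3 * D + 2) := by gcongr
    have s4 : 4 * D * Q ^ C ≤ Q ^ (C + (3 * D + 2)) := by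
      rw [pow_add, mul_comm]
      refine mul_le_mul_of_nonneg_left ?_ (by positivity)
      rw [pow_add] at s3
      linarith
    have s5 := mul_le_mul_of_nonneg_left s1 n0.le
    have s6 := mul_le_mul_of_nonneg_left s4 n0.le
    linarith
  have r0 : 0 < ϱ := lt_of_lt_of_le (by positivity) hr
  obtain ⟨-, lo, up⟩ := count (lat k 𝔟) volume (R := ϱ / 2)
    (fun y => (near v (fun j => (hv j).2) hl hn hb y).imp fun x hx => ⟨hx.1, hx.2.trans hR⟩)
    (emb k α₀) ζ ϱ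
  rw [← Set.ncard_image_of_injective _ Subtype.val_injective, ← image hl,
    Set.ncard_image_of_injective _ (inj α₀), vol ζ (by linarith), h1] at lo up
  rw [← hc]
  have p8 : (8 : ℝ) ^ D ≤ 2 ^ (C + (3 * D + 2)) := by
    rw [show (8 : ℝ) = 2 ^ 3 by norm_num, ← pow_mul]
    exact pow_le_pow_right₀ one_le_two (by omega)
  have pi3 := Real.pi_gt_three
  have pi4 := Real.pi_lt_d2
  have sq : 0 < ϱ ^ 2 := by positivity
  constructor
  · rw [div_le_iff₀ (by positivity), mul_left_comm]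
    calc ϱ ^ (2 * D) ≤ 8 ^ D * ((ϱ - ϱ / 2) ^ 2 * Real.pi) ^ D := by
          rw [pow_mul, ← mul_pow]
          exact pow_le_pow_left₀ (by positivity) (by nlinarith) D
      _ ≤ _ := by gcongr
  · rw [le_div_iff₀ c0]
    refine up.trans ?_
    calc ((ϱ + ϱ / 2) ^ 2 * Real.pi) ^ D ≤ 8 ^ D * ϱ ^ (2 * D) := by
          rw [pow_mul, ← mul_pow]
          exact pow_le_pow_left₀ (by positivity) (by nlinarith) D
      _ ≤ _ := by gcongr

end Pool.Agent.P.MP_b8021b_nt.VC
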