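import Pool.Agent.P.MP_b8021b_nt.VC.StG

/-! A character determines its type. -/

namespace Pool.Agent.P.MP_b8021b_nt.VC

open NumberField Finset Filter Topology Pool.Agent.P.MP_b8021b_nt.VE
open scoped Classical

namespace Typ

variable {ι : Type} [Fintype ι]

lemma ty_smul (κ : ι → ℤ) {τ : ι → ℝ} (hτ : ∑ φ, τ φ = 0) {c : ℝ} (hc : 0 < c) {z : ι → ℂ}
    (hz : ∀ φ, z φ ≠ 0) : ty κ τ (c • z) = ty κ τ z := by
  have h1 : ∀ φ, dir ((c • z) φ) = dir (z φ) := fun φ => by
    have : (c : ℂ) ≠ 0 := by exact_mod_cast hc.ne'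
    simp only [dir, Pi.smul_apply, Complex.real_smul, norm_mul, Complex.norm_real,
      Real.norm_of_nonneg hc.le, Complex.ofReal_mul]
    exact mul_div_mul_left _ _ this
  have h2 : ∀ φ, Real.log ‖(c • z) φ‖ = Real.log c + Real.log ‖z φ‖ := fun φ => by
    rw [Pi.smul_apply, norm_smul, Real.norm_of_nonneg hc.le,
      Real.log_mul hc.ne' (norm_ne_zero_iff.2 (hz φ))]
  simp only [ty, h1, h2, prod_mul_distrib, ← Complex.exp_sum, ← mul_sum, ← Complex.ofReal_sum,
    mul_add, sum_add_distrib, ← sum_mul, hτ, zero_mul, zero_add]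

lemma ty_cont (κ : ι → ℤ) (τ : ι → ℝ) {z : ι → ℂ} (hz : ∀ φ, z φ ≠ 0) :
    ContinuousAt (ty κ τ) z := by
  refine tendsto_finsetProd _ fun φ _ => ?_
  have h0 : ‖z φ‖ ≠ 0 := norm_ne_zero_iff.2 (hz φ)
  have h0' : ((‖z φ‖ : ℝ) : ℂ) ≠ 0 := by exact_mod_cast h0
  have hn : ContinuousAt (fun w : ι → ℂ => ‖w φ‖) z := (continuous_apply φ).norm.continuousAt
  have h1 : ContinuousAt (fun w : ι → ℂ => dir (w φ)) z := by
    unfold dir
    exact (continuous_apply φ).continuousAt.div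
      (Complex.continuous_ofReal.continuousAt.comp hn) h0'
  have h2 : ContinuousAt (fun w : ι → ℂ => Real.log ‖w φ‖) z :=
    hn.log h0
  have h3 : ContinuousAt (fun w : ι → ℂ =>
      Complex.exp (Complex.I * ((τ φ * Real.log ‖w φ‖ : ℝ) : ℂ))) z :=
    Complex.continuous_exp.continuousAt.comp (continuousAt_const.mul
      (Complex.continuous_ofReal.continuousAt.comp (continuousAt_const.mul h2)))
  exact (h1.zpow₀ (κ φ) (Or.inl (div_ne_zero (hz φ) h0'))).mul h3

lemma ty_test (κ : ι → ℤ) (τ : ι → ℝ) (φ : ι) (x θ : ℝ) :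
    ty κ τ (Function.update 1 φ (Complex.exp (x + θ * Complex.I))) =
      Complex.exp ((κ φ * θ + τ φ * x : ℝ) * Complex.I) := by
  rw [ty, prod_eq_single φ]
  · have h1 : ‖Complex.exp (x + θ * Complex.I)‖ = Real.exp x := by
      rw [Complex.norm_exp]; simp
    rw [Function.update_self, dir, h1, Real.log_exp, Complex.ofReal_exp, ← Complex.exp_sub,
      ← Complex.exp_int_mul, ← Complex.exp_add]
    congr 1
    push_cast
    ring
  · intro ψ _ h
    simp [Function.update_of_ne h, dir]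
  · simp

lemma eq_of_exp {a b : ℝ}
    (h : ∀ t : ℝ, Complex.exp ((a * t : ℝ) * Complex.I) = Complex.exp ((b * t : ℝ) * Complex.I)) :
    a = b := by
  by_contra hab
  have h0 : a - b ≠ 0 := sub_ne_zero.2 hab
  have h1 := h (Real.pi / (a - b))
  have h2 : a * (Real.pi / (a - b)) = b * (Real.pi / (a - b)) + Real.pi := by
    field_simp
    ring
  rw [h2, Complex.ofReal_add, add_mul, Complex.exp_add, Complex.exp_pi_mul_I] at h1
  exact Complex.exp_ne_zero _ (by linear_combination (-1 / 2) * h1)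

end Typ

open Typ in
theorem p_typ (hEmb : S_Emb) : S_Typ := by
  intro k _ _ _ K E _ _ _ n κ κ' τ τ' hn hτ hτ' h
  obtain ⟨C, hC⟩ := hEmb k K (Module.finrank k E)
  obtain ⟨-, -, -, -, -, -, -, -, ⟨Q, hQ, hS⟩, hv⟩ := hC E rfl
  obtain ⟨-, v, hv⟩ := hv Q hQ hS
  choose a ha using fun j => (hv j).2
  have hn0 : (0 : ℝ) < n := by positivity
  have key : ∀ z : Emb k E → ℂ, (∀ φ, z φ ≠ 0) → ty κ τ z = ty κ' τ' z := by
    intro z hz
    let α : ℕ → 𝓞 E := fun R => 1 + n * ∑ j, (⌊v.repr ((R : ℝ) • z) j / n⌋ : 𝓞 E) * a j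
    have h1 : ∀ R : ℕ, emb k (α R) - (R : ℝ) • z = 1 + ∑ j,
        ((n * ⌊v.repr ((R : ℝ) • z) j / n⌋ - v.repr ((R : ℝ) • z) j : ℝ)) • v j := by
      intro R
      simp only [sub_smul, sum_sub_distrib, v.sum_repr, ← add_sub_assoc]
      congr 1
      funext φ
      have : ∀ b : 𝓞 E, emb k b φ = (φ.toRingHom.comp (algebraMap (𝓞 E) E)) b := fun _ => rfl
      simp only [α, this, map_add, map_one, map_mul, map_sum, map_natCast, map_intCast,
        Pi.add_apply, Pi.one_apply, Finset.sum_apply, Pi.smul_apply, ← ha, Complex.real_smul,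
        mul_sum]
      push_cast
      simp only [mul_assoc]
    have h2 : ∀ R : ℕ, ‖emb k (α R) - (R : ℝ) • z‖ ≤ ‖(1 : Emb k E → ℂ)‖ + ∑ j, n * ‖v j‖ := by
      intro R
      rw [h1]
      refine norm_add_le_of_le le_rfl (norm_sum_le_of_le _ fun j _ => ?_)
      rw [norm_smul]
      refine mul_le_mul_of_nonneg_right ?_ (norm_nonneg _)
      set x := v.repr ((R : ℝ) • z) j
      have b1 := (le_div_iff₀ hn0).1 (Int.floor_le (x / n))
      have b2 := (div_lt_iff₀ hn0).1 (Int.lt_floor_add_one (x / n))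
      rw [Real.norm_eq_abs, abs_le]
      constructor <;> nlinarith
    have h3 : Tendsto (fun R : ℕ => ((R : ℝ)⁻¹) • emb k (α R)) atTop (𝓝 z) := by
      rw [tendsto_iff_norm_sub_tendsto_zero]
      have h4 := (tendsto_inv_atTop_nhds_zero_nat (𝕜 := ℝ)).mul_const
        (‖(1 : Emb k E → ℂ)‖ + ∑ j, n * ‖v j‖)
      rw [zero_mul] at h4
      refine squeeze_zero' (Eventually.of_forall fun _ => norm_nonneg _) ?_ h4
      filter_upwards [eventually_gt_atTop 0] with R hR
      have hR' : (0 : ℝ) < R := by exact_mod_cast hR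
      have : ((R : ℝ)⁻¹) • emb k (α R) - z = ((R : ℝ)⁻¹) • (emb k (α R) - (R : ℝ) • z) := by
        rw [smul_sub, inv_smul_smul₀ hR'.ne']
      rw [this, norm_smul, Real.norm_of_nonneg (inv_nonneg.2 hR'.le)]
      exact mul_le_mul_of_nonneg_left (h2 R) (inv_nonneg.2 hR'.le)
    have h4 : ∀ᶠ R : ℕ in atTop, ∀ φ, (((R : ℝ)⁻¹) • emb k (α R)) φ ≠ 0 :=
      eventually_all.2 fun φ => (tendsto_pi_nhds.1 h3 φ).eventually_ne (hz φ)
    refine tendsto_nhds_unique_of_eventuallyEq ((ty_cont κ τ hz).tendsto.comp h3)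
      ((ty_cont κ' τ' hz).tendsto.comp h3) ?_
    filter_upwards [h4, eventually_gt_atTop 0] with R hR hR0
    have hR' : (0 : ℝ) < (R : ℝ)⁻¹ := inv_pos.2 (by exact_mod_cast hR0)
    have h5 : ∀ φ, emb k (α R) φ ≠ 0 := fun φ h0 => hR φ (by simp [h0])
    simp only [Function.comp]
    rw [ty_smul κ hτ hR' h5, ty_smul κ' hτ' hR' h5]
    exact h _ ⟨_, add_sub_cancel_left _ _⟩
  have test : ∀ φ (x θ : ℝ), Complex.exp ((κ φ * θ + τ φ * x : ℝ) * Complex.I) =
      Complex.exp ((κ' φ * θ + τ' φ * x : ℝ) * Complex.I) := by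
    intro φ x θ
    rw [← ty_test, ← ty_test]
    refine key _ fun ψ => ?_
    by_cases hψ : ψ = φ
    · rw [hψ, Function.update_self]
      exact Complex.exp_ne_zero _
    · simp [Function.update_of_ne hψ]
  refine ⟨funext fun φ => ?_, funext fun φ => eq_of_exp fun t => ?_⟩
  · have : (κ φ : ℝ) = κ' φ := eq_of_exp fun t => by
      simpa only [mul_zero, add_zero] using test φ 0 t
    exact_mod_cast this
  · simpa only [mul_zero, zero_add] using test φ t 0

end Pool.Agent.P.MP_b8021b_nt.VC
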