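import Pool.Agent.P.MP_b8021b_nt.VC.PDescS

/-! The Herbrand quotient of the units of a cyclic extension of prime degree. -/

namespace Pool.Agent.P.MP_b8021b_nt.VC

open NumberField Module Pool.Agent.P.MP_b8021b_nt.VE Cy

namespace DH1

theorem tc {k : Type} [Field k] [NumberField k] (K : IQ k) : IsTotallyComplex k := by
  refine ⟨fun w => InfinitePlace.not_isReal_iff_isComplex.1 fun hw => ?_⟩
  have h1 : (InfinitePlace.embedding_of_isReal hw (algebraMap (𝓞 k) k K.ω)) ^ 2 = K.D := by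
    rw [← map_pow, ← map_pow, K.sq, map_intCast, map_intCast]
  have h2 : (K.D : ℝ) < 0 := by exact_mod_cast K.neg
  exact h2.not_ge (h1 ▸ sq_nonneg _)

theorem rk (E : Type) [Field E] [NumberField E] [IsTotallyComplex E] :
    2 * (finrank ℤ (Additive (𝓞 E)ˣ) + 1) = finrank ℚ E := by
  have h1 := InfinitePlace.card_eq_nrRealPlaces_add_nrComplexPlaces E
  have h2 := IsTotallyComplex.nrRealPlaces_eq_zero E
  have h3 := IsTotallyComplex.finrank E
  have h4 : 0 < Fintype.card (InfinitePlace E) := Fintype.card_pos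
  rw [Units.finrank_eq, Units.rank]
  omega

variable {F K : Type} [Field F] [Field K] [Algebra F K]

theorem coe_u (σ : K ≃ₐ[F] K) (x : (𝓞 K)ˣ) :
    algebraMap (𝓞 K) K (uσ σ x) = σ (algebraMap (𝓞 K) K x) := rfl

theorem coe_it (σ : K ≃ₐ[F] K) (n : ℕ) (x : (𝓞 K)ˣ) :
    algebraMap (𝓞 K) K ((uσ σ)^[n] x : (𝓞 K)ˣ) = (σ ^ n) (algebraMap (𝓞 K) K x) := by
  induction n with
  | zero => rfl
  | succ n ih => rw [Function.iterate_succ_apply', coe_u, ih, pow_succ', AlgEquiv.mul_apply]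

theorem ext {x y : (𝓞 K)ˣ} (h : algebraMap (𝓞 K) K x = algebraMap (𝓞 K) K y) : x = y :=
  Units.ext (RingOfIntegers.ext h)

variable [NumberField F] [NumberField K] [IsGalois F K]

theorem down {σ : K ≃ₐ[F] K} (he : (finrank F K).Prime) (hσ : σ ≠ 1) {x : 𝓞 K}
    (h : σ (algebraMap (𝓞 K) K x) = algebraMap (𝓞 K) K x) :
    ∃ y : 𝓞 F, algebraMap (𝓞 F) (𝓞 K) y = x := by
  have : Fact (finrank F K).Prime := ⟨he⟩
  obtain ⟨y, hy⟩ := (IsGalois.mem_range_algebraMap_iff_fixed (F := F)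
    (algebraMap (𝓞 K) K x)).2 fun f => by
      obtain ⟨n, rfl⟩ := mem_powers_of_prime_card (IsGalois.card_aut_eq_finrank F K) hσ (g' := f)
      induction n with
      | zero => rfl
      | succ n ih =>
        show (σ ^ (n + 1)) _ = _
        rw [pow_succ, AlgEquiv.mul_apply, h]
        exact ih
  refine ⟨⟨y, (isIntegral_algHom_iff (algebraMap F K).toIntAlgHom (algebraMap F K).injective).1
    ?_⟩, RingOfIntegers.ext hy⟩
  exact hy ▸ x.isIntegral_coe

theorem fx_eq {σ : K ≃ₐ[F] K} (he : (finrank F K).Prime) (hσ : σ ≠ 1) :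
    (Units.map (algebraMap (𝓞 F) (𝓞 K)).toMonoidHom).range = fx (uσ σ) := by
  ext x
  constructor
  · rintro ⟨y, rfl⟩
    exact DH1.ext (σ.commutes (algebraMap (𝓞 F) F y))
  · intro hx
    obtain ⟨a, ha⟩ := down he hσ (congrArg (fun u : (𝓞 K)ˣ => algebraMap (𝓞 K) K u) hx)
    obtain ⟨b, hb⟩ := down he hσ
      (congrArg (fun u : (𝓞 K)ˣ => algebraMap (𝓞 K) K u) ((fx (uσ σ)).inv_mem hx))
    have h : a * b = 1 := FaithfulSMul.algebraMap_injective (𝓞 F) (𝓞 K) (by
      rw [map_mul, ha, hb, map_one, Units.mul_inv])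
    exact ⟨Units.mkOfMulEqOne a b h, Units.ext ha⟩

end DH1

open DH1 in
theorem d_h1 (hH1A : S_H1A) : S_H1 := by
  intro k _ _ _ B F K _ _ _ _ _ _ _ σ he hσ
  have := tc B.toIQ
  have := isTotallyComplex_of_algebra k F
  have := isTotallyComplex_of_algebra F K
  refine hH1A _ _ _ he (fun x => DH1.ext ?_) ?_
  · rw [coe_it, ← IsGalois.card_aut_eq_finrank, pow_card_eq_one', AlgEquiv.one_apply]
  · have e := (MonoidHom.ofInjective (f := Units.map (algebraMap (𝓞 F) (𝓞 K)).toMonoidHom)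
      (Units.map_injective (FaithfulSMul.algebraMap_injective (𝓞 F) (𝓞 K)))).trans
      (MulEquiv.subgroupCongr (fx_eq he hσ))
    rw [← (MulEquiv.toAdditive e).toIntLinearEquiv.finrank_eq]
    have h1 := rk F
    have h2 := rk K
    rw [← finrank_mul_finrank ℚ F K, ← h1, mul_assoc] at h2
    rw [Nat.eq_of_mul_eq_mul_left two_pos h2, mul_comm]

end Pool.Agent.P.MP_b8021b_nt.VC
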