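import Pool.Agent.P.MP_b8021b_nt.VC.PDescS

/-! The Herbrand quotient of a finitely generated group. -/

namespace Pool.Agent.P.MP_b8021b_nt.VC

open Polynomial Finset AddSubgroup Cy

namespace H1A

variable {A : Type} [AddCommGroup A]

theorem card_mul {H K : AddSubgroup A} (h : H ≤ K) : Nat.card H * H.relIndex K = Nat.card K := by
  rw [← relIndex_bot_left, ← relIndex_bot_left, relIndex_mul_relIndex _ _ _ bot_le h]

theorem ker_comp (f g : A →+ A) :
    Nat.card (f.comp g).ker = Nat.card g.ker * Nat.card (g.range ⊓ f.ker : AddSubgroup A) := by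
  rw [← card_mul (H := g.ker) (K := (f.comp g).ker) fun x hx =>
    (congrArg f hx).trans f.map_zero,
    relIndex_ker, ← AddMonoidHom.comap_ker, map_comap_eq]

/-- the quotient of the orders of cokernel and kernel is multiplicative -/
theorem q_comp (f g : A →+ A) :
    (f.comp g).range.index * Nat.card f.ker * Nat.card g.ker =
      f.range.index * g.range.index * Nat.card (f.comp g).ker := by
  rw [ker_comp, AddMonoidHom.range_comp, index_map,
    ← relIndex_mul_index (le_sup_left : g.range ≤ g.range ⊔ f.ker), relIndex_sup_left,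
    ← card_mul (inf_le_right : g.range ⊓ f.ker ≤ f.ker), inf_relIndex_right]
  ring

theorem q_pow (d : Module.End ℤ A) (h : Nat.card d.toAddMonoidHom.ker ≠ 0) (m : ℕ) :
    Nat.card (d ^ m).toAddMonoidHom.ker ≠ 0 ∧
      (d ^ m).toAddMonoidHom.range.index * Nat.card d.toAddMonoidHom.ker ^ m =
        d.toAddMonoidHom.range.index ^ m * Nat.card (d ^ m).toAddMonoidHom.ker := by
  induction m with
  | zero =>
    have e : (d ^ 0).toAddMonoidHom = AddMonoidHom.id A := rfl
    rw [e, AddMonoidHom.ker_id, AddMonoidHom.range_eq_top.2 Function.surjective_id]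
    simp
  | succ m ih =>
    have e : (d ^ (m + 1)).toAddMonoidHom = d.toAddMonoidHom.comp (d ^ m).toAddMonoidHom := by
      rw [pow_succ']; rfl
    rw [e]
    have := Nat.finite_of_card_ne_zero h
    refine ⟨?_, Nat.eq_of_mul_eq_mul_right (Nat.pos_of_ne_zero ih.1) ?_⟩
    · rw [ker_comp]
      exact mul_ne_zero ih.1 (left_ne_zero_of_mul ((card_mul inf_le_right).trans_ne h))
    · have h1 := q_comp d.toAddMonoidHom (d ^ m).toAddMonoidHom
      have h2 := ih.2
      linear_combination Nat.card d.toAddMonoidHom.ker ^ m * h1 + d.toAddMonoidHom.range.index *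
        Nat.card (d.toAddMonoidHom.comp (d ^ m).toAddMonoidHom).ker * h2

theorem q_nsmul [Module.Finite ℤ A] {n : ℕ} (hn : n ≠ 0) :
    Nat.card (nsmulAddMonoidHom (α := A) n).ker ≠ 0 ∧
      (nsmulAddMonoidHom (α := A) n).range.index =
        n ^ Module.finrank ℤ A * Nat.card (nsmulAddMonoidHom (α := A) n).ker := by
  set ν := nsmulAddMonoidHom (α := A) n with hν
  let T₀ := Submodule.torsion ℤ A
  let T := T₀.toAddSubgroup
  have hT : Finite T := Module.finite_of_fg_torsion T₀ (Submodule.torsion_isTorsion)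
  have hT0 : Nat.card T ≠ 0 := Nat.card_pos.ne'
  have hz : ((n : ℤ)) ∈ nonZeroDivisors ℤ := mem_nonZeroDivisors_of_ne_zero (by exact_mod_cast hn)
  have h0 : ∀ x, ν x ∈ T → x ∈ T := fun x ⟨a, ha⟩ =>
    ⟨a * ⟨n, hz⟩, by rw [mul_smul]; simpa [hν, Submonoid.smul_def] using ha⟩
  have h1 : ν.ker ≤ T := fun x hx => h0 x ((AddMonoidHom.mem_ker.1 hx).symm ▸ T.zero_mem)
  have h2 : T.map ν ≤ T := by
    rintro _ ⟨x, hx, rfl⟩
    exact T.nsmul_mem hx n
  have h3 : ν.range ⊓ T = T.map ν := le_antisymm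
    (by rintro _ ⟨⟨x, rfl⟩, hx⟩; exact ⟨x, h0 x hx, rfl⟩) (le_inf (map_le_range _ _) h2)
  have h4 := card_mul h1
  have h5 := card_mul h2
  rw [relIndex_ker] at h4
  have h6 : (T.map ν).relIndex T = Nat.card ν.ker :=
    Nat.eq_of_mul_eq_mul_left (Nat.pos_of_ne_zero (left_ne_zero_of_mul (h5 ▸ hT0)))
      (h5.trans (h4.symm.trans (mul_comm _ _)))
  refine ⟨left_ne_zero_of_mul (h4 ▸ hT0), ?_⟩
  have h7 := index_map ν.range T₀.mkQ.toAddMonoidHom
  have e1 : T₀.mkQ.toAddMonoidHom.ker = T := by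
    ext x
    exact Submodule.Quotient.mk_eq_zero T₀
  have e2 : ν.range.map T₀.mkQ.toAddMonoidHom = (nsmulAddMonoidHom (α := A ⧸ T₀) n).range := by
    ext y
    constructor
    · rintro ⟨_, ⟨x, rfl⟩, rfl⟩
      exact ⟨T₀.mkQ x, (map_nsmul T₀.mkQ n x).symm⟩
    · rintro ⟨y, rfl⟩
      obtain ⟨x, rfl⟩ := T₀.mkQ_surjective y
      exact ⟨_, ⟨x, rfl⟩, map_nsmul T₀.mkQ n x⟩
  rw [e1, e2, index_range_nsmul, (AddMonoidHom.range_eq_top (f := T₀.mkQ.toAddMonoidHom)).2
    T₀.mkQ_surjective, index_top, mul_one,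
    finrank_quotient_eq_of_le_torsion le_rfl] at h7
  rw [← relIndex_mul_index (le_sup_left : ν.range ≤ ν.range ⊔ T), relIndex_sup_left,
    ← inf_relIndex_right, h3, h6, ← h7, mul_comm]

theorem poly {e : ℕ} (he : e.Prime) : ∃ r u v : ℤ[X],
    ∑ i ∈ range e, (X + 1) ^ i = X ^ (e - 1) + (e : ℤ[X]) * r ∧
      (e : ℤ[X]) = X ^ (e - 1) * u + (∑ i ∈ range e, (X + 1) ^ i) * v := by
  obtain ⟨r, hr⟩ := exists_add_pow_prime_eq he (X : ℤ[X]) 1
  have h0 : (X : ℤ[X]) ^ e = X * X ^ (e - 1) := by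
    rw [← pow_succ', Nat.sub_add_cancel he.one_le]
  have h1 : ∑ i ∈ range e, ((X : ℤ[X]) + 1) ^ i = X ^ (e - 1) + (e : ℤ[X]) * r := by
    refine mul_left_cancel₀ X_ne_zero ?_
    have := geom_sum_mul ((X : ℤ[X]) + 1) e
    linear_combination this + hr + h0
  have h2 : r.coeff 0 = 1 := by
    have h3 := congrArg (eval 0) h1
    have h4 := he.two_le
    simp only [eval_finsetSum, eval_pow, eval_add, eval_X, eval_one, zero_add, one_pow, sum_const,
      card_range, eval_mul, eval_natCast, zero_pow (show e - 1 ≠ 0 by omega), nsmul_one] at h3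
    rw [coeff_zero_eq_eval_zero]
    exact (mul_left_cancel₀ (Nat.cast_ne_zero.2 he.ne_zero) ((mul_one _).trans h3)).symm
  have h3 : IsCoprime r X := ⟨1, -r.divX, by
    have := X_mul_divX_add r
    rw [h2, C_1] at this
    linear_combination -this⟩
  obtain ⟨a, b, hab⟩ := h3.pow_right (n := e - 1)
  exact ⟨r, e * b - a, a, h1, by rw [h1]; linear_combination (-(e : ℤ[X])) * hab⟩

/-- a module killed by the norm -/
theorem q_df [Module.Finite ℤ A] {e : ℕ} (he : e.Prime) (d : Module.End ℤ A)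
    (h : ∑ i ∈ range e, (d + 1) ^ i = 0) : Nat.card d.toAddMonoidHom.ker ≠ 0 ∧
      e ^ Module.finrank ℤ A * Nat.card d.toAddMonoidHom.ker ^ (e - 1) =
        d.toAddMonoidHom.range.index ^ (e - 1) := by
  obtain ⟨r, u, v, h1, h2⟩ := poly he
  have hN : aeval d (∑ i ∈ range e, ((X : ℤ[X]) + 1) ^ i) = 0 := by simpa using h
  have a1 : ∀ x, (d ^ (e - 1)) x = e • -aeval d r x := fun x => by
    have := congrArg (fun p : ℤ[X] => aeval d p x) h1
    simp only [hN, map_add, map_mul, map_pow, aeval_X, map_natCast, LinearMap.add_apply,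
      Module.End.mul_apply, Module.End.natCast_apply, LinearMap.zero_apply] at this
    rw [smul_neg]
    exact eq_neg_of_add_eq_zero_left this.symm
  have a2 : ∀ x, e • x = (d ^ (e - 1)) (aeval d u x) := fun x => by
    have := congrArg (fun p : ℤ[X] => aeval d p x) h2
    simpa only [hN, map_add, map_mul, map_pow, aeval_X, map_natCast, zero_mul, add_zero,
      Module.End.mul_apply, Module.End.natCast_apply] using this
  have a3 : ∀ x, e • x = aeval d u ((d ^ (e - 1)) x) := fun x => by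
    rw [mul_comm (X ^ (e - 1)) u] at h2
    have := congrArg (fun p : ℤ[X] => aeval d p x) h2
    simpa only [hN, map_add, map_mul, map_pow, aeval_X, map_natCast, zero_mul, add_zero,
      Module.End.mul_apply, Module.End.natCast_apply] using this
  have e1 : (d ^ (e - 1)).toAddMonoidHom.range = (nsmulAddMonoidHom e).range := by
    ext y
    exact ⟨fun ⟨x, hx⟩ => ⟨_, (a1 x).symm.trans hx⟩, fun ⟨x, hx⟩ => ⟨_, (a2 x).symm.trans hx⟩⟩
  have e2 : (d ^ (e - 1)).toAddMonoidHom.ker = (nsmulAddMonoidHom e).ker := by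
    ext y
    refine ⟨fun hy => (a3 y).trans ?_, fun hy => (a1 y).trans ?_⟩
    · rw [show (d ^ (e - 1)) y = 0 from hy, map_zero]
    · rw [← map_neg, ← map_nsmul, smul_neg, show e • y = 0 from hy, neg_zero, map_zero]
  obtain ⟨n1, n2⟩ := q_nsmul (A := A) he.ne_zero
  have k1 : d.toAddMonoidHom.ker ≤ (d ^ (e - 1)).toAddMonoidHom.ker := fun x hx => by
    have h4 := he.two_le
    obtain ⟨m, hm⟩ : ∃ m, e - 1 = m + 1 := ⟨e - 2, by omega⟩
    show (d ^ (e - 1)) x = 0
    rw [hm, pow_succ, Module.End.mul_apply, show d x = 0 from hx, map_zero]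
  have k2 : Nat.card d.toAddMonoidHom.ker ≠ 0 := left_ne_zero_of_mul (card_mul k1 ▸ e2 ▸ n1)
  refine ⟨k2, Nat.eq_of_mul_eq_mul_right (Nat.pos_of_ne_zero n1) ?_⟩
  have := (q_pow d k2 (e - 1)).2
  rw [e1, e2, n2] at this
  rw [← this]
  ring

theorem core [Module.Finite ℤ A] {e : ℕ} (he : e.Prime) (s : Module.End ℤ A) (hs : s ^ e = 1)
    (hr : Module.finrank ℤ A + 1 = e * (Module.finrank ℤ (LinearMap.ker (s - 1)) + 1))
    (d N : A →+ A) (hd : d = (s - 1).toAddMonoidHom)
    (hN : N = (∑ i ∈ range e, s ^ i).toAddMonoidHom) :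
    N.range.relIndex d.ker ≠ 0 ∧ d.range.relIndex N.ker ≠ 0 ∧
      e * N.range.relIndex d.ker ≤ d.range.relIndex N.ker := by
  have g1 : (∑ i ∈ range e, s ^ i) * (s - 1) = 0 := by rw [geom_sum_mul, hs, sub_self]
  have g2 : (s - 1) * (∑ i ∈ range e, s ^ i) = 0 := by rw [mul_geom_sum, hs, sub_self]
  have Nd : ∀ x, N (d x) = 0 := fun x => by subst hd hN; exact LinearMap.congr_fun g1 x
  have dN : ∀ x, d (N x) = 0 := fun x => by subst hd hN; exact LinearMap.congr_fun g2 x
  have r1 : d.range ≤ N.ker := by rintro _ ⟨x, rfl⟩; exact Nd x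
  have r2 : N.range ≤ d.ker := by rintro _ ⟨x, rfl⟩; exact dN x
  have Ne : ∀ x ∈ d.ker, N x = e • x := fun x hx => by
    have h1 : s x = x := by subst hd; exact sub_eq_zero.1 hx
    have h2 : ∀ i, (s ^ i) x = x := fun i => by
      rw [Module.End.pow_apply, Function.iterate_fixed h1]
    subst hN
    simp [LinearMap.sum_apply, h2]
  let G := LinearMap.ker (s - 1)
  let B := LinearMap.ker (∑ i ∈ range e, s ^ i)
  -- the two index identities
  have i1 : (d.ker ⊔ N.ker).index * N.range.relIndex d.ker = (d.ker.map N).relIndex d.ker := by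
    rw [← relIndex_mul_relIndex _ _ _ (map_le_range N d.ker) r2, N.range_eq_map, relIndex_map_map,
      top_sup_eq, relIndex_top_right]
  have i2 : (d.ker ⊔ N.ker).index * d.range.relIndex N.ker = (N.ker.map d).relIndex N.ker := by
    rw [← relIndex_mul_relIndex _ _ _ (map_le_range d N.ker) r1, d.range_eq_map, relIndex_map_map,
      top_sup_eq, relIndex_top_right, sup_comm]
  -- multiplication by `e` on the invariants
  have : Module.Finite ℤ d.ker := by subst hd; exact inferInstanceAs (Module.Finite ℤ G)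
  obtain ⟨n1, n2⟩ := q_nsmul (A := d.ker) he.ne_zero
  have e1 : (nsmulAddMonoidHom (α := d.ker) e).range = (d.ker.map N).addSubgroupOf d.ker := by
    ext y
    exact ⟨fun ⟨x, hx⟩ => ⟨x, x.2, (Ne _ x.2).trans (congrArg Subtype.val hx)⟩,
      fun ⟨x, h1, hx⟩ => ⟨⟨x, h1⟩, Subtype.ext ((Ne _ h1).symm.trans hx)⟩⟩
  have e2 : (nsmulAddMonoidHom (α := d.ker) e).ker = (d.ker ⊓ N.ker).addSubgroupOf d.ker := by
    ext y
    exact ⟨fun hy => ⟨y.2, (Ne _ y.2).trans (congrArg Subtype.val hy)⟩,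
      fun hy => Subtype.ext ((Ne _ y.2).symm.trans hy.2)⟩
  rw [e2, Nat.card_congr (addSubgroupOfEquivOfLe inf_le_left).toEquiv] at n1 n2
  rw [e1] at n2
  -- the map `d` on the kernel of the norm
  have hb : ∀ x ∈ B, (s - 1) x ∈ B := fun x _ => LinearMap.congr_fun g1 x
  have p1 : ∀ (i : ℕ) (x : B), ((((s - 1).restrict hb + 1) ^ i) x : A) = (s ^ i) x := by
    intro i
    induction i with
    | zero => intro x; rfl
    | succ i ih =>
      intro x
      rw [pow_succ, pow_succ, Module.End.mul_apply, Module.End.mul_apply, ih]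
      simp
  obtain ⟨m1, m2⟩ := q_df he ((s - 1).restrict hb) (by
    ext x
    have := x.2
    simpa only [B, LinearMap.mem_ker, LinearMap.sum_apply, Submodule.coe_sum, p1] using! this)
  have e3 : ((s - 1).restrict hb).toAddMonoidHom.range.index = (N.ker.map d).relIndex N.ker := by
    subst hd hN
    refine congrArg AddSubgroup.index (AddSubgroup.ext fun y => ?_)
    exact ⟨fun ⟨x, hx⟩ => ⟨x, x.2, congrArg Subtype.val hx⟩,
      fun ⟨x, h1, hx⟩ => ⟨⟨x, h1⟩, Subtype.ext hx⟩⟩
  have e4 : Nat.card ((s - 1).restrict hb).toAddMonoidHom.ker =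
      Nat.card (d.ker ⊓ N.ker : AddSubgroup A) := by
    subst hd hN
    rw [← Nat.card_congr (addSubgroupOfEquivOfLe inf_le_right).toEquiv]
    refine congrArg (fun H : AddSubgroup B => Nat.card H) (AddSubgroup.ext fun y => ?_)
    exact ⟨fun hy => ⟨congrArg Subtype.val hy, y.2⟩, fun hy => Subtype.ext hy.1⟩
  rw [e3, e4] at m2
  -- ranks
  have k1 : Module.finrank ℤ d.ker = Module.finrank ℤ G := by subst hd; rfl
  have k2 := G.finrank_quotient_add_finrank
  rw [(s - 1).quotKerEquivRange.finrank_eq] at k2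
  have k3 : Module.finrank ℤ (LinearMap.range (s - 1)) ≤ Module.finrank ℤ B :=
    Submodule.finrank_mono (by rintro _ ⟨x, rfl⟩; exact LinearMap.congr_fun g1 x)
  have k4 : (Module.finrank ℤ G + 1) * (e - 1) ≤ Module.finrank ℤ B := by
    have : (Module.finrank ℤ G + 1) * (e - 1) + (Module.finrank ℤ G + 1) =
        e * (Module.finrank ℤ G + 1) := by
      rw [← mul_add_one, Nat.sub_add_cancel he.one_le, mul_comm]
    change Module.finrank ℤ A + 1 = e * (Module.finrank ℤ G + 1) at hr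
    omega
  have h2 := he.two_le
  have f1 : e ^ (Module.finrank ℤ G + 1) * Nat.card (d.ker ⊓ N.ker : AddSubgroup A) ≤
      (N.ker.map d).relIndex N.ker := by
    rw [← Nat.pow_le_pow_iff_left (show e - 1 ≠ 0 by omega), ← m2, mul_pow, ← pow_mul]
    exact Nat.mul_le_mul_right _ (Nat.pow_le_pow_right he.pos k4)
  have f2 : (d.ker ⊔ N.ker).index * N.range.relIndex d.ker =
      e ^ Module.finrank ℤ G * Nat.card (d.ker ⊓ N.ker : AddSubgroup A) := k1 ▸ i1.trans n2
  have f3 : (d.ker ⊔ N.ker).index * N.range.relIndex d.ker ≠ 0 :=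
    f2 ▸ mul_ne_zero (pow_ne_zero _ he.ne_zero) n1
  have f4 : e * N.range.relIndex d.ker ≤ d.range.relIndex N.ker := by
    refine Nat.le_of_mul_le_mul_left ?_ (Nat.pos_of_ne_zero (left_ne_zero_of_mul f3))
    rw [i2, mul_left_comm, f2, ← mul_assoc, ← pow_succ']
    exact f1
  exact ⟨right_ne_zero_of_mul f3, ((Nat.pos_of_ne_zero
    (mul_ne_zero he.ne_zero (right_ne_zero_of_mul f3))).trans_le f4).ne', f4⟩

end H1A

theorem d_h1A : S_H1A := by
  intro E _ _ e σ he hσ hr
  let s : Module.End ℤ (Additive E) := (MonoidHom.toAdditive σ).toIntLinearMap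
  have h1 : ∀ (i : ℕ) (x : E), (s ^ i) (Additive.ofMul x) = Additive.ofMul (σ^[i] x) := by
    intro i
    induction i with
    | zero => intro x; rfl
    | succ i ih => intro x; rw [pow_succ, Module.End.mul_apply]; exact ih (σ x)
  let φ : Additive (fx σ) ≃+ LinearMap.ker (s - 1) :=
    { toFun := fun x => ⟨Additive.ofMul x.toMul.1, sub_eq_zero.2 x.toMul.2⟩
      invFun := fun x => Additive.ofMul ⟨x.1.toMul, (sub_eq_zero (G := Additive E)).1 x.2⟩
      left_inv := fun _ => rfl
      right_inv := fun _ => rfl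
      map_add' := fun _ _ => rfl }
  have h2 := H1A.core he s (LinearMap.ext fun x => (h1 e x.toMul).trans (congrArg _ (hσ _)))
    (by rw [hr, φ.toIntLinearEquiv.finrank_eq]) (MonoidHom.toAdditive (df σ))
    (MonoidHom.toAdditive (nm σ e)) rfl (AddMonoidHom.ext fun x => by
      show Additive.ofMul (nm σ e x.toMul) = (∑ i ∈ range e, s ^ i) (Additive.ofMul x.toMul)
      simp only [nm_apply, ofMul_prod, LinearMap.sum_apply, h1])
  have e1 : fx σ = (df σ).ker := Subgroup.ext fun x => div_eq_one.symm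
  rw [h0, Cy.h1, e1, ← Subgroup.relIndex_toAddSubgroup, ← Subgroup.relIndex_toAddSubgroup]
  exact h2

end Pool.Agent.P.MP_b8021b_nt.VC
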