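import Pool.Agent.P.MP_b8021b_nt.VC.PDescS

/-! The index computation behind the Hasse norm theorem. -/

namespace Pool.Agent.P.MP_b8021b_nt.VC

open Finset Subgroup Cy

namespace DHA

lemma mono {G : Type} [Group G] {H H' K K' : Subgroup G} (h0 : H.relIndex K ≠ 0)
    (h1 : H ⊓ K' ≤ H') (h2 : K' ≤ K) :
    H'.relIndex K' ≠ 0 ∧ H'.relIndex K' ≤ H.relIndex K := by
  have h3 : (H ⊓ K').relIndex K' ≠ 0 := by
    rw [inf_relIndex_right]
    exact fun h => h0 (relIndex_eq_zero_of_le_right h2 h)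
  refine ⟨fun h => h3 (relIndex_eq_zero_of_le_left h1 h), (relIndex_le_of_le_left h1 h3).trans ?_⟩
  rw [inf_relIndex_right]
  exact relIndex_le_of_le_right h2 h0

variable {A B : Type} [CommGroup A] [CommGroup B] {e : ℕ}

lemma nm_map {σ : A →* A} {τ : B →* B} {f : A →* B} (h : ∀ a, f (σ a) = τ (f a)) (a : A) :
    f (nm σ e a) = nm τ e (f a) := by
  rw [nm_apply, nm_apply, map_prod]
  exact prod_congr rfl fun i _ => Function.Semiconj.iterate_right h i a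

lemma df_map {σ : A →* A} {τ : B →* B} {f : A →* B} (h : ∀ a, f (σ a) = τ (f a)) (a : A) :
    f (df σ a) = df τ (f a) := by
  rw [df_apply, df_apply, map_div, h]

lemma nm_σ {σ : A →* A} (h : ∀ a, σ^[e] a = a) (a : A) : nm σ e (σ a) = nm σ e a := by
  have h1 := prod_range_succ (fun i => σ^[i] a) e
  rw [prod_range_succ', h] at h1
  exact mul_right_cancel h1

lemma nm_df {σ : A →* A} (h : ∀ a, σ^[e] a = a) (a : A) : nm σ e (df σ a) = 1 := by
  rw [df_apply, map_div, nm_σ h, div_self']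

lemma nm_fx {σ : A →* A} (h : ∀ a, σ^[e] a = a) (a : A) : nm σ e a ∈ fx σ :=
  (nm_map (f := σ) (fun _ => rfl) a).trans (nm_σ h a)

lemma df_eq_one {σ : A →* A} {a : A} : df σ a = 1 ↔ a ∈ fx σ := by
  rw [df_apply, div_eq_one, mem_fx]

/-- the data of the computation -/
structure Dat {E A D : Type} [CommGroup E] [CommGroup A] [CommGroup D] (e : ℕ) (σE : E →* E)
    (σ : A →* A) (σD : D →* D) (ι : E →* A) (dv : A →* D) : Prop where
  oE : ∀ x, σE^[e] x = x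
  oA : ∀ a, σ^[e] a = a
  oD : ∀ x, σD^[e] x = x
  inj : Function.Injective ι
  ker : ι.range = dv.ker
  eι : ∀ x, ι (σE x) = σ (ι x)
  ed : ∀ a, dv (σ a) = σD (dv a)
  h90 : (nm σ e).ker ≤ (df σ).range
  fin : dv.range.index ≠ 0

variable {E D : Type} [CommGroup E] [CommGroup D] {σE : E →* E} {σ : A →* A} {σD : D →* D}
  {ι : E →* A} {dv : A →* D}

namespace Dat

variable (h : Dat e σE σ σD ι dv)
include h

lemma dι (x : E) : dv (ι x) = 1 := (h.ker.le ⟨x, rfl⟩ : ι x ∈ dv.ker)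

lemma ex {a : A} (ha : dv a = 1) : ∃ x, ι x = a := h.ker.ge ha

lemma pe : ((fx σ).map dv).relIndex (dv.range ⊓ fx σD) = h1 σE e := by
  have e1 : dv.range ⊓ fx σD = (ι.range.comap (df σ)).map dv := by
    refine le_antisymm ?_ ?_
    · rintro _ ⟨⟨a, rfl⟩, ha⟩
      exact ⟨a, h.ex ((df_map h.ed a).trans (df_eq_one.2 ha)), rfl⟩
    · rintro _ ⟨a, ⟨x, hx⟩, rfl⟩
      exact ⟨⟨a, rfl⟩, df_eq_one.1 (by rw [← df_map h.ed, ← hx, h.dι])⟩
  have e2 : ((fx σ).map dv).comap dv = ((df σE).range.map ι).comap (df σ) := by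
    refine le_antisymm ?_ ?_
    · rintro a ⟨b, hb, hab⟩
      obtain ⟨x, hx⟩ := h.ex (a := a / b) (by rw [map_div, hab, div_self'])
      exact ⟨_, ⟨x, rfl⟩, by rw [df_map h.eι, hx, map_div, df_eq_one.2 hb, div_one]⟩
    · rintro a ⟨_, ⟨x, rfl⟩, hx⟩
      refine ⟨a / ι x, df_eq_one.1 (by rw [map_div, ← hx, df_map h.eι, div_self']), ?_⟩
      rw [map_div, h.dι, div_one]
  have e3 : (ι.range.comap (df σ)).map (df σ) = (nm σE e).ker.map ι := by
    refine le_antisymm ?_ ?_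
    · rintro _ ⟨a, ⟨x, hx⟩, rfl⟩
      exact ⟨x, h.inj (by rw [nm_map h.eι, hx, nm_df h.oA, map_one]), hx⟩
    · rintro _ ⟨x, hx, rfl⟩
      obtain ⟨a, ha⟩ := h.h90 (x := ι x) ((nm_map h.eι x).symm.trans
        (by rw [show nm σE e x = 1 from hx, map_one]))
      exact ⟨a, ⟨x, ha.symm⟩, ha⟩
  rw [e1, ← relIndex_comap, e2, relIndex_comap, e3, relIndex_map_map_of_injective _ _ h.inj, h1]

lemma pd (h0 : (nm σE e).range.relIndex ((nm σ e).range.comap ι) ≠ 0) :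
    (fx σD ⊔ dv.range).relIndex (dv.range.comap (df σD)) ≤
      (nm σE e).range.relIndex ((nm σ e).range.comap ι) := by
  have e1 : fx σD ⊔ dv.range = (dv.range.map (df σD)).comap (df σD) := by
    rw [comap_map_eq, sup_comm]
    congr 1
    ext x
    exact df_eq_one.symm
  have e2 : (dv.range.comap (df σD)).map (df σD) = ((df σD).range.comap dv).map dv := by
    rw [map_comap_eq, map_comap_eq, inf_comm]
  rw [← relIndex_map_map_of_injective _ _ h.inj] at h0 ⊢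
  have e3 := mono h0 (H' := (nm σE e).range.map ι) (K' := ((df σD).range.comap dv).map (nm σ e))
    inf_le_left (by
      rintro _ ⟨a, ⟨x, hx⟩, rfl⟩
      obtain ⟨y, hy⟩ := h.ex (a := nm σ e a) (by rw [nm_map h.ed, ← hx, nm_df h.oD])
      exact ⟨y, ⟨a, hy.symm⟩, hy⟩)
  rw [← relIndex_comap] at e3
  rw [e1, relIndex_comap, e2, ← relIndex_comap]
  refine (mono e3.1 ?_ le_rfl).2.trans e3.2
  rintro a ⟨⟨_, ⟨x, rfl⟩, hx⟩, -⟩
  obtain ⟨b, hb⟩ := h.h90 (x := a / ι x) (by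
    rw [MonoidHom.mem_ker, map_div, ← hx, nm_map h.eι, div_self'])
  exact ⟨_, ⟨b, rfl⟩, by rw [← df_map h.ed, hb, map_div, h.dι, div_one]⟩

lemma pc : (dv.range ⊔ (df σD).range).index = dv.range.relIndex (dv.range.comap (df σD)) := by
  have e1 := relIndex_mul_index (show dv.range ≤ dv.range ⊔ (df σD).range from le_sup_left)
  rw [relIndex_sup_left, ← index_comap] at e1
  have e2 := relIndex_mul_index (show dv.range ≤ dv.range.comap (df σD) by
    rintro _ ⟨a, rfl⟩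
    exact ⟨_, df_map h.ed a⟩)
  have e3 : (dv.range.comap (df σD)).index ≠ 0 := left_ne_zero_of_mul (e1 ▸ h.fin)
  exact mul_left_cancel₀ e3 (e1.trans (e2.symm.trans (mul_comm _ _)))

/-- the first inequality -/
lemma main (a0 : h0 σE e ≠ 0) (a1 : h1 σE e ≠ 0) (a2 : e * h0 σE e ≤ h1 σE e) :
    ((fx σ).map dv).relIndex (fx σD) ≠ 0 ∧
    (nm σ e).range.relIndex (fx σ ⊓ (nm σD e).range.comap dv) ≠ 0 ∧
    (nm σ e).range.relIndex (fx σ ⊓ (nm σD e).range.comap dv) * e ≤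
      ((fx σ).map dv ⊔ (nm σD e).range).relIndex (fx σD) := by
  set P := dv.range with hP
  set PF := (fx σ).map dv with hPF
  set R := (nm σD e).range with hR
  set A1 := fx σ ⊓ R.comap dv with hA1
  set EN := (nm σ e).range.comap ι with hEN
  set W := P ⊔ (df σD).range with hW
  set Z := PF.comap (nm σD e) with hZ
  set K := (nm σ e).range ⊔ (fx σE).map ι with hK
  have hPF1 : PF ≤ fx σD := by
    rintro _ ⟨a, ha, rfl⟩
    exact (h.ed a).symm.trans (congrArg dv ha)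
  have hR1 : R ≤ fx σD := by
    rintro _ ⟨a, rfl⟩
    exact nm_fx h.oD a
  have b1 := relIndex_mul_relIndex (nm σE e).range EN (fx σE)
    (by rintro _ ⟨x, rfl⟩; exact ⟨_, (nm_map h.eι x).symm⟩)
    (by
      rintro x ⟨a, ha⟩
      exact mem_fx.2 (h.inj (by rw [h.eι, ← ha]; exact nm_fx h.oA a)))
  change _ = h0 σE e at b1
  have b2 := relIndex_mul_relIndex PF (P ⊓ fx σD) (fx σD) (le_inf (map_le_range _ _) hPF1)
    inf_le_right
  rw [h.pe, inf_relIndex_right] at b2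
  have b3 : P.relIndex (fx σD) ≠ 0 := fun h' => h.fin (index_eq_zero_of_relIndex_eq_zero h')
  have b4 := relIndex_mul_relIndex PF (PF ⊔ R) (fx σD) le_sup_left (sup_le hPF1 hR1)
  rw [relIndex_sup_left, ← index_comap] at b4
  have b5 := relIndex_mul_relIndex P (fx σD ⊔ P) (P.comap (df σD)) le_sup_right (sup_le
    (fun x hx => by rw [mem_comap, df_eq_one.2 hx]; exact one_mem _)
    (by rintro _ ⟨a, rfl⟩; exact ⟨_, df_map h.ed a⟩))
  rw [relIndex_sup_right, ← h.pc] at b5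
  have b6 := h.pd (left_ne_zero_of_mul (b1 ▸ a0))
  set Q := (nm σ e).range.map dv with hQ
  have hWQ : W ≤ Q.comap (nm σD e) := by
    refine sup_le ?_ ?_
    · rintro _ ⟨a, rfl⟩
      exact ⟨_, ⟨a, rfl⟩, nm_map h.ed a⟩
    · rintro _ ⟨a, rfl⟩
      rw [mem_comap, nm_df h.oD]
      exact one_mem _
  have hN : (nm σ e).range ≤ fx σ := by
    rintro _ ⟨a, rfl⟩
    exact nm_fx h.oA a
  have b7 := relIndex_mul_index (show W ≤ Z from hWQ.trans (comap_mono (map_mono hN)))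
  have hW0 : W.index ≠ 0 := fun h' => h.fin (eq_zero_of_zero_dvd
    (h' ▸ index_dvd_of_le (le_sup_left : P ≤ W)))
  have b8 := mono (left_ne_zero_of_mul (b7 ▸ hW0)) (inf_le_left.trans hWQ) le_rfl
  have e1 : Z.map (nm σD e) = A1.map dv := by
    rw [hZ, map_comap_eq]
    refine le_antisymm ?_ ?_
    · rintro _ ⟨hr, a, ha, rfl⟩
      exact ⟨a, ⟨ha, hr⟩, rfl⟩
    · rintro _ ⟨a, ⟨ha, hr⟩, rfl⟩
      exact ⟨hr, a, ha, rfl⟩
  rw [relIndex_comap, e1, ← relIndex_comap] at b8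
  have b9 := mono b8.1 (H' := K) (K' := A1) (by
    rintro a ⟨⟨_, ⟨b, rfl⟩, hb⟩, ha, -⟩
    obtain ⟨x, hx⟩ := h.ex (a := a / nm σ e b) (by rw [map_div, hb, div_self'])
    have : a = nm σ e b * ι x := by rw [hx, mul_div_cancel]
    rw [this]
    refine mul_mem_sup ⟨b, rfl⟩ ⟨x, h.inj ?_, rfl⟩
    rw [h.eι, MonoidHom.id_apply, hx]
    exact (fx σ).div_mem ha (nm_fx h.oA b)) le_rfl
  have c1 := relIndex_mul_relIndex (nm σ e).range K A1 le_sup_left (sup_le
    (le_inf hN (by rintro _ ⟨a, rfl⟩; exact ⟨_, (nm_map h.ed a).symm⟩))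
    (by
      rintro _ ⟨x, hx, rfl⟩
      exact ⟨(h.eι x).symm.trans (congrArg ι hx), mem_comap.2 (by rw [h.dι]; exact one_mem _)⟩))
  rw [relIndex_sup_left, ← relIndex_comap] at c1
  have z0 : Z.index ≠ 0 := right_ne_zero_of_mul (b7 ▸ hW0)
  refine ⟨b2 ▸ mul_ne_zero a1 b3, c1 ▸ mul_ne_zero (right_ne_zero_of_mul (b1 ▸ a0)) b9.1, ?_⟩
  refine Nat.le_of_mul_le_mul_left (c := Z.index * h0 σE e) ?_
    (Nat.pos_of_ne_zero (mul_ne_zero z0 a0))
  calc Z.index * h0 σE e * ((nm σ e).range.relIndex A1 * e)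
      = EN.relIndex (fx σE) * (K.relIndex A1 * Z.index) * (e * h0 σE e) := by rw [← c1]; ring
    _ ≤ EN.relIndex (fx σE) * (W.relIndex Z * Z.index) * h1 σE e := by
      gcongr
      exact b9.2.trans b8.2
    _ ≤ EN.relIndex (fx σE) * (P.relIndex (fx σD) * (nm σE e).range.relIndex EN) * h1 σE e := by
      rw [b7, ← b5]
      gcongr
    _ = Z.index * h0 σE e * (PF ⊔ R).relIndex (fx σD) := by
      rw [mul_right_comm Z.index, b4, ← b2, ← b1]; ring

end Dat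

end DHA

open DHA in
theorem d_hA : S_HA := by
  intro E A D _ _ _ e σE σ σD ι dv U₁ J he o1 o2 o3 inj ker e1 e2 h90 fin a0 a1 a2 hJ hU1 i1 hN i2 γ hγ
    hγ'
  obtain ⟨m1, m2, m3⟩ := Dat.main ⟨o1, o2, o3, inj, ker, e1, e2, h90, fin⟩ a0 a1 a2
  set PF := (fx σ).map dv with hPF
  set R := (nm σD e).range with hR
  set A1 := fx σ ⊓ R.comap dv with hA1
  set U := fx σ ⊓ J.comap dv with hU
  have hPF1 : PF ≤ fx σD := by
    rintro _ ⟨a, ha, rfl⟩
    exact (e2 a).symm.trans (congrArg dv ha)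
  have hR1 : R ≤ fx σD := by
    rintro _ ⟨a, rfl⟩
    exact nm_fx o3 a
  have c1 := mono m1 (H' := J ⊔ PF) (inf_le_left.trans le_sup_right) le_rfl
  have u0 : U₁.relIndex U ≠ 0 := by omega
  have c2 := mono m1 (H' := U.map dv) (K' := J) (by
    rintro _ ⟨⟨a, ha, rfl⟩, hb⟩
    exact ⟨a, ⟨ha, hb⟩, rfl⟩) hJ
  have c3 := mono u0 (H' := (U₁.map dv).comap dv) (inf_le_left.trans (le_comap_map _ _)) le_rfl
  rw [relIndex_comap] at c3
  have c4 := mono (relIndex_ne_zero_trans c3.1 c2.1) (H' := U₁.map dv ⊔ R)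
    (inf_le_left.trans le_sup_left) le_rfl
  have c5 := relIndex_inf_mul_relIndex (U₁.map dv ⊔ R) (U.map dv ⊔ R) J
  rw [inf_of_le_left (sup_le_sup_right (map_mono hU1) R)] at c5
  have c6 := mono (left_ne_zero_of_mul (c5 ▸ c4.1)) (H' := U₁.map dv ⊔ R) (K' := U.map dv)
    inf_le_left (le_inf le_sup_left (map_le_iff_le_comap.2 inf_le_right))
  rw [← relIndex_comap] at c6
  have c7 := mono c6.1 (H' := U₁ ⊔ A1 ⊓ U) (K' := U) (by
    rintro u ⟨hu, hu'⟩
    obtain ⟨_, ⟨v, hv, rfl⟩, r, hr, hvr⟩ := mem_sup.1 hu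
    have : u = v * (u / v) := by rw [mul_div_cancel]
    rw [this]
    have h2 := U.div_mem hu' (hU1 hv)
    refine mul_mem_sup hv ⟨⟨h2.1, mem_comap.2 ?_⟩, h2⟩
    rw [map_div, ← hvr, mul_div_cancel_left]
    exact hr) le_rfl
  have c8 := relIndex_mul_relIndex U₁ (U₁ ⊔ A1 ⊓ U) U le_sup_left (sup_le hU1 inf_le_right)
  rw [relIndex_sup_left] at c8
  have d1 := relIndex_mul_relIndex (PF ⊔ R) (PF ⊔ R ⊔ J) (fx σD) le_sup_left
    (sup_le (sup_le hPF1 hR1) hJ)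
  rw [relIndex_sup_left] at d1
  have d2 := mono (right_ne_zero_of_mul (c5 ▸ c4.1)) (H' := PF ⊔ R)
    (inf_le_left.trans (sup_le_sup_right (map_mono inf_le_left) R)) le_rfl
  have d3 := mono c1.1 (H' := PF ⊔ R ⊔ J) (inf_le_left.trans
    (sup_le le_sup_right (le_sup_left.trans le_sup_left))) le_rfl
  have d4 : (nm σ e).range.relIndex A1 ≤ U₁.relIndex (A1 ⊓ U) := by
    refine Nat.le_of_mul_le_mul_right (m3.trans ?_) he
    calc (PF ⊔ R).relIndex (fx σD) ≤ (U.map dv ⊔ R).relIndex J * U₁.relIndex U := by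
          rw [← d1]
          exact Nat.mul_le_mul d2.2 (d3.2.trans i1)
      _ ≤ U₁.relIndex (A1 ⊓ U) * (U₁.map dv ⊔ R).relIndex J := by
          rw [← c8, ← c5, mul_comm, mul_assoc]
          gcongr
          exact c7.2.trans c6.2
      _ ≤ _ := Nat.mul_le_mul_left _ i2
  have d5 := mono m2 (H' := (nm σ e).range) (K' := A1 ⊓ U) inf_le_left inf_le_left
  have d6 := relIndex_inf_mul_relIndex (nm σ e).range U₁ (A1 ⊓ U)
  have d7 : ((nm σ e).range ⊓ U₁).relIndex (A1 ⊓ U) = (nm σ e).range.relIndex (A1 ⊓ U) := by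
    rw [← inf_relIndex_right, ← inf_relIndex_right (nm σ e).range]
    congr 1
    exact le_antisymm (inf_le_inf_right _ inf_le_left) fun x hx =>
      ⟨⟨hx.1, hN ⟨hx.2.2, hx.1⟩⟩, hx.2⟩
  rw [d7] at d6
  have d8 : (nm σ e).range.relIndex (U₁ ⊓ (A1 ⊓ U)) = 1 := by
    have p1 := left_ne_zero_of_mul (d6 ▸ d5.1)
    have p2 := right_ne_zero_of_mul (d6 ▸ d5.1)
    have p3 : (nm σ e).range.relIndex (U₁ ⊓ (A1 ⊓ U)) ≤ 1 :=
      Nat.le_of_mul_le_mul_right (by rw [d6, one_mul]; exact d5.2.trans d4) (Nat.pos_of_ne_zero p2)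
    omega
  exact relIndex_eq_one.1 d8 ⟨hγ, ⟨(hU1 hγ).1, hγ'⟩, hU1 hγ⟩

end Pool.Agent.P.MP_b8021b_nt.VC
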