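import Pool.Agent.P.MP_b8021b_nt.VC.DHNP1

/-! The Hasse norm theorem from the index computation and the second inequality. -/

namespace Pool.Agent.P.MP_b8021b_nt.VC

open NumberField Finset Pool.Agent.P.MP_b8021b_nt.VE Cy FractionalIdeal
open scoped Classical Pointwise nonZeroDivisors

set_option linter.unusedSectionVars false

noncomputable section

namespace HNP

variable {F K : Type} [Field F] [NumberField F] [Field K] [NumberField K] [Algebra F K] {n : ℕ}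

variable (K) in
/-- the extension of an ideal -/
def ex (𝔞 : Ideal (𝓞 F)) : FI K := ((𝔞.map (algebraMap (𝓞 F) (𝓞 K)) : Ideal (𝓞 K)) : FI K)

theorem ex_mul (𝔞 𝔟 : Ideal (𝓞 F)) : ex K (𝔞 * 𝔟) = ex K 𝔞 * ex K 𝔟 := by
  rw [ex, Ideal.map_mul, coeIdeal_mul]; rfl

theorem ex_top : ex K (⊤ : Ideal (𝓞 F)) = 1 := by rw [ex, Ideal.map_top, coeIdeal_top]

theorem ex_span (a : 𝓞 F) : ex K (Ideal.span {a}) = spanSingleton _ (algebraMap F K a) := by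
  rw [ex, Ideal.map_span, Set.image_singleton, coeIdeal_span_singleton]; rfl

theorem ex_ne {𝔞 : Ideal (𝓞 F)} (h : 𝔞 ≠ ⊥) : ex K 𝔞 ≠ 0 :=
  coeIdeal_ne_zero.2 (Ideal.map_ne_bot_of_ne_bot h)

theorem sF_ex (g : K ≃ₐ[F] K) (𝔞 : Ideal (𝓞 F)) : sF g (ex K 𝔞) = ex K 𝔞 := by
  rw [ex, sF_coe, Ideal.pointwise_smul_def, Ideal.map_map]
  congr 2
  exact RingHom.ext fun x => Subtype.ext (g.commutes _)

variable (F K n) in
/-- the fractional ideals of the small field that are prime to `n` -/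
def J : Subgroup (FI K)ˣ where
  carrier := {x | ∃ 𝔞 𝔟 : Ideal (𝓞 F), Cop n 𝔞 ∧ Cop n 𝔟 ∧ (x : FI K) * ex K 𝔟 = ex K 𝔞}
  one_mem' := ⟨⊤, ⊤, cop_top, cop_top, by simp⟩
  mul_mem' := by
    rintro x y ⟨a, b, ha, hb, h⟩ ⟨a', b', ha', hb', h'⟩
    exact ⟨a * a', b * b', cop_mul.2 ⟨ha, ha'⟩, cop_mul.2 ⟨hb, hb'⟩, by
      rw [ex_mul, ex_mul, ← h, ← h', Units.val_mul, mul_mul_mul_comm]⟩
  inv_mem' := by
    rintro x ⟨a, b, ha, hb, h⟩
    exact ⟨b, a, hb, ha, by rw [← h, Units.inv_mul_cancel_left]⟩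

variable (F n) in
/-- the elements prime to `n` -/
def U : Subgroup Fˣ where
  carrier := {γ | ∃ a b : 𝓞 F, IsCoprime a n ∧ IsCoprime b n ∧ (γ : F) * b = a}
  one_mem' := ⟨1, 1, isCoprime_one_left, isCoprime_one_left, by simp⟩
  mul_mem' := by
    rintro x y ⟨a, b, ha, hb, h⟩ ⟨a', b', ha', hb', h'⟩
    exact ⟨a * a', b * b', ha.mul_left ha', hb.mul_left hb', by
      change (x : F) * y * ((b : F) * b') = (a : F) * a'
      rw [← h, ← h', mul_mul_mul_comm]⟩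
  inv_mem' := by
    rintro x ⟨a, b, ha, hb, h⟩
    exact ⟨b, a, hb, ha, by rw [← h, Units.inv_mul_cancel_left]⟩

theorem J_le (hn : 2 ≤ n) (g : K ≃ₐ[F] K) : J F K n ≤ fx (σD g) := by
  rintro x ⟨a, b, -, hb, h⟩
  refine Units.ext (mul_right_cancel₀ (ex_ne (K := K) (Cop_ne_bot hn hb)) ?_)
  rw [MonoidHom.id_apply, h, coe_σD, ← sF_ex g b, ← map_mul, h, sF_ex]

theorem key {γ : F} {𝔞 𝔟 : Ideal (𝓞 F)} {b : 𝓞 F} (hb : b ∈ 𝔟)
    (h : spanSingleton _ (algebraMap F K γ) * ex K 𝔟 = ex K 𝔞) : ∃ a : 𝓞 F, γ * b = a := by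
  have h1 : algebraMap F K (γ * b) ∈ ex K 𝔞 := by
    rw [← h, map_mul]
    exact mul_mem_mul (mem_spanSingleton_self _ _)
      (mem_coeIdeal_of_mem _ (Ideal.mem_map_of_mem (algebraMap (𝓞 F) (𝓞 K)) hb))
  obtain ⟨z, -, hz⟩ := (mem_coeIdeal _).1 h1
  have h2 : IsIntegral ℤ (γ * b) :=
    (isIntegral_algebraMap_iff (algebraMap F K).injective).1 (hz ▸ z.isIntegral_coe)
  exact ⟨⟨_, h2⟩, rfl⟩

theorem cop_ex {𝔞 : Ideal (𝓞 F)} (h : Cop n 𝔞) : ∃ a ∈ 𝔞, ∃ c : 𝓞 F, a + c * n = 1 := by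
  obtain ⟨a, ha, c, hc, e⟩ := Ideal.isCoprime_iff_exists.1 h
  obtain ⟨c, rfl⟩ := Ideal.mem_span_singleton'.1 hc
  exact ⟨a, ha, c, e⟩

theorem mem_U_iff (γ : Fˣ) : dv K (ιF F K γ) ∈ J F K n ↔ γ ∈ U F n := by
  constructor
  · rintro ⟨𝔞, 𝔟, h𝔞, h𝔟, h⟩
    rw [coe_toPrincipalIdeal, coe_ιF] at h
    obtain ⟨b, hb, c, hc⟩ := cop_ex h𝔟
    obtain ⟨a', ha', c', hc'⟩ := cop_ex h𝔞
    obtain ⟨a, ha⟩ := key hb h
    obtain ⟨b', hb'⟩ := key (γ := (γ : F)⁻¹) (𝔞 := 𝔟) (K := K) ha' (by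
      rw [← h, ← mul_assoc, spanSingleton_mul_spanSingleton, ← map_mul,
        inv_mul_cancel₀ γ.ne_zero, map_one, spanSingleton_one, one_mul])
    have e : a * b' = a' * b := Subtype.ext (by
      change (a : F) * b' = a' * b
      rw [← ha, ← hb']
      field_simp)
    have hb1 : IsCoprime b n := ⟨1, c, by rw [one_mul, hc]⟩
    have ha1 : IsCoprime a' n := ⟨1, c', by rw [one_mul, hc']⟩
    exact ⟨a, b, (e ▸ ha1.mul_left hb1 : IsCoprime (a * b') n).of_mul_left_left, hb1, ha⟩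
  · rintro ⟨a, b, ha, hb, h⟩
    refine ⟨Ideal.span {a}, Ideal.span {b}, (Ideal.isCoprime_span_singleton_iff _ _).2 ha,
      (Ideal.isCoprime_span_singleton_iff _ _).2 hb, ?_⟩
    rw [coe_toPrincipalIdeal, coe_ιF, ex_span, ex_span, spanSingleton_mul_spanSingleton, ← map_mul,
      h]

/-- a nonzero ideal as an invertible fractional ideal -/
def mkU (I : Ideal (𝓞 K)) : (FI K)ˣ :=
  if h : I = ⊥ then 1 else Units.mk0 (I : FI K) (coeIdeal_ne_zero.2 h)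

theorem coe_mkU {I : Ideal (𝓞 K)} (h : I ≠ ⊥) : (mkU I : FI K) = I := by
  rw [mkU, dif_neg h, Units.val_mk0]

theorem exists_cop (hn : 2 ≤ n) {𝔞 : Ideal (𝓞 F)} (h : 𝔞 ≠ ⊥) :
    ∃ (c : 𝓞 F) (𝔠 : Ideal (𝓞 F)), Cop n 𝔠 ∧ 𝔞 * 𝔠 = Ideal.span {c} := by
  have h0 : Ideal.span {(n : 𝓞 F)} ≠ ⊥ := by
    rw [Ne, Ideal.span_singleton_eq_bot]; exact Nat.cast_ne_zero.2 (by omega)
  obtain ⟨c, hc⟩ := IsDedekindDomain.exists_sup_span_eq
    (Ideal.mul_le_left : 𝔞 * Ideal.span {(n : 𝓞 F)} ≤ 𝔞) (mul_ne_zero h h0)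
  obtain ⟨𝔠, h𝔠⟩ := Ideal.dvd_iff_le.2 (hc ▸ le_sup_right : Ideal.span {c} ≤ 𝔞)
  refine ⟨c, 𝔠, Ideal.isCoprime_iff_sup_eq.2 (mul_left_cancel₀ h ?_), h𝔠.symm⟩
  rw [Ideal.mul_sup, ← h𝔠, sup_comm, hc, Ideal.mul_top]

variable [IsGalois F K] {σ : K ≃ₐ[F] K}

theorem UJ (h : ∀ g, g ∈ Subgroup.zpowers σ) :
    fx (σA σ) ⊓ (J F K n).comap (dv K) = (U F n).map (ιF F K) := by
  ext x
  rw [fx_σA h, Subgroup.mem_inf, Subgroup.mem_comap]
  constructor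
  · rintro ⟨⟨γ, rfl⟩, hx⟩
    exact ⟨γ, (mem_U_iff γ).1 hx, rfl⟩
  · rintro ⟨γ, hγ, rfl⟩
    exact ⟨⟨γ, rfl⟩, (mem_U_iff γ).2 hγ⟩

theorem amb (hNG : S_NG) (h : ∀ g, g ∈ Subgroup.zpowers σ) (he : (Module.finrank F K).Prime)
    (hn : 2 ≤ n) (S : Finset (Ideal (𝓞 K))) (hS : ∀ 𝔓, 𝔓.IsMaximal → RamP F 𝔓 → 𝔓 ∈ S) :
    (J F K n ⊔ (fx (σA σ)).map (dv K)).relIndex (fx (σD σ)) ≤ Module.finrank F K ^ S.card := by
  refine (relIndex_le_card _ _ (fun a : S → Fin (Module.finrank F K) =>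
    mkU (∏ 𝔓 : S, 𝔓.1 ^ (a 𝔓).1)) fun x hx => ?_).trans (by simp)
  obtain ⟨a, I, ha, hI⟩ := exists_eq_spanSingleton_mul (x : FI K)
  obtain ⟨a', ha'⟩ := Ideal.mem_span_singleton'.1 (Ideal.absNorm_mem (Ideal.span {a}))
  set m := Ideal.absNorm (Ideal.span {a})
  have hm : m ≠ 0 := by simpa [m, Ideal.absNorm_eq_zero_iff] using ha
  have hm' : spanSingleton (𝓞 K)⁰ (m : K) ≠ 0 := spanSingleton_ne_zero_iff.2 (Nat.cast_ne_zero.2 hm)
  have h1 : (x : FI K) * spanSingleton _ (m : K) = ((Ideal.span {a'} * I : Ideal (𝓞 K)) : FI K) := by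
    have : (m : K) = algebraMap (𝓞 K) K a' * algebraMap (𝓞 K) K a := by
      rw [← map_mul, ha', map_natCast]
    rw [hI, coeIdeal_mul, coeIdeal_span_singleton, mul_right_comm, spanSingleton_mul_spanSingleton,
      this, mul_comm (algebraMap (𝓞 K) K a'),
      inv_mul_cancel_left₀ ((map_ne_zero_iff _ (IsFractionRing.injective (𝓞 K) K)).2 ha)]
  have h2 : σ • (Ideal.span {a'} * I) = Ideal.span {a'} * I := by
    refine coeIdeal_inj.1 ((sF_coe σ _).symm.trans ?_)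
    rw [← h1, map_mul, sF_span, map_natCast, ← coe_σD, mem_fx.1 hx]
  have h0 : Ideal.span {a'} * I ≠ ⊥ := coeIdeal_ne_zero.1 (h1 ▸ mul_ne_zero x.ne_zero hm')
  obtain ⟨𝔞, s, hs⟩ := (hNG F K).2.2.2 _ S he h0 (fun g =>
    (show Subgroup.zpowers σ ≤ MulAction.stabilizer _ _ from Subgroup.zpowers_le.2 h2) (h g)) hS
  rw [hs] at h0 h1
  have h𝔞 : 𝔞 ≠ ⊥ := fun e => left_ne_zero_of_mul h0 (by rw [e, Ideal.map_bot]; rfl)
  obtain ⟨c, 𝔠, h𝔠, hc⟩ := exists_cop hn h𝔞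
  have hc0 : (c : F) / m ≠ 0 := by
    refine div_ne_zero (fun e => mul_ne_zero h𝔞 (Cop_ne_bot hn h𝔠) ?_) (Nat.cast_ne_zero.2 hm)
    rw [hc, RingOfIntegers.coe_eq_zero_iff.1 e]
    exact Ideal.span_singleton_eq_bot.2 rfl
  refine ⟨s, ?_⟩
  rw [← div_mul_cancel (x / _) (dv K (ιF F K (Units.mk0 _ hc0)))]
  refine Subgroup.mul_mem_sup ⟨⊤, 𝔠, cop_top, h𝔠, ?_⟩ ⟨_, (fx_σA h).ge ⟨_, rfl⟩, rfl⟩
  have hP := right_ne_zero_of_mul h0
  have h3 : (dv K (ιF F K (Units.mk0 _ hc0)) : FI K) * spanSingleton _ (m : K) =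
      ex K 𝔞 * ex K 𝔠 := by
    rw [← ex_mul, hc, ex_span, coe_toPrincipalIdeal, spanSingleton_mul_spanSingleton, coe_ιF,
      Units.val_mk0, map_div₀, map_natCast, div_mul_cancel₀ _ (Nat.cast_ne_zero.2 hm)]
  rw [ex_top, Units.val_div_eq_div_val, Units.val_div_eq_div_val, coe_mkU hP, div_div,
    div_mul_eq_mul_div, div_eq_one_iff_eq (mul_ne_zero (coeIdeal_ne_zero.2 hP) (Units.ne_zero _))]
  refine mul_right_cancel₀ hm' ?_
  rw [mul_right_comm, h1, mul_assoc _ _ (spanSingleton _ _), h3, coeIdeal_mul, ← mul_assoc,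
    mul_comm _ (ex K 𝔞)]
  rfl

variable (K) in
/-- the class of an ideal prime to `n` -/
def cl (hn : 2 ≤ n) {𝔞 : Ideal (𝓞 F)} (h : Cop n 𝔞) : J F K n :=
  ⟨Units.mk0 (ex K 𝔞) (ex_ne (Cop_ne_bot hn h)), 𝔞, ⊤, h, cop_top, by simp [ex_top]⟩

/-- the character of ideals attached to a character of the group -/
def xi (hn : 2 ≤ n) (θ : J F K n →* ℂˣ) : Ideal (𝓞 F) →* ℂ where
  toFun 𝔞 := if h : Cop n 𝔞 then θ (cl K hn h) else 0
  map_one' := by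
    have : Cop n (1 : Ideal (𝓞 F)) := isCoprime_one_left
    rw [dif_pos this, show cl K hn this = 1 from Subtype.ext (Units.ext (by simp [cl, ex_top]))]
    simp
  map_mul' a b := by
    by_cases ha : Cop n a
    · by_cases hb : Cop n b
      · rw [dif_pos ha, dif_pos hb, dif_pos (cop_mul.2 ⟨ha, hb⟩), ← Units.val_mul, ← map_mul]
        congr 2
        exact Subtype.ext (Units.ext (ex_mul a b))
      · rw [dif_neg hb, dif_neg fun h => hb (cop_mul.1 h).2, mul_zero]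
    · rw [dif_neg ha, dif_neg fun h => ha (cop_mul.1 h).1, zero_mul]

theorem xi_cop (hn : 2 ≤ n) (θ : J F K n →* ℂˣ) {𝔞 : Ideal (𝓞 F)} (h : Cop n 𝔞) :
    xi hn θ 𝔞 = θ (cl K hn h) := dif_pos h

theorem xi_inj (hn : 2 ≤ n) : Function.Injective (xi (F := F) (K := K) hn) := fun θ θ' e => by
  have h1 : ∀ {𝔞} (h : Cop n 𝔞), θ (cl K hn h) = θ' (cl K hn h) := fun h =>
    Units.ext (by rw [← xi_cop, ← xi_cop, e])
  refine MonoidHom.ext fun x => ?_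
  obtain ⟨𝔞, 𝔟, ha, hb, h⟩ := x.2
  have : x = cl K hn ha / cl K hn hb := eq_div_iff_mul_eq'.2 (Subtype.ext (Units.ext h))
  rw [this, map_div, map_div, h1, h1]

theorem card_dual (G : Type) [CommGroup G] [Finite G] : Nat.card (G →* ℂˣ) = Nat.card G :=
  CommGroup.card_monoidHom_of_hasEnoughRootsOfUnity G ℂ

theorem sec (hSec : S_Sec) {k : Type} [Field k] [NumberField k] [Algebra k ℂ] (B : BF k)
    [Algebra k F] (hn : 2 ≤ n) (W : Subgroup (FI K)ˣ)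
    (h1 : ∀ (α : 𝓞 F) (x : (FI K)ˣ), (n : 𝓞 F) ∣ α - 1 → x = ex K (Ideal.span {α}) → x ∈ W)
    (h2 : ∀ (I : Ideal (𝓞 K)) (x : (FI K)ˣ), I ≠ ⊥ → x = ex K (Ideal.relNorm (𝓞 F) I) → x ∈ W) :
    W.relIndex (J F K n) ≤ Module.finrank F K := by
  by_cases h0 : W.relIndex (J F K n) = 0
  · omega
  have : Finite (J F K n ⧸ W.subgroupOf (J F K n)) := Nat.finite_of_card_ne_zero h0
  have hc := card_dual (J F K n ⧸ W.subgroupOf (J F K n))
  have : Finite (J F K n ⧸ W.subgroupOf (J F K n) →* ℂˣ) := Nat.finite_of_card_ne_zero (hc ▸ h0)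
  let _ := Fintype.ofFinite (J F K n ⧸ W.subgroupOf (J F K n) →* ℂˣ)
  have hi : Function.Injective fun θ : J F K n ⧸ W.subgroupOf (J F K n) →* ℂˣ =>
      xi hn (θ.comp (QuotientGroup.mk' _)) := fun θ θ' e =>
    QuotientGroup.monoidHom_ext _ (xi_inj hn e)
  have := hSec k B F K n (univ.map ⟨_, hi⟩) hn fun ξ hξ => ?_
  · rwa [card_map, card_univ, Fintype.card_eq_nat_card, hc] at this
  obtain ⟨θ, -, rfl⟩ := mem_map.1 hξ
  have h3 : ∀ {𝔞} (h : Cop n 𝔞), (cl K hn h).1 ∈ W → xi hn (θ.comp (QuotientGroup.mk' _)) 𝔞 = 1 :=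
    fun h hW => by
      rw [xi_cop hn _ h, MonoidHom.comp_apply, QuotientGroup.mk'_apply,
        (QuotientGroup.eq_one_iff _).2 (Subgroup.mem_subgroupOf.2 hW), map_one, Units.val_one]
  refine ⟨⟨⟨fun I h => ?_, fun I h => dif_neg h⟩, by simp, fun α h => ?_⟩, fun I h => ?_⟩
  · refine Complex.norm_eq_one_of_pow_eq_one (n := W.relIndex (J F K n)) ?_ h0
    rw [Function.Embedding.coeFn_mk, xi_cop hn _ h, MonoidHom.comp_apply, ← Units.val_pow_eq_pow_val,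
      ← map_pow, Subgroup.relIndex, Subgroup.index, pow_card_eq_one', map_one, Units.val_one]
  · rw [ty_zero]
    exact h3 (cop_span_of_dvd h) (h1 α _ h rfl)
  · have : PerfectField (FractionRing (𝓞 F)) := inferInstance
    have h4 : Cop n (Ideal.relNorm (𝓞 F) I) := by
      rwa [cop_iff_coprime, Ideal.absNorm_relNorm, ← cop_iff_coprime]
    exact h3 h4 (h2 I _ (Cop_ne_bot hn h) rfl)

end HNP

open HNP in
theorem d_hNP (hHA : S_HA) (hH1 : S_H1) (hNG : S_NG) (hU1 : S_U1) (hSec : S_Sec) : S_HNP := by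
  intro k _ _ _ B F K _ _ _ _ _ _ _ n α β A B' he _ hn hR hα hβ hA hB h
  have hc := IsGalois.card_aut_eq_finrank F K
  have : Fact (Module.finrank F K).Prime := ⟨he⟩
  obtain ⟨σ, hσ⟩ := (isCyclic_of_prime_card hc).exists_generator
  have ho : orderOf σ = Module.finrank F K := (orderOf_eq_card_of_forall_mem_zpowers hσ).trans hc
  have hp : σ ^ Module.finrank F K = 1 := ho ▸ pow_orderOf_eq_one σ
  have hσ1 : σ ≠ 1 := fun e => he.one_lt.ne' (by rw [← ho, e, orderOf_one])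
  have h0 : Ideal.span {(n : 𝓞 K)} ≠ ⊥ := by
    rw [Ne, Ideal.span_singleton_eq_bot]; exact Nat.cast_ne_zero.2 (by omega)
  let S := (UniqueFactorizationMonoid.normalizedFactors (Ideal.span {(n : 𝓞 K)})).toFinset.filter
    fun 𝔓 => 𝔓.IsMaximal ∧ RamP F 𝔓
  have hS : ∀ 𝔓, 𝔓.IsMaximal → RamP F 𝔓 → 𝔓 ∈ S := fun 𝔓 h1 h2 =>
    mem_filter.2 ⟨Multiset.mem_toFinset.2 ((Ideal.mem_normalizedFactors_iff h0).2
      ⟨h1.isPrime, (Ideal.span_singleton_le_iff_mem _).2 (hR 𝔓 h1 h2).1⟩), h1, h2⟩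
  obtain ⟨U₁, hle, hidx, hnm, hone⟩ := hU1 F K n S (U F n) he (by omega) (fun 𝔓 h𝔓 =>
    have := (mem_filter.1 h𝔓).2
    ⟨this.1, this.2, hR 𝔓 this.1 this.2⟩) fun _ => Iff.rfl
  obtain ⟨e0, e1, e2⟩ := hH1 k B F K σ he hσ1
  have hne : ∀ {a : 𝓞 F}, (n : 𝓞 F) ∣ a - 1 → (a : F) ≠ 0 := fun h e =>
    Cop_ne_bot hn (cop_span_of_dvd h)
      (Ideal.span_singleton_eq_bot.2 (RingOfIntegers.coe_eq_zero_iff.1 e))
  have hN : ∀ (I : Ideal (𝓞 K)) (x : (FI K)ˣ), I ≠ ⊥ → x = ex K (Ideal.relNorm (𝓞 F) I) →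
      nm (σD σ) (Module.finrank F K) (mkU I) = x := fun I x hI hx =>
    Units.ext ((coe_nmD hNG hσ (coe_mkU hI)).trans hx.symm)
  obtain ⟨δ, hδ⟩ := hHA (𝓞 K)ˣ Kˣ (FI K)ˣ _ (uσ σ) (σA σ) (σD σ) (ιE K) (dv K) (U₁.map (ιF F K))
    (J F K n) he.pos (uσ_iter hp) (σA_iter hp) (σD_iter hp) ιE_inj ιE_range (fun _ => rfl) (dv_σ σ)
    (h90 hσ) dv_index e0 e1 e2 (J_le hn σ) (by rw [UJ hσ]; exact Subgroup.map_mono hle)
    (by
      rw [UJ hσ, Subgroup.relIndex_map_map_of_injective _ _ ιF_inj]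
      exact (amb hNG hσ he hn S hS).trans hidx)
    (by
      rw [UJ hσ]
      rintro _ ⟨⟨γ, hγ, rfl⟩, δ, hδ⟩
      refine ⟨γ, hnm γ hγ ⟨δ, (algebraMap F K).injective ?_⟩, rfl⟩
      rw [← coe_nmA hσ, hδ, coe_ιF])
    (sec hSec B hn _ (fun a x ha hx => Subgroup.mem_sup_left
        ⟨_, ⟨Units.mk0 _ (hne ha), hone _ a 1 ha (by simp) (by simp), rfl⟩,
          Units.ext (by rw [hx, ex_span, coe_toPrincipalIdeal]; rfl)⟩)
      fun I x hI hx => Subgroup.mem_sup_right ⟨_, hN I x hI hx⟩)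
    (ιF F K (Units.mk0 _ (div_ne_zero (hne hβ) (hne hα))))
    ⟨_, hone _ β α hβ hα (by rw [Units.val_mk0, div_mul_cancel₀ _ (hne hα)]), rfl⟩
    ⟨mkU A / mkU B', by
      have h1 := congrArg (ex K) h
      rw [ex_mul, ex_mul, ex_span, ex_span] at h1
      have ha : spanSingleton (𝓞 K)⁰ (algebraMap F K α) ≠ 0 :=
        spanSingleton_ne_zero_iff.2 ((_root_.map_ne_zero _).2 (hne hα))
      rw [map_div, div_eq_iff_eq_mul']
      refine Units.ext (mul_right_cancel₀ ha ?_)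
      rw [Units.val_mul, coe_nmD hNG hσ (coe_mkU hA), coe_nmD hNG hσ (coe_mkU hB), mul_assoc,
        coe_toPrincipalIdeal, spanSingleton_mul_spanSingleton, coe_ιF, ← map_mul, Units.val_mk0,
        div_mul_cancel₀ _ (hne hα)]
      exact h1⟩
  refine ⟨δ, (algebraMap F K).injective ?_⟩
  rw [map_mul, ← coe_nmA hσ, hδ, coe_ιF, ← map_mul, Units.val_mk0, div_mul_cancel₀ _ (hne hα)]

end

end Pool.Agent.P.MP_b8021b_nt.VC
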