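import Pool.Agent.P.MP_b8021b_nt.VC.DefN

/-! Interface statements of part N, algebraic number theory, Rankin-Selberg sums and the base
field. Each is proved in its own file of this folder. -/

namespace Pool.Agent.P.MP_b8021b_nt.VC

open Polynomial NumberField Finset Pool.Agent.P.MP_b8021b_nt.VE
open scoped Classical ComplexConjugate

/-- some prime over `l` is unramified -/
def Unram (E : Type) [Field E] (l : ℕ) : Prop :=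
  ∃ 𝔩 : Ideal (𝓞 E), 𝔩.IsMaximal ∧ (l : 𝓞 E) ∈ 𝔩 ∧ (l : 𝓞 E) ∉ 𝔩 ^ 2

/-- the prime `𝔓` is ramified over `E` -/
def RamP (E : Type) [Field E] {E' : Type} [Field E'] [Algebra E E'] (𝔓 : Ideal (𝓞 E')) : Prop :=
  (𝔓.comap (algebraMap (𝓞 E) (𝓞 E'))).map (algebraMap (𝓞 E) (𝓞 E')) ≤ 𝔓 ^ 2

/-- the conjugate of an ideal -/
noncomputable def act {E : Type} [Field E] (σ : E →+* E) (I : Ideal (𝓞 E)) : Ideal (𝓞 E) :=
  I.map (RingOfIntegers.mapRingHom σ)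

/-- the ideals of prime norm `q` over `𝔭` -/
def Over {E : Type} [Field E] [NumberField E] (E' : Type) [Field E'] [NumberField E']
    [Algebra E E'] (q : ℕ) (𝔭 : Ideal (𝓞 E)) : Set (Ideal (𝓞 E')) :=
  {𝔓 | Ideal.absNorm 𝔓 = q ∧ Ideal.relNorm (𝓞 E) 𝔓 = 𝔭}

/-- primes of degree one and roots -/
def S_KD : Prop :=
  ∀ (E E' : Type) [Field E] [NumberField E] [Field E'] [NumberField E'] [Algebra E E'] (q : ℕ),
    q.Prime →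
    (∀ f : Ideal (𝓞 E) → ℂ, lam (fun I : Ideal (𝓞 E') => f (Ideal.relNorm (𝓞 E) I)) q =
      ∑ᶠ 𝔭 ∈ {𝔭 : Ideal (𝓞 E) | Ideal.absNorm 𝔭 = q}, ((Over E' q 𝔭).ncard : ℂ) * f 𝔭) ∧
    ∀ 𝔭 : Ideal (𝓞 E), Ideal.absNorm 𝔭 = q → (Over E' q 𝔭).Finite ∧
      (Over E' q 𝔭).ncard ≤ Module.finrank E E' ∧
      ∀ (P : ℤ[X]) (M : ℕ) (θ : E'), P.Monic → Sep P M → ¬ q ∣ M → aeval θ P = 0 →
        Algebra.adjoin E {θ} = ⊤ →
        (Irreducible (P.map (Int.castRingHom E)) → (Over E' q 𝔭).ncard = rts P q) ∧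
        (rts P q = P.natDegree → (Over E' q 𝔭).ncard = Module.finrank E E')

/-- unramified primes and the Eisenstein criterion -/
def S_Unr : Prop :=
  (∀ (k : Type) [Field k] [NumberField k] (K : IQ k) (l : ℕ), l.Prime → ¬ (l : ℤ) ∣ 2 * K.D →
    Unram k l) ∧
  (∀ (E : Type) [Field E] [NumberField E] (l : ℕ) (P : ℤ[X]), l.Prime → P.Monic →
    1 ≤ P.natDegree → Unram E l → EisZ l P → Irreducible (P.map (Int.castRingHom E))) ∧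
  ∀ (E E' : Type) [Field E] [NumberField E] [Field E'] [NumberField E'] [Algebra E E'] (P : ℤ[X])
    (M : ℕ) (θ : E'), P.Monic → Sep P M → aeval θ P = 0 → Algebra.adjoin E {θ} = ⊤ →
    (∀ 𝔓 : Ideal (𝓞 E'), 𝔓.IsMaximal → RamP E 𝔓 → (M : 𝓞 E') ∈ 𝔓) ∧
      ∀ l : ℕ, l.Prime → ¬ l ∣ M → Unram E l → Unram E' l

/-- tame total ramification in a cyclic extension of prime degree -/
def S_Tame : Prop :=
  ∀ (E E' : Type) [Field E] [NumberField E] [Field E'] [NumberField E'] [Algebra E E']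
    [IsGalois E E'] (𝔓 : Ideal (𝓞 E')), (Module.finrank E E').Prime → 𝔓.IsMaximal → RamP E 𝔓 →
    (𝔓.comap (algebraMap (𝓞 E) (𝓞 E'))).map (algebraMap (𝓞 E) (𝓞 E')) = 𝔓 ^ Module.finrank E E' ∧
    (∀ σ : E' ≃ₐ[E] E', act (σ : E' →+* E') 𝔓 = 𝔓) ∧
    Ideal.absNorm 𝔓 = Ideal.absNorm (𝔓.comap (algebraMap (𝓞 E) (𝓞 E'))) ∧
    (((Module.finrank E E' : ℕ) : 𝓞 E') ∉ 𝔓 → Module.finrank E E' ∣ Ideal.absNorm 𝔓 - 1)

/-- the field of a fibre -/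
def S_FbNF : Prop :=
  ∀ (R : Type) [CommRing R] [Algebra ℤ[X] R] (p : Par R) (k : Type) [Field k] [NumberField k]
    [Algebra k ℂ] (K : BF k) (t : ℤ × ℤ) (L : Type) [Field L] [NumberField L] [Algebra k L]
    (Φ : Fb p t k L), K.D = -p.r → p.Adm t →
    NF K p.e (p.toTab.Pt t) (p.Mt t) (Φ.η p.toTab.i1)

/-- a character that is trivial where one polynomial has a root -/
def S_TH : Prop :=
  ∀ (k : Type) [Field k] [NumberField k] [Algebra k ℂ] (_ : BF k) (E E₁ : Type) [Field E]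
    [NumberField E] [Algebra k E] [Field E₁] [NumberField E₁] [Algebra E E₁] (P : ℤ[X])
    (M n m : ℕ) (θ : E₁) (κ : Emb k E → ℤ) (τ : Emb k E → ℝ) (ω : Ideal (𝓞 E) →* ℂ), P.Monic →
    P.natDegree.Prime → M ≠ 0 → Sep P M → Irreducible (P.map (Int.castRingHom E)) →
    aeval θ P = 0 → Module.finrank E E₁ = P.natDegree →
    ¬ (P.map (Int.castRingHom E₁)).Splits → 2 ≤ n → m ≠ 0 → IsH k n κ τ ω →
    (∀ 𝔭 : Ideal (𝓞 E), (Ideal.absNorm 𝔭).Prime → ¬ Ideal.absNorm 𝔭 ∣ m →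
      0 < rts P (Ideal.absNorm 𝔭) → ω 𝔭 = 1) → IsTriv n ω

/-- a character that is trivial where one of two independent polynomials has a root -/
def S_TH2 : Prop :=
  ∀ (k : Type) [Field k] [NumberField k] [Algebra k ℂ] (_ : BF k) (E : Type) [Field E]
    [NumberField E] [Algebra k E] (P₁ P₂ : ℤ[X]) (M n m : ℕ) (κ : Emb k E → ℤ) (τ : Emb k E → ℝ)
    (ω : Ideal (𝓞 E) →* ℂ), P₁.Monic → P₂.Monic → P₁.natDegree.Prime →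
    P₂.natDegree = P₁.natDegree → M ≠ 0 → Sep P₁ M → Sep P₂ M →
    Irreducible (P₁.map (Int.castRingHom E)) →
    (∀ (E₁ : Type) [Field E₁] [NumberField E₁] [Algebra E E₁] (θ : E₁), aeval θ P₁ = 0 →
      Algebra.adjoin E {θ} = ⊤ → Irreducible (P₂.map (Int.castRingHom E₁))) →
    2 ≤ n → m ≠ 0 → IsH k n κ τ ω →
    (∀ 𝔭 : Ideal (𝓞 E), (Ideal.absNorm 𝔭).Prime → ¬ Ideal.absNorm 𝔭 ∣ m →
      0 < rts P₁ (Ideal.absNorm 𝔭) ∨ 0 < rts P₂ (Ideal.absNorm 𝔭) → ω 𝔭 = 1) → IsTriv n ω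

/-- the second inequality of class field theory -/
def S_Sec : Prop :=
  ∀ (k : Type) [Field k] [NumberField k] [Algebra k ℂ] (_ : BF k) (E E' : Type) [Field E]
    [NumberField E] [Algebra k E] [Field E'] [NumberField E'] [Algebra E E'] (n : ℕ)
    (𝒴 : Finset (Ideal (𝓞 E) →* ℂ)), 2 ≤ n →
    (∀ ξ ∈ 𝒴, IsH k n 0 0 ξ ∧ IsTriv n (nrm E' ξ)) → 𝒴.card ≤ Module.finrank E E'

/-- the Hasse norm theorem for a tamely ramified cyclic extension of odd prime degree -/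
def S_HNP : Prop :=
  ∀ (k : Type) [Field k] [NumberField k] [Algebra k ℂ] (_ : BF k) (E E' : Type) [Field E]
    [NumberField E] [Algebra k E] [Field E'] [NumberField E'] [Algebra E E'] [IsGalois E E']
    (n : ℕ) (α β : 𝓞 E) (A B : Ideal (𝓞 E')), (Module.finrank E E').Prime →
    3 ≤ Module.finrank E E' → 2 ≤ n →
    (∀ 𝔓 : Ideal (𝓞 E'), 𝔓.IsMaximal → RamP E 𝔓 →
      (n : 𝓞 E') ∈ 𝔓 ∧ ((Module.finrank E E' : ℕ) : 𝓞 E') ∉ 𝔓) →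
    (n : 𝓞 E) ∣ α - 1 → (n : 𝓞 E) ∣ β - 1 → A ≠ ⊥ → B ≠ ⊥ →
    Ideal.relNorm (𝓞 E) A * Ideal.span {α} = Ideal.relNorm (𝓞 E) B * Ideal.span {β} →
    ∃ δ : E', Algebra.norm E δ * α = β

/-- an invariant character is trivial on the kernel of the norm -/
def S_Ker : Prop :=
  ∀ (k : Type) [Field k] [NumberField k] [Algebra k ℂ] (_ : BF k) (E E' : Type) [Field E]
    [NumberField E] [Algebra k E] [Field E'] [NumberField E'] [Algebra E E'] [Algebra k E']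
    [IsScalarTower k E E'] [IsGalois E E'] (P : ℤ[X]) (M n : ℕ) (θ : E') (j : ℤ)
    (ψ : Ideal (𝓞 E') →* ℂ) (α β : 𝓞 E) (A B : Ideal (𝓞 E')), (Module.finrank E E').Prime →
    3 ≤ Module.finrank E E' → P.Monic → P.natDegree = Module.finrank E E' → aeval θ P = 0 →
    Algebra.adjoin E {θ} = ⊤ → Sep P M → M ∣ n → 2 ≤ n →
    (∀ 𝔓 : Ideal (𝓞 E'), 𝔓.IsMaximal → RamP E 𝔓 → ((Module.finrank E E' : ℕ) : 𝓞 E') ∉ 𝔓) →
    IsH k n (fun _ => j) 0 ψ → (∀ (σ : E' ≃ₐ[E] E') (I : Ideal (𝓞 E')), ψ (act (σ : E' →+* E') I) = ψ I) →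
    Cop n A → Cop n B → (n : 𝓞 E) ^ 2 ∣ α - 1 → (n : 𝓞 E) ^ 2 ∣ β - 1 →
    Ideal.relNorm (𝓞 E) A * Ideal.span {α} = Ideal.relNorm (𝓞 E) B * Ideal.span {β} →
    ψ A * ty (fun _ => j) 0 (emb k α) = ψ B * ty (fun _ => j) 0 (emb k β)

/-- base change of the relative norm; characters in towers -/
def S_BCN : Prop :=
  (∀ (E₀ E₁ E₂ M : Type) [Field E₀] [NumberField E₀] [Field E₁] [NumberField E₁] [Field E₂]
    [NumberField E₂] [Field M] [NumberField M] [Algebra E₀ E₁] [Algebra E₀ E₂] [Algebra E₁ M]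
    [Algebra E₂ M] [Algebra E₀ M] [IsScalarTower E₀ E₁ M] [IsScalarTower E₀ E₂ M],
    Module.finrank E₂ M = Module.finrank E₀ E₁ →
    Algebra.adjoin E₂ (Set.range (algebraMap E₁ M)) = ⊤ →
    (∀ a : E₁, Algebra.norm E₂ (algebraMap E₁ M a) = algebraMap E₀ E₂ (Algebra.norm E₀ a)) ∧
    ∀ A : Ideal (𝓞 E₁), Ideal.relNorm (𝓞 E₂) (A.map (algebraMap (𝓞 E₁) (𝓞 M))) =
      (Ideal.relNorm (𝓞 E₀) A).map (algebraMap (𝓞 E₀) (𝓞 E₂))) ∧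
  ∀ (k : Type) [Field k] [NumberField k] [Algebra k ℂ] (_ : BF k) (E : Type) [Field E]
    [NumberField E] [Algebra k E] (n : ℕ) (κ : Emb k E → ℤ) (τ : Emb k E → ℝ)
    (χ : Ideal (𝓞 E) →* ℂ), 2 ≤ n → IsH k n κ τ χ →
    (∀ I : Ideal (𝓞 E), Cop n I ↔ (Ideal.absNorm I).Coprime n) ∧
    IsH k n (-κ) (-τ) (cj χ) ∧ IsK n (∑ φ, κ φ) (res k χ) ∧
    (∀ (n' : ℕ) (κ' : Emb k E → ℤ) (τ' : Emb k E → ℝ) (χ' : Ideal (𝓞 E) →* ℂ), 1 ≤ n' →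
      IsH k n' κ' τ' χ' → IsH k (n * n') (κ + κ') (τ + τ') (χ * χ') ∧
        (n = n' → IsH k n (κ + κ') (τ + τ') (χ * χ'))) ∧
    (∀ n' : ℕ, n' ≠ 0 → n ∣ n' → IsH k n' κ τ (χ * triv E n')) ∧
    (∀ σ : E ≃ₐ[k] E, ∃ χ' : Ideal (𝓞 E) →* ℂ, (∀ I, χ' I = χ (act (σ : E →+* E) I)) ∧
      IsH k n (fun φ => κ (φ.comp (σ.symm : E →ₐ[k] E))) (fun φ => τ (φ.comp (σ.symm : E →ₐ[k] E))) χ') ∧
    ∀ (E' : Type) [Field E'] [NumberField E'] [Algebra E E'] [Algebra k E'] [IsScalarTower k E E'],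
      IsH k n (fun φ : Emb k E' => κ (φ.comp (IsScalarTower.toAlgHom k E E')))
        (fun φ : Emb k E' => τ (φ.comp (IsScalarTower.toAlgHom k E E'))) (nrm E' χ)

/-- the splitting field -/
def S_Spl : Prop :=
  ∀ (k : Type) [Field k] [NumberField k] [Algebra k ℂ] (K : BF k) (L : Type) [Field L]
    [NumberField L] [Algebra k L] (e : ℕ) (P : ℤ[X]) (M : ℕ) (θ : 𝓞 L), NF K e P M θ →
    ∃ (N : Type) (_ : Field N) (_ : NumberField N) (_ : Algebra k N) (_ : Algebra L N)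
      (_ : IsScalarTower k L N), IsGalois k N ∧
      IsSplittingField k N (P.map (Int.castRingHom k)) ∧
      ∀ l : ℕ, l.Prime → ¬ l ∣ M → Unram N l

/-- descent of an invariant character -/
def S_Desc : Prop :=
  ∀ (k : Type) [Field k] [NumberField k] [Algebra k ℂ] (K : BF k) (L N : Type) [Field L]
    [NumberField L] [Algebra k L] [Field N] [NumberField N] [Algebra k N] [Algebra L N]
    [IsScalarTower k L N] (e : ℕ) (P : ℤ[X]) (M n : ℕ) (θ : 𝓞 L) (κ : Emb k L → ℤ)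
    (τ : Emb k L → ℝ) (χ : Ideal (𝓞 L) →* ℂ), NF K e P M θ →
    IsSplittingField k N (P.map (Int.castRingHom k)) → M ∣ n → n ≠ 0 → IsH k n κ τ χ →
    (∀ (σ : N ≃ₐ[k] N) (I : Ideal (𝓞 N)), nrm N χ (act (σ : N →+* N) I) = nrm N χ I) →
    (∀ I, χ I ^ e = nrm L (res k χ) I) → ∃ (j : ℤ) (ξ : Ideal (𝓞 k) →* ℂ), IsK (n ^ 2) j ξ ∧ Ind ξ χ n

/-- a character adjacent to two independent fields is induced -/
def S_Cls1 : Prop :=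
  ∀ (k : Type) [Field k] [NumberField k] [Algebra k ℂ] (K : BF k) (L L₁ L₂ : Type) [Field L]
    [NumberField L] [Algebra k L] [Field L₁] [NumberField L₁] [Algebra k L₁] [Field L₂]
    [NumberField L₂] [Algebra k L₂] (e : ℕ) (P P₁ P₂ : ℤ[X]) (M M₁ M₂ n m₁ m₂ : ℕ) (θ : 𝓞 L)
    (θ₁ : 𝓞 L₁) (θ₂ : 𝓞 L₂) (κ : Emb k L → ℤ) (τ : Emb k L → ℝ) (χ : Ideal (𝓞 L) →* ℂ)
    (χ₁ : Ideal (𝓞 L₁) →* ℂ) (χ₂ : Ideal (𝓞 L₂) →* ℂ), NF K e P M θ → NF K e P₁ M₁ θ₁ →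
    NF K e P₂ M₂ θ₂ → M ∣ n → n ≠ 0 → m₁ ≠ 0 → m₂ ≠ 0 → IsH k n κ τ χ → Adj k χ χ₁ m₁ →
    Adj k χ χ₂ m₂ → Wit P₁ M → Wit P₂ (M * M₁) →
    ∃ (j : ℤ) (ξ : Ideal (𝓞 k) →* ℂ), IsK (n ^ 2) j ξ ∧ Ind ξ χ n

/-- a character adjacent to an induced character is induced -/
def S_Cls2 : Prop :=
  ∀ (k : Type) [Field k] [NumberField k] [Algebra k ℂ] (K : BF k) (L L' : Type) [Field L]
    [NumberField L] [Algebra k L] [Field L'] [NumberField L'] [Algebra k L'] (e : ℕ) (P P' : ℤ[X])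
    (M M' n n' m : ℕ) (θ : 𝓞 L) (θ' : 𝓞 L') (j : ℤ) (ξ : Ideal (𝓞 k) →* ℂ) (κ' : Emb k L' → ℤ)
    (τ' : Emb k L' → ℝ) (χ : Ideal (𝓞 L) →* ℂ) (χ' : Ideal (𝓞 L') →* ℂ), NF K e P M θ →
    NF K e P' M' θ' → M ∣ n → n ≠ 0 → M' ∣ n' → n' ≠ 0 → m ≠ 0 → IsK (n ^ 2) j ξ → Ind ξ χ n →
    IsH k n' κ' τ' χ' → Adj k χ χ' m → Wit P' M →
    ∃ (j' : ℤ) (ξ' : Ideal (𝓞 k) →* ℂ), IsK (n' ^ 2) j' ξ' ∧ Ind ξ' χ' n' ∧
      ∀ I, Cop (n * n') I → ξ' I = ξ I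

/-- the compositum of two fields and the product character -/
def S_TP : Prop :=
  ∀ (k : Type) [Field k] [NumberField k] [Algebra k ℂ] (K : BF k) (L L' : Type) [Field L]
    [NumberField L] [Algebra k L] [Field L'] [NumberField L'] [Algebra k L'] (e : ℕ) (P P' : ℤ[X])
    (M M' n n' : ℕ) (θ : 𝓞 L) (θ' : 𝓞 L') (Q Kb : ℝ) (κ : Emb k L → ℤ) (τ : Emb k L → ℝ)
    (κ' : Emb k L' → ℤ) (τ' : Emb k L' → ℝ) (χ : Ideal (𝓞 L) →* ℂ) (χ' : Ideal (𝓞 L') →* ℂ),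
    NF K e P M θ → NF K e P' M' θ' → M ∣ n → n ≠ 0 → M' ∣ n' → n' ≠ 0 → Wit P' M → 1 ≤ Q →
    ‖emb k θ‖ ≤ Q → ‖emb k θ'‖ ≤ Q → (∀ φ, |(κ φ : ℝ)| ≤ Kb) → (∀ φ, |τ φ| ≤ Kb) →
    (∀ φ, |(κ' φ : ℝ)| ≤ Kb) → (∀ φ, |τ' φ| ≤ Kb) → IsH k n κ τ χ → IsH k n' κ' τ' χ' →
    ∃ (N : Type) (_ : Field N) (_ : NumberField N) (_ : Algebra k N) (κ'' : Emb k N → ℤ)
      (τ'' : Emb k N → ℝ) (ψ : Ideal (𝓞 N) →* ℂ), Module.finrank k N = e ^ 2 ∧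
      Small k N (Q ^ (2 * e)) ∧ (∀ φ, |(κ'' φ : ℝ)| ≤ 2 * Kb) ∧ (∀ φ, |τ'' φ| ≤ 2 * Kb) ∧
      IsH k (n * n') κ'' τ'' ψ ∧
      (∀ j : ℕ, Squarefree j → lam ψ j = lam (fun 𝔪 => lamk k χ 𝔪 * conj (lamk k χ' 𝔪)) j) ∧
      (IsTriv (n * n') ψ → Adj k χ χ' (n * n'))

/-- the Rankin-Selberg bound -/
def S_RS2 : Prop :=
  ∀ (k : Type) [Field k] [NumberField k] [Algebra k ℂ] (K : BF k) (e : ℕ), ∃ (C : ℕ) (η₀ : ℝ),
    0 < η₀ ∧ ∀ (L L' : Type) [Field L] [NumberField L] [Algebra k L] [Field L'] [NumberField L']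
    [Algebra k L'] (P P' : ℤ[X]) (M M' n n' : ℕ) (θ : 𝓞 L) (θ' : 𝓞 L') (Q Y : ℝ) (κ : Emb k L → ℤ)
    (τ : Emb k L → ℝ) (κ' : Emb k L' → ℤ) (τ' : Emb k L' → ℝ) (χ : Ideal (𝓞 L) →* ℂ)
    (χ' : Ideal (𝓞 L') →* ℂ), NF K e P M θ → NF K e P' M' θ' → M ∣ n → n ≠ 0 → M' ∣ n' → n' ≠ 0 →
    Wit P' M → (n : ℝ) ≤ Q → (n' : ℝ) ≤ Q → ‖emb k θ‖ ≤ Q → ‖emb k θ'‖ ≤ Q →
    (∀ φ, |(κ φ : ℝ)| ≤ Q) → (∀ φ, |τ φ| ≤ Q) → (∀ φ, |(κ' φ : ℝ)| ≤ Q) → (∀ φ, |τ' φ| ≤ Q) →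
    1 ≤ Y → IsH k n κ τ χ → IsH k n' κ' τ' χ' → Adj k χ χ' (n * n') ∨
      ‖∑ j ∈ range ⌈3 * Y⌉₊ with Squarefree j, (tent (j / Y - 3 / 2) : ℂ) *
        lam (fun 𝔪 => lamk k χ 𝔪 * conj (lamk k χ' 𝔪)) j‖ ≤ Q ^ C * Y ^ (1 - η₀)

/-- two characters of the base field that agree come from the greatest common divisor -/
def S_Gcd : Prop :=
  ∀ (k : Type) [Field k] [NumberField k] [Algebra k ℂ] (_ : BF k) (m d : ℕ) (j j' : ℤ)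
    (ξ ξ' : Ideal (𝓞 k) →* ℂ), m ≠ 0 → d ≠ 0 → 2 ≤ m.gcd d → IsK m j ξ → IsK d j' ξ' →
    (∀ I, Cop (m * d) I → ξ I = ξ' I) → j = j' ∧ ∃ ξ₀, IsK (m.gcd d) j ξ₀ ∧
      (∀ I, Cop m I → ξ I = ξ₀ I) ∧ ∀ I, Cop d I → ξ' I = ξ₀ I

/-- Siegel-Walfisz for the ray class characters of the base field -/
def S_SWk : Prop :=
  ∀ (k : Type) [Field k] [NumberField k] [Algebra k ℂ] (_ : BF k) (A B : ℕ), ∃ C : ℝ, 0 < C ∧
    ∀ (X n : ℕ) (j : ℤ) (ξ : Ideal (𝓞 k) →* ℂ), 2 ≤ X → 2 ≤ n → (n : ℝ) ≤ Real.log X ^ B →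
      (|j| : ℝ) ≤ Real.log X ^ B → IsK n j ξ → ¬ IsTriv n ξ →
      ‖∑ q ∈ Finset.Icc 1 X with q.Prime, (Real.log q : ℂ) * lam ξ q‖ ≤ C * X / Real.log X ^ A

end Pool.Agent.P.MP_b8021b_nt.VC
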