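import Pool.Agent.P.MP_b8021b_nt.VC.StG
import Pool.Agent.P.MP_b8021b_nt.VC.StH
import Pool.Agent.P.MP_b8021b_nt.VE.StN

/-! Upper Dirichlet densities of bounded sequences indexed by primes. -/

namespace Pool.Agent.P.MP_b8021b_nt.VC

open Polynomial NumberField Finset Pool.Agent.P.MP_b8021b_nt.VE
open scoped Classical

namespace DS

/-- the Dirichlet series over primes of a real sequence -/
noncomputable def ds (a : ℕ → ℝ) (s : ℝ) : ℝ := ∑' q : Nat.Primes, a q * (q : ℝ) ^ (-s)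

/-- `a` is bounded on the primes and has upper Dirichlet density at most `δ` -/
def Up (a : ℕ → ℝ) (δ : ℝ) : Prop :=
  (∃ B : ℝ, ∀ q : ℕ, q.Prime → |a q| ≤ B) ∧
    ∃ C : ℝ, ∀ s : ℝ, 1 < s → s ≤ 2 → ds a s ≤ δ * Real.log (1 / (s - 1)) + C

theorem summable_ds {a : ℕ → ℝ} {B : ℝ} (h : ∀ q : ℕ, q.Prime → |a q| ≤ B) {s : ℝ} (hs : 1 < s) :
    Summable fun q : Nat.Primes => a q * (q : ℝ) ^ (-s) := by
  have h1 : Summable fun q : Nat.Primes => ((q : ℕ) : ℝ) ^ (-s) :=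
    (Real.summable_nat_rpow.2 (by linarith)).subtype _
  refine Summable.of_norm_bounded (h1.mul_left B) fun q => ?_
  rw [norm_mul, Real.norm_eq_abs, Real.norm_of_nonneg (by positivity)]
  exact mul_le_mul_of_nonneg_right (h q q.2) (by positivity)

theorem Up.add {a b : ℕ → ℝ} {δ ε : ℝ} (ha : Up a δ) (hb : Up b ε) :
    Up (fun q => a q + b q) (δ + ε) := by
  obtain ⟨⟨A, hA⟩, C, hC⟩ := ha
  obtain ⟨⟨B, hB⟩, D, hD⟩ := hb
  refine ⟨⟨A + B, fun q hq => (abs_add_le _ _).trans (add_le_add (hA q hq) (hB q hq))⟩,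
    C + D, fun s h1 h2 => ?_⟩
  have : ds (fun q => a q + b q) s = ds a s + ds b s := by
    unfold ds
    rw [← (summable_ds hA h1).tsum_add (summable_ds hB h1)]
    simp only [add_mul]
  rw [this]
  linarith [hC s h1 h2, hD s h1 h2]

theorem Up.mul {a : ℕ → ℝ} {δ : ℝ} (ha : Up a δ) {c : ℝ} (hc : 0 ≤ c) :
    Up (fun q => c * a q) (c * δ) := by
  obtain ⟨⟨A, hA⟩, C, hC⟩ := ha
  refine ⟨⟨c * A, fun q hq => ?_⟩, c * C, fun s h1 h2 => ?_⟩
  · rw [abs_mul, abs_of_nonneg hc]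
    exact mul_le_mul_of_nonneg_left (hA q hq) hc
  · have : ds (fun q => c * a q) s = c * ds a s := by
      unfold ds
      rw [← tsum_mul_left]
      simp only [mul_assoc]
    rw [this]
    nlinarith [mul_le_mul_of_nonneg_left (hC s h1 h2) hc]

theorem up_zero : Up (fun _ => 0) 0 :=
  ⟨⟨0, fun _ _ => by simp⟩, 0, fun s _ _ => by simp [ds]⟩

theorem up_sum {ι : Type} (S : Finset ι) {a : ι → ℕ → ℝ} {δ : ι → ℝ} (h : ∀ i ∈ S, Up (a i) (δ i)) :
    Up (fun q => ∑ i ∈ S, a i q) (∑ i ∈ S, δ i) := by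
  induction S using Finset.induction_on with
  | empty => simpa using up_zero
  | insert i S hi ih =>
    simp only [Finset.sum_insert hi]
    exact (h i (mem_insert_self _ _)).add (ih fun j hj => h j (mem_insert_of_mem hj))

/-- a sequence that is nonnegative at almost all primes has nonnegative upper density -/
theorem Up.nonneg {a : ℕ → ℝ} {δ : ℝ} (ha : Up a δ) {m : ℕ} (hm : m ≠ 0)
    (h : ∀ q : ℕ, q.Prime → ¬ q ∣ m → 0 ≤ a q) : 0 ≤ δ := by
  obtain ⟨⟨A, hA⟩, C, hC⟩ := ha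
  have hA0 : 0 ≤ A := (abs_nonneg _).trans (hA 2 Nat.prime_two)
  let T : Finset Nat.Primes := (Finset.range (m + 1)).subtype Nat.Prime
  have low : ∀ s : ℝ, 1 < s → -(A * T.card) ≤ ds a s := by
    intro s hs
    have hsum := summable_ds hA hs
    unfold ds
    rw [← hsum.sum_add_tsum_compl (s := T)]
    have h1 : -(A * T.card) ≤ ∑ q ∈ T, a q * (q : ℝ) ^ (-s) := by
      have : ∑ _q ∈ T, -A ≤ ∑ q ∈ T, a q * (q : ℝ) ^ (-s) := by
        refine Finset.sum_le_sum fun q _ => ?_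
        have h0 : (0 : ℝ) ≤ ((q : ℕ) : ℝ) ^ (-s) := by positivity
        have h1 : ((q : ℕ) : ℝ) ^ (-s) ≤ 1 :=
          Real.rpow_le_one_of_one_le_of_nonpos (by exact_mod_cast q.2.one_lt.le) (by linarith)
        have h2 := (abs_le.1 (hA q q.2)).1
        nlinarith
      simpa [mul_comm] using this
    have h2 : 0 ≤ ∑' q : ((T : Set Nat.Primes)ᶜ : Set Nat.Primes),
        a (q : Nat.Primes) * ((q : Nat.Primes) : ℝ) ^ (-s) := by
      refine tsum_nonneg fun q => mul_nonneg (h _ q.1.2 fun hd => q.2 ?_) (by positivity)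
      have := Nat.le_of_dvd (Nat.pos_of_ne_zero hm) hd
      exact Finset.mem_coe.2 (Finset.mem_subtype.2 (Finset.mem_range.2 (Nat.lt_succ_of_le this)))
    linarith
  by_contra hδ
  push Not at hδ
  set K := (|C| + A * T.card + 1) / (-δ) with hK
  have hK0 : 0 ≤ K := div_nonneg (by positivity) (by linarith)
  have hs1 : 1 < 1 + Real.exp (-K) := by linarith [Real.exp_pos (-K)]
  have hs2 : 1 + Real.exp (-K) ≤ 2 := by
    have : Real.exp (-K) ≤ 1 := Real.exp_le_one_iff.2 (by linarith)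
    linarith
  have h1 := hC _ hs1 hs2
  have h2 := low _ hs1
  rw [add_sub_cancel_left, one_div, ← Real.exp_neg, neg_neg, Real.log_exp] at h1
  have h3 : δ * K = -(|C| + A * T.card + 1) := by
    rw [hK]; field_simp [hδ.ne]
  linarith [le_abs_self C]

variable {E : Type} [Field E] [NumberField E]

/-- the ideals of norm `q` -/
noncomputable def idl (E : Type) [Field E] [NumberField E] (q : ℕ) : Finset (Ideal (𝓞 E)) :=
  (Ideal.finite_setOfPred_absNorm_eq (S := 𝓞 E) q).toFinset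

theorem mem_idl {q : ℕ} {I : Ideal (𝓞 E)} : I ∈ idl E q ↔ Ideal.absNorm I = q := by
  simp [idl]

theorem finsum_idl {M : Type} [AddCommMonoid M] (f : Ideal (𝓞 E) → M) (q : ℕ) :
    ∑ᶠ I ∈ {I : Ideal (𝓞 E) | Ideal.absNorm I = q}, f I = ∑ I ∈ idl E q, f I :=
  finsum_mem_eq_finite_toFinset_sum _ _

theorem lam_eq (χ : Ideal (𝓞 E) → ℂ) (q : ℕ) : lam χ q = ∑ I ∈ idl E q, χ I := finsum_idl χ q

omit [NumberField E] in
theorem norm_le_one {n : ℕ} {χ : Ideal (𝓞 E) →* ℂ} (h : IsChar n χ) (I : Ideal (𝓞 E)) :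
    ‖χ I‖ ≤ 1 := by
  by_cases hI : Cop n I
  · exact (h.norm_cop I hI).le
  · simp [h.zero I hI]

omit [NumberField E] in
theorem triv_apply (n : ℕ) (I : Ideal (𝓞 E)) : triv E n I = if Cop n I then 1 else 0 := rfl

omit [NumberField E] in
theorem triv_isChar (n : ℕ) : IsChar n (triv E n) :=
  ⟨fun I hI => by simp [triv_apply, hI], fun I hI => by simp [triv_apply, hI]⟩

theorem re_bdd (hL : VE.S_Lam) {n : ℕ} {χ : Ideal (𝓞 E) →* ℂ} (h : IsChar n χ) :
    ∃ B : ℝ, ∀ q : ℕ, q.Prime → |(lam χ q).re| ≤ B :=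
  ⟨2 ^ Module.finrank ℚ E, fun q hq => by
    have := (hL E).2.1 χ q hq.one_lt.le (norm_le_one h)
    rw [hq.divisors, Finset.card_pair hq.one_lt.ne] at this
    exact (Complex.abs_re_le_norm _).trans (by exact_mod_cast this)⟩

section

variable {k : Type} [Field k] [NumberField k] [Algebra k ℂ] [Algebra k E]

theorem up_triv (hD : S_Den) (hL : VE.S_Lam) (K : BF k) {n : ℕ} (hn : 2 ≤ n) :
    Up (fun q => (lam (triv E n) q).re) 1 := by
  obtain ⟨C, hC⟩ := (hD k K E n hn).1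
  refine ⟨re_bdd hL (triv_isChar n), C, fun s h1 h2 => ?_⟩
  have := (abs_le.1 (hC s h1 h2)).2
  show dsum (lam (triv E n)) s ≤ _
  linarith

theorem up_neg_triv (hD : S_Den) (hL : VE.S_Lam) (K : BF k) {n : ℕ} (hn : 2 ≤ n) :
    Up (fun q => -(lam (triv E n) q).re) (-1) := by
  obtain ⟨C, hC⟩ := (hD k K E n hn).1
  obtain ⟨B, hB⟩ := re_bdd hL (triv_isChar (E := E) n)
  refine ⟨⟨B, fun q hq => by rw [abs_neg]; exact hB q hq⟩, C, fun s h1 h2 => ?_⟩
  have := (abs_le.1 (hC s h1 h2)).1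
  have e : ds (fun q => -(lam (triv E n) q).re) s = -dsum (lam (triv E n)) s := by
    unfold ds dsum
    rw [← tsum_neg]
    simp only [neg_mul]
  rw [e]
  linarith

theorem up_char (hD : S_Den) (hL : VE.S_Lam) (K : BF k) {n : ℕ} (hn : 2 ≤ n) {κ : Emb k E → ℤ}
    {τ : Emb k E → ℝ} {χ : Ideal (𝓞 E) →* ℂ} (h : IsH k n κ τ χ) (h' : ¬ IsTriv n χ) :
    Up (fun q => (lam χ q).re) 0 := by
  obtain ⟨C, hC⟩ := (hD k K E n hn).2 κ τ χ h h'
  refine ⟨re_bdd hL h.toIsChar, C, fun s h1 h2 => ?_⟩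
  have := hC s h1 h2
  show dsum (lam χ) s ≤ _
  linarith

end

end DS

end Pool.Agent.P.MP_b8021b_nt.VC
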