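import Pool.Agent.P.MP_b8021b_nt.VC.PDescS

/-! Ideals in a Galois extension: the norm, invariant functions, invariant ideals. -/

namespace Pool.Agent.P.MP_b8021b_nt.VC

open NumberField Finset Pool.Agent.P.MP_b8021b_nt.VE
open scoped Classical Pointwise nonZeroDivisors

namespace NG

variable {F K : Type} [Field F] [NumberField F] [Field K] [NumberField K] [Algebra F K]

omit [NumberField F] [NumberField K] in
lemma act_eq (g : K ≃ₐ[F] K) (I : Ideal (𝓞 K)) : act (g : K →+* K) I = g • I := by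
  rw [Ideal.pointwise_smul_def, act]
  rfl

omit [NumberField F] [NumberField K] in
lemma smul_map (g : K ≃ₐ[F] K) (𝔞 : Ideal (𝓞 F)) :
    g • 𝔞.map (algebraMap (𝓞 F) (𝓞 K)) = 𝔞.map (algebraMap (𝓞 F) (𝓞 K)) := by
  rw [Ideal.pointwise_smul_def, Ideal.map_map]
  congr 1
  refine RingHom.ext fun a => ?_
  exact RingOfIntegers.ext (g.commutes (a : F))

lemma norm_span [IsGalois F K] (x : 𝓞 K) :
    (Ideal.relNorm (𝓞 F) (Ideal.span {x})).map (algebraMap (𝓞 F) (𝓞 K)) =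
      ∏ g : K ≃ₐ[F] K, g • Ideal.span {x} := by
  have h1 : algebraMap (𝓞 F) (𝓞 K) (Algebra.intNorm (𝓞 F) (𝓞 K) x) =
      ∏ g : K ≃ₐ[F] K, g • x := by
    apply IsFractionRing.injective (𝓞 K) K
    rw [← IsScalarTower.algebraMap_apply, IsScalarTower.algebraMap_apply (𝓞 F) F K,
      Algebra.algebraMap_intNorm (K := F) (L := K), Algebra.norm_eq_prod_automorphisms, map_prod]
    rfl
  rw [Ideal.relNorm_singleton, Ideal.map_span, Set.image_singleton, h1,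
    ← Ideal.prod_span_singleton]
  refine Finset.prod_congr rfl fun g _ => ?_
  rw [Ideal.smul_closure, Set.smul_set_singleton]

lemma norm_eq [IsGalois F K] (I : Ideal (𝓞 K)) :
    (Ideal.relNorm (𝓞 F) I).map (algebraMap (𝓞 F) (𝓞 K)) = ∏ g : K ≃ₐ[F] K, g • I := by
  by_cases hI : I = ⊥
  · have := norm_span (F := F) (0 : 𝓞 K)
    rwa [Ideal.span_singleton_zero, ← hI] at this
  have hI0 : I ∈ (Ideal (𝓞 K))⁰ := mem_nonZeroDivisors_of_ne_zero hI
  have hc : Fintype.card (ClassGroup (𝓞 K)) ≠ 0 := Fintype.card_ne_zero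
  have h1 : ClassGroup.mk0 ⟨I ^ Fintype.card (ClassGroup (𝓞 K)), pow_mem hI0 _⟩ = 1 := by
    have : (⟨I ^ Fintype.card (ClassGroup (𝓞 K)), pow_mem hI0 _⟩ : (Ideal (𝓞 K))⁰) =
        ⟨I, hI0⟩ ^ Fintype.card (ClassGroup (𝓞 K)) := rfl
    rw [this, map_pow, pow_card_eq_one]
  obtain ⟨x, hx⟩ := ((ClassGroup.mk0_eq_one_iff _).mp h1).principal
  have h2 := norm_span (F := F) x
  rw [Ideal.submodule_span_eq] at hx
  rw [← hx, map_pow, Ideal.map_pow] at h2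
  apply pow_left_injective hc
  simp only
  rw [h2, ← Finset.prod_pow]
  exact Finset.prod_congr rfl fun g _ => smul_pow' g I _

lemma inv_fun [IsGalois F K] (ψ : Ideal (𝓞 K) →* ℂ) (hψ : ∀ (g : K ≃ₐ[F] K) I, ψ (g • I) = ψ I)
    (A : Ideal (𝓞 K)) : ∀ B : Ideal (𝓞 K),
      Ideal.relNorm (𝓞 F) A = Ideal.relNorm (𝓞 F) B → ψ A = ψ B := by
  induction A using UniqueFactorizationMonoid.induction_on_prime with
  | h₁ =>
    intro B h
    rw [Ideal.zero_eq_bot, Ideal.relNorm_bot] at h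
    rw [Ideal.relNorm_eq_bot_iff.mp h.symm, Ideal.zero_eq_bot]
  | h₂ A hA =>
    intro B h
    rw [Ideal.isUnit_iff.mp hA] at h ⊢
    rw [Ideal.relNorm_top] at h
    have h1 := Ideal.relNorm_le_comap (𝓞 F) B
    rw [← h, top_le_iff, Ideal.comap_eq_top_iff] at h1
    rw [h1]
  | h₃ A P _ hP ih =>
    intro B h
    have h1 : P ∣ ∏ g : K ≃ₐ[F] K, g • B := by
      rw [← norm_eq, ← h, norm_eq]
      refine (dvd_mul_right P A).trans ?_
      have := Finset.dvd_prod_of_mem (fun g : K ≃ₐ[F] K => g • (P * A)) (Finset.mem_univ 1)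
      rwa [one_smul] at this
    obtain ⟨g, -, C, hC⟩ := hP.exists_mem_finset_dvd h1
    have h2 : B = g⁻¹ • P * g⁻¹ • C := by rw [← smul_mul', ← hC, inv_smul_smul]
    rw [h2, map_mul, map_mul, Ideal.relNorm_smul] at h
    have h3 : Ideal.relNorm (𝓞 F) P ≠ 0 := fun e => hP.ne_zero (Ideal.relNorm_eq_bot_iff.mp e)
    rw [h2, map_mul, map_mul, hψ, ih _ (mul_left_cancel₀ h3 h)]

omit [NumberField F] in
lemma step {I J I' : Ideal (𝓞 K)} (hI : I ≠ ⊥) (hJ : J ≠ ⊤) (e : I = J * I')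
    (h : ∀ g : K ≃ₐ[F] K, g • I = I) (h' : ∀ g : K ≃ₐ[F] K, g • J = J) :
    I' ≠ ⊥ ∧ (∀ g : K ≃ₐ[F] K, g • I' = I') ∧ Ideal.absNorm I' < Ideal.absNorm I := by
  have h1 : J ≠ ⊥ := fun h0 => hI (by rw [e, h0, Ideal.bot_mul])
  have h2 : I' ≠ ⊥ := fun h0 => hI (by rw [e, h0, Ideal.mul_bot])
  refine ⟨h2, fun g => ?_, ?_⟩
  · apply mul_left_cancel₀ h1
    have := h g
    rwa [e, smul_mul', h'] at this
  · have h3 : Ideal.absNorm J ≠ 0 := fun h0 => h1 (Ideal.absNorm_eq_zero_iff.mp h0)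
    have h4 : Ideal.absNorm J ≠ 1 := fun h0 => hJ (Ideal.absNorm_eq_one_iff.mp h0)
    have h5 : Ideal.absNorm I' ≠ 0 := fun h0 => h2 (Ideal.absNorm_eq_zero_iff.mp h0)
    rw [e, map_mul]
    have h6 : 2 * Ideal.absNorm I' ≤ Ideal.absNorm J * Ideal.absNorm I' :=
      Nat.mul_le_mul_right _ (by omega)
    omega

/-- an invariant ideal inside an unramified prime lies inside the extension of the prime below -/
lemma le_map [IsGalois F K] {I P : Ideal (𝓞 K)} (hP : P.IsMaximal) (hr : ¬ RamP F P) (hIP : I ≤ P)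
    (h : ∀ g : K ≃ₐ[F] K, g • I = I) :
    I ≤ (P.comap (algebraMap (𝓞 F) (𝓞 K))).map (algebraMap (𝓞 F) (𝓞 K)) := by
  set p := P.comap (algebraMap (𝓞 F) (𝓞 K)) with hp
  set J := p.map (algebraMap (𝓞 F) (𝓞 K)) with hJ
  have hpm : p.IsMaximal := Ideal.isMaximal_comap_of_isIntegral_of_isMaximal P
  have hPp : P.IsPrime := hP.isPrime
  have hPl : P.LiesOver p := ⟨rfl⟩
  have hover : ∀ Q : Ideal (𝓞 K), Q.IsPrime → J ≤ Q → ∃ g : K ≃ₐ[F] K, g • P = Q := by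
    intro Q hQ hle
    have h1 : p = Q.comap (algebraMap (𝓞 F) (𝓞 K)) :=
      hpm.eq_of_le (Ideal.comap_ne_top _ hQ.ne_top) (Ideal.map_le_iff_le_comap.mp hle)
    have hQl : Q.LiesOver p := ⟨h1⟩
    exact Ideal.exists_smul_eq_of_isGaloisGroup p P Q (K ≃ₐ[F] K)
  have hJ0 : J ≠ 0 := fun h0 => hr (by
    unfold RamP
    rw [← hp, ← hJ, h0]
    exact bot_le)
  have hsq : Squarefree J := by
    rw [squarefree_iff_no_irreducibles hJ0]
    intro Q hQ hd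
    have hQp : Q.IsPrime := Ideal.isPrime_of_prime hQ.prime
    have hle : J ≤ Q * Q := Ideal.le_of_dvd hd
    obtain ⟨g, rfl⟩ := hover Q hQp (hle.trans Ideal.mul_le_left)
    apply hr
    unfold RamP
    rw [← hp, ← hJ, sq, ← Ideal.pointwise_smul_le_pointwise_smul_iff (a := g), smul_mul', hJ,
      smul_map]
    exact hle
  intro x hx
  have hx1 : x ∈ J.radical := by
    rw [Ideal.radical_eq_sInf, Ideal.mem_sInf]
    rintro Q ⟨hle, hQ⟩
    obtain ⟨g, rfl⟩ := hover Q hQ hle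
    have : g • I ≤ g • P := Ideal.pointwise_smul_le_pointwise_smul_iff.mpr hIP
    rw [h g] at this
    exact this hx
  obtain ⟨m, hm⟩ := hx1
  rw [← Ideal.dvd_span_singleton] at hm ⊢
  rw [← Ideal.span_singleton_pow] at hm
  exact hsq.isRadical m _ hm

lemma inv_ideal [IsGalois F K] (hT : S_Tame) (S : Finset (Ideal (𝓞 K)))
    (he : (Module.finrank F K).Prime) (hS : ∀ 𝔓, 𝔓.IsMaximal → RamP F 𝔓 → 𝔓 ∈ S) (N : ℕ) :
    ∀ I : Ideal (𝓞 K), Ideal.absNorm I = N → I ≠ ⊥ → (∀ g : K ≃ₐ[F] K, g • I = I) →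
      ∃ (𝔞 : Ideal (𝓞 F)) (a : S → Fin (Module.finrank F K)),
        I = 𝔞.map (algebraMap (𝓞 F) (𝓞 K)) * ∏ 𝔓 : S, 𝔓.1 ^ (a 𝔓).1 := by
  induction N using Nat.strong_induction_on with
  | _ N ih =>
  intro I hN hI h
  by_cases ht : I = ⊤
  · refine ⟨⊤, fun _ => ⟨0, he.pos⟩, ?_⟩
    rw [Finset.prod_eq_one fun _ _ => pow_zero _, mul_one, Ideal.map_top, ht]
  obtain ⟨P, hP, hIP⟩ := Ideal.exists_le_maximal I ht
  by_cases hr : RamP F P
  · obtain ⟨t1, t2, -, -⟩ := hT F K P he hP hr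
    obtain ⟨I', e⟩ : P ∣ I := Ideal.dvd_iff_le.mpr hIP
    obtain ⟨s1, s2, s3⟩ := step hI hP.ne_top e h fun g => by rw [← act_eq]; exact t2 g
    obtain ⟨𝔞, a, ha⟩ := ih _ (hN ▸ s3) I' rfl s1 s2
    let P' : S := ⟨P, hS P hP hr⟩
    have hsplit : ∀ b : S → Fin (Module.finrank F K), ∏ 𝔓 : S, 𝔓.1 ^ (b 𝔓).1 =
        P ^ (b P').1 * ∏ 𝔓 ∈ Finset.univ.erase P', 𝔓.1 ^ (b 𝔓).1 := fun b =>
      (Finset.mul_prod_erase _ (fun 𝔓 : S => 𝔓.1 ^ (b 𝔓).1) (Finset.mem_univ P')).symm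
    have hupd : ∀ j : Fin (Module.finrank F K), ∏ 𝔓 : S, 𝔓.1 ^ (Function.update a P' j 𝔓).1 =
        P ^ j.1 * ∏ 𝔓 ∈ Finset.univ.erase P', 𝔓.1 ^ (a 𝔓).1 := by
      intro j
      rw [hsplit, Function.update_self]
      congr 1
      refine Finset.prod_congr rfl fun 𝔓 h𝔓 => ?_
      rw [Function.update_of_ne (Finset.ne_of_mem_erase h𝔓)]
    by_cases hlt : (a P').1 + 1 < Module.finrank F K
    · refine ⟨𝔞, Function.update a P' ⟨_, hlt⟩, ?_⟩
      rw [hupd, e, ha, hsplit a]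
      ring
    · have h1 : Module.finrank F K = (a P').1 + 1 := by
        have := (a P').2
        omega
      refine ⟨𝔞 * P.comap (algebraMap (𝓞 F) (𝓞 K)), Function.update a P' ⟨0, he.pos⟩, ?_⟩
      have t3 : (P.comap (algebraMap (𝓞 F) (𝓞 K))).map (algebraMap (𝓞 F) (𝓞 K)) =
          P ^ ((a P').1 + 1) := by rw [t1, ← h1]
      rw [hupd, Ideal.map_mul, t3, e, ha, hsplit a]
      ring
  · obtain ⟨I', e⟩ := Ideal.dvd_iff_le.mpr (le_map hP hr hIP h)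
    have hne : (P.comap (algebraMap (𝓞 F) (𝓞 K))).map (algebraMap (𝓞 F) (𝓞 K)) ≠ ⊤ :=
      fun h0 => hP.ne_top (top_le_iff.mp (h0 ▸ Ideal.map_comap_le))
    obtain ⟨s1, s2, s3⟩ := step hI hne e h fun g => smul_map g _
    obtain ⟨𝔞, a, ha⟩ := ih _ (hN ▸ s3) I' rfl s1 s2
    refine ⟨P.comap (algebraMap (𝓞 F) (𝓞 K)) * 𝔞, a, ?_⟩
    rw [Ideal.map_mul, mul_assoc, ← ha]
    exact e

end NG

theorem d_nG (hTame : S_Tame) : S_NG := by
  intro F K _ _ _ _ _ _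
  exact ⟨NG.act_eq, NG.norm_eq, fun ψ A B h => NG.inv_fun ψ h A B,
    fun I S he hI h hS => NG.inv_ideal hTame S he hS _ I rfl hI h⟩

end Pool.Agent.P.MP_b8021b_nt.VC
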