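import Pool.Agent.P.MP_b8021b_nt.VC.StH
import Pool.Agent.P.MP_b8021b_nt.VC.BasicN

/-! Base change of the relative norm; ray class characters in towers. -/

namespace Pool.Agent.P.MP_b8021b_nt.VC

open Polynomial NumberField Finset Pool.Agent.P.MP_b8021b_nt.VE
open scoped Classical ComplexConjugate

namespace BCN

theorem norm_bc {E₀ E₁ E₂ M : Type} [Field E₀] [Field E₁] [Field E₂] [Field M] [Algebra E₀ E₁]
    [Algebra E₀ E₂] [Algebra E₁ M] [Algebra E₂ M] [Algebra E₀ M] [IsScalarTower E₀ E₁ M]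
    [IsScalarTower E₀ E₂ M] [FiniteDimensional E₀ E₁]
    (h1 : Module.finrank E₂ M = Module.finrank E₀ E₁)
    (h2 : Algebra.adjoin E₂ (Set.range (algebraMap E₁ M)) = ⊤) (a : E₁) :
    Algebra.norm E₂ (algebraMap E₁ M a) = algebraMap E₀ E₂ (Algebra.norm E₀ a) := by
  let b := Module.finBasis E₀ E₁
  have hx : ∀ x : E₁, algebraMap E₁ M x =
      ∑ i, algebraMap E₀ E₂ (b.repr x i) • algebraMap E₁ M (b i) := fun x => by
    conv_lhs => rw [← b.sum_repr x, map_sum]
    refine sum_congr rfl fun i _ => ?_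
    rw [algebraMap_smul, Algebra.smul_def, Algebra.smul_def, map_mul,
      ← IsScalarTower.algebraMap_apply]
  have hsp : ⊤ ≤ Submodule.span E₂ (Set.range fun i => algebraMap E₁ M (b i)) := by
    have h3 : (Submonoid.closure (Set.range (algebraMap E₁ M)) : Set M) ⊆
        Set.range (algebraMap E₁ M) :=
      (Submonoid.closure_le (S := MonoidHom.mrange (algebraMap E₁ M).toMonoidHom)).2
        fun x hx => hx
    rw [← Algebra.top_toSubmodule, ← h2, Algebra.adjoin_eq_span, Submodule.span_le]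
    intro x hx'
    obtain ⟨y, rfl⟩ := h3 hx'
    rw [hx y]
    exact Submodule.sum_mem _ fun i _ => Submodule.smul_mem _ _ (Submodule.subset_span ⟨i, rfl⟩)
  let b' := basisOfTopLeSpanOfCardEqFinrank _ hsp (by rw [h1, Fintype.card_fin])
  have hb' : ∀ i, b' i = algebraMap E₁ M (b i) := fun i =>
    congrFun (coe_basisOfTopLeSpanOfCardEqFinrank _ hsp _) i
  rw [Algebra.norm_eq_matrix_det b', Algebra.norm_eq_matrix_det b, RingHom.map_det]
  congr 1
  ext i j
  rw [RingHom.mapMatrix_apply, Matrix.map_apply, Algebra.leftMulMatrix_eq_repr_mul,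
    Algebra.leftMulMatrix_eq_repr_mul, hb', ← map_mul, hx]
  simp only [← hb']
  exact congrFun (b'.repr_sum_self _) i

theorem pow_prin {E : Type} [Field E] [NumberField E] {A : Ideal (𝓞 E)} (hA : A ≠ ⊥) :
    ∃ (h : ℕ) (a : 𝓞 E), h ≠ 0 ∧ A ^ h = Ideal.span {a} := by
  have h0 : A ∈ nonZeroDivisors (Ideal (𝓞 E)) := mem_nonZeroDivisors_iff_ne_zero.2 hA
  obtain ⟨h, hh, h1⟩ := (isOfFinOrder_of_finite (ClassGroup.mk0 ⟨A, h0⟩)).exists_pow_eq_one
  rw [← map_pow] at h1
  obtain ⟨a, ha⟩ := (ClassGroup.mk0_eq_one_iff (pow_mem h0 h)).1 h1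
  exact ⟨h, a, hh.ne', ha⟩

theorem coe_intNorm {E E' : Type} [Field E] [NumberField E] [Field E'] [NumberField E']
    [Algebra E E'] (a : 𝓞 E') :
    ((Algebra.intNorm (𝓞 E) (𝓞 E') a : 𝓞 E) : E) = Algebra.norm E (a : E') :=
  Algebra.algebraMap_intNorm (K := E) (L := E') a

section Fib

variable {k : Type} [Field k] [NumberField k] [Algebra k ℂ] {E : Type} [Field E] [NumberField E]
  [Algebra k E] (E' : Type) [Field E'] [NumberField E'] [Algebra E E'] [Algebra k E']
  [IsScalarTower k E E']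

theorem fib (φ : Emb k E) :
    (univ.filter fun ψ : Emb k E' => ψ.comp (IsScalarTower.toAlgHom k E E') = φ).card =
      Module.finrank E E' ∧
    ∀ a : E', ∏ ψ : Emb k E' with ψ.comp (IsScalarTower.toAlgHom k E E') = φ, ψ a =
      φ (Algebra.norm E a) := by
  let _ : Algebra E ℂ := φ.toRingHom.toAlgebra
  have : IsScalarTower k E ℂ := IsScalarTower.of_algebraMap_eq fun x => (φ.commutes x).symm
  have him : (univ.filter fun ψ : Emb k E' => ψ.comp (IsScalarTower.toAlgHom k E E') = φ) =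
      univ.image fun σ : E' →ₐ[E] ℂ => σ.restrictScalars k := by
    ext ψ
    simp only [mem_filter, mem_univ, true_and, mem_image]
    constructor
    · intro h
      exact ⟨{ ψ with commutes' := fun x => AlgHom.congr_fun h x }, rfl⟩
    · rintro ⟨σ, rfl⟩
      ext x
      exact σ.commutes x
  have hinj : Function.Injective fun σ : E' →ₐ[E] ℂ => σ.restrictScalars k :=
    AlgHom.restrictScalars_injective k
  rw [him, card_image_of_injective _ hinj, card_univ, AlgHom.card]
  refine ⟨rfl, fun a => ?_⟩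
  rw [prod_image fun x _ y _ h => hinj h]
  exact (Algebra.norm_eq_prod_embeddings E ℂ a).symm

variable {E'}

theorem norm_cong (k : Type) [Field k] [NumberField k] [Algebra k ℂ] [Algebra k E] [Algebra k E']
    [IsScalarTower k E E'] {n : ℕ} (hn : n ≠ 0) {α : 𝓞 E'} (h : (n : 𝓞 E') ∣ α - 1) :
    (n : 𝓞 E) ∣ Algebra.intNorm (𝓞 E) (𝓞 E') α - 1 := by
  obtain ⟨β, hβ⟩ := h
  have hα : (α : E') = 1 + n * (β : E') := by
    have := congrArg (fun x : 𝓞 E' => (x : E')) hβ
    simp only [map_sub, map_one, map_mul, map_natCast] at this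
    linear_combination this
  let φ : Emb k E := IsAlgClosed.lift
  have key : ∀ s : Finset (Emb k E'), ∃ c : ℂ, IsIntegral ℤ c ∧ ∏ ψ ∈ s, ψ α = 1 + n * c := by
    intro s
    induction s using Finset.induction_on with
    | empty => exact ⟨0, isIntegral_zero, by simp⟩
    | insert ψ s hs ih =>
      obtain ⟨c, hc, h1⟩ := ih
      have h2 : IsIntegral ℤ (ψ β) := map_isIntegral_int ψ.toRingHom β.isIntegral_coe
      refine ⟨ψ β + c + n * (ψ β * c), (h2.add hc).add ((isIntegral_natCast n).mul (h2.mul hc)),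
        ?_⟩
      rw [prod_insert hs, h1, hα, map_add, map_one, map_mul, map_natCast]
      ring
  obtain ⟨c, hc, h1⟩ := key (univ.filter fun ψ => ψ.comp (IsScalarTower.toAlgHom k E E') = φ)
  rw [(fib E' φ).2] at h1
  have hn' : (n : E) ≠ 0 := Nat.cast_ne_zero.2 hn
  have hn'' : (n : ℂ) ≠ 0 := Nat.cast_ne_zero.2 hn
  have h2 : IsIntegral ℤ ((Algebra.norm E (α : E') - 1) / n) := by
    rw [← isIntegral_algHom_iff φ.toRingHom.toIntAlgHom φ.toRingHom.injective]
    have : φ ((Algebra.norm E (α : E') - 1) / n) = c := by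
      rw [map_div₀, map_sub, map_one, map_natCast, h1]
      field_simp
      ring
    exact this ▸ hc
  refine ⟨⟨_, h2⟩, RingOfIntegers.ext ?_⟩
  simp only [map_sub, map_one, map_mul, map_natCast, RingOfIntegers.map_mk]
  rw [mul_div_cancel₀ _ hn']
  exact congrArg (· - 1) (coe_intNorm α)

theorem ty_norm (κ : Emb k E → ℤ) (τ : Emb k E → ℝ) {α : 𝓞 E'} (h : α ≠ 0) :
    ty κ τ (emb k (Algebra.intNorm (𝓞 E) (𝓞 E') α)) =
      ty (fun φ : Emb k E' => κ (φ.comp (IsScalarTower.toAlgHom k E E')))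
        (fun φ : Emb k E' => τ (φ.comp (IsScalarTower.toAlgHom k E E'))) (emb k α) := by
  unfold ty
  rw [← prod_fiberwise univ fun φ : Emb k E' => φ.comp (IsScalarTower.toAlgHom k E E')]
  refine prod_congr rfl fun φ _ => ?_
  rw [emb_apply, coe_intNorm, ← (fib E' φ).2, dir_prod, norm_prod,
    Real.log_prod (f := fun ψ : Emb k E' => ‖ψ α‖)
      fun ψ _ => norm_ne_zero_iff.2 (emb_ne_zero h ψ), ← prod_zpow, mul_sum,
    Complex.ofReal_sum, mul_sum, Complex.exp_sum, ← prod_mul_distrib]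
  exact prod_congr rfl fun ψ hψ => by simp only [(mem_filter.1 hψ).2, emb_apply]

end Fib

theorem cop_map {E E' : Type} [Field E] [NumberField E] [Field E'] [NumberField E']
    [Algebra E E'] {n : ℕ} {I : Ideal (𝓞 E)} :
    Cop n (I.map (algebraMap (𝓞 E) (𝓞 E'))) ↔ Cop n I := by
  rw [← cop_rel (E := E), Ideal.relNorm_algebraMap]
  exact IsCoprime.pow_left_iff Module.finrank_pos

theorem cop_act {E : Type} [Field E] {n : ℕ} {I : Ideal (𝓞 E)} (σ : E →+* E) (h : Cop n I) :
    Cop n (act σ I) := by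
  have := h.map (Ideal.mapHom (RingOfIntegers.mapRingHom σ))
  simpa [Cop, act, Ideal.map_span] using this

theorem zpow_sum' {ι : Type} {z : ℂ} (hz : z ≠ 0) (s : Finset ι) (κ : ι → ℤ) :
    ∏ i ∈ s, z ^ κ i = z ^ ∑ i ∈ s, κ i := by
  induction s using Finset.induction_on with
  | empty => simp
  | insert i s hi ih => rw [prod_insert hi, sum_insert hi, ih, zpow_add₀ hz]

end BCN

open BCN in
theorem p_bCN : S_BCN := by
  refine ⟨fun E₀ E₁ E₂ M _ _ _ _ _ _ _ _ _ _ _ _ _ _ _ h1 h2 => ⟨norm_bc h1 h2, fun A => ?_⟩, ?_⟩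
  · rcases eq_or_ne A ⊥ with rfl | hA
    · simp
    obtain ⟨h, a, hh, ha⟩ := pow_prin hA
    refine pow_left_injective hh ?_
    simp only
    rw [← map_pow, ← Ideal.map_pow, ← Ideal.map_pow, ← map_pow, ha, Ideal.map_span,
      Set.image_singleton, Ideal.relNorm_singleton, Ideal.relNorm_singleton, Ideal.map_span,
      Set.image_singleton]
    congr 2
    refine RingOfIntegers.ext ?_
    rw [coe_intNorm]
    exact (norm_bc h1 h2 (a : E₁)).trans (congrArg (algebraMap E₀ E₂) (coe_intNorm a).symm)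
  intro k _ _ _ _ E _ _ _ n κ τ χ hn H
  have hmul : ∀ (n' m : ℕ) (κ' : Emb k E → ℤ) (τ' : Emb k E → ℝ) (χ' : Ideal (𝓞 E) →* ℂ),
      IsH k n' κ' τ' χ' → n ∣ m → n' ∣ m → (∀ I : Ideal (𝓞 E), Cop n I → Cop n' I → Cop m I) →
      IsH k m (κ + κ') (τ + τ') (χ * χ') := fun n' m κ' τ' χ' H' h1 h2 h3 =>
    { norm_cop := fun I h => by
        rw [MonoidHom.mul_apply, norm_mul, H.norm_cop I (Cop_of_dvd h h1),
          H'.norm_cop I (Cop_of_dvd h h2), mul_one]
      zero := fun I h => by
        rw [MonoidHom.mul_apply]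
        by_cases c : Cop n I
        · rw [H'.zero I fun c' => h (h3 I c c'), mul_zero]
        · rw [H.zero I c, zero_mul]
      sum := by simp only [Pi.add_apply, sum_add_distrib, H.sum, H'.sum, add_zero]
      prin := fun α h => by
        have a1 := (Nat.cast_dvd_cast (α := 𝓞 E) h1).trans h
        rw [MonoidHom.mul_apply, H.prin α a1, H'.prin α ((Nat.cast_dvd_cast h2).trans h),
          ty_add _ _ _ _ (emb_ne_zero (ne_zero_of_dvd hn a1))] }
  refine ⟨fun I => cop_iff_coprime, ?_, ?_, fun n' κ' τ' χ' _ H' => ⟨?_, ?_⟩, fun n' _ h => ?_,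
    fun σ => ?_, fun E' _ _ _ _ _ => ?_⟩
  · exact
      { norm_cop := fun I h => by rw [cj_apply, Complex.norm_conj, H.norm_cop I h]
        zero := fun I h => by rw [cj_apply, H.zero I h, map_zero]
        sum := by simp only [Pi.neg_apply, sum_neg_distrib, H.sum, neg_zero]
        prin := fun α h => by
          rw [cj_apply, H.prin α h, ty_neg _ _ (emb_ne_zero (ne_zero_of_dvd hn h))] }
  · refine
      { norm_cop := fun I h => H.norm_cop _ (cop_map.2 h)
        zero := fun I h => H.zero _ fun c => h (cop_map.1 c)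
        sum := by simp
        prin := fun α h => ?_ }
    have h1 : (n : 𝓞 E) ∣ algebraMap (𝓞 k) (𝓞 E) α - 1 := by
      simpa using map_dvd (algebraMap (𝓞 k) (𝓞 E)) h
    have h2 : ∀ φ : Emb k E, emb k (algebraMap (𝓞 k) (𝓞 E) α) φ = algebraMap k ℂ α :=
      fun φ => φ.commutes (α : k)
    have h3 : emb k α (Algebra.ofId k ℂ) = algebraMap k ℂ α := rfl
    rw [res_apply, Ideal.map_span, Set.image_singleton, H.prin _ h1, ty_const, ty_eq,
      Fintype.prod_subsingleton _ (Algebra.ofId k ℂ), h3]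
    simp only [lg, h2]
    rw [← sum_mul, H.sum, zero_mul, Complex.ofReal_zero, mul_zero, Complex.exp_zero, mul_one]
    exact zpow_sum' (h3 ▸ dir_ne_zero (emb_ne_zero (ne_zero_of_dvd hn h) _)) _ _
  · exact hmul n' _ κ' τ' χ' H' (dvd_mul_right _ _) (dvd_mul_left _ _)
      fun I c c' => cop_mul_nat.2 ⟨c, c'⟩
  · rintro rfl
    exact hmul n _ κ' τ' χ' H' dvd_rfl dvd_rfl fun I c _ => c
  · simpa using hmul n' n' 0 0 _ (isH_triv n') h dvd_rfl fun I _ c => c
  · have hact : ∀ I : Ideal (𝓞 E), act (σ.symm : E →+* E) (act (σ : E →+* E) I) = I := fun I => by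
      unfold act
      rw [Ideal.map_map, show (RingOfIntegers.mapRingHom (σ.symm : E →+* E)).comp
        (RingOfIntegers.mapRingHom (σ : E →+* E)) = RingHom.id _ from
          RingHom.ext fun x => RingOfIntegers.ext (σ.symm_apply_apply x), Ideal.map_id]
    let e : Emb k E ≃ Emb k E :=
      { toFun := fun φ => φ.comp (σ : E →ₐ[k] E)
        invFun := fun φ => φ.comp (σ.symm : E →ₐ[k] E)
        left_inv := fun φ => AlgHom.ext fun x => congrArg φ (σ.apply_symm_apply x)
        right_inv := fun φ => AlgHom.ext fun x => congrArg φ (σ.symm_apply_apply x) }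
    refine ⟨χ.comp (Ideal.mapHom (RingOfIntegers.mapRingHom (σ : E →+* E))).toMonoidHom,
      fun I => rfl,
      { norm_cop := fun I h => H.norm_cop _ (cop_act _ h)
        zero := fun I h => H.zero _ fun c => h (hact I ▸ cop_act (σ.symm : E →+* E) c)
        sum := (e.symm.sum_comp τ).trans H.sum
        prin := fun α h => ?_ }⟩
    have h1 : (n : 𝓞 E) ∣ RingOfIntegers.mapRingHom (σ : E →+* E) α - 1 := by
      simpa using map_dvd (RingOfIntegers.mapRingHom (σ : E →+* E)) h
    change χ (Ideal.map (RingOfIntegers.mapRingHom (σ : E →+* E)) _) = _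
    rw [Ideal.map_span, Set.image_singleton, H.prin _ h1]
    unfold ty
    refine Fintype.prod_equiv e _ _ fun φ => ?_
    simp only [show (e φ).comp (σ.symm : E →ₐ[k] E) = φ from e.left_inv φ]
    rfl
  · refine
      { norm_cop := fun I h => H.norm_cop _ (cop_rel.2 h)
        zero := fun I h => H.zero _ fun c => h (cop_rel.1 c)
        sum := ?_
        prin := fun α h => ?_ }
    · rw [← sum_fiberwise univ fun φ : Emb k E' => φ.comp (IsScalarTower.toAlgHom k E E'),
        sum_congr rfl fun φ _ => (sum_congr rfl fun ψ hψ => by rw [(mem_filter.1 hψ).2]).trans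
          ((sum_const (τ φ)).trans (by rw [(fib E' φ).1])), ← smul_sum, H.sum, smul_zero]
    · rw [nrm_apply, Ideal.relNorm_singleton, H.prin _ (norm_cong k (by omega) h),
        ty_norm κ τ (ne_zero_of_dvd hn h)]

end Pool.Agent.P.MP_b8021b_nt.VC
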