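import Pool.Agent.P.MP_b8021b_nt.VC.StG
import Pool.Agent.P.MP_b8021b_nt.VC.GC

/-! The embedding, norms and lattices. -/

namespace Pool.Agent.P.MP_b8021b_nt.VC

open NumberField Finset Pool.Agent.P.MP_b8021b_nt.VE Geo
open scoped Classical

theorem p_emb : S_Emb := by
  intro k _ _ _ K D
  obtain ⟨C1, h1⟩ := ex_pow ((4 * (2 * D * |(K.D : ℝ)|) ^ 2) ^ D) (2 * D)
  obtain ⟨C2, h2⟩ := ex_pow |(K.D : ℝ)| 1
  refine ⟨C1 + C2 + D, fun E _ _ _ hD => ?_⟩
  have hc : Fintype.card (Emb k E) = D := card_emb.trans hD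
  obtain ⟨Q0, F, hF⟩ := exDat0 E K
  refine ⟨hc, by rw [F.deg, hc], hc ▸ card_pos F, fun a => (nz_emb K a).symm,
    fun a => (Algebra.norm_eq_prod_embeddings k ℂ a).symm, fun 𝔟 z => ?_, fun 𝔟 h => ?_, ?_,
    exSmall k E, fun Q hQ hS => ?_⟩
  · rw [← lat_eq hF, mem_lat]
    simp only [ph_eq hF]
  · rw [← lat_eq hF, ← cov_eq2 hF]
    exact ⟨⟨lat_disc F 𝔟, lat_isZ F h⟩, cov_eq F h⟩
  · rw [← cov_eq2 hF]
    refine le_trans ?_ (cov_ge F)
    rw [hc, one_div, inv_pow]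
    exact inv_anti₀ (by positivity) (pow_le_pow_right₀ one_le_two (by omega))
  · obtain ⟨F, hF⟩ := exDat K hS
    refine ⟨?_, ?_⟩
    · rw [← cov_eq2 hF]
      refine (cov_le F).trans (le_trans (le_of_eq ?_) (h1 _ (by omega) Q hQ))
      rw [hc, pow_mul, ← mul_pow]
      congr 1
      ring
    · let e : Fin D × Bool ≃ Fin (2 * Fintype.card (Emb k E)) :=
        Fintype.equivFinOfCardEq (by rw [hc]; simp [mul_comm])
      refine ⟨(F.bas one_ne_zero).reindex e.symm, fun j => ?_⟩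
      rw [Module.Basis.reindex_apply, bas_apply, one_mul]
      refine ⟨?_, _, (ph_eq hF _).symm⟩
      refine le_trans ((pi_norm_le_iff_of_nonneg (by positivity)).2 fun φ => F.le φ _) ?_
      simpa using h2 _ (by omega) Q hQ

end Pool.Agent.P.MP_b8021b_nt.VC
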