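import Pool.Agent.P.MP_b8021b_nt.VC.StG
import Pool.Agent.P.MP_b8021b_nt.VC.GI

/-! The image of the Lebesgue measure in the logarithmic space. -/

namespace Pool.Agent.P.MP_b8021b_nt.VC

theorem p_int : S_Int := by
  intro k _ _ _ _ E _ _ _ n ℓ U g Λ Z κ h hg hZ _ _
  refine Geo.int_co U g (fun x hx => ?_) hZ κ h
  by_contra hc
  linarith [(hg.supp x hc).1]

end Pool.Agent.P.MP_b8021b_nt.VC
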