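import Pool.Agent.P.MP_b8021b_nt.VC.StH
import Pool.Agent.P.MP_b8021b_nt.VC.BasicN

/-! Primes of degree one and roots of polynomials. -/

namespace Pool.Agent.P.MP_b8021b_nt.VC

open Polynomial NumberField Finset Pool.Agent.P.MP_b8021b_nt.VE
open scoped Classical

namespace KD

section Gen

variable {A B : Type} [CommRing A] [CommRing B] [Algebra A B]

/-- a homomorphism is determined by the image of the generator -/
theorem hom_ext {F : Type} [Field F] [Algebra A F] {x : B} {M : ℕ} (hM : (M : F) ≠ 0)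
    (hc : (M : B) ∈ conductor A x) {φ ψ : B →ₐ[A] F} (h : φ x = ψ x) : φ = ψ := by
  ext b
  have h1 : (M : B) * b ∈ Algebra.adjoin A {x} := mem_conductor_iff.1 hc b
  rw [Algebra.adjoin_singleton_eq_range_aeval] at h1
  obtain ⟨Q, hQ⟩ := h1
  have e : φ ((M : B) * b) = ψ ((M : B) * b) := by
    rw [← hQ]
    change φ (aeval x Q) = ψ (aeval x Q)
    rw [← aeval_algHom_apply, ← aeval_algHom_apply, h]
  rw [map_mul, map_mul, map_natCast, map_natCast] at e
  exact mul_left_cancel₀ hM e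

/-- a root of the minimal polynomial gives a homomorphism -/
theorem hom_ex [IsDomain A] [IsIntegrallyClosed A] [IsDedekindDomain B] [Module.IsTorsionFree A B]
    {p : Ideal A} {x : B} (hx : IsIntegral A x)
    (hc : (conductor A x).comap (algebraMap A B) ⊔ p = ⊤) {r : A ⧸ p}
    (hr : aeval r (minpoly A x) = 0) : ∃ φ : B →ₐ[A] A ⧸ p, φ x = r := by
  let e := KummerDedekind.quotMapEquivQuotQuotMap hc hx
  let ev : ((A ⧸ p)[X] ⧸ Ideal.span {(minpoly A x).map (Ideal.Quotient.mk p)}) →+* A ⧸ p :=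
    Ideal.Quotient.lift _ (evalRingHom r) (fun a ha => by
      obtain ⟨c, rfl⟩ := Ideal.mem_span_singleton'.1 ha
      rw [map_mul, coe_evalRingHom, eval_map]
      rw [aeval_def] at hr
      exact mul_eq_zero_of_right _ hr)
  let f : B →+* A ⧸ p := (ev.comp e.toRingHom).comp (Ideal.Quotient.mk _)
  have hf : ∀ Q : A[X], f (aeval x Q) = aeval r Q := fun Q => by
    have h1 := KummerDedekind.quotMapEquivQuotQuotMap_symm_apply hc hx Q
    have h2 : e (Ideal.Quotient.mk _ (aeval x Q)) =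
        Ideal.Quotient.mk _ (Q.map (Ideal.Quotient.mk p)) := by
      rw [← h1]
      exact e.apply_symm_apply _
    change ev (e (Ideal.Quotient.mk _ (aeval x Q))) = _
    rw [h2, Ideal.Quotient.lift_mk, coe_evalRingHom, eval_map, aeval_def]
    rfl
  refine ⟨⟨f, fun a => ?_⟩, ?_⟩
  · simpa using hf (C a)
  · simpa using hf X

theorem comap_ker {p : Ideal A} (φ : B →ₐ[A] A ⧸ p) :
    (RingHom.ker φ).comap (algebraMap A B) = p := by
  ext a
  rw [Ideal.mem_comap, RingHom.mem_ker, AlgHom.commutes]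
  exact Ideal.Quotient.eq_zero_iff_mem

theorem surj {p : Ideal A} (φ : B →ₐ[A] A ⧸ p) : Function.Surjective φ := fun r => by
  obtain ⟨a, rfl⟩ := Ideal.Quotient.mk_surjective r
  exact ⟨algebraMap A B a, φ.commutes a⟩

theorem card_ker {p : Ideal A} (φ : B →ₐ[A] A ⧸ p) :
    Nat.card (B ⧸ RingHom.ker φ) = Nat.card (A ⧸ p) :=
  Nat.card_congr (RingHom.quotientKerEquivOfSurjective (f := (φ : B →+* A ⧸ p)) (surj φ)).toEquiv

theorem ker_inj {p : Ideal A} {φ ψ : B →ₐ[A] A ⧸ p} (h : RingHom.ker φ = RingHom.ker ψ) (x : B) :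
    φ x = ψ x := by
  obtain ⟨a, ha⟩ := Ideal.Quotient.mk_surjective (φ x)
  have h1 : x - algebraMap A B a ∈ RingHom.ker φ := by
    rw [RingHom.mem_ker, map_sub, AlgHom.commutes, ← ha]
    exact sub_self _
  rw [h, RingHom.mem_ker, map_sub, AlgHom.commutes, sub_eq_zero] at h1
  rw [h1, ← ha]
  rfl

theorem ker_ex {p : Ideal A} {P : Ideal B} [Finite (B ⧸ P)] (h : P.comap (algebraMap A B) = p)
    (hc : Nat.card (B ⧸ P) = Nat.card (A ⧸ p)) : ∃ φ : B →ₐ[A] A ⧸ p, RingHom.ker φ = P := by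
  let f : (A ⧸ p) →ₐ[A] B ⧸ P := Ideal.quotientMapₐ P (Algebra.ofId A B) h.ge
  have hf : Function.Injective f := Ideal.quotientMap_injective' (f := algebraMap A B) (H := h.ge) h.le
  let e := AlgEquiv.ofBijective f (hf.bijective_of_nat_card_le hc.le)
  refine ⟨(e.symm : (B ⧸ P) →ₐ[A] A ⧸ p).comp (Ideal.Quotient.mkₐ A P), ?_⟩
  ext b
  rw [RingHom.mem_ker, AlgHom.comp_apply]
  change e.symm (Ideal.Quotient.mk P b) = 0 ↔ _
  rw [map_eq_zero_iff _ e.symm.injective]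
  exact Ideal.Quotient.eq_zero_iff_mem

end Gen

/-- roots in a field with `q` elements -/
theorem rts_eq {F : Type} [Field F] [Algebra ℤ F] {q : ℕ} (hq : q.Prime) (hF : Nat.card F = q)
    (P : ℤ[X]) :
    {r : F | aeval r P = 0}.ncard = rts P q := by
  have : Finite F := Nat.finite_of_card_ne_zero (hF ▸ hq.ne_zero)
  have := Fintype.ofFinite F
  have := Fact.mk hq
  have : CharP F q := charP_of_card_eq_prime (by rw [← Nat.card_eq_fintype_card, hF])
  have hinj : Set.InjOn (Nat.cast : ℕ → F) (range q : Finset ℕ) := by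
    rw [coe_range]; exact CharP.natCast_injOn_Iio F q
  have hsur : ∀ r : F, ∃ x ∈ range q, (x : F) = r := fun r => by
    have h1 : (range q).image (Nat.cast : ℕ → F) = univ := by
      apply eq_univ_of_card
      rw [card_image_of_injOn hinj, card_range, ← Nat.card_eq_fintype_card, hF]
    exact mem_image.1 (h1 ▸ mem_univ r)
  have hiff : ∀ x : ℕ, (q : ℤ) ∣ P.eval (x : ℤ) ↔ aeval (x : F) P = 0 := fun x => by
    rw [← CharP.intCast_eq_zero_iff F q, ← Int.cast_natCast (R := F) x,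
      ← eq_intCast (algebraMap ℤ F) (x : ℤ), aeval_def, eval₂_at_apply, eq_intCast]
  unfold rts
  rw [← Set.ncard_coe_finset]
  symm
  refine Set.ncard_congr (fun x _ => (x : F)) (fun x hx => ?_) (fun x y hx hy h => ?_)
    (fun r hr => ?_)
  · exact (hiff x).1 (mem_filter.1 hx).2
  · exact hinj (mem_filter.1 hx).1 (mem_filter.1 hy).1 h
  · obtain ⟨x, hx, rfl⟩ := hsur r
    exact ⟨x, mem_filter.2 ⟨hx, (hiff x).2 hr⟩, rfl⟩

theorem ncard_roots_le {A F : Type} [CommRing A] [Field F] [Algebra A F] {g : A[X]}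
    (hg : g.Monic) : {r : F | aeval r g = 0}.Finite ∧ {r : F | aeval r g = 0}.ncard ≤ g.natDegree := by
  have h0 : g.map (algebraMap A F) ≠ 0 := (hg.map _).ne_zero
  have e : {r : F | aeval r g = 0} = ((g.map (algebraMap A F)).roots.toFinset : Set F) := by
    ext r
    simp [h0, eval_map, aeval_def]
  rw [e, Set.ncard_coe_finset]
  exact ⟨Finset.finite_toSet _, (Multiset.toFinset_card_le _).trans
    ((card_roots' _).trans natDegree_map_le)⟩

variable {E E' : Type} [Field E] [NumberField E] [Field E'] [NumberField E'] [Algebra E E']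

theorem max_of {q : ℕ} (hq : q.Prime) {I : Ideal (𝓞 E)} (h : Ideal.absNorm I = q) :
    I.IsMaximal ∧ I ≠ ⊥ := by
  have h0 : I ≠ ⊥ := fun c => hq.ne_zero (by rw [← h, c, Ideal.absNorm_bot])
  exact ⟨(Ideal.isPrime_of_irreducible_absNorm (h ▸ hq)).isMaximal h0, h0⟩

theorem rel_eq {q : ℕ} (hq : q.Prime) {I : Ideal (𝓞 E')} (h : Ideal.absNorm I = q) :
    Ideal.relNorm (𝓞 E) I = I.comap (algebraMap (𝓞 E) (𝓞 E')) :=
  (max_of hq ((absNorm_rel I).trans h)).1.eq_of_le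
    (Ideal.comap_ne_top _ (max_of hq h).1.ne_top) (Ideal.relNorm_le_comap _ I)

theorem absNorm_card (I : Ideal (𝓞 E)) : Ideal.absNorm I = Nat.card (𝓞 E ⧸ I) := by
  rw [Ideal.absNorm_apply, Submodule.cardQuot_apply]

theorem over_fin (q : ℕ) (𝔭 : Ideal (𝓞 E)) : (Over E' q 𝔭).Finite :=
  (finite_absNorm (E := E') q).subset fun _ h => h.1

theorem over_le {q : ℕ} (hq : q.Prime) {𝔭 : Ideal (𝓞 E)} (h : Ideal.absNorm 𝔭 = q) :
    (Over E' q 𝔭).ncard ≤ Module.finrank E E' := by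
  obtain ⟨hm, h0⟩ := max_of hq h
  have : NoZeroSMulDivisors (𝓞 E) (𝓞 E') := ⟨fun {c x} e => by
    rw [Algebra.smul_def, mul_eq_zero,
      map_eq_zero_iff _ (FaithfulSMul.algebraMap_injective (𝓞 E) (𝓞 E'))] at e
    exact e⟩
  refine le_trans ?_ (Ideal.card_primesOverFinset_le_finrank (𝓞 E') E E' h0)
  rw [← Set.ncard_coe_finset]
  refine Set.ncard_le_ncard (fun I hI => ?_) (Finset.finite_toSet _)
  rw [IsDedekindDomain.coe_primesOverFinset h0]
  exact ⟨(max_of hq hI.1).1.isPrime, ⟨((rel_eq hq hI.1).symm.trans hI.2).symm⟩⟩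

theorem over_eq {q : ℕ} (hq : q.Prime) {𝔭 : Ideal (𝓞 E)} (h : Ideal.absNorm 𝔭 = q) {M : ℕ}
    (hM : ¬ q ∣ M) {x : 𝓞 E'} (hc : (M : 𝓞 E') ∈ conductor (𝓞 E) x) :
    (Over E' q 𝔭).ncard = {r : 𝓞 E ⧸ 𝔭 | aeval r (minpoly (𝓞 E) x) = 0}.ncard := by
  obtain ⟨hm, h0⟩ := max_of hq h
  let := Ideal.Quotient.field 𝔭
  have hcard : Nat.card (𝓞 E ⧸ 𝔭) = q := (absNorm_card 𝔭).symm.trans h
  have : Finite (𝓞 E ⧸ 𝔭) := Nat.finite_of_card_ne_zero (hcard ▸ hq.ne_zero)
  have := Fintype.ofFinite (𝓞 E ⧸ 𝔭)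
  have := Fact.mk hq
  have : CharP (𝓞 E ⧸ 𝔭) q :=
    charP_of_card_eq_prime (by rw [← Nat.card_eq_fintype_card, hcard])
  have hM0 : (M : 𝓞 E ⧸ 𝔭) ≠ 0 := fun c => hM ((CharP.cast_eq_zero_iff _ q M).1 c)
  have hMp : (M : 𝓞 E) ∉ 𝔭 := fun c => hM0 (by
    rw [← map_natCast (Ideal.Quotient.mk 𝔭)]; exact Ideal.Quotient.eq_zero_iff_mem.2 c)
  have hsup : (conductor (𝓞 E) x).comap (algebraMap (𝓞 E) (𝓞 E')) ⊔ 𝔭 = ⊤ := by
    by_contra c
    refine hMp (hm.eq_of_le c le_sup_right ▸ Ideal.mem_sup_left ?_)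
    rw [Ideal.mem_comap, map_natCast]
    exact hc
  have hint : IsIntegral (𝓞 E) x := Algebra.IsIntegral.isIntegral x
  choose φ hφ using fun (r : 𝓞 E ⧸ 𝔭) (hr : r ∈ {r : 𝓞 E ⧸ 𝔭 | aeval r (minpoly (𝓞 E) x) = 0}) =>
    hom_ex hint hsup hr
  symm
  refine Set.ncard_congr (fun r hr => RingHom.ker (φ r hr)) (fun r hr => ?_)
    (fun r s hr hs e => ?_) (fun I hI => ?_)
  · have h1 : Ideal.absNorm (RingHom.ker (φ r hr)) = q := by
      rw [absNorm_card, card_ker, hcard]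
    exact ⟨h1, (rel_eq hq h1).trans (comap_ker _)⟩
  · rw [← hφ r hr, ← hφ s hs]
    exact ker_inj e x
  · have h1 : Nat.card (𝓞 E' ⧸ I) = q := (absNorm_card I).symm.trans hI.1
    have : Finite (𝓞 E' ⧸ I) := Nat.finite_of_card_ne_zero (h1 ▸ hq.ne_zero)
    obtain ⟨ψ, hψ⟩ := ker_ex ((rel_eq hq hI.1).symm.trans hI.2) (h1.trans hcard.symm)
    have h2 : ψ x ∈ {r : 𝓞 E ⧸ 𝔭 | aeval r (minpoly (𝓞 E) x) = 0} := by
      change aeval (ψ x) _ = 0
      rw [aeval_algHom_apply, minpoly.aeval, map_zero]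
    exact ⟨ψ x, h2, by rw [hom_ext hM0 hc (hφ _ h2), hψ]⟩

theorem lam_rel (q : ℕ) (f : Ideal (𝓞 E) → ℂ) :
    lam (fun I : Ideal (𝓞 E') => f (Ideal.relNorm (𝓞 E) I)) q =
      ∑ᶠ 𝔭 ∈ {𝔭 : Ideal (𝓞 E) | Ideal.absNorm 𝔭 = q}, ((Over E' q 𝔭).ncard : ℂ) * f 𝔭 := by
  rw [lam_eq_sum, finsum_mem_eq_finite_toFinset_sum _ (finite_absNorm (E := E) q),
    ← sum_fiberwise_of_maps_to (t := (finite_absNorm (E := E) q).toFinset)
      (g := fun I : Ideal (𝓞 E') => Ideal.relNorm (𝓞 E) I) (fun I hI => by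
        rw [Set.Finite.mem_toFinset] at hI ⊢
        exact (absNorm_rel I).trans hI)]
  refine sum_congr rfl fun 𝔭 _ => ?_
  rw [sum_congr rfl (g := fun _ => f 𝔭) (fun I hI => by rw [(mem_filter.1 hI).2]), sum_const,
    nsmul_eq_mul, ← Set.ncard_coe_finset]
  congr 3
  ext I
  simp [Over]

end KD

theorem p_kD : S_KD := by
  intro E E' _ _ _ _ _ q hq
  refine ⟨KD.lam_rel q, fun 𝔭 h => ⟨KD.over_fin q 𝔭, KD.over_le hq h, ?_⟩⟩
  intro P M θ hm hS hM hθ hadj
  have hint : IsIntegral ℤ θ := ⟨P, hm, by rwa [← aeval_def]⟩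
  let x : 𝓞 E' := ⟨θ, hint⟩
  have hx : aeval x P = 0 := by
    apply FaithfulSMul.algebraMap_injective (𝓞 E') E'
    rw [← aeval_algebraMap_apply, map_zero]
    exact hθ
  have hxi : IsIntegral (𝓞 E) x := Algebra.IsIntegral.isIntegral x
  have h4 : aeval x (P.map (algebraMap ℤ (𝓞 E))) = 0 := by rwa [aeval_map_algebraMap]
  obtain ⟨R, hR⟩ := minpoly.isIntegrallyClosed_dvd hxi h4
  have h3 : aeval x (derivative (minpoly (𝓞 E) x)) ∈ conductor (𝓞 E) x := by
    apply Ideal.mul_le_left (J := differentIdeal (𝓞 E) (𝓞 E'))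
    rw [conductor_mul_differentIdeal (𝓞 E) E E' x hadj]
    exact Ideal.mem_span_singleton_self _
  have hc : (M : 𝓞 E') ∈ conductor (𝓞 E) x := by
    have e := congrArg (fun f => aeval x (derivative f)) hR
    simp only [derivative_map, aeval_map_algebraMap, derivative_mul, map_add, map_mul,
      minpoly.aeval, zero_mul, add_zero] at e
    obtain ⟨a, b, hab⟩ := hS
    have e2 := congrArg (aeval x) hab
    simp only [map_add, map_mul, hx, mul_zero, zero_add, aeval_C, map_natCast] at e2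
    rw [← e2, e]
    exact Ideal.mul_mem_left _ _ (Ideal.mul_mem_right _ _ h3)
  obtain ⟨hmax, h0⟩ := KD.max_of hq h
  let := Ideal.Quotient.field 𝔭
  have hcard : Nat.card (𝓞 E ⧸ 𝔭) = q := (KD.absNorm_card 𝔭).symm.trans h
  have hmin : minpoly E θ = (minpoly (𝓞 E) x).map (algebraMap (𝓞 E) E) :=
    minpoly.isIntegrallyClosed_eq_field_fractions E E' hxi
  have hmon := minpoly.monic hxi
  have hr := KD.rts_eq hq hcard P
  rw [KD.over_eq hq h hM hc]
  refine ⟨fun hirr => ?_, fun hn => ?_⟩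
  · have e1 : P.map (Int.castRingHom E) = minpoly E θ :=
      minpoly.eq_of_irreducible_of_monic hirr
        (by rw [← algebraMap_int_eq, aeval_map_algebraMap]; exact hθ) (hm.map _)
    have e2 : minpoly (𝓞 E) x = P.map (algebraMap ℤ (𝓞 E)) := by
      apply map_injective (algebraMap (𝓞 E) E) (FaithfulSMul.algebraMap_injective _ _)
      rw [← hmin, ← e1, Polynomial.map_map]
      congr 1
    rw [e2, ← hr]
    simp only [aeval_map_algebraMap]
  · have hdeg : (minpoly (𝓞 E) x).natDegree = Module.finrank E E' := by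
      rw [← hmon.natDegree_map (algebraMap (𝓞 E) E), ← hmin,
        ← Field.primitive_element_iff_minpoly_natDegree_eq]
      apply IntermediateField.toSubalgebra_injective
      rw [IntermediateField.adjoin_simple_toSubalgebra_of_isAlgebraic
        (Algebra.IsAlgebraic.isAlgebraic θ), hadj]
      rfl
    have hRm : R.Monic := hmon.of_mul_monic_left (hR ▸ hm.map _)
    have hd : P.natDegree = (minpoly (𝓞 E) x).natDegree + R.natDegree := by
      rw [← hmon.natDegree_mul hRm, ← hR, hm.natDegree_map]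
    obtain ⟨f1, l1⟩ := KD.ncard_roots_le (F := 𝓞 E ⧸ 𝔭) hmon
    obtain ⟨f2, l2⟩ := KD.ncard_roots_le (F := 𝓞 E ⧸ 𝔭) hRm
    have hu : {r : 𝓞 E ⧸ 𝔭 | aeval r P = 0} =
        {r : 𝓞 E ⧸ 𝔭 | aeval r (minpoly (𝓞 E) x) = 0} ∪ {r : 𝓞 E ⧸ 𝔭 | aeval r R = 0} := by
      ext r
      rw [Set.mem_union, Set.mem_ofPred_eq, Set.mem_ofPred_eq, Set.mem_ofPred_eq, ← mul_eq_zero,
        ← map_mul, ← hR, aeval_map_algebraMap]
    have h5 := Set.ncard_union_le {r : 𝓞 E ⧸ 𝔭 | aeval r (minpoly (𝓞 E) x) = 0}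
      {r : 𝓞 E ⧸ 𝔭 | aeval r R = 0}
    rw [← hu, hr, hn] at h5
    omega

end Pool.Agent.P.MP_b8021b_nt.VC
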