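import Pool.Agent.P.MP_b8021b_nt.VC.StG
import Pool.Agent.P.MP_b8021b_nt.VE.PRs4

/-! Smooth sums of a ray class character, for a given system of units. -/

namespace Pool.Agent.P.MP_b8021b_nt.VC

open NumberField Finset Pool.Agent.P.MP_b8021b_nt.VE Pool.Agent.P.MP_b8021b_nt.VE.Rs4
open scoped Classical ComplexConjugate

namespace PPS0

section

variable {K : Type} [Field K] [NumberField K]

/-- the weight of an ideal -/
noncomputable def gv (ψ : Ideal (𝓞 K) →* ℂ) (g : ℝ → ℝ) (d : ℕ) (Y : ℝ) (A : Ideal (𝓞 K)) : ℂ :=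
  if d ^ 2 ∣ Ideal.absNorm A then (g (Ideal.absNorm A / Y) : ℂ) * ψ A else 0

lemma sum_eq (ψ : Ideal (𝓞 K) →* ℂ) (g : ℝ → ℝ) (d N : ℕ) (Y : ℝ) :
    ∑ j ∈ range (N + 1) with d ^ 2 ∣ j, (g (j / Y) : ℂ) * lam ψ j =
      ∑ A ∈ Ids K N, gv ψ g d Y A := by
  rw [← sum_fiberwise_of_maps_to (s := Ids K N) (t := range (N + 1))
    (g := fun A => Ideal.absNorm A) (fun A hA => mem_range.2 (Nat.lt_succ_of_le (mem_Ids.1 hA))),
    sum_filter]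
  refine sum_congr rfl fun j hj => ?_
  have h1 : lam ψ j = ∑ A ∈ Ids K N with Ideal.absNorm A = j, ψ A := by
    rw [lam, ← finsum_mem_coe_finset]
    refine finsum_mem_congr ?_ fun _ _ => rfl
    ext A
    simp only [Set.mem_ofPred_eq, coe_filter, mem_Ids, iff_and_self]
    rintro rfl
    exact Nat.lt_succ_iff.1 (mem_range.1 hj)
  rw [h1]
  split_ifs with h
  · rw [mul_sum]
    refine sum_congr rfl fun A hA => ?_
    rw [gv, (mem_filter.1 hA).2, if_pos h]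
  · refine (sum_eq_zero fun A hA => ?_).symm
    rw [gv, (mem_filter.1 hA).2, if_neg h]

/-- unfolding of the sum over one ray class -/
lemma class_sum {m d : ℕ} (hm : 2 ≤ m) {ψ : Ideal (𝓞 K) →* ℂ} {g : ℝ → ℝ} {Y : ℝ} {J : ℂ}
    (hY : 0 < Y) (hg : ∀ x, g x ≠ 0 → x ≤ 3) {b w : 𝓞 K → ℂ} {𝔠 : Ideal (𝓞 K)}
    (h0 : 𝔠 ≠ ⊥) (hc : (Ideal.absNorm 𝔠).Coprime d)
    (hw0 : ∀ β : 𝓞 K, (m : 𝓞 K) ∣ β - 1 → w β = ψ (Ideal.span {β}) *
      (b β * g (Ideal.absNorm (Ideal.span {β}) / (Y * Ideal.absNorm 𝔠))))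
    (hfin : {β : 𝓞 K | w β ≠ 0}.Finite)
    (hJ : ∀ β₀ : 𝓞 K, β₀ ≠ 0 → (m : 𝓞 K) ∣ β₀ - 1 →
      ∑ᶠ β ∈ {β : 𝓞 K | Ideal.span {β₀} = Ideal.span {β} ∧ (m : 𝓞 K) ∣ β - 1}, b β = J) :
    ∑ β ∈ hfin.toFinset with β ∈ 𝔠 ∧ (m : 𝓞 K) ∣ β - 1 ∧ d ^ 2 ∣ Ideal.absNorm (Ideal.span {β}),
      w β = ψ 𝔠 * J * ∑ A ∈ Ids K ⌈3 * Y⌉₊ with Rel m 𝔠 A, gv ψ g d Y A := by
  have hN : (0 : ℝ) < Ideal.absNorm 𝔠 := by
    exact_mod_cast Nat.pos_of_ne_zero (mt Ideal.absNorm_eq_zero_iff.1 h0)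
  have hw : ∀ (A : Ideal (𝓞 K)) (β : 𝓞 K), (m : 𝓞 K) ∣ β - 1 → A * 𝔠 = Ideal.span {β} →
      w β = ψ 𝔠 * ((g (Ideal.absNorm A / Y) : ℂ) * ψ A) * b β := by
    intro A β h1 h2
    have h3 : (Ideal.absNorm (Ideal.span {β}) : ℝ) / (Y * Ideal.absNorm 𝔠) =
        Ideal.absNorm A / Y := by
      rw [← h2, map_mul]; push_cast; field_simp
    rw [hw0 β h1, h3, ← h2, map_mul]; ring
  have hd : ∀ (A : Ideal (𝓞 K)) (β : 𝓞 K), A * 𝔠 = Ideal.span {β} →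
      (d ^ 2 ∣ Ideal.absNorm (Ideal.span {β}) ↔ d ^ 2 ∣ Ideal.absNorm A) := by
    intro A β h2
    rw [← h2, map_mul]
    exact Nat.Coprime.dvd_mul_right (hc.symm.pow_left 2)
  let a : 𝓞 K → Ideal (𝓞 K) := fun β => if h : ∃ A, A * 𝔠 = Ideal.span {β} then h.choose else ⊥
  have ha : ∀ β ∈ 𝔠, a β * 𝔠 = Ideal.span {β} := by
    intro β hβ
    have h : ∃ A, A * 𝔠 = Ideal.span {β} := by
      obtain ⟨A, hA⟩ := Ideal.dvd_span_singleton.2 hβ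
      exact ⟨A, by rw [hA, mul_comm]⟩
    simp only [a, dif_pos h]; exact h.choose_spec
  rw [← sum_fiberwise_of_maps_to (t := (Ids K ⌈3 * Y⌉₊).filter (Rel m 𝔠)) (g := a), mul_sum]
  · refine sum_congr rfl fun A hA => ?_
    obtain ⟨β₀, hb1, hb2⟩ := (mem_filter.1 hA).2
    have hiff : ∀ β : 𝓞 K, (β ∈ 𝔠 ∧ a β = A) ↔ Ideal.span {β₀} = Ideal.span {β} := by
      intro β
      constructor
      · rintro ⟨h1, h2⟩; rw [← ha β h1, h2, hb2]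
      · intro h
        have h1 : β ∈ 𝔠 := Ideal.mul_le_right (I := A)
          (by rw [hb2, h]; exact Ideal.mem_span_singleton_self β)
        exact ⟨h1, mul_right_cancel₀ h0 (by rw [ha β h1, hb2, h])⟩
    by_cases hdA : d ^ 2 ∣ Ideal.absNorm A
    swap
    · rw [gv, if_neg hdA, mul_zero]
      refine sum_eq_zero fun β hβ => ?_
      simp only [mem_filter] at hβ
      exact absurd ((hd A β (by rw [← hβ.2]; exact ha β hβ.1.2.1)).1 hβ.1.2.2.2) hdA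
    rw [gv, if_pos hdA, ← hJ β₀ (ne_zero_of hm hb1) hb1]
    have e1 : ∑ᶠ β ∈ {β : 𝓞 K | Ideal.span {β₀} = Ideal.span {β} ∧ (m : 𝓞 K) ∣ β - 1}, w β =
        ∑ β ∈ (hfin.toFinset.filter fun β => β ∈ 𝔠 ∧ (m : 𝓞 K) ∣ β - 1 ∧
          d ^ 2 ∣ Ideal.absNorm (Ideal.span {β})) with a β = A, w β := by
      refine finsum_mem_eq_sum_of_inter_support_eq _ ?_
      ext β
      simp only [Set.mem_inter_iff, Set.mem_ofPred_eq, coe_filter, mem_filter,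
        Set.Finite.mem_toFinset, Function.mem_support, and_congr_left_iff]
      intro hβ
      constructor
      · rintro ⟨h1, h2⟩
        obtain ⟨h3, h4⟩ := (hiff β).2 h1
        exact ⟨⟨hβ, h3, h2, (hd A β (hb2.trans h1)).2 hdA⟩, h4⟩
      · rintro ⟨⟨-, h3, h2, -⟩, h4⟩
        exact ⟨(hiff β).1 ⟨h3, h4⟩, h2⟩
    rw [← e1, finsum_mem_congr rfl (fun β hβ => hw A β hβ.2 (hb2.trans hβ.1)), ← mul_finsum_mem]
    ring
  · intro β hβ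
    simp only [mem_filter, Set.Finite.mem_toFinset, Set.mem_ofPred_eq] at hβ
    obtain ⟨h1, h2, h3, -⟩ := hβ
    refine mem_filter.2 ⟨mem_Ids.2 ?_, β, h3, ha β h2⟩
    rw [hw _ β h3 (ha β h2)] at h1
    have h4 : g (Ideal.absNorm (a β) / Y) ≠ 0 := by
      intro h; apply h1; simp [h]
    have h6 : (Ideal.absNorm (a β) : ℝ) ≤ 3 * Y := by
      rw [← div_le_iff₀ hY]; exact hg _ h4
    exact_mod_cast h6.trans (Nat.le_ceil _)

/-- splitting into cosets -/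
lemma coset (K : Type) [Field K] [NumberField K] {d : ℕ} (hd : 1 ≤ d) :
    ∃ ρ : ℕ, ρ ≤ (d ^ 2) ^ Module.finrank ℚ K ∧ (d = 1 → ρ = 1) ∧
      ∀ (m : ℕ) (𝔠 : Ideal (𝓞 K)) (w : 𝓞 K → ℂ)
      (hw : {β | w β ≠ 0}.Finite) (c : ℂ) (e : ℝ), d.Coprime m → Cop (m * d) 𝔠 →
      (∀ β₀, ‖∑ᶠ β ∈ {β : 𝓞 K | β - β₀ ∈ 𝔠 * Ideal.span {((m * d ^ 2 : ℕ) : 𝓞 K)}}, w β - c‖ ≤ e) →
      ‖∑ β ∈ hw.toFinset with β ∈ 𝔠 ∧ (m : 𝓞 K) ∣ β - 1 ∧
        d ^ 2 ∣ Ideal.absNorm (Ideal.span {β}), w β - ρ * c‖ ≤ ρ * e := by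
  by_cases h : d = 1
  swap
  · obtain ⟨ρ, h1, h2⟩ := coset_sum K hd
    exact ⟨ρ, h1, fun h' => absurd h' h, h2⟩
  subst h
  refine ⟨1, by simp, fun _ => rfl, fun m 𝔠 w hw c e _ hc he => ?_⟩
  simp only [mul_one, one_pow] at hc he
  obtain ⟨x, hx, y, hy, hxy⟩ := Submodule.mem_sup.1 ((Ideal.eq_top_iff_one _).1 hc.sup_eq)
  have h1 : (m : 𝓞 K) ∣ x - 1 := by
    rw [← hxy, sub_add_cancel_left, dvd_neg]; exact Ideal.mem_span_singleton.1 hy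
  simp only [Nat.cast_one, one_mul]
  refine le_of_eq_of_le ?_ (he x)
  congr 2
  refine (finsum_mem_eq_sum_of_inter_support_eq _ ?_).symm
  ext β
  simp only [Set.mem_inter_iff, Set.mem_ofPred_eq, coe_filter,
    Set.Finite.mem_toFinset, Function.mem_support, and_congr_left_iff, one_pow, one_dvd, and_true]
  intro hβ
  rw [Ideal.mul_eq_inf_of_isCoprime hc, Ideal.mem_inf, Ideal.mem_span_singleton]
  constructor
  · rintro ⟨h4, h5⟩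
    refine ⟨hβ, by simpa using 𝔠.add_mem h4 hx, ?_⟩
    have := dvd_add h5 h1
    rwa [sub_add_sub_cancel] at this
  · rintro ⟨-, h4, h5⟩
    refine ⟨𝔠.sub_mem h4 hx, ?_⟩
    have := dvd_sub h5 h1
    rwa [sub_sub_sub_cancel_right] at this

omit [NumberField K] in
lemma gens (m : ℕ) (b : 𝓞 K → ℂ) {β₀ : 𝓞 K} (h0 : β₀ ≠ 0) (h1 : (m : 𝓞 K) ∣ β₀ - 1) :
    ∑ᶠ β ∈ {β : 𝓞 K | Ideal.span {β₀} = Ideal.span {β} ∧ (m : 𝓞 K) ∣ β - 1}, b β =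
      ∑ᶠ η ∈ {η : (𝓞 K)ˣ | (m : 𝓞 K) ∣ (η : 𝓞 K) - 1}, b (η * β₀) := by
  rw [← finsum_mem_image (f := b) (g := fun η : (𝓞 K)ˣ => (η : 𝓞 K) * β₀)
    fun a _ c _ h => Units.ext (mul_right_cancel₀ h0 h)]
  refine finsum_mem_congr ?_ fun _ _ => rfl
  ext β
  constructor
  · rintro ⟨h2, h3⟩
    obtain ⟨u, rfl⟩ := Ideal.span_singleton_eq_span_singleton.1 h2
    refine ⟨u, ?_, mul_comm _ _⟩
    have : (u : 𝓞 K) - 1 = (β₀ * u - 1) - u * (β₀ - 1) := by ring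
    show (m : 𝓞 K) ∣ u - 1
    rw [this]; exact dvd_sub h3 (h1.mul_left _)
  · rintro ⟨u, hu, rfl⟩
    refine ⟨Ideal.span_singleton_eq_span_singleton.2 ⟨u, mul_comm _ _⟩, ?_⟩
    have : u * β₀ - 1 = u * (β₀ - 1) + (u - 1) := by ring
    show (m : 𝓞 K) ∣ u * β₀ - 1
    rw [this]; exact dvd_add (h1.mul_left _) hu

omit [NumberField K] in
lemma split {m : ℕ} {ℛ : Finset (Ideal (𝓞 K))} (h : ∀ 𝔟, Cop m 𝔟 → ∃! 𝔠, 𝔠 ∈ ℛ ∧ Rel m 𝔠 𝔟)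
    (f : Ideal (𝓞 K) → ℂ) (s : Finset (Ideal (𝓞 K))) (hf : ∀ A, ¬ Cop m A → f A = 0) :
    ∑ A ∈ s, f A = ∑ 𝔠 ∈ ℛ, ∑ A ∈ s with Rel m 𝔠 A, f A := by
  simp only [sum_filter]
  rw [sum_comm]
  refine sum_congr rfl fun A _ => ?_
  by_cases hA : Cop m A
  · obtain ⟨𝔠, ⟨h1, h2⟩, h3⟩ := h A hA
    rw [sum_eq_single_of_mem 𝔠 h1 fun 𝔡 h4 h5 => if_neg fun h6 => h5 (h3 𝔡 ⟨h4, h6⟩), if_pos h2]
  · simp [hf A hA]

end

lemma ty0 {ι : Type} [Fintype ι] (z : ι → ℂ) : ty 0 0 z = 1 := by simp [ty]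

theorem key (hEmb : S_Emb) (hRep : S_Rep2) (hPart : S_Part) (hWin : S_Win2)
    (k : Type) [Field k] [NumberField k] [Algebra k ℂ] (K : BF k) (D : ℕ) : ∃ C : ℕ,
    ∀ (E : Type) [Field E] [NumberField E] [Algebra k E], Module.finrank k E = D →
      ∀ (Q : ℝ) (n : ℕ) (ℓ : ℝ) (U : UB k E n ℓ) (g : ℝ → ℝ) (Λ Y : ℝ), 2 ≤ Q → Small k E Q →
        2 ≤ n → Bump g Λ → 1 ≤ Y →
        ∀ (d : ℕ) (Kb : ℝ) (κ : Emb k E → ℤ) (τ : Emb k E → ℝ) (χ : Ideal (𝓞 E) →* ℂ), 1 ≤ d →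
          1 ≤ Kb → (∀ φ, |(κ φ : ℝ)| ≤ Kb) → (∀ φ, |τ φ| ≤ Kb) → IsH k n κ τ χ → d.Coprime n →
          ∃ (ρ : ℕ) (s : ℂ), (d = 1 → ρ = 1) ∧ (IsTriv n χ → s = hn k E n) ∧
            (IsH k n 0 0 χ → ¬ IsTriv n χ → s = 0) ∧
          ‖∑ j ∈ range (⌈3 * Y⌉₊ + 1) with d ^ 2 ∣ j, (g (j / Y) : ℂ) * lam χ j -
            s * (ρ * (if κ = 0 ∧ τ = 0 then (((U.vol * Y * ∫ x, g x) /
              ((n * d ^ 2 : ℝ) ^ (2 * D) * cov2 k E) : ℝ) : ℂ) else 0) / U.j0)‖ ≤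
            (Q * n * d * ℓ * Kb) ^ C * Λ * Y ^ (1 - 1 / (2 * D) : ℝ) := by
  obtain ⟨CE, hE⟩ := hEmb k K D
  obtain ⟨CR, hR⟩ := hRep k K D
  obtain ⟨CW, hW⟩ := hWin k K D
  refine ⟨CR + (4 * D + ((1 + CR + 4 * D) * CW + CR)),
    fun E _ _ _ hD Q n ℓ U g Λ Y hQ hS hn hg hY d Kb κ τ χ hd hK hκ hτ hχ hdn => ?_⟩
  obtain ⟨-, hdeg, hD1, hnz, -⟩ := hE E hD
  obtain ⟨-, -, hh, ℛ, hcard, h𝔠, huniq, hzero, -⟩ := hR E hD Q n d hQ hS hn hd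
  obtain ⟨-, -, hfin0, hJ1, hJ⟩ := hPart k K E n ℓ U
  obtain ⟨ρ, hρ, hρ1, hcos⟩ := coset E hd
  rw [hdeg] at hρ
  have hY0 : 0 < Y := by linarith
  have hΛ : 0 ≤ Λ := zero_le_one.trans hg.one_le
  have hℓ := U.one_le
  have hn' : (2 : ℝ) ≤ n := by exact_mod_cast hn
  have hd' : (1 : ℝ) ≤ d := by exact_mod_cast hd
  have hz : ∀ A, ¬ Cop n A → gv χ g d Y A = 0 := fun A hA => by simp [gv, hχ.zero A hA]
  have hTr : U.Tr κ τ := fun j => by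
    rw [← hχ.prin _ (U.cong j), Ideal.span_singleton_eq_top.2 (U.ε j).isUnit, ← Ideal.one_eq_top,
      map_one]
  have hcn : ∀ 𝔠 ∈ ℛ, Cop n 𝔠 := fun 𝔠 h =>
    (cop_iff _ _).2 ((cop_iff _ _).1 (h𝔠 𝔠 h).1).coprime_mul_right_right
  refine ⟨ρ, ∑ 𝔠 ∈ ℛ, (χ 𝔠)⁻¹, hρ1, fun ht => ?_, fun h0 ht => ?_, ?_⟩
  · rw [sum_congr rfl fun 𝔠 h => by rw [ht 𝔠 (hcn 𝔠 h), inv_one], sum_const, hcard, nsmul_one]
  · rw [sum_congr rfl fun 𝔠 h => Complex.inv_eq_conj (hχ.norm_cop 𝔠 (hcn 𝔠 h)), ← map_sum,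
      hzero χ h0 ht, map_zero]
  generalize hc : (if κ = 0 ∧ τ = 0 then (((U.vol * Y * ∫ x, g x) /
    ((n * d ^ 2 : ℝ) ^ (2 * D) * cov2 k E) : ℝ) : ℂ) else 0) = c
  obtain ⟨P, hP⟩ : ∃ P, P = Q * n * d * ℓ * Kb := ⟨_, rfl⟩
  rw [← hP]
  have hP1 : Q * n * d ≤ P := by
    rw [hP, mul_assoc _ ℓ]
    exact le_mul_of_one_le_right (by positivity) (one_le_mul_of_one_le_of_one_le hℓ hK)
  have hP2 : Q * n ≤ P := (le_mul_of_one_le_right (by positivity) hd').trans hP1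
  have hP3 : (n : ℝ) * d ≤ P := by
    refine le_trans ?_ hP1
    rw [mul_assoc]; exact le_mul_of_one_le_left (by positivity) (by linarith)
  have hP4 : Q * ℓ * Kb ≤ P := by
    rw [hP, show Q * n * d * ℓ * Kb = Q * ℓ * Kb * (n * d) by ring]
    exact le_mul_of_one_le_right (by positivity) (by nlinarith)
  have hP5 : 4 ≤ P := by nlinarith
  have hP6 : (d : ℝ) ≤ P := (le_mul_of_one_le_left (by positivity) (by linarith)).trans hP3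
  have hX : (Q * n * d) ^ CR ≤ P ^ CR := by gcongr
  obtain ⟨N, hN0⟩ : ∃ N : ℕ, N = Ideal.absNorm (Ideal.span {((n * d ^ 2 : ℕ) : 𝓞 E)}) := ⟨_, rfl⟩
  have hn1 : (N : ℝ) = (n * d ^ 2) ^ (2 * D) := by
    rw [hN0, Ideal.absNorm_span_natCast, RingOfIntegers.rank, hdeg]; push_cast; rfl
  have hn2 : (N : ℝ) ≤ P ^ (4 * D) := by
    rw [hn1]
    calc ((n : ℝ) * d ^ 2) ^ (2 * D) = ((n * d) * d) ^ (2 * D) := by ring
      _ ≤ (P * P) ^ (2 * D) := by gcongr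
      _ = P ^ (4 * D) := by ring
  have hn0 : N ≠ 0 := by
    have : (N : ℝ) ≠ 0 := by rw [hn1]; positivity
    exact_mod_cast this
  have hρ' : (ρ : ℝ) ≤ P ^ (4 * D) := by
    calc (ρ : ℝ) ≤ ((d ^ 2) ^ (2 * D) : ℕ) := by exact_mod_cast hρ
      _ = (d : ℝ) ^ (4 * D) := by push_cast; ring
      _ ≤ P ^ (4 * D) := by gcongr
  obtain ⟨e, he⟩ : ∃ e, e = (P ^ (1 + CR + 4 * D)) ^ CW * Λ *
    (P ^ CR * Y ^ (1 - 1 / (2 * D) : ℝ)) := ⟨_, rfl⟩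
  have he0 : 0 ≤ e := by rw [he]; positivity
  have key : ∀ 𝔠 ∈ ℛ, ‖∑ A ∈ Ids E ⌈3 * Y⌉₊ with Rel n 𝔠 A, gv χ g d Y A -
      (χ 𝔠)⁻¹ * (ρ * c / U.j0)‖ ≤ P ^ (4 * D) * e := by
    intro 𝔠 h𝔠'
    obtain ⟨h1, h2⟩ := h𝔠 𝔠 h𝔠'
    have h0 := ne_bot_of hn (hcn 𝔠 h𝔠')
    have hN : (1 : ℝ) ≤ Ideal.absNorm 𝔠 := by
      exact_mod_cast Nat.pos_of_ne_zero (mt Ideal.absNorm_eq_zero_iff.1 h0)
    have hZ : 1 ≤ Y * Ideal.absNorm 𝔠 := one_le_mul_of_one_le_of_one_le hY hN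
    have hfin : {β : 𝓞 E | ty κ τ (emb k β) * (U.β (emb k β) *
        g (nz (emb k β) / (Y * Ideal.absNorm 𝔠)) : ℝ) ≠ 0}.Finite := by
      refine (hfin0 (3 * (Y * Ideal.absNorm 𝔠))).subset fun β hβ => ?_
      have h3 := Complex.ofReal_ne_zero.1 (right_ne_zero_of_mul hβ)
      exact ⟨left_ne_zero_of_mul h3,
        (div_le_iff₀ (by positivity)).1 (hg.supp _ (right_ne_zero_of_mul h3)).2⟩
    have h3 := (cop_iff _ _).1 h1
    have h4 := class_sum (ψ := χ) (b := fun β => (U.β (emb k β) : ℂ)) (J := U.j0) hn hY0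
      (fun x hx => (hg.supp x hx).2) h0 h3.coprime_mul_left_right
      (fun β hβ => by rw [hχ.prin β hβ, hnz, Complex.ofReal_mul]) hfin fun β₀ a1 a2 => by
        have := hJ 0 0 β₀ a1 fun j => ty0 _
        simp only [ty0, mul_one, implies_true, if_true] at this
        rw [gens n _ a1 a2, this]
    have hb : Ideal.absNorm (𝔠 * Ideal.span {((n * d ^ 2 : ℕ) : 𝓞 E)}) =
        Ideal.absNorm 𝔠 * N := by rw [map_mul, hN0]
    have h5 := hcos n 𝔠 _ hfin c e hdn h1 fun β₀ => by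
      have h6 := hW E hD Q n ℓ U g Λ _ Kb κ τ (𝔠 * Ideal.span {((n * d ^ 2 : ℕ) : 𝓞 E)}) β₀ hQ hS hg
        hZ hK hκ hτ hχ.sum hTr (by
        rw [Ne, ← Ideal.absNorm_eq_zero_iff, hb]
        exact mul_ne_zero (mt Ideal.absNorm_eq_zero_iff.1 h0) hn0)
      rw [hb] at h6
      have h7 : (U.vol * (Y * Ideal.absNorm 𝔠) * ∫ x, g x) /
          ((Ideal.absNorm 𝔠 * N : ℕ) * cov2 k E) =
          (U.vol * Y * ∫ x, g x) / ((n * d ^ 2 : ℝ) ^ (2 * D) * cov2 k E) := by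
        rw [← hn1, Nat.cast_mul, mul_assoc _ (N : ℝ),
          ← mul_div_mul_left _ (N * cov2 k E) (zero_lt_one.trans_le hN).ne']
        congr 1
        ring
      rw [h7, hc] at h6
      refine h6.trans ?_
      rw [he]
      have h8 : (Ideal.absNorm 𝔠 : ℝ) ≤ P ^ CR := h2.trans hX
      refine mul_le_mul (mul_le_mul_of_nonneg_right (pow_le_pow_left₀ (by positivity) ?_ _) hΛ) ?_
        (by positivity) (by positivity)
      · push_cast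
        calc Q * (Ideal.absNorm 𝔠 * N) * ℓ * Kb = (Q * ℓ * Kb) * (Ideal.absNorm 𝔠 * N) := by ring
          _ ≤ P * (P ^ CR * P ^ (4 * D)) := by gcongr
          _ = P ^ (1 + CR + 4 * D) := by ring
      · rw [Real.mul_rpow hY0.le (by positivity), mul_comm]
        gcongr
        refine le_trans ?_ h8
        simpa using Real.rpow_le_rpow_of_exponent_le hN
          (show (1 - 1 / (2 * D) : ℝ) ≤ 1 from sub_le_self _ (by positivity))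
    have h6 : ‖χ 𝔠‖ = 1 := hχ.norm_cop _ (hcn 𝔠 h𝔠')
    have h7 : χ 𝔠 ≠ 0 := norm_ne_zero_iff.1 (by rw [h6]; exact one_ne_zero)
    have h8 : (U.j0 : ℂ) ≠ 0 := by exact_mod_cast (by linarith : U.j0 ≠ 0)
    rw [h4] at h5
    generalize ∑ A ∈ Ids E ⌈3 * Y⌉₊ with Rel n 𝔠 A, gv χ g d Y A = T at h5 ⊢
    have h9 : T - (χ 𝔠)⁻¹ * (ρ * c / U.j0) =
        (χ 𝔠)⁻¹ * (U.j0 : ℂ)⁻¹ * (χ 𝔠 * U.j0 * T - ρ * c) := by field_simp
    rw [h9, norm_mul, norm_mul, norm_inv, norm_inv, h6, inv_one, one_mul, Complex.norm_real,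
      Real.norm_of_nonneg (by linarith)]
    calc _ ≤ 1 * (ρ * e) :=
          mul_le_mul (inv_le_one_of_one_le₀ hJ1) h5 (norm_nonneg _) zero_le_one
      _ ≤ P ^ (4 * D) * e := by rw [one_mul]; gcongr
  rw [sum_eq, split huniq _ _ hz, sum_mul, ← sum_sub_distrib]
  refine (norm_sum_le _ _).trans ((sum_le_card_nsmul _ _ _ key).trans ?_)
  rw [nsmul_eq_mul, hcard]
  calc (VC.hn k E n : ℝ) * (P ^ (4 * D) * e) ≤ P ^ CR * (P ^ (4 * D) * e) := by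
        gcongr
        exact hh.trans (by gcongr)
    _ = _ := by rw [he, ← pow_mul]; ring

end PPS0

open PPS0 in
theorem p_pS0 (hEmb : S_Emb) (hRep2 : S_Rep2) (hPart : S_Part) (hWin2 : S_Win2) : S_PS0 := by
  intro k _ _ _ K D
  obtain ⟨C, hC⟩ := key hEmb hRep2 hPart hWin2 k K D
  refine ⟨C, fun E _ _ _ hD Q n ℓ U g Λ Y hQ hS hn hg hY => ⟨?_, ?_⟩⟩
  · have ht : IsTriv n (triv E n) := fun I hI => if_pos hI
    obtain ⟨ρ, s, h1, h2, -, h3⟩ := hC E hD Q n ℓ U g Λ Y hQ hS hn hg hY 1 1 0 0 (triv E n) le_rfl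
      le_rfl (by simp) (by simp)
      ⟨⟨fun I hI => by rw [ht I hI, norm_one], fun I hI => if_neg hI⟩, by simp,
        fun α hα => by rw [ht _ (cop_span hα), ty0]⟩ (Nat.coprime_one_left n)
    simp only [one_pow, one_dvd, filter_true, Nat.cast_one, mul_one, h1 rfl, h2 ht, one_mul,
      and_self, if_true] at h3
    refine le_of_eq_of_le ?_ h3
    congr 2
    rw [UB.ρ]
    push_cast
    simp only [div_eq_mul_inv, mul_inv, inv_inv]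
    ring
  · intro d Kb κ τ χ hd hK hκ hτ hχ ht
    by_cases hdn : d.Coprime n
    · obtain ⟨ρ, s, -, -, h2, h3⟩ := hC E hD Q n ℓ U g Λ Y hQ hS hn hg hY d Kb κ τ χ hd hK hκ hτ hχ
        hdn
      by_cases h0 : κ = 0 ∧ τ = 0
      · rwa [h2 (h0.1 ▸ h0.2 ▸ hχ) ht, zero_mul, sub_zero] at h3
      · rwa [if_neg h0, mul_zero, zero_div, mul_zero, sub_zero] at h3
    · rw [PPS0.sum_eq, sum_eq_zero, norm_zero]
      · have := U.one_le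
        have := hg.one_le
        positivity
      intro A _
      by_cases h : d ^ 2 ∣ Ideal.absNorm A
      · rw [gv, hχ.zero A fun hA => hdn (Nat.Coprime.coprime_dvd_left
          ((dvd_pow_self d two_ne_zero).trans h) ((cop_iff _ _).1 hA)), mul_zero, ite_self]
      · rw [gv, if_neg h]

end Pool.Agent.P.MP_b8021b_nt.VC
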