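import Pool.Agent.P.MP_b8021b_nt.VC.StG
import Pool.Agent.P.MP_b8021b_nt.VC.BasicN
import Pool.Agent.P.MP_b8021b_nt.VE.StN

/-! Sharp sums of a character, and the density of the ideals coprime to `n`. -/

namespace Pool.Agent.P.MP_b8021b_nt.VC

open NumberField Finset MeasureTheory Filter Pool.Agent.P.MP_b8021b_nt.VE
open scoped Classical Topology

namespace PSs

lemma cl_nonneg (v : ℝ) : 0 ≤ clamp v := le_max_left _ _

lemma cl_le (v : ℝ) : clamp v ≤ 1 := max_le zero_le_one (min_le_left _ _)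

lemma cl_zero {v : ℝ} (h : v ≤ 0) : clamp v = 0 := max_eq_left ((min_le_right _ _).trans h)

lemma cl_one {v : ℝ} (h : 1 ≤ v) : clamp v = 1 := by
  rw [clamp, min_eq_left h, max_eq_right zero_le_one]

lemma cl_mono {v w : ℝ} (h : v ≤ w) : clamp v ≤ clamp w :=
  max_le_max le_rfl (min_le_min le_rfl h)

lemma cl_lip (v w : ℝ) : |clamp v - clamp w| ≤ |v - w| := by
  refine (abs_max_sub_max_le_max _ _ _ _).trans (max_le (by simp) ?_)
  exact (abs_min_sub_min_le_max _ _ _ _).trans (max_le (by simp) le_rfl)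

/-- the trapezoid -/
noncomputable def tr (Λ x : ℝ) : ℝ := clamp (Λ * (x - 1)) - clamp (Λ * (x - 2))

/-- the strip around `c` -/
noncomputable def sp (Λ c x : ℝ) : ℝ := clamp (2 - Λ * |x - c|)

variable {Λ : ℝ}

lemma tr_nonneg (h : 3 ≤ Λ) (x : ℝ) : 0 ≤ tr Λ x := sub_nonneg.2 (cl_mono (by nlinarith))

lemma tr_le (x : ℝ) : tr Λ x ≤ 1 := by
  have := cl_le (Λ * (x - 1))
  have := cl_nonneg (Λ * (x - 2))
  unfold tr; linarith

lemma tr_lo (h : 3 ≤ Λ) {x : ℝ} (hx : x ≤ 1) : tr Λ x = 0 := by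
  rw [tr, cl_zero (by nlinarith), cl_zero (by nlinarith), sub_self]

lemma tr_hi (h : 3 ≤ Λ) {x : ℝ} (hx : 2 + 1 / Λ ≤ x) : tr Λ x = 0 := by
  have e : Λ * (1 / Λ) = 1 := by field_simp
  rw [tr, cl_one (by nlinarith), cl_one (by nlinarith), sub_self]

lemma tr_mid (h : 3 ≤ Λ) {x : ℝ} (hx : 1 + 1 / Λ ≤ x) (hx' : x ≤ 2) : tr Λ x = 1 := by
  have e : Λ * (1 / Λ) = 1 := by field_simp
  rw [tr, cl_one (by nlinarith), cl_zero (by nlinarith), sub_zero]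

lemma inv_le (h : 3 ≤ Λ) : 0 < 1 / Λ ∧ 1 / Λ ≤ 1 / 3 :=
  ⟨by positivity, one_div_le_one_div_of_le (by norm_num) h⟩

lemma bump_tr (h : 3 ≤ Λ) : Bump (tr Λ) (2 * Λ) where
  one_le := by linarith
  abs_le x := by rw [abs_of_nonneg (tr_nonneg h x)]; exact tr_le x
  lip x x' := by
    have a := cl_lip (Λ * (x - 1)) (Λ * (x' - 1))
    have b := cl_lip (Λ * (x - 2)) (Λ * (x' - 2))
    rw [← mul_sub, sub_sub_sub_cancel_right, abs_mul, abs_of_nonneg (by linarith : 0 ≤ Λ)] at a b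
    rw [tr, tr, sub_sub_sub_comm]
    exact (abs_sub _ _).trans (by linarith)
  supp x hx := by
    have := inv_le h
    constructor <;> by_contra e
    · exact hx (tr_lo h (by linarith))
    · exact hx (tr_hi h (by linarith))

lemma sp_zero (h : 3 ≤ Λ) {c x : ℝ} (hx : 2 * (1 / Λ) ≤ |x - c|) : sp Λ c x = 0 := by
  have e : Λ * (1 / Λ) = 1 := by field_simp
  exact cl_zero (by nlinarith)

lemma sp_one (h : 3 ≤ Λ) {c x : ℝ} (hx : |x - c| ≤ 1 / Λ) : sp Λ c x = 1 := by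
  have e : Λ * (1 / Λ) = 1 := by field_simp
  exact cl_one (by nlinarith)

lemma bump_sp (h : 3 ≤ Λ) {c : ℝ} (h1 : 1 ≤ c) (h2 : c ≤ 2) : Bump (sp Λ c) Λ where
  one_le := by linarith
  abs_le x := by rw [sp, abs_of_nonneg (cl_nonneg _)]; exact cl_le _
  lip x x' := by
    refine (cl_lip _ _).trans ?_
    rw [sub_sub_sub_cancel_left, ← mul_sub, abs_mul, abs_of_nonneg (by linarith : 0 ≤ Λ)]
    refine mul_le_mul_of_nonneg_left ((abs_abs_sub_abs_le _ _).trans_eq ?_) (by linarith)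
    rw [sub_sub_sub_cancel_right, abs_sub_comm]
  supp x hx := by
    have := inv_le h
    have a := abs_lt.1 (not_le.1 fun e => hx (sp_zero h e))
    constructor <;> linarith [a.1, a.2]

lemma int_ind {p q : ℝ} (h : p ≤ q) :
    Integrable ((Set.Icc p q).indicator (1 : ℝ → ℝ)) ∧
      ∫ x, (Set.Icc p q).indicator (1 : ℝ → ℝ) x = q - p :=
  ⟨(integrable_indicator_iff measurableSet_Icc).2 (integrableOn_const (by simp)),
    by rw [integral_indicator_one measurableSet_Icc, Real.volume_real_Icc_of_le h]⟩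

lemma int_le {g : ℝ → ℝ} {L p q : ℝ} (hg : Bump g L) (h : p ≤ q)
    (h' : ∀ x, x < p ∨ q < x → g x = 0) : ∫ x, g x ≤ q - p := by
  rw [← (int_ind h).2]
  refine integral_mono (hg.continuous.integrable_of_hasCompactSupport hg.compact) (int_ind h).1
    fun x => ?_
  by_cases hx : x ∈ Set.Icc p q
  · rw [Set.indicator_of_mem hx]; exact (le_abs_self _).trans (hg.abs_le x)
  · rw [Set.indicator_of_notMem hx, h' x (by simpa [not_and_or, -not_and] using hx)]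

lemma int_tr (h : 3 ≤ Λ) : |(∫ x, tr Λ x) - 1| ≤ 1 / Λ := by
  obtain ⟨a, b⟩ := inv_le h
  have h1 := int_le (bump_tr h) (p := 1) (q := 2 + 1 / Λ) (by linarith)
    fun x hx => hx.elim (fun e => tr_lo h e.le) fun e => tr_hi h e.le
  have h2 := int_ind (p := 1 + 1 / Λ) (q := 2) (by linarith)
  have h3 := integral_mono h2.1
    ((bump_tr h).continuous.integrable_of_hasCompactSupport (bump_tr h).compact) fun x => by
      by_cases hx : x ∈ Set.Icc (1 + 1 / Λ) 2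
      · rw [Set.indicator_of_mem hx, tr_mid h hx.1 hx.2]; rfl
      · rw [Set.indicator_of_notMem hx]; exact tr_nonneg h x
  rw [h2.2] at h3
  exact abs_le.2 ⟨by linarith, by linarith⟩

lemma int_sp (h : 3 ≤ Λ) {c : ℝ} (h1 : 1 ≤ c) (h2 : c ≤ 2) : |∫ x, sp Λ c x| ≤ 4 * (1 / Λ) := by
  obtain ⟨a, b⟩ := inv_le h
  rw [abs_of_nonneg (integral_nonneg fun x => cl_nonneg _)]
  refine (int_le (bump_sp h h1 h2) (p := c - 2 * (1 / Λ)) (q := c + 2 * (1 / Λ)) (by linarith)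
    fun x hx => sp_zero h (le_abs.2 ?_)).trans_eq (by ring)
  rcases hx with e | e
  · right; linarith
  · left; linarith

lemma ind_tr (h : 3 ≤ Λ) (x : ℝ) :
    |(if 1 < x ∧ x ≤ 2 then 1 else 0) - tr Λ x| ≤ sp Λ 1 x + sp Λ 2 x := by
  obtain ⟨a, b⟩ := inv_le h
  have s1 : 0 ≤ sp Λ 1 x := cl_nonneg _
  have s2 : 0 ≤ sp Λ 2 x := cl_nonneg _
  have t1 := tr_nonneg h x
  have t2 := tr_le (Λ := Λ) x
  split_ifs with hx
  · by_cases e : 1 + 1 / Λ ≤ x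
    · rw [tr_mid h e hx.2, sub_self, abs_zero]; positivity
    · rw [sp_one h (abs_le.2 ⟨by linarith [hx.1], by linarith⟩), abs_le]
      constructor <;> linarith
  · by_cases e : x ≤ 1
    · rw [tr_lo h e, sub_self, abs_zero]; positivity
    by_cases e' : 2 + 1 / Λ ≤ x
    · rw [tr_hi h e', sub_self, abs_zero]; positivity
    have : 2 < x := not_le.1 fun c => hx ⟨not_le.1 e, c⟩
    rw [sp_one h (c := 2) (abs_le.2 ⟨by linarith, by linarith⟩), abs_le]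
    constructor <;> linarith

/-- the smooth estimate -/
def Sm (a : ℕ → ℂ) (r B θ : ℝ) : Prop := ∀ (g : ℝ → ℝ) (L Y : ℝ), Bump g L → 1 ≤ Y →
  ‖∑ j ∈ range (⌈3 * Y⌉₊ + 1), (g (j / Y) : ℂ) * a j - ((r * Y * ∫ x, g x : ℝ) : ℂ)‖ ≤
    B * L * Y ^ (1 - θ)

variable {a : ℕ → ℂ} {b : ℕ → ℝ} {r R B B' θ : ℝ}

lemma Sm.mono (h : Sm a r B θ) (h' : B ≤ B') : Sm a r B' θ := fun g L Y hg hY =>
  (h g L Y hg hY).trans (by have := hg.one_le; gcongr)

lemma Sm.real (h : Sm (fun j => b j) R B θ) {g : ℝ → ℝ} {L Y : ℝ} (hg : Bump g L) (hY : 1 ≤ Y) :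
    |∑ j ∈ range (⌈3 * Y⌉₊ + 1), g (j / Y) * b j - R * Y * ∫ x, g x| ≤ B * L * Y ^ (1 - θ) := by
  have := h g L Y hg hY
  rwa [← Real.norm_eq_abs, ← Complex.norm_real, Complex.ofReal_sub, Complex.ofReal_sum,
    sum_congr rfl fun j _ => Complex.ofReal_mul _ _]

lemma Sm.bound (h : Sm (fun j => b j) R B θ) : |R| ≤ 9 * B + 2 * |b 2| := by
  have h1 := h.real (bump_tr le_rfl) le_rfl
  have h2 := abs_le.1 (int_tr le_rfl)
  have e : ⌈(3 : ℝ) * 1⌉₊ + 1 = 4 := by norm_num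
  rw [e] at h1
  simp only [sum_range_succ, sum_range_zero, div_one, Real.one_rpow, mul_one] at h1
  rw [tr_lo (x := (0 : ℕ)) le_rfl (by norm_num), tr_lo (x := (1 : ℕ)) le_rfl (by norm_num),
    tr_mid (x := (2 : ℕ)) le_rfl (by norm_num) (by norm_num),
    tr_hi (x := (3 : ℕ)) le_rfl (by norm_num)] at h1
  have h3 : |R * ∫ x, tr 3 x| ≤ |(b 2 : ℝ)| + B * (2 * 3) := by
    have := abs_sub_abs_le_abs_sub (R * ∫ x, tr 3 x) (b 2)
    rw [abs_sub_comm] at this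
    simp only [zero_mul, zero_add, add_zero, one_mul] at h1
    linarith
  rw [abs_mul, abs_of_nonneg (show 0 ≤ ∫ x, tr 3 x by linarith [h2.1])] at h3
  nlinarith [abs_nonneg R, abs_nonneg (b 2), h2.1]

lemma block (ha : Sm a r B (2 * θ)) (hb : Sm (fun j => b j) R B (2 * θ)) (hab : ∀ j, ‖a j‖ ≤ b j)
    (hθ : 0 ≤ θ) {Y : ℝ} (hY : 1 ≤ Y) :
    ‖∑ j ∈ range (⌈3 * Y⌉₊ + 1), (if 1 < j / Y ∧ j / Y ≤ 2 then a j else 0) - (r * Y : ℝ)‖ ≤
      (3 * |R| + |r| + 12 * B) * Y ^ (1 - θ) := by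
  have hY0 : 0 < Y := by linarith
  have h1 : 1 ≤ Y ^ θ := Real.one_le_rpow hY hθ
  have hΛ : 3 ≤ 3 * Y ^ θ := by linarith
  have e1 : Y ^ θ * Y ^ (1 - 2 * θ) = Y ^ (1 - θ) := by
    rw [← Real.rpow_add hY0]; congr 1; ring
  have e2 : Y * (1 / (3 * Y ^ θ)) = Y ^ (1 - θ) / 3 := by
    rw [Real.rpow_sub hY0, Real.rpow_one]; field_simp
  have e3 : 0 < Y ^ (1 - θ) := by positivity
  generalize Y ^ θ = u at *
  have k1 := ha _ _ Y (bump_tr hΛ) hY
  have k2 : ∀ c : ℝ, 1 ≤ c → c ≤ 2 → ∑ j ∈ range (⌈3 * Y⌉₊ + 1), sp (3 * u) c (j / Y) * b j ≤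
      (4 / 3 * |R| + 3 * B) * Y ^ (1 - θ) := fun c c1 c2 => by
    have a1 := (abs_le.1 (hb.real (bump_sp hΛ c1 c2) hY)).2
    have a2 : R * Y * ∫ x, sp (3 * u) c x ≤ |R| * Y * (4 * (1 / (3 * u))) := by
      refine (le_abs_self _).trans ?_
      rw [abs_mul, abs_mul, abs_of_pos hY0]
      exact mul_le_mul_of_nonneg_left (int_sp hΛ c1 c2) (by positivity)
    have a3 : |R| * Y * (4 * (1 / (3 * u))) = 4 / 3 * |R| * Y ^ (1 - θ) := by
      linear_combination (4 * |R|) * e2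
    have a4 : B * (3 * u) * Y ^ (1 - 2 * θ) = 3 * B * Y ^ (1 - θ) := by
      linear_combination (3 * B) * e1
    linarith
  have k3 : ‖∑ j ∈ range (⌈3 * Y⌉₊ + 1), (if 1 < j / Y ∧ j / Y ≤ 2 then a j else 0) -
      ∑ j ∈ range (⌈3 * Y⌉₊ + 1), (tr (3 * u) (j / Y) : ℂ) * a j‖ ≤
      2 * ((4 / 3 * |R| + 3 * B) * Y ^ (1 - θ)) := by
    rw [← sum_sub_distrib, two_mul]
    refine (norm_sum_le _ _).trans (le_trans ?_
      (add_le_add (k2 1 le_rfl one_le_two) (k2 2 one_le_two le_rfl)))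
    rw [← sum_add_distrib]
    refine sum_le_sum fun j _ => ?_
    have : (if 1 < j / Y ∧ j / Y ≤ 2 then a j else 0) - (tr (3 * u) (j / Y) : ℂ) * a j =
        (((if 1 < j / Y ∧ j / Y ≤ 2 then 1 else 0) - tr (3 * u) (j / Y) : ℝ) : ℂ) * a j := by
      split_ifs <;> push_cast <;> ring
    rw [this, norm_mul, Complex.norm_real, Real.norm_eq_abs, ← add_mul]
    exact mul_le_mul (ind_tr hΛ _) (hab j) (norm_nonneg _)
      (add_nonneg (cl_nonneg _) (cl_nonneg _))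
  have k4 : ‖((r * Y * ∫ x, tr (3 * u) x : ℝ) : ℂ) - (r * Y : ℝ)‖ ≤ |r| * (Y ^ (1 - θ) / 3) := by
    rw [← Complex.ofReal_sub, Complex.norm_real, Real.norm_eq_abs, ← mul_sub_one, abs_mul, abs_mul,
      abs_of_pos hY0, ← e2, mul_assoc]
    gcongr
    exact int_tr hΛ
  have a4 : B * (2 * (3 * u)) * Y ^ (1 - 2 * θ) = 6 * B * Y ^ (1 - θ) := by
    linear_combination (6 * B) * e1
  refine ((norm_sub_le_norm_sub_add_norm_sub _ _ _).trans (add_le_add k3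
    ((norm_sub_le_norm_sub_add_norm_sub _ _ _).trans (add_le_add k1 k4)))).trans ?_
  nlinarith [mul_nonneg (abs_nonneg R) e3.le, mul_nonneg (abs_nonneg r) e3.le]

lemma sharp (ha : Sm a r B (2 * θ)) (hb : Sm (fun j => b j) R B (2 * θ)) (hab : ∀ j, ‖a j‖ ≤ b j)
    (hθ : 0 ≤ θ) (hθ' : θ ≤ 1 / 2) (h1 : ‖a 1‖ ≤ B) (X : ℕ) :
    ‖∑ j ∈ Icc 1 X, a j - (r * X : ℝ)‖ ≤ 3 * (3 * |R| + 2 * |r| + 12 * B) * (X : ℝ) ^ (1 - θ) := by
  have hB : 0 ≤ B := (norm_nonneg _).trans h1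
  have hR := abs_nonneg R
  have hr := abs_nonneg r
  induction X using Nat.strong_induction_on with | _ X ih => ?_
  rcases Nat.lt_or_ge X 2 with h | h
  · interval_cases X
    · simp only [show Icc 1 0 = (∅ : Finset ℕ) from rfl, sum_empty, Nat.cast_zero, mul_zero,
        Complex.ofReal_zero, sub_zero, norm_zero]
      positivity
    · simp only [Icc_self, sum_singleton, Nat.cast_one, mul_one, Real.one_rpow]
      refine (norm_sub_le _ _).trans ?_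
      rw [Complex.norm_real, Real.norm_eq_abs]
      linarith
  have hX : (2 : ℝ) ≤ X := by exact_mod_cast h
  have hY : (1 : ℝ) ≤ X / 2 := by linarith
  have k1 := block ha hb hab hθ hY
  have k2 := ih (X / 2) (by omega)
  have c1 : ((X / 2 : ℕ) : ℝ) ≤ X / 2 := Nat.cast_div_le
  have c2 : (X : ℝ) / 2 ≤ (X / 2 : ℕ) + 1 := by
    have : X ≤ 2 * (X / 2) + 2 := by omega
    have : (X : ℝ) ≤ 2 * (X / 2 : ℕ) + 2 := by exact_mod_cast this
    linarith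
  have e1 : ∑ j ∈ range (⌈3 * ((X : ℝ) / 2)⌉₊ + 1),
      (if 1 < j / ((X : ℝ) / 2) ∧ j / ((X : ℝ) / 2) ≤ 2 then a j else 0) =
      ∑ j ∈ Ioc (X / 2) X, a j := by
    rw [← sum_filter]
    refine sum_congr (Finset.ext fun j => ?_) fun _ _ => rfl
    rw [mem_filter, mem_range, mem_Ioc, one_lt_div (by linarith), div_le_iff₀ (by linarith),
      mul_div_cancel₀ _ two_ne_zero, Nat.cast_le, div_lt_iff₀ two_pos,
      Nat.div_lt_iff_lt_mul two_pos]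
    have : X ≤ ⌈3 * ((X : ℝ) / 2)⌉₊ := by
      rw [← Nat.cast_le (α := ℝ)]; exact le_trans (by linarith) (Nat.le_ceil _)
    norm_cast
    omega
  have e2 : ∑ j ∈ Icc 1 X, a j = ∑ j ∈ Icc 1 (X / 2), a j + ∑ j ∈ Ioc (X / 2) X, a j := by
    rw [show Icc 1 X = Ioc 0 X from rfl, show Icc 1 (X / 2) = Ioc 0 (X / 2) from rfl,
      sum_Ioc_consecutive _ (Nat.zero_le _) (Nat.div_le_self _ _)]
  have k3 : ‖((r * (X / 2 : ℕ) : ℝ) : ℂ) + (r * (X / 2) : ℝ) - (r * X : ℝ)‖ ≤ |r| := by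
    rw [← Complex.ofReal_add, ← Complex.ofReal_sub, Complex.norm_real, Real.norm_eq_abs, ← mul_add,
      ← mul_sub, abs_mul]
    exact mul_le_of_le_one_right hr (abs_le.2 ⟨by linarith, by linarith⟩)
  have p1 : ((X / 2 : ℕ) : ℝ) ^ (1 - θ) ≤ ((X : ℝ) / 2) ^ (1 - θ) :=
    Real.rpow_le_rpow (Nat.cast_nonneg _) c1 (by linarith)
  have p2 : 1 ≤ ((X : ℝ) / 2) ^ (1 - θ) := Real.one_le_rpow hY (by linarith)
  have p3 : 4 / 3 * ((X : ℝ) / 2) ^ (1 - θ) ≤ (X : ℝ) ^ (1 - θ) := by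
    have q1 : (4 / 3 : ℝ) ≤ 2 ^ (1 - θ) := by
      refine le_trans ?_ (Real.rpow_le_rpow_of_exponent_le one_le_two (by linarith : 1 / 2 ≤ 1 - θ))
      rw [← Real.sqrt_eq_rpow]
      exact Real.le_sqrt_of_sq_le (by norm_num)
    conv_rhs => rw [show (X : ℝ) = 2 * (X / 2) by ring, Real.mul_rpow zero_le_two (by linarith)]
    gcongr
  rw [e1] at k1
  have e3 : ∑ j ∈ Icc 1 X, a j - (r * X : ℝ) =
      (∑ j ∈ Icc 1 (X / 2), a j - (r * (X / 2 : ℕ) : ℝ)) +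
        (∑ j ∈ Ioc (X / 2) X, a j - (r * (X / 2) : ℝ)) +
        (((r * (X / 2 : ℕ) : ℝ) : ℂ) + (r * (X / 2) : ℝ) - (r * X : ℝ)) := by
    rw [e2]; ring
  rw [e3]
  refine (norm_add₃_le.trans (add_le_add (add_le_add k2 k1) k3)).trans ?_
  have hK : 0 ≤ 3 * |R| + 2 * |r| + 12 * B := by positivity
  nlinarith [mul_le_mul_of_nonneg_left p1 hK, mul_le_mul_of_nonneg_left p3 hK,
    mul_le_mul_of_nonneg_left p2 hr]

variable {E : Type} [Field E] [NumberField E] {n : ℕ}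

/-- the number of ideals of norm `j` coprime to `n` -/
noncomputable def cnt (E : Type) [Field E] [NumberField E] (n j : ℕ) : ℕ :=
  ((finite_absNorm (E := E) j).toFinset.filter (Cop n)).card

lemma lam_triv (j : ℕ) : lam (triv E n) j = ((cnt E n j : ℝ) : ℂ) := by
  rw [lam_eq_sum, cnt, card_filter]
  push_cast
  exact sum_congr rfl fun I _ => by rw [triv_apply]; split_ifs <;> simp

lemma norm_lam {χ : Ideal (𝓞 E) →* ℂ} (h : IsChar n χ) (j : ℕ) : ‖lam χ j‖ ≤ cnt E n j := by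
  rw [lam_eq_sum, cnt, card_filter]
  push_cast
  refine (norm_sum_le _ _).trans (sum_le_sum fun I _ => ?_)
  split_ifs with c
  · exact (h.norm_cop I c).le
  · rw [h.zero I c, norm_zero]

lemma ncard_eq (hn : 2 ≤ n) (X : ℕ) :
    Set.ncard {I : Ideal (𝓞 E) | Cop n I ∧ Ideal.absNorm I ≤ X} = ∑ j ∈ Icc 1 X, cnt E n j := by
  unfold cnt
  rw [← card_biUnion, ← Set.ncard_coe_finset]
  · congr 1
    ext I
    simp only [Set.mem_ofPred_eq, coe_biUnion, mem_coe, mem_Icc, Set.mem_iUnion, mem_filter,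
      Set.Finite.mem_toFinset, exists_prop]
    refine ⟨fun h => ⟨_, ⟨?_, h.2⟩, rfl, h.1⟩, ?_⟩
    · exact Nat.pos_of_ne_zero fun e => Cop_ne_bot hn h.1 (Ideal.absNorm_eq_zero_iff.1 e)
    · rintro ⟨j, h1, rfl, h2⟩
      exact ⟨h2, h1.2⟩
  · intro i _ j _ hij
    rw [Function.onFun, disjoint_left]
    intro I h1 h2
    simp only [mem_filter, Set.Finite.mem_toFinset, Set.mem_ofPred_eq] at h1 h2
    exact hij (h1.1.symm.trans h2.1)

lemma rs_eq (hn : 2 ≤ n) {K : ℝ} (hθ : 0 < θ)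
    (h : ∀ X : ℕ, ‖∑ j ∈ Icc 1 X, lam (triv E n) j - (R * X : ℝ)‖ ≤ K * (X : ℝ) ^ (1 - θ)) :
    Rs E n = R := by
  refine Tendsto.limUnder_eq (tendsto_sub_nhds_zero_iff.1 (squeeze_zero_norm'
    (a := fun X : ℕ => K * (X : ℝ) ^ (-θ)) ?_ ?_))
  · filter_upwards [eventually_gt_atTop 0] with X hX
    have hX' : (0 : ℝ) < X := by exact_mod_cast hX
    have := h X
    simp only [lam_triv] at this
    rw [← Complex.ofReal_sum, ← Complex.ofReal_sub, Complex.norm_real, ← Nat.cast_sum,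
      ← ncard_eq hn, sub_eq_neg_add 1, Real.rpow_add_one hX'.ne', ← mul_assoc,
      ← div_le_iff₀ hX'] at this
    rwa [div_sub' hX'.ne', norm_div, Real.norm_of_nonneg hX'.le, mul_comm _ R]
  · simpa using ((tendsto_rpow_neg_atTop hθ).comp tendsto_natCast_atTop_atTop).const_mul K

end PSs

open PSs in
theorem p_pSs (hE : S_Emb) (hU : S_Unit) (hR : S_Rep2) (hP : S_Part) (hV : S_Vol) (h0 : S_PS0) (hL : VE.S_Lam) : S_PSs := by
  intro k _ _ _ K D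
  obtain ⟨C₀, h0⟩ := h0 k K D
  obtain ⟨C₁, hU⟩ := hU k K D
  obtain ⟨C₂, hE⟩ := hE k K D
  obtain ⟨C₃, hR⟩ := hR k K D
  obtain ⟨C₄, hV⟩ := hV k K D
  refine ⟨8 + 2 * D + (C₁ + 1) * C₀, fun E _ _ _ hD Q n hQ hS hn => ?_⟩
  obtain ⟨-, e2, e3, -, -, -, -, e4, -⟩ := hE E hD
  have hD1 : (1 : ℝ) ≤ D := by exact_mod_cast e3
  have hn1 : (2 : ℝ) ≤ n := by exact_mod_cast hn
  have θ0 : (0 : ℝ) < 1 / (4 * D) := by positivity
  have θ1 : (1 : ℝ) / (4 * D) ≤ 1 / 2 := one_div_le_one_div_of_le two_pos (by linarith)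
  have θ2 : (1 : ℝ) / (2 * D) = 2 * (1 / (4 * D)) := by field_simp; norm_num
  have l1 : ∀ χ : Ideal (𝓞 E) →* ℂ, IsChar n χ → ‖lam χ 1‖ ≤ 1 := fun χ h => by
    simpa using (hL E).2.1 χ 1 le_rfl (norm_char_le h)
  have l2 : |(cnt E n 2 : ℝ)| ≤ 2 ^ (2 * D) := by
    have := (hL E).2.1 (triv E n) 2 one_le_two (norm_char_le isChar_triv)
    rwa [lam_triv, Complex.norm_real, Real.norm_eq_abs, e2, Nat.prime_two.divisors,
      card_pair (by norm_num), Nat.cast_ofNat] at this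
  have s0 : ∀ (ℓ : ℝ) (U : UB k E n ℓ), Sm (fun j => (cnt E n j : ℝ))
      (U.vol / (U.ρ * n ^ (2 * D) * cov2 k E)) ((Q * n * ℓ) ^ C₀) (2 * (1 / (4 * D))) :=
    fun ℓ U g L Y hg hY => by
      simpa only [lam_triv, θ2] using (h0 E hD Q n ℓ U g L Y hQ hS hn hg hY).1
  have b1 : ∀ ℓ : ℝ, 1 ≤ ℓ → 1 ≤ (Q * n * ℓ) ^ C₀ := fun ℓ h =>
    one_le_pow₀ (one_le_mul_of_one_le_of_one_le (by nlinarith) h)
  have s1 := fun (ℓ : ℝ) (U : UB k E n ℓ) => sharp (s0 ℓ U) (s0 ℓ U)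
    (fun j => by rw [Complex.norm_real, Real.norm_of_nonneg (Nat.cast_nonneg _)]) θ0.le θ1
    (by rw [← lam_triv]; exact (l1 _ isChar_triv).trans (b1 ℓ U.one_le))
  have s2 : ∀ (ℓ : ℝ) (U : UB k E n ℓ), Rs E n = U.vol / (U.ρ * n ^ (2 * D) * cov2 k E) :=
    fun ℓ U => rs_eq hn θ0 (by simpa only [lam_triv] using s1 ℓ U)
  have s3 : ∀ (ℓ : ℝ) (U : UB k E n ℓ), 0 < U.ρ * n ^ (2 * D) * cov2 k E := fun ℓ U => by
    have a1 := (hP k K E n ℓ U).2.2.2.1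
    have a2 : (0 : ℝ) < VC.hn k E n := by exact_mod_cast (hR E hD Q n 1 hQ hS hn le_rfl).2.1
    have a3 : 0 < cov2 k E := lt_of_lt_of_le (by positivity) e4
    have a4 : 0 < U.ρ := div_pos (by linarith) a2
    positivity
  obtain ⟨U⟩ := (hU E hD Q n hQ hS (by omega)).1
  have fin : ∀ Kb : ℝ, 1 ≤ Kb → ∀ B, 1 ≤ B → B ≤ (Q * n * (Q * n) ^ C₁ * Kb) ^ C₀ →
      ∀ r : ℝ, |r| ≤ |Rs E n| → |Rs E n| ≤ 9 * B + 2 * 2 ^ (2 * D) →
      3 * (3 * |Rs E n| + 2 * |r| + 12 * B) ≤ (Q * n * Kb) ^ (8 + 2 * D + (C₁ + 1) * C₀) := by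
    intro Kb hK B hB hB' r h1 h2
    have a0 : (1 : ℝ) ≤ Q * n := by nlinarith
    have a1 : 2 ≤ Q * n * Kb := by nlinarith
    have a2 : (1 : ℝ) ≤ 2 ^ (2 * D) := one_le_pow₀ one_le_two
    have a3 : Q * n * (Q * n) ^ C₁ * Kb ≤ (Q * n * Kb) ^ (C₁ + 1) := by
      rw [pow_succ, mul_pow (Q * n) Kb]
      have := one_le_pow₀ (n := C₁) hK
      have : 0 ≤ Q * n * (Q * n) ^ C₁ * Kb := by positivity
      nlinarith
    calc _ ≤ 2 ^ 8 * 2 ^ (2 * D) * B := by nlinarith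
      _ ≤ (Q * n * Kb) ^ 8 * (Q * n * Kb) ^ (2 * D) * ((Q * n * Kb) ^ (C₁ + 1)) ^ C₀ := by
        gcongr
        exact hB'.trans (by gcongr)
      _ = _ := by rw [← pow_mul, ← pow_add, ← pow_add]
  have hb := (s0 _ U).bound
  rw [← s2] at hb
  refine ⟨?_, fun ℓ U => ?_, fun X => ?_, fun X Kb κ τ χ hK hκ hτ hχ hχ' => ?_⟩
  · rw [s2 _ U]
    exact div_pos (lt_of_lt_of_le (by positivity) (hV E hD n _ U).1) (s3 _ U)
  · rw [s2 ℓ U, ← div_mul_cancel₀ U.vol (s3 ℓ U).ne', mul_div_cancel_right₀ _ (s3 ℓ U).ne']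
    ring
  · have := s1 _ U X
    rw [← s2] at this
    simp only [lam_triv]
    refine this.trans (mul_le_mul_of_nonneg_right ?_ (by positivity))
    simpa using fin 1 le_rfl _ (b1 _ U.one_le) (by simp) _ le_rfl (by linarith)
  · have m1 : (Q * n * (Q * n) ^ C₁) ^ C₀ ≤ (Q * n * (Q * n) ^ C₁ * Kb) ^ C₀ :=
      pow_le_pow_left₀ (by positivity) (le_mul_of_one_le_right (by positivity) hK) _
    have t1 : Sm (lam χ) 0 ((Q * n * (Q * n) ^ C₁ * Kb) ^ C₀) (2 * (1 / (4 * D))) :=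
      fun g L Y hg hY => by
        simpa only [θ2, one_pow, one_dvd, filter_true, Nat.cast_one, mul_one, zero_mul,
          Complex.ofReal_zero, sub_zero] using
          (h0 E hD Q n _ U g L Y hQ hS hn hg hY).2 1 Kb κ τ χ le_rfl hK hκ hτ hχ hχ'
    have t2 := sharp t1 ((s0 _ U).mono m1) (norm_lam hχ.toIsChar) θ0.le θ1
      ((l1 _ hχ.toIsChar).trans ((b1 _ U.one_le).trans m1)) X
    rw [← s2, zero_mul, Complex.ofReal_zero, sub_zero] at t2
    exact t2.trans (mul_le_mul_of_nonneg_right (fin Kb hK _ ((b1 _ U.one_le).trans m1) le_rfl 0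
      (by simp) (by linarith)) (by positivity))

end Pool.Agent.P.MP_b8021b_nt.VC
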