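import Pool.Agent.P.MP_b8021b_nt.VC.StG
import Pool.Agent.P.MP_b8021b_nt.VC.BasicN
import Pool.Agent.P.MP_b8021b_nt.VC.GD
import Pool.Agent.P.MP_b8021b_nt.VE.StN

/-! Small representatives of the ray classes. -/

namespace Pool.Agent.P.MP_b8021b_nt.VC

open NumberField Finset Pool.Agent.P.MP_b8021b_nt.VE
open scoped Classical ComplexConjugate

namespace Rep2

lemma sum_dual (G : Type) [CommGroup G] [Fintype G] [Fintype (G →* ℂˣ)] (g : G) :
    ∑ η : G →* ℂˣ, ((η g : ℂˣ) : ℂ) = if g = 1 then (Fintype.card G : ℂ) else 0 := by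
  split_ifs with hg
  · subst hg
    have := CommGroup.card_monoidHom_of_hasEnoughRootsOfUnity G ℂ
    rw [Nat.card_eq_fintype_card, Nat.card_eq_fintype_card] at this
    simp [this]
  · obtain ⟨η₀, h₀⟩ := CommGroup.exists_apply_ne_one_of_hasEnoughRootsOfUnity G ℂ hg
    have h1 : ∑ η : G →* ℂˣ, ((η g : ℂˣ) : ℂ) = ∑ η : G →* ℂˣ, (((η₀ * η) g : ℂˣ) : ℂ) :=
      (Equiv.sum_comp (Equiv.mulLeft η₀) fun η : G →* ℂˣ => ((η g : ℂˣ) : ℂ)).symm
    simp only [MonoidHom.mul_apply, Units.val_mul, ← Finset.mul_sum] at h1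
    have h2 : ((η₀ g : ℂˣ) : ℂ) ≠ 1 := fun h => h₀ (Units.ext h)
    have h3 : (((η₀ g : ℂˣ) : ℂ) - 1) * ∑ η : G →* ℂˣ, ((η g : ℂˣ) : ℂ) = 0 := by
      linear_combination -h1
    exact (mul_eq_zero.mp h3).resolve_left (sub_ne_zero.mpr h2)

lemma norm_dual {G : Type} [CommGroup G] [Fintype G] (η : G →* ℂˣ) (g : G) :
    ‖((η g : ℂˣ) : ℂ)‖ = 1 := by
  have h1 : ((η g : ℂˣ) : ℂ) ^ Fintype.card G = 1 := by
    rw [← Units.val_pow_eq_pow_val, ← map_pow, pow_card_eq_one, map_one, Units.val_one]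
  have h2 := congrArg norm h1
  rw [norm_pow, norm_one] at h2
  exact (pow_eq_one_iff_of_nonneg (norm_nonneg _) Fintype.card_ne_zero).mp h2

variable {E : Type} [Field E] {n : ℕ}

/-- the character attached to a character of the ray class group -/
noncomputable def tw {G : Type} [CommGroup G] (π : Ideal (𝓞 E) → G)
    (hπ : ∀ I J, Cop n I → Cop n J → π (I * J) = π I * π J) (h1 : π 1 = 1) (η : G →* ℂˣ) :
    Ideal (𝓞 E) →* ℂ where
  toFun I := triv E n I * (η (π I) : ℂˣ)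
  map_one' := by rw [h1, map_one, map_one, Units.val_one, mul_one]
  map_mul' I J := by
    by_cases hI : Cop n I
    · by_cases hJ : Cop n J
      · rw [hπ I J hI hJ, map_mul, map_mul, Units.val_mul]
        ring
      · rw [map_mul, triv_not hJ]; ring
    · rw [map_mul, triv_not hI]; ring

lemma count [NumberField E] (hLam : VE.S_Lam) (S : Finset (Ideal (𝓞 E))) {B : ℝ} (hB : 0 ≤ B)
    (h : ∀ I ∈ S, I ≠ ⊥ ∧ (Ideal.absNorm I : ℝ) ≤ B) :
    (S.card : ℝ) ≤ B ^ (Module.finrank ℚ E + 1) := by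
  have h1 : S.card ≤ ⌊B⌋₊ ^ Module.finrank ℚ E * (Icc 1 ⌊B⌋₊).card := by
    refine card_le_mul_card_image_of_maps_to (f := fun I => Ideal.absNorm I)
      (fun I hI => mem_Icc.2 ⟨Geo.one_le_norm (h I hI).1, Nat.le_floor (h I hI).2⟩) _
      fun m hm => ?_
    obtain ⟨m1, m2⟩ := mem_Icc.1 hm
    rw [← Set.ncard_coe_finset]
    refine ((Set.ncard_le_ncard (fun I hI => (mem_filter.1 hI).2) (finite_absNorm m)).trans
      ((hLam E).1 m m1)).trans (Nat.pow_le_pow_left ((Nat.card_divisors_le_self m).trans m2) _)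
  rw [Nat.card_Icc, Nat.add_sub_cancel, ← pow_succ] at h1
  calc (S.card : ℝ) ≤ (⌊B⌋₊ : ℝ) ^ (Module.finrank ℚ E + 1) := by exact_mod_cast h1
    _ ≤ _ := pow_le_pow_left₀ (Nat.cast_nonneg _) (Nat.floor_le hB) _

end Rep2

open Rep2 in
theorem p_rep2 (hRay : VE.S_Ray) (hLam : VE.S_Lam) : S_Rep2 := by
  intro k _ _ _ K D
  obtain ⟨a, ha⟩ := exists_nat_ge (24 * (D : ℝ) ^ 2 * |(K.D : ℝ)| ^ 2)
  refine ⟨(a + 2) * (2 * D) * (2 * D + 1), fun E _ _ _ hD Q n d hQ hS h2 hd => ?_⟩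
  obtain ⟨F, -⟩ := Geo.exDat K hS
  have hdeg := F.deg
  have hrep := Geo.rep F n
  rw [Geo.card_emb, hD] at hdeg hrep
  have hn1 : (1 : ℝ) ≤ n := by exact_mod_cast (by omega : 1 ≤ n)
  have hb : ∀ d : ℕ, 1 ≤ d → (24 * (D : ℝ) ^ 2 * (|(K.D : ℝ)| * Q) ^ 2 * n * d) ^ (2 * D) ≤
      (Q * n * d) ^ ((a + 2) * (2 * D)) := by
    intro d hd
    have hd1 : (1 : ℝ) ≤ d := by exact_mod_cast hd
    have h1 : (a : ℝ) ≤ Q ^ a :=
      le_trans (by exact_mod_cast Nat.lt_two_pow_self.le) (pow_le_pow_left₀ zero_le_two hQ a)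
    have h3 : (n : ℝ) * d ≤ (n * d) ^ (a + 2) :=
      le_self_pow₀ (one_le_mul_of_one_le_of_one_le hn1 hd1) (by omega)
    rw [pow_mul (Q * n * d)]
    refine pow_le_pow_left₀ (by positivity) ?_ _
    calc _ = 24 * (D : ℝ) ^ 2 * |(K.D : ℝ)| ^ 2 * Q ^ 2 * (n * d) := by ring
      _ ≤ Q ^ a * Q ^ 2 * (n * d) ^ (a + 2) := by
        gcongr
        exact ha.trans h1
      _ = _ := by ring
  obtain ⟨G, _, _, π, hπ, hsur, hray, -⟩ := hRay E n (by omega)
  have hc := CommGroup.card_monoidHom_of_hasEnoughRootsOfUnity G ℂ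
  have : Finite (G →* ℂˣ) := Nat.finite_of_card_ne_zero (by rw [hc]; exact Nat.card_pos.ne')
  let _ : Fintype (G →* ℂˣ) := Fintype.ofFinite _
  rw [Nat.card_eq_fintype_card, Nat.card_eq_fintype_card] at hc
  have hsur' : ∀ g, ∃ I, Cop n I ∧ π I = g := fun g => by
    obtain ⟨I, -, h1, h2⟩ := hsur g 1 le_rfl
    exact ⟨I, by simpa using h1, h2⟩
  have hray' : ∀ I J, Cop n I → Cop n J → (π I = π J ↔ Ray n I J) := fun I J hI hJ =>
    hray I J (Cop_ne_bot h2 hI) (Cop_ne_bot h2 hJ) hI hJ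
  have hπ' : ∀ I J, Cop n I → Cop n J → π (I * J) = π I * π J := fun I J hI hJ =>
    hπ I J (Cop_ne_bot h2 hI) (Cop_ne_bot h2 hJ) hI hJ
  have c1 : Cop n (1 : Ideal (𝓞 E)) := isCoprime_one_left
  have hπ1 : π 1 = 1 := by
    have h := hπ' 1 1 c1 c1
    rw [mul_one] at h
    simpa using h
  have hpr : ∀ α : 𝓞 E, (n : 𝓞 E) ∣ α - 1 → π (Ideal.span {α}) = 1 := fun α hα =>
    ((hray' _ _ (cop_span_of_dvd hα) c1).2
      ⟨1, α, one_ne_zero, ne_zero_of_dvd h2 hα, by simp, hα, by simp⟩).trans hπ1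
  have hTa : ∀ η I, Cop n I → tw π hπ' hπ1 η I = (η (π I) : ℂˣ) := fun η I hI => by
    show triv E n I * _ = _
    rw [triv_cop hI, one_mul]
  have hT0 : ∀ η I, ¬ Cop n I → tw π hπ' hπ1 η I = 0 := fun η I hI => by
    show triv E n I * _ = _
    rw [triv_not hI, zero_mul]
  generalize tw π hπ' hπ1 = T at hTa hT0
  have hinj : Function.Injective T := by
    intro η η' e
    ext g
    obtain ⟨I, hI, rfl⟩ := hsur' g
    have := DFunLike.congr_fun e I
    rwa [hTa _ _ hI, hTa _ _ hI] at this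
  have hset : {χ : Ideal (𝓞 E) →* ℂ | IsH k n 0 0 χ} = ↑(univ.image T) := by
    ext χ
    rw [mem_coe, mem_image]
    constructor
    · intro hχ
      have hne : ∀ I, Cop n I → χ I ≠ 0 := fun I hI h => by
        have := hχ.norm_cop I hI
        rw [h, norm_zero] at this
        exact zero_ne_one this
      have key : ∀ I J, Cop n I → Cop n J → π I = π J → χ I = χ J := by
        intro I J hI hJ e
        obtain ⟨α, β, -, -, ha, hb, e'⟩ := (hray' I J hI hJ).1 e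
        have := congrArg χ e'
        rwa [map_mul, map_mul, hχ.prin α ha, hχ.prin β hb, ty_zero, ty_zero, mul_one,
          mul_one] at this
      choose r hr hr' using hsur'
      let η : G →* ℂˣ :=
        { toFun := fun g => Units.mk0 (χ (r g)) (hne _ (hr g))
          map_one' := by
            apply Units.ext
            simp only [Units.val_mk0, Units.val_one]
            rw [key _ 1 (hr 1) c1 (by rw [hr', hπ1]), map_one]
          map_mul' := by
            intro g g'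
            apply Units.ext
            simp only [Units.val_mk0, Units.val_mul]
            rw [key _ (r g * r g') (hr _) (cop_mul.mpr ⟨hr g, hr g'⟩)
              (by rw [hπ' _ _ (hr g) (hr g'), hr', hr', hr']), map_mul] }
      refine ⟨η, mem_univ _, MonoidHom.ext fun I => ?_⟩
      by_cases hI : Cop n I
      · rw [hTa _ _ hI]
        exact key _ I (hr _) hI (hr' _)
      · rw [hT0 _ _ hI, hχ.zero I hI]
    · rintro ⟨η, -, rfl⟩
      refine ⟨⟨fun I hI => ?_, hT0 η⟩, by simp, fun α hα => ?_⟩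
      · rw [hTa _ _ hI, norm_dual]
      · rw [hTa _ _ (cop_span_of_dvd hα), hpr α hα, map_one, Units.val_one, ty_zero]
  have hh : hn k E n = Fintype.card G := by
    rw [hn, hset, Set.ncard_coe_finset, card_image_of_injective _ hinj, card_univ, hc]
  have hR : ∀ d : ℕ, 1 ≤ d → ∃ c : G → Ideal (𝓞 E), ∀ g, π (c g) = g ∧ Cop (n * d) (c g) ∧
      (Ideal.absNorm (c g) : ℝ) ≤ (Q * n * d) ^ ((a + 2) * (2 * D)) := by
    intro d hd
    refine (Classical.skolem (p := fun g c => π c = g ∧ Cop (n * d) c ∧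
      (Ideal.absNorm c : ℝ) ≤ (Q * n * d) ^ ((a + 2) * (2 * D)))).1 fun g => ?_
    obtain ⟨I, hI, e⟩ := hsur' g⁻¹
    obtain ⟨c, β, -, h3, h4, h5, h6⟩ := hrep d I (by omega) hd (Cop_ne_bot h2 hI) hI
    have := hπ' I c hI (cop_mul_nat.1 h3).1
    rw [h6, hpr β h5, e, eq_comm, inv_mul_eq_one] at this
    exact ⟨c, this.symm, h3, h4.trans (hb d hd)⟩
  have hQn : (1 : ℝ) ≤ Q * n := one_le_mul_of_one_le_of_one_le (by linarith) hn1
  rw [hh]
  refine ⟨by rw [hset]; exact finite_toSet _, Fintype.card_pos, ?_, ?_⟩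
  · obtain ⟨c, hc⟩ := hR 1 le_rfl
    have := count hLam (univ.image c) (B := (Q * n) ^ ((a + 2) * (2 * D))) (by positivity)
      fun I hI => by
        obtain ⟨g, -, rfl⟩ := mem_image.1 hI
        exact ⟨Cop_ne_bot h2 (cop_mul_nat.1 (hc g).2.1).1, by simpa using (hc g).2.2⟩
    rwa [card_image_of_injective _ (Function.LeftInverse.injective fun g => (hc g).1), card_univ,
      hdeg, ← pow_mul] at this
  · obtain ⟨c, hc⟩ := hR d hd
    have ci : Function.Injective c := Function.LeftInverse.injective fun g => (hc g).1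
    have cc : ∀ g, Cop n (c g) := fun g => (cop_mul_nat.1 (hc g).2.1).1
    refine ⟨univ.image c, by rw [card_image_of_injective _ ci, card_univ], fun I hI => ?_,
      fun 𝔟 h𝔟 => ⟨c (π 𝔟)⁻¹, ⟨mem_image_of_mem _ (mem_univ _), ?_⟩, ?_⟩, fun ψ hψ hnt => ?_,
      fun 𝔟 𝔟' h𝔟 h𝔟' => ?_⟩
    · obtain ⟨g, -, rfl⟩ := mem_image.1 hI
      refine ⟨(hc g).2.1, (hc g).2.2.trans (pow_le_pow_right₀ ?_ (Nat.le_mul_of_pos_right _
        (Nat.succ_pos _)))⟩
      exact one_le_mul_of_one_le_of_one_le hQn (by exact_mod_cast hd)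
    · obtain ⟨α, β, h0, -, ha, hb, e⟩ := (hray' (𝔟 * c (π 𝔟)⁻¹) 1 (cop_mul.2 ⟨h𝔟, cc _⟩) c1).1
        (by rw [hπ' _ _ h𝔟 (cc _), (hc _).1, mul_inv_cancel, hπ1])
      rw [one_mul] at e
      obtain ⟨γ, rfl⟩ : α ∣ β := by
        rw [← Ideal.mem_span_singleton, ← Ideal.dvd_span_singleton, ← e]
        exact dvd_mul_left _ _
      refine ⟨γ, ?_, ?_⟩
      · have : γ - 1 = α * γ - 1 - (α - 1) * γ := by ring
        rw [this]
        exact hb.sub (ha.mul_right _)
      · rw [← Ideal.span_singleton_mul_span_singleton, mul_comm (Ideal.span {α})] at e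
        exact mul_right_cancel₀ (by simpa using h0) e
    · rintro I ⟨hI, β, hβ, e⟩
      obtain ⟨g, -, rfl⟩ := mem_image.1 hI
      have := hπ' _ _ h𝔟 (cc g)
      rw [e, hpr β hβ, (hc g).1] at this
      rw [eq_inv_of_mul_eq_one_right this.symm]
    · have : ψ ∈ ({χ : Ideal (𝓞 E) →* ℂ | IsH k n 0 0 χ}) := hψ
      rw [hset] at this
      obtain ⟨η, -, rfl⟩ := mem_image.1 this
      rw [sum_image fun _ _ _ _ h => ci h,
        sum_congr rfl fun g _ => by rw [hTa _ _ (cc g), (hc g).1]]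
      refine sum_hom_units_eq_zero ((Units.coeHom ℂ).comp η) fun h => hnt fun I hI => ?_
      rw [hTa _ _ hI]
      exact DFunLike.congr_fun h (π I)
    · rw [hset, finsum_mem_coe_finset, sum_image fun _ _ _ _ h => hinj h]
      have e1 : ∑ η : G →* ℂˣ, T η 𝔟 * conj (T η 𝔟') =
          ∑ η : G →* ℂˣ, ((η (π 𝔟 * (π 𝔟')⁻¹) : ℂˣ) : ℂ) := by
        refine sum_congr rfl fun η _ => ?_
        rw [hTa _ _ h𝔟, hTa _ _ h𝔟', ← Complex.inv_eq_conj (norm_dual η _), map_mul η, map_inv η,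
          Units.val_mul, Units.val_inv_eq_inv_val]
      rw [e1, sum_dual]
      by_cases h : Ray n 𝔟 𝔟'
      · rw [if_pos h, if_pos (mul_inv_eq_one.2 ((hray' _ _ h𝔟 h𝔟').2 h))]
      · rw [if_neg h, if_neg fun h' => h ((hray' _ _ h𝔟 h𝔟').1 (mul_inv_eq_one.1 h'))]

end Pool.Agent.P.MP_b8021b_nt.VC
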