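import Pool.Agent.P.MP_b8021b_nt.VC.StG
import Pool.Agent.P.MP_b8021b_nt.VC.StH
import Pool.Agent.P.MP_b8021b_nt.VE.StN

/-! The second inequality of class field theory. -/

namespace Pool.Agent.P.MP_b8021b_nt.VC

open Polynomial NumberField Finset Pool.Agent.P.MP_b8021b_nt.VE
open scoped Classical ComplexConjugate

namespace PSec

variable {E : Type} [Field E] [NumberField E]

theorem lam_eq (f : Ideal (𝓞 E) → ℂ) (q : ℕ) :
    lam f q = ∑ I ∈ (Ideal.finite_setOfPred_absNorm_eq (S := 𝓞 E) q).toFinset, f I :=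
  finsum_mem_eq_finite_toFinset_sum _ _

theorem summ (hL : VE.S_Lam) (f : Ideal (𝓞 E) → ℂ) (hf : ∀ I, ‖f I‖ ≤ 1) {s : ℝ} (hs : 1 < s) :
    Summable fun q : Nat.Primes => (lam f q).re * (q : ℝ) ^ (-s) := by
  refine Summable.of_norm_bounded ((Nat.Primes.summable_rpow.2 (by linarith : -s < -1)).mul_left
    ((2 : ℝ) ^ Module.finrank ℚ E)) fun q => ?_
  rw [norm_mul, Real.norm_of_nonneg (by positivity : (0 : ℝ) ≤ (q : ℝ) ^ (-s))]
  refine mul_le_mul_of_nonneg_right ?_ (by positivity)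
  have h := (hL E).2.1 f q q.2.one_le hf
  rw [q.2.divisors, Finset.card_pair q.2.one_lt.ne] at h
  exact (Complex.abs_re_le_norm _).trans (by exact_mod_cast h)

omit [NumberField E] in
theorem norm_le {n : ℕ} {χ : Ideal (𝓞 E) →* ℂ} (h : IsChar n χ) (I : Ideal (𝓞 E)) :
    ‖χ I‖ ≤ 1 := by
  by_cases hI : Cop n I
  · exact (h.norm_cop I hI).le
  · simp [h.zero I hI]

omit [NumberField E] in
theorem triv_le (n : ℕ) (I : Ideal (𝓞 E)) : ‖triv E n I‖ ≤ 1 := by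
  change ‖(if Cop n I then 1 else 0 : ℂ)‖ ≤ 1
  split_ifs <;> simp

omit [NumberField E] in
theorem mul_cj {n : ℕ} {χ : Ideal (𝓞 E) →* ℂ} (h : IsChar n χ) : χ * cj χ = triv E n := by
  ext I
  change χ I * conj (χ I) = if Cop n I then 1 else 0
  split_ifs with hI
  · rw [Complex.mul_conj', h.norm_cop I hI]; simp
  · simp [h.zero I hI]

omit [NumberField E] in
theorem eq_of_triv {n : ℕ} {χ χ' : Ideal (𝓞 E) →* ℂ} (h : IsChar n χ) (h' : IsChar n χ')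
    (ht : IsTriv n (χ * cj χ')) : χ = χ' := by
  ext I
  by_cases hI : Cop n I
  · have h1 : χ I * conj (χ' I) = 1 := ht I hI
    have h2 : χ' I * conj (χ' I) = 1 := by rw [Complex.mul_conj', h'.norm_cop I hI]; simp
    exact mul_right_cancel₀ (right_ne_zero_of_mul_eq_one h1) (h1.trans h2.symm)
  · rw [h.zero I hI, h'.zero I hI]

end PSec

open PSec in
theorem p_sec (hDen : S_Den) (hKD : S_KD) (hBCN : S_BCN) (hL : VE.S_Lam) : S_Sec := by
  intro k _ _ _ K E E' _ _ _ _ _ _ n 𝒴 hn h𝒴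
  let _ : Algebra k E' := ((algebraMap E E').comp (algebraMap k E)).toAlgebra
  have _ : IsScalarTower k E E' := .of_algebraMap_eq fun _ => rfl
  set d := Module.finrank E E' with hd
  let f : Ideal (𝓞 E) → ℂ := fun I => ∑ x ∈ 𝒴 ×ˢ 𝒴, (x.1 * cj x.2) I
  have hf : ∀ I, f I = ((‖∑ ξ ∈ 𝒴, ξ I‖ ^ 2 : ℝ) : ℂ) := fun I => by
    rw [Complex.ofReal_pow, ← Complex.mul_conj', map_sum, Finset.sum_mul_sum]
    exact Finset.sum_product _ _ _
  have hN : ∀ I : Ideal (𝓞 E'), f (Ideal.relNorm (𝓞 E) I) = (𝒴.card : ℂ) ^ 2 * triv E' n I := by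
    intro I
    have h1 : ∀ ξ ∈ 𝒴, ξ (Ideal.relNorm (𝓞 E) I) = triv E' n I := fun ξ hξ => by
      change nrm E' ξ I = if Cop n I then 1 else 0
      split_ifs with hI
      · exact (h𝒴 ξ hξ).2 I hI
      · exact ((hBCN.2 k K E n 0 0 ξ hn (h𝒴 ξ hξ).1).2.2.2.2.2.2 E').zero I hI
    rw [hf, Finset.sum_congr rfl h1, Finset.sum_const, nsmul_eq_mul]
    change ((‖(𝒴.card : ℂ) * (if Cop n I then 1 else 0)‖ ^ 2 : ℝ) : ℂ) =
      _ * (if Cop n I then 1 else 0)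
    split_ifs <;> simp
  have hq : ∀ q : Nat.Primes, (𝒴.card : ℝ) ^ 2 * (lam (triv E' n) q).re ≤
      d * ∑ x ∈ 𝒴 ×ˢ 𝒴, (lam (x.1 * cj x.2 :) q).re := by
    intro q
    obtain ⟨h1, h2⟩ := hKD E E' q q.2
    have h3 := h1 f
    rw [finsum_mem_eq_finite_toFinset_sum _ (Ideal.finite_setOfPred_absNorm_eq (S := 𝓞 E) q.1),
      lam_eq] at h3
    simp only [hN] at h3
    rw [← Finset.mul_sum, ← lam_eq] at h3
    have h4 := congrArg Complex.re h3
    rw [← Complex.ofReal_natCast, ← Complex.ofReal_pow, Complex.re_ofReal_mul, Complex.re_sum] at h4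
    have h5 : ∑ x ∈ 𝒴 ×ˢ 𝒴, lam (x.1 * cj x.2 :) q = lam f q := by
      simp only [lam_eq]
      exact Finset.sum_comm
    rw [h4, ← Complex.re_sum (𝒴 ×ˢ 𝒴), h5, lam_eq, Complex.re_sum, Finset.mul_sum]
    refine Finset.sum_le_sum fun I hI => ?_
    rw [hf, ← Complex.ofReal_natCast, Complex.re_ofReal_mul, Complex.ofReal_re]
    refine mul_le_mul_of_nonneg_right ?_ (by positivity)
    exact_mod_cast (h2 I (by simpa using hI)).2.1
  have hH : ∀ x ∈ 𝒴 ×ˢ 𝒴, IsH k n (0 + -0) (0 + -0) (x.1 * cj x.2) := fun x hx =>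
    ((hBCN.2 k K E n 0 0 x.1 hn (h𝒴 _ (Finset.mem_product.1 hx).1).1).2.2.2.1 n _ _ _
      (by omega) (hBCN.2 k K E n 0 0 x.2 hn (h𝒴 _ (Finset.mem_product.1 hx).2).1).2.1).2 rfl
  have hs : ∀ s : ℝ, 1 < s → (𝒴.card : ℝ) ^ 2 * dsum (lam (triv E' n)) s ≤
      d * ∑ x ∈ 𝒴 ×ˢ 𝒴, dsum (lam (x.1 * cj x.2 :)) s := by
    intro s hs
    have h1 : ∀ x ∈ 𝒴 ×ˢ 𝒴, Summable fun q : Nat.Primes =>
        (lam (x.1 * cj x.2 :) q).re * (q : ℝ) ^ (-s) := fun x hx =>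
      summ hL _ (norm_le (hH x hx).toIsChar) hs
    simp only [dsum]
    rw [← Summable.tsum_finsetSum h1, ← tsum_mul_left, ← tsum_mul_left]
    refine Summable.tsum_le_tsum (fun q => ?_) ((summ hL _ (triv_le n) hs).mul_left _)
      ((summable_sum h1).mul_left _)
    rw [← Finset.sum_mul, ← mul_assoc, ← mul_assoc]
    exact mul_le_mul_of_nonneg_right (hq q) (by positivity)
  have hC : ∀ x ∈ 𝒴 ×ˢ 𝒴, ∃ C : ℝ, ∀ s : ℝ, 1 < s → s ≤ 2 → dsum (lam (x.1 * cj x.2 :)) s ≤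
      (if x.1 = x.2 then Real.log (1 / (s - 1)) else 0) + C := by
    intro x hx
    by_cases h : x.1 = x.2
    · obtain ⟨C, hC⟩ := (hDen k K E n hn).1
      refine ⟨C, fun s h1 h2 => ?_⟩
      rw [if_pos h, h, mul_cj (h𝒴 _ (Finset.mem_product.1 hx).2).1.toIsChar]
      linarith [(abs_le.1 (hC s h1 h2)).2]
    · obtain ⟨C, hC⟩ := (hDen k K E n hn).2 _ _ _ (hH x hx) fun ht => h (eq_of_triv
        (h𝒴 _ (Finset.mem_product.1 hx).1).1.toIsChar
        (h𝒴 _ (Finset.mem_product.1 hx).2).1.toIsChar ht)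
      exact ⟨C, fun s h1 h2 => by rw [if_neg h, zero_add]; exact hC s h1 h2⟩
  choose! C hC using hC
  obtain ⟨C', hC'⟩ := (hDen k K E' n hn).1
  by_contra hlt
  push Not at hlt
  have h1 : (d : ℝ) + 1 ≤ 𝒴.card := by exact_mod_cast hlt
  have h0 : (0 : ℝ) ≤ d := Nat.cast_nonneg d
  set h : ℝ := (𝒴.card : ℝ) with hh
  set B : ℝ := |h ^ 2 * C' + d * ∑ x ∈ 𝒴 ×ˢ 𝒴, C x| + 1 with hB
  have hB0 : 0 < B := by positivity
  have he : Real.exp (-B) ≤ 1 := Real.exp_le_one_iff.2 (by linarith)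
  have hlog : Real.log (1 / (1 + Real.exp (-B) - 1)) = B := by
    rw [add_sub_cancel_left, one_div, ← Real.exp_neg, neg_neg, Real.log_exp]
  have hs1 : 1 < 1 + Real.exp (-B) := by linarith [Real.exp_pos (-B)]
  have h2 := hs _ hs1
  have h3 := (abs_le.1 (hC' _ hs1 (by linarith))).1
  have h4 := Finset.sum_le_sum fun x hx => hC x hx _ hs1 (by linarith)
  have h9 : (∑ x ∈ 𝒴 ×ˢ 𝒴, if x.1 = x.2 then B else 0) = h * B := by
    rw [Finset.sum_product]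
    simp only [Finset.sum_ite_eq]
    rw [Finset.sum_congr rfl fun x hx => if_pos hx, Finset.sum_const, nsmul_eq_mul]
  rw [hlog] at h3
  rw [Finset.sum_add_distrib, hlog, h9] at h4
  have h5 := mul_le_mul_of_nonneg_left h4 h0
  have h6 := mul_le_mul_of_nonneg_left h3 (sq_nonneg h)
  have h7 := le_abs_self (h ^ 2 * C' + d * ∑ x ∈ 𝒴 ×ˢ 𝒴, C x)
  have h8 : 1 * B ≤ (h * (h - d)) * B :=
    mul_le_mul_of_nonneg_right (by nlinarith) hB0.le
  nlinarith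

end Pool.Agent.P.MP_b8021b_nt.VC
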