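import Pool.Agent.P.MP_b8021b_nt.VC.StH

/-! Tame total ramification in a cyclic extension of prime degree. -/

namespace Pool.Agent.P.MP_b8021b_nt.VC

open NumberField
open scoped Pointwise

namespace Tame

variable {S G : Type} [CommRing S] [IsDedekindDomain S] [Group G] [MulSemiringAction G S]

omit [IsDedekindDomain S] in
theorem smul_sq {P : Ideal S} (hin : ∀ (σ : G) (x : S), σ • x - x ∈ P) (σ : G) {x : S}
    (hx : x ∈ P ^ 2) : σ • x ∈ P ^ 2 := by
  have h1 : ∀ y ∈ P, σ • y ∈ P := fun y hy => by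
    have := P.add_mem (hin σ y) hy
    rwa [sub_add_cancel] at this
  rw [pow_two] at hx ⊢
  refine Submodule.mul_induction_on hx (fun a ha b hb => ?_) (fun a b ha hb => ?_)
  · rw [smul_mul']
    exact Ideal.mul_mem_mul (h1 a ha) (h1 b hb)
  · rw [smul_add]
    exact Ideal.add_mem _ ha hb

omit [IsDedekindDomain S] in
theorem pow_smul_sub {P : Ideal S} (hin : ∀ (σ : G) (x : S), σ • x - x ∈ P) (σ : G) {π u : S}
    (hπ : π ∈ P) (hu : σ • π - u * π ∈ P ^ 2) (j : ℕ) : (σ ^ j) • π - u ^ j * π ∈ P ^ 2 := by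
  induction j with
  | zero => simp
  | succ j ih =>
    have h1 := smul_sq hin σ ih
    rw [smul_sub, smul_mul', ← mul_smul, ← pow_succ'] at h1
    have h2 : σ • π ∈ P := by
      have := P.add_mem (hin σ π) hπ
      rwa [sub_add_cancel] at this
    have h3 : (σ • u ^ j - u ^ j) * σ • π ∈ P ^ 2 := by
      rw [pow_two]
      exact Ideal.mul_mem_mul (hin σ _) h2
    have h4 : u ^ j * (σ • π - u * π) ∈ P ^ 2 := Ideal.mul_mem_left _ _ hu
    have e : (σ ^ (j + 1)) • π - u ^ (j + 1) * π =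
        ((σ ^ (j + 1)) • π - σ • u ^ j * σ • π) + (σ • u ^ j - u ^ j) * σ • π +
          u ^ j * (σ • π - u * π) := by ring
    rw [e]
    exact Ideal.add_mem _ (Ideal.add_mem _ h1 h3) h4

theorem tame [Fintype G] {P : Ideal S} [hP : P.IsMaximal] (h0 : P ≠ ⊥) [Finite (S ⧸ P)]
    (hG : (Fintype.card G).Prime) (hin : ∀ (σ : G) (x : S), σ • x - x ∈ P)
    (hfix : ∀ x ∈ P, (∀ σ : G, σ • x = x) → x ∈ P ^ 2) (hn : (Fintype.card G : S) ∉ P) :
    Fintype.card G ∣ Nat.card (S ⧸ P) - 1 := by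
  obtain ⟨π, hπ, hπ2⟩ := Ideal.exists_mem_pow_notMem_pow_succ P h0 hP.ne_top 1
  rw [pow_one] at hπ
  have hsm : ∀ σ : G, σ • π ∈ P := fun σ => by
    have := P.add_mem (hin σ π) hπ
    rwa [sub_add_cancel] at this
  by_cases hall : ∀ σ : G, σ • π - π ∈ P ^ 2
  · exfalso
    have h1 : ∑ σ : G, σ • π ∈ P ^ 2 := by
      refine hfix _ (P.sum_mem fun σ _ => hsm σ) fun τ => ?_
      rw [Finset.smul_sum]
      simp_rw [← mul_smul]
      exact Equiv.sum_comp (Equiv.mulLeft τ) fun σ => σ • π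
    have h2 : ∑ σ : G, (σ • π - π) ∈ P ^ 2 := Ideal.sum_mem _ fun σ _ => hall σ
    rw [Finset.sum_sub_distrib, Finset.sum_const, Finset.card_univ, nsmul_eq_mul] at h2
    have h3 := Ideal.sub_mem _ h1 h2
    rw [sub_sub_cancel] at h3
    exact (Ideal.IsPrime.mul_mem_pow P h3).elim hn hπ2
  · push Not at hall
    obtain ⟨σ, hσ⟩ := hall
    have hsp : Ideal.span {π} ⊔ P ^ 2 = P := by
      have := Ideal.eq_prime_pow_of_succ_lt_of_le (P := P) (I := Ideal.span {π} ⊔ P ^ 2) h0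
        (i := 1) (lt_of_le_of_ne le_sup_right fun h => hπ2 (by
          rw [h]; exact Ideal.mem_sup_left (Ideal.mem_span_singleton_self π)))
        (by
          rw [pow_one]
          exact sup_le ((Ideal.span_singleton_le_iff_mem P).2 hπ) (Ideal.pow_le_self two_ne_zero))
      rwa [pow_one] at this
    obtain ⟨u, r, hr, hur⟩ := Ideal.mem_span_singleton_sup.1 (hsp.symm ▸ hsm σ :
      σ • π ∈ Ideal.span {π} ⊔ P ^ 2)
    have hu : σ • π - u * π ∈ P ^ 2 := by
      rw [← hur, add_sub_cancel_left]; exact hr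
    have h1 := pow_smul_sub hin σ hπ hu (Fintype.card G)
    rw [pow_card_eq_one, one_smul] at h1
    have h2 : (1 - u ^ Fintype.card G) * π ∈ P ^ 2 := by
      rwa [sub_mul, one_mul]
    have h3 : 1 - u ^ Fintype.card G ∈ P := (Ideal.IsPrime.mul_mem_pow P h2).resolve_right hπ2
    have h4 : u - 1 ∉ P := fun h => hσ (by
      have h5 : (u - 1) * π ∈ P ^ 2 := by
        rw [pow_two]; exact Ideal.mul_mem_mul h hπ
      have := Ideal.add_mem _ hu h5
      rwa [show σ • π - u * π + (u - 1) * π = σ • π - π by ring] at this)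
    letI : Field (S ⧸ P) := Ideal.Quotient.field P
    letI : Fintype (S ⧸ P) := Fintype.ofFinite _
    haveI : Fact (Fintype.card G).Prime := ⟨hG⟩
    have h5 : Ideal.Quotient.mk P u ^ Fintype.card G = 1 := by
      rw [← map_pow, ← map_one (Ideal.Quotient.mk P), eq_comm, Ideal.Quotient.eq]
      exact h3
    have h6 : Ideal.Quotient.mk P u ≠ 1 := fun h => h4 (by
      rwa [← map_one (Ideal.Quotient.mk P), Ideal.Quotient.eq] at h)
    have h7 : Ideal.Quotient.mk P u ≠ 0 := fun h => by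
      rw [h, zero_pow hG.ne_zero] at h5
      exact zero_ne_one h5
    rw [← orderOf_eq_prime h5 h6, Nat.card_eq_fintype_card]
    exact orderOf_dvd_of_pow_eq_one (FiniteField.pow_card_sub_one_eq_one _ h7)

end Tame

theorem p_tame : S_Tame := by
  intro E E' _ _ _ _ _ _ 𝔓 hn hP hR
  classical
  set p : Ideal (𝓞 E) := 𝔓.comap (algebraMap (𝓞 E) (𝓞 E')) with hp
  haveI hlo : 𝔓.LiesOver p := ⟨rfl⟩
  haveI hpm : p.IsMaximal := Ideal.isMaximal_comap_of_isIntegral_of_isMaximal 𝔓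
  have h0 : 𝔓 ≠ ⊥ := Ring.ne_bot_of_isMaximal_of_not_isField hP (RingOfIntegers.not_isField E')
  have hp0 : p ≠ ⊥ := Ring.ne_bot_of_isMaximal_of_not_isField hpm (RingOfIntegers.not_isField E)
  have hcard : Nat.card Gal(E'/E) = Module.finrank E E' := IsGalois.card_aut_eq_finrank E E'
  have hefg := Ideal.ncard_primesOver_mul_ramificationIdxIn_mul_inertiaDegIn p (𝓞 E') Gal(E'/E)
  have he := Ideal.ramificationIdxIn_eq_ramificationIdx p 𝔓 Gal(E'/E)
  have hf := Ideal.inertiaDegIn_eq_inertiaDeg p 𝔓 Gal(E'/E)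
  rw [hcard, he, hf] at hefg
  have he1 : 𝔓.ramificationIdx (𝓞 E) ≠ 1 := by
    rw [← Ideal.ramificationIdx'_eq_ramificationIdx p 𝔓 hp0,
      Ideal.ramificationIdx'_ne_one_iff Ideal.map_comap_le]
    exact hR
  have he2 : 𝔓.ramificationIdx (𝓞 E) = Module.finrank E E' := by
    refine ((Nat.dvd_prime hn).1 ⟨(p.primesOver (𝓞 E')).ncard * 𝔓.inertiaDeg (𝓞 E), ?_⟩).resolve_left
      he1
    rw [← hefg]; ring
  have hgf : (p.primesOver (𝓞 E')).ncard * 𝔓.inertiaDeg (𝓞 E) = 1 := by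
    apply Nat.eq_of_mul_eq_mul_left hn.pos
    rw [he2] at hefg
    rw [mul_one]
    conv_rhs => rw [← hefg]
    ring
  have hg : (p.primesOver (𝓞 E')).ncard = 1 := Nat.eq_one_of_mul_eq_one_right hgf
  have hf1 : 𝔓.inertiaDeg (𝓞 E) = 1 := Nat.eq_one_of_mul_eq_one_left hgf
  obtain ⟨Q, hQ⟩ := Set.ncard_eq_one.1 hg
  have hmem : 𝔓 ∈ p.primesOver (𝓞 E') := ⟨hP.isPrime, hlo⟩
  have hQ' : p.primesOver (𝓞 E') = {𝔓} := by
    rw [hQ] at hmem ⊢
    rw [Set.mem_singleton_iff.1 hmem]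
  have hin : ∀ (σ : Gal(E'/E)) (x : 𝓞 E'), σ • x - x ∈ 𝔓 := by
    have h1 := Ideal.card_inertia_eq_ramificationIdxIn (G := Gal(E'/E)) p 𝔓
    rw [he, he2, ← hcard] at h1
    have h2 := Subgroup.eq_top_of_card_eq _ h1
    intro σ
    have h3 : σ ∈ 𝔓.inertia Gal(E'/E) := h2 ▸ Subgroup.mem_top σ
    exact h3
  refine ⟨?_, fun σ => ?_, ?_, fun hnP => ?_⟩
  · rw [Ideal.map_algebraMap_eq_finsetProd_pow hp0, Finset.prod_eq_single 𝔓, he2]
    · intro Q hQ1 hQ2
      rw [Set.mem_toFinset, hQ'] at hQ1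
      exact absurd hQ1 hQ2
    · intro h
      exact absurd (Set.mem_toFinset.2 hmem) h
  · have h1 : σ • 𝔓 ∈ p.primesOver (𝓞 E') := ⟨inferInstance, inferInstance⟩
    rw [hQ'] at h1
    have h2 : act (σ : E' →+* E') 𝔓 = σ • 𝔓 := by
      rw [Ideal.pointwise_smul_def]
      rfl
    rw [h2]
    exact h1
  · rw [← Ideal.absNorm_pow_inertiaDeg p 𝔓, hf1, pow_one]
  · letI : Fintype Gal(E'/E) := Fintype.ofFinite _
    have hc : Fintype.card Gal(E'/E) = Module.finrank E E' := by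
      rw [← Nat.card_eq_fintype_card, hcard]
    have := Tame.tame (G := Gal(E'/E)) h0 (hc ▸ hn) hin (fun x hx hfix => ?_) (hc ▸ hnP)
    · rw [hc] at this
      exact this
    · obtain ⟨a, rfl⟩ := Algebra.IsInvariant.isInvariant (A := 𝓞 E) x hfix
      exact hR (Ideal.mem_map_of_mem _ hx)

end Pool.Agent.P.MP_b8021b_nt.VC
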