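import Pool.Agent.P.MP_b8021b_nt.VC.StG
import Pool.Agent.P.MP_b8021b_nt.VE.StN

/-! A character that is trivial at almost all primes of degree one is trivial. -/

namespace Pool.Agent.P.MP_b8021b_nt.VC

open NumberField Finset Pool.Agent.P.MP_b8021b_nt.VE

namespace PTriv

theorem summ {a : ℕ → ℂ} {B s : ℝ} (hs : 1 < s) (h : ∀ q : ℕ, q.Prime → ‖a q‖ ≤ B) :
    Summable fun q : Nat.Primes => (a q).re * (q : ℝ) ^ (-s) := by
  refine Summable.of_norm_bounded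
    ((Nat.Primes.summable_rpow.2 (by linarith : -s < -1)).mul_left B) fun q => ?_
  have h0 : (0 : ℝ) ≤ (q : ℝ) ^ (-s) := Real.rpow_nonneg (Nat.cast_nonneg _) _
  rw [norm_mul, Real.norm_of_nonneg h0]
  exact mul_le_mul_of_nonneg_right ((Complex.abs_re_le_norm _).trans (h q q.2)) h0

theorem diff {a b : ℕ → ℂ} {B : ℝ} {m : ℕ} (hm : m ≠ 0) (ha : ∀ q : ℕ, q.Prime → ‖a q‖ ≤ B)
    (hb : ∀ q : ℕ, q.Prime → ‖b q‖ ≤ B) (h : ∀ q : ℕ, q.Prime → ¬ q ∣ m → a q = b q) :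
    ∃ C : ℝ, ∀ s : ℝ, 1 < s → dsum a s ≤ dsum b s + C := by
  have hfin : {q : Nat.Primes | (q : ℕ) ∣ m}.Finite :=
    (Set.finite_le_nat m).preimage (f := fun q : Nat.Primes => (q : ℕ))
      Nat.Primes.coe_nat_injective.injOn |>.subset fun q hq => Nat.le_of_dvd (by omega) hq
  refine ⟨∑ _q ∈ hfin.toFinset, 2 * B, fun s hs => ?_⟩
  rw [← sub_le_iff_le_add', dsum, dsum, ← (summ hs ha).tsum_sub (summ hs hb),
    tsum_eq_sum (s := hfin.toFinset) fun q hq => by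
      rw [h q q.2 (by simpa using hq), sub_self]]
  refine sum_le_sum fun q _ => ?_
  have h0 : (0 : ℝ) ≤ (q : ℝ) ^ (-s) := Real.rpow_nonneg (Nat.cast_nonneg _) _
  have h1 : (q : ℝ) ^ (-s) ≤ 1 :=
    Real.rpow_le_one_of_one_le_of_nonpos (by exact_mod_cast q.2.one_le) (by linarith)
  have h2 := abs_le.1 ((Complex.abs_re_le_norm _).trans (ha q q.2))
  have h3 := abs_le.1 ((Complex.abs_re_le_norm _).trans (hb q q.2))
  nlinarith [h2.1, h2.2, h3.1, h3.2]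

end PTriv

open PTriv in
theorem p_triv (hDen : S_Den) (hLam : VE.S_Lam) : S_Triv := by
  intro k _ _ _ K E _ _ _ n m κ τ χ hn hm hχ h1
  by_contra hT
  obtain ⟨⟨C₁, hC₁⟩, h2⟩ := hDen k K E n hn
  obtain ⟨C₂, hC₂⟩ := h2 κ τ χ hχ hT
  have hb : ∀ ψ : Ideal (𝓞 E) → ℂ, (∀ I, ‖ψ I‖ ≤ 1) → ∀ q : ℕ, q.Prime →
      ‖lam ψ q‖ ≤ (2 : ℝ) ^ Module.finrank ℚ E := fun ψ hψ q hq => by
    have := (hLam E).2.1 ψ q hq.one_le hψ
    rwa [hq.divisors, card_pair hq.one_lt.ne, Nat.cast_ofNat] at this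
  have t1 : ∀ I, Cop n I → triv E n I = 1 := fun I hI => if_pos hI
  have t0 : ∀ I, ¬ Cop n I → triv E n I = 0 := fun I hI => if_neg hI
  obtain ⟨C₃, hC₃⟩ := diff (a := lam (triv E n)) (b := lam χ) hm
    (hb _ fun I => by
      by_cases hI : Cop n I
      · rw [t1 I hI, norm_one]
      · rw [t0 I hI, norm_zero]; exact zero_le_one)
    (hb _ fun I => by
      by_cases hI : Cop n I
      · exact (hχ.norm_cop I hI).le
      · rw [hχ.zero I hI, norm_zero]; exact zero_le_one)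
    fun q hq hd => finsum_mem_congr rfl fun I hI => by
      have e : Ideal.absNorm I = q := hI
      by_cases hc : Cop n I
      · rw [t1 I hc, h1 I (e ▸ hq) (e ▸ hd)]
      · rw [t0 I hc, hχ.zero I hc]
  set A := |C₁ + C₂ + C₃| + 1 with hA
  have hA0 : 0 ≤ A := by positivity
  have s1 : 1 < 1 + Real.exp (-A) := by linarith [Real.exp_pos (-A)]
  have s2 : 1 + Real.exp (-A) ≤ 2 := by
    linarith [Real.exp_le_one_iff.2 (neg_nonpos.2 hA0)]
  have a1 := (abs_le.1 (hC₁ _ s1 s2)).1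
  have a2 := hC₂ _ s1 s2
  have a3 := hC₃ _ s1
  rw [add_sub_cancel_left, one_div, Real.log_inv, Real.log_exp, neg_neg] at a1
  linarith [le_abs_self (C₁ + C₂ + C₃)]

end Pool.Agent.P.MP_b8021b_nt.VC
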