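import Pool.Agent.P.MP_b8021b_nt.VC.GD

/-! Existence of a system of independent units. -/

namespace Pool.Agent.P.MP_b8021b_nt.VC.Geo

open NumberField Finset Pool.Agent.P.MP_b8021b_nt.VE
open scoped Classical ComplexConjugate

variable {k : Type} [Field k] [NumberField k] [Algebra k ℂ] {E : Type} [Field E] [NumberField E]
  [Algebra k E] {Q : ℝ} {F : Dat E (Emb k E) Q}

lemma unit_pos (hF : ∀ a φ, F.τ φ a = emb k a φ) (n : ℕ) (hn : 1 ≤ n) (D : ℝ) (hD : 0 ≤ D)
    (i : Emb k E) : ∃ ε : (𝓞 E)ˣ, (n : 𝓞 E) ∣ ε - 1 ∧ (∀ j, j ≠ i → lg (emb k (ε : 𝓞 E)) j ≤ -D) ∧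
      (∀ j, |lg (emb k (ε : 𝓞 E)) j| ≤ 2 * ((D + 1) * (6 * Fintype.card (Emb k E) * Q * n) ^
        (4 * Fintype.card (Emb k E) ^ 2 + 4 * Fintype.card (Emb k E) + 4))) ∧
      (IsCM E → ∀ φ, dir (emb k (ε : 𝓞 E) φ) = 1) := by
  obtain ⟨ε, h1, h2, h3⟩ := unit_at F n hn D hD i
  rw [lg_eq hF] at h2 h3
  by_cases hc : IsCM E
  · obtain ⟨c, hc⟩ := hc
    let η : (𝓞 E)ˣ := ε * Units.map (c : 𝓞 E →* 𝓞 E) ε
    have e1 : ∀ φ, emb k (η : 𝓞 E) φ = ((‖emb k (ε : 𝓞 E) φ‖ ^ 2 : ℝ) : ℂ) := fun φ => by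
      have := hc (φ : E →+* ℂ) ε
      have e2 : emb k (c ε) φ = conj (emb k (ε : 𝓞 E) φ) := this
      show emb k ((ε : 𝓞 E) * c ε) φ = _
      rw [emb_mul, Pi.mul_apply, e2, Complex.mul_conj, Complex.normSq_eq_norm_sq]
    have e2 : ∀ φ, lg (emb k (η : 𝓞 E)) φ = 2 * lg (emb k (ε : 𝓞 E)) φ := fun φ => by
      rw [lg, lg, e1, Complex.norm_real, Real.norm_of_nonneg (by positivity), Real.log_pow]
      simp
    refine ⟨η, ?_, fun j hj => ?_, fun j => ?_, fun _ φ => ?_⟩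
    · have h4 : (n : 𝓞 E) ∣ c ε - 1 := by simpa using map_dvd c h1
      have e3 : (η : 𝓞 E) - 1 = (ε - 1) * c ε + (c ε - 1) := by
        show (ε : 𝓞 E) * c ε - 1 = _
        ring
      rw [e3]
      exact dvd_add (h1.mul_right _) h4
    · rw [e2]
      linarith [h2 j hj]
    · rw [e2, abs_mul, abs_two]
      linarith [h3 j]
    · have h0 : emb k (ε : 𝓞 E) φ ≠ 0 := hF _ φ ▸ tau_ne F ε.ne_zero φ
      have h5 : 0 < ‖emb k (ε : 𝓞 E) φ‖ ^ 2 := pow_pos (norm_pos_iff.2 h0) 2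
      rw [e1, dir, Complex.norm_real, Real.norm_of_nonneg h5.le,
        div_self (Complex.ofReal_ne_zero.2 h5.ne')]
  · exact ⟨ε, h1, h2, fun j => by linarith [h3 j, abs_nonneg (lg (emb k (ε : 𝓞 E)) j)],
      fun h => absurd h hc⟩

lemma sum_lg_emb (hF : ∀ a φ, F.τ φ a = emb k a φ) (u : (𝓞 E)ˣ) :
    ∑ φ, lg (emb k (u : 𝓞 E)) φ = 0 := by
  rw [← lg_eq hF]
  exact sum_lg_unit F u

theorem exUB (hF : ∀ a φ, F.τ φ a = emb k a φ) (n : ℕ) (hn : 1 ≤ n) {ℓ : ℝ}
    (hℓ : 2 * ((200 * Fintype.card (Emb k E) + 1) * (6 * Fintype.card (Emb k E) * Q * n) ^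
        (4 * Fintype.card (Emb k E) ^ 2 + 4 * Fintype.card (Emb k E) + 4)) ≤ ℓ) :
    ∃ U : UB k E n ℓ, IsCM E → U.Pos := by
  have hd := card_pos F
  have hdR : (1 : ℝ) ≤ Fintype.card (Emb k E) := by exact_mod_cast hd
  obtain ⟨m, hm⟩ : ∃ m, Fintype.card (Emb k E) = m + 1 := ⟨_, (Nat.succ_pred_eq_of_pos hd).symm⟩
  let e : Fin (m + 1) ≃ Emb k E := (Fintype.equivFinOfCardEq hm).symm
  have hD : (0 : ℝ) < 200 * Fintype.card (Emb k E) := by positivity
  choose ε h1 h2 h3 h4 using fun j : Fin m => unit_pos hF n hn _ hD.le (e j.succ)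
  let a : Fin m → Fin m → ℝ := fun j i => lg (emb k (ε j : 𝓞 E)) (e i.succ)
  have hs : ∀ y : Emb k E → ℝ, ∑ φ, y φ = y (e 0) + ∑ i : Fin m, y (e i.succ) := fun y => by
    rw [← e.sum_comp, Fin.sum_univ_succ]
  have dom := dominance a (200 * Fintype.card (Emb k E))
    (fun j i hij => (h2 j _ fun h => hij (Fin.succ_injective _ (e.injective h))).trans
      (by linarith))
    (fun j => by
      have := hs (lg (emb k (ε j : 𝓞 E)))
      rw [sum_lg_emb hF] at this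
      have h5 := h2 j (e 0) fun h => Fin.succ_ne_zero j (e.injective h).symm
      simp only [a]
      linarith)
  let T : (Fin m → ℝ) →ₗ[ℝ] (Fin m → ℝ) := Matrix.vecMulLinear (Matrix.of a)
  have hT : ∀ x i, T x i = ∑ j, x j * a j i := fun x i => rfl
  have hTi : Function.Injective T := by
    rw [injective_iff_map_eq_zero]
    intro x hx
    have h5 := dom x
    simp only [← hT, hx, Pi.zero_apply, abs_zero, sum_const_zero] at h5
    have h6 : ∑ i, |x i| = 0 :=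
      le_antisymm (by nlinarith) (sum_nonneg fun _ _ => abs_nonneg _)
    funext i
    exact abs_eq_zero.1 ((sum_eq_zero_iff_of_nonneg fun _ _ => abs_nonneg _).1 h6 i (mem_univ i))
  let T' := LinearEquiv.ofInjectiveEndo T hTi
  let M : (Emb k E → ℝ) →ₗ[ℝ] (Fin m → ℝ) := LinearMap.pi fun i => LinearMap.proj (e i.succ) -
    (Fintype.card (Emb k E) : ℝ)⁻¹ • ∑ φ, LinearMap.proj φ
  have hM : ∀ y i, M y i = y (e i.succ) - (Fintype.card (Emb k E) : ℝ)⁻¹ * ∑ φ, y φ :=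
    fun y i => by simp [M]
  have hTc : ∀ y, T (T'.symm (M y)) = M y := fun y => T'.apply_symm_apply _
  have hQ := one_le_Q F
  have hnR : (1 : ℝ) ≤ n := by exact_mod_cast hn
  refine ⟨⟨m, by rw [← hm, card_emb], ε, h1, T'.symm.toLinearMap ∘ₗ M, ?_, fun j => ?_,
    fun x hx => ?_, fun x => ?_, ?_, fun j => ?_⟩, fun hc j φ => h4 j hc φ⟩
  · have : M (fun _ => 1) = 0 := by
      funext i
      rw [hM]
      simp only [sum_const, card_univ, nsmul_eq_mul, mul_one, Pi.zero_apply]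
      rw [inv_mul_cancel₀ (by positivity), sub_self]
    simp [this]
  · apply hTi
    refine (hTc _).trans ?_
    funext i
    rw [hM, sum_lg_emb hF, hT]
    simp [Pi.single_apply, a]
  · have h5 : ∀ i : Fin m, (∑ j, T'.symm (M x) j • lg (emb k (ε j : 𝓞 E))) (e i.succ) =
        x (e i.succ) := fun i => by
      have := congrFun (hTc x) i
      rw [hT, hM, hx, mul_zero, sub_zero] at this
      rw [← this, Finset.sum_apply]
      rfl
    have h6 : ∑ φ, (∑ j, T'.symm (M x) j • lg (emb k (ε j : 𝓞 E))) φ = 0 := by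
      simp only [Finset.sum_apply, Pi.smul_apply, smul_eq_mul]
      rw [sum_comm]
      refine sum_eq_zero fun j _ => ?_
      rw [← mul_sum, sum_lg_emb hF, mul_zero]
    funext φ
    obtain ⟨i, rfl⟩ := e.surjective φ
    refine Fin.cases ?_ h5 i
    rw [hs] at h6 hx
    rw [sum_congr rfl fun i _ => h5 i] at h6
    exact add_right_cancel (h6.trans hx.symm)
  · have h5 := dom (T'.symm (M x))
    simp only [← hT, hTc] at h5
    have h6 : ∀ i, |M x i| ≤ 2 * ‖x‖ := fun i => by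
      rw [hM]
      refine (abs_sub _ _).trans ?_
      have h7 : |∑ φ, x φ| ≤ Fintype.card (Emb k E) * ‖x‖ := by
        refine (abs_sum_le_sum_abs _ _).trans ?_
        refine (sum_le_card_nsmul _ _ ‖x‖ fun φ _ => norm_le_pi_norm x φ).trans ?_
        simp
      have h8 : |(Fintype.card (Emb k E) : ℝ)⁻¹ * ∑ φ, x φ| ≤ ‖x‖ := by
        rw [abs_mul, abs_of_nonneg (by positivity), inv_mul_le_iff₀ (by positivity)]
        exact h7
      have h9 : |x (e i.succ)| ≤ ‖x‖ := norm_le_pi_norm x _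
      linarith
    have h7 : ∑ i, |M x i| ≤ m * (2 * ‖x‖) := by
      refine (sum_le_card_nsmul _ _ _ fun i _ => h6 i).trans ?_
      simp
    have h8 : (m : ℝ) ≤ Fintype.card (Emb k E) := by rw [hm]; push_cast; linarith
    refine (pi_norm_le_iff_of_nonneg (by positivity)).2 fun i => ?_
    have h9 : |T'.symm (M x) i| ≤ ∑ i, |T'.symm (M x) i| :=
      single_le_sum (f := fun i => |T'.symm (M x) i|) (fun _ _ => abs_nonneg _) (mem_univ i)
    show |T'.symm (M x) i| ≤ _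
    have h10 : (200 * Fintype.card (Emb k E) : ℝ) * |T'.symm (M x) i| ≤
        200 * Fintype.card (Emb k E) * (‖x‖ / 100) := by
      nlinarith [norm_nonneg x]
    exact le_of_mul_le_mul_left h10 hD
  · refine le_trans ?_ hℓ
    have : (1 : ℝ) ≤ (6 * Fintype.card (Emb k E) * Q * n) ^
        (4 * Fintype.card (Emb k E) ^ 2 + 4 * Fintype.card (Emb k E) + 4) :=
      one_le_pow₀ (one_le_mul_of_one_le_of_one_le (one_le_mul_of_one_le_of_one_le
        (by linarith) hQ) hnR)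
    nlinarith
  · refine le_trans ((pi_norm_le_iff_of_nonneg (by positivity)).2 fun φ => h3 j φ) hℓ

end Pool.Agent.P.MP_b8021b_nt.VC.Geo
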