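import Pool.Agent.P.MP_b8021b_nt.VC.StG
import Pool.Agent.P.MP_b8021b_nt.VC.GC
import Pool.Agent.P.MP_b8021b_nt.VC.GU

/-! Short independent units. -/

namespace Pool.Agent.P.MP_b8021b_nt.VC

open NumberField Finset Pool.Agent.P.MP_b8021b_nt.VE Geo
open scoped Classical

theorem p_unit : S_Unit := by
  intro k _ _ _ K D
  obtain ⟨C, h1⟩ := ex_pow (2 * (200 * D + 1) * (6 * D * |(K.D : ℝ)|) ^ (4 * D ^ 2 + 4 * D + 4))
    (4 * D ^ 2 + 4 * D + 4)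
  refine ⟨C, fun E _ _ _ hD Q n hQ hS hn => ?_⟩
  have hc : Fintype.card (Emb k E) = D := card_emb.trans hD
  obtain ⟨F, hF⟩ := exDat K hS
  have hnR : (1 : ℝ) ≤ n := by exact_mod_cast hn
  obtain ⟨U, hU⟩ := exUB hF n hn (ℓ := (Q * n) ^ C) (by
    rw [hc]
    refine le_trans (le_of_eq ?_) (h1 C le_rfl (Q * n) (by nlinarith))
    rw [mul_assoc (2 * (200 * (D : ℝ) + 1)), ← mul_pow, mul_assoc 2]
    congr 3
    ring)
  exact ⟨⟨U⟩, fun h => ⟨U, hU h⟩⟩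

end Pool.Agent.P.MP_b8021b_nt.VC
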