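import Pool.Agent.P.MP_b8021b_nt.VC.StG

/-! Integrals of the test functions and the size of the fundamental domain for the units. -/

namespace Pool.Agent.P.MP_b8021b_nt.VC

open NumberField Finset MeasureTheory Pool.Agent.P.MP_b8021b_nt.VE
open scoped Classical

namespace PVol

lemma tent_nonneg (a : ℝ) : 0 ≤ tent a := le_max_left _ _

lemma tent_le (a : ℝ) : tent a ≤ 1 := max_le zero_le_one (by linarith [abs_nonneg a])

lemma tent_ne {a : ℝ} (h : tent a ≠ 0) : |a| < 1 := by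
  by_contra hc
  exact h (max_eq_left (by linarith [not_lt.mp hc]))

lemma tent_cont : Continuous tent := by
  unfold tent
  fun_prop

lemma bump0 : Bump (fun x => tent (x - 2)) 1 := by
  refine ⟨le_rfl, fun x => ?_, fun x x' => ?_, fun x hx => ?_⟩
  · rw [abs_of_nonneg (tent_nonneg _)]; exact tent_le _
  · unfold tent
    rw [max_comm 0, max_comm 0, one_mul]
    refine (abs_max_sub_max_le_abs _ _ _).trans ?_
    have := abs_abs_sub_abs_le_abs_sub (x' - 2) (x - 2)
    rw [show 1 - |x - 2| - (1 - |x' - 2|) = |x' - 2| - |x - 2| by ring, abs_sub_comm x x']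
    simpa using this
  · have := abs_lt.mp (tent_ne hx)
    constructor <;> linarith

lemma four (t : ℝ) (ht : Complex.exp (Complex.I * t) = 1) :
    ∫ y : ℝ, (tent y : ℂ) * Complex.exp (Complex.I * t * y) =
      ∫ y in (0 : ℝ)..1, Complex.exp (Complex.I * t * y) := by
  have hc : Continuous fun y : ℝ => (tent y : ℂ) * Complex.exp (Complex.I * t * y) := by
    have := tent_cont
    fun_prop
  rw [← intervalIntegral.integral_eq_integral_of_support_subset (a := -1) (b := 1) (fun y hy => by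
      have := abs_lt.mp (tent_ne (a := y) fun h => hy (by simp [h]))
      exact ⟨this.1, this.2.le⟩),
    ← intervalIntegral.integral_add_adjacent_intervals (b := 0) (hc.intervalIntegrable _ _)
      (hc.intervalIntegrable _ _)]
  have h1 := intervalIntegral.integral_comp_sub_right (a := 0) (b := 1)
    (fun y : ℝ => (tent y : ℂ) * Complex.exp (Complex.I * t * y)) 1
  rw [zero_sub, sub_self] at h1
  have hc' : Continuous fun y : ℝ =>
      (tent (y - 1) : ℂ) * Complex.exp (Complex.I * t * (y - 1 : ℝ)) :=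
    hc.comp (continuous_id.sub continuous_const)
  rw [← h1, ← intervalIntegral.integral_add (hc'.intervalIntegrable _ _)
    (hc.intervalIntegrable _ _)]
  refine intervalIntegral.integral_congr fun y hy => ?_
  rw [Set.uIcc_of_le zero_le_one] at hy
  have e1 : tent (y - 1) = y := by
    unfold tent
    rw [abs_of_nonpos (by linarith [hy.2]), max_eq_right (by linarith [hy.1])]; ring
  have e2 : tent y = 1 - y := by
    unfold tent
    rw [abs_of_nonneg hy.1, max_eq_right (by linarith [hy.2])]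
  have e3 : Complex.exp (Complex.I * t * (y - 1 : ℝ)) = Complex.exp (Complex.I * t * y) := by
    rw [← mul_one (Complex.exp (Complex.I * t * (y - 1 : ℝ))), ← ht, ← Complex.exp_add]
    congr 1; push_cast; ring
  simp only [e1, e2, e3]
  push_cast; ring

lemma four0 : ∫ y : ℝ, (tent y : ℂ) = 1 := by simpa using four 0 (by simp)

lemma four1 (t : ℝ) (ht : Complex.exp (Complex.I * t) = 1) (h0 : t ≠ 0) :
    ∫ y : ℝ, (tent y : ℂ) * Complex.exp (Complex.I * t * y) = 0 := by
  rw [four t ht, integral_exp_mul_complex (mul_ne_zero Complex.I_ne_zero (by exact_mod_cast h0))]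
  simp [ht]

lemma int0 : ∫ x : ℝ, tent (x - 2) = 1 := by
  rw [integral_sub_right_eq_self tent 2]
  have := four0
  rw [integral_complex_ofReal] at this
  exact_mod_cast this

lemma vol_ball {ι : Type} [Fintype ι] (c : ι → ℂ) {R : ℝ} (hR : 0 ≤ R) :
    volume.real (Metric.closedBall c R) = (R ^ 2 * Real.pi) ^ Fintype.card ι := by
  simp [Measure.real, volume_pi_closedBall c hR, ENNReal.toReal_ofReal hR]

lemma sum_lg {ι : Type} [Fintype ι] {z : ι → ℂ} (h : nz z ≠ 0) :
    2 * ∑ φ, lg z φ = Real.log (nz z) := by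
  rw [nz, Real.log_prod fun φ _ => Finset.prod_ne_zero_iff.mp h φ (mem_univ _), Finset.mul_sum]
  exact Finset.sum_congr rfl fun φ _ => by simp [lg]

lemma ty_split {ι : Type} [Fintype ι] (κ : ι → ℤ) (τ : ι → ℝ) (z : ι → ℂ) :
    ty κ τ z = ty κ 0 z * Complex.exp (Complex.I * (∑ φ, τ φ * lg z φ : ℝ)) := by
  simp only [ty, lg, Pi.zero_apply, zero_mul, Complex.ofReal_zero, mul_zero, Complex.exp_zero,
    mul_one, Finset.prod_mul_distrib, Complex.ofReal_sum, Finset.mul_sum, Complex.exp_sum]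

variable {k : Type} [Field k] [NumberField k] [Algebra k ℂ] {E : Type} [Field E] [NumberField E]
  [Algebra k E] {n : ℕ} {ℓ : ℝ} (U : UB k E n ℓ) {D : ℕ}

lemma co_lv (x : Fin U.m → ℝ) : U.co (U.lv x) = x := by
  simp only [UB.lv, map_sum, map_smul, U.co_ε]
  ext j
  simp [Finset.sum_apply, Pi.single_apply]

lemma le_lv (x : Fin U.m → ℝ) : ‖x‖ ≤ ‖U.lv x‖ / 100 := by
  simpa only [co_lv] using U.small (U.lv x)

lemma lv_le (hD : Module.finrank k E = D) (x : Fin U.m → ℝ) : ‖U.lv x‖ ≤ D * ℓ * ‖x‖ := by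
  have h1 := U.one_le
  have h2 : (U.m : ℝ) ≤ D := by exact_mod_cast (by have := U.hm; omega : U.m ≤ D)
  calc ‖U.lv x‖ ≤ ∑ _j : Fin U.m, ‖x‖ * ℓ := norm_sum_le_of_le _ fun j _ => by
        rw [norm_smul]
        exact mul_le_mul (norm_le_pi_norm x j) (U.size j) (norm_nonneg _) (norm_nonneg _)
    _ = U.m * (ℓ * ‖x‖) := by simp [mul_comm]
    _ ≤ D * ℓ * ‖x‖ := by rw [mul_assoc]; gcongr

lemma lv_sub (x y : Fin U.m → ℝ) : U.lv (x - y) = U.lv x - U.lv y := by
  simp only [UB.lv, Pi.sub_apply, sub_smul, Finset.sum_sub_distrib]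

lemma lv_cont : Continuous U.lv := by
  unfold UB.lv
  fun_prop

lemma decomp (hc : Fintype.card (Emb k E) = D) (h1 : 1 ≤ D) (x : Emb k E → ℝ) (φ : Emb k E) :
    x φ = U.lv (U.co x) φ + (∑ ψ, x ψ) / D := by
  have hD : (D : ℝ) ≠ 0 := by positivity
  have h := U.span (x - ((∑ ψ, x ψ) / D) • fun _ => 1) (by
    simp only [Pi.sub_apply, Pi.smul_apply, smul_eq_mul, mul_one, Finset.sum_sub_distrib,
      Finset.sum_const, Finset.card_univ, hc, nsmul_eq_mul]
    field_simp; ring)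
  rw [map_sub, map_smul, U.co_one, smul_zero, sub_zero] at h
  have := congrFun h φ
  simp only [Pi.sub_apply, Pi.smul_apply, smul_eq_mul, mul_one] at this
  rw [UB.lv, this]; ring

lemma norm_le (hc : Fintype.card (Emb k E) = D) (h1 : 1 ≤ D) {z : Emb k E → ℂ}
    (hz : tent (nz z - 2) ≠ 0) {R : ℝ} (hR : ‖U.lv (U.co (lg z))‖ ≤ R) :
    ‖z‖ ≤ Real.exp (R + 1) := by
  have h2 := abs_lt.mp (tent_ne hz)
  have h3 := sum_lg (z := z) (by linarith [h2.1])
  have h4 := Real.log_le_sub_one_of_pos (x := nz z) (by linarith [h2.1])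
  have hD : (1 : ℝ) ≤ D := by exact_mod_cast h1
  have h5 : (∑ ψ, lg z ψ) / D ≤ 1 := by
    rw [div_le_one (by linarith)]; linarith [h2.2]
  refine (pi_norm_le_iff_of_nonneg (Real.exp_pos _).le).mpr fun φ => ?_
  refine (Real.le_exp_log _).trans (Real.exp_le_exp.mpr ?_)
  have h6 := decomp U hc h1 (lg z) φ
  have h7 := (le_abs_self _).trans (norm_le_pi_norm (U.lv (U.co (lg z))) φ)
  change lg z φ ≤ _
  linarith

lemma le_ind (hc : Fintype.card (Emb k E) = D) (h1 : 1 ≤ D) {h : (Fin U.m → ℝ) → ℝ}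
    (hh : ∀ x, h x ≤ 1) {R : ℝ} (hR : ∀ x, h x ≠ 0 → ‖U.lv x‖ ≤ R) (z : Emb k E → ℂ) :
    h (U.co (lg z)) * tent (nz z - 2) ≤
      (Metric.closedBall (0 : Emb k E → ℂ) (Real.exp (R + 1))).indicator (fun _ => 1) z := by
  by_cases h0 : h (U.co (lg z)) * tent (nz z - 2) = 0
  · rw [h0]; exact Set.indicator_nonneg (fun _ _ => zero_le_one) _
  rw [Set.indicator_of_mem (mem_closedBall_zero_iff.mpr
    (norm_le U hc h1 (right_ne_zero_of_mul h0) (hR _ (left_ne_zero_of_mul h0))))]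
  exact (mul_le_mul_of_nonneg_right (hh _) (tent_nonneg _)).trans (by simpa using tent_le _)

omit [Algebra k ℂ] in
lemma ind_int {ι : Type} [Fintype ι] (c : ι → ℂ) (R a : ℝ) :
    Integrable ((Metric.closedBall c R).indicator fun _ => a) :=
  (integrableOn_const (measure_closedBall_lt_top).ne).integrable_indicator
    measurableSet_closedBall

lemma beta_supp (hD : Module.finrank k E = D) {x : Fin U.m → ℝ} (hx : ∏ j, tent (x j) ≠ 0) :
    ‖x‖ ≤ 1 ∧ ‖U.lv x‖ ≤ D * ℓ := by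
  have h1 : ‖x‖ ≤ 1 := (pi_norm_le_iff_of_nonneg zero_le_one).mpr fun j =>
    (tent_ne (Finset.prod_ne_zero_iff.mp hx j (mem_univ _))).le
  have h2 : 0 ≤ D * ℓ := mul_nonneg (Nat.cast_nonneg _) (zero_le_one.trans U.one_le)
  exact ⟨h1, (lv_le U hD x).trans (by nlinarith)⟩

lemma vol_lower (hD : Module.finrank k E = D) (hc : Fintype.card (Emb k E) = D) (h1 : 1 ≤ D)
    {a b : ℝ} (ha : 1 ≤ a) (hab : a ≤ b) (hb : b ≤ 2) (ha' : 3 / 2 ≤ a ^ (2 * D))
    (hb' : b ^ (2 * D) ≤ 5 / 2) :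
    (1 / 2) ^ D * (((b - a) / 2) ^ 2 * Real.pi) ^ D ≤ U.vol := by
  have hint : Integrable fun z : Emb k E → ℂ => U.β z * tent (nz z - 2) := by
    refine (ind_int 0 (Real.exp (D * ℓ + 1)) 1).mono' ?_ (ae_of_all _ fun z => ?_)
    · have h2 : Measurable (lg : (Emb k E → ℂ) → _) := by unfold lg; fun_prop
      have h3 : Measurable fun z => U.co (lg z) :=
        U.co.continuous_of_finiteDimensional.measurable.comp h2
      have h4 := tent_cont.measurable
      refine Measurable.aestronglyMeasurable ?_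
      unfold UB.β nz
      fun_prop
    · rw [UB.β, Real.norm_of_nonneg (mul_nonneg (Finset.prod_nonneg fun _ _ => tent_nonneg _)
        (tent_nonneg _))]
      exact le_ind U hc h1 (h := fun x => ∏ j, tent (x j))
        (fun x => Finset.prod_le_one (fun _ _ => tent_nonneg _) fun _ _ => tent_le _)
        (fun x hx => (beta_supp U hD hx).2) z
  have h := integral_mono (ind_int (fun _ : Emb k E => (((a + b) / 2 : ℝ) : ℂ)) ((b - a) / 2)
    ((1 / 2) ^ D)) hint fun z => ?_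
  · rwa [integral_indicator_const _ measurableSet_closedBall, vol_ball _ (by linarith), hc,
      smul_eq_mul, mul_comm] at h
  by_cases hz : z ∈ Metric.closedBall (fun _ : Emb k E => (((a + b) / 2 : ℝ) : ℂ)) ((b - a) / 2)
  swap
  · rw [Set.indicator_of_notMem hz]
    exact mul_nonneg (Finset.prod_nonneg fun _ _ => tent_nonneg _) (tent_nonneg _)
  rw [Set.indicator_of_mem hz]
  have h2 : ∀ φ, a ≤ ‖z φ‖ ∧ ‖z φ‖ ≤ b := fun φ => by
    have h3 := (dist_le_pi_dist z _ φ).trans (Metric.mem_closedBall.mp hz)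
    have h4 := abs_le.mp ((abs_norm_sub_norm_le _ _).trans ((dist_eq_norm _ _).symm.trans_le h3))
    rw [Complex.norm_real, Real.norm_of_nonneg (by linarith)] at h4
    constructor <;> linarith [h4.1, h4.2]
  have h3 : a ^ (2 * D) ≤ nz z := by
    rw [pow_mul, ← hc, ← Finset.card_univ, ← Finset.prod_const]
    exact Finset.prod_le_prod (fun _ _ => by positivity) fun φ _ => by
      have := (h2 φ).1; gcongr
  have h4 : nz z ≤ b ^ (2 * D) := by
    rw [pow_mul, ← hc, ← Finset.card_univ, ← Finset.prod_const]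
    exact Finset.prod_le_prod (fun _ _ => by positivity) fun φ _ => by
      have := (h2 φ).2; gcongr
  have h5 : 1 / 2 ≤ tent (nz z - 2) :=
    le_max_of_le_right (by have := abs_le.mpr (⟨by linarith, by linarith⟩ :
      -(1 / 2) ≤ nz z - 2 ∧ nz z - 2 ≤ 1 / 2); linarith)
  have h6 : ‖lg z‖ ≤ 1 := (pi_norm_le_iff_of_nonneg zero_le_one).mpr fun φ => by
    have e1 := Real.log_nonneg (ha.trans (h2 φ).1)
    have e2 := Real.log_le_sub_one_of_pos (x := ‖z φ‖) (by linarith [(h2 φ).1])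
    rw [lg, Real.norm_of_nonneg e1]
    linarith [(h2 φ).2]
  have h7 : (1 / 2 : ℝ) ^ U.m ≤ U.β z := by
    conv_lhs => rw [← Fintype.card_fin U.m, ← Finset.card_univ, ← Finset.prod_const]
    refine Finset.prod_le_prod (fun _ _ => by positivity) fun j _ => le_max_of_le_right ?_
    have e1 : |U.co (lg z) j| ≤ _ := (norm_le_pi_norm (U.co (lg z)) j).trans (U.small _)
    linarith
  rw [← hD, ← U.hm, pow_succ]
  exact mul_le_mul h7 h5 (by norm_num) ((by positivity : (0 : ℝ) ≤ _).trans h7)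

lemma S_fin : volume {x | ‖U.lv x‖ ≤ 5} ≠ ⊤ :=
  ((measure_mono fun x (hx : ‖U.lv x‖ ≤ 5) => mem_closedBall_zero_iff.mpr
    ((le_lv U x).trans (by linarith : _ ≤ (1 : ℝ)))).trans_lt measure_closedBall_lt_top).ne

lemma vol_upper (hI : S_Int) (K : BF k) (hc : Fintype.card (Emb k E) = D) (h1 : 1 ≤ D)
    (h0 : 0 ≤ U.vol) :
    U.vol * (volume {x | ‖U.lv x‖ ≤ 5}).toReal ≤ (Real.exp 7 ^ 2 * Real.pi) ^ D := by
  let h : (Fin U.m → ℝ) → ℝ := fun x => max 0 (min 1 (6 - ‖U.lv x‖))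
  have hcont : Continuous h := by
    have := lv_cont U
    fun_prop
  have hn : ∀ x, 0 ≤ h x := fun x => le_max_left _ _
  have hR : ∀ x, h x ≠ 0 → ‖U.lv x‖ ≤ 6 := fun x hx => by
    by_contra hc
    exact hx (max_eq_left (min_le_of_right_le (by linarith [not_le.mp hc])))
  have hs : HasCompactSupport h := HasCompactSupport.intro (isCompact_closedBall 0 1)
    fun x hx => by
      by_contra hc
      exact hx (mem_closedBall_zero_iff.mpr ((le_lv U x).trans (by linarith [hR x hc])))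
  have h2 := hI k K E n ℓ U _ 1 1 0 (fun x => (h x : ℂ)) bump0 one_pos (by fun_prop)
    (hs.comp_left (g := fun x : ℝ => (x : ℂ)) Complex.ofReal_zero)
  simp only [ty, Pi.zero_apply, zpow_zero, zero_mul, Complex.ofReal_zero, mul_zero,
    Complex.exp_zero, Finset.prod_const_one, one_mul, div_one, if_true, int0, mul_one,
    ← Complex.ofReal_mul] at h2
  rw [integral_complex_ofReal, integral_complex_ofReal, ← Complex.ofReal_mul, Complex.ofReal_inj] at h2
  have h3 := integral_mono_of_nonneg (ae_of_all _ fun z => mul_nonneg (hn _) (tent_nonneg _))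
    (ind_int 0 _ 1) (ae_of_all _ (le_ind U hc h1 (h := h)
      (fun x => max_le zero_le_one (min_le_left _ _)) hR))
  rw [integral_indicator_const _ measurableSet_closedBall, vol_ball _ (Real.exp_pos _).le, hc,
    smul_eq_mul, mul_one, h2, show (6 : ℝ) + 1 = 7 by norm_num] at h3
  refine le_trans (mul_le_mul_of_nonneg_left ?_ h0) h3
  have hm : MeasurableSet {x | ‖U.lv x‖ ≤ 5} :=
    (isClosed_le (lv_cont U).norm continuous_const).measurableSet
  have h4 := integral_mono_of_nonneg (f := {x | ‖U.lv x‖ ≤ 5}.indicator fun _ => (1 : ℝ))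
    (ae_of_all _ fun x => Set.indicator_nonneg (fun _ _ => zero_le_one) x)
    (hcont.integrable_of_hasCompactSupport hs (μ := volume)) (ae_of_all _ fun x => by
      by_cases hx : x ∈ {x | ‖U.lv x‖ ≤ 5}
      · rw [Set.indicator_of_mem hx]
        exact le_max_of_le_right (le_min le_rfl (by linarith [show ‖U.lv x‖ ≤ 5 from hx]))
      · rw [Set.indicator_of_notMem hx]; exact hn x)
  rwa [integral_indicator_const _ hm, smul_eq_mul, mul_one] at h4

lemma grid (hD : Module.finrank k E = D) (h1 : 1 ≤ D) (M : ℕ) (hM : D * ℓ ≤ M) :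
    {γ : Fin U.m → ℤ | ‖U.lv fun j => (γ j : ℝ) / M‖ ≤ 4}.Finite ∧
      (Set.ncard {γ : Fin U.m → ℤ | ‖U.lv fun j => (γ j : ℝ) / M‖ ≤ 4} : ℝ) ≤
        (volume {x | ‖U.lv x‖ ≤ 5}).toReal * (M : ℝ) ^ U.m := by
  have hD1 : (1 : ℝ) ≤ D := by exact_mod_cast h1
  have hM0 : (0 : ℝ) < M := by nlinarith [U.one_le]
  have hfin : {γ : Fin U.m → ℤ | ‖U.lv fun j => (γ j : ℝ) / M‖ ≤ 4}.Finite := by
    refine (Set.finite_Icc (fun _ => -(M : ℤ)) fun _ => (M : ℤ)).subset fun γ hγ => ?_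
    have h2 : ∀ j, |γ j| ≤ M := fun j => by
      have e1 : |(γ j : ℝ) / M| ≤ _ :=
        (norm_le_pi_norm (fun j => (γ j : ℝ) / M) j).trans (le_lv U _)
      have e2 : ‖U.lv fun j => (γ j : ℝ) / M‖ ≤ 4 := hγ
      rw [abs_div, abs_of_pos hM0, div_le_iff₀ hM0] at e1
      have e3 : |(γ j : ℝ)| ≤ M := by nlinarith
      exact_mod_cast e3
    exact ⟨fun j => (abs_le.mp (h2 j)).1, fun j => (abs_le.mp (h2 j)).2⟩
  refine ⟨hfin, ?_⟩
  let Q : (Fin U.m → ℤ) → Set (Fin U.m → ℝ) := fun γ =>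
    Set.pi Set.univ fun j => Set.Ico ((γ j : ℝ) / M) ((γ j + 1) / M)
  have hQ : ∀ γ, volume.real (Q γ) = ((M : ℝ) ^ U.m)⁻¹ := fun γ => by
    rw [Measure.real, Real.volume_pi_Ico_toReal fun j => by simp only; gcongr; linarith]
    simp [← sub_div]
  have h2 := measureReal_biUnion_finset (μ := volume) (s := hfin.toFinset) (f := Q)
    (fun γ _ γ' _ hne => Set.disjoint_left.mpr fun x hx hx' => hne (funext fun j => by
      have e1 := hx j trivial
      have e2 := hx' j trivial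
      rw [Set.mem_Ico, div_le_iff₀ hM0, lt_div_iff₀ hM0] at e1 e2
      have e3 : γ j < γ' j + 1 := by exact_mod_cast e1.1.trans_lt e2.2
      have e4 : γ' j < γ j + 1 := by exact_mod_cast e2.1.trans_lt e1.2
      omega))
    (fun γ _ => MeasurableSet.univ_pi fun j => measurableSet_Ico)
    (fun γ _ => by simp [Q, Real.volume_pi_Ico, ENNReal.prod_ne_top])
  have h3 : volume.real (⋃ γ ∈ hfin.toFinset, Q γ) ≤ volume.real {x | ‖U.lv x‖ ≤ 5} := by
    refine measureReal_mono (Set.iUnion₂_subset fun γ hγ x hx => ?_) (S_fin U)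
    have e1 : ‖U.lv fun j => (γ j : ℝ) / M‖ ≤ 4 := by simpa using hγ
    have e2 : ‖x - fun j => (γ j : ℝ) / M‖ ≤ 1 / M :=
      (pi_norm_le_iff_of_nonneg (by positivity)).mpr fun j => by
        have := hx j trivial
        rw [Set.mem_Ico, add_div] at this
        rw [Pi.sub_apply, Real.norm_of_nonneg (by linarith [this.1])]
        linarith [this.2]
    have e3 := lv_le U hD (x - fun j => (γ j : ℝ) / M)
    have e4 : D * ℓ * ‖x - fun j => (γ j : ℝ) / M‖ ≤ M * (1 / M) :=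
      mul_le_mul hM e2 (norm_nonneg _) hM0.le
    rw [mul_one_div_cancel hM0.ne'] at e4
    rw [lv_sub] at e3
    have e5 := norm_sub_norm_le (U.lv x) (U.lv fun j => (γ j : ℝ) / M)
    show ‖U.lv x‖ ≤ 5
    linarith
  rw [h2, Finset.sum_congr rfl fun γ _ => hQ γ, Finset.sum_const, nsmul_eq_mul,
    mul_inv_le_iff₀ (by positivity)] at h3
  rwa [Set.ncard_eq_toFinset_card _ hfin]

lemma small_ball (hD : Module.finrank k E = D) (h1 : 1 ≤ D) :
    1 ≤ (volume {x | ‖U.lv x‖ ≤ 5}).toReal * (D * ℓ) ^ D := by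
  have hD1 : (1 : ℝ) ≤ D := by exact_mod_cast h1
  have h2 : 1 ≤ D * ℓ := by nlinarith [U.one_le]
  have h3 : volume.real (Metric.closedBall (0 : Fin U.m → ℝ) (1 / (2 * (D * ℓ)))) ≤
      volume.real {x | ‖U.lv x‖ ≤ 5} := by
    refine measureReal_mono (fun x hx => ?_) (S_fin U)
    have e1 := mem_closedBall_zero_iff.mp hx
    rw [le_div_iff₀ (by positivity)] at e1
    have e2 := lv_le U hD x
    show ‖U.lv x‖ ≤ 5
    nlinarith
  rw [Measure.real, Real.volume_pi_closedBall _ (by positivity),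
    ENNReal.toReal_ofReal (by positivity), Fintype.card_fin,
    show 2 * (1 / (2 * (D * ℓ))) = (D * ℓ)⁻¹ by field_simp, inv_pow,
    inv_le_iff_one_le_mul₀' (by positivity)] at h3
  have h4 : (D * ℓ) ^ U.m ≤ (D * ℓ) ^ D := pow_le_pow_right₀ h2 (by have := U.hm; omega)
  rw [mul_comm] at h3
  exact h3.trans (mul_le_mul_of_nonneg_left h4 ENNReal.toReal_nonneg)

lemma pair (hc : Fintype.card (Emb k E) = D) (h1 : 1 ≤ D) {τ : Emb k E → ℝ} (hτ : ∑ φ, τ φ = 0)
    (x : Emb k E → ℝ) :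
    ∑ φ, τ φ * x φ = ∑ j, (∑ φ, τ φ * lg (emb k (U.ε j : 𝓞 E)) φ) * U.co x j := by
  rw [Finset.sum_congr rfl fun φ _ => by rw [decomp U hc h1 x φ]]
  simp only [mul_add, Finset.sum_add_distrib, ← Finset.sum_mul, hτ, zero_mul, add_zero, UB.lv,
    Finset.sum_apply, Pi.smul_apply, smul_eq_mul]
  simp only [Finset.mul_sum, Finset.sum_mul]
  rw [Finset.sum_comm]
  exact Finset.sum_congr rfl fun j _ => Finset.sum_congr rfl fun φ _ => by ring

lemma integral_eq (hI : S_Int) (K : BF k) (hD : Module.finrank k E = D)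
    (hc : Fintype.card (Emb k E) = D) (h1 : 1 ≤ D) (g : ℝ → ℝ) (Λ Z : ℝ) (κ : Emb k E → ℤ)
    (τ : Emb k E → ℝ) (hg : Bump g Λ) (hZ : 0 < Z) (hτ : ∑ φ, τ φ = 0) (hT : U.Tr κ τ) :
    ∫ z : Emb k E → ℂ, ty κ τ z * (U.β z * g (nz z / Z) : ℝ) =
      if κ = 0 ∧ τ = 0 then ((U.vol * Z * ∫ x, g x : ℝ) : ℂ) else 0 := by
  set t : Fin U.m → ℝ := fun j => ∑ φ, τ φ * lg (emb k (U.ε j : 𝓞 E)) φ with ht
  have hc' := tent_cont
  have h2 := hI k K E n ℓ U g Λ Z κ
    (fun x => ∏ j, (tent (x j) : ℂ) * Complex.exp (Complex.I * t j * x j)) hg hZ (by fun_prop)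
    (HasCompactSupport.intro (isCompact_closedBall 0 1) fun x hx => by
      by_contra h
      refine hx (mem_closedBall_zero_iff.mpr (beta_supp U hD fun h' => h ?_).1)
      rw [Finset.prod_mul_distrib, ← Complex.ofReal_prod, h', Complex.ofReal_zero, zero_mul])
  rw [integral_fintype_prod_volume_eq_prod
    (fun j (y : ℝ) => (tent y : ℂ) * Complex.exp (Complex.I * t j * y))] at h2
  have h3 : ∀ z : Emb k E → ℂ, ty κ τ z * (U.β z * g (nz z / Z) : ℝ) = ty κ 0 z *
      (∏ j, (tent (U.co (lg z) j) : ℂ) * Complex.exp (Complex.I * t j * U.co (lg z) j)) *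
        (g (nz z / Z) : ℝ) := fun z => by
    rw [ty_split, pair U hc h1 hτ, Finset.prod_mul_distrib, ← Complex.exp_sum, UB.β]
    push_cast
    simp only [Finset.mul_sum, mul_assoc, ht]
    push_cast
    ring
  simp only [h3, h2]
  by_cases hκ : κ = 0
  swap
  · simp [hκ]
  by_cases h0 : τ = 0
  · simp [hκ, h0, ht, four0]
  obtain ⟨j, hj⟩ : ∃ j, t j ≠ 0 := by
    by_contra hc0
    push Not at hc0
    have e1 := pair U hc h1 hτ τ
    rw [Finset.sum_eq_zero (s := univ) (f := fun j => _ * U.co τ j) fun j _ => by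
      rw [show (∑ φ, τ φ * lg (emb k (U.ε j : 𝓞 E)) φ) = 0 from hc0 j, zero_mul]] at e1
    exact h0 (funext fun φ => mul_self_eq_zero.mp
      ((Finset.sum_eq_zero_iff_of_nonneg fun φ _ => mul_self_nonneg _).mp e1 φ (mem_univ _)))
  have e2 : Complex.exp (Complex.I * t j) = 1 := by
    have := hT j
    rw [ty_split, hκ] at this
    simpa [ty, ht] using this
  rw [if_pos hκ, if_neg fun h => h0 h.2, Finset.prod_eq_zero (mem_univ j) (four1 _ e2 hj), mul_zero]

end PVol

open PVol in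
theorem p_vol (hE : S_Emb) (hI : S_Int) : S_Vol := by
  intro k _ _ _ K D
  obtain ⟨C0, hE⟩ := hE k K D
  rcases Nat.eq_zero_or_pos D with rfl | h1
  · exact ⟨0, fun E _ _ _ hD => absurd (hE E hD).2.2.1 (by norm_num)⟩
  have hn : 2 * D ≠ 0 := by omega
  set a : ℝ := (3 / 2) ^ ((2 * D : ℕ) : ℝ)⁻¹
  set b : ℝ := (5 / 2) ^ ((2 * D : ℕ) : ℝ)⁻¹
  have ha' : a ^ (2 * D) = 3 / 2 := Real.rpow_inv_natCast_pow (by norm_num) hn
  have hb' : b ^ (2 * D) = 5 / 2 := Real.rpow_inv_natCast_pow (by norm_num) hn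
  have ha : 1 ≤ a := Real.one_le_rpow (by norm_num) (by positivity)
  have hab : a < b := Real.rpow_lt_rpow (by norm_num) (by norm_num) (by positivity)
  have hb : b ≤ 2 := by
    refine le_of_pow_le_pow_left₀ hn (by norm_num) (hb'.trans_le ?_)
    have : (2 : ℝ) ^ 2 ≤ 2 ^ (2 * D) := pow_le_pow_right₀ (by norm_num) (by omega)
    linarith
  set c : ℝ := (1 / 2) ^ D * (((b - a) / 2) ^ 2 * Real.pi) ^ D
  have hc0 : 0 < c := by have := sub_pos.mpr hab; positivity
  set A : ℝ := (Real.exp 7 ^ 2 * Real.pi) ^ D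
  have hA : 0 < A := by positivity
  have hD1 : (1 : ℝ) ≤ (D : ℝ) ^ D := one_le_pow₀ (by exact_mod_cast h1)
  obtain ⟨C, hC⟩ := pow_unbounded_of_one_lt (c⁻¹ + A * D ^ D) (one_lt_two (α := ℝ))
  have hc1 : 0 < c⁻¹ := by positivity
  have hAC : A ≤ 2 ^ C := by nlinarith
  refine ⟨C, fun E _ _ _ hD n ℓ U => ?_⟩
  have hc := (hE E hD).1
  have l1 : c ≤ U.vol := vol_lower U hD hc h1 ha hab.le hb ha'.ge hb'.le
  have h0 : 0 ≤ U.vol := hc0.le.trans l1
  have l2 : _ ≤ A := vol_upper U hI K hc h1 h0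
  refine ⟨(inv_le_of_inv_le₀ hc0 (by nlinarith)).trans l1, ?_, S_fin U, l2.trans hAC,
    fun x => ⟨le_lv U x, lv_le U hD x, co_lv U x⟩, fun M hM => ⟨(grid U hD h1 M hM).1, ?_⟩,
    integral_eq U hI K hD hc h1⟩
  · have l3 := mul_le_mul_of_nonneg_left (small_ball U hD h1) h0
    have l4 : 0 ≤ ℓ ^ D := pow_nonneg (zero_le_one.trans U.one_le) D
    rw [mul_one, ← mul_assoc, mul_pow, ← mul_assoc] at l3
    refine l3.trans (mul_le_mul_of_nonneg_right ?_ l4)
    nlinarith
  · refine (mul_le_mul_of_nonneg_left (grid U hD h1 M hM).2 h0).trans ?_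
    rw [← mul_assoc]
    exact mul_le_mul_of_nonneg_right (l2.trans hAC) (by positivity)

end Pool.Agent.P.MP_b8021b_nt.VC
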