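import Pool.Agent.P.MP_b8021b_nt.VC.StA
import Pool.Agent.P.MP_b8021b_nt.VE.StN

/-! The base field exists. -/

namespace Pool.Agent.P.MP_b8021b_nt.VC

open Pool.Agent.P.MP_b8021b_nt

theorem p_bF (hIQ : VE.S_IQ) : S_BF := by
  intro r hr
  obtain ⟨k, _, _, K, hK⟩ := hIQ (-(r : ℤ)) (by have := hr.pos; omega)
  let _ : Algebra k ℂ := K.σ.toAlgebra
  exact ⟨k, inferInstance, inferInstance, inferInstance, ⟨K, fun _ => rfl⟩, hK⟩

end Pool.Agent.P.MP_b8021b_nt.VC
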