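import Pool.Agent.P.MP_b8021b_nt.VC.DefA
import Pool.Agent.P.MP_b8021b_nt.VE.BasicA
import Pool.Agent.P.MP_b8021b_nt.VE.BasicP

/-! Shared lemmas for part A: weighted degrees in a `Tab`, norms, fibre polynomials, `Dbl`. -/

namespace Pool.Agent.P.MP_b8021b_nt.VC

open Polynomial Finset Pool.Agent.P.MP_b8021b_nt.VE
open scoped Classical

noncomputable section

/-- a determinant in a filtered ring -/
theorem det_mem_filt {S ι : Type*} [CommRing S] [Fintype ι] [DecidableEq ι]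
    (W : ℤ → AddSubgroup S) (h1 : (1 : S) ∈ W 0)
    (hm : ∀ m m' a b, a ∈ W m → b ∈ W m' → a * b ∈ W (m + m')) (M : Matrix ι ι S) (n : ℤ)
    (d : ι → ℤ) (hM : ∀ i j, M i j ∈ W (n + d j - d i)) : M.det ∈ W (Fintype.card ι * n) := by
  have hp : ∀ (s : Finset ι) (f : ι → S) (w : ι → ℤ), (∀ i, f i ∈ W (w i)) →
      ∏ i ∈ s, f i ∈ W (∑ i ∈ s, w i) := fun s f w h => by
    induction s using Finset.induction_on with
    | empty => simpa using h1
    | insert a s ha ih => rw [prod_insert ha, sum_insert ha]; exact hm _ _ _ _ (h a) ih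
  rw [Matrix.det_apply]
  refine sum_mem fun σ _ => ?_
  have h := hp univ (fun i => M (σ i) i) (fun i => n + d i - d (σ i)) fun i => hM _ _
  rw [sum_sub_distrib, sum_add_distrib, Equiv.sum_comp σ d, add_sub_cancel_right, sum_const,
    card_univ, nsmul_eq_mul] at h
  exact zsmul_mem h _

/-- polynomials in two variables of weighted degree at most `m` -/
def wdeg (S : Type*) [CommRing S] (e n : ℕ) (m : ℤ) : AddSubgroup S[X][X] where
  carrier := {p | ∀ l k, (p.coeff l).coeff k ≠ 0 → (e * k + l * n : ℤ) ≤ m}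
  zero_mem' l k h := by simp at h
  add_mem' {a b} ha hb l k h := by
    by_cases h1 : (a.coeff l).coeff k = 0
    · exact hb l k (by simpa [h1] using h)
    · exact ha l k h1
  neg_mem' {a} ha l k h := ha l k (by simpa using h)

theorem wdeg_mul {S : Type*} [CommRing S] (e n : ℕ) (m m' : ℤ) (a b : S[X][X])
    (ha : a ∈ wdeg S e n m) (hb : b ∈ wdeg S e n m') : a * b ∈ wdeg S e n (m + m') := by
  intro l k h
  rw [coeff_mul, finsetSum_coeff] at h
  obtain ⟨x, hx, h⟩ := exists_ne_zero_of_sum_ne_zero h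
  rw [coeff_mul] at h
  obtain ⟨u, hu, h⟩ := exists_ne_zero_of_sum_ne_zero h
  have h1 := ha _ _ (left_ne_zero_of_mul h)
  have h2 := hb _ _ (right_ne_zero_of_mul h)
  rw [← mem_antidiagonal.1 hx, ← mem_antidiagonal.1 hu]
  push_cast
  linarith

theorem wdeg_C {S : Type*} [CommRing S] (e n : ℕ) (m : ℤ) (g : S[X])
    (h : ∀ k, g.coeff k ≠ 0 → (e * k : ℤ) ≤ m) : C g ∈ wdeg S e n m := by
  intro l k hk
  rw [coeff_C] at hk
  split_ifs at hk with h0
  · simpa [h0] using h k hk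
  · simp at hk

theorem wdeg_X {S : Type*} [CommRing S] (e n : ℕ) : (X : S[X][X]) ∈ wdeg S e n n := by
  intro l k hk
  rw [coeff_X] at hk
  split_ifs at hk with h0
  · rw [coeff_one] at hk
    split_ifs at hk with h1
    · simp [← h0, h1]
    · simp at hk
  · simp at hk

/-- coefficients of the characteristic polynomial of a matrix with weighted degree bounds -/
theorem charpoly_wdeg {S ι : Type*} [CommRing S] [Fintype ι] [DecidableEq ι] (e n : ℕ)
    (M : Matrix ι ι S[X]) (d : ι → ℕ)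
    (hM : ∀ i j k, (M i j).coeff k ≠ 0 → e * k + d i ≤ n + d j) (l k : ℕ)
    (h : (M.charpoly.coeff l).coeff k ≠ 0) : e * k + l * n ≤ Fintype.card ι * n := by
  have h1 : C (1 : S[X]) ∈ wdeg S e n 0 := wdeg_C e n 0 1 fun k hk => by
    rw [coeff_one] at hk
    split_ifs at hk with h1
    · simp [h1]
    · simp at hk
  have := det_mem_filt (wdeg S e n) h1 (wdeg_mul e n) M.charmatrix n (fun i => d i) (fun i j => by
    have h2 : C (M i j) ∈ wdeg S e n (n + d j - d i) := wdeg_C e n _ _ fun k hk => by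
      have := hM i j k hk
      have : (e * k + d i : ℤ) ≤ n + d j := by exact_mod_cast this
      linarith
    by_cases hij : i = j
    · subst hij
      rw [Matrix.charmatrix_apply_eq]
      exact sub_mem (by simpa using wdeg_X e n) h2
    · rw [Matrix.charmatrix_apply_ne _ _ _ hij]
      exact neg_mem h2) l k h
  exact_mod_cast this

namespace Tab

variable {R : Type} [CommRing R] [Algebra ℤ[X] R] (T : Tab R)

theorem epos : 0 < T.e := T.he.pos

theorem y_i0 : T.y T.i0 = 1 := (T.y0 _ rfl).1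

theorem δ_i0 : T.δ T.i0 = 0 := (T.y0 _ rfl).2

theorem κ_i0 : T.κ T.i0 = 0 := by
  rw [κ, δ_i0, zero_add]
  exact Nat.div_eq_of_lt (by have := T.epos; omega)

theorem δ_le (i : Fin T.e) : T.δ i ≤ T.e * T.κ i := by
  have h := Nat.lt_mul_div_succ (T.δ i + T.e - 1) T.epos
  have := T.epos
  rw [κ]
  rw [mul_add] at h
  omega

theorem κ_lt (i : Fin T.e) : T.e * T.κ i < T.δ i + T.e := by
  have h := Nat.mul_div_le (T.δ i + T.e - 1) T.e
  have := T.epos
  rw [κ]
  omega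

theorem wle_iff (i : Fin T.e) (k d : ℕ) : T.e * k + T.δ i ≤ T.e * d ↔ k + T.κ i ≤ d := by
  have h1 := T.δ_le i
  have h2 := T.κ_lt i
  constructor
  · intro h
    have : T.e * (k + T.κ i) < T.e * (d + 1) := by rw [mul_add, mul_add]; omega
    exact Nat.lt_succ_iff.1 (Nat.lt_of_mul_lt_mul_left this)
  · intro h
    have := Nat.mul_le_mul_left T.e h
    rw [mul_add] at this
    omega

/-- only the index `0` reaches a multiple of `e` -/
theorem eq_i0 {i : Fin T.e} {k d : ℕ} (h : T.e * k + T.δ i = T.e * d) : i = T.i0 ∧ k = d := by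
  have h1 := T.δmod i
  have h2 : (T.e * k + T.δ i) % T.e = 0 := by rw [h, Nat.mul_mod_right]
  rw [Nat.mul_add_mod] at h2
  have h3 : i = T.i0 := Fin.ext (by rw [← h1, h2]; rfl)
  subst h3
  rw [δ_i0, add_zero] at h
  exact ⟨rfl, Nat.eq_of_mul_eq_mul_left T.epos h⟩

theorem κ_i1_pos : 0 < T.κ T.i1 := by
  have h1 := T.δ_le T.i1
  have h2 : T.δ T.i1 % T.e = 1 := T.δmod T.i1
  rcases Nat.eq_zero_or_pos (T.κ T.i1) with h | h
  · rw [h, mul_zero, Nat.le_zero] at h1
    rw [h1] at h2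
    simp at h2
  · exact h

theorem repr_el (g : Fin T.e → ℤ[X]) (i : Fin T.e) : T.y.repr (T.el g) i = g i :=
  congrFun (T.y.repr_sum_self g) i

theorem el_repr (x : R) : T.el (T.y.repr x) = x := T.y.sum_repr x

theorem el_inj {g g' : Fin T.e → ℤ[X]} (h : T.el g = T.el g') : g = g' :=
  funext fun i => by rw [← T.repr_el g i, h, repr_el]

theorem el_add (g g' : Fin T.e → ℤ[X]) : T.el (fun i => g i + g' i) = T.el g + T.el g' := by
  simp only [el, add_smul, sum_add_distrib]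

theorem el_sub (g g' : Fin T.e → ℤ[X]) : T.el (fun i => g i - g' i) = T.el g - T.el g' := by
  simp only [el, sub_smul, sum_sub_distrib]

theorem el_mul (a : ℤ[X]) (g : Fin T.e → ℤ[X]) :
    T.el (fun i => a * g i) = algebraMap ℤ[X] R a * T.el g := by
  simp only [el, mul_smul, ← Algebra.smul_def, smul_sum]

theorem el_eq (g : Fin T.e → ℤ[X]) : T.el g = ∑ i, algebraMap ℤ[X] R (g i) * T.y i := by
  simp only [el, Algebra.smul_def]

theorem repr_alg (a : ℤ[X]) (i : Fin T.e) :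
    T.y.repr (algebraMap ℤ[X] R a) i = if i = T.i0 then a else 0 := by
  rw [Algebra.algebraMap_eq_smul_one, ← T.y_i0, map_smul, T.y.repr_self, Finsupp.smul_apply,
    Finsupp.single_apply]
  by_cases h : i = T.i0
  · simp [h]
  · simp [h, Ne.symm h]

include T in
theorem alg_injective : Function.Injective (algebraMap ℤ[X] R) := fun a b h => by
  have := T.repr_alg a T.i0
  rw [h, repr_alg] at this
  simpa using this.symm

theorem alg_dvd_el {a : ℤ[X]} {g : Fin T.e → ℤ[X]} :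
    algebraMap ℤ[X] R a ∣ T.el g ↔ ∀ i, a ∣ g i := by
  constructor
  · rintro ⟨x, hx⟩ i
    rw [← T.el_repr x, ← el_mul] at hx
    exact ⟨_, congrFun (T.el_inj hx) i⟩
  · intro h
    choose c hc using h
    exact ⟨T.el c, by rw [← el_mul]; exact congrArg T.el (funext hc)⟩

/-- the elements of weighted degree at most `n` -/
def Lw (n : ℕ) : AddSubgroup R where
  carrier := {x | ∀ i k, (T.y.repr x i).coeff k ≠ 0 → T.e * k + T.δ i ≤ n}
  zero_mem' i k h := by simp at h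
  add_mem' {a b} ha hb i k h := by
    by_cases h1 : (T.y.repr a i).coeff k = 0
    · exact hb i k (by simpa [h1] using h)
    · exact ha i k h1
  neg_mem' {a} ha i k h := ha i k (by simpa using h)

variable {T}

theorem mem_Lw {n : ℕ} {x : R} :
    x ∈ T.Lw n ↔ ∀ i, T.y.repr x i ≠ 0 → T.e * (T.y.repr x i).natDegree + T.δ i ≤ n :=
  ⟨fun h i hi => h i _ (leadingCoeff_ne_zero.2 hi), fun h i k hk =>
    le_trans (Nat.add_le_add_right (Nat.mul_le_mul_left _ (le_natDegree_of_ne_zero hk)) _)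
      (h i fun h0 => hk (by simp [h0]))⟩

theorem Lw_mono {n m : ℕ} (h : n ≤ m) {x : R} (hx : x ∈ T.Lw n) : x ∈ T.Lw m :=
  fun i k hk => (hx i k hk).trans h

theorem smul_mem_Lw {n d : ℕ} {x : R} (hx : x ∈ T.Lw n) {a : ℤ[X]} (ha : a.natDegree ≤ d) :
    a • x ∈ T.Lw (T.e * d + n) := by
  intro i k h
  rw [map_smul, Finsupp.smul_apply, smul_eq_mul, coeff_mul] at h
  obtain ⟨u, hu, h⟩ := exists_ne_zero_of_sum_ne_zero h
  have h1 := Nat.mul_le_mul_left T.e ((le_natDegree_of_ne_zero (left_ne_zero_of_mul h)).trans ha)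
  have h2 := hx _ _ (right_ne_zero_of_mul h)
  rw [← mem_antidiagonal.1 hu, mul_add]
  omega

theorem y_mem_Lw (i : Fin T.e) : T.y i ∈ T.Lw (T.δ i) := mem_Lw.2 fun j hj => by
  rw [T.y.repr_self, Finsupp.single_apply] at hj ⊢
  split_ifs at hj ⊢ with h
  · simp [h]
  · exact absurd rfl hj

theorem one_mem_Lw : (1 : R) ∈ T.Lw 0 := by
  have := y_mem_Lw (T := T) T.i0
  rwa [y_i0, δ_i0] at this

theorem alg_mem_Lw {a : ℤ[X]} {d : ℕ} (ha : a.natDegree ≤ d) :
    algebraMap ℤ[X] R a ∈ T.Lw (T.e * d) := by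
  rw [Algebra.algebraMap_eq_smul_one]
  exact smul_mem_Lw one_mem_Lw ha

theorem mul_mem_Lw {n m : ℕ} {x x' : R} (hx : x ∈ T.Lw n) (hx' : x' ∈ T.Lw m) :
    x * x' ∈ T.Lw (n + m) := by
  rw [← T.el_repr x, ← T.el_repr x', el, el, sum_mul_sum]
  refine sum_mem fun i _ => sum_mem fun j _ => ?_
  by_cases h1 : T.y.repr x i = 0
  · simp [h1]
  by_cases h2 : T.y.repr x' j = 0
  · simp [h2]
  rw [smul_mul_smul_comm]
  have h3 := mem_Lw.1 hx i h1
  have h4 := mem_Lw.1 hx' j h2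
  refine Lw_mono ?_ (smul_mem_Lw (mem_Lw.2 (T.tab i j)) natDegree_mul_le)
  rw [mul_add]
  omega

theorem pow_mem_Lw {n : ℕ} {x : R} (hx : x ∈ T.Lw n) (m : ℕ) : x ^ m ∈ T.Lw (m * n) := by
  induction m with
  | zero => simpa using one_mem_Lw
  | succ m ih => rw [pow_succ, add_mul, one_mul]; exact mul_mem_Lw ih hx

theorem intCast_mul_mem_Lw {n : ℕ} {x : R} (hx : x ∈ T.Lw n) (c : ℤ) : (c : R) * x ∈ T.Lw n := by
  rw [← zsmul_eq_mul]
  exact zsmul_mem hx c

theorem natCast_mul_mem_Lw {n : ℕ} {x : R} (hx : x ∈ T.Lw n) (c : ℕ) : (c : R) * x ∈ T.Lw n := by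
  rw [← nsmul_eq_mul]
  exact nsmul_mem hx c

theorem exists_mem_Lw (x : R) : ∃ d, x ∈ T.Lw (T.e * d) :=
  ⟨∑ i, ((T.y.repr x i).natDegree + T.κ i), mem_Lw.2 fun i _ => (T.wle_iff _ _ _).2
    (single_le_sum (f := fun i => (T.y.repr x i).natDegree + T.κ i) (fun _ _ => Nat.zero_le _)
      (mem_univ i))⟩

theorem el_mem_Lw {d : ℕ} {g : Fin T.e → ℤ[X]} (hd : ∀ i, T.κ i ≤ d)
    (hg : ∀ i, (g i).natDegree ≤ d - T.κ i) : T.el g ∈ T.Lw (T.e * d) :=
  mem_Lw.2 fun i _ => by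
    rw [repr_el, wle_iff]
    have := hd i
    have := hg i
    omega

theorem natDegree_repr_le {d : ℕ} {x : R} (hx : x ∈ T.Lw (T.e * d)) (i : Fin T.e) :
    (T.y.repr x i).natDegree ≤ d - T.κ i := by
  by_cases h : T.y.repr x i = 0
  · simp [h]
  · have := (T.wle_iff _ _ _).1 (mem_Lw.1 hx i h)
    omega

variable (T)

/-- the characteristic polynomial of an element -/
def cp (x : R) : ℤ[X][X] := (Algebra.leftMulMatrix T.y x).charpoly

theorem P_eq : T.P = T.cp (T.y T.i1) := rfl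

theorem cp_monic (x : R) : (T.cp x).Monic := Matrix.charpoly_monic _

theorem natDegree_cp (x : R) : (T.cp x).natDegree = T.e := by
  rw [cp, Matrix.charpoly_natDegree_eq_dim, Fintype.card_fin]

theorem aeval_cp (x : R) : aeval x (T.cp x) = 0 :=
  Algebra.leftMulMatrix_injective T.y
    (by rw [← aeval_algHom_apply, map_zero]; exact Matrix.aeval_self_charpoly _)

theorem norm_eq (x : R) : Algebra.norm ℤ[X] x = (Algebra.leftMulMatrix T.y x).det :=
  Algebra.norm_eq_matrix_det T.y x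

theorem cp_coeff_zero (x : R) : (T.cp x).coeff 0 = (-1) ^ T.e * Algebra.norm ℤ[X] x := by
  rw [T.norm_eq, Matrix.det_eq_sign_charpoly_coeff, Fintype.card_fin, ← mul_assoc, ← mul_pow]
  simp [cp]

theorem eval_cp (x : R) (a : ℤ[X]) :
    (T.cp x).eval a = Algebra.norm ℤ[X] (algebraMap ℤ[X] R a - x) := by
  rw [cp, Matrix.eval_charpoly, T.norm_eq, map_sub, AlgHom.commutes]
  rfl

theorem norm_alg (a : ℤ[X]) : Algebra.norm ℤ[X] (algebraMap ℤ[X] R a) = a ^ T.e := by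
  rw [Algebra.norm_algebraMap_of_basis T.y, Fintype.card_fin]

include T in
theorem dvd_norm (x : R) : x ∣ algebraMap ℤ[X] R (Algebra.norm ℤ[X] x) := by
  have h := T.aeval_cp x
  rw [← (T.cp x).divX_mul_X_add, map_add, map_mul, aeval_X, aeval_C, cp_coeff_zero, map_mul,
    map_pow, map_neg, map_one] at h
  refine ⟨-((-1) ^ T.e * aeval x (T.cp x).divX), ?_⟩
  have h2 : ((-1 : R) ^ T.e) * (-1) ^ T.e = 1 := by rw [← mul_pow]; simp
  linear_combination (-1) ^ T.e * h - algebraMap ℤ[X] R (Algebra.norm ℤ[X] x) * h2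

include T in
/-- congruent elements have congruent norms -/
theorem dvd_norm_sub {a : ℤ[X]} {x x' : R} (h : algebraMap ℤ[X] R a ∣ x - x') :
    a ∣ Algebra.norm ℤ[X] x - Algebra.norm ℤ[X] x' := by
  obtain ⟨w, hw⟩ := h
  rw [← Ideal.mem_span_singleton, ← Ideal.Quotient.eq, T.norm_eq, T.norm_eq, RingHom.map_det,
    RingHom.map_det, sub_eq_iff_eq_add.1 hw, map_add, ← Algebra.smul_def, map_smul, map_add]
  congr 1
  ext i j
  simp [Ideal.Quotient.eq_zero_iff_mem.2 (Ideal.mem_span_singleton_self a)]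

variable {T}

theorem cp_wle {n : ℕ} {x : R} (hx : x ∈ T.Lw n) (l k : ℕ) (h : ((T.cp x).coeff l).coeff k ≠ 0) :
    T.e * k + l * n ≤ T.e * n := by
  have := charpoly_wdeg T.e n (Algebra.leftMulMatrix T.y x) T.δ (fun i j k hk => by
    rw [Algebra.leftMulMatrix_eq_repr_mul] at hk
    exact mul_mem_Lw hx (y_mem_Lw j) i k hk) l k h
  rwa [Fintype.card_fin] at this

theorem cp_natDegree_wle {n : ℕ} {x : R} (hx : x ∈ T.Lw n) {l : ℕ} (h : (T.cp x).coeff l ≠ 0) :
    T.e * ((T.cp x).coeff l).natDegree + l * n ≤ T.e * n :=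
  cp_wle hx l _ (leadingCoeff_ne_zero.2 h)

theorem natDegree_cp_coeff {κ : ℕ} {x : R} (hx : x ∈ T.Lw (T.e * κ)) (l : ℕ) :
    ((T.cp x).coeff l).natDegree ≤ (T.e - l) * κ := by
  by_cases h : (T.cp x).coeff l = 0
  · simp [h]
  · have h1 := cp_natDegree_wle hx h
    have h2 : T.e * (((T.cp x).coeff l).natDegree + l * κ) ≤ T.e * (T.e * κ) := by
      rw [mul_add, mul_left_comm]; exact h1
    have h3 := Nat.le_of_mul_le_mul_left h2 T.epos
    rw [Nat.sub_mul]
    omega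

theorem natDegree_norm_le {n : ℕ} {x : R} (hx : x ∈ T.Lw n) :
    (Algebra.norm ℤ[X] x).natDegree ≤ n := by
  by_cases h : (T.cp x).coeff 0 = 0
  · rw [cp_coeff_zero] at h
    rw [(mul_eq_zero.1 h).resolve_left (by simp)]
    simp
  · have h1 := cp_natDegree_wle hx h
    rw [zero_mul, add_zero, cp_coeff_zero, natDegree_mul (by simp) fun h0 => h (by
      rw [cp_coeff_zero, h0, mul_zero])] at h1
    have h2 := Nat.le_of_mul_le_mul_left h1 T.epos
    omega

/-- removing the top term lowers the weighted degree -/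
theorem sub_top_wlt {d : ℕ} {x : R} (hx : x ∈ T.Lw (T.e * d)) (i : Fin T.e) (k : ℕ)
    (h : (T.y.repr (x - algebraMap ℤ[X] R (monomial d ((T.y.repr x T.i0).coeff d))) i).coeff k ≠ 0) :
    T.e * k + T.δ i < T.e * d := by
  have h1 := sub_mem hx (alg_mem_Lw (natDegree_monomial_le ((T.y.repr x T.i0).coeff d))) i k h
  refine lt_of_le_of_ne h1 fun h2 => h ?_
  obtain ⟨rfl, rfl⟩ := T.eq_i0 h2
  simp [repr_alg]

/-- the top coefficient of a norm -/
theorem coeff_norm_top {d : ℕ} {x : R} (hx : x ∈ T.Lw (T.e * d)) :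
    (Algebra.norm ℤ[X] x).coeff (T.e * d) = (T.y.repr x T.i0).coeff d ^ T.e := by
  set c := (T.y.repr x T.i0).coeff d
  set x' := algebraMap ℤ[X] R (monomial d c) - x with hx'
  rcases Nat.eq_zero_or_pos d with rfl | hd
  · have h0 : x' = 0 := T.y.ext_elem fun i => by
      ext k
      by_contra h
      have := sub_top_wlt hx i k (by
        rw [← neg_sub, map_neg, Finsupp.neg_apply, coeff_neg, neg_ne_zero]
        exact fun h' => h (by rw [hx', h']; simp))
      omega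
    rw [← sub_eq_zero.1 h0, T.norm_alg, mul_zero, monomial_zero_left, ← C_pow, coeff_C_zero]
  have hn : 0 < T.e * d := Nat.mul_pos T.epos hd
  have h1 : x' ∈ T.Lw (T.e * d - 1) := fun i k h => by
    have := sub_top_wlt hx i k (by
      rw [← neg_sub, map_neg, Finsupp.neg_apply, coeff_neg, neg_ne_zero]; exact h)
    omega
  have h2 := T.eval_cp x' (monomial d c)
  rw [hx', sub_sub_cancel] at h2
  rw [← h2, ← hx', eval_eq_sum_range, natDegree_cp, sum_range_succ, coeff_add, finsetSum_coeff,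
    sum_eq_zero, zero_add, ← T.natDegree_cp x', (T.cp_monic x').coeff_natDegree, one_mul,
    natDegree_cp, monomial_pow, mul_comm d, coeff_monomial_same]
  intro l hl
  have hl' := mem_range.1 hl
  rw [monomial_pow]
  by_contra h
  rw [coeff_mul] at h
  obtain ⟨u, hu, h⟩ := exists_ne_zero_of_sum_ne_zero h
  have h3 := cp_wle h1 l _ (left_ne_zero_of_mul h)
  have h4 : d * l = u.2 := by
    by_contra h4
    exact right_ne_zero_of_mul h (by rw [coeff_monomial, if_neg h4])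
  have h5 := mem_antidiagonal.1 hu
  obtain ⟨n, hn'⟩ : ∃ n, T.e * d = n + 1 := ⟨_, (Nat.succ_pred_eq_of_pos hn).symm⟩
  rw [hn', Nat.add_sub_cancel] at h3
  have h6 : T.e * (u.1 + u.2) = T.e * (n + 1) := by rw [h5, hn']
  have h7 : T.e * u.2 = (n + 1) * l := by rw [← h4, ← mul_assoc, hn']
  nlinarith

/-- the top coefficient is multiplicative -/
theorem coeff_top_mul {d d' : ℕ} {x x' : R} (hx : x ∈ T.Lw (T.e * d)) (hx' : x' ∈ T.Lw (T.e * d')) :
    (T.y.repr (x * x') T.i0).coeff (d + d') =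
      (T.y.repr x T.i0).coeff d * (T.y.repr x' T.i0).coeff d' := by
  have key : ∀ {d d' : ℕ} {u v : R}, (∀ i k, (T.y.repr u i).coeff k ≠ 0 →
      T.e * k + T.δ i < T.e * d) → v ∈ T.Lw (T.e * d') →
      (T.y.repr (u * v) T.i0).coeff (d + d') = 0 := fun {d d' u v} hu hv => by
    by_contra h
    rcases Nat.eq_zero_or_pos (T.e * d) with h0 | h0
    · have : u = 0 := T.y.ext_elem fun i => by
        ext k
        by_contra h'
        have := hu i k (by simpa using h')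
        omega
      simp [this] at h
    · have h1 : u ∈ T.Lw (T.e * d - 1) := fun i k h => by have := hu i k h; omega
      have := mul_mem_Lw h1 hv _ _ h
      rw [mul_add] at this
      omega
  set m := algebraMap ℤ[X] R (monomial d ((T.y.repr x T.i0).coeff d)) with hm
  set m' := algebraMap ℤ[X] R (monomial d' ((T.y.repr x' T.i0).coeff d')) with hm'
  have e1 : x * x' = (x - m) * x' + (x' - m') * m + m * m' := by ring
  have e2 := key (sub_top_wlt hx') (alg_mem_Lw (T := T)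
    (natDegree_monomial_le (m := d) ((T.y.repr x T.i0).coeff d)))
  rw [add_comm d' d] at e2
  rw [e1, map_add, map_add, Finsupp.add_apply, Finsupp.add_apply, coeff_add, coeff_add,
    key (sub_top_wlt hx) hx', e2, hm, hm', ← map_mul, repr_alg, if_pos rfl,
    monomial_mul_monomial, coeff_monomial_same]
  simp

theorem nm_mem_Lw {d : ℕ} (r : ℕ) {g c : Fin T.e → ℤ[X]} (hd : ∀ i, T.κ i ≤ d)
    (hg : ∀ i, (g i).natDegree ≤ d - T.κ i) (hc : ∀ i, (c i).natDegree ≤ d - T.κ i) :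
    T.el g ^ 2 + (r : R) * T.el c ^ 2 ∈ T.Lw (T.e * (2 * d)) := by
  rw [mul_left_comm]
  exact add_mem (pow_mem_Lw (el_mem_Lw hd hg) 2)
    (natCast_mul_mem_Lw (pow_mem_Lw (el_mem_Lw hd hc) 2) r)

theorem natDegree_nm_le {d : ℕ} (r : ℕ) {g c : Fin T.e → ℤ[X]} (hd : ∀ i, T.κ i ≤ d)
    (hg : ∀ i, (g i).natDegree ≤ d - T.κ i) (hc : ∀ i, (c i).natDegree ≤ d - T.κ i) :
    (T.nm r g c).natDegree ≤ 2 * T.e * d :=
  (natDegree_norm_le (nm_mem_Lw r hd hg hc)).trans_eq (by ring)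

theorem coeff_nm_top {d : ℕ} (r : ℕ) {g c : Fin T.e → ℤ[X]} (hd : ∀ i, T.κ i ≤ d)
    (hg : ∀ i, (g i).natDegree ≤ d - T.κ i) (hc : ∀ i, (c i).natDegree ≤ d - T.κ i) :
    (T.nm r g c).coeff (2 * T.e * d) =
      ((g T.i0).coeff d ^ 2 + r * (c T.i0).coeff d ^ 2) ^ T.e := by
  have h1 := coeff_top_mul (el_mem_Lw hd hg) (el_mem_Lw hd hg)
  have h2 := coeff_top_mul (el_mem_Lw hd hc) (el_mem_Lw hd hc)
  rw [show 2 * T.e * d = T.e * (2 * d) by ring, nm, coeff_norm_top (nm_mem_Lw r hd hg hc),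
    map_add, Finsupp.add_apply, coeff_add, ← nsmul_eq_mul, map_nsmul, Finsupp.smul_apply,
    coeff_smul, two_mul, sq, sq, h1, h2, repr_el, repr_el, nsmul_eq_mul, ← sq, ← sq]

theorem natDegree_nm {d : ℕ} {r : ℕ} (hr : 0 < r) {g c : Fin T.e → ℤ[X]} (hd : ∀ i, T.κ i ≤ d)
    (hg : ∀ i, (g i).natDegree ≤ d - T.κ i) (hc : ∀ i, (c i).natDegree ≤ d - T.κ i)
    (h : (g T.i0).coeff d ≠ 0 ∨ (c T.i0).coeff d ≠ 0) :
    (T.nm r g c).natDegree = 2 * T.e * d ∧ T.nm r g c ≠ 0 := by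
  have h1 : (T.nm r g c).coeff (2 * T.e * d) ≠ 0 := by
    rw [coeff_nm_top r hd hg hc]
    have : (0 : ℤ) < r := by exact_mod_cast hr
    rcases h with h | h <;> positivity
  exact ⟨le_antisymm (natDegree_nm_le r hd hg hc) (le_natDegree_of_ne_zero h1),
    fun h0 => h1 (by simp [h0])⟩

variable (T)

/-- the characteristic polynomial of `b ^ κ x` on the fibre `t = (a, b)` -/
def cpt (x : R) (κ : ℕ) (t : ℤ × ℤ) : ℤ[X] :=
  ∑ l ∈ range (T.e + 1), C (hev ((T.e - l) * κ) ((T.cp x).coeff l) t.1 t.2) * X ^ l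

theorem Pt_eq (t : ℤ × ℤ) : T.Pt t = T.cpt (T.y T.i1) (T.κ T.i1) t := rfl

theorem coeff_cpt (x : R) (κ : ℕ) (t : ℤ × ℤ) (l : ℕ) :
    (T.cpt x κ t).coeff l = hev ((T.e - l) * κ) ((T.cp x).coeff l) t.1 t.2 := by
  rw [cpt, finsetSum_coeff]
  simp only [coeff_C_mul_X_pow]
  rw [sum_ite_eq]
  split_ifs with h
  · rfl
  · rw [coeff_eq_zero_of_natDegree_lt (by rw [natDegree_cp]; simpa using h), hev_zero]

theorem coeff_cpt_top (x : R) (κ : ℕ) (t : ℤ × ℤ) : (T.cpt x κ t).coeff T.e = 1 := by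
  have h := (T.cp_monic x).coeff_natDegree
  rw [natDegree_cp] at h
  rw [coeff_cpt, h, ← C_1, hev_C]
  simp

theorem natDegree_cpt (x : R) (κ : ℕ) (t : ℤ × ℤ) : (T.cpt x κ t).natDegree = T.e :=
  le_antisymm (natDegree_le_iff_coeff_eq_zero.2 fun l hl => by
      rw [coeff_cpt, coeff_eq_zero_of_natDegree_lt (by rwa [natDegree_cp]), hev_zero])
    (le_natDegree_of_ne_zero (by rw [coeff_cpt_top]; exact one_ne_zero))

theorem cpt_monic (x : R) (κ : ℕ) (t : ℤ × ℤ) : (T.cpt x κ t).Monic := by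
  rw [Monic, leadingCoeff, natDegree_cpt, coeff_cpt_top]

theorem natDegree_Pt (t : ℤ × ℤ) : (T.Pt t).natDegree = T.e := T.natDegree_cpt _ _ t

theorem Pt_monic (t : ℤ × ℤ) : (T.Pt t).Monic := T.cpt_monic _ _ t

end Tab

section hom

variable {R S : Type} [CommRing R] [Algebra ℤ[X] R] [CommRing S]

theorem map_alg (q : R →+* S) (g : ℤ[X]) : q (algebraMap ℤ[X] R g) = aeval (q (zR R)) g := by
  have : q.comp (algebraMap ℤ[X] R) = (aeval (q (zR R)) : ℤ[X] →ₐ[ℤ] S).toRingHom :=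
    Polynomial.ringHom_ext (fun a => by simp) (by simp [zR])
  exact DFunLike.congr_fun this g

theorem Tab.map_el (T : Tab R) (q : R →+* S) (g : Fin T.e → ℤ[X]) :
    q (T.el g) = ∑ i, aeval (q (zR R)) (g i) * q (T.y i) := by
  simp only [T.el_eq, map_sum, map_mul, map_alg]

theorem Tab.hom_ext (T : Tab R) {q q' : R →+* S} (hz : q (zR R) = q' (zR R))
    (hy : ∀ i, q (T.y i) = q' (T.y i)) : q = q' := RingHom.ext fun x => by
  rw [← T.el_repr x, T.map_el, T.map_el, hz]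
  simp only [hy]

/-- `hev` on a fibre -/
theorem hev_fib (q : R →+* S) {t : ℤ × ℤ} (hq : (t.2 : S) * q (zR R) = t.1) {d : ℕ} {g : ℤ[X]}
    (hg : g.natDegree ≤ d) :
    ((hev d g t.1 t.2 : ℤ) : S) = (t.2 : S) ^ d * q (algebraMap ℤ[X] R g) := by
  rw [map_alg]
  exact hev_cast hg (by rw [← hq, mul_comm])

theorem Tab.aeval_cpt {T : Tab R} (q : R →+* S) {t : ℤ × ℤ} (hq : (t.2 : S) * q (zR R) = t.1)
    {κ : ℕ} {x : R} (hx : x ∈ T.Lw (T.e * κ)) :
    aeval ((t.2 : S) ^ κ * q x) (T.cpt x κ t) = 0 := by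
  have h := congrArg q (T.aeval_cp x)
  rw [aeval_eq_sum_range, T.natDegree_cp, map_sum, map_zero] at h
  rw [Tab.cpt, map_sum, ← mul_zero ((t.2 : S) ^ (T.e * κ)), ← h, mul_sum]
  refine sum_congr rfl fun l hl => ?_
  have hl' : l ≤ T.e := Nat.lt_succ_iff.1 (mem_range.1 hl)
  rw [map_mul, aeval_C, map_pow, aeval_X, eq_intCast, hev_fib q hq (Tab.natDegree_cp_coeff hx l),
    Algebra.smul_def, map_mul, map_pow, mul_pow, ← pow_mul,
    show T.e * κ = (T.e - l) * κ + κ * l by rw [mul_comm κ, ← add_mul, Nat.sub_add_cancel hl'],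
    pow_add]
  ring

theorem Tab.isIntegral_fib {T : Tab R} (q : R →+* S) {t : ℤ × ℤ}
    (hq : (t.2 : S) * q (zR R) = t.1) {κ : ℕ} {x : R} (hx : x ∈ T.Lw (T.e * κ)) :
    IsIntegral ℤ ((t.2 : S) ^ κ * q x) :=
  ⟨T.cpt x κ t, T.cpt_monic x κ t, Tab.aeval_cpt q hq hx⟩

theorem Tab.y_mem_Lw_κ (T : Tab R) (i : Fin T.e) : T.y i ∈ T.Lw (T.e * T.κ i) :=
  Tab.Lw_mono (T.δ_le i) (Tab.y_mem_Lw i)

theorem Tab.aeval_Pt (T : Tab R) (q : R →+* S) {t : ℤ × ℤ} (hq : (t.2 : S) * q (zR R) = t.1) :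
    aeval ((t.2 : S) ^ T.κ T.i1 * q (T.y T.i1)) (T.Pt t) = 0 :=
  Tab.aeval_cpt q hq (T.y_mem_Lw_κ _)

/-- an element of weighted degree at most `e d` on a fibre -/
theorem Tab.el_fib {T : Tab R} (q : R →+* S) {t : ℤ × ℤ} (hq : (t.2 : S) * q (zR R) = t.1) {d : ℕ}
    {g : Fin T.e → ℤ[X]} (hd : ∀ i, T.κ i ≤ d) (hg : ∀ i, (g i).natDegree ≤ d - T.κ i) :
    (t.2 : S) ^ d * q (T.el g) =
      ∑ i, ((hev (d - T.κ i) (g i) t.1 t.2 : ℤ) : S) * ((t.2 : S) ^ T.κ i * q (T.y i)) := by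
  rw [T.el_eq, map_sum, mul_sum]
  refine sum_congr rfl fun i _ => ?_
  rw [hev_fib q hq (hg i), map_mul, ← pow_sub_mul_pow (t.2 : S) (hd i)]
  ring

end hom

namespace Par

variable {R : Type} [CommRing R] [Algebra ℤ[X] R] (p : Par R)

theorem κ_le (i : Fin p.e) : p.κ i ≤ p.dd := by have := p.hdd i; omega

theorem ρ_pos : 0 < p.ρ := by
  refine Nat.pos_of_ne_zero fun h => ?_
  have h1 := p.monic.natDegree_eq_zero.1 h
  have h2 := p.G0
  rw [h1] at h2
  simp at h2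

theorem d_add (i : Fin p.e) : p.d i + p.ρ + p.κ i = p.dd := by
  have := p.hdd i
  rw [d, ρ]
  omega

theorem two_le_d (i : Fin p.e) : 2 ≤ p.d i := by
  have := p.hdd i
  rw [d, ρ]
  omega

theorem b0_pos : 0 < p.b0 := Nat.zero_lt_of_lt p.hb

theorem natDegree_hp (s : p.Co) (i : Fin p.e × Bool) : (p.hp s i).natDegree ≤ p.d i.1 :=
  natDegree_sum_le_of_forall_le _ _ fun j _ =>
    (natDegree_C_mul_X_pow_le _ _).trans (Nat.lt_succ_iff.1 j.2)

theorem coeff_hp (s : p.Co) (i : Fin p.e × Bool) (j : Fin (p.d i.1 + 1)) :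
    (p.hp s i).coeff j = s ⟨i, j⟩ := by
  rw [hp, finsetSum_coeff, sum_eq_single j]
  · simp
  · intro k _ hk
    rw [coeff_C_mul_X_pow, if_neg fun h => hk (Fin.ext h.symm)]
  · simp

theorem natDegree_aux (s : p.Co) (i : Fin p.e × Bool) :
    (C ((p.r : ℤ) ^ p.n0) * p.G * p.hp s i).natDegree ≤ p.dd - p.κ i.1 := by
  have h1 := p.natDegree_hp s i
  have h2 := p.d_add i.1
  have h3 := natDegree_C_mul_le ((p.r : ℤ) ^ p.n0) p.G
  refine natDegree_mul_le.trans ?_
  rw [ρ] at h2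
  omega

theorem natDegree_gp (s : p.Co) (i : Fin p.e) : (p.gp s i).natDegree ≤ p.dd - p.κ i :=
  natDegree_add_le_of_degree_le (p.dg i) (p.natDegree_aux s (i, false))

theorem natDegree_cp (s : p.Co) (i : Fin p.e) : (p.cp s i).natDegree ≤ p.dd - p.κ i :=
  natDegree_add_le_of_degree_le (p.dk i) (p.natDegree_aux s (i, true))

theorem dvd_gp (s : p.Co) (i : Fin p.e) : C ((p.r : ℤ) ^ p.n0) * p.G ∣ p.gp s i - p.g0 i :=
  ⟨_, add_sub_cancel_left _ _⟩

theorem dvd_cp (s : p.Co) (i : Fin p.e) : C ((p.r : ℤ) ^ p.n0) * p.G ∣ p.cp s i - p.k0 i :=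
  ⟨_, add_sub_cancel_left _ _⟩

theorem natDegree_F_le (s : p.Co) : (p.F s).natDegree ≤ 2 * p.e * p.dd :=
  Tab.natDegree_nm_le p.r p.κ_le (p.natDegree_gp s) (p.natDegree_cp s)

theorem coeff_F_top (s : p.Co) : (p.F s).coeff (2 * p.e * p.dd) =
    ((p.gp s p.i0).coeff p.dd ^ 2 + p.r * (p.cp s p.i0).coeff p.dd ^ 2) ^ p.e :=
  Tab.coeff_nm_top p.r p.κ_le (p.natDegree_gp s) (p.natDegree_cp s)

theorem dvd_F_sub (s : p.Co) : C ((p.r : ℤ) ^ p.n0) * p.G ∣ p.F s - p.nm p.r p.g0 p.k0 := by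
  refine p.dvd_norm_sub ?_
  have h1 := p.alg_dvd_el.2 (p.dvd_gp s)
  have h2 := p.alg_dvd_el.2 (p.dvd_cp s)
  rw [Tab.el_sub] at h1 h2
  have e : p.el (p.gp s) ^ 2 + p.r * p.el (p.cp s) ^ 2 - (p.el p.g0 ^ 2 + p.r * p.el p.k0 ^ 2) =
      (p.el (p.gp s) - p.el p.g0) * (p.el (p.gp s) + p.el p.g0) +
        (p.el (p.cp s) - p.el p.k0) * (p.r * (p.el (p.cp s) + p.el p.k0)) := by ring
  rw [e]
  exact dvd_add (h1.mul_right _) (h2.mul_right _)

/-- a power of `r` lies in the ideal of `F s` and `G` -/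
theorem mem_F : ∃ E : ℕ, ∀ s : p.Co, ∃ a b : ℤ[X], a * p.F s + b * p.G = C ((p.r : ℤ) ^ E) := by
  obtain ⟨E, a, b, h⟩ := p.mem
  refine ⟨E, fun s => ?_⟩
  obtain ⟨w, hw⟩ := p.dvd_F_sub s
  exact ⟨a, b - a * C ((p.r : ℤ) ^ p.n0) * w, by linear_combination h + a * hw⟩

theorem slope_F : ∃ a b : ℕ, 0 < a ∧ ∀ s : p.Co, Slope p.r (p.F s) p.G a b := by
  obtain ⟨a, b, ha, h⟩ := p.slope
  exact ⟨a, b, ha, fun s => h _ _ (p.natDegree_gp s) (p.natDegree_cp s)
    (fun i => (dvd_mul_right _ _).trans (p.dvd_gp s i))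
    fun i => (dvd_mul_right _ _).trans (p.dvd_cp s i)⟩

end Par

namespace Dbl

variable {A A' : Type} [CommRing A] [CommRing A'] [Algebra ℚ A'] {r : ℕ} (D : Dbl A A' r)

theorem ext {g c g' c' : A} (h : D.j g + D.j c * D.ω = D.j g' + D.j c' * D.ω) :
    g = g' ∧ c = c' := by
  have := D.inj (g - g') (c - c') (by rw [map_sub, map_sub]; linear_combination h)
  exact ⟨sub_eq_zero.1 this.1, sub_eq_zero.1 this.2⟩

theorem j_injective : Function.Injective D.j := fun a b h =>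
  (D.ext (c := 0) (c' := 0) (by rw [h])).1

theorem ι_el (g c : A) : D.ι (D.j g + D.j c * D.ω) = D.j g - D.j c * D.ω := by
  rw [map_add, map_mul, D.ιj, D.ιj, D.ιω]; ring

theorem ι_ι (h : A') : D.ι (D.ι h) = h := by
  obtain ⟨g, c, rfl⟩ := D.surj h
  rw [ι_el, map_sub, map_mul, D.ιj, D.ιj, D.ιω]; ring

theorem mul_conj (g c : A) :
    (D.j g + D.j c * D.ω) * (D.j g - D.j c * D.ω) = D.j (g ^ 2 + r * c ^ 2) := by
  rw [map_add, map_mul, map_pow, map_pow, map_natCast]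
  linear_combination -D.j c ^ 2 * D.sq

theorem el_mul (g c g' c' : A) : (D.j g + D.j c * D.ω) * (D.j g' + D.j c' * D.ω) =
    D.j (g * g' - r * (c * c')) + D.j (g * c' + c * g') * D.ω := by
  simp only [map_add, map_sub, map_mul, map_natCast]
  linear_combination D.j c * D.j c' * D.sq

theorem dvd_el {a g c : A} : D.j a ∣ D.j g + D.j c * D.ω ↔ a ∣ g ∧ a ∣ c := by
  constructor
  · rintro ⟨h, hh⟩
    obtain ⟨g', c', rfl⟩ := D.surj h
    have := D.ext (g := g) (c := c) (g' := a * g') (c' := a * c') (by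
      rw [hh, map_mul, map_mul]; ring)
    exact ⟨⟨_, this.1⟩, ⟨_, this.2⟩⟩
  · rintro ⟨⟨g', rfl⟩, ⟨c', rfl⟩⟩
    exact ⟨D.j g' + D.j c' * D.ω, by rw [map_mul, map_mul]; ring⟩

/-- the universal property -/
theorem exists_lift {S : Type*} [CommRing S] (f : A →+* S) (w : S) (hw : w ^ 2 = -(r : S)) :
    ∃ f' : A' →+* S, (∀ a, f' (D.j a) = f a) ∧ f' D.ω = w := by
  choose g c h using D.surj
  have k : ∀ a b x, x = D.j a + D.j b * D.ω → g x = a ∧ c x = b := fun a b x hx =>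
    D.ext ((h x).symm.trans hx)
  refine ⟨⟨⟨⟨fun x => f (g x) + f (c x) * w, ?_⟩, fun x y => ?_⟩, ?_, fun x y => ?_⟩,
    fun a => ?_, ?_⟩
  · obtain ⟨h1, h2⟩ := k 1 0 1 (by simp)
    simp [h1, h2]
  · obtain ⟨h1, h2⟩ := k _ _ (x * y)
      ((congrArg₂ (· * ·) (h x) (h y)).trans (D.el_mul _ _ _ _))
    simp only [h1, h2, map_add, map_sub, map_mul, map_natCast]
    linear_combination -(f (c x) * f (c y)) * hw
  · obtain ⟨h1, h2⟩ := k 0 0 0 (by simp)
    simp [h1, h2]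
  · obtain ⟨h1, h2⟩ := k (g x + g y) (c x + c y) (x + y) (by
      rw [map_add, map_add]; linear_combination h x + h y)
    simp only [h1, h2, map_add]
    ring
  · obtain ⟨h1, h2⟩ := k a 0 (D.j a) (by simp)
    simp [h1, h2]
  · obtain ⟨h1, h2⟩ := k 0 1 D.ω (by simp)
    simp [h1, h2]

theorem hom_ext {S : Type*} [CommRing S] {f f' : A' →+* S} (h : ∀ a, f (D.j a) = f' (D.j a))
    (hω : f D.ω = f' D.ω) : f = f' := RingHom.ext fun x => by
  obtain ⟨g, c, rfl⟩ := D.surj x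
  simp only [map_add, map_mul, h, hω]

variable {R : Type} [CommRing R] [Algebra ℤ[X] R] (j : R →+* A)

theorem pz_mul (a b : ℤ[X]) : D.pz j (a * b) = D.pz j a * D.pz j b := by simp only [pz, map_mul]

theorem pz_add (a b : ℤ[X]) : D.pz j (a + b) = D.pz j a + D.pz j b := by simp only [pz, map_add]

theorem pz_C (c : ℤ) : D.pz j (C c) = c := by simp [pz]

theorem ι_pz (a : ℤ[X]) : D.ι (D.pz j a) = D.pz j a := D.ιj _

theorem map_pz {S : Type} [CommRing S] (f : A' →+* S) (a : ℤ[X]) :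
    f (D.pz j a) = aeval (f (D.pz j X)) a := map_alg (f.comp (D.j.comp j)) a

theorem fn_mul_ι (T : Tab R) (g c : Fin T.e → ℤ[X]) :
    D.fn j T g c * D.ι (D.fn j T g c) = D.j (j (T.el g ^ 2 + r * T.el c ^ 2)) := by
  rw [fn, ι_el, mul_conj, map_add j, map_mul j, map_pow j, map_pow j, map_natCast j]

theorem fn_dvd_nm (T : Tab R) (g c : Fin T.e → ℤ[X]) : D.fn j T g c ∣ D.pz j (T.nm r g c) :=
  (Dvd.intro _ (D.fn_mul_ι j T g c)).trans (map_dvd D.j (map_dvd j (T.dvd_norm _)))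

theorem pz_dvd_fn_sub (T : Tab R) {a : ℤ[X]} {g c g' c' : Fin T.e → ℤ[X]}
    (hg : ∀ i, a ∣ g i - g' i) (hc : ∀ i, a ∣ c i - c' i) :
    D.pz j a ∣ D.fn j T g c - D.fn j T g' c' := by
  have h1 := map_dvd j (T.alg_dvd_el.2 hg)
  have h2 := map_dvd j (T.alg_dvd_el.2 hc)
  have h := D.dvd_el.2 ⟨h1, h2⟩
  rw [T.el_sub, T.el_sub] at h
  simp only [map_sub] at h
  refine h.trans (dvd_of_eq ?_)
  simp only [fn]
  ring

end Dbl

namespace Gen

variable {R A : Type} [CommRing R] [CommRing A] {j : R →+* A} (hj : Gen j)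
include hj

/-- a homomorphism to a field of characteristic zero extends -/
theorem exists_lift {S : Type*} [Field S] [CharZero S] (f : R →+* S) :
    ∃ f' : A →+* S, ∀ x, f' (j x) = f x := by
  choose m g hm h using hj.surj
  have h0 : ∀ a, (m a : S) ≠ 0 := fun a => Nat.cast_ne_zero.2 (hm a).ne'
  have k : ∀ a (n : ℕ) x, (n : A) * a = j x → (n : S) * (f (g a) / m a) = f x := fun a n x hx => by
    have : (n : R) * g a = m a * x := hj.inj (by
      rw [map_mul, map_mul, map_natCast, map_natCast, ← hx, ← h a]; ring)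
    have := congrArg f this
    rw [map_mul, map_mul, map_natCast, map_natCast] at this
    rw [← mul_div_assoc, this, mul_div_cancel_left₀ _ (h0 a)]
  refine ⟨⟨⟨⟨fun a => f (g a) / m a, ?_⟩, fun a b => ?_⟩, ?_, fun a b => ?_⟩, fun x => ?_⟩
  · simpa using k 1 1 1 (by simp)
  · have := k (a * b) (m a * m b) (g a * g b) (by
      rw [map_mul, ← h a, ← h b]; push_cast; ring)
    rw [map_mul, Nat.cast_mul] at this
    show f (g (a * b)) / m (a * b) = f (g a) / m a * (f (g b) / m b)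
    rw [div_mul_div_comm, eq_div_iff (mul_ne_zero (h0 a) (h0 b)), ← this, mul_comm]
  · simpa using k 0 1 0 (by simp)
  · have := k (a + b) (m a * m b) (m b * g a + m a * g b) (by
      rw [map_add, map_mul, map_mul, map_natCast, map_natCast, ← h a, ← h b]; push_cast; ring)
    rw [map_add, map_mul, map_mul, map_natCast, map_natCast, Nat.cast_mul] at this
    show f (g (a + b)) / m (a + b) = f (g a) / m a + f (g b) / m b
    rw [div_add_div _ _ (h0 a) (h0 b), eq_div_iff (mul_ne_zero (h0 a) (h0 b))]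
    linear_combination this
  · simpa using k (j x) 1 x (by simp)

theorem hom_ext {S : Type*} [CommRing S] [IsDomain S] [CharZero S] {f f' : A →+* S}
    (h : ∀ x, f (j x) = f' (j x)) : f = f' := RingHom.ext fun a => by
  obtain ⟨m, g, hm, hg⟩ := hj.surj a
  refine mul_left_cancel₀ (Nat.cast_ne_zero.2 hm.ne' : (m : S) ≠ 0) ?_
  have := h g
  rwa [← hg, map_mul, map_mul, map_natCast, map_natCast] at this

/-- every element of the quadratic extension has a multiple with integral coordinates -/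
theorem exists_fn [Algebra ℤ[X] R] {A' : Type} [CommRing A'] [Algebra ℚ A'] {r : ℕ}
    (D : Dbl A A' r) (T : Tab R) (h : A') :
    ∃ (m : ℕ) (g c : Fin T.e → ℤ[X]), 0 < m ∧ (m : A') * h = D.fn j T g c := by
  obtain ⟨a, b, rfl⟩ := D.surj h
  obtain ⟨m, g, hm, hg⟩ := hj.surj a
  obtain ⟨n, c, hn, hc⟩ := hj.surj b
  refine ⟨m * n, T.y.repr (n * g), T.y.repr (m * c), Nat.mul_pos hm hn, ?_⟩
  rw [Dbl.fn, T.el_repr, T.el_repr, map_mul j, map_mul j, ← hg, ← hc]
  simp only [map_mul, map_natCast]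
  push_cast
  ring

end Gen

end

end Pool.Agent.P.MP_b8021b_nt.VC
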