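import Pool.Agent.P.MP_b8021b_nt.VC.BSt

/-! B13: two tuple lengths force `β = 0`. -/

namespace Pool.Agent.P.MP_b8021b_nt.VC.B

open Pool.Agent.P.MP_b8021b_nt.VE

variable {kp : ℝ}

open Polynomial Finset
open scoped Classical

namespace Bb

variable {P X Z T S : Type} [Fintype P] [Fintype X] [Fintype Z] [Fintype T] [Fintype S]

theorem N_pos {b : Base P X} {ε : ℝ} (h : b.OkK kp ε) : (1 : ℝ) ≤ b.N := by
  have h1 := h.Npos
  rcases Nat.eq_zero_or_pos b.N with h0 | h0
  · rw [h0] at h1; norm_num at h1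
  · exact_mod_cast h0

theorem eps_pos {b : Base P X} {ε : ℝ} (h : b.OkK kp ε) : 0 < ε := by
  have h1 := h.Npos
  have h2 := N_pos h
  by_contra h3
  nlinarith [not_lt.1 h3]

theorem q_pos {b : Base P X} {ε : ℝ} (h : b.OkK kp ε) (a : P) : 0 < b.q a := by
  have h1 := h.q_ge a
  have h2 := N_pos h
  have h3 := eps_pos h
  by_contra h4
  nlinarith [not_lt.1 h4]

theorem eps_div {b : Base P X} {ε : ℝ} (h : b.OkK kp ε) (hε : ε ≤ 1 / 2) : ε / b.N ≤ 1 / 2 := by
  have h2 := N_pos h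
  have h3 := eps_pos h
  rw [div_le_iff₀ (by linarith)]
  nlinarith

/-- the total weight of the points -/
theorem total {b : Base P X} {ε : ℝ} (h : b.OkK kp ε) (hε : ε ≤ 1 / 2) :
    1 / 2 ≤ ∑ x, b.w (b.pr x) / (b.q (b.pr x) * b.N) := by
  have h1 := (abs_le.1 h.total).1
  have h2 := eps_div h hε
  linarith

theorem flag_nonneg {b : Base P X} {σ : Side X Z} {ε : ℝ} (h : b.OkK kp ε) (hs : σ.OkK b kp ε) (x : X)
    (z : Z) : 0 ≤ σ.flag b x z := by
  unfold Side.flag Side.m
  have h1 := hs.nonneg z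
  have h2 := h.w_nonneg (b.pr x)
  split_ifs <;> positivity

theorem flag_ge {b : Base P X} {σ : Side X Z} {ε : ℝ} (h : b.OkK kp ε) (hs : σ.OkK b kp ε)
    (hε : ε ≤ 1 / 2) (x : X) :
    b.w (b.pr x) / (b.q (b.pr x) * b.N) ≤ 2 * ∑ z, σ.flag b x z := by
  have hN := N_pos h
  have hq := q_pos h (b.pr x)
  have hw := h.w_nonneg (b.pr x)
  have h1 := (abs_le.1 ((hs.ind {x} (by simp) (by simp)).trans (eps_div h hε))).1
  rw [prod_singleton] at h1
  have e : ∑ z, σ.flag b x z = σ.prob {x} * (b.w (b.pr x) / b.N) := by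
    unfold Side.flag Side.m Side.prob
    rw [sum_filter, sum_mul]
    refine sum_congr rfl fun z _ => ?_
    by_cases hz : σ.on x z
    · rw [if_pos hz, if_pos (by simpa using hz), mul_div_assoc]
    · rw [if_neg hz, if_neg (by simpa using hz)]; simp
  have e' : b.w (b.pr x) / (b.q (b.pr x) * b.N) = 1 / b.q (b.pr x) * (b.w (b.pr x) / b.N) := by
    field_simp
  rw [e, e', ← mul_assoc]
  refine mul_le_mul_of_nonneg_right ?_ (by positivity)
  rw [div_le_iff₀ hq]
  linarith

/-- two anti-invariant approximations of the same function have the same shift -/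
theorem shift_eq {b : Base P X} {σ : Side X Z} {ε : ℝ} (h : b.OkK kp ε) (hs : σ.OkK b kp ε)
    (hε : ε ≤ 1 / 2) (c : X → Z → ℝ) (a a' : X → ℝ) (γ γ' : ℝ) (ha : ∀ x, a (b.ι x) = -a x)
    (ha' : ∀ x, a' (b.ι x) = -a' x)
    (h1 : ∑ z, ∑ x with c x z ≠ a x - γ, σ.flag b x z ≤ 1 / 100)
    (h2 : ∑ z, ∑ x with c x z ≠ a' x - γ', σ.flag b x z ≤ 1 / 100) : γ = γ' := by
  by_contra hne
  have hN := N_pos h
  set g : X → ℝ := fun x => b.w (b.pr x) / (b.q (b.pr x) * b.N) with hg
  have g0 : ∀ x, 0 ≤ g x := fun x => by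
    have := h.w_nonneg (b.pr x)
    have := q_pos h (b.pr x)
    positivity
  set k : X → ℝ := fun x => if a x - γ ≠ a' x - γ' then g x else 0 with hk
  have k0 : ∀ x, 0 ≤ k x := fun x => by
    simp only [hk]; split_ifs
    · exact g0 x
    · exact le_rfl
  have b1 : ∀ x, g x ≤ k x + k (b.ι x) := by
    intro x
    by_cases hx : a x - γ ≠ a' x - γ'
    · have : k x = g x := if_pos hx
      linarith [k0 (b.ι x)]
    · have hx' : a (b.ι x) - γ ≠ a' (b.ι x) - γ' := by
        rw [ha, ha']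
        intro e
        apply hne
        linarith [not_not.1 hx]
      have : k (b.ι x) = g (b.ι x) := if_pos hx'
      have e : g (b.ι x) = g x := by simp only [hg, h.pr_ι]
      linarith [k0 x]
  have b2 : ∑ x, k (b.ι x) = ∑ x, k x :=
    Equiv.sum_comp (Function.Involutive.toPerm b.ι h.ι_ι) k
  have b3 : ∀ x, k x ≤ 2 * ∑ z, ((if c x z ≠ a x - γ then σ.flag b x z else 0) +
      if c x z ≠ a' x - γ' then σ.flag b x z else 0) := by
    intro x
    have f0 := flag_nonneg h hs x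
    by_cases hx : a x - γ ≠ a' x - γ'
    · have : k x = g x := if_pos hx
      rw [this]
      refine (flag_ge h hs hε x).trans (mul_le_mul_of_nonneg_left (sum_le_sum fun z _ => ?_)
        (by norm_num))
      have := f0 z
      split_ifs with c1 c2 c2
      · linarith
      · linarith
      · linarith
      · exact (hx ((not_not.1 c1).symm.trans (not_not.1 c2))).elim
    · have : k x = 0 := if_neg hx
      rw [this]
      refine mul_nonneg (by norm_num) (sum_nonneg fun z _ => ?_)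
      have := f0 z
      split_ifs <;> linarith
  have b4 : ∑ x, k x ≤ 2 * (1 / 100 + 1 / 100) := by
    refine (sum_le_sum fun x _ => b3 x).trans ?_
    rw [← mul_sum, sum_comm]
    simp only [sum_add_distrib]
    simp only [sum_filter] at h1 h2
    linarith
  have b5 := total h hε
  have b6 : ∑ x, g x ≤ ∑ x, (k x + k (b.ι x)) := sum_le_sum fun x _ => b1 x
  rw [sum_add_distrib, b2] at b6
  linarith

end Bb

open Bb

theorem p_bb (hRig : ∀ kp : ℝ, 1 ≤ kp → S_Rig kp) : S_BK := by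
  intro kp u d hu
  by_cases hk : 1 ≤ kp
  swap
  · exact ⟨1, 1, le_rfl, one_pos, fun _ _ _ _ _ _ _ _ _ _ _ _ hG => absurd hG.des.base.one_le hk⟩
  replace hRig := hRig kp hk
  obtain ⟨N₀, h0⟩ := hRig u d hu (1 / 100) (by norm_num)
  obtain ⟨N₁, h1⟩ := hRig (u + 1) d (by omega) (1 / 100) (by norm_num)
  obtain ⟨ε₀, p0, h0⟩ := h0 (N₀ + N₁ + 1) (by omega)
  obtain ⟨ε₁, p1, h1⟩ := h1 (N₀ + N₁ + 1) (by omega)
  refine ⟨N₀ + N₁ + 1, min (min ε₀ ε₁) (1 / 2), by omega, by positivity, ?_⟩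
  intro P X T T' S _ _ _ _ _ G G' hG hG' e1 e2 e3 e4
  obtain ⟨a, ha, hb⟩ := h0 P X T S G (hG.mono ((min_le_left _ _).trans (min_le_left _ _)))
  obtain ⟨a', ha', hb'⟩ :=
    h1 P X T' S G' (hG'.mono ((min_le_left _ _).trans (min_le_right _ _)))
  rw [e1] at ha'
  rw [e1, e2, e3, e4] at hb'
  have key := shift_eq hG.des.base hG.des.sS (min_le_right _ _) G.c₂ a a' _ _ ha ha' hb hb'
  have hu' : (0 : ℝ) ≤ u := Nat.cast_nonneg u
  push_cast at key
  rw [div_eq_div_iff (by positivity) (by positivity)] at key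
  linarith

end Pool.Agent.P.MP_b8021b_nt.VC.B
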