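import Pool.Agent.P.MP_b8021b_nt.VC.BOne
import Pool.Agent.P.MP_b8021b_nt.VE.BasicB

/-! B3: a rare event of a fibre and a point is rare on almost every section. -/

namespace Pool.Agent.P.MP_b8021b_nt.VC.B

open Pool.Agent.P.MP_b8021b_nt.VE

variable {kp : ℝ}

open Finset
open scoped Classical

theorem p_cond (hk : 1 ≤ kp) (hCnt : S_Cnt) (hTK : S_TK kp) : S_Cond kp := by
  intro u hu
  obtain ⟨c, C, -, hC1, hC⟩ := hCnt.2.2.2.2.2 u hu
  obtain ⟨K, hK1, hK⟩ := id hTK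
  refine ⟨C, hC1, fun ε' hε' => ?_⟩
  set δ : ℝ := ε' ^ 2 / 2 with hδ
  have hδ0 : 0 < δ := by positivity
  obtain ⟨ε₁, hε₁, h1⟩ := p_one hk hCnt hTK u hu δ hδ0
  set ε : ℝ := min (min ε₁ 1) (min (1 / (12 * (u + 2))) (δ ^ 2 / (8 * K * (C * kp) ^ 2)))
    with hε
  have e1 : ε ≤ ε₁ := (min_le_left _ _).trans (min_le_left _ _)
  have e2 : ε ≤ 1 := (min_le_left _ _).trans (min_le_right _ _)
  have e3 : ε ≤ 1 / (12 * (u + 2)) := (min_le_right _ _).trans (min_le_left _ _)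
  have e4 : ε ≤ δ ^ 2 / (8 * K * (C * kp) ^ 2) :=
    (min_le_right _ _).trans (min_le_right _ _)
  refine ⟨ε, by positivity, ?_⟩
  intro P X T S _ _ _ _ b σT σS μ D E h hh
  have hb := D.base
  have hN := hb.NR_pos
  have hN1 := hb.one_le_N
  have hε0 := hb.pos
  have hNu : 12 * (u + 2) ≤ b.N := le_of_Npos hb.Npos (by
    rw [le_div_iff₀ (by positivity)] at e3
    push_cast
    exact e3)
  obtain ⟨-, -, hP, -⟩ := hC b.N hNu
  set G : S → Prop := fun s => σS.wt s * (C * h + ε') < ∑ t, ∑ x with E t (x 0), μ t s x with hG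
  set φ : T → X → ℝ := fun t x => if E t x then 1 else 0 with hφ
  set ψ : S → ℝ := fun s => if G s then 1 else 0 with hψ
  have hφ0 : ∀ t x, 0 ≤ φ t x ∧ φ t x ≤ 1 := fun t x => by
    simp only [hφ]; split_ifs <;> norm_num
  have hψ0 : ∀ s, 0 ≤ ψ s ∧ ψ s ≤ 1 := fun s => by
    simp only [hψ]; split_ifs <;> norm_num
  have k1 := (abs_le.mp (h1 P X T S b σT σS μ (D.mono e1) φ (fun s _ => ψ s)
    (fun t x => abs_le.mpr ⟨by linarith [(hφ0 t x).1], (hφ0 t x).2⟩)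
    (fun s _ => abs_le.mpr ⟨by linarith [(hψ0 s).1], (hψ0 s).2⟩)).1).2
  set γ : X → ℝ := fun x => ∑ t, σT.c1 b x t * φ t x with hγ
  have hγ0 : ∀ x, 0 ≤ γ x ∧ γ x ≤ 2 := fun x => by
    refine ⟨sum_nonneg fun t _ => mul_nonneg (D.sT.c1_nonneg hb x t) (hφ0 t x).1, ?_⟩
    have a1 := (abs_le.mp (D.sT.sum_c1 x)).2
    have a2 : γ x ≤ ∑ t, σT.c1 b x t := sum_le_sum fun t _ =>
      mul_le_of_le_one_right (D.sT.c1_nonneg hb x t) (hφ0 t x).2
    linarith [hb.div_le]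
  set β : X → ℝ := fun x => b.w (b.pr x) * P1 b.N u (b.lev (b.pr x)) * γ x with hβ
  have hP1 : ∀ a, P1 b.N u (b.lev a) ≤ C / b.N := fun a => by
    rw [le_div_iff₀ hN, mul_comm]; exact (hP _ (hb.lev_lt a)).2
  have k2 := ((hK P X S b σS ε e2 hb D.sS).1 β (fun a => b.w a / b.N * (2 * C)) (fun x => by
    have a1 := hb.w_nonneg (b.pr x)
    have a2 := P1_nonneg b.N u (b.lev (b.pr x))
    have a3 := hγ0 x
    have a4 := a3.1
    rw [abs_of_nonneg (by positivity)]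
    calc β x ≤ b.w (b.pr x) * (C / b.N) * 2 := by
          simp only [hβ]; gcongr; exacts [hP1 _, a3.2]
      _ = _ := by ring) (fun a => by have := hb.w_nonneg a; positivity)).1
  set V : S → ℝ := fun s => ∑ x, β x * ((if σS.on x s then 1 else 0) - 1 / b.q (b.pr x)) with hV
  have k3 : ∑ s, σS.wt s * V s ^ 2 ≤ δ ^ 2 := by
    refine k2.trans ?_
    have a1 := mul_le_mul_of_nonneg_left hb.all_bb (show 0 ≤ K * (2 * C) ^ 2 by positivity)
    simp only [mul_pow _ (2 * C), ← sum_mul]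
    rw [le_div_iff₀ (by positivity)] at e4
    linarith
  have k4 : ∑ s, σS.wt s * (ψ s * V s) ≤ δ := by
    refine (abs_le_of_sq_le_sq' ((wcs D.sS.nonneg ψ V).trans ?_) hδ0.le).2
    have a1 : ∑ s, σS.wt s * ψ s ^ 2 ≤ 1 := by
      rw [← D.sS.sum]
      exact sum_le_sum fun s _ => mul_le_of_le_one_right (D.sS.nonneg s)
        (pow_le_one₀ (hψ0 s).1 (hψ0 s).2)
    have a2 : 0 ≤ ∑ s, σS.wt s * V s ^ 2 :=
      sum_nonneg fun s _ => mul_nonneg (D.sS.nonneg s) (sq_nonneg _)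
    nlinarith
  have k5 : ∑ x, β x / b.q (b.pr x) ≤ C * h := by
    refine le_trans ?_ (mul_le_mul_of_nonneg_left hh (by linarith))
    simp only [sum_with_eq]
    rw [sum_comm, mul_sum]
    refine sum_le_sum fun x _ => ?_
    simp only [σT.flag_eq b (hb.q_pos _).ne', mul_assoc]
    rw [← mul_sum]
    have a1 := hb.w_nonneg (b.pr x)
    have a2 := hb.q_pos (b.pr x)
    have a3 := (hγ0 x).1
    calc β x / b.q (b.pr x) ≤ b.w (b.pr x) * (C / b.N) * γ x / b.q (b.pr x) := by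
          simp only [hβ]; gcongr; exact hP1 _
      _ = C * (b.w (b.pr x) / (b.q (b.pr x) * b.N) * γ x) := by field_simp
  have k6 : ∑ x, b.w (b.pr x) / b.q (b.pr x) * P1 b.N u (b.lev (b.pr x)) *
      (γ x * ∑ s, σS.c1 b x s * ψ s) =
      ∑ s, σS.wt s * (ψ s * V s) + (∑ s, σS.wt s * ψ s) * ∑ x, β x / b.q (b.pr x) := by
    rw [sum_mul, ← sum_add_distrib]
    simp only [hV, mul_sum]
    rw [sum_comm]
    refine sum_congr rfl fun s _ => ?_
    rw [← sum_add_distrib]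
    refine sum_congr rfl fun x _ => ?_
    have a2 := (hb.q_pos (b.pr x)).ne'
    simp only [hβ, Side.c1]
    split_ifs <;> field_simp <;> ring
  have k7 : (∑ s, σS.wt s * ψ s) * (C * h + ε') ≤ ∑ t, ∑ s, ∑ x, μ t s x * (φ t (x 0) * ψ s) := by
    rw [sum_comm, sum_mul]
    refine sum_le_sum fun s _ => ?_
    by_cases hs : G s
    · simp only [hψ, if_pos hs, mul_one]
      refine hs.le.trans (le_of_eq (sum_congr rfl fun t _ => ?_))
      exact sum_with_eq _ _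
    · simp [hψ, if_neg hs]
  have k8 : 0 ≤ ∑ s, σS.wt s * ψ s := sum_nonneg fun s _ => mul_nonneg (D.sS.nonneg s) (hψ0 s).1
  have k9 := mul_le_mul_of_nonneg_left k5 k8
  rw [k6] at k1
  rw [sum_with_eq]
  change ∑ s, σS.wt s * ψ s ≤ ε'
  refine le_of_mul_le_mul_right ?_ hε'
  nlinarith

end Pool.Agent.P.MP_b8021b_nt.VC.B
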