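import Pool.Agent.P.MP_b8021b_nt.VC.BSt

/-! B0: pair correlations control the cut norm -/

namespace Pool.Agent.P.MP_b8021b_nt.VC.B

open Pool.Agent.P.MP_b8021b_nt.VE

variable {kp : ℝ}

open Finset
open scoped Classical

namespace PCut

variable {P X Z : Type} [Fintype P] [Fintype X] [Fintype Z] {b : Base P X} {ε : ℝ}

theorem Npos (h : b.OkK kp ε) : (0 : ℝ) < b.N := by
  rcases Nat.eq_zero_or_pos b.N with h0 | h0
  · have := h.Npos
    rw [h0] at this
    norm_num at this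
  · exact_mod_cast h0

theorem qpos (h : b.OkK kp ε) (h0 : 0 < ε) (a : P) : 0 < b.q a := by
  by_contra hc
  have := mul_nonpos_of_nonneg_of_nonpos h0.le (not_lt.1 hc)
  linarith [h.q_ge a, Npos h]

theorem small (h : b.OkK kp ε) (h1 : ε ≤ 1) : ε / b.N ≤ 1 := by
  rw [div_le_one (Npos h)]
  have := h.Npos
  nlinarith [Npos h]

theorem sum_wq (h : b.OkK kp ε) (h1 : ε ≤ 1) :
    ∑ x, b.w (b.pr x) / b.N * (1 / b.q (b.pr x)) ≤ 2 := by
  have h2 := (abs_le.1 h.total).2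
  have h3 := small h h1
  simp only [mul_one_div, div_div, mul_comm (b.N : ℝ)]
  linarith

theorem c2_nonneg {σ : Side X Z} (h : b.OkK kp ε) (h0 : 0 < ε) (hs : σ.OkK b kp ε) (x x' : X) (z : Z) :
    0 ≤ σ.c2 b x x' z := by
  unfold Side.c2
  split_ifs
  · exact mul_nonneg (hs.nonneg z) (mul_pos (qpos h h0 _) (qpos h h0 _)).le
  · exact le_rfl

theorem c2_sum {σ : Side X Z} (h : b.OkK kp ε) (h1 : ε ≤ 1) (hs : σ.OkK b kp ε) {x x' : X}
    (hx : b.pr x ≠ b.pr x') : ∑ z, σ.c2 b x x' z ≤ 2 := by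
  have hne : x ≠ x' := fun e => hx (e ▸ rfl)
  have h2 := (abs_le.1 (hs.ind {x, x'} (by rw [card_pair hne]; norm_num) (by
    intro y hy y' hy' e
    simp only [coe_insert, coe_singleton, Set.mem_insert_iff, Set.mem_singleton_iff] at hy hy'
    rcases hy with rfl | rfl <;> rcases hy' with rfl | rfl
    · rfl
    · exact absurd e hx
    · exact absurd e.symm hx
    · rfl))).2
  rw [prod_pair hne] at h2
  have e : ∑ z, σ.c2 b x x' z = σ.prob {x, x'} * (b.q (b.pr x) * b.q (b.pr x')) := by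
    unfold Side.prob Side.c2
    rw [sum_mul, sum_filter]
    refine sum_congr rfl fun z _ => ?_
    simp only [mem_insert, mem_singleton, forall_eq_or_imp, forall_eq]
  rw [e]
  linarith [small h h1]

theorem om_nonneg (h : b.OkK kp ε) (h0 : 0 < ε) (u : ℕ) (x x' : X) : 0 ≤ b.om u x x' := by
  unfold Base.om Hh
  have := h.w_nonneg (b.pr x)
  have := h.w_nonneg (b.pr x')
  have := qpos h h0 (b.pr x)
  have := qpos h h0 (b.pr x')
  split_ifs
  · positivity
  · exact le_rfl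

theorem om_le (h : b.OkK kp ε) (h0 : 0 < ε) {u : ℕ} {C : ℝ} (hC : 0 ≤ C)
    (hH : ∀ i < b.N, ∀ i' < b.N, (b.N : ℝ) ^ 2 * Hh b.N u i i' ≤ C) (x x' : X) :
    b.om u x x' ≤ C * (b.w (b.pr x) / b.N * (1 / b.q (b.pr x)) *
      (b.w (b.pr x') / b.N * (1 / b.q (b.pr x')))) := by
  unfold Base.om
  have := h.w_nonneg (b.pr x)
  have := h.w_nonneg (b.pr x')
  have := qpos h h0 (b.pr x)
  have := qpos h h0 (b.pr x')
  have hN := Npos h
  split_ifs
  · have h2 := hH _ (h.lev_lt (b.pr x)) _ (h.lev_lt (b.pr x'))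
    have e : ∀ H : ℝ, b.w (b.pr x) * b.w (b.pr x') * H / (b.q (b.pr x) * b.q (b.pr x')) =
        (b.N : ℝ) ^ 2 * H * (b.w (b.pr x) / b.N * (1 / b.q (b.pr x)) *
          (b.w (b.pr x') / b.N * (1 / b.q (b.pr x')))) := fun H => by field_simp
    rw [e]
    exact mul_le_mul_of_nonneg_right h2 (by positivity)
  · positivity

theorem om_c2 {σ : Side X Z} (h : b.OkK kp ε) (h0 : 0 < ε) (h1 : ε ≤ 1) (hs : σ.OkK b kp ε) (u : ℕ)
    (x x' : X) : b.om u x x' * ∑ z, σ.c2 b x x' z ≤ b.om u x x' * 2 := by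
  by_cases hx : b.pr x ≠ b.pr x'
  · exact mul_le_mul_of_nonneg_left (c2_sum h h1 hs hx) (om_nonneg h h0 u x x')
  · have : b.om u x x' = 0 := if_neg hx
    rw [this, zero_mul, zero_mul]

theorem marg {n : ℕ} (μ : (Fin (n + 2) → X) → ℝ) (f : X → X → ℝ) :
    ∑ x, μ x * f (x 0) (x 1) = ∑ a, ∑ a', (∑ x with x 0 = a ∧ x 1 = a', μ x) * f a a' := by
  simp only [sum_mul, sum_filter]
  symm
  calc _ = ∑ a, ∑ x : Fin (n + 2) → X, ∑ a', (if x 0 = a ∧ x 1 = a' then μ x else 0) * f a a' :=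
        sum_congr rfl fun a _ => sum_comm
    _ = ∑ x : Fin (n + 2) → X, ∑ a, ∑ a', (if x 0 = a ∧ x 1 = a' then μ x else 0) * f a a' :=
        sum_comm
    _ = _ := by
        refine sum_congr rfl fun x _ => ?_
        rw [sum_eq_single (x 0), sum_eq_single (x 1)]
        · simp
        · intro a' _ ha
          simp [ha.symm]
        · simp
        · intro a _ ha
          simp [ha.symm]
        · simp

theorem cs {I : Type} [Fintype I] {w ψ Y : I → ℝ} (hw : ∀ i, 0 ≤ w i) (hψ : ∀ i, |ψ i| ≤ 1) :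
    (∑ i, w i * ψ i * Y i) ^ 2 ≤ (∑ i, w i) * ∑ i, w i * Y i ^ 2 := by
  refine sum_sq_le_sum_mul_sum_of_sq_le_mul _ (fun i _ => hw i)
    (fun i _ => mul_nonneg (hw i) (sq_nonneg _)) fun i _ => ?_
  have h1 : ψ i ^ 2 ≤ 1 := (sq_le_one_iff_abs_le_one _).2 (hψ i)
  have h2 : 0 ≤ (w i * Y i) ^ 2 := sq_nonneg _
  nlinarith

theorem four {T S : Type} [Fintype T] [Fintype S] (f : T → S → X → X → ℝ) :
    ∑ t, ∑ s, ∑ a, ∑ a', f t s a a' = ∑ a, ∑ a', ∑ s, ∑ t, f t s a a' := by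
  calc _ = ∑ s, ∑ t, ∑ a, ∑ a', f t s a a' := sum_comm
    _ = ∑ s, ∑ a, ∑ a', ∑ t, f t s a a' :=
        sum_congr rfl fun s _ => sum_comm.trans (sum_congr rfl fun a _ => sum_comm)
    _ = _ := sum_comm.trans (sum_congr rfl fun a _ => sum_comm)

theorem partB {σ : Side X Z} (h : b.OkK kp ε) (h0 : 0 < ε) (h1 : ε ≤ 1) (hs : σ.OkK b kp ε) {u : ℕ}
    {C K : ℝ} (hC : 0 ≤ C) (hK : 0 ≤ K)
    (hH : ∀ i < b.N, ∀ i' < b.N, (b.N : ℝ) ^ 2 * Hh b.N u i i' ≤ C)
    (hTK : ∀ (β : X → ℝ) (bb : P → ℝ), (∀ x, |β x| ≤ bb (b.pr x)) → (∀ a, 0 ≤ bb a) →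
      ∑ z, σ.wt z * (∑ x, β x * ((if σ.on x z then 1 else 0) - 1 / b.q (b.pr x))) ^ 2 ≤
        K * (ε / b.N * (∑ a, bb a) ^ 2 + ∑ a, bb a ^ 2))
    (T₀ : Finset Z) (hT : ∑ t with t ∉ T₀, σ.wt t ≤ ε) :
    ∑ t with t ∉ T₀, ∑ a, ∑ a', b.om u a a' * σ.c2 b a a' t ≤
      C * ((4 * (kp ^ 2 * K) + 8) * ε) := by
  have hN := Npos h
  have hN1 : (1 : ℝ) ≤ b.N := by nlinarith [h.Npos]
  have hb : ∀ a, 0 ≤ b.w a / b.N := fun a => div_nonneg (h.w_nonneg a) hN.le
  have k1 := hTK (fun x => b.w (b.pr x) / b.N) (fun a => b.w a / b.N)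
    (fun x => (abs_of_nonneg (hb _)).le) hb
  have k2 := k1.trans (mul_le_mul_of_nonneg_left h.all_bb hK)
  set D : Z → ℝ := fun z =>
    ∑ x, b.w (b.pr x) / b.N * ((if σ.on x z then 1 else 0) - 1 / b.q (b.pr x)) with hD
  have k3 : ∀ t, ∑ a, ∑ a', b.om u a a' * σ.c2 b a a' t ≤
      C * (2 * (σ.wt t * D t ^ 2) + 8 * σ.wt t) := by
    intro t
    have hw := hs.nonneg t
    calc _ ≤ ∑ a, ∑ a', C * σ.wt t * ((b.w (b.pr a) / b.N * (if σ.on a t then 1 else 0)) *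
          (b.w (b.pr a') / b.N * (if σ.on a' t then 1 else 0))) := by
          refine sum_le_sum fun a _ => sum_le_sum fun a' _ => ?_
          refine (mul_le_mul_of_nonneg_right (om_le h h0 hC hH a a')
            (c2_nonneg h h0 hs a a' t)).trans_eq ?_
          have q1 := (qpos h h0 (b.pr a)).ne'
          have q2 := (qpos h h0 (b.pr a')).ne'
          unfold Side.c2
          by_cases e1 : σ.on a t <;> by_cases e2 : σ.on a' t <;> simp only [e1, e2, and_self,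
            and_false, false_and, if_true, if_false, mul_zero, zero_mul, mul_one]
          field_simp
      _ = C * σ.wt t * (∑ a, b.w (b.pr a) / b.N * (if σ.on a t then 1 else 0)) ^ 2 := by
          rw [sq, sum_mul_sum, mul_sum]
          exact sum_congr rfl fun a _ => (mul_sum _ _ _).symm
      _ ≤ C * σ.wt t * (2 * D t ^ 2 + 8) := by
          refine mul_le_mul_of_nonneg_left ?_ (mul_nonneg hC hw)
          have e : ∑ a, b.w (b.pr a) / b.N * (if σ.on a t then 1 else 0) =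
              D t + ∑ x, b.w (b.pr x) / b.N * (1 / b.q (b.pr x)) := by
            rw [hD, ← sum_add_distrib]
            exact sum_congr rfl fun x _ => by ring
          have u1 := sum_wq h h1
          have u0 : 0 ≤ ∑ x, b.w (b.pr x) / b.N * (1 / b.q (b.pr x)) :=
            sum_nonneg fun x _ => mul_nonneg (hb _) (one_div_pos.2 (qpos h h0 _)).le
          rw [e]
          nlinarith [sq_nonneg (D t - ∑ x, b.w (b.pr x) / b.N * (1 / b.q (b.pr x)))]
      _ = _ := by ring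
  refine (sum_le_sum fun t _ => k3 t).trans ?_
  rw [← mul_sum, sum_add_distrib, ← mul_sum, ← mul_sum]
  refine mul_le_mul_of_nonneg_left ?_ hC
  have k4 : ∑ t with t ∉ T₀, σ.wt t * D t ^ 2 ≤ ∑ t, σ.wt t * D t ^ 2 :=
    sum_le_sum_of_subset_of_nonneg (subset_univ _) fun t _ _ =>
      mul_nonneg (hs.nonneg t) (sq_nonneg _)
  linarith

theorem partA {T S : Type} [Fintype T] [Fintype S] {σT : Side X T} {σS : Side X S} (h : b.OkK kp ε)
    (h0 : 0 < ε) (h1 : ε ≤ 1) (hT : σT.OkK b kp ε) (hS : σS.OkK b kp ε) {u : ℕ} {C : ℝ} (hC : 0 ≤ C)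
    (hH : ∀ i < b.N, ∀ i' < b.N, (b.N : ℝ) ^ 2 * Hh b.N u i i' ≤ C) (T₀ : Finset T)
    {V : T → S → X → X → ℝ} {φ : T → X → X → ℝ} {ψ : S → X → X → ℝ}
    (hφ : ∀ t x x', |φ t x x'| ≤ 1) (hψ : ∀ s x x', |ψ s x x'| ≤ 1)
    (hP : ∑ a, ∑ a', ∑ t ∈ T₀, ∑ t' ∈ T₀, b.om u a a' * σT.c2 b a a' t * σT.c2 b a a' t' *
      |∑ s, σS.c2 b a a' s * (V t s a a' * V t' s a a')| ≤ ε) :
    (∑ a, ∑ a', ∑ s, b.om u a a' * σS.c2 b a a' s * ψ s a a' *
      ∑ t ∈ T₀, σT.c2 b a a' t * φ t a a' * V t s a a') ^ 2 ≤ 8 * C * ε := by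
  have k := cs (I := X × X × S) (w := fun i => b.om u i.1 i.2.1 * σS.c2 b i.1 i.2.1 i.2.2)
    (ψ := fun i => ψ i.2.2 i.1 i.2.1)
    (Y := fun i => ∑ t ∈ T₀, σT.c2 b i.1 i.2.1 t * φ t i.1 i.2.1 * V t i.2.2 i.1 i.2.1)
    (fun i => mul_nonneg (om_nonneg h h0 _ _ _) (c2_nonneg h h0 hS _ _ _)) fun i => hψ _ _ _
  simp only [Fintype.sum_prod_type] at k
  refine k.trans (mul_le_mul ?_ (le_trans ?_ hP) (sum_nonneg fun a _ => sum_nonneg fun a' _ =>
    sum_nonneg fun s _ => mul_nonneg (mul_nonneg (om_nonneg h h0 _ _ _)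
      (c2_nonneg h h0 hS _ _ _)) (sq_nonneg _)) (by positivity))
  · have u1 := sum_wq h h1
    have u0 : 0 ≤ ∑ x, b.w (b.pr x) / b.N * (1 / b.q (b.pr x)) :=
      sum_nonneg fun x _ => mul_nonneg (div_nonneg (h.w_nonneg _) (Npos h).le)
        (one_div_pos.2 (qpos h h0 _)).le
    calc _ ≤ ∑ a, ∑ a', 2 * C * (b.w (b.pr a) / b.N * (1 / b.q (b.pr a)) *
          (b.w (b.pr a') / b.N * (1 / b.q (b.pr a')))) := by
          refine sum_le_sum fun a _ => sum_le_sum fun a' _ => ?_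
          rw [← mul_sum]
          linarith [om_c2 h h0 h1 hS u a a', om_le h h0 hC hH a a']
      _ = 2 * C * (∑ x, b.w (b.pr x) / b.N * (1 / b.q (b.pr x))) ^ 2 := by
          rw [sq, sum_mul_sum, mul_sum]
          exact sum_congr rfl fun a _ => (mul_sum _ _ _).symm
      _ ≤ 2 * C * 4 := mul_le_mul_of_nonneg_left (by nlinarith) (by positivity)
      _ = _ := by ring
  · refine sum_le_sum fun a _ => sum_le_sum fun a' _ => ?_
    calc _ = ∑ s, ∑ t ∈ T₀, ∑ t' ∈ T₀, b.om u a a' * σT.c2 b a a' t * σT.c2 b a a' t' *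
          (φ t a a' * φ t' a a') * (σS.c2 b a a' s * (V t s a a' * V t' s a a')) := by
          refine sum_congr rfl fun s _ => ?_
          rw [sq, sum_mul_sum, mul_sum]
          refine sum_congr rfl fun t _ => ?_
          rw [mul_sum]
          exact sum_congr rfl fun t' _ => by ring
      _ = ∑ t ∈ T₀, ∑ t' ∈ T₀, ∑ s, b.om u a a' * σT.c2 b a a' t * σT.c2 b a a' t' *
          (φ t a a' * φ t' a a') * (σS.c2 b a a' s * (V t s a a' * V t' s a a')) :=
          sum_comm.trans (sum_congr rfl fun t _ => sum_comm)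
      _ ≤ _ := by
          refine sum_le_sum fun t _ => sum_le_sum fun t' _ => ?_
          rw [← mul_sum, mul_assoc _ (φ t a a' * φ t' a a')]
          refine mul_le_mul_of_nonneg_left ((le_abs_self _).trans ?_) (mul_nonneg (mul_nonneg
            (om_nonneg h h0 _ _ _) (c2_nonneg h h0 hT _ _ _)) (c2_nonneg h h0 hT _ _ _))
          rw [abs_mul, abs_mul]
          exact mul_le_of_le_one_left (abs_nonneg _)
            (mul_le_one₀ (hφ _ _ _) (abs_nonneg _) (hφ _ _ _))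

end PCut

open PCut

theorem p_cut (hCnt : S_Cnt) (hTK : ∀ kp : ℝ, 1 ≤ kp → S_TK kp) : S_CutK := by
  intro kp u hu ε' hε'
  by_cases hk : 1 ≤ kp
  swap
  · exact ⟨1, one_pos, fun _ _ _ _ _ _ _ _ _ _ _ _ _ _ h => absurd h.one_le hk⟩
  obtain ⟨c, C, -, hC1, hC⟩ := hCnt.2.2.2.2.2 u hu
  obtain ⟨K₀, hK₀, hK⟩ := hTK kp hk
  obtain ⟨K, hKd⟩ : ∃ K, K = kp ^ 2 * K₀ := ⟨_, rfl⟩
  have hK1 : 1 ≤ K := hKd ▸ one_le_mul_of_one_le_of_one_le (one_le_pow₀ hk) hK₀
  have hu0 : (0 : ℝ) < 12 * (u + 2) := by positivity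
  have hC0 : 0 < C := by linarith
  have hK0 : 0 < K := by linarith
  refine ⟨min (1 / (12 * (u + 2))) (min (ε' ^ 2 / (32 * C)) (ε' / (4 * C * (4 * K + 8)))),
    by positivity, ?_⟩
  set ε := min (1 / (12 * (u + 2) : ℝ)) (min (ε' ^ 2 / (32 * C)) (ε' / (4 * C * (4 * K + 8))))
    with hε
  have h0 : 0 < ε := by positivity
  have l1 : ε * (12 * (u + 2)) ≤ 1 := (le_div_iff₀ hu0).1 (min_le_left _ _)
  have l2 : ε * (32 * C) ≤ ε' ^ 2 :=
    (le_div_iff₀ (by positivity)).1 ((min_le_right _ _).trans (min_le_left _ _))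
  have l3 : ε * (4 * C * (4 * K + 8)) ≤ ε' :=
    (le_div_iff₀ (by positivity)).1 ((min_le_right _ _).trans (min_le_right _ _))
  clear_value ε
  have h1 : ε ≤ 1 := by
    have : (0 : ℝ) ≤ u := Nat.cast_nonneg u
    nlinarith
  intro P X T S _ _ _ _ b σT σS μ T₀ W h hT hS htup hW hT₀ hP
  have hN : 12 * (u + 2) ≤ b.N := by
    have := h.Npos
    have h2 : (12 * (u + 2) : ℝ) ≤ b.N := le_of_mul_le_mul_left (l1.trans this) h0
    exact_mod_cast h2
  have hH : ∀ i < b.N, ∀ i' < b.N, (b.N : ℝ) ^ 2 * Hh b.N u i i' ≤ C := fun i hi i' hi' =>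
    ((hC b.N hN).2.2.2 i hi i' hi').2
  refine ⟨htup, fun φ ψ hφ hψ => ?_⟩
  have kA := partA (V := fun t s a a' => W t s a a' - 1) h h0 h1 hT hS hC0.le hH T₀ hφ hψ hP
  have kB := partB h h0 h1 hT hC0.le (zero_le_one.trans hK₀) hH
    (fun β bb e1 e2 => ((hK P X T b σT ε h1 h hT).1 β bb e1 e2).1) T₀ hT₀
  rw [← hKd] at kB
  set A := ∑ a, ∑ a', ∑ s, b.om u a a' * σS.c2 b a a' s * ψ s a a' *
      ∑ t ∈ T₀, σT.c2 b a a' t * φ t a a' * (W t s a a' - 1) with hA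
  set B := ∑ t with t ∉ T₀, ∑ s, ∑ a, ∑ a', nu b σT σS u t s a a' * (φ t a a' * ψ s a a') with hB
  have e : ∑ t, ∑ s, ∑ x, μ t s x * (φ t (x 0) (x 1) * ψ s (x 0) (x 1)) -
      ∑ t, ∑ s, ∑ x, ∑ x', nu b σT σS u t s x x' * (φ t x x' * ψ s x x') = A - B := by
    have e1 : A = ∑ t, ∑ s, ∑ a, ∑ a', if t ∈ T₀ then
        nu b σT σS u t s a a' * (W t s a a' - 1) * (φ t a a' * ψ s a a') else 0 := by
      rw [four, hA]
      refine sum_congr rfl fun a _ => sum_congr rfl fun a' _ => sum_congr rfl fun s _ => ?_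
      rw [sum_ite_mem, univ_inter, mul_sum]
      exact sum_congr rfl fun t _ => by unfold nu; ring
    rw [e1, hB, sum_filter, ← sum_sub_distrib, ← sum_sub_distrib]
    refine sum_congr rfl fun t _ => ?_
    rw [sum_congr rfl fun s _ => marg (μ t s) fun a a' => φ t a a' * ψ s a a']
    simp only [hW]
    by_cases ht : t ∈ T₀
    · simp only [ht, if_true, not_true, if_false, sub_zero, ← sum_sub_distrib]
      exact sum_congr rfl fun s _ => sum_congr rfl fun a _ => sum_congr rfl fun a' _ => by ring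
    · simp only [ht, if_false, not_false_iff, if_true, zero_mul, sum_const_zero]
  have kB' : |B| ≤ 2 * (C * ((4 * K + 8) * ε)) := by
    refine le_trans ?_ (mul_le_mul_of_nonneg_left kB zero_le_two)
    rw [hB, mul_sum]
    refine (abs_sum_le_sum_abs _ _).trans (sum_le_sum fun t _ => ?_)
    rw [sum_comm, mul_sum]
    refine (abs_sum_le_sum_abs _ _).trans (sum_le_sum fun a _ => ?_)
    rw [sum_comm, mul_sum]
    refine (abs_sum_le_sum_abs _ _).trans (sum_le_sum fun a' _ => ?_)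
    have o1 := om_nonneg h h0 u a a'
    have o2 := c2_nonneg h h0 hT a a' t
    calc _ ≤ ∑ s, σT.c2 b a a' t * (b.om u a a' * σS.c2 b a a' s) := by
          refine (abs_sum_le_sum_abs _ _).trans (sum_le_sum fun s _ => ?_)
          have o3 := c2_nonneg h h0 hS a a' s
          have e3 : nu b σT σS u t s a a' = σT.c2 b a a' t * (b.om u a a' * σS.c2 b a a' s) := by
            unfold nu
            ring
          rw [e3, abs_mul, abs_of_nonneg (by positivity), abs_mul]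
          exact mul_le_of_le_one_right (by positivity)
            (mul_le_one₀ (hφ _ _ _) (abs_nonneg _) (hψ _ _ _))
      _ ≤ σT.c2 b a a' t * (b.om u a a' * 2) := by
          rw [← mul_sum, ← mul_sum]
          exact mul_le_mul_of_nonneg_left (om_c2 h h0 h1 hS u a a') o2
      _ = _ := by ring
  have kA' : |A| ≤ ε' / 2 := abs_le_of_sq_le_sq (by nlinarith) (by positivity)
  rw [e]
  refine (abs_sub _ _).trans ?_
  linarith

end Pool.Agent.P.MP_b8021b_nt.VC.B
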