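import Pool.Agent.P.MP_b8021b_nt.VC.BLoc1

/-! Package B4: the local structure on almost every section. -/

namespace Pool.Agent.P.MP_b8021b_nt.VC.B

open Pool.Agent.P.MP_b8021b_nt.VE

variable {kp : ℝ}

open Finset
open scoped Classical

namespace PLoc

noncomputable section

set_option linter.unusedSectionVars false

variable {P X T S C : Type} [Fintype P] [Fintype X] [Fintype T] [Fintype S] [Fintype C]

lemma marg {u : ℕ} (π : (Fin (u + 2) → X) → ℝ) (g : X → X → ℝ) :
    ∑ x, π x * g (x 0) (x 1) = ∑ a, ∑ a', (∑ x with x 0 = a ∧ x 1 = a', π x) * g a a' := by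
  simp only [sum_filter, sum_mul]
  symm
  calc _ = ∑ a, ∑ x : Fin (u + 2) → X, ∑ a', (if x 0 = a ∧ x 1 = a' then π x else 0) * g a a' :=
        sum_congr rfl fun a _ => sum_comm
    _ = ∑ x : Fin (u + 2) → X, ∑ a, ∑ a', (if x 0 = a ∧ x 1 = a' then π x else 0) * g a a' :=
        sum_comm
    _ = _ := by
        refine sum_congr rfl fun x _ => ?_
        rw [sum_eq_single (x 0), sum_eq_single (x 1)]
        · simp
        · intro a' _ ha
          simp [ha.symm]
        · simp
        · intro a _ ha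
          simp [ha.symm]
        · simp

/-- the marginal of the cell and two points on the section `s` -/
def M {u : ℕ} (μ : T → S → (Fin (u + 2) → X) → ℝ) (cell : T → C) (s : S) (c : C) (a a' : X) : ℝ :=
  ∑ t with cell t = c, ∑ x with x 0 = a ∧ x 1 = a', μ t s x

/-- the total variation distance on the section `s` -/
def D {u : ℕ} (b : Base P X) (σS : Side X S) (μ : T → S → (Fin (u + 2) → X) → ℝ) (cell : T → C)
    (s : S) : ℝ :=
  ∑ c, ∑ a, ∑ a', |M μ cell s c a a' - σS.wt s * mm b σS u s a a' / Fintype.card C|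

lemma D_nonneg {u : ℕ} (b : Base P X) (σS : Side X S) (μ : T → S → (Fin (u + 2) → X) → ℝ)
    (cell : T → C) (s : S) : 0 ≤ D b σS μ cell s :=
  sum_nonneg fun _ _ => sum_nonneg fun _ _ => sum_nonneg fun _ _ => abs_nonneg _

lemma nu_close [Nonempty C] {b : Base P X} {σT : Side X T} {σS : Side X S} {ε : ℝ} (h : b.OkK kp ε)
    (hS : σS.OkK b kp ε) {cell : T → C} (hc : σT.CellInd b cell ε) (u : ℕ) (s : S) (c : C)
    (a a' : X) :
    |∑ t, nu b σT σS u t s a a' * (if cell t = c then 1 else 0) -
        σS.wt s * mm b σS u s a a' / Fintype.card C| ≤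
      (ε * (σS.wt s * mm b σS u s a a') +
        if b.pr a' = b.pr a then σS.wt s * mm b σS u s a a' else 0) / Fintype.card C := by
  have hC : (0 : ℝ) < Fintype.card C := by exact_mod_cast Fintype.card_pos
  have h0 : 0 ≤ σS.wt s * mm b σS u s a a' := mul_nonneg (hS.nonneg s) (mm_nonneg h σS u s a a')
  have hε := eps_pos h
  by_cases ha : b.pr a' = b.pr a
  · have : ∀ t, nu b σT σS u t s a a' = 0 := fun t => by
      unfold nu Base.om
      simp [ha]
    simp only [this, zero_mul, sum_const_zero, zero_sub, abs_neg, if_pos ha]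
    rw [abs_of_nonneg (by positivity)]
    refine div_le_div_of_nonneg_right ?_ hC.le
    have := mul_nonneg hε.le h0
    linarith
  · have hne : a ≠ a' := fun e => ha (by rw [e])
    have hq := q_pos h (b.pr a)
    have hq' := q_pos h (b.pr a')
    have h1 := hc {a, a'} (by rw [card_pair hne]) (by
      intro x hx y hy hxy
      simp only [coe_insert, coe_singleton, Set.mem_insert_iff, Set.mem_singleton_iff] at hx hy
      rcases hx with rfl | rfl <;> rcases hy with rfl | rfl
      · rfl
      · exact absurd hxy.symm ha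
      · exact absurd hxy ha
      · rfl) c
    rw [prod_pair hne] at h1
    have e1 : ∑ t, nu b σT σS u t s a a' * (if cell t = c then 1 else 0) =
        σS.wt s * mm b σS u s a a' *
          ((∑ z with cell z = c ∧ ∀ x ∈ ({a, a'} : Finset X), σT.on x z, σT.wt z) *
            (b.q (b.pr a) * b.q (b.pr a'))) := by
      rw [sum_filter, sum_mul, mul_sum]
      refine sum_congr rfl fun t _ => ?_
      unfold nu Base.om Side.c2 mm Side.m
      rw [if_pos (Ne.symm ha)]
      by_cases h1 : cell t = c <;> by_cases h2 : σT.on a t <;> by_cases h3 : σT.on a' t <;>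
        by_cases h4 : σS.on a s <;> by_cases h5 : σS.on a' s <;> simp [h1, h2, h3, h4, h5]
      field_simp
    rw [e1, if_neg ha, add_zero]
    set R := (∑ z with cell z = c ∧ ∀ x ∈ ({a, a'} : Finset X), σT.on x z, σT.wt z) *
      (b.q (b.pr a) * b.q (b.pr a'))
    have e2 : σS.wt s * mm b σS u s a a' * R - σS.wt s * mm b σS u s a a' / Fintype.card C =
        σS.wt s * mm b σS u s a a' * (R * Fintype.card C - 1) / Fintype.card C := by
      field_simp
    rw [e2, abs_div, abs_of_pos hC, abs_mul, abs_of_nonneg h0, mul_comm ε]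
    exact div_le_div_of_nonneg_right (mul_le_mul_of_nonneg_left (h1.trans (div_le h)) h0) hC.le

lemma D_sum [Nonempty C] {u : ℕ} {b : Base P X} {σT : Side X T} {σS : Side X S} {ε : ℝ}
    {μ : T → S → (Fin (u + 2) → X) → ℝ} (hD : DesK kp b σT σS u μ ε) {cell : T → C}
    (hc : σT.CellInd b cell ε) :
    ∑ s, D b σS μ cell s ≤ Fintype.card C * ε + ε * ∑ s, σS.wt s * ∑ a, ∑ a', mm b σS u s a a' +
      ∑ s, ∑ a, ∑ a', (if b.pr a' = b.pr a then σS.wt s * mm b σS u s a a' else 0) := by
  have hC : (0 : ℝ) < Fintype.card C := by exact_mod_cast Fintype.card_pos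
  set E : ℝ := ε * ∑ s, σS.wt s * ∑ a, ∑ a', mm b σS u s a a' +
      ∑ s, ∑ a, ∑ a', (if b.pr a' = b.pr a then σS.wt s * mm b σS u s a a' else 0) with hE
  have key : ∀ c : C, ∑ s, ∑ a, ∑ a',
      |M μ cell s c a a' - σS.wt s * mm b σS u s a a' / Fintype.card C| ≤
        ε + E / Fintype.card C := by
    intro c
    set ψ : S → X → X → ℝ := fun s a a' =>
      if 0 ≤ M μ cell s c a a' - σS.wt s * mm b σS u s a a' / Fintype.card C then 1 else -1
      with hψ
    have hψ1 : ∀ s a a', |ψ s a a'| ≤ 1 := fun s a a' => by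
      simp only [hψ]
      split_ifs <;> simp
    have hψ2 : ∀ s a a', |M μ cell s c a a' - σS.wt s * mm b σS u s a a' / Fintype.card C| =
        (M μ cell s c a a' - σS.wt s * mm b σS u s a a' / Fintype.card C) * ψ s a a' := by
      intro s a a'
      simp only [hψ]
      split_ifs with h
      · rw [abs_of_nonneg h, mul_one]
      · rw [abs_of_neg (not_le.1 h)]; ring
    have h1 := hD.mix.cut (fun t _ _ => if cell t = c then 1 else 0) ψ
      (fun t _ _ => by split_ifs <;> simp) hψ1
    have e1 : ∑ t, ∑ s, ∑ x, μ t s x * ((if cell t = c then 1 else 0) * ψ s (x 0) (x 1)) =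
        ∑ s, ∑ a, ∑ a', M μ cell s c a a' * ψ s a a' := by
      rw [sum_comm]
      refine sum_congr rfl fun s _ => ?_
      calc _ = ∑ t, ∑ a, ∑ a', (∑ x with x 0 = a ∧ x 1 = a', μ t s x) *
            ((if cell t = c then 1 else 0) * ψ s a a') :=
            sum_congr rfl fun t _ =>
              marg (μ t s) fun a a' => (if cell t = c then 1 else 0) * ψ s a a'
        _ = ∑ a, ∑ a', ∑ t, (∑ x with x 0 = a ∧ x 1 = a', μ t s x) *
            ((if cell t = c then 1 else 0) * ψ s a a') := by
            rw [sum_comm]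
            exact sum_congr rfl fun a _ => sum_comm
        _ = _ := by
            refine sum_congr rfl fun a _ => sum_congr rfl fun a' _ => ?_
            unfold M
            rw [sum_filter (fun t => cell t = c), sum_mul]
            refine sum_congr rfl fun t _ => ?_
            split_ifs <;> ring
    have e2 : ∑ t, ∑ s, ∑ a, ∑ a',
        nu b σT σS u t s a a' * ((if cell t = c then 1 else 0) * ψ s a a') =
        ∑ s, ∑ a, ∑ a', (∑ t, nu b σT σS u t s a a' * (if cell t = c then 1 else 0)) *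
          ψ s a a' := by
      rw [sum_comm]
      refine sum_congr rfl fun s _ => ?_
      rw [sum_comm]
      refine sum_congr rfl fun a _ => ?_
      rw [sum_comm]
      refine sum_congr rfl fun a' _ => ?_
      rw [sum_mul]
      exact sum_congr rfl fun t _ => by ring
    rw [e1, e2] at h1
    have h2 : ∑ s, ∑ a, ∑ a', ((∑ t, nu b σT σS u t s a a' * (if cell t = c then 1 else 0)) -
        σS.wt s * mm b σS u s a a' / Fintype.card C) * ψ s a a' ≤ E / Fintype.card C := by
      calc _ ≤ ∑ s, ∑ a, ∑ a', (ε * (σS.wt s * mm b σS u s a a') +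
            if b.pr a' = b.pr a then σS.wt s * mm b σS u s a a' else 0) / Fintype.card C := by
            refine sum_le_sum fun s _ => sum_le_sum fun a _ => sum_le_sum fun a' _ => ?_
            refine (le_abs_self _).trans ?_
            rw [abs_mul]
            refine (mul_le_mul_of_nonneg_left (hψ1 s a a') (abs_nonneg _)).trans ?_
            rw [mul_one]
            exact nu_close hD.base hD.sS hc u s c a a'
        _ = E / Fintype.card C := by
            simp only [hE, ← sum_div, sum_add_distrib, mul_sum]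
    simp only [hψ2]
    simp only [sub_mul, sum_sub_distrib] at h2 ⊢
    linarith [(abs_le.1 h1).2]
  calc ∑ s, D b σS μ cell s = ∑ c : C, ∑ s, ∑ a, ∑ a',
        |M μ cell s c a a' - σS.wt s * mm b σS u s a a' / Fintype.card C| := sum_comm
    _ ≤ ∑ _c : C, (ε + E / Fintype.card C) := sum_le_sum fun c _ => key c
    _ = Fintype.card C * ε + E := by
        rw [sum_const, card_univ, nsmul_eq_mul]
        field_simp
    _ = _ := by rw [hE]; ring

lemma mass_le [Nonempty C] {u : ℕ} (b : Base P X) (σS : Side X S)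
    (μ : T → S → (Fin (u + 2) → X) → ℝ) (cell : T → C) (s : S) :
    ∑ t, ∑ x, μ t s x ≤ D b σS μ cell s + σS.wt s * ∑ a, ∑ a', mm b σS u s a a' := by
  have hC : (0 : ℝ) < Fintype.card C := by exact_mod_cast Fintype.card_pos
  have e1 : ∑ t, ∑ x, μ t s x = ∑ c, ∑ a, ∑ a', M μ cell s c a a' := by
    rw [← sum_fiberwise univ cell]
    refine sum_congr rfl fun c _ => ?_
    unfold M
    symm
    calc _ = ∑ a, ∑ t with cell t = c, ∑ a', ∑ x with x 0 = a ∧ x 1 = a', μ t s x :=
          sum_congr rfl fun a _ => sum_comm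
      _ = ∑ t with cell t = c, ∑ a, ∑ a', ∑ x with x 0 = a ∧ x 1 = a', μ t s x := sum_comm
      _ = _ := by
          refine sum_congr rfl fun t _ => ?_
          have := marg (μ t s) fun _ _ => 1
          simp only [mul_one] at this
          exact this.symm
  have e2 : σS.wt s * ∑ a, ∑ a', mm b σS u s a a' =
      ∑ _c : C, ∑ a, ∑ a', σS.wt s * mm b σS u s a a' / Fintype.card C := by
    rw [sum_const, card_univ, nsmul_eq_mul]
    simp only [← sum_div, ← mul_sum]
    field_simp
  rw [e1, e2]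
  unfold D
  simp only [← sum_add_distrib]
  refine sum_le_sum fun c _ => sum_le_sum fun a _ => sum_le_sum fun a' _ => ?_
  linarith [le_abs_self (M μ cell s c a a' - σS.wt s * mm b σS u s a a' / Fintype.card C)]

end

end PLoc

open PLoc in
theorem p_loc (hk : 1 ≤ kp) (hCnt : S_Cnt) (hTK : S_TK kp) : S_Loc kp := by
  intro u hu n ε' hε'
  obtain ⟨c, K, -, hK1, hK⟩ := hCnt.2.2.2.2.2 u hu
  obtain ⟨L₀, hL₀, hL⟩ := hTK
  obtain ⟨L, hLd⟩ : ∃ L, L = kp ^ 2 * L₀ := ⟨_, rfl⟩
  have hL1 : 1 ≤ L := hLd ▸ one_le_mul_of_one_le_of_one_le (one_le_pow₀ hk) hL₀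
  set η : ℝ := ε' / 2 with hη
  have hη0 : 0 < η := by positivity
  set A₁ : ℝ := n + K * (4 * L + 8) + 2 * kp * K with hA₁
  set A₂ : ℝ := 2 * L / η ^ 2 + A₁ / η with hA₂
  set A₃ : ℝ := A₁ + K * (4 * L + 8 * A₂) with hA₃
  have hA₁0 : 0 < A₁ := by positivity
  have hA₂0 : 0 < A₂ := by positivity
  have hA₃0 : 0 < A₃ := by positivity
  refine ⟨min (min (1 / (12 * (u + 2))) η) (min (ε' / A₂) (ε' / A₃)), by positivity, ?_⟩
  intro P X T S C _ _ _ _ _ _ b σT σS μ cell hn hD hc
  generalize hεd : min (min (1 / (12 * ((u : ℝ) + 2))) η) (min (ε' / A₂) (ε' / A₃)) = ε at hD hc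
  have hε1 : ε ≤ 1 / (12 * ((u : ℝ) + 2)) := hεd ▸ (min_le_left _ _).trans (min_le_left _ _)
  have hε2 : ε ≤ η := hεd ▸ (min_le_left _ _).trans (min_le_right _ _)
  have hε3 : ε ≤ ε' / A₂ := hεd ▸ (min_le_right _ _).trans (min_le_left _ _)
  have hε4 : ε ≤ ε' / A₃ := hεd ▸ (min_le_right _ _).trans (min_le_right _ _)
  have hb := hD.base
  have hε0 := eps_pos hb
  have hu0 : (0 : ℝ) ≤ u := Nat.cast_nonneg u
  have hεle : ε ≤ 1 := hε1.trans (by
    rw [div_le_one (by positivity)]
    linarith)
  have hN : 12 * (u + 2) ≤ b.N := by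
    have h1 : (1 : ℝ) ≤ 1 / (12 * ((u : ℝ) + 2)) * b.N :=
      hb.Npos.trans (mul_le_mul_of_nonneg_right hε1 (Nat.cast_nonneg _))
    rw [div_mul_eq_mul_div, le_div_iff₀ (by positivity), one_mul, one_mul] at h1
    exact_mod_cast h1
  have hK0 : 0 ≤ K := by linarith
  have hL0 : 0 ≤ L := by linarith
  have hH : ∀ i < b.N, ∀ i' < b.N, (b.N : ℝ) ^ 2 * Hh b.N u i i' ≤ K :=
    fun i hi i' hi' => ((hK b.N hN).2.2.2 i hi i' hi').2
  have hV : ∑ s, σS.wt s * V b σS s ≤ 2 * L * ε :=
    hLd ▸ exp_V hb (zero_le_one.trans hL₀) fun β bb h1 h2 =>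
      ((hL P X S b σS ε hεle hb hD.sS).1 β bb h1 h2).1
  have hw := hD.sS.nonneg
  have hG : ∀ B : Finset S, ∑ s ∈ B, σS.wt s * ∑ a, ∑ a', mm b σS u s a a' ≤
      K * (4 * L * ε + 8 * ∑ s ∈ B, σS.wt s) := by
    intro B
    have h1 : ∑ s ∈ B, σS.wt s * V b σS s ≤ 2 * L * ε :=
      (sum_le_sum_of_subset_of_nonneg (subset_univ B)
        fun s _ _ => mul_nonneg (hw s) (V_nonneg b σS s)).trans hV
    calc _ ≤ ∑ s ∈ B, σS.wt s * (K * (2 * V b σS s + 8)) :=
          sum_le_sum fun s _ => mul_le_mul_of_nonneg_left (mm_sum hb hεle σS u hK0 hH s) (hw s)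
      _ = K * (2 * ∑ s ∈ B, σS.wt s * V b σS s + 8 * ∑ s ∈ B, σS.wt s) := by
          rw [mul_sum, mul_sum, ← sum_add_distrib, mul_sum]
          exact sum_congr rfl fun s _ => by ring
      _ ≤ _ := mul_le_mul_of_nonneg_left (by linarith) hK0
  have hDs : ∑ s, D b σS μ cell s ≤ A₁ * ε := by
    have h1 := D_sum hD hc
    have h2 := diag hb hεle hD.sS u hK0 hH
    have h3 := hG univ
    rw [hD.sS.sum] at h3
    have h4 : (Fintype.card C : ℝ) * ε ≤ n * ε :=
      mul_le_mul_of_nonneg_right (by exact_mod_cast hn) hε0.le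
    have h5 : K * (4 * L * ε + 8 * 1) ≤ K * (4 * L + 8) :=
      mul_le_mul_of_nonneg_left (by nlinarith) hK0
    have h6 := mul_le_mul_of_nonneg_left (h3.trans h5) hε0.le
    rw [hA₁]
    linarith
  set Gd : Finset S := univ.filter fun s =>
    0 < σS.wt s ∧ V b σS s ≤ η ^ 2 ∧ D b σS μ cell s ≤ η * σS.wt s with hGd
  have hbad : ∑ s with s ∉ Gd, σS.wt s ≤ A₂ * ε := by
    calc _ ≤ ∑ s with s ∉ Gd, (σS.wt s * V b σS s / η ^ 2 + D b σS μ cell s / η) := by
          refine sum_le_sum fun s hs => ?_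
          have hs' := (mem_filter.1 hs).2
          have h1 : 0 ≤ σS.wt s * V b σS s / η ^ 2 :=
            div_nonneg (mul_nonneg (hw s) (V_nonneg b σS s)) (sq_nonneg _)
          have h2 : 0 ≤ D b σS μ cell s / η := div_nonneg (D_nonneg b σS μ cell s) hη0.le
          simp only [hGd, mem_filter, mem_univ, true_and, not_and_or, not_lt, not_le] at hs'
          rcases hs' with h | h | h
          · linarith
          · have : σS.wt s ≤ σS.wt s * V b σS s / η ^ 2 := by
              rw [le_div_iff₀ (by positivity)]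
              exact mul_le_mul_of_nonneg_left h.le (hw s)
            linarith
          · have : σS.wt s ≤ D b σS μ cell s / η := by
              rw [le_div_iff₀ hη0, mul_comm]
              exact h.le
            linarith
      _ ≤ ∑ s, (σS.wt s * V b σS s / η ^ 2 + D b σS μ cell s / η) :=
          sum_le_sum_of_subset_of_nonneg (subset_univ _) fun s _ _ =>
            add_nonneg (div_nonneg (mul_nonneg (hw s) (V_nonneg b σS s)) (sq_nonneg _))
              (div_nonneg (D_nonneg b σS μ cell s) hη0.le)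
      _ = (∑ s, σS.wt s * V b σS s) / η ^ 2 + (∑ s, D b σS μ cell s) / η := by
          rw [sum_add_distrib, sum_div, sum_div]
      _ ≤ 2 * L * ε / η ^ 2 + A₁ * ε / η :=
          add_le_add (div_le_div_of_nonneg_right hV (sq_nonneg _))
            (div_le_div_of_nonneg_right hDs hη0.le)
      _ = A₂ * ε := by rw [hA₂]; ring
  refine ⟨Gd, ?_, ?_, fun s hs => ?_⟩
  · rw [le_div_iff₀ hA₂0] at hε3
    linarith
  · rw [le_div_iff₀ hA₃0] at hε4
    rw [sum_comm]
    calc _ ≤ ∑ s with s ∉ Gd, (D b σS μ cell s + σS.wt s * ∑ a, ∑ a', mm b σS u s a a') :=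
          sum_le_sum fun s _ => mass_le b σS μ cell s
      _ ≤ A₁ * ε + K * (4 * L * ε + 8 * (A₂ * ε)) := by
          rw [sum_add_distrib]
          refine add_le_add ((sum_le_sum_of_subset_of_nonneg (subset_univ _)
            fun s _ _ => D_nonneg b σS μ cell s).trans hDs) ((hG _).trans ?_)
          exact mul_le_mul_of_nonneg_left (by linarith) hK0
      _ = ε * A₃ := by rw [hA₃]; ring
      _ ≤ ε' := hε4
  · obtain ⟨h1, h2, h3⟩ := (mem_filter.1 hs).2
    refine ⟨h1, ?_, fun x => hb.lev_lt _, m_nonneg hb σS s, fun i hi => ?_,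
      fun t x => div_nonneg (hD.mix.tup.nonneg t s x) h1.le,
      fun t x σ => by rw [hD.mix.tup.symm], ?_⟩
    · exact hb.Npos.trans (mul_le_mul_of_nonneg_right (by linarith) (Nat.cast_nonneg _))
    · have h4 : (lm b σS s i - le b i) ^ 2 ≤ η ^ 2 :=
        (single_le_sum (f := fun i => (lm b σS s i - le b i) ^ 2) (fun _ _ => sq_nonneg _)
          (mem_range.2 hi)).trans h2
      have h5 := abs_le.1 (abs_le_of_sq_le_sq' h4 hη0.le |> abs_le.2)
      have h6 := abs_le.1 (le_close hb hi)
      change |lm b σS s i - 1| ≤ ε'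
      rw [abs_le]
      constructor <;> linarith
    · have e : ∀ c a a', |∑ z with cell z = c, ∑ x with x 0 = a ∧ x 1 = a', μ z s x / σS.wt s -
          σS.m b s a * σS.m b s a' * Hh b.N u (b.lev (b.pr a)) (b.lev (b.pr a')) /
            Fintype.card C| =
          |M μ cell s c a a' - σS.wt s * mm b σS u s a a' / Fintype.card C| / σS.wt s := by
        intro c a a'
        rw [← abs_of_pos h1, ← abs_div, abs_of_pos h1]
        simp only [← sum_div]
        unfold M mm
        congr 1
        field_simp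
      simp only [e]
      simp only [← sum_div]
      rw [div_le_iff₀ h1]
      refine h3.trans (mul_le_mul_of_nonneg_right (by linarith) h1.le)

end Pool.Agent.P.MP_b8021b_nt.VC.B
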