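import Pool.Agent.P.MP_b8021b_nt.VC.BSt

/-! B9: rigidity on almost every section. -/

namespace Pool.Agent.P.MP_b8021b_nt.VC.B

open Pool.Agent.P.MP_b8021b_nt.VE

variable {kp : ℝ}

open Polynomial Finset
open scoped Classical

namespace Sa

section mono

variable {P X Z T S C : Type} [Fintype P] [Fintype X] [Fintype Z] [Fintype T] [Fintype S]
  [Fintype C] {b : Base P X} {ε ε' : ℝ}

omit [Fintype P] in
theorem cell_mono {σ : Side X Z} {cell : Z → C} (h : σ.CellInd b cell ε) (hε : ε ≤ ε') :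
    σ.CellInd b cell ε' := fun Y h1 h2 c => (h Y h1 h2 c).trans
      (div_le_div_of_nonneg_right hε (Nat.cast_nonneg _))

theorem des_mono {σT : Side X T} {σS : Side X S} {u : ℕ} {μ : T → S → (Fin (u + 2) → X) → ℝ}
    (h : DesK kp b σT σS u μ ε) (_h0 : 0 < ε) (hε : ε ≤ ε') : DesK kp b σT σS u μ ε' :=
  h.mono hε

end mono

theorem sum_index {X : Type} [Fintype X] {u : ℕ} (f : (Fin (u + 2) → X) → ℝ)
    (hs : ∀ x (σ : Equiv.Perm (Fin (u + 2))), f (x ∘ σ) = f x) (E : X → Prop) (i : Fin (u + 2)) :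
    ∑ x with E (x i), f x = ∑ x with E (x 0), f x := by
  have hx : ∀ x : Fin (u + 2) → X, (x ∘ Equiv.swap 0 i) ∘ Equiv.swap 0 i = x := fun x => by
    funext j
    simp
  refine sum_nbij' (fun x => x ∘ Equiv.swap 0 i) (fun x => x ∘ Equiv.swap 0 i) (fun x h => ?_)
    (fun x h => ?_) (fun x _ => hx x) (fun x _ => hx x) fun x _ => (hs x _).symm
  · simpa using h
  · simpa using h

theorem union_bound {X : Type} [Fintype X] {u : ℕ} (f : (Fin (u + 2) → X) → ℝ)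
    (h0 : ∀ x, 0 ≤ f x) (hs : ∀ x (σ : Equiv.Perm (Fin (u + 2))), f (x ∘ σ) = f x) (g : X → ℝ)
    (Y : (Fin (u + 2) → X) → ℝ) (lam : ℝ) (hY : ∀ x, f x ≠ 0 → Y x = ∑ i, g (x i)) :
    ∑ x with (u + 2) * lam < |Y x|, f x ≤ (u + 2) * ∑ x with lam < |g (x 0)|, f x := by
  have h1 : ∑ i : Fin (u + 2), ∑ x with lam < |g (x i)|, f x =
      (u + 2) * ∑ x with lam < |g (x 0)|, f x := by
    rw [sum_congr rfl fun i _ => sum_index f hs (fun a => lam < |g a|) i]
    simp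
  rw [← h1]
  simp only [sum_filter]
  rw [sum_comm]
  refine sum_le_sum fun x _ => ?_
  have h2 : ∀ i : Fin (u + 2), 0 ≤ if lam < |g (x i)| then f x else 0 := fun i => by
    split_ifs
    exacts [h0 x, le_rfl]
  split_ifs with h3
  · by_cases h4 : f x = 0
    · rw [h4]
      simp
    · obtain ⟨i, hi⟩ : ∃ i, lam < |g (x i)| := by
        by_contra hc
        push Not at hc
        rw [hY x h4] at h3
        have h5 := (abs_sum_le_sum_abs (fun i => g (x i)) univ).trans (sum_le_sum fun i _ => hc i)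
        simp only [sum_const, card_univ, Fintype.card_fin, nsmul_eq_mul] at h5
        push_cast at h5
        linarith
      calc f x = if lam < |g (x i)| then f x else 0 := (if_pos hi).symm
        _ ≤ _ := single_le_sum (f := fun i => if lam < |g (x i)| then f x else 0)
          (fun i _ => h2 i) (mem_univ i)
  · exact sum_nonneg fun i _ => h2 i

theorem remP {d : ℕ} {CR δ : ℝ} {Nc u : ℕ} {P X T S : Type} [Fintype P] [Fintype X] [Fintype T]
    [Fintype S] {G : Sys P X T S Nc u} {ε : ℝ} (hG : G.OkK kp d ε)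
    (h : ∀ (F Q : ℝ[X]) (R : ℝ → ℝ) (κ c M : ℝ), G.box.Mem → Q.natDegree ≤ d →
      (∀ a ∈ G.I, 0 < F.eval a) → (∀ a ∈ G.I, ∀ a' ∈ G.I, F.eval a ≤ 2 * F.eval a') →
      (∀ a ∈ G.I, HasDerivAt R (Q.eval a / F.eval a) a) → 0 ≤ M →
      (1 - δ) * (Nc : ℝ) ^ 2 ≤ ((univ.filter fun e => ∃ t, G.box.cell t = e ∧
        |R (G.box.τ t) + κ * Real.log (G.box.b t) + c| ≤ M).card : ℝ) →
      (∀ t, |R (G.box.τ t) + κ * Real.log (G.box.b t) + c| ≤ CR * M) ∧
      ∀ t t', G.box.cell t = G.box.cell t' → |R (G.box.τ t) + κ * Real.log (G.box.b t) -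
        (R (G.box.τ t') + κ * Real.log (G.box.b t'))| ≤ CR / Nc * M) (s : S) :
    RemP (fun t => G.A s (G.box.τ t)) (G.Lg d s) G.box.cell CR δ (CR / Nc) := by
  intro φ₀ κ M hM hc
  have e1 : ∀ t, G.A s (G.box.τ t) + κ * Real.log ((G.F s).eval (G.box.τ t)) +
      κ * (d + 1) * Real.log (G.box.b t) + (φ₀ + κ * G.c) =
      G.A s (G.box.τ t) + φ₀ + κ * G.Lg d s t := fun t => by
    unfold Sys.Lg
    ring
  obtain ⟨h1, h2⟩ := h (G.F s) (G.Q s + Polynomial.C κ * derivative (G.F s))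
    (fun a => G.A s a + κ * Real.log ((G.F s).eval a)) (κ * (d + 1)) (φ₀ + κ * G.c) M hG.box.mem
    (by
      refine (natDegree_add_le _ _).trans (max_le (hG.degQ s) ((natDegree_C_mul_le _ _).trans ?_))
      have := natDegree_derivative_le (G.F s)
      have := hG.degF s
      omega)
    (hG.pos s) (hG.flat s)
    (fun a ha => by
      have h0 := (hG.pos s a ha).ne'
      refine ((hG.deriv s a ha).add ((((G.F s).hasDerivAt a).log h0).const_mul κ)).congr_deriv ?_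
      simp only [eval_add, eval_mul, eval_C]
      field_simp)
    hM
    (by
      have h3 : (Fintype.card (Fin Nc × Fin Nc) : ℝ) = (Nc : ℝ) ^ 2 := by simp [sq]
      rw [h3] at hc
      refine hc.trans (Nat.cast_le.2 (card_le_card fun e he => ?_))
      simp only [mem_filter] at he
      obtain ⟨-, t, ht, ht'⟩ := he
      exact mem_filter.2 ⟨mem_univ _, t, ht, by rw [e1]; exact ht'⟩)
  refine ⟨fun t => by rw [← e1]; exact h1 t, fun t t' ht => ?_⟩
  refine le_of_eq_of_le ?_ (h2 t t' ht)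
  congr 1
  unfold Sys.Lg
  ring

end Sa

open Sa in
theorem p_sa (hCond : S_Cond kp) (hLoc : S_Loc kp) (hRem : S_Rem) (hLocS : S_LocS) :
    S_SA kp := by
  intro u d hu
  obtain ⟨CR, δ, N₁, hCR, hδ, hR⟩ := hRem d
  obtain ⟨C₁, h₁, hC₁, hh₁, hS⟩ := hLocS u hu CR δ hCR hδ
  obtain ⟨C₂, hC₂, hC⟩ := hCond u hu
  have hn : (1 : ℝ) ≤ u + 2 := by linarith [Nat.cast_nonneg (α := ℝ) u]
  have hA : 1 ≤ C₁ * (u + 2) := one_le_mul_of_one_le_of_one_le hC₁ hn
  refine ⟨C₁ * (u + 2) * C₂, h₁ / (2 * (u + 2) * C₂), max N₁ (⌈CR / h₁⌉₊ + 1),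
    one_le_mul_of_one_le_of_one_le hA hC₂, by positivity, fun Nc hNc ε' hε' => ?_⟩
  obtain ⟨ε₀, hε₀, a1, a2⟩ : ∃ ε₀ : ℝ, 0 < ε₀ ∧ ε₀ * (2 * (u + 2)) ≤ h₁ ∧
      ε₀ * (C₁ * (u + 2 + 1)) ≤ ε' :=
    ⟨min (h₁ / (2 * (u + 2))) (ε' / (C₁ * (u + 2 + 1))), by positivity,
      (le_div_iff₀ (by positivity)).1 (min_le_left _ _),
      (le_div_iff₀ (by positivity)).1 (min_le_right _ _)⟩
  obtain ⟨ε₁, hε₁, hC⟩ := hC ε₀ hε₀
  obtain ⟨ε₂, hε₂, hL⟩ := hLoc u hu (Nc * Nc) ε₀ hε₀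
  refine ⟨min ε₁ ε₂, lt_min hε₁ hε₂, fun P X T S _ _ _ _ G hG a lam h hlam hh hP => ?_⟩
  have hN1 : N₁ ≤ Nc := (le_max_left _ _).trans hNc
  have hN2 : ⌈CR / h₁⌉₊ + 1 ≤ Nc := (le_max_right _ _).trans hNc
  have hN0 : 0 < Nc := by omega
  have : Nonempty (Fin Nc × Fin Nc) := ⟨(⟨0, hN0⟩, ⟨0, hN0⟩)⟩
  have hθ : CR / Nc ≤ h₁ := by
    rw [div_le_iff₀ (Nat.cast_pos.2 hN0), mul_comm, ← div_le_iff₀ hh₁]
    exact (Nat.le_ceil _).trans (Nat.cast_le.2 (by omega))
  have b1 := hC P X T S G.b G.σT G.σS G.μ (des_mono hG.des (lt_min hε₁ hε₂) (min_le_left _ _))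
    (fun t x => lam < |G.c₁ x t - a x|) h hP.2
  obtain ⟨Gd, b2, -, b3⟩ := hL P X T S (Fin Nc × Fin Nc) G.b G.σT G.σS G.μ G.box.cell (by simp)
    (des_mono hG.des (lt_min hε₁ hε₂) (min_le_right _ _)) (cell_mono hG.box.cell (min_le_right _ _))
  have hw := hG.des.sS.nonneg
  refine ⟨Gd.filter fun s => ∑ t, ∑ x with lam < |G.c₁ (x 0) t - a (x 0)|, G.μ t s x ≤
    G.σS.wt s * (C₂ * h + ε₀), ?_, fun s hs => ?_⟩
  · have b4 : ε₀ + ε₀ ≤ ε' := by nlinarith
    refine le_trans ?_ ((add_le_add b2 b1).trans b4)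
    simp only [sum_filter, ← sum_add_distrib, mem_filter]
    refine sum_le_sum fun s _ => ?_
    have := hw s
    by_cases c1 : s ∈ Gd
    · by_cases c2 : ∑ t, (∑ x, if lam < |G.c₁ (x 0) t - a (x 0)| then G.μ t s x else 0) ≤
          G.σS.wt s * (C₂ * h + ε₀)
      · rw [if_neg (not_not.2 ⟨c1, c2⟩)]
        positivity
      · rw [if_pos (fun h => c2 h.2), if_neg (not_not.2 c1), if_pos (not_le.1 c2), zero_add]
    · rw [if_pos (fun h => c1 h.1), if_pos c1]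
      refine le_add_of_nonneg_right ?_
      positivity
  · obtain ⟨c1, c2⟩ := mem_filter.1 hs
    obtain ⟨c3, c4⟩ := b3 s c1
    have c5 : (u + 2) * (C₂ * h + ε₀) ≤ h₁ := by
      have := (le_div_iff₀ (by positivity)).1 hh
      nlinarith
    have c6 : ∑ t, ∑ x with (u + 2) * lam <
        |∑ i, (G.c₂ (x i) s - a (x i) + G.β / (u + 2)) + G.A s (G.box.τ t)|,
        G.μ t s x / G.σS.wt s ≤ (u + 2) * (C₂ * h + ε₀) := by
      simp only [← sum_div]
      rw [div_le_iff₀ c3]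
      refine (sum_le_sum fun t _ => union_bound (G.μ t s) (hG.des.mix.tup.nonneg t s)
        (hG.des.mix.tup.symm t s) (fun y => G.c₁ y t - a y) _ lam fun x hx => ?_).trans ?_
      · have hβ : ((u + 2 : ℕ) : ℝ) * (G.β / (u + 2)) = G.β := by
          push_cast
          field_simp
        simp only [sum_add_distrib, sum_sub_distrib, hG.eqn t s x hx, sum_const, card_univ,
          Fintype.card_fin, nsmul_eq_mul, hβ]
        ring
      · rw [← mul_sum, mul_assoc, mul_comm _ (G.σS.wt s)]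
        exact mul_le_mul_of_nonneg_left c2 (by positivity)
    obtain ⟨φ₀, κ, d1, d2⟩ := hS X T (Fin Nc × Fin Nc) G.b.N (fun x => G.b.lev (G.b.pr x))
      (G.σS.m G.b s) (fun t x => G.μ t s x / G.σS.wt s) G.box.cell ε₀ (CR / Nc)
      ((u + 2) * (C₂ * h + ε₀)) ((u + 2) * lam) (fun t => G.A s (G.box.τ t)) (G.Lg d s)
      (fun x => G.b.v (G.b.pr x)) (fun x => G.c₂ x s - a x + G.β / (u + 2)) (by nlinarith)
      (by positivity) hθ c5 (by positivity) c4
      (remP hG (fun F Q R κ c M e1 e2 e3 e4 e5 e6 e7 =>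
        (hR Nc hN1 T G.box F Q R κ c M e1 e2 e3 e4 e5 e6 e7).2.2) s)
      (fun x => hG.des.base.v_mem _)
      (fun t x hx => hG.size t s x fun h0 => hx (by simp only [h0, zero_div])) c6
    have d3 : C₁ * ((u + 2) * lam) ≤ C₁ * (u + 2) * C₂ * lam := by
      rw [← mul_assoc]
      exact mul_le_mul_of_nonneg_right (le_mul_of_one_le_right (by positivity) hC₂) hlam.le
    refine ⟨φ₀, κ, le_trans ?_ (d1.trans ?_), fun t => (d2 t).trans d3⟩
    · refine div_le_div_of_nonneg_right (sum_le_sum_of_subset_of_nonneg (fun x hx => ?_)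
        fun x _ _ => c4.m_nonneg x) (Nat.cast_nonneg _)
      exact mem_filter.2 ⟨mem_univ _, d3.trans_lt (mem_filter.1 hx).2⟩
    · nlinarith

end Pool.Agent.P.MP_b8021b_nt.VC.B
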