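import Pool.Agent.P.MP_b8021b_nt.VC.BSt

/-! Part B2: second moments of a side. -/

namespace Pool.Agent.P.MP_b8021b_nt.VC.B

open Pool.Agent.P.MP_b8021b_nt.VE

variable {kp : ℝ}

open Finset
open scoped Classical

namespace Tk

variable {P X Z : Type} [Fintype P] [Fintype X] [Fintype Z]

lemma fib (pr : X → P) (q : P → ℝ) (hq : ∀ a, 0 < q a)
    (hc : ∀ a, ((univ.filter fun x => pr x = a).card : ℝ) ≤ kp * q a) (f : P → ℝ)
    (hf : ∀ a, 0 ≤ f a) : ∑ x, f (pr x) / q (pr x) ≤ kp * ∑ a, f a := by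
  rw [← Finset.sum_fiberwise_of_maps_to (s := univ) (t := univ) (g := pr)
    (fun _ _ => mem_univ _), mul_sum]
  refine sum_le_sum fun a _ => ?_
  have h : ∑ x with pr x = a, f (pr x) / q (pr x) = ∑ x with pr x = a, f a / q a :=
    sum_congr rfl fun x hx => by rw [(mem_filter.1 hx).2]
  rw [h, sum_const, nsmul_eq_mul]
  calc ((univ.filter fun x => pr x = a).card : ℝ) * (f a / q a) ≤ (kp * q a) * (f a / q a) :=
        mul_le_mul_of_nonneg_right (hc a) (div_nonneg (hf a) (hq a).le)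
    _ = kp * f a := by have := (hq a).ne'; field_simp

lemma expand (I : X → Z → ℝ) (ρ : Z → ℝ) (β c : X → ℝ) :
    ∑ z, ρ z * (∑ x, β x * (I x z - c x)) ^ 2 =
      ∑ x, ∑ x', β x * β x' * ((∑ z, ρ z * (I x z * I x' z)) - (∑ z, ρ z * I x z) * c x' -
        (∑ z, ρ z * I x' z) * c x + (∑ z, ρ z) * (c x * c x')) := by
  have h : ∀ z, ρ z * (∑ x, β x * (I x z - c x)) ^ 2 =
      ∑ x, ∑ x', ρ z * (β x * (I x z - c x) * (β x' * (I x' z - c x'))) := by
    intro z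
    rw [sq, sum_mul_sum, mul_sum]
    exact sum_congr rfl fun x _ => mul_sum _ _ _
  simp_rw [h]
  rw [sum_comm]
  refine sum_congr rfl fun x _ => ?_
  rw [sum_comm]
  refine sum_congr rfl fun x' _ => ?_
  rw [sum_mul, sum_mul, sum_mul, ← sum_sub_distrib, ← sum_sub_distrib, ← sum_add_distrib, mul_sum]
  exact sum_congr rfl fun z _ => by ring

lemma offd {R R1 R2 R0 q q' δ : ℝ} (hq : 0 < q) (hq' : 0 < q') (h : |R * (q * q') - 1| ≤ δ)
    (h1 : |R1 * q - 1| ≤ δ) (h2 : |R2 * q' - 1| ≤ δ) (h0 : |R0 - 1| ≤ δ) :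
    |R - R1 * (1 / q') - R2 * (1 / q) + R0 * (1 / q * (1 / q'))| ≤ 4 * δ / (q * q') := by
  have e : R - R1 * (1 / q') - R2 * (1 / q) + R0 * (1 / q * (1 / q')) =
      ((R * (q * q') - 1) - (R1 * q - 1) - (R2 * q' - 1) + (R0 - 1)) / (q * q') := by
    field_simp; ring
  rw [e, abs_div, abs_of_pos (mul_pos hq hq')]
  refine div_le_div_of_nonneg_right ?_ (mul_pos hq hq').le
  rw [abs_le] at *
  constructor <;> linarith [h.1, h.2, h1.1, h1.2, h2.1, h2.2, h0.1, h0.2]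

lemma diag {R R1 R2 R0 q δ : ℝ} (hq : 0 < q) (hδ : δ ≤ 1) (hR : 0 ≤ R)
    (h1 : |R1 * q - 1| ≤ δ) (h2 : |R2 * q - 1| ≤ δ) (h0 : |R0 - 1| ≤ δ) :
    |R - R1 * (1 / q) - R2 * (1 / q) + R0 * (1 / q * (1 / q))| ≤ R + 6 / q ^ 2 := by
  have e : R - R1 * (1 / q) - R2 * (1 / q) + R0 * (1 / q * (1 / q)) =
      R + (R0 - R1 * q - R2 * q) / q ^ 2 := by
    field_simp; ring
  rw [e]
  refine (abs_add_le _ _).trans ?_
  rw [abs_of_nonneg hR, abs_div, abs_of_pos (pow_pos hq 2)]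
  refine add_le_add le_rfl (div_le_div_of_nonneg_right ?_ (pow_pos hq 2).le)
  rw [abs_le] at *
  constructor <;> linarith [h1.1, h1.2, h2.1, h2.2, h0.1, h0.2]

theorem gen (hk : 1 ≤ kp) (pr : X → P) (q : P → ℝ) (I : X → Z → ℝ) (ρ : Z → ℝ) (δ : ℝ) (hδ0 : 0 ≤ δ)
    (hδ : δ ≤ 1) (hq : ∀ a, 0 < q a)
    (hc : ∀ a, ((univ.filter fun x => pr x = a).card : ℝ) ≤ kp * q a) (hρ : ∀ z, 0 ≤ ρ z)
    (hI : ∀ x z, 0 ≤ I x z) (β : X → ℝ) (bb : P → ℝ) (hβ : ∀ x, |β x| ≤ bb (pr x))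
    (hbb : ∀ a, 0 ≤ bb a) (h0 : |∑ z, ρ z - 1| ≤ δ)
    (h1 : ∀ x, β x ≠ 0 → |(∑ z, ρ z * I x z) * q (pr x) - 1| ≤ δ)
    (h2 : ∀ x x', β x ≠ 0 → β x' ≠ 0 → pr x ≠ pr x' →
      |(∑ z, ρ z * (I x z * I x' z)) * (q (pr x) * q (pr x')) - 1| ≤ δ)
    (hs : ∀ x, β x ≠ 0 → ∑ x' with pr x' = pr x, (∑ z, ρ z * (I x z * I x' z)) * q (pr x) ≤ kp) :
    ∑ z, ρ z * (∑ x, β x * (I x z - 1 / q (pr x))) ^ 2 ≤
      8 * kp ^ 2 * (δ * (∑ a, bb a) ^ 2 + ∑ a, bb a ^ 2) := by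
  have hk0 : 0 < kp := by linarith
  rw [expand I ρ β fun x => 1 / q (pr x)]
  set R : X → X → ℝ := fun x x' => ∑ z, ρ z * (I x z * I x' z) with hRdef
  have hR : ∀ x x', 0 ≤ R x x' := fun x x' =>
    sum_nonneg fun z _ => mul_nonneg (hρ z) (mul_nonneg (hI x z) (hI x' z))
  set T : X → X → ℝ := fun x x' =>
    if β x ≠ 0 ∧ pr x' = pr x then bb (pr x) ^ 2 * (R x x' + 6 / q (pr x) ^ 2) else 0 with hTdef
  have hT : ∀ x x', 0 ≤ T x x' := by
    intro x x'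
    simp only [hTdef]
    split_ifs
    · exact mul_nonneg (sq_nonneg _) (add_nonneg (hR x x') (by have := hq (pr x); positivity))
    · exact le_rfl
  have hO : ∀ x x', 0 ≤ 4 * δ * (bb (pr x) / q (pr x) * (bb (pr x') / q (pr x'))) := fun x x' =>
    mul_nonneg (by positivity) (mul_nonneg (div_nonneg (hbb _) (hq _).le)
      (div_nonneg (hbb _) (hq _).le))
  have hp : ∀ x x', β x * β x' * (R x x' - (∑ z, ρ z * I x z) * (1 / q (pr x')) -
      (∑ z, ρ z * I x' z) * (1 / q (pr x)) + (∑ z, ρ z) * (1 / q (pr x) * (1 / q (pr x')))) ≤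
      4 * δ * (bb (pr x) / q (pr x) * (bb (pr x') / q (pr x'))) + T x x' := by
    intro x x'
    by_cases hx : β x = 0
    · rw [hx, zero_mul, zero_mul]; exact add_nonneg (hO x x') (hT x x')
    by_cases hx' : β x' = 0
    · rw [hx', mul_zero, zero_mul]; exact add_nonneg (hO x x') (hT x x')
    refine (le_abs_self _).trans ?_
    rw [abs_mul, abs_mul]
    have hb2 : |β x| * |β x'| ≤ bb (pr x) * bb (pr x') :=
      mul_le_mul (hβ x) (hβ x') (abs_nonneg _) (hbb _)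
    by_cases hpr : pr x' = pr x
    · have hd := diag (hq (pr x)) hδ (hR x x') (h1 x hx) (hpr ▸ h1 x' hx') h0
      have hTx : T x x' = bb (pr x) ^ 2 * (R x x' + 6 / q (pr x) ^ 2) := if_pos ⟨hx, hpr⟩
      have hO' := hO x x'
      rw [hpr] at hb2 hO' ⊢
      rw [hTx]
      have := mul_le_mul hb2 hd (abs_nonneg _) (mul_nonneg (hbb _) (hbb _))
      rw [← sq (bb (pr x))] at this
      linarith
    · have hd := offd (hq (pr x)) (hq (pr x')) (h2 x x' hx hx' (Ne.symm hpr)) (h1 x hx)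
        (h1 x' hx') h0
      have := mul_le_mul hb2 hd (abs_nonneg _) (mul_nonneg (hbb _) (hbb _))
      have e : bb (pr x) * bb (pr x') * (4 * δ / (q (pr x) * q (pr x'))) =
          4 * δ * (bb (pr x) / q (pr x) * (bb (pr x') / q (pr x'))) := by
        have := (hq (pr x)).ne'; have := (hq (pr x')).ne'; field_simp
      rw [e] at this
      linarith [hT x x']
  refine (sum_le_sum fun x _ => sum_le_sum fun x' _ => hp x x').trans ?_
  simp_rw [sum_add_distrib]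
  have hA : ∑ x, ∑ x', 4 * δ * (bb (pr x) / q (pr x) * (bb (pr x') / q (pr x'))) ≤
      4 * kp ^ 2 * (δ * (∑ a, bb a) ^ 2) := by
    simp_rw [← mul_sum]
    rw [← sum_mul]
    have hf := fib pr q hq hc bb hbb
    have hn : 0 ≤ ∑ x, bb (pr x) / q (pr x) := sum_nonneg fun x _ => div_nonneg (hbb _) (hq _).le
    have := mul_le_mul_of_nonneg_left (mul_le_mul hf hf hn (hn.trans hf))
      (show 0 ≤ 4 * δ by positivity)
    linarith
  have hB : ∀ x, ∑ x', T x x' ≤ 7 * kp * bb (pr x) ^ 2 / q (pr x) := by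
    intro x
    have hqx := hq (pr x)
    by_cases hx : β x = 0
    · have : ∀ x', T x x' = 0 := fun x' => if_neg fun h => h.1 hx
      simp only [this, sum_const_zero]; positivity
    have e : ∑ x', T x x' = ∑ x' with pr x' = pr x, bb (pr x) ^ 2 * (R x x' + 6 / q (pr x) ^ 2) := by
      rw [sum_filter]
      refine sum_congr rfl fun x' _ => ?_
      by_cases h : pr x' = pr x
      · rw [if_pos h]; exact if_pos ⟨hx, h⟩
      · rw [if_neg h]; exact if_neg fun h' => h h'.2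
    rw [e, ← mul_sum, sum_add_distrib, sum_const, nsmul_eq_mul]
    have h5 : ∑ x' with pr x' = pr x, R x x' ≤ kp / q (pr x) := by
      rw [le_div_iff₀ hqx, sum_mul]; exact hs x hx
    have h6 : ((univ.filter fun x' => pr x' = pr x).card : ℝ) * (6 / q (pr x) ^ 2) ≤
        6 * kp / q (pr x) := by
      calc _ ≤ (kp * q (pr x)) * (6 / q (pr x) ^ 2) :=
            mul_le_mul_of_nonneg_right (hc _) (by positivity)
        _ = 6 * kp / q (pr x) := by field_simp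
    calc _ ≤ bb (pr x) ^ 2 * (kp / q (pr x) + 6 * kp / q (pr x)) :=
          mul_le_mul_of_nonneg_left (add_le_add h5 h6) (sq_nonneg _)
      _ = _ := by ring
  have hB' : ∑ x, ∑ x', T x x' ≤ 7 * kp ^ 2 * ∑ a, bb a ^ 2 := by
    refine (sum_le_sum fun x _ => hB x).trans ?_
    have hf := fib pr q hq hc (fun a => 7 * kp * bb a ^ 2) fun a => by positivity
    rw [← mul_sum] at hf
    linarith
  have : 0 ≤ kp ^ 2 * (δ * (∑ a, bb a) ^ 2) := by positivity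
  have : 0 ≤ kp ^ 2 * ∑ a, bb a ^ 2 := by positivity
  linarith

/-- the indicator of incidence -/
noncomputable def ind (σ : Side X Z) (x : X) (z : Z) : ℝ := if σ.on x z then 1 else 0

omit [Fintype X] [Fintype Z] in
lemma ind_nonneg (σ : Side X Z) (x : X) (z : Z) : 0 ≤ ind σ x z := by
  unfold ind; split_ifs <;> norm_num

lemma prob1 (σ : Side X Z) (x : X) : σ.prob {x} = ∑ z, σ.wt z * ind σ x z := by
  unfold Side.prob ind
  rw [sum_filter]
  refine sum_congr rfl fun z _ => ?_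
  by_cases h : σ.on x z <;> simp [h]

lemma prob2 (σ : Side X Z) (x x' : X) :
    σ.prob {x, x'} = ∑ z, σ.wt z * (ind σ x z * ind σ x' z) := by
  unfold Side.prob ind
  rw [sum_filter]
  refine sum_congr rfl fun z _ => ?_
  by_cases h : σ.on x z <;> by_cases h' : σ.on x' z <;> simp [h, h']

lemma prob3 (σ : Side X Z) (x₀ x x' : X) :
    σ.prob {x₀, x, x'} = ∑ z, σ.wt z * (ind σ x₀ z * (ind σ x z * ind σ x' z)) := by
  unfold Side.prob ind
  rw [sum_filter]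
  refine sum_congr rfl fun z _ => ?_
  by_cases h₀ : σ.on x₀ z <;> by_cases h : σ.on x z <;> by_cases h' : σ.on x' z <;>
    simp [h₀, h, h']

omit [Fintype P] [Fintype X] [Fintype Z] in
lemma c1_eq (σ : Side X Z) (b : Base P X) (x : X) (z : Z) :
    σ.c1 b x z = σ.wt z * ind σ x z * b.q (b.pr x) := by
  unfold Side.c1 ind; split_ifs <;> simp

omit [Fintype P] [Fintype X] [Fintype Z] in
lemma c2_eq (σ : Side X Z) (b : Base P X) (x x' : X) (z : Z) :
    σ.c2 b x x' z = σ.c1 b x z * ind σ x' z * b.q (b.pr x') := by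
  unfold Side.c2 Side.c1 ind
  by_cases h : σ.on x z <;> by_cases h' : σ.on x' z <;> simp [h, h', mul_assoc]

variable {b : Base P X} {σ : Side X Z} {ε : ℝ}

omit [Fintype P] in
lemma i1 (h : σ.OkK b kp ε) (x : X) : |σ.prob {x} * b.q (b.pr x) - 1| ≤ ε / b.N := by
  have := h.ind {x} (by simp) (by simp)
  rwa [prod_singleton] at this

omit [Fintype P] in
lemma i2 (h : σ.OkK b kp ε) (x x' : X) (hx : b.pr x ≠ b.pr x') :
    |σ.prob {x, x'} * (b.q (b.pr x) * b.q (b.pr x')) - 1| ≤ ε / b.N := by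
  have hne : x ≠ x' := fun e => hx (by rw [e])
  have := h.ind {x, x'} (card_le_two.trans (by norm_num)) (by
    intro a ha a' ha' e
    simp only [coe_insert, coe_singleton, Set.mem_insert_iff, Set.mem_singleton_iff] at ha ha'
    rcases ha with rfl | rfl <;> rcases ha' with rfl | rfl
    · rfl
    · exact absurd e hx
    · exact absurd e.symm hx
    · rfl)
  rwa [prod_pair hne] at this

omit [Fintype P] in
lemma i3 (h : σ.OkK b kp ε) (x₀ x x' : X) (h1 : b.pr x ≠ b.pr x₀) (h2 : b.pr x' ≠ b.pr x₀)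
    (hx : b.pr x ≠ b.pr x') :
    |σ.prob {x₀, x, x'} * (b.q (b.pr x₀) * (b.q (b.pr x) * b.q (b.pr x'))) - 1| ≤ ε / b.N := by
  have hne : x ≠ x' := fun e => hx (by rw [e])
  have hn0 : x₀ ∉ ({x, x'} : Finset X) := by
    simp only [mem_insert, mem_singleton, not_or]
    exact ⟨fun e => h1 (by rw [e]), fun e => h2 (by rw [e])⟩
  have := h.ind {x₀, x, x'} card_le_three (by
    intro a ha a' ha' e
    simp only [coe_insert, coe_singleton, Set.mem_insert_iff, Set.mem_singleton_iff] at ha ha'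
    rcases ha with rfl | rfl | rfl <;> rcases ha' with rfl | rfl | rfl
    · rfl
    · exact absurd e.symm h1
    · exact absurd e.symm h2
    · exact absurd e h1
    · rfl
    · exact absurd e hx
    · exact absurd e h2
    · exact absurd e.symm hx
    · rfl)
  rwa [prod_insert hn0, prod_pair hne] at this

lemma eps_pos (hb : b.OkK kp ε) : 0 < ε := by
  have h := hb.Npos
  by_contra hn
  have : ε * b.N ≤ 0 := mul_nonpos_of_nonpos_of_nonneg (not_lt.1 hn) (Nat.cast_nonneg _)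
  linarith

lemma N_ge (hε : ε ≤ 1) (hb : b.OkK kp ε) : (1 : ℝ) ≤ b.N := by
  have h := hb.Npos
  have : ε * b.N ≤ 1 * b.N := mul_le_mul_of_nonneg_right hε (Nat.cast_nonneg _)
  linarith

lemma q_pos (hε : ε ≤ 1) (hb : b.OkK kp ε) (a : P) : 0 < b.q a := by
  have h := hb.q_ge a
  have h1 := N_ge hε hb
  have h2 := eps_pos hb
  by_contra hn
  have : ε * b.q a ≤ 0 := mul_nonpos_of_nonneg_of_nonpos h2.le (not_lt.1 hn)
  linarith

lemma del_le (hε : ε ≤ 1) (hb : b.OkK kp ε) : ε / b.N ≤ ε :=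
  div_le_self (eps_pos hb).le (N_ge hε hb)

lemma c1_nonneg (hε : ε ≤ 1) (hb : b.OkK kp ε) (h : σ.OkK b kp ε) (x : X) (z : Z) : 0 ≤ σ.c1 b x z := by
  rw [c1_eq]
  exact mul_nonneg (mul_nonneg (h.nonneg z) (ind_nonneg σ x z)) (q_pos hε hb _).le

omit [Fintype P] in
lemma c1_sum (h : σ.OkK b kp ε) (x : X) : |∑ z, σ.c1 b x z - 1| ≤ ε / b.N := by
  have := i1 h x
  rw [prob1, sum_mul] at this
  simpa only [c1_eq] using this

theorem tk0 (hε : ε ≤ 1) (hb : b.OkK kp ε) (h : σ.OkK b kp ε) (β : X → ℝ) (bb : P → ℝ)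
    (hβ : ∀ x, |β x| ≤ bb (b.pr x)) (hbb : ∀ a, 0 ≤ bb a) :
    ∑ z, σ.wt z * (∑ x, β x * (ind σ x z - 1 / b.q (b.pr x))) ^ 2 ≤
      8 * kp ^ 2 * (ε / b.N * (∑ a, bb a) ^ 2 + ∑ a, bb a ^ 2) := by
  have hd : 0 ≤ ε / b.N := div_nonneg (eps_pos hb).le (Nat.cast_nonneg _)
  refine gen hb.one_le b.pr b.q (ind σ) σ.wt _ hd ((del_le hε hb).trans hε) (q_pos hε hb) hb.card
    h.nonneg (ind_nonneg σ) β bb hβ hbb ?_ ?_ ?_ ?_
  · rw [h.sum, sub_self, abs_zero]; exact hd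
  · intro x _; rw [← prob1]; exact i1 h x
  · intro x x' _ _ hx; rw [← prob2]; exact i2 h x x' hx
  · intro x _; simp_rw [← prob2]; exact h.same0 x

theorem tk1 (hε : ε ≤ 1) (hb : b.OkK kp ε) (h : σ.OkK b kp ε) (β : X → ℝ) (bb : P → ℝ)
    (hβ : ∀ x, |β x| ≤ bb (b.pr x)) (hbb : ∀ a, 0 ≤ bb a) (x₀ : X)
    (h0 : ∀ x, b.pr x = b.pr x₀ → β x = 0) :
    ∑ z, σ.c1 b x₀ z * (∑ x, β x * (ind σ x z - 1 / b.q (b.pr x))) ^ 2 ≤
      8 * kp ^ 2 * (ε / b.N * (∑ a, bb a) ^ 2 + ∑ a, bb a ^ 2) := by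
  have hd : 0 ≤ ε / b.N := div_nonneg (eps_pos hb).le (Nat.cast_nonneg _)
  have e2 : ∀ x, ∑ z, σ.c1 b x₀ z * ind σ x z = σ.prob {x₀, x} * b.q (b.pr x₀) := by
    intro x
    rw [prob2, sum_mul]
    exact sum_congr rfl fun z _ => by rw [c1_eq]; ring
  have e3 : ∀ x x', ∑ z, σ.c1 b x₀ z * (ind σ x z * ind σ x' z) =
      σ.prob {x₀, x, x'} * b.q (b.pr x₀) := by
    intro x x'
    rw [prob3, sum_mul]
    exact sum_congr rfl fun z _ => by rw [c1_eq]; ring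
  refine gen hb.one_le b.pr b.q (ind σ) (σ.c1 b x₀) _ hd ((del_le hε hb).trans hε) (q_pos hε hb)
    hb.card (c1_nonneg hε hb h x₀) (ind_nonneg σ) β bb hβ hbb (c1_sum h x₀) ?_ ?_ ?_
  · intro x hx
    rw [e2, mul_assoc]
    exact i2 h x₀ x fun e => hx (h0 x e.symm)
  · intro x x' hx hx' hne
    rw [e3, mul_assoc]
    exact i3 h x₀ x x' (fun e => hx (h0 x e)) (fun e => hx' (h0 x' e)) hne
  · intro x hx
    simp_rw [e3, mul_assoc]
    exact h.same1 x₀ x fun e => hx (h0 x e)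

lemma small (hb : b.OkK kp ε) :
    8 * kp ^ 2 * (ε / b.N * (∑ a, b.w a / b.N) ^ 2 + ∑ a, (b.w a / b.N) ^ 2) ≤
      (4 * kp ^ 2) ^ 2 * ε := by
  have := mul_le_mul_of_nonneg_left hb.all_bb (show 0 ≤ 8 * kp ^ 2 by positivity)
  linarith

omit [Fintype Z] in
lemma cs (s : Finset Z) (ρ Y : Z → ℝ) (hρ : ∀ z, 0 ≤ ρ z) :
    ∑ z ∈ s, ρ z * |Y z| ≤ √(∑ z ∈ s, ρ z) * √(∑ z ∈ s, ρ z * Y z ^ 2) := by
  have h := Real.sum_mul_le_sqrt_mul_sqrt s (fun z => √(ρ z)) fun z => √(ρ z) * |Y z|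
  have e1 : ∀ z, √(ρ z) * (√(ρ z) * |Y z|) = ρ z * |Y z| := fun z => by
    rw [← mul_assoc, Real.mul_self_sqrt (hρ z)]
  have e2 : ∀ z, √(ρ z) ^ 2 = ρ z := fun z => Real.sq_sqrt (hρ z)
  have e3 : ∀ z, (√(ρ z) * |Y z|) ^ 2 = ρ z * Y z ^ 2 := fun z => by rw [mul_pow, e2, sq_abs]
  simpa only [e1, e2, e3] using h

theorem m2 (hε : ε ≤ 1) (hb : b.OkK kp ε) (h : σ.OkK b kp ε) (φ : Z → ℝ) (x : X) (hφ : ∀ z, |φ z| ≤ 1) :
    ∑ x' with b.pr x' ≠ b.pr x, b.w (b.pr x') / (b.q (b.pr x') * b.N) *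
      |∑ z, σ.c2 b x x' z * φ z - ∑ z, σ.c1 b x z * φ z| ≤ 8 * kp ^ 2 * √ε := by
  have hN0 : (0 : ℝ) < b.N := by linarith [N_ge hε hb]
  set D : X → ℝ := fun x' => ∑ z, σ.c2 b x x' z * φ z - ∑ z, σ.c1 b x z * φ z with hD
  set β : X → ℝ := fun x' =>
    if b.pr x' ≠ b.pr x then (if 0 ≤ D x' then 1 else -1) * (b.w (b.pr x') / b.N) else 0 with hβdef
  have hbb : ∀ a, 0 ≤ b.w a / b.N := fun a => div_nonneg (hb.w_nonneg a) hN0.le
  have hβ : ∀ x', |β x'| ≤ b.w (b.pr x') / b.N := by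
    intro x'
    have := hbb (b.pr x')
    simp only [hβdef]
    split_ifs
    · rw [one_mul, abs_of_nonneg this]
    · rw [neg_one_mul, abs_neg, abs_of_nonneg this]
    · rw [abs_zero]; exact this
  have hk := (tk1 hε hb h β (fun a => b.w a / b.N) hβ hbb x fun x' e => if_neg fun h => h e).trans
    (small hb)
  set Y : Z → ℝ := fun z => ∑ x', β x' * (ind σ x' z - 1 / b.q (b.pr x')) with hY
  have hDq : ∀ x', D x' / b.q (b.pr x') =
      ∑ z, σ.c1 b x z * φ z * (ind σ x' z - 1 / b.q (b.pr x')) := by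
    intro x'
    have := (q_pos hε hb (b.pr x')).ne'
    simp only [hD]
    rw [← sum_sub_distrib, sum_div]
    refine sum_congr rfl fun z _ => ?_
    rw [c2_eq]; field_simp
  have e : ∑ x' with b.pr x' ≠ b.pr x, b.w (b.pr x') / (b.q (b.pr x') * b.N) * |D x'| =
      ∑ z, σ.c1 b x z * φ z * Y z := by
    have : ∀ z, σ.c1 b x z * φ z * Y z =
        ∑ x', β x' * (σ.c1 b x z * φ z * (ind σ x' z - 1 / b.q (b.pr x'))) := by
      intro z
      simp only [hY]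
      rw [mul_sum]
      exact sum_congr rfl fun x' _ => by ring
    simp_rw [this]
    rw [sum_comm, sum_filter]
    refine sum_congr rfl fun x' _ => ?_
    rw [← mul_sum, ← hDq]
    have := (q_pos hε hb (b.pr x')).ne'
    simp only [hβdef]
    split_ifs with h1 h2
    · rw [abs_of_nonneg h2]; field_simp
    · rw [abs_of_neg (not_le.1 h2)]; field_simp
    · rw [zero_mul]
  rw [e]
  have hc := c1_nonneg hε hb h x
  have h1 : ∑ z, σ.c1 b x z * φ z * Y z ≤ ∑ z, σ.c1 b x z * |Y z| := by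
    refine sum_le_sum fun z _ => ?_
    rw [mul_assoc]
    refine mul_le_mul_of_nonneg_left ((le_abs_self _).trans ?_) (hc z)
    rw [abs_mul]
    exact mul_le_of_le_one_left (abs_nonneg _) (hφ z)
  have h2 := cs univ (σ.c1 b x) Y hc
  have h3 : √(∑ z, σ.c1 b x z) ≤ 2 := by
    rw [Real.sqrt_le_iff]
    have := (abs_le.1 (c1_sum h x)).2
    have := del_le hε hb
    constructor <;> linarith
  have h4 : √(∑ z, σ.c1 b x z * Y z ^ 2) ≤ 4 * kp ^ 2 * √ε := by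
    rw [Real.sqrt_le_iff]
    refine ⟨by positivity, hk.trans_eq ?_⟩
    rw [mul_pow _ √ε, Real.sq_sqrt (eps_pos hb).le]
  have h5 := mul_le_mul h3 h4 (Real.sqrt_nonneg _) (by norm_num)
  linarith

theorem fl (hε : ε ≤ 1) (hb : b.OkK kp ε) (h : σ.OkK b kp ε) (Z₀ : Finset Z) :
    ∑ z ∈ Z₀, ∑ x, σ.flag b x z ≤ 8 * kp ^ 2 * √(∑ z ∈ Z₀, σ.wt z) := by
  have hN0 : (0 : ℝ) < b.N := by linarith [N_ge hε hb]
  have hbb : ∀ a, 0 ≤ b.w a / b.N := fun a => div_nonneg (hb.w_nonneg a) hN0.le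
  have hk := (tk0 hε hb h (fun x => b.w (b.pr x) / b.N) (fun a => b.w a / b.N)
    (fun x => (abs_of_nonneg (hbb _)).le) hbb).trans (small hb)
  set Y : Z → ℝ := fun z => ∑ x, b.w (b.pr x) / b.N * (ind σ x z - 1 / b.q (b.pr x)) with hY
  have hf : ∑ x, b.w (b.pr x) / b.N / b.q (b.pr x) ≤ 2 := by
    have h1 := (abs_le.1 hb.total).2
    have h2 := hb.div_le
    simp only [div_div, mul_comm (b.N : ℝ)]
    linarith
  have hz : ∀ z, ∑ x, σ.flag b x z ≤ σ.wt z * |Y z| + 2 * σ.wt z := by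
    intro z
    have e : ∑ x, σ.flag b x z =
        σ.wt z * (Y z + ∑ x, b.w (b.pr x) / b.N / b.q (b.pr x)) := by
      simp only [hY]
      rw [← sum_add_distrib, mul_sum]
      refine sum_congr rfl fun x _ => ?_
      unfold Side.flag Side.m ind
      split_ifs <;> ring
    rw [e]
    have := mul_le_mul_of_nonneg_left (add_le_add (le_abs_self (Y z)) hf) (h.nonneg z)
    linarith
  refine (sum_le_sum fun z _ => hz z).trans ?_
  rw [sum_add_distrib, ← mul_sum]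
  have h2 := cs Z₀ σ.wt Y h.nonneg
  have hW0 : 0 ≤ ∑ z ∈ Z₀, σ.wt z := sum_nonneg fun z _ => h.nonneg z
  have hW1 : ∑ z ∈ Z₀, σ.wt z ≤ 1 := by
    rw [← h.sum]
    exact sum_le_sum_of_subset_of_nonneg (subset_univ _) fun z _ _ => h.nonneg z
  have h4 : √(∑ z ∈ Z₀, σ.wt z * Y z ^ 2) ≤ 4 * kp ^ 2 := by
    rw [Real.sqrt_le_iff]
    refine ⟨by positivity, ?_⟩
    have : ∑ z ∈ Z₀, σ.wt z * Y z ^ 2 ≤ ∑ z, σ.wt z * Y z ^ 2 :=
      sum_le_sum_of_subset_of_nonneg (subset_univ _) fun z _ _ =>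
        mul_nonneg (h.nonneg z) (sq_nonneg _)
    exact this.trans (hk.trans (mul_le_of_le_one_right (sq_nonneg _) hε))
  have h5 := mul_le_mul_of_nonneg_left h4 (Real.sqrt_nonneg (∑ z ∈ Z₀, σ.wt z))
  have h6 : ∑ z ∈ Z₀, σ.wt z ≤ √(∑ z ∈ Z₀, σ.wt z) := by
    refine Real.le_sqrt_of_sq_le ?_
    nlinarith
  have h7 := Real.sqrt_nonneg (∑ z ∈ Z₀, σ.wt z)
  have h8 := mul_le_mul_of_nonneg_right (one_le_pow₀ (n := 2) hb.one_le) h7
  have h9 := mul_nonneg (sq_nonneg kp) h7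
  linarith

end Tk

theorem p_tk (hk : 1 ≤ kp) : S_TK kp :=
  ⟨8 * kp ^ 2, by linarith [one_le_pow₀ (n := 2) hk], fun _ _ _ _ _ _ _ _ _ hε hb h =>
    ⟨fun β bb hβ hbb => ⟨Tk.tk0 hε hb h β bb hβ hbb, Tk.tk1 hε hb h β bb hβ hbb⟩,
      Tk.m2 hε hb h, Tk.fl hε hb h⟩⟩

end Pool.Agent.P.MP_b8021b_nt.VC.B
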