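import Pool.Agent.P.MP_b8021b_nt.VE.PCntP
import Pool.Agent.P.MP_b8021b_nt.VE.PFe
import Pool.Agent.P.MP_b8021b_nt.VE.PL2
import Pool.Agent.P.MP_b8021b_nt.VE.PRem
import Pool.Agent.P.MP_b8021b_nt.VE.PLocT
import Pool.Agent.P.MP_b8021b_nt.VC.BTk
import Pool.Agent.P.MP_b8021b_nt.VC.BCond
import Pool.Agent.P.MP_b8021b_nt.VC.BLoc
import Pool.Agent.P.MP_b8021b_nt.VC.BSa
import Pool.Agent.P.MP_b8021b_nt.VC.BTail
import Pool.Agent.P.MP_b8021b_nt.VC.BContr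
import Pool.Agent.P.MP_b8021b_nt.VC.BRig
import Pool.Agent.P.MP_b8021b_nt.VC.BBb
import Pool.Agent.P.MP_b8021b_nt.VC.BCut

/-! Part B: the two statements used by the other parts. -/

namespace Pool.Agent.P.MP_b8021b_nt.VC

open Pool.Agent.P.MP_b8021b_nt.VE

theorem bK : S_BK := by
  refine B.p_bb fun kp hk => ?_
  have hCnt := p_cntP
  have hFE := p_fe hCnt
  have hL2 := p_l2 hCnt
  have hTK := B.p_tk hk
  have hOne := B.p_one hk hCnt hTK
  have hCond := B.p_cond hk hCnt hTK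
  have hLoc := B.p_loc hk hCnt hTK
  have hSA := B.p_sa hCond hLoc p_rem (p_locS hCnt hFE hL2)
  exact B.p_rig hTK p_rem hSA
    (B.p_tail hCnt hTK hOne hCond hLoc hL2 (p_locT hCnt hFE hL2) hSA)
    (B.p_contr hk hCnt hTK hOne hLoc hFE hL2 p_rem hSA)

theorem cutK : S_CutK := B.p_cut p_cntP fun _ hk => B.p_tk hk

end Pool.Agent.P.MP_b8021b_nt.VC
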