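import Pool.Agent.P.MP_b8021b_nt.VC.StA
import Pool.Agent.P.MP_b8021b_nt.VC.BasicA

/-! The fibre side of the cochain. -/

namespace Pool.Agent.P.MP_b8021b_nt.VC

open Polynomial NumberField Finset Pool.Agent.P.MP_b8021b_nt.VE
open scoped Classical ComplexConjugate

noncomputable section

namespace C1

section ideals

variable {L : Type} [Field L] [NumberField L]

lemma exists_gen (I : Ideal (𝓞 L)) (hI : I ≠ ⊥) :
    ∃ α : 𝓞 L, I ^ Fintype.card (ClassGroup (𝓞 L)) = Ideal.span {α} := by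
  have hI' : I ∈ nonZeroDivisors (Ideal (𝓞 L)) := mem_nonZeroDivisors_of_ne_zero hI
  have h1 : ClassGroup.mk0 (⟨I, hI'⟩ ^ Fintype.card (ClassGroup (𝓞 L))) = 1 := by
    rw [map_pow, pow_card_eq_one]
  have h2 := (ClassGroup.mk0_eq_one_iff (pow_mem hI' _)).mp h1
  exact ⟨h2.generator, (h2.span_singleton_generator).symm⟩

lemma hom_pow {M : Type} [CommMonoidWithZero M] [NoZeroDivisors M] [Nontrivial M] {Φ : M → ℝ}
    (hΦ : ∀ a b, a ≠ 0 → b ≠ 0 → Φ (a * b) = Φ a + Φ b) {a : M} (ha : a ≠ 0) (n : ℕ) :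
    Φ (a ^ n) = n * Φ a := by
  have h1 : Φ 1 = 0 := by
    have := hΦ 1 1 one_ne_zero one_ne_zero
    rw [one_mul] at this
    linarith
  induction n with
  | zero => simp [h1]
  | succ n ih => rw [pow_succ, hΦ _ _ (pow_ne_zero _ ha) ha, ih]; push_cast; ring

/-- an anti-invariant homomorphism on a CM field kills the units -/
lemma unit_zero (c : 𝓞 L ≃+* 𝓞 L) (hc : ∀ (φ : L →+* ℂ) (a : 𝓞 L), φ (c a) = conj (φ a))
    {Φ : 𝓞 L → ℝ} (hΦ : ∀ a b, a ≠ 0 → b ≠ 0 → Φ (a * b) = Φ a + Φ b)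
    (hanti : ∀ a, a ≠ 0 → Φ (c a) = -Φ a) (ε : (𝓞 L)ˣ) : Φ ε = 0 := by
  set u : 𝓞 L := ε * c (ε⁻¹ : (𝓞 L)ˣ) with hu
  have h1 : u * c ε = ε := by
    rw [hu, mul_assoc, ← map_mul, Units.inv_mul, map_one, mul_one]
  have hc0 : c ε ≠ 0 := by simp
  have hu0 : u ≠ 0 := fun h => ε.ne_zero (by rw [← h1, h, zero_mul])
  obtain ⟨n, hn, h2⟩ := NumberField.Embeddings.pow_eq_one_of_norm_eq_one L ℂ (x := (u : L))
    u.isIntegral_coe fun φ => by
      have h3 := congrArg (fun a : 𝓞 L => ‖φ (a : L)‖) h1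
      simp only [map_mul, norm_mul] at h3
      have h4 : ‖φ ((c ε : 𝓞 L) : L)‖ = ‖φ ((ε : 𝓞 L) : L)‖ := by rw [hc, RCLike.norm_conj]
      have h5 : ‖φ ((ε : 𝓞 L) : L)‖ ≠ 0 := by simp
      exact mul_right_cancel₀ h5 (by rw [one_mul]; rw [← h4] at h3 ⊢; rw [h4] at h3 ⊢; exact h3)
  have h3 : u ^ n = 1 := by
    apply RingOfIntegers.coe_injective
    simpa using h2
  have h4 := hom_pow hΦ hu0 n
  have h5 := hom_pow hΦ hu0 0
  rw [pow_zero] at h5
  rw [h3, h5] at h4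
  have h6 : (n : ℝ) ≠ 0 := by exact_mod_cast hn.ne'
  have h7 : Φ u = 0 := by
    refine (mul_eq_zero.1 ?_).resolve_left h6
    rw [← h4]; simp
  have h8 := hΦ _ _ hu0 hc0
  rw [h1, h7, hanti _ ε.ne_zero] at h8
  linarith

/-- extension of an anti-invariant homomorphism to ideals -/
lemma exists_ext (c : 𝓞 L ≃+* 𝓞 L) {Φ : 𝓞 L → ℝ}
    (hΦ : ∀ a b, a ≠ 0 → b ≠ 0 → Φ (a * b) = Φ a + Φ b)
    (hanti : ∀ a, a ≠ 0 → Φ (c a) = -Φ a) (hunit : ∀ ε : (𝓞 L)ˣ, Φ ε = 0) :
    ∃ Ψ : Ideal (𝓞 L) → ℝ, (∀ I J, I ≠ 0 → J ≠ 0 → Ψ (I * J) = Ψ I + Ψ J) ∧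
      (∀ a, a ≠ 0 → Ψ (Ideal.span {a}) = Φ a) ∧ ∀ I, I ≠ ⊥ → Ψ (I.map c) = -Ψ I := by
  have hass : ∀ a b : 𝓞 L, a ≠ 0 → Ideal.span {a} = Ideal.span {b} → Φ a = Φ b := by
    intro a b ha hab
    obtain ⟨ε, rfl⟩ := Ideal.span_singleton_eq_span_singleton.mp hab
    rw [hΦ _ _ ha ε.ne_zero, hunit, add_zero]
  set n := Fintype.card (ClassGroup (𝓞 L)) with hn
  have hn0 : (n : ℝ) ≠ 0 := by exact_mod_cast Fintype.card_ne_zero
  let gen : Ideal (𝓞 L) → 𝓞 L := fun I => if h : I = ⊥ then 0 else (exists_gen I h).choose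
  have hgen : ∀ I, I ≠ ⊥ → I ^ n = Ideal.span {gen I} := by
    intro I hI
    simp only [gen, dif_neg hI]
    exact (exists_gen I hI).choose_spec
  have hgen0 : ∀ I, I ≠ ⊥ → gen I ≠ 0 := by
    intro I hI h0
    have := hgen I hI
    rw [h0, Ideal.span_singleton_zero] at this
    exact pow_ne_zero n hI this
  refine ⟨fun I => Φ (gen I) / n, fun I J hI hJ => ?_, fun a ha => ?_, fun I hI => ?_⟩
  · have hIJ : I * J ≠ ⊥ := mul_ne_zero hI hJ
    have h2 : Ideal.span {gen (I * J)} = Ideal.span {gen I * gen J} := by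
      rw [← hgen _ hIJ, mul_pow, hgen I hI, hgen J hJ, Ideal.span_singleton_mul_span_singleton]
    simp only
    rw [hass _ _ (hgen0 _ hIJ) h2, hΦ _ _ (hgen0 I hI) (hgen0 J hJ), add_div]
  · have hI : Ideal.span {a} ≠ ⊥ := by simpa using ha
    have h2 : Ideal.span {gen (Ideal.span {a})} = Ideal.span {a ^ n} := by
      rw [← hgen _ hI, Ideal.span_singleton_pow]
    simp only
    rw [hass _ _ (hgen0 _ hI) h2, hom_pow hΦ ha]
    field_simp
  · have hI' : I.map c ≠ ⊥ := fun h => hI ((Ideal.map_eq_bot_iff_of_injective c.injective).1 h)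
    have h2 : Ideal.span {gen (I.map c)} = Ideal.span {c (gen I)} := by
      rw [← hgen _ hI', ← Ideal.map_pow, hgen I hI, Ideal.map_span, Set.image_singleton]
    simp only
    rw [hass _ _ (hgen0 _ hI') h2, hanti _ (hgen0 I hI), neg_div]

end ideals

variable {R A A' : Type} [CommRing R] [Algebra ℤ[X] R] [CommRing A] [CommRing A'] [Algebra ℚ A']

lemma fib_eq (p : Par R) (D : Dbl A A' p.r) (j : R →+* A) (t : ℤ × ℤ) :
    p.fib D j t = (t.2 : A') * D.j (j (zR R)) - t.1 := by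
  simp only [Par.fib, Dbl.pz, zR, map_sub, map_mul, eq_intCast, map_intCast]

lemma fn_fib {S : Type} [CommRing S] {r : ℕ} (D : Dbl A A' r) (j : R →+* A) (T : Tab R)
    (f : A' →+* S) {t : ℤ × ℤ} (hq : (t.2 : S) * f (D.j (j (zR R))) = t.1) {d : ℕ}
    {g c : Fin T.e → ℤ[X]} (hd : ∀ i, T.κ i ≤ d) (hg : ∀ i, (g i).natDegree ≤ d - T.κ i)
    (hc : ∀ i, (c i).natDegree ≤ d - T.κ i) :
    (t.2 : S) ^ d * f (D.fn j T g c) = ∑ i, (((hev (d - T.κ i) (g i) t.1 t.2 : ℤ) : S) +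
      ((hev (d - T.κ i) (c i) t.1 t.2 : ℤ) : S) * f D.ω) *
        ((t.2 : S) ^ T.κ i * f (D.j (j (T.y i)))) := by
  have h1 := Tab.el_fib (f.comp (D.j.comp j)) hq hd hg
  have h2 := Tab.el_fib (f.comp (D.j.comp j)) hq hd hc
  simp only [RingHom.comp_apply] at h1 h2
  rw [Dbl.fn, map_add, map_mul, mul_add, ← mul_assoc, h1, h2, sum_mul, ← sum_add_distrib]
  exact sum_congr rfl fun i _ => by ring

lemma isUnit_int {n : ℤ} (hn : n ≠ 0) : IsUnit (n : A') := by
  have h : IsUnit (algebraMap ℚ A' n) := (IsUnit.mk0 (n : ℚ) (by exact_mod_cast hn)).map _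
  rwa [map_intCast] at h

end C1

open C1 in
theorem p_c1 (hDeg : S_Deg) (hBF : S_BF) (hFb : S_FbEx) (hQF : S_QF) : S_C1 := by
  intro R A A' _ _ _ _ _ _ p D j φ hj hφ hanti t ht
  obtain ⟨k, _, _, _, K, hK⟩ := hBF p.r p.hr
  obtain ⟨L, _, _, _, ⟨F⟩⟩ := hFb R p k K hK t ht
  obtain ⟨⟨c, hc1, hc2, hc3, hc4⟩, ⟨𝔮, h𝔮⟩, -, hJ, -, -, hsp, hind, hgood⟩ :=
    hQF R p k K t L F hK ht
  obtain ⟨-, -, -, hgood⟩ := hgood 𝔮 h𝔮
  have hDt : p.Dt t ≠ 0 := ((hDeg R p).2.2.2.2.2.2.2.2 0 t ht).2.2.2.1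
  have hM : p.Mt t ≠ 0 := by
    rw [Par.Mt, Ne, Int.natAbs_eq_zero]
    exact mul_ne_zero (mul_ne_zero two_ne_zero (by exact_mod_cast p.hr.ne_zero)) hDt
  have hb0 : (t.2 : L) ≠ 0 := by exact_mod_cast ht.1.ne'
  set ω : L := ((K.om L : 𝓞 L) : L) with hω
  have hω2 : ω ^ 2 = -(p.r : L) := by
    have h1 : K.om L ^ 2 = -(p.r : 𝓞 L) := by
      rw [BF.om, ← map_pow, K.sq, hK]
      simp
    have := congrArg (algebraMap (𝓞 L) L) h1
    simpa using this
  obtain ⟨ψ0, hψ0⟩ := hj.exists_lift F.q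
  obtain ⟨ψ, hψj, hψω⟩ := D.exists_lift ψ0 ω hω2
  have hψR : ∀ x, ψ (D.j (j x)) = F.q x := fun x => by rw [hψj, hψ0]
  have hz : (t.2 : L) * ψ (D.j (j (zR R))) = t.1 := by rw [hψR, F.hq]
  have hfn : ∀ (d : ℕ) (g c : Fin p.e → ℤ[X]), (∀ i, p.κ i ≤ d) →
      (∀ i, (g i).natDegree ≤ d - p.κ i) → (∀ i, (c i).natDegree ≤ d - p.κ i) →
      (t.2 : L) ^ d * ψ (D.fn j p.toTab g c) = ∑ i, (((hev (d - p.κ i) (g i) t.1 t.2 : ℤ) : L) +
        ((hev (d - p.κ i) (c i) t.1 t.2 : ℤ) : L) * ω) * (F.η i : L) := by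
    intro d g c hd hg hc
    rw [fn_fib D j p.toTab ψ hz hd hg hc]
    exact sum_congr rfl fun i _ => by rw [hψω, hψR, F.hη]
  have hker : RingHom.ker ψ = Ideal.span {p.fib D j t} := by
    apply le_antisymm
    · intro h hh
      obtain ⟨m, g, c, hm, hmh⟩ := hj.exists_fn D p.toTab h
      set d := univ.sup fun i => p.κ i + ((g i).natDegree + (c i).natDegree) with hd
      have hle : ∀ i, p.κ i + ((g i).natDegree + (c i).natDegree) ≤ d := fun i =>
        le_sup (f := fun i => p.κ i + ((g i).natDegree + (c i).natDegree)) (mem_univ i)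
      have h1 : ∀ i, p.κ i ≤ d := fun i => by have := hle i; omega
      have h2 : ∀ i, (g i).natDegree ≤ d - p.κ i := fun i => by have := hle i; omega
      have h3 : ∀ i, (c i).natDegree ≤ d - p.κ i := fun i => by have := hle i; omega
      have h4 := hfn d g c h1 h2 h3
      rw [← hmh, map_mul, RingHom.mem_ker.1 hh, mul_zero, mul_zero] at h4
      obtain ⟨h5, h6⟩ := hind (fun i => (hev (d - p.κ i) (g i) t.1 t.2 : ℤ))
        (fun i => (hev (d - p.κ i) (c i) t.1 t.2 : ℤ)) (by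
          simp only [Rat.cast_intCast]
          exact h4.symm)
      have h7 : ∀ i, hev (d - p.κ i) (g i) t.1 t.2 = 0 := fun i => by
        simpa using congrFun h5 i
      have h8 : ∀ i, hev (d - p.κ i) (c i) t.1 t.2 = 0 := fun i => by
        simpa using congrFun h6 i
      have h9 := fn_fib D j p.toTab (Ideal.Quotient.mk (Ideal.span {p.fib D j t})) (t := t) (by
        rw [← map_intCast (Ideal.Quotient.mk (Ideal.span {p.fib D j t})),
          ← map_intCast (Ideal.Quotient.mk (Ideal.span {p.fib D j t})), ← map_mul,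
          Ideal.Quotient.eq, ← fib_eq]
        exact Ideal.mem_span_singleton_self _) h1 h2 h3
      simp only [h7, h8, Int.cast_zero, zero_mul, add_zero, sum_const_zero] at h9
      rw [← map_intCast (Ideal.Quotient.mk (Ideal.span {p.fib D j t})), ← map_pow, ← map_mul,
        Ideal.Quotient.eq_zero_iff_mem, ← hmh, ← mul_assoc] at h9
      refine (Ideal.unit_mul_mem_iff_mem _ ?_).1 h9
      refine ((isUnit_int ht.1.ne').pow d).mul ?_
      have := isUnit_int (A' := A') (n := m) (by exact_mod_cast hm.ne')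
      rwa [Int.cast_natCast] at this
    · rw [Ideal.span_le, Set.singleton_subset_iff, SetLike.mem_coe, RingHom.mem_ker, fib_eq,
        map_sub, map_mul, map_intCast, map_intCast, hz, sub_self]
  -- lifts of multiples of algebraic integers, with their conjugates
  have hlift : ∀ β : 𝓞 L, ∃ h, ψ h = (p.Mt t : L) * β ∧ ψ (D.ι h) = (p.Mt t : L) * c β := by
    intro β
    obtain ⟨g, g', hg⟩ := hsp β
    have hg' := congrArg c hg
    simp only [map_mul, map_sum, map_add, map_natCast, map_intCast, hc2, hc3] at hg'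
    refine ⟨∑ i, ((g i : A') + (g' i : A') * D.ω) * ((t.2 : A') ^ p.κ i * D.j (j (p.y i))), ?_, ?_⟩
    · have := congrArg (algebraMap (𝓞 L) L) hg
      simp only [map_mul, map_sum, map_add, map_natCast, map_intCast] at this
      simp only [map_mul, map_sum, map_add, map_intCast, map_pow, hψω, hψR, ← F.hη]
      exact this.symm
    · have := congrArg (algebraMap (𝓞 L) L) hg'
      simp only [map_mul, map_sum, map_add, map_natCast, map_intCast, map_neg] at this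
      simp only [map_mul, map_sum, map_add, map_intCast, map_pow, D.ιj, D.ιω, map_neg, hψω, hψR,
        ← F.hη]
      exact this.symm
  have hM' : (p.Mt t : L) ≠ 0 := by exact_mod_cast hM
  have hsurj : Function.Surjective ψ := by
    intro z
    obtain ⟨n, hn, hz⟩ := ((IsFractionRing.isAlgebraic_iff ℤ ℚ L).2
      (Algebra.IsAlgebraic.isAlgebraic z)).exists_integral_multiple
    obtain ⟨h, hh, -⟩ := hlift ⟨n • z, hz⟩
    obtain ⟨v, hv⟩ := (isUnit_int (A' := A') (n := p.Mt t * n)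
      (mul_ne_zero (by exact_mod_cast hM) hn)).exists_left_inv
    have h1 := congrArg ψ hv
    rw [map_mul, map_one, map_intCast] at h1
    refine ⟨v * h, ?_⟩
    rw [map_mul, hh]
    change ψ v * (_ * (n • z)) = _
    push_cast at h1
    rw [zsmul_eq_mul]
    linear_combination z * h1
  let P0 : MaximalSpectrum A' := ⟨RingHom.ker ψ, RingHom.ker_isMaximal_of_surjective ψ hsurj⟩
  have hmem : ∀ h, h ∈ P0.asIdeal ↔ ψ h = 0 := fun h => RingHom.mem_ker
  let Φ : L → ℝ := fun z => φ P0 (hsurj z).choose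
  have hΦ : ∀ h, Φ (ψ h) = φ P0 h := by
    intro h
    apply hφ.congr
    rw [hmem, map_sub, (hsurj (ψ h)).choose_spec, sub_self]
  have hΦmul : ∀ a b, a ≠ 0 → b ≠ 0 → Φ (a * b) = Φ a + Φ b := by
    intro a b ha hb
    obtain ⟨a, rfl⟩ := hsurj a
    obtain ⟨b, rfl⟩ := hsurj b
    rw [← map_mul, hΦ, hΦ, hΦ]
    exact hφ.mul _ _ _ (by rwa [hmem]) (by rwa [hmem])
  have hι : ∀ h, Φ (ψ (D.ι h)) = -Φ (ψ h) := by
    have key : ∀ h, h ∈ P0.asIdeal → D.ι h ∈ P0.asIdeal := by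
      intro h hh
      change h ∈ RingHom.ker ψ at hh
      change _ ∈ RingHom.ker ψ
      rw [hker, Ideal.mem_span_singleton] at hh ⊢
      have := map_dvd D.ι hh
      rwa [Par.fib, D.ι_pz] at this
    intro h
    rw [hΦ, hΦ]
    refine hanti P0 P0 (fun h => ⟨key h, fun hh => ?_⟩) h
    have := key _ hh
    rwa [D.ι_ι] at this
  have hΦint : ∀ n : ℤ, Φ n = 0 := by
    intro n
    have := hι (n : A')
    rw [map_intCast, map_intCast] at this
    linarith
  have hΦnat : ∀ n : ℕ, Φ n = 0 := fun n => by simpa using hΦint n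
  have hΦO : ∀ a b : 𝓞 L, a ≠ 0 → b ≠ 0 → Φ ((a * b : 𝓞 L) : L) = Φ a + Φ b := by
    intro a b ha hb
    rw [← hΦmul _ _ (by simpa using ha) (by simpa using hb)]
    rfl
  have hΦc : ∀ a : 𝓞 L, a ≠ 0 → Φ (c a) = -Φ a := by
    intro a ha
    obtain ⟨h, h1, h2⟩ := hlift a
    have := hι h
    rwa [h1, h2, hΦmul _ _ hM' (by simpa using ha), hΦmul _ _ hM' (by simpa using ha), hΦnat,
      zero_add, zero_add] at this
  obtain ⟨Ψ, hΨmul, hΨ, hΨc⟩ := exists_ext c (Φ := fun a => Φ a) hΦO hΦc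
    (unit_zero c hc1 (Φ := fun a => Φ a) hΦO hΦc)
  have hJ0 : ∀ x, p.IsPt x → p.OnT x t → F.J K x ≠ ⊥ := by
    intro x hx hxt h0
    have := (hJ x hx hxt).1
    rw [h0, Ideal.absNorm_bot] at this
    exact hx.1.ne_zero this.symm
  have he : 2 * p.e ≠ 0 := mul_ne_zero two_ne_zero p.he.ne_zero
  have hr0 : (p.r : 𝓞 L) ≠ 0 := by exact_mod_cast p.hr.ne_zero
  have h𝔮0 : 𝔮 ≠ 0 := by
    intro h0
    rw [h0, zero_pow he, Ideal.zero_eq_bot, eq_comm, Ideal.span_singleton_eq_bot] at h𝔮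
    exact hr0 h𝔮
  have hΨ𝔮 : Ψ 𝔮 = 0 := by
    have h1 := hom_pow hΨmul h𝔮0 (2 * p.e)
    rw [h𝔮, hΨ _ hr0] at h1
    have h2 : Φ ((p.r : 𝓞 L) : L) = 0 := by simpa using hΦnat p.r
    rw [h2] at h1
    exact (mul_eq_zero.1 h1.symm).resolve_left (by exact_mod_cast he)
  refine ⟨fun x => Ψ (F.J K x), fun x hx hxt => ?_, fun n s x hx => ?_⟩
  · simp only
    rw [← hc4 x hx, hΨc _ (hJ0 x hx hxt)]
  · have h1 := hgood n s x hx
    have hprod : ∀ S : Finset (Fin n), ∏ i ∈ S, F.J K (x i) ≠ 0 ∧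
        Ψ (∏ i ∈ S, F.J K (x i)) = ∑ i ∈ S, Ψ (F.J K (x i)) := by
      intro S
      induction S using Finset.induction_on with
      | empty => exact ⟨by simp, by simpa using hom_pow hΨmul h𝔮0 0⟩
      | insert i S hi ih =>
        have hi0 := hJ0 (x i) (hx.1 i).1 (hx.1 i).2.1
        rw [prod_insert hi, sum_insert hi, hΨmul _ _ hi0 ih.1, ih.2]
        exact ⟨mul_ne_zero hi0 ih.1, rfl⟩
    have hal0 : F.al K s ≠ 0 := by
      intro h0
      rw [h0, Ideal.span_singleton_zero] at h1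
      exact mul_ne_zero (pow_ne_zero p.e0 h𝔮0) (hprod univ).1 h1.symm
    have h2 : Φ (F.al K s : L) = ∑ i, Ψ (F.J K (x i)) := by
      have := hΨ _ hal0
      rw [h1, hΨmul _ _ (pow_ne_zero p.e0 h𝔮0) (hprod univ).1, hom_pow hΨmul h𝔮0, hΨ𝔮, mul_zero,
        zero_add, (hprod univ).2] at this
      exact this.symm
    have h3 : ((t.2 ^ p.dd : ℤ) : L) * ψ (p.sec D j s) = (F.al K s : L) := by
      rw [Int.cast_pow, Par.sec, hfn _ _ _ p.κ_le (p.natDegree_gp s) (p.natDegree_cp s)]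
      change _ = algebraMap (𝓞 L) L _
      simp only [Fb.al, map_sum, map_mul, map_add, map_intCast]
      rfl
    have hal0' : (F.al K s : L) ≠ 0 := by simpa using hal0
    have hsec : ψ (p.sec D j s) ≠ 0 := by
      intro h0
      rw [h0, mul_zero] at h3
      exact hal0' h3.symm
    have hpk0 : ((t.2 ^ p.dd : ℤ) : L) ≠ 0 := by
      push_cast
      exact pow_ne_zero _ hb0
    have h4 : Φ (ψ (p.sec D j s)) = ∑ i, Ψ (F.J K (x i)) := by
      rw [← h2, ← h3, hΦmul _ _ hpk0 hsec, hΦint, zero_add]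
    have hs0 : p.sec D j s ≠ 0 := by
      intro h0
      rw [h0, map_zero] at hsec
      exact hsec rfl
    have hf0 : p.fib D j t ≠ 0 := by
      intro h0
      have h5 : C t.2 * X - C t.1 = 0 := p.alg_injective (hj.inj (D.j_injective (by
        simp only [map_zero]
        exact h0)))
      have h6 := congrArg (coeff · 1) h5
      simp only [coeff_sub, coeff_C_mul, coeff_X_one, mul_one, coeff_C_succ, sub_zero,
        coeff_zero] at h6
      exact ht.1.ne' h6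
    have hcop : IsCoprime (p.sec D j s) (p.fib D j t) := by
      obtain ⟨h, hh⟩ := hsurj (ψ (p.sec D j s))⁻¹
      have h5 : 1 - h * p.sec D j s ∈ RingHom.ker ψ := by
        rw [RingHom.mem_ker, map_sub, map_one, map_mul, hh, inv_mul_cancel₀ hsec, sub_self]
      rw [hker, Ideal.mem_span_singleton'] at h5
      obtain ⟨c, hc⟩ := h5
      exact ⟨h, c, by linear_combination hc⟩
    have hP0 : P0.asIdeal = Ideal.span {p.fib D j t} := hker
    have hord : ord P0 (p.fib D j t) = 1 := by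
      unfold ord
      rw [← hP0]
      exact multiplicity_self
    rw [hφ.recip _ _ hs0 hf0 hcop, pair_eq_single φ _ _ P0 fun Q hQ hQ' => absurd
      (MaximalSpectrum.ext (P0.isMaximal.eq_of_le Q.isMaximal.ne_top (by
        rw [hP0]
        exact (Ideal.span_singleton_le_iff_mem _).2 hQ')).symm) hQ, hord, ← hΦ, h4, Nat.cast_one,
      one_mul]

end

end Pool.Agent.P.MP_b8021b_nt.VC
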