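import Pool.Agent.P.MP_b8021b_nt.VC.StA
import Pool.Agent.P.MP_b8021b_nt.VC.BasicA

/-! The section side of the cochain. -/

namespace Pool.Agent.P.MP_b8021b_nt.VC

open Polynomial Finset NumberField IsDedekindDomain Pool.Agent.P.MP_b8021b_nt.VE
open scoped Classical ComplexConjugate

noncomputable section

namespace C2P

section val

variable {K Γ : Type} [Field K] [LinearOrderedCommGroupWithZero Γ] (v : Valuation K Γ)

lemma v_nat (n : ℕ) : v (n : K) ≤ 1 := by
  induction n with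
  | zero => simp
  | succ n ih =>
    rw [Nat.cast_succ]
    exact v.map_add_le ih (by simp)

lemma v_int (n : ℤ) : v (n : K) ≤ 1 := by
  obtain ⟨m, rfl | rfl⟩ := n.eq_nat_or_neg
  · simpa using v_nat v m
  · simpa using v_nat v m

lemma v_dvd {a b : ℤ} (h : a ∣ b) : v (b : K) ≤ v (a : K) := by
  obtain ⟨c, rfl⟩ := h
  rw [Int.cast_mul, map_mul]
  exact mul_le_of_le_one_right' (v_int v c)

lemma v_cop {a b : ℤ} (h : IsCoprime a b) (ha : v (a : K) < 1) : v (b : K) = 1 := by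
  refine le_antisymm (v_int v b) (not_lt.mp fun hb => ?_)
  obtain ⟨c, d, hcd⟩ := h
  have h1 : v ((c * a : ℤ) : K) < 1 := (v_dvd v (dvd_mul_left a c)).trans_lt ha
  have h2 : v ((d * b : ℤ) : K) < 1 := (v_dvd v (dvd_mul_left b d)).trans_lt hb
  have h3 := v.map_add_lt h1 h2
  rw [← Int.cast_add, hcd] at h3
  simp at h3

lemma v_pow_sub {b c : K} (hb : v b ≤ 1) (hc : v c ≤ 1) (m : ℕ) :
    v (b ^ m - c ^ m) ≤ v (b - c) := by
  induction m with
  | zero => simp
  | succ m ih =>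
    have : b ^ (m + 1) - c ^ (m + 1) = b * (b ^ m - c ^ m) + (b - c) * c ^ m := by ring
    rw [this]
    refine v.map_add_le ?_ ?_
    · rw [map_mul]
      exact (mul_le_of_le_one_left' hb).trans ih
    · rw [map_mul, map_pow]
      exact mul_le_of_le_one_right' (pow_le_one' hc m)

lemma v_aeval {θ : K} (h : v θ ≤ 1) (g : ℤ[X]) : v (aeval θ g) ≤ 1 := by
  rw [aeval_eq_sum_range]
  refine v.map_sum_le fun i _ => ?_
  rw [zsmul_eq_mul, map_mul, map_pow]
  exact mul_le_one' (v_int v _) (pow_le_one' h i)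

lemma v_monic {θ : K} (h : 1 < v θ) {G : ℤ[X]} (hG : G.Monic) :
    v (aeval θ G) = v θ ^ G.natDegree := by
  have h0 : v (θ ^ G.natDegree) ≠ 0 := by
    rw [map_pow]
    exact (pow_pos (zero_lt_one.trans h) _).ne'
  have h1 : v (∑ i ∈ range G.natDegree, G.coeff i • θ ^ i) < v (θ ^ G.natDegree) := by
    refine v.map_sum_lt h0 fun i hi => ?_
    rw [zsmul_eq_mul, map_mul, map_pow, map_pow]
    exact (mul_le_of_le_one_left' (v_int v _)).trans_lt (pow_lt_pow_right₀ h (mem_range.1 hi))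
  rw [aeval_eq_sum_range, sum_range_succ, hG.coeff_natDegree, one_smul,
    v.map_add_eq_of_lt_right h1, map_pow]

variable {F : ℤ[X]} {n : ℕ} {θ : K}

lemma sum_F (hF : F.natDegree ≤ n) (hθ : aeval θ F = 0) :
    ∑ i ∈ range (n + 1), ((F.coeff i : ℤ) : K) * θ ^ i = 0 := by
  rw [aeval_eq_sum_range' (Nat.lt_succ_of_le hF)] at hθ
  simpa only [zsmul_eq_mul] using hθ

/-- an integral root -/
lemma val_N1 (hF : F.natDegree ≤ n) (hθ : aeval θ F = 0) (h : v θ ≤ 1) (a b : ℤ) :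
    v ((b : K) * θ - a) ≤ 1 ∧ v (hev n F a b : K) ≤ v ((b : K) * θ - a) := by
  have h2 : v ((b : K) * θ) ≤ 1 := by
    rw [map_mul]
    exact mul_le_one' (v_int v _) h
  refine ⟨v.map_sub_le h2 (v_int v _), ?_⟩
  have h3 : (hev n F a b : K) = -∑ i ∈ range (n + 1), ((F.coeff i * b ^ (n - i) : ℤ) : K) *
      (((b : K) * θ) ^ i - (a : K) ^ i) := by
    have h5 : ∑ i ∈ range (n + 1), ((F.coeff i * b ^ (n - i) : ℤ) : K) * ((b : K) * θ) ^ i =
        (b : K) ^ n * ∑ i ∈ range (n + 1), ((F.coeff i : ℤ) : K) * θ ^ i := by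
      rw [mul_sum]
      refine sum_congr rfl fun i hi => ?_
      obtain ⟨j, hj⟩ := Nat.exists_eq_add_of_le (Nat.lt_succ_iff.mp (mem_range.mp hi))
      rw [hj, Nat.add_sub_cancel_left, pow_add]
      push_cast
      ring
    simp only [mul_sub, sum_sub_distrib]
    rw [h5, sum_F hF hθ, mul_zero, zero_sub, neg_neg, hev]
    push_cast
    exact sum_congr rfl fun i _ => by ring
  rw [h3, v.map_neg]
  refine v.map_sum_le fun i _ => ?_
  rw [map_mul]
  exact (mul_le_of_le_one_left' (v_int v _)).trans (v_pow_sub v h2 (v_int v _) _)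

/-- a root that is not integral -/
lemma val_N2 (hF : F.natDegree ≤ n) (hθ : aeval θ F = 0) (h : 1 < v θ) (a b : ℤ) :
    v ((a : K) * θ⁻¹) < 1 ∧ v (hev n F a b : K) ≤ v ((b : K) - a * θ⁻¹) := by
  have hθ0 : θ ≠ 0 := by
    rintro rfl
    simp at h
  have h2 : v ((a : K) * θ⁻¹) < 1 := by
    rw [map_mul, map_inv₀]
    exact (mul_le_of_le_one_left' (v_int v _)).trans_lt (inv_lt_one_of_one_lt₀ h)
  refine ⟨h2, ?_⟩
  have h3 : (hev n F a b : K) = ∑ i ∈ range (n + 1), ((F.coeff i * a ^ i : ℤ) : K) *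
      ((b : K) ^ (n - i) - ((a : K) * θ⁻¹) ^ (n - i)) := by
    have h5 : ∑ i ∈ range (n + 1), ((F.coeff i * a ^ i : ℤ) : K) * ((a : K) * θ⁻¹) ^ (n - i) =
        ((a : K) * θ⁻¹) ^ n * ∑ i ∈ range (n + 1), ((F.coeff i : ℤ) : K) * θ ^ i := by
      rw [mul_sum]
      refine sum_congr rfl fun i hi => ?_
      obtain ⟨j, hj⟩ := Nat.exists_eq_add_of_le (Nat.lt_succ_iff.mp (mem_range.mp hi))
      have e : ((a : K) * θ⁻¹) ^ i * θ ^ i = (a : K) ^ i := by
        rw [← mul_pow, inv_mul_cancel_right₀ hθ0]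
      rw [hj, Nat.add_sub_cancel_left, pow_add]
      push_cast
      rw [← e]
      ring
    simp only [mul_sub, sum_sub_distrib]
    rw [h5, sum_F hF hθ, mul_zero, sub_zero, hev]
    push_cast
    rfl
  rw [h3]
  refine v.map_sum_le fun i _ => ?_
  rw [map_mul]
  exact (mul_le_of_le_one_left' (v_int v _)).trans (v_pow_sub v (v_int v _) h2.le _)

lemma val_q {q τ a b : ℤ} (hb : v (b : K) = 1) (h : q ∣ a - τ * b)
    (hle : v (q : K) ≤ v ((b : K) * θ - a)) :
    v ((b : K) * θ - a) = max (v (θ - τ)) (v (q : K)) := by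
  have h1 : (b : K) * θ - a = b * (θ - τ) - (a - τ * b : ℤ) := by
    push_cast
    ring
  have h2 : v ((b : K) * (θ - τ)) = v (θ - τ) := by rw [map_mul, hb, one_mul]
  have h3 := v_dvd v h
  rcases le_or_gt (v (θ - τ)) (v (q : K)) with h4 | h4
  · rw [max_eq_right h4]
    refine le_antisymm ?_ hle
    rw [h1]
    exact v.map_sub_le (h2.trans_le h4) h3
  · rw [max_eq_left h4.le, h1, v.map_sub_eq_of_lt_left (by rw [h2]; exact h3.trans_lt h4), h2]

end val

/-- the local contribution of a point -/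
def gv {K : Type} [Field K] (v : Valuation K (WithZero (Multiplicative ℤ))) (θ : K) (q τ : ℕ) : ℝ :=
  if v (q : K) < 1 ∧ v θ ≤ 1 then ((-WithZero.log (max (v (θ - τ)) (v (q : K))) : ℤ) : ℝ) else 0

lemma gv_zero {K : Type} [Field K] (v : Valuation K (WithZero (Multiplicative ℤ))) (θ : K) {q : ℕ}
    (τ : ℕ) (h : v (q : K) = 1) : gv v θ q τ = 0 :=
  if_neg fun h' => by rw [h] at h'; exact lt_irrefl _ h'.1

variable {R : Type} [CommRing R] [Algebra ℤ[X] R] (p : Par R) (s : p.Co)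

lemma F_ne : p.F s ≠ 0 := by
  obtain ⟨E, h⟩ := p.mem_F
  obtain ⟨a, b, h⟩ := h s
  intro h0
  have h1 := congrArg (fun g : ℤ[X] => g.coeff 0) h
  simp only [h0, mul_zero, zero_add, mul_coeff_zero, p.G0, coeff_C_zero] at h1
  exact pow_ne_zero E (Nat.cast_ne_zero.2 p.hr.ne_zero) h1.symm

lemma mem_G {K : Type} [CommRing K] {θ : K} (hθ : aeval θ (p.F s) = 0) :
    ∃ (E : ℕ) (b : ℤ[X]), aeval θ b * aeval θ p.G = (p.r : K) ^ E := by
  obtain ⟨E, h⟩ := p.mem_F
  obtain ⟨a, b, h⟩ := h s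
  refine ⟨E, b, ?_⟩
  have h1 := congrArg (aeval θ) h
  simpa [hθ] using h1

lemma G_ne {K : Type} [Field K] [CharZero K] {θ : K} (hθ : aeval θ (p.F s) = 0) :
    aeval θ p.G ≠ 0 := by
  obtain ⟨E, b, h⟩ := mem_G p s hθ
  intro h0
  rw [h0, mul_zero] at h
  exact pow_ne_zero E (Nat.cast_ne_zero.2 p.hr.ne_zero) h.symm

lemma val_all {K : Type} [Field K] [CharZero K] (v : Valuation K (WithZero (Multiplicative ℤ)))
    {θ : K} (hθ : aeval θ (p.F s) = 0) {α β : ℕ} (hα : 0 < α)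
    (hsl : v (p.r : K) < 1 → v (aeval θ p.G) ^ α = v (p.r : K) ^ β) {n : ℕ} {t : ℤ × ℤ}
    {x : Fin n → p.Pn} (ht : p.Adm t) (hx : p.Good t s x) :
    ((-WithZero.log (v ((t.2 : K) * θ - t.1)) : ℤ) : ℝ) =
      ((-WithZero.log (v (aeval θ p.G)) : ℤ) : ℝ) / p.ρ + ∑ i, gv v θ (x i).1 (x i).2.1 -
      (β : ℝ) / (α * p.ρ) * ((-WithZero.log (v (p.r : K)) : ℤ) : ℝ) := by
  obtain ⟨h1, h2, h3⟩ := hx
  have hρ : (p.ρ : ℝ) ≠ 0 := Nat.cast_ne_zero.2 p.ρ_pos.ne'
  have cop : ∀ a b : ℕ, a.Prime → b.Prime → a ≠ b → v (a : K) < 1 → v (b : K) = 1 := by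
    intro a b ha hb hab h
    have := v_cop v (a := a) (b := b)
      (Nat.isCoprime_iff_coprime.mpr ((Nat.coprime_primes ha hb).mpr hab)) (by simpa using h)
    simpa using this
  rcases (v_nat v p.r).lt_or_eq with hr | hr
  · have h4 : ∑ i, gv v θ (x i).1 (x i).2.1 = 0 := by
      refine sum_eq_zero fun i _ => gv_zero v θ _ (cop _ _ p.hr (h1 i).1.1 (fun h => ?_) hr)
      exact (h1 i).1.2.1 (h ▸ dvd_mul_left _ _)
    have h5 := hsl hr
    have hθ1 : v θ ≤ 1 := by
      refine not_lt.mp fun h => ?_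
      rw [v_monic v h p.monic] at h5
      have h6 : 1 < (v θ ^ p.G.natDegree) ^ α := one_lt_pow₀ (one_lt_pow₀ h p.ρ_pos.ne') hα.ne'
      rw [h5] at h6
      exact absurd (pow_le_one' hr.le β) (not_le.2 h6)
    have hn0 : p.n0 ≠ 0 := (Nat.zero_lt_of_lt p.hn).ne'
    have ha : v (t.1 : K) = 1 := by
      refine v_cop v (a := p.r) ?_ (by simpa using hr)
      obtain ⟨c, hc⟩ := (dvd_pow_self _ hn0).trans ht.2.2.2.1
      exact ⟨-c, 1, by linear_combination hc⟩
    have hb : v (t.2 : K) < 1 := by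
      have h6 : (p.r : ℤ) ∣ t.2 := by
        have := dvd_add ((dvd_pow_self _ hn0).trans ht.2.2.2.2.1)
          (dvd_pow_self (p.r : ℤ) p.b0_pos.ne')
        rwa [sub_add_cancel] at this
      exact (v_dvd v h6).trans_lt (by simpa using hr)
    have h7 : v ((t.2 : K) * θ - t.1) = 1 := by
      rw [← ha]
      refine v.map_sub_eq_of_lt_right ?_
      rw [ha, map_mul]
      exact (mul_le_of_le_one_right' hθ1).trans_lt hb
    have h8 := congrArg WithZero.log h5
    rw [WithZero.log_pow, WithZero.log_pow, nsmul_eq_mul, nsmul_eq_mul] at h8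
    have h9 : (α : ℝ) * (WithZero.log (v (aeval θ p.G)) : ℤ) =
        (β : ℝ) * (WithZero.log (v (p.r : K)) : ℤ) := by exact_mod_cast h8
    have hα' : (α : ℝ) ≠ 0 := Nat.cast_ne_zero.2 hα.ne'
    rw [h7, h4, WithZero.log_one, neg_zero, Int.cast_zero, Int.cast_neg, Int.cast_neg]
    field_simp
    linear_combination h9
  · have h7 : v (p.N s t : K) = ∏ i, v ((x i).1 : K) := by
      rw [h3]
      simp [hr]
    have hb : ∀ i, v ((x i).1 : K) < 1 → v (t.2 : K) = 1 := fun i hi => v_cop v (a := (x i).1)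
      ((Prime.coprime_iff_not_dvd (Nat.prime_iff_prime_int.mp (h1 i).1.1)).mpr (h1 i).2.1.2)
      (by simpa using hi)
    have h8 : (¬ ∃ i, v ((x i).1 : K) < 1) → ∀ j, v ((x j).1 : K) = 1 := fun hq j =>
      le_antisymm (v_nat v _) (not_lt.mp fun h => hq ⟨j, h⟩)
    rw [hr, WithZero.log_one, neg_zero, Int.cast_zero, mul_zero, sub_zero]
    rcases le_or_gt (v θ) 1 with hθ1 | hθ1
    · obtain ⟨h5, h6⟩ := val_N1 v (p.natDegree_F_le s) hθ hθ1 t.1 t.2
      have hG : v (aeval θ p.G) = 1 := by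
        obtain ⟨E, b, h⟩ := mem_G p s hθ
        have h9 := congrArg v h
        rw [map_mul, map_pow, hr, one_pow] at h9
        refine le_antisymm (v_aeval v hθ1 _) ?_
        rw [← h9]
        exact mul_le_of_le_one_left' (v_aeval v hθ1 _)
      rw [hG, WithZero.log_one, neg_zero, Int.cast_zero, zero_div, zero_add]
      change v (p.N s t : K) ≤ _ at h6
      by_cases hq : ∃ i, v ((x i).1 : K) < 1
      · obtain ⟨i, hi⟩ := hq
        have h8 : ∀ j, j ≠ i → v ((x j).1 : K) = 1 := fun j hj =>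
          cop _ _ (h1 i).1.1 (h1 j).1.1 (fun h => hj (h2 h).symm) hi
        rw [h7, prod_eq_single i (fun j _ hj => h8 j hj) (by simp)] at h6
        have h9 := val_q v (hb i hi) (h1 i).2.1.1 (by simpa using h6)
        rw [Fintype.sum_eq_single i fun j hj => gv_zero v θ _ (h8 j hj), gv, if_pos ⟨hi, hθ1⟩, h9]
        simp
      · rw [h7, prod_eq_one fun j _ => h8 hq j] at h6
        rw [le_antisymm h5 h6, sum_eq_zero fun j _ => gv_zero v θ _ (h8 hq j)]
        simp
    · obtain ⟨h5, h6⟩ := val_N2 v (p.natDegree_F_le s) hθ hθ1 t.1 t.2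
      change v (p.N s t : K) ≤ _ at h6
      have hθ0 : θ ≠ 0 := by
        rintro rfl
        simp at hθ1
      have h9 : v ((t.2 : K) - t.1 * θ⁻¹) = 1 := by
        by_cases hq : ∃ i, v ((x i).1 : K) < 1
        · obtain ⟨i, hi⟩ := hq
          rw [← hb i hi]
          exact v.map_sub_eq_of_lt_left (by rw [hb i hi]; exact h5)
        · rw [h7, prod_eq_one fun j _ => h8 hq j] at h6
          exact le_antisymm (v.map_sub_le (v_int v _) h5.le) h6
      have e1 : (t.2 : K) * θ - t.1 = θ * (t.2 - t.1 * θ⁻¹) := by field_simp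
      have h10 : ∑ i, gv v θ (x i).1 (x i).2.1 = 0 :=
        sum_eq_zero fun j _ => if_neg fun h => absurd h.2 (not_le.2 hθ1)
      rw [e1, map_mul, h9, mul_one, v_monic v hθ1 p.monic, WithZero.log_pow, nsmul_eq_mul, h10,
        add_zero]
      change _ = ((-((p.ρ : ℤ) * _) : ℤ) : ℝ) / _
      push_cast
      field_simp

lemma fin_supp {K : Type} [Field K] [NumberField K] (a : K) (ha : a ≠ 0) :
    {v : HeightOneSpectrum (𝓞 K) | v.valuation K a ≠ 1}.Finite := by
  refine ((HeightOneSpectrum.Support.finite (𝓞 K) a⁻¹).union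
    (HeightOneSpectrum.Support.finite (𝓞 K) a)).subset fun v hv => ?_
  have h0 : 0 < v.valuation K a := zero_lt_iff.mpr (by simpa using ha)
  rcases lt_or_gt_of_ne hv with h | h
  · left
    change 1 < v.valuation K a⁻¹
    rw [map_inv₀]
    exact (one_lt_inv₀ h0).mpr h
  · exact Or.inr h

/-- the contribution of one zero of the section -/
lemma field_part (hRep : VE.S_Rep) {α β : ℕ} (hα : 0 < α) (hsl : Slope p.r (p.F s) p.G α β)
    (K : Type) [Field K] [NumberField K]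
    (Φ : K → ℝ) (hΦ : ∀ a b, a ≠ 0 → b ≠ 0 → Φ (a * b) = Φ a + Φ b) (θ : K)
    (hθ : aeval θ (p.F s) = 0) :
    ∃ (c : p.Pn → ℝ) (J : Type) (_ : Fintype J) (m : J → ℝ) (ϑ : J → ℂ),
      (∀ j, aeval (ϑ j) (p.FR s) = 0) ∧
      ∀ (n : ℕ) (t : ℤ × ℤ) (x : Fin n → p.Pn), p.Adm t → p.Good t s x →
        Φ (t.2 * θ - t.1) = Φ (aeval θ p.G) / p.ρ + ∑ i, c (x i) +
          ∑ j, m j * (Real.log ‖ϑ j - (((t.1 : ℝ) / t.2 : ℝ) : ℂ)‖ -
            Real.log ‖aeval (ϑ j) p.G‖ / p.ρ) - (β : ℝ) / (α * p.ρ) * Φ p.r := by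
  obtain ⟨c, γ, hγ, hc⟩ := hRep K Φ hΦ
  have hG := G_ne p s hθ
  have emb : ∀ (w : InfinitePlace K) (g : ℤ[X]),
      aeval (w.embedding θ) g = w.embedding (aeval θ g) := fun w g =>
    aeval_algHom_apply (w.embedding).toIntAlgHom θ g
  refine ⟨fun x => ∑ᶠ v, c v * gv (v.valuation K) θ x.1 x.2.1, InfinitePlace K, inferInstance, γ,
    fun w => w.embedding θ, fun w => ?_, fun n t x ht hx => ?_⟩
  · have h1 : aeval (w.embedding θ) (p.FR s) = aeval (w.embedding θ) (p.F s) := by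
      have := aeval_map_algebraMap ℝ (w.embedding θ) (p.F s)
      rwa [algebraMap_int_eq] at this
    rw [h1, emb, hθ, map_zero]
  · set ν : ℝ := (β : ℝ) / (α * p.ρ)
    have hb : (t.2 : K) ≠ 0 := by exact_mod_cast ht.1.ne'
    have hr : (p.r : K) ≠ 0 := by exact_mod_cast p.hr.ne_zero
    have hq : ∀ i, ((x i).1 : K) ≠ 0 := fun i => by exact_mod_cast (hx.1 i).1.1.ne_zero
    have hne : (t.2 : K) * θ - t.1 ≠ 0 := by
      intro h0
      have h1 := hev_cast (R := K) (p.natDegree_F_le s) (a := t.1) (b := t.2) (τ := θ)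
        (by linear_combination -h0)
      rw [hθ, mul_zero] at h1
      change (p.N s t : K) = 0 at h1
      rw [hx.2.2] at h1
      push_cast at h1
      exact mul_ne_zero (pow_ne_zero _ hr) (prod_ne_zero_iff.2 fun i _ => hq i) h1
    rw [hc _ hne, hc _ hr, hc _ hG]
    -- archimedean part
    have a1 : ∑ w, γ w * Real.log (w ((t.2 : K) * θ - t.1)) =
        ∑ w : InfinitePlace K,
          γ w * Real.log ‖w.embedding θ - (((t.1 : ℝ) / t.2 : ℝ) : ℂ)‖ := by
      have hb' : (0 : ℝ) < t.2 := by exact_mod_cast ht.1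
      have : ∀ w : InfinitePlace K, γ w * Real.log (w ((t.2 : K) * θ - t.1)) =
          γ w * Real.log t.2 +
            γ w * Real.log ‖w.embedding θ - (((t.1 : ℝ) / t.2 : ℝ) : ℂ)‖ := by
        intro w
        have h1 : w.embedding ((t.2 : K) * θ - t.1) =
            ((t.2 : ℝ) : ℂ) * (w.embedding θ - (((t.1 : ℝ) / t.2 : ℝ) : ℂ)) := by
          have : ((t.2 : ℤ) : ℂ) ≠ 0 := by exact_mod_cast ht.1.ne'
          simp only [map_sub, map_mul, map_intCast]
          push_cast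
          field_simp
        have h2 : (w.embedding θ - (((t.1 : ℝ) / t.2 : ℝ) : ℂ)) ≠ 0 := by
          intro h0
          rw [h0, mul_zero] at h1
          exact hne (by simpa only [map_eq_zero] using h1)
        rw [← w.norm_embedding_eq, h1, norm_mul, Complex.norm_real, Real.norm_of_nonneg hb'.le,
          Real.log_mul hb'.ne' (norm_ne_zero_iff.mpr h2), mul_add]
      rw [sum_congr rfl fun w _ => this w, sum_add_distrib, ← sum_mul, hγ, zero_mul, zero_add]
    have a2 : ∑ w, γ w * Real.log (w (p.r : K)) = 0 := by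
      have : ∀ w : InfinitePlace K, γ w * Real.log (w (p.r : K)) = γ w * Real.log p.r := by
        intro w
        rw [← w.norm_embedding_eq]
        simp
      rw [sum_congr rfl fun w _ => this w, ← sum_mul, hγ, zero_mul]
    have a3 : ∑ w : InfinitePlace K,
        γ w * (Real.log ‖w.embedding θ - (((t.1 : ℝ) / t.2 : ℝ) : ℂ)‖ -
          Real.log ‖aeval (w.embedding θ) p.G‖ / p.ρ) =
        ∑ w : InfinitePlace K, γ w * Real.log ‖w.embedding θ - (((t.1 : ℝ) / t.2 : ℝ) : ℂ)‖ -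
          (∑ w, γ w * Real.log (w (aeval θ p.G))) / p.ρ := by
      rw [sum_div, ← sum_sub_distrib]
      refine sum_congr rfl fun w _ => ?_
      rw [emb, w.norm_embedding_eq]
      ring
    -- finite part
    have va := fun v : HeightOneSpectrum (𝓞 K) => val_all p s (v.valuation K) hθ hα
      (fun h => hsl K v θ ((v.valuation_lt_one_iff_mem (K := K) _).1 (by simpa using h)) hθ) ht hx
    set S := (fin_supp _ hr).toFinset ∪ (fin_supp _ hG).toFinset ∪
      univ.biUnion fun i => (fin_supp _ (hq i)).toFinset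
    have g0 : ∀ v ∉ S, (∀ i, gv (v.valuation K) θ (x i).1 (x i).2.1 = 0) ∧
        ((-WithZero.log (v.valuation K (p.r : K)) : ℤ) : ℝ) = 0 ∧
        ((-WithZero.log (v.valuation K (aeval θ p.G)) : ℤ) : ℝ) = 0 := by
      intro v hv
      simp only [S, mem_union, Set.Finite.mem_toFinset, mem_biUnion, mem_univ, true_and, not_or,
        not_exists, Set.mem_ofPred_eq, not_not] at hv
      refine ⟨fun i => gv_zero _ _ _ (hv.2 i), ?_, ?_⟩
      · rw [hv.1.1]
        simp
      · rw [hv.1.2]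
        simp
    have fs : ∀ G : HeightOneSpectrum (𝓞 K) → ℝ, (∀ v ∉ S, G v = 0) →
        ∑ᶠ v, c v * G v = ∑ v ∈ S, c v * G v := by
      intro G hG
      refine finsum_eq_sum_of_support_subset _ fun v hv => ?_
      by_contra h
      exact hv (by simp [hG v h])
    have f1 := fs (fun v => ((-WithZero.log (v.valuation K ((t.2 : K) * θ - t.1)) : ℤ) : ℝ))
      (fun v hv => by
        rw [va v, (g0 v hv).2.1, (g0 v hv).2.2, sum_eq_zero fun i _ => (g0 v hv).1 i]
        simp)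
    have f2 := fs (fun v => ((-WithZero.log (v.valuation K (p.r : K)) : ℤ) : ℝ))
      (fun v hv => (g0 v hv).2.1)
    have f2' := fs (fun v => ((-WithZero.log (v.valuation K (aeval θ p.G)) : ℤ) : ℝ))
      (fun v hv => (g0 v hv).2.2)
    have f3 : ∀ i, ∑ᶠ v, c v * gv (v.valuation K) θ (x i).1 (x i).2.1 =
        ∑ v ∈ S, c v * gv (v.valuation K) θ (x i).1 (x i).2.1 := fun i =>
      fs (fun v => gv (v.valuation K) θ (x i).1 (x i).2.1) (fun v hv => (g0 v hv).1 i)
    rw [a3, a1, a2, f1, f2, f2', sum_congr rfl fun i _ => f3 i, sum_comm]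
    have f4 : ∑ v ∈ S, c v * ((-WithZero.log (v.valuation K ((t.2 : K) * θ - t.1)) : ℤ) : ℝ) =
        (∑ v ∈ S, c v * ((-WithZero.log (v.valuation K (aeval θ p.G)) : ℤ) : ℝ)) / p.ρ +
        ∑ v ∈ S, ∑ i, c v * gv (v.valuation K) θ (x i).1 (x i).2.1 -
          ν * ∑ v ∈ S, c v * ((-WithZero.log (v.valuation K (p.r : K)) : ℤ) : ℝ) := by
      rw [mul_sum, sum_div, ← sum_add_distrib, ← sum_sub_distrib]
      refine sum_congr rfl fun v _ => ?_
      rw [va v, ← mul_sum]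
      ring
    rw [f4]
    ring

variable {A A' : Type} [CommRing A] [CommRing A'] [Algebra ℚ A']

theorem finiteType {r : ℕ} (D : Dbl A A' r) (T : Tab R) {j : R →+* A} (hj : Gen j) :
    Algebra.FiniteType ℚ A' := by
  let s : Finset A' := insert D.ω (insert (D.j (j (zR R))) (univ.image fun i => D.j (j (T.y i))))
  refine ⟨s, eq_top_iff.2 fun h _ => ?_⟩
  have hω : D.ω ∈ Algebra.adjoin ℚ (s : Set A') := Algebra.subset_adjoin (by simp [s])
  have hz : D.j (j (zR R)) ∈ Algebra.adjoin ℚ (s : Set A') := Algebra.subset_adjoin (by simp [s])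
  have hy : ∀ i, D.j (j (T.y i)) ∈ Algebra.adjoin ℚ (s : Set A') := fun i =>
    Algebra.subset_adjoin (by simp [s])
  have hel : ∀ g, D.j (j (T.el g)) ∈ Algebra.adjoin ℚ (s : Set A') := fun g => by
    have e := T.map_el (D.j.comp j) g
    simp only [RingHom.comp_apply] at e
    rw [e]
    refine sum_mem fun i _ => mul_mem ?_ (hy i)
    rw [aeval_eq_sum_range]
    exact sum_mem fun k _ => zsmul_mem (pow_mem hz _) _
  obtain ⟨m, g, c, hm, e⟩ := hj.exists_fn D T h
  have h1 : (m : A') * h ∈ Algebra.adjoin ℚ (s : Set A') := by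
    rw [e]
    exact add_mem (hel g) (mul_mem (hel c) hω)
  have h2 : h = (m : ℚ)⁻¹ • ((m : A') * h) := by
    rw [← nsmul_eq_mul, ← Nat.cast_smul_eq_nsmul ℚ, smul_smul,
      inv_mul_cancel₀ (Nat.cast_ne_zero.2 hm.ne'), one_smul]
  rw [h2]
  exact Subalgebra.smul_mem _ h1 _

theorem numberField [Algebra.FiniteType ℚ A'] {K : Type} [Field K] (π : A' →+* K)
    (hπ : Function.Surjective π) : NumberField K := by
  have : CharZero K := by
    let := (π.comp (algebraMap ℚ A')).toAlgebra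
    exact algebraRat.charZero K
  have : Algebra.FiniteType ℚ K := Algebra.FiniteType.of_surjective π.toRatAlgHom hπ
  have : Module.Finite ℚ K := finite_of_finite_type_of_isJacobsonRing ℚ K
  exact ⟨⟩

/-- the residue field of a maximal ideal is a number field -/
theorem exists_res [Algebra.FiniteType ℚ A'] (P : Ideal A') (hP : P.IsMaximal) :
    ∃ (K : Type) (_ : Field K) (_ : NumberField K) (π : A' →+* K),
      Function.Surjective π ∧ RingHom.ker π = P :=
  ⟨A' ⧸ P, Ideal.Quotient.field P,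
    @numberField A' _ _ _ (A' ⧸ P) (Ideal.Quotient.field P) (Ideal.Quotient.mk P)
      Ideal.Quotient.mk_surjective, Ideal.Quotient.mk P, Ideal.Quotient.mk_surjective,
    Ideal.mk_ker⟩

lemma norm_conj (z : ℂ) (g : ℤ[X]) : ‖aeval (conj z) g‖ = ‖aeval z g‖ := by
  have h : aeval (conj z) g = conj (aeval z g) :=
    aeval_algHom_apply (starRingEnd ℂ).toIntAlgHom z g
  rw [h, Complex.norm_conj]

end C2P

open C2P in
theorem p_c2 (hRep : VE.S_Rep) (hArch : S_Arch2) : S_C2 := by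
  intro R A A' _ _ _ _ _ _ p D j φ hj hφ s
  have hFT := finiteType D p.toTab hj
  obtain ⟨α, β, hα, hsl⟩ := p.slope_F
  have hF0 := F_ne p s
  have hpz : ∀ g : ℤ[X], g ≠ 0 → D.pz j g ≠ 0 := fun g hg h => hg (p.toTab.alg_injective
    (hj.inj (D.j_injective (by rw [map_zero, map_zero, map_zero]; exact h))))
  have hdvd : p.sec D j s ∣ D.pz j (p.F s) := D.fn_dvd_nm j p.toTab _ _
  have hσ : p.sec D j s ≠ 0 := fun h => hpz _ hF0 (zero_dvd_iff.1 (h ▸ hdvd))
  have key : ∀ P : zs (p.sec D j s), ∃ (c : p.Pn → ℝ) (J : Type) (_ : Fintype J) (m : J → ℝ)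
      (ϑ : J → ℂ), (∀ i, aeval (ϑ i) (p.FR s) = 0) ∧ D.pz j p.G ∉ P.1.asIdeal ∧
      ∀ (n : ℕ) (t : ℤ × ℤ) (x : Fin n → p.Pn), p.Adm t → p.Good t s x →
        φ P (p.fib D j t) = φ P (D.pz j p.G) / p.ρ + ∑ i, c (x i) +
          ∑ i, m i * (Real.log ‖ϑ i - (((t.1 : ℝ) / t.2 : ℝ) : ℂ)‖ -
            Real.log ‖aeval (ϑ i) p.G‖ / p.ρ) - (β : ℝ) / (α * p.ρ) * φ P (p.r : A') := by
    rintro ⟨P, hP⟩
    have hP' : D.pz j (p.F s) ∈ P.asIdeal := Ideal.mem_of_dvd _ hdvd ((mem_zs hσ).mp hP)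
    obtain ⟨K, _, _, π, hsurj, hker⟩ := exists_res P.asIdeal P.isMaximal
    have hk : ∀ h, π h = 0 ↔ h ∈ P.asIdeal := fun h => by rw [← hker, RingHom.mem_ker]
    let Φ : K → ℝ := fun z => φ P (hsurj z).choose
    have hΦ : ∀ h, Φ (π h) = φ P h := by
      intro h
      apply hφ.congr
      rw [← hk, map_sub, (hsurj _).choose_spec, sub_self]
    have hΦmul : ∀ a b, a ≠ 0 → b ≠ 0 → Φ (a * b) = Φ a + Φ b := by
      intro a b ha hb
      obtain ⟨a, rfl⟩ := hsurj a
      obtain ⟨b, rfl⟩ := hsurj b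
      rw [← map_mul, hΦ, hΦ, hΦ]
      exact hφ.mul _ _ _ (by rwa [← hk]) (by rwa [← hk])
    have hθ : aeval (π (D.pz j X)) (p.F s) = 0 := by rw [← D.map_pz, hk]; exact hP'
    obtain ⟨c, J, _, m, ϑ, h1, h2⟩ := field_part p s hRep hα (hsl s) K Φ hΦmul _ hθ
    refine ⟨c, J, inferInstance, m, ϑ, h1, ?_, fun n t x ht hx => ?_⟩
    · rw [← hk, D.map_pz]
      exact G_ne p s hθ
    · have h3 := h2 n t x ht hx
      rw [← D.map_pz, hΦ] at h3
      rw [← hΦ (p.fib D j t), ← hΦ (p.r : A'), Par.fib, D.map_pz]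
      simpa only [map_sub, map_mul, aeval_C, aeval_X, eq_intCast, map_intCast, map_natCast]
        using h3
  choose c J hJ m ϑ h1 h2 h3 using key
  have hFR : p.FR s ≠ 0 := by
    rw [Par.FR, Ne, Polynomial.map_eq_zero_iff (RingHom.injective_int _)]
    exact hF0
  obtain ⟨Q, q1, q2, q3⟩ := hArch (Σ P, J P) (fun i => (ord i.1.1 (p.sec D j s) : ℝ) * m i.1 i.2)
    (fun i => Real.log ‖aeval (ϑ i.1 i.2) p.G‖ / p.ρ) (fun i => ϑ i.1 i.2) (p.FR s) hFR
    (fun i => h1 i.1 i.2) (fun i i' h => by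
      rcases h with h | h
      · rw [h]
      · rw [h, norm_conj])
  refine ⟨fun x => ∑ P : zs (p.sec D j s), (ord P.1 (p.sec D j s) : ℝ) * c P x, Q, _,
    q1.trans (Nat.sub_le_sub_right (natDegree_map_le.trans (p.natDegree_F_le s)) 1), q2, q3,
    fun n t x ht hx => ?_⟩
  have ps : ∀ h, pair φ (p.sec D j s) h =
      ∑ P : zs (p.sec D j s), (ord P.1 (p.sec D j s) : ℝ) * φ P h := fun h => by
    rw [pair_eq_sum_zs φ hσ, ← sum_coe_sort]
  have b1 : pair φ (p.sec D j s) (p.r : A') = 0 := by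
    refine hφ.pair_unit_right hσ ?_
    have : IsUnit (p.r : ℚ) := isUnit_iff_ne_zero.mpr (by exact_mod_cast p.hr.ne_zero)
    simpa using this.map (algebraMap ℚ A')
  have b2 : pair φ (p.sec D j s) (D.pz j p.G) = p.beta D j φ := by
    rw [hφ.recip _ _ hσ (hpz _ p.monic.ne_zero)
      (isCoprime_of_forall fun P hP => h2 ⟨P, (mem_zs hσ).mpr hP⟩), Par.beta]
    exact hφ.pair_congr_right (D.pz_dvd_fn_sub j p.toTab
      (fun i => (dvd_mul_left _ _).trans (p.dvd_gp s i))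
      fun i => (dvd_mul_left _ _).trans (p.dvd_cp s i))
  rw [ps] at b1 b2
  rw [ps, ← b2, Fintype.sum_sigma, sum_comm, sum_div, ← sum_add_distrib, ← sum_add_distrib]
  refine Eq.trans ?_ (sub_zero _)
  rw [← mul_zero ((β : ℝ) / (α * p.ρ)), ← b1, mul_sum, ← sum_sub_distrib]
  refine sum_congr rfl fun P _ => ?_
  rw [h3 P n t x ht hx, ← mul_sum]
  simp only [mul_assoc]
  rw [← mul_sum]
  ring

end

end Pool.Agent.P.MP_b8021b_nt.VC
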