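import Pool.Agent.P.MP_b8021b_nt.VC.DefA

/-! Interface statements of part S. Each is proved in its own file of this folder. -/

namespace Pool.Agent.P.MP_b8021b_nt.VC

open Polynomial NumberField Finset Pool.Agent.P.MP_b8021b_nt.VE
open scoped Classical WithZero IntermediateField

/-- curve fields -/
def S_Crv : Prop :=
  (∀ (F M : Type) [Field F] [Field M] [Algebra ℚ F] [Algebra ℚ M] [Algebra F M]
    [FiniteDimensional F M], IsCurve F ↔ IsCurve M) ∧
  (∀ (k F : Type) [Field k] [NumberField k] [Field F] [Algebra k F] [Algebra ℚ F] (t : F),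
    Transcendental k t → (IsCurve F ↔ FiniteDimensional k⟮t⟯ F)) ∧
  (∀ (K : Type) [Field K] [NumberField K] [Algebra ℚ (RatFunc K)], IsCurve (RatFunc K) ∧
    (∀ (τ : K →+* Qb) (a : Qb), ∃! p : GPt (RatFunc K),
      (∀ b, p.Val (algebraMap K _ b) (τ b)) ∧ p.Val RatFunc.X a) ∧
    (∀ τ : K →+* Qb, ∃! p : GPt (RatFunc K),
      (∀ b, p.Val (algebraMap K _ b) (τ b)) ∧ p.Val RatFunc.X⁻¹ 0) ∧
    (∀ (p : GPt (RatFunc K)) (b : K), p.Val (RatFunc.X - algebraMap K _ b) 0 →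
      p.ord (RatFunc.X - algebraMap K _ b) = 1) ∧
    ∀ p : GPt (RatFunc K), p.Val RatFunc.X⁻¹ 0 → p.ord RatFunc.X = -1)

/-- finiteness -/
def S_Fin : Prop :=
  ∀ (F : Type) [Field F] [Algebra ℚ F], IsCurve F →
    (∀ f : F, f ≠ 0 → {p : GPt F | p.ord f ≠ 0}.Finite) ∧
    (∀ p : GPt F, ∃ L : IntermediateField ℚ Qb, FiniteDimensional ℚ L ∧
      ∀ c, c ∈ L ↔ ∃ a, p.Val a c) ∧
    (∀ f : F, Transcendental ℚ f → ∃ p : GPt F, 0 < p.ord f) ∧
    (∀ p p' : GPt F, p.v = p'.v ↔ ∃ σ : Qb ≃+* Qb, Gal σ p p') ∧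
    ∀ (σ : Qb ≃+* Qb) (p : GPt F), ∃! p', Gal σ p p'

/-- restriction of points along a finite extension -/
def S_Res : Prop :=
  ∀ (F M : Type) [Field F] [Field M] [Algebra ℚ F] [Algebra F M] [FiniteDimensional F M],
    IsCurve F → ∃ (res : GPt M → GPt F) (e : GPt M → ℕ),
      (∀ q p, Le (algebraMap F M) q p ↔ res q = p) ∧
      (∀ q, 1 ≤ e q ∧ ∀ a, q.ord (algebraMap F M a) = e q * (res q).ord a) ∧
      (∀ p, {q | res q = p}.Finite ∧ ∑ᶠ q ∈ {q | res q = p}, e q = Module.finrank F M) ∧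
      (IsGalois F M → ∀ q q', res q = res q' → ∃ g : M ≃ₐ[F] M, Le (g : M →+* M) q q')

/-- extension of a homomorphism to a point -/
def S_Extp : Prop :=
  ∀ (M : Type) [Field M] [Algebra ℚ M], IsCurve M → ∀ (B : Type) [CommRing B] (i : B →+* M)
    (f : B →+* Qb), (∀ b, i b = 0 → f b = 0) → (∃ b, i b ≠ 0 ∧ f b = 0) →
    ∃ q : GPt M, ∀ b, q.Val (i b) (f b)

/-- points over a point where the defining polynomial has distinct roots -/
def S_Split : Prop :=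
  ∀ (F M : Type) [Field F] [Field M] [Algebra ℚ F] [Algebra F M] [FiniteDimensional F M],
    IsCurve F → ∀ (u : M) (P : F[X]) (p : GPt F) (Pb : Qb[X]), P.Monic →
    P.natDegree = Module.finrank F M → aeval u P = 0 → F⟮u⟯ = ⊤ → Red p P Pb → Pb.Separable →
    (∀ c, Pb.IsRoot c → ∃! q : GPt M, Le (algebraMap F M) q p ∧ q.Val u c) ∧
      ∀ q : GPt M, Le (algebraMap F M) q p →
        (∃ c, Pb.IsRoot c ∧ q.Val u c) ∧ ∀ a, q.ord (algebraMap F M a) = p.ord a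

/-- irreducibility from the Newton polygon -/
def S_Eis : Prop :=
  ∀ (K : Type) [Field K] (v : Valuation K ℤᵐ⁰) (P : K[X]) (m : ℤ), P.Monic → 1 ≤ P.natDegree →
    EisV v P m → Irreducible P

/-- pull-back of functionals -/
def S_Trans : Prop :=
  ∀ (F M : Type) [Field F] [Field M] [Algebra ℚ F] [Algebra F M] [FiniteDimensional F M],
    IsCurve F → ∀ (res : GPt M → GPt F) (l : GPt F → Qb → ℝ),
    (∀ q, Le (algebraMap F M) q (res q)) →
    (KFn l → KFn fun q => l (res q)) ∧ (GFn l → GFn fun q => l (res q))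

/-- push-forward of functionals -/
def S_Push : Prop :=
  ∀ (F M : Type) [Field F] [Field M] [Algebra ℚ F] [Algebra F M] [FiniteDimensional F M],
    IsCurve F → ∀ (res : GPt M → GPt F) (e : GPt M → ℕ) (l : GPt M → Qb → ℝ),
    (∀ q, Le (algebraMap F M) q (res q)) →
    (∀ q a, q.ord (algebraMap F M a) = e q * (res q).ord a) → GFn l →
    GFn fun p u => ∑ᶠ q ∈ {q | res q = p}, (e q : ℝ) * l q u

/-- Weil reciprocity -/
def S_Weil : Prop :=
  ∀ (κ F : Type) [Field κ] [NumberField κ] [Field F] [Algebra κ F] [Algebra ℚ F], IsCurve F →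
    ∀ (μ : (κ →+* Qb) → Qb → ℝ) (τ : GPt F → κ →+* Qb),
    (∀ σ u v, u ≠ 0 → v ≠ 0 → μ σ (u * v) = μ σ u + μ σ v) →
    (∀ (p : GPt F) a, p.Val (algebraMap κ F a) (τ p a)) → KFn fun p => μ (τ p)

/-- the ring of functions regular outside a rational point -/
def S_CvEx : Prop :=
  ∀ (k F : Type) [Field k] [NumberField k] [Field F] [Algebra k F] [Algebra ℚ F], IsCurve F →
    ∀ O : GPt F, IsRat k O → ∃ (A : Subalgebra k F) (cv : Cv k A), (∀ a, a ∈ A ↔ Reg O a) ∧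
      IsFractionRing A F ∧ ∀ a : A, a ≠ 0 → O.ord (a : F) = -(cv.δ a : ℤ)

/-- the algebraic form of the theorem -/
def S_Alg : Prop :=
  ∀ (A A' : Type) [CommRing A] [Algebra ℚ A] [CommRing A'] [IsDedekindDomain A'] [Algebra ℚ A']
    (_ : Cv ℚ A) (r : ℕ) (D : Dbl A A' r) (φ : MaximalSpectrum A' → A' → ℝ), r.Prime → IsFn φ →
    Anti D.ι φ → ∀ (P : MaximalSpectrum A') (σ : A' →+* Qb) (γ : A'),
    RingHom.ker σ = P.asIdeal → RU r (σ γ) → φ P γ = 0

/-- anti-invariant functionals on a constant quadratic extension -/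
def S_Geo2 : Prop :=
  ∀ (F F' : Type) [Field F] [Field F'] [Algebra ℚ F] [Algebra F F'], IsCurve F →
    ∀ (r : ℕ) (ω : F') (ι : F' ≃ₐ[F] F') (O : GPt F) (l : GPt F' → Qb → ℝ), r.Prime →
    ω ^ 2 = -(r : F') → (∀ a : F', ∃ g c : F, a = algebraMap F F' g + algebraMap F F' c * ω) →
    ι ω = -ω → IsRat ℚ O → GFn l →
    (∀ q q', Le (ι : F' →+* F') q q' → ∀ u, u ≠ 0 → l q' u = -l q u) →
    ∀ q q' w, q.Val ω w → q'.Val ω w → ∀ u, RU r u → l q u = l q' u

/-- equivariant functionals -/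
def S_Geo : Prop :=
  ∀ (M G : Type) [Field M] [Algebra ℚ M] [Group G] [Finite G] [MulSemiringAction G M], IsCurve M →
    ∀ (χ : G →* ℤˣ) (r : ℕ) (ω : M) (O : GPt M) (l : GPt M → Qb → ℝ), r.Prime →
    ω ^ 2 = -(r : M) → (∀ g, g • ω = (χ g : ℤ) * ω) → (∃ g, χ g = -1) →
    (∀ a c, (∀ g : G, g • a = a) → O.Val a c → ∃ x : ℚ, c = x) → GFn l →
    (∀ g q q', Le (MulSemiringAction.toRingHom G M g) q q' → ∀ u, u ≠ 0 →
      l q' u = (χ g : ℤ) * l q u) →
    ∀ q q' w, q.Val ω w → q'.Val ω w → ∀ u, RU r u → l q u = l q' u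

/-- a fibre product of totally ramified covers -/
def S_Tower : Prop :=
  ∀ (K₀ : Type) [Field K₀] [Algebra ℚ K₀], IsCurve K₀ → ∀ (I : Type) [Fintype I] (P : I → K₀[X])
    (d : ℕ) (p : I → GPt K₀), 1 ≤ d →
    (∀ i, (P i).Monic ∧ (P i).natDegree = d ∧ ∃ m, EisV (p i).v (P i) m) →
    (∀ i j, i ≠ j → ∃ Pb, Red (p i) (P j) Pb ∧ Pb.Separable) →
    ∃ (M : Type) (_ : Field M) (_ : Algebra K₀ M) (_ : FiniteDimensional K₀ M) (u : I → M),
      (∀ i, aeval (u i) (P i) = 0) ∧ IntermediateField.adjoin K₀ (Set.range u) = ⊤ ∧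
      (∀ (p₀ : GPt K₀) (Pb : I → Qb[X]) (c : I → Qb),
        (∀ i, Red p₀ (P i) (Pb i) ∧ (Pb i).Separable ∧ (Pb i).IsRoot (c i)) →
        ∃! q : GPt M, Le (algebraMap K₀ M) q p₀ ∧ ∀ i, q.Val (u i) (c i)) ∧
      ∀ (γ : K₀ ≃+* K₀) (π : I ≃ I), (∀ i, (P i).map (γ : K₀ →+* K₀) = P (π i)) →
        ∃ g : M ≃+* M, (∀ a, g (algebraMap K₀ M a) = algebraMap K₀ M (γ a)) ∧
          ∀ i, g (u i) = u (π i)

/-- the functional is constant on almost all fibres of a function -/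
def S_Cov1 : Prop :=
  ∀ (k F : Type) [Field k] [NumberField k] [Field F] [Algebra k F] [Algebra ℚ F], IsCurve F →
    ∀ (O : GPt F) (l : GPt F → Qb → ℝ) (r : ℕ), IsRat k O → GFn l → r.Prime →
    ∃ (f : F) (S : Set Qb), Reg O f ∧ O.ord f < 0 ∧ S.Finite ∧ ∀ p p' a, SameC k O p →
      SameC k O p' → a ∉ S → p.Val f a → p'.Val f a → ∀ u, RU r u → l p u = l p' u

/-- curves with a rational point -/
def S_Cover : Prop :=
  ∀ (k F : Type) [Field k] [NumberField k] [Field F] [Algebra k F] [Algebra ℚ F], IsCurve F →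
    ∀ (O : GPt F) (l : GPt F → Qb → ℝ), IsRat k O → GFn l → ∀ p, SameC k O p →
    ∀ (b : k) c, b ≠ 0 → O.Val (algebraMap k F b) c → l p c = l O c

/-- all geometrically connected curves -/
def S_Const : Prop :=
  ∀ (k F : Type) [Field k] [NumberField k] [Field F] [Algebra k F] [Algebra ℚ F], IsCurve F →
    algebraicClosure k F = ⊥ → ∀ l : GPt F → Qb → ℝ, GFn l → ∀ p p', SameC k p p' →
    ∀ u, u ≠ 0 → l p u = l p' u

end Pool.Agent.P.MP_b8021b_nt.VC
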