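import Pool.Agent.P.MP_b8021b_nt.VC.StS
import Pool.Agent.P.MP_b8021b_nt.VE.BasicS

/-! Extension of the field of constants. -/

namespace Pool.Agent.P.MP_b8021b_nt.VC

open Polynomial Pool.Agent.P.MP_b8021b_nt.VE
open scoped Classical IntermediateField

namespace Const

variable {k F : Type} [Field k] [Field F] [Algebra k F]

/-- irreducible polynomials stay irreducible over a field in which `k` is algebraically closed -/
theorem irred (h : algebraicClosure k F = ⊥) {P : k[X]} (hm : P.Monic) (hP : Irreducible P) :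
    Irreducible (P.map (algebraMap k F)) := by
  have key : ∀ f : F[X], f.Monic → f ∣ P.map (algebraMap k F) →
      ∃ f' : k[X], f'.Monic ∧ f'.map (algebraMap k F) = f := fun f hf hd => by
    have h1 : f ∈ lifts (algebraMap k F) := by
      rw [lifts_iff_coeff_lifts]
      intro n
      have h2 := mem_algebraicClosure_iff'.2 (isIntegral_coeff_of_dvd P f hm hf hd n)
      rw [h] at h2
      exact IntermediateField.mem_bot.1 h2
    obtain ⟨f', h2, -, h3⟩ := lifts_and_degree_eq_and_monic h1 hf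
    exact ⟨f', h3, h2⟩
  have h1 : P ≠ 1 := hP.ne_one
  have h2 : P.map (algebraMap k F) ≠ 1 := fun e =>
    h1 (map_injective _ (algebraMap k F).injective (e.trans (Polynomial.map_one _).symm))
  rw [irreducible_of_monic (hm.map _) h2]
  intro f g hf hg e
  obtain ⟨f', hf', rfl⟩ := key f hf ⟨g, e.symm⟩
  obtain ⟨g', hg', rfl⟩ := key g hg ⟨_, e.symm.trans (mul_comm _ _)⟩
  rw [← Polynomial.map_mul] at e
  rcases (irreducible_of_monic hm h1).1 hP f' g' hf' hg'
    (map_injective _ (algebraMap k F).injective e) with rfl | rfl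
  · exact .inl (Polynomial.map_one _)
  · exact .inr (Polynomial.map_one _)

/-- the constant extension and its points -/
theorem ext (hS : S_Split) [Algebra ℚ F] (hF : IsCurve F) (h : algebraicClosure k F = ⊥)
    (κ : Type) [Field κ] [Algebra k κ] [CharZero k] [FiniteDimensional k κ] (ι : κ →+* Qb) :
    ∃ (M : Type) (_ : Field M) (_ : Algebra F M) (_ : FiniteDimensional F M) (φ : κ →+* M),
      ∀ p : GPt F, (∀ b, p.Val (algebraMap k F b) (ι (algebraMap k κ b))) →
        ∃! q : GPt M, Le (algebraMap F M) q p ∧ ∀ b, q.Val (φ b) (ι b) := by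
  let pb := Field.powerBasisOfFiniteOfSeparable k κ
  have hm : (minpoly k pb.gen).Monic := minpoly.monic pb.isIntegral_gen
  have hi : Irreducible (minpoly k pb.gen) := minpoly.irreducible pb.isIntegral_gen
  let Q : F[X] := (minpoly k pb.gen).map (algebraMap k F)
  have hQ : Q.Monic := hm.map _
  have : Fact (Irreducible Q) := ⟨irred h hm hi⟩
  have hfin : FiniteDimensional F (AdjoinRoot Q) := (AdjoinRoot.powerBasis hQ.ne_zero).finite
  have hr : aeval (AdjoinRoot.root Q) (minpoly k pb.gen) = 0 := by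
    rw [← aeval_map_algebraMap F, AdjoinRoot.aeval_eq, AdjoinRoot.mk_self]
  let φ : κ →ₐ[k] AdjoinRoot Q := pb.lift (AdjoinRoot.root Q) hr
  refine ⟨AdjoinRoot Q, inferInstance, inferInstance, hfin, φ, fun p hp => ?_⟩
  let τ : k →+* Qb := ι.comp (algebraMap k κ)
  obtain ⟨h1, -⟩ := hS F (AdjoinRoot Q) hF (AdjoinRoot.root Q) Q p ((minpoly k pb.gen).map τ) hQ
    ((AdjoinRoot.powerBasis hQ.ne_zero).finrank.symm)
    (by rw [AdjoinRoot.aeval_eq, AdjoinRoot.mk_self])
    (IntermediateField.adjoin_eq_top_of_algebra _ _ AdjoinRoot.adjoinRoot_eq_top)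
    (fun l => by rw [coeff_map, coeff_map]; exact hp _) (hi.separable.map)
  obtain ⟨q, ⟨q1, q2⟩, q3⟩ := h1 (ι pb.gen) (by
    rw [IsRoot, eval_map, ← hom_eval₂, ← aeval_def, minpoly.aeval, map_zero])
  refine ⟨q, ⟨q1, fun b => ?_⟩, fun q' hq' => q3 q' ⟨hq'.1, ?_⟩⟩
  · obtain ⟨g, rfl⟩ := pb.exists_eq_aeval' b
    have h2 := q.val_eval₂ (ι := algebraMap k (AdjoinRoot Q)) (τ := τ)
      (fun c => q1 _ _ (hp c)) q2 g
    rw [← hom_eval₂, ← aeval_def, ← aeval_def, ← pb.lift_aeval _ hr] at h2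
    exact h2
  · have h2 := hq'.2 pb.gen
    rwa [RingHom.coe_coe, pb.lift_gen] at h2

end Const

theorem p_const (hCrv : S_Crv) (hFin : S_Fin) (hRes : S_Res) (hSplit : S_Split) (hTrans : S_Trans) (hCover : S_Cover) : S_Const := by
  intro k F _ _ _ _ _ hF hac l hl p p' hpp u hu
  have : Algebra.IsAlgebraic ℚ Qb := AlgebraicClosure.isAlgebraic ℚ
  have : IsAlgClosure ℚ Qb := AlgebraicClosure.instIsAlgClosure ℚ
  obtain ⟨τ, hτ⟩ := p.exists_emb (algebraMap k F)
  obtain ⟨L, hL, hLv⟩ := (hFin F hF).2.1 p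
  have hu' : FiniteDimensional ℚ ℚ⟮u⟯ :=
    IntermediateField.adjoin.finiteDimensional (Algebra.IsIntegral.isIntegral u)
  let κ : IntermediateField ℚ Qb := L ⊔ ℚ⟮u⟯
  have hκ : ∀ a c, p.Val a c → c ∈ κ := fun a c h =>
    (le_sup_left : L ≤ κ) ((hLv c).2 ⟨a, h⟩)
  have huκ : u ∈ κ := (le_sup_right : ℚ⟮u⟯ ≤ κ) (IntermediateField.mem_adjoin_simple_self ℚ u)
  have : NumberField κ := {}
  let t : k →+* κ := (τ : k →+* Qb).codRestrict κ fun b => hκ _ _ (hτ b)
  let _ : Algebra k κ := t.toAlgebra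
  have : IsScalarTower ℚ k κ := IsScalarTower.of_algebraMap_eq' (Subsingleton.elim _ _)
  have : FiniteDimensional k κ := Module.Finite.of_restrictScalars_finite ℚ k κ
  obtain ⟨M, _, _, _, φ, hM⟩ := Const.ext hSplit hF hac κ (algebraMap κ Qb)
  obtain ⟨q, ⟨q1, q2⟩, q3⟩ := hM p hτ
  obtain ⟨q', ⟨q1', q2'⟩, -⟩ := hM p' fun b => hpp b _ (hτ b)
  let _ : Algebra κ M := φ.toAlgebra
  let _ : Algebra ℚ M := (φ.comp (algebraMap ℚ κ)).toAlgebra
  have hMc : IsCurve M := (hCrv.1 F M).1 hF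
  obtain ⟨res, -, hres, -⟩ := hRes F M hF
  have h1 := hCover κ M hMc q _ (fun a c h => ?_)
    ((hTrans F M hF res l fun q => (hres q _).2 rfl).2 hl) q'
    (fun b c h => (q2 b).unique h ▸ q2' b) ⟨u, huκ⟩ u (fun e => hu (congrArg Subtype.val e))
    (q2 ⟨u, huκ⟩)
  · beta_reduce at h1
    rw [(hres _ _).1 q1, (hres _ _).1 q1'] at h1
    exact h1.symm
  · obtain ⟨b, rfl⟩ := (InfiniteGalois.mem_range_algebraMap_iff_fixed (k := κ) c).2 fun σ => by
      obtain ⟨s, hs, -⟩ := (hFin M hMc).2.2.2.2 σ.toRingEquiv q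
      have e : ∀ a c, c ∈ κ → q.Val a c → s.Val a c := fun a c hc h => by
        have h2 := hs a c h
        rwa [show σ.toRingEquiv c = c from σ.commutes ⟨c, hc⟩] at h2
      obtain rfl := q3 s ⟨fun a c h => e _ c (hκ a c h) (q1 a c h), fun b => e _ _ b.2 (q2 b)⟩
      exact (hs a c h).unique h
    exact ⟨b, q2 b⟩

end Pool.Agent.P.MP_b8021b_nt.VC
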