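import Pool.Agent.P.MP_b8021b_nt.VC.DefA

/-! Interface statements of part A. Each is proved in its own file of this folder. -/

namespace Pool.Agent.P.MP_b8021b_nt.VC

open Polynomial NumberField Finset Pool.Agent.P.MP_b8021b_nt.VE
open scoped Classical ComplexConjugate

/-- the integral model -/
def S_Mod : Prop :=
  ∀ (A : Type) [CommRing A] [Algebra ℚ A] (cv : Cv ℚ A) (e₀ : ℕ) (P : Ideal A), P.IsMaximal →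
    ∃ (R : Type) (_ : CommRing R) (_ : Algebra ℤ[X] R) (m : Mod R) (j : R →+* A), Gen j ∧
      e₀ < m.e ∧ j (algebraMap ℤ[X] R m.G) ∈ P ∧ cv.δ (j (zR R)) = m.e ∧
      ∀ i, cv.δ (j (m.y i)) = m.δ i

/-- units outside `r` are generated up to torsion by units outside one prime over `r` -/
def S_UGen : Prop :=
  ∀ (r : ℕ) [Fact r.Prime] (K : Type) [Field K] [NumberField K] (σ : K →+* Qb) (Φ : K → ℝ),
    (∀ a b, a ≠ 0 → b ≠ 0 → Φ (a * b) = Φ a + Φ b) →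
    (∀ γ, RU r (σ γ) → (∃ τ₀ : K →+* PadicAlgCl r, ∀ τ : K →+* PadicAlgCl r, ‖τ γ‖ = 1 ∨
      ∃ g : PadicAlgCl r ≃ₐ[ℚ_[r]] PadicAlgCl r, ∀ a, τ a = g (τ₀ a)) → Φ γ = 0) →
    ∀ u, RU r (σ u) → Φ u = 0

/-- a power of a family of units outside `r` lies in the order with `r` inverted -/
def S_Ord : Prop :=
  ∀ (B : Type) [CommRing B] [Algebra ℚ B] [FiniteDimensional ℚ B] (O : Subring B) (r : ℕ) (x : B),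
    r.Prime → O.toAddSubgroup.FG → (∀ b, ∃ m : ℕ, 0 < m ∧ (m : B) * b ∈ O) →
    (∀ σ : B →+* Qb, RU r (σ x)) →
    ∃ n m : ℕ, 0 < n ∧ ∃ a ∈ O, ∃ a' ∈ O, (r : B) ^ m * x ^ n = a ∧ a * a' = (r : B) ^ (2 * m)

/-- two base sections that differ by a power of `γ` at `P` -/
def S_Rad : Prop :=
  ∀ (R A A' : Type) [CommRing R] [Algebra ℤ[X] R] [CommRing A] [Algebra ℚ A] [CommRing A']
    [IsDedekindDomain A'] [Algebra ℚ A'] (cv : Cv ℚ A) (r : ℕ) [Fact r.Prime] (D : Dbl A A' r)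
    (m : Mod R) (j : R →+* A) (σ : A' →+* Qb) (τ₀ : A' →+* PadicAlgCl r) (γ : A'), r < m.e →
    Gen j → cv.δ (j (zR R)) = m.e → (∀ i, cv.δ (j (m.y i)) = m.δ i) → σ (D.pz j m.G) = 0 →
    RU r (σ γ) → RingHom.ker τ₀ = RingHom.ker σ →
    (∀ τ : A' →+* PadicAlgCl r, RingHom.ker τ = RingHom.ker σ → ‖τ γ‖ = 1 ∨
      ∃ g : PadicAlgCl r ≃ₐ[ℚ_[r]] PadicAlgCl r, ∀ a, τ a = g (τ₀ a)) →
    ∃ (p p' : Par R) (n n' i a b : ℕ), p.toMod = m ∧ p'.toMod = m ∧ p.r = r ∧ p'.r = r ∧ 1 ≤ i ∧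
      ∀ Q : Ideal A', Q.IsMaximal → D.pz j m.G ∈ Q →
        (r : A') ^ a * D.fn j p.toTab p.g0 p.k0 ^ n * (if Q = RingHom.ker σ then γ ^ i else 1) -
          (r : A') ^ b * D.fn j p'.toTab p'.g0 p'.k0 ^ n' ∈ Q

/-- the base field exists -/
def S_BF : Prop :=
  ∀ r : ℕ, r.Prime → ∃ (k : Type) (_ : Field k) (_ : NumberField k) (_ : Algebra k ℂ) (K : BF k),
    K.D = -r

/-- the field of a fibre exists -/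
def S_FbEx : Prop :=
  ∀ (R : Type) [CommRing R] [Algebra ℤ[X] R] (p : Par R) (k : Type) [Field k] [NumberField k]
    [Algebra k ℂ] (K : BF k), K.D = -p.r → ∀ t, p.Adm t →
    ∃ (L : Type) (_ : Field L) (_ : NumberField L) (_ : Algebra k L), Nonempty (Fb p t k L)

/-- degrees, norms and homogeneous evaluation -/
def S_Deg : Prop :=
  ∀ (R : Type) [CommRing R] [Algebra ℤ[X] R] (p : Par R),
    (p.toTab.P.Monic ∧ p.toTab.P.natDegree = p.e ∧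
      ∀ l, p.e * (p.toTab.P.coeff l).natDegree ≤ (p.e - l) * p.δ p.toTab.i1) ∧
    (∀ t, (p.toTab.Pt t).Monic ∧ (p.toTab.Pt t).natDegree = p.e) ∧
    (p.Dp ≠ 0 ∧ 1 ≤ p.ρ ∧ 1 ≤ p.toTab.N0 ∧ 1 ≤ p.b0 ∧ ∀ i, p.d i + p.ρ + p.κ i = p.dd ∧ 2 ≤ p.d i) ∧
    (∀ s i, (p.gp s i).natDegree ≤ p.dd - p.κ i ∧ (p.cp s i).natDegree ≤ p.dd - p.κ i) ∧
    (∀ g c : Fin p.e → ℤ[X], (∀ i, (g i).natDegree ≤ p.dd - p.κ i) →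
      (∀ i, (c i).natDegree ≤ p.dd - p.κ i) → (p.toTab.nm p.r g c).natDegree ≤ 2 * p.e * p.dd ∧
      (p.toTab.nm p.r g c).coeff (2 * p.e * p.dd) =
        ((g p.toTab.i0).coeff p.dd ^ 2 + p.r * (c p.toTab.i0).coeff p.dd ^ 2) ^ p.e) ∧
    (∃ a b : ℕ, 0 < a ∧ ∀ s, Slope p.r (p.F s) p.G a b) ∧
    (∀ s, p.F s ≠ 0 ∧ (p.F s).natDegree = 2 * p.e * p.dd ∧
      ∃ (E : ℕ) (a b : ℤ[X]), a * p.F s + b * p.G = C ((p.r : ℤ) ^ E)) ∧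
    (∀ s, ∀ t : ℤ × ℤ, t.2 ≠ 0 →
      (p.N s t : ℝ) = (t.2 : ℝ) ^ (2 * p.e * p.dd) * (p.FR s).eval ((t.1 : ℝ) / t.2)) ∧
    ∀ s t, p.Adm t → (p.r : ℤ) ^ p.e0 ∣ p.N s t ∧ ¬ (p.r : ℤ) ^ (p.e0 + 1) ∣ p.N s t ∧
      p.Gt t ≠ 0 ∧ p.Dt t ≠ 0 ∧ t.1 < 0 ∧ ¬ (p.r : ℤ) ∣ p.Gt t ∧
      ∀ l : ℕ, l.Prime → l ≠ p.r → IsCoprime t.1 t.2 → (l : ℤ) ∣ p.Gt t → ¬ (l : ℤ) ∣ p.N s t

/-- arithmetic of the field of a fibre -/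
def S_QF : Prop :=
  ∀ (R : Type) [CommRing R] [Algebra ℤ[X] R] (p : Par R) (k : Type) [Field k] [NumberField k]
    [Algebra k ℂ] (K : BF k) (t : ℤ × ℤ) (L : Type) [Field L] [NumberField L] [Algebra k L]
    (Φ : Fb p t k L), K.D = -p.r → p.Adm t →
    (∃ c : 𝓞 L ≃+* 𝓞 L, (∀ (φ : L →+* ℂ) (a : 𝓞 L), φ (c a) = conj (φ a)) ∧
      c (K.om L) = -K.om L ∧ (∀ i, c (Φ.η i) = Φ.η i) ∧
      ∀ x, p.IsPt x → (Φ.J K x).map c = Φ.J K (p.inv x)) ∧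
    (∃ 𝔮 : Ideal (𝓞 L), 𝔮 ^ (2 * p.e) = Ideal.span {(p.r : 𝓞 L)}) ∧
    (∀ s, (Ideal.absNorm (Ideal.span {Φ.al K s}) : ℤ) = p.N s t) ∧
    (∀ x, p.IsPt x → p.OnT x t → Ideal.absNorm (Φ.J K x) = x.1 ∧
      ¬ (x.1 : ℤ) ∣ 2 * p.r * t.2 * p.Gt t * p.Dt t ∧ ∀ s, p.OnS x s ↔ Φ.al K s ∈ Φ.J K x) ∧
    (∀ x x', p.IsPt x → p.OnT x t → p.IsPt x' → p.OnT x' t → Φ.J K x = Φ.J K x' → x = x') ∧
    (∀ (q : ℕ) (I : Ideal (𝓞 L)), q.Prime → ¬ (q : ℤ) ∣ 2 * p.r * t.2 * p.Gt t * p.Dt t →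
      Ideal.absNorm I = q → ∃ x : p.Pn, x.1 = q ∧ p.IsPt x ∧ p.OnT x t ∧ Φ.J K x = I) ∧
    (∀ β : 𝓞 L, ∃ g c : Fin p.e → ℤ,
      (p.Mt t : 𝓞 L) * β = ∑ i, ((g i : 𝓞 L) + (c i : 𝓞 L) * K.om L) * Φ.η i) ∧
    (∀ g c : Fin p.e → ℚ, ∑ i, ((g i : L) + (c i : L) * (K.om L : 𝓞 L)) * (Φ.η i : 𝓞 L) = 0 →
      g = 0 ∧ c = 0) ∧
    ∀ 𝔮 : Ideal (𝓞 L), 𝔮 ^ (2 * p.e) = Ideal.span {(p.r : 𝓞 L)} →
      𝔮.IsMaximal ∧ Ideal.absNorm 𝔮 = p.r ∧ (∀ s, Φ.al K s ∈ 𝔮 ^ p.e0) ∧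
      ∀ (n : ℕ) (s : p.Co) (x : Fin n → p.Pn), p.Good t s x →
        Ideal.span {Φ.al K s} = 𝔮 ^ p.e0 * ∏ i, Φ.J K (x i)

/-- the archimedean part -/
def S_Arch2 : Prop :=
  ∀ (J : Type) [Fintype J] (m c : J → ℝ) (θ : J → ℂ) (F : ℝ[X]), F ≠ 0 →
    (∀ j, aeval (θ j) F = 0) → (∀ j j', θ j' = θ j ∨ θ j' = conj (θ j) → c j' = c j) →
    ∃ Q : ℝ[X], Q.natDegree ≤ F.natDegree - 1 ∧
      (∀ a : ℝ, F.eval a ≠ 0 → HasDerivAt (fun a : ℝ => ∑ j, m j * (Real.log ‖θ j - a‖ - c j))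
        (Q.eval a / F.eval a) a) ∧
      (Q = 0 → ∀ a : ℝ, ∑ j, m j * (Real.log ‖θ j - a‖ - c j) = 0)

/-- the fibre side of the cochain -/
def S_C1 : Prop :=
  ∀ (R A A' : Type) [CommRing R] [Algebra ℤ[X] R] [CommRing A] [CommRing A'] [IsDedekindDomain A']
    [Algebra ℚ A'] (p : Par R) (D : Dbl A A' p.r) (j : R →+* A)
    (φ : MaximalSpectrum A' → A' → ℝ), Gen j → IsFn φ → Anti D.ι φ → ∀ t, p.Adm t →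
    ∃ c₁ : p.Pn → ℝ, (∀ x, p.IsPt x → p.OnT x t → c₁ (p.inv x) = -c₁ x) ∧
      ∀ (n : ℕ) (s : p.Co) (x : Fin n → p.Pn), p.Good t s x →
        pair φ (p.sec D j s) (p.fib D j t) = ∑ i, c₁ (x i)

/-- the section side of the cochain -/
def S_C2 : Prop :=
  ∀ (R A A' : Type) [CommRing R] [Algebra ℤ[X] R] [CommRing A] [CommRing A'] [IsDedekindDomain A']
    [Algebra ℚ A'] (p : Par R) (D : Dbl A A' p.r) (j : R →+* A)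
    (φ : MaximalSpectrum A' → A' → ℝ), Gen j → IsFn φ → ∀ s : p.Co,
    ∃ (c₂ : p.Pn → ℝ) (Q : ℝ[X]) (Ar : ℝ → ℝ), Q.natDegree ≤ 2 * p.e * p.dd - 1 ∧
      (∀ a, (p.FR s).eval a ≠ 0 → HasDerivAt Ar (Q.eval a / (p.FR s).eval a) a) ∧
      (Q = 0 → ∀ a, Ar a = 0) ∧
      ∀ (n : ℕ) (t : ℤ × ℤ) (x : Fin n → p.Pn), p.Adm t → p.Good t s x →
        pair φ (p.sec D j s) (p.fib D j t) =
          p.beta D j φ / p.ρ + ∑ i, c₂ (x i) + Ar ((t.1 : ℝ) / t.2)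

/-- the core statement -/
def S_Core : Prop :=
  ∀ (R A A' : Type) [CommRing R] [Algebra ℤ[X] R] [CommRing A] [CommRing A'] [IsDedekindDomain A']
    [Algebra ℚ A'] (p : Par R) (D : Dbl A A' p.r) (j : R →+* A)
    (φ : MaximalSpectrum A' → A' → ℝ), Gen j → IsFn φ → Anti D.ι φ → p.beta D j φ = 0

end Pool.Agent.P.MP_b8021b_nt.VC
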