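import Pool.Agent.P.MP_b8021b_nt.VC.StS
import Pool.Agent.P.MP_b8021b_nt.VE.BasicS

/-! General lemmas for the Weil restriction cover. -/

namespace Pool.Agent.P.MP_b8021b_nt.VC

open Polynomial NumberField Finset Pool.Agent.P.MP_b8021b_nt.VE
open scoped Classical WithZero IntermediateField

namespace Cov1

/-- extension of a homomorphism to the field of fractions of an image -/
theorem ext_hom {R F M : Type} [CommRing R] [Field F] [Field M] (ψ : R →+* F) (ψ' : R →+* M)
    (hk : ∀ b, ψ b = 0 ↔ ψ' b = 0) (hs : ∀ x : F, ∃ a b, ψ b ≠ 0 ∧ x * ψ b = ψ a) :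
    ∃ j : F →+* M, ∀ a, j (ψ a) = ψ' a := by
  choose a b hb hx using hs
  have key : ∀ x a' b', ψ b' ≠ 0 → x * ψ b' = ψ a' → ψ' (a x) / ψ' (b x) = ψ' a' / ψ' b' := by
    intro x a' b' h1 h2
    have h3 : ψ' (b x) ≠ 0 := fun h => hb x ((hk _).2 h)
    have h4 : ψ' b' ≠ 0 := fun h => h1 ((hk _).2 h)
    have h5 : ψ (a x * b' - a' * b x) = 0 := by
      rw [map_sub, map_mul, map_mul, ← hx x, ← h2]; ring
    rw [hk, map_sub, map_mul, map_mul, sub_eq_zero] at h5
    rw [div_eq_div_iff h3 h4, h5]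
  have hb' : ∀ x, ψ' (b x) ≠ 0 := fun x h => hb x ((hk _).2 h)
  refine ⟨{ toFun := fun x => ψ' (a x) / ψ' (b x)
            map_one' := ?_
            map_mul' := fun x y => ?_
            map_zero' := ?_
            map_add' := fun x y => ?_ }, fun c => ?_⟩
  · rw [key 1 1 1 (by simp) (by simp)]; simp
  · rw [key (x * y) (a x * a y) (b x * b y) (by rw [map_mul]; exact mul_ne_zero (hb x) (hb y))
      (by rw [map_mul, map_mul, ← hx x, ← hx y]; ring), map_mul, map_mul, mul_div_mul_comm]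
  · rw [key 0 0 1 (by simp) (by simp)]; simp
  · rw [key (x + y) (a x * b y + b x * a y) (b x * b y)
      (by rw [map_mul]; exact mul_ne_zero (hb x) (hb y))
      (by rw [map_add, map_mul, map_mul, map_mul, ← hx x, ← hx y]; ring),
      div_add_div _ _ (hb' x) (hb' y), map_add, map_mul, map_mul, map_mul]
  · change ψ' (a (ψ c)) / ψ' (b (ψ c)) = ψ' c
    rw [key (ψ c) c 1 (by simp) (by simp)]; simp

theorem hom_ext {R F M : Type} [CommRing R] [Field F] [Field M] (ψ : R →+* F)
    (hs : ∀ x : F, ∃ a b, ψ b ≠ 0 ∧ x * ψ b = ψ a) {j j' : F →+* M}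
    (h : ∀ a, j (ψ a) = j' (ψ a)) : j = j' := by
  ext x
  obtain ⟨a, b, hb, hx⟩ := hs x
  rw [eq_div_of_mul_eq hb hx, map_div₀, map_div₀, h, h]

/-- a homomorphism of curve fields is finite -/
theorem fin_hom (hCrv : S_Crv) {F M : Type} [Field F] [Field M] [Algebra ℚ F] [Algebra ℚ M]
    (hF : IsCurve F) (hM : IsCurve M) [Algebra F M] : FiniteDimensional F M := by
  have : CharZero F := algebraRat.charZero F
  have : CharZero M := algebraRat.charZero M
  obtain ⟨t, ht, -⟩ := hF
  have hc : ∀ q : ℚ, algebraMap ℚ M q = algebraMap F M (algebraMap ℚ F q) := fun q => by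
    rw [eq_ratCast, eq_ratCast, map_ratCast]
  have : IsScalarTower ℚ F M := IsScalarTower.of_algebraMap_eq hc
  have ht' : Transcendental ℚ (algebraMap F M t) :=
    (transcendental_algebraMap_iff (algebraMap F M).injective).2 ht
  have h1 : FiniteDimensional ℚ⟮algebraMap F M t⟯ M := (hCrv.2.1 ℚ M _ ht').1 hM
  obtain ⟨s, hs⟩ := h1.fg_top
  refine ⟨⟨s, ?_⟩⟩
  rw [eq_top_iff]
  intro x _
  have hx : x ∈ Submodule.span ℚ⟮algebraMap F M t⟯ (s : Set M) := hs ▸ Submodule.mem_top
  have hle : ℚ⟮algebraMap F M t⟯ ≤ (IsScalarTower.toAlgHom ℚ F M).fieldRange :=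
    IntermediateField.adjoin_simple_le_iff.2 ⟨t, rfl⟩
  induction hx using Submodule.span_induction with
  | mem y hy => exact Submodule.subset_span hy
  | zero => exact zero_mem _
  | add y z _ _ hy hz => exact add_mem (hy trivial) (hz trivial)
  | smul c y _ hy =>
    obtain ⟨b, hb⟩ := hle c.2
    have : c • y = b • y := by
      rw [Algebra.smul_def, Algebra.smul_def]
      congr 1
      exact hb.symm
    rw [this]
    exact Submodule.smul_mem _ _ (hy trivial)

/-- restriction of points along a homomorphism of curve fields -/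
theorem res_hom (hCrv : S_Crv) (hRes : S_Res) (hTrans : S_Trans) {F M : Type} [Field F] [Field M]
    [Algebra ℚ F] [Algebra ℚ M] (hF : IsCurve F) (hM : IsCurve M) (j : F →+* M) :
    ∃ res : GPt M → GPt F, (∀ q p, Le j q p ↔ res q = p) ∧
      (∀ q a c, q.Val (j a) c → (res q).Val a c) ∧
      ∀ l : GPt F → Qb → ℝ, GFn l → GFn fun q => l (res q) := by
  let _ : Algebra F M := j.toAlgebra
  have := fin_hom hCrv hF hM
  obtain ⟨res, e, h1, h2, -⟩ := hRes F M hF
  refine ⟨res, h1, fun q a c h => ?_, fun l hl =>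
    (hTrans F M hF res l fun q => (h1 q _).2 rfl).2 hl⟩
  have h3 : a ∈ (res q).v.valuationSubring := by
    by_contra h3
    have h4 := ((res q).ord_neg_iff a).2 h3
    have h5 := q.ord_nonneg h.mem
    have h7 : q.ord (j a) = e q * (res q).ord a := (h2 q).2 a
    rw [h7] at h5
    have h6 : (1 : ℤ) ≤ e q := by exact_mod_cast (h2 q).1
    nlinarith
  obtain ⟨d, hd⟩ := (res q).exists_val h3
  exact ((h1 q _).2 rfl a d hd).unique h ▸ hd

theorem l_one {F : Type} [Field F] {l : GPt F → Qb → ℝ} (hl : KFn l) (p : GPt F) : l p 1 = 0 := by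
  have := hl.mul p 1 1 one_ne_zero one_ne_zero
  rw [mul_one] at this
  linarith

/-- linear combinations of functionals -/
theorem gfn_sum (hFin : S_Fin) {M : Type} [Field M] [Algebra ℚ M] (hM : IsCurve M) {I : Type}
    [Fintype I] (w : I → ℝ) (l : I → GPt M → Qb → ℝ) (hl : ∀ i, GFn (l i)) :
    GFn fun q u => ∑ i, w i * l i q u := by
  refine ⟨⟨fun p u v hu hv => ?_, fun f g hf hg c hc => ?_⟩, fun σ p p' h u hu => ?_⟩
  · rw [← sum_add_distrib]
    exact sum_congr rfl fun i _ => by rw [(hl i).mul p u v hu hv, mul_add]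
  · have hfin := ((hFin M hM).1 f hf).union ((hFin M hM).1 g hg)
    have h0 : ∀ i p, p ∉ hfin.toFinset → l i p (c p) = 0 := fun i p hp => by
      simp only [Set.Finite.mem_toFinset, Set.mem_union, Set.mem_ofPred_eq, not_or, not_not] at hp
      have h1 := hc p
      unfold Tm at h1
      rw [hp.1, hp.2, zpow_zero, zpow_zero, div_one] at h1
      rw [h1.unique p.val_one]
      exact l_one (hl i).toKFn p
    have h2 : ∀ i, ∑ p ∈ hfin.toFinset, l i p (c p) = 0 := fun i => by
      rw [← (hl i).symb f g hf hg c hc]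
      refine (finsum_eq_sum_of_support_subset _ fun p hp => ?_).symm
      by_contra h
      exact hp (h0 i p h)
    rw [finsum_eq_sum_of_support_subset (s := hfin.toFinset) _ fun p hp => ?_, sum_comm]
    · exact sum_eq_zero fun i _ => by rw [← mul_sum, h2, mul_zero]
    · by_contra h
      exact hp (sum_eq_zero fun i _ => by rw [h0 i p h, mul_zero])
  · exact sum_congr rfl fun i _ => by rw [(hl i).gal σ p p' h u hu]

/-- the valuation of a polynomial in a function with a pole -/
theorem v_eval {k E : Type} [Field k] [NumberField k] [Field E] (p : GPt E) (ι : k →+* E) {x : E}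
    (hx : 1 < p.v x) {c : k[X]} (hc : c ≠ 0) : p.v (c.eval₂ ι x) = p.v x ^ c.natDegree := by
  let _ : Algebra k E := ι.toAlgebra
  have : p.v.IsTrivialOn k := ⟨fun a ha =>
    (p.ord_eq_zero_iff ((_root_.map_ne_zero ι).2 ha)).1 (p.ord_alg ι a)⟩
  exact valuation_aeval_eq_valuation_X_pow_natDegree_of_one_lt_valuation_X x hx hc

theorem dvd_iff {R E : Type} [CommRing R] [Nontrivial R] [CommRing E] (ψ : R[X] →+* E) {P : R[X]}
    (hP : P.Monic) (h0 : ψ P = 0) (h : ∀ Q, Q.degree < P.degree → ψ Q = 0 → Q = 0) (Q : R[X]) :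
    ψ Q = 0 ↔ P ∣ Q := by
  refine ⟨fun hQ => ?_, fun ⟨S, hS⟩ => by rw [hS, map_mul, h0, zero_mul]⟩
  rw [← modByMonic_eq_zero_iff_dvd hP]
  refine h _ (degree_modByMonic_lt Q hP) ?_
  have h1 := modByMonic_add_div Q P
  have h2 := congrArg ψ h1
  rwa [map_add, map_mul, h0, zero_mul, add_zero, hQ] at h2

theorem galQ : IsGalois ℚ Qb := by
  have : Algebra.IsAlgebraic ℚ Qb := AlgebraicClosure.isAlgebraic ℚ
  have : IsAlgClosure ℚ Qb := ⟨inferInstance, inferInstance⟩
  infer_instance

theorem rat_of_fix {c : Qb} (h : ∀ σ : Qb ≃+* Qb, σ c = c) : ∃ x : ℚ, c = x := by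
  have := galQ
  obtain ⟨x, hx⟩ := (InfiniteGalois.mem_range_algebraMap_iff_fixed (k := ℚ) c).2
    fun σ => h σ.toRingEquiv
  exact ⟨x, by rw [← hx, eq_ratCast]⟩

theorem restrict {K : Type} [Field K] [NumberField K] [IsGalois ℚ K] (τ : K →+* Qb)
    (σ : Qb ≃+* Qb) : ∃ g : K ≃ₐ[ℚ] K, ∀ x, σ (τ x) = τ (g x) := by
  let _ : Algebra K Qb := τ.toAlgebra
  have : IsScalarTower ℚ K Qb := IsScalarTower.of_algebraMap_eq fun q => by
    rw [eq_ratCast, eq_ratCast, map_ratCast]
  exact ⟨AlgHom.restrictNormal' (σ : Qb →+* Qb).toRatAlgHom K, fun x =>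
    (AlgHom.restrictNormal_commutes (σ : Qb →+* Qb).toRatAlgHom K x).symm⟩

/-- a finite Galois number field that contains given data -/
theorem exists_gal {k : Type} [Field k] [NumberField k] (τ₀ : k →+* Qb) (x y : Qb) :
    ∃ (K : Type) (_ : Field K) (_ : NumberField K) (_ : IsGalois ℚ K) (τ : K →+* Qb) (ι : k →+* K)
      (x' y' : K), (∀ b, τ (ι b) = τ₀ b) ∧ τ x' = x ∧ τ y' = y := by
  have := galQ
  let b := Module.finBasis ℚ k
  let s : Set Qb := insert x (insert y (Set.range fun i => τ₀ (b i)))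
  have : Finite s := ((Set.finite_range _).insert y).insert x
  let K := FiniteGaloisIntermediateField.adjoin ℚ s
  have hs : s ⊆ K.toIntermediateField := FiniteGaloisIntermediateField.subset_adjoin ℚ s
  have hk : ∀ a, τ₀ a ∈ K.toIntermediateField := fun a => by
    rw [← b.sum_repr a, map_sum]
    refine sum_mem fun i _ => ?_
    rw [Algebra.smul_def, map_mul, eq_ratCast, map_ratCast]
    exact mul_mem (SubfieldClass.ratCast_mem _ _) (hs (Or.inr (Or.inr ⟨i, rfl⟩)))
  have hN : NumberField K.toIntermediateField := ⟨⟩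
  refine ⟨K.toIntermediateField, inferInstance, hN, ?_, K.toIntermediateField.val.toRingHom,
    τ₀.codRestrict K.toIntermediateField hk, ⟨x, hs (Or.inl rfl)⟩, ⟨y, hs (Or.inr (Or.inl rfl))⟩,
    fun _ => rfl, rfl, rfl⟩
  exact K.isGalois

end Cov1

end Pool.Agent.P.MP_b8021b_nt.VC
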