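import Pool.Agent.P.MP_b8021b_nt.VC.DefT

/-! Interface statements of part N (the design). Each is proved in its own file of this folder. -/

namespace Pool.Agent.P.MP_b8021b_nt.VC

open Polynomial NumberField Finset Pool.Agent.P.MP_b8021b_nt.VE
open scoped Classical ComplexConjugate

/-! ### counting -/

/-- upper bounds for the number of points -/
def S_Card : Prop :=
  ∀ (R : Type) [CommRing R] [Algebra ℤ[X] R] (p : Par R) (q : ℕ), (Xq p q).card ≤ 2 * p.e * q ∧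
    (∀ τ : ℕ, ((Xq p q).filter fun x => x.2.1 = τ).card ≤ 2 * p.e) ∧
    (∀ t : ℤ × ℤ, ((Xq p q).filter fun x => p.OnT x t).card ≤ 2 * p.e) ∧
    (∀ x, p.IsPt x → spl p.r x.1 ∧ x.2.2.2 p.toTab.i0 = 1) ∧
    (q.Prime → spl p.r q → 2 * ((range q ×ˢ range q).filter fun a : ℕ × ℕ =>
      (q : ℤ) ∣ (p.toTab.Pt ((a.1 : ℤ), 1)).eval (a.2 : ℤ) ∧
        ¬ (q : ℤ) ∣ p.G.eval (a.1 : ℤ) * p.Dp.eval (a.1 : ℤ)).card ≤ (Xq p q).card)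

/-- many points modulo a split prime -/
def S_Step : Prop :=
  ∀ (R : Type) [CommRing R] [Algebra ℤ[X] R] (p : Par R), ∃ q₀ : ℕ, ∀ q, q₀ ≤ q → q.Prime →
    spl p.r q → q ≤ (Xq p q).card

/-- split primes in short multiplicative intervals -/
def S_ThetaK : Prop :=
  ∀ r : ℕ, r.Prime → ∀ A : ℕ, ∃ y₀ : ℝ, ∀ y, y₀ ≤ y → ∀ N : ℕ, 1 ≤ N → (N : ℝ) ≤ Real.log y ^ A →
    (∀ i < N, y / (4 * N) ≤ ∑ q ∈ strat y N i with spl r q, Real.log q) ∧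
    (∀ i < N, ∑ q ∈ strat y N i, 2 * wk r y N q = 1) ∧
    ∀ q ∈ Pset y N, 0 ≤ wk r y N q ∧ wk r y N q ≤ 4 * N * Real.log y / y

/-- the weights of the design -/
def S_Wt : Prop :=
  ∀ (R : Type) [CommRing R] [Algebra ℤ[X] R] (p : Par R) (A : ℕ), ∃ y₀ : ℝ, ∀ y, y₀ ≤ y → ∀ N : ℕ,
    1 ≤ N → (N : ℝ) ≤ Real.log y ^ A →
    (∀ i < N, ∑ q ∈ strat y N i, wt p y N q ≤ 1 ∧
      ∑ q ∈ strat y N i, wt p y N q * ((Xq p q).card / q) = 1) ∧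
    (∀ i, ∀ q ∈ strat y N i, lv y N q = i) ∧
    ∀ q ∈ Pset y N, q.Prime ∧ y ≤ q ∧ q < 3 * y ∧ lv y N q < N ∧ q ∈ strat y N (lv y N q) ∧
      0 ≤ wt p y N q ∧ wt p y N q ≤ 2 * wk p.r y N q ∧ wt p y N q ≤ 8 * N * Real.log y / y ∧
      wt p y N q * (Xq p q).card = 2 * q * wk p.r y N q

/-- fibres in boxes and residue classes -/
def S_TEq : Prop :=
  ∀ (R : Type) [CommRing R] [Algebra ℤ[X] R] (p : Par R) (c : Cfg) (d : ℕ)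
    (S : Finset (ZMod d × ZMod d)) (τ₁ τ₂ B₁ B₂ : ℝ), c.τ0 ≤ -2 →
    0 < c.η → c.η ≤ 1 → 1 ≤ d → d.Coprime (Mf p c.z * p.r) →
    6 * (Mf p c.z * p.r ^ p.n0 * d : ℕ) ≤ c.η * c.B → c.τ0 ≤ τ₁ → τ₁ ≤ τ₂ → τ₂ ≤ c.τ0 + c.η →
    c.B ≤ B₁ → B₁ ≤ B₂ → B₂ ≤ c.B * (1 + c.η) →
    c.η ^ 2 * c.B / (2 * ((Mf p c.z * p.r ^ p.n0 : ℕ) : ℝ) ^ 2) ≤
      ∑ t ∈ Tset p c, ((t.2 : ℝ))⁻¹ ∧
    |∑ t ∈ Tset p c with τ₁ ≤ (t.1 : ℝ) / t.2 ∧ (t.1 : ℝ) / t.2 < τ₂ ∧ B₁ ≤ t.2 ∧ t.2 < B₂ ∧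
        ((t.1 : ZMod d), (t.2 : ZMod d)) ∈ S, wT p c t -
      (τ₂ - τ₁) * (B₂ - B₁) / (c.η ^ 2 * c.B) * (S.card / (d : ℝ) ^ 2)| ≤
      20 * (S.card / (d : ℝ) ^ 2) * ((Mf p c.z * p.r ^ p.n0 * d : ℕ) / (c.η * c.B))

/-- sections in residue classes -/
def S_SEq : Prop :=
  ∀ (R : Type) [CommRing R] [Algebra ℤ[X] R] (p : Par R), ∃ C : ℝ, 1 ≤ C ∧ ∀ (S0 L d : ℕ), 1 ≤ d →
    d ≤ L → ∑ s ∈ Sset p S0 L, wS p S0 L s = 1 ∧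
    (∀ S : Finset (p.Ix → ZMod d),
      |∑ s ∈ Sset p S0 L with (fun j => (s j : ZMod d)) ∈ S, wS p S0 L s -
        S.card / (d : ℝ) ^ Fintype.card p.Ix| ≤
        C * (d / L) * (S.card / (d : ℝ) ^ Fintype.card p.Ix)) ∧
    ∀ (t : ℤ × ℤ) (S : Finset ((Fin p.e → ZMod d) × (Fin p.e → ZMod d))),
      IsCoprime (d : ℤ) (p.Gt t * p.r) →
      |∑ s ∈ Sset p S0 L with (fun i => (p.gt s t i : ZMod d), fun i => (p.ct s t i : ZMod d)) ∈ S,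
          wS p S0 L s - S.card / (d : ℝ) ^ (2 * p.e)| ≤
        C * (d / L) * (S.card / (d : ℝ) ^ (2 * p.e))

/-- the base, the fibres and the cells -/
def S_IndT : Prop :=
  ∀ (R : Type) [CommRing R] [Algebra ℤ[X] R] (F : Fix R) (Nc : ℕ) [NeZero Nc] (ε : ℝ), 0 < ε →
    F.Ev fun c => (base F.p c.y c.N).OkK (4 * F.p.e) ε ∧
      (sideT F.p c).OkK (base F.p c.y c.N) (4 * F.p.e) ε ∧
      (box F.p c Nc).Ok (sideT F.p c) (base F.p c.y c.N) ε ∧ ∀ t ∈ Tset F.p c, F.p.Adm t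

/-- the sections -/
def S_IndS : Prop :=
  ∀ (R : Type) [CommRing R] [Algebra ℤ[X] R] (F : Fix R) (ε : ℝ), 0 < ε → F.Ev fun c =>
    (sideS F.p c.y c.N c.S0 c.L).OkK (base F.p c.y c.N) (4 * F.p.e) ε

/-- coordinates and embeddings are uniformly comparable -/
def S_Wc : Prop :=
  ∀ (R : Type) [CommRing R] [Algebra ℤ[X] R] (p : Par R), ∃ C : ℝ, 1 ≤ C ∧ ∀ (k : Type) [Field k]
    [NumberField k] [Algebra k ℂ] (K : BF k) (t : ℤ × ℤ) (L : Type) [Field L] [NumberField L]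
    [Algebra k L] (Φ : Fb p t k L), K.D = -p.r → p.Adm t →
    (∀ (i : Fin p.e) (φ : Emb k L), ‖φ (Φ.q (p.y i))‖ ≤ C) ∧
    ∀ (g c : Fin p.e → ℝ) (M : ℝ),
      (∀ φ : Emb k L, ‖∑ i, ((g i : ℂ) + c i * K.σ K.ω) * φ (Φ.q (p.y i))‖ ≤ M) →
      ∀ i, |g i| ≤ C * M ∧ |c i| ≤ C * M

/-- the norm form is almost constant; sizes -/
def S_Flat : Prop :=
  ∀ (R : Type) [CommRing R] [Algebra ℤ[X] R] (p : Par R), p.g1 ≠ 0 ∧ ∃ C : ℝ, 1 ≤ C ∧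
    ∀ F : Fix R, F.p = p → F.Ev fun c =>
    (∀ s ∈ Sset p c.S0 c.L, ∀ a ∈ Set.Icc p.τ0 (p.τ0 + c.η),
      |(p.FR s).eval a / (c.S0 * p.g1) ^ (2 * p.e) - 1| ≤ C * c.η) ∧
    (∀ t ∈ Tset p c, p.Adm t ∧ |(t.1 : ℝ)| ≤ C * c.B ∧ c.B ^ p.ρ ≤ C * |(p.Gt t : ℝ)| ∧
      |(p.Gt t : ℝ)| ≤ C * c.B ^ p.ρ ∧ |(p.Dt t : ℝ)| ≤ C * c.B ^ p.dD ∧
      (M0 p.r c.z : ℤ) ∣ p.Gt t ∧ 1 ≤ p.Mb t ∧ (p.Mb t : ℝ) ≤ c.y ^ p.cE) ∧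
    (∀ x x' t t', IsQ p c x x' t t' → (nn p x x' t t' : ℝ) ≤ c.y ^ p.cE ∧
      p.Mb t ∣ nn p x x' t t' ∧ p.Mb t' ∣ nn p x x' t t' ∧ M0 p.r c.z * p.r ∣ nn p x x' t t' ∧
      (dl t t' ≠ 0 → 2 ≤ nn p x x' t t')) ∧
    ∀ (k : Type) [Field k] [NumberField k] [Algebra k ℂ] (K : BF k) (t : ℤ × ℤ) (L : Type) [Field L]
      [NumberField L] [Algebra k L] (Φ : Fb p t k L), K.D = -p.r → t ∈ Tset p c →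
      Small k L (c.y ^ p.cE) ∧
      (∀ i, ‖emb k (Φ.η i)‖ ≤ C * c.B ^ p.κ i ∧ ‖emb k (Φ.η i)‖ ≤ c.y ^ p.cE) ∧
      ∀ s ∈ Sset p c.S0 c.L, ∀ φ,
        ‖emb k (Φ.al K s) φ / ((c.B ^ p.dd * (c.S0 * p.g1) : ℝ) : ℂ) - 1‖ ≤ C * c.η

/-- the field of a fibre has the properties used in the descent -/
def S_QF2 : Prop :=
  ∀ (R : Type) [CommRing R] [Algebra ℤ[X] R] (p : Par R) (k : Type) [Field k] [NumberField k]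
    [Algebra k ℂ] (K : BF k) (t : ℤ × ℤ) (L : Type) [Field L] [NumberField L] [Algebra k L]
    (Φ : Fb p t k L), K.D = -p.r → p.Adm t →
    NF K p.e (p.toTab.Pt t) (p.Mb t) (Φ.η p.toTab.i1) ∧ IsCM L ∧ Module.finrank ℚ L = 2 * p.e ∧
    (∀ (q : ℕ) (f : Ideal (𝓞 k) → ℂ), q.Prime → ¬ q ∣ p.Mb t →
      lam (fun I : Ideal (𝓞 L) => f (Ideal.relNorm (𝓞 k) I)) q = p.rho t q * lam f q) ∧
    ∀ q : ℕ, q.Prime → ¬ q ∣ p.Mb t → lam (fun _ : Ideal (𝓞 L) => 1) q = 2 * p.rho t q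

/-! ### the large sieve -/

/-- the large sieve for a family of fields -/
def S_Bom : Prop :=
  ∀ (k : Type) [Field k] [NumberField k] [Algebra k ℂ] (K : BF k) (e c : ℕ), ∃ δ : ℝ, 0 < δ ∧
    δ ≤ 1 / 100 ∧ ∀ A : ℕ, ∃ y₀ : ℝ, ∀ y, y₀ ≤ y → ∀ N : ℕ, 1 ≤ N → (N : ℝ) ≤ Real.log y ^ A →
    ∀ (ω : ℕ → ℝ) (J : Type) [Fintype J] (L : J → Type) [∀ j, Field (L j)] [∀ j, NumberField (L j)]
      [∀ j, Algebra k (L j)] (P : J → ℤ[X]) (M n : J → ℕ) (θ : ∀ j, 𝓞 (L j))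
      (χ : ∀ j, Ideal (𝓞 (L j)) →* ℂ) (i : ℕ) (g : ℝ), i < N → 1 ≤ g →
    (∀ q ∈ strat y N i, 0 ≤ ω q ∧ ω q ≤ 8 * N * Real.log y / y) →
    (∀ j, NF K e (P j) (M j) (θ j) ∧ ‖emb k (θ j)‖ ≤ y ^ c ∧ 1 ≤ n j ∧ M j ∣ n j ∧
      (n j : ℝ) ≤ y ^ c ∧ χ j ∈ Chs k (n j) (y ^ c) (y ^ c) ∧
      y ^ (-δ) ≤ ‖Smw ω y N i (lam (χ j))‖) →
    (∀ j, ((univ.filter fun j' => ¬ Wit (P j') (M j) ∨ Adj k (χ j) (χ j') (n j * n j')).card : ℝ) ≤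
      g) →
    (Fintype.card J : ℝ) ≤ g * y ^ (1 / 2 : ℝ)

/-- few fibres have no witness -/
def S_Mul : Prop :=
  ∀ (R : Type) [CommRing R] [Algebra ℤ[X] R] (F : Fix R) (a : ℕ), F.Ev fun c => ∀ M : ℕ, 1 ≤ M →
    (M : ℝ) ≤ c.y ^ a →
    (((Tset F.p c).filter fun t => IsCoprime t.1 t.2 ∧ ¬ Wit (F.p.toTab.Pt t) M).card : ℝ) ≤
      c.B ^ (3 / 2 : ℝ) * c.y ^ (1 / 4 : ℝ)

/-- the number of points on a fibre is close to its mean -/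
def S_Dev : Prop :=
  ∀ (R : Type) [CommRing R] [Algebra ℤ[X] R] (F : Fix R), F.Ev fun c => ∀ i < c.N, ∀ β : ℕ → ℂ,
    (∀ q, ‖β q‖ ≤ 2) →
    ∑ t ∈ Tset F.p c, wT F.p c t * ‖Smw (wt F.p c.y c.N) c.y c.N i (fun q => F.p.rho t q * β q) -
      Smw (wk F.p.r c.y c.N) c.y c.N i β‖ ^ 2 ≤ c.y ^ (-(9 / 10) : ℝ)

/-- few fibres are bad -/
def S_Bad : Prop :=
  ∀ (R : Type) [CommRing R] [Algebra ℤ[X] R] (p : Par R) (k : Type) [Field k] [NumberField k]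
    [Algebra k ℂ] (K : BF k) (a : ℕ), K.D = -p.r → ∃ δ : ℝ, 0 < δ ∧ ∀ (F : Fix R) (ε : ℝ), F.p = p →
    0 < ε → F.Ev fun c => ∀ (L : Tset p c → Type) [∀ t, Field (L t)] [∀ t, NumberField (L t)]
      [∀ t, Algebra k (L t)] (_ : ∀ t, Fb p t.1 k (L t)),
      ∑ t : Tset p c with IsCoprime t.1.1 t.1.2 ∧
        Bad k (L t) (wt p c.y c.N) (wk p.r c.y c.N) (p.Mb t.1) c.y c.N δ a, wT p c t.1 ≤ ε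

/-- Siegel-Walfisz and the large sieve over the base field -/
def S_E2 : Prop :=
  ∀ (k : Type) [Field k] [NumberField k] [Algebra k ℂ] (K : BF k) (r : ℕ), r.Prime → K.D = -r →
    ∀ c : ℕ, ∃ u₀ : ℕ, ∀ u, u₀ ≤ u → ∀ A : ℕ, ∃ C' : ℕ, ∀ A' : ℕ, ∃ y₀ : ℝ, ∀ y, y₀ ≤ y → ∀ N : ℕ,
    1 ≤ N → (N : ℝ) ≤ Real.log y ^ A → ∃ e : ℕ → ℝ, (∀ d, 0 ≤ e d) ∧
      ∑ d ∈ Finset.Icc 1 ⌊y ^ c⌋₊, e d ≤ Real.log y ^ C' ∧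
      ∑ d ∈ Finset.Icc 1 ⌊Real.log y ^ A'⌋₊, e d ≤ (Real.log y ^ A')⁻¹ ∧
      ∀ m : ℕ, 1 ≤ m → 2 ∣ m → (m : ℝ) ≤ y ^ c →
        Err k k (wk r y N) y N u m 0 ≤ ∑ d ∈ m.divisors, e d + 1 / y

/-- the error term of one field -/
def S_Err : Prop :=
  ∀ (k : Type) [Field k] [NumberField k] [Algebra k ℂ] (_ : BF k) (L : Type) [Field L]
    [NumberField L] [Algebra k L] (ω ωk : ℕ → ℝ) (M n N u c : ℕ) (y δ ϑ H ε : ℝ), 2 ≤ n → M ∣ n →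
    (n : ℝ) ≤ y ^ c → 0 < y → 0 ≤ ϑ → (∀ i < N, ∀ q ∈ strat y N i, 0 ≤ ω q ∧ ω q ≤ ϑ) →
    (Set.ncard (Chs k n ((N : ℝ) ^ 2) (y ^ c) : Set (Ideal (𝓞 L) →* ℂ)) : ℝ) ≤ H →
    ¬ Bad k L ω ωk M y N δ c →
    2 ^ u * Err k k ωk y N u (n ^ 2) 0 + 2 ^ u * H * N * (y ^ (-δ)) ^ u ≤ ε →
    y ^ (-δ) + ϑ * Module.finrank ℚ L * n.primeFactors.card ≤ ε → EqD k L ω y N u n (y ^ c) ε

/-- the modulus is rarely divisible by a given integer -/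
def S_Dvd : Prop :=
  ∀ (R : Type) [CommRing R] [Algebra ℤ[X] R] (p : Par R), ∃ c₀ : ℝ, 0 < c₀ ∧ ∀ F : Fix R, F.p = p →
    ∃ C : ℝ, F.Ev fun c => ∀ d : ℕ, 1 ≤ d → (d : ℝ) ≤ c.y ^ (2 * p.cE) →
    Qs p c (fun x x' t t' => if dl t t' ≠ 0 ∧ d ∣ nn p x x' t t' ^ 2 then 1 else 0) ≤
      C * ((d : ℝ) ^ (-c₀) + c.y ^ (-c₀))

/-- averages over the quadruples -/
def S_Pi : Prop :=
  ∀ (R : Type) [CommRing R] [Algebra ℤ[X] R] (p : Par R) (ε : ℝ), 0 < ε → ∃ z₀ : ℕ, ∀ F : Fix R,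
    F.p = p → z₀ ≤ F.z → ∃ C : ℝ, F.Ev fun c => Qs p c (fun _ _ _ _ => 1) ≤ 10 ∧
      Qs p c (fun x x' t t' => if dl t t' ≠ 0 then Pi p c.z (nn p x x' t t') - 1 else 0) ≤ ε ∧
      ∑ t ∈ Tset p c with ¬ IsCoprime t.1 t.2, wT p c t ≤ ε ∧
      ∀ ζ : ℝ, c.y⁻¹ ≤ ζ → Qs p c (fun _ _ t t' =>
        if |(t.1 : ℝ) / t.2 - (t'.1 : ℝ) / t'.2| < ζ then 1 else 0) ≤ C * ζ

/-- the characters of the base field modulo `n ^ 2` are rarely bad -/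
def S_E2avg : Prop :=
  ∀ (R : Type) [CommRing R] [Algebra ℤ[X] R] (p : Par R) (k : Type) [Field k] [NumberField k]
    [Algebra k ℂ] (K : BF k), K.D = -p.r → ∃ u₀ : ℕ, ∀ F : Fix R, F.p = p → u₀ ≤ F.u → ∀ A' : ℕ,
    F.Ev fun c => Qs p c (fun x x' t t' => if dl t t' ≠ 0 ∧ (Real.log c.y ^ A')⁻¹ <
      Err k k (wk p.r c.y c.N) c.y c.N F.u (nn p x x' t t' ^ 2) 0 then 1 else 0) ≤
      (Real.log c.y ^ A')⁻¹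

/-! ### transfer to the sections -/

/-- equidistribution of products of primes in one coset -/
def S_Cos : Prop :=
  ∀ (k : Type) [Field k] [NumberField k] [Algebra k ℂ] (_ : BF k) (e : ℕ), ∃ a : ℕ, 1 ≤ a ∧
    ∀ u : ℕ, 1 ≤ u → ∃ C : ℝ, 1 ≤ C ∧ ∀ (L : Type) [Field L] [NumberField L]
    [Algebra k L] (n N : ℕ) (𝔞 : Ideal (𝓞 L)) (α₀ : 𝓞 L) (y Q X ε Ω Λ : ℝ) (w : ℕ → ℝ)
    (ω : 𝓞 L → ℝ), Module.finrank k L = e → IsCM L → C ≤ Q → Small k L Q → 2 ≤ n → (n : ℝ) ≤ Q →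
    1 ≤ N → (N : ℝ) ≤ Q → 2 ≤ y → 𝔞 ≠ ⊥ → (Ideal.absNorm 𝔞 : ℝ) ≤ Q → UnitC n 𝔞 α₀ → Q ^ a ≤ X →
    X ^ (2 * e) = Ideal.absNorm 𝔞 * y ^ u → (∀ q ∈ Pset y N, 0 ≤ w q) →
    (∀ i, ∀ q ∈ strat y N i, lv y N q = i) → ε ≤ 1 → EqD k L w y N u n (Q ^ a) ε →
    0 ≤ Ω → 0 ≤ Λ → Λ ≤ Q →
    (∀ α, α - α₀ ∈ Ideal.span {(n : 𝓞 L)} * 𝔞 → |ω α| ≤ Ω ∧ (ω α ≠ 0 → Cmp k α)) →
    (∀ α α', α - α₀ ∈ Ideal.span {(n : 𝓞 L)} * 𝔞 → α' - α₀ ∈ Ideal.span {(n : 𝓞 L)} * 𝔞 →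
      |ω α - ω α'| ≤ Ω * (Λ * ‖emb k α - emb k α'‖ / X + (Q ^ a)⁻¹)) →
    ∃ s : Finset (𝓞 L), (∀ α ∈ s, α - α₀ ∈ Ideal.span {(n : 𝓞 L)} * 𝔞 ∧ Cmp k α) ∧
      (∀ α, α - α₀ ∈ Ideal.span {(n : 𝓞 L)} * 𝔞 → Cmp k α → α ∉ s →
        Wan w y N u 𝔞 α = 0 ∧ Lam y N u n 𝔞 α = 0) ∧
      |∑ α ∈ s, (Wan w y N u 𝔞 α - Lam y N u n 𝔞 α) * ω α| ≤
        C * Ω * Th k L N u n * (ε + (1 + Λ) / N) ∧
      ∑ α ∈ s, Wan w y N u 𝔞 α ≤ C * Th k L N u n ∧ ∑ α ∈ s, Lam y N u n 𝔞 α ≤ C * Th k L N u n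

/-- the weight of the fibres of the evaluation map -/
def S_Om : Prop :=
  ∀ (R : Type) [CommRing R] [Algebra ℤ[X] R] (F : Fix R) (k : Type) [Field k] [NumberField k]
    [Algebra k ℂ] (K : BF k), K.D = -F.p.r → ∃ C : ℝ, 1 ≤ C ∧ F.Ev fun c =>
    ∀ (t t' : ℤ × ℤ) (L L' : Type) [Field L] [NumberField L] [Algebra k L] [Field L']
    [NumberField L'] [Algebra k L'] (Φ : Fb F.p t k L) (Φ' : Fb F.p t' k L') (𝔟 : Ideal (𝓞 L))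
    (𝔟' : Ideal (𝓞 L')) (n₁ : ℕ) (s₀ : F.p.Co) (ζ Ω : ℝ), t ∈ Tset F.p c → t' ∈ Tset F.p c →
    IsCoprime t.1 t.2 → IsCoprime t'.1 t'.2 → c.y⁻¹ ≤ ζ →
    ζ ≤ |(t.1 : ℝ) / t.2 - (t'.1 : ℝ) / t'.2| → 1 ≤ n₁ → (n₁ : ℝ) ≤ c.y ^ (F.p.cE + 3) →
    (n₁ : 𝓞 L) ∈ 𝔟 → (n₁ : 𝓞 L') ∈ 𝔟' →
    𝔟 ≤ Ideal.span {((2 * (F.p.r : ℤ) ^ (F.p.n0 + 1) * F.p.Gt t * dl t t' * F.p.Dt t : ℤ) : 𝓞 L)} →
    𝔟' ≤ Ideal.span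
      {((2 * (F.p.r : ℤ) ^ (F.p.n0 + 1) * F.p.Gt t' * dl t t' * F.p.Dt t' : ℤ) : 𝓞 L')} →
    Ω = C * (∑ s ∈ Sset F.p c.S0 c.L with Φ.al K s - Φ.al K s₀ ∈ 𝔟 ∧ Φ'.al K s - Φ'.al K s₀ ∈ 𝔟',
        wS F.p c.S0 c.L s) * (Ideal.absNorm 𝔟 * cov2 k L) * (Ideal.absNorm 𝔟' * cov2 k L') /
        (ζ * c.L * c.B ^ F.p.dd) ^ (4 * F.p.e) →
    ∀ α₁ α₂ α₁' α₂', α₁ - Φ.al K s₀ ∈ 𝔟 → α₂ - Φ.al K s₀ ∈ 𝔟 →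
      α₁' - Φ'.al K s₀ ∈ 𝔟' → α₂' - Φ'.al K s₀ ∈ 𝔟' →
      om K Φ Φ' c α₁ α₁' ≤ Ω ∧
      |om K Φ Φ' c α₁ α₁' - om K Φ Φ' c α₂ α₂'| ≤
        Ω * (C * (‖emb k α₁ - emb k α₂‖ + ‖emb k α₁' - emb k α₂'‖) / (ζ * c.L * c.B ^ F.p.dd) +
          c.y ^ 13 / c.S0)

/-- pointwise bounds -/
def S_Sup : Prop :=
  ∀ (R : Type) [CommRing R] [Algebra ℤ[X] R] (p : Par R) (k : Type) [Field k] [NumberField k]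
    [Algebra k ℂ] (K : BF k), K.D = -p.r → ∃ a : ℕ, ∀ F : Fix R, F.p = p → ∃ C : ℝ, 1 ≤ C ∧
    F.Ev fun c => ∀ (x x' : p.Pn) (t : ℤ × ℤ) (L : Type) [Field L] [NumberField L] [Algebra k L]
      (_ : Fb p t k L), x ∈ Xset p c.y c.N → x' ∈ Xset p c.y c.N → t ∈ Tset p c →
      0 ≤ kap' L p c F.u x x' ∧
      (∀ s, 0 ≤ Wg p c F.u t s x x' ∧
        kap' L p c F.u x x' * Wg p c F.u t s x x' ≤ C * Real.log c.y ^ (F.u + a)) ∧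
      ∀ (𝔞 : Ideal (𝓞 L)) (α : 𝓞 L), α ≠ 0 → 0 ≤ Wan (wt p c.y c.N) c.y c.N F.u 𝔞 α ∧
        kap' L p c F.u x x' * Wan (wt p c.y c.N) c.y c.N F.u 𝔞 α ≤ C * Real.log c.y ^ (F.u + a)

/-- the value of a section lies in an ideal with the expected probability -/
def S_IdD : Prop :=
  ∀ (R : Type) [CommRing R] [Algebra ℤ[X] R] (p : Par R), ∃ C : ℝ, 1 ≤ C ∧ ∀ (k : Type) [Field k]
    [NumberField k] [Algebra k ℂ] (K : BF k) (t : ℤ × ℤ) (L : Type) [Field L] [NumberField L]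
    [Algebra k L] (Φ : Fb p t k L) (S0 L₀ d : ℕ) (𝔞 : Ideal (𝓞 L)), K.D = -p.r → p.Adm t → 1 ≤ d →
    d ≤ L₀ → d.Coprime (p.Mb t) → (d : 𝓞 L) ∈ 𝔞 →
    |(∑ s ∈ Sset p S0 L₀ with Φ.al K s ∈ 𝔞, wS p S0 L₀ s) * Ideal.absNorm 𝔞 - 1| ≤ C * (d / L₀)

/-- good tuples and factorisations -/
def S_WW : Prop :=
  ∀ (R : Type) [CommRing R] [Algebra ℤ[X] R] (F : Fix R), ∃ C : ℝ, 1 ≤ C ∧ F.Ev fun c =>
    ∀ (k : Type) [Field k] [NumberField k] [Algebra k ℂ] (K : BF k) (x x' : F.p.Pn) (t t' : ℤ × ℤ)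
    (L : Type) [Field L] [NumberField L] [Algebra k L] (Φ : Fb F.p t k L) (𝔮 : Ideal (𝓞 L)),
    K.D = -F.p.r → IsQ F.p c x x' t t' → dl t t' ≠ 0 →
    𝔮 ^ (2 * F.p.e) = Ideal.span {(F.p.r : 𝓞 L)} →
    Ideal.absNorm (Φ.a0 K 𝔮 x x') = F.p.r ^ F.p.e0 * x.1 * x'.1 ∧
    (∀ s, F.p.OnS x s ∧ F.p.OnS x' s ↔ Φ.al K s ∈ Φ.a0 K 𝔮 x x') ∧
    |Es F.p c x x' (fun _ => 1) - 1| ≤ c.y⁻¹ ∧
    Es F.p c x x' (fun s => if UnitC (nn F.p x x' t t') (Φ.a0 K 𝔮 x x') (Φ.al K s)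
      then 0 else 1) ≤ Pi F.p c.z (nn F.p x x' t t') - 1 ∧
    Es F.p c x x' (fun s => if Wg F.p c F.u t s x x' =
      (if UnitC (nn F.p x x' t t') (Φ.a0 K 𝔮 x x') (Φ.al K s)
        then Wan (wt F.p c.y c.N) c.y c.N F.u (Φ.a0 K 𝔮 x x') (Φ.al K s) else 0)
      then 0 else 1) ≤ C / c.y

/-- the size of the smooth model -/
def S_Lam1 : Prop :=
  ∀ (R : Type) [CommRing R] [Algebra ℤ[X] R] (p : Par R) (u : ℕ), ∃ C η₀ : ℝ, 1 ≤ C ∧ 0 < η₀ ∧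
    ∀ F : Fix R, F.p = p → F.u = u → F.η ≤ η₀ → F.Ev fun c =>
    ∀ (k : Type) [Field k] [NumberField k] [Algebra k ℂ] (K : BF k) (x x' : p.Pn) (t : ℤ × ℤ)
    (L : Type) [Field L] [NumberField L] [Algebra k L] (Φ : Fb p t k L) (𝔞 : Ideal (𝓞 L)) (n : ℕ)
    (X : ℝ), K.D = -p.r → x ∈ Xset p c.y c.N → x' ∈ Xset p c.y c.N → t ∈ Tset p c → 1 ≤ n →
    Ideal.absNorm 𝔞 = p.r ^ p.e0 * x.1 * x'.1 → 0 < X →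
    X ^ (2 * p.e) = Ideal.absNorm 𝔞 * c.y ^ u →
    (∀ s ∈ Sset p c.S0 c.L, |kap' L p c u x x' * Lam c.y c.N u n 𝔞 (Φ.al K s) -
      cc L (M0 p.r c.z * p.r) n| ≤ C * c.η * cc L (M0 p.r c.z * p.r) n ∧ Cmp k (Φ.al K s)) ∧
    kap' L p c u x x' * Th k L c.N u n * ((n : ℝ) ^ (2 * p.e) * cov2 k L) ≤
      C * cc L (M0 p.r c.z * p.r) n * c.y ^ u ∧
    X ≤ C * (c.S0 * c.B ^ p.dd) ∧ c.S0 * c.B ^ p.dd ≤ C * X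

/-- the pair correlation for one quadruple -/
def S_PairEst : Prop :=
  ∀ (R : Type) [CommRing R] [Algebra ℤ[X] R] (p : Par R) (k : Type) [Field k] [NumberField k]
    [Algebra k ℂ] (K : BF k), K.D = -p.r → ∃ a : ℕ, p.cE ≤ a ∧ ∀ u : ℕ, ∃ C η₀ : ℝ, 1 ≤ C ∧ 0 < η₀ ∧
    ∀ F : Fix R, F.p = p → F.u = u → F.η ≤ η₀ → a + 14 ≤ F.σ → F.Ev fun c =>
    ∀ (x x' : p.Pn) (t t' : ℤ × ℤ) (L L' : Type) [Field L] [NumberField L] [Algebra k L] [Field L']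
      [NumberField L'] [Algebra k L'] (_ : Fb p t k L) (_ : Fb p t' k L'), IsQ p c x x' t t' →
      (Real.log c.y ^ F.A)⁻¹ ≤ |(t.1 : ℝ) / t.2 - (t'.1 : ℝ) / t'.2| →
      EqD k L (wt p c.y c.N) c.y c.N u (nn p x x' t t') (c.y ^ a)
        (Real.log c.y ^ ((4 * p.e + 1) * F.A))⁻¹ →
      EqD k L' (wt p c.y c.N) c.y c.N u (nn p x x' t t') (c.y ^ a)
        (Real.log c.y ^ ((4 * p.e + 1) * F.A))⁻¹ →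
      |Es p c x x' fun s => (kap' L p c u x x' * Wg p c u t s x x' - 1) *
        (kap' L' p c u x x' * Wg p c u t' s x x' - 1)| ≤
        C * (Pi p c.z (nn p x x' t t') - 1 + c.η * Pi p c.z (nn p x x' t t'))

/-- the design is mixing -/
def S_Mix : Prop :=
  ∀ (R : Type) [CommRing R] [Algebra ℤ[X] R] (p : Par R), ∃ u₀ σ₀ : ℕ, ∀ u, u₀ ≤ u → ∀ ε : ℝ, 0 < ε →
    ∃ (η₀ : ℝ) (z₀ A₀ : ℕ), 0 < η₀ ∧ ∀ F : Fix R, F.p = p → F.u = u → F.η ≤ η₀ → z₀ ≤ F.z →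
    A₀ ≤ F.A → σ₀ ≤ F.σ → F.Ev fun c =>
      ∃ μ, Mix (base p c.y c.N) (sideT p c) (sideS p c.y c.N c.S0 c.L) u μ ε ∧
        ∀ t s x, μ t s x ≠ 0 → p.Good t.1 s.1 fun i => (x i).1

/-- two scales -/
def S_NT : Prop :=
  ∀ (R : Type) [CommRing R] [Algebra ℤ[X] R] (p : Par R), ∃ u, 6 ≤ u ∧ ∀ (Nc : ℕ) [NeZero Nc]
    (ε : ℝ), 0 < ε → ∃ (c : Cfg) (B' : ℝ),
    Fine p c u Nc ε ∧ Fine p { c with B := B' } (u + 1) Nc ε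

end Pool.Agent.P.MP_b8021b_nt.VC
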