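import Pool.Agent.P.MP_b8021b_nt.VC.PCore1
import Pool.Agent.P.MP_b8021b_nt.VC.StT

/-! The core statement from the cochain, the mixing designs and their rigidity. -/

namespace Pool.Agent.P.MP_b8021b_nt.VC

open Polynomial Finset Pool.Agent.P.MP_b8021b_nt.VE
open scoped Classical

namespace PCore

theorem abs {R : Type} [CommRing R] [Algebra ℤ[X] R] {p : Par R} {c : Cfg} {u Nc : ℕ} [NeZero Nc]
    {ε : ℝ} (h : Fine p c u Nc ε) :
    Abs p (4 * p.e) ε c.y u (base p c.y c.N) (sideT p c) (sideS p c.y c.N c.S0 c.L) (box p c Nc)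
      (fun x => x.1) (fun t => t.1) (fun s => s.1) where
  ypos := h.ypos
  box := h.box
  adm t := h.adm t.1 t.2
  pt x := (mem_Xset.1 x.2).2
  on _ _ hx := hx
  inv _ := rfl
  v _ := rfl
  τ _ := rfl
  bb _ := rfl
  pos s := h.pos s.1 s.2
  flat s := h.flat s.1 s.2
  des := h.des

end PCore

theorem p_core (hDeg : S_Deg) (hC1 : S_C1) (hC2 : S_C2) (hNT : S_NT) (hB : S_BK) : S_Core := by
  intro R A A' _ _ _ _ _ _ p D j φ hj hφ ha
  obtain ⟨u, hu, hN⟩ := hNT R p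
  refine PCore.core hDeg hC1 hC2 hB p D j hj hφ ha (4 * p.e) u hu fun Nc _ ε hε => ?_
  obtain ⟨c, B', f1, f2⟩ := hN Nc ε hε
  have g1 := PCore.abs f1
  have g2 := PCore.abs f2
  exact ⟨_, _, _, _, _, _, _, _, _, _, _, _, _, _, _, _, _, _, _, _, _, _, g1, g2⟩

end Pool.Agent.P.MP_b8021b_nt.VC
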