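import Pool.Agent.P.MP_b8021b_nt.VC.StS
import Pool.Agent.P.MP_b8021b_nt.VE.BasicS

/-! From the constancy of the functionals to the torsion statement. -/

namespace Pool.Agent.P.MP_b8021b_nt.VC

open Polynomial Finset Pool.Agent.P.MP_b8021b_nt.VE
open scoped Classical WithZero IntermediateField

noncomputable section

namespace Main

/-- an element that is not torsion modulo `N` is detected by a real functional -/
theorem exists_fun {G : Type} [AddCommGroup G] (N : AddSubgroup G) (D : G)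
    (h : ∀ n : ℕ, 0 < n → n • D ∉ N) : ∃ φ : G →+ ℝ, (∀ D' ∈ N, φ D' = 0) ∧ φ D ≠ 0 := by
  let f : ℤ →+ G ⧸ N := zmultiplesHom _ (QuotientAddGroup.mk D)
  have hf : Function.Injective f := by
    rw [injective_iff_map_eq_zero]
    intro a ha
    by_contra h0
    have h1 : a • D ∈ N := by
      rw [← QuotientAddGroup.eq_zero_iff, QuotientAddGroup.mk_zsmul]
      exact ha
    refine h a.natAbs (Int.natAbs_pos.2 h0) ?_
    rcases Int.natAbs_eq a with e | e
    · rw [← natCast_zsmul, ← e]; exact h1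
    · have e' : (a.natAbs : ℤ) = -a := by omega
      rw [← natCast_zsmul, e', neg_smul]; exact N.neg_mem h1
  obtain ⟨g, hg⟩ := (Module.Baer.of_divisible ℝ).extension_property_addMonoidHom f hf
    (Int.castAddHom ℝ)
  refine ⟨g.comp (QuotientAddGroup.mk' N), fun D' hD' => ?_, ?_⟩
  · change g (QuotientAddGroup.mk D') = 0
    rw [(QuotientAddGroup.eq_zero_iff D').2 hD', map_zero]
  · have h1 : g (f 1) = 1 := by
      have := DFunLike.congr_fun hg 1
      simpa using this
    have h2 : f 1 = QuotientAddGroup.mk D := by simp [f]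
    change g (QuotientAddGroup.mk D) ≠ 0
    rw [← h2, h1]
    exact one_ne_zero

section Nu

variable {K L : Type} [Field K] [Field L] {ψ : K → ℝ}

/-- additive on the nonzero elements -/
def Ad (ψ : K → ℝ) : Prop := ∀ a b, a ≠ 0 → b ≠ 0 → ψ (a * b) = ψ a + ψ b

theorem Ad.one (h : Ad ψ) : ψ 1 = 0 := by
  have := h 1 1 one_ne_zero one_ne_zero
  rw [mul_one] at this; linarith

theorem Ad.neg (h : Ad ψ) {a : K} (ha : a ≠ 0) : ψ (-a) = ψ a := by
  have h1 := h (-a) (-a) (neg_ne_zero.2 ha) (neg_ne_zero.2 ha)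
  have h2 := h a a ha ha
  rw [neg_mul_neg] at h1; linarith

theorem Ad.sign (h : Ad ψ) (n : ℤ) {a : K} (ha : a ≠ 0) : ψ ((-1) ^ n * a) = ψ a := by
  rcases Int.even_or_odd n with e | e
  · rw [e.neg_one_zpow, one_mul]
  · rw [e.neg_one_zpow, neg_one_mul, h.neg ha]

theorem Ad.prod (h : Ad ψ) {J : Type} (s : Finset J) (u : J → K) (hu : ∀ i ∈ s, u i ≠ 0) :
    ψ (∏ i ∈ s, u i) = ∑ i ∈ s, ψ (u i) := by
  induction s using Finset.induction_on with
  | empty => simpa using h.one
  | insert i s hi ih =>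
    rw [prod_insert hi, sum_insert hi, h _ _ (hu i (mem_insert_self _ _))
      (prod_ne_zero_iff.2 fun j hj => hu j (mem_insert_of_mem hj)),
      ih fun j hj => hu j (mem_insert_of_mem hj)]

theorem Ad.pow (h : Ad ψ) {a : K} (ha : a ≠ 0) (n : ℕ) : ψ (a ^ n) = n * ψ a := by
  have := h.prod (range n) (fun _ => a) fun _ _ => ha
  simpa using this

/-- the extension of `ψ` to an algebraic extension -/
def nu (ψ : K → ℝ) [Algebra K L] (x : L) : ℝ :=
  ψ ((minpoly K x).coeff 0) / (minpoly K x).natDegree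

theorem nu_norm [Algebra K L] [FiniteDimensional K L] (h : Ad ψ) {x : L} (hx : x ≠ 0) :
    ψ (Algebra.norm K x) = Module.finrank K L * nu ψ x := by
  have hi : IsIntegral K x := Algebra.IsIntegral.isIntegral x
  have h0 : (minpoly K x).coeff 0 ≠ 0 := minpoly.coeff_zero_ne_zero hi hx
  have h1 : Algebra.norm K (IntermediateField.AdjoinSimple.gen K x) =
      (-1) ^ ((minpoly K x).natDegree : ℤ) * (minpoly K x).coeff 0 := by
    have := Algebra.PowerBasis.norm_gen_eq_coeff_zero_minpoly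
      (IntermediateField.adjoin.powerBasis hi)
    rwa [IntermediateField.adjoin.powerBasis_gen, IntermediateField.adjoin.powerBasis_dim,
      IntermediateField.minpoly_gen, ← zpow_natCast] at this
  have h2 : ((minpoly K x).natDegree : ℝ) ≠ 0 := Nat.cast_ne_zero.2 (minpoly.natDegree_pos hi).ne'
  rw [Algebra.norm_eq_norm_adjoin K x, h1,
    h.pow (mul_ne_zero (zpow_ne_zero _ (neg_ne_zero.2 one_ne_zero)) h0), h.sign _ h0,
    ← Module.finrank_mul_finrank K K⟮x⟯ L, IntermediateField.adjoin.finrank hi, nu]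
  push_cast
  field_simp

theorem nu_ad [Algebra K L] [Algebra.IsAlgebraic K L] (h : Ad ψ) : Ad (nu ψ : L → ℝ) := by
  intro a b ha hb
  let M : IntermediateField K L := IntermediateField.adjoin K {a, b}
  have : FiniteDimensional K M :=
    IntermediateField.finiteDimensional_adjoin fun x _ => Algebra.IsIntegral.isIntegral x
  let a' : M := ⟨a, IntermediateField.subset_adjoin K _ (by simp)⟩
  let b' : M := ⟨b, IntermediateField.subset_adjoin K _ (by simp)⟩
  have ha' : a' ≠ 0 := fun e => ha (congrArg Subtype.val e)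
  have hb' : b' ≠ 0 := fun e => hb (congrArg Subtype.val e)
  have e : ∀ x : M, nu ψ x = nu ψ (x : L) := fun x => by
    rw [nu, nu, IntermediateField.minpoly_eq]
  have h1 := nu_norm h (mul_ne_zero ha' hb')
  rw [map_mul, h _ _ (Algebra.norm_ne_zero_iff.2 ha') (Algebra.norm_ne_zero_iff.2 hb'),
    nu_norm h ha', nu_norm h hb', ← mul_add, e, e, e] at h1
  exact (mul_left_cancel₀ (Nat.cast_ne_zero.2 Module.finrank_pos.ne') h1).symm

theorem nu_map [Algebra K L] (h : Ad ψ) {c : K} (hc : c ≠ 0) :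
    nu ψ (algebraMap K L c) = ψ c := by
  rw [nu, minpoly.eq_X_sub_C, natDegree_X_sub_C]
  simp [h.neg hc]

/-- the extension of `ψ` along an embedding -/
def nuE (ψ : K → ℝ) (e : K →+* Qb) (u : Qb) : ℝ := @nu K Qb _ _ ψ e.toAlgebra u

theorem nuE_ad (h : Ad ψ) (e : K →+* Qb) : Ad (nuE ψ e) := by
  have : Algebra.IsAlgebraic ℚ Qb := AlgebraicClosure.isAlgebraic ℚ
  have : CharZero K := (RingHom.charZero_iff e.injective).2 inferInstance
  let _ : Algebra K Qb := e.toAlgebra
  have : IsScalarTower ℚ K Qb := IsScalarTower.of_algebraMap_eq' (Subsingleton.elim _ _)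
  have : Algebra.IsAlgebraic K Qb := Algebra.IsAlgebraic.tower_top (K := ℚ) K
  exact nu_ad h

theorem nuE_map (h : Ad ψ) (e : K →+* Qb) {c : K} (hc : c ≠ 0) : nuE ψ e (e c) = ψ c :=
  @nu_map K Qb _ _ ψ e.toAlgebra h c hc

theorem nuE_gal (σ : Qb ≃+* Qb) (e : K →+* Qb) (u : Qb) :
    nuE ψ ((σ : Qb →+* Qb).comp e) (σ u) = nuE ψ e u := by
  have := @minpoly.algHom_eq K Qb Qb _ _ _ e.toAlgebra ((σ : Qb →+* Qb).comp e).toAlgebra
    (@AlgHom.mk K Qb Qb _ _ _ e.toAlgebra ((σ : Qb →+* Qb).comp e).toAlgebra (σ : Qb →+* Qb)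
      fun _ => rfl) σ.injective u
  exact congrArg (fun P : K[X] => ψ (P.coeff 0) / P.natDegree) this

end Nu

variable {k F : Type} [Field k] [NumberField k] [Field F] [Algebra k F]

/-- the closed point under a geometric point -/
def pl (k : Type) [Field k] [NumberField k] [Algebra k F] (p : GPt F) : Place k F :=
  ⟨p.v, p.surj, fun c hc =>
    (p.ord_eq_zero_iff ((_root_.map_ne_zero _).2 hc)).1 (p.ord_alg (algebraMap k F) c)⟩

/-- the embedding of the residue field -/
def em (k : Type) [Field k] [NumberField k] [Algebra k F] (p : GPt F) : (pl k p).κ →+* Qb :=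
  Ideal.Quotient.lift _ p.ρ fun a ha =>
    (p.ker a).2 ((Valuation.mem_maximalIdeal_iff F p.v).1 ha)

/-- the geometric point given by an embedding of the residue field -/
def gp (v : Place k F) (e : v.κ →+* Qb) : GPt F :=
  ⟨v.v, e.comp (IsLocalRing.residue _), v.surj, fun a => by
    rw [RingHom.comp_apply, _root_.map_eq_zero, IsLocalRing.residue_eq_zero_iff,
      Valuation.mem_maximalIdeal_iff]⟩

theorem em_gp (v : Place k F) (e : v.κ →+* Qb) : em k (gp v e) = e :=
  RingHom.ext fun x => by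
    obtain ⟨a, rfl⟩ := IsLocalRing.residue_surjective x
    rfl

/-- geometric points are closed points with an embedding of the residue field -/
def eqv : (Σ v : Place k F, (v.κ →+* Qb)) ≃ GPt F where
  toFun x := gp x.1 x.2
  invFun p := ⟨pl k p, em k p⟩
  left_inv x := Sigma.ext rfl (heq_of_eq (em_gp x.1 x.2))
  right_inv _ := GPt.ext_val rfl fun _ _ h => h

theorem alg [Algebra ℚ F] (hCrv : S_Crv) (hF : IsCurve F) (v : Place k F) :
    Algebra.IsAlgebraic k v.κ := by
  refine ⟨fun x => ?_⟩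
  obtain ⟨a, rfl⟩ := IsLocalRing.residue_surjective x
  by_contra htr
  have h1 : ∀ g : k[X], g ≠ 0 → v.v (aeval (a : F) g) = 1 := fun g hg => by
    have e1 : ((g.eval₂ v.const a : v.v.valuationSubring) : F) = aeval (a : F) g :=
      hom_eval₂ g v.const v.v.valuationSubring.subtype a
    have e2 : IsLocalRing.residue _ (g.eval₂ v.const a) = aeval (IsLocalRing.residue _ a) g :=
      hom_eval₂ g v.const (IsLocalRing.residue _) a
    rw [← e1]
    refine le_antisymm (g.eval₂ v.const a).2 (not_lt.1 fun h => htr ⟨g, hg, ?_⟩)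
    rw [← e2, IsLocalRing.residue_eq_zero_iff, Valuation.mem_maximalIdeal_iff]
    exact h
  have h2 : Transcendental k (a : F) := fun ⟨g, hg, e⟩ => by
    have := h1 g hg
    rw [e, map_zero] at this
    exact zero_ne_one this
  have h3 := (hCrv.2.1 k F a h2).1 hF
  have h4 : ∀ y : k⟮(a : F)⟯, (y : F) ∈ v.v.integer := fun y => by
    obtain ⟨r, s, e⟩ := (IntermediateField.mem_adjoin_simple_iff k (y : F)).1 y.2
    change v.v y ≤ 1
    rw [e]
    by_cases hr : r = 0
    · simp [hr]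
    by_cases hs : s = 0
    · simp [hs]
    rw [map_div₀, h1 r hr, h1 s hs, div_one]
  obtain ⟨f, hf⟩ := v.surj (WithZero.exp 1)
  have h5 : f ∈ v.v.integer := by
    refine (Valuation.integer.integers v.v).mem_of_integral ?_
    obtain ⟨q, hq, h0⟩ : IsIntegral k⟮(a : F)⟯ f := Algebra.IsIntegral.isIntegral f
    let j : k⟮(a : F)⟯ →+* v.v.integer := (algebraMap k⟮(a : F)⟯ F).codRestrict v.v.integer h4
    exact ⟨q.map j, hq.map j, by rw [eval₂_map]; exact h0⟩
  have h6 : v.v f ≤ 1 := h5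
  rw [hf, ← WithZero.exp_zero, WithZero.exp_le_exp] at h6
  omega

theorem nf [Algebra ℚ F] (hCrv : S_Crv) (hFin : S_Fin) (hF : IsCurve F) (v : Place k F) :
    NumberField v.κ := by
  have : CharZero v.κ := charZero_of_injective_algebraMap (algebraMap k v.κ).injective
  have := alg hCrv hF v
  have : IsScalarTower ℚ k v.κ := IsScalarTower.of_algebraMap_eq' (Subsingleton.elim _ _)
  have : Algebra.IsAlgebraic ℚ v.κ := Algebra.IsAlgebraic.trans ℚ k v.κ
  let e : v.κ →ₐ[ℚ] Qb := IsAlgClosed.lift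
  obtain ⟨L, hL, hLv⟩ := (hFin F hF).2.1 (gp v e)
  have h1 : ∀ x, e x ∈ L := fun x => by
    obtain ⟨a, rfl⟩ := IsLocalRing.residue_surjective x
    exact (hLv _).2 ⟨a, a.2, rfl⟩
  have : FiniteDimensional ℚ v.κ :=
    FiniteDimensional.of_injective (e.toLinearMap.codRestrict L.toSubmodule h1)
      fun x y h => e.injective (congrArg Subtype.val h)
  exact {}

/-- the degree of a closed point over the rationals -/
def dgr (v : Place k F) : ℕ := Module.finrank ℚ k * Module.finrank k v.κ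

/-- the functional on geometric points -/
def fn (ψ : ∀ v : Place k F, v.κ → ℝ) (p : GPt F) (u : Qb) : ℝ :=
  nuE (ψ (pl k p)) (em k p) u / dgr (pl k p)

theorem fn_gp (ψ : ∀ v : Place k F, v.κ → ℝ) (v : Place k F) (e : v.κ →+* Qb) (u : Qb) :
    fn ψ (gp v e) u = nuE (ψ v) e u / dgr v := by
  change nuE (ψ v) (em k (gp v e)) u / dgr v = _
  rw [em_gp]

theorem fn_ad {ψ : ∀ v : Place k F, v.κ → ℝ} (h : ∀ v, Ad (ψ v)) (p : GPt F) : Ad (fn ψ p) :=
  fun a b ha hb => by rw [fn, fn, fn, nuE_ad (h _) _ a b ha hb, add_div]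

theorem fn_gal (ψ : ∀ v : Place k F, v.κ → ℝ) (σ : Qb ≃+* Qb) (p p' : GPt F) (hv : p.v = p'.v)
    (h : Gal σ p p') (u : Qb) : fn ψ p' (σ u) = fn ψ p u := by
  obtain ⟨⟨v, e⟩, rfl⟩ := (eqv (k := k)).surjective p
  have : gp v ((σ : Qb →+* Qb).comp e) = p' :=
    GPt.ext_val hv fun a c ⟨h1, h2⟩ => h2 ▸ h a _ ⟨h1, rfl⟩
  rw [← this, fn_gp, nuE_gal]
  exact (fn_gp ψ v e u).symm

/-- the components of a functional on chains -/
def cmp (φ : Chain k F →+ ℝ) (v : Place k F) (c : v.κ) : ℝ :=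
  if h : c = 0 then 0 else φ (DFinsupp.single v (Additive.ofMul (Units.mk0 c h)))

omit [NumberField k] in
theorem cmp_ad (φ : Chain k F →+ ℝ) (v : Place k F) : Ad (cmp φ v) := fun a b ha hb => by
  rw [cmp, cmp, cmp, dif_neg ha, dif_neg hb, dif_neg (mul_ne_zero ha hb), ← map_add,
    ← DFinsupp.single_add, ← ofMul_mul, Units.mk0_mul]

omit [NumberField k] in
theorem cmp_sum (φ : Chain k F →+ ℝ) (D : Chain k F) (S : Finset (Place k F))
    (hS : D.support ⊆ S) :
    φ D = ∑ v ∈ S, cmp φ v ((Additive.toMul (D v) : v.κˣ) : v.κ) := by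
  have h1 : ∀ v, cmp φ v ((Additive.toMul (D v) : v.κˣ) : v.κ) = φ (DFinsupp.single v (D v)) :=
    fun v => by rw [cmp, dif_neg (Units.ne_zero _), Units.mk0_val, ofMul_toMul]
  simp only [h1]
  rw [← map_sum]
  congr 1
  ext1 w
  rw [DFinsupp.finsetSum_apply, sum_eq_single w]
  · rw [DFinsupp.single_eq_same]
  · exact fun v _ hv => DFinsupp.single_eq_of_ne hv.symm
  · intro hw
    rw [DFinsupp.single_eq_same]
    exact DFinsupp.notMem_support_iff.1 fun h => hw (hS h)

omit [NumberField k] in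
theorem tame (v : Place k F) {f g : F} (hf : f ≠ 0) (hg : g ≠ 0) :
    ∃ u : v.κˣ, v.IsTame f g u ∧ (v.ord f = 0 → v.ord g = 0 → u = 1) ∧
      ∀ e c, Tm (gp v e) f g c → e u = (-1) ^ (v.ord f * v.ord g) * c := by
  have hv : ∀ a : F, a ≠ 0 → v.v a = WithZero.exp (-v.ord a) := fun a ha => by
    rw [Place.ord, neg_neg, WithZero.exp_log (by simpa using ha)]
  have h1 : v.v ((-1) ^ (v.ord f * v.ord g) * f ^ v.ord g / g ^ v.ord f) = 1 := by
    rw [map_div₀, map_mul, map_zpow₀, map_zpow₀, map_zpow₀, Valuation.map_neg, map_one, one_zpow,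
      one_mul, hv f hf, hv g hg, ← WithZero.exp_zsmul, ← WithZero.exp_zsmul, ← WithZero.exp_sub,
      WithZero.exp_eq_one]
    simp only [smul_eq_mul]
    ring
  refine ⟨Units.mk0 (IsLocalRing.residue _ ⟨_, h1.le⟩) fun h => ?_, ⟨h1.le, rfl⟩,
    fun ha hb => Units.ext ?_, fun e c hc => ?_⟩
  · rw [IsLocalRing.residue_eq_zero_iff, Valuation.mem_maximalIdeal_iff] at h
    exact h.ne h1
  · rw [Units.val_mk0, Units.val_one, ← map_one (IsLocalRing.residue v.v.valuationSubring)]
    congr 1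
    refine Subtype.ext ?_
    simp [ha, hb]
  · have h2 : (gp v e).Val ((-1) ^ (v.ord f * v.ord g)) ((-1) ^ (v.ord f * v.ord g)) := by
      rcases Int.even_or_odd (v.ord f * v.ord g) with h | h
      · rw [h.neg_one_zpow, h.neg_one_zpow]; exact (gp v e).val_one
      · rw [h.neg_one_zpow, h.neg_one_zpow]; exact (gp v e).val_one.neg
    have h3 := h2.mul hc
    rw [← mul_div_assoc] at h3
    exact GPt.Val.unique (p := gp v e) ⟨h1.le, rfl⟩ h3

theorem card_emb (v : Place k F) [NumberField v.κ] : Fintype.card (v.κ →+* Qb) = dgr v := by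
  have : IsScalarTower ℚ k v.κ := IsScalarTower.of_algebraMap_eq' (Subsingleton.elim _ _)
  rw [NumberField.Embeddings.card, dgr, Module.finrank_mul_finrank]

theorem symb [Algebra ℚ F] (hCrv : S_Crv) (hFin : S_Fin) (hF : IsCurve F) (φ : Chain k F →+ ℝ)
    (hφ : ∀ D ∈ symbols k F, φ D = 0) {f g : F} (hf : f ≠ 0) (hg : g ≠ 0) (c : GPt F → Qb)
    (hc : ∀ p, Tm p f g (c p)) : ∑ᶠ p, fn (cmp φ) p (c p) = 0 := by
  have hN : ∀ v : Place k F, NumberField v.κ := nf hCrv hFin hF
  choose u hu1 hu2 hu3 using fun v : Place k F => tame v hf hg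
  let S : Finset (Place k F) :=
    (((hFin F hF).1 f hf).toFinset ∪ ((hFin F hF).1 g hg).toFinset).image (pl k)
  have hS : ∀ v, v ∉ S → u v = 1 := fun v hv => by
    obtain ⟨e⟩ : Nonempty (v.κ →+* Qb) := inferInstance
    have h1 : gp v e ∉ ((hFin F hF).1 f hf).toFinset ∪ ((hFin F hF).1 g hg).toFinset :=
      fun h => hv (mem_image.2 ⟨_, h, rfl⟩)
    simp only [mem_union, Set.Finite.mem_toFinset, Set.mem_ofPred_eq, not_or, not_not] at h1
    exact hu2 v h1.1 h1.2
  let D : Chain k F := DFinsupp.mk S fun v => Additive.ofMul (u v)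
  have hD : ∀ v, D v = Additive.ofMul (u v) := fun v => by
    by_cases hv : v ∈ S
    · exact DFinsupp.mk_of_mem hv
    · rw [hS v hv]; exact DFinsupp.mk_of_notMem hv
  have h0 := hφ D (AddSubgroup.subset_closure ⟨f, g, hf, hg, fun v => by rw [hD]; exact hu1 v⟩)
  rw [cmp_sum φ D S DFinsupp.support_mk_subset] at h0
  have h1 : ∀ v e, fn (cmp φ) (gp v e) (c (gp v e)) = cmp φ v (u v) / dgr v := fun v e => by
    have h2 := hu3 v e _ (hc _)
    have h3 : c (gp v e) ≠ 0 := fun h => by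
      rw [h, mul_zero] at h2
      exact (u v).ne_zero ((_root_.map_eq_zero e).1 h2)
    rw [← (fn_ad (cmp_ad φ) _).sign (v.ord f * v.ord g) h3, ← h2, fn_gp,
      nuE_map (cmp_ad φ v) e (u v).ne_zero]
  rw [← finsum_comp_equiv (eqv (k := k)), finsum_eq_sum_of_support_subset _
    (s := S.sigma fun _ => univ) fun x hx => ?_, sum_sigma, ← h0]
  · refine sum_congr rfl fun v _ => ?_
    have h2 : (dgr v : ℝ) ≠ 0 := by
      rw [← card_emb]; exact Nat.cast_ne_zero.2 Fintype.card_ne_zero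
    refine (sum_congr rfl fun e _ => h1 v e).trans ?_
    rw [sum_const, card_univ, card_emb, hD, nsmul_eq_mul,
      mul_div_cancel₀ _ h2]
    rfl
  · rw [mem_coe, mem_sigma]
    refine ⟨by_contra fun h => hx ?_, mem_univ _⟩
    refine (h1 x.1 x.2).trans ?_
    rw [hS _ h, Units.val_one, (cmp_ad φ _).one, zero_div]

end Main

open Main in
theorem p_main (hCrv : S_Crv) (hFin : S_Fin) (hConst : S_Const) : S_Main := by
  intro k F _ _ _ _ ⟨t, ht, hfin⟩ hac D hD
  by_contra hc
  obtain ⟨φ, hφ, hφD⟩ := exists_fun (symbols k F) D fun n hn h => hc ⟨n, hn, h⟩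
  have : CharZero F := charZero_of_injective_algebraMap (algebraMap k F).injective
  have hF : IsCurve F := (hCrv.2.1 k F t ht).2 hfin
  have hN : ∀ v : Place k F, NumberField v.κ := nf hCrv hFin hF
  have hl : GFn (fn (cmp φ)) :=
    { mul := fun p => fn_ad (cmp_ad φ) p
      symb := fun f g hf hg c hc => symb hCrv hFin hF φ hφ hf hg c hc
      gal := fun σ p p' h u _ => fn_gal _ σ p p' (((hFin F hF).2.2.2.1 p p').2 ⟨σ, h⟩) h u }
  obtain ⟨t', ht', -⟩ := id hF
  obtain ⟨p₀, -⟩ := (hFin F hF).2.2.1 t' ht'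
  obtain ⟨τ, hτ⟩ := p₀.exists_emb (algebraMap k F)
  let _ : Algebra k Qb := (τ : k →+* Qb).toAlgebra
  have hμ := fn_ad (cmp_ad φ) p₀
  have key : ∀ (v : Place k F) (c : v.κ), c ≠ 0 → cmp φ v c =
      Module.finrank ℚ k * fn (cmp φ) p₀ (algebraMap k Qb (Algebra.norm k c)) := fun v c hc => by
    have : IsScalarTower ℚ k v.κ := IsScalarTower.of_algebraMap_eq' (Subsingleton.elim _ _)
    have : FiniteDimensional k v.κ := Module.Finite.of_restrictScalars_finite ℚ k v.κ
    have h1 : ∀ e : v.κ →ₐ[k] Qb, fn (cmp φ) p₀ (e c) = cmp φ v c / dgr v := fun e => by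
      rw [hConst k F hF hac _ hl p₀ (gp v e) (fun b c' h => ?_) _ ((_root_.map_ne_zero e).2 hc),
        fn_gp]
      · exact congrArg (· / (dgr v : ℝ)) (nuE_map (cmp_ad φ v) (e : v.κ →+* Qb) hc)
      · exact ⟨(v.const b).2, (e.commutes b).trans ((hτ b).unique h)⟩
    have h2 : (Module.finrank ℚ k : ℝ) ≠ 0 := Nat.cast_ne_zero.2 Module.finrank_pos.ne'
    have h3 : (Module.finrank k v.κ : ℝ) ≠ 0 := Nat.cast_ne_zero.2 Module.finrank_pos.ne'
    rw [Algebra.norm_eq_prod_embeddings k Qb c,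
      hμ.prod _ _ fun e _ => (_root_.map_ne_zero e).2 hc, sum_congr rfl fun e _ => h1 e, sum_const,
      card_univ, AlgHom.card, nsmul_eq_mul, dgr]
    push_cast
    field_simp
  refine hφD ?_
  have h4 : ∀ v : Place k F,
      algebraMap k Qb (Algebra.norm k ((Additive.toMul (D v) : v.κˣ) : v.κ)) ≠ 0 := fun v => by
    have : IsScalarTower ℚ k v.κ := IsScalarTower.of_algebraMap_eq' (Subsingleton.elim _ _)
    have : FiniteDimensional k v.κ := Module.Finite.of_restrictScalars_finite ℚ k v.κ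
    exact (_root_.map_ne_zero _).2 (Algebra.norm_ne_zero_iff.2 (Units.ne_zero _))
  rw [cmp_sum φ D _ Subset.rfl, sum_congr rfl fun v _ => key v _ (Units.ne_zero _), ← mul_sum,
    ← hμ.prod _ _ fun v _ => h4 v, ← map_prod]
  have h5 : ∏ v ∈ D.support, Algebra.norm k ((Additive.toMul (D v) : v.κˣ) : v.κ) = 1 := hD
  rw [h5, map_one, hμ.one, mul_zero]

end

end Pool.Agent.P.MP_b8021b_nt.VC
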