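import Pool.Agent.P.MP_b8021b_nt.VC.StS
import Pool.Agent.P.MP_b8021b_nt.VE.BasicS

/-! Equivariant functionals: reduction to a constant quadratic extension. -/

namespace Pool.Agent.P.MP_b8021b_nt.VC

open Polynomial NumberField Finset Pool.Agent.P.MP_b8021b_nt.VE
open scoped Classical WithZero IntermediateField

namespace Geo

/-- the point `a ↦ q (g a)` -/
noncomputable def pl {M : Type} [Field M] (g : M ≃+* M) (q : GPt M) : GPt M where
  v := q.v.comap g.toRingHom
  ρ := q.ρ.comp ((g.toRingHom.comp (q.v.comap g.toRingHom).valuationSubring.subtype).codRestrict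
    q.v.valuationSubring.toSubring fun a => a.2)
  surj := q.surj.comp g.surjective
  ker a := q.ker ⟨g a, a.2⟩

theorem pl_Val {M : Type} [Field M] (g : M ≃+* M) (q : GPt M) (a : M) (c : Qb) :
    (pl g q).Val a c ↔ q.Val (g a) c := Iff.rfl

theorem val_down {F M : Type} [Field F] [Field M] {j : F →+* M} {q : GPt M} {p : GPt F} {e : ℕ}
    (h : Le j q p) (he : 1 ≤ e) (ho : ∀ a, q.ord (j a) = e * p.ord a) {a : F} {c : Qb}
    (h1 : q.Val (j a) c) : p.Val a c := by
  have h2 : a ∈ p.v.valuationSubring := by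
    by_contra h3
    have h4 := (p.ord_neg_iff a).2 h3
    have h5 := q.ord_nonneg h1.mem
    rw [ho] at h5
    have h6 : (1 : ℤ) ≤ e := by exact_mod_cast he
    nlinarith
  obtain ⟨d, hd⟩ := p.exists_val h2
  exact (h a d hd).unique h1 ▸ hd

end Geo

open Geo in
theorem p_geo (hCrv : S_Crv) (hRes : S_Res) (hPush : S_Push) (hGeo2 : S_Geo2) : S_Geo := by
  intro M G _ _ _ _ _ hM χ r ω O l hr hω hg ⟨g₀, hg₀⟩ hO hl heq q q' w hq hq' u hu
  have : CharZero M := algebraRat.charZero M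
  let F := FixedPoints.subfield G M
  let F' := FixedPoints.subfield χ.ker M
  have memF : ∀ a : M, a ∈ F ↔ ∀ g : G, g • a = a := fun a => Iff.rfl
  have memF' : ∀ a : M, a ∈ F' ↔ ∀ g : G, χ g = 1 → g • a = a := fun a =>
    ⟨fun h g h1 => h ⟨g, h1⟩, fun h g => h g g.2⟩
  have hle : F ≤ F' := fun a ha => (memF' a).2 fun g _ => (memF a).1 ha g
  let _ : Algebra F F' := (Subfield.inclusion hle).toAlgebra
  have halg : ∀ a : F, ((algebraMap F F' a : F') : M) = a := fun a => rfl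
  have cF : IsCurve F := (hCrv.1 F M).2 hM
  have cF' : IsCurve F' := (hCrv.1 F' M).2 hM
  have hω' : ω ∈ F' := (memF' ω).2 fun g h => by rw [hg g, h]; simp
  have hω0 : ω ≠ 0 := by
    rintro rfl
    have : (r : M) = 0 := by simpa using hω
    exact hr.ne_zero (Nat.cast_eq_zero.1 this)
  have hsm : ∀ (g : G) (a : M), a ∈ F' → g • a ∈ F' := fun g a ha => (memF' _).2 fun s hs => by
    have h1 := (memF' a).1 ha (g⁻¹ * s * g) (by simp [hs])
    rw [mul_smul, mul_smul, inv_smul_eq_iff] at h1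
    exact h1
  have hsq : ∀ a : M, a ∈ F' → g₀ • g₀ • a = a := fun a ha => by
    rw [← mul_smul]
    exact (memF' a).1 ha _ (by rw [map_mul, hg₀]; simp)
  have hneg : ∀ (s : G) (a : M), a ∈ F' → χ s = -1 → s • a = g₀ • a := fun s a ha hs => by
    have h1 := (memF' a).1 ha (g₀⁻¹ * s) (by rw [map_mul, map_inv, hg₀, hs]; simp)
    rwa [mul_smul, inv_smul_eq_iff] at h1
  let ι : F' ≃ₐ[F] F' :=
    { toFun := fun a => ⟨g₀ • (a : M), hsm g₀ a a.2⟩
      invFun := fun a => ⟨g₀ • (a : M), hsm g₀ a a.2⟩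
      left_inv := fun a => Subtype.ext (hsq a a.2)
      right_inv := fun a => Subtype.ext (hsq a a.2)
      map_mul' := fun a b => Subtype.ext (smul_mul' g₀ (a : M) (b : M))
      map_add' := fun a b => Subtype.ext (smul_add g₀ (a : M) (b : M))
      commutes' := fun a => Subtype.ext ((memF a).1 a.2 g₀) }
  have hι : ∀ a : F', ((ι a : F') : M) = g₀ • (a : M) := fun a => rfl
  have hgω : g₀ • ω = -ω := by rw [hg g₀, hg₀]; simp
  have hdec : ∀ a : F', ∃ g c : F,
      a = algebraMap F F' g + algebraMap F F' c * (⟨ω, hω'⟩ : F') := fun a => by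
    have h2 : ∀ s : G, s • (2 : M) = 2 := fun s => by
      rw [← one_add_one_eq_two, smul_add, smul_one]
    refine ⟨⟨((a : M) + g₀ • (a : M)) / 2, (memF _).2 fun s => ?_⟩,
      ⟨((a : M) - g₀ • (a : M)) / (2 * ω), (memF _).2 fun s => ?_⟩, Subtype.ext ?_⟩
    · rw [smul_div₀', smul_add, h2]
      rcases Int.units_eq_one_or (χ s) with h | h
      · rw [(memF' _).1 a.2 s h, (memF' _).1 (hsm g₀ a a.2) s h]
      · rw [hneg s _ a.2 h, hneg s _ (hsm g₀ a a.2) h, hsq _ a.2, add_comm]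
    · rw [smul_div₀', smul_sub, smul_mul', h2]
      rcases Int.units_eq_one_or (χ s) with h | h
      · rw [(memF' _).1 a.2 s h, (memF' _).1 (hsm g₀ a a.2) s h, (memF' _).1 hω' s h]
      · rw [hneg s _ a.2 h, hneg s _ (hsm g₀ a a.2) h, hsq _ a.2, hneg s _ hω' h, hgω]
        field_simp
        ring
    · change (a : M) = ((a : M) + g₀ • (a : M)) / 2 + ((a : M) - g₀ • (a : M)) / (2 * ω) * ω
      field_simp
      ring
  obtain ⟨res₀, e₀, r1, -, -, -⟩ := hRes F M cF
  obtain ⟨res, e, s1, s2, s3, s4⟩ := hRes F' M cF'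
  have hOr : IsRat ℚ (res₀ O) := fun a c h => by
    obtain ⟨x, rfl⟩ := hO a c ((memF _).1 a.2) ((r1 O _).2 rfl a c h)
    refine ⟨x, ?_⟩
    have := (res₀ O).val_rat x
    rwa [eq_ratCast (algebraMap ℚ Qb)] at this
  have hle' : ∀ q, Le (algebraMap F' M) q (res q) := fun q => (s1 q _).2 rfl
  have hl' := hPush F' M cF' res e l hle' (fun q => (s2 q).2) hl
  have hpos : (0 : ℝ) < Module.finrank F' M := by exact_mod_cast Module.finrank_pos
  have key : ∀ (q : GPt M) (u : Qb), u ≠ 0 →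
      ∑ᶠ q₁ ∈ {q₁ | res q₁ = res q}, (e q₁ : ℝ) * l q₁ u = Module.finrank F' M * l q u := by
    intro q u hu
    obtain ⟨f1, f2⟩ := s3 (res q)
    rw [finsum_mem_eq_finite_toFinset_sum _ f1] at f2 ⊢
    rw [← f2, Nat.cast_sum, sum_mul]
    refine sum_congr rfl fun q₁ h => ?_
    obtain ⟨g, hg1⟩ := s4 inferInstance q q₁ (f1.mem_toFinset.1 h).symm
    obtain ⟨s, rfl⟩ := FixedPoints.toAlgAut_surjective χ.ker M g
    rw [heq s q q₁ hg1 u hu, show χ s = 1 from s.2]
    simp
  have hsurj : ∀ p, ∃ q, res q = p := fun p => by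
    by_contra h
    obtain ⟨-, f2⟩ := s3 p
    rw [show {q | res q = p} = ∅ from Set.eq_empty_of_forall_notMem fun q h1 => h ⟨q, h1⟩,
      finsum_mem_empty] at f2
    exact Module.finrank_pos.ne f2
  have main := hGeo2 F F' cF r ⟨ω, hω'⟩ ι (res₀ O) _ hr (Subtype.ext (by simpa using hω)) hdec
    (Subtype.ext hgω) hOr hl' (fun p p' h v hv => by
      obtain ⟨q₁, rfl⟩ := hsurj p
      have h1 : res (pl (MulSemiringAction.toRingEquiv G M g₀) q₁) = p' :=
        (s1 _ _).1 fun a c h2 => (pl_Val _ _ _ _).2 (hle' q₁ _ c (h a c h2))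
      rw [← h1]
      rw [key _ v hv, key _ v hv, heq g₀ q₁ (pl (MulSemiringAction.toRingEquiv G M g₀) q₁)
        (fun a c h2 => h2) v hv, hg₀]
      simp)
    (res q) (res q') w (val_down (hle' q) (s2 q).1 (s2 q).2 hq)
    (val_down (hle' q') (s2 q').1 (s2 q').2 hq') u hu
  beta_reduce at main
  rw [key q u hu.1, key q' u hu.1] at main
  exact mul_left_cancel₀ hpos.ne' main

end Pool.Agent.P.MP_b8021b_nt.VC
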