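import Pool.Agent.P.MP_b8021b_nt.VC.StC2

/-! Shared lemmas for part C: arithmetic of the degree function, neighbourhoods, counting zeros. -/

namespace Pool.Agent.P.MP_b8021b_nt.VC

open Polynomial Finset Pool.Agent.P.MP_b8021b_nt.VE
open scoped Classical

noncomputable section

namespace Cv

variable {F A : Type} [Field F] [CommRing A] [Algebra F A] (cv : Cv F A)

include cv in
theorem dom : IsDomain A := haveI := cv.ded; inferInstance

theorem zero : cv.δ 0 = 0 := by simpa using cv.const 0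

theorem one : cv.δ 1 = 0 := by simpa using cv.const 1

include cv in
theorem alg_ne {a : F} (ha : a ≠ 0) : algebraMap F A a ≠ 0 := by
  have := cv.dom
  exact fun h => ha ((algebraMap F A).injective (by simpa using h))

theorem mem_L {n : ℕ} {f : A} : f ∈ cv.L n ↔ cv.δ f ≤ n := Iff.rfl

theorem L_mono {m n : ℕ} (h : m ≤ n) : cv.L m ≤ cv.L n := fun _ hf => le_trans hf h

theorem smul_le (a : F) (f : A) : cv.δ (a • f) ≤ cv.δ f :=
  (cv.L (cv.δ f)).smul_mem a (le_refl (cv.δ f))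

theorem smul_eq {a : F} (ha : a ≠ 0) (f : A) : cv.δ (a • f) = cv.δ f := by
  refine le_antisymm (cv.smul_le a f) ?_
  have := cv.smul_le a⁻¹ (a • f)
  rwa [smul_smul, inv_mul_cancel₀ ha, one_smul] at this

theorem neg (f : A) : cv.δ (-f) = cv.δ f := by
  simpa using cv.smul_eq (a := -1) (by simp) f

theorem sub (f g : A) : cv.δ (f - g) ≤ max (cv.δ f) (cv.δ g) := by
  rw [sub_eq_add_neg, ← cv.neg g]; exact cv.add _ _

theorem add_of_lt {f g : A} (h : cv.δ g < cv.δ f) : cv.δ (f + g) = cv.δ f := by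
  refine le_antisymm ((cv.add f g).trans (max_le le_rfl h.le)) ?_
  have h2 := cv.sub (f + g) g
  rw [add_sub_cancel_right] at h2
  rcases le_max_iff.1 h2 with h3 | h3
  · exact h3
  · omega

theorem add_of_gt {f g : A} (h : cv.δ f < cv.δ g) : cv.δ (f + g) = cv.δ g := by
  rw [add_comm]; exact cv.add_of_lt h

theorem sub_of_lt {f g : A} (h : cv.δ g < cv.δ f) : cv.δ (f - g) = cv.δ f := by
  rw [sub_eq_add_neg]; exact cv.add_of_lt (by rwa [cv.neg])

theorem sub_const {f : A} (h : 0 < cv.δ f) (a : F) : cv.δ (f - algebraMap F A a) = cv.δ f :=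
  cv.sub_of_lt (by rwa [cv.const])

theorem mul_le (f g : A) : cv.δ (f * g) ≤ cv.δ f + cv.δ g := by
  by_cases hf : f = 0
  · simp [hf, cv.zero]
  by_cases hg : g = 0
  · simp [hg, cv.zero]
  exact (cv.mul f g hf hg).le

theorem pow (f : A) (n : ℕ) : cv.δ (f ^ n) = n * cv.δ f := by
  have := cv.dom
  by_cases hf : f = 0
  · rcases n with _ | n <;> simp [hf, cv.zero, cv.one]
  induction n with
  | zero => simp [cv.one]
  | succ n ih => rw [pow_succ, cv.mul _ _ (pow_ne_zero _ hf) hf, ih]; ring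

theorem sum_le {ι : Type*} (s : Finset ι) (f : ι → A) (n : ℕ)
    (h : ∀ i ∈ s, cv.δ (f i) ≤ n) : cv.δ (∑ i ∈ s, f i) ≤ n :=
  (cv.L n).sum_mem h

theorem prod_eq {ι : Type*} (s : Finset ι) (f : ι → A) (h : ∀ i ∈ s, f i ≠ 0) :
    cv.δ (∏ i ∈ s, f i) = ∑ i ∈ s, cv.δ (f i) := by
  have := cv.dom
  induction s using Finset.induction_on with
  | empty => simp [cv.one]
  | insert a s ha ih =>
    rw [Finset.prod_insert ha, Finset.sum_insert ha, cv.mul _ _ (h a (by simp))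
      (Finset.prod_ne_zero_iff.2 fun i hi => h i (by simp [hi])), ih fun i hi => h i (by simp [hi])]

theorem ne_zero_of_pos {f : A} (h : 0 < cv.δ f) : f ≠ 0 := by
  rintro rfl; simp [cv.zero] at h

/-- the leading term can be removed -/
theorem lead (f g : A) (hg : g ≠ 0) (h : cv.δ f ≤ cv.δ g) :
    ∃ c : F, f = c • g ∨ cv.δ (f - c • g) < cv.δ g := by
  by_cases hf : f = 0
  · exact ⟨0, Or.inl (by simp [hf])⟩
  rcases h.eq_or_lt with h | h
  · obtain ⟨c, hc⟩ := cv.lc f g hf hg h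
    exact ⟨c, h ▸ hc⟩
  · exact ⟨0, Or.inr (by simpa using h)⟩

theorem exists_const {f : A} (h : cv.δ f = 0) : ∃ a : F, f = algebraMap F A a := by
  have := cv.dom
  obtain ⟨a, h1 | h1⟩ := cv.lead f 1 one_ne_zero (by omega)
  · exact ⟨a, by rw [h1, Algebra.algebraMap_eq_smul_one]⟩
  · simp [cv.one] at h1

theorem unit_zero {u : A} (hu : IsUnit u) : cv.δ u = 0 := by
  have := cv.dom
  obtain ⟨v, hv⟩ := hu.exists_right_inv
  have h1 := cv.mul u v hu.ne_zero (right_ne_zero_of_mul_eq_one hv)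
  rw [hv, cv.one] at h1
  omega

include cv in
/-- two functions with the same divisor are proportional -/
theorem smul_of_span_eq {f g : A} (h : Ideal.span {f} = Ideal.span {g}) :
    ∃ c : F, c ≠ 0 ∧ f = c • g := by
  have := cv.dom
  obtain ⟨u, hu⟩ := (Ideal.span_singleton_eq_span_singleton.1 h).symm
  obtain ⟨c, hc⟩ := cv.exists_const (cv.unit_zero u.isUnit)
  refine ⟨c, ?_, by rw [← hu, hc, Algebra.smul_def, mul_comm]⟩
  rintro rfl
  exact u.ne_zero (by simpa using hc)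

theorem le_of_dvd {f g : A} (hg : g ≠ 0) (h : f ∣ g) : cv.δ f ≤ cv.δ g := by
  obtain ⟨t, rfl⟩ := h
  rw [cv.mul _ _ (left_ne_zero_of_mul hg) (right_ne_zero_of_mul hg)]
  omega

theorem exists_pos : ∃ z : A, 0 < cv.δ z := by
  obtain ⟨n, hn⟩ := cv.cof
  obtain ⟨f, -, hf⟩ := hn (n + 1) (by omega)
  exact ⟨f, by omega⟩

theorem aeval_eq {z : A} (hz : 0 < cv.δ z) {p : F[X]} (hp : p ≠ 0) :
    aeval z p ≠ 0 ∧ cv.δ (aeval z p) = p.natDegree * cv.δ z := by
  have := cv.dom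
  induction p using Polynomial.recOnHorner with
  | M0 => exact absurd rfl hp
  | MC p a h0 ha ih =>
    by_cases hp0 : p = 0
    · subst hp0
      simp [cv.alg_ne ha, cv.const]
    obtain ⟨-, h2⟩ := ih hp0
    have hd : 0 < p.natDegree := by
      by_contra hh
      exact hp0 (by rw [eq_C_of_natDegree_eq_zero (by omega : p.natDegree = 0), h0, C_0])
    have h3 : 0 < cv.δ (aeval z p) := by rw [h2]; positivity
    have h4 : cv.δ (aeval z (p + C a)) = cv.δ (aeval z p) := by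
      rw [map_add, aeval_C]; exact cv.add_of_lt (by rwa [cv.const])
    exact ⟨cv.ne_zero_of_pos (by omega), by rw [h4, h2, natDegree_add_C]⟩
  | MX p hp0 ih =>
    obtain ⟨h1, h2⟩ := ih hp0
    have hz0 := cv.ne_zero_of_pos hz
    rw [map_mul, aeval_X]
    exact ⟨mul_ne_zero h1 hz0, by rw [cv.mul _ _ h1 hz0, h2, natDegree_mul_X hp0]; ring⟩

/-- a function that vanishes somewhere is not constant -/
theorem pos_of_zero {Ω : Type} [Field Ω] [Algebra F Ω] (P : A →ₐ[F] Ω) {f : A} (hf : f ≠ 0)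
    (h : P f = 0) : 0 < cv.δ f := by
  by_contra hh
  obtain ⟨a, rfl⟩ := cv.exists_const (f := f) (by omega)
  rw [AlgHom.commutes, map_eq_zero] at h
  exact hf (by simp [h])

/-- a non constant function that separates finitely many points -/
theorem exists_sep [Infinite F] {Ω : Type} [Field Ω] [Algebra F Ω] {T : Set (A →ₐ[F] Ω)}
    (hT : T.Finite) : ∃ w : A, 0 < cv.δ w ∧ Set.InjOn (fun P : A →ₐ[F] Ω => P w) T := by
  let S : Finset (Submodule F A) := insert (cv.L 0)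
    (((hT.toFinset ×ˢ hT.toFinset).filter fun x => x.1 ≠ x.2).image fun x =>
      LinearMap.ker (x.1.toLinearMap - x.2.toLinearMap))
  have hS : ⊤ ∉ S := by
    simp only [S, Finset.mem_insert, Finset.mem_image, Finset.mem_filter, not_or, not_exists,
      not_and, and_imp]
    refine ⟨fun h => ?_, fun x _ hx h => hx ?_⟩
    · obtain ⟨z, hz⟩ := cv.exists_pos
      have : z ∈ cv.L 0 := h ▸ Submodule.mem_top
      rw [mem_L] at this
      omega
    · rw [LinearMap.ker_eq_top, sub_eq_zero] at h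
      exact AlgHom.toLinearMap_injective h
  have h1 := Subspace.biUnion_ne_univ_of_top_notMem hS
  obtain ⟨w, hw⟩ := (Set.ne_univ_iff_exists_notMem _).1 h1
  simp only [Set.mem_iUnion, not_exists] at hw
  refine ⟨w, ?_, fun P hP Q hQ h => ?_⟩
  · by_contra hh
    exact hw (cv.L 0) (by simp [S]) (by rw [SetLike.mem_coe, mem_L]; omega)
  · by_contra hh
    refine hw (LinearMap.ker (P.toLinearMap - Q.toLinearMap)) ?_ ?_
    · simp only [S, Finset.mem_insert, Finset.mem_image, Finset.mem_filter]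
      exact Or.inr ⟨(P, Q), ⟨by simp [hP, hQ], hh⟩, rfl⟩
    · simpa [sub_eq_zero] using h

end Cv

section Near

variable {F A Ω : Type} [Field F] [CommRing A] [Algebra F A] [NormedField Ω] [Algebra F Ω]

theorem mem_near {W : Finset A} {ε : ℝ} {P Q : A →ₐ[F] Ω} :
    P ∈ Near W ε Q ↔ ∀ w ∈ W, ‖P w - Q w‖ < ε := Iff.rfl

theorem near_self (W : Finset A) {ε : ℝ} (hε : 0 < ε) (P : A →ₐ[F] Ω) : P ∈ Near W ε P :=
  fun w _ => by simpa using hε

theorem near_mono {W W' : Finset A} {ε ε' : ℝ} (hW : W ⊆ W') (hε : ε' ≤ ε) (P : A →ₐ[F] Ω) :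
    Near W' ε' P ⊆ Near W ε P := fun _ hQ w hw => (hQ w (hW hw)).trans_le hε

theorem near_symm {W : Finset A} {ε : ℝ} {P Q : A →ₐ[F] Ω} (h : P ∈ Near W ε Q) :
    Q ∈ Near W ε P := fun w hw => by rw [norm_sub_rev]; exact h w hw

theorem near_trans {W : Finset A} {ε ε' : ℝ} {P Q R : A →ₐ[F] Ω} (h : P ∈ Near W ε Q)
    (h' : Q ∈ Near W ε' R) : P ∈ Near W (ε + ε') R := fun w hw =>
  (norm_sub_le_norm_sub_add_norm_sub _ (Q w) _).trans_lt (add_lt_add (h w hw) (h' w hw))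

theorem near_trans_ultra [IsUltrametricDist Ω] {W : Finset A} {ε : ℝ} {P Q R : A →ₐ[F] Ω}
    (h : P ∈ Near W ε Q) (h' : Q ∈ Near W ε R) : P ∈ Near W ε R := fun w hw => by
  have := IsUltrametricDist.norm_add_le_max (P w - Q w) (Q w - R w)
  rw [sub_add_sub_cancel] at this
  exact this.trans_lt (max_lt (h w hw) (h' w hw))

/-- the basic neighbourhoods are open -/
theorem near_open {W : Finset A} {ε : ℝ} {P Q : A →ₐ[F] Ω} (h : P ∈ Near W ε Q) :
    ∃ ε' : ℝ, 0 < ε' ∧ Near W ε' P ⊆ Near W ε Q := by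
  have : ∀ S : Finset A, S ⊆ W → ∃ ε' : ℝ, 0 < ε' ∧ ∀ w ∈ S, ε' + ‖P w - Q w‖ ≤ ε := by
    intro S
    induction S using Finset.induction_on with
    | empty => exact fun _ => ⟨1, one_pos, by simp⟩
    | insert a S _ ih =>
      intro hS
      obtain ⟨e, he, h2⟩ := ih ((Finset.subset_insert _ _).trans hS)
      have h3 := h a (hS (by simp))
      refine ⟨min e (ε - ‖P a - Q a‖), lt_min he (by linarith), fun w hw => ?_⟩
      rcases Finset.mem_insert.1 hw with rfl | hw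
      · linarith [min_le_right e (ε - ‖P w - Q w‖)]
      · linarith [min_le_left e (ε - ‖P a - Q a‖), h2 w hw]
  obtain ⟨e, he, h2⟩ := this W le_rfl
  refine ⟨e, he, fun R hR w hw => ?_⟩
  have := norm_sub_le_norm_sub_add_norm_sub (R w) (P w) (Q w)
  linarith [hR w hw, h2 w hw]

/-- finitely many points have pairwise disjoint basic neighbourhoods -/
theorem exists_disjoint_near {T : Set (A →ₐ[F] Ω)} (hT : T.Finite) :
    ∃ (W : Finset A) (ε : ℝ), 0 < ε ∧ ∀ P ∈ T, ∀ Q ∈ T, P ≠ Q →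
      Disjoint (Near W ε P) (Near W ε Q) := by
  have key : ∀ S : Finset ((A →ₐ[F] Ω) × (A →ₐ[F] Ω)), ∃ (W : Finset A) (ε : ℝ), 0 < ε ∧
      ∀ x ∈ S, x.1 ≠ x.2 → Disjoint (Near W ε x.1) (Near W ε x.2) := by
    intro S
    induction S using Finset.induction_on with
    | empty => exact ⟨∅, 1, one_pos, by simp⟩
    | insert a S _ ih =>
      obtain ⟨W, e, he, h⟩ := ih
      by_cases ha : a.1 = a.2
      · refine ⟨W, e, he, fun x hx hne => ?_⟩
        rcases Finset.mem_insert.1 hx with rfl | hx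
        · exact absurd ha hne
        · exact h x hx hne
      obtain ⟨w, hw⟩ : ∃ w, a.1 w ≠ a.2 w := by
        by_contra hh
        push Not at hh
        exact ha (AlgHom.ext hh)
      have hpos : 0 < ‖a.1 w - a.2 w‖ := norm_pos_iff.2 (sub_ne_zero.2 hw)
      refine ⟨insert w W, min e (‖a.1 w - a.2 w‖ / 2), lt_min he (by linarith), fun x hx hne => ?_⟩
      rcases Finset.mem_insert.1 hx with rfl | hx
      · rw [Set.disjoint_left]
        intro R h1 h2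
        have h3 := near_trans (near_symm h1) h2 w (by simp)
        linarith [min_le_right e (‖x.1 w - x.2 w‖ / 2)]
      · exact (h x hx hne).mono (near_mono (Finset.subset_insert _ _) (min_le_left _ _) _)
          (near_mono (Finset.subset_insert _ _) (min_le_left _ _) _)
  obtain ⟨W, e, he, h⟩ := key (hT.toFinset ×ˢ hT.toFinset)
  exact ⟨W, e, he, fun P hP Q hQ hne => h (P, Q) (by simp [hP, hQ]) hne⟩

end Near

section Count

variable {F A Ω : Type} [Field F] [CommRing A] [Algebra F A] [Field Ω] [Algebra F Ω]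

theorem span_le_ker {P : A →ₐ[F] Ω} {f : A} : Ideal.span {f} ≤ RingHom.ker P ↔ P f = 0 := by
  rw [Ideal.span_singleton_le_iff_mem, RingHom.mem_ker]

theorem span_ne_bot {f : A} (hf : f ≠ 0) : Ideal.span {f} ≠ (⊥ : Ideal A) := by
  rwa [Ne, Ideal.span_singleton_eq_bot]

theorem mI_congr {P Q : A →ₐ[F] Ω} (h : RingHom.ker P = RingHom.ker Q) (J : Ideal A) :
    mI P J = mI Q J := by rw [mI, mI, h]

/-- the conjugate of a point -/
def cjP (σ : Ω ≃ₐ[F] Ω) (P : A →ₐ[F] Ω) : A →ₐ[F] Ω := σ.toAlgHom.comp P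

theorem cjP_apply (σ : Ω ≃ₐ[F] Ω) (P : A →ₐ[F] Ω) (a : A) : cjP σ P a = σ (P a) := rfl

theorem ker_cjP (σ : Ω ≃ₐ[F] Ω) (P : A →ₐ[F] Ω) : RingHom.ker (cjP σ P) = RingHom.ker P := by
  ext a; simp [RingHom.mem_ker, cjP_apply]

theorem mI_cjP (σ : Ω ≃ₐ[F] Ω) (P : A →ₐ[F] Ω) (J : Ideal A) : mI (cjP σ P) J = mI P J :=
  mI_congr (ker_cjP σ P) J

theorem cjP_symm_cjP (σ : Ω ≃ₐ[F] Ω) (P : A →ₐ[F] Ω) : cjP σ.symm (cjP σ P) = P := by
  ext a; simp [cjP_apply]

theorem cjP_cjP_symm (σ : Ω ≃ₐ[F] Ω) (P : A →ₐ[F] Ω) : cjP σ (cjP σ.symm P) = P := by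
  ext a; simp [cjP_apply]

theorem cjP_injective (σ : Ω ≃ₐ[F] Ω) : Function.Injective (cjP σ : (A →ₐ[F] Ω) → _) :=
  Function.LeftInverse.injective (cjP_symm_cjP σ)

theorem nZ_cjP (σ : Ω ≃ₐ[F] Ω) (J : Ideal A) (V : Set (A →ₐ[F] Ω)) : nZ J (cjP σ '' V) = nZ J V := by
  rw [nZ, nZ, finsum_mem_image (cjP_injective σ).injOn]
  simp only [mI_cjP]

theorem nZ_empty (J : Ideal A) : nZ J (∅ : Set (A →ₐ[F] Ω)) = 0 := finsum_mem_empty

theorem nZ_single (J : Ideal A) (P : A →ₐ[F] Ω) : nZ J {P} = mI P J := finsum_mem_singleton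

theorem nZ_coe (J : Ideal A) (T : Finset (A →ₐ[F] Ω)) :
    nZ J (T : Set (A →ₐ[F] Ω)) = ∑ P ∈ T, mI P J := finsum_mem_coe_finset _ _

variable [CharZero F] [IsAlgClosed Ω] [Algebra.IsAlgebraic F Ω] (hP : S_Pts) (cv : Cv F A)
include hP cv

theorem zeros_finite {J : Ideal A} (hJ : J ≠ ⊥) : {P : A →ₐ[F] Ω | J ≤ RingHom.ker P}.Finite :=
  ((hP F A Ω cv).1 J hJ).1

theorem zeros_finite' {f : A} (hf : f ≠ 0) : {P : A →ₐ[F] Ω | P f = 0}.Finite := by
  simpa only [span_le_ker] using zeros_finite (Ω := Ω) hP cv (span_ne_bot hf)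

theorem mI_ne_zero {J : Ideal A} (hJ : J ≠ ⊥) (P : A →ₐ[F] Ω) :
    mI P J ≠ 0 ↔ J ≤ RingHom.ker P := (hP F A Ω cv).2.2.1 P J hJ

theorem mI_span_ne_zero {f : A} (hf : f ≠ 0) (P : A →ₐ[F] Ω) :
    mI P (Ideal.span {f}) ≠ 0 ↔ P f = 0 := by rw [mI_ne_zero hP cv (span_ne_bot hf), span_le_ker]

theorem mI_span_eq_zero {f : A} (hf : f ≠ 0) (P : A →ₐ[F] Ω) :
    mI P (Ideal.span {f}) = 0 ↔ P f ≠ 0 := by rw [Ne, ← mI_span_ne_zero hP cv hf, not_not]

theorem mI_mul {I J : Ideal A} (hI : I ≠ ⊥) (hJ : J ≠ ⊥) (P : A →ₐ[F] Ω) :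
    mI P (I * J) = mI P I + mI P J := (hP F A Ω cv).2.1 P I J hI hJ

theorem mI_top (P : A →ₐ[F] Ω) : mI P (⊤ : Ideal A) = 0 := by
  have := cv.dom
  by_contra h
  rw [← Ne, mI_ne_zero hP cv top_ne_bot, top_le_iff] at h
  exact RingHom.ker_ne_top P h

theorem mI_span_mul {f g : A} (hf : f ≠ 0) (hg : g ≠ 0) (P : A →ₐ[F] Ω) :
    mI P (Ideal.span {f * g}) = mI P (Ideal.span {f}) + mI P (Ideal.span {g}) := by
  rw [← Ideal.span_singleton_mul_span_singleton, mI_mul hP cv (span_ne_bot hf) (span_ne_bot hg)]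

theorem mI_pow {J : Ideal A} (hJ : J ≠ ⊥) (P : A →ₐ[F] Ω) (n : ℕ) : mI P (J ^ n) = n * mI P J := by
  have := cv.dom
  induction n with
  | zero => simp [mI_top hP cv]
  | succ n ih => rw [pow_succ, mI_mul hP cv (pow_ne_zero _ hJ) hJ, ih]; ring

theorem mI_span_pow {f : A} (hf : f ≠ 0) (P : A →ₐ[F] Ω) (n : ℕ) :
    mI P (Ideal.span {f ^ n}) = n * mI P (Ideal.span {f}) := by
  rw [← Ideal.span_singleton_pow, mI_pow hP cv (span_ne_bot hf)]

theorem mI_prod {ι : Type*} (s : Finset ι) (J : ι → Ideal A) (hJ : ∀ i ∈ s, J i ≠ ⊥)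
    (P : A →ₐ[F] Ω) : mI P (∏ i ∈ s, J i) = ∑ i ∈ s, mI P (J i) := by
  have := cv.dom
  induction s using Finset.induction_on with
  | empty => simp [mI_top hP cv]
  | insert a s ha ih =>
    rw [Finset.prod_insert ha, Finset.sum_insert ha, mI_mul hP cv (hJ a (by simp))
      (Finset.prod_ne_zero_iff.2 fun i hi => hJ i (by simp [hi])), ih fun i hi => hJ i (by simp [hi])]

theorem mI_le_of_dvd {I J : Ideal A} (hJ : J ≠ ⊥) (h : I ∣ J) (P : A →ₐ[F] Ω) :
    mI P I ≤ mI P J := by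
  obtain ⟨K, rfl⟩ := h
  rw [mI_mul hP cv (left_ne_zero_of_mul hJ) (right_ne_zero_of_mul hJ)]
  omega

theorem mI_le_of_mem {I : Ideal A} {f : A} (hf : f ≠ 0) (h : f ∈ I) (P : A →ₐ[F] Ω) :
    mI P I ≤ mI P (Ideal.span {f}) := by
  have := cv.ded
  exact mI_le_of_dvd hP cv (span_ne_bot hf)
    (Ideal.dvd_iff_le.2 ((Ideal.span_singleton_le_iff_mem _).2 h)) P

variable (Ω) in
theorem dvd_of_mI {I J : Ideal A} (hI : I ≠ ⊥) (hJ : J ≠ ⊥)
    (h : ∀ P : A →ₐ[F] Ω, mI P I ≤ mI P J) : I ∣ J := (hP F A Ω cv).2.2.2.1 I J hI hJ h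

variable (Ω) in
theorem eq_of_mI {I J : Ideal A} (hI : I ≠ ⊥) (hJ : J ≠ ⊥)
    (h : ∀ P : A →ₐ[F] Ω, mI P I = mI P J) : I = J := by
  have := cv.ded
  exact le_antisymm (Ideal.dvd_iff_le.1 (dvd_of_mI Ω hP cv hJ hI fun P => (h P).ge))
    (Ideal.dvd_iff_le.1 (dvd_of_mI Ω hP cv hI hJ fun P => (h P).le))

/-- `n ≤ mI P J` means that the `n`-th power of the maximal ideal divides `J` -/
theorem le_mI_iff {J : Ideal A} (hJ : J ≠ ⊥) (P : A →ₐ[F] Ω) (n : ℕ) :
    n ≤ mI P J ↔ J ≤ RingHom.ker P ^ n := by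
  have := cv.ded
  obtain ⟨h1, h2, h3⟩ := (hP F A Ω cv).2.2.2.2.1 P
  rw [← Ideal.dvd_iff_le]
  refine ⟨fun h => (pow_dvd_pow _ h).trans (pow_multiplicity_dvd _ _), fun h => ?_⟩
  have := mI_le_of_dvd hP cv hJ h P
  rwa [mI_pow hP cv h2, h3, mul_one] at this

/-- the multiplicity of a sum -/
theorem le_mI_add {f g : A} (hf : f ≠ 0) (hg : g ≠ 0) (hfg : f + g ≠ 0) (P : A →ₐ[F] Ω) :
    min (mI P (Ideal.span {f})) (mI P (Ideal.span {g})) ≤ mI P (Ideal.span {f + g}) := by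
  rw [le_mI_iff hP cv (span_ne_bot hfg), Ideal.span_singleton_le_iff_mem]
  refine Ideal.add_mem _ ?_ ?_
  · rw [← Ideal.span_singleton_le_iff_mem, ← le_mI_iff hP cv (span_ne_bot hf)]
    exact min_le_left _ _
  · rw [← Ideal.span_singleton_le_iff_mem, ← le_mI_iff hP cv (span_ne_bot hg)]
    exact min_le_right _ _

theorem support_finite {J : Ideal A} (hJ : J ≠ ⊥) :
    (Function.support fun P : A →ₐ[F] Ω => mI P J).Finite :=
  (zeros_finite hP cv hJ).subset fun P h => (mI_ne_zero hP cv hJ P).1 h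

/-- the number of zeros as a finite sum -/
theorem nZ_eq_sum {J : Ideal A} (hJ : J ≠ ⊥) (V : Set (A →ₐ[F] Ω)) (T : Finset (A →ₐ[F] Ω))
    (hT : ∀ P ∈ V, J ≤ RingHom.ker P → P ∈ T) : nZ J V = ∑ P ∈ T with P ∈ V, mI P J := by
  refine finsum_mem_eq_sum_of_inter_support_eq _ ?_
  ext P
  simp only [Set.mem_inter_iff, Function.mem_support, Finset.coe_filter, Set.mem_ofPred_eq]
  exact ⟨fun h => ⟨⟨hT P h.1 ((mI_ne_zero hP cv hJ P).1 h.2), h.1⟩, h.2⟩, fun h => ⟨h.1.2, h.2⟩⟩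

theorem nZ_univ {J : Ideal A} (hJ : J ≠ ⊥) : nZ J (Set.univ : Set (A →ₐ[F] Ω)) = dg F J := by
  rw [nZ, finsum_mem_univ]; exact ((hP F A Ω cv).1 J hJ).2

theorem nZ_union {J : Ideal A} (hJ : J ≠ ⊥) {V V' : Set (A →ₐ[F] Ω)} (h : Disjoint V V') :
    nZ J (V ∪ V') = nZ J V + nZ J V' :=
  finsum_mem_union' h ((support_finite hP cv hJ).inter_of_right _)
    ((support_finite hP cv hJ).inter_of_right _)

theorem nZ_mono {J : Ideal A} (hJ : J ≠ ⊥) {V V' : Set (A →ₐ[F] Ω)} (h : V ⊆ V') :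
    nZ J V ≤ nZ J V' := by
  rw [← Set.union_sdiff_cancel h, nZ_union hP cv hJ Set.disjoint_sdiff_right]
  omega

theorem nZ_le_dg {J : Ideal A} (hJ : J ≠ ⊥) (V : Set (A →ₐ[F] Ω)) : nZ J V ≤ dg F J :=
  (nZ_mono hP cv hJ (Set.subset_univ V)).trans_eq (nZ_univ hP cv hJ)

theorem nZ_add_compl {J : Ideal A} (hJ : J ≠ ⊥) (V : Set (A →ₐ[F] Ω)) :
    nZ J V + nZ J Vᶜ = dg F J := by
  rw [← nZ_union hP cv hJ disjoint_compl_right, Set.union_compl_self, nZ_univ hP cv hJ]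

theorem sum_le_nZ {J : Ideal A} (hJ : J ≠ ⊥) {V : Set (A →ₐ[F] Ω)} {T : Finset (A →ₐ[F] Ω)}
    (h : ∀ P ∈ T, P ∈ V) : ∑ P ∈ T, mI P J ≤ nZ J V := by
  rw [← nZ_coe]; exact nZ_mono hP cv hJ h

theorem mI_le_nZ {J : Ideal A} (hJ : J ≠ ⊥) {V : Set (A →ₐ[F] Ω)} {P : A →ₐ[F] Ω} (h : P ∈ V) :
    mI P J ≤ nZ J V := by
  rw [← nZ_single]; exact nZ_mono hP cv hJ (Set.singleton_subset_iff.2 h)

theorem nZ_eq_zero {J : Ideal A} (hJ : J ≠ ⊥) {V : Set (A →ₐ[F] Ω)} :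
    nZ J V = 0 ↔ ∀ P ∈ V, ¬ J ≤ RingHom.ker P := by
  refine ⟨fun h P hV hle => ?_, fun h => ?_⟩
  · have := mI_le_nZ hP cv hJ hV
    exact (mI_ne_zero hP cv hJ P).2 hle (by omega)
  · rw [nZ_eq_sum hP cv hJ V ∅ fun P hV hle => absurd hle (h P hV)]
    simp

theorem exists_zero_of_nZ {J : Ideal A} (hJ : J ≠ ⊥) {V : Set (A →ₐ[F] Ω)} (h : nZ J V ≠ 0) :
    ∃ P ∈ V, J ≤ RingHom.ker P := by
  by_contra hh
  push Not at hh
  exact h ((nZ_eq_zero hP cv hJ).2 hh)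

theorem nZ_congr {J : Ideal A} (hJ : J ≠ ⊥) {V V' : Set (A →ₐ[F] Ω)}
    (h : ∀ P : A →ₐ[F] Ω, J ≤ RingHom.ker P → (P ∈ V ↔ P ∈ V')) : nZ J V = nZ J V' := by
  refine finsum_mem_inter_support_eq' _ _ _ fun P hs => ?_
  exact h P ((mI_ne_zero hP cv hJ P).1 hs)

theorem nZ_mul {I J : Ideal A} (hI : I ≠ ⊥) (hJ : J ≠ ⊥) (V : Set (A →ₐ[F] Ω)) :
    nZ (I * J) V = nZ I V + nZ J V := by
  simp only [nZ, mI_mul hP cv hI hJ]
  exact finsum_mem_add_distrib' ((support_finite hP cv hI).inter_of_right _)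
    ((support_finite hP cv hJ).inter_of_right _)

theorem nZ_le_of_dvd {I J : Ideal A} (hJ : J ≠ ⊥) (h : I ∣ J) (V : Set (A →ₐ[F] Ω)) :
    nZ I V ≤ nZ J V := by
  obtain ⟨K, rfl⟩ := h
  rw [nZ_mul hP cv (left_ne_zero_of_mul hJ) (right_ne_zero_of_mul hJ)]
  omega

/-- counting in a finite disjoint union -/
theorem nZ_biUnion {J : Ideal A} (hJ : J ≠ ⊥) {ι : Type*} (s : Finset ι)
    (V : ι → Set (A →ₐ[F] Ω)) (h : ∀ i ∈ s, ∀ j ∈ s, i ≠ j → Disjoint (V i) (V j)) :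
    nZ J (⋃ i ∈ s, V i) = ∑ i ∈ s, nZ J (V i) := by
  induction s using Finset.induction_on with
  | empty => simp [nZ_empty]
  | insert a s ha ih =>
    rw [Finset.set_biUnion_insert, Finset.sum_insert ha, nZ_union hP cv hJ,
      ih fun i hi j hj => h i (by simp [hi]) j (by simp [hj])]
    simp only [Set.disjoint_iUnion_right]
    exact fun i hi => h a (by simp) i (by simp [hi]) (by rintro rfl; exact ha hi)

/-- a set that is stable under `σ` and contains at most one zero besides the fixed points `T`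
contains only fixed zeros -/
theorem fixed_of_nZ {J : Ideal A} (hJ : J ≠ ⊥) (σ : Ω ≃ₐ[F] Ω) {V : Set (A →ₐ[F] Ω)}
    (hV : ∀ P ∈ V, cjP σ P ∈ V) {T : Finset (A →ₐ[F] Ω)} (hT : ∀ Q ∈ T, Q ∈ V ∧ cjP σ Q = Q)
    (h : nZ J V ≤ ∑ Q ∈ T, mI Q J + 1) {P : A →ₐ[F] Ω} (hPV : P ∈ V) (hz : J ≤ RingHom.ker P) :
    cjP σ P = P := by
  by_contra hne
  have h1 : P ∉ T := fun hh => hne (hT P hh).2
  have h2 : cjP σ P ∉ insert P T := by
    rw [Finset.mem_insert, not_or]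
    exact ⟨hne, fun hh => hne (cjP_injective σ (hT _ hh).2)⟩
  have h3 := sum_le_nZ hP cv hJ (V := V) (T := insert (cjP σ P) (insert P T)) (by
    intro Q hQ
    rcases Finset.mem_insert.1 hQ with rfl | hQ
    · exact hV P hPV
    rcases Finset.mem_insert.1 hQ with rfl | hQ
    · exact hPV
    · exact (hT Q hQ).1)
  rw [Finset.sum_insert h2, Finset.sum_insert h1, mI_cjP] at h3
  have := (mI_ne_zero hP cv hJ P).2 hz
  omega

end Count

end

end Pool.Agent.P.MP_b8021b_nt.VC
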