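import Pool.Agent.P.MP_b8021b_nt.VC.DefA

/-! Interface statements of part C. Each is proved in its own file of this folder. -/

namespace Pool.Agent.P.MP_b8021b_nt.VC

open Polynomial NumberField Finset Pool.Agent.P.MP_b8021b_nt.VE
open scoped Classical

/-- dimensions, degrees and bases -/
def S_Cv : Prop :=
  ∀ (F A : Type) [Field F] [CharZero F] [CommRing A] [Algebra F A] (cv : Cv F A),
    (∀ I : Ideal A, I ≠ ⊥ → FiniteDimensional F (A ⧸ I)) ∧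
    (∀ I J : Ideal A, I ≠ ⊥ → J ≠ ⊥ → dg F (I * J) = dg F I + dg F J) ∧
    (∀ f : A, f ≠ 0 → dg F (Ideal.span {f}) = cv.δ f) ∧
    (∀ P : Ideal A, P.IsMaximal → P ≠ ⊥) ∧
    (∀ f : A, cv.δ f = 0 → ∃ c : F, f = algebraMap F A c) ∧
    (∀ n, FiniteDimensional F (cv.L n) ∧ n + 1 ≤ Module.finrank F (cv.L n) + cv.g) ∧
    (∃ n₀, ∀ n, n₀ ≤ n → Module.finrank F (cv.L n) + cv.g = n + 1) ∧
    (∃ n₀, ∀ J : Ideal A, J ≠ ⊥ → ∀ n, dg F J + n₀ ≤ n → ∀ a, ∃ b ∈ cv.L n, a - b ∈ J) ∧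
    ∀ z : A, 0 < cv.δ z → ∃ y : Fin (cv.δ z) → A,
      (∀ i, y i ≠ 0 ∧ cv.δ (y i) % cv.δ z = i.1) ∧ (∀ i, i.1 = 0 → y i = 1) ∧
      (∀ a, ∃ c : Fin (cv.δ z) → F[X], a = ∑ i, aeval z (c i) * y i) ∧
      (∀ c : Fin (cv.δ z) → F[X], ∀ i, c i ≠ 0 → ∑ j, aeval z (c j) * y j ≠ 0 ∧
        cv.δ z * (c i).natDegree + cv.δ (y i) ≤ cv.δ (∑ j, aeval z (c j) * y j))

/-- points with values in an algebraic closure -/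
def S_Pts : Prop :=
  ∀ (F A Ω : Type) [Field F] [CharZero F] [CommRing A] [Algebra F A] [Field Ω] [Algebra F Ω]
    [IsAlgClosed Ω] [Algebra.IsAlgebraic F Ω] (_ : Cv F A),
    (∀ J : Ideal A, J ≠ ⊥ → {P : A →ₐ[F] Ω | J ≤ RingHom.ker P}.Finite ∧
      ∑ᶠ P : A →ₐ[F] Ω, mI P J = dg F J) ∧
    (∀ (P : A →ₐ[F] Ω) (I J : Ideal A), I ≠ ⊥ → J ≠ ⊥ → mI P (I * J) = mI P I + mI P J) ∧
    (∀ (P : A →ₐ[F] Ω) (J : Ideal A), J ≠ ⊥ → (mI P J ≠ 0 ↔ J ≤ RingHom.ker P)) ∧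
    (∀ I J : Ideal A, I ≠ ⊥ → J ≠ ⊥ → (∀ P : A →ₐ[F] Ω, mI P I ≤ mI P J) → I ∣ J) ∧
    (∀ P : A →ₐ[F] Ω, (RingHom.ker P).IsMaximal ∧ RingHom.ker P ≠ ⊥ ∧
      mI P (RingHom.ker P) = 1) ∧
    (∀ 𝔪 : Ideal A, 𝔪.IsMaximal → ∃ P : A →ₐ[F] Ω, RingHom.ker P = 𝔪) ∧
    (∀ P Q : A →ₐ[F] Ω, RingHom.ker P = RingHom.ker Q →
      ∃ g : Ω ≃ₐ[F] Ω, ∀ a, Q a = g (P a)) ∧
    (∀ P : A →ₐ[F] Ω, (∀ g : Ω ≃ₐ[F] Ω, ∀ a, g (P a) = P a) →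
      ∃ Q : A →ₐ[F] F, P = (Algebra.ofId F Ω).comp Q) ∧
    ∀ (Q : A →ₐ[F] F) (P : A →ₐ[F] Ω), RingHom.ker Q ≠ ⊥ ∧ dg F (RingHom.ker Q) = 1 ∧
      mI P (RingHom.ker Q) = if P = (Algebra.ofId F Ω).comp Q then 1 else 0

/-- norms and characteristic polynomials over `F[w]` -/
def S_Nrm : Prop :=
  ∀ (F A : Type) [Field F] [CharZero F] [CommRing A] [Algebra F A] (cv : Cv F A) (w : A),
    0 < cv.δ w → ∃ M : A →ₐ[F] Matrix (Fin (cv.δ w)) (Fin (cv.δ w)) F[X],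
      M w = Matrix.scalar _ X ∧
      (∀ f, f ≠ 0 → (M f).det ≠ 0 ∧ (M f).det.natDegree = cv.δ f) ∧
      (∀ f l, (M f).charpoly.coeff l ≠ 0 →
        cv.δ w * ((M f).charpoly.coeff l).natDegree ≤ (cv.δ w - l) * cv.δ f) ∧
      (∀ f, (M f).charpoly.eval₂ (aeval w : F[X] →ₐ[F] A).toRingHom f = 0) ∧
      (∀ f a, ∃ g : F[X][X], g.natDegree < cv.δ w ∧
        (derivative (M f).charpoly).eval₂ (aeval w : F[X] →ₐ[F] A).toRingHom f * a =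
          g.eval₂ (aeval w : F[X] →ₐ[F] A).toRingHom f) ∧
      ∀ (Ω : Type) [Field Ω] [Algebra F Ω] [IsAlgClosed Ω] [Algebra.IsAlgebraic F Ω] (a : Ω),
        (∀ f, f ≠ 0 → rootMultiplicity a ((M f).det.map (algebraMap F Ω)) =
          nZ (Ideal.span {f}) {P : A →ₐ[F] Ω | P w = a}) ∧
        ∃ Z : Multiset (A →ₐ[F] Ω), (∀ P, P ∈ Z ↔ P w = a) ∧
          (∀ P ∈ Z, Z.count P = mI P (Ideal.span {aeval w (minpoly F a)})) ∧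
          ∀ f, (M f).charpoly.map (aeval a : F[X] →ₐ[F] Ω).toRingHom =
            (Z.map fun P => X - C (P f)).prod

/-- base change -/
def S_BC : Prop :=
  ∀ (F F' A : Type) [Field F] [CharZero F] [Field F'] [Algebra F F'] [CommRing A] [Algebra F A]
    (cv : Cv F A), ∃ (A' : Type) (_ : CommRing A') (_ : Algebra F' A') (cv' : Cv F' A')
      (ι : A →+* A'), (∀ c, ι (algebraMap F A c) = algebraMap F' A' (algebraMap F F' c)) ∧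
      Function.Injective ι ∧ (∀ a, cv'.δ (ι a) = cv.δ a) ∧
      (∀ n, cv'.L n ≤ Submodule.span F' (ι '' cv.L n)) ∧
      (∀ (S : Type) [CommRing S] (j : F' →+* S) (f : A →+* S),
        (∀ c, f (algebraMap F A c) = j (algebraMap F F' c)) →
        ∃ g : A' →+* S, (∀ a, g (ι a) = f a) ∧ ∀ c, g (algebraMap F' A' c) = j c) ∧
      (FiniteDimensional F F' → ∀ s' : A', s' ≠ 0 → ∃ s : A, s ≠ 0 ∧ s' ∣ ι s ∧
        ∀ (Ω : Type) [Field Ω] [Algebra F Ω] [IsAlgClosed Ω] (P : A →ₐ[F] Ω), P s = 0 →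
          ∃ P' : A' →+* Ω, (∀ a, P' (ι a) = P a) ∧ P' s' = 0)

/-- growth at infinity -/
def S_Inf : Prop :=
  ∀ (F A Ω : Type) [Field F] [CharZero F] [CommRing A] [Algebra F A] [NormedField Ω] [Algebra F Ω]
    (cv : Cv F A) (s h : A), 0 < cv.δ s → ∃ C : ℝ, 0 < C ∧ ∀ P : A →ₐ[F] Ω,
      ‖P h‖ ^ cv.δ s ≤ C * max 1 ‖P s‖ ^ cv.δ h

/-- zeros move continuously -/
def S_Stab : Prop :=
  ∀ (F A Ω : Type) [NormedField F] [CharZero F] [CommRing A] [Algebra F A]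
    [NontriviallyNormedField Ω] [NormedAlgebra F Ω] [IsAlgClosed Ω] [Algebra.IsAlgebraic F Ω]
    (_ : Cv F A) (f₀ : A) (P₀ : A →ₐ[F] Ω), f₀ ≠ 0 → ∃ (W₀ : Finset A) (ε₀ : ℝ), 0 < ε₀ ∧
      ∀ (W : Finset A) (ε : ℝ), W₀ ⊆ W → 0 < ε → ε ≤ ε₀ → ∀ (I : Type) [Fintype I] (b : I → A),
        ∃ η : ℝ, 0 < η ∧ ∀ c : I → F, (∀ i, ‖c i‖ < η) → f₀ + ∑ i, c i • b i ≠ 0 ∧
          nZ (Ideal.span {f₀ + ∑ i, c i • b i}) (Near W ε P₀) = mI P₀ (Ideal.span {f₀})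

/-- rigid configurations exist in every infinite set of rational points -/
def S_Rig1 : Prop :=
  ∀ (F A : Type) [Field F] [CharZero F] [CommRing A] [Algebra F A] (cv : Cv F A)
    (S : Set (A →ₐ[F] F)), S.Infinite → ∃ Q, (∀ j, Q j ∈ S) ∧ cv.RigF Q

/-- limits of divisors and of linear equivalences -/
def S_Lim : Prop :=
  ∀ (F A Ω : Type) [NontriviallyNormedField F] [ProperSpace F] [CharZero F] [CommRing A]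
    [Algebra F A] [NontriviallyNormedField Ω] [NormedAlgebra F Ω] [IsAlgClosed Ω]
    [Algebra.IsAlgebraic F Ω] (cv : Cv F A),
    (∀ (J : ℕ → Ideal A) (n : ℕ), (∀ k, J k ≠ ⊥ ∧ dg F (J k) ≤ n) →
      ∃ (φ : ℕ → ℕ) (D : (A →ₐ[F] Ω) → ℕ), StrictMono φ ∧ Conv (J ∘ φ) D) ∧
    ∀ (E₀ : Ideal A) (D E J J' : ℕ → Ideal A) (n : ℕ) (X Y : (A →ₐ[F] Ω) → ℕ), E₀ ≠ ⊥ →
      cv.Rig E₀ → (∀ k, D k ≠ ⊥ ∧ dg F (D k) ≤ cv.g) → (∀ k, E k ≠ ⊥ ∧ dg F (E k) ≤ n) →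
      (∀ k, J k ≠ ⊥ ∧ dg F (J k) ≤ n) → (∀ k, J' k ≠ ⊥ ∧ dg F (J' k) ≤ n) →
      (∀ k, ∃ a b : A, a ≠ 0 ∧ b ≠ 0 ∧
        Ideal.span {a} * (D k * J k) = Ideal.span {b} * (E k * J' k)) →
      Conv E (fun P : A →ₐ[F] Ω => mI P E₀) → Conv J X → Conv J' X → Conv D Y →
      ∀ P, Y P = mI P E₀

/-- rigidity is an open condition -/
def S_Rig2 : Prop :=
  ∀ (F A Ω : Type) [NontriviallyNormedField F] [ProperSpace F] [CharZero F] [CommRing A]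
    [Algebra F A] [NontriviallyNormedField Ω] [NormedAlgebra F Ω] [IsAlgClosed Ω]
    [Algebra.IsAlgebraic F Ω] (cv : Cv F A) (Q : Fin (cv.g + 1) → (A →ₐ[F] F)), cv.RigF Q →
    ∃ (W : Finset A) (ε : ℝ), 0 < ε ∧ ∀ Q', (∀ j, Q' j ∈ Near W ε (Q j)) → cv.RigF Q'

/-- a function whose zeros are close to a rigid configuration -/
def S_Unif : Prop :=
  ∀ (F A Ω : Type) [NontriviallyNormedField F] [ProperSpace F] [CharZero F] [CommRing A]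
    [Algebra F A] [NontriviallyNormedField Ω] [NormedAlgebra F Ω] [IsAlgClosed Ω]
    [Algebra.IsAlgebraic F Ω] (cv : Cv F A) (Q : Fin (cv.g + 1) → (A →ₐ[F] F)), cv.RigF Q →
    ∀ (W : Finset A) (ε : ℝ), 0 < ε → ∃ (s : A) (j : ℕ) (P : Fin (cv.g + 1) → (A →ₐ[F] Ω)),
      s ≠ 0 ∧ 1 ≤ j ∧ P 0 = (Algebra.ofId F Ω).comp (Q 0) ∧
      (∀ i, P i ∈ Near W ε ((Algebra.ofId F Ω).comp (Q i))) ∧
      ∀ P' : A →ₐ[F] Ω, mI P' (Ideal.span {s}) = (univ.filter fun i => P i = P').card +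
        (j - 1) * (univ.filter fun i => (Algebra.ofId F Ω).comp (Q i) = P').card

/-- a real function with simple real zeros in every large degree -/
def S_RS1 : Prop :=
  ∀ (A : Type) [CommRing A] [Algebra ℝ A] (cv : Cv ℝ A), ∃ n₀, ∀ n, n₀ ≤ n → ∃ s : A, s ≠ 0 ∧
    cv.δ s = n ∧ ∀ P : A →ₐ[ℝ] ℂ, P s = 0 → mI P (Ideal.span {s}) = 1 ∧ ∀ a, (P a).im = 0

/-- a function of prime degree with totally real fibres -/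
def S_RS : Prop :=
  ∀ (A : Type) [CommRing A] [Algebra ℚ A] (cv : Cv ℚ A) (e₀ : ℕ), ∃ (s₁ s₂ : A) (ρ : ℝ),
    s₁ ≠ 0 ∧ s₂ ≠ 0 ∧ 0 < cv.δ s₁ ∧ 0 < cv.δ s₂ ∧ IsCoprime s₁ s₂ ∧ (cv.δ (s₁ * s₂)).Prime ∧
    e₀ < cv.δ (s₁ * s₂) ∧ 0 < ρ ∧ ∀ (f : A →+* ℂ) (a : ℝ), |a| < ρ → f (s₁ * s₂) = a →
      ∀ x, (f x).im = 0

/-- the absolute value of a function on a small disc -/
def S_Disc : Prop :=
  ∀ (F A Ω : Type) [Field F] [CharZero F] [CommRing A] [Algebra F A] [NontriviallyNormedField Ω]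
    [IsUltrametricDist Ω] [Algebra F Ω] [IsAlgClosed Ω] [Algebra.IsAlgebraic F Ω] (_ : Cv F A)
    (P₀ : A →ₐ[F] Ω) (π : A), π ≠ 0 → mI P₀ (Ideal.span {π}) = 1 →
    ∃ (W : Finset A) (ε₁ ε₀ : ℝ), 0 < ε₁ ∧ 0 < ε₀ ∧ ∀ (ε : ℝ) (U : Set (A →ₐ[F] Ω)), 0 < ε →
      ε ≤ ε₀ → U = {P | P ∈ Near W ε₁ P₀ ∧ ‖P π‖ < ε} →
      Set.BijOn (fun P => P π) U (Metric.ball 0 ε) ∧
      (∀ w, ∃ C : ℝ, ∀ P ∈ U, ‖P w - P₀ w‖ ≤ C * ‖P π‖) ∧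
      ∀ f, f ≠ 0 → ∃ C : ℝ, 0 < C ∧ ∀ P ∈ U,
        ‖P f‖ = C * ∏ᶠ Q ∈ U, ‖P π - Q π‖ ^ mI Q (Ideal.span {f})

/-- a function whose level sets are level sets of `g` -/
def S_Lem : Prop :=
  ∀ (r : ℕ) [Fact r.Prime] (F : IntermediateField ℚ_[r] (PadicAlgCl r)) [FiniteDimensional ℚ_[r] F]
    (A : Type) [CommRing A] [Algebra F A] (cv : Cv F A) (P₀ : A →ₐ[F] PadicAlgCl r) (g : A) (n : ℕ),
    g ≠ 0 → P₀ g = 0 → ∃ (s : A) (c₁ c₃ C : ℝ) (a b : ℕ), s ≠ 0 ∧ n ≤ cv.δ s ∧ 0 < c₁ ∧ c₁ < c₃ ∧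
      c₃ ≤ 1 ∧ 0 < C ∧ 0 < a ∧ ‖P₀ s‖ ≤ c₁ ∧
      (∀ P : A →ₐ[F] PadicAlgCl r, c₁ < ‖P s‖ → ‖P s‖ < c₃ →
        ‖P g‖ ^ a = C * ‖P s‖ ^ b ∧ ‖P g‖ ≤ 1) ∧
      ∀ P : A →ₐ[F] PadicAlgCl r, P g = 0 → RingHom.ker P ≠ RingHom.ker P₀ → c₃ ≤ ‖P s‖

end Pool.Agent.P.MP_b8021b_nt.VC
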