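import Pool.Agent.P.MP_b8021b_nt.VC.PMod1
import Pool.Agent.P.MP_b8021b_nt.VC.BasicC
import Pool.Agent.P.MP_b8021b_nt.VC.StA
import Pool.Agent.P.MP_b8021b_nt.VC.StC

/-! The integral model. -/

namespace Pool.Agent.P.MP_b8021b_nt.VC

open Polynomial Finset Pool.Agent.P.MP_b8021b_nt.VE
open scoped Classical

namespace PMod

variable {A : Type} [CommRing A] [Algebra ℚ A] (cv : Cv ℚ A)

theorem sum_distinct {ι : Type} (s : Finset ι) (f : ι → A)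
    (hd : ∀ i j, f i ≠ 0 → f j ≠ 0 → cv.δ (f i) = cv.δ (f j) → i = j) {i : ι} (hi : i ∈ s)
    (h0 : f i ≠ 0) : ∑ j ∈ s, f j ≠ 0 ∧ cv.δ (f i) ≤ cv.δ (∑ j ∈ s, f j) ∧
      ∃ k, f k ≠ 0 ∧ cv.δ (∑ j ∈ s, f j) = cv.δ (f k) := by
  obtain ⟨k, hk, hm⟩ := exists_max_image (s.filter fun j => f j ≠ 0) (fun j => cv.δ (f j))
    ⟨i, mem_filter.2 ⟨hi, h0⟩⟩
  obtain ⟨hk, hk0⟩ := mem_filter.1 hk
  have hlt : ∀ j ∈ s.erase k, f j ≠ 0 → cv.δ (f j) < cv.δ (f k) := fun j hj h =>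
    lt_of_le_of_ne (hm j (mem_filter.2 ⟨mem_of_mem_erase hj, h⟩))
      fun e => ne_of_mem_erase hj (hd j k h hk0 e)
  have key : ∑ j ∈ s, f j ≠ 0 ∧ cv.δ (∑ j ∈ s, f j) = cv.δ (f k) := by
    rw [← add_sum_erase s f hk]
    rcases Nat.eq_zero_or_pos (cv.δ (f k)) with h | h
    · rw [sum_eq_zero fun j hj => by_contra fun h' => by have := hlt j hj h'; omega, add_zero]
      exact ⟨hk0, rfl⟩
    · have h1 : cv.δ (∑ j ∈ s.erase k, f j) ≤ cv.δ (f k) - 1 := cv.sum_le _ _ _ fun j hj => by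
        by_cases h' : f j = 0
        · simp [h', cv.zero]
        · have := hlt j hj h'; omega
      have h2 := cv.add_of_lt (show cv.δ (∑ j ∈ s.erase k, f j) < cv.δ (f k) by omega)
      exact ⟨cv.ne_zero_of_pos (h2 ▸ h), h2⟩
  exact ⟨key.1, key.2 ▸ hm i (mem_filter.2 ⟨hi, h0⟩), k, hk0, key.2⟩

theorem X_dvd {R : Type} [CommRing R] [Algebra ℤ[X] R] (T : Tab R) (j : R →+* A) {s : A}
    (hs : 0 < cv.δ s) {x : R} (hz : s ∣ j (zR R)) (hx : s ∣ j x) : X ∣ Algebra.norm ℤ[X] x := by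
  have : Nontrivial (A ⧸ Ideal.span {s}) := Ideal.Quotient.nontrivial_iff.2 fun h =>
    hs.ne' (cv.unit_zero (Ideal.span_singleton_eq_top.1 h))
  have : CharZero (A ⧸ Ideal.span {s}) := algebraRat.charZero _
  have h0 : ∀ y : R, s ∣ j y → ((Ideal.Quotient.mk (Ideal.span {s})).comp j) y = 0 := fun y h =>
    Ideal.Quotient.eq_zero_iff_mem.2 (Ideal.mem_span_singleton.2 h)
  have h1 := h0 _ (hx.trans (map_dvd j (T.dvd_norm x)))
  rw [map_alg, h0 _ hz, ← coeff_zero_eq_aeval_zero'] at h1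
  exact X_dvd_iff.2 (Int.cast_eq_zero.1 h1)

variable [Algebra ℤ[X] A] {e : ℕ}

theorem alg_eq (he : 0 < e) (hz : cv.δ (zR A) = e) {g : ℤ[X]} (hg : g ≠ 0) :
    algebraMap ℤ[X] A g ≠ 0 ∧ cv.δ (algebraMap ℤ[X] A g) = e * g.natDegree := by
  have h := cv.aeval_eq (hz ▸ he)
    ((Polynomial.map_ne_zero_iff (f := algebraMap ℤ ℚ) Int.cast_injective).2 hg)
  rwa [aeval_map_algebraMap, natDegree_map_eq_of_injective Int.cast_injective, hz, mul_comm,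
    ← show algebraMap ℤ[X] A g = aeval (zR A) g from map_alg (RingHom.id A) g] at h

theorem ind (hz : cv.δ (zR A) = e) {w : Fin e → A} (hw : ∀ i, w i ≠ 0 ∧ cv.δ (w i) % e = i.1)
    (c : Fin e → ℤ[X]) {i : Fin e} (hc : c i ≠ 0) : ∑ j, c j • w j ≠ 0 ∧
      e * (c i).natDegree + cv.δ (w i) ≤ cv.δ (∑ j, c j • w j) ∧
      ∃ k, c k ≠ 0 ∧ cv.δ (∑ j, c j • w j) = e * (c k).natDegree + cv.δ (w k) := by
  have := cv.dom
  have h1 : ∀ j, c j ≠ 0 → c j • w j ≠ 0 ∧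
      cv.δ (c j • w j) = e * (c j).natDegree + cv.δ (w j) := fun j hj => by
    obtain ⟨h1, h2⟩ := alg_eq cv i.pos hz hj
    rw [Algebra.smul_def, cv.mul _ _ h1 (hw j).1, h2]
    exact ⟨mul_ne_zero h1 (hw j).1, rfl⟩
  have h2 : ∀ j, c j • w j ≠ 0 → c j ≠ 0 := fun j h h' => h (by rw [h', zero_smul])
  obtain ⟨h3, h4, k, h5, h6⟩ := sum_distinct cv univ (fun j => c j • w j) (fun j k hj hk h => by
    have h7 := congrArg (· % e) h
    simp only [(h1 j (h2 j hj)).2, (h1 k (h2 k hk)).2, Nat.mul_add_mod, (hw _).2] at h7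
    exact Fin.ext h7) (mem_univ i) (h1 i hc).1
  exact ⟨h3, (h1 i hc).2 ▸ h4, k, h2 k h5, h6.trans (h1 k (h2 k h5)).2⟩

theorem li (hz : cv.δ (zR A) = e) {x : A} (hx : cv.δ x % e = 1) {q : ℤ[X][X]} (hq : q ≠ 0)
    (hd : q.natDegree < e) : aeval x q ≠ 0 ∧ ∃ k < e, q.coeff k ≠ 0 ∧
      cv.δ (aeval x q) = e * (q.coeff k).natDegree + k * cv.δ x := by
  have := cv.dom
  have hx0 : x ≠ 0 := by rintro rfl; simp [cv.zero] at hx
  obtain ⟨h1, -, k, h2, h3⟩ := ind cv hz (w := fun i => x ^ i.1) (fun i => ⟨pow_ne_zero _ hx0, by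
    rw [cv.pow, Nat.mul_mod, hx, mul_one, Nat.mod_mod, Nat.mod_eq_of_lt i.2]⟩)
    (fun i => q.coeff i) (i := ⟨_, hd⟩) (leadingCoeff_ne_zero.2 hq)
  rw [aeval_eq_sum_range' hd, sum_range]
  exact ⟨h1, k, k.2, h2, by rw [h3, cv.pow]⟩

theorem irr (hz : cv.δ (zR A) = e) {x : A} (hx : cv.δ x % e = 1) {P : ℤ[X][X]} (hm : P.Monic)
    (hd : P.natDegree = e) (he : 0 < e) (h0 : aeval x P = 0) :
    Irreducible P ∧ P.coeff 0 ≠ 0 ∧ (P.coeff 0).natDegree = cv.δ x := by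
  have := cv.dom
  have hx0 : x ≠ 0 := by rintro rfl; simp [cv.zero] at hx
  constructor
  · rw [minpoly.unique' ℤ[X] x hm h0 fun q hq => or_iff_not_imp_left.2 fun h =>
      (li cv hz hx h (hd ▸ natDegree_lt_natDegree h hq)).1]
    exact minpoly.irreducible ⟨P, hm, h0⟩
  · have h1 : aeval x (P - X ^ e) = -x ^ e := by simp [h0]
    have h2 : P - X ^ e ≠ 0 := fun h => by
      rw [h, map_zero] at h1
      exact pow_ne_zero e hx0 (neg_eq_zero.1 h1.symm)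
    obtain ⟨-, k, h3, h4, h5⟩ := li cv hz hx h2 ((natDegree_lt_natDegree h2 (degree_sub_lt_left
      (by rw [degree_X_pow, degree_eq_natDegree hm.ne_zero, hd]) hm.ne_zero
      (by rw [hm.leadingCoeff, leadingCoeff_X_pow]))).trans_eq hd)
    rw [h1, cv.neg, cv.pow] at h5
    have h6 := congrArg (· % e) h5
    simp only [Nat.mul_mod_right, Nat.mul_add_mod] at h6
    rw [Nat.mul_mod, hx, mul_one, Nat.mod_mod, Nat.mod_eq_of_lt h3] at h6
    subst h6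
    rw [coeff_sub, coeff_X_pow, if_neg he.ne, sub_zero] at h4 h5
    exact ⟨h4, Nat.eq_of_mul_eq_mul_left he (by omega)⟩

omit [Algebra ℚ A] in
theorem nat_mem {N : Submodule ℤ[X] A} {a : A} (h : a ∈ N) (n : ℕ) : (n : A) * a ∈ N :=
  nsmul_eq_mul n a ▸ nsmul_mem h n

/-- elements with a multiple in `N` -/
def Sat (N : Submodule ℤ[X] A) : AddSubmonoid A where
  carrier := {a | ∃ m : ℕ, 0 < m ∧ (m : A) * a ∈ N}
  zero_mem' := ⟨1, one_pos, by simp⟩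
  add_mem' := fun {a b} ⟨m, hm, h⟩ ⟨n, hn, h'⟩ => ⟨m * n, mul_pos hm hn, by
    rw [show ((m * n : ℕ) : A) * (a + b) = n * (m * a) + m * (n * b) by push_cast; ring]
    exact N.add_mem (nat_mem h n) (nat_mem h' m)⟩

omit [Algebra ℚ A] in
theorem exists_common {N : Submodule ℤ[X] A} {ι : Type} [Fintype ι] (f : ι → A)
    (h : ∀ i, f i ∈ Sat N) : ∃ m : ℕ, 0 < m ∧ ∀ i, (m : A) * f i ∈ N := by
  choose m hm h using h
  refine ⟨∏ i, m i, prod_pos fun i _ => hm i, fun i => ?_⟩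
  rw [← prod_erase_mul _ _ (mem_univ i), Nat.cast_mul, mul_assoc]
  exact nat_mem (h i) _

theorem sat {z₀ : A} {μ : ℤ} (hμ : μ ≠ 0) (hz : zR A = μ * z₀) {y : Fin e → A}
    (hs : ∀ a, ∃ c : Fin e → ℚ[X], a = ∑ i, aeval z₀ (c i) * y i) (a : A) :
    a ∈ Sat (Submodule.span ℤ[X] (Set.range y)) := by
  obtain ⟨c, rfl⟩ := hs a
  refine sum_mem fun i _ => ?_
  obtain ⟨b, hb, h⟩ := IsLocalization.integerNormalization_spec (nonZeroDivisors ℤ)
    ((c i).comp (C (μ : ℚ)⁻¹ * X))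
  have h1 : algebraMap ℚ A (μ : ℚ)⁻¹ * (μ * z₀) = z₀ := by
    rw [← mul_assoc, ← map_intCast (algebraMap ℚ A), ← map_mul,
      inv_mul_cancel₀ (Int.cast_ne_zero.2 hμ), map_one, one_mul]
  have h2 := congrArg (aeval (zR A)) h
  rw [aeval_map_algebraMap, map_zsmul, aeval_comp, map_mul, aeval_C, aeval_X,
    ← show ∀ g, algebraMap ℤ[X] A g = aeval (zR A) g from map_alg (RingHom.id A), hz, h1,
    zsmul_eq_mul] at h2
  refine ⟨b.natAbs * b.natAbs, mul_self_pos.2 (Int.natAbs_ne_zero.2 (nonZeroDivisors.ne_zero hb)),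
    ?_⟩
  rw [← Int.cast_natCast, Int.natAbs_mul_self, Int.cast_mul, mul_assoc, ← mul_assoc (b : A) (aeval _ _),
    ← h2, ← Algebra.smul_def, ← zsmul_eq_mul]
  exact zsmul_mem (Submodule.smul_mem _ _ (Submodule.subset_span (Set.mem_range_self i))) b

theorem exists_int {y : Fin e → A} (h1 : ∀ i, i.1 = 0 → y i = 1)
    (hs : ∀ a, a ∈ Sat (Submodule.span ℤ[X] (Set.range y))) :
    ∃ y' : Fin e → A, (∀ i, ∃ q : ℚ, q ≠ 0 ∧ y' i = q • y i) ∧ (∀ i, i.1 = 0 → y' i = 1) ∧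
      (∀ a, a ∈ Sat (Submodule.span ℤ[X] (Set.range y'))) ∧
      ∀ i j, y' i * y' j ∈ Submodule.span ℤ[X] (Set.range y') := by
  obtain ⟨m, hm, h⟩ := exists_common (fun p : Fin e × Fin e => y p.1 * y p.2) fun _ => hs _
  let y' : Fin e → A := fun i => if i.1 = 0 then y i else m * y i
  have h2 : ∀ i, y' i ∈ Submodule.span ℤ[X] (Set.range y') := fun i =>
    Submodule.subset_span ⟨i, rfl⟩
  have h3 : Submodule.span ℤ[X] (Set.range y) ≤
      (Submodule.span ℤ[X] (Set.range y')).comap (LinearMap.mulLeft ℤ[X] (m : A)) := by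
    rw [Submodule.span_le]
    rintro _ ⟨i, rfl⟩
    change (m : A) * y i ∈ Submodule.span ℤ[X] (Set.range y')
    by_cases hi : i.1 = 0
    · exact (show y' i = y i from if_pos hi) ▸ nat_mem (h2 i) m
    · exact (show y' i = m * y i from if_neg hi) ▸ h2 i
  have h4 : ∀ i, i.1 = 0 → y' i = 1 := fun i hi => (if_pos hi).trans (h1 i hi)
  refine ⟨y', fun i => ?_, h4, fun a => ?_, fun i j => ?_⟩
  · by_cases hi : i.1 = 0
    · exact ⟨1, one_ne_zero, (if_pos hi).trans (one_smul _ _).symm⟩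
    · exact ⟨m, Nat.cast_ne_zero.2 hm.ne', (if_neg hi).trans (by rw [Algebra.smul_def, map_natCast])⟩
  · obtain ⟨n, hn, h5⟩ := hs a
    exact ⟨m * n, mul_pos hm hn, by rw [Nat.cast_mul, mul_assoc]; exact h3 h5⟩
  · by_cases hi : i.1 = 0
    · rw [h4 i hi, one_mul]; exact h2 j
    by_cases hj : j.1 = 0
    · rw [h4 j hj, mul_one]; exact h2 i
    rw [show y' i = m * y i from if_neg hi, show y' j = m * y j from if_neg hj,
      show (m : A) * y i * (m * y j) = m * (m * (y i * y j)) by ring]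
    exact h3 (h (i, j))

theorem build (he : e.Prime) (h3 : 3 ≤ e) (hz : cv.δ (zR A) = e) {y : Fin e → A}
    (hw : ∀ i, y i ≠ 0 ∧ cv.δ (y i) % e = i.1) (h1 : ∀ i, i.1 = 0 → y i = 1)
    (hm : ∀ i j, y i * y j ∈ Submodule.span ℤ[X] (Set.range y)) :
    ∃ (R : Subalgebra ℤ[X] A) (T : Tab R), T.e = e ∧
      (∀ a ∈ Submodule.span ℤ[X] (Set.range y), a ∈ R) ∧ (∀ i, cv.δ (T.y i) = T.δ i) ∧
      T.δ T.i1 = cv.δ (y ⟨1, he.one_lt⟩) := by
  have h2 : ∀ i, y i ∈ Submodule.span ℤ[X] (Set.range y) := fun i => Submodule.subset_span ⟨i, rfl⟩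
  let R : Subalgebra ℤ[X] A := (Submodule.span ℤ[X] (Set.range y)).toSubalgebra
    (h1 ⟨0, he.pos⟩ rfl ▸ h2 _) fun a b ha hb => by
      have := Submodule.mul_mem_mul ha hb
      rw [Submodule.span_mul_span] at this
      refine Submodule.span_le.2 ?_ this
      rintro _ ⟨_, ⟨i, rfl⟩, _, ⟨j, rfl⟩, rfl⟩
      exact hm i j
  have hli : LinearIndependent ℤ[X] y := Fintype.linearIndependent_iff.2 fun c h i =>
    by_contra fun hc => (ind cv hz hw c hc).1 h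
  let b : Module.Basis (Fin e) ℤ[X] R := Module.Basis.span hli
  have hb : ∀ i, (b i : A) = y i := fun i =>
    congrArg Subtype.val (Module.Basis.span_apply hli i)
  refine ⟨R, ⟨e, he, h3, b, fun i => cv.δ (y i), fun i => (hw i).2,
    fun i hi => ⟨Subtype.ext ((hb i).trans (h1 i hi)), by rw [h1 i hi, cv.one]⟩, fun i j l h => ?_⟩,
    rfl, fun _ h => h, fun i => congrArg cv.δ (hb i), rfl⟩
  have h4 := congrArg R.val (b.sum_repr (b i * b j))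
  simp only [map_sum, map_smul, map_mul, Subalgebra.coe_val, hb] at h4
  have h5 := (ind cv hz hw (b.repr (b i * b j)) h).2.1
  rwa [h4, cv.mul _ _ (hw i).1 (hw j).1] at h5

end PMod

open PMod

theorem p_mod (hC : S_Cv) (hR : S_RS) : S_Mod := by
  intro A _ _ cv e₀ P hP
  obtain ⟨c1, -, -, c4, -, -, -, -, c9⟩ := hC ℚ A cv
  obtain ⟨s₁, s₂, ρ, -, -, p1, p2, ⟨a, b, hab⟩, he, he0, hρ, hre⟩ := hR A cv (max e₀ 2)
  obtain ⟨y, y1, y2, y3, -⟩ := c9 (s₁ * s₂) he.pos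
  have := c1 P (c4 P hP)
  have : Nontrivial (A ⧸ P) := Ideal.Quotient.nontrivial_iff.2 hP.ne_top
  have : CharZero (A ⧸ P) := algebraRat.charZero _
  obtain ⟨l, d, hl, hG⟩ := exists_G ((IsFractionRing.isAlgebraic_iff ℤ ℚ _).2
    (IsAlgebraic.of_finite ℚ (Ideal.Quotient.mk P (s₁ * s₂))))
  set B := 2 * cv.δ (s₁ * s₂) * cv.δ (y ⟨1, he.one_lt⟩) + d with hB
  obtain ⟨n, hn⟩ := exists_nat_gt ((2 * B + 3) / ρ)
  rw [div_lt_iff₀ hρ] at hn
  have hn0 : (n : ℤ) ≠ 0 := by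
    rintro h
    rw [Nat.cast_eq_zero.1 h, Nat.cast_zero, zero_mul] at hn
    linarith [Nat.cast_nonneg (α := ℝ) B]
  obtain ⟨G, G1, G2, G3, G4⟩ := hG n
  have hμ := mul_ne_zero hn0 hl
  have hμn : (n : ℝ) ≤ |((n * l : ℤ) : ℝ)| := by
    have : (1 : ℝ) ≤ |(l : ℝ)| := by exact_mod_cast Int.one_le_abs hl
    rw [Int.cast_mul, abs_mul, Int.cast_natCast, Nat.abs_cast]
    exact le_mul_of_one_le_right n.cast_nonneg this
  generalize n * l = μ at G4 hμ hμn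
  obtain ⟨_, hz⟩ : ∃ i : Algebra ℤ[X] A, zR A = μ * (s₁ * s₂) :=
    ⟨(aeval (μ * (s₁ * s₂)) : ℤ[X] →ₐ[ℤ] A).toRingHom.toAlgebra, aeval_X _⟩
  have hμq : (μ : ℚ) ≠ 0 := Int.cast_ne_zero.2 hμ
  have hδ : cv.δ (zR A) = cv.δ (s₁ * s₂) := by
    rw [hz, ← map_intCast (algebraMap ℚ A), ← Algebra.smul_def, cv.smul_eq hμq]
  obtain ⟨y', k1, k2, k3, k4⟩ := exists_int y2 (sat hμ hz y3)
  have k5 : ∀ i, y' i ≠ 0 ∧ cv.δ (y' i) = cv.δ (y i) := fun i => by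
    obtain ⟨q, hq, h⟩ := k1 i
    rw [h]
    exact ⟨fun h' => (y1 i).1 (by rw [← inv_smul_smul₀ hq (y i), h', smul_zero]), cv.smul_eq hq _⟩
  obtain ⟨R, T, t1, t2, t3, t4⟩ := build cv he (by omega) hδ
    (fun i => ⟨(k5 i).1, (k5 i).2 ▸ (y1 i).2⟩) k2 k4
  have hj : Gen R.val.toRingHom := ⟨Subtype.val_injective, fun x => by
    obtain ⟨m, hm, h⟩ := k3 x
    exact ⟨m, ⟨_, t2 _ h⟩, hm, rfl⟩⟩
  obtain ⟨i1, i2, i3⟩ := irr cv (hδ.trans t1.symm) (x := T.y T.i1) (P := T.P)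
    (by rw [t3]; exact T.δmod _) (T.cp_monic _) (T.natDegree_cp _) T.epos
    ((aeval_algHom_apply R.val _ _).trans ((congrArg R.val (T.aeval_cp _)).trans (map_zero _)))
  obtain ⟨α, β, D, d1, d2, d3⟩ := exists_D T.P (T.cp_monic _) i1 (B := T.δ T.i1) fun l => by
    by_cases h : T.P.coeff l = 0
    · simp [h]
    · exact Nat.le_of_mul_le_mul_left (le_of_add_le_left
        (Tab.cp_natDegree_wle (Tab.y_mem_Lw T.i1) h)) T.epos
  rw [show T.P.natDegree = T.e from T.natDegree_cp _, t4, t1, (k5 _).2] at d2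
  obtain ⟨dD, d4, d5⟩ := sep_of T d3
  obtain ⟨τ, g1, g2, g3⟩ := exists_gap (D * G) (mul_ne_zero d1 G1.ne_zero) (B := B)
    (natDegree_mul_le.trans (add_le_add d2 G3))
  obtain ⟨m, hm, u1⟩ := exists_common
    (fun i : Bool => if i then a * s₁ else (μ : ℚ)⁻¹ • (a * b)) fun _ => k3 _
  have hv : (μ : A) * ((μ : ℚ)⁻¹ • (a * b)) = a * b := by
    rw [← map_intCast (algebraMap ℚ A), ← Algebra.smul_def, smul_inv_smul₀ hμq]
  let u : R := ⟨m * (a * s₁), t2 _ (u1 true)⟩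
  let v : R := ⟨m * ((μ : ℚ)⁻¹ • (a * b)), t2 _ (u1 false)⟩
  have hzR : R.val.toRingHom (zR R) = μ * (s₁ * s₂) := hz
  refine ⟨R, inferInstance, inferInstance, ⟨T, ⟨i2, i3.trans (t3 _)⟩, D, dD, d4, d5, ⟨α, β, by rw [← d3]; ring⟩, G, G1, G2, u,
    m, Int.natCast_ne_zero.2 hm.ne', ⟨-m * v, Subtype.ext ?_⟩,
    X_dvd cv T R.val.toRingHom p1 (hzR ▸ ⟨μ * s₂, by ring⟩) ⟨m * a, ?_⟩,
    X_dvd cv T R.val.toRingHom p2 (hzR ▸ ⟨μ * s₁, by ring⟩) ⟨-(m * b), ?_⟩, τ, g1,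
    fun f t ht ht' hf x => ?_, fun t ht ht' => ?_⟩, R.val.toRingHom, hj, ?_, ?_,
    hδ.trans t1.symm, t3⟩
  · change (m : A) * (a * s₁) * (m * (a * s₁) - ((m : ℤ) : A)) =
      zR A * (-m * (m * ((μ : ℚ)⁻¹ • (a * b))))
    rw [hz, Int.cast_natCast]
    linear_combination (m * m * a * s₁) * hab + (m * m * s₁ * s₂) * hv
  · change (m : A) * (a * s₁) = _
    ring
  · change (m : A) * (a * s₁) - ((m : ℤ) : A) = _
    rw [Int.cast_natCast]
    linear_combination m * hab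
  · obtain ⟨f', hf'⟩ := hj.exists_lift f
    rw [← hf']
    refine hre f' (t / μ) ?_ ?_ _
    · rw [abs_div, div_lt_iff₀ (abs_pos.2 (Int.cast_ne_zero.2 hμ)), abs_of_neg (by linarith)]
      nlinarith
    · rw [← hf', hzR, map_mul, map_intCast] at hf
      push_cast
      rw [eq_div_iff (Int.cast_ne_zero.2 hμ), mul_comm, hf]
  · simpa only [map_mul, ne_eq, mul_eq_zero, not_or] using g3 t ht ht'
  · change e₀ < T.e
    omega
  · change algebraMap ℤ[X] A G ∈ P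
    rw [← Ideal.Quotient.eq_zero_iff_mem, map_alg, hz, map_mul, map_intCast, G4]

end Pool.Agent.P.MP_b8021b_nt.VC
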