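import Pool.Agent.P.MP_b8021b_nt.VC.StT
import Pool.Agent.P.MP_b8021b_nt.VC.BasicA

/-! The choice of the parameters at two scales. -/

namespace Pool.Agent.P.MP_b8021b_nt.VC

open Polynomial Finset Pool.Agent.P.MP_b8021b_nt.VE

namespace NtP

variable {R : Type} [CommRing R] [Algebra ℤ[X] R]

/-- all the properties hold for large `y` -/
lemma fine_ev (hIndT : S_IndT) (hIndS : S_IndS) (F : Fix R) (Nc : ℕ) [NeZero Nc] (ε C : ℝ)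
    (hε : 0 < ε) (hg : F.p.g1 ≠ 0) (hC : C * F.η ≤ 1 / 3)
    (hFl : F.Ev fun c => ∀ s ∈ Sset F.p c.S0 c.L, ∀ a ∈ Set.Icc F.p.τ0 (F.p.τ0 + c.η),
      |(F.p.FR s).eval a / (c.S0 * F.p.g1) ^ (2 * F.p.e) - 1| ≤ C * c.η)
    (hM : F.Ev fun c => ∃ μ, Mix (base F.p c.y c.N) (sideT F.p c) (sideS F.p c.y c.N c.S0 c.L)
      F.u μ ε ∧ ∀ t s x, μ t s x ≠ 0 → F.p.Good t.1 s.1 fun i => (x i).1) :
    F.Ev fun c => Fine F.p c F.u Nc ε := by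
  obtain ⟨y1, h1⟩ := hIndT R F Nc ε hε
  obtain ⟨y2, h2⟩ := hIndS R F ε hε
  obtain ⟨y3, h3⟩ := hFl
  obtain ⟨y4, h4⟩ := hM
  refine ⟨max (max (max y1 y2) (max y3 y4)) 1, fun c hc hin => ?_⟩
  simp only [max_le_iff] at hc
  obtain ⟨⟨⟨c1, c2⟩, c3, c4⟩, c5⟩ := hc
  obtain ⟨hb, hT, hbox, hadm⟩ := h1 c c1 hin
  have hS := h2 c c2 hin
  have hF := h3 c c3 hin
  obtain ⟨μ, hμ, hg'⟩ := h4 c c4 hin
  have hS0 : (0 : ℝ) < c.S0 := lt_of_lt_of_le (by positivity) hin.S_ge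
  have hM : 0 < ((c.S0 : ℝ) * F.p.g1) ^ (2 * F.p.e) :=
    (even_two_mul _).pow_pos (mul_ne_zero hS0.ne' hg)
  set M := ((c.S0 : ℝ) * F.p.g1) ^ (2 * F.p.e)
  have key : ∀ s ∈ Sset F.p c.S0 c.L, ∀ a ∈ Set.Icc c.τ0 (c.τ0 + c.η),
      2 / 3 * M ≤ (F.p.FR s).eval a ∧ (F.p.FR s).eval a ≤ 4 / 3 * M := by
    intro s hs a ha
    rw [hin.τ0] at ha
    have h := hF s hs a ha
    rw [hin.η] at h
    obtain ⟨l1, l2⟩ := abs_le.mp (h.trans hC)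
    constructor
    · rw [← le_div_iff₀ hM]; linarith
    · rw [← div_le_iff₀ hM]; linarith
  refine ⟨by linarith, hbox, hadm, fun s hs a ha => ?_, fun s hs a ha a' ha' => ?_,
    μ, ⟨hb, hT, hS, hμ⟩, hg'⟩
  · have := (key s hs a ha).1
    linarith
  · have := (key s hs a ha).2
    have := (key s hs a' ha').1
    linarith

/-- the choice of `B` -/
lemma ex_B (k m s n : ℕ) (hk : 1 ≤ k) (hm : 10 * k ≤ m) (hm' : m ≤ 10 * k + 1) (K G : ℝ)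
    (hK : 0 < K) (hG : 0 < G) : ∃ y₀ : ℝ, ∀ y, y₀ ≤ y → ∀ S : ℝ, y ^ s ≤ S → S ≤ 2 * y ^ s →
      ∃ B : ℝ, y ^ 4 ≤ B ∧ B ≤ y ^ 6 ∧ B ^ (2 * k) * (S ^ n * G) = K * y ^ (m + n * s) := by
  refine ⟨max 1 (max (K / G) (2 ^ n * G / K)), fun y hy S hS hS' => ?_⟩
  simp only [max_le_iff] at hy
  obtain ⟨hy1, hy2, hy3⟩ := hy
  have hy0 : 0 < y := by linarith
  have hys : 0 < y ^ s := by positivity
  have hS0 : 0 < S := by linarith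
  have hGS : 0 < S ^ n * G := by positivity
  set W := K * y ^ (m + n * s) / (S ^ n * G) with hW
  have hW0 : 0 < W := by positivity
  have h2k : 2 * k ≠ 0 := by omega
  have hB : (W ^ (((2 * k : ℕ) : ℝ)⁻¹)) ^ (2 * k) = W := Real.rpow_inv_natCast_pow hW0.le h2k
  have hB0 : 0 ≤ W ^ (((2 * k : ℕ) : ℝ)⁻¹) := Real.rpow_nonneg hW0.le _
  have hyK : K ≤ y * G := by rwa [div_le_iff₀ hG] at hy2
  have hyG : 2 ^ n * G ≤ y * K := by rwa [div_le_iff₀ hK] at hy3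
  refine ⟨W ^ (((2 * k : ℕ) : ℝ)⁻¹), ?_, ?_, ?_⟩
  · refine le_of_pow_le_pow_left₀ h2k hB0 ?_
    rw [hB, hW, le_div_iff₀ hGS, ← pow_mul]
    have a1 : S ^ n ≤ 2 ^ n * y ^ (n * s) := by
      rw [mul_comm n, pow_mul, ← mul_pow]
      exact pow_le_pow_left₀ hS0.le hS' n
    have a2 : y ^ (4 * (2 * k)) * y ≤ y ^ m := by
      rw [← pow_succ]
      exact pow_le_pow_right₀ hy1 (by omega)
    have a3 : 0 < y ^ (4 * (2 * k)) := by positivity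
    have a4 : 0 < y ^ (n * s) := by positivity
    calc y ^ (4 * (2 * k)) * (S ^ n * G)
        ≤ y ^ (4 * (2 * k)) * (2 ^ n * y ^ (n * s) * G) := by gcongr
      _ = y ^ (4 * (2 * k)) * (2 ^ n * G) * y ^ (n * s) := by ring
      _ ≤ y ^ (4 * (2 * k)) * (y * K) * y ^ (n * s) := by gcongr
      _ = K * (y ^ (4 * (2 * k)) * y * y ^ (n * s)) := by ring
      _ ≤ K * (y ^ m * y ^ (n * s)) := by gcongr
      _ = K * y ^ (m + n * s) := by rw [pow_add]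
  · refine le_of_pow_le_pow_left₀ h2k (by positivity) ?_
    rw [hB, hW, div_le_iff₀ hGS, ← pow_mul]
    have a1 : y ^ (n * s) ≤ S ^ n := by
      rw [mul_comm n, pow_mul]
      exact pow_le_pow_left₀ hys.le hS n
    have a2 : y ^ m * y ≤ y ^ (6 * (2 * k)) := by
      rw [← pow_succ]
      exact pow_le_pow_right₀ hy1 (by omega)
    have a3 : 0 < y ^ m := by positivity
    have a4 : 0 < y ^ (n * s) := by positivity
    calc K * y ^ (m + n * s) = K * (y ^ m * y ^ (n * s)) := by rw [pow_add]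
      _ ≤ y * G * (y ^ m * S ^ n) := by gcongr
      _ = y ^ m * y * (S ^ n * G) := by ring
      _ ≤ y ^ (6 * (2 * k)) * (S ^ n * G) := by gcongr
  · rw [hB, hW, div_mul_cancel₀ _ hGS.ne']

/-- the choice of all parameters, for one scale -/
lemma ex_in (F : Fix R) (hg : F.p.g1 ≠ 0) (m : ℕ) (hm : 10 * (F.p.e * F.p.dd) ≤ m)
    (hm' : m ≤ 10 * (F.p.e * F.p.dd) + 1) (hu : F.u + 2 = m + 2 * F.p.e * F.σ) :
    ∃ y₀ : ℝ, ∀ y, y₀ ≤ y → ∃ B : ℝ,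
      F.In ⟨y, ⌈Real.log y ^ ((4 * F.p.e + 2) * F.A)⌉₊, F.p.τ0, F.η, B, F.z, ⌈y ^ F.σ⌉₊,
        ⌊F.η * ⌈y ^ F.σ⌉₊⌋₊⟩ := by
  have hr : (0 : ℝ) < F.p.r := by exact_mod_cast F.p.hr.pos
  have hdd : 1 ≤ F.p.dd := by
    have := F.p.hdd F.p.toTab.i0
    omega
  have hs : F.σ ≠ 0 := by
    have := F.hσ
    rw [Par.cE] at this
    omega
  obtain ⟨y1, h1⟩ := ex_B (F.p.e * F.p.dd) m F.σ (2 * F.p.e) (Nat.mul_pos F.p.he.pos hdd) hm hm'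
    ((F.p.r : ℝ) ^ F.p.e0 * Real.exp ((F.u + 2) / 2)) (F.p.g1 ^ (2 * F.p.e))
    (by positivity) ((even_two_mul _).pow_pos hg)
  have hη := F.ηpos
  refine ⟨max y1 (max (Real.exp 1) (2 / F.η)), fun y hy => ?_⟩
  simp only [max_le_iff] at hy
  obtain ⟨hy1, hy2, hy3⟩ := hy
  have he : 1 ≤ Real.exp 1 := Real.one_le_exp zero_le_one
  have hy : 1 ≤ y := he.trans hy2
  have hl : 1 ≤ Real.log y := by
    rw [Real.le_log_iff_exp_le (by linarith)]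
    exact hy2
  have hl' : 1 ≤ Real.log y ^ ((4 * F.p.e + 2) * F.A) := one_le_pow₀ hl
  have hys : 1 ≤ y ^ F.σ := one_le_pow₀ hy
  have hS1 : y ^ F.σ ≤ (⌈y ^ F.σ⌉₊ : ℝ) := Nat.le_ceil _
  have hS2 : (⌈y ^ F.σ⌉₊ : ℝ) ≤ 2 * y ^ F.σ := by
    have := Nat.ceil_lt_add_one (show 0 ≤ y ^ F.σ by positivity)
    linarith
  obtain ⟨B, hB1, hB2, hB3⟩ := h1 y hy1 _ hS1 hS2
  have hyy : y ≤ y ^ F.σ := le_self_pow₀ hy hs
  have hL : 2 ≤ F.η * (⌈y ^ F.σ⌉₊ : ℝ) := by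
    rw [div_le_iff₀ hη] at hy3
    have : y * F.η ≤ (⌈y ^ F.σ⌉₊ : ℝ) * F.η := mul_le_mul_of_nonneg_right (hyy.trans hS1) hη.le
    linarith
  refine ⟨B, rfl, rfl, rfl, Nat.le_ceil _, ?_, hB1, hB2, hS1, ?_, ?_, ?_⟩
  · have := Nat.ceil_lt_add_one (show 0 ≤ Real.log y ^ ((4 * F.p.e + 2) * F.A) by linarith)
    show ((⌈Real.log y ^ ((4 * F.p.e + 2) * F.A)⌉₊ : ℕ) : ℝ) ≤
      2 * Real.log y ^ ((4 * F.p.e + 2) * F.A)
    linarith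
  · have := Nat.lt_floor_add_one (F.η * (⌈y ^ F.σ⌉₊ : ℝ))
    show F.η * (⌈y ^ F.σ⌉₊ : ℝ) / 2 ≤ ((⌊F.η * (⌈y ^ F.σ⌉₊ : ℝ)⌋₊ : ℕ) : ℝ)
    linarith
  · exact Nat.floor_le (by linarith)
  · show (B ^ F.p.dd * ((⌈y ^ F.σ⌉₊ : ℝ) * F.p.g1)) ^ (2 * F.p.e) =
      (F.p.r : ℝ) ^ F.p.e0 * y ^ (F.u + 2) * Real.exp ((F.u + 2) / 2)
    rw [hu, mul_pow, mul_pow, ← pow_mul, show F.p.dd * (2 * F.p.e) = 2 * (F.p.e * F.p.dd) by ring]
    linear_combination hB3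

end NtP

open NtP in
theorem p_nT (hIndT : S_IndT) (hIndS : S_IndS) (hFlat : S_Flat) (hMix : S_Mix) : S_NT := by
  intro R _ _ p
  obtain ⟨u₀, σ₀, hu₀⟩ := hMix R p
  obtain ⟨hg, C, hC1, hC⟩ := hFlat R p
  obtain ⟨s, hs⟩ : ∃ s, s = u₀ + σ₀ + 3 * p.cE + 8 := ⟨_, rfl⟩
  have hes : s ≤ 2 * p.e * s := Nat.le_mul_of_pos_left _ (by have := p.he.pos; omega)
  obtain ⟨u, hu⟩ : ∃ u, u + 2 = 10 * (p.e * p.dd) + 2 * p.e * s :=
    ⟨10 * (p.e * p.dd) + 2 * p.e * s - 2, by omega⟩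
  have hu6 : 6 ≤ u := by omega
  refine ⟨u, hu6, fun Nc _ ε hε => ?_⟩
  obtain ⟨η1, z1, A1, hη1, h1⟩ := hu₀ u (by omega) ε hε
  obtain ⟨η2, z2, A2, hη2, h2⟩ := hu₀ (u + 1) (by omega) ε hε
  have hC0 : 0 < C := by linarith
  set η := min (min η1 η2) (1 / (3 * C)) with hη
  have hη0 : 0 < η := lt_min (lt_min hη1 hη2) (by positivity)
  have hηC : C * η ≤ 1 / 3 := by
    have : η ≤ 1 / (3 * C) := min_le_right _ _
    rw [le_div_iff₀ (by positivity)] at this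
    linarith
  have hη1' : η ≤ 1 := by nlinarith
  have e1 : η ≤ η1 := (min_le_left _ _).trans (min_le_left _ _)
  have e2 : η ≤ η2 := (min_le_left _ _).trans (min_le_right _ _)
  let F1 : Fix R := ⟨p, u, hu6, A1 + A2 + 1, by omega, η, hη0, hη1', z1 + z2 + 8 * p.e, by omega,
    s, by omega⟩
  let F2 : Fix R := ⟨p, u + 1, by omega, A1 + A2 + 1, by omega, η, hη0, hη1', z1 + z2 + 8 * p.e,
    by omega, s, by omega⟩
  have fl : ∀ F : Fix R, F.p = p →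
      F.Ev fun c => ∀ s ∈ Sset F.p c.S0 c.L, ∀ a ∈ Set.Icc F.p.τ0 (F.p.τ0 + c.η),
      |(F.p.FR s).eval a / (c.S0 * F.p.g1) ^ (2 * F.p.e) - 1| ≤ C * c.η := by
    intro F a
    obtain ⟨y, hy⟩ := hC F a
    subst a
    exact ⟨y, fun c hc hin => (hy c hc hin).1⟩
  have hσ : σ₀ ≤ s := by omega
  obtain ⟨y1, g1⟩ := fine_ev hIndT hIndS F1 Nc ε C hε hg hηC (fl F1 rfl)
    (h1 F1 rfl rfl e1 (show z1 ≤ z1 + z2 + 8 * p.e by omega) (show A1 ≤ A1 + A2 + 1 by omega) hσ)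
  obtain ⟨y2, g2⟩ := fine_ev hIndT hIndS F2 Nc ε C hε hg hηC (fl F2 rfl)
    (h2 F2 rfl rfl e2 (show z2 ≤ z1 + z2 + 8 * p.e by omega) (show A2 ≤ A1 + A2 + 1 by omega) hσ)
  have k4 : u + 1 + 2 = 10 * (p.e * p.dd) + 1 + 2 * p.e * s := by omega
  obtain ⟨y3, g3⟩ := ex_in F1 hg (10 * (p.e * p.dd)) le_rfl (Nat.le_succ _) hu
  obtain ⟨y4, g4⟩ := ex_in F2 hg (10 * (p.e * p.dd) + 1) (Nat.le_succ _) le_rfl k4
  set y := max (max y1 y2) (max y3 y4)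
  have b1 : y1 ≤ y := (le_max_left _ _).trans (le_max_left _ _)
  have b2 : y2 ≤ y := (le_max_right _ _).trans (le_max_left _ _)
  have b3 : y3 ≤ y := (le_max_left _ _).trans (le_max_right _ _)
  have b4 : y4 ≤ y := (le_max_right _ _).trans (le_max_right _ _)
  obtain ⟨B, hB⟩ := g3 y b3
  obtain ⟨B', hB'⟩ := g4 y b4
  exact ⟨_, B', g1 _ b1 hB, g2 _ b2 hB'⟩

end Pool.Agent.P.MP_b8021b_nt.VC
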