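import Pool.Agent.P.MP_b8021b_nt.VC.PTrans1

/-! Pull-back of functionals that kill the tame symbols (Bass and Tate induction). -/

namespace Pool.Agent.P.MP_b8021b_nt.VC

open Polynomial Finset Pool.Agent.P.MP_b8021b_nt.VE
open scoped Classical WithZero IntermediateField TensorProduct

namespace PTrans

/-- curve fields -/
def Crv (F : Type) [Field F] : Prop := ∃ _ : Algebra ℚ F, IsCurve F

theorem Crv.ext (h1 : S_Crv) {F : Type} [Field F] (hF : Crv F) (M : Type) [Field M] [Algebra F M]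
    [FiniteDimensional F M] : Crv M := by
  obtain ⟨_, hF⟩ := hF
  have : CharZero F := algebraRat.charZero F
  have : CharZero M := charZero_of_injective_algebraMap (algebraMap F M).injective
  exact ⟨inferInstance, (h1.1 F M).1 hF⟩

theorem Crv.fo (h2 : S_Fin) {F : Type} [Field F] (hF : Crv F) : FO F := by
  obtain ⟨_, hF⟩ := hF
  exact (h2 F hF).1

theorem Crv.charZero {F : Type} [Field F] (hF : Crv F) : CharZero F := by
  obtain ⟨_, -⟩ := hF
  exact algebraRat.charZero F

/-- `res` is the restriction of points -/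
def Rs (F M : Type) [Field F] [Field M] [Algebra F M] (res : GPt M → GPt F) : Prop :=
  ∀ q, Le (algebraMap F M) q (res q)

variable {F M N : Type} [Field F] [Field M] [Field N]

theorem Crv.res (h3 : S_Res) (hF : Crv F) (M : Type) [Field M] [Algebra F M]
    [FiniteDimensional F M] : ∃ res, Rs F M res := by
  obtain ⟨_, hF⟩ := hF
  obtain ⟨res, -, h, -⟩ := h3 F M hF
  exact ⟨res, fun q => (h q _).2 rfl⟩

theorem Rs.spec (h3 : S_Res) (hF : Crv F) [Algebra F M] [FiniteDimensional F M]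
    {res : GPt M → GPt F} (hr : Rs F M res) : ∃ e : GPt M → ℕ,
      (∀ q p, Le (algebraMap F M) q p → res q = p) ∧
      (∀ q, 1 ≤ e q ∧ ∀ a, q.ord (algebraMap F M a) = e q * (res q).ord a) ∧
      ∀ p, {q | res q = p}.Finite ∧ ∑ᶠ q ∈ {q | res q = p}, e q = Module.finrank F M := by
  obtain ⟨_, hF⟩ := hF
  obtain ⟨res', e, h, h', h'', -⟩ := h3 F M hF
  obtain rfl : res' = res := funext fun q => (h q _).1 (hr q)
  exact ⟨e, fun q p => (h q p).1, h', h''⟩

theorem Rs.comp [Algebra F M] [Algebra M N] [Algebra F N] [IsScalarTower F M N]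
    {r : GPt M → GPt F} {r' : GPt N → GPt M} (h : Rs F M r) (h' : Rs M N r') :
    Rs F N fun q => r (r' q) := fun q a c hv => by
  rw [IsScalarTower.algebraMap_apply F M N]
  exact h' q _ _ (h _ _ _ hv)

theorem Ad.res {l : GPt F → Qb → ℝ} (hl : Ad l) (r : GPt M → GPt F) : Ad fun q => l (r q) :=
  fun q => hl (r q)

/-- the pairing of pulled-back functions -/
theorem B_pull (h2 : S_Fin) (h3 : S_Res) (hF : Crv F) [Algebra F M] [FiniteDimensional F M]
    {res : GPt M → GPt F} (hr : Rs F M res) {l : GPt F → Qb → ℝ} (hl : Ad l) {f g : F}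
    (hf : f ≠ 0) (hg : g ≠ 0) :
    B (fun q => l (res q)) (algebraMap F M f) (algebraMap F M g) = Module.finrank F M * B l f g := by
  obtain ⟨e, -, he, hn⟩ := hr.spec h3 hF
  rw [B, B, ← fin_fib res e _ _ (b_fin (hF.fo h2) hl hf hg) hn]
  exact finsum_congr fun q => b_pull hl _ res q (e q) (hr q) (he q).2 hf hg

theorem B_down (h2 : S_Fin) (h3 : S_Res) (hF : Crv F) [Algebra F M] [FiniteDimensional F M]
    {res : GPt M → GPt F} (hr : Rs F M res) {l : GPt F → Qb → ℝ} (hl : Ad l) {f g : F}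
    (hf : f ≠ 0) (hg : g ≠ 0)
    (h : B (fun q => l (res q)) (algebraMap F M f) (algebraMap F M g) = 0) : B l f g = 0 := by
  rw [B_pull h2 h3 hF hr hl hf hg] at h
  exact (mul_eq_zero.1 h).resolve_left (Nat.cast_ne_zero.2 Module.finrank_pos.ne')

/-- the projection formula for Galois extensions -/
theorem proj_gal (h1 : S_Crv) (h2 : S_Fin) (h3 : S_Res) (hF : Crv F) [Algebra F M]
    [FiniteDimensional F M] [IsGalois F M] {res : GPt M → GPt F} (hr : Rs F M res)
    {l : GPt F → Qb → ℝ} (hl : KFn l) {f : F} {g : M} (hf : f ≠ 0) (hg : g ≠ 0) :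
    B (fun q => l (res q)) (algebraMap F M f) g = 0 := by
  have hA : Ad l := hl.mul
  have hf' : algebraMap F M f ≠ 0 := (_root_.map_ne_zero _).2 hf
  obtain ⟨e, hu, -⟩ := hr.spec h3 hF
  have k1 : ∀ σ : M ≃ₐ[F] M, B (fun q => l (res q)) (algebraMap F M f) (σ g) =
      B (fun q => l (res q)) (algebraMap F M f) g := fun σ => by
    have := B_cm (hA.res res) (σ : M ≃+* M) (fun q => by
      rw [hu (cm (σ : M ≃+* M) q) (res q) fun a c h => by
        rw [cm_val]
        have := hr q a c h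
        rwa [← σ.commutes] at this]) hf' hg
    rwa [AlgEquiv.coe_ringEquiv, σ.commutes] at this
  have k2 := B_prod ((hF.ext h1 M).fo h2) (hA.res res) hf' univ (fun σ : M ≃ₐ[F] M => σ g)
    fun σ => (_root_.map_ne_zero _).2 hg
  have hN : Algebra.norm F g ≠ 0 := Algebra.norm_ne_zero_iff.2 hg
  rw [← Algebra.norm_eq_prod_automorphisms, B_pull h2 h3 hF hr hA hf hN, B_of_kfn hl hf hN,
    mul_zero, sum_congr rfl fun σ _ => k1 σ, sum_const, nsmul_eq_mul] at k2
  exact (mul_eq_zero.1 k2.symm).resolve_left (Nat.cast_ne_zero.2 (card_pos.2 univ_nonempty).ne')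

/-- the projection formula -/
theorem proj (h1 : S_Crv) (h2 : S_Fin) (h3 : S_Res) (hF : Crv F) [Algebra F M]
    [FiniteDimensional F M] {res : GPt M → GPt F} (hr : Rs F M res)
    {l : GPt F → Qb → ℝ} (hl : KFn l) {f : F} {g : M} (hf : f ≠ 0) (hg : g ≠ 0) :
    B (fun q => l (res q)) (algebraMap F M f) g = 0 := by
  have := hF.charZero
  have hA : Ad l := hl.mul
  let N := IntermediateField.normalClosure F M (AlgebraicClosure M)
  have : IsGalois F N := {}
  have : FiniteDimensional M N := Module.Finite.of_restrictScalars_finite F M N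
  have hM := hF.ext h1 M
  obtain ⟨r', hr'⟩ := hM.res h3 N
  refine B_down h2 h3 hM hr' (hA.res res) ((_root_.map_ne_zero _).2 hf) hg ?_
  rw [← IsScalarTower.algebraMap_apply]
  exact proj_gal h1 h2 h3 hF (hr.comp hr') hl hf ((_root_.map_ne_zero _).2 hg)

/-- constants and linear functions of `θ` -/
def Lin (F : Type) [Field F] [Algebra F M] (θ y : M) : Prop :=
  ∃ a : F, y = algebraMap F M a ∨ y = θ + algebraMap F M a

theorem split_ind [Algebra F M] (hM : FO M) {L : GPt M → Qb → ℝ} (hL : Ad L) (θ : M) {x : M}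
    (hx : x ≠ 0) (h : ∀ y, Lin F θ y → y ≠ 0 → B L x y = 0) {P : F[X]} (hP : P.Splits) :
    aeval θ P ≠ 0 → B L x (aeval θ P) = 0 := by
  induction hP using Submonoid.closure_induction with
  | mem P hP =>
    rcases hP with ⟨a, rfl⟩ | ⟨a, rfl⟩
    · exact h _ ⟨a, Or.inl (by simp)⟩
    · exact h _ ⟨a, Or.inr (by simp)⟩
  | one => intro _; rw [map_one, B_one hM hL hx]
  | mul P Q _ _ hP hQ =>
    intro h0
    rw [map_mul] at h0 ⊢
    rw [B_mul hM hL hx (left_ne_zero_of_mul h0) (right_ne_zero_of_mul h0),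
      hP (left_ne_zero_of_mul h0), hQ (right_ne_zero_of_mul h0), add_zero]

theorem lin_lin [Algebra F M] (hM : FO M) {L : GPt M → Qb → ℝ} (hL : Ad L)
    (hp : ∀ (a : F) (y : M), a ≠ 0 → y ≠ 0 → B L (algebraMap F M a) y = 0) (θ : M) {x y : M}
    (hx : Lin F θ x) (hy : Lin F θ y) (hx0 : x ≠ 0) (hy0 : y ≠ 0) : B L x y = 0 := by
  obtain ⟨a, rfl | hx⟩ := hx
  · exact hp a y ((_root_.map_ne_zero _).1 hx0) hy0
  obtain ⟨a', rfl | hy⟩ := hy
  · rw [B_symm hL hy0 hx0, hp a' x ((_root_.map_ne_zero _).1 hy0) hx0, neg_zero]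
  by_cases haa : a = a'
  · rw [hy, ← haa, ← hx, B_self hL hx0]
  have hc : a - a' ≠ 0 := sub_ne_zero.2 haa
  have hc' : a' - a ≠ 0 := sub_ne_zero.2 (Ne.symm haa)
  have hj : algebraMap F M (a - a') ≠ 0 := (_root_.map_ne_zero _).2 hc
  have hj' : algebraMap F M (a' - a) ≠ 0 := (_root_.map_ne_zero _).2 hc'
  obtain ⟨u, hu⟩ : ∃ u, x = u * algebraMap F M (a - a') := ⟨x / _, (div_mul_cancel₀ x hj).symm⟩
  have hv : y = (1 - u) * algebraMap F M (a' - a) := by
    rw [map_sub] at hu ⊢
    linear_combination hy - hx + hu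
  have hu0 : u ≠ 0 := left_ne_zero_of_mul (hu ▸ hx0)
  have hv0 : 1 - u ≠ 0 := left_ne_zero_of_mul (hv ▸ hy0)
  have k1 : B L u y = 0 := by
    rw [hv, B_mul hM hL hu0 hv0 hj', B_st hL hu0 hv0, B_symm hL hj' hu0, hp _ _ hc' hu0]
    simp
  rw [B_symm hL hy0 hx0, hu, B_mul hM hL hy0 hu0 hj, B_symm hL hu0 hy0, B_symm hL hj hy0, k1,
    hp _ _ hc hy0]
  simp

theorem split_split [Algebra F M] (hM : FO M) {L : GPt M → Qb → ℝ} (hL : Ad L)
    (hp : ∀ (a : F) (y : M), a ≠ 0 → y ≠ 0 → B L (algebraMap F M a) y = 0) (θ : M) {P Q : F[X]}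
    (hP : P.Splits) (hQ : Q.Splits) (hP0 : aeval θ P ≠ 0) (hQ0 : aeval θ Q ≠ 0) :
    B L (aeval θ P) (aeval θ Q) = 0 := by
  refine split_ind hM hL θ hP0 (fun y hy hy0 => ?_) hQ hQ0
  rw [B_symm hL hy0 hP0,
    split_ind hM hL θ hy0 (fun z hz hz0 => lin_lin hM hL hp θ hy hz hy0 hz0) hP hP0, neg_zero]

/-- the statement for extensions of degree below `d` -/
def TR (d : ℕ) : Prop :=
  ∀ (F M : Type) [Field F] [Field M] [Algebra F M] [FiniteDimensional F M], Crv F →
    Module.finrank F M < d → ∀ (res : GPt M → GPt F) (l : GPt F → Qb → ℝ), Rs F M res → KFn l →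
    KFn fun q => l (res q)

theorem split (h1 : S_Crv) (h3 : S_Res) {d : ℕ} (hd : TR d) (n : ℕ) (hn : n < d) :
    ∀ (F : Type) [Field F], Crv F → ∀ l : GPt F → Qb → ℝ, KFn l → ∀ P : F[X], P.natDegree = n →
    ∃ (E : Type) (_ : Field E) (_ : Algebra F E) (_ : FiniteDimensional F E)
      (res : GPt E → GPt F), Rs F E res ∧ KFn (fun q => l (res q)) ∧
      (P.map (algebraMap F E)).Splits := by
  induction n with
  | zero =>
    intro F _ _ l hl P hP
    refine ⟨F, inferInstance, inferInstance, inferInstance, id, fun _ _ _ h => h, hl, ?_⟩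
    rw [eq_C_of_natDegree_eq_zero hP, map_C]
    exact Splits.C _
  | succ n ih =>
    intro F _ hF l hl P hP
    have hP0 : P ≠ 0 := by
      rintro rfl
      simp at hP
    obtain ⟨r, hr, hrP⟩ := exists_irreducible_of_natDegree_pos (f := P) (by omega)
    have : Fact (Irreducible r) := ⟨hr⟩
    have pb := AdjoinRoot.powerBasis hr.ne_zero
    have : FiniteDimensional F (AdjoinRoot r) := pb.finite
    have hdim : Module.finrank F (AdjoinRoot r) < d := by
      rw [(AdjoinRoot.powerBasis hr.ne_zero).finrank, AdjoinRoot.powerBasis_dim]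
      have := natDegree_le_of_dvd hrP hP0
      omega
    obtain ⟨r1, hr1⟩ := hF.res h3 (AdjoinRoot r)
    have hroot : (P.map (algebraMap F (AdjoinRoot r))).IsRoot (AdjoinRoot.root r) :=
      (AdjoinRoot.isRoot_root r).dvd (Polynomial.map_dvd _ hrP)
    obtain ⟨P1, hP1⟩ := dvd_iff_isRoot.2 hroot
    have hP1d : P1.natDegree = n := by
      have h := congrArg natDegree hP1
      have h0 : P1 ≠ 0 := by
        rintro rfl
        rw [mul_zero, Polynomial.map_eq_zero] at hP1
        exact hP0 hP1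
      rw [natDegree_map, natDegree_mul (X_sub_C_ne_zero _) h0, natDegree_X_sub_C] at h
      omega
    obtain ⟨E, _, _, _, r2, hr2, hk, hs⟩ := ih (by omega) (AdjoinRoot r) (hF.ext h1 _) _
      (hd F _ hF hdim r1 l hr1 hl) P1 hP1d
    let : Algebra F E := ((algebraMap (AdjoinRoot r) E).comp (algebraMap F (AdjoinRoot r))).toAlgebra
    have : IsScalarTower F (AdjoinRoot r) E := IsScalarTower.of_algebraMap_eq fun _ => rfl
    refine ⟨E, inferInstance, inferInstance, Module.Finite.trans (AdjoinRoot r) E,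
      fun q => r1 (r2 q), hr1.comp hr2, hk, ?_⟩
    rw [IsScalarTower.algebraMap_eq F (AdjoinRoot r) E, ← Polynomial.map_map, hP1,
      Polynomial.map_mul, Polynomial.map_sub, map_X, map_C]
    exact (Splits.X_sub_C _).mul hs

/-- a common finite extension -/
theorem compositum (F M E : Type) [Field F] [Field M] [Field E] [Algebra F M] [Algebra F E]
    [FiniteDimensional F M] [FiniteDimensional F E] :
    ∃ (N : Type) (_ : Field N) (_ : Algebra F N) (_ : Algebra M N) (_ : Algebra E N)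
      (_ : IsScalarTower F M N) (_ : IsScalarTower F E N), FiniteDimensional F N := by
  obtain ⟨m, hm⟩ := Ideal.exists_maximal (M ⊗[F] E)
  let : Field ((M ⊗[F] E) ⧸ m) := Ideal.Quotient.field m
  let φ : E →ₐ[F] (M ⊗[F] E) ⧸ m :=
    (Ideal.Quotient.mkₐ F m).comp Algebra.TensorProduct.includeRight
  let : Algebra E ((M ⊗[F] E) ⧸ m) := φ.toRingHom.toAlgebra
  exact ⟨(M ⊗[F] E) ⧸ m, inferInstance, inferInstance, inferInstance, inferInstance, inferInstance,
    IsScalarTower.of_algebraMap_eq fun a => (φ.commutes a).symm, inferInstance⟩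

theorem step (h1 : S_Crv) (h2 : S_Fin) (h3 : S_Res) {d : ℕ} (hd : TR d) : TR (d + 1) := by
  intro F M _ _ _ _ hF hdim res l hr hl
  have := hF.charZero
  have hA : Ad l := hl.mul
  refine kfn_of_B (hA.res res) fun f g hf hg => ?_
  have pb := Field.powerBasisOfFiniteOfSeparable F M
  have hpb := pb.finrank
  obtain ⟨P, hP, rfl⟩ := pb.exists_eq_aeval f
  obtain ⟨Q, hQ, rfl⟩ := pb.exists_eq_aeval g
  obtain ⟨E1, _, _, _, r1, hr1, hk1, hs1⟩ := split h1 h3 hd _ (by omega) F hF l hl P rfl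
  obtain ⟨E, _, _, _, r2, hr2, hk, hs2⟩ := split h1 h3 hd Q.natDegree (by omega) E1
    (hF.ext h1 _) _ hk1 (Q.map (algebraMap F E1)) (natDegree_map _)
  let : Algebra F E := ((algebraMap E1 E).comp (algebraMap F E1)).toAlgebra
  have : IsScalarTower F E1 E := IsScalarTower.of_algebraMap_eq fun _ => rfl
  have : FiniteDimensional F E := Module.Finite.trans E1 E
  have hs1' := hs1.map (algebraMap E1 E)
  rw [Polynomial.map_map, ← IsScalarTower.algebraMap_eq] at hs1' hs2
  obtain ⟨N, _, _, _, _, _, _, _⟩ := compositum F M E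
  have : FiniteDimensional M N := Module.Finite.of_restrictScalars_finite F M N
  have : FiniteDimensional E N := Module.Finite.of_restrictScalars_finite F E N
  have hM := hF.ext h1 M
  have hE := hF.ext h1 E
  obtain ⟨s, hs⟩ := hM.res h3 N
  obtain ⟨t, ht⟩ := hE.res h3 N
  obtain ⟨_, hu, -⟩ := (hr.comp hs).spec h3 hF
  have hst : (fun q => l (res (s q))) = fun q => l (r1 (r2 (t q))) :=
    funext fun q => congrArg l (hu q _ (((hr1.comp hr2).comp ht) q))
  have hev : ∀ R : F[X], algebraMap M N (aeval pb.gen R) =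
      aeval (algebraMap M N pb.gen) (R.map (algebraMap F E)) := fun R => by
    rw [aeval_map_algebraMap, aeval_algebraMap_apply]
  refine B_down h2 h3 hM hs (hA.res res) hf hg ?_
  rw [hst, hev, hev]
  refine split_split ((hF.ext h1 N).fo h2) (hA.res _)
    (fun a y ha hy => proj h1 h2 h3 hE ht hk ha hy) _ hs1' hs2 ?_ ?_
  · rw [← hev]
    exact (_root_.map_ne_zero _).2 hf
  · rw [← hev]
    exact (_root_.map_ne_zero _).2 hg

theorem tr (h1 : S_Crv) (h2 : S_Fin) (h3 : S_Res) (d : ℕ) : TR d := by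
  induction d with
  | zero => intro F M _ _ _ _ _ h; exact absurd h (Nat.not_lt_zero _)
  | succ d ih => exact step h1 h2 h3 ih

theorem gal_res (h3 : S_Res) (hF : Crv F) [Algebra F M] [FiniteDimensional F M]
    {res : GPt M → GPt F} (hr : Rs F M res) (σ : Qb ≃+* Qb) {q q' : GPt M} (h : Gal σ q q') :
    Gal σ (res q) (res q') := by
  intro a c hv
  obtain ⟨e, -, he, -⟩ := hr.spec h3 hF
  have k := h _ _ (hr q a c hv)
  have hm : a ∈ (res q').v.valuationSubring := by
    by_cases ha : a = 0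
    · rw [ha]
      exact zero_mem _
    have k1 := q'.ord_nonneg k.mem
    rw [(he q').2] at k1
    exact ((res q').ord_nonneg_iff ha).1
      (nonneg_of_mul_nonneg_right k1 (by exact_mod_cast (he q').1))
  obtain ⟨c', hc'⟩ := (res q').exists_val hm
  rwa [← (hr q' a c' hc').unique k]

end PTrans

theorem p_trans (h1 : S_Crv) (h2 : S_Fin) (h3 : S_Res) : S_Trans := by
  intro F M _ _ i _ _ hF res l hr
  have hC : PTrans.Crv F := ⟨i, hF⟩
  have k : KFn l → KFn fun q => l (res q) :=
    PTrans.tr h1 h2 h3 _ F M hC (Nat.lt_succ_self _) res l hr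
  exact ⟨k, fun hl => ⟨k hl.toKFn, fun σ q q' h u hu =>
    hl.gal σ _ _ (PTrans.gal_res h3 hC hr σ h) u hu⟩⟩

end Pool.Agent.P.MP_b8021b_nt.VC
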