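import Pool.Agent.P.MP_b8021b_nt.VC.StS
import Pool.Agent.P.MP_b8021b_nt.VE.BasicS

/-! A fibre product of totally ramified covers, built one root at a time. -/

namespace Pool.Agent.P.MP_b8021b_nt.VC

open Polynomial Finset Pool.Agent.P.MP_b8021b_nt.VE
open scoped Classical WithZero IntermediateField

namespace TowerP

/-- values can be read below -/
theorem val_down {F M : Type} [Field F] [Field M] {j : F →+* M} {q : GPt M} {r : GPt F}
    (h : Le j q r) {a : F} {c : Qb} (hc : q.Val (j a) c) : r.Val a c := by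
  by_cases ha : a ∈ r.v.valuationSubring
  · obtain ⟨c', hc'⟩ := r.exists_val ha
    rwa [hc.unique (h _ _ hc')]
  · have ha0 : a ≠ 0 := by
      rintro rfl
      exact ha (zero_mem _)
    have h1 : 0 < r.ord a⁻¹ := by
      rw [r.ord_inv]
      linarith [(r.ord_neg_iff a).2 ha]
    have h2 := hc.mul (h _ _ (r.val_zero_of_ord_pos h1))
    rw [← map_mul, mul_inv_cancel₀ ha0, map_one, mul_zero] at h2
    exact absurd (h2.unique q.val_one) zero_ne_one

theorem v_eq_of_ord {F M : Type} [Field F] [Field M] {j : F →+* M} {q : GPt M} {r : GPt F}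
    (h : ∀ a, q.ord (j a) = r.ord a) (a : F) : q.v (j a) = r.v a := by
  rcases eq_or_ne a 0 with rfl | ha
  · simp
  · rw [q.v_eq ((_root_.map_ne_zero j).2 ha), r.v_eq ha, h]

/-- the invariant of the induction -/
def Inv (K₀ : Type) [Field K₀] {I : Type} (P : I → K₀[X]) (s : Finset I) : Prop :=
  ∃ (M : Type) (_ : Field M) (_ : Algebra K₀ M) (_ : FiniteDimensional K₀ M) (u : I → M),
    (∀ i ∈ s, aeval (u i) (P i) = 0) ∧ IntermediateField.adjoin K₀ (u '' s) = ⊤ ∧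
    (∀ (p₀ : GPt K₀) (Pb : I → Qb[X]) (c : I → Qb),
      (∀ i ∈ s, Red p₀ (P i) (Pb i) ∧ (Pb i).Separable ∧ (Pb i).IsRoot (c i)) →
      ∃! q : GPt M, Le (algebraMap K₀ M) q p₀ ∧ ∀ i ∈ s, q.Val (u i) (c i)) ∧
    (∀ p₀ : GPt K₀, (∀ i ∈ s, ∃ Pb, Red p₀ (P i) Pb ∧ Pb.Separable) →
      ∀ q : GPt M, Le (algebraMap K₀ M) q p₀ → ∀ a, q.ord (algebraMap K₀ M a) = p₀.ord a) ∧
    ∀ (N : Type) [Field N] (φ : K₀ →+* N) (w : I → N), (∀ i ∈ s, (P i).eval₂ φ (w i) = 0) →
      ∃ ψ : M →+* N, ψ.comp (algebraMap K₀ M) = φ ∧ ∀ i ∈ s, ψ (u i) = w i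

theorem base (hRes : S_Res) (K₀ : Type) [Field K₀] [Algebra ℚ K₀] (hK : IsCurve K₀) {I : Type}
    (P : I → K₀[X]) : Inv K₀ P ∅ := by
  obtain ⟨res, -, hle, -⟩ := hRes K₀ K₀ hK
  have hr : ∀ q : GPt K₀, Le (algebraMap K₀ K₀) q q := fun q a c h => h
  have hu : ∀ q p : GPt K₀, Le (algebraMap K₀ K₀) q p → q = p := fun q p h =>
    ((hle q q).1 (hr q)).symm.trans ((hle q p).1 h)
  refine ⟨K₀, inferInstance, inferInstance, inferInstance, fun _ => 0, by simp,
    Subsingleton.elim _ _, fun p₀ _ _ _ => ⟨p₀, ⟨hr p₀, by simp⟩, fun q hq => hu _ _ hq.1⟩,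
    fun p₀ _ q hq a => by rw [hu _ _ hq]; rfl, fun N _ φ _ _ => ⟨φ, rfl, by simp⟩⟩

theorem step (hCrv : S_Crv) (hRes : S_Res) (hSplit : S_Split) (hEis : S_Eis) (K₀ : Type)
    [Field K₀] [Algebra ℚ K₀] (hK : IsCurve K₀) {I : Type} (P : I → K₀[X]) (s : Finset I) (j : I)
    (hj : j ∉ s) (p : GPt K₀) (hm : (P j).Monic) (hd : 1 ≤ (P j).natDegree) (m : ℤ)
    (he : EisV p.v (P j) m) (hg : ∀ i ∈ s, ∃ Pb, Red p (P i) Pb ∧ Pb.Separable)
    (ih : Inv K₀ P s) : Inv K₀ P (insert j s) := by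
  obtain ⟨M, _, _, _, u, h1, h2, h3, h4, h5⟩ := ih
  let _ : Algebra ℚ M := ((algebraMap K₀ M).comp (algebraMap ℚ K₀)).toAlgebra
  have hM : IsCurve M := (hCrv.1 K₀ M).1 hK
  obtain ⟨q0, hq0⟩ : ∃ q : GPt M, Le (algebraMap K₀ M) q p := by
    obtain ⟨res, e, hle, -, hfib, -⟩ := hRes K₀ M hK
    by_contra hne
    have h0 : {q | res q = p} = ∅ :=
      Set.eq_empty_of_forall_notMem fun q hq => hne ⟨q, (hle q p).2 hq⟩
    have h := (hfib p).2
    rw [h0, finsum_mem_empty] at h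
    exact Module.finrank_pos.ne h
  set Q : M[X] := (P j).map (algebraMap K₀ M) with hQ
  have hQm : Q.Monic := hm.map _
  have hQd : Q.natDegree = (P j).natDegree := hm.natDegree_map _
  have hv := v_eq_of_ord (h4 p hg q0 hq0)
  have hirr : Irreducible Q := by
    refine hEis M q0.v Q m hQm (hQd ▸ hd) ⟨?_, hQd ▸ he.2.1, fun l hl => ?_⟩
    · rw [hQ, coeff_map, hv, he.1]
    · rw [hQd] at hl ⊢
      rw [hQ, coeff_map, hv]
      exact he.2.2 l hl
  have : Fact (Irreducible Q) := ⟨hirr⟩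
  have hfin : FiniteDimensional M (AdjoinRoot Q) := (AdjoinRoot.powerBasis hirr.ne_zero).finite
  have hrk : Q.natDegree = Module.finrank M (AdjoinRoot Q) :=
    (AdjoinRoot.powerBasis hirr.ne_zero).finrank.symm
  have hsp := fun (q : GPt M) (Pb : Qb[X]) => hSplit M (AdjoinRoot Q) hM (AdjoinRoot.root Q) Q q Pb
    hQm hrk (AdjoinRoot.aeval_eq Q ▸ AdjoinRoot.mk_self) (IntermediateField.adjoin_root_eq_top Q)
  obtain ⟨res, -, hle, -⟩ := hRes M (AdjoinRoot Q) hM
  have hres : ∀ q, Le (algebraMap M (AdjoinRoot Q)) q (res q) := fun q => (hle q _).2 rfl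
  have htow : ∀ a, algebraMap K₀ (AdjoinRoot Q) a =
      algebraMap M (AdjoinRoot Q) (algebraMap K₀ M a) := fun a =>
    IsScalarTower.algebraMap_apply K₀ M (AdjoinRoot Q) a
  have hdown : ∀ q p₀, Le (algebraMap K₀ (AdjoinRoot Q)) q p₀ →
      Le (algebraMap K₀ M) (res q) p₀ := fun q p₀ h a c hac =>
    val_down (hres q) (htow a ▸ h a c hac)
  have hred : ∀ (q : GPt M) (p₀ : GPt K₀) (Pb : Qb[X]), Le (algebraMap K₀ M) q p₀ →
      Red p₀ (P j) Pb → Red q Q Pb := fun q p₀ Pb h hr l => by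
    rw [hQ, coeff_map]
    exact h _ _ (hr l)
  let u' : I → AdjoinRoot Q := fun i =>
    if i = j then AdjoinRoot.root Q else algebraMap M (AdjoinRoot Q) (u i)
  have uj : u' j = AdjoinRoot.root Q := if_pos rfl
  have us : ∀ i ∈ s, u' i = algebraMap M (AdjoinRoot Q) (u i) := fun i hi =>
    if_neg fun e : i = j => hj (e ▸ hi)
  refine ⟨AdjoinRoot Q, inferInstance, inferInstance, Module.Finite.trans M _, u', ?_, ?_, ?_, ?_,
    ?_⟩
  · intro i hi
    rcases mem_insert.1 hi with rfl | hi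
    · rw [uj, ← aeval_map_algebraMap M, ← hQ, AdjoinRoot.aeval_eq, AdjoinRoot.mk_self]
    · rw [us i hi, aeval_algebraMap_apply, h1 i hi, map_zero]
  · have hA : ∀ y : M, algebraMap M (AdjoinRoot Q) y ∈
        IntermediateField.adjoin K₀ (u' '' (insert j s : Finset I)) := by
      intro y
      have hle' : IntermediateField.adjoin K₀ (u '' s) ≤
          (IntermediateField.adjoin K₀ (u' '' (insert j s : Finset I))).comap
            (IsScalarTower.toAlgHom K₀ M (AdjoinRoot Q)) := by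
        rw [IntermediateField.adjoin_le_iff]
        rintro _ ⟨i, hi, rfl⟩
        refine IntermediateField.subset_adjoin K₀ _ ⟨i, mem_coe.2 (mem_insert_of_mem hi), ?_⟩
        exact us i hi
      rw [h2] at hle'
      exact hle' IntermediateField.mem_top
    rw [eq_top_iff]
    intro x _
    obtain ⟨g, rfl⟩ := AdjoinRoot.mk_surjective x
    rw [← AdjoinRoot.aeval_eq, aeval_def, eval₂_eq_sum_range]
    refine sum_mem fun l _ => mul_mem (hA _) (pow_mem ?_ _)
    exact IntermediateField.subset_adjoin K₀ _ ⟨j, mem_coe.2 (mem_insert_self _ _), uj⟩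
  · intro p₀ Pb c hc
    obtain ⟨q₁, ⟨hq₁, hv₁⟩, hu₁⟩ := h3 p₀ Pb c fun i hi => hc i (mem_insert_of_mem hi)
    obtain ⟨r1, r2, r3⟩ := hc j (mem_insert_self _ _)
    obtain ⟨q₂, ⟨hq₂, hv₂⟩, hu₂⟩ := (hsp q₁ (Pb j) (hred q₁ p₀ _ hq₁ r1) r2).1 (c j) r3
    refine ⟨q₂, ⟨fun a b hab => htow a ▸ hq₂ _ _ (hq₁ a b hab), fun i hi => ?_⟩, ?_⟩
    · rcases mem_insert.1 hi with rfl | hi
      · exact uj ▸ hv₂
      · exact us i hi ▸ hq₂ _ _ (hv₁ i hi)
    · rintro q ⟨hq, hvq⟩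
      have e : res q = q₁ := hu₁ _ ⟨hdown q p₀ hq, fun i hi =>
        val_down (hres q) (us i hi ▸ hvq i (mem_insert_of_mem hi))⟩
      exact hu₂ q ⟨e ▸ hres q, uj ▸ hvq j (mem_insert_self _ _)⟩
  · intro p₀ hp q hq a
    obtain ⟨Pb, r1, r2⟩ := hp j (mem_insert_self _ _)
    rw [htow, ((hsp (res q) Pb (hred _ p₀ _ (hdown q p₀ hq) r1) r2).2 q (hres q)).2]
    exact h4 p₀ (fun i hi => hp i (mem_insert_of_mem hi)) _ (hdown q p₀ hq) a
  · intro N _ φ w hw
    obtain ⟨ψ, e1, e2⟩ := h5 N φ w fun i hi => hw i (mem_insert_of_mem hi)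
    have h0 : Q.eval₂ ψ (w j) = 0 := by
      rw [hQ, eval₂_map, e1]
      exact hw j (mem_insert_self _ _)
    refine ⟨AdjoinRoot.lift ψ (w j) h0, ?_, fun i hi => ?_⟩
    · rw [← e1]
      ext a
      rw [RingHom.comp_apply, htow, AdjoinRoot.algebraMap_eq, AdjoinRoot.lift_of,
        RingHom.comp_apply]
    · rcases mem_insert.1 hi with rfl | hi
      · rw [uj, AdjoinRoot.lift_root]
      · rw [us i hi, AdjoinRoot.algebraMap_eq, AdjoinRoot.lift_of, e2 i hi]

end TowerP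

open TowerP in
theorem p_tower (hCrv : S_Crv) (hRes : S_Res) (hSplit : S_Split) (hEis : S_Eis) : S_Tower := by
  intro K₀ _ _ hK I _ P d p hd hP hG
  have hall : ∀ s : Finset I, Inv K₀ P s := by
    intro s
    induction s using Finset.induction_on with
    | empty => exact base hRes K₀ hK P
    | insert j s hj ih =>
      obtain ⟨hm, hn, m, he⟩ := hP j
      exact step hCrv hRes hSplit hEis K₀ hK P s j hj (p j) hm (hn ▸ hd) m he
        (fun i hi => hG j i fun e => hj (e ▸ hi)) ih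
  obtain ⟨M, _, _, _, u, h1, h2, h3, -, h5⟩ := hall univ
  rw [coe_univ, Set.image_univ] at h2
  refine ⟨M, inferInstance, inferInstance, inferInstance, u, fun i => h1 i (mem_univ i), h2,
    fun p₀ Pb c hc => ?_, fun γ π hπ => ?_⟩
  · simpa only [mem_univ, forall_true_left] using h3 p₀ Pb c fun i _ => hc i
  · obtain ⟨ψ, e1, e2⟩ := h5 M ((algebraMap K₀ M).comp (γ : K₀ →+* K₀)) (fun i => u (π i))
      fun i _ => by
        rw [← eval₂_map, hπ]
        exact h1 _ (mem_univ _)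
    have e3 : ∀ a, ψ (algebraMap K₀ M a) = algebraMap K₀ M (γ a) := fun a =>
      RingHom.congr_fun e1 a
    have hs : Function.Surjective ψ := by
      intro y
      have hy : y ∈ IntermediateField.adjoin K₀ (Set.range u) := h2 ▸ IntermediateField.mem_top
      induction hy using IntermediateField.adjoin_induction with
      | mem x hx =>
        obtain ⟨i, rfl⟩ := hx
        exact ⟨u (π.symm i), by rw [e2 _ (mem_univ _), Equiv.apply_symm_apply]⟩
      | algebraMap a => exact ⟨algebraMap K₀ M (γ.symm a), by rw [e3, RingEquiv.apply_symm_apply]⟩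
      | add x y _ _ hx hy =>
        obtain ⟨a, rfl⟩ := hx
        obtain ⟨b, rfl⟩ := hy
        exact ⟨a + b, map_add ψ a b⟩
      | inv x _ hx =>
        obtain ⟨a, rfl⟩ := hx
        exact ⟨a⁻¹, map_inv₀ ψ a⟩
      | mul x y _ _ hx hy =>
        obtain ⟨a, rfl⟩ := hx
        obtain ⟨b, rfl⟩ := hy
        exact ⟨a * b, map_mul ψ a b⟩
    exact ⟨RingEquiv.ofBijective ψ ⟨ψ.injective, hs⟩, e3, fun i => e2 i (mem_univ i)⟩

end Pool.Agent.P.MP_b8021b_nt.VC
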