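import Pool.Agent.P.MP_b8021b_nt.VE.StB

/-! Part B with a bounded, not exactly known, number of points over each prime: definitions and
the two statements that the other parts use. The structures `Base`, `Side`, `Box`, `Sys` and the
predicates `Tup`, `Mix`, `Box.Ok` are those of the folder VE. -/

namespace Pool.Agent.P.MP_b8021b_nt.VE

open Polynomial Finset
open scoped Classical

noncomputable section

section B

variable {P X Z T S : Type} [Fintype P] [Fintype X] [Fintype Z] [Fintype T] [Fintype S]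

/-- primes, points and weights; at most `κ * q` points over a prime -/
structure Base.OkK (b : Base P X) (κ ε : ℝ) : Prop where
  one_le : 1 ≤ κ
  Npos : 1 ≤ ε * b.N
  lev_lt : ∀ a, b.lev a < b.N
  v_mem : ∀ a, (b.lev a : ℝ) / b.N ≤ b.v a ∧ b.v a ≤ (b.lev a + 1) / b.N
  q_ge : ∀ a, (b.N : ℝ) ≤ ε * b.q a
  w_nonneg : ∀ a, 0 ≤ b.w a
  w_le : ∀ a, b.w a ≤ ε / b.N
  w_sum : ∀ i < b.N, ∑ a with b.lev a = i, b.w a ≤ κ
  card : ∀ a, ((univ.filter fun x => b.pr x = a).card : ℝ) ≤ κ * b.q a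
  mass : ∀ i < b.N, |∑ a with b.lev a = i,
    b.w a * (((univ.filter fun x => b.pr x = a).card : ℝ) / b.q a) - 1| ≤ ε / b.N
  ι_ι : ∀ x, b.ι (b.ι x) = x
  pr_ι : ∀ x, b.pr (b.ι x) = b.pr x

/-- independence of the incidences over different primes -/
structure Side.OkK (σ : Side X Z) (b : Base P X) (κ ε : ℝ) : Prop where
  nonneg : ∀ z, 0 ≤ σ.wt z
  sum : ∑ z, σ.wt z = 1
  ind : ∀ Y : Finset X, Y.card ≤ 3 → Set.InjOn b.pr Y →
    |σ.prob Y * (∏ x ∈ Y, b.q (b.pr x)) - 1| ≤ ε / b.N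
  same0 : ∀ x, ∑ x' with b.pr x' = b.pr x, σ.prob {x, x'} * b.q (b.pr x) ≤ κ
  same1 : ∀ x₀ x, b.pr x ≠ b.pr x₀ →
    ∑ x' with b.pr x' = b.pr x, σ.prob {x₀, x, x'} * (b.q (b.pr x₀) * b.q (b.pr x)) ≤ κ

/-- a mixing design -/
structure DesK (κ : ℝ) (b : Base P X) (σT : Side X T) (σS : Side X S) (u : ℕ)
    (μ : T → S → (Fin (u + 2) → X) → ℝ) (ε : ℝ) : Prop where
  base : b.OkK κ ε
  sT : σT.OkK b κ ε
  sS : σS.OkK b κ ε
  mix : Mix b σT σS u μ ε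

/-- a mixing design with a cochain -/
structure Sys.OkK {Nc u : ℕ} (G : Sys P X T S Nc u) (κ : ℝ) (d : ℕ) (ε : ℝ) : Prop where
  des : DesK κ G.b G.σT G.σS u G.μ ε
  box : G.box.Ok G.σT G.b ε
  anti : ∀ x t, G.σT.on x t → G.c₁ (G.b.ι x) t = -G.c₁ x t
  degF : ∀ s, (G.F s).natDegree ≤ d + 1
  degQ : ∀ s, (G.Q s).natDegree ≤ d
  pos : ∀ s, ∀ a ∈ G.I, 0 < (G.F s).eval a
  flat : ∀ s, ∀ a ∈ G.I, ∀ a' ∈ G.I, (G.F s).eval a ≤ 2 * (G.F s).eval a'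
  deriv : ∀ s, ∀ a ∈ G.I, HasDerivAt (G.A s) ((G.Q s).eval a / (G.F s).eval a) a
  zero : ∀ s, G.Q s = 0 → ∀ a ∈ G.I, G.A s a = 0
  size : ∀ t s x, G.μ t s x ≠ 0 → ∑ i, G.b.v (G.b.pr (x i)) = G.Lg d s t
  eqn : ∀ t s x, G.μ t s x ≠ 0 →
    ∑ i, G.c₁ (x i) t = G.β + ∑ i, G.c₂ (x i) s + G.A s (G.box.τ t)

end B

end

end Pool.Agent.P.MP_b8021b_nt.VE

namespace Pool.Agent.P.MP_b8021b_nt.VC

open Polynomial Finset
open Pool.Agent.P.MP_b8021b_nt.VE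
open scoped Classical

/-- B13: two scales -/
def S_BK : Prop :=
  ∀ (κ : ℝ) (u d : ℕ), 6 ≤ u → ∃ (Nc : ℕ) (ε : ℝ), 1 ≤ Nc ∧ 0 < ε ∧
    ∀ (P X T T' S : Type) [Fintype P] [Fintype X] [Fintype T] [Fintype T'] [Fintype S]
      (G : Sys P X T S Nc u) (G' : Sys P X T' S Nc (u + 1)), G.OkK κ d ε → G'.OkK κ d ε →
      G'.b = G.b → G'.σS = G.σS → G'.c₂ = G.c₂ → G'.β = G.β → G.β = 0

/-- B0: pair correlations control the cut norm -/
def S_CutK : Prop :=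
  ∀ (κ : ℝ) (u : ℕ), 6 ≤ u → ∀ ε' : ℝ, 0 < ε' → ∃ ε : ℝ, 0 < ε ∧
    ∀ (P X T S : Type) [Fintype P] [Fintype X] [Fintype T] [Fintype S] (b : Base P X)
      (σT : Side X T) (σS : Side X S) (μ : T → S → (Fin (u + 2) → X) → ℝ) (T₀ : Finset T)
      (W : T → S → X → X → ℝ),
    b.OkK κ ε → σT.OkK b κ ε → σS.OkK b κ ε → Tup b σT σS u μ →
    (∀ t s a a', ∑ x with x 0 = a ∧ x 1 = a', μ t s x =
      if t ∈ T₀ then nu b σT σS u t s a a' * W t s a a' else 0) →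
    ∑ t with t ∉ T₀, σT.wt t ≤ ε →
    ∑ a, ∑ a', ∑ t ∈ T₀, ∑ t' ∈ T₀, b.om u a a' * σT.c2 b a a' t * σT.c2 b a a' t' *
      |∑ s, σS.c2 b a a' s * ((W t s a a' - 1) * (W t' s a a' - 1))| ≤ ε →
    Mix b σT σS u μ ε'

end Pool.Agent.P.MP_b8021b_nt.VC
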