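import Pool.Agent.P.MP_b8021b_nt.VC.DefN
import Pool.Agent.P.MP_b8021b_nt.VC.BDefs

/-!
Auxiliary definitions (part N, the design) for the theorem that `V(C)` is torsion for curves over
number fields. See h47_VC.md in the team store.
-/

namespace Pool.Agent.P.MP_b8021b_nt.VC

open Polynomial NumberField Finset Pool.Agent.P.MP_b8021b_nt.VE
open scoped Classical

noncomputable section

/-! ### weighted sums over primes -/

/-- the prime `q` splits in the base field -/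
def spl (r q : ℕ) : Prop := ¬ q ∣ 2 * r ∧ IsSquare (-(r : ZMod q))

/-- the weight of a split prime in its stratum -/
def wk (r : ℕ) (y : ℝ) (N q : ℕ) : ℝ :=
  if spl r q then Real.log q / (2 * ∑ q' ∈ strat y N (lv y N q) with spl r q', Real.log q') else 0

/-- the weighted sum of a function over a stratum -/
def Smw (ω : ℕ → ℝ) (y : ℝ) (N i : ℕ) (a : ℕ → ℂ) : ℂ := ∑ q ∈ strat y N i, ω q * a q

section Fld

variable (k : Type) [Field k] [NumberField k] [Algebra k ℂ] (E : Type) [Field E] [NumberField E]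
  [Algebra k E]

/-- the contribution of the nontrivial ray class characters -/
def Err (ω : ℕ → ℝ) (y : ℝ) (N u n : ℕ) (Tb : ℝ) : ℝ :=
  ∑ᶠ χ ∈ {χ : Ideal (𝓞 E) →* ℂ | χ ∈ Chs k n ((N : ℝ) ^ 2) Tb ∧ ¬ IsTriv n χ},
    ∑ i ∈ range N, ‖Smw ω y N i (lam χ)‖ ^ u

/-- the primes coprime to `n` are equidistributed -/
def EqD (ω : ℕ → ℝ) (y : ℝ) (N u n : ℕ) (Tb ε : ℝ) : Prop :=
  Err k E ω y N u n Tb ≤ ε ∧ ∀ i < N, ‖Smw ω y N i (lam (triv E n)) - 1‖ ≤ ε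

/-- some character has a large sum that does not come from the base field -/
def Bad (ω ωk : ℕ → ℝ) (M : ℕ) (y : ℝ) (N : ℕ) (δ : ℝ) (c : ℕ) : Prop :=
  ∃ i < N, y ^ (-δ) < ‖Smw ω y N i (lam fun _ : Ideal (𝓞 E) => 1) - 1‖ ∨
    ∃ (n : ℕ) (χ : Ideal (𝓞 E) →* ℂ), 1 ≤ n ∧ M ∣ n ∧ (n : ℝ) ≤ y ^ c ∧
      χ ∈ Chs k n ((N : ℝ) ^ 2) (y ^ c) ∧ y ^ (-δ) < ‖Smw ω y N i (lam χ)‖ ∧
      ¬ ∃ ξ : Ideal (𝓞 k) →* ℂ, ξ ∈ Chs k (n ^ 2) ((N : ℝ) ^ 2) 0 ∧ Ind ξ χ n ∧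
        ‖Smw ω y N i (lam χ) - Smw ωk y N i (lam ξ)‖ ≤ y ^ (-δ)

/-- the natural size of a sum over a coset in a region where all embeddings are comparable -/
def Th (N u n : ℕ) : ℝ :=
  (N : ℝ) ^ u / (Rs E n * (n : ℝ) ^ Module.finrank ℚ E * cov2 k E)

variable {E} in
/-- all embeddings of `α` have comparable size -/
def Cmp (α : 𝓞 E) : Prop := ∀ φ φ', ‖emb k α φ‖ ≤ 3 * ‖emb k α φ'‖

end Fld

section Fac

variable {L : Type} [Field L] [NumberField L]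

/-- weighted number of factorisations of `α` as `𝔞` times `u` primes of the window -/
def Wan (ω : ℕ → ℝ) (y : ℝ) (N u : ℕ) (𝔞 : Ideal (𝓞 L)) (α : 𝓞 L) : ℝ :=
  ∑ q ∈ Fintype.piFinset fun _ : Fin u => Pset y N, (∏ j, ω (q j)) *
    Set.ncard {I : Fin u → Ideal (𝓞 L) | (∀ j, Ideal.absNorm (I j) = q j) ∧
      Ideal.span {α} = 𝔞 * ∏ j, I j}

/-- the smooth model of `Wan` on a coset of `n 𝔞` -/
def Lam (y : ℝ) (N u n : ℕ) (𝔞 : Ideal (𝓞 L)) (α : 𝓞 L) : ℝ :=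
  if α = 0 then 0 else
    ∑ m ∈ range (u * N + 1), cnt u N m * (N / (Rs L n * y ^ u * Real.exp (m / N))) *
      tent (N * Real.log (Ideal.absNorm (Ideal.span {α}) / (Ideal.absNorm 𝔞 * y ^ u)) - m)

variable (L) in
/-- the local density on the unit cosets -/
def cc (m n : ℕ) : ℝ := Rs L m / Rs L n

end Fac

/-! ### the design -/

variable {R : Type} [CommRing R] [Algebra ℤ[X] R]

/-- the points over a prime -/
def Xq (p : Par R) (q : ℕ) : Finset p.Pn :=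
  ({q} ×ˢ range q ×ˢ range q ×ˢ Fintype.piFinset fun _ => range q).filter p.IsPt

/-- the weight of a prime -/
def wt (p : Par R) (y : ℝ) (N q : ℕ) : ℝ := 2 * q * wk p.r y N q / (Xq p q).card

/-- the points of the window -/
def Xset (p : Par R) (y : ℝ) (N : ℕ) : Finset p.Pn := (Pset y N).biUnion (Xq p)

lemma mem_Xq {p : Par R} {q : ℕ} {x : p.Pn} : x ∈ Xq p q ↔ x.1 = q ∧ p.IsPt x := by
  unfold Xq
  simp only [mem_filter, mem_product, mem_singleton, mem_range, Fintype.mem_piFinset]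
  constructor
  · rintro ⟨⟨h, -⟩, h'⟩
    exact ⟨h, h'⟩
  · rintro ⟨rfl, h⟩
    exact ⟨⟨rfl, h.2.2.1, h.2.2.2.2.1, h.2.2.2.2.2.1⟩, h⟩

lemma mem_Xset {p : Par R} {y : ℝ} {N : ℕ} {x : p.Pn} :
    x ∈ Xset p y N ↔ x.1 ∈ Pset y N ∧ p.IsPt x := by
  unfold Xset
  simp only [mem_biUnion, mem_Xq]
  constructor
  · rintro ⟨q, hq, rfl, h⟩
    exact ⟨hq, h⟩
  · rintro ⟨h, h'⟩
    exact ⟨_, h, rfl, h'⟩

lemma Par.IsPt.inv {p : Par R} {x : p.Pn} (h : p.IsPt x) : p.IsPt (p.inv x) := by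
  obtain ⟨h1, h2, h3, h4, h5, h6, h7, h8, h9⟩ := h
  refine ⟨h1, h2, h3, ?_, ?_, h6, ?_, h8, h9⟩
  · simp only [Par.inv]; omega
  · simp only [Par.inv]; omega
  · simp only [Par.inv]
    rw [← Int.natCast_dvd_natCast] at h7 ⊢
    push_cast [Nat.cast_sub h5.le] at h7 ⊢
    obtain ⟨c, hc⟩ := h7
    exact ⟨c + x.1 - 2 * x.2.2.1, by linear_combination hc⟩

/-- the base of the design -/
def base (p : Par R) (y : ℝ) (N : ℕ) : Base (Pset y N) (Xset p y N) where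
  N := N
  pr x := ⟨x.1.1, (mem_Xset.mp x.2).1⟩
  lev q := lv y N q.1
  q q := q.1
  v q := Real.log (q.1 / y)
  w q := wt p y N q.1
  ι x := ⟨p.inv x.1, mem_Xset.mpr ⟨(mem_Xset.mp x.2).1, (mem_Xset.mp x.2).2.inv⟩⟩

/-- centre of the box of sections -/
def cen (p : Par R) (S0 : ℕ) : p.Co := fun j =>
  if j.1 = (p.toTab.i0, false) ∧ j.2.1 = p.d j.1.1 then S0 else 0

/-- the sections -/
def Sset (p : Par R) (S0 L : ℕ) : Finset p.Co :=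
  Fintype.piFinset fun j => Finset.Ioo (cen p S0 j - L) (cen p S0 j + L)

/-- the weight of a section -/
def wS (p : Par R) (S0 L : ℕ) (s : p.Co) : ℝ :=
  ∏ j, tent (((s j - cen p S0 j : ℤ) : ℝ) / L) / L

def sideS (p : Par R) (y : ℝ) (N S0 L : ℕ) : Side (Xset p y N) (Sset p S0 L) where
  on x s := p.OnS x.1 s.1
  wt s := wS p S0 L s.1

/-- the fixed modulus of the fibres away from `r` -/
def Mf (p : Par R) (z : ℕ) : ℕ := M0 p.r z * p.e ^ p.ke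

/-- the fibres -/
def Tset (p : Par R) (c : Cfg) : Finset (ℤ × ℤ) :=
  (Finset.Icc ⌊2 * c.B * c.τ0⌋ 0 ×ˢ Finset.Icc 0 ⌈2 * c.B⌉).filter fun t =>
    c.B ≤ t.2 ∧ t.2 < c.B * (1 + c.η) ∧ c.τ0 ≤ (t.1 : ℝ) / t.2 ∧ (t.1 : ℝ) / t.2 < c.τ0 + c.η ∧
      (p.r : ℤ) ^ p.n0 ∣ t.1 - 1 ∧ (p.r : ℤ) ^ p.n0 ∣ t.2 - p.r ^ p.b0 ∧
      (Mf p c.z : ℤ) ∣ t.1 ∧ (Mf p c.z : ℤ) ∣ t.2 - 1

/-- the weight of a fibre -/
def wT (p : Par R) (c : Cfg) (t : ℤ × ℤ) : ℝ := ((t.2 : ℝ))⁻¹ / ∑ t' ∈ Tset p c, ((t'.2 : ℝ))⁻¹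

def sideT (p : Par R) (c : Cfg) : Side (Xset p c.y c.N) (Tset p c) where
  on x t := p.OnT x.1 t.1
  wt t := wT p c t.1

def box (p : Par R) (c : Cfg) (Nc : ℕ) [NeZero Nc] : Box (Tset p c) Nc where
  τ0 := c.τ0
  B := c.B
  η := c.η
  τ t := (t.1.1 : ℝ) / t.1.2
  b t := t.1.2
  cell t := (Fin.ofNat Nc ⌊Nc * ((t.1.1 : ℝ) / t.1.2 - c.τ0) / c.η⌋₊,
    Fin.ofNat Nc ⌊Nc * ((t.1.2 : ℝ) / c.B - 1) / c.η⌋₊)

/-- the exponent that bounds all moduli -/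
def Par.cE (p : Par R) : ℕ := 12 * (p.ρ + p.dD) + 6 * p.dd + 28

/-- the value of the central section with `S0 = 1` at `τ0` -/
def Par.g1 (p : Par R) : ℝ := (p.r : ℝ) ^ p.n0 * aeval p.τ0 p.G * p.τ0 ^ (p.dd - p.ρ)

/-- the bad integer of a fibre -/
def Par.Mb (p : Par R) (t : ℤ × ℤ) : ℕ := (2 * p.r * t.2 * p.Gt t * p.Dt t).natAbs

/-- half the number of points over `q` on the fibre `t` -/
def Par.rho (p : Par R) (t : ℤ × ℤ) (q : ℕ) : ℝ := (((Xq p q).filter fun x => p.OnT x t).card : ℝ) / 2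

/-- the fixed constants: everything except `y` and what depends on it -/
structure Fix (R : Type) [CommRing R] [Algebra ℤ[X] R] where
  p : Par R
  u : ℕ
  hu : 6 ≤ u
  A : ℕ
  hA : 1 ≤ A
  η : ℝ
  ηpos : 0 < η
  ηle : η ≤ 1
  z : ℕ
  hz : 8 * p.e ≤ z
  σ : ℕ
  hσ : 3 * p.cE ≤ σ

/-- the ranges of the parameters -/
structure Fix.In (F : Fix R) (c : Cfg) : Prop where
  τ0 : c.τ0 = F.p.τ0
  η : c.η = F.η
  z : c.z = F.z
  N_ge : Real.log c.y ^ ((4 * F.p.e + 2) * F.A) ≤ c.N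
  N_le : c.N ≤ 2 * Real.log c.y ^ ((4 * F.p.e + 2) * F.A)
  B_ge : c.y ^ 4 ≤ c.B
  B_le : c.B ≤ c.y ^ 6
  S_ge : c.y ^ F.σ ≤ c.S0
  L_ge : c.η * c.S0 / 2 ≤ c.L
  L_le : c.L ≤ c.η * c.S0
  size : (c.B ^ F.p.dd * (c.S0 * F.p.g1)) ^ (2 * F.p.e) =
    (F.p.r : ℝ) ^ F.p.e0 * c.y ^ (F.u + 2) * Real.exp ((F.u + 2) / 2)

/-- `Φ` holds for all large `y` -/
def Fix.Ev (F : Fix R) (Φ : Cfg → Prop) : Prop := ∃ y₀ : ℝ, ∀ c, y₀ ≤ c.y → F.In c → Φ c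

/-- the modulus attached to two points and two fibres -/
def nn (p : Par R) (x x' : p.Pn) (t t' : ℤ × ℤ) : ℕ :=
  (2 * (p.r : ℤ) ^ (p.n0 + 1) * x.1 * x'.1 * p.Gt t * p.Gt t' * dl t t' * p.Dt t * p.Dt t' *
    t.2 * t'.2).natAbs

/-- the singular series majorant -/
def Pi (p : Par R) (z n : ℕ) : ℝ :=
  ∏ l ∈ n.primeFactors.filter (fun l => z < l), (1 + 20 * p.e / (l : ℝ))

/-- two points over different primes on two primitive fibres -/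
structure IsQ (p : Par R) (c : Cfg) (x x' : p.Pn) (t t' : ℤ × ℤ) : Prop where
  hx : x ∈ Xset p c.y c.N
  hx' : x' ∈ Xset p c.y c.N
  ht : t ∈ Tset p c
  ht' : t' ∈ Tset p c
  ne : x.1 ≠ x'.1
  o11 : p.OnT x t
  o12 : p.OnT x t'
  o21 : p.OnT x' t
  o22 : p.OnT x' t'
  pr : IsCoprime t.1 t.2
  pr' : IsCoprime t'.1 t'.2

/-- weighted sum over the quadruples -/
def Qs (p : Par R) (c : Cfg) (Φ : p.Pn → p.Pn → ℤ × ℤ → ℤ × ℤ → ℝ) : ℝ :=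
  ∑ x ∈ Xset p c.y c.N, ∑ x' ∈ Xset p c.y c.N, ∑ t ∈ Tset p c, ∑ t' ∈ Tset p c,
    if IsQ p c x x' t t' then
      wt p c.y c.N x.1 * wt p c.y c.N x'.1 * (x.1 * x'.1) * wT p c t * wT p c t' / c.N ^ 2 *
        Φ x x' t t'
    else 0

/-- conditional expectation over the sections through two points -/
def Es (p : Par R) (c : Cfg) (x x' : p.Pn) (Φ : p.Co → ℝ) : ℝ :=
  ∑ s ∈ Sset p c.S0 c.L with p.OnS x s ∧ p.OnS x' s, wS p c.S0 c.L s * (x.1 * x'.1) * Φ s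

/-- the normalising factor of a fibre -/
def kap (L : Type) [Field L] [NumberField L] (p : Par R) (c : Cfg) (u : ℕ) : ℝ :=
  c.y ^ (u + 2) * Real.exp (Mz c.N u / c.N) * Rs L (M0 p.r c.z * p.r) /
    (c.N * cnt (u + 2) c.N (Mz c.N u))

/-- the normalising factor of a fibre and two points -/
def kap' (L : Type) [Field L] [NumberField L] (p : Par R) (c : Cfg) (u : ℕ) (x x' : p.Pn) : ℝ :=
  kap L p c u / (x.1 * x'.1 * Hh c.N u (lv c.y c.N x.1) (lv c.y c.N x'.1))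

/-- weighted number of completions of two points to a good tuple -/
def Wg (p : Par R) (c : Cfg) (u : ℕ) (t : ℤ × ℤ) (s : p.Co) (x x' : p.Pn) : ℝ :=
  ∑ v ∈ Fintype.piFinset fun _ : Fin u => Xset p c.y c.N with
    p.Good t s (Fin.cons x (Fin.cons x' v) : Fin (u + 2) → p.Pn), ∏ j, wt p c.y c.N (v j).1

section

variable {p : Par R} {t t' : ℤ × ℤ} {k L L' : Type} [Field k] [NumberField k] [Algebra k ℂ]
  [Field L] [Algebra k L] [Field L'] [Algebra k L']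

/-- the fixed part of the factorisation -/
def Fb.a0 (Φ : Fb p t k L) (K : BF k) (𝔮 : Ideal (𝓞 L)) (x x' : p.Pn) : Ideal (𝓞 L) :=
  𝔮 ^ p.e0 * Φ.J K x * Φ.J K x'

/-- mass of the sections with prescribed values on two fibres -/
def om (K : BF k) (Φ : Fb p t k L) (Φ' : Fb p t' k L') (c : Cfg) (α : 𝓞 L) (α' : 𝓞 L') : ℝ :=
  ∑ s ∈ Sset p c.S0 c.L with Φ.al K s = α ∧ Φ'.al K s = α', wS p c.S0 c.L s

end

/-- the design attached to the parameters has all the properties needed -/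
structure Fine (p : Par R) (c : Cfg) (u Nc : ℕ) [NeZero Nc] (ε : ℝ) : Prop where
  ypos : 0 < c.y
  box : (box p c Nc).Ok (sideT p c) (base p c.y c.N) ε
  adm : ∀ t ∈ Tset p c, p.Adm t
  pos : ∀ s ∈ Sset p c.S0 c.L, ∀ a ∈ Set.Icc c.τ0 (c.τ0 + c.η), 0 < (p.FR s).eval a
  flat : ∀ s ∈ Sset p c.S0 c.L, ∀ a ∈ Set.Icc c.τ0 (c.τ0 + c.η), ∀ a' ∈ Set.Icc c.τ0 (c.τ0 + c.η),
    (p.FR s).eval a ≤ 2 * (p.FR s).eval a'
  des : ∃ μ, DesK (4 * p.e) (base p c.y c.N) (sideT p c) (sideS p c.y c.N c.S0 c.L) u μ ε ∧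
    ∀ t s x, μ t s x ≠ 0 → p.Good t.1 s.1 fun i => (x i).1

end

end Pool.Agent.P.MP_b8021b_nt.VC
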