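import Pool.Agent.P.MP_b8021b_nt.VC.StS
import Pool.Agent.P.MP_b8021b_nt.VE.BasicS

/-! The sum of the tame symbols as a bimultiplicative pairing. -/

namespace Pool.Agent.P.MP_b8021b_nt.VC

open Polynomial Finset Pool.Agent.P.MP_b8021b_nt.VE
open scoped Classical WithZero IntermediateField

namespace PTrans

noncomputable section

variable {F M : Type} [Field F] [Field M]

/-- the value of a function at a point -/
def val (p : GPt F) (a : F) : Qb := if h : a ∈ p.v.valuationSubring then p.ρ ⟨a, h⟩ else 0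

theorem val_eq {p : GPt F} {a : F} {c : Qb} (h : p.Val a c) : val p a = c := by
  obtain ⟨h, e⟩ := h
  rw [val, dif_pos h, e]

/-- units at a point -/
def U (p : GPt F) (a : F) : Prop := a ≠ 0 ∧ p.ord a = 0

theorem U.val {p : GPt F} {a : F} (h : U p a) : val p a ≠ 0 ∧ p.Val a (val p a) := by
  obtain ⟨c, hc, hv⟩ := p.exists_val_ne h.1 h.2
  rw [val_eq hv]
  exact ⟨hc, hv⟩

theorem ord_zpow (p : GPt F) (a : F) (n : ℤ) : p.ord (a ^ n) = n * p.ord a := by
  cases n with
  | ofNat n => simpa using p.ord_pow a n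
  | negSucc n =>
    rw [zpow_negSucc, p.ord_inv, p.ord_pow, Int.negSucc_eq]
    push_cast
    ring

theorem U.mul {p : GPt F} {a b : F} (ha : U p a) (hb : U p b) : U p (a * b) :=
  ⟨mul_ne_zero ha.1 hb.1, by rw [p.ord_mul ha.1 hb.1, ha.2, hb.2, add_zero]⟩

theorem U.inv {p : GPt F} {a : F} (ha : U p a) : U p a⁻¹ :=
  ⟨inv_ne_zero ha.1, by rw [p.ord_inv, ha.2, neg_zero]⟩

theorem U.pow {p : GPt F} {a : F} (ha : U p a) (n : ℕ) : U p (a ^ n) :=
  ⟨pow_ne_zero n ha.1, by rw [p.ord_pow, ha.2, mul_zero]⟩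

theorem U.of_val {p : GPt F} {a : F} {c : Qb} (h : p.Val a c) (hc : c ≠ 0) : U p a :=
  ⟨h.ne_zero hc, h.ord_eq_zero hc⟩

/-- additive functionals -/
def Ad (l : GPt F → Qb → ℝ) : Prop :=
  ∀ p u v, u ≠ 0 → v ≠ 0 → l p (u * v) = l p u + l p v

/-- the functional on the value of a function -/
def lam (l : GPt F → Qb → ℝ) (p : GPt F) (a : F) : ℝ := l p (val p a)

variable {l : GPt F → Qb → ℝ}

theorem Ad.one (hl : Ad l) (p : GPt F) : l p 1 = 0 := by
  have := hl p 1 1 one_ne_zero one_ne_zero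
  rw [mul_one] at this
  linarith

theorem Ad.neg_one (hl : Ad l) (p : GPt F) : l p (-1) = 0 := by
  have := hl p (-1) (-1) (neg_ne_zero.2 one_ne_zero) (neg_ne_zero.2 one_ne_zero)
  rw [neg_mul_neg, mul_one, hl.one] at this
  linarith

theorem lam_mul (hl : Ad l) {p : GPt F} {a b : F} (ha : U p a) (hb : U p b) :
    lam l p (a * b) = lam l p a + lam l p b := by
  rw [lam, val_eq (ha.val.2.mul hb.val.2), hl p _ _ ha.val.1 hb.val.1]
  rfl

theorem lam_one (hl : Ad l) (p : GPt F) : lam l p 1 = 0 := by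
  rw [lam, val_eq p.val_one, hl.one]

theorem lam_inv (hl : Ad l) {p : GPt F} {a : F} (ha : U p a) : lam l p a⁻¹ = -lam l p a := by
  have := lam_mul hl ha ha.inv
  rw [mul_inv_cancel₀ ha.1, lam_one hl] at this
  linarith

theorem lam_pow (hl : Ad l) {p : GPt F} {a : F} (ha : U p a) (n : ℕ) :
    lam l p (a ^ n) = n * lam l p a := by
  induction n with
  | zero => rw [pow_zero, lam_one hl]; simp
  | succ n ih => rw [pow_succ, lam_mul hl (ha.pow n) ha, ih]; push_cast; ring

theorem lam_zpow (hl : Ad l) {p : GPt F} {a : F} (ha : U p a) (n : ℤ) :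
    lam l p (a ^ n) = n * lam l p a := by
  cases n with
  | ofNat n => simpa using lam_pow hl ha n
  | negSucc n =>
    rw [zpow_negSucc, lam_inv hl (ha.pow _), lam_pow hl ha, Int.negSucc_eq]
    push_cast
    ring

theorem lam_sign (hl : Ad l) {p : GPt F} {a : F} (h : p.Val a 1 ∨ p.Val a (-1)) (n : ℤ) :
    lam l p (a ^ n) = 0 := by
  rcases h with h | h
  · rw [lam_zpow hl (U.of_val h one_ne_zero), lam, val_eq h, hl.one, mul_zero]
  · rw [lam_zpow hl (U.of_val h (neg_ne_zero.2 one_ne_zero)), lam, val_eq h, hl.neg_one, mul_zero]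

/-- the function whose value is the tame symbol -/
def ts (p : GPt F) (f g : F) : F := f ^ p.ord g / g ^ p.ord f

theorem ts_U (p : GPt F) {f g : F} (hf : f ≠ 0) (hg : g ≠ 0) : U p (ts p f g) := by
  refine ⟨div_ne_zero (zpow_ne_zero _ hf) (zpow_ne_zero _ hg), ?_⟩
  rw [ts, p.ord_div (zpow_ne_zero _ hf) (zpow_ne_zero _ hg), ord_zpow, ord_zpow]
  ring

/-- the local term -/
def b (l : GPt F → Qb → ℝ) (p : GPt F) (f g : F) : ℝ := lam l p (ts p f g)

theorem b_mul (hl : Ad l) (p : GPt F) {f g g' : F} (hf : f ≠ 0) (hg : g ≠ 0) (hg' : g' ≠ 0) :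
    b l p f (g * g') = b l p f g + b l p f g' := by
  rw [b, b, b, ← lam_mul hl (ts_U p hf hg) (ts_U p hf hg'), ts, ts, ts, p.ord_mul hg hg',
    zpow_add₀ hf, mul_zpow, div_mul_div_comm]

theorem b_symm (hl : Ad l) (p : GPt F) {f g : F} (hf : f ≠ 0) (hg : g ≠ 0) :
    b l p g f = -b l p f g := by
  rw [b, b, ← lam_inv hl (ts_U p hf hg), ts, ts, inv_div]

theorem b_zero (hl : Ad l) (p : GPt F) {f g : F} (hf : p.ord f = 0) (hg : p.ord g = 0) :
    b l p f g = 0 := by
  rw [b, ts, hf, hg, zpow_zero, zpow_zero, div_one, lam_one hl]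

theorem b_st_pos (hl : Ad l) (p : GPt F) {f : F} (h : 0 < p.ord f) : b l p f (1 - f) = 0 := by
  have h1 : p.Val (1 - f) 1 := by simpa using p.val_one.sub (p.val_zero_of_ord_pos h)
  rw [b, ts, h1.ord_eq_zero one_ne_zero, zpow_zero, one_div, ← zpow_neg]
  exact lam_sign hl (Or.inl h1) _

theorem b_st (hl : Ad l) (p : GPt F) {f : F} (hf : f ≠ 0) (hg : 1 - f ≠ 0) :
    b l p f (1 - f) = 0 := by
  rcases lt_trichotomy (p.ord f) 0 with h | h | h
  · have h0 : p.Val f⁻¹ 0 := p.val_zero_of_ord_pos (by rw [p.ord_inv]; omega)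
    have h1 : p.Val ((1 - f) / f) (-1) := by
      have := h0.sub p.val_one
      rw [zero_sub] at this
      rwa [sub_div, one_div, div_self hf]
    have h2 := h1.ord_eq_zero (neg_ne_zero.2 one_ne_zero)
    rw [p.ord_div hg hf, sub_eq_zero] at h2
    rw [b, ts, h2, ← inv_div, ← div_zpow, ← zpow_neg]
    exact lam_sign hl (Or.inr h1) _
  · obtain ⟨c, -, hc⟩ := p.exists_val_ne hf h
    have h1 := p.ord_nonneg (p.val_one.sub hc).mem
    rcases h1.eq_or_lt with h1 | h1
    · exact b_zero hl p h h1.symm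
    · have := b_st_pos hl p h1
      rw [sub_sub_cancel] at this
      rw [b_symm hl p hg hf, this, neg_zero]
  · exact b_st_pos hl p h

/-- the global pairing -/
def B (l : GPt F → Qb → ℝ) (f g : F) : ℝ := ∑ᶠ p, b l p f g

/-- every function has finitely many zeros and poles -/
def FO (F : Type) [Field F] : Prop := ∀ f : F, f ≠ 0 → {p : GPt F | p.ord f ≠ 0}.Finite

theorem b_fin (hF : FO F) (hl : Ad l) {f g : F} (hf : f ≠ 0) (hg : g ≠ 0) :
    (Function.support fun p => b l p f g).Finite := by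
  refine ((hF f hf).union (hF g hg)).subset fun p hp => ?_
  by_contra h
  simp only [Set.mem_union, Set.mem_ofPred_eq, not_or, not_not] at h
  exact hp (b_zero hl p h.1 h.2)

theorem B_mul (hF : FO F) (hl : Ad l) {f g g' : F} (hf : f ≠ 0) (hg : g ≠ 0) (hg' : g' ≠ 0) :
    B l f (g * g') = B l f g + B l f g' := by
  rw [B, B, B, ← finsum_add_distrib (b_fin hF hl hf hg) (b_fin hF hl hf hg')]
  exact finsum_congr fun p => b_mul hl p hf hg hg'

theorem B_symm (hl : Ad l) {f g : F} (hf : f ≠ 0) (hg : g ≠ 0) : B l g f = -B l f g := by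
  rw [B, B, ← finsum_neg_distrib]
  exact finsum_congr fun p => b_symm hl p hf hg

theorem B_self (hl : Ad l) {f : F} (hf : f ≠ 0) : B l f f = 0 := by
  have := B_symm hl hf hf
  linarith

theorem B_st (hl : Ad l) {f : F} (hf : f ≠ 0) (hg : 1 - f ≠ 0) : B l f (1 - f) = 0 := by
  rw [B, finsum_congr fun p => b_st hl p hf hg, finsum_zero]

theorem B_one (hF : FO F) (hl : Ad l) {f : F} (hf : f ≠ 0) : B l f 1 = 0 := by
  have := B_mul hF hl hf one_ne_zero one_ne_zero
  rw [mul_one] at this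
  linarith

theorem B_prod (hF : FO F) (hl : Ad l) {f : F} (hf : f ≠ 0) {ι : Type} (s : Finset ι) (g : ι → F)
    (hg : ∀ i, g i ≠ 0) : B l f (∏ i ∈ s, g i) = ∑ i ∈ s, B l f (g i) := by
  induction s using Finset.induction_on with
  | empty => rw [prod_empty, sum_empty, B_one hF hl hf]
  | insert i s hi ih =>
    rw [prod_insert hi, sum_insert hi, B_mul hF hl hf (hg i) (prod_ne_zero_iff.2 fun j _ => hg j), ih]

theorem B_of_kfn (hl : KFn l) {f g : F} (hf : f ≠ 0) (hg : g ≠ 0) : B l f g = 0 :=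
  hl.symb f g hf hg (fun p => val p (ts p f g)) fun p => (ts_U p hf hg).val.2

theorem kfn_of_B (hl : Ad l) (h : ∀ f g : F, f ≠ 0 → g ≠ 0 → B l f g = 0) : KFn l := by
  refine ⟨hl, fun f g hf hg c hc => ?_⟩
  rw [← h f g hf hg, B]
  exact finsum_congr fun p => by rw [b, lam, val_eq (a := ts p f g) (hc p)]

/-- a sum over the fibres of a map -/
theorem fin_fib {α β : Type} (r : α → β) (e : α → ℕ) (n : ℕ) (c : β → ℝ)
    (hc : (Function.support c).Finite)
    (h : ∀ p, {q | r q = p}.Finite ∧ ∑ᶠ q ∈ {q | r q = p}, e q = n) :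
    ∑ᶠ q, (e q : ℝ) * c (r q) = n * ∑ᶠ p, c p := by
  have hT : (r ⁻¹' Function.support c).Finite := hc.preimage' fun p _ => (h p).1
  rw [finsum_eq_sum_of_support_subset (s := hT.toFinset), finsum_eq_sum _ hc, mul_sum,
    ← sum_fiberwise_of_maps_to (t := hc.toFinset) (g := r)]
  · refine sum_congr rfl fun p hp => ?_
    have e1 : {q | r q = p} = ↑(hT.toFinset.filter fun q => r q = p) := by
      ext q
      simp only [Set.mem_ofPred_eq, coe_filter, Set.Finite.mem_toFinset, Set.mem_preimage]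
      exact ⟨fun hq => ⟨hq ▸ (Set.Finite.mem_toFinset _).1 hp, hq⟩, fun hq => hq.2⟩
    have e2 := (h p).2
    rw [e1, finsum_mem_coe_finset] at e2
    rw [← e2, Nat.cast_sum, sum_mul]
    exact sum_congr rfl fun q hq => by rw [(mem_filter.1 hq).2]
  · intro q hq
    exact (Set.Finite.mem_toFinset hc).2 ((Set.Finite.mem_toFinset hT).1 hq)
  · intro q hq
    rw [Set.Finite.coe_toFinset]
    exact fun h0 => hq (by simp only [h0, mul_zero])

/-- the local term of pulled-back functions -/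
theorem b_pull (hl : Ad l) (j : F →+* M) (res : GPt M → GPt F) (q : GPt M) (e : ℕ)
    (hle : Le j q (res q)) (he : ∀ a, q.ord (j a) = e * (res q).ord a) {f g : F} (hf : f ≠ 0)
    (hg : g ≠ 0) : b (fun q => l (res q)) q (j f) (j g) = e * b l (res q) f g := by
  have hU := ts_U (res q) hf hg
  have e1 : ts q (j f) (j g) = j (ts (res q) f g ^ e) := by
    rw [ts, ts, he, he, map_pow, map_div₀, map_zpow₀, map_zpow₀, div_pow, ← zpow_natCast,
      ← zpow_natCast, ← zpow_mul, ← zpow_mul, mul_comm (e : ℤ), mul_comm (e : ℤ)]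
  rw [b, b, ← lam_pow hl hU, e1, lam, lam, val_eq (hle _ _ (hU.pow e).val.2)]

/-- the transport of a point along an isomorphism -/
def cm (σ : F ≃+* M) (q : GPt M) : GPt F where
  v := q.v.comap (σ : F →+* M)
  ρ := q.ρ.comp ((σ : F →+* M).restrict (q.v.comap (σ : F →+* M)).valuationSubring
    q.v.valuationSubring fun _ h => h)
  surj := q.surj.comp σ.surjective
  ker _ := q.ker _

theorem cm_val (σ : F ≃+* M) (q : GPt M) (a : F) (c : Qb) : (cm σ q).Val a c ↔ q.Val (σ a) c :=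
  Iff.rfl

theorem cm_ord (σ : F ≃+* M) (q : GPt M) (a : F) : (cm σ q).ord a = q.ord (σ a) := rfl

theorem cm_cm (σ : F ≃+* M) (p : GPt F) : cm σ (cm σ.symm p) = p := by
  refine GPt.ext_val ?_ fun a c h => ?_
  · ext a
    exact congrArg p.v (σ.symm_apply_apply a)
  · rwa [cm_val, cm_val, σ.symm_apply_apply] at h

theorem B_cm (hl : Ad l) (σ : F ≃+* F) (h : ∀ q, l (cm σ q) = l q) {f g : F} (hf : f ≠ 0)
    (hg : g ≠ 0) : B l (σ f) (σ g) = B l f g := by
  have hb : Function.Bijective (cm σ) :=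
    Function.bijective_iff_has_inverse.2 ⟨cm σ.symm, cm_cm σ.symm, cm_cm σ⟩
  rw [B, B]
  refine finsum_eq_of_bijective (cm σ) hb fun q => ?_
  have := b_pull hl (σ : F →+* F) (cm σ) q 1 (fun _ _ h => h) (fun a => by simp [cm_ord]) hf hg
  rw [show (fun q => l (cm σ q)) = l from funext h, Nat.cast_one, one_mul] at this
  exact this

end

end PTrans

end Pool.Agent.P.MP_b8021b_nt.VC
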