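import Pool.Agent.P.MP_b8021b_nt.VC.StA
import Pool.Agent.P.MP_b8021b_nt.VC.StS
import Pool.Agent.P.MP_b8021b_nt.VC.BasicA

/-! The algebraic form of the theorem from the model, the two base sections and the core. -/

namespace Pool.Agent.P.MP_b8021b_nt.VC

open Polynomial Finset Pool.Agent.P.MP_b8021b_nt.VE
open scoped Classical

namespace PAlg

variable {R A A' : Type} [CommRing R] [Algebra ℤ[X] R] [CommRing A] [CommRing A'] [Algebra ℚ A']

theorem finiteType {r : ℕ} (D : Dbl A A' r) (T : Tab R) {j : R →+* A} (hj : Gen j) :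
    Algebra.FiniteType ℚ A' := by
  let s : Finset A' := insert D.ω (insert (D.j (j (zR R))) (univ.image fun i => D.j (j (T.y i))))
  refine ⟨s, eq_top_iff.2 fun h _ => ?_⟩
  have hω : D.ω ∈ Algebra.adjoin ℚ (s : Set A') := Algebra.subset_adjoin (by simp [s])
  have hz : D.j (j (zR R)) ∈ Algebra.adjoin ℚ (s : Set A') := Algebra.subset_adjoin (by simp [s])
  have hy : ∀ i, D.j (j (T.y i)) ∈ Algebra.adjoin ℚ (s : Set A') := fun i =>
    Algebra.subset_adjoin (by simp [s])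
  have hel : ∀ g, D.j (j (T.el g)) ∈ Algebra.adjoin ℚ (s : Set A') := fun g => by
    have e := T.map_el (D.j.comp j) g
    simp only [RingHom.comp_apply] at e
    rw [e]
    refine sum_mem fun i _ => mul_mem ?_ (hy i)
    rw [aeval_eq_sum_range]
    exact sum_mem fun k _ => zsmul_mem (pow_mem hz _) _
  obtain ⟨m, g, c, hm, e⟩ := hj.exists_fn D T h
  have h1 : (m : A') * h ∈ Algebra.adjoin ℚ (s : Set A') := by
    rw [e]
    exact add_mem (hel g) (mul_mem (hel c) hω)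
  have h2 : h = (m : ℚ)⁻¹ • ((m : A') * h) := by
    rw [← nsmul_eq_mul, ← Nat.cast_smul_eq_nsmul ℚ, smul_smul,
      inv_mul_cancel₀ (Nat.cast_ne_zero.2 hm.ne'), one_smul]
  rw [h2]
  exact Subalgebra.smul_mem _ h1 _

theorem numberField [Algebra.FiniteType ℚ A'] {K : Type} [Field K] (π : A' →+* K)
    (hπ : Function.Surjective π) : NumberField K := by
  have : CharZero K := by
    let := (π.comp (algebraMap ℚ A')).toAlgebra
    exact algebraRat.charZero K
  have : Algebra.FiniteType ℚ K := Algebra.FiniteType.of_surjective π.toRatAlgHom hπ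
  have : Module.Finite ℚ K := finite_of_finite_type_of_isJacobsonRing ℚ K
  exact ⟨⟩

/-- the residue field of a maximal ideal is a number field -/
theorem exists_res [Algebra.FiniteType ℚ A'] (P : Ideal A') (hP : P.IsMaximal) :
    ∃ (K : Type) (_ : Field K) (_ : NumberField K) (π : A' →+* K),
      Function.Surjective π ∧ RingHom.ker π = P :=
  ⟨A' ⧸ P, Ideal.Quotient.field P,
    @numberField A' _ _ _ (A' ⧸ P) (Ideal.Quotient.field P) (Ideal.Quotient.mk P)
      Ideal.Quotient.mk_surjective, Ideal.Quotient.mk P, Ideal.Quotient.mk_surjective,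
    Ideal.mk_ker⟩

theorem exists_fac {B K L : Type} [CommRing B] [CommRing K] [CommRing L] (π : B →+* K)
    (hπ : Function.Surjective π) (τ : B →+* L) (h : RingHom.ker π ≤ RingHom.ker τ) :
    ∃ τ' : K →+* L, ∀ a, τ' (π a) = τ a :=
  ⟨π.liftOfSurjective hπ ⟨τ, h⟩, fun a => π.liftOfRightInverse_comp_apply _ _ ⟨τ, h⟩ a⟩

theorem ker_isMaximal {B : Type} [CommRing B] [Algebra ℚ B] (σ : B →+* Qb) :
    (RingHom.ker σ).IsMaximal := by
  have : Algebra.IsAlgebraic ℚ Qb := AlgebraicClosure.isAlgebraic ℚ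
  have h1 := Subalgebra.isField_of_algebraic σ.toRatAlgHom.range
  have h2 : RingHom.ker σ = RingHom.ker σ.toRatAlgHom.rangeRestrict := by
    ext a
    simp [RingHom.mem_ker, Subtype.ext_iff]
  let := h1.toField
  rw [h2]
  exact RingHom.ker_isMaximal_of_surjective _ σ.toRatAlgHom.rangeRestrict_surjective

theorem isUnit_r {r : ℕ} (hr : r ≠ 0) : IsUnit (r : A') := by
  have := (IsUnit.mk0 (r : ℚ) (Nat.cast_ne_zero.2 hr)).map (algebraMap ℚ A')
  rwa [map_natCast] at this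

theorem fn_not_mem (p : Par R) {r : ℕ} (hr : p.r = r) (D : Dbl A A' r) (j : R →+* A)
    (Q : MaximalSpectrum A') (hQ : D.pz j p.G ∈ Q.asIdeal) :
    D.fn j p.toTab p.g0 p.k0 ∉ Q.asIdeal := fun h => by
  subst hr
  obtain ⟨E, a, b, e⟩ := p.mem
  have h1 := Ideal.mem_of_dvd _ (D.fn_dvd_nm j p.toTab p.g0 p.k0) h
  have h2 := congrArg (D.pz j) e
  rw [D.pz_add, D.pz_mul, D.pz_mul, D.pz_C] at h2
  have h3 := add_mem (Q.asIdeal.mul_mem_left (D.pz j a) h1) (Q.asIdeal.mul_mem_left (D.pz j b) hQ)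
  rw [h2] at h3
  push_cast at h3
  exact not_mem_of_isUnit Q ((isUnit_r p.hr.ne_zero).pow E) h3

theorem core [IsDedekindDomain A'] (hCore : S_Core) (p : Par R) {r : ℕ} (hr : p.r = r)
    (D : Dbl A A' r) {j : R →+* A} {φ : MaximalSpectrum A' → A' → ℝ} (hj : Gen j) (hφ : IsFn φ)
    (ha : Anti D.ι φ) : pair φ (D.pz j p.G) (D.fn j p.toTab p.g0 p.k0) = 0 := by
  subst hr
  exact hCore R A A' p D j φ hj hφ ha

omit [Algebra ℚ A'] in
/-- the comparison of the two base sections -/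
theorem compare [IsDedekindDomain A'] {φ : MaximalSpectrum A' → A' → ℝ} (hφ : IsFn φ)
    {G s s' u γ : A'} (hG : G ≠ 0) (hu : IsUnit u) (P : MaximalSpectrum A') (hP : G ∈ P.asIdeal)
    (hγ : γ ∉ P.asIdeal) (hs : ∀ Q : MaximalSpectrum A', G ∈ Q.asIdeal → s ∉ Q.asIdeal)
    (hs' : ∀ Q : MaximalSpectrum A', G ∈ Q.asIdeal → s' ∉ Q.asIdeal) (h0 : pair φ G s = 0)
    (h0' : pair φ G s' = 0) {n n' i a b : ℕ} (hi : 1 ≤ i)
    (h : ∀ Q : MaximalSpectrum A', G ∈ Q.asIdeal →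
      u ^ a * s ^ n * (if Q.asIdeal = P.asIdeal then γ ^ i else 1) - u ^ b * s' ^ n' ∈ Q.asIdeal) :
    φ P γ = 0 := by
  have hu0 := hφ.pair_unit_right hG hu
  have key : ∀ Q ∈ zs G, (ord Q G : ℝ) * (if Q = P then i * φ P γ else 0) =
      b * (ord Q G * φ Q u) + n' * (ord Q G * φ Q s') - a * (ord Q G * φ Q u) -
        n * (ord Q G * φ Q s) := fun Q hQ => by
    have hQ' := (mem_zs hG).1 hQ
    have hpr := Q.isMaximal.isPrime
    have h1 := hφ.congr Q _ _ (h Q hQ')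
    have hua := not_mem_of_isUnit Q (hu.pow a)
    have hub := not_mem_of_isUnit Q (hu.pow b)
    have hsn : s ^ n ∉ Q.asIdeal := fun h => hs Q hQ' (hpr.mem_of_pow_mem _ h)
    have hsn' : s' ^ n' ∉ Q.asIdeal := fun h => hs' Q hQ' (hpr.mem_of_pow_mem _ h)
    have hus : u ^ a * s ^ n ∉ Q.asIdeal := fun h => (hpr.mem_or_mem h).elim hua hsn
    by_cases hQP : Q = P
    · subst hQP
      have hγi : γ ^ i ∉ Q.asIdeal := fun h => hγ (hpr.mem_of_pow_mem _ h)
      rw [if_pos rfl, hφ.mul Q _ _ hus hγi, hφ.mul Q _ _ hua hsn, hφ.mul Q _ _ hub hsn',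
        hφ.pow, hφ.pow, hφ.pow, hφ.pow, hφ.pow] at h1
      rw [if_pos rfl]
      linear_combination (ord Q G : ℝ) * h1
    · rw [if_neg (fun h => hQP (MaximalSpectrum.ext h)), mul_one, hφ.mul Q _ _ hua hsn,
        hφ.mul Q _ _ hub hsn', hφ.pow, hφ.pow, hφ.pow, hφ.pow] at h1
      rw [if_neg hQP]
      linear_combination (ord Q G : ℝ) * h1
  have h2 := sum_congr rfl key
  rw [sum_sub_distrib, sum_sub_distrib, sum_add_distrib, ← mul_sum, ← mul_sum, ← mul_sum,
    ← mul_sum, ← pair_eq_sum_zs φ hG, ← pair_eq_sum_zs φ hG, ← pair_eq_sum_zs φ hG, hu0, h0, h0',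
    sum_eq_single P (fun Q _ hQ => by rw [if_neg hQ, mul_zero])
      (fun hn => absurd ((mem_zs hG).2 hP) hn), if_pos rfl] at h2
  have h3 : (ord P G : ℝ) ≠ 0 := Nat.cast_ne_zero.2 ((ord_pos_iff P).2 hP).ne'
  have h4 : (i : ℝ) ≠ 0 := Nat.cast_ne_zero.2 (by omega)
  simpa [h3, h4] using h2

end PAlg

open PAlg in
theorem p_alg (hMod : S_Mod) (hUGen : S_UGen) (hRad : S_Rad) (hCore : S_Core) : S_Alg := by
  intro A A' _ _ _ _ _ cv r D φ hr hφ ha P σ γ hσ hγ
  have : Fact r.Prime := ⟨hr⟩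
  obtain ⟨R, _, _, m, j, hj, hre, hG, hz, hy⟩ :=
    hMod A cv r (RingHom.ker (σ.comp D.j)) (ker_isMaximal _)
  have hG' : σ (D.pz j m.G) = 0 := hG
  have hG0 : D.pz j m.G ≠ 0 := fun h => m.monic.ne_zero <| m.toTab.alg_injective <| hj.inj <|
    D.j_injective <| by rw [map_zero, map_zero, map_zero]; exact h
  have := finiteType D m.toTab hj
  obtain ⟨K, _, _, π, hπ, hk⟩ := exists_res P.asIdeal P.isMaximal
  have hπ0 : ∀ a, π a = 0 ↔ a ∈ P.asIdeal := fun a => by rw [← hk, RingHom.mem_ker]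
  obtain ⟨σ', hσ'⟩ := exists_fac π hπ σ (by rw [hk, hσ])
  choose l hl using hπ
  have hΦ : ∀ a, φ P (l (π a)) = φ P a := fun a =>
    hφ.congr P _ _ ((hπ0 _).1 (by rw [map_sub, hl, sub_self]))
  rw [← hΦ]
  refine hUGen r K σ' (fun x => φ P (l x)) (fun x y hx hy => ?_) (fun x hx hτ => ?_) (π γ)
    (by rwa [hσ'])
  · have h1 : l x ∉ P.asIdeal := fun h => hx (by rw [← hl x, hπ0]; exact h)
    have h2 : l y ∉ P.asIdeal := fun h => hy (by rw [← hl y, hπ0]; exact h)
    rw [← hφ.mul P _ _ h1 h2, ← hΦ (l x * l y), map_mul, hl, hl]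
  · obtain ⟨τ₀, hτ⟩ := hτ
    have hx' : RU r (σ (l x)) := by rwa [← hσ', hl]
    obtain ⟨p, p', n, n', i, a, b, hp, hp', hr1, hr2, hi, H⟩ :=
      hRad R A A' cv r D m j σ (τ₀.comp π) (l x) hre hj hz hy hG' hx'
        (by
          ext a
          rw [hσ, RingHom.mem_ker, RingHom.comp_apply, map_eq_zero, hπ0])
        (fun τ hτk => by
          obtain ⟨τ', hτ'⟩ := exists_fac π (fun x => ⟨l x, hl x⟩) τ (by rw [hk, hτk, hσ])
          rcases hτ τ' with h | ⟨g, hg⟩
          · left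
            rwa [← hτ', hl]
          · right
            exact ⟨g, fun a => by rw [← hτ', hg]; rfl⟩)
    have e1 : p.G = m.G := by rw [← hp]
    have e2 : p'.G = m.G := by rw [← hp']
    refine compare hφ hG0 (isUnit_r hr.ne_zero) P (by rw [← hσ]; exact hG')
      (fun h => hx'.1 (by rwa [← hσ] at h))
      (fun Q hQ => fn_not_mem p hr1 D j Q (by rwa [e1]))
      (fun Q hQ => fn_not_mem p' hr2 D j Q (by rwa [e2]))
      (by rw [← e1]; exact core hCore p hr1 D hj hφ ha)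
      (by rw [← e2]; exact core hCore p' hr2 D hj hφ ha) (n := n) (n' := n') (a := a) (b := b) hi
      fun Q hQ => ?_
    rw [← hσ]
    exact H Q.asIdeal Q.isMaximal hQ

end Pool.Agent.P.MP_b8021b_nt.VC
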