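import Pool.Agent.P.MP_b8021b_nt.VC.PGeo21

/-! Anti-invariant functionals on a constant quadratic extension. -/

namespace Pool.Agent.P.MP_b8021b_nt.VC

open Polynomial NumberField Finset Pool.Agent.P.MP_b8021b_nt.VE
open scoped Classical WithZero IntermediateField nonZeroDivisors

namespace Geo2

variable {F F' : Type} [Field F] [Field F'] [Algebra F F'] [CharZero F'] {r : ℕ} {ω : F'}
  {ι : F' ≃ₐ[F] F'}

theorem om_ne (hr : r.Prime) (hω : ω ^ 2 = -(r : F')) : ω ≠ 0 := by
  rintro rfl
  have : (r : F') = 0 := by simpa using hω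
  exact hr.ne_zero (Nat.cast_eq_zero.1 this)

theorem indep (h0 : ω ≠ 0) (hι : ι ω = -ω) (g c : F)
    (h : algebraMap F F' g + algebraMap F F' c * ω = 0) : g = 0 ∧ c = 0 := by
  have h1 := congrArg ι h
  rw [map_add, map_mul, ι.commutes, ι.commutes, hι, map_zero] at h1
  have h2 : algebraMap F F' g = 0 := by linear_combination (h + h1) / 2
  have h3 : algebraMap F F' c * ω = 0 := by linear_combination (h - h1) / 2
  exact ⟨(map_eq_zero _).1 h2, (map_eq_zero _).1 ((mul_eq_zero.1 h3).resolve_right h0)⟩

theorem rank (h0 : ω ≠ 0) (hι : ι ω = -ω)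
    (hd : ∀ a : F', ∃ g c : F, a = algebraMap F F' g + algebraMap F F' c * ω) :
    Module.finrank F F' = 2 := by
  have h1 : LinearIndependent F ![(1 : F'), ω] := LinearIndependent.pair_iff.2 fun s t h =>
    indep h0 hι s t (by rwa [Algebra.smul_def, Algebra.smul_def, mul_one] at h)
  have h2 : ⊤ ≤ Submodule.span F (Set.range ![(1 : F'), ω]) := fun a _ => by
    obtain ⟨g, c, rfl⟩ := hd a
    rw [Algebra.algebraMap_eq_smul_one g, ← Algebra.smul_def]
    exact add_mem (Submodule.smul_mem _ _ (Submodule.subset_span ⟨0, rfl⟩))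
      (Submodule.smul_mem _ _ (Submodule.subset_span ⟨1, rfl⟩))
  simpa using Module.finrank_eq_card_basis (Module.Basis.mk h1 h2)

/-- the double of the ring -/
theorem dbl [Algebra ℚ F] (A : Subalgebra ℚ F) [IsFractionRing A F] [IsIntegrallyClosed A]
    [Algebra ℚ (integralClosure A F')] (hr : r.Prime) (hω : ω ^ 2 = -(r : F')) (hι : ι ω = -ω)
    (hd : ∀ a : F', ∃ g c : F, a = algebraMap F F' g + algebraMap F F' c * ω) :
    ∃ D : Dbl A (integralClosure A F') r, ∀ a : integralClosure A F', ι (a : F') = D.ι a := by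
  have h0 := om_ne hr hω
  have : CharZero F := algebraRat.charZero F
  have hi : IsIntegral A ω := ⟨X ^ 2 + C (r : A), monic_X_pow_add_C _ two_ne_zero, by simp [hω]⟩
  let e := (ι.restrictScalars A).mapIntegralClosure
  have he : ∀ a, (e a : F') = ι a := fun a => rfl
  have dn : ∀ (x : F) (n : ℕ), n ≠ 0 → IsIntegral A (algebraMap F F' (n * x)) →
      ∃ y : A, algebraMap A F' y = algebraMap F F' x := fun x n hn h => by
    rw [isIntegral_algebraMap_iff (algebraMap F F').injective] at h
    obtain ⟨y, hy⟩ := IsIntegrallyClosed.algebraMap_eq_of_integral h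
    refine ⟨(n : ℚ)⁻¹ • y, ?_⟩
    rw [IsScalarTower.algebraMap_apply A F F']
    congr 1
    change (n : ℚ)⁻¹ • (algebraMap A F y) = x
    rw [hy, Algebra.smul_def, map_inv₀, map_natCast, inv_mul_cancel_left₀ (Nat.cast_ne_zero.2 hn)]
  refine ⟨{ j := algebraMap A (integralClosure A F')
            ω := ⟨ω, hi⟩
            sq := Subtype.ext (by simpa using hω)
            surj := fun h => ?_
            inj := fun g c h => ?_
            ι := AlgEquiv.ofRingEquiv (f := e.toRingEquiv) fun x =>
              RingHom.map_rat_algebraMap e.toRingEquiv.toRingHom x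
            ιj := fun a => e.commutes a
            ιω := Subtype.ext hι }, fun a => rfl⟩
  · obtain ⟨g, c, hg⟩ := hd h
    have h1 : IsIntegral A (h : F') := h.2
    have h2 : IsIntegral A (ι h) := (e h).2
    have h3 : ι h = algebraMap F F' g - algebraMap F F' c * ω := by
      rw [hg, map_add, map_mul, ι.commutes, ι.commutes, hι]
      ring
    obtain ⟨g', hg'⟩ := dn g 2 two_ne_zero (by
      have e1 : algebraMap F F' ((2 : ℕ) * g) = h + ι h := by
        rw [h3, hg, map_mul, map_natCast]
        push_cast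
        ring
      exact e1 ▸ h1.add h2)
    obtain ⟨c', hc'⟩ := dn c (2 * r) (mul_ne_zero two_ne_zero hr.ne_zero) (by
      have e1 : algebraMap F F' ((2 * r : ℕ) * c) = (ι h - h) * ω := by
        rw [h3, hg, map_mul, map_natCast]
        push_cast
        linear_combination 2 * algebraMap F F' c * hω
      exact e1 ▸ (h2.sub h1).mul hi)
    refine ⟨g', c', Subtype.ext ?_⟩
    change (h : F') = algebraMap A F' g' + algebraMap A F' c' * ω
    rw [hg', hc', hg]
  · have h1 : algebraMap F F' g + algebraMap F F' c * ω = 0 := congrArg Subtype.val h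
    obtain ⟨h2, h3⟩ := indep h0 hι _ _ h1
    exact ⟨Subtype.ext h2, Subtype.ext h3⟩

end Geo2

open Geo2 in
theorem p_geo2 (h0 : VE.S_S0) (hCrv : S_Crv) (hFin : S_Fin) (hRes : S_Res) (hSplit : S_Split) (hWeil : S_Weil) (hCvEx : S_CvEx) (hAlg : S_Alg) : S_Geo2 := by
  intro F F' _ _ _ _ hF r ω ι O l hr hω hd hι hO hl hanti q q' w hq hq' u hu
  have : CharZero F := algebraRat.charZero F
  have : CharZero F' := (RingHom.charZero_iff (algebraMap F F').injective).1 inferInstance
  have hω0 := om_ne hr hω
  have hrk := rank hω0 hι hd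
  have : FiniteDimensional F F' := Module.finite_of_finrank_pos (by omega)
  have hF' : IsCurve F' := (hCrv.1 F F').1 hF
  obtain ⟨F1, -, -, F4, F5⟩ := hFin F' hF'
  obtain ⟨-, -, -, G4, -⟩ := hFin F hF
  obtain ⟨res, -, r1, -⟩ := hRes F F' hF
  -- the values at `O` are rational
  have fix : ∀ (σ : Qb ≃+* Qb) a c, O.Val a c → σ c = c := fun σ a c h => by
    obtain ⟨b, hb⟩ := hO a c h
    rw [hb.unique (O.val_rat b)]
    exact RingHom.map_rat_algebraMap σ.toRingHom b
  -- the points over `O`
  obtain ⟨sp, -⟩ := hSplit F F' hF ω (X ^ 2 + C (r : F)) O (X ^ 2 + C (r : Qb))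
    (monic_X_pow_add_C _ two_ne_zero) (by rw [natDegree_X_pow_add_C, hrk]) (by simp [hω])
    (top_le_iff.1 fun a _ => by
      obtain ⟨g, c, rfl⟩ := hd a
      exact add_mem (IntermediateField.algebraMap_mem _ g) (mul_mem
        (IntermediateField.algebraMap_mem _ c) (IntermediateField.mem_adjoin_simple_self F ω)))
    (fun n => by
      simp only [coeff_add, coeff_X_pow, coeff_C]
      refine GPt.Val.add ?_ ?_
      · split_ifs
        exacts [O.val_one, O.val_zero]
      · split_ifs
        exacts [O.val_natCast r, O.val_zero])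
    (by
      have := separable_X_pow_sub_C (n := 2) (-(r : Qb)) (by norm_num)
        (neg_ne_zero.2 (Nat.cast_ne_zero.2 hr.ne_zero))
      rwa [C_neg, sub_neg_eq_add] at this)
  have hi : IsIntegral ℚ ω := ⟨X ^ 2 + C (r : ℚ), monic_X_pow_add_C _ two_ne_zero, by simp [hω]⟩
  have : FiniteDimensional ℚ ℚ⟮ω⟯ := IntermediateField.adjoin.finiteDimensional hi
  have : NumberField ℚ⟮ω⟯ := NumberField.of_module_finite ℚ _
  let z : ℚ⟮ω⟯ := ⟨ω, IntermediateField.mem_adjoin_simple_self ℚ ω⟩
  have hz : z ^ 2 + r = 0 := Subtype.ext (by simp [z, hω])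
  choose τ' hτ' using fun p : GPt F' => p.exists_emb (algebraMap ℚ⟮ω⟯ F')
  let τ : GPt F' → ℚ⟮ω⟯ →+* Qb := fun p => τ' p
  have hτ : ∀ (p : GPt F') a, p.Val (algebraMap ℚ⟮ω⟯ F' a) (τ p a) := hτ'
  have hτz : ∀ p : GPt F', p.Val ω (τ p z) := fun p => hτ p z
  choose Op hOp uOp using fun s : ℚ⟮ω⟯ →+* Qb => sp (s z) (by
    have := congrArg s hz
    simpa using this)
  have hW := hWeil ℚ⟮ω⟯ F' hF' (fun s => l (Op s)) τ (fun s => hl.mul (Op s)) hτ
  let m : GPt F' → Qb → ℝ := fun p v => l p v - l (Op (τ p)) v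
  have hm : GFn m :=
    { mul := fun p a b ha hb => by
        simp only [m]
        rw [hl.mul p a b ha hb, hl.mul _ a b ha hb]
        ring
      symb := fun f g hf hg c hc => by
        have s1 : ∀ k : GPt F' → GPt F', Function.HasFiniteSupport fun p => l (k p) (c p) :=
          fun k => ((F1 f hf).union (F1 g hg)).subset fun p hp => by
            by_contra h
            simp only [Set.mem_union, Set.mem_ofPred_eq, not_or, not_not] at h
            have h1 := hc p
            rw [Tm, h.1, h.2, zpow_zero, zpow_zero, div_one] at h1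
            exact hp (by simp only [h1.unique p.val_one, f_one (hl.mul _)])
        simp only [m]
        rw [finsum_sub_distrib (s1 fun p => p) (s1 fun p => Op (τ p)), hW.symb f g hf hg c hc, sub_zero]
        exact hl.symb f g hf hg c hc
      gal := fun σ p p' h v hv => by
        obtain ⟨x, hx, -⟩ := F5 σ (Op (τ p))
        have e : x = Op (τ p') := uOp _ x ⟨fun a c h1 => by
          have := hx _ _ ((hOp (τ p)).1 a c h1)
          rwa [fix σ a c h1] at this, by
          rw [(hτz p').unique (h _ _ (hτz p))]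
          exact hx _ _ (hOp (τ p)).2⟩
        simp only [m]
        rw [hl.gal σ p p' h v hv, ← e, hl.gal σ _ x hx v hv] }
  have ma : ∀ p p', Le (ι.toRingEquiv : F' →+* F') p p' → ∀ v, v ≠ 0 → m p' v = -m p v := by
    intro p p' h v hv
    have e : pl ι.toRingEquiv (Op (τ p)) = Op (τ p') := uOp _ _ ⟨fun a c h1 => by
      rw [pl_Val]
      exact (ι.commutes a).symm ▸ (hOp (τ p)).1 a c h1, by
      have h1 : p.Val (ι ω) (τ p' z) := h _ _ (hτz p')
      rw [hι] at h1
      rw [pl_Val, h1.unique (hτz p).neg]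
      exact hι ▸ (hOp (τ p)).2.neg⟩
    simp only [m]
    rw [hanti p p' h v hv, ← e, hanti (Op (τ p)) (pl ι.toRingEquiv (Op (τ p))) (fun a c h => h) v hv]
    ring
  obtain ⟨A, cv, hA, hfr, -⟩ := hCvEx ℚ F hF O hO
  have := cv.ded
  have : IsDedekindDomain (integralClosure A F') := integralClosure.isDedekindDomain A F F'
  have : IsFractionRing (integralClosure A F') F' :=
    integralClosure.isFractionRing_of_finite_extension F F'
  let _ : Algebra ℚ (integralClosure A F') :=
    ((algebraMap A (integralClosure A F')).comp (algebraMap ℚ A)).toAlgebra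
  obtain ⟨D, hD⟩ := dbl A hr hω hι hd
  have minf : ∀ p : GPt F', (∃ a, algebraMap (integralClosure A F') F' a ∉ p.v.valuationSubring) →
      ∀ v, m p v = 0 := by
    rintro p ⟨a, ha⟩ v
    have hle := (r1 p _).2 rfl
    have h1 : O.v = (res p).v := by
      by_contra h
      refine ha ?_
      have hv : p.v.Integers p.v.integer := Valuation.integer.integers p.v
      refine hv.mem_of_integral ?_
      obtain ⟨P, hP, hP'⟩ := a.2
      let j : A →+* p.v.integer := (algebraMap A F').codRestrict p.v.integer fun x => by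
        obtain ⟨c, hc⟩ := (res p).exists_val ((hA x).1 x.2 (res p) (Ne.symm h))
        exact (hle _ _ hc).mem
      refine ⟨P.map j, hP.map j, ?_⟩
      rw [eval₂_map]
      exact hP'
    obtain ⟨σ, hσ⟩ := (G4 O (res p)).1 h1
    have h2 : O = res p := GPt.ext_val h1 fun a c h => by
      have := hσ a c h
      rwa [fix σ a c h] at this
    simp only [m]
    rw [← uOp (τ p) p ⟨h2 ▸ hle, hτz p⟩, sub_self]
  have all : ∀ p, m p u = 0 := fun p => by
    by_cases h : ∃ a, algebraMap (integralClosure A F') F' a ∉ p.v.valuationSubring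
    · exact minf p h u
    · exact vanish h0 F1 hm (fun p p' => (F4 p p').1) (fun σ p => (F5 σ p).exists)
        (hAlg A _ cv r D (phi m) hr (isFn h0 F1 hm.toKFn minf) (anti D.ι ι.toRingEquiv hD ma))
        (fun a => by_contra fun h1 => h ⟨a, h1⟩) hu
  have e : Op (τ q) = Op (τ q') := uOp _ _ ⟨(hOp _).1, by
    rw [(hτz q').unique hq', ← (hτz q).unique hq]
    exact (hOp _).2⟩
  have a1 := all q
  have a2 := all q'
  simp only [m] at a1 a2
  rw [e] at a1
  linarith

end Pool.Agent.P.MP_b8021b_nt.VC
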