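import Pool.Agent.P.MP_b8021b_nt.VC.StA

/-!
The archimedean part of the section side: a logarithmic derivative and its vanishing.
-/

open Polynomial

namespace Pool.Agent.P.MP_b8021b_nt.VC

namespace Arch2

theorem indep {I : Type} [Fintype I] (c θ : I → ℂ) (G : I → ℂ[X]) {F : ℂ[X]} (hF : F ≠ 0)
    (hG : ∀ i, (X - C (θ i)) * G i = F) (h : ∑ i, C (c i) * G i = 0) (g : ℂ → ℂ) :
    ∑ i, c i * g (θ i) = 0 := by
  classical
  let T := Finset.univ.image θ
  let P : ℂ → ℂ[X] := fun z => ∏ w ∈ T.erase z, (X - C w)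
  have hP : ∀ i, (X - C (θ i)) * P (θ i) = ∏ w ∈ T, (X - C w) := fun i =>
    Finset.mul_prod_erase T (fun w => X - C w) (Finset.mem_image_of_mem θ (Finset.mem_univ i))
  have h1 : ∑ i, C (c i) * P (θ i) = 0 := by
    refine (mul_eq_zero.1 ?_).resolve_left hF
    rw [Finset.mul_sum, ← mul_zero (∏ w ∈ T, (X - C w)), ← h, Finset.mul_sum]
    refine Finset.sum_congr rfl fun i _ => ?_
    rw [← hP i, ← hG i]; ring
  have h2 : ∀ z ∈ T, ∑ i with θ i = z, c i = 0 := fun z hz => by
    have h3 := congrArg (eval z) h1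
    rw [eval_finsetSum, eval_zero,
      ← Finset.sum_filter_add_sum_filter_not Finset.univ (fun i => θ i = z)] at h3
    have h4 : ∑ i with ¬ θ i = z, eval z (C (c i) * P (θ i)) = 0 :=
      Finset.sum_eq_zero fun i hi => by
        rw [eval_mul, eval_prod, Finset.prod_eq_zero (i := z)
          (Finset.mem_erase.2 ⟨fun e => (Finset.mem_filter.1 hi).2 e.symm, hz⟩) (by simp), mul_zero]
    have h5 : ∑ i with θ i = z, eval z (C (c i) * P (θ i)) =
        (∑ i with θ i = z, c i) * eval z (P z) := by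
      rw [Finset.sum_mul]
      exact Finset.sum_congr rfl fun i hi => by rw [(Finset.mem_filter.1 hi).2, eval_mul, eval_C]
    rw [h4, add_zero, h5] at h3
    refine (mul_eq_zero.1 h3).resolve_right ?_
    rw [eval_prod]
    exact Finset.prod_ne_zero_iff.2 fun w hw => by
      simpa [sub_eq_zero] using (Finset.mem_erase.1 hw).1.symm
  rw [← Finset.sum_fiberwise_of_maps_to (s := Finset.univ) (t := T) (g := θ)
    fun i hi => Finset.mem_image_of_mem θ hi]
  refine Finset.sum_eq_zero fun z hz => ?_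
  rw [← zero_mul (g z), ← h2 z hz, Finset.sum_mul]
  exact Finset.sum_congr rfl fun i hi => by rw [(Finset.mem_filter.1 hi).2]

theorem deriv_log {θ : ℂ} {a : ℝ} (ha : (a : ℂ) - θ ≠ 0) (c : ℝ) :
    HasDerivAt (fun a : ℝ => Real.log ‖θ - a‖ - c) (((a : ℂ) - θ)⁻¹).re a := by
  have h0 : θ - a ≠ 0 := fun h => ha (by linear_combination -h)
  have h1 : HasDerivAt (fun a : ℝ => θ - a) (-1) a :=
    (Complex.ofRealCLM.hasDerivAt).const_sub θ
  have h2 := ((h1.norm_sq.log (by positivity)).const_mul (1 / 2 : ℝ)).sub_const c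
  have e1 : (fun a : ℝ => Real.log ‖θ - a‖ - c) =
      fun a : ℝ => (1 / 2 : ℝ) * Real.log (‖θ - a‖ ^ 2) - c := by
    funext x; rw [Real.log_pow]; push_cast; ring
  rw [e1]
  refine h2.congr_deriv ?_
  have e2 : ((a : ℂ) - θ)⁻¹ = -1 / (θ - a) := by
    rw [eq_div_iff h0]
    field_simp
    ring
  rw [e2, Complex.div_re, Complex.inner, Complex.normSq_eq_norm_sq]
  simp only [Complex.mul_re, Complex.conj_re, Complex.conj_im]
  ring

theorem exists_ext {J : Type} (c : J → ℝ) (θ : J → ℂ)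
    (h : ∀ j j', θ j' = θ j ∨ θ j' = starRingEnd ℂ (θ j) → c j' = c j) :
    ∃ g : ℂ → ℝ, ∀ j, g (θ j) = c j ∧ g (starRingEnd ℂ (θ j)) = c j := by
  classical
  refine ⟨fun z => if hz : ∃ j, θ j = z ∨ θ j = starRingEnd ℂ z then c hz.choose else 0,
    fun j => ⟨?_, ?_⟩⟩
  · have hz : ∃ i, θ i = θ j ∨ θ i = starRingEnd ℂ (θ j) := ⟨j, Or.inl rfl⟩
    simp only [dif_pos hz]
    exact h _ _ hz.choose_spec
  · have hz : ∃ i, θ i = starRingEnd ℂ (θ j) ∨ θ i = starRingEnd ℂ (starRingEnd ℂ (θ j)) :=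
      ⟨j, Or.inr (Complex.conj_conj _).symm⟩
    simp only [dif_pos hz]
    refine h _ _ ?_
    rcases hz.choose_spec with e | e
    · exact Or.inr e
    · exact Or.inl (e.trans (Complex.conj_conj _))

end Arch2

open Arch2 in
theorem p_arch2 : S_Arch2 := by
  intro J _ m c θ F hF hθ hcc
  obtain ⟨g, hg⟩ := exists_ext c θ hcc
  let Fc := F.map (algebraMap ℝ ℂ)
  have hFc : Fc ≠ 0 := map_ne_zero hF
  let G : J → ℂ[X] := fun j => Fc /ₘ (X - C (θ j))
  have hG : ∀ j, (X - C (θ j)) * G j = Fc := fun j =>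
    mul_divByMonic_eq_iff_isRoot.2 (by rw [IsRoot, eval_map_algebraMap]; exact hθ j)
  have hc : Fc.map (starRingEnd ℂ) = Fc := by
    ext i; simp [Fc]
  have hG' : ∀ j, (X - C (starRingEnd ℂ (θ j))) * (G j).map (starRingEnd ℂ) = Fc := fun j => by
    have := congrArg (Polynomial.map (starRingEnd ℂ)) (hG j)
    simpa [hc] using this
  let S : ℂ[X] := ∑ j, (C (m j / 2 : ℂ) * G j + C (m j / 2 : ℂ) * (G j).map (starRingEnd ℂ))
  obtain ⟨Q, hQ⟩ : S ∈ lifts (algebraMap ℝ ℂ) := by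
    rw [lifts_iff_coeff_lifts]
    intro n
    refine ⟨∑ j, m j * ((G j).coeff n).re, ?_⟩
    simp only [S, finsetSum_coeff, coeff_add, coeff_C_mul, coeff_map, map_sum]
    refine Finset.sum_congr rfl fun j _ => ?_
    rw [← mul_add, Complex.add_conj]
    simp
    ring
  rw [coe_mapRingHom] at hQ
  have hd : ∀ j, (G j).natDegree ≤ F.natDegree - 1 := fun j => by
    rw [natDegree_divByMonic _ (monic_X_sub_C _), natDegree_X_sub_C, natDegree_map]
  refine ⟨Q, ?_, fun a ha => ?_, fun h a => ?_⟩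
  · rw [← natDegree_map (algebraMap ℝ ℂ), hQ]
    exact natDegree_sum_le_of_forall_le _ _ fun j _ => natDegree_add_le_of_degree_le
      ((natDegree_C_mul_le _ _).trans (hd j))
      ((natDegree_C_mul_le _ _).trans (natDegree_map_le.trans (hd j)))
  · have e0 : ∀ p : ℝ[X], eval (a : ℂ) (p.map (algebraMap ℝ ℂ)) = (p.eval a : ℝ) := fun p => by
      rw [eval_map_algebraMap]; exact aeval_algebraMap_apply_eq_algebraMap_eval (A := ℂ) a p
    have e1 : ∀ j, ((a : ℂ) - θ j) * eval (a : ℂ) (G j) = (F.eval a : ℝ) := fun j => by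
      rw [← e0, ← show _ = F.map (algebraMap ℝ ℂ) from hG j]; simp
    have ha' : ((F.eval a : ℝ) : ℂ) ≠ 0 := Complex.ofReal_ne_zero.2 ha
    have e2 : ∀ j, (a : ℂ) - θ j ≠ 0 := fun j h => ha' (by rw [← e1 j, h, zero_mul])
    refine (HasDerivAt.fun_sum fun j _ => (deriv_log (e2 j) (c j)).const_mul (m j)).congr_deriv ?_
    rw [eq_div_iff ha, Finset.sum_mul]
    apply Complex.ofReal_injective
    rw [← e0 Q, hQ, eval_finsetSum, Complex.ofReal_sum]
    refine Finset.sum_congr rfl fun j _ => ?_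
    have e3 : eval (a : ℂ) (G j) = (F.eval a : ℝ) * ((a : ℂ) - θ j)⁻¹ := by
      rw [← e1 j]; field_simp [e2 j]
    have e4 : eval (a : ℂ) ((G j).map (starRingEnd ℂ)) = starRingEnd ℂ (eval (a : ℂ) (G j)) := by
      rw [← eval_map_apply (starRingEnd ℂ), Complex.conj_ofReal]
    rw [eval_add, eval_mul, eval_mul, eval_C, e4, ← mul_add, Complex.add_conj, e3,
      Complex.re_ofReal_mul]
    push_cast
    ring
  · have h1 := indep (I := J ⊕ J) (Sum.elim (fun j => (m j / 2 : ℂ)) fun j => (m j / 2 : ℂ))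
      (Sum.elim θ fun j => starRingEnd ℂ (θ j)) (Sum.elim G fun j => (G j).map (starRingEnd ℂ)) hFc
      (fun i => by rcases i with j | j; exacts [hG j, hG' j])
      (by
        rw [Fintype.sum_sum_type, ← Finset.sum_add_distrib]
        exact hQ.symm.trans (by rw [h, Polynomial.map_zero]))
      fun z => (Real.log ‖z - a‖ - g z : ℝ)
    rw [Fintype.sum_sum_type, ← Finset.sum_add_distrib] at h1
    apply Complex.ofReal_injective
    rw [Complex.ofReal_sum, Complex.ofReal_zero, ← h1]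
    refine Finset.sum_congr rfl fun j _ => ?_
    have : ‖starRingEnd ℂ (θ j) - a‖ = ‖θ j - a‖ := by
      rw [← Complex.norm_conj (θ j - a)]; simp
    simp only [Sum.elim_inl, Sum.elim_inr, this, (hg j).1, (hg j).2]
    push_cast
    ring

end Pool.Agent.P.MP_b8021b_nt.VC
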