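import Pool.Agent.P.MP_b8021b_nt.VC.PBC2

/-! Base change of a curve: finiteness over the line, and norms for a finite extension. -/

namespace Pool.Agent.P.MP_b8021b_nt.VC.BC

open Polynomial Finset
open scoped Classical

/-- finiteness over the polynomial ring in one function -/
lemma fin_line {F A k B : Type} [Field F] [CommRing A] [Algebra F A] [Field k] [CommRing B]
    [Algebra k B] (j : F →+* k) (ι : A →+* B)
    (halg : ∀ c, ι (algebraMap F A c) = algebraMap k B (j c))
    (hsp : ∀ x, x ∈ Submodule.span k (Set.range ι)) (z : A) {n : ℕ} (y : Fin n → A)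
    (hy : ∀ a, ∃ c : Fin n → F[X], a = ∑ i, aeval z (c i) * y i) :
    (aeval (ι z) : k[X] →ₐ[k] B).toRingHom.Finite := by
  let : Algebra k[X] B := (aeval (ι z) : k[X] →ₐ[k] B).toRingHom.toAlgebra
  have hs : ∀ (p : k[X]) (x : B), p • x = aeval (ι z) p * x := fun _ _ => rfl
  refine ⟨Submodule.fg_def.2 ⟨Set.range fun i => ι (y i), Set.finite_range _, ?_⟩⟩
  rw [eq_top_iff]
  intro x _
  have hx := hsp x
  induction hx using Submodule.span_induction with
  | mem x hx =>
    obtain ⟨a, rfl⟩ := hx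
    obtain ⟨c, rfl⟩ := hy a
    rw [map_sum]
    refine Submodule.sum_mem _ fun i _ => ?_
    have : ι (aeval z (c i) * y i) = (c i).map j • ι (y i) := by
      rw [hs, map_mul, aeval_def, aeval_def, eval₂_map, hom_eval₂]
      congr 2
      exact RingHom.ext halg
    rw [this]
    exact Submodule.smul_mem _ _ (Submodule.subset_span ⟨i, rfl⟩)
  | zero => exact Submodule.zero_mem _
  | add x y _ _ hx hy => exact Submodule.add_mem _ (hx trivial) (hy trivial)
  | smul c x _ hx =>
    have : c • x = (C c : k[X]) • x := by rw [hs, aeval_C, Algebra.smul_def]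
    rw [this]
    exact Submodule.smul_mem _ _ (hx trivial)

lemma of_fin_line {k B : Type} [Field k] [CommRing B] [IsDomain B] [Algebra k B] (z : B)
    (h : (aeval z : k[X] →ₐ[k] B).toRingHom.Finite) :
    IsNoetherianRing B ∧ Ring.DimensionLEOne B ∧ Algebra.FiniteType k B := by
  let : Algebra k[X] B := (aeval z : k[X] →ₐ[k] B).toRingHom.toAlgebra
  have h1 : Module.Finite k[X] B := h
  have : IsScalarTower k k[X] B := IsScalarTower.of_algebraMap_eq fun c =>
    ((aeval z : k[X] →ₐ[k] B).commutes c).symm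
  exact ⟨IsNoetherianRing.of_finite k[X] B, Ring.DimensionLEOne.of_isIntegral k[X] B,
    Algebra.FiniteType.trans (S := k[X]) inferInstance inferInstance⟩

/-- a maximal ideal is the kernel of a point -/
lemma exists_point {k B : Type} [Field k] [IsAlgClosed k] [CommRing B] [Algebra k B]
    [Algebra.FiniteType k B] (M : Ideal B) (hM : M.IsMaximal) :
    ∃ P : B →ₐ[k] k, RingHom.ker P = M := by
  let : Field (B ⧸ M) := Ideal.Quotient.field M
  have : Module.Finite k (B ⧸ M) := finite_of_finite_type_of_isJacobsonRing k (B ⧸ M)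
  let e : k ≃ₐ[k] (B ⧸ M) := AlgEquiv.ofBijective (Algebra.ofId k (B ⧸ M))
    IsAlgClosed.algebraMap_bijective_of_isIntegral
  refine ⟨e.symm.toAlgHom.comp (Ideal.Quotient.mkₐ k M), ?_⟩
  ext x
  simp [RingHom.mem_ker, Ideal.Quotient.eq_zero_iff_mem]

/-- the norm has the same zeros -/
lemma exists_norm {A B : Type} [CommRing A] [IsDomain A] [CommRing B] [IsDomain B] [Algebra A B]
    [Module.Finite A B] [Module.Free A B] (s' : B) (h : s' ≠ 0) :
    ∃ s : A, s ≠ 0 ∧ s' ∣ algebraMap A B s ∧
      ∀ (Ω : Type) [Field Ω] [IsAlgClosed Ω] (P : A →+* Ω), P s = 0 →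
        ∃ P' : B →+* Ω, (∀ a, P' (algebraMap A B a) = P a) ∧ P' s' = 0 := by
  refine ⟨Algebra.norm A s', Algebra.norm_ne_zero_iff.2 h, ?_, fun Ω _ _ P hP => ?_⟩
  · have h1 := LinearMap.aeval_self_charpoly (Algebra.lmul A B s')
    have h2 : aeval s' (LinearMap.charpoly (Algebra.lmul A B s')) = 0 := by
      apply Algebra.lmul_injective (R := A)
      rw [map_zero, ← aeval_algHom_apply]
      exact h1
    have h3 := congrArg (aeval s') (X_mul_divX_add (LinearMap.charpoly (Algebra.lmul A B s')))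
    rw [h2, map_add, map_mul, aeval_X, aeval_C] at h3
    rw [Algebra.norm_apply, LinearMap.det_eq_sign_charpoly_coeff, map_mul,
      eq_neg_of_add_eq_zero_right h3]
    exact Dvd.dvd.mul_left (dvd_neg.2 (dvd_mul_right _ _)) _
  · have hpr : (RingHom.ker P).IsPrime := RingHom.ker_isPrime P
    obtain ⟨Q, hQ, hQp, hQc⟩ := Ideal.exists_ideal_over_prime_of_isIntegral (RingHom.ker P)
      (Ideal.span {s'}) (fun a ha => by
        obtain ⟨t, ht⟩ := Ideal.mem_span_singleton.1 (Ideal.mem_comap.1 ha)
        have h1 := congrArg (fun x => P (Algebra.norm A x)) ht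
        simp only [map_mul, Algebra.norm_algebraMap, map_pow, hP, zero_mul] at h1
        exact eq_zero_of_pow_eq_zero h1)
    have : Q.LiesOver (RingHom.ker P) := ⟨hQc.symm⟩
    let : Algebra (A ⧸ RingHom.ker P) Ω := (RingHom.kerLift P).toAlgebra
    have : FaithfulSMul (A ⧸ RingHom.ker P) Ω :=
      (faithfulSMul_iff_algebraMap_injective _ _).2 (RingHom.kerLift_injective P)
    let g : (B ⧸ Q) →ₐ[A ⧸ RingHom.ker P] Ω := IsAlgClosed.lift
    refine ⟨g.toRingHom.comp (Ideal.Quotient.mk Q), fun a => ?_, ?_⟩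
    · exact g.commutes (Ideal.Quotient.mk _ a)
    · rw [RingHom.comp_apply,
        Ideal.Quotient.eq_zero_iff_mem.2 (hQ (Ideal.mem_span_singleton_self _)), map_zero]

end Pool.Agent.P.MP_b8021b_nt.VC.BC
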