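import Pool.Agent.P.MP_b8021b_nt.VC.PBC1
import Pool.Agent.P.MP_b8021b_nt.VC.PBC3

/-! Base change of a curve. -/

namespace Pool.Agent.P.MP_b8021b_nt.VC

open Polynomial Finset TensorProduct
open scoped Classical

namespace BC

variable {F A I : Type} (k : Type) [Field F] [CommRing A] [Algebra F A] [Field k] [Algebra F k]

/-- the inclusion in the extended ring -/
noncomputable def io : A →+* k ⊗[F] A :=
  (Algebra.TensorProduct.includeRight : A →ₐ[F] k ⊗[F] A).toRingHom

lemma io_apply (a : A) : io (F := F) k a = 1 ⊗ₜ a := rfl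

lemma io_alg (c : F) : io (F := F) k (algebraMap F A c) =
    algebraMap k (k ⊗[F] A) (algebraMap F k c) := by
  rw [← IsScalarTower.algebraMap_apply]
  exact (Algebra.TensorProduct.includeRight : A →ₐ[F] k ⊗[F] A).commutes c

lemma io_span (x : k ⊗[F] A) : x ∈ Submodule.span k (Set.range (io (F := F) (A := A) k)) := by
  induction x using TensorProduct.induction_on with
  | zero => exact Submodule.zero_mem _
  | tmul c a =>
    have : c ⊗ₜ[F] a = c • io (F := F) k a := by
      rw [io_apply, smul_tmul', smul_eq_mul, mul_one]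
    rw [this]
    exact Submodule.smul_mem _ _ (Submodule.subset_span ⟨a, rfl⟩)
  | add x y hx hy => exact Submodule.add_mem _ hx hy

lemma repr_io (b : Module.Basis I F A) (a : A) (i : I) :
    (Algebra.TensorProduct.basis k b).repr (io k a) i = algebraMap F k (b.repr a i) := by
  rw [io_apply, Algebra.TensorProduct.basis_repr_tmul, one_smul, Finsupp.mapRange_apply]

lemma supp_io (b : Module.Basis I F A) (a : A) :
    ((Algebra.TensorProduct.basis k b).repr (io k a)).support = (b.repr a).support := by
  ext i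
  rw [Finsupp.mem_support_iff, Finsupp.mem_support_iff, repr_io, Ne, Ne, map_eq_zero]

lemma io_inj : Function.Injective (io (F := F) (A := A) k) := by
  rw [injective_iff_map_eq_zero]
  intro a ha
  have := supp_io k (Module.Basis.ofVectorSpace F A) a
  rw [ha, map_zero, Finsupp.support_zero, eq_comm, Finsupp.support_eq_empty] at this
  exact (LinearEquiv.map_eq_zero_iff _).1 this

lemma mul_io (cv : Cv F A) (b : Module.Basis I F A) (w : I → ℕ) (hw : Function.Injective w)
    (hb : ∀ i, cv.δ (b i) = w i) (hδ : ∀ a, cv.δ a = (b.repr a).support.sup w)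
    (x y : k ⊗[F] A) (hx : x ≠ 0) (hy : y ≠ 0) :
    x * y ≠ 0 ∧ D (Algebra.TensorProduct.basis k b) w (x * y) =
      D (Algebra.TensorProduct.basis k b) w x + D (Algebra.TensorProduct.basis k b) w y := by
  have := cv.ded
  refine D_mul _ w hw (fun i j => ?_) x y hx hy
  rw [Algebra.TensorProduct.basis_apply, Algebra.TensorProduct.basis_apply, ← io_apply,
    ← io_apply, ← map_mul, D, supp_io, ← hδ, cv.mul _ _ (b.ne_zero i) (b.ne_zero j), hb, hb]
  exact ⟨fun h => mul_ne_zero (b.ne_zero i) (b.ne_zero j) (io_inj k (by rw [h, map_zero])), rfl⟩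

lemma dom (cv : Cv F A) : IsDomain (k ⊗[F] A) := by
  have := cv.ded
  obtain ⟨I, b, w, hw, hb, hδ⟩ := exists_basis cv
  have : Nontrivial (k ⊗[F] A) := (io_inj k).nontrivial
  have : NoZeroDivisors (k ⊗[F] A) := ⟨fun {x y} h => by
    by_contra hn
    rw [not_or] at hn
    exact (mul_io k cv b w hw hb hδ x y hn.1 hn.2).1 h⟩
  exact NoZeroDivisors.to_isDomain _

lemma ded [CharZero F] (hCv : S_Cv) (cv : Cv F A) : IsDedekindDomain (k ⊗[F] A) := by
  have := cv.ded
  obtain ⟨h1, -, -, -, -, -, -, -, h9⟩ := hCv F A cv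
  obtain ⟨n₀, hn⟩ := cv.cof
  obtain ⟨z, -, hz⟩ := hn (n₀ + 1) (by omega)
  have hz0 : 0 < cv.δ z := by omega
  obtain ⟨y, -, -, hy, hy'⟩ := h9 z hz0
  have hinj : ∀ p : F[X], aeval z p = 0 → p = 0 := fun p hp => by
    by_contra h0
    exact (hy' (fun _ => p) ⟨0, hz0⟩ h0).1 (by simp [hp])
  have hint : (aeval z : F[X] →ₐ[F] A).toRingHom.IsIntegral :=
    (fin_line (RingHom.id F) (RingHom.id A) (fun _ => rfl)
      (fun x => Submodule.subset_span ⟨x, rfl⟩) z y hy).to_isIntegral
  have hf : ∀ (K : Type) [Field K] [Algebra F K] [IsDomain (K ⊗[F] A)],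
      IsNoetherianRing (K ⊗[F] A) ∧ Ring.DimensionLEOne (K ⊗[F] A) ∧
        Algebra.FiniteType K (K ⊗[F] A) := fun K _ _ _ =>
    of_fin_line _ (fin_line (algebraMap F K) (io K) (io_alg K) (io_span K) z y hy)
  have := dom k cv
  have := dom (AlgebraicClosure k) cv
  obtain ⟨_, _, -⟩ := hf k
  obtain ⟨_, -, _⟩ := hf (AlgebraicClosure k)
  have : IsIntegrallyClosed (AlgebraicClosure k ⊗[F] A) := closed_of_gen fun M hM => by
    obtain ⟨P, rfl⟩ := exists_point (k := AlgebraicClosure k) M hM
    exact gen (algebraMap F _) (io _) (io_alg _) (io_span _) h1 z hinj hint P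
  obtain ⟨ρ, hρ⟩ := LinearMap.exists_leftInverse_of_injective
    (Algebra.linearMap k (AlgebraicClosure k))
    (LinearMap.ker_eq_bot.2 (algebraMap k (AlgebraicClosure k)).injective)
  have hρ1 : ρ 1 = 1 := by simpa using LinearMap.congr_fun hρ 1
  have : IsIntegrallyClosed (k ⊗[F] A) := by
    refine closed_of_retract (C := AlgebraicClosure k ⊗[F] A) (Algebra.TensorProduct.map
      (IsScalarTower.toAlgHom F k (AlgebraicClosure k)) (AlgHom.id F A)).toRingHom
      (LinearMap.rTensor A (ρ.restrictScalars F)) ?_ (map_zero _) fun u v => ?_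
    · rw [Algebra.TensorProduct.one_def, LinearMap.rTensor_tmul, LinearMap.restrictScalars_apply,
        hρ1, Algebra.TensorProduct.one_def]
    · induction u using TensorProduct.induction_on with
      | zero => simp
      | add u u' hu hu' => rw [map_add, add_mul, map_add, hu, hu', add_mul]
      | tmul c a =>
        induction v using TensorProduct.induction_on with
        | zero => simp
        | add v v' hv hv' => rw [mul_add, map_add, hv, hv', map_add, mul_add]
        | tmul d e =>
          have h2 : ρ (algebraMap k _ c * d) = c * ρ d := by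
            rw [← Algebra.smul_def, map_smul, smul_eq_mul]
          simp [h2]
  exact {}

end BC

open BC in
theorem p_bC (hCv : S_Cv) : S_BC := by
  intro F k A _ _ _ _ _ _ cv
  have := cv.ded
  obtain ⟨I, b, w, hw, hb, hδ⟩ := exists_basis cv
  have hD : ∀ a, D (Algebra.TensorProduct.basis k b) w (io k a) = cv.δ a := fun a => by
    rw [D, supp_io, ← hδ]
  let cv' : Cv k (k ⊗[F] A) :=
    { δ := D (Algebra.TensorProduct.basis k b) w
      ded := ded k hCv cv
      mul := fun f g hf hg => (mul_io k cv b w hw hb hδ f g hf hg).2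
      add := D_add _ w
      const := fun c => by
        have h1 := D_smul (Algebra.TensorProduct.basis k b) w c (io k 1)
        have h2 := cv.const 1
        rw [map_one] at h2
        rw [hD, h2, map_one, ← Algebra.algebraMap_eq_smul_one] at h1
        exact Nat.le_zero.1 h1
      lc := fun f g _ hg h => D_lc _ w hw f g hg h
      cof := by
        obtain ⟨n₀, hn⟩ := cv.cof
        refine ⟨n₀, fun n h => ?_⟩
        obtain ⟨f, hf, hfn⟩ := hn n h
        exact ⟨io k f, fun h0 => hf (io_inj k (by rw [h0, map_zero])), by rw [hD, hfn]⟩ }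
  refine ⟨k ⊗[F] A, inferInstance, inferInstance, cv', io k, io_alg k, io_inj k, hD,
    fun n x hx => ?_, fun S _ j f hf => ?_, fun _ s' hs' => ?_⟩
  · have h2 := (Algebra.TensorProduct.basis k b).linearCombination_repr x
    rw [Finsupp.linearCombination_apply, Finsupp.sum] at h2
    rw [← h2]
    refine Submodule.sum_mem _ fun i hi => Submodule.smul_mem _ _ (Submodule.subset_span
      ⟨b i, ?_, by rw [Algebra.TensorProduct.basis_apply, io_apply]⟩)
    have h3 : cv.δ (b i) ≤ n := by
      rw [hb]
      exact (le_D _ w (Finsupp.mem_support_iff.1 hi)).trans hx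
    exact h3
  · let : Algebra F S := (j.comp (algebraMap F k)).toAlgebra
    let j' : k →ₐ[F] S := { j with commutes' := fun _ => rfl }
    let f' : A →ₐ[F] S := { f with commutes' := hf }
    refine ⟨(Algebra.TensorProduct.lift j' f' fun _ _ => Commute.all _ _).toRingHom,
      fun a => ?_, fun c => ?_⟩
    · simp [io_apply, f']
    · simp [j']
  · let : Algebra A (k ⊗[F] A) := Algebra.TensorProduct.rightAlgebra
    have := dom k cv
    have : Module.Finite A (k ⊗[F] A) :=
      Module.Finite.equiv (Algebra.TensorProduct.commRight F A k).toLinearEquiv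
    have : Module.Free A (k ⊗[F] A) :=
      Module.Free.of_equiv (Algebra.TensorProduct.commRight F A k).toLinearEquiv
    obtain ⟨s, h1, h2, h3⟩ := exists_norm (A := A) s' hs'
    exact ⟨s, h1, h2, fun Ω _ _ _ P hP => h3 Ω P.toRingHom hP⟩

end Pool.Agent.P.MP_b8021b_nt.VC
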