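import Pool.Agent.P.MP_b8021b_nt.VC.DefN

/-! Interface statements of part N, geometry of numbers. Each is proved in its own file of this
folder. -/

namespace Pool.Agent.P.MP_b8021b_nt.VC

open Polynomial NumberField Finset MeasureTheory Pool.Agent.P.MP_b8021b_nt.VE
open scoped Classical ComplexConjugate

/-- the embedding, norms and lattices -/
def S_Emb : Prop :=
  ∀ (k : Type) [Field k] [NumberField k] [Algebra k ℂ] (_ : BF k) (D : ℕ), ∃ C : ℕ,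
    ∀ (E : Type) [Field E] [NumberField E] [Algebra k E], Module.finrank k E = D →
      Fintype.card (Emb k E) = D ∧ Module.finrank ℚ E = 2 * D ∧ 1 ≤ D ∧
      (∀ a : 𝓞 E, (Ideal.absNorm (Ideal.span {a}) : ℝ) = nz (emb k a)) ∧
      (∀ (a : E), ∏ φ : Emb k E, φ a = algebraMap k ℂ (Algebra.norm k a)) ∧
      (∀ (𝔟 : Ideal (𝓞 E)) (z : Emb k E → ℂ), z ∈ lat k 𝔟 ↔ ∃ a ∈ 𝔟, emb k a = z) ∧
      (∀ 𝔟 : Ideal (𝓞 E), 𝔟 ≠ ⊥ → (∃ _ : DiscreteTopology (lat k 𝔟), IsZLattice ℝ (lat k 𝔟)) ∧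
        ZLattice.covolume (lat k 𝔟) = Ideal.absNorm 𝔟 * cov2 k E) ∧
      ((2 : ℝ) ^ C)⁻¹ ≤ cov2 k E ∧ (∃ Q : ℝ, 2 ≤ Q ∧ Small k E Q) ∧
      ∀ Q : ℝ, 2 ≤ Q → Small k E Q → cov2 k E ≤ Q ^ C ∧
        ∃ v : Module.Basis (Fin D × Bool) ℝ (Emb k E → ℂ),
          ∀ j, ‖v j‖ ≤ Q ^ C ∧ ∃ a : 𝓞 E, emb k a = v j

/-- lattice points of a coset in a ball -/
def S_Ball : Prop :=
  ∀ (k : Type) [Field k] [NumberField k] [Algebra k ℂ] (_ : BF k) (D : ℕ), ∃ C : ℕ,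
    ∀ (E : Type) [Field E] [NumberField E] [Algebra k E], Module.finrank k E = D →
      (∀ (ζ : Emb k E → ℂ) (ϱ : ℝ), {α : 𝓞 E | ‖emb k α - ζ‖ ≤ ϱ}.Finite) ∧
      ∀ (Q ϱ : ℝ) (𝔟 : Ideal (𝓞 E)) (n₁ : ℕ) (α₀ : 𝓞 E) (ζ : Emb k E → ℂ), 2 ≤ Q → Small k E Q →
        1 ≤ n₁ → (n₁ : 𝓞 E) ∈ 𝔟 → n₁ * Q ^ C ≤ ϱ →
        ϱ ^ (2 * D) / (2 ^ C * (Ideal.absNorm 𝔟 * cov2 k E)) ≤
          Set.ncard {α : 𝓞 E | α - α₀ ∈ 𝔟 ∧ ‖emb k α - ζ‖ ≤ ϱ} ∧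
        Set.ncard {α : 𝓞 E | α - α₀ ∈ 𝔟 ∧ ‖emb k α - ζ‖ ≤ ϱ} ≤
          2 ^ C * ϱ ^ (2 * D) / (Ideal.absNorm 𝔟 * cov2 k E)

/-- balanced elements of an ideal -/
def S_Bal : Prop :=
  ∀ (k : Type) [Field k] [NumberField k] [Algebra k ℂ] (_ : BF k) (D : ℕ), ∃ C : ℕ,
    ∀ (E : Type) [Field E] [NumberField E] [Algebra k E], Module.finrank k E = D →
      ∀ (Q : ℝ) (𝔞 : Ideal (𝓞 E)) (v : Emb k E → ℝ), 2 ≤ Q → Small k E Q → 𝔞 ≠ ⊥ → ∑ φ, v φ = 0 →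
        ∃ γ ∈ 𝔞, γ ≠ 0 ∧ ∀ φ, ‖emb k γ φ‖ ≤
          Q ^ C * (Ideal.absNorm 𝔞 : ℝ) ^ (1 / (2 * D) : ℝ) * Real.exp (v φ)

/-- short independent units -/
def S_Unit : Prop :=
  ∀ (k : Type) [Field k] [NumberField k] [Algebra k ℂ] (_ : BF k) (D : ℕ), ∃ C : ℕ,
    ∀ (E : Type) [Field E] [NumberField E] [Algebra k E], Module.finrank k E = D →
      ∀ (Q : ℝ) (n : ℕ), 2 ≤ Q → Small k E Q → 1 ≤ n →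
        Nonempty (UB k E n ((Q * n) ^ C)) ∧ (IsCM E → ∃ U : UB k E n ((Q * n) ^ C), U.Pos)

/-- small representatives of the ray classes -/
def S_Rep2 : Prop :=
  ∀ (k : Type) [Field k] [NumberField k] [Algebra k ℂ] (_ : BF k) (D : ℕ), ∃ C : ℕ,
    ∀ (E : Type) [Field E] [NumberField E] [Algebra k E], Module.finrank k E = D →
      ∀ (Q : ℝ) (n d : ℕ), 2 ≤ Q → Small k E Q → 2 ≤ n → 1 ≤ d →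
        {χ : Ideal (𝓞 E) →* ℂ | IsH k n 0 0 χ}.Finite ∧ 1 ≤ hn k E n ∧
        (hn k E n : ℝ) ≤ (Q * n) ^ C ∧
        ∃ ℛ : Finset (Ideal (𝓞 E)), ℛ.card = hn k E n ∧
          (∀ 𝔠 ∈ ℛ, Cop (n * d) 𝔠 ∧ (Ideal.absNorm 𝔠 : ℝ) ≤ (Q * n * d) ^ C) ∧
          (∀ 𝔟, Cop n 𝔟 → ∃! 𝔠, 𝔠 ∈ ℛ ∧ ∃ β : 𝓞 E, (n : 𝓞 E) ∣ β - 1 ∧ 𝔟 * 𝔠 = Ideal.span {β}) ∧
          (∀ ψ, IsH k n 0 0 ψ → ¬ IsTriv n ψ → ∑ 𝔠 ∈ ℛ, ψ 𝔠 = 0) ∧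
          ∀ 𝔟 𝔟', Cop n 𝔟 → Cop n 𝔟' → ∑ᶠ ψ ∈ {χ : Ideal (𝓞 E) →* ℂ | IsH k n 0 0 χ},
            ψ 𝔟 * conj (ψ 𝔟') = if Ray n 𝔟 𝔟' then (hn k E n : ℂ) else 0

/-- the partition of unity -/
def S_Part : Prop :=
  ∀ (k : Type) [Field k] [NumberField k] [Algebra k ℂ] (_ : BF k) (E : Type) [Field E]
    [NumberField E] [Algebra k E] (n : ℕ) (ℓ : ℝ) (U : UB k E n ℓ),
    (∀ z : Emb k E → ℂ, (∀ φ, z φ ≠ 0) →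
      {μ : Fin U.m → ℤ | U.β (emb k ((∏ j, U.ε j ^ μ j : (𝓞 E)ˣ) : 𝓞 E) * z) ≠ 0}.Finite ∧
      ∑ᶠ μ : Fin U.m → ℤ, U.β (emb k ((∏ j, U.ε j ^ μ j : (𝓞 E)ˣ) : 𝓞 E) * z) = 1) ∧
    (∀ (z : Emb k E → ℂ) (μ : Fin U.m → ℤ), (∀ φ, z φ ≠ 0) →
      U.co (lg (emb k ((∏ j, U.ε j ^ μ j : (𝓞 E)ˣ) : 𝓞 E) * z)) = U.co (lg z) + fun j => (μ j : ℝ)) ∧
    (∀ Z : ℝ, {α : 𝓞 E | U.β (emb k α) ≠ 0 ∧ nz (emb k α) ≤ Z}.Finite) ∧ 1 ≤ U.j0 ∧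
    ∀ (κ : Emb k E → ℤ) (τ : Emb k E → ℝ) (α : 𝓞 E), α ≠ 0 → U.Tr κ τ →
      ∑ᶠ η ∈ {η : (𝓞 E)ˣ | (n : 𝓞 E) ∣ (η : 𝓞 E) - 1},
        (U.β (emb k (η * α)) : ℂ) * ty κ τ (emb k (η * α)) =
      if ∀ η : (𝓞 E)ˣ, (n : 𝓞 E) ∣ (η : 𝓞 E) - 1 → ty κ τ (emb k (η : 𝓞 E)) = 1
        then U.j0 * ty κ τ (emb k α) else 0

/-- orthogonality -/
def S_Eq2 : Prop :=
  ∀ (k : Type) [Field k] [NumberField k] [Algebra k ℂ] (_ : BF k) (E : Type) [Field E]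
    [NumberField E] [Algebra k E] (n : ℕ) (κ : Emb k E → ℤ) (τ : Emb k E → ℝ), 2 ≤ n →
    ∑ φ, τ φ = 0 → ∃ 𝒳 : Finset (Ideal (𝓞 E) →* ℂ), (∀ χ, χ ∈ 𝒳 ↔ IsH k n κ τ χ) ∧
      𝒳.card ≤ hn k E n ∧
      ∀ (ℓ : ℝ) (U : UB k E n ℓ) (𝔞 𝔟₀ 𝔟 : Ideal (𝓞 E)) (α₀ : 𝓞 E), U.Tr κ τ → 𝔞 ≠ ⊥ →
        Ideal.span {α₀} = 𝔞 * 𝔟₀ → Cop n 𝔟₀ →
        ∑ᶠ α ∈ {α : 𝓞 E | Ideal.span {α} = 𝔞 * 𝔟 ∧ α - α₀ ∈ Ideal.span {(n : 𝓞 E)} * 𝔞},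
          (U.β (emb k α) : ℂ) * ty κ τ (emb k α) =
        U.ρ * ty κ τ (emb k α₀) * ∑ χ ∈ 𝒳, χ 𝔟 * conj (χ 𝔟₀)

/-- the image of the Lebesgue measure in the logarithmic space -/
def S_Int : Prop :=
  ∀ (k : Type) [Field k] [NumberField k] [Algebra k ℂ] (_ : BF k) (E : Type) [Field E]
    [NumberField E] [Algebra k E] (n : ℕ) (ℓ : ℝ) (U : UB k E n ℓ) (g : ℝ → ℝ) (Λ Z : ℝ)
    (κ : Emb k E → ℤ) (h : (Fin U.m → ℝ) → ℂ), Bump g Λ → 0 < Z → Continuous h →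
    HasCompactSupport h →
    ∫ z : Emb k E → ℂ, ty κ 0 z * h (U.co (lg z)) * (g (nz z / Z) : ℝ) =
      if κ = 0 then ((U.vol * Z * ∫ x, g x : ℝ) : ℂ) * ∫ x, h x else 0

/-- integrals of the test functions and the size of the fundamental domain -/
def S_Vol : Prop :=
  ∀ (k : Type) [Field k] [NumberField k] [Algebra k ℂ] (_ : BF k) (D : ℕ), ∃ C : ℕ,
    ∀ (E : Type) [Field E] [NumberField E] [Algebra k E], Module.finrank k E = D →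
      ∀ (n : ℕ) (ℓ : ℝ) (U : UB k E n ℓ), ((2 : ℝ) ^ C)⁻¹ ≤ U.vol ∧ U.vol ≤ 2 ^ C * ℓ ^ D ∧
        volume {x | ‖U.lv x‖ ≤ 5} ≠ ⊤ ∧ U.vol * (volume {x | ‖U.lv x‖ ≤ 5}).toReal ≤ 2 ^ C ∧
        (∀ x, ‖x‖ ≤ ‖U.lv x‖ / 100 ∧ ‖U.lv x‖ ≤ D * ℓ * ‖x‖ ∧ U.co (U.lv x) = x) ∧
        (∀ M : ℕ, D * ℓ ≤ M → {γ : Fin U.m → ℤ | ‖U.lv fun j => (γ j : ℝ) / M‖ ≤ 4}.Finite ∧
          U.vol * Set.ncard {γ : Fin U.m → ℤ | ‖U.lv fun j => (γ j : ℝ) / M‖ ≤ 4} ≤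
            2 ^ C * (M : ℝ) ^ U.m) ∧
        ∀ (g : ℝ → ℝ) (Λ Z : ℝ) (κ : Emb k E → ℤ) (τ : Emb k E → ℝ), Bump g Λ → 0 < Z →
          ∑ φ, τ φ = 0 → U.Tr κ τ →
          ∫ z : Emb k E → ℂ, ty κ τ z * (U.β z * g (nz z / Z) : ℝ) =
            if κ = 0 ∧ τ = 0 then ((U.vol * Z * ∫ x, g x : ℝ) : ℂ) else 0

/-- sums of the test functions over a coset -/
def S_Win2 : Prop :=
  ∀ (k : Type) [Field k] [NumberField k] [Algebra k ℂ] (_ : BF k) (D : ℕ), ∃ C : ℕ,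
    ∀ (E : Type) [Field E] [NumberField E] [Algebra k E], Module.finrank k E = D →
      ∀ (Q : ℝ) (n : ℕ) (ℓ : ℝ) (U : UB k E n ℓ) (g : ℝ → ℝ) (Λ Z Kb : ℝ) (κ : Emb k E → ℤ)
        (τ : Emb k E → ℝ) (𝔟 : Ideal (𝓞 E)) (β₀ : 𝓞 E), 2 ≤ Q → Small k E Q → Bump g Λ → 1 ≤ Z →
        1 ≤ Kb → (∀ φ, |(κ φ : ℝ)| ≤ Kb) → (∀ φ, |τ φ| ≤ Kb) → ∑ φ, τ φ = 0 → U.Tr κ τ → 𝔟 ≠ ⊥ →
        ‖∑ᶠ α ∈ {α : 𝓞 E | α - β₀ ∈ 𝔟},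
            ty κ τ (emb k α) * (U.β (emb k α) * g (nz (emb k α) / Z) : ℝ) -
          if κ = 0 ∧ τ = 0 then
            (((U.vol * Z * ∫ x, g x) / (Ideal.absNorm 𝔟 * cov2 k E) : ℝ) : ℂ) else 0‖ ≤
          (Q * Ideal.absNorm 𝔟 * ℓ * Kb) ^ C * Λ * Z ^ (1 - 1 / (2 * D) : ℝ)

/-- a character determines its type -/
def S_Typ : Prop :=
  ∀ (k : Type) [Field k] [NumberField k] [Algebra k ℂ] (_ : BF k) (E : Type) [Field E]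
    [NumberField E] [Algebra k E] (n : ℕ) (κ κ' : Emb k E → ℤ) (τ τ' : Emb k E → ℝ), 2 ≤ n →
    ∑ φ, τ φ = 0 → ∑ φ, τ' φ = 0 →
    (∀ α : 𝓞 E, (n : 𝓞 E) ∣ α - 1 → ty κ τ (emb k α) = ty κ' τ' (emb k α)) → κ = κ' ∧ τ = τ'

/-- the number of characters of bounded type -/
def S_NumCh : Prop :=
  ∀ (k : Type) [Field k] [NumberField k] [Algebra k ℂ] (_ : BF k) (D : ℕ), ∃ C : ℕ,
    ∀ (E : Type) [Field E] [NumberField E] [Algebra k E], Module.finrank k E = D →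
      ∀ (Q Kb Tb : ℝ) (n : ℕ), 2 ≤ Q → Small k E Q → 2 ≤ n → 1 ≤ Kb → 1 ≤ Tb →
        (Chs k (E := E) n Kb Tb).Finite ∧
        ((Chs k (E := E) n Kb Tb).ncard : ℝ) ≤ (Q * n * Kb * Tb) ^ C

/-- smooth sums of a character, for a given system of units -/
def S_PS0 : Prop :=
  ∀ (k : Type) [Field k] [NumberField k] [Algebra k ℂ] (_ : BF k) (D : ℕ), ∃ C : ℕ,
    ∀ (E : Type) [Field E] [NumberField E] [Algebra k E], Module.finrank k E = D →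
      ∀ (Q : ℝ) (n : ℕ) (ℓ : ℝ) (U : UB k E n ℓ) (g : ℝ → ℝ) (Λ Y : ℝ), 2 ≤ Q → Small k E Q →
        2 ≤ n → Bump g Λ → 1 ≤ Y →
        ‖∑ j ∈ range (⌈3 * Y⌉₊ + 1), (g (j / Y) : ℂ) * lam (triv E n) j -
          ((U.vol / (U.ρ * n ^ (2 * D) * cov2 k E) * Y * ∫ x, g x : ℝ) : ℂ)‖ ≤
          (Q * n * ℓ) ^ C * Λ * Y ^ (1 - 1 / (2 * D) : ℝ) ∧
        ∀ (d : ℕ) (Kb : ℝ) (κ : Emb k E → ℤ) (τ : Emb k E → ℝ) (χ : Ideal (𝓞 E) →* ℂ), 1 ≤ d →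
          1 ≤ Kb → (∀ φ, |(κ φ : ℝ)| ≤ Kb) → (∀ φ, |τ φ| ≤ Kb) → IsH k n κ τ χ → ¬ IsTriv n χ →
          ‖∑ j ∈ range (⌈3 * Y⌉₊ + 1) with d ^ 2 ∣ j, (g (j / Y) : ℂ) * lam χ j‖ ≤
            (Q * n * d * ℓ * Kb) ^ C * Λ * Y ^ (1 - 1 / (2 * D) : ℝ)

/-- sharp sums of a character; the density of the ideals coprime to `n` -/
def S_PSs : Prop :=
  ∀ (k : Type) [Field k] [NumberField k] [Algebra k ℂ] (_ : BF k) (D : ℕ), ∃ C : ℕ,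
    ∀ (E : Type) [Field E] [NumberField E] [Algebra k E], Module.finrank k E = D →
      ∀ (Q : ℝ) (n : ℕ), 2 ≤ Q → Small k E Q → 2 ≤ n → 0 < Rs E n ∧
        (∀ (ℓ : ℝ) (U : UB k E n ℓ), U.ρ * Rs E n * n ^ (2 * D) * cov2 k E = U.vol) ∧
        (∀ X : ℕ, ‖∑ j ∈ Finset.Icc 1 X, lam (triv E n) j - (Rs E n * X : ℝ)‖ ≤
          (Q * n) ^ C * (X : ℝ) ^ (1 - 1 / (4 * D) : ℝ)) ∧
        ∀ (X : ℕ) (Kb : ℝ) (κ : Emb k E → ℤ) (τ : Emb k E → ℝ) (χ : Ideal (𝓞 E) →* ℂ),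
          1 ≤ Kb → (∀ φ, |(κ φ : ℝ)| ≤ Kb) → (∀ φ, |τ φ| ≤ Kb) → IsH k n κ τ χ → ¬ IsTriv n χ →
          ‖∑ j ∈ Finset.Icc 1 X, lam χ j‖ ≤ (Q * n * Kb) ^ C * (X : ℝ) ^ (1 - 1 / (4 * D) : ℝ)

/-- smooth sums of a character; upper bound for the density -/
def S_PS : Prop :=
  ∀ (k : Type) [Field k] [NumberField k] [Algebra k ℂ] (_ : BF k) (D : ℕ), ∃ C : ℕ,
    ∀ (E : Type) [Field E] [NumberField E] [Algebra k E], Module.finrank k E = D →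
      ∀ (Q : ℝ) (n : ℕ), 2 ≤ Q → Small k E Q → 2 ≤ n →
        Rs E n ≤ C * (1 + Real.log (Q * n)) ^ C ∧
        ∀ (g : ℝ → ℝ) (Λ Y : ℝ), Bump g Λ → 1 ≤ Y →
          ‖∑ j ∈ range (⌈3 * Y⌉₊ + 1), (g (j / Y) : ℂ) * lam (triv E n) j -
            ((Rs E n * Y * ∫ x, g x : ℝ) : ℂ)‖ ≤ (Q * n) ^ C * Λ * Y ^ (1 - 1 / (2 * D) : ℝ) ∧
          ∀ (d : ℕ) (Kb : ℝ) (κ : Emb k E → ℤ) (τ : Emb k E → ℝ) (χ : Ideal (𝓞 E) →* ℂ), 1 ≤ d →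
            1 ≤ Kb → (∀ φ, |(κ φ : ℝ)| ≤ Kb) → (∀ φ, |τ φ| ≤ Kb) → IsH k n κ τ χ → ¬ IsTriv n χ →
            ‖∑ j ∈ range (⌈3 * Y⌉₊ + 1) with d ^ 2 ∣ j, (g (j / Y) : ℂ) * lam χ j‖ ≤
              (Q * n * d * Kb) ^ C * Λ * Y ^ (1 - 1 / (2 * D) : ℝ)

/-- change of modulus in the density -/
def S_Rs : Prop :=
  ∀ (k : Type) [Field k] [NumberField k] [Algebra k ℂ] (_ : BF k) (E : Type) [Field E]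
    [NumberField E] [Algebra k E] (m n : ℕ), 2 ≤ m → n ≠ 0 → (∀ l : ℕ, l.Prime → l ∣ m → l ∣ n) →
    Rs E n ≤ Rs E m ∧ Rs E m ≤ Rs E n *
      ∏ l ∈ n.primeFactors.filter (fun l => ¬ l ∣ m), (1 - 1 / (l : ℝ))⁻¹ ^ (2 * Module.finrank k E)

/-- the Euler product -/
def S_EP : Prop :=
  ∀ (E : Type) [Field E] [NumberField E] (χ : Ideal (𝓞 E) →* ℂ) (s : ℂ), (∀ I, ‖χ I‖ ≤ 1) →
    1 < s.re → LSeriesSummable (lam χ) s ∧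
      (Summable fun P : IsDedekindDomain.HeightOneSpectrum (𝓞 E) =>
        (Ideal.absNorm P.asIdeal : ℝ) ^ (-s.re)) ∧
      LSeries (lam χ) s = Complex.exp (∑' P : IsDedekindDomain.HeightOneSpectrum (𝓞 E),
        -Complex.log (1 - χ P.asIdeal * (Ideal.absNorm P.asIdeal : ℂ) ^ (-s)))

/-- Dirichlet density of the primes of degree one -/
def S_Den : Prop :=
  ∀ (k : Type) [Field k] [NumberField k] [Algebra k ℂ] (_ : BF k) (E : Type) [Field E]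
    [NumberField E] [Algebra k E] (n : ℕ), 2 ≤ n →
    (∃ C : ℝ, ∀ s : ℝ, 1 < s → s ≤ 2 → |dsum (lam (triv E n)) s - Real.log (1 / (s - 1))| ≤ C) ∧
    ∀ (κ : Emb k E → ℤ) (τ : Emb k E → ℝ) (χ : Ideal (𝓞 E) →* ℂ), IsH k n κ τ χ → ¬ IsTriv n χ →
      ∃ C : ℝ, ∀ s : ℝ, 1 < s → s ≤ 2 → dsum (lam χ) s ≤ C

/-- a character that is trivial at almost all primes of degree one is trivial -/
def S_Triv : Prop :=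
  ∀ (k : Type) [Field k] [NumberField k] [Algebra k ℂ] (_ : BF k) (E : Type) [Field E]
    [NumberField E] [Algebra k E] (n m : ℕ) (κ : Emb k E → ℤ) (τ : Emb k E → ℝ)
    (χ : Ideal (𝓞 E) →* ℂ), 2 ≤ n → m ≠ 0 → IsH k n κ τ χ →
    (∀ I : Ideal (𝓞 E), (Ideal.absNorm I).Prime → ¬ Ideal.absNorm I ∣ m → χ I = 1) → IsTriv n χ

end Pool.Agent.P.MP_b8021b_nt.VC
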