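import Pool.Agent.P.MP_b8021b_nt.VC.StT
import Pool.Agent.P.MP_b8021b_nt.VC.StG
import Pool.Agent.P.MP_b8021b_nt.VC.StH
import Pool.Agent.P.MP_b8021b_nt.VE.StN
import Pool.Agent.P.MP_b8021b_nt.VC.BasicN
import Pool.Agent.P.MP_b8021b_nt.VE.BasicP

/-! Few fibres are bad. -/

namespace Pool.Agent.P.MP_b8021b_nt.VC

open Polynomial NumberField Finset Filter Pool.Agent.P.MP_b8021b_nt.VE
open scoped Classical

namespace PBad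

theorem card_le {S : Finset ℕ} {y : ℝ} {m s : ℕ} (hy : 1 < y) (hm : m ≠ 0) (hs : (m : ℝ) ≤ y ^ s)
    (h : ∀ q ∈ S, q.Prime ∧ y ≤ q ∧ q ∣ m) : S.card ≤ s := by
  have h1 : ∏ q ∈ S, q ≤ m := Nat.le_of_dvd (Nat.pos_of_ne_zero hm)
    (Finset.prod_primes_dvd m (fun q hq => (h q hq).1.prime) fun q hq => (h q hq).2.2)
  have h2 : y ^ S.card ≤ ((∏ q ∈ S, q : ℕ) : ℝ) := by
    rw [Nat.cast_prod, ← prod_const]
    exact prod_le_prod (fun _ _ => by linarith) fun q hq => (h q hq).2.1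
  exact (pow_le_pow_iff_right₀ hy).1 (h2.trans ((Nat.cast_le.2 h1).trans hs))

theorem smw_diff {ω : ℕ → ℝ} {y W D : ℝ} {N i m s : ℕ} {a b : ℕ → ℂ} (hy : 1 < y) (hm : m ≠ 0)
    (hs : (m : ℝ) ≤ y ^ s) (hW : 0 ≤ W) (hD : 0 ≤ D)
    (h : ∀ q ∈ strat y N i, q.Prime ∧ y ≤ q ∧ 0 ≤ ω q ∧ ω q ≤ W)
    (h1 : ∀ q, q.Prime → ‖a q - b q‖ ≤ D) (h2 : ∀ q, q.Prime → ¬ q ∣ m → a q = b q) :
    ‖Smw ω y N i a - Smw ω y N i b‖ ≤ s * (W * D) := by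
  have e : Smw ω y N i a - Smw ω y N i b =
      ∑ q ∈ strat y N i with q ∣ m, (ω q : ℂ) * (a q - b q) := by
    rw [Smw, Smw, ← sum_sub_distrib, sum_filter]
    refine sum_congr rfl fun q hq => ?_
    split_ifs with hd
    · ring
    · rw [h2 q (h q hq).1 hd, sub_self]
  rw [e]
  refine (norm_sum_le _ _).trans ((sum_le_card_nsmul _ _ (W * D) fun q hq => ?_).trans ?_)
  · have hq' := h q (mem_filter.1 hq).1
    rw [norm_mul, Complex.norm_real, Real.norm_of_nonneg hq'.2.2.1]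
    exact mul_le_mul hq'.2.2.2 (h1 q hq'.1) (norm_nonneg _) hW
  · rw [nsmul_eq_mul]
    refine mul_le_mul_of_nonneg_right (Nat.cast_le.2 (card_le hy hm hs fun q hq => ?_))
      (mul_nonneg hW hD)
    have hq' := mem_filter.1 hq
    exact ⟨(h q hq'.1).1, (h q hq'.1).2.1, hq'.2⟩

theorem lam_le (hLam : VE.S_Lam) {E : Type} [Field E] [NumberField E] {χ : Ideal (𝓞 E) → ℂ}
    (h : ∀ I, ‖χ I‖ ≤ 1) {q : ℕ} (hq : q.Prime) : ‖lam χ q‖ ≤ 2 ^ Module.finrank ℚ E := by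
  have h1 := (hLam E).2.1 χ q hq.one_le h
  rwa [hq.divisors, card_pair hq.one_lt.ne, Nat.cast_ofNat] at h1

theorem chs_ind (hTyp : S_Typ) (hBCN : S_BCN) {k : Type} [Field k] [NumberField k] [Algebra k ℂ]
    (K : BF k) {L : Type} [Field L] [NumberField L] [Algebra k L] {n : ℕ} (hn : 2 ≤ n) {Kb Tb : ℝ}
    {χ : Ideal (𝓞 L) →* ℂ} (hχ : χ ∈ Chs k n Kb Tb) {j : ℤ} {ξ : Ideal (𝓞 k) →* ℂ}
    (hξ : IsK (n ^ 2) j ξ) (hI : Ind ξ χ n) : ξ ∈ Chs k (n ^ 2) Kb 0 := by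
  obtain ⟨κ, τ, h1, -, hH⟩ := hχ
  have hn2 : 2 ≤ n ^ 2 := hn.trans (Nat.le_self_pow two_ne_zero n)
  have h3 := (hBCN.2 k K k (n ^ 2) _ _ ξ hn2 hξ).2.2.2.2.2.2 L
  have h4 := (hTyp k K L (n ^ 2) κ (fun _ => j) τ 0 hn2 hH.sum (by simp) fun α hα => by
    have h5 : (n : 𝓞 L) ∣ α - 1 := (Nat.cast_dvd_cast (dvd_pow_self n two_ne_zero)).trans hα
    rw [← hH.prin α h5, hI _ (cop_span_of_dvd h5)]
    exact h3.prin α hα).1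
  have : Module.Finite k L := Module.Finite.of_restrictScalars_finite ℚ k L
  have h6 := h1 (IsAlgClosed.lift : L →ₐ[k] ℂ)
  rw [h4] at h6
  exact ⟨_, 0, fun _ => h6, fun _ => by simp, hξ⟩

variable {R : Type} [CommRing R] [Algebra ℤ[X] R] {p : Par R} {c : Cfg}

/-- the deviation of a fibre -/
noncomputable def dv (p : Par R) (c : Cfg) (i : ℕ) (β : ℕ → ℂ) (t : ℤ × ℤ) : ℂ :=
  Smw (wt p c.y c.N) c.y c.N i (fun q => p.rho t q * β q) - Smw (wk p.r c.y c.N) c.y c.N i β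

theorem cheb {i : ℕ} {E V : ℝ} (hV : 0 < V) (hw : ∀ t ∈ Tset p c, 0 ≤ wT p c t)
    (h : ∀ β : ℕ → ℂ, (∀ q, ‖β q‖ ≤ 2) → ∑ t ∈ Tset p c, wT p c t * ‖dv p c i β t‖ ^ 2 ≤ E * V ^ 2)
    {β : ℕ → ℂ} (hβ : ∀ q, q.Prime → ‖β q‖ ≤ 4) :
    ∑ t ∈ Tset p c with V / 2 ≤ ‖dv p c i β t‖, wT p c t ≤ 16 * E := by
  have h1 := h (fun q => if q.Prime then β q / 2 else 0) fun q => by
    split_ifs with hq
    · rw [norm_div, Complex.norm_two]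
      linarith [hβ q hq]
    · simp
  have h2 : ∀ t, dv p c i β t = 2 * dv p c i (fun q => if q.Prime then β q / 2 else 0) t := by
    intro t
    simp only [dv, Smw, mul_sub, mul_sum]
    congr 1 <;> refine sum_congr rfl fun q hq => ?_ <;> rw [if_pos (mem_filter.1 hq).2.1] <;> ring
  refine le_of_mul_le_mul_right ?_ (show 0 < V ^ 2 / 16 by positivity)
  rw [sum_mul, show 16 * E * (V ^ 2 / 16) = E * V ^ 2 by ring]
  refine le_trans (sum_le_sum fun t ht => ?_) ((sum_le_sum_of_subset_of_nonneg (filter_subset _ _)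
    fun t ht _ => mul_nonneg (hw t ht) (sq_nonneg _)).trans h1)
  have h3 := (mem_filter.1 ht).2
  rw [h2, norm_mul, Complex.norm_two] at h3
  refine mul_le_mul_of_nonneg_left ?_ (hw t (mem_filter.1 ht).1)
  nlinarith

theorem wit_left {P : ℤ[X]} {M M' : ℕ} (h : Wit P (M * M')) : Wit P M :=
  h.imp fun _ h => ⟨h.1, fun e => h.2.1 (e.mul_right _), h.2.2⟩

section

variable {k : Type} [Field k] [NumberField k] [Algebra k ℂ] {K : BF k} {i s : ℕ} {V W : ℝ}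
  (hLam : VE.S_Lam) (hCard : S_Card) (hQF2 : S_QF2) (hK : K.D = -p.r) (hy : 1 < c.y) (hW : 0 ≤ W)
  (h1 : ∀ q ∈ strat c.y c.N i, q.Prime ∧ c.y ≤ q ∧ 0 ≤ wt p c.y c.N q ∧ wt p c.y c.N q ≤ W)
  (h2 : ∀ q ∈ strat c.y c.N i, q.Prime ∧ c.y ≤ q ∧ 0 ≤ wk p.r c.y c.N q ∧ wk p.r c.y c.N q ≤ W)
  (hV : 4 * (s * (W * (2 ^ (2 * p.e) + 4 * p.e + 8))) ≤ V)
  {t : ℤ × ℤ} {L : Type} [Field L] [NumberField L] [Algebra k L] (Φ : Fb p t k L) (ht : p.Adm t)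

include hLam hCard hQF2 hK Φ ht in
theorem diff_le {χ : Ideal (𝓞 L) → ℂ} (hχ : ∀ I, ‖χ I‖ ≤ 1) {β : ℕ → ℂ}
    (hβ : ∀ q, q.Prime → ‖β q‖ ≤ 4) (q : ℕ) (hq : q.Prime) :
    ‖lam χ q - p.rho t q * β q‖ ≤ 2 ^ (2 * p.e) + 4 * p.e + 8 := by
  have a1 := lam_le hLam hχ hq
  rw [(hQF2 R p k K t L Φ hK ht).2.2.1] at a1
  have a2 : (((Xq p q).filter fun x => p.OnT x t).card : ℝ) ≤ 2 * p.e := by
    exact_mod_cast (hCard R p q).2.2.1 t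
  have a3 : 0 ≤ p.rho t q := by unfold Par.rho; positivity
  have a4 : p.rho t q ≤ p.e := by unfold Par.rho; linarith
  refine (norm_sub_le _ _).trans ?_
  rw [norm_mul, Complex.norm_real, Real.norm_of_nonneg a3]
  have := mul_le_mul a4 (hβ q hq) (norm_nonneg _) (Nat.cast_nonneg _)
  linarith

include hLam hCard hQF2 hK hy hW h1 hV Φ ht in
theorem devA (h3 : ∑ q ∈ strat c.y c.N i, 2 * wk p.r c.y c.N q = 1) (h4 : 1 ≤ p.Mb t)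
    (h5 : (p.Mb t : ℝ) ≤ c.y ^ s)
    (h : V < ‖Smw (wt p c.y c.N) c.y c.N i (lam fun _ : Ideal (𝓞 L) => 1) - 1‖) :
    V / 2 ≤ ‖dv p c i (fun _ => 2) t‖ := by
  have a1 : Smw (wk p.r c.y c.N) c.y c.N i (fun _ => 2) = 1 := by
    rw [Smw, ← Complex.ofReal_one, ← h3, Complex.ofReal_sum]
    exact sum_congr rfl fun q _ => by push_cast; ring
  have a2 := smw_diff (a := lam fun _ : Ideal (𝓞 L) => 1) (b := fun q => p.rho t q * 2) hy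
    (by omega) h5 hW (by positivity) h1
    (diff_le hLam hCard hQF2 hK Φ ht (by simp) (β := fun _ => 2) fun _ _ => by norm_num)
    fun q hq hd => by rw [(hQF2 R p k K t L Φ hK ht).2.2.2.2 q hq hd, mul_comm]
  rw [dv, a1]
  have a3 := norm_sub_le_norm_sub_add_norm_sub
    (Smw (wt p c.y c.N) c.y c.N i (lam fun _ : Ideal (𝓞 L) => 1))
    (Smw (wt p c.y c.N) c.y c.N i fun q => p.rho t q * 2) 1
  have a4 : 0 ≤ s * (W * ((2 : ℝ) ^ (2 * p.e) + 4 * p.e + 8)) := by positivity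
  linarith

include hLam hCard hQF2 hK hy hW h1 h2 hV Φ ht in
theorem devB {n m : ℕ} {χ : Ideal (𝓞 L) →* ℂ} {ξ ξ' : Ideal (𝓞 k) →* ℂ} (hm : m ≠ 0)
    (hs : (m : ℝ) ≤ c.y ^ s) (hn : n ∣ m) (hM : p.Mb t ∣ n) (hχ : ∀ I, ‖χ I‖ ≤ 1)
    (hξ : ∀ I, ‖ξ I‖ ≤ 1) (hξ' : ∀ I, ‖ξ' I‖ ≤ 1) (hI : Ind ξ' χ n) (he : ∀ I, Cop m I → ξ' I = ξ I)
    (h : V < ‖Smw (wt p c.y c.N) c.y c.N i (lam χ) - Smw (wk p.r c.y c.N) c.y c.N i (lam ξ')‖) :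
    V / 2 ≤ ‖dv p c i (lam ξ) t‖ := by
  have b0 : ∀ {ζ : Ideal (𝓞 k) → ℂ}, (∀ I, ‖ζ I‖ ≤ 1) → ∀ q, q.Prime → ‖lam ζ q‖ ≤ 4 := by
    intro ζ hζ q hq
    have := lam_le hLam hζ hq
    rw [K.deg] at this
    linarith
  have b1 : ∀ q, q.Prime → ¬ q ∣ m → lam ξ' q = lam ξ q := fun q hq hd =>
    lam_congr fun I hI => he I (cop_iff_coprime.2 (hI ▸ hq.coprime_iff_not_dvd.2 hd))
  have a1 := smw_diff (a := lam χ) (b := fun q => p.rho t q * lam ξ q) hy hm hs hW (by positivity)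
    h1 (diff_le hLam hCard hQF2 hK Φ ht hχ (b0 hξ)) fun q hq hd => by
      rw [← b1 q hq hd, ← (hQF2 R p k K t L Φ hK ht).2.2.2.1 q ξ' hq fun e => hd (e.trans (hM.trans hn))]
      exact lam_congr fun I e =>
        hI I (cop_iff_coprime.2 (e ▸ hq.coprime_iff_not_dvd.2 fun e => hd (e.trans hn)))
  have a2 := smw_diff (a := lam ξ) (b := lam ξ') (D := 2 ^ (2 * p.e) + 4 * p.e + 8) hy hm hs hW
    (by positivity) h2 (fun q hq => by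
      have := norm_sub_le (lam ξ q) (lam ξ' q)
      have : (0 : ℝ) ≤ 2 ^ (2 * p.e) + 4 * p.e := by positivity
      linarith [b0 hξ q hq, b0 hξ' q hq]) fun q hq hd => (b1 q hq hd).symm
  rw [dv]
  have a3 := norm_sub_le_norm_sub_add_norm_sub (Smw (wt p c.y c.N) c.y c.N i (lam χ))
    (Smw (wt p c.y c.N) c.y c.N i fun q => p.rho t q * lam ξ q)
    (Smw (wk p.r c.y c.N) c.y c.N i (lam ξ'))
  have a4 := norm_sub_le_norm_sub_add_norm_sub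
    (Smw (wt p c.y c.N) c.y c.N i fun q => p.rho t q * lam ξ q)
    (Smw (wk p.r c.y c.N) c.y c.N i (lam ξ)) (Smw (wk p.r c.y c.N) c.y c.N i (lam ξ'))
  linarith

/-- the second way of being bad -/
def Bq (k : Type) [Field k] [NumberField k] [Algebra k ℂ] {L : Type} [Field L] [NumberField L]
    [Algebra k L] (p : Par R) (c : Cfg) (t : ℤ × ℤ) (i a : ℕ) (V : ℝ) (n : ℕ)
    (χ : Ideal (𝓞 L) →* ℂ) : Prop :=
  1 ≤ n ∧ p.Mb t ∣ n ∧ (n : ℝ) ≤ c.y ^ a ∧ χ ∈ Chs k n ((c.N : ℝ) ^ 2) (c.y ^ a) ∧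
    V < ‖Smw (wt p c.y c.N) c.y c.N i (lam χ)‖ ∧
    ¬ ∃ ξ : Ideal (𝓞 k) →* ℂ, ξ ∈ Chs k (n ^ 2) ((c.N : ℝ) ^ 2) 0 ∧ Ind ξ χ n ∧
      ‖Smw (wt p c.y c.N) c.y c.N i (lam χ) - Smw (wk p.r c.y c.N) c.y c.N i (lam ξ)‖ ≤ V

include hLam hCard hQF2 hK hy hW h1 h2 hV in
theorem row (hTyp : S_Typ) (hBCN : S_BCN) (hC1 : S_Cls1) (hC2 : S_Cls2) {a : ℕ} (ha : 2 * a ≤ s)
    {L : Tset p c → Type} [∀ t, Field (L t)] [∀ t, NumberField (L t)] [∀ t, Algebra k (L t)]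
    (Φ : ∀ t, Fb p t.1 k (L t))
    (hT : ∀ t ∈ Tset p c, p.Adm t ∧ 1 ≤ p.Mb t ∧ (p.Mb t : ℝ) ≤ c.y ^ p.cE) {G H : ℝ} (hH : 0 ≤ H)
    (hG : ∀ M : ℕ, 1 ≤ M → (M : ℝ) ≤ c.y ^ (2 * p.cE) → (((Tset p c).filter fun t =>
      IsCoprime t.1 t.2 ∧ ¬ Wit (p.toTab.Pt t) M).card : ℝ) ≤ G)
    (hD : ∀ β : ℕ → ℂ, (∀ q, q.Prime → ‖β q‖ ≤ 4) →
      (((Tset p c).filter fun t => V / 2 ≤ ‖dv p c i β t‖).card : ℝ) ≤ H)
    {P : Tset p c → Prop} [Fintype {t // P t}] (hP : ∀ t, P t → IsCoprime t.1.1 t.1.2)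
    (n : {t // P t} → ℕ)
    (χ : ∀ j : {t // P t}, Ideal (𝓞 (L j.1)) →* ℂ) (hB : ∀ j, Bq k p c j.1.1 i a V (n j) (χ j))
    (j : {t // P t}) :
    ((univ.filter fun j' : {t // P t} => ¬ Wit (p.toTab.Pt j'.1.1) (p.Mb j.1.1) ∨
      Adj k (χ j) (χ j') (n j * n j')).card : ℝ) ≤ G + H := by
  have nf := fun j : {t // P t} => (hQF2 R p k K _ _ (Φ j.1) hK (hT _ j.1.2).1).1
  have n0 : ∀ j, n j ≠ 0 := fun j => Nat.one_le_iff_ne_zero.1 (hB j).1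
  have n2 : ∀ j, 2 ≤ n j := fun j => Nat.le_of_dvd (hB j).1
    ((Int.natCast_dvd_natCast.1 (dvd_of_mul_right_dvd (nf j).dvd)).trans (hB j).2.1)
  have hM : ∀ j : {t // P t}, (p.Mb j.1.1 : ℝ) ≤ c.y ^ p.cE := fun j => (hT _ j.1.2).2.2
  have hM1 := hG _ (hT _ j.1.2).2.1 ((hM j).trans (pow_le_pow_right₀ hy.le (by omega)))
  have key : ∀ S : Finset (ℤ × ℤ), (∀ j' : {t // P t}, ¬ Wit (p.toTab.Pt j'.1.1) (p.Mb j.1.1) ∨
      Adj k (χ j) (χ j') (n j * n j') → j'.1.1 ∈ S) →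
      ((univ.filter fun j' : {t // P t} => ¬ Wit (p.toTab.Pt j'.1.1) (p.Mb j.1.1) ∨
        Adj k (χ j) (χ j') (n j * n j')).card : ℝ) ≤ S.card := fun S h =>
    Nat.cast_le.2 (card_le_card_of_injOn (fun j => j.1.1) (fun j hj => h j (mem_filter.1 hj).2)
      fun _ _ _ _ e => Subtype.ext (Subtype.ext e))
  obtain ⟨κ, τ, -, -, hχ⟩ := (hB j).2.2.2.1
  by_cases hI : ∃ (l : ℤ) (ξ : Ideal (𝓞 k) →* ℂ), IsK (n j ^ 2) l ξ ∧ Ind ξ (χ j) (n j)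
  · obtain ⟨l, ξ, hξ, hI⟩ := hI
    have b0 : ∀ q, q.Prime → ‖lam ξ q‖ ≤ 4 := fun q hq => by
      have := lam_le hLam (norm_char_le hξ.toIsChar) hq
      rw [K.deg] at this
      linarith
    refine le_trans ?_ (add_le_add hM1 (hD _ b0))
    rw [← Nat.cast_add]
    refine (key _ fun j' hj' => ?_).trans (Nat.cast_le.2 (card_union_le _ _))
    by_cases hw : Wit (p.toTab.Pt j'.1.1) (p.Mb j.1.1)
    · refine mem_union_right _ (mem_filter.2 ⟨j'.1.2, ?_⟩)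
      obtain ⟨κ', τ', -, -, hχ'⟩ := (hB j').2.2.2.1
      obtain ⟨l', ξ', a1, a2, a3⟩ := hC2 k K _ _ _ _ _ _ _ _ _ _ _ _ l ξ κ' τ' _ _ (nf j) (nf j')
        (hB j).2.1 (n0 j) (hB j').2.1 (n0 j') (mul_ne_zero (n0 j) (n0 j')) hξ hI hχ'
        (hj'.resolve_left (not_not.2 hw)) hw
      refine devB hLam hCard hQF2 hK hy hW h1 h2 hV (Φ j'.1) (hT _ j'.1.2).1
        (mul_ne_zero (n0 j) (n0 j')) ?_ (dvd_mul_left _ _) (hB j').2.1 (norm_char_le hχ'.toIsChar)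
        (norm_char_le hξ.toIsChar) (norm_char_le a1.toIsChar) a2 a3 (not_le.1 fun h =>
          (hB j').2.2.2.2.2 ⟨ξ', chs_ind hTyp hBCN K (n2 j') (hB j').2.2.2.1 a1 a2, a2, h⟩)
      rw [Nat.cast_mul]
      refine (mul_le_mul (hB j).2.2.1 (hB j').2.2.1 (Nat.cast_nonneg _) (by positivity)).trans ?_
      rw [← pow_add]
      exact pow_le_pow_right₀ hy.le (by omega)
    · exact mem_union_left _ (mem_filter.2 ⟨j'.1.2, hP _ j'.2, hw⟩)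
  refine le_trans ?_ (le_add_of_nonneg_right hH)
  by_cases h : ∃ j₁ : {t // P t}, Wit (p.toTab.Pt j₁.1.1) (p.Mb j.1.1) ∧
      Adj k (χ j) (χ j₁) (n j * n j₁)
  · obtain ⟨j₁, w₁, a₁⟩ := h
    refine (key _ fun j' hj' => ?_).trans
      (hG (p.Mb j.1.1 * p.Mb j₁.1.1) (Nat.mul_pos (hT _ j.1.2).2.1 (hT _ j₁.1.2).2.1) ?_)
    · refine mem_filter.2 ⟨j'.1.2, hP _ j'.2, fun hw => ?_⟩
      exact hI (hC1 k K _ _ _ _ _ _ _ _ _ _ _ _ _ _ _ _ κ τ _ _ _ (nf j) (nf j₁) (nf j') (hB j).2.1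
        (n0 j) (mul_ne_zero (n0 j) (n0 j₁)) (mul_ne_zero (n0 j) (n0 j')) hχ a₁
        (hj'.resolve_left (not_not.2 (wit_left hw))) w₁ hw)
    · rw [Nat.cast_mul, two_mul, pow_add]
      exact mul_le_mul (hM j) (hM j₁) (Nat.cast_nonneg _) (by positivity)
  · refine (key _ fun j' hj' => ?_).trans hM1
    exact mem_filter.2 ⟨j'.1.2, hP _ j'.2, fun hw => h ⟨j', hw, hj'.resolve_left (not_not.2 hw)⟩⟩

end

theorem wT_bd (hTEq : S_TEq) (h1 : c.τ0 ≤ -2) (h2 : 0 < c.η) (h3 : c.η ≤ 1) (hB : 0 < c.B)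
    (h4 : 6 * ((Mf p c.z * p.r ^ p.n0 : ℕ) : ℝ) ≤ c.η * c.B) (hQ : 0 < Mf p c.z * p.r ^ p.n0) :
    ∃ w : ℝ, 0 < w ∧ w ≤ 2 * ((Mf p c.z * p.r ^ p.n0 : ℕ) : ℝ) ^ 2 / (c.η ^ 2 * c.B ^ 2) ∧
      ∀ t ∈ Tset p c, w / 2 ≤ wT p c t ∧ wT p c t ≤ w := by
  have h := (hTEq R p c 1 ∅ c.τ0 c.τ0 c.B c.B h1 h2 h3 le_rfl (Nat.coprime_one_left _)
    (by rw [mul_one]; exact h4) le_rfl le_rfl (by linarith) le_rfl le_rfl (by nlinarith)).1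
  have hQ' : (0 : ℝ) < ((Mf p c.z * p.r ^ p.n0 : ℕ) : ℝ) := Nat.cast_pos.2 hQ
  set Q : ℝ := ((Mf p c.z * p.r ^ p.n0 : ℕ) : ℝ)
  have hpos : 0 < c.η ^ 2 * c.B / (2 * Q ^ 2) := by positivity
  have hZ := hpos.trans_le h
  refine ⟨c.B⁻¹ / ∑ t' ∈ Tset p c, ((t'.2 : ℝ))⁻¹, by positivity,
    (div_le_div_of_nonneg_left (by positivity) hpos h).trans_eq (by field_simp), fun t ht => ?_⟩
  obtain ⟨-, a1, a2, -⟩ := mem_filter.1 ht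
  refine ⟨?_, div_le_div_of_nonneg_right (inv_anti₀ hB a1) hZ.le⟩
  rw [div_right_comm]
  refine div_le_div_of_nonneg_right ?_ hZ.le
  rw [div_eq_mul_inv, ← mul_inv]
  exact inv_anti₀ (hB.trans_le a1) (by nlinarith)

theorem final {y B N Q η ε w E : ℝ} (hy : 1 ≤ y) (hB : y ^ 4 ≤ B) (hη : 0 < η) (hε : 0 < ε)
    (hN0 : 0 ≤ N) (hw0 : 0 < w) (hw : w ≤ 2 * Q ^ 2 / (η ^ 2 * B ^ 2)) (hE : E = y ^ (-(3 / 4) : ℝ))
    (hN : (48 + 2 * Q ^ 2 / η ^ 2) / ε * N ≤ y ^ (1 / 4 : ℝ)) :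
    N * (16 * E + (B ^ (3 / 2 : ℝ) * y ^ (1 / 4 : ℝ) + 32 * E / w) * y ^ (1 / 2 : ℝ) * w) ≤ ε := by
  have hy0 : 0 < y := by linarith
  have hB1 : 1 ≤ B := (one_le_pow₀ hy).trans hB
  obtain ⟨u, hu⟩ : ∃ u, u = y ^ (1 / 4 : ℝ) := ⟨_, rfl⟩
  have u1 : 1 ≤ u := hu ▸ Real.one_le_rpow hy (by norm_num)
  have u2 : y ^ (1 / 2 : ℝ) = u ^ 2 := by
    rw [hu, ← Real.rpow_natCast, ← Real.rpow_mul hy0.le]; norm_num
  have u3 : E = (u ^ 3)⁻¹ := by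
    rw [hE, hu, ← Real.rpow_natCast, ← Real.rpow_mul hy0.le, Real.rpow_neg hy0.le]; norm_num
  have u4 : y = u ^ 4 := by
    rw [hu, ← Real.rpow_natCast, ← Real.rpow_mul hy0.le]; norm_num
  obtain ⟨b, hb⟩ : ∃ b, b = √B := ⟨_, rfl⟩
  have b1 : B ^ (3 / 2 : ℝ) = B * b := by
    rw [hb, Real.sqrt_eq_rpow, show (3 / 2 : ℝ) = 1 + 1 / 2 by norm_num,
      Real.rpow_add (by linarith), Real.rpow_one]
  have b2 : u ^ 4 ≤ b := by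
    rw [hb, ← u4]
    exact Real.le_sqrt_of_sq_le ((pow_le_pow_right₀ hy (by norm_num)).trans hB)
  have b3 : B = b * b := hb ▸ (Real.mul_self_sqrt (by linarith)).symm
  have b0 : 0 < b := lt_of_lt_of_le (by positivity) b2
  rw [← hu] at hN
  rw [u2, u3, b1, ← hu]
  have a1 : 16 * (u ^ 3)⁻¹ ≤ 16 * u⁻¹ := by
    have := inv_anti₀ (by positivity) (le_self_pow₀ u1 three_ne_zero)
    linarith
  have a2 : B * b * u * u ^ 2 * w ≤ 2 * Q ^ 2 / η ^ 2 * u⁻¹ := by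
    calc B * b * u * u ^ 2 * w ≤ B * b * u * u ^ 2 * (2 * Q ^ 2 / (η ^ 2 * B ^ 2)) := by gcongr
      _ = 2 * Q ^ 2 / η ^ 2 * u⁻¹ * (u ^ 4 / b) := by rw [b3]; field_simp
      _ ≤ _ := mul_le_of_le_one_right (by positivity) ((div_le_one b0).2 b2)
  have a3 : 32 * (u ^ 3)⁻¹ / w * u ^ 2 * w = 32 * u⁻¹ := by field_simp
  calc _ ≤ N * ((48 + 2 * Q ^ 2 / η ^ 2) * u⁻¹) := by
        refine mul_le_mul_of_nonneg_left ?_ hN0
        rw [add_mul, add_mul, a3]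
        linarith
    _ = ε * ((48 + 2 * Q ^ 2 / η ^ 2) / ε * N * u⁻¹) := by field_simp
    _ ≤ ε * (u * u⁻¹) := by gcongr
    _ = ε := by field_simp

end PBad

theorem p_bad (hLam : VE.S_Lam) (hCard : S_Card) (hTh : S_ThetaK) (hWt : S_Wt) (hTEq : S_TEq) (hFlat : S_Flat) (hQF2 : S_QF2) (hTyp : S_Typ) (hBCN : S_BCN) (hC1 : S_Cls1) (hC2 : S_Cls2) (hBom : S_Bom) (hMul : S_Mul) (hDev : S_Dev) : S_Bad := by
  intro R _ _ p k _ _ _ K a hK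
  obtain ⟨δ, hδ, hδ1, hB⟩ := hBom k K p.e (a + p.cE + 2)
  refine ⟨δ, hδ, fun F ε hF hε => ?_⟩
  subst hF
  obtain ⟨A, hA⟩ : ∃ A, A = (4 * F.p.e + 2) * F.A := ⟨_, rfl⟩
  obtain ⟨Q, hQ⟩ : ∃ Q : ℝ, Q = ((Mf F.p F.z * F.p.r ^ F.p.n0 : ℕ) : ℝ) := ⟨_, rfl⟩
  obtain ⟨D, hD⟩ : ∃ D : ℝ, D = 2 ^ (2 * F.p.e) + 4 * F.p.e + 8 := ⟨_, rfl⟩
  have hQ0 : 0 < Mf F.p F.z * F.p.r ^ F.p.n0 := Nat.mul_pos (Nat.mul_pos
    (prod_pos fun l hl => (mem_filter.1 hl).2.1.pos) (pow_pos F.p.he.pos _)) (pow_pos F.p.hr.pos _)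
  have hη := F.ηpos
  obtain ⟨y₁, h₁⟩ := hB (A + 1)
  obtain ⟨y₂, h₂⟩ := hWt R F.p (A + 1)
  obtain ⟨y₃, h₃⟩ := hTh F.p.r F.p.hr (A + 1)
  obtain ⟨C, -, h₄⟩ := (hFlat R F.p).2
  obtain ⟨y₄, h₄⟩ := h₄ F rfl
  obtain ⟨y₅, h₅⟩ := hMul R F (2 * F.p.cE)
  obtain ⟨y₆, h₆⟩ := hDev R F
  obtain ⟨y₇, h₇⟩ := eventually_atTop.1 ((ev_log_pow_le_self 1 (A + 1)).and
    ((ev_log_pow_le (32 * (2 * a + F.p.cE : ℕ) * D) (A + 1 + 1) one_half_pos).and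
      (ev_log_pow_le ((48 + 2 * Q ^ 2 / F.η ^ 2) / ε) (A + 1) (show (0 : ℝ) < 1 / 4 by norm_num))))
  refine ⟨max (max (max y₁ y₂) (max y₃ y₄)) (max (max y₅ y₆) (max y₇ (max (Real.exp 2)
    (6 * Q / F.η)))), fun c hc hIn L _ _ _ Φ => ?_⟩
  simp only [max_le_iff] at hc
  obtain ⟨⟨⟨c1, c2⟩, c3, c4⟩, ⟨c5, c6⟩, c7, c8, c9⟩ := hc
  have hy : 1 < c.y := (Real.one_lt_exp_iff.2 two_pos).trans_le c8
  have hy0 : 0 < c.y := by linarith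
  have hlog : 2 ≤ Real.log c.y := (Real.le_log_iff_exp_le hy0).2 c8
  have hN1 : 1 ≤ c.N := by
    have : (1 : ℝ) ≤ c.N := (one_le_pow₀ (by linarith)).trans hIn.N_ge
    exact_mod_cast this
  have hN2 : (c.N : ℝ) ≤ Real.log c.y ^ (A + 1) := by
    have : 0 ≤ Real.log c.y ^ A := by positivity
    have h := hIn.N_le
    rw [← hA] at h
    rw [pow_succ]
    nlinarith
  obtain ⟨d1, d2, d3⟩ := h₇ c.y c7
  have hyB : c.y ≤ c.B := (le_self_pow₀ hy.le (by norm_num)).trans hIn.B_ge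
  have hB0 : 0 < c.B := by linarith
  obtain ⟨w, w0, w1, w2⟩ := PBad.wT_bd (p := F.p) (c := c) hTEq (hIn.τ0 ▸ F.p.τle) (hIn.η ▸ hη)
    (hIn.η ▸ F.ηle) hB0 (by
      rw [hIn.z, hIn.η, ← hQ]
      have := (div_le_iff₀ hη).1 c9
      nlinarith) (hIn.z ▸ hQ0)
  rw [hIn.z, hIn.η, ← hQ] at w1
  have w3 : ∀ t ∈ Tset F.p c, 0 ≤ wT F.p c t := fun t ht => by linarith [(w2 t ht).1]
  obtain ⟨V, hV⟩ : ∃ V, V = c.y ^ (-δ) := ⟨_, rfl⟩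
  obtain ⟨E, hE⟩ : ∃ E, E = c.y ^ (-(3 / 4) : ℝ) := ⟨_, rfl⟩
  have V0 : 0 < V := hV ▸ Real.rpow_pos_of_pos hy0 _
  have E0 : 0 < E := hE ▸ Real.rpow_pos_of_pos hy0 _
  have hW : 0 ≤ 8 * c.N * Real.log c.y / c.y := by positivity
  have hVs : 4 * ((2 * a + F.p.cE : ℕ) * (8 * c.N * Real.log c.y / c.y *
      (2 ^ (2 * F.p.e) + 4 * F.p.e + 8))) ≤ V := by
    have D0 : 0 ≤ D := by rw [hD]; positivity
    calc _ = 32 * (2 * a + F.p.cE : ℕ) * D * (c.N * Real.log c.y) / c.y := by rw [hD]; ring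
      _ ≤ 32 * (2 * a + F.p.cE : ℕ) * D * Real.log c.y ^ (A + 1 + 1) / c.y := by
        rw [pow_succ _ (A + 1)]; gcongr
      _ ≤ c.y ^ (1 / 2 : ℝ) / c.y := by gcongr
      _ = c.y ^ (1 / 2 - 1 : ℝ) := (Real.rpow_sub_one hy0.ne' _).symm
      _ ≤ V := hV ▸ Real.rpow_le_rpow_of_exponent_le hy.le (by linarith)
  have hT : ∀ t ∈ Tset F.p c, F.p.Adm t ∧ 1 ≤ F.p.Mb t ∧ (F.p.Mb t : ℝ) ≤ c.y ^ F.p.cE :=
    fun t ht => ⟨((h₄ c c4 hIn).2.1 t ht).1, ((h₄ c c4 hIn).2.1 t ht).2.2.2.2.2.2⟩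
  have hP : ∀ i < c.N, ∀ q ∈ strat c.y c.N i, q ∈ Pset c.y c.N := fun i hi q hq =>
    mem_biUnion.2 ⟨i, mem_range.2 hi, hq⟩
  have g1 : ∀ i < c.N, ∀ q ∈ strat c.y c.N i, q.Prime ∧ c.y ≤ q ∧ 0 ≤ wt F.p c.y c.N q ∧
      wt F.p c.y c.N q ≤ 8 * c.N * Real.log c.y / c.y := fun i hi q hq => by
    obtain ⟨a1, a2, -, -, -, a3, -, a4, -⟩ := (h₂ c.y c2 c.N hN1 hN2).2.2 q (hP i hi q hq)
    exact ⟨a1, a2, a3, a4⟩
  have g2 : ∀ i < c.N, ∀ q ∈ strat c.y c.N i, q.Prime ∧ c.y ≤ q ∧ 0 ≤ wk F.p.r c.y c.N q ∧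
      wk F.p.r c.y c.N q ≤ 8 * c.N * Real.log c.y / c.y := fun i hi q hq => by
    obtain ⟨a1, a2⟩ := (h₃ c.y c3 c.N hN1 hN2).2.2 q (hP i hi q hq)
    refine ⟨(g1 i hi q hq).1, (g1 i hi q hq).2.1, a1, a2.trans ?_⟩
    gcongr
    norm_num
  have g3 : ∀ i < c.N, ∀ β : ℕ → ℂ, (∀ q, q.Prime → ‖β q‖ ≤ 4) →
      ∑ t ∈ Tset F.p c with V / 2 ≤ ‖PBad.dv F.p c i β t‖, wT F.p c t ≤ 16 * E :=
    fun i hi β hβ => PBad.cheb V0 w3 (fun β hβ => (h₆ c c6 hIn i hi β hβ).trans (by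
      rw [hE, hV, ← Real.rpow_natCast, ← Real.rpow_mul hy0.le, ← Real.rpow_add hy0]
      exact Real.rpow_le_rpow_of_exponent_le hy.le (by push_cast; linarith))) hβ
  obtain ⟨G, hG⟩ : ∃ G, G = c.B ^ (3 / 2 : ℝ) * c.y ^ (1 / 4 : ℝ) := ⟨_, rfl⟩
  have G1 : 1 ≤ G := hG ▸ one_le_mul_of_one_le_of_one_le
    (Real.one_le_rpow (by linarith) (by norm_num)) (Real.one_le_rpow hy.le (by norm_num))
  have H0 : 0 ≤ 32 * E / w := by positivity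
  let P : ℕ → Tset F.p c → Prop := fun i t => IsCoprime t.1.1 t.1.2 ∧
    ∃ (n : ℕ) (χ : Ideal (𝓞 (L t)) →* ℂ), PBad.Bq k F.p c t.1 i a V n χ
  have g4 : ∀ i < c.N, ((univ.filter (P i)).card : ℝ) ≤ (G + 32 * E / w) * c.y ^ (1 / 2 : ℝ) := by
    intro i hi
    choose n χ hh using fun j : {t // P i t} => j.2.2
    have h := h₁ c.y c1 c.N hN1 hN2 (wt F.p c.y c.N) {t // P i t} (fun j => L j.1)
      (fun j => F.p.toTab.Pt j.1.1) (fun j => F.p.Mb j.1.1) n (fun j => (Φ j.1).η F.p.toTab.i1) χ i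
      (G + 32 * E / w) hi (by linarith) (fun q hq => (g1 i hi q hq).2.2) (fun j => ?_)
      (PBad.row hLam hCard hQF2 hK hy hW (g1 i hi) (g2 i hi) hVs hTyp hBCN hC1 hC2
        (Nat.le_add_right _ _) Φ hT H0 (fun M a1 a2 => (h₅ c c5 hIn M a1 a2).trans hG.ge) (fun β hβ => ?_) (fun t h => h.1) n χ hh)
    · rwa [Fintype.card_subtype] at h
    · obtain ⟨a1, a2, a3, ⟨κ, τ, a4, a5, a6⟩, a7, -⟩ := hh j
      have e1 : c.y ^ a ≤ c.y ^ (a + F.p.cE + 2) := pow_le_pow_right₀ hy.le (by omega)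
      refine ⟨(hQF2 R F.p k K _ _ (Φ j.1) hK (hT _ j.1.2).1).1,
        (((h₄ c c4 hIn).2.2.2 k K _ _ (Φ j.1) hK j.1.2).2.1 _).2.trans
          (pow_le_pow_right₀ hy.le (by omega)), a1, a2, a3.trans e1,
        ⟨κ, τ, fun φ => (a4 φ).trans_le ?_, fun φ => (a5 φ).trans e1, a6⟩, hV ▸ a7.le⟩
      exact (pow_le_pow_left₀ (Nat.cast_nonneg _) (by linarith) 2).trans
        (pow_le_pow_right₀ hy.le (by omega))
    · have a1 := (card_nsmul_le_sum _ _ _ fun t ht => (w2 t (mem_filter.1 ht).1).1).trans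
        (g3 i hi β hβ)
      rw [nsmul_eq_mul] at a1
      rw [le_div_iff₀ w0]
      linarith
  refine le_trans ?_ (PBad.final hy.le hIn.B_ge hη hε (Nat.cast_nonneg c.N) w0 w1 hE
    ((mul_le_mul_of_nonneg_left hN2 (by positivity)).trans d3))
  rw [← hG]
  have g5 : ∀ i ∈ range c.N, ∑ t : Tset F.p c,
      ((if V / 2 ≤ ‖PBad.dv F.p c i (fun _ => 2) t.1‖ then wT F.p c t.1 else 0) +
        if P i t then w else 0) ≤ 16 * E + (G + 32 * E / w) * c.y ^ (1 / 2 : ℝ) * w := by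
    intro i hi
    rw [sum_add_distrib, sum_coe_sort (Tset F.p c)
      fun t => if V / 2 ≤ ‖PBad.dv F.p c i (fun _ => 2) t‖ then wT F.p c t else 0, ← sum_filter,
      ← sum_filter, sum_const, nsmul_eq_mul]
    exact add_le_add (g3 i (mem_range.1 hi) _ fun _ _ => by norm_num)
      (mul_le_mul_of_nonneg_right (g4 i (mem_range.1 hi)) w0.le)
  have g6 := sum_le_card_nsmul _ _ _ g5
  rw [card_range, nsmul_eq_mul, sum_comm] at g6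
  refine le_trans ?_ g6
  rw [sum_filter]
  refine sum_le_sum fun t _ => ?_
  have n1 : ∀ i, 0 ≤ if V / 2 ≤ ‖PBad.dv F.p c i (fun _ => 2) t.1‖ then wT F.p c t.1 else 0 :=
    fun i => ite_nonneg (w3 _ t.2) le_rfl
  have n2 : ∀ i, 0 ≤ if P i t then w else 0 := fun i => ite_nonneg w0.le le_rfl
  split_ifs with h
  · obtain ⟨h0, i, hi, h⟩ := h
    refine le_trans ?_ (single_le_sum (fun i _ => add_nonneg (n1 i) (n2 i)) (mem_range.2 hi))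
    rw [← hV] at h
    rcases h with h | h
    · rw [if_pos (PBad.devA hLam hCard hQF2 hK hy hW (g1 i hi) hVs (Φ t) (hT _ t.2).1
        ((h₃ c.y c3 c.N hN1 hN2).2.1 i hi) (hT _ t.2).2.1
        ((hT _ t.2).2.2.trans (pow_le_pow_right₀ hy.le (by omega))) h)]
      exact le_add_of_nonneg_right (n2 i)
    · rw [if_pos (show P i t from ⟨h0, h⟩)]
      linarith [n1 i, (w2 _ t.2).2]
  · exact sum_nonneg fun i _ => add_nonneg (n1 i) (n2 i)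

end Pool.Agent.P.MP_b8021b_nt.VC
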