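import Pool.Agent.P.MP_b8021b_nt.VC.StT
import Pool.Agent.P.MP_b8021b_nt.VC.StH
import Pool.Agent.P.MP_b8021b_nt.VC.BasicN
import Pool.Agent.P.MP_b8021b_nt.VE.PLsh

/-! The large sieve for a family of fields over the base field. -/

namespace Pool.Agent.P.MP_b8021b_nt.VC

open Polynomial NumberField Finset Pool.Agent.P.MP_b8021b_nt.VE Pool.Agent.P.MP_b8021b_nt.VE.Lsh
open scoped Classical ComplexConjugate

namespace Bom

variable {P : Finset ℕ} {w : ℕ → ℝ} {ϑ : ℝ} {h : ℕ}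

theorem split {D : ℝ} (hD : 0 ≤ D) (h0 : ∀ q ∈ P, 0 ≤ w q ∧ w q ≤ ϑ) (h1 : ∑ q ∈ P, w q = 1)
    (hϑ : 0 ≤ ϑ) (hP : ∀ q ∈ P, q.Prime) {f : ℕ → ℂ} (f1 : f 1 = 1)
    (hm : ∀ m m', 1 ≤ m → 1 ≤ m' → m.Coprime m' → f (m * m') = f m * f m')
    (hf : ∀ q ∈ P, ‖f q‖ ≤ D) : ‖∑ q ∈ P, w q * f q‖ ^ h ≤
      ‖∑ τ ∈ Ti P h, ((∏ l, w (τ l) : ℝ) : ℂ) * f (∏ l, τ l)‖ + D ^ h * (h ^ 2 * ϑ) := by
  rw [← norm_pow, Finset.sum_pow', ← sum_filter_add_sum_filter_not _ Function.Injective]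
  refine (norm_add_le _ _).trans (add_le_add (le_of_eq (congrArg _ (sum_congr rfl fun τ hτ => ?_)))
    ((norm_sum_le _ _).trans ?_))
  · obtain ⟨a, b⟩ := mem_filter.1 hτ
    rw [prod_mul_distrib, mul_prod f1 hm _ τ (fun i => hP _ (Fintype.mem_piFinset.1 a i)) b,
      Complex.ofReal_prod]
  · refine le_trans ?_ (mul_le_mul_of_nonneg_left (noninj h0 h1 hϑ) (by positivity))
    rw [mul_sum]
    refine sum_le_sum fun τ hτ => ?_
    have a := Fintype.mem_piFinset.1 (mem_filter.1 hτ).1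
    rw [norm_prod]
    calc _ ≤ ∏ l, D * w (τ l) := prod_le_prod (fun _ _ => norm_nonneg _) fun l _ => by
          rw [norm_mul, Complex.norm_real, Real.norm_of_nonneg (h0 _ (a l)).1, mul_comm]
          exact mul_le_mul_of_nonneg_right (hf _ (a l)) (h0 _ (a l)).1
      _ = _ := by rw [prod_mul_distrib]; simp

theorem gram {J ι : Type} [Fintype J] (s : Finset ℕ) (t : ℕ → ℝ) (S : ℕ → Finset ι)
    (a : J → ι → ℂ) (c : J → ℂ) (hc : ∀ j, ‖c j‖ = 1) :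
    ∑ m ∈ s, t m * ∑ x ∈ S m, ‖∑ j, c j * a j x‖ ^ 2 ≤
      ∑ j, ∑ j', ‖∑ m ∈ s, (t m : ℂ) * ∑ x ∈ S m, a j x * conj (a j' x)‖ := by
  have e1 : ∀ x, ((‖∑ j, c j * a j x‖ ^ 2 : ℝ) : ℂ) =
      ∑ j, ∑ j', c j * conj (c j') * (a j x * conj (a j' x)) := fun x => by
    push_cast
    simp only [← Complex.mul_conj', map_sum, map_mul, sum_mul_sum]
    exact sum_congr rfl fun j _ => sum_congr rfl fun j' _ => by ring
  have e : ((∑ m ∈ s, t m * ∑ x ∈ S m, ‖∑ j, c j * a j x‖ ^ 2 : ℝ) : ℂ) =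
      ∑ j, ∑ j', c j * conj (c j') * ∑ m ∈ s, (t m : ℂ) * ∑ x ∈ S m, a j x * conj (a j' x) := by
    simp only [Complex.ofReal_sum, Complex.ofReal_mul, e1]
    calc _ = ∑ m ∈ s, ∑ j, ∑ j', c j * conj (c j') *
          ((t m : ℂ) * ∑ x ∈ S m, a j x * conj (a j' x)) := sum_congr rfl fun m _ => by
          rw [sum_comm, mul_sum]
          refine sum_congr rfl fun j _ => ?_
          rw [sum_comm, mul_sum]
          refine sum_congr rfl fun j' _ => ?_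
          rw [← mul_sum]; ring
      _ = _ := by
          rw [sum_comm]
          refine sum_congr rfl fun j _ => ?_
          rw [sum_comm]
          exact sum_congr rfl fun j' _ => (mul_sum _ _ _).symm
  refine (le_abs_self _).trans ?_
  rw [← Real.norm_eq_abs, ← Complex.norm_real, e]
  refine (norm_sum_le _ _).trans (sum_le_sum fun j _ => (norm_sum_le _ _).trans
    (sum_le_sum fun j' _ => ?_))
  rw [norm_mul, norm_mul, Complex.norm_conj, hc, hc, one_mul, one_mul]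

theorem core {J ι : Type} [Fintype J] {y s R E : ℝ} (hy : 1 ≤ y) (hh : 1 ≤ h) (hs : 0 ≤ s)
    (hE0 : 0 ≤ E) (h0 : ∀ q ∈ P, 0 ≤ w q ∧ w q ≤ ϑ) (h1 : ∑ q ∈ P, w q = 1) (hϑ : 0 ≤ ϑ)
    (hP : ∀ q ∈ P, q.Prime ∧ y ≤ q ∧ (q : ℝ) < 3 * y) (S : ℕ → Finset ι) (a : J → ι → ℂ)
    (hE : ∀ τ ∈ Ti P h, ((S (∏ l, τ l)).card : ℝ) ≤ E)
    (hT : ∀ j, s ≤ ‖∑ τ ∈ Ti P h, ((∏ l, w (τ l) : ℝ) : ℂ) * ∑ x ∈ S (∏ l, τ l), a j x‖)
    (hR : ∀ r < 2 * h, ∀ j, ∑ j', ‖∑ m ∈ Wn (2 ^ r * y ^ h),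
      (tent (m / (2 ^ r * y ^ h) - 3 / 2) : ℂ) * ∑ x ∈ S m, a j x * conj (a j' x)‖ ≤ R) :
    (Fintype.card J * s) ^ 2 ≤ ϑ ^ h * (E * (h ^ h * (2 * h * (2 * (Fintype.card J * R))))) := by
  choose c hc e using fun j => Complex.exists_norm_eq_mul_self
    (∑ τ ∈ Ti P h, ((∏ l, w (τ l) : ℝ) : ℂ) * ∑ x ∈ S (∏ l, τ l), a j x)
  have hW : ∀ τ ∈ Ti P h, 0 ≤ ∏ l, w (τ l) := fun τ hτ => W_nonneg h0 (mem_filter.1 hτ).1
  set f : J → ℕ → ℂ := fun j m => ∑ x ∈ S m, a j x with hf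
  have a1 : Fintype.card J * s ≤
      ∑ τ ∈ Ti P h, (∏ l, w (τ l)) * ‖∑ j, c j * f j (∏ l, τ l)‖ := by
    calc _ = ∑ _j : J, s := by simp
      _ ≤ ∑ j, ‖∑ τ ∈ Ti P h, ((∏ l, w (τ l) : ℝ) : ℂ) * f j (∏ l, τ l)‖ :=
          sum_le_sum fun j _ => hT j
      _ ≤ ‖∑ τ ∈ Ti P h, ((∏ l, w (τ l) : ℝ) : ℂ) * ∑ j, c j * f j (∏ l, τ l)‖ := by
          refine (le_abs_self _).trans (le_of_eq ?_)
          rw [← Real.norm_eq_abs, ← Complex.norm_real, Complex.ofReal_sum]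
          congr 1
          calc _ = ∑ j, c j * ∑ τ ∈ Ti P h, ((∏ l, w (τ l) : ℝ) : ℂ) * f j (∏ l, τ l) :=
                sum_congr rfl fun j _ => e j
            _ = _ := by
                generalize f = F
                simp only [mul_sum]
                rw [sum_comm]
                exact sum_congr rfl fun τ _ => sum_congr rfl fun j _ => by ring
      _ ≤ _ := (norm_sum_le _ _).trans (sum_le_sum fun τ hτ => by
          rw [norm_mul, Complex.norm_real, Real.norm_of_nonneg (hW τ hτ)])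
  have a2 : ∑ τ ∈ Ti P h, ∏ l, w (τ l) ≤ 1 := by
    rw [← tot (h := h) h1]
    exact sum_le_sum_of_subset_of_nonneg (filter_subset _ _) fun τ hτ _ => W_nonneg h0 hτ
  have a3 := sum_sq_le_sum_mul_sum_of_sq_le_mul (Ti P h)
    (r := fun τ => (∏ l, w (τ l)) * ‖∑ j, c j * f j (∏ l, τ l)‖) (f := fun τ => ∏ l, w (τ l))
    (g := fun τ => (∏ l, w (τ l)) * ‖∑ j, c j * f j (∏ l, τ l)‖ ^ 2) hW
    (fun τ hτ => mul_nonneg (hW τ hτ) (sq_nonneg _)) fun τ _ => le_of_eq (by ring)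
  set F : ℕ → ℝ := fun m => ∑ x ∈ S m, ‖∑ j, c j * a j x‖ ^ 2 with hF
  have F0 : ∀ m, 0 ≤ F m := fun m => sum_nonneg fun _ _ => sq_nonneg _
  have cs : ∀ m, ‖∑ j, c j * f j m‖ ^ 2 ≤ (S m).card * F m := fun m => by
    have : ∑ j, c j * f j m = ∑ x ∈ S m, ∑ j, c j * a j x := by
      rw [sum_comm]
      exact sum_congr rfl fun j _ => mul_sum _ _ _
    rw [this]
    exact (pow_le_pow_left₀ (norm_nonneg _) (norm_sum_le _ _) 2).trans sq_sum_le_card_mul_sum_sq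
  have a4 : ∑ τ ∈ Ti P h, (∏ l, w (τ l)) * ‖∑ j, c j * f j (∏ l, τ l)‖ ^ 2 ≤
      ϑ ^ h * (E * ∑ τ ∈ Ti P h, F (∏ l, τ l)) := by
    rw [mul_sum, mul_sum]
    refine sum_le_sum fun τ hτ => mul_le_mul ?_
      ((cs _).trans (mul_le_mul_of_nonneg_right (hE τ hτ) (F0 _))) (sq_nonneg _) (by positivity)
    have a := Fintype.mem_piFinset.1 (mem_filter.1 hτ).1
    calc _ ≤ ∏ _l : Fin h, ϑ := prod_le_prod (fun l _ => (h0 _ (a l)).1) fun l _ => (h0 _ (a l)).2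
      _ = _ := by simp
  have a5 := fib (h := h) (fun q hq => (hP q hq).1) F0
  have a6 := cover hy hh hP F0
  have a7 : ∑ r ∈ range (2 * h), 2 * ∑ m ∈ Wn (2 ^ r * y ^ h),
      tent (m / (2 ^ r * y ^ h) - 3 / 2) * F m ≤ 2 * h * (2 * (Fintype.card J * R)) := by
    calc _ ≤ ∑ _r ∈ range (2 * h), 2 * (Fintype.card J * R) := sum_le_sum fun r hr => by
          refine mul_le_mul_of_nonneg_left ((gram _ _ S a c hc).trans ?_) zero_le_two
          calc _ ≤ ∑ _j : J, R := sum_le_sum fun j _ => hR r (mem_range.1 hr) j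
            _ = _ := by simp
      _ = _ := by simp
  refine (pow_le_pow_left₀ (by positivity) a1 2).trans (a3.trans ?_)
  refine (mul_le_of_le_one_left (sum_nonneg fun τ hτ => mul_nonneg (hW τ hτ) (sq_nonneg _))
    a2).trans (a4.trans (mul_le_mul_of_nonneg_left (mul_le_mul_of_nonneg_left (a5.trans
      (mul_le_mul_of_nonneg_left (a6.trans a7) (by positivity))) hE0) (by positivity)))

theorem fin4 {J g v M C : ℝ} (hJ : 0 ≤ J) (hg : 0 ≤ g) (hv : 1 ≤ v) (hC : 1 ≤ C) (hM : 0 ≤ M)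
    (h1 : 16 * C * M ≤ v) (h2 : J ^ 2 ≤ M * v ^ 2 * (J * (4 * g * C * v + J / v ^ 8))) :
    J ≤ g * v ^ 4 := by
  rcases hJ.eq_or_lt with rfl | hJ
  · positivity
  have h3 : J ≤ M * v ^ 2 * (4 * g * C * v + J / v ^ 8) := by
    refine le_of_mul_le_mul_left ?_ hJ
    nlinarith
  have h4 : M * v ^ 2 * (J / v ^ 8) ≤ J / 2 := by
    rw [← mul_div_assoc, div_le_div_iff₀ (by positivity) two_pos]
    have a : 16 * M ≤ v := by nlinarith
    have b : v ^ 3 ≤ v ^ 8 := pow_le_pow_right₀ hv (by norm_num)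
    have c : M * v ^ 2 * 2 ≤ v ^ 8 := by nlinarith [sq_nonneg v, mul_nonneg hM (sq_nonneg v)]
    nlinarith
  have h5 : M * v ^ 2 * (4 * g * C * v) ≤ g * v ^ 4 / 4 := by
    have := mul_le_mul_of_nonneg_left h1 (show 0 ≤ g * v ^ 3 by positivity)
    nlinarith
  have h6 : 0 ≤ g * v ^ 4 := by positivity
  nlinarith

theorem card_div {ι : Type} (s : Finset ι) (τ : ι → ℕ) (hp : ∀ i, (τ i).Prime) :
    (∏ i ∈ s, τ i).divisors.card ≤ 2 ^ s.card := by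
  induction s using Finset.induction_on with
  | empty => simp
  | insert a s ha ih =>
    rw [prod_insert ha, card_insert_of_notMem ha, Nat.divisors_mul, pow_succ']
    refine card_mul_le.trans (Nat.mul_le_mul ?_ ih)
    rw [Nat.Prime.divisors (hp a)]
    exact card_le_two

section

variable {k L : Type} [Field k] [NumberField k] [Algebra k ℂ] [Field L] [NumberField L]
  [Algebra k L]

omit [Algebra k ℂ] in
theorem lamk_eq (χ : Ideal (𝓞 L) → ℂ) (𝔪 : Ideal (𝓞 k)) : lamk k χ 𝔪 =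
    ∑ I ∈ (finite_absNorm (E := L) (Ideal.absNorm 𝔪)).toFinset with
      Ideal.relNorm (𝓞 k) I = 𝔪, χ I := by
  unfold lamk
  rw [← finsum_mem_coe_finset]
  refine finsum_mem_congr (Set.ext fun I => ?_) fun _ _ => rfl
  simp only [Set.mem_ofPred_eq, coe_filter, Set.Finite.mem_toFinset]
  exact ⟨fun e => ⟨by rw [← e, absNorm_rel], e⟩, fun e => e.2⟩

omit [Algebra k ℂ] in
theorem lam_eq (χ : Ideal (𝓞 L) → ℂ) (m : ℕ) :
    lam χ m = ∑ 𝔪 ∈ (finite_absNorm (E := k) m).toFinset, lamk k χ 𝔪 := by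
  rw [lam_eq_sum, ← sum_fiberwise_of_maps_to (t := (finite_absNorm (E := k) m).toFinset)
    (g := fun I => Ideal.relNorm (𝓞 k) I) fun I hI => by
      rw [Set.Finite.mem_toFinset] at hI ⊢
      exact (absNorm_rel I).trans hI]
  refine sum_congr rfl fun 𝔪 h𝔪 => ?_
  rw [Set.Finite.mem_toFinset] at h𝔪
  obtain rfl : Ideal.absNorm 𝔪 = m := h𝔪
  rw [lamk_eq]

omit [Algebra k ℂ] in
theorem lamk_le (hLam : S_Lam) (χ : Ideal (𝓞 L) → ℂ) (hχ : ∀ I, ‖χ I‖ ≤ 1) (𝔪 : Ideal (𝓞 k))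
    (h1 : 1 ≤ Ideal.absNorm 𝔪) :
    ‖lamk k χ 𝔪‖ ≤ ((Ideal.absNorm 𝔪).divisors.card : ℝ) ^ Module.finrank ℚ L := by
  rw [lamk_eq, sum_filter, ← lam_eq_sum]
  refine (hLam L).2.1 _ _ h1 fun I => ?_
  split_ifs
  · exact hχ I
  · simp

end

theorem card_le (hLam : S_Lam) (k : Type) [Field k] [NumberField k] (m : ℕ) (hm : 1 ≤ m) :
    (finite_absNorm (E := k) m).toFinset.card ≤ m.divisors.card ^ Module.finrank ℚ k := by
  rw [← Set.ncard_eq_toFinset_card _ (finite_absNorm m)]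
  exact (hLam k).1 m hm

theorem err_le {W Λ v y D M : ℝ} {h : ℕ} (h1 : 1 ≤ h) (W0 : 0 < W) (W1 : W ≤ Λ) (Λ1 : 1 ≤ Λ)
    (v1 : 1 ≤ v) (v8 : v ^ 8 = y) (D0 : 0 ≤ D)
    (hM : M = 16 * h ^ (h + 1) * 4 ^ h * 4 ^ h * D ^ h * Λ ^ (2 * h)) (e6 : 16 * M ≤ v) :
    D ^ h * (h ^ 2 * (Λ / (y * W))) ≤ 1 / (2 * v * W ^ h) := by
  have h1' : (1 : ℝ) ≤ h := by exact_mod_cast h1
  have h4 : (1 : ℝ) ≤ 4 ^ h := one_le_pow₀ (by norm_num)
  have y0 : 0 < y := by rw [← v8]; positivity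
  have M0 : 0 ≤ M := by rw [hM]; positivity
  have e2 : (h : ℝ) ^ 2 ≤ h ^ (h + 1) := pow_le_pow_right₀ h1' (by omega)
  have e3 : Λ * W ^ h ≤ W * Λ ^ (2 * h) := by
    obtain ⟨h', rfl⟩ : ∃ h', h = h' + 1 := ⟨h - 1, by omega⟩
    have u1 : W ^ h' ≤ Λ ^ h' := pow_le_pow_left₀ W0.le W1 h'
    have u2 : Λ ^ (h' + 1) ≤ Λ ^ (2 * (h' + 1)) := pow_le_pow_right₀ Λ1 (by omega)
    calc Λ * W ^ (h' + 1) = W * (W ^ h' * Λ) := by ring
      _ ≤ W * (Λ ^ h' * Λ) := by gcongr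
      _ ≤ _ := by rw [← pow_succ]; gcongr
  have e4 : D ^ h * ((h : ℝ) ^ (h + 1) * Λ ^ (2 * h)) ≤ M := by
    have u1 : (1 : ℝ) ≤ 16 * 4 ^ h * 4 ^ h := by nlinarith
    calc _ ≤ 16 * 4 ^ h * 4 ^ h * (D ^ h * ((h : ℝ) ^ (h + 1) * Λ ^ (2 * h))) :=
          le_mul_of_one_le_left (by positivity) u1
      _ = _ := by rw [hM]; ring
  have e5 : v ^ 2 ≤ v ^ 8 := pow_le_pow_right₀ v1 (by norm_num)
  have e7 : 2 * v * M ≤ y := by rw [← v8]; nlinarith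
  rw [← mul_div_assoc, ← mul_div_assoc, div_le_div_iff₀ (by positivity) (by positivity)]
  calc _ = 2 * v * (D ^ h * ((h : ℝ) ^ 2 * (Λ * W ^ h))) := by ring
    _ ≤ 2 * v * (D ^ h * ((h : ℝ) ^ (h + 1) * (W * Λ ^ (2 * h)))) := by gcongr
    _ = 2 * v * (D ^ h * ((h : ℝ) ^ (h + 1) * Λ ^ (2 * h))) * W := by ring
    _ ≤ 2 * v * M * W := by gcongr
    _ ≤ y * W := by gcongr
    _ = _ := (one_mul _).symm

theorem last {W Λ v y D M J g C : ℝ} {h : ℕ} (W0 : 0 < W) (W1 : W ≤ Λ) (v1 : 1 ≤ v)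
    (v8 : v ^ 8 = y) (D1 : 1 ≤ D) (J0 : 0 ≤ J) (g0 : 0 ≤ g) (C1 : 1 ≤ C)
    (hM : M = 16 * h ^ (h + 1) * 4 ^ h * 4 ^ h * D ^ h * Λ ^ (2 * h)) (M1 : 16 * C * M ≤ v)
    (H : (J * (1 / (2 * v * W ^ h))) ^ 2 ≤ (Λ / (y * W)) ^ h * (4 ^ h * (h ^ h * (2 * h * (2 *
      (J * (g * (4 * (4 ^ h * y ^ h) * (C * v)) + J * (4 ^ h * y ^ h / y)))))))) :
    J ≤ g * v ^ 4 := by
  have Λ0 : 0 < Λ := W0.trans_le W1
  have y0 : 0 < y := by rw [← v8]; positivity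
  have e1 : 1 ≤ D ^ h := one_le_pow₀ D1
  have Wh : W ^ h ≤ Λ ^ h := pow_le_pow_left₀ W0.le W1 h
  refine fin4 J0 g0 v1 C1 (by rw [hM]; positivity) M1 ?_
  rw [v8]
  calc J ^ 2 = (J * (1 / (2 * v * W ^ h))) ^ 2 * (4 * v ^ 2 * (W ^ h) ^ 2) := by
        field_simp; norm_num
    _ ≤ _ := mul_le_mul_of_nonneg_right H (by positivity)
    _ = 16 * h ^ (h + 1) * 4 ^ h * 4 ^ h * 1 * (Λ ^ h * W ^ h) * v ^ 2 *
        (J * (4 * g * C * v + J / y)) := by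
        rw [div_pow, mul_pow y W]; field_simp; ring
    _ ≤ 16 * h ^ (h + 1) * 4 ^ h * 4 ^ h * D ^ h * (Λ ^ h * Λ ^ h) * v ^ 2 *
        (J * (4 * g * C * v + J / y)) := by gcongr
    _ = _ := by rw [hM, two_mul, pow_add Λ]

theorem save {y Y η : ℝ} {c C h : ℕ} (y1 : 1 ≤ y) (hη : 0 < η) (h2 : (c * C + 1 : ℝ) ≤ h * η)
    (Y1 : y ^ h ≤ Y) (Y2 : Y ≤ 4 ^ h * y ^ h) :
    (y ^ c) ^ C * Y ^ (1 - η) ≤ 4 ^ h * y ^ h / y := by
  have y0 : 0 < y := by linarith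
  have Y0 : 0 < Y := (pow_pos y0 h).trans_le Y1
  have e1 : Y ^ (-η) ≤ y ^ (-(c * C + 1 : ℝ)) := by
    refine (Real.rpow_le_rpow_of_nonpos (by positivity) Y1 (by linarith)).trans ?_
    rw [← Real.rpow_natCast, ← Real.rpow_mul y0.le]
    exact Real.rpow_le_rpow_of_exponent_le y1 (by linarith)
  have e2 : y ^ (-(c * C + 1 : ℝ)) = (y ^ (c * C) * y)⁻¹ := by
    rw [Real.rpow_neg y0.le, ← pow_succ, ← Real.rpow_natCast]; push_cast; rfl
  rw [sub_eq_add_neg, Real.rpow_add Y0, Real.rpow_one, ← pow_mul]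
  calc _ ≤ y ^ (c * C) * (4 ^ h * y ^ h * (y ^ (c * C) * y)⁻¹) := by
        rw [← e2]; gcongr
    _ = _ := by field_simp

theorem triv_le (hLam : S_Lam) {k L L' : Type} [Field k] [NumberField k] [Field L] [NumberField L]
    [Algebra k L] [Field L'] [NumberField L'] [Algebra k L'] {e : ℕ} (dk : Module.finrank ℚ k = 2)
    (dL : Module.finrank ℚ L = 2 * e) (dL' : Module.finrank ℚ L' = 2 * e)
    (χ : Ideal (𝓞 L) → ℂ) (χ' : Ideal (𝓞 L') → ℂ) (hχ : ∀ I, ‖χ I‖ ≤ 1) (hχ' : ∀ I, ‖χ' I‖ ≤ 1)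
    {Y Z B : ℝ} (Y1 : 1 ≤ Y) (Y2 : Y ≤ Z) (B0 : 0 ≤ B)
    (hτ : ∀ m : ℕ, m ≠ 0 → (m : ℝ) < 3 * Y → (m.divisors.card : ℝ) ^ (4 * e + 2) ≤ B) :
    ‖∑ m ∈ Wn Y, (tent (m / Y - 3 / 2) : ℂ) * ∑ x ∈ (finite_absNorm (E := k) m).toFinset,
      lamk k χ x * conj (lamk k χ' x)‖ ≤ 4 * Z * B := by
  refine (norm_sum_le _ _).trans ((sum_le_card_nsmul _ _ B fun m hm => ?_).trans ?_)
  · obtain ⟨a, b⟩ := mem_filter.1 hm
    have m1 : 1 ≤ m := Nat.pos_of_ne_zero b.ne_zero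
    refine le_trans ?_ (hτ m b.ne_zero (Nat.lt_ceil.1 (mem_range.1 a)))
    have t1 : ‖(tent (m / Y - 3 / 2) : ℂ)‖ ≤ 1 := by
      rw [Complex.norm_real, Real.norm_of_nonneg (show 0 ≤ tent _ from le_max_left _ _)]
      exact max_le zero_le_one (sub_le_self _ (abs_nonneg _))
    rw [norm_mul]
    refine (mul_le_of_le_one_left (norm_nonneg _) t1).trans ((norm_sum_le _ _).trans
      ((sum_le_card_nsmul _ _ ((m.divisors.card : ℝ) ^ (2 * e) * (m.divisors.card : ℝ) ^ (2 * e))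
        fun x hx => ?_).trans ?_))
    · rw [Set.Finite.mem_toFinset] at hx
      obtain rfl : Ideal.absNorm x = m := hx
      have u1 := lamk_le hLam χ hχ x m1
      have u2 := lamk_le hLam χ' hχ' x m1
      rw [dL] at u1
      rw [dL'] at u2
      rw [norm_mul, Complex.norm_conj]
      exact mul_le_mul u1 u2 (norm_nonneg _) (by positivity)
    · have d := card_le hLam k m m1
      rw [dk] at d
      have d' : ((finite_absNorm (E := k) m).toFinset.card : ℝ) ≤ (m.divisors.card : ℝ) ^ 2 := by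
        exact_mod_cast d
      rw [nsmul_eq_mul]
      exact (mul_le_mul_of_nonneg_right d' (by positivity)).trans_eq (by ring)
  · rw [nsmul_eq_mul]
    refine mul_le_mul_of_nonneg_right ?_ B0
    have a : (Wn Y).card ≤ ⌈3 * Y⌉₊ := (card_filter_le _ _).trans (card_range _).le
    have b := (Nat.ceil_lt_add_one (show 0 ≤ 3 * Y by linarith)).le
    have d : ((Wn Y).card : ℝ) ≤ ⌈3 * Y⌉₊ := by exact_mod_cast a
    linarith

theorem mass_le {ω : ℕ → ℝ} {y l : ℝ} {N i : ℕ} (y1 : 1 ≤ y) (l0 : 0 ≤ l)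
    (ω1 : ∀ q ∈ strat y N i, ω q ≤ 8 * l / y) : ∑ q ∈ strat y N i, ω q ≤ 40 * l := by
  have y0 : 0 < y := by linarith
  refine (sum_le_card_nsmul _ _ _ ω1).trans ?_
  have a : (strat y N i).card ≤ ⌈3 * y⌉₊ + 1 := (card_filter_le _ _).trans (card_range _).le
  have b := (Nat.ceil_lt_add_one (show 0 ≤ 3 * y by linarith)).le
  have d : ((strat y N i).card : ℝ) ≤ ⌈3 * y⌉₊ + 1 := by exact_mod_cast a
  rw [nsmul_eq_mul]
  calc _ ≤ 5 * y * (8 * l / y) := mul_le_mul_of_nonneg_right (by linarith) (by positivity)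
    _ = _ := by field_simp; ring

end Bom

open Bom in
theorem p_bom (hTheta : VE.S_Theta) (hLam : VE.S_Lam) (hRS : S_RS2) : S_Bom := by
  intro k _ _ _ K e c
  obtain ⟨C, η, hη, hRS⟩ := hRS k K e
  obtain ⟨h, hh⟩ := exists_nat_ge (max 13 ((c * C + 1) / η))
  have h13 : (13 : ℝ) ≤ h := (le_max_left _ _).trans hh
  have h1' : (1 : ℝ) ≤ h := by linarith
  have h1 : 1 ≤ h := by exact_mod_cast h1'
  have h2 : (c * C + 1 : ℝ) ≤ h * η := (div_le_iff₀ hη).1 ((le_max_right _ _).trans hh)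
  refine ⟨1 / (8 * h), by positivity, one_div_le_one_div_of_le (by norm_num) (by linarith),
    fun A => ?_⟩
  obtain ⟨y₁, hy₁⟩ := hTheta A
  obtain ⟨C₁, hC₁, hτ⟩ := MP_746f10_nt.exists_tau_le (4 * e + 2) (8 * (h + 1))
  obtain ⟨y₀, hy₀⟩ := Filter.eventually_atTop.1 (((ev
    (16 * C₁ * (16 * h ^ (h + 1) * 4 ^ h * 4 ^ h * (4 ^ e) ^ h * 40 ^ (2 * h)))
    ((A + 1) * (2 * h))).and (Filter.eventually_ge_atTop y₁)).and
    ((Filter.eventually_ge_atTop (3 * 4 ^ h)).and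
      (Real.tendsto_log_atTop.eventually_ge_atTop 1)))
  refine ⟨y₀, fun y hy N hN hNA ω J _ L _ _ _ P Mj n θ χ i g hi hg hω hJ hsq => ?_⟩
  obtain ⟨⟨b1, b2⟩, b3, b4⟩ := hy₀ y hy
  obtain ⟨-, -, -, t4⟩ := hy₁ y b2 N hN hNA
  have g0 : 0 ≤ g := by linarith
  have h4 : (1 : ℝ) ≤ 4 ^ h := one_le_pow₀ (by norm_num)
  have y1 : 1 ≤ y := by linarith
  have y0 : 0 < y := by linarith
  set v := y ^ (1 / 8 : ℝ) with hv
  have v1 : 1 ≤ v := Real.one_le_rpow y1 (by norm_num)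
  have v0 : 0 < v := by linarith
  have v8 : v ^ 8 = y := by
    rw [hv, ← Real.rpow_natCast, ← Real.rpow_mul y0.le]; norm_num
  have v4 : v ^ 4 = y ^ (1 / 2 : ℝ) := by
    rw [hv, ← Real.rpow_natCast, ← Real.rpow_mul y0.le]; norm_num
  set l := Real.log y
  have hP : ∀ q ∈ strat y N i, q ∈ Pset y N := fun q hq => mem_biUnion.2 ⟨i, mem_range.2 hi, hq⟩
  set Λ := 40 * l ^ (A + 1) with hΛ
  have l1 : 1 ≤ l ^ (A + 1) := one_le_pow₀ b4
  have Λ1 : 1 ≤ Λ := by linarith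
  have ω1 : ∀ q ∈ strat y N i, ω q ≤ 8 * l ^ (A + 1) / y := fun q hq => by
    refine (hω q hq).2.trans (div_le_div_of_nonneg_right ?_ y0.le)
    rw [pow_succ, mul_assoc]
    exact mul_le_mul_of_nonneg_left (mul_le_mul_of_nonneg_right hNA (by linarith)) (by norm_num)
  set W := ∑ q ∈ strat y N i, ω q with hW
  have W1 : W ≤ Λ := mass_le y1 (by linarith) ω1
  rcases isEmpty_or_nonempty J with hE | ⟨⟨j₀⟩⟩
  · rw [Fintype.card_eq_zero, Nat.cast_zero]; positivity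
  have W0 : 0 < W := by
    refine (sum_nonneg fun q hq => (hω q hq).1).lt_of_ne' fun e0 => ?_
    have z := (sum_eq_zero_iff_of_nonneg fun q hq => (hω q hq).1).1 e0
    have a := (hJ j₀).2.2.2.2.2.2
    rw [Smw, sum_eq_zero fun q hq => by rw [z q hq]; simp, norm_zero] at a
    exact absurd a (not_le.2 (Real.rpow_pos_of_pos y0 _))
  set w : ℕ → ℝ := fun q => ω q / W with hw
  set ϑ := Λ / (y * W) with hϑ
  have ϑ0 : 0 ≤ ϑ := by positivity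
  have w0 : ∀ q ∈ strat y N i, 0 ≤ w q ∧ w q ≤ ϑ := fun q hq => by
    refine ⟨div_nonneg (hω q hq).1 W0.le, ?_⟩
    rw [hϑ, ← div_div]
    exact div_le_div_of_nonneg_right ((ω1 q hq).trans
      (div_le_div_of_nonneg_right (by linarith) y0.le)) W0.le
  have w1 : ∑ q ∈ strat y N i, w q = 1 := by
    rw [hw, ← sum_div, div_self W0.ne']
  choose κ τ hκ hτ' hH using fun j => (hJ j).2.2.2.2.2.1
  have hχ : ∀ j I, ‖χ j I‖ ≤ 1 := fun j => (hH j).norm_le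
  have rk : ∀ j, Module.finrank ℚ (L j) = 2 * e := fun j => by
    rw [← Module.finrank_mul_finrank ℚ k (L j), K.deg, (hJ j).1.fin]
  have hl : ∀ j m, 1 ≤ m → ‖lam (χ j) m‖ ≤ (m.divisors.card : ℝ) ^ (2 * e) := fun j m hm => by
    have := (hLam (L j)).2.1 (χ j) m hm (hχ j)
    rwa [rk] at this
  set M : ℝ := 16 * h ^ (h + 1) * 4 ^ h * 4 ^ h * (4 ^ e) ^ h * Λ ^ (2 * h) with hM
  have M0 : 0 ≤ M := by positivity
  have M1 : 16 * C₁ * M ≤ v :=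
    le_trans (le_of_eq (by rw [hM, hΛ, mul_pow, ← pow_mul l]; ring)) b1
  have M2 : 16 * M ≤ v := le_trans (mul_le_mul_of_nonneg_right
    (le_mul_of_one_le_right (by norm_num) hC₁) M0) M1
  have C0 : 0 ≤ C₁ := zero_le_one.trans hC₁
  set S : ℕ → Finset (Ideal (𝓞 k)) := fun m => (finite_absNorm (E := k) m).toFinset with hS
  have hT : ∀ j, 1 / (2 * v * W ^ h) ≤ ‖∑ τ ∈ Ti (strat y N i) h,
      ((∏ l, w (τ l) : ℝ) : ℂ) * ∑ x ∈ S (∏ l, τ l), lamk k (χ j) x‖ := fun j => by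
    have a := Bom.split (h := h) (D := 4 ^ e) (by positivity) w0 w1 ϑ0
      (fun q hq => (t4 q (hP q hq)).1) (lam_one (χ j))
      ((hLam (L j)).2.2 (χ j)) fun q hq => (hl j q (t4 q (hP q hq)).1.pos).trans (by
        rw [Nat.Prime.divisors (t4 q (hP q hq)).1, card_pair (t4 q (hP q hq)).1.one_lt.ne, pow_mul]
        norm_num)
    have b : 1 / v ≤ ‖Smw ω y N i (lam (χ j))‖ ^ h := by
      refine le_trans (le_of_eq ?_)
        (pow_le_pow_left₀ (Real.rpow_nonneg y0.le _) (hJ j).2.2.2.2.2.2 h)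
      rw [← Real.rpow_natCast, ← Real.rpow_mul y0.le, hv, one_div, ← Real.rpow_neg y0.le]
      congr 1
      field_simp
    have b' : ‖∑ q ∈ strat y N i, (w q : ℂ) * lam (χ j) q‖ = ‖Smw ω y N i (lam (χ j))‖ / W := by
      have : ∑ q ∈ strat y N i, (w q : ℂ) * lam (χ j) q = Smw ω y N i (lam (χ j)) / W := by
        rw [Smw, sum_div]
        exact sum_congr rfl fun q _ => by rw [hw]; push_cast; ring
      rw [this, norm_div, Complex.norm_real, Real.norm_of_nonneg W0.le]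
    have b'' : 1 / (v * W ^ h) ≤ ‖∑ q ∈ strat y N i, (w q : ℂ) * lam (χ j) q‖ ^ h := by
      rw [b', div_pow, ← div_div]
      exact div_le_div_of_nonneg_right b (by positivity)
    have d : (4 ^ e) ^ h * (h ^ 2 * ϑ) ≤ 1 / (2 * v * W ^ h) :=
      err_le h1 W0 W1 Λ1 v1 v8 (by positivity) hM M2
    have e : 1 / (v * W ^ h) = 1 / (2 * v * W ^ h) + 1 / (2 * v * W ^ h) := by field_simp; norm_num
    simp only [lam_eq (k := k) (χ j) (∏ _, _)] at a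
    rw [e] at b''
    exact le_of_add_le_add_right (b''.trans (a.trans (add_le_add le_rfl d)))
  have hE : ∀ τ ∈ Ti (strat y N i) h, ((S (∏ l, τ l)).card : ℝ) ≤ 4 ^ h := fun τ hτ => by
    have a := Fintype.mem_piFinset.1 (mem_filter.1 hτ).1
    have b := card_div univ τ fun l => (t4 _ (hP _ (a l))).1
    have d := card_le hLam k (∏ l, τ l) (prod_pos fun l _ => (t4 _ (hP _ (a l))).1.pos)
    rw [card_univ, Fintype.card_fin] at b
    rw [K.deg] at d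
    have := d.trans (Nat.pow_le_pow_left b 2)
    rw [← pow_mul, mul_comm, pow_mul] at this
    exact_mod_cast this
  have hR : ∀ r < 2 * h, ∀ j, ∑ j', ‖∑ m ∈ Wn (2 ^ r * y ^ h),
      (tent (m / (2 ^ r * y ^ h) - 3 / 2) : ℂ) *
        ∑ x ∈ S m, lamk k (χ j) x * conj (lamk k (χ j') x)‖ ≤
      g * (4 * (4 ^ h * y ^ h) * (C₁ * v)) + Fintype.card J * (4 ^ h * y ^ h / y) := by
    intro r hr j
    have yh : 1 ≤ y ^ h := one_le_pow₀ y1
    have r1 : (1 : ℝ) ≤ 2 ^ r := one_le_pow₀ one_le_two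
    have r2 : (2 : ℝ) ^ r ≤ 4 ^ h := by
      rw [show (4 : ℝ) = 2 ^ 2 by norm_num, ← pow_mul]
      exact pow_le_pow_right₀ one_le_two hr.le
    set Y := 2 ^ r * y ^ h with hY
    have Y1 : y ^ h ≤ Y := le_mul_of_one_le_left (by positivity) r1
    have Y2 : Y ≤ 4 ^ h * y ^ h := mul_le_mul_of_nonneg_right r2 (by positivity)
    refine row _ _ (by positivity) (by positivity) (hsq j) (fun j' => ?_) fun j' hj' => ?_
    · refine triv_le hLam K.deg (rk j) (rk j') _ _ (hχ j) (hχ j') (yh.trans Y1) Y2 (by positivity)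
        fun m m0 hm => hτ m v m0 v1 ?_
      rw [pow_mul, v8, pow_succ]
      calc (m : ℝ) ≤ 3 * (4 ^ h * y ^ h) := hm.le.trans (mul_le_mul_of_nonneg_left Y2 (by norm_num))
        _ = y ^ h * (3 * 4 ^ h) := by ring
        _ ≤ _ := mul_le_mul_of_nonneg_left b3 (by positivity)
    · have a : ¬ (¬ Wit (P j') (Mj j) ∨ Adj k (χ j) (χ j') (n j * n j')) := fun e =>
        hj' (mem_filter.2 ⟨mem_univ _, e⟩)
      obtain ⟨a, b⟩ := not_or.1 a
      have u := (hRS (L j) (L j') (P j) (P j') (Mj j) (Mj j') (n j) (n j') (θ j) (θ j') (y ^ c) Y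
        (κ j) (τ j) (κ j') (τ j') (χ j) (χ j') (hJ j).1 (hJ j').1 (hJ j).2.2.2.1
        (Nat.one_le_iff_ne_zero.1 (hJ j).2.2.1) (hJ j').2.2.2.1 (Nat.one_le_iff_ne_zero.1 (hJ j').2.2.1)
        (not_not.1 a) (hJ j).2.2.2.2.1 (hJ j').2.2.2.2.1 (hJ j).2.1 (hJ j').2.1
        (fun φ => (hκ j φ).le) (hτ' j) (fun φ => (hκ j' φ).le) (hτ' j') (yh.trans Y1) (hH j)
        (hH j')).resolve_left b
      simp only [lam_eq_sum] at u
      exact u.trans (save y1 hη h2 Y1 Y2)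
  have := Bom.core y1 h1 (by positivity) (by positivity) w0 w1 ϑ0
    (fun q hq => ⟨(t4 q (hP q hq)).1, (t4 q (hP q hq)).2.1, (t4 q (hP q hq)).2.2.1⟩)
    S (fun j => lamk k (χ j)) hE hT hR
  rw [← v4]
  exact last W0 W1 v1 v8 (one_le_pow₀ (by norm_num)) (Nat.cast_nonneg _) g0 hC₁ hM M1 this

end Pool.Agent.P.MP_b8021b_nt.VC
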