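import Pool.Agent.P.MP_b8021b_nt.VC.StT
import Pool.Agent.P.MP_b8021b_nt.VC.BasicA

/-! Bounds for the number of points modulo a prime. -/

namespace Pool.Agent.P.MP_b8021b_nt.VC

open Polynomial Finset Pool.Agent.P.MP_b8021b_nt.VE
open scoped Classical

namespace Card

theorem exists_hom {S R K ι : Type} [CommRing S] [CommRing R] [Algebra S R] [Field K] [Fintype ι]
    [DecidableEq ι] (y : Module.Basis ι S R) (φ : S →+* K) (a : R) (u : K)
    (hs : ((Algebra.leftMulMatrix y a).charpoly.map φ).Separable)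
    (hu : ((Algebra.leftMulMatrix y a).charpoly.map φ).IsRoot u) :
    ∃ f : R →+* K, (∀ s, f (algebraMap S R s) = φ s) ∧ f a = u := by
  let N : R →+* Matrix ι ι K := φ.mapMatrix.comp (Algebra.leftMulMatrix y).toRingHom
  have hc : (N a).mulVecLin.charpoly = (Algebra.leftMulMatrix y a).charpoly.map φ := by
    rw [Matrix.charpoly_mulVecLin, ← Matrix.charpoly_map]
    rfl
  have h1 : Module.finrank K (Module.End.eigenspace (N a).mulVecLin u) ≤ 1 := by
    refine (LinearMap.finrank_eigenspace_le _ u).trans ?_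
    rw [hc]
    exact rootMultiplicity_le_one_of_separable hs u
  rw [← hc, ← Module.End.hasEigenvalue_iff_isRoot_charpoly] at hu
  obtain ⟨v, hv⟩ := hu.exists_hasEigenvector
  have hv1 : (N a).mulVec v = u • v := hv.apply_eq_smul
  have h2 : ∀ x, ∃ c : K, (N x).mulVec v = c • v := fun x => by
    have hm : (N x).mulVec v ∈ Module.End.eigenspace (N a).mulVecLin u := by
      rw [Module.End.mem_eigenspace_iff, Matrix.mulVecLin_apply, Matrix.mulVec_mulVec, ← map_mul,
        mul_comm, map_mul, ← Matrix.mulVec_mulVec, hv1, Matrix.mulVec_smul]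
    obtain ⟨w, hw⟩ := finrank_le_one_iff.1 h1
    obtain ⟨c, hc⟩ := hw ⟨v, hv.1⟩
    obtain ⟨d, hd⟩ := hw ⟨_, hm⟩
    have hc' : c • w.1 = v := congrArg Subtype.val hc
    have hd' : d • w.1 = (N x).mulVec v := congrArg Subtype.val hd
    have hc0 : c ≠ 0 := fun h => hv.2 (by rw [← hc', h, zero_smul])
    exact ⟨d / c, by rw [← hd', ← hc', smul_smul, div_mul_cancel₀ _ hc0]⟩
  choose c hcx using h2
  have inj : ∀ {s t : K}, s • v = t • v → s = t := fun h => smul_left_injective K hv.2 h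
  refine ⟨{ toFun := c
            map_one' := inj (by rw [← hcx, map_one, Matrix.one_mulVec, one_smul])
            map_mul' := fun x z => inj (by
              rw [← hcx, map_mul, ← Matrix.mulVec_mulVec, hcx, Matrix.mulVec_smul, hcx, smul_smul,
                mul_comm])
            map_zero' := inj (by rw [← hcx, map_zero, Matrix.zero_mulVec, zero_smul])
            map_add' := fun x z => inj (by
              rw [← hcx, map_add, Matrix.add_mulVec, hcx, hcx, add_smul]) },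
    fun s => inj ?_, inj ((hcx a).symm.trans hv1)⟩
  change c _ • v = _
  have : N (algebraMap S R s) = φ s • (1 : Matrix ι ι K) := by
    change φ.mapMatrix (Algebra.leftMulMatrix y (algebraMap S R s)) = _
    rw [AlgHom.commutes]
    ext i j
    by_cases h : i = j <;> simp [Matrix.algebraMap_matrix_apply, h]
  rw [← hcx, this, Matrix.smul_mulVec, Matrix.one_mulVec]

variable {R : Type} [CommRing R] [Algebra ℤ[X] R]

theorem card_hom (T : Tab R) {K : Type} [Field K] (τ : K) (V : Finset (Fin T.e → K))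
    (h : ∀ v ∈ V, ∃ f : R →+* K, f (zR R) = τ ∧ ∀ i, f (T.y i) = v i) : V.card ≤ T.e := by
  choose f hf using fun v : V => h v.1 v.2
  let L : (Fin T.e → K) →ₗ[K] (R → K) :=
    { toFun := fun v x => ∑ i, aeval τ (T.y.repr x i) * v i
      map_add' := fun v w => funext fun x => by simp [mul_add, sum_add_distrib]
      map_smul' := fun c v => funext fun x => by simp [mul_sum, mul_left_comm] }
  have h1 : LinearIndependent K fun v : V => ((f v).toMonoidHom : R → K) :=
    (linearIndependent_monoidHom R K).comp (fun v : V => (f v).toMonoidHom) fun v w hvw =>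
      Subtype.ext (funext fun i => by
        rw [← (hf v).2, ← (hf w).2]
        exact DFunLike.congr_fun hvw _)
  have h2 : LinearIndependent K fun v : V => v.1 := by
    refine LinearIndependent.of_comp L ?_
    convert h1 using 1
    funext v x
    change ∑ i, aeval τ (T.y.repr x i) * v.1 i = f v x
    conv_rhs => rw [← T.el_repr x, T.map_el, (hf v).1]
    simp only [(hf v).2]
  simpa using h2.fintype_card_le_finrank

theorem cast_inj {q a b : ℕ} (ha : a < q) (hb : b < q) (h : (a : ZMod q) = b) : a = b := by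
  rw [ZMod.natCast_eq_natCast_iff', Nat.mod_eq_of_lt ha, Nat.mod_eq_of_lt hb] at h
  exact h

theorem card_sq (q r : ℕ) (hq : q.Prime) :
    ((range q).filter fun w => q ∣ w ^ 2 + r).card ≤ 2 := by
  have := Fact.mk hq
  have h0 : (X ^ 2 + C (r : ZMod q)) ≠ 0 := (monic_X_pow_add_C _ two_ne_zero).ne_zero
  refine le_trans (card_le_card_of_injOn (t := (X ^ 2 + C (r : ZMod q)).roots.toFinset)
    (fun w : ℕ => (w : ZMod q)) (fun w hw => ?_) fun a ha b hb h => ?_) ?_
  · rw [mem_coe, mem_filter, ← ZMod.natCast_eq_zero_iff] at hw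
    rw [mem_coe, Multiset.mem_toFinset, mem_roots h0]
    simpa using hw.2
  · rw [mem_coe, mem_filter, mem_range] at ha hb
    exact cast_inj ha.1 hb.1 h
  · refine (Multiset.toFinset_card_le _).trans ((card_roots' _).trans ?_)
    rw [natDegree_X_pow_add_C]

theorem mem_Xq {p : Par R} {q : ℕ} {x : p.Pn} : x ∈ Xq p q ↔ x.1 = q ∧ p.IsPt x := by
  simp only [Xq, mem_filter, mem_product, mem_singleton, mem_range, Fintype.mem_piFinset]
  refine ⟨fun h => ⟨h.1.1, h.2⟩, fun h => ⟨⟨h.1, ?_⟩, h.2⟩⟩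
  obtain ⟨rfl, -, -, h1, -, h2, h3, -⟩ := h
  exact ⟨h1, h2, h3⟩

theorem card_fib (p : Par R) (q τ : ℕ) :
    ((Xq p q).filter fun x => x.2.1 = τ).card ≤ 2 * p.e := by
  by_cases hq : q.Prime
  swap
  · rw [filter_eq_empty_iff.2, card_empty]
    · exact Nat.zero_le _
    · exact fun x hx _ => hq ((mem_Xq.1 hx).1 ▸ (mem_Xq.1 hx).2.1)
  have := Fact.mk hq
  let V : Finset (Fin p.e → ZMod q) :=
    univ.filter fun v => ∃ f : R →+* ZMod q, f (zR R) = τ ∧ ∀ i, f (p.y i) = v i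
  have hV : V.card ≤ p.e := card_hom p.toTab (τ : ZMod q) V fun v hv => (mem_filter.1 hv).2
  refine le_trans (card_le_card_of_injOn (t := ((range q).filter fun w => q ∣ w ^ 2 + p.r) ×ˢ V)
    (fun x => (x.2.2.1, fun i => (x.2.2.2 i : ZMod q))) (fun x hx => ?_) fun a ha b hb h => ?_) ?_
  · rw [mem_coe, mem_filter, mem_Xq] at hx
    obtain ⟨⟨rfl, -, -, -, -, h2, -, h3, -, h4⟩, rfl⟩ := hx
    rw [mem_coe, mem_product, mem_filter, mem_range]
    exact ⟨⟨h2, h3⟩, mem_filter.2 ⟨mem_univ _, h4⟩⟩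
  · rw [mem_coe, mem_filter, mem_Xq] at ha hb
    obtain ⟨h1, h2⟩ := Prod.mk.inj h
    refine Prod.ext (ha.1.1.trans hb.1.1.symm) (Prod.ext (ha.2.trans hb.2.symm)
      (Prod.ext h1 (funext fun i => ?_)))
    exact cast_inj (ha.1.1 ▸ ha.1.2.2.2.2.2.2.1 i) (hb.1.1 ▸ hb.1.2.2.2.2.2.2.1 i) (congrFun h2 i)
  · rw [card_product]
    exact Nat.mul_le_mul (card_sq q p.r hq) hV

theorem exists_pt (p : Par R) {q : ℕ} (hq : q.Prime) (τ u : ℕ)
    (h1 : (q : ℤ) ∣ (p.toTab.Pt ((τ : ℤ), 1)).eval (u : ℤ))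
    (h2 : ¬ (q : ℤ) ∣ p.Dp.eval (τ : ℤ)) :
    ∃ f : R →+* ZMod q, f (zR R) = τ ∧ f (p.y p.toTab.i1) = u := by
  have := Fact.mk hq
  let φ : ℤ[X] →+* ZMod q := (Int.castRingHom (ZMod q)).comp (evalRingHom (τ : ℤ))
  have hP : p.toTab.P.map φ = (p.toTab.Pt ((τ : ℤ), 1)).map (Int.castRingHom (ZMod q)) := by
    ext l
    rw [coeff_map, coeff_map, Tab.Pt_eq, Tab.coeff_cpt,
      hev_one (Tab.natDegree_cp_coeff (p.toTab.y_mem_Lw_κ _) l)]
    rfl
  have hD : φ p.Dp ≠ 0 := fun h => h2 ((ZMod.intCast_zmod_eq_zero_iff_dvd _ _).1 h)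
  have hs : (p.toTab.P.map φ).Separable := by
    obtain ⟨a, b, hab⟩ := p.sepX
    have h3 := congrArg (Polynomial.map φ) hab
    rw [Polynomial.map_add, Polynomial.map_mul, Polynomial.map_mul, ← derivative_map,
      map_C] at h3
    generalize p.toTab.P.map φ = Q at h3
    exact ⟨C (φ p.Dp)⁻¹ * a.map φ, C (φ p.Dp)⁻¹ * b.map φ, by
      rw [mul_assoc, mul_assoc, ← mul_add, h3, ← C_mul, inv_mul_cancel₀ hD, C_1]⟩
  have hr : (p.toTab.P.map φ).IsRoot (u : ZMod q) := by
    rw [hP, IsRoot.def, ← Int.cast_natCast, ← aeval_eq_eval_map, aeval_intCast]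
    exact (ZMod.intCast_zmod_eq_zero_iff_dvd _ _).2 h1
  rw [Tab.P] at hs hr
  obtain ⟨f, hf, hu⟩ := exists_hom p.y φ (p.y p.toTab.i1) (u : ZMod q) hs hr
  exact ⟨f, (hf X).trans (by simp [φ]), hu⟩

end Card

theorem p_card : S_Card := by
  intro R _ _ p q
  refine ⟨?_, Card.card_fib p q, fun t => ?_, fun x hx => ?_, fun hq hs => ?_⟩
  · have h := card_le_mul_card_image_of_maps_to (f := fun x : p.Pn => x.2.1) (s := Xq p q)
      (t := range q) (fun x hx => mem_range.2 ((Card.mem_Xq.1 hx).1 ▸ (Card.mem_Xq.1 hx).2.2.2.1))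
      (2 * p.e) fun τ _ => Card.card_fib p q τ
    rwa [card_range] at h
  · rcases ((Xq p q).filter fun x => p.OnT x t).eq_empty_or_nonempty with h | ⟨x₀, h₀⟩
    · rw [h, card_empty]
      exact Nat.zero_le _
    refine le_trans (card_le_card fun x hx => ?_) (Card.card_fib p q x₀.2.1)
    rw [mem_filter, Card.mem_Xq] at hx h₀ ⊢
    refine ⟨hx.1, ?_⟩
    obtain ⟨⟨h1, h2⟩, h3, h4⟩ := hx
    obtain ⟨⟨h5, h6⟩, h7, -⟩ := h₀
    have hq : q.Prime := h1 ▸ h2.1
    rw [h1] at h3 h4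
    rw [h5] at h7
    have h8 : (q : ℤ) ∣ ((x₀.2.1 : ℤ) - x.2.1) * t.2 := by
      have := dvd_sub h3 h7
      rwa [show t.1 - x.2.1 * t.2 - (t.1 - x₀.2.1 * t.2) = ((x₀.2.1 : ℤ) - x.2.1) * t.2 by ring]
        at this
    have h9 := ((Nat.prime_iff_prime_int.1 hq).dvd_or_dvd h8).resolve_right h4
    exact Card.cast_inj (h1 ▸ h2.2.2.1) (h5 ▸ h6.2.2.1)
      ((ZMod.natCast_eq_natCast_iff _ _ _).2 (Nat.modEq_iff_dvd.2 h9))
  · obtain ⟨h1, h2, -, -, -, h3, h4, -, f, -, hf⟩ := hx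
    refine ⟨⟨h2, (x.2.2.1 : ZMod x.1), ?_⟩, Card.cast_inj (h3 _) h1.one_lt ?_⟩
    · rw [← ZMod.natCast_eq_zero_iff] at h4
      push_cast at h4
      linear_combination -h4
    · rw [← hf, Tab.y_i0, map_one, Nat.cast_one]
  · have := Fact.mk hq
    obtain ⟨h1, w, hw⟩ := hs
    have hr : (p.r : ZMod q) ≠ 0 := fun h =>
      h1 (((ZMod.natCast_eq_zero_iff _ _).1 h).mul_left 2)
    have h2 : (2 : ZMod q) ≠ 0 := fun h =>
      h1 (((ZMod.natCast_eq_zero_iff 2 q).1 (by exact_mod_cast h)).mul_right _)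
    have hw0 : w ≠ 0 := fun h => hr (by rw [h, mul_zero] at hw; exact neg_eq_zero.1 hw)
    set A := (range q ×ˢ range q).filter fun a : ℕ × ℕ =>
      (q : ℤ) ∣ (p.toTab.Pt ((a.1 : ℤ), 1)).eval (a.2 : ℤ) ∧
        ¬ (q : ℤ) ∣ p.G.eval (a.1 : ℤ) * p.Dp.eval (a.1 : ℤ) with hA
    have hex : ∀ a : ℕ × ℕ, ∃ v : Fin p.e → ZMod q, a ∈ A → ∃ g : R →+* ZMod q,
        g (zR R) = a.1 ∧ v p.toTab.i1 = a.2 ∧ ∀ i, g (p.y i) = v i := fun a => by
      by_cases ha : a ∈ A
      · obtain ⟨-, h3, h4⟩ := mem_filter.1 ha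
        obtain ⟨g, hg⟩ := Card.exists_pt p hq a.1 a.2 h3 fun h => h4 (h.mul_left _)
        exact ⟨fun i => g (p.y i), fun _ => ⟨g, hg.1, hg.2, fun _ => rfl⟩⟩
      · exact ⟨0, fun h => (ha h).elim⟩
    choose v hv using hex
    have hne : w ≠ -w := fun h => hw0 (by
      refine (mul_eq_zero.1 (?_ : 2 * w = 0)).resolve_left h2
      linear_combination h)
    rw [← card_pair hne, ← card_product]
    refine card_le_card_of_injOn (fun b => (q, b.2.1, b.1.val, fun i => (v b.2 i).val))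
      (fun b hb => ?_) fun b hb c hc h => ?_
    · rw [mem_coe, mem_product, mem_insert, mem_singleton] at hb
      obtain ⟨g, h3, -, h4⟩ := hv _ hb.2
      obtain ⟨h5, -, h6⟩ := mem_filter.1 hb.2
      have h7 : b.1 * b.1 = -p.r := by
        rcases hb.1 with h | h <;> rw [h, hw]
        ring
      refine mem_coe.2 (Card.mem_Xq.2 ⟨rfl, hq, h1, mem_range.1 (mem_product.1 h5).1,
        Nat.pos_of_ne_zero fun h => hr ?_, ZMod.val_lt _, fun i => ZMod.val_lt _, ?_, h6, g, h3,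
        fun i => (h4 i).trans (ZMod.natCast_zmod_val _).symm⟩)
      · rw [(ZMod.val_eq_zero _).1 h, mul_zero] at h7
        exact neg_eq_zero.1 h7.symm
      · refine (ZMod.natCast_eq_zero_iff _ _).1 ?_
        push_cast
        rw [ZMod.natCast_zmod_val]
        linear_combination h7
    · rw [mem_coe, mem_product] at hb hc
      obtain ⟨h3, h4⟩ := Prod.mk.inj (Prod.mk.inj h).2
      obtain ⟨h5, h6⟩ := Prod.mk.inj h4
      obtain ⟨-, -, h7, -⟩ := hv _ hb.2
      obtain ⟨-, -, h8, -⟩ := hv _ hc.2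
      refine Prod.ext (ZMod.val_injective q h5) (Prod.ext h3 (Card.cast_inj
        (mem_range.1 (mem_product.1 (mem_filter.1 hb.2).1).2)
        (mem_range.1 (mem_product.1 (mem_filter.1 hc.2).1).2) ?_))
      rw [← h7, ← h8]
      exact ZMod.val_injective q (congrFun h6 _)

end Pool.Agent.P.MP_b8021b_nt.VC
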