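import Pool.Agent.P.MP_b8021b_nt.VC.StH

/-! A character adjacent to two independent fields is induced. -/

namespace Pool.Agent.P.MP_b8021b_nt.VC

open Polynomial NumberField Finset Pool.Agent.P.MP_b8021b_nt.VE
open scoped Classical ComplexConjugate

namespace Cls1

lemma sep_mul {P : ℤ[X]} {M M' : ℕ} (h : Sep P M) (hM : M ∣ M') : Sep P M' := by
  obtain ⟨c, rfl⟩ := hM
  obtain ⟨a, b, hab⟩ := h
  refine ⟨a * C (c : ℤ), b * C (c : ℤ), ?_⟩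
  rw [Nat.cast_mul, C_mul, ← hab]
  ring

variable {k : Type} [Field k] [NumberField k] [Algebra k ℂ] {K : BF k} {L : Type} [Field L]
  [NumberField L] [Algebra k L] {e : ℕ} {P : ℤ[X]} {M : ℕ} {θ : 𝓞 L}

lemma root (h : NF K e P M θ) : aeval (θ : L) P = 0 := by
  have := congrArg (algebraMap (𝓞 L) L) h.root
  rwa [← aeval_algebraMap_apply, map_zero] at this

lemma adj (h : NF K e P M θ) : Algebra.adjoin k {(θ : L)} = ⊤ := by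
  have hi : IsIntegral k (θ : L) := Algebra.IsIntegral.isIntegral _
  have h1 : P.map (Int.castRingHom k) = minpoly k (θ : L) := by
    refine minpoly.eq_of_irreducible_of_monic h.irr ?_ (h.monic.map _)
    have := root h
    rwa [← aeval_map_algebraMap k] at this
  have h2 : Module.finrank k (IntermediateField.adjoin k {(θ : L)}) = Module.finrank k L := by
    rw [IntermediateField.adjoin.finrank hi, ← h1, h.monic.natDegree_map, h.deg, h.fin]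
  have h3 : IntermediateField.adjoin k {(θ : L)} = ⊤ :=
    IntermediateField.eq_of_le_of_finrank_eq le_top (by rw [h2, IntermediateField.finrank_top'])
  rw [← IntermediateField.adjoin_simple_toSubalgebra_of_isAlgebraic hi.isAlgebraic, h3]
  rfl

lemma two_le (h : NF K e P M θ) {n : ℕ} (hM : M ∣ n) (hn : n ≠ 0) : 2 ≤ n := by
  have h1 : (2 : ℤ) ∣ (n : ℤ) :=
    ((dvd_mul_right 2 K.D).trans h.dvd).trans (Int.natCast_dvd_natCast.2 hM)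
  omega

lemma unram (hUnr : S_Unr) (h : NF K e P M θ) (l : ℕ) (hl : l.Prime) (hlM : ¬ l ∣ M) :
    Unram L l :=
  (hUnr.2.2 k L P M θ h.monic h.sep (root h) (adj h)).2 l hl hlM
    (hUnr.1 k K.toIQ l hl fun hd => hlM (Int.natCast_dvd_natCast.1 (hd.trans h.dvd)))

lemma exists_over (hKD : S_KD) (h : NF K e P M θ) (𝔭 : Ideal (𝓞 k))
    (hq : (Ideal.absNorm 𝔭).Prime) (hM : ¬ Ideal.absNorm 𝔭 ∣ M)
    (hr : 0 < rts P (Ideal.absNorm 𝔭)) :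
    ∃ 𝔓 : Ideal (𝓞 L), Ideal.absNorm 𝔓 = Ideal.absNorm 𝔭 ∧ Ideal.relNorm (𝓞 k) 𝔓 = 𝔭 := by
  have h1 := (((hKD k L _ hq).2 𝔭 rfl).2.2 P M θ h.monic h.sep hM (root h) (adj h)).1 h.irr
  exact Set.nonempty_of_ncard_ne_zero (s := Over L _ 𝔭) (by omega)

lemma relNorm_act {N : Type} [Field N] [NumberField N] [Algebra k N] (σ : N ≃ₐ[k] N)
    (I : Ideal (𝓞 N)) :
    Ideal.relNorm (𝓞 k) (act (σ : N →+* N) I) = Ideal.relNorm (𝓞 k) I :=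
  Ideal.relNorm_map_algEquiv (RingOfIntegers.mapAlgEquiv σ) I

lemma isH_pow (hBCN : S_BCN) (K : BF k) {n : ℕ} (hn : 2 ≤ n) {κ : Emb k L → ℤ} {τ : Emb k L → ℝ}
    {χ : Ideal (𝓞 L) →* ℂ} (h : IsH k n κ τ χ) (i : ℕ) :
    ∃ κ' τ', IsH k n κ' τ' (χ ^ (i + 1)) := by
  induction i with
  | zero => exact ⟨κ, τ, by rwa [zero_add, pow_one]⟩
  | succ i ih =>
    obtain ⟨κ', τ', h'⟩ := ih
    rw [pow_succ]
    exact ⟨_, _, ((hBCN.2 k K L n _ _ _ hn h').2.2.2.1 n _ _ _ (by omega) h).2 rfl⟩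

/-- two characters that agree where one of two independent polynomials has a root are equal -/
lemma eq_of (hUnr : S_Unr) (hBCN : S_BCN) (hTH2 : S_TH2) {L₁ L₂ : Type} [Field L₁]
    [NumberField L₁] [Algebra k L₁] [Field L₂] [NumberField L₂] [Algebra k L₂] {P₁ P₂ : ℤ[X]}
    {M₁ M₂ : ℕ} {θ₁ : 𝓞 L₁} {θ₂ : 𝓞 L₂} (h₁ : NF K e P₁ M₁ θ₁) (h₂ : NF K e P₂ M₂ θ₂)
    (w₁ : Wit P₁ M) (w₂ : Wit P₂ (M * M₁)) (hL : ∀ l : ℕ, l.Prime → ¬ l ∣ M → Unram L l)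
    {n m : ℕ} (hn : 2 ≤ n) (hm : m ≠ 0) {κ κ' : Emb k L → ℤ} {τ τ' : Emb k L → ℝ}
    {ψ ψ' : Ideal (𝓞 L) →* ℂ} (h : IsH k n κ τ ψ) (h' : IsH k n κ' τ' ψ')
    (hyp : ∀ 𝔭 : Ideal (𝓞 L), (Ideal.absNorm 𝔭).Prime → ¬ Ideal.absNorm 𝔭 ∣ m →
      0 < rts P₁ (Ideal.absNorm 𝔭) ∨ 0 < rts P₂ (Ideal.absNorm 𝔭) → ψ 𝔭 = ψ' 𝔭) (I : Ideal (𝓞 L)) :
    ψ I = ψ' I := by
  obtain ⟨l₁, p₁, d₁, e₁⟩ := w₁
  obtain ⟨l₂, p₂, d₂, e₂⟩ := w₂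
  have hc := hBCN.2 k K L n _ _ _ hn h'
  have hω := ((hBCN.2 k K L n _ _ _ hn h).2.2.2.1 n _ _ _ (by omega) hc.2.1).2 rfl
  have hone : ∀ J, Cop n J → ψ' J * conj (ψ' J) = 1 := fun J hJ => by
    rw [Complex.mul_conj, Complex.normSq_eq_norm_sq, h'.norm_cop J hJ]
    simp
  have h3 := h₁.h3
  have htr := hTH2 k K L P₁ P₂ (M₁ * M₂) n (m * n) _ _ _ h₁.monic h₂.monic (h₁.deg ▸ h₁.he)
    (h₂.deg.trans h₁.deg.symm) (mul_ne_zero h₁.M0 h₂.M0) (sep_mul h₁.sep (dvd_mul_right _ _))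
    (sep_mul h₂.sep (dvd_mul_left _ _))
    (hUnr.2.1 L l₁ P₁ p₁ h₁.monic (by rw [h₁.deg]; omega) (hL l₁ p₁ d₁) e₁)
    (fun E₁ _ _ _ θ' r a => hUnr.2.1 E₁ l₂ P₂ p₂ h₂.monic (by rw [h₂.deg]; omega)
      ((hUnr.2.2 L E₁ P₁ M₁ θ' h₁.monic h₁.sep r a).2 l₂ p₂
        (fun d => d₂ (d.mul_left _)) (hL l₂ p₂ fun d => d₂ (d.mul_right _))) e₂)
    hn (mul_ne_zero hm (by omega)) hω fun 𝔭 hq hd hr => by
      have h4 : Cop n 𝔭 :=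
        (hc.1 𝔭).2 ((Nat.Prime.coprime_iff_not_dvd hq).2 fun d => hd (d.mul_left _))
      change ψ 𝔭 * conj (ψ' 𝔭) = 1
      rw [hyp 𝔭 hq (fun d => hd (d.mul_right _)) hr, hone 𝔭 h4]
  by_cases hI : Cop n I
  · have h4 : ψ I * conj (ψ' I) = 1 := htr I hI
    have h5 := hone I hI
    have h6 : conj (ψ' I) ≠ 0 := right_ne_zero_of_mul (h5.trans_ne one_ne_zero)
    exact mul_right_cancel₀ h6 (h4.trans h5.symm)
  · rw [h.zero I hI, h'.zero I hI]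

end Cls1

open Cls1 in
theorem p_cls1 (hKD : S_KD) (hUnr : S_Unr) (hBCN : S_BCN) (hTH2 : S_TH2) (hSpl : S_Spl) (hDesc : S_Desc) : S_Cls1 := by
  intro k _ _ _ K L L₁ L₂ _ _ _ _ _ _ _ _ _ e P P₁ P₂ M M₁ M₂ n m₁ m₂ θ θ₁ θ₂ κ τ χ χ₁ χ₂
    h h₁ h₂ hM hn0 hm₁ hm₂ hχ a₁ a₂ w₁ w₂
  have hn := two_le h hM hn0
  have hm : m₁ * M₁ * (m₂ * M₂) ≠ 0 :=
    mul_ne_zero (mul_ne_zero hm₁ h₁.M0) (mul_ne_zero hm₂ h₂.M0)
  have key : ∀ 𝔭 : Ideal (𝓞 k), (Ideal.absNorm 𝔭).Prime →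
      ¬ Ideal.absNorm 𝔭 ∣ m₁ * M₁ * (m₂ * M₂) →
      0 < rts P₁ (Ideal.absNorm 𝔭) ∨ 0 < rts P₂ (Ideal.absNorm 𝔭) →
      ∃ c : ℂ, (∀ A : Ideal (𝓞 L), Ideal.relNorm (𝓞 k) A = 𝔭 → χ A = c) ∧
        χ (𝔭.map (algebraMap (𝓞 k) (𝓞 L))) = c ^ e := by
    intro 𝔭 hq hd hr
    rcases hr with hr | hr
    · obtain ⟨𝔓, b1, b2⟩ := exists_over hKD h₁ 𝔭 hq
        (fun d => hd ((d.mul_left _).mul_right _)) hr
      have := a₁ 𝔓 (b1 ▸ hq) (b1 ▸ fun d => hd ((d.mul_right _).mul_right _))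
      rw [b2, h.fin] at this
      exact ⟨_, this⟩
    · obtain ⟨𝔓, b1, b2⟩ := exists_over hKD h₂ 𝔭 hq
        (fun d => hd ((d.mul_left _).mul_left _)) hr
      have := a₂ 𝔓 (b1 ▸ hq) (b1 ▸ fun d => hd ((d.mul_right _).mul_left _))
      rw [b2, h.fin] at this
      exact ⟨_, this⟩
  obtain ⟨N, _, _, _, _, _, -, hN, hU⟩ := hSpl k K L e P M θ h
  have hc := hBCN.2 k K L n _ _ _ hn hχ
  refine hDesc k K L N e P M n θ κ τ χ h hN hM hn0 hχ (fun σ I => ?_) fun I => ?_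
  · have hψ := hc.2.2.2.2.2.2 N
    obtain ⟨χ', b1, b2⟩ := (hBCN.2 k K N n _ _ _ hn hψ).2.2.2.2.2.1 σ
    rw [← b1]
    refine eq_of hUnr hBCN hTH2 h₁ h₂ w₁ w₂ hU hn hm b2 hψ (fun 𝔭 hq hd hr => ?_) I
    rw [← Ideal.absNorm_relNorm (𝓞 k)] at hq hd hr
    obtain ⟨c, c1, -⟩ := key _ hq hd hr
    rw [b1]
    exact (c1 (Ideal.relNorm (𝓞 L) (act (σ : N →+* N) 𝔭))
      (by rw [Ideal.relNorm_relNorm, relNorm_act])).trans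
      (c1 (Ideal.relNorm (𝓞 L) 𝔭) (by rw [Ideal.relNorm_relNorm])).symm
  · have hψ := (hBCN.2 k K k n _ _ _ hn hc.2.2.1).2.2.2.2.2.2 L
    obtain ⟨i, rfl⟩ : ∃ i, e = i + 1 := ⟨e - 1, by have := h.h3; omega⟩
    obtain ⟨κ', τ', hp⟩ := isH_pow hBCN K hn hχ i
    refine eq_of hUnr hBCN hTH2 h₁ h₂ w₁ w₂ (unram hUnr h) hn hm hp hψ (fun 𝔭 hq hd hr => ?_) I
    rw [← Ideal.absNorm_relNorm (𝓞 k)] at hq hd hr
    obtain ⟨c, c1, c2⟩ := key _ hq hd hr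
    rw [MonoidHom.pow_apply, c1 𝔭 rfl]
    exact c2.symm

end Pool.Agent.P.MP_b8021b_nt.VC
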