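import Mathlib

/-! The compositum of two fields of the same degree. -/

namespace Pool.Agent.P.MP_b8021b_nt.VC.Cls2

open Polynomial Module
open scoped IntermediateField

section

variable {E E' : Type} [Field E] [Field E'] [Algebra E E']

theorem aeval_map_int (P : ℤ[X]) (θ : E') : aeval θ (P.map (Int.castRingHom E)) = aeval θ P := by
  rw [← algebraMap_int_eq, aeval_map_algebraMap]

theorem map_map_int (P : ℤ[X]) :
    (P.map (Int.castRingHom E)).map (algebraMap E E') = P.map (Int.castRingHom E') := by
  rw [Polynomial.map_map]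
  congr 1
  exact RingHom.ext_int _ _

theorem minpoly_eq {P : ℤ[X]} {θ : E'} (hm : P.Monic)
    (hi : Irreducible (P.map (Int.castRingHom E))) (h0 : aeval θ P = 0) :
    minpoly E θ = P.map (Int.castRingHom E) :=
  (minpoly.eq_of_irreducible_of_monic hi ((aeval_map_int P θ).trans h0) (hm.map _)).symm

theorem deg_le [FiniteDimensional E E'] {P : ℤ[X]} {θ : E'} (hm : P.Monic)
    (hi : Irreducible (P.map (Int.castRingHom E))) (h0 : aeval θ P = 0) :
    P.natDegree ≤ finrank E E' := by
  have := minpoly.natDegree_le (A := E) θ
  rwa [minpoly_eq hm hi h0, hm.natDegree_map] at this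

theorem adj_top [FiniteDimensional E E'] {P : ℤ[X]} {θ : E'} (hm : P.Monic)
    (hi : Irreducible (P.map (Int.castRingHom E))) (h0 : aeval θ P = 0)
    (hd : finrank E E' = P.natDegree) : Algebra.adjoin E {θ} = ⊤ := by
  have h : E⟮θ⟯ = ⊤ := by
    rw [Field.primitive_element_iff_minpoly_natDegree_eq, minpoly_eq hm hi h0, hm.natDegree_map, hd]
  rw [← IntermediateField.adjoin_simple_toSubalgebra_of_isAlgebraic
    (Algebra.IsAlgebraic.isAlgebraic θ), h, IntermediateField.top_toSubalgebra]

theorem irr_of_top [FiniteDimensional E E'] {P : ℤ[X]} {θ : E'} (hm : P.Monic)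
    (h0 : aeval θ P = 0) (hd : finrank E E' = P.natDegree) (ht : Algebra.adjoin E {θ} = ⊤) :
    Irreducible (P.map (Int.castRingHom E)) := by
  have hint : IsIntegral E θ := IsIntegral.of_finite E θ
  have h1 : (minpoly E θ).natDegree = finrank E E' := (PowerBasis.ofAdjoinEqTop hint ht).finrank.symm
  have h2 := minpoly.dvd E θ ((aeval_map_int P θ).trans h0)
  rw [eq_of_monic_of_dvd_of_natDegree_le (minpoly.monic hint) (hm.map _) h2
    (by rw [hm.natDegree_map, h1, hd])]
  exact minpoly.irreducible hint

end

/-- the compositum -/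
theorem exists_comp {k L L' : Type} [Field k] [Field L] [Field L'] [NumberField L] [Algebra k L]
    [Algebra k L'] [FiniteDimensional k L] [FiniteDimensional k L'] {P' : ℤ[X]} {θ : L} {θ' : L'}
    (hm : P'.Monic) (hk : Irreducible (P'.map (Int.castRingHom k)))
    (hL : Irreducible (P'.map (Int.castRingHom L))) (h0 : aeval θ' P' = 0)
    (hd : finrank k L' = P'.natDegree) (ht : Algebra.adjoin k {θ} = ⊤) :
    ∃ (N : Type) (_ : Field N) (_ : NumberField N) (_ : Algebra k N) (_ : Algebra L N)
      (_ : Algebra L' N) (_ : IsScalarTower k L N) (_ : IsScalarTower k L' N),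
      finrank L N = P'.natDegree ∧ finrank L' N = finrank k L ∧
        Algebra.adjoin L' {algebraMap L N θ} = ⊤ := by
  have : Fact (Irreducible (P'.map (Int.castRingHom L))) := ⟨hL⟩
  let N := AdjoinRoot (P'.map (Int.castRingHom L))
  let pb : PowerBasis L N := AdjoinRoot.powerBasis hL.ne_zero
  have : Module.Finite L N := pb.finite
  have h1 : finrank L N = P'.natDegree := by
    rw [pb.finrank, AdjoinRoot.powerBasis_dim, hm.natDegree_map]
  have hr : aeval (AdjoinRoot.root (P'.map (Int.castRingHom L)) : N)
      (P'.map (Int.castRingHom k)) = 0 := by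
    rw [← aeval_map_algebraMap L, map_map_int, AdjoinRoot.aeval_eq, AdjoinRoot.mk_self]
  let pb' := PowerBasis.ofAdjoinEqTop (IsIntegral.of_finite k θ') (adj_top hm hk h0 hd)
  let f : L' →ₐ[k] N := pb'.lift (AdjoinRoot.root _) (by
    rw [PowerBasis.ofAdjoinEqTop_gen, minpoly_eq hm hk h0, hr])
  have hf : f θ' = AdjoinRoot.root _ := pb'.lift_gen _ _
  let : Algebra L' N := f.toRingHom.toAlgebra
  have : IsScalarTower k L' N := IsScalarTower.of_algebraMap_eq fun a => (f.commutes a).symm
  refine ⟨N, inferInstance, NumberField.of_module_finite L N, inferInstance, inferInstance,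
    inferInstance, inferInstance, inferInstance, h1, ?_, ?_⟩
  · have a1 := finrank_mul_finrank k L N
    have a2 := finrank_mul_finrank k L' N
    rw [h1, ← a2, hd, mul_comm] at a1
    exact (Nat.eq_of_mul_eq_mul_left (hd ▸ finrank_pos) a1).symm
  · have a1 : ∀ a : L, algebraMap L N a ∈ Algebra.adjoin L' {algebraMap L N θ} := fun a => by
      have ha : a ∈ Algebra.adjoin k {θ} := ht ▸ Algebra.mem_top
      induction ha using Algebra.adjoin_induction with
      | mem x hx => exact Algebra.subset_adjoin (congrArg _ hx)
      | algebraMap r =>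
        rw [← IsScalarTower.algebraMap_apply, IsScalarTower.algebraMap_apply k L' N]
        exact Subalgebra.algebraMap_mem _ _
      | add x y _ _ hx hy => rw [map_add]; exact add_mem hx hy
      | mul x y _ _ hx hy => rw [map_mul]; exact mul_mem hx hy
    refine eq_top_iff.2 fun a _ => ?_
    have ha : a ∈ Algebra.adjoin L {(AdjoinRoot.root (P'.map (Int.castRingHom L)) : N)} :=
      AdjoinRoot.adjoinRoot_eq_top (f := P'.map (Int.castRingHom L)) ▸ Algebra.mem_top
    induction ha using Algebra.adjoin_induction with
    | mem x hx =>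
      rw [Set.mem_singleton_iff.1 hx, ← hf]
      exact Subalgebra.algebraMap_mem _ θ'
    | algebraMap r => exact a1 r
    | add x y _ _ hx hy => exact add_mem (hx trivial) (hy trivial)
    | mul x y _ _ hx hy => exact mul_mem (hx trivial) (hy trivial)

/-- the polynomial does not split in the compositum -/
theorem not_splits {k L N S : Type} [Field k] [Field L] [Field N] [Field S] [Algebra k L]
    [Algebra k N] [Algebra k S] [Algebra L S] [IsScalarTower k L S] [FiniteDimensional k N]
    {P P' : ℤ[X]} [IsSplittingField k S (P.map (Int.castRingHom k))] {θ' : N} (hm : P'.Monic)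
    (hS : Irreducible (P'.map (Int.castRingHom S))) (h0 : aeval θ' P' = 0)
    (hd : finrank k N = finrank k L * P'.natDegree)
    (hn : ¬ (P.map (Int.castRingHom L)).Splits) : ¬ (P.map (Int.castRingHom N)).Splits := by
  intro h
  let f : S →ₐ[k] N := IsSplittingField.lift S (P.map (Int.castRingHom k))
    (by rwa [map_map_int])
  let : Algebra S N := f.toRingHom.toAlgebra
  have : IsScalarTower k S N := IsScalarTower.of_algebraMap_eq fun a => (f.commutes a).symm
  have : FiniteDimensional S N := Module.Finite.of_restrictScalars_finite k S N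
  have : FiniteDimensional k S := IsSplittingField.finiteDimensional S (P.map (Int.castRingHom k))
  have : FiniteDimensional L S := Module.Finite.of_restrictScalars_finite k L S
  have : FiniteDimensional k L := Module.Finite.left k L S
  have a1 := deg_le hm hS h0
  have a2 := finrank_mul_finrank k S N
  have a3 := finrank_mul_finrank k L S
  have a4 : 0 < finrank k L := finrank_pos
  have a5 : 0 < finrank L S := finrank_pos
  have a6 : 0 < finrank S N := finrank_pos
  have a7 : finrank L S = 1 := by
    rw [← a3, hd, mul_assoc] at a2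
    have := Nat.eq_of_mul_eq_mul_left a4 a2
    nlinarith
  have a8 : (P.map (Int.castRingHom S)).Splits := by
    rw [← map_map_int (E := k)]
    exact IsSplittingField.splits S _
  refine hn (Splits.of_splits_map_of_injective (algebraMap L S).injective
    (by rwa [map_map_int]) fun a _ => ?_)
  have : a ∈ (⊥ : Subalgebra L S) := Subalgebra.bot_eq_top_of_finrank_eq_one a7 ▸ Algebra.mem_top
  exact Algebra.mem_bot.1 this

end Pool.Agent.P.MP_b8021b_nt.VC.Cls2
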