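import Pool.Agent.P.MP_b8021b_nt.VC.StH
import Pool.Agent.P.MP_b8021b_nt.VC.StG
import Pool.Agent.P.MP_b8021b_nt.VC.PCls21

/-! A character adjacent to an induced character is induced. -/

namespace Pool.Agent.P.MP_b8021b_nt.VC

open Polynomial NumberField Finset Module Pool.Agent.P.MP_b8021b_nt.VE
open scoped Classical ComplexConjugate

namespace Cls2

variable {k : Type} [Field k] [NumberField k] [Algebra k ℂ] {E : Type} [Field E] [NumberField E]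
  [Algebra k E]

theorem eq_of_mul_conj {a b : ℂ} (h : a * conj b = 1) (hb : ‖b‖ = 1) : a = b := by
  have h1 : conj b * b = 1 := by rw [Complex.conj_mul', hb]; norm_num
  rw [← mul_one a, ← h1, ← mul_assoc, h, one_mul]

theorem mul_conj_one {b : ℂ} (hb : ‖b‖ = 1) : b * conj b = 1 := by
  rw [Complex.mul_conj', hb]; norm_num

omit [NumberField E] in
theorem cop_mul {a b : ℕ} {I : Ideal (𝓞 E)} : Cop (a * b) I ↔ Cop a I ∧ Cop b I := by
  unfold Cop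
  rw [Nat.cast_mul, ← Ideal.span_singleton_mul_span_singleton, IsCoprime.mul_right_iff]

theorem cop_of {n : ℕ} {I : Ideal (𝓞 E)} (h : (Ideal.absNorm I).Coprime n) : Cop n I := by
  unfold Cop
  rw [Ideal.isCoprime_iff_sup_eq, Ideal.eq_top_iff_one]
  obtain ⟨a, b, hab⟩ := Nat.isCoprime_iff_coprime.2 h
  have h1 := congrArg (Int.cast : ℤ → 𝓞 E) hab
  push_cast at h1
  rw [← h1]
  exact add_mem (Ideal.mem_sup_left (Ideal.mul_mem_left _ _ (Ideal.absNorm_mem I)))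
    (Ideal.mem_sup_right (Ideal.mul_mem_left _ _ (Ideal.subset_span rfl)))

theorem relNorm_act (σ : E ≃ₐ[k] E) (I : Ideal (𝓞 E)) :
    Ideal.relNorm (𝓞 k) (act (σ : E →+* E) I) = Ideal.relNorm (𝓞 k) I :=
  Ideal.relNorm_map_algEquiv (RingOfIntegers.mapAlgEquiv σ) I

theorem relNorm_map (I : Ideal (𝓞 k)) :
    Ideal.relNorm (𝓞 k) (I.map (algebraMap (𝓞 k) (𝓞 E))) = I ^ finrank k E := by
  rw [Ideal.relNorm_algebraMap, IsFractionRing.finrank_eq (𝓞 k) k (𝓞 E) E]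

theorem abs_rel (I : Ideal (𝓞 E)) : Ideal.absNorm (Ideal.relNorm (𝓞 k) I) = Ideal.absNorm I :=
  Ideal.absNorm_relNorm _ _ I

/-- two characters that agree at almost all primes of degree one are equal -/
theorem ext_char (hB : S_BCN) (hT : S_Triv) (K : BF k) {n m : ℕ} {κ κ' : Emb k E → ℤ}
    {τ τ' : Emb k E → ℝ} {χ χ' : Ideal (𝓞 E) →* ℂ} (hn : 2 ≤ n) (hm : m ≠ 0)
    (h : IsH k n κ τ χ) (h' : IsH k n κ' τ' χ')
    (e : ∀ I : Ideal (𝓞 E), (Ideal.absNorm I).Prime → ¬ Ideal.absNorm I ∣ m → χ I = χ' I)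
    (I : Ideal (𝓞 E)) : χ I = χ' I := by
  have h1 := (hB.2 k K E n κ' τ' χ' hn h').2.1
  have h2 := ((hB.2 k K E n κ τ χ hn h).2.2.2.1 n _ _ _ (by omega) h1).2 rfl
  have h3 := hT k K E n (m * n) _ _ _ hn (mul_ne_zero hm (by omega)) h2 fun J hJ hd => by
    change χ J * conj (χ' J) = 1
    rw [e J hJ fun h => hd (h.mul_right _)]
    exact mul_conj_one (h'.norm_cop J
      (cop_of ((Nat.Prime.coprime_iff_not_dvd hJ).2 fun h => hd (h.mul_left _))))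
  by_cases hI : Cop n I
  · exact eq_of_mul_conj (h3 I hI) (h'.norm_cop I hI)
  · rw [h.zero I hI, h'.zero I hI]

theorem isH_pow (hB : S_BCN) (K : BF k) {n : ℕ} {κ : Emb k E → ℤ} {τ : Emb k E → ℝ}
    {χ : Ideal (𝓞 E) →* ℂ} (hn : 2 ≤ n) (h : IsH k n κ τ χ) (j : ℕ) :
    ∃ κ' τ', IsH k n κ' τ' (χ ^ (j + 1)) := by
  induction j with
  | zero => exact ⟨κ, τ, by rwa [zero_add, pow_one]⟩
  | succ j ih =>
    obtain ⟨κ', τ', h'⟩ := ih
    exact ⟨_, _, by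
      rw [pow_succ]
      exact ((hB.2 k K E n κ' τ' _ hn h').2.2.2.1 n _ _ _ (by omega) h).2 rfl⟩

variable {K : BF k} {e : ℕ} {P : ℤ[X]} {M : ℕ} {θ : 𝓞 E}

theorem nf_root (h : NF K e P M θ) : aeval (θ : E) P = 0 := by
  have := aeval_algebraMap_apply E θ P
  rwa [h.root, map_zero] at this

theorem nf_top (h : NF K e P M θ) : Algebra.adjoin k {(θ : E)} = ⊤ :=
  adj_top h.monic h.irr (nf_root h) (h.fin.trans h.deg.symm)

theorem nf_two (h : NF K e P M θ) {n : ℕ} (h1 : M ∣ n) (h2 : n ≠ 0) : 2 ≤ n := by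
  have h3 : (2 : ℤ) ∣ n := ((dvd_mul_right 2 K.D).trans h.dvd).trans (Int.natCast_dvd_natCast.2 h1)
  omega

/-- a prime of degree one over a given prime -/
theorem nf_over (hKD : S_KD) (h : NF K e P M θ) {𝔭 : Ideal (𝓞 k)} (hp : (Ideal.absNorm 𝔭).Prime)
    (hM : ¬ Ideal.absNorm 𝔭 ∣ M) (hr : 0 < rts P (Ideal.absNorm 𝔭)) :
    ∃ A : Ideal (𝓞 E), Ideal.absNorm A = Ideal.absNorm 𝔭 ∧ Ideal.relNorm (𝓞 k) A = 𝔭 := by
  have h1 := (((hKD k E _ hp).2 𝔭 rfl).2.2 P M θ h.monic h.sep hM (nf_root h) (nf_top h)).1 h.irr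
  exact Set.nonempty_of_ncard_ne_zero (s := Over E (Ideal.absNorm 𝔭) 𝔭) (by omega)

end Cls2

open Cls2 in
theorem p_cls2 (hKD : S_KD) (hU : S_Unr) (hB : S_BCN) (hT : S_Triv) (hTH : S_TH) (hS : S_Spl) (hD : S_Desc) : S_Cls2 := by
  intro k _ _ _ K L L' _ _ _ _ _ _ e P P' M M' n n' m θ θ' j ξ κ' τ' χ χ' h1 h2 hM hn hM' hn' hm
    hξ hI hχ' hA ⟨l, hl, hlM, hE⟩
  have n2 := nf_two h1 hM hn
  have n2' := nf_two h2 hM' hn'
  have nn2 : 2 ≤ n ^ 2 := by nlinarith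
  have nn2' : 2 ≤ n' ^ 2 := by nlinarith
  have d1 : 1 ≤ P'.natDegree := by have := h2.h3; have := h2.deg; omega
  have u1 : Unram k l := hU.1 k K.toIQ l hl fun h =>
    hlM (Int.natCast_dvd_natCast.1 (h.trans h1.dvd))
  have u2 : Unram L l :=
    (hU.2.2 k L P M θ h1.monic h1.sep (nf_root h1) (nf_top h1)).2 l hl hlM u1
  obtain ⟨N, _, _, _, _, _, _, _, c1, c2, c3⟩ := exists_comp h2.monic h2.irr
    (hU.2.1 L l P' hl h2.monic d1 u2 hE) (nf_root h2) (h2.fin.trans h2.deg.symm) (nf_top h1)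
  have r1 : aeval (algebraMap L N θ) P = 0 := by
    rw [aeval_algebraMap_apply, nf_root h1, map_zero]
  have r2 : aeval (algebraMap L' N θ') P' = 0 := by
    rw [aeval_algebraMap_apply, nf_root h2, map_zero]
  have c4 : finrank L' N = P.natDegree := c2.trans (h1.fin.trans h1.deg.symm)
  obtain ⟨S, _, _, _, _, _, -, s1, s2⟩ := hS k K L e P M θ h1
  have ns := not_splits (k := k) (S := S) h2.monic
    (hU.2.1 S l P' hl h2.monic d1 (s2 l hl hlM) hE) r2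
    (by rw [← c1, finrank_mul_finrank]) h1.nsplit
  have cp : ∀ {q a : ℕ}, q.Prime → ¬ q ∣ a → q.Coprime a := fun hq h =>
    (Nat.Prime.coprime_iff_not_dvd hq).2 h
  -- the character is induced away from `n n'`
  have x1 := (hB.2 k K k _ _ _ ξ nn2 hξ).2.2.2.2.2.2 L'
  have x2 := (hB.2 k K L' _ _ _ _ nn2 x1).2.1
  have x3 := ((hB.2 k K L' _ _ _ _ n2' hχ').2.2.2.1 _ _ _ _ (by omega) x2).1
  have t1 := hTH k K L' N P M _ (m * n) _ _ _ _ h1.monic (h1.deg ▸ h1.he) h1.M0 h1.sep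
    (irr_of_top h1.monic r1 c4 c3) r1 c4 ns (by nlinarith) (mul_ne_zero hm hn) x3
    fun 𝔭 hp hd hr => by
      have q1 := abs_rel (k := k) 𝔭
      have q2 : ¬ Ideal.absNorm 𝔭 ∣ n := fun h => hd (h.mul_left _)
      obtain ⟨A, a1, a2⟩ := nf_over hKD h1 (𝔭 := Ideal.relNorm (𝓞 k) 𝔭) (q1 ▸ hp)
        (q1 ▸ fun h => q2 (h.trans hM)) (q1 ▸ hr)
      change χ' 𝔭 * conj (ξ (Ideal.relNorm (𝓞 k) 𝔭)) = 1
      rw [← (hA 𝔭 hp fun h => hd (h.mul_right _)).1 A a2,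
        hI A (cop_of (by rw [a1, q1]; exact cp hp q2)), a2]
      exact mul_conj_one (hξ.norm_cop _ (cop_of (by rw [q1]; exact (cp hp q2).pow_right 2)))
  have t2 : ∀ I : Ideal (𝓞 L'), (Ideal.absNorm I).Coprime (n * n') →
      χ' I = ξ (Ideal.relNorm (𝓞 k) I) := fun I h => by
    have a1 := (Nat.Coprime.coprime_mul_right_right h).pow_right 2
    exact eq_of_mul_conj (t1 I (cop_of ((Nat.Coprime.coprime_mul_left_right h).mul_right a1)))
      (hξ.norm_cop _ (cop_of (by rwa [abs_rel])))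
  -- descent
  obtain ⟨S', _, _, _, _, _, -, s3, -⟩ := hS k K L' e P' M' θ' h2
  have y1 := (hB.2 k K L' _ _ _ _ n2' hχ').2.2.2.2.2.2 S'
  have y2 : ∀ I : Ideal (𝓞 S'), (Ideal.absNorm I).Coprime (n * n') →
      nrm S' χ' I = ξ (Ideal.relNorm (𝓞 k) I) := fun I h => by
    change χ' (Ideal.relNorm (𝓞 L') I) = _
    rw [t2 _ (by rwa [Ideal.absNorm_relNorm]), Ideal.relNorm_relNorm]
  obtain ⟨j', ξ', hξ', hI'⟩ := hD k K L' S' e P' M' n' θ' κ' τ' χ' h2 s3 hM' hn' hχ'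
    (fun σ I => by
      obtain ⟨ψ, e1, e2⟩ := (hB.2 k K S' _ _ _ _ n2' y1).2.2.2.2.2.1 σ
      rw [← e1]
      refine ext_char hB hT K n2' (mul_ne_zero hn hn') e2 y1 (fun J hJ hd => ?_) I
      rw [e1, y2 J (cp hJ hd), y2, relNorm_act]
      rw [← abs_rel (k := k), relNorm_act, abs_rel]
      exact cp hJ hd)
    (fun I => by
      obtain ⟨e', rfl⟩ : ∃ e', e = e' + 1 := ⟨e - 1, by have := h2.h3; omega⟩
      obtain ⟨κ₁, τ₁, e1⟩ := isH_pow hB K n2' hχ' e'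
      have e2 := (hB.2 k K k _ _ _ _ n2' (hB.2 k K L' _ _ _ _ n2' hχ').2.2.1).2.2.2.2.2.2 L'
      refine ext_char hB hT K n2' (mul_ne_zero hn hn') e1 e2 (fun J hJ hd => ?_) I
      change χ' J ^ (e' + 1) = χ' ((Ideal.relNorm (𝓞 k) J).map (algebraMap (𝓞 k) (𝓞 L')))
      rw [t2 J (cp hJ hd), t2, relNorm_map, h2.fin, map_pow]
      rw [← abs_rel (k := k), relNorm_map, map_pow, abs_rel]
      exact (cp hJ hd).pow_left _)
  refine ⟨j', ξ', hξ', hI', fun I hI0 => ?_⟩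
  have z1 := (hB.2 k K k _ _ _ ξ nn2 hξ).2.1
  have z2 := ((hB.2 k K k _ _ _ _ nn2' hξ').2.2.2.1 _ _ _ _ (by omega) z1).1
  have t3 := hTH k K k L' P' M' _ (n * n') θ' _ _ _ h2.monic (h2.deg ▸ h2.he) h2.M0 h2.sep h2.irr
    (nf_root h2) (h2.fin.trans h2.deg.symm) h2.nsplit (by nlinarith) (mul_ne_zero hn hn') z2
    fun 𝔭 hp hd hr => by
      obtain ⟨A, a1, a2⟩ := nf_over hKD h2 hp (fun h => hd ((h.trans hM').mul_left _)) hr
      have a3 := cp hp hd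
      change ξ' 𝔭 * conj (ξ 𝔭) = 1
      have a4 := hI' A (cop_of (by rw [a1]; exact Nat.Coprime.coprime_mul_left_right a3))
      rw [t2 A (by rwa [a1]), a2] at a4
      rw [← a4]
      exact mul_conj_one (hξ.norm_cop _
        (cop_of ((Nat.Coprime.coprime_mul_right_right a3).pow_right 2)))
  obtain ⟨b1, b2⟩ := cop_mul.1 hI0
  have b3 : Cop (n ^ 2) I := by rw [sq]; exact cop_mul.2 ⟨b1, b1⟩
  have b4 : Cop (n' ^ 2) I := by rw [sq]; exact cop_mul.2 ⟨b2, b2⟩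
  exact eq_of_mul_conj (t3 I (cop_mul.2 ⟨b4, b3⟩)) (hξ.norm_cop I b3)

end Pool.Agent.P.MP_b8021b_nt.VC
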