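import Pool.Agent.P.MP_b8021b_nt.VC.PCos3
import Pool.Agent.P.MP_b8021b_nt.VC.StT

/-! Equidistribution of products of primes in one coset. -/

namespace Pool.Agent.P.MP_b8021b_nt.VC

open NumberField Finset MeasureTheory Pool.Agent.P.MP_b8021b_nt.VE
open scoped Classical ComplexConjugate

noncomputable section

namespace Cos

variable {k : Type} [Field k] [NumberField k] [Algebra k ℂ] {E : Type} [Field E] [NumberField E]
  [Algebra k E] {n : ℕ} {ℓ : ℝ} (U : UB k E n ℓ) {u N : ℕ}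

omit [NumberField k] in
lemma Wan_eq (w : ℕ → ℝ) (y : ℝ) (𝔞 : Ideal (𝓞 E)) (α : 𝓞 E) :
    Wan w y N u 𝔞 α = ∑ m ∈ range (u * N + 1), ∑ i ∈ VE.Cos.fib u N m, Wi w y i 𝔞 α := by
  unfold Wan
  rw [VE.Cos.sum_fib, VE.Cos.sum_Pset]
  refine sum_congr rfl fun i _ => sum_congr rfl fun q _ => ?_
  congr 1
  have : {I : Fin u → Ideal (𝓞 E) | (∀ j, Ideal.absNorm (I j) = q j) ∧
      Ideal.span {α} = 𝔞 * ∏ j, I j} = ((Fintype.piFinset fun j => VE.Cos.T E (q j)).filter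
        fun I => Ideal.span {α} = 𝔞 * ∏ j, I j : Finset _) := by
    ext I
    simp [VE.Cos.mem_T]
  rw [this, Set.ncard_coe_finset, card_filter]
  push_cast
  rfl

lemma lv_le {a : 𝓞 E} (h0 : a ≠ 0) (h : Cmp k a) : ‖U.lv (cx U a)‖ ≤ 3 := by
  refine (pi_norm_le_iff_of_nonneg (by norm_num)).2 fun φ => ?_
  have k1 : ∀ φ ψ, lg (emb k a) φ - lg (emb k a) ψ ≤ 3 := fun φ ψ => by
    have h1 := norm_pos_iff.2 (emb_ne h0 φ)
    have h2 := norm_pos_iff.2 (emb_ne h0 ψ)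
    have h3 := Real.log_le_log h1 (h φ ψ)
    rw [Real.log_mul (by norm_num) h2.ne'] at h3
    have h4 := Real.log_le_sub_one_of_pos (show (0 : ℝ) < 3 by norm_num)
    simp only [lg]
    linarith
  have e : lg (emb k a) φ - (∑ ψ, lg (emb k a) ψ) / (U.m + 1) =
      (∑ ψ, (lg (emb k a) φ - lg (emb k a) ψ)) / (U.m + 1) := by
    rw [sum_sub_distrib, sum_const, card_univ, card_emb U, nsmul_eq_mul]
    push_cast
    field_simp
  rw [cx, lv_co, e, Real.norm_eq_abs, abs_div, abs_of_pos (by positivity : (0 : ℝ) < U.m + 1),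
    div_le_iff₀ (by positivity)]
  refine (abs_sum_le_sum_abs _ _).trans ((sum_le_card_nsmul _ _ 3 fun ψ _ => abs_le.2
    ⟨by linarith [k1 ψ φ], k1 φ ψ⟩).trans_eq ?_)
  rw [card_univ, card_emb U, nsmul_eq_mul]
  push_cast
  ring

lemma red_of {a : 𝓞 E} (h : ‖U.lv (cx U a)‖ ≤ 3) : Red U a := fun j => by
  have := (norm_le_pi_norm _ j).trans (U.small (U.lv (cx U a)))
  rw [co_lv, Real.norm_eq_abs, abs_le] at this
  rw [round_eq_zero_iff]
  constructor <;> linarith [this.1, this.2]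

lemma core (K : BF k) (hEq : S_Eq2) (hT : S_Typ) (hP : U.Pos) (hn : 2 ≤ n) (hu : 1 ≤ u)
    (hN : 1 ≤ N) (hρ : 0 ≤ U.ρ) (hRs : 0 < Rs E n)
    (hz : ∀ a : 𝓞 E, (Ideal.absNorm (Ideal.span {a}) : ℝ) = nz (emb k a))
    (hfin : ∀ Z : ℝ, {α : 𝓞 E | U.β (emb k α) ≠ 0 ∧ nz (emb k α) ≤ Z}.Finite) {𝔞 : Ideal (𝓞 E)}
    (ha : 𝔞 ≠ ⊥) {α₀ : 𝓞 E} (h0 : UnitC n 𝔞 α₀)
    (hne : ∀ a, a - α₀ ∈ Ideal.span {(n : 𝓞 E)} * 𝔞 → a ≠ 0) {y X ε Tb μ Ω Λ δ : ℝ} (hy : 0 < y)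
    (hX0 : 0 < X) (hX : X ^ (2 * (U.m + 1)) = Ideal.absNorm 𝔞 * y ^ u) {R : ℕ} (hR : 1 ≤ R)
    (hTb : U.m * R ≤ Tb) {w : ℕ → ℝ} (hw : ∀ q ∈ Pset y N, 0 ≤ w q) (hε : ε ≤ 1)
    (h1 : ∀ i < N, ‖Sw w y N i (lam (triv E n)) - 1‖ ≤ ε)
    (h2 : ∀ 𝒴 : Finset (Ideal (𝓞 E) →* ℂ),
      (∀ χ ∈ 𝒴, χ ∈ Chs k n ((N : ℝ) ^ 2) Tb ∧ ¬ IsTriv n χ) →
        ∑ χ ∈ 𝒴, ∑ i ∈ range N, ‖Sw w y N i (lam χ)‖ ^ u ≤ ε)
    (hμ : (SS U R).card / ((R + 1 : ℕ) : ℝ) ^ Fintype.card (Fin U.m) ≤ μ) (hℓ : ℓ / √R ≤ μ / N)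
    (hc : ∀ ζ, ∃ a, a - α₀ ∈ Ideal.span {(n : 𝓞 E)} * 𝔞 ∧ ‖emb k a - ζ‖ ≤ X / N)
    (hL : ∀ (m : ℕ) (s : Finset (𝓞 E)), (∀ a, a ∈ s ↔ a - α₀ ∈ Ideal.span {(n : 𝓞 E)} * 𝔞 ∧
      Red U a ∧ Near k u N (Ideal.absNorm 𝔞 * y ^ u) m a) →
      TF2.Mom s (th k) (ch U) (N ^ 2) R
        (fun a => cnt u N m * (N / (Rs E n * y ^ u * Real.exp (m / N))) *
          tent (N * Real.log (nz (emb k a) / (Ideal.absNorm 𝔞 * y ^ u)) - m))
        (cnt u N m * U.ρ) (cnt u N m * U.ρ * (2 / N)))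
    {ω : 𝓞 E → ℝ} (hΩ : 0 ≤ Ω) (hΛ : 0 ≤ Λ) (hδ : 0 ≤ δ) (hδ' : δ ≤ 1 / N)
    (hb : ∀ α, α - α₀ ∈ Ideal.span {(n : 𝓞 E)} * 𝔞 → |ω α| ≤ Ω ∧ (ω α ≠ 0 → Cmp k α))
    (hl : ∀ α α', α - α₀ ∈ Ideal.span {(n : 𝓞 E)} * 𝔞 → α' - α₀ ∈ Ideal.span {(n : 𝓞 E)} * 𝔞 →
      |ω α - ω α'| ≤ Ω * (Λ * ‖emb k α - emb k α'‖ / X + δ)) :
    ∃ s : Finset (𝓞 E), (∀ α ∈ s, α - α₀ ∈ Ideal.span {(n : 𝓞 E)} * 𝔞 ∧ Cmp k α) ∧
      (∀ α, α - α₀ ∈ Ideal.span {(n : 𝓞 E)} * 𝔞 → Cmp k α → α ∉ s →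
        Wan w y N u 𝔞 α = 0 ∧ Lam y N u n 𝔞 α = 0) ∧
      |∑ α ∈ s, (Wan w y N u 𝔞 α - Lam y N u n 𝔞 α) * ω α| ≤
        2 * cT u U.m * (2 * 2 ^ u + 10) * Ω * (μ * (N ^ u * U.ρ)) * (ε + (1 + Λ) / N) ∧
      ∑ α ∈ s, Wan w y N u 𝔞 α ≤ (1 + 2 * U.m) * (2 ^ u + 4) * (μ * (N ^ u * U.ρ)) ∧
      ∑ α ∈ s, Lam y N u n 𝔞 α ≤ (1 + 2 * U.m) * (2 ^ u + 4) * (μ * (N ^ u * U.ρ)) := by
  obtain ⟨B, hB0, hB, hW⟩ := W_mom U K hEq hT hP hn hu hN hρ hz ha h0 hne hy hR hTb w hε h1 h2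
  have hε0 : 0 ≤ ε := (norm_nonneg _).trans (h1 0 hN)
  have hN1 : (1 : ℝ) ≤ N := by exact_mod_cast hN
  have μ0 : 0 ≤ μ := le_trans (by positivity) hμ
  set Z : ℝ := Ideal.absNorm 𝔞 * y ^ u with hZ
  have Z0 : 0 < Z := hX ▸ pow_pos hX0 _
  set p : ℕ → 𝓞 E → ℝ := fun m a => ∑ i ∈ VE.Cos.fib u N m, Wi w y i 𝔞 a with hp
  set q : ℕ → 𝓞 E → ℝ := fun m a => cnt u N m * (N / (Rs E n * y ^ u * Real.exp (m / N))) *
    tent (N * Real.log (nz (emb k a) / Z) - m) with hq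
  have p0 : ∀ m a, 0 ≤ p m a := fun m a => sum_nonneg fun i _ => Wi_nonneg hw i 𝔞 a
  have q0 : ∀ m a, 0 ≤ q m a := fun m a => mul_nonneg (by positivity) (Shell.tent_nonneg _)
  have eW : ∀ a, Wan w y N u 𝔞 a = ∑ m ∈ range (u * N + 1), p m a := Wan_eq w y 𝔞
  have eL : ∀ a, a ≠ 0 → Lam y N u n 𝔞 a = ∑ m ∈ range (u * N + 1), q m a := fun a h => by
    rw [Lam, if_neg h, hz]
  have np : ∀ m a, a ≠ 0 → p m a ≠ 0 → Near k u N Z m a := fun m a h h' => by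
    obtain ⟨i, hi, h3⟩ := exists_ne_zero_of_sum_ne_zero h'
    exact VE.Cos.mem_fib.1 hi ▸ near_Wi hz hy ha i h h3
  have nq : ∀ m a, a ≠ 0 → q m a ≠ 0 → Near k u N Z m a := fun m a h h' =>
    ⟨h, (Shell.tent_ne (right_ne_zero_of_mul h')).le.trans (by exact_mod_cast hu)⟩
  have fin : ∀ m, {a | a - α₀ ∈ Ideal.span {(n : 𝓞 E)} * 𝔞 ∧ Red U a ∧ Near k u N Z m a}.Finite := by
    refine fun m => (hfin (Z * Real.exp (m + u))).subset fun a h => ⟨prod_ne_zero_iff.2 fun j _ =>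
      (lt_max_of_lt_right ?_).ne', ?_⟩
    · linarith [show |U.co (lg (emb k a)) j| ≤ 1 / 2 from h.2.1.abs_le U j]
    · have k1 := (abs_le.1 h.2.2.2).2
      have k2 := (log_nz (k := k) h.2.2.1).1
      rw [← div_le_iff₀' Z0, ← Real.log_le_iff_le_exp (by positivity)]
      by_contra k3
      have k4 : (0 : ℝ) ≤ m + u := by positivity
      nlinarith [not_le.1 k3]
  set sm : ℕ → Finset (𝓞 E) := fun m => (fin m).toFinset with hsm
  have hs : ∀ m a, a ∈ sm m ↔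
      a - α₀ ∈ Ideal.span {(n : 𝓞 E)} * 𝔞 ∧ Red U a ∧ Near k u N Z m a := fun m a =>
    (fin m).mem_toFinset
  set s := ((range (u * N + 1)).biUnion sm).filter (Cmp k) with hsd
  have s1 : ∀ a ∈ s, a - α₀ ∈ Ideal.span {(n : 𝓞 E)} * 𝔞 ∧ Cmp k a := fun a h => by
    obtain ⟨m, -, h3⟩ := mem_biUnion.1 (mem_filter.1 h).1
    exact ⟨((hs m a).1 h3).1, (mem_filter.1 h).2⟩
  have s2 : ∀ m ∈ range (u * N + 1), ∀ a, a - α₀ ∈ Ideal.span {(n : 𝓞 E)} * 𝔞 → Cmp k a →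
      Near k u N Z m a → a ∈ s ∧ a ∈ sm m := fun m hm a h h' h'' =>
    have := (hs m a).2 ⟨h, red_of U (lv_le U h''.1 h'), h''⟩
    ⟨mem_filter.2 ⟨mem_biUnion.2 ⟨m, hm, this⟩, h'⟩, this⟩
  set Er : ℕ → ℝ := fun m => ∑ i ∈ VE.Cos.fib u N m, B i + cnt u N m * U.ρ * (2 / N) with hEr
  have b0 : ∀ m, 0 ≤ ∑ i ∈ VE.Cos.fib u N m, B i := fun m => sum_nonneg fun i _ => hB0 i
  have c0 : ∀ m : ℕ, 0 ≤ cnt u N m * U.ρ := fun m => by positivity
  have c1 : ∀ m : ℕ, 0 ≤ cnt u N m * U.ρ * (2 / N) := fun m => by positivity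
  have E0 : ∀ m, 0 ≤ Er m := fun m => add_nonneg (b0 m) (c1 m)
  have mp : ∀ m, TF2.Mom (sm m) (th k) (ch U) (N ^ 2) R (p m) (cnt u N m * U.ρ) (Er m) :=
    fun m => le_trans (hW m _ (hs m)) (le_add_of_nonneg_right (c1 m))
  have mq : ∀ m, TF2.Mom (sm m) (th k) (ch U) (N ^ 2) R (q m) (cnt u N m * U.ρ) (Er m) :=
    fun m => le_trans (hL m _ (hs m)) (le_add_of_nonneg_left (b0 m))
  set a : ℝ := N ^ u * U.ρ with had
  have a0 : 0 ≤ a := by positivity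
  have sM : ∑ m ∈ range (u * N + 1), (cnt u N m : ℝ) * U.ρ = a := by
    rw [← sum_mul, VE.Cos.sum_cnt]
  have sE : ∑ m ∈ range (u * N + 1), Er m ≤ a * ((2 ^ u + 1) * ε + 2 / N) := by
    rw [sum_add_distrib, VE.Cos.sum_fib, ← sum_mul, sM]
    linarith
  have sE' : ∑ m ∈ range (u * N + 1), (cnt u N m * U.ρ + Er m) ≤ (2 ^ u + 4) * a := by
    rw [sum_add_distrib, sM]
    have k1 : (2 ^ u + 1) * ε + 2 / (N : ℝ) ≤ 2 ^ u + 3 := by
      have := div_le_self zero_le_two hN1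
      have := mul_le_of_le_one_right (show (0 : ℝ) ≤ 2 ^ u + 1 by positivity) hε
      linarith
    linarith [mul_le_mul_of_nonneg_left k1 a0]
  have mass : ∀ r : ℕ → 𝓞 E → ℝ, (∀ m a, 0 ≤ r m a) →
      (∀ m a, a ≠ 0 → r m a ≠ 0 → Near k u N Z m a) →
      (∀ m, TF2.Mom (sm m) (th k) (ch U) (N ^ 2) R (r m) (cnt u N m * U.ρ) (Er m)) →
      ∑ α ∈ s, ∑ m ∈ range (u * N + 1), r m α ≤ (1 + 2 * U.m) * (2 ^ u + 4) * (μ * a) := by
    intro r r0 r1 r2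
    rw [sum_comm]
    refine (sum_le_sum fun m hm => le_trans ?_ (level_mass U hN hR
      (fun a h => ⟨((hs m a).1 h).2.1, ((hs m a).1 h).2.2.1⟩) (fun a _ => r0 m a) (r2 m)
      (add_nonneg (c0 m) (E0 m)) hμ hℓ)).trans ?_
    · rw [← sum_filter_ne_zero]
      refine sum_le_sum_of_subset_of_nonneg (fun a h => ?_) fun a _ _ => r0 m a
      obtain ⟨k1, k2⟩ := s1 a (mem_filter.1 h).1
      exact mem_filter.2 ⟨(s2 m hm a k1 k2 (r1 m a (hne a k1) (mem_filter.1 h).2)).2,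
        lv_le U (hne a k1) k2⟩
    · rw [← mul_sum]
      exact (mul_le_mul_of_nonneg_left sE' (by positivity)).trans_eq (by ring)
  refine ⟨s, s1, fun α h h' h'' => ⟨?_, ?_⟩, ?_, ?_, ?_⟩
  · rw [eW]
    exact sum_eq_zero fun m hm => by_contra fun h3 => h'' (s2 m hm α h h' (np m α (hne α h) h3)).1
  · rw [eL α (hne α h)]
    exact sum_eq_zero fun m hm => by_contra fun h3 => h'' (s2 m hm α h h' (nq m α (hne α h) h3)).1
  · rw [sum_congr rfl fun α h => by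
      rw [eW, eL α (hne α (s1 α h).1), ← sum_sub_distrib, sum_mul], sum_comm]
    refine (abs_sum_le_sum_abs _ _).trans ((sum_le_sum fun m hm => le_of_eq_of_le ?_
      (level U (A := {α | α - α₀ ∈ Ideal.span {(n : 𝓞 E)} * 𝔞}) (ω := ω) hN
        (Nat.lt_succ_iff.1 (mem_range.1 hm)) hR hX0 (fun a h => hX ▸ (hs m a).1 h)
        (fun a _ => p0 m a) (fun a _ => q0 m a) (mp m) (mq m) (c0 m) (E0 m) hμ hℓ hc hΩ hΛ hδ
        (fun a h => (hb a h).1) (fun a h h' => lv_le U (hne a h) ((hb a h).2 h'))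
        fun a h a' h' => hl a a' h h')).trans ?_)
    · congr 1
      rw [← sum_filter_ne_zero, ← sum_filter_ne_zero (sm m)]
      refine sum_congr (Finset.ext fun a => ?_) fun _ _ => rfl
      simp only [mem_filter]
      refine and_congr_left fun h => ⟨fun h3 => ?_, fun h3 => ?_⟩
      · obtain ⟨k1, k2⟩ := s1 a h3
        refine (s2 m hm a k1 k2 ?_).2
        by_cases h4 : p m a = 0
        · exact nq m a (hne a k1) fun h5 => left_ne_zero_of_mul h (by rw [h4, h5, sub_zero])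
        · exact np m a (hne a k1) h4
      · obtain ⟨k1, -, k2⟩ := (hs m a).1 h3
        exact (s2 m hm a k1 ((hb a k1).2 (right_ne_zero_of_mul h)) k2).1
    · rw [← mul_sum, sum_add_distrib, ← sum_mul]
      have T1 := one_le_cT u U.m
      have k1 : 1 / (N : ℝ) ≤ (1 + Λ) / N := by gcongr; linarith
      have k2 : (2 : ℝ) / N = 2 * (1 / N) := by ring
      have k3 : (0 : ℝ) < 2 ^ u := by positivity
      have k4 : 0 ≤ (1 + Λ) / N := by positivity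
      generalize (1 + Λ) / (N : ℝ) = t at k1 k4 ⊢
      calc _ ≤ 2 * cT u U.m * Ω * μ *
            (a * ((2 ^ u + 1) * ε + 2 * t) + (2 ^ u + 4) * a * (t + t)) := by
            gcongr
            · exact sE.trans (by gcongr; linarith)
            · linarith
        _ = 2 * cT u U.m * Ω * μ * a * ((2 ^ u + 1) * ε + (2 * 2 ^ u + 10) * t) := by ring
        _ ≤ 2 * cT u U.m * Ω * μ * a * ((2 * 2 ^ u + 10) * ε + (2 * 2 ^ u + 10) * t) := by
            gcongr <;> linarith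
        _ = _ := by ring
  · simp only [eW]
    exact mass p p0 np mp
  · rw [sum_congr rfl fun α h => eL α (hne α (s1 α h).1)]
    exact mass q q0 nq mq

lemma cT_mono {u d D : ℕ} (h : d ≤ D) : cT u d ≤ cT u D ∧ 1 + 2 * (d : ℝ) ≤ cT u D := by
  have h1 : (d : ℝ) ≤ D := by exact_mod_cast h
  have h2 : (0 : ℝ) ≤ d := Nat.cast_nonneg d
  have h3 : (0 : ℝ) ≤ u := Nat.cast_nonneg u
  refine ⟨by unfold cT; gcongr, le_trans (by linarith) (le_mul_of_one_le_left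
    (by positivity) (Real.one_le_exp (by positivity)))⟩

end Cos

open Cos in
theorem p_cos (hEmb : S_Emb) (hBall : S_Ball) (hUnit : S_Unit) (hPart : S_Part) (hEq : S_Eq2) (hVol : S_Vol) (hWin : S_Win2) (hTyp : S_Typ) (hNum : S_NumCh) (hPSs : S_PSs) : S_Cos := by
  intro k _ _ _ K D
  obtain ⟨cE, hE⟩ := hEmb k K D
  obtain ⟨cB, hB⟩ := hBall k K D
  obtain ⟨cU, hU⟩ := hUnit k K D
  obtain ⟨cV, hV⟩ := hVol k K D
  obtain ⟨cW, hW⟩ := hWin k K D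
  obtain ⟨cN, hNum⟩ := hNum k K D
  obtain ⟨cP, hP⟩ := hPSs k K D
  set c : ℕ := D + 1 + 2 * cU * (D + 1) with hc
  set c' : ℕ := D + (2 * c + 1) + 2 with hc'
  set a₁ : ℕ := 3 * D + (2 * c + 2) * D + (2 * D + 1 + cE + cV + 5 +
    (1 + (2 * D + 1) + 2 * cU + c') * cW) with ha₁
  refine ⟨a₁ + c' + cB + 3, by omega, fun u hu => ?_⟩
  have T1 := one_le_cT u D
  have T2 : (1 : ℝ) ≤ 2 ^ cV := one_le_pow₀ one_le_two
  have T3 : (0 : ℝ) < 2 ^ u := by positivity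
  have T4 : 2 ≤ 2 * cT u D * (2 * 2 ^ u + 10) * 2 ^ cV :=
    le_trans (by linarith [mul_le_mul_of_nonneg_right T1 (by linarith : (0 : ℝ) ≤ 2 * 2 ^ u + 10)]) (le_mul_of_one_le_right (by positivity) T2)
  refine ⟨2 * cT u D * (2 * 2 ^ u + 10) * 2 ^ cV, by linarith, ?_⟩
  intro L _ _ _ n N 𝔞 α₀ y Q X ε Ω Λ w ω hD hCM hCQ hS hn hnQ hN hNQ hy ha haQ h0 hQX hX hw _ hε hEq'
    hΩ hΛ _ hb hl
  have hQ : 2 ≤ Q := T4.trans hCQ
  have Q1 : 1 ≤ Q := by linarith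
  have Q0 : 0 < Q := by linarith
  have pw : ∀ {i j : ℕ}, i ≤ j → Q ^ i ≤ Q ^ j := fun h => pow_le_pow_right₀ Q1 h
  obtain ⟨-, e2, D1, hz, -, -, -, e3, -, e4⟩ := hE L hD
  obtain ⟨U, hPos⟩ := (hU L hD Q n hQ hS (by omega)).2 hCM
  obtain ⟨v1, v2, -, -, -, v3, -⟩ := hV L hD n _ U
  obtain ⟨Rs0, r1, -⟩ := hP L hD Q n hQ hS hn
  replace r1 := r1 _ U
  have hm : U.m + 1 = D := U.hm.trans hD
  have hm' : (U.m : ℝ) + 1 = D := by exact_mod_cast hm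
  have m0 : (0 : ℝ) ≤ U.m := Nat.cast_nonneg _
  have l1 := U.one_le
  have n0 : (0 : ℝ) < n := by exact_mod_cast (by omega : 0 < n)
  have N1 : (1 : ℝ) ≤ N := by exact_mod_cast hN
  have lQ : (Q * n) ^ cU ≤ Q ^ (2 * cU) := by
    rw [pow_mul, sq]
    gcongr
  generalize (Q * n) ^ cU = ℓ at U hPos v1 v2 v3 r1 hm hm' m0 l1 lQ
  have cov0 : 0 < cov2 k L := lt_of_lt_of_le (by positivity) e3
  have vol0 : 0 < U.vol := lt_of_lt_of_le (by positivity) v1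
  have ρ0 : 0 < U.ρ := by
    by_contra h
    have : U.ρ * (Rs L n * n ^ (2 * D) * cov2 k L) ≤ 0 :=
      mul_nonpos_of_nonpos_of_nonneg (not_lt.1 h) (by positivity)
    linarith
  have A0 : (0 : ℝ) < Ideal.absNorm 𝔞 := by
    exact_mod_cast Nat.pos_of_ne_zero fun h => ha (Ideal.absNorm_eq_zero_iff.mp h)
  have X1 : 1 ≤ X := (one_le_pow₀ Q1).trans hQX
  have nn : (Ideal.absNorm (Ideal.span {(n : 𝓞 L)}) : ℝ) = n ^ (2 * D) := by
    rw [hz, nz, pow_mul, ← hm, ← card_emb U, ← card_univ, ← prod_const]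
    exact prod_congr rfl fun φ _ => by simp [emb]
  have nu : ¬ IsUnit (n : 𝓞 L) := fun h => by
    rw [Ideal.span_singleton_eq_top.2 h, Ideal.absNorm_top, Nat.cast_one] at nn
    have : 1 < n ^ (2 * D) := Nat.one_lt_pow (by omega) (by omega)
    exact this.ne (by exact_mod_cast nn)
  have hne := fun a => coset_ne (α₀ := α₀) (a := a) nu ha h0
  have DQ : (D : ℝ) ≤ Q ^ D := (Nat.cast_le.2 Nat.lt_two_pow_self.le).trans (by
    push_cast
    gcongr)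
  set R : ℕ := ⌈Q ^ (2 * c)⌉₊ with hR
  have R1 : Q ^ (2 * c) ≤ R := Nat.le_ceil _
  have R2 : (R : ℝ) ≤ Q ^ (2 * c + 1) := by
    have h1 := Nat.ceil_lt_add_one (show 0 ≤ Q ^ (2 * c) by positivity)
    have h2 : 1 ≤ Q ^ (2 * c) := one_le_pow₀ Q1
    rw [pow_succ]
    linarith [mul_le_mul_of_nonneg_left hQ (by linarith : 0 ≤ Q ^ (2 * c))]
  have R3 : 1 ≤ R := by exact_mod_cast (one_le_pow₀ Q1).trans R1
  have R4 : (U.m : ℝ) * R ≤ Q ^ c' := by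
    refine le_trans ?_ (pw (i := D + (2 * c + 1)) (by omega))
    rw [pow_add]
    gcongr
    linarith
  obtain ⟨g1, g2⟩ := v3 (R + 1) (by
    have : (D : ℝ) * ℓ ≤ Q ^ (2 * c) := by
      refine le_trans ?_ (pw (i := D + 2 * cU) (by rw [hc, mul_add (2 * cU)]; omega))
      rw [pow_add]
      gcongr
    push_cast
    linarith)
  have Nb : (Ideal.absNorm (Ideal.span {(n : 𝓞 L)} * 𝔞) : ℝ) = n ^ (2 * D) * Ideal.absNorm 𝔞 := by
    rw [map_mul, Nat.cast_mul, nn]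
  have b0 : Ideal.span {(n : 𝓞 L)} * 𝔞 ≠ ⊥ := fun h => by
    rw [h, Ideal.absNorm_bot, Nat.cast_zero] at Nb
    exact (by positivity : (0 : ℝ) < n ^ (2 * D) * Ideal.absNorm 𝔞).ne Nb
  have NbQ : (n : ℝ) ^ (2 * D) * Ideal.absNorm 𝔞 ≤ Q ^ (2 * D + 1) := by
    rw [pow_succ]
    gcongr
  obtain ⟨s, s1, s2, s3, s4, s5⟩ := core U K hEq hTyp hPos hn hu hN ρ0.le Rs0 hz
    (hPart k K L n ℓ U).2.2.1 ha h0 hne (y := y) (X := X) (ε := ε) (μ := 2 ^ cV / U.vol) (Ω := Ω)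
    (Λ := Λ) (δ := (Q ^ (a₁ + c' + cB + 3))⁻¹) (Tb := Q ^ (a₁ + c' + cB + 3)) (by linarith)
    (by linarith) (hm ▸ hX) R3 (R4.trans (pw (by omega))) hw hε hEq'.2
    (fun 𝒴 h𝒴 => by
      have f : {χ : Ideal (𝓞 L) →* ℂ | χ ∈ Chs k n ((N : ℝ) ^ 2) (Q ^ (a₁ + c' + cB + 3)) ∧
          ¬ IsTriv n χ}.Finite := (hNum L hD Q _ _ n hQ hS hn (one_le_pow₀ N1)
        (one_le_pow₀ Q1)).1.subset fun χ h => h.1
      refine le_trans ?_ hEq'.1
      rw [Err, finsum_mem_eq_finite_toFinset_sum _ f]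
      exact sum_le_sum_of_subset_of_nonneg (fun χ h => f.mem_toFinset.2 (h𝒴 χ h))
        fun _ _ _ => by positivity)
    (card_SS U vol0 g1 g2)
    (by
      have h1 : Q ^ c ≤ √(R : ℝ) := Real.le_sqrt_of_sq_le (by rwa [← pow_mul, mul_comm])
      have h2 : ℓ * (N * ℓ ^ D) ≤ Q ^ c := by
        calc _ = N * ℓ ^ (D + 1) := by ring
          _ ≤ Q * (Q ^ (2 * cU)) ^ (D + 1) := by gcongr
          _ = Q ^ (1 + 2 * cU * (D + 1)) := by ring
          _ ≤ _ := pw (by omega)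
      calc ℓ / √(R : ℝ) ≤ ℓ / (ℓ * (N * ℓ ^ D)) := by
            gcongr
            exact h2.trans h1
        _ = 2 ^ cV / (2 ^ cV * ℓ ^ D) / N := by field_simp
        _ ≤ _ := by gcongr)
    (fun ζ => by
      have h1 := (((hB L hD).2 Q (X / N) _ (n * Ideal.absNorm 𝔞) α₀ ζ hQ hS
        (Nat.mul_pos (by omega) (by exact_mod_cast A0))
        (by
          rw [Nat.cast_mul]
          exact Ideal.mul_mem_mul (Ideal.mem_span_singleton_self _) (Ideal.absNorm_mem 𝔞))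
        (by
          rw [le_div_iff₀ (by positivity), Nat.cast_mul]
          calc _ ≤ Q * Q * Q ^ cB * Q := by gcongr
            _ = Q ^ (cB + 3) := by ring
            _ ≤ _ := (pw (by omega)).trans hQX)).1)
      rw [Nb] at h1
      exact Set.nonempty_of_ncard_ne_zero (Nat.cast_pos.1 (lt_of_lt_of_le (by positivity) h1)).ne')
    (fun m s hs => by
      have y0 : 0 < y := by linarith
      set Z : ℝ := Ideal.absNorm 𝔞 * y ^ u * Real.exp (m / N) with hZ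
      have XZ : X ^ (2 * D) ≤ Z := by
        rw [hX]
        exact le_mul_of_one_le_right (by positivity) (Real.one_le_exp (by positivity))
      have Z1 : 1 ≤ Z := (one_le_pow₀ X1).trans XZ
      obtain ⟨𝔟₀, hb0, -⟩ := h0
      refine le_trans (L_mom U hPos hu hN hz (Ideal.mul_le_left (hb0.le
        (Ideal.mem_span_singleton_self α₀))) hne (by positivity) (Nat.one_le_pow 2 _ hN) R3 hs
        (V := U.vol * Z / (n ^ (2 * D) * Ideal.absNorm 𝔞 * cov2 k L))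
        (Wr := (Q * (n ^ (2 * D) * Ideal.absNorm 𝔞) * ℓ * Q ^ c') ^ cW * (3 * N) *
          Z ^ (1 - 1 / (2 * D) : ℝ)) (by positivity) (by positivity) ?_ fun κ hκ κ' hκ' => ?_) ?_
      · rw [← r1, hZ]
        field_simp
      · have := hW L hD Q n ℓ U (gN N) (3 * N) Z (Q ^ c') κ (tau U κ') _ α₀ hQ hS (gN_bump hN) Z1
          (one_le_pow₀ Q1) (fun φ => by
            have h1 : |(κ φ : ℝ)| < N ^ 2 := by exact_mod_cast mem_bx.1 hκ φ
            exact h1.le.trans ((pow_le_pow_left₀ (by positivity) hNQ 2).trans (pw (by omega))))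
          (fun φ => (tau_le U hκ' φ).trans R4) (tau_sum U κ') (tr_tau U hPos κ κ') b0
        rwa [Nb, mul_div_right_comm] at this
      · have h1 : Z ^ (1 - 1 / (2 * D) : ℝ) ≤ Z / X := by
          rw [Real.rpow_sub (by linarith), Real.rpow_one]
          gcongr
          have D0 : (0 : ℝ) < 2 * D := by linarith
          rw [one_div, Real.le_rpow_inv_iff_of_pos (by linarith) (by linarith) D0]
          exact_mod_cast XZ
        have h2 : N / (Rs L n * y ^ u * Real.exp (m / N)) =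
            U.ρ * (N * (n ^ (2 * D) * Ideal.absNorm 𝔞) * cov2 k L * U.vol⁻¹) / Z := by
          rw [← r1, hZ]
          field_simp
        have h3 : U.vol⁻¹ ≤ Q ^ cV := (inv_le_of_inv_le₀ (by positivity) v1).trans (by gcongr)
        have h4 := (e4 Q hQ hS).1
        have h5 : 2 * ((N ^ 2 : ℕ) : ℝ) ≤ Q ^ 3 := by
          rw [Nat.cast_pow, pow_succ' Q]
          gcongr
        have h6 : 2 * (R : ℝ) ≤ Q ^ (2 * c + 2) := by
          rw [pow_succ' Q]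
          gcongr
        have h7 : (3 : ℝ) ≤ Q ^ 2 := by
          linarith [mul_le_mul hQ hQ zero_le_two Q0.le]
        rw [h2, hm, show (2 : ℝ) / N = 1 / N + 1 / N by ring, mul_add, mul_one_div]
        refine add_le_add ?_ le_rfl
        calc _ ≤ (Q ^ 3) ^ D * (Q ^ (2 * c + 2)) ^ D * (cnt u N m *
              (U.ρ * (N * Q ^ (2 * D + 1) * Q ^ cE * Q ^ cV) / Z) *
              ((Q * Q ^ (2 * D + 1) * Q ^ (2 * cU) * Q ^ c') ^ cW * (Q ^ 2 * N) * (Z / X))) := by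
              gcongr
              exact (pow_le_pow_left₀ (by positivity) h6 _).trans
                (pow_le_pow_right₀ (one_le_pow₀ Q1) (by omega))
          _ = cnt u N m * U.ρ / N * ((Q ^ 3) ^ D * (Q ^ (2 * c + 2)) ^ D *
              (Q ^ (2 * D + 1) * Q ^ cE * Q ^ cV * (Q ^ 2 * N ^ 3) *
              (Q * Q ^ (2 * D + 1) * Q ^ (2 * cU) * Q ^ c') ^ cW) / X) := by field_simp
          _ ≤ _ := by
              refine mul_le_of_le_one_right (by positivity) ((div_le_one (by linarith)).2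
                (le_trans ?_ ((pw (i := a₁) (by omega)).trans hQX)))
              calc _ ≤ (Q ^ 3) ^ D * (Q ^ (2 * c + 2)) ^ D *
                    (Q ^ (2 * D + 1) * Q ^ cE * Q ^ cV * (Q ^ 2 * Q ^ 3) *
                    (Q * Q ^ (2 * D + 1) * Q ^ (2 * cU) * Q ^ c') ^ cW) := by gcongr
                _ = _ := by
                  rw [ha₁]
                  generalize c = c, c' = c'
                  ring)
    (ω := ω) hΩ hΛ (by positivity)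
    (by
      rw [one_div]
      exact inv_anti₀ (by linarith) (hNQ.trans (le_self_pow₀ Q1 (by omega)))) hb hl
  have eT : 2 ^ cV / U.vol * (N ^ u * U.ρ) = 2 ^ cV * Th k L N u n := by
    rw [Th, e2, ← r1]
    field_simp
  have T0 : 0 ≤ Th k L N u n := by
    unfold Th
    positivity
  obtain ⟨t1, t2⟩ := cT_mono (u := u) (show U.m ≤ D by omega)
  have ε0 : 0 ≤ ε := (norm_nonneg _).trans (hEq'.2 0 hN)
  have t3 : (1 + 2 * U.m) * (2 ^ u + 4) * (2 ^ cV * Th k L N u n) ≤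
      2 * cT u D * (2 * 2 ^ u + 10) * 2 ^ cV * Th k L N u n := by
    rw [mul_assoc _ (2 ^ cV)]
    gcongr <;> linarith
  rw [eT] at s3 s4 s5
  refine ⟨s, s1, s2, s3.trans ?_, s4.trans t3, s5.trans t3⟩
  calc _ ≤ 2 * cT u D * (2 * 2 ^ u + 10) * Ω * (2 ^ cV * Th k L N u n) * (ε + (1 + Λ) / N) := by
        gcongr
    _ = _ := by ring

end

end Pool.Agent.P.MP_b8021b_nt.VC
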