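import Pool.Agent.P.MP_b8021b_nt.VC.PCov1C

/-! The functional is constant on almost all fibres of a function. -/

namespace Pool.Agent.P.MP_b8021b_nt.VC

open Polynomial NumberField Finset Pool.Agent.P.MP_b8021b_nt.VE
open scoped Classical WithZero IntermediateField

namespace Cov1

theorem exists_chi {K : Type} [Field K] [NumberField K] [IsGalois ℚ K] {r : ℕ} (hr : r ≠ 0) {ω : K}
    (hω : ω ^ 2 = -(r : K)) : ∃ χ : (K ≃ₐ[ℚ] K) →* ℤˣ, (∀ g, g ω = (χ g : ℤ) * ω) ∧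
      ∃ g, χ g = -1 := by
  have h0 : ω ≠ 0 := by
    rintro rfl
    have : (r : K) = 0 := by simpa using hω
    exact hr (Nat.cast_eq_zero.1 this)
  have h1 : ∀ g : K ≃ₐ[ℚ] K, ∃ e : ℤˣ, g ω = (e : ℤ) * ω := fun g => by
    have h2 : g ω ^ 2 = ω ^ 2 := by rw [← map_pow, hω, map_neg, map_natCast]
    rcases sq_eq_sq_iff_eq_or_eq_neg.1 h2 with h | h
    · exact ⟨1, by simp [h]⟩
    · exact ⟨-1, by simp [h]⟩
  choose e he using h1
  refine ⟨MonoidHom.mk' e fun g h => ?_, he, ?_⟩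
  · have h2 : ((e (g * h) : ℤ) : K) * ω = ((e g * e h : ℤˣ) : ℤ) * ω := by
      rw [← he, AlgEquiv.mul_apply, he h, map_mul, map_intCast, he g]
      push_cast
      ring
    exact Units.ext (Int.cast_injective (mul_right_cancel₀ h0 h2))
  · by_contra h
    obtain ⟨q, hq⟩ := (IsGalois.mem_range_algebraMap_iff_fixed (F := ℚ) ω).2 fun g => by
      rcases Int.units_eq_one_or (e g) with h2 | h2
      · rw [he g, h2]; simp
      · exact (h ⟨g, h2⟩).elim
    rw [← hq, ← map_pow, ← map_natCast (algebraMap ℚ K), ← map_neg] at hω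
    have h3 := (algebraMap ℚ K).injective hω
    have h4 : (0 : ℚ) < r := by positivity
    nlinarith [sq_nonneg q]

theorem exists_root {k F : Type} [Field k] [Field F] [Algebra k F] {O : GPt F} (m : Mdl k O)
    (σ : k →+* Qb) (a : Qb) : ∃ c, ev σ a c m.P = 0 := by
  obtain ⟨c, hc⟩ := IsAlgClosed.exists_root (m.P.map (eval₂RingHom σ a)) (by
    refine (natDegree_pos_iff_degree_pos.1 ?_).ne'
    rw [m.mon.natDegree_map, m.deg]
    exact m.hd)
  exact ⟨c, by rw [ev_eq]; exact hc⟩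

end Cov1

open Cov1 in
theorem p_cov1 (h0 : VE.S_S0) (hCrv : S_Crv) (hFin : S_Fin) (hRes : S_Res) (hEis : S_Eis) (hTrans : S_Trans) (hCvEx : S_CvEx) (hNrm : S_Nrm) (hGeo : S_Geo) (hTower : S_Tower) : S_Cov1 := by
  intro k F _ _ _ _ _ hF O l r hO hl hr
  obtain ⟨m⟩ := model h0 hCvEx hNrm hF O hO
  obtain ⟨τ₀, hτ₀⟩ := O.exists_emb (algebraMap k F)
  obtain ⟨a₀, ha₀⟩ := (m.fin.preimage (Nat.cast_injective (R := Qb)).injOn).exists_notMem
  obtain ⟨ρ, hρ⟩ := exists_root m τ₀ a₀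
  obtain ⟨w, hw⟩ := IsAlgClosed.exists_pow_nat_eq (-(r : Qb)) two_pos
  obtain ⟨K, _, _, _, τ, ι₀, ρ₀, ω, hι, rfl, rfl⟩ := exists_gal (τ₀ : k →+* Qb) ρ w
  have hτ : τ.comp ι₀ = τ₀ := RingHom.ext hι
  have hω : ω ^ 2 = -(r : K) := τ.injective (by rw [map_pow, hw, map_neg, map_natCast])
  have hρ₀ : ev ι₀ a₀ ρ₀ m.P = 0 := τ.injective (by
    rw [hom_ev, hτ, map_natCast, hρ, map_zero])
  obtain ⟨χ, hχ, hχ'⟩ := exists_chi hr.ne_zero hω
  obtain ⟨M, _, _, c, j, act, O', S, cM, hc, hj, hjc, hO', hS, hq⟩ :=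
    geom hCrv hRes hTrans hEis hTower m τ ι₀ a₀ ha₀ ρ₀ hρ₀
  choose res hr1 hr2 hr3 using fun s => res_hom hCrv hRes hTrans hF cM (j s)
  let _ : MulSemiringAction (K ≃ₐ[ℚ] K) M := MulSemiringAction.compHom M act
  have key := hGeo M (K ≃ₐ[ℚ] K) cM χ r (c ω) O'
    (fun q u => ∑ s, ((χ s : ℤ) : ℝ) * l (res s q) u) hr
    (by rw [← map_pow, hω, map_neg, map_natCast])
    (fun g => by
      change act g (c ω) = _
      rw [hc, hχ, map_mul, map_intCast]) hχ'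
    (fun a e ha he => rat_of_fix fun σ => by
      obtain ⟨g, hg⟩ := restrict τ σ
      obtain ⟨q₁, h1, -⟩ := (hFin M cM).2.2.2.2 σ O'
      obtain ⟨R, -, h2, -⟩ := res_hom hCrv hRes hTrans cM cM ((act g).symm : M →+* M)
      have h3 : ∀ a e, O'.Val a e → (R q₁).Val (act g a) (σ e) := fun a e h => h2 _ _ _ (by
        rw [RingHom.coe_coe, RingEquiv.symm_apply_apply]
        exact h1 a e h)
      have h4 := h3 a e he
      rw [hO' σ g hg _ h3, show act g a = a from ha g] at h4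
      exact h4.unique he)
    (gfn_sum hFin cM _ _ fun s => hr3 s l hl)
    (fun g q q' h u _ => by
      have h1 : ∀ s, res (g * s) q = res s q' := fun s => (hr1 _ _ _).1 fun a e he => by
        rw [← hj]
        exact h _ _ ((hr1 s q' _).2 rfl a e he)
      rw [← Equiv.sum_comp (Equiv.mulLeft g) fun s => ((χ s : ℤ) : ℝ) * l (res s q) u, mul_sum]
      refine sum_congr rfl fun s _ => ?_
      rw [Equiv.coe_mulLeft, h1, map_mul]
      rcases Int.units_eq_one_or (χ g) with h2 | h2 <;> rw [h2] <;> simp)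
  refine ⟨m.f, S, m.rf, m.pole, hS, fun p p' a hp hp' ha h1 h2 u hu => ?_⟩
  obtain ⟨b, rfl, hb, hq⟩ := hq a ha
  have hP0 := (m.ker m.P).2 dvd_rfl
  have hu0 : ∀ p : GPt F, SameC k O p → p.Val m.f (b 1) →
      ∃ e, p.Val m.u e ∧ ev (τ₀ : k →+* Qb) (b 1) e m.P = 0 := fun p hp h => by
    obtain ⟨e, he⟩ := p.exists_val (m.ru p fun hv => by
      have h3 := h.mem
      rw [hv] at h3
      exact (O.ord_neg_iff _).1 m.pole h3)
    have h3 := val_ev p (σ := τ₀) (fun b => hp _ _ (hτ₀ b)) h he m.P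
    rw [hP0] at h3
    exact ⟨e, he, h3.unique p.val_zero⟩
  choose e he using fun s : K ≃ₐ[ℚ] K => exists_root m (τ.comp ((s : K →+* K).comp ι₀)) (b s)
  have hone : τ.comp (((1 : K ≃ₐ[ℚ] K) : K →+* K).comp ι₀) = τ₀ := RingHom.ext hι
  have hex : ∀ p : GPt F, SameC k O p → p.Val m.f (b 1) → ∃ q : GPt M, q.Val (c ω) (τ ω) ∧
      res 1 q = p ∧ ∀ s, s ≠ 1 → (∀ x, (res s q).Val (algebraMap k F x) (τ (s (ι₀ x)))) ∧
        (res s q).Val m.f (b s) ∧ (res s q).Val m.u (e s) := fun p hp h => by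
    obtain ⟨e₁, h3, h4⟩ := hu0 p hp h
    obtain ⟨q, h5, h6⟩ := hq (Function.update e 1 e₁) fun s => by
      rcases eq_or_ne s 1 with rfl | hs
      · rw [Function.update_self, hone, h4]
      · rw [Function.update_of_ne hs, he]
    have h7 : ∀ s x, (res s q).Val (algebraMap k F x) (τ (s (ι₀ x))) := fun s x =>
      hr2 s q _ _ (hjc s x ▸ h5 _)
    refine ⟨q, h5 ω, m.uniq _ _ τ₀ (b 1) e₁ (hb 1) (fun x => hι x ▸ h7 1 x)
      (fun x => hp _ _ (hτ₀ x)) (hr2 _ _ _ _ (h6 1).1) h (hr2 _ _ _ _ ?_) h3,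
      fun s hs => ⟨h7 s, hr2 _ _ _ _ (h6 s).1, hr2 _ _ _ _ ?_⟩⟩
    · simpa only [Function.update_self] using (h6 1).2
    · simpa only [Function.update_of_ne hs] using (h6 s).2
  obtain ⟨q, h3, rfl, h4⟩ := hex p hp h1
  obtain ⟨q', h5, rfl, h6⟩ := hex p' hp' h2
  have h7 := key q q' _ h3 h5 u hu
  rw [← add_sum_erase _ _ (mem_univ 1), ← add_sum_erase _ _ (mem_univ 1), map_one,
    sum_congr rfl fun s hs => by
      have hs' := ne_of_mem_erase hs
      rw [m.uniq (res s q) (res s q') (τ.comp ((s : K →+* K).comp ι₀)) (b s) (e s) (hb s)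
        (h4 s hs').1 (h6 s hs').1 (h4 s hs').2.1 (h6 s hs').2.1 (h4 s hs').2.2 (h6 s hs').2.2]]
    at h7
  simpa using add_right_cancel h7

end Pool.Agent.P.MP_b8021b_nt.VC
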