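import Pool.Agent.P.MP_b8021b_nt.VC.StS
import Pool.Agent.P.MP_b8021b_nt.VE.BasicS

/-! Curves with a rational point: the functional is constant on the constants. -/

namespace Pool.Agent.P.MP_b8021b_nt.VC

open Polynomial NumberField Finset Pool.Agent.P.MP_b8021b_nt.VE
open scoped Classical WithZero IntermediateField nonZeroDivisors

namespace PCover

section add

variable {K : Type} [Field K] {φ : K → ℝ} (hm : ∀ u v, u ≠ 0 → v ≠ 0 → φ (u * v) = φ u + φ v)

include hm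

theorem f_one : φ 1 = 0 := by
  have := hm 1 1 one_ne_zero one_ne_zero
  rw [mul_one] at this
  linarith

theorem f_inv {u : K} (hu : u ≠ 0) : φ u⁻¹ = -φ u := by
  have := hm u u⁻¹ hu (inv_ne_zero hu)
  rw [mul_inv_cancel₀ hu, f_one hm] at this
  linarith

theorem f_pow {u : K} (hu : u ≠ 0) (n : ℕ) : φ (u ^ n) = n * φ u := by
  induction n with
  | zero => simp [f_one hm]
  | succ n ih =>
    rw [pow_succ, hm _ _ (pow_ne_zero _ hu) hu, ih]
    push_cast
    ring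

theorem f_zpow {u : K} (hu : u ≠ 0) (n : ℤ) : φ (u ^ n) = n * φ u := by
  obtain ⟨m, rfl | rfl⟩ := n.eq_nat_or_neg
  · rw [zpow_natCast, f_pow hm hu]
    simp
  · rw [zpow_neg, zpow_natCast, f_inv hm (pow_ne_zero _ hu), f_pow hm hu]
    simp

end add

theorem prime_mem {R : Type} [CommRing R] {P : Ideal R} (hP : P.IsPrime) (n : ℕ) :
    n ≠ 0 → (n : R) ∈ P → ∃ r : ℕ, r.Prime ∧ (r : R) ∈ P := by
  induction n using induction_on_primes with
  | zero => exact fun h => absurd rfl h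
  | one => exact fun _ h => absurd ((Ideal.eq_top_iff_one P).2 (by simpa using h)) hP.ne_top
  | prime_mul p a hp ih =>
    intro h0 h
    rw [Nat.cast_mul] at h
    rcases hP.mem_or_mem h with h | h
    · exact ⟨p, hp, h⟩
    · exact ih (right_ne_zero_of_mul h0) h

theorem units {k : Type} [Field k] [NumberField k] {ψ : k → ℝ}
    (hm : ∀ u v, u ≠ 0 → v ≠ 0 → ψ (u * v) = ψ u + ψ v)
    (hr : ∀ (r n : ℕ) (g g' : 𝓞 k), r.Prime → g * g' = (r : 𝓞 k) ^ n → ψ g = 0) (b : k)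
    (hb : b ≠ 0) : ψ b = 0 := by
  set h := Fintype.card (ClassGroup (𝓞 k)) with hh
  have hpos : 0 < h := Fintype.card_pos
  have prin : ∀ I : Ideal (𝓞 k), I ≠ 0 → ∃ g, I ^ h = Ideal.span {g} := by
    intro I hI
    have hI' : I ∈ (Ideal (𝓞 k))⁰ := mem_nonZeroDivisors_of_ne_zero hI
    have h1 : ClassGroup.mk0 ⟨I ^ h, pow_mem hI' h⟩ = 1 := by
      rw [← SubmonoidClass.mk_pow _ hI', map_pow, hh, pow_card_eq_one]
    obtain ⟨g, hg⟩ := (ClassGroup.mk0_eq_one_iff _).1 h1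
    exact ⟨g, hg⟩
  have un : ∀ u : 𝓞 k, IsUnit u → ψ u = 0 := by
    intro u hu
    obtain ⟨v, hv⟩ := hu.exists_right_inv
    exact hr 2 0 u v Nat.prime_two (by simpa using hv)
  have ne : ∀ (I : Ideal (𝓞 k)) (g : 𝓞 k), I ≠ 0 → I ^ h = Ideal.span {g} → (g : k) ≠ 0 := by
    intro I g hI e h0
    have : g = 0 := by simpa using h0
    rw [this, Ideal.span_singleton_zero] at e
    exact pow_ne_zero h hI e
  have main : ∀ I : Ideal (𝓞 k), I ≠ 0 → ∀ g, I ^ h = Ideal.span {g} → ψ g = 0 := by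
    intro I
    induction I using UniqueFactorizationMonoid.induction_on_prime with
    | h₁ => exact fun h => absurd rfl h
    | h₂ I hI =>
      intro _ g e
      rw [Ideal.isUnit_iff.1 hI, Ideal.top_pow] at e
      exact un g (Ideal.span_singleton_eq_top.1 e.symm)
    | h₃ J P hJ hP ih =>
      intro _ g e
      obtain ⟨π, hπ⟩ := prin P hP.ne_zero
      obtain ⟨γ, hγ⟩ := prin J hJ
      have hP' : P.IsPrime := Ideal.isPrime_of_prime hP
      obtain ⟨r, hr1, hr2⟩ := prime_mem hP' (Ideal.absNorm P)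
        (fun h0 => hP.ne_zero (Ideal.absNorm_eq_zero_iff.1 h0)) (Ideal.absNorm_mem P)
      have h1 : (r : 𝓞 k) ^ h ∈ Ideal.span {π} := hπ ▸ Ideal.pow_mem_pow hr2 h
      obtain ⟨g', hg'⟩ := Ideal.mem_span_singleton.1 h1
      have e1 := hr r h π g' hr1 hg'.symm
      have e2 := ih hJ γ hγ
      rw [mul_pow, hπ, hγ, Ideal.span_singleton_mul_span_singleton,
        Ideal.span_singleton_eq_span_singleton] at e
      obtain ⟨u, rfl⟩ := e
      have n1 := ne P π hP.ne_zero hπ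
      have n2 := ne J γ hJ hγ
      have n3 : ((u : 𝓞 k) : k) ≠ 0 := by simp
      have e3 : ((π * γ * u : 𝓞 k) : k) = (π : k) * (γ : k) * ((u : 𝓞 k) : k) := by simp
      rw [e3, hm _ _ (mul_ne_zero n1 n2) n3, hm _ _ n1 n2, e1, e2, un u u.isUnit]
      ring
  have int : ∀ x : 𝓞 k, x ≠ 0 → ψ x = 0 := by
    intro x hx
    have h1 := main (Ideal.span {x}) (by simpa using hx) (x ^ h) (Ideal.span_singleton_pow _ _)
    have e3 : ((x ^ h : 𝓞 k) : k) = (x : k) ^ h := by simp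
    rw [e3, f_pow hm (by simpa using hx)] at h1
    exact (mul_eq_zero.1 h1).resolve_left (by exact_mod_cast hpos.ne')
  obtain ⟨x, y, hy, rfl⟩ := IsFractionRing.div_surjective (𝓞 k) b
  have hy' : y ≠ 0 := nonZeroDivisors.ne_zero hy
  have hy2 : algebraMap (𝓞 k) k y ≠ 0 := by simpa using hy'
  have hx2 : algebraMap (𝓞 k) k x ≠ 0 := fun h0 => hb (by rw [h0, zero_div])
  have hx : x ≠ 0 := fun h0 => hx2 (by rw [h0, map_zero])
  rw [div_eq_mul_inv, hm _ _ hx2 (inv_ne_zero hy2), f_inv hm hy2]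
  have a1 := int x hx
  have a2 := int y hy'
  change ψ (x : k) + -ψ (y : k) = 0
  rw [a1, a2]
  ring

theorem algQ : Algebra.IsAlgebraic ℚ Qb := AlgebraicClosure.isAlgebraic ℚ

theorem emb_trans {k : Type} [Field k] [NumberField k] (τ₁ τ₂ : k →+* Qb) :
    ∃ σ : Qb ≃+* Qb, ∀ b, σ (τ₁ b) = τ₂ b := by
  have := algQ
  have : IsAlgClosure ℚ Qb := ⟨inferInstance, inferInstance⟩
  let B := Field.powerBasisOfFiniteOfSeparable ℚ k
  have h1 : aeval (τ₁.toRatAlgHom B.gen) (minpoly ℚ (τ₂.toRatAlgHom B.gen)) = 0 := by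
    rw [minpoly.algHom_eq τ₂.toRatAlgHom τ₂.injective, aeval_algHom_apply, minpoly.aeval, map_zero]
  obtain ⟨σ, hσ⟩ := minpoly.exists_algEquiv_of_root (Algebra.IsAlgebraic.isAlgebraic _) h1
  have e : (σ : Qb →ₐ[ℚ] Qb).comp τ₁.toRatAlgHom = τ₂.toRatAlgHom := B.algHom_ext hσ
  exact ⟨σ.toRingEquiv, fun b => DFunLike.congr_fun e b⟩

theorem conj {k : Type} [Field k] [NumberField k] (τ : k →+* Qb) (a : Qb) :
    ∃ m : k[X], m.Monic ∧ m.eval₂ τ a = 0 ∧ ∀ a', m.eval₂ τ a' = 0 →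
      ∃ σ : Qb ≃+* Qb, (∀ b, σ (τ b) = τ b) ∧ σ a' = a := by
  have := algQ
  let _ : Algebra k Qb := τ.toAlgebra
  have : IsScalarTower ℚ k Qb := IsScalarTower.of_algebraMap_eq' (Subsingleton.elim _ _)
  have : Algebra.IsAlgebraic k Qb := Algebra.IsAlgebraic.tower_top (K := ℚ) k
  have : IsAlgClosure k Qb := ⟨inferInstance, inferInstance⟩
  have ha : IsAlgebraic k a := Algebra.IsAlgebraic.isAlgebraic a
  refine ⟨minpoly k a, minpoly.monic ha.isIntegral, minpoly.aeval k a, fun a' h => ?_⟩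
  obtain ⟨σ, hσ⟩ := minpoly.exists_algEquiv_of_root ha h
  exact ⟨σ.toRingEquiv, fun b => σ.commutes b, hσ⟩

variable {k F : Type} [Field k] [NumberField k] [Field F] [Algebra k F]

theorem rel {l : GPt F → Qb → ℝ} (hl : KFn l) {τ : GPt F → k →+* Qb}
    (hτ : ∀ p a, GPt.Val p (algebraMap k F a) (τ p a)) {b : k} (hb : b ≠ 0) {h : F} (hh : h ≠ 0) :
    ∑ᶠ q, (GPt.ord q h : ℝ) * l q (τ q b) = 0 := by
  have h1 := hl.symb h (algebraMap k F b) hh ((_root_.map_ne_zero _).2 hb)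
    (fun q => τ q b ^ (-q.ord h)) fun q => by
      have := hτ q (b ^ (-q.ord h))
      rw [map_zpow₀, map_zpow₀] at this
      rwa [Tm, q.ord_alg (algebraMap k F) b, zpow_zero, one_div, ← zpow_neg]
  have e : (fun q : GPt F => l q (τ q b ^ (-q.ord h))) =
      fun q => -((q.ord h : ℝ) * l q (τ q b)) := by
    funext q
    rw [f_zpow (hl.mul q) ((_root_.map_ne_zero _).2 hb)]
    push_cast
    ring
  rw [e, finsum_neg_distrib] at h1
  exact neg_eq_zero.1 h1

theorem key {X : Type} {o : X → ℤ} {lam : X → ℝ} (hf : {q | o q ≠ 0}.Finite)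
    (h1 : ∑ᶠ q, (o q : ℝ) * lam q = 0) (h2 : ∑ᶠ q, (o q : ℝ) * Real.log 2 = 0) {C : ℝ} {p : X}
    (hp : 0 < o p) (h : ∀ q, lam q = C ∨ o q = 0 ∨ (lam q = lam p ∧ 0 ≤ o q)) : lam p = C := by
  by_contra hne
  have s1 : ∀ g : X → ℝ, ∑ᶠ q, (o q : ℝ) * g q = ∑ q ∈ hf.toFinset, (o q : ℝ) * g q := fun g =>
    finsum_eq_sum_of_support_subset _ fun q hq => by
      simp only [Set.Finite.coe_toFinset, Set.mem_ofPred_eq]
      intro h0
      exact hq (by simp [h0])
  rw [s1] at h1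
  rw [s1 fun _ => Real.log 2, ← sum_mul] at h2
  have h3 := (mul_eq_zero.1 h2).resolve_right (Real.log_pos one_lt_two).ne'
  have h4 : ∑ q ∈ hf.toFinset, (o q : ℝ) * (lam q - C) * (lam p - C) = 0 := by
    rw [← sum_mul]
    simp only [mul_sub (_ : ℝ) (lam _) C, sum_sub_distrib, h1, ← sum_mul, h3]
    ring
  have hD : 0 < (lam p - C) * (lam p - C) := mul_self_pos.2 (sub_ne_zero.2 hne)
  refine (sum_pos' (fun q _ => ?_) ⟨p, by simpa using hp.ne', ?_⟩).ne' h4
  · rcases h q with e | e | ⟨e, e'⟩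
    · simp [e]
    · simp [e]
    · rw [e, mul_assoc]
      exact mul_nonneg (by exact_mod_cast e') hD.le
  · rw [mul_assoc]
    exact mul_pos (by exact_mod_cast hp) hD

omit [NumberField k] in
theorem gal_v {σ : Qb ≃+* Qb} {p p' : GPt F} {τ : GPt F → k →+* Qb}
    (hτ : ∀ p a, GPt.Val p (algebraMap k F a) (τ p a)) (h : Gal σ p p') (b : k) :
    τ p' b = σ (τ p b) := (hτ p' b).unique (h _ _ (hτ p b))

theorem ord_v {p q : GPt F} (h : p.v = q.v) (a : F) : p.ord a = q.ord a := by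
  rw [GPt.ord, GPt.ord, h]

theorem v_ord {p q : GPt F} (h : ∀ a, a ≠ 0 → p.ord a = q.ord a) : p.v = q.v := by
  ext a
  rcases eq_or_ne a 0 with rfl | ha
  · simp
  · rw [p.v_eq ha, q.v_eq ha, h a ha]

theorem main (h0 : VE.S_S0) (hF : S_Fin) (hW : S_Weil) (hC : S_CvEx) (h1 : S_Cov1) [Algebra ℚ F]
    (hc : IsCurve F) {O : GPt F} {l : GPt F → Qb → ℝ} (hO : IsRat k O) (hl : GFn l)
    {τ : GPt F → k →+* Qb} (hτ : ∀ p a, GPt.Val p (algebraMap k F a) (τ p a)) {r : ℕ}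
    (hr : r.Prime) {b : k} (hb : b ≠ 0) (hu : RU r (τ O b)) (p : GPt F) :
    l p (τ p b) = l O (τ O b) := by
  obtain ⟨F1, -, -, F4, F5⟩ := hF F hc
  set lam : GPt F → ℝ := fun q => l q (τ q b) with hlam
  have lg : ∀ σ q q', Gal σ q q' → lam q' = lam q := fun σ q q' h => by
    simp only [hlam]
    rw [gal_v hτ h]
    exact hl.gal σ q q' h _ ((_root_.map_ne_zero _).2 hb)
  have lv : ∀ q q', q.v = q'.v → lam q' = lam q := fun q q' h => by
    obtain ⟨σ, hσ⟩ := (F4 q q').1 h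
    exact lg σ q q' hσ
  have mv : ∀ q : GPt F, ∃ q' : GPt F, q.v = q'.v ∧ τ q' = τ O := fun q => by
    obtain ⟨σ, hσ⟩ := emb_trans (τ q) (τ O)
    obtain ⟨q', hq, -⟩ := F5 σ q
    exact ⟨q', (F4 q q').2 ⟨σ, hq⟩, RingHom.ext fun a => (gal_v hτ hq a).trans (hσ a)⟩
  have sc : ∀ q, τ q = τ O → SameC k O q := fun q h a c hv => by
    rw [← (hτ O a).unique hv, ← h]
    exact hτ q a
  have := algQ
  let ι : Qb →ₐ[ℚ] ℂ := IsAlgClosed.lift
  have hK := hW k F hc (fun _ u => Real.log ‖ι u‖) τ (fun _ u v hu hv => by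
    rw [map_mul, norm_mul, Real.log_mul (by simpa using hu) (by simpa using hv)]) hτ
  have K : ∀ (h : F) (q₀ : GPt F), h ≠ 0 → 0 < q₀.ord h →
      (∀ q : GPt F, lam q = lam O ∨ q.ord h = 0 ∨ (lam q = lam q₀ ∧ 0 ≤ q.ord h)) →
      lam q₀ = lam O := fun h q₀ hh hq H => by
    refine key (o := fun q => q.ord h) (F1 h hh) (rel hl.toKFn hτ hb hh) ?_ hq H
    have := rel hK hτ (two_ne_zero (α := k)) hh
    simpa only [map_ofNat, Complex.norm_ofNat] using this
  obtain ⟨f, S, hf1, hf2, hS, hcov⟩ := h1 k F hc O l r hO hl hr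
  choose m hm1 hm2 hm3 using conj (τ O)
  have vm : ∀ (a : Qb) (q : GPt F) (c : Qb), q.Val f c →
      q.Val ((m a).eval₂ (algebraMap k F) f) ((m a).eval₂ (τ q) c) := fun a q c h =>
    q.val_eval₂ (hτ q) h _
  have nz : ∀ a, (m a).eval₂ (algebraMap k F) f ≠ 0 := fun a h => by
    refine (O.ord_neg_iff f).1 hf2 ?_
    have hv : O.v.Integers O.v.integer := Valuation.integer.integers O.v
    refine hv.mem_of_integral ?_
    let j : k →+* O.v.integer := (algebraMap k F).codRestrict O.v.integer fun x => (hτ O x).mem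
    refine ⟨(m a).map j, (hm1 a).map j, ?_⟩
    rw [eval₂_map]
    exact h
  have good : ∀ (q₀ : GPt F) (a : Qb), τ q₀ = τ O → q₀.Val f a → a ∉ S → lam q₀ = lam O := by
    intro q₀ a t₀ v₀ ha
    have z₀ := vm a q₀ a v₀
    rw [t₀, hm2] at z₀
    refine K _ q₀ (nz a) (z₀.ord_pos (nz a)) fun q => ?_
    by_cases hq : q.v = O.v
    · exact Or.inl (lv O q hq.symm)
    obtain ⟨q', e1, e2⟩ := mv q
    obtain ⟨c, hc'⟩ := q'.exists_val (hf1 q' (e1 ▸ hq))
    have z := vm a q' c hc'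
    rw [e2] at z
    by_cases hz : (m a).eval₂ (τ O) c = 0
    · obtain ⟨σ, s1, s2⟩ := hm3 a c hz
      obtain ⟨q'', hq'', -⟩ := F5 σ q'
      have t'' : τ q'' = τ O := RingHom.ext fun x => by rw [gal_v hτ hq'' x, e2, s1]
      have := hcov q'' q₀ a (sc _ t'') (sc _ t₀) ha (s2 ▸ hq'' _ _ hc') v₀ _ hu
      refine Or.inr (Or.inr ⟨?_, ord_v e1 _ ▸ q'.ord_nonneg z.mem⟩)
      rw [← lv q q' e1, ← lg σ q' q'' hq'']
      simp only [hlam]
      rw [t'', t₀]
      exact this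
    · exact Or.inr (Or.inl (ord_v e1 _ ▸ z.ord_eq_zero hz))
  have bad : {q | lam q ≠ lam O}.Finite := by
    refine (hS.biUnion fun a _ => F1 _ (nz a)).subset fun q hq => ?_
    have hv : q.v ≠ O.v := fun h => hq (lv O q h.symm)
    obtain ⟨q', e1, e2⟩ := mv q
    obtain ⟨c, hc'⟩ := q'.exists_val (hf1 q' (e1 ▸ hv))
    have hS' : c ∈ S := by
      by_contra hn
      exact hq ((lv q q' e1).symm.trans (good q' c e2 hc' hn))
    have z := vm c q' c hc'
    rw [e2, hm2] at z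
    refine Set.mem_biUnion hS' ?_
    rw [Set.mem_ofPred_eq, ord_v e1]
    exact (z.ord_pos (nz c)).ne'
  obtain ⟨A, cv, hA, hfr, -⟩ := hC k F hc O hO
  have := cv.ded
  obtain ⟨-, S2, S3⟩ := h0 A F
  have reg : ∀ q : GPt F, lam q ≠ lam O → ∀ x : A, algebraMap A F x ∈ q.v.valuationSubring :=
    fun q hq x => (hA x).1 x.2 q fun h => hq (lv O q h.symm)
  choose s hs1 hs2 using fun q : {q : GPt F // lam q ≠ lam O} => S2 q.1 (reg q.1 q.2)
  by_contra hp
  let p' : {q : GPt F // lam q ≠ lam O} := ⟨p, hp⟩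
  have : Finite {q : GPt F // lam q ≠ lam O} := bad
  have hmax : (RingHom.ker (s p')).IsMaximal :=
    (RingHom.ker_isPrime _).isMaximal (hs1 p')
  let T : Set (Ideal A) := insert ⊥ ((fun q => RingHom.ker (s q)) '' {q | q.1.v ≠ p.v})
  have hT : T.Finite := ((Set.toFinite _).image _).insert _
  have hno : ¬ ((RingHom.ker (s p') : Set A) ⊆ ⋃ J ∈ T, (id J : Ideal A)) := by
    rw [Ideal.subset_union_prime_finite hT ⊥ ⊥]
    · rintro ⟨J, rfl | ⟨q, hq, rfl⟩, hJ⟩
      · exact hs1 p' (le_bot_iff.1 hJ)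
      · have e := hmax.eq_of_le (RingHom.ker_isPrime (s q)).ne_top hJ
        refine hq (v_ord fun a ha => ?_)
        obtain ⟨x, y, hy, rfl⟩ := IsFractionRing.div_surjective A a
        have hy' : y ≠ 0 := nonZeroDivisors.ne_zero hy
        have hx : x ≠ 0 := fun h => ha (by rw [h, map_zero, zero_div])
        have i1 : ∀ w : A, w ≠ 0 → algebraMap A F w ≠ 0 := fun w hw h => hw (Subtype.ext h)
        rw [GPt.ord_div _ (i1 x hx) (i1 y hy'), GPt.ord_div _ (i1 x hx) (i1 y hy'),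
          S3 q.1 (s q) (hs2 q) x hx, S3 q.1 (s q) (hs2 q) y hy', S3 p (s p') (hs2 p') x hx,
          S3 p (s p') (hs2 p') y hy', e]
    · rintro J (rfl | ⟨q, -, rfl⟩) h _
      · exact absurd rfl h
      · exact RingHom.ker_isPrime _
  obtain ⟨x, hx1, hx2⟩ := Set.not_subset.1 hno
  simp only [Set.mem_iUnion, not_exists, id, SetLike.mem_coe] at hx2
  have x0 : algebraMap A F x ≠ 0 := fun h =>
    hx2 ⊥ (Set.mem_insert _ _) (Ideal.mem_bot.2 (Subtype.ext h))
  have z := hs2 p' x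
  rw [RingHom.mem_ker.1 hx1] at z
  refine hp (K _ p x0 (z.ord_pos x0) fun q => ?_)
  by_cases hq : lam q = lam O
  · exact Or.inl hq
  by_cases hv : q.v = p.v
  · exact Or.inr (Or.inr ⟨lv p q hv.symm, q.ord_nonneg (reg q hq x)⟩)
  · exact Or.inr (Or.inl ((hs2 ⟨q, hq⟩ x).ord_eq_zero fun h =>
      hx2 _ (Set.mem_insert_of_mem _ ⟨⟨q, hq⟩, hv, rfl⟩) (RingHom.mem_ker.2 h)))

end PCover

theorem p_cover (h0 : VE.S_S0) (hF : S_Fin) (hW : S_Weil) (hC : S_CvEx) (h1 : S_Cov1) : S_Cover := by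
  intro k F _ _ _ _ _ hc O l hO hl p hp b c hb hv
  choose τ' hτ using fun q : GPt F => q.exists_emb (algebraMap k F)
  let τ : GPt F → k →+* Qb := fun q => τ' q
  have hτ2 : ∀ (q : GPt F) a, q.Val (algebraMap k F a) (τ q a) := hτ
  have e : τ p = τ O := RingHom.ext fun a => (hτ2 p a).unique (hp a _ (hτ2 O a))
  rw [← (hτ2 O b).unique hv, ← sub_eq_zero]
  refine PCover.units (ψ := fun a => l p (τ O a) - l O (τ O a)) (fun u v hu hv => ?_)
    (fun r n g g' hr hg => ?_) b hb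
  · have n1 := (_root_.map_ne_zero (τ O)).2 hu
    have n2 := (_root_.map_ne_zero (τ O)).2 hv
    simp only [map_mul]
    rw [hl.mul p _ _ n1 n2, hl.mul O _ _ n1 n2]
    ring
  · have hg' : (g : k) * (g' : k) = (r : k) ^ n := by
      simpa using congrArg (algebraMap (𝓞 k) k) hg
    have g0 : (g : k) ≠ 0 := fun h => by
      rw [h, zero_mul] at hg'
      exact pow_ne_zero n (Nat.cast_ne_zero.2 hr.ne_zero) hg'.symm
    have t0 := (_root_.map_ne_zero (τ O)).2 g0
    have it : ∀ x : 𝓞 k, IsIntegral ℤ (τ O x) := fun x =>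
      x.isIntegral_coe.map (τ O).toIntAlgHom
    have hu : RU r (τ O g) := by
      refine ⟨t0, n, ?_, ?_⟩
      · have := it ((r : 𝓞 k) ^ n * g)
        simpa using this
      · have h2 := congrArg (τ O) hg'
        rw [map_mul, map_pow, map_natCast] at h2
        rw [← h2, mul_comm (τ O g), mul_assoc, mul_inv_cancel₀ t0, mul_one]
        exact it g'
    have := PCover.main h0 hF hW hC h1 hc hO hl hτ2 hr g0 hu p
    rw [e] at this
    exact sub_eq_zero.2 this

end Pool.Agent.P.MP_b8021b_nt.VC
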