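import Pool.Agent.P.MP_b8021b_nt.VC.StC

/-! Dimensions, degrees and bases for a curve with one rational point at infinity. -/

namespace Pool.Agent.P.MP_b8021b_nt.VC

open Polynomial Finset Pool.Agent.P.MP_b8021b_nt.VE
open scoped Classical

namespace PCv

variable {F A : Type} [Field F] [CommRing A] [Algebra F A]

theorem dg_mul [IsDedekindDomain A] (hfin : ∀ I : Ideal A, I ≠ ⊥ → FiniteDimensional F (A ⧸ I))
    (I J : Ideal A) (hI : I ≠ ⊥) (hJ : J ≠ ⊥) : dg F (I * J) = dg F I + dg F J := by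
  have hIJ : I * J ≠ 0 := mul_ne_zero hI hJ
  have := hfin _ hIJ
  obtain ⟨a, ha⟩ := IsDedekindDomain.exists_sup_span_eq (Ideal.mul_le_right (I := I) (J := J)) hIJ
  have haJ : a ∈ J := ha ▸ Ideal.mem_sup_right (Ideal.mem_span_singleton_self a)
  let φ : (A ⧸ I * J) →ₗ[A] (A ⧸ J) := Submodule.factor Ideal.mul_le_right
  let ψ0 : A →ₗ[A] (A ⧸ I * J) := (I * J).mkQ ∘ₗ LinearMap.toSpanSingleton A A a
  have hψ : ∀ r, ψ0 r = (I * J).mkQ (r * a) := fun r => rfl
  have hker : LinearMap.ker ψ0 = I := by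
    ext r
    have e : r ∈ LinearMap.ker ψ0 ↔ r * a ∈ I * J := by
      rw [LinearMap.mem_ker, hψ, Submodule.mkQ_apply, Submodule.Quotient.mk_eq_zero]
    rw [e]
    have h0 : r ∈ I → r * a ∈ I * J := fun h => Ideal.mul_mem_mul h haJ
    refine Iff.intro (fun h => ?_) h0
    have h1 : Ideal.span {r} * J ≤ I * J := by
      conv_lhs => rw [← ha]
      rw [Ideal.mul_sup, Ideal.span_singleton_mul_span_singleton]
      exact sup_le Ideal.mul_le_right ((Ideal.span_singleton_le_iff_mem _).2 h)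
    rw [← Ideal.dvd_iff_le, mul_dvd_mul_iff_right hJ, Ideal.dvd_span_singleton] at h1
    exact h1
  have hrange : LinearMap.range ψ0 = LinearMap.ker φ := by
    ext z
    obtain ⟨b, rfl⟩ := (I * J).mkQ_surjective z
    have e : (I * J).mkQ b ∈ LinearMap.ker φ ↔ b ∈ J := by
      simp [φ, Ideal.Quotient.eq_zero_iff_mem]
    rw [e]
    constructor
    · rintro ⟨r, hr⟩
      rw [hψ, Submodule.mkQ_apply, Submodule.mkQ_apply, Submodule.Quotient.eq] at hr
      have h2 := sub_mem (J.mul_mem_left r haJ) (Ideal.mul_le_right hr)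
      rwa [sub_sub_cancel] at h2
    · intro hb
      rw [← ha] at hb
      obtain ⟨u, hu, v, hv, rfl⟩ := Submodule.mem_sup.1 hb
      obtain ⟨r, rfl⟩ := Ideal.mem_span_singleton'.1 hv
      rw [LinearMap.mem_range]
      use r
      rw [hψ, Submodule.mkQ_apply, Submodule.mkQ_apply, Submodule.Quotient.eq]
      simpa using hu
  have e1 : (A ⧸ I) ≃ₗ[A] LinearMap.ker φ :=
    (Submodule.quotEquivOfEq _ _ hker.symm).trans
      (ψ0.quotKerEquivRange.trans (LinearEquiv.ofEq _ _ hrange))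
  have h1 := (φ.restrictScalars F).finrank_range_add_finrank_ker
  have hφ : Function.Surjective φ := fun z => by
    obtain ⟨b, rfl⟩ := J.mkQ_surjective z
    exact ⟨(I * J).mkQ b, rfl⟩
  have h2 : LinearMap.range (φ.restrictScalars F) = ⊤ := LinearMap.range_eq_top.2 hφ
  have h3 : Module.finrank F (LinearMap.ker (φ.restrictScalars F)) = dg F I :=
    (e1.restrictScalars F).finrank_eq.symm
  rw [h2, finrank_top, h3] at h1
  unfold dg at h1 ⊢
  omega

variable (cv : Cv F A)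

theorem d0 : cv.δ 0 = 0 := by simpa using cv.const 0

theorem d1 : cv.δ 1 = 0 := by simpa using cv.const 1

theorem smul_ne {c : F} (hc : c ≠ 0) {f : A} (hf : f ≠ 0) : c • f ≠ 0 := fun h =>
  hf (by rw [← one_smul F f, ← inv_mul_cancel₀ hc, mul_smul, h, smul_zero])

theorem dsmul {c : F} (hc : c ≠ 0) (f : A) : cv.δ (c • f) = cv.δ f := by
  have := cv.ded
  by_cases hf : f = 0
  · rw [hf, smul_zero]
  · rw [Algebra.smul_def, cv.mul _ _ ((map_ne_zero (algebraMap F A)).2 hc) hf, cv.const, zero_add]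

theorem dpow {z : A} (hz : z ≠ 0) (k : ℕ) : cv.δ (z ^ k) = cv.δ z * k := by
  have := cv.ded
  induction k with
  | zero => simpa using d1 cv
  | succ k ih => rw [pow_succ, cv.mul _ _ (pow_ne_zero k hz) hz, ih, mul_add, mul_one]

/-- the functions with a pole of order less than `n` -/
def Lt (n : ℕ) : Submodule F A where
  carrier := {f | f = 0 ∨ cv.δ f < n}
  zero_mem' := Or.inl rfl
  add_mem' := by
    rintro a b (rfl | ha) (rfl | hb)
    · exact Or.inl (add_zero 0)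
    · exact Or.inr (by rwa [zero_add])
    · exact Or.inr (by rwa [add_zero])
    · exact Or.inr ((cv.add a b).trans_lt (max_lt ha hb))
  smul_mem' := by
    rintro c f (rfl | hf)
    · exact Or.inl (smul_zero c)
    · by_cases hc : c = 0
      · exact Or.inl (by rw [hc, zero_smul])
      · exact Or.inr (by rwa [dsmul cv hc])

theorem add_lt {f g : A} (hf : f ≠ 0) (hg : g ∈ Lt cv (cv.δ f)) :
    f + g ≠ 0 ∧ cv.δ (f + g) = cv.δ f := by
  rcases hg with rfl | hg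
  · rw [add_zero]
    exact ⟨hf, rfl⟩
  have h1 : cv.δ ((-1 : F) • g) = cv.δ g := dsmul cv (by norm_num) g
  have h2 := cv.add (f + g) ((-1 : F) • g)
  rw [h1, neg_one_smul, add_neg_cancel_right] at h2
  have h3 := cv.add f g
  have h4 : cv.δ (f + g) = cv.δ f := by omega
  refine ⟨fun h => ?_, h4⟩
  rw [h, d0] at h4
  omega

theorem sum_max {ι : Type} (s : Finset ι) (t : ι → A)
    (h : ∀ i ∈ s, ∀ j ∈ s, t i ≠ 0 → t j ≠ 0 → cv.δ (t i) = cv.δ (t j) → i = j) {i₀ : ι}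
    (h0 : i₀ ∈ s) (h1 : t i₀ ≠ 0) : ∑ j ∈ s, t j ≠ 0 ∧ ∃ i ∈ s, t i ≠ 0 ∧
      cv.δ (∑ j ∈ s, t j) = cv.δ (t i) ∧ cv.δ (t i₀) ≤ cv.δ (t i) := by
  obtain ⟨i, hi, hm⟩ := (s.filter fun j => t j ≠ 0).exists_max_image (fun j => cv.δ (t j))
    ⟨i₀, mem_filter.2 ⟨h0, h1⟩⟩
  obtain ⟨hi1, hi2⟩ := mem_filter.1 hi
  have h2 : ∑ j ∈ s.erase i, t j ∈ Lt cv (cv.δ (t i)) := by
    refine Submodule.sum_mem _ fun j hj => ?_
    by_cases hj0 : t j = 0
    · exact Or.inl hj0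
    · obtain ⟨hj1, hj2⟩ := mem_erase.1 hj
      exact Or.inr (lt_of_le_of_ne (hm j (mem_filter.2 ⟨hj2, hj0⟩))
        fun e => hj1 (h j hj2 i hi1 hj0 hi2 e))
  have h3 := add_lt cv hi2 h2
  rw [add_sum_erase s t hi1] at h3
  exact ⟨h3.1, i, hi1, hi2, h3.2, hm i₀ (mem_filter.2 ⟨h0, h1⟩)⟩

/-- the pole orders of the elements of `J` -/
def val (J : Submodule F A) : Set ℕ := {m | ∃ f ∈ J, f ≠ 0 ∧ cv.δ f = m}

theorem mem_top {m : ℕ} : m ∈ val cv ⊤ ↔ ∃ f, f ≠ 0 ∧ cv.δ f = m :=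
  ⟨fun ⟨f, _, h⟩ => ⟨f, h⟩, fun ⟨f, h⟩ => ⟨f, trivial, h⟩⟩

theorem exists_b (J : Submodule F A) : ∃ b : ℕ → A,
    (∀ m ∈ val cv ⊤, b m ≠ 0 ∧ cv.δ (b m) = m) ∧ ∀ m ∈ val cv J, b m ∈ J := by
  have h : ∀ m : ℕ, ∃ f : A, (m ∈ val cv ⊤ → f ≠ 0 ∧ cv.δ f = m) ∧ (m ∈ val cv J → f ∈ J) := by
    intro m
    by_cases h1 : m ∈ val cv J
    · obtain ⟨f, h2, h3⟩ := h1
      exact ⟨f, fun _ => h3, fun _ => h2⟩
    by_cases h2 : m ∈ val cv ⊤
    · obtain ⟨f, -, h3⟩ := h2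
      exact ⟨f, fun _ => h3, fun h => absurd h h1⟩
    exact ⟨0, fun h => absurd h h2, fun h => absurd h h1⟩
  choose b hb using h
  exact ⟨b, fun m => (hb m).1, fun m => (hb m).2⟩

variable {cv}

theorem mem_span {b : ℕ → A} (hb : ∀ m ∈ val cv ⊤, b m ≠ 0 ∧ cv.δ (b m) = m) (n : ℕ) :
    ∀ f, cv.δ f ≤ n → f ∈ Submodule.span F (b '' {m | m ∈ val cv ⊤ ∧ m ≤ n}) := by
  induction n using Nat.strong_induction_on with
  | _ n ih =>
    intro f hf
    by_cases h0 : f = 0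
    · rw [h0]
      exact zero_mem _
    have hm : cv.δ f ∈ val cv ⊤ := ⟨f, trivial, h0, rfl⟩
    have h1 : b (cv.δ f) ∈ Submodule.span F (b '' {m | m ∈ val cv ⊤ ∧ m ≤ n}) :=
      Submodule.subset_span ⟨_, ⟨hm, hf⟩, rfl⟩
    obtain ⟨c, h | h⟩ := cv.lc f _ h0 (hb _ hm).1 (hb _ hm).2.symm
    · rw [h]
      exact Submodule.smul_mem _ _ h1
    · have h2 := ih _ (h.trans_le hf) _ le_rfl
      have h3 : f - c • b (cv.δ f) ∈ Submodule.span F (b '' {m | m ∈ val cv ⊤ ∧ m ≤ n}) :=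
        Submodule.span_mono (Set.image_mono fun m hm =>
          And.intro hm.1 (hm.2.trans (h.le.trans hf))) h2
      simpa using add_mem h3 (Submodule.smul_mem _ c h1)

theorem indep {b : ℕ → A} (hb : ∀ m ∈ val cv ⊤, b m ≠ 0 ∧ cv.δ (b m) = m) (J : Submodule F A)
    (T : Finset ℕ) (hT : ∀ m ∈ T, m ∈ val cv ⊤ ∧ m ∉ val cv J) :
    LinearIndependent F fun m : T => J.mkQ (b m) := by
  rw [Fintype.linearIndependent_iff]
  intro g hg i₀
  by_contra h0
  have hd : ∀ i : T, g i • b i ≠ 0 → cv.δ (g i • b i) = i := fun i hi => by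
    rw [dsmul cv (fun e => hi (by rw [e, zero_smul])), (hb _ (hT _ i.2).1).2]
  obtain ⟨h1, i, -, h2, h3, -⟩ := sum_max cv univ (fun i : T => g i • b i)
    (fun i _ j _ hi hj e => Subtype.ext (by rwa [hd i hi, hd j hj] at e)) (mem_univ i₀)
    (smul_ne h0 (hb _ (hT _ i₀.2).1).1)
  refine (hT _ i.2).2 ⟨_, ?_, h1, h3.trans (hd i h2)⟩
  rw [← Submodule.Quotient.mk_eq_zero, ← Submodule.mkQ_apply, map_sum]
  simpa only [map_smul] using hg

variable (cv)

theorem gaps_fin : {n | ¬ ∃ f, f ≠ 0 ∧ cv.δ f = n}.Finite := by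
  obtain ⟨n₀, h⟩ := cv.cof
  exact (Set.finite_lt_nat n₀).subset fun n hn => not_le.1 fun h' => hn (h n h')

/-- the set of gaps -/
noncomputable def gaps : Finset ℕ := (gaps_fin cv).toFinset

theorem mem_gaps {m : ℕ} : m ∈ gaps cv ↔ m ∉ val cv ⊤ := by
  rw [gaps, Set.Finite.mem_toFinset, mem_top]
  rfl

theorem card_gaps : (gaps cv).card = cv.g := (Set.ncard_eq_toFinset_card _ (gaps_fin cv)).symm

theorem finrank_L (n : ℕ) : FiniteDimensional F (cv.L n) ∧
    Module.finrank F (cv.L n) = (range (n + 1) \ gaps cv).card := by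
  obtain ⟨b, hb, -⟩ := exists_b cv ⊥
  have hT : ∀ m, m ∈ range (n + 1) \ gaps cv ↔ m ∈ val cv ⊤ ∧ m ≤ n := fun m => by
    rw [mem_sdiff, mem_range, mem_gaps, not_not, Nat.lt_succ_iff, and_comm]
  have h1 := (indep hb ⊥ (range (n + 1) \ gaps cv) fun m hm =>
    ⟨((hT m).1 hm).1, fun ⟨f, h1, h2, _⟩ => h2 h1⟩).of_comp _
  have h2 : cv.L n = Submodule.span F (Set.range fun m : ↥(range (n + 1) \ gaps cv) => b m) := by
    apply le_antisymm
    · intro f hf
      refine Submodule.span_mono ?_ (mem_span hb n f hf)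
      rintro _ ⟨m, hm, rfl⟩
      exact ⟨⟨m, (hT m).2 hm⟩, rfl⟩
    · rw [Submodule.span_le]
      rintro _ ⟨m, rfl⟩
      have h3 := (hT m).1 m.2
      exact ((hb _ h3.1).2.trans_le h3.2 :)
  rw [h2]
  exact ⟨FiniteDimensional.span_of_finite F (Set.finite_range _),
    by rw [finrank_span_eq_card h1, Fintype.card_coe]⟩

theorem quot (J : Ideal A) (T : Finset ℕ)
    (hT : ∀ m, m ∈ T ↔ m ∈ val cv ⊤ ∧ m ∉ val cv (J.restrictScalars F)) :
    FiniteDimensional F (A ⧸ J) ∧ dg F J = T.card ∧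
      ∀ n, (∀ m ∈ T, m ≤ n) → ∀ a, ∃ b ∈ cv.L n, a - b ∈ J := by
  obtain ⟨b, hb, hbJ⟩ := exists_b cv (J.restrictScalars F)
  have h1 := indep hb (J.restrictScalars F) T fun m hm => (hT m).1 hm
  have h2 : ∀ a, a ∈ Submodule.span F (Set.range fun m : T => b m) ⊔ J.restrictScalars F := by
    intro a
    refine Submodule.span_le.2 ?_ (mem_span hb _ a le_rfl)
    rintro _ ⟨m, hm, rfl⟩
    by_cases h : m ∈ val cv (J.restrictScalars F)
    · exact Submodule.mem_sup_right (hbJ m h)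
    · exact Submodule.mem_sup_left (Submodule.subset_span ⟨⟨m, (hT m).2 ⟨hm.1, h⟩⟩, rfl⟩)
  have h3 : ⊤ ≤ Submodule.span F
      (Set.range fun m : T => (J.restrictScalars F).mkQ (b m)) := by
    intro x _
    obtain ⟨a, rfl⟩ := (J.restrictScalars F).mkQ_surjective x
    obtain ⟨u, hu, v, hv, rfl⟩ := Submodule.mem_sup.1 (h2 a)
    have h4 := Submodule.mem_map_of_mem (f := (J.restrictScalars F).mkQ) hu
    rw [Submodule.map_span, ← Set.range_comp] at h4
    rw [map_add, show (J.restrictScalars F).mkQ v = 0 from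
      (Submodule.Quotient.mk_eq_zero _).2 hv, add_zero]
    exact h4
  have e := Submodule.Quotient.restrictScalarsEquiv F J
  have B := (Module.Basis.mk h1 h3).map e
  refine ⟨Module.Finite.of_basis B, ?_, fun n hn a => ?_⟩
  · rw [dg, Module.finrank_eq_card_basis B, Fintype.card_coe]
  · obtain ⟨u, hu, v, hv, rfl⟩ := Submodule.mem_sup.1 (h2 a)
    refine ⟨u, Submodule.span_le.2 ?_ hu, by simpa using hv⟩
    rintro _ ⟨m, rfl⟩
    exact ((hb _ ((hT m).1 m.2).1).2.trans_le (hn m m.2) :)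

theorem val_add {J : Ideal A} {m s : ℕ} (hm : m ∈ val cv (J.restrictScalars F))
    (hs : s ∈ val cv ⊤) : m + s ∈ val cv (J.restrictScalars F) := by
  have := cv.ded
  obtain ⟨f, h1, h2, rfl⟩ := hm
  obtain ⟨g, -, h3, rfl⟩ := hs
  exact ⟨f * g, J.mul_mem_right g h1, mul_ne_zero h2 h3, cv.mul _ _ h2 h3⟩

theorem ideal : ∃ n₀, ∀ J : Ideal A, J ≠ ⊥ → FiniteDimensional F (A ⧸ J) ∧
    ∀ n, dg F J + n₀ ≤ n → ∀ a, ∃ b ∈ cv.L n, a - b ∈ J := by
  obtain ⟨c, hc⟩ := cv.cof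
  refine ⟨cv.g + c, fun J hJ => ?_⟩
  have hex : ∃ m, m ∈ val cv (J.restrictScalars F) := by
    obtain ⟨f, h1, h2⟩ := Submodule.exists_mem_ne_zero_of_ne_bot hJ
    exact ⟨_, f, h1, h2, rfl⟩
  have h0 := Nat.find_spec hex
  have hlt : ∀ m, m ∉ val cv (J.restrictScalars F) → m < Nat.find hex + c := fun m hm => by
    by_contra h
    have h1 := val_add cv h0 ((mem_top cv).2 (hc (m - Nat.find hex) (by omega)))
    rw [show Nat.find hex + (m - Nat.find hex) = m by omega] at h1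
    exact hm h1
  obtain ⟨h1, h2, h3⟩ := quot cv J ((range (Nat.find hex + c)).filter fun m =>
    m ∈ val cv ⊤ ∧ m ∉ val cv (J.restrictScalars F)) fun m => by
      rw [mem_filter, mem_range]
      exact ⟨fun h => h.2, fun h => ⟨hlt m h.2, h⟩⟩
  refine ⟨h1, fun n hn => h3 n fun m hm => ?_⟩
  have h4 : range (Nat.find hex) \ gaps cv ⊆ (range (Nat.find hex + c)).filter fun m =>
      m ∈ val cv ⊤ ∧ m ∉ val cv (J.restrictScalars F) := fun k hk => by
    rw [mem_sdiff, mem_range, mem_gaps, not_not] at hk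
    exact mem_filter.2 ⟨mem_range.2 (by omega), hk.2, Nat.find_min hex hk.1⟩
  have h5 := card_le_card h4
  have h6 := le_card_sdiff (gaps cv) (range (Nat.find hex))
  rw [card_range, card_gaps] at h6
  have h7 := mem_range.1 (mem_filter.1 hm).1
  omega

theorem dg_span {f : A} (hf : f ≠ 0) : dg F (Ideal.span {f}) = cv.δ f := by
  have := cv.ded
  have hv : ∀ m, m ∈ val cv ((Ideal.span {f}).restrictScalars F) ↔
      cv.δ f ≤ m ∧ m - cv.δ f ∈ val cv ⊤ := fun m => by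
    constructor
    · rintro ⟨g, h1, h2, rfl⟩
      obtain ⟨a, rfl⟩ := Ideal.mem_span_singleton'.1 h1
      have ha := left_ne_zero_of_mul h2
      rw [cv.mul _ _ ha hf]
      exact ⟨by omega, a, trivial, ha, by omega⟩
    · rintro ⟨h1, h2⟩
      have h3 := val_add cv (J := Ideal.span {f})
        ⟨f, Ideal.mem_span_singleton_self f, hf, rfl⟩ h2
      rwa [show cv.δ f + (m - cv.δ f) = m by omega] at h3
  have hU : ∀ m, m ∈ range (cv.δ f) ∪ (gaps cv).image (· + cv.δ f) ↔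
      m ∉ val cv ((Ideal.span {f}).restrictScalars F) := fun m => by
    rw [hv, mem_union, mem_range, mem_image, not_and]
    constructor
    · rintro (h | ⟨k, h, rfl⟩) h1
      · omega
      · rwa [Nat.add_sub_cancel, ← mem_gaps]
    · intro h
      by_cases h1 : m < cv.δ f
      · exact Or.inl h1
      · exact Or.inr ⟨m - cv.δ f, (mem_gaps cv).2 (h (by omega)), by omega⟩
  have hsub : gaps cv ⊆ range (cv.δ f) ∪ (gaps cv).image (· + cv.δ f) := fun m hm =>
    (hU m).2 fun ⟨g, _, h⟩ => (mem_gaps cv).1 hm ⟨g, trivial, h⟩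
  have hdis : Disjoint (range (cv.δ f)) ((gaps cv).image (· + cv.δ f)) := by
    rw [disjoint_left]
    intro m h1 h2
    obtain ⟨k, -, rfl⟩ := mem_image.1 h2
    have := mem_range.1 h1
    omega
  rw [(quot cv _ ((range (cv.δ f) ∪ (gaps cv).image (· + cv.δ f)) \ gaps cv) fun m => by
    rw [mem_sdiff, hU, mem_gaps, not_not, and_comm]).2.1, card_sdiff_of_subset hsub,
    card_union_of_disjoint hdis, card_range, card_image_of_injective _ (add_left_injective _)]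
  omega

theorem d_aeval {z : A} (hz : 0 < cv.δ z) {p : F[X]} (hp : p ≠ 0) :
    aeval z p ≠ 0 ∧ cv.δ (aeval z p) = cv.δ z * p.natDegree := by
  have := cv.ded
  have hz0 : z ≠ 0 := fun h => by rw [h, d0] at hz; omega
  have h1 : p.leadingCoeff • z ^ p.natDegree ≠ 0 :=
    smul_ne (leadingCoeff_ne_zero.2 hp) (pow_ne_zero _ hz0)
  have h2 : cv.δ (p.leadingCoeff • z ^ p.natDegree) = cv.δ z * p.natDegree := by
    rw [dsmul cv (leadingCoeff_ne_zero.2 hp), dpow cv hz0]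
  have h3 : ∑ k ∈ range p.natDegree, p.coeff k • z ^ k ∈
      Lt cv (cv.δ (p.leadingCoeff • z ^ p.natDegree)) := by
    refine Submodule.sum_mem _ fun k hk => Submodule.smul_mem _ _ (Or.inr ?_)
    rw [h2, dpow cv hz0]
    exact Nat.mul_lt_mul_of_pos_left (mem_range.1 hk) hz
  have h4 := add_lt cv h1 h3
  rw [h2, add_comm, leadingCoeff, ← sum_range_succ (fun k => p.coeff k • z ^ k),
    ← aeval_eq_sum_range] at h4
  exact h4

theorem basis {z : A} (hz : 0 < cv.δ z) : ∃ y : Fin (cv.δ z) → A,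
    (∀ i, y i ≠ 0 ∧ cv.δ (y i) % cv.δ z = i.1) ∧ (∀ i, i.1 = 0 → y i = 1) ∧
    (∀ a, ∃ c : Fin (cv.δ z) → F[X], a = ∑ i, aeval z (c i) * y i) ∧
    (∀ c : Fin (cv.δ z) → F[X], ∀ i, c i ≠ 0 → ∑ j, aeval z (c j) * y j ≠ 0 ∧
      cv.δ z * (c i).natDegree + cv.δ (y i) ≤ cv.δ (∑ j, aeval z (c j) * y j)) := by
  have := cv.ded
  have hz0 : z ≠ 0 := fun h => by rw [h, d0] at hz; omega
  have hex : ∀ i : Fin (cv.δ z), ∃ y : A, (y ≠ 0 ∧ cv.δ y % cv.δ z = i.1) ∧ (i.1 = 0 → y = 1) ∧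
      ∀ f, f ≠ 0 → cv.δ f % cv.δ z = i.1 → cv.δ y ≤ cv.δ f := fun i => by
    by_cases hi : i.1 = 0
    · exact ⟨1, ⟨one_ne_zero, by rw [d1, hi, Nat.zero_mod]⟩, fun _ => rfl,
        fun f _ _ => by rw [d1]; exact Nat.zero_le _⟩
    obtain ⟨c, hc⟩ := cv.cof
    have h1 : ∃ m, ∃ y : A, y ≠ 0 ∧ cv.δ y = m ∧ m % cv.δ z = i.1 := by
      obtain ⟨y, h1, h2⟩ := hc (i.1 + cv.δ z * c) (by nlinarith)
      exact ⟨_, y, h1, h2, by rw [Nat.add_mul_mod_self_left, Nat.mod_eq_of_lt i.2]⟩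
    obtain ⟨y, h2, h3, h4⟩ := Nat.find_spec h1
    exact ⟨y, ⟨h2, by rwa [h3]⟩, fun h => absurd h hi,
      fun f hf h => h3 ▸ Nat.find_min' h1 ⟨f, hf, rfl, h⟩⟩
  choose y hy hy1 hmin using hex
  refine ⟨y, hy, hy1, fun a => ?_, fun c i hi => ?_⟩
  · induction hn : cv.δ a using Nat.strong_induction_on generalizing a with
    | _ n ih =>
      by_cases h0 : a = 0
      · exact ⟨0, by simp [h0]⟩
      let i : Fin (cv.δ z) := ⟨cv.δ a % cv.δ z, Nat.mod_lt _ hz⟩
      have h1 := hmin i a h0 rfl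
      obtain ⟨k, hk⟩ : cv.δ z ∣ cv.δ a - cv.δ (y i) :=
        (Nat.modEq_iff_dvd' h1).1 ((hy i).2 : cv.δ (y i) % cv.δ z = cv.δ a % cv.δ z)
      have h2 : cv.δ a = cv.δ (z ^ k * y i) := by
        rw [cv.mul _ _ (pow_ne_zero k hz0) (hy i).1, dpow cv hz0]
        omega
      have h3 : ∀ c : F, c • (z ^ k * y i) =
          ∑ j, aeval z (Pi.single (M := fun _ => F[X]) i (C c * X ^ k) j) * y j := fun c => by
        rw [sum_eq_single i (fun j _ hj => by simp [Pi.single_eq_of_ne hj]) (by simp)]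
        simp [Algebra.smul_def, mul_assoc]
      obtain ⟨c, h | h⟩ := cv.lc a _ h0 (mul_ne_zero (pow_ne_zero k hz0) (hy i).1) h2
      · exact ⟨_, h.trans (h3 c)⟩
      · obtain ⟨c', hc'⟩ := ih _ (hn ▸ h) _ rfl
        refine ⟨c' + Pi.single (M := fun _ => F[X]) i (C c * X ^ k), ?_⟩
        simp only [Pi.add_apply, map_add, add_mul, sum_add_distrib]
        rw [← hc', ← h3, sub_add_cancel]
  · have hd : ∀ j, c j ≠ 0 → aeval z (c j) * y j ≠ 0 ∧
        cv.δ (aeval z (c j) * y j) = cv.δ z * (c j).natDegree + cv.δ (y j) := fun j hj => by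
      obtain ⟨h1, h2⟩ := d_aeval cv hz hj
      exact ⟨mul_ne_zero h1 (hy j).1, by rw [cv.mul _ _ h1 (hy j).1, h2]⟩
    have hm : ∀ j, aeval z (c j) * y j ≠ 0 → cv.δ (aeval z (c j) * y j) % cv.δ z = j.1 :=
      fun j hj => by
        rw [(hd j fun e => hj (by simp [e])).2, Nat.mul_add_mod, (hy j).2]
    obtain ⟨h1, j, -, -, h2, h3⟩ := sum_max cv univ (fun j => aeval z (c j) * y j)
      (fun j _ l _ hj hl e => Fin.ext (by rw [← hm j hj, ← hm l hl, e])) (mem_univ i) (hd i hi).1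
    exact ⟨h1, by rw [h2, ← (hd i hi).2]; exact h3⟩

end PCv

open PCv in
theorem p_cv : S_Cv := by
  intro F A _ _ _ _ cv
  have := cv.ded
  obtain ⟨n₀, h⟩ := ideal cv
  obtain ⟨c, hc⟩ := cv.cof
  refine ⟨fun I hI => (h I hI).1, dg_mul fun I hI => (h I hI).1, fun f hf => dg_span cv hf,
    fun P hP e => ?_, fun f hf => ?_, fun n => ⟨(finrank_L cv n).1, ?_⟩, ⟨c, fun n hn => ?_⟩,
    ⟨n₀, fun J hJ => (h J hJ).2⟩, fun z hz => basis cv hz⟩
  · obtain ⟨f, h1, h2⟩ := hc (c + 1) (Nat.le_succ c)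
    have h3 : Ideal.span {f} = ⊤ := by
      by_contra h3
      have h4 := hP.eq_of_le h3 (e ▸ bot_le)
      rw [e, eq_comm, Ideal.span_singleton_eq_bot] at h4
      exact h1 h4
    have h4 := dg_span cv h1
    rw [h3, dg, Module.finrank_zero_of_subsingleton] at h4
    omega
  · by_cases h0 : f = 0
    · exact ⟨0, by simp [h0]⟩
    obtain ⟨a, h1 | h1⟩ := cv.lc f 1 h0 one_ne_zero (by rw [hf, d1])
    · exact ⟨a, by rw [h1, Algebra.algebraMap_eq_smul_one]⟩
    · omega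
  · have h1 := le_card_sdiff (gaps cv) (range (n + 1))
    rw [card_range, card_gaps] at h1
    rw [(finrank_L cv n).2]
    omega
  · have h1 : gaps cv ⊆ range (n + 1) := fun m hm => by
      rw [mem_range]
      by_contra h2
      exact (mem_gaps cv).1 hm ((mem_top cv).2 (hc m (by omega)))
    rw [(finrank_L cv n).2, ← card_gaps, card_sdiff_add_card_eq_card h1, card_range]

end Pool.Agent.P.MP_b8021b_nt.VC
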