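import Pool.Agent.P.MP_b8021b_nt.VC.PCvEx1

/-! The ring of functions that are regular outside a rational point. -/

namespace Pool.Agent.P.MP_b8021b_nt.VC

open Polynomial Finset WithZero Pool.Agent.P.MP_b8021b_nt.VE
open scoped Classical WithZero IntermediateField

namespace CvExP

variable {k F : Type} [Field k] [NumberField k] [Field F] [Algebra k F]

theorem v_const (p : GPt F) {c : k} (hc : c ≠ 0) : p.v (algebraMap k F c) = 1 :=
  (p.ord_eq_zero_iff ((_root_.map_ne_zero _).2 hc)).1 (p.ord_alg (algebraMap k F) c)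

theorem ord_of_alg {L : Type} [Field L] [Algebra ℚ L] [Algebra.IsAlgebraic ℚ L] [Algebra L F]
    (p : GPt F) {a : F} (ha : IsAlgebraic L a) : p.ord a = 0 := by
  have key : ∀ a : F, IsAlgebraic L a → 0 ≤ p.ord a := fun a ha => by
    obtain ⟨q, hq, h1⟩ := ha.isIntegral
    let j : L →+* p.v.integer :=
      (algebraMap L F).codRestrict p.v.integer fun a => p.mem_of_alg (algebraMap L F) a
    refine p.ord_nonneg ((Valuation.integer.integers p.v).mem_of_integral ⟨q.map j, hq.map j, ?_⟩)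
    rw [eval₂_map]
    exact h1
  have h1 := key a ha
  have h2 := key a⁻¹ ha.inv
  rw [p.ord_inv] at h2
  omega

/-- principal parts: all fractions with a power of `t` as denominator lie in a fixed space -/
theorem exists_parts (h0 : S_S0) (hfin : ∀ f : F, f ≠ 0 → {p : GPt F | p.ord f ≠ 0}.Finite)
    (t : F) (ht : t ≠ 0) [FiniteDimensional k⟮t⟯ F] :
    ∃ U : Submodule k F, FiniteDimensional k U ∧ ∀ N : ℕ, ∀ b ∈ B k t, b / t ^ N ∈
      ((B k t).toSubmodule ⊔ (regOn k {p | p.ord t < 0}).toSubmodule) ⊔ U := by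
  obtain ⟨-, -, n, z, hz, hT⟩ := struct (k := k) h0 t
  obtain ⟨C, hC⟩ : ∃ C : ℕ, ∀ j, ∀ p : GPt F, -(C : ℤ) ≤ p.ord (z j) := by
    have h1 : ∀ j, ∃ C : ℕ, ∀ p : GPt F, -(C : ℤ) ≤ p.ord (z j) := fun j => by
      rcases eq_or_ne (z j) 0 with h | h
      · exact ⟨0, fun p => by simp [h, p.ord_zero]⟩
      obtain ⟨m, hm⟩ := ((hfin _ h).image fun p => p.ord (z j)).bddBelow
      refine ⟨(-m).toNat, fun p => ?_⟩
      by_cases hp : p.ord (z j) = 0
      · omega
      · have := hm ⟨p, hp, rfl⟩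
        simp only at this
        omega
    choose c hc using h1
    refine ⟨univ.sup c, fun j p => le_trans ?_ (hc j p)⟩
    have := le_sup (f := c) (mem_univ j)
    omega
  refine ⟨Submodule.span k (Set.range fun x : Fin C × Fin n => z x.2 / t ^ x.1.1),
    FiniteDimensional.span_of_finite k (Set.finite_range _), fun N b hb => ?_⟩
  have key := hT (Submodule.comap (LinearMap.mulRight k (t ^ N)⁻¹)
    (((B k t).toSubmodule ⊔ (regOn k {p | p.ord t < 0}).toSubmodule) ⊔
      Submodule.span k (Set.range fun x : Fin C × Fin n => z x.2 / t ^ x.1.1)))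
    (fun l j => ?_) b hb
  · rw [div_eq_mul_inv]
    exact key
  rw [Submodule.mem_comap, LinearMap.mulRight_apply]
  rcases le_or_gt N l with h | h
  · obtain ⟨m, rfl⟩ := Nat.exists_eq_add_of_le h
    rw [show t ^ (N + m) * z j * (t ^ N)⁻¹ = t ^ m * z j by field_simp; ring]
    exact Submodule.mem_sup_left (Submodule.mem_sup_left
      ((B k t).mul_mem ((B k t).pow_mem (fun _ hp => hp) m) (hz j)))
  obtain ⟨m, rfl⟩ := Nat.exists_eq_add_of_le h.le
  rw [show t ^ l * z j * (t ^ (l + m))⁻¹ = z j / t ^ m by field_simp; ring]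
  rcases lt_or_ge m C with h1 | h1
  · exact Submodule.mem_sup_right (Submodule.subset_span ⟨(⟨m, h1⟩, j), rfl⟩)
  refine Submodule.mem_sup_left (Submodule.mem_sup_right fun p hp => ?_)
  rcases eq_or_ne (z j) 0 with h2 | h2
  · rw [h2, zero_div]
    exact zero_mem _
  rw [← p.ord_nonneg_iff (div_ne_zero h2 (pow_ne_zero m ht)), p.ord_div h2 (pow_ne_zero m ht),
    p.ord_pow]
  have h3 := hC j p
  have h4 : p.ord t < 0 := hp
  have h5 : (C : ℤ) ≤ m := by exact_mod_cast h1
  nlinarith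

/-- all large integers are orders of poles -/
theorem cof (h0 : S_S0) (hfin : ∀ f : F, f ≠ 0 → {p : GPt F | p.ord f ≠ 0}.Finite) (O : GPt F)
    (t : F) (ht : O.ord t = 1) [FiniteDimensional k⟮t⟯ F] :
    ∃ n₀ : ℕ, ∀ n : ℕ, n₀ ≤ n → ∃ f, f ≠ 0 ∧ Reg O f ∧ O.ord f = -n := by
  have ht0 : t ≠ 0 := fun h => by
    rw [h, O.ord_zero] at ht
    exact zero_ne_one ht
  have hO : t ∈ O.v.valuationSubring := (O.ord_nonneg_iff ht0).1 (by omega)
  obtain ⟨hd, hf, -⟩ := struct (k := k) h0 t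
  obtain ⟨w, hw1, ⟨s, hs⟩, hw2⟩ := exists_pole (R := B k t) h0 O (fun r => r.2 O hO)
    ⟨t, fun _ hp => hp⟩ ht
  have hw0 : w ≠ 0 := fun h => by
    rw [h, O.ord_zero] at hw1
    omega
  have hw3 : ∀ p : GPt F, t ∈ p.v.valuationSubring → p.v ≠ O.v → w ∈ p.v.valuationSubring :=
    fun p hp => hw2 p fun r => r.2 p hp
  obtain ⟨U, hU, hU'⟩ := exists_parts (k := k) h0 hfin t ht0
  have h1 : ∀ i : ℕ, ∃ u : U, w ^ i - u ∈
      (B k t).toSubmodule ⊔ (regOn k {p | p.ord t < 0}).toSubmodule := fun i => by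
    have h2 := hU' i (s ^ i) (pow_mem s.2 i)
    have h3 : (s : F) = t * w := hs
    rw [h3, mul_pow, mul_div_cancel_left₀ _ (pow_ne_zero i ht0)] at h2
    obtain ⟨a, ha, u, hu, e⟩ := Submodule.mem_sup.1 h2
    exact ⟨⟨u, hu⟩, by rw [← e, add_sub_cancel_right]; exact ha⟩
  choose u hu using h1
  let G : Set ℕ := {n | ¬ ∃ f, f ≠ 0 ∧ Reg O f ∧ O.ord f = -n}
  have hG : LinearIndependent k fun i : G => u i := by
    rw [linearIndependent_iff']
    intro S g hg
    by_contra hc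
    push Not at hc
    obtain ⟨i₀, hi₀, hmax⟩ := exists_max_image (S.filter fun i => g i ≠ 0) (fun i => (i : ℕ))
      (hc.imp fun i hi => mem_filter.2 hi)
    have h2 : ∑ i ∈ S, g i • w ^ (i : ℕ) ∈
        (B k t).toSubmodule ⊔ (regOn k {p | p.ord t < 0}).toSubmodule := by
      have h3 := congrArg U.subtype hg
      rw [map_sum, map_zero] at h3
      rw [← sub_zero (∑ i ∈ S, g i • w ^ (i : ℕ)), ← h3, ← sum_sub_distrib]
      refine Submodule.sum_mem _ fun i _ => ?_
      rw [map_smul, ← smul_sub]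
      exact Submodule.smul_mem _ _ (hu i)
    obtain ⟨b, hb, a, ha, e⟩ := Submodule.mem_sup.1 h2
    have hv : ∀ i : G, g i ≠ 0 → O.v (g i • w ^ (i : ℕ)) = exp ((i : ℕ) : ℤ) := fun i hi => by
      rw [Algebra.smul_def, map_mul, v_const O hi, one_mul, O.v_eq (pow_ne_zero _ hw0), O.ord_pow,
        hw1]
      simp
    have h3 : O.v (∑ i ∈ S, g i • w ^ (i : ℕ)) = exp ((i₀ : ℕ) : ℤ) := by
      rw [O.v.map_sum_eq_of_lt (mem_filter.1 hi₀).1, hv _ (mem_filter.1 hi₀).2]
      intro i hi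
      rw [hv _ (mem_filter.1 hi₀).2]
      by_cases h4 : g i = 0
      · rw [h4, zero_smul, map_zero]
        exact exp_pos
      rw [hv i h4, exp_lt_exp, Nat.cast_lt]
      obtain ⟨h5, h6⟩ := mem_sdiff.1 hi
      exact lt_of_le_of_ne (hmax i (mem_filter.2 ⟨h5, h4⟩)) fun h =>
        h6 (mem_singleton.2 (Subtype.ext h))
    have h4 : (i₀ : ℕ) ≠ 0 := fun h =>
      i₀.2 ⟨1, one_ne_zero, fun p _ => one_mem _, by rw [h, O.ord_one]; rfl⟩
    have h5 : O.v a = exp ((i₀ : ℕ) : ℤ) := by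
      rw [eq_sub_of_add_eq' e, O.v.map_sub_eq_of_lt_left, h3]
      rw [h3]
      refine lt_of_le_of_lt (hb O hO) ?_
      rw [← exp_zero, exp_lt_exp]
      omega
    refine i₀.2 ⟨a, fun h => ?_, fun p hp => ?_, by rw [GPt.ord, h5, log_exp]⟩
    · rw [h, map_zero] at h5
      exact exp_ne_zero h5.symm
    by_cases h6 : t ∈ p.v.valuationSubring
    · rw [eq_sub_of_add_eq' e]
      refine sub_mem (sum_mem fun i _ => ?_) (hb p h6)
      rw [Algebra.smul_def]
      exact mul_mem (p.mem_of_alg (algebraMap k F) _) (pow_mem (hw3 p h6 hp) _)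
    · exact ha p ((p.ord_neg_iff t).2 h6)
  obtain ⟨m, hm⟩ := (Set.finite_coe_iff.1 hG.finite_of_isNoetherian).bddAbove
  refine ⟨m + 1, fun n hn => by_contra fun h => ?_⟩
  have := hm (show n ∈ G from h)
  omega

end CvExP

open CvExP

theorem p_cvEx (h0 : VE.S_S0) (h1 : S_Crv) (h2 : S_Fin) : S_CvEx := by
  intro k F _ _ _ _ _ hF O hO
  obtain ⟨hfin, -, hz, -⟩ := h2 F hF
  have hfd : ∀ t : F, O.ord t ≠ 0 → FiniteDimensional k⟮t⟯ F := fun t ht =>
    (h1.2.1 k F t fun h => ht (ord_of_alg O h)).1 hF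
  obtain ⟨t, ht⟩ := O.surj (exp (-1))
  have ht1 : O.ord t = 1 := by rw [GPt.ord, ht, log_exp, neg_neg]
  have := hfd t (by omega)
  obtain ⟨n₀, hn⟩ := cof (k := k) h0 hfin O t ht1
  obtain ⟨f, hf0, hf1, hf2⟩ := hn (n₀ + 1) (Nat.le_succ _)
  have := hfd f (by omega)
  obtain ⟨hd, hfr, -⟩ := struct (k := k) h0 f
  have hA : ∀ a, a ∈ B k f ↔ Reg O a := fun a => by
    refine forall_congr' fun p => imp_congr_left ⟨fun h e => ?_, hf1 p⟩
    have h3 : f ∈ O.v.valuationSubring := e ▸ h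
    have := O.ord_nonneg h3
    omega
  have hle : ∀ a : B k f, O.ord (a : F) ≤ 0 := fun a => by
    by_contra hc
    have h3 : Transcendental ℚ (a : F)⁻¹ := fun h => by
      have := ord_of_alg O h
      rw [O.ord_inv] at this
      omega
    obtain ⟨p, hp⟩ := hz _ h3
    rw [p.ord_inv] at hp
    by_cases e : p.v = O.v
    · rw [GPt.ord, e] at hp
      rw [GPt.ord] at hc
      omega
    · have := p.ord_nonneg ((hA a).1 a.2 p e)
      omega
  have hne : ∀ a : B k f, a ≠ 0 → (a : F) ≠ 0 := fun a ha h => ha (Subtype.ext h)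
  refine ⟨B k f, ⟨fun a => (-O.ord (a : F)).toNat, hd, fun a b ha hb => ?_, fun a b => ?_,
    fun c => ?_, fun a b ha hb e => ?_, n₀, fun n h => ?_⟩, hA, hfr, fun a _ => ?_⟩
  · have := hle a
    have := hle b
    rw [Subalgebra.coe_mul, O.ord_mul (hne a ha) (hne b hb)]
    omega
  · rcases eq_or_ne a 0 with rfl | ha
    · rw [zero_add]
      exact le_max_right _ _
    rcases eq_or_ne b 0 with rfl | hb
    · rw [add_zero]
      exact le_max_left _ _
    rcases eq_or_ne (a + b) 0 with h | h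
    · rw [h, Subalgebra.coe_zero, O.ord_zero]
      exact Nat.zero_le _
    have h3 := O.v.map_add (a : F) b
    rw [← Subalgebra.coe_add, O.v_eq (hne _ h), O.v_eq (hne a ha), O.v_eq (hne b hb),
      le_max_iff, exp_le_exp, exp_le_exp] at h3
    omega
  · rw [Subalgebra.coe_algebraMap, O.ord_alg (algebraMap k F) c]
    rfl
  · have h3 := hle a
    have h4 := hle b
    have h5 : O.ord ((a : F) / b) = 0 := by
      rw [O.ord_div (hne a ha) (hne b hb)]
      omega
    obtain ⟨c, -, hc⟩ := O.exists_val_ne (div_ne_zero (hne a ha) (hne b hb)) h5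
    obtain ⟨x, hx⟩ := hO _ c hc
    refine ⟨x, or_iff_not_imp_left.2 fun h => ?_⟩
    have h6 := hne _ (sub_ne_zero.2 h)
    have h7 := hc.sub hx
    have h8 : (a : F) / b - algebraMap k F x = (a - x • b : B k f) / b := by
      rw [Subalgebra.coe_sub, Subalgebra.coe_smul, Algebra.smul_def]
      field_simp [hne b hb]
    rw [sub_self, h8] at h7
    have h9 := h7.ord_pos (div_ne_zero h6 (hne b hb))
    rw [O.ord_div h6 (hne b hb)] at h9
    have := hle (a - x • b)
    omega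
  · obtain ⟨g, hg0, hg1, hg2⟩ := hn n h
    refine ⟨⟨g, (hA g).2 hg1⟩, fun e => hg0 (congrArg Subtype.val e), ?_⟩
    simp only [hg2, neg_neg, Int.toNat_natCast]
  · have := hle a
    simp only
    omega

end Pool.Agent.P.MP_b8021b_nt.VC
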