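import Pool.Agent.P.MP_b8021b_nt.VC.StA
import Pool.Agent.P.MP_b8021b_nt.VC.BasicA

/-! Degrees, norms and homogeneous evaluation. -/

namespace Pool.Agent.P.MP_b8021b_nt.VC

open Polynomial NumberField Finset Pool.Agent.P.MP_b8021b_nt.VE
open scoped Classical

namespace PDeg

theorem dvd_congr {r : ℤ} (hr : Prime r) : ∀ (n m : ℕ) (g c g' c' : ℤ), m ≤ 2 * n →
    r ^ n ∣ g - g' → r ^ n ∣ c - c' → r ^ m ∣ g' ^ 2 + r * c' ^ 2 → r ^ m ∣ g ^ 2 + r * c ^ 2 := by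
  intro n
  induction n with
  | zero =>
    intro m g c g' c' hm _ _ _
    rw [Nat.le_zero.1 hm, pow_zero]
    exact one_dvd _
  | succ n ih =>
    intro m g c g' c' hm hg hc h
    rcases m with _ | m
    · rw [pow_zero]
      exact one_dvd _
    have h1 : r ∣ g' := hr.dvd_of_dvd_pow (n := 2)
      ((dvd_add_left (dvd_mul_right r (c' ^ 2))).1 ((dvd_pow_self r (Nat.succ_ne_zero m)).trans h))
    have h2 : r ∣ g := by
      have := dvd_add ((dvd_pow_self r (Nat.succ_ne_zero n)).trans hg) h1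
      rwa [sub_add_cancel] at this
    rcases m with _ | m
    · rw [zero_add, pow_one]
      exact dvd_add (h2.trans (dvd_pow_self g two_ne_zero)) (dvd_mul_right _ _)
    obtain ⟨g', rfl⟩ := h1
    obtain ⟨g, rfl⟩ := h2
    have h3 : r ∣ c' := by
      have h4 : r * r ∣ r * (r * g' ^ 2 + c' ^ 2) := by
        rw [show r * (r * g' ^ 2 + c' ^ 2) = (r * g') ^ 2 + r * c' ^ 2 by ring, ← sq]
        exact (pow_dvd_pow r (by omega)).trans h
      exact hr.dvd_of_dvd_pow (n := 2) ((dvd_add_right (dvd_mul_right r (g' ^ 2))).1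
        ((mul_dvd_mul_iff_left hr.ne_zero).1 h4))
    have h4 : r ∣ c := by
      have := dvd_add ((dvd_pow_self r (Nat.succ_ne_zero n)).trans hc) h3
      rwa [sub_add_cancel] at this
    obtain ⟨c', rfl⟩ := h3
    obtain ⟨c, rfl⟩ := h4
    rw [← mul_sub, pow_succ', mul_dvd_mul_iff_left hr.ne_zero] at hg hc
    have e : ∀ x y : ℤ, (r * x) ^ 2 + r * (r * y) ^ 2 = r ^ 2 * (x ^ 2 + r * y ^ 2) :=
      fun x y => by ring
    rw [e, show r ^ (m + 1 + 1) = r ^ 2 * r ^ m by ring,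
      mul_dvd_mul_iff_left (pow_ne_zero 2 hr.ne_zero)] at h ⊢
    exact ih m g c g' c' (by omega) hg hc h

theorem exists_place (r : ℕ) (hr : r.Prime) (K : Type) [Field K] [NumberField K] :
    ∃ v : IsDedekindDomain.HeightOneSpectrum (𝓞 K), (r : 𝓞 K) ∈ v.asIdeal := by
  have h0 : (r : 𝓞 K) ≠ 0 := Nat.cast_ne_zero.2 hr.ne_zero
  have h1 : Ideal.span {(r : 𝓞 K)} ≠ ⊤ := by
    intro h
    have h2 := congrArg Ideal.absNorm h
    rw [Ideal.absNorm_span_singleton, Ideal.absNorm_top, ← map_natCast (algebraMap ℤ (𝓞 K)),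
      Algebra.norm_algebraMap_of_basis (RingOfIntegers.basis K), Int.natAbs_pow,
      Int.natAbs_natCast, Nat.pow_eq_one] at h2
    rcases h2 with h2 | h2
    · exact hr.one_lt.ne' h2
    · exact Fintype.card_ne_zero h2
  obtain ⟨M, hM, h2⟩ := Ideal.exists_le_maximal _ h1
  have h3 : (r : 𝓞 K) ∈ M := h2 (Ideal.mem_span_singleton_self _)
  exact ⟨⟨M, hM.isPrime, fun h => h0 (by simpa [h] using h3)⟩, h3⟩

theorem val_hev {r : ℕ} (hr : r.Prime) {F G : ℤ[X]} {a' b' E : ℕ} (ha' : 0 < a')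
    (hS : Slope r F G a' b') (hG : G.Monic) (hG0 : 0 < G.natDegree) {u : ℤ}
    (hu : ¬ (r : ℤ) ∣ u) (hF : F.leadingCoeff = r ^ E * u) {a b : ℤ} (ha : (r : ℤ) ∣ a - 1)
    (hb : (r : ℤ) ∣ b) (hb0 : b ≠ 0) :
    (r : ℤ) ^ E ∣ hev F.natDegree F a b ∧ ¬ (r : ℤ) ^ (E + 1) ∣ hev F.natDegree F a b := by
  have hrp : Prime (r : ℤ) := Nat.prime_iff_prime_int.mp hr
  obtain ⟨K, _, _, hsp⟩ : ∃ (K : Type) (_ : Field K) (_ : NumberField K),
      (F.map (Int.castRingHom K)).Splits := by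
    refine ⟨(F.map (Int.castRingHom ℚ)).SplittingField, inferInstance,
      NumberField.of_module_finite ℚ _, ?_⟩
    have := SplittingField.splits (F.map (Int.castRingHom ℚ))
    rwa [Polynomial.map_map, Subsingleton.elim (RingHom.comp _ _) (Int.castRingHom _)] at this
  obtain ⟨v, hv⟩ := exists_place r hr K
  have hS' := fun θ => hS K v θ hv
  have w1 : ∀ n : ℤ, v.valuation K (n : K) ≤ 1 := fun n => by
    have : v.valuation K (algebraMap (𝓞 K) K n) ≤ 1 := v.valuation_le_one (K := K) (n : 𝓞 K)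
    rwa [map_intCast] at this
  have w2 : v.valuation K (r : K) < 1 := by
    have : v.valuation K (algebraMap (𝓞 K) K r) < 1 :=
      (v.valuation_lt_one_iff_mem (K := K) (r : 𝓞 K)).2 hv
    rwa [map_natCast] at this
  generalize v.valuation K = w at hS' w1 w2
  have w3 : ∀ n : ℤ, (r : ℤ) ∣ n → w (n : K) < 1 := by
    rintro _ ⟨n, rfl⟩
    rw [Int.cast_mul, map_mul, Int.cast_natCast]
    exact lt_of_le_of_lt (mul_le_of_le_one_right' (w1 n)) w2
  have w4 : ∀ n : ℤ, ¬ (r : ℤ) ∣ n → w (n : K) = 1 := fun n hn => by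
    obtain ⟨x, y, h⟩ := (hrp.coprime_iff_not_dvd).2 hn
    refine le_antisymm (w1 n) (not_lt.1 fun h1 => ?_)
    have h2 : w ((x * r : ℤ) + (y * n : ℤ) : K) < 1 := by
      refine w.map_add_lt (w3 _ (dvd_mul_left _ _)) ?_
      rw [Int.cast_mul, map_mul]
      exact lt_of_le_of_lt (mul_le_of_le_one_left' (w1 y)) h1
    rw [← Int.cast_add, h] at h2
    simp at h2
  have w5 : ∀ θ : K, aeval θ F = 0 → w θ ≤ 1 := fun θ hθ => by
    have h1 : w (aeval θ G) ≤ 1 := by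
      rw [← pow_le_one_iff ha'.ne', hS' θ hθ]
      exact pow_le_one' w2.le _
    refine (Valuation.integer.integers w).mem_of_integral
      ⟨G.map (Int.castRingHom w.integer) - C ⟨aeval θ G, h1⟩, ?_, ?_⟩
    · refine (hG.map _).sub_of_left (degree_C_le.trans_lt ?_)
      rw [hG.degree_map]
      exact natDegree_pos_iff_degree_pos.1 hG0
    · rw [eval₂_sub, eval₂_C, eval₂_map, sub_eq_zero,
        Subsingleton.elim (RingHom.comp _ _) (algebraMap ℤ K)]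
      rfl
  have hbK : (b : K) ≠ 0 := Int.cast_ne_zero.2 hb0
  have hinj : Function.Injective (Int.castRingHom K) := Int.cast_injective
  have hu0 : u ≠ 0 := fun h => hu (h ▸ dvd_zero _)
  have hF0 : F ≠ 0 := leadingCoeff_ne_zero.1 (hF ▸ mul_ne_zero (pow_ne_zero _ hrp.ne_zero) hu0)
  have key : w (hev F.natDegree F a b : ℤ) = w (r : K) ^ E := by
    rw [hev_div le_rfl a hbK, aeval_eq_eval_map, hsp.eval_eq_prod_roots,
      leadingCoeff_map_of_injective hinj, mul_left_comm, ← natDegree_map_eq_of_injective hinj F,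
      hsp.natDegree_eq_card_roots, ← Multiset.prod_replicate, ← Multiset.map_const',
      ← Multiset.prod_map_mul, map_mul, map_multiset_prod, Multiset.prod_eq_one, mul_one, hF]
    · simp [w4 u hu]
    · intro x hx
      simp only [Multiset.map_map, Multiset.mem_map, Function.comp] at hx
      obtain ⟨θ, hθ, rfl⟩ := hx
      have h1 := w5 θ (by rw [aeval_eq_eval_map]; exact (mem_roots'.1 hθ).2)
      rw [show (b : K) * (a / b - θ) = 1 + ((a - 1 : ℤ) - θ * b) by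
        push_cast
        field_simp
        ring]
      refine w.map_one_add_of_lt (w.map_sub_lt (w3 _ ha) ?_)
      rw [map_mul]
      exact lt_of_le_of_lt (mul_le_of_le_one_left' h1) (w3 _ hb)
  have hr0 : w (r : K) ≠ 0 := w.ne_zero_iff.2 (Nat.cast_ne_zero.2 hr.ne_zero)
  have hN0 : hev F.natDegree F a b ≠ 0 := fun h => by
    rw [h, Int.cast_zero, map_zero] at key
    exact pow_ne_zero _ hr0 key.symm
  obtain ⟨k, c, hc, hk⟩ := WfDvdMonoid.max_power_factor' hN0 hrp.not_isUnit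
  rw [hk, Int.cast_mul, map_mul, w4 c hc, mul_one, Int.cast_pow, map_pow, Int.cast_natCast] at key
  have hkE : k = E := (pow_right_strictAnti₀ (zero_lt_iff.2 hr0) w2).injective key
  rw [hk, hkE]
  refine ⟨dvd_mul_right _ _, fun h => hc ?_⟩
  rwa [pow_succ, mul_dvd_mul_iff_left (pow_ne_zero _ hrp.ne_zero)] at h

variable {R : Type} [CommRing R] [Algebra ℤ[X] R] (p : Par R)

theorem top (s : p.Co) : ∃ u : ℤ, ¬ (p.r : ℤ) ∣ u ∧
    (p.F s).coeff (2 * p.e * p.dd) = (p.r : ℤ) ^ p.e0 * u := by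
  have hrp : Prime (p.r : ℤ) := Nat.prime_iff_prime_int.mp p.hr
  have h1 : (p.r : ℤ) ^ p.n0 ∣ (p.gp s p.i0).coeff p.dd - (p.g0 p.i0).coeff p.dd := by
    rw [← coeff_sub]
    exact (C_dvd_iff_dvd_coeff _ _).1 ((dvd_mul_right _ _).trans (p.dvd_gp s _)) _
  have h2 : (p.r : ℤ) ^ p.n0 ∣ (p.cp s p.i0).coeff p.dd - (p.k0 p.i0).coeff p.dd := by
    rw [← coeff_sub]
    exact (C_dvd_iff_dvd_coeff _ _).1 ((dvd_mul_right _ _).trans (p.dvd_cp s _)) _
  obtain ⟨u, hu⟩ := dvd_congr hrp _ _ _ _ _ _ p.he1.le h1 h2 p.top.1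
  refine ⟨u ^ p.e, fun h => p.top.2 ?_, ?_⟩
  · refine dvd_congr hrp _ _ _ _ _ _ p.he1 (dvd_sub_comm.1 h1) (dvd_sub_comm.1 h2) ?_
    rw [hu, pow_succ]
    exact mul_dvd_mul_left _ (hrp.dvd_of_dvd_pow h)
  · rw [p.coeff_F_top, hu, mul_pow, ← pow_mul, Par.e0, mul_comm p.e1]

theorem natDegree_F (s : p.Co) : p.F s ≠ 0 ∧ (p.F s).natDegree = 2 * p.e * p.dd := by
  obtain ⟨u, hu, h⟩ := top p s
  have h1 : (p.F s).coeff (2 * p.e * p.dd) ≠ 0 :=
    h ▸ mul_ne_zero (pow_ne_zero _ (Nat.cast_ne_zero.2 p.hr.ne_zero)) fun h0 =>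
      hu (h0 ▸ dvd_zero _)
  exact ⟨fun h0 => h1 (by simp [h0]),
    le_antisymm (p.natDegree_F_le s) (le_natDegree_of_ne_zero h1)⟩

theorem fibre (s : p.Co) (t : ℤ × ℤ) (ht : p.Adm t) :
    (p.r : ℤ) ^ p.e0 ∣ p.N s t ∧ ¬ (p.r : ℤ) ^ (p.e0 + 1) ∣ p.N s t ∧
      p.Gt t ≠ 0 ∧ p.Dt t ≠ 0 ∧ t.1 < 0 ∧ ¬ (p.r : ℤ) ∣ p.Gt t ∧
      ∀ l : ℕ, l.Prime → l ≠ p.r → IsCoprime t.1 t.2 → (l : ℤ) ∣ p.Gt t →
        ¬ (l : ℤ) ∣ p.N s t := by
  obtain ⟨h1, h2, h3, h4, h5, -, -⟩ := ht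
  have hrp : Prime (p.r : ℤ) := Nat.prime_iff_prime_int.mp p.hr
  have hn0 : p.n0 ≠ 0 := (Nat.zero_lt_of_lt p.hn).ne'
  have ha : (p.r : ℤ) ∣ t.1 - 1 := (dvd_pow_self _ hn0).trans h4
  have hb : (p.r : ℤ) ∣ t.2 := by
    have := dvd_add ((dvd_pow_self _ hn0).trans h5) (dvd_pow_self (p.r : ℤ) p.b0_pos.ne')
    rwa [sub_add_cancel] at this
  have hbR : (0 : ℝ) < t.2 := by exact_mod_cast h1
  obtain ⟨u, hu, hF⟩ := top p s
  obtain ⟨a', b', ha', hS⟩ := p.slope_F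
  have hd := (natDegree_F p s).2
  have hv := val_hev p.hr ha' (hS s) p.monic p.ρ_pos hu (by rw [leadingCoeff, hd, hF]) ha hb h1.ne'
  rw [hd] at hv
  have hg := p.good _ h2 h3
  have hG : ∀ m : ℤ, m ∣ t.2 → m ∣ p.Gt t - t.1 ^ p.ρ := fun m hm => by
    have := dvd_hev_sub p.ρ p.G (m := m) (a := t.1) (b := t.2) (a' := t.1) (b' := 0) (by simp)
      (by simpa using hm)
    rwa [hev_b_zero, show p.G.coeff p.ρ = 1 from p.monic.coeff_natDegree, one_mul] at this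
  refine ⟨hv.1, hv.2, fun h => ?_, fun h => ?_, ?_, fun h => ?_, fun l hl hlr hc hlG hlN => ?_⟩
  · have := hev_div (K := ℝ) (d := p.ρ) (g := p.G) le_rfl t.1 hbR.ne'
    rw [show hev p.ρ p.G t.1 t.2 = 0 from h, Int.cast_zero] at this
    exact mul_ne_zero (pow_ne_zero _ hbR.ne') hg.2 this.symm
  · have := hev_div (K := ℝ) p.hD t.1 hbR.ne'
    rw [show hev p.dD p.Dp t.1 t.2 = 0 from h, Int.cast_zero] at this
    exact mul_ne_zero (pow_ne_zero _ hbR.ne') hg.1 this.symm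
  · have h6 : (t.1 : ℝ) / t.2 < 0 := by
      have := p.τle
      linarith
    have h7 := (div_neg_iff.1 h6).resolve_left fun h => absurd h.2 hbR.not_gt
    exact_mod_cast h7.1
  · have h6 := hrp.dvd_of_dvd_pow ((dvd_sub_right h).1 (hG _ hb))
    exact hrp.not_dvd_one ((dvd_sub_right h6).1 ha)
  · have hlp : Prime (l : ℤ) := Nat.prime_iff_prime_int.mp hl
    have := Fact.mk hl
    have h6 : (t.2 : ZMod l) ≠ 0 := fun h => by
      have h7 := (ZMod.intCast_zmod_eq_zero_iff_dvd _ _).1 h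
      exact hlp.not_isUnit (hc.isUnit_of_dvd'
        (hlp.dvd_of_dvd_pow ((dvd_sub_right hlG).1 (hG _ h7))) h7)
    have h7 := hev_div (K := ZMod l) (d := p.ρ) (g := p.G) le_rfl t.1 h6
    have h8 := hev_div (K := ZMod l) hd.le t.1 h6
    rw [show ((hev p.ρ p.G t.1 t.2 : ℤ) : ZMod l) = 0 from
      (ZMod.intCast_zmod_eq_zero_iff_dvd _ _).2 hlG] at h7
    rw [show ((hev (2 * p.e * p.dd) (p.F s) t.1 t.2 : ℤ) : ZMod l) = 0 from
      (ZMod.intCast_zmod_eq_zero_iff_dvd _ _).2 hlN] at h8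
    obtain ⟨E, hE⟩ := p.mem_F
    obtain ⟨x, y, hxy⟩ := hE s
    have h9 := congrArg (aeval ((t.1 : ZMod l) / t.2)) hxy
    rw [map_add, map_mul, map_mul, (mul_eq_zero.1 h7.symm).resolve_left (pow_ne_zero _ h6),
      (mul_eq_zero.1 h8.symm).resolve_left (pow_ne_zero _ h6), mul_zero, mul_zero, add_zero,
      aeval_C, eq_intCast] at h9
    have h10 := hlp.dvd_of_dvd_pow ((ZMod.intCast_zmod_eq_zero_iff_dvd _ _).1 h9.symm)
    exact hlr ((Nat.prime_dvd_prime_iff_eq hl p.hr).1 (Int.natCast_dvd_natCast.1 h10))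

end PDeg

theorem p_deg : S_Deg := by
  intro R _ _ p
  refine ⟨⟨p.cp_monic _, p.toTab.natDegree_cp _, fun l => ?_⟩, fun t => ⟨p.Pt_monic t, p.natDegree_Pt t⟩,
    ⟨fun h => ?_, p.ρ_pos, ?_, p.b0_pos, fun i => ⟨p.d_add i, p.two_le_d i⟩⟩,
    fun s i => ⟨p.natDegree_gp s i, p.natDegree_cp s i⟩,
    fun g c hg hc => ⟨Tab.natDegree_nm_le p.r p.κ_le hg hc, Tab.coeff_nm_top p.r p.κ_le hg hc⟩,
    p.slope_F, fun s => ⟨(PDeg.natDegree_F p s).1, (PDeg.natDegree_F p s).2, ?_⟩,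
    fun s t ht => ?_, PDeg.fibre p⟩
  · by_cases h : p.toTab.P.coeff l = 0
    · simp [h]
    · have := Tab.cp_natDegree_wle (Tab.y_mem_Lw (T := p.toTab) p.toTab.i1) h
      rw [Nat.sub_mul]
      exact Nat.le_sub_of_add_le this
  · exact (p.good p.τ0 le_rfl (by linarith)).1 (by simp [h])
  · exact Int.natAbs_pos.2 (leadingCoeff_ne_zero.2 p.P0.1)
  · obtain ⟨E, hE⟩ := p.mem_F
    exact ⟨E, hE s⟩
  · rw [Par.FR, ← aeval_eq_eval_map]
    exact hev_div (p.natDegree_F_le s) _ (by exact_mod_cast ht)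

end Pool.Agent.P.MP_b8021b_nt.VC
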