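import Pool.Agent.P.MP_b8021b_nt.VC.PDescS

/-! The cyclic subextension of the splitting field. -/

namespace Pool.Agent.P.MP_b8021b_nt.VC

open Polynomial NumberField Finset Pool.Agent.P.MP_b8021b_nt.VE IsDedekindDomain
open scoped Classical

namespace Cycb

theorem val_le {F N : Type} [Field F] [Field N] [NumberField N] [Algebra F N]
    (v : HeightOneSpectrum (𝓞 N)) (g : N ≃ₐ[F] N) (h : act (g : N →+* N) v.asIdeal = v.asIdeal)
    (x : 𝓞 N) : v.intValuation (g • x) ≤ v.intValuation x := by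
  by_cases hx : x = 0
  · simp [hx]
  rw [v.intValuation_if_neg hx, v.intValuation_le_pow_iff_mem, ← h, act, ← Ideal.map_pow]
  refine Ideal.mem_map_of_mem _ ?_
  rw [← v.intValuation_le_pow_iff_mem, v.intValuation_if_neg hx, ← act, h]

theorem val_pow {F N : Type} [Field F] [NumberField F] [Field N] [NumberField N] [Algebra F N]
    [IsGalois F N] (v : HeightOneSpectrum (𝓞 N))
    (h : ∀ g : N ≃ₐ[F] N, act (g : N →+* N) v.asIdeal = v.asIdeal) {x y a : 𝓞 N}
    (hx : algebraMap F N (Algebra.norm F (x : N)) = y * a) :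
    v.intValuation x ^ Module.finrank F N ≤ v.intValuation y := by
  have h1 : ∏ g : N ≃ₐ[F] N, g • x = y * a := Subtype.ext (by
    rw [Algebra.norm_eq_prod_automorphisms] at hx
    exact (map_prod (algebraMap (𝓞 N) N) _ _).trans hx)
  refine le_trans ?_ (mul_le_of_le_one_right' (v.intValuation_le_one a))
  rw [← map_mul, ← h1, map_prod, ← IsGalois.card_aut_eq_finrank, Nat.card_eq_fintype_card,
    ← card_univ, ← prod_const]
  exact prod_le_prod' fun g _ => by simpa using val_le v g⁻¹ (h _) (g • x)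

end Cycb

theorem d_cycb (hT : S_Tame) (hB : S_BCN) : S_Cyc := by
  intro k _ _ _ K L N _ _ _ _ _ _ _ _ e P M θ h hs
  have he := h.he
  set p := P.map (Int.castRingHom k) with hp
  have hsep := h.irr.separable
  have hG : IsGalois k N := IsGalois.of_separable_splitting_field hsep
  have hd : p.natDegree = e := by rw [hp, h.monic.natDegree_map, h.deg]
  have hc : Nat.card (N ≃ₐ[k] N) = e * Module.finrank L N := by
    rw [IsGalois.card_aut_eq_finrank, ← h.fin, Module.finrank_mul_finrank]
  have hi : Function.Injective (MulAction.toPermHom (N ≃ₐ[k] N) (p.rootSet N)) :=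
    (injective_iff_map_eq_one _).2 fun g hg => AlgEquiv.coe_toAlgHom_injective
      (AlgHom.ext_of_adjoin_eq_top (IsSplittingField.adjoin_rootSet N p) fun x hx =>
        congrArg Subtype.val (Equiv.congr_fun hg ⟨x, hx⟩))
  have hm : (Module.finrank L N).Coprime e := by
    have h1 := Subgroup.card_dvd_of_injective _ hi
    rw [hc, Nat.card_perm, Nat.card_eq_fintype_card,
      card_rootSet_eq_natDegree hsep (IsSplittingField.splits N p), hd,
      ← Nat.mul_factorial_pred he.ne_zero] at h1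
    refine ((Nat.Prime.coprime_iff_not_dvd he).2 fun h2 => ?_).symm
    have := he.dvd_factorial.1 (h2.trans (Nat.dvd_of_mul_dvd_mul_left he.pos h1))
    have := he.pos
    omega
  have : Fact e.Prime := ⟨he⟩
  obtain ⟨σ, hσ⟩ := exists_prime_orderOf_dvd_card' (G := N ≃ₐ[k] N) e ⟨_, hc⟩
  let F := IntermediateField.fixedField (Subgroup.zpowers σ)
  have h1 : Module.finrank F N = e := by
    rw [IntermediateField.finrank_fixedField_eq_card, Nat.card_zpowers, hσ]
  have h2 : Module.finrank k F = Module.finrank L N := by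
    refine Nat.eq_of_mul_eq_mul_right he.pos ?_
    rw [mul_comm _ e, mul_comm _ e, ← hc, IsGalois.card_aut_eq_finrank,
      ← Module.finrank_mul_finrank k F N, h1, mul_comm]
  have h3 : Algebra.adjoin F {algebraMap L N θ} = ⊤ := by
    refine ((Subalgebra.isSimpleOrder_of_finrank_prime F N (h1 ▸ he)).eq_bot_or_eq_top _).resolve_left
      fun hb => ?_
    obtain ⟨x, hx⟩ := Algebra.mem_bot.1 (hb ▸ Algebra.self_mem_adjoin_singleton F (algebraMap L N θ))
    have hr : aeval x p = 0 := by
      refine (algebraMap F N).injective ?_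
      rw [← aeval_algebraMap_apply, hx, map_zero, hp, ← algebraMap_int_eq, aeval_map_algebraMap,
        aeval_algebraMap_apply, RingOfIntegers.coe_eq_algebraMap, aeval_algebraMap_apply, h.root,
        map_zero, map_zero]
    have := minpoly.degree_dvd (Algebra.IsIntegral.isIntegral (R := k) x)
    rw [← minpoly.eq_of_irreducible_of_monic h.irr hr (h.monic.map _), hd, h2] at this
    exact he.one_lt.ne' (Nat.Coprime.eq_one_of_dvd hm.symm this)
  refine ⟨hG, F, h1, h2, hm, h3, fun 𝔓 h𝔓 hR hin => ?_⟩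
  obtain ⟨u, c, j, a, a', hcj, hu, hu'⟩ := h.wild
  have hN := (hB.1 k L F N (h1.trans h.fin.symm) (top_unique (h3 ▸ Algebra.adjoin_mono
    (Set.singleton_subset_iff.2 ⟨_, rfl⟩)))).1
  have he0 : (e : 𝓞 N) ≠ 0 := Nat.cast_ne_zero.2 he.ne_zero
  let v : HeightOneSpectrum (𝓞 N) := ⟨𝔓, h𝔓.isPrime, fun e => he0 (by rwa [e] at hin)⟩
  have h4 : ∀ (x : 𝓞 L) (a : 𝓞 k), Algebra.norm k (x : L) = (e : k) ^ (e * j + 1) * a →
      v.intValuation (algebraMap _ (𝓞 N) x) ^ e ≤ v.intValuation e ^ (e * j + 1) := fun x a hx => by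
    have := Cycb.val_pow v (hT F N 𝔓 (h1 ▸ he) h𝔓 hR).2.1 (x := algebraMap _ (𝓞 N) x)
      (y := e ^ (e * j + 1)) (a := algebraMap _ (𝓞 N) a) (by
        refine (congrArg (algebraMap F N) (hN x)).trans ?_
        rw [hx, ← IsScalarTower.algebraMap_apply, map_mul, map_pow, map_natCast]
        rfl)
    rwa [h1, map_pow] at this
  have h5 : v.intValuation c ^ e ≤ v.intValuation e ^ (e * j + 1) := by
    have : (c : 𝓞 N) = algebraMap _ (𝓞 N) u - algebraMap _ (𝓞 N) (u - c) := by simp
    rw [this]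
    rcases le_max_iff.1 (v.intValuation.map_sub _ _) with h | h
    · exact (pow_le_pow_left₀ zero_le h e).trans (h4 u a hu)
    · exact (pow_le_pow_left₀ zero_le h e).trans (h4 (u - c) a' hu')
  have hc0 : c ≠ 0 := fun e => hcj (e ▸ dvd_zero _)
  obtain ⟨c', hc', hnd⟩ := (Int.finiteMultiplicity_iff.2 ⟨(by simpa using he.one_lt.ne'), hc0⟩ :
    FiniteMultiplicity (e : ℤ) c).exists_eq_pow_mul_and_not_dvd
  generalize multiplicity (e : ℤ) c = i at hc'
  have hij : i ≤ j := by
    by_contra hlt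
    exact hcj (hc' ▸ (pow_dvd_pow _ (by omega)).mul_right _)
  have h6 : v.intValuation c' = 1 := by
    refine v.intValuation_eq_one_iff.2 fun hm => h𝔓.ne_top ((Ideal.eq_top_iff_one _).2 ?_)
    obtain ⟨x, y, hxy⟩ := (Nat.prime_iff_prime_int.1 he).irreducible.coprime_iff_not_dvd.2 hnd
    have := congrArg (Int.cast : ℤ → 𝓞 N) hxy
    push_cast at this
    rw [← this]
    exact add_mem (𝔓.mul_mem_left _ hin) (𝔓.mul_mem_left _ hm)
  rw [hc'] at h5
  push_cast at h5
  rw [map_mul, h6, mul_one, map_pow, ← pow_mul] at h5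
  have h7 := (pow_le_pow_iff_right_of_lt_one₀ (zero_lt_iff.2 (v.intValuation_ne_zero _ he0))
    ((v.intValuation_lt_one_iff_mem _).2 hin)).1 h5
  nlinarith [Nat.mul_le_mul_right e hij]

end Pool.Agent.P.MP_b8021b_nt.VC
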