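import Pool.Agent.P.MP_b8021b_nt.VC.PDescS

/-! Extension of a unitary character from a monoid of ideals to all ideals prime to `n`. -/

namespace Pool.Agent.P.MP_b8021b_nt.VC

open NumberField Pool.Agent.P.MP_b8021b_nt.VE
open scoped Classical nonZeroDivisors

namespace DExt

theorem baer : Module.Baer ℤ (Additive Circle) := by
  let _ : DivisibleBy (Additive Circle) ℤ := divisibleByOfSMulRightSurj _ _ fun {n} hn z => by
    obtain ⟨t, ht⟩ := Circle.exp_surjective z.toMul
    refine ⟨Additive.ofMul (Circle.exp (t / n)), ?_⟩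
    have h : (n : ℝ) ≠ 0 := Int.cast_ne_zero.2 hn
    change Additive.ofMul (Circle.exp (t / n) ^ n) = z
    rw [← Circle.exp_intCast_mul, mul_div_cancel₀ _ h, ht]
    rfl
  exact Module.Baer.of_divisible _

theorem ext_hom {G X : Type} [CommGroup G] [Monoid X] (μ : X →* G) (φ : X →* Circle)
    (h : ∀ x y, μ x = μ y → φ x = φ y) : ∃ Φ : G →* Circle, ∀ x, Φ (μ x) = φ x := by
  let Γ : Subgroup (G × Circle) :=
    { carrier := {p | ∃ x y, p = (μ x / μ y, φ x / φ y)}
      one_mem' := ⟨1, 1, Prod.ext (by simp) (by simp)⟩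
      mul_mem' := by
        rintro _ _ ⟨x, y, rfl⟩ ⟨x', y', rfl⟩
        exact ⟨x * x', y * y', by simp [div_mul_div_comm]⟩
      inv_mem' := by
        rintro _ ⟨x, y, rfl⟩
        exact ⟨y, x, by simp⟩ }
  have hi : Function.Injective ((MonoidHom.fst G Circle).comp Γ.subtype) := by
    rw [injective_iff_map_eq_one]
    rintro ⟨_, x, y, rfl⟩ e
    have e' : μ x = μ y := div_eq_one.1 e
    exact Subtype.ext (by simp [e', h x y e'])
  obtain ⟨Φ, hΦ⟩ := baer.extension_property_addMonoidHom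
    (MonoidHom.toAdditive ((MonoidHom.fst G Circle).comp Γ.subtype)) hi
    (MonoidHom.toAdditive ((MonoidHom.snd G Circle).comp Γ.subtype))
  exact ⟨MonoidHom.toAdditive.symm Φ, fun x =>
    DFunLike.congr_fun hΦ (Additive.ofMul ⟨(μ x, φ x), x, 1, by simp⟩)⟩

end DExt

theorem d_ext : S_Ext := by
  intro E _ _ n X _ ν f hn hν hf hfν
  have h0 : ∀ I : Ideal (𝓞 E), Cop n I → I ≠ 0 := by
    rintro I hI rfl
    have h1 : IsUnit (n : 𝓞 E) := Ideal.span_singleton_eq_top.1
      (Ideal.isUnit_iff.1 (isCoprime_zero_left.1 hI))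
    have h2 := h1.map (Algebra.norm ℤ)
    rw [← map_natCast (algebraMap ℤ (𝓞 E)), Algebra.norm_algebraMap,
      isUnit_pow_iff Module.finrank_pos.ne', Int.isUnit_iff] at h2
    omega
  have hm : ∀ I J : Ideal (𝓞 E), Cop n (I * J) ↔ Cop n I ∧ Cop n J := fun I J =>
    IsCoprime.mul_left_iff
  let μ : X →* (FractionalIdeal (𝓞 E)⁰ E)ˣ := (FractionalIdeal.mk0 E).comp
    (ν.codRestrict (Ideal (𝓞 E))⁰ fun x => mem_nonZeroDivisors_of_ne_zero (h0 _ (hν x)))
  let φ : X →* Circle := f.codRestrict (Submonoid.unitSphere ℂ) fun x => by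
    simpa [Submonoid.unitSphere] using hf x
  obtain ⟨Φ, hΦ⟩ := DExt.ext_hom μ φ fun x y e => Subtype.ext (hfν x y
    (FractionalIdeal.coeIdeal_injective (K := E) (congrArg Units.val e)))
  let g : Ideal (𝓞 E) → ℂ := fun I => if h : Cop n I then
    Φ (FractionalIdeal.mk0 E ⟨I, mem_nonZeroDivisors_of_ne_zero (h0 I h)⟩) else 0
  have h1 : Cop n (1 : Ideal (𝓞 E)) := isCoprime_one_left
  refine ⟨{ toFun := g, map_one' := ?_, map_mul' := fun I J => ?_ }, ⟨fun I hI => ?_,
    fun I hI => dif_neg hI⟩, fun x => ?_⟩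
  · simp only [g, dif_pos h1]
    rw [show (⟨1, _⟩ : (Ideal (𝓞 E))⁰) = 1 from rfl, map_one, map_one, Circle.coe_one]
  · by_cases hI : Cop n I
    · by_cases hJ : Cop n J
      · simp only [g, dif_pos hI, dif_pos hJ, dif_pos ((hm I J).2 ⟨hI, hJ⟩)]
        rw [← Circle.coe_mul, ← map_mul, ← map_mul]
        rfl
      · simp only [g, dif_neg hJ, dif_neg fun h => hJ ((hm I J).1 h).2, mul_zero]
    · simp only [g, dif_neg hI, dif_neg fun h => hI ((hm I J).1 h).1, zero_mul]
  · change ‖g I‖ = 1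
    simp only [g, dif_pos hI, Circle.norm_coe]
  · change g (ν x) = f x
    simp only [g, dif_pos (hν x)]
    exact congrArg Subtype.val (hΦ x)

end Pool.Agent.P.MP_b8021b_nt.VC
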