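import Pool.Agent.P.MP_b8021b_nt.VC.DDesc
import Pool.Agent.P.MP_b8021b_nt.VC.DExt
import Pool.Agent.P.MP_b8021b_nt.VC.DCycb

namespace Pool.Agent.P.MP_b8021b_nt.VC

theorem p_desc (hTyp : S_Typ) (hTame : S_Tame) (hBCN : S_BCN) (hKer : S_Ker) : S_Desc :=
  d_desc hTyp hBCN hKer d_ext (d_cycb hTame hBCN)

end Pool.Agent.P.MP_b8021b_nt.VC
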