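import Pool.Agent.P.MP_b8021b_nt.VC.StT

/-! The number of points on a fibre is close to its mean: a second moment bound. -/

namespace Pool.Agent.P.MP_b8021b_nt.VC

open Polynomial NumberField Finset Pool.Agent.P.MP_b8021b_nt.VE
open scoped Classical ComplexConjugate

namespace DevP

lemma norm_sq (S : Finset ℕ) (c : ℕ → ℂ) (a : ℕ → ℝ) : ‖∑ q ∈ S, c q * a q‖ ^ 2 =
    ∑ q ∈ S, ∑ q' ∈ S, (c q * conj (c q')).re * (a q * a q') := by
  rw [← Complex.normSq_eq_norm_sq, ← Complex.ofReal_re (Complex.normSq _), ← Complex.mul_conj,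
    map_sum, sum_mul_sum, Complex.re_sum]
  refine sum_congr rfl fun q _ => ?_
  rw [Complex.re_sum]
  refine sum_congr rfl fun q' _ => ?_
  rw [map_mul, Complex.conj_ofReal, mul_mul_mul_comm, ← Complex.ofReal_mul, Complex.re_mul_ofReal]

lemma avg {T Z : Type} [Fintype Z] [DecidableEq Z] (s : Finset T) (w : T → ℝ) (π : T → Z) (f : Z → ℝ) (K ε : ℝ)
    (hf : ∀ z, |f z| ≤ K) (h : ∀ z, |∑ t ∈ s with π t = z, w t - 1 / Fintype.card Z| ≤
      ε / Fintype.card Z) (hZ : 0 < Fintype.card Z) :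
    |∑ t ∈ s, w t * f (π t)| ≤ |∑ z, f z| / Fintype.card Z + K * ε := by
  have h0 : (0 : ℝ) < Fintype.card Z := by exact_mod_cast hZ
  have e : ∑ t ∈ s, w t * f (π t) = (∑ z, f z) / Fintype.card Z +
      ∑ z, f z * (∑ t ∈ s with π t = z, w t - 1 / Fintype.card Z) := by
    rw [sum_div, ← sum_add_distrib, ← sum_fiberwise_of_maps_to (t := univ) (g := π)
      fun _ _ => mem_univ _]
    refine sum_congr rfl fun z _ => ?_
    rw [mul_sub, mul_one_div, add_sub_cancel, mul_sum]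
    exact sum_congr rfl fun t ht => by rw [(mem_filter.1 ht).2, mul_comm]
  rw [e]
  refine (abs_add_le _ _).trans (add_le_add (by rw [abs_div, abs_of_pos h0]) ?_)
  refine (abs_sum_le_sum_abs _ _).trans ?_
  calc _ ≤ ∑ _z : Z, K * (ε / Fintype.card Z) := sum_le_sum fun z _ => by
        rw [abs_mul]
        exact mul_le_mul (hf z) (h z) (abs_nonneg _) ((abs_nonneg _).trans (hf z))
    _ = K * ε := by rw [sum_const, card_univ, nsmul_eq_mul]; field_simp

variable {R : Type} [CommRing R] [Algebra ℤ[X] R] (p : Par R)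

/-- the deviation of the number of points from its mean -/
noncomputable def dv (t : ℤ × ℤ) (q : ℕ) : ℝ := p.rho t q - (Xq p q).card / (2 * q)

/-- the deviation as a function of the residue class -/
noncomputable def gv (q : ℕ) (s : ZMod q × ZMod q) : ℝ :=
  (((Xq p q).filter fun x => s.1 = x.2.1 * s.2 ∧ s.2 ≠ 0).card : ℝ) / 2 - (Xq p q).card / (2 * q)

lemma gv_cast (t : ℤ × ℤ) (q : ℕ) : gv p q ((t.1 : ZMod q), (t.2 : ZMod q)) = dv p t q := by
  unfold gv dv Par.rho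
  congr 4
  refine filter_congr fun x hx => ?_
  rw [Par.OnT, (mem_Xq.1 hx).1, ← ZMod.intCast_zmod_eq_zero_iff_dvd,
    ← ZMod.intCast_zmod_eq_zero_iff_dvd]
  push_cast
  rw [sub_eq_zero]

lemma dv_le (hC : S_Card) (t : ℤ × ℤ) {q : ℕ} (hq : 0 < q) : |dv p t q| ≤ p.e := by
  obtain ⟨h1, -, h3, -⟩ := hC R p q
  have h4 : ((Xq p q).card : ℝ) ≤ 2 * p.e * q := by exact_mod_cast h1
  have h5 : (((Xq p q).filter fun x => p.OnT x t).card : ℝ) ≤ 2 * p.e := by exact_mod_cast h3 t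
  have h6 : (0 : ℝ) < q := by exact_mod_cast hq
  have h7 : ((Xq p q).card : ℝ) / (2 * q) ≤ p.e := by rw [div_le_iff₀ (by positivity)]; linarith
  have h8 : 0 ≤ ((Xq p q).card : ℝ) / (2 * q) := by positivity
  have h9 : (0 : ℝ) ≤ ((Xq p q).filter fun x => p.OnT x t).card := by positivity
  unfold dv Par.rho
  rw [abs_le]
  constructor <;> linarith

lemma gv_le (hC : S_Card) {q : ℕ} (hq : 0 < q) (s : ZMod q × ZMod q) : |gv p q s| ≤ p.e := by
  obtain ⟨a, b⟩ := s
  obtain ⟨a, rfl⟩ := ZMod.intCast_surjective a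
  obtain ⟨b, rfl⟩ := ZMod.intCast_surjective b
  exact (gv_cast p (a, b) q).symm ▸ dv_le p hC (a, b) hq

lemma sum_gv (hC : S_Card) (q : ℕ) [NeZero q] : |∑ s, gv p q s| ≤ p.e * q := by
  have h0 : (q : ℝ) ≠ 0 := by exact_mod_cast NeZero.ne q
  have h1 : ∀ τ : ZMod q, ((univ.filter fun s : ZMod q × ZMod q =>
      s.1 = τ * s.2 ∧ s.2 ≠ 0).card : ℝ) = q - 1 := fun τ => by
    have : (univ.filter fun s : ZMod q × ZMod q => s.1 = τ * s.2 ∧ s.2 ≠ 0) =
        (univ.erase (0 : ZMod q)).image fun b => (τ * b, b) := by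
      ext ⟨a, b⟩
      simp only [mem_filter, mem_univ, true_and, mem_image, mem_erase, and_true, Prod.mk.injEq]
      exact ⟨fun h => ⟨b, h.2, h.1.symm, rfl⟩, fun ⟨_, h1, h2, h3⟩ => h3 ▸ ⟨h2.symm, h1⟩⟩
    rw [this, card_image_of_injective _ fun a b h => congrArg Prod.snd h,
      card_erase_of_mem (mem_univ _), card_univ, ZMod.card, Nat.cast_sub (NeZero.pos q),
      Nat.cast_one]
  have h2 : ∑ s : ZMod q × ZMod q, (((Xq p q).filter fun x => s.1 = x.2.1 * s.2 ∧ s.2 ≠ 0).card : ℝ)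
      = (Xq p q).card * (q - 1) := by
    simp only [card_filter, Nat.cast_sum]
    rw [sum_comm, ← nsmul_eq_mul, ← sum_const]
    refine sum_congr rfl fun x _ => ?_
    rw [← h1 x.2.1, card_filter, Nat.cast_sum]
  have h3 : ∑ s, gv p q s = -((Xq p q).card / 2) := by
    unfold gv
    rw [sum_sub_distrib, ← sum_div, h2, sum_const, card_univ, Fintype.card_prod, ZMod.card,
      nsmul_eq_mul]
    push_cast
    field_simp
    ring
  have h4 : ((Xq p q).card : ℝ) ≤ 2 * p.e * q := by exact_mod_cast (hC R p q).1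
  rw [h3, abs_neg, abs_of_nonneg (by positivity)]
  linarith

lemma off (hC : S_Card) (s : Finset (ℤ × ℤ)) (w : ℤ × ℤ → ℝ) {q q' : ℕ} (hq : 0 < q) (hq' : 0 < q')
    (hc : q.Coprime q') (ε : ℝ) (h : ∀ z : ZMod (q * q') × ZMod (q * q'),
      |∑ t ∈ s with ((t.1 : ZMod (q * q')), (t.2 : ZMod (q * q'))) = z, w t -
        1 / ((q * q' : ℕ) : ℝ) ^ 2| ≤ ε / ((q * q' : ℕ) : ℝ) ^ 2) :
    |∑ t ∈ s, w t * (dv p t q * dv p t q')| ≤ p.e ^ 2 * (1 / (q * q') + ε) := by
  have : NeZero q := ⟨hq.ne'⟩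
  have : NeZero q' := ⟨hq'.ne'⟩
  have : NeZero (q * q') := ⟨(Nat.mul_pos hq hq').ne'⟩
  let c := ZMod.chineseRemainder hc
  let E := (c.toEquiv.prodCongr c.toEquiv).trans (Equiv.prodProdProdComm _ _ _ _)
  have hE : ∀ t : ℤ × ℤ, E ((t.1 : ZMod (q * q')), (t.2 : ZMod (q * q'))) =
      (((t.1 : ZMod q), (t.2 : ZMod q)), ((t.1 : ZMod q'), (t.2 : ZMod q'))) := fun t => by
    change (((c _).1, (c _).1), ((c _).2, (c _).2)) = _
    simp only [map_intCast, Prod.fst_intCast, Prod.snd_intCast]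
  have hk : (Fintype.card (ZMod (q * q') × ZMod (q * q')) : ℝ) = ((q * q' : ℕ) : ℝ) ^ 2 := by
    rw [Fintype.card_prod, ZMod.card, Nat.cast_mul (q * q'), sq]
  have h1 := avg s w (fun t => ((t.1 : ZMod (q * q')), (t.2 : ZMod (q * q'))))
    (fun z => gv p q (E z).1 * gv p q' (E z).2) (p.e ^ 2) ε (fun z => by
      rw [abs_mul, sq]
      exact mul_le_mul (gv_le p hC hq _) (gv_le p hC hq' _) (abs_nonneg _) (by positivity))
    (by simpa only [hk] using h) Fintype.card_pos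
  simp only [hE, gv_cast, hk] at h1
  rw [E.sum_comp fun z => gv p q z.1 * gv p q' z.2, Fintype.sum_prod_type, ← sum_mul_sum,
    abs_mul] at h1
  refine h1.trans ?_
  have h2 := mul_le_mul (sum_gv p hC q) (sum_gv p hC q') (abs_nonneg _) (by positivity)
  have h3 : (0 : ℝ) < q := by exact_mod_cast hq
  have h4 : (0 : ℝ) < q' := by exact_mod_cast hq'
  rw [mul_add]
  refine add_le_add ((div_le_div_of_nonneg_right h2 (by positivity)).trans_eq ?_) le_rfl
  push_cast
  field_simp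

lemma second {T : Type} (s : Finset T) (W : T → ℝ) (S : Finset ℕ) (w : ℕ → ℝ) (β : ℕ → ℂ)
    (a : T → ℕ → ℝ) (D O ϑ : ℝ) (hβ : ∀ q, ‖β q‖ ≤ 2) (hw : ∀ q ∈ S, 0 ≤ w q ∧ w q ≤ ϑ)
    (h1 : ∑ q ∈ S, w q ≤ 1) (hD : 0 ≤ D) (hO : 0 ≤ O) (hϑ : 0 ≤ ϑ)
    (hd : ∀ q ∈ S, |∑ t ∈ s, W t * (a t q * a t q)| ≤ D)
    (ho : ∀ q ∈ S, ∀ q' ∈ S, q ≠ q' → |∑ t ∈ s, W t * (a t q * a t q')| ≤ O) :
    ∑ t ∈ s, W t * ‖∑ q ∈ S, (w q * β q) * a t q‖ ^ 2 ≤ 4 * (O + D * ϑ) := by
  simp only [norm_sq, mul_sum]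
  rw [sum_comm]
  have h2 : ∀ q ∈ S, ∑ t ∈ s, ∑ q' ∈ S, W t * (((w q : ℂ) * β q * conj (w q' * β q')).re *
      (a t q * a t q')) ≤ w q * (4 * (O + D * ϑ)) := fun q hq => by
    rw [sum_comm]
    calc _ ≤ ∑ q' ∈ S, w q * (4 * (w q' * O + if q = q' then D * ϑ else 0)) := by
          refine sum_le_sum fun q' hq' => ?_
          have h3 : |((w q : ℂ) * β q * conj (w q' * β q')).re| ≤ w q * 2 * (w q' * 2) := by
            refine (Complex.abs_re_le_norm _).trans ?_
            rw [norm_mul, Complex.norm_conj, norm_mul, norm_mul, Complex.norm_real,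
              Complex.norm_real, Real.norm_of_nonneg (hw q hq).1, Real.norm_of_nonneg (hw q' hq').1]
            have := (hw q hq).1
            have := (hw q' hq').1
            gcongr <;> exact hβ _
          rw [sum_congr rfl fun t _ => mul_left_comm (W t) _ _, ← mul_sum]
          refine (le_abs_self _).trans ?_
          rw [abs_mul]
          have h4 := (hw q hq).1
          have h5 := hw q' hq'
          split_ifs with h
          · subst h
            refine (mul_le_mul h3 (hd q hq) (abs_nonneg _) (by positivity)).trans ?_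
            have h6 := mul_le_mul_of_nonneg_left h5.2 hD
            nlinarith [mul_nonneg h4 (mul_nonneg h4 hO), mul_le_mul_of_nonneg_left h6 h4]
          · have := h5.1
            exact (mul_le_mul h3 (ho q hq q' hq' h) (abs_nonneg _) (by positivity)).trans_eq
              (by ring)
      _ ≤ _ := by
          rw [← mul_sum, ← mul_sum, sum_add_distrib, ← sum_mul, sum_ite_eq, if_pos hq]
          have := (hw q hq).1
          gcongr
          exact mul_le_of_le_one_left hO h1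
  refine (sum_le_sum h2).trans ?_
  rw [← sum_mul]
  exact mul_le_of_le_one_left (by positivity) h1

lemma large (K : ℝ) (m : ℕ) :
    ∀ᶠ y : ℝ in Filter.atTop, K * Real.log y ^ m ≤ y ^ (1 / 10 : ℝ) := by
  have h := (isLittleO_log_rpow_rpow_atTop (m : ℝ) (s := 1 / 10) (by norm_num)).const_mul_left K
  filter_upwards [h.bound one_pos, Filter.eventually_ge_atTop (0 : ℝ)] with y hy h0
  rw [one_mul, Real.rpow_natCast, Real.norm_of_nonneg (Real.rpow_nonneg h0 _)] at hy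
  exact (le_abs_self _).trans hy

end DevP

open DevP in
theorem p_dev (hW : S_Wt) (hC : S_Card) (hT : S_TEq) : S_Dev := by
  intro R _ _ F
  set p := F.p with hp
  set a := (4 * p.e + 2) * F.A with ha
  set M : ℕ := Mf p F.z * p.r ^ p.n0 with hM
  have hη := F.ηpos
  have hMf : 0 < Mf p F.z * p.r := Nat.mul_pos (Nat.mul_pos
    (prod_pos fun l hl => (mem_filter.1 hl).2.1.pos) (pow_pos p.he.pos _)) p.hr.pos
  obtain ⟨y₁, h₁⟩ := hW R p (a + 1)
  obtain ⟨y₀, h₀⟩ := Filter.eventually_atTop.1 ((large (4 * p.e ^ 2 * (9 + 180 * M / F.η)) (a + 2)).and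
    ((Filter.eventually_ge_atTop y₁).and ((Filter.eventually_ge_atTop (54 * M / F.η)).and
    ((Filter.eventually_gt_atTop ((Mf p F.z * p.r : ℕ) : ℝ)).and
    ((Real.tendsto_log_atTop.eventually_ge_atTop 2).and (Filter.eventually_ge_atTop 1))))))
  refine ⟨y₀, fun c hy hc i hi β hβ => ?_⟩
  obtain ⟨k1, k2, k3, k4, k5, k6⟩ := h₀ c.y hy
  have hy0 : 0 < c.y := by linarith
  have hL : 1 ≤ Real.log c.y := by linarith
  have hN : (c.N : ℝ) ≤ Real.log c.y ^ (a + 1) := hc.N_le.trans (by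
    rw [pow_succ']
    exact mul_le_mul_of_nonneg_right k5 (by positivity))
  obtain ⟨w1, -, w3⟩ := h₁ c.y k2 c.N (by omega) hN
  have hmem : ∀ q ∈ strat c.y c.N i, q ∈ Pset c.y c.N := fun q hq =>
    mem_biUnion.2 ⟨i, mem_range.2 hi, hq⟩
  have hB := hc.B_ge
  have hB0 : 0 < c.B := lt_of_lt_of_le (by positivity) hB
  have hT0 : ∀ t ∈ Tset p c, 0 ≤ ((t.2 : ℝ))⁻¹ := fun t ht =>
    inv_nonneg.2 (hB0.le.trans (mem_filter.1 ht).2.1)
  have hW0 : ∀ t ∈ Tset p c, 0 ≤ wT p c t := fun t ht => div_nonneg (hT0 t ht) (sum_nonneg hT0)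
  have hW1 : ∑ t ∈ Tset p c, wT p c t ≤ 1 := by
    unfold wT
    rw [← sum_div]
    exact div_self_le_one _
  have e : ∀ t, Smw (wt p c.y c.N) c.y c.N i (fun q => p.rho t q * β q) -
      Smw (wk p.r c.y c.N) c.y c.N i β =
      ∑ q ∈ strat c.y c.N i, (wt p c.y c.N q * β q) * dv p t q := fun t => by
    unfold Smw dv
    rw [← sum_sub_distrib]
    refine sum_congr rfl fun q hq => ?_
    obtain ⟨c1, -, -, -, -, -, -, -, c9⟩ := w3 q (hmem q hq)
    have h0 : (q : ℝ) ≠ 0 := by exact_mod_cast c1.ne_zero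
    have h1 : wk p.r c.y c.N q = wt p c.y c.N q * ((Xq p q).card / (2 * q)) := by
      rw [← mul_div_assoc, c9]; field_simp
    rw [h1]
    push_cast
    ring
  simp only [e]
  refine (second _ _ _ _ β (dv p) (p.e ^ 2) (p.e ^ 2 * ((1 + 180 * M / F.η) / c.y))
    (8 * c.N * Real.log c.y / c.y) hβ (fun q hq => ?_) (w1 i hi).1 (by positivity) (by positivity)
    (by positivity) (fun q hq => ?_) fun q hq q' hq' hne => ?_).trans ?_
  · obtain ⟨-, -, -, -, -, c6, -, c8, -⟩ := w3 q (hmem q hq)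
    exact ⟨c6, c8⟩
  · have h1 := fun t => dv_le p hC t (w3 q (hmem q hq)).1.pos
    refine (abs_sum_le_sum_abs _ _).trans ?_
    calc _ ≤ ∑ t ∈ Tset p c, wT p c t * p.e ^ 2 := sum_le_sum fun t ht => by
          rw [abs_mul, abs_of_nonneg (hW0 t ht), abs_mul, sq]
          exact mul_le_mul_of_nonneg_left
            (mul_le_mul (h1 t) (h1 t) (abs_nonneg _) (by positivity)) (hW0 t ht)
      _ ≤ _ := by
          rw [← sum_mul]
          exact mul_le_of_le_one_left (by positivity) hW1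
  · obtain ⟨c1, c2, c3, -⟩ := w3 q (hmem q hq)
    obtain ⟨d1, d2, d3, -⟩ := w3 q' (hmem q' hq')
    have hcop : ∀ {q : ℕ}, q.Prime → c.y ≤ q → q.Coprime (Mf p c.z * p.r) := fun h1 h2 => by
      rw [hc.z, h1.coprime_iff_not_dvd]
      intro h
      have h3 := Nat.le_of_dvd hMf h
      exact absurd (k4.trans_le h2) (not_lt.2 (by exact_mod_cast h3))
    have hd : ((Mf p c.z * p.r ^ p.n0 * (q * q') : ℕ) : ℝ) ≤ 9 * M * c.y ^ 2 := by
      rw [hc.z, ← hM]
      push_cast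
      calc (M : ℝ) * (q * q') ≤ M * (3 * c.y * (3 * c.y)) := by gcongr
        _ = _ := by ring
    have h54 : 54 * M ≤ F.η * c.y := by rwa [div_le_iff₀' hη] at k3
    have hyB : c.y ^ 3 ≤ c.B := (pow_le_pow_right₀ k6 (by norm_num)).trans hB
    refine (off p hC _ _ c1.pos d1.pos ((Nat.coprime_primes c1 d1).2 hne)
      (20 * ((Mf p c.z * p.r ^ p.n0 * (q * q') : ℕ) / (c.η * c.B))) fun z => ?_).trans ?_
    · have h1 := (hT R p c (q * q') {z} c.τ0 (c.τ0 + c.η) c.B (c.B * (1 + c.η))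
        (hc.τ0 ▸ p.τle) (hc.η ▸ hη) (hc.η ▸ F.ηle) (Nat.mul_pos c1.pos d1.pos)
        (Nat.Coprime.mul_left (hcop c1 c2) (hcop d1 d2)) (by
          rw [hc.η]
          calc _ ≤ 6 * (9 * M * c.y ^ 2) := by gcongr
            _ = 54 * M * c.y ^ 2 := by ring
            _ ≤ F.η * c.y * c.y ^ 2 := by gcongr
            _ = F.η * c.y ^ 3 := by ring
            _ ≤ _ := by gcongr) le_rfl (by rw [hc.η]; linarith) le_rfl le_rfl
        (by rw [hc.η]; nlinarith) le_rfl).2
      have h2 : (c.τ0 + c.η - c.τ0) * (c.B * (1 + c.η) - c.B) / (c.η ^ 2 * c.B) = 1 := by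
        rw [hc.η]; field_simp; ring
      rw [h2, card_singleton, Nat.cast_one, one_mul] at h1
      refine le_of_eq_of_le ?_ (h1.trans_eq (by ring))
      congr 2
      refine sum_congr (Finset.ext fun t => ?_) fun _ _ => rfl
      simp only [mem_filter, mem_singleton]
      refine ⟨fun h => ?_, fun h => ⟨h.1, h.2.2.2.2.2⟩⟩
      obtain ⟨t1, t2, t3, t4, -⟩ := (mem_filter.1 h.1).2
      exact ⟨h.1, t3, t4, t1, t2, h.2⟩
    · rw [hc.η, add_div]
      have h1 : (1 : ℝ) ≤ q' := k6.trans d2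
      have h2 : 1 / ((q : ℝ) * q') ≤ 1 / c.y :=
        one_div_le_one_div_of_le hy0 (c2.trans (le_mul_of_one_le_right (by positivity) h1))
      have h3 : 20 * ((Mf p c.z * p.r ^ p.n0 * (q * q') : ℕ) / (F.η * c.B)) ≤
          180 * M / F.η / c.y := by
        calc _ ≤ 20 * (9 * M * c.y ^ 2 / (F.η * c.y ^ 3)) := by gcongr
          _ = _ := by field_simp; ring
      gcongr
  · have h1 : (c.y : ℝ) ^ (-(9 / 10) : ℝ) = c.y ^ (1 / 10 : ℝ) / c.y := by
      rw [← Real.rpow_sub_one hy0.ne']; norm_num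
    rw [h1]
    refine le_trans ?_ (div_le_div_of_nonneg_right k1 hy0.le)
    have h2 : 1 ≤ Real.log c.y ^ (a + 2) := one_le_pow₀ hL
    have h3 : c.N * Real.log c.y ≤ Real.log c.y ^ (a + 2) := by
      rw [pow_succ]
      exact mul_le_mul_of_nonneg_right hN (by positivity)
    have h4 : 1 + 180 * M / F.η ≤ (1 + 180 * M / F.η) * Real.log c.y ^ (a + 2) :=
      le_mul_of_one_le_right (by positivity) h2
    calc _ = 4 * p.e ^ 2 * (1 + 180 * M / F.η + 8 * (c.N * Real.log c.y)) / c.y := by ring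
      _ ≤ 4 * p.e ^ 2 * ((1 + 180 * M / F.η) * Real.log c.y ^ (a + 2) +
          8 * Real.log c.y ^ (a + 2)) / c.y := by gcongr
      _ = _ := by ring

end Pool.Agent.P.MP_b8021b_nt.VC
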