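import Pool.Agent.P.MP_b8021b_nt.VC.StC2

/-! Points and multiplicities under an algebraic base change. -/

namespace Pool.Agent.P.MP_b8021b_nt.VC

open Finset

theorem c_bCm (hCv : S_Cv) (hPts : S_Pts) : S_BCm := by
  intro F F' A A' Ω _ _ _ _ _ _ _ _ _ _ _ _ _ _ cv cv' ι h
  have : CharZero F' := charZero_of_injective_algebraMap (algebraMap F F').injective
  have : Algebra.IsAlgebraic F' Ω := Algebra.IsAlgebraic.tower_top (K := F) F'
  have := cv.ded
  have := cv'.ded
  let φ : (A' →ₐ[F'] Ω) → (A →ₐ[F] Ω) := fun P =>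
    { P.toRingHom.comp ι with
      commutes' := fun c => by
        change P (ι (algebraMap F A c)) = _
        rw [h.alg, P.commutes, ← IsScalarTower.algebraMap_apply] }
  have hφ : ∀ P a, φ P a = P (ι a) := fun _ _ => rfl
  have hb : Function.Bijective φ := by
    refine ⟨fun P Q e => AlgHom.ext fun a => ?_, fun Q => ?_⟩
    · have ha : a ∈ Submodule.span F' (ι '' cv.L (cv'.δ a)) := h.span _ (le_refl (cv'.δ a))
      refine LinearMap.eqOn_span' (f := P.toLinearMap) (g := Q.toLinearMap) ?_ ha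
      rintro _ ⟨b, -, rfl⟩
      exact DFunLike.congr_fun e b
    · obtain ⟨g, h1, h2⟩ := h.lift Ω (algebraMap F' Ω) Q.toRingHom fun c =>
        (Q.commutes c).trans (IsScalarTower.algebraMap_apply F F' Ω c)
      exact ⟨{ g with commutes' := h2 }, AlgHom.ext h1⟩
  refine ⟨Equiv.ofBijective φ hb, hφ, fun P f hf => ?_⟩
  have hf' : ι f ≠ 0 := fun e => hf (h.inj (e.trans (map_zero ι).symm))
  have hJ : Ideal.span {f} ≠ ⊥ := by rwa [Ne, Ideal.span_singleton_eq_bot]
  have hJ' : Ideal.span {ι f} ≠ ⊥ := by rwa [Ne, Ideal.span_singleton_eq_bot]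
  obtain ⟨h1, -, h2, -, h3, -⟩ := hPts F' A' Ω cv'
  have hle : ∀ P, mI (φ P) (Ideal.span {f}) ≤ mI P (Ideal.span {ι f}) := fun P => by
    refine (FiniteMultiplicity.of_not_isUnit (fun u => (h3 P).1.ne_top (Ideal.isUnit_iff.1 u))
      hJ').le_multiplicity_of_pow_dvd ?_
    have h4 := pow_multiplicity_dvd (RingHom.ker (φ P)) (Ideal.span {f})
    rw [Ideal.dvd_span_singleton] at h4 ⊢
    have h5 := Ideal.mem_map_of_mem ι h4
    rw [Ideal.map_pow] at h5
    exact Ideal.pow_right_mono (Ideal.map_le_iff_le_comap.2 fun a ha => ha) _ h5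
  have ht : ∑ᶠ P, mI (φ P) (Ideal.span {f}) = ∑ᶠ P : A' →ₐ[F'] Ω, mI P (Ideal.span {ι f}) := by
    rw [(h1 _ hJ').2, (hCv F' A' cv').2.2.1 _ hf', h.del, ← (hCv F A cv).2.2.1 _ hf,
      ← ((hPts F A Ω cv).1 _ hJ).2]
    exact finsum_comp_equiv (Equiv.ofBijective φ hb) (f := fun Q => mI Q (Ideal.span {f}))
  have hfin := (h1 _ hJ').1
  have hs : ∀ P, P ∉ hfin.toFinset → mI P (Ideal.span {ι f}) = 0 := fun P hP => by
    by_contra h0
    exact hP ((Set.Finite.mem_toFinset _).2 ((h2 P _ hJ').1 h0))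
  rw [finsum_eq_sum_of_support_subset _ (s := hfin.toFinset) fun P hP => by
      by_contra h0
      exact hP (Nat.le_zero.1 (hs P h0 ▸ hle P)),
    finsum_eq_sum_of_support_subset _ (s := hfin.toFinset) fun P hP => by
      by_contra h0
      exact hP (hs P h0)] at ht
  by_cases hP : P ∈ hfin.toFinset
  · exact (sum_eq_sum_iff_of_le fun P _ => hle P).1 ht P hP
  · exact (Nat.le_zero.1 (hs P hP ▸ hle P)).trans (hs P hP).symm

end Pool.Agent.P.MP_b8021b_nt.VC
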