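import Pool.Agent.P.MP_b8021b_nt.VC.BasicC

/-! All zeros of a small perturbation at once. -/

namespace Pool.Agent.P.MP_b8021b_nt.VC

open Polynomial Finset Pool.Agent.P.MP_b8021b_nt.VE
open scoped Classical

namespace CPert

theorem exists_pos_le {ι : Type*} (T : Finset ι) (e : ι → ℝ) (he : ∀ i ∈ T, 0 < e i) :
    ∃ x : ℝ, 0 < x ∧ ∀ i ∈ T, x ≤ e i := by
  induction T using Finset.induction_on with
  | empty => exact ⟨1, one_pos, by simp⟩
  | insert a T _ ih =>
    obtain ⟨x, hx, h⟩ := ih fun i hi => he i (by simp [hi])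
    refine ⟨min x (e a), lt_min hx (he a (by simp)), fun i hi => ?_⟩
    rcases Finset.mem_insert.1 hi with rfl | hi
    · exact min_le_right _ _
    · exact (min_le_left _ _).trans (h i hi)

/-- a small perturbation of a nonzero element of a vector space is nonzero -/
theorem ne_zero_small {F A : Type} [NormedField F] [AddCommGroup A] [Module F A] {s : A}
    (hs : s ≠ 0) {I : Type} [Fintype I] (b : I → A) :
    ∃ η : ℝ, 0 < η ∧ ∀ c : I → F, (∀ i, ‖c i‖ < η) → s + ∑ i, c i • b i ≠ 0 := by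
  obtain ⟨l, hl⟩ : ∃ l : Module.Dual F A, l s ≠ 0 := by
    by_contra hh
    push Not at hh
    exact hs ((Module.forall_dual_apply_eq_zero_iff F s).1 hh)
  have hpos : 0 < ‖l s‖ := norm_pos_iff.2 hl
  have hK : 0 < ∑ i, ‖l (b i)‖ + 1 := by positivity
  refine ⟨‖l s‖ / (∑ i, ‖l (b i)‖ + 1), by positivity, fun c hc h0 => ?_⟩
  have h1 : l s = -∑ i, c i * l (b i) := by
    have := congrArg l h0
    simp only [map_add, map_sum, map_smul, smul_eq_mul, map_zero] at this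
    exact eq_neg_of_add_eq_zero_left this
  have h2 : ‖l s‖ ≤ ‖l s‖ / (∑ i, ‖l (b i)‖ + 1) * ∑ i, ‖l (b i)‖ := by
    conv_lhs => rw [h1, norm_neg]
    rw [Finset.mul_sum]
    refine (norm_sum_le _ _).trans (Finset.sum_le_sum fun i _ => ?_)
    rw [norm_mul]
    exact mul_le_mul_of_nonneg_right (hc i).le (norm_nonneg _)
  rw [div_mul_eq_mul_div, le_div_iff₀ hK] at h2
  nlinarith

end CPert

theorem c_pert (hCv : S_Cv) (hPts : S_Pts) (hStab : S_Stab) : S_Pert := by
  intro F A Ω _ _ _ _ _ _ _ _ cv s W₁ ε₁ hs hε₁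
  have hfin := zeros_finite' (Ω := Ω) hPts cv hs
  set T := hfin.toFinset with hT
  have memT : ∀ P : A →ₐ[F] Ω, P ∈ T ↔ P s = 0 := fun P => by simp [hT]
  choose W0 e0 he0 hst using fun P : A →ₐ[F] Ω => hStab F A Ω cv s P hs
  obtain ⟨W2, e2, he2, hdis⟩ := exists_disjoint_near hfin
  obtain ⟨x, hx, hxe⟩ := CPert.exists_pos_le T e0 fun P _ => he0 P
  set W := W₁ ∪ W2 ∪ T.biUnion W0 with hW
  set ε := min ε₁ (min e2 x) with hε
  have hεpos : 0 < ε := lt_min hε₁ (lt_min he2 hx)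
  have hdis' : ∀ P Q : A →ₐ[F] Ω, P s = 0 → Q s = 0 → P ≠ Q →
      Disjoint (Near W ε P) (Near W ε Q) := by
    intro P Q hP hQ hne
    have h1 : W2 ⊆ W := Finset.subset_union_right.trans Finset.subset_union_left
    have h2 : ε ≤ e2 := (min_le_right _ _).trans (min_le_left _ _)
    exact (hdis P hP Q hQ hne).mono (near_mono h1 h2 _) (near_mono h1 h2 _)
  refine ⟨W, ε, Finset.subset_union_left.trans Finset.subset_union_left, hεpos, min_le_left _ _,
    hdis', fun I _ b => ?_⟩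
  have key : ∀ P : A →ₐ[F] Ω, ∃ η : ℝ, 0 < η ∧ (P ∈ T → ∀ c : I → F, (∀ i, ‖c i‖ < η) →
      nZ (Ideal.span {s + ∑ i, c i • b i}) (Near W ε P) = mI P (Ideal.span {s})) := by
    intro P
    by_cases hP : P ∈ T
    · obtain ⟨η, hη, h⟩ := hst P W ε
        ((Finset.subset_biUnion_of_mem W0 hP).trans Finset.subset_union_right) hεpos
        (((min_le_right _ _).trans (min_le_right _ _)).trans (hxe P hP)) I b
      exact ⟨η, hη, fun _ c hc => (h c hc).2⟩
    · exact ⟨1, one_pos, fun h => absurd h hP⟩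
  choose η hη hk using key
  obtain ⟨y, hy, hye⟩ := CPert.exists_pos_le T η fun P _ => hη P
  obtain ⟨y', hy', hne⟩ := CPert.ne_zero_small (F := F) hs b
  refine ⟨min y y', lt_min hy hy', fun c hc f hf => ?_⟩
  have hf0 : f ≠ 0 := hf ▸ hne c fun i => (hc i).trans_le (min_le_right _ _)
  have hcount : ∀ P : A →ₐ[F] Ω, P s = 0 →
      nZ (Ideal.span {f}) (Near W ε P) = mI P (Ideal.span {s}) := fun P hP =>
    hf ▸ hk P ((memT P).2 hP) c fun i =>
      ((hc i).trans_le (min_le_left _ _)).trans_le (hye P ((memT P).2 hP))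
  refine ⟨hf0, hcount, ?_⟩
  have h1 := nZ_add_compl hPts cv (span_ne_bot hf0) (⋃ P ∈ T, Near W ε P)
  rw [nZ_biUnion hPts cv (span_ne_bot hf0) T _
    fun P hP Q hQ => hdis' P Q ((memT P).1 hP) ((memT Q).1 hQ),
    Finset.sum_congr rfl fun P hP => hcount P ((memT P).1 hP), (hCv F A cv).2.2.1 f hf0] at h1
  have h2 : ∑ P ∈ T, mI P (Ideal.span {s}) = cv.δ s := by
    rw [← (hCv F A cv).2.2.1 s hs, ← nZ_univ (Ω := Ω) hPts cv (span_ne_bot hs),
      nZ_eq_sum hPts cv (span_ne_bot hs) _ T fun P _ h => (memT P).2 (span_le_ker.1 h)]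
    simp
  have h3 : {P : A →ₐ[F] Ω | ∀ Q : A →ₐ[F] Ω, Q s = 0 → P ∉ Near W ε Q} =
      (⋃ P ∈ T, Near W ε P)ᶜ := by
    ext P
    simp [memT]
  rw [h3, ← h1, h2, add_comm]

end Pool.Agent.P.MP_b8021b_nt.VC
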