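import Pool.Agent.P.MP_b8021b_nt.VC.StC2

/-! The absolute value of a uniform limit of polynomials on an ultrametric disc. -/

namespace Pool.Agent.P.MP_b8021b_nt.VC

open Polynomial Filter
open scoped Classical Topology

namespace CUPoly

variable {Ω : Type} [NontriviallyNormedField Ω] [IsUltrametricDist Ω]

theorem norm_add_eq {x y : Ω} (h : ‖y‖ < ‖x‖) : ‖x + y‖ = ‖x‖ := by
  rw [IsUltrametricDist.norm_add_eq_max_of_norm_ne_norm h.ne', max_eq_left h.le]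

theorem norm_out {x ζ : Ω} (h : ‖x‖ < ‖ζ‖) : ‖x - ζ‖ = ‖ζ‖ := by
  rw [norm_sub_rev, sub_eq_add_neg, norm_add_eq (by rwa [norm_neg])]

theorem prod_form (Z : Finset Ω) {ε δ : ℝ} (hε : 0 < ε) (s : Multiset Ω)
    (hs : ∀ ζ ∈ s, ‖ζ‖ < ε → ∃ ρ ∈ Z, ‖ζ - ρ‖ < δ) :
    ∃ (C : ℝ) (n : Ω → ℕ), 0 < C ∧ ∀ x, ‖x‖ < ε → (∀ ρ ∈ Z, δ ≤ ‖x - ρ‖) →
      ‖(s.map (x - ·)).prod‖ = C * ∏ ρ ∈ Z, ‖x - ρ‖ ^ n ρ := by
  induction s using Multiset.induction_on with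
  | empty => exact ⟨1, 0, one_pos, fun x _ _ => by simp⟩
  | cons ζ s ih =>
    obtain ⟨C, n, hC, h⟩ := ih fun ξ hξ => hs ξ (Multiset.mem_cons_of_mem hξ)
    by_cases hζ : ‖ζ‖ < ε
    · obtain ⟨ρ₀, h0, h1⟩ := hs ζ (Multiset.mem_cons_self _ _) hζ
      refine ⟨C, fun ρ => n ρ + if ρ = ρ₀ then 1 else 0, hC, fun x hx hZ => ?_⟩
      have e : ‖x - ζ‖ = ‖x - ρ₀‖ := by
        rw [show x - ζ = (x - ρ₀) + (ρ₀ - ζ) by ring,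
          norm_add_eq (by rw [norm_sub_rev]; exact h1.trans_le (hZ _ h0))]
      simp only [Multiset.map_cons, Multiset.prod_cons, norm_mul, h x hx hZ, e, pow_add, pow_ite,
        pow_one, pow_zero, Finset.prod_mul_distrib, Finset.prod_ite_eq', h0, if_true]
      ring
    · refine ⟨‖ζ‖ * C, n, mul_pos (hε.trans_le (not_lt.1 hζ)) hC, fun x hx hZ => ?_⟩
      rw [Multiset.map_cons, Multiset.prod_cons, norm_mul, h x hx hZ,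
        norm_out (hx.trans_le (not_lt.1 hζ)), mul_assoc]

omit [IsUltrametricDist Ω] in
theorem norm_eval [IsAlgClosed Ω] (h : Polynomial Ω) (x : Ω) :
    ‖h.eval x‖ = ‖h.leadingCoeff‖ * ‖(h.roots.map (x - ·)).prod‖ := by
  rw [(IsAlgClosed.splits h).eval_eq_prod_roots, norm_mul]

theorem poly_form [IsAlgClosed Ω] (Z : Finset Ω) {ε δ : ℝ} (hε : 0 < ε) {h : Polynomial Ω} (h0 : h ≠ 0)
    (hs : ∀ ζ, h.eval ζ = 0 → ‖ζ‖ < ε → ∃ ρ ∈ Z, ‖ζ - ρ‖ < δ) :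
    ∃ (C : ℝ) (n : Ω → ℕ), 0 < C ∧ ∀ x, ‖x‖ < ε → (∀ ρ ∈ Z, δ ≤ ‖x - ρ‖) →
      ‖h.eval x‖ = C * ∏ ρ ∈ Z, ‖x - ρ‖ ^ n ρ := by
  obtain ⟨C, n, hC, H⟩ := prod_form Z hε h.roots fun ζ hζ => hs ζ ((mem_roots h0).1 hζ)
  exact ⟨‖h.leadingCoeff‖ * C, n, mul_pos (norm_pos_iff.2 (leadingCoeff_ne_zero.2 h0)) hC,
    fun x hx hZ => by rw [norm_eval, H x hx hZ, mul_assoc]⟩

theorem form [IsAlgClosed Ω] {φ : Ω → Ω} {ε c δ : ℝ} {D : Polynomial Ω} (Z : Finset Ω) (hε : 0 < ε)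
    (hc : 0 < c) (hD : D ≠ 0) (hδ : 0 < δ) (hZ : ∀ ζ, D.eval ζ = 0 → ‖ζ‖ < ε → ζ ∈ Z)
    (h1 : ∀ η : ℝ, 0 < η → ∃ h : Polynomial Ω, ∀ a, ‖a‖ < ε → ‖h.eval a - φ a‖ < η)
    (h2 : ∀ a, ‖a‖ < ε → c * ‖D.eval a‖ ≤ ‖φ a‖) :
    ∃ (C : ℝ) (n : Ω → ℕ), 0 < C ∧ ∀ x, ‖x‖ < ε → (∀ ρ ∈ Z, δ ≤ ‖x - ρ‖) →
      ‖φ x‖ = C * ∏ ρ ∈ Z, ‖x - ρ‖ ^ n ρ := by
  obtain ⟨C, n, hC, H⟩ := poly_form Z hε hD fun ζ a b => ⟨ζ, hZ ζ a b, by simpa using hδ⟩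
  obtain ⟨h, hh⟩ := h1 (c * (C * ∏ ρ ∈ Z, δ ^ n ρ)) (by positivity)
  have key : ∀ x, ‖x‖ < ε → (∀ ρ ∈ Z, δ ≤ ‖x - ρ‖) → ‖h.eval x‖ = ‖φ x‖ ∧ 0 < ‖φ x‖ := by
    intro x hx hx'
    have a1 : ‖h.eval x - φ x‖ < ‖φ x‖ := by
      refine (hh x hx).trans_le (le_trans ?_ (h2 x hx))
      rw [H x hx hx']
      gcongr with ρ hρ
      exact hx' ρ hρ
    refine ⟨?_, (norm_nonneg _).trans_lt a1⟩
    rw [← norm_add_eq a1, add_sub_cancel]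
  by_cases h0 : h = 0
  · refine ⟨1, 0, one_pos, fun x hx hx' => ?_⟩
    obtain ⟨a, b⟩ := key x hx hx'
    rw [← a, h0, eval_zero, norm_zero] at b
    exact absurd b (lt_irrefl _)
  obtain ⟨C', n', hC', H'⟩ := poly_form Z (δ := δ) hε h0 fun ζ a b => by
    by_contra hn
    push Not at hn
    obtain ⟨u, v⟩ := key ζ b hn
    rw [← u, a, norm_zero] at v
    exact lt_irrefl _ v
  exact ⟨C', n', hC', fun x hx hx' => by rw [← (key x hx hx').1, H' x hx hx']⟩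

theorem form' [IsAlgClosed Ω] {φ : Ω → Ω} {ε c δ : ℝ} {D : Polynomial Ω} {m : Ω → ℕ} (Z : Finset Ω)
    (hε : 0 < ε) (hc : 0 < c) (hD : D ≠ 0) (hδ : 0 < δ)
    (hZ : ∀ ζ, D.eval ζ = 0 → ‖ζ‖ < ε → ζ ∈ Z) (hZ' : ∀ ζ ∈ Z, ‖ζ‖ < ε)
    (h1 : ∀ η : ℝ, 0 < η → ∃ h : Polynomial Ω, ∀ a, ‖a‖ < ε → ‖h.eval a - φ a‖ < η)
    (h2 : ∀ a, ‖a‖ < ε → c * ‖D.eval a‖ ≤ ‖φ a‖)
    (h3 : ∀ ρ, ‖ρ‖ < ε → ∃ C : ℝ, 0 < C ∧ ∀ᶠ a in 𝓝 ρ, ‖φ a‖ = C * ‖a - ρ‖ ^ m ρ) :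
    ∃ C : ℝ, ∀ x, ‖x‖ < ε → (∀ ρ ∈ Z, δ ≤ ‖x - ρ‖) →
      ‖φ x‖ = C * ∏ ρ ∈ Z, ‖x - ρ‖ ^ m ρ := by
  choose! K hK hK' using h3
  have e1 : ∀ᶠ t in 𝓝 (0 : Ω), ‖t‖ < ε ∧ ∀ ρ ∈ Z, ‖φ (ρ + t)‖ = K ρ * ‖t‖ ^ m ρ ∧
      ∀ ρ' ∈ Z.erase ρ, ‖t‖ < ‖ρ - ρ'‖ := by
    have a : ∀ r : ℝ, 0 < r → ∀ᶠ t in 𝓝 (0 : Ω), ‖t‖ < r := fun r hr =>
      (isOpen_lt continuous_norm continuous_const).mem_nhds (by simpa using hr)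
    refine (a ε hε).and ((Z.eventually_all).2 fun ρ hρ => Eventually.and ?_
      (((Z.erase ρ).eventually_all).2 fun ρ' h' =>
        a _ (norm_pos_iff.2 (sub_ne_zero.2 (Finset.ne_of_mem_erase h').symm))))
    have b : Tendsto (fun t : Ω => ρ + t) (𝓝 0) (𝓝 ρ) :=
      (continuous_const.add continuous_id).tendsto' 0 ρ (add_zero ρ)
    simpa using b.eventually (hK' ρ (hZ' ρ hρ))
  obtain ⟨s, hs, e2⟩ := Metric.eventually_nhds_iff.1 e1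
  obtain ⟨t, t0, t1⟩ := NormedField.exists_norm_lt Ω (lt_min hs one_pos)
  have t2 : ‖t‖ < 1 := t1.trans_le (min_le_right _ _)
  have t3 : ‖t * t‖ ≤ ‖t‖ := by rw [norm_mul]; nlinarith
  have t4 : 0 < ‖t * t‖ := by rw [norm_mul]; positivity
  obtain ⟨C, n, hC, H⟩ := form Z hε hc hD (lt_min hδ t4) hZ h1 h2
  have hn : ∀ ρ ∈ Z, n ρ = m ρ := by
    intro ρ hρ
    have key : ∀ u : Ω, ‖t * t‖ ≤ ‖u‖ → ‖u‖ ≤ ‖t‖ →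
        K ρ * ‖u‖ ^ m ρ = (C * ∏ ρ' ∈ Z.erase ρ, ‖ρ - ρ'‖ ^ n ρ') * ‖u‖ ^ n ρ := by
      intro u u1 u2
      obtain ⟨a1, a2⟩ := e2 (y := u) (by
        rw [dist_zero_right]; exact u2.trans_lt (t1.trans_le (min_le_left _ _)))
      obtain ⟨a3, a4⟩ := a2 ρ hρ
      have a5 : ∀ ρ' ∈ Z.erase ρ, ‖ρ + u - ρ'‖ = ‖ρ - ρ'‖ := fun ρ' h' => by
        rw [add_sub_right_comm, norm_add_eq (a4 ρ' h')]
      rw [← a3, H _ ((IsUltrametricDist.norm_add_le_max _ _).trans_lt (max_lt (hZ' ρ hρ) a1))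
        fun ρ' h' => (min_le_right _ _).trans (u1.trans ?_), ← Finset.mul_prod_erase _ _ hρ,
        Finset.prod_congr rfl fun ρ' h' => by rw [a5 ρ' h'], add_sub_cancel_left]
      · ring
      · by_cases e : ρ' = ρ
        · rw [e, add_sub_cancel_left]
        · have h'' := Finset.mem_erase.2 ⟨e, h'⟩
          rw [a5 ρ' h'']
          exact (a4 ρ' h'').le
    have k1 := key t t3 le_rfl
    have k2 := key (t * t) le_rfl t3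
    have k3 := hK ρ (hZ' ρ hρ)
    rw [norm_mul, mul_pow, mul_pow, ← mul_assoc, ← mul_assoc, ← k1] at k2
    exact pow_right_injective₀ t0 t2.ne (mul_left_cancel₀ (by positivity) k2).symm
  refine ⟨C, fun x hx hx' => ?_⟩
  rw [H x hx fun ρ hρ => (min_le_left _ _).trans (hx' ρ hρ)]
  exact congrArg _ (Finset.prod_congr rfl fun ρ hρ => by rw [hn ρ hρ])

end CUPoly

theorem c_uPoly : S_UPoly := by
  intro Ω _ _ _ φ ε c D m hε hc hD h1 h2 h3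
  let Z : Finset Ω := D.roots.toFinset.filter fun ζ => ‖ζ‖ < ε
  have hZ : ∀ ζ, D.eval ζ = 0 → ‖ζ‖ < ε → ζ ∈ Z := fun ζ a b =>
    Finset.mem_filter.2 ⟨Multiset.mem_toFinset.2 ((mem_roots hD).2 a), b⟩
  have hZ' : ∀ ζ ∈ Z, ‖ζ‖ < ε := fun ζ h => (Finset.mem_filter.1 h).2
  have hpos : ∀ a, ‖a‖ < ε → a ∉ Z → 0 < ‖φ a‖ := fun a ha ha' =>
    (mul_pos hc (norm_pos_iff.2 fun h => ha' (hZ a h ha))).trans_le (h2 a ha)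
  have hev : ∀ x : Ω, ‖x‖ < ε → ∀ᶠ a in 𝓝[≠] x, ‖a‖ < ε ∧ a ∉ Z := fun x hx =>
    Eventually.and (nhdsWithin_le_nhds ((isOpen_lt continuous_norm continuous_const).mem_nhds hx))
      (nhdsNE_le_cofinite x Z.eventually_cofinite_notMem)
  obtain ⟨b, hb, hb'⟩ := (hev 0 (by simpa using hε)).exists
  have hne : ∀ a ∉ Z, ∀ ρ ∈ Z, 0 < ‖a - ρ‖ := fun a ha ρ hρ =>
    norm_pos_iff.2 (sub_ne_zero.2 fun e => ha (e ▸ hρ))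
  have hg : 0 < ∏ ρ ∈ Z, ‖b - ρ‖ ^ m ρ := Finset.prod_pos fun ρ hρ => pow_pos (hne b hb' ρ hρ) _
  have key : ∀ a, ‖a‖ < ε → a ∉ Z →
      ‖φ a‖ = ‖φ b‖ / (∏ ρ ∈ Z, ‖b - ρ‖ ^ m ρ) * ∏ ρ ∈ Z, ‖a - ρ‖ ^ m ρ := by
    intro a ha ha'
    have e : ∀ᶠ δ in 𝓝[>] (0 : ℝ), 0 < δ ∧ ∀ ρ ∈ Z, δ ≤ ‖a - ρ‖ ∧ δ ≤ ‖b - ρ‖ :=
      Eventually.and eventually_mem_nhdsWithin (nhdsWithin_le_nhds ((Z.eventually_all).2
        fun ρ hρ => Eventually.and (Iic_mem_nhds (hne a ha' ρ hρ)) (Iic_mem_nhds (hne b hb' ρ hρ))))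
    obtain ⟨δ, hδ, hδ'⟩ := e.exists
    obtain ⟨C, hC⟩ := CUPoly.form' Z hε hc hD hδ hZ hZ' h1 h2 h3
    rw [hC a ha fun ρ hρ => (hδ' ρ hρ).1, hC b hb fun ρ hρ => (hδ' ρ hρ).2,
      mul_div_cancel_right₀ _ hg.ne']
  refine ⟨_, div_pos (hpos b hb hb') hg, fun x hx => ?_⟩
  have e1 : ∏ᶠ ρ ∈ Metric.ball (0 : Ω) ε, ‖x - ρ‖ ^ m ρ = ∏ ρ ∈ Z, ‖x - ρ‖ ^ m ρ := by
    refine finprod_mem_eq_prod_of_inter_mulSupport_eq _ (Set.ext fun ρ => and_congr_left fun h => ?_)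
    rw [mem_ball_zero_iff]
    refine ⟨fun hρ => by_contra fun hn => h ?_, hZ' ρ⟩
    obtain ⟨K, -, hK⟩ := h3 ρ hρ
    have a1 := hpos ρ hρ hn
    rw [hK.self_of_nhds, sub_self, norm_zero] at a1
    by_cases h0 : m ρ = 0
    · simp [h0]
    · simp [h0] at a1
  obtain ⟨K, -, hK⟩ := h3 x hx
  rw [e1, hK.self_of_nhds]
  refine tendsto_nhds_unique_of_eventuallyEq (l := 𝓝[≠] x)
    (f := fun a => K * ‖a - x‖ ^ m x)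
    (g := fun a => ‖φ b‖ / (∏ ρ ∈ Z, ‖b - ρ‖ ^ m ρ) * ∏ ρ ∈ Z, ‖a - ρ‖ ^ m ρ)
    ((Continuous.tendsto (by fun_prop) x).mono_left nhdsWithin_le_nhds)
    ((Continuous.tendsto (by fun_prop) x).mono_left nhdsWithin_le_nhds) ?_
  filter_upwards [hev x hx, nhdsWithin_le_nhds hK] with a ha ha'
  rw [← ha', key a ha.1 ha.2]

end Pool.Agent.P.MP_b8021b_nt.VC
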