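import Pool.Agent.P.MP_b8021b_nt.VC.PDisc3
import Pool.Agent.P.MP_b8021b_nt.VC.CPert
import Pool.Agent.P.MP_b8021b_nt.VC.CBCm
import Pool.Agent.P.MP_b8021b_nt.VC.CUPoly

/-! The absolute value of a function on a small disc. -/

namespace Pool.Agent.P.MP_b8021b_nt.VC

theorem p_disc (hCv : S_Cv) (hPts : S_Pts) (hNrm : S_Nrm) (hBC : S_BC) (hInf : S_Inf) (hStab : S_Stab) : S_Disc :=
  PDisc.transfer hBC (c_bCm hCv hPts)
    (PDisc.disc0 hPts hNrm hInf (c_pert hCv hPts hStab) c_uPoly)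

end Pool.Agent.P.MP_b8021b_nt.VC
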