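import Pool.Agent.P.MP_b8021b_nt.VC.PDvd3
import Pool.Agent.P.MP_b8021b_nt.VC.StA
import Pool.Agent.P.MP_0ad054_nt.Div

/-! A given modulus rarely divides `n ^ 2`. -/

namespace Pool.Agent.P.MP_b8021b_nt.VC

open Polynomial Finset Filter Pool.Agent.P.MP_b8021b_nt.VE
open scoped Classical

namespace Dvd

lemma exists_h (c d T : ℕ) (hc : 1 ≤ c) (hT : T ≠ 0) :
    ∃ h : ℕ, 1 ≤ h ∧ (h = 1 ∨ c * h ^ T ≤ d) ∧ d ≤ (2 * c * h) ^ T := by
  have hex : ∃ k : ℕ, d < c * (k + 2) ^ T := by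
    refine ⟨d, ?_⟩
    have h1 : d + 2 ≤ (d + 2) ^ T := Nat.le_self_pow hT _
    have h2 : (d + 2) ^ T ≤ c * (d + 2) ^ T := Nat.le_mul_of_pos_left _ hc
    omega
  have h1 := Nat.find_spec hex
  refine ⟨Nat.find hex + 1, by omega, ?_, ?_⟩
  · rcases Nat.eq_zero_or_pos (Nat.find hex) with h0 | h0
    · left; omega
    · right
      have := Nat.find_min hex (m := Nat.find hex - 1) (by omega)
      rw [show Nat.find hex - 1 + 2 = Nat.find hex + 1 by omega] at this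
      exact not_lt.mp this
  · generalize Nat.find hex = k at h1
    refine h1.le.trans ?_
    rw [show 2 * c * (k + 1) = c * (2 * (k + 1)) by ring, mul_pow]
    exact Nat.mul_le_mul (Nat.le_self_pow hT _) (Nat.pow_le_pow_left (by omega) _)

variable {R : Type} [CommRing R] [Algebra ℤ[X] R]

lemma M0_pos' (r z : ℕ) : 0 < M0 r z :=
  prod_pos fun _ hl => (mem_filter.mp hl).2.1.pos

lemma set0 (hWt : S_Wt) (hCard : S_Card) (hTEq : S_TEq) (hFlat : S_Flat) (F : Fix R) :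
    ∃ W C₁ : ℝ, F.Ev fun c => ∃ Mx : ℕ, Set0 F.p c (8 * c.N * Real.log c.y / c.y) W C₁ Mx := by
  obtain ⟨-, C, hC, hF⟩ := hFlat R F.p
  obtain ⟨y₁, hF⟩ := hF F rfl
  obtain ⟨y₂, hW⟩ := hWt R F.p ((4 * F.p.e + 2) * F.A + 1)
  set M : ℕ := Mf F.p F.z * F.p.r ^ F.p.n0 with hM
  have hM0 : 0 < M :=
    Nat.mul_pos (Nat.mul_pos (M0_pos' _ _) (pow_pos F.p.he.pos _)) (pow_pos F.p.hr.pos _)
  refine ⟨2 * (M : ℝ) ^ 2 / F.η ^ 2, 2 * C + 2,
    max (max y₁ y₂) (max (Real.exp 2) (max 3 (6 * M / F.η))), fun c hc hi => ?_⟩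
  simp only [max_le_iff] at hc
  obtain ⟨⟨hy1, hy2⟩, hy3, h6, h7⟩ := hc
  obtain ⟨-, h1, -⟩ := hF c hy1 hi
  have hlog : 2 ≤ Real.log c.y := (Real.le_log_iff_exp_le (by linarith)).mpr hy3
  have h5 : 1 ≤ c.N := by
    have : (1 : ℝ) ≤ c.N := (one_le_pow₀ (by linarith)).trans hi.N_ge
    exact_mod_cast this
  obtain ⟨h2, h3, h4⟩ := hW c.y hy2 c.N h5 (by
    rw [pow_succ]
    have : 0 ≤ Real.log c.y ^ ((4 * F.p.e + 2) * F.A) := pow_nonneg (by linarith) _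
    nlinarith [hi.N_le])
  have hy : 1 ≤ c.y := by linarith
  have hB : 1 ≤ c.B := (one_le_pow₀ hy).trans hi.B_ge
  have hη := F.ηpos
  have hη' : 0 < c.η := hi.η ▸ F.ηpos
  have hη1 : c.η ≤ 1 := hi.η ▸ F.ηle
  have hyB : c.y ≤ c.B := (le_self_pow₀ hy (by norm_num)).trans hi.B_ge
  have hS := (hTEq R F.p c 1 ∅ c.τ0 c.τ0 c.B c.B (hi.τ0 ▸ F.p.τle) hη' hη1 le_rfl
    (Nat.coprime_one_left _) (by
      rw [hi.z, mul_one, ← hM, hi.η]
      rw [div_le_iff₀ hη] at h7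
      nlinarith) le_rfl le_rfl (by linarith) le_rfl le_rfl (by nlinarith)).1
  rw [hi.z, ← hM, hi.η] at hS
  have hS0 : 0 < F.η ^ 2 * c.B / (2 * (M : ℝ) ^ 2) := by positivity
  have hT : ∀ t ∈ Tset F.p c, c.B ≤ t.2 ∧ (t.2 : ℝ) ≤ 2 * c.B ∧ t.1 ≤ 0 := by
    intro t ht
    obtain ⟨a1, a2, a3, -⟩ := mem_filter.mp ht
    exact ⟨a2, by nlinarith, (mem_Icc.mp (mem_product.mp a1).1).2⟩
  refine ⟨⌈2 * C * c.B⌉₊, fun q hq => ?_, ?_, h5, fun t ht => ?_, fun t ht => ⟨?_, ?_⟩,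
    ?_, ?_, by linarith, ?_, by positivity, fun q t => (hCard R F.p q).2.2.1 t⟩
  · obtain ⟨a1, -, a2, -, -, a3, -, a4, -⟩ := h4 q hq
    exact ⟨a1, a2, a3, a4⟩
  · rw [Pset, sum_biUnion]
    · refine (sum_le_sum fun i hi => (h2 i (mem_range.mp hi)).1).trans ?_
      simp
    · intro i _ j _ hij
      exact disjoint_left.mpr fun q hq hq' => hij ((h3 i q hq).symm.trans (h3 j q hq'))
  · obtain ⟨-, a1, -⟩ := h1 t ht
    obtain ⟨a3, a4, a2⟩ := hT t ht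
    have a5 := Nat.le_ceil (2 * C * c.B)
    have a6 : -((⌈2 * C * c.B⌉₊ : ℕ) : ℝ) ≤ t.1 := by
      have := neg_abs_le (t.1 : ℝ)
      nlinarith
    have a7 : (t.2 : ℝ) ≤ ((⌈2 * C * c.B⌉₊ : ℕ) : ℝ) := by nlinarith
    have a8 : -((⌈2 * C * c.B⌉₊ : ℕ) : ℤ) ≤ t.1 := by exact_mod_cast a6
    have a9 : t.2 ≤ ((⌈2 * C * c.B⌉₊ : ℕ) : ℤ) := by exact_mod_cast a7
    have a10 : 0 ≤ t.2 := by
      have : (0 : ℝ) ≤ t.2 := by linarith
      exact_mod_cast this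
    simp only [mem_product, mem_Icc]
    omega
  · exact div_nonneg (inv_nonneg.mpr (by linarith [(hT t ht).1]))
      (sum_nonneg fun t' ht' => inv_nonneg.mpr (by linarith [(hT t' ht').1]))
  · have a1 := (hT t ht).1
    calc wT F.p c t ≤ c.B⁻¹ / (F.η ^ 2 * c.B / (2 * (M : ℝ) ^ 2)) :=
          div_le_div₀ (by positivity) (inv_anti₀ (by linarith) a1) hS0 hS
      _ = _ := by field_simp
  · simp only [wT]
    rw [← sum_div]
    exact div_self_le_one _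
  · have := Nat.ceil_lt_add_one (show 0 ≤ 2 * C * c.B by positivity)
    nlinarith
  · have : c.y ^ 4 = c.y ^ 2 * c.y ^ 2 := by ring
    have : 9 ≤ c.y ^ 2 := by nlinarith
    nlinarith [hi.B_ge]

end Dvd

open _root_.Pool.Agent.P.MP_b8021b_nt.VC.Dvd in
theorem p_dvd (hDeg : S_Deg) (hWt : S_Wt) (hCard : S_Card) (hTEq : S_TEq) (hFlat : S_Flat) : S_Dvd := by
  intro R _ _ p
  obtain ⟨T, hT⟩ : ∃ T : ℕ, T = TT p + p.cE + 1 := ⟨_, rfl⟩
  have hT0 : T ≠ 0 := by omega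
  have hδ : (0 : ℝ) < ((2 * T : ℕ) : ℝ)⁻¹ := inv_pos.mpr (Nat.cast_pos.mpr (by omega))
  refine ⟨((2 * T : ℕ) : ℝ)⁻¹, hδ, ?_⟩
  rintro F rfl
  have hD : F.p.Dp ≠ 0 := (hDeg R F.p).2.2.1.1
  obtain ⟨W, C₁, y₁, hS⟩ := set0 hWt hCard hTEq hFlat F
  obtain ⟨Cτ, hCτ, hτ⟩ := Pool.Agent.P.MP_0ad054_nt.tau_le hδ
  obtain ⟨y₂, hl⟩ := eventually_atTop.mp (ev_log_pow_le 16 ((4 * F.p.e + 2) * F.A + 1) hδ)
  set k : ℕ := 4 * F.p.r ^ (2 * (F.p.n0 + 1)) with hk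
  have hk1 : 1 ≤ k := Nat.mul_pos (by norm_num) (pow_pos F.p.hr.pos _)
  set K : ℝ := W * C₁ with hK
  set J : ℝ := (2 * F.p.e) ^ 2 with hJ
  refine ⟨Cτ * (2 * J * (K * (C₁ + 1)) * (1 + kk F.p * (K * (C₁ * (2 * k) + 1))) +
    J * (K * (C₁ * (2 * k) + 9))), max (max y₁ y₂) 3, fun c hc hi d hd hdy => ?_⟩
  simp only [max_le_iff] at hc
  obtain ⟨⟨hy1, hy2⟩, hy⟩ := hc
  obtain ⟨Mx, H⟩ := hS c hy1 hi
  replace hl := hl c.y hy2
  obtain ⟨h, hh, hc, hd2⟩ := exists_h k d T hk1 hT0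
  have hlog : 0 ≤ Real.log c.y := Real.log_nonneg (by linarith)
  have hy0 : 0 < c.y := by linarith
  refine (H.core hD hd hh (by positivity) (hc.imp id fun h1 => le_trans
    (Nat.mul_le_mul_left _ (Nat.pow_le_pow_right hh (by omega))) h1)).trans ?_
  have hτd := hτ d
  unfold Pool.Agent.P.MP_0ad054_nt.tau at hτd
  have hd0 : (1 : ℝ) ≤ d := by exact_mod_cast hd
  rw [Real.rpow_neg (by linarith), Real.rpow_neg hy0.le]
  have es : ((d : ℝ) ^ ((2 * T : ℕ) : ℝ)⁻¹) ^ (2 * T) = d :=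
    Real.rpow_inv_natCast_pow (by linarith) (by omega)
  have ew : (c.y ^ ((2 * T : ℕ) : ℝ)⁻¹) ^ (2 * T) = c.y :=
    Real.rpow_inv_natCast_pow hy0.le (by omega)
  have hs1 : 1 ≤ (d : ℝ) ^ ((2 * T : ℕ) : ℝ)⁻¹ := Real.one_le_rpow hd0 hδ.le
  have hw1 : 1 ≤ c.y ^ ((2 * T : ℕ) : ℝ)⁻¹ := Real.one_le_rpow (by linarith) hδ.le
  generalize (d : ℝ) ^ ((2 * T : ℕ) : ℝ)⁻¹ = s at *
  generalize c.y ^ ((2 * T : ℕ) : ℝ)⁻¹ = w at *
  have hs0 : 0 < s := by linarith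
  have hw0 : 0 < w := by linarith
  have hW := H.W0
  have hC := H.C0
  have hB := H.Bpos
  have hK0 : 0 ≤ K := by positivity
  have hJ0 : 0 ≤ J := by positivity
  have hh0 : (0 : ℝ) < h := by exact_mod_cast hh
  set E : ℝ := s⁻¹ + w⁻¹ with hE
  have hE1 : s⁻¹ ≤ E := le_add_of_nonneg_right (by positivity)
  have hE2 : w⁻¹ ≤ E := le_add_of_nonneg_left (by positivity)
  have a1 : s ≤ w ^ (2 * F.p.cE) := by
    refine le_of_pow_le_pow_left₀ (n := 2 * T) (by omega) (by positivity) ?_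
    rw [es, ← pow_mul, mul_comm, pow_mul, ew]
    exact hdy
  have a2 : s ^ 2 ≤ 2 * k * h := by
    refine le_of_pow_le_pow_left₀ (n := T) hT0 (by positivity) ?_
    rw [← pow_mul, es]
    exact_mod_cast hd2
  have b1 : s * (C₁ / h) ≤ C₁ * (2 * k) * E := by
    refine le_trans ?_ (mul_le_mul_of_nonneg_left hE1 (by positivity))
    have : s / h ≤ 2 * k / s := by
      rw [div_le_div_iff₀ hh0 hs0]; nlinarith
    calc s * (C₁ / h) = C₁ * (s / h) := by ring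
      _ ≤ C₁ * (2 * k / s) := mul_le_mul_of_nonneg_left this hC
      _ = _ := by ring
  have a3 : s * w * w ≤ c.y := by
    calc s * w * w ≤ w ^ (2 * F.p.cE) * w * w := by gcongr
      _ = w ^ (2 * F.p.cE + 2) := by ring
      _ ≤ w ^ (2 * T) := pow_le_pow_right₀ hw1 (by omega)
      _ = _ := ew
  have b0 : s * (w / c.y) ≤ E := by
    refine le_trans ?_ hE2
    rw [← mul_div_assoc, div_le_iff₀ hy0, inv_mul_eq_div, le_div_iff₀ hw0]
    exact a3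
  have b2 : s * (8 * c.N * Real.log c.y / c.y) ≤ E := by
    refine le_trans (mul_le_mul_of_nonneg_left (div_le_div_of_nonneg_right ?_ hy0.le) hs0.le) b0
    refine le_trans ?_ hl
    rw [pow_succ, ← mul_assoc]
    exact mul_le_mul_of_nonneg_right (by linarith [hi.N_le]) hlog
  have b3 : s * (c.y ^ 2 / c.B) ≤ E := by
    refine le_trans (mul_le_mul_of_nonneg_left ?_ hs0.le) b0
    rw [div_le_div_iff₀ hB hy0]
    have : c.y ^ 2 * c.y ≤ c.y ^ 4 := by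
      rw [← pow_succ]; exact pow_le_pow_right₀ (by linarith) (by norm_num)
    nlinarith [hi.B_ge]
  have b4 : s * (1 / c.B) ≤ E := by
    refine le_trans (mul_le_mul_of_nonneg_left (div_le_div_of_nonneg_right ?_ hB.le) hs0.le) b3
    exact one_le_pow₀ (by linarith)
  calc _ ≤ Cτ * s * (2 * J * (K * (C₁ + 1)) * (8 * c.N * Real.log c.y / c.y +
        kk F.p * (K * (C₁ / h + 1 / c.B))) + J * (K * (C₁ / h + 9 * c.y ^ 2 / c.B))) :=
        mul_le_mul_of_nonneg_right hτd (by positivity)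
    _ = Cτ * (2 * J * (K * (C₁ + 1)) * (s * (8 * c.N * Real.log c.y / c.y) +
        kk F.p * (K * (s * (C₁ / h) + s * (1 / c.B)))) +
          J * (K * (s * (C₁ / h) + 9 * (s * (c.y ^ 2 / c.B))))) := by ring
    _ ≤ Cτ * (2 * J * (K * (C₁ + 1)) * (E + kk F.p * (K * (C₁ * (2 * k) * E + E))) +
          J * (K * (C₁ * (2 * k) * E + 9 * E))) := by gcongr
    _ = _ := by ring

end Pool.Agent.P.MP_b8021b_nt.VC
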