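import Pool.Agent.P.MP_b8021b_nt.VC.PE22
import Pool.Agent.P.MP_b8021b_nt.VE.PE2

/-! Characters of the base field over the strata: Siegel-Walfisz and the large sieve. -/

namespace Pool.Agent.P.MP_b8021b_nt.VC

open NumberField Finset Pool.Agent.P.MP_b8021b_nt.VE Pool.Agent.P.MP_b8021b_nt.VE.E2P
open scoped Classical ComplexConjugate

namespace E2

variable {k : Type} [Field k] [NumberField k] [Algebra k ℂ]

/-- change of modulus -/
theorem change (hLam : VE.S_Lam) (K : BF k) {s : Finset ℕ} {w : ℕ → ℝ} {W y : ℝ} {c m : ℕ}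
    (hy : 1 < y) (hs : ∀ q ∈ s, q.Prime ∧ y ≤ q) (hW : 0 ≤ W) (hw : ∀ q ∈ s, 0 ≤ w q ∧ w q ≤ W)
    (hm : 1 ≤ m) (hc : (m : ℝ) ≤ y ^ c) {χ ξ : Ideal (𝓞 k) →* ℂ} (hχ : IsChar m χ)
    (hξ : ∀ I, ‖ξ I‖ ≤ 1) (h : ∀ I, Cop m I → χ I = ξ I) :
    ‖∑ q ∈ s, (w q : ℂ) * lam χ q‖ ≤ ‖∑ q ∈ s, (w q : ℂ) * lam ξ q‖ + c * (4 * W) := by
  refine (norm_le_norm_sub_add _ (∑ q ∈ s, (w q : ℂ) * lam ξ q)).trans ?_
  rw [add_comm]
  gcongr
  rw [← sum_sub_distrib]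
  calc _ ≤ ∑ q ∈ s, if q ∣ m then 4 * W else 0 :=
        (norm_sum_le _ _).trans (sum_le_sum fun q hq => ?_)
    _ = (s.filter fun q => q ∣ m).card * (4 * W) := by rw [← sum_filter, sum_const, nsmul_eq_mul]
    _ ≤ c * (4 * W) := by
      gcongr
      exact card_dvd hy hs hm hc
  split_ifs with hn
  · have hn' : ¬ q.Coprime m := fun h' => ((hs q hq).1.coprime_iff_not_dvd.1 h') hn
    rw [lam_eq_zero hχ hn', mul_zero, zero_sub, norm_neg, norm_mul, Complex.norm_real,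
      Real.norm_of_nonneg (hw q hq).1, mul_comm]
    exact mul_le_mul (norm_lam_le hLam K hξ (hs q hq).1) (hw q hq).2 (hw q hq).1 (by norm_num)
  · rw [lam_congr (χ := χ) (χ' := ξ) fun I hI => h I (cop_iff_coprime.2
      (hI ▸ (hs q hq).1.coprime_iff_not_dvd.2 hn)), sub_self, norm_zero]

/-- reduction to primitive characters -/
theorem fib {Q A₀ Kb E : ℝ} {C m N : ℕ} (H : Inp k Q A₀ C) (hK : 1 ≤ Kb) (hm : 1 ≤ m) (h2 : 2 ∣ m)
    (u : ℕ) (S : ℕ → (Ideal (𝓞 k) →* ℂ) → ℝ) (S0 : ∀ i χ, 0 ≤ S i χ) (hE : 0 ≤ E)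
    (hS : ∀ i ∈ range N, ∀ (χ ξ : Ideal (𝓞 k) →* ℂ), IsChar m χ → (∀ I, ‖ξ I‖ ≤ 1) →
      (∀ I, Cop m I → χ I = ξ I) → S i χ ≤ S i ξ + E) :
    ∑ᶠ χ ∈ {χ : Ideal (𝓞 k) →* ℂ | χ ∈ Chs k m Kb 0 ∧ ¬ IsTriv m χ}, ∑ i ∈ range N, S i χ ^ u ≤
      ∑ d ∈ m.divisors, (∑ i ∈ range N, 2 ^ u * ∑ ξ ∈ prim k Kb d, S i ξ ^ u) +
        (Q * m * Kb) ^ C * (N * (2 * E) ^ u) := by
  obtain ⟨n1, n2⟩ := H.num Kb m (Nat.le_of_dvd hm h2) hK
  have sub : {χ : Ideal (𝓞 k) →* ℂ | χ ∈ Chs k m Kb 0 ∧ ¬ IsTriv m χ} ⊆ Chs k m Kb 1 :=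
    fun χ h => Chs_mono h.1
  have hf := n1.subset sub
  rw [finsum_mem_eq_finite_toFinset_sum _ hf]
  have ex : ∀ χ : Ideal (𝓞 k) →* ℂ, ∃ a : (Σ _ : ℕ, Ideal (𝓞 k) →* ℂ), χ ∈ hf.toFinset →
      a ∈ m.divisors.sigma (prim k Kb) ∧ IsChar m χ ∧ ∀ I, Cop m I → χ I = a.2 I := fun χ => by
    by_cases h : χ ∈ hf.toFinset
    · have h' := hf.mem_toFinset.1 h
      obtain ⟨d, d1, ξ, d2, d3⟩ := exists_pr hm h2 h'.1 h'.2
      obtain ⟨_, _, -, -, h3⟩ := h'.1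
      exact ⟨⟨d, ξ⟩, fun _ => ⟨mem_sigma.2 ⟨Nat.mem_divisors.2 ⟨d1, by omega⟩, H.mem_prim hK d2⟩,
        h3.toIsChar, d3⟩⟩
    · exact ⟨⟨0, χ⟩, fun h' => absurd h' h⟩
  choose φ hφ using ex
  have inj : Set.InjOn φ hf.toFinset := fun χ h χ' h' e =>
    char_ext (hφ χ h).2.1 (hφ χ' h').2.1 fun I hI => by
      rw [(hφ χ h).2.2 I hI, (hφ χ' h').2.2 I hI, e]
  set G : (Σ _ : ℕ, Ideal (𝓞 k) →* ℂ) → ℝ := fun a => ∑ i ∈ range N, 2 ^ u * S i a.2 ^ u with hG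
  have G0 : ∀ a, 0 ≤ G a := fun a => sum_nonneg fun i _ => by have := S0 i a.2; positivity
  calc _ ≤ ∑ χ ∈ hf.toFinset, (G (φ χ) + N * (2 * E) ^ u) := sum_le_sum fun χ h => by
        obtain ⟨a1, a2, a3⟩ := hφ χ h
        have a4 := norm_char_le (pr_of_mem (mem_sigma.1 a1).2).isChar
        calc _ ≤ ∑ i ∈ range N, (2 ^ u * S i (φ χ).2 ^ u + (2 * E) ^ u) := sum_le_sum fun i hi => by
              have := S0 i (φ χ).2
              refine (pow_le_pow_left₀ (S0 i χ) (hS i hi χ _ a2 a4 a3) u).trans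
                ((add_pow_le this hE u).trans ?_)
              rw [mul_pow 2, ← mul_add]
              gcongr
              · norm_num
              · omega
          _ = _ := by rw [sum_add_distrib, sum_const, card_range, nsmul_eq_mul]
    _ ≤ _ := by
        rw [sum_add_distrib, sum_const, nsmul_eq_mul]
        refine add_le_add ?_ (mul_le_mul_of_nonneg_right (le_trans ?_ n2) (by positivity))
        · rw [← sum_image inj]
          refine (sum_le_sum_of_subset_of_nonneg (t := m.divisors.sigma (prim k Kb))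
            (fun a ha => ?_) fun a _ _ => G0 a).trans (le_of_eq ?_)
          · obtain ⟨χ, h, rfl⟩ := mem_image.1 ha
            exact (hφ χ h).1
          · rw [sum_sigma]
            refine sum_congr rfl fun d _ => ?_
            simp only [hG, mul_sum]
            exact sum_comm
        · rw [← Set.ncard_eq_toFinset_card _ hf]
          exact_mod_cast Set.ncard_le_ncard sub n1

/-- Siegel-Walfisz for primes -/
theorem tb (hSW : S_SWk) (K : BF k) (A G : ℕ) : ∀ᶠ y : ℝ in Filter.atTop, ∀ X : ℕ, y - 1 ≤ X →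
    X ≤ 3 * y → ∀ (d : ℕ) (j : ℤ) (ξ : Ideal (𝓞 k) →* ℂ), 2 ≤ d → (d : ℝ) ≤ Real.log y ^ A →
    (|j| : ℝ) ≤ Real.log y ^ A → IsK d j ξ → ¬ IsTriv d ξ →
    ‖∑ q ∈ Icc 1 X with q.Prime, (Real.log q : ℂ) * lam ξ q‖ ≤ y / (4 * Real.log y ^ G) := by
  obtain ⟨C, C0, hC⟩ := hSW k K (G + 1) (2 * A)
  filter_upwards [ev_log 4, ev_log (12 * C * 2 ^ (G + 1)), Filter.eventually_ge_atTop 4]
    with y h4 hL hy X h1 h2 d j ξ hd hdA hjA hξ ht
  have X3 : (3 : ℝ) ≤ X := by linarith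
  have X2 : 2 ≤ X := by
    have : 3 ≤ X := by exact_mod_cast X3
    omega
  have l1 : Real.log y / 2 ≤ Real.log X := by
    have := Real.log_le_log (by linarith) (show y ≤ (X : ℝ) ^ 2 by nlinarith)
    rw [Real.log_pow] at this
    push_cast at this
    linarith
  have l2 : Real.log y ^ A ≤ Real.log X ^ (2 * A) := by
    rw [pow_mul]
    exact pow_le_pow_left₀ (by linarith) (by nlinarith) _
  have h5 := hC X d j ξ X2 hd (hdA.trans l2) (hjA.trans l2) hξ ht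
  set L := Real.log y
  have L0 : 0 < L := by linarith
  refine h5.trans ?_
  calc _ ≤ C * (3 * y) / (L / 2) ^ (G + 1) := by gcongr
    _ = (12 * C * 2 ^ (G + 1) / L) * (y / (4 * L ^ G)) := by
      rw [div_pow]; field_simp; ring
    _ ≤ _ := mul_le_of_le_one_left (by positivity) ((div_le_one L0).2 hL)

/-- small conductors -/
theorem small (hT : VE.S_Theta) (hK : S_ThetaK) (hSW : S_SWk) (K : BF k) {r : ℕ} (hr : r.Prime)
    (hD : K.D = -r) (A A' B : ℕ) : ∀ᶠ y : ℝ in Filter.atTop, ∀ N : ℕ, 1 ≤ N →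
    (N : ℝ) ≤ Real.log y ^ A → ∀ i < N, ∀ (d : ℕ) (ξ : Ideal (𝓞 k) →* ℂ),
    (d : ℝ) ≤ Real.log y ^ A' → Pr ((N : ℝ) ^ 2) d ξ →
    ‖Smw (wk r y N) y N i (lam ξ)‖ ≤ (Real.log y ^ B)⁻¹ := by
  obtain ⟨y₀, h⟩ := hT A
  obtain ⟨y₁, h'⟩ := hK r hr A
  filter_upwards [tb hSW K (A' + 2 * A) (A + B), ev_log 1, Filter.eventually_ge_atTop y₀,
    Filter.eventually_ge_atTop y₁, Filter.eventually_gt_atTop ((2 * r : ℕ) : ℝ),
    Filter.eventually_ge_atTop 1] with y ht hL hy hy' yr y1 N hN hA i hi d ξ hdA hξ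
  obtain ⟨-, -, t3, t4⟩ := h y hy N hN hA
  obtain ⟨k1, k2, -⟩ := h' y hy' N hN hA
  obtain ⟨d2, -, d3, j, j1, j2, -⟩ := hξ
  have N0 : (0 : ℝ) < N := by exact_mod_cast hN
  have hs : (strat y N i).Nonempty := by
    rw [nonempty_iff_ne_empty]
    intro h0
    have := k2 i hi
    rw [h0, sum_empty] at this
    exact zero_ne_one this
  have hP : ∀ q ∈ strat y N i, q ∈ Pset y N := fun q hq =>
    mem_biUnion.2 ⟨i, mem_range.2 hi, hq⟩
  obtain ⟨a, ha, b, hb, hab⟩ := strat_sum (by linarith) hs fun q => (Real.log q : ℂ) * lam ξ q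
  obtain ⟨a1, a2, a3, -⟩ := t4 a (hP a ha)
  obtain ⟨-, b2, b3, -⟩ := t4 b (hP b hb)
  have a4 : ((a - 1 : ℕ) : ℝ) = a - 1 := by rw [Nat.cast_sub a1.one_le, Nat.cast_one]
  have c1 : (d : ℝ) ≤ Real.log y ^ (A' + 2 * A) := hdA.trans (pow_le_pow_right₀ hL (by omega))
  have c2 : (|j| : ℝ) ≤ Real.log y ^ (A' + 2 * A) := by
    refine j1.le.trans ((pow_le_pow_left₀ N0.le hA 2).trans ?_)
    rw [← pow_mul]
    exact pow_le_pow_right₀ hL (by omega)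
  have e1 := ht b (by linarith) b3.le d j ξ d2 c1 c2 j2 d3
  have e2 := ht (a - 1) (by linarith) (by linarith) d j ξ d2 c1 c2 j2 d3
  have e3 : Smw (wk r y N) y N i (lam ξ) = (∑ q ∈ strat y N i, (Real.log q : ℂ) * lam ξ q) /
      (2 * ∑ q ∈ strat y N i with spl r q, Real.log q : ℝ) := by
    rw [Smw, sum_div]
    refine sum_congr rfl fun q hq => ?_
    obtain ⟨q1, q2, -⟩ := t4 q (hP q hq)
    by_cases c : spl r q
    · rw [wk, if_pos c, t3 i q hq, Complex.ofReal_div]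
      ring
    · have : ¬ q ∣ 2 * r := fun e => by
        have : (q : ℝ) ≤ (2 * r : ℕ) := by
          exact_mod_cast Nat.le_of_dvd (Nat.mul_pos two_pos hr.pos) e
        linarith
      rw [lam_nspl K hD q1 this c]
      simp
  have e4 := k1 i hi
  have e5 : 0 < y / (4 * N) := by positivity
  set L := Real.log y
  rw [e3, norm_div, Complex.norm_real, Real.norm_of_nonneg (by linarith), hab]
  calc _ ≤ (y / (4 * L ^ (A + B)) + y / (4 * L ^ (A + B))) / (2 * (y / (4 * N))) := by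
        gcongr
        exact (norm_sub_le _ _).trans (add_le_add e1 e2)
    _ = N / L ^ A * (L ^ B)⁻¹ := by field_simp; ring
    _ ≤ _ := mul_le_of_le_one_left (by positivity) ((div_le_one (by positivity)).2 hA)

/-- the large sieve for one stratum -/
theorem big (hG : S_Gcd) (hLam : VE.S_Lam) (K : BF k) {Q A₀ Kb y W : ℝ} {C c R Y u : ℕ}
    (H : Inp k Q A₀ C) (hK : 1 ≤ Kb) (hKy : 2 * Kb ≤ y) (hQ : Q ≤ y) (hR : (R : ℝ) ≤ y ^ c)
    (hY : y ≤ Y) {s : Finset ℕ} {w : ℕ → ℝ} (hs : ∀ q ∈ s, q.Prime ∧ q ≤ Y) (hW : 0 ≤ W)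
    (hw : ∀ q ∈ s, 0 ≤ w q ∧ w q ≤ W) (h1 : ∑ q ∈ s, 2 * w q = 1) {κ : ℕ}
    (hκ : κ = 4 * (c + (c + 2) * C + (2 * c + 2) * C)) (hu : 2 * κ ≤ u) :
    ∑ d ∈ Icc 1 R, ∑ ξ ∈ prim k Kb d, ‖∑ q ∈ s, (w q : ℂ) * lam ξ q‖ ^ u ≤
      2 ^ u * ((A₀ + 1) * (Y : ℝ) ^ κ * (2 * κ * W) ^ κ) := by
  have Q2 := H.hQ
  have A0 := H.hA
  have y1 : 1 ≤ y := by linarith
  have Y1 : 1 ≤ Y := by exact_mod_cast y1.trans hY
  have g := H.gram hG K hK (R := R) (X := Y ^ κ) (Nat.one_le_pow _ _ Y1)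
  have l := ls_pow (s := idl k s) (w := fun I => w (Ideal.absNorm I)) (W := W) (k := κ) _
    (fun a : (Σ _ : ℕ, Ideal (𝓞 k) →* ℂ) => a.2) (by positivity) g (prod_mem hs)
    (fun I hI => prime_of (hs _ (mem_idl.1 hI)).1) hW (fun I hI => hw _ (mem_idl.1 hI))
    (sum_w_le hLam K (fun q hq => (hs q hq).1) (fun q hq => (hw q hq).1) h1)
  simp only [sum_idl s fun q => (w q : ℂ)] at l
  rw [sum_sigma', Nat.cast_pow] at *
  have b : R * (Q * R * Kb) ^ C * ((Q * R ^ 2 * (2 * Kb)) ^ C * ((Y : ℝ) ^ κ) ^ (3 / 4 : ℝ)) ≤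
      (Y : ℝ) ^ κ := by
    have Y0 : (0 : ℝ) < Y := by linarith
    have b1 : ((Y : ℝ) ^ κ) ^ (3 / 4 : ℝ) = (Y : ℝ) ^ (3 * (c + (c + 2) * C + (2 * c + 2) * C)) := by
      rw [← Real.rpow_natCast, ← Real.rpow_mul Y0.le, ← Real.rpow_natCast, hκ]
      congr 1
      push_cast
      ring
    have b2 : Kb ≤ y := by linarith
    calc _ ≤ y ^ c * (y * y ^ c * y) ^ C * ((y * (y ^ c) ^ 2 * y) ^ C *
          ((Y : ℝ) ^ κ) ^ (3 / 4 : ℝ)) := by gcongr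
      _ = y ^ (c + (c + 2) * C + (2 * c + 2) * C) * ((Y : ℝ) ^ κ) ^ (3 / 4 : ℝ) := by ring
      _ ≤ (Y : ℝ) ^ (c + (c + 2) * C + (2 * c + 2) * C) * ((Y : ℝ) ^ κ) ^ (3 / 4 : ℝ) := by gcongr
      _ = _ := by rw [b1, ← pow_add, hκ]; congr 1; ring
  calc _ ≤ ∑ a ∈ (Icc 1 R).sigma (prim k Kb), 2 ^ u * ‖∑ q ∈ s, (w q : ℂ) * lam a.2 q‖ ^ (2 * κ) :=
        sum_le_sum fun a ha => by
          have t := norm_sum_le_two hLam K (norm_char_le (pr_of_mem (mem_sigma.1 ha).2).isChar)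
            (fun q hq => (hs q hq).1) (fun q hq => (hw q hq).1) h1
          obtain ⟨v, rfl⟩ := Nat.exists_eq_add_of_le hu
          rw [pow_add, mul_comm]
          refine mul_le_mul_of_nonneg_right ((pow_le_pow_left₀ (norm_nonneg _) t v).trans
            (pow_le_pow_right₀ one_le_two (by omega))) (by positivity)
    _ ≤ _ := by
        rw [← mul_sum]
        refine mul_le_mul_of_nonneg_left (l.trans (mul_le_mul_of_nonneg_right ?_ (by positivity)))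
          (by positivity)
        linarith

end E2

open E2 in
theorem p_e2 (hTheta : VE.S_Theta) (hThetaK : S_ThetaK) (hEmb : S_Emb) (hPSs : S_PSs) (hNumCh : S_NumCh) (hGcd : S_Gcd) (hSWk : S_SWk) (hLam : VE.S_Lam) : S_E2 := by
  intro k _ _ _ K r hr hD c
  obtain ⟨Q, A₀, C, H⟩ := inp hEmb hPSs hNumCh K
  obtain ⟨κ, hκ⟩ : ∃ κ, κ = 4 * (c + (c + 2) * C + (2 * c + 2) * C) := ⟨_, rfl⟩
  obtain ⟨h, hh⟩ : ∃ h, h = (c + 2) * C := ⟨_, rfl⟩
  refine ⟨2 * κ + h + 2, fun u hu A => ⟨A + (A + 1) * κ + 1, fun A' => ?_⟩⟩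
  obtain ⟨y₀, t⟩ := hTheta A
  obtain ⟨y₁, t'⟩ := hThetaK r hr A
  have Q2 := H.hQ
  have A0 := H.hA
  refine Filter.eventually_atTop.1 ?_
  filter_upwards [small hTheta hThetaK hSWk K hr hD A A' (2 * A' + A + 1 + (1 + A' + 2 * A) * C),
    ev_log 1, ev_log (2 ^ u), ev_log Q, ev_log (2 ^ u * 2 ^ u * (A₀ + 1) * (32 * κ) ^ κ),
    ev_pow 2 (A * 2), ev_pow (32 * c) (A + 1),
    ev_pow ((32 * c) ^ (h + 2)) (A + (A + 1) * (h + 2)), Filter.eventually_ge_atTop y₀,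
    Filter.eventually_ge_atTop y₁, Filter.eventually_ge_atTop Q]
    with y hsm hL hu2 hLQ hK hP0 hP1 hP2 hy hy' yQ N hN hA
  obtain ⟨-, -, -, t4⟩ := t y hy N hN hA
  obtain ⟨-, k2, k3⟩ := t' y hy' N hN hA
  have hP : ∀ i ∈ range N, ∀ q ∈ strat y N i, q ∈ Pset y N := fun i hi q hq =>
    mem_biUnion.2 ⟨i, hi, hq⟩
  have y0 : 0 < y := by linarith
  have sq : √y ≤ y := by
    rw [Real.sqrt_le_left y0.le]; nlinarith
  set L := Real.log y with hLd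
  have L0 : 0 < L := by linarith
  have W0 : 0 ≤ 4 * N * L / y := by positivity
  have N1 : (1 : ℝ) ≤ N := by exact_mod_cast hN
  have K1 : (1 : ℝ) ≤ (N : ℝ) ^ 2 := one_le_pow₀ N1
  have K2 : (N : ℝ) ^ 2 ≤ L ^ (A * 2) := by rw [pow_mul]; gcongr
  have K3 : 2 * (N : ℝ) ^ 2 ≤ y := by linarith
  refine ⟨fun d => ∑ i ∈ range N, 2 ^ u * ∑ ξ ∈ prim k ((N : ℝ) ^ 2) d,
    ‖Smw (wk r y N) y N i (lam ξ)‖ ^ u, fun d => sum_nonneg fun i _ => by positivity, ?_, ?_, ?_⟩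
  · have R1 : (⌊y ^ c⌋₊ : ℝ) ≤ y ^ c := Nat.floor_le (by positivity)
    have Y1 : (⌈3 * y⌉₊ : ℝ) ≤ 4 * y := by
      linarith [Nat.ceil_lt_add_one (show 0 ≤ 3 * y by positivity)]
    have Y2 : y ≤ ⌈3 * y⌉₊ := by linarith [Nat.le_ceil (3 * y)]
    rw [sum_comm]
    refine (sum_le_card_nsmul _ _ (2 ^ u * (2 ^ u * ((A₀ + 1) * (4 * y) ^ κ *
      (2 * κ * (4 * L ^ A * L / y)) ^ κ))) fun i hi => ?_).trans ?_
    · rw [← mul_sum]
      refine mul_le_mul_of_nonneg_left ((big hGcd hLam K H K1 K3 yQ R1 Y2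
        (fun q hq => ⟨(mem_filter.1 hq).2.1, Nat.lt_succ_iff.1 (mem_range.1 (mem_filter.1 hq).1)⟩)
        W0 (fun q hq => k3 q (hP i hi q hq)) (k2 i (mem_range.1 hi)) hκ (by omega)).trans ?_)
        (by positivity)
      gcongr
    · rw [card_range, nsmul_eq_mul]
      calc _ ≤ L ^ A * (2 ^ u * (2 ^ u * ((A₀ + 1) * (4 * y) ^ κ *
            (2 * κ * (4 * L ^ A * L / y)) ^ κ))) := by gcongr
        _ = (2 ^ u * 2 ^ u * (A₀ + 1)) * L ^ A *
            ((4 * y) * (2 * κ * (4 * L ^ A * L / y))) ^ κ := by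
              rw [mul_pow (4 * y)]; ring
        _ = (2 ^ u * 2 ^ u * (A₀ + 1) * (32 * κ) ^ κ) * L ^ (A + (A + 1) * κ) := by
              rw [show (4 * y) * (2 * κ * (4 * L ^ A * L / y)) = 32 * κ * L ^ (A + 1) by
                field_simp; ring, mul_pow (32 * κ : ℝ), ← pow_mul]
              ring
        _ ≤ L * L ^ (A + (A + 1) * κ) := by gcongr
        _ = _ := by ring
  · have R1 : (⌊L ^ A'⌋₊ : ℝ) ≤ L ^ A' := Nat.floor_le (by positivity)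
    set B := 2 * A' + A + 1 + (1 + A' + 2 * A) * C with hB
    refine (sum_le_card_nsmul _ _ (L ^ A * (L * ((L * L ^ A' * L ^ (A * 2)) ^ C * (L ^ B)⁻¹)))
      fun d hd => ?_).trans ?_
    · have d2 : (d : ℝ) ≤ L ^ A' := le_trans (by exact_mod_cast (mem_Icc.1 hd).2) R1
      refine (sum_le_card_nsmul _ _ (L * ((L * L ^ A' * L ^ (A * 2)) ^ C * (L ^ B)⁻¹))
        fun i hi => ?_).trans ?_
      · refine mul_le_mul hu2 ((sum_le_card_nsmul _ _ ((L ^ B)⁻¹) fun ξ hξ => ?_).trans ?_)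
          (by positivity) L0.le
        · have := hsm N hN hA i (mem_range.1 hi) d ξ d2 (pr_of_mem hξ)
          exact le_trans (pow_le_of_le_one (norm_nonneg _)
            (this.trans (inv_le_one_of_one_le₀ (one_le_pow₀ hL))) (by omega)) this
        · rw [nsmul_eq_mul]
          refine mul_le_mul_of_nonneg_right ((H.card_prim K1 d).trans ?_) (by positivity)
          gcongr
      · rw [card_range, nsmul_eq_mul]
        gcongr
    · rw [Nat.card_Icc, add_tsub_cancel_right, nsmul_eq_mul]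
      calc _ ≤ L ^ A' * (L ^ A * (L * ((L * L ^ A' * L ^ (A * 2)) ^ C * (L ^ B)⁻¹))) := by gcongr
        _ = _ := by rw [hB]; field_simp; ring
  · intro m hm h2 hc
    refine (fib H K1 hm h2 u (fun i χ => ‖Smw (wk r y N) y N i (lam χ)‖) (fun _ _ => norm_nonneg _)
      (E := c * (4 * (4 * N * L / y))) (by positivity) fun i hi χ ξ a1 a2 a3 =>
        change hLam K (by linarith) (fun q hq => ⟨(t4 q (hP i hi q hq)).1,
          (t4 q (hP i hi q hq)).2.1⟩) W0 (fun q hq => k3 q (hP i hi q hq)) hm hc a1 a2 a3).trans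
      (add_le_add le_rfl ?_)
    have h1 : 2 * (c * (4 * (4 * N * L / y))) ≤ 32 * c * L ^ (A + 1) / y := by
      calc _ ≤ 2 * (c * (4 * (4 * L ^ A * L / y))) := by gcongr
        _ = _ := by ring
    have h3 : (N : ℝ) ^ 2 ≤ y := by linarith
    calc _ ≤ (y * y ^ c * y) ^ C * (L ^ A * (32 * c * L ^ (A + 1) / y) ^ u) := by gcongr
      _ ≤ (y * y ^ c * y) ^ C * (L ^ A * (32 * c * L ^ (A + 1) / y) ^ (h + 2)) := by
          gcongr _ * (_ * ?_)
          exact pow_le_pow_of_le_one (by positivity) ((div_le_one y0).2 (hP1.trans sq)) (by omega)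
      _ = (32 * c) ^ (h + 2) * L ^ (A + (A + 1) * (h + 2)) / y * (1 / y) := by
          rw [show (y * y ^ c * y) ^ C = y ^ h by rw [hh]; ring, div_pow,
            mul_pow _ (L ^ (A + 1)), ← pow_mul]
          field_simp
          ring
      _ ≤ _ := mul_le_of_le_one_left (by positivity) ((div_le_one y0).2 (hP2.trans sq))

end Pool.Agent.P.MP_b8021b_nt.VC
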