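import Pool.Agent.P.MP_b8021b_nt.VC.StG

/-! The Euler product of the `L`-series of a bounded multiplicative function on ideals. -/

namespace Pool.Agent.P.MP_b8021b_nt.VC

open NumberField Filter Topology Pool.Agent.P.MP_b8021b_nt.VE IsDedekindDomain
open scoped Classical

namespace EP

variable {E : Type} [Field E] [NumberField E]

theorem summable_card {σ : ℝ} (hσ : 1 < σ) :
    Summable fun m : ℕ =>
      (Nat.card {I : Ideal (𝓞 E) // Ideal.absNorm I = m} : ℝ) * (m : ℝ) ^ (-σ) := by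
  have h1 : Tendsto (fun n : ℕ => (∑ k ∈ Finset.Icc 1 n,
      (Nat.card {I : Ideal (𝓞 E) // Ideal.absNorm I = k} : ℝ)) / n) atTop
      (𝓝 (dedekindZeta_residue E)) := by
    refine ((Ideal.tendsto_norm_le_div_atTop₀ E).comp tendsto_natCast_atTop_atTop).congr
      fun n => ?_
    simp only [Function.comp_apply, Nat.cast_le, ← Nat.cast_sum]
    congr 2
    rw [← add_left_inj 1, ← Ideal.card_norm_le_eq_card_norm_le_add_one,
      show Finset.Icc 1 n = Finset.Ioc 0 n from Finset.Icc_succ_left_eq_Ioc _ _,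
      show 1 = Nat.card {I : Ideal (𝓞 E) // Ideal.absNorm I = 0} by
        simp [Ideal.absNorm_eq_zero_iff],
      Finset.sum_Ioc_add_eq_sum_Icc (n.zero_le),
      ← Finset.card_preimage_eq_sum_card_image_eq
        (fun k _ => Ideal.finite_setOfPred_absNorm_eq k)]
    simp [Set.coe_eq_subtype]
  have h2 : LSeriesSummable (fun n : ℕ =>
      ((Nat.card {I : Ideal (𝓞 E) // Ideal.absNorm I = n} : ℝ) : ℂ)) (σ : ℂ) := by
    refine LSeriesSummable_of_sum_norm_bigO_and_nonneg (r := 1) ?_ (fun _ => Nat.cast_nonneg _)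
      zero_le_one (by simpa using hσ)
    simp only [Real.rpow_one]
    refine Asymptotics.isBigO_of_div_tendsto_nhds ?_ _ h1
    filter_upwards [eventually_ne_atTop 0] with n hn h
    exact absurd (by exact_mod_cast h) hn
  refine h2.norm.congr fun m => ?_
  rw [LSeries.norm_term_eq]
  split_ifs with hm
  · rw [hm, Nat.cast_zero, Real.zero_rpow (by linarith), mul_zero]
  · rw [Complex.ofReal_re, Real.rpow_neg (Nat.cast_nonneg _), div_eq_mul_inv, Complex.norm_real,
      Real.norm_natCast]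

theorem summable_norm {σ : ℝ} (hσ : 1 < σ) :
    Summable fun I : Ideal (𝓞 E) => (Ideal.absNorm I : ℝ) ^ (-σ) := by
  refine (Equiv.sigmaFiberEquiv fun I : Ideal (𝓞 E) => Ideal.absNorm I).summable_iff.mp ?_
  have hf : ∀ m, Finite {I : Ideal (𝓞 E) // Ideal.absNorm I = m} :=
    fun m => Ideal.finite_setOfPred_absNorm_eq m
  refine (summable_sigma_of_nonneg fun _ => Real.rpow_nonneg (Nat.cast_nonneg _) _).mpr
    ⟨fun m => Summable.of_finite, (summable_card (E := E) hσ).congr fun m => ?_⟩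
  have : ∀ I : {I : Ideal (𝓞 E) // Ideal.absNorm I = m},
      ((fun I : Ideal (𝓞 E) => (Ideal.absNorm I : ℝ) ^ (-σ)) ∘
        (Equiv.sigmaFiberEquiv fun I : Ideal (𝓞 E) => Ideal.absNorm I)) ⟨m, I⟩ =
          (m : ℝ) ^ (-σ) := fun I => by
    show (Ideal.absNorm I.1 : ℝ) ^ (-σ) = _
    rw [I.2]
  exact ((tsum_congr this).trans (by rw [tsum_const, nsmul_eq_mul])).symm

/-- the sieved sums -/
noncomputable def sv (f : Ideal (𝓞 E) → ℂ) (S : Finset (HeightOneSpectrum (𝓞 E)))
    (I : Ideal (𝓞 E)) : ℂ := if ∀ P ∈ S, ¬ P.asIdeal ∣ I then f I else 0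

variable {f : Ideal (𝓞 E) → ℂ}

omit [NumberField E] in
theorem norm_sv (S : Finset (HeightOneSpectrum (𝓞 E))) (I : Ideal (𝓞 E)) :
    ‖sv f S I‖ ≤ ‖f I‖ := by
  unfold sv
  split_ifs
  exacts [le_rfl, by simp]

theorem sv_insert (hs : Summable fun I => ‖f I‖) (hm : ∀ I J, f (I * J) = f I * f J)
    {S : Finset (HeightOneSpectrum (𝓞 E))} {P : HeightOneSpectrum (𝓞 E)} (hP : P ∉ S) :
    ∑' I, sv f (insert P S) I = (1 - f P.asIdeal) * ∑' I, sv f S I := by
  have hS : ∀ S, Summable (sv f S) := fun S =>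
    Summable.of_norm_bounded hs (norm_sv S)
  have hi : Function.Injective fun J : Ideal (𝓞 E) => P.asIdeal * J :=
    mul_right_injective₀ P.ne_bot
  have h1 : ∑' J, (sv f S (P.asIdeal * J) - sv f (insert P S) (P.asIdeal * J)) =
      ∑' I, (sv f S I - sv f (insert P S) I) := by
    refine hi.tsum_eq (f := fun I => sv f S I - sv f (insert P S) I) fun I hI => ?_
    by_contra hc
    refine hI ?_
    have : ¬ P.asIdeal ∣ I := fun ⟨J, hJ⟩ => hc ⟨J, hJ.symm⟩
    simp [sv, this]
  have h2 : ∀ J, sv f S (P.asIdeal * J) - sv f (insert P S) (P.asIdeal * J) =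
      f P.asIdeal * sv f S J := fun J => by
    have e : (∀ Q ∈ S, ¬ Q.asIdeal ∣ P.asIdeal * J) ↔ ∀ Q ∈ S, ¬ Q.asIdeal ∣ J :=
      forall₂_congr fun Q hQ => not_congr ⟨fun h => (Q.prime.dvd_or_dvd h).resolve_left
        fun g => hP (by
          have : P = Q := HeightOneSpectrum.ext
            (P.isMaximal.eq_of_le Q.isPrime.ne_top (Ideal.le_of_dvd g))
          rwa [this]), fun h => h.mul_left _⟩
    have e' : sv f (insert P S) (P.asIdeal * J) = 0 :=
      if_neg fun h => h P (Finset.mem_insert_self _ _) (dvd_mul_right _ _)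
    rw [e', sub_zero]
    unfold sv
    rw [hm]
    by_cases h : ∀ Q ∈ S, ¬ Q.asIdeal ∣ J
    · rw [if_pos h, if_pos (e.mpr h)]
    · rw [if_neg h, if_neg (mt e.mp h), mul_zero]
  rw [tsum_congr h2, tsum_mul_left, (hS _).tsum_sub (hS _)] at h1
  linear_combination h1

theorem sv_eq (hs : Summable fun I => ‖f I‖) (hm : ∀ I J, f (I * J) = f I * f J)
    (S : Finset (HeightOneSpectrum (𝓞 E))) :
    ∑' I, sv f S I = (∏ P ∈ S, (1 - f P.asIdeal)) * ∑' I, f I := by
  induction S using Finset.induction_on with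
  | empty => simp [sv]
  | insert P S hP ih => rw [sv_insert hs hm hP, ih, Finset.prod_insert hP, mul_assoc]

theorem tendsto_sv (hs : Summable fun I => ‖f I‖) (h0 : f ⊥ = 0) (h1 : f ⊤ = 1) :
    Tendsto (fun S => ∑' I, sv f S I) atTop (𝓝 1) := by
  have h := tendsto_tsum_of_dominated_convergence (𝓕 := atTop) (f := sv f)
    (g := fun I => if I = ⊤ then (1 : ℂ) else 0) hs (fun I => ?_)
    (Eventually.of_forall fun S => norm_sv S)
  · rwa [tsum_ite_eq] at h
  · split_ifs with hI
    · refine tendsto_const_nhds.congr fun S => ?_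
      rw [hI, sv, if_pos fun P _ h => P.isPrime.ne_top (top_le_iff.mp (Ideal.le_of_dvd h)), h1]
    · by_cases hb : I = ⊥
      · refine tendsto_const_nhds.congr fun S => ?_
        rw [hb, sv, h0, ite_self]
      · obtain ⟨M, hM, hle⟩ := Ideal.exists_le_maximal I hI
        let P : HeightOneSpectrum (𝓞 E) :=
          ⟨M, hM.isPrime, fun e => hb (le_bot_iff.mp (hle.trans e.le))⟩
        refine tendsto_const_nhds.congr' ?_
        filter_upwards [eventually_ge_atTop {P}] with S hS
        exact (if_neg fun h => h P (hS (Finset.mem_singleton_self P))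
          (Ideal.dvd_iff_le.mpr hle)).symm

theorem euler (hs : Summable fun I => ‖f I‖) (hm : ∀ I J, f (I * J) = f I * f J)
    (h0 : f ⊥ = 0) (h1 : f ⊤ = 1) (hp : ∀ P : HeightOneSpectrum (𝓞 E), 1 - f P.asIdeal ≠ 0) :
    ∑' I, f I = Complex.exp (∑' P : HeightOneSpectrum (𝓞 E), -Complex.log (1 - f P.asIdeal)) := by
  have hP : Summable fun P : HeightOneSpectrum (𝓞 E) => f P.asIdeal :=
    hs.of_norm.comp_injective fun P Q h => HeightOneSpectrum.ext h
  have H := hP.clog_one_sub.hasSum.cexp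
  have e : (Complex.exp ∘ fun P : HeightOneSpectrum (𝓞 E) => Complex.log (1 - f P.asIdeal)) =
      fun P => 1 - f P.asIdeal := funext fun P => Complex.exp_log (hp P)
  rw [e] at H
  have H' : Tendsto (fun S : Finset (HeightOneSpectrum (𝓞 E)) => ∏ P ∈ S, (1 - f P.asIdeal))
    atTop _ := H
  have h2 := tendsto_nhds_unique (H'.mul_const (∑' I, f I))
    ((tendsto_sv hs h0 h1).congr fun S => sv_eq hs hm S)
  rw [tsum_neg, Complex.exp_neg]
  exact eq_inv_of_mul_eq_one_right h2

end EP

theorem p_eP : S_EP := by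
  intro E _ _ χ s hχ hs
  have hs0 : -s ≠ 0 := neg_ne_zero.mpr fun e => by rw [e, Complex.zero_re] at hs; linarith
  let f : Ideal (𝓞 E) → ℂ := fun I => χ I * (Ideal.absNorm I : ℂ) ^ (-s)
  have hn : ∀ I, ‖f I‖ ≤ (Ideal.absNorm I : ℝ) ^ (-s.re) := fun I => by
    rw [norm_mul, Complex.norm_natCast_cpow_of_re_ne_zero _ (by
      rw [Complex.neg_re]; linarith), Complex.neg_re]
    exact mul_le_of_le_one_left (Real.rpow_nonneg (Nat.cast_nonneg _) _) (hχ I)
  have h1 : Summable fun I => ‖f I‖ :=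
    (EP.summable_norm hs).of_nonneg_of_le (fun _ => norm_nonneg _) hn
  have h2 : HasSum (LSeries.term (lam χ) s) (∑' I, f I) := by
    have h := h1.of_norm.hasSum.tsum_fiberwise fun I => Ideal.absNorm I
    suffices e : (fun m : ℕ => ∑' I : (fun I : Ideal (𝓞 E) => Ideal.absNorm I) ⁻¹' {m}, f I) =
        LSeries.term (lam χ) s from e ▸ h
    funext m
    have hf : Finite ((fun I : Ideal (𝓞 E) => Ideal.absNorm I) ⁻¹' {m}) :=
      Ideal.finite_setOfPred_absNorm_eq m
    have : ∀ I : (fun I : Ideal (𝓞 E) => Ideal.absNorm I) ⁻¹' {m},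
        f I = χ I * (m : ℂ) ^ (-s) := fun I => by
      have : Ideal.absNorm I.1 = m := I.2
      simp only [f, this]
    rw [tsum_congr this, tsum_mul_right, tsum_eq_finsum (Set.toFinite _),
      finsum_set_coe_eq_finsum_mem (f := fun I => χ I), LSeries.term_def]
    split_ifs with hm
    · rw [hm, Nat.cast_zero, Complex.zero_cpow hs0, mul_zero]
    · rw [Complex.cpow_neg, div_eq_mul_inv]
      rfl
  refine ⟨h2.summable, (EP.summable_norm hs).comp_injective
    fun P Q h => HeightOneSpectrum.ext h, h2.tsum_eq.trans (EP.euler h1 (fun I J => ?_) ?_ ?_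
      fun P h => ?_)⟩
  · simp only [f, map_mul, Nat.cast_mul, Complex.natCast_mul_natCast_cpow]
    ring
  · simp [f, Complex.zero_cpow hs0]
  · simp [f, ← Ideal.one_eq_top]
  · have h3 := hn P.asIdeal
    rw [← sub_eq_zero.mp h, norm_one] at h3
    have h4 : (1 : ℝ) < Ideal.absNorm P.asIdeal := by
      exact_mod_cast NumberField.HeightOneSpectrum.one_lt_absNorm P
    exact absurd h3 (not_le.mpr (Real.rpow_lt_one_of_one_lt_of_neg h4 (by linarith)))

end Pool.Agent.P.MP_b8021b_nt.VC
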