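import Pool.Agent.P.MP_b8021b_nt.VC.StS

/-! Irreducibility from a Newton polygon with one segment (Gauss norm argument). -/

namespace Pool.Agent.P.MP_b8021b_nt.VC

open Polynomial
open scoped WithZero NNReal

namespace Eis

/-- the real size of a value -/
noncomputable def sz : ℤᵐ⁰ →*₀ ℝ :=
  NNReal.toRealHom.toMonoidWithZeroHom.comp
    (WithZeroMulInt.toNNReal (e := 2) (by norm_num : (1 : ℝ≥0) < 2).ne_zero)

theorem sz_mono : StrictMono sz := fun _ _ h =>
  NNReal.coe_lt_coe.mpr (WithZeroMulInt.toNNReal_strictMono (by norm_num : (1 : ℝ≥0) < 2) h)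

theorem sz_nonneg (x : ℤᵐ⁰) : 0 ≤ sz x := by
  have := sz_mono.monotone (zero_le (a := x))
  rwa [map_zero] at this

variable {K : Type} [Field K]

theorem sz_add (v : Valuation K ℤᵐ⁰) (a b : K) : sz (v (a + b)) ≤ max (sz (v a)) (sz (v b)) := by
  rw [← sz_mono.monotone.map_max]
  exact sz_mono.monotone (v.map_add a b)

/-- the absolute value of a valuation -/
noncomputable def ab (v : Valuation K ℤᵐ⁰) : AbsoluteValue K ℝ where
  toFun a := sz (v a)
  map_mul' a b := by rw [map_mul, map_mul]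
  nonneg' a := sz_nonneg _
  eq_zero' a := by simp
  add_le' a b := (sz_add v a b).trans
    (max_le (le_add_of_nonneg_right (sz_nonneg _)) (le_add_of_nonneg_left (sz_nonneg _)))

theorem ab_apply (v : Valuation K ℤᵐ⁰) (a : K) : ab v a = sz (v a) := rfl

theorem lead_le (w : AbsoluteValue K ℝ) {c : ℝ} (hc : 0 < c) {A : K[X]} (hA : A.Monic) :
    c ^ A.natDegree ≤ A.gaussNorm w c := by
  have := A.le_gaussNorm w hc.le A.natDegree
  rwa [hA.coeff_natDegree, map_one, one_mul] at this

theorem const_le (w : AbsoluteValue K ℝ) {c : ℝ} (hc : 0 < c) (A : K[X]) :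
    w (A.coeff 0) ≤ A.gaussNorm w c := by
  simpa using A.le_gaussNorm w hc.le 0

theorem const_eq {w : AbsoluteValue K ℝ} (hw : IsNonarchimedean w) {c : ℝ} (hc : 0 < c)
    {A B : K[X]} (hA : A.Monic) (hB : B.Monic)
    (h1 : (A * B).gaussNorm w c ≤ c ^ (A.natDegree + B.natDegree))
    (h0 : w ((A * B).coeff 0) = c ^ (A.natDegree + B.natDegree)) :
    w (A.coeff 0) = c ^ A.natDegree := by
  rw [gaussNorm_mul hw hc, pow_add] at h1
  rw [mul_coeff_zero, map_mul, pow_add] at h0
  have a1 := lead_le w hc hA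
  have b1 := lead_le w hc hB
  have a2 := const_le w hc A
  have b2 := const_le w hc B
  have pa := pow_pos hc A.natDegree
  have pb := pow_pos hc B.natDegree
  have a3 : A.gaussNorm w c ≤ c ^ A.natDegree :=
    le_of_mul_le_mul_right ((mul_le_mul_of_nonneg_left b1 (pa.le.trans a1)).trans h1) pb
  have b3 : B.gaussNorm w c ≤ c ^ B.natDegree :=
    le_of_mul_le_mul_left ((mul_le_mul_of_nonneg_right a1 (pb.le.trans b1)).trans h1) pa
  refine le_antisymm (a2.trans a3) (le_of_mul_le_mul_right ?_ pb)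
  rw [← h0]
  exact mul_le_mul_of_nonneg_left (b2.trans b3) (w.nonneg _)

end Eis

open Eis in
theorem p_eis : S_Eis := by
  rintro K _ v P m hP hd ⟨h0, hco, hl⟩
  have hd0 : P.natDegree ≠ 0 := by omega
  have hg : 0 < sz (WithZero.exp (-m)) := by
    have := sz_mono (WithZero.exp_pos (a := -m))
    rwa [map_zero] at this
  obtain ⟨c, hc, hcd⟩ : ∃ c : ℝ, 0 < c ∧ c ^ P.natDegree = sz (WithZero.exp (-m)) :=
    ⟨_, Real.rpow_pos_of_pos hg _, Real.rpow_inv_natCast_pow hg.le hd0⟩
  have hw : IsNonarchimedean (ab v) := sz_add v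
  have hG : P.gaussNorm (ab v) c ≤ c ^ P.natDegree := by
    obtain ⟨i, hi⟩ := P.exists_eq_gaussNorm (ab v) c
    rw [hi]
    rcases lt_trichotomy i P.natDegree with h | h | h
    · have h1 := sz_mono.monotone (hl i h)
      rw [map_pow, map_pow, ← hcd, ← pow_mul, mul_comm, pow_mul] at h1
      have h2 := (pow_le_pow_iff_left₀ (sz_nonneg _) (pow_pos hc _).le hd0).mp h1
      calc ab v (P.coeff i) * c ^ i ≤ c ^ (P.natDegree - i) * c ^ i :=
            mul_le_mul_of_nonneg_right h2 (pow_pos hc _).le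
        _ = c ^ P.natDegree := by rw [← pow_add, Nat.sub_add_cancel h.le]
    · rw [h, hP.coeff_natDegree, map_one, one_mul]
    · rw [coeff_eq_zero_of_natDegree_lt h, map_zero, zero_mul]
      exact (pow_pos hc _).le
  have h1 : P ≠ 1 := by
    rintro rfl
    simp at hd0
  rw [irreducible_of_monic hP h1]
  rintro A B hA hB rfl
  have hdeg := hA.natDegree_mul hB
  have h2 := const_eq hw hc hA hB (hdeg ▸ hG) (by rw [← hdeg, hcd, ab_apply, h0])
  have h3 : v (A.coeff 0) ^ (A * B).natDegree = WithZero.exp (-m) ^ A.natDegree := by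
    apply sz_mono.injective
    rw [map_pow, map_pow, ← hcd, ← ab_apply, h2, ← pow_mul, ← pow_mul, mul_comm]
  have h4 : v (A.coeff 0) ≠ 0 := by
    intro h
    rw [h, zero_pow hd0] at h3
    exact pow_ne_zero _ WithZero.exp_ne_zero h3.symm
  rw [← WithZero.exp_log h4, ← WithZero.exp_nsmul, ← WithZero.exp_nsmul, WithZero.exp_inj,
    nsmul_eq_mul, nsmul_eq_mul] at h3
  have h5 : (((A * B).natDegree : ℕ) : ℤ) ∣ (A.natDegree : ℤ) := by
    refine hco.symm.dvd_of_dvd_mul_right ⟨-WithZero.log (v (A.coeff 0)), ?_⟩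
    linear_combination h3
  rw [Int.natCast_dvd_natCast, hdeg] at h5
  rcases Nat.eq_zero_or_pos A.natDegree with h | h
  · exact Or.inl (hA.natDegree_eq_zero.mp h)
  · have := Nat.le_of_dvd h h5
    exact Or.inr (hB.natDegree_eq_zero.mp (by omega))

end Pool.Agent.P.MP_b8021b_nt.VC
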