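import Pool.Agent.P.MP_b8021b_nt.VC.StG
import Pool.Agent.P.MP_b8021b_nt.VE.PEqP

/-! Orthogonality of the ray class characters of a given type. -/

namespace Pool.Agent.P.MP_b8021b_nt.VC

open NumberField Finset Pool.Agent.P.MP_b8021b_nt.VE Pool.Agent.P.MP_b8021b_nt.VE.EqP
open scoped Classical ComplexConjugate nonZeroDivisors

namespace Eq2

section Vec

variable {ι : Type} [Fintype ι]

lemma ty_mul (κ : ι → ℤ) (τ : ι → ℝ) {z w : ι → ℂ} (hz : ∀ φ, z φ ≠ 0) (hw : ∀ φ, w φ ≠ 0) :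
    ty κ τ (z * w) = ty κ τ z * ty κ τ w := by
  unfold ty
  rw [← Finset.prod_mul_distrib]
  refine Finset.prod_congr rfl fun φ _ => ?_
  rw [Pi.mul_apply, dir_mul, mul_zpow, norm_mul,
    Real.log_mul (norm_ne_zero_iff.mpr (hz φ)) (norm_ne_zero_iff.mpr (hw φ)), mul_add,
    Complex.ofReal_add, mul_add, Complex.exp_add]
  ring

lemma norm_ty (κ : ι → ℤ) (τ : ι → ℝ) {z : ι → ℂ} (hz : ∀ φ, z φ ≠ 0) : ‖ty κ τ z‖ = 1 := by
  unfold ty
  rw [norm_prod]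
  refine Finset.prod_eq_one fun φ _ => ?_
  rw [norm_mul, norm_zpow, norm_dir (hz φ), one_zpow, one_mul, mul_comm,
    Complex.norm_exp_ofReal_mul_I]

lemma ty_ne (κ : ι → ℤ) (τ : ι → ℝ) {z : ι → ℂ} (hz : ∀ φ, z φ ≠ 0) : ty κ τ z ≠ 0 := by
  intro h
  have := norm_ty κ τ hz
  rw [h, norm_zero] at this
  exact zero_ne_one this

lemma ty_one (κ : ι → ℤ) (τ : ι → ℝ) : ty κ τ (1 : ι → ℂ) = 1 := by
  unfold ty
  simp [dir_one]

lemma ty_zero (z : ι → ℂ) : ty (0 : ι → ℤ) (0 : ι → ℝ) z = 1 := by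
  unfold ty
  simp

end Vec

/-- extension of a homomorphism that kills the kernel -/
lemma ext_hom' {A B : Type} [CommGroup A] [CommGroup B] (f : A →* B) (g : A →* ℂˣ)
    (h : f.ker ≤ g.ker) : ∃ e : B →* ℂˣ, ∀ a, e (f a) = g a := by
  have hs := f.rangeRestrict_surjective
  have hk : f.rangeRestrict.ker ≤ g.ker := by rwa [MonoidHom.ker_rangeRestrict]
  obtain ⟨e, he⟩ := ext_hom f.range.subtype f.range.subtype_injective
    (f.rangeRestrict.liftOfRightInverse (Function.surjInv hs) (Function.rightInverse_surjInv hs)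
      ⟨g, hk⟩)
  refine ⟨e, fun a => ?_⟩
  have := he (f.rangeRestrict a)
  rwa [MonoidHom.liftOfRightInverse_comp_apply] at this

variable {k : Type} [Field k] [NumberField k] [Algebra k ℂ] {E : Type} [Field E] [NumberField E]
  [Algebra k E] {n : ℕ}

lemma not_dvd (hn : 2 ≤ n) : ¬ (n : 𝓞 E) ∣ 1 := by
  intro h
  have h1 : IsUnit (algebraMap ℤ (𝓞 E) (n : ℤ)) := by simpa using isUnit_of_dvd_one h
  have h2 : IsUnit (n : ℤ) := isUnit_of_map_unit _ _ h1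
  rw [Int.isUnit_iff] at h2
  omega

lemma ne_zero' (hn : 2 ≤ n) {α : 𝓞 E} (h : (n : 𝓞 E) ∣ α - 1) : α ≠ 0 := by
  rintro rfl
  exact not_dvd hn (by simpa using h)

lemma ne_bot' (hn : 2 ≤ n) {I : Ideal (𝓞 E)} (h : Cop n I) : I ≠ ⊥ := by
  obtain ⟨β, hβ, h1⟩ := cop_iff.mp h
  rintro rfl
  exact ne_zero' hn h1 (Ideal.mem_bot.mp hβ)

omit [NumberField k] [NumberField E] in
lemma emb_mul (a b : 𝓞 E) : emb k (a * b) = emb k a * emb k b := by
  funext φ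
  simp [emb]

omit [NumberField k] [NumberField E] in
lemma emb_ne {a : 𝓞 E} (ha : a ≠ 0) (φ : Emb k E) : emb k a φ ≠ 0 := by
  unfold emb
  exact (map_ne_zero φ).mpr (by exact_mod_cast ha)

omit [NumberField k] [NumberField E] in
lemma tym (κ : Emb k E → ℤ) (τ : Emb k E → ℝ) [Fintype (Emb k E)] {a b : 𝓞 E} (ha : a ≠ 0)
    (hb : b ≠ 0) : ty κ τ (emb k (a * b)) = ty κ τ (emb k a) * ty κ τ (emb k b) := by
  rw [emb_mul, ty_mul κ τ (emb_ne ha) (emb_ne hb)]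

/-- the type as a character of the multiplicative group -/
noncomputable def ang (κ : Emb k E → ℤ) (τ : Emb k E → ℝ) : Eˣ →* ℂˣ where
  toFun u := Units.mk0 (ty κ τ fun φ : Emb k E => φ u)
    (ty_ne κ τ fun φ => (map_ne_zero φ).mpr u.ne_zero)
  map_one' := by
    apply Units.ext
    simp only [Units.val_mk0, Units.val_one, map_one]
    exact ty_one κ τ
  map_mul' u v := by
    apply Units.ext
    simp only [Units.val_mk0, Units.val_mul, map_mul]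
    exact ty_mul κ τ (fun φ => (map_ne_zero φ).mpr u.ne_zero)
      fun φ => (map_ne_zero φ).mpr v.ne_zero

/-- there is a character of every type that is trivial on the units congruent to one -/
lemma exists_char (hn : 2 ≤ n) {κ : Emb k E → ℤ} {τ : Emb k E → ℝ} (hτ : ∑ φ, τ φ = 0)
    (hT : ∀ η : (𝓞 E)ˣ, (n : 𝓞 E) ∣ (η : 𝓞 E) - 1 → ty κ τ (emb k (η : 𝓞 E)) = 1) :
    ∃ χ : Ideal (𝓞 E) →* ℂ, IsH k n κ τ χ := by
  have hker : ((toPrincipalIdeal (𝓞 E) E).comp (U1 E n).subtype).ker ≤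
      ((ang κ τ).comp (U1 E n).subtype).ker := by
    rintro ⟨u, a, b, ha, hb, e⟩ hu
    rw [MonoidHom.mem_ker] at hu ⊢
    have h1 : FractionalIdeal.spanSingleton (𝓞 E)⁰ (u : E) = 1 := by
      have := congrArg Units.val hu
      simpa [coe_toPrincipalIdeal] using this
    have h2 : Ideal.span {b} = Ideal.span {a} := by
      apply FractionalIdeal.coeIdeal_injective (K := E)
      simp only [FractionalIdeal.coeIdeal_span_singleton]
      have ea : algebraMap (𝓞 E) E a = (u : E) * algebraMap (𝓞 E) E b := e.symm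
      rw [ea, ← FractionalIdeal.spanSingleton_mul_spanSingleton, h1, one_mul]
    obtain ⟨ε, hε⟩ := Ideal.span_singleton_eq_span_singleton.mp h2
    have h3 : (n : 𝓞 E) ∣ (ε : 𝓞 E) - 1 := by
      have : (ε : 𝓞 E) - 1 = (a - 1) - (b - 1) * ε := by rw [← hε]; ring
      rw [this]
      exact ha.sub (hb.mul_right _)
    have hb0 : (b : E) ≠ 0 := by
      have := ne_zero' hn hb
      exact_mod_cast this
    have h4 : (u : E) = ((ε : 𝓞 E) : E) := by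
      apply mul_right_cancel₀ hb0
      rw [e, ← hε, mul_comm]
      exact map_mul (algebraMap (𝓞 E) E) _ _
    apply Units.ext
    change ty κ τ (fun φ : Emb k E => φ (u : E)) = 1
    rw [h4]
    exact hT ε h3
  obtain ⟨h, hh⟩ := ext_hom' _ _ hker
  have hne : ∀ I : Ideal (𝓞 E), Cop n I → (I : FractionalIdeal (𝓞 E)⁰ E) ≠ 0 := fun I hI =>
    FractionalIdeal.coeIdeal_ne_zero.mpr (ne_bot' hn hI)
  let χ : Ideal (𝓞 E) →* ℂ :=
    { toFun := fun I => if hI : Cop n I then dir (h (Units.mk0 _ (hne I hI)) : ℂˣ) else 0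
      map_one' := by
        rw [dif_pos cop_top]
        have : Units.mk0 _ (hne 1 cop_top) = 1 := by
          apply Units.ext; simp
        rw [this, map_one, Units.val_one, dir_one]
      map_mul' := by
        intro I J
        by_cases hI : Cop n I
        · by_cases hJ : Cop n J
          · rw [dif_pos (cop_mul.mpr ⟨hI, hJ⟩), dif_pos hI, dif_pos hJ, ← dir_mul,
              ← Units.val_mul, ← map_mul]
            have : Units.mk0 _ (hne (I * J) (cop_mul.mpr ⟨hI, hJ⟩)) =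
                Units.mk0 _ (hne I hI) * Units.mk0 _ (hne J hJ) := by
              apply Units.ext; simp [FractionalIdeal.coeIdeal_mul]
            rw [this]
          · rw [dif_neg hJ, dif_neg fun h => hJ (cop_mul.mp h).2, mul_zero]
        · rw [dif_neg hI, dif_neg fun h => hI (cop_mul.mp h).1, zero_mul] }
  refine ⟨χ, ⟨fun I hI => ?_, fun I hI => ?_⟩, hτ, fun α hα => ?_⟩
  · show ‖(if hI : Cop n I then dir (h (Units.mk0 _ (hne I hI)) : ℂˣ) else 0)‖ = 1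
    rw [dif_pos hI]; exact norm_dir (Units.ne_zero _)
  · show (if hI : Cop n I then dir (h (Units.mk0 _ (hne I hI)) : ℂˣ) else 0) = 0
    rw [dif_neg hI]
  · show (if hI : Cop n (Ideal.span {α}) then dir (h (Units.mk0 _ (hne _ hI)) : ℂˣ) else 0) = _
    rw [dif_pos (cop_span hα)]
    have hα0 : (α : E) ≠ 0 := by
      have := ne_zero' hn hα
      exact_mod_cast this
    have hm : Units.mk0 (α : E) hα0 ∈ U1 E n := ⟨α, 1, hα, by simp, by simp⟩
    have e1 : Units.mk0 _ (hne _ (cop_span hα)) =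
        ((toPrincipalIdeal (𝓞 E) E).comp (U1 E n).subtype) ⟨_, hm⟩ := by
      apply Units.ext
      simp [coe_toPrincipalIdeal, FractionalIdeal.coeIdeal_span_singleton]
    rw [e1, hh]
    show dir (ty κ τ (emb k α)) = _
    exact dir_of_norm (norm_ty κ τ (emb_ne (ne_zero' hn hα)))

/-- the congruent generators form one orbit of the units congruent to one -/
lemma sum_orbit {𝔞 𝔟 : Ideal (𝓞 E)} {α₀ α : 𝓞 E} (ha : 𝔞 ≠ ⊥) (hc : Cop n 𝔟) (hα0 : α ≠ 0)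
    (h : Ideal.span {α} = 𝔞 * 𝔟) (hm : α - α₀ ∈ Ideal.span {(n : 𝓞 E)} * 𝔞) (f : 𝓞 E → ℂ) :
    ∑ᶠ β ∈ {β : 𝓞 E | Ideal.span {β} = 𝔞 * 𝔟 ∧ β - α₀ ∈ Ideal.span {(n : 𝓞 E)} * 𝔞}, f β =
      ∑ᶠ η ∈ {η : (𝓞 E)ˣ | (n : 𝓞 E) ∣ (η : 𝓞 E) - 1}, f (η * α) := by
  have hαa : α ∈ 𝔞 := by
    rw [← Ideal.dvd_span_singleton, h]; exact dvd_mul_right _ _
  symm
  refine finsum_mem_eq_of_bijOn (fun η : (𝓞 E)ˣ => (η : 𝓞 E) * α) ⟨?_, ?_, ?_⟩ fun _ _ => rfl
  · intro η hη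
    refine ⟨?_, ?_⟩
    · rw [← h]
      exact Ideal.span_singleton_mul_left_unit η.isUnit α
    · have : (η : 𝓞 E) * α - α₀ = (η - 1) * α + (α - α₀) := by ring
      rw [this]
      exact Ideal.add_mem _ (Ideal.mul_mem_mul (Ideal.mem_span_singleton.mpr hη) hαa) hm
  · intro η _ η' _ e
    exact Units.ext (mul_right_cancel₀ hα0 e)
  · rintro β ⟨h', hm'⟩
    obtain ⟨ε, hε⟩ := Ideal.span_singleton_eq_span_singleton.mp (h.trans h'.symm)
    have hd : β - α ∈ Ideal.span {(n : 𝓞 E)} * 𝔞 := by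
      have : β - α = (β - α₀) - (α - α₀) := by ring
      rw [this]; exact Ideal.sub_mem _ hm' hm
    have h1 : Ideal.span {(n : 𝓞 E)} * 𝔞 ∣ 𝔟 * Ideal.span {(ε : 𝓞 E) - 1} * 𝔞 := by
      have e : 𝔟 * Ideal.span {(ε : 𝓞 E) - 1} * 𝔞 = Ideal.span {β - α} := by
        have : β - α = α * (ε - 1) := by rw [← hε]; ring
        rw [this, ← Ideal.span_singleton_mul_span_singleton, h]; ring
      rw [e, Ideal.dvd_span_singleton]; exact hd
    have h2 := (mul_dvd_mul_iff_right ha).mp h1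
    have h3 := (IsCoprime.symm hc).dvd_of_dvd_mul_left h2
    rw [Ideal.dvd_span_singleton, Ideal.mem_span_singleton] at h3
    exact ⟨ε, h3, by rw [← hε]; exact mul_comm _ _⟩

omit [NumberField E] in
lemma char_ne {χ : Ideal (𝓞 E) →* ℂ} (hχ : IsChar n χ) {I : Ideal (𝓞 E)} (hI : Cop n I) :
    χ I ≠ 0 := by
  intro h
  have := hχ.norm_cop I hI
  rw [h, norm_zero] at this
  exact zero_ne_one this

end Eq2

open Eq2 in
theorem p_eq2 (hEmb : S_Emb) (hRep2 : S_Rep2) (hPart : S_Part) : S_Eq2 := by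
  intro k _ _ _ K E _ _ _ n κ τ h2 hτ
  obtain ⟨C, hE⟩ := hEmb k K (Module.finrank k E)
  obtain ⟨-, -, -, -, -, -, -, -, ⟨Q, hQ, hS⟩, -⟩ := hE E rfl
  obtain ⟨C', hR⟩ := hRep2 k K (Module.finrank k E)
  obtain ⟨hfin, hpos, -, ℛ, -, -, -, -, horth⟩ := hR E rfl Q n 1 hQ hS h2 le_rfl
  -- the left side
  have hL : ∀ (ℓ : ℝ) (U : UB k E n ℓ) (𝔞 𝔟₀ 𝔟 : Ideal (𝓞 E)) (α₀ α : 𝓞 E), U.Tr κ τ → 𝔞 ≠ ⊥ →
      Ideal.span {α₀} = 𝔞 * 𝔟₀ → Cop n 𝔟₀ → Ideal.span {α} = 𝔞 * 𝔟 →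
      α - α₀ ∈ Ideal.span {(n : 𝓞 E)} * 𝔞 → Cop n 𝔟 ∧ α ≠ 0 ∧
      ∑ᶠ α ∈ {α : 𝓞 E | Ideal.span {α} = 𝔞 * 𝔟 ∧ α - α₀ ∈ Ideal.span {(n : 𝓞 E)} * 𝔞},
          (U.β (emb k α) : ℂ) * ty κ τ (emb k α) =
        if ∀ η : (𝓞 E)ˣ, (n : 𝓞 E) ∣ (η : 𝓞 E) - 1 → ty κ τ (emb k (η : 𝓞 E)) = 1
          then U.j0 * ty κ τ (emb k α) else 0 := by
    intro ℓ U 𝔞 𝔟₀ 𝔟 α₀ α hU ha h0 hc0 hα hm
    obtain ⟨β₀, β, hb0, hb, -, e'⟩ := ray_of_gen ha h0 hc0 hα hm
    have hcb : Cop n 𝔟 := by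
      have : Cop n (𝔟 * Ideal.span {β₀}) := by
        rw [e']; exact cop_mul.mpr ⟨hc0, cop_span hb⟩
      exact (cop_mul.mp this).1
    have hα0 : α ≠ 0 := by
      intro h
      rw [h, Ideal.span_singleton_eq_bot.mpr rfl] at hα
      exact mul_ne_zero ha (ne_bot' h2 hcb) hα.symm
    refine ⟨hcb, hα0, ?_⟩
    rw [sum_orbit ha hcb hα0 hα hm fun α => (U.β (emb k α) : ℂ) * ty κ τ (emb k α)]
    exact (hPart k K E n ℓ U).2.2.2.2 κ τ α hα0 hU
  have hE0 : ∀ (S : Set (𝓞 E)) (f : 𝓞 E → ℂ), (¬ ∃ α, α ∈ S) → ∑ᶠ α ∈ S, f α = 0 := by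
    intro S f h
    rw [Set.eq_empty_of_forall_notMem (s := S) fun α hα => h ⟨α, hα⟩, finsum_mem_empty]
  by_cases hT : ∀ η : (𝓞 E)ˣ, (n : 𝓞 E) ∣ (η : 𝓞 E) - 1 → ty κ τ (emb k (η : 𝓞 E)) = 1
  · obtain ⟨χ₀, h₀⟩ := exists_char h2 hτ hT
    have hinj : Set.InjOn (fun ψ : Ideal (𝓞 E) →* ℂ => χ₀ * ψ) hfin.toFinset := by
      intro ψ hψ ψ' hψ' e
      have h1 : IsH k n 0 0 ψ := hfin.mem_toFinset.mp hψ
      have h2 : IsH k n 0 0 ψ' := hfin.mem_toFinset.mp hψ'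
      apply MonoidHom.ext
      intro I
      by_cases hI : Cop n I
      · exact mul_left_cancel₀ (char_ne h₀.toIsChar hI) (DFunLike.congr_fun e I)
      · rw [h1.zero I hI, h2.zero I hI]
    refine ⟨hfin.toFinset.image fun ψ => χ₀ * ψ, fun χ => ⟨fun hm => ?_, fun hχ => ?_⟩, ?_, ?_⟩
    · obtain ⟨ψ, hψ, rfl⟩ := Finset.mem_image.mp hm
      have h1 : IsH k n 0 0 ψ := hfin.mem_toFinset.mp hψ
      refine ⟨⟨fun I hI => ?_, fun I hI => ?_⟩, hτ, fun α hα => ?_⟩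
      · rw [MonoidHom.mul_apply, norm_mul, h₀.norm_cop I hI, h1.norm_cop I hI, mul_one]
      · rw [MonoidHom.mul_apply, h₀.zero I hI, zero_mul]
      · rw [MonoidHom.mul_apply, h₀.prin α hα, h1.prin α hα, ty_zero, mul_one]
    · refine Finset.mem_image.mpr ⟨cj χ₀ * χ, hfin.mem_toFinset.mpr ?_, ?_⟩
      · refine ⟨⟨fun I hI => ?_, fun I hI => ?_⟩, by simp, fun α hα => ?_⟩
        · change ‖conj (χ₀ I) * χ I‖ = 1
          rw [norm_mul, Complex.norm_conj, h₀.norm_cop I hI, hχ.norm_cop I hI, mul_one]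
        · change conj (χ₀ I) * χ I = 0
          rw [hχ.zero I hI, mul_zero]
        · change conj (χ₀ _) * χ _ = _
          rw [ty_zero, h₀.prin α hα, hχ.prin α hα, mul_comm]
          exact mul_conj_of_norm (norm_ty κ τ (emb_ne (ne_zero' h2 hα)))
      · apply MonoidHom.ext
        intro I
        change χ₀ I * (conj (χ₀ I) * χ I) = χ I
        by_cases hI : Cop n I
        · rw [← mul_assoc, mul_conj_of_norm (h₀.norm_cop I hI), one_mul]
        · rw [hχ.zero I hI, mul_zero, mul_zero]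
    · rw [hn, Set.ncard_eq_toFinset_card _ hfin]
      exact Finset.card_image_le
    · intro ℓ U 𝔞 𝔟₀ 𝔟 α₀ hU ha h0 hc0
      have hsum : ∑ χ ∈ hfin.toFinset.image (fun ψ => χ₀ * ψ), χ 𝔟 * conj (χ 𝔟₀) =
          χ₀ 𝔟 * conj (χ₀ 𝔟₀) * ∑ᶠ ψ ∈ {χ : Ideal (𝓞 E) →* ℂ | IsH k n 0 0 χ},
            ψ 𝔟 * conj (ψ 𝔟₀) := by
        rw [Finset.sum_image hinj, finsum_mem_eq_finite_toFinset_sum _ hfin, Finset.mul_sum]
        refine Finset.sum_congr rfl fun ψ _ => ?_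
        rw [MonoidHom.mul_apply, MonoidHom.mul_apply, map_mul]
        ring
      rw [hsum]
      by_cases hex : ∃ α, α ∈ {α : 𝓞 E | Ideal.span {α} = 𝔞 * 𝔟 ∧
          α - α₀ ∈ Ideal.span {(n : 𝓞 E)} * 𝔞}
      · obtain ⟨α, hα, hm⟩ := hex
        obtain ⟨hcb, hα0, hs⟩ := hL ℓ U 𝔞 𝔟₀ 𝔟 α₀ α hU ha h0 hc0 hα hm
        obtain ⟨β₀, β, hb0, hb, e, e'⟩ := ray_of_gen ha h0 hc0 hα hm
        have hray : Ray n 𝔟 𝔟₀ := ⟨β₀, β, ne_zero' h2 hb0, ne_zero' h2 hb, hb0, hb, e'⟩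
        have hα₀ : α₀ ≠ 0 := by
          intro h
          rw [h, Ideal.span_singleton_eq_bot.mpr rfl] at h0
          exact mul_ne_zero ha (ne_bot' h2 hc0) h0.symm
        rw [hs, if_pos hT, horth 𝔟 𝔟₀ hcb hc0, if_pos hray]
        have e1 : χ₀ 𝔟 * ty κ τ (emb k β₀) = χ₀ 𝔟₀ * ty κ τ (emb k β) := by
          rw [← h₀.prin β₀ hb0, ← h₀.prin β hb, ← map_mul, ← map_mul, e']
        have e2 : ty κ τ (emb k β₀) * ty κ τ (emb k α) =
            ty κ τ (emb k β) * ty κ τ (emb k α₀) := by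
          rw [← tym κ τ (ne_zero' h2 hb0) hα0, ← tym κ τ (ne_zero' h2 hb) hα₀, e]
        have e4 := mul_conj_of_norm (h₀.norm_cop _ hc0)
        have hB : ty κ τ (emb k β₀) ≠ 0 := ty_ne κ τ (emb_ne (ne_zero' h2 hb0))
        have e5 : ty κ τ (emb k α) = ty κ τ (emb k α₀) * (χ₀ 𝔟 * conj (χ₀ 𝔟₀)) := by
          apply mul_left_cancel₀ hB
          linear_combination e2 - ty κ τ (emb k α₀) * conj (χ₀ 𝔟₀) * e1 -
            ty κ τ (emb k β) * ty κ τ (emb k α₀) * e4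
        have hh : (hn k E n : ℂ) ≠ 0 := by
          have : hn k E n ≠ 0 := by omega
          exact_mod_cast this
        rw [e5, UB.ρ]
        push_cast
        field_simp
      · rw [hE0 _ _ hex]
        by_cases hcb : Cop n 𝔟
        · rw [horth 𝔟 𝔟₀ hcb hc0, if_neg fun hr => hex (gen_of_ray h0 hr), mul_zero, mul_zero]
        · rw [h₀.zero _ hcb, zero_mul, zero_mul, mul_zero]
  · refine ⟨∅, fun χ => ⟨fun h => absurd h (Finset.notMem_empty _), fun hχ => ?_⟩,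
      Nat.zero_le _, ?_⟩
    · refine absurd (fun η hη => ?_) hT
      rw [← hχ.prin η hη, Ideal.span_singleton_eq_top.mpr η.isUnit, ← Ideal.one_eq_top, map_one]
    · intro ℓ U 𝔞 𝔟₀ 𝔟 α₀ hU ha h0 hc0
      rw [Finset.sum_empty, mul_zero]
      by_cases hex : ∃ α, α ∈ {α : 𝓞 E | Ideal.span {α} = 𝔞 * 𝔟 ∧
          α - α₀ ∈ Ideal.span {(n : 𝓞 E)} * 𝔞}
      · obtain ⟨α, hα, hm⟩ := hex
        rw [(hL ℓ U 𝔞 𝔟₀ 𝔟 α₀ α hU ha h0 hc0 hα hm).2.2, if_neg hT]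
      · exact hE0 _ _ hex

end Pool.Agent.P.MP_b8021b_nt.VC
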