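import Pool.Agent.P.MP_b8021b_nt.VC.StT
import Pool.Agent.P.MP_b8021b_nt.VC.StG
import Pool.Agent.P.MP_b8021b_nt.VC.BasicN

/-! The error term of one field. -/

namespace Pool.Agent.P.MP_b8021b_nt.VC

open NumberField Finset Pool.Agent.P.MP_b8021b_nt.VE
open scoped Classical

namespace ErrP

/-- the number of ideals of a given prime norm -/
theorem card_le (L : Type) [Field L] [NumberField L] {q : ℕ} (hq : q.Prime) :
    (finite_absNorm (E := L) q).toFinset.card ≤ Module.finrank ℚ L := by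
  set S := (finite_absNorm (E := L) q).toFinset with hS
  have hn : ∀ I ∈ S, Ideal.absNorm I = q := fun I hI =>
    (finite_absNorm (E := L) q).mem_toFinset.1 hI
  have hp : ∀ I ∈ S, Prime I := fun I hI => by
    have h1 : I.IsPrime := Ideal.isPrime_of_irreducible_absNorm (by rw [hn I hI]; exact hq)
    refine Ideal.prime_of_isPrime (fun h => hq.ne_zero ?_) h1
    rw [← hn I hI, h, Ideal.absNorm_bot]
  have h1 : ∏ I ∈ S, I ∣ Ideal.span {(q : 𝓞 L)} :=
    prod_primes_dvd _ hp fun I hI => Ideal.dvd_span_singleton.2 (hn I hI ▸ Ideal.absNorm_mem I)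
  have h2 := map_dvd Ideal.absNorm h1
  rw [map_prod, prod_congr rfl hn, prod_const, Ideal.absNorm_span_singleton,
    ← map_natCast (algebraMap ℤ (𝓞 L)), Algebra.norm_algebraMap, Int.natAbs_pow,
    Int.natAbs_natCast, RingOfIntegers.rank] at h2
  exact (Nat.pow_dvd_pow_iff_le_right hq.one_lt).1 h2

theorem lam_diff (L : Type) [Field L] [NumberField L] {n q : ℕ} (hn : n ≠ 0) (hq : q.Prime) :
    ‖lam (triv L n) q - lam (fun _ : Ideal (𝓞 L) => 1) q‖ ≤
      if q ∈ n.primeFactors then (Module.finrank ℚ L : ℝ) else 0 := by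
  split_ifs with h
  · rw [lam_eq_zero isChar_triv fun c =>
      hq.coprime_iff_not_dvd.1 c (Nat.dvd_of_mem_primeFactors h), zero_sub, norm_neg, lam_eq_sum,
      sum_const, nsmul_eq_mul, mul_one, Complex.norm_natCast]
    exact_mod_cast card_le L hq
  · have c : q.Coprime n := hq.coprime_iff_not_dvd.2 fun d => h (Nat.mem_primeFactors.2 ⟨hq, d, hn⟩)
    rw [lam_congr (χ' := fun _ => 1) fun I hI => triv_cop (cop_iff_coprime.2 (hI ▸ c)), sub_self,
      norm_zero]

theorem pow_le {a b v : ℝ} (ha : 0 ≤ a) (hb : 0 ≤ b) (hv : 0 ≤ v) (h : a ≤ b + v) (u : ℕ) :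
    a ^ u ≤ 2 ^ u * b ^ u + 2 ^ u * v ^ u := by
  have h1 : a ^ u ≤ (2 * max b v) ^ u :=
    pow_le_pow_left₀ ha (by linarith [le_max_left b v, le_max_right b v]) u
  rw [mul_pow] at h1
  rcases le_total b v with h2 | h2
  · rw [max_eq_right h2] at h1
    exact h1.trans (le_add_of_nonneg_left (by positivity))
  · rw [max_eq_left h2] at h1
    exact h1.trans (le_add_of_nonneg_right (by positivity))

/-- comparison of two sums along an injective relation -/
theorem sum_le {A B : Type} [Nonempty B] (X : Finset A) (Y : Finset B) (f : A → ℝ) (g : B → ℝ)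
    (r : A → B → Prop) {v : ℝ} (hv : 0 ≤ v) (hf : ∀ a, 0 ≤ f a) (hg : ∀ b, 0 ≤ g b)
    (hr : ∀ a ∈ X, ∀ a' ∈ X, ∀ b, r a b → r a' b → a = a')
    (h : ∀ a ∈ X, v < f a → ∃ b ∈ Y, r a b ∧ f a ≤ g b + v) (u : ℕ) :
    ∑ a ∈ X, f a ^ u ≤ 2 ^ u * ∑ b ∈ Y, g b ^ u + 2 ^ u * (X.card * v ^ u) := by
  choose! φ hφ using h
  have h1 : ∀ a ∈ X, f a ^ u ≤ 2 ^ u * (if v < f a then g (φ a) ^ u else 0) + 2 ^ u * v ^ u :=
    fun a ha => by
    split_ifs with h2
    · exact pow_le (hf a) (hg _) hv (hφ a ha h2).2.2 u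
    · rw [mul_zero, zero_add]
      exact (pow_le_pow_left₀ (hf a) (not_lt.1 h2) u).trans
        (le_mul_of_one_le_left (by positivity) (one_le_pow₀ one_le_two))
  have h2 : ∑ a ∈ X, (if v < f a then g (φ a) ^ u else 0) ≤ ∑ b ∈ Y, g b ^ u := by
    rw [← sum_filter, ← sum_image (f := fun b => g b ^ u) (g := φ) fun a ha a' ha' e =>
      hr a (mem_filter.1 ha).1 a' (mem_filter.1 ha').1 (φ a)
        (hφ a (mem_filter.1 ha).1 (mem_filter.1 ha).2).2.1
        (e ▸ (hφ a' (mem_filter.1 ha').1 (mem_filter.1 ha').2).2.1)]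
    refine sum_le_sum_of_subset_of_nonneg (fun b hb => ?_) fun b _ _ => pow_nonneg (hg b) u
    obtain ⟨a, ha, rfl⟩ := mem_image.1 hb
    exact (hφ a (mem_filter.1 ha).1 (mem_filter.1 ha).2).1
  refine (sum_le_sum h1).trans ?_
  rw [sum_add_distrib, ← mul_sum, ← mul_sum, sum_const, nsmul_eq_mul]
  gcongr

theorem fin_chs (hE : S_Emb) (hN : S_NumCh) {k : Type} [Field k] [NumberField k] [Algebra k ℂ]
    (K : BF k) (L : Type) [Field L] [NumberField L] [Algebra k L] {n : ℕ} (hn : 2 ≤ n)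
    (Kb Tb : ℝ) : (Chs k (E := L) n Kb Tb).Finite := by
  obtain ⟨C, hC⟩ := hE k K (Module.finrank k L)
  obtain ⟨Q, hQ, hs⟩ := (hC L rfl).2.2.2.2.2.2.2.2.1
  obtain ⟨C', hC'⟩ := hN k K (Module.finrank k L)
  refine (hC' L rfl Q (max Kb 1) (max Tb 1) n hQ hs hn (le_max_right _ _)
    (le_max_right _ _)).1.subset ?_
  rintro χ ⟨κ, τ, h1, h2, h3⟩
  exact ⟨κ, τ, fun φ => (h1 φ).trans_le (le_max_left _ _),
    fun φ => (h2 φ).trans (le_max_left _ _), h3⟩

end ErrP

theorem p_err (hE : S_Emb) (hN : S_NumCh) : S_Err := by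
  intro k _ _ _ K L _ _ _ ω ωk M n N u c y δ ϑ H ε hn hM hny hy hϑ hω hH hB h1 h2
  have hv : 0 ≤ y ^ (-δ) := (Real.rpow_pos_of_pos hy _).le
  simp only [Bad, not_exists, not_and, not_or, not_lt] at hB
  refine ⟨le_trans ?_ h1, fun i hi => le_trans ?_ h2⟩
  · have fL := ErrP.fin_chs hE hN K L hn ((N : ℝ) ^ 2) (y ^ c)
    have fk := ErrP.fin_chs hE hN K k (n := n ^ 2) (by nlinarith) ((N : ℝ) ^ 2) 0
    have fL' : {χ : Ideal (𝓞 L) →* ℂ | χ ∈ Chs k n ((N : ℝ) ^ 2) (y ^ c) ∧ ¬ IsTriv n χ}.Finite :=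
      fL.subset fun _ h => h.1
    have fk' : {χ : Ideal (𝓞 k) →* ℂ | χ ∈ Chs k (n ^ 2) ((N : ℝ) ^ 2) 0 ∧
      ¬ IsTriv (n ^ 2) χ}.Finite := fk.subset fun _ h => h.1
    have hc : (fL'.toFinset.card : ℝ) ≤ H := by
      refine le_trans ?_ hH
      rw [← Set.ncard_eq_toFinset_card _ fL']
      exact Nat.cast_le.2 (Set.ncard_le_ncard (fun _ h => h.1) fL)
    unfold Err
    rw [finsum_mem_eq_finite_toFinset_sum _ fL', finsum_mem_eq_finite_toFinset_sum _ fk', sum_comm,
      sum_comm (s := fk'.toFinset), mul_sum]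
    calc _ ≤ ∑ i ∈ range N, (2 ^ u * ∑ ξ ∈ fk'.toFinset, ‖Smw ωk y N i (lam ξ)‖ ^ u +
          2 ^ u * (H * (y ^ (-δ)) ^ u)) := by
          refine sum_le_sum fun i hi => ?_
          refine (ErrP.sum_le fL'.toFinset fk'.toFinset (fun χ => ‖Smw ω y N i (lam χ)‖)
            (fun ξ => ‖Smw ωk y N i (lam ξ)‖) (fun χ ξ => Ind ξ χ n) hv (fun _ => norm_nonneg _)
            (fun _ => norm_nonneg _) (fun χ h χ' h' ξ r r' => ?_) (fun χ h hl => ?_) u).trans ?_
          · obtain ⟨_, _, -, -, a⟩ := (fL'.mem_toFinset.1 h).1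
            obtain ⟨_, _, -, -, a'⟩ := (fL'.mem_toFinset.1 h').1
            exact char_ext a.toIsChar a'.toIsChar fun I hI => (r I hI).trans (r' I hI).symm
          · obtain ⟨h3, h4⟩ := fL'.mem_toFinset.1 h
            by_contra h5
            refine (hB i (mem_range.1 hi)).2 n χ (by omega) hM hny h3 hl fun ξ a b d => h5 ?_
            refine ⟨ξ, fk'.mem_toFinset.2 ⟨a, fun t => h4 fun I hI => ?_⟩, b, ?_⟩
            · rw [b I hI]
              exact t _ ((cop_pow_nat two_pos).2 (cop_rel.2 hI))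
            · linarith [norm_sub_norm_le (Smw ω y N i (lam χ)) (Smw ωk y N i (lam ξ))]
          · gcongr
      _ = _ := by
          rw [sum_add_distrib, sum_const, card_range, nsmul_eq_mul]
          ring
  · have h3 : Smw ω y N i (lam (triv L n)) - 1 =
        (Smw ω y N i (lam fun _ : Ideal (𝓞 L) => 1) - 1) + ∑ q ∈ strat y N i,
          (ω q : ℂ) * (lam (triv L n) q - lam (fun _ : Ideal (𝓞 L) => 1) q) := by
      simp only [Smw, mul_sub, sum_sub_distrib]
      ring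
    rw [h3]
    refine (norm_add_le _ _).trans (add_le_add (hB i hi).1 ((norm_sum_le _ _).trans ?_))
    calc _ ≤ ∑ q ∈ strat y N i, if q ∈ n.primeFactors then ϑ * Module.finrank ℚ L else 0 := by
          refine sum_le_sum fun q hq => ?_
          rw [norm_mul, Complex.norm_real, Real.norm_of_nonneg (hω i hi q hq).1, ← mul_ite_zero]
          exact mul_le_mul (hω i hi q hq).2
            (ErrP.lam_diff L (by omega) (mem_filter.1 hq).2.1) (norm_nonneg _) hϑ
      _ ≤ _ := by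
          rw [sum_ite_mem, sum_const, nsmul_eq_mul, mul_comm]
          exact mul_le_mul_of_nonneg_left (Nat.cast_le.2 (card_le_card inter_subset_right))
            (by positivity)

end Pool.Agent.P.MP_b8021b_nt.VC
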