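import Pool.Agent.P.MP_b8021b_nt.VC.StS
import Pool.Agent.P.MP_b8021b_nt.VE.BasicS

/-! Extension of a homomorphism to a geometric point. -/

namespace Pool.Agent.P.MP_b8021b_nt.VC

open Polynomial Pool.Agent.P.MP_b8021b_nt.VE
open scoped Classical WithZero IntermediateField

namespace Extp

open scoped IntermediateField.algebraAdjoinAdjoin in
/-- an affine model inside a valuation ring -/
theorem model {M : Type} [Field M] [Algebra ℚ M] (t : M) (ht : Transcendental ℚ t)
    [FiniteDimensional ℚ⟮t⟯ M] (V : ValuationSubring M) (hQ : ∀ q : ℚ, algebraMap ℚ M q ∈ V)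
    (htV : t ∈ V) :
    ∃ (R : Type) (_ : CommRing R) (_ : IsDedekindDomain R) (_ : Algebra R M)
      (_ : IsFractionRing R M), (∀ r, algebraMap R M r ∈ V) ∧
      ∀ (κ : Type) [Field κ] [Algebra ℚ κ] (φ : R →+* κ), RingHom.ker φ ≠ ⊥ →
        ∀ r, IsIntegral ℚ (φ r) := by
  let A := Algebra.adjoin ℚ {t}
  let e : ℚ[X] ≃ₐ[ℚ] A := Polynomial.algEquivOfTranscendental ℚ t ht
  have : IsPrincipalIdealRing A := IsPrincipalIdealRing.of_surjective e e.surjective
  have : CharZero M := algebraRat.charZero M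
  have : IsDedekindDomain (integralClosure A M) := integralClosure.isDedekindDomain A ℚ⟮t⟯ M
  have : IsFractionRing (integralClosure A M) M :=
    integralClosure.isFractionRing_of_finite_extension ℚ⟮t⟯ M
  have hA : ∀ a : A, (a : M) ∈ V := by
    rintro ⟨a, ha⟩
    show a ∈ V
    induction ha using Algebra.adjoin_induction with
    | mem x hx => rw [Set.mem_singleton_iff.1 hx]; exact htV
    | algebraMap q => exact hQ q
    | add x y _ _ h1 h2 => exact add_mem h1 h2
    | mul x y _ _ h1 h2 => exact mul_mem h1 h2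
  refine ⟨integralClosure A M, inferInstance, inferInstance, inferInstance, inferInstance,
    fun r => ?_, fun κ _ _ φ hφ r => ?_⟩
  · obtain ⟨P, hP, h0⟩ := r.2
    let j : A →+* V := (algebraMap A M).codRestrict V hA
    have h1 : IsIntegral V (r : M) := ⟨P.map j, hP.map j, by rw [eval₂_map]; exact h0⟩
    obtain ⟨y, hy⟩ := IsIntegrallyClosed.isIntegral_iff.1 h1
    have h2 : algebraMap (integralClosure A M) M r = (y : M) := hy.symm
    rw [h2]
    exact y.2
  · let ψ : A →+* κ := φ.comp (algebraMap A (integralClosure A M))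
    have hψ : ∀ g : ℚ[X], ψ (e g) = aeval (ψ (e X)) g := by
      intro g
      have h1 := Polynomial.aeval_algHom_apply (ψ.toRatAlgHom.comp e.toAlgHom) X g
      rw [aeval_X_left_apply] at h1
      exact h1.symm
    obtain ⟨x, hx1, hx2⟩ := Submodule.exists_mem_ne_zero_of_ne_bot hφ
    obtain ⟨a, ha1, ha2⟩ := Submodule.exists_mem_ne_zero_of_ne_bot
      (Ideal.comap_ne_bot_of_integral_mem (R := A) hx2 hx1 (integralClosure.isIntegral x))
    obtain ⟨g, rfl⟩ := e.surjective a
    have hg : g ≠ 0 := by rintro rfl; exact ha2 (map_zero e)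
    have ht' : IsIntegral ℚ (ψ (e X)) := by
      refine IsAlgebraic.isIntegral ⟨g, hg, ?_⟩
      rw [← hψ]
      exact ha1
    have hint : ∀ a : A, ψ a ∈ integralClosure ℚ κ := by
      intro a
      obtain ⟨g, rfl⟩ := e.surjective a
      rw [hψ]
      exact adjoin_le_integralClosure ht' (Polynomial.aeval_mem_adjoin_singleton ℚ _)
    let j : A →+* integralClosure ℚ κ := ψ.codRestrict _ hint
    obtain ⟨P, hP, h0⟩ := integralClosure.isIntegral r
    have h1 : IsIntegral (integralClosure ℚ κ) (φ r) := by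
      refine ⟨P.map j, hP.map j, ?_⟩
      rw [eval₂_map]
      have h2 := congrArg φ h0
      rw [hom_eval₂, map_zero] at h2
      exact h2
    exact isIntegral_trans _ h1

/-- a valuation ring centred at a given prime -/
theorem exists_val {M B : Type} [Field M] [CommRing B] (i : B →+* M) (P : Ideal B) [P.IsPrime]
    (h : ∀ b, i b = 0 → b ∈ P) :
    ∃ (V : ValuationSubring M) (j : B →+* V), (∀ b, (j b : M) = i b) ∧
      ∀ b, IsLocalRing.residue V (j b) = 0 ↔ b ∈ P := by
  have hu : ∀ s : P.primeCompl, IsUnit (i s) := fun s =>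
    IsUnit.mk0 _ fun h0 => s.2 (h _ h0)
  let k : Localization.AtPrime P →+* M := IsLocalization.lift hu
  obtain ⟨V, hV, hloc⟩ := IsLocalRing.exists_factor_valuationRing k
  let k' : Localization.AtPrime P →+* V := k.codRestrict V.toSubring hV
  have hloc' : IsLocalHom k' := hloc
  refine ⟨V, k'.comp (algebraMap B _), fun b => IsLocalization.lift_eq hu b, fun b => ?_⟩
  rw [IsLocalRing.residue_eq_zero_iff, RingHom.comp_apply, IsLocalRing.mem_maximalIdeal,
    mem_nonunits_iff, isUnit_map_iff k', IsLocalization.AtPrime.isUnit_to_map_iff _ P]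
  exact not_not

end Extp

theorem p_extp (h0 : VE.S_S0) : S_Extp := by
  intro M _ _ hM B _ i f hif hb
  have : (RingHom.ker f).IsPrime := RingHom.ker_isPrime f
  have : CharZero M := algebraRat.charZero M
  obtain ⟨V, j, hj, hjP⟩ := Extp.exists_val i (RingHom.ker f) hif
  let π := IsLocalRing.residue V
  have hn : ∀ n : ℕ, n ≠ 0 → IsUnit (n : V) := by
    intro n hn
    have h1 := (hjP n).not.2 (by rw [RingHom.mem_ker, map_natCast]; exact Nat.cast_ne_zero.2 hn)
    rwa [map_natCast, IsLocalRing.residue_eq_zero_iff, IsLocalRing.mem_maximalIdeal,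
      mem_nonunits_iff, not_not] at h1
  have hQ : ∀ q : ℚ, algebraMap ℚ M q ∈ V := by
    intro q
    obtain ⟨u, hu⟩ := (hn q.den q.den_nz).exists_right_inv
    have h1 : (q.den : M) * (u : M) = 1 := by simpa using congrArg (fun x : V => (x : M)) hu
    rw [eq_ratCast, Rat.cast_def, div_eq_mul_inv, ← eq_inv_of_mul_eq_one_right h1]
    exact mul_mem (intCast_mem V _) u.2
  obtain ⟨R, _, _, _, _, hR, halg⟩ : ∃ (R : Type) (_ : CommRing R) (_ : IsDedekindDomain R)
      (_ : Algebra R M) (_ : IsFractionRing R M), (∀ r, algebraMap R M r ∈ V) ∧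
      ∀ (κ : Type) [Field κ] [Algebra ℚ κ] (φ : R →+* κ), RingHom.ker φ ≠ ⊥ →
        ∀ r, IsIntegral ℚ (φ r) := by
    obtain ⟨t, ht, hfin⟩ := hM
    rcases V.mem_or_inv_mem t with h | h
    · exact Extp.model t ht V hQ h
    · have h1 : ℚ⟮t⁻¹⟯ = ℚ⟮t⟯ := by
        refine le_antisymm (IntermediateField.adjoin_simple_le_iff.2 ?_)
          (IntermediateField.adjoin_simple_le_iff.2 ?_)
        · exact inv_mem (IntermediateField.mem_adjoin_simple_self ℚ t)
        · have := inv_mem (IntermediateField.mem_adjoin_simple_self ℚ t⁻¹)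
          rwa [inv_inv] at this
      have : FiniteDimensional ℚ⟮t⁻¹⟯ M := by rw [h1]; exact hfin
      exact Extp.model t⁻¹ (fun h2 => ht (IsAlgebraic.inv_iff.1 h2)) V hQ h
  let a : R →+* V := (algebraMap R M).codRestrict V hR
  have ha : ∀ r, (a r : M) = algebraMap R M r := fun _ => rfl
  let φ : R →+* IsLocalRing.ResidueField V := π.comp a
  have hφ : RingHom.ker φ ≠ ⊥ := by
    obtain ⟨b, hb1, hb2⟩ := hb
    obtain ⟨x, y, hy, hxy⟩ := IsFractionRing.div_surjective (A := R) (i b)
    have hy' : algebraMap R M y ≠ 0 := IsFractionRing.to_map_ne_zero_of_mem_nonZeroDivisors hy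
    have h1 : a x = j b * a y := Subtype.ext (by
      rw [MulMemClass.coe_mul, hj, ha, ha, ← hxy, div_mul_cancel₀ _ hy'])
    intro h2
    have h3 : x ∈ RingHom.ker φ := by
      rw [RingHom.mem_ker, RingHom.comp_apply, h1, map_mul, (hjP b).2 hb2, zero_mul]
    rw [h2, Ideal.mem_bot] at h3
    rw [h3, map_zero, zero_div] at hxy
    exact hb1 hxy.symm
  let v : IsDedekindDomain.HeightOneSpectrum R := ⟨RingHom.ker φ, RingHom.ker_isPrime φ, hφ⟩
  have hfrac : ∀ x : V, ∃ n d : R, φ d ≠ 0 ∧ x * a d = a n := by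
    intro x
    obtain ⟨n, d, h | h⟩ := v.exists_primeCompl_mul_eq_or_mul_eq (x : M)
    · exact ⟨n, d, d.2, Subtype.ext h⟩
    · have h1 : x * a n = a d := Subtype.ext h
      refine ⟨d, n, fun h2 => d.2 ?_, h1⟩
      have h3 : φ d = π x * φ n := by
        rw [RingHom.comp_apply, ← h1, map_mul]; rfl
      show φ d = 0
      rw [h3, h2, mul_zero]
  have : CharZero (IsLocalRing.ResidueField V) := by
    refine charZero_of_inj_zero fun n hn0 => ?_
    by_contra h1
    have h2 := (hn n h1).map π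
    rw [map_natCast, hn0] at h2
    exact not_isUnit_zero h2
  have hκ : Algebra.IsAlgebraic ℚ (IsLocalRing.ResidueField V) := by
    refine ⟨fun z => ?_⟩
    obtain ⟨x, rfl⟩ := IsLocalRing.residue_surjective z
    obtain ⟨n, d, h1, h2⟩ := hfrac x
    have h3 : π x = φ n / φ d := by
      rw [eq_div_iff h1, RingHom.comp_apply, RingHom.comp_apply, ← h2, map_mul]
    show IsAlgebraic ℚ (π x)
    rw [h3, div_eq_mul_inv]
    exact ((halg _ φ hφ n).mul (halg _ φ hφ d).inv).isAlgebraic
  have k1 : RingHom.ker f ≤ RingHom.ker f := le_rfl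
  have k2 : (RingHom.ker f).primeCompl ≤ (IsUnit.submonoid Qb).comap f := fun s hs =>
    IsUnit.mk0 _ hs
  have k3 : RingHom.ker f ≤ RingHom.ker (π.comp j) := fun s hs => (hjP s).2 hs
  have k4 : (RingHom.ker f).primeCompl ≤ (IsUnit.submonoid _).comap (π.comp j) := fun s hs =>
    IsUnit.mk0 _ fun h => hs ((hjP s).1 h)
  let f₁ := Ideal.ResidueField.lift (RingHom.ker f) f k1 k2
  let f₂ := Ideal.ResidueField.lift (RingHom.ker f) (π.comp j) k3 k4
  obtain ⟨τ, hτ⟩ : ∃ τ : IsLocalRing.ResidueField V →+* Qb, ∀ z, τ (f₂ z) = f₁ z := by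
    have : CharZero (RingHom.ker f).ResidueField := f₁.charZero
    let _ := f₁.toAlgebra
    let _ := f₂.toAlgebra
    have : Algebra.IsAlgebraic (RingHom.ker f).ResidueField (IsLocalRing.ResidueField V) :=
      Algebra.IsAlgebraic.tower_top (K := ℚ) _
    let τ : IsLocalRing.ResidueField V →ₐ[(RingHom.ker f).ResidueField] Qb := IsAlgClosed.lift
    exact ⟨τ, fun z => τ.commutes z⟩
  have hτ' : ∀ b, τ (π (j b)) = f b := fun b => by
    have h1 := hτ (algebraMap B _ b)
    rwa [Ideal.ResidueField.lift_algebraMap, Ideal.ResidueField.lift_algebraMap] at h1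
  have hσ : RingHom.ker (τ.comp φ) ≠ ⊥ := fun h => hφ (le_bot_iff.1 (h ▸ fun s hs => by
    rw [RingHom.mem_ker, RingHom.comp_apply, (RingHom.mem_ker).1 hs, map_zero]))
  obtain ⟨q, hq⟩ := ((h0 R M).1 (τ.comp φ) hσ).exists
  refine ⟨q, fun b => ?_⟩
  obtain ⟨n, d, h1, h2⟩ := hfrac (j b)
  have h3 : τ (φ d) ≠ 0 := (map_ne_zero τ).2 h1
  have h4 := (hq n).div (hq d) h3
  have h5 : algebraMap R M n / algebraMap R M d = i b := by
    rw [div_eq_iff ((hq d).ne_zero h3), ← hj, ← ha, ← ha, ← h2, MulMemClass.coe_mul]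
  have h6 : (τ.comp φ) n / (τ.comp φ) d = f b := by
    show τ (π (a n)) / τ (φ d) = f b
    rw [div_eq_iff h3, ← hτ', ← h2, map_mul, map_mul]
    rfl
  rwa [h5, h6] at h4

end Pool.Agent.P.MP_b8021b_nt.VC
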