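import Pool.Agent.P.MP_b8021b_nt.VC.StA
import Pool.Agent.P.MP_b8021b_nt.VC.StS
import Pool.Agent.P.MP_b8021b_nt.VC.BasicA

/-! The field of an admissible fibre exists. -/

namespace Pool.Agent.P.MP_b8021b_nt.VC

open Polynomial NumberField Finset Pool.Agent.P.MP_b8021b_nt.VE
open scoped Classical TensorProduct

namespace FbEx

variable {R : Type} [CommRing R] [Algebra ℤ[X] R]

theorem val_eq (r : ℕ) [Fact r.Prime] {x : ℤ} (hx : x ≠ 0) :
    Int.padicValuation r x = WithZero.exp (-(padicValNat r x.natAbs : ℤ)) := by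
  simp [← Rat.padicValuation_cast, Rat.padicValuation, hx, padicValInt]

theorem val_fst (p : Par R) [Fact p.r.Prime] {t : ℤ × ℤ} (ht : p.Adm t) :
    Int.padicValuation p.r t.1 = 1 := by
  rw [Int.padicValuation_eq_one_iff]
  intro h
  have h1 : (p.r : ℤ) ∣ t.1 - 1 :=
    (dvd_pow_self _ (by have := p.hn; omega)).trans ht.2.2.2.1
  have h2 : (p.r : ℤ) ∣ 1 := by simpa using h.sub h1
  exact p.hr.one_lt.ne' (by exact_mod_cast Int.eq_one_of_dvd_one (by positivity) h2)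

theorem val_snd (p : Par R) [Fact p.r.Prime] {t : ℤ × ℤ} (ht : p.Adm t) :
    Int.padicValuation p.r t.2 = WithZero.exp (-(p.b0 : ℤ)) := by
  obtain ⟨c, hc⟩ := ht.2.2.2.2.1
  have h1 : ∀ n : ℕ, Int.padicValuation p.r ((p.r : ℤ) ^ n) = WithZero.exp (-(n : ℤ)) := fun n => by
    rw [map_pow, Int.padicValuation_self, ← WithZero.exp_nsmul]
    simp
  rw [show t.2 = (p.r : ℤ) ^ p.b0 + (p.r : ℤ) ^ p.n0 * c by rw [← hc]; ring,
    Valuation.map_add_eq_of_lt_left, h1]
  rw [map_mul, h1, h1]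
  refine (mul_le_of_le_one_right' (Int.padicValuation_le_one _ _)).trans_lt ?_
  have := p.hn
  rw [WithZero.exp_lt_exp]
  omega

theorem eis (p : Par R) [Fact p.r.Prime] {t : ℤ × ℤ} (ht : p.Adm t) :
    EisV (Rat.padicValuation p.r) ((p.toTab.Pt t).map (Int.castRingHom ℚ))
      ((p.b0 * (p.e * p.κ p.toTab.i1 - p.δ p.toTab.i1) + padicValNat p.r p.toTab.N0 : ℕ) : ℤ) := by
  have hdeg : ((p.toTab.Pt t).map (Int.castRingHom ℚ)).natDegree = p.e := by
    rw [(p.toTab.Pt_monic t).natDegree_map, Tab.natDegree_Pt]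
  have hco : ∀ l, Rat.padicValuation p.r (((p.toTab.Pt t).map (Int.castRingHom ℚ)).coeff l) =
      Int.padicValuation p.r (hev ((p.e - l) * p.κ p.toTab.i1) (p.toTab.P.coeff l) t.1 t.2) :=
    fun l => by
      rw [coeff_map, Tab.Pt_eq, Tab.coeff_cpt]
      rfl
  have hδ := p.toTab.δ_le p.toTab.i1
  have hb := p.hb
  have he := p.toTab.epos
  have hpow : ∀ J : ℕ, Int.padicValuation p.r (t.2 ^ J) = WithZero.exp (-((p.b0 * J : ℕ) : ℤ)) :=
    fun J => by
      rw [map_pow, val_snd p ht, ← WithZero.exp_nsmul]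
      congr 1
      push_cast
      simp [mul_comm]
  set κ := p.κ p.toTab.i1 with hκ
  set δ := p.δ p.toTab.i1 with hδ'
  set ν := padicValNat p.r p.toTab.N0 with hν
  have h0 : Rat.padicValuation p.r (((p.toTab.Pt t).map (Int.castRingHom ℚ)).coeff 0) =
      WithZero.exp (-((p.b0 * (p.e * κ - δ) + ν : ℕ) : ℤ)) := by
    obtain ⟨a1, a2⟩ := p.P0
    rw [hco, Nat.sub_zero, show p.e * κ = δ + (p.e * κ - δ) by omega, hev_add_deg a2.le, map_mul,
      hpow, Nat.add_sub_cancel_left]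
    obtain ⟨c, hc⟩ := (hev_modEq δ (p.toTab.P.coeff 0) (m := t.2) (Int.ModEq.refl t.1)
      (Int.modEq_zero_iff_dvd.2 dvd_rfl)).symm.dvd
    have a3 : Int.padicValuation p.r ((p.toTab.P.coeff 0).coeff δ * t.1 ^ δ) =
        WithZero.exp (-(ν : ℤ)) := by
      rw [map_mul, map_pow, val_fst p ht, one_pow, mul_one, hδ', ← a2, coeff_natDegree,
        val_eq _ (leadingCoeff_ne_zero.2 a1)]
      rfl
    rw [hev_b_zero, sub_eq_iff_eq_add'] at hc
    rw [hc, Valuation.map_add_eq_of_lt_left, a3, ← WithZero.exp_add]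
    · congr 1
      push_cast
      ring
    · rw [a3, map_mul, val_snd p ht]
      refine (mul_le_of_le_one_right' (Int.padicValuation_le_one _ _)).trans_lt ?_
      have := Nat.le_mul_of_pos_left ν he
      rw [WithZero.exp_lt_exp]
      omega
  refine ⟨h0, ?_, fun l hl => ?_⟩
  · rw [hdeg, Nat.isCoprime_iff_coprime]
    exact ((Nat.Prime.coprime_iff_not_dvd p.he).2 p.cop).symm
  rw [hdeg] at hl ⊢
  rcases Nat.eq_zero_or_pos l with rfl | hl0
  · rw [h0, Nat.sub_zero]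
  rw [hco]
  by_cases hz : p.toTab.P.coeff l = 0
  · rw [hz, hev_zero, map_zero, zero_pow he.ne']
    exact zero_le
  have a1 : p.e * (p.toTab.P.coeff l).natDegree + l * δ ≤ p.e * δ :=
    Tab.cp_natDegree_wle (Tab.y_mem_Lw p.toTab.i1) hz
  have a2 : (p.toTab.P.coeff l).natDegree ≤ (p.e - l) * κ :=
    Tab.natDegree_cp_coeff (p.toTab.y_mem_Lw_κ p.toTab.i1) l
  set d := (p.toTab.P.coeff l).natDegree with hd
  obtain ⟨J, hJ⟩ := Nat.exists_eq_add_of_le a2
  obtain ⟨u, hu⟩ := Nat.exists_eq_add_of_le hl.le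
  obtain ⟨w, hw⟩ := Nat.exists_eq_add_of_le hδ
  have hu' : p.e - l = u := by omega
  have a3 : p.e * d < u * δ := by
    have b1 : p.e * d ≤ u * δ := by nlinarith
    refine lt_of_le_of_ne b1 fun e => ?_
    rcases (Nat.Prime.dvd_mul p.he).1 (e ▸ Dvd.intro d rfl) with h | h
    · have := Nat.le_of_dvd (by omega) h
      omega
    · have b2 : δ % p.e = 1 := p.δmod p.toTab.i1
      have := Nat.mod_eq_zero_of_dvd h
      omega
  rw [hJ, hev_add_deg le_rfl, map_mul, hpow]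
  refine (pow_le_pow_left' (mul_le_of_le_one_left' (Int.padicValuation_le_one _ _)) _).trans ?_
  rw [← WithZero.exp_nsmul, ← WithZero.exp_nsmul, WithZero.exp_le_exp, hu', hw,
    Nat.add_sub_cancel_left]
  rw [hu'] at hJ
  have a4 : u * w + 1 ≤ p.e * J := by
    have : p.e * (u * κ) = u * δ + u * w := by rw [← mul_add, ← hw]; ring
    rw [hJ, mul_add] at this
    omega
  have a5 : u * (p.b0 * w + ν) ≤ p.e * (p.b0 * J) := by
    have b1 := Nat.mul_le_mul_left p.b0 a4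
    have b2 : u * ν ≤ p.e * ν := Nat.mul_le_mul_right _ (by omega)
    nlinarith
  simp only [smul_neg, nsmul_eq_mul, neg_le_neg_iff]
  exact_mod_cast a5

theorem finrank_eq (hE : S_Eis) (p : Par R) {t : ℤ × ℤ} (ht : p.Adm t) (k L : Type) [Field k]
    [NumberField k] [Field L] [NumberField L] [Algebra k L] (hk : Module.finrank ℚ k = 2)
    (q : R →+* L) (hq : (t.2 : L) * q (zR R) = t.1)
    (gen : Submodule.span k (Set.range fun i => q (p.y i)) = ⊤) : Module.finrank k L = p.e := by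
  have : Fact p.r.Prime := ⟨p.hr⟩
  have h1 : Module.finrank k L ≤ p.e := by
    have := finrank_range_le_card (R := k) fun i => q (p.y i)
    rwa [Set.finrank, gen, finrank_top, Fintype.card_fin] at this
  have hm := (p.toTab.Pt_monic t).map (Int.castRingHom ℚ)
  have hdeg : ((p.toTab.Pt t).map (Int.castRingHom ℚ)).natDegree = p.e := by
    rw [(p.toTab.Pt_monic t).natDegree_map, Tab.natDegree_Pt]
  have hirr := hE ℚ _ _ _ hm (hdeg ▸ p.toTab.epos) (eis p ht)
  have h2 := minpoly.eq_of_irreducible_of_monic hirr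
    (x := (t.2 : L) ^ p.κ p.toTab.i1 * q (p.y p.toTab.i1)) (by
      rw [← algebraMap_int_eq, aeval_map_algebraMap]
      exact p.toTab.aeval_Pt q hq) hm
  have h3 := minpoly.degree_dvd (K := ℚ) (Algebra.IsIntegral.isIntegral
    ((t.2 : L) ^ p.κ p.toTab.i1 * q (p.y p.toTab.i1)))
  rw [← h2, hdeg, ← Module.finrank_mul_finrank ℚ k, hk] at h3
  rcases (Nat.Prime.dvd_mul p.he).1 h3 with h | h
  · have := Nat.le_of_dvd two_pos h
    have := p.h3
    omega
  · exact le_antisymm h1 (Nat.le_of_dvd Module.finrank_pos h)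

end FbEx

theorem p_fbEx (hE : S_Eis) : S_FbEx := by
  intro R _ _ p k _ _ _ K _ t ht
  have hb : (t.2 : k) ≠ 0 := by exact_mod_cast ht.1.ne'
  let : Algebra ℤ[X] k := (aeval ((t.1 : k) / t.2) : ℤ[X] →ₐ[ℤ] k).toRingHom.toAlgebra
  let B := Algebra.TensorProduct.basis k p.y
  have : Nonempty (Fin p.e) := ⟨p.toTab.i0⟩
  have : Nontrivial (k ⊗[ℤ[X]] R) := B.repr.toEquiv.nontrivial
  have : Module.Finite k (k ⊗[ℤ[X]] R) := Module.Finite.of_basis B
  obtain ⟨𝔪, h𝔪⟩ := Ideal.exists_maximal (k ⊗[ℤ[X]] R)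
  let : Field ((k ⊗[ℤ[X]] R) ⧸ 𝔪) := Ideal.Quotient.field 𝔪
  have hs : Function.Surjective (Ideal.Quotient.mkₐ k 𝔪) := Ideal.Quotient.mkₐ_surjective k 𝔪
  have : Module.Finite k ((k ⊗[ℤ[X]] R) ⧸ 𝔪) :=
    Module.Finite.of_surjective (Ideal.Quotient.mkₐ k 𝔪).toLinearMap hs
  have : NumberField ((k ⊗[ℤ[X]] R) ⧸ 𝔪) := NumberField.of_module_finite k _
  let q : R →+* (k ⊗[ℤ[X]] R) ⧸ 𝔪 :=
    (Ideal.Quotient.mk 𝔪).comp Algebra.TensorProduct.includeRight.toRingHom
  have hz : q (zR R) = algebraMap k _ ((t.1 : k) / t.2) := by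
    have : (Algebra.TensorProduct.includeRight (zR R) : k ⊗[ℤ[X]] R) =
        algebraMap k _ ((t.1 : k) / t.2) := by
      rw [zR, AlgHom.commutes, IsScalarTower.algebraMap_apply ℤ[X] k]
      congr 1
      exact aeval_X _
    exact congrArg (Ideal.Quotient.mk 𝔪) this
  have hq : (t.2 : (k ⊗[ℤ[X]] R) ⧸ 𝔪) * q (zR R) = t.1 := by
    rw [hz, ← map_intCast (algebraMap k ((k ⊗[ℤ[X]] R) ⧸ 𝔪)) t.2, ← map_mul, mul_div_cancel₀ _ hb, map_intCast]
  have gen : Submodule.span k (Set.range fun i => q (p.y i)) = ⊤ := by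
    have h1 : (fun i => q (p.y i)) = (Ideal.Quotient.mkₐ k 𝔪).toLinearMap ∘ B := by
      funext i
      simp [q, B]
    rw [h1, Set.range_comp, ← Submodule.map_span, B.span_eq, Submodule.map_top,
      LinearMap.range_eq_top]
    exact hs
  exact ⟨(k ⊗[ℤ[X]] R) ⧸ 𝔪, inferInstance, inferInstance, inferInstance,
    ⟨q, hq, FbEx.finrank_eq hE p ht k _ K.deg q hq gen,
      fun i => ⟨_, Tab.isIntegral_fib q hq (p.toTab.y_mem_Lw_κ i)⟩, fun i => rfl, gen⟩⟩

end Pool.Agent.P.MP_b8021b_nt.VC
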