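import Pool.Agent.P.MP_b8021b_nt.VC.StA
import Pool.Agent.P.MP_b8021b_nt.VC.StH
import Pool.Agent.P.MP_b8021b_nt.VC.BasicA

/-! The field of a fibre is a non Galois extension with a wild witness. -/

namespace Pool.Agent.P.MP_b8021b_nt.VC

open Polynomial NumberField Finset Pool.Agent.P.MP_b8021b_nt.VE
open scoped Classical IntermediateField

noncomputable section

namespace FbNF

variable {R : Type} [CommRing R] [Algebra ℤ[X] R] {p : Par R} {k : Type} [Field k]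
  {t : ℤ × ℤ} {L : Type} [Field L] [NumberField L] [Algebra k L] (Φ : Fb p t k L)

/-- the basis of the field of the fibre -/
def bas : Module.Basis (Fin p.e) k L :=
  basisOfTopLeSpanOfCardEqFinrank (fun i => Φ.q (p.y i)) Φ.gen.ge (by simp [Φ.fin])

omit [NumberField L] in
theorem bas_apply (i : Fin p.e) : bas Φ i = Φ.q (p.y i) := by simp [bas]

theorem q_alg (ht : t.2 ≠ 0) (g : ℤ[X]) :
    Φ.q (algebraMap ℤ[X] R g) = algebraMap k L (aeval ((t.1 : k) / t.2) g) := by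
  have h : Φ.q (zR R) = algebraMap k L ((t.1 : k) / t.2) := by
    rw [map_div₀, map_intCast, map_intCast, eq_div_iff (Int.cast_ne_zero.2 ht), mul_comm, Φ.hq]
  rw [map_alg, h]
  exact aeval_algebraMap_apply L _ g

theorem norm_q (ht : t.2 ≠ 0) (x : R) :
    Algebra.norm k (Φ.q x) = aeval ((t.1 : k) / t.2) (Algebra.norm ℤ[X] x) := by
  let ev : ℤ[X] →+* k := (aeval ((t.1 : k) / t.2) : ℤ[X] →ₐ[ℤ] k)
  have h : Algebra.leftMulMatrix (bas Φ) (Φ.q x) =
      ev.mapMatrix (Algebra.leftMulMatrix p.y x) := by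
    ext i j
    rw [Algebra.leftMulMatrix_eq_repr_mul, RingHom.mapMatrix_apply, Matrix.map_apply,
      Algebra.leftMulMatrix_eq_repr_mul, bas_apply, ← map_mul]
    have h1 : Φ.q (x * p.y j) = ∑ l, ev (p.y.repr (x * p.y j) l) • bas Φ l := by
      conv_lhs => rw [← p.toTab.el_repr (x * p.y j), p.toTab.el_eq, map_sum]
      refine sum_congr rfl fun l _ => ?_
      rw [map_mul, q_alg Φ ht, Algebra.smul_def, bas_apply]
      rfl
    rw [h1, Module.Basis.repr_sum_self]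
  rw [Algebra.norm_eq_matrix_det (bas Φ), h, ← RingHom.map_det, p.toTab.norm_eq]
  rfl

/-- the norm of an integral function on the fibre is divisible by the numerator -/
theorem norm_dvd [CharZero k] (ht : t.2 ≠ 0) {x : R} {d : ℕ} (hx : x ∈ p.toTab.Lw (p.e * d))
    (h : X ∣ Algebra.norm ℤ[X] x) :
    ∃ a : ℤ, Algebra.norm k ((t.2 : L) ^ d * Φ.q x) = (t.1 : k) * a := by
  have := Module.Finite.of_basis (bas Φ)
  have h1 : t.1 ∣ hev (p.e * d) (Algebra.norm ℤ[X] x) t.1 t.2 := by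
    have h2 := dvd_hev_sub (p.e * d) (Algebra.norm ℤ[X] x) (m := t.1) (a := t.1) (a' := 0)
      (b := t.2) (b' := t.2) (by simp) (by simp)
    rwa [hev_a_zero, X_dvd_iff.1 h, zero_mul, sub_zero] at h2
  obtain ⟨a, ha⟩ := h1
  refine ⟨a, ?_⟩
  rw [← Int.cast_mul, ← ha, hev_div (Tab.natDegree_norm_le hx) _ (Int.cast_ne_zero.2 ht),
    map_mul, norm_q Φ ht, ← map_intCast (algebraMap k L), ← map_pow, Algebra.norm_algebraMap,
    Φ.fin, ← pow_mul, mul_comm d]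

theorem not_mem (ht : t.2 ≠ 0) : ((Φ.η p.toTab.i1 : 𝓞 L) : L) ∉ (algebraMap k L).range := by
  rintro ⟨a, ha⟩
  have hne : p.toTab.i1 ≠ p.toTab.i0 := fun h => by simp [Tab.i0, Tab.i1] at h
  have h1 : algebraMap k L a = a • bas Φ p.toTab.i0 := by
    rw [bas_apply, p.toTab.y_i0, map_one, Algebra.algebraMap_eq_smul_one]
  have h2 : ((Φ.η p.toTab.i1 : 𝓞 L) : L) = ((t.2 : k) ^ p.κ p.toTab.i1) • bas Φ p.toTab.i1 := by
    rw [Φ.hη, bas_apply, Algebra.smul_def, map_pow, map_intCast]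
  have h3 := congrArg (fun x => (bas Φ).repr x p.toTab.i1) (h1.symm.trans (ha.trans h2))
  simp only [map_smul, Module.Basis.repr_self, Finsupp.smul_apply, Finsupp.single_eq_same,
    Finsupp.single_eq_of_ne hne, smul_eq_mul, mul_one, mul_zero] at h3
  have h4 : ((t.2 : ℤ) : L) = 0 := by
    rw [← map_intCast (algebraMap k L), pow_eq_zero_iff (p.toTab.κ_i1_pos).ne' |>.1 h3.symm, map_zero]
  exact ht (Int.cast_eq_zero.1 h4)

theorem minpoly_eq (ht : t.2 ≠ 0) :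
    minpoly k ((Φ.η p.toTab.i1 : 𝓞 L) : L) = (p.toTab.Pt t).map (Int.castRingHom k) := by
  have := Module.Finite.of_basis (bas Φ)
  have hi : IsIntegral k ((Φ.η p.toTab.i1 : 𝓞 L) : L) := Algebra.IsIntegral.isIntegral _
  have h1 := minpoly.degree_dvd hi
  rw [Φ.fin] at h1
  have h2 : (minpoly k ((Φ.η p.toTab.i1 : 𝓞 L) : L)).natDegree = p.e :=
    ((Nat.dvd_prime p.he).1 h1).resolve_left fun h =>
      not_mem Φ ht (minpoly.natDegree_eq_one_iff.1 h)
  have hm := (p.toTab.Pt_monic t).map (Int.castRingHom k)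
  refine (eq_of_monic_of_dvd_of_natDegree_le (minpoly.monic hi) hm (minpoly.dvd _ _ ?_) ?_).symm
  · rw [← algebraMap_int_eq, aeval_map_algebraMap, Φ.hη]
    exact p.toTab.aeval_Pt Φ.q Φ.hq
  · rw [h2, (p.toTab.Pt_monic t).natDegree_map, Tab.natDegree_Pt]

include Φ in
theorem galois [CharZero k] (ht : t.2 ≠ 0) (h : ((p.toTab.Pt t).map (Int.castRingHom L)).Splits) :
    IsGalois k L := by
  have := Module.Finite.of_basis (bas Φ)
  have hi : IsIntegral k ((Φ.η p.toTab.i1 : 𝓞 L) : L) := Algebra.IsIntegral.isIntegral _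
  have h1 : k⟮((Φ.η p.toTab.i1 : 𝓞 L) : L)⟯ = ⊤ := by
    rw [Field.primitive_element_iff_minpoly_natDegree_eq, minpoly_eq Φ ht,
      (p.toTab.Pt_monic t).natDegree_map, Tab.natDegree_Pt, Φ.fin]
  have h2 : ((minpoly k ((Φ.η p.toTab.i1 : 𝓞 L) : L)).map (algebraMap k L)).Splits := by
    rw [minpoly_eq Φ ht, Polynomial.map_map]
    exact (RingHom.ext_int _ _ : (algebraMap k L).comp (Int.castRingHom k) = _) ▸ h
  have : IsSplittingField k L (minpoly k ((Φ.η p.toTab.i1 : 𝓞 L) : L)) := by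
    refine isSplittingField_iff_intermediateField.2 ⟨h2, eq_top_iff.2 (h1.ge.trans ?_)⟩
    refine IntermediateField.adjoin.mono _ _ _ (Set.singleton_subset_iff.2 ?_)
    exact mem_rootSet.2 ⟨minpoly.ne_zero hi, minpoly.aeval _ _⟩
  exact IsGalois.of_separable_splitting_field (minpoly.irreducible hi).separable

theorem ram [NumberField k] (K : IQ k) {r e : ℕ} (hr : r.Prime) (he : 2 ≤ e) (hD : K.D = -r)
    {𝔮 : Ideal (𝓞 L)} (h : 𝔮 ^ (2 * e) = Ideal.span {(r : 𝓞 L)}) (hm : 𝔮.IsMaximal) :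
    RamP k 𝔮 := by
  have hω : K.ω ^ 2 = -(r : 𝓞 k) := by rw [K.sq, hD]; simp
  have h1 : Ideal.span {K.ω} ^ 2 = Ideal.span {(r : 𝓞 k)} := by
    rw [Ideal.span_singleton_pow, hω, Ideal.span_singleton_neg]
  have h2 : Ideal.absNorm (Ideal.span {K.ω}) = r := by
    have := congrArg Ideal.absNorm h1
    rw [map_pow, Ideal.absNorm_span_natCast, RingOfIntegers.rank, K.deg] at this
    exact Nat.pow_left_injective two_ne_zero this
  have h3 : (Ideal.span {K.ω}).IsMaximal :=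
    (Ideal.isPrime_of_irreducible_absNorm (h2 ▸ hr)).isMaximal fun h0 =>
      hr.ne_zero (by rw [← h2, h0, Ideal.absNorm_bot])
  have h4 : (Ideal.span {algebraMap (𝓞 k) (𝓞 L) K.ω}) ^ 2 = (𝔮 ^ e) ^ 2 := by
    rw [← pow_mul, mul_comm, h, Ideal.span_singleton_pow, ← map_pow, hω, map_neg, map_natCast,
      Ideal.span_singleton_neg]
  have h5 : 𝔮 ^ e ∣ Ideal.span {algebraMap (𝓞 k) (𝓞 L) K.ω} :=
    (UniqueFactorizationMonoid.pow_dvd_pow_iff_dvd two_ne_zero).1 h4.symm.dvd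
  have h6 : algebraMap (𝓞 k) (𝓞 L) K.ω ∈ 𝔮 ^ 2 :=
    Ideal.dvd_span_singleton.1 ((pow_dvd_pow 𝔮 he).trans h5)
  have h7 : Ideal.span {K.ω} = 𝔮.comap (algebraMap (𝓞 k) (𝓞 L)) :=
    h3.eq_of_le (Ideal.comap_ne_top _ hm.ne_top)
      ((Ideal.span_singleton_le_iff_mem _).2
        (Ideal.mem_comap.2 (Ideal.pow_le_self two_ne_zero h6)))
  rw [RamP, ← h7, Ideal.map_span, Set.image_singleton]
  exact (Ideal.span_singleton_le_iff_mem _).2 h6

end FbNF

theorem p_fbNF (hDeg : S_Deg) (hQF : S_QF) (hTame : S_Tame) : S_FbNF := by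
  intro R _ _ p k _ _ _ K t L _ _ _ Φ hD ht
  have ht0 : t.2 ≠ 0 := ht.1.ne'
  have hDt : p.Dt t ≠ 0 := ((hDeg R p).2.2.2.2.2.2.2.2 0 t ht).2.2.2.1
  have := Module.Finite.of_basis (FbNF.bas Φ)
  refine ⟨p.he, p.h3, p.toTab.Pt_monic t, p.toTab.natDegree_Pt t, ?_, Φ.fin, ?_, ?_, ?_, ?_, ?_, ?_⟩
  · apply RingOfIntegers.coe_injective
    rw [← aeval_algebraMap_apply, map_zero]
    exact (congrArg (fun x => aeval x (p.toTab.Pt t)) (Φ.hη _)).trans (p.toTab.aeval_Pt Φ.q Φ.hq)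
  · rw [← FbNF.minpoly_eq Φ ht0]
    exact minpoly.irreducible (Algebra.IsIntegral.isIntegral _)
  · exact Int.natAbs_ne_zero.2 (mul_ne_zero (by have := p.hr.pos; positivity) hDt)
  · obtain ⟨a, b, h⟩ := p.sep t
    obtain ⟨c, hc⟩ : p.Dt t ∣ (p.Mt t : ℤ) := Int.dvd_natAbs.2 (dvd_mul_left _ _)
    refine ⟨C c * a, C c * b, ?_⟩
    rw [hc, C_mul, Par.Dt, ← h]
    ring
  · rw [hD, mul_neg, neg_dvd]
    exact Int.dvd_natAbs.2 (dvd_mul_right _ _)
  · intro h
    have := FbNF.galois Φ ht0 h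
    obtain ⟨-, ⟨𝔮, h𝔮⟩, -, -, -, -, -, -, h9⟩ := hQF R p k K t L Φ hD ht
    obtain ⟨hm, hn, -⟩ := h9 𝔮 h𝔮
    have h3 := p.h3
    have h1 := (hTame k L 𝔮 (Φ.fin ▸ p.he) hm
      (FbNF.ram K.toIQ p.hr (by omega) hD h𝔮 hm)).2.2.2
    rw [Φ.fin, hn] at h1
    have h2 : (p.r : 𝓞 L) ∈ 𝔮 :=
      Ideal.pow_le_self (n := 2 * p.e) (by omega) (h𝔮 ▸ Ideal.mem_span_singleton_self _)
    have h4 := Nat.le_of_dvd (by have := p.hr.two_le; omega) (h1 fun he => by
      have h5 : IsCoprime (p.e : 𝓞 L) (p.r : 𝓞 L) :=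
        ((Nat.coprime_primes p.he p.hr).2 p.re.ne').cast
      obtain ⟨a, b, hab⟩ := h5
      exact hm.ne_top ((Ideal.eq_top_iff_one _).2
        (hab ▸ add_mem (𝔮.mul_mem_left a he) (𝔮.mul_mem_left b h2))))
    have := p.re
    omega
  · have : Fact p.e.Prime := ⟨p.he⟩
    obtain ⟨d, hd⟩ := Tab.exists_mem_Lw (T := p.toTab) p.u
    have hd' : p.u - p.c ∈ p.toTab.Lw (p.e * d) := by
      refine sub_mem hd ?_
      have := Tab.intCast_mul_mem_Lw (Tab.Lw_mono (T := p.toTab) (Nat.zero_le (p.e * d))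
        Tab.one_mem_Lw) p.c
      rwa [mul_one] at this
    obtain ⟨a, ha⟩ := FbNF.norm_dvd Φ ht0 hd p.hu1
    obtain ⟨a', ha'⟩ := FbNF.norm_dvd Φ ht0 hd' p.hu2
    obtain ⟨b, hb⟩ := ht.2.2.2.2.2.1
    refine ⟨⟨_, Tab.isIntegral_fib Φ.q Φ.hq hd⟩, t.2 ^ d * p.c, padicValInt p.e p.c,
      ((b * a : ℤ) : 𝓞 k), ((b * a' : ℤ) : 𝓞 k), fun h => ?_, ?_, ?_⟩
    · have h1 : IsCoprime (p.e : ℤ) t.2 := by
        obtain ⟨w, hw⟩ := (dvd_pow_self (p.e : ℤ) (Nat.succ_ne_zero _)).trans ht.2.2.2.2.2.2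
        exact ⟨-w, 1, by linear_combination hw⟩
      have h2 := (padicValInt_dvd_iff _ _).1 (h1.pow.dvd_of_dvd_mul_left h)
      rcases h2 with h2 | h2
      · exact p.c0 h2
      · omega
    · refine ha.trans ?_
      rw [hb, Par.ke]
      simp only [map_intCast]
      push_cast
      ring
    · have e : (t.2 : L) ^ d * Φ.q p.u - ((t.2 ^ d * p.c : ℤ) : L) =
          (t.2 : L) ^ d * Φ.q (p.u - p.c) := by
        rw [map_sub, map_intCast]
        push_cast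
        ring
      refine (congrArg (Algebra.norm k) e).trans (ha'.trans ?_)
      rw [hb, Par.ke]
      simp only [map_intCast]
      push_cast
      ring

end

end Pool.Agent.P.MP_b8021b_nt.VC
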