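import Pool.Agent.P.MP_b8021b_nt.VC.StS
import Pool.Agent.P.MP_b8021b_nt.VE.StA
import Pool.Agent.P.MP_b8021b_nt.VE.BasicS

/-! Finiteness statements for geometric points. -/

namespace Pool.Agent.P.MP_b8021b_nt.VC

open Polynomial Finset WithZero
open Pool.Agent.P.MP_b8021b_nt.VE
open scoped Classical WithZero IntermediateField

namespace PFin

variable {F : Type} [Field F]

/-- the conjugate of a point -/
noncomputable def cj (s : Qb ≃+* Qb) (p : GPt F) : GPt F where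
  v := p.v
  ρ := s.toRingHom.comp p.ρ
  surj := p.surj
  ker a := by rw [← p.ker a]; exact s.map_eq_zero_iff

theorem gal_cj (s : Qb ≃+* Qb) (p : GPt F) : Gal s p (cj s p) :=
  fun _ _ ⟨h, e⟩ => ⟨h, congrArg s e⟩

theorem galois : IsGalois ℚ Qb :=
  have : IsAlgClosure ℚ Qb := AlgebraicClosure.instIsAlgClosure ℚ
  inferInstance

theorem ext_emb (κ : Type) [Field κ] (α β : κ →+* Qb) :
    ∃ s : Qb ≃+* Qb, ∀ x, s (α x) = β x := by
  have : CharZero κ := α.charZero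
  have := galois
  let _ : Algebra κ Qb := α.toAlgebra
  have : IsScalarTower ℚ κ Qb := IsScalarTower.of_algebraMap_eq' (Subsingleton.elim _ _)
  exact ⟨(AlgEquiv.ofBijective (β.toRatAlgHom.liftNormal Qb)
    (AlgHom.normal_bijective ℚ Qb Qb _)).toRingEquiv, β.toRatAlgHom.liftNormal_commutes Qb⟩

theorem gal_of_v {p p' : GPt F} (h : p.v = p'.v) : ∃ s : Qb ≃+* Qb, Gal s p p' := by
  obtain ⟨v, ρ, h1, h2⟩ := p
  obtain ⟨v', ρ', h1', h2'⟩ := p'
  obtain rfl : v = v' := h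
  obtain ⟨s, hs⟩ := ext_emb (IsLocalRing.ResidueField v.valuationSubring)
    (Ideal.Quotient.lift _ ρ fun a ha => (h2 a).2 ((Valuation.mem_maximalIdeal_iff _ v).1 ha))
    (Ideal.Quotient.lift _ ρ' fun a ha => (h2' a).2 ((Valuation.mem_maximalIdeal_iff _ v).1 ha))
  refine ⟨s, ?_⟩
  rintro a c ⟨h, rfl⟩
  exact ⟨h, (hs (Ideal.Quotient.mk _ ⟨a, h⟩)).symm⟩

theorem exists_equiv {K : Type} [Field K] [Algebra K F] {f : F} (hf : Transcendental K f) :
    ∃ e : RatFunc K ≃+* K⟮f⟯, (e RatFunc.X : F) = f :=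
  ⟨(RatFunc.algEquivOfTranscendental f hf).toRingEquiv, RatFunc.algEquivOfTranscendental_X f hf⟩

theorem alg_adj {K : Type} [Field K] [Algebra K F] {f : F} (hf : IsAlgebraic K f) :
    Algebra.IsAlgebraic K K⟮f⟯ :=
  have := IntermediateField.adjoin.finiteDimensional hf.isIntegral
  inferInstance

variable [Algebra ℚ F]

theorem eq_cj (hR : S_Res) (hF : IsCurve F) {s : Qb ≃+* Qb} {p p' : GPt F} (h : Gal s p p') :
    p' = cj s p := by
  obtain ⟨res, -, h1, -⟩ := hR F F hF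
  refine ((h1 p' p').1 fun _ _ h => h).symm.trans ((h1 p' _).1 ?_)
  rintro a c ⟨h2, rfl⟩
  exact h a _ ⟨h2, rfl⟩

theorem fib (hC : S_Crv) (hR : S_Res) (hF : IsCurve F) {f : F} (hf : Transcendental ℚ f)
    (c : Qb) : {p : GPt F | p.Val f c}.Finite ∧ ∃ p : GPt F, p.Val f c := by
  have h1 : FiniteDimensional ℚ⟮f⟯ F := (hC.2.1 ℚ F f hf).1 hF
  obtain ⟨e, he⟩ := exists_equiv hf
  let _ : Algebra (RatFunc ℚ) F := ((algebraMap ℚ⟮f⟯ F).comp e.toRingHom).toAlgebra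
  have : FiniteDimensional (RatFunc ℚ) F :=
    Module.Finite.of_equiv_equiv e.symm (RingEquiv.refl F)
      (RingHom.ext fun x => congrArg (algebraMap ℚ⟮f⟯ F) (e.apply_symm_apply x))
  have hX : algebraMap (RatFunc ℚ) F RatFunc.X = f := he
  obtain ⟨h2, h3, -⟩ := hC.2.2 ℚ
  obtain ⟨res, m, r1, r2, r3, -⟩ := hR (RatFunc ℚ) F h2
  obtain ⟨p₀, ⟨-, hp₀⟩, hu⟩ := h3 (algebraMap ℚ Qb) c
  obtain ⟨r4, r5⟩ := r3 p₀
  refine ⟨r4.subset fun q hq => hu _ ⟨fun b => by simpa using (res q).val_ratCast b, ?_⟩, ?_⟩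
  · have h4 := q.ord_nonneg hq.mem
    rw [← hX, (r2 q).2] at h4
    have h5 : (0 : ℤ) < m q := Nat.cast_pos.2 (r2 q).1
    obtain ⟨c', hc'⟩ := (res q).exists_val
      (((res q).ord_nonneg_iff RatFunc.X_ne_zero).1 (nonneg_of_mul_nonneg_right h4 h5))
    have h6 := (r1 q _).2 rfl _ _ hc'
    rw [hX] at h6
    exact h6.unique hq ▸ hc'
  · rcases Set.eq_empty_or_nonempty {q | res q = p₀} with h | ⟨q, h⟩
    · rw [h, finsum_mem_empty] at r5
      exact absurd r5.symm Module.finrank_pos.ne'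
    · exact ⟨q, hX ▸ (r1 q _).2 h _ _ hp₀⟩

theorem tr_inv {f : F} (hf : Transcendental ℚ f) : Transcendental ℚ f⁻¹ :=
  fun h => hf (IsAlgebraic.inv_iff.1 h)

theorem ord_fin (hC : S_Crv) (hR : S_Res) (hF : IsCurve F) (f : F) :
    {p : GPt F | p.ord f ≠ 0}.Finite := by
  by_cases hf : Transcendental ℚ f
  · refine ((fib hC hR hF hf 0).1.union (fib hC hR hF (tr_inv hf) 0).1).subset fun p hp => ?_
    rcases lt_or_gt_of_ne hp with h | h
    · exact Or.inr (p.val_zero_of_ord_pos (by rw [p.ord_inv]; omega))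
    · exact Or.inl (p.val_zero_of_ord_pos h)
  · refine Set.finite_empty.subset fun p hp => hp ?_
    exact @GPt.ord_alg F _ p _ _ (ℚ⟮f⟯).algebra' (alg_adj (not_not.1 hf)) (algebraMap ℚ⟮f⟯ F)
      (IntermediateField.AdjoinSimple.gen ℚ f)

/-- the field of values -/
def vals (p : GPt F) : IntermediateField ℚ Qb where
  carrier := {c | ∃ a, p.Val a c}
  mul_mem' := fun ⟨_, h⟩ ⟨_, h'⟩ => ⟨_, h.mul h'⟩
  add_mem' := fun ⟨_, h⟩ ⟨_, h'⟩ => ⟨_, h.add h'⟩
  algebraMap_mem' q := ⟨_, p.val_rat q⟩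
  inv_mem' c := fun ⟨_, h⟩ => by
    rcases eq_or_ne c 0 with rfl | hc
    · exact ⟨0, by simpa using p.val_zero⟩
    · exact ⟨_, h.inv hc⟩

theorem orbit_fin (hC : S_Crv) (hR : S_Res) (hF : IsCurve F) (p : GPt F) :
    {q : GPt F | q.v = p.v}.Finite := by
  obtain ⟨a, ha⟩ := p.surj (exp 1)
  refine (ord_fin hC hR hF a).subset fun q hq => ?_
  change -log (q.v a) ≠ 0
  rw [show q.v = p.v from hq, ha, log_exp]
  norm_num

theorem vals_fin (hC : S_Crv) (hR : S_Res) (hF : IsCurve F) (p : GPt F) :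
    FiniteDimensional ℚ (vals p) := by
  have h1 : Finite {q : GPt F | q.v = p.v} := orbit_fin hC hR hF p
  have h2 : Finite ((Qb ≃ₐ[ℚ] Qb) ⧸ (vals p).fixingSubgroup) := by
    refine Finite.of_injective
      (fun x => (⟨cj x.out.toRingEquiv p, rfl⟩ : {q : GPt F | q.v = p.v})) fun x y h => ?_
    rw [← x.out_eq', ← y.out_eq', QuotientGroup.eq, IntermediateField.mem_fixingSubgroup_iff]
    rintro c ⟨a, ha⟩
    have h3 := gal_cj x.out.toRingEquiv p a c ha
    rw [show cj x.out.toRingEquiv p = cj y.out.toRingEquiv p from congrArg Subtype.val h] at h3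
    have h4 : y.out c = x.out c := (gal_cj y.out.toRingEquiv p a c ha).unique h3
    rw [AlgEquiv.mul_apply, h4]
    exact x.out.symm_apply_apply c
  have := galois
  refine Module.finite_of_finrank_pos (Nat.pos_of_ne_zero ?_)
  rw [IntermediateField.finrank_eq_fixingSubgroup_index]
  exact Subgroup.index_ne_zero_of_finite

end PFin

open PFin

theorem p_fin (hC : S_Crv) (hR : S_Res) : S_Fin := by
  intro F _ _ hF
  refine ⟨fun f _ => ord_fin hC hR hF f, fun p => ⟨vals p, vals_fin hC hR hF p, fun _ => Iff.rfl⟩,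
    fun f hf => ?_, fun p p' => ⟨gal_of_v, ?_⟩,
    fun s p => ⟨cj s p, gal_cj s p, fun _ h => eq_cj hR hF h⟩⟩
  · obtain ⟨p, hp⟩ := (fib hC hR hF hf 0).2
    exact ⟨p, hp.ord_pos fun h => hf (h ▸ isAlgebraic_zero)⟩
  · rintro ⟨s, h⟩
    rw [eq_cj hR hF h]
    rfl

end Pool.Agent.P.MP_b8021b_nt.VC
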