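import Pool.Agent.P.MP_b8021b_nt.VC.DefN
import Pool.Agent.P.MP_b8021b_nt.VE.PRay
import Pool.Agent.P.MP_b8021b_nt.VE.PEqP

/-! Two ray class characters that agree come from the greatest common divisor of the moduli. -/

namespace Pool.Agent.P.MP_b8021b_nt.VC

open NumberField Pool.Agent.P.MP_b8021b_nt.VE
open scoped Classical

namespace KG

variable {L : Type} [Field L] [NumberField L]

/-- a character of modulus `n` whose values on principal ideals are given by `T` -/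
structure IsT (T : 𝓞 L →* ℂ) (n : ℕ) (χ : Ideal (𝓞 L) →* ℂ) : Prop extends IsChar n χ where
  prin : ∀ α : 𝓞 L, (n : 𝓞 L) ∣ α - 1 → χ (Ideal.span {α}) = T α

omit [NumberField L] in
lemma cop_right {m d : ℕ} {I : Ideal (𝓞 L)} (h : Cop (m * d) I) : Cop d I :=
  RayP.cop_of_mul (d := m) (by rwa [mul_comm])

omit [NumberField L] in
lemma cop_both {m d : ℕ} {I : Ideal (𝓞 L)} (h : Cop m I) (h' : Cop d I) : Cop (m * d) I := by
  unfold Cop at *
  rw [Nat.cast_mul, ← Ideal.span_singleton_mul_span_singleton]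
  exact h.mul_right h'

omit [NumberField L] in
lemma cop_dvd {m d : ℕ} (hd : d ∣ m) {I : Ideal (𝓞 L)} (h : Cop m I) : Cop d I := by
  obtain ⟨c, rfl⟩ := hd
  exact RayP.cop_of_mul h

variable {T : 𝓞 L →* ℂ} {m d : ℕ} {χ χ' : Ideal (𝓞 L) →* ℂ}

omit [NumberField L] in
lemma IsT.ne (h : IsT T m χ) {I : Ideal (𝓞 L)} (hI : Cop m I) : χ I ≠ 0 := fun e => by
  have := h.norm_cop I hI
  rw [e, norm_zero] at this
  exact zero_ne_one this

omit [NumberField L] in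
/-- periodicity -/
lemma IsT.per (h : IsT T m χ) {a b : 𝓞 L} (ha : IsCoprime a (m : 𝓞 L)) (hab : (m : 𝓞 L) ∣ a - b) :
    χ (Ideal.span {a}) * T b = χ (Ideal.span {b}) * T a := by
  obtain ⟨c, e, hc⟩ := ha
  obtain ⟨f, hf⟩ := hab
  have h1 := h.prin (a * c) ⟨-e, by linear_combination hc⟩
  have h2 := h.prin (b * c) ⟨-e - f * c, by linear_combination hc - c * hf⟩
  have h3 := h.ne (RayP.cop_span.2 (show IsCoprime c (m : 𝓞 L) from ⟨a, e, by
    linear_combination hc⟩))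
  rw [← Ideal.span_singleton_mul_span_singleton, map_mul, map_mul] at h1 h2
  apply mul_right_cancel₀ h3
  linear_combination T b * h1 - T a * h2

omit [NumberField L] in
lemma keyA (h : IsT T m χ) (h' : IsT T d χ') (e : ∀ I, Cop (m * d) I → χ I = χ' I) {a : 𝓞 L}
    (ha : IsCoprime a (m : 𝓞 L)) (h1 : ((Nat.gcd m d : ℕ) : 𝓞 L) ∣ a - 1) :
    χ (Ideal.span {a}) = T a := by
  obtain ⟨c, hc⟩ := h1
  have hb : ((Nat.gcd m d : ℕ) : 𝓞 L) = m * (Nat.gcdA m d : 𝓞 L) + d * (Nat.gcdB m d : 𝓞 L) := by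
    have := congrArg (Int.cast : ℤ → 𝓞 L) (Nat.gcd_eq_gcd_ab m d)
    simpa using this
  set b : 𝓞 L := 1 + d * (Nat.gcdB m d * c) with hbd
  have h2 : (m : 𝓞 L) ∣ a - b := ⟨Nat.gcdA m d * c, by rw [hbd]; linear_combination hc + c * hb⟩
  have h3 : (d : 𝓞 L) ∣ b - 1 := ⟨Nat.gcdB m d * c, by rw [hbd]; ring⟩
  have h4 : IsCoprime b (m : 𝓞 L) := by
    obtain ⟨f, hf⟩ := h2
    have : b = a + m * (-f) := by linear_combination -hf
    rw [this]
    exact ha.add_mul_left_left _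
  have h5 : Cop (m * d) (Ideal.span {b}) :=
    cop_both (RayP.cop_span.2 h4) (RayP.cop_span.2 (RayP.cop_of_dvd_sub_one h3))
  have h6 := h.per ha h2
  rw [e _ h5, h'.prin b h3] at h6
  have h7 : T b ≠ 0 := by
    rw [← h'.prin b h3]
    exact h'.ne (cop_right h5)
  apply mul_right_cancel₀ h7
  rw [h6, mul_comm]

lemma keyB (h : IsT T m χ) (h' : IsT T d χ') (e : ∀ I, Cop (m * d) I → χ I = χ' I)
    {I J J' : Ideal (𝓞 L)} {a a' : 𝓞 L} (hJ : Cop m J) (hJ' : Cop m J') (h0 : a' ≠ 0)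
    (h1 : ((Nat.gcd m d : ℕ) : 𝓞 L) ∣ a - 1) (h1' : ((Nat.gcd m d : ℕ) : 𝓞 L) ∣ a' - 1)
    (e1 : I * J = Ideal.span {a}) (e2 : I * J' = Ideal.span {a'}) :
    T a / χ J = T a' / χ J' := by
  obtain ⟨x, hx, hx1⟩ := EqP.cop_iff.1 hJ'
  have e3 : J' * Ideal.span {a} = J * Ideal.span {a'} := by rw [← e1, ← e2]; ring
  have hm : x * a ∈ J * Ideal.span {a'} :=
    e3 ▸ Ideal.mul_mem_mul hx (Ideal.mem_span_singleton_self a)
  rw [mul_comm J, Ideal.mem_span_singleton_mul] at hm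
  obtain ⟨y, -, hxy⟩ := hm
  obtain ⟨C, hC⟩ := Ideal.dvd_iff_le.2 ((Ideal.span_singleton_le_iff_mem _).2 hx)
  have hCm : Cop m C := (EqP.cop_mul.1 (hC ▸ EqP.cop_span hx1)).2
  have e4 : Ideal.span {y} = C * J := by
    have a0 : Ideal.span {a'} ≠ 0 := by
      rwa [Ne, Ideal.zero_eq_bot, Ideal.span_singleton_eq_bot]
    apply mul_left_cancel₀ a0
    rw [Ideal.span_singleton_mul_span_singleton, hxy, ← Ideal.span_singleton_mul_span_singleton,
      hC, ← e1, ← e2]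
    ring
  have g1 : ((Nat.gcd m d : ℕ) : 𝓞 L) ∣ y - 1 := by
    have g2 := RayP.one_mod_mul ((Nat.cast_dvd_cast (Nat.gcd_dvd_left m d)).trans hx1) h1
    have : y - 1 = x * a - 1 - (a' - 1) * y := by linear_combination hxy
    rw [this]
    exact dvd_sub g2 (h1'.mul_right _)
  have k1 := keyA h h' e (RayP.cop_span.1 (e4 ▸ RayP.cop_mul hCm hJ)) g1
  have k2 := h.prin x hx1
  have k3 := congrArg T hxy
  rw [e4, map_mul] at k1
  rw [hC, map_mul] at k2
  rw [map_mul, map_mul, ← k1, ← k2] at k3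
  rw [div_eq_div_iff (h.ne hJ) (h.ne hJ')]
  apply mul_right_cancel₀ (h.ne hCm)
  linear_combination -k3

lemma ne_bot {n : ℕ} (hn : 2 ≤ n) {I : Ideal (𝓞 L)} (h : Cop n I) : I ≠ ⊥ := by
  rintro rfl
  rw [Cop, Ideal.isCoprime_iff_sup_eq, bot_sup_eq] at h
  have h1 := congrArg Ideal.absNorm h
  rw [Ideal.absNorm_span_natCast, Ideal.absNorm_top] at h1
  have h2 : 0 < Module.finrank ℤ (𝓞 L) := Module.finrank_pos
  have := (Nat.pow_eq_one.mp h1).resolve_right h2.ne'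
  omega

theorem gcd_char (hT : ∀ a, a ≠ 0 → ‖T a‖ = 1) (hm : 1 ≤ m) (hg : 2 ≤ Nat.gcd m d)
    (h : IsT T m χ) (h' : IsT T d χ') (e : ∀ I, Cop (m * d) I → χ I = χ' I) :
    ∃ η, IsT T (Nat.gcd m d) η ∧ ∀ I, Cop m I → χ I = η I := by
  have ex := fun (I : Ideal (𝓞 L)) (hI : Cop (Nat.gcd m d) I) =>
    RayP.exists_inv (d := m) (by omega) hm (ne_bot hg hI) hI
  choose J a hJ0 hJ ha0 ha1 hIJ using ex
  set f : Ideal (𝓞 L) → ℂ := fun I => if hI : Cop (Nat.gcd m d) I then T (a I hI) / χ (J I hI)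
    else 0 with hf
  have val : ∀ (I J' : Ideal (𝓞 L)) (a' : 𝓞 L), Cop (Nat.gcd m d) I → Cop m J' → a' ≠ 0 →
      ((Nat.gcd m d : ℕ) : 𝓞 L) ∣ a' - 1 → I * J' = Ideal.span {a'} → f I = T a' / χ J' := by
    intro I J' a' hI h1 h2 h3 h4
    rw [hf]
    simp only [dif_pos hI]
    exact keyB h h' e (cop_right (hJ I hI)) h1 h2 (ha1 I hI) h3 (hIJ I hI) h4
  have zero : ∀ I, ¬ Cop (Nat.gcd m d) I → f I = 0 := fun I hI => by
    rw [hf]
    simp only [dif_neg hI]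
  have prin : ∀ α : 𝓞 L, ((Nat.gcd m d : ℕ) : 𝓞 L) ∣ α - 1 → f (Ideal.span {α}) = T α :=
    fun α hα => by
      have h1 := EqP.cop_span hα
      rw [val _ 1 α h1 EqP.cop_top (by
        simpa [Ideal.span_singleton_eq_bot] using ne_bot hg h1) hα (mul_one _), map_one, div_one]
  refine ⟨⟨⟨f, ?_⟩, fun I I' => ?_⟩, ⟨⟨fun I hI => ?_, zero⟩, prin⟩, fun I hI => ?_⟩
  · rw [Ideal.one_eq_top, ← Ideal.span_singleton_one, prin 1 (by simp), map_one]
  · change f (I * I') = f I * f I'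
    by_cases hI : Cop (Nat.gcd m d) I
    · by_cases hI' : Cop (Nat.gcd m d) I'
      · rw [val _ (J I hI * J I' hI') (a I hI * a I' hI') (RayP.cop_mul hI hI')
          (RayP.cop_mul (cop_right (hJ I hI)) (cop_right (hJ I' hI')))
          (mul_ne_zero (ha0 I hI) (ha0 I' hI')) (RayP.one_mod_mul (ha1 I hI) (ha1 I' hI'))
          (by rw [← Ideal.span_singleton_mul_span_singleton, ← hIJ, ← hIJ]; ring), hf]
        simp only [dif_pos hI, dif_pos hI', map_mul]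
        rw [div_mul_div_comm]
      · rw [zero I' hI', zero _ fun h => hI' (EqP.cop_mul.1 h).2, mul_zero]
    · rw [zero I hI, zero _ fun h => hI (EqP.cop_mul.1 h).1, zero_mul]
  · change ‖f I‖ = 1
    rw [hf]
    simp only [dif_pos hI]
    rw [norm_div, hT _ (ha0 I hI), h.norm_cop _ (cop_right (hJ I hI)), div_one]
  · change χ I = f I
    have hI' := cop_dvd (Nat.gcd_dvd_left m d) hI
    have h1 := cop_right (hJ I hI')
    rw [hf]
    simp only [dif_pos hI']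
    rw [eq_div_iff (h.ne h1), ← map_mul, hIJ]
    exact keyA h h' e (RayP.cop_span.1 (hIJ I hI' ▸ RayP.cop_mul hI h1)) (ha1 I hI')

end KG

end Pool.Agent.P.MP_b8021b_nt.VC
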