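import Pool.Agent.P.MP_b8021b_nt.VC.StG
import Pool.Agent.P.MP_b8021b_nt.VC.StH
import Pool.Agent.P.MP_b8021b_nt.VC.KGcd

/-! Two characters of the base field that agree come from the greatest common divisor. -/

namespace Pool.Agent.P.MP_b8021b_nt.VC

open NumberField Pool.Agent.P.MP_b8021b_nt.VE

namespace KG

variable (k : Type) [Field k] [NumberField k] [Algebra k ℂ] {E : Type} [Field E] [NumberField E]
  [Algebra k E]

/-- the type as a homomorphism on the ring of integers -/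
noncomputable def tyH (κ : Emb k E → ℤ) (a : 𝓞 E) : ℂ := ty κ 0 (emb k a)

lemma tyH_eq (κ : Emb k E → ℤ) (a : 𝓞 E) : tyH k κ a = ∏ φ, dir (φ (a : E)) ^ κ φ := by
  simp [tyH, ty, emb]

/-- the type as a homomorphism on the ring of integers -/
noncomputable def tyM (κ : Emb k E → ℤ) : 𝓞 E →* ℂ where
  toFun := tyH k κ
  map_one' := by simp [tyH_eq, EqP.dir_one]
  map_mul' a b := by
    simp [tyH_eq, EqP.dir_mul, mul_zpow, Finset.prod_mul_distrib]

lemma norm_tyM (κ : Emb k E → ℤ) (a : 𝓞 E) (ha : a ≠ 0) : ‖tyM k κ a‖ = 1 := by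
  change ‖tyH k κ a‖ = 1
  rw [tyH_eq, norm_prod]
  refine Finset.prod_eq_one fun φ _ => ?_
  rw [norm_zpow, EqP.norm_dir (by simpa using ha), one_zpow]

lemma isT_iff {n : ℕ} {κ : Emb k E → ℤ} {χ : Ideal (𝓞 E) →* ℂ} :
    IsT (tyM k κ) n χ ↔ IsH k n κ 0 χ :=
  ⟨fun h => ⟨h.toIsChar, by simp, h.prin⟩, fun h => ⟨h.toIsChar, h.prin⟩⟩

end KG

open KG in
theorem p_gcd (hTyp : S_Typ) : S_Gcd := by
  intro k _ _ _ K m d j j' ξ ξ' hm hd hg h h' e
  have h2 : 2 ≤ m * d := hg.trans ((Nat.gcd_le_left _ (by omega)).trans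
    (Nat.le_mul_of_pos_right _ (by omega)))
  have hj : j = j' := by
    refine congrFun (hTyp k K k (m * d) (fun _ => j) (fun _ => j') 0 0 h2 (by simp) (by simp)
      fun α hα => ?_).1 (Algebra.ofId k ℂ)
    rw [← h.prin α ((Nat.cast_dvd_cast (dvd_mul_right m d)).trans hα),
      ← h'.prin α ((Nat.cast_dvd_cast (dvd_mul_left d m)).trans hα)]
    exact e _ (EqP.cop_span hα)
  subst hj
  refine ⟨rfl, ?_⟩
  obtain ⟨η, h1, h3⟩ := gcd_char (norm_tyM k _) (by omega) hg ((isT_iff k).2 h)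
    ((isT_iff k).2 h') e
  refine ⟨η, (isT_iff k).1 h1, h3, fun I hI => ?_⟩
  obtain ⟨J, a, -, hJ, ha0, ha1, hIJ⟩ := RayP.exists_inv (n := d) (d := m) (by omega) (by omega)
    (ne_bot (hg.trans (Nat.gcd_le_right _ (by omega))) hI) hI
  have k1 := h'.prin a ha1
  have k2 := h1.prin a ((Nat.cast_dvd_cast (Nat.gcd_dvd_right m d)).trans ha1)
  rw [← hIJ, map_mul] at k1 k2
  rw [← h3 J (cop_right hJ), e J (by rwa [mul_comm])] at k2
  exact mul_right_cancel₀ (((isT_iff k).2 h').ne (RayP.cop_of_mul hJ)) (k1.trans k2.symm)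

end Pool.Agent.P.MP_b8021b_nt.VC
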