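import Pool.Agent.P.MP_b8021b_nt.VC.PDescS

/-! The subgroup of elements that are norms at the ramified primes. -/

namespace Pool.Agent.P.MP_b8021b_nt.VC

open NumberField Finset Pool.Agent.P.MP_b8021b_nt.VE
open scoped Classical

namespace U1b

variable {F K : Type} [Field F] [NumberField F] [Field K] [NumberField K] [Algebra F K]
  [IsGalois F K] {n : ℕ} {U : Subgroup Fˣ}

theorem loc (hT : S_Tame) (he : (Module.finrank F K).Prime) (hn : n ≠ 0)
    (hU : ∀ γ : Fˣ, γ ∈ U ↔ ∃ a b : 𝓞 F, IsCoprime a n ∧ IsCoprime b n ∧ (γ : F) * b = a)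
    {P : Ideal (𝓞 K)} (hP : P.IsMaximal) (hR : RamP F P) (hnP : (n : 𝓞 K) ∈ P)
    (heP : ((Module.finrank F K : ℕ) : 𝓞 K) ∉ P) : ∃ θ : U →* (𝓞 K ⧸ P)ˣ,
    (∀ (γ : U) (a b : 𝓞 F), algebraMap _ (𝓞 K) a - 1 ∈ P → algebraMap _ (𝓞 K) b - 1 ∈ P →
      (γ.1 : F) * b = a → θ γ = 1) ∧
    (∀ γ : U, (∃ δ : K, Algebra.norm F δ = γ.1) → θ γ = 1) ∧
    ∃ (γ : U) (a : 𝓞 F), (γ.1 : F) = a ∧ orderOf (θ γ) = Module.finrank F K ∧
      ∀ Q : Ideal (𝓞 K), Q.IsMaximal → (n : 𝓞 K) ∈ Q →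
        Q.comap (algebraMap (𝓞 F) (𝓞 K)) ≠ P.comap (algebraMap (𝓞 F) (𝓞 K)) →
        algebraMap _ (𝓞 K) a - 1 ∈ Q := by
  obtain ⟨-, t2, t3, t4⟩ := hT F K P he hP hR
  obtain ⟨w, hw⟩ := t4 heP
  let _ := Ideal.Quotient.field P
  have hP0 : P ≠ ⊥ := fun e => hn (by rw [e, Ideal.mem_bot] at hnP; exact_mod_cast hnP)
  have : Finite (𝓞 K ⧸ P) := Ideal.finiteQuotientOfFreeOfNeBot P hP0
  set p := P.comap (algebraMap (𝓞 F) (𝓞 K)) with hp
  have hpm : p.IsMaximal := Ideal.isMaximal_comap_of_isIntegral_of_isMaximal P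
  let r : 𝓞 F →+* 𝓞 K ⧸ P := (Ideal.Quotient.mk P).comp (algebraMap (𝓞 F) (𝓞 K))
  have hcard : Nat.card (𝓞 K ⧸ P)ˣ = Module.finrank F K * w := by
    rw [Nat.card_units, ← hw, Ideal.absNorm_apply, Submodule.cardQuot_apply]
  have hr : Function.Surjective r := by
    have hi := Ideal.quotientMap_injective (I := P) (f := algebraMap (𝓞 F) (𝓞 K))
    have hb := hi.bijective_of_nat_card_le (by
      rw [Ideal.absNorm_apply, Ideal.absNorm_apply, Submodule.cardQuot_apply,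
        Submodule.cardQuot_apply] at t3
      exact t3.le)
    intro y
    obtain ⟨x, rfl⟩ := hb.2 y
    obtain ⟨x, rfl⟩ := Ideal.Quotient.mk_surjective x
    exact ⟨x, rfl⟩
  have hrn : r n = 0 := by
    rw [map_natCast, ← map_natCast (Ideal.Quotient.mk P), Ideal.Quotient.eq_zero_iff_mem.2 hnP]
  have h0 : ∀ {a : 𝓞 F}, IsCoprime a n → r a ≠ 0 := fun ⟨u, v, h⟩ e => by
    have := congrArg r h
    rw [map_add, map_mul, map_mul, e, hrn, map_one] at this
    simp at this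
  choose A B hA hB hAB using fun γ : U => (hU γ).1 γ.2
  have key : ∀ (γ : U) (a b : 𝓞 K), algebraMap F K γ.1 * b = a →
      r (A γ) / r (B γ) * Ideal.Quotient.mk P b = Ideal.Quotient.mk P a := fun γ a b h => by
    have : algebraMap _ (𝓞 K) (A γ) * b = a * algebraMap _ (𝓞 K) (B γ) := Subtype.ext (by
      change algebraMap F K (A γ) * b = a * algebraMap F K (B γ)
      rw [← hAB, ← h, map_mul]
      ring)
    rw [div_mul_eq_mul_div, div_eq_iff (h0 (hB γ))]
    exact (map_mul _ _ _).symm.trans ((congrArg (Ideal.Quotient.mk P) this).trans (map_mul _ _ _))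
  have key' : ∀ (γ : U) (a b : 𝓞 F), (γ.1 : F) * b = a → r (A γ) / r (B γ) * r b = r a :=
    fun γ a b h => key γ _ _ (by
      change algebraMap F K γ.1 * algebraMap F K b = algebraMap F K a
      rw [← map_mul, h])
  let φ : U →* (𝓞 K ⧸ P)ˣ := MonoidHom.toHomUnits
    { toFun := fun γ => r (A γ) / r (B γ)
      map_one' := by simpa using key' 1 1 1 (by simp)
      map_mul' := fun x y => by
        have := key' (x * y) (A x * A y) (B x * B y) (by
          change (x.1 : F) * y.1 * ((B x : F) * B y) = (A x : F) * A y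
          rw [← hAB, ← hAB]
          ring)
        rw [map_mul, map_mul] at this
        rw [div_mul_div_comm, eq_div_iff (mul_ne_zero (h0 (hB x)) (h0 (hB y))), this] }
  have hφ : ∀ γ, (φ γ : 𝓞 K ⧸ P) = r (A γ) / r (B γ) := fun _ => rfl
  have hs : ∀ (g : K ≃ₐ[F] K) (x : 𝓞 K), Ideal.Quotient.mk P (g • x) = Ideal.Quotient.mk P x :=
    fun g x => by
      obtain ⟨y, hy⟩ := hr (Ideal.Quotient.mk P x)
      have h1 : x - algebraMap _ _ y ∈ P := Ideal.Quotient.eq.1 hy.symm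
      have h2 : g • (x - algebraMap _ _ y) ∈ P := by
        rw [← t2 g]
        exact Ideal.mem_map_of_mem _ h1
      rw [smul_sub, show g • algebraMap (𝓞 F) (𝓞 K) y = algebraMap _ _ y from
        Subtype.ext (g.commutes _)] at h2
      exact (Ideal.Quotient.eq.2 h2).trans hy
  have hN : ∀ (γ : U) (δ : K) (a b : 𝓞 K), b ∉ P → Algebra.norm F δ = γ.1 → δ * b = a →
      φ γ ^ w = 1 := fun γ δ a b hb h1 h2 => by
    have h3 := key γ (∏ g : K ≃ₐ[F] K, g • a) (∏ g : K ≃ₐ[F] K, g • b) (by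
      rw [← h1, Algebra.norm_eq_prod_automorphisms]
      push_cast
      rw [← prod_mul_distrib]
      refine prod_congr rfl fun g _ => ?_
      change g δ * g b = g a
      rw [← map_mul, h2])
    simp only [map_prod, hs, prod_const, card_univ, Fintype.card_eq_nat_card,
      IsGalois.card_aut_eq_finrank] at h3
    have hb' : Ideal.Quotient.mk P b ≠ 0 := mt Ideal.Quotient.eq_zero_iff_mem.1 hb
    have ha' : Ideal.Quotient.mk P a ≠ 0 := fun e => by
      rw [e, zero_pow he.ne_zero] at h3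
      exact mul_ne_zero (φ γ).ne_zero (pow_ne_zero _ hb') h3
    have : φ γ = Units.mk0 _ (div_ne_zero ha' hb') ^ Module.finrank F K := Units.ext (by
      rw [Units.val_pow_eq_pow_val, Units.val_mk0, div_pow, eq_div_iff (pow_ne_zero _ hb'), hφ, h3])
    rw [this, ← pow_mul, ← hcard, pow_card_eq_one']
  refine ⟨(powMonoidHom w).comp φ, fun γ a b ha hb h => ?_, fun γ ⟨δ, hδ⟩ => ?_, ?_⟩
  · have h1 := key' γ a b h
    rw [show r a = 1 from Ideal.Quotient.eq.2 ha, show r b = 1 from Ideal.Quotient.eq.2 hb,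
      mul_one] at h1
    rw [MonoidHom.comp_apply, show φ γ = 1 from Units.ext h1, map_one]
  · obtain ⟨a, b, h | h⟩ := (⟨P, hP.isPrime, hP0⟩ :
      IsDedekindDomain.HeightOneSpectrum (𝓞 K)).exists_primeCompl_mul_eq_or_mul_eq δ
    · exact hN γ δ a b b.2 hδ h
    · have hδ0 : δ ≠ 0 := fun e => γ.1.ne_zero (by rw [← hδ, e, Algebra.norm_zero])
      have := hN γ⁻¹ δ⁻¹ a b b.2 (by rw [Algebra.norm_inv, hδ]; simp)
        (by rw [inv_mul_eq_iff_eq_mul₀ hδ0]; exact h.symm)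
      rwa [map_inv, inv_pow, inv_eq_one] at this
  · obtain ⟨x, hx⟩ := IsCyclic.exists_generator (α := (𝓞 K ⧸ P)ˣ)
    obtain ⟨x0, hx0⟩ := hr x
    have hn0 : Ideal.span {(n : 𝓞 F)} ≠ ⊥ := by
      rw [Ne, Ideal.span_singleton_eq_bot]; exact Nat.cast_ne_zero.2 hn
    obtain ⟨𝔪, h1, h2⟩ := Ideal.eq_prime_pow_mul_coprime hn0 p
    obtain ⟨u, hu, v, hv, huv⟩ := Ideal.isCoprime_iff_exists.1 (Ideal.isCoprime_iff_sup_eq.2 h1)
    have hru : r u = 0 := Ideal.Quotient.eq_zero_iff_mem.2 hu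
    have hg : r (x0 * v + u) = x := by
      have := congrArg r huv
      rw [map_add, hru, zero_add, map_one] at this
      rw [map_add, map_mul, hru, this, hx0, mul_one, add_zero]
    have hm : x0 * v + u - 1 ∈ 𝔪 := by
      rw [← huv, show x0 * v + u - (u + v) = (x0 - 1) * v by ring]
      exact 𝔪.mul_mem_left _ hv
    have hgp : x0 * v + u ∉ p := fun h => x.ne_zero (hg ▸ Ideal.Quotient.eq_zero_iff_mem.2 h)
    have hc : IsCoprime (x0 * v + u) n := by
      rw [← Ideal.isCoprime_span_singleton_iff, h2]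
      refine (IsCoprime.pow_right (Ideal.isCoprime_iff_sup_eq.2 ?_)).mul_right
        (Ideal.isCoprime_iff_exists.2 ⟨_, Ideal.mem_span_singleton_self _, _, neg_mem hm, by ring⟩)
      by_contra h
      exact hgp (hpm.eq_of_le h le_sup_right ▸
        Ideal.mem_sup_left (Ideal.mem_span_singleton_self _))
    have hg0 : ((x0 * v + u : 𝓞 F) : F) ≠ 0 := fun e =>
      hgp (RingOfIntegers.coe_eq_zero_iff.1 e ▸ p.zero_mem)
    have hgU : Units.mk0 _ hg0 ∈ U := (hU _).2 ⟨_, 1, hc, isCoprime_one_left, by simp⟩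
    refine ⟨⟨_, hgU⟩, _, rfl, ?_, fun Q hQ hnQ hne => ?_⟩
    · have h3 := key' ⟨_, hgU⟩ (x0 * v + u) 1 (by simp)
      rw [map_one, mul_one, hg] at h3
      have hw0 : w ≠ 0 := fun e => Nat.card_pos.ne' (by rw [hcard, e, mul_zero])
      rw [MonoidHom.comp_apply, show φ ⟨_, hgU⟩ = x from Units.ext h3, powMonoidHom_apply,
        orderOf_pow' _ hw0, orderOf_eq_card_of_forall_mem_zpowers hx, hcard,
        Nat.gcd_mul_left_left, Nat.mul_div_cancel _ (Nat.pos_of_ne_zero hw0)]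
    · have hq : (Q.comap (algebraMap (𝓞 F) (𝓞 K))).IsMaximal :=
        Ideal.isMaximal_comap_of_isIntegral_of_isMaximal Q
      have h3 : Ideal.span {(n : 𝓞 F)} ≤ Q.comap (algebraMap (𝓞 F) (𝓞 K)) :=
        (Ideal.span_singleton_le_iff_mem _).2 (by rwa [Ideal.mem_comap, map_natCast])
      rw [h2] at h3
      rcases hq.isPrime.mul_le.1 h3 with h | h
      · exact absurd (hpm.eq_of_le hq.ne_top (hq.isPrime.le_of_pow_le h)).symm hne
      · simpa using Ideal.mem_comap.1 (h hm)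

end U1b

theorem d_u1b (hT : S_Tame) : S_U1 := by
  intro F K _ _ _ _ _ _ n S U he hn hS hU
  choose θ h1 h2 γ a h3 h4 h5 using fun P : S =>
    U1b.loc hT he hn hU (hS _ P.2).1 (hS _ P.2).2.1 (hS _ P.2).2.2.1 (hS _ P.2).2.2.2
  have : ∀ P : S, Finite (𝓞 K ⧸ P.1) := fun P => Ideal.finiteQuotientOfFreeOfNeBot P.1 fun e =>
    hn (by have := (hS _ P.2).2.2.1; rw [e, Ideal.mem_bot] at this; exact_mod_cast this)
  have hne : ∀ P Q : S, P ≠ Q → θ Q (γ P) = 1 := fun P Q h =>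
    h1 Q _ (a P) 1 (h5 P Q (hS _ Q.2).1 (hS _ Q.2).2.2.1 fun e => h (Subtype.ext (by
      have t1 := (hT F K P he (hS _ P.2).1 (hS _ P.2).2.1).1
      rw [← e, (hT F K Q he (hS _ Q.2).1 (hS _ Q.2).2.1).1] at t1
      exact (pow_left_injective he.ne_zero t1).symm))) (by simp) (by simp [h3])
  refine ⟨(MonoidHom.pi θ).ker.map U.subtype, Subgroup.map_subtype_le _, ?_,
    fun γ hγ h => ⟨⟨γ, hγ⟩, funext fun P => h2 P _ h, rfl⟩, fun γ a b ha hb h => ?_⟩
  · rw [Subgroup.relIndex, Subgroup.subgroupOf, Subgroup.comap_map_eq_self_of_injective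
      U.subtype_injective, Subgroup.index_ker]
    refine le_trans (by simp) (Nat.card_le_card_of_injective
      (fun s : S → Fin (Module.finrank F K) =>
        (MonoidHom.pi θ).rangeRestrict (∏ P, γ P ^ (s P).1)) fun s t e => funext fun Q => ?_)
    have h6 : ∀ s : S → Fin (Module.finrank F K),
        θ Q (∏ P, γ P ^ (s P).1) = θ Q (γ Q) ^ (s Q).1 := fun s => by
      rw [map_prod, prod_eq_single Q (fun P _ h => by rw [map_pow, hne P Q h, one_pow]) (by simp),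
        map_pow]
    have h7 : θ Q (∏ P, γ P ^ (s P).1) = θ Q (∏ P, γ P ^ (t P).1) :=
      congrFun (congrArg Subtype.val e) Q
    rw [h6, h6] at h7
    exact Fin.ext (pow_injOn_Iio_orderOf (by simp [h4]) (by simp [h4]) h7)
  · have hc : ∀ {a : 𝓞 F}, (n : 𝓞 F) ∣ a - 1 → IsCoprime a n := fun ⟨c, hc⟩ =>
      ⟨1, -c, by linear_combination hc⟩
    have hm : ∀ (P : S) {a : 𝓞 F}, (n : 𝓞 F) ∣ a - 1 → algebraMap _ (𝓞 K) a - 1 ∈ P.1 :=
      fun P a ⟨c, hc⟩ => by
        rw [← map_one (algebraMap (𝓞 F) (𝓞 K)), ← map_sub, hc, map_mul, map_natCast]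
        exact P.1.mul_mem_right _ (hS _ P.2).2.2.1
    exact ⟨⟨γ, (hU γ).2 ⟨a, b, hc ha, hc hb, h⟩⟩,
      funext fun P => h1 P _ a b (hm P ha) (hm P hb) h, rfl⟩

end Pool.Agent.P.MP_b8021b_nt.VC
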