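import Pool.Agent.P.MP_b8021b_nt.VC.DHNP
import Pool.Agent.P.MP_b8021b_nt.VC.DHA
import Pool.Agent.P.MP_b8021b_nt.VC.DH1A
import Pool.Agent.P.MP_b8021b_nt.VC.DH1
import Pool.Agent.P.MP_b8021b_nt.VC.DNG
import Pool.Agent.P.MP_b8021b_nt.VC.DU1b

namespace Pool.Agent.P.MP_b8021b_nt.VC

theorem p_hNP (hTame : S_Tame) (hSec : S_Sec) : S_HNP :=
  d_hNP d_hA (d_h1 d_h1A) (d_nG hTame) (d_u1b hTame) hSec

end Pool.Agent.P.MP_b8021b_nt.VC
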