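import Pool.Agent.P.MP_b8021b_nt.VC.StT
import Pool.Agent.P.MP_b8021b_nt.VC.StA

/-! The value of a section lies in an ideal with the expected probability. -/

namespace Pool.Agent.P.MP_b8021b_nt.VC

open NumberField Finset Pool.Agent.P.MP_b8021b_nt.VE
open scoped Classical

theorem p_idD (hQF : S_QF) (hSEq : S_SEq) : S_IdD := by
  intro R _ _ p
  obtain ⟨C, hC, hS⟩ := hSEq R p
  refine ⟨C, hC, fun k _ _ _ K t L _ _ _ Φ S0 L₀ d 𝔞 hK ht hd hdL hcop hd𝔞 => ?_⟩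
  obtain ⟨-, -, -, -, -, -, hsp, -, -⟩ := hQF R p k K t L Φ hK ht
  have : NeZero d := ⟨by omega⟩
  have hc : IsCoprime (d : ℤ) (2 * p.r * t.2 * p.Gt t * p.Dt t) :=
    Int.isCoprime_iff_gcd_eq_one.2 hcop
  have hc1 : IsCoprime (d : ℤ) (p.Gt t * p.r) :=
    hc.of_isCoprime_of_dvd_right ⟨2 * t.2 * p.Dt t, by ring⟩
  have hc2 : IsCoprime (d : ℤ) (p.Mt t : ℤ) :=
    hc.of_isCoprime_of_dvd_right (Int.natAbs_dvd.2 ⟨t.2 * p.Gt t, by ring⟩)
  let π := Ideal.Quotient.mk 𝔞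
  have hd0 : ((d : ℤ) : 𝓞 L ⧸ 𝔞) = 0 := by
    rw [Int.cast_natCast, ← map_natCast π]
    exact Ideal.Quotient.eq_zero_iff_mem.2 hd𝔞
  let ι : ZMod d →+ 𝓞 L ⧸ 𝔞 := ZMod.lift d ⟨Int.castAddHom _, hd0⟩
  have hι : ∀ a : ℤ, ι a = a := fun a => ZMod.lift_coe d _ a
  let f : (Fin p.e → ZMod d) × (Fin p.e → ZMod d) →+ 𝓞 L ⧸ 𝔞 := AddMonoidHom.mk'
    (fun x => ∑ i, (ι (x.1 i) + ι (x.2 i) * π (K.om L)) * π (Φ.η i)) fun x y => by
      rw [← sum_add_distrib]
      refine sum_congr rfl fun i _ => ?_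
      simp only [Prod.fst_add, Prod.snd_add, Pi.add_apply, map_add]
      ring
  have hf : ∀ g c : Fin p.e → ℤ, f (fun i => (g i : ZMod d), fun i => (c i : ZMod d)) =
      π (∑ i, ((g i : 𝓞 L) + (c i : 𝓞 L) * K.om L) * Φ.η i) := fun g c => by
    simp only [f, AddMonoidHom.mk'_apply, hι, map_sum, map_mul, map_add, map_intCast]
  have hsurj : Function.Surjective f := by
    intro b
    obtain ⟨β, rfl⟩ := Ideal.Quotient.mk_surjective b
    obtain ⟨u, v, huv⟩ := hc2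
    obtain ⟨g, c, h⟩ := hsp (v * β)
    refine ⟨(fun i => (g i : ZMod d), fun i => (c i : ZMod d)), ?_⟩
    have h1 := congrArg (Int.cast : ℤ → 𝓞 L ⧸ 𝔞) huv
    rw [Int.cast_add, Int.cast_mul, Int.cast_mul, hd0, Int.cast_natCast, Int.cast_one] at h1
    rw [hf, ← h, map_mul, map_mul, map_natCast, map_intCast]
    linear_combination (π β) * h1
  have hcard : ((univ.filter fun x => f x = 0).card : ℝ) * Ideal.absNorm 𝔞 =
      (d : ℝ) ^ (2 * p.e) := by
    have h1 := f.ker.card_mul_index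
    rw [AddSubgroup.index_ker, AddMonoidHom.range_eq_top.2 hsurj, AddSubgroup.card_top] at h1
    have h2 : Nat.card f.ker = (univ.filter fun x => f x = 0).card := by
      rw [← Fintype.card_subtype, ← Nat.card_eq_fintype_card]
      rfl
    have h3 : Nat.card ((Fin p.e → ZMod d) × (Fin p.e → ZMod d)) = d ^ (2 * p.e) := by
      simp [two_mul, pow_add]
    rw [h2, h3] at h1
    exact_mod_cast h1
  have h := (hS S0 L₀ d hd hdL).2.2 t (univ.filter fun x => f x = 0) hc1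
  have e : ∀ s : p.Co, ((fun i => (p.gt s t i : ZMod d), fun i => (p.ct s t i : ZMod d)) ∈
      univ.filter fun x => f x = 0) ↔ Φ.al K s ∈ 𝔞 := fun s => by
    rw [mem_filter, hf, and_iff_right (mem_univ _)]
    exact Ideal.Quotient.eq_zero_iff_mem
  simp only [e] at h
  have hp : (0 : ℝ) < (d : ℝ) ^ (2 * p.e) := by positivity
  have h1 : ((univ.filter fun x => f x = 0).card : ℝ) / (d : ℝ) ^ (2 * p.e) * Ideal.absNorm 𝔞
      = 1 := by
    rw [div_mul_eq_mul_div, hcard, div_self hp.ne']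
  have h2 := mul_le_mul_of_nonneg_right h (Nat.cast_nonneg (α := ℝ) (Ideal.absNorm 𝔞))
  rw [mul_assoc, h1, mul_one, ← Nat.abs_cast (R := ℝ) (Ideal.absNorm 𝔞), ← abs_mul, sub_mul,
    h1] at h2
  exact h2

end Pool.Agent.P.MP_b8021b_nt.VC
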