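import Pool.Agent.P.MP_b8021b_nt.VC.StC

/-! Growth at infinity. -/

namespace Pool.Agent.P.MP_b8021b_nt.VC

open Polynomial Finset

namespace Inf

theorem norm_aeval_le {F Ω : Type} [Field F] [NormedField Ω] [Algebra F Ω] (c : F[X]) (x : Ω) :
    ‖aeval x c‖ ≤ (∑ i ∈ range (c.natDegree + 1), ‖algebraMap F Ω (c.coeff i)‖) *
      max 1 ‖x‖ ^ c.natDegree := by
  rw [aeval_eq_sum_range, sum_mul]
  refine (norm_sum_le _ _).trans (sum_le_sum fun i hi => ?_)
  rw [Algebra.smul_def, norm_mul, norm_pow]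
  refine mul_le_mul_of_nonneg_left ?_ (norm_nonneg _)
  exact (pow_le_pow_left₀ (norm_nonneg _) (le_max_right _ _) i).trans
    (pow_le_pow_right₀ (le_max_left _ _) (Nat.lt_succ_iff.1 (mem_range.1 hi)))

theorem root_le {e : ℕ} (he : 0 < e) {K : ℕ → ℝ} (hK : ∀ l, 0 ≤ K l) {t x : ℝ} (ht : 0 < t)
    (h : x ^ e ≤ ∑ l ∈ range e, K l * t ^ (e - l) * x ^ l) :
    x ≤ (1 + ∑ l ∈ range e, K l) * t := by
  by_contra hlt
  rw [not_le] at hlt
  have hS : 0 ≤ ∑ l ∈ range e, K l := sum_nonneg fun l _ => hK l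
  have htx : t ≤ x := by nlinarith
  have hx : 0 < x := ht.trans_le htx
  obtain ⟨d, rfl⟩ : ∃ d, e = d + 1 := ⟨e - 1, by omega⟩
  have h2 : ∑ l ∈ range (d + 1), K l * t ^ (d + 1 - l) * x ^ l ≤
      (∑ l ∈ range (d + 1), K l) * t * x ^ d := by
    rw [sum_mul, sum_mul]
    refine sum_le_sum fun l hl => ?_
    have hl' : l ≤ d := Nat.lt_succ_iff.1 (mem_range.1 hl)
    rw [mul_assoc, mul_assoc]
    refine mul_le_mul_of_nonneg_left ?_ (hK l)
    rw [show d + 1 - l = (d - l) + 1 by omega, pow_succ', mul_assoc]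
    refine mul_le_mul_of_nonneg_left ?_ ht.le
    calc t ^ (d - l) * x ^ l ≤ x ^ (d - l) * x ^ l :=
          mul_le_mul_of_nonneg_right (pow_le_pow_left₀ ht.le htx _) (pow_nonneg hx.le _)
      _ = x ^ d := by rw [← pow_add, Nat.sub_add_cancel hl']
  have h3 := h.trans h2
  rw [pow_succ'] at h3
  have h4 := le_of_mul_le_mul_right h3 (pow_pos hx d)
  nlinarith

end Inf

theorem p_inf (hN : S_Nrm) : S_Inf := by
  intro F A Ω _ _ _ _ _ _ cv s h hs
  obtain ⟨M, -, -, hdeg, hroot, -⟩ := hN F A cv s hs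
  have hmon : (M h).charpoly.Monic := Matrix.charpoly_monic _
  have hnd : (M h).charpoly.natDegree = cv.δ s := by
    rw [Matrix.charpoly_natDegree_eq_dim, Fintype.card_fin]
  replace hdeg := hdeg h
  replace hroot := hroot h
  generalize (M h).charpoly = χ at hmon hnd hdeg hroot
  clear M
  generalize cv.δ s = e at hs hnd hdeg ⊢
  let K : ℕ → ℝ := fun l =>
    ∑ i ∈ range ((χ.coeff l).natDegree + 1), ‖algebraMap F Ω ((χ.coeff l).coeff i)‖
  have hK : ∀ l, 0 ≤ K l := fun l => sum_nonneg fun i _ => norm_nonneg _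
  have hS : 0 < 1 + ∑ l ∈ range e, K l := by
    have : 0 ≤ ∑ l ∈ range e, K l := sum_nonneg fun l _ => hK l
    linarith
  refine ⟨(1 + ∑ l ∈ range e, K l) ^ e, pow_pos hS _, fun P => ?_⟩
  set m := max 1 ‖P s‖ with hm
  have hm1 : 1 ≤ m := le_max_left _ _
  have hm0 : 0 < m := by linarith
  obtain ⟨t, ht0, ht⟩ : ∃ t : ℝ, 0 < t ∧ t ^ e = m ^ cv.δ h :=
    ⟨(m ^ cv.δ h) ^ ((e : ℝ)⁻¹), Real.rpow_pos_of_pos (pow_pos hm0 _) _,
      Real.rpow_inv_natCast_pow (pow_nonneg hm0.le _) hs.ne'⟩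
  have h1 : P h ^ e = -∑ l ∈ range e, aeval (P s) (χ.coeff l) * P h ^ l := by
    have h2 := congrArg P hroot
    rw [eval₂_eq_sum_range, hnd, sum_range_succ, map_add, map_sum, map_zero,
      show χ.coeff e = 1 by rw [← hnd]; exact hmon] at h2
    simp only [map_mul, map_pow, map_one, one_mul, AlgHom.toRingHom_eq_coe, RingHom.coe_coe,
      ← aeval_algHom_apply] at h2
    exact eq_neg_of_add_eq_zero_right h2
  have h2 : ‖P h‖ ^ e ≤ ∑ l ∈ range e, K l * t ^ (e - l) * ‖P h‖ ^ l := by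
    rw [← norm_pow, h1, norm_neg]
    refine (norm_sum_le _ _).trans (sum_le_sum fun l _ => ?_)
    rw [norm_mul, norm_pow]
    refine mul_le_mul_of_nonneg_right ?_ (pow_nonneg (norm_nonneg _) _)
    by_cases h0 : χ.coeff l = 0
    · rw [h0, map_zero, norm_zero]
      exact mul_nonneg (hK l) (pow_nonneg ht0.le _)
    refine (Inf.norm_aeval_le _ _).trans (mul_le_mul_of_nonneg_left ?_ (hK l))
    refine le_of_pow_le_pow_left₀ hs.ne' (pow_nonneg ht0.le _) ?_
    rw [← pow_mul, ← pow_mul, mul_comm (e - l), pow_mul t, ht, ← pow_mul]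
    refine pow_le_pow_right₀ hm1 ?_
    have := hdeg l h0
    rw [mul_comm, mul_comm (cv.δ h)]
    exact this
  have h3 := Inf.root_le hs hK ht0 h2
  calc ‖P h‖ ^ e ≤ ((1 + ∑ l ∈ range e, K l) * t) ^ e := pow_le_pow_left₀ (norm_nonneg _) h3 _
    _ = _ := by rw [mul_pow, ht]

end Pool.Agent.P.MP_b8021b_nt.VC
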