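import Pool.Agent.P.MP_b8021b_nt.VC.PDescS

/-! An approximate form of Hilbert's theorem 90. -/

namespace Pool.Agent.P.MP_b8021b_nt.VC

open Polynomial NumberField Finset Pool.Agent.P.MP_b8021b_nt.VE
open scoped Classical Pointwise

namespace DL90

theorem loc {R : Type} [CommRing R] [IsDedekindDomain R] {p : Ideal R} (hp : p.IsPrime) {y : R}
    (hy : y ≠ 0) : ∃ (a : ℕ) (b : Ideal R), ¬ b ≤ p ∧ Ideal.span {y} = p ^ a * b := by
  obtain ⟨a, b, h1, h2⟩ := WfDvdMonoid.max_power_factor' (a₀ := Ideal.span {y}) (x := p)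
    (by simpa using hy) (by simpa using hp.ne_top)
  exact ⟨a, b, fun h => h1 (Ideal.dvd_iff_le.2 h), h2⟩

theorem pick {R ι : Type} [CommRing R] [IsDedekindDomain R] {p : Ideal R} (hp : p.IsPrime)
    (hp0 : p ≠ ⊥) {n : R} (hn : n ≠ 0) (s : Finset ι) (β c : ι → R) (h : n = ∑ j ∈ s, β j * c j) :
    ∃ j, ∃ T, T ∉ p ∧ c j ∣ T * n := by
  obtain ⟨a, b, h1, h2⟩ := loc hp hn
  have h3 : ∃ j ∈ s, c j ∉ p ^ (a + 1) := by
    by_contra hc
    push Not at hc
    have h4 : n ∈ p ^ (a + 1) := h ▸ sum_mem fun j hj => Ideal.mul_mem_left _ _ (hc j hj)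
    rw [← Ideal.span_singleton_le_iff_mem, h2, ← Ideal.dvd_iff_le, pow_succ,
      mul_dvd_mul_iff_left (pow_ne_zero _ hp0), Ideal.dvd_iff_le] at h4
    exact h1 h4
  obtain ⟨j, -, hj⟩ := h3
  obtain ⟨a', b', h4, h5⟩ := loc hp (y := c j) fun h => hj (h ▸ zero_mem _)
  have h6 : a' ≤ a := by
    by_contra hc
    refine hj ((Ideal.span_singleton_le_iff_mem _).1 ?_)
    rw [h5]
    exact Ideal.mul_le_left.trans (Ideal.pow_le_pow_right (Nat.succ_le_of_lt (not_le.1 hc)))
  obtain ⟨T, h7, h8⟩ := Set.not_subset.1 h4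
  refine ⟨j, T, h8, Ideal.mem_span_singleton.1 ?_⟩
  rw [h5, mul_comm T]
  refine Ideal.mul_mem_mul (Ideal.pow_le_pow_right h6 ?_) h7
  have h9 := Ideal.mem_span_singleton_self n
  rw [h2] at h9
  exact Ideal.mul_le_left h9

theorem core {R S G ι : Type} [CommRing R] [IsDedekindDomain R] [CommRing S] [IsDedekindDomain S]
    [Algebra R S] [FaithfulSMul R S] [Algebra.IsIntegral R S] [Group G] [Finite G]
    [MulSemiringAction G S] [Algebra.IsInvariant R S G] [SMulCommClass G R S] {n : R}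
    (hn : n ≠ 0) (c : S →ₗ[R] S)
    (hinv : ∀ (x : S) (g : G), g • c x ∈ Ideal.span {c x, algebraMap R S n ^ 2})
    (s : Finset ι) (β x : ι → S) (h : algebraMap R S n = ∑ j ∈ s, β j * c (x j)) :
    ∃ x, algebraMap R S n ∈ Ideal.span {c x, algebraMap R S n ^ 2} := by
  have hn' : algebraMap R S n ≠ 0 := by simpa using hn
  have h1 : ∀ p : Ideal R, p.IsPrime → n ∈ p → ∃ x, ∃ t, t ∉ p ∧
      algebraMap R S t * algebraMap R S n ∈ Ideal.span {c x, algebraMap R S n ^ 2} := by
    intro p hp hnp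
    obtain ⟨𝔓, -, h2, h3⟩ := Ideal.exists_ideal_over_prime_of_isIntegral (S := S) p ⊥ (by
      rw [← RingHom.ker_eq_comap_bot, (RingHom.injective_iff_ker_eq_bot _).1
        (FaithfulSMul.algebraMap_injective R S)]
      exact bot_le)
    have h4 : 𝔓 ≠ ⊥ := fun h => hn' (by
      rw [← h3, h] at hnp
      exact hnp)
    obtain ⟨j, T, h5, h6⟩ := pick h2 h4 hn' s β (fun j => c (x j)) h
    refine ⟨x j, ?_⟩
    by_contra hc
    push Not at hc
    obtain ⟨𝔔, h7, h8, h9⟩ := Ideal.exists_ideal_over_prime_of_isIntegral (S := S) p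
      (Submodule.comap (LinearMap.toSpanSingleton S S (algebraMap R S n))
        (Ideal.span {c (x j), algebraMap R S n ^ 2})) fun t ht => by
      by_contra ht'
      exact hc t ht' ht
    obtain ⟨g, hg⟩ := Algebra.IsInvariant.exists_smul_of_under_eq R S G 𝔓 𝔔 (h3.trans h9.symm)
    refine h5 ((Ideal.smul_mem_pointwise_smul_iff (a := g)).1 (hg ▸ h7 ?_))
    obtain ⟨u, hu⟩ := h6
    show (g • T) * algebraMap R S n ∈ Ideal.span {c (x j), algebraMap R S n ^ 2}
    rw [← smul_algebraMap g n, ← smul_mul', hu, smul_mul', smul_algebraMap]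
    exact Ideal.mul_mem_right _ _ (hinv _ g)
  have h2 : ∀ p : Ideal R, p.IsMaximal → ∃ ε, ε ∉ p ∧ ∀ q : Ideal R, q.IsPrime → q ≠ p →
      ∃ t, t ∉ q ∧ n ^ 2 ∣ t * ε := by
    intro p hp
    obtain ⟨a, b, h3, h4⟩ := loc hp.isPrime (pow_ne_zero 2 hn)
    obtain ⟨ε, h5, h6⟩ := Set.not_subset.1 h3
    refine ⟨ε, h6, fun q hq hqp => ?_⟩
    have h7 : ¬ p ^ a ≤ q := fun h =>
      hqp (hp.eq_of_le hq.ne_top (Ideal.IsPrime.le_of_pow_le h)).symm
    obtain ⟨t, h8, h9⟩ := Set.not_subset.1 h7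
    exact ⟨t, h9, Ideal.mem_span_singleton.1 (h4 ▸ Ideal.mul_mem_mul h8 h5)⟩
  choose! X t ht1 ht2 using h1
  choose! ε hε1 τ hτ1 hτ2 using h2
  have h0 : Ideal.span {n} ≠ ⊥ := by simpa using hn
  set Z := (UniqueFactorizationMonoid.normalizedFactors (Ideal.span {n})).toFinset with hZ
  have hmem : ∀ p, p ∈ Z ↔ p.IsPrime ∧ n ∈ p := fun p => by
    rw [hZ, Multiset.mem_toFinset, Ideal.mem_normalizedFactors_iff h0,
      Ideal.span_singleton_le_iff_mem]
  have hmax : ∀ p ∈ Z, p.IsMaximal := fun p hp =>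
    ((hmem p).1 hp).1.isMaximal fun h => hn (by simpa [h] using ((hmem p).1 hp).2)
  refine ⟨∑ p ∈ Z, ε p • X p, ?_⟩
  set C := Ideal.span {c (∑ p ∈ Z, ε p • X p), algebraMap R S n ^ 2} with hC
  have hC1 : c (∑ p ∈ Z, ε p • X p) ∈ C := Ideal.subset_span (by simp)
  have hC2 : algebraMap R S n ^ 2 ∈ C := Ideal.subset_span (by simp)
  have h3 : Ideal.comap (algebraMap R S)
      (Submodule.comap (LinearMap.toSpanSingleton S S (algebraMap R S n)) C) = ⊤ := by
    by_contra hc
    obtain ⟨p, hp, h4⟩ := Ideal.exists_le_maximal _ hc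
    have hnp : n ∈ p := h4 (show algebraMap R S n * algebraMap R S n ∈ C from
      sq (algebraMap R S n) ▸ hC2)
    have hpZ : p ∈ Z := (hmem p).2 ⟨hp.isPrime, hnp⟩
    have h5 : ∏ q ∈ Z.erase p, τ q p ∉ p := fun h => by
      have := hp.isPrime
      obtain ⟨q, hq, h6⟩ := Ideal.IsPrime.prod_mem_iff.1 h
      exact hτ1 q (hmax q (mem_of_mem_erase hq)) p this (ne_of_mem_erase hq).symm h6
    have h6 : algebraMap R S ((∏ q ∈ Z.erase p, τ q p) * ε p) * c (X p) ∈ C := by
      have h7 := C.mul_mem_left (algebraMap R S (∏ q ∈ Z.erase p, τ q p)) hC1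
      rw [← add_sum_erase _ _ hpZ, map_add, mul_add, map_sum, mul_sum] at h7
      have h8 := (Ideal.add_mem_iff_left C (sum_mem fun q hq => ?_)).1 h7
      · rwa [map_smul, Algebra.smul_def, ← mul_assoc, ← map_mul] at h8
      · obtain ⟨w, hw⟩ := (hτ2 q (hmax q (mem_of_mem_erase hq)) p hp.isPrime
          (ne_of_mem_erase hq).symm).trans
            (mul_dvd_mul_right (dvd_prod_of_mem (fun q => τ q p) hq) _)
        rw [map_smul, Algebra.smul_def, ← mul_assoc, ← map_mul, hw, map_mul, map_pow, mul_assoc]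
        exact C.mul_mem_right _ hC2
    obtain ⟨u, y, huy⟩ := Ideal.mem_span_pair.1 (ht2 p hp.isPrime hnp)
    have h7 : (∏ q ∈ Z.erase p, τ q p) * ε p * t p ∈ p := h4 (by
      show algebraMap R S _ * algebraMap R S n ∈ C
      rw [map_mul _ _ (t p), mul_assoc, ← huy, mul_add, mul_left_comm]
      exact add_mem (C.mul_mem_left _ h6) (C.mul_mem_left _ (C.mul_mem_left _ hC2)))
    rcases hp.isPrime.mem_or_mem h7 with h8 | h8
    · exact (hp.isPrime.mem_or_mem h8).elim h5 (hε1 p hp)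
    · exact ht1 p hp.isPrime hnp h8
  have h4 : algebraMap R S 1 * algebraMap R S n ∈ C := (Ideal.eq_top_iff_one _).1 h3
  rwa [map_one, one_mul] at h4

section

variable {R S G : Type} [CommRing R] [CommRing S] [Algebra R S] [Group G] [MulSemiringAction G S]
  [SMulCommClass G R S]

/-- the resolvent -/
def res (R : Type) {S G : Type} [CommRing R] [CommRing S] [Algebra R S] [Group G]
    [MulSemiringAction G S] [SMulCommClass G R S] (s : G) (e : ℕ) (d : S) : S →ₗ[R] S where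
  toFun x := ∑ i ∈ range e, (∏ l ∈ range i, s ^ l • d) * s ^ i • x
  map_add' x y := by simp only [smul_add, mul_add, sum_add_distrib]
  map_smul' r x := by
    simp only [RingHom.id_apply, smul_sum, smul_comm _ r x, mul_smul_comm]

theorem res_apply (s : G) (e : ℕ) (d x : S) :
    res R s e d x = ∑ i ∈ range e, (∏ l ∈ range i, s ^ l • d) * s ^ i • x := rfl

theorem res_step {s : G} {e : ℕ} (hs : s ^ e = 1) (d x : S) :
    d * s • res R s e d x = res R s e d x + ((∏ l ∈ range e, s ^ l • d) - 1) * x := by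
  have h1 := sum_range_succ (fun i => (∏ l ∈ range i, s ^ l • d) * s ^ i • x) e
  rw [sum_range_succ', hs, ← res_apply (R := R)] at h1
  have h2 : d * s • res R s e d x =
      ∑ i ∈ range e, (∏ l ∈ range (i + 1), s ^ l • d) * s ^ (i + 1) • x := by
    rw [res_apply, smul_sum, mul_sum]
    refine sum_congr rfl fun i _ => ?_
    rw [prod_range_succ', smul_mul', smul_prod', pow_zero, one_smul]
    simp only [pow_succ', mul_smul]
    ring
  simp only [range_zero, prod_empty, pow_zero, one_smul] at h1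
  rw [h2]
  linear_combination h1

theorem res_inv {s : G} {e : ℕ} (he : 0 < e) (hs : s ^ e = 1) {d N z : S} (hN : s • N = N)
    (hd : ∏ l ∈ range e, s ^ l • d = 1 + N * z) (x : S) (i : ℕ) :
    s ^ i • res R s e d x ∈ Ideal.span {res R s e d x, N} := by
  have h1 : s • res R s e d x ∈ Ideal.span {res R s e d x, N} := by
    have h2 := res_step (R := R) hs d x
    obtain ⟨e, rfl⟩ := Nat.exists_eq_succ_of_ne_zero he.ne'
    rw [hd] at h2
    rw [prod_range_succ', pow_zero, one_smul] at hd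
    refine Ideal.mem_span_pair.2 ⟨∏ k ∈ range e, s ^ (k + 1) • d,
      (∏ k ∈ range e, s ^ (k + 1) • d) * z * x - z * s • res R s (e + 1) d x, ?_⟩
    linear_combination (s • res R s (e + 1) d x) * hd - (∏ k ∈ range e, s ^ (k + 1) • d) * h2
  induction i with
  | zero => exact Ideal.subset_span (by simp)
  | succ i ih =>
    obtain ⟨u, y, h⟩ := Ideal.mem_span_pair.1 ih
    rw [pow_succ', mul_smul, ← h, smul_add, smul_mul', smul_mul', hN]
    exact add_mem (Ideal.mul_mem_left _ _ h1)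
      (Ideal.mul_mem_left _ _ (Ideal.subset_span (by simp)))

theorem res_lagrange [IsDomain S] {s : G} {e : ℕ} (he : 0 < e) (d : S) {θ : S} {P : ℤ[X]}
    (hP : aeval θ P = 0) (hθ : ∀ i, 0 < i → i < e → s ^ i • θ ≠ θ) :
    ∃ (m : ℕ) (β : ℕ → S), aeval θ (derivative P) = ∑ j ∈ range m, β j * res R s e d (θ ^ j) := by
  have h1 : (X - C θ) * (P.map (algebraMap ℤ S) /ₘ (X - C θ)) = P.map (algebraMap ℤ S) :=
    mul_divByMonic_eq_iff_isRoot.2 (by rw [IsRoot, eval_map_algebraMap, hP])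
  generalize P.map (algebraMap ℤ S) /ₘ (X - C θ) = Q at h1
  refine ⟨Q.natDegree + 1, Q.coeff, ?_⟩
  have h2 : ∑ j ∈ range (Q.natDegree + 1), Q.coeff j * res R s e d (θ ^ j) =
      ∑ i ∈ range e, (∏ l ∈ range i, s ^ l • d) * Q.eval (s ^ i • θ) := by
    simp only [res_apply, mul_sum, eval_eq_sum_range, smul_pow']
    rw [sum_comm]
    exact sum_congr rfl fun i _ => sum_congr rfl fun j _ => by ring
  rw [h2, sum_eq_single_of_mem 0 (mem_range.2 he)]
  · rw [← eval_map_algebraMap, ← derivative_map, ← h1]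
    simp
  · intro i hi hi0
    have h3 := congrArg (eval (s ^ i • θ)) h1
    rw [eval_mul, eval_map_algebraMap, eval_sub, eval_X, eval_C,
      show aeval (s ^ i • θ) P = 0 from by
        rw [← MulSemiringAction.toAlgHom_apply ℤ, aeval_algHom_apply, hP, map_zero]] at h3
    rw [(mul_eq_zero.1 h3).resolve_left
      (sub_ne_zero.2 (hθ i (Nat.pos_of_ne_zero hi0) (mem_range.1 hi))), mul_zero]

end

end DL90

theorem d_l90 : S_L90 := by
  intro F K _ _ _ _ _ _ P M n θ d z he hP _ hθ hadj hM hMn hn hd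
  have := Fact.mk he
  have hcard := IsGalois.card_aut_eq_finrank F K
  have : Nontrivial (K ≃ₐ[F] K) := Finite.one_lt_card_iff_nontrivial.1 (hcard ▸ he.one_lt)
  obtain ⟨s, hs1⟩ := exists_ne (1 : K ≃ₐ[F] K)
  have hz : ∀ g, g ∈ Subgroup.zpowers s := fun g => mem_zpowers_of_prime_card hcard hs1
  have hord : orderOf s = Module.finrank F K := (orderOf_eq_card_of_forall_mem_zpowers hz).trans hcard
  have hs : s ^ Module.finrank F K = 1 := hord ▸ pow_orderOf_eq_one s
  have hinj := RingOfIntegers.coe_injective (K := K)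
  have hact : ∀ (g : K ≃ₐ[F] K) (x : 𝓞 K),
      algebraMap (𝓞 K) K (g • x) = g (algebraMap (𝓞 K) K x) := fun _ _ => rfl
  have hd' : ∏ l ∈ range (Module.finrank F K), s ^ l • d =
      1 + (n : 𝓞 K) ^ 2 * algebraMap (𝓞 F) (𝓞 K) z := by
    have h1 := congrArg (algebraMap F K) hd
    rw [Algebra.norm_eq_prod_automorphisms, ← IsCyclic.image_range_orderOf hz,
      prod_image (fun i hi j hj h => pow_injOn_Iio_orderOf (mem_range.1 hi) (mem_range.1 hj) h),
      hord] at h1
    refine hinj ?_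
    rw [map_prod, map_add, map_mul, map_pow, map_one, map_natCast, ← IsScalarTower.algebraMap_apply,
      IsScalarTower.algebraMap_apply (𝓞 F) F K]
    rw [map_add, map_mul, map_pow, map_one, map_natCast] at h1
    exact h1
  obtain ⟨θ', rfl⟩ : ∃ θ' : 𝓞 K, algebraMap (𝓞 K) K θ' = θ := ⟨⟨θ, P, hP, hθ⟩, rfl⟩
  have hθ' : aeval θ' P = 0 := hinj (by rw [← aeval_algebraMap_apply, hθ, map_zero])
  obtain ⟨m, β, hβ⟩ := DL90.res_lagrange (R := 𝓞 F) (s := s) he.pos d hθ' fun i hi0 hi h => by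
    have h1 : ((s ^ i : K ≃ₐ[F] K) : K →ₐ[F] K) = (1 : K ≃ₐ[F] K) :=
      AlgHom.ext_of_adjoin_eq_top hadj fun x hx => by
        rw [Set.mem_singleton_iff.1 hx]
        exact congrArg (algebraMap (𝓞 K) K) h
    have h2 : s ^ i = 1 := AlgEquiv.coe_toAlgHom_injective h1
    exact absurd (Nat.le_of_dvd hi0 (orderOf_dvd_of_pow_eq_one h2)) (by omega)
  obtain ⟨a, b, hab⟩ := hM
  obtain ⟨q, hq⟩ := hMn
  have hn0 : (n : 𝓞 F) ≠ 0 := Nat.cast_ne_zero.2 (by omega)
  obtain ⟨x, hx⟩ := DL90.core (G := K ≃ₐ[F] K) hn0 (DL90.res (𝓞 F) s (Module.finrank F K) d)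
    (fun x g => by
      obtain ⟨i, rfl⟩ := mem_powers_of_prime_card (g' := g) hcard hs1
      refine DL90.res_inv he.pos hs ?_ (by rw [map_natCast]; exact hd') x i
      rw [← map_pow, smul_algebraMap])
    (range m) (fun j => q * aeval θ' b * β j) (fun j => θ' ^ j) (by
      have h1 := congrArg (aeval θ') hab
      rw [map_add, map_mul, map_mul, hθ', mul_zero, zero_add, aeval_C, hβ] at h1
      simp only [mul_assoc, ← mul_sum]
      rw [h1, hq]
      simp [mul_comm])
  have h1 := DL90.res_step (R := 𝓞 F) hs d x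
  rw [map_natCast] at hx
  generalize DL90.res (𝓞 F) s (Module.finrank F K) d x = c at hx h1
  obtain ⟨u, y, huy⟩ := Ideal.mem_span_pair.1 hx
  rw [hd'] at h1
  generalize algebraMap (𝓞 F) (𝓞 K) z = z' at h1
  have hc : algebraMap (𝓞 K) K c ≠ 0 := fun h => by
    have h2 : c = 0 := hinj (h.trans (map_zero _).symm)
    have h3 : (n : 𝓞 K) * (n * y - 1) = 0 := by
      rw [h2] at huy
      linear_combination huy
    have h4 := sub_eq_zero.1 ((mul_eq_zero.1 h3).resolve_left (Nat.cast_ne_zero.2 (by omega)))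
    have h5 := (IsUnit.of_mul_eq_one _ h4).map (Algebra.norm ℤ)
    rw [← map_natCast (algebraMap ℤ (𝓞 K)),
      Algebra.norm_algebraMap_of_basis (RingOfIntegers.basis K),
      isUnit_pow_iff Fintype.card_ne_zero, Int.isUnit_iff] at h5
    omega
  refine ⟨1 - n * y + n * z' * x * u, 1 - n * y, ⟨z' * x * u - y, by ring⟩, ⟨-y, by ring⟩, ?_⟩
  have h2 : d * s • c * (1 - n * y) = c * (1 - n * y + n * z' * x * u) := by
    linear_combination (1 - n * y) * h1 - n * z' * x * huy
  have h3 := congrArg (fun t => Algebra.norm F (algebraMap (𝓞 K) K t)) h2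
  simp only [map_mul _ (d * s • c), map_mul _ d, map_mul _ c, hact] at h3
  simp only [map_mul (Algebra.norm F), Algebra.norm_eq_of_algEquiv] at h3
  refine mul_left_cancel₀ (Algebra.norm_ne_zero_iff.2 hc : Algebra.norm F _ ≠ 0) ?_
  rw [← mul_assoc, mul_comm (Algebra.norm F _) (Algebra.norm F (d : K))]
  exact h3

end Pool.Agent.P.MP_b8021b_nt.VC
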