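import Pool.Agent.P.MP_b8021b_nt.VC.PDescS

/-! A norm that is prime to `n` is the norm of an element prime to `n`. -/

namespace Pool.Agent.P.MP_b8021b_nt.VC

open Polynomial NumberField Finset UniqueFactorizationMonoid
open scoped Classical Pointwise

namespace Un

variable {R G : Type} [CommRing R] [IsDedekindDomain R] [Group G] [Fintype G]
  [MulSemiringAction G R]

/-- the product of the conjugates -/
def Nm (G : Type) {R : Type} [CommRing R] [Group G] [Fintype G] [MulSemiringAction G R] (x : R) :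
    R := ∏ g : G, g • x

omit [IsDedekindDomain R] in
theorem Nm_mul (x y : R) : Nm G (x * y) = Nm G x * Nm G y := by
  simp [Nm, smul_mul', prod_mul_distrib]

omit [IsDedekindDomain R] in
theorem Nm_smul (h : G) (x : R) : Nm G (h • x) = Nm G x := by
  simp only [Nm, ← mul_smul]
  exact Equiv.prod_comp (Equiv.mulRight h) (fun g => g • x)

omit [IsDedekindDomain R] in
theorem dvd_Nm (x : R) : x ∣ Nm G x := by
  have := Finset.dvd_prod_of_mem (fun g : G => g • x) (Finset.mem_univ 1)
  rwa [one_smul] at this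

theorem Nm_ne_zero {x : R} (hx : x ≠ 0) : Nm G x ≠ 0 :=
  Finset.prod_ne_zero_iff.2 fun g _ h => hx ((smul_eq_zero_iff_eq g).1 h)

omit [IsDedekindDomain R] in
theorem not_mem_of_coprime {P : Ideal R} (hP : P.IsPrime) {a n : R} (h : IsCoprime a n)
    (hn : n ∈ P) : a ∉ P := by
  intro ha
  obtain ⟨u, v, huv⟩ := h
  exact hP.ne_top ((Ideal.eq_top_iff_one _).2
    (huv ▸ P.add_mem (P.mul_mem_left _ ha) (P.mul_mem_left _ hn)))

omit [IsDedekindDomain R] in
theorem exists_prime_of_not_coprime {a n : R} (h : ¬ IsCoprime a n) :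
    ∃ P : Ideal R, P.IsPrime ∧ a ∈ P ∧ n ∈ P := by
  have h1 : Ideal.span {a, n} ≠ ⊤ := fun e => by
    obtain ⟨u, v, huv⟩ := Ideal.mem_span_pair.1 ((Ideal.eq_top_iff_one _).1 e)
    exact h ⟨u, v, huv⟩
  obtain ⟨P, hP, hle⟩ := Ideal.exists_le_maximal _ h1
  exact ⟨P, hP.isPrime, hle (Ideal.subset_span (by simp)), hle (Ideal.subset_span (by simp))⟩

omit [IsDedekindDomain R] in
theorem move {P : Ideal R} (hP : P.IsPrime) {x y α β n : R} (hβ : IsCoprime β n) (hn : n ∈ P)
    (hx : x ∈ P) (h : Nm G x * α = Nm G y * β) : ∃ g : G, g • y ∈ P := by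
  have h1 : Nm G y * β ∈ P := h ▸ P.mul_mem_right _ (Ideal.mem_of_dvd _ (dvd_Nm x) hx)
  have h2 := (hP.mem_or_mem h1).resolve_right (not_mem_of_coprime hP hβ hn)
  obtain ⟨g, -, hg⟩ := (Ideal.IsPrime.prod_mem_iff (hp := hP)).1 h2
  exact ⟨g, hg⟩

/-- the number of prime factors that contain `n` -/
noncomputable def mu (n : R) (I : Ideal R) : ℕ := (normalizedFactors I).countP fun Q => n ∈ Q

theorem mu_mul (n : R) {I J : Ideal R} (hI : I ≠ 0) (hJ : J ≠ 0) :
    mu n (I * J) = mu n I + mu n J := by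
  rw [mu, normalizedFactors_mul hI hJ, Multiset.countP_add, mu, mu]

theorem mu_zero {n : R} {I : Ideal R} (h : I ⊔ Ideal.span {n} = ⊤) : mu n I = 0 := by
  rw [mu, Multiset.countP_eq_zero]
  intro Q hQ hn
  have h1 : I ≤ Q := Ideal.le_of_dvd (dvd_of_mem_normalizedFactors hQ)
  have h2 : I ⊔ Ideal.span {n} ≤ Q := sup_le h1 ((Ideal.span_singleton_le_iff_mem _).2 hn)
  rw [h, top_le_iff] at h2
  exact (Ideal.isPrime_of_prime (prime_of_normalized_factor Q hQ)).ne_top h2

theorem mu_prime {n : R} {P : Ideal R} (hP : P.IsPrime) (h0 : P ≠ 0) (hn : n ∈ P) :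
    mu n P = 1 := by
  rw [mu, normalizedFactors_irreducible (Ideal.prime_of_isPrime h0 hP).irreducible, normalize_eq,
    ← Multiset.cons_zero, Multiset.countP_cons_of_pos (p := fun Q => n ∈ Q) _ hn, Multiset.countP_zero]

theorem main {n α β : R} (hn0 : n ≠ 0) (hn : ∀ g : G, g • n = n) (hα : IsCoprime α n)
    (hβ : IsCoprime β n) (m : ℕ) : ∀ x y : R, x ≠ 0 → mu n (Ideal.span {x}) = m →
    Nm G x * α = Nm G y * β →
    ∃ a b : R, IsCoprime a n ∧ IsCoprime b n ∧ Nm G a * α = Nm G b * β := by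
  induction m using Nat.strong_induction_on with
  | _ m ih =>
    intro x y hx hm h
    by_cases hxn : IsCoprime x n
    · refine ⟨x, y, hxn, ?_, h⟩
      by_contra hyn
      obtain ⟨P, hP, hy, hnP⟩ := exists_prime_of_not_coprime hyn
      obtain ⟨g, hg⟩ := move hP hα hnP hy h.symm
      have : IsCoprime (g • x) n := by
        have := hxn.map (MulSemiringAction.toRingHom G R g)
        simpa [hn] using this
      exact not_mem_of_coprime hP this hnP hg
    · obtain ⟨P, hP, hxP, hnP⟩ := exists_prime_of_not_coprime hxn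
      obtain ⟨g, hg⟩ := move hP hβ hnP hxP h
      have hP0 : P ≠ 0 := by
        rintro rfl
        exact hn0 (by simpa using hnP)
      have hsn : Ideal.span {n} ≠ 0 := by simpa using hn0
      obtain ⟨c, hc⟩ := IsDedekindDomain.exists_sup_span_eq (I := P * Ideal.span {n}) (J := P)
        Ideal.mul_le_left (mul_ne_zero hP0 hsn)
      have hcP : Ideal.span {c} ≤ P := hc ▸ le_sup_right
      obtain ⟨I, hI⟩ := Ideal.dvd_iff_le.2 hcP
      have hIn : I ⊔ Ideal.span {n} = ⊤ := by
        rw [hI, ← Ideal.mul_sup] at hc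
        rw [sup_comm]
        apply mul_left_cancel₀ hP0
        rw [hc, Ideal.mul_top]
      obtain ⟨t, ht, s, hs, hts⟩ := Submodule.mem_sup.1 ((Ideal.eq_top_iff_one _).1 hIn)
      have htn : Ideal.span {t} ⊔ Ideal.span {n} = ⊤ := (Ideal.eq_top_iff_one _).2
        (hts ▸ Submodule.add_mem_sup (Ideal.mem_span_singleton_self t) hs)
      obtain ⟨x₁, hx₁⟩ := Ideal.mem_span_singleton'.1 (hI ▸ Ideal.mul_mem_mul hxP ht)
      obtain ⟨y₁, hy₁⟩ := Ideal.mem_span_singleton'.1 (hI ▸ Ideal.mul_mem_mul hg ht)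
      have ht0 : t ≠ 0 := by
        rintro rfl
        rw [zero_add] at hts
        exact hP.ne_top ((Ideal.eq_top_iff_one _).2
          (hts ▸ (Ideal.span_singleton_le_iff_mem _).2 hnP hs))
      have hxt : x₁ * c ≠ 0 := hx₁ ▸ mul_ne_zero hx ht0
      have hx0 : x₁ ≠ 0 := left_ne_zero_of_mul hxt
      have hc0 : c ≠ 0 := right_ne_zero_of_mul hxt
      have hI0 : I ≠ 0 := by
        rintro rfl
        exact ht0 (by simpa using ht)
      have hmu : mu n (Ideal.span {x₁}) + 1 = m := by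
        have h1 : Ideal.span {x₁} * (P * I) = Ideal.span {x} * Ideal.span {t} := by
          rw [← hI, Ideal.span_singleton_mul_span_singleton, hx₁,
            Ideal.span_singleton_mul_span_singleton]
        have h2 := congrArg (mu n) h1
        rw [mu_mul n (by simpa using hx0) (mul_ne_zero hP0 hI0), mu_mul n hP0 hI0,
          mu_mul n (by simpa using hx) (by simpa using ht0), mu_zero hIn, mu_zero htn,
          mu_prime hP hP0 hnP, hm] at h2
        omega
      refine ih _ (by omega) x₁ y₁ hx0 rfl ?_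
      apply mul_left_cancel₀ (Nm_ne_zero (G := G) hc0)
      have e1 := congrArg (Nm G) hx₁
      have e2 := congrArg (Nm G) hy₁
      rw [Nm_mul, Nm_mul] at e1 e2
      rw [Nm_smul] at e2
      linear_combination α * e1 - β * e2 + Nm G t * h

end Un

open Un in
theorem d_un : S_Un := by
  intro F K _ _ _ _ _ _ n δ α β hpr hn hα hβ h
  have hN : ∀ x : 𝓞 K, ((Nm (K ≃ₐ[F] K) x : 𝓞 K) : K) = algebraMap F K (Algebra.norm F (x : K)) := by
    intro x
    rw [Algebra.norm_eq_prod_automorphisms, Nm, RingOfIntegers.coe_eq_algebraMap, map_prod]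
    rfl
  have hiff : ∀ x y : 𝓞 K, Nm (K ≃ₐ[F] K) x * algebraMap (𝓞 F) (𝓞 K) α
      = Nm (K ≃ₐ[F] K) y * algebraMap (𝓞 F) (𝓞 K) β ↔
      Algebra.norm F (x : K) * α = Algebra.norm F (y : K) * β := by
    intro x y
    rw [← (algebraMap F K).injective.eq_iff, map_mul, map_mul, ← hN, ← hN,
      ← RingOfIntegers.coe_injective.eq_iff, map_mul, map_mul]
    rfl
  have hα' : IsCoprime (algebraMap (𝓞 F) (𝓞 K) α) n := by simpa using hα.map (algebraMap _ (𝓞 K))
  have hβ' : IsCoprime (algebraMap (𝓞 F) (𝓞 K) β) n := by simpa using hβ.map (algebraMap _ (𝓞 K))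
  by_cases hδ : δ = 0
  · subst hδ
    rw [Algebra.norm_zero, zero_mul] at h
    have hb : β = 0 := RingOfIntegers.coe_injective (by simpa using h.symm)
    subst hb
    refine ⟨0, 1, by simpa using hβ', isCoprime_one_left, ?_⟩
    simp
  · obtain ⟨x, y, hy, rfl⟩ := IsFractionRing.div_surjective (A := 𝓞 K) δ
    have hy0 : algebraMap (𝓞 K) K y ≠ 0 := by
      simpa using nonZeroDivisors.ne_zero hy
    have hx0 : x ≠ 0 := by
      rintro rfl
      simp at hδ
    obtain ⟨a, b, ha, hb, hab⟩ := main (G := K ≃ₐ[F] K) (n := (n : 𝓞 K)) (by exact_mod_cast hn)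
      (fun g => map_natCast (MulSemiringAction.toRingHom (K ≃ₐ[F] K) (𝓞 K) g) n) hα' hβ' _ x y
      hx0 rfl ((hiff x y).2 (by
        have e : (x : K) = algebraMap (𝓞 K) K x / algebraMap (𝓞 K) K y * (y : K) := by
          rw [RingOfIntegers.coe_eq_algebraMap y, div_mul_cancel₀ _ hy0]
        rw [e, map_mul, ← h]
        ring))
    exact ⟨a, b, ha, hb, (hiff a b).1 hab⟩

end Pool.Agent.P.MP_b8021b_nt.VC
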