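import Pool.Agent.P.MP_b8021b_nt.VC.DKer
import Pool.Agent.P.MP_b8021b_nt.VC.DNG
import Pool.Agent.P.MP_b8021b_nt.VC.DUn
import Pool.Agent.P.MP_b8021b_nt.VC.DL90

namespace Pool.Agent.P.MP_b8021b_nt.VC

theorem p_ker (hEmb : S_Emb) (hUnr : S_Unr) (hTame : S_Tame) (hHNP : S_HNP) : S_Ker :=
  d_ker hEmb hUnr (d_nG hTame) hHNP d_un d_l90

end Pool.Agent.P.MP_b8021b_nt.VC
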