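import Pool.Agent.P.MP_b8021b_nt.VC.StT
import Pool.Agent.P.MP_b8021b_nt.VC.StG
import Pool.Agent.P.MP_b8021b_nt.VC.BasicN
import Pool.Agent.P.MP_b8021b_nt.VE.PLam1

/-! The size of the smooth model. -/

namespace Pool.Agent.P.MP_b8021b_nt.VC

open Polynomial NumberField Finset Pool.Agent.P.MP_b8021b_nt.VE
open scoped Classical

namespace PLam1

theorem rs_one_pos (E : Type) [Field E] [NumberField E] : 0 < Rs E 1 := by
  have h := (NumberField.Ideal.tendsto_norm_le_div_atTop E).comp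
    (tendsto_natCast_atTop_atTop (R := ℝ))
  have e : (fun X : ℕ => (Set.ncard {I : Ideal (𝓞 E) | Cop 1 I ∧ Ideal.absNorm I ≤ X} : ℝ) / X) =
      (fun s : ℝ => (Nat.card {I : Ideal (𝓞 E) // Ideal.absNorm I ≤ s} : ℝ) / s) ∘ Nat.cast := by
    funext X
    have : {I : Ideal (𝓞 E) | Cop 1 I ∧ Ideal.absNorm I ≤ X} =
        {I : Ideal (𝓞 E) | (Ideal.absNorm I : ℝ) ≤ (X : ℝ)} := by
      ext I
      simp [cop_iff_coprime]
    rw [this, ← Nat.card_coe_set_eq]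
    rfl
  rw [Rs, e, h.limUnder_eq]
  have h1 := Units.regulator_pos E
  have h2 := classNumber_pos E
  have h3 := Units.torsionOrder_pos E
  have h4 : (0 : ℝ) < |(discr E : ℝ)| := abs_pos.2 (Int.cast_ne_zero.2 (discr_ne_zero E))
  have h5 := Real.pi_pos
  positivity

theorem ev_N {R : Type} [CommRing R] [Algebra ℤ[X] R] (F : Fix R) (a : ℝ) :
    ∃ y₀ : ℝ, ∀ c : Cfg, y₀ ≤ c.y → F.In c → 1 ≤ c.y ∧ a ≤ c.N ∧ 1 ≤ c.N ∧
      (c.N : ℝ) ≤ Real.log c.y ^ ((4 * F.p.e + 2) * F.A + 1) := by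
  refine ⟨Real.exp (max a 2), fun c hc hi => ?_⟩
  have h1 : max a 2 ≤ Real.log c.y := (Real.le_log_iff_exp_le ((Real.exp_pos _).trans_le hc)).2 hc
  have h2 : 2 ≤ Real.log c.y := (le_max_right _ _).trans h1
  have h3 : Real.log c.y ≤ c.N := (le_self_pow₀ (by linarith)
    (Nat.mul_ne_zero (by omega) (by have := F.hA; omega))).trans hi.N_ge
  refine ⟨(Real.one_le_exp (by positivity)).trans hc, ((le_max_left _ _).trans h1).trans h3,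
    by exact_mod_cast (show (1 : ℝ) ≤ c.N by linarith), ?_⟩
  rw [pow_succ]
  have : 0 ≤ Real.log c.y ^ ((4 * F.p.e + 2) * F.A) := pow_nonneg (by linarith) _
  nlinarith [hi.N_le]

/-- a vector whose coordinates are all close to `Y` -/
theorem near {ι : Type} [Fintype ι] {z : ι → ℂ} {Y δ : ℝ} (hY : Y ≠ 0) (hδ : δ ≤ 1 / 2)
    (h : ∀ φ, ‖z φ / (Y : ℂ) - 1‖ ≤ δ) :
    0 < nz z ∧ |Real.log (nz z / Y ^ (2 * Fintype.card ι))| ≤ 4 * Fintype.card ι * δ ∧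
      ∀ φ φ', ‖z φ‖ ≤ 3 * ‖z φ'‖ := by
  have hY' : 0 < |Y| := abs_pos.2 hY
  have h1 : ∀ φ, |‖z φ‖ / |Y| - 1| ≤ δ := fun φ => by
    have := (abs_norm_sub_norm_le (z φ / (Y : ℂ)) 1).trans (h φ)
    rwa [norm_div, Complex.norm_real, Real.norm_eq_abs, norm_one] at this
  have h2 := fun φ => Lam1.log_bd (h1 φ) hδ
  have h3 : ∀ φ, z φ ≠ 0 := fun φ h0 => by simpa [h0] using (h2 φ).1
  refine ⟨nz_pos h3, ?_, fun φ φ' => ?_⟩
  · have e : nz z / Y ^ (2 * Fintype.card ι) = ∏ φ, (‖z φ‖ / |Y|) ^ 2 := by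
      simp only [div_pow, prod_div_distrib, prod_const, card_univ, sq_abs, nz, pow_mul]
    rw [e, Real.log_prod fun φ _ => pow_ne_zero 2 (h2 φ).1.ne']
    refine (abs_sum_le_sum_abs _ _).trans ((sum_le_card_nsmul _ _ (4 * δ) fun φ _ => ?_).trans ?_)
    · rw [Real.log_pow, abs_mul]
      have := (h2 φ).2
      norm_num
      linarith
    · rw [card_univ, nsmul_eq_mul]
      linarith
  · have a1 := (abs_le.1 (h1 φ)).2
    have a2 := (abs_le.1 (h1 φ')).1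
    have a3 : ‖z φ‖ / |Y| ≤ 3 * (‖z φ'‖ / |Y|) := by linarith
    rwa [← mul_div_assoc, div_le_div_iff_of_pos_right hY'] at a3

theorem alg1 {y EM N Rm Rn q q' K0 K2 k Em T : ℝ} (u : ℕ) (hy : y ≠ 0) (hN : N ≠ 0)
    (hRn : Rn ≠ 0) (hq : q ≠ 0) (hq' : q' ≠ 0) (hK0 : K0 ≠ 0) (hK2 : K2 ≠ 0) (hEm : Em ≠ 0) :
    y ^ (u + 2) * EM * Rm / (N * K2) / (q * q' * (K0 / K2)) * (k * (N / (Rn * y ^ u * Em)) * T) =
      Rm / Rn * (k / K0 * (y ^ 2 / (q * q') * EM / Em) * T) := by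
  field_simp
  ring

theorem alg2 {y EM N Rm Rn q q' K0 K2 a cv : ℝ} (r : ℕ) (hN : N ≠ 0) (hRn : Rn ≠ 0) (hq : q ≠ 0)
    (hq' : q' ≠ 0) (hK0 : K0 ≠ 0) (hK2 : K2 ≠ 0) (ha : a ≠ 0) (hcv : cv ≠ 0) :
    y ^ (r + 2 + 2) * EM * Rm / (N * K2) / (q * q' * (K0 / K2)) *
      (N ^ (r + 2) / (Rn * a * cv)) * (a * cv) =
    EM * (N ^ (r + 1) / K0) * (y ^ 2 / (q * q')) * (Rm / Rn) * y ^ (r + 2) := by
  field_simp
  ring

end PLam1

open PLam1 Lam1 in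
theorem p_lam1 (hCnt : VE.S_Cnt) (hWt : S_Wt) (hFlat : S_Flat) (hEmb : S_Emb) (hPSs : S_PSs) :
    S_Lam1 := by
  intro R _ _ p u
  by_cases hu : 6 ≤ u
  swap
  · exact ⟨1, 1, le_rfl, one_pos, fun F _ h => absurd (h ▸ F.hu) hu⟩
  obtain ⟨r, rfl⟩ : ∃ r, u = r + 2 := ⟨u - 2, by omega⟩
  have hr : 4 ≤ r := by omega
  obtain ⟨hg1, Cf, hCf, hF⟩ := hFlat R p
  have he : 1 ≤ p.e := p.he.one_lt.le
  have he' : (1 : ℝ) ≤ p.e := by exact_mod_cast he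
  obtain ⟨C₁, hC₁⟩ : ∃ C₁ : ℝ, C₁ = 4 * p.e * Cf := ⟨_, rfl⟩
  have hC₁0 : 0 ≤ C₁ := by rw [hC₁]; positivity
  obtain ⟨C₃, hC₃⟩ : ∃ C₃ : ℝ, C₃ = 3 * ((C₁ + 3) * (4 * (r + 2)) ^ (r + 1)) + 2 * (C₁ + 5) :=
    ⟨_, rfl⟩
  obtain ⟨G, hG⟩ : ∃ G : ℝ, G = |p.g1| := ⟨_, rfl⟩
  obtain ⟨E, hE⟩ : ∃ E : ℝ, E = Real.exp ((((r + 2 : ℕ) : ℝ) + 2) / 2) := ⟨_, rfl⟩
  have hC₃0 : 0 ≤ C₃ := by rw [hC₃]; positivity
  have hG0 : 0 < G := by rw [hG]; exact abs_pos.2 hg1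
  have hE1 : 1 ≤ E := by rw [hE]; exact Real.one_le_exp (by positivity)
  have hT0 : 0 ≤ E * (4 * ((r : ℝ) + 2)) ^ (r + 1) := by positivity
  have hEG : 0 ≤ E / G := by positivity
  obtain ⟨C, hC⟩ : ∃ C : ℝ, C = C₃ + E * (4 * ((r : ℝ) + 2)) ^ (r + 1) + 3 * G + E / G + 1 :=
    ⟨_, rfl⟩
  refine ⟨C, 1 / (C₁ + 5), by linarith, by positivity, fun F hp hu' hη => ?_⟩
  obtain ⟨y₁, h₁⟩ := hF F hp
  obtain ⟨y₂, h₂⟩ := hWt R p ((4 * F.p.e + 2) * F.A + 1)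
  obtain ⟨y₃, h₃⟩ := ev_N F (max (12 * (r + 4) : ℕ) (1 / F.η))
  refine ⟨max y₁ (max y₂ y₃), fun c hc hi k _ _ _ K x x' t L _ _ _ Φ 𝔞 n X hK hx hx' ht hn h𝔞 hX0
    hX => ?_⟩
  rw [max_le_iff, max_le_iff] at hc
  obtain ⟨hy1, hN, hN1, hN2⟩ := h₃ c hc.2.2 hi
  obtain ⟨-, -, hP⟩ := h₂ c.y hc.2.1 c.N hN1 hN2
  obtain ⟨-, -, f3⟩ := (h₁ c hc.1 hi).2.2.2 k K t L Φ hK ht
  obtain ⟨hN, hNη⟩ := max_le_iff.1 hN
  subst hp
  obtain ⟨Ce, hCe⟩ := hEmb k K F.p.e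
  obtain ⟨m1, m2, -, m4, -, -, -, m8, ⟨Q, hQ, hQ'⟩, -⟩ := hCe L Φ.fin
  obtain ⟨Cs, hCs⟩ := hPSs k K F.p.e
  have hy : 0 < c.y := by linarith
  have hN' : 12 * (r + 4) ≤ c.N := by exact_mod_cast hN
  have hN0 : (0 : ℝ) < c.N := by exact_mod_cast hN1
  have hη0 : 0 < c.η := hi.η ▸ F.ηpos
  have hη1 : 1 ≤ c.η * c.N := by
    rw [div_le_iff₀ F.ηpos, ← hi.η] at hNη; linarith
  have hsm : (C₁ + 5) * c.η ≤ 1 := by
    rw [le_div_iff₀ (by positivity), ← hi.η] at hη; linarith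
  obtain ⟨-, hq, hq3, hl, -⟩ := hP x.1 (mem_Xset.1 hx).1
  obtain ⟨-, hq', hq3', hl', -⟩ := hP x'.1 (mem_Xset.1 hx').1
  have hq0 : (0 : ℝ) < x.1 := hy.trans_le hq
  have hq0' : (0 : ℝ) < x'.1 := hy.trans_le hq'
  have hr0 : (0 : ℝ) < F.p.r := by exact_mod_cast F.p.hr.pos
  have hm0 : 2 ≤ M0 F.p.r c.z * F.p.r :=
    F.p.hr.two_le.trans (Nat.le_mul_of_pos_left _ (M0_pos _ _))
  have hRm : 0 < Rs L (M0 F.p.r c.z * F.p.r) := (hCs L Φ.fin Q _ hQ hQ' hm0).1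
  have hRn : 0 < Rs L n := by
    rcases hn.eq_or_lt with rfl | h
    · exact rs_one_pos L
    · exact (hCs L Φ.fin Q _ hQ hQ' h).1
  have hn0 : (0 : ℝ) < n := by exact_mod_cast hn
  have hcv0 : 0 < cov2 k L := lt_of_lt_of_le (by positivity) m8
  have hlow := cnt_low hCnt hr hN' hl hl'
  have hK0 : (0 : ℝ) < cnt (r + 2) c.N (Mz c.N (r + 2) - lv c.y c.N x.1 - lv c.y c.N x'.1) :=
    lt_of_lt_of_le (by positivity) hlow
  have hK2 := cnt_top hCnt hN'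
  have hcc : 0 ≤ cc L (M0 F.p.r c.z * F.p.r) n := by unfold cc; positivity
  have hB0 : 0 < c.B := lt_of_lt_of_le (by positivity) hi.B_ge
  have hS0 : (0 : ℝ) < c.S0 := lt_of_lt_of_le (by positivity) hi.S_ge
  have hsize : (c.B ^ F.p.dd * (c.S0 * F.p.g1)) ^ (2 * F.p.e) =
      (F.p.r : ℝ) ^ F.p.e0 * c.y ^ (r + 2 + 2) * E := by
    rw [hi.size, hu', hE]
  have hsize' : (G * (c.S0 * c.B ^ F.p.dd)) ^ (2 * F.p.e) =
      (F.p.r : ℝ) ^ F.p.e0 * c.y ^ (r + 2 + 2) * E := by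
    rw [← hsize, pow_mul, pow_mul, hG, mul_pow, sq_abs]
    congr 1
    ring
  have h𝔞' : (Ideal.absNorm 𝔞 : ℝ) = (F.p.r : ℝ) ^ F.p.e0 * x.1 * x'.1 := by
    rw [h𝔞]; push_cast; ring
  have hW0 : 0 < (c.S0 : ℝ) * c.B ^ F.p.dd := by positivity
  have hRy : 0 < (F.p.r : ℝ) ^ F.p.e0 * c.y ^ (r + 2) := by positivity
  have e4 : c.y ^ (r + 2 + 2) = c.y ^ (r + 2) * (c.y * c.y) := by ring
  have h2e : 2 * F.p.e ≠ 0 := by omega
  refine ⟨fun s hs => ?_, ?_, ?_, ?_⟩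
  · have hCη : Cf * c.η ≤ 1 / 2 := by
      have : 1 * (Cf * c.η) ≤ F.p.e * (Cf * c.η) :=
        mul_le_mul_of_nonneg_right he' (by positivity)
      rw [hC₁] at hsm
      nlinarith
    obtain ⟨g1, g2, g3⟩ := near (mul_ne_zero (by positivity) (mul_ne_zero hS0.ne' hg1)) hCη
      (f3 s hs)
    rw [m1, hsize, ← m4, hE] at g2
    rw [← m4] at g1
    refine ⟨?_, g3⟩
    have hα : Φ.al K s ≠ 0 := fun h => by simp [h] at g1
    have hest := est hCnt hr hN' hy hq hq' hl hl' hη1 hC₁0 hsm (by positivity) g1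
      (g2.trans (le_of_eq (by rw [hC₁]; ring)))
    rw [← hC₃] at hest
    have hid : kap' L F.p c (r + 2) x x' * Lam c.y c.N (r + 2) n 𝔞 (Φ.al K s) =
        cc L (M0 F.p.r c.z * F.p.r) n * ∑ m ∈ range ((r + 2) * c.N + 1),
        ((cnt (r + 2) c.N m : ℝ) /
          cnt (r + 2) c.N (Mz c.N (r + 2) - lv c.y c.N x.1 - lv c.y c.N x'.1) *
        (c.y ^ 2 / (x.1 * x'.1) * Real.exp (Mz c.N (r + 2) / c.N) / Real.exp (m / c.N))) *
        tent (c.N * Real.log (Ideal.absNorm (Ideal.span {Φ.al K s}) /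
          ((F.p.r : ℝ) ^ F.p.e0 * x.1 * x'.1 * c.y ^ (r + 2))) - m) := by
      unfold Lam
      rw [if_neg hα, mul_sum, mul_sum]
      refine sum_congr rfl fun m _ => ?_
      unfold kap' kap Hh cc
      rw [h𝔞']
      exact PLam1.alg1 (r + 2) hy.ne' hN0.ne' hRn.ne' hq0.ne' hq0'.ne' hK0.ne' hK2.ne'
        (Real.exp_ne_zero _)
    rw [hid, ← mul_sub_one, abs_mul, abs_of_nonneg hcc, mul_comm]
    refine mul_le_mul_of_nonneg_right (hest.trans ?_) hcc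
    exact mul_le_mul_of_nonneg_right (by linarith) hη0.le
  · have hid : kap' L F.p c (r + 2) x x' * Th k L c.N (r + 2) n *
        ((n : ℝ) ^ (2 * F.p.e) * cov2 k L) =
        Real.exp (Mz c.N (r + 2) / c.N) * (c.N ^ (r + 1) /
          cnt (r + 2) c.N (Mz c.N (r + 2) - lv c.y c.N x.1 - lv c.y c.N x'.1)) *
          (c.y ^ 2 / (x.1 * x'.1)) * cc L (M0 F.p.r c.z * F.p.r) n * c.y ^ (r + 2) := by
      unfold kap' kap Hh Th cc
      rw [m2]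
      exact PLam1.alg2 r hN0.ne' hRn.ne' hq0.ne' hq0'.ne' hK0.ne' hK2.ne' (by positivity) hcv0.ne'
    rw [hid]
    refine mul_le_mul_of_nonneg_right (mul_le_mul_of_nonneg_right ?_ hcc) (by positivity)
    have e1 : Real.exp (Mz c.N (r + 2) / c.N) ≤ E := by
      rw [hE]
      refine Real.exp_le_exp.2 ?_
      rw [div_le_iff₀ hN0]
      linarith [(Mz_bd c.N (r + 2)).2]
    have e2 : (c.N : ℝ) ^ (r + 1) /
        cnt (r + 2) c.N (Mz c.N (r + 2) - lv c.y c.N x.1 - lv c.y c.N x'.1) ≤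
        (4 * ((r : ℝ) + 2)) ^ (r + 1) := by
      rw [div_pow, div_le_iff₀ (by positivity)] at hlow
      rw [div_le_iff₀ hK0]; linarith
    have e3 : c.y ^ 2 / (x.1 * x'.1) ≤ 1 := by
      rw [div_le_one (by positivity), sq]
      exact mul_le_mul hq hq' hy.le hq0.le
    refine le_trans ?_ (show E * (4 * ((r : ℝ) + 2)) ^ (r + 1) * 1 ≤ C by linarith)
    gcongr
  · have e1 : (x.1 : ℝ) * x'.1 ≤ 3 * c.y * (3 * c.y) :=
      mul_le_mul hq3.le hq3'.le hq0'.le (by positivity)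
    have e2 := mul_le_mul_of_nonneg_left e1 hRy.le
    have e3 := mul_le_mul_of_nonneg_left hE1
      (show 0 ≤ (F.p.r : ℝ) ^ F.p.e0 * c.y ^ (r + 2 + 2) by positivity)
    have e5 : (9 : ℝ) ≤ 3 ^ (2 * F.p.e) := by
      rw [pow_mul]
      exact le_trans (by norm_num) (le_self_pow₀ (by norm_num) (by omega))
    have e6 : X ≤ 3 * (G * (c.S0 * c.B ^ F.p.dd)) := by
      refine le_of_pow_le_pow_left₀ h2e (by positivity) ?_
      rw [mul_pow, hsize', hX, h𝔞']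
      refine le_trans ?_ (mul_le_mul_of_nonneg_right e5 (by positivity))
      rw [e4] at e3 ⊢
      linarith
    refine e6.trans ?_
    rw [← mul_assoc]
    exact mul_le_mul_of_nonneg_right (by linarith) hW0.le
  · have e1 : c.y * c.y ≤ (x.1 : ℝ) * x'.1 := mul_le_mul hq hq' hy.le hq0.le
    have e2 := mul_le_mul_of_nonneg_left (mul_le_mul_of_nonneg_left e1 hRy.le)
      (show 0 ≤ E by linarith)
    have e6 : G * (c.S0 * c.B ^ F.p.dd) ≤ E * X := by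
      refine le_of_pow_le_pow_left₀ h2e (by positivity) ?_
      rw [mul_pow E, hsize', hX, h𝔞']
      refine le_trans ?_ (mul_le_mul_of_nonneg_right (le_self_pow₀ hE1 h2e) (by positivity))
      rw [e4]
      linarith
    have e7 : (c.S0 : ℝ) * c.B ^ F.p.dd ≤ E / G * X := by
      rw [div_mul_eq_mul_div, le_div_iff₀ hG0]
      linarith
    exact e7.trans (mul_le_mul_of_nonneg_right (by linarith) hX0.le)

end Pool.Agent.P.MP_b8021b_nt.VC
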