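import Pool.Agent.P.MP_b8021b_nt.VC.PLem2

/-! Package Lem: a function whose level sets are level sets of `g`. -/

namespace Pool.Agent.P.MP_b8021b_nt.VC

open Polynomial NumberField Finset Pool.Agent.P.MP_b8021b_nt.VE Filter Topology
open scoped Classical

namespace LemP

/-- a normed field as a normed algebra over an intermediate field -/
@[reducible] noncomputable def nAlg {K Ω : Type} [NontriviallyNormedField K] [NormedField Ω]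
    [NormedAlgebra K Ω] (L : IntermediateField K Ω) : NormedAlgebra L Ω :=
  { (inferInstance : Algebra L Ω) with
    norm_smul_le := fun c x => by
      rw [Algebra.smul_def, norm_mul]
      exact le_rfl }

theorem proper {K Ω : Type} [NontriviallyNormedField K] [NormedField Ω] [NormedAlgebra K Ω]
    [ProperSpace K] (L : IntermediateField K Ω) [FiniteDimensional K L] : ProperSpace L := by
  let : NormedSpace K L :=
    { (inferInstance : Module K L) with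
      norm_smul_le := fun c x => norm_smul_le c (x : Ω) }
  exact FiniteDimensional.proper K L

section main

variable {F A Ω : Type} [NontriviallyNormedField F] [ProperSpace F] [CharZero F] [CommRing A]
  [Algebra F A] [NontriviallyNormedField Ω] [IsUltrametricDist Ω] [NormedAlgebra F Ω]
  [IsAlgClosed Ω] [Algebra.IsAlgebraic F Ω]

theorem exists_s (hCv : S_Cv) (hPts : S_Pts) (hBC : S_BC) (hRig : S_Rig1) (hUnif : S_Unif)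
    (cv : Cv F A) (hiso : ∀ (σ : Ω ≃ₐ[F] Ω) (x : Ω), ‖σ x‖ = ‖x‖) (W : Finset A) {ε₁ ε : ℝ}
    (π : A) (P₀ : A →ₐ[F] Ω) (hε₁ : 0 < ε₁) (hε : 0 < ε)
    (hbij : Set.BijOn (fun P : A →ₐ[F] Ω => P π) (Ud W ε₁ π P₀ ε) (Metric.ball 0 ε)) :
    ∃ s : A, s ≠ 0 ∧ (∀ P : A →ₐ[F] Ω, P s = 0 →
      ∃ R ∈ Ud W ε₁ π P₀ ε, RingHom.ker R = RingHom.ker P) ∧ ∃ R ∈ Ud W ε₁ π P₀ ε, R s = 0 := by
  have halg : P₀.range.IsAlgebraic := fun x _ => Algebra.IsAlgebraic.isAlgebraic x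
  let F₁ : IntermediateField F Ω := halg.toIntermediateField
  have hne := ((hPts F A Ω cv).2.2.2.2.1 P₀).2.1
  have h1 : FiniteDimensional F (A ⧸ RingHom.ker P₀) := (hCv F A cv).1 _ hne
  have h2 : FiniteDimensional F P₀.range :=
    LinearEquiv.finiteDimensional (Ideal.quotientKerEquivRange P₀).toLinearEquiv
  have h3 : FiniteDimensional F F₁ := h2
  let := nAlg F₁
  have := proper F₁
  exact exists_s_aux (F₁ := F₁) hPts hBC hRig hUnif cv hiso W π P₀ hε₁ hε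
    (fun a => ⟨⟨P₀ a, a, rfl⟩, rfl⟩) hbij

theorem main1 (hCv : S_Cv) (hPts : S_Pts) (hBC : S_BC) (hRig : S_Rig1) (hUnif : S_Unif)
    (hDisc : S_Disc) (cv : Cv F A) (hiso : ∀ (σ : Ω ≃ₐ[F] Ω) (x : Ω), ‖σ x‖ = ‖x‖)
    (P₀ : A →ₐ[F] Ω) (g : A) (hg : g ≠ 0) (hg0 : P₀ g = 0) :
    ∃ (s : A) (c₁ c₃ C : ℝ) (a b : ℕ), s ≠ 0 ∧ 1 ≤ cv.δ s ∧ 0 < c₁ ∧ c₁ < c₃ ∧
      0 < C ∧ 0 < a ∧ ‖P₀ s‖ ≤ c₁ ∧
      (∀ P : A →ₐ[F] Ω, c₁ < ‖P s‖ → ‖P s‖ < c₃ → ‖P g‖ ^ a = C * ‖P s‖ ^ b ∧ ‖P g‖ ≤ 1) ∧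
      ∀ P : A →ₐ[F] Ω, P g = 0 → RingHom.ker P ≠ RingHom.ker P₀ → c₃ ≤ ‖P s‖ := by
  obtain ⟨π, hπ, hπ0, hπ1⟩ := exists_pi hPts cv P₀
  obtain ⟨W, ε₁, ε₀, hε₁, hε₀, hD⟩ := hDisc F A Ω cv P₀ π hπ hπ1
  have hD' := fun ε h1 h2 => hD ε (Ud W ε₁ π P₀ ε) h1 h2 rfl
  obtain ⟨C₀, hC₀⟩ := (hD' ε₀ hε₀ le_rfl).2.1 g
  obtain ⟨Zg, hZg, -⟩ := exists_Z (Ω := Ω) hCv hPts cv hg
  -- the radius
  obtain ⟨ε₂, hε₂, hε₂₀, hε₂C, hε₂g⟩ : ∃ ε₂ : ℝ, 0 < ε₂ ∧ ε₂ ≤ ε₀ ∧ |C₀| * ε₂ ≤ 1 ∧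
      ∀ Q ∈ Zg, Q π ≠ 0 → ε₂ ≤ ‖Q π‖ := by
    have e1 : ∀ᶠ ε in 𝓝[>] (0 : ℝ), 0 < ε := self_mem_nhdsWithin
    have e2 : ∀ c : ℝ, 0 < c → ∀ᶠ ε in 𝓝[>] (0 : ℝ), ε ≤ c := fun c hc =>
      mem_nhdsWithin_of_mem_nhds (Iic_mem_nhds hc)
    have e3 : ∀ᶠ ε in 𝓝[>] (0 : ℝ), ∀ Q ∈ Zg, Q π ≠ 0 → ε ≤ ‖Q π‖ := by
      rw [eventually_all_finset]
      intro Q _
      by_cases h : Q π = 0
      · exact Eventually.of_forall fun _ h' => absurd h h'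
      · exact (e2 _ (norm_pos_iff.2 h)).mono fun _ h' _ => h'
    obtain ⟨ε, h1, h2, h3, h4⟩ :=
      (e1.and ((e2 _ hε₀).and ((e2 (1 / (|C₀| + 1)) (by positivity)).and e3))).exists
    refine ⟨ε, h1, h2, ?_, h4⟩
    rw [le_div_iff₀ (by positivity)] at h3
    nlinarith [abs_nonneg C₀]
  set U := Ud W ε₁ π P₀ ε₂ with hU
  obtain ⟨hbij, -, hprod⟩ := hD' ε₂ hε₂ hε₂₀
  have hε : 0 < ε₂ / 2 := by positivity
  have hεlt : ε₂ / 2 < ε₂ := by linarith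
  have hsub : Ud W ε₁ π P₀ (ε₂ / 2) ⊆ U := fun P hP => ⟨hP.1, hP.2.trans hεlt⟩
  obtain ⟨s, hs, hsz, R₀, hR₀, hR₀s⟩ := exists_s hCv hPts hBC hRig hUnif cv hiso W π P₀ hε₁ hε
    (hD' (ε₂ / 2) hε (hεlt.le.trans hε₂₀)).1
  have hszn : ∀ Q : A →ₐ[F] Ω, Q s = 0 → ‖Q π‖ < ε₂ / 2 := by
    intro Q hQ
    obtain ⟨R, hR, hk⟩ := hsz Q hQ
    rw [← norm_congr hPts cv hiso hk]
    exact hR.2
  obtain ⟨Cs, hCs, hsP⟩ := hprod s hs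
  obtain ⟨Cg, hCg, hgP⟩ := hprod g hg
  set n₁ := nZ (Ideal.span {s}) U with hn₁
  set μ := nZ (Ideal.span {g}) U with hμ
  obtain ⟨Zs, hZs, hds⟩ := exists_Z (Ω := Ω) hCv hPts cv hs
  have hms : ∀ P : A →ₐ[F] Ω, mI P (Ideal.span {s}) ≠ 0 → P ∈ Zs := fun P hP =>
    (hZs P).2 ((mI_ne_iff hPts cv hs P).1 hP)
  have hmR₀ : 0 < mI R₀ (Ideal.span {s}) :=
    Nat.pos_of_ne_zero ((mI_ne_iff hPts cv hs R₀).2 hR₀s)
  have hn₁pos : 0 < n₁ := by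
    rw [hn₁]
    unfold nZ
    rw [fsum_eq U Zs _ hms]
    exact hmR₀.trans_le (single_le_sum (f := fun P : A →ₐ[F] Ω => mI P (Ideal.span {s}))
      (fun _ _ => Nat.zero_le _) (mem_filter.2 ⟨(hZs R₀).2 hR₀s, hsub hR₀⟩))
  have hδs : 1 ≤ cv.δ s := by
    rw [← hds]
    exact hmR₀.trans_le (single_le_sum (f := fun P : A →ₐ[F] Ω => mI P (Ideal.span {s}))
      (fun _ _ => Nat.zero_le _) ((hZs R₀).2 hR₀s))
  -- the values of `s` on the disc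
  have hs_big : ∀ P ∈ U, ε₂ / 2 ≤ ‖P π‖ → ‖P s‖ = Cs * ‖P π‖ ^ n₁ := by
    intro P hP h
    rw [hsP P hP, prod_of_lt hCv hPts cv hs π U (P π) fun Q _ hQ => (hszn Q hQ).trans_le h]
  have hs_small : ∀ P ∈ U, ‖P π‖ ≤ ε₂ / 2 → ‖P s‖ ≤ Cs * (ε₂ / 2) ^ n₁ := by
    intro P hP h
    rw [hsP P hP]
    exact mul_le_mul_of_nonneg_left
      (prod_le_of hCv hPts cv hs π U (P π) _ h fun Q _ hQ => (hszn Q hQ).le) hCs.le
  have hP₀U : P₀ ∈ U :=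
    ⟨fun w _ => by rw [sub_self, norm_zero]; exact hε₁, by rw [hπ0, norm_zero]; exact hε₂⟩
  have hpt : ∀ ρ : ℝ, 0 ≤ ρ → ρ < ε₂ → ∃ P ∈ U, ρ < ‖P π‖ := by
    intro ρ h0 h1
    obtain ⟨x, hx1, hx2⟩ := dense_norm Ω h0 h1
    obtain ⟨P, hP, hPx⟩ := hbij.surjOn (mem_ball_zero_iff.2 hx2)
    have hPx' : P π = x := hPx
    exact ⟨P, hP, by rw [hPx']; exact hx1⟩
  -- the key step
  have key : ∀ Q : A →ₐ[F] Ω, ‖Q s‖ < Cs * ε₂ ^ n₁ → ∃ R ∈ U, RingHom.ker R = RingHom.ker Q := by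
    intro Q hQ
    set h := minpoly F (Q s) with hh
    have hev : ∀ P : A →ₐ[F] Ω, P (aeval s h) = aeval (P s) h := fun P =>
      (aeval_algHom_apply P s h).symm
    have e2 : ∀ c : ℝ, c < ε₂ → ∀ᶠ ρ in 𝓝[<] ε₂, c < ρ := fun c hc =>
      mem_nhdsWithin_of_mem_nhds (Ioi_mem_nhds hc)
    have e3 : ∀ᶠ ρ in 𝓝[<] ε₂, ‖Q s‖ < Cs * ρ ^ n₁ := by
      apply mem_nhdsWithin_of_mem_nhds
      exact ContinuousAt.eventually_lt continuousAt_const (by fun_prop) hQ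
    have e4 : ∀ᶠ ρ in 𝓝[<] ε₂, ρ < ε₂ := self_mem_nhdsWithin
    have hval : ∀ ρ : ℝ, ε₂ / 2 < ρ → ‖Q s‖ < Cs * ρ ^ n₁ → ∀ P ∈ U, ρ < ‖P π‖ →
        ‖P (aeval s h)‖ = Cs ^ h.natDegree * ‖P π‖ ^ (h.natDegree * n₁) := by
      intro ρ h1 h2 P hP h3
      have h4 := hs_big P hP (h1.trans h3).le
      have h5 : ‖Q s‖ < ‖P s‖ := by
        rw [h4]
        refine h2.trans_le (mul_le_mul_of_nonneg_left ?_ hCs.le)
        exact pow_le_pow_left₀ (hε.trans h1).le h3.le _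
      rw [hev, hh, norm_aeval_minpoly hiso _ _ h5, h4, mul_pow, ← pow_mul, mul_comm n₁]
    have hf : aeval s h ≠ 0 := by
      obtain ⟨ρ, h1, h2, h3⟩ := ((e2 _ hεlt).and (e3.and e4)).exists
      obtain ⟨P, hP, h4⟩ := hpt ρ (hε.trans h1).le h3
      intro h0
      have h5 := hval ρ h1 h2 P hP h4
      rw [h0, map_zero, norm_zero] at h5
      have : 0 < ‖P π‖ := (hε.trans h1).trans h4
      have : 0 < Cs ^ h.natDegree * ‖P π‖ ^ (h.natDegree * n₁) := by positivity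
      linarith
    obtain ⟨Cf, hCf, hfP⟩ := hprod _ hf
    obtain ⟨Zf, hZf, -⟩ := exists_Z (Ω := Ω) hCv hPts cv hf
    have e5 : ∀ᶠ ρ in 𝓝[<] ε₂, ∀ Q' ∈ Zf, Q' ∈ U → ‖Q' π‖ < ρ := by
      rw [eventually_all_finset]
      intro Q' _
      by_cases hQ' : Q' ∈ U
      · exact (e2 _ hQ'.2).mono fun _ h' _ => h'
      · exact Eventually.of_forall fun _ h' => absurd h' hQ'
    obtain ⟨ρ, h1, h2, h3, h4⟩ := ((e2 _ hεlt).and (e3.and (e4.and e5))).exists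
    have hval2 : ∀ P ∈ U, ρ < ‖P π‖ → Cf * ‖P π‖ ^ nZ (Ideal.span {aeval s h}) U =
        Cs ^ h.natDegree * ‖P π‖ ^ (h.natDegree * n₁) := by
      intro P hP h5
      rw [← hval ρ h1 h2 P hP h5, hfP P hP, prod_of_lt hCv hPts cv hf π U (P π)
        fun Q' hQ' hz => (h4 Q' ((hZf Q').2 hz) hQ').trans h5]
    obtain ⟨P₁, hP₁, h5⟩ := hpt ρ (hε.trans h1).le h3
    obtain ⟨P₂, hP₂, h6⟩ := hpt ‖P₁ π‖ (norm_nonneg _) hP₁.2
    have hN := two_radii hCf ((hε.trans h1).trans h5) h6 (hval2 P₁ hP₁ h5)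
      (hval2 P₂ hP₂ (h5.trans h6))
    refine count hCv hPts cv hiso W π P₀ hε₁ hε₂ hπ0 hbij.injOn hs hf h.natDegree
      (del_aeval cv hs h) hN (fun P hP => ?_) Q ?_
    · obtain ⟨R, hR, hk⟩ := hsz P hP
      exact ⟨R, hsub hR, hk⟩
    · rw [hev, hh, minpoly.aeval]
  have hgz : ∀ Q ∈ U, Q g = 0 → Q π = 0 := by
    intro Q hQ h
    by_contra h0
    exact absurd hQ.2 (not_lt.2 (hε₂g Q ((hZg Q).2 h) h0))
  refine ⟨s, Cs * (ε₂ / 2) ^ n₁, Cs * ε₂ ^ n₁, Cg ^ n₁ / Cs ^ μ, n₁, μ, hs, hδs, by positivity,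
    mul_lt_mul_of_pos_left (pow_lt_pow_left₀ hεlt hε.le hn₁pos.ne') hCs, by positivity, hn₁pos,
    hs_small P₀ hP₀U (by rw [hπ0, norm_zero]; exact hε.le), fun P h1 h2 => ?_, fun P h1 h2 => ?_⟩
  · obtain ⟨R, hR, hk⟩ := key P h2
    rw [← norm_congr hPts cv hiso hk] at h1
    rw [← norm_congr hPts cv hiso hk, ← norm_congr hPts cv hiso hk]
    have h3 : ε₂ / 2 < ‖R π‖ := by
      by_contra h
      exact absurd (hs_small R hR (not_lt.1 h)) (not_le.2 h1)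
    have h4 := hs_big R hR h3.le
    have h5 : ‖R g‖ = Cg * ‖R π‖ ^ μ := by
      rw [hgP R hR, prod_of_lt hCv hPts cv hg π U (R π) fun Q hQ hz => by
        rw [hgz Q hQ hz, norm_zero]
        exact hε.trans h3]
    constructor
    · rw [h4, h5, mul_pow, mul_pow, ← pow_mul, ← pow_mul, mul_comm μ]
      field_simp
    · have h6 := hC₀ R ⟨hR.1, hR.2.trans_le hε₂₀⟩
      rw [hg0, sub_zero] at h6
      calc ‖R g‖ ≤ C₀ * ‖R π‖ := h6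
        _ ≤ |C₀| * ‖R π‖ := mul_le_mul_of_nonneg_right (le_abs_self _) (norm_nonneg _)
        _ ≤ |C₀| * ε₂ := mul_le_mul_of_nonneg_left hR.2.le (abs_nonneg _)
        _ ≤ 1 := hε₂C
  · by_contra h
    obtain ⟨R, hR, hk⟩ := key P (not_le.1 h)
    have h3 : R g = 0 := by
      rw [← RingHom.mem_ker, hk, RingHom.mem_ker]
      exact h1
    have h4 : R = P₀ := by
      apply hbij.injOn hR hP₀U
      change R π = P₀ π
      rw [hgz R hR h3, hπ0]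
    exact h2 (by rw [← hk, h4])

theorem main2 (hCv : S_Cv) (hPts : S_Pts) (hBC : S_BC) (hRig : S_Rig1) (hUnif : S_Unif)
    (hDisc : S_Disc) (cv : Cv F A) (hiso : ∀ (σ : Ω ≃ₐ[F] Ω) (x : Ω), ‖σ x‖ = ‖x‖)
    (P₀ : A →ₐ[F] Ω) (g : A) (n : ℕ) (hg : g ≠ 0) (hg0 : P₀ g = 0) :
    ∃ (s : A) (c₁ c₃ C : ℝ) (a b : ℕ), s ≠ 0 ∧ n ≤ cv.δ s ∧ 0 < c₁ ∧ c₁ < c₃ ∧
      c₃ ≤ 1 ∧ 0 < C ∧ 0 < a ∧ ‖P₀ s‖ ≤ c₁ ∧
      (∀ P : A →ₐ[F] Ω, c₁ < ‖P s‖ → ‖P s‖ < c₃ → ‖P g‖ ^ a = C * ‖P s‖ ^ b ∧ ‖P g‖ ≤ 1) ∧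
      ∀ P : A →ₐ[F] Ω, P g = 0 → RingHom.ker P ≠ RingHom.ker P₀ → c₃ ≤ ‖P s‖ := by
  obtain ⟨s, c₁, c₃, C, a, b, hs, hδ, hc₁, hc₃, hC, ha, h0, h1, h2⟩ :=
    main1 hCv hPts hBC hRig hUnif hDisc cv hiso P₀ g hg hg0
  have hc₃' : 0 < c₃ := hc₁.trans hc₃
  obtain ⟨l, hl0, hl1⟩ := NormedField.exists_norm_lt F
    (show 0 < 1 / c₃ ^ (n + 1) by positivity)
  have hl : l ≠ 0 := norm_pos_iff.1 hl0
  have := cv.ded
  have hal : algebraMap F A l ≠ 0 := by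
    intro h
    have := congrArg P₀ h
    rw [AlgHom.commutes, map_zero] at this
    exact hl ((algebraMap F Ω).injective (by rw [this, map_zero]))
  have hv : ∀ P : A →ₐ[F] Ω, ‖P (algebraMap F A l * s ^ (n + 1))‖ = ‖l‖ * ‖P s‖ ^ (n + 1) := by
    intro P
    rw [map_mul, map_pow, AlgHom.commutes, norm_mul, norm_pow, norm_algebraMap']
  refine ⟨algebraMap F A l * s ^ (n + 1), ‖l‖ * c₁ ^ (n + 1), ‖l‖ * c₃ ^ (n + 1),
    C ^ (n + 1) / ‖l‖ ^ b, a * (n + 1), b, mul_ne_zero hal (pow_ne_zero _ hs), ?_, by positivity,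
    mul_lt_mul_of_pos_left (pow_lt_pow_left₀ hc₃ hc₁.le (Nat.succ_ne_zero n)) hl0, ?_,
    by positivity, by positivity, ?_, fun P h3 h4 => ?_, fun P h3 h4 => ?_⟩
  · rw [cv.mul _ _ hal (pow_ne_zero _ hs), cv.const, zero_add, del_pow cv hs]
    nlinarith
  · rw [lt_div_iff₀ (by positivity)] at hl1
    exact hl1.le
  · rw [hv]
    exact mul_le_mul_of_nonneg_left (pow_le_pow_left₀ (norm_nonneg _) h0 _) hl0.le
  · rw [hv] at h3 h4 ⊢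
    have h5 : c₁ < ‖P s‖ :=
      lt_of_pow_lt_pow_left₀ _ (norm_nonneg _) (lt_of_mul_lt_mul_left h3 hl0.le)
    have h6 : ‖P s‖ < c₃ := lt_of_pow_lt_pow_left₀ _ hc₃'.le (lt_of_mul_lt_mul_left h4 hl0.le)
    obtain ⟨h7, h8⟩ := h1 P h5 h6
    refine ⟨?_, h8⟩
    rw [pow_mul, h7, mul_pow, mul_pow, ← pow_mul, ← pow_mul, mul_comm b]
    field_simp
  · rw [hv]
    exact mul_le_mul_of_nonneg_left (pow_le_pow_left₀ hc₃'.le (h2 P h3 h4) _) hl0.le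

end main

end LemP

theorem p_lem (hCv : S_Cv) (hPts : S_Pts) (hBC : S_BC) (hRig : S_Rig1) (hUnif : S_Unif) (hDisc : S_Disc) : S_Lem := by
  intro r _ F _ A _ _ cv P₀ g n hg hg0
  let := LemP.nAlg F
  have := LemP.proper F
  have : Algebra.IsAlgebraic F (PadicAlgCl r) := Algebra.IsAlgebraic.tower_top (K := ℚ_[r]) F
  refine LemP.main2 hCv hPts hBC hRig hUnif hDisc cv (fun σ x => ?_) P₀ g n hg hg0
  exact (spectralNorm_eq_of_equiv (σ.restrictScalars ℚ_[r]) x).symm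

end Pool.Agent.P.MP_b8021b_nt.VC
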