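import Pool.Agent.P.MP_b8021b_nt.VC.BasicC

/-! Limits of divisors and of linear equivalences. -/

namespace Pool.Agent.P.MP_b8021b_nt.VC

open Polynomial Finset Filter Pool.Agent.P.MP_b8021b_nt.VE
open scoped Classical Topology

noncomputable section

namespace Lim

/-- the filter of small basic neighbourhoods -/
def sm (A : Type) : Filter (Finset A × ℝ) := atTop ×ˢ 𝓝[>] (0 : ℝ)

instance smNe (A : Type) : (sm A).NeBot := by
  unfold sm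
  infer_instance

theorem ev_sm {A : Type} (W₀ : Finset A) {ε₀ : ℝ} (h : 0 < ε₀) :
    ∀ᶠ x in sm A, W₀ ⊆ x.1 ∧ 0 < x.2 ∧ x.2 ≤ ε₀ := by
  have h1 : ∀ᶠ W : Finset A in atTop, W₀ ⊆ W := eventually_ge_atTop W₀
  have h2 : ∀ᶠ e : ℝ in 𝓝[>] 0, 0 < e ∧ e ≤ ε₀ := Ioc_mem_nhdsGT h
  exact (h1.prod_mk h2).mono fun x hx => ⟨hx.1, hx.2⟩

section

variable {F A Ω : Type} [Field F] [CommRing A] [Algebra F A] [NormedField Ω] [Algebra F Ω]

theorem conv_ev {J : ℕ → Ideal A} {D : (A →ₐ[F] Ω) → ℕ} (h : Conv J D) (P : A →ₐ[F] Ω) :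
    ∀ᶠ x in sm A, ∀ᶠ k in atTop, nZ (J k) (Near x.1 x.2 P) = D P := by
  obtain ⟨W₀, ε₀, h0, h1⟩ := h P
  exact (ev_sm W₀ h0).mono fun x hx => h1 x.1 x.2 hx.1 hx.2.1 hx.2.2

theorem conv_sub {J : ℕ → Ideal A} {D : (A →ₐ[F] Ω) → ℕ} (h : Conv J D) {φ : ℕ → ℕ}
    (hφ : StrictMono φ) : Conv (fun k => J (φ k)) D := by
  intro P
  obtain ⟨W₀, ε₀, h0, h1⟩ := h P
  exact ⟨W₀, ε₀, h0, fun W ε a b c => hφ.tendsto_atTop.eventually (h1 W ε a b c)⟩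

variable [CharZero F] [IsAlgClosed Ω] [Algebra.IsAlgebraic F Ω] (hP : S_Pts) (cv : Cv F A)
include hP cv

/-- the limit of divisors of degree at most `n` has degree at most `n` -/
theorem sum_le {J : ℕ → Ideal A} {D : (A →ₐ[F] Ω) → ℕ} (h : Conv J D) {n : ℕ}
    (hJ : ∀ k, J k ≠ ⊥ ∧ dg F (J k) ≤ n) (T : Finset (A →ₐ[F] Ω)) : ∑ P ∈ T, D P ≤ n := by
  obtain ⟨W₀, ε₀, h0, h1⟩ := exists_disjoint_near T.finite_toSet
  have h2 := (Filter.eventually_all_finset T).2 fun P _ => conv_ev h P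
  obtain ⟨x, ⟨hx1, -, hx2⟩, hx3⟩ := ((ev_sm W₀ h0).and h2).exists
  obtain ⟨k, hk⟩ := ((Filter.eventually_all_finset T).2 hx3).exists
  rw [← Finset.sum_congr rfl hk, ← nZ_biUnion hP cv (hJ k).1 T (fun P => Near x.1 x.2 P)
    fun P hP' Q hQ hne => (h1 P hP' Q hQ hne).mono (near_mono hx1 hx2 P) (near_mono hx1 hx2 Q)]
  exact (nZ_le_dg hP cv (hJ k).1 _).trans (hJ k).2

end

section

variable {F A : Type} [Field F] [CharZero F] [CommRing A] [Algebra F A] (hC : S_Cv) (cv : Cv F A)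
include hC

/-- an ideal contains a function of bounded degree -/
theorem exists_mem {J : Ideal A} (hJ : J ≠ ⊥) {n : ℕ} (hn : dg F J ≤ n) :
    ∃ a ∈ J, a ≠ 0 ∧ cv.δ a ≤ n + cv.g := by
  obtain ⟨h1, -, -, -, -, h6, -⟩ := hC F A cv
  have := h1 J hJ
  obtain ⟨h7, h8⟩ := h6 (n + cv.g)
  let f : cv.L (n + cv.g) →ₗ[F] A ⧸ J :=
    (Ideal.Quotient.mkₐ F J).toLinearMap.comp (cv.L (n + cv.g)).subtype
  have h9 : LinearMap.ker f ≠ ⊥ := LinearMap.ker_ne_bot_of_finrank_lt (by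
    rw [dg] at hn
    omega)
  obtain ⟨a, ha, ha0⟩ := Submodule.exists_mem_ne_zero_of_ne_bot h9
  refine ⟨a, ?_, fun h => ha0 (Subtype.ext h), a.2⟩
  exact Ideal.Quotient.eq_zero_iff_mem.1 ha

end

section

variable {F A Ω : Type} [NontriviallyNormedField F] [ProperSpace F] [CharZero F] [CommRing A]
  [Algebra F A] [NontriviallyNormedField Ω] [NormedAlgebra F Ω] [IsAlgClosed Ω]
  [Algebra.IsAlgebraic F Ω] (hC : S_Cv) (hS : S_Stab) (cv : Cv F A)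
include hC hS

variable (Ω) in
/-- principal divisors of bounded degree have a convergent subsequence with a principal limit -/
theorem prin (a : ℕ → A) (n : ℕ) (ha : ∀ k, a k ≠ 0 ∧ cv.δ (a k) ≤ n) :
    ∃ (φ : ℕ → ℕ) (f : A), StrictMono φ ∧ f ≠ 0 ∧
      Conv (fun k => Ideal.span {a (φ k)}) (fun P : A →ₐ[F] Ω => mI P (Ideal.span {f})) := by
  obtain ⟨-, -, -, -, -, h6, -⟩ := hC F A cv
  have := (h6 n).1
  let b := Module.finBasis F (cv.L n)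
  let v : ℕ → cv.L n := fun k => ⟨a k, (ha k).2⟩
  have hv : ∀ k, b.equivFun (v k) ≠ 0 := fun k h =>
    (ha k).1 (congrArg Subtype.val (b.equivFun.map_eq_zero_iff.1 h))
  obtain ⟨c, hc⟩ := NormedField.exists_one_lt_norm F
  choose d hd0 hd1 hd2 _ using fun k => rescale_to_shell hc one_pos (hv k)
  obtain ⟨x, -, φ, hφ, hx⟩ := tendsto_subseq_of_bounded (Metric.isBounded_ball (x := 0) (r := 1))
    (x := fun k => d k • b.equivFun (v k)) fun k => by simpa using hd1 k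
  have hx0 : x ≠ 0 := by
    have h1 : 1 / ‖c‖ ≤ ‖x‖ := ge_of_tendsto' hx.norm fun k => hd2 (φ k)
    have h2 : 0 < 1 / ‖c‖ := by positivity
    exact norm_pos_iff.1 (h2.trans_le h1)
  have hf0 : (b.equivFun.symm x : A) ≠ 0 := fun h =>
    hx0 (b.equivFun.symm.map_eq_zero_iff.1 (Subtype.ext h))
  refine ⟨φ, b.equivFun.symm x, hφ, hf0, fun P => ?_⟩
  obtain ⟨W₀, ε₀, h0, h1⟩ := hS F A Ω cv _ P hf0
  refine ⟨W₀, ε₀, h0, fun W ε hW hε hε' => ?_⟩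
  obtain ⟨η, hη, h2⟩ := h1 W ε hW hε hε' _ fun i => (b i : A)
  filter_upwards [Metric.tendsto_nhds.1 hx η hη] with k hk
  have h3 := (h2 (d (φ k) • b.equivFun (v (φ k)) - x) fun i =>
    (norm_le_pi_norm _ i).trans_lt (by simpa [dist_eq_norm] using hk)).2
  have h4 : b.equivFun.symm x + ∑ i, (d (φ k) • b.equivFun (v (φ k)) - x) i • b i =
      d (φ k) • v (φ k) := by
    rw [← Module.Basis.equivFun_symm_apply, ← map_add, add_sub_cancel, map_smul,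
      LinearEquiv.symm_apply_apply]
  have h5 := congrArg Subtype.val h4
  simp only [Submodule.coe_add, Submodule.coe_sum, Submodule.coe_smul] at h5
  rw [h5, Algebra.smul_def, Ideal.span_singleton_mul_left_unit
    ((hd0 (φ k)).isUnit.map (algebraMap F A))] at h3
  exact h3

variable (hP : S_Pts)
include hP

include cv in
theorem part1 (J : ℕ → Ideal A) (n : ℕ) (hJ : ∀ k, J k ≠ ⊥ ∧ dg F (J k) ≤ n) :
    ∃ (φ : ℕ → ℕ) (D : (A →ₐ[F] Ω) → ℕ), StrictMono φ ∧ Conv (J ∘ φ) D := by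
  have := cv.ded
  choose a ha ha0 ha1 using fun k => exists_mem hC cv (hJ k).1 (hJ k).2
  obtain ⟨φ, f, hφ, hf, h1⟩ := prin Ω hC hS cv a _ fun k => ⟨ha0 k, ha1 k⟩
  choose W₀ ε₀ h0 h2 using h1
  have hZ := zeros_finite' (Ω := Ω) hP cv hf
  have : Finite {P : A →ₐ[F] Ω // P f = 0} := hZ
  let u : ℕ → {P : A →ₐ[F] Ω // P f = 0} → Fin (n + 1) := fun k P =>
    ⟨nZ (J (φ k)) (Near (W₀ P) (ε₀ P) P.1),
      Nat.lt_succ_of_le ((nZ_le_dg hP cv (hJ _).1 _).trans (hJ _).2)⟩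
  obtain ⟨y, hy⟩ := Finite.exists_infinite_fiber u
  have hy' : (u ⁻¹' {y}).Infinite := Set.infinite_coe_iff.1 hy
  refine ⟨φ ∘ Nat.nth (· ∈ u ⁻¹' {y}), fun P => if h : P f = 0 then y ⟨P, h⟩ else 0,
    hφ.comp (Nat.nth_strictMono hy'), fun P => ⟨W₀ P, ε₀ P, h0 P, fun W ε hW hε hε' => ?_⟩⟩
  have ht := (Nat.nth_strictMono hy').tendsto_atTop
  filter_upwards [ht.eventually (h2 P W ε hW hε hε'),
    ht.eventually (h2 P (W₀ P) (ε₀ P) le_rfl (h0 P) le_rfl)] with k hk hk0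
  set m := Nat.nth (· ∈ u ⁻¹' {y}) k
  have hm : u m = y := Nat.nth_mem_of_infinite hy' k
  obtain ⟨K, hK⟩ : J (φ m) ∣ Ideal.span {a (φ m)} :=
    Ideal.dvd_iff_le.2 ((Ideal.span_singleton_le_iff_mem _).2 (ha _))
  have hK0 : K ≠ ⊥ := by
    rintro rfl
    exact span_ne_bot (ha0 (φ m)) (by simpa using hK)
  change nZ (Ideal.span {a (φ m)}) _ = _ at hk hk0
  rw [hK, nZ_mul hP cv (hJ _).1 hK0] at hk hk0
  have h3 := nZ_mono hP cv (hJ (φ m)).1 (near_mono hW hε' P)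
  have h4 := nZ_mono hP cv hK0 (near_mono hW hε' P)
  change nZ (J (φ m)) (Near W ε P) = _
  split_ifs with h
  · have h5 : nZ (J (φ m)) (Near (W₀ P) (ε₀ P) P) = y ⟨P, h⟩ :=
      congrArg Fin.val (congrFun hm ⟨P, h⟩)
    omega
  · rw [(mI_span_eq_zero hP cv hf P).2 h] at hk
    omega

theorem part2 (E₀ : Ideal A) (D E J J' : ℕ → Ideal A) (n : ℕ) (X Y : (A →ₐ[F] Ω) → ℕ)
    (hE₀ : E₀ ≠ ⊥) (hR : cv.Rig E₀) (hD : ∀ k, D k ≠ ⊥ ∧ dg F (D k) ≤ cv.g)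
    (hE : ∀ k, E k ≠ ⊥ ∧ dg F (E k) ≤ n) (hJ : ∀ k, J k ≠ ⊥ ∧ dg F (J k) ≤ n)
    (hJ' : ∀ k, J' k ≠ ⊥ ∧ dg F (J' k) ≤ n)
    (hab : ∀ k, ∃ a b : A, a ≠ 0 ∧ b ≠ 0 ∧
      Ideal.span {a} * (D k * J k) = Ideal.span {b} * (E k * J' k))
    (cE : Conv E (fun P : A →ₐ[F] Ω => mI P E₀)) (cJ : Conv J X) (cJ' : Conv J' X)
    (cD : Conv D Y) (P : A →ₐ[F] Ω) : Y P = mI P E₀ := by
  have := cv.ded
  obtain ⟨-, h2, h3, -⟩ := hC F A cv
  have key : ∀ k, ∃ (α β : A) (K : Ideal A), K ≠ ⊥ ∧ (α ≠ 0 ∧ cv.δ α ≤ cv.g + n + cv.g) ∧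
      (β ≠ 0 ∧ cv.δ β ≤ n + n + (cv.g + n + cv.g)) ∧ Ideal.span {α} = D k * J k * K ∧
      Ideal.span {β} = E k * J' k * K := by
    intro k
    have hDJ : D k * J k ≠ ⊥ := mul_ne_zero (hD k).1 (hJ k).1
    have hEJ : E k * J' k ≠ ⊥ := mul_ne_zero (hE k).1 (hJ' k).1
    obtain ⟨α, hα, hα0, hα1⟩ := exists_mem hC cv hDJ (n := cv.g + n) (by
      rw [h2 _ _ (hD k).1 (hJ k).1]
      exact add_le_add (hD k).2 (hJ k).2)
    obtain ⟨K, hK⟩ : D k * J k ∣ Ideal.span {α} :=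
      Ideal.dvd_iff_le.2 ((Ideal.span_singleton_le_iff_mem _).2 hα)
    have hK0 : K ≠ ⊥ := by
      rintro rfl
      exact span_ne_bot hα0 (by simpa using hK)
    obtain ⟨a, b, ha, hb, h⟩ := hab k
    have h4 : Ideal.span {a * α} = Ideal.span {b} * (E k * J' k * K) := by
      rw [← Ideal.span_singleton_mul_span_singleton, hK, ← mul_assoc, h, mul_assoc]
    obtain ⟨β, hβ⟩ : b ∣ a * α := by
      refine Ideal.span_singleton_le_span_singleton.1 ?_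
      rw [h4]
      exact Ideal.le_of_dvd (dvd_mul_right _ _)
    rw [hβ, ← Ideal.span_singleton_mul_span_singleton] at h4
    have h5 := mul_left_cancel₀ (span_ne_bot hb) h4
    have hβ0 : β ≠ 0 := by
      rintro rfl
      exact mul_ne_zero ha hα0 (by simpa using hβ)
    refine ⟨α, β, K, hK0, ⟨hα0, hα1⟩, ⟨hβ0, ?_⟩, hK, h5⟩
    have h6 := h3 α hα0
    rw [hK, h2 _ _ hDJ hK0] at h6
    rw [← h3 β hβ0, h5, h2 _ _ hEJ hK0, h2 _ _ (hE k).1 (hJ' k).1]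
    have := (hE k).2
    have := (hJ' k).2
    omega
  choose α β K hK hα hβ e1 e2 using key
  obtain ⟨φ, f, hφ, hf, c1⟩ := prin Ω hC hS cv α _ hα
  obtain ⟨ψ, g, hψ, hg, c2⟩ := prin Ω hC hS cv (fun k => β (φ k)) _ fun k => hβ (φ k)
  have hs := hφ.comp hψ
  have h7 : ∀ Q : A →ₐ[F] Ω, mI Q (Ideal.span {f} * E₀) = mI Q (Ideal.span {g}) + Y Q := by
    intro Q
    obtain ⟨x, hx⟩ := ((conv_ev (conv_sub c1 hψ) Q).and ((conv_ev c2 Q).and
      ((conv_ev (conv_sub cE hs) Q).and ((conv_ev (conv_sub cJ hs) Q).and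
      ((conv_ev (conv_sub cJ' hs) Q).and (conv_ev (conv_sub cD hs) Q)))))).exists
    obtain ⟨k, a1, a2, a3, a4, a5, a6⟩ := (hx.1.and (hx.2.1.and (hx.2.2.1.and (hx.2.2.2.1.and
      (hx.2.2.2.2.1.and hx.2.2.2.2.2))))).exists
    simp only [Function.comp_apply] at a3 a4 a5 a6
    rw [e1, nZ_mul hP cv (mul_ne_zero (hD _).1 (hJ _).1) (hK _),
      nZ_mul hP cv (hD _).1 (hJ _).1] at a1
    rw [e2, nZ_mul hP cv (mul_ne_zero (hE _).1 (hJ' _).1) (hK _),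
      nZ_mul hP cv (hE _).1 (hJ' _).1] at a2
    rw [mI_mul hP cv (span_ne_bot hf) hE₀]
    omega
  have hfE : Ideal.span {f} * E₀ ≠ ⊥ := mul_ne_zero (span_ne_bot hf) hE₀
  obtain ⟨Z, hZ⟩ := dvd_of_mI Ω hP cv (span_ne_bot hg) hfE fun Q => by rw [h7]; omega
  have hZ0 : Z ≠ ⊥ := by
    rintro rfl
    exact hfE (by simpa using hZ)
  have h8 : ∀ Q : A →ₐ[F] Ω, mI Q Z = Y Q := by
    intro Q
    have := h7 Q
    rw [hZ, mI_mul hP cv (span_ne_bot hg) hZ0] at this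
    omega
  have h9 : dg F Z ≤ cv.g := by
    rw [← nZ_univ (Ω := Ω) hP cv hZ0, nZ_eq_sum hP cv hZ0 _ (zeros_finite hP cv hZ0).toFinset
      (by simp)]
    simp only [h8]
    exact sum_le hP cv cD hD _
  rw [← h8, hR Z g f hZ0 h9 hg hf hZ.symm]

end

end Lim

theorem p_lim (hC : S_Cv) (hP : S_Pts) (hS : S_Stab) : S_Lim := by
  intro F A Ω _ _ _ _ _ _ _ _ _ cv
  exact ⟨Lim.part1 hC hS cv hP, Lim.part2 hC hS cv hP⟩

end

end Pool.Agent.P.MP_b8021b_nt.VC
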