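import Pool.Agent.P.MP_b8021b_nt.VC.StT

/-! Equidistribution on the fibres that are not bad. -/

namespace Pool.Agent.P.MP_b8021b_nt.VC.PMix

open Polynomial NumberField Finset Filter Pool.Agent.P.MP_b8021b_nt.VE
open scoped Classical

lemma ev_pow (k : ℕ) (C : ℝ) : ∃ y₀ : ℝ, ∀ y, y₀ ≤ y → C * Real.log y ^ k ≤ y := by
  have h := (Real.isLittleO_pow_log_id_atTop (n := k)).bound
    (c := 1 / (|C| + 1)) (by positivity)
  obtain ⟨y₀, hy⟩ := eventually_atTop.mp h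
  refine ⟨max y₀ 1, fun y hy' => ?_⟩
  have h1 := hy y (le_trans (le_max_left _ _) hy')
  have h2 : 1 ≤ y := le_trans (le_max_right _ _) hy'
  have h3 : 0 ≤ Real.log y ^ k := pow_nonneg (Real.log_nonneg h2) k
  simp only [id, Real.norm_eq_abs] at h1
  rw [abs_of_nonneg h3, abs_of_nonneg (by linarith : (0 : ℝ) ≤ y), one_div, inv_mul_eq_div,
    le_div_iff₀ (by positivity)] at h1
  nlinarith [le_abs_self C]

lemma ev_rpow (k : ℕ) (C δ : ℝ) (hδ : 0 < δ) :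
    ∃ y₀ : ℝ, ∀ y, y₀ ≤ y → C * Real.log y ^ k ≤ y ^ δ := by
  obtain ⟨y₁, h⟩ := ev_pow k (C / δ ^ k)
  obtain ⟨y₀, hy⟩ := eventually_atTop.mp ((tendsto_rpow_atTop hδ).eventually_ge_atTop y₁)
  refine ⟨max y₀ 1, fun y hy' => ?_⟩
  have h2 : 1 ≤ y := le_trans (le_max_right _ _) hy'
  have h1 := h _ (hy y (le_trans (le_max_left _ _) hy'))
  rw [Real.log_rpow (by linarith), mul_pow] at h1
  refine le_trans (le_of_eq ?_) h1
  field_simp

lemma ev_log (C : ℝ) : ∃ y₀ : ℝ, ∀ y, y₀ ≤ y → C ≤ Real.log y :=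
  ⟨Real.exp C, fun _ hy => (Real.le_log_iff_exp_le ((Real.exp_pos C).trans_le hy)).mpr hy⟩

lemma two_pow_omega {n : ℕ} (hn : n ≠ 0) : 2 ^ n.primeFactors.card ≤ n := by
  refine le_trans ?_ (Nat.le_of_dvd (Nat.pos_of_ne_zero hn) (Nat.prod_primeFactors_dvd n))
  exact pow_card_le_prod _ _ _ fun q hq => (Nat.prime_of_mem_primeFactors hq).two_le

lemma omega_le {n a : ℕ} {y : ℝ} (hn : n ≠ 0) (hy : (n : ℝ) ≤ y ^ a) :
    (n.primeFactors.card : ℝ) ≤ 2 * a * Real.log y := by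
  have h2 : (2 : ℝ) ^ n.primeFactors.card ≤ y ^ a := by
    refine le_trans ?_ hy
    exact_mod_cast two_pow_omega hn
  have h3 := Real.log_le_log (by positivity) h2
  rw [Real.log_pow, Real.log_pow] at h3
  have h4 := Real.log_two_gt_d9
  have h5 : (0 : ℝ) ≤ n.primeFactors.card := Nat.cast_nonneg _
  nlinarith

lemma eqd (hErr : S_Err) {k : Type} [Field k] [NumberField k] [Algebra k ℂ] (K : BF k) {L : Type}
    [Field L] [NumberField L] [Algebra k L] {ω ωk : ℕ → ℝ} {M n N u a m m' b e : ℕ} {y δ : ℝ}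
    (hn : 2 ≤ n) (hM : M ∣ n) (hny : (n : ℝ) ≤ y ^ a) (hδ : (b : ℝ) + 2 ≤ δ * u) (hy : 1 ≤ y)
    (hl : 2 ^ (u + 1) ≤ Real.log y) (he : Module.finrank ℚ L = 2 * e)
    (hw : ∀ i < N, ∀ q ∈ strat y N i, 0 ≤ ω q ∧ ω q ≤ 8 * N * Real.log y / y)
    (hH : (Set.ncard (Chs k n ((N : ℝ) ^ 2) (y ^ a) : Set (Ideal (𝓞 L) →* ℂ)) : ℝ) ≤ y ^ b)
    (hb : ¬ Bad k L ω ωk M y N δ a)
    (hE : Err k k ωk y N u (n ^ 2) 0 ≤ (Real.log y ^ (m + 1))⁻¹)
    (hN : (N : ℝ) ≤ 2 * Real.log y ^ m') (hNy : (N : ℝ) ≤ y)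
    (e1 : 2 ^ (u + 1) * Real.log y ^ m ≤ y) (e2 : 2 * Real.log y ^ m ≤ y ^ δ)
    (e3 : 128 * e * a * Real.log y ^ (m' + m + 2) ≤ y) :
    EqD k L ω y N u n (y ^ a) (Real.log y ^ m)⁻¹ := by
  set l := Real.log y with hl'
  have h2u : (0 : ℝ) < 2 ^ (u + 1) := by positivity
  have hl0 : 0 < l := by linarith
  have hy0 : 0 < y := by linarith
  have hm : 0 < l ^ m := by positivity
  refine hErr k K L ω ωk M n N u a y δ (8 * N * l / y) (y ^ b) _ hn hM hny hy0 (by positivity) hw hH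
    hb ?_ ?_
  · have a1 : 2 ^ u * Err k k ωk y N u (n ^ 2) 0 ≤ (l ^ m)⁻¹ / 2 := by
      calc 2 ^ u * Err k k ωk y N u (n ^ 2) 0 ≤ 2 ^ u * (l ^ (m + 1))⁻¹ :=
            mul_le_mul_of_nonneg_left hE (by positivity)
        _ = 2 ^ (u + 1) / l * ((l ^ m)⁻¹ / 2) := by
            field_simp
            ring
        _ ≤ 1 * ((l ^ m)⁻¹ / 2) :=
            mul_le_mul_of_nonneg_right ((div_le_one hl0).mpr hl) (by positivity)
        _ = _ := one_mul _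
    have a2 : (y ^ (-δ)) ^ u ≤ (y ^ (b + 2))⁻¹ := by
      rw [← Real.rpow_natCast, ← Real.rpow_mul hy0.le, ← Real.rpow_natCast, ← Real.rpow_neg hy0.le]
      refine Real.rpow_le_rpow_of_exponent_le hy ?_
      push_cast
      linarith
    have a3 : 2 ^ u * y ^ b * N * (y ^ (-δ)) ^ u ≤ (l ^ m)⁻¹ / 2 := by
      calc 2 ^ u * y ^ b * N * (y ^ (-δ)) ^ u ≤ 2 ^ u * y ^ b * y * (y ^ (b + 2))⁻¹ :=
            mul_le_mul (mul_le_mul_of_nonneg_left hNy (by positivity)) a2 (by positivity)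
              (by positivity)
        _ = 2 ^ (u + 1) * l ^ m / y * ((l ^ m)⁻¹ / 2) := by
            field_simp
            ring
        _ ≤ 1 * ((l ^ m)⁻¹ / 2) :=
            mul_le_mul_of_nonneg_right ((div_le_one hy0).mpr e1) (by positivity)
        _ = _ := one_mul _
    linarith
  · have a1 := omega_le (by omega) hny
    have a2 : 8 * N * l / y * Module.finrank ℚ L * n.primeFactors.card ≤ (l ^ m)⁻¹ / 2 := by
      rw [he]
      calc 8 * N * l / y * ((2 * e : ℕ) : ℝ) * n.primeFactors.card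
          ≤ 8 * (2 * l ^ m') * l / y * ((2 * e : ℕ) : ℝ) * (2 * a * l) := by
            gcongr
        _ = 128 * e * a * l ^ (m' + m + 2) / y * ((l ^ m)⁻¹ / 2) := by
            push_cast
            field_simp
            ring
        _ ≤ 1 * ((l ^ m)⁻¹ / 2) :=
            mul_le_mul_of_nonneg_right ((div_le_one hy0).mpr e3) (by positivity)
        _ = _ := one_mul _
    have a3 : y ^ (-δ) ≤ (l ^ m)⁻¹ / 2 := by
      rw [Real.rpow_neg hy0.le, div_eq_mul_inv, ← mul_inv, mul_comm]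
      exact inv_anti₀ (by positivity) e2
    linarith

lemma num_le {y N : ℝ} {n a c C : ℕ} (hy : 1 ≤ y) (hc : c ≤ a) (hn : (n : ℝ) ≤ y ^ a)
    (hN : N ^ 2 ≤ y) : (y ^ c * n * N ^ 2 * y ^ a) ^ C ≤ y ^ ((3 * a + 1) * C) := by
  rw [pow_mul]
  refine pow_le_pow_left₀ (by positivity) ?_ C
  have h1 : y ^ c ≤ y ^ a := pow_le_pow_right₀ hy hc
  calc y ^ c * n * N ^ 2 * y ^ a ≤ y ^ a * y ^ a * y * y ^ a := by gcongr
    _ = _ := by ring

lemma dl_ne {t t' : ℤ × ℤ} (h : 0 < t.2) (h' : 0 < t'.2) {ζ : ℝ} (hζ : 0 < ζ)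
    (hc : ζ ≤ |(t.1 : ℝ) / t.2 - (t'.1 : ℝ) / t'.2|) : dl t t' ≠ 0 := by
  intro h0
  have h1 : (t.1 : ℝ) * t'.2 - t'.1 * t.2 = 0 := by
    unfold dl at h0
    exact_mod_cast h0
  have h2 : (0 : ℝ) < t.2 := by exact_mod_cast h
  have h3 : (0 : ℝ) < t'.2 := by exact_mod_cast h'
  have h4 : (t.1 : ℝ) / t.2 - (t'.1 : ℝ) / t'.2 = 0 := by
    rw [sub_eq_zero, div_eq_div_iff h2.ne' h3.ne']
    linarith
  rw [h4, abs_zero] at hc
  linarith

lemma one_le_Pi {R : Type} [CommRing R] [Algebra ℤ[X] R] (p : Par R) (z n : ℕ) : 1 ≤ Pi p z n := by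
  unfold Pi
  refine le_trans (le_of_eq prod_const_one.symm) (prod_le_prod (fun _ _ => zero_le_one) fun l _ => ?_)
  have : (0 : ℝ) ≤ 20 * p.e / (l : ℝ) := by positivity
  linarith

lemma abs_sub_one_le {W M : ℝ} (h0 : 0 ≤ W) (h1 : W ≤ M) (hM : 1 ≤ M) : |W - 1| ≤ M :=
  abs_le.mpr ⟨by linarith, by linarith⟩

lemma out_le {R : Type} [CommRing R] [Algebra ℤ[X] R] {p : Par R} {c : Cfg}
    (T₀ A : Finset (Tset p c)) (Bd : Tset p c → Prop) (a b : ℝ)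
    (B : Finset (ℤ × ℤ)) (B' : Finset (Tset p c)) (hT : ∀ t : Tset p c, 0 ≤ wT p c t.1)
    (hT₀ : ∀ t, t ∈ T₀ ↔ IsCoprime t.1.1 t.1.2 ∧ ¬ Bd t) (hA : ∀ t, t ∈ A ↔ t ∉ T₀)
    (hB : ∀ t, t ∈ B ↔ t ∈ Tset p c ∧ ¬ IsCoprime t.1 t.2)
    (hB' : ∀ t, t ∈ B' ↔ IsCoprime t.1.1 t.1.2 ∧ Bd t) (h1 : ∑ t ∈ B, wT p c t ≤ a)
    (h2 : ∑ t ∈ B', wT p c t.1 ≤ b) : ∑ t ∈ A, wT p c t.1 ≤ a + b := by
  have e : ∑ t ∈ B, wT p c t = ∑ t : Tset p c with ¬ IsCoprime t.1.1 t.1.2, wT p c t.1 := by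
    have : B = (Tset p c).filter fun t => ¬ IsCoprime t.1 t.2 := by
      ext t
      rw [hB, mem_filter]
    rw [this, sum_filter, sum_filter, ← sum_coe_sort (Tset p c)]
  rw [e] at h1
  have hsub : A ⊆ (univ.filter fun t : Tset p c => ¬ IsCoprime t.1.1 t.1.2) ∪ B' := by
    intro t ht
    rw [hA, hT₀] at ht
    rw [mem_union, mem_filter, hB']
    by_cases h : IsCoprime t.1.1 t.1.2
    · exact Or.inr ⟨h, by_contra fun hb => ht ⟨h, hb⟩⟩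
    · exact Or.inl ⟨mem_univ _, h⟩
  refine (sum_le_sum_of_subset_of_nonneg hsub fun t _ _ => hT t).trans ?_
  rw [sum_union]
  · exact add_le_add h1 h2
  · rw [disjoint_left]
    intro t ht ht'
    exact (mem_filter.mp ht).2 ((hB' t).mp ht').1

lemma small {l CS : ℝ} {v k : ℕ} (hl : 1 ≤ l) (hk : 2 * v + 1 ≤ k) :
    2 * (CS * l ^ v) ^ 2 * (l ^ k)⁻¹ ≤ 2 * CS ^ 2 / l := by
  have h0 : 0 < l := by linarith
  have h1 : l ^ (2 * v + 1) ≤ l ^ k := pow_le_pow_right₀ hl hk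
  calc 2 * (CS * l ^ v) ^ 2 * (l ^ k)⁻¹ ≤ 2 * (CS * l ^ v) ^ 2 * (l ^ (2 * v + 1))⁻¹ :=
        mul_le_mul_of_nonneg_left (inv_anti₀ (by positivity) h1) (by positivity)
    _ = _ := by
        field_simp
        ring

end Pool.Agent.P.MP_b8021b_nt.VC.PMix
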