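import Pool.Agent.P.MP_b8021b_nt.VC.PMix1
import Pool.Agent.P.MP_b8021b_nt.VC.PMix2
import Pool.Agent.P.MP_b8021b_nt.VC.StA
import Pool.Agent.P.MP_b8021b_nt.VC.StG

/-! The design is mixing. -/

namespace Pool.Agent.P.MP_b8021b_nt.VC

open Polynomial NumberField Finset Pool.Agent.P.MP_b8021b_nt.VE
open scoped Classical

open PMix in
theorem p_mix (hCnt : VE.S_Cnt) (hCut : S_CutK) (hBF : S_BF) (hFbEx : S_FbEx) (hWt : S_Wt) (hIndT : S_IndT) (hIndS : S_IndS) (hFlat : S_Flat) (hQF2 : S_QF2) (hNumCh : S_NumCh) (hErr : S_Err) (hE2avg : S_E2avg) (hBad : S_Bad) (hSup : S_Sup) (hPairEst : S_PairEst) (hPi : S_Pi) : S_Mix := by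
  intro R _ _ p
  obtain ⟨k, iFk, iNk, iAk, K, hK⟩ := hBF p.r p.hr
  obtain ⟨a, hac, hPairEst⟩ := hPairEst R p k K hK
  obtain ⟨δ, hδ, hBad⟩ := hBad R p k K a hK
  obtain ⟨u₁, hE2avg⟩ := hE2avg R p k K hK
  obtain ⟨aS, hSup⟩ := hSup R p k K hK
  obtain ⟨Cn, hNum⟩ := hNumCh k K p.e
  refine ⟨max (max 6 u₁) ⌈((((3 * a + 1) * Cn : ℕ) : ℝ) + 2) / δ⌉₊, a + 14, fun u hu ε hε => ?_⟩
  have hu6 : 6 ≤ u := le_trans (le_trans (le_max_left _ _) (le_max_left _ _)) hu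
  have hu1 : u₁ ≤ u := le_trans (le_trans (le_max_right _ _) (le_max_left _ _)) hu
  have hδu : (((3 * a + 1) * Cn : ℕ) : ℝ) + 2 ≤ δ * u := by
    have h := Nat.ceil_le.mp (le_trans (le_max_right _ _) hu)
    rw [div_le_iff₀ hδ] at h
    linarith
  obtain ⟨ε₁, hε₁, hCut⟩ := hCut (4 * p.e) u hu6 ε hε
  obtain ⟨cH, CH, hcH, hCH, hH⟩ := hCnt.2.2.2.2.2 u hu6
  obtain ⟨CP, ηP, hCP, hηP, hPE⟩ := hPairEst u
  obtain ⟨-, CF, hCF, hFl⟩ := hFlat R p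
  obtain ⟨z₁, hPi⟩ := hPi R p (ε₁ / (6 * CH * CP)) (by positivity)
  refine ⟨min ηP (ε₁ / (30 * CH * CP)), z₁, 2 * (u + aS) + 1, lt_min hηP (by positivity),
    fun F hp hFu hη hz hA hσ => ?_⟩
  subst hp hFu
  have hA1 : 1 ≤ F.A := F.hA
  obtain ⟨m, hm⟩ : ∃ m, m = (4 * F.p.e + 1) * F.A := ⟨_, rfl⟩
  obtain ⟨m', hm'⟩ : ∃ m', m' = (4 * F.p.e + 2) * F.A := ⟨_, rfl⟩
  obtain ⟨y1, h1⟩ := hIndT R F 1 ε₁ hε₁
  obtain ⟨y2, h2⟩ := hIndS R F ε₁ hε₁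
  obtain ⟨y3, h3⟩ := hIndS R F 1 one_pos
  obtain ⟨y4, h4⟩ := hFl F rfl
  obtain ⟨y5, h5⟩ := hE2avg F rfl hu1 (m + 1)
  obtain ⟨y6, h6⟩ := hBad F (ε₁ / 2) rfl (by positivity)
  obtain ⟨CS, hCS, y7, h7⟩ := hSup F rfl
  obtain ⟨y8, h8⟩ := hPE F rfl rfl (hη.trans (min_le_left _ _)) hσ
  obtain ⟨Cπ, y9, h9⟩ := hPi F rfl hz
  obtain ⟨y10, h10⟩ := hWt R F.p (m' + 1)
  obtain ⟨y11, h11⟩ := ev_pow (2 * m') 4
  obtain ⟨y12, h12⟩ := ev_pow m (2 ^ (F.u + 1))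
  obtain ⟨y13, h13⟩ := ev_pow (m' + m + 2) (128 * F.p.e * a)
  obtain ⟨y14, h14⟩ := ev_pow F.A 1
  obtain ⟨y15, h15⟩ := ev_log (12 * (F.u + 2))
  obtain ⟨y16, h16⟩ := ev_log (6 * CH * CS ^ 2 * (|Cπ| + 1) / ε₁)
  obtain ⟨y17, h17⟩ := ev_log (2 ^ (F.u + 1))
  obtain ⟨y18, h18⟩ := ev_rpow m 2 δ hδ
  obtain ⟨Y, hY⟩ := Finset.exists_le
    ({y1, y2, y3, y4, y5, y6, y7, y8, y9, y10, y11, y12, y13, y14, y15, y16, y17, y18, 2} :
      Finset ℝ)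
  simp only [mem_insert, mem_singleton, forall_eq_or_imp, forall_eq] at hY
  obtain ⟨g1, g2, g3, g4, g5, g6, g7, g8, g9, g10, g11, g12, g13, g14, g15, g16, g17, g18, g19⟩ :=
    hY
  refine ⟨Y, fun c hc hIn => ?_⟩
  obtain ⟨hb, hT, -, hadm⟩ := h1 c (g1.trans hc) hIn
  have hS := h2 c (g2.trans hc) hIn
  have hS1 := h3 c (g3.trans hc) hIn
  obtain ⟨-, -, hnn, hsm⟩ := h4 c (g4.trans hc) hIn
  have hE := h5 c (g5.trans hc) hIn
  have hBd := h6 c (g6.trans hc) hIn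
  have hSu := h7 c (g7.trans hc) hIn
  have hP := h8 c (g8.trans hc) hIn
  obtain ⟨q1, q2, q3, q4⟩ := h9 c (g9.trans hc) hIn
  have e11 := h11 c.y (g11.trans hc)
  have e12 := h12 c.y (g12.trans hc)
  have e13 := h13 c.y (g13.trans hc)
  have e14 := h14 c.y (g14.trans hc)
  have e15 := h15 c.y (g15.trans hc)
  have e16 := h16 c.y (g16.trans hc)
  have e17 := h17 c.y (g17.trans hc)
  have e18 := h18 c.y (g18.trans hc)
  have hy2 : 2 ≤ c.y := g19.trans hc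
  have hy : 1 ≤ c.y := by linarith
  have hth := h10 c.y (g10.trans hc) c.N
  clear h1 h2 h3 h4 h5 h6 h7 h8 h9 h10 h11 h12 h13 h14 h15 h16 h17 h18 g1 g2 g3 g4 g5 g6 g7 g8 g9
    g10 g11 g12 g13 g14 g15 g16 g17 g18 g19 hPi hPE hFl hBad hE2avg hSup hPairEst hIndT hIndS hFlat
    hWt hNumCh hBF
  have hu0 : (0 : ℝ) ≤ F.u := Nat.cast_nonneg _
  have hl : 4 ≤ Real.log c.y := by linarith
  have hl1 : 1 ≤ Real.log c.y := by linarith
  have hl0 : 0 < Real.log c.y := by linarith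
  have hNge := hIn.N_ge
  have hNle := hIn.N_le
  rw [← hm'] at hNge hNle
  have hm'1 : 1 ≤ m' := by
    rw [hm']
    exact Nat.mul_pos (by omega) hA1
  have hmA : F.A ≤ m := by
    rw [hm]
    exact Nat.le_mul_of_pos_left _ (by omega)
  have hNl : Real.log c.y ≤ c.N := le_trans (le_self_pow₀ hl1 (by omega)) hNge
  have hN12 : 12 * (F.u + 2) ≤ c.N := by
    have : (12 * (F.u + 2) : ℝ) ≤ c.N := e15.trans hNl
    exact_mod_cast this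
  have hN1 : 1 ≤ c.N := by omega
  have hN1' : (1 : ℝ) ≤ c.N := by exact_mod_cast hN1
  have hN2 : (c.N : ℝ) ^ 2 ≤ c.y := by
    calc (c.N : ℝ) ^ 2 ≤ (2 * Real.log c.y ^ m') ^ 2 := pow_le_pow_left₀ (by linarith) hNle 2
      _ = 4 * Real.log c.y ^ (2 * m') := by ring
      _ ≤ _ := e11
  have hNy : (c.N : ℝ) ≤ c.y := le_trans (le_self_pow₀ hN1' two_ne_zero) hN2
  obtain ⟨-, -, t4⟩ := hth hN1 (hNle.trans (by
    rw [pow_succ, mul_comm]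
    exact mul_le_mul_of_nonneg_left (by linarith) (by positivity)))
  obtain ⟨-, -, -, hH⟩ := hH c.N hN12
  choose L iF iN iA hΦ using fun t : Tset F.p c => hFbEx R F.p k K hK t.1 (hadm t.1 t.2)
  have Φ : ∀ t : Tset F.p c, Fb F.p t.1 k (L t) := fun t => (hΦ t).some
  obtain ⟨T₀, hT₀⟩ : ∃ T₀ : Finset (Tset F.p c), ∀ t, t ∈ T₀ ↔ IsCoprime t.1.1 t.1.2 ∧
      ¬ Bad k (L t) (wt F.p c.y c.N) (wk F.p.r c.y c.N) (F.p.Mb t.1) c.y c.N δ a :=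
    ⟨univ.filter fun t => IsCoprime t.1.1 t.1.2 ∧
      ¬ Bad k (L t) (wt F.p c.y c.N) (wk F.p.r c.y c.N) (F.p.Mb t.1) c.y c.N δ a, fun t => by
      rw [mem_filter]
      exact and_iff_right (mem_univ _)⟩
  have hw : ∀ a : Xset F.p c.y c.N, 0 ≤ wt F.p c.y c.N a.1.1 := fun a =>
    hb.w_nonneg ((base F.p c.y c.N).pr a)
  have hlv : ∀ a : Xset F.p c.y c.N, lv c.y c.N a.1.1 < c.N := fun a =>
    hb.lev_lt ((base F.p c.y c.N).pr a)
  have hκ : ∀ t, Xset F.p c.y c.N → 0 ≤ kap (L t) F.p c F.u := by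
    intro t x
    have h0 := (hSu x.1 x.1 t.1 (L t) (Φ t) x.2 x.2 t.2).1
    have h1 := (hH _ (hlv x) _ (hlv x)).1
    have h2 : 0 < Hh c.N F.u (lv c.y c.N x.1.1) (lv c.y c.N x.1.1) := by
      by_contra h
      exact absurd (hcH.trans_le h1)
        (not_lt.mpr (mul_nonpos_of_nonneg_of_nonpos (sq_nonneg _) (not_lt.mp h)))
    have h3 := pt_pos x
    unfold kap' at h0
    exact (div_nonneg_iff.mp h0).elim (fun h => h.1) fun h => absurd h.2 (not_le.mpr (by positivity))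
  refine ⟨mu F.p c F.u T₀ fun t => kap (L t) F.p c F.u, ?_, fun t s x h => mu_good h⟩
  refine hCut _ _ _ _ _ _ _ _ T₀
    (fun t s a a' => kap' (L t) F.p c F.u a.1 a'.1 * Wg F.p c F.u t.1 s.1 a.1 a'.1) hb hT hS
    (mu_tup hw hT.nonneg hS.nonneg hκ) (fun t s a a' => ?_) ?_ ?_
  · refine mu_marg t s a a' _ (fun x => ?_) fun h => ?_
    · simp only [mem_filter, mem_univ, true_and]
    · have := (hH _ (hlv a) _ (hlv a')).1
      rw [h, mul_zero] at this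
      linarith
  · have h := out_le T₀ _
      (fun t => Bad k (L t) (wt F.p c.y c.N) (wk F.p.r c.y c.N) (F.p.Mb t.1) c.y c.N δ a) _ _ _ _
      hT.nonneg hT₀
      (fun t => (mem_filter (s := univ) (p := fun t => t ∉ T₀)).trans (and_iff_right (mem_univ _)))
      (fun t => mem_filter) (fun t => mem_filter.trans (and_iff_right (mem_univ _))) q3
      (hBd L Φ)
    have h' : ε₁ / (6 * CH * CP) ≤ ε₁ / 2 :=
      div_le_div_of_nonneg_left hε₁.le (by norm_num) (by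
        have := one_le_mul_of_one_le_of_one_le hCH hCP
        linarith only [this])
    refine le_trans (le_of_eq (sum_congr ?_ fun _ _ => rfl)) (h.trans (by linarith))
    ext t
    simp only [mem_filter]
  obtain ⟨M, hM⟩ : ∃ M, M = 2 * (CS * Real.log c.y ^ (F.u + aS)) ^ 2 := ⟨_, rfl⟩
  have hM0 : 0 ≤ M := by
    rw [hM]
    positivity
  have hCP0 : 0 ≤ CP := zero_le_one.trans hCP
  have hη0 : 0 < c.η := hIn.η ▸ F.ηpos
  have hη1 : c.η ≤ 1 := hIn.η ▸ F.ηle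
  have hζ : 0 < (Real.log c.y ^ F.A)⁻¹ := by positivity
  refine (pc_le (T₀ := T₀) (u := F.u) (fun t t' a a' =>
      ∑ s, (sideS F.p c.y c.N c.S0 c.L).c2 (base F.p c.y c.N) a a' s *
        ((kap' (L t) F.p c F.u a.1 a'.1 * Wg F.p c F.u t.1 s.1 a.1 a'.1 - 1) *
          (kap' (L t') F.p c F.u a.1 a'.1 * Wg F.p c F.u t'.1 s.1 a.1 a'.1 - 1))) CH
    (fun x x' t t' => 2 * CP * (if dl t t' ≠ 0 then Pi F.p c.z (nn F.p x x' t t') - 1 else 0) +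
      CP * c.η * 1 +
      M * (if |(t.1 : ℝ) / t.2 - (t'.1 : ℝ) / t'.2| < (Real.log c.y ^ F.A)⁻¹ then 1 else 0) +
      M * (if dl t t' ≠ 0 ∧ (Real.log c.y ^ (m + 1))⁻¹ <
        Err k k (wk F.p.r c.y c.N) c.y c.N F.u (nn F.p x x' t t' ^ 2) 0 then 1 else 0))
    hw hT.nonneg hN1 (by linarith) (fun a a' => (hH _ (hlv a) _ (hlv a')).2)
    (fun t ht => ((hT₀ t).mp ht).1) (fun x x' t t' => ?_) (fun b b' t t' ht ht' hQ => ?_)).trans ?_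
  · have := sub_nonneg.mpr (one_le_Pi F.p c.z (nn F.p x x' t t'))
    split_ifs <;> positivity
  · have hPi1 := sub_nonneg.mpr (one_le_Pi F.p c.z (nn F.p b.1 b'.1 t.1 t'.1))
    rw [es_eq b b' fun s => (kap' (L t) F.p c F.u b.1 b'.1 * Wg F.p c F.u t.1 s b.1 b'.1 - 1) *
      (kap' (L t') F.p c F.u b.1 b'.1 * Wg F.p c F.u t'.1 s b.1 b'.1 - 1)]
    have hgen : |Es F.p c b.1 b'.1 fun s =>
        (kap' (L t) F.p c F.u b.1 b'.1 * Wg F.p c F.u t.1 s b.1 b'.1 - 1) *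
        (kap' (L t') F.p c F.u b.1 b'.1 * Wg F.p c F.u t'.1 s b.1 b'.1 - 1)| ≤ M := by
      obtain ⟨k0, k1, -⟩ := hSu b.1 b'.1 t.1 (L t) (Φ t) b.2 b'.2 t.2
      obtain ⟨k0', k1', -⟩ := hSu b.1 b'.1 t'.1 (L t') (Φ t') b.2 b'.2 t'.2
      have hge : 1 ≤ CS * Real.log c.y ^ (F.u + aS) :=
        one_le_mul_of_one_le_of_one_le hCS (one_le_pow₀ hl1)
      refine (es_abs_le _ _ _ ((CS * Real.log c.y ^ (F.u + aS)) ^ 2)
        (fun s hs => hS.nonneg ⟨s, hs⟩) fun s => ?_).trans ?_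
      · rw [abs_mul, sq]
        exact mul_le_mul (abs_sub_one_le (mul_nonneg k0 (k1 s).1) (k1 s).2 hge)
          (abs_sub_one_le (mul_nonneg k0' (k1' s).1) (k1' s).2 hge) (abs_nonneg _) (by linarith)
      · rw [hM, mul_comm 2]
        exact mul_le_mul_of_nonneg_left (es_one b b' hQ.ne hN1 hS1) (by positivity)
    have k1 : 0 ≤ CP * c.η := mul_nonneg hCP0 hη0.le
    have k2 := mul_nonneg hCP0 hPi1
    by_cases c1 : |(t.1.1 : ℝ) / t.1.2 - (t'.1.1 : ℝ) / t'.1.2| < (Real.log c.y ^ F.A)⁻¹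
    · rw [if_pos c1]
      refine hgen.trans ?_
      split_ifs <;> linarith only [k1, k2, hM0]
    have hdl : dl t.1 t'.1 ≠ 0 := dl_ne (hadm t.1 t.2).1 (hadm t'.1 t'.2).1 hζ (not_lt.mp c1)
    rw [if_neg c1, if_pos hdl]
    by_cases c2 : (Real.log c.y ^ (m + 1))⁻¹ <
        Err k k (wk F.p.r c.y c.N) c.y c.N F.u (nn F.p b.1 b'.1 t.1 t'.1 ^ 2) 0
    · rw [if_pos ⟨hdl, c2⟩]
      refine hgen.trans ?_
      linarith only [k1, k2, hM0]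
    rw [if_neg fun h => c2 h.2]
    obtain ⟨n1, nD, nD', -, n2⟩ := hnn _ _ _ _ hQ
    have n3 : (nn F.p b.1 b'.1 t.1 t'.1 : ℝ) ≤ c.y ^ a := n1.trans (pow_le_pow_right₀ hy hac)
    have hQ2 : 2 ≤ c.y ^ F.p.cE := hy2.trans (le_self_pow₀ hy (by unfold Par.cE; omega))
    have hEq : ∀ t₁ ∈ T₀, F.p.Mb t₁.1 ∣ nn F.p b.1 b'.1 t.1 t'.1 →
        EqD k (L t₁) (wt F.p c.y c.N) c.y c.N F.u (nn F.p b.1 b'.1 t.1 t'.1) (c.y ^ a)
          (Real.log c.y ^ m)⁻¹ := by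
      intro t₁ ht₁ hd
      have hnum := (hNum (L t₁) (Φ t₁).fin (c.y ^ F.p.cE) ((c.N : ℝ) ^ 2) (c.y ^ a) _ hQ2
        (hsm k K t₁.1 (L t₁) (Φ t₁) hK t₁.2).1 (n2 hdl) (one_le_pow₀ hN1') (one_le_pow₀ hy)).2
      refine eqd hErr K (n2 hdl) hd n3 hδu hy e17
        (hQF2 R F.p k K t₁.1 (L t₁) (Φ t₁) hK (hadm t₁.1 t₁.2)).2.2.1 (fun i hi q hq => ?_)
        (hnum.trans (num_le hy hac n3 hN2)) ((hT₀ t₁).mp ht₁).2 (not_lt.mp c2) hNle hNy e12 e18 e13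
      obtain ⟨-, -, -, -, -, w0, -, w1, -⟩ := t4 q (mem_biUnion.mpr ⟨i, mem_range.mpr hi, hq⟩)
      exact ⟨w0, w1⟩
    rw [hm] at hEq
    refine (hP b.1 b'.1 t.1 t'.1 (L t) (L t') (Φ t) (Φ t') hQ (not_lt.mp c1)
      (hEq t ht nD) (hEq t' ht' nD')).trans ?_
    have : 0 ≤ CP * ((1 - c.η) * (Pi F.p c.z (nn F.p b.1 b'.1 t.1 t'.1) - 1)) :=
      mul_nonneg hCP0 (mul_nonneg (sub_nonneg.mpr hη1) hPi1)
    linarith only [this]
  rw [qs_lin]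
  have q5 := q4 _ (inv_anti₀ (by positivity) (by linarith) : c.y⁻¹ ≤ (Real.log c.y ^ F.A)⁻¹)
  have s1 := small (CS := CS) hl1 hA
  have s2 := small (CS := CS) (v := F.u + aS) (k := m + 1) hl1 (by omega)
  rw [← hM] at s1 s2
  have b1 : CH * (2 * CP * (ε₁ / (6 * CH * CP))) = ε₁ / 3 := by
    field_simp
    ring
  have b2 : CH * (CP * c.η * 10) ≤ ε₁ / 3 := by
    have h := hIn.η ▸ hη.trans (min_le_right _ _)
    rw [le_div_iff₀ (by positivity)] at h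
    linarith
  have b3 : CH * ((|Cπ| + 1) * (2 * CS ^ 2 / Real.log c.y)) ≤ ε₁ / 3 := by
    rw [div_le_iff₀ hε₁] at e16
    rw [← mul_div_assoc, ← mul_div_assoc, div_le_iff₀ hl0]
    linarith
  have b4 : M * (Cπ * (Real.log c.y ^ F.A)⁻¹) ≤ |Cπ| * (2 * CS ^ 2 / Real.log c.y) := by
    calc M * (Cπ * (Real.log c.y ^ F.A)⁻¹) = Cπ * (M * (Real.log c.y ^ F.A)⁻¹) := by ring
      _ ≤ |Cπ| * (M * (Real.log c.y ^ F.A)⁻¹) :=
          mul_le_mul_of_nonneg_right (le_abs_self _) (by positivity)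
      _ ≤ _ := mul_le_mul_of_nonneg_left s1 (abs_nonneg _)
  refine le_trans (mul_le_mul_of_nonneg_left (add_le_add (add_le_add (add_le_add
    (mul_le_mul_of_nonneg_left q2 (by positivity)) (mul_le_mul_of_nonneg_left q1 (by positivity)))
    ((mul_le_mul_of_nonneg_left q5 hM0).trans b4))
    ((mul_le_mul_of_nonneg_left hE hM0).trans s2)) (zero_le_one.trans hCH)) ?_
  linarith only [b1, b2, b3]

end Pool.Agent.P.MP_b8021b_nt.VC
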