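import Pool.Agent.P.MP_b8021b_nt.VC.StT
import Pool.Agent.P.MP_b8021b_nt.VC.BasicA
import Pool.Agent.P.MP_746f10_nt.Basic

/-! Few fibres have no totally ramified prime outside a given modulus. -/

namespace Pool.Agent.P.MP_b8021b_nt.VC

open Polynomial Finset Pool.Agent.P.MP_b8021b_nt.VE
open scoped Classical

namespace PMul

variable {R : Type} [CommRing R] [Algebra ℤ[X] R]

theorem eisZ (p : Par R) {l : ℕ} (hl : l.Prime) {a b : ℤ} (ha : ¬ (l : ℤ) ∣ a)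
    (hb : ¬ (l : ℤ) ∣ b) (hN : ¬ l ∣ p.toTab.N0) : EisZ l (p.toTab.Pt (a, l * b)) := by
  have hlp : Prime (l : ℤ) := Nat.prime_iff_prime_int.1 hl
  have hδ := p.toTab.δ_le p.toTab.i1
  have he := p.toTab.epos
  have h3 := p.toTab.h3
  have hco : ∀ j, (p.toTab.Pt (a, l * b)).coeff j =
      hev ((p.e - j) * p.κ p.toTab.i1) (p.toTab.P.coeff j) a (l * b) := fun j => by
    rw [Tab.Pt_eq, Tab.coeff_cpt]
    rfl
  have hm : p.δ p.toTab.i1 % p.e = 1 := p.δmod p.toTab.i1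
  obtain ⟨a1, a2⟩ := p.P0
  have b1 : ∀ j, p.toTab.P.coeff j ≠ 0 →
      p.e * (p.toTab.P.coeff j).natDegree + j * p.δ p.toTab.i1 ≤ p.e * p.δ p.toTab.i1 :=
    fun j hz => Tab.cp_natDegree_wle (Tab.y_mem_Lw p.toTab.i1) hz
  have b2 : ∀ j, (p.toTab.P.coeff j).natDegree ≤ (p.e - j) * p.κ p.toTab.i1 :=
    fun j => Tab.natDegree_cp_coeff (p.toTab.y_mem_Lw_κ p.toTab.i1) j
  generalize p.κ p.toTab.i1 = κ at hδ hco b2
  generalize p.δ p.toTab.i1 = δ at hδ hm a2 b1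
  obtain ⟨w, hw⟩ := Nat.exists_eq_add_of_le hδ
  have h0 : (p.toTab.Pt (a, l * b)).coeff 0 =
      (l : ℤ) ^ w * (b ^ w * hev δ (p.toTab.P.coeff 0) a (l * b)) := by
    rw [hco, Nat.sub_zero, hw, hev_add_deg a2.le, mul_pow]
    ring
  have h1 : ¬ (l : ℤ) ∣ hev δ (p.toTab.P.coeff 0) a (l * b) := fun h => by
    have := dvd_hev_sub δ (p.toTab.P.coeff 0) (m := l) (a := a) (a' := a) (b := l * b) (b' := 0)
      (by simp) (by simp)
    have k := (dvd_sub h this)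
    rw [sub_sub_cancel, hev_b_zero] at k
    rcases hlp.dvd_or_dvd k with k | k
    · rw [← a2, coeff_natDegree] at k
      exact hN (Int.natCast_dvd.1 k)
    · exact ha (hlp.dvd_of_dvd_pow k)
  refine ⟨w, ?_, ?_, ?_, fun j hj => ?_⟩
  · rw [Tab.natDegree_Pt]
    refine ((Nat.Prime.coprime_iff_not_dvd p.he).2 fun h => ?_).symm
    have k : p.e ∣ δ := (Nat.dvd_add_left h).1 (hw ▸ Dvd.intro κ rfl)
    have := Nat.mod_eq_zero_of_dvd k
    omega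
  · rw [h0]
    exact Dvd.intro _ rfl
  · rw [h0, pow_succ, mul_dvd_mul_iff_left (pow_ne_zero _ hlp.ne_zero)]
    exact fun h => (hlp.dvd_or_dvd h).elim (fun h => hb (hlp.dvd_of_dvd_pow h)) h1
  · rw [Tab.natDegree_Pt] at hj ⊢
    rw [hco]
    by_cases hz : p.toTab.P.coeff j = 0
    · rw [hz, hev_zero, zero_pow he.ne']
      exact dvd_zero _
    have c1 := b1 j hz
    obtain ⟨J, hJ⟩ := Nat.exists_eq_add_of_le (b2 j)
    obtain ⟨u, hu⟩ := Nat.exists_eq_add_of_le hj.le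
    have hu' : p.e - j = u := by omega
    rw [hJ, hev_add_deg le_rfl, hu']
    rw [hu'] at hJ
    generalize (p.toTab.P.coeff j).natDegree = d at c1 hJ ⊢
    have c2 : w * u ≤ J * p.e := by
      have c3 : p.e * (u * κ) = u * δ + u * w := by rw [← mul_add, ← hw]; ring
      rw [hJ, mul_add] at c3
      have c4 : p.e * δ = j * δ + u * δ := by rw [← add_mul, ← hu]
      nlinarith
    refine (pow_dvd_pow _ c2).trans ?_
    rw [pow_mul]
    exact pow_dvd_pow_of_dvd (Dvd.dvd.mul_left (pow_dvd_pow_of_dvd (Dvd.intro _ rfl) _) _) _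

theorem card_le (p : Par R) (T : Finset (ℤ × ℤ)) (A : Finset ℤ) (Mx M : ℕ) (hM : M ≠ 0)
    (hT : ∀ t ∈ T, t.1 ∈ A ∧ 0 < t.2 ∧ t.2 < ((Mx : ℤ) + 1) ^ 2) :
    (T.filter fun t => IsCoprime t.1 t.2 ∧ ¬ Wit (p.toTab.Pt t) M).card ≤
      A.card * ∑ m ∈ Icc 1 Mx, (M * p.toTab.N0 * m).divisors.card := by
  have hN : p.toTab.N0 ≠ 0 := Int.natAbs_ne_zero.2 (leadingCoeff_ne_zero.2 p.P0.1)
  have hsub : (T.filter fun t => IsCoprime t.1 t.2 ∧ ¬ Wit (p.toTab.Pt t) M) ⊆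
      (A ×ˢ (Icc 1 Mx).sigma fun m => (M * p.toTab.N0 * m).divisors).image
        fun x : ℤ × (Σ _ : ℕ, ℕ) => (x.1, ((x.2.1 : ℤ) ^ 2 * x.2.2)) := by
    rintro ⟨a, b⟩ ht
    obtain ⟨ht, hc, hw⟩ := mem_filter.1 ht
    obtain ⟨ha, hb, hb'⟩ := hT _ ht
    simp only at ha hb hb' hc
    obtain ⟨s, m, hs0, hm0, e, hs⟩ := Nat.sq_mul_squarefree_of_pos (n := b.toNat) (by omega)
    have e' : (m : ℤ) ^ 2 * s = b := by
      have : ((m ^ 2 * s : ℕ) : ℤ) = b := by rw [e]; omega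
      exact_mod_cast this
    have hd : s ∣ M * p.toTab.N0 * m := by
      rw [← Nat.prod_primeFactors_of_squarefree hs]
      refine Finset.prod_primes_dvd _ (fun l hl => (Nat.prime_of_mem_primeFactors hl).prime)
        fun l hl => ?_
      have hp := Nat.prime_of_mem_primeFactors hl
      have hlp : Prime (l : ℤ) := Nat.prime_iff_prime_int.1 hp
      obtain ⟨s', rfl⟩ := Nat.dvd_of_mem_primeFactors hl
      by_contra hn
      have e2 : b = l * (m ^ 2 * s') := by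
        rw [← e']
        push_cast
        ring
      subst e2
      refine hw ⟨l, hp, fun h => hn ((h.mul_right _).mul_right _),
        eisZ p hp (fun h => ?_) (fun h => ?_) fun h => hn ((h.mul_left _).mul_right _)⟩
      · exact hlp.not_isUnit (hc.isUnit_of_dvd' h (Dvd.intro _ rfl))
      · rcases hlp.dvd_or_dvd h with h | h
        · exact hn ((Int.natCast_dvd_natCast.1 (hlp.dvd_of_dvd_pow h)).mul_left _)
        · exact hp.prime.not_isUnit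
            (hs l (Nat.mul_dvd_mul_left l (Int.natCast_dvd_natCast.1 h)))
    refine mem_image.2 ⟨(a, ⟨m, s⟩), ?_, by simp only [e']⟩
    simp only [mem_product, mem_sigma, Nat.mem_divisors, mem_Icc]
    refine ⟨ha, ⟨hm0, ?_⟩, hd, Nat.mul_ne_zero (Nat.mul_ne_zero hM hN) hm0.ne'⟩
    have s1 : (1 : ℤ) ≤ s := by exact_mod_cast hs0
    have : (m : ℤ) ^ 2 < ((Mx : ℤ) + 1) ^ 2 := by nlinarith [sq_nonneg (m : ℤ)]
    have := lt_of_pow_lt_pow_left₀ 2 (by positivity) this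
    omega
  refine (card_le_card hsub).trans (card_image_le.trans ?_)
  rw [card_product, card_sigma]

end PMul

theorem p_mul : S_Mul := by
  intro R _ _ F a
  obtain ⟨Ct, hCt, hτ⟩ := Pool.Agent.P.MP_746f10_nt.exists_tau_le 8 (a + 5)
  have hτ0 := F.p.τle
  have hN : F.p.toTab.N0 ≠ 0 := Int.natAbs_ne_zero.2 (leadingCoeff_ne_zero.2 F.p.P0.1)
  obtain ⟨K, hK⟩ : ∃ K : ℝ, K = 2 * (2 - 2 * F.p.τ0) := ⟨_, rfl⟩
  have hK0 : 0 < K := by rw [hK]; linarith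
  refine ⟨max (max 2 (F.p.toTab.N0 : ℝ)) (K ^ 8 * Ct), fun c hc hIn M hM hMy => ?_⟩
  have y1 : 2 ≤ c.y := ((le_max_left _ _).trans (le_max_left _ _)).trans hc
  have y2 : (F.p.toTab.N0 : ℝ) ≤ c.y := ((le_max_right _ _).trans (le_max_left _ _)).trans hc
  have y3 : K ^ 8 * Ct ≤ c.y := (le_max_right _ _).trans hc
  have y4 : 1 ≤ c.y := by linarith
  have B1 : 1 ≤ c.B := (one_le_pow₀ y4).trans hIn.B_ge
  have hsq : 0 ≤ √(2 * c.B) := Real.sqrt_nonneg _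
  have h1 := PMul.card_le F.p (Tset F.p c) (Finset.Icc ⌊2 * c.B * c.τ0⌋ 0) ⌊√(2 * c.B)⌋₊ M
    (by omega) (by
    intro t' ht'
    obtain ⟨a1, a2, a3, -⟩ := mem_filter.1 ht'
    refine ⟨(mem_product.1 a1).1, ?_, ?_⟩
    · have : (0 : ℝ) < t'.2 := by linarith
      exact_mod_cast this
    · have b1 := Nat.lt_floor_add_one √(2 * c.B)
      have b2 : 2 * c.B < ((⌊√(2 * c.B)⌋₊ : ℝ) + 1) ^ 2 := by
        rw [← Real.sq_sqrt (show 0 ≤ 2 * c.B by linarith)]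
        rw [Real.sqrt_sq hsq]
        gcongr
      have b3 : c.η ≤ 1 := hIn.η ▸ F.ηle
      have : (t'.2 : ℝ) < ((⌊√(2 * c.B)⌋₊ : ℝ) + 1) ^ 2 := by nlinarith
      exact_mod_cast this)
  have h2 : ((Finset.Icc ⌊2 * c.B * c.τ0⌋ 0).card : ℝ) ≤ (2 - 2 * F.p.τ0) * c.B := by
    rw [hIn.τ0, Int.card_Icc]
    have a := Int.lt_floor_add_one (2 * c.B * F.p.τ0)
    have a' := Int.floor_le (2 * c.B * F.p.τ0)
    have b : (0 : ℤ) ≤ 0 + 1 - ⌊2 * c.B * F.p.τ0⌋ := by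
      have : (0 : ℝ) ≤ 0 + 1 - (⌊2 * c.B * F.p.τ0⌋ : ℤ) := by nlinarith
      exact_mod_cast this
    have e : (((0 + 1 - ⌊2 * c.B * F.p.τ0⌋).toNat : ℕ) : ℝ) =
        0 + 1 - (⌊2 * c.B * F.p.τ0⌋ : ℤ) := by
      have := Int.toNat_of_nonneg b
      exact_mod_cast this
    rw [e]
    nlinarith
  have h3 : (⌊√(2 * c.B)⌋₊ : ℝ) ≤ 2 * √c.B := by
    refine (Nat.floor_le hsq).trans ?_
    rw [Real.sqrt_le_left (by positivity), mul_pow, Real.sq_sqrt (by linarith)]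
    linarith
  have h3' : √c.B ≤ c.y ^ 3 := by
    rw [Real.sqrt_le_left (by positivity), ← pow_mul]
    exact hIn.B_le
  have h5 : ∀ m ∈ Icc 1 ⌊√(2 * c.B)⌋₊,
      ((M * F.p.toTab.N0 * m).divisors.card : ℝ) ≤ c.y ^ (1 / 4 : ℝ) / K := fun m hm => by
    obtain ⟨m1, m2⟩ := mem_Icc.1 hm
    have m3 : (m : ℝ) ≤ c.y * c.y ^ 3 :=
      calc (m : ℝ) ≤ ⌊√(2 * c.B)⌋₊ := by exact_mod_cast m2
        _ ≤ 2 * √c.B := h3
        _ ≤ _ := by gcongr
    have h4 : ((M * F.p.toTab.N0 * m).divisors.card : ℝ) ^ 8 ≤ Ct * c.y := by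
      refine hτ _ _ (Nat.mul_ne_zero (Nat.mul_ne_zero (by omega) hN) (by omega)) y4 ?_
      push_cast
      calc _ ≤ c.y ^ a * c.y * (c.y * c.y ^ 3) := by gcongr
        _ = _ := by ring
    rw [le_div_iff₀' hK0]
    refine le_of_pow_le_pow_left₀ (n := 8) (by norm_num) (by positivity) ?_
    rw [← Real.rpow_natCast (c.y ^ (1 / 4 : ℝ)), ← Real.rpow_mul (by linarith), mul_pow]
    norm_num
    calc _ ≤ K ^ 8 * (Ct * c.y) := by gcongr
      _ = K ^ 8 * Ct * c.y := by ring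
      _ ≤ c.y * c.y := by gcongr
      _ = _ := by ring
  have h6 : c.B ^ (3 / 2 : ℝ) = c.B * √c.B := by
    rw [show (3 / 2 : ℝ) = 1 + 1 / 2 by norm_num, Real.rpow_add (by linarith), Real.rpow_one,
      Real.sqrt_eq_rpow]
  have h1' := (Nat.cast_le (α := ℝ)).2 h1
  push_cast at h1'
  have h7 := sum_le_card_nsmul _ _ _ h5
  rw [Nat.card_Icc, Nat.add_sub_cancel, nsmul_eq_mul] at h7
  have p1 : (0 : ℝ) ≤ (2 - 2 * F.p.τ0) * c.B := by nlinarith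
  calc _ ≤ _ := h1'
    _ ≤ (2 - 2 * F.p.τ0) * c.B * (⌊√(2 * c.B)⌋₊ * (c.y ^ (1 / 4 : ℝ) / K)) := by gcongr
    _ ≤ (2 - 2 * F.p.τ0) * c.B * (2 * √c.B * (c.y ^ (1 / 4 : ℝ) / K)) := by gcongr
    _ = K / K * (c.B * √c.B * c.y ^ (1 / 4 : ℝ)) := by
      rw [div_eq_mul_inv, div_eq_mul_inv]
      nth_rw 2 [hK]
      ring
    _ = _ := by rw [div_self hK0.ne', one_mul, h6]

end Pool.Agent.P.MP_b8021b_nt.VC
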