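import Pool.Agent.P.MP_b8021b_nt.VC.PNrm2

/-! Norms and characteristic polynomials over the polynomial ring in one function. -/

namespace Pool.Agent.P.MP_b8021b_nt.VC

open Polynomial Finset Pool.Agent.P.MP_b8021b_nt.VE
open scoped Classical

open PNrm in
theorem p_nrm (hCv : S_Cv) (hPts : S_Pts) : S_Nrm := by
  intro F A _ _ _ _ cv w hw
  have := cv.ded
  obtain ⟨-, -, hdel, -, -, -, -, -, hb⟩ := hCv F A cv
  obtain ⟨y, hy, -, hsp, hli⟩ := hb w hw
  let : Algebra F[X] A := (aeval w : F[X] →ₐ[F] A).toRingHom.toAlgebra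
  have halg : ∀ r, algebraMap F[X] A r = aeval w r := fun r => rfl
  have : IsScalarTower F F[X] A :=
    IsScalarTower.of_algebraMap_eq fun c => ((aeval w : F[X] →ₐ[F] A).commutes c).symm
  have hwX : algebraMap F[X] A X = w := by rw [halg, aeval_X]
  have hli' : LinearIndependent F[X] y := by
    rw [Fintype.linearIndependent_iff]
    intro c hc i
    by_contra h
    exact (hli c i h).1 hc
  have hsp' : ⊤ ≤ Submodule.span F[X] (Set.range y) := by
    intro a _
    obtain ⟨c, rfl⟩ := hsp a
    exact Submodule.sum_mem _ fun i _ =>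
      Submodule.smul_mem _ (c i) (Submodule.subset_span ⟨i, rfl⟩)
  let b := Module.Basis.mk hli' hsp'
  have hb : ∀ i, b i = y i := fun i => Module.Basis.mk_apply _ _ _
  have : Module.Finite F[X] A := Module.Finite.of_basis b
  have : Module.Free F[X] A := Module.Free.of_basis b
  have : Nonempty (Fin (cv.δ w)) := ⟨⟨0, hw⟩⟩
  have hdet : ∀ f, (Algebra.leftMulMatrix b f).det = Algebra.norm F[X] f := fun f =>
    (Algebra.norm_eq_matrix_det b f).symm
  refine ⟨(Algebra.leftMulMatrix b).restrictScalars F, ?_, ?_, ?_, ?_, ?_, ?_⟩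
  · exact (congrArg (Algebra.leftMulMatrix b) hwX.symm).trans
      ((Algebra.leftMulMatrix b).commutes X)
  · intro f hf
    change (Algebra.leftMulMatrix b f).det ≠ 0 ∧ (Algebra.leftMulMatrix b f).det.natDegree = _
    rw [hdet]
    exact ⟨Algebra.norm_ne_zero_iff.2 hf,
      (finrank_quotient_span_eq_natDegree_norm b hf).symm.trans (hdel f hf)⟩
  · intro f l hl
    have := deg_charpoly (Algebra.leftMulMatrix b f) (cv.δ w) (cv.δ f) (fun i => cv.δ (y i))
      (fun i j h => by
        rw [Algebra.leftMulMatrix_eq_repr_mul] at h ⊢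
        have h1 := (hli (fun i => b.repr (f * b j) i) i h).2
        have h2 : ∑ i, aeval w (b.repr (f * b j) i) * y i = f * y j := by
          conv_rhs => rw [← hb, ← b.sum_repr (f * b j)]
          exact sum_congr rfl fun i _ => by rw [hb i]; rfl
        rw [h2] at h1
        exact h1.trans (cv.mul_le _ _)) l hl
    rw [Fintype.card_fin] at this
    exact this
  · intro f
    apply Algebra.leftMulMatrix_injective b
    change Algebra.leftMulMatrix b (aeval f (Algebra.leftMulMatrix b f).charpoly) = _
    rw [← aeval_algHom_apply, Matrix.aeval_self_charpoly, map_zero]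
  · intro f a
    obtain ⟨g, hg1, hg2⟩ := der_mul (Algebra.leftMulMatrix b)
      (Algebra.leftMulMatrix_injective b) f a
    exact ⟨g, by rwa [Fintype.card_fin] at hg1, hg2⟩
  · intro Ω _ _ _ _ a
    have hi : IsIntegral F a := Algebra.IsIntegral.isIntegral a
    have hirr := minpoly.irreducible hi
    have hp : aeval w (minpoly F a) ≠ 0 := by
      rw [← halg, map_ne_zero_iff _ (FaithfulSMul.algebraMap_injective F[X] A)]
      exact hirr.ne_zero
    have hroot : ∀ P : A →ₐ[F] Ω, P w = a → P (aeval w (minpoly F a)) = 0 := fun P h => by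
      rw [← aeval_algHom_apply, h, minpoly.aeval]
    have hfin : {P : A →ₐ[F] Ω | P w = a}.Finite := (zeros_finite' hPts cv hp).subset hroot
    have hT : ∀ P, P ∈ hfin.toFinset ↔ P (algebraMap F[X] A X) = a := fun P => by
      rw [hwX, Set.Finite.mem_toFinset, Set.mem_ofPred_eq]
    refine ⟨fun f hf => ?_, ∑ P ∈ hfin.toFinset,
      Multiset.replicate (mI P (Ideal.span {aeval w (minpoly F a)})) P, ?_, ?_, ?_⟩
    · change rootMultiplicity a ((Algebra.leftMulMatrix b f).det.map _) = _
      rw [hdet, ord_norm hPts cv a _ hT _ (span_ne_bot hf) _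
        (by rw [Ideal.relNorm_singleton, Algebra.intNorm_eq_norm]), ← nZ_coe, hfin.coe_toFinset]
    · intro P
      simp only [Multiset.mem_sum, Multiset.mem_replicate, Set.Finite.mem_toFinset,
        Set.mem_ofPred_eq]
      constructor
      · rintro ⟨Q, hQ, -, rfl⟩
        exact hQ
      · intro h
        exact ⟨P, h, (mI_span_ne_zero hPts cv hp P).2 (hroot P h), rfl⟩
    · intro P hP
      obtain ⟨Q, hQ, hPQ⟩ := Multiset.mem_sum.1 hP
      obtain rfl := Multiset.eq_of_mem_replicate hPQ
      rw [Multiset.count_sum', sum_eq_single P, Multiset.count_replicate_self]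
      · intro Q _ hne
        rw [Multiset.count_replicate, if_neg hne]
      · intro h
        exact absurd hQ h
    · intro f
      have hpm : (Ideal.span {minpoly F a}).IsMaximal :=
        PrincipalIdealRing.isMaximal_of_irreducible hirr
      have hmem : ∀ r, r ∈ Ideal.span {minpoly F a} ↔ aeval a r = 0 := fun r => by
        rw [Ideal.mem_span_singleton, minpoly.dvd_iff]
      let := Ideal.Quotient.field (Ideal.span {minpoly F a})
      let : Algebra (F[X] ⧸ Ideal.span {minpoly F a}) Ω :=
        (Ideal.Quotient.lift _ (aeval a : F[X] →ₐ[F] Ω).toRingHom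
          fun r hr => (hmem r).1 hr).toAlgebra
      let : Algebra (F[X] ⧸ Ideal.span {minpoly F a})
          (A ⧸ Ideal.span {aeval w (minpoly F a)}) :=
        (Ideal.Quotient.lift _ ((Ideal.Quotient.mk _).comp (algebraMap F[X] A)) fun r hr => by
          obtain ⟨t, rfl⟩ := Ideal.mem_span_singleton.1 hr
          rw [RingHom.comp_apply, Ideal.Quotient.eq_zero_iff_mem, map_mul]
          exact Ideal.mul_mem_right _ _ (Ideal.mem_span_singleton_self _)).toAlgebra
      obtain ⟨hfd, hn⟩ := norm_red b (minpoly F a) (Ideal.Quotient.mk (Ideal.span {minpoly F a}))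
        Ideal.Quotient.mk_surjective
        (Ideal.Quotient.eq_zero_iff_mem.2 (Ideal.mem_span_singleton_self _))
        (Ideal.span {aeval w (minpoly F a)}) rfl (fun r => rfl)
      have key : ∀ g, aeval a (Algebra.norm F[X] g) =
          ∏ P ∈ hfin.toFinset, P g ^ mI P (Ideal.span {aeval w (minpoly F a)}) := by
        intro g
        rw [← norm_prod hPts cv (Ideal.Quotient.mk (Ideal.span {minpoly F a}))
          Ideal.Quotient.mk_surjective a (fun r => rfl) _ hT g _ (fun r => rfl) (span_ne_bot hp),
          hn]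
        rfl
      apply eq_of_infinite_eval_eq
      refine (Set.infinite_range_of_injective (algebraMap F Ω).injective).mono ?_
      rintro _ ⟨c, rfl⟩
      rw [Set.mem_ofPred_eq]
      have e1 : algebraMap F Ω c = (aeval a : F[X] →ₐ[F] Ω).toRingHom (C c) := by simp
      have e2 : ((Algebra.leftMulMatrix b f).charpoly).eval (C c) =
          Algebra.norm F[X] (algebraMap F A c - f) := by
        rw [Matrix.eval_charpoly, ← hdet, map_sub, IsScalarTower.algebraMap_apply F F[X] A,
          AlgHom.commutes]
        rfl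
      change eval _ ((Algebra.leftMulMatrix b f).charpoly.map _) = _
      conv_lhs => rw [e1, eval_map, eval₂_at_apply, e2]
      change aeval a _ = _
      rw [key, prod_map_rep]
      simp [eval_prod]

end Pool.Agent.P.MP_b8021b_nt.VC
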