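import Pool.Agent.P.MP_b8021b_nt.VC.StT
import Pool.Agent.P.MP_b8021b_nt.VC.BasicA
import Pool.Agent.P.MP_b8021b_nt.VC.GD
import Pool.Agent.P.MP_b8021b_nt.VE.POmP2

/-! Helper lemmas for the package `om`: lattice points in a ball, the weight of sections and
translation. -/

namespace Pool.Agent.P.MP_b8021b_nt.VC.Om

open Polynomial Finset NumberField MeasureTheory Pool.Agent.P.MP_b8021b_nt.VE
open scoped Classical

/-- a lattice with covering radius at most `w` has many points in a ball -/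
lemma count_ge {E : Type} [NormedAddCommGroup E] [NormedSpace ℝ E] [FiniteDimensional ℝ E]
    [MeasurableSpace E] [BorelSpace E] (μ : Measure E) [μ.IsAddHaarMeasure] (Λ : Submodule ℤ E)
    [DiscreteTopology Λ] [IsZLattice ℝ Λ] (w ρ : ℝ) (hw : ∀ x, ∃ l ∈ Λ, ‖x - l‖ ≤ w)
    (T : Finset E) (hT : ∀ l ∈ Λ, ‖l‖ ≤ ρ + w → l ∈ T) :
    μ.real (Metric.closedBall 0 ρ) ≤ T.card * ZLattice.covolume Λ μ := by
  let b := Module.Free.chooseBasis ℤ Λ
  have fund := ZLattice.isAddFundamentalDomain b μ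
  have hfin : μ (ZSpan.fundamentalDomain (b.ofZLatticeBasis ℝ)) ≠ ⊤ :=
    (ZSpan.fundamentalDomain_isBounded _).measure_lt_top.ne
  have i1 : MeasurableVAdd Λ E := (inferInstance : MeasurableVAdd Λ.toAddSubgroup E)
  have i2 : VAddInvariantMeasure Λ E μ :=
    (inferInstance : VAddInvariantMeasure Λ.toAddSubgroup E μ)
  have hm : MeasurableSet (Metric.closedBall (0 : E) ρ) := Metric.isClosed_closedBall.measurableSet
  have h1 := fund.lintegral_eq_tsum'' ((Metric.closedBall (0 : E) ρ).indicator 1)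
  rw [lintegral_indicator_one hm, ← lintegral_tsum
    (f := fun (g : Λ) (x : E) => (Metric.closedBall (0 : E) ρ).indicator (1 : E → ENNReal) (g +ᵥ x))
    fun g => ((measurable_one.indicator hm).comp (measurable_const_vadd g)).aemeasurable] at h1
  have h2 : ∀ x : E, ∑' g : Λ, (Metric.closedBall (0 : E) ρ).indicator (1 : E → ENNReal) (g +ᵥ x) ≤
      (T.card : ENNReal) := by
    intro x
    obtain ⟨l, hl, hx⟩ := hw x
    rw [ENNReal.tsum_eq_iSup_sum]
    refine iSup_le fun s => ?_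
    have e1 : ∑ g ∈ s, (Metric.closedBall (0 : E) ρ).indicator (1 : E → ENNReal) (g +ᵥ x) =
        ((s.filter fun g : Λ => g +ᵥ x ∈ Metric.closedBall (0 : E) ρ).card : ENNReal) := by
      rw [Finset.card_filter]
      push_cast
      refine Finset.sum_congr rfl fun g _ => ?_
      by_cases hg : g +ᵥ x ∈ Metric.closedBall (0 : E) ρ
      · rw [Set.indicator_of_mem hg, if_pos hg, Pi.one_apply]
      · rw [Set.indicator_of_notMem hg, if_neg hg]
    rw [e1, Nat.cast_le]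
    refine Finset.card_le_card_of_injOn (fun g : Λ => (g : E) + l) (fun g hg => ?_) ?_
    · have h3 : ‖(g : E) + x‖ ≤ ρ := mem_closedBall_zero_iff.1 (mem_filter.1 hg).2
      refine hT _ (Λ.add_mem g.2 hl) ?_
      have h4 := norm_sub_le ((g : E) + x) (x - l)
      rw [show (g : E) + x - (x - l) = g + l by abel] at h4
      linarith
    · intro g _ g' _ h
      exact Subtype.ext (add_right_cancel h)
  have h3 : μ (Metric.closedBall (0 : E) ρ) ≤
      T.card * μ (ZSpan.fundamentalDomain (b.ofZLatticeBasis ℝ)) := by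
    rw [h1, ← setLIntegral_const]
    exact lintegral_mono h2
  rw [ZLattice.covolume_eq_measure_fundamentalDomain _ _ fund, Measure.real, Measure.real,
    ← ENNReal.toReal_natCast, ← ENNReal.toReal_mul]
  exact ENNReal.toReal_mono (ENNReal.mul_ne_top (ENNReal.natCast_ne_top _) hfin) h3

section

variable {k : Type} [Field k] [NumberField k] [Algebra k ℂ] {L : Type} [Field L] [NumberField L]
  [Algebra k L]

/-- small elements of an ideal -/
lemma small (K : BF k) {Q : ℝ} (hS : Small k L Q) (𝔟 : Ideal (𝓞 L)) (n : ℕ) (ϱ : ℝ) (hn : 1 ≤ n)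
    (hb : (n : 𝓞 L) ∈ 𝔟) (hϱ : 4 * Module.finrank k L * (|(K.D : ℝ)| * Q) * n ≤ ϱ) :
    0 < (Ideal.absNorm 𝔟 : ℝ) * cov2 k L ∧
    ∃ T : Finset (𝓞 L), (∀ α ∈ T, α ∈ 𝔟 ∧ ‖emb k α‖ ≤ ϱ) ∧
      (ϱ / 2) ^ (2 * Module.finrank k L) / (Ideal.absNorm 𝔟 * cov2 k L) ≤ T.card := by
  obtain ⟨F, hF⟩ := Geo.exDat K hS
  have hn0 : (n : 𝓞 L) ≠ 0 := Nat.cast_ne_zero.2 (by omega)
  have h𝔟 : 𝔟 ≠ ⊥ := fun h0 => hn0 (by rwa [h0, Ideal.mem_bot] at hb)
  have := Geo.lat_isZ F h𝔟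
  have hcv : 0 < (Ideal.absNorm 𝔟 : ℝ) * cov2 k L := by
    rw [← Geo.cov_eq2 hF]
    exact mul_pos (lt_of_lt_of_le one_pos (Geo.one_le_normR h𝔟)) (Geo.cov_pos F)
  have hQ := Geo.one_le_Q F
  have hϱ0 : 0 ≤ ϱ := le_trans (by positivity) hϱ
  have hf : {β : 𝓞 L | β ∈ 𝔟 ∧ ‖F.ph β‖ ≤ ϱ}.Finite :=
    (Geo.finite_bdd F ϱ).subset fun β hβ => hβ.2
  refine ⟨hcv, hf.toFinset, fun α hα => ?_, ?_⟩
  · rw [← Geo.ph_eq hF]
    exact hf.mem_toFinset.1 hα
  · have h1 := count_ge volume (F.lat 𝔟) (ϱ / 2) (ϱ / 2) (fun x => by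
      obtain ⟨t, ht⟩ := Geo.reduce F hn0 x
      refine ⟨F.ph (n * t), (Geo.mem_lat F).2 ⟨_, 𝔟.mul_mem_right _ hb, rfl⟩, ?_⟩
      refine (pi_norm_le_iff_of_nonneg (by positivity)).2 fun i => (ht i).trans ?_
      rw [map_natCast, Complex.norm_natCast, Geo.card_emb]
      linarith) (hf.toFinset.image F.ph) (fun l hl h => by
      obtain ⟨β, hβ, rfl⟩ := (Geo.mem_lat F).1 hl
      exact mem_image_of_mem _ (hf.mem_toFinset.2 ⟨hβ, by linarith⟩))
    have h2 : Metric.closedBall (0 : Emb k L → ℂ) (ϱ / 2) = Geo.box 0 fun _ => ϱ / 2 := by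
      ext z
      rw [Geo.mem_box, mem_closedBall_zero_iff, pi_norm_le_iff_of_nonneg (by positivity)]
      simp
    rw [h2, Geo.volr_box _ fun _ => by positivity, Geo.cov_eq F h𝔟, Geo.cov_eq2 hF, prod_const,
      card_univ, Geo.card_emb, ← pow_mul] at h1
    rw [div_le_iff₀ hcv]
    have h3 : ((hf.toFinset.image F.ph).card : ℝ) ≤ hf.toFinset.card := by
      exact_mod_cast Finset.card_image_le
    have h4 : 1 ≤ Real.pi ^ Module.finrank k L := one_le_pow₀ (by linarith [Real.pi_gt_three])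
    exact ((le_mul_of_one_le_left (by positivity) h4).trans h1).trans
      (mul_le_mul_of_nonneg_right h3 hcv.le)

end

variable {R : Type} [CommRing R] [Algebra ℤ[X] R]

/-- the linear part of `gt` and `ct` -/
noncomputable def lin (p : Par R) (v : p.Co) (t : ℤ × ℤ) (i : Fin p.e × Bool) : ℤ :=
  (p.r : ℤ) ^ p.n0 * p.Gt t * hev (p.d i.1) (p.hp v i) t.1 t.2

lemma hp_add (p : Par R) (s v : p.Co) (i : Fin p.e × Bool) :
    p.hp (s + v) i = p.hp s i + p.hp v i := by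
  simp only [Par.hp, Pi.add_apply, map_add, add_mul, Finset.sum_add_distrib]

lemma hev_aux (p : Par R) (v : p.Co) (t : ℤ × ℤ) (i : Fin p.e × Bool) :
    hev (p.dd - p.κ i.1) (C ((p.r : ℤ) ^ p.n0) * p.G * p.hp v i) t.1 t.2 = lin p v t i := by
  have h := p.d_add i.1
  rw [mul_assoc, hev_C_mul, show p.dd - p.κ i.1 = p.ρ + p.d i.1 by omega,
    hev_mul (le_refl p.ρ) (p.natDegree_hp v i), lin, mul_assoc]
  rfl

lemma gt_add (p : Par R) (s v : p.Co) (t : ℤ × ℤ) (i : Fin p.e) :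
    p.gt (s + v) t i = p.gt s t i + lin p v t (i, false) := by
  rw [Par.gt, Par.gp, hp_add, mul_add, ← add_assoc, hev_add, hev_aux p v t (i, false)]
  rfl

lemma ct_add (p : Par R) (s v : p.Co) (t : ℤ × ℤ) (i : Fin p.e) :
    p.ct (s + v) t i = p.ct s t i + lin p v t (i, true) := by
  rw [Par.ct, Par.cp, hp_add, mul_add, ← add_assoc, hev_add, hev_aux p v t (i, true)]
  rfl

lemma lin_smul (p : Par R) (n : ℤ) (v : p.Co) (t : ℤ × ℤ) (i : Fin p.e × Bool) :
    lin p (fun j => n * v j) t i = n * lin p v t i := by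
  have : p.hp (fun j => n * v j) i = C n * p.hp v i := by
    simp only [Par.hp, map_mul, Finset.mul_sum, mul_assoc]
  rw [lin, this, hev_C_mul, lin]
  ring

lemma lin_coeff (p : Par R) (P : Fin p.e × Bool → ℤ[X]) (t : ℤ × ℤ) (i : Fin p.e × Bool) :
    lin p (fun j => (P j.1).coeff j.2.1) t i =
      (p.r : ℤ) ^ p.n0 * p.Gt t * hev (p.d i.1) (P i) t.1 t.2 := by
  rw [lin, hev, hev]
  congr 1
  refine Finset.sum_congr rfl fun j hj => ?_
  rw [p.coeff_hp (fun j => (P j.1).coeff j.2.1) i ⟨j, mem_range.1 hj⟩]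

section

variable {p : Par R} {t : ℤ × ℤ} {k : Type} [Field k] [NumberField k] [Algebra k ℂ] {L : Type}
  [Field L] [Algebra k L]

lemma al_add (K : BF k) (Φ : Fb p t k L) (s v : p.Co) : Φ.al K (s + v) = Φ.al K s +
    ∑ i, ((lin p v t (i, false) : 𝓞 L) + (lin p v t (i, true) : 𝓞 L) * K.om L) * Φ.η i := by
  simp only [Fb.al, gt_add, ct_add, ← Finset.sum_add_distrib]
  refine Finset.sum_congr rfl fun i _ => ?_
  push_cast
  ring

lemma al_congr (K : BF k) (Φ : Fb p t k L) (n : ℕ) (𝔟 : Ideal (𝓞 L)) (hn : (n : 𝓞 L) ∈ 𝔟)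
    (s s' : p.Co) (h : (fun j => (s j : ZMod n)) = fun j => (s' j : ZMod n)) :
    Φ.al K s' - Φ.al K s ∈ 𝔟 := by
  have h1 : ∀ j, ∃ w : ℤ, s' j - s j = n * w := fun j =>
    (ZMod.intCast_eq_intCast_iff_dvd_sub _ _ _).mp (congrFun h j)
  choose w hw using h1
  have h2 : s' = s + fun j => (n : ℤ) * w j := by
    funext j
    simp only [Pi.add_apply]
    linarith [hw j]
  rw [h2, al_add, add_sub_cancel_left]
  refine 𝔟.sum_mem fun i _ => 𝔟.mul_mem_right _ ?_
  rw [lin_smul, lin_smul]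
  push_cast
  rw [mul_assoc, ← mul_add]
  exact 𝔟.mul_mem_right _ hn

end

/-! ### the weights -/

lemma wS_eq (p : Par R) (S0 L : ℕ) (s : p.Co) : wS p S0 L s =
    (∏ j, tent (((s j - cen p S0 j : ℤ) : ℝ) / L)) / (L : ℝ) ^ Fintype.card p.Ix := by
  rw [wS, Finset.prod_div_distrib, Finset.prod_const, Finset.card_univ]

lemma wS_nonneg (p : Par R) (S0 L : ℕ) (s : p.Co) : 0 ≤ wS p S0 L s := by
  rw [wS_eq]
  exact div_nonneg (Finset.prod_nonneg fun j _ => VE.OmP.tent_nonneg _) (by positivity)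

lemma wS_le (p : Par R) (S0 L : ℕ) (s : p.Co) :
    wS p S0 L s ≤ 1 / (L : ℝ) ^ Fintype.card p.Ix := by
  rw [wS_eq]
  exact div_le_div_of_nonneg_right
    (Finset.prod_le_one (fun j _ => VE.OmP.tent_nonneg _) fun j _ => VE.OmP.tent_le _) (by positivity)

lemma mem_Sset {p : Par R} {S0 L : ℕ} {s : p.Co} :
    s ∈ Sset p S0 L ↔ ∀ j, |s j - cen p S0 j| < L := by
  simp only [Sset, Fintype.mem_piFinset, Finset.mem_Ioo, abs_lt]
  exact forall_congr' fun j => by constructor <;> rintro ⟨h1, h2⟩ <;> constructor <;> linarith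

lemma wS_zero {p : Par R} {S0 L : ℕ} (hL : 1 ≤ L) {s : p.Co} (h : s ∉ Sset p S0 L) :
    wS p S0 L s = 0 := by
  rw [mem_Sset] at h
  push Not at h
  obtain ⟨j, hj⟩ := h
  have hL' : (0 : ℝ) < L := by exact_mod_cast hL
  rw [wS]
  refine Finset.prod_eq_zero (mem_univ j) ?_
  have h1 : (L : ℝ) ≤ |((s j - cen p S0 j : ℤ) : ℝ)| := by exact_mod_cast hj
  have : tent (((s j - cen p S0 j : ℤ) : ℝ) / L) = 0 := by
    unfold tent
    refine max_eq_left ?_
    rw [abs_div, abs_of_pos hL', sub_nonpos, le_div_iff₀ hL']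
    linarith
  rw [this, zero_div]

lemma wS_lip (p : Par R) (S0 L : ℕ) (hL : 1 ≤ L) (s v : p.Co) (V : ℝ) (hv : ∀ j, |(v j : ℝ)| ≤ V) :
    |wS p S0 L s - wS p S0 L (s + v)| ≤
      Fintype.card p.Ix * (V / L) / (L : ℝ) ^ Fintype.card p.Ix := by
  have hL' : (0 : ℝ) < L := by exact_mod_cast hL
  rw [wS_eq, wS_eq, ← sub_div, abs_div, abs_of_pos (pow_pos hL' _)]
  refine div_le_div_of_nonneg_right ?_ (by positivity)
  refine (VE.OmP.prod_lip _ _ _ (fun j => ⟨VE.OmP.tent_nonneg _, VE.OmP.tent_le _⟩)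
    fun j => ⟨VE.OmP.tent_nonneg _, VE.OmP.tent_le _⟩).trans ?_
  refine (Finset.sum_le_card_nsmul _ _ (V / L) fun j _ => ?_).trans ?_
  · refine (VE.OmP.tent_lip _ _).trans ?_
    rw [← sub_div, abs_div, abs_of_pos hL']
    refine div_le_div_of_nonneg_right ?_ hL'.le
    simp only [Pi.add_apply]
    push_cast
    rw [show (s j : ℝ) - cen p S0 j - (s j + v j - cen p S0 j) = -(v j) by ring, abs_neg]
    exact hv j
  · rw [Finset.card_univ, nsmul_eq_mul]

lemma wS_low (p : Par R) (S0 L : ℕ) (hL : 1 ≤ L) (s v : p.Co) (hs : s ∈ Sset p S0 L)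
    (hv : ∀ j, |(v j : ℝ)| ≤ L) : s + v ∈ Sset p S0 (4 * L) ∧
      1 / (8 * L : ℝ) ^ Fintype.card p.Ix ≤ wS p S0 (4 * L) (s + v) := by
  have hL' : (0 : ℝ) < L := by exact_mod_cast hL
  rw [mem_Sset] at hs
  have h2 : ∀ j, |(s + v) j - cen p S0 j| < 2 * L := fun j => by
    have h1 : |v j| ≤ (L : ℤ) := by exact_mod_cast hv j
    have h3 := abs_add_le (s j - cen p S0 j) (v j)
    have h4 := hs j
    rw [show (s + v) j - cen p S0 j = s j - cen p S0 j + v j by simp only [Pi.add_apply]; ring]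
    linarith
  refine ⟨mem_Sset.mpr fun j => ?_, ?_⟩
  · have := h2 j
    push_cast
    linarith [Int.natCast_nonneg L]
  · rw [wS, one_div, ← inv_pow, ← Finset.card_univ, ← Finset.prod_const]
    refine Finset.prod_le_prod (fun j _ => by positivity) fun j _ => ?_
    have h3 : |(((s + v) j - cen p S0 j : ℤ) : ℝ)| ≤ 2 * L := by exact_mod_cast (h2 j).le
    have h4 : 1 / 2 ≤ tent ((((s + v) j - cen p S0 j : ℤ) : ℝ) / ((4 * L : ℕ) : ℝ)) := by
      refine le_trans ?_ (le_max_right _ _)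
      have h5 : |(((s + v) j - cen p S0 j : ℤ) : ℝ) / ((4 * L : ℕ) : ℝ)| ≤ 1 / 2 := by
        rw [abs_div, Nat.abs_cast, div_le_iff₀ (by positivity)]
        push_cast at h3 ⊢
        linarith
      linarith
    rw [le_div_iff₀ (by positivity)]
    refine le_trans (le_of_eq ?_) h4
    push_cast
    field_simp
    ring

/-- translation of a fibre -/
lemma lip (p : Par R) (S0 L : ℕ) (hL : 1 ≤ L) (Φ₁ Φ₂ : p.Co → Prop) [DecidablePred Φ₁]
    [DecidablePred Φ₂] (v : p.Co) (V M : ℝ) (hV : 0 ≤ V) (hΦ : ∀ s, Φ₁ s ↔ Φ₂ (s + v))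
    (hv : ∀ j, |(v j : ℝ)| ≤ V) (h1 : (((Sset p S0 L).filter Φ₁).card : ℝ) ≤ M)
    (h2 : (((Sset p S0 L).filter Φ₂).card : ℝ) ≤ M) :
    |∑ s ∈ Sset p S0 L with Φ₁ s, wS p S0 L s - ∑ s ∈ Sset p S0 L with Φ₂ s, wS p S0 L s| ≤
      2 * M * (Fintype.card p.Ix * (V / L) / (L : ℝ) ^ Fintype.card p.Ix) := by
  set A := (Sset p S0 L).filter Φ₁ with hA
  set B := ((Sset p S0 L).filter Φ₂).image (fun s => s - v) with hB
  have e1 : ∑ s ∈ A, wS p S0 L s = ∑ s ∈ A ∪ B, wS p S0 L s := by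
    refine Finset.sum_subset Finset.subset_union_left fun s hs hsA => ?_
    refine wS_zero hL fun h => hsA (mem_filter.mpr ⟨h, ?_⟩)
    rcases mem_union.mp hs with h' | h'
    · exact absurd h' hsA
    · obtain ⟨s', hs', rfl⟩ := mem_image.mp h'
      rw [hΦ, sub_add_cancel]
      exact (mem_filter.mp hs').2
  have e2 : ∑ s ∈ (Sset p S0 L).filter Φ₂, wS p S0 L s = ∑ s ∈ B, wS p S0 L (s + v) := by
    rw [hB, Finset.sum_image fun a _ b _ h => sub_left_injective h]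
    simp only [sub_add_cancel]
  have e3 : ∑ s ∈ B, wS p S0 L (s + v) = ∑ s ∈ A ∪ B, wS p S0 L (s + v) := by
    refine Finset.sum_subset Finset.subset_union_right fun s hs hsB => ?_
    refine wS_zero hL fun h => hsB ?_
    rcases mem_union.mp hs with h' | h'
    · exact mem_image.mpr ⟨s + v, mem_filter.mpr ⟨h, (hΦ s).mp (mem_filter.mp h').2⟩,
        add_sub_cancel_right s v⟩
    · exact h'
  rw [e1, e2, e3, ← Finset.sum_sub_distrib]
  refine (Finset.abs_sum_le_sum_abs _ _).trans ?_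
  refine (Finset.sum_le_card_nsmul _ _ _ fun s _ => wS_lip p S0 L hL s v V hv).trans ?_
  rw [nsmul_eq_mul]
  refine mul_le_mul_of_nonneg_right ?_ (by positivity)
  have c1 : ((A ∪ B).card : ℝ) ≤ A.card + B.card := by exact_mod_cast Finset.card_union_le A B
  have c2 : (B.card : ℝ) ≤ ((Sset p S0 L).filter Φ₂).card := by
    exact_mod_cast Finset.card_image_le
  linarith

/-- packing of translates of a fibre -/
lemma pack (p : Par R) (S0 L : ℕ) (hL : 1 ≤ L) {ι : Type} (T : Finset ι) (Φ Ψ : p.Co → Prop)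
    [DecidablePred Φ] [DecidablePred Ψ] (v : ι → p.Co) (hv : ∀ i ∈ T, ∀ j, |(v i j : ℝ)| ≤ L)
    (hΨ : ∀ s, Φ s → ∀ i ∈ T, Ψ (s + v i))
    (hinj : ∀ s s', Φ s → Φ s' → ∀ i ∈ T, ∀ i' ∈ T, s + v i = s' + v i' → i = i') :
    (((Sset p S0 L).filter Φ).card : ℝ) * T.card ≤
      (8 * L : ℝ) ^ Fintype.card p.Ix * ∑ s ∈ Sset p S0 (4 * L) with Ψ s, wS p S0 (4 * L) s := by
  have hL' : (0 : ℝ) < L := by exact_mod_cast hL
  set A := ((Sset p S0 L).filter Φ) ×ˢ T with hA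
  have hi : Set.InjOn (fun z : p.Co × ι => z.1 + v z.2) A := by
    rintro ⟨s, i⟩ hz ⟨s', i'⟩ hz' h
    obtain ⟨a1, a2⟩ := mem_product.mp (mem_coe.mp hz)
    obtain ⟨b1, b2⟩ := mem_product.mp (mem_coe.mp hz')
    have := hinj s s' (mem_filter.mp a1).2 (mem_filter.mp b1).2 i a2 i' b2 h
    subst this
    have h' : s + v i = s' + v i := h
    rw [add_right_cancel h']
  have e1 : (((Sset p S0 L).filter Φ).card : ℝ) * T.card =
      (A.image fun z : p.Co × ι => z.1 + v z.2).card := by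
    rw [Finset.card_image_of_injOn hi, hA, Finset.card_product]
    push_cast
    rfl
  rw [e1, ← div_le_iff₀' (by positivity)]
  calc ((A.image fun z : p.Co × ι => z.1 + v z.2).card : ℝ) / (8 * L : ℝ) ^ Fintype.card p.Ix
      = ∑ _s ∈ A.image fun z : p.Co × ι => z.1 + v z.2, 1 / (8 * L : ℝ) ^ Fintype.card p.Ix := by
        rw [Finset.sum_const, nsmul_eq_mul, mul_one_div]
    _ ≤ ∑ s ∈ A.image fun z : p.Co × ι => z.1 + v z.2, wS p S0 (4 * L) s := by
        refine Finset.sum_le_sum fun s hs => ?_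
        obtain ⟨⟨s', i⟩, hz, rfl⟩ := mem_image.mp hs
        obtain ⟨a1, a2⟩ := mem_product.mp hz
        exact (wS_low p S0 L hL s' (v i) (mem_filter.mp a1).1 (hv i a2)).2
    _ ≤ _ := by
        refine Finset.sum_le_sum_of_subset_of_nonneg (fun s hs => ?_) fun s _ _ => wS_nonneg _ _ _ _
        obtain ⟨⟨s', i⟩, hz, rfl⟩ := mem_image.mp hs
        obtain ⟨a1, a2⟩ := mem_product.mp hz
        exact mem_filter.mpr ⟨(wS_low p S0 L hL s' (v i) (mem_filter.mp a1).1 (hv i a2)).1,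
          hΨ s' (mem_filter.mp a1).2 i a2⟩

/-- the mass of a union of residue classes at two scales -/
lemma two_scales (hSEq : S_SEq) (p : Par R) : ∃ C : ℝ, 1 ≤ C ∧ ∀ (S0 L n : ℕ) (Ψ : p.Co → Prop)
    [DecidablePred Ψ], 1 ≤ n → 2 * C * n ≤ L →
    (∀ s s' : p.Co, (fun j => (s j : ZMod n)) = (fun j => (s' j : ZMod n)) → Ψ s → Ψ s') →
    ∑ s ∈ Sset p S0 (4 * L) with Ψ s, wS p S0 (4 * L) s ≤
      4 * ∑ s ∈ Sset p S0 L with Ψ s, wS p S0 L s := by
  obtain ⟨C, hC, h⟩ := hSEq R p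
  refine ⟨C, hC, fun S0 L n Ψ _ hn hL hΨ => ?_⟩
  have : NeZero n := ⟨by omega⟩
  have hn' : (1 : ℝ) ≤ n := by exact_mod_cast hn
  have hnL : (n : ℝ) ≤ L := by nlinarith
  have hnL' : n ≤ L := by exact_mod_cast hnL
  have hL0 : (0 : ℝ) < L := by linarith
  set Rr : Finset (p.Ix → ZMod n) :=
    univ.filter fun ρ => ∃ s : p.Co, (fun j => (s j : ZMod n)) = ρ ∧ Ψ s with hR
  have hm : ∀ s : p.Co, (fun j => (s j : ZMod n)) ∈ Rr ↔ Ψ s := fun s => by
    rw [hR, mem_filter]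
    exact ⟨fun ⟨_, s', h1, h2⟩ => hΨ s' s h1 h2, fun h => ⟨mem_univ _, s, rfl, h⟩⟩
  have h1 := (h S0 L n hn hnL').2.1 Rr
  have h2 := (h S0 (4 * L) n hn (by omega)).2.1 Rr
  rw [Finset.filter_congr fun s _ => hm s] at h1 h2
  set q : ℝ := Rr.card / (n : ℝ) ^ Fintype.card p.Ix
  have hq : 0 ≤ q := by positivity
  have a1 : C * (n / L) ≤ 1 / 2 := by
    rw [← mul_div_assoc, div_le_iff₀ hL0]; linarith
  have a2 : C * (n / ((4 * L : ℕ) : ℝ)) ≤ 1 := by
    push_cast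
    rw [← mul_div_assoc, div_le_iff₀ (by positivity)]
    nlinarith
  have b1 := (abs_le.mp h1).1
  have b2 := (abs_le.mp h2).2
  have b3 := mul_le_mul_of_nonneg_right a1 hq
  have b4 := mul_le_mul_of_nonneg_right a2 hq
  linarith

end Pool.Agent.P.MP_b8021b_nt.VC.Om
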