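import Pool.Agent.P.MP_b8021b_nt.VC.StA
import Pool.Agent.P.MP_b8021b_nt.VC.POm1
import Pool.Agent.P.MP_b8021b_nt.VE.POmP1

/-! The package `om`: the weight of the fibres of the evaluation map. -/

namespace Pool.Agent.P.MP_b8021b_nt.VC

open Polynomial Finset NumberField Pool.Agent.P.MP_b8021b_nt.VE
open scoped Classical

namespace Om

variable {R : Type} [CommRing R] [Algebra ℤ[X] R] {p : Par R} {k : Type} [Field k] [NumberField k]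
  [Algebra k ℂ]

lemma div_pow_le (z N B b : ℝ) (d e k : ℕ) (hk : d + e = k) (hB : 0 < B) (hb : B ≤ b)
    (h : |z| * B ^ e ≤ N) : |z| / b ^ d ≤ N / B ^ k := by
  subst hk
  have h1 : |z| / b ^ d ≤ |z| / B ^ d :=
    div_le_div_of_nonneg_left (abs_nonneg z) (pow_pos hB d) (pow_le_pow_left₀ hB.le hb d)
  refine h1.trans ?_
  rw [div_le_div_iff₀ (pow_pos hB _) (pow_pos hB _), pow_add]
  nlinarith [mul_le_mul_of_nonneg_right h (pow_pos hB d).le]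

/-- coordinates of an element of the big ideal -/
lemma dec (K : BF k) {t : ℤ × ℤ} {L : Type} [Field L] [NumberField L] [Algebra k L]
    (Φ : Fb p t k L) (CW CF B : ℝ) (Δ : ℤ) (hB : 0 < B) (hb : B ≤ t.2) (hCF : 0 ≤ CF)
    (hG : B ^ p.ρ ≤ CF * |(p.Gt t : ℝ)|)
    (h1 : ∀ β : 𝓞 L, ∃ g c : Fin p.e → ℤ,
      (p.Mt t : 𝓞 L) * β = ∑ i, ((g i : 𝓞 L) + (c i : 𝓞 L) * K.om L) * Φ.η i)
    (h2 : ∀ (g c : Fin p.e → ℝ) (M : ℝ),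
      (∀ φ : Emb k L, ‖∑ i, ((g i : ℂ) + c i * K.σ K.ω) * φ (Φ.q (p.y i))‖ ≤ M) →
      ∀ i, |g i| ≤ CW * M ∧ |c i| ≤ CW * M) (δ : 𝓞 L)
    (hδ : δ ∈ Ideal.span {((2 * (p.r : ℤ) ^ (p.n0 + 1) * p.Gt t * Δ * p.Dt t : ℤ) : 𝓞 L)}) :
    ∃ x : Fin p.e × Bool → ℤ,
      δ = ∑ i, ((((p.r : ℤ) ^ p.n0 * p.Gt t * (Δ * x (i, false)) : ℤ) : 𝓞 L) +
        (((p.r : ℤ) ^ p.n0 * p.Gt t * (Δ * x (i, true)) : ℤ) : 𝓞 L) * K.om L) * Φ.η i ∧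
      ∀ i, |(Δ : ℝ) * x i| / (t.2 : ℝ) ^ p.d i.1 ≤ CF * CW * ‖emb k δ‖ / B ^ p.dd := by
  obtain ⟨β, hβ⟩ := Ideal.mem_span_singleton'.mp hδ
  obtain ⟨g, c, hgc⟩ := h1 β
  obtain ⟨ε, hε⟩ : ∃ ε : ℤ, ε * (p.Mt t : ℤ) = 2 * p.r * p.Dt t := ⟨_, Int.sign_mul_natAbs _⟩
  have hε' : (ε : 𝓞 L) * (p.Mt t : 𝓞 L) = 2 * p.r * p.Dt t := by
    exact_mod_cast congrArg (Int.cast (R := 𝓞 L)) hε
  let x : Fin p.e × Bool → ℤ := fun i => if i.2 then ε * c i.1 else ε * g i.1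
  have e : δ = ∑ i, ((((p.r : ℤ) ^ p.n0 * p.Gt t * (Δ * x (i, false)) : ℤ) : 𝓞 L) +
      (((p.r : ℤ) ^ p.n0 * p.Gt t * (Δ * x (i, true)) : ℤ) : 𝓞 L) * K.om L) * Φ.η i := by
    have e1 : δ = (p.r : 𝓞 L) ^ p.n0 * p.Gt t * Δ * ε * ((p.Mt t : 𝓞 L) * β) := by
      rw [← hβ]
      push_cast
      linear_combination (-((p.r : 𝓞 L) ^ p.n0 * p.Gt t * Δ * β)) * hε'
    rw [e1, hgc, Finset.mul_sum]
    refine Finset.sum_congr rfl fun i _ => ?_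
    simp only [x, if_true, Bool.false_eq_true, if_false]
    push_cast
    ring
  refine ⟨x, e, ?_⟩
  have h3 := h2 (fun i => (((p.r : ℤ) ^ p.n0 * p.Gt t * (Δ * x (i, false)) : ℤ) : ℝ) * t.2 ^ p.κ i)
    (fun i => (((p.r : ℤ) ^ p.n0 * p.Gt t * (Δ * x (i, true)) : ℤ) : ℝ) * t.2 ^ p.κ i) ‖emb k δ‖
    (fun φ => by
      refine le_of_eq_of_le (congrArg _ ?_) (norm_le_pi_norm (emb k δ) φ)
      have hw : φ ((K.om L : 𝓞 L) : L) = K.σ K.ω := by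
        rw [K.hσ]
        exact φ.commutes (K.ω : k)
      have e2 : emb k δ φ = ((φ : L →+* ℂ).comp (algebraMap (𝓞 L) L)) δ := rfl
      rw [e2, e, map_sum]
      refine Finset.sum_congr rfl fun i _ => ?_
      have hη : ((φ : L →+* ℂ).comp (algebraMap (𝓞 L) L)) (Φ.η i) =
          (t.2 : ℂ) ^ p.κ i * φ (Φ.q (p.y i)) := by
        show φ (Φ.η i : L) = _
        rw [Φ.hη, map_mul, map_pow, map_intCast]
      have hw' : ((φ : L →+* ℂ).comp (algebraMap (𝓞 L) L)) (K.om L) = K.σ K.ω := hw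
      rw [map_mul, map_add, map_mul, map_intCast, map_intCast, hη, hw']
      push_cast
      ring)
  have h4 : ∀ i : Fin p.e × Bool,
      |(((p.r : ℤ) ^ p.n0 * p.Gt t * (Δ * x i) : ℤ) : ℝ) * t.2 ^ p.κ i.1| ≤ CW * ‖emb k δ‖ := by
    rintro ⟨i, _ | _⟩
    · exact (h3 i).1
    · exact (h3 i).2
  intro i
  have hd := p.d_add i.1
  refine div_pow_le _ _ B _ _ (p.ρ + p.κ i.1) _ (by omega) hB hb ?_
  have h5 := h4 i
  have hr : (1 : ℝ) ≤ (p.r : ℝ) ^ p.n0 := one_le_pow₀ (by exact_mod_cast p.hr.one_lt.le)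
  have hb0 : (0 : ℝ) < t.2 := hB.trans_le hb
  push_cast at h5
  rw [abs_mul, abs_mul, abs_mul, abs_of_pos (pow_pos hb0 _),
    abs_of_pos (lt_of_lt_of_le one_pos hr)] at h5
  have h6 : B ^ p.κ i.1 ≤ (t.2 : ℝ) ^ p.κ i.1 := pow_le_pow_left₀ hB.le hb _
  calc |(Δ : ℝ) * x i| * B ^ (p.ρ + p.κ i.1)
      = |(Δ : ℝ) * x i| * (B ^ p.ρ * B ^ p.κ i.1) := by rw [pow_add]
    _ ≤ |(Δ : ℝ) * x i| * (CF * |(p.Gt t : ℝ)| * (t.2 : ℝ) ^ p.κ i.1) :=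
        mul_le_mul_of_nonneg_left (mul_le_mul hG h6 (by positivity) (by positivity)) (abs_nonneg _)
    _ = CF * (1 * |(p.Gt t : ℝ)| * |(Δ : ℝ) * x i| * (t.2 : ℝ) ^ p.κ i.1) := by ring
    _ ≤ CF * ((p.r : ℝ) ^ p.n0 * |(p.Gt t : ℝ)| * |(Δ : ℝ) * x i| * (t.2 : ℝ) ^ p.κ i.1) := by
        gcongr
    _ ≤ CF * (CW * ‖emb k δ‖) := mul_le_mul_of_nonneg_left h5 hCF
    _ = _ := by ring

/-- lifting a pair of differences to a small vector -/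
lemma liftK (K : BF k) {t t' : ℤ × ℤ} {L L' : Type} [Field L] [Algebra k L] [Field L']
    [Algebra k L'] (Φ : Fb p t k L) (Φ' : Fb p t' k L') (T B ζ A A' : ℝ) (hB : 1 ≤ B) (hT : 1 ≤ T)
    (b1 : B ≤ t.2) (b2 : t.2 ≤ 2 * B) (b1' : B ≤ t'.2) (b2' : t'.2 ≤ 2 * B)
    (hτ : |(t.1 : ℝ) / t.2| ≤ T) (hτ' : |(t'.1 : ℝ) / t'.2| ≤ T)
    (hc : IsCoprime t.1 t.2) (hc' : IsCoprime t'.1 t'.2) (hζ : 0 < ζ) (hζ1 : ζ ≤ 1)
    (hζτ : ζ ≤ |(t.1 : ℝ) / t.2 - (t'.1 : ℝ) / t'.2|) (δ : 𝓞 L) (δ' : 𝓞 L')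
    (x x' : Fin p.e × Bool → ℤ)
    (e : δ = ∑ i, ((((p.r : ℤ) ^ p.n0 * p.Gt t * (dl t t' * x (i, false)) : ℤ) : 𝓞 L) +
      (((p.r : ℤ) ^ p.n0 * p.Gt t * (dl t t' * x (i, true)) : ℤ) : 𝓞 L) * K.om L) * Φ.η i)
    (e' : δ' = ∑ i, ((((p.r : ℤ) ^ p.n0 * p.Gt t' * (dl t t' * x' (i, false)) : ℤ) : 𝓞 L') +
      (((p.r : ℤ) ^ p.n0 * p.Gt t' * (dl t t' * x' (i, true)) : ℤ) : 𝓞 L') * K.om L') * Φ'.η i)
    (hx : ∀ i, |(dl t t' : ℝ) * x i| / (t.2 : ℝ) ^ p.d i.1 ≤ A)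
    (hx' : ∀ i, |(dl t t' : ℝ) * x' i| / (t'.2 : ℝ) ^ p.d i.1 ≤ A') :
    ∃ v : p.Co, (∀ s, Φ.al K (s + v) = Φ.al K s + δ) ∧ (∀ s, Φ'.al K (s + v) = Φ'.al K s + δ') ∧
      ∀ j, |(v j : ℝ)| ≤ (1 + T) * (A + A' + 8 * p.dd * B ^ 2 * T ^ p.dd) / ζ := by
  have hB0 : 0 < B := by linarith
  have hb : 0 < t.2 := by
    have : (0 : ℝ) < t.2 := by linarith
    exact_mod_cast this
  have hb' : 0 < t'.2 := by
    have : (0 : ℝ) < t'.2 := by linarith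
    exact_mod_cast this
  have hW : (t.2 : ℝ) * t'.2 ≤ 4 * B ^ 2 :=
    (mul_le_mul b2 b2' (by linarith) (by linarith)).trans (le_of_eq (by ring))
  have hP := fun i : Fin p.e × Bool => VE.OmP.lift1 (p.d i.1) (by have := p.two_le_d i.1; omega)
    t.1 t.2 t'.1 t'.2 (x i) (x' i) hc hc' hb hb' T ζ (4 * B ^ 2) (A + A') hT hτ hτ' hζ hζ1 hζτ hW
    (add_le_add (hx i) (hx' i))
  choose P P1 P2 P3 using hP
  refine ⟨fun j => (P j.1).coeff j.2.1, fun s => ?_, fun s => ?_, fun j => (P3 j.1 _).trans ?_⟩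
  · rw [al_add, e]
    refine congrArg _ (Finset.sum_congr rfl fun i _ => ?_)
    rw [lin_coeff, lin_coeff, P1, P1]
    rfl
  · rw [al_add, e']
    refine congrArg _ (Finset.sum_congr rfl fun i _ => ?_)
    rw [lin_coeff, lin_coeff, P2, P2]
    rfl
  · have hd : p.d j.1.1 + 1 ≤ p.dd := by
      have := p.d_add j.1.1
      have := p.ρ_pos
      omega
    refine div_le_div_of_nonneg_right (mul_le_mul_of_nonneg_left ?_ (by linarith)) hζ.le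
    have h1 : (p.d j.1.1 : ℝ) + 1 ≤ p.dd := by exact_mod_cast hd
    have h2 : T ^ p.d j.1.1 ≤ T ^ p.dd := pow_le_pow_right₀ hT (by omega)
    have h3 : ((p.d j.1.1 : ℝ) + 1) * T ^ p.d j.1.1 ≤ p.dd * T ^ p.dd :=
      mul_le_mul h1 h2 (by positivity) (by positivity)
    have h4 := mul_le_mul_of_nonneg_left h3 (sq_nonneg B)
    linarith

end Om

open Om in
theorem p_om (hQF : S_QF) (hSEq : S_SEq) (hWc : S_Wc) (hFlat : S_Flat) : S_Om := by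
  intro R _ _ F k _ _ _ K hK
  obtain ⟨-, CF, hCF, hF⟩ := hFlat R F.p
  obtain ⟨y₁, hy₁⟩ := hF F rfl
  obtain ⟨CS, hCS, hS⟩ := two_scales hSEq F.p
  obtain ⟨CW, hCW, hW⟩ := hWc R F.p
  have hτ0 := F.p.τle
  have hη := F.ηpos
  have hη1 := F.ηle
  obtain ⟨T, hT⟩ : ∃ T : ℝ, T = -F.p.τ0 := ⟨_, rfl⟩
  have hT1 : 1 ≤ T := by linarith
  obtain ⟨m, hm⟩ : ∃ m : ℕ, m = Fintype.card F.p.Ix := ⟨_, rfl⟩
  obtain ⟨E, hE⟩ : ∃ E : ℝ, E = (1 + T) * (8 * F.p.dd * T ^ F.p.dd) := ⟨_, rfl⟩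
  have hE0 : 0 ≤ E := by rw [hE]; positivity
  obtain ⟨D, hD⟩ : ∃ D : ℝ, D = (1 + T) * (CF * CW) := ⟨_, rfl⟩
  have hD0 : 0 < D := by rw [hD]; positivity
  obtain ⟨C₁, hC₁⟩ : ∃ C₁ : ℝ, C₁ = 4 * 8 ^ m * (8 * D) ^ (4 * F.p.e) := ⟨_, rfl⟩
  have hC₁0 : 0 ≤ C₁ := by rw [hC₁]; positivity
  obtain ⟨H, hH⟩ : ∃ H : ℝ, H = 16 * F.p.e * |(K.D : ℝ)| * D := ⟨_, rfl⟩
  have hH0 : 0 ≤ H := by rw [hH]; positivity
  obtain ⟨Kc, hKc⟩ : ∃ Kc : ℝ, Kc = 2 * CS + H + 2 * E + 1 := ⟨_, rfl⟩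
  have hmE : 0 ≤ C₁ * (4 * m * E / F.η) := by positivity
  have hmD : 0 ≤ 2 * m * D := by positivity
  obtain ⟨C, hC⟩ : ∃ C : ℝ, C = C₁ + 2 * m * D + C₁ * (4 * m * E / F.η) + 1 := ⟨_, rfl⟩
  refine ⟨C, by linarith, max y₁ (max 1 (2 * Kc / F.η)), ?_⟩
  intro c hy hc t t' L L' _ _ _ _ _ _ Φ Φ' 𝔟 𝔟' n₁ s₀ ζ Ω ht ht' hco hco' hζ hζτ hn hny hnb hnb'
    h𝔟 h𝔟' hΩ
  obtain ⟨-, hsz, -, hsm⟩ := hy₁ c (le_trans (le_max_left _ _) hy) hc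
  have hy1 : 1 ≤ c.y := le_trans (le_trans (le_max_left _ _) (le_max_right _ _)) hy
  have hy2 : 2 * Kc / F.η ≤ c.y := le_trans (le_trans (le_max_right _ _) (le_max_right _ _)) hy
  have hy0 : 0 < c.y := by linarith
  have hB1 : 1 ≤ c.B := le_trans (one_le_pow₀ hy1) hc.B_ge
  have hB0 : 0 < c.B := by linarith
  have hB2 : c.B ^ 2 ≤ c.y ^ 12 := by
    have := pow_le_pow_left₀ hB0.le hc.B_le 2
    rwa [← pow_mul] at this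
  have hζ0 : 0 < ζ := lt_of_lt_of_le (inv_pos.mpr hy0) hζ
  have hζy : 1 ≤ ζ * c.y := by
    have := mul_le_mul_of_nonneg_right hζ hy0.le
    rwa [inv_mul_cancel₀ hy0.ne'] at this
  have hcE : 28 ≤ F.p.cE := by unfold Par.cE; omega
  have hS0 : (0 : ℝ) < c.S0 := lt_of_lt_of_le (pow_pos hy0 _) hc.S_ge
  have hLS : F.η * c.S0 / 2 ≤ c.L := by rw [← hc.η]; exact hc.L_ge
  have hL : Kc * c.y ^ (2 * F.p.cE + 4) ≤ c.L := by
    have hσ := F.hσ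
    have h2 : c.y ^ (2 * F.p.cE + 4 + 1) ≤ c.S0 := (pow_le_pow_right₀ hy1 (by omega)).trans hc.S_ge
    rw [div_le_iff₀ hη] at hy2
    have h3 : 0 < c.y ^ (2 * F.p.cE + 4) := by positivity
    have h4 := mul_le_mul_of_nonneg_left h2 hη.le
    have h5 : F.η * c.y ^ (2 * F.p.cE + 4 + 1) = c.y * F.η * c.y ^ (2 * F.p.cE + 4) := by ring
    have h6 := mul_le_mul_of_nonneg_right hy2 h3.le
    linarith
  have hKL : ∀ (a : ℝ) (e : ℕ), 0 ≤ a → a ≤ Kc → e ≤ 2 * F.p.cE + 4 → a * c.y ^ e ≤ c.L :=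
    fun a e h0 h1 he =>
      (mul_le_mul h1 (pow_le_pow_right₀ hy1 he) (by positivity) (h0.trans h1)).trans hL
  have hL1r : (1 : ℝ) ≤ c.L := by
    have := hKL 1 0 zero_le_one (by linarith) (by omega)
    simpa using this
  have hL1 : 1 ≤ c.L := by exact_mod_cast hL1r
  have hL0 : (0 : ℝ) < c.L := by linarith
  have hbox : ∀ u ∈ Tset F.p c, c.B ≤ u.2 ∧ u.2 ≤ 2 * c.B ∧
      F.p.τ0 ≤ (u.1 : ℝ) / u.2 ∧ (u.1 : ℝ) / u.2 ≤ F.p.τ0 + 1 := by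
    intro u hu
    obtain ⟨u1, u2, u3, u4, -⟩ := (mem_filter.mp hu).2
    rw [hc.η] at u2 u4
    rw [hc.τ0] at u3 u4
    have u6 : c.B * (1 + F.η) ≤ c.B * 2 := mul_le_mul_of_nonneg_left (by linarith) hB0.le
    exact ⟨u1, by linarith, u3, by linarith⟩
  obtain ⟨b1, b2, t1, t2⟩ := hbox t ht
  obtain ⟨b1', b2', t1', t2'⟩ := hbox t' ht'
  obtain ⟨ad, -, g1, -⟩ := hsz t ht
  obtain ⟨ad', -, g1', -⟩ := hsz t' ht'
  have hζ1 : ζ ≤ 1 := hζτ.trans (abs_le.mpr ⟨by linarith, by linarith⟩)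
  have hBk : 1 ≤ c.B ^ F.p.dd := one_le_pow₀ hB1
  -- the lifting lemma
  have hlift : ∀ δ ∈ 𝔟, ∀ δ' ∈ 𝔟', ∃ v : F.p.Co, (∀ s, Φ.al K (s + v) = Φ.al K s + δ) ∧
      (∀ s, Φ'.al K (s + v) = Φ'.al K s + δ') ∧ ∀ j, |(v j : ℝ)| ≤
        D * (‖emb k δ‖ + ‖emb k δ'‖) / (ζ * c.B ^ F.p.dd) + E * c.y ^ 13 := by
    intro δ hδ δ' hδ'
    obtain ⟨x, e, hx⟩ := dec K Φ CW CF c.B (dl t t') hB0 b1 (by linarith) g1
      (hQF R F.p k K t L Φ hK ad).2.2.2.2.2.2.1 (hW k K t L Φ hK ad).2 δ (h𝔟 hδ)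
    obtain ⟨x', e', hx'⟩ := dec K Φ' CW CF c.B (dl t t') hB0 b1' (by linarith) g1'
      (hQF R F.p k K t' L' Φ' hK ad').2.2.2.2.2.2.1 (hW k K t' L' Φ' hK ad').2 δ' (h𝔟' hδ')
    obtain ⟨v, v1, v2, v3⟩ := liftK K Φ Φ' T c.B ζ _ _ hB1 hT1 b1 b2 b1' b2'
      (abs_le.mpr ⟨by linarith, by linarith⟩) (abs_le.mpr ⟨by linarith, by linarith⟩)
      hco hco' hζ0 hζ1 hζτ δ δ' x x' e e' hx hx'
    refine ⟨v, v1, v2, fun j => (v3 j).trans ?_⟩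
    have e1 : (1 + T) * (CF * CW * ‖emb k δ‖ / c.B ^ F.p.dd + CF * CW * ‖emb k δ'‖ / c.B ^ F.p.dd +
        8 * F.p.dd * c.B ^ 2 * T ^ F.p.dd) / ζ =
        D * (‖emb k δ‖ + ‖emb k δ'‖) / (ζ * c.B ^ F.p.dd) + E * (c.B ^ 2 / ζ) := by
      rw [hE, hD]; field_simp
    rw [e1]
    refine add_le_add le_rfl (mul_le_mul_of_nonneg_left ?_ hE0)
    rw [div_le_iff₀ hζ0]
    have h3 : 0 < c.y ^ 12 := by positivity
    have h5 : c.y ^ 13 * ζ = c.y ^ 12 * (ζ * c.y) := by ring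
    rw [h5]
    exact hB2.trans (le_mul_of_one_le_right h3.le hζy)
  -- small elements
  obtain ⟨G, hG⟩ : ∃ G : ℝ, G = ζ * c.L * c.B ^ F.p.dd := ⟨_, rfl⟩
  have hG0 : 0 < G := by rw [hG]; positivity
  obtain ⟨ϱ, hϱ⟩ : ∃ ϱ : ℝ, ϱ = G / (4 * D) := ⟨_, rfl⟩
  have hϱ0 : 0 < ϱ := by rw [hϱ]; positivity
  have hr : 4 * F.p.e * (|(K.D : ℝ)| * c.y ^ F.p.cE) * n₁ ≤ ϱ := by
    have h6 := hKL H (2 * F.p.cE + 4) hH0 (by linarith) le_rfl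
    rw [hϱ, le_div_iff₀ (by positivity), hG]
    calc 4 * F.p.e * (|(K.D : ℝ)| * c.y ^ F.p.cE) * n₁ * (4 * D)
        ≤ 4 * F.p.e * (|(K.D : ℝ)| * c.y ^ F.p.cE) * c.y ^ (F.p.cE + 3) * (4 * D) := by gcongr
      _ = H * c.y ^ (2 * F.p.cE + 3) * 1 := by rw [hH]; ring
      _ ≤ H * c.y ^ (2 * F.p.cE + 3) * (ζ * c.y) := mul_le_mul_of_nonneg_left hζy (by positivity)
      _ = ζ * (H * c.y ^ (2 * F.p.cE + 4)) := by ring
      _ ≤ ζ * c.L := mul_le_mul_of_nonneg_left h6 hζ0.le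
      _ ≤ _ := le_mul_of_one_le_right (by positivity) hBk
  obtain ⟨cv, T₁, hT₁, cT₁⟩ := small K (hsm k K t L Φ hK ht).1 𝔟 n₁ ϱ hn hnb (by rwa [Φ.fin])
  obtain ⟨cv', T₂, hT₂, cT₂⟩ := small K (hsm k K t' L' Φ' hK ht').1 𝔟' n₁ ϱ hn hnb'
    (by rwa [Φ'.fin])
  rw [Φ.fin] at cT₁
  rw [Φ'.fin] at cT₂
  have hv : ∀ z : 𝓞 L × 𝓞 L', ∃ v : F.p.Co, z ∈ T₁ ×ˢ T₂ →
      (∀ s, Φ.al K (s + v) = Φ.al K s + z.1) ∧
      (∀ s, Φ'.al K (s + v) = Φ'.al K s + z.2) ∧ ∀ j, |(v j : ℝ)| ≤ c.L := by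
    intro z
    by_cases hz : z ∈ T₁ ×ˢ T₂
    · obtain ⟨z1, z2⟩ := mem_product.mp hz
      obtain ⟨v, v1, v2, v3⟩ := hlift z.1 (hT₁ _ z1).1 z.2 (hT₂ _ z2).1
      refine ⟨v, fun _ => ⟨v1, v2, fun j => (v3 j).trans ?_⟩⟩
      have h1 := hKL (2 * E) 13 (by positivity) (by linarith) (by omega)
      have h2 : D * (‖emb k z.1‖ + ‖emb k z.2‖) / (ζ * c.B ^ F.p.dd) ≤ c.L / 2 := by
        rw [div_le_iff₀ (by positivity)]
        have h3 : D * (‖emb k z.1‖ + ‖emb k z.2‖) ≤ D * (2 * ϱ) :=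
          mul_le_mul_of_nonneg_left (by linarith [(hT₁ _ z1).2, (hT₂ _ z2).2]) hD0.le
        refine h3.trans (le_of_eq ?_)
        rw [hϱ, hG]
        field_simp
        ring
      linarith
    · exact ⟨0, fun h => absurd h hz⟩
  choose vv hvv using hv
  obtain ⟨P, hP⟩ : ∃ P : ℝ, P = ∑ s ∈ Sset F.p c.S0 c.L with Φ.al K s - Φ.al K s₀ ∈ 𝔟 ∧
      Φ'.al K s - Φ'.al K s₀ ∈ 𝔟', wS F.p c.S0 c.L s := ⟨_, rfl⟩
  have hP0 : 0 ≤ P := by rw [hP]; exact Finset.sum_nonneg fun s _ => wS_nonneg _ _ _ _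
  have h4P := hS c.S0 c.L n₁ (fun s => Φ.al K s - Φ.al K s₀ ∈ 𝔟 ∧
      Φ'.al K s - Φ'.al K s₀ ∈ 𝔟') hn
    ((mul_le_mul_of_nonneg_left hny (by linarith)).trans
      (hKL (2 * CS) (F.p.cE + 3) (by linarith) (by linarith) (by omega)))
    (fun s s' h hs => by
      have h1 := 𝔟.add_mem (al_congr K Φ n₁ 𝔟 hnb s s' h) hs.1
      have h2 := 𝔟'.add_mem (al_congr K Φ' n₁ 𝔟' hnb' s s' h) hs.2
      rw [sub_add_sub_cancel] at h1 h2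
      exact ⟨h1, h2⟩)
  rw [← hP] at h4P
  rw [← hP, ← hG] at hΩ
  obtain ⟨Z, hZ⟩ : ∃ Z : ℝ, Z = P * (Ideal.absNorm 𝔟 * cov2 k L) *
      (Ideal.absNorm 𝔟' * cov2 k L') / G ^ (4 * F.p.e) := ⟨_, rfl⟩
  have hZ0 : 0 ≤ Z := by rw [hZ]; positivity
  have hΩZ : Ω = C * Z := by rw [hΩ, hZ]; ring
  have hCΩ : C₁ * Z ≤ Ω := by
    rw [hΩZ]
    exact mul_le_mul_of_nonneg_right (by linarith) hZ0
  have hΩ0 : 0 ≤ Ω := le_trans (by positivity) hCΩ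
  -- the number of points of a fibre
  have hcard : ∀ α α', α - Φ.al K s₀ ∈ 𝔟 → α' - Φ'.al K s₀ ∈ 𝔟' →
      (((Sset F.p c.S0 c.L).filter fun s => Φ.al K s = α ∧ Φ'.al K s = α').card : ℝ) ≤
        C₁ * Z * (c.L : ℝ) ^ m := by
    intro α α' hα hα'
    have h1 := pack F.p c.S0 c.L hL1 (T₁ ×ˢ T₂) (fun s => Φ.al K s = α ∧ Φ'.al K s = α')
      (fun s => Φ.al K s - Φ.al K s₀ ∈ 𝔟 ∧ Φ'.al K s - Φ'.al K s₀ ∈ 𝔟') vv
      (fun i hi => (hvv i hi).2.2)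
      (fun s hs i hi => by
        obtain ⟨z1, z2⟩ := mem_product.mp hi
        rw [(hvv i hi).1, (hvv i hi).2.1, hs.1, hs.2, add_sub_right_comm, add_sub_right_comm α']
        exact ⟨𝔟.add_mem hα (hT₁ _ z1).1, 𝔟'.add_mem hα' (hT₂ _ z2).1⟩)
      (fun s s' hs hs' i hi i' hi' h => by
        have e1 := (hvv i hi).1 s
        have e2 := (hvv i hi).2.1 s
        rw [h, (hvv i' hi').1, hs.1, hs'.1] at e1
        rw [h, (hvv i' hi').2.1, hs.2, hs'.2] at e2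
        exact Prod.ext (add_left_cancel e1).symm (add_left_cancel e2).symm)
    rw [← hm, Finset.card_product] at h1
    push_cast at h1
    set Nn : ℝ := (((Sset F.p c.S0 c.L).filter
      fun s => Φ.al K s = α ∧ Φ'.al K s = α').card : ℝ)
    have hN0 : 0 ≤ Nn := Nat.cast_nonneg _
    have h2 : (ϱ / 2) ^ (2 * F.p.e) / (Ideal.absNorm 𝔟 * cov2 k L) *
        ((ϱ / 2) ^ (2 * F.p.e) / (Ideal.absNorm 𝔟' * cov2 k L')) ≤ (T₁.card : ℝ) * T₂.card :=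
      mul_le_mul cT₁ cT₂ (by positivity) (Nat.cast_nonneg _)
    have h3 := (mul_le_mul_of_nonneg_left h2 hN0).trans
      (h1.trans (mul_le_mul_of_nonneg_left h4P (by positivity)))
    rw [← le_div_iff₀ (by positivity)] at h3
    refine h3.trans (le_of_eq ?_)
    have e1 : ϱ / 2 = G / (8 * D) := by rw [hϱ]; field_simp; ring
    rw [hC₁, hZ, e1, div_mul_div_comm, ← pow_add, show 2 * F.p.e + 2 * F.p.e = 4 * F.p.e by ring,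
      div_pow, mul_pow (8 : ℝ) (c.L : ℝ)]
    generalize (Ideal.absNorm 𝔟 : ℝ) * cov2 k L = u at cv
    generalize (Ideal.absNorm 𝔟' : ℝ) * cov2 k L' = u' at cv'
    field_simp
  intro α₁ α₂ α₁' α₂' h1 h2 h1' h2'
  constructor
  · refine (Finset.sum_le_card_nsmul _ _ _ fun s _ => wS_le F.p c.S0 c.L s).trans ?_
    rw [nsmul_eq_mul, ← hm, mul_one_div, div_le_iff₀ (by positivity)]
    exact (hcard α₁ α₁' h1 h1').trans (mul_le_mul_of_nonneg_right hCΩ (by positivity))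
  · have m1 : α₂ - α₁ ∈ 𝔟 := by
      have := 𝔟.sub_mem h2 h1
      rwa [sub_sub_sub_cancel_right] at this
    have m2 : α₂' - α₁' ∈ 𝔟' := by
      have := 𝔟'.sub_mem h2' h1'
      rwa [sub_sub_sub_cancel_right] at this
    obtain ⟨v, v1, v2, v3⟩ := hlift _ m1 _ m2
    have n1 : ‖emb k (α₂ - α₁ : 𝓞 L)‖ = ‖emb k α₁ - emb k α₂‖ := by
      rw [norm_sub_rev]
      congr 1
      funext φ
      simp [emb]
    have n2 : ‖emb k (α₂' - α₁' : 𝓞 L')‖ = ‖emb k α₁' - emb k α₂'‖ := by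
      rw [norm_sub_rev]
      congr 1
      funext φ
      simp [emb]
    rw [n1, n2] at v3
    have h3 := lip F.p c.S0 c.L hL1 (fun s => Φ.al K s = α₁ ∧ Φ'.al K s = α₁')
      (fun s => Φ.al K s = α₂ ∧ Φ'.al K s = α₂') v _ (C₁ * Z * (c.L : ℝ) ^ m) (by positivity)
      (fun s => by
        rw [v1, v2]
        constructor
        · rintro ⟨e1, e2⟩
          rw [e1, e2]
          exact ⟨add_sub_cancel _ _, add_sub_cancel _ _⟩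
        · rintro ⟨e1, e2⟩
          exact ⟨by linear_combination e1, by linear_combination e2⟩)
      v3 (hcard α₁ α₁' h1 h1') (hcard α₂ α₂' h2 h2')
    refine h3.trans ?_
    rw [← hm, ← hG]
    set X : ℝ := ‖emb k α₁ - emb k α₂‖ + ‖emb k α₁' - emb k α₂'‖
    have hX : 0 ≤ X := by positivity
    have e1 : 2 * (C₁ * Z * (c.L : ℝ) ^ m) * (m * ((D * X / (ζ * c.B ^ F.p.dd) + E * c.y ^ 13) /
        c.L) / (c.L : ℝ) ^ m) =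
        C₁ * Z * (2 * m * D * X / G) + C₁ * (2 * m * E) * Z * (c.y ^ 13 / c.L) := by
      rw [hG]
      field_simp
    rw [e1, mul_add Ω]
    refine add_le_add (mul_le_mul hCΩ ?_ (by positivity) hΩ0) ?_
    · exact div_le_div_of_nonneg_right (mul_le_mul_of_nonneg_right (by linarith) hX) hG0.le
    · have h4 : c.y ^ 13 / c.L ≤ c.y ^ 13 / (F.η * c.S0 / 2) :=
        div_le_div_of_nonneg_left (by positivity) (by positivity) hLS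
      calc C₁ * (2 * m * E) * Z * (c.y ^ 13 / c.L)
          ≤ C₁ * (2 * m * E) * Z * (c.y ^ 13 / (F.η * c.S0 / 2)) :=
            mul_le_mul_of_nonneg_left h4 (by positivity)
        _ = C₁ * (4 * m * E / F.η) * Z * (c.y ^ 13 / c.S0) := by field_simp; ring
        _ ≤ Ω * (c.y ^ 13 / c.S0) := by
            rw [hΩZ]
            exact mul_le_mul_of_nonneg_right (mul_le_mul_of_nonneg_right (by linarith) hZ0)
              (by positivity)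

end Pool.Agent.P.MP_b8021b_nt.VC
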