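import Pool.Agent.P.MP_b8021b_nt.VC.StA

/-! A power of a family of units outside `r` lies in the order with `r` inverted. -/

namespace Pool.Agent.P.MP_b8021b_nt.VC

open Polynomial Pool.Agent.P.MP_b8021b_nt.VE

namespace Ord

theorem int_mono {S : Type*} [CommRing S] {r u : S} (hr : IsIntegral ℤ r) {n N : ℕ} (h : n ≤ N)
    (hu : IsIntegral ℤ (r ^ n * u)) : IsIntegral ℤ (r ^ N * u) := by
  rw [← pow_sub_mul_pow r h, mul_assoc]
  exact (hr.pow _).mul hu

variable {B : Type} [CommRing B] [Algebra ℚ B] [FiniteDimensional ℚ B]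

theorem exists_hom (𝔪 : MaximalSpectrum B) : ∃ σ : B →+* Qb, RingHom.ker σ = 𝔪.asIdeal := by
  have := 𝔪.isMaximal
  let _ := Ideal.Quotient.field 𝔪.asIdeal
  let f : (B ⧸ 𝔪.asIdeal) →ₐ[ℚ] Qb := IsAlgClosed.lift
  exact ⟨f.toRingHom.comp (Ideal.Quotient.mk _), by
    rw [← RingHom.comap_ker, (RingHom.injective_iff_ker_eq_bot _).1 f.toRingHom.injective]
    exact Ideal.mk_ker⟩

theorem integral {r : ℕ} {x : B}
    (h : ∀ σ : B →+* Qb, ∃ n : ℕ, IsIntegral ℤ ((r : Qb) ^ n * σ x)) :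
    ∃ N₀ : ℕ, ∀ N, N₀ ≤ N → IsIntegral ℤ ((r : B) ^ N * x) := by
  have : IsArtinianRing B := IsArtinianRing.of_finite ℚ B
  have := Fintype.ofFinite (MaximalSpectrum B)
  choose σ hσ using exists_hom (B := B)
  choose n hn using h
  refine ⟨∑ 𝔪, n (σ 𝔪), fun N hN => int_mono (isIntegral_natCast r) hN ?_⟩
  choose f hf hf' using fun 𝔪 => int_mono (isIntegral_natCast r)
    (Finset.single_le_sum (f := fun 𝔪 => n (σ 𝔪)) (fun _ _ => Nat.zero_le _) (Finset.mem_univ 𝔪))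
    (hn (σ 𝔪))
  set z := (r : B) ^ (∑ 𝔪, n (σ 𝔪)) * x with hz
  have h1 : aeval z (∏ 𝔪, f 𝔪) ∈ Ideal.jacobson (⊥ : Ideal B) := by
    refine Ideal.mem_sInf.2 fun {J} hJ => ?_
    rw [map_prod]
    refine Ideal.mem_of_dvd _ (Finset.dvd_prod_of_mem _ (Finset.mem_univ ⟨J, hJ.2⟩)) ?_
    change _ ∈ (⟨J, hJ.2⟩ : MaximalSpectrum B).asIdeal
    rw [← hσ, RingHom.mem_ker, ← RingHom.toIntAlgHom_apply, ← aeval_algHom_apply,
      RingHom.toIntAlgHom_apply, hz, map_mul, map_pow, map_natCast]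
    exact hf' _
  obtain ⟨k, hk⟩ := IsArtinianRing.isNilpotent_jacobson_bot (R := B)
  refine ⟨(∏ 𝔪, f 𝔪) ^ k, (monic_prod_of_monic _ _ fun 𝔪 _ => hf 𝔪).pow k, ?_⟩
  have h2 := Ideal.pow_mem_pow h1 k
  rw [hk, ← map_pow] at h2
  exact h2

end Ord

theorem p_ord : S_Ord := by
  intro B _ _ _ O r x hr _ hO hx
  have hu : IsUnit x := by
    by_contra h
    obtain ⟨𝔪, h1, h2⟩ := exists_max_ideal_of_mem_nonunits h
    obtain ⟨σ, hσ⟩ := Ord.exists_hom ⟨𝔪, h1⟩
    exact (hx σ).1 (by rw [← RingHom.mem_ker, hσ]; exact h2)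
  obtain ⟨x', hx'⟩ := hu.exists_right_inv
  obtain ⟨N₁, h₁⟩ := Ord.integral (r := r) (x := x) fun σ => (hx σ).2.imp fun _ h => h.1
  obtain ⟨N₂, h₂⟩ := Ord.integral (r := r) (x := x') fun σ => (hx σ).2.imp fun _ h => by
    rw [eq_inv_of_mul_eq_one_right (show σ x * σ x' = 1 by rw [← map_mul, hx', map_one])]
    exact h.2
  set n := N₁ + N₂
  set S := Algebra.adjoin ℤ ({(r : B) ^ n * x, (r : B) ^ n * x'} : Set B) with hS
  have hfg : S.toSubmodule.FG := fg_adjoin_of_finite (Set.toFinite _) (by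
    rintro _ (rfl | rfl)
    · exact h₁ n (Nat.le_add_right _ _)
    · exact h₂ n (Nat.le_add_left _ _))
  obtain ⟨N, hN, hNS⟩ : ∃ N : ℕ, 0 < N ∧ ∀ s ∈ S, (N : B) * s ∈ O := by
    obtain ⟨T, hT⟩ := hfg
    choose m hm hm' using hO
    refine ⟨∏ t ∈ T, m t, Finset.prod_pos fun t _ => hm t, fun s hs => ?_⟩
    have hs' : s ∈ Submodule.span ℤ (T : Set B) := hT ▸ hs
    refine Submodule.span_induction (fun t ht => ?_) (by simp) (fun a b _ _ ha hb => ?_)
      (fun c a _ ha => ?_) hs'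
    · obtain ⟨c, hc⟩ := Finset.dvd_prod_of_mem m ht
      rw [hc, Nat.cast_mul, mul_right_comm]
      exact mul_mem (hm' t) (natCast_mem O c)
    · rw [mul_add]; exact add_mem ha hb
    · rw [mul_smul_comm]; exact zsmul_mem ha c
  obtain ⟨k, N', hk, rfl⟩ := Nat.exists_eq_pow_mul_and_not_dvd hN.ne' r hr.ne_one
  have hN' : N' ≠ 0 := by rintro rfl; simp at hk
  have : Module.Finite ℤ S := Module.Finite.iff_fg.2 hfg
  let I : Ideal S := Ideal.span {(N' : S)}
  have : Finite (S ⧸ I) := Module.finite_of_fg_torsion _ fun a =>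
    ⟨⟨N', mem_nonZeroDivisors_of_ne_zero (by exact_mod_cast hN')⟩, by
      change (N' : ℤ) • a = 0
      rw [zsmul_eq_mul, Int.cast_natCast, ← map_natCast (Ideal.Quotient.mk I),
        Ideal.Quotient.eq_zero_iff_mem.2 (Ideal.mem_span_singleton_self _), zero_mul]⟩
  let u : S := ⟨(r : B) ^ n * x, Algebra.subset_adjoin (by simp)⟩
  let u' : S := ⟨(r : B) ^ n * x', Algebra.subset_adjoin (by simp)⟩
  have huu : u * u' = (r : S) ^ (2 * n) := Subtype.ext (by
    change (r : B) ^ n * x * ((r : B) ^ n * x') = _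
    push_cast
    linear_combination (r : B) ^ (2 * n) * hx')
  have hru : IsUnit (r : S ⧸ I) := by
    obtain ⟨a, b, hab⟩ := Nat.isCoprime_iff_coprime.2 ((Nat.Prime.coprime_iff_not_dvd hr).2 hk)
    have h0 : (N' : S ⧸ I) = 0 := by
      rw [← map_natCast (Ideal.Quotient.mk I)]
      exact Ideal.Quotient.eq_zero_iff_mem.2 (Ideal.mem_span_singleton_self _)
    have := congrArg (Int.cast : ℤ → S ⧸ I) hab
    push_cast at this
    rw [h0, mul_zero, add_zero] at this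
    exact IsUnit.of_mul_eq_one_right _ this
  have hmul : IsUnit (Ideal.Quotient.mk I u * Ideal.Quotient.mk I u') := by
    rw [← map_mul, huu, map_pow, map_natCast]
    exact hru.pow _
  have key : ∀ v : S, IsUnit (Ideal.Quotient.mk I v) →
      (r : B) ^ k * (v : B) ^ Nat.card (S ⧸ I)ˣ ∈ O := fun v hv => by
    have h1 : Ideal.Quotient.mk I (v ^ Nat.card (S ⧸ I)ˣ) = Ideal.Quotient.mk I 1 := by
      rw [map_pow, ← hv.unit_spec, ← Units.val_pow_eq_pow_val, pow_card_eq_one', map_one,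
        Units.val_one]
    obtain ⟨c, hc⟩ := Ideal.mem_span_singleton.1 (Ideal.Quotient.eq.1 h1)
    have h2 := congrArg (fun s : S => (s : B)) hc
    push_cast at h2
    have h3 := add_mem (hNS c c.2) (pow_mem (natCast_mem O r) k)
    push_cast at h3
    rwa [mul_assoc, ← h2, mul_sub, mul_one, sub_add_cancel] at h3
  refine ⟨Nat.card (S ⧸ I)ˣ, k + n * Nat.card (S ⧸ I)ˣ, Nat.card_pos, _,
    key u (isUnit_of_mul_isUnit_left hmul), _, key u' (isUnit_of_mul_isUnit_right hmul), ?_, ?_⟩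
  · change _ = (r : B) ^ k * ((r : B) ^ n * x) ^ _
    ring
  · have h4 := congrArg (fun s : S => (s : B)) huu
    push_cast at h4
    rw [mul_mul_mul_comm, ← mul_pow (u : B), h4]
    ring

end Pool.Agent.P.MP_b8021b_nt.VC
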