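import Pool.Agent.P.MP_b8021b_nt.VC.StG
import Pool.Agent.P.MP_b8021b_nt.VE.StN

/-! Smooth sums of a character; upper bound for the density of the ideals coprime to `n`. -/

namespace Pool.Agent.P.MP_b8021b_nt.VC

open NumberField Finset Pool.Agent.P.MP_b8021b_nt.VE
open scoped Classical

namespace PS

theorem sum_div (X K : ℕ) :
    ∑ j ∈ Icc 1 X, ((j.divisors.card : ℝ)) ^ K / j ≤ (1 + Real.log X) ^ 2 ^ K := by
  induction K with
  | zero =>
    have h := harmonic_le_one_add_log X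
    rw [harmonic_eq_sum_Icc] at h
    push_cast at h
    simpa using h
  | succ K ih =>
    have h0 : 0 ≤ ∑ j ∈ Icc 1 X, ((j.divisors.card : ℝ)) ^ K / j :=
      sum_nonneg fun _ _ => by positivity
    rw [pow_succ 2 K, pow_mul, sq]
    refine le_trans ?_ (mul_self_le_mul_self h0 ih)
    rw [sum_mul_sum, ← sum_product']
    have h1 : ∀ j ∈ Icc 1 X, ((j.divisors.card : ℝ)) ^ (K + 1) / j ≤
        ∑ p ∈ (Icc 1 X ×ˢ Icc 1 X).filter (fun p => p.1 * p.2 = j),
          ((p.1.divisors.card : ℝ)) ^ K / p.1 * (((p.2.divisors.card : ℝ)) ^ K / p.2) := by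
      intro j hj
      rw [mem_Icc] at hj
      have hs : j.divisorsAntidiagonal ⊆
          (Icc 1 X ×ˢ Icc 1 X).filter (fun p => p.1 * p.2 = j) := fun p hp => by
        rw [Nat.mem_divisorsAntidiagonal] at hp
        have a : p.1 ≠ 0 := fun h => hp.2 (by rw [← hp.1, h, zero_mul])
        have b : p.2 ≠ 0 := fun h => hp.2 (by rw [← hp.1, h, mul_zero])
        have c := Nat.le_of_dvd hj.1 (Dvd.intro _ hp.1)
        have d := Nat.le_of_dvd hj.1 (Dvd.intro_left _ hp.1)
        simp only [mem_filter, mem_product, mem_Icc]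
        omega
      refine le_trans ?_ (sum_le_sum_of_subset_of_nonneg hs fun _ _ _ => by positivity)
      have hc : j.divisorsAntidiagonal.card = j.divisors.card := by
        rw [← Nat.map_div_right_divisors, card_map]
      calc ((j.divisors.card : ℝ)) ^ (K + 1) / j
          = ∑ _p ∈ j.divisorsAntidiagonal, ((j.divisors.card : ℝ)) ^ K / j := by
            rw [sum_const, hc, nsmul_eq_mul]; ring
        _ ≤ _ := sum_le_sum fun p hp => by
            rw [Nat.mem_divisorsAntidiagonal] at hp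
            rw [div_mul_div_comm, ← mul_pow, ← Nat.cast_mul, ← Nat.cast_mul, hp.1]
            have h2 : j.divisors.card ≤ p.1.divisors.card * p.2.divisors.card := by
              rw [← hp.1, Nat.divisors_mul]
              exact card_mul_le
            gcongr
    refine (sum_le_sum h1).trans ?_
    rw [sum_fiberwise_eq_sum_filter]
    exact sum_le_sum_of_subset_of_nonneg (filter_subset _ _) fun _ _ _ => by positivity

theorem norm_triv {E : Type} [Field E] (n : ℕ) (I : Ideal (𝓞 E)) : ‖triv E n I‖ ≤ 1 := by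
  change ‖(if Cop n I then (1 : ℂ) else 0)‖ ≤ 1
  split_ifs <;> simp

theorem count_le (hLam : VE.S_Lam) (E : Type) [Field E] [NumberField E] (n X : ℕ) :
    ‖∑ j ∈ Icc 1 X, lam (triv E n) j‖ ≤ X * (1 + Real.log X) ^ 2 ^ Module.finrank ℚ E := by
  refine (norm_sum_le _ _).trans (le_trans ?_ (mul_le_mul_of_nonneg_left (sum_div X _) X.cast_nonneg))
  rw [mul_sum]
  refine sum_le_sum fun j hj => ?_
  rw [mem_Icc] at hj
  refine ((hLam E).2.1 _ j hj.1 (norm_triv n)).trans ?_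
  have h1 : (0 : ℝ) < j := by exact_mod_cast hj.1
  have h2 : (j : ℝ) ≤ X := by exact_mod_cast hj.2
  rw [mul_div_assoc', le_div_iff₀ h1, mul_comm]
  gcongr

theorem dens_le {R T : ℝ} {C D K : ℕ} (hT : 1 ≤ T) (hD : 1 ≤ D)
    (h : ∀ X : ℕ, R * X ≤ X * (1 + Real.log X) ^ K + T ^ C * (X : ℝ) ^ (1 - 1 / (4 * D) : ℝ)) :
    R ≤ ((4 * D * (C + 1) + 1) ^ K + 1 : ℕ) * (1 + Real.log T) ^ K := by
  have h1 : 1 ≤ T ^ C := one_le_pow₀ hT
  set M := ⌈T ^ C⌉₊ with hM
  have h2 : T ^ C ≤ M := Nat.le_ceil _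
  have h3 : (M : ℝ) ≤ 2 * T ^ C := by
    have := Nat.ceil_lt_add_one (a := T ^ C) (by linarith)
    linarith
  have hM0 : (0 : ℝ) < M := by linarith
  have hD0 : (0 : ℝ) < D := by exact_mod_cast hD
  have hL : 0 ≤ Real.log T := Real.log_nonneg hT
  have h4 := h (M ^ (4 * D))
  have h5 : ((M ^ (4 * D) : ℕ) : ℝ) ^ (1 - 1 / (4 * D) : ℝ) * M = (M ^ (4 * D) : ℕ) := by
    push_cast
    rw [← Real.rpow_natCast, ← Real.rpow_mul hM0.le, ← Real.rpow_add_one hM0.ne']
    congr 1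
    push_cast
    field_simp
    ring
  have hX : (0 : ℝ) < (M ^ (4 * D) : ℕ) := by push_cast; positivity
  have h6 : T ^ C * ((M ^ (4 * D) : ℕ) : ℝ) ^ (1 - 1 / (4 * D) : ℝ) ≤ (M ^ (4 * D) : ℕ) := by
    rw [mul_comm]
    exact le_trans (mul_le_mul_of_nonneg_left h2 (by positivity)) h5.le
  have h7 : R ≤ (1 + Real.log (M ^ (4 * D) : ℕ)) ^ K + 1 := by
    refine le_of_mul_le_mul_right ?_ hX
    linarith
  have h8 : Real.log M ≤ (C + 1) * (1 + Real.log T) := by
    have a := Real.log_le_log hM0 h3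
    rw [Real.log_mul (by norm_num) (by positivity), Real.log_pow] at a
    have b := Real.log_two_lt_d9
    have c : (0 : ℝ) ≤ C := C.cast_nonneg
    nlinarith
  have h9 : 1 + Real.log (M ^ (4 * D) : ℕ) ≤ (4 * D * (C + 1) + 1) * (1 + Real.log T) := by
    push_cast
    rw [Real.log_pow]
    push_cast
    nlinarith
  have h10 : 0 ≤ 1 + Real.log (M ^ (4 * D) : ℕ) := by
    have := Real.log_natCast_nonneg (M ^ (4 * D))
    linarith
  have h11 := pow_le_pow_left₀ h10 h9 K
  have h12 : 1 ≤ (1 + Real.log T) ^ K := one_le_pow₀ (by linarith)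
  rw [mul_pow] at h11
  push_cast
  linarith

end PS

theorem p_pS (hEmb : S_Emb) (hUnit : S_Unit) (hVol : S_Vol) (hPS0 : S_PS0) (hPSs : S_PSs) (hLam : VE.S_Lam) : S_PS := by
  intro k _ _ _ K D
  obtain ⟨Ce, hE⟩ := hEmb k K D
  obtain ⟨C1, hU⟩ := hUnit k K D
  obtain ⟨Cv, hV⟩ := hVol k K D
  obtain ⟨C0, h0⟩ := hPS0 k K D
  obtain ⟨Cs, hs⟩ := hPSs k K D
  refine ⟨((4 * D * (Cs + 1) + 1) ^ 2 ^ (2 * D) + 1) + 2 ^ (2 * D) + (C1 + 1) * C0,
    fun E _ _ _ hD Q n hQ hS hn => ?_⟩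
  obtain ⟨-, hfin, hD1, -⟩ := hE E hD
  obtain ⟨⟨U⟩, -⟩ := hU E hD Q n hQ hS (by omega)
  obtain ⟨-, hR, hc, -⟩ := hs E hD Q n hQ hS hn
  have hn' : (2 : ℝ) ≤ n := by exact_mod_cast hn
  have hT : 1 ≤ Q * n := by nlinarith
  have hL : 1 ≤ 1 + Real.log (Q * n) := by linarith [Real.log_nonneg hT]
  refine ⟨?_, fun g Λ Y hg hY => ?_⟩
  · refine (PS.dens_le (C := Cs) (K := 2 ^ (2 * D)) hT hD1 fun X => ?_).trans ?_
    · have a := PS.count_le hLam E n X
      rw [hfin] at a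
      have b := norm_sub_norm_le ((Rs E n * X : ℝ) : ℂ) (∑ j ∈ Icc 1 X, lam (triv E n) j)
      rw [norm_sub_rev, Complex.norm_real, Real.norm_eq_abs] at b
      linarith [hc X, le_abs_self (Rs E n * X)]
    · refine mul_le_mul ?_ (pow_le_pow_right₀ hL ((Nat.le_add_left _ _).trans (Nat.le_add_right _ _)))
        (by positivity) (by positivity)
      exact Nat.cast_le.2 ((Nat.le_add_right _ _).trans (Nat.le_add_right _ _))
  have hv : U.vol ≠ 0 := (lt_of_lt_of_le (by positivity) (hV E hD n _ U).1).ne'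
  have hR' := hR _ U
  have hne : U.ρ * n ^ (2 * D) * cov2 k E ≠ 0 := fun h => hv (by
    rw [← hR']
    linear_combination Rs E n * h)
  have he : U.vol / (U.ρ * n ^ (2 * D) * cov2 k E) = Rs E n := by
    rw [div_eq_iff hne, ← hR']
    ring
  obtain ⟨h1, h2⟩ := h0 E hD Q n _ U g Λ Y hQ hS hn hg hY
  have hΛ : 0 ≤ Λ := zero_le_one.trans hg.one_le
  rw [he] at h1
  refine ⟨h1.trans ?_, fun d Kb κ τ χ hd hK hκ hτ hχ hχ' =>
    (h2 d Kb κ τ χ hd hK hκ hτ hχ hχ').trans ?_⟩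
  · refine mul_le_mul_of_nonneg_right (mul_le_mul_of_nonneg_right ?_ hΛ) (by positivity)
    rw [← pow_succ', ← pow_mul]
    exact pow_le_pow_right₀ hT (Nat.le_add_left _ _)
  · refine mul_le_mul_of_nonneg_right (mul_le_mul_of_nonneg_right ?_ hΛ) (by positivity)
    have hd' : (1 : ℝ) ≤ d := by exact_mod_cast hd
    have a : Q * n ≤ Q * n * d * Kb :=
      (le_mul_of_one_le_right (by linarith) hd').trans
        (le_mul_of_one_le_right (by positivity) hK)
    have b : Q * n * d * (Q * n) ^ C1 * Kb ≤ (Q * n * d * Kb) ^ (C1 + 1) := by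
      rw [pow_succ', mul_right_comm]
      exact mul_le_mul_of_nonneg_left (pow_le_pow_left₀ (by linarith) a _) (by linarith)
    refine (pow_le_pow_left₀ (by positivity) b _).trans ?_
    rw [← pow_mul]
    exact pow_le_pow_right₀ (hT.trans a) (Nat.le_add_left _ _)

end Pool.Agent.P.MP_b8021b_nt.VC
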