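import Pool.Agent.P.MP_b8021b_nt.VC.PPairEst2
import Pool.Agent.P.MP_b8021b_nt.VC.StA

/-! The pair correlation estimate. -/

namespace Pool.Agent.P.MP_b8021b_nt.VC

open Polynomial NumberField Finset Pool.Agent.P.MP_b8021b_nt.VE
open scoped Classical

lemma PairE.norm_le {ι : Type} [Fintype ι] {z : ι → ℂ} {D θ : ℝ} (hD : D ≠ 0) (hθ : 0 ≤ θ)
    (h : ∀ φ, ‖z φ / (D : ℂ) - 1‖ ≤ θ) : ‖z‖ ≤ (1 + θ) * |D| := by
  refine (pi_norm_le_iff_of_nonneg (by positivity)).mpr fun φ => ?_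
  have h1 : ‖z φ / (D : ℂ)‖ ≤ 1 + θ := by
    have := norm_le_insert' (z φ / (D : ℂ)) 1
    rw [norm_one] at this
    linarith [h φ]
  rwa [norm_div, Complex.norm_real, Real.norm_eq_abs, div_le_iff₀ (abs_pos.mpr hD)] at h1

open PairE in
theorem p_pairEst (hWt : S_Wt) (hFlat : S_Flat) (hQF : S_QF) (hQF2 : S_QF2) (hEmb : S_Emb) (hBall : S_Ball) (hRs : S_Rs) (hPSs : S_PSs) (hCos : S_Cos) (hOm : S_Om) (hSup : S_Sup) (hWW : S_WW) (hLam1 : S_Lam1) : S_PairEst := by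
  intro R _ _ p k _ _ _ K hK
  obtain ⟨a0, b0, ha0, hsd⟩ := sd_of hCos hBall k K p.e
  obtain ⟨b, hb⟩ : ∃ b, b = p.cE + 3 + p.cE * b0 := ⟨_, rfl⟩
  have hba : b ≤ b * a0 := Nat.le_mul_of_pos_right _ ha0
  have hcb : p.cE + 3 ≤ b := by omega
  refine ⟨b * a0, by omega, fun u => ?_⟩
  obtain ⟨CL, η₀, hCL, hη₀, hlam⟩ := hLam1 R p u
  obtain ⟨hg1, Cf, hCf, hflat⟩ := hFlat R p
  obtain ⟨as, hsup⟩ := hSup R p k K hK
  obtain ⟨Ce, hemb⟩ := hEmb k K p.e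
  obtain ⟨Cp, hpss⟩ := hPSs k K p.e
  refine ⟨6 * CL ^ 2 + 3, η₀, by nlinarith, hη₀, fun F hp hFu hη hσ => ?_⟩
  have e1 := hlam F hp hFu hη
  have e2 := hflat F hp
  obtain ⟨Cs, hCs, e4⟩ := hsup F hp
  subst hp hFu
  clear hlam hflat hsup
  obtain ⟨Cd, hCd, hsd⟩ := hsd F.u (by have := F.hu; omega)
  obtain ⟨Co, hCo, e3⟩ := hOm R F k K hK
  obtain ⟨Cw, -, e6⟩ := hWW R F
  have e5 := ev_ofN F (hWt R F.p ((4 * F.p.e + 2) * F.A + 1))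
  obtain ⟨C1, hC1⟩ : ∃ C1, C1 = CL + (1 + Cf) * |F.p.g1| := ⟨_, rfl⟩
  have hg0 : 0 ≤ (1 + Cf) * |F.p.g1| := by positivity
  have hC1L : CL ≤ C1 := by linarith
  have hC11 : 1 ≤ C1 := by linarith
  have e7 := ev_and (ev_y F 4) (ev_and (ev_y F CL) (ev_and (ev_y F Cd)
    (ev_and (ev_y F (9 * F.p.r ^ F.p.e0)) (ev_and (ev_lp F 1 ((4 * F.p.e + 2) * F.A + 1))
    (ev_and (ev_N F) (ev_and (ev_log F 1)
    (ev_and (ev_log F (8 * Co * (Cd * C1 ^ (2 * F.p.e + 1)) ^ 2 * (2 / F.η) ^ (4 * F.p.e) *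
      (2 + 2 * Co * C1 / F.η) / F.η))
    (ev_and (ev_lp F 1 F.A) (ev_and (ev_lp F (2 * Co * C1 / F.η) F.A)
    (ev_lp F (4 * Cw / F.η * Cs ^ 2) ((F.u + as) * 2)))))))))))
  refine ev_mono (ev_and e1 (ev_and e2 (ev_and e3 (ev_and e4 (ev_and e5 (ev_and e6 e7)))))) ?_
  clear e1 e2 e3 e4 e5 e6 e7
  rintro c hi ⟨hlam, ⟨-, hT, hnn, hF4⟩, hom, hsup, ⟨-, hlv, hth⟩, hww, y4, yCL, yCd, yr, yN, ⟨hN, hN'⟩,
    hl1, hlK, hlA, hlH, hlS⟩ x x' t t' L L' _ _ _ _ _ _ Φ Φ' hq hsep hE hE'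
  have y1 : 1 ≤ c.y := by linarith
  have hB : 1 ≤ c.B := (one_le_pow₀ y1).trans hi.B_ge
  rw [mul_comm (4 * F.p.e + 1), pow_mul, pow_mul] at hE hE'
  rw [one_mul] at yN hlA
  have hNy : (c.N : ℝ) ≤ c.y := hN'.trans yN
  clear yN hN'
  have hN6 := hi.N_ge
  rw [mul_comm (4 * F.p.e + 2), pow_mul] at hN6
  have hm : Real.log c.y ≤ Real.log c.y ^ F.A := le_self_pow₀ hl1 (by have := F.hA; omega)
  generalize Real.log c.y ^ F.A = m at hsep hE hE' hlA hlH hN6 hm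
  have hm1 : 1 ≤ m := hl1.trans hm
  rw [← hi.η] at hlK hlS hlH
  have hz : 8 * F.p.e ≤ c.z := hi.z ▸ F.hz
  have hη0 : 0 < c.η := hi.η ▸ F.ηpos
  have hη1 : c.η ≤ 1 := hi.η ▸ F.ηle
  have hSa : c.y ^ (b * a0 + 14) ≤ c.S0 := (pow_le_pow_right₀ y1 hσ).trans hi.S_ge
  have hS : 0 < (c.S0 : ℝ) := lt_of_lt_of_le (by positivity) hSa
  have hBk : 1 ≤ c.B ^ F.p.dd := one_le_pow₀ hB
  have hL : 0 < (c.L : ℝ) := lt_of_lt_of_le (by positivity) hi.L_ge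
  have hZ : c.y ^ (b * a0 + 14) ≤ c.S0 * c.B ^ F.p.dd := hSa.trans (le_mul_of_one_le_right hS.le hBk)
  have hd : dl t t' ≠ 0 := VE.PairEst.dl_ne (hT t hq.ht).1.1.ne' (hT t' hq.ht').1.1.ne'
    (abs_pos.mp (lt_of_lt_of_le (by positivity) hsep))
  have hd' : dl t' t ≠ 0 := fun h => hd (by unfold dl at h ⊢; linarith)
  obtain ⟨hnE, -, -, hnd, hn2⟩ := hnn x x' t t' hq
  replace hn2 := hn2 hd
  have hyE : c.y ≤ c.y ^ F.p.cE := le_self_pow₀ y1 (by unfold Par.cE; omega)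
  have hEb : c.y ^ F.p.cE ≤ c.y ^ b := pow_le_pow_right₀ y1 (by omega)
  have hR := (hpss L Φ.fin _ _ (by linarith) (hF4 k K t L Φ hK hq.ht).1 hn2).1
  have hR' := (hpss L' Φ'.fin _ _ (by linarith) (hF4 k K t' L' Φ' hK hq.ht').1 hn2).1
  obtain ⟨hc1, hc2, hc3⟩ := cc_mul_le hRs K F.p Φ.fin Φ'.fin hz (by omega) hnd hR hR'
  have hNa : ((F.p.r ^ F.p.e0 * x.1 * x'.1 : ℕ) : ℝ) ≤ c.y ^ 3 := by
    have a1 := (hth _ (mem_Xset.mp hq.hx).1).2.2.1.le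
    have a2 := (hth _ (mem_Xset.mp hq.hx').1).2.2.1.le
    push_cast
    calc _ ≤ (F.p.r : ℝ) ^ F.p.e0 * (3 * c.y) * (3 * c.y) := by gcongr
      _ = 9 * F.p.r ^ F.p.e0 * c.y ^ 2 := by ring
      _ ≤ c.y * c.y ^ 2 := by gcongr
      _ = _ := by ring
  have hNa0 : 0 < F.p.r ^ F.p.e0 * x.1 * x'.1 :=
    Nat.mul_pos (Nat.mul_pos (Nat.pow_pos F.p.hr.pos) (mem_Xset.mp hq.hx).2.1.pos)
      (mem_Xset.mp hq.hx').2.1.pos
  obtain ⟨X, hX0, hX⟩ : ∃ X : ℝ, 0 < X ∧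
      X ^ (2 * F.p.e) = (F.p.r ^ F.p.e0 * x.1 * x'.1 : ℕ) * c.y ^ F.u :=
    ⟨_, Real.rpow_pos_of_pos (by positivity) _,
      Real.rpow_inv_natCast_pow (by positivity) (by have := F.p.h3; omega)⟩
  generalize hn : nn F.p x x' t t' = n at *
  have hn1 : ((n * (F.p.r ^ F.p.e0 * x.1 * x'.1) : ℕ) : ℝ) ≤ c.y ^ (F.p.cE + 3) := by
    rw [Nat.cast_mul, pow_add]
    gcongr
  obtain ⟨hnum1, hnum2⟩ := num (C := Cd * C1 ^ (2 * F.p.e + 1)) (X := X) F.p.e hCo hC11 hη0 hm1 hS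
    (by positivity : 0 < c.B ^ F.p.dd) hi.L_ge hN6 (hlK.trans hm)
  have hM1 : 1 ≤ Cs * Real.log c.y ^ (F.u + as) :=
    one_le_mul_of_one_le_of_one_le hCs (one_le_pow₀ hl1)
  have hMs : 4 * Cw / c.η * (Cs * Real.log c.y ^ (F.u + as)) ^ 2 ≤ c.y := by
    rw [mul_pow, ← pow_mul, ← mul_assoc]; exact hlS
  generalize Cs * Real.log c.y ^ (F.u + as) = M at hsup hM1 hMs
  have side : ∀ (t t' : ℤ × ℤ) (L : Type) [Field L] [NumberField L] [Algebra k L]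
      (Φ : Fb F.p t k L), IsQ F.p c x x' t t' → dl t t' ≠ 0 → nn F.p x x' t t' = n →
      EqD k L (wt F.p c.y c.N) c.y c.N F.u n ((c.y ^ b) ^ a0) (m ^ (4 * F.p.e + 1))⁻¹ →
      1 ≤ cc L (M0 F.p.r c.z * F.p.r) n → 0 < Rs L n →
      ∃ (𝔞 : Ideal (𝓞 L)) (bb : F.p.Co → ℝ), Ideal.absNorm 𝔞 = F.p.r ^ F.p.e0 * x.1 * x'.1 ∧
        VE.PairEst.Sd (Sset F.p c.S0 c.L) (fun s => F.p.OnS x s ∧ F.p.OnS x' s) (Φ.al K)
          (Ideal.span {(n : 𝓞 L)} * 𝔞)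
          (VE.PairEst.Rs n 𝔞 (kap' L F.p c F.u x x') (Ct k (Wan (wt F.p c.y c.N) c.y c.N F.u 𝔞)))
          (VE.PairEst.Rs n 𝔞 (kap' L F.p c F.u x x') (Ct k (Lam c.y c.N F.u n 𝔞)))
          (Lip k (Ideal.span {(n : 𝓞 L)} * 𝔞) (Co / (m⁻¹ * c.L * c.B ^ F.p.dd)) ((c.y ^ b) ^ a0)⁻¹)
          (Ideal.absNorm (Ideal.span {(n : 𝓞 L)} * 𝔞) * cov2 k L)
          (Cd * C1 ^ (2 * F.p.e + 1) * cc L (M0 F.p.r c.z * F.p.r) n *
            (c.S0 * c.B ^ F.p.dd) ^ (2 * F.p.e))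
          ((2 + 2 * Co * C1 / c.η) / m ^ (4 * F.p.e + 1)) ∧
        (∀ s ∈ Sset F.p c.S0 c.L, Cmp k (Φ.al K s)) ∧
        (∀ s ∈ Sset F.p c.S0 c.L, (0 ≤ kap' L F.p c F.u x x' * Wg F.p c F.u t s x x' ∧
            kap' L F.p c F.u x x' * Wg F.p c F.u t s x x' ≤ M) ∧
          (0 ≤ VE.PairEst.Rs n 𝔞 (kap' L F.p c F.u x x')
              (Ct k (Wan (wt F.p c.y c.N) c.y c.N F.u 𝔞)) (Φ.al K s) ∧
            VE.PairEst.Rs n 𝔞 (kap' L F.p c F.u x x')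
              (Ct k (Wan (wt F.p c.y c.N) c.y c.N F.u 𝔞)) (Φ.al K s) ≤ M) ∧ 0 ≤ bb s ∧
          (kap' L F.p c F.u x x' * Wg F.p c F.u t s x x' ≠
            VE.PairEst.Rs n 𝔞 (kap' L F.p c F.u x x')
              (Ct k (Wan (wt F.p c.y c.N) c.y c.N F.u 𝔞)) (Φ.al K s) → 1 ≤ bb s)) ∧
        Es F.p c x x' bb ≤ Cw / c.y ∧ |Es F.p c x x' (fun _ => 1) - 1| ≤ c.y⁻¹ ∧
        Es F.p c x x' (fun s => if UnitC n 𝔞 (Φ.al K s) then 0 else 1) ≤ Pi F.p c.z n - 1 ∧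
        ∀ s ∈ Sset F.p c.S0 c.L, |kap' L F.p c F.u x x' * Ct k (Lam c.y c.N F.u n 𝔞) (Φ.al K s) -
          cc L (M0 F.p.r c.z * F.p.r) n| ≤ CL * c.η * cc L (M0 F.p.r c.z * F.p.r) n := by
    intro t t' L _ _ _ Φ hq hd hn hE hc hR
    have hadm := (hT t hq.ht).1
    obtain ⟨-, ⟨𝔮, h𝔮⟩, -⟩ := hQF R F.p k K t L Φ hK hadm
    obtain ⟨-, hCM, hfin, -⟩ := hQF2 R F.p k K t L Φ hK hadm
    obtain ⟨hsm, -, hflat⟩ := hF4 k K t L Φ hK hq.ht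
    obtain ⟨w1, w2, w3, w4, w5⟩ := hww k K x x' t t' L Φ 𝔮 hK hq hd h𝔮
    rw [hn] at w4 w5
    generalize Φ.a0 K 𝔮 x x' = 𝔞 at w1 w2 w4 w5
    have h0 : 𝔞 ≠ ⊥ := fun h => by
      rw [h, Ideal.absNorm_bot] at w1
      omega
    obtain ⟨l1, l2, l3, l4⟩ := hlam k K x x' t L Φ 𝔞 n X hK hq.hx hq.hx' hq.ht (by omega) w1 hX0
      (by rw [w1, hX])
    obtain ⟨s1, s2, s3⟩ := hsup x x' t L Φ hq.hx hq.hx' hq.ht
    have l3' : X ≤ C1 * (c.S0 * c.B ^ F.p.dd) := l3.trans (by gcongr)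
    refine ⟨𝔞, _, w1, ?_, fun s hs => (l1 s hs).2,
      fun s hs => ⟨⟨mul_nonneg s1 (s2 s).1, (s2 s).2⟩, ?_, ?_, ?_⟩, w5, w3, w4, fun s hs => ?_⟩
    · refine hsd _ _ _ L _ n c.N 𝔞 c.y _ (c.y ^ F.p.cE) X _ _ _ _ _ C1 _ _ Φ.fin hfin hCM
        (by linarith) (by linarith) hEb hsm hn2 (by linarith) hN (by linarith) (by linarith) h0 ?_ ?_
        (by rw [w1, hX]) (fun q hq => (hth q hq).2.2.2.2.2.1) hlv
        (inv_le_one_of_one_le₀ (one_le_pow₀ hm1)) hE (by positivity)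
        ((hnum1 l3').1.trans (by linarith)) s1 hC11 hc
        (lt_of_lt_of_le (by positivity) (hemb L Φ.fin).2.2.2.2.2.2.2.1) hR
        (l2.trans (by gcongr)) l3' ?_ (fun s hs => ?_) w2 (hnum1 l3').2 (by positivity)
      · rw [w1]
        exact hNa.trans (pow_le_pow_right₀ y1 (by omega))
      · rw [← pow_mul]
        refine le_of_mul_le_mul_left ?_ (by linarith : 0 < c.y)
        calc _ = c.y ^ (b * a0 + 1) := by ring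
          _ ≤ c.y ^ (b * a0 + 14) := pow_le_pow_right₀ y1 (by omega)
          _ ≤ CL * X := hZ.trans l4
          _ ≤ _ := by gcongr
      · rw [w1]
        calc _ ≤ c.y ^ (F.p.cE + 3) * (c.y ^ F.p.cE) ^ b0 := by gcongr
          _ = c.y ^ b := by rw [hb]; ring
          _ ≤ c.y ^ (b * a0 + 14) := pow_le_pow_right₀ y1 (by omega)
          _ ≤ _ := hZ.trans (le_mul_of_one_le_left (by positivity) hC11)
      · refine (norm_le (by positivity) (by positivity) (hflat s hs)).trans ?_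
        rw [abs_mul, abs_mul, abs_of_pos hS, abs_of_pos (by positivity : 0 < c.B ^ F.p.dd)]
        calc _ ≤ (1 + Cf * 1) * (c.B ^ F.p.dd * (c.S0 * |F.p.g1|)) := by gcongr
          _ = (1 + Cf) * |F.p.g1| * (c.S0 * c.B ^ F.p.dd) := by ring
          _ ≤ _ := by gcongr; linarith
    · unfold VE.PairEst.Rs
      split_ifs with hU
      · have h1 := s3 𝔞 _ (ne_zero_of_unitC hn2 h0 hU)
        rw [Ct, if_pos (l1 s hs).2]
        exact ⟨mul_nonneg s1 h1.1, h1.2⟩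
      · exact ⟨le_rfl, zero_le_one.trans hM1⟩
    · split_ifs <;> norm_num
    · intro h
      refine (if_neg fun h' => h ?_).ge
      rw [h', VE.PairEst.Rs, Ct, if_pos (l1 s hs).2]
      split_ifs
      exacts [rfl, mul_zero _]
    · rw [Ct, if_pos (l1 s hs).2]
      exact (l1 s hs).1
  have omg : ∀ (t t' : ℤ × ℤ) (L L' : Type) [Field L] [NumberField L] [Algebra k L] [Field L']
      [NumberField L'] [Algebra k L'] (Φ : Fb F.p t k L) (Φ' : Fb F.p t' k L') (𝔞 : Ideal (𝓞 L))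
      (𝔞' : Ideal (𝓞 L')), IsQ F.p c x x' t t' → nn F.p x x' t t' = n →
      m⁻¹ ≤ |(t.1 : ℝ) / t.2 - (t'.1 : ℝ) / t'.2| →
      Ideal.absNorm 𝔞 = F.p.r ^ F.p.e0 * x.1 * x'.1 →
      Ideal.absNorm 𝔞' = F.p.r ^ F.p.e0 * x.1 * x'.1 →
      (∀ s ∈ Sset F.p c.S0 c.L, Cmp k (Φ.al K s)) →
      ∀ s₀ α', α' - Φ'.al K s₀ ∈ Ideal.span {(n : 𝓞 L')} * 𝔞' →
        Lip k (Ideal.span {(n : 𝓞 L)} * 𝔞) (Co / (m⁻¹ * c.L * c.B ^ F.p.dd)) ((c.y ^ b) ^ a0)⁻¹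
          (Φ.al K s₀) (fun α => om K Φ Φ' c α α')
          (Co / (m⁻¹ * c.L * c.B ^ F.p.dd) ^ (4 * F.p.e) *
            (Ideal.absNorm (Ideal.span {(n : 𝓞 L)} * 𝔞) * cov2 k L) *
            (Ideal.absNorm (Ideal.span {(n : 𝓞 L')} * 𝔞') * cov2 k L') *
            ∑ s ∈ Sset F.p c.S0 c.L with
              Φ.al K s - Φ.al K s₀ ∈ Ideal.span {(n : 𝓞 L)} * 𝔞 ∧
              Φ'.al K s - Φ'.al K s₀ ∈ Ideal.span {(n : 𝓞 L')} * 𝔞',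
              wS F.p c.S0 c.L s) := by
    intro t t' L L' _ _ _ _ _ _ Φ Φ' 𝔞 𝔞' hq hn hsep w w' hcmp s₀ α' hα'
    have a1 := le_span F.p x x' t t' 𝔞
    have a2 := le_span' F.p x x' t t' 𝔞'
    rw [hn] at a1 a2
    have a3 := hom t t' L L' Φ Φ' _ _ (n * (F.p.r ^ F.p.e0 * x.1 * x'.1)) s₀ m⁻¹ _ hq.ht hq.ht' hq.pr
      hq.pr' (inv_anti₀ (by positivity) hlA) hsep (Nat.mul_pos (by omega) hNa0) hn1
      (by
        rw [Nat.cast_mul, ← w]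
        exact Ideal.mul_mem_mul (Ideal.mem_span_singleton_self _) (Ideal.absNorm_mem 𝔞))
      (by
        rw [Nat.cast_mul, ← w']
        exact Ideal.mul_mem_mul (Ideal.mem_span_singleton_self _) (Ideal.absNorm_mem 𝔞'))
      a1 a2 rfl
    have a4 : ∀ a b c d e : ℝ, a / b * c * d * e = a * e * c * d / b := fun _ _ _ _ _ => by ring
    rw [a4]
    have a5 : ∀ α, 0 ≤ om K Φ Φ' c α α' := fun α => sum_nonneg fun s _ => wS_nn _ _ _ s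
    refine ⟨fun α hα => ⟨?_, fun h => ?_⟩, fun α β hα hβ => ?_⟩
    · exact (abs_of_nonneg (a5 α)).le.trans (a3 α α α' α' hα hα hα' hα').1
    · obtain ⟨s, hs, -⟩ := exists_ne_zero_of_sum_ne_zero h
      obtain ⟨h1, h2, -⟩ := mem_filter.mp hs
      exact h2 ▸ hcmp s h1
    · refine (a3 α β α' α' hα hβ hα' hα').2.trans (mul_le_mul_of_nonneg_left ?_
        ((a5 α).trans (a3 α α α' α' hα hα hα' hα').1))
      rw [sub_self, norm_zero, add_zero, div_mul_eq_mul_div Co]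
      refine add_le_add le_rfl ?_
      rw [← pow_mul, div_le_iff₀ hS, inv_mul_eq_div, le_div_iff₀ (by positivity), ← pow_add]
      exact (pow_le_pow_right₀ y1 (by omega)).trans hSa
  obtain ⟨𝔞, bb, n1, sd, q1, p1, p2, p3, p4, p5⟩ := side t t' L Φ hq hd hn hE hc1 hR
  obtain ⟨𝔞', bb', n1', sd', q1', p1', p2', -, -, p5'⟩ := side t' t L' Φ' (isQ_symm hq) hd'
    ((nn_symm _ _ _ _ _).trans hn) hE' hc2 hR'
  refine final y1 hη0 hη1 hM1 hCL hc1 hc2 hc3 p1 p1' p2 p2' hMs p3 p4 p5 p5'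
    (U' := fun s => UnitC n 𝔞' (Φ'.al K s)) ?_
  have k1 := VE.PairEst.pair (iP := fun _ => inferInstance) sd sd' (by positivity) (by positivity)
    (wS_nn F.p c.S0 c.L) (omg t t' L L' Φ Φ' 𝔞 𝔞' hq hn hsep n1 n1' q1)
    (omg t' t L' L Φ' Φ 𝔞' 𝔞 (isQ_symm hq) ((nn_symm _ _ _ _ _).trans hn)
      (by rwa [abs_sub_comm]) n1' n1 q1')
  have h0 : 0 ≤ Es F.p c x x' fun _ => 1 :=
    (abs_nonneg _).trans (abs_Es_le F.p c x x' (Φ := fun _ => 0) fun _ _ => by simp)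
  refine le_trans ?_ (hnum2 _ _ _ _ hc3 (zero_le_one.trans (PairE.one_le_Pi _ _ _)) h0
    (by linarith [(abs_le.mp p3).2, inv_le_one_of_one_le₀ y1]))
  rw [Es_eq, Es_eq, abs_mul, abs_of_nonneg (by positivity), mul_left_comm]
  refine mul_le_mul_of_nonneg_left ?_ (by positivity)
  simp only [mul_one]
  exact k1

end Pool.Agent.P.MP_b8021b_nt.VC
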