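import Pool.Agent.P.MP_b8021b_nt.VC.PPi2

/-! Averages over the quadruples. -/

namespace Pool.Agent.P.MP_b8021b_nt.VC

open Polynomial Finset Filter Topology Pool.Agent.P.MP_b8021b_nt.VE
open Pool.Agent.P.MP_b8021b_nt.VE.PiP (Per sR cR mem_sR sum_inv_sq_le)
open scoped Classical

namespace PiC

variable {R : Type} [CommRing R] [Algebra ℤ[X] R] {p : Par R} {c : Cfg}

lemma Ctx.part3 (h : Ctx p c) (hT : S_TEq) (hz : 1 ≤ c.z) {C : ℝ} (hC : 0 ≤ C)
    (hb : ∀ t ∈ Tset p c, t.1 < 0 ∧ |(t.1 : ℝ)| ≤ C * c.B) :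
    ∑ t ∈ Tset p c with ¬ IsCoprime t.1 t.2, wT p c t ≤
      2 / c.z + 8 * C * ((Mf p c.z * p.r ^ p.n0 : ℕ) : ℝ) ^ 2 / c.η ^ 2 / c.y := by
  have hy2 := h.y1
  have hy : 0 < c.y := by linarith
  have hB := h.Bpos
  have hη := h.ηpos
  set M : ℝ := ((Mf p c.z * p.r ^ p.n0 : ℕ) : ℝ) with hM
  have hM0 : 0 < M := by
    have h1 := Mf_pos p c.z
    have h2 := p.hr.pos
    rw [hM]; positivity
  have hy4 : c.y ≤ c.B := le_trans (le_self_pow₀ (by linarith) (by norm_num)) h.B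
  have htot := (hT R p c 1 ∅ c.τ0 c.τ0 c.B c.B h.τ0 hη h.ηle le_rfl (Nat.coprime_one_left _)
    (by
      rw [mul_one]
      have : c.η * c.y ≤ c.η * c.B := by gcongr
      linarith [h.big]) le_rfl le_rfl (by linarith) le_rfl le_rfl (by nlinarith)).1
  have hw : ∀ t ∈ Tset p c, wT p c t ≤ 2 * M ^ 2 / (c.η ^ 2 * c.B ^ 2) := fun t ht => by
    have h1 := (Tset_prop ht).1
    calc wT p c t ≤ c.B⁻¹ / (c.η ^ 2 * c.B / (2 * M ^ 2)) := by
          unfold wT
          exact div_le_div₀ (by positivity) (inv_anti₀ hB h1) (by positivity) htot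
      _ = _ := by field_simp
  let m : ℕ → ℝ := fun l => ∑ t ∈ Tset p c, if (l : ℤ) ∣ t.1 ∧ (l : ℤ) ∣ t.2 then wT p c t else 0
  set S := (range (⌈2 * c.B⌉₊ + 1)).filter fun l => l.Prime ∧ c.z < l with hS
  have s1 : ∑ t ∈ Tset p c with ¬ IsCoprime t.1 t.2, wT p c t ≤ ∑ l ∈ S, m l := by
    simp only [m]
    rw [sum_comm, sum_filter]
    refine sum_le_sum fun t ht => ?_
    have hw0 := wT_nonneg ht
    have hnn : ∀ l ∈ S, 0 ≤ if (l : ℤ) ∣ t.1 ∧ (l : ℤ) ∣ t.2 then wT p c t else 0 := fun l _ => by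
      split_ifs
      · exact hw0
      · exact le_rfl
    by_cases hc : IsCoprime t.1 t.2
    · rw [if_neg (not_not.mpr hc)]; exact sum_nonneg hnn
    rw [if_pos hc]
    obtain ⟨l, l1, l2⟩ := Nat.exists_prime_and_dvd (n := Int.gcd t.1 t.2)
      fun e => hc (Int.isCoprime_iff_gcd_eq_one.mpr e)
    have d1 : (l : ℤ) ∣ t.1 := (Int.natCast_dvd_natCast.mpr l2).trans (Int.gcd_dvd_left _ _)
    have d2 : (l : ℤ) ∣ t.2 := (Int.natCast_dvd_natCast.mpr l2).trans (Int.gcd_dvd_right _ _)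
    obtain ⟨t1, t2, -, -, t5, -, -, t8⟩ := Tset_prop ht
    have nd : ¬ (l : ℤ) ∣ 1 := fun e =>
      l1.one_lt.ne' (by exact_mod_cast Int.eq_one_of_dvd_one (by positivity) e)
    have hl : l ∈ S := by
      refine mem_filter.mpr ⟨mem_range.mpr (Nat.lt_succ_of_le ?_), l1, ?_⟩
      · have t0 : (0 : ℤ) < t.2 := by exact_mod_cast lt_of_lt_of_le hB t1
        have a1 : (l : ℝ) ≤ t.2 := by exact_mod_cast Int.le_of_dvd t0 d2
        have a2 : (l : ℝ) ≤ ⌈2 * c.B⌉₊ := by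
          nlinarith [Nat.le_ceil (2 * c.B), h.ηle]
        exact_mod_cast a2
      · by_contra hlz
        by_cases hr : l = p.r
        · have a1 : (l : ℤ) ∣ t.1 - 1 := by
            refine dvd_trans ?_ t5
            rw [hr]
            exact dvd_pow_self _ (by have := p.hn; omega)
          exact nd (by simpa using dvd_sub d1 a1)
        · have a1 : l ∣ Mf p c.z := (prime_dvd_Mf l1).mpr (Or.inl ⟨by omega, hr⟩)
          exact nd (by simpa using dvd_sub d2 ((Int.natCast_dvd_natCast.mpr a1).trans t8))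
    refine le_trans (le_of_eq ?_) (single_le_sum hnn hl)
    rw [if_pos ⟨d1, d2⟩]
  have s2 : ∀ l ∈ S, (l : ℝ) ≤ c.y → m l ≤ 2 * ((l : ℝ) ^ 2)⁻¹ := fun l hl hly => by
    obtain ⟨-, l1, l2⟩ := mem_filter.mp hl
    have hP : Per l fun t => (l : ℤ) ∣ t.1 ∧ (l : ℤ) ∣ t.2 := fun t t' e1 e2 ht =>
      ⟨by simpa using dvd_sub ht.1 e1, by simpa using dvd_sub ht.2 e2⟩
    have := h.est hT l1.one_le (h.cop l1 l2) (κ := 1) le_rfl
      (by nlinarith [le_self_pow₀ (a := c.y) (n := 3) (by linarith) (by norm_num)]) hP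
      (τ₁ := c.τ0) (τ₂ := c.τ0 + c.η) le_rfl (by linarith) le_rfl
    refine le_trans (sum_le_sum fun t ht => le_of_eq ?_) (this.trans ?_)
    · obtain ⟨-, -, s3, s4, -⟩ := Tset_prop ht
      by_cases g : (l : ℤ) ∣ t.1 ∧ (l : ℤ) ∣ t.2
      · rw [if_pos g, if_pos ⟨s3, s4, g⟩]
      · rw [if_neg g, if_neg fun hh => g hh.2.2]
    · have b1 : (c.τ0 + c.η - c.τ0) / c.η = 1 := by field_simp; ring
      have b2 : cR l (fun t => (l : ℤ) ∣ t.1 ∧ (l : ℤ) ∣ t.2) ≤ 1 := by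
        refine le_trans (card_le_card (t := {(0, 0)}) fun ab hab => ?_) (by simp)
        obtain ⟨⟨a1, a2⟩, a3, a4⟩ := mem_sR.mp hab
        exact mem_singleton.mpr (Prod.ext
          (Nat.eq_zero_of_dvd_of_lt (Int.natCast_dvd_natCast.mp a3) a1)
          (Nat.eq_zero_of_dvd_of_lt (Int.natCast_dvd_natCast.mp a4) a2))
      have b3 : (cR l (fun t => (l : ℤ) ∣ t.1 ∧ (l : ℤ) ∣ t.2) : ℝ) ≤ 1 := by exact_mod_cast b2
      rw [b1, ← one_div, show (1 : ℝ) + 1 = 2 by norm_num]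
      gcongr
  have s3 : ∀ l ∈ S, m l ≤ 4 * C * M ^ 2 / c.η ^ 2 * ((l : ℝ) ^ 2)⁻¹ := fun l hl => by
    obtain ⟨-, l1, -⟩ := mem_filter.mp hl
    have l0 : (0 : ℝ) < l := by exact_mod_cast l1.pos
    simp only [m]
    rw [← sum_filter]
    set U := (Tset p c).filter fun t => (l : ℤ) ∣ t.1 ∧ (l : ℤ) ∣ t.2 with hU
    have hc : U.card ≤ (Ioc (0 : ℤ) ⌊C * c.B / l⌋₊ ×ˢ Ioc (0 : ℤ) ⌊2 * c.B / l⌋₊).card := by
      refine card_le_card_of_injOn (fun t => (-(t.1 / l), t.2 / l)) ?_ ?_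
      · intro t ht
        obtain ⟨ht1, ⟨a, ha⟩, ⟨b, hb'⟩⟩ := mem_filter.mp (mem_coe.mp ht)
        obtain ⟨u1, u2⟩ := hb t ht1
        obtain ⟨t1, t2, -⟩ := Tset_prop ht1
        have lz : (0 : ℤ) < l := by exact_mod_cast l1.pos
        have t0 : (0 : ℤ) < t.2 := by exact_mod_cast lt_of_lt_of_le hB t1
        have ea : t.1 / l = a := by rw [ha]; exact Int.mul_ediv_cancel_left _ lz.ne'
        have eb : t.2 / l = b := by rw [hb']; exact Int.mul_ediv_cancel_left _ lz.ne'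
        have fl : ∀ (k : ℤ) (x : ℝ), 0 < k → (k : ℝ) ≤ x → k ≤ (⌊x⌋₊ : ℤ) := fun k x hk hx => by
          lift k to ℕ using hk.le
          exact_mod_cast Nat.le_floor (by exact_mod_cast hx)
        have a0 : 0 < -a := by nlinarith
        have b0 : 0 < b := by nlinarith
        refine mem_coe.mpr (mem_product.mpr ⟨mem_Ioc.mpr ?_, mem_Ioc.mpr ?_⟩)
        · simp only [ea]
          refine ⟨a0, fl _ _ a0 ?_⟩
          rw [le_div_iff₀ l0]
          have := neg_abs_le (t.1 : ℝ)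
          rw [ha] at this u2
          push_cast at this u2 ⊢
          linarith
        · simp only [eb]
          refine ⟨b0, fl _ _ b0 ?_⟩
          rw [le_div_iff₀ l0]
          rw [hb'] at t2
          push_cast at t2
          nlinarith [h.ηle]
      · intro t ht t' ht' he
        obtain ⟨-, a1, a2⟩ := mem_filter.mp (mem_coe.mp ht)
        obtain ⟨-, a3, a4⟩ := mem_filter.mp (mem_coe.mp ht')
        simp only [Prod.mk.injEq, neg_inj] at he
        exact Prod.ext (by rw [← Int.mul_ediv_cancel' a1, he.1, Int.mul_ediv_cancel' a3])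
          (by rw [← Int.mul_ediv_cancel' a2, he.2, Int.mul_ediv_cancel' a4])
    have hc2 : (U.card : ℝ) ≤ (C * c.B / l) * (2 * c.B / l) := by
      rw [card_product, Int.card_Ioc, Int.card_Ioc] at hc
      simp only [sub_zero, Int.toNat_natCast] at hc
      calc (U.card : ℝ) ≤ (⌊C * c.B / l⌋₊ : ℝ) * ⌊2 * c.B / l⌋₊ := by exact_mod_cast hc
        _ ≤ _ := by gcongr <;> exact Nat.floor_le (by positivity)
    calc _ ≤ U.card • (2 * M ^ 2 / (c.η ^ 2 * c.B ^ 2)) :=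
          sum_le_card_nsmul _ _ _ fun t ht => hw t (mem_filter.mp ht).1
      _ ≤ (C * c.B / l) * (2 * c.B / l) * (2 * M ^ 2 / (c.η ^ 2 * c.B ^ 2)) := by
          rw [nsmul_eq_mul]; gcongr
      _ = _ := by field_simp; ring
  refine s1.trans ?_
  rw [← sum_filter_add_sum_filter_not S fun l : ℕ => (l : ℝ) ≤ c.y]
  refine add_le_add ?_ ?_
  · refine (sum_le_sum fun l hl => s2 l (mem_filter.mp hl).1 (mem_filter.mp hl).2).trans ?_
    rw [← mul_sum, div_eq_mul_inv]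
    exact mul_le_mul_of_nonneg_left (sum_inv_sq_le _ hz fun l hl =>
      (mem_filter.mp (mem_filter.mp hl).1).2.2) (by norm_num)
  · refine (sum_le_sum fun l hl => s3 l (mem_filter.mp hl).1).trans ?_
    rw [← mul_sum]
    have f1 : 1 ≤ ⌊c.y⌋₊ := Nat.le_floor (by push_cast; linarith)
    have f2 := sum_inv_sq_le (S.filter fun l : ℕ => ¬ (l : ℝ) ≤ c.y) f1 fun l hl =>
      (Nat.floor_lt hy.le).mpr (not_le.mp (mem_filter.mp hl).2)
    have f3 : ((⌊c.y⌋₊ : ℕ) : ℝ)⁻¹ ≤ (c.y / 2)⁻¹ :=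
      inv_anti₀ (by positivity) (by linarith [Nat.lt_floor_add_one c.y])
    calc _ ≤ 4 * C * M ^ 2 / c.η ^ 2 * (c.y / 2)⁻¹ :=
          mul_le_mul_of_nonneg_left (f2.trans f3) (by positivity)
      _ = _ := by field_simp; ring

lemma sum_wt (p : Par R) {y : ℝ} {N : ℕ}
    (h1 : ∀ i < N, ∑ q ∈ strat y N i, wt p y N q * ((Xq p q).card / q) = 1) :
    ∑ x ∈ Xset p y N, wt p y N x.1 / x.1 = N := by
  rw [sum_Xset, sum_Pset, sum_congr rfl (g := fun _ => 1) fun i hi => ?_]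
  · simp
  rw [← h1 i (mem_range.mp hi)]
  refine sum_congr rfl fun q _ => ?_
  rw [sum_congr rfl (g := fun _ => wt p y N q / q) fun x hx => by rw [(mem_Xq.mp hx).1],
    sum_const, nsmul_eq_mul]
  ring

end PiC

open PiC in
theorem p_pi (hWt : S_Wt) (hTEq : S_TEq) (hFlat : S_Flat) : S_Pi := by
  intro R _ _ p ε hε
  set a : ℝ := (p.ρ + p.dD + 1 + 1 : ℕ) * (7 * (20 * p.e)) with ha
  have ez : ∀ᶠ z : ℕ in atTop, Real.exp (a / z) - 1 ≤ ε / 48 ∧ 2 / (z : ℝ) ≤ ε / 2 := by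
    have t1 : Tendsto (fun z : ℕ => Real.exp (a / z) - 1) atTop (𝓝 (Real.exp 0 - 1)) :=
      ((Real.continuous_exp.tendsto 0).comp (tendsto_const_div_atTop_nhds_zero_nat _)).sub_const 1
    rw [Real.exp_zero, sub_self] at t1
    exact (t1.eventually_le_const (by positivity)).and
      ((tendsto_const_div_atTop_nhds_zero_nat (2 : ℝ)).eventually_le_const (by positivity))
  obtain ⟨z₁, hz₁⟩ := eventually_atTop.mp ez
  refine ⟨max z₁ (max (20 * p.e) (p.G * p.Dp).leadingCoeff.natAbs), ?_⟩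
  rintro F rfl hz
  refine ⟨2 * (2 / F.η + 1), ?_⟩
  obtain ⟨-, C, hC, hF⟩ := hFlat R F.p
  have hη := F.ηpos
  set M : ℝ := ((Mf F.p F.z * F.p.r ^ F.p.n0 : ℕ) : ℝ) with hM
  have tl : Tendsto (fun y : ℝ => Real.log y / 2) atTop atTop :=
    Real.tendsto_log_atTop.atTop_div_const two_pos
  have t2 : Tendsto (fun y : ℝ => Real.exp (2 * F.p.cE * (20 * F.p.e) / Real.log (Real.log y / 2)))
      atTop (𝓝 (Real.exp 0)) := (Real.continuous_exp.tendsto 0).comp
    (tendsto_const_nhds.div_atTop (Real.tendsto_log_atTop.comp tl))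
  rw [Real.exp_zero] at t2
  have t3 : Tendsto (fun y : ℝ => 8 * C * M ^ 2 / F.η ^ 2 / y) atTop (𝓝 0) :=
    tendsto_const_nhds.div_atTop tendsto_id
  have hm : 0 < min 1 (ε / 8) := lt_min one_pos (by positivity)
  have ey := (eventually_ge_atTop (2 : ℝ)).and ((eventually_ge_atTop (180 * M / F.η)).and
    ((eventually_gt_atTop (F.z : ℝ)).and ((tl.eventually_gt_atTop 1).and
    ((t2.eventually_le_const (show (1 : ℝ) < 1 + min 1 (ε / 8) by linarith)).and
    (t3.eventually_le_const (show (0 : ℝ) < ε / 2 by positivity))))))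
  refine ((((hF F rfl).and (Fix.Ev.of_N (hWt R F.p F.AN))).and F.ev_N).and
    (Fix.Ev.of_eventually ey)).mono ?_
  rintro c hIn ⟨⟨⟨⟨-, f4, f5, -⟩, g2, -, g4⟩, hN1, -⟩, e3, e4, e5, e6, e7, e8⟩
  have z1 : z₁ ≤ F.z := (le_max_left _ _).trans hz
  have z2 : 20 * F.p.e ≤ F.z := ((le_max_left _ _).trans (le_max_right _ _)).trans hz
  have z3 : (F.p.G * F.p.Dp).leadingCoeff.natAbs ≤ F.z :=
    ((le_max_right _ _).trans (le_max_right _ _)).trans hz
  have hc : Ctx F.p c :=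
    { τ0 := hIn.τ0_le
      ηpos := hIn.η_pos
      ηle := hIn.η_le
      y1 := e3
      B := hIn.B_ge
      big := by
        rw [hIn.η, hIn.z, mul_comm F.η]
        exact (div_le_iff₀ hη).mp e4
      ez := by rw [hIn.z]; omega
      zy := hIn.z ▸ e5
      N1 := hN1
      sum := sum_wt F.p fun i hi => (g2 i hi).2
      pr := fun q hq => ⟨(g4 q hq).1, (g4 q hq).2.1, (g4 q hq).2.2.1⟩ }
  obtain ⟨k1, k2⟩ := hz₁ F.z z1
  refine ⟨hc.part1 hTEq, ?_, ?_, fun ζ hζ => hIn.η ▸ hc.part4 hTEq hζ⟩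
  · refine (hc.part2 hTEq (hIn.z ▸ z2) (hIn.z ▸ z3) e6 e7 (min_le_left _ _)
      fun x x' t t' hI => (f5 x x' t t' hI).1).trans ?_
    rw [hIn.z]
    linarith [min_le_right 1 (ε / 8)]
  · refine (hc.part3 hTEq (by rw [hIn.z]; have := F.p.h3; omega) (by linarith)
      fun t ht => ⟨hIn.t1_neg (by linarith) ht, (f4 t ht).2.1⟩).trans ?_
    rw [hIn.z, hIn.η]
    linarith

end Pool.Agent.P.MP_b8021b_nt.VC
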