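import Pool.Agent.P.MP_b8021b_nt.VC.StC

/-! Points with values in an algebraic closure. -/

namespace Pool.Agent.P.MP_b8021b_nt.VC

open Polynomial NumberField Finset Pool.Agent.P.MP_b8021b_nt.VE
open scoped Classical

namespace PPts

variable {F A Ω : Type} [Field F] [CharZero F] [CommRing A] [Algebra F A] [Field Ω] [Algebra F Ω]
  [IsAlgClosed Ω] [Algebra.IsAlgebraic F Ω]

omit [CharZero F] [IsAlgClosed Ω] in
theorem ker_max (P : A →ₐ[F] Ω) : (RingHom.ker P).IsMaximal := by
  have h1 : (RingHom.ker P).IsPrime := RingHom.ker_isPrime P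
  have h2 : Algebra.IsAlgebraic F (A ⧸ RingHom.ker P) :=
    Algebra.IsAlgebraic.of_injective (Ideal.kerLiftAlg P) (Ideal.kerLiftAlg_injective P)
  have h3 : Algebra.IsIntegral F (A ⧸ RingHom.ker P) := inferInstance
  exact Ideal.Quotient.maximal_of_isField _
    (isField_of_isIntegral_of_isField' (Field.toIsField F))

omit [CharZero F] [Algebra.IsAlgebraic F Ω] in
theorem exists_pt (m : Ideal A) (hm : m.IsMaximal) [FiniteDimensional F (A ⧸ m)] :
    ∃ P : A →ₐ[F] Ω, RingHom.ker P = m := by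
  let := Ideal.Quotient.field m
  let φ : (A ⧸ m) →ₐ[F] Ω := IsAlgClosed.lift
  refine ⟨φ.comp (Ideal.Quotient.mkₐ F m), ?_⟩
  ext a
  rw [RingHom.mem_ker, AlgHom.comp_apply, map_eq_zero_iff φ φ.injective, Ideal.Quotient.mkₐ_eq_mk,
    Ideal.Quotient.eq_zero_iff_mem]

omit [CharZero F] in
theorem conj (P Q : A →ₐ[F] Ω) (h : RingHom.ker P = RingHom.ker Q) :
    ∃ g : Ω ≃ₐ[F] Ω, ∀ a, Q a = g (P a) := by
  have hm := ker_max P
  let := Ideal.Quotient.field (RingHom.ker P)
  have : IsAlgClosure F Ω := ⟨inferInstance, inferInstance⟩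
  let φ : (A ⧸ RingHom.ker P) →ₐ[F] Ω := Ideal.kerLiftAlg P
  let ψ : (A ⧸ RingHom.ker P) →ₐ[F] Ω :=
    Ideal.Quotient.liftₐ _ Q fun a ha => (RingHom.mem_ker).1 (h ▸ ha)
  let : Algebra (A ⧸ RingHom.ker P) Ω := φ.toRingHom.toAlgebra
  have : IsScalarTower F (A ⧸ RingHom.ker P) Ω := IsScalarTower.of_algebraMap_eq fun x =>
    (φ.commutes x).symm
  refine ⟨AlgEquiv.ofBijective (ψ.liftNormal Ω) (Algebra.IsAlgebraic.algHom_bijective _),
    fun a => ?_⟩
  exact (ψ.liftNormal_commutes Ω (Ideal.Quotient.mk _ a)).symm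

theorem rat (P : A →ₐ[F] Ω) (h : ∀ g : Ω ≃ₐ[F] Ω, ∀ a, g (P a) = P a) :
    ∃ Q : A →ₐ[F] F, P = (Algebra.ofId F Ω).comp Q := by
  have : IsAlgClosure F Ω := ⟨inferInstance, inferInstance⟩
  have : IsGalois F Ω := {}
  have h1 : ∀ a, ∃ c : F, algebraMap F Ω c = P a := fun a =>
    (InfiniteGalois.mem_range_algebraMap_iff_fixed (P a)).2 fun g => h g a
  choose q hq using h1
  have hi := (algebraMap F Ω).injective
  refine ⟨{ toFun := q
            map_one' := hi (by simp [hq])
            map_mul' := fun a b => hi (by simp [hq])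
            map_zero' := hi (by simp [hq])
            map_add' := fun a b => hi (by simp [hq])
            commutes' := fun c => hi (by simp [hq]) }, ?_⟩
  ext a
  exact (hq a).symm

omit [Algebra.IsAlgebraic F Ω] in
theorem card_pt (m : Ideal A) (hm : m.IsMaximal) [FiniteDimensional F (A ⧸ m)] :
    {P : A →ₐ[F] Ω | m ≤ RingHom.ker P}.Finite ∧
      {P : A →ₐ[F] Ω | m ≤ RingHom.ker P}.ncard = dg F m := by
  let := Ideal.Quotient.field m
  have h1 : {P : A →ₐ[F] Ω | m ≤ RingHom.ker P} =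
      Set.range fun φ : (A ⧸ m) →ₐ[F] Ω => φ.comp (Ideal.Quotient.mkₐ F m) := by
    ext P
    constructor
    · intro h
      exact ⟨Ideal.Quotient.liftₐ _ P fun a ha => (RingHom.mem_ker).1 (h ha), by ext a; rfl⟩
    · rintro ⟨φ, rfl⟩ a ha
      rw [RingHom.mem_ker, AlgHom.comp_apply, Ideal.Quotient.mkₐ_eq_mk,
        Ideal.Quotient.eq_zero_iff_mem.2 ha, map_zero]
  have h2 : Function.Injective fun φ : (A ⧸ m) →ₐ[F] Ω => φ.comp (Ideal.Quotient.mkₐ F m) := by
    intro φ ψ h
    refine AlgHom.ext fun x => ?_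
    obtain ⟨a, rfl⟩ := Ideal.Quotient.mk_surjective x
    exact DFunLike.congr_fun h a
  rw [h1]
  refine ⟨Set.finite_range _, ?_⟩
  rw [Set.ncard_range_of_injective h2, Nat.card_eq_fintype_card, AlgHom.card, dg]

end PPts

open PPts in
theorem p_pts (hCv : S_Cv) : S_Pts := by
  intro F A Ω _ _ _ _ _ _ _ _ cv
  have := cv.ded
  obtain ⟨hfin, hdg, -, hne, -⟩ := hCv F A cv
  have hp : ∀ P : A →ₐ[F] Ω, Prime (RingHom.ker P) := fun P =>
    Ideal.prime_of_isPrime (hne _ (ker_max P)) (ker_max P).isPrime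
  have hmul : ∀ (P : A →ₐ[F] Ω) (I J : Ideal A), I ≠ ⊥ → J ≠ ⊥ →
      mI P (I * J) = mI P I + mI P J := fun P I J hI hJ =>
    multiplicity_mul (hp P) (FiniteMultiplicity.of_prime_left (hp P) (mul_ne_zero hI hJ))
  have hnz : ∀ (P : A →ₐ[F] Ω) (J : Ideal A), mI P J ≠ 0 ↔ J ≤ RingHom.ker P := fun P J => by
    rw [mI, multiplicity_ne_zero, Ideal.dvd_iff_le]
  have hex : ∀ m : Ideal A, m.IsMaximal → ∃ P : A →ₐ[F] Ω, RingHom.ker P = m := fun m hm => by
    have := hfin m (hne m hm)
    exact exists_pt m hm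
  have hone : ∀ (P : A →ₐ[F] Ω) (m : Ideal A), m.IsMaximal → m ≤ RingHom.ker P → mI P m = 1 :=
    fun P m hm h => by
      rw [mI, ← hm.eq_of_le (ker_max P).ne_top h]
      exact multiplicity_self
  have hsup : ∀ J : Ideal A, (Function.support fun P : A →ₐ[F] Ω => mI P J) =
      {P : A →ₐ[F] Ω | J ≤ RingHom.ker P} := fun J => Set.ext fun P => hnz P J
  refine ⟨fun J => ?_, hmul, fun P J _ => hnz P J, fun I J hI hJ h => ?_,
    fun P => ⟨ker_max P, hne _ (ker_max P), hone P _ (ker_max P) le_rfl⟩, hex, conj, rat,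
    fun Q P => ?_⟩
  · induction J using UniqueFactorizationMonoid.induction_on_prime with
    | h₁ => exact fun h => absurd rfl h
    | h₂ J hJ =>
      intro _
      rw [Ideal.isUnit_iff.1 hJ]
      have h1 : {P : A →ₐ[F] Ω | ⊤ ≤ RingHom.ker P} = ∅ :=
        Set.eq_empty_of_forall_notMem fun P h => (ker_max P).ne_top (top_le_iff.1 h)
      refine ⟨h1 ▸ Set.finite_empty, ?_⟩
      rw [finsum_eq_zero_of_forall_eq_zero, dg, Module.finrank_zero_of_subsingleton]
      intro P
      by_contra h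
      exact (ker_max P).ne_top (top_le_iff.1 ((hnz P ⊤).1 h))
    | h₃ J p hJ hpp ih =>
      intro _
      obtain ⟨h1, h2⟩ := ih hJ
      have hm : p.IsMaximal := (Ideal.isPrime_of_prime hpp).isMaximal hpp.ne_zero
      have := hfin p hpp.ne_zero
      obtain ⟨h3, h4⟩ := card_pt (F := F) (Ω := Ω) p hm
      refine ⟨(h3.union h1).subset fun P hP => (ker_max P).isPrime.mul_le.1 hP, ?_⟩
      rw [hdg p J hpp.ne_zero hJ, ← h2, ← h4,
        finsum_congr fun P => hmul P p J hpp.ne_zero hJ,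
        finsum_add_distrib (by rw [Function.HasFiniteSupport, hsup]; exact h3)
          (by rw [Function.HasFiniteSupport, hsup]; exact h1)]
      congr 1
      rw [finsum_eq_sum_of_support_subset (s := h3.toFinset) _ (by rw [hsup]; simp),
        Set.ncard_eq_toFinset_card _ h3, card_eq_sum_ones]
      exact sum_congr rfl fun P hP => hone P p hm (h3.mem_toFinset.1 hP)
  · rw [UniqueFactorizationMonoid.dvd_iff_emultiplicity_le hI]
    intro p hpp
    obtain ⟨P, rfl⟩ := hex p ((Ideal.isPrime_of_prime hpp).isMaximal hpp.ne_zero)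
    rw [(FiniteMultiplicity.of_prime_left hpp hI).emultiplicity_eq_multiplicity,
      (FiniteMultiplicity.of_prime_left hpp hJ).emultiplicity_eq_multiplicity]
    exact_mod_cast h P
  · have hs : Function.Surjective Q := fun c => ⟨algebraMap F A c, Q.commutes c⟩
    have hm : (RingHom.ker Q).IsMaximal := RingHom.ker_isMaximal_of_surjective Q hs
    refine ⟨hne _ hm, ?_, ?_⟩
    · rw [dg, (Ideal.quotientKerAlgEquivOfSurjective hs).toLinearEquiv.finrank_eq,
        Module.finrank_self]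
    · split_ifs with h
      · refine hone P _ hm fun a ha => ?_
        rw [h, RingHom.mem_ker, AlgHom.comp_apply, (RingHom.mem_ker).1 ha, map_zero]
      · by_contra h1
        refine h (AlgHom.ext fun a => ?_)
        have h2 : a - algebraMap F A (Q a) ∈ RingHom.ker Q := by simp [RingHom.mem_ker]
        have h3 := (RingHom.mem_ker).1 ((hnz P _).1 h1 h2)
        rw [map_sub, sub_eq_zero, P.commutes] at h3
        exact h3

end Pool.Agent.P.MP_b8021b_nt.VC
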