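import Pool.Agent.P.MP_b8021b_nt.VC.PQFb

/-! The ideals attached to points and sections on a fibre. -/

namespace Pool.Agent.P.MP_b8021b_nt.VC

open Polynomial NumberField Finset Pool.Agent.P.MP_b8021b_nt.VE
open scoped Classical ComplexConjugate

namespace QF

theorem cop_of_norm {L : Type} [Field L] [NumberField L] {I J : Ideal (𝓞 L)}
    (h : (Ideal.absNorm I).Coprime (Ideal.absNorm J)) : IsCoprime I J := by
  obtain ⟨u, v, huv⟩ := Nat.isCoprime_iff_coprime.2 h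
  have h1 := congrArg (Int.cast : ℤ → 𝓞 L) huv
  push_cast at h1
  exact Ideal.isCoprime_iff_exists.2 ⟨_, I.mul_mem_left _ (Ideal.absNorm_mem I), _,
    J.mul_mem_left _ (Ideal.absNorm_mem J), h1⟩

theorem pow_dvd {L : Type} [Field L] [NumberField L] {𝔮 : Ideal (𝓞 L)} {r n : ℕ} (hr : r.Prime)
    (hm : 𝔮.IsMaximal) (h1 : Ideal.absNorm 𝔮 = r) (h2 : 𝔮 ^ n = Ideal.span {(r : 𝓞 L)}) (j : ℕ) :
    ∀ I : Ideal (𝓞 L), r ^ j ∣ Ideal.absNorm I → 𝔮 ^ j ∣ I := by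
  induction j with
  | zero => simp
  | succ j ih =>
    intro I h
    obtain ⟨P, hP, h3, h4⟩ := Ideal.exists_isMaximal_dvd_of_dvd_absNorm' hr I
      ((dvd_pow_self r j.succ_ne_zero).trans h)
    have h5 : (r : 𝓞 L) ∈ P := by
      have : (r : ℤ) ∈ P.under ℤ := h3 ▸ Ideal.mem_span_singleton_self _
      simpa [Ideal.mem_comap] using this
    have h6 : 𝔮 = P := hm.eq_of_le hP.ne_top (hP.isPrime.le_of_pow_le (n := n)
      (h2 ▸ (Ideal.span_singleton_le_iff_mem P).2 h5))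
    obtain ⟨J, rfl⟩ := h6 ▸ h4
    rw [map_mul, h1, pow_succ'] at h
    rw [pow_succ']
    exact mul_dvd_mul_left _ (ih J (Nat.dvd_of_mul_dvd_mul_left hr.pos h))

variable {R : Type} [CommRing R] [Algebra ℤ[X] R] {p : Par R} {k : Type} [Field k] [NumberField k]
  [Algebra k ℂ] (K : BF k) {t : ℤ × ℤ} {L : Type} [Field L] [NumberField L] [Algebra k L]
  (Φ : Fb p t k L)

theorem onT_iff {x : p.Pn} :
    p.OnT x t ↔ (t.1 : ZMod x.1) = ((x.2.1 : ℤ) : ZMod x.1) * t.2 ∧ (t.2 : ZMod x.1) ≠ 0 := by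
  rw [Par.OnT, ← ZMod.intCast_zmod_eq_zero_iff_dvd, ← ZMod.intCast_zmod_eq_zero_iff_dvd,
    Int.cast_sub, Int.cast_mul, sub_eq_zero]

theorem GD_cast {q : ℕ} {τ : ℤ} (h : (t.1 : ZMod q) = (τ : ZMod q) * t.2) :
    ((p.Gt t * p.Dt t : ℤ) : ZMod q) =
      (t.2 : ZMod q) ^ (p.ρ + p.dD) * ((p.G.eval τ * p.Dp.eval τ : ℤ) : ZMod q) := by
  rw [Int.cast_mul, Int.cast_mul, Par.Gt, Par.Dt, hev_cast (d := p.ρ) le_rfl h, hev_cast p.hD h,
    aeval_intCast, aeval_intCast]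
  ring

theorem not_dvd {x : p.Pn} (hx : p.IsPt x) (ht : p.OnT x t) :
    ¬ (x.1 : ℤ) ∣ 2 * p.r * t.2 * p.Gt t * p.Dt t := by
  have := Fact.mk hx.1
  obtain ⟨h1, h2⟩ := onT_iff.1 ht
  obtain ⟨-, h3, -, -, -, -, -, h4, -⟩ := hx
  rw [← ZMod.intCast_zmod_eq_zero_iff_dvd] at h4 ⊢
  rw [← ZMod.natCast_eq_zero_iff] at h3
  rw [mul_assoc, Int.cast_mul, GD_cast h1, Int.cast_mul]
  exact mul_ne_zero (mul_ne_zero (by exact_mod_cast h3) h2) (mul_ne_zero (pow_ne_zero _ h2) h4)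

theorem not_dvd_Mt {q : ℕ} (h : ¬ (q : ℤ) ∣ 2 * p.r * t.2 * p.Gt t * p.Dt t) :
    ¬ (q : ℤ) ∣ (p.Mt t : ℤ) := fun h1 => h (by
  rw [Par.Mt, Int.dvd_natAbs] at h1
  exact h1.trans ⟨t.2 * p.Gt t, by ring⟩)

omit [NumberField L] in
theorem q_mem (x : p.Pn) : (x.1 : 𝓞 L) ∈ Φ.J K x :=
  Ideal.mem_sup_left (Ideal.subset_span (by simp))

omit [NumberField L] in
theorem om_mem (x : p.Pn) : K.om L - (x.2.2.1 : 𝓞 L) ∈ Φ.J K x :=
  Ideal.mem_sup_left (Ideal.subset_span (by simp))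

omit [NumberField L] in
theorem eta_mem' (x : p.Pn) (i : Fin p.e) :
    Φ.η i - ((t.2 ^ p.κ i * x.2.2.2 i : ℤ) : 𝓞 L) ∈ Φ.J K x :=
  Ideal.mem_sup_right (Ideal.subset_span ⟨i, rfl⟩)

/-- the kernel of a homomorphism to a prime field -/
theorem ker_eq (hD : K.D = -p.r) (ht : t.2 ≠ 0) {x : p.Pn} (hq : x.1.Prime)
    (hM : ¬ (x.1 : ℤ) ∣ (p.Mt t : ℤ)) (φ : 𝓞 L →+* ZMod x.1) (h1 : φ (K.om L) = x.2.2.1)
    (h2 : ∀ i, φ (Φ.η i) = (t.2 : ZMod x.1) ^ p.κ i * x.2.2.2 i) :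
    RingHom.ker φ = Φ.J K x := by
  refine le_antisymm (fun β hβ => ?_) (sup_le ?_ ?_)
  · obtain ⟨g, c, h⟩ := index' K Φ hD ht β
    have h3 := congrArg φ h
    rw [map_mul, RingHom.mem_ker.1 hβ, mul_zero] at h3
    simp only [map_sum, map_mul, map_add, map_intCast, h1, h2] at h3
    obtain ⟨n, hn⟩ := (ZMod.intCast_zmod_eq_zero_iff_dvd
      (∑ i, (g i + c i * x.2.2.1) * (t.2 ^ p.κ i * x.2.2.2 i)) x.1).1 (by push_cast; exact h3.symm)
    have h4 : (p.Mt t : 𝓞 L) * β ∈ Φ.J K x := by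
      have h5 : (p.Mt t : 𝓞 L) * β = x.1 * (n : 𝓞 L) +
          ∑ i, ((g i + c i * K.om L) * (Φ.η i - ((t.2 ^ p.κ i * x.2.2.2 i : ℤ) : 𝓞 L)) +
            (c i * ((t.2 ^ p.κ i * x.2.2.2 i : ℤ) : 𝓞 L)) * (K.om L - (x.2.2.1 : 𝓞 L))) := by
        have h6 := congrArg (Int.cast : ℤ → 𝓞 L) hn
        rw [Int.cast_mul, Int.cast_natCast, Int.cast_sum] at h6
        rw [h, ← h6, ← sum_add_distrib]
        refine sum_congr rfl fun i _ => ?_
        push_cast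
        ring
      rw [h5]
      exact add_mem (Ideal.mul_mem_right _ _ (q_mem K Φ x)) (sum_mem fun i _ =>
        add_mem (Ideal.mul_mem_left _ _ (eta_mem' K Φ x i)) (Ideal.mul_mem_left _ _ (om_mem K Φ x)))
    obtain ⟨u, v, huv⟩ := ((Nat.prime_iff_prime_int.1 hq).irreducible.coprime_iff_not_dvd).2 hM
    have h5 := congrArg (Int.cast : ℤ → 𝓞 L) huv
    push_cast at h5
    have h6 : β = u * β * x.1 + v * ((p.Mt t : 𝓞 L) * β) := by linear_combination -β * h5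
    rw [h6]
    exact add_mem (Ideal.mul_mem_left _ _ (q_mem K Φ x)) (Ideal.mul_mem_left _ _ h4)
  · rw [Ideal.span_le]
    rintro _ (rfl | rfl) <;> simp [RingHom.mem_ker, h1]
  · rw [Ideal.span_le]
    rintro _ ⟨i, rfl⟩
    simp [RingHom.mem_ker, h2]

/-- the ideal of a point is the kernel of a homomorphism -/
theorem J_ker (hD : K.D = -p.r) (ht : t.2 ≠ 0) {x : p.Pn} (hx : p.IsPt x) (hxt : p.OnT x t) :
    ∃ φ : 𝓞 L →+* ZMod x.1, φ (K.om L) = x.2.2.1 ∧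
      (∀ i, φ (Φ.η i) = (t.2 : ZMod x.1) ^ p.κ i * x.2.2.2 i) ∧ RingHom.ker φ = Φ.J K x := by
  have := Fact.mk hx.1
  have hM := not_dvd_Mt (not_dvd hx hxt)
  obtain ⟨hq, -, -, -, -, -, hw, -, f, hf1, hf2⟩ := hx
  have hq' : (t.2 : L × ZMod x.1) * (Φ.q.prod f) (zR R) = t.1 := by
    refine Prod.ext Φ.hq ?_
    have h := (onT_iff.1 hxt).1
    simp only [Prod.snd_mul, Prod.snd_intCast, RingHom.prod_apply, hf1, h]
    push_cast
    ring
  have hW : ((((K.om L : 𝓞 L) : L), (x.2.2.1 : ZMod x.1)) : L × ZMod x.1) ^ 2 =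
      -(p.r : L × ZMod x.1) := by
    refine Prod.ext (om_sq' K hD) ?_
    have h := (ZMod.natCast_eq_zero_iff _ _).2 hw
    push_cast at h
    exact eq_neg_of_add_eq_zero_left h
  obtain ⟨φ, hφ⟩ := ext_hom (algebraMap (𝓞 L) L) (ordr p.toTab hq' _ p.r hW) (fun u hu => by
      obtain ⟨g, c, h⟩ := (mem_ordr _).1 hu
      have h1 := congrArg Prod.fst h
      have h2 := congrArg Prod.snd h
      simp only [Prod.fst_sum, Prod.fst_mul, Prod.fst_add, Prod.fst_intCast, Prod.pow_fst,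
        RingHom.prod_apply, ← Φ.hη] at h1
      obtain ⟨h3, h4⟩ := indep K Φ ht (fun i => g i) (fun i => c i) (by
        simpa only [Rat.cast_intCast] using h1.symm)
      have h5 : ∀ i, g i = 0 := fun i => by simpa using congrFun h3 i
      have h6 : ∀ i, c i = 0 := fun i => by simpa using congrFun h4 i
      simpa [h5, h6] using h2)
    (p.Mt t) (fun h => hM ((ZMod.intCast_zmod_eq_zero_iff_dvd _ _).1 h)) fun β => by
      obtain ⟨g, c, h⟩ := (mem_ordr _).1 (index K Φ hD ht β)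
      refine ⟨1, ∑ i, (g i + c i * x.2.2.1) * ((t.2 : ZMod x.1) ^ p.κ i * f (p.y i)),
        (mem_ordr _).2 ⟨g, c, Prod.ext ?_ ?_⟩⟩
      · simpa [Prod.fst_sum] using h
      · simp [Prod.snd_sum]
  have h1 : φ (K.om L) = x.2.2.1 := by
    simpa using hφ (K.om L) 1 x.2.2.1 (by
      rw [Int.cast_one, one_mul]
      exact W_mem hq')
  have h2 : ∀ i, φ (Φ.η i) = (t.2 : ZMod x.1) ^ p.κ i * x.2.2.2 i := fun i => by
    simpa using hφ (Φ.η i) 1 ((t.2 : ZMod x.1) ^ p.κ i * x.2.2.2 i) (by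
      have h3 : algebraMap (𝓞 L) L (Φ.η i) = _ := Φ.hη i
      rw [Int.cast_one, one_mul, h3, ← hf2]
      exact eta_mem hq' i)
  exact ⟨φ, h1, h2, ker_eq K Φ hD ht hq hM φ h1 h2⟩

theorem norm_J (hD : K.D = -p.r) (ht : t.2 ≠ 0) {x : p.Pn} (hx : p.IsPt x) (hxt : p.OnT x t) :
    Ideal.absNorm (Φ.J K x) = x.1 := by
  have := Fact.mk hx.1
  obtain ⟨φ, -, -, h⟩ := J_ker K Φ hD ht hx hxt
  rw [← h, Iqb.absNorm_ker]

theorem onS_iff (hD : K.D = -p.r) (ht : t.2 ≠ 0) {x : p.Pn} (hx : p.IsPt x) (hxt : p.OnT x t)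
    (s : p.Co) : p.OnS x s ↔ Φ.al K s ∈ Φ.J K x := by
  have := Fact.mk hx.1
  obtain ⟨φ, h1, h2, h3⟩ := J_ker K Φ hD ht hx hxt
  obtain ⟨h4, h5⟩ := onT_iff.1 hxt
  have h6 : φ (Φ.al K s) = (t.2 : ZMod x.1) ^ p.dd *
      ((∑ i, ((p.gp s i).eval (x.2.1 : ℤ) + (p.cp s i).eval (x.2.1 : ℤ) * x.2.2.1) *
        x.2.2.2 i : ℤ) : ZMod x.1) := by
    rw [Fb.al, map_sum, Int.cast_sum, mul_sum]
    refine sum_congr rfl fun i _ => ?_
    rw [map_mul, map_add, map_mul, map_intCast, map_intCast, h1, h2, Par.gt, Par.ct,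
      hev_cast (p.natDegree_gp s i) h4, hev_cast (p.natDegree_cp s i) h4, aeval_intCast,
      aeval_intCast, ← pow_sub_mul_pow (t.2 : ZMod x.1) (p.κ_le i)]
    push_cast
    ring
  rw [← h3, RingHom.mem_ker, h6, Par.OnS, ← ZMod.intCast_zmod_eq_zero_iff_dvd, mul_eq_zero,
    or_iff_right (pow_ne_zero _ h5)]

theorem J_inj (hD : K.D = -p.r) (ht : t.2 ≠ 0) {x x' : p.Pn} (hx : p.IsPt x) (hxt : p.OnT x t)
    (hx' : p.IsPt x') (hxt' : p.OnT x' t) (h : Φ.J K x = Φ.J K x') : x = x' := by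
  have h0 : x.1 = x'.1 := by rw [← norm_J K Φ hD ht hx hxt, h, norm_J K Φ hD ht hx' hxt']
  obtain ⟨q, a, w, v⟩ := x
  obtain ⟨q', a', w', v'⟩ := x'
  obtain rfl : q = q' := h0
  have : Fact q.Prime := Fact.mk hx.1
  have hsm : ∀ m m' : ℕ, m < q → m' < q → (m : ZMod q) = m' → m = m' := fun m m' h1 h2 h3 => by
    rw [← ZMod.val_cast_of_lt h1, h3, ZMod.val_cast_of_lt h2]
  obtain ⟨φ, h1, h2, h3⟩ := J_ker K Φ hD ht hx hxt
  obtain ⟨h4, h5⟩ := onT_iff.1 hxt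
  obtain ⟨h6, -⟩ := onT_iff.1 hxt'
  have h7 := om_mem K Φ (q, a', w', v')
  have h8 := eta_mem' K Φ (q, a', w', v')
  rw [← h, ← h3] at h7 h8
  simp only [RingHom.mem_ker, map_sub, map_natCast, map_intCast, h1, h2, sub_eq_zero] at h7 h8
  have e1 : a = a' := hsm a a' hx.2.2.1 hx'.2.2.1 (by
    simpa using mul_right_cancel₀ h5 (h4.symm.trans h6))
  have e2 : w = w' := hsm w w' hx.2.2.2.2.1 hx'.2.2.2.2.1 h7
  have e3 : v = v' := funext fun i => hsm _ _ (hx.2.2.2.2.2.1 i) (hx'.2.2.2.2.2.1 i) (by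
    have h9 := h8 i
    push_cast at h9
    exact mul_left_cancel₀ (pow_ne_zero _ h5) h9)
  rw [e1, e2, e3]

theorem J_surj (hD : K.D = -p.r) (ht : t.2 ≠ 0) {q : ℕ} {I : Ideal (𝓞 L)} (hq : q.Prime)
    (h : ¬ (q : ℤ) ∣ 2 * p.r * t.2 * p.Gt t * p.Dt t) (hI : Ideal.absNorm I = q) :
    ∃ x : p.Pn, x.1 = q ∧ p.IsPt x ∧ p.OnT x t ∧ Φ.J K x = I := by
  have := Fact.mk hq
  have h0 := h
  rw [← ZMod.intCast_zmod_eq_zero_iff_dvd, mul_assoc, Int.cast_mul, Int.cast_mul, mul_eq_zero,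
    mul_eq_zero, not_or, not_or] at h0
  obtain ⟨⟨h2r, hb⟩, hGD⟩ := h0
  obtain ⟨φ, rfl⟩ := Iqb.exists_ker hI
  obtain ⟨f, hf⟩ := ext_hom Φ.q ((algebraMap (𝓞 L) L).prod φ).range (fun u hu => by
      obtain ⟨β, hβ⟩ := hu
      obtain ⟨h1, h2⟩ := Prod.mk.inj hβ
      obtain rfl : β = 0 := RingOfIntegers.ext h1
      rw [← h2, map_zero]) t.2 hb fun a => by
      obtain ⟨d, hd⟩ := Tab.exists_mem_Lw (T := p.toTab) a
      exact ⟨d, _, ⟨_, Tab.isIntegral_fib Φ.q Φ.hq hd⟩, rfl⟩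
  have h1 : (t.2 : ZMod q) * f (zR R) = t.1 := hf _ t.2 _ ⟨t.1, by rw [Φ.hq, map_intCast]; rfl⟩
  have h2 : ∀ i, (t.2 : ZMod q) ^ p.κ i * f (p.y i) = φ (Φ.η i) := fun i => by
    simpa using hf (p.y i) (t.2 ^ p.κ i) (φ (Φ.η i)) ⟨Φ.η i, by
      rw [Int.cast_pow, ← Φ.hη]; rfl⟩
  have hw : φ (K.om L) ^ 2 = -(p.r : ZMod q) := by
    rw [← map_pow, om_sq K hD, map_neg, map_natCast]
  have hr : (p.r : ZMod q) ≠ 0 := fun h3 => h2r (by simp [h3])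
  have hτ : (t.1 : ZMod q) = (((f (zR R)).val : ℤ) : ZMod q) * t.2 := by
    rw [Int.cast_natCast, ZMod.natCast_zmod_val, ← h1, mul_comm]
  refine ⟨(q, (f (zR R)).val, (φ (K.om L)).val, fun i => (f (p.y i)).val), rfl,
    ⟨hq, ?_, ZMod.val_lt _, ?_, ZMod.val_lt _, fun i => ZMod.val_lt _, ?_, ?_, f, ?_, fun i => ?_⟩,
    onT_iff.2 ⟨hτ, hb⟩, ?_⟩
  · rw [← ZMod.natCast_eq_zero_iff]
    exact_mod_cast h2r
  · refine ZMod.val_pos.2 fun h3 => hr ?_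
    rw [h3, zero_pow two_ne_zero] at hw
    exact neg_eq_zero.1 hw.symm
  · rw [← ZMod.natCast_eq_zero_iff]
    simp only [Nat.cast_add, Nat.cast_pow, ZMod.natCast_zmod_val, hw, neg_add_cancel]
  · rw [← ZMod.intCast_zmod_eq_zero_iff_dvd]
    rw [GD_cast hτ] at hGD
    exact right_ne_zero_of_mul hGD
  · exact (ZMod.natCast_zmod_val _).symm
  · exact (ZMod.natCast_zmod_val _).symm
  · refine (ker_eq K Φ hD ht (x := (q, _, _, _)) hq (not_dvd_Mt h) φ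
      (ZMod.natCast_zmod_val _).symm fun i => ?_).symm
    simp only [ZMod.natCast_zmod_val, h2]

omit [NumberField L] in
theorem J_conj (c : 𝓞 L ≃+* 𝓞 L) (h1 : c (K.om L) = -K.om L) (h2 : ∀ i, c (Φ.η i) = Φ.η i)
    {x : p.Pn} (hx : p.IsPt x) : (Φ.J K x).map c = Φ.J K (p.inv x) := by
  have h : x.2.2.1 ≤ x.1 := hx.2.2.2.2.1.le
  simp only [Fb.J, Par.inv, Ideal.map_sup, Ideal.map_span, Set.image_pair, ← Set.range_comp',
    map_natCast, map_sub, map_intCast, h1, h2, Nat.cast_sub h]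
  congr 1
  refine le_antisymm ?_ ?_ <;> rw [Ideal.span_le] <;> rintro _ (rfl | rfl)
  · exact Ideal.subset_span (by simp)
  · exact Ideal.mem_span_pair.2 ⟨-1, -1, by ring⟩
  · exact Ideal.subset_span (by simp)
  · exact Ideal.mem_span_pair.2 ⟨-1, -1, by ring⟩

end QF

theorem p_qF (hDeg : S_Deg) : S_QF := by
  intro R _ _ p k _ _ _ K t L _ _ _ Φ hD ht
  have ht0 : t.2 ≠ 0 := ht.1.ne'
  refine ⟨?_, QF.ram K Φ hD ht, QF.norm_al K Φ hD ht,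
    fun x hx hx' => ⟨QF.norm_J K Φ hD ht0 hx hx', QF.not_dvd hx hx', QF.onS_iff K Φ hD ht0 hx hx'⟩,
    fun x x' => QF.J_inj K Φ hD ht0, fun q I => QF.J_surj K Φ hD ht0, QF.index' K Φ hD ht0,
    QF.indep K Φ ht0, fun 𝔮 h𝔮 => ?_⟩
  · obtain ⟨c, hc⟩ := QF.exists_conj K Φ hD ht
    obtain ⟨φ⟩ : Nonempty (L →+* ℂ) := inferInstance
    have h1 : RingOfIntegers.mapRingEquiv c (K.om L) = -K.om L :=
      RingOfIntegers.ext (φ.injective (by
        rw [RingOfIntegers.mapRingEquiv_apply, hc, QF.conj_om K hD]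
        simp))
    have h2 : ∀ i, RingOfIntegers.mapRingEquiv c (Φ.η i) = Φ.η i := fun i =>
      RingOfIntegers.ext (φ.injective (by
        rw [RingOfIntegers.mapRingEquiv_apply, hc, Φ.hη, map_mul, map_pow, map_intCast, map_mul,
          QF.conj_q Φ ht, map_pow, map_intCast]))
    exact ⟨RingOfIntegers.mapRingEquiv c, fun ψ a => hc ψ a, h1, h2,
      fun x hx => QF.J_conj K Φ _ h1 h2 hx⟩
  have he := p.toTab.epos
  have h1 : Ideal.absNorm 𝔮 = p.r := by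
    have h := congrArg Ideal.absNorm h𝔮
    rw [map_pow, Ideal.absNorm_span_natCast, QF.rank K Φ] at h
    exact Nat.pow_left_injective (by omega) h
  have h0 : 𝔮 ≠ ⊥ := fun h => p.hr.ne_zero (by rw [← h1, h, Ideal.absNorm_bot])
  have h3 : 𝔮.IsMaximal := (Ideal.isPrime_of_irreducible_absNorm (h1 ▸ p.hr)).isMaximal h0
  have hN := fun s => (hDeg R p).2.2.2.2.2.2.2.2 s t ht
  have h4 : ∀ s, 𝔮 ^ p.e0 ∣ Ideal.span {Φ.al K s} := fun s => by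
    refine QF.pow_dvd p.hr h3 h1 h𝔮 _ _ ?_
    have h5 := (hN s).1
    rw [← QF.norm_al K Φ hD ht s] at h5
    exact_mod_cast h5
  refine ⟨h3, h1, fun s => Ideal.dvd_span_singleton.1 (h4 s), fun n s x hx => ?_⟩
  have h5 : ∀ i, Ideal.absNorm (Φ.J K (x i)) = (x i).1 := fun i =>
    QF.norm_J K Φ hD ht0 (hx.1 i).1 (hx.1 i).2.1
  have h6 : 𝔮 ^ p.e0 * ∏ i, Φ.J K (x i) ∣ Ideal.span {Φ.al K s} := by
    refine IsCoprime.mul_dvd (IsCoprime.pow_left (IsCoprime.prod_right fun i _ =>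
      QF.cop_of_norm ?_)) (h4 s) (Finset.prod_dvd_of_coprime (fun i _ j _ hij =>
      QF.cop_of_norm ?_) fun i _ => Ideal.dvd_span_singleton.2
        ((QF.onS_iff K Φ hD ht0 (hx.1 i).1 (hx.1 i).2.1 s).1 (hx.1 i).2.2))
    · rw [h1, h5]
      exact (Nat.coprime_primes p.hr (hx.1 i).1.1).2 fun h =>
        (hx.1 i).1.2.1 (h ▸ dvd_mul_left _ _)
    · rw [h5, h5]
      exact (Nat.coprime_primes (hx.1 i).1.1 (hx.1 j).1.1).2 fun h => hij (hx.2.1 h)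
  obtain ⟨I, hI⟩ := h6
  have h7 := QF.norm_al K Φ hD ht s
  have h8 : p.N s t ≠ 0 := fun h => (hN s).2.1 (h ▸ dvd_zero _)
  rw [hI, map_mul, map_mul, map_pow, map_prod, h1, Finset.prod_congr rfl fun i _ => h5 i] at h7
  push_cast at h7
  rw [← hx.2.2] at h7
  have h9 : Ideal.absNorm I = 1 := by
    exact_mod_cast (mul_right_eq_self₀.1 h7).resolve_right h8
  rw [hI, Ideal.absNorm_eq_one_iff.1 h9, Ideal.mul_top]

end Pool.Agent.P.MP_b8021b_nt.VC
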