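import Pool.Agent.P.MP_b8021b_nt.VC.StT
import Pool.Agent.P.MP_b8021b_nt.VC.StH
import Pool.Agent.P.MP_b8021b_nt.VC.StA
import Pool.Agent.P.MP_b8021b_nt.VC.BasicN

/-! The field of a fibre. -/

namespace Pool.Agent.P.MP_b8021b_nt.VC

open Polynomial NumberField Finset Pool.Agent.P.MP_b8021b_nt.VE
open scoped Classical

namespace QF2

variable {k : Type} [Field k] [NumberField k]

theorem lam_one (q : ℕ) : lam (fun _ : Ideal (𝓞 k) => 1) q =
    ((finite_absNorm (E := k) q).toFinset.card : ℂ) := by simp [lam_eq_sum]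

/-- an unramified prime that is the norm of an ideal of a quadratic field splits -/
theorem two (hk : Module.finrank ℚ k = 2) {q : ℕ} (hq : q.Prime) (hu : Unram k q)
    {𝔭 : Ideal (𝓞 k)} (h : Ideal.absNorm 𝔭 = q) : lam (fun _ : Ideal (𝓞 k) => 1) q = 2 := by
  have hp : ∀ I : Ideal (𝓞 k), Ideal.absNorm I = q → I.IsMaximal ∧ I ∣ Ideal.span {(q : 𝓞 k)} :=
    fun I hI => ⟨(Ideal.isPrime_of_irreducible_absNorm (hI ▸ hq)).isMaximal fun h0 =>
      hq.ne_zero (by rw [← hI, h0, Ideal.absNorm_bot]),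
      Ideal.dvd_span_singleton.2 (hI ▸ Ideal.absNorm_mem I)⟩
  obtain ⟨𝔮, e⟩ := (hp 𝔭 h).2
  have h1 : Ideal.absNorm 𝔮 = q := by
    have := congrArg Ideal.absNorm e
    rw [Ideal.absNorm_span_natCast, RingOfIntegers.rank, hk, map_mul, h, sq] at this
    exact (Nat.eq_of_mul_eq_mul_left hq.pos this).symm
  have h2 : ∀ I : Ideal (𝓞 k), I.IsMaximal → (q : 𝓞 k) ∈ I → I = 𝔭 ∨ I = 𝔮 := fun I hI h3 => by
    have h4 : 𝔭 * 𝔮 ≤ I := e ▸ (Ideal.span_singleton_le_iff_mem I).2 h3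
    exact (hI.isPrime.mul_le.1 h4).imp (fun h5 => ((hp 𝔭 h).1.eq_of_le hI.ne_top h5).symm)
      fun h5 => ((hp 𝔮 h1).1.eq_of_le hI.ne_top h5).symm
  have h3 : 𝔭 ≠ 𝔮 := by
    rintro rfl
    obtain ⟨𝔩, h4, h5, h6⟩ := hu
    rw [(h2 𝔩 h4 h5).elim id id, sq, ← e] at h6
    exact h6 (Ideal.mem_span_singleton_self _)
  have h4 : (finite_absNorm (E := k) q).toFinset = {𝔭, 𝔮} := by
    ext I
    simp only [Set.Finite.mem_toFinset, Set.mem_ofPred_eq, mem_insert, mem_singleton]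
    exact ⟨fun hI => h2 I (hp I hI).1 (hI ▸ Ideal.absNorm_mem I),
      fun hI => hI.elim (fun e => e ▸ h) fun e => e ▸ h1⟩
  rw [lam_one, h4, card_pair h3, Nat.cast_two]

variable [Algebra k ℂ] {K : BF k} {L : Type} [Field L] [NumberField L] [Algebra k L] {e M M' : ℕ}
  {P : ℤ[X]} {θ : 𝓞 L}

omit [NumberField L] in
theorem mono (h : NF K e P M θ) (h1 : M ∣ M') (h2 : M' ≠ 0) : NF K e P M' θ :=
  { h with
    M0 := h2
    sep := by
      obtain ⟨a, b, h3⟩ := h.sep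
      obtain ⟨c, rfl⟩ := h1
      exact ⟨C (c : ℤ) * a, C (c : ℤ) * b, by
        rw [mul_assoc, mul_assoc, ← mul_add, h3, Nat.cast_mul, map_mul, mul_comm]⟩
    dvd := h.dvd.trans (Int.natCast_dvd_natCast.2 h1) }

omit [NumberField L] in
theorem root (h : NF K e P M θ) : aeval (θ : L) P = 0 := by
  have := aeval_algebraMap_apply L θ P
  rwa [h.root, map_zero] at this

theorem top (h : NF K e P M θ) : Algebra.adjoin k {(θ : L)} = ⊤ := by
  have hi : IsIntegral k (θ : L) := Algebra.IsIntegral.isIntegral _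
  have h1 : P.map (Int.castRingHom k) = minpoly k (θ : L) :=
    minpoly.eq_of_irreducible_of_monic h.irr
      (by rw [← algebraMap_int_eq, aeval_map_algebraMap, root h]) (h.monic.map _)
  rw [← IntermediateField.adjoin_simple_toSubalgebra_of_isAlgebraic hi.isAlgebraic,
    (Field.primitive_element_iff_minpoly_natDegree_eq k (θ : L)).2
      (by rw [← h1, h.monic.natDegree_map, h.deg, h.fin]), IntermediateField.top_toSubalgebra]

theorem lam_rel (hKD : S_KD) (h : NF K e P M θ) {q : ℕ} (hq : q.Prime) (hM : ¬ q ∣ M)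
    (f : Ideal (𝓞 k) → ℂ) :
    lam (fun I : Ideal (𝓞 L) => f (Ideal.relNorm (𝓞 k) I)) q = rts P q * lam f q := by
  obtain ⟨h1, h2⟩ := hKD k L q hq
  rw [h1, lam_eq_sum, mul_sum, finsum_mem_eq_finite_toFinset_sum _ (finite_absNorm q)]
  refine sum_congr rfl fun 𝔭 h3 => ?_
  rw [((h2 𝔭 ((finite_absNorm q).mem_toFinset.1 h3)).2.2 P M θ h.monic h.sep hM (root h)
    (top h)).1 h.irr]

end QF2

open QF2 in
theorem p_qF2 (hQF : S_QF) (hNF : S_FbNF) (hKD : S_KD) (hU : S_Unr) : S_QF2 := by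
  intro R _ _ p k _ _ _ K t L _ _ _ Φ hD ht
  obtain ⟨⟨c, hc, -⟩, -, -, h1, h2, h3, -⟩ := hQF R p k K t L Φ hD ht
  have h4 := hNF R p k K t L Φ hD ht
  have hb : (t.2 : ℝ) ≠ 0 := Int.cast_ne_zero.2 ht.1.ne'
  have hG : p.Gt t ≠ 0 := fun h => by
    have := hev_div (K := ℝ) (le_refl p.G.natDegree) t.1 hb
    rw [show hev p.G.natDegree p.G t.1 t.2 = 0 from h, Int.cast_zero, eq_comm, mul_eq_zero] at this
    exact this.elim (pow_ne_zero _ hb) (p.good _ ht.2.1 ht.2.2.1).2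
  have e : p.Mb t = p.Mt t * (t.2 * p.Gt t).natAbs := by
    rw [Par.Mb, Par.Mt, ← Int.natAbs_mul]; congr 1; ring
  have h5 : NF K p.e (p.toTab.Pt t) (p.Mb t) (Φ.η p.toTab.i1) := mono h4 ⟨_, e⟩
    (e ▸ mul_ne_zero h4.M0 (Int.natAbs_ne_zero.2 (mul_ne_zero ht.1.ne' hG)))
  have h6 : ∀ q : ℕ, q.Prime → ¬ q ∣ p.Mb t →
      lam (fun _ : Ideal (𝓞 L) => 1) q = 2 * p.rho t q := fun q hq hM => by
    rw [lam_one, Par.rho, Complex.ofReal_div, Complex.ofReal_natCast, Complex.ofReal_ofNat,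
      mul_div_cancel₀ _ two_ne_zero]
    refine congrArg _ (card_bij (fun x _ => Φ.J K x) (fun x hx => ?_) (fun x hx x' hx' => ?_)
      fun I hI => ?_).symm
    · obtain ⟨h7, h8⟩ := mem_filter.1 hx
      obtain ⟨h9, h7⟩ := mem_Xq.1 h7
      exact (finite_absNorm q).mem_toFinset.2 ((h1 x h7 h8).1.trans h9)
    · exact h2 x x' (mem_Xq.1 (mem_filter.1 hx).1).2 (mem_filter.1 hx).2
        (mem_Xq.1 (mem_filter.1 hx').1).2 (mem_filter.1 hx').2
    · obtain ⟨x, h7, h8, h9, h10⟩ := h3 q I hq (fun h => hM (Int.natCast_dvd.1 h))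
        ((finite_absNorm q).mem_toFinset.1 hI)
      exact ⟨x, mem_filter.2 ⟨mem_Xq.2 ⟨h7, h8⟩, h9⟩, h10⟩
  refine ⟨h5, ⟨c, hc⟩, ?_, fun q f hq hM => ?_, h6⟩
  · rw [← Module.finrank_mul_finrank ℚ k L, K.deg, Φ.fin]
  rw [lam_rel hKD h5 hq hM]
  by_cases h : ∃ 𝔭 : Ideal (𝓞 k), Ideal.absNorm 𝔭 = q
  · obtain ⟨𝔭, h⟩ := h
    have h7 := lam_rel hKD h5 hq hM fun _ => 1
    rw [h6 q hq hM, two K.deg hq (hU.1 k K.toIQ q hq fun h8 =>
      hM (Int.natCast_dvd_natCast.1 (h8.trans h5.dvd))) h, mul_comm] at h7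
    rw [mul_right_cancel₀ two_ne_zero h7]
  · rw [show lam f q = 0 from finsum_mem_eq_zero_of_forall_eq_zero fun I hI => (h ⟨I, hI⟩).elim,
      mul_zero, mul_zero]

end Pool.Agent.P.MP_b8021b_nt.VC
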