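import Pool.Agent.P.MP_b8021b_nt.VC.StC

/-! A function of prime degree with totally real fibres. -/

namespace Pool.Agent.P.MP_b8021b_nt.VC

open Polynomial NumberField Finset Pool.Agent.P.MP_b8021b_nt.VE
open scoped Classical

namespace RS

variable {A : Type} [CommRing A] [Algebra ℝ A]

/-- all zeros are simple and real -/
def Good (s : A) : Prop :=
  s ≠ 0 ∧ ∀ P : A →ₐ[ℝ] ℂ, P s = 0 → mI P (Ideal.span {s}) = 1 ∧ ∀ a, (P a).im = 0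

/-- the conjugate point -/
noncomputable def cj (P : A →ₐ[ℝ] ℂ) : A →ₐ[ℝ] ℂ := (Complex.conjAe : ℂ →ₐ[ℝ] ℂ).comp P

theorem cj_apply (P : A →ₐ[ℝ] ℂ) (a : A) : cj P a = (starRingEnd ℂ) (P a) := rfl

theorem span_le_ker (P : A →ₐ[ℝ] ℂ) (s : A) : Ideal.span {s} ≤ RingHom.ker P ↔ P s = 0 := by
  rw [Ideal.span_singleton_le_iff_mem, RingHom.mem_ker]

omit [Algebra ℝ A] in
theorem span_ne {s : A} (hs : s ≠ 0) : Ideal.span {s} ≠ ⊥ := by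
  rwa [Ne, Ideal.span_singleton_eq_bot]

theorem zeros (hCv : S_Cv) (hPts : S_Pts) (cv : Cv ℝ A) (f : A) (hf : f ≠ 0) :
    ∃ T : Finset (A →ₐ[ℝ] ℂ), (∀ P, P ∈ T ↔ P f = 0) ∧
      (∀ P : A →ₐ[ℝ] ℂ, mI P (Ideal.span {f}) ≠ 0 ↔ P f = 0) ∧
      ∑ P ∈ T, mI P (Ideal.span {f}) = cv.δ f ∧
      ∀ V : Set (A →ₐ[ℝ] ℂ), nZ (Ideal.span {f}) V =
        ∑ P ∈ T with P ∈ V, mI P (Ideal.span {f}) := by
  obtain ⟨h1, -, h3, -⟩ := hPts ℝ A ℂ cv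
  obtain ⟨-, -, c3, -⟩ := hCv ℝ A cv
  obtain ⟨hfin, hsum⟩ := h1 _ (span_ne hf)
  have hm : ∀ P : A →ₐ[ℝ] ℂ, mI P (Ideal.span {f}) ≠ 0 ↔ P f = 0 := fun P => by
    rw [h3 P _ (span_ne hf), span_le_ker]
  have hT : ∀ P, P ∈ hfin.toFinset ↔ P f = 0 := fun P => by
    rw [Set.Finite.mem_toFinset, Set.mem_ofPred_eq, span_le_ker]
  refine ⟨hfin.toFinset, hT, hm, ?_, fun V => ?_⟩
  · rw [← c3 f hf, ← hsum]
    refine (finsum_eq_sum_of_support_subset _ fun P hP => ?_).symm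
    exact mem_coe.2 ((hT P).2 ((hm P).1 hP))
  · unfold nZ
    refine finsum_mem_eq_sum_of_inter_support_eq _ ?_
    ext P
    simp only [Set.mem_inter_iff, Function.mem_support, coe_filter, Set.mem_ofPred_eq]
    constructor
    · rintro ⟨h, h'⟩
      exact ⟨⟨(hT P).2 ((hm P).1 h'), h⟩, h'⟩
    · rintro ⟨⟨-, h⟩, h'⟩
      exact ⟨h, h'⟩

theorem nbhd (T : Finset (A →ₐ[ℝ] ℂ)) (W₀ : (A →ₐ[ℝ] ℂ) → Finset A) (ε₀ : (A →ₐ[ℝ] ℂ) → ℝ)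
    (h0 : ∀ P, 0 < ε₀ P) : ∃ (W : Finset A) (ε : ℝ), 0 < ε ∧ (∀ P ∈ T, W₀ P ⊆ W ∧ ε ≤ ε₀ P) ∧
      ∀ P ∈ T, ∀ Q ∈ T, ∀ X, X ∈ Near W ε P → X ∈ Near W ε Q → P = Q := by
  have hw : ∀ x : (A →ₐ[ℝ] ℂ) × (A →ₐ[ℝ] ℂ), ∃ (w : A) (e : ℝ), 0 < e ∧
      (x.1 ≠ x.2 → 2 * e ≤ ‖x.1 w - x.2 w‖) := by
    intro x
    by_cases h : x.1 = x.2
    · exact ⟨0, 1, one_pos, fun h' => absurd h h'⟩
    · obtain ⟨w, hw⟩ : ∃ w, x.1 w ≠ x.2 w := by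
        by_contra hc
        push Not at hc
        exact h (AlgHom.ext hc)
      have : 0 < ‖x.1 w - x.2 w‖ := norm_pos_iff.2 (sub_ne_zero.2 hw)
      exact ⟨w, ‖x.1 w - x.2 w‖ / 2, by positivity, fun _ => by linarith⟩
  choose w e he hwe using hw
  obtain ⟨ε₁, h1, h1'⟩ : ∃ ε₁ : ℝ, 0 < ε₁ ∧ ∀ P ∈ T, ε₁ ≤ ε₀ P := by
    obtain rfl | hT := T.eq_empty_or_nonempty
    · exact ⟨1, one_pos, by simp⟩
    · obtain ⟨P, -, hP⟩ := T.exists_min_image ε₀ hT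
      exact ⟨ε₀ P, h0 P, hP⟩
  obtain ⟨ε₂, h2, h2'⟩ : ∃ ε₂ : ℝ, 0 < ε₂ ∧ ∀ x ∈ T ×ˢ T, ε₂ ≤ e x := by
    obtain h | hT := (T ×ˢ T).eq_empty_or_nonempty
    · exact ⟨1, one_pos, by simp [h]⟩
    · obtain ⟨P, -, hP⟩ := (T ×ˢ T).exists_min_image e hT
      exact ⟨e P, he P, hP⟩
  refine ⟨T.biUnion W₀ ∪ (T ×ˢ T).image w, min ε₁ ε₂, lt_min h1 h2, fun P hP =>
    ⟨(subset_biUnion_of_mem W₀ hP).trans subset_union_left, (min_le_left _ _).trans (h1' P hP)⟩,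
    fun P hP Q hQ X hX hX' => ?_⟩
  by_contra hne
  have hm : (P, Q) ∈ T ×ˢ T := mem_product.2 ⟨hP, hQ⟩
  have hwm : w (P, Q) ∈ T.biUnion W₀ ∪ (T ×ˢ T).image w :=
    mem_union_right _ (mem_image_of_mem w hm)
  have k1 := hX _ hwm
  have k2 := hX' _ hwm
  have k3 := hwe (P, Q) hne
  have k4 := h2' _ hm
  have k5 := min_le_right ε₁ ε₂
  have k6 := norm_sub_le_norm_sub_add_norm_sub (P (w (P, Q))) (X (w (P, Q))) (Q (w (P, Q)))
  rw [norm_sub_rev (P (w (P, Q))) (X _)] at k6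
  simp only at k3
  linarith

theorem good_open (hCv : S_Cv) (hPts : S_Pts) (hStab : S_Stab) (cv : Cv ℝ A) (s : A)
    (hs : Good s) (I : Type) [Fintype I] (b : I → A) (hb : ∀ i, cv.δ (b i) ≤ cv.δ s) :
    ∃ η : ℝ, 0 < η ∧ ∀ c : I → ℝ, (∀ i, |c i| < η) →
      Good (s + ∑ i, c i • b i) ∧ cv.δ (s + ∑ i, c i • b i) = cv.δ s := by
  obtain ⟨Z, hZ, -, hZs, -⟩ := zeros hCv hPts cv s hs.1
  have hcard : #Z = cv.δ s := by
    rw [← hZs, card_eq_sum_ones]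
    exact sum_congr rfl fun P hP => (hs.2 P ((hZ P).1 hP)).1.symm
  choose W₀ ε₀ h0 hst using fun P : A →ₐ[ℝ] ℂ => hStab ℝ A ℂ cv s P hs.1
  obtain ⟨W, ε, hε, hW, hdis⟩ := nbhd Z W₀ ε₀ h0
  have h1 : ∀ P : A →ₐ[ℝ] ℂ, ∃ η : ℝ, 0 < η ∧ (P ∈ Z → ∀ c : I → ℝ, (∀ i, ‖c i‖ < η) →
      s + ∑ i, c i • b i ≠ 0 ∧ nZ (Ideal.span {s + ∑ i, c i • b i}) (Near W ε P) = 1) := by
    intro P
    by_cases hP : P ∈ Z
    · obtain ⟨η, hη, h⟩ := hst P W ε (hW P hP).1 hε (hW P hP).2 I b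
      refine ⟨η, hη, fun _ c hc => ⟨(h c hc).1, ?_⟩⟩
      rw [(h c hc).2, (hs.2 P ((hZ P).1 hP)).1]
    · exact ⟨1, one_pos, fun h => absurd h hP⟩
  choose η hη h1 using h1
  obtain ⟨P₁⟩ : Nonempty (A →ₐ[ℝ] ℂ) := by
    have := cv.ded
    obtain ⟨m, hm⟩ := Ideal.exists_maximal A
    obtain ⟨P, -⟩ := (hPts ℝ A ℂ cv).2.2.2.2.2.1 m hm
    exact ⟨P⟩
  obtain ⟨η₁, hη₁, hne⟩ := hst P₁ (W₀ P₁) (ε₀ P₁) Subset.rfl (h0 P₁) le_rfl I b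
  obtain ⟨η₂, h2, h2'⟩ : ∃ η₂ : ℝ, 0 < η₂ ∧ ∀ P ∈ Z, η₂ ≤ η P := by
    obtain rfl | hT := Z.eq_empty_or_nonempty
    · exact ⟨1, one_pos, by simp⟩
    · obtain ⟨P, -, hP⟩ := Z.exists_min_image η hT
      exact ⟨η P, hη P, hP⟩
  refine ⟨min η₁ η₂, lt_min hη₁ h2, fun c hc => ?_⟩
  set f := s + ∑ i, c i • b i with hf
  have hf0 : f ≠ 0 := (hne c fun i => (hc i).trans_le (min_le_left _ _)).1
  have hn : ∀ P ∈ Z, nZ (Ideal.span {f}) (Near W ε P) = 1 := fun P hP =>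
    (h1 P hP c fun i => ((hc i).trans_le (min_le_right _ _)).trans_le (h2' P hP)).2
  have hδ : cv.δ f ≤ cv.δ s := by
    have : f ∈ cv.L (cv.δ s) :=
      Submodule.add_mem _ (show cv.δ s ≤ cv.δ s from le_rfl)
        (Submodule.sum_mem _ fun i _ => Submodule.smul_mem _ _ (hb i))
    exact this
  obtain ⟨T, hT, hm, hTs, hnz⟩ := zeros hCv hPts cv f hf0
  have hsum : ∑ Q ∈ T with (∃ P ∈ Z, Q ∈ Near W ε P), mI Q (Ideal.span {f}) = cv.δ s := by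
    rw [← hcard, card_eq_sum_ones, ← sum_congr rfl hn, sum_congr rfl fun P _ => hnz (Near W ε P),
      ← sum_biUnion]
    · refine sum_congr ?_ fun _ _ => rfl
      ext Q
      simp only [mem_filter, mem_biUnion]
      constructor
      · rintro ⟨h, P, hP, h'⟩
        exact ⟨P, hP, h, h'⟩
      · rintro ⟨P, hP, h, h'⟩
        exact ⟨h, P, hP, h'⟩
    · intro P hP Q hQ hPQ
      refine disjoint_left.2 fun X hX hX' => hPQ ?_
      exact hdis P hP Q hQ X (mem_filter.1 hX).2 (mem_filter.1 hX').2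
  have hsplit := sum_filter_add_sum_filter_not T (fun Q => ∃ P ∈ Z, Q ∈ Near W ε P)
    fun Q => mI Q (Ideal.span {f})
  rw [hsum, hTs] at hsplit
  have hz : ∑ Q ∈ T with ¬ (∃ P ∈ Z, Q ∈ Near W ε P), mI Q (Ideal.span {f}) = 0 := by omega
  refine ⟨⟨hf0, fun Q hQ => ?_⟩, by omega⟩
  obtain ⟨P, hP, hQP⟩ : ∃ P ∈ Z, Q ∈ Near W ε P := by
    by_contra hc'
    exact (hm Q).2 hQ (sum_eq_zero_iff.1 hz Q (mem_filter.2 ⟨(hT Q).2 hQ, hc'⟩))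
  have k1 := hn P hP
  rw [hnz] at k1
  have hQm : Q ∈ T.filter (· ∈ Near W ε P) := mem_filter.2 ⟨(hT Q).2 hQ, hQP⟩
  have k2 : mI Q (Ideal.span {f}) ≤ 1 := by
    rw [← k1]
    exact single_le_sum (f := fun X : A →ₐ[ℝ] ℂ => mI X (Ideal.span {f}))
      (fun _ _ => Nat.zero_le _) hQm
  have k3 := (hm Q).2 hQ
  refine ⟨by omega, ?_⟩
  have hQ' : cj Q f = 0 := by rw [cj_apply, hQ, map_zero]
  have hQm' : cj Q ∈ T.filter (· ∈ Near W ε P) := by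
    refine mem_filter.2 ⟨(hT _).2 hQ', fun w hw => ?_⟩
    have e1 : (starRingEnd ℂ) (P w) = P w :=
      Complex.conj_eq_iff_im.2 ((hs.2 P ((hZ P).1 hP)).2 w)
    rw [cj_apply, ← e1, ← map_sub, Complex.norm_conj]
    exact hQP w hw
  have hEq : cj Q = Q := by
    by_contra hne'
    have k4 := (hm _).2 hQ'
    have k5 : ∑ X ∈ ({cj Q, Q} : Finset (A →ₐ[ℝ] ℂ)), mI X (Ideal.span {f}) ≤ 1 := by
      rw [← k1]
      refine sum_le_sum_of_subset ?_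
      intro X hX
      rcases mem_insert.1 hX with rfl | hX
      · exact hQm'
      · rw [mem_singleton.1 hX]
        exact hQm
    rw [sum_pair hne'] at k5
    omega
  intro a
  refine Complex.conj_eq_iff_im.1 ?_
  rw [← cj_apply, hEq]

theorem good_mul (hPts : S_Pts) (cv : Cv ℝ A) {s t : A} (hs : Good s) (ht : Good t)
    (h : ∀ P : A →ₐ[ℝ] ℂ, P s = 0 → P t ≠ 0) : Good (s * t) := by
  have := cv.ded
  obtain ⟨-, h2, h3, -⟩ := hPts ℝ A ℂ cv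
  refine ⟨mul_ne_zero hs.1 ht.1, fun P hP => ?_⟩
  rw [← Ideal.span_singleton_mul_span_singleton, h2 P _ _ (span_ne hs.1) (span_ne ht.1)]
  rw [map_mul, mul_eq_zero] at hP
  have z : ∀ u : A, u ≠ 0 → P u ≠ 0 → mI P (Ideal.span {u}) = 0 := fun u hu hPu => by
    by_contra hc
    exact hPu ((span_le_ker P u).1 ((h3 P _ (span_ne hu)).1 hc))
  rcases hP with hP | hP
  · rw [(hs.2 P hP).1, z t ht.1 (h P hP)]
    exact ⟨rfl, (hs.2 P hP).2⟩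
  · rw [(ht.2 P hP).1, z s hs.1 fun hc => h P hc hP]
    exact ⟨rfl, (ht.2 P hP).2⟩

theorem good_const (hCv : S_Cv) (hPts : S_Pts) (hStab : S_Stab) (cv : Cv ℝ A) (s : A)
    (hs : Good s) : ∃ η : ℝ, 0 < η ∧ ∀ c : ℝ, |c| < η →
      Good (s + algebraMap ℝ A c) ∧ cv.δ (s + algebraMap ℝ A c) = cv.δ s := by
  obtain ⟨η, hη, h⟩ := good_open hCv hPts hStab cv s hs Unit (fun _ => 1) fun _ => by
    have := cv.const 1
    rw [map_one] at this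
    omega
  refine ⟨η, hη, fun c hc => ?_⟩
  have := h (fun _ => c) fun _ => hc
  simpa [Algebra.algebraMap_eq_smul_one] using this

theorem good_rat (hCv : S_Cv) (hPts : S_Pts) (hStab : S_Stab) (cv : Cv ℝ A) {B : Type}
    [CommRing B] [Algebra ℚ B] (cw : Cv ℚ B) (ι : B →+* A)
    (h1 : ∀ c, ι (algebraMap ℚ B c) = algebraMap ℝ A (algebraMap ℚ ℝ c))
    (h2 : ∀ a, cv.δ (ι a) = cw.δ a) (h3 : ∀ n, cv.L n ≤ Submodule.span ℝ (ι '' cw.L n))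
    (s : A) (hs : Good s) : ∃ t : B, Good (ι t) ∧ cw.δ t = cv.δ s := by
  have hmem : s ∈ Submodule.span ℝ (ι '' cw.L (cv.δ s)) :=
    h3 _ (show cv.δ s ≤ cv.δ s from le_rfl)
  obtain ⟨n, r, g, hg⟩ := Submodule.mem_span_set'.1 hmem
  choose a ha ha' using fun i => (g i).2
  obtain ⟨η, hη, h⟩ := good_open hCv hPts hStab cv s hs (Fin n) (fun i => ι (a i)) fun i => by
    rw [h2]
    exact ha i
  choose q hq using fun i => exists_rat_near (r i) hη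
  have key : ι (∑ i, q i • a i) = s + ∑ i, ((q i : ℝ) - r i) • ι (a i) := by
    rw [← hg, map_sum, ← sum_add_distrib]
    refine sum_congr rfl fun i _ => ?_
    rw [← ha' i, ← add_smul, add_sub_cancel, Algebra.smul_def, map_mul, h1, Algebra.smul_def]
    rfl
  have := h (fun i => (q i : ℝ) - r i) fun i => by
    rw [abs_sub_comm]
    exact hq i
  rw [← key, h2] at this
  exact ⟨_, this⟩

end RS

open RS in
theorem p_rS (hCv : S_Cv) (hPts : S_Pts) (hBC : S_BC) (hStab : S_Stab) (hRS1 : S_RS1) : S_RS := by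
  intro A _ _ cv e₀
  obtain ⟨A', _, _, cv', ι, h1, hinj, h2, h3, h4, -⟩ := hBC ℚ ℝ A cv
  have hext : ∀ f : A →+* ℂ, ∃ P : A' →ₐ[ℝ] ℂ, ∀ a, P (ι a) = f a := by
    intro f
    obtain ⟨g, hg, hg'⟩ := h4 ℂ (algebraMap ℝ ℂ) f fun c => by simp
    exact ⟨⟨g, hg'⟩, hg⟩
  obtain ⟨n₀, hn⟩ := hRS1 A' cv'
  obtain ⟨e, he, hp⟩ := Nat.exists_infinite_primes (2 * (n₀ + 1) + e₀ + 1)
  obtain ⟨u₁, u10, u1d, u1⟩ := hn (n₀ + 1) (by omega)
  obtain ⟨u₂, u20, u2d, u2⟩ := hn (e - (n₀ + 1)) (by omega)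
  obtain ⟨s₁, g1, d1⟩ := good_rat hCv hPts hStab cv' cv ι h1 h2 h3 u₁ ⟨u10, u1⟩
  obtain ⟨t₂, g2, d2⟩ := good_rat hCv hPts hStab cv' cv ι h1 h2 h3 u₂ ⟨u20, u2⟩
  obtain ⟨η, hη, hc⟩ := good_const hCv hPts hStab cv' _ g2
  obtain ⟨Z, hZ, -⟩ := zeros hCv hPts cv' _ g1.1
  obtain ⟨c, hc1, hc2⟩ : ∃ c : ℚ, |(c : ℝ)| < η ∧ ∀ P ∈ Z, P (ι t₂) + (c : ℂ) ≠ 0 := by
    obtain ⟨q, hq0, hq⟩ := exists_rat_btwn hη
    have hq0' : (0 : ℚ) < q := by exact_mod_cast hq0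
    have hinf : (Set.Ioo (0 : ℚ) q).Infinite := Set.Ioo_infinite hq0'
    have hfin : {c : ℚ | (c : ℂ) ∈ Z.image fun P => -P (ι t₂)}.Finite :=
      Set.Finite.preimage (f := fun c : ℚ => (c : ℂ)) Rat.cast_injective.injOn
        (Finset.finite_toSet _)
    obtain ⟨c, hc, hc'⟩ := hinf.exists_notMem_finite hfin
    have k1 : (0 : ℝ) < c := by exact_mod_cast hc.1
    have k2 : (c : ℝ) < q := by exact_mod_cast hc.2
    refine ⟨c, by rw [abs_of_pos k1]; linarith, fun P hP h => hc' ?_⟩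
    exact mem_image.2 ⟨P, hP, by linear_combination -h⟩
  set s₂ : A := t₂ + algebraMap ℚ A c with hs₂
  have e2 : ι s₂ = ι t₂ + algebraMap ℝ A' c := by
    rw [hs₂, map_add, h1]
    rfl
  obtain ⟨g3, d3⟩ := hc c hc1
  rw [← e2] at g3 d3
  rw [h2, h2, d2, u2d] at d3
  rw [u1d] at d1
  have hnc : ∀ P : A' →ₐ[ℝ] ℂ, P (ι s₁) = 0 → P (ι s₂) ≠ 0 := by
    intro P hP
    rw [e2, map_add, AlgHom.commutes]
    exact hc2 P ((hZ P).2 hP)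
  have s10 : s₁ ≠ 0 := fun h => g1.1 (by rw [h, map_zero])
  have s20 : s₂ ≠ 0 := fun h => g3.1 (by rw [h, map_zero])
  have hd : cv.δ (s₁ * s₂) = e := by
    rw [cv.mul _ _ s10 s20, d1, d3]
    omega
  have g4 := good_mul hPts cv' g1 g3 hnc
  obtain ⟨ρ, hρ, hz⟩ := good_const hCv hPts hStab cv' _ g4
  refine ⟨s₁, s₂, ρ, s10, s20, by omega, by omega, ?_, by rwa [hd], by omega, hρ,
    fun f a ha hf x => ?_⟩
  · by_contra hcop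
    have hne : Ideal.span {s₁, s₂} ≠ ⊤ := by
      rwa [← Ideal.isCoprime_span_singleton_iff, Ideal.isCoprime_iff_sup_eq,
        ← Ideal.span_insert] at hcop
    obtain ⟨m, hm, hle⟩ := Ideal.exists_le_maximal _ hne
    have : Algebra.IsAlgebraic ℚ (AlgebraicClosure ℚ) := AlgebraicClosure.isAlgebraic ℚ
    obtain ⟨Q, hQ⟩ := (hPts ℚ A (AlgebraicClosure ℚ) cv).2.2.2.2.2.1 m hm
    let j : AlgebraicClosure ℚ →ₐ[ℚ] ℂ := IsAlgClosed.lift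
    obtain ⟨P, hP⟩ := hext ((j.comp Q : A →ₐ[ℚ] ℂ) : A →+* ℂ)
    have z : ∀ u ∈ Ideal.span {s₁, s₂}, P (ι u) = 0 := by
      intro u hu
      have : Q u = 0 := by
        have := hle hu
        rwa [← hQ, RingHom.mem_ker] at this
      rw [hP]
      show j (Q u) = 0
      rw [this, map_zero]
    exact hnc P (z _ (Ideal.subset_span (by simp))) (z _ (Ideal.subset_span (by simp)))
  · obtain ⟨P, hP⟩ := hext f
    have g5 := (hz (-a) (by rwa [abs_neg])).1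
    rw [← hP]
    refine (g5.2 P ?_).2 _
    rw [map_add, ← map_mul ι, hP, hf, AlgHom.commutes]
    simp

end Pool.Agent.P.MP_b8021b_nt.VC
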