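import Pool.Agent.P.MP_b8021b_nt.VC.StC

/-! A real function with simple real zeros in every large degree. -/

namespace Pool.Agent.P.MP_b8021b_nt.VC

open Polynomial NumberField Finset Pool.Agent.P.MP_b8021b_nt.VE
open scoped Classical Topology

namespace RS1

variable {A : Type} [CommRing A] [Algebra ℝ A]

/-- the conjugate point -/
noncomputable def cj (P : A →ₐ[ℝ] ℂ) : A →ₐ[ℝ] ℂ := (Complex.conjAe : ℂ →ₐ[ℝ] ℂ).comp P

theorem cj_apply (P : A →ₐ[ℝ] ℂ) (a : A) : cj P a = (starRingEnd ℂ) (P a) := rfl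

theorem cj_cj (P : A →ₐ[ℝ] ℂ) : cj (cj P) = P :=
  AlgHom.ext fun a => by rw [cj_apply, cj_apply, Complex.conj_conj]

theorem cj_eq (P : A →ₐ[ℝ] ℂ) : cj P = P ↔ ∀ a, (P a).im = 0 := by
  constructor
  · intro h a
    refine Complex.conj_eq_iff_im.1 ?_
    rw [← cj_apply, h]
  · intro h
    exact AlgHom.ext fun a => Complex.conj_eq_iff_im.2 (h a)

theorem ker_cj (P : A →ₐ[ℝ] ℂ) : RingHom.ker (cj P) = RingHom.ker P := by
  ext a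
  rw [RingHom.mem_ker, RingHom.mem_ker, cj_apply, map_eq_zero]

theorem cj_near {W : Finset A} {ε : ℝ} {P X : A →ₐ[ℝ] ℂ} (h : X ∈ Near W ε P) :
    cj X ∈ Near W ε (cj P) := fun w hw => by
  rw [cj_apply, cj_apply, ← map_sub, Complex.norm_conj]
  exact h w hw

theorem self_near (W : Finset A) {ε : ℝ} (hε : 0 < ε) (P : A →ₐ[ℝ] ℂ) : P ∈ Near W ε P :=
  fun w _ => by simpa using hε

theorem near_open {W : Finset A} {ε : ℝ} {P X : A →ₐ[ℝ] ℂ} (h : X ∈ Near W ε P) :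
    ∃ e : ℝ, 0 < e ∧ Near W e X ⊆ Near W ε P := by
  have h1 : ∀ᶠ e in 𝓝 (0 : ℝ), ∀ w ∈ W, ‖X w - P w‖ + e < ε := by
    refine (W.eventually_all).2 fun w hw => ?_
    have hc : Continuous fun e : ℝ => ‖X w - P w‖ + e := by fun_prop
    exact hc.continuousAt.eventually_lt continuousAt_const (by simpa using h w hw)
  obtain ⟨e, he, he'⟩ := ((h1.filter_mono nhdsWithin_le_nhds).and
    (self_mem_nhdsWithin (s := Set.Ioi (0 : ℝ)))).exists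
  refine ⟨e, he', fun Y hY w hw => ?_⟩
  have k1 := hY w hw
  have k2 := he w hw
  have k3 := norm_sub_le_norm_sub_add_norm_sub (Y w) (X w) (P w)
  linarith

theorem exists_real (P : A →ₐ[ℝ] ℂ) (h : ∀ a, (P a).im = 0) :
    ∃ Q : A →ₐ[ℝ] ℝ, (Algebra.ofId ℝ ℂ).comp Q = P := by
  have e : ∀ a, ((P a).re : ℂ) = P a := fun a => Complex.ext rfl (by simp [h a])
  refine ⟨⟨⟨⟨⟨fun a => (P a).re, by simp⟩, fun a b => ?_⟩, by simp, fun a b => by simp⟩,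
    fun c => by simp⟩, AlgHom.ext fun a => e a⟩
  simp [h a, h b]

theorem span_le_ker (P : A →ₐ[ℝ] ℂ) (s : A) : Ideal.span {s} ≤ RingHom.ker P ↔ P s = 0 := by
  rw [Ideal.span_singleton_le_iff_mem, RingHom.mem_ker]

omit [Algebra ℝ A] in
theorem span_ne {s : A} (hs : s ≠ 0) : Ideal.span {s} ≠ ⊥ := by
  rwa [Ne, Ideal.span_singleton_eq_bot]

theorem zeros (hCv : S_Cv) (hPts : S_Pts) (cv : Cv ℝ A) (f : A) (hf : f ≠ 0) :
    ∃ T : Finset (A →ₐ[ℝ] ℂ), (∀ P, P ∈ T ↔ P f = 0) ∧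
      (∀ P : A →ₐ[ℝ] ℂ, mI P (Ideal.span {f}) ≠ 0 ↔ P f = 0) ∧
      ∑ P ∈ T, mI P (Ideal.span {f}) = cv.δ f ∧
      ∀ V : Set (A →ₐ[ℝ] ℂ), nZ (Ideal.span {f}) V =
        ∑ P ∈ T with P ∈ V, mI P (Ideal.span {f}) := by
  obtain ⟨h1, -, h3, -⟩ := hPts ℝ A ℂ cv
  obtain ⟨-, -, c3, -⟩ := hCv ℝ A cv
  obtain ⟨hfin, hsum⟩ := h1 _ (span_ne hf)
  have hm : ∀ P : A →ₐ[ℝ] ℂ, mI P (Ideal.span {f}) ≠ 0 ↔ P f = 0 := fun P => by
    rw [h3 P _ (span_ne hf), span_le_ker]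
  have hT : ∀ P, P ∈ hfin.toFinset ↔ P f = 0 := fun P => by
    rw [Set.Finite.mem_toFinset, Set.mem_ofPred_eq, span_le_ker]
  refine ⟨hfin.toFinset, hT, hm, ?_, fun V => ?_⟩
  · rw [← c3 f hf, ← hsum]
    refine (finsum_eq_sum_of_support_subset _ fun P hP => ?_).symm
    exact mem_coe.2 ((hT P).2 ((hm P).1 hP))
  · unfold nZ
    refine finsum_mem_eq_sum_of_inter_support_eq _ ?_
    ext P
    simp only [Set.mem_inter_iff, Function.mem_support, coe_filter, Set.mem_ofPred_eq]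
    constructor
    · rintro ⟨h, h'⟩
      exact ⟨⟨(hT P).2 ((hm P).1 h'), h⟩, h'⟩
    · rintro ⟨⟨-, h⟩, h'⟩
      exact ⟨h, h'⟩

theorem nbhd (T : Finset (A →ₐ[ℝ] ℂ)) (W₀ : (A →ₐ[ℝ] ℂ) → Finset A) (ε₀ : (A →ₐ[ℝ] ℂ) → ℝ)
    (h0 : ∀ P, 0 < ε₀ P) : ∃ (W : Finset A) (ε : ℝ), 0 < ε ∧ (∀ P ∈ T, W₀ P ⊆ W ∧ ε ≤ ε₀ P) ∧
      ∀ P ∈ T, ∀ Q ∈ T, ∀ X, X ∈ Near W ε P → X ∈ Near W ε Q → P = Q := by
  have hw : ∀ x : (A →ₐ[ℝ] ℂ) × (A →ₐ[ℝ] ℂ), ∃ (w : A) (e : ℝ), 0 < e ∧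
      (x.1 ≠ x.2 → 2 * e ≤ ‖x.1 w - x.2 w‖) := by
    intro x
    by_cases h : x.1 = x.2
    · exact ⟨0, 1, one_pos, fun h' => absurd h h'⟩
    · obtain ⟨w, hw⟩ : ∃ w, x.1 w ≠ x.2 w := by
        by_contra hc
        push Not at hc
        exact h (AlgHom.ext hc)
      have : 0 < ‖x.1 w - x.2 w‖ := norm_pos_iff.2 (sub_ne_zero.2 hw)
      exact ⟨w, ‖x.1 w - x.2 w‖ / 2, by positivity, fun _ => by linarith⟩
  choose w e he hwe using hw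
  obtain ⟨ε₁, h1, h1'⟩ : ∃ ε₁ : ℝ, 0 < ε₁ ∧ ∀ P ∈ T, ε₁ ≤ ε₀ P := by
    obtain rfl | hT := T.eq_empty_or_nonempty
    · exact ⟨1, one_pos, by simp⟩
    · obtain ⟨P, -, hP⟩ := T.exists_min_image ε₀ hT
      exact ⟨ε₀ P, h0 P, hP⟩
  obtain ⟨ε₂, h2, h2'⟩ : ∃ ε₂ : ℝ, 0 < ε₂ ∧ ∀ x ∈ T ×ˢ T, ε₂ ≤ e x := by
    obtain h | hT := (T ×ˢ T).eq_empty_or_nonempty
    · exact ⟨1, one_pos, by simp [h]⟩
    · obtain ⟨P, -, hP⟩ := (T ×ˢ T).exists_min_image e hT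
      exact ⟨e P, he P, hP⟩
  refine ⟨T.biUnion W₀ ∪ (T ×ˢ T).image w, min ε₁ ε₂, lt_min h1 h2, fun P hP =>
    ⟨(subset_biUnion_of_mem W₀ hP).trans subset_union_left, (min_le_left _ _).trans (h1' P hP)⟩,
    fun P hP Q hQ X hX hX' => ?_⟩
  by_contra hne
  have hm : (P, Q) ∈ T ×ˢ T := mem_product.2 ⟨hP, hQ⟩
  have hwm : w (P, Q) ∈ T.biUnion W₀ ∪ (T ×ˢ T).image w :=
    mem_union_right _ (mem_image_of_mem w hm)
  have k1 := hX _ hwm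
  have k2 := hX' _ hwm
  have k3 := hwe (P, Q) hne
  have k4 := h2' _ hm
  have k5 := min_le_right ε₁ ε₂
  have k6 := norm_sub_le_norm_sub_add_norm_sub (P (w (P, Q))) (X (w (P, Q))) (Q (w (P, Q)))
  rw [norm_sub_rev (P (w (P, Q))) (X _)] at k6
  simp only at k3
  linarith

/-- all zeros of a small perturbation -/
theorem pert (hCv : S_Cv) (hPts : S_Pts) (hStab : S_Stab) (cv : Cv ℝ A) (s y : A) (hs : s ≠ 0)
    (W₁ : (A →ₐ[ℝ] ℂ) → Finset A) (ε₁ : (A →ₐ[ℝ] ℂ) → ℝ) (hε₁ : ∀ P, 0 < ε₁ P) :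
    ∃ (W : Finset A) (ε c : ℝ), 0 < ε ∧ c ≠ 0 ∧ s + c • y ≠ 0 ∧
      (∀ P : A →ₐ[ℝ] ℂ, P s = 0 → Near W ε P ⊆ Near (W₁ P) (ε₁ P) P) ∧
      (∀ P Q X : A →ₐ[ℝ] ℂ, P s = 0 → Q s = 0 → X ∈ Near W ε P → X ∈ Near W ε Q → P = Q) ∧
      (∀ P : A →ₐ[ℝ] ℂ, P s = 0 →
        nZ (Ideal.span {s + c • y}) (Near W ε P) = mI P (Ideal.span {s})) ∧
      nZ (Ideal.span {s + c • y}) {X : A →ₐ[ℝ] ℂ | ∀ P : A →ₐ[ℝ] ℂ, P s = 0 → X ∉ Near W ε P} +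
        cv.δ s = cv.δ (s + c • y) := by
  obtain ⟨Z, hZ, -, hZs, -⟩ := zeros hCv hPts cv s hs
  choose W₀ ε₀ h0 hst using fun P : A →ₐ[ℝ] ℂ => hStab ℝ A ℂ cv s P hs
  obtain ⟨W, ε, hε, hW, hdis⟩ := nbhd Z (fun P => W₀ P ∪ W₁ P) (fun P => min (ε₀ P) (ε₁ P))
    fun P => lt_min (h0 P) (hε₁ P)
  have h1 : ∀ P : A →ₐ[ℝ] ℂ, ∃ η : ℝ, 0 < η ∧ (P ∈ Z → ∀ c : ℝ, |c| < η →
      nZ (Ideal.span {s + c • y}) (Near W ε P) = mI P (Ideal.span {s})) := by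
    intro P
    by_cases hP : P ∈ Z
    · obtain ⟨η, hη, h⟩ := hst P W ε (subset_union_left.trans (hW P hP).1) hε
        ((hW P hP).2.trans (min_le_left _ _)) Unit fun _ => y
      refine ⟨η, hη, fun _ c hc => ?_⟩
      have := (h (fun _ => c) fun _ => hc).2
      rwa [Fintype.sum_unique] at this
    · exact ⟨1, one_pos, fun h => absurd h hP⟩
  choose η hη h1 using h1
  obtain ⟨P₁⟩ : Nonempty (A →ₐ[ℝ] ℂ) := by
    have := cv.ded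
    obtain ⟨m, hm⟩ := Ideal.exists_maximal A
    obtain ⟨P, -⟩ := (hPts ℝ A ℂ cv).2.2.2.2.2.1 m hm
    exact ⟨P⟩
  obtain ⟨η₁, hη₁, hne⟩ := hst P₁ (W₀ P₁) (ε₀ P₁) Subset.rfl (h0 P₁) le_rfl Unit fun _ => y
  obtain ⟨η₂, h2, h2'⟩ : ∃ η₂ : ℝ, 0 < η₂ ∧ ∀ P ∈ Z, η₂ ≤ η P := by
    obtain rfl | hT := Z.eq_empty_or_nonempty
    · exact ⟨1, one_pos, by simp⟩
    · obtain ⟨P, -, hP⟩ := Z.exists_min_image η hT
      exact ⟨η P, hη P, hP⟩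
  obtain ⟨c, hc0, hc⟩ := exists_between (lt_min hη₁ h2)
  have hc' : |c| < min η₁ η₂ := by rwa [abs_of_pos hc0]
  have hf0 : s + c • y ≠ 0 := by
    have := (hne (fun _ => c) fun _ => hc'.trans_le (min_le_left _ _)).1
    rwa [Fintype.sum_unique] at this
  have hn : ∀ P ∈ Z, nZ (Ideal.span {s + c • y}) (Near W ε P) = mI P (Ideal.span {s}) :=
    fun P hP => h1 P hP c ((hc'.trans_le (min_le_right _ _)).trans_le (h2' P hP))
  refine ⟨W, ε, c, hε, hc0.ne', hf0, fun P hP X hX w hw => ?_,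
    fun P Q X hP hQ => hdis P ((hZ P).2 hP) Q ((hZ Q).2 hQ) X, fun P hP => hn P ((hZ P).2 hP), ?_⟩
  · have k := hW P ((hZ P).2 hP)
    exact (hX w (k.1 (mem_union_right _ hw))).trans_le (k.2.trans (min_le_right _ _))
  obtain ⟨T, hT, hm, hTs, hnz⟩ := zeros hCv hPts cv _ hf0
  have hsum : ∑ Q ∈ T with (∃ P ∈ Z, Q ∈ Near W ε P), mI Q (Ideal.span {s + c • y}) = cv.δ s := by
    rw [← hZs, ← sum_congr rfl hn, sum_congr rfl fun P _ => hnz (Near W ε P), ← sum_biUnion]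
    · refine sum_congr ?_ fun _ _ => rfl
      ext Q
      simp only [mem_filter, mem_biUnion]
      constructor
      · rintro ⟨h, P, hP, h'⟩
        exact ⟨P, hP, h, h'⟩
      · rintro ⟨P, hP, h, h'⟩
        exact ⟨h, P, hP, h'⟩
    · intro P hP Q hQ hPQ
      refine disjoint_left.2 fun X hX hX' => hPQ ?_
      exact hdis P hP Q hQ X (mem_filter.1 hX).2 (mem_filter.1 hX').2
  have hsplit := sum_filter_add_sum_filter_not T (fun Q => ∃ P ∈ Z, Q ∈ Near W ε P)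
    fun Q => mI Q (Ideal.span {s + c • y})
  rw [hsum, hTs] at hsplit
  rw [← hsplit, add_comm, hnz]
  congr 1
  refine sum_congr ?_ fun _ _ => rfl
  ext Q
  simp only [mem_filter, Set.mem_ofPred_eq, not_exists, not_and, hZ]

/-- at most one zero in a set that is stable under conjugation -/
theorem one (hCv : S_Cv) (hPts : S_Pts) (cv : Cv ℝ A) (f : A) (hf : f ≠ 0)
    (U : Set (A →ₐ[ℝ] ℂ)) (hU : ∀ X ∈ U, cj X ∈ U) (h : nZ (Ideal.span {f}) U ≤ 1)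
    (X : A →ₐ[ℝ] ℂ) (hX : X ∈ U) (hXf : X f = 0) :
    mI X (Ideal.span {f}) = 1 ∧ ∀ a, (X a).im = 0 := by
  obtain ⟨T, hT, hm, -, hnz⟩ := zeros hCv hPts cv f hf
  rw [hnz] at h
  have hQm : X ∈ T.filter (· ∈ U) := mem_filter.2 ⟨(hT X).2 hXf, hX⟩
  have k2 : mI X (Ideal.span {f}) ≤ 1 :=
    (single_le_sum (f := fun X : A →ₐ[ℝ] ℂ => mI X (Ideal.span {f}))
      (fun _ _ => Nat.zero_le _) hQm).trans h
  have k3 := (hm X).2 hXf
  refine ⟨by omega, (cj_eq X).1 ?_⟩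
  have hQ' : cj X f = 0 := by rw [cj_apply, hXf, map_zero]
  have hQm' : cj X ∈ T.filter (· ∈ U) := mem_filter.2 ⟨(hT _).2 hQ', hU X hX⟩
  by_contra hne'
  have k4 := (hm _).2 hQ'
  have k5 : ∑ Y ∈ ({cj X, X} : Finset (A →ₐ[ℝ] ℂ)), mI Y (Ideal.span {f}) ≤ 1 := by
    refine le_trans (sum_le_sum_of_subset ?_) h
    intro Y hY
    rcases mem_insert.1 hY with rfl | hY
    · exact hQm'
    · rw [mem_singleton.1 hY]
      exact hQm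
  rw [sum_pair hne'] at k5
  omega

theorem nZ_ne (hCv : S_Cv) (hPts : S_Pts) (cv : Cv ℝ A) (f : A) (hf : f ≠ 0)
    (U : Set (A →ₐ[ℝ] ℂ)) : nZ (Ideal.span {f}) U ≠ 0 ↔ ∃ X ∈ U, X f = 0 := by
  obtain ⟨T, hT, hm, -, hnz⟩ := zeros hCv hPts cv f hf
  rw [hnz]
  constructor
  · intro h
    obtain ⟨X, hX, -⟩ := exists_ne_zero_of_sum_ne_zero h
    exact ⟨X, (mem_filter.1 hX).2, (hT X).1 (mem_filter.1 hX).1⟩
  · rintro ⟨X, hX, hXf⟩ h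
    exact (hm X).2 hXf (sum_eq_zero_iff.1 h X (mem_filter.2 ⟨(hT X).2 hXf, hX⟩))

theorem nZ_split (hCv : S_Cv) (hPts : S_Pts) (cv : Cv ℝ A) (f : A) (hf : f ≠ 0)
    (U : Set (A →ₐ[ℝ] ℂ)) (P : A →ₐ[ℝ] ℂ) (hP : P ∈ U) :
    nZ (Ideal.span {f}) U = mI P (Ideal.span {f}) + nZ (Ideal.span {f}) (U \ {P}) := by
  obtain ⟨T, hT, hm, -, hnz⟩ := zeros hCv hPts cv f hf
  rw [hnz, hnz]
  refine Eq.trans ?_ (congrArg (mI P (Ideal.span {f}) + ·)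
    (sum_congr (s₁ := (T.filter (· ∈ U)).erase P) ?_ fun _ _ => rfl))
  swap
  · ext X
    simp only [mem_filter, Set.mem_sdiff, Set.mem_singleton_iff, mem_erase]
    tauto
  by_cases h : P f = 0
  · exact (add_sum_erase _ (fun X : A →ₐ[ℝ] ℂ => mI X (Ideal.span {f}))
      (mem_filter.2 ⟨(hT P).2 h, hP⟩)).symm
  · have h0 : mI P (Ideal.span {f}) = 0 := by
      by_contra hc
      exact h ((hm P).1 hc)
    rw [h0, zero_add, erase_eq_of_notMem fun hc => h ((hT P).1 (mem_filter.1 hc).1)]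

theorem le_mI (hPts : S_Pts) (cv : Cv ℝ A) (P : A →ₐ[ℝ] ℂ) (f : A) (hf : f ≠ 0) (k : ℕ) :
    k ≤ mI P (Ideal.span {f}) ↔ f ∈ RingHom.ker P ^ k := by
  have := cv.ded
  obtain ⟨h1, -, -⟩ := (hPts ℝ A ℂ cv).2.2.2.2.1 P
  have hfin : FiniteMultiplicity (RingHom.ker P) (Ideal.span {f}) :=
    FiniteMultiplicity.of_not_isUnit (fun h => h1.ne_top (Ideal.isUnit_iff.1 h)) (span_ne hf)
  rw [mI, ← hfin.pow_dvd_iff_le_multiplicity, Ideal.dvd_span_singleton]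

theorem del_smul (cv : Cv ℝ A) (c : ℝ) (y : A) : cv.δ (c • y) ≤ cv.δ y :=
  (cv.L (cv.δ y)).smul_mem c (show cv.δ y ≤ cv.δ y from le_rfl)

theorem del_add (cv : Cv ℝ A) (s y : A) (h : cv.δ s < cv.δ y) : cv.δ (s + y) = cv.δ y := by
  have h1 := cv.add s y
  have h2 := cv.add (s + y) ((-1 : ℝ) • s)
  have h3 := del_smul cv (-1) s
  rw [show s + y + (-1 : ℝ) • s = y by simp] at h2
  omega

/-- raising the degree by one -/
theorem raise (hCv : S_Cv) (hPts : S_Pts) (hStab : S_Stab) (cv : Cv ℝ A) (s y : A) (hs : s ≠ 0)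
    (hy : cv.δ y = cv.δ s + 1)
    (h : ∀ P : A →ₐ[ℝ] ℂ, P s = 0 → mI P (Ideal.span {s}) = 1 ∧ ∀ a, (P a).im = 0) :
    ∃ f : A, f ≠ 0 ∧ cv.δ f = cv.δ s + 1 ∧
      ∀ P : A →ₐ[ℝ] ℂ, P f = 0 → mI P (Ideal.span {f}) = 1 ∧ ∀ a, (P a).im = 0 := by
  obtain ⟨W, ε, c, -, hc, hf, -, -, h1, h2⟩ :=
    pert hCv hPts hStab cv s y hs (fun _ => ∅) (fun _ => 1) fun _ => one_pos
  have k1 := del_smul cv c y
  have k2 := del_smul cv c⁻¹ (c • y)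
  rw [inv_smul_smul₀ hc] at k2
  have hd : cv.δ (s + c • y) = cv.δ s + 1 := by
    rw [del_add cv s _ (by omega)]
    omega
  refine ⟨_, hf, hd, fun X hX => ?_⟩
  by_cases hex : ∃ P : A →ₐ[ℝ] ℂ, P s = 0 ∧ X ∈ Near W ε P
  · obtain ⟨P, hP, hXP⟩ := hex
    refine one hCv hPts cv _ hf (Near W ε P) (fun Y hY => ?_) ?_ X hXP hX
    · have := cj_near hY
      rwa [(cj_eq P).2 (h P hP).2] at this
    · rw [h1 P hP, (h P hP).1]
  · refine one hCv hPts cv _ hf {X : A →ₐ[ℝ] ℂ | ∀ P : A →ₐ[ℝ] ℂ, P s = 0 → X ∉ Near W ε P}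
      (fun Y hY P hP hYP => ?_) (by omega) X (fun P hP hXP => hex ⟨P, hP, hXP⟩) hX
    have := cj_near hYP
    rw [(cj_eq P).2 (h P hP).2, cj_cj] at this
    exact hY P hP this

theorem two (hCv : S_Cv) (cv : Cv ℝ A) (C : Ideal A) (hC : C ≠ ⊥) (n : ℕ) (s : A) (hs : s ≠ 0)
    (hn : dg ℝ C + (cv.g + 1) = n) : ∃ t ∈ C, cv.δ t ≤ n ∧ t ∉ Submodule.span ℝ {s} := by
  obtain ⟨c1, -, -, -, -, c6, -⟩ := hCv ℝ A cv
  have := c1 C hC
  obtain ⟨_, h6⟩ := c6 n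
  let φ : cv.L n →ₗ[ℝ] A ⧸ C := (Ideal.Quotient.mkₐ ℝ C).toLinearMap ∘ₗ (cv.L n).subtype
  have h1 := φ.finrank_range_add_finrank_ker
  have h2 : Module.finrank ℝ (LinearMap.range φ) ≤ dg ℝ C := Submodule.finrank_le _
  by_contra hc
  push Not at hc
  have h3 : (LinearMap.ker φ).map (cv.L n).subtype ≤ Submodule.span ℝ {s} := by
    rintro _ ⟨t, ht, rfl⟩
    exact hc t (Ideal.Quotient.eq_zero_iff_mem.1 ht) t.2
  have h4 := Submodule.finrank_mono h3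
  rw [finrank_span_singleton hs, Submodule.finrank_map_subtype_eq] at h4
  omega

theorem prod_ker (hCv : S_Cv) (hPts : S_Pts) (cv : Cv ℝ A) {ι : Type} (Q : ι → (A →ₐ[ℝ] ℝ))
    (S : Finset ι) : ∏ j ∈ S, RingHom.ker (Q j) ≠ ⊥ ∧ dg ℝ (∏ j ∈ S, RingHom.ker (Q j)) = #S ∧
      ∀ P : A →ₐ[ℝ] ℂ, mI P (∏ j ∈ S, RingHom.ker (Q j)) =
        ∑ j ∈ S, if P = (Algebra.ofId ℝ ℂ).comp (Q j) then 1 else 0 := by
  have := cv.ded
  obtain ⟨-, p2, p3, -, p5, p6, -, -, p9⟩ := hPts ℝ A ℂ cv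
  obtain ⟨-, c2, -⟩ := hCv ℝ A cv
  induction S using Finset.induction_on with
  | empty =>
    refine ⟨by simp, ?_, fun P => ?_⟩
    · rw [prod_empty, Ideal.one_eq_top, card_empty, dg]
      exact Module.finrank_zero_of_subsingleton
    · rw [prod_empty, sum_empty]
      by_contra hc
      have := (p3 P 1 one_ne_zero).1 hc
      rw [Ideal.one_eq_top, top_le_iff] at this
      exact (p5 P).1.ne_top this
  | insert j S hj ih =>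
    obtain ⟨i1, i2, i3⟩ := ih
    have k := p9 (Q j) ((Algebra.ofId ℝ ℂ).comp (Q j))
    rw [prod_insert hj]
    refine ⟨mul_ne_zero k.1 i1, ?_, fun P => ?_⟩
    · rw [c2 _ _ k.1 i1, k.2.1, i2, card_insert_of_notMem hj, add_comm]
    · rw [p2 P _ _ k.1 i1, i3, sum_insert hj, (p9 (Q j) P).2.2]

/-- a function that vanishes to one order less at the point `Q i` -/
theorem exists_t (hCv : S_Cv) (hPts : S_Pts) (cv : Cv ℝ A) (s : A) (hs : s ≠ 0)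
    (Q : Fin (cv.g + 1) → (A →ₐ[ℝ] ℝ)) (hQ : cv.RigF Q) (hQs : ∀ j, Q j s = 0)
    (i : Fin (cv.g + 1)) : ∃ t : A, t ≠ 0 ∧ cv.δ t ≤ cv.δ s ∧
      (∀ P : A →ₐ[ℝ] ℂ, mI P (Ideal.span {s}) ≤ mI P (Ideal.span {t}) + 1) ∧
      mI ((Algebra.ofId ℝ ℂ).comp (Q i)) (Ideal.span {t}) <
        mI ((Algebra.ofId ℝ ℂ).comp (Q i)) (Ideal.span {s}) := by
  have := cv.ded
  obtain ⟨-, p2, p3, p4, p5, -, -, -, p9⟩ := hPts ℝ A ℂ cv
  obtain ⟨-, c2, c3, -, c5, -⟩ := hCv ℝ A cv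
  have hinj : Function.Injective fun j => (Algebra.ofId ℝ ℂ).comp (Q j) := fun j k h =>
    hQ.1 (AlgHom.ext fun a => Complex.ofReal_injective (DFunLike.congr_fun h a))
  obtain ⟨I0, I1, I2⟩ := prod_ker hCv hPts cv Q univ
  obtain ⟨E0, -, -⟩ := prod_ker hCv hPts cv Q (univ.erase i)
  have I3 : ∀ P : A →ₐ[ℝ] ℂ, mI P (∏ j, RingHom.ker (Q j)) ≤ 1 := fun P => by
    rw [I2, ← card_filter]
    refine card_le_one.2 fun j hj k hk => hinj ?_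
    exact (mem_filter.1 hj).2.symm.trans (mem_filter.1 hk).2
  obtain ⟨C, hC⟩ : ∏ j, RingHom.ker (Q j) ∣ Ideal.span {s} := by
    refine p4 _ _ I0 (span_ne hs) fun P => ?_
    by_cases h : mI P (∏ j, RingHom.ker (Q j)) = 0
    · omega
    · have h1 := I3 P
      rw [I2] at h
      obtain ⟨j, -, hj⟩ := exists_ne_zero_of_sum_ne_zero h
      have hP : P = (Algebra.ofId ℝ ℂ).comp (Q j) := by
        by_contra hc
        exact hj (if_neg hc)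
      have h2 := (p3 P _ (span_ne hs)).2 ((span_le_ker P s).2 (by
        rw [hP, AlgHom.comp_apply, hQs, map_zero]))
      omega
  have C0 : C ≠ ⊥ := fun h => span_ne hs (by rw [hC, h, Ideal.mul_bot])
  have hd : dg ℝ C + (cv.g + 1) = cv.δ s := by
    rw [← c3 s hs, hC, c2 _ _ I0 C0, I1, card_univ, Fintype.card_fin, add_comm]
  obtain ⟨t, htC, htd, hts⟩ := two hCv cv C C0 _ s hs hd
  have t0 : t ≠ 0 := fun h => hts (by rw [h]; exact Submodule.zero_mem _)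
  obtain ⟨J, hJ⟩ : C ∣ Ideal.span {t} := Ideal.dvd_span_singleton.2 htC
  have J0 : J ≠ ⊥ := fun h => span_ne t0 (by rw [hJ, h, Ideal.mul_bot])
  refine ⟨t, t0, htd, fun P => ?_, ?_⟩
  · have := I3 P
    rw [hC, hJ, p2 P _ _ I0 C0, p2 P _ _ C0 J0]
    omega
  set P := (Algebra.ofId ℝ ℂ).comp (Q i) with hP
  have k := p9 (Q i) P
  have h1 : mI P (∏ j, RingHom.ker (Q j)) ≠ 0 := by
    rw [I2]
    intro h
    have := sum_eq_zero_iff.1 h i (mem_univ i)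
    rw [if_pos hP] at this
    exact one_ne_zero this
  suffices h : mI P J = 0 by
    rw [hC, hJ, p2 P _ _ I0 C0, p2 P _ _ C0 J0]
    omega
  by_contra h
  obtain ⟨J', hJ'⟩ : RingHom.ker (Q i) ∣ J := by
    refine Ideal.dvd_iff_le.2 fun a ha => ?_
    have : P a = 0 := (p3 P J J0).1 h ha
    exact Complex.ofReal_injective this
  have J1 : J' ≠ ⊥ := fun h => J0 (by rw [hJ', h, Ideal.mul_bot])
  have hd' : dg ℝ J' ≤ cv.g := by
    have := c3 t t0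
    rw [hJ, hJ', c2 _ _ C0 (hJ' ▸ J0), c2 _ _ k.1 J1, k.2.1] at this
    omega
  have e : Ideal.span {s} * J' = Ideal.span {t} * ∏ j ∈ univ.erase i, RingHom.ker (Q j) := by
    rw [hC, hJ, hJ', ← mul_prod_erase univ _ (mem_univ i)]
    ring
  have e' := hQ.2 i J' s t J1 hd' hs t0 e
  rw [e'] at e
  obtain ⟨u, hu⟩ := Ideal.span_singleton_eq_span_singleton.1 (mul_right_cancel₀ E0 e)
  have hu0 : cv.δ u = 0 := by
    have := cv.mul s u hs u.ne_zero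
    rw [hu] at this
    omega
  obtain ⟨c, hc⟩ := c5 u hu0
  refine hts (Submodule.mem_span_singleton.2 ⟨c, ?_⟩)
  rw [← hu, hc, Algebra.smul_def, mul_comm]

/-- the invariant of the moves -/
def Inv {ι : Type} (V : ι → Set (A →ₐ[ℝ] ℂ)) (s : A) : Prop :=
  s ≠ 0 ∧ (∀ P : A →ₐ[ℝ] ℂ, P s = 0 → (∀ a, (P a).im = 0) ∧ ∃ i, P ∈ V i) ∧
    ∀ i, ∃ P ∈ V i, P s = 0

/-- one move: a multiple real zero is split -/
theorem mv (hCv : S_Cv) (hPts : S_Pts) (hStab : S_Stab) (cv : Cv ℝ A)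
    (V : Fin (cv.g + 1) → Set (A →ₐ[ℝ] ℂ))
    (hV : ∀ i, ∀ P ∈ V i, ∃ (W : Finset A) (ε : ℝ), 0 < ε ∧ Near W ε P ⊆ V i)
    (hR : ∀ Q : Fin (cv.g + 1) → (A →ₐ[ℝ] ℝ), (∀ i, (Algebra.ofId ℝ ℂ).comp (Q i) ∈ V i) →
      cv.RigF Q) (s : A) (hs : Inv V s) (P₀ : A →ₐ[ℝ] ℂ) (h2 : 2 ≤ mI P₀ (Ideal.span {s})) :
    ∃ f : A, Inv V f ∧ cv.δ f = cv.δ s ∧
      {P : A →ₐ[ℝ] ℂ | P s = 0}.ncard < {P : A →ₐ[ℝ] ℂ | P f = 0}.ncard := by
  obtain ⟨s0, hre, hex⟩ := hs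
  obtain ⟨Z, hZ, hm, -, -⟩ := zeros hCv hPts cv s s0
  have hP₀ : P₀ s = 0 := (hm P₀).1 (by omega)
  obtain ⟨i, hi⟩ := (hre P₀ hP₀).2
  have hQ : ∀ j, ∃ Q : A →ₐ[ℝ] ℝ, (Algebra.ofId ℝ ℂ).comp Q ∈ V j ∧ Q s = 0 ∧
      (j = i → (Algebra.ofId ℝ ℂ).comp Q = P₀) := by
    intro j
    obtain ⟨P, h1, h3, h4⟩ : ∃ P ∈ V j, P s = 0 ∧ (j = i → P = P₀) := by
      by_cases h : j = i
      · exact ⟨P₀, h ▸ hi, hP₀, fun _ => rfl⟩
      · obtain ⟨P, h1, h3⟩ := hex j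
        exact ⟨P, h1, h3, fun h' => absurd h' h⟩
    obtain ⟨Q, rfl⟩ := exists_real P (hre P h3).1
    exact ⟨Q, h1, Complex.ofReal_injective h3, h4⟩
  choose Q hQV hQs hQi using hQ
  obtain ⟨t, t0, htd, ht1, ht2⟩ := exists_t hCv hPts cv s s0 Q (hR Q hQV) hQs i
  rw [hQi i rfl] at ht2
  have hN : ∀ P : A →ₐ[ℝ] ℂ, ∃ (W : Finset A) (ε : ℝ), 0 < ε ∧ ∀ j, P ∈ V j → Near W ε P ⊆ V j := by
    intro P
    have h1 : ∀ j, ∃ (W : Finset A) (ε : ℝ), 0 < ε ∧ (P ∈ V j → Near W ε P ⊆ V j) := by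
      intro j
      by_cases h : P ∈ V j
      · obtain ⟨W, ε, hε, h'⟩ := hV j P h
        exact ⟨W, ε, hε, fun _ => h'⟩
      · exact ⟨∅, 1, one_pos, fun h' => absurd h' h⟩
    choose W ε hε h1 using h1
    obtain ⟨j₀, -, hj₀⟩ := univ.exists_min_image ε ⟨i, mem_univ i⟩
    refine ⟨univ.biUnion W, ε j₀, hε j₀, fun j hj X hX => h1 j hj fun w hw => ?_⟩
    exact (hX w (mem_biUnion.2 ⟨j, mem_univ j, hw⟩)).trans_le (hj₀ j (mem_univ j))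
  choose W₁ ε₁ hε₁ hN using hN
  obtain ⟨W, ε, c, hε, hc, f0, hsub, hdis, hn, hout⟩ := pert hCv hPts hStab cv s t s0 W₁ ε₁ hε₁
  set f := s + c • t with hf
  have hd : cv.δ f ≤ cv.δ s := (cv.add _ _).trans (max_le le_rfl ((del_smul cv c t).trans htd))
  have hin : ∀ X : A →ₐ[ℝ] ℂ, X f = 0 → ∃ P : A →ₐ[ℝ] ℂ, P s = 0 ∧ X ∈ Near W ε P := by
    intro X hX
    by_contra hc'
    exact (nZ_ne hCv hPts cv f f0 {X : A →ₐ[ℝ] ℂ | ∀ P : A →ₐ[ℝ] ℂ, P s = 0 → X ∉ Near W ε P}).2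
      ⟨X, fun P hP hXP => hc' ⟨P, hP, hXP⟩, hX⟩ (by omega)
  have hge : ∀ P : A →ₐ[ℝ] ℂ, mI P (Ideal.span {s}) - 1 ≤ mI P (Ideal.span {f}) := by
    intro P
    have k := ht1 P
    rw [le_mI hPts cv P f f0, hf, Algebra.smul_def]
    exact add_mem ((le_mI hPts cv P s s0 _).1 (by omega))
      (Ideal.mul_mem_left _ _ ((le_mI hPts cv P t t0 _).1 (by omega)))
  have hz : ∀ P : A →ₐ[ℝ] ℂ, P s = 0 → ∃ X ∈ Near W ε P, X f = 0 := fun P hP =>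
    (nZ_ne hCv hPts cv f f0 _).1 (by rw [hn P hP]; exact (hm P).2 hP)
  refine ⟨f, ⟨f0, fun X hX => ?_, fun j => ?_⟩, by omega, ?_⟩
  · obtain ⟨P, hP, hXP⟩ := hin X hX
    obtain ⟨hPr, j, hj⟩ := hre P hP
    refine ⟨?_, j, hN P j hj (hsub P hP hXP)⟩
    by_cases h : X = P
    · rwa [h]
    have k1 := nZ_split hCv hPts cv f f0 _ P (self_near W hε P)
    have k2 := hn P hP
    have k3 := hge P
    refine (one hCv hPts cv f f0 (Near W ε P \ {P}) (fun Y hY => ⟨?_, fun hY' => hY.2 ?_⟩)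
      (by omega) X ⟨hXP, h⟩ hX).2
    · have := cj_near hY.1
      rwa [(cj_eq P).2 hPr] at this
    · rw [← cj_cj Y, Set.mem_singleton_iff.1 hY', (cj_eq P).2 hPr]
      rfl
  · obtain ⟨P, hj, hP⟩ := hex j
    obtain ⟨X, hXP, hX⟩ := hz P hP
    exact ⟨X, hN P j hj (hsub P hP hXP), hX⟩
  obtain ⟨T, hT, hm', -, -⟩ := zeros hCv hPts cv f f0
  have e1 : {P : A →ₐ[ℝ] ℂ | P s = 0} = ↑Z := Set.ext fun P => (hZ P).symm
  have e2 : {P : A →ₐ[ℝ] ℂ | P f = 0} = ↑T := Set.ext fun P => (hT P).symm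
  rw [e1, e2, Set.ncard_coe_finset, Set.ncard_coe_finset]
  have h3 : #(Z.biUnion fun P => T.filter (· ∈ Near W ε P)) ≤ #T :=
    card_le_card (biUnion_subset.2 fun P _ => filter_subset _ _)
  rw [card_biUnion fun P hP P' hP' hPP => disjoint_left.2 fun X hX hX' =>
    hPP (hdis P P' X ((hZ P).1 hP) ((hZ P').1 hP') (mem_filter.1 hX).2 (mem_filter.1 hX').2)] at h3
  refine lt_of_lt_of_le ?_ h3
  rw [card_eq_sum_ones]
  refine sum_lt_sum (fun P hP => ?_) ⟨P₀, (hZ P₀).2 hP₀, ?_⟩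
  · obtain ⟨X, hXP, hX⟩ := hz P ((hZ P).1 hP)
    exact card_pos.2 ⟨X, mem_filter.2 ⟨(hT X).2 hX, hXP⟩⟩
  have k1 := nZ_split hCv hPts cv f f0 _ P₀ (self_near W hε P₀)
  have k2 := hn P₀ hP₀
  have k3 := hge P₀
  have k4 : mI P₀ (Ideal.span {f}) < mI P₀ (Ideal.span {s}) := by
    by_contra hc'
    have a1 := (le_mI hPts cv P₀ f f0 _).1 (not_lt.1 hc')
    have a2 := (le_mI hPts cv P₀ s s0 _).1 le_rfl
    have a3 : t = algebraMap ℝ A c⁻¹ * (f - s) := by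
      rw [hf, add_sub_cancel_left, ← Algebra.smul_def, inv_smul_smul₀ hc]
    have a4 := (le_mI hPts cv P₀ t t0 _).2 (a3 ▸ Ideal.mul_mem_left _ _ (sub_mem a1 a2))
    omega
  obtain ⟨X, hXP, hX⟩ := (nZ_ne hCv hPts cv f f0 (Near W ε P₀ \ {P₀})).1 (by omega)
  exact one_lt_card.2 ⟨X, mem_filter.2 ⟨(hT X).2 hX, hXP.1⟩, P₀,
    mem_filter.2 ⟨(hT P₀).2 ((hm' P₀).1 (by omega)), self_near W hε P₀⟩, hXP.2⟩

/-- after finitely many moves all zeros are simple -/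
theorem simple (hCv : S_Cv) (hPts : S_Pts) (hStab : S_Stab) (cv : Cv ℝ A)
    (V : Fin (cv.g + 1) → Set (A →ₐ[ℝ] ℂ))
    (hV : ∀ i, ∀ P ∈ V i, ∃ (W : Finset A) (ε : ℝ), 0 < ε ∧ Near W ε P ⊆ V i)
    (hR : ∀ Q : Fin (cv.g + 1) → (A →ₐ[ℝ] ℝ), (∀ i, (Algebra.ofId ℝ ℂ).comp (Q i) ∈ V i) →
      cv.RigF Q) (s : A) (hs : Inv V s) : ∃ f : A, f ≠ 0 ∧ cv.δ f = cv.δ s ∧
      ∀ P : A →ₐ[ℝ] ℂ, P f = 0 → mI P (Ideal.span {f}) = 1 ∧ ∀ a, (P a).im = 0 := by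
  by_contra hc
  have key : ∀ k : ℕ, ∃ f : A, Inv V f ∧ cv.δ f = cv.δ s ∧
      k ≤ {P : A →ₐ[ℝ] ℂ | P f = 0}.ncard := by
    intro k
    induction k with
    | zero => exact ⟨s, hs, rfl, Nat.zero_le _⟩
    | succ k ih =>
      obtain ⟨f, h1, h2, h3⟩ := ih
      obtain ⟨Z, -, hm, -, -⟩ := zeros hCv hPts cv f h1.1
      obtain ⟨P, hP⟩ : ∃ P : A →ₐ[ℝ] ℂ, 2 ≤ mI P (Ideal.span {f}) := by
        by_contra hc'
        push Not at hc'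
        refine hc ⟨f, h1.1, h2, fun P hP => ⟨?_, (h1.2.1 P hP).1⟩⟩
        have k1 := hc' P
        have k2 := (hm P).2 hP
        omega
      obtain ⟨f', h4, h5, h6⟩ := mv hCv hPts hStab cv V hV hR f h1 P hP
      exact ⟨f', h4, h5.trans h2, by omega⟩
  obtain ⟨f, h1, h2, h3⟩ := key (cv.δ s + 1)
  obtain ⟨Z, hZ, hm, hZs, -⟩ := zeros hCv hPts cv f h1.1
  have e1 : {P : A →ₐ[ℝ] ℂ | P f = 0} = ↑Z := Set.ext fun P => (hZ P).symm
  rw [e1, Set.ncard_coe_finset] at h3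
  have h4 : #Z ≤ cv.δ f := by
    rw [← hZs, card_eq_sum_ones]
    exact sum_le_sum fun P hP => Nat.one_le_iff_ne_zero.2 ((hm P).2 ((hZ P).1 hP))
  omega

/-- there are infinitely many real points -/
theorem real_inf (hCv : S_Cv) (hPts : S_Pts) (cv : Cv ℝ A) :
    (Set.univ : Set (A →ₐ[ℝ] ℝ)).Infinite := by
  obtain ⟨n₀, hn⟩ := cv.cof
  obtain ⟨z, -, hz⟩ := hn (2 * n₀ + 1) (by omega)
  have h : ∀ τ : ℝ, ∃ Q : A →ₐ[ℝ] ℝ, Q z = τ := by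
    intro τ
    have h0 := cv.const (-τ)
    have hd := del_add cv (algebraMap ℝ A (-τ)) z (by omega)
    set f := algebraMap ℝ A (-τ) + z with hf
    have f0 : f ≠ 0 := fun h => by
      have h1 := cv.const 0
      rw [map_zero] at h1
      rw [h] at hd
      omega
    obtain ⟨T, hT, -, hTs, -⟩ := zeros hCv hPts cv f f0
    obtain ⟨P, hP, hPr⟩ : ∃ P ∈ T, cj P = P := by
      by_contra hc
      push Not at hc
      have h1 : ∑ P ∈ T, (mI P (Ideal.span {f}) : ZMod 2) = 0 := by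
        refine sum_involution (fun P _ => cj P) (fun P _ => ?_) (fun P hP _ => hc P hP)
          (fun P hP => (hT _).2 ?_) fun P _ => cj_cj P
        · rw [mI, mI, ker_cj]
          exact CharTwo.add_self_eq_zero _
        · rw [cj_apply, (hT P).1 hP, map_zero]
      rw [← Nat.cast_sum, hTs, hd, hz, ZMod.natCast_eq_zero_iff] at h1
      omega
    obtain ⟨Q, rfl⟩ := exists_real P ((cj_eq P).1 hPr)
    have h1 : Q f = 0 := Complex.ofReal_injective ((hT _).1 hP)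
    rw [hf, map_add, AlgHom.commutes] at h1
    exact ⟨Q, (neg_add_eq_zero.1 h1).symm⟩
  choose Q hQ using h
  exact Set.infinite_of_injective_forall_mem (f := Q)
    (fun a b h => by rw [← hQ a, h, hQ b]) fun _ => Set.mem_univ _

/-- the starting configuration -/
theorem start (hCv : S_Cv) (hPts : S_Pts) (hRig1 : S_Rig1) (hRig2 : S_Rig2) (hUnif : S_Unif)
    (cv : Cv ℝ A) : ∃ (V : Fin (cv.g + 1) → Set (A →ₐ[ℝ] ℂ)) (s : A),
    (∀ i, ∀ P ∈ V i, ∃ (W : Finset A) (ε : ℝ), 0 < ε ∧ Near W ε P ⊆ V i) ∧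
    (∀ Q : Fin (cv.g + 1) → (A →ₐ[ℝ] ℝ), (∀ i, (Algebra.ofId ℝ ℂ).comp (Q i) ∈ V i) →
      cv.RigF Q) ∧ Inv V s := by
  obtain ⟨Q, -, hQ⟩ := hRig1 ℝ A cv _ (real_inf hCv hPts cv)
  obtain ⟨W₂, ε₂, hε₂, h2⟩ := hRig2 ℝ A ℂ cv Q hQ
  set R : Fin (cv.g + 1) → (A →ₐ[ℝ] ℂ) := fun j => (Algebra.ofId ℝ ℂ).comp (Q j) with hR
  have hinj : Function.Injective R := fun j k h =>
    hQ.1 (AlgHom.ext fun a => Complex.ofReal_injective (DFunLike.congr_fun h a))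
  have hRr : ∀ j, cj (R j) = R j := fun j => (cj_eq _).2 fun a => Complex.ofReal_im _
  obtain ⟨W, ε, hε, hW, hdis⟩ := nbhd (univ.image R) (fun _ => W₂) (fun _ => ε₂) fun _ => hε₂
  obtain ⟨s, j, P, s0, -, -, hP, hs⟩ := hUnif ℝ A ℂ cv Q hQ W ε hε
  obtain ⟨Z, -, hm, -, -⟩ := zeros hCv hPts cv s s0
  have hz : ∀ X : A →ₐ[ℝ] ℂ, X s = 0 → ∃ i, P i = X ∨ R i = X := by
    intro X hX
    have h := (hm X).2 hX
    rw [hs] at h
    by_contra hc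
    push Not at hc
    apply h
    rw [filter_false_of_mem fun i _ => (hc i).1, filter_false_of_mem fun i _ => (hc i).2]
    simp
  refine ⟨fun i => Near W ε (R i), s, fun i X hX => ?_, fun Q' hQ' => h2 Q' fun i w hw => ?_,
    s0, fun X hX => ?_, fun i => ⟨P i, hP i, (hm _).1 ?_⟩⟩
  · obtain ⟨e, he, h⟩ := near_open hX
    exact ⟨W, e, he, h⟩
  · have k := hW (R i) (mem_image_of_mem R (mem_univ i))
    have k1 : ‖((Q' i w : ℝ) : ℂ) - ((Q i w : ℝ) : ℂ)‖ < ε := hQ' i w (k.1 hw)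
    rw [← Complex.ofReal_sub, Complex.norm_real] at k1
    exact k1.trans_le k.2
  · obtain ⟨i, rfl | rfl⟩ := hz X hX
    · refine ⟨(cj_eq _).1 ?_, i, hP i⟩
      have k1 : cj (P i) ∈ Near W ε (R i) := by
        have := cj_near (hP i)
        rwa [hRr] at this
      have k2 : ∀ l, cj (P i) ∈ Near W ε (R l) → l = i := fun l hl =>
        hinj (hdis _ (mem_image_of_mem R (mem_univ l)) _ (mem_image_of_mem R (mem_univ i)) _ hl k1)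
      obtain ⟨l, h | h⟩ := hz (cj (P i)) (by rw [cj_apply, hX, map_zero])
      · rw [← h, k2 l (h ▸ hP l)]
      · have : P i = R l := by rw [← cj_cj (P i), ← h, hRr]
        rw [this, hRr]
    · exact ⟨(cj_eq _).1 (hRr i), i, self_near W hε _⟩
  · rw [hs]
    have : 0 < #(univ.filter fun l => P l = P i) := card_pos.2 ⟨i, by simp⟩
    omega

end RS1

open RS1 in
theorem p_rS1 (hCv : S_Cv) (hPts : S_Pts) (hStab : S_Stab) (hRig1 : S_Rig1) (hRig2 : S_Rig2) (hUnif : S_Unif) : S_RS1 := by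
  intro A _ _ cv
  have := cv.ded
  obtain ⟨n₀, hn⟩ := cv.cof
  obtain ⟨V, s, hV, hR, s0, hs1, hs2⟩ := start hCv hPts hRig1 hRig2 hUnif cv
  have hpos : 1 ≤ cv.δ s := by
    obtain ⟨Z, hZ, hm, hZs, -⟩ := zeros hCv hPts cv s s0
    obtain ⟨P, -, hP⟩ := hs2 0
    rw [← hZs]
    exact (Nat.one_le_iff_ne_zero.2 ((hm P).2 hP)).trans
      (single_le_sum (f := fun X : A →ₐ[ℝ] ℂ => mI X (Ideal.span {s}))
        (fun _ _ => Nat.zero_le _) ((hZ P).2 hP))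
  have hpow : ∀ k, k + 1 ≤ cv.δ (s ^ (k + 1)) := by
    intro k
    induction k with
    | zero => simpa using hpos
    | succ k ih =>
      rw [pow_succ, cv.mul _ _ (pow_ne_zero _ s0) s0]
      omega
  have hI : Inv V (s ^ (n₀ + 1)) := by
    refine ⟨pow_ne_zero _ s0, fun P hP => hs1 P ?_, fun i => ?_⟩
    · rw [map_pow] at hP
      exact pow_eq_zero_iff (Nat.succ_ne_zero _) |>.1 hP
    · obtain ⟨P, h1, h2⟩ := hs2 i
      exact ⟨P, h1, by rw [map_pow, h2, zero_pow (Nat.succ_ne_zero _)]⟩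
  have hN := hpow n₀
  refine ⟨cv.δ (s ^ (n₀ + 1)), fun n hle => ?_⟩
  induction n, hle using Nat.le_induction with
  | base => exact simple hCv hPts hStab cv V hV hR _ hI
  | succ n hle ih =>
    obtain ⟨f, f0, hf, h⟩ := ih
    obtain ⟨y, -, hy⟩ := hn (n + 1) (by omega)
    rw [← hf] at hy ⊢
    exact raise hCv hPts hStab cv f y f0 hy h

end Pool.Agent.P.MP_b8021b_nt.VC
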