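import Pool.Agent.P.MP_b8021b_nt.VC.StG
import Pool.Agent.P.MP_b8021b_nt.VC.StH
import Pool.Agent.P.MP_b8021b_nt.VE.PRs

/-! The Rankin-Selberg bound over squarefree integers. -/

namespace Pool.Agent.P.MP_b8021b_nt.VC

open NumberField Finset Pool.Agent.P.MP_b8021b_nt.VE
open scoped Classical ComplexConjugate

namespace RS2

theorem abs_tent_le (v : ℝ) : |tent v| ≤ 1 := by
  rw [tent, abs_of_nonneg (le_max_left _ _)]
  exact max_le zero_le_one (sub_le_self _ (abs_nonneg _))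

theorem bump : Bump (fun x => tent (x - 3 / 2)) 1 where
  one_le := le_rfl
  abs_le x := abs_tent_le _
  lip x x' := by
    have h1 := abs_max_sub_max_le_abs (1 - |x - 3 / 2|) (1 - |x' - 3 / 2|) 0
    have h2 := abs_abs_sub_abs_le_abs_sub (x' - 3 / 2) (x - 3 / 2)
    rw [max_comm _ 0, max_comm _ 0, sub_sub_sub_cancel_left] at h1
    rw [sub_sub_sub_cancel_right, abs_sub_comm x' x] at h2
    rw [one_mul]
    exact h1.trans h2
  supp x hx := by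
    have h1 : |x - 3 / 2| < 1 := by
      by_contra h
      exact hx (max_eq_left (by linarith))
    have h2 := abs_lt.1 h1
    constructor <;> linarith [h2.1, h2.2]

end RS2

theorem p_rS2 (hTP : S_TP) (hPS : S_PS) (hLam : VE.S_Lam) : S_RS2 := by
  intro k _ _ _ K e
  rcases Nat.eq_zero_or_pos e with rfl | he
  · exact ⟨0, 1, one_pos, fun L L' _ _ _ _ _ _ P P' M M' n n' θ θ' Q Y κ τ κ' τ' χ χ' h =>
      absurd h.h3 (by norm_num)⟩
  obtain ⟨C, hC⟩ := hPS k K (e ^ 2)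
  have he1 : (1 : ℝ) ≤ ((e ^ 2 : ℕ) : ℝ) := by exact_mod_cast Nat.one_le_pow 2 e he
  set δ : ℝ := 1 / (2 * ((e ^ 2 : ℕ) : ℝ)) with hδ
  have hδ0 : 0 < δ := by positivity
  have hδ1 : δ ≤ 1 := by
    rw [hδ, div_le_one (by positivity)]
    linarith
  set a : ℝ := δ / (2 * (C + 1)) with ha
  have ha0 : 0 < a := by positivity
  have ha1 : a * (C + 1) = δ / 2 := by rw [ha]; field_simp
  have ha2 : a ≤ δ / 2 := by nlinarith [mul_nonneg ha0.le (Nat.cast_nonneg (α := ℝ) C)]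
  obtain ⟨C1, hC1, hdiv⟩ := MP_d9fb17_nt.div_bound (ε := a / 2 * δ) (by positivity)
  obtain ⟨N0, hN⟩ := pow_unbounded_of_one_lt (1 + 32 * C1 ^ (2 * e ^ 2)) (by norm_num : (1 : ℝ) < 2)
  refine ⟨(2 * e + 4) * C + N0, a / 2, by positivity, ?_⟩
  intro L L' _ _ _ _ _ _ P P' M M' n n' θ θ' Q Y κ τ κ' τ' χ χ' hF hF' hM hn hM' hn' hW hQ hQ' hθ hθ'
    hκ hτ hκ' hτ' hY hχ hχ'
  have hn2 : 2 ≤ n := by
    have h1 : ((2 : ℕ) : ℤ) ∣ (M : ℤ) := (Dvd.intro _ rfl).trans hF.dvd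
    exact Nat.le_of_dvd (Nat.pos_of_ne_zero hn) ((Int.natCast_dvd_natCast.1 h1).trans hM)
  have hQ2 : (2 : ℝ) ≤ Q := le_trans (by exact_mod_cast hn2) hQ
  obtain ⟨N, _, _, _, κ'', τ'', ψ, hfin, hsm, hκ'', hτ'', hψ, hl, hadj⟩ :=
    hTP k K L L' e P P' M M' n n' θ θ' Q Q κ τ κ' τ' χ χ' hF hF' hM hn hM' hn' hW (by linarith) hθ hθ'
      hκ hτ hκ' hτ' hχ hχ'
  by_cases ht : IsTriv (n * n') ψ
  · exact Or.inl (hadj ht)
  right
  have hdeg : Module.finrank ℚ N = 2 * e ^ 2 := by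
    rw [← Module.finrank_mul_finrank ℚ k N, K.deg, hfin]
  have hY0 : 0 < Y := by linarith
  have hYa : 1 ≤ Y ^ a := Real.one_le_rpow hY ha0.le
  set D : ℕ := ⌊Y ^ a⌋₊ with hDd
  have hD1 : 1 ≤ D := Nat.le_floor (by simpa using hYa)
  have hD1' : (1 : ℝ) ≤ D := by exact_mod_cast hD1
  have hD2 : (D : ℝ) ≤ Y ^ a := Nat.floor_le (by positivity)
  have hD3 : Y ^ a ≤ 2 * D := by linarith [Nat.lt_floor_add_one (Y ^ a)]
  have hT : (⌈3 * Y⌉₊ : ℝ) ≤ 4 * Y := by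
    linarith [Nat.ceil_lt_add_one (show 0 ≤ 3 * Y by positivity)]
  have hψ1 : ∀ I, ‖ψ I‖ ≤ 1 := fun I => by
    by_cases h : Cop (n * n') I
    · exact (hψ.norm_cop I h).le
    · rw [hψ.zero I h]; simp
  have hQe : (2 : ℝ) ≤ Q ^ (2 * e) :=
    hQ2.trans (le_self_pow₀ (by linarith) (by omega))
  have hnn : 2 ≤ n * n' := hn2.trans (Nat.le_mul_of_pos_right n (Nat.pos_of_ne_zero hn'))
  have hlast : tent ((⌈3 * Y⌉₊ : ℕ) / Y - 3 / 2) = 0 := by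
    by_contra h
    have h1 : |((⌈3 * Y⌉₊ : ℕ) : ℝ) / Y - 3 / 2| < 1 := by
      by_contra h'
      exact h (max_eq_left (by linarith))
    have h2 : (3 : ℝ) ≤ ((⌈3 * Y⌉₊ : ℕ) : ℝ) / Y := by
      rw [le_div_iff₀ hY0]
      exact Nat.le_ceil _
    linarith [(abs_lt.1 h1).2]
  have key := VE.Rs.sieve (fun j => (tent (j / Y - 3 / 2) : ℂ) * lam ψ j) ⌈3 * Y⌉₊ D hD1
    ((Q ^ (2 * e + 4) * D) ^ C * Y ^ (1 - δ)) (C1 ^ (2 * e ^ 2) * (4 * Y ^ (a / 2))) (by positivity)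
    (by norm_num [tent]) (fun j hj h0 => by
      have t1 : ‖(tent (j / Y - 3 / 2) : ℂ)‖ ≤ 1 := by
        rw [Complex.norm_real, Real.norm_eq_abs]
        exact RS2.abs_tent_le _
      have t2 := (hLam N).2.1 ψ j (Nat.one_le_iff_ne_zero.2 h0) hψ1
      rw [hdeg] at t2
      have t3 : (j : ℝ) ≤ 4 * Y := (Nat.cast_le.2 hj.le).trans hT
      have t4 : ((j : ℝ) ^ (a / 2 * δ)) ^ (2 * e ^ 2) ≤ 4 * Y ^ (a / 2) := by
        rw [← Real.rpow_natCast, ← Real.rpow_mul (Nat.cast_nonneg j),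
          show a / 2 * δ * ((2 * e ^ 2 : ℕ) : ℝ) = a / 2 by
            rw [hδ, Nat.cast_mul, Nat.cast_ofNat]; field_simp]
        refine (Real.rpow_le_rpow (Nat.cast_nonneg j) t3 (by positivity)).trans ?_
        rw [Real.mul_rpow (by norm_num) hY0.le]
        refine mul_le_mul_of_nonneg_right ?_ (by positivity)
        exact (Real.rpow_le_rpow_of_exponent_le (by norm_num) (by linarith : a / 2 ≤ 1)).trans_eq
          (Real.rpow_one 4)
      rw [norm_mul]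
      refine (mul_le_of_le_one_left (norm_nonneg _) t1).trans (t2.trans ?_)
      refine (pow_le_pow_left₀ (Nat.cast_nonneg _) (hdiv j h0) _).trans ?_
      rw [mul_pow]
      exact mul_le_mul_of_nonneg_left t4 (by positivity))
    fun d hd hd' => by
      have u0 := ((hC N hfin (Q ^ (2 * e)) (n * n') hQe hsm hnn).2 _ 1 Y RS2.bump hY).2 d (2 * Q)
        κ'' τ'' ψ hd (by linarith) hκ'' hτ'' hψ ht
      rw [sum_filter, sum_range_succ, hlast, ← sum_filter, Complex.ofReal_zero, zero_mul, ite_self,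
        add_zero, mul_one] at u0
      refine u0.trans (mul_le_mul_of_nonneg_right (pow_le_pow_left₀ (by positivity) ?_ C)
          (by positivity))
      have u1 : ((n * n' : ℕ) : ℝ) ≤ Q ^ 2 := by
        rw [Nat.cast_mul, sq]
        exact mul_le_mul hQ hQ' (Nat.cast_nonneg _) (by linarith)
      have u3 : (d : ℝ) ≤ D := by exact_mod_cast hd'
      calc _ ≤ Q ^ (2 * e) * Q ^ 2 * D * (Q * Q) := by gcongr
        _ = _ := by ring
  have e1 : ∑ j ∈ range ⌈3 * Y⌉₊ with Squarefree j,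
      (tent (j / Y - 3 / 2) : ℂ) * lam (fun 𝔪 => lamk k χ 𝔪 * conj (lamk k χ' 𝔪)) j =
      ∑ j ∈ range ⌈3 * Y⌉₊ with Squarefree j, (tent (j / Y - 3 / 2) : ℂ) * lam ψ j :=
    sum_congr rfl fun j hj => by rw [hl j (mem_filter.1 hj).2]
  rw [e1]
  refine key.trans ?_
  have hQ6 : 1 ≤ Q ^ ((2 * e + 4) * C) := one_le_pow₀ (by linarith)
  have m1 : (D : ℝ) * ((Q ^ (2 * e + 4) * D) ^ C * Y ^ (1 - δ)) ≤
      Q ^ ((2 * e + 4) * C) * Y ^ (1 - a / 2) := by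
    have v1 : (D : ℝ) ^ (C + 1) ≤ Y ^ (δ / 2) := by
      refine (pow_le_pow_left₀ (by positivity) hD2 _).trans_eq ?_
      rw [← Real.rpow_natCast, ← Real.rpow_mul hY0.le, Nat.cast_add, Nat.cast_one, ha1]
    have v2 : Y ^ (δ / 2) * Y ^ (1 - δ) ≤ Y ^ (1 - a / 2) := by
      rw [← Real.rpow_add hY0]
      exact Real.rpow_le_rpow_of_exponent_le hY (by linarith)
    calc _ = Q ^ ((2 * e + 4) * C) * ((D : ℝ) ^ (C + 1) * Y ^ (1 - δ)) := by
          rw [mul_pow, ← pow_mul]; ring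
      _ ≤ Q ^ ((2 * e + 4) * C) * (Y ^ (δ / 2) * Y ^ (1 - δ)) := by gcongr
      _ ≤ _ := by gcongr
  have m2 : C1 ^ (2 * e ^ 2) * (4 * Y ^ (a / 2)) * (⌈3 * Y⌉₊ : ℕ) / D ≤
      32 * C1 ^ (2 * e ^ 2) * Y ^ (1 - a / 2) := by
    rw [div_le_iff₀ (by positivity)]
    have v1 : Y ^ (a / 2) * Y = Y ^ (1 - a / 2) * Y ^ a := by
      rw [← Real.rpow_add hY0, ← Real.rpow_add_one hY0.ne']
      congr 1; ring
    calc _ ≤ C1 ^ (2 * e ^ 2) * (4 * Y ^ (a / 2)) * (4 * Y) := by gcongr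
      _ = 16 * C1 ^ (2 * e ^ 2) * Y ^ (1 - a / 2) * Y ^ a := by
          rw [mul_assoc _ _ (Y ^ a), ← v1]; ring
      _ ≤ 16 * C1 ^ (2 * e ^ 2) * Y ^ (1 - a / 2) * (2 * D) := by gcongr
      _ = _ := by ring
  have m3 : 1 + 32 * C1 ^ (2 * e ^ 2) ≤ Q ^ N0 :=
    hN.le.trans (pow_le_pow_left₀ (by norm_num) hQ2 N0)
  have hp : 0 ≤ Y ^ (1 - a / 2) := by positivity
  calc _ ≤ Q ^ ((2 * e + 4) * C) * Y ^ (1 - a / 2) + 32 * C1 ^ (2 * e ^ 2) * Y ^ (1 - a / 2) :=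
        add_le_add m1 m2
    _ ≤ Q ^ ((2 * e + 4) * C) * Y ^ (1 - a / 2) +
        Q ^ ((2 * e + 4) * C) * (32 * C1 ^ (2 * e ^ 2) * Y ^ (1 - a / 2)) :=
      add_le_add le_rfl (le_mul_of_one_le_left (by positivity) hQ6)
    _ = Q ^ ((2 * e + 4) * C) * (1 + 32 * C1 ^ (2 * e ^ 2)) * Y ^ (1 - a / 2) := by ring
    _ ≤ Q ^ ((2 * e + 4) * C) * Q ^ N0 * Y ^ (1 - a / 2) := by gcongr
    _ = _ := by rw [pow_add]

end Pool.Agent.P.MP_b8021b_nt.VC
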