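import Pool.Agent.P.MP_b8021b_nt.VC.PRad5

/-! Two base sections that differ by a power of a given unit at one point. -/

namespace Pool.Agent.P.MP_b8021b_nt.VC

open Polynomial Finset NumberField Filter Pool.Agent.P.MP_b8021b_nt.VE
open scoped IntermediateField Classical

namespace Rad

theorem window {c₁ c₃ ρ : ℝ} (h1 : 0 < c₁) (h2 : c₁ < c₃) (h3 : c₃ ≤ 1) (h4 : 0 < ρ) (h5 : ρ < 1) :
    ∃ j l : ℕ, 0 < j ∧ c₁ ^ j < ρ ^ l ∧ ρ ^ l < c₃ ^ j := by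
  have h6 := h1.trans h2
  obtain ⟨j, hj⟩ := exists_pow_lt_of_lt_one h4 ((div_lt_one h6).2 h2)
  obtain ⟨l, h7, h8⟩ := exists_nat_pow_near_of_lt_one (pow_pos h6 j) (pow_le_one₀ h6.le h3) h4 h5
  refine ⟨j, l + 1, Nat.pos_of_ne_zero ?_, ?_, h7⟩
  · rintro rfl
    rw [pow_zero] at hj
    exact hj.not_gt h5
  · rw [div_pow, div_lt_iff₀ (pow_pos h6 j)] at hj
    rw [pow_succ']
    exact hj.trans_le (mul_le_mul_of_nonneg_left h8 h4.le)

theorem window2 {u v ρ : ℝ} {l : ℕ} (h1 : 0 < u) (h2 : u < ρ ^ l) (h3 : ρ ^ l < v) (h6 : v ≤ 1)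
    (h4 : 0 < ρ) (h5 : ρ < 1) (b : ℤ) :
    ∃ N l' : ℕ, 0 < N ∧ (ρ ^ l) ^ N * ρ ^ b = ρ ^ l' ∧ u ^ N < ρ ^ l' ∧ ρ ^ l' < v ^ N := by
  have h7 := pow_pos h4 l
  have h8 := h7.trans h3
  have h9 := zpow_pos h4 b
  obtain ⟨N, hN, k1, k2⟩ := ((eventually_gt_atTop 0).and
    (((tendsto_pow_atTop_nhds_zero_of_lt_one (div_pos h1 h7).le
      ((div_lt_one h7).2 h2)).eventually_lt_const h9).and
    ((tendsto_pow_atTop_nhds_zero_of_lt_one (div_pos h7 h8).le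
      ((div_lt_one h8).2 h3)).eventually_lt_const (inv_pos.2 h9)))).exists
  rw [div_pow, div_lt_iff₀' (pow_pos h7 N)] at k1
  rw [div_pow, div_lt_iff₀' (pow_pos h8 N), ← div_eq_mul_inv, lt_div_iff₀ h9] at k2
  have e : (ρ ^ l) ^ N * ρ ^ b = ρ ^ (((l * N : ℕ) : ℤ) + b) := by
    rw [zpow_add₀ h4.ne', zpow_natCast, pow_mul]
  obtain ⟨l', hl⟩ := Int.eq_ofNat_of_zero_le ((zpow_lt_one_iff_right_of_lt_one₀ h4 h5).1
    (e ▸ k2.trans_le (pow_le_one₀ h8.le h6))).le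
  rw [hl, zpow_natCast] at e
  exact ⟨N, l', hN, e, e ▸ k1, e ▸ k2⟩

variable {r : ℕ} [Fact r.Prime]

namespace Ctx

variable {R A A' : Type} [CommRing R] [Algebra ℤ[X] R] [CommRing A] [Algebra ℚ A] [CommRing A']
  [Algebra ℚ A'] {F : IntermediateField ℚ_[r] (PadicAlgCl r)} {B : Type} [CommRing B]
  [Algebra F B] (c : Ctx R A A' r F B)

theorem ker_eq {P Q : B →ₐ[F] PadicAlgCl r} (g : PadicAlgCl r ≃ₐ[ℚ_[r]] PadicAlgCl r)
    (h : ∀ x, P (c.ψ x) = g (Q (c.ψ x))) : RingHom.ker P = RingHom.ker Q := by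
  have hw : g c.w = c.w := by
    have := h c.D.ω
    rw [c.ψω, P.commutes, Q.commutes] at this
    exact this.symm
  have hF : ∀ t : F, g t = t := fun t => by
    obtain ⟨α, β, e⟩ := c.hF t
    rw [e, map_add, map_mul, g.commutes, g.commutes, hw]
  have key : ∀ x, P x = g (Q x) := fun x => by
    refine Submodule.span_induction (p := fun x _ => P x = g (Q x)) ?_ (by simp)
      (fun a b _ _ ha hb => by simp [ha, hb]) (fun t a _ ha => ?_) (c.span _ (le_refl (c.cvB.δ x)))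
    · rintro _ ⟨a, -, rfl⟩
      rw [← c.ψj, h]
    · rw [map_smul', map_smul', map_mul, hF, ha]
  ext x
  simp [RingHom.mem_ker, key]

theorem main [IsDedekindDomain A'] [FiniteDimensional ℚ_[r] F] (hCv : S_Cv) (hP : S_Pts)
    (hI : S_Inf) (hL : S_Lem) (hO : S_Ord) (σ : A' →+* Qb) (τ₀ : A' →+* PadicAlgCl r) (γ : A')
    (h0 : σ c.G = 0) (hγ : RU r (σ γ)) (hk : RingHom.ker τ₀ = RingHom.ker σ)
    (hτ : ∀ τ : A' →+* PadicAlgCl r, RingHom.ker τ = RingHom.ker σ → ‖τ γ‖ = 1 ∨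
      ∃ g : PadicAlgCl r ≃ₐ[ℚ_[r]] PadicAlgCl r, ∀ a, τ a = g (τ₀ a)) :
    ∃ (p p' : Par R) (n n' i a b : ℕ), p.toMod = c.m ∧ p'.toMod = c.m ∧ p.r = r ∧ p'.r = r ∧
      1 ≤ i ∧ ∀ Q : Ideal A', Q.IsMaximal → c.G ∈ Q →
        (r : A') ^ a * c.D.fn c.j p.toTab p.g0 p.k0 ^ n *
          (if Q = RingHom.ker σ then γ ^ i else 1) -
          (r : A') ^ b * c.D.fn c.j p'.toTab p'.g0 p'.k0 ^ n' ∈ Q := by
  obtain ⟨P₀, g₀, e₀⟩ := c.pt τ₀
  have t0 : τ₀ c.G = 0 := by rwa [← RingHom.mem_ker, hk]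
  have hG0 : P₀ (c.ψ c.G) = 0 := g₀.injective (by rw [← e₀, t0, map_zero])
  obtain ⟨n₀, hn₀⟩ := (hCv F B c.cvB).2.2.2.2.2.2.2.1
  obtain ⟨s, c₁, c₃, C, a, b, -, s1, s2, s3, s4, s5, s6, s7, s8, s9⟩ := hL r F B c.cvB P₀ (c.ψ c.G)
    (dg F (Ideal.span {c.ψ c.G}) + n₀ + 1) c.ψG_ne hG0
  have L : c.Lm P₀ s c₁ c₃ C a b := ⟨by omega, hn₀ _ (span_ne_bot c.ψG_ne) _ (by omega), s2, s3, s4,
    s5, s6, s7, s8, s9⟩
  have r0 := norm_r_pos (r := r)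
  obtain ⟨j, l, hj, w₁, w₃⟩ := window s2 s3 s4 r0 norm_r_lt
  obtain ⟨ε, -, hε⟩ := exists_idem hP c.cvB c.ψG_ne P₀
  have hu : ∀ P : B →ₐ[F] PadicAlgCl r, P (c.ψ c.G) = 0 →
      (RingHom.ker P = RingHom.ker P₀ →
        ‖P (s ^ j * (1 - ε) + (r : B) ^ l * ε)‖ = ‖(r : PadicAlgCl r)‖ ^ l) ∧
      (RingHom.ker P ≠ RingHom.ker P₀ → ‖P (s ^ j * (1 - ε) + (r : B) ^ l * ε)‖ = ‖P s‖ ^ j) :=
    fun P h => ⟨fun h' => by simp [(hε P h).1 h'], fun h' => by simp [(hε P h).2 h']⟩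
  obtain ⟨x, h, hh, hx, hx'⟩ := c.unit_B hP (u := s ^ j * (1 - ε) + (r : B) ^ l * ε) fun P h => by
    rw [← norm_pos_iff]
    by_cases h' : RingHom.ker P = RingHom.ker P₀
    · exact (hu P h).1 h' ▸ pow_pos r0 l
    · exact (hu P h).2 h' ▸ pow_pos ((s2.trans s3).trans_le (s9 P h h')) j
  have w₁' : c₁ ^ (j * h) < ‖(r : PadicAlgCl r)‖ ^ (l * h) := by
    rw [pow_mul, pow_mul]; exact pow_lt_pow_left₀ w₁ (by positivity) hh.ne'
  have w₃' : ‖(r : PadicAlgCl r)‖ ^ (l * h) < c₃ ^ (j * h) := by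
    rw [pow_mul, pow_mul]; exact pow_lt_pow_left₀ w₃ (by positivity) hh.ne'
  have hΓ : ∀ P : B →ₐ[F] PadicAlgCl r, P (c.ψ c.G) = 0 →
      (RingHom.ker P = RingHom.ker P₀ → ‖P (c.ψ x)‖ = ‖(r : PadicAlgCl r)‖ ^ (l * h)) ∧
      (RingHom.ker P ≠ RingHom.ker P₀ → ‖P (c.ψ x)‖ = ‖P s‖ ^ (j * h)) := fun P h =>
    ⟨fun h' => by rw [hx' P h, (hu P h).1 h', pow_mul],
      fun h' => by rw [hx' P h, (hu P h).2 h', pow_mul]⟩
  obtain ⟨p, n, hn, p1, p2, p3⟩ := L.par hCv hP hI hO hx (Nat.mul_pos hj hh) hΓ w₁' w₃'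
  obtain ⟨y, hy⟩ := crt c.G_ne fun Q => if Q.1.asIdeal = RingHom.ker σ then γ else 1
  have hy' : ∀ {L : Type} [Field L] (f : A' →+* L), f c.G = 0 →
      f y = if RingHom.ker f = RingHom.ker σ then f γ else 1 := fun f hf => by
    have := hy _ (ker_max' c.G_ne hf) hf
    rw [RingHom.mem_ker, map_sub, sub_eq_zero, apply_ite f, map_one] at this
    exact this
  have y1 : ∀ σ' : A' →+* Qb, σ' c.G = 0 → RU r (σ' y) := fun σ' h => by
    rw [hy' σ' h]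
    split_ifs with h'
    · have := PAlg.finiteType c.D c.m.toTab c.hj
      obtain ⟨K, _, _, π, hπ, hk⟩ := PAlg.exists_res _ (ker_max' c.G_ne h0)
      obtain ⟨f, e⟩ := PAlg.exists_fac π hπ σ hk.le
      obtain ⟨f', e'⟩ := PAlg.exists_fac π hπ σ' (hk.trans h'.symm).le
      exact e' γ ▸ ru_tr f f' (e γ ▸ hγ)
    · exact ru_one
  obtain ⟨a₀, b₀, ha₀, hb₀⟩ := norm_pow_eq (x := τ₀ γ) fun h => hγ.1 (by
    rwa [← RingHom.mem_ker, ← hk])
  obtain ⟨N, l', hN, e, v₁, v₃⟩ := window2 (by positivity) w₁' w₃'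
    (pow_le_one₀ (s2.trans s3).le s4) r0 norm_r_lt b₀
  rw [← pow_mul] at v₁ v₃
  obtain ⟨p', n', hn', q1, q2, q3⟩ := L.par hCv hP hI hO (x := x ^ N * y ^ a₀) (fun σ' h => by
      rw [map_mul, map_pow, map_pow]
      exact ru_mul (ru_pow (hx σ' h) _) (ru_pow (y1 σ' h) _))
    (Nat.mul_pos (Nat.mul_pos hj hh) hN) (fun P h => by
      simp only [map_mul, map_pow, norm_mul, norm_pow]
      refine ⟨fun h' => ?_, fun h' => ?_⟩
      · rw [(hΓ P h).1 h', norm_of_ker hP c.cvB h'.symm, ← norm_aut g₀ (P₀ _), ← e₀, hy' τ₀ t0,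
          if_pos hk, hb₀, e]
      · have h1 : ‖P (c.ψ y)‖ = 1 := by
          refine (congrArg norm (hy' (P.toRingHom.comp c.ψ) h)).trans ?_
          split_ifs with h2
          · refine (hτ _ h2).resolve_right fun ⟨g, hg⟩ => h' (c.ker_eq (g₀.trans g) fun z => ?_)
            rw [AlgEquiv.trans_apply, ← e₀]
            exact hg z
          · exact norm_one
        rw [(hΓ P h).2 h', h1, one_pow, mul_one, ← pow_mul]) v₁ v₃
  have f1 := (rel c.G r).mul ((rel c.G r).pow (N * n') p3) ((rel c.G r).refl (y ^ (a₀ * n' * n)))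
  have f2 := (rel c.G r).pow n q3
  rw [show (x ^ n) ^ (N * n') * y ^ (a₀ * n' * n) = ((x ^ N * y ^ a₀) ^ n') ^ n by ring] at f1
  obtain ⟨α, β, f3⟩ := (rel c.G r).trans f1 ((rel c.G r).symm f2)
  refine ⟨p, p', N * n', n, a₀ * n' * n, α, β, p1, q1, p2, q2,
    Nat.mul_pos (Nat.mul_pos ha₀ hn') hn, fun Q hQ hG => ?_⟩
  have f4 := Ideal.mem_of_dvd _ (sub_dvd_pow_sub_pow _ _ (a₀ * n' * n)) (hy Q hQ hG)
  rw [ite_pow, one_pow] at f4
  have f5 := sub_mem (Ideal.mem_of_dvd _ f3 hG) (Q.mul_mem_left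
    ((r : A') ^ α * c.D.fn c.j p.toTab p.g0 p.k0 ^ (N * n')) f4)
  exact (congrArg (· ∈ Q) (by ring)).mp f5

end Ctx

theorem exists_w : ∃ w : PadicAlgCl r, w ^ 2 = -r ∧
    ∃ τ : PadicAlgCl r ≃ₐ[ℚ_[r]] PadicAlgCl r, τ w = -w := by
  obtain ⟨w, hw⟩ := IsAlgClosed.exists_pow_nat_eq (-r : PadicAlgCl r) two_pos
  have hi : Irreducible (X ^ 2 - C (-r : ℚ_[r])) :=
    X_pow_sub_C_irreducible_of_prime Nat.prime_two fun b hb => by
      have := congrArg Padic.valuation hb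
      rw [Padic.valuation_pow, ← neg_one_mul, Padic.valuation_mul (by simp)
        (Nat.cast_ne_zero.2 (Fact.out : r.Prime).ne_zero), Padic.valuation_p] at this
      have h1 : (-1 : ℚ_[r]).valuation = 0 := by
        have := Padic.valuation_pow (-1 : ℚ_[r]) 2
        rw [neg_one_sq, Padic.valuation_one] at this
        omega
      omega
  have hm := minpoly.eq_of_irreducible_of_monic hi (x := w) (by simp [hw]) (monic_X_pow_sub_C _
    two_ne_zero)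
  obtain ⟨τ, hτ⟩ := (isConjRoot_of_aeval_eq_zero (Algebra.IsIntegral.isIntegral (R := ℚ_[r]) w)
    (y := -w) (by rw [← hm]; simp [hw])).symm.exists_algEquiv
  exact ⟨w, hw, τ, hτ⟩

theorem exists_coord {w : PadicAlgCl r} (hw : w ^ 2 = -r) {x : PadicAlgCl r} (hx : x ∈ ℚ_[r]⟮w⟯) :
    ∃ α β : ℚ_[r], x = algebraMap _ _ α + algebraMap _ _ β * w := by
  rw [← IntermediateField.mem_toSubalgebra,
    IntermediateField.adjoin_simple_toSubalgebra_of_isAlgebraic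
      (Algebra.IsAlgebraic.isAlgebraic w)] at hx
  induction hx using Algebra.adjoin_induction with
  | mem x hx => exact ⟨0, 1, by simpa using hx⟩
  | algebraMap a => exact ⟨a, 0, by simp⟩
  | add x y _ _ hx hy =>
    obtain ⟨a, b, rfl⟩ := hx
    obtain ⟨a', b', rfl⟩ := hy
    exact ⟨a + a', b + b', by simp only [map_add]; ring⟩
  | mul x y _ _ hx hy =>
    obtain ⟨a, b, rfl⟩ := hx
    obtain ⟨a', b', rfl⟩ := hy
    refine ⟨a * a' - r * (b * b'), a * b' + b * a', ?_⟩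
    simp only [map_add, map_sub, map_mul, map_natCast]
    linear_combination algebraMap _ _ b * algebraMap _ _ b' * hw

end Rad

open Rad in
theorem p_rad (hCv : S_Cv) (hP : S_Pts) (hBC : S_BC) (hI : S_Inf) (hL : S_Lem) (hO : S_Ord) :
    S_Rad := by
  intro R A A' _ _ _ _ _ _ _ cv r _ D m j σ τ₀ γ hre hj hz hy h0 hγ hk hτ
  obtain ⟨w, hw, τ, hτw⟩ := exists_w (r := r)
  have : FiniteDimensional ℚ_[r] ℚ_[r]⟮w⟯ :=
    IntermediateField.adjoin.finiteDimensional (Algebra.IsIntegral.isIntegral w)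
  obtain ⟨B, _, _, cvB, ι, h1, h2, h3, h4, h5, -⟩ := hBC ℚ ℚ_[r]⟮w⟯ A cv
  let w' : ℚ_[r]⟮w⟯ := ⟨w, IntermediateField.mem_adjoin_simple_self _ w⟩
  have hw' : w' ^ 2 = -r := Subtype.ext (by simpa using hw)
  obtain ⟨ψ, h6, h7⟩ := D.exists_lift ι (algebraMap _ B w') (by
    rw [← map_pow, hw', map_neg, map_natCast])
  exact Ctx.main ⟨cv, D, m, j, hj, hz, hy, hre, w', hw', fun x => exists_coord hw x.2, τ, hτw, cvB,
    ι, h2, h3, h4, fun f => by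
      obtain ⟨g, e1, e2⟩ := h5 _ (algebraMap _ (PadicAlgCl r)) f fun c => by simp
      exact ⟨⟨g, e2⟩, e1⟩, ψ, h6, h7⟩ hCv hP hI hL hO σ τ₀ γ h0 hγ hk hτ

end Pool.Agent.P.MP_b8021b_nt.VC
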