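import Pool.Agent.P.MP_b8021b_nt.VC.StS
import Pool.Agent.P.MP_b8021b_nt.VE.BasicS

/-! Restriction of geometric points along a finite extension (after the files of helper97). -/

namespace Pool.Agent.P.MP_b8021b_nt.VC

open Polynomial Finset WithZero
open Pool.Agent.P.MP_b8021b_nt.VE
open scoped Classical WithZero

namespace ResP

variable {F M K : Type} [Field F] [Field M] [Field K]

/-- `q` lies over `p` along `j` -/
def Over (j : F →+* M) (q : GPt M) (p : GPt F) : Prop := ∀ a c, p.Val a c → q.Val (j a) c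

/-- a uniformiser -/
noncomputable def unif (p : GPt K) : K := (p.surj (WithZero.exp (-1))).choose

/-- the ramification index of `q` over `p` -/
noncomputable def ram (j : F →+* M) (q : GPt M) (p : GPt F) : ℤ := q.ord (j (unif p))

/-- the point `a ↦ q (g a)` -/
noncomputable def pull (g : K ≃+* M) (q : GPt M) : GPt K where
  v := q.v.comap g.toRingHom
  ρ := q.ρ.comp ((g.toRingHom.comp (q.v.comap g.toRingHom).valuationSubring.subtype).codRestrict
    q.v.valuationSubring.toSubring fun a => a.2)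
  surj := q.surj.comp g.surjective
  ker a := q.ker ⟨g a, a.2⟩

theorem pull_Val (g : K ≃+* M) (q : GPt M) (a : K) (c : Qb) :
    (pull g q).Val a c ↔ q.Val (g a) c := Iff.rfl

theorem ne_top (p : GPt K) : p.v.valuationSubring ≠ ⊤ := by
  intro h
  obtain ⟨x, hx⟩ := p.surj (exp 1)
  have : x ∈ p.v.valuationSubring := by rw [h]; trivial
  rw [Valuation.mem_valuationSubring_iff, hx, ← exp_zero, exp_le_exp] at this
  omega

theorem charZero_of (p : GPt K) : CharZero K :=
  ⟨fun m n h => by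
    have h1 := p.val_natCast m
    rw [h] at h1
    exact Nat.cast_injective (h1.unique (p.val_natCast n))⟩

theorem ord_zpow (p : GPt K) (a : K) (n : ℤ) : p.ord (a ^ n) = n * p.ord a := by
  simp only [GPt.ord, map_zpow₀, log_zpow, smul_eq_mul, mul_neg]

theorem v_unif (p : GPt K) : p.v (unif p) = exp (-1) := (p.surj (exp (-1))).choose_spec

theorem ord_unif (p : GPt K) : p.ord (unif p) = 1 := by simp [GPt.ord, v_unif]

theorem unif_ne (p : GPt K) : unif p ≠ 0 := fun h => by
  have := ord_unif p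
  rw [h, p.ord_zero] at this
  exact zero_ne_one this

theorem Val_unif (p : GPt K) : p.Val (unif p) 0 := p.val_zero_of_ord_pos (by simp [ord_unif])

theorem ext_Val {p q : GPt K} (h : ∀ a c, p.Val a c → q.Val a c) : p = q := by
  have h1 : ∀ a : K, a ≠ 0 → q.ord a = q.ord (unif p) * p.ord a := fun a ha => by
    have h2 : p.ord (a / unif p ^ p.ord a) = 0 := by
      rw [p.ord_div ha (zpow_ne_zero _ (unif_ne p)), ord_zpow, ord_unif]; ring
    obtain ⟨c, hc, h3⟩ := p.exists_val_ne (div_ne_zero ha (zpow_ne_zero _ (unif_ne p))) h2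
    have h4 := (h _ _ h3).ord_eq_zero hc
    rw [q.ord_div ha (zpow_ne_zero _ (unif_ne p)), ord_zpow] at h4
    linarith
  have h2 : q.ord (unif p) = 1 := by
    have h3 := h1 _ (unif_ne q)
    rw [ord_unif] at h3
    exact Int.eq_one_of_mul_eq_one_right ((h _ _ (Val_unif p)).ord_pos (unif_ne p)).le h3.symm
  refine GPt.ext_val (Valuation.ext fun a => ?_) h
  rcases eq_or_ne a 0 with rfl | ha
  · simp
  · rw [p.v_eq ha, q.v_eq ha, h1 a ha, h2, one_mul]

namespace Over

variable {j : F →+* M} {q : GPt M} {p : GPt F}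

theorem ram_pos (h : Over j q p) : 1 ≤ ram j q p :=
  (h _ _ (Val_unif p)).ord_pos ((map_ne_zero j).2 (unif_ne p))

theorem ord (h : Over j q p) (a : F) : q.ord (j a) = ram j q p * p.ord a := by
  rcases eq_or_ne a 0 with rfl | ha
  · simp [GPt.ord_zero]
  have h2 : p.ord (a / unif p ^ p.ord a) = 0 := by
    rw [p.ord_div ha (zpow_ne_zero _ (unif_ne p)), ord_zpow, ord_unif]; ring
  obtain ⟨c, hc, h3⟩ := p.exists_val_ne (div_ne_zero ha (zpow_ne_zero _ (unif_ne p))) h2
  have h4 := (h _ _ h3).ord_eq_zero hc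
  rw [map_div₀, map_zpow₀, q.ord_div ((map_ne_zero j).2 ha)
    (zpow_ne_zero _ ((map_ne_zero j).2 (unif_ne p))), ord_zpow] at h4
  rw [ram]; linarith

theorem mem_iff (h : Over j q p) (a : F) :
    j a ∈ q.v.valuationSubring ↔ a ∈ p.v.valuationSubring := by
  rw [← not_iff_not, ← q.ord_neg_iff, ← p.ord_neg_iff, h.ord]
  have := h.ram_pos
  exact ⟨fun h1 => by nlinarith, fun h1 => by nlinarith⟩

theorem Val_iff (h : Over j q p) (a : F) (c : Qb) : q.Val (j a) c ↔ p.Val a c :=
  ⟨fun h1 => by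
    have h2 : p.Val a (p.ρ ⟨a, (h.mem_iff a).1 h1.mem⟩) := ⟨_, rfl⟩
    exact (h _ _ h2).unique h1 ▸ h2, h a c⟩

theorem unique {p' : GPt F} (h : Over j q p) (h' : Over j q p') : p = p' :=
  ext_Val fun a c h1 => (h'.Val_iff a c).1 (h a c h1)

end Over

/-- elements that are integral over regular functions are regular -/
theorem mem_of_int (q : GPt M) {R : Type} [CommRing R] [Algebra R M]
    (h : ∀ r, algebraMap R M r ∈ q.v.valuationSubring) {x : M} (hx : IsIntegral R x) :
    x ∈ q.v.valuationSubring := by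
  refine (Valuation.integer.integers q.v).mem_of_integral ?_
  obtain ⟨P, hP, h0⟩ := hx
  let j : R →+* q.v.integer := (algebraMap R M).codRestrict q.v.integer h
  exact ⟨P.map j, hP.map j, by rw [eval₂_map]; exact h0⟩

theorem dvr (p : GPt K) : IsDiscreteValuationRing p.v.valuationSubring := by
  have : p.v.IsNontrivial := ⟨unif p, by simp [v_unif], by simp [v_unif]⟩
  infer_instance

/-- values of the coefficients of a polynomial -/
def PVal (p : GPt K) (P : K[X]) (Q : Qb[X]) : Prop := ∀ i, p.Val (P.coeff i) (Q.coeff i)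

namespace PVal

variable {p : GPt K} {P P' : K[X]} {Q Q' : Qb[X]}

theorem mul (h : PVal p P Q) (h' : PVal p P' Q') : PVal p (P * P') (Q * Q') := fun i => by
  rw [coeff_mul, coeff_mul]
  exact GPt.Val.sum _ fun x _ => (h _).mul (h' _)

theorem sub (h : PVal p P Q) (h' : PVal p P' Q') : PVal p (P - P') (Q - Q') := fun i => by
  rw [coeff_sub, coeff_sub]
  exact (h i).sub (h' i)

theorem C {a : K} {c : Qb} (h : p.Val a c) : PVal p (C a) (C c) := fun i => by
  rw [coeff_C, coeff_C]
  split_ifs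
  exacts [h, p.val_zero]

theorem X : PVal p X X := fun i => by
  rw [coeff_X, coeff_X]
  split_ifs
  exacts [p.val_one, p.val_zero]

theorem prod {ι : Type*} (s : Finset ι) {f : ι → K[X]} {g : ι → Qb[X]}
    (h : ∀ i ∈ s, PVal p (f i) (g i)) : PVal p (∏ i ∈ s, f i) (∏ i ∈ s, g i) := by
  induction s using Finset.induction_on with
  | empty => simpa using C p.val_one
  | insert i s hi ih =>
    rw [prod_insert hi, prod_insert hi]
    exact (h i (mem_insert_self _ _)).mul (ih fun j hj => h j (mem_insert_of_mem hj))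

theorem unique (h : PVal p P Q) (h' : PVal p P Q') : Q = Q' :=
  Polynomial.ext fun i => (h i).unique (h' i)

end PVal

theorem count {R S : Type} [CommRing R] [IsDomain R] [CommRing S] [IsDedekindDomain S]
    [Algebra R S] [Module.Finite R S] [Module.Free R S] (ρ : R →+* Qb) (π : R) (hπ : π ≠ 0)
    (hm : RingHom.ker ρ = Ideal.span {π}) [hmax : (RingHom.ker ρ).IsMaximal] :
    {σ : S →+* Qb | σ.comp (algebraMap R S) = ρ}.Finite ∧
    ∑ᶠ σ ∈ {σ : S →+* Qb | σ.comp (algebraMap R S) = ρ},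
      (multiplicity (RingHom.ker σ) (Ideal.span {algebraMap R S π}) : ℤ) = Module.finrank R S := by
  set m := RingHom.ker ρ with hmd
  have hfin := IsDedekindDomain.primesOver_finite m S
  let _ : Fintype (m.primesOver S) := hfin.fintype
  let _ : Field (R ⧸ m) := Ideal.Quotient.field m
  let _ : Algebra (R ⧸ m) Qb := (RingHom.kerLift ρ).toAlgebra
  have : CharZero (R ⧸ m) := (RingHom.kerLift ρ).charZero
  have hmx : ∀ P : m.primesOver S, P.1.IsMaximal := fun P => Ideal.IsMaximal.of_liesOver_isMaximal P.1 m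
  have hc : ∀ P : m.primesOver S, Finite ((S ⧸ P.1) →ₐ[R ⧸ m] Qb) ∧
      Nat.card ((S ⧸ P.1) →ₐ[R ⧸ m] Qb) = P.1.inertiaDeg R := fun P => by
    have := hmx P
    let _ : Field (S ⧸ P.1) := Ideal.Quotient.field P.1
    have : Module.Finite (R ⧸ m) (S ⧸ P.1) := Module.Finite.of_restrictScalars_finite R _ _
    refine ⟨inferInstance, ?_⟩
    rw [Ideal.inertiaDeg_eq_of_isMaximal m P.1, Nat.card_eq_fintype_card, AlgHom.card]
  let _ : ∀ P : m.primesOver S, Fintype ((S ⧸ P.1) →ₐ[R ⧸ m] Qb) := fun P =>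
    @Fintype.ofFinite _ (hc P).1
  let Φ : (Σ P : m.primesOver S, ((S ⧸ P.1) →ₐ[R ⧸ m] Qb)) → (S →+* Qb) := fun x =>
    x.2.toRingHom.comp (Ideal.Quotient.mk x.1.1)
  have hker : ∀ x, RingHom.ker (Φ x) = x.1.1 := fun x => by
    have := hmx x.1
    let _ : Field (S ⧸ x.1.1) := Ideal.Quotient.field x.1.1
    ext s
    rw [RingHom.mem_ker, ← Ideal.Quotient.eq_zero_iff_mem]
    exact map_eq_zero_iff x.2.toRingHom x.2.toRingHom.injective
  have hinj : Function.Injective Φ := by
    rintro ⟨P, φ⟩ ⟨P', φ'⟩ h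
    obtain rfl : P = P' := Subtype.ext ((hker ⟨P, φ⟩).symm.trans (h ▸ hker ⟨P', φ'⟩))
    congr 1
    ext s
    obtain ⟨s, rfl⟩ := Ideal.Quotient.mk_surjective s
    exact RingHom.congr_fun h s
  have hr : {σ : S →+* Qb | σ.comp (algebraMap R S) = ρ} = Set.range Φ := by
    ext σ
    constructor
    · intro h
      have h1 : (RingHom.ker σ).LiesOver m := ⟨by rw [hmd, ← h]; rfl⟩
      refine ⟨⟨⟨RingHom.ker σ, RingHom.ker_isPrime σ, h1⟩, ⟨RingHom.kerLift σ, fun r => ?_⟩⟩, ?_⟩
      · obtain ⟨r, rfl⟩ := Ideal.Quotient.mk_surjective r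
        exact RingHom.congr_fun h r
      · ext s
        rfl
    · rintro ⟨⟨P, φ⟩, rfl⟩
      ext r
      exact φ.commutes (Ideal.Quotient.mk m r)
  have hmap : m.map (algebraMap R S) = Ideal.span {algebraMap R S π} := by
    rw [hm, Ideal.map_span, Set.image_singleton]
  have hne : m.map (algebraMap R S) ≠ ⊥ := by
    rw [hmap, Ne, Ideal.span_singleton_eq_bot]
    exact (map_ne_zero_iff _ (FaithfulSMul.algebraMap_injective R S)).2 hπ
  rw [hr]
  refine ⟨Set.finite_range Φ, ?_⟩
  rw [finsum_mem_range hinj, finsum_eq_sum_of_fintype, ← Ideal.sum_ramification_inertia_eq_finrank m S,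
    Fintype.sum_sigma, Nat.cast_sum]
  refine sum_congr rfl fun P _ => ?_
  simp only [hker]
  rw [sum_const, card_univ, ← Nat.card_eq_fintype_card, (hc P).2,
    Ideal.IsDedekindDomain.ramificationIdx_eq_multiplicity m P.1 hne, hmap]
  simp [mul_comm]

variable [Algebra F M] [FiniteDimensional F M]

theorem exists_over (hS : VE.S_S0) (q : GPt M) : ∃ p, Over (algebraMap F M) q p := by
  let v := q.v.comap (algebraMap F M)
  have : v.IsNontrivial := by
    by_contra h
    refine ne_top q (eq_top_iff.2 fun x _ => mem_of_int (R := F) q (fun r => ?_)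
      (Algebra.IsIntegral.isIntegral x))
    by_contra h1
    exact h ⟨r, fun h2 => h1 (by change v r ≤ 1; simp [h2]), fun h2 => h1 (le_of_eq h2)⟩
  let σ : v.valuationSubring →+* Qb := q.ρ.comp (((algebraMap F M).comp
    v.valuationSubring.subtype).codRestrict q.v.valuationSubring.toSubring fun a => a.2)
  have hσ : ∀ a : v.valuationSubring, q.Val (algebraMap F M a) (σ a) := fun a => ⟨a.2, rfl⟩
  have h0 : ∀ a : F, algebraMap F M a ∉ q.v.valuationSubring →
      ∃ h : a⁻¹ ∈ v.valuationSubring, σ ⟨a⁻¹, h⟩ = 0 := fun a ha => by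
    have h1 : q.Val (algebraMap F M a⁻¹) 0 :=
      q.val_zero_of_ord_pos (by rw [map_inv₀, q.ord_inv, neg_pos, q.ord_neg_iff]; exact ha)
    exact ⟨h1.mem, (hσ ⟨a⁻¹, h1.mem⟩).unique h1⟩
  have hk : RingHom.ker σ ≠ ⊥ := by
    obtain ⟨x, hx⟩ := Valuation.IsNontrivial.exists_one_lt (v := v)
    obtain ⟨h1, h2⟩ := h0 x (not_le.2 hx)
    intro h
    have h3 : (⟨x⁻¹, h1⟩ : v.valuationSubring) = 0 := by
      rw [← Ideal.mem_bot, ← h]; exact h2
    have h4 : x = 0 := inv_eq_zero.1 (congrArg Subtype.val h3)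
    simp [h4] at hx
  obtain ⟨p, hp⟩ := ((hS _ F).1 σ hk).exists
  refine ⟨p, fun a c h => ?_⟩
  by_cases ha : algebraMap F M a ∈ q.v.valuationSubring
  · exact (hp ⟨a, ha⟩).unique h ▸ hσ ⟨a, ha⟩
  · obtain ⟨h1, h2⟩ := h0 a ha
    have h3 := h.mul (h2 ▸ hp ⟨a⁻¹, h1⟩)
    have h4 : a ≠ 0 := by rintro rfl; exact ha (by simp)
    rw [show a * algebraMap v.valuationSubring F ⟨a⁻¹, h1⟩ = 1 from mul_inv_cancel₀ h4,
      mul_zero] at h3
    exact absurd (h3.unique p.val_one) zero_ne_one

omit [FiniteDimensional F M] in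
theorem mem_cl {q : GPt M} {p : GPt F} (h : Over (algebraMap F M) q p)
    (s : integralClosure p.v.valuationSubring M) : (s : M) ∈ q.v.valuationSubring :=
  mem_of_int (R := p.v.valuationSubring) q (fun r => (h.mem_iff r).2 r.2) s.2

theorem fibre (hS : VE.S_S0) (p : GPt F) : {q | Over (algebraMap F M) q p}.Finite ∧
    ∑ᶠ q ∈ {q | Over (algebraMap F M) q p}, ram (algebraMap F M) q p = Module.finrank F M := by
  have := charZero_of p
  have := dvr p
  let S := integralClosure p.v.valuationSubring M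
  have : IsDedekindDomain S := integralClosure.isDedekindDomain _ F M
  have : IsFractionRing S M := integralClosure.isFractionRing_of_finite_extension F M
  have : Module.Finite p.v.valuationSubring S := IsIntegralClosure.finite _ F M S
  have : Module.IsTorsionFree p.v.valuationSubring M := .trans_faithfulSMul _ F M
  have : Module.Free p.v.valuationSubring S := IsIntegralClosure.module_free _ F M S
  let π : p.v.valuationSubring := ⟨unif p, (Val_unif p).mem⟩
  have hπ : π ≠ 0 := fun h => unif_ne p (congrArg Subtype.val h)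
  have hπ0 : p.ρ π = 0 := (Val_unif p).2
  have hm : RingHom.ker p.ρ = Ideal.span {π} := by
    refine le_antisymm (fun a ha => ?_) (by simpa [Ideal.span_le] using hπ0)
    rcases eq_or_ne a 0 with rfl | h0
    · exact zero_mem _
    have h1 : (a : F) ≠ 0 := fun h => h0 (Subtype.ext h)
    have h2 : 0 < p.ord a := (p.ord_pos_iff h1).2 ((p.ker a).1 ha)
    refine Ideal.mem_span_singleton'.2 ⟨⟨a / unif p, ?_⟩, Subtype.ext (div_mul_cancel₀ _ (unif_ne p))⟩
    rw [← p.ord_nonneg_iff (div_ne_zero h1 (unif_ne p)), p.ord_div h1 (unif_ne p), ord_unif]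
    omega
  have : (RingHom.ker p.ρ).IsMaximal :=
    (RingHom.ker_isPrime p.ρ).isMaximal (by rw [hm, Ne, Ideal.span_singleton_eq_bot]; exact hπ)
  obtain ⟨h1, h2⟩ := count (S := S) p.ρ π hπ hm
  obtain ⟨s1, s2, s3⟩ := hS S M
  have hπS : algebraMap _ S π ≠ 0 :=
    (map_ne_zero_iff _ (FaithfulSMul.algebraMap_injective _ S)).2 hπ
  have hk : ∀ σ : S →+* Qb, σ.comp (algebraMap _ S) = p.ρ → RingHom.ker σ ≠ ⊥ := fun σ h h' =>
    hπS (by rw [← Ideal.mem_bot, ← h']; exact (RingHom.congr_fun h π).trans hπ0)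
  rcases Set.eq_empty_or_nonempty {σ : S →+* Qb | σ.comp (algebraMap _ S) = p.ρ} with h | ⟨σ, h⟩
  · rw [h, finsum_mem_empty, IsIntegralClosure.rank p.v.valuationSubring F M S] at h2
    exact absurd (Nat.cast_eq_zero.1 h2.symm) Module.finrank_pos.ne'
  have : Nonempty (GPt M) := ⟨(s1 σ (hk σ h)).exists.choose⟩
  choose! pt hpt using fun (σ : S →+* Qb) (h : σ.comp (algebraMap _ S) = p.ρ) =>
    (s1 σ (hk σ h)).exists
  have hinj : Set.InjOn pt {σ : S →+* Qb | σ.comp (algebraMap _ S) = p.ρ} := fun σ h σ' h' e =>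
    RingHom.ext fun s => (hpt σ h s).unique (e ▸ hpt σ' h' s)
  have him : {q | Over (algebraMap F M) q p} =
      pt '' {σ : S →+* Qb | σ.comp (algebraMap _ S) = p.ρ} := by
    ext q
    constructor
    · intro h
      obtain ⟨σ, h3, h4⟩ := s2 q (mem_cl h)
      have h5 : σ.comp (algebraMap _ S) = p.ρ :=
        RingHom.ext fun r => (h4 _).unique (h _ _ ⟨r.2, rfl⟩)
      exact ⟨σ, h5, (s1 σ h3).unique (hpt σ h5) h4⟩
    · rintro ⟨σ, h, rfl⟩ a c ⟨h3, rfl⟩
      exact RingHom.congr_fun h ⟨a, h3⟩ ▸ hpt σ h (algebraMap _ S (⟨a, h3⟩ : p.v.valuationSubring))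
  rw [him]
  refine ⟨h1.image _, ?_⟩
  rw [finsum_mem_image hinj, ← IsIntegralClosure.rank p.v.valuationSubring F M S, ← h2]
  exact finsum_mem_congr rfl fun σ h => s3 _ σ (hpt σ h) _ hπS

theorem trans (hS : VE.S_S0) [IsGalois F M] {p : GPt F} {q q' : GPt M} (h : Over (algebraMap F M) q p)
    (h' : Over (algebraMap F M) q' p) : ∃ g : M ≃ₐ[F] M, q' = pull g.toRingEquiv q := by
  have := charZero_of p
  have := dvr p
  let S := integralClosure p.v.valuationSubring M
  have : IsDedekindDomain S := integralClosure.isDedekindDomain _ F M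
  have : IsFractionRing S M := integralClosure.isFractionRing_of_finite_extension F M
  obtain ⟨s1, s2, -⟩ := hS S M
  have ho : ∀ (g : M ≃ₐ[F] M) {q : GPt M}, Over (algebraMap F M) q p →
      Over (algebraMap F M) (pull g.toRingEquiv q) p := fun g q h a c h1 => by
    rw [pull_Val]
    exact (g.commutes a).symm ▸ h a c h1
  choose σ hσ0 hσ using fun g : M ≃ₐ[F] M => s2 _ (mem_cl (ho g h))
  choose τ hτ0 hτ using fun g : M ≃ₐ[F] M => s2 _ (mem_cl (ho g h'))
  have key : ∀ s : S, ∃ g, σ g s = τ 1 s := fun s => by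
    let P : M[X] := ∏ g : M ≃ₐ[F] M, (X - C (g s))
    have h1 : PVal q P (∏ g, (X - C (σ g s))) := PVal.prod _ fun g _ => PVal.X.sub (PVal.C (hσ g s))
    have h2 : PVal q' P (∏ g, (X - C (τ g s))) :=
      PVal.prod _ fun g _ => PVal.X.sub (PVal.C (hτ g s))
    have h3 : (∏ g, (X - C (σ g s)) : Qb[X]) = ∏ g, (X - C (τ g s)) := by
      ext i
      obtain ⟨a, ha⟩ : P.coeff i ∈ Set.range (algebraMap F M) := by
        refine (IsGalois.mem_range_algebraMap_iff_fixed _).2 fun f => ?_
        have h4 : P.map f.toRingEquiv.toRingHom = P := by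
          simp only [P, Polynomial.map_prod, Polynomial.map_sub, map_X, map_C]
          exact Fintype.prod_equiv (Equiv.mulLeft f) _ _ fun g => rfl
        conv_rhs => rw [← h4, coeff_map]
        rfl
      exact ((h.Val_iff a _).1 (ha ▸ h1 i)).unique ((h'.Val_iff a _).1 (ha ▸ h2 i))
    have h4 := congrArg (Polynomial.eval (τ 1 s)) h3
    simp only [eval_prod, eval_sub, eval_X, eval_C] at h4
    obtain ⟨g, -, hg⟩ := prod_eq_zero_iff.1 (h4.trans (prod_eq_zero (mem_univ 1) (sub_self _)))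
    exact ⟨g, (sub_eq_zero.1 hg).symm⟩
  let H : (M ≃ₐ[F] M) → AddSubgroup S := fun g => ((σ g).eqLocus (τ 1)).toAddSubgroup
  obtain ⟨g, -, hg⟩ := AddSubgroup.exists_finiteIndex_of_leftCoset_cover (H := H)
    (g := fun _ => 0) (s := univ) (Set.eq_univ_of_forall fun s => by simpa [H] using key s)
  have h5 : σ g = τ 1 := RingHom.ext fun s => by
    have h6 : σ g _ = τ 1 _ := (H g).nsmul_index_mem s
    rw [map_nsmul, map_nsmul, nsmul_eq_mul, nsmul_eq_mul] at h6
    exact mul_left_cancel₀ (Nat.cast_ne_zero.2 hg.index_ne_zero) h6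
  exact ⟨g, (s1 _ (hτ0 1)).unique (hτ 1) (h5 ▸ hσ g)⟩

end ResP

open ResP in
theorem p_res (h0 : VE.S_S0) : S_Res := by
  intro F M _ _ _ _ _ _
  choose res hres using fun q : GPt M => exists_over (F := F) h0 q
  have hiff : ∀ q p, Over (algebraMap F M) q p ↔ res q = p := fun q p =>
    ⟨fun h => (hres q).unique h, fun h => h ▸ hres q⟩
  have he : ∀ q, ((ram (algebraMap F M) q (res q)).toNat : ℤ) = ram (algebraMap F M) q (res q) :=
    fun q => Int.toNat_of_nonneg (zero_le_one.trans (hres q).ram_pos)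
  refine ⟨res, fun q => (ram (algebraMap F M) q (res q)).toNat, hiff, fun q => ⟨?_, fun a => ?_⟩,
    fun p => ?_, fun _ q q' h => ?_⟩
  · exact Nat.cast_le (α := ℤ).1 (((hres q).ram_pos).trans_eq (he q).symm)
  · rw [he]
    exact (hres q).ord a
  · obtain ⟨h1, h2⟩ := fibre (M := M) h0 p
    have h3 : {q | Over (algebraMap F M) q p} = {q | res q = p} := Set.ext fun q => hiff q p
    rw [h3] at h1 h2
    refine ⟨h1, Nat.cast_injective (R := ℤ) ?_⟩
    rw [← h2, finsum_mem_eq_finite_toFinset_sum _ h1, finsum_mem_eq_finite_toFinset_sum _ h1,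
      Nat.cast_sum]
    refine sum_congr rfl fun q hq => ?_
    have h4 : res q = p := by simpa using hq
    rw [he, h4]
  · obtain ⟨g, rfl⟩ := ResP.trans h0 (hres q) (h ▸ hres q')
    exact ⟨g, fun _ _ h1 => h1⟩

end Pool.Agent.P.MP_b8021b_nt.VC
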