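import Pool.Agent.P.MP_b8021b_nt.VC.BasicC

/-! Rigid configurations of rational points. -/

namespace Pool.Agent.P.MP_b8021b_nt.VC

open Finset Pool.Agent.P.MP_b8021b_nt.VE
open scoped Classical

namespace Rig1

variable {F A : Type} [Field F] [CharZero F] [CommRing A] [Algebra F A] (cv : Cv F A)

/-- only the constants have their poles in `E` -/
def Good (E : Ideal A) : Prop :=
  ∀ a b : A, b ≠ 0 → Ideal.span {a} * E ≤ Ideal.span {b} → cv.δ a ≤ cv.δ b → ∃ c : F, a = c • b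

theorem surj (Q : A →ₐ[F] F) : Function.Surjective Q := fun c => ⟨algebraMap F A c, by simp⟩

theorem kmax (Q : A →ₐ[F] F) : (RingHom.ker Q).IsMaximal :=
  RingHom.ker_isMaximal_of_surjective Q (surj Q)

theorem kdg (Q : A →ₐ[F] F) : dg F (RingHom.ker Q) = 1 := by
  rw [dg, (Ideal.quotientKerAlgEquivOfSurjective (surj Q)).toLinearEquiv.finrank_eq,
    Module.finrank_self]

theorem kinj {P Q : A →ₐ[F] F} (h : RingHom.ker P ≤ RingHom.ker Q) : P = Q := AlgHom.ext fun a => by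
  have : Q (a - algebraMap F A (P a)) = 0 := h (by simp [RingHom.mem_ker])
  rw [map_sub, AlgHom.commutes, sub_eq_zero] at this
  exact this.symm

include cv in
theorem dg_prod (hCv : S_Cv) (T : Finset (A →ₐ[F] F)) :
    ∏ P ∈ T, RingHom.ker P ≠ ⊥ ∧ dg F (∏ P ∈ T, RingHom.ker P) = T.card := by
  obtain ⟨-, h2, h3, h4, -⟩ := hCv F A cv
  have := cv.dom
  induction T using Finset.induction_on with
  | empty =>
    have := h3 1 one_ne_zero
    rw [Ideal.span_singleton_one, cv.one] at this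
    exact ⟨by simp, by simpa using this⟩
  | insert P T hP ih =>
    rw [prod_insert hP, card_insert_of_notMem hP, h2 _ _ (h4 _ (kmax P)) ih.1, kdg, ih.2, add_comm]
    exact ⟨mul_ne_zero (h4 _ (kmax P)) ih.1, rfl⟩

theorem good_top : Good cv ⊤ := fun a b hb h hd => by
  rw [Ideal.mul_top, Ideal.span_singleton_le_span_singleton] at h
  obtain ⟨u, rfl⟩ := h
  by_cases hu : u = 0
  · exact ⟨0, by simp [hu]⟩
  rw [cv.mul _ _ hb hu] at hd
  obtain ⟨c, rfl⟩ := cv.exists_const (f := u) (by omega)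
  exact ⟨c, by rw [Algebra.smul_def, mul_comm]⟩

theorem rig (hCv : S_Cv) {E : Ideal A} (hE : E ≠ ⊥) (hd : dg F E = cv.g) (h : Good cv E) :
    cv.Rig E := fun J a b hJ hg ha hb e => by
  obtain ⟨-, h2, h3, -⟩ := hCv F A cv
  have := cv.ded
  have h1 := congrArg (dg F) e
  rw [h2 _ _ (span_ne_bot ha) hJ, h2 _ _ (span_ne_bot hb) hE, h3 a ha, h3 b hb] at h1
  obtain ⟨c, rfl⟩ := h b a ha (e ▸ Ideal.mul_le_left) (by omega)
  have hc : c ≠ 0 := fun e => hb (by simp [e])
  rw [Algebra.smul_def, Ideal.span_singleton_mul_left_unit ((IsUnit.mk0 c hc).map _)] at e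
  exact mul_left_cancel₀ (span_ne_bot ha) e

theorem fin (hCv : S_Cv) {E : Ideal A} (hE : E ≠ ⊥) (hd : dg F E < cv.g) (h : Good cv E) :
    {P : A →ₐ[F] F | ¬ Good cv (RingHom.ker P * E)}.Finite := by
  by_contra hi
  obtain ⟨h1, h2, h3, h4, -, h6, ⟨n₁, h7⟩, ⟨n₀, h8⟩, -⟩ := hCv F A cv
  have := cv.ded
  obtain ⟨T, hT, hc⟩ := Set.Infinite.exists_subset_card_eq hi (n₀ + n₁)
  obtain ⟨hp, hp'⟩ := dg_prod cv hCv T
  have hD := mul_ne_zero hp hE
  obtain ⟨s, hs, hs0⟩ := Submodule.exists_mem_ne_zero_of_ne_bot hD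
  obtain ⟨C, hC⟩ := Ideal.dvd_span_singleton.2 hs
  have hC0 : C ≠ ⊥ := fun e => span_ne_bot hs0 (by rw [hC, e, Ideal.mul_bot])
  have hδ : cv.δ s = T.card + dg F E + dg F C := by
    rw [← h3 s hs0, hC, h2 _ _ hD hC0, h2 _ _ hp hE, hp']
  have key : ∀ P : T, ∃ t, cv.δ t ≤ cv.δ s ∧ t ∈ C ∧ t ∉ RingHom.ker P.1 * C ∧
      ∀ Q ∈ T, Q ≠ P → t ∈ RingHom.ker Q * C := fun P => by
    have := hT P.2
    simp only [Set.mem_ofPred_eq, Good, not_forall] at this
    obtain ⟨a, b, hb, hle, hab, hn⟩ := this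
    have ha : a ≠ 0 := fun e => hn ⟨0, by simp [e]⟩
    obtain ⟨J, hJ⟩ := Ideal.dvd_iff_le.2 hle
    have e1 : Ideal.span {a * s} =
        Ideal.span {b} * (J * (∏ Q ∈ T.erase P, RingHom.ker Q) * C) := by
      rw [← Ideal.span_singleton_mul_span_singleton, hC, ← mul_prod_erase T _ P.2, ← mul_assoc,
        ← mul_assoc (Ideal.span {b}), ← mul_assoc (Ideal.span {b}), ← hJ]
      ring
    obtain ⟨t, ht⟩ := Ideal.span_singleton_le_span_singleton.1 (e1 ▸ Ideal.mul_le_left :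
      Ideal.span {a * s} ≤ Ideal.span {b})
    rw [ht, ← Ideal.span_singleton_mul_span_singleton] at e1
    have e2 := mul_left_cancel₀ (span_ne_bot hb) e1
    have hm : ∀ I : Ideal A, t ∈ I * C ↔ J * ∏ Q ∈ T.erase P, RingHom.ker Q ≤ I := fun I => by
      rw [← Ideal.span_singleton_le_iff_mem, e2, ← Ideal.dvd_iff_le, ← Ideal.dvd_iff_le,
        mul_dvd_mul_iff_right hC0]
    have ht0 : t ≠ 0 := right_ne_zero_of_mul (ht ▸ mul_ne_zero ha hs0)
    refine ⟨t, ?_, by simpa using (hm ⊤).2 le_top, fun hh => ?_, fun Q hQ hne => (hm _).2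
      (Ideal.mul_le_right.trans (Ideal.le_of_dvd (dvd_prod_of_mem _ (mem_erase.2 ⟨hne, hQ⟩))))⟩
    · have := congrArg cv.δ ht
      rw [cv.mul _ _ ha hs0, cv.mul _ _ hb ht0] at this
      omega
    · rcases (kmax P.1).isPrime.mul_le.1 ((hm _).1 hh) with h5 | h5
      · obtain ⟨J', rfl⟩ := Ideal.dvd_iff_le.2 h5
        refine hn (h a b hb ?_ hab)
        rw [mul_left_comm, mul_left_comm (Ideal.span {b})] at hJ
        rw [mul_left_cancel₀ (h4 _ (kmax P.1)) hJ]
        exact Ideal.mul_le_left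
      · obtain ⟨Q, hQ, h5⟩ := (kmax P.1).isPrime.prod_le.1 h5
        exact (mem_erase.1 hQ).1 (kinj h5)
  choose t t1 t2 t3 t4 using key
  have hsP : ∀ Q ∈ T, s ∈ RingHom.ker Q * C := fun Q hQ => by
    rw [← Ideal.span_singleton_le_iff_mem, hC]
    exact Ideal.mul_mono_left
      (Ideal.mul_le_left.trans (Ideal.le_of_dvd (dvd_prod_of_mem _ hQ)))
  have hsC : s ∈ C := by
    rw [← Ideal.span_singleton_le_iff_mem, hC]
    exact Ideal.mul_le_right
  let φ : cv.L (cv.δ s) →ₗ[F] A ⧸ C := (Ideal.Quotient.mkₐ F C).toLinearMap.domRestrict _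
  have hφ : LinearMap.range φ = ⊤ := LinearMap.range_eq_top.2 fun y => by
    obtain ⟨a, rfl⟩ := Ideal.Quotient.mk_surjective y
    obtain ⟨b, hb, hab⟩ := h8 C hC0 (cv.δ s) (by omega) a
    exact ⟨⟨b, hb⟩, (Ideal.Quotient.eq.2 hab).symm⟩
  have := (h6 (cv.δ s)).1
  have h9 := φ.finrank_range_add_finrank_ker
  rw [hφ, finrank_top] at h9
  let v : Option T → LinearMap.ker φ := fun o => o.elim
    ⟨⟨s, le_refl (cv.δ s)⟩, Ideal.Quotient.eq_zero_iff_mem.2 hsC⟩
    fun P => ⟨⟨t P, t1 P⟩, Ideal.Quotient.eq_zero_iff_mem.2 (t2 P)⟩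
  have hv : LinearIndependent F v := by
    refine LinearIndependent.of_comp ((cv.L _).subtype ∘ₗ (LinearMap.ker φ).subtype)
      (Fintype.linearIndependent_iff.2 fun c hc => ?_)
    rw [Fintype.sum_option] at hc
    change c none • s + ∑ P, c (some P) • t P = 0 at hc
    have h0 : ∀ P : T, c (some P) = 0 := fun P => by
      by_contra hne
      rw [← add_sum_erase _ _ (mem_univ P), add_left_comm, add_eq_zero_iff_eq_neg] at hc
      have : c (some P) • t P ∈ RingHom.ker P.1 * C := hc ▸ neg_mem (add_mem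
        (Submodule.smul_of_tower_mem _ _ (hsP _ P.2)) (sum_mem fun Q hQ =>
          Submodule.smul_of_tower_mem _ _ (t4 Q _ P.2 fun e => (mem_erase.1 hQ).1 (Subtype.ext e.symm))))
      exact t3 P (by simpa [hne] using Submodule.smul_of_tower_mem _ (c (some P))⁻¹ this)
    simp only [h0, zero_smul, sum_const_zero, add_zero] at hc
    rintro (_ | P)
    · by_contra hne
      exact hs0 (by simpa [hne] using congrArg ((c none)⁻¹ • ·) hc)
    · exact h0 P
  have h10 := hv.fintype_card_le_finrank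
  have h11 := h7 (cv.δ s) (by omega)
  rw [Fintype.card_option, Fintype.card_coe] at h10
  unfold dg at hδ hd
  omega

theorem ex (hCv : S_Cv) {S : Set (A →ₐ[F] F)} (hS : S.Infinite) (m : ℕ) :
    ∃ T : Finset (A →ₐ[F] F), ↑T ⊆ S ∧ T.card = m ∧
      ∀ U ⊆ T, U.card ≤ cv.g → Good cv (∏ P ∈ U, RingHom.ker P) := by
  induction m with
  | zero => exact ⟨∅, by simp, rfl, fun U hU _ => by simpa [subset_empty.1 hU] using good_top cv⟩
  | succ m ih =>
    obtain ⟨T, h1, h2, h3⟩ := ih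
    have hf := (T.powerset.filter fun U => U.card < cv.g).finite_toSet.biUnion fun U hU =>
      have h := mem_filter.1 hU
      fin cv hCv (dg_prod cv hCv U).1 ((dg_prod cv hCv U).2 ▸ h.2) (h3 U (mem_powerset.1 h.1) h.2.le)
    obtain ⟨P, hP, hn⟩ := (hS.sdiff (hf.union T.finite_toSet)).nonempty
    have hT : P ∉ T := fun h => hn (Or.inr h)
    refine ⟨insert P T, by rw [coe_insert]; exact Set.insert_subset hP h1,
      by rw [card_insert_of_notMem hT, h2], fun U hU hc => ?_⟩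
    by_cases hPU : P ∈ U
    · rw [← mul_prod_erase U _ hPU]
      by_contra hg
      refine hn (Or.inl (Set.mem_biUnion (x := U.erase P) (mem_filter.2
        ⟨mem_powerset.2 (subset_insert_iff.1 hU), ?_⟩) hg))
      have := card_erase_lt_of_mem hPU
      omega
    · exact h3 U ((subset_insert_iff_of_notMem hPU).1 hU) hc

end Rig1

theorem p_rig1 (hCv : S_Cv) : S_Rig1 := by
  intro F A _ _ _ _ cv S hS
  obtain ⟨T, h1, h2, h3⟩ := Rig1.ex cv hCv hS (cv.g + 1)
  let e := (T.equivFinOfCardEq h2).symm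
  have hi : Function.Injective fun j => (e j).1 := Subtype.val_injective.comp e.injective
  refine ⟨fun j => (e j).1, fun j => h1 (e j).2, hi, fun i => ?_⟩
  have hc : ((univ.erase i).image fun j => (e j).1).card = cv.g := by
    rw [card_image_of_injective _ hi, card_erase_of_mem (mem_univ i)]
    simp
  rw [← prod_image (f := fun P : A →ₐ[F] F => RingHom.ker P) hi.injOn]
  refine Rig1.rig cv hCv (Rig1.dg_prod cv hCv _).1 ((Rig1.dg_prod cv hCv _).2.trans hc)
    (h3 _ (fun P hP => ?_) hc.le)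
  obtain ⟨j, -, rfl⟩ := mem_image.1 hP
  exact (e j).2

end Pool.Agent.P.MP_b8021b_nt.VC
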