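import Pool.Agent.P.MP_b8021b_nt.VC.StG

/-! Change of modulus in the density of the ideals coprime to an integer. -/

namespace Pool.Agent.P.MP_b8021b_nt.VC

open NumberField Finset Filter Topology Pool.Agent.P.MP_b8021b_nt.VE
open scoped Classical

namespace PRs

set_option linter.unusedSectionVars false

variable {E : Type} [Field E] [NumberField E]

/-- the number of ideals of bounded norm with a property -/
noncomputable def c (T : Ideal (𝓞 E) → Prop) (X : ℕ) : ℝ :=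
  (Set.ncard {I : Ideal (𝓞 E) | T I ∧ Ideal.absNorm I ≤ X} : ℝ)

/-- the upper density is at most `a` -/
def U (T : Ideal (𝓞 E) → Prop) (a : ℝ) : Prop :=
  ∀ a₁, a < a₁ → ∃ b : ℝ, ∀ X : ℕ, c T X ≤ a₁ * X + b

theorem fin (T : Ideal (𝓞 E) → Prop) (X : ℕ) :
    {I : Ideal (𝓞 E) | T I ∧ Ideal.absNorm I ≤ X}.Finite :=
  (Ideal.finite_setOfPred_absNorm_le X).subset fun _ h => h.2

theorem c_mono {T T' : Ideal (𝓞 E) → Prop} (h : ∀ I, T I → T' I) {X X' : ℕ} (hX : X ≤ X') :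
    c T X ≤ c T' X' :=
  Nat.cast_le.2 (Set.ncard_le_ncard (fun I hI => ⟨h I hI.1, hI.2.trans hX⟩) (fin T' X'))

theorem U.mono {T T' : Ideal (𝓞 E) → Prop} {a a' : ℝ} (H : U T' a) (h : ∀ I, T I → T' I)
    (ha : a ≤ a') : U T a' := fun a₁ h1 => by
  obtain ⟨b, hb⟩ := H a₁ (ha.trans_lt h1)
  exact ⟨b, fun X => (c_mono h le_rfl).trans (hb X)⟩

theorem c_le {T : Ideal (𝓞 E) → Prop} (hT : ∀ I J, T (I * J) → T J) (P : Ideal (𝓞 E)) {l : ℕ}
    (hl : 0 < l) (hP : l ≤ Ideal.absNorm P) (X : ℕ) :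
    c T X ≤ c (fun I => T I ∧ ¬ P ∣ I) X + c T (X / l) := by
  have h : {I : Ideal (𝓞 E) | T I ∧ Ideal.absNorm I ≤ X} ⊆
      {I : Ideal (𝓞 E) | (T I ∧ ¬ P ∣ I) ∧ Ideal.absNorm I ≤ X} ∪
        (fun J => P * J) '' {I : Ideal (𝓞 E) | T I ∧ Ideal.absNorm I ≤ X / l} := by
    rintro I ⟨h1, h2⟩
    by_cases h : P ∣ I
    · obtain ⟨J, rfl⟩ := h
      refine Or.inr ⟨J, ⟨hT _ _ h1, (Nat.le_div_iff_mul_le hl).2 ?_⟩, rfl⟩
      rw [map_mul] at h2
      rw [mul_comm]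
      exact (Nat.mul_le_mul_right _ hP).trans h2
    · exact Or.inl ⟨⟨h1, h⟩, h2⟩
  have h1 := (Set.ncard_le_ncard h ((fin _ X).union ((fin T _).image _))).trans
    ((Set.ncard_union_le _ _).trans (Nat.add_le_add_left (Set.ncard_image_le (fin T _)) _))
  unfold c
  exact_mod_cast h1

theorem lam_pos {l : ℕ} (hl : 2 ≤ l) : (0 : ℝ) < 1 - 1 / l := by
  have : (2 : ℝ) ≤ l := by exact_mod_cast hl
  rw [sub_pos, div_lt_one (by linarith)]
  linarith

theorem one_le_lam {l : ℕ} (hl : 2 ≤ l) : (1 : ℝ) ≤ (1 - 1 / (l : ℝ))⁻¹ :=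
  (one_le_inv₀ (lam_pos hl)).2 (sub_le_self _ (by positivity))

theorem step {T : Ideal (𝓞 E) → Prop} (hT : ∀ I J, T (I * J) → T J) (P : Ideal (𝓞 E)) {l : ℕ}
    (hl : 2 ≤ l) (hP : l ≤ Ideal.absNorm P) {a : ℝ} (ha : 0 ≤ a)
    (H : U (fun I => T I ∧ ¬ P ∣ I) a) : U T (a * (1 - 1 / (l : ℝ))⁻¹) := by
  intro a₁ h1
  have hq := lam_pos hl
  have h0 : 0 ≤ a₁ := (mul_nonneg ha (inv_nonneg.2 hq.le)).trans h1.le
  rw [← div_eq_mul_inv, div_lt_iff₀ hq] at h1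
  obtain ⟨a₂, h2, h3⟩ := exists_between h1
  obtain ⟨b, hb⟩ := H a₂ h2
  obtain ⟨X₀, hX₀⟩ := exists_nat_ge (b / (a₁ * (1 - 1 / l) - a₂))
  rw [div_le_iff₀ (sub_pos.2 h3)] at hX₀
  refine ⟨c T X₀, fun X => ?_⟩
  induction X using Nat.strong_induction_on with
  | _ X ih =>
    rcases le_or_gt X X₀ with h | h
    · exact (c_mono (fun _ => id) h).trans (le_add_of_nonneg_left (by positivity))
    · have h4 := ih (X / l) (Nat.div_lt_self (by omega) hl)
      have h5 : a₁ * ((X / l : ℕ) : ℝ) ≤ a₁ * (X / l) :=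
        mul_le_mul_of_nonneg_left Nat.cast_div_le h0
      have h6 := c_le hT P (by omega) hP X
      have h7 := hb X
      have h8 : (X₀ : ℝ) * (a₁ * (1 - 1 / l) - a₂) ≤ X * (a₁ * (1 - 1 / l) - a₂) :=
        mul_le_mul_of_nonneg_right (by exact_mod_cast h.le) (sub_pos.2 h3).le
      have h9 : (X : ℝ) * (a₁ * (1 - 1 / l) - a₂) = a₁ * X - a₁ * (X / l) - a₂ * X := by ring
      linarith

theorem steps {T : Ideal (𝓞 E) → Prop} (hT : ∀ I J, T (I * J) → T J) {l : ℕ} (hl : 2 ≤ l)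
    (S : Finset (Ideal (𝓞 E))) : (∀ P ∈ S, l ≤ Ideal.absNorm P) → ∀ a : ℝ, 0 ≤ a →
      U (fun I => T I ∧ ∀ P ∈ S, ¬ P ∣ I) a → U T (a * (1 - 1 / (l : ℝ))⁻¹ ^ S.card) := by
  induction S using Finset.induction_on with
  | empty => exact fun _ a _ H => H.mono (fun I h => ⟨h, by simp⟩) (by simp)
  | insert P S hP ih =>
    intro hS a ha H
    have h1 := step (T := fun I => T I ∧ ∀ P ∈ S, ¬ P ∣ I)
      (fun I J h => ⟨hT _ _ h.1, fun P hP h' => h.2 P hP (h'.mul_left _)⟩) P hl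
      (hS P (mem_insert_self _ _)) ha
      (H.mono (fun I h => ⟨h.1.1, (forall_mem_insert _ _ _).2 ⟨h.2, h.1.2⟩⟩) le_rfl)
    rw [card_insert_of_notMem hP, pow_succ', ← mul_assoc]
    exact ih (fun Q hQ => hS Q (mem_insert_of_mem hQ)) _
      (mul_nonneg ha (inv_nonneg.2 (lam_pos hl).le)) h1

theorem cop_iff {n : ℕ} {I : Ideal (𝓞 E)} :
    Cop n I ↔ ∀ M : Ideal (𝓞 E), M.IsMaximal → I ≤ M → (n : 𝓞 E) ∉ M := by
  rw [Cop, Ideal.isCoprime_iff_sup_eq]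
  refine ⟨fun h M hM h1 h2 => hM.ne_top (top_le_iff.1 (h ▸ sup_le h1 ?_)), fun h => ?_⟩
  · exact (Ideal.span_singleton_le_iff_mem _).2 h2
  · by_contra h1
    obtain ⟨M, hM, h2⟩ := Ideal.exists_le_maximal _ h1
    exact h M hM (le_sup_left.trans h2)
      ((Ideal.span_singleton_le_iff_mem _).1 (le_sup_right.trans h2))

theorem exists_prime {M : Ideal (𝓞 E)} (hM : M.IsPrime) (n : ℕ) :
    n ≠ 0 → (n : 𝓞 E) ∈ M → ∃ l : ℕ, l.Prime ∧ l ∣ n ∧ (l : 𝓞 E) ∈ M := by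
  induction n using induction_on_primes with
  | zero => exact fun h => absurd rfl h
  | one => exact fun _ h => absurd ((Ideal.eq_top_iff_one M).2 (by simpa using h)) hM.ne_top
  | prime_mul p a hp ih =>
    intro h0 h
    rw [Nat.cast_mul] at h
    rcases hM.mem_or_mem h with h | h
    · exact ⟨p, hp, dvd_mul_right _ _, h⟩
    · obtain ⟨l, h1, h2, h3⟩ := ih (right_ne_zero_of_mul h0) h
      exact ⟨l, h1, h2.mul_left _, h3⟩

theorem mem_of_dvd {M : Ideal (𝓞 E)} {l n : ℕ} (h : l ∣ n) (hl : (l : 𝓞 E) ∈ M) :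
    (n : 𝓞 E) ∈ M := M.mem_of_dvd (Nat.cast_dvd_cast h) hl

theorem absNorm_nat (n : ℕ) :
    Ideal.absNorm (Ideal.span {(n : 𝓞 E)}) = n ^ Module.finrank ℚ E := by
  rw [Ideal.absNorm_span_singleton, ← map_natCast (algebraMap ℤ (𝓞 E)),
    Algebra.norm_algebraMap_of_basis (RingOfIntegers.basis E), Int.natAbs_pow,
    Int.natAbs_natCast, ← Module.finrank_eq_card_chooseBasisIndex, RingOfIntegers.rank]

theorem stepl {T : Ideal (𝓞 E) → Prop} (hT : ∀ I J, T (I * J) → T J) {l : ℕ} (hl : l.Prime)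
    {a : ℝ} (ha : 0 ≤ a) (H : U (fun I => T I ∧ Cop l I) a) :
    U T (a * (1 - 1 / (l : ℝ))⁻¹ ^ Module.finrank ℚ E) := by
  have h0 : Ideal.span {(l : 𝓞 E)} ≠ ⊥ := by
    rw [Ne, Ideal.span_singleton_eq_bot]
    exact Nat.cast_ne_zero.2 hl.ne_zero
  have h1 : ∀ P ∈ UniqueFactorizationMonoid.normalizedFactors (Ideal.span {(l : 𝓞 E)}),
      l ≤ Ideal.absNorm P := fun P hP => by
    obtain ⟨h2, h3⟩ := (Ideal.mem_normalizedFactors_iff h0).1 hP
    have h4 := Ideal.absNorm_dvd_absNorm_of_le h3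
    rw [absNorm_nat, Nat.dvd_prime_pow hl] at h4
    obtain ⟨i, -, hi⟩ := h4
    rcases i with _ | i
    · exact absurd (Ideal.absNorm_eq_one_iff.1 hi) h2.ne_top
    · exact hi ▸ Nat.le_self_pow (Nat.succ_ne_zero i) l
  have h2 : (UniqueFactorizationMonoid.normalizedFactors (Ideal.span {(l : 𝓞 E)})).card ≤
      Module.finrank ℚ E := by
    have h3 := congrArg Ideal.absNorm (Ideal.prod_normalizedFactors_eq_self h0)
    rw [absNorm_nat, map_multiset_prod] at h3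
    have h4 := Multiset.pow_card_le_prod (a := l) (s := Multiset.map Ideal.absNorm
      (UniqueFactorizationMonoid.normalizedFactors (Ideal.span {(l : 𝓞 E)}))) fun x hx => by
        obtain ⟨P, hP, rfl⟩ := Multiset.mem_map.1 hx
        exact h1 P hP
    rw [h3, Multiset.card_map] at h4
    exact (Nat.pow_le_pow_iff_right hl.one_lt).1 h4
  refine (steps hT hl.two_le
    (UniqueFactorizationMonoid.normalizedFactors (Ideal.span {(l : 𝓞 E)})).toFinset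
    (fun P hP => h1 P (Multiset.mem_toFinset.1 hP)) a ha
    (H.mono (fun I h => ⟨h.1, cop_iff.2 fun M hM h3 h4 => h.2 M ?_ (Ideal.dvd_iff_le.2 h3)⟩)
      le_rfl)).mono (fun _ => id) (mul_le_mul_of_nonneg_left (pow_le_pow_right₀
        (one_le_lam hl.two_le) ((Multiset.toFinset_card_le _).trans h2)) ha)
  exact Multiset.mem_toFinset.2 ((Ideal.mem_normalizedFactors_iff h0).2
    ⟨hM.isPrime, (Ideal.span_singleton_le_iff_mem _).2 h4⟩)

theorem stepL {T : Ideal (𝓞 E) → Prop} (hT : ∀ I J, T (I * J) → T J) (L : Finset ℕ) :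
    (∀ l ∈ L, l.Prime) → ∀ a : ℝ, 0 ≤ a → U (fun I => T I ∧ ∀ l ∈ L, Cop l I) a →
      U T (a * ∏ l ∈ L, (1 - 1 / (l : ℝ))⁻¹ ^ Module.finrank ℚ E) := by
  induction L using Finset.induction_on with
  | empty => exact fun _ a _ H => H.mono (fun I h => ⟨h, by simp⟩) (by simp)
  | insert l L hl ih =>
    intro hL a ha H
    have hp := hL l (mem_insert_self _ _)
    have h1 := stepl (T := fun I => T I ∧ ∀ l ∈ L, Cop l I)
      (fun I J h => ⟨hT _ _ h.1, fun l hl => IsCoprime.of_mul_left_right (h.2 l hl)⟩) hp ha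
      (H.mono (fun I h => ⟨h.1.1, (forall_mem_insert _ _ _).2 ⟨h.2, h.1.2⟩⟩) le_rfl)
    rw [prod_insert hl, ← mul_assoc]
    exact ih (fun q hq => hL q (mem_insert_of_mem hq)) _
      (mul_nonneg ha (pow_nonneg (inv_nonneg.2 (lam_pos hp.two_le).le) _)) h1

theorem U_of_tendsto {T : Ideal (𝓞 E) → Prop} {a : ℝ} (ha : 0 ≤ a)
    (h : Tendsto (fun X : ℕ => c T X / X) atTop (𝓝 a)) : U T a := by
  intro a₁ h1
  obtain ⟨X₀, hX₀⟩ := eventually_atTop.1 (h.eventually (gt_mem_nhds h1))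
  have h0 : 0 ≤ c T X₀ := Nat.cast_nonneg _
  refine ⟨c T X₀, fun X => ?_⟩
  rcases le_or_gt X X₀ with h2 | h2
  · exact (c_mono (fun _ => id) h2).trans
      (le_add_of_nonneg_left (mul_nonneg (ha.trans h1.le) (Nat.cast_nonneg _)))
  · have h3 := hX₀ X h2.le
    rw [div_lt_iff₀ (by exact_mod_cast Nat.zero_lt_of_lt h2)] at h3
    linarith

theorem le_of_U {T : Ideal (𝓞 E) → Prop} {a a' : ℝ}
    (h : Tendsto (fun X : ℕ => c T X / X) atTop (𝓝 a)) (H : U T a') : a ≤ a' := by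
  refine le_of_forall_gt_imp_ge_of_dense fun a₁ h1 => ?_
  obtain ⟨b, hb⟩ := H a₁ h1
  have h2 := (tendsto_const_div_atTop_nhds_zero_nat b).const_add a₁
  rw [add_zero] at h2
  refine le_of_tendsto_of_tendsto h h2 ((eventually_gt_atTop 0).mono fun X hX => ?_)
  have h3 : (0 : ℝ) < X := by exact_mod_cast hX
  simp only
  rw [div_le_iff₀ h3, add_mul, div_mul_cancel₀ _ h3.ne']
  exact hb X

theorem sum_lam {n : ℕ} (hn : 2 ≤ n) (X : ℕ) :
    ∑ j ∈ Icc 1 X, lam (triv E n) j = (c (E := E) (Cop n) X : ℂ) := by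
  have h0 : ∀ I : Ideal (𝓞 E), Cop n I → Ideal.absNorm I ≠ 0 := fun I hI h => by
    rw [Ideal.absNorm_eq_zero_iff.1 h, Cop, Ideal.isCoprime_iff_sup_eq, bot_sup_eq] at hI
    have h1 := absNorm_nat (E := E) n
    rw [hI, Ideal.absNorm_top, eq_comm, Nat.pow_eq_one] at h1
    have := Module.finrank_pos (R := ℚ) (M := E)
    omega
  rw [c, Set.ncard_eq_toFinset_card _ (fin _ X), card_eq_sum_card_fiberwise
    (f := Ideal.absNorm) (t := Icc 1 X) (fun I hI => by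
      have := (fin _ X).mem_toFinset.1 hI
      exact mem_coe.2 (mem_Icc.2 ⟨Nat.pos_of_ne_zero (h0 I this.1), this.2⟩))]
  push_cast
  refine sum_congr rfl fun j hj => ?_
  rw [lam, finsum_mem_eq_finite_toFinset_sum _ (Ideal.finite_setOfPred_absNorm_eq j)]
  show ∑ I ∈ _, (if Cop n I then (1 : ℂ) else 0) = _
  rw [sum_boole]
  congr 2
  ext I
  simp only [mem_filter, Set.Finite.mem_toFinset, Set.mem_ofPred_eq]
  exact ⟨fun h => ⟨⟨h.2, h.1 ▸ (mem_Icc.1 hj).2⟩, h.1⟩, fun h => ⟨h.2, h.1.1⟩⟩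

theorem tendsto_of_err {f : ℕ → ℝ} {a C δ : ℝ} (hδ : 0 < δ)
    (h : ∀ X : ℕ, |f X - a * X| ≤ C * (X : ℝ) ^ (1 - δ)) :
    Tendsto (fun X : ℕ => f X / X) atTop (𝓝 a) := by
  have h1 := ((tendsto_rpow_neg_atTop hδ).comp tendsto_natCast_atTop_atTop).const_mul C
  rw [mul_zero] at h1
  rw [tendsto_iff_norm_sub_tendsto_zero]
  refine squeeze_zero' (Eventually.of_forall fun _ => norm_nonneg _)
    ((eventually_gt_atTop 0).mono fun X hX => ?_) h1
  have h3 : (0 : ℝ) < X := by exact_mod_cast hX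
  have h4 := h X
  rw [sub_eq_add_neg 1, Real.rpow_add h3, Real.rpow_one] at h4
  rw [Real.norm_eq_abs, show f X / X - a = (f X - a * X) / X by field_simp, abs_div,
    abs_of_pos h3, div_le_iff₀ h3]
  exact h4.trans_eq (by simp only [Function.comp]; ring)

end PRs

theorem p_rs (hE : S_Emb) (hP : S_PSs) : S_Rs := by
  intro k _ _ _ K E _ _ _ m n hm hn h
  obtain ⟨C, hC⟩ := hE k K (Module.finrank k E)
  obtain ⟨-, h2, hD, -, -, -, -, -, ⟨Q, hQ, hS⟩, -⟩ := hC E rfl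
  obtain ⟨C', hC'⟩ := hP k K (Module.finrank k E)
  have key : ∀ n : ℕ, 2 ≤ n → 0 ≤ Rs E n ∧
      Tendsto (fun X : ℕ => PRs.c (E := E) (Cop n) X / X) atTop (𝓝 (Rs E n)) := fun n hn => by
    obtain ⟨h3, -, h4, -⟩ := hC' E rfl Q n hQ hS hn
    have hD' : (0 : ℝ) < Module.finrank k E := by exact_mod_cast hD
    refine ⟨h3.le, PRs.tendsto_of_err (C := (Q * n) ^ C')
      (δ := 1 / (4 * Module.finrank k E)) (by positivity) fun X => ?_⟩
    have h5 := h4 X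
    rwa [PRs.sum_lam hn, ← Complex.ofReal_sub, Complex.norm_real, Real.norm_eq_abs] at h5
  have hn2 : 2 ≤ n := by
    obtain ⟨l, h3, h4⟩ := Nat.exists_prime_and_dvd (n := m) (by omega)
    exact h3.two_le.trans (Nat.le_of_dvd (Nat.pos_of_ne_zero hn) (h l h3 h4))
  obtain ⟨a1, a2⟩ := key m hm
  obtain ⟨b1, b2⟩ := key n hn2
  refine ⟨PRs.le_of_U b2 ((PRs.U_of_tendsto a1 a2).mono (fun I hI => ?_) le_rfl), ?_⟩
  · refine PRs.cop_iff.2 fun M hM h3 h4 => ?_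
    obtain ⟨l, h5, h6, h7⟩ := PRs.exists_prime hM.isPrime m (by omega) h4
    exact PRs.cop_iff.1 hI M hM h3 (PRs.mem_of_dvd (h l h5 h6) h7)
  · rw [← h2]
    refine PRs.le_of_U a2 (PRs.stepL (fun I J h => IsCoprime.of_mul_left_right h) _
      (fun l hl => Nat.prime_of_mem_primeFactors (mem_filter.1 hl).1) _ b1
      ((PRs.U_of_tendsto b1 b2).mono (fun I hI => ?_) le_rfl))
    refine PRs.cop_iff.2 fun M hM h3 h4 => ?_
    obtain ⟨l, h5, h6, h7⟩ := PRs.exists_prime hM.isPrime n hn h4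
    by_cases h8 : l ∣ m
    · exact PRs.cop_iff.1 hI.1 M hM h3 (PRs.mem_of_dvd h8 h7)
    · exact PRs.cop_iff.1 (hI.2 l (mem_filter.2 ⟨Nat.mem_primeFactors.2 ⟨h5, h6, hn⟩, h8⟩))
        M hM h3 h7

end Pool.Agent.P.MP_b8021b_nt.VC
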