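import Pool.Agent.P.MP_b8021b_nt.VC.StT
import Pool.Agent.P.MP_b8021b_nt.VC.StA
import Pool.Agent.P.MP_b8021b_nt.VE.BasicP
import Pool.Agent.P.MP_b8021b_nt.VE.PSEq

/-! The sections are equidistributed in residue classes. -/

namespace Pool.Agent.P.MP_b8021b_nt.VC

open Polynomial Finset Pool.Agent.P.MP_b8021b_nt.VE
open scoped Classical

namespace PSEq

open Pool.Agent.P.MP_b8021b_nt.VE.PSEq

variable {R : Type} [CommRing R] [Algebra ℤ[X] R]

theorem cls (p : Par R) (S0 : ℕ) {L d : ℕ} (hd : 1 ≤ d) (hL : d ≤ L) (ρ : p.Ix → ZMod d) :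
    |(∑ s ∈ Sset p S0 L, if (fun j => (s j : ZMod d)) = ρ then wS p S0 L s else 0) -
      1 / (d : ℝ) ^ Fintype.card p.Ix| ≤
      2 ^ Fintype.card p.Ix * (d / L) * (1 / (d : ℝ) ^ Fintype.card p.Ix) := by
  have hL0 : (0 : ℝ) < L := by exact_mod_cast hd.trans hL
  have hd0 : (0 : ℝ) < d := by exact_mod_cast hd
  have h := prod_near univ _ (by rw [div_le_one hL0]; exact_mod_cast hL)
    (fun j => one_dim (cen p S0 j) hd hL (ρ j))
  rw [prod_mul_distrib, prod_const, card_univ, prod_univ_sum] at h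
  have e : (∑ s ∈ Sset p S0 L, if (fun j => (s j : ZMod d)) = ρ then wS p S0 L s else 0) =
      ∑ s ∈ Sset p S0 L, ∏ j, tent (((s j - cen p S0 j : ℤ) : ℝ) / L) / L *
        if (s j : ZMod d) = ρ j then (1 : ℝ) else 0 := by
    refine sum_congr rfl fun s _ => ?_
    rw [prod_mul_distrib, wS]
    split_ifs with hs
    · rw [prod_congr rfl fun j _ => if_pos (congrFun hs j), prod_const_one, mul_one]
    · obtain ⟨j, hj⟩ := Function.ne_iff.1 hs
      exact (mul_eq_zero_of_right _ (prod_eq_zero (f := fun j =>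
        if (s j : ZMod d) = ρ j then (1 : ℝ) else 0) (mem_univ j) (if_neg hj))).symm
  rw [e, Sset]
  generalize (∑ s ∈ Fintype.piFinset (α := p.Ix) _, _ : ℝ) = T at h ⊢
  generalize Fintype.card p.Ix = n at h ⊢
  rw [show T - 1 / (d : ℝ) ^ n = (T * d ^ n - 1) * (1 / (d : ℝ) ^ n) by field_simp, abs_mul,
    abs_of_pos (show (0 : ℝ) < 1 / (d : ℝ) ^ n by positivity)]
  refine mul_le_mul_of_nonneg_right (h.trans ?_) (by positivity)
  exact mul_le_mul_of_nonneg_right (by linarith) (by positivity)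

theorem main (p : Par R) (S0 : ℕ) {L d : ℕ} (hd : 1 ≤ d) (hL : d ≤ L)
    (S : Finset (p.Ix → ZMod d)) (P : p.Co → Prop) [DecidablePred P]
    (hP : ∀ s, P s ↔ (fun j => (s j : ZMod d)) ∈ S) :
    |∑ s ∈ Sset p S0 L with P s, wS p S0 L s - S.card / (d : ℝ) ^ Fintype.card p.Ix| ≤
      2 ^ Fintype.card p.Ix * (d / L) * (S.card / (d : ℝ) ^ Fintype.card p.Ix) := by
  have h := (abs_sum_le_sum_abs _ _).trans (sum_le_sum fun ρ (_ : ρ ∈ S) => cls p S0 hd hL ρ)
  rw [sum_sub_distrib, sum_comm, sum_const, sum_const, nsmul_eq_mul, nsmul_eq_mul] at h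
  have e : ∑ s ∈ Sset p S0 L with P s, wS p S0 L s = ∑ s ∈ Sset p S0 L, ∑ ρ ∈ S,
      if (fun j => (s j : ZMod d)) = ρ then wS p S0 L s else 0 := by
    rw [sum_filter]
    refine sum_congr rfl fun s _ => ?_
    rw [sum_ite_eq]
    exact if_congr (hP s) rfl rfl
  rw [mul_one_div, ← e] at h
  refine h.trans (le_of_eq ?_)
  ring

theorem hev_sec (p : Par R) (hd : ∀ i, p.d i + p.ρ + p.κ i = p.dd) (g : ℤ[X]) (s : p.Co)
    (i : Fin p.e × Bool) (t : ℤ × ℤ) :
    hev (p.dd - p.κ i.1) (g + C ((p.r : ℤ) ^ p.n0) * p.G * p.hp s i) t.1 t.2 =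
      hev (p.dd - p.κ i.1) g t.1 t.2 + ∑ j : Fin (p.d i.1 + 1),
        s ⟨i, j⟩ * ((p.r : ℤ) ^ p.n0 * p.Gt t * (t.1 ^ j.1 * t.2 ^ (p.d i.1 - j.1))) := by
  have e : p.dd - p.κ i.1 = p.ρ + p.d i.1 := by have := hd i.1; omega
  have h1 : (p.hp s i).natDegree ≤ p.d i.1 :=
    natDegree_sum_le_of_forall_le _ _ fun j _ =>
      (natDegree_C_mul_X_pow_le _ _).trans (Nat.lt_succ_iff.1 j.2)
  rw [hev_add, mul_assoc, hev_C_mul]
  congr 1
  rw [e, hev_mul (d := p.ρ) (le_refl p.G.natDegree) h1, Par.hp, hev_sum, mul_sum, mul_sum]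
  refine sum_congr rfl fun j _ => ?_
  rw [hev_C_mul, hev_X_pow (Nat.lt_succ_iff.1 j.2), Par.Gt]
  ring

theorem dvd_Gt (p : Par R) (t : ℤ × ℤ) : t.1 ∣ p.Gt t := by
  rw [Par.Gt, hev]
  refine dvd_sum fun j _ => ?_
  rcases Nat.eq_zero_or_pos j with rfl | h
  · rw [p.G0]; simp
  · exact ((dvd_pow_self _ h.ne').mul_left _).mul_right _

end PSEq

open PSEq Pool.Agent.P.MP_b8021b_nt.VE.PSEq in
theorem p_sEq (hDeg : S_Deg) : S_SEq := by
  intro R _ _ p
  have hdd : ∀ i, p.d i + p.ρ + p.κ i = p.dd := fun i => ((hDeg R p).2.2.1.2.2.2.2 i).1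
  refine ⟨2 ^ Fintype.card p.Ix, one_le_pow₀ one_le_two, fun S0 L d hd hL => ⟨?_, fun S =>
    PSEq.main p S0 hd hL S _ fun _ => Iff.rfl, fun t S hc => ?_⟩⟩
  · have hL0 : (0 : ℝ) < L := by exact_mod_cast hd.trans hL
    rw [Sset, show wS p S0 L = fun s => ∏ j, tent (((s j - cen p S0 j : ℤ) : ℝ) / L) / L from rfl,
      ← prod_univ_sum (fun j => Ioo (cen p S0 j - L) (cen p S0 j + L))
        fun j n => tent (((n - cen p S0 j : ℤ) : ℝ) / L) / L]
    refine prod_eq_one fun j _ => ?_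
    have := tent_sum (cen p S0 j) (hd.trans hL) fun _ => 1
    simp only [mul_one, sum_const, Int.card_Ico, add_sub_cancel_left, sub_zero, Int.toNat_natCast,
      nsmul_eq_mul] at this
    rw [this]
    field_simp
  · have : NeZero d := ⟨by omega⟩
    have hd0 : (0 : ℝ) < d := by exact_mod_cast hd
    have hu : IsUnit ((p.Gt t * p.r : ℤ) : ZMod d) := by
      obtain ⟨a, b, h⟩ := hc
      have := congrArg (Int.cast : ℤ → ZMod d) h
      rw [Int.cast_add, Int.cast_mul, Int.cast_natCast, ZMod.natCast_self, mul_zero, zero_add,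
        Int.cast_mul, Int.cast_one] at this
      exact IsUnit.of_mul_eq_one_right _ this
    rw [Int.cast_mul, IsUnit.mul_iff] at hu
    have ha : IsUnit ((t.1 : ℤ) : ZMod d) :=
      isUnit_of_dvd_unit (map_dvd (Int.castRingHom (ZMod d)) (dvd_Gt p t)) hu.1
    set w : (n : ℕ) → Fin (n + 1) → ZMod d := fun n j =>
      (((p.r : ℤ) ^ p.n0 * p.Gt t * (t.1 ^ j.1 * t.2 ^ (n - j.1)) : ℤ) : ZMod d) with hw
    have hs : ∀ n, Function.Surjective (lin (w n)) := fun n =>
      lin_surj (Fin.last n) (by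
        simp only [hw, Fin.val_last, Nat.sub_self, pow_zero, mul_one, Int.cast_mul, Int.cast_pow]
        exact ((hu.2.pow _).mul hu.1).mul (ha.pow _))
    let Λ : (p.Ix → ZMod d) →+ (Fin p.e → ZMod d) × (Fin p.e → ZMod d) :=
      { toFun := fun ρ => (fun i => lin (w (p.d i)) fun j => ρ ⟨(i, false), j⟩,
          fun i => lin (w (p.d i)) fun j => ρ ⟨(i, true), j⟩)
        map_zero' := Prod.ext (funext fun _ => map_zero _) (funext fun _ => map_zero _)
        map_add' := fun _ _ =>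
          Prod.ext (funext fun _ => map_add _ _ _) (funext fun _ => map_add _ _ _) }
    have hΛ : Function.Surjective Λ := fun y => by
      choose a ha using fun i : Fin p.e × Bool => hs (p.d i.1) (if i.2 then y.2 i.1 else y.1 i.1)
      exact ⟨fun j => a j.1 j.2,
        Prod.ext (funext fun i => ha (i, false)) (funext fun i => ha (i, true))⟩
    set v : (Fin p.e → ZMod d) × (Fin p.e → ZMod d) :=
      (fun i => hev (p.dd - p.κ i) (p.g0 i) t.1 t.2, fun i => hev (p.dd - p.κ i) (p.k0 i) t.1 t.2)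
      with hv
    obtain ⟨S', hS⟩ : ∃ S' : Finset (p.Ix → ZMod d), ∀ ρ, ρ ∈ S' ↔ v + Λ ρ ∈ S :=
      ⟨univ.filter fun ρ => v + Λ ρ ∈ S, fun ρ => by simp only [mem_filter, mem_univ, true_and]⟩
    have hcard := card_pre Λ hΛ v S S' hS
    rw [Fintype.card_prod, Fintype.card_fun, Fintype.card_fun, ZMod.card, Fintype.card_fin]
      at hcard
    have hq : (S'.card : ℝ) / (d : ℝ) ^ Fintype.card p.Ix = S.card / (d : ℝ) ^ (2 * p.e) := by
      rw [div_eq_div_iff (by positivity) (by positivity), two_mul, pow_add]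
      exact_mod_cast hcard
    rw [← hq]
    refine PSEq.main p S0 hd hL _ _ fun s => ?_
    rw [hS]
    refine iff_of_eq (congrArg (· ∈ S) (Prod.ext (funext fun i => ?_) (funext fun i => ?_)))
    · change ((p.gt s t i : ℤ) : ZMod d) =
        (hev (p.dd - p.κ i) (p.g0 i) t.1 t.2 : ℤ) + ∑ j, _ * w (p.d i) j
      rw [Par.gt, Par.gp, PSEq.hev_sec p hdd _ s (i, false), Int.cast_add, Int.cast_sum]
      simp only [hw, Int.cast_mul]
    · change ((p.ct s t i : ℤ) : ZMod d) =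
        (hev (p.dd - p.κ i) (p.k0 i) t.1 t.2 : ℤ) + ∑ j, _ * w (p.d i) j
      rw [Par.ct, Par.cp, PSEq.hev_sec p hdd _ s (i, true), Int.cast_add, Int.cast_sum]
      simp only [hw, Int.cast_mul]

end Pool.Agent.P.MP_b8021b_nt.VC
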