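import Pool.Agent.P.MP_0ad054_nt.An.Siegel

/-! Continuation of Dirichlet series from theta series; the lemmas of Estermann and Landau. -/

namespace Pool.Agent.P.MP_b8021b_nt.VC.KS

open Real Set Filter Topology MeasureTheory Asymptotics Metric
open MP_0ad054_nt.An.SiegelP (absc_lt one_le_LSeries real_part one_add_le)

noncomputable section

variable {a : ℕ → ℂ} {c : ℂ} {B M t : ℝ} {s : ℂ}

/-- the theta series -/
def Ft (a : ℕ → ℂ) (t : ℝ) : ℂ := ∑' j : ℕ, a j * rexp (-j * t)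

/-- asymptotics of the theta series -/
structure Th (a : ℕ → ℂ) (c : ℂ) (B M : ℝ) : Prop where
  zero : a 0 = 0
  abs : ∀ t : ℝ, 0 < t → t ≤ 1 → ∃ S, HasSum (fun j : ℕ => ‖a j‖ * rexp (-j * t)) S ∧ S ≤ B / t
  near : ∀ t : ℝ, 0 < t → t ≤ 1 → ‖Ft a t - c / t‖ ≤ M

theorem nrm (j : ℕ) (t : ℝ) : ‖a j * rexp (-j * t)‖ = ‖a j‖ * rexp (-j * t) := by
  rw [norm_mul, Complex.norm_real, Real.norm_of_nonneg (exp_pos _).le]

theorem Th.small (h : Th a c B M) (h0 : 0 < t) (h1 : t ≤ 1) : ‖Ft a t‖ ≤ B / t :=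
  let ⟨_, a1, a2⟩ := h.abs t h0 h1
  (tsum_of_norm_bounded a1 fun j => (nrm j t).le).trans a2

theorem Th.big (h : Th a c B M) (h1 : 1 ≤ t) : ‖Ft a t‖ ≤ rexp 1 * B * rexp (-t) := by
  obtain ⟨S, a1, a2⟩ := h.abs 1 one_pos le_rfl
  refine (tsum_of_norm_bounded (a1.mul_right (rexp 1 * rexp (-t))) fun j => ?_).trans ?_
  · rw [nrm, mul_assoc, ← exp_add, ← exp_add]
    rcases Nat.eq_zero_or_pos j with rfl | hj
    · simp [h.zero]
    · have : (1 : ℝ) ≤ j := by exact_mod_cast hj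
      gcongr
      nlinarith
  · rw [div_one] at a2
    nlinarith [mul_pos (exp_pos 1) (exp_pos (-t))]

theorem Th.cont (h : Th a c B M) : ContinuousOn (Ft a) (Ioi 0) := fun x (hx : 0 < x) => by
  obtain ⟨S, a1, -⟩ := h.abs (min (x / 2) 1) (by positivity) (min_le_right _ _)
  refine ((continuousOn_tsum (s := Ici (min (x / 2) 1)) (fun j => by fun_prop) a1.summable
    fun j y (hy : _ ≤ y) => ?_).continuousAt (Ici_mem_nhds ?_)).continuousWithinAt
  · rw [nrm]
    gcongr _ * rexp ?_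
    nlinarith [Nat.cast_nonneg (α := ℝ) j]
  · linarith [min_le_left (x / 2) 1]

theorem Th.has (h : Th a c B M) (h0 : 0 < t) :
    HasSum (fun j : ℕ => a j * rexp (-j * t)) (Ft a t) := by
  obtain ⟨S, a1, -⟩ := h.abs (min t 1) (by positivity) (min_le_right _ _)
  refine (a1.summable.of_norm_bounded fun j => ?_).hasSum
  rw [nrm]
  gcongr _ * rexp ?_
  nlinarith [Nat.cast_nonneg (α := ℝ) j, min_le_left t 1]

theorem Th.ls (h : Th a c B M) (s : ℂ) (hs : 1 < s.re) : LSeriesSummable a s := by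
  refine LSeriesSummable_of_sum_norm_bigO (r := 1) (IsBigO.of_bound (rexp 1 * B) ?_) zero_le_one hs
  filter_upwards [eventually_ge_atTop 1] with n hn
  have h1 : (1 : ℝ) ≤ n := by exact_mod_cast hn
  obtain ⟨S, a1, a2⟩ := h.abs (1 / n) (by positivity) ((div_le_one (by linarith)).2 h1)
  rw [Real.norm_of_nonneg (by positivity), rpow_one, Real.norm_natCast, mul_assoc]
  rw [div_div_eq_mul_div, div_one] at a2
  refine le_trans ?_ (mul_le_mul_of_nonneg_left
    ((sum_le_hasSum (Finset.Icc 1 n) (fun _ _ => by positivity) a1).trans a2) (exp_pos _).le)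
  rw [Finset.mul_sum]
  refine Finset.sum_le_sum fun j hj => ?_
  have h2 : (j : ℝ) ≤ n := by exact_mod_cast (Finset.mem_Icc.1 hj).2
  rw [mul_left_comm, ← exp_add]
  refine le_mul_of_one_le_right (norm_nonneg _) (one_le_exp ?_)
  rw [neg_mul, mul_one_div, ← sub_eq_add_neg, sub_nonneg, div_le_one (by linarith)]
  exact h2

theorem mel_le {f : ℝ → ℂ} {W β : ℝ} (h : ∀ t, 0 < t → ‖f t‖ ≤ W * ((t ^ (-β) + 1) * rexp (-t)))
    (h0 : 0 < s.re) (h1 : β < s.re) : ‖mellin f s‖ ≤ W * (Gamma (s.re - β) + Gamma s.re) := by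
  have h2 := sub_pos.2 h1
  rw [Gamma_eq_integral h0, Gamma_eq_integral h2, ← integral_add (GammaIntegral_convergent h2)
    (GammaIntegral_convergent h0), ← integral_const_mul]
  refine norm_integral_le_of_norm_le (((GammaIntegral_convergent h2).add
    (GammaIntegral_convergent h0)).const_mul W) ((ae_restrict_mem measurableSet_Ioi).mono
      fun t (ht : 0 < t) => ?_)
  rw [norm_smul, Complex.norm_cpow_eq_rpow_re_of_pos ht, Complex.sub_re, Complex.one_re,
    show s.re - β - 1 = s.re - 1 + -β by ring, rpow_add ht]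
  exact (mul_le_mul_of_nonneg_left (h t ht) (by positivity)).trans_eq (by ring)

/-- the theta series without its polar part -/
def ft (a : ℕ → ℂ) (c : ℂ) (t : ℝ) : ℂ :=
  Ft a t - c • indicator (Ioc 0 1) (fun t : ℝ => (t : ℂ) ^ (-1 : ℂ)) t

theorem ft_small (h0 : 0 < t) (h1 : t ≤ 1) : ft a c t = Ft a t - c / t := by
  rw [ft, indicator_of_mem (show t ∈ Ioc 0 1 from ⟨h0, h1⟩), Complex.cpow_neg_one, div_eq_mul_inv,
    smul_eq_mul]

theorem ft_big (h1 : 1 < t) : ft a c t = Ft a t := by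
  rw [ft, indicator_of_notMem fun h => h1.not_ge h.2, smul_zero, sub_zero]

theorem Th.le (h : Th a c B M) {W β : ℝ} (hB : 0 ≤ B) (hW : B ≤ W)
    (h1 : ∀ t, 0 < t → t ≤ 1 → ‖ft a c t‖ ≤ W * t ^ (-β)) (t : ℝ) (h0 : 0 < t) :
    ‖ft a c t‖ ≤ rexp 1 * W * ((t ^ (-β) + 1) * rexp (-t)) := by
  have h2 : 0 < t ^ (-β) := by positivity
  have h3 := mul_pos (exp_pos 1) (exp_pos (-t))
  rcases le_or_gt t 1 with h4 | h4
  · have h5 : 1 ≤ rexp 1 * rexp (-t) := by rw [← exp_add]; exact one_le_exp (by linarith)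
    nlinarith [h1 t h0 h4, mul_le_mul_of_nonneg_left h5 (mul_nonneg (hB.trans hW) h2.le),
      mul_nonneg (hB.trans hW) h3.le]
  · rw [ft_big h4]
    nlinarith [h.big h4.le, mul_le_mul_of_nonneg_right hW h3.le,
      mul_nonneg (mul_nonneg (hB.trans hW) h2.le) h3.le]

theorem Th.le0 (h : Th a c B M) (hB : 0 ≤ B) (t : ℝ) (h0 : 0 < t) :
    ‖ft a c t‖ ≤ rexp 1 * (M + B) * ((t ^ (-(0 : ℝ)) + 1) * rexp (-t)) := by
  have hM := (norm_nonneg _).trans (h.near 1 one_pos le_rfl)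
  refine h.le hB (by linarith) (fun t h0 h1 => ?_) t h0
  rw [ft_small h0 h1, neg_zero, rpow_zero]
  linarith [h.near t h0 h1]

theorem Th.mel (h : Th a c B M) (hs : 0 < s.re) :
    MellinConvergent (ft a c) s ∧ DifferentiableAt ℂ (mellin (ft a c)) s := by
  have h1 : LocallyIntegrableOn (ft a c) (Ioi 0) := by
    refine (h.cont.locallyIntegrableOn measurableSet_Ioi).sub fun x hx => ?_
    obtain ⟨U, a1, a2⟩ := (ContinuousOn.locallyIntegrableOn (μ := volume)
      (f := fun t : ℝ => (t : ℂ) ^ (-1 : ℂ)) (fun y (hy : 0 < y) =>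
        (Complex.continuousAt_ofReal_cpow_const _ _ (.inr hy.ne')).continuousWithinAt)
      measurableSet_Ioi) x hx
    exact ⟨U, a1, (a2.indicator measurableSet_Ioc).smul c⟩
  have h2 : ft a c =O[atTop] fun t => rexp (-1 * t) := by
    refine IsBigO.of_bound (rexp 1 * B) ?_
    filter_upwards [eventually_gt_atTop 1] with t ht
    rw [ft_big ht, Real.norm_of_nonneg (exp_pos _).le, neg_one_mul]
    exact h.big ht.le
  have h3 : ft a c =O[𝓝[>] 0] (· ^ (-(0 : ℝ))) := by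
    refine IsBigO.of_bound M ?_
    filter_upwards [Ioc_mem_nhdsGT zero_lt_one] with t ht
    rw [ft_small ht.1 ht.2, neg_zero, rpow_zero, norm_one, mul_one]
    exact h.near t ht.1 ht.2
  exact ⟨mellinConvergent_of_isBigO_rpow_exp one_pos h1 h2 h3 hs,
    mellin_differentiableAt_of_isBigO_rpow_exp one_pos h1 h2 h3 hs⟩

theorem Th.eq (h : Th a c B M) (hs : 1 < s.re) :
    (mellin (ft a c) s + c / (s - 1)) * (Complex.Gamma s)⁻¹ = LSeries a s := by
  have h0 : 0 < s.re := by linarith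
  have h1 := hasMellin_cpow_Ioc (-1) (s := s) (by simp; linarith)
  have h2 := hasMellin_const_smul h1.1 c
  have h3 := (hasMellin_add (h.mel h0).1 h2.1).2
  simp only [ft, sub_add_cancel] at h3
  have h4 := hasSum_mellin (a := a) (p := fun j => (j : ℝ)) (F := Ft a) (s := s)
    (fun j => (Nat.eq_zero_or_pos j).imp (fun e => by rw [e, h.zero]) Nat.cast_pos.2) h0
    (fun t ht => h.has ht) ((h.ls s hs).norm.congr fun j => by
      rw [LSeries.norm_term_eq]
      split_ifs with e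
      · simp [e, h.zero]
      · rfl)
  rw [div_eq_mul_one_div, sub_eq_add_neg, ← h1.2, ← smul_eq_mul c, ← h2.2, mul_inv_eq_iff_eq_mul₀
    (Complex.Gamma_ne_zero_of_re_pos h0), mul_comm]
  refine (h3.symm.trans (h4.unique ?_))
  refine ((h.ls s hs).hasSum.mul_left _).congr_fun fun j => ?_
  rw [LSeries.term_def₀ h.zero, Complex.cpow_neg, Complex.ofReal_natCast, div_eq_mul_inv, mul_assoc]

/-- the half plane -/
def Hp : Set ℂ := {s | 0 < s.re}

theorem contZ (h : Th a c B M) : ∃ Z : ℂ → ℂ, DifferentiableOn ℂ Z Hp ∧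
    ∀ s : ℂ, 1 < s.re → Z s = (s - 1) * LSeries a s := by
  refine ⟨fun s => ((s - 1) * mellin (ft a c) s + c) * (Complex.Gamma s)⁻¹, fun s hs =>
    ((((differentiableAt_id.sub_const 1).mul (h.mel hs).2).add_const c).mul
      (Complex.differentiable_one_div_Gamma s)).differentiableWithinAt, fun s hs => ?_⟩
  have h1 : s - 1 ≠ 0 := sub_ne_zero.2 fun e => by simp [e] at hs
  rw [← h.eq hs, ← mul_assoc, mul_add, mul_div_cancel₀ _ h1]

theorem cont0 {δ : ℝ} (h0 : 0 < δ) (h1 : δ ≤ 1) : ∃ C : ℝ, 1 ≤ C ∧ ∀ (a : ℕ → ℂ) (B M : ℝ),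
    Th a 0 B M → 1 ≤ B → 1 ≤ M → ∃ G : ℂ → ℂ, DifferentiableOn ℂ G Hp ∧
      (∀ s : ℂ, 1 < s.re → G s = LSeries a s) ∧
      (∀ s ∈ closedBall (2 : ℂ) (3 / 2), ‖G s‖ ≤ C * B * M) ∧ ‖G 1‖ ≤ C * B * M ^ δ := by
  have hb : ∀ s ∈ closedBall (2 : ℂ) (3 / 2), 0 < s.re := fun s hs => by
    have := (abs_le.1 ((Complex.abs_re_le_norm _).trans (mem_closedBall_iff_norm.1 hs))).1
    simp at this
    linarith
  obtain ⟨K, hK⟩ := (isCompact_closedBall (2 : ℂ) (3 / 2)).exists_bound_of_continuousOn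
    (f := fun s => (Gamma s.re : ℂ) * (Complex.Gamma s)⁻¹) fun s hs =>
      ((Complex.continuous_ofReal.continuousAt.comp ((differentiableAt_Gamma fun m => by
        linarith [hb s hs, Nat.cast_nonneg (α := ℝ) m]).continuousAt.comp
          Complex.continuous_re.continuousAt)).mul
        Complex.differentiable_one_div_Gamma.continuous.continuousAt).continuousWithinAt
  have K0 : 0 ≤ K := (norm_nonneg _).trans (hK 2 (mem_closedBall_self (by norm_num)))
  have hG := Gamma_pos_of_pos h0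
  have he := one_le_exp zero_le_one
  refine ⟨rexp 1 * (4 * K + Gamma δ + 1), by nlinarith, fun a B M h hB hM =>
    ⟨fun s => mellin (ft a 0) s * (Complex.Gamma s)⁻¹, fun s hs => ((h.mel hs).2.mul
      (Complex.differentiable_one_div_Gamma s)).differentiableWithinAt, fun s hs => by
        rw [← h.eq hs, zero_div, add_zero], fun s hs => ?_, ?_⟩⟩
  · have h2 := mel_le (h.le0 (by linarith)) (hb s hs) (hb s hs)
    have h3 := hK s hs
    rw [norm_mul, Complex.norm_real, Real.norm_of_nonneg (Gamma_pos_of_pos (hb s hs)).le] at h3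
    rw [norm_mul]
    refine (mul_le_mul_of_nonneg_right h2 (norm_nonneg _)).trans ?_
    rw [sub_zero, ← two_mul, mul_assoc, mul_assoc 2]
    have h4 := Gamma_pos_of_pos (hb s hs)
    calc _ ≤ rexp 1 * (2 * (B * M)) * (2 * K) := by gcongr; nlinarith
      _ = rexp 1 * (4 * K) * B * M := by ring
      _ ≤ _ := by gcongr; linarith
  · have h2 : 1 ≤ M ^ δ := one_le_rpow hM h0.le
    have h3 := mel_le (s := 1) (h.le (W := B * M ^ δ) (β := 1 - δ) (by linarith) (by nlinarith)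
      fun t t0 t1 => ?_) (by simp) (by simp [h0])
    · simp only [Complex.Gamma_one, inv_one, mul_one]
      rw [Complex.one_re, sub_sub_cancel, Gamma_one] at h3
      calc _ ≤ _ := h3
        _ = rexp 1 * (Gamma δ + 1) * B * M ^ δ := by ring
        _ ≤ _ := by gcongr; linarith
    · have h4 := h.near t t0 t1
      rw [ft_small t0 t1]
      rw [zero_div, sub_zero] at h4 ⊢
      calc ‖Ft a t‖ = ‖Ft a t‖ ^ (1 - δ) * ‖Ft a t‖ ^ δ := by
            rw [← rpow_add' (norm_nonneg _) (by simp), sub_add_cancel, rpow_one]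
        _ ≤ (B / t) ^ (1 - δ) * M ^ δ := by gcongr; exact h.small t0 t1
        _ = B ^ (1 - δ) * M ^ δ * t ^ (-(1 - δ)) := by
            rw [div_rpow (by linarith) t0.le, rpow_neg t0.le]
            ring
        _ ≤ B ^ (1 : ℝ) * M ^ δ * t ^ (-(1 - δ)) := by gcongr; linarith
        _ = _ := by rw [rpow_one]

open Complex
open scoped ComplexOrder

variable {Φ : ℂ → ℂ}

theorem isOpen_re (x : ℝ) : IsOpen {s : ℂ | x < s.re} := continuous_re.isOpen_preimage _ isOpen_Ioi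

theorem ball_sub : ball (2 : ℂ) 2 ⊆ Hp := fun s hs => by
  have := (abs_lt.1 ((abs_re_le_norm _).trans_lt (mem_ball_iff_norm.1 hs))).1
  simp at this
  exact this

theorem diff_ds (h : DifferentiableOn ℂ Φ Hp) : DifferentiableOn ℂ (dslope Φ 1) Hp :=
  (differentiableOn_dslope ((isOpen_re 0).mem_nhds (by simp))).2 h

theorem coeff_eq (hs : ∀ s : ℂ, 1 < s.re → LSeriesSummable a s)
    (hF : ∀ s : ℂ, 1 < s.re → Φ s = (s - 1) * LSeries a s) (m : ℕ) :
    iteratedDeriv m (dslope Φ 1) 2 =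
      iteratedDeriv m (LSeries a) 2 - Φ 1 * ((-1) ^ m * m.factorial) := by
  have h2 : (2 : ℂ) ∈ {s : ℂ | 1 < s.re} := by simp
  have e : Set.EqOn (dslope Φ 1) (LSeries a - fun s => Φ 1 * (1 * s - 1)⁻¹) {s : ℂ | 1 < s.re} :=
    fun s hs' => by
      have h1 : s ≠ 1 := fun h => by simp [h] at hs'
      have h3 : s - 1 ≠ 0 := sub_ne_zero.2 h1
      rw [dslope_of_ne _ h1, slope_def_field, Pi.sub_apply, hF s hs', one_mul]
      field_simp
  have hL : ContDiffAt ℂ m (LSeries a) 2 :=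
    (LSeries_analyticOnNhd a 2 (absc_lt hs h2)).contDiffAt
  have hI : ContDiffAt ℂ m (fun s : ℂ => (1 * s - 1)⁻¹) 2 :=
    ContDiffAt.inv (by fun_prop) (by norm_num)
  rw [e.iteratedDeriv_of_isOpen (isOpen_re 1) m h2, iteratedDeriv_sub hL (contDiffAt_const.mul hI),
    iteratedDeriv_const_mul _ hI, iteratedDeriv_eq_iterate (f := fun s : ℂ => (1 * s - 1)⁻¹),
    iter_deriv_inv_linear_sub]
  norm_num

theorem est (hd : DifferentiableOn ℂ Φ Hp) (h0 : 0 ≤ a) (h1 : a 1 = 1)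
    (hs : ∀ s : ℂ, 1 < s.re → LSeriesSummable a s)
    (hF : ∀ s : ℂ, 1 < s.re → Φ s = (s - 1) * LSeries a s) (hM : 1 ≤ M)
    (hb : ∀ s ∈ closedBall (2 : ℂ) (3 / 2), ‖Φ s‖ ≤ M) (ht : 0 < t) (ht' : t ≤ 1 / 8)
    (hre : 0 ≤ (Φ (1 - t : ℝ)).re) : 1 / 100 * t * M ^ (-(4 * t)) ≤ ‖Φ 1‖ := by
  set H := dslope Φ 1 with hH
  have hG1 : ‖Φ 1‖ ≤ M := hb 1 (by rw [mem_closedBall, dist_eq_norm]; norm_num)
  have hHb : ∀ s ∈ sphere (2 : ℂ) (3 / 2), ‖H s‖ ≤ 4 * M := fun s hs' => by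
    have h2 : 1 / 2 ≤ ‖s - 1‖ := by
      have := norm_sub_norm_le (s - 2) (s - 1)
      rw [mem_sphere_iff_norm.1 hs', show s - 2 - (s - 1) = -1 by ring, norm_neg, norm_one] at this
      linarith
    have h3 : s ≠ 1 := fun h => by norm_num [h] at h2
    rw [hH, dslope_of_ne _ h3, slope_def_field, norm_div, div_le_iff₀ (by linarith)]
    nlinarith [norm_sub_le (Φ s) (Φ 1), hb s (sphere_subset_closedBall hs')]
  have hab : LSeries.abscissaOfAbsConv a < (2 : ℝ) := absc_lt hs one_lt_two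
  have hal := fun m => LSeries.iteratedDeriv_alternating h0 hab m
  simp only [ofReal_ofNat] at hal
  set b : ℕ → ℝ := fun m => ((-1) ^ m * iteratedDeriv m (LSeries a) 2).re / m.factorial with hb'
  have hm : ∀ m : ℕ, (0 : ℝ) < m.factorial := fun m => by positivity
  have e : ∀ m : ℕ, (m.factorial : ℂ)⁻¹ * ((-1) ^ m * iteratedDeriv m H 2) = b m - Φ 1 := fun m => by
    have h2 : (m.factorial : ℂ) ≠ 0 := by exact_mod_cast m.factorial_ne_zero
    have h3 : ((-1 : ℂ) ^ m) * (-1) ^ m = 1 := by rw [← mul_pow]; simp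
    rw [hH, coeff_eq hs hF, hb', ofReal_div, ← eq_re_of_ofReal_le (hal m), ofReal_natCast]
    field_simp
    linear_combination (-(Φ 1) * m.factorial) * h3
  have hB : ∀ m, |b m - (Φ 1).re| ≤ 4 * M / (3 / 2) ^ m := fun m => by
    have h2 := norm_iteratedDeriv_le_of_forall_mem_sphere_norm_le m (by norm_num)
      ((diff_ds hd).diffContOnCl_ball ((closedBall_subset_ball (by norm_num)).trans ball_sub)) hHb
    have h3 := abs_re_le_norm (b m - Φ 1)
    rw [sub_re, ofReal_re, ← e m, norm_mul, norm_mul, norm_pow, norm_neg, norm_one, one_pow, one_mul,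
      norm_inv, Complex.norm_natCast] at h3
    refine h3.trans ?_
    rw [inv_mul_le_iff₀ (hm m), ← mul_div_assoc]
    exact h2
  have hS : HasSum (fun m => (b m - (Φ 1).re) * (1 + t) ^ m) (H (1 - t : ℝ)).re := by
    have e2 : ((1 - t : ℝ) : ℂ) - 2 = -1 * (1 + t : ℝ) := by push_cast; ring
    refine (hasSum_re (hasSum_taylorSeries_on_ball ((diff_ds hd).mono ball_sub)
      (z := (1 - t : ℝ)) ?_)).congr_fun fun m => ?_
    · rw [mem_ball_iff_norm, e2, norm_mul, norm_neg, norm_one, one_mul, norm_real,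
        Real.norm_of_nonneg (by linarith)]
      linarith
    rw [smul_eq_mul, smul_eq_mul, e2, mul_pow, mul_right_comm, ← mul_assoc, e m, ← ofReal_pow,
      re_mul_ofReal, sub_re, ofReal_re]
  have hS' : (H (1 - t : ℝ)).re ≤ ‖Φ 1‖ / t := by
    have h3 : ((1 - t : ℝ) : ℂ) ≠ 1 := by
      rw [Ne, ← ofReal_one, ofReal_inj]; linarith
    rw [hH, dslope_of_ne _ h3, slope_def_field,
      show ((1 - t : ℝ) : ℂ) - 1 = (-t : ℝ) by push_cast; ring, div_ofReal_re, div_neg, ← neg_div]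
    gcongr
    rw [sub_re]
    linarith [re_le_norm (Φ 1)]
  obtain ⟨n, hn1, hn2⟩ := exists_nat_pow_near (x := 32 * M) (y := 4 / 3) (by linarith) (by norm_num)
  have h2 := real_part (b := b) (fun m => div_nonneg (le_def.1 (hal m)).1 (hm m).le) (by
    have := (le_def.1 (one_le_LSeries h0 h1 hs)).1
    simpa [hb'] using this) (re_le_norm (Φ 1)) ht ht' hB hS hS' (n + 1) n.succ_ne_zero
  have h3 : 4 * (4 * M) * (3 / 4) ^ (n + 1) ≤ 1 / 2 := by
    have : ((4 / 3 : ℝ) ^ (n + 1)) * (3 / 4) ^ (n + 1) = 1 := by rw [← mul_pow]; norm_num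
    have h4 : (0 : ℝ) < (3 / 4) ^ (n + 1) := by positivity
    nlinarith
  have h4 : (1 + t) ^ (n + 1) ≤ 50 * M ^ (4 * t) := by
    calc (1 + t) ^ (n + 1) ≤ ((4 / 3 : ℝ) ^ (4 * t)) ^ (n + 1) := by
          gcongr; exact one_add_le ht.le
      _ = ((4 / 3 : ℝ) ^ (n + 1)) ^ (4 * t) := by
          rw [← Real.rpow_natCast, ← Real.rpow_natCast, ← Real.rpow_mul (by norm_num),
            ← Real.rpow_mul (by norm_num), mul_comm]
      _ ≤ (50 * M) ^ (4 * t) := by
          gcongr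
          rw [pow_succ]
          linarith
      _ = 50 ^ (4 * t) * M ^ (4 * t) := Real.mul_rpow (by linarith) (by linarith)
      _ ≤ 50 ^ (1 : ℝ) * M ^ (4 * t) := by gcongr <;> linarith
      _ = _ := by rw [Real.rpow_one]
  have h5 : 0 < M ^ (4 * t) := by positivity
  rw [Real.rpow_neg (by linarith), ← div_eq_mul_inv, div_le_iff₀ h5]
  nlinarith [norm_nonneg (Φ 1)]

theorem part_le (hd : DifferentiableOn ℂ Φ Hp) (h0 : 0 ≤ a)
    (hs : ∀ s : ℂ, 1 < s.re → LSeriesSummable a s) (hF : ∀ s : ℂ, 1 < s.re → Φ s = LSeries a s)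
    (S : Finset ℕ) (ht : 0 < t) (ht' : t ≤ 2) : ∑ j ∈ S, LSeries.term a t j ≤ Φ t := by
  classical
  set b : ℕ → ℂ := fun j => if j ∈ S then 0 else a j with hb
  have h1 : ∀ s : ℂ, 1 < s.re → LSeriesHasSum b s (Φ s - ∑ j ∈ S, LSeries.term a s j) :=
    fun s h => by
      rw [hF s h]
      refine ((hs s h).hasSum.sub (hasSum_sum_of_ne_finset_zero (s := S)
        (f := fun j => if j ∈ S then LSeries.term a s j else 0) fun j hj => if_neg hj)).congr_fun
          (fun j => ?_) |>.trans (by rw [Finset.sum_ite_of_true fun _ h => h]; exact le_rfl)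
      by_cases hj : j ∈ S <;> simp [LSeries.term_def, hb, hj]
  have h2 : DifferentiableOn ℂ (fun s => Φ s - ∑ j ∈ S, LSeries.term a s j) Hp :=
    hd.sub (Differentiable.fun_sum fun j _ s => (LSeries.hasDerivAt_term a j s).differentiableAt
      ).differentiableOn
  have h3 := DifferentiableOn.nonneg_of_iteratedDeriv_nonneg (c := -2) (r := 2)
    (h2.comp differentiable_neg.differentiableOn fun z hz => ball_sub (by
      rwa [mem_ball_iff_norm, ← norm_neg, neg_sub', neg_neg, ← mem_ball_iff_norm]))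
    (fun n => ?_) (z := -t) (neg_le_neg (by exact_mod_cast ht')) (by
      rw [mem_ball_iff_norm, show -(t : ℂ) - -2 = (2 - t : ℝ) by push_cast; ring, norm_real,
        Real.norm_of_nonneg (by linarith)]
      linarith)
  · simpa using h3
  · rw [Function.comp_def, iteratedDeriv_comp_neg n fun s => Φ s - ∑ j ∈ S, LSeries.term a s j,
      neg_neg, Set.EqOn.iteratedDeriv_of_isOpen (s := {s : ℂ | 1 < s.re})
        (fun s h => (h1 s h).LSeries_eq.symm) (isOpen_re 1) n (by simp)]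
    exact LSeries.iteratedDeriv_alternating (x := 2) (fun j => by
      by_cases hj : j ∈ S
      · simp [hb, hj]
      · simpa [hb, hj] using h0 j)
      (absc_lt (fun s h => (h1 s h).LSeriesSummable) one_lt_two) n

theorem landau (hd : DifferentiableOn ℂ Φ Hp) (h0 : 0 ≤ a)
    (hs : ∀ s : ℂ, 1 < s.re → LSeriesSummable a s)
    (hF : ∀ s : ℂ, 1 < s.re → Φ s = (s - 1) * LSeries a s) {n : ℕ}
    (hp : ∀ p : ℕ, p.Prime → n < p → 1 / 2 ≤ a (p ^ 4)) : Φ 1 ≠ 0 := fun h1 => by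
  classical
  have h2 := fun S => part_le (diff_ds hd) h0 hs (fun s h => by
    have h3 : s ≠ 1 := fun e => by simp [e] at h
    rw [dslope_of_ne _ h3, slope_def_field, h1, hF s h, sub_zero,
      mul_div_cancel_left₀ _ (sub_ne_zero.2 h3)]) S (t := 1 / 4) (by norm_num) (by norm_num)
  refine not_summable_one_div_on_primes ((summable_nat_add_iff (n + 1)).1
    (summable_of_sum_le (c := 2 * (dslope Φ 1 (1 / 4 : ℝ)).re)
      (fun j => indicator_nonneg (fun _ _ => by positivity) _) fun T => ?_))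
  have h3 := (le_def.1 (h2 (T.image fun j => (j + (n + 1)) ^ 4))).1
  rw [Finset.sum_image fun i _ j _ e => add_right_cancel (Nat.pow_left_injective four_ne_zero e),
    re_sum] at h3
  refine le_trans ?_ (mul_le_mul_of_nonneg_left h3 zero_le_two)
  rw [Finset.mul_sum]
  refine Finset.sum_le_sum fun j _ => ?_
  by_cases h4 : (j + (n + 1)).Prime
  · have h5 := (le_def.1 (hp _ h4 (by omega))).1
    have h6 : (0 : ℝ) < (j + (n + 1) : ℕ) := Nat.cast_pos.2 h4.pos
    have h7 : (((j + (n + 1) : ℕ) : ℝ) ^ 4) ^ (4 : ℝ)⁻¹ = (j + (n + 1) : ℕ) := by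
      exact_mod_cast pow_rpow_inv_natCast h6.le four_ne_zero
    rw [indicator_of_mem (show _ ∈ {p : ℕ | p.Prime} from h4),
      LSeries.term_of_ne_zero (pow_ne_zero _ h4.ne_zero), ← ofReal_natCast,
      ← ofReal_cpow (Nat.cast_nonneg _), div_ofReal_re, Nat.cast_pow, one_div (4 : ℝ), h7,
      mul_div_assoc']
    gcongr
    norm_num at h5
    linarith
  · rw [indicator_of_notMem (show _ ∉ {p : ℕ | p.Prime} from h4)]
    exact mul_nonneg zero_le_two (le_def.1 (LSeries.term_nonneg (h0 _) _)).1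

theorem re_nonneg (hd : DifferentiableOn ℂ Φ Hp) (h0 : 0 ≤ a) (h1 : a 1 = 1)
    (hs : ∀ s : ℂ, 1 < s.re → LSeriesSummable a s)
    (hF : ∀ s : ℂ, 1 < s.re → Φ s = (s - 1) * LSeries a s) (ht : 0 < t)
    (hz : ∀ x : ℝ, t ≤ x → x ≤ 1 → Φ x ≠ 0) : 0 ≤ (Φ t).re := by
  have hp : ∀ x : ℝ, 1 < x → 0 < Φ x := fun x hx => by
    rw [hF x (by simpa using hx)]
    exact mul_pos (by exact_mod_cast sub_pos.2 hx)
      (LSeries.positive h0 (h1 ▸ zero_lt_one) (absc_lt hs hx))
  have ha : ∀ x ∈ Ioi (0 : ℝ), AnalyticAt ℝ (fun x : ℝ => Φ x) x := fun x hx =>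
    ((hd.analyticAt ((isOpen_re 0).mem_nhds (by simpa using hx))).restrictScalars (𝕜 := ℝ)).comp
      (ofRealCLM.analyticAt x)
  have hi := AnalyticOnNhd.eqOn_zero_of_preconnected_of_eventuallyEq_zero
    (f := fun x : ℝ => (Φ x).im) (fun x hx => (imCLM.analyticAt _).comp (ha x hx))
    isPreconnected_Ioi (mem_Ioi.2 two_pos)
    ((eventually_gt_nhds one_lt_two).mono fun x hx => (lt_def.1 (hp x hx)).2.symm)
  by_contra hc
  have hβ : t ≤ 2 := by
    by_contra h2
    exact hc (lt_def.1 (hp t (by linarith))).1.le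
  obtain ⟨x, hx, e⟩ := intermediate_value_Icc hβ (f := fun x : ℝ => (Φ x).re)
    (fun x hx => (continuous_re.continuousAt.comp
      (ha x (ht.trans_le hx.1)).continuousAt).continuousWithinAt)
    (show (0 : ℝ) ∈ Icc _ _ from ⟨(not_le.1 hc).le, (lt_def.1 (hp 2 one_lt_two)).1.le⟩)
  have e0 : Φ x = 0 := Complex.ext e (hi (ht.trans_le hx.1))
  rcases le_or_gt x 1 with h2 | h2
  · exact hz x hx.1 h2 e0
  · exact (hp x h2).ne' e0

end

end Pool.Agent.P.MP_b8021b_nt.VC.KS
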