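import Pool.Agent.P.MP_b8021b_nt.VE.PLamP

/-! Dirichlet series of characters of ideals: convolution, logarithmic derivative, Euler factors. -/

namespace Pool.Agent.P.MP_b8021b_nt.VC.KS

open NumberField Finset VE Ideal LamP UniqueFactorizationMonoid Filter LSeries Asymptotics
open scoped Classical ComplexOrder

noncomputable section

/-! ### abstract logarithmic derivatives -/

/-- the Dirichlet convolution -/
abbrev cv (a b : ℕ → ℂ) : ℕ → ℂ := LSeries.convolution a b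

/-- `Λ` are the coefficients of minus the logarithmic derivative -/
def LD (a Λ : ℕ → ℂ) : Prop := logMul a = cv Λ a

theorem logMul_conv (a b : ℕ → ℂ) : logMul (cv a b) = cv (logMul a) b + cv a (logMul b) := by
  ext m
  simp only [logMul, convolution_def, Pi.add_apply, mul_sum, ← sum_add_distrib]
  refine sum_congr rfl fun p hp => ?_
  obtain ⟨h1, h2⟩ := Nat.mem_divisorsAntidiagonal.1 hp
  rw [← h1] at h2
  rw [← h1, ← Complex.natCast_log, ← Complex.natCast_log, ← Complex.natCast_log, Nat.cast_mul,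
    Real.log_mul (by simpa using left_ne_zero_of_mul h2) (by simpa using right_ne_zero_of_mul h2)]
  push_cast
  ring

theorem LD.conv {a b Λ Λ' : ℕ → ℂ} (h : LD a Λ) (h' : LD b Λ') : LD (cv a b) (Λ + Λ') := by
  have e : toArithmeticFunction (Λ + Λ') = toArithmeticFunction Λ + toArithmeticFunction Λ' := by
    ext m
    by_cases hm : m = 0 <;> simp [toArithmeticFunction, hm]
  rw [LD, logMul_conv, h, h']
  ext m
  simp only [LSeries.convolution, ArithmeticFunction.toArithmeticFunction_eq_self, e, Pi.add_apply,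
    ← ArithmeticFunction.add_apply]
  congr 1
  ring

theorem LD.nonneg {a Λ : ℕ → ℂ} (h : LD a Λ) (h1 : a 1 = 1) (h2 : Λ 1 = 0)
    (h0 : ∀ m, m ≠ 0 → 0 ≤ Λ m) (m : ℕ) : m ≠ 0 → 0 ≤ a m := by
  induction m using Nat.strong_induction_on with
  | _ m ih =>
  intro hm
  rcases eq_or_ne m 1 with rfl | h3
  · rw [h1]; exact zero_le_one
  have h4 : (0 : ℂ) < Real.log m := by
    exact_mod_cast Real.log_pos (by exact_mod_cast (by omega : 1 < m))
  refine le_of_mul_le_mul_left ((mul_zero _).trans_le ?_) h4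
  rw [Complex.natCast_log, show Complex.log m * a m = _ from congrFun h m, cv, convolution_def]
  refine sum_nonneg fun p hp => ?_
  obtain ⟨h5, -⟩ := Nat.mem_divisorsAntidiagonal.1 hp
  rcases eq_or_ne p.1 1 with h6 | h6
  · rw [h6, h2, zero_mul]
  · rw [← h5] at hm
    have h7 := left_ne_zero_of_mul hm
    have h8 := right_ne_zero_of_mul hm
    exact mul_nonneg (h0 _ h7) (ih _ (h5 ▸ lt_mul_left (by omega) (by omega)) h8)

theorem LD.le {a Λ : ℕ → ℂ} (h : LD a Λ) (h1 : a 1 = 1) (h2 : Λ 1 = 0)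
    (h0 : ∀ m, m ≠ 0 → 0 ≤ Λ m) {m : ℕ} (hm : m ≠ 0) : Λ m ≤ Real.log m * a m := by
  rw [Complex.natCast_log, show Complex.log m * a m = _ from congrFun h m, cv, convolution_def]
  refine le_trans (by rw [h1, mul_one]) (single_le_sum (f := fun p : ℕ × ℕ => Λ p.1 * a p.2)
    (a := (m, 1)) (fun p hp => ?_) (by simp [hm]))
  obtain ⟨h5, -⟩ := Nat.mem_divisorsAntidiagonal.1 hp
  rw [← h5] at hm
  exact mul_nonneg (h0 _ (left_ne_zero_of_mul hm)) (h.nonneg h1 h2 h0 _ (right_ne_zero_of_mul hm))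

/-! ### ideals -/

variable {L : Type} [Field L] [NumberField L] {χ : Ideal (𝓞 L) →* ℂ} {A B P : Ideal (𝓞 L)}
  {m : ℕ} {s : ℂ}

theorem mem_nI : A ∈ (fin (L := L) m).toFinset ↔ absNorm A = m := Set.Finite.mem_toFinset _

/-- the divisors of an ideal -/
def dv (A : Ideal (𝓞 L)) : Finset (Ideal (𝓞 L)) :=
  (finite_setOfPred_absNorm_le (absNorm A)).toFinset.filter (· ∣ A)

theorem mem_dv (hA : A ≠ ⊥) : B ∈ dv A ↔ B ∣ A := by
  rw [dv, mem_filter, Set.Finite.mem_toFinset, and_iff_right_iff_imp]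
  exact fun h => Nat.le_of_dvd (Nat.pos_of_ne_zero (absNorm_eq_zero_iff.not.2 hA)) (map_dvd _ h)

theorem conv (χ : Ideal (𝓞 L) →* ℂ) (v : Ideal (𝓞 L) → ℂ) (hm : m ≠ 0) :
    cv (lam fun B => χ B * v B) (lam χ) m = lam (fun A => χ A * ∑ B ∈ dv A, v B) m := by
  simp only [convolution_def, lam_eq, sum_mul_sum, ← sum_product']
  simp only [mul_sum, sum_sigma']
  have h0 : ∀ {A : Ideal (𝓞 L)}, absNorm A = m → A ≠ ⊥ := fun h e => hm (by simp [← h, e])
  refine sum_bij (fun x _ => ⟨x.2.1 * x.2.2, x.2.1⟩) ?_ ?_ ?_ ?_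
  · rintro ⟨p, B, C⟩ h
    simp only [mem_sigma, mem_product, mem_nI, Nat.mem_divisorsAntidiagonal] at h ⊢
    have h1 : absNorm (B * C) = m := by rw [map_mul, h.2.1, h.2.2, h.1.1]
    exact ⟨h1, (mem_dv (h0 h1)).2 (dvd_mul_right _ _)⟩
  · rintro ⟨p, B, C⟩ h ⟨p', B', C'⟩ h' e
    simp only [mem_sigma, mem_product, mem_nI, Nat.mem_divisorsAntidiagonal, Sigma.mk.injEq,
      heq_eq_eq] at h h' e
    obtain ⟨e, rfl⟩ := e
    obtain rfl := mul_left_cancel₀ (left_ne_zero_of_mul (h0 (A := B * C)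
      (by rw [map_mul, h.2.1, h.2.2, h.1.1]))) e
    rw [Prod.ext (h.2.1.symm.trans h'.2.1) (h.2.2.symm.trans h'.2.2)]
  · rintro ⟨A, B⟩ h
    simp only [mem_sigma, mem_nI] at h
    obtain ⟨C, rfl⟩ := (mem_dv (h0 h.1)).1 h.2
    refine ⟨⟨(absNorm B, absNorm C), B, C⟩, ?_, rfl⟩
    simp only [mem_sigma, mem_product, mem_nI, Nat.mem_divisorsAntidiagonal, ← map_mul]
    exact ⟨⟨h.1, hm⟩, trivial, trivial⟩
  · rintro ⟨p, B, C⟩ -
    simp only [map_mul]
    ring

theorem lam_congr {f g : Ideal (𝓞 L) → ℂ} (hm : m ≠ 0) (h : ∀ A, A ≠ ⊥ → f A = g A) :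
    lam f m = lam g m := by
  rw [lam_eq, lam_eq]
  exact sum_congr rfl fun A hA => h A fun e => hm (by simp [← mem_nI.1 hA, e])

theorem lam_one (f : Ideal (𝓞 L) → ℂ) : lam f 1 = f 1 := by
  rw [lam_eq, sum_eq_single_of_mem 1 (mem_nI.2 (map_one _)) fun B hB h =>
    (h ((absNorm_eq_one_iff.1 (mem_nI.1 hB)).trans one_eq_top.symm)).elim]

/-- the von Mangoldt function of ideals -/
def vM (A : Ideal (𝓞 L)) : ℝ := if IsPrimePow A then Real.log (absNorm A.radical) else 0

theorem vM_pow (hP : Prime P) {k : ℕ} (hk : k ≠ 0) : vM (P ^ k) = Real.log (absNorm P) := by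
  rw [vM, if_pos ((hP.isPrimePow).pow hk), Ideal.radical_pow _ hk, (isPrime_of_prime hP).radical]

theorem vM_nonneg (A : Ideal (𝓞 L)) : 0 ≤ vM A := by
  unfold vM
  split_ifs
  exacts [Real.log_natCast_nonneg _, le_rfl]

theorem vM_one : vM (1 : Ideal (𝓞 L)) = 0 := if_neg not_isPrimePow_one

theorem sum_vM (hA : A ≠ ⊥) : ∑ B ∈ dv A, vM B = Real.log (absNorm A) := by
  have h1 : ∀ P : Ideal (𝓞 L), Prime P → ∀ k, P ^ k ∣ A ↔ k ≤ (normalizedFactors A).count P :=
    fun P hP k => by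
      rw [pow_dvd_iff_le_emultiplicity, emultiplicity_eq_count_normalizedFactors hP.irreducible hA,
        normalize_eq, Nat.cast_le]
  have h2 : ∀ P ∈ (normalizedFactors A).toFinset, Prime P := fun P hP =>
    prime_of_normalized_factor P (Multiset.mem_toFinset.1 hP)
  symm
  conv_lhs => rw [← Ideal.prod_normalizedFactors_eq_self hA, prod_multiset_count, map_prod, Nat.cast_prod,
    Real.log_prod fun P hP => by
      simpa [absNorm_eq_zero_iff] using fun e => ((h2 P hP).ne_zero e).elim]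
  rw [sum_congr rfl (g := fun P => ∑ k ∈ Icc 1 ((normalizedFactors A).count P),
    Real.log (absNorm P)) fun P _ => by simp, sum_sigma']
  refine sum_of_injOn (fun x => x.1 ^ x.2) ?_ ?_ ?_ ?_
  · rintro ⟨P, k⟩ h ⟨Q, l⟩ h' (e : P ^ k = Q ^ l)
    simp only [coe_sigma, Set.mem_sigma_iff, mem_coe, mem_Icc] at h h'
    have h3 := congrArg Ideal.radical e
    rw [Ideal.radical_pow _ (by omega), Ideal.radical_pow _ (by omega),
      (isPrime_of_prime (h2 P h.1)).radical, (isPrime_of_prime (h2 Q h'.1)).radical] at h3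
    subst h3
    rw [pow_injective_of_not_isUnit (h2 P h.1).not_isUnit (h2 P h.1).ne_zero e]
  · rintro ⟨P, k⟩ h
    simp only [coe_sigma, Set.mem_sigma_iff, mem_coe, mem_Icc] at h
    exact (mem_dv hA).2 ((h1 P (h2 P h.1) k).2 h.2.2)
  · refine fun B hB h => if_neg fun ⟨P, k, a1, a2, a3⟩ => h ⟨⟨P, k⟩, ?_, a3⟩
    have h3 := (h1 P a1 k).1 (a3 ▸ (mem_dv hA).1 hB)
    simp only [coe_sigma, Set.mem_sigma_iff, mem_coe, mem_Icc, Multiset.mem_toFinset]
    exact ⟨Multiset.count_pos.1 (a2.trans_le h3), a2, h3⟩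
  · rintro ⟨P, k⟩ h
    simp only [mem_sigma, mem_Icc] at h
    exact (vM_pow (h2 P h.1) (Nat.one_le_iff_ne_zero.1 h.2.1)).symm

theorem vM_le (hA : A ≠ ⊥) : vM A ≤ Real.log (absNorm A) :=
  sum_vM hA ▸ single_le_sum (fun B _ => vM_nonneg B) ((mem_dv hA).2 dvd_rfl)

/-- the coefficients of minus the logarithmic derivative -/
def LamK (χ : Ideal (𝓞 L) → ℂ) : ℕ → ℂ := lam fun B => χ B * vM B

theorem log_lam (χ : Ideal (𝓞 L) →* ℂ) : LD (lam χ) (LamK χ) := by
  ext m
  rcases eq_or_ne m 0 with rfl | hm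
  · simp [logMul]
  rw [LamK, conv χ _ hm, logMul, lam_eq, lam_eq, mul_sum]
  refine sum_congr rfl fun A hA => ?_
  rw [← Complex.ofReal_sum, sum_vM fun e => hm (by simp [← mem_nI.1 hA, e]), mem_nI.1 hA,
    Complex.natCast_log, mul_comm]

theorem LamK_one (χ : Ideal (𝓞 L) → ℂ) : LamK χ 1 = 0 := by
  rw [LamK, lam_one, vM_one, Complex.ofReal_zero, mul_zero]

theorem norm_lam {f : Ideal (𝓞 L) → ℂ} {c : ℝ} (h : ∀ A, absNorm A = m → ‖f A‖ ≤ c) :
    ‖lam f m‖ ≤ c * ‖lam (fun _ : Ideal (𝓞 L) => 1) m‖ := by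
  rw [lam_eq, lam_eq]
  refine (norm_sum_le _ _).trans ((sum_le_sum fun A hA => h A (mem_nI.1 hA)).trans_eq ?_)
  simp [mul_comm]

theorem summable_one (hs : 1 < s.re) : LSeriesSummable (lam fun _ : Ideal (𝓞 L) => 1) s := by
  refine LSeriesSummable_of_sum_norm_bigO (r := 1) ?_ zero_le_one hs
  have h := (((tendsto_norm_le_div_atTop L).comp tendsto_natCast_atTop_atTop).isBigO_one ℝ).mul
    (isBigO_refl (fun n : ℕ => (n : ℝ)) atTop)
  simp only [one_mul, Real.rpow_one] at h ⊢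
  refine .trans (.of_bound' ?_) h
  filter_upwards [eventually_ne_atTop 0] with n hn
  rw [Function.comp_apply, div_mul_cancel₀ _ (by simpa using hn), Real.norm_natCast,
    Real.norm_of_nonneg (by positivity)]
  simp only [lam_eq, sum_const, nsmul_eq_mul, mul_one, Complex.norm_natCast, Nat.cast_le,
    ← Nat.cast_sum]
  rw [← card_biUnion fun i _ j _ e => disjoint_left.2 fun A a b =>
    e ((mem_nI.1 a).symm.trans (mem_nI.1 b))]
  refine (card_le_card (t := (finite_setOfPred_absNorm_le n).toFinset) fun A hA => ?_).trans_eq ?_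
  · obtain ⟨i, a, b⟩ := mem_biUnion.1 hA
    simpa [mem_nI.1 b] using (mem_Icc.1 a).2
  · rw [← Set.ncard_eq_toFinset_card _ (finite_setOfPred_absNorm_le n)]
    rfl

theorem summable_lam {f : Ideal (𝓞 L) → ℂ} (h : ∀ A, ‖f A‖ ≤ 1) (hs : 1 < s.re) :
    LSeriesSummable (lam f) s :=
  (summable_one (L := L) hs).norm.of_norm_bounded fun _ =>
    norm_term_le s ((norm_lam fun A _ => h A).trans_eq (one_mul _))

theorem absc_lam {f : Ideal (𝓞 L) → ℂ} (h : ∀ A, ‖f A‖ ≤ 1) (hs : 1 < s.re) :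
    abscissaOfAbsConv (lam f) < s.re :=
  (abscissaOfAbsConv_le_of_forall_lt_LSeriesSummable fun _ hy =>
    summable_lam h (by simpa using hy)).trans_lt (by exact_mod_cast hs)

theorem norm_LamK {f : Ideal (𝓞 L) → ℂ} (h : ∀ A, ‖f A‖ ≤ 1) (hm : m ≠ 0) :
    ‖LamK f m‖ ≤ Real.log m * ‖lam (fun _ : Ideal (𝓞 L) => 1) m‖ :=
  norm_lam fun A hA => by
    rw [norm_mul, Complex.norm_real, Real.norm_of_nonneg (vM_nonneg A), ← hA]
    exact (mul_le_of_le_one_left (vM_nonneg A) (h A)).trans (vM_le fun e => hm (by simp [← hA, e]))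

theorem summable_LamK {f : Ideal (𝓞 L) → ℂ} (h : ∀ A, ‖f A‖ ≤ 1) (hs : 1 < s.re) :
    LSeriesSummable (LamK f) s := by
  refine (LSeriesSummable_logMul_of_lt_re (absc_lam (f := fun _ : Ideal (𝓞 L) => 1) (by simp)
    hs)).norm.of_norm_bounded fun m => ?_
  rcases eq_or_ne m 0 with rfl | hm
  · simp
  rw [norm_term_eq, norm_term_eq, if_neg hm, if_neg hm, norm_mul, ← Complex.natCast_log,
    Complex.norm_real, Real.norm_of_nonneg (Real.log_natCast_nonneg m)]
  gcongr
  exact norm_LamK h hm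

theorem deriv_lam (h : ∀ A, ‖χ A‖ ≤ 1) (hs : 1 < s.re) :
    deriv (LSeries (lam χ)) s = -(LSeries (LamK χ) s * LSeries (lam χ) s) := by
  rw [LSeries_deriv (absc_lam h hs), log_lam χ,
    LSeries_convolution' (summable_LamK h hs) (summable_lam h hs)]

/-! ### Euler factors -/

/-- the trivial character of the ideals coprime to `M` -/
def cp (M : Ideal (𝓞 L)) : Ideal (𝓞 L) →* ℂ where
  toFun I := if IsCoprime I M then 1 else 0
  map_one' := if_pos isCoprime_one_left
  map_mul' I J := by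
    rw [IsCoprime.mul_left_iff]
    by_cases h : IsCoprime I M <;> by_cases h' : IsCoprime J M <;> simp [h, h']

omit [NumberField L] in
theorem cp_apply (M A : Ideal (𝓞 L)) : cp M A = if IsCoprime A M then 1 else 0 := rfl

omit [NumberField L] in
theorem norm_cp (h : ∀ A, ‖χ A‖ ≤ 1) (M A : Ideal (𝓞 L)) : ‖(χ * cp M) A‖ ≤ 1 := by
  rw [MonoidHom.mul_apply, cp_apply]
  split_ifs <;> simp [h]

theorem cop_prime (hP : Prime P) : IsCoprime A P ↔ ¬ P ∣ A :=
  ⟨fun h e => hP.not_isUnit (h.isUnit_of_dvd' e dvd_rfl), fun h => isCoprime_iff_sup_eq.2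
    (((isPrime_of_prime hP).isMaximal hP.ne_zero).1.2 _ (right_lt_sup.2 (dvd_iff_le.not.1 h)))⟩

theorem euler1 (h : ∀ A, ‖χ A‖ ≤ 1) (hP : Prime P) (hs : 1 < s.re) :
    LSeries (lam ⇑(χ * cp P)) s = (1 - χ P * (absNorm P : ℂ) ^ (-s)) * LSeries (lam χ) s := by
  have h0 : absNorm P ≠ 0 := absNorm_eq_zero_iff.not.2 hP.ne_zero
  have h1 : ∀ Q : Ideal (𝓞 L), absNorm Q ≠ 0 → LSeriesHasSum
      (lam fun B => χ B * if B = Q then 1 else 0) s (χ Q * (absNorm Q : ℂ) ^ (-s)) := fun Q hQ => by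
    have h2 : ∀ j, lam (fun B => χ B * if B = Q then 1 else 0) j =
        if absNorm Q = j then χ Q else 0 := fun j => by simp [lam_eq, nI]
    have h3 := hasSum_single (f := term (lam fun B => χ B * if B = Q then 1 else 0) s) (absNorm Q)
      fun j hj => by rw [term_def, h2, if_neg hj.symm, zero_div, ite_self]
    rwa [term_of_ne_zero hQ, h2, if_pos rfl, div_eq_mul_inv, ← Complex.cpow_neg] at h3
  have h2 := ((h1 1 (by simp)).sub (h1 P h0)).convolution (summable_lam h hs).LSeriesHasSum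
  rw [map_one, map_one, Nat.cast_one, Complex.one_cpow, mul_one] at h2
  rw [← h2.LSeries_eq]
  refine LSeries_congr (fun {j} hj => ?_) s
  rw [show ((lam fun B => χ B * if B = 1 then 1 else 0) - lam fun B => χ B * if B = P then 1 else 0)
    = lam fun B => χ B * ((if B = 1 then 1 else 0) - if B = P then 1 else 0) from by
      ext j
      simp only [Pi.sub_apply, lam_eq, mul_sub, sum_sub_distrib]]
  refine (lam_congr hj fun A hA => ?_).trans (conv χ _ hj).symm
  simp only [MonoidHom.mul_apply, cp_apply, cop_prime hP, sum_sub_distrib, sum_ite_eq', mem_dv hA,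
    one_dvd, if_true]
  by_cases e : P ∣ A <;> simp [e]

theorem euler {M : Ideal (𝓞 L)} (hM : M ≠ ⊥) : ∃ C : ℝ, 1 ≤ C ∧ ∀ χ : Ideal (𝓞 L) →* ℂ,
    (∀ A, ‖χ A‖ ≤ 1) → ∃ E : ℂ → ℂ, Differentiable ℂ E ∧ (∀ s : ℂ, 0 ≤ s.re → ‖E s‖ ≤ C) ∧
      ∀ s : ℂ, 1 < s.re → LSeries (lam ⇑(χ * cp M)) s = E s * LSeries (lam χ) s := by
  induction M using induction_on_prime with
  | h₁ => exact (hM rfl).elim
  | h₂ M h =>
    refine ⟨1, le_rfl, fun χ _ => ⟨1, differentiable_const _, by simp, fun s _ => ?_⟩⟩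
    rw [Pi.one_apply, one_mul, isUnit_iff_eq_one.1 h]
    congr
    ext A
    simp [cp_apply, isCoprime_one_right, - one_eq_top]
  | h₃ M P h0 hP ih =>
    obtain ⟨C, c1, hC⟩ := ih h0
    have h1 : absNorm P ≠ 0 := absNorm_eq_zero_iff.not.2 hP.ne_zero
    refine ⟨2 * C, by linarith, fun χ h => ?_⟩
    obtain ⟨E, e1, e2, e3⟩ := hC χ h
    refine ⟨fun s => (1 - (χ * cp M) P * (absNorm P : ℂ) ^ (-s)) * E s,
      ((differentiable_neg.const_cpow (.inl (by simpa using h1))).const_mul _).const_sub _ |>.mul e1,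
      fun s hs => ?_, fun s hs => ?_⟩
    · rw [norm_mul]
      refine mul_le_mul ((norm_sub_le _ _).trans ?_) (e2 s hs) (norm_nonneg _) zero_le_two
      rw [norm_one, norm_mul, Complex.norm_natCast_cpow_of_pos (Nat.pos_of_ne_zero h1)]
      have h2 : (absNorm P : ℝ) ^ (-s).re ≤ 1 := Real.rpow_le_one_of_one_le_of_nonpos
        (Nat.one_le_cast.2 (Nat.pos_of_ne_zero h1)) (by simpa using hs)
      linarith [mul_le_one₀ (norm_cp h M P) (by positivity) h2]
    · rw [mul_assoc, ← e3 s hs, ← euler1 (norm_cp h M) hP hs]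
      refine congrArg (fun f => LSeries (lam f) s) (funext fun A => ?_)
      simp only [MonoidHom.mul_apply, cp_apply, IsCoprime.mul_right_iff]
      by_cases a : IsCoprime A P <;> by_cases b : IsCoprime A M <;> simp [a, b]

end

end Pool.Agent.P.MP_b8021b_nt.VC.KS
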