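import Pool.Agent.P.MP_b8021b_nt.VC.KS2
import Pool.Agent.P.MP_b8021b_nt.VC.KS3
import Pool.Agent.P.MP_b8021b_nt.VC.KS4

/-! Siegel's theorem for real ray class characters of an imaginary quadratic field. -/

namespace Pool.Agent.P.MP_b8021b_nt.VC

namespace KS

open NumberField Finset VE Ideal LamP LSeries Metric
open scoped Classical ComplexOrder

noncomputable section

variable {L : Type} [Field L] [NumberField L] {χ ξ : Ideal (𝓞 L) →* ℂ} {m n : ℕ} {t : ℝ} {S : ℂ}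

/-- the coefficients without the zero ideal -/
def lam0 (χ : Ideal (𝓞 L) → ℂ) (j : ℕ) : ℂ := if j = 0 then 0 else lam χ j

theorem has_lam0 (h : HasSum (tm χ t) S) :
    HasSum (fun j : ℕ => lam0 χ j * Real.exp (-j * t)) S := by
  refine (h.tsum_fiberwise absNorm).congr_fun fun j => ?_
  rw [show absNorm ⁻¹' {j} = ↑(fin (L := L) j).toFinset from (Set.Finite.coe_toFinset _).symm,
    Finset.tsum_subtype' _ (tm χ t), lam0]
  split_ifs with hj
  · exact (zero_mul _).trans (sum_eq_zero fun A hA =>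
      if_pos (absNorm_eq_zero_iff.1 ((mem_nI.1 hA).trans hj))).symm
  · rw [lam_eq, sum_mul]
    refine sum_congr rfl fun A hA => ?_
    rw [tm, if_neg fun e => hj (by simp [← mem_nI.1 hA, e]), mem_nI.1 hA, neg_mul, mul_comm t]

theorem ls_lam0 (χ : Ideal (𝓞 L) → ℂ) (s : ℂ) : LSeries (lam0 χ) s = LSeries (lam χ) s :=
  LSeries_congr (fun h => if_neg h) s

omit [NumberField L] in
theorem T0_one : T0 1 (1 : Ideal (𝓞 L) →* ℂ) :=
  ⟨⟨fun _ _ => norm_one, fun I h => (h (by simp [Cop, isCoprime_one_right, ← one_eq_top])).elim⟩,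
    fun _ _ => rfl⟩

omit [NumberField L] in
theorem cop_mul' {A : Ideal (𝓞 L)} : Cop (m * n) A ↔ Cop m A ∧ Cop n A := by
  rw [Cop, Nat.cast_mul, ← span_singleton_mul_span_singleton, IsCoprime.mul_right_iff, Cop, Cop]

omit [NumberField L] in
theorem T0.mul (h : T0 m χ) (h' : T0 n ξ) : T0 (m * n) (χ * ξ) := by
  refine ⟨⟨fun A a => ?_, fun A a => ?_⟩, fun α a => ?_⟩ <;> rw [MonoidHom.mul_apply]
  · rw [norm_mul, h.1.norm_cop A (cop_mul'.1 a).1, h'.1.norm_cop A (cop_mul'.1 a).2, one_mul]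
  · exact mul_eq_zero.2 ((not_and_or.1 (cop_mul'.not.1 a)).imp (h.1.zero A) (h'.1.zero A))
  · rw [Nat.cast_mul] at a
    rw [h.2 α (dvd_of_mul_right_dvd a), h'.2 α (dvd_of_mul_left_dvd a), one_mul]

/-- continuation to the right half plane -/
def Ct (χ : Ideal (𝓞 L) → ℂ) (G : ℂ → ℂ) : Prop :=
  DifferentiableOn ℂ G Hp ∧ ∀ s : ℂ, 1 < s.re → G s = LSeries (lam χ) s

theorem an (K : IQ L) {δ : ℝ} (h0 : 0 < δ) (h1 : δ ≤ 1) : ∃ (C : ℝ) (Z : ℂ → ℂ), 1 ≤ C ∧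
    DifferentiableOn ℂ Z Hp ∧
    (∀ s : ℂ, 1 < s.re → Z s = (s - 1) * LSeries (lam (1 : Ideal (𝓞 L) →* ℂ)) s) ∧
    ∀ (n : ℕ) (χ : Ideal (𝓞 L) →* ℂ), n ≠ 0 → T0 n χ → ¬ IsTriv n χ → ∃ G, Ct χ G ∧
      (∀ s ∈ closedBall (2 : ℂ) (3 / 2), ‖G s‖ ≤ C * n ^ 4) ∧ ‖G 1‖ ≤ C * n ^ (4 * δ) := by
  obtain ⟨C, C1, hC⟩ := thK K
  obtain ⟨D, D1, hD⟩ := cont0 h0 h1
  obtain ⟨a, -, ha⟩ := hC 1 1 one_ne_zero T0_one
  have key : ∀ (n : ℕ) (χ : Ideal (𝓞 L) →* ℂ) (c : ℂ), T0 n χ → (∀ t : ℝ, 0 < t → t ≤ 1 →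
      ∃ S, HasSum (tm χ t) S ∧ ‖S - c / t‖ ≤ C * n ^ 4) →
      Th (lam0 χ) c (‖a‖ + C) (C * n ^ 4) := fun n χ c h hc => by
    refine ⟨if_pos rfl, fun t t0 t1 => ?_, fun t t0 t1 => ?_⟩
    · obtain ⟨S, a1, a2⟩ := ha t t0 t1
      have h2 := Complex.hasSum_re (has_lam0 a1)
      have h3 : ∀ j : ℕ, ‖lam0 χ j‖ * Real.exp (-j * t) ≤
          (lam0 (1 : Ideal (𝓞 L) →* ℂ) j * Real.exp (-j * t)).re := fun j => by
        rw [Complex.re_mul_ofReal]
        gcongr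
        unfold lam0
        split_ifs
        · simp
        · rw [lam_eq, lam_eq, Complex.re_sum]
          exact norm_sum_le_of_le _ fun A _ => norm_le h.1 A
      have h4 := h2.summable.of_nonneg_of_le (fun _ => by positivity) h3
      refine ⟨_, h4.hasSum, (hasSum_le h3 h4.hasSum h2).trans ((Complex.re_le_norm S).trans ?_)⟩
      have h5 := norm_le_norm_add_norm_sub' S (a / t)
      rw [norm_div, Complex.norm_real, Real.norm_of_nonneg t0.le] at h5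
      rw [Nat.cast_one, one_pow, mul_one] at a2
      rw [add_div]
      linarith [(le_div_iff₀ t0).2 (mul_le_of_le_one_right (zero_le_one.trans C1) t1)]
    · obtain ⟨S, a1, a2⟩ := hc t t0 t1
      rwa [Ft, (has_lam0 a1).tsum_eq]
  obtain ⟨Z, z1, z2⟩ := contZ (key 1 1 a T0_one ha)
  have B1 : 1 ≤ ‖a‖ + C := by linarith [norm_nonneg a]
  refine ⟨D * (‖a‖ + C) * C, Z, one_le_mul_of_one_le_of_one_le
    (one_le_mul_of_one_le_of_one_le D1 B1) C1, z1, fun s hs => by rw [z2 s hs, ls_lam0],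
    fun n χ hn h h2 => ?_⟩
  obtain ⟨c, c0, hc⟩ := hC n χ hn h
  obtain rfl := c0 h2
  have n1 : (1 : ℝ) ≤ n := Nat.one_le_cast.2 (Nat.pos_of_ne_zero hn)
  obtain ⟨G, g1, g2, g3, g4⟩ := hD _ _ _ (key n χ 0 h hc) B1
    (one_le_mul_of_one_le_of_one_le C1 (one_le_pow₀ n1))
  refine ⟨G, ⟨g1, fun s hs => by rw [g2 s hs, ls_lam0]⟩, fun s hs => (g3 s hs).trans_eq (by ring),
    g4.trans ?_⟩
  rw [Real.mul_rpow (by positivity) (by positivity), ← Real.rpow_natCast,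
    ← Real.rpow_mul (by positivity), ← mul_assoc, Nat.cast_ofNat]
  gcongr
  exact Real.rpow_le_self_of_one_le C1 h1

theorem ball_Hp : closedBall (2 : ℂ) (3 / 2) ⊆ Hp :=
  (closedBall_subset_ball (by norm_num)).trans ball_sub

theorem bdd {Φ : ℂ → ℂ} (h : DifferentiableOn ℂ Φ Hp) :
    ∃ D : ℝ, 1 ≤ D ∧ ∀ s ∈ closedBall (2 : ℂ) (3 / 2), ‖Φ s‖ ≤ D :=
  let ⟨D, hD⟩ := (isCompact_closedBall _ _).exists_bound_of_continuousOn
    (h.continuousOn.mono ball_Hp)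
  ⟨max 1 D, le_max_left _ _, fun s hs => (hD s hs).trans (le_max_right _ _)⟩

theorem ident {F G : ℂ → ℂ} (hF : DifferentiableOn ℂ F Hp) (hG : DifferentiableOn ℂ G Hp)
    (h : ∀ s : ℂ, 1 < s.re → F s = G s) : Set.EqOn F G Hp :=
  (hF.analyticOnNhd (isOpen_re 0)).eqOn_of_preconnected_of_eventuallyEq
    (hG.analyticOnNhd (isOpen_re 0)) (convex_halfSpace_re_gt 0).isPreconnected (z₀ := 2)
    (by simp [Hp]) (Filter.eventually_of_mem ((isOpen_re 1).mem_nhds (by simp)) h)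

/-- a real character -/
def Rv (χ : Ideal (𝓞 L) → ℂ) : Prop := ∀ A, χ A = 0 ∨ χ A = 1 ∨ χ A = -1

omit [NumberField L] in
theorem rv (h : IsChar n χ) (h2 : IsTriv n (χ ^ 2)) : Rv χ := fun A => by
  by_cases a : Cop n A
  · exact .inr (sq_eq_one_iff.1 (h2 A a))
  · exact .inl (h.zero A a)

omit [NumberField L] in
theorem Rv.nn (h : Rv χ) (A : Ideal (𝓞 L)) : 0 ≤ 1 + χ A := by
  rcases h A with e | e | e <;> norm_num [e]

omit [NumberField L] in
theorem Rv.le (h : Rv χ) (A : Ideal (𝓞 L)) : ‖χ A‖ ≤ 1 := by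
  rcases h A with e | e | e <;> simp [e]

omit [NumberField L] in
theorem Rv.mul (h : Rv χ) (h' : Rv ξ) : Rv ⇑(χ * ξ) := fun A => by
  rcases h A with e | e | e <;> rcases h' A with e' | e' | e' <;> simp [e, e']

omit [NumberField L] in
theorem rv_cp (M : Ideal (𝓞 L)) : Rv (cp M) := fun A => by
  rw [cp_apply]
  split_ifs <;> simp

/-- the coefficients of `ζ(s) L(s, χ)` -/
def two (χ : Ideal (𝓞 L) →* ℂ) : ℕ → ℂ := cv (lam (1 : Ideal (𝓞 L) →* ℂ)) (lam χ)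

theorem cv_one (a b : ℕ → ℂ) : cv a b 1 = a 1 * b 1 := by simp [convolution_def]

theorem two_one : two χ 1 = 1 := by simp [two, cv_one, lam_one, - one_eq_top]

theorem two_LD : LD (two χ) (LamK (1 : Ideal (𝓞 L) →* ℂ) + LamK χ) := (log_lam 1).conv (log_lam χ)

theorem two_eq : (LamK (1 : Ideal (𝓞 L) →* ℂ) + LamK χ) m =
    ∑ B ∈ (fin m).toFinset, (1 + χ B) * vM B := by
  simp only [Pi.add_apply, LamK, lam_eq, ← sum_add_distrib, add_mul, MonoidHom.one_apply]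

theorem Rv.term (h : Rv χ) (B : Ideal (𝓞 L)) : 0 ≤ (1 + χ B) * vM B :=
  mul_nonneg (h.nn B) (by exact_mod_cast vM_nonneg B)

theorem nn_of {a b : ℕ → ℂ} (h : ∀ m, m ≠ 0 → 0 ≤ cv a b m) : 0 ≤ cv a b := fun m => by
  rcases eq_or_ne m 0 with rfl | hm
  · simp
  · exact h m hm

theorem two_nonneg (h : Rv χ) : 0 ≤ two χ :=
  nn_of (two_LD.nonneg two_one (by simp [LamK_one]) fun _ _ =>
    two_eq (χ := χ) ▸ sum_nonneg fun B _ => h.term B)

theorem two_sum (h : Rv χ) (s : ℂ) (hs : 1 < s.re) : LSeriesSummable (two χ) s :=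
  (summable_lam (by simp) hs).convolution (summable_lam h.le hs)

theorem two_L (h : Rv χ) {s : ℂ} (hs : 1 < s.re) :
    LSeries (two χ) s = LSeries (lam (1 : Ideal (𝓞 L) →* ℂ)) s * LSeries (lam χ) s :=
  LSeries_convolution' (summable_lam (by simp) hs) (summable_lam h.le hs)

theorem four_nonneg (h : Rv χ) (h' : Rv ξ) : 0 ≤ cv (two χ) (cv (lam ξ) (lam ⇑(χ * ξ))) := by
  refine nn_of ((two_LD.conv ((log_lam ξ).conv (log_lam (χ * ξ)))).nonneg
    (by simp [two_one, cv_one, lam_one, - one_eq_top]) (by simp [LamK_one]) fun m _ => ?_)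
  simp only [Pi.add_apply, LamK, lam_eq, ← sum_add_distrib, MonoidHom.one_apply,
    MonoidHom.mul_apply]
  exact sum_nonneg fun B _ => (mul_nonneg (h'.nn B) (h.term B)).trans_eq (by ring)

theorem two_p (K : IQ L) (hn : n ≠ 0) (h : IsChar n χ) (h2 : IsTriv n (χ ^ 2)) (p : ℕ)
    (hp : p.Prime) (h3 : n < p) : 1 / 2 ≤ two χ (p ^ 4) := by
  have e : ∀ m : ℕ, absNorm (span {(m : 𝓞 L)}) = m ^ 2 := fun m => by
    rw [absNorm_span_natCast, RingOfIntegers.rank, K.deg]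
  obtain ⟨P, a1, a2⟩ := WfDvdMonoid.exists_irreducible_factor (a := span {(p : 𝓞 L)})
    (fun a => hp.ne_one (Nat.pow_eq_one.1 ((e p).symm.trans
      (absNorm_eq_one_iff.2 (Ideal.isUnit_iff.1 a))) |>.resolve_right two_ne_zero))
    (span_singleton_eq_bot.not.2 (Nat.cast_ne_zero.2 hp.ne_zero))
  obtain ⟨f, f2, hf⟩ := (Nat.dvd_prime_pow hp).1 (e p ▸ map_dvd absNorm a2)
  have f0 : f ≠ 0 := fun a => a1.not_isUnit (Ideal.isUnit_iff.2 (absNorm_eq_one_iff.1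
    (by rw [hf, a, pow_zero])))
  have h4 : Cop n P := ((cop_prime a1.prime).2 fun a => (Nat.le_of_dvd (Nat.pos_of_ne_zero hn)
    (hp.dvd_of_dvd_pow ((dvd_pow_self p f0).trans (hf ▸ e n ▸ map_dvd absNorm a)))).not_gt h3).symm
  obtain ⟨k, hk⟩ : ∃ k, f * (2 * k) = 4 := by
    obtain rfl | rfl : f = 1 ∨ f = 2 := by omega
    exacts [⟨2, rfl⟩, ⟨1, rfl⟩]
  have h5 := (two_LD (χ := χ)).le two_one (by simp [LamK_one]) (fun _ _ =>
    two_eq (χ := χ) ▸ sum_nonneg fun B _ => (rv h h2).term B) (pow_ne_zero 4 hp.ne_zero)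
  rw [two_eq] at h5
  have h6 := (single_le_sum (fun B _ => (rv h h2).term B) (a := P ^ (2 * k))
    (mem_nI.2 (by rw [map_pow, hf, ← pow_mul, hk]))).trans h5
  have h7 : 0 < Real.log p := Real.log_pos (by exact_mod_cast hp.one_lt)
  rw [vM_pow a1.prime (by rintro a; simp [a] at hk), map_pow, pow_mul,
    show χ P ^ 2 = 1 from h2 P h4, one_pow, hf, Nat.cast_pow, Nat.cast_pow, Real.log_pow,
    Real.log_pow] at h6
  refine le_of_mul_le_mul_left (le_trans ?_ h6) (by exact_mod_cast (by positivity))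
  have h8 : (1 : ℝ) ≤ f := Nat.one_le_cast.2 (Nat.pos_of_ne_zero f0)
  have h9 := Complex.real_le_real.2 (show ((4 : ℕ) * Real.log p) * (1 / 2) ≤
    (1 + 1) * (f * Real.log p) by push_cast; nlinarith)
  push_cast at h9 ⊢
  exact h9

theorem fb {A B X x v e : ℝ} (hA : 1 ≤ A) (hB : 0 < B) (hx : 1 ≤ x) (t0 : 0 < t)
    (h : 32 * t + v ≤ e) (H : 1 / 100 * t * (A * x ^ 8) ^ (-(4 * t)) ≤ B * x ^ v * X) :
    1 / 100 * t * A ^ (-(4 * t)) / B * x ^ (-e) ≤ X := by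
  refine MP_0ad054_nt.An.SiegelP.final_bound (by positivity) hB hx h (le_of_eq_of_le ?_ H)
  rw [Real.mul_rpow (by positivity) (by positivity), ← Real.rpow_natCast,
    ← Real.rpow_mul (by positivity), ← mul_assoc]
  congr 2
  push_cast
  ring

end

end KS

open NumberField VE KS Metric Ideal

/-- Siegel's theorem -/
theorem siegelK (L : Type) [Field L] [NumberField L] (K : IQ L) (e : ℝ) (he : 0 < e) :
    ∃ c : ℝ, 0 < c ∧ ∀ (n : ℕ) (χ : Ideal (𝓞 L) →* ℂ), n ≠ 0 → IsChar n χ →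
      (∀ a : 𝓞 L, (n : 𝓞 L) ∣ a - 1 → χ (span {a}) = 1) → IsTriv n (χ ^ 2) → ¬ IsTriv n χ →
      ∃ F : ℂ → ℂ, DifferentiableOn ℂ F {s | 0 < s.re} ∧
        (∀ s : ℂ, 1 < s.re → F s = LSeries (lam χ) s) ∧ c * (n : ℝ) ^ (-e) ≤ ‖F 1‖ := by
  obtain ⟨η, η0, η1, η2⟩ : ∃ η : ℝ, 0 < η ∧ η ≤ 1 / 8 ∧ η ≤ e / 64 :=
    ⟨min (1 / 8) (e / 64), by positivity, min_le_left _ _, min_le_right _ _⟩
  obtain ⟨C, Z, C1, z1, z2, hC⟩ := an K η0 (by linarith)
  obtain ⟨D, D1, hD⟩ := bdd z1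
  have b1 : (1 : ℂ) ∈ closedBall (2 : ℂ) (3 / 2) := by rw [mem_closedBall, dist_eq_norm]; norm_num
  have k1 : ∀ {χ : Ideal (𝓞 L) →* ℂ} {G : ℂ → ℂ}, Rv χ → Ct χ G → ∀ s : ℂ, 1 < s.re →
      Z s * G s = (s - 1) * LSeries (two χ) s := fun h g s hs => by
    rw [z2 s hs, g.2 s hs, two_L h hs, mul_assoc]
  have k2 : ∀ {n : ℕ}, n ≠ 0 → (1 : ℝ) ≤ n := fun h => Nat.one_le_cast.2 (Nat.pos_of_ne_zero h)
  have k3 : ∀ {n : ℕ}, n ≠ 0 → C * (n : ℝ) ^ 4 ≤ C * n ^ 8 := fun h =>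
    mul_le_mul_of_nonneg_left (pow_le_pow_right₀ (k2 h) (by omega)) (by linarith)
  by_cases hex : ∃ (m : ℕ) (ξ : Ideal (𝓞 L) →* ℂ) (H : ℂ → ℂ) (x : ℝ), m ≠ 0 ∧ T0 m ξ ∧
    IsTriv m (ξ ^ 2) ∧ Ct ξ H ∧ 1 - η ≤ x ∧ x < 1 ∧ Z x * H x = 0
  · obtain ⟨m, ξ, H, x, hm, h1, h2, h3, x1, x2, hx⟩ := hex
    obtain ⟨t, rfl⟩ : ∃ t, x = 1 - t := ⟨1 - x, by ring⟩
    have t0 : 0 < t := by linarith
    have m1 := k2 hm
    have r1 := rv h1.1 h2
    obtain ⟨D', D1', hD'⟩ := bdd (z1.mul h3.1)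
    obtain ⟨C', C1', hC'⟩ := euler (M := span {(m : 𝓞 L)})
      (span_singleton_eq_bot.not.2 (Nat.cast_ne_zero.2 hm))
    refine ⟨min (1 / 100 * t * (D * C' * C) ^ (-(4 * t)) / (D * C'))
      (1 / 100 * t * (D' * C ^ 2 * m ^ 4) ^ (-(4 * t)) / (D' * C * m ^ (4 * η))), by positivity,
      fun n χ hn c1 c2 c3 c4 => ?_⟩
    obtain ⟨G, g1, g2, -⟩ := hC n χ hn ⟨c1, c2⟩ c4
    have n1 := k2 hn
    have r2 := rv c1 c3
    refine ⟨G, g1.1, g1.2, ?_⟩
    by_cases h4 : IsTriv (m * n) (ξ * χ)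
    · obtain ⟨E, e1, e2, e3⟩ := hC' χ r2.le
      obtain ⟨_, -, h5⟩ := euler (M := span {(n : 𝓞 L)})
        (span_singleton_eq_bot.not.2 (Nat.cast_ne_zero.2 hn))
      obtain ⟨E', e1', -, e3'⟩ := h5 ξ r1.le
      have r3 := r2.mul (rv_cp (span {(m : 𝓞 L)}))
      have g3 : Ct ⇑(χ * cp (span {(m : 𝓞 L)})) (E * G) :=
        ⟨e1.differentiableOn.mul g1.1, fun s hs => by rw [e3 s hs, Pi.mul_apply, g1.2 s hs]⟩
      have h6 : χ * cp (span {(m : 𝓞 L)}) = ξ * cp (span {(n : 𝓞 L)}) := by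
        ext A
        rw [MonoidHom.mul_apply, MonoidHom.mul_apply, cp_apply, cp_apply]
        by_cases a : IsCoprime A (span {(m : 𝓞 L)}) <;> by_cases b : IsCoprime A (span {(n : 𝓞 L)})
        · rw [if_pos a, if_pos b, mul_one, mul_one]
          refine (left_inv_eq_right_inv (a := χ A) ?_ ?_).symm
          exacts [h4 A (cop_mul'.2 ⟨a, b⟩), (sq _).symm.trans (c3 A b)]
        · rw [if_neg b, c1.zero A b, zero_mul, mul_zero]
        · rw [if_neg a, h1.1.zero A a, zero_mul, mul_zero]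
        · rw [if_neg a, if_neg b, mul_zero, mul_zero]
      have h7 := ident g3.1 (e1'.differentiableOn.mul h3.1) (fun s hs => by
        rw [g3.2 s hs, h6, e3' s hs, Pi.mul_apply, h3.2 s hs]) (x := (1 - t : ℝ))
        (by simp [Hp]; linarith)
      have h8 := est (z1.mul g3.1) (two_nonneg r3) two_one (two_sum r3) (k1 r3 g3)
        (M := D * C' * C * n ^ 8) (by bound) (fun s hs => by
          rw [Pi.mul_apply, norm_mul, Pi.mul_apply, norm_mul]
          calc _ ≤ D * (C' * (C * n ^ 8)) := by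
                gcongr
                exacts [hD s hs, e2 s (ball_Hp hs).le, (g2 s hs).trans (k3 hn)]
            _ = _ := by ring) t0 (by linarith) (by
          rw [Pi.mul_apply, h7, Pi.mul_apply, mul_left_comm, hx, mul_zero, Complex.zero_re])
      refine le_trans (by gcongr; exact min_le_left _ _) (fb (v := 0) (by bound) (by positivity) n1
        t0 (by linarith) (h8.trans ?_))
      rw [Pi.mul_apply, norm_mul, Pi.mul_apply, norm_mul, Real.rpow_zero, mul_one, mul_assoc]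
      gcongr
      exacts [hD 1 b1, e2 1 (by simp)]
    · obtain ⟨G', g1', g2', g3'⟩ := hC _ _ (mul_ne_zero hm hn) (h1.mul ⟨c1, c2⟩) h4
      have r3 := r1.mul r2
      have h5 := fun s hs => (summable_lam r2.le (s := s) hs).convolution (summable_lam r3.le hs)
      have h8 := est ((z1.mul h3.1).mul (g1.1.mul g1'.1)) (four_nonneg r1 r2)
        (by simp [two_one, cv_one, lam_one, - one_eq_top])
        (fun s hs => (two_sum r1 s hs).convolution (h5 s hs)) (fun s hs => by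
          rw [LSeries_convolution' (two_sum r1 s hs) (h5 s hs), LSeries_convolution'
            (summable_lam r2.le hs) (summable_lam r3.le hs), ← mul_assoc (s - 1), ← k1 r1 h3 s hs,
            ← g1.2 s hs, ← g1'.2 s hs]
          rfl)
        (M := D' * C ^ 2 * m ^ 4 * n ^ 8) (by bound) (fun s hs => by
          rw [Pi.mul_apply, norm_mul, Pi.mul_apply G, norm_mul]
          calc _ ≤ D' * (C * n ^ 4 * (C * (m * n : ℕ) ^ 4)) := by
                gcongr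
                exacts [hD' s hs, g2 s hs, g2' s hs]
            _ = _ := by push_cast; ring) t0 (by linarith) (by
          rw [Pi.mul_apply, Pi.mul_apply, hx, zero_mul, Complex.zero_re])
      refine le_trans (by gcongr; exact min_le_right _ _) (fb (v := 4 * η) (by bound)
        (by positivity) n1 t0 (by linarith) (h8.trans ?_))
      rw [Pi.mul_apply, norm_mul, Pi.mul_apply G, norm_mul]
      rw [Nat.cast_mul, Real.mul_rpow (by positivity) (by positivity)] at g3'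
      calc _ ≤ D' * (‖G 1‖ * (C * (m ^ (4 * η) * n ^ (4 * η)))) := by
            gcongr
            exact hD' 1 b1
        _ = _ := by ring
  · refine ⟨1 / 100 * η * (D * C) ^ (-(4 * η)) / D, by positivity, fun n χ hn c1 c2 c3 c4 => ?_⟩
    obtain ⟨G, g1, g2, -⟩ := hC n χ hn ⟨c1, c2⟩ c4
    have n1 := k2 hn
    have r2 := rv c1 c3
    refine ⟨G, g1.1, g1.2, fb (v := 0) (by bound) (by positivity) n1 η0 (by linarith) ?_⟩
    refine (est (z1.mul g1.1) (two_nonneg r2) two_one (two_sum r2) (k1 r2 g1) (by bound)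
      (fun s hs => ?_) η0 η1 (re_nonneg (z1.mul g1.1) (two_nonneg r2) two_one (two_sum r2)
        (k1 r2 g1) (by linarith) fun x x1 x2 hx => ?_)).trans ?_
    · rw [Pi.mul_apply, norm_mul, mul_assoc]
      gcongr
      exacts [hD s hs, (g2 s hs).trans (k3 hn)]
    · rcases x2.eq_or_lt with rfl | x2
      · exact landau (z1.mul g1.1) (two_nonneg r2) (two_sum r2) (k1 r2 g1) (two_p K hn c1 c3) hx
      · exact hex ⟨n, χ, G, x, hn, ⟨c1, c2⟩, c3, g1, x1, x2, hx⟩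
    · rw [Pi.mul_apply, norm_mul, Real.rpow_zero, mul_one]
      gcongr
      exact hD 1 b1

end Pool.Agent.P.MP_b8021b_nt.VC
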