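import Pool.Agent.P.MP_0ad054_nt.An.Lup

/-! Continuation of a Dirichlet series whose partial sums have a power saving. -/

namespace Pool.Agent.P.MP_b8021b_nt.VC.KL

open Finset Complex Filter Topology Pool.Agent.P.MP_0ad054_nt.An Pool.Agent.P.MP_0ad054_nt.An.LupP

/-- partial sums -/
noncomputable def PS (a : ℕ → ℂ) (N : ℕ) : ℂ := ∑ n ∈ range N, a (n + 1)

/-- terms of the series summed by parts -/
noncomputable def tm (a : ℕ → ℂ) (n : ℕ) (s : ℂ) : ℂ :=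
  PS a (n + 1) * (((n : ℂ) + 1) ^ (-s) - (((n + 1 : ℕ) : ℂ) + 1) ^ (-s))

/-- the continuation -/
noncomputable def Fa (a : ℕ → ℂ) (s : ℂ) : ℂ := ∑' n, tm a n s

variable {a : ℕ → ℂ} {M θ : ℝ} {s : ℂ}

lemma PS_eq (a : ℕ → ℂ) (N : ℕ) : PS a N = ∑ n ∈ Icc 1 N, a n := by
  rw [PS, ← Nat.Ico_zero_eq_range, sum_Ico_add' a 0 N 1, zero_add, Ico_add_one_right_eq_Icc]

lemma sum_tm (a : ℕ → ℂ) (s : ℂ) (N : ℕ) : ∑ n ∈ range N, tm a n s =
    ∑ n ∈ range N, a (n + 1) * ((n : ℂ) + 1) ^ (-s) - PS a N * ((N : ℂ) + 1) ^ (-s) := by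
  induction N with
  | zero => simp [PS]
  | succ N ih =>
    rw [sum_range_succ, sum_range_succ, ih, tm, PS, PS, sum_range_succ]
    ring

lemma norm_tm_le (hM : 0 ≤ M) (hP : ∀ N : ℕ, 1 ≤ N → ‖PS a N‖ ≤ M * (N : ℝ) ^ (1 - θ)) (n : ℕ)
    (hs : 0 < s.re) : ‖tm a n s‖ ≤ M * ‖s‖ * ((n : ℝ) + 1) ^ (-(s.re - 1 + θ) - 1) := by
  have h1 := norm_cp_sub (x := (n : ℝ) + 1) (y := (n : ℝ) + 1 + 1) (by positivity)
    ⟨by linarith, le_rfl⟩ hs
  have h2 := hP (n + 1) (by omega)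
  rw [tm, norm_mul]
  push_cast at h1 h2 ⊢
  refine (mul_le_mul h2 h1 (norm_nonneg _) (by positivity)).trans (le_of_eq ?_)
  rw [show -(s.re - 1 + θ) - 1 = (1 - θ) + (-s.re - 1) by ring, Real.rpow_add (by positivity)]
  ring

lemma summable_tm (hM : 0 ≤ M) (h1 : θ ≤ 1)
    (hP : ∀ N : ℕ, 1 ≤ N → ‖PS a N‖ ≤ M * (N : ℝ) ^ (1 - θ)) (hs : 1 - θ < s.re) :
    Summable fun n => tm a n s :=
  Summable.of_norm_bounded ((summable_aux (a := s.re - 1 + θ) (by linarith)).mul_left (M * ‖s‖))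
    fun n => norm_tm_le hM hP n (by linarith)

lemma diff_Fa (hM : 0 ≤ M) (h1 : θ ≤ 1)
    (hP : ∀ N : ℕ, 1 ≤ N → ‖PS a N‖ ≤ M * (N : ℝ) ^ (1 - θ)) (hs : 1 - θ < s.re) :
    DifferentiableAt ℂ (Fa a) s := by
  set η := (s.re - 1 + θ) / 2 with hη
  have η0 : 0 < η := by linarith
  set U : Set ℂ := {w | 1 - θ + η < w.re} ∩ Metric.ball 0 (‖s‖ + 1) with hU
  have ho : IsOpen U := (isOpen_lt continuous_const continuous_re).inter Metric.isOpen_ball
  have hd : DifferentiableOn ℂ (fun w => ∑' n, tm a n w) U := by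
    refine differentiableOn_tsum_of_summable_norm ((summable_aux η0).mul_left (M * (‖s‖ + 1)))
      (fun n => (((diff_cp n differentiable_neg).sub
        (diff_cp (n + 1) differentiable_neg)).const_mul _).differentiableOn) ho fun n w hw => ?_
    have h2 : 1 - θ + η < w.re := hw.1
    have h3 : ‖w‖ < ‖s‖ + 1 := mem_ball_zero_iff.1 hw.2
    refine (norm_tm_le hM hP n (by linarith)).trans ?_
    exact mul_le_mul (mul_le_mul_of_nonneg_left h3.le hM) (rpow_mono n (by linarith))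
      (by positivity) (by positivity)
  exact hd.differentiableAt (ho.mem_nhds
    ⟨show 1 - θ + η < s.re by linarith, by rw [mem_ball_zero_iff]; linarith⟩)

lemma bdry_le (hM : 0 ≤ M) (h1 : θ ≤ 1)
    (hP : ∀ N : ℕ, 1 ≤ N → ‖PS a N‖ ≤ M * (N : ℝ) ^ (1 - θ)) (s : ℂ) (N : ℕ) :
    ‖PS a N * ((N : ℂ) + 1) ^ (-s)‖ ≤ M * ((N : ℝ) + 1) ^ (-(s.re - 1 + θ)) := by
  rcases Nat.eq_zero_or_pos N with rfl | hN
  · simp [PS, hM]
  rw [norm_mul, norm_cp, neg_re, show -(s.re - 1 + θ) = (1 - θ) + -s.re by ring,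
    Real.rpow_add (by positivity), ← mul_assoc]
  refine mul_le_mul_of_nonneg_right ((hP N hN).trans (mul_le_mul_of_nonneg_left ?_ hM))
    (by positivity)
  exact Real.rpow_le_rpow (Nat.cast_nonneg _) (by linarith) (by linarith)

lemma Fa_eq (hM : 0 ≤ M) (h1 : θ ≤ 1)
    (hP : ∀ N : ℕ, 1 ≤ N → ‖PS a N‖ ≤ M * (N : ℝ) ^ (1 - θ)) (hs : 1 - θ < s.re)
    (ha : LSeriesSummable a s) : Fa a s = LSeries a s := by
  have h2 : HasSum (fun n : ℕ => a (n + 1) * ((n : ℂ) + 1) ^ (-s)) (LSeries a s) := by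
    have := (hasSum_nat_add_iff' 1).2 ha.hasSum
    simp only [range_one, sum_singleton, LSeries.term_zero, sub_zero] at this
    refine HasSum.congr_fun this fun n => ?_
    rw [LSeries.term_of_ne_zero (Nat.succ_ne_zero n), cpow_neg, div_eq_mul_inv]
    push_cast
    rfl
  have h3 : Tendsto (fun N : ℕ => PS a N * ((N : ℂ) + 1) ^ (-s)) atTop (𝓝 0) := by
    refine squeeze_zero_norm (fun N => bdry_le hM h1 hP s N) ?_
    have := (tendsto_rpow_neg_atTop (y := s.re - 1 + θ) (by linarith)).comp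
      (tendsto_atTop_add_const_right _ 1 tendsto_natCast_atTop_atTop)
    simpa [Function.comp_def] using this.const_mul M
  have h4 := (summable_tm hM h1 hP hs).hasSum.tendsto_sum_nat
  simp only [sum_tm] at h4
  exact tendsto_nhds_unique h4 (by simpa using h2.tendsto_sum_nat.sub h3)

lemma head_abel {r f : ℕ → ℝ} {B : ℝ} (hr : ∀ N : ℕ, ∑ n ∈ range N, r n ≤ B * N)
    (hf : ∀ n, f (n + 1) ≤ f n) (f0 : ∀ n, 0 ≤ f n) (N : ℕ) :
    ∑ n ∈ range N, r n * f n ≤ B * ∑ n ∈ range N, f n := by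
  have key : ∀ N : ℕ, ∑ n ∈ range N, r n * f n - B * ∑ n ∈ range N, f n ≤
      (∑ n ∈ range N, r n - B * N) * f N := by
    intro N
    induction N with
    | zero => simp
    | succ N ih =>
      have h1 := hr (N + 1)
      have h2 := mul_le_mul_of_nonpos_left (hf N) (sub_nonpos.2 h1)
      rw [sum_range_succ] at h2
      rw [sum_range_succ, sum_range_succ, sum_range_succ]
      push_cast at h2 ⊢
      linarith
  linarith [key N, mul_nonpos_of_nonpos_of_nonneg (sub_nonpos.2 (hr N)) (f0 N)]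

lemma sum_shift (r : ℕ → ℝ) (N : ℕ) : ∑ n ∈ range N, r (n + 1) = ∑ n ∈ Icc 1 N, r n := by
  rw [← Nat.Ico_zero_eq_range, sum_Ico_add' r 0 N 1, zero_add, Ico_add_one_right_eq_Icc]

lemma norm_Fa_le {B w Y : ℝ} (hM : 0 ≤ M) (h1 : θ ≤ 1)
    (hP : ∀ N : ℕ, 1 ≤ N → ‖PS a N‖ ≤ M * (N : ℝ) ^ (1 - θ)) (hB : 0 ≤ B)
    (ha : ∀ N : ℕ, ∑ n ∈ Icc 1 N, ‖a n‖ ≤ B * N) (w0 : 0 < w) (w1 : 2 * w ≤ θ) (hY : 1 ≤ Y)
    (hMY : M ≤ Y) (hMs : M * ‖s‖ ≤ Y) (hs : 1 - w ≤ s.re) :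
    ‖Fa a s‖ ≤ 1 + 2 / θ + B * (1 + 2 * Y ^ (2 * w / θ) / w) := by
  have θ0 : 0 < θ := by linarith
  set Z := Y ^ (2 / θ) with hZ
  have Z1 : 1 ≤ Z := Real.one_le_rpow hY (by positivity)
  have a1 := Nat.le_ceil Z
  have a2 := Nat.ceil_lt_add_one (show 0 ≤ Z by linarith)
  set N := ⌈Z⌉₊
  have N1 : (1 : ℝ) ≤ N := by linarith
  have e1 : Z ^ (-(θ / 2)) = Y⁻¹ := by
    rw [hZ, ← Real.rpow_mul (by linarith), ← Real.rpow_neg_one]
    congr 1
    field_simp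
  have b0 : (N : ℝ) ^ (-(θ / 2)) ≤ Y⁻¹ :=
    e1 ▸ Real.rpow_le_rpow_of_nonpos (by linarith) a1 (by linarith)
  have b1 := norm_sub_sum_le (summable_tm hM h1 hP (s := s) (by linarith)).hasSum (K := Y)
    (a := θ / 2) (by linarith) (by linarith) (fun n => (norm_tm_le hM hP n (by linarith)).trans
      (mul_le_mul hMs (rpow_mono n (by linarith)) (by positivity) (by linarith)))
    (N := N) (by exact_mod_cast N1)
  have b2 : Y * ((N : ℝ) ^ (-(θ / 2)) / (θ / 2)) ≤ 2 / θ := by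
    calc _ ≤ Y * (Y⁻¹ / (θ / 2)) := by gcongr
      _ = _ := by field_simp
  have b3 : ‖PS a N * ((N : ℂ) + 1) ^ (-s)‖ ≤ 1 := by
    refine (bdry_le hM h1 hP s N).trans ?_
    have c1 : ((N : ℝ) + 1) ^ (-(s.re - 1 + θ)) ≤ Y⁻¹ :=
      (rpow_mono N (by linarith)).trans
        ((Real.rpow_le_rpow_of_nonpos (by linarith) (by linarith) (by linarith)).trans b0)
    calc _ ≤ Y * Y⁻¹ := mul_le_mul hMY c1 (by positivity) (by linarith)
      _ = 1 := mul_inv_cancel₀ (by linarith)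
  have b4 : ‖∑ n ∈ range N, a (n + 1) * ((n : ℂ) + 1) ^ (-s)‖ ≤ B * (1 + (N : ℝ) ^ w / w) := by
    refine (norm_sum_le _ _).trans ((sum_le_sum (g := fun n : ℕ =>
      ‖a (n + 1)‖ * ((n : ℝ) + 1) ^ (w - 1)) fun n _ => ?_).trans ?_)
    · rw [norm_mul, norm_cp, neg_re]
      exact mul_le_mul_of_nonneg_left (rpow_mono n (by linarith)) (norm_nonneg _)
    · refine (head_abel (r := fun n => ‖a (n + 1)‖) (f := fun n : ℕ => ((n : ℝ) + 1) ^ (w - 1))
        (B := B) (fun N => (sum_shift (fun n => ‖a n‖) N).trans_le (ha N)) (fun n => ?_)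
        (fun n => by positivity) N).trans
        (mul_le_mul_of_nonneg_left (head_le w0 (by linarith) N) hB)
      exact Real.rpow_le_rpow_of_nonpos (by positivity) (by push_cast; linarith) (by linarith)
  have b5 : (N : ℝ) ^ w ≤ 2 * Y ^ (2 * w / θ) := by
    refine (Real.rpow_le_rpow (by linarith) (show (N : ℝ) ≤ 2 * Z by linarith) w0.le).trans ?_
    rw [Real.mul_rpow (by norm_num) (by linarith), hZ, ← Real.rpow_mul (by linarith),
      show 2 / θ * w = 2 * w / θ by ring]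
    refine mul_le_mul_of_nonneg_right ?_ (by positivity)
    simpa using Real.rpow_le_rpow_of_exponent_le (x := 2) (by norm_num)
      (show w ≤ 1 by linarith)
  have b6 : (N : ℝ) ^ w / w ≤ 2 * Y ^ (2 * w / θ) / w := by gcongr
  have b7 := norm_sub_norm_le (Fa a s) (∑ n ∈ range N, tm a n s)
  have b8 := (sum_tm a s N ▸ norm_sub_le _ _ : ‖∑ n ∈ range N, tm a n s‖ ≤ _)
  have b9 := mul_le_mul_of_nonneg_left b6 hB
  unfold Fa at b7 ⊢
  nlinarith

lemma summable_of {B : ℝ} (ha : ∀ N : ℕ, ∑ n ∈ Icc 1 N, ‖a n‖ ≤ B * N) (hs : 1 < s.re) :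
    LSeriesSummable a s := by
  refine LSeriesSummable_of_sum_norm_bigO (r := 1) (Asymptotics.IsBigO.of_bound B
    (Eventually.of_forall fun N => ?_)) zero_le_one hs
  rw [Real.rpow_one, Real.norm_of_nonneg (sum_nonneg fun _ _ => norm_nonneg _),
    Real.norm_of_nonneg (Nat.cast_nonneg _)]
  exact ha N

/-- continuation with a bound by a small power of the conductor -/
theorem lk {θ A d : ℝ} (K : ℕ) (θ0 : 0 < θ) (hA : 1 ≤ A) (d0 : 0 < d) :
    ∃ w C : ℝ, 0 < w ∧ w ≤ 1 / 4 ∧ 1 ≤ C ∧ ∀ (q : ℕ) (a : ℕ → ℂ), 1 ≤ q →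
      (∀ N : ℕ, ∑ n ∈ Icc 1 N, ‖a n‖ ≤ A * N) →
      (∀ N : ℕ, 1 ≤ N → ‖∑ n ∈ Icc 1 N, a n‖ ≤ A * (q : ℝ) ^ K * (N : ℝ) ^ (1 - θ)) →
      (∀ s : ℂ, 1 - 2 * w < s.re → DifferentiableAt ℂ (Fa a) s) ∧
      (∀ s : ℂ, 1 < s.re → Fa a s = LSeries a s) ∧
      ∀ s : ℂ, 1 - w ≤ s.re → s.re ≤ 3 → ‖Fa a s‖ ≤ C * MP_0ad054_nt.An.cond q s ^ d := by
  obtain ⟨η, η0, η1, η2⟩ : ∃ η : ℝ, 0 < η ∧ η ≤ 1 / 2 ∧ η ≤ θ :=
    ⟨min (1 / 2) θ, by positivity, min_le_left _ _, min_le_right _ _⟩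
  obtain ⟨u, u0, u1, u2⟩ : ∃ u : ℝ, 0 < u ∧ u ≤ 1 ∧ ((K + 1 : ℕ) : ℝ) * u ≤ d :=
    ⟨min 1 (d / (K + 1 : ℕ)), by positivity, min_le_left _ _, by
      rw [← le_div_iff₀' (by positivity)]; exact min_le_right _ _⟩
  set w := u * η / 2 with hw
  have w0 : 0 < w := by positivity
  have w1 : 2 * w ≤ η := by rw [hw]; nlinarith
  have e1 : 2 * w / η = u := by rw [hw]; field_simp
  refine ⟨w, 1 + 2 / η + A * (1 + 4 * A / w), w0, by linarith,
    by linarith [show 0 ≤ 2 / η + A * (1 + 4 * A / w) by positivity], fun q a hq ha hP => ?_⟩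
  have q1 : (1 : ℝ) ≤ q := by exact_mod_cast hq
  have hM : 0 ≤ A * (q : ℝ) ^ K := by positivity
  have hP' : ∀ N : ℕ, 1 ≤ N → ‖PS a N‖ ≤ A * (q : ℝ) ^ K * (N : ℝ) ^ (1 - η) := fun N hN => by
    rw [PS_eq]
    exact (hP N hN).trans (mul_le_mul_of_nonneg_left
      (Real.rpow_le_rpow_of_exponent_le (by exact_mod_cast hN) (by linarith)) hM)
  refine ⟨fun s hs => diff_Fa hM (by linarith) hP' (by linarith),
    fun s hs => Fa_eq hM (by linarith) hP' (by linarith) (summable_of ha hs), fun s s1 s2 => ?_⟩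
  have hQ := two_le_cond hq s
  have c1 : (q : ℝ) ≤ MP_0ad054_nt.An.cond q s :=
    le_mul_of_one_le_right (Nat.cast_nonneg _) (by linarith [abs_nonneg s.im])
  have c2 : ‖s‖ ≤ 2 * MP_0ad054_nt.An.cond q s := by
    have h1 := norm_le_abs_re_add_abs_im s
    rw [abs_of_pos (show 0 < s.re by linarith)] at h1
    unfold MP_0ad054_nt.An.cond
    nlinarith [abs_nonneg s.im]
  set Q := MP_0ad054_nt.An.cond q s
  have c3 : (q : ℝ) ^ K ≤ Q ^ K := by gcongr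
  have c4 : 1 ≤ Q ^ K := one_le_pow₀ (by linarith)
  have c5 : A * (q : ℝ) ^ K * (2 * Q) ≤ 2 * A * Q ^ (K + 1) := by
    calc _ ≤ A * Q ^ K * (2 * Q) := by gcongr
      _ = _ := by ring
  have c6 : 1 ≤ Q ^ (K + 1) := one_le_pow₀ (by linarith)
  have h := norm_Fa_le (Y := 2 * A * Q ^ (K + 1)) hM (by linarith) hP' (by linarith) ha w0 w1
    (by nlinarith) (le_trans (le_mul_of_one_le_right hM (by linarith)) c5)
    ((mul_le_mul_of_nonneg_left c2 hM).trans c5) s1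
  rw [e1] at h
  have c7 : 1 ≤ Q ^ d := Real.one_le_rpow (by linarith) d0.le
  have c8 : (2 * A * Q ^ (K + 1)) ^ u ≤ 2 * A * Q ^ d := by
    rw [Real.mul_rpow (by positivity) (by positivity), ← Real.rpow_natCast,
      ← Real.rpow_mul (by linarith)]
    refine mul_le_mul ?_ (Real.rpow_le_rpow_of_exponent_le (by linarith) u2) (by positivity)
      (by positivity)
    simpa using Real.rpow_le_rpow_of_exponent_le (x := 2 * A) (by linarith) u1
  refine h.trans ?_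
  have c9 : 2 * (2 * A * Q ^ (K + 1)) ^ u / w ≤ 4 * A / w * Q ^ d := by
    rw [div_mul_eq_mul_div]
    exact div_le_div_of_nonneg_right (by linarith) w0.le
  have c10 : 0 ≤ 1 + 2 / η + A := by positivity
  nlinarith [mul_le_mul_of_nonneg_left c9 (show 0 ≤ A by linarith),
    mul_le_mul_of_nonneg_left c7 c10]

end Pool.Agent.P.MP_b8021b_nt.VC.KL
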