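import Pool.Agent.P.MP_0ad054_nt.An.Defs

/-! An abstract form of the Siegel-Walfisz theorem. -/

namespace Pool.Agent.P.MP_b8021b_nt.VC

open Finset Complex

/-- partial sums with a power saving -/
def PSum (a : ℕ → ℂ) (c : ℂ) (M θ : ℝ) : Prop :=
  ∀ X : ℕ, 1 ≤ X → ‖∑ n ∈ Icc 1 X, a n - c * X‖ ≤ M * (X : ℝ) ^ (1 - θ)

/-- Siegel-Walfisz for an abstract series: `a` are the coefficients of `L(s, ξ)`, `b` those of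
`L(s, ξ ^ 2)` and `D * Λ` those of the logarithmic derivative of `L(s, ξ)`. -/
def S_SWabs : Prop :=
  ∀ (θ A₀ : ℝ) (C D : ℕ) (sg : ℝ → ℝ), 0 < θ → 1 ≤ A₀ → 1 ≤ D → (∀ ε, 0 < ε → 0 < sg ε) →
    ∀ A B : ℕ, ∃ C' : ℝ, 0 < C' ∧ ∀ (X q : ℕ) (a b Λ : ℕ → ℂ) (c : ℂ), 2 ≤ X → 1 ≤ q →
      (q : ℝ) ≤ Real.log X ^ B →
      (∀ Y : ℕ, ∑ n ∈ Icc 1 Y, ‖a n‖ ≤ A₀ * Y) → (∀ Y : ℕ, ∑ n ∈ Icc 1 Y, ‖b n‖ ≤ A₀ * Y) →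
      ‖c‖ ≤ A₀ → PSum a 0 (A₀ * (q : ℝ) ^ C) θ → PSum b c (A₀ * (q : ℝ) ^ C) θ →
      (∀ n, 1 ≤ n → ‖Λ n‖ ≤ Real.log n + 1) →
      (∀ s : ℂ, 1 < s.re → LSeries a s ≠ 0 ∧
        deriv (LSeries a) s = -(D * LSeries Λ s * LSeries a s)) →
      (∀ x t : ℝ, 0 < x → x ≤ 1 →
        x ^ 3 ≤ A₀ * ‖LSeries a (1 + x + I * t)‖ ^ 4 * ‖LSeries b (1 + x + 2 * I * t)‖) →
      (c = 0 ∨ ∀ ε : ℝ, 0 < ε → ∃ F : ℂ → ℂ, ContinuousAt F 1 ∧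
        (∀ s : ℂ, 1 < s.re → F s = LSeries a s) ∧ sg ε * (q : ℝ) ^ (-ε) ≤ ‖F 1‖) →
      ‖∑ n ∈ Icc 1 X, Λ n‖ ≤ C' * X / Real.log X ^ A

end Pool.Agent.P.MP_b8021b_nt.VC
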