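import Pool.Agent.P.MP_0ad054_nt.An.Zfree

/-! A thin zero free region for an abstract function holomorphic near the line `re s = 1`. -/

namespace Pool.Agent.P.MP_b8021b_nt.VC.KL

open Finset Complex Filter Topology Pool.Agent.P.MP_0ad054_nt.An Pool.Agent.P.MP_0ad054_nt.An.LupP
  Pool.Agent.P.MP_0ad054_nt.An.ZfreeP

variable {F : ℂ → ℂ} {q : ℕ} {r d D C x : ℝ} {s : ℂ}

/-- Holomorphic functions with a bound for the derivative. -/
def Nc (F : ℂ → ℂ) (q : ℕ) (r d D : ℝ) : Prop :=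
  (∀ w : ℂ, 1 - r ≤ w.re → DifferentiableAt ℂ F w) ∧
    ∀ s : ℂ, 1 - r / 2 ≤ s.re → s.re ≤ 2 → ‖deriv F s‖ ≤ D * MP_0ad054_nt.An.cond q s ^ d

lemma nc_of (h0 : 0 < d) (h1 : d ≤ 1 / 2) (r0 : 0 < r) (r1 : r ≤ 1 / 2) (hC : 0 ≤ C)
    (hD : 4 * C / r ≤ D) (hF : ∀ w : ℂ, 1 - r ≤ w.re → DifferentiableAt ℂ F w)
    (hb : ∀ w : ℂ, 1 - r ≤ w.re → w.re ≤ 3 → ‖F w‖ ≤ C * MP_0ad054_nt.An.cond q w ^ d) : Nc F q r d D := by
  refine ⟨hF, fun s hs hs' => ?_⟩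
  have a : ∀ w ∈ Metric.closedBall s (r / 2),
      1 - r ≤ w.re ∧ w.re ≤ 3 ∧ |w.im| ≤ 2 * |s.im| + 2 := by
    intro w hw
    rw [Metric.mem_closedBall, dist_eq_norm] at hw
    have a1 := abs_le.1 ((abs_re_le_norm (w - s)).trans hw)
    have a2 := (abs_im_le_norm (w - s)).trans hw
    rw [sub_re] at a1
    rw [sub_im] at a2
    exact ⟨by linarith [a1.1], by linarith [a1.2],
      by linarith [abs_sub_abs_le_abs_sub w.im s.im, abs_nonneg s.im]⟩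
  have := norm_deriv_le_of_forall_mem_sphere_norm_le (c := s) (R := r / 2) (f := F)
    (C := C * (2 * MP_0ad054_nt.An.cond q s ^ d)) (half_pos r0)
    (DifferentiableOn.diffContOnCl fun w hw =>
      (hF w (a w (Metric.closure_ball_subset_closedBall hw)).1).differentiableWithinAt)
    fun w hw => (hb w (a w (Metric.sphere_subset_closedBall hw)).1
      (a w (Metric.sphere_subset_closedBall hw)).2.1).trans
      (mul_le_mul_of_nonneg_left (cond_rpow_le_two h0.le (by linarith)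
        (a w (Metric.sphere_subset_closedBall hw)).2.2) hC)
  refine this.trans (le_trans (le_of_eq ?_)
    (mul_le_mul_of_nonneg_right hD (by unfold MP_0ad054_nt.An.cond; positivity)))
  field_simp
  ring

lemma Nc.lip (h : Nc F q r d D) (h0 : 0 < d) (r0 : 0 < r) (hD : 0 ≤ D) (s : ℂ) {u v : ℂ}
    (hu : 1 - r / 2 ≤ u.re) (hu2 : u.re ≤ 2) (hu' : |u.im| ≤ |s.im|) (hv : 1 - r / 2 ≤ v.re)
    (hv2 : v.re ≤ 2) (hv' : |v.im| ≤ |s.im|) : ‖F u‖ - D * MP_0ad054_nt.An.cond q s ^ d * ‖u - v‖ ≤ ‖F v‖ := by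
  have := ((((convex_halfSpace_re_ge (1 - r / 2)).inter (convex_halfSpace_re_le 2)).inter
    (convex_halfSpace_im_ge (-|s.im|))).inter
    (convex_halfSpace_im_le |s.im|)).norm_image_sub_le_of_norm_deriv_le (f := F)
    (C := D * MP_0ad054_nt.An.cond q s ^ d) (fun w hw => h.1 w (by linarith [show 1 - r / 2 ≤ w.re from hw.1.1.1]))
    (fun w hw => (h.2 w hw.1.1.1 hw.1.1.2).trans (mul_le_mul_of_nonneg_left
      (cond_rpow_le h0.le (abs_le.2 ⟨hw.1.2, hw.2⟩)) hD))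
    ⟨⟨⟨hv, hv2⟩, (abs_le.1 hv').1⟩, (abs_le.1 hv').2⟩
    ⟨⟨⟨hu, hu2⟩, (abs_le.1 hu').1⟩, (abs_le.1 hu').2⟩
  linarith [norm_sub_norm_le (F u) (F v)]

lemma Nc.move (h : Nc F q r d D) (h0 : 0 < d) (r0 : 0 < r) (r1 : r ≤ 1 / 2) (hq : 1 ≤ q)
    (hD : 2 / r ≤ D)
    {E y : ℝ} (hE : 1 ≤ E) (hy : y * (8 * E * (D * MP_0ad054_nt.An.cond q s ^ d)) = 1)
    (hl : ∀ x : ℝ, 0 < x → x ≤ 1 → x ^ 3 ≤ 8 * E * ‖F (1 + x + I * s.im)‖ ^ 4)
    (h2 : 1 - y ^ 4 ≤ s.re) (h3 : s.re ≤ 2) : 1 - r / 2 ≤ s.re ∧ y ^ 4 ≤ ‖F s‖ := by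
  have hP := one_le_P hq h0.le s
  rw [div_le_iff₀ r0] at hD
  have D4 : 4 ≤ D := by nlinarith
  set P := MP_0ad054_nt.An.cond q s ^ d
  have y0 : 0 < y := pos_of_mul_pos_left (hy ▸ one_pos) (by positivity)
  have DP : 4 ≤ D * P := by nlinarith
  have y1 : y * (32 * E) ≤ 1 := by
    rw [← hy]
    exact mul_le_mul_of_nonneg_left (by nlinarith) y0.le
  have y2 : y * (8 * D) ≤ 1 := by
    rw [← hy]
    refine mul_le_mul_of_nonneg_left ?_ y0.le
    have : D ≤ D * P := by nlinarith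
    nlinarith
  have y3 : y ≤ 1 := by nlinarith
  have y4 : y ^ 4 ≤ y := pow_le_of_le_one y0.le y3 (by norm_num)
  have y5 : y ≤ r / 2 := by nlinarith
  have y6 : y ^ 4 ≤ y ^ 3 / (4 * E) := by
    rw [le_div_iff₀ (by positivity)]
    nlinarith [pow_pos y0 3]
  have key : ∀ x : ℝ, y ^ 4 ≤ x → x ≤ 1 → y ^ 3 / (2 * E) ≤ ‖F (1 + x + I * s.im)‖ := by
    intro x a b
    refine le_of_pow_le_pow_left₀ (n := 4) (by norm_num) (norm_nonneg _) ?_
    have c := hl x ((pow_pos y0 4).trans_le a) b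
    have c1 : (y ^ 4) ^ 3 ≤ x ^ 3 := by gcongr
    have c2 : 8 * E ≤ (2 * E) ^ 4 := by nlinarith [pow_le_pow_right₀ hE (show 1 ≤ 4 by norm_num)]
    rw [div_pow, div_le_iff₀ (by positivity)]
    nlinarith [mul_le_mul_of_nonneg_left c2 (show 0 ≤ ‖F (1 + x + I * s.im)‖ ^ 4 by positivity)]
  have e4 : y ^ 3 / (2 * E) = 2 * (y ^ 3 / (4 * E)) := by field_simp; ring
  refine ⟨by linarith, ?_⟩
  rcases le_total (1 + y ^ 4) s.re with h4 | h4
  · have := key (s.re - 1) (by linarith) (by linarith)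
    rw [show 1 + ((s.re - 1 : ℝ) : ℂ) + I * s.im = s by apply Complex.ext <;> simp] at this
    linarith [pow_pos y0 4]
  · have a1 := key (y ^ 4) le_rfl (by linarith)
    have a2 := h.lip h0 r0 (by linarith) s (u := 1 + (y ^ 4 : ℝ) + I * s.im) (v := s)
      (by simp only [add_re, one_re, ofReal_re, I_mul_re, ofReal_im]; linarith [pow_pos y0 4])
      (by simp only [add_re, one_re, ofReal_re, I_mul_re, ofReal_im]; linarith)
      (by simp only [add_im, one_im, ofReal_re, I_mul_im, ofReal_im]; simp) (by linarith) h3 le_rfl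
    have a3 : ‖1 + ((y ^ 4 : ℝ) : ℂ) + I * s.im - s‖ ≤ 2 * y ^ 4 := by
      rw [show 1 + ((y ^ 4 : ℝ) : ℂ) + I * s.im - s = ((1 + y ^ 4 - s.re : ℝ) : ℂ) by
        generalize y ^ 4 = z
        apply Complex.ext <;> simp, norm_real, Real.norm_of_nonneg (by linarith)]
      linarith
    have a4 : D * P * (2 * y ^ 4) = y ^ 3 / (4 * E) := by
      rw [eq_div_iff (by positivity)]
      linear_combination y ^ 3 * hy
    linarith [mul_le_mul_of_nonneg_left a3 (show 0 ≤ D * P by positivity)]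

lemma Nc.fin (h : Nc F q r d D) (h0 : 0 < d) (r0 : 0 < r) (r1 : r ≤ 1 / 2) (hq : 1 ≤ q)
    (hD : 2 / r ≤ D)
    (hC : 1 ≤ C) {δ c : ℝ} (hδ : 53 * d ≤ δ) (hc : c * (8 * C * D) ^ 4 ≤ 1)
    (hl : ∀ x : ℝ, 0 < x → x ≤ 1 →
      x ^ 3 ≤ 8 * (C * (MP_0ad054_nt.An.cond q s ^ d) ^ 12) * ‖F (1 + x + I * s.im)‖ ^ 4)
    (h2 : 1 - c * MP_0ad054_nt.An.cond q s ^ (-δ) ≤ s.re) (h3 : s.re ≤ 2) :
    1 - r / 2 ≤ s.re ∧ F s ≠ 0 ∧ ‖deriv F s / F s‖ ≤ D * (8 * C * D) ^ 4 * MP_0ad054_nt.An.cond q s ^ δ := by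
  have hP := one_le_P hq h0.le s
  have hQ := two_le_cond hq s
  have D0 : 0 < D := lt_of_lt_of_le (by positivity) hD
  have b1 : (MP_0ad054_nt.An.cond q s ^ d) ^ 53 ≤ MP_0ad054_nt.An.cond q s ^ δ := by
    rw [← Real.rpow_mul_natCast (by linarith)]
    exact Real.rpow_le_rpow_of_exponent_le (by linarith) (by push_cast; linarith)
  rw [Real.rpow_neg (by linarith)] at h2
  have hm := fun y hy => h.move h0 r0 r1 hq hD (s := s) (y := y)
    (one_le_mul_of_one_le_of_one_le hC (one_le_pow₀ hP)) hy hl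
  have hd := h.2 s
  set P := MP_0ad054_nt.An.cond q s ^ d
  have b2 : P ^ 52 ≤ MP_0ad054_nt.An.cond q s ^ δ := (pow_le_pow_right₀ hP (by norm_num)).trans b1
  have e : (8 * (C * P ^ 12) * (D * P))⁻¹ ^ 4 = ((8 * C * D) ^ 4 * P ^ 52)⁻¹ := by
    rw [inv_pow]; congr 1; ring
  obtain ⟨a1, a2⟩ := hm _ (inv_mul_cancel₀ (by positivity)) (by
    refine le_trans (sub_le_sub_left ?_ 1) h2
    rw [e, mul_inv]
    refine mul_le_mul ?_ (inv_anti₀ (by positivity) b2) (by positivity) (by positivity)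
    rwa [← one_div, le_div_iff₀ (by positivity)]) h3
  rw [e] at a2
  have a3 : 0 < ‖F s‖ := lt_of_lt_of_le (by positivity) a2
  refine ⟨a1, norm_pos_iff.1 a3, ?_⟩
  rw [norm_div]
  refine (div_le_div₀ (by positivity) (hd a1 h3) (by positivity) a2).trans ?_
  rw [div_inv_eq_mul]
  calc D * P * ((8 * C * D) ^ 4 * P ^ 52) = D * (8 * C * D) ^ 4 * P ^ 53 := by ring
    _ ≤ _ := by gcongr

lemma Nc.low (h : Nc F q r d D) (h0 : 0 < d) (r0 : 0 < r) (hq : 1 ≤ q) (hD : 1 ≤ D)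
    (hC : 1 ≤ C) {c : ℝ} (c0 : 0 < c) (c1 : c ≤ 1) (hF : c / MP_0ad054_nt.An.cond q s ^ d ≤ ‖F 1‖)
    (hx : 0 < x) (hx' : x ≤ 1)
    (hl : ∀ t : ℝ, 0 < t → t ≤ 1 → t ≤ |s.im| ∨ t ≤ x →
      x ^ 3 * t ^ 5 ≤ 8 * (C * (MP_0ad054_nt.An.cond q s ^ d) ^ 2) * ‖F (1 + x + I * s.im)‖ ^ 4) :
    x ^ 3 ≤ 8 * (C * (4 * D / c) ^ 5 * (MP_0ad054_nt.An.cond q s ^ d) ^ 12) * ‖F (1 + x + I * s.im)‖ ^ 4 := by
  have hP := one_le_P hq h0.le s
  have a2 := h.lip h0 r0 (by linarith) s (u := 1) (v := 1 + x + I * s.im) (by simp; linarith)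
    (by simp) (by simp) (by simp; linarith) (by simp; linarith) (by simp)
  set P := MP_0ad054_nt.An.cond q s ^ d
  obtain ⟨t, ht⟩ : ∃ t, t = c / (4 * D * P ^ 2) := ⟨_, rfl⟩
  have t0 : 0 < t := by rw [ht]; positivity
  have p2 : 1 ≤ P ^ 2 := one_le_pow₀ hP
  have t1 : t ≤ 1 := by
    rw [ht, div_le_one (by positivity)]
    nlinarith
  have e : C * (4 * D / c) ^ 5 * P ^ 12 = C * P ^ 2 / t ^ 5 := by
    rw [ht]; field_simp
  rw [e, mul_div_assoc', div_mul_eq_mul_div, le_div_iff₀ (by positivity)]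
  by_cases hc : t ≤ |s.im| ∨ t ≤ x
  · exact hl t t0 t1 hc
  · push Not at hc
    have a3 : ‖1 - (1 + x + I * s.im)‖ ≤ 2 * t := by
      rw [show 1 - (1 + x + I * s.im) = -((x : ℂ) + I * s.im) by ring, norm_neg]
      refine (norm_add_le _ _).trans ?_
      rw [norm_mul, norm_I, one_mul, norm_real, norm_real, Real.norm_of_nonneg hx.le,
        Real.norm_eq_abs]
      linarith [hc.1, hc.2]
    have a4 : c / P = 4 * (D * P * t) := by rw [ht]; field_simp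
    have a5 : t ≤ D * P * t := le_mul_of_one_le_left t0.le (by nlinarith)
    have a6 : t ≤ ‖F (1 + x + I * s.im)‖ := by
      linarith [mul_le_mul_of_nonneg_left a3 (show 0 ≤ D * P by positivity)]
    calc x ^ 3 * t ^ 5 ≤ 1 * t ^ 4 := by
          gcongr ?_ * ?_
          · exact pow_le_one₀ hx.le hx'
          · exact pow_le_pow_of_le_one t0.le t1 (by norm_num)
      _ ≤ _ := by
          gcongr
          nlinarith

end Pool.Agent.P.MP_b8021b_nt.VC.KL
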