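import Pool.Agent.P.MP_0ad054_nt.An.SW
import Pool.Agent.P.MP_0ad054_nt.An.Tauber
import Pool.Agent.P.MP_b8021b_nt.VC.KSt
import Pool.Agent.P.MP_b8021b_nt.VC.KLk
import Pool.Agent.P.MP_b8021b_nt.VC.KZf

/-! The abstract Siegel-Walfisz theorem. -/

namespace Pool.Agent.P.MP_b8021b_nt.VC

open Finset Complex Filter Topology Pool.Agent.P.MP_0ad054_nt.An Pool.Agent.P.MP_0ad054_nt.An.LupP
  Pool.Agent.P.MP_0ad054_nt.An.ZfreeP

namespace KL

lemma L_split {b : ℕ → ℂ} {B : ℝ} (c : ℂ) (hb : ∀ N : ℕ, ∑ n ∈ Icc 1 N, ‖b n - c‖ ≤ B * N)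
    {s : ℂ} (hs : 1 < s.re) : LSeries b s = LSeries (fun n => b n - c) s + c * riemannZeta s := by
  rw [← LSeries_one_eq_riemannZeta hs, ← LSeries_smul,
    ← LSeries_add (summable_of hb hs) ((LSeriesSummable_one_iff.2 hs).smul c)]
  congr 1
  funext n
  simp

lemma eq_one {F G : ℂ → ℂ} (hF : ContinuousAt F 1) (hG : ContinuousAt G 1)
    (h : ∀ s : ℂ, 1 < s.re → F s = G s) : F 1 = G 1 := by
  have t : Tendsto (fun x : ℝ => (x : ℂ)) (𝓝[>] 1) (𝓝 1) :=
    (continuous_ofReal.tendsto' 1 1 (by simp)).mono_left nhdsWithin_le_nhds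
  refine tendsto_nhds_unique ((hF.tendsto.comp t).congr' ?_) (hG.tendsto.comp t)
  filter_upwards [self_mem_nhdsWithin] with x hx
  exact h x (by simpa using hx)

lemma zeta_le {d C : ℝ} (d0 : 0 < d) (d1 : d ≤ 1 / 2) (C0 : 0 < C)
    (hZ : ∀ s : ℂ, s ≠ 1 → 1 - d ≤ s.re →
      ‖riemannZeta s - 1 / (s - 1)‖ ≤ C * MP_0ad054_nt.An.cond 1 s ^ d)
    {q : ℕ} (hq : 1 ≤ q) (s : ℂ) {x t : ℝ} (hx : 0 < x) (t0 : 0 < t)
    (ht : t ≤ |s.im| ∨ t ≤ x) : ‖riemannZeta (1 + x + 2 * I * s.im)‖ ≤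
      2 * C * MP_0ad054_nt.An.cond q s ^ d + 1 / t := by
  set w : ℂ := 1 + x + 2 * I * s.im with hw
  have w1 : w.re = 1 + x := by simp [hw]
  have w2 : w.im = 2 * s.im := by simp [hw]
  have w3 : w ≠ 1 := by
    intro e
    rw [e, one_re] at w1
    linarith
  have a2 : ‖1 / (w - 1)‖ ≤ 1 / t := by
    rw [norm_div, norm_one]
    refine one_div_le_one_div_of_le t0 ?_
    rcases ht with ht | ht
    · refine le_trans ?_ (abs_im_le_norm _)
      rw [sub_im, w2, one_im, sub_zero, abs_mul, abs_two]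
      linarith
    · refine le_trans ?_ (re_le_norm _)
      rw [sub_re, w1, one_re]
      linarith
  have a3 : MP_0ad054_nt.An.cond 1 w ^ d ≤ 2 * MP_0ad054_nt.An.cond q s ^ d := by
    refine le_trans (Real.rpow_le_rpow (by unfold MP_0ad054_nt.An.cond; positivity) ?_ d0.le)
      (cond_rpow_le_two (w := w) d0.le (by linarith) (by rw [w2, abs_mul, abs_two]; linarith))
    unfold MP_0ad054_nt.An.cond
    gcongr
  have b1 := hZ w w3 (by linarith)
  have b2 := norm_sub_norm_le (riemannZeta w) (1 / (w - 1))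
  have b4 := mul_le_mul_of_nonneg_left a3 C0.le
  linarith

end KL

open KL SWP

theorem swAbs : S_SWabs := by
  intro θ A₀ K D sg θ0 hA hD hsg A B
  have hδ := ex_pos A B
  set δ := ex A B with hδd
  obtain ⟨d, d0, d1, d2⟩ : ∃ d : ℝ, 0 < d ∧ d ≤ 1 / 2 ∧ 53 * d ≤ δ :=
    ⟨min (1 / 2) (δ / 53), by positivity, min_le_left _ _,
      by linarith [min_le_right (1 / 2) (δ / 53)]⟩
  obtain ⟨r, C1, r0, r1, hC1, hL⟩ := lk (A := 2 * A₀) K θ0 (by linarith) d0
  obtain ⟨Cz, Cz0, -, hZ⟩ := lup d d0 d1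
  have c0' := hsg d d0
  obtain ⟨c, c0, c1, c2⟩ : ∃ c : ℝ, 0 < c ∧ c ≤ 1 ∧ c ≤ sg d :=
    ⟨min 1 (sg d), by positivity, min_le_left _ _, min_le_right _ _⟩
  obtain ⟨G, hG⟩ : ∃ G, G = 4 * C1 / r := ⟨_, rfl⟩
  have G1 : 2 / r ≤ G := by rw [hG]; gcongr; linarith
  have G2 : 4 ≤ G := le_trans (by rw [le_div_iff₀ r0]; linarith) G1
  have G3 : 1 ≤ (4 * G / c) ^ 5 := one_le_pow₀ (by rw [le_div_iff₀ c0]; linarith)
  obtain ⟨H, hH⟩ : ∃ H, H = A₀ * (2 * C1 + A₀ * (2 * Cz + 1)) := ⟨_, rfl⟩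
  have H0 : 0 ≤ A₀ * (2 * Cz + 1) := by positivity
  have H1 : A₀ * (2 * C1) ≤ H := by rw [hH]; gcongr; linarith
  have H2 : 1 ≤ H := by nlinarith
  obtain ⟨E, hE⟩ : ∃ E, E = H * (4 * G / c) ^ 5 := ⟨_, rfl⟩
  have E1 : H ≤ E := hE ▸ le_mul_of_one_le_right (by linarith) G3
  have E2 : 1 ≤ E := by linarith
  have A1 : 1 ≤ (8 * E * G) ^ 4 := one_le_pow₀ (by nlinarith)
  have A2 : (2 * (G * (8 * E * G) ^ 4))⁻¹ * (8 * E * G) ^ 4 ≤ 1 := by
    rw [inv_mul_le_iff₀ (by positivity)]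
    nlinarith
  obtain ⟨C', hC', hk⟩ := key tauber A B (2 * (G * (8 * E * G) ^ 4))⁻¹ (G * (8 * E * G) ^ 4)
    (by positivity) (by rw [one_div]; exact inv_anti₀ (by norm_num) (by nlinarith)) (by positivity)
  refine ⟨C', hC', fun X q a b Λ z hX hq hqX ha hb hz pa pb hΛ hder h341 hS => ?_⟩
  have two : ∀ (u : ℝ) {v : ℝ}, 0 ≤ v → u ≤ A₀ * v → u ≤ 2 * A₀ * v := fun u v hv h => by
    nlinarith
  obtain ⟨a1, a2, a3⟩ := hL q a hq (fun N => two _ (Nat.cast_nonneg _) (ha N)) fun N hN => by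
    have := pa N hN
    rw [zero_mul, sub_zero, mul_assoc] at this
    rw [mul_assoc (2 * A₀)]
    exact two _ (by positivity) this
  have hb' : ∀ N : ℕ, ∑ n ∈ Icc 1 N, ‖b n - z‖ ≤ 2 * A₀ * N := fun N => by
    refine (sum_le_sum fun n _ => (norm_sub_le _ _).trans (add_le_add le_rfl hz)).trans ?_
    rw [sum_add_distrib, sum_const, Nat.card_Icc, Nat.add_sub_cancel, nsmul_eq_mul]
    linarith [hb N]
  obtain ⟨-, b2, b3⟩ := hL q (fun n => b n - z) hq hb' fun N hN => by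
    have := pb N hN
    rw [mul_assoc] at this
    rw [mul_assoc (2 * A₀), sum_sub_distrib, sum_const, Nat.card_Icc, Nat.add_sub_cancel,
      nsmul_eq_mul, mul_comm (N : ℂ)]
    exact two _ (by positivity) this
  have hN : Nc (Fa a) q r d G := nc_of d0 d1 r0 (by linarith) (by linarith) hG.ge
    (fun w hw => a1 w (by linarith)) a3
  have D0 : (D : ℂ) ≠ 0 := by exact_mod_cast (by omega : D ≠ 0)
  refine hk X q Λ (fun s => -(deriv (Fa a) s / Fa a s) / D) hX hq hqX hΛ (fun s hs => ?_)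
    fun s s1 s2 => ?_
  · have e : Fa a =ᶠ[𝓝 s] LSeries a := by
      filter_upwards [(isOpen_lt continuous_const continuous_re).mem_nhds hs] with w hw
      exact a2 w hw
    obtain ⟨h1, h2⟩ := hder s hs
    rw [e.deriv_eq, a2 s hs, h2]
    field_simp
  have hP := one_le_P hq d0.le s
  have key2 : ∀ x : ℝ, 0 < x → x ≤ 1 →
      ‖Fa (fun n => b n - z) (1 + x + 2 * I * s.im)‖ ≤ 2 * C1 * MP_0ad054_nt.An.cond q s ^ d ∧
      LSeries b (1 + x + 2 * I * s.im) = Fa (fun n => b n - z) (1 + x + 2 * I * s.im) +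
        z * riemannZeta (1 + x + 2 * I * s.im) ∧
      LSeries a (1 + x + I * s.im) = Fa a (1 + x + I * s.im) := fun x hx hx' => by
    refine ⟨(b3 _ (by simp; linarith) (by simp; linarith)).trans ?_, ?_,
      (a2 _ (by simp; linarith)).symm⟩
    · have := cond_rpow_le_two (q := q) (s := s) (w := 1 + x + 2 * I * s.im) d0.le (by linarith)
        (by simp [abs_mul])
      nlinarith
    · rw [b2 _ (by simp; linarith)]
      exact L_split z hb' (by simp; linarith)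
  obtain ⟨f1, f2, f3⟩ := hN.fin d0 r0 (by linarith) hq G1 E2 d2 A2 (fun x hx hx' => by
    obtain ⟨k1, k2, k3⟩ := key2 x hx hx'
    have k4 := h341 x s.im hx hx'
    rw [k3, k2] at k4
    have n0 : 0 ≤ ‖Fa a (1 + x + I * s.im)‖ ^ 4 := by positivity
    rcases hS with h0 | hS
    · rw [h0, zero_mul, add_zero] at k4
      rw [h0] at k1
      have p1 : MP_0ad054_nt.An.cond q s ^ d ≤ (MP_0ad054_nt.An.cond q s ^ d) ^ 12 :=
        le_self_pow₀ hP (by norm_num)
      calc x ^ 3 ≤ A₀ * ‖Fa a (1 + x + I * s.im)‖ ^ 4 *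
            (2 * C1 * MP_0ad054_nt.An.cond q s ^ d) := k4.trans (by gcongr)
        _ = 1 * (A₀ * (2 * C1) * MP_0ad054_nt.An.cond q s ^ d) *
            ‖Fa a (1 + x + I * s.im)‖ ^ 4 := by ring
        _ ≤ _ := by gcongr <;> linarith
    · rw [hE]
      obtain ⟨F, F1, F2, F3⟩ := hS d d0
      refine hN.low d0 r0 hq (by linarith) H2 c0 c1 ?_ hx hx' fun t t0 t1 ht => ?_
      · rw [eq_one F1 (a1 1 (by simp; linarith)).continuousAt
          fun w hw => (F2 w hw).trans (a2 w hw).symm] at F3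
        refine le_trans ?_ F3
        rw [Real.rpow_neg (Nat.cast_nonneg _), ← div_eq_mul_inv]
        exact div_le_div₀ c0'.le c2 (by positivity) (q_le_P d0.le s)
      · have z1 := zeta_le d0 d1 Cz0 hZ hq s hx t0 ht
        set P := MP_0ad054_nt.An.cond q s ^ d
        have z2 : t * ‖riemannZeta (1 + x + 2 * I * s.im)‖ ≤ (2 * Cz + 1) * P := by
          have := mul_le_mul_of_nonneg_left z1 t0.le
          rw [mul_add, mul_one_div_cancel t0.ne'] at this
          nlinarith [mul_le_mul_of_nonneg_right t1 (show 0 ≤ 2 * Cz * P by positivity)]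
        have z3 : t * ‖Fa (fun n => b n - z) (1 + x + 2 * I * s.im) +
            z * riemannZeta (1 + x + 2 * I * s.im)‖ ≤ (2 * C1 + A₀ * (2 * Cz + 1)) * P := by
          refine (mul_le_mul_of_nonneg_left (norm_add_le _ _) t0.le).trans ?_
          rw [norm_mul, mul_add, add_mul]
          refine add_le_add ((mul_le_of_le_one_left (norm_nonneg _) t1).trans k1) ?_
          rw [mul_left_comm, mul_assoc A₀]
          exact mul_le_mul hz z2 (by positivity) (by linarith)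
        have p1 : P ≤ P ^ 2 := le_self_pow₀ hP (by norm_num)
        calc x ^ 3 * t ^ 5 ≤ x ^ 3 * t := by
              gcongr
              exact pow_le_of_le_one t0.le t1 (by norm_num)
          _ ≤ A₀ * ‖Fa a (1 + x + I * s.im)‖ ^ 4 * (t * ‖Fa (fun n => b n - z)
              (1 + x + 2 * I * s.im) + z * riemannZeta (1 + x + 2 * I * s.im)‖) := by
              nlinarith [mul_le_mul_of_nonneg_right k4 t0.le]
          _ ≤ A₀ * ‖Fa a (1 + x + I * s.im)‖ ^ 4 * ((2 * C1 + A₀ * (2 * Cz + 1)) * P) := by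
              gcongr
          _ = 1 * (H * P) * ‖Fa a (1 + x + I * s.im)‖ ^ 4 := by rw [hH]; ring
          _ ≤ _ := by gcongr; norm_num) s1 s2
  have ho : IsOpen {w : ℂ | 1 - 2 * r < w.re} := isOpen_lt continuous_const continuous_re
  have hd : DifferentiableAt ℂ (deriv (Fa a)) s :=
    (DifferentiableOn.deriv (fun w hw => (a1 w hw).differentiableWithinAt) ho).differentiableAt
      (ho.mem_nhds (show 1 - 2 * r < s.re by linarith))
  refine ⟨((hd.div (a1 s (by linarith)) f2).neg).div_const _, ?_⟩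
  rw [norm_div, norm_neg, norm_natCast]
  exact (div_le_self (norm_nonneg _) (by exact_mod_cast hD)).trans f3

end Pool.Agent.P.MP_b8021b_nt.VC
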