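import Pool.Agent.P.MP_b8021b_nt.VC.KE3
import Pool.Agent.P.MP_b8021b_nt.VC.KSW
import Pool.Agent.P.MP_b8021b_nt.VC.KS5

/-! Siegel-Walfisz for the ray class characters of the base field. -/

namespace Pool.Agent.P.MP_b8021b_nt.VC

theorem p_sWk (hEmb : S_Emb) (hPSs : S_PSs) (hTyp : S_Typ) : S_SWk :=
  KE.swk_of swAbs (fun L _ _ K e he => siegelK L K e he) hEmb hPSs hTyp

end Pool.Agent.P.MP_b8021b_nt.VC
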