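import Pool.Agent.P.MP_b8021b_nt.VC.StH

/-!
The splitting field of the polynomial of a fibre is unramified outside the discriminant.
-/

namespace Pool.Agent.P.MP_b8021b_nt.VC

open Polynomial NumberField Pool.Agent.P.MP_b8021b_nt.VE
open scoped IntermediateField

namespace Spl

theorem tower (hU : S_Unr) {N : Type} [Field N] [NumberField N] {P : ℤ[X]} {M l : ℕ}
    (hP : P.Monic) (hS : Sep P M) (hl : l.Prime) (hM : ¬ l ∣ M) {θ : N} (hθ : aeval θ P = 0)
    (S : Finset N) : ∀ (E : Type) [Field E] [NumberField E] [Algebra E N],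
    (∀ x ∈ S, aeval x P = 0) → Algebra.adjoin E (S : Set N) = ⊤ → Unram E l → Unram N l := by
  classical
  induction S using Finset.induction_on with
  | empty =>
    intro E _ _ _ _ h hE
    refine (hU.2.2 E N P M θ hP hS hθ ?_).2 l hl hM hE
    rw [eq_top_iff, ← h]
    exact Algebra.adjoin_mono (by simp)
  | insert x S _ ih =>
    intro E _ _ _ hx h hE
    have hi : IsIntegral E x := Algebra.IsIntegral.isIntegral x
    refine ih E⟮x⟯ (fun y hy => hx y (Finset.mem_insert_of_mem hy)) ?_ ?_
    · rw [eq_top_iff]
      intro y _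
      have h1 : Algebra.adjoin E ((insert x S : Finset N) : Set N) ≤
          (Algebra.adjoin E⟮x⟯ (S : Set N)).restrictScalars E := by
        refine Algebra.adjoin_le fun z hz => ?_
        rcases Finset.mem_insert.1 (Finset.mem_coe.1 hz) with rfl | hz
        · exact (Algebra.adjoin E⟮z⟯ (S : Set N)).algebraMap_mem
            (IntermediateField.AdjoinSimple.gen E z)
        · exact Algebra.subset_adjoin hz
      exact h1 (h ▸ Algebra.mem_top)
    · refine (hU.2.2 E E⟮x⟯ P M (IntermediateField.AdjoinSimple.gen E x) hP hS ?_ ?_).2 l hl hM hE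
      · apply (algebraMap E⟮x⟯ N).injective
        rw [map_zero, ← aeval_algebraMap_apply, IntermediateField.AdjoinSimple.algebraMap_gen]
        exact hx x (Finset.mem_insert_self x S)
      · exact (IntermediateField.adjoin.powerBasis hi).adjoin_gen_eq_top

theorem aeval_map_int {k N : Type} [Field k] [Field N] [Algebra k N] (P : ℤ[X]) (x : N) :
    aeval x (P.map (Int.castRingHom k)) = aeval x P := by
  rw [← algebraMap_int_eq, aeval_map_algebraMap]

end Spl

open Spl in
theorem p_spl (hU : S_Unr) : S_Spl := by
  classical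
  intro k _ _ _ K L _ _ _ e P M θ h
  let N := (P.map (Int.castRingHom k)).SplittingField
  have : CharZero N := algebraRat.charZero N
  have : NumberField N := NumberField.of_module_finite k N
  have hm : (P.map (Int.castRingHom k)).Monic := h.monic.map _
  have hθ : aeval (θ : L) P = 0 := by
    have := congrArg (algebraMap (𝓞 L) L) h.root
    rwa [← aeval_algebraMap_apply, map_zero] at this
  have hmin : minpoly k (θ : L) = P.map (Int.castRingHom k) :=
    (minpoly.eq_of_irreducible_of_monic h.irr (by rw [aeval_map_int, hθ]) hm).symm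
  have htop : k⟮(θ : L)⟯ = ⊤ := by
    rw [Field.primitive_element_iff_minpoly_natDegree_eq, hmin, h.monic.natDegree_map, h.deg, h.fin]
  obtain ⟨f⟩ : Nonempty (L →ₐ[k] N) :=
    IntermediateField.nonempty_algHom_of_adjoin_splits (S := {(θ : L)}) (fun s hs => by
      rw [Set.mem_singleton_iff.1 hs, hmin]
      exact ⟨Algebra.IsIntegral.isIntegral _, SplittingField.splits _⟩) htop
  let : Algebra L N := f.toRingHom.toAlgebra
  have : IsScalarTower k L N := IsScalarTower.of_algebraMap_eq fun x => (f.commutes x).symm
  refine ⟨N, inferInstance, inferInstance, inferInstance, inferInstance, inferInstance,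
    IsGalois.of_separable_splitting_field h.irr.separable, inferInstance, fun l hl hM => ?_⟩
  have hf : aeval (f θ) P = 0 := by
    have := aeval_algHom_apply (f.toRingHom.toIntAlgHom) (θ : L) P
    rw [hθ, map_zero] at this
    exact this
  refine tower hU h.monic h.sep hl hM hf ((P.map (Int.castRingHom k)).aroots N).toFinset k
    (fun x hx => ?_) (SplittingField.adjoin_rootSet _) (hU.1 k K.toIQ l hl fun hd => hM ?_)
  · rw [← aeval_map_int (k := k)]
    exact (mem_aroots.1 (Multiset.mem_toFinset.1 hx)).2
  · exact Int.natCast_dvd_natCast.1 (hd.trans h.dvd)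

end Pool.Agent.P.MP_b8021b_nt.VC
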