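import Pool.Agent.P.MP_b8021b_nt.VC.StS
import Pool.Agent.P.MP_b8021b_nt.VE.BasicS

/-! Points over a point where the defining polynomial has distinct roots. -/

namespace Pool.Agent.P.MP_b8021b_nt.VC

open Polynomial Finset Pool.Agent.P.MP_b8021b_nt.VE
open scoped Classical WithZero IntermediateField

namespace SplitP

variable {F M : Type} [Field F] [Field M] [Algebra F M]

theorem lift (p : GPt F) {P : F[X]} {Pb : Qb[X]} (hP : P.Monic) (h : Red p P Pb) :
    ∃ P0 : p.v.valuationSubring[X], P0.Monic ∧ P0.map p.v.valuationSubring.subtype = P ∧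
      P0.map p.ρ = Pb := by
  have hl : P ∈ lifts p.v.valuationSubring.subtype :=
    (lifts_iff_coeff_lifts P).2 fun n => ⟨⟨_, (h n).mem⟩, rfl⟩
  obtain ⟨P0, h1, -, h2⟩ := lifts_and_natDegree_eq_and_monic hl hP
  refine ⟨P0, h2, h1, Polynomial.ext fun n => ?_⟩
  obtain ⟨hm, e⟩ := h n
  rw [coeff_map, ← e]
  congr 1
  apply Subtype.ext
  change _ = P.coeff n
  rw [← h1, coeff_map]
  rfl

theorem val_ev {p : GPt F} {q : GPt M} (hq : Le (algebraMap F M) q p) {u : M} {c : Qb}
    (hc : q.Val u c) (b : p.v.valuationSubring[X]) :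
    q.Val (aeval u (b.map p.v.valuationSubring.subtype)) ((b.map p.ρ).eval c) := by
  rw [aeval_def, eval₂_map, eval_map]
  exact GPt.val_eval₂ q (ι := (algebraMap F M).comp p.v.valuationSubring.subtype) (τ := p.ρ)
    (fun a => hq _ _ ⟨a.2, rfl⟩) hc b

theorem mem_u {p : GPt F} {q : GPt M} (hq : Le (algebraMap F M) q p) {u : M}
    {P0 : p.v.valuationSubring[X]} (hP : P0.Monic)
    (h0 : aeval u (P0.map p.v.valuationSubring.subtype) = 0) : u ∈ q.v.valuationSubring := by
  refine (Valuation.integer.integers q.v).mem_of_integral ?_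
  let j : p.v.valuationSubring →+* q.v.integer :=
    ((algebraMap F M).comp p.v.valuationSubring.subtype).codRestrict q.v.integer
      fun a => (hq _ _ ⟨a.2, rfl⟩).mem
  refine ⟨P0.map j, hP.map j, ?_⟩
  rw [aeval_def, eval₂_map] at h0
  rw [eval₂_map]
  exact h0

theorem count {A B : Type} (S : Finset A) (T : Finset B) (e : A → ℕ) (φ : A → B)
    (he : ∀ a, 1 ≤ e a) (hs : ∑ a ∈ S, e a = T.card) (hm : ∀ a ∈ S, φ a ∈ T)
    (hT : ∀ b ∈ T, ∃ a ∈ S, φ a = b) : (∀ a ∈ S, e a = 1) ∧ Set.InjOn φ S := by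
  have h1 : T.card ≤ S.card := card_le_card_of_surjOn φ fun b hb => by
    obtain ⟨a, ha, rfl⟩ := hT b hb
    exact ⟨a, ha, rfl⟩
  have h2 : ∑ _a ∈ S, 1 ≤ ∑ a ∈ S, e a := sum_le_sum fun a _ => he a
  have h3 : ∑ _a ∈ S, 1 = S.card := by simp
  refine ⟨fun a ha => ?_, ?_⟩
  · exact ((sum_eq_sum_iff_of_le fun a _ => he a).1 (by omega) a ha).symm
  · rw [← card_image_iff]
    have : S.image φ = T := by
      ext b
      rw [mem_image]
      exact ⟨fun ⟨a, ha, e⟩ => e ▸ hm a ha, hT b⟩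
    rw [this]
    omega

end SplitP

open SplitP in
theorem p_split (hCrv : S_Crv) (hRes : S_Res) (hExtp : S_Extp) : S_Split := by
  intro F M _ _ _ _ _ hF u P p Pb hP hn hu htop hred hsep
  let _ : Algebra ℚ M := ((algebraMap F M).comp (algebraMap ℚ F)).toAlgebra
  have hM : IsCurve M := (hCrv.1 F M).1 hF
  obtain ⟨res, e, hle, he, hfib, -⟩ := hRes F M hF
  obtain ⟨P0, hm0, h1, h2⟩ := lift p hP hred
  have hint : IsIntegral F u := Algebra.IsIntegral.isIntegral u
  have hmin : P = minpoly F u := by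
    refine eq_of_monic_of_dvd_of_natDegree_le (minpoly.monic hint) hP (minpoly.dvd F u hu) ?_
    rw [hn, ← IntermediateField.adjoin.finrank hint, htop, IntermediateField.finrank_top']
  have hex : ∀ c, Pb.IsRoot c → ∃ q : GPt M, Le (algebraMap F M) q p ∧ q.Val u c := by
    intro c hc
    obtain ⟨π, hπ⟩ := p.surj (WithZero.exp (-1))
    have hπ1 : p.v π < 1 := by
      rw [hπ, ← WithZero.exp_zero, WithZero.exp_lt_exp]
      norm_num
    have hπ0 : π ≠ 0 := by
      rintro rfl
      rw [map_zero] at hπ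
      exact WithZero.exp_ne_zero hπ.symm
    obtain ⟨q, hq⟩ := hExtp M hM p.v.valuationSubring[X]
      (eval₂RingHom ((algebraMap F M).comp p.v.valuationSubring.subtype) u) (eval₂RingHom p.ρ c)
      (fun b hb => by
        have hd : P0.map p.v.valuationSubring.subtype ∣ b.map p.v.valuationSubring.subtype := by
          rw [h1, hmin]
          refine minpoly.dvd F u ?_
          rw [aeval_def, eval₂_map]
          exact hb
        obtain ⟨g, rfl⟩ := (map_dvd_map _ p.v.valuationSubring.subtype_injective hm0).1 hd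
        rw [map_mul, coe_eval₂RingHom, ← eval_map, h2, hc.eq_zero, zero_mul])
      ⟨C ⟨π, hπ1.le⟩, by simpa using hπ0, by simpa using (p.ker ⟨π, hπ1.le⟩).2 hπ1⟩
    refine ⟨q, fun a d had => ?_, by simpa using hq X⟩
    obtain ⟨ha, rfl⟩ := had
    simpa using hq (C ⟨a, ha⟩)
  have hall : ∀ q : GPt M, Le (algebraMap F M) q p → ∃ c, Pb.IsRoot c ∧ q.Val u c := by
    intro q hq
    obtain ⟨c, hc⟩ := q.exists_val (mem_u hq hm0 (h1 ▸ hu))
    refine ⟨c, ?_, hc⟩
    have := val_ev hq hc P0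
    rw [h1, hu, h2] at this
    exact this.unique q.val_zero
  have hφ : ∀ q : GPt M, ∃ c, Le (algebraMap F M) q p → Pb.IsRoot c ∧ q.Val u c := by
    intro q
    by_cases hq : Le (algebraMap F M) q p
    · obtain ⟨c, hc⟩ := hall q hq
      exact ⟨c, fun _ => hc⟩
    · exact ⟨0, fun h => absurd h hq⟩
  choose φ hφ using hφ
  have hPb : Pb.Monic := h2 ▸ hm0.map _
  have hdeg : Pb.natDegree = Module.finrank F M := by
    rw [← hn, ← h1, ← h2, hm0.natDegree_map, hm0.natDegree_map]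
  obtain ⟨hfin, hsum⟩ := hfib p
  rw [finsum_mem_eq_finite_toFinset_sum _ hfin] at hsum
  have hcard : Pb.roots.toFinset.card = Module.finrank F M := by
    rw [Multiset.toFinset_card_of_nodup (nodup_roots hsep), ← hdeg,
      ← (IsAlgClosed.splits Pb).natDegree_eq_card_roots]
  have hmem : ∀ q, q ∈ hfin.toFinset ↔ Le (algebraMap F M) q p := fun q => by
    rw [Set.Finite.mem_toFinset, hle]
    rfl
  obtain ⟨he1, hinj⟩ := count hfin.toFinset Pb.roots.toFinset e φ (fun q => (he q).1)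
    (hsum.trans hcard.symm)
    (fun q hq => by
      rw [Multiset.mem_toFinset, mem_roots hPb.ne_zero]
      exact (hφ q ((hmem q).1 hq)).1)
    (fun c hc => by
      rw [Multiset.mem_toFinset, mem_roots hPb.ne_zero] at hc
      obtain ⟨q, hq, hv⟩ := hex c hc
      exact ⟨q, (hmem q).2 hq, (hφ q hq).2.unique hv⟩)
  refine ⟨fun c hc => ?_, fun q hq => ⟨hall q hq, fun a => ?_⟩⟩
  · obtain ⟨q, hq, hv⟩ := hex c hc
    refine ⟨q, ⟨hq, hv⟩, fun q' hq' => hinj (mem_coe.2 ((hmem q').2 hq'.1))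
      (mem_coe.2 ((hmem q).2 hq)) ?_⟩
    exact ((hφ q' hq'.1).2.unique hq'.2).trans (hv.unique (hφ q hq).2)
  · rw [(he q).2 a, he1 q ((hmem q).2 hq), (hle q p).1 hq]
    simp

end Pool.Agent.P.MP_b8021b_nt.VC
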