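import Pool.Agent.P.MP_b8021b_nt.VC.PStab1

/-! The zeros of a function move continuously. -/

namespace Pool.Agent.P.MP_b8021b_nt.VC

open Polynomial NumberField Finset Pool.Agent.P.MP_b8021b_nt.VE Filter Topology
open scoped Classical

namespace Stab

variable {F A Ω : Type}

/-- a function that separates `P₀` from finitely many other points -/
lemma exists_sep [Field F] [CharZero F] [CommRing A] [Algebra F A] [Field Ω] [Algebra F Ω]
    (cv : Cv F A) (P₀ : A →ₐ[F] Ω) (T : Set (A →ₐ[F] Ω)) (hT : T.Finite) :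
    ∃ w, 0 < cv.δ w ∧ ∀ P ∈ T, P w = P₀ w → P = P₀ := by
  have : Finite {P // P ∈ T ∧ P ≠ P₀} := (hT.subset fun _ h => h.1).to_subtype
  let p : Option {P // P ∈ T ∧ P ≠ P₀} → Submodule F A := fun o =>
    o.elim (cv.L 0) fun P => LinearMap.ker (P.1.toLinearMap - P₀.toLinearMap)
  obtain ⟨w, hw⟩ := Submodule.exists_forall_notMem_of_forall_ne_top p (by
    rintro (_ | P) h
    · obtain ⟨n₀, h1⟩ := cv.cof
      obtain ⟨f, -, h2⟩ := h1 (n₀ + 1) (Nat.le_succ _)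
      have h3 : f ∈ p none := h ▸ Submodule.mem_top
      have h4 : cv.δ f ≤ 0 := h3
      omega
    · refine P.2.2 (AlgHom.ext fun a => ?_)
      have h3 : a ∈ p (some P) := h ▸ Submodule.mem_top
      exact sub_eq_zero.mp (LinearMap.mem_ker.mp h3))
  refine ⟨w, Nat.pos_of_ne_zero fun h => hw none (le_of_eq h : cv.δ w ≤ 0), fun P hP h => ?_⟩
  by_contra hne
  exact hw (some ⟨P, hP, hne⟩) (LinearMap.mem_ker.mpr (sub_eq_zero.mpr h))

section

variable [Field F] [CommRing A] [Algebra F A] [Field Ω] [Algebra F Ω] {J : Ideal A} {w : A}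
  {N : Polynomial Ω}

lemma nZ_sum (hfin : (Function.support fun P : A →ₐ[F] Ω => mI P J).Finite) (B : Ω → Prop)
    [DecidablePred B] : nZ J {P : A →ₐ[F] Ω | B (P w)} =
      ∑ P ∈ hfin.toFinset.filter (fun P => B (P w)), mI P J :=
  finsum_mem_eq_sum_of_inter_support_eq _ (by
    ext P
    simp only [Set.mem_inter_iff, Set.mem_ofPred_eq, coe_filter, Set.Finite.mem_toFinset]
    tauto)

lemma root_of (hfin : (Function.support fun P : A →ₐ[F] Ω => mI P J).Finite) (hN : N ≠ 0)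
    (h : ∀ a, rootMultiplicity a N = nZ J {P : A →ₐ[F] Ω | P w = a}) {P : A →ₐ[F] Ω}
    (hP : mI P J ≠ 0) : N.IsRoot (P w) := by
  rw [← rootMultiplicity_pos hN, h, nZ_sum hfin (· = P w)]
  refine lt_of_lt_of_le (Nat.pos_of_ne_zero hP)
    (Finset.single_le_sum (f := fun P : A →ₐ[F] Ω => mI P J) (fun _ _ => Nat.zero_le _) ?_)
  exact Finset.mem_filter.mpr ⟨hfin.mem_toFinset.mpr hP, rfl⟩

/-- the zeros over a set of values of `w` are counted by the roots of the norm -/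
lemma nZ_eq_card (hfin : (Function.support fun P : A →ₐ[F] Ω => mI P J).Finite) (hN : N ≠ 0)
    (h : ∀ a, rootMultiplicity a N = nZ J {P : A →ₐ[F] Ω | P w = a}) (B : Ω → Prop)
    [DecidablePred B] : nZ J {P : A →ₐ[F] Ω | B (P w)} = (N.roots.filter B).card := by
  rw [nZ_sum hfin, ← Multiset.toFinset_sum_count_eq,
    ← Finset.sum_fiberwise_of_maps_to (t := (N.roots.filter B).toFinset) (g := fun P => P w)]
  · refine Finset.sum_congr rfl fun a ha => ?_
    have ha' := (Multiset.mem_filter.mp (Multiset.mem_toFinset.mp ha)).2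
    rw [Multiset.count_filter_of_pos ha', Polynomial.count_roots, h, nZ_sum hfin (· = a),
      Finset.filter_filter]
    refine Finset.sum_congr (Finset.ext fun P => ?_) fun _ _ => rfl
    simp only [Finset.mem_filter]
    exact ⟨fun h => ⟨h.1, h.2.2⟩, fun h => ⟨h.1, h.2 ▸ ha', h.2⟩⟩
  · intro P hP
    obtain ⟨h1, h2⟩ := Finset.mem_filter.mp hP
    exact Multiset.mem_toFinset.mpr (Multiset.mem_filter.mpr
      ⟨(mem_roots hN).mpr (root_of hfin hN h (hfin.mem_toFinset.mp h1)), h2⟩)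

end

variable [NormedField F] [CommRing A] [Algebra F A] [NormedField Ω] [NormedAlgebra F Ω]
  [IsAlgClosed Ω]

/-- points with a convergent value of `w` converge along an ultrafilter -/
lemma lim_hom {ι : Type} (U : Ultrafilter ι) (w : A)
    (hint : ∀ u, ∃ χ : F[X][X], χ.Monic ∧ χ.eval₂ (aeval w : F[X] →ₐ[F] A).toRingHom u = 0)
    (P : ι → A →ₐ[F] Ω) (a₀ : Ω) (hP : Tendsto (fun i => P i w) U (𝓝 a₀)) :
    ∃ Q : A →ₐ[F] Ω, ∀ u, Tendsto (fun i => P i u) U (𝓝 (Q u)) := by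
  have h1 : ∀ u, ∃ ρ, Tendsto (fun i => P i u) U (𝓝 ρ) := by
    intro u
    obtain ⟨χ, hm, hχ⟩ := hint u
    refine CT.ultra (p := fun i => χ.map (aeval (P i w) : F[X] →ₐ[F] Ω).toRingHom)
      (p₀ := χ.map (aeval a₀ : F[X] →ₐ[F] Ω).toRingHom) (n := χ.natDegree) (fun k => ?_)
      (fun _ => natDegree_map_le) natDegree_map_le (hm.map _).ne_zero (fun _ => hm.map _)
      fun i => ?_
    · simp only [coeff_map]
      exact ((χ.coeff k).continuous_aeval.tendsto a₀).comp hP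
    · have h2 := congrArg (P i : A →+* Ω) hχ
      rw [hom_eval₂, map_zero] at h2
      rw [eval_map]
      refine Eq.trans ?_ h2
      congr 1
      refine RingHom.ext fun q => ?_
      exact aeval_algHom_apply (P i) w q
  choose q hq using h1
  have hc : ∀ u y, (∀ i, P i u = y) → q u = y := fun u y h =>
    tendsto_nhds_unique (hq u) (by simp only [h]; exact tendsto_const_nhds)
  exact ⟨{ toFun := q
           map_one' := hc _ _ fun i => map_one _
           map_mul' := fun u v => tendsto_nhds_unique (hq _) (by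
             simp only [map_mul]; exact (hq u).mul (hq v))
           map_zero' := hc _ _ fun i => map_zero _
           map_add' := fun u v => tendsto_nhds_unique (hq _) (by
             simp only [map_add]; exact (hq u).add (hq v))
           commutes' := fun c => hc _ _ fun i => AlgHom.commutes _ c }, hq⟩

/-- zeros of a nearby function in a nearby fibre are near `P₀` -/
lemma near_of_zero (w : A)
    (hint : ∀ u, ∃ χ : F[X][X], χ.Monic ∧ χ.eval₂ (aeval w : F[X] →ₐ[F] A).toRingHom u = 0)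
    (f₀ : A) (P₀ : A →ₐ[F] Ω) (hsep : ∀ P : A →ₐ[F] Ω, P f₀ = 0 → P w = P₀ w → P = P₀)
    (W : Finset A) {ε : ℝ} (hε : 0 < ε) {I : Type} [Fintype I] (b : I → A) :
    ∃ r : ℝ, 0 < r ∧ ∀ᶠ c : I → F in 𝓝 0, ∀ P : A →ₐ[F] Ω, P (f₀ + ∑ i, c i • b i) = 0 →
      ‖P w - P₀ w‖ < r → P ∈ Near W ε P₀ := by
  let l : Filter ((I → F) × (A →ₐ[F] Ω)) := (𝓝 0 ×ˢ comap (fun P => P w) (𝓝 (P₀ w))) ⊓
    𝓟 {x | x.2 (f₀ + ∑ i, x.1 i • b i) = 0}
  have h1 : ∀ u, Tendsto (fun x => x.2 u) l (𝓝 (P₀ u)) := by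
    intro u
    rw [tendsto_iff_ultrafilter]
    intro U hU
    have h2 : Tendsto (fun x : (I → F) × (A →ₐ[F] Ω) => x.2 w) U (𝓝 (P₀ w)) :=
      (tendsto_comap.comp tendsto_snd).mono_left (hU.trans inf_le_left)
    have h3 : Tendsto (fun x : (I → F) × (A →ₐ[F] Ω) => x.1) U (𝓝 0) :=
      tendsto_fst.mono_left (hU.trans inf_le_left)
    obtain ⟨Q, hQ⟩ := lim_hom U w hint (fun x => x.2) _ h2
    have h4 : Tendsto (fun x : (I → F) × (A →ₐ[F] Ω) => x.2 f₀ + ∑ i, x.1 i • x.2 (b i)) U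
        (𝓝 (Q f₀ + ∑ i, (0 : I → F) i • Q (b i))) :=
      (hQ f₀).add (tendsto_finsetSum _ fun i _ => (tendsto_pi_nhds.mp h3 i).smul (hQ _))
    have h5 : ∀ᶠ x : (I → F) × (A →ₐ[F] Ω) in U, x.2 f₀ + ∑ i, x.1 i • x.2 (b i) = 0 := by
      filter_upwards [le_principal_iff.mp (hU.trans inf_le_right)] with x hx
      simpa only [Set.mem_ofPred_eq, map_add, map_sum, map_smul] using hx
    have h6 := tendsto_nhds_unique h4 (tendsto_const_nhds.congr' (h5.mono fun _ h => h.symm))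
    simp only [Pi.zero_apply, zero_smul, Finset.sum_const_zero, add_zero] at h6
    rw [← hsep Q h6 (tendsto_nhds_unique (hQ w) h2)]
    exact hQ u
  have h7 : ∀ᶠ x in l, ∀ u ∈ W, ‖x.2 u - P₀ u‖ < ε := (eventually_all_finset W).mpr fun u _ => by
    simpa only [dist_eq_norm] using Metric.tendsto_nhds.mp (h1 u) ε hε
  obtain ⟨pa, hpa, pb, hpb, h8⟩ := eventually_prod_iff.mp (eventually_inf_principal.mp h7)
  obtain ⟨r, hr, h9⟩ := Metric.eventually_nhds_iff.mp (eventually_comap.mp hpb)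
  refine ⟨r, hr, hpa.mono fun c hc P h0 hP => ?_⟩
  exact h8 hc (h9 (y := P w) (by rwa [dist_eq_norm]) P rfl) h0

omit [IsAlgClosed Ω] in
/-- the norm depends continuously on the coefficients -/
lemma ct_norm {n : ℕ} (M : A →ₐ[F] Matrix (Fin n) (Fin n) F[X]) (f₀ : A) {I : Type} [Fintype I]
    (b : I → A) : CT (𝓝 0) (fun c : I → F => (M (f₀ + ∑ i, c i • b i)).det.map (algebraMap F Ω))
      ((M f₀).det.map (algebraMap F Ω)) := by
  have h1 : CT (𝓝 0) (fun c : I → F => (M (f₀ + ∑ i, c i • b i)).det) (M f₀).det := by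
    refine CT.det fun a a' k => ?_
    simp only [map_add, map_sum, map_smul, Matrix.add_apply, Matrix.sum_apply, Matrix.smul_apply,
      coeff_add, finsetSum_coeff, coeff_smul]
    have h2 : Continuous fun c : I → F =>
        (M f₀ a a').coeff k + ∑ i, c i • (M (b i) a a').coeff k := by fun_prop
    simpa using h2.tendsto 0
  intro k
  simp only [coeff_map]
  exact ((continuous_algebraMap F Ω).tendsto _).comp (h1 k)

end Stab

open Stab in
theorem p_stab (hPts : S_Pts) (hNrm : S_Nrm) : S_Stab := by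
  intro F A Ω _ _ _ _ _ _ _ _ cv f₀ P₀ hf₀
  obtain ⟨hP1, -, hP3, -⟩ := hPts F A Ω cv
  have hz : ∀ (f : A) (P : A →ₐ[F] Ω), f ≠ 0 → (mI P (Ideal.span {f}) ≠ 0 ↔ P f = 0) :=
    fun f P hf => by
      rw [hP3 P _ (by simpa using hf), Ideal.span_singleton_le_iff_mem, RingHom.mem_ker]
  have hfin : ∀ f : A, f ≠ 0 →
      (Function.support fun P : A →ₐ[F] Ω => mI P (Ideal.span {f})).Finite := fun f hf =>
    (hP1 _ (by simpa using hf : Ideal.span {f} ≠ ⊥)).1.subset fun P hP =>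
      (hP3 P _ (by simpa using hf)).mp hP
  obtain ⟨w, hw, hsep⟩ := exists_sep cv P₀ _ (hfin f₀ hf₀)
  have hsep' : ∀ P : A →ₐ[F] Ω, P f₀ = 0 → P w = P₀ w → P = P₀ := fun P h =>
    hsep P ((hz f₀ P hf₀).mpr h)
  obtain ⟨M, -, hM2, -, hM4, -, hM6⟩ := hNrm F A cv w hw
  have hinj := (algebraMap F Ω).injective
  have hN : ∀ f, f ≠ 0 → (M f).det.map (algebraMap F Ω) ≠ 0 := fun f hf =>
    (Polynomial.map_ne_zero_iff hinj).mpr (hM2 f hf).1
  set N₀ := (M f₀).det.map (algebraMap F Ω) with hN₀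
  have hm : rootMultiplicity (P₀ w) N₀ = mI P₀ (Ideal.span {f₀}) := by
    rw [hN₀, (hM6 Ω (P₀ w)).1 f₀ hf₀, nZ, finsum_mem_inter_support_eq _ _ {P₀},
      finsum_mem_singleton]
    ext P
    exact ⟨fun h => ⟨hsep P h.2 h.1, h.2⟩, fun h => ⟨by rw [h.1]; rfl, h.2⟩⟩
  obtain ⟨κ, hκ, hκ'⟩ : ∃ κ : ℝ, 0 < κ ∧ ∀ ρ ∈ N₀.roots, ρ ≠ P₀ w → κ < ‖ρ - P₀ w‖ := by
    have h1 : ∀ᶠ κ : ℝ in 𝓝[>] 0, ∀ ρ ∈ N₀.roots.toFinset, ρ ≠ P₀ w → κ < ‖ρ - P₀ w‖ :=
      (eventually_all_finset _).mpr fun ρ _ => by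
        by_cases h : ρ = P₀ w
        · exact Eventually.of_forall fun _ h' => absurd h h'
        · exact ((eventually_lt_nhds (norm_pos_iff.mpr (sub_ne_zero.mpr h))).filter_mono
            nhdsWithin_le_nhds).mono fun _ h' _ => h'
    obtain ⟨κ, h2, h3⟩ := (h1.and self_mem_nhdsWithin).exists
    exact ⟨κ, h3, fun ρ hρ => h2 ρ (Multiset.mem_toFinset.mpr hρ)⟩
  refine ⟨{w}, κ, hκ, fun W ε hW hε hεκ I _ b => ?_⟩
  obtain ⟨r, hr, h1⟩ := near_of_zero w (fun u => ⟨_, (M u).charpoly_monic, hM4 u⟩) f₀ P₀ hsep' W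
    hε b
  have hct := ct_norm (Ω := Ω) M f₀ b
  set n := max (cv.δ f₀) (univ.sup fun i => cv.δ (b i)) with hn
  have hdeg : ∀ f, cv.δ f ≤ n → ((M f).det.map (algebraMap F Ω)).natDegree ≤ n := fun f hf => by
    refine natDegree_map_le.trans ?_
    by_cases h : f = 0
    · have : Nonempty (Fin (cv.δ w)) := ⟨⟨0, hw⟩⟩
      rw [h, map_zero, Matrix.det_zero, natDegree_zero]
      exact Nat.zero_le _
    · rw [(hM2 f h).2]
      exact hf
  have hd0 := hdeg f₀ (le_max_left _ _)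
  have hd : ∀ c : I → F, ((M (f₀ + ∑ i, c i • b i)).det.map (algebraMap F Ω)).natDegree ≤ n :=
    fun c => hdeg _ ((cv.L n).add_mem (le_max_left _ _ : cv.δ f₀ ≤ n)
      ((cv.L n).sum_mem fun i _ => (cv.L n).smul_mem _
        (le_max_of_le_right (Finset.le_sup (f := fun i => cv.δ (b i)) (mem_univ i)) :
          cv.δ (b i) ≤ n)))
  have hr' : 0 < min r κ := lt_min hr hκ
  have h2 := Stab.count_roots n (P₀ w) hr' _ _ _ _ _ hct hd hd0 (hN f₀ hf₀) hm
    fun ρ hρ h => (min_le_right _ _).trans_lt (hκ' ρ hρ h)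
  have h3 := hct.no_root hd hd0 (hN f₀ hf₀) {x | min r κ ≤ ‖x - P₀ w‖ ∧ ‖x - P₀ w‖ ≤ κ}
    (κ + ‖P₀ w‖) (fun x hx => (norm_le_norm_sub_add x (P₀ w)).trans (by linarith [hx.2]))
    (fun ρ hρ => by
      by_cases h : ρ = P₀ w
      · exact ⟨_, hr', fun x hx => h ▸ hx.1⟩
      · refine ⟨‖ρ - P₀ w‖ - κ, sub_pos.mpr (hκ' ρ hρ h), fun x hx => ?_⟩
        have h2 : ‖ρ - P₀ w‖ ≤ ‖ρ - x‖ + ‖x - P₀ w‖ := norm_sub_le_norm_sub_add_norm_sub _ _ _
        rw [norm_sub_rev x]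
        linarith [hx.2])
  obtain ⟨η, hη, h4⟩ := Metric.eventually_nhds_iff.mp
    (h1.and (h2.and (h3.and (hct.ne_zero (hN f₀ hf₀)))))
  refine ⟨η, hη, fun c hc => ?_⟩
  obtain ⟨h5, h6, h7, h8⟩ := h4 (y := c) (by
    rw [dist_zero_right]
    exact (pi_norm_lt_iff hη).mpr hc)
  have hf : f₀ + ∑ i, c i • b i ≠ 0 := fun h => h8 (by
    have : Nonempty (Fin (cv.δ w)) := ⟨⟨0, hw⟩⟩
    rw [h, map_zero, Matrix.det_zero, Polynomial.map_zero])
  refine ⟨hf, ?_⟩
  have h9 := fun a => (hM6 Ω a).1 _ hf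
  rw [← h6, ← nZ_eq_card (hfin _ hf) h8 h9 fun x => ‖x - P₀ w‖ < min r κ]
  refine finsum_mem_inter_support_eq _ _ _ (Set.ext fun P => ⟨fun h => ⟨?_, h.2⟩, fun h =>
    ⟨h5 P ((hz _ P hf).mp h.2) (lt_of_lt_of_le h.1 (min_le_left _ _)), h.2⟩⟩)
  by_contra hcon
  exact h7 (P w) ⟨not_lt.mp hcon, ((h.1 w (hW (mem_singleton_self w))).trans_le hεκ).le⟩
    (root_of (hfin _ hf) h8 h9 h.2)

end Pool.Agent.P.MP_b8021b_nt.VC
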