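import Pool.Agent.P.MP_b8021b_nt.VC.PStep1

/-! The method of Stepanov for a plane curve with one place at infinity. -/

namespace Pool.Agent.P.MP_b8021b_nt.VC.Step

open Finset Polynomial

section Val

variable {K Ω : Type} [Field K] [Field Ω] [Algebra K Ω]

theorem exists_val {z : Ω} (hz : Transcendental K z) :
    ∃ V : ValuationSubring Ω, V.valuation.IsTrivialOn K ∧ 1 < V.valuation z := by
  have h1 : z ∉ (integralClosure (Subring.closure (Set.range (algebraMap K Ω))) Ω).toSubring := by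
    intro h
    have h2 : IsIntegral (Subring.closure (Set.range (algebraMap K Ω))) z := h
    rw [← RingHom.coe_range, Subring.closure_eq] at h2
    let f := RingEquiv.ofBijective (algebraMap K Ω).rangeRestrict
      ⟨fun a b h => (algebraMap K Ω).injective (congrArg Subtype.val h),
        RingHom.rangeRestrict_surjective _⟩
    refine hz (IsIntegral.isAlgebraic (h2.map_of_comp_eq f.symm.toRingHom (RingHom.id Ω) ?_))
    ext x
    exact congrArg Subtype.val (f.apply_symm_apply x)
  rw [← iInf_valuationSubring_superset, Subring.mem_iInf, not_forall] at h1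
  obtain ⟨⟨V, hV⟩, h⟩ := h1
  have h3 : ∀ a : K, V.valuation (algebraMap K Ω a) ≤ 1 := fun a =>
    (V.valuation_le_one_iff _).2 (hV ⟨a, rfl⟩)
  refine ⟨V, ⟨fun a ha => le_antisymm (h3 a) ?_⟩, not_le.1 ((V.valuation_le_one_iff _).not.2 h)⟩
  have h4 := h3 a⁻¹
  rwa [map_inv₀, map_inv₀, inv_le_one₀ (by simpa [zero_lt_iff] using ha)] at h4

variable {Γ : Type} [LinearOrderedCommGroupWithZero Γ] (v : Valuation Ω Γ) [v.IsTrivialOn K]
  {z u : Ω} {e δ : ℕ}

theorem li_of (he : e ≠ 0) (hz : 1 < v z) (hu : v u ^ e = v z ^ δ) : Li K z u e δ := by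
  classical
  intro T _ a i hw c hc t
  by_contra ht
  obtain ⟨s, hs, hm⟩ := exists_max_image (univ.filter fun t => c t ≠ 0)
    (fun t => e * a t + δ * i t) ⟨t, by simpa using ht⟩
  have h1 : ∀ t, c t ≠ 0 → v (c t • (z ^ a t * u ^ i t)) ^ e = v z ^ (e * a t + δ * i t) := by
    intro t ht
    rw [Algebra.smul_def, map_mul, Valuation.IsTrivialOn.eq_one _ ht, one_mul, map_mul, map_pow,
      map_pow, mul_pow, ← pow_mul, ← pow_mul, mul_comm (i t), pow_mul (v u), hu, ← pow_mul, pow_add,
      mul_comm (a t)]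
  have hs' : c s ≠ 0 := by simpa using hs
  have h2 : v (c s • (z ^ a s * u ^ i s)) ≠ 0 := fun h => by
    have := h1 s hs'
    rw [h, zero_pow he] at this
    exact pow_ne_zero _ (zero_lt_one.trans hz).ne' this.symm
  refine h2 ?_
  rw [← v.map_sum_eq_of_lt (f := fun t => c t • (z ^ a t * u ^ i t)) (mem_univ s), hc, map_zero]
  intro t ht
  by_cases h : c t = 0
  · rw [h, zero_smul, map_zero]
    exact zero_lt_iff.2 h2
  · refine lt_of_pow_lt_pow_left₀ e zero_le ?_
    rw [h1 t h, h1 s hs']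
    exact pow_lt_pow_right₀ hz (lt_of_le_of_ne (hm t (by simpa using h))
      fun h' => by simpa using (mem_sdiff.1 ht).2 (mem_singleton.2 (hw h')))

theorem val_root {P : K[X][X]} (hm : P.Monic) (hd : P.natDegree = e) (he : e ≠ 0)
    (hc : ∀ l, e * (P.coeff l).natDegree ≤ (e - l) * δ) (h0 : P.coeff 0 ≠ 0)
    (h0' : (P.coeff 0).natDegree = δ) (hz : 1 < v z)
    (hu : P.eval₂ (aeval z : K[X] →ₐ[K] Ω) u = 0) : v u ^ e = v z ^ δ := by
  have hz0 := zero_lt_one.trans hz
  have hv := fun (f : K[X]) (hf : f ≠ 0) =>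
    valuation_aeval_eq_valuation_X_pow_natDegree_of_one_lt_valuation_X (v := v) z hz hf
  have h1 : ∀ l, v (aeval z (P.coeff l) * u ^ l) ^ e ≤ (v z ^ δ) ^ (e - l) * (v u ^ e) ^ l := by
    intro l
    by_cases h : P.coeff l = 0
    · simp [h, he]
    · rw [map_mul, hv _ h, map_pow, mul_pow, ← pow_mul, ← pow_mul, ← pow_mul, ← pow_mul,
        mul_comm l, mul_comm _ e, mul_comm δ]
      exact mul_le_mul_left (pow_le_pow_right₀ hz.le (hc l)) _
  rw [eval₂_eq_sum_range, hd] at hu
  have h2 : ∀ j ≤ e, (∀ l ≤ e, l ≠ j → (v z ^ δ) ^ (e - l) * (v u ^ e) ^ l <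
      v (aeval z (P.coeff j) * u ^ j) ^ e) → v (aeval z (P.coeff j) * u ^ j) = 0 := by
    intro j hj h
    rw [← v.map_sum_eq_of_lt (f := fun l => aeval z (P.coeff l) * u ^ l)
      (mem_range.2 (Nat.lt_succ_of_le hj))]
    · exact (congrArg v hu).trans (map_zero v)
    · intro l hl
      simp only [mem_sdiff, mem_range, mem_singleton] at hl
      exact lt_of_pow_lt_pow_left₀ e zero_le ((h1 l).trans_lt (h l (by omega) hl.2))
  rcases lt_trichotomy (v u ^ e) (v z ^ δ) with h | h | h
  · have h3 : v (aeval z (P.coeff 0) * u ^ 0) = v z ^ δ := by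
      rw [pow_zero, mul_one, hv _ h0, h0']
    refine absurd (h3 ▸ h2 0 (Nat.zero_le _) fun l hl hl0 => ?_) (pow_pos hz0 _).ne'
    rw [h3]
    exact (mul_lt_mul_of_pos_left (pow_lt_pow_left₀ h zero_le hl0)
      (pow_pos (pow_pos hz0 _) _)).trans_eq (by rw [← pow_add, Nat.sub_add_cancel hl])
  · exact h
  · have h3 : v (aeval z (P.coeff e) * u ^ e) = v u ^ e := by
      rw [← hd, hm.coeff_natDegree, map_one, one_mul, map_pow]
    have h4 := (pow_pos hz0 _).trans h
    refine absurd (h3 ▸ h2 e le_rfl fun l hl hl0 => ?_) h4.ne'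
    rw [h3]
    exact (mul_lt_mul_of_pos_right (pow_lt_pow_left₀ h zero_le (by omega))
      (pow_pos h4 _)).trans_eq (by rw [← pow_add, Nat.sub_add_cancel hl])

end Val

section Curve

variable {K : Type} [Field K] (P : K[X][X])

/-- the derivative in the first variable -/
noncomputable def dz : Derivation K K[X][X] K[X][X] :=
  PolynomialModule.equivPolynomialSelf.compDer (derivative' : Derivation K K[X] K[X]).mapCoeffs

theorem coeff_dz (f : K[X][X]) (i : ℕ) : (dz f).coeff i = derivative (f.coeff i) := rfl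

theorem exists_der : ∃ D : Derivation K (AdjoinRoot P) (AdjoinRoot P),
    D (AdjoinRoot.of P X) = AdjoinRoot.mk P (derivative P) ∧
      D (AdjoinRoot.root P) = -AdjoinRoot.mk P (dz P) := by
  let d : Derivation K K[X][X] K[X][X] :=
    derivative P • dz - dz P • (derivative' : Derivation K[X] K[X][X] K[X][X]).restrictScalars K
  have hd : ∀ f, d f = derivative P * dz f - dz P * derivative f := fun f => rfl
  let f : K[X][X] →ₐ[K] AdjoinRoot P := Ideal.Quotient.mkₐ K _
  have hf : ∀ x, f x = AdjoinRoot.mk P x := fun x => rfl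
  have h1 : ∀ x, f x = 0 → f (d x) = 0 := fun x hx => by
    obtain ⟨y, rfl⟩ := AdjoinRoot.mk_eq_zero.1 hx
    rw [d.leibniz, hd P, mul_comm, sub_self, smul_zero, add_zero, smul_eq_mul, hf, map_mul,
      AdjoinRoot.mk_self, zero_mul]
  have h2 := Derivation.liftOfSurjective_apply (f := f) AdjoinRoot.mk_surjective h1
  refine ⟨Derivation.liftOfSurjective (f := f) AdjoinRoot.mk_surjective h1,
    (h2 (C X)).trans ?_, (h2 X).trans ?_⟩
  · have : dz (C X : K[X][X]) = 1 := by
      ext1 i
      rw [coeff_dz, coeff_C, coeff_one]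
      split_ifs <;> simp
    rw [hd, this, derivative_C, mul_zero, sub_zero, mul_one, hf]
  · have : dz (X : K[X][X]) = 0 := by
      ext1 i
      rw [coeff_dz, coeff_X, coeff_zero]
      split_ifs <;> simp
    rw [hd, this, derivative_X, mul_zero, zero_sub, mul_one, map_neg, hf]

theorem mk_mem {e n : ℕ} {f : K[X][X]} (h1 : f.natDegree < e)
    (h2 : ∀ l, (f.coeff l).natDegree ≤ n) :
    AdjoinRoot.mk P f ∈ Bx K (AdjoinRoot.of P X) (AdjoinRoot.root P) e n := by
  rw [f.as_sum_range_C_mul_X_pow' h1, map_sum]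
  refine Submodule.sum_mem _ fun l hl => ?_
  rw [(f.coeff l).as_sum_range_C_mul_X_pow' (Nat.lt_succ_of_le (h2 l)), map_sum, sum_mul, map_sum]
  refine Submodule.sum_mem _ fun a ha => ?_
  have : AdjoinRoot.mk P (C (C ((f.coeff l).coeff a) * X ^ a) * X ^ l) =
      (f.coeff l).coeff a • (AdjoinRoot.of P X ^ a * AdjoinRoot.root P ^ l) := by
    rw [Algebra.smul_def, AdjoinRoot.algebraMap_eq']
    simp [mul_assoc]
  rw [this]
  exact Submodule.smul_mem _ _ (mem_Bx (Nat.le_of_lt_succ (mem_range.1 ha)) (mem_range.1 hl))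

theorem curve {e d δ m ν p : ℕ} (hp : p.Prime) [CharP K p] (he : e = d + 1) (hm : P.Monic)
    (hd : P.natDegree = e) (hδ : δ % e = 1)
    (hc : ∀ l, e * (P.coeff l).natDegree ≤ (e - l) * δ) (h0 : (P.coeff 0).natDegree = δ)
    (S : Finset (K × K)) (hS : ∀ x ∈ S, x.1 ^ p = x.1 ∧ x.2 ^ p ≠ x.2 ∧
      (P.map (evalRingHom x.1)).eval x.2 = 0 ∧ (P.map (evalRingHom x.1)).eval (x.2 ^ p) = 0 ∧
      (derivative (P.map (evalRingHom x.1))).eval x.2 ≠ 0)
    (hν : m * d * (e * m * (δ + e * δ) + d * m + (δ + e * δ) + e * δ + 1) < ν)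
    (hp1 : e * ν + δ * e ≤ p) (hp2 : e * m ≤ p) :
    S.card * m ≤ ν + p * (d * m) + (p + 2) * (e * δ) := by
  have he0 : 0 < e := by omega
  have hc' : ∀ l, (P.coeff l).natDegree ≤ δ := fun l =>
    Nat.le_of_mul_le_mul_left ((hc l).trans (Nat.mul_le_mul_right _ (Nat.sub_le _ _))) he0
  have h00 : P.coeff 0 ≠ 0 := fun h => by
    rw [h, natDegree_zero] at h0
    simp [← h0] at hδ
  let Ω := AlgebraicClosure (FractionRing K[X])
  obtain ⟨z, hz⟩ : ∃ z : Ω, Transcendental K z :=
    ⟨_, (transcendental_algebraMap_iff (algebraMap (FractionRing K[X]) Ω).injective).2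
      ((transcendental_algebraMap_iff (IsFractionRing.injective K[X] (FractionRing K[X]))).2
        (transcendental_X K))⟩
  obtain ⟨V, hV, hV1⟩ := exists_val hz
  obtain ⟨u, hu⟩ := IsAlgClosed.exists_root (P.map (aeval z : K[X] →ₐ[K] Ω).toRingHom) (by
    rw [hm.degree_map, degree_eq_natDegree hm.ne_zero, hd]
    exact_mod_cast he0.ne')
  rw [IsRoot, eval_map] at hu
  have hli : Li K z u e δ :=
    li_of V.valuation he0.ne' hV1 (val_root V.valuation hm hd he0.ne' hc h00 h0 hV1 hu)
  obtain ⟨D, hD1, hD2⟩ := exists_der P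
  have hue : AdjoinRoot.root P ^ e ∈ Bx K (AdjoinRoot.of P X) (AdjoinRoot.root P) e δ := by
    have h1 := congrArg (AdjoinRoot.mk P) P.eraseLead_add_C_mul_X_pow
    rw [AdjoinRoot.mk_self, hm.leadingCoeff, C_1, one_mul, hd, map_add, map_pow,
      AdjoinRoot.mk_X] at h1
    rw [eq_neg_of_add_eq_zero_right h1]
    refine neg_mem (mk_mem P (P.eraseLead_natDegree_le.trans_lt (by omega)) fun l => ?_)
    rw [eraseLead_coeff]
    split_ifs
    exacts [by simp, hc' l]
  have hev : ∀ τ : K, ((aeval τ : K[X] →ₐ[K] K) : K[X] →+* K) = evalRingHom τ := fun τ =>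
    RingHom.ext fun f => by simp
  let φ : S → AdjoinRoot P →ₐ[K] K := fun x => AdjoinRoot.liftAlgHom P (aeval x.1.1) x.1.2 (by
    rw [hev, ← eval_map]
    exact (hS _ x.2).2.2.1)
  have hφ : ∀ x f, φ x (AdjoinRoot.mk P f) = (f.map (evalRingHom x.1.1)).eval x.1.2 := fun x f => by
    rw [eval_map, ← hev]
    rfl
  have hφz : ∀ x, φ x (AdjoinRoot.of P X) = x.1.1 := fun x => by simp [φ]
  have hφu : ∀ x, φ x (AdjoinRoot.root P) = x.1.2 := fun x => by simp [φ]
  let q : ℕ → AdjoinRoot P := fun l =>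
    ∑ i ∈ Icc (l + 1) e, AdjoinRoot.root P ^ (i - (l + 1)) * AdjoinRoot.mk P (C (P.coeff i))
  rw [← Fintype.card_coe]
  refine step (ρ := δ + e * δ) hp he D (AdjoinRoot.liftAlgHom P (aeval z) u hu) hδ
    (by simpa using hli) hue (fun x => ?_) ?_ ?_
    (fun l l' => if l.1 = d then -q l' else if l'.1 = l.1 then 1 else 0) (fun l l' => ?_) φ
    (fun x y h => ?_) (fun x => ?_) (fun x => ?_) (fun x l => ?_) hν hp1 hp2
  · obtain ⟨f, rfl⟩ := AdjoinRoot.mk_surjective x
    have h1 : (f %ₘ P).natDegree < e := hd ▸ natDegree_modByMonic_lt f hm fun h => by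
      rw [h, natDegree_one] at hd
      omega
    refine ⟨∑ l ∈ range e, ((f %ₘ P).coeff l).natDegree, ?_⟩
    rw [← AdjoinRoot.mk_leftInverse hm (AdjoinRoot.mk P f), AdjoinRoot.modByMonicHom_mk]
    refine mk_mem P h1 fun l => ?_
    rcases lt_or_ge l e with h | h
    · exact single_le_sum (f := fun l => ((f %ₘ P).coeff l).natDegree) (fun _ _ => Nat.zero_le _)
        (mem_range.2 h)
    · simp [coeff_eq_zero_of_natDegree_lt (h1.trans_le h)]
  · rw [hD1]
    refine mk_mem P (hd ▸ natDegree_derivative_lt (by omega)) fun l => ?_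
    rw [coeff_derivative, ← Nat.cast_succ, ← C_eq_natCast]
    exact (natDegree_mul_C_le _ _).trans (hc' _)
  · rw [hD2]
    refine neg_mem (mk_mem P (lt_of_le_of_lt (b := d) (natDegree_le_iff_coeff_eq_zero.2
      fun l hl => ?_) (by omega)) fun l => ?_)
    · rw [coeff_dz]
      rcases Nat.lt_or_eq_of_le (show P.natDegree ≤ l by omega) with h | h
      · rw [coeff_eq_zero_of_natDegree_lt h, derivative_zero]
      · rw [← h, hm.coeff_natDegree, derivative_one]
    · rw [coeff_dz]
      exact (natDegree_derivative_le _).trans ((Nat.sub_le _ _).trans (hc' l))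
  · split_ifs
    · refine neg_mem (Submodule.sum_mem _ fun i hi => Bx_mono ?_ (umul hue _
        (mk_mem P (n := δ) (by simpa using he0) fun l => ?_)))
      · exact Nat.add_le_add_left (Nat.mul_le_mul_right _ (by have := (mem_Icc.1 hi).2; omega)) _
      · rw [coeff_C]
        split_ifs
        exacts [hc' i, by simp]
    · simpa using mem_Bx (K := K) (z := AdjoinRoot.of P X) (u := AdjoinRoot.root P)
        (Nat.zero_le (δ + e * δ)) he0
    · exact zero_mem _
  · exact Subtype.ext (Prod.ext (by rw [← hφz, h, hφz]) (by rw [← hφu, h, hφu]))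
  · rw [hD1, hφ, ← derivative_map]
    exact (hS _ x.2).2.2.2.2
  · rw [hφz]
    exact (hS _ x.2).1
  · rw [hφu]
    obtain ⟨-, h1, h2, h3, -⟩ := hS _ x.2
    split_ifs with h
    · have hm' := hm.map (evalRingHom x.1.1)
      have hd' := (hm.natDegree_map (evalRingHom x.1.1)).trans hd
      have h4 : ∀ l, (P.map (evalRingHom x.1.1) /ₘ (X - C x.1.2)).coeff l = φ x (q l) := by
        intro l
        simp only [coeff_divByMonic_X_sub_C, hd', q, map_sum, map_mul, map_pow, hφu, hφ, map_C,
          eval_C, coeff_map]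
      rw [← mul_divByMonic_eq_iff_isRoot.2 h2, eval_mul, eval_sub, eval_X, eval_C] at h3
      have h5 := (mul_eq_zero.1 h3).resolve_left (sub_ne_zero.2 h1)
      rw [eval_eq_sum_range, natDegree_divByMonic _ (monic_X_sub_C _), natDegree_X_sub_C, hd', he,
        Nat.add_sub_cancel, sum_range_succ, coeff_divByMonic_X_sub_C, hd', ← he, Icc_self,
        sum_singleton, ← hd', hm'.coeff_natDegree, sum_range] at h5
      simp only [h4, Nat.sub_self, pow_zero, one_mul] at h5
      simp only [h, map_neg, neg_mul, sum_neg_distrib]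
      exact eq_neg_of_add_eq_zero_right h5
    · rw [sum_eq_single (⟨l.1, by have := l.2; omega⟩ : Fin d)]
      · simp
      · intro b _ hb
        rw [if_neg fun h => hb (Fin.ext h), map_zero, zero_mul]
      · simp

end Curve

end Pool.Agent.P.MP_b8021b_nt.VC.Step
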