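import Pool.Agent.P.MP_b8021b_nt.VC.StT
import Pool.Agent.P.MP_b8021b_nt.VC.BasicA
import Pool.Agent.P.MP_b8021b_nt.VC.PStep2

/-! Many points modulo a large prime. -/

namespace Pool.Agent.P.MP_b8021b_nt.VC

open Polynomial Finset Pool.Agent.P.MP_b8021b_nt.VE
open scoped Classical

namespace Step

theorem many {P a b : ℤ[X][X]} {e d δ : ℕ} {G D : ℤ[X]} (he : e = d + 1) (hm : P.Monic)
    (hd : P.natDegree = e) (hδ : δ % e = 1)
    (hc : ∀ l, e * (P.coeff l).natDegree ≤ (e - l) * δ) (h00 : P.coeff 0 ≠ 0)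
    (h0 : (P.coeff 0).natDegree = δ) (hH : G * D ≠ 0) (hab : a * P + b * derivative P = C D) :
    ∃ q₀ : ℕ, ∀ q, q₀ ≤ q → q.Prime → q ≤ 2 * ((range q ×ˢ range q).filter fun x : ℕ × ℕ =>
      (q : ℤ) ∣ (P.map (evalRingHom (x.1 : ℤ))).eval (x.2 : ℤ) ∧
        ¬ (q : ℤ) ∣ G.eval (x.1 : ℤ) * D.eval (x.1 : ℤ)).card := by
  obtain ⟨m, hm4⟩ : ∃ m, m = 4 * (e * δ) := ⟨_, rfl⟩
  obtain ⟨ν, hν⟩ := exists_gt (m * d * (e * m * (δ + e * δ) + d * m + (δ + e * δ) + e * δ + 1))
  refine ⟨e * ν + δ * e + e * m + (P.coeff 0).leadingCoeff.natAbs + (G * D).leadingCoeff.natAbs +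
    (ν + 4 * e * (G * D).natDegree + 3), fun q hq hp => ?_⟩
  have := Fact.mk hp
  let K := AlgebraicClosure (ZMod q)
  let f := Int.castRingHom K
  have hz : ∀ z : ℤ, f z = 0 ↔ (q : ℤ) ∣ z := fun z => CharP.intCast_eq_zero_iff K q z
  have hlc : ∀ g : ℤ[X], g ≠ 0 → g.leadingCoeff.natAbs < q → f g.leadingCoeff ≠ 0 :=
    fun g hg h h' => (Nat.le_of_dvd (Int.natAbs_pos.2 (leadingCoeff_ne_zero.2 hg))
      (Int.natCast_dvd.1 ((hz _).1 h'))).not_gt h
  have hev : ∀ (g : ℤ[X]) (n : ℕ), (g.map f).eval (n : K) = f (g.eval (n : ℤ)) := fun g n => by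
    rw [← map_natCast f, eval_map, eval₂_at_apply]
  have hinj := CharP.natCast_injOn_Iio K q
  let T := (range q).filter fun n : ℕ => ¬ (q : ℤ) ∣ G.eval (n : ℤ) * D.eval (n : ℤ)
  have hT : q ≤ T.card + (G * D).natDegree := by
    have h1 := card_filter_add_card_filter_not (s := range q)
      fun n : ℕ => (q : ℤ) ∣ G.eval (n : ℤ) * D.eval (n : ℤ)
    have h2 : (G * D).map f ≠ 0 := fun h => hlc _ hH (by omega) (by
      rw [leadingCoeff, ← coeff_map, h, coeff_zero])
    have h3 := card_le_card_of_injOn (s := (range q).filter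
      fun n : ℕ => (q : ℤ) ∣ G.eval (n : ℤ) * D.eval (n : ℤ)) (t := ((G * D).map f).roots.toFinset)
      Nat.cast (fun n hn => by
        rw [mem_coe, Multiset.mem_toFinset, mem_roots h2, IsRoot, hev, hz, eval_mul]
        exact (mem_filter.1 hn).2) (hinj.mono fun n hn => mem_range.1 (mem_filter.1 hn).1)
    have h4 := (Multiset.toFinset_card_le _).trans
      ((card_roots' ((G * D).map f)).trans natDegree_map_le)
    rw [card_range] at h1
    exact h1.ge.trans ((Nat.add_le_add_right (h3.trans h4) _).trans_eq (add_comm _ _))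
  let Q : ℕ → K[X] := fun n => (P.map (evalRingHom (n : ℤ))).map f
  have hQ : ∀ n : ℕ, (P.map (mapRingHom f)).map (evalRingHom (n : K)) = Q n := fun n => by
    ext l
    simp only [Q, coeff_map, coe_evalRingHom, coe_mapRingHom, hev]
  have hQm : ∀ n, (Q n).Monic := fun n => (hm.map _).map _
  have hsep : ∀ n ∈ T, (Q n).Separable := fun n hn => by
    have h1 := congrArg (fun g => (g.map (evalRingHom (n : ℤ))).map f) hab
    simp only [Polynomial.map_add, Polynomial.map_mul, map_C, ← derivative_map] at h1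
    have h2 : f (evalRingHom (n : ℤ) D) ≠ 0 := fun h =>
      (mem_filter.1 hn).2 (((hz _).1 h).mul_left _)
    refine ⟨C (f (evalRingHom (n : ℤ) D))⁻¹ * (a.map (evalRingHom (n : ℤ))).map f,
      C (f (evalRingHom (n : ℤ) D))⁻¹ * (b.map (evalRingHom (n : ℤ))).map f, ?_⟩
    rw [mul_assoc, mul_assoc, ← mul_add, h1, ← C_mul, inv_mul_cancel₀ h2, C_1]
  let Z := T.sigma fun n => (Q n).roots.toFinset
  have hZ : Z.card = T.card * e := by
    rw [card_sigma, sum_const_nat]
    intro n hn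
    rw [Multiset.toFinset_card_of_nodup (nodup_roots (hsep n hn)),
      IsAlgClosed.card_roots_eq_natDegree, ((hm.map _).natDegree_map f).trans (hm.natDegree_map _),
      hd]
  have hZm : ∀ x ∈ Z, x.1 ∈ T ∧ (Q x.1).eval x.2 = 0 := fun x hx => by
    simpa [Z, (hQm _).ne_zero] using hx
  have h1 := card_filter_add_card_filter_not (s := Z) fun x => x.2 ^ q = x.2
  have h2 : (Z.filter fun x => x.2 ^ q = x.2).card ≤ ((range q ×ˢ range q).filter fun x : ℕ × ℕ =>
      (q : ℤ) ∣ (P.map (evalRingHom (x.1 : ℤ))).eval (x.2 : ℤ) ∧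
        ¬ (q : ℤ) ∣ G.eval (x.1 : ℤ) * D.eval (x.1 : ℤ)).card := by
    refine card_le_card_of_surjOn (fun x => ⟨x.1, (x.2 : K)⟩) ?_
    rintro ⟨n, y⟩ hx
    obtain ⟨h3, h4⟩ := mem_filter.1 hx
    obtain ⟨h5, h6⟩ := hZm _ h3
    have h7 := (Subfield.mem_bot_iff_pow_eq_self K q).2 h4
    rw [← ZMod.fieldRange_castHom_eq_bot q] at h7
    obtain ⟨w, hw⟩ := h7
    rw [← ZMod.natCast_zmod_val w, map_natCast] at hw
    subst hw
    refine ⟨(n, w.val), mem_filter.2 ⟨mem_product.2 ⟨(mem_filter.1 h5).1,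
      mem_range.2 (ZMod.val_lt w)⟩, ?_, (mem_filter.1 h5).2⟩, rfl⟩
    rwa [← hz, ← hev]
  have h3 := curve (P.map (mapRingHom f)) (m := m) (ν := ν) hp he (hm.map _)
    ((hm.natDegree_map _).trans hd) hδ (fun l => by
      rw [coeff_map]
      exact (Nat.mul_le_mul_left _ natDegree_map_le).trans (hc l)) (by
      rw [coeff_map]
      exact (natDegree_map_of_leadingCoeff_ne_zero f (hlc _ h00 (by omega))).trans h0)
    ((Z.filter fun x => ¬ x.2 ^ q = x.2).image fun x => ((x.1 : K), x.2)) (fun y hy => by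
      obtain ⟨x, hx, rfl⟩ := mem_image.1 hy
      obtain ⟨h3, h4⟩ := mem_filter.1 hx
      obtain ⟨h5, h6⟩ := hZm _ h3
      simp only [hQ]
      refine ⟨map_natCast (frobenius K q) _, h4, h6, ?_,
        (hsep _ h5).eval₂_derivative_ne_zero (RingHom.id K) h6⟩
      have h7 := congrArg (frobenius K q) h6
      rw [eval_map, hom_eval₂, map_zero, Subsingleton.elim ((frobenius K q).comp f) f] at h7
      rwa [eval_map]) hν (by omega) (by omega)
  rw [card_image_of_injOn fun x hx y hy h => by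
    obtain ⟨h4, h5⟩ := Prod.mk.inj h
    have h6 := hinj (mem_range.1 (mem_filter.1 (hZm _ (mem_filter.1 hx).1).1).1)
      (mem_range.1 (mem_filter.1 (hZm _ (mem_filter.1 hy).1).1).1) h4
    exact Sigma.ext h6 (heq_of_eq h5)] at h3
  have hδ0 : 0 < e * δ := Nat.mul_pos (by omega) (Nat.pos_of_ne_zero fun h => by simp [h] at hδ)
  have h4 : ν + 4 * e * (G * D).natDegree + 3 ≤ q := by omega
  rw [hZ] at h1
  clear hq hν
  generalize (G * D).natDegree = h at *
  generalize e * δ = c at *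
  by_contra h5
  have a1 := Nat.mul_le_mul_left e hT
  have a2 := Nat.mul_le_mul_left (4 * c) (a1.trans_eq (by rw [mul_add, mul_comm e, ← h1]))
  have a3 := Nat.mul_le_mul_left (4 * c) h2
  have a4 := Nat.mul_le_mul_left (2 * c) (not_le.1 h5).le
  have a5 := Nat.mul_le_mul_left c h4
  have a6 := Nat.le_mul_of_pos_left ν hδ0
  subst he hm4
  nlinarith

end Step

theorem p_step (hC : S_Card) : S_Step := by
  intro R _ _ p
  obtain ⟨a, b, hab⟩ := p.sepX
  have hg := p.good p.τ0 le_rfl (by linarith)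
  obtain ⟨q₀, h⟩ := Step.many (G := p.G) (d := p.e - 1) (Nat.sub_add_cancel p.he.one_le).symm
    (p.cp_monic _) (p.toTab.natDegree_cp _) (p.δmod p.toTab.i1) (fun l => by
      by_cases h : (p.toTab.cp (p.y p.toTab.i1)).coeff l = 0
      · simp [h]
      · rw [Nat.sub_mul]
        exact Nat.le_sub_of_add_le (Tab.cp_natDegree_wle (Tab.y_mem_Lw _) h)) p.P0.1 p.P0.2
    (mul_ne_zero p.monic.ne_zero fun h => hg.1 (by simp [h])) hab
  refine ⟨q₀, fun q hq hp hs => (h q hq hp).trans (le_trans (le_of_eq ?_)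
    ((hC R p q).2.2.2.2 hp hs))⟩
  have e : ∀ n : ℤ, p.toTab.Pt (n, 1) = (p.toTab.cp (p.y p.toTab.i1)).map (evalRingHom n) := by
    intro n
    ext l
    rw [Tab.Pt_eq, Tab.coeff_cpt, hev_one (Tab.natDegree_cp_coeff (p.toTab.y_mem_Lw_κ _) l),
      coeff_map, coe_evalRingHom]
  simp only [e]

end Pool.Agent.P.MP_b8021b_nt.VC
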