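import Pool.Agent.P.MP_b8021b_nt.VC.StT
import Pool.Agent.P.MP_b8021b_nt.VC.StG
import Pool.Agent.P.MP_b8021b_nt.VE.StN

/-! Pointwise bounds for the weighted numbers of completions. -/

namespace Pool.Agent.P.MP_b8021b_nt.VC

open Polynomial NumberField Finset Pool.Agent.P.MP_b8021b_nt.VE
open scoped Classical

namespace Sup

/-- a sum of products of bounded weights over tuples from a small set -/
lemma sum_prod_le {α : Type} {u : ℕ} (T : Finset (Fin u → α)) (S : Finset α) (w : α → ℝ)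
    (m : (Fin u → α) → ℝ) (b M : ℝ) (n : ℕ) (hb : 0 ≤ b) (hM : 0 ≤ M)
    (hw : ∀ v ∈ T, ∀ j, 0 ≤ w (v j) ∧ w (v j) ≤ b) (hm : ∀ v ∈ T, 0 ≤ m v ∧ m v ≤ M)
    (hS : ∀ v ∈ T, m v ≠ 0 → ∀ j, v j ∈ S) (hn : S.card ≤ n) :
    ∑ v ∈ T, (∏ j, w (v j)) * m v ≤ (n : ℝ) ^ u * (b ^ u * M) := by
  rw [← Finset.sum_filter_of_ne (p := fun v => m v ≠ 0)
    (fun v _ h h0 => h (by rw [h0, mul_zero]))]
  have hc : (T.filter fun v => m v ≠ 0).card ≤ n ^ u := by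
    have hsub : (T.filter fun v => m v ≠ 0) ⊆ Fintype.piFinset fun _ : Fin u => S := by
      intro v hv
      obtain ⟨h1, h2⟩ := mem_filter.mp hv
      exact Fintype.mem_piFinset.mpr (hS v h1 h2)
    calc _ ≤ _ := card_le_card hsub
      _ = S.card ^ u := by simp [Fintype.card_piFinset]
      _ ≤ n ^ u := Nat.pow_le_pow_left hn u
  calc ∑ v ∈ T.filter (fun v => m v ≠ 0), (∏ j, w (v j)) * m v
      ≤ ∑ _v ∈ T.filter (fun v => m v ≠ 0), b ^ u * M := by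
        refine sum_le_sum fun v hv => ?_
        have h1 := (mem_filter.mp hv).1
        have h2 : ∏ j, w (v j) ≤ b ^ u := by
          calc ∏ j, w (v j) ≤ ∏ _j : Fin u, b :=
                prod_le_prod (fun j _ => (hw v h1 j).1) (fun j _ => (hw v h1 j).2)
            _ = b ^ u := by simp
        exact mul_le_mul h2 (hm v h1).2 (hm v h1).1 (pow_nonneg hb u)
    _ = ((T.filter fun v => m v ≠ 0).card : ℝ) * (b ^ u * M) := by
        rw [sum_const, nsmul_eq_mul]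
    _ ≤ (n : ℝ) ^ u * (b ^ u * M) := by
        refine mul_le_mul_of_nonneg_right ?_ (by positivity)
        exact_mod_cast hc

/-- equal products of primes have the same factors -/
lemma mem_of_prod_eq {n : ℕ} (q q' : Fin n → ℕ) (hq : ∀ i, (q i).Prime) (hq' : ∀ i, (q' i).Prime)
    (h : ∏ i, q i = ∏ i, q' i) (i : Fin n) : q i ∈ univ.image q' := by
  have h1 : q i ∣ ∏ j, q' j := h ▸ dvd_prod_of_mem q (mem_univ i)
  obtain ⟨j, -, hj⟩ := ((hq i).prime.dvd_finsetProd_iff q').mp h1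
  exact mem_image.mpr ⟨j, mem_univ j, ((Nat.prime_dvd_prime_iff_eq (hq i) (hq' j)).mp hj).symm⟩

section

variable {R : Type} [CommRing R] [Algebra ℤ[X] R]

lemma card_fibs (hCard : S_Card) (p : Par R) (t : ℤ × ℤ) (X : Finset p.Pn) (Q : Finset ℕ) :
    (X.filter fun x => x.1 ∈ Q ∧ p.IsPt x ∧ p.OnT x t).card ≤ 2 * p.e * Q.card := by
  have hsub : (X.filter fun x => x.1 ∈ Q ∧ p.IsPt x ∧ p.OnT x t) ⊆
      Q.biUnion fun q => (Xq p q).filter fun x => p.OnT x t := by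
    intro x hx
    obtain ⟨-, h2, h3, h4⟩ := mem_filter.mp hx
    exact mem_biUnion.mpr ⟨x.1, h2, mem_filter.mpr ⟨mem_Xq.mpr ⟨rfl, h3⟩, h4⟩⟩
  refine (card_le_card hsub).trans (card_biUnion_le.trans ?_)
  calc _ ≤ ∑ _q ∈ Q, 2 * p.e := sum_le_sum fun q _ => (hCard R p q).2.2.1 t
    _ = 2 * p.e * Q.card := by rw [sum_const, smul_eq_mul, mul_comm]

lemma wg_bound (hCard : S_Card) (p : Par R) (c : Cfg) (u : ℕ) (t : ℤ × ℤ) (s : p.Co)
    (x x' : p.Pn) (b : ℝ) (hb : 0 ≤ b)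
    (hw : ∀ q ∈ Pset c.y c.N, 0 ≤ wt p c.y c.N q ∧ wt p c.y c.N q ≤ b) :
    0 ≤ Wg p c u t s x x' ∧ Wg p c u t s x x' ≤ ((2 * p.e * (u + 2) : ℕ) : ℝ) ^ u * b ^ u := by
  have hw' : ∀ v ∈ (Fintype.piFinset fun _ : Fin u => Xset p c.y c.N).filter fun v =>
      p.Good t s (Fin.cons x (Fin.cons x' v) : Fin (u + 2) → p.Pn), ∀ j,
      0 ≤ wt p c.y c.N (v j).1 ∧ wt p c.y c.N (v j).1 ≤ b := fun v hv j =>
    hw _ (mem_Xset.mp (Fintype.mem_piFinset.mp (mem_filter.mp hv).1 j)).1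
  refine ⟨sum_nonneg fun v hv => prod_nonneg fun j _ => (hw' v hv j).1, ?_⟩
  unfold Wg
  rcases ((Fintype.piFinset fun _ : Fin u => Xset p c.y c.N).filter fun v =>
      p.Good t s (Fin.cons x (Fin.cons x' v) : Fin (u + 2) → p.Pn)).eq_empty_or_nonempty with
    h | ⟨v₀, hv₀⟩
  · rw [h, sum_empty]; positivity
  have g₀ := (mem_filter.mp hv₀).2
  have key := sum_prod_le _ ((Xset p c.y c.N).filter fun z => z.1 ∈ univ.image
    (fun i => ((Fin.cons x (Fin.cons x' v₀) : Fin (u + 2) → p.Pn) i).1) ∧ p.IsPt z ∧ p.OnT z t)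
    (fun z => wt p c.y c.N z.1) (fun _ => 1) b 1 (2 * p.e * (u + 2)) hb zero_le_one hw'
    (fun _ _ => ⟨zero_le_one, le_rfl⟩) ?_ ?_
  · simpa using key
  · intro v hv _ j
    obtain ⟨h1, g⟩ := mem_filter.mp hv
    have hr : (p.r : ℤ) ^ p.e0 ≠ 0 := pow_ne_zero _ (by exact_mod_cast p.hr.ne_zero)
    have e1 := mul_left_cancel₀ hr (g.2.2.symm.trans g₀.2.2)
    have e2 : ∏ i, ((Fin.cons x (Fin.cons x' v) : Fin (u + 2) → p.Pn) i).1 =
        ∏ i, ((Fin.cons x (Fin.cons x' v₀) : Fin (u + 2) → p.Pn) i).1 := by exact_mod_cast e1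
    have m1 := mem_of_prod_eq _ _ (fun i => (g.1 i).1.1) (fun i => (g₀.1 i).1.1) e2 j.succ.succ
    have m2 := g.1 j.succ.succ
    simp only [Fin.cons_succ] at m1 m2
    exact mem_filter.mpr ⟨Fintype.mem_piFinset.mp h1 j, m1, m2.1, m2.2.1⟩
  · refine (card_fibs hCard p t _ _).trans (Nat.mul_le_mul_left _ (card_image_le.trans ?_))
    simp

end

lemma wan_bound (hLam : VE.S_Lam) {L : Type} [Field L] [NumberField L] (D : ℕ)
    (hd : Module.finrank ℚ L = D) (ω : ℕ → ℝ) (y : ℝ) (N u : ℕ) (𝔞 : Ideal (𝓞 L)) (α : 𝓞 L) (hα : α ≠ 0) (b : ℝ) (hb : 0 ≤ b)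
    (hw : ∀ q ∈ Pset y N, q.Prime ∧ 0 ≤ ω q ∧ ω q ≤ b) :
    0 ≤ Wan ω y N u 𝔞 α ∧ Wan ω y N u 𝔞 α ≤ (u : ℝ) ^ u * (b ^ u * (2 ^ D) ^ u) := by
  have hw' : ∀ q ∈ Fintype.piFinset fun _ : Fin u => Pset y N, ∀ j,
      (q j).Prime ∧ 0 ≤ ω (q j) ∧ ω (q j) ≤ b := fun q hq j =>
    hw _ (Fintype.mem_piFinset.mp hq j)
  refine ⟨sum_nonneg fun q hq => mul_nonneg (prod_nonneg fun j _ => (hw' q hq j).2.1)
    (Nat.cast_nonneg _), ?_⟩
  unfold Wan
  have hN : ∀ (q : Fin u → ℕ), ((Set.ncard {I : Fin u → Ideal (𝓞 L) |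
      (∀ j, Ideal.absNorm (I j) = q j) ∧ Ideal.span {α} = 𝔞 * ∏ j, I j} : ℕ) : ℝ) ≠ 0 →
      Ideal.absNorm (Ideal.span {α}) = Ideal.absNorm 𝔞 * ∏ j, q j := by
    intro q h
    have h1 : Set.ncard {I : Fin u → Ideal (𝓞 L) |
      (∀ j, Ideal.absNorm (I j) = q j) ∧ Ideal.span {α} = 𝔞 * ∏ j, I j} ≠ 0 := by exact_mod_cast h
    obtain ⟨I, h2, h3⟩ := Set.nonempty_of_ncard_ne_zero h1
    rw [h3, map_mul, map_prod]
    exact congrArg _ (prod_congr rfl fun j _ => h2 j)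
  have h0 : Ideal.absNorm (Ideal.span {α}) ≠ 0 := by
    rw [Ne, Ideal.absNorm_eq_zero_iff, Ideal.span_singleton_eq_bot]
    exact hα
  have hM : ∀ q ∈ Fintype.piFinset fun _ : Fin u => Pset y N,
      ((Set.ncard {I : Fin u → Ideal (𝓞 L) | (∀ j, Ideal.absNorm (I j) = q j) ∧
        Ideal.span {α} = 𝔞 * ∏ j, I j} : ℕ) : ℝ) ≤ (2 ^ D) ^ u := by
    intro q hq
    have hf : ∀ j, {I : Ideal (𝓞 L) | Ideal.absNorm I = q j}.Finite := fun j =>
      Ideal.finite_setOfPred_absNorm_eq (q j)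
    have hsub : {I : Fin u → Ideal (𝓞 L) | (∀ j, Ideal.absNorm (I j) = q j) ∧
        Ideal.span {α} = 𝔞 * ∏ j, I j} ⊆ ↑(Fintype.piFinset fun j => (hf j).toFinset) := by
      intro I hI
      exact mem_coe.mpr (Fintype.mem_piFinset.mpr fun j => (hf j).mem_toFinset.mpr (hI.1 j))
    have h1 := Set.ncard_le_ncard hsub (finite_toSet _)
    rw [Set.ncard_coe_finset, Fintype.card_piFinset] at h1
    have h2 : ∏ j, ((hf j).toFinset).card ≤ ∏ _j : Fin u, 2 ^ D := by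
      refine prod_le_prod' fun j _ => ?_
      have h3 := (hLam L).1 (q j) (hw' q hq j).1.one_le
      rw [Set.ncard_eq_toFinset_card _ (hf j), hd, (hw' q hq j).1.divisors,
        card_pair (hw' q hq j).1.one_lt.ne] at h3
      exact h3
    have h4 := h1.trans h2
    rw [prod_const, card_univ, Fintype.card_fin] at h4
    exact_mod_cast h4
  by_cases hex : ∃ q₀ ∈ Fintype.piFinset fun _ : Fin u => Pset y N,
      ((Set.ncard {I : Fin u → Ideal (𝓞 L) | (∀ j, Ideal.absNorm (I j) = q₀ j) ∧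
        Ideal.span {α} = 𝔞 * ∏ j, I j} : ℕ) : ℝ) ≠ 0
  · obtain ⟨q₀, hq₀, hn₀⟩ := hex
    refine sum_prod_le _ (univ.image q₀) ω _ b ((2 ^ D) ^ u) u hb (by positivity)
      (fun q hq j => (hw' q hq j).2) (fun q hq => ⟨Nat.cast_nonneg _, hM q hq⟩) ?_ ?_
    · intro q hq hn j
      have e0 := hN q₀ hn₀
      have ha : Ideal.absNorm 𝔞 ≠ 0 := fun h => h0 (by rw [e0, h, zero_mul])
      have e1 := mul_left_cancel₀ ha ((hN q hn).symm.trans e0)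
      exact mem_of_prod_eq q q₀ (fun i => (hw' q hq i).1) (fun i => (hw' q₀ hq₀ i).1) e1 j
    · exact card_image_le.trans (by simp)
  · refine sum_prod_le _ ∅ ω _ b ((2 ^ D) ^ u) u hb (by positivity)
      (fun q hq j => (hw' q hq j).2) (fun q hq => ⟨Nat.cast_nonneg _, hM q hq⟩) ?_ (by simp)
    intro q hq hn j
    exact (hex ⟨q, hq, hn⟩).elim

lemma mz_le (N u : ℕ) : (Mz N u : ℝ) ≤ (u + 2) * N / 2 ∧ (u + 2) * N / 2 - 1 ≤ (Mz N u : ℝ) := by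
  unfold Mz
  have h1 : 2 * ((u + 2) * N / 2) ≤ (u + 2) * N := Nat.mul_div_le _ _
  have h2 : (u + 2) * N ≤ 2 * ((u + 2) * N / 2) + 1 := by omega
  have h1' : (2 : ℝ) * (((u + 2) * N / 2 : ℕ) : ℝ) ≤ (u + 2) * N := by exact_mod_cast h1
  have h2' : ((u : ℝ) + 2) * N ≤ 2 * (((u + 2) * N / 2 : ℕ) : ℝ) + 1 := by exact_mod_cast h2
  rw [Int.cast_natCast]
  constructor <;> linarith

/-- the numerical estimate -/
lemma num (u : ℕ) (y N E E₀ ρ H n a a' h c₀ : ℝ) (hy : 0 < y) (hN : 0 < N) (hE0 : 0 ≤ E)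
    (hE : E ≤ E₀) (hρ : 0 ≤ ρ) (hH : ρ ≤ H) (hn : (N / (4 * (u + 2))) ^ (u + 1) ≤ n)
    (ha : y ≤ a) (ha' : y ≤ a') (hc : 0 < c₀) (hh : c₀ ≤ N ^ 2 * h) :
    y ^ (u + 2) * E * ρ / (N * n) / (a * a' * h) ≤
      E₀ * (4 * (u + 2)) ^ (u + 1) / c₀ * H * (y / N) ^ u := by
  have hh0 : c₀ / N ^ 2 ≤ h := by rw [div_le_iff₀ (by positivity)]; linarith
  have hE₀ : 0 ≤ E₀ := hE0.trans hE
  have hH0 : 0 ≤ H := hρ.trans hH
  calc y ^ (u + 2) * E * ρ / (N * n) / (a * a' * h)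
      ≤ y ^ (u + 2) * E₀ * H / (N * (N / (4 * (u + 2))) ^ (u + 1)) /
        (y * y * (c₀ / N ^ 2)) := by
        have hy' : 0 < a := hy.trans_le ha
        have hy'' : 0 < a' := hy.trans_le ha'
        gcongr
    _ = E₀ * (4 * (u + 2)) ^ (u + 1) / c₀ * H * (y / N) ^ u := by
        rw [div_pow, div_pow]
        field_simp
        ring

end Sup

open Sup in
theorem p_sup (hCnt : VE.S_Cnt) (hLam : VE.S_Lam) (hWt : S_Wt) (hFlat : S_Flat) (hCard : S_Card) (hPS : S_PS) (hPSs : S_PSs) : S_Sup := by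
  intro R _ _ p k _ _ _ K hD
  obtain ⟨a, hPS⟩ := hPS k K p.e
  obtain ⟨a', hPSs⟩ := hPSs k K p.e
  refine ⟨a, ?_⟩
  rintro F rfl
  have hu := F.hu
  have hA := F.hA
  obtain ⟨c₀, C₀, hc₀, -, hH⟩ := hCnt.2.2.2.2.2 F.u hu
  obtain ⟨y₁, hT⟩ := hWt R F.p ((4 * F.p.e + 2) * F.A + 1)
  obtain ⟨-, C₁, hC₁, hF⟩ := hFlat R F.p
  obtain ⟨y₂, hF⟩ := hF F rfl
  set K₀ : ℝ := Real.exp ((F.u + 2) / 2) * (4 * (F.u + 2)) ^ (F.u + 1) / c₀ *
    (a * (F.p.cE + 2) ^ a) with hK₀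
  have hK0 : 0 ≤ K₀ := by positivity
  set K₁ : ℝ := ((2 * F.p.e * (F.u + 2) : ℕ) : ℝ) ^ F.u +
    (F.u : ℝ) ^ F.u * (2 ^ (2 * F.p.e)) ^ F.u with hK₁
  have hK1 : 0 ≤ K₁ := by positivity
  refine ⟨1 + K₀ * K₁ * 8 ^ F.u, le_add_of_nonneg_right (by positivity),
    max (max y₁ y₂) (max (M0 F.p.r F.z * F.p.r : ℕ) (Real.exp (12 * (F.u + 2)))), ?_⟩
  intro c hy hin x x' t L _ _ _ Φ hx hx' ht
  have hy1 : y₁ ≤ c.y := (le_max_left _ _).trans ((le_max_left _ _).trans hy)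
  have hy2 : y₂ ≤ c.y := (le_max_right _ _).trans ((le_max_left _ _).trans hy)
  have hy3 : ((M0 F.p.r F.z * F.p.r : ℕ) : ℝ) ≤ c.y :=
    (le_max_left _ _).trans ((le_max_right _ _).trans hy)
  rw [← hin.z] at hy3
  have hy4 : Real.exp (12 * (F.u + 2)) ≤ c.y :=
    (le_max_right _ _).trans ((le_max_right _ _).trans hy)
  have hy0 : 0 < c.y := (Real.exp_pos _).trans_le hy4
  have hl : 12 * ((F.u : ℝ) + 2) ≤ Real.log c.y := (Real.le_log_iff_exp_le hy0).mpr hy4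
  have hu0 : (0 : ℝ) ≤ F.u := Nat.cast_nonneg _
  have hl2 : 2 ≤ Real.log c.y := by linarith
  have hl1 : 1 ≤ Real.log c.y := by linarith
  have hNl : Real.log c.y ≤ c.N :=
    (le_self_pow₀ hl1 (Nat.mul_ne_zero (by omega) (by omega))).trans hin.N_ge
  have hN12 : 12 * (F.u + 2) ≤ c.N := by exact_mod_cast hl.trans hNl
  have hN12' : 12 * ((F.u : ℝ) + 2) ≤ c.N := hl.trans hNl
  have hN0 : (0 : ℝ) < c.N := by linarith
  have hNu : (c.N : ℝ) ≤ Real.log c.y ^ ((4 * F.p.e + 2) * F.A + 1) := by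
    refine hin.N_le.trans ?_
    rw [pow_succ, mul_comm]
    exact mul_le_mul_of_nonneg_left hl2 (by positivity)
  obtain ⟨-, -, hP⟩ := hT c.y hy1 c.N (by omega) hNu
  obtain ⟨-, -, -, hD4⟩ := hF c hy2 hin
  obtain ⟨hsm, -⟩ := hD4 k K t L Φ hD ht
  have hm2 : 2 ≤ M0 F.p.r c.z * F.p.r := by
    have h1 : 1 ≤ M0 F.p.r c.z := Nat.one_le_iff_ne_zero.mpr
      (prod_ne_zero_iff.mpr fun l hl => (mem_filter.mp hl).2.1.ne_zero)
    exact F.p.hr.two_le.trans (Nat.le_mul_of_pos_left _ h1)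
  have hm2' : (2 : ℝ) ≤ (M0 F.p.r c.z * F.p.r : ℕ) := by exact_mod_cast hm2
  have hy5 : 2 ≤ c.y := hm2'.trans hy3
  have hQ : 2 ≤ c.y ^ F.p.cE :=
    hy5.trans (le_self_pow₀ (by linarith) (by unfold Par.cE; omega))
  have hR0 := (hPSs L Φ.fin _ _ hQ hsm hm2).1.le
  have hR1 : Rs L (M0 F.p.r c.z * F.p.r) ≤ a * (F.p.cE + 2) ^ a * Real.log c.y ^ a := by
    refine (hPS L Φ.fin _ _ hQ hsm hm2).1.trans ?_
    have h1 : Real.log (c.y ^ F.p.cE * (M0 F.p.r c.z * F.p.r : ℕ)) ≤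
        (F.p.cE + 1) * Real.log c.y := by
      rw [Real.log_mul (by positivity) (by positivity), Real.log_pow]
      have := Real.log_le_log (by linarith) hy3
      linarith
    have h2 : 0 ≤ Real.log (c.y ^ F.p.cE * (M0 F.p.r c.z * F.p.r : ℕ)) :=
      Real.log_nonneg (by nlinarith)
    rw [mul_assoc, ← mul_pow]
    refine mul_le_mul_of_nonneg_left (pow_le_pow_left₀ (by linarith) (by linarith) _)
      (Nat.cast_nonneg _)
  have hdeg : Module.finrank ℚ L = 2 * F.p.e := by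
    rw [← Module.finrank_mul_finrank ℚ k L, K.deg, Φ.fin]
  obtain ⟨hm1, hm2⟩ := mz_le c.N F.u
  have hcnt := hCnt.2.2.2.1 (F.u + 1) c.N (Mz c.N F.u) hN12 (by
    rw [abs_le]
    push_cast
    constructor <;> nlinarith)
  have hE : Real.exp (Mz c.N F.u / c.N) ≤ Real.exp ((F.u + 2) / 2) := by
    refine Real.exp_le_exp.mpr ?_
    rw [div_le_iff₀ hN0]
    linarith
  obtain ⟨-, hx1, -, hx2, -⟩ := hP _ (mem_Xset.mp hx).1
  obtain ⟨-, hx1', -, hx2', -⟩ := hP _ (mem_Xset.mp hx').1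
  have hHh := ((hH c.N hN12).2.2.2 _ hx2 _ hx2').1
  have hkap : kap' L F.p c F.u x x' ≤ K₀ * Real.log c.y ^ a * (c.y / c.N) ^ F.u := by
    have h1 := num F.u c.y c.N _ _ _ _ (cnt (F.u + 2) c.N (Mz c.N F.u)) x.1 x'.1 _ c₀ hy0 hN0
      (Real.exp_pos _).le hE hR0 hR1 (by
        refine le_trans (le_of_eq ?_) hcnt
        push_cast
        ring) hx1 hx1' hc₀ hHh
    refine le_trans (le_of_eq ?_) (h1.trans (le_of_eq ?_))
    · unfold kap' kap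
      ring
    · rw [hK₀]; ring
  have hkap0 : 0 ≤ kap' L F.p c F.u x x' := by
    have h3 : 0 ≤ Hh c.N F.u (lv c.y c.N x.1) (lv c.y c.N x'.1) := by unfold Hh; positivity
    unfold kap' kap
    positivity
  have hb : 0 ≤ 8 * c.N * Real.log c.y / c.y := by positivity
  have fin : ∀ W : ℝ, 0 ≤ W → W ≤ K₁ * (8 * c.N * Real.log c.y / c.y) ^ F.u →
      kap' L F.p c F.u x x' * W ≤ (1 + K₀ * K₁ * 8 ^ F.u) * Real.log c.y ^ (F.u + a) := by
    intro W hW0 hW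
    calc kap' L F.p c F.u x x' * W ≤ K₀ * Real.log c.y ^ a * (c.y / c.N) ^ F.u *
          (K₁ * (8 * c.N * Real.log c.y / c.y) ^ F.u) :=
          mul_le_mul hkap hW hW0 (by positivity)
      _ = K₀ * K₁ * 8 ^ F.u * Real.log c.y ^ (F.u + a) := by
          rw [div_pow, div_pow, mul_pow, mul_pow]
          field_simp
          ring
      _ ≤ _ := by
          refine mul_le_mul_of_nonneg_right (by linarith) (by positivity)
  refine ⟨hkap0, fun s => ?_, fun 𝔞 α hα => ?_⟩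
  · obtain ⟨h1, h2⟩ := wg_bound hCard F.p c F.u t s x x' _ hb fun q hq =>
      ⟨(hP q hq).2.2.2.2.2.1, (hP q hq).2.2.2.2.2.2.2.1⟩
    refine ⟨h1, fin _ h1 (h2.trans ?_)⟩
    refine mul_le_mul_of_nonneg_right ?_ (by positivity)
    rw [hK₁]
    exact le_add_of_nonneg_right (by positivity)
  · obtain ⟨h1, h2⟩ := wan_bound hLam _ hdeg (wt F.p c.y c.N) c.y c.N F.u 𝔞 α hα _ hb fun q hq =>
      ⟨(hP q hq).1, (hP q hq).2.2.2.2.2.1, (hP q hq).2.2.2.2.2.2.2.1⟩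
    refine ⟨h1, fin _ h1 (h2.trans ?_)⟩
    have h3 : (F.u : ℝ) ^ F.u * (2 ^ (2 * F.p.e)) ^ F.u ≤ K₁ := by
      rw [hK₁]
      exact le_add_of_nonneg_left (by positivity)
    calc (F.u : ℝ) ^ F.u * ((8 * c.N * Real.log c.y / c.y) ^ F.u * (2 ^ (2 * F.p.e)) ^ F.u)
        = (F.u : ℝ) ^ F.u * (2 ^ (2 * F.p.e)) ^ F.u * (8 * c.N * Real.log c.y / c.y) ^ F.u := by
          ring
      _ ≤ _ := mul_le_mul_of_nonneg_right h3 (by positivity)

end Pool.Agent.P.MP_b8021b_nt.VC
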