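import Pool.Agent.P.MP_b8021b_nt.VC.DS1

/-! A character that is trivial at the primes where a non Galois polynomial has a root. -/

namespace Pool.Agent.P.MP_b8021b_nt.VC

open Polynomial NumberField Finset Pool.Agent.P.MP_b8021b_nt.VE
open scoped Classical

namespace TH

open DS

theorem cop_of_norm {E : Type} [Field E] [NumberField E] {n q : ℕ} (hq : q.Coprime n)
    {I : Ideal (𝓞 E)} (hI : Ideal.absNorm I = q) : Cop n I := by
  unfold Cop
  rw [Ideal.isCoprime_iff_exists]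
  obtain ⟨a, b, hab⟩ := Nat.isCoprime_iff_coprime.2 hq
  refine ⟨(a : 𝓞 E) * (q : 𝓞 E), I.mul_mem_left _ (hI ▸ Ideal.absNorm_mem I),
    (b : 𝓞 E) * (n : 𝓞 E), Ideal.mul_mem_left _ _ (Ideal.mem_span_singleton_self _), ?_⟩
  exact_mod_cast congrArg (Int.cast : ℤ → 𝓞 E) hab

theorem lam_triv {E : Type} [Field E] [NumberField E] {n q : ℕ} (hq : q.Coprime n) :
    lam (triv E n) q = (idl E q).card := by
  rw [lam_eq, Finset.card_eq_sum_ones]
  push_cast
  exact Finset.sum_congr rfl fun I hI => by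
    rw [triv_apply, if_pos (cop_of_norm hq (mem_idl.1 hI))]

theorem card_idl (hK : S_KD) (E E' : Type) [Field E] [NumberField E] [Field E'] [NumberField E']
    [Algebra E E'] {q : ℕ} (hq : q.Prime) :
    (idl E' q).card = ∑ 𝔭 ∈ idl E q, (Over E' q 𝔭).ncard := by
  have h := (hK E E' q hq).1 fun _ => 1
  rw [lam_eq, finsum_idl] at h
  simp only [Finset.sum_const, nsmul_eq_mul, mul_one] at h
  exact_mod_cast h

theorem adjoin_top {E E₁ : Type} [Field E] [Field E₁] [Algebra E E₁] [FiniteDimensional E E₁]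
    {P : ℤ[X]} (hP : P.Monic) (hi : Irreducible (P.map (Int.castRingHom E))) {θ : E₁}
    (hθ : aeval θ P = 0) (hf : Module.finrank E E₁ = P.natDegree) : Algebra.adjoin E {θ} = ⊤ := by
  have h1 : aeval θ (P.map (Int.castRingHom E)) = 0 := by
    rw [show Int.castRingHom E = algebraMap ℤ E from rfl, aeval_map_algebraMap]
    exact hθ
  have h2 := minpoly.eq_of_irreducible_of_monic hi h1 (hP.map _)
  have h3 : IntermediateField.adjoin E {θ} = ⊤ := by
    rw [Field.primitive_element_iff_minpoly_natDegree_eq, ← h2, hP.natDegree_map, hf]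
  rw [← IntermediateField.adjoin_simple_toSubalgebra_of_isAlgebraic
    (Algebra.IsAlgebraic.isAlgebraic θ), h3]
  rfl

/-- a second root generates a proper extension -/
theorem exists_ext (E₁ : Type) [Field E₁] [NumberField E₁] {P : ℤ[X]}
    (h : ¬ (P.map (Int.castRingHom E₁)).Splits) :
    ∃ (E₂ : Type) (_ : Field E₂) (_ : NumberField E₂) (_ : Algebra E₁ E₂) (θ : E₂),
      aeval θ P = 0 ∧ Algebra.adjoin E₁ {θ} = ⊤ ∧ 2 ≤ Module.finrank E₁ E₂ := by
  rw [splits_iff_splits] at h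
  push Not at h
  obtain ⟨-, g, hg, hd, hdeg⟩ := h
  have : Fact (Irreducible g) := ⟨hg⟩
  have hfin : Module.Finite E₁ (AdjoinRoot g) := (AdjoinRoot.powerBasis hg.ne_zero).finite
  refine ⟨AdjoinRoot g, inferInstance, NumberField.of_module_finite E₁ _, inferInstance,
    AdjoinRoot.root g, ?_, AdjoinRoot.adjoinRoot_eq_top, ?_⟩
  · obtain ⟨c, hc⟩ := hd
    rw [← aeval_map_algebraMap E₁, show algebraMap ℤ E₁ = Int.castRingHom E₁ from rfl, hc, map_mul,
      AdjoinRoot.aeval_eq, AdjoinRoot.mk_self, zero_mul]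
  · rw [(AdjoinRoot.powerBasis hg.ne_zero).finrank, AdjoinRoot.powerBasis_dim]
    have h1 := hg.natDegree_pos
    have h2 : g.natDegree ≠ 1 := fun h => hdeg (by rw [degree_eq_natDegree hg.ne_zero, h]; rfl)
    omega

theorem geom_re {ζ : ℂ} {e : ℕ} (h : ζ ^ e = 1) : 0 ≤ (∑ j ∈ range e, ζ ^ j).re := by
  by_cases h1 : ζ = 1
  · simp [h1]
  · rw [geom_sum_eq h1, h]
    simp

theorem arith {e a ρ S T1 T2 : ℝ} (he : 1 ≤ e) (ha : 0 ≤ a) (hS0 : 0 ≤ S) (hT2 : 0 ≤ T2)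
    (hT1 : T1 = a * ρ) (h : a * ρ = 0 ∨ (S = a * e ∧ (ρ ≤ e - 1 ∨ (ρ = e ∧ 2 * T1 ≤ T2)))) :
    0 ≤ 2 * (e - 1) * S + (T2 + 2 * e * -T1) := by
  rcases h with h | ⟨h, h' | ⟨h', h''⟩⟩
  · rw [hT1, h]
    nlinarith [mul_nonneg (sub_nonneg.2 he) hS0]
  · rw [hT1, h]
    nlinarith [mul_le_mul_of_nonneg_left h' (mul_nonneg ha (by linarith : (0 : ℝ) ≤ e))]
  · rw [h'] at hT1
    rw [h]
    nlinarith

end TH

open TH DS in
theorem p_tH (hD : S_Den) (hT : S_Triv) (hK : S_KD) (hB : S_BCN) (hL : VE.S_Lam) : S_TH := by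
  intro k _ _ _ K E E₁ _ _ _ _ _ _ P M n m θ κ τ ω hP he hM hsep hirr hθ hfin hns hn hm hω hyp
  by_contra hnt
  let _ : Algebra k E₁ := ((algebraMap E E₁).comp (algebraMap k E)).toAlgebra
  have : IsScalarTower k E E₁ := IsScalarTower.of_algebraMap_eq fun _ => rfl
  have hadj := adjoin_top hP hirr hθ hfin
  obtain ⟨E₂, _, _, _, θ₂, hθ₂, hadj₂, hf₂⟩ := exists_ext E₁ hns
  let _ : Algebra k E₂ := ((algebraMap E₁ E₂).comp (algebraMap k E₁)).toAlgebra
  set e := P.natDegree with hedef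
  obtain ⟨-, -, -, hmul, -, -, hnrm⟩ := hB.2 k K E n κ τ ω hn hω
  have hov : ∀ q : ℕ, q.Prime → ¬ q ∣ M → ∀ 𝔭 ∈ idl E q,
      (Over E₁ q 𝔭).ncard = rts P q ∧ rts P q ≤ e := by
    intro q hq hqM 𝔭 h𝔭
    obtain ⟨-, h2, h3⟩ := (hK E E₁ q hq).2 𝔭 (mem_idl.1 h𝔭)
    have h4 := (h3 P M θ hP hsep hqM hθ hadj).1 hirr
    exact ⟨h4, by rw [← h4, ← hfin]; exact h2⟩
  have htriv : IsTriv n (nrm E₁ ω) := by
    refine hT k K E₁ n (m * M) _ _ _ hn (mul_ne_zero hm hM) (hnrm E₁) fun I hI hd => ?_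
    have e1 : Ideal.absNorm (Ideal.relNorm (𝓞 E) I) = Ideal.absNorm I :=
      Ideal.absNorm_relNorm _ _ I
    show ω (Ideal.relNorm (𝓞 E) I) = 1
    refine hyp _ (e1 ▸ hI) (by rw [e1]; exact fun h => hd (h.mul_right _)) ?_
    rw [e1, ← (hov _ hI (fun h => hd (h.mul_left _)) _ (mem_idl.2 e1)).1,
      Set.ncard_pos ((hK E E₁ _ hI).2 _ e1).1]
    exact ⟨I, rfl, rfl⟩
  have hpow : ∀ I, Cop n I → ω I ^ e = 1 := by
    intro I hI
    have h1 : Cop n (I.map (algebraMap (𝓞 E) (𝓞 E₁))) := by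
      have := IsCoprime.map hI (Ideal.mapHom (algebraMap (𝓞 E) (𝓞 E₁)))
      simpa [Cop, Ideal.map_span] using this
    have h2 := htriv _ h1
    have h3 : Module.finrank (𝓞 E) (𝓞 E₁) = e := by
      rw [← hfin]
      exact (IsFractionRing.finrank_eq (𝓞 E) E (𝓞 E₁) E₁).symm
    change ω (Ideal.relNorm (𝓞 E) _) = 1 at h2
    rwa [Ideal.relNorm_algebraMap, h3, map_pow] at h2
  have hH : ∀ j : ℕ, ∃ κ' τ', IsH k n κ' τ' (ω ^ (j + 1)) := by
    intro j
    induction j with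
    | zero => exact ⟨κ, τ, by simpa using hω⟩
    | succ j ih =>
      obtain ⟨κ', τ', h⟩ := ih
      exact ⟨_, _, by rw [pow_succ']; exact (hmul n κ' τ' _ (by omega) h).2 rfl⟩
  have hup : ∀ j ∈ range (e - 1), Up (fun q => (lam (ω ^ (j + 1) : Ideal (𝓞 E) →* ℂ) q).re) 0 := by
    intro j hj
    obtain ⟨κ', τ', h⟩ := hH j
    refine up_char hD hL K hn h fun ht => hnt fun I hI => ?_
    have h1 : ω I ^ (j + 1) = 1 := by simpa using ht I hI
    have h2 : (j + 1).Coprime e := by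
      refine (Nat.coprime_of_lt_prime (by omega) ?_ he).symm
      have := mem_range.1 hj
      omega
    have := pow_gcd_eq_one.2 ⟨h1, hpow I hI⟩
    rwa [h2, pow_one] at this
  have he1 : (1 : ℝ) ≤ e := by exact_mod_cast he.one_lt.le
  have U := (((up_triv (E := E) hD hL K hn).add (up_sum _ hup)).mul
    (c := 2 * ((e : ℝ) - 1)) (by linarith)).add ((up_triv (E := E₂) hD hL K hn).add
      ((up_neg_triv (E := E₁) hD hL K hn).mul (c := 2 * (e : ℝ)) (by linarith)))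
  have key := U.nonneg (m := n * (m * M)) (mul_ne_zero (by omega) (mul_ne_zero hm hM)) ?_
  · simp only [Finset.sum_const_zero] at key
    linarith
  intro q hq hd
  have hqn : q.Coprime n := (Nat.Prime.coprime_iff_not_dvd hq).2 fun h => hd (h.mul_right _)
  have hqm : ¬ q ∣ m := fun h => hd ((h.mul_right _).mul_left _)
  have hqM : ¬ q ∣ M := fun h => hd ((h.mul_left _).mul_left _)
  have hS : (lam (triv E n) q).re +
      ∑ j ∈ range (e - 1), (lam (ω ^ (j + 1) : Ideal (𝓞 E) →* ℂ) q).re =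
      ∑ 𝔭 ∈ idl E q, (∑ j ∈ range e, ω 𝔭 ^ j).re := by
    obtain ⟨e', he'⟩ : ∃ e', e = e' + 1 := ⟨e - 1, by have := he.one_lt; omega⟩
    rw [lam_triv hqn, he', Nat.add_sub_cancel]
    simp only [lam_eq, Finset.sum_range_succ', Complex.re_sum, Complex.add_re,
      Finset.sum_add_distrib, MonoidHom.pow_apply]
    rw [Finset.sum_comm, add_comm]
    simp
  have hT1 : (idl E₁ q).card = (idl E q).card * rts P q := by
    rw [card_idl hK E E₁ hq, Finset.sum_congr rfl fun 𝔭 h => (hov q hq hqM 𝔭 h).1]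
    simp
  rw [hS, lam_triv hqn, lam_triv hqn]
  simp only [Complex.natCast_re]
  refine arith (a := (idl E q).card) (ρ := rts P q) he1 (by positivity)
    (Finset.sum_nonneg fun 𝔭 h => geom_re (hpow _ (cop_of_norm hqn (mem_idl.1 h))))
    (by positivity) (by exact_mod_cast hT1) ?_
  rcases (idl E q).eq_empty_or_nonempty with h0 | ⟨𝔭₀, h0⟩
  · left; simp [h0]
  rcases Nat.eq_zero_or_pos (rts P q) with h1 | h1
  · left; simp [h1]
  right
  refine ⟨?_, ?_⟩
  · rw [Finset.sum_congr rfl (g := fun _ => (e : ℝ)) fun 𝔭 h => ?_]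
    · simp
    · have h2 := mem_idl.1 h
      rw [hyp 𝔭 (h2 ▸ hq) (h2 ▸ hqm) (h2 ▸ h1)]
      simp
  · rcases (hov q hq hqM 𝔭₀ h0).2.lt_or_eq with h2 | h2
    · left
      have : (rts P q : ℝ) + 1 ≤ e := by exact_mod_cast h2
      linarith
    · right
      refine ⟨by exact_mod_cast h2, ?_⟩
      have h3 : 2 * (idl E₁ q).card ≤ (idl E₂ q).card := by
        rw [card_idl hK E₁ E₂ hq, mul_comm, ← smul_eq_mul]
        refine Finset.card_nsmul_le_sum _ _ _ fun 𝔓 h => ?_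
        rw [(((hK E₁ E₂ q hq).2 𝔓 (mem_idl.1 h)).2.2 P M θ₂ hP hsep hqM hθ₂ hadj₂).2 h2]
        exact hf₂
      exact_mod_cast h3

end Pool.Agent.P.MP_b8021b_nt.VC
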