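import Pool.Agent.P.MP_b8021b_nt.VC.DS1

/-! A character that is trivial where one of two independent polynomials has a root. -/

namespace Pool.Agent.P.MP_b8021b_nt.VC

open Polynomial NumberField Finset Pool.Agent.P.MP_b8021b_nt.VE
open scoped Classical

namespace PTH2

open DS

theorem root_field (E : Type) [Field E] [NumberField E] {P : ℤ[X]} (hP : P.Monic)
    (hi : Irreducible (P.map (Int.castRingHom E))) :
    ∃ (E₁ : Type) (_ : Field E₁) (_ : NumberField E₁) (_ : Algebra E E₁) (θ : E₁),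
      aeval θ P = 0 ∧ Algebra.adjoin E {θ} = ⊤ ∧ Module.finrank E E₁ = P.natDegree := by
  have : Fact (Irreducible (P.map (Int.castRingHom E))) := ⟨hi⟩
  have : Module.Finite E (AdjoinRoot (P.map (Int.castRingHom E))) :=
    (AdjoinRoot.powerBasis hi.ne_zero).finite
  refine ⟨AdjoinRoot (P.map (Int.castRingHom E)), inferInstance,
    NumberField.of_module_finite E _, inferInstance, AdjoinRoot.root _, ?_,
    AdjoinRoot.adjoinRoot_eq_top, ?_⟩
  · have h := AdjoinRoot.eval₂_root (P.map (Int.castRingHom E))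
    rw [eval₂_map] at h
    rw [aeval_def, ← h]
    exact congrArg (fun f => eval₂ f _ P) (Subsingleton.elim _ _)
  · rw [(AdjoinRoot.powerBasis hi.ne_zero).finrank, AdjoinRoot.powerBasis_dim, hP.natDegree_map]

variable {E : Type} [Field E] [NumberField E]

theorem cop_of_norm {n : ℕ} {I : Ideal (𝓞 E)} (h : (Ideal.absNorm I).Coprime n) : Cop n I := by
  obtain ⟨a, b, hab⟩ := Nat.isCoprime_iff_coprime.2 h
  refine Ideal.isCoprime_iff_exists.2 ⟨(a : 𝓞 E) * (Ideal.absNorm I : ℕ),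
    I.mul_mem_left _ (Ideal.absNorm_mem I), (b : 𝓞 E) * n,
    Ideal.mul_mem_left _ _ (Ideal.mem_span_singleton_self _), ?_⟩
  exact_mod_cast congrArg (Int.cast : ℤ → 𝓞 E) hab

theorem lam_triv {n q : ℕ} (hq : q.Prime) (hn : ¬ q ∣ n) :
    lam (triv E n) q = ((idl E q).card : ℂ) := by
  rw [lam_eq, card_eq_sum_ones, Nat.cast_sum]
  refine sum_congr rfl fun I hI => ?_
  rw [triv_apply, if_pos (cop_of_norm (by
    rw [mem_idl.1 hI]; exact (Nat.Prime.coprime_iff_not_dvd hq).2 hn)), Nat.cast_one]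

theorem card_ext (hKD : S_KD) {E' : Type} [Field E'] [NumberField E'] [Algebra E E'] {q : ℕ}
    (hq : q.Prime) {P : ℤ[X]} {M : ℕ} {θ : E'} (hP : P.Monic) (hs : Sep P M) (hM : ¬ q ∣ M)
    (h0 : aeval θ P = 0) (ha : Algebra.adjoin E {θ} = ⊤)
    (hi : Irreducible (P.map (Int.castRingHom E))) :
    (idl E' q).card = rts P q * (idl E q).card := by
  obtain ⟨h1, h2⟩ := hKD E E' q hq
  have h3 := h1 fun _ => 1
  rw [lam_eq, finsum_idl, sum_congr (s₁ := idl E q) rfl fun 𝔭 h𝔭 => by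
    rw [((h2 𝔭 (mem_idl.1 h𝔭)).2.2 P M θ hP hs hM h0 ha).1 hi]] at h3
  simp only [sum_const, nsmul_eq_mul, mul_one] at h3
  exact_mod_cast h3.trans (mul_comm _ _)

theorem isH_pow {k : Type} [Field k] [NumberField k] [Algebra k ℂ] (K : BF k) [Algebra k E]
    (hB : S_BCN) {n : ℕ} {κ : Emb k E → ℤ} {τ : Emb k E → ℝ} {ω : Ideal (𝓞 E) →* ℂ}
    (hn : 2 ≤ n) (hω : IsH k n κ τ ω) (j : ℕ) : ∃ κ' τ', IsH k n κ' τ' (ω ^ (j + 1)) := by
  induction j with
  | zero => exact ⟨κ, τ, by simpa using hω⟩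
  | succ j ih =>
    obtain ⟨κ', τ', h⟩ := ih
    refine ⟨κ + κ', τ + τ', ?_⟩
    rw [pow_succ']
    exact ((hB.2 k K E n κ τ ω hn hω).2.2.2.1 n κ' τ' _ (by omega) h).2 rfl

end PTH2

open DS PTH2 in
theorem p_tH2 (hDen : S_Den) (hTriv : S_Triv) (hKD : S_KD) (hBCN : S_BCN) (hLam : VE.S_Lam) : S_TH2 := by
  intro k _ _ _ K E _ _ _ P₁ P₂ M n m κ τ ω m1 m2 he hd hM s1 s2 i1 i2 hn hm hω h1
  by_contra hT
  obtain ⟨E₁, _, _, _, θ₁, r1, a1, f1⟩ := root_field E m1 i1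
  have i21 := i2 E₁ θ₁ r1 a1
  have i2' : Irreducible (P₂.map (Int.castRingHom E)) := by
    refine (m2.map _).irreducible_of_irreducible_map (algebraMap E E₁) _ ?_
    rwa [Polynomial.map_map, Subsingleton.elim ((algebraMap E E₁).comp _) (Int.castRingHom E₁)]
  obtain ⟨E₂, _, _, _, θ₂, r2, a2, f2⟩ := root_field E m2 i2'
  obtain ⟨E₃, _, _, _, θ₃, r3, a3, -⟩ := root_field E₁ m2 i21
  let _ : Algebra k E₁ := ((algebraMap E E₁).comp (algebraMap k E)).toAlgebra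
  have : IsScalarTower k E E₁ := IsScalarTower.of_algebraMap_eq fun _ => rfl
  let _ : Algebra k E₂ := ((algebraMap E E₂).comp (algebraMap k E)).toAlgebra
  let _ : Algebra k E₃ := ((algebraMap E₁ E₃).comp (algebraMap k E₁)).toAlgebra
  set e := P₁.natDegree with hE
  have hN : IsTriv n (nrm E₁ ω) := by
    refine hTriv k K E₁ n (m * M) _ _ _ hn (mul_ne_zero hm hM)
      ((hBCN.2 k K E n κ τ ω hn hω).2.2.2.2.2.2 E₁) fun I hI hIm => ?_
    have hq : Ideal.absNorm (Ideal.relNorm (𝓞 E) I) = Ideal.absNorm I := Ideal.absNorm_relNorm _ _ I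
    obtain ⟨h2, -, h3⟩ := (hKD E E₁ _ hI).2 _ hq
    have h4 := (h3 P₁ M θ₁ m1 s1 (fun h => hIm (h.mul_left _)) r1 a1).1 i1
    refine h1 (Ideal.relNorm (𝓞 E) I) (hq ▸ hI) (hq ▸ fun h => hIm (h.mul_right _)) (Or.inl ?_)
    rw [hq, ← h4]
    exact (Set.ncard_pos h2).2 ⟨I, rfl, rfl⟩
  have hpow : ∀ I, Cop n I → ω I ^ e = 1 := fun I hI => by
    have h2 := hN (I.map (algebraMap (𝓞 E) (𝓞 E₁))) (by
      have := IsCoprime.map hI (Ideal.mapHom (algebraMap (𝓞 E) (𝓞 E₁)))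
      rwa [Ideal.mapHom_apply, Ideal.mapHom_apply, Ideal.map_span, Set.image_singleton,
        map_natCast] at this)
    rw [← f1, IsFractionRing.finrank_eq (𝓞 E) E (𝓞 E₁) E₁, ← map_pow, ← Ideal.relNorm_algebraMap]
    exact h2
  have hup : ∀ j ∈ range (e - 1), Up (fun q => (lam (ω ^ (j + 1)) q).re) 0 := fun j hj => by
    obtain ⟨κ', τ', h⟩ := isH_pow K hBCN hn hω j
    refine up_char hDen hLam K hn h fun ht => hT fun I hI => ?_
    have h2 : ω I ^ (j + 1) = 1 := ht I hI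
    have h3 := pow_gcd_eq_one.2 ⟨h2, hpow I hI⟩
    have h4 : (j + 1).Coprime e :=
      (Nat.coprime_of_lt_prime (by omega) (by have := mem_range.1 hj; omega) he).symm
    rwa [h4, pow_one] at h3
  have U := (((((up_sum _ hup).add (up_triv (E := E) hDen hLam K hn)).add
    (up_neg_triv (E := E₁) hDen hLam K hn)).add (up_neg_triv (E := E₂) hDen hLam K hn)).mul
    (Nat.cast_nonneg e : (0 : ℝ) ≤ e)).add (up_triv (E := E₃) hDen hLam K hn)
  have h0 := U.nonneg (mul_ne_zero (mul_ne_zero hm hM) (by omega : n ≠ 0)) fun q hq hqd => ?_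
  · have : (2 : ℝ) ≤ e := by exact_mod_cast he.two_le
    simp only [sum_const_zero] at h0
    linarith
  have qm : ¬ q ∣ m := fun h => hqd ((h.mul_right _).mul_right _)
  have qM : ¬ q ∣ M := fun h => hqd ((h.mul_left _).mul_right _)
  have qn : ¬ q ∣ n := fun h => hqd (h.mul_left _)
  have c1 := card_ext hKD hq m1 s1 qM r1 a1 i1
  have c2 := card_ext hKD hq m2 s2 qM r2 a2 i2'
  have c3 := card_ext hKD hq m2 s2 qM r3 a3 i21
  have key : ∀ 𝔭 ∈ idl E q, (0 : ℝ) ≤ e * ((∑ j ∈ range (e - 1), ω 𝔭 ^ (j + 1)).re + 1 -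
      rts P₁ q - rts P₂ q) + rts P₂ q * rts P₁ q := fun 𝔭 h𝔭 => by
    have hN := mem_idl.1 h𝔭
    by_cases h : ω 𝔭 = 1
    · have b1 : (rts P₁ q : ℝ) ≤ e := by
        obtain ⟨-, h2, h3⟩ := (hKD E E₁ q hq).2 𝔭 hN
        rw [(h3 P₁ M θ₁ m1 s1 qM r1 a1).1 i1, f1] at h2
        exact_mod_cast h2
      have b2 : (rts P₂ q : ℝ) ≤ e := by
        obtain ⟨-, h2, h3⟩ := (hKD E E₂ q hq).2 𝔭 hN
        rw [(h3 P₂ M θ₂ m2 s2 qM r2 a2).1 i2', f2, hd] at h2
        exact_mod_cast h2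
      simp only [h, one_pow, sum_const, card_range, nsmul_eq_mul, mul_one, Complex.natCast_re]
      rw [Nat.cast_sub he.one_le, Nat.cast_one]
      nlinarith [mul_nonneg (sub_nonneg.2 b1) (sub_nonneg.2 b2)]
    · have z1 : rts P₁ q = 0 := by
        by_contra hz
        exact h (h1 𝔭 (hN ▸ hq) (hN ▸ qm) (Or.inl (hN ▸ Nat.pos_of_ne_zero hz)))
      have z2 : rts P₂ q = 0 := by
        by_contra hz
        exact h (h1 𝔭 (hN ▸ hq) (hN ▸ qm) (Or.inr (hN ▸ Nat.pos_of_ne_zero hz)))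
      have h2 := hpow 𝔭 (cop_of_norm (by rw [hN]; exact (Nat.Prime.coprime_iff_not_dvd hq).2 qn))
      have h3 : ∑ j ∈ range (e - 1), ω 𝔭 ^ (j + 1) = -1 := by
        have h4 := mul_geom_sum (ω 𝔭) e
        rw [h2, sub_self, mul_eq_zero, or_iff_right (sub_ne_zero.2 h)] at h4
        obtain ⟨d, hd⟩ : ∃ d, e = d + 1 := ⟨e - 1, by have := he.one_le; omega⟩
        rw [hd, sum_range_succ', pow_zero] at h4
        rw [hd, Nat.add_sub_cancel]
        exact eq_neg_of_add_eq_zero_left h4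
      simp [h3, z1, z2]
  have h5 := sum_nonneg key
  simp only [lam_triv hq qn, c3, c1, c2, Complex.natCast_re]
  have h6 : ∑ j ∈ range (e - 1), (lam (ω ^ (j + 1)) q).re =
      ∑ 𝔭 ∈ idl E q, (∑ j ∈ range (e - 1), ω 𝔭 ^ (j + 1)).re := by
    simp only [lam_eq, Complex.re_sum, MonoidHom.pow_apply]
    exact sum_comm
  rw [h6]
  simp only [sum_add_distrib, sum_sub_distrib, ← mul_sum, sum_const, nsmul_eq_mul] at h5
  push_cast
  linarith

end Pool.Agent.P.MP_b8021b_nt.VC
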