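import Pool.Agent.P.MP_b8021b_nt.VC.DefN

/-! Ideals of squarefree norm as kernels, and extension of homomorphisms along a simple
extension of number fields. -/

namespace Pool.Agent.P.MP_b8021b_nt.VC

open Polynomial NumberField Finset Pool.Agent.P.MP_b8021b_nt.VE
open scoped Classical ComplexConjugate

namespace TP

section one

variable {L : Type} [Field L] [NumberField L]

lemma norm_ker {m : ℕ} (f : 𝓞 L →+* ZMod m) : Ideal.absNorm (RingHom.ker f) = m := by
  rw [Ideal.absNorm_apply, Submodule.cardQuot_apply,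
    Nat.card_congr (RingHom.quotientKerEquivOfSurjective (ZMod.ringHom_surjective f)).toEquiv,
    Nat.card_zmod]

lemma exists_ker {m : ℕ} (hm : Squarefree m) (I : Ideal (𝓞 L)) (hI : Ideal.absNorm I = m) :
    ∃ f : 𝓞 L →+* ZMod m, RingHom.ker f = I := by
  have hm0 : m ≠ 0 := hm.ne_zero
  have hc : Nat.card (𝓞 L ⧸ I) = m := by
    rw [← hI, Ideal.absNorm_apply, Submodule.cardQuot_apply]
  have : Finite (𝓞 L ⧸ I) := Nat.finite_of_card_ne_zero (hc ▸ hm0)
  let : Fintype (𝓞 L ⧸ I) := Fintype.ofFinite _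
  have hc' : Fintype.card (𝓞 L ⧸ I) = m := by rw [← hc, Nat.card_eq_fintype_card]
  have h1 : ringChar (𝓞 L ⧸ I) ∣ m := by
    rw [← ringChar.spec, ← hc']
    exact Nat.cast_card_eq_zero _
  have h2 : m ∣ ringChar (𝓞 L ⧸ I) := by
    rw [← Nat.prod_primeFactors_of_squarefree hm]
    refine Finset.prod_primes_dvd _ (fun p hp => (Nat.prime_of_mem_primeFactors hp).prime) ?_
    intro p hp
    have := Fact.mk (Nat.prime_of_mem_primeFactors hp)
    rw [prime_dvd_char_iff_dvd_card, hc']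
    exact Nat.dvd_of_mem_primeFactors hp
  have : CharP (𝓞 L ⧸ I) m := ringChar.of_eq (Nat.dvd_antisymm h1 h2)
  let e := ZMod.ringEquiv (𝓞 L ⧸ I) hc'
  refine ⟨e.symm.toRingHom.comp (Ideal.Quotient.mk I), ?_⟩
  ext x
  simp [RingHom.mem_ker, Ideal.Quotient.eq_zero_iff_mem]

lemma eq_of_le_of_norm {I J : Ideal (𝓞 L)} (h : I ≤ J) (h1 : Ideal.absNorm I = Ideal.absNorm J)
    (h0 : Ideal.absNorm J ≠ 0) : I = J := by
  obtain ⟨C, rfl⟩ := Ideal.dvd_iff_le.mpr h
  rw [map_mul] at h1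
  have : Ideal.absNorm C = 1 := by
    have h2 : Ideal.absNorm J * Ideal.absNorm C = Ideal.absNorm J * 1 := by rw [h1, mul_one]
    exact Nat.eq_of_mul_eq_mul_left (Nat.pos_of_ne_zero h0) h2
  rw [Ideal.absNorm_eq_one_iff.mp this, Ideal.mul_top]

lemma lam_eq (χ : Ideal (𝓞 L) → ℂ) (m : ℕ) :
    lam χ m = ∑ I ∈ (Ideal.finite_setOfPred_absNorm_eq (S := 𝓞 L) m).toFinset, χ I :=
  finsum_mem_eq_finite_toFinset_sum _ _

end one

lemma unit_of {m n M : ℕ} (hM : M ∣ n) (h : m.Coprime n) : ∃ u : ZMod m, u * M = 1 :=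
  ((ZMod.isUnit_iff_coprime M m).mpr (h.symm.coprime_dvd_left hM)).exists_left_inv

variable {E E' : Type} [Field E] [NumberField E] [Field E'] [NumberField E'] [Algebra E E']

lemma relNorm_ker {m : ℕ} (hm : m ≠ 0) (g : 𝓞 E' →+* ZMod m) :
    Ideal.relNorm (𝓞 E) (RingHom.ker g) = RingHom.ker (g.comp (algebraMap (𝓞 E) (𝓞 E'))) := by
  apply eq_of_le_of_norm
  · rw [← RingHom.comap_ker]
    exact Ideal.relNorm_le_comap (𝓞 E) _
  · rw [Ideal.absNorm_relNorm, norm_ker, norm_ker]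
  · rw [norm_ker]; exact hm

lemma lamk_eq (χ : Ideal (𝓞 E') → ℂ) {m : ℕ} {𝔪 : Ideal (𝓞 E)} (h : Ideal.absNorm 𝔪 = m) :
    lamk E χ 𝔪 = ∑ I ∈ (Ideal.finite_setOfPred_absNorm_eq (S := 𝓞 E') m).toFinset with
      Ideal.relNorm (𝓞 E) I = 𝔪, χ I := by
  unfold lamk
  rw [← finsum_mem_coe_finset]
  refine finsum_mem_congr (Set.ext fun I => ?_) fun _ _ => rfl
  simp only [Set.mem_ofPred_eq, Finset.coe_filter, Set.Finite.mem_toFinset]
  exact ⟨fun h1 => ⟨by rw [← h, ← h1, Ideal.absNorm_relNorm], h1⟩, fun h1 => h1.2⟩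

/-- `θ` generates `E'` over `E` and has the minimal polynomial `P` -/
structure Gn (E : Type) {E' : Type} [Field E] [Field E'] [Algebra E E'] (P : ℤ[X]) (M : ℕ)
    (θ : 𝓞 E') : Prop where
  monic : P.Monic
  root : aeval θ P = 0
  irr : Irreducible (P.map (Int.castRingHom E))
  sep : Sep P M
  top : Algebra.adjoin E {(θ : E')} = ⊤

variable {P : ℤ[X]} {M : ℕ} {θ : 𝓞 E'}

omit [NumberField E] [NumberField E'] in
lemma root_coe (h : aeval θ P = 0) : aeval (θ : E') P = 0 := by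
  rw [RingOfIntegers.coe_eq_algebraMap, aeval_algebraMap_apply, h, map_zero]

omit [NumberField E] [NumberField E'] in
lemma minpoly_eq {x : E'} (hm : P.Monic) (h : aeval x P = 0)
    (hi : Irreducible (P.map (Int.castRingHom E))) : minpoly E x = P.map (Int.castRingHom E) :=
  (minpoly.eq_of_irreducible_of_monic hi (by rw [← algebraMap_int_eq, aeval_map_algebraMap, h])
    (hm.map _)).symm

omit [NumberField E'] in
lemma Gn.minpoly_int (G : Gn E P M θ) : minpoly (𝓞 E) θ = P.map (Int.castRingHom (𝓞 E)) := by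
  apply Polynomial.map_injective (algebraMap (𝓞 E) E) (IsFractionRing.injective _ _)
  rw [← minpoly.isIntegrallyClosed_eq_field_fractions E E' (Algebra.IsIntegral.isIntegral θ),
    Polynomial.map_map, ← RingOfIntegers.coe_eq_algebraMap,
    minpoly_eq G.monic (root_coe G.root) G.irr,
    RingHom.ext_int ((algebraMap (𝓞 E) E).comp _) (Int.castRingHom E)]

lemma Gn.cond (G : Gn E P M θ) (x : 𝓞 E') : ∃ p : (𝓞 E)[X], aeval θ p = M * x := by
  have h1 : aeval θ (derivative (minpoly (𝓞 E) θ)) ∈ conductor (𝓞 E) θ := by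
    refine SetLike.le_def.mp ?_ (Ideal.mem_span_singleton_self _)
    rw [← conductor_mul_differentIdeal (𝓞 E) E E' θ G.top]
    exact Ideal.mul_le_left
  rw [G.minpoly_int, derivative_map, ← algebraMap_int_eq, aeval_map_algebraMap] at h1
  obtain ⟨a, b, hab⟩ := G.sep
  have h2 := congrArg (aeval θ) hab
  rw [map_add, map_mul, map_mul, G.root, mul_zero, zero_add, aeval_C, eq_intCast,
    Int.cast_natCast] at h2
  have h3 := mem_conductor_iff.mp (Ideal.mul_mem_left _ (aeval θ b) h1) x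
  rw [h2, Algebra.adjoin_singleton_eq_range_aeval] at h3
  exact h3

omit [NumberField E] [NumberField E'] in
lemma map_aeval {R : Type} [CommRing R] (g : 𝓞 E' →+* R) (p : (𝓞 E)[X]) :
    g (aeval θ p) = p.eval₂ (g.comp (algebraMap (𝓞 E) (𝓞 E'))) (g θ) := by
  rw [aeval_def, hom_eval₂]

/-- uniqueness of extensions -/
lemma Gn.uniq (G : Gn E P M θ) {R : Type} [CommRing R] {u : R} (hu : u * M = 1)
    {g g' : 𝓞 E' →+* R}
    (h : g.comp (algebraMap (𝓞 E) (𝓞 E')) = g'.comp (algebraMap (𝓞 E) (𝓞 E'))) (hθ : g θ = g' θ) :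
    g = g' := by
  ext x
  obtain ⟨p, hp⟩ := G.cond x
  have h1 := map_aeval (θ := θ) g p
  have h2 := map_aeval (θ := θ) g' p
  rw [h, hθ, ← h2, hp, map_mul, map_mul, map_natCast, map_natCast] at h1
  linear_combination u * h1 - (g x - g' x) * hu

/-- existence of extensions -/
lemma Gn.ex (G : Gn E P M θ) {R : Type} [CommRing R] {u : R} (hu : u * M = 1) (f : 𝓞 E →+* R)
    (a : R) (ha : aeval a P = 0) :
    ∃ g : 𝓞 E' →+* R, g.comp (algebraMap (𝓞 E) (𝓞 E')) = f ∧ g θ = a := by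
  choose p hp using G.cond
  have key : ∀ q q' : (𝓞 E)[X], aeval θ q = aeval θ q' → q.eval₂ f a = q'.eval₂ f a := by
    intro q q' h
    obtain ⟨c, hc⟩ := minpoly.isIntegrallyClosed_dvd (Algebra.IsIntegral.isIntegral (R := 𝓞 E) θ)
      (p := q - q') (by rw [map_sub, h, sub_self])
    rw [← sub_eq_zero, ← eval₂_sub, hc, eval₂_mul, G.minpoly_int, eval₂_map,
      RingHom.ext_int (f.comp _) (algebraMap ℤ R), ← aeval_def, ha, zero_mul]
  have gj : ∀ q : (𝓞 E)[X], u * (p (aeval θ q)).eval₂ f a = q.eval₂ f a := fun q => by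
    rw [key _ (M * q) (by rw [hp, map_mul, map_natCast]), eval₂_mul, eval₂_natCast, ← mul_assoc, hu,
      one_mul]
  let g : 𝓞 E' →+* R :=
    { toFun := fun x => u * (p x).eval₂ f a
      map_one' := by simpa using gj 1
      map_zero' := by simpa using gj 0
      map_add' := fun x y => by
        rw [key (p (x + y)) (p x + p y) (by rw [map_add, hp, hp, hp, mul_add]), eval₂_add, mul_add]
      map_mul' := fun x y => by
        have h1 := key (M * p (x * y)) (p x * p y) (by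
          rw [map_mul, map_mul, hp, hp, hp, map_natCast]; ring)
        rw [eval₂_mul, eval₂_mul, eval₂_natCast] at h1
        linear_combination u ^ 2 * h1 - u * (p (x * y)).eval₂ f a * hu }
  refine ⟨g, RingHom.ext fun c => ?_, ?_⟩
  · have := gj (C c)
    rwa [aeval_C, eval₂_C] at this
  · have := gj X
    rwa [aeval_X, eval₂_X] at this

end TP

end Pool.Agent.P.MP_b8021b_nt.VC
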