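import Pool.Agent.P.MP_b8021b_nt.VC.StH
import Pool.Agent.P.MP_b8021b_nt.VC.PTP1

/-! The compositum of two fields and the product character. -/

namespace Pool.Agent.P.MP_b8021b_nt.VC

open Polynomial NumberField Finset Pool.Agent.P.MP_b8021b_nt.VE
open scoped Classical ComplexConjugate

namespace TP

variable {k : Type} [Field k] [NumberField k] {L L' : Type} [Field L] [NumberField L] [Algebra k L]
  [Field L'] [NumberField L'] [Algebra k L'] {P P' : ℤ[X]} {M M' : ℕ} {θ : 𝓞 L} {θ' : 𝓞 L'}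

lemma Gn.finrank (G : Gn k P M θ) : Module.finrank k L = P.natDegree := by
  rw [(PowerBasis.ofAdjoinEqTop (Algebra.IsIntegral.isIntegral (θ : L)) G.top).finrank,
    PowerBasis.ofAdjoinEqTop_dim, minpoly_eq G.monic (root_coe G.root) G.irr, G.monic.natDegree_map]

omit [NumberField k] [NumberField L] in
lemma Gn.indep (G : Gn k P M θ) {e : ℕ} (he : P.natDegree = e) :
    LinearIndependent k fun i : Fin e => (θ : L) ^ (i : ℕ) := by
  have h := linearIndependent_pow (K := k) (θ : L)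
  rwa [minpoly_eq G.monic (root_coe G.root) G.irr, G.monic.natDegree_map, he] at h

lemma gn_of [Algebra k ℂ] {K : BF k} {e : ℕ} (h : NF K e P M θ) : Gn k P M θ :=
  ⟨h.monic, h.root, h.irr, h.sep,
    Algebra.adjoin_eq_top_of_primitive_element (Algebra.IsAlgebraic.isAlgebraic _)
      ((Field.primitive_element_iff_minpoly_natDegree_eq k (θ : L)).mpr (by
        rw [minpoly_eq h.monic (root_coe h.root) h.irr, h.monic.natDegree_map, h.deg, h.fin]))⟩

/-- the compositum -/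
lemma exists_cp (G : Gn k P' M' θ') (hi : Irreducible (P'.map (Int.castRingHom L))) :
    ∃ (N : Type) (_ : Field N) (_ : NumberField N) (_ : Algebra k N) (_ : Algebra L N)
      (_ : Algebra L' N) (_ : IsScalarTower k L N) (_ : IsScalarTower k L' N),
      Gn L P' M' (algebraMap (𝓞 L') (𝓞 N) θ') := by
  have := Fact.mk hi
  let N := AdjoinRoot (P'.map (Int.castRingHom L))
  have : Module.Finite L N := (G.monic.map _).finite_adjoinRoot
  have : NumberField N := NumberField.of_module_finite L N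
  let pb := PowerBasis.ofAdjoinEqTop (Algebra.IsIntegral.isIntegral (θ' : L')) G.top
  have hr : aeval (AdjoinRoot.root (P'.map (Int.castRingHom L))) P' = 0 := by
    rw [AdjoinRoot.aeval_eq_of_algebra, algebraMap_int_eq, AdjoinRoot.mk_self]
  have hy : aeval (AdjoinRoot.root (P'.map (Int.castRingHom L))) (minpoly k pb.gen) = 0 := by
    rw [PowerBasis.ofAdjoinEqTop_gen, minpoly_eq G.monic (root_coe G.root) G.irr,
      ← algebraMap_int_eq k, aeval_map_algebraMap, hr]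
  let i : L' →ₐ[k] N := pb.lift _ hy
  let : Algebra L' N := i.toRingHom.toAlgebra
  have hθ : ((algebraMap (𝓞 L') (𝓞 N) θ' : 𝓞 N) : N) = AdjoinRoot.root _ := pb.lift_gen _ hy
  refine ⟨N, inferInstance, inferInstance, inferInstance, inferInstance, inferInstance,
    inferInstance, IsScalarTower.of_algebraMap_eq fun x => (i.commutes x).symm,
    G.monic, ?_, hi, G.sep, ?_⟩
  · rw [aeval_algebraMap_apply, G.root, map_zero]
  · rw [hθ]; exact AdjoinRoot.adjoinRoot_eq_top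

section cp

variable {N : Type} [Field N] [NumberField N] [Algebra k N] [Algebra L N] [Algebra L' N]
  [IsScalarTower k L N] [IsScalarTower k L' N]

lemma glue (G : Gn k P' M' θ') (G' : Gn L P' M' (algebraMap (𝓞 L') (𝓞 N) θ')) {m : ℕ}
    {u : ZMod m} (hu : u * M' = 1) (f : 𝓞 L →+* ZMod m) (f' : 𝓞 L' →+* ZMod m) (hm : m ≠ 0)
    (h : Ideal.relNorm (𝓞 k) (RingHom.ker f) = Ideal.relNorm (𝓞 k) (RingHom.ker f')) :
    ∃ g : 𝓞 N →+* ZMod m, Ideal.relNorm (𝓞 L) (RingHom.ker g) = RingHom.ker f ∧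
      Ideal.relNorm (𝓞 L') (RingHom.ker g) = RingHom.ker f' := by
  rw [relNorm_ker hm, relNorm_ker hm] at h
  obtain ⟨g, hg, hg'⟩ := G'.ex hu f (f' θ')
    ((aeval_algHom_apply f'.toIntAlgHom θ' P').trans (by rw [G.root, map_zero]))
  refine ⟨g, by rw [relNorm_ker hm, hg], ?_⟩
  rw [relNorm_ker hm, G.uniq hu (g := g.comp (algebraMap (𝓞 L') (𝓞 N))) (g' := f') ?_ hg']
  rw [RingHom.comp_assoc, ← IsScalarTower.algebraMap_eq, IsScalarTower.algebraMap_eq (𝓞 k) (𝓞 L),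
    ← RingHom.comp_assoc, hg]
  exact ZMod.ringHom_eq_of_ker_eq _ _ h

lemma lam_psi (G : Gn k P' M' θ') (G' : Gn L P' M' (algebraMap (𝓞 L') (𝓞 N) θ'))
    (χ : Ideal (𝓞 L) →* ℂ) (χ' : Ideal (𝓞 L') →* ℂ) {m : ℕ} (hm : Squarefree m)
    (h0 : (∃ u : ZMod m, u * M' = 1) ∨ ∀ I, Ideal.absNorm I = m → χ' I = 0) :
    lam (nrm N χ * nrm N (cj χ')) m = lam (fun 𝔪 => lamk k χ 𝔪 * conj (lamk k χ' 𝔪)) m := by
  have hm0 := hm.ne_zero
  have hψ : ∀ A, (nrm N χ * nrm N (cj χ')) A =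
      χ (Ideal.relNorm (𝓞 L) A) * conj (χ' (Ideal.relNorm (𝓞 L') A)) := fun _ => rfl
  rw [lam_eq, lam_eq]
  rcases h0 with ⟨u, hu⟩ | h0
  swap
  · rw [Finset.sum_eq_zero, Finset.sum_eq_zero]
    · intro 𝔪 h𝔪
      rw [lamk_eq χ' (m := m) (by simpa using h𝔪), Finset.sum_eq_zero, map_zero, mul_zero]
      intro I hI
      exact h0 I (by simpa using (Finset.mem_filter.mp hI).1)
    · intro A hA
      rw [hψ, h0 _ (by simpa [Ideal.absNorm_relNorm] using hA), map_zero, mul_zero]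
  set s := ((Ideal.finite_setOfPred_absNorm_eq (S := 𝓞 L) m).toFinset ×ˢ
    (Ideal.finite_setOfPred_absNorm_eq (S := 𝓞 L') m).toFinset).filter
      fun p => Ideal.relNorm (𝓞 k) p.1 = Ideal.relNorm (𝓞 k) p.2 with hs
  have hms : ∀ p, p ∈ s ↔ (Ideal.absNorm p.1 = m ∧ Ideal.absNorm p.2 = m) ∧
      Ideal.relNorm (𝓞 k) p.1 = Ideal.relNorm (𝓞 k) p.2 := fun p => by simp [hs]
  trans ∑ p ∈ s, χ p.1 * conj (χ' p.2)
  · refine Finset.sum_nbij (fun A => (Ideal.relNorm (𝓞 L) A, Ideal.relNorm (𝓞 L') A)) ?_ ?_ ?_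
      fun A _ => hψ A
    · intro A hA
      rw [hms]
      simpa [Ideal.absNorm_relNorm, Ideal.relNorm_relNorm] using hA
    · intro A hA A' hA' hAA
      obtain ⟨g, rfl⟩ := exists_ker hm A (by simpa using hA)
      obtain ⟨g', rfl⟩ := exists_ker hm A' (by simpa using hA')
      simp only [relNorm_ker hm0, Prod.mk.injEq] at hAA
      rw [G'.uniq hu (ZMod.ringHom_eq_of_ker_eq _ _ hAA.1)
        (DFunLike.congr_fun (ZMod.ringHom_eq_of_ker_eq _ _ hAA.2) θ')]
    · rintro ⟨I, I'⟩ hI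
      obtain ⟨⟨h1, h2⟩, h3⟩ := (hms _).mp hI
      obtain ⟨f, rfl⟩ := exists_ker hm I h1
      obtain ⟨f', rfl⟩ := exists_ker hm I' h2
      obtain ⟨g, hg, hg'⟩ := glue G G' hu f f' hm0 h3
      exact ⟨RingHom.ker g, by simpa using norm_ker g, Prod.ext hg hg'⟩
  · rw [← Finset.sum_fiberwise_of_maps_to (g := fun p => Ideal.relNorm (𝓞 k) p.1)
      (t := (Ideal.finite_setOfPred_absNorm_eq (S := 𝓞 k) m).toFinset)
      (fun p hp => by simpa [Ideal.absNorm_relNorm] using ((hms p).mp hp).1.1)]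
    refine Finset.sum_congr rfl fun 𝔪 h𝔪 => ?_
    have h1 : Ideal.absNorm 𝔪 = m := by simpa using h𝔪
    rw [lamk_eq χ h1, lamk_eq χ' h1, map_sum, Finset.sum_mul_sum, ← Finset.sum_product']
    refine Finset.sum_congr (Finset.ext fun p => ?_) fun _ _ => rfl
    simp only [Finset.mem_filter, hms, Finset.mem_product, Set.Finite.mem_toFinset,
      Set.mem_ofPred_eq]
    exact ⟨fun ⟨⟨⟨a, b⟩, c⟩, d⟩ => ⟨⟨a, d⟩, b, c ▸ d⟩,
      fun ⟨⟨a, d⟩, b, c⟩ => ⟨⟨⟨a, b⟩, d.trans c.symm⟩, d⟩⟩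

omit [NumberField N] in
lemma small [Algebra k ℂ] (G : Gn k P M θ) (G' : Gn L P' M' (algebraMap (𝓞 L') (𝓞 N) θ')) {e : ℕ}
    (he : P.natDegree = e) (he' : P'.natDegree = e) (hN : Module.finrank k N = e ^ 2) {Q : ℝ}
    (hQ : 1 ≤ Q) (h : ‖emb k θ‖ ≤ Q) (h' : ‖emb k θ'‖ ≤ Q) : Small k N (Q ^ (2 * e)) := by
  let w : Fin (Module.finrank k N) ≃ Fin e × Fin e :=
    (finCongr (by rw [hN, sq])).trans finProdFinEquiv.symm
  refine ⟨fun i => algebraMap (𝓞 L) (𝓞 N) θ ^ ((w i).1 : ℕ) *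
    algebraMap (𝓞 L') (𝓞 N) θ' ^ ((w i).2 : ℕ), ?_, fun i φ => ?_⟩
  · have := (linearIndependent_smul (G.indep he) (G'.indep he')).comp w w.injective
    refine (congrArg (fun v : Fin (Module.finrank k N) → N => LinearIndependent k v)
      (funext fun i => ?_)).mp this
    simp only [Function.comp_apply, Algebra.smul_def, map_pow]
    rfl
  · have h1 := (norm_le_pi_norm (emb k θ) (φ.comp (IsScalarTower.toAlgHom k L N))).trans h
    have h2 := (norm_le_pi_norm (emb k θ') (φ.comp (IsScalarTower.toAlgHom k L' N))).trans h'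
    have e1 : emb k (algebraMap (𝓞 L) (𝓞 N) θ ^ ((w i).1 : ℕ) *
        algebraMap (𝓞 L') (𝓞 N) θ' ^ ((w i).2 : ℕ)) φ =
        emb k θ (φ.comp (IsScalarTower.toAlgHom k L N)) ^ ((w i).1 : ℕ) *
          emb k θ' (φ.comp (IsScalarTower.toAlgHom k L' N)) ^ ((w i).2 : ℕ) := by
      simp only [emb, RingOfIntegers.coe_eq_algebraMap, map_mul, map_pow]
      rfl
    rw [e1, norm_mul, norm_pow, norm_pow, two_mul, pow_add]
    exact mul_le_mul
      ((pow_le_pow_left₀ (norm_nonneg _) h1 _).trans (pow_le_pow_right₀ hQ (w i).1.2.le))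
      ((pow_le_pow_left₀ (norm_nonneg _) h2 _).trans (pow_le_pow_right₀ hQ (w i).2.2.le))
      (by positivity) (by positivity)

end cp

lemma eq_of_conj {a b : ℂ} (h : a * conj b = 1) (hb : ‖b‖ = 1) : a = b := by
  have h1 : b * conj b = 1 := by rw [Complex.mul_conj', hb]; simp
  linear_combination b * h - a * h1

end TP

open TP in
theorem p_tP (hU : S_Unr) (hB : S_BCN) : S_TP := by
  intro k _ _ _ K L L' _ _ _ _ _ _ e P P' M M' n n' θ θ' Q Kb κ τ κ' τ' χ χ' hP hP' hM hn hM' hn'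
    hW hQ hθ hθ' hκ hτ hκ' hτ' hχ hχ'
  obtain ⟨l, hl, hlM, hE⟩ := hW
  have G := gn_of hP
  have G₁ := gn_of hP'
  have two : ∀ {m m' : ℕ}, 2 * K.D ∣ m → m ∣ m' → m' ≠ 0 → 2 ≤ m' := fun h1 h2 h3 =>
    Nat.le_of_dvd (Nat.pos_of_ne_zero h3)
      ((Int.natCast_dvd_natCast.mp ((Dvd.intro _ rfl).trans h1)).trans h2)
  have hn2 := two hP.dvd hM hn
  have hn2' := two hP'.dvd hM' hn'
  have hu := (hU.2.2 k L P M θ G.monic G.sep (root_coe G.root) G.top).2 l hl hlM
    (hU.1 k K.toIQ l hl fun h => hlM (Int.natCast_dvd_natCast.mp (h.trans hP.dvd)))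
  obtain ⟨N, _, _, _, _, _, _, _, G'⟩ := exists_cp (L := L) G₁
    (hU.2.1 L l P' hl G₁.monic (hP'.deg ▸ hP'.he.one_le) hu hE)
  have f1 : Module.finrank L N = e := G'.finrank.trans hP'.deg
  have f2 : Module.finrank k N = e ^ 2 := by
    rw [← Module.finrank_mul_finrank k L N, hP.fin, f1, sq]
  have f3 : Module.finrank L' N = e := by
    have := Module.finrank_mul_finrank k L' N
    rw [hP'.fin, f2, sq] at this
    exact Nat.eq_of_mul_eq_mul_left hP.he.pos this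
  obtain ⟨c1, -, -, -, -, -, a1⟩ := hB.2 k K L n κ τ χ hn2 hχ
  obtain ⟨c2, a2, -⟩ := hB.2 k K L' n' κ' τ' χ' hn2' hχ'
  have a3 := (hB.2 k K L' n' _ _ _ hn2' a2).2.2.2.2.2.2 N
  have a4 := ((hB.2 k K N n _ _ _ hn2 (a1 N)).2.2.2.1 n' _ _ _ (by omega) a3).1
  have c3 := (hB.2 k K N (n * n') _ _ _ (by nlinarith) a4).1
  refine ⟨N, inferInstance, inferInstance, inferInstance, _, _, _, f2,
    small G G' hP.deg hP'.deg f2 hQ hθ hθ', fun φ => ?_, fun φ => ?_, a4, fun j hj => ?_,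
    fun ht P₁ hq hqn => ?_⟩
  · simp only [Pi.add_apply, Pi.neg_apply, Int.cast_add, Int.cast_neg]
    refine (abs_add_le _ _).trans ?_
    rw [abs_neg, two_mul]
    exact add_le_add (hκ _) (hκ' _)
  · simp only [Pi.add_apply, Pi.neg_apply]
    refine (abs_add_le _ _).trans ?_
    rw [abs_neg, two_mul]
    exact add_le_add (hτ _) (hτ' _)
  · refine lam_psi G₁ G' χ χ' hj ?_
    by_cases hc : j.Coprime n'
    · exact Or.inl (unit_of hM' hc)
    · exact Or.inr fun I hI => hχ'.zero I fun h => hc (hI ▸ (c2 I).mp h)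
  · have hc : (Ideal.absNorm P₁).Coprime (n * n') := (Nat.Prime.coprime_iff_not_dvd hq).mpr hqn
    have hc' : (Ideal.absNorm P₁).Coprime n' := Nat.Coprime.coprime_mul_left_right hc
    have h1 := hχ'.norm_cop P₁ ((c2 P₁).mpr hc')
    refine ⟨fun A hA => ?_, ?_⟩
    · obtain ⟨u, hu⟩ := unit_of hM' hc'
      obtain ⟨f, hf⟩ := exists_ker hq.squarefree A (by
        rw [← Ideal.absNorm_relNorm (R := 𝓞 k), hA, Ideal.absNorm_relNorm])
      obtain ⟨f', hf'⟩ := exists_ker hq.squarefree P₁ rfl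
      obtain ⟨g, hg, hg'⟩ := glue G₁ G' hu f f' hq.ne_zero (by rw [hf, hf', hA])
      have h2 : χ (Ideal.relNorm (𝓞 L) (RingHom.ker g)) *
          conj (χ' (Ideal.relNorm (𝓞 L') (RingHom.ker g))) = 1 :=
        ht (RingHom.ker g) ((c3 _).mpr (by rw [norm_ker]; exact hc))
      rw [hg, hg', hf, hf'] at h2
      exact eq_of_conj h2 h1
    · have h3 : Module.finrank (𝓞 L') (𝓞 N) = e := by
        rw [← f3, IsFractionRing.finrank_eq (𝓞 L') L' (𝓞 N) N]
      have h2 : χ (Ideal.relNorm (𝓞 L) (P₁.map (algebraMap (𝓞 L') (𝓞 N)))) *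
          conj (χ' (Ideal.relNorm (𝓞 L') (P₁.map (algebraMap (𝓞 L') (𝓞 N))))) = 1 :=
        ht _ ((c3 _).mpr (by
          rw [← Ideal.absNorm_relNorm (R := 𝓞 L'), Ideal.relNorm_algebraMap, map_pow]
          exact Nat.Coprime.pow_left _ hc))
      rw [(hB.1 k L' L N (f1.trans hP'.fin.symm) (top_le_iff.mp (G'.top.ge.trans
        (Algebra.adjoin_mono (Set.singleton_subset_iff.mpr ⟨θ', rfl⟩))))).2,
        Ideal.relNorm_algebraMap, h3, map_pow] at h2
      rw [hP.fin]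
      exact eq_of_conj h2 (by rw [norm_pow, h1, one_pow])

end Pool.Agent.P.MP_b8021b_nt.VC
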