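import Pool.Agent.P.MP_b8021b_nt.VC.StT
import Pool.Agent.P.MP_b8021b_nt.VE.PTheta
import Pool.Agent.P.MP_b8021b_nt.VE.PE2

/-! Split primes in short multiplicative intervals. -/

namespace Pool.Agent.P.MP_b8021b_nt.VC

open Polynomial NumberField Finset Pool.Agent.P.MP_b8021b_nt.VE Filter
open scoped Classical

namespace ThetaK

theorem lower (A : ℕ) : ∃ y₀ : ℝ, ∀ y, y₀ ≤ y → 4 ≤ y ∧ ∀ N : ℕ, 1 ≤ N →
    (N : ℝ) ≤ Real.log y ^ A → ∀ i < N, 3 / 5 * (y / N) ≤ ∑ q ∈ strat y N i, Real.log q := by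
  obtain ⟨C, hC, hP⟩ := Theta.pnt0 (A + 1)
  obtain ⟨y₀, h₀⟩ := Theta.small A (max 1 (24 * C * 2 ^ (A + 1)))
  refine ⟨y₀, fun y hy => ?_⟩
  obtain ⟨hy4, hl, hs⟩ := h₀ y hy
  refine ⟨hy4, fun N hN hNA i hi => ?_⟩
  have hl1 : 1 ≤ Real.log y := (le_max_left _ _).trans hl
  have hl2 : 24 * C * 2 ^ (A + 1) ≤ Real.log y := (le_max_right _ _).trans hl
  have hNp : (0 : ℝ) < N := by exact_mod_cast hN
  have hy0 : 0 < y := by linarith
  set l := Real.log y with hldef
  set a := y * Real.exp (i / N) with ha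
  set b := y * Real.exp ((i + 1) / N) with hb
  have he1 : 1 ≤ Real.exp ((i : ℝ) / N) := Real.one_le_exp (by positivity)
  have hya : y ≤ a := by rw [ha]; nlinarith
  have hab : a + y / N ≤ b := by
    have h1 : Real.exp (((i : ℝ) + 1) / N) = Real.exp (i / N) * Real.exp (1 / N) := by
      rw [← Real.exp_add, add_div]
    have h2 : 1 / (N : ℝ) + 1 ≤ Real.exp (1 / N) := Real.add_one_le_exp _
    have h3 : 0 < 1 / (N : ℝ) := by positivity
    have h4 : y / N = y * (1 / N) := by ring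
    rw [hb, h1, h4, ← mul_assoc, ← ha]
    nlinarith
  have hb3 : b ≤ 3 * y := by
    have h3 : ((i : ℝ) + 1) / N ≤ 1 := by
      rw [div_le_one hNp]; exact_mod_cast hi
    have h4 := Real.exp_le_exp.2 h3
    have h5 := Real.exp_one_lt_d9
    rw [hb]; nlinarith
  have hlA : 1 ≤ l ^ A := one_le_pow₀ hl1
  have hsq : Real.sqrt y * Real.sqrt y = y := Real.mul_self_sqrt hy0.le
  have hsq1 : 1 ≤ Real.sqrt y := by
    rw [Real.one_le_sqrt]; linarith
  have hpow : l ^ (A + 1) = l ^ A * l := pow_succ l A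
  have hyl : y / l ^ A ≤ y / N := div_le_div_of_nonneg_left hy0.le hNp hNA
  -- the quantity `u = y / l ^ A`
  set u := y / l ^ A with hu
  have hul : u * l ^ A = y := by rw [hu]; field_simp
  have hu0 : 0 < u := by rw [hu]; positivity
  have hu100 : 100 * Real.sqrt y * l ≤ u := by
    rw [hu, le_div_iff₀ (by positivity)]
    nlinarith
  have hu1 : 100 ≤ u := by nlinarith
  obtain ⟨X₂, hX₂⟩ : ∃ X₂ : ℕ, ⌈b⌉₊ = X₂ + 1 :=
    Nat.exists_eq_succ_of_ne_zero (by
      have : 0 < ⌈b⌉₊ := Nat.ceil_pos.2 (by positivity)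
      omega)
  have hX2a : b ≤ X₂ + 1 := by
    have := Nat.le_ceil b
    rw [hX₂] at this; exact_mod_cast this
  have hX2b : (X₂ : ℝ) < b := by
    have := Nat.ceil_lt_add_one (show 0 ≤ b by positivity)
    rw [hX₂] at this; push_cast at this; linarith
  set X₁ := ⌊a⌋₊ with hX₁
  have hX1a : (X₁ : ℝ) ≤ a := Nat.floor_le (by positivity)
  have hX1b : a < X₁ + 1 := Nat.lt_floor_add_one a
  have h12r : (X₁ : ℝ) ≤ X₂ := by linarith
  have h12 : X₁ ≤ X₂ := by exact_mod_cast h12r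
  have hX1c : (2 : ℝ) ≤ X₁ := by linarith
  have hX1d : 2 ≤ X₁ := by exact_mod_cast hX1c
  refine le_trans ?_ (Theta.sub_le hy0 hN hi h12 hX1b hX2b)
  -- the error terms
  have hE : ∀ X : ℕ, X₁ ≤ X → X ≤ X₂ → |Chebyshev.psi X - X| ≤ u / 8 := by
    intro X hX1 hX2
    have hXa : (X₁ : ℝ) ≤ X := by exact_mod_cast hX1
    have hXb : (X : ℝ) ≤ X₂ := by exact_mod_cast hX2
    have h1 := hP X (hX1d.trans hX1)
    rw [Theta.psi_eq]
    refine h1.trans ?_
    have hlog : l / 2 ≤ Real.log X := by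
      have h9 : y - 1 ≤ (X : ℝ) := by linarith
      have h2 : y ≤ (X : ℝ) ^ 2 := Theta.sq_ge hy4 h9
      have h3 := Real.log_le_log hy0 h2
      rw [Real.log_pow] at h3
      push_cast at h3; linarith
    have h4 : (l / 2) ^ (A + 1) ≤ Real.log X ^ (A + 1) := pow_le_pow_left₀ (by positivity) hlog _
    have h5 : 0 < (l / 2) ^ (A + 1) := by positivity
    refine (div_le_div₀ (by positivity) (show C * X ≤ C * (3 * y) from mul_le_mul_of_nonneg_left (by linarith) hC.le) h5 h4).trans ?_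
    rw [div_le_iff₀ h5, div_pow, hpow]
    have h6 : u / 8 * (l ^ A * l / 2 ^ (A + 1)) = y * (l / 2 ^ (A + 1)) / 8 := by
      rw [← hul]; ring
    have h7 : 24 * C ≤ l / 2 ^ (A + 1) := by
      rw [le_div_iff₀ (by positivity)]; exact hl2
    have h8 := mul_le_mul_of_nonneg_left h7 hy0.le
    rw [h6]; linarith
  have hE1 := abs_le.1 (hE X₁ le_rfl h12)
  have hE2 := abs_le.1 (hE X₂ h12 le_rfl)
  have hT1 := Chebyshev.theta_le_psi (X₁ : ℝ)
  have hT2 := abs_le.1 (Chebyshev.abs_psi_sub_theta_le_sqrt_mul_log (x := (X₂ : ℝ)) (by linarith))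
  have hT3 : Real.sqrt X₂ ≤ 2 * Real.sqrt y := by
    rw [Real.sqrt_le_left (by positivity), mul_pow, Real.sq_sqrt hy0.le]; linarith
  have hT4 : Real.log X₂ ≤ 2 * l := by
    have h2 : (X₂ : ℝ) ≤ y ^ 2 := Theta.le_sq hy4 (by linarith)
    have h3 := Real.log_le_log (by linarith) h2
    rw [Real.log_pow] at h3
    push_cast at h3; linarith
  have hT5 : 0 ≤ Real.log (X₂ : ℝ) := Real.log_natCast_nonneg _
  have hT6 : 2 * Real.sqrt X₂ * Real.log X₂ ≤ 8 * Real.sqrt y * l := by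
    have := mul_le_mul hT3 hT4 hT5 (by positivity)
    linarith
  linarith

theorem jac {r q : ℕ} (hq : q.Prime) (h : ¬ q ∣ 2 * r) :
    jacobiSym (-(r : ℤ)) q = if spl r q then 1 else -1 := by
  have : Fact q.Prime := ⟨hq⟩
  have h0 : ((-(r : ℤ) : ℤ) : ZMod q) ≠ 0 := by
    rw [Int.cast_neg, Int.cast_natCast, neg_ne_zero, Ne, ZMod.natCast_eq_zero_iff]
    exact fun h' => h (h'.mul_left 2)
  have h1 : ((-(r : ℤ) : ℤ) : ZMod q) = -(r : ZMod q) := by push_cast; rfl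
  rw [← jacobiSym.legendreSym.to_jacobiSym]
  split_ifs with hs
  · exact (legendreSym.eq_one_iff q h0).2 (h1 ▸ hs.2)
  · exact (legendreSym.eq_neg_one_iff q).2 fun h' => hs ⟨h, h1 ▸ h'⟩

theorem lowerK (hT : VE.S_Theta) (hK : VE.S_Kap) {r : ℕ} (hr : r.Prime) (A : ℕ) :
    ∀ᶠ y : ℝ in atTop, ∀ N : ℕ, 1 ≤ N → (N : ℝ) ≤ Real.log y ^ A → ∀ i < N,
      y / (4 * N) ≤ ∑ q ∈ strat y N i with spl r q, Real.log q := by
  obtain ⟨κ, hκ, hκ1⟩ := hK (-(r : ℤ)) (4 * r) (by simpa using hr.ne_zero)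
    (by simpa using hr.ne_zero) ⟨-1, by push_cast; ring⟩
  have hκ2 : κ ≠ 1 := hκ1 fun h => by
    have h1 := h.nonneg
    have h2 := hr.pos
    omega
  obtain ⟨y₀, h₀⟩ := hT A
  obtain ⟨y₁, h₁⟩ := lower A
  filter_upwards [E2P.small hT A 1 1, E2P.ev_log 6, E2P.ev_log (4 * r), eventually_ge_atTop y₀,
    eventually_ge_atTop y₁, eventually_gt_atTop (2 * r : ℝ)] with y hs h6 h4 hy0 hy1 hyr N hN hA i hi
  obtain ⟨-, -, t3, t4⟩ := h₀ y hy0 N hN hA
  obtain ⟨y4, hl⟩ := h₁ y hy1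
  have hl := hl N hN hA i hi
  have N0 : (0 : ℝ) < N := by exact_mod_cast hN
  have h1 := hs N hN hA i hi (4 * r) κ (by have := hr.pos; omega) (by
    rw [pow_one]; exact_mod_cast h4) hκ2
  set S := ∑ q ∈ strat y N i, Real.log q with hS
  set T := ∑ q ∈ strat y N i with spl r q, Real.log q with hTd
  have S0 : 0 < S := lt_of_lt_of_le (by positivity) hl
  have h2 : (Sm y N i fun q => κ q) = (((2 * T - S) / S : ℝ) : ℂ) := by
    rw [hTd, sum_filter, mul_sum, hS, ← sum_sub_distrib, sum_div, Complex.ofReal_sum, Sm]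
    refine sum_congr rfl fun q hq => ?_
    obtain ⟨q1, q2, -⟩ := t4 q (mem_biUnion.2 ⟨i, mem_range.2 hi, hq⟩)
    have q3 : ¬ q ∣ 2 * r := fun h => by
      have h7 : (q : ℝ) ≤ (2 * r : ℕ) := by
        exact_mod_cast Nat.le_of_dvd (by have := hr.pos; omega) h
      push_cast at h7
      linarith
    have q4 : q.Coprime (4 * r) := by
      have := (q1.coprime_iff_not_dvd.2 q3).pow_right 2
      exact this.coprime_dvd_right ⟨r, by ring⟩
    rw [hκ q q4, jac q1 q3, VE.wt, t3 i q hq]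
    split_ifs
    · push_cast; ring
    · push_cast; ring
  rw [h2, Complex.norm_real, Real.norm_eq_abs, pow_one] at h1
  have h3 : (Real.log y)⁻¹ ≤ 1 / 6 := by
    rw [one_div]
    exact inv_anti₀ (by norm_num) h6
  have h5 := (abs_le.1 (h1.trans h3)).1
  rw [le_div_iff₀ S0] at h5
  have hh : y / (4 * N) = y / N / 4 := by field_simp
  rw [hh]
  linarith

end ThetaK

theorem p_thetaK (hT : VE.S_Theta) (hK : VE.S_Kap) : S_ThetaK := by
  intro r hr A
  obtain ⟨y₀, h₀⟩ := hT A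
  obtain ⟨y₁, h₁⟩ := eventually_atTop.1 ((ThetaK.lowerK hT hK hr A).and
    ((eventually_ge_atTop y₀).and (eventually_ge_atTop (4 : ℝ))))
  refine ⟨y₁, fun y hy N hN hA => ?_⟩
  obtain ⟨hlow, hy0, hy4⟩ := h₁ y hy
  have hlow := hlow N hN hA
  obtain ⟨-, -, t3, t4⟩ := h₀ y hy0 N hN hA
  have N0 : (0 : ℝ) < N := by exact_mod_cast hN
  have hpos : 0 < y / (4 * N) := by positivity
  refine ⟨hlow, fun i hi => ?_, fun q hq => ?_⟩
  · have h1 : ∀ q ∈ strat y N i, 2 * wk r y N q = if spl r q then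
        Real.log q / ∑ q' ∈ strat y N i with spl r q', Real.log q' else 0 := by
      intro q hq
      rw [wk, t3 i q hq]
      split_ifs
      · have := (hpos.trans_le (hlow i hi)).ne'
        field_simp
      · exact mul_zero _
    rw [sum_congr rfl h1, ← sum_filter, ← sum_div, div_self (hpos.trans_le (hlow i hi)).ne']
  · obtain ⟨q1, q2, q3, q4, -⟩ := t4 q hq
    have hS := hlow _ q4
    have hq0 : (0 : ℝ) < q := by exact_mod_cast q1.pos
    have hlq : Real.log q ≤ 2 * Real.log y := by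
      have h2 : (q : ℝ) ≤ y ^ 2 := by nlinarith
      have h3 := Real.log_le_log hq0 h2
      rw [Real.log_pow] at h3
      push_cast at h3
      linarith
    have hlq0 : 0 ≤ Real.log (q : ℝ) := Real.log_natCast_nonneg q
    have hS0 := hpos.trans_le hS
    rw [wk]
    split_ifs
    · refine ⟨by positivity, (div_le_div₀ (by linarith) hlq (mul_pos two_pos hpos)
        (mul_le_mul_of_nonneg_left hS zero_le_two)).trans (le_of_eq ?_)⟩
      field_simp
    · exact ⟨le_rfl, div_nonneg (mul_nonneg (by positivity) (by linarith)) (by linarith)⟩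

end Pool.Agent.P.MP_b8021b_nt.VC
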