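import Pool.Agent.P.MP_b8021b_nt.VC.BasicC

/-! A function whose zeros are close to a rigid configuration of rational points. -/

namespace Pool.Agent.P.MP_b8021b_nt.VC

open Polynomial Finset Pool.Agent.P.MP_b8021b_nt.VE Filter
open scoped Classical Topology

namespace PUnif

/-- every ideal class contains the inverse of an ideal of degree at most the genus -/
theorem red {F A : Type} [Field F] [CharZero F] [CommRing A] [Algebra F A] (hCv : S_Cv)
    (cv : Cv F A) {I : Ideal A} (hI : I ≠ ⊥) :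
    ∃ (D : Ideal A) (a : A), D ≠ ⊥ ∧ dg F D ≤ cv.g ∧ a ≠ 0 ∧ Ideal.span {a} = I * D := by
  have := cv.ded
  obtain ⟨hfin, hmul, hsp, -, -, hL, -⟩ := hCv F A cv
  have := hfin I hI
  obtain ⟨hf, hr⟩ := hL (dg F I + cv.g)
  set f : cv.L (dg F I + cv.g) →ₗ[F] A ⧸ I :=
    (Ideal.Quotient.mkₐ F I).toLinearMap ∘ₗ (cv.L (dg F I + cv.g)).subtype with hfd
  have hk : LinearMap.ker f ≠ ⊥ := LinearMap.ker_ne_bot_of_finrank_lt (by
    have : Module.finrank F (A ⧸ I) = dg F I := rfl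
    omega)
  obtain ⟨⟨a, ha⟩, h1, h2⟩ := Submodule.exists_mem_ne_zero_of_ne_bot hk
  have ha0 : a ≠ 0 := fun h => h2 (Subtype.ext h)
  have haI : a ∈ I := Ideal.Quotient.eq_zero_iff_mem.1 h1
  obtain ⟨D, hD⟩ : I ∣ Ideal.span {a} :=
    Ideal.dvd_iff_le.2 ((Ideal.span_singleton_le_iff_mem _).2 haI)
  have hD0 : D ≠ ⊥ := by
    rintro rfl
    exact span_ne_bot ha0 (by simpa using hD)
  refine ⟨D, a, hD0, ?_, ha0, hD⟩
  have h3 := hsp a ha0
  rw [hD, hmul _ _ hI hD0] at h3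
  rw [Cv.mem_L] at ha
  omega

section

variable {F A Ω : Type} [Field F] [CommRing A] [Algebra F A] [NormedField Ω] [Algebra F Ω]

theorem conv_sub {J : ℕ → Ideal A} {X : (A →ₐ[F] Ω) → ℕ} (h : Conv J X) {ψ : ℕ → ℕ}
    (hψ : Tendsto ψ atTop atTop) : Conv (fun k => J (ψ k)) X := by
  intro P
  obtain ⟨W₀, ε₀, hε₀, h1⟩ := h P
  exact ⟨W₀, ε₀, hε₀, fun W ε hW hε hle => hψ.eventually (h1 W ε hW hε hle)⟩

theorem conv_const [CharZero F] [IsAlgClosed Ω] [Algebra.IsAlgebraic F Ω] (hP : S_Pts)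
    (cv : Cv F A) {E : Ideal A} (hE : E ≠ ⊥) :
    Conv (fun _ => E) (fun P : A →ₐ[F] Ω => mI P E) := by
  intro P
  obtain ⟨W₀, ε₀, hε₀, hd⟩ := exists_disjoint_near ((zeros_finite (Ω := Ω) hP cv hE).insert P)
  refine ⟨W₀, ε₀, hε₀, fun W ε hW hε hle => Eventually.of_forall fun _ => ?_⟩
  show nZ E (Near W ε P) = mI P E
  rw [← nZ_single]
  refine nZ_congr hP cv hE fun R hR => ⟨fun h1 => ?_, fun h1 => ?_⟩
  · by_contra h2
    exact Set.disjoint_left.1 (hd R (Set.mem_insert_of_mem _ hR) P (Set.mem_insert _ _) h2)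
      (near_self W₀ hε₀ R) (near_mono hW hle _ h1)
  · rw [Set.mem_singleton_iff.1 h1]
    exact near_self W hε P

end

end PUnif

open PUnif in
theorem p_unif (hCv : S_Cv) (hPts : S_Pts) (hLim : S_Lim) : S_Unif := by
  intro F A Ω _ _ _ _ _ _ _ _ _ cv Q hQ W ε hε
  have := cv.dom
  set q : Fin (cv.g + 1) → (A →ₐ[F] Ω) := fun i => (Algebra.ofId F Ω).comp (Q i) with hq
  have hqi : Function.Injective q := fun i j h => hQ.1 (AlgHom.ext fun a =>
    (algebraMap F Ω).injective (DFunLike.congr_fun h a))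
  have hk0 : ∀ i, RingHom.ker (Q i) ≠ ⊥ := fun i =>
    ((hPts F A Ω cv).2.2.2.2.2.2.2.2 (Q i) (q i)).1
  have hk1 : ∀ i, dg F (RingHom.ker (Q i)) = 1 := fun i =>
    ((hPts F A Ω cv).2.2.2.2.2.2.2.2 (Q i) (q i)).2.1
  have hkm : ∀ i (P : A →ₐ[F] Ω), mI P (RingHom.ker (Q i)) = if q i = P then 1 else 0 := by
    intro i P
    rw [((hPts F A Ω cv).2.2.2.2.2.2.2.2 (Q i) P).2.2]
    exact if_congr eq_comm rfl rfl
  set E := ∏ j ∈ univ.erase (0 : Fin (cv.g + 1)), RingHom.ker (Q j) with hE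
  set R := RingHom.ker (Q 0) with hR
  have hE0 : E ≠ ⊥ := Finset.prod_ne_zero_iff.2 fun i _ => hk0 i
  have hR0 : R ≠ ⊥ := hk0 0
  have hEm : ∀ P : A →ₐ[F] Ω, mI P E =
      ∑ j ∈ univ.erase (0 : Fin (cv.g + 1)), if q j = P then 1 else 0 := by
    intro P
    rw [hE, mI_prod hPts cv _ _ fun i _ => hk0 i]
    exact Finset.sum_congr rfl fun j _ => hkm j P
  have hcard : (univ.erase (0 : Fin (cv.g + 1))).card = cv.g := by simp
  have hEd : dg F E ≤ cv.g := by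
    have h1 : ∀ s : Finset (Fin (cv.g + 1)), dg F (∏ j ∈ s, RingHom.ker (Q j)) ≤ s.card := by
      intro s
      induction s using Finset.induction_on with
      | empty =>
        rw [Finset.prod_empty, Ideal.one_eq_top, ← nZ_univ (Ω := Ω) hPts cv top_ne_bot,
          (nZ_eq_zero hPts cv top_ne_bot).2 fun P _ h => RingHom.ker_ne_top P (top_le_iff.1 h)]
        exact Nat.zero_le _
      | insert a s ha ih =>
        rw [Finset.prod_insert ha, Finset.card_insert_of_notMem ha, (hCv F A cv).2.1 _ _ (hk0 a)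
          (Finset.prod_ne_zero_iff.2 fun i _ => hk0 i), hk1]
        omega
    exact (h1 _).trans_eq hcard
  choose D a hD0 hDd ha0 hD using fun k : ℕ =>
    red hCv cv (I := (E * R) ^ k) (pow_ne_zero _ (mul_ne_zero hE0 hR0))
  obtain ⟨φ, X, hφ, hX⟩ := (hLim F A Ω cv).1 D cv.g fun k => ⟨hD0 k, hDd k⟩
  have hj : ∀ k, ∃ j, φ (k + 1) = φ k + (j + 1) := fun k =>
    ⟨φ (k + 1) - φ k - 1, by
      have := hφ (Nat.lt_add_one k)
      omega⟩
  choose j hj using hj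
  choose J s hJ0 hJd hs0 hJ using fun k : ℕ =>
    red hCv cv (I := E ^ j k * R ^ (j k + 1)) (mul_ne_zero (pow_ne_zero _ hE0) (pow_ne_zero _ hR0))
  obtain ⟨ψ, Y, hψ, hY⟩ := (hLim F A Ω cv).1 J cv.g fun k => ⟨hJ0 k, hJd k⟩
  have hYE := (hLim F A Ω cv).2 E (J ∘ ψ) (fun _ => E) (fun k => (D ∘ φ) (ψ k))
    (fun k => (D ∘ φ) (ψ k + 1)) cv.g X Y hE0 (hQ.2 0) (fun k => ⟨hJ0 _, hJd _⟩)
    (fun _ => ⟨hE0, hEd⟩) (fun k => ⟨hD0 _, hDd _⟩) (fun k => ⟨hD0 _, hDd _⟩)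
    (fun k => ⟨a (φ (ψ k + 1)), s (ψ k) * a (φ (ψ k)), ha0 _, mul_ne_zero (hs0 _) (ha0 _), by
      rw [← Ideal.span_singleton_mul_span_singleton, hD, hD, hJ]
      simp only [Function.comp]
      conv_lhs => enter [1, 1]; rw [hj]
      ring⟩)
    (conv_const hPts cv hE0) (conv_sub hX hψ.tendsto_atTop)
    (conv_sub hX ((tendsto_add_atTop_nat 1).comp hψ.tendsto_atTop)) hY
  choose W₀ ε₀ hε₀ hW₀ using fun i => hY (q i)
  obtain ⟨W₁, ε₁, hε₁, hd⟩ := exists_disjoint_near (Set.finite_range q)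
  have h9 : ∀ᶠ e in 𝓝[>] (0 : ℝ), e ∈ Set.Ioo 0 ε ∧ e ∈ Set.Ioo 0 ε₁ ∧ ∀ i, e ∈ Set.Ioo 0 (ε₀ i) :=
    (Eventually.and (Ioo_mem_nhdsGT hε) (Eventually.and (Ioo_mem_nhdsGT hε₁)
      (eventually_all.2 fun i => Ioo_mem_nhdsGT (hε₀ i))))
  obtain ⟨e, h10, h11, h12⟩ := h9.exists
  set W' := W ∪ (W₁ ∪ univ.biUnion W₀) with hW'
  have s1 : W ⊆ W' := Finset.subset_union_left
  have s2 : W₁ ⊆ W' := Finset.subset_union_left.trans Finset.subset_union_right
  have s3 : ∀ i, W₀ i ⊆ W' := fun i => ((Finset.subset_biUnion_of_mem W₀ (mem_univ i)).trans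
    Finset.subset_union_right).trans Finset.subset_union_right
  obtain ⟨k, hk⟩ := (eventually_all.2 fun i => hW₀ i W' e (s3 i) h10.1 (h12 i).2.le).exists
  set m := ψ k with hm
  have h1 : ∀ i, i ≠ 0 → nZ (J m) (Near W' e (q i)) = 1 := by
    intro i hi
    have h2 := hk i
    rw [hYE, hEm, Finset.sum_eq_single i (fun b _ hb => if_neg fun h => hb (hqi h))
      (fun h => absurd (by simp [hi]) h), if_pos rfl] at h2
    exact h2
  have h2 : ∀ i, ∃ P ∈ Near W' e (q i), (i = 0 → P = q 0) ∧ (i ≠ 0 → mI P (J m) = 1) := by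
    intro i
    by_cases hi : i = 0
    · exact ⟨q i, near_self _ h10.1 _, fun _ => by rw [hi], fun h => absurd hi h⟩
    obtain ⟨P, h3, h4⟩ := exists_zero_of_nZ hPts cv (hJ0 m) (V := Near W' e (q i))
      (by rw [h1 i hi]; exact one_ne_zero)
    refine ⟨P, h3, fun h => absurd h hi, fun _ => ?_⟩
    have h5 := mI_le_nZ hPts cv (hJ0 m) h3
    have h6 := (mI_ne_zero hPts cv (hJ0 m) P).2 h4
    rw [h1 i hi] at h5
    omega
  choose P hP1 hP2 hP3 using h2
  have hPi : Function.Injective P := by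
    intro i i' h
    by_contra hne
    exact Set.disjoint_left.1 (hd _ ⟨i, rfl⟩ _ ⟨i', rfl⟩ fun h => hne (hqi h))
      (near_mono s2 h11.2.le _ (hP1 i)) (near_mono s2 h11.2.le _ (h ▸ hP1 i'))
  have hJm : ∀ P' : A →ₐ[F] Ω, mI P' (J m) =
      ∑ i ∈ univ.erase (0 : Fin (cv.g + 1)), if P i = P' then 1 else 0 := by
    intro P'
    by_cases h3 : ∃ i, i ≠ 0 ∧ P i = P'
    · obtain ⟨i, hi, rfl⟩ := h3
      rw [hP3 i hi, Finset.sum_eq_single i (fun b _ hb => if_neg fun h => hb (hPi h))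
        (fun h => absurd (by simp [hi]) h), if_pos rfl]
    · rw [Finset.sum_eq_zero fun i hi => if_neg fun h => h3 ⟨i, (Finset.mem_erase.1 hi).1, h⟩]
      have h4 : P' ∉ (univ.erase (0 : Fin (cv.g + 1))).image P := fun h => by
        obtain ⟨i, hi, h5⟩ := Finset.mem_image.1 h
        exact h3 ⟨i, (Finset.mem_erase.1 hi).1, h5⟩
      have h5 := sum_le_nZ hPts cv (hJ0 m) (V := Set.univ)
        (T := insert P' ((univ.erase (0 : Fin (cv.g + 1))).image P)) fun _ _ => Set.mem_univ _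
      rw [nZ_univ hPts cv (hJ0 m), Finset.sum_insert h4, Finset.sum_image hPi.injOn,
        Finset.sum_congr rfl fun i hi => hP3 i (Finset.mem_erase.1 hi).1, Finset.sum_const, hcard,
        smul_eq_mul, mul_one] at h5
      have := hJd m
      omega
  refine ⟨s m, j m + 1, P, hs0 m, by omega, hP2 0 rfl, fun i => near_mono s1 h10.2.le _ (hP1 i),
    fun P' => ?_⟩
  rw [hJ, mI_mul hPts cv (mul_ne_zero (pow_ne_zero _ hE0) (pow_ne_zero _ hR0)) (hJ0 m),
    mI_mul hPts cv (pow_ne_zero _ hE0) (pow_ne_zero _ hR0), mI_pow hPts cv hE0, mI_pow hPts cv hR0,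
    hJm, hEm, hkm, Finset.card_filter, Finset.card_filter,
    ← Finset.add_sum_erase _ _ (mem_univ (0 : Fin (cv.g + 1))),
    ← Finset.add_sum_erase univ _ (mem_univ (0 : Fin (cv.g + 1))), hP2 0 rfl, Nat.add_sub_cancel]
  simp only [hq]
  ring

end Pool.Agent.P.MP_b8021b_nt.VC
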