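import Pool.Agent.P.MP_b8021b_nt.VC.StH
import Pool.Agent.P.MP_b8021b_nt.VC.StS

/-! Unramified primes and the Eisenstein criterion. -/

namespace Pool.Agent.P.MP_b8021b_nt.VC

open Polynomial NumberField Finset Pool.Agent.P.MP_b8021b_nt.VE IsDedekindDomain

namespace Unr

theorem mem_of_ram (A K L B : Type) [CommRing A] [Field K] [CommRing B] [Field L] [Algebra A K]
    [Algebra B L] [Algebra A B] [Algebra K L] [Algebra A L] [IsScalarTower A K L]
    [IsScalarTower A B L] [IsDedekindDomain A] [IsFractionRing A K] [FiniteDimensional K L]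
    [Algebra.IsSeparable K L] [IsIntegralClosure B A L] [IsFractionRing B L]
    [IsDedekindDomain B] [Module.IsTorsionFree A B] [Module.Finite A B] {P : ℤ[X]} {M : ℕ}
    {x : B} (hS : Sep P M) (hx : aeval x P = 0)
    (hadj : Algebra.adjoin K {algebraMap B L x} = ⊤) {p : Ideal A} [p.IsMaximal] (hp : p ≠ ⊥)
    {Q : Ideal B} (h : p.map (algebraMap A B) ≤ Q ^ 2) : (M : B) ∈ Q := by
  have h1 := pow_sub_one_dvd_differentIdeal_aux A K L Q two_ne_zero hp (Ideal.dvd_iff_le.2 h)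
  have h2 : differentIdeal A B ≤ Q := by simpa using Ideal.dvd_iff_le.1 h1
  have h3 := h2 (aeval_derivative_mem_differentIdeal A K L x hadj)
  have hint : IsIntegral A x := Algebra.IsIntegral.isIntegral x
  have h4 : aeval x (P.map (algebraMap ℤ A)) = 0 := by rwa [aeval_map_algebraMap]
  obtain ⟨R, hR⟩ := minpoly.isIntegrallyClosed_dvd hint h4
  have h5 : aeval x (derivative P) ∈ Q := by
    have e := congrArg (fun f => aeval x (derivative f)) hR
    simp only [derivative_map, aeval_map_algebraMap, derivative_mul, map_add, map_mul,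
      minpoly.aeval, zero_mul, add_zero] at e
    rw [e]
    exact Q.mul_mem_right _ h3
  obtain ⟨a, b, hab⟩ := hS
  have e := congrArg (aeval x) hab
  simp only [map_add, map_mul, hx, mul_zero, zero_add, aeval_C, map_natCast] at e
  rw [← e]
  exact Q.mul_mem_left _ h5

theorem not_mem {B : Type} [CommRing B] {Q : Ideal B} (hQ : Q ≠ ⊤) {l : ℕ} (hl : l.Prime)
    (h : (l : B) ∈ Q) {c : ℤ} (hc : ¬ (l : ℤ) ∣ c) : (c : B) ∉ Q := by
  intro h2
  obtain ⟨u, v, e⟩ := (Nat.prime_iff_prime_int.1 hl).irreducible.coprime_iff_not_dvd.2 hc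
  have e2 := congrArg (Int.cast : ℤ → B) e
  push_cast at e2
  exact hQ ((Ideal.eq_top_iff_one _).2 (e2 ▸ Q.add_mem (Q.mul_mem_left _ h) (Q.mul_mem_left _ h2)))

theorem quad {k : Type} [Field k] [NumberField k] (K : IQ k) {l : ℕ} (hl : l.Prime)
    (hD : ¬ (l : ℤ) ∣ 2 * K.D) : Unram k l := by
  have hli := Nat.prime_iff_prime_int.1 hl
  have hmax : (Ideal.span {(l : ℤ)}).IsMaximal :=
    PrincipalIdealRing.isMaximal_of_irreducible hli.irreducible
  obtain ⟨Q, hQ, hQ2⟩ := Ideal.exists_ideal_over_maximal_of_isIntegral (S := 𝓞 k)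
    (Ideal.span {(l : ℤ)}) (by
      rw [(RingHom.injective_iff_ker_eq_bot _).1 (FaithfulSMul.algebraMap_injective ℤ (𝓞 k))]
      exact bot_le)
  have hlQ : (l : 𝓞 k) ∈ Q := by
    have : (l : ℤ) ∈ Q.comap (algebraMap ℤ (𝓞 k)) := hQ2 ▸ Ideal.mem_span_singleton_self _
    simpa using this
  refine ⟨Q, hQ, hlQ, fun h2 => ?_⟩
  have hsq : (K.ω : k) ^ 2 = K.D := by
    have := congrArg (algebraMap (𝓞 k) k) K.sq
    simpa using this
  have hadj : Algebra.adjoin ℚ {algebraMap (𝓞 k) k K.ω} = ⊤ := by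
    have hp : (Module.finrank ℚ k).Prime := K.deg ▸ Nat.prime_two
    have := IntermediateField.isSimpleOrder_of_finrank_prime ℚ k hp
    have hint : IsAlgebraic ℚ (algebraMap (𝓞 k) k K.ω) := Algebra.IsAlgebraic.isAlgebraic _
    rw [← IntermediateField.adjoin_simple_toSubalgebra_of_isAlgebraic hint]
    rcases eq_bot_or_eq_top (IntermediateField.adjoin ℚ {algebraMap (𝓞 k) k K.ω}) with h | h
    · obtain ⟨q, hq⟩ := IntermediateField.mem_bot.1
        (h ▸ IntermediateField.mem_adjoin_simple_self ℚ (algebraMap (𝓞 k) k K.ω))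
      have h3 : algebraMap ℚ k (q ^ 2) = algebraMap ℚ k K.D := by
        rw [map_pow, hq, map_intCast]; exact hsq
      have h4 := (algebraMap ℚ k).injective h3
      have h5 : (K.D : ℚ) < 0 := by exact_mod_cast K.neg
      nlinarith [sq_nonneg q]
    · rw [h]; rfl
  have hM := mem_of_ram ℤ ℚ k (𝓞 k) (P := X ^ 2 - C K.D) (M := (4 * K.D).natAbs) (x := K.ω)
    ⟨4, -(2 * X), by
      rw [Int.natCast_natAbs, abs_of_neg (by linarith [K.neg])]
      simp only [derivative_sub, derivative_X_pow, derivative_C, map_neg, map_mul, map_ofNat,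
        Nat.cast_ofNat]
      ring⟩ (by simp [K.sq]) hadj (p := Ideal.span {(l : ℤ)})
    (by simpa using hl.ne_zero) (Q := Q) (by
      rw [Ideal.map_span, Set.image_singleton, Ideal.span_singleton_le_iff_mem]
      simpa using h2)
  refine not_mem hQ.ne_top hl hlQ (c := ((4 * K.D).natAbs : ℕ)) (fun h3 => hD ?_)
    (by rw [Int.cast_natCast]; exact hM)
  rw [Int.dvd_natAbs, show 4 * K.D = 2 * (2 * K.D) by ring] at h3
  exact (hli.dvd_or_dvd h3).elim (fun h => h.mul_right _) id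

theorem eis (hE : S_Eis) {E : Type} [Field E] [NumberField E] {l : ℕ} {P : ℤ[X]} (hl : l.Prime)
    (hm : P.Monic) (hd : 1 ≤ P.natDegree) (hU : Unram E l) (hZ : EisZ l P) :
    Irreducible (P.map (Int.castRingHom E)) := by
  obtain ⟨Q, hQ, h1, h2⟩ := hU
  obtain ⟨m, hm1, ⟨c, hc⟩, hm3, hm4⟩ := hZ
  have hl0 : (l : 𝓞 E) ≠ 0 := by exact_mod_cast hl.ne_zero
  let w : HeightOneSpectrum (𝓞 E) :=
    ⟨Q, hQ.isPrime, fun h => hl0 (by rwa [h, Ideal.mem_bot] at h1)⟩
  have hint : ∀ z : ℤ, w.valuation E (z : E) = w.intValuation (z : 𝓞 E) := fun z => by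
    rw [← map_intCast (algebraMap (𝓞 E) E) z]
    exact w.valuation_of_algebraMap (K := E) _
  have hvl : w.intValuation (l : 𝓞 E) = WithZero.exp (-1) := by
    have a1 := (w.intValuation_le_pow_iff_mem (l : 𝓞 E) 1).2 (by simpa using h1)
    have a2 := (w.intValuation_le_pow_iff_mem (l : 𝓞 E) 2).not.2 h2
    rw [w.intValuation_if_neg hl0] at a1 a2 ⊢
    rw [WithZero.exp_le_exp] at a1 a2
    congr 1
    omega
  have hpow : ∀ n : ℕ, w.intValuation ((l : 𝓞 E) ^ (m * n)) = WithZero.exp (-(m : ℤ)) ^ n := by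
    intro n
    rw [map_pow, hvl, pow_mul, ← WithZero.exp_nsmul]
    simp
  have hdeg : (P.map (Int.castRingHom E)).natDegree = P.natDegree := hm.natDegree_map _
  refine hE E (w.valuation E) _ m (hm.map _) (hdeg ▸ hd) ⟨?_, ?_, fun j hj => ?_⟩
  · have hc2 : (c : 𝓞 E) ∉ Q := not_mem hQ.ne_top hl h1 fun h =>
      hm3 (by rw [hc, pow_succ]; exact mul_dvd_mul_left _ h)
    rw [coeff_map, eq_intCast, hint, hc]
    push_cast
    rw [map_mul, w.intValuation_eq_one_iff.2 hc2, mul_one]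
    simpa using hpow 1
  · rw [hdeg]
    exact Nat.isCoprime_iff_coprime.2 hm1
  · rw [hdeg] at hj ⊢
    obtain ⟨u, hu⟩ := hm4 j hj
    rw [coeff_map, eq_intCast, hint, ← map_pow, ← Int.cast_pow, hu]
    push_cast
    rw [map_mul, hpow]
    exact mul_le_of_le_one_right' (w.intValuation_le_one _)

end Unr

theorem p_unr (hE : S_Eis) : S_Unr := by
  refine ⟨fun k _ _ K l hl hD => Unr.quad K hl hD,
    fun E _ _ l P hl hm hd hU hZ => Unr.eis hE hl hm hd hU hZ, ?_⟩
  intro E E' _ _ _ _ _ P M θ hm hS hθ hadj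
  have hint : IsIntegral ℤ θ := ⟨P, hm, by rwa [← aeval_def]⟩
  have key : ∀ 𝔓 : Ideal (𝓞 E'), 𝔓.IsMaximal → RamP E 𝔓 → (M : 𝓞 E') ∈ 𝔓 := by
    intro 𝔓 h𝔓 hR
    have hmax := Ideal.isMaximal_comap_of_isIntegral_of_isMaximal (R := 𝓞 E) 𝔓
    refine Unr.mem_of_ram (𝓞 E) E E' (𝓞 E') (x := ⟨θ, hint⟩) hS ?_ hadj
      (Ring.ne_bot_of_isMaximal_of_not_isField hmax (RingOfIntegers.not_isField E)) hR
    apply FaithfulSMul.algebraMap_injective (𝓞 E') E'
    rw [← aeval_algebraMap_apply, map_zero]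
    exact hθ
  refine ⟨key, fun l hl hlM ⟨𝔩, h𝔩, h1, h2⟩ => ?_⟩
  obtain ⟨Q, hQ, hQ2⟩ := Ideal.exists_ideal_over_maximal_of_isIntegral (S := 𝓞 E') 𝔩 (by
    rw [(RingHom.injective_iff_ker_eq_bot _).1 (FaithfulSMul.algebraMap_injective (𝓞 E) (𝓞 E'))]
    exact bot_le)
  have hmem : ∀ y ∈ 𝔩, algebraMap (𝓞 E) (𝓞 E') y ∈ Q := fun y hy => by
    rwa [← hQ2] at hy
  have hlQ : (l : 𝓞 E') ∈ Q := by simpa using hmem _ h1
  refine ⟨Q, hQ, hlQ, fun h3 => ?_⟩
  refine Unr.not_mem hQ.ne_top hl hlQ (c := (M : ℕ)) (by exact_mod_cast hlM) ?_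
  rw [Int.cast_natCast]
  refine key Q hQ ?_
  obtain ⟨J, hJ⟩ := Ideal.dvd_iff_le.2 ((Ideal.span_singleton_le_iff_mem 𝔩).2 h1)
  obtain ⟨j, hj, hj2⟩ : ∃ j ∈ J, j ∉ 𝔩 := by
    by_contra hne
    push Not at hne
    refine h2 ?_
    rw [← Ideal.span_singleton_le_iff_mem, hJ, sq]
    exact Ideal.mul_mono_right hne
  obtain ⟨t, u, hu, e⟩ := h𝔩.exists_inv hj2
  unfold RamP
  rw [hQ2, Ideal.map_le_iff_le_comap]
  intro y hy
  obtain ⟨s, hs⟩ := Ideal.mem_span_singleton'.1 (hJ ▸ Ideal.mul_mem_mul hy hj)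
  have e2 : y = t * s * l + y * u := by
    rw [mul_assoc, hs]
    linear_combination (-y) * e
  rw [Ideal.mem_comap, e2, map_add, map_mul _ _ (l : 𝓞 E), map_natCast, map_mul _ y u]
  refine Ideal.add_mem _ (Ideal.mul_mem_left _ _ h3) ?_
  rw [sq]
  exact Ideal.mul_mem_mul (hmem y hy) (hmem u hu)

end Pool.Agent.P.MP_b8021b_nt.VC
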