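import Pool.Agent.P.MP_b8021b_nt.VC.PWW1

/-! Good tuples and factorisations. -/

namespace Pool.Agent.P.MP_b8021b_nt.VC

open Polynomial NumberField Finset Pool.Agent.P.MP_b8021b_nt.VE
open scoped Classical

namespace WW

variable {R : Type} [CommRing R] [Algebra ℤ[X] R]

lemma wS_nn (p : Par R) (S0 L : ℕ) (s : p.Co) : 0 ≤ wS p S0 L s :=
  prod_nonneg fun _ _ => div_nonneg (tent_nonneg _) (Nat.cast_nonneg _)

lemma size_L {F : Fix R} {c : Cfg} (hi : F.In c) (h1 : 1 ≤ c.y) (h2 : 2 / F.η ≤ c.y) :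
    c.y ^ (F.p.cE + 6) ≤ c.L := by
  have h3 : 2 ≤ c.η * c.y := by
    rw [hi.η, mul_comm]; exact (div_le_iff₀ F.ηpos).mp h2
  have h4 : 0 < c.η := hi.η ▸ F.ηpos
  have h5 : c.y ^ (F.p.cE + 6 + 1) ≤ c.S0 := le_trans (pow_le_pow_right₀ h1 (by
    have := F.hσ
    unfold Par.cE at this ⊢
    omega)) hi.S_ge
  have h6 := mul_le_mul_of_nonneg_left h5 h4.le
  have h7 : 0 ≤ c.y ^ (F.p.cE + 6) := by positivity
  have h8 := hi.L_ge
  rw [pow_succ] at h6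
  nlinarith

lemma err_le {y C d L : ℝ} {a : ℕ} (hC : 1 ≤ C) (hy : C ≤ y) (h0 : 0 ≤ d) (hd : d ≤ y ^ (a + 4))
    (hL : y ^ (a + 6) ≤ L) : d ≤ L ∧ C * (d / L) ≤ y⁻¹ := by
  have y1 : 1 ≤ y := hC.trans hy
  have y0 : 0 < y := by linarith
  have L0 : 0 < L := lt_of_lt_of_le (by positivity) hL
  refine ⟨hd.trans ((pow_le_pow_right₀ y1 (by omega)).trans hL), ?_⟩
  rw [← mul_div_assoc, div_le_iff₀ L0, inv_mul_eq_div, le_div_iff₀ y0]
  calc C * d * y ≤ y * y ^ (a + 4) * y :=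
        mul_le_mul_of_nonneg_right (mul_le_mul hy hd h0 y0.le) y0.le
    _ = y ^ (a + 6) := by ring
    _ ≤ L := hL

variable {p : Par R} {t : ℤ × ℤ} {k L : Type} [Field k] [NumberField k] [Algebra k ℂ] [Field L]
  [NumberField L] [Algebra k L]

/-- mass of the sections whose value lies in `𝔞` -/
noncomputable def mu (K : BF k) (Φ : Fb p t k L) (c : Cfg) (𝔞 : Ideal (𝓞 L)) : ℝ :=
  ∑ s ∈ Sset p c.S0 c.L with Φ.al K s ∈ 𝔞, wS p c.S0 c.L s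

omit [NumberField L] in
lemma mu_nn (K : BF k) (Φ : Fb p t k L) (c : Cfg) (𝔞 : Ideal (𝓞 L)) : 0 ≤ mu K Φ c 𝔞 :=
  sum_nonneg fun _ _ => wS_nn _ _ _ _

omit [NumberField L] in
/-- upper bound from the equidistribution of the coordinates -/
lemma mu_le (K : BF k) (Φ : Fb p t k L) (c : Cfg) (𝔞 : Ideal (𝓞 L)) (d : ℕ) (hd0 : 1 ≤ d) (ε : ℝ)
    (hε : ε ≤ 1) (hd : (d : 𝓞 L) ∈ 𝔞) (hz : ∀ m : ℤ, (m : 𝓞 L) ∈ 𝔞 → (d : ℤ) ∣ m)
    (h : ∀ S : Finset ((Fin p.e → ZMod d) × (Fin p.e → ZMod d)),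
      |∑ s ∈ Sset p c.S0 c.L with
          (fun i => (p.gt s t i : ZMod d), fun i => (p.ct s t i : ZMod d)) ∈ S,
          wS p c.S0 c.L s - S.card / (d : ℝ) ^ (2 * p.e)| ≤ ε * (S.card / (d : ℝ) ^ (2 * p.e))) :
    mu K Φ c 𝔞 * d ≤ 2 := by
  have : NeZero d := ⟨by omega⟩
  obtain ⟨S, h1, h2⟩ := dens Φ.η (K.om L) _ (eta_zero Φ) 𝔞 hd hz
  have h3 := (abs_le.1 (h S)).2
  have d0 : (0 : ℝ) < d := by exact_mod_cast hd0
  have h4 : mu K Φ c 𝔞 ≤ ∑ s ∈ Sset p c.S0 c.L with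
      (fun i => (p.gt s t i : ZMod d), fun i => (p.ct s t i : ZMod d)) ∈ S, wS p c.S0 c.L s :=
    sum_le_sum_of_subset_of_nonneg (fun s hs => mem_filter.2
      ⟨(mem_filter.1 hs).1, h2 _ _ (mem_filter.1 hs).2⟩) fun _ _ _ => wS_nn _ _ _ _
  have h5 : (S.card : ℝ) / (d : ℝ) ^ (2 * p.e) * d ≤ 1 := by
    rw [div_mul_eq_mul_div, div_le_one (by positivity)]
    exact_mod_cast h1
  have h6 : (0 : ℝ) ≤ S.card / (d : ℝ) ^ (2 * p.e) := by positivity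
  have h7 : mu K Φ c 𝔞 ≤ 2 * (S.card / (d : ℝ) ^ (2 * p.e)) := by nlinarith
  nlinarith

lemma div_bound {μ κ l m : ℝ} (h0 : 0 ≤ μ) (hκ : 0 ≤ κ) (hl : 0 < l) (hm : l ≤ m)
    (h : μ * (κ * m) ≤ 2) : κ * μ ≤ 2 / l := by
  rw [le_div_iff₀ hl]
  have := mul_le_mul_of_nonneg_left hm (mul_nonneg h0 hκ)
  nlinarith

end WW

open WW in
theorem p_wW (hDeg : S_Deg) (hQF : S_QF) (hSEq : S_SEq) (hFlat : S_Flat) (hIdD : S_IdD) : S_WW := by
  intro R _ _ F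
  obtain ⟨C₁, hC₁, hS⟩ := hSEq R F.p
  obtain ⟨C₂, hC₂, hI⟩ := hIdD R F.p
  obtain ⟨-, C₃, -, hF⟩ := hFlat R F.p
  obtain ⟨y₃, hF⟩ := hF F rfl
  have e0 : (0 : ℝ) ≤ F.p.e := Nat.cast_nonneg _
  refine ⟨1 + 4 * F.p.e * F.p.cE + 16 * F.p.e * (2 * F.p.e + 1),
    by have : (0 : ℝ) ≤ 4 * F.p.e * F.p.cE + 16 * F.p.e * (2 * F.p.e + 1) := by positivity
       linarith,
    max (max y₃ (max C₁ C₂)) (max (2 / F.η) (max 4 (F.p.e : ℝ))), ?_⟩
  intro c hc hi k _ _ _ K x x' t t' L _ _ _ Φ 𝔮 hD hQ hdl h𝔮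
  simp only [max_le_iff] at hc
  obtain ⟨⟨c1, c2, c3⟩, c4, hy, c6⟩ := hc
  obtain ⟨-, f2, f3, -⟩ := hF c c1 hi
  obtain ⟨adm, -, -, -, -, hM0, hMb, -⟩ := f2 t hQ.ht
  obtain ⟨n5, n1, -, -, n4⟩ := f3 x x' t t' hQ
  replace n4 := n4 hdl
  obtain ⟨-, -, Q2, Q3, Q4, Q5, -, -, Q6⟩ := hQF R F.p k K t L Φ hD adm
  obtain ⟨-, Q7, Q8, Q9⟩ := Q6 𝔮 h𝔮
  have D9 := fun s => (hDeg R F.p).2.2.2.2.2.2.2.2 s t adm
  obtain ⟨xP, xI⟩ := mem_Xset.mp hQ.hx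
  obtain ⟨xP', xI'⟩ := mem_Xset.mp hQ.hx'
  have y1 : 1 ≤ c.y := by linarith
  have y0 : 0 < c.y := by linarith
  have hP := fun q => mem_Pset (N := c.N) (q := q) y1
  obtain ⟨q1, q2, q3⟩ := hP _ xP
  obtain ⟨q1', q2', q3'⟩ := hP _ xP'
  obtain ⟨J1, J2, J3⟩ := Q3 x xI hQ.o11
  obtain ⟨J1', J2', J3'⟩ := Q3 x' xI' hQ.o21
  have hr := F.p.hr
  have hre := F.p.re
  have hL := size_L hi y1 c4
  have hfin : Module.finrank ℚ L = 2 * F.p.e := by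
    rw [← Module.finrank_mul_finrank ℚ k L, K.deg, Φ.fin]
  have κ0 : (0 : ℝ) ≤ x.1 * x'.1 := by positivity
  have κ1 : (x.1 * x'.1 : ℝ) ≤ c.y ^ 4 := by
    calc (x.1 * x'.1 : ℝ) ≤ c.y ^ 2 * c.y ^ 2 :=
          mul_le_mul (by nlinarith) (by nlinarith) (by positivity) (by positivity)
      _ = c.y ^ 4 := by ring
  set n := nn F.p x x' t t' with hn
  set J := Φ.J K x with hJ
  set J' := Φ.J K x' with hJ'
  have n0 : n ≠ 0 := by omega
  have n2 : x.1 ∣ n := Int.natCast_dvd.1 ⟨2 * (F.p.r : ℤ) ^ (F.p.n0 + 1) * x'.1 * F.p.Gt t *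
    F.p.Gt t' * dl t t' * F.p.Dt t * F.p.Dt t' * t.2 * t'.2, by ring⟩
  have n3 : x'.1 ∣ n := Int.natCast_dvd.1 ⟨2 * (F.p.r : ℤ) ^ (F.p.n0 + 1) * x.1 * F.p.Gt t *
    F.p.Gt t' * dl t t' * F.p.Dt t * F.p.Dt t' * t.2 * t'.2, by ring⟩
  have r1 : ∀ z : F.p.Pn, F.p.IsPt z → F.p.r ≠ z.1 := fun z hz h =>
    hz.2.1 (h ▸ dvd_mul_left _ _)
  have m1 : x.1.Coprime (F.p.Mb t) := q1.coprime_iff_not_dvd.2 fun h => J2 (Int.natCast_dvd.2 h)
  have m1' : x'.1.Coprime (F.p.Mb t) := q1'.coprime_iff_not_dvd.2 fun h => J2' (Int.natCast_dvd.2 h)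
  have qq : x.1.Coprime x'.1 := (Nat.coprime_primes q1 q1').mpr hQ.ne
  have jm : ((x.1 * x'.1 : ℕ) : 𝓞 L) ∈ J * J' := by
    rw [Nat.cast_mul]
    exact Ideal.mul_mem_mul (J1 ▸ Ideal.absNorm_mem J) (J1' ▸ Ideal.absNorm_mem J')
  have jj : ∀ α, α ∈ J * J' ↔ α ∈ J ∧ α ∈ J' := fun α => by
    rw [Ideal.mul_eq_inf_of_isCoprime (Ww.cop_of_norm J J' (by rwa [J1, J1'])), Ideal.mem_inf]
  have ha : Ideal.absNorm (Φ.a0 K 𝔮 x x') = F.p.r ^ F.p.e0 * x.1 * x'.1 := by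
    unfold Fb.a0
    rw [map_mul, map_mul, map_pow, Q7, J1, J1']
  have hm : ∀ s, F.p.OnS x s ∧ F.p.OnS x' s ↔ Φ.al K s ∈ Φ.a0 K 𝔮 x x' := by
    intro s
    unfold Fb.a0
    rw [Ww.mem_mul3, J3, J3']
    · exact ⟨fun h => ⟨Q8 s, h⟩, fun h => h.2⟩
    · rw [map_pow, Q7, J1]
      exact Nat.Coprime.pow_left _ ((Nat.coprime_primes hr q1).mpr (r1 x xI))
    · rw [map_pow, Q7, J1']
      exact Nat.Coprime.pow_left _ ((Nat.coprime_primes hr q1').mpr (r1 x' xI'))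
    · rwa [J1, J1']
  -- the two sources of upper bounds
  have muA : ∀ (d : ℕ) (A : Ideal (𝓞 L)), 1 ≤ d → (d : ℝ) ≤ c.y ^ F.p.cE → d.Coprime (F.p.Mb t) →
      (d : 𝓞 L) ∈ A → |mu K Φ c (J * J' * A) * (x.1 * x'.1 * Ideal.absNorm A) - 1| ≤ c.y⁻¹ := by
    intro d A h1 h2 h3 h4
    have h5 : ((x.1 * x'.1 * d : ℕ) : ℝ) ≤ c.y ^ (F.p.cE + 4) := by
      push_cast
      rw [add_comm, pow_add]
      exact mul_le_mul κ1 h2 (by positivity) (by positivity)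
    obtain ⟨h6, h7⟩ := err_le hC₂ c3 (Nat.cast_nonneg _) h5 hL
    have h8 := hI k K t L Φ c.S0 c.L (x.1 * x'.1 * d) (J * J' * A) hD adm
      (Nat.mul_pos (Nat.mul_pos q1.pos q1'.pos) h1) (by exact_mod_cast h6)
      ((m1.mul_left m1').mul_left h3) (by rw [Nat.cast_mul]; exact Ideal.mul_mem_mul jm h4)
    rw [map_mul, map_mul, J1, J1'] at h8
    push_cast at h8 h7
    exact h8.trans h7
  have muA' : ∀ (d : ℕ) (A : Ideal (𝓞 L)), 1 ≤ d → (d : ℝ) ≤ c.y ^ F.p.cE → d.Coprime (F.p.Mb t) →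
      (d : 𝓞 L) ∈ A → d ≤ Ideal.absNorm A → (x.1 * x'.1 : ℝ) * mu K Φ c (J * J' * A) ≤ 2 / d := by
    intro d A h1 h2 h3 h4 h5
    have h6 := (abs_le.1 (muA d A h1 h2 h3 h4)).2
    have h7 : c.y⁻¹ ≤ 1 := inv_le_one_of_one_le₀ y1
    exact div_bound (m := Ideal.absNorm A) (mu_nn _ _ _ _) κ0 (by exact_mod_cast h1)
      (by exact_mod_cast h5) (by linarith)
  have key : ∀ (l : ℕ) (P : Ideal (𝓞 L)), l.Prime → l ≠ F.p.r → ¬ (l : ℤ) ∣ F.p.Gt t → l ∣ n →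
      (l : 𝓞 L) ∈ P → l ≤ Ideal.absNorm P → (∀ m : ℤ, (m : 𝓞 L) ∈ P → (l : ℤ) ∣ m) →
      (x.1 * x'.1 : ℝ) * mu K Φ c (J * J' * P) ≤ 2 / l := by
    intro l P hl hlr hlG hln h1 h2 h3
    have h4 : (l : ℝ) ≤ c.y ^ F.p.cE :=
      le_trans (by exact_mod_cast Nat.le_of_dvd (Nat.pos_of_ne_zero n0) hln) n5
    by_cases h5 : l = x.1
    · exact muA' l P hl.pos h4 (h5 ▸ m1) h1 h2
    by_cases h6 : l = x'.1
    · exact muA' l P hl.pos h4 (h6 ▸ m1') h1 h2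
    have h7 : ((x.1 * x'.1 * l : ℕ) : ℝ) ≤ c.y ^ (F.p.cE + 4) := by
      push_cast
      rw [add_comm, pow_add]
      exact mul_le_mul κ1 h4 (by positivity) (by positivity)
    obtain ⟨h8, h9⟩ := err_le hC₁ c2 (Nat.cast_nonneg _) h7 hL
    have d1 : 1 ≤ x.1 * x'.1 * l := Nat.mul_pos (Nat.mul_pos q1.pos q1'.pos) hl.pos
    have cp : ∀ q : ℕ, q.Prime → q ≠ F.p.r → ¬ (q : ℤ) ∣ F.p.Gt t →
        IsCoprime (q : ℤ) (F.p.Gt t * F.p.r) := fun q hq a b =>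
      ((Nat.prime_iff_prime_int.mp hq).irreducible.coprime_iff_not_dvd.mpr b).mul_right
        (Nat.isCoprime_iff_coprime.mpr ((Nat.coprime_primes hq hr).mpr a))
    have h10 := mu_le K Φ c (J * J' * P) (x.1 * x'.1 * l) d1 _
      (h9.trans (inv_le_one_of_one_le₀ y1))
      (by rw [Nat.cast_mul]; exact Ideal.mul_mem_mul jm h1) (fun m hm' => by
        obtain ⟨a1, a2⟩ := (jj _).1 (Ideal.mul_le_left hm')
        exact Int.natCast_dvd.2 ((Nat.Coprime.mul_left ((Nat.coprime_primes q1 hl).2 (Ne.symm h5))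
          ((Nat.coprime_primes q1' hl).2 (Ne.symm h6))).mul_dvd_of_dvd_of_dvd
          (qq.mul_dvd_of_dvd_of_dvd (Int.natCast_dvd.1 ((Ww.int_mem_iff J _ q1 J1 m).1 a1))
            (Int.natCast_dvd.1 ((Ww.int_mem_iff J' _ q1' J1' m).1 a2)))
          (Int.natCast_dvd.1 (h3 m (Ideal.mul_le_right hm')))))
      fun S => (hS c.S0 c.L _ d1 (by exact_mod_cast h8)).2.2 t S (by
        push_cast
        exact ((cp _ q1 (r1 x xI).symm fun h => J2 ((h.mul_left _).mul_right _)).mul_left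
          (cp _ q1' (r1 x' xI').symm fun h => J2' ((h.mul_left _).mul_right _))).mul_left
          (cp _ hl hlr hlG))
    push_cast at h10
    exact div_bound (mu_nn _ _ _ _) κ0 (by exact_mod_cast hl.pos) le_rfl h10
  have exT := fun l : ℕ => fun hl : l.Prime => exists_T L l hl
  have exT2 := fun l : ℕ => fun hl : l.Prime => exists_T2 L l hl
  choose! T T1 T2 T3 using exT
  choose! U U1 U2 U3 using exT2
  rw [hfin] at T1 U1
  have key1 : ∀ l : ℕ, l.Prime → l ≠ F.p.r → ¬ (l : ℤ) ∣ F.p.Gt t → l ∣ n →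
      (x.1 * x'.1 : ℝ) * ∑ s ∈ Sset F.p c.S0 c.L with ∃ P ∈ T l, Φ.al K s ∈ J * J' * P,
        wS F.p c.S0 c.L s ≤ 4 * F.p.e / l := by
    intro l hl h1 h2 h3
    refine (mul_le_mul_of_nonneg_left (ub2 _ _ (wS_nn _ _ _) _ _) κ0).trans ?_
    rw [mul_sum]
    refine (sum_le_card_nsmul _ _ (2 / l : ℝ) fun P hP =>
      key l P hl h1 h2 h3 (T2 l hl P hP).1 (T2 l hl P hP).2.1 (T2 l hl P hP).2.2).trans ?_
    have h4 : ((T l).card : ℝ) ≤ 2 * F.p.e := by exact_mod_cast T1 l hl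
    rw [nsmul_eq_mul]
    refine (mul_le_mul_of_nonneg_right h4 (by positivity)).trans_eq (by ring)
  have key2 : ∀ l ∈ Pset c.y c.N, ¬ l ∣ n →
      (x.1 * x'.1 : ℝ) * ∑ s ∈ Sset F.p c.S0 c.L with ∃ A ∈ U l, Φ.al K s ∈ J * J' * A,
        wS F.p c.S0 c.L s ≤ 4 * F.p.e * (2 * F.p.e + 1) / c.y ^ 2 := by
    intro l hl h1
    obtain ⟨l1, l2, l3⟩ := hP l hl
    refine (mul_le_mul_of_nonneg_left (ub2 _ _ (wS_nn _ _ _) _ _) κ0).trans ?_
    rw [mul_sum]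
    refine (sum_le_card_nsmul _ _ (2 / c.y ^ 2 : ℝ) fun A hA => (muA' (l ^ 2) A (pow_pos l1.pos 2) ?_
      (Nat.Coprime.pow_left 2 (l1.coprime_iff_not_dvd.2 fun h => h1 (h.trans n1)))
      (U2 l l1 A hA).1 (U2 l l1 A hA).2).trans ?_).trans ?_
    · push_cast
      calc (l : ℝ) ^ 2 ≤ (c.y ^ 2) ^ 2 := pow_le_pow_left₀ (by positivity) (by nlinarith) 2
        _ = c.y ^ 4 := by ring
        _ ≤ c.y ^ F.p.cE := pow_le_pow_right₀ y1 (by unfold Par.cE; omega)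
    · push_cast
      exact div_le_div_of_nonneg_left (by norm_num) (by positivity) (pow_le_pow_left₀ y0.le l2 2)
    · have h4 : ((U l).card : ℝ) ≤ 2 * F.p.e * (2 * F.p.e + 1) := by exact_mod_cast U1 l l1
      rw [nsmul_eq_mul]
      refine (mul_le_mul_of_nonneg_right h4 (by positivity)).trans_eq (by ring)
  have inP : ∀ (s : F.p.Co) (𝔠 P : Ideal (𝓞 L)), Ideal.span {Φ.al K s} = J * J' * 𝔠 → P ∣ 𝔠 →
      Φ.al K s ∈ J * J' * P := fun s 𝔠 P h1 h2 =>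
    Ideal.dvd_span_singleton.1 (h1 ▸ mul_dvd_mul_left _ h2)
  have nG : ∀ (s : F.p.Co) (𝔠 : Ideal (𝓞 L)) (l : ℕ), Ideal.span {Φ.al K s} = J * J' * 𝔠 →
      l.Prime → l ≠ F.p.r → l ∣ Ideal.absNorm 𝔠 → ¬ (l : ℤ) ∣ F.p.Gt t := by
    intro s 𝔠 l h1 h2 h3 h4 h5
    refine (D9 s).2.2.2.2.2.2 l h2 h3 hQ.pr h5 ?_
    rw [← Q2 s, h1, map_mul]
    exact Int.natCast_dvd_natCast.2 (h4.mul_left _)
  refine ⟨ha, hm, ?_, ?_, ?_⟩
  · have h1 := muA 1 ⊤ le_rfl (by push_cast; exact one_le_pow₀ y1) (Nat.coprime_one_left _)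
      Submodule.mem_top
    rw [Ideal.mul_top, Ideal.absNorm_top, Nat.cast_one, mul_one, mu, sum_mul] at h1
    unfold Es
    rw [sum_congr (s₂ := (Sset F.p c.S0 c.L).filter fun s => Φ.al K s ∈ J * J')
      (by ext s; simp only [mem_filter, jj, J3, J3']) fun s _ => mul_one _]
    exact h1
  · unfold Es
    refine (Ww.union_bound _ _ (wS_nn _ _ _) _ κ0 _ _
      ((n.primeFactors.filter fun l => c.z < l).filter fun l : ℕ => ¬ (l : ℤ) ∣ F.p.Gt t)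
      (fun l s => ∃ P ∈ T l, Φ.al K s ∈ J * J' * P) fun s hs hU => ?_).trans
      (le_trans (sum_le_sum fun l hl => ?_) ((sum_le_sum_of_subset_of_nonneg (filter_subset _ _)
        fun l _ _ => by positivity).trans (Ww.sum_le_prod _ (fun l : ℕ => 20 * F.p.e / (l : ℝ))
        fun l => by positivity)))
    · obtain ⟨𝔟, hb⟩ := Ideal.dvd_span_singleton.mpr ((hm s).mp hs)
      have h1 : ¬ (Ideal.absNorm 𝔟).Coprime n := fun h => hU ⟨𝔟, hb, cop_iff_coprime.mpr h⟩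
      obtain ⟨l, hl, h2, h3⟩ := Nat.Prime.not_coprime_iff_dvd.mp h1
      have h5 : l ≠ F.p.r := by
        rintro rfl
        obtain ⟨j, hj⟩ := h2
        refine (D9 s).2.1 ⟨x.1 * x'.1 * j, ?_⟩
        rw [← Q2 s, hb, map_mul, ha, hj]
        push_cast
        ring
      have h6 : Ideal.span {Φ.al K s} = J * J' * (𝔮 ^ F.p.e0 * 𝔟) := by
        rw [hb, Fb.a0]; ring
      have h7 := nG s _ l h6 hl h5 (by rw [map_mul]; exact h2.mul_left _)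
      obtain ⟨P, h8, h9⟩ := T3 l hl 𝔟 h2
      refine ⟨l, mem_filter.mpr ⟨mem_filter.mpr ⟨Nat.mem_primeFactors.mpr ⟨hl, h3, n0⟩, ?_⟩, h7⟩,
        P, h8, inP s _ P h6 (h9.mul_left _)⟩
      by_contra h10
      exact h7 ((Int.natCast_dvd_natCast.mpr (dvd_M0 hl (not_lt.mp h10) h5)).trans hM0)
    · obtain ⟨h0, h1⟩ := mem_filter.mp hl
      obtain ⟨h2, h3⟩ := mem_filter.mp h0
      obtain ⟨h4, h5, -⟩ := Nat.mem_primeFactors.mp h2
      have := F.hz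
      rw [hi.z] at h3
      refine (key1 l h4 (by omega) h1 h5).trans
        (div_le_div_of_nonneg_right (by linarith) (by positivity))
  · unfold Es
    have lr : ∀ l ∈ Pset c.y c.N, l ≠ F.p.r := fun l hl h => by
      have h1 := (hP l hl).2.1
      have h2 : (F.p.r : ℝ) < F.p.e := by exact_mod_cast hre
      rw [h] at h1
      linarith
    refine (Ww.union_bound _ _ (wS_nn _ _ _) _ κ0 _ _ (Pset c.y c.N)
      (fun l s => if l ∣ n then ¬ (l : ℤ) ∣ F.p.Gt t ∧ ∃ P ∈ T l, Φ.al K s ∈ J * J' * P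
        else ∃ A ∈ U l, Φ.al K s ∈ J * J' * A) fun s hs hU => ?_).trans
      (le_trans (sum_le_sum (g := fun l => (if l ∣ n then 4 * F.p.e / c.y else 0) +
        4 * F.p.e * (2 * F.p.e + 1) / c.y ^ 2) fun l hl => ?_) ?_)
    · by_contra hcon
      refine hU (wg_eq K Φ c F.u n s x x' 𝔮 (fun q hq => (hP q hq).1) xI xI' hQ.o11 hQ.o21
        hQ.ne hs.1 hs.2 (Q2 s) (fun z h1 h2 => ⟨(Q3 z h1 h2).1, (Q3 z h1 h2).2.2 s⟩) Q4 Q5
        (Q9 _ s) ha n1 n2 n3 (fun l hl h1 h2 => hcon ⟨l, hl, ?_⟩)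
        fun 𝔠 h1 l hl h2 h3 => hcon ⟨l, hl, ?_⟩)
      · obtain ⟨𝔠, h3⟩ := Ideal.dvd_span_singleton.mpr ((jj _).2 ⟨(J3 s).1 hs.1, (J3' s).1 hs.2⟩)
        have l1 := (hP l hl).1
        rw [← Q2 s, h3, map_mul, map_mul, J1, J1'] at h2
        have h4 : l ^ 2 ∣ x.1 * x'.1 * Ideal.absNorm 𝔠 := by exact_mod_cast h2
        obtain ⟨A, h5, h6⟩ := U3 l l1 𝔠 ((Nat.Coprime.pow_left 2 (Nat.Coprime.mul_right
          ((Nat.coprime_primes l1 q1).2 fun h => h1 (h ▸ n2))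
          ((Nat.coprime_primes l1 q1').2 fun h => h1 (h ▸ n3)))).dvd_of_dvd_mul_left h4)
        rw [if_neg h1]
        exact ⟨A, h5, inP s 𝔠 A h3 h6⟩
      · have l1 := (hP l hl).1
        obtain ⟨P, h4, h5⟩ := T3 l l1 𝔠 h3
        rw [if_pos h2]
        exact ⟨nG s 𝔠 l h1 l1 (lr l hl) h3, P, h4, inP s 𝔠 P h1 h5⟩
    · obtain ⟨l1, l2, l3⟩ := hP l hl
      have p6 : 0 ≤ 4 * F.p.e * (2 * F.p.e + 1) / c.y ^ 2 := by positivity
      by_cases hln : l ∣ n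
      · rw [if_pos hln]
        by_cases hG : (l : ℤ) ∣ F.p.Gt t
        · rw [sum_eq_zero fun s hs => absurd hG (by
            have := (mem_filter.mp hs).2
            rw [if_pos hln] at this
            exact this.1), mul_zero]
          positivity
        refine le_trans (mul_le_mul_of_nonneg_left (sum_le_sum_of_subset_of_nonneg
          (fun s hs => ?_) fun s _ _ => wS_nn _ _ _ _) κ0) ((key1 l l1 (lr l hl) hG hln).trans ?_)
        · obtain ⟨h1, h2⟩ := mem_filter.mp hs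
          rw [if_pos hln] at h2
          exact mem_filter.mpr ⟨h1, h2.2⟩
        · exact le_add_of_le_of_nonneg (div_le_div_of_nonneg_left (by positivity) y0 l2) p6
      · rw [if_neg hln, zero_add]
        refine le_trans (mul_le_mul_of_nonneg_left (sum_le_sum_of_subset_of_nonneg
          (fun s hs => ?_) fun s _ _ => wS_nn _ _ _ _) κ0) (key2 l hl hln)
        obtain ⟨h1, h2⟩ := mem_filter.mp hs
        rw [if_neg hln] at h2
        exact mem_filter.mpr ⟨h1, h2⟩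
    · rw [sum_add_distrib, ← sum_filter, sum_const, sum_const, nsmul_eq_mul, nsmul_eq_mul]
      have h1 := Ww.card_dvd_le ((Pset c.y c.N).filter fun l => l ∣ n) c.y (by linarith) n F.p.cE
        n0 n5 fun l hl => ⟨(hP l (mem_filter.mp hl).1).1, (hP l (mem_filter.mp hl).1).2.1,
          (mem_filter.mp hl).2⟩
      have h2 : ((((Pset c.y c.N).filter fun l => l ∣ n).card : ℕ) : ℝ) ≤ F.p.cE := by
        exact_mod_cast h1
      have h3 := card_Pset c.y c.N (by linarith)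
      refine le_trans (add_le_add (mul_le_mul_of_nonneg_right h2 (by positivity))
        (mul_le_mul_of_nonneg_right h3 (by positivity))) ?_
      rw [show (F.p.cE : ℝ) * (4 * F.p.e / c.y) + 4 * c.y * (4 * F.p.e * (2 * F.p.e + 1) / c.y ^ 2) =
        (4 * F.p.e * F.p.cE + 16 * F.p.e * (2 * F.p.e + 1)) / c.y by field_simp; ring]
      exact div_le_div_of_nonneg_right (by linarith) y0.le

end Pool.Agent.P.MP_b8021b_nt.VC
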