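import Pool.Agent.P.MP_b8021b_nt.VC.StT
import Pool.Agent.P.MP_b8021b_nt.VC.BasicA
import Pool.Agent.P.MP_b8021b_nt.VE.PIqb1

/-! Coordinates and embeddings are uniformly comparable. -/

namespace Pool.Agent.P.MP_b8021b_nt.VC

open Polynomial NumberField Finset Pool.Agent.P.MP_b8021b_nt.VE
open scoped Classical ComplexConjugate

noncomputable section

namespace Wc

theorem bdd {J : Type} [Fintype J] (a : J → ℤ[X]) (u v : ℝ) :
    ∃ B : ℝ, 0 ≤ B ∧ ∀ j, ∀ τ : ℝ, u ≤ τ → τ ≤ v → ‖aeval (τ : ℂ) (a j)‖ ≤ B := by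
  have h : ∀ j, ∃ B : ℝ, ∀ τ ∈ Set.Icc u v, ‖aeval ((τ : ℝ) : ℂ) (a j)‖ ≤ B := fun j =>
    isCompact_Icc.exists_bound_of_continuousOn
      (((a j).continuous_aeval.comp Complex.continuous_ofReal).continuousOn)
  choose B hB using h
  refine ⟨∑ j, |B j|, sum_nonneg fun _ _ => abs_nonneg _, fun j τ h1 h2 => ?_⟩
  exact (hB j τ ⟨h1, h2⟩).trans ((le_abs_self _).trans
    (single_le_sum (f := fun j => |B j|) (fun _ _ => abs_nonneg _) (mem_univ j)))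

theorem bdd_inv (a : ℤ[X]) (u v : ℝ) (h : ∀ τ : ℝ, u ≤ τ → τ ≤ v → aeval τ a ≠ 0) :
    ∃ B : ℝ, 0 ≤ B ∧ ∀ τ : ℝ, u ≤ τ → τ ≤ v →
      aeval (τ : ℂ) a ≠ 0 ∧ ‖(aeval (τ : ℂ) a)⁻¹‖ ≤ B := by
  have h0 : ∀ τ ∈ Set.Icc u v, aeval ((τ : ℝ) : ℂ) a ≠ 0 := fun τ hτ e => by
    have h1 : aeval ((τ : ℝ) : ℂ) a = ((aeval τ a : ℝ) : ℂ) := aeval_algebraMap_apply ℂ τ a
    rw [h1] at e
    exact h τ hτ.1 hτ.2 (by exact_mod_cast e)
  obtain ⟨B, hB⟩ := isCompact_Icc.exists_bound_of_continuousOn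
    (f := fun τ : ℝ => (aeval (τ : ℂ) a)⁻¹)
    (((a.continuous_aeval.comp Complex.continuous_ofReal).continuousOn).inv₀ h0)
  exact ⟨|B|, abs_nonneg _, fun τ h1 h2 => ⟨h0 τ ⟨h1, h2⟩, (hB τ ⟨h1, h2⟩).trans (le_abs_self _)⟩⟩

variable {R : Type} [CommRing R] [Algebra ℤ[X] R]

theorem map_repr (T : Tab R) (f : R →+* ℂ) (x : R) :
    f x = ∑ l, aeval (f (zR R)) (T.y.repr x l) * f (T.y l) := by
  conv_lhs => rw [← T.el_repr x, T.map_el]

theorem bdd_y (T : Tab R) (u v : ℝ) : ∃ B : ℝ, 0 ≤ B ∧ ∀ (f : R →+* ℂ) (τ : ℝ), u ≤ τ → τ ≤ v →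
    f (zR R) = τ → ∀ i, ‖f (T.y i)‖ ≤ B := by
  obtain ⟨K, hK0, hK⟩ := bdd (fun j : Fin T.e × Fin T.e × Fin T.e =>
    T.y.repr (T.y j.1 * T.y j.2.1) j.2.2) u v
  refine ⟨T.e * K, by positivity, fun f τ h1 h2 hf i => ?_⟩
  obtain ⟨j, -, hj⟩ := exists_max_image univ (fun j => ‖f (T.y j)‖) ⟨i, mem_univ i⟩
  have hpos : 0 < ‖f (T.y j)‖ := by
    have := hj T.i0 (mem_univ _)
    rw [T.y_i0, map_one, norm_one] at this
    linarith
  have h3 : ‖f (T.y i)‖ * ‖f (T.y j)‖ ≤ T.e * K * ‖f (T.y j)‖ := by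
    rw [← norm_mul, ← map_mul, map_repr T f, hf]
    refine (norm_sum_le _ _).trans ?_
    refine (sum_le_sum (g := fun _ => K * ‖f (T.y j)‖) fun l _ => ?_).trans (by simp [mul_assoc])
    rw [norm_mul]
    exact mul_le_mul (hK (i, j, l) τ h1 h2) (hj l (mem_univ l)) (norm_nonneg _) hK0
  exact le_of_mul_le_mul_right h3 hpos

theorem bdd_el (T : Tab R) (u v : ℝ) (x : R) : ∃ B : ℝ, 0 ≤ B ∧ ∀ (f : R →+* ℂ) (τ : ℝ), u ≤ τ →
    τ ≤ v → f (zR R) = τ → ‖f x‖ ≤ B := by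
  obtain ⟨K, hK0, hK⟩ := bdd (fun l => T.y.repr x l) u v
  obtain ⟨B, hB0, hB⟩ := bdd_y T u v
  refine ⟨T.e * (K * B), by positivity, fun f τ h1 h2 hf => ?_⟩
  rw [map_repr T f, hf]
  refine (norm_sum_le _ _).trans ?_
  refine (sum_le_sum (g := fun _ => K * B) fun l _ => ?_).trans (by simp)
  rw [norm_mul]
  exact mul_le_mul (hK l τ h1 h2) (hB f τ h1 h2 hf l) (norm_nonneg _) hK0

theorem map_aeval (f : R →+* ℂ) (x : R) (Q : ℤ[X][X]) :
    f (aeval x Q) = (Q.map (aeval (f (zR R)) : ℤ[X] →ₐ[ℤ] ℂ).toRingHom).eval (f x) := by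
  have h : f.comp (algebraMap ℤ[X] R) = (aeval (f (zR R)) : ℤ[X] →ₐ[ℤ] ℂ).toRingHom :=
    RingHom.ext fun g => map_alg f g
  rw [aeval_def, hom_eval₂, h, eval₂_eq_eval_map]

theorem core (p : Mod R) : ∃ C : ℝ, 1 ≤ C ∧ ∀ τ : ℝ, p.τ0 ≤ τ → τ ≤ p.τ0 + 1 →
    ∀ (ι : Type) [Fintype ι] (f : ι → R →+* ℂ), (∀ φ, f φ (zR R) = τ) → Fintype.card ι = p.e →
    p.toTab.P.map (aeval (τ : ℂ) : ℤ[X] →ₐ[ℤ] ℂ).toRingHom =
      Lagrange.nodal univ (fun φ => f φ (p.y p.toTab.i1)) →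
    (∀ i φ, ‖f φ (p.y i)‖ ≤ C) ∧ ∀ (w : Fin p.e → ℂ) (M : ℝ),
      (∀ φ, ‖∑ i, w i * f φ (p.y i)‖ ≤ M) → ∀ i, ‖w i‖ ≤ C * M := by
  obtain ⟨a, b, hab⟩ := p.sepX
  obtain ⟨B, hB0, hB⟩ := bdd_y p.toTab p.τ0 (p.τ0 + 1)
  obtain ⟨K, hK0, hK⟩ := bdd (fun j : Fin p.e × Fin p.e =>
    p.y.repr (p.y p.toTab.i1 * p.y j.1) j.2) p.τ0 (p.τ0 + 1)
  obtain ⟨Bb, hBb0, hBb⟩ := bdd_el p.toTab p.τ0 (p.τ0 + 1) (aeval (p.y p.toTab.i1) b)
  obtain ⟨Bd, hBd0, hBd⟩ := bdd_inv p.Dp p.τ0 (p.τ0 + 1) fun τ h1 h2 => (p.good τ h1 h2).1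
  set D : ℝ := p.e * K + B with hD
  have hD0 : 0 ≤ D := by positivity
  set E : ℝ := D ^ (p.e - 1) * (Bb * Bd) with hE
  have hE0 : 0 ≤ E := by positivity
  refine ⟨1 + B + p.e * E, by nlinarith [mul_nonneg (Nat.cast_nonneg (α := ℝ) p.e) hE0],
    fun τ h1 h2 ι _ f hf hcard hP => ⟨fun i φ => ?_, fun w M hM i => ?_⟩⟩
  · have := hB (f φ) τ h1 h2 (hf φ) i
    nlinarith [mul_nonneg (Nat.cast_nonneg (α := ℝ) p.e) hE0]
  set θ : ι → ℂ := fun φ => f φ (p.y p.toTab.i1) with hθ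
  have hprod : ∀ s : Finset ι, ∃ u : Fin p.e → ℂ, (∀ i, ‖u i‖ ≤ D ^ s.card) ∧
      ∀ φ, ∑ i, u i * f φ (p.y i) = ∏ ψ ∈ s, (θ φ - θ ψ) := by
    intro s
    induction s using Finset.induction_on with
    | empty =>
      refine ⟨Pi.single p.toTab.i0 1, fun i => ?_, fun φ => ?_⟩
      · by_cases h : i = p.toTab.i0
        · simp [h]
        · simp [h]
      · rw [sum_eq_single p.toTab.i0 (fun j _ hj => by simp [hj]) (by simp), p.toTab.y_i0]
        simp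
    | insert ψ s hψ ih =>
      obtain ⟨u, hu, hu'⟩ := ih
      refine ⟨fun l => ∑ i, u i * aeval (τ : ℂ) (p.y.repr (p.y p.toTab.i1 * p.y i) l) - θ ψ * u l,
        fun l => ?_, fun φ => ?_⟩
      · refine (norm_sub_le _ _).trans ?_
        have h3 : ‖∑ i, u i * aeval (τ : ℂ) (p.y.repr (p.y p.toTab.i1 * p.y i) l)‖ ≤
            p.e * (D ^ s.card * K) := by
          refine (norm_sum_le _ _).trans ?_
          refine (sum_le_sum (g := fun _ => D ^ s.card * K) fun i _ => ?_).trans (by simp)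
          rw [norm_mul]
          exact mul_le_mul (hu i) (hK (i, l) τ h1 h2) (norm_nonneg _) (by positivity)
        have h4 : ‖θ ψ * u l‖ ≤ B * D ^ s.card := by
          rw [norm_mul]
          exact mul_le_mul (hB (f ψ) τ h1 h2 (hf ψ) _) (hu l) (norm_nonneg _) hB0
        rw [card_insert_of_notMem hψ, pow_succ, hD]
        linarith
      · have h3 : ∀ i, ∑ l, aeval (τ : ℂ) (p.y.repr (p.y p.toTab.i1 * p.y i) l) * f φ (p.y l) =
            θ φ * f φ (p.y i) := fun i => by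
          rw [← hf φ, ← map_repr p.toTab (f φ), map_mul]
        rw [prod_insert hψ, ← hu' φ]
        simp only [sub_mul, sum_sub_distrib, sum_mul, mul_sum]
        rw [sum_comm]
        congr 1
        · refine sum_congr rfl fun i _ => ?_
          simp only [mul_assoc]
          rw [← mul_sum, h3]
          ring
        · exact sum_congr rfl fun i _ => by ring
  have hder : ∀ φ, f φ (aeval (p.y p.toTab.i1) b) * (aeval (τ : ℂ) p.Dp)⁻¹ *
      ∏ ψ ∈ univ.erase φ, (θ φ - θ ψ) = 1 := by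
    intro φ
    have h3 := congrArg (fun Q => f φ (aeval (p.y p.toTab.i1) Q)) hab
    simp only [map_add, map_mul, aeval_C] at h3
    rw [p.toTab.P_eq, p.toTab.aeval_cp, ← p.toTab.P_eq, map_zero, mul_zero, zero_add, map_alg, hf φ,
      map_aeval (f φ) _ (derivative _), hf φ, ← derivative_map, hP,
      show f φ (p.y p.toTab.i1) = θ φ from rfl,
      Lagrange.eval_nodal_derivative_eval_node_eq (mem_univ φ), Lagrange.eval_nodal] at h3
    rw [mul_right_comm, h3, mul_inv_cancel₀ (hBd τ h1 h2).1]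
  have hU : ∀ φ₀, ∃ U : Fin p.e → ℂ, (∀ i, ‖U i‖ ≤ E) ∧
      ∀ φ, ∑ i, U i * f φ (p.y i) = if φ = φ₀ then 1 else 0 := by
    intro φ₀
    obtain ⟨u, hu, hu'⟩ := hprod (univ.erase φ₀)
    refine ⟨fun i => f φ₀ (aeval (p.y p.toTab.i1) b) * (aeval (τ : ℂ) p.Dp)⁻¹ * u i, fun i => ?_,
      fun φ => ?_⟩
    · have h3 := hu i
      rw [card_erase_of_mem (mem_univ _), card_univ, hcard] at h3
      rw [norm_mul, norm_mul, hE, mul_comm]
      exact mul_le_mul h3 (mul_le_mul (hBb _ τ h1 h2 (hf φ₀)) (hBd τ h1 h2).2 (norm_nonneg _) hBb0)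
        (by positivity) (by positivity)
    · simp only [mul_assoc _ (u _)]
      rw [← mul_sum, hu']
      split_ifs with h
      · rw [h]
        exact hder φ₀
      · rw [prod_eq_zero (mem_erase.2 ⟨h, mem_univ φ⟩) (sub_self _), mul_zero]
  choose U hU hU' using hU
  let Λ : (Fin p.e → ℂ) →ₗ[ℂ] (ι → ℂ) :=
    { toFun := fun w φ => ∑ i, w i * f φ (p.y i)
      map_add' := fun w w' => by
        funext φ
        simp [add_mul, sum_add_distrib]
      map_smul' := fun c w => by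
        funext φ
        simp [mul_sum, mul_assoc] }
  have hΛ : ∀ W : ι → ℂ, Λ (∑ φ₀, W φ₀ • U φ₀) = W := by
    intro W
    funext φ
    rw [map_sum, Finset.sum_apply]
    have h3 : ∀ φ₀, Λ (W φ₀ • U φ₀) φ = if φ = φ₀ then W φ₀ else 0 := fun φ₀ => by
      rw [map_smul, Pi.smul_apply, smul_eq_mul]
      change W φ₀ * ∑ i, U φ₀ i * f φ (p.y i) = _
      rw [hU']
      split_ifs <;> simp
    simp [h3]
  have hinj : Function.Injective Λ :=
    (LinearMap.injective_iff_surjective_of_finrank_eq_finrank (by simp [hcard])).2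
      fun W => ⟨_, hΛ W⟩
  have hw : w = ∑ φ₀, Λ w φ₀ • U φ₀ := hinj (hΛ _).symm
  have hM0 : 0 ≤ M := by
    have : Nonempty ι := Fintype.card_pos_iff.1 (hcard ▸ p.toTab.epos)
    exact (norm_nonneg _).trans (hM this.some)
  have h3 : ‖w i‖ ≤ p.e * (M * E) := by
    conv_lhs => rw [hw, Finset.sum_apply]
    refine (norm_sum_le _ _).trans ?_
    refine (sum_le_sum (g := fun _ => M * E) fun φ _ => ?_).trans (by simp [hcard])
    rw [Pi.smul_apply, smul_eq_mul, norm_mul]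
    exact mul_le_mul (hM φ) (hU φ i) (norm_nonneg _) hM0
  nlinarith [mul_nonneg hB0 hM0]

section fib

variable {p : Par R} {k : Type} [Field k] {t : ℤ × ℤ} {L : Type} [Field L] [NumberField L]
  [Algebra k L] (Φ : Fb p t k L)

/-- the basis of the field of the fibre -/
def bas : Module.Basis (Fin p.e) k L :=
  basisOfTopLeSpanOfCardEqFinrank (fun i => Φ.q (p.y i)) Φ.gen.ge (by simp [Φ.fin])

omit [NumberField L] in
theorem bas_apply (i : Fin p.e) : bas Φ i = Φ.q (p.y i) := by simp [bas]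

theorem q_z (ht : t.2 ≠ 0) : Φ.q (zR R) = algebraMap k L ((t.1 : k) / t.2) := by
  rw [map_div₀, map_intCast, map_intCast, eq_div_iff (Int.cast_ne_zero.2 ht), mul_comm, Φ.hq]

theorem q_alg (ht : t.2 ≠ 0) (g : ℤ[X]) :
    Φ.q (algebraMap ℤ[X] R g) = algebraMap k L (aeval ((t.1 : k) / t.2) g) := by
  rw [map_alg, q_z Φ ht]
  exact aeval_algebraMap_apply L _ g

theorem norm_q (ht : t.2 ≠ 0) (x : R) :
    Algebra.norm k (Φ.q x) = aeval ((t.1 : k) / t.2) (Algebra.norm ℤ[X] x) := by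
  let ev : ℤ[X] →+* k := (aeval ((t.1 : k) / t.2) : ℤ[X] →ₐ[ℤ] k)
  have h : Algebra.leftMulMatrix (bas Φ) (Φ.q x) =
      ev.mapMatrix (Algebra.leftMulMatrix p.y x) := by
    ext i j
    rw [Algebra.leftMulMatrix_eq_repr_mul, RingHom.mapMatrix_apply, Matrix.map_apply,
      Algebra.leftMulMatrix_eq_repr_mul, bas_apply, ← map_mul]
    have h1 : Φ.q (x * p.y j) = ∑ l, ev (p.y.repr (x * p.y j) l) • bas Φ l := by
      conv_lhs => rw [← p.toTab.el_repr (x * p.y j), p.toTab.el_eq, map_sum]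
      refine sum_congr rfl fun l _ => ?_
      rw [map_mul, q_alg Φ ht, Algebra.smul_def, bas_apply]
      rfl
    rw [h1, Module.Basis.repr_sum_self]
  rw [Algebra.norm_eq_matrix_det (bas Φ), h, ← RingHom.map_det, p.toTab.norm_eq]
  rfl

end fib

end Wc

theorem p_wc : S_Wc := by
  intro R _ _ p
  obtain ⟨C, hC, h⟩ := Wc.core p.toMod
  refine ⟨C, hC, fun k _ _ _ K t L _ _ _ Φ hD ht => ?_⟩
  have ht0 : t.2 ≠ 0 := ht.1.ne'
  have : FiniteDimensional k L := Module.Finite.of_basis (Wc.bas Φ)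
  have hτ : algebraMap k ℂ ((t.1 : k) / t.2) = (((t.1 : ℝ) / t.2 : ℝ) : ℂ) := by
    rw [map_div₀, map_intCast, map_intCast]
    push_cast
    rfl
  obtain ⟨h1, h2⟩ := h ((t.1 : ℝ) / t.2) ht.2.1 ht.2.2.1 (Emb k L)
    (fun φ => (φ : L →+* ℂ).comp Φ.q) (fun φ => by
      change φ (Φ.q (zR R)) = _
      rw [Wc.q_z Φ ht0, AlgHom.commutes, hτ])
    (by rw [AlgHom.card, Φ.fin]) (by
      refine eq_of_infinite_eval_eq _ _ (Set.infinite_of_injective_forall_mem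
        (f := fun a : ℤ => (a : ℂ)) Int.cast_injective fun a => ?_)
      have e1 : (a : ℂ) = (aeval (((t.1 : ℝ) / t.2 : ℝ) : ℂ) : ℤ[X] →ₐ[ℤ] ℂ).toRingHom (a : ℤ[X]) :=
        (map_intCast _ a).symm
      have e2 := Algebra.norm_eq_prod_embeddings k ℂ
        (Φ.q (algebraMap ℤ[X] R (a : ℤ[X]) - p.y p.toTab.i1))
      rw [Wc.norm_q Φ ht0, ← aeval_algebraMap_apply, hτ, ← p.toTab.eval_cp, ← p.toTab.P_eq] at e2
      rw [Set.mem_ofPred_eq, Lagrange.eval_nodal]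
      conv_lhs => rw [e1, ← eval₂_eq_eval_map, eval₂_at_apply]
      refine e2.trans (prod_congr rfl fun φ _ => ?_)
      simp)
  refine ⟨h1, fun g c M hM i => ?_⟩
  have h3 := h2 (fun i => (g i : ℂ) + c i * K.σ K.ω) M hM i
  obtain ⟨hr, hi⟩ := Iqb.sig_re K.toIQ
  have hr1 : (1 : ℝ) ≤ |(K.σ K.ω).im| := by
    rw [← sq_le_sq₀ zero_le_one (abs_nonneg _), sq_abs, hi, hD]
    have := p.hr.one_le
    push_cast
    rw [neg_neg, one_pow]
    exact_mod_cast this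
  have h4 := Complex.abs_re_le_norm ((g i : ℂ) + c i * K.σ K.ω)
  have h5 := Complex.abs_im_le_norm ((g i : ℂ) + c i * K.σ K.ω)
  simp only [Complex.add_re, Complex.add_im, Complex.mul_re, Complex.mul_im, Complex.ofReal_re,
    Complex.ofReal_im, hr, mul_zero, zero_mul, sub_zero, add_zero, zero_add, abs_mul] at h4 h5
  exact ⟨h4.trans h3, ((le_mul_of_one_le_right (abs_nonneg _) hr1).trans h5).trans h3⟩

end

end Pool.Agent.P.MP_b8021b_nt.VC
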