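import Pool.Agent.P.MP_b8021b_nt.VC.StS
import Pool.Agent.P.MP_b8021b_nt.VE.BasicS

/-! Weil reciprocity for geometric points. -/

namespace Pool.Agent.P.MP_b8021b_nt.VC

open Polynomial NumberField Finset Pool.Agent.P.MP_b8021b_nt.VE
open scoped Classical WithZero IntermediateField

namespace PWeil

section General

variable {F : Type} [Field F]

theorem ord_zpow (p : GPt F) (a : F) (n : ℤ) : p.ord (a ^ n) = n * p.ord a := by
  obtain ⟨m, rfl | rfl⟩ := n.eq_nat_or_neg
  · rw [zpow_natCast, p.ord_pow]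
  · rw [zpow_neg, zpow_natCast, p.ord_inv, p.ord_pow, neg_mul]

/-- the value of the tame symbol -/
noncomputable def tm (p : GPt F) (f g : F) : Qb := Classical.epsilon (Tm p f g)

theorem tm_eq {p : GPt F} {f g : F} {c : Qb} (h : Tm p f g c) : tm p f g = c :=
  GPt.Val.unique (Classical.epsilon_spec (p := Tm p f g) ⟨c, h⟩) h

theorem tm_spec (p : GPt F) {f g : F} (hf : f ≠ 0) (hg : g ≠ 0) :
    tm p f g ≠ 0 ∧ Tm p f g (tm p f g) := by
  have h1 := zpow_ne_zero (p.ord g) hf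
  have h2 := zpow_ne_zero (p.ord f) hg
  obtain ⟨c, hc, h⟩ := p.exists_val_ne (div_ne_zero h1 h2) (by
    rw [p.ord_div h1 h2, ord_zpow, ord_zpow, mul_comm, sub_self])
  rw [tm_eq h]
  exact ⟨hc, h⟩

theorem tm_mul (p : GPt F) {f f' g : F} (hf : f ≠ 0) (hf' : f' ≠ 0) (hg : g ≠ 0) :
    tm p (f * f') g = tm p f g * tm p f' g := by
  refine tm_eq ?_
  have h := GPt.Val.mul (tm_spec p hf hg).2 (tm_spec p hf' hg).2
  rwa [Tm, p.ord_mul hf hf', mul_zpow, zpow_add₀ hg, ← div_mul_div_comm]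

theorem tm_swap (p : GPt F) {f g : F} (hf : f ≠ 0) (hg : g ≠ 0) : tm p g f = (tm p f g)⁻¹ := by
  refine tm_eq ?_
  have h := GPt.Val.inv (tm_spec p hf hg).2 (tm_spec p hf hg).1
  rwa [inv_div] at h

theorem tm_one {p : GPt F} {f g : F} (hf : p.ord f = 0) (hg : p.ord g = 0) : tm p f g = 1 := by
  refine tm_eq ?_
  rw [Tm, hf, hg, zpow_zero, zpow_zero, div_one]
  exact p.val_one

theorem tm_unit {p : GPt F} {f g : F} {c : Qb} (hf : p.Val f c) (hc : c ≠ 0) (hg : p.ord g = 1) :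
    tm p f g = c := by
  refine tm_eq ?_
  rwa [Tm, hf.ord_eq_zero hc, hg, zpow_zero, zpow_one, div_one]

/-- additive on nonzero numbers -/
def Ad (m : Qb → ℝ) : Prop := ∀ u v, u ≠ 0 → v ≠ 0 → m (u * v) = m u + m v

theorem Ad.one {m : Qb → ℝ} (h : Ad m) : m 1 = 0 := by
  have := h 1 1 one_ne_zero one_ne_zero
  rw [mul_one] at this
  linarith

theorem Ad.inv {m : Qb → ℝ} (h : Ad m) {u : Qb} (hu : u ≠ 0) : m u⁻¹ = -m u := by
  have := h u u⁻¹ hu (inv_ne_zero hu)
  rw [mul_inv_cancel₀ hu, h.one] at this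
  linarith

theorem Ad.neg {m : Qb → ℝ} (h : Ad m) {u : Qb} (hu : u ≠ 0) : m (-u) = m u := by
  have h1 := h u u hu hu
  have h2 := h (-u) (-u) (neg_ne_zero.2 hu) (neg_ne_zero.2 hu)
  rw [neg_mul_neg] at h2
  linarith

theorem Ad.pow {m : Qb → ℝ} (h : Ad m) {u : Qb} (hu : u ≠ 0) (n : ℕ) : m (u ^ n) = n * m u := by
  induction n with
  | zero => simp [h.one]
  | succ n ih =>
    rw [pow_succ, h _ _ (pow_ne_zero _ hu) hu, ih]
    push_cast
    ring

/-- the sum of the values on the tame symbols -/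
noncomputable def bs (l : GPt F → Qb → ℝ) (f g : F) : ℝ := ∑ᶠ p, l p (tm p f g)

variable {l : GPt F → Qb → ℝ} (hl : ∀ p, Ad (l p))
  (hfin : ∀ f : F, f ≠ 0 → {p : GPt F | p.ord f ≠ 0}.Finite)

include hl hfin in
theorem supp_fin {f g : F} (hf : f ≠ 0) (hg : g ≠ 0) :
    (Function.support fun p => l p (tm p f g)).Finite := by
  refine ((hfin f hf).union (hfin g hg)).subset fun p hp => ?_
  by_contra h
  simp only [Set.mem_union, Set.mem_ofPred_eq, not_or, not_not] at h
  exact hp ((congrArg (l p) (tm_one h.1 h.2)).trans (hl p).one)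

include hl hfin in
theorem bs_mul {f f' g : F} (hf : f ≠ 0) (hf' : f' ≠ 0) (hg : g ≠ 0) :
    bs l (f * f') g = bs l f g + bs l f' g := by
  rw [bs, bs, bs, ← finsum_add_distrib (supp_fin hl hfin hf hg) (supp_fin hl hfin hf' hg)]
  refine finsum_congr fun p => ?_
  rw [tm_mul p hf hf' hg, hl p _ _ (tm_spec p hf hg).1 (tm_spec p hf' hg).1]

include hl in
theorem bs_swap {f g : F} (hf : f ≠ 0) (hg : g ≠ 0) : bs l g f = -bs l f g := by
  rw [bs, bs, ← finsum_neg_distrib]
  refine finsum_congr fun p => ?_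
  rw [tm_swap p hf hg, (hl p).inv (tm_spec p hf hg).1]

theorem pairing {P S : Type} [Fintype S] (τ : P → S) (A B : P → Prop) (h : P → ℝ)
    (hA : ∀ s, ∃! p, τ p = s ∧ A p) (hB : ∀ s, ∃! p, τ p = s ∧ B p) (hAB : ∀ p, A p → ¬ B p)
    (h0 : ∀ p, ¬ A p → ¬ B p → h p = 0)
    (h1 : ∀ p p', τ p = τ p' → A p → B p' → h p + h p' = 0) : ∑ᶠ p, h p = 0 := by
  choose α hα uα using hA
  choose β hβ uβ using hB
  have iα : Function.Injective α := fun s s' e => by rw [← (hα s).1, e, (hα s').1]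
  have iβ : Function.Injective β := fun s s' e => by rw [← (hβ s).1, e, (hβ s').1]
  rw [finsum_eq_sum_of_support_subset (s := image α univ ∪ image β univ), sum_union,
    sum_image fun _ _ _ _ e => iα e, sum_image fun _ _ _ _ e => iβ e, ← sum_add_distrib]
  · exact sum_eq_zero fun s _ => h1 _ _ ((hα s).1.trans (hβ s).1.symm) (hα s).2 (hβ s).2
  · refine disjoint_left.2 fun p ha hb => ?_
    obtain ⟨s, -, rfl⟩ := mem_image.1 ha
    obtain ⟨s', -, e⟩ := mem_image.1 hb
    exact hAB _ (hα s).2 (e ▸ (hβ s').2)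
  · intro p hp
    by_contra hn
    simp only [coe_union, coe_image, coe_univ, Set.image_univ, Set.mem_union, not_or] at hn
    exact hp (h0 p (fun ha => hn.1 ⟨_, (uα _ p ⟨rfl, ha⟩).symm⟩)
      fun hb => hn.2 ⟨_, (uβ _ p ⟨rfl, hb⟩).symm⟩)

include hl hfin in
theorem descent {M : Type} [Field M] (j : F →+* M) (res : GPt M → GPt F) (e : GPt M → ℕ) (n : ℕ)
    (hle : ∀ q, Le j q (res q)) (he : ∀ q a, q.ord (j a) = e q * (res q).ord a)
    (hs : ∀ p, {q | res q = p}.Finite ∧ ∑ᶠ q ∈ {q | res q = p}, e q = n) {f g : F} (hf : f ≠ 0)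
    (hg : g ≠ 0) : bs (fun q => l (res q)) (j f) (j g) = n * bs l f g := by
  have h1 : ∀ q, l (res q) (tm q (j f) (j g)) = e q * l (res q) (tm (res q) f g) := fun q => by
    rw [← (hl _).pow (tm_spec _ hf hg).1]
    refine congrArg _ (tm_eq ?_)
    have h := (hle q _ _ (tm_spec (res q) hf hg).2).pow (e q)
    rwa [Tm, he, he, mul_comm (e q : ℤ), mul_comm (e q : ℤ), zpow_mul, zpow_mul, zpow_natCast,
      zpow_natCast, ← div_pow, ← map_zpow₀, ← map_zpow₀, ← map_div₀]
  have hS := supp_fin hl hfin hf hg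
  have hT : (res ⁻¹' Function.support fun p => l p (tm p f g)).Finite :=
    hS.preimage' fun p _ => (hs p).1
  rw [bs, bs, finsum_congr h1, finsum_eq_sum _ hS, finsum_eq_sum_of_support_subset (s := hT.toFinset),
    ← sum_fiberwise_of_maps_to (g := res) (t := hS.toFinset), mul_sum]
  · refine sum_congr rfl fun p hp => ?_
    rw [← (hs p).2, finsum_mem_eq_finite_toFinset_sum _ (hs p).1, Nat.cast_sum, sum_mul]
    refine sum_congr ?_ fun q hq => ?_
    · ext q
      simp only [mem_filter, Set.Finite.mem_toFinset, Set.mem_preimage, Set.mem_ofPred_eq,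
        and_iff_right_iff_imp]
      rintro rfl
      exact hS.mem_toFinset.1 hp
    · rw [← ((hs p).1.mem_toFinset.1 hq : res q = p)]
  · exact fun q hq => hS.mem_toFinset.2 (hT.mem_toFinset.1 hq)
  · exact fun q hq => hT.mem_toFinset.2 (right_ne_zero_of_mul hq)

end General

section Line

variable {K : Type} [Field K] [NumberField K]

/-- a linear function -/
noncomputable def lin (a : K) : RatFunc K := RatFunc.X - algebraMap K _ a

omit [NumberField K] in
theorem lin_eq (a : K) : algebraMap K[X] (RatFunc K) (X + C a) = lin (-a) := by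
  rw [lin, map_add, RatFunc.algebraMap_X, RatFunc.algebraMap_C, map_neg, sub_neg_eq_add]
  rfl

omit [NumberField K] in
theorem lin_ne (a : K) : lin a ≠ 0 := by
  rw [← neg_neg a, ← lin_eq]
  exact (map_ne_zero_iff _ (IsFractionRing.injective _ _)).2 (X_add_C_ne_zero _)

/-- a quotient of split polynomials -/
def Sp (x : RatFunc K) : Prop :=
  x ≠ 0 ∧ ∃ P Q : K[X], Q ≠ 0 ∧ P.Splits ∧ Q.Splits ∧ x * algebraMap _ _ Q = algebraMap _ _ P

omit [NumberField K] in
theorem gen {l : GPt (RatFunc K) → Qb → ℝ} (hl : ∀ p, Ad (l p))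
    (hfin : ∀ f : RatFunc K, f ≠ 0 → {p : GPt (RatFunc K) | p.ord f ≠ 0}.Finite) {g : RatFunc K}
    (hg : g ≠ 0) (h1 : ∀ b : K, b ≠ 0 → bs l (algebraMap K _ b) g = 0)
    (h2 : ∀ a, bs l (lin a) g = 0) {x : RatFunc K} (hx : Sp x) : bs l x g = 0 := by
  have inj := IsFractionRing.injective K[X] (RatFunc K)
  have key : ∀ P : K[X], P.Splits → P ≠ 0 → bs l (algebraMap _ _ P) g = 0 := by
    intro P hP
    induction hP using Submonoid.closure_induction with
    | mem P hP =>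
      rcases hP with ⟨a, rfl⟩ | ⟨a, rfl⟩
      · exact fun h => h1 a (C_ne_zero.1 h)
      · exact fun _ => (lin_eq a).symm ▸ h2 _
    | one => exact fun _ => by simpa using h1 1 one_ne_zero
    | mul P Q _ _ ihP ihQ =>
      intro h
      rw [map_mul, bs_mul hl hfin ((map_ne_zero_iff _ inj).2 (left_ne_zero_of_mul h))
        ((map_ne_zero_iff _ inj).2 (right_ne_zero_of_mul h)) hg, ihP (left_ne_zero_of_mul h),
        ihQ (right_ne_zero_of_mul h), add_zero]
  obtain ⟨h0, P, Q, hQ, sP, sQ, e⟩ := hx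
  have hQ' := (map_ne_zero_iff _ inj).2 hQ
  have h3 := bs_mul hl hfin h0 hQ' hg
  rw [e, key Q sQ hQ, key P sP ((map_ne_zero_iff _ inj).1 (e ▸ mul_ne_zero h0 hQ'))] at h3
  linarith

theorem line (hC : S_Crv) (hF : S_Fin) (μ : (K →+* Qb) → Qb → ℝ)
    (τ : GPt (RatFunc K) → K →+* Qb) (hμ : ∀ σ, Ad (μ σ))
    (hτ : ∀ (p : GPt (RatFunc K)) a, p.Val (algebraMap K _ a) (τ p a)) {x y : RatFunc K}
    (hx : Sp x) (hy : Sp y) : bs (fun p => μ (τ p)) x y = 0 := by
  obtain ⟨hc, hz, hw, o1, o2⟩ := hC.2.2 K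
  have hfin := (hF _ hc).1
  have hl : ∀ p, Ad (μ (τ p)) := fun p => hμ _
  have tiff : ∀ (p : GPt (RatFunc K)) (σ : K →+* Qb),
      (∀ b, p.Val (algebraMap K _ b) (σ b)) ↔ τ p = σ := fun p σ =>
    ⟨fun h => RingHom.ext fun b => (hτ p b).unique (h b), fun h => h ▸ hτ p⟩
  have cne : ∀ b : K, b ≠ 0 → algebraMap K (RatFunc K) b ≠ 0 := fun b hb =>
    (_root_.map_ne_zero _).2 hb
  have oc : ∀ (p : GPt (RatFunc K)) (b : K), b ≠ 0 → p.ord (algebraMap K _ b) = 0 :=
    fun p b hb => (hτ p b).ord_eq_zero ((_root_.map_ne_zero _).2 hb)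
  have eA : ∀ a σ, ∃! p, τ p = σ ∧ p.Val RatFunc.X (τ p a) := fun a σ => by
    refine (existsUnique_congr fun p => ?_).1 (hz σ (σ a))
    rw [tiff]
    exact and_congr_right fun h => by rw [h]
  have eB : ∀ σ, ∃! p, τ p = σ ∧ p.Val RatFunc.X⁻¹ 0 := fun σ => by
    simpa only [tiff] using hw σ
  have oA : ∀ a (p : GPt (RatFunc K)), p.Val RatFunc.X (τ p a) → p.ord (lin a) = 1 :=
    fun a p h => o1 p a (by simpa using h.sub (hτ p a))
  have vB : ∀ a (p : GPt (RatFunc K)), p.Val RatFunc.X⁻¹ 0 → p.Val (lin a / RatFunc.X) 1 :=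
    fun a p h => by
      have h1 := p.val_one.sub ((hτ p a).mul h)
      rwa [mul_zero, sub_zero, ← div_self (RatFunc.X_ne_zero (K := K)), ← div_eq_mul_inv,
        ← sub_div] at h1
  have oB : ∀ a (p : GPt (RatFunc K)), p.Val RatFunc.X⁻¹ 0 → p.ord (lin a) = -1 :=
    fun a p h => by
      have h1 := (vB a p h).ord_eq_zero one_ne_zero
      rw [p.ord_div (lin_ne a) RatFunc.X_ne_zero, o2 p h] at h1
      omega
  have o0 : ∀ a (p : GPt (RatFunc K)), ¬ p.Val RatFunc.X (τ p a) → ¬ p.Val RatFunc.X⁻¹ 0 →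
      p.ord (lin a) = 0 := fun a p h h' => by
    have h1 : RatFunc.X ∈ p.v.valuationSubring := by
      by_contra h2
      refine h' (p.val_zero_of_ord_pos ?_)
      have := (p.ord_neg_iff _).2 h2
      rw [p.ord_inv]
      omega
    obtain ⟨c, hc⟩ := p.exists_val h1
    exact (hc.sub (hτ p a)).ord_eq_zero (sub_ne_zero.2 fun e => h (e ▸ hc))
  have cc : ∀ b b' : K, b ≠ 0 → b' ≠ 0 →
      bs (fun p => μ (τ p)) (algebraMap K _ b) (algebraMap K _ b') = 0 := fun b b' hb hb' =>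
    finsum_eq_zero_of_forall_eq_zero fun p =>
      (congrArg (μ (τ p)) (tm_one (oc p b hb) (oc p b' hb'))).trans (hl p).one
  have cl : ∀ b a : K, b ≠ 0 → bs (fun p => μ (τ p)) (algebraMap K _ b) (lin a) = 0 := by
    intro b a hb
    refine pairing τ _ _ _ (eA a) eB (fun p h h' => ?_) (fun p h h' => ?_) fun p p' e h h' => ?_
    · have := oA a p h
      rw [oB a p h'] at this
      omega
    · exact (congrArg (μ (τ p)) (tm_one (oc p b hb) (o0 a p h h'))).trans (hl p).one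
    · have hb' : τ p' b ≠ 0 := (_root_.map_ne_zero _).2 hb
      have h1 : tm p' (algebraMap K _ b) (lin a) = (τ p' b)⁻¹ := by
        refine tm_eq ?_
        rw [Tm, oc p' b hb, oB a p' h', zpow_zero, div_one, zpow_neg_one]
        exact (hτ p' b).inv hb'
      beta_reduce
      rw [tm_unit (hτ p b) ((_root_.map_ne_zero _).2 hb) (oA a p h), h1, (hl p').inv hb', e,
        add_neg_cancel]
  have ll : ∀ a a' : K, bs (fun p => μ (τ p)) (lin a) (lin a') = 0 := by
    intro a a'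
    rcases eq_or_ne a a' with rfl | hne
    · have := bs_swap hl (lin_ne a) (lin_ne a)
      linarith
    have ne : ∀ σ : K →+* Qb, σ a - σ a' ≠ 0 := fun σ => sub_ne_zero.2 fun e => hne (σ.injective e)
    refine pairing τ _ _ _ (eA a) (eA a') (fun p h h' => ?_) (fun p h h' => ?_)
      fun p p' e h h' => ?_
    · exact ne (τ p) (sub_eq_zero.2 (h.unique h'))
    · by_cases h2 : p.Val RatFunc.X⁻¹ 0
      · have h3 : tm p (lin a) (lin a') = 1 := by
          refine tm_eq ?_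
          have h4 := (vB a' p h2).div (vB a p h2) one_ne_zero
          rw [div_one, div_div_div_cancel_right₀ RatFunc.X_ne_zero] at h4
          rwa [Tm, oB a p h2, oB a' p h2, zpow_neg_one, zpow_neg_one, inv_div_inv]
        exact (congrArg (μ (τ p)) h3).trans (hl p).one
      · exact (congrArg (μ (τ p)) (tm_one (o0 a p h h2) (o0 a' p h' h2))).trans (hl p).one
    · have h1 : τ p' a' - τ p' a ≠ 0 := fun e' => ne (τ p') (by rw [← neg_sub, e', neg_zero])
      beta_reduce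
      rw [tm_swap p (lin_ne a') (lin_ne a), tm_unit (f := lin a') (h.sub (hτ p a')) (ne _) (oA a p h),
        tm_unit (f := lin a) (h'.sub (hτ p' a)) h1 (oA a' p' h'), (hl p).inv (ne _), e,
        ← neg_sub (τ p' a) (τ p' a'), (hl p').neg (ne _), neg_add_cancel]
  refine gen hl hfin hy.1 (fun b hb => ?_) (fun a => ?_) hx
  · rw [bs_swap hl hy.1 (cne b hb), neg_eq_zero]
    refine gen hl hfin (cne b hb) (fun b' hb' => cc b' b hb' hb) (fun a => ?_) hy
    rw [bs_swap hl (cne b hb) (lin_ne a), cl b a hb, neg_zero]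
  · rw [bs_swap hl hy.1 (lin_ne a), neg_eq_zero]
    exact gen hl hfin (lin_ne a) (fun b hb => cl b a hb) (fun a' => ll a' a) hy

attribute [local instance] Polynomial.algebra

open scoped RatFunc in
theorem base' (hC : S_Crv) (hF : S_Fin) (hR : S_Res) (μ : (K →+* Qb) → Qb → ℝ)
    (τ : GPt (RatFunc K) → K →+* Qb) (hμ : ∀ σ, Ad (μ σ))
    (hτ : ∀ (p : GPt (RatFunc K)) a, p.Val (algebraMap K _ a) (τ p a)) {f g : RatFunc K}
    (hf : f ≠ 0) (hg : g ≠ 0) {W : K[X]} (hW0 : W ≠ 0) (df : f.num * f.denom ∣ W)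
    (dg : g.num * g.denom ∣ W) (L : Type) [Field L] [Algebra K L] [FiniteDimensional K L]
    (hL : (W.map (algebraMap K L)).Splits) : bs (fun p => μ (τ p)) f g = 0 := by
  have hc0 := (hC.2.2 K).1
  have : NumberField L := NumberField.of_module_finite K L
  have hrk : Module.finrank (RatFunc K) (RatFunc L) = Module.finrank K L :=
    RatFunc.finrank_ratFunc_ratFunc K L
  have hpos : 0 < Module.finrank (RatFunc K) (RatFunc L) := hrk ▸ Module.finrank_pos
  have : FiniteDimensional (RatFunc K) (RatFunc L) := Module.finite_of_finrank_pos hpos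
  have jP : ∀ P : K[X], algebraMap (RatFunc K) (RatFunc L) (algebraMap K[X] _ P) =
      algebraMap L[X] _ (P.map (algebraMap K L)) := fun P =>
    (IsScalarTower.algebraMap_apply K[X] (RatFunc K) (RatFunc L) P).symm
  have sp : ∀ x : RatFunc K, x ≠ 0 → x.num * x.denom ∣ W →
      Sp (algebraMap (RatFunc K) (RatFunc L) x) := fun x hx hd => by
    have h1 : ∀ P, P ∣ W → (P.map (algebraMap K L)).Splits := fun P hP =>
      hL.of_dvd (Polynomial.map_ne_zero hW0) (Polynomial.map_dvd _ hP)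
    refine ⟨(_root_.map_ne_zero _).2 hx, x.num.map (algebraMap K L), x.denom.map (algebraMap K L),
      Polynomial.map_ne_zero x.denom_ne_zero, h1 _ (dvd_of_mul_right_dvd hd),
      h1 _ (dvd_of_mul_left_dvd hd), ?_⟩
    rw [← jP, ← jP, ← map_mul]
    refine congrArg _ ?_
    rw [← eq_div_iff ((map_ne_zero_iff _ (IsFractionRing.injective _ _)).2 x.denom_ne_zero),
      x.num_div_denom]
  obtain ⟨res, e, r1, r2, r3, -⟩ := hR (RatFunc K) (RatFunc L) hc0
  choose τ' hτ' using fun q : GPt (RatFunc L) => q.exists_emb (algebraMap L (RatFunc L))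
  have h1 := line hC hF (fun σ => μ (σ.comp (algebraMap K L))) (fun q => (τ' q : L →+* Qb))
    (fun σ => hμ _) hτ' (sp f hf df) (sp g hg dg)
  have h2 : ∀ q, (τ' q : L →+* Qb).comp (algebraMap K L) = τ (res q) := fun q =>
    RingHom.ext fun b => by
      have h3 := (r1 q _).2 rfl _ _ (hτ (res q) b)
      rw [IsScalarTower.algebraMap_apply K K[X] (RatFunc K), jP, algebraMap_eq, map_C] at h3
      exact (hτ' q _).unique h3
  simp only [h2] at h1
  rw [descent (l := fun p => μ (τ p)) (fun p => hμ _) (hF _ hc0).1 _ res e _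
    (fun q => (r1 q _).2 rfl) (fun q => (r2 q).2) r3 hf hg] at h1
  exact (mul_eq_zero.1 h1).resolve_left (Nat.cast_ne_zero.2 hpos.ne')

theorem base (hC : S_Crv) (hF : S_Fin) (hR : S_Res) (μ : (K →+* Qb) → Qb → ℝ)
    (τ : GPt (RatFunc K) → K →+* Qb) (hμ : ∀ σ, Ad (μ σ))
    (hτ : ∀ (p : GPt (RatFunc K)) a, p.Val (algebraMap K _ a) (τ p a)) :
    KFn fun p => μ (τ p) := by
  refine ⟨fun p => hμ _, fun f g hf hg c hc => ?_⟩
  have h := base' hC hF hR μ τ hμ hτ hf hg
    (mul_ne_zero (mul_ne_zero (RatFunc.num_ne_zero hf) f.denom_ne_zero)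
      (mul_ne_zero (RatFunc.num_ne_zero hg) g.denom_ne_zero))
    (dvd_mul_right _ _) (dvd_mul_left _ _) _ (SplittingField.splits _)
  rw [← h, bs]
  exact finsum_congr fun p => by rw [tm_eq (hc p)]

end Line

end PWeil

theorem p_weil (hC : S_Crv) (hF : S_Fin) (hR : S_Res) (hT : S_Trans) : S_Weil := by
  intro κ F _ _ _ _ _ hc μ τ hμ hτ
  obtain ⟨t, ht, -⟩ := id hc
  have ht' : Transcendental κ t := ht.extendScalars κ
  have := (hC.2.1 κ F t ht').1 hc
  let E := RatFunc.algEquivOfTranscendental t ht'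
  let _ : Algebra (RatFunc κ) κ⟮t⟯ := (E : RatFunc κ →+* κ⟮t⟯).toAlgebra
  let _ : Algebra (RatFunc κ) F := ((algebraMap κ⟮t⟯ F).comp (E : RatFunc κ →+* κ⟮t⟯)).toAlgebra
  have : IsScalarTower (RatFunc κ) κ⟮t⟯ F := IsScalarTower.of_algebraMap_eq fun _ => rfl
  have : Module.Finite (RatFunc κ) κ⟮t⟯ :=
    Module.Finite.of_surjective (Algebra.linearMap (RatFunc κ) κ⟮t⟯) E.surjective
  have : FiniteDimensional (RatFunc κ) F := Module.Finite.trans κ⟮t⟯ F
  have hc0 := (hC.2.2 κ).1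
  obtain ⟨res, e, r1, -⟩ := hR (RatFunc κ) F hc0
  choose τ₀ hτ₀ using fun p : GPt (RatFunc κ) => p.exists_emb (algebraMap κ (RatFunc κ))
  have h1 := (hT (RatFunc κ) F hc0 res _ fun q => (r1 q _).2 rfl).1
    (PWeil.base hC hF hR μ (fun p => (τ₀ p : κ →+* Qb)) hμ hτ₀)
  have h2 : ∀ q, (τ₀ (res q) : κ →+* Qb) = τ q := fun q => RingHom.ext fun b => by
    have h3 := (r1 q _).2 rfl _ _ (hτ₀ (res q) b)
    have h4 : algebraMap (RatFunc κ) F (algebraMap κ _ b) = algebraMap κ F b := by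
      change algebraMap κ⟮t⟯ F (E (algebraMap κ _ b)) = _
      rw [E.commutes, ← IsScalarTower.algebraMap_apply]
    rw [h4] at h3
    exact h3.unique (hτ q b)
  simpa only [h2] using h1

end Pool.Agent.P.MP_b8021b_nt.VC
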