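import Pool.Agent.P.MP_b8021b_nt.VC.StT
import Pool.Agent.P.MP_b8021b_nt.VE.StN

/-! The weights of the design. -/

namespace Pool.Agent.P.MP_b8021b_nt.VC

open Polynomial NumberField Finset Pool.Agent.P.MP_b8021b_nt.VE
open scoped Classical

theorem p_wt (hT : VE.S_Theta) (hK : S_ThetaK) (hS : S_Step) : S_Wt := by
  intro R _ _ p A
  obtain ⟨y₁, h₁⟩ := hT A
  obtain ⟨y₂, h₂⟩ := hK p.r p.hr A
  obtain ⟨q₀, h₃⟩ := hS R p
  refine ⟨max (max y₁ y₂) q₀, fun y hy N hN hNA => ?_⟩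
  have hy₁ : y₁ ≤ y := (le_max_left _ _).trans ((le_max_left _ _).trans hy)
  have hy₂ : y₂ ≤ y := (le_max_right _ _).trans ((le_max_left _ _).trans hy)
  have hy₃ : (q₀ : ℝ) ≤ y := (le_max_right _ _).trans hy
  obtain ⟨-, -, a3, a4⟩ := h₁ y hy₁ N hN hNA
  obtain ⟨-, b2, b3⟩ := h₂ y hy₂ N hN hNA
  have key : ∀ q ∈ Pset y N, 0 ≤ wt p y N q ∧ wt p y N q ≤ 2 * wk p.r y N q ∧
      wt p y N q * (Xq p q).card = 2 * q * wk p.r y N q := by
    intro q hq
    obtain ⟨hp, hyq, -⟩ := a4 q hq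
    have hw := (b3 q hq).1
    by_cases hs : spl p.r q
    · have hc : (q : ℝ) ≤ (Xq p q).card := by
        exact_mod_cast h₃ q (by exact_mod_cast hy₃.trans hyq) hp hs
      have hq0 : (0 : ℝ) < q := by exact_mod_cast hp.pos
      have hc0 : (0 : ℝ) < (Xq p q).card := hq0.trans_le hc
      refine ⟨by unfold wt; positivity, ?_, ?_⟩
      · unfold wt
        rw [div_le_iff₀ hc0]
        nlinarith [mul_le_mul_of_nonneg_left hc hw]
      · unfold wt
        field_simp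
    · have h0 : wk p.r y N q = 0 := by simp [wk, hs]
      simp [wt, h0]
  have hmem : ∀ i < N, ∀ q ∈ strat y N i, q ∈ Pset y N := fun i hi q hq =>
    mem_biUnion.2 ⟨i, mem_range.2 hi, hq⟩
  refine ⟨fun i hi => ⟨?_, ?_⟩, a3, fun q hq => ?_⟩
  · rw [← b2 i hi]
    exact sum_le_sum fun q hq => (key q (hmem i hi q hq)).2.1
  · rw [← b2 i hi]
    refine sum_congr rfl fun q hq => ?_
    have hq0 : (q : ℝ) ≠ 0 := by exact_mod_cast (a4 q (hmem i hi q hq)).1.ne_zero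
    rw [← mul_div_assoc, (key q (hmem i hi q hq)).2.2]
    field_simp
  · obtain ⟨c1, c2, c3, c4, c5, -⟩ := a4 q hq
    obtain ⟨d1, d2, d3⟩ := key q hq
    refine ⟨c1, c2, c3, c4, c5, d1, d2, d2.trans ?_, d3⟩
    have := (b3 q hq).2
    calc 2 * wk p.r y N q ≤ 2 * (4 * N * Real.log y / y) := by linarith
      _ = 8 * N * Real.log y / y := by ring

end Pool.Agent.P.MP_b8021b_nt.VC
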