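import Pool.Agent.P.MP_b8021b_nt.VC.BAll
import Pool.Agent.P.MP_b8021b_nt.VC.PAlg
import Pool.Agent.P.MP_b8021b_nt.VC.PArch2
import Pool.Agent.P.MP_b8021b_nt.VC.PBC
import Pool.Agent.P.MP_b8021b_nt.VC.PBCN
import Pool.Agent.P.MP_b8021b_nt.VC.PBF
import Pool.Agent.P.MP_b8021b_nt.VC.PBad
import Pool.Agent.P.MP_b8021b_nt.VC.PBall
import Pool.Agent.P.MP_b8021b_nt.VC.PBom
import Pool.Agent.P.MP_b8021b_nt.VC.PC1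
import Pool.Agent.P.MP_b8021b_nt.VC.PC2
import Pool.Agent.P.MP_b8021b_nt.VC.PCard
import Pool.Agent.P.MP_b8021b_nt.VC.PCls1
import Pool.Agent.P.MP_b8021b_nt.VC.PCls2
import Pool.Agent.P.MP_b8021b_nt.VC.PConst
import Pool.Agent.P.MP_b8021b_nt.VC.PCore
import Pool.Agent.P.MP_b8021b_nt.VC.PCos
import Pool.Agent.P.MP_b8021b_nt.VC.PCov1
import Pool.Agent.P.MP_b8021b_nt.VC.PCover
import Pool.Agent.P.MP_b8021b_nt.VC.PCrv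
import Pool.Agent.P.MP_b8021b_nt.VC.PCv
import Pool.Agent.P.MP_b8021b_nt.VC.PCvEx
import Pool.Agent.P.MP_b8021b_nt.VC.PDeg
import Pool.Agent.P.MP_b8021b_nt.VC.PDen
import Pool.Agent.P.MP_b8021b_nt.VC.PDesc
import Pool.Agent.P.MP_b8021b_nt.VC.PDev
import Pool.Agent.P.MP_b8021b_nt.VC.PDisc
import Pool.Agent.P.MP_b8021b_nt.VC.PDvd
import Pool.Agent.P.MP_b8021b_nt.VC.PE2
import Pool.Agent.P.MP_b8021b_nt.VC.PE2avg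
import Pool.Agent.P.MP_b8021b_nt.VC.PEP
import Pool.Agent.P.MP_b8021b_nt.VC.PEis
import Pool.Agent.P.MP_b8021b_nt.VC.PEmb
import Pool.Agent.P.MP_b8021b_nt.VC.PEq2
import Pool.Agent.P.MP_b8021b_nt.VC.PErr
import Pool.Agent.P.MP_b8021b_nt.VC.PExtp
import Pool.Agent.P.MP_b8021b_nt.VC.PFbEx
import Pool.Agent.P.MP_b8021b_nt.VC.PFbNF
import Pool.Agent.P.MP_b8021b_nt.VC.PFin
import Pool.Agent.P.MP_b8021b_nt.VC.PFlat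
import Pool.Agent.P.MP_b8021b_nt.VC.PGcd
import Pool.Agent.P.MP_b8021b_nt.VC.PGeo
import Pool.Agent.P.MP_b8021b_nt.VC.PGeo2
import Pool.Agent.P.MP_b8021b_nt.VC.PHNP
import Pool.Agent.P.MP_b8021b_nt.VC.PIdD
import Pool.Agent.P.MP_b8021b_nt.VC.PIndS
import Pool.Agent.P.MP_b8021b_nt.VC.PIndT
import Pool.Agent.P.MP_b8021b_nt.VC.PInf
import Pool.Agent.P.MP_b8021b_nt.VC.PInt
import Pool.Agent.P.MP_b8021b_nt.VC.PKD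
import Pool.Agent.P.MP_b8021b_nt.VC.PKer
import Pool.Agent.P.MP_b8021b_nt.VC.PLam1
import Pool.Agent.P.MP_b8021b_nt.VC.PLem
import Pool.Agent.P.MP_b8021b_nt.VC.PLim
import Pool.Agent.P.MP_b8021b_nt.VC.PMix
import Pool.Agent.P.MP_b8021b_nt.VC.PMod
import Pool.Agent.P.MP_b8021b_nt.VC.PMul
import Pool.Agent.P.MP_b8021b_nt.VC.PNT
import Pool.Agent.P.MP_b8021b_nt.VC.PNrm
import Pool.Agent.P.MP_b8021b_nt.VC.PNumCh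
import Pool.Agent.P.MP_b8021b_nt.VC.POm
import Pool.Agent.P.MP_b8021b_nt.VC.POrd
import Pool.Agent.P.MP_b8021b_nt.VC.PPS
import Pool.Agent.P.MP_b8021b_nt.VC.PPS0
import Pool.Agent.P.MP_b8021b_nt.VC.PPSs
import Pool.Agent.P.MP_b8021b_nt.VC.PPairEst
import Pool.Agent.P.MP_b8021b_nt.VC.PPart
import Pool.Agent.P.MP_b8021b_nt.VC.PPi
import Pool.Agent.P.MP_b8021b_nt.VC.PPts
import Pool.Agent.P.MP_b8021b_nt.VC.PPush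
import Pool.Agent.P.MP_b8021b_nt.VC.PQF
import Pool.Agent.P.MP_b8021b_nt.VC.PQF2
import Pool.Agent.P.MP_b8021b_nt.VC.PRS
import Pool.Agent.P.MP_b8021b_nt.VC.PRS1
import Pool.Agent.P.MP_b8021b_nt.VC.PRS2
import Pool.Agent.P.MP_b8021b_nt.VC.PRad
import Pool.Agent.P.MP_b8021b_nt.VC.PRep2
import Pool.Agent.P.MP_b8021b_nt.VC.PRes
import Pool.Agent.P.MP_b8021b_nt.VC.PRig1
import Pool.Agent.P.MP_b8021b_nt.VC.PRig2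
import Pool.Agent.P.MP_b8021b_nt.VC.PRs
import Pool.Agent.P.MP_b8021b_nt.VC.PSEq
import Pool.Agent.P.MP_b8021b_nt.VC.PSWk
import Pool.Agent.P.MP_b8021b_nt.VC.PSec
import Pool.Agent.P.MP_b8021b_nt.VC.PSpl
import Pool.Agent.P.MP_b8021b_nt.VC.PSplit
import Pool.Agent.P.MP_b8021b_nt.VC.PStab
import Pool.Agent.P.MP_b8021b_nt.VC.PStep
import Pool.Agent.P.MP_b8021b_nt.VC.PSup
import Pool.Agent.P.MP_b8021b_nt.VC.PTEq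
import Pool.Agent.P.MP_b8021b_nt.VC.PTH
import Pool.Agent.P.MP_b8021b_nt.VC.PTH2
import Pool.Agent.P.MP_b8021b_nt.VC.PTP
import Pool.Agent.P.MP_b8021b_nt.VC.PTame
import Pool.Agent.P.MP_b8021b_nt.VC.PThetaK
import Pool.Agent.P.MP_b8021b_nt.VC.PTower
import Pool.Agent.P.MP_b8021b_nt.VC.PTrans
import Pool.Agent.P.MP_b8021b_nt.VC.PTriv
import Pool.Agent.P.MP_b8021b_nt.VC.PTyp
import Pool.Agent.P.MP_b8021b_nt.VC.PUGen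
import Pool.Agent.P.MP_b8021b_nt.VC.PUnif
import Pool.Agent.P.MP_b8021b_nt.VC.PUnit
import Pool.Agent.P.MP_b8021b_nt.VC.PUnr
import Pool.Agent.P.MP_b8021b_nt.VC.PVol
import Pool.Agent.P.MP_b8021b_nt.VC.PWW
import Pool.Agent.P.MP_b8021b_nt.VC.PWc
import Pool.Agent.P.MP_b8021b_nt.VC.PWeil
import Pool.Agent.P.MP_b8021b_nt.VC.PWin2
import Pool.Agent.P.MP_b8021b_nt.VC.PWt
import Pool.Agent.P.MP_b8021b_nt.VE.PCntP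
import Pool.Agent.P.MP_b8021b_nt.VE.PIq
import Pool.Agent.P.MP_b8021b_nt.VE.PKapP
import Pool.Agent.P.MP_b8021b_nt.VE.PLamP
import Pool.Agent.P.MP_b8021b_nt.VE.PLat
import Pool.Agent.P.MP_b8021b_nt.VE.PRay
import Pool.Agent.P.MP_b8021b_nt.VE.PRep
import Pool.Agent.P.MP_b8021b_nt.VE.PS0
import Pool.Agent.P.MP_b8021b_nt.VE.PTheta

/-! Assembly of the packages. -/

namespace Pool.Agent.P.MP_b8021b_nt.VC.All

open Pool.Agent.P.MP_b8021b_nt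

theorem e_S0 : VE.S_S0 :=
  VE.p_s0

theorem t_Crv : VC.S_Crv :=
  VC.p_crv e_S0

theorem t_Res : VC.S_Res :=
  VC.p_res e_S0

theorem t_Fin : VC.S_Fin :=
  VC.p_fin t_Crv t_Res

theorem t_Extp : VC.S_Extp :=
  VC.p_extp e_S0

theorem t_Split : VC.S_Split :=
  VC.p_split t_Crv t_Res t_Extp

theorem t_Trans : VC.S_Trans :=
  VC.p_trans t_Crv t_Fin t_Res

theorem t_Weil : VC.S_Weil :=
  VC.p_weil t_Crv t_Fin t_Res t_Trans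

theorem t_CvEx : VC.S_CvEx :=
  VC.p_cvEx e_S0 t_Crv t_Fin

theorem t_Eis : VC.S_Eis :=
  VC.p_eis

theorem t_Cv : VC.S_Cv :=
  VC.p_cv

theorem t_Pts : VC.S_Pts :=
  VC.p_pts t_Cv

theorem t_Nrm : VC.S_Nrm :=
  VC.p_nrm t_Cv t_Pts

theorem t_Push : VC.S_Push :=
  VC.p_push t_Fin t_Res

theorem t_BC : VC.S_BC :=
  VC.p_bC t_Cv

theorem t_Stab : VC.S_Stab :=
  VC.p_stab t_Pts t_Nrm

theorem t_Rig1 : VC.S_Rig1 :=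
  VC.p_rig1 t_Cv

theorem t_Lim : VC.S_Lim :=
  VC.p_lim t_Cv t_Pts t_Stab

theorem t_Rig2 : VC.S_Rig2 :=
  VC.p_rig2 t_Cv t_Pts t_Nrm t_Lim

theorem t_Unif : VC.S_Unif :=
  VC.p_unif t_Cv t_Pts t_Lim

theorem t_RS1 : VC.S_RS1 :=
  VC.p_rS1 t_Cv t_Pts t_Stab t_Rig1 t_Rig2 t_Unif

theorem t_RS : VC.S_RS :=
  VC.p_rS t_Cv t_Pts t_BC t_Stab t_RS1

theorem t_Mod : VC.S_Mod :=
  VC.p_mod t_Cv t_RS

theorem t_UGen : VC.S_UGen :=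
  VC.p_uGen

theorem t_Inf : VC.S_Inf :=
  VC.p_inf t_Nrm

theorem t_Disc : VC.S_Disc :=
  VC.p_disc t_Cv t_Pts t_Nrm t_BC t_Inf t_Stab

theorem t_Lem : VC.S_Lem :=
  VC.p_lem t_Cv t_Pts t_BC t_Rig1 t_Unif t_Disc

theorem t_Ord : VC.S_Ord :=
  VC.p_ord

theorem t_Rad : VC.S_Rad :=
  VC.p_rad t_Cv t_Pts t_BC t_Inf t_Lem t_Ord

theorem t_Deg : VC.S_Deg :=
  VC.p_deg

theorem e_IQ : VE.S_IQ :=
  VE.p_iq

theorem t_BF : VC.S_BF :=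
  VC.p_bF e_IQ

theorem t_FbEx : VC.S_FbEx :=
  VC.p_fbEx t_Eis

theorem t_QF : VC.S_QF :=
  VC.p_qF t_Deg

theorem t_C1 : VC.S_C1 :=
  VC.p_c1 t_Deg t_BF t_FbEx t_QF

theorem e_Rep : VE.S_Rep :=
  VE.p_rep

theorem t_Arch2 : VC.S_Arch2 :=
  VC.p_arch2

theorem t_C2 : VC.S_C2 :=
  VC.p_c2 e_Rep t_Arch2

theorem e_Theta : VE.S_Theta :=
  VE.p_theta

theorem e_Kap : VE.S_Kap :=
  VE.p_kapP

theorem t_ThetaK : VC.S_ThetaK :=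
  VC.p_thetaK e_Theta e_Kap

theorem t_Card : VC.S_Card :=
  VC.p_card

theorem t_Step : VC.S_Step :=
  VC.p_step t_Card

theorem t_Wt : VC.S_Wt :=
  VC.p_wt e_Theta t_ThetaK t_Step

theorem t_TEq : VC.S_TEq :=
  VC.p_tEq

theorem t_IndT : VC.S_IndT :=
  VC.p_indT t_Wt t_Card t_TEq

theorem t_SEq : VC.S_SEq :=
  VC.p_sEq t_Deg

theorem t_IndS : VC.S_IndS :=
  VC.p_indS t_Deg t_Wt t_Card t_SEq

theorem t_Wc : VC.S_Wc :=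
  VC.p_wc

theorem t_Flat : VC.S_Flat :=
  VC.p_flat t_Wc

theorem e_Cnt : VE.S_Cnt :=
  VE.p_cntP

theorem t_CutK : VC.S_CutK :=
  VC.cutK

theorem t_Tame : VC.S_Tame :=
  VC.p_tame

theorem t_FbNF : VC.S_FbNF :=
  VC.p_fbNF t_Deg t_QF t_Tame

theorem t_KD : VC.S_KD :=
  VC.p_kD

theorem t_Unr : VC.S_Unr :=
  VC.p_unr t_Eis

theorem t_QF2 : VC.S_QF2 :=
  VC.p_qF2 t_QF t_FbNF t_KD t_Unr

theorem t_Emb : VC.S_Emb :=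
  VC.p_emb

theorem t_Unit : VC.S_Unit :=
  VC.p_unit

theorem e_Ray : VE.S_Ray :=
  VE.p_ray

theorem e_Lam : VE.S_Lam :=
  VE.p_lamP

theorem t_Rep2 : VC.S_Rep2 :=
  VC.p_rep2 e_Ray e_Lam

theorem t_Part : VC.S_Part :=
  VC.p_part t_Emb

theorem t_Eq2 : VC.S_Eq2 :=
  VC.p_eq2 t_Emb t_Rep2 t_Part

theorem t_NumCh : VC.S_NumCh :=
  VC.p_numCh t_Emb t_Unit t_Rep2 t_Eq2

theorem t_Err : VC.S_Err :=
  VC.p_err t_Emb t_NumCh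

theorem t_Int : VC.S_Int :=
  VC.p_int

theorem t_Vol : VC.S_Vol :=
  VC.p_vol t_Emb t_Int

theorem e_Lat : VE.S_Lat :=
  VE.p_lat

theorem t_Win2 : VC.S_Win2 :=
  VC.p_win2 t_Vol e_Lat

theorem t_PS0 : VC.S_PS0 :=
  VC.p_pS0 t_Emb t_Rep2 t_Part t_Win2

theorem t_PSs : VC.S_PSs :=
  VC.p_pSs t_Emb t_Unit t_Rep2 t_Part t_Vol t_PS0 e_Lam

theorem t_Typ : VC.S_Typ :=
  VC.p_typ t_Emb

theorem t_Gcd : VC.S_Gcd :=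
  VC.p_gcd t_Typ

theorem t_SWk : VC.S_SWk :=
  VC.p_sWk t_Emb t_PSs t_Typ

theorem t_E2 : VC.S_E2 :=
  VC.p_e2 e_Theta t_ThetaK t_Emb t_PSs t_NumCh t_Gcd t_SWk e_Lam

theorem t_Dvd : VC.S_Dvd :=
  VC.p_dvd t_Deg t_Wt t_Card t_TEq t_Flat

theorem t_E2avg : VC.S_E2avg :=
  VC.p_e2avg t_E2 t_Dvd t_Flat

theorem t_BCN : VC.S_BCN :=
  VC.p_bCN

theorem t_EP : VC.S_EP :=
  VC.p_eP

theorem t_Den : VC.S_Den :=
  VC.p_den t_Emb t_PSs t_EP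

theorem t_Triv : VC.S_Triv :=
  VC.p_triv t_Den e_Lam

theorem t_TH2 : VC.S_TH2 :=
  VC.p_tH2 t_Den t_Triv t_KD t_BCN e_Lam

theorem t_Spl : VC.S_Spl :=
  VC.p_spl t_Unr

theorem t_Sec : VC.S_Sec :=
  VC.p_sec t_Den t_KD t_BCN e_Lam

theorem t_HNP : VC.S_HNP :=
  VC.p_hNP t_Tame t_Sec

theorem t_Ker : VC.S_Ker :=
  VC.p_ker t_Emb t_Unr t_Tame t_HNP

theorem t_Desc : VC.S_Desc :=
  VC.p_desc t_Typ t_Tame t_BCN t_Ker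

theorem t_Cls1 : VC.S_Cls1 :=
  VC.p_cls1 t_KD t_Unr t_BCN t_TH2 t_Spl t_Desc

theorem t_TH : VC.S_TH :=
  VC.p_tH t_Den t_Triv t_KD t_BCN e_Lam

theorem t_Cls2 : VC.S_Cls2 :=
  VC.p_cls2 t_KD t_Unr t_BCN t_Triv t_TH t_Spl t_Desc

theorem t_TP : VC.S_TP :=
  VC.p_tP t_Unr t_BCN

theorem t_PS : VC.S_PS :=
  VC.p_pS t_Emb t_Unit t_Vol t_PS0 t_PSs e_Lam

theorem t_RS2 : VC.S_RS2 :=
  VC.p_rS2 t_TP t_PS e_Lam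

theorem t_Bom : VC.S_Bom :=
  VC.p_bom e_Theta e_Lam t_RS2

theorem t_Mul : VC.S_Mul :=
  VC.p_mul

theorem t_Dev : VC.S_Dev :=
  VC.p_dev t_Wt t_Card t_TEq

theorem t_Bad : VC.S_Bad :=
  VC.p_bad e_Lam t_Card t_ThetaK t_Wt t_TEq t_Flat t_QF2 t_Typ t_BCN t_Cls1 t_Cls2 t_Bom t_Mul t_Dev

theorem t_Sup : VC.S_Sup :=
  VC.p_sup e_Cnt e_Lam t_Wt t_Flat t_Card t_PS t_PSs

theorem t_Ball : VC.S_Ball :=
  VC.p_ball t_Emb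

theorem t_Rs : VC.S_Rs :=
  VC.p_rs t_Emb t_PSs

theorem t_Cos : VC.S_Cos :=
  VC.p_cos t_Emb t_Ball t_Unit t_Part t_Eq2 t_Vol t_Win2 t_Typ t_NumCh t_PSs

theorem t_Om : VC.S_Om :=
  VC.p_om t_QF t_SEq t_Wc t_Flat

theorem t_IdD : VC.S_IdD :=
  VC.p_idD t_QF t_SEq

theorem t_WW : VC.S_WW :=
  VC.p_wW t_Deg t_QF t_SEq t_Flat t_IdD

theorem t_Lam1 : VC.S_Lam1 :=
  VC.p_lam1 e_Cnt t_Wt t_Flat t_Emb t_PSs

theorem t_PairEst : VC.S_PairEst :=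
  VC.p_pairEst t_Wt t_Flat t_QF t_QF2 t_Emb t_Ball t_Rs t_PSs t_Cos t_Om t_Sup t_WW t_Lam1

theorem t_Pi : VC.S_Pi :=
  VC.p_pi t_Wt t_TEq t_Flat

theorem t_Mix : VC.S_Mix :=
  VC.p_mix e_Cnt t_CutK t_BF t_FbEx t_Wt t_IndT t_IndS t_Flat t_QF2 t_NumCh t_Err t_E2avg t_Bad t_Sup t_PairEst t_Pi

theorem t_NT : VC.S_NT :=
  VC.p_nT t_IndT t_IndS t_Flat t_Mix

theorem t_BK : VC.S_BK :=
  VC.bK

theorem t_Core : VC.S_Core :=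
  VC.p_core t_Deg t_C1 t_C2 t_NT t_BK

theorem t_Alg : VC.S_Alg :=
  VC.p_alg t_Mod t_UGen t_Rad t_Core

theorem t_Geo2 : VC.S_Geo2 :=
  VC.p_geo2 e_S0 t_Crv t_Fin t_Res t_Split t_Weil t_CvEx t_Alg

theorem t_Geo : VC.S_Geo :=
  VC.p_geo t_Crv t_Res t_Push t_Geo2

theorem t_Tower : VC.S_Tower :=
  VC.p_tower t_Crv t_Res t_Split t_Eis

theorem t_Cov1 : VC.S_Cov1 :=
  VC.p_cov1 e_S0 t_Crv t_Fin t_Res t_Eis t_Trans t_CvEx t_Nrm t_Geo t_Tower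

theorem t_Cover : VC.S_Cover :=
  VC.p_cover e_S0 t_Fin t_Weil t_CvEx t_Cov1

theorem t_Const : VC.S_Const :=
  VC.p_const t_Crv t_Fin t_Res t_Split t_Trans t_Cover

end Pool.Agent.P.MP_b8021b_nt.VC.All
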