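import Pool.Agent.P.MP_b8021b_nt.VC.BDefs

/-! Shared lemmas on `Base.OkK`, `Side.OkK`, `DesK`, `Sys.OkK`. -/

namespace Pool.Agent.P.MP_b8021b_nt.VE

open Polynomial Finset
open scoped Classical

variable {P X Z T S : Type} [Fintype P] [Fintype X] [Fintype Z] [Fintype T] [Fintype S]

namespace Base.OkK

variable {b : Base P X} {kp ε ε' : ℝ} (h : b.OkK kp ε)
include h

lemma kp_pos : 0 < kp := lt_of_lt_of_le one_pos h.one_le

lemma one_le_N : (1 : ℝ) ≤ b.N := by
  rcases Nat.eq_zero_or_pos b.N with h0 | h0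
  · have := h.Npos
    rw [h0] at this
    norm_num at this
  · exact_mod_cast h0

lemma NR_pos : (0 : ℝ) < b.N := lt_of_lt_of_le one_pos h.one_le_N

lemma pos : 0 < ε := by
  by_contra hn
  have : ε * b.N ≤ 0 := mul_nonpos_of_nonpos_of_nonneg (not_lt.1 hn) (Nat.cast_nonneg _)
  linarith [h.Npos]

lemma q_pos (a : P) : 0 < b.q a := by
  by_contra hn
  have : ε * b.q a ≤ 0 := mul_nonpos_of_nonneg_of_nonpos h.pos.le (not_lt.1 hn)
  linarith [h.q_ge a, h.one_le_N]

lemma div_le : ε / b.N ≤ ε := div_le_self h.pos.le h.one_le_N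

lemma div_pos : 0 < ε / b.N := _root_.div_pos h.pos h.NR_pos

lemma mono (e : ε ≤ ε') : b.OkK kp ε' where
  one_le := h.one_le
  Npos := h.Npos.trans (mul_le_mul_of_nonneg_right e h.NR_pos.le)
  lev_lt := h.lev_lt
  v_mem := h.v_mem
  q_ge a := (h.q_ge a).trans (mul_le_mul_of_nonneg_right e (h.q_pos a).le)
  w_nonneg := h.w_nonneg
  w_le a := (h.w_le a).trans (div_le_div_of_nonneg_right e h.NR_pos.le)
  w_sum := h.w_sum
  card := h.card
  mass i hi := (h.mass i hi).trans (div_le_div_of_nonneg_right e h.NR_pos.le)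
  ι_ι := h.ι_ι
  pr_ι := h.pr_ι

/-- the total weight of the primes -/
lemma sum_w : ∑ a, b.w a ≤ kp * b.N := by
  rw [← sum_fiberwise_of_maps_to (s := univ) (t := range b.N) (g := b.lev)
    (fun a _ => mem_range.2 (h.lev_lt a))]
  refine (sum_le_sum fun i hi => h.w_sum i (mem_range.1 hi)).trans_eq ?_
  rw [sum_const, card_range, nsmul_eq_mul, mul_comm]

lemma sum_wN : ∑ a, b.w a / b.N ≤ kp := by
  rw [← sum_div, div_le_iff₀ h.NR_pos]; exact h.sum_w

omit h [Fintype P] in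
/-- a sum over points of a function of the prime -/
lemma sum_pr [Fintype P] (f : P → ℝ) :
    ∑ x, f (b.pr x) = ∑ a, ((univ.filter fun x => b.pr x = a).card : ℝ) * f a := by
  rw [← sum_fiberwise univ b.pr]
  refine sum_congr rfl fun a _ => ?_
  rw [sum_congr rfl fun x hx => by rw [(mem_filter.mp hx).2]]
  simp

/-- mass of the points of one level -/
lemma lev_mass {i : ℕ} (hi : i < b.N) :
    |∑ x with b.lev (b.pr x) = i, b.w (b.pr x) / b.q (b.pr x) - 1| ≤ ε / b.N := by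
  have e1 : ∑ x with b.lev (b.pr x) = i, b.w (b.pr x) / b.q (b.pr x) = ∑ a with b.lev a = i,
      b.w a * (((univ.filter fun x => b.pr x = a).card : ℝ) / b.q a) := by
    rw [sum_filter, sum_filter, sum_pr fun a => if b.lev a = i then b.w a / b.q a else 0]
    refine sum_congr rfl fun a _ => ?_
    split_ifs <;> ring
  rw [e1]; exact h.mass i hi

/-- the mean over the points of a function of the level -/
lemma abs_wq (F : ℕ → ℝ) :
    |∑ x, b.w (b.pr x) / b.q (b.pr x) * F (b.lev (b.pr x)) - ∑ i ∈ range b.N, F i| ≤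
      ε / b.N * ∑ i ∈ range b.N, |F i| := by
  rw [← sum_fiberwise_of_maps_to (s := univ) (t := range b.N) (g := fun x => b.lev (b.pr x))
    (fun x _ => mem_range.2 (h.lev_lt _)), ← sum_sub_distrib, mul_sum]
  refine (abs_sum_le_sum_abs _ _).trans (sum_le_sum fun i hi => ?_)
  rw [sum_congr rfl (g := fun x => b.w (b.pr x) / b.q (b.pr x) * F i) fun x hx => by
    rw [(mem_filter.1 hx).2], ← sum_mul, ← sub_one_mul, abs_mul]
  exact mul_le_mul_of_nonneg_right (h.lev_mass (mem_range.1 hi)) (abs_nonneg _)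

lemma sum_wq (hε : ε ≤ 1) (F : ℕ → ℝ) (hF : ∀ i, 0 ≤ F i) :
    ∑ x, b.w (b.pr x) / b.q (b.pr x) * F (b.lev (b.pr x)) ≤ 2 * ∑ i ∈ range b.N, F i := by
  have h1 := (abs_le.1 (h.abs_wq F)).2
  rw [sum_congr rfl fun i _ => abs_of_nonneg (hF i)] at h1
  have h2 : 0 ≤ ∑ i ∈ range b.N, F i := sum_nonneg fun i _ => hF i
  have h3 := mul_le_mul_of_nonneg_right (h.div_le.trans hε) h2
  linarith

/-- mass of all points -/
lemma total : |∑ x, b.w (b.pr x) / (b.q (b.pr x) * b.N) - 1| ≤ ε / b.N := by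
  have h1 := h.abs_wq fun _ => 1 / (b.N : ℝ)
  have hN := h.NR_pos
  have e : ∑ _i ∈ range b.N, 1 / (b.N : ℝ) = 1 := by
    rw [sum_const, card_range, nsmul_eq_mul]; field_simp
  rw [sum_congr rfl fun i _ => abs_of_pos (one_div_pos.2 hN), e, mul_one] at h1
  refine le_of_eq_of_le ?_ h1
  congr 2
  exact sum_congr rfl fun x _ => by rw [mul_one_div, div_div]

/-- mass of the points over one prime -/
lemma fib_mass (a : P) : ∑ x with b.pr x = a, b.w (b.pr x) / b.q (b.pr x) ≤ kp * (ε / b.N) := by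
  rw [sum_congr rfl fun x hx => by rw [(mem_filter.mp hx).2], sum_const, nsmul_eq_mul]
  have h1 : ((univ.filter fun x => b.pr x = a).card : ℝ) / b.q a ≤ kp := by
    rw [div_le_iff₀ (h.q_pos a)]; exact h.card a
  calc _ = ((univ.filter fun x => b.pr x = a).card : ℝ) / b.q a * b.w a := by ring
    _ ≤ _ := mul_le_mul h1 (h.w_le a) (h.w_nonneg a) h.kp_pos.le

/-- the two sums in the second moment bound for a multiple of the weight of one level -/
lemma lev_bb {i : ℕ} (hi : i < b.N) :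
    ε / b.N * (∑ a, if b.lev a = i then b.w a else 0) ^ 2 +
      ∑ a, (if b.lev a = i then b.w a else 0) ^ 2 ≤ 2 * kp ^ 2 * (ε / b.N) := by
  have e1 : ∑ a, (if b.lev a = i then b.w a else 0) ≤ kp := by
    rw [← sum_filter]; exact h.w_sum i hi
  have e0 : 0 ≤ ∑ a, (if b.lev a = i then b.w a else 0) := by
    rw [← sum_filter]; exact sum_nonneg fun a _ => h.w_nonneg a
  have e2 : ∑ a, (if b.lev a = i then b.w a else 0) ^ 2 ≤ ε / b.N * kp := by
    calc _ ≤ ∑ a, ε / b.N * (if b.lev a = i then b.w a else 0) := by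
          refine sum_le_sum fun a _ => ?_
          split_ifs
          · rw [sq]; exact mul_le_mul_of_nonneg_right (h.w_le a) (h.w_nonneg a)
          · simp
      _ ≤ _ := by rw [← mul_sum]; exact mul_le_mul_of_nonneg_left e1 h.div_pos.le
  have e3 := mul_le_mul_of_nonneg_left (pow_le_pow_left₀ e0 e1 2) h.div_pos.le
  have e4 : kp ≤ kp ^ 2 := le_self_pow₀ h.one_le two_ne_zero
  have e5 := mul_le_mul_of_nonneg_left e4 h.div_pos.le
  linarith

/-- the two sums in the second moment bound for the normalised weight -/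
lemma all_bb : ε / b.N * (∑ a, b.w a / b.N) ^ 2 + ∑ a, (b.w a / b.N) ^ 2 ≤ 2 * kp ^ 2 * ε := by
  have hb : ∀ a, 0 ≤ b.w a / b.N := fun a => div_nonneg (h.w_nonneg a) h.NR_pos.le
  have e2 : ∑ a, (b.w a / b.N) ^ 2 ≤ ε * kp := by
    calc _ ≤ ∑ a, ε * (b.w a / b.N) := sum_le_sum fun a _ => by
          rw [sq]
          exact mul_le_mul_of_nonneg_right
            ((div_le_self (h.w_nonneg a) h.one_le_N).trans ((h.w_le a).trans h.div_le)) (hb a)
      _ ≤ _ := by rw [← mul_sum]; exact mul_le_mul_of_nonneg_left h.sum_wN h.pos.le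
  have e3 := mul_le_mul h.div_le (pow_le_pow_left₀ (sum_nonneg fun a _ => hb a) h.sum_wN 2)
    (sq_nonneg _) h.pos.le
  have e4 : kp ≤ kp ^ 2 := le_self_pow₀ h.one_le two_ne_zero
  have e5 := mul_le_mul_of_nonneg_left e4 h.pos.le
  linarith

end Base.OkK

namespace Side.OkK

variable {σ : Side X Z} {b : Base P X} {kp ε ε' : ℝ}

omit [Fintype P] in
lemma mono (h : σ.OkK b kp ε) (e : ε ≤ ε') : σ.OkK b kp ε' where
  nonneg := h.nonneg
  sum := h.sum
  ind Y h1 h2 := (h.ind Y h1 h2).trans (div_le_div_of_nonneg_right e (Nat.cast_nonneg _))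
  same0 := h.same0
  same1 := h.same1

lemma c1_nonneg (h : σ.OkK b kp ε) (hb : b.OkK kp ε') (x : X) (z : Z) : 0 ≤ σ.c1 b x z := by
  unfold c1; split_ifs; exacts [mul_nonneg (h.nonneg z) (hb.q_pos _).le, le_rfl]

lemma c2_nonneg (h : σ.OkK b kp ε) (hb : b.OkK kp ε') (x x' : X) (z : Z) :
    0 ≤ σ.c2 b x x' z := by
  unfold c2; split_ifs
  exacts [mul_nonneg (h.nonneg z) (mul_pos (hb.q_pos _) (hb.q_pos _)).le, le_rfl]

omit [Fintype P] in
lemma sum_c1 (h : σ.OkK b kp ε) (x : X) : |∑ z, σ.c1 b x z - 1| ≤ ε / b.N := by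
  have := h.ind {x} (by simp) (by simp)
  have e : ∑ z, σ.c1 b x z = σ.prob {x} * b.q (b.pr x) := by
    unfold c1 prob; rw [sum_mul, sum_filter]; simp
  rw [e]; simpa using this

end Side.OkK

lemma DesK.mono {kp : ℝ} {b : Base P X} {σT : Side X T} {σS : Side X S} {u : ℕ}
    {μ : T → S → (Fin (u + 2) → X) → ℝ} {ε ε' : ℝ} (h : DesK kp b σT σS u μ ε) (e : ε ≤ ε') :
    DesK kp b σT σS u μ ε' :=
  ⟨h.base.mono e, h.sT.mono e, h.sS.mono e, h.mix.tup,
    fun φ ψ h1 h2 => (h.mix.cut φ ψ h1 h2).trans e⟩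

lemma Sys.OkK.mono {kp : ℝ} {Nc u d : ℕ} {G : Sys P X T S Nc u} {ε ε' : ℝ} (h : G.OkK kp d ε)
    (e : ε ≤ ε') : G.OkK kp d ε' :=
  { h with
    des := h.des.mono e
    box := ⟨h.box.mem, fun Y h1 h2 c => (h.box.cell Y h1 h2 c).trans
      (div_le_div_of_nonneg_right e (Nat.cast_nonneg _)), h.box.inv⟩ }

end Pool.Agent.P.MP_b8021b_nt.VE
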