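import Pool.Agent.P.MP_b8021b_nt.VC.BBasic

/-! Internal statements of part B, with a bound `kp` for the number of points over a prime. -/

namespace Pool.Agent.P.MP_b8021b_nt.VC.B

open Polynomial Finset
open Pool.Agent.P.MP_b8021b_nt.VE
open scoped Classical

/-- B2: second moments -/
def S_TK (kp : ℝ) : Prop :=
  ∃ C : ℝ, 1 ≤ C ∧ ∀ (P X Z : Type) [Fintype P] [Fintype X] [Fintype Z] (b : Base P X)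
    (σ : Side X Z) (ε : ℝ), ε ≤ 1 → b.OkK kp ε → σ.OkK b kp ε →
    (∀ (β : X → ℝ) (bb : P → ℝ), (∀ x, |β x| ≤ bb (b.pr x)) → (∀ a, 0 ≤ bb a) →
      ∑ z, σ.wt z * (∑ x, β x * ((if σ.on x z then 1 else 0) - 1 / b.q (b.pr x))) ^ 2 ≤
        C * (ε / b.N * (∑ a, bb a) ^ 2 + ∑ a, bb a ^ 2) ∧
      ∀ x₀, (∀ x, b.pr x = b.pr x₀ → β x = 0) →
        ∑ z, σ.c1 b x₀ z * (∑ x, β x * ((if σ.on x z then 1 else 0) - 1 / b.q (b.pr x))) ^ 2 ≤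
          C * (ε / b.N * (∑ a, bb a) ^ 2 + ∑ a, bb a ^ 2)) ∧
    (∀ (φ : Z → ℝ) (x : X), (∀ z, |φ z| ≤ 1) →
      ∑ x' with b.pr x' ≠ b.pr x, b.w (b.pr x') / (b.q (b.pr x') * b.N) *
        |∑ z, σ.c2 b x x' z * φ z - ∑ z, σ.c1 b x z * φ z| ≤ C * √ε) ∧
    ∀ Z₀ : Finset Z, ∑ z ∈ Z₀, ∑ x, σ.flag b x z ≤ C * √(∑ z ∈ Z₀, σ.wt z)

/-- B3: product test functions of one point or of two different points -/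
def S_One (kp : ℝ) : Prop :=
  ∀ u, 6 ≤ u → ∀ ε' : ℝ, 0 < ε' → ∃ ε : ℝ, 0 < ε ∧ ∀ (P X T S : Type) [Fintype P] [Fintype X]
    [Fintype T] [Fintype S] (b : Base P X) (σT : Side X T) (σS : Side X S)
    (μ : T → S → (Fin (u + 2) → X) → ℝ), DesK kp b σT σS u μ ε →
    ∀ (φ : T → X → ℝ) (ψ : S → X → ℝ), (∀ t x, |φ t x| ≤ 1) → (∀ s x, |ψ s x| ≤ 1) →
    |∑ t, ∑ s, ∑ x, μ t s x * (φ t (x 0) * ψ s (x 0)) -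
      ∑ x, b.w (b.pr x) / b.q (b.pr x) * P1 b.N u (b.lev (b.pr x)) *
        ((∑ t, σT.c1 b x t * φ t x) * ∑ s, σS.c1 b x s * ψ s x)| ≤ ε' ∧
    |∑ t, ∑ s, ∑ x, μ t s x * (φ t (x 0) * ψ s (x 1)) -
      ∑ x, ∑ x', b.om u x x' *
        ((∑ t, σT.c1 b x t * φ t x) * ∑ s, σS.c1 b x' s * ψ s x')| ≤ ε'

/-- B3: a rare event of a fibre and a point is rare on almost every section -/
def S_Cond (kp : ℝ) : Prop :=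
  ∀ u, 6 ≤ u → ∃ C : ℝ, 1 ≤ C ∧ ∀ ε' : ℝ, 0 < ε' → ∃ ε : ℝ, 0 < ε ∧ ∀ (P X T S : Type) [Fintype P]
    [Fintype X] [Fintype T] [Fintype S] (b : Base P X) (σT : Side X T) (σS : Side X S)
    (μ : T → S → (Fin (u + 2) → X) → ℝ), DesK kp b σT σS u μ ε →
    ∀ (E : T → X → Prop) (h : ℝ), ∑ t, ∑ x with E t x, σT.flag b x t ≤ h →
    ∑ s with σS.wt s * (C * h + ε') < ∑ t, ∑ x with E t (x 0), μ t s x, σS.wt s ≤ ε'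

/-- B4: the local structure on almost every section -/
def S_Loc (kp : ℝ) : Prop :=
  ∀ u, 6 ≤ u → ∀ (n : ℕ) (ε' : ℝ), 0 < ε' → ∃ ε : ℝ, 0 < ε ∧ ∀ (P X T S C : Type) [Fintype P]
    [Fintype X] [Fintype T] [Fintype S] [Fintype C] [Nonempty C] (b : Base P X) (σT : Side X T)
    (σS : Side X S) (μ : T → S → (Fin (u + 2) → X) → ℝ) (cell : T → C), Fintype.card C ≤ n →
    DesK kp b σT σS u μ ε → σT.CellInd b cell ε →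
    ∃ Gd : Finset S, ∑ s with s ∉ Gd, σS.wt s ≤ ε' ∧ ∑ t, ∑ s with s ∉ Gd, ∑ x, μ t s x ≤ ε' ∧
      ∀ s ∈ Gd, 0 < σS.wt s ∧ Loc b.N u (fun x => b.lev (b.pr x)) (σS.m b s)
        (fun t x => μ t s x / σS.wt s) cell ε'

/-- B9 -/
def S_SA (kp : ℝ) : Prop :=
  ∀ u d, 6 ≤ u → ∃ (C h₀ : ℝ) (N₀ : ℕ), 1 ≤ C ∧ 0 < h₀ ∧ ∀ Nc, N₀ ≤ Nc → ∀ ε' : ℝ, 0 < ε' →
    ∃ ε : ℝ, 0 < ε ∧ ∀ (P X T S : Type) [Fintype P] [Fintype X] [Fintype T] [Fintype S]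
      (G : Sys P X T S Nc u), G.OkK kp d ε → ∀ (a : X → ℝ) (lam h : ℝ), 0 < lam → h ≤ h₀ →
      G.PT a lam h → G.RS d a (C * lam) (C * h + ε') ε'

/-- B10 -/
def S_Tail (kp : ℝ) : Prop :=
  ∀ u d, 6 ≤ u → ∃ (C h₀ : ℝ) (N₀ : ℕ), 1 ≤ C ∧ 0 < h₀ ∧ ∀ Nc, N₀ ≤ Nc → ∀ ε' : ℝ, 0 < ε' →
    ∃ ε : ℝ, 0 < ε ∧ ∀ (P X T S : Type) [Fintype P] [Fintype X] [Fintype T] [Fintype S]
      (G : Sys P X T S Nc u), G.OkK kp d ε → ∀ (a : X → ℝ) (lam h : ℝ), 0 < lam → h ≤ h₀ →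
      G.PT a lam h → ∃ a', G.PT a' (C * lam) (C * h ^ 2 + ε')

/-- B11 -/
def S_Contr (kp : ℝ) : Prop :=
  ∀ u d, 6 ≤ u → ∃ (C h₀ : ℝ) (N₀ : ℕ), 1 ≤ C ∧ 0 < h₀ ∧ ∀ Nc, N₀ ≤ Nc → ∀ ε' : ℝ, 0 < ε' →
    ∃ ε : ℝ, 0 < ε ∧ ∀ (P X T S : Type) [Fintype P] [Fintype X] [Fintype T] [Fintype S]
      (G : Sys P X T S Nc u), G.OkK kp d ε → ∀ (a : X → ℝ) (lam h θ : ℝ), 0 < lam → h ≤ h₀ → 0 < θ →
      θ ≤ 1 → G.PT a lam h → ∃ a', G.PT a' (θ * lam) (C * (h + 1 / (Nc : ℝ) ^ 2 + ε') / θ ^ 2)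

/-- B12 -/
def S_Rig (kp : ℝ) : Prop :=
  ∀ u d, 6 ≤ u → ∀ δ : ℝ, 0 < δ → ∃ N₀ : ℕ, ∀ Nc, N₀ ≤ Nc →
    ∃ ε : ℝ, 0 < ε ∧ ∀ (P X T S : Type) [Fintype P] [Fintype X] [Fintype T] [Fintype S]
      (G : Sys P X T S Nc u), G.OkK kp d ε → ∃ a : X → ℝ, (∀ x, a (G.b.ι x) = -a x) ∧
      ∑ s, ∑ x with G.c₂ x s ≠ a x - G.β / (u + 2), G.σS.flag G.b x s ≤ δ

end Pool.Agent.P.MP_b8021b_nt.VC.B
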