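import Pool.Agent.P.MP_b8021b_nt.VC.BSt

/-!
Expectations for a design: symmetry, monotonicity, product bounds, medians.
-/

namespace Pool.Agent.P.MP_b8021b_nt.VC.B.Tail

open Pool.Agent.P.MP_b8021b_nt.VE

variable {kp : ℝ}

open Finset
open scoped Classical

set_option linter.unusedSectionVars false

noncomputable section

variable {P X Z T S : Type} [Fintype P] [Fintype X] [Fintype Z] [Fintype T] [Fintype S] {u : ℕ}

/-- indicator -/
def ind (p : Prop) : ℝ := if p then 1 else 0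

theorem ind_nonneg (p : Prop) : 0 ≤ ind p := by unfold ind; split_ifs <;> norm_num

theorem ind_le (p : Prop) : ind p ≤ 1 := by unfold ind; split_ifs <;> norm_num

theorem abs_ind (p : Prop) : |ind p| ≤ 1 := by rw [abs_of_nonneg (ind_nonneg p)]; exact ind_le p

theorem ind_pos {p : Prop} (h : p) : ind p = 1 := if_pos h

theorem ind_neg {p : Prop} (h : ¬ p) : ind p = 0 := if_neg h

theorem ind_and (p q : Prop) : ind p * ind q = ind (p ∧ q) := by
  by_cases hp : p <;> by_cases hq : q <;> simp [ind, hp, hq]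

theorem ind_le_of {p : Prop} {r : ℝ} (h0 : 0 ≤ r) (h : p → 1 ≤ r) : ind p ≤ r := by
  by_cases hp : p
  · rw [ind_pos hp]; exact h hp
  · rw [ind_neg hp]; exact h0

theorem sum_ind {α : Type} [Fintype α] (p : α → Prop) [DecidablePred p] (f : α → ℝ) :
    ∑ a with p a, f a = ∑ a, f a * ind (p a) := by
  rw [sum_filter]
  exact sum_congr rfl fun a _ => by unfold ind; split_ifs <;> simp

/-- expectation -/
def Ex (μ : T → S → (Fin (u + 2) → X) → ℝ) (f : T → S → (Fin (u + 2) → X) → ℝ) : ℝ :=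
  ∑ t, ∑ s, ∑ x, μ t s x * f t s x

variable {μ : T → S → (Fin (u + 2) → X) → ℝ} {f g : T → S → (Fin (u + 2) → X) → ℝ}

theorem Ex.mono (h0 : ∀ t s x, 0 ≤ μ t s x) (h : ∀ t s x, μ t s x ≠ 0 → f t s x ≤ g t s x) :
    Ex μ f ≤ Ex μ g :=
  sum_le_sum fun t _ => sum_le_sum fun s _ => sum_le_sum fun x _ => by
    by_cases e : μ t s x = 0
    · simp [e]
    · exact mul_le_mul_of_nonneg_left (h t s x e) (h0 t s x)

theorem Ex.add : Ex μ (fun t s x => f t s x + g t s x) = Ex μ f + Ex μ g := by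
  simp only [Ex, mul_add, sum_add_distrib]

theorem Ex.sum {ι : Type} (I : Finset ι) (f : ι → T → S → (Fin (u + 2) → X) → ℝ) :
    Ex μ (fun t s x => ∑ i ∈ I, f i t s x) = ∑ i ∈ I, Ex μ (f i) := by
  induction I using Finset.induction_on with
  | empty => simp [Ex]
  | insert i I hi ih => simp only [sum_insert hi]; rw [Ex.add, ih]

theorem sum_perm {π : (Fin (u + 2) → X) → ℝ}
    (h : ∀ x (σ : Equiv.Perm (Fin (u + 2))), π (x ∘ σ) = π x) (σ : Equiv.Perm (Fin (u + 2)))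
    (f : (Fin (u + 2) → X) → ℝ) : ∑ x, π x * f (x ∘ σ) = ∑ x, π x * f x :=
  Fintype.sum_equiv (Equiv.arrowCongr σ.symm (Equiv.refl X)) _ _ fun x => by
    rw [← h x σ]; rfl

theorem Ex.perm (h : ∀ t s x (σ : Equiv.Perm (Fin (u + 2))), μ t s (x ∘ σ) = μ t s x)
    (σ : Equiv.Perm (Fin (u + 2))) : Ex μ (fun t s x => f t s (x ∘ σ)) = Ex μ f :=
  sum_congr rfl fun t _ => sum_congr rfl fun s _ => sum_perm (h t s) σ (f t s)

theorem Ex.swap : Ex (fun s t x => μ t s x) (fun s t x => f t s x) = Ex μ f := sum_comm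

/-! ### monotonicity and symmetry of the hypotheses -/

variable {b : Base P X} {σ : Side X Z} {σT : Side X T} {σS : Side X S} {ε ε' : ℝ}

theorem side_mono (h : σ.OkK b kp ε) (e : ε ≤ ε') : σ.OkK b kp ε' := h.mono e

theorem des_mono (h : DesK kp b σT σS u μ ε) (e : ε ≤ ε') : DesK kp b σT σS u μ ε' := h.mono e

theorem ok_mono {Nc d : ℕ} {G : Sys P X T S Nc u} (h : G.OkK kp d ε) (e : ε ≤ ε') :
    G.OkK kp d ε' := h.mono e

theorem des_swap (h : DesK kp b σT σS u μ ε) : DesK kp b σS σT u (fun s t x => μ t s x) ε := by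
  refine ⟨h.base, h.sS, h.sT, ⟨fun s t => h.mix.tup.nonneg t s, fun s t => h.mix.tup.symm t s,
    fun s t x e => ⟨fun i => ((h.mix.tup.supp t s x e).1 i).symm, (h.mix.tup.supp t s x e).2⟩⟩,
    fun φ ψ h1 h2 => ?_⟩
  have := h.mix.cut ψ φ h2 h1
  rw [sum_comm, sum_comm (s := (univ : Finset T))] at this
  refine le_of_eq_of_le (congrArg abs ?_) this
  simp only [nu, mul_comm (φ _ _ _), mul_right_comm (b.om u _ _)]

theorem cellInd_unit (h : σ.OkK b kp ε) : σ.CellInd b (fun _ => ()) ε := fun Y h1 h2 c => by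
  have := h.ind Y (by omega) h2
  simpa [Side.prob] using this

theorem N_pos (h : b.OkK kp ε) : (0 : ℝ) < b.N := by
  by_contra hc
  have : (b.N : ℝ) = 0 := le_antisymm (not_lt.1 hc) (Nat.cast_nonneg _)
  have := h.Npos
  simp_all
  linarith

theorem q_pos (h : b.OkK kp ε) (a : P) : 0 < b.q a := by
  have h1 := N_pos h
  have hε : 0 < ε := by by_contra hc; nlinarith [h.Npos]
  by_contra hc; nlinarith [h.q_ge a]

theorem m_nonneg (h : b.OkK kp ε) (z : Z) (x : X) : 0 ≤ σ.m b z x := by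
  unfold Side.m; split_ifs; exacts [h.w_nonneg _, le_rfl]

theorem flag_nonneg (h : b.OkK kp ε) (h' : σ.OkK b kp ε) (x : X) (z : Z) : 0 ≤ σ.flag b x z :=
  div_nonneg (mul_nonneg (h'.nonneg z) (m_nonneg h z x)) (Nat.cast_nonneg _)

theorem c1_nonneg (h : b.OkK kp ε) (h' : σ.OkK b kp ε) (x : X) (z : Z) : 0 ≤ σ.c1 b x z := by
  unfold Side.c1; split_ifs; exacts [mul_nonneg (h'.nonneg z) (q_pos h _).le, le_rfl]

/-- flag mass of an event -/
def Fl (σ : Side X Z) (b : Base P X) (E : Z → X → Prop) : ℝ :=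
  ∑ z, ∑ x, σ.flag b x z * ind (E z x)

theorem fl_eq (h : b.OkK kp ε) (E : Z → X → Prop) :
    ∑ x, b.w (b.pr x) / (b.q (b.pr x) * b.N) * ∑ z, σ.c1 b x z * ind (E z x) = Fl σ b E := by
  simp only [Fl, mul_sum]
  rw [sum_comm]
  refine sum_congr rfl fun z _ => sum_congr rfl fun x _ => ?_
  have := q_pos h (b.pr x)
  unfold Side.c1 Side.flag Side.m
  split_ifs
  · field_simp
  · simp

theorem fl_nonneg (h : b.OkK kp ε) (h' : σ.OkK b kp ε) (E : Z → X → Prop) : 0 ≤ Fl σ b E :=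
  sum_nonneg fun z _ => sum_nonneg fun x _ => mul_nonneg (flag_nonneg h h' x z) (ind_nonneg _)

/-- a bound on every good member gives a bound for the flag mass -/
theorem fl_le (h' : σ.OkK b kp ε) (Gd : Z → Prop) (E : Z → X → Prop) {H : ℝ} (h0 : 0 ≤ H)
    (hE : ∀ z, Gd z → (∑ x, σ.m b z x * ind (E z x)) / b.N ≤ H) :
    Fl σ b (fun z x => Gd z ∧ E z x) ≤ H := by
  refine (sum_le_sum (g := fun z => σ.wt z * H) fun z _ => ?_).trans_eq
    (by rw [← sum_mul, h'.sum, one_mul])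
  by_cases hz : Gd z
  · refine le_of_eq_of_le ?_ (mul_le_mul_of_nonneg_left (hE z hz) (h'.nonneg z))
    simp only [hz, true_and, Side.flag, sum_div, mul_sum]
    exact sum_congr rfl fun x _ => by ring
  · simp only [hz, false_and, ind_neg not_false, mul_zero, sum_const_zero]
    exact mul_nonneg (h'.nonneg z) h0

theorem tot_ge (h : b.OkK kp ε) (h' : σ.OkK b kp ε) (e : ε ≤ 1 / 2) (x : X) : 1 / 2 ≤ ∑ z, σ.c1 b x z := by
  have h1 := h'.ind {x} (by simp) (by simp)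
  have h2 : ∑ z, σ.c1 b x z = σ.prob {x} * b.q (b.pr x) := by
    simp only [Side.prob, Side.c1, mem_singleton, forall_eq, sum_mul, sum_filter, ite_mul, zero_mul]
  have h3 : (1 : ℝ) ≤ b.N := Nat.one_le_cast.2 (Nat.cast_pos.1 (N_pos h))
  have hε : 0 < ε := by by_contra hc; nlinarith [h.Npos]
  have h4 : ε / b.N ≤ ε := div_le_self hε.le h3
  rw [prod_singleton] at h1
  rw [h2]
  linarith [(abs_le.1 h1).1]

/-- medians -/
theorem median (p g : S → ℝ) (hp : ∀ s, 0 ≤ p s) :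
    ∃ m : ℝ, (∑ s, p s) / 2 ≤ ∑ s, p s * ind (g s ≤ m) ∧ (∑ s, p s) / 2 ≤ ∑ s, p s * ind (m ≤ g s) := by
  have h0 : 0 ≤ ∑ s, p s := sum_nonneg fun s _ => hp s
  rcases isEmpty_or_nonempty S with hS | hS
  · exact ⟨0, by simp, by simp⟩
  obtain ⟨s1, -, h1⟩ := exists_max_image univ g univ_nonempty
  obtain ⟨s0, h2, h3⟩ := exists_min_image
    (univ.filter fun s => (∑ s, p s) / 2 ≤ ∑ s', p s' * ind (g s' ≤ g s)) g ⟨s1, by
      simp only [mem_filter, mem_univ, true_and, ind_pos (h1 _ (mem_univ _)), mul_one]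
      linarith⟩
  refine ⟨g s0, (mem_filter.1 h2).2, ?_⟩
  have h4 : ∑ s, p s * ind (g s0 ≤ g s) = ∑ s, p s - ∑ s, p s * ind (g s < g s0) := by
    rw [← sum_sub_distrib]
    refine sum_congr rfl fun s _ => ?_
    rcases lt_or_ge (g s) (g s0) with h | h
    · rw [ind_pos h, ind_neg h.not_ge]; ring
    · rw [ind_pos h, ind_neg h.not_gt]; ring
  rw [h4]
  rcases (univ.filter fun s => g s < g s0).eq_empty_or_nonempty with h | h
  · rw [← sum_ind, h, sum_empty]; linarith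
  · obtain ⟨s2, h5, h6⟩ := exists_max_image _ g h
    have h7 := (mem_filter.1 h5).2
    have h8 : ¬ (∑ s, p s) / 2 ≤ ∑ s', p s' * ind (g s' ≤ g s2) := fun hc =>
      h7.not_ge (h3 s2 (mem_filter.2 ⟨mem_univ _, hc⟩))
    have h9 : ∑ s, p s * ind (g s < g s0) ≤ ∑ s', p s' * ind (g s' ≤ g s2) :=
      sum_le_sum fun s _ => mul_le_mul_of_nonneg_left (ind_le_of (ind_nonneg _) fun hs =>
        (ind_pos (h6 s (mem_filter.2 ⟨mem_univ _, hs⟩))).ge) (hp s)
    linarith [not_le.1 h8]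

/-- the ideal two point law is bounded by the product of the flag masses -/
theorem two_le (h : DesK kp b σT σS u μ ε) {C : ℝ}
    (hH : ∀ i < b.N, ∀ i' < b.N, (b.N : ℝ) ^ 2 * Hh b.N u i i' ≤ C) (hC : 0 ≤ C)
    (E : T → X → Prop) (E' : S → X → Prop) :
    ∑ x, ∑ x', b.om u x x' * ((∑ t, σT.c1 b x t * ind (E t x)) * ∑ s, σS.c1 b x' s * ind (E' s x'))
      ≤ C * (Fl σT b E * Fl σS b E') := by
  rw [← fl_eq h.base, ← fl_eq h.base, sum_mul_sum, mul_sum]
  refine sum_le_sum fun x _ => ?_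
  rw [mul_sum]
  refine sum_le_sum fun x' _ => ?_
  have h1 : 0 ≤ (∑ t, σT.c1 b x t * ind (E t x)) * ∑ s, σS.c1 b x' s * ind (E' s x') :=
    mul_nonneg (sum_nonneg fun t _ => mul_nonneg (c1_nonneg h.base h.sT _ _) (ind_nonneg _))
      (sum_nonneg fun t _ => mul_nonneg (c1_nonneg h.base h.sS _ _) (ind_nonneg _))
  have hN := N_pos h.base
  have q1 := q_pos h.base (b.pr x)
  have q2 := q_pos h.base (b.pr x')
  have w1 := h.base.w_nonneg (b.pr x)
  have w2 := h.base.w_nonneg (b.pr x')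
  have h2 : b.om u x x' ≤ C * (b.w (b.pr x) / (b.q (b.pr x) * b.N) *
      (b.w (b.pr x') / (b.q (b.pr x') * b.N))) := by
    unfold Base.om
    split_ifs
    · have h3 := mul_le_mul_of_nonneg_left (hH _ (h.base.lev_lt (b.pr x)) _ (h.base.lev_lt (b.pr x')))
        (by positivity : 0 ≤ b.w (b.pr x) / (b.q (b.pr x) * b.N) *
          (b.w (b.pr x') / (b.q (b.pr x') * b.N)))
      refine le_of_eq_of_le ?_ (h3.trans_eq (mul_comm _ _))
      field_simp
    · positivity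
  exact (mul_le_mul_of_nonneg_right h2 h1).trans_eq (by ring)

/-- the ideal one point law dominates the flag mass -/
theorem one_ge (h : DesK kp b σT σS u μ ε) {c : ℝ} (hH : ∀ i < b.N, c ≤ b.N * P1 b.N u i) (hc : 0 ≤ c)
    (E : T → X → Prop) (E' : S → X → Prop) (hE : ∀ x, 1 / 4 ≤ ∑ s, σS.c1 b x s * ind (E' s x)) :
    c / 4 * Fl σT b E ≤ ∑ x, b.w (b.pr x) / b.q (b.pr x) * P1 b.N u (b.lev (b.pr x)) *
      ((∑ t, σT.c1 b x t * ind (E t x)) * ∑ s, σS.c1 b x s * ind (E' s x)) := by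
  rw [← fl_eq h.base, mul_sum]
  refine sum_le_sum fun x _ => ?_
  have h1 : 0 ≤ ∑ t, σT.c1 b x t * ind (E t x) :=
    sum_nonneg fun t _ => mul_nonneg (c1_nonneg h.base h.sT _ _) (ind_nonneg _)
  have hN := N_pos h.base
  have q1 := q_pos h.base (b.pr x)
  have w1 := h.base.w_nonneg (b.pr x)
  have h2 := mul_le_mul (hH _ (h.base.lev_lt (b.pr x))) (hE x) (by norm_num)
    (hc.trans (hH _ (h.base.lev_lt (b.pr x))))
  have h3 := mul_le_mul_of_nonneg_left h2
    (by positivity : 0 ≤ b.w (b.pr x) / (b.q (b.pr x) * b.N) * ∑ t, σT.c1 b x t * ind (E t x))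
  refine le_of_eq_of_le (by ring) (h3.trans_eq ?_)
  field_simp

/-- a bound for the conditional laws gives a bound for the expectation -/
theorem ex_le (h' : σT.OkK b kp ε) (Gd : T → Prop) (E : T → S → (Fin (u + 2) → X) → Prop) {H : ℝ}
    (h0 : 0 ≤ H) (hE : ∀ t, Gd t → 0 < σT.wt t ∧ ∑ s, ∑ x, μ t s x / σT.wt t * ind (E t s x) ≤ H) :
    Ex μ (fun t s x => ind (Gd t ∧ E t s x)) ≤ H := by
  refine (sum_le_sum (g := fun z => σT.wt z * H) fun z _ => ?_).trans_eq
    (by rw [← sum_mul, h'.sum, one_mul])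
  by_cases hz : Gd z
  · obtain ⟨h1, h2⟩ := hE z hz
    simp only [div_mul_eq_mul_div, ← sum_div, div_le_iff₀ h1] at h2
    simp only [hz, true_and]
    exact h2.trans_eq (mul_comm _ _)
  · simp only [hz, false_and, ind_neg not_false, mul_zero, sum_const_zero]
    exact mul_nonneg (h'.nonneg z) h0

/-- the mass of a set of good members is at most twice its weight -/
theorem ex_wt (h' : σT.OkK b kp ε) (Gd B : T → Prop)
    (hE : ∀ t, Gd t → 0 < σT.wt t ∧ ∑ s, ∑ x, μ t s x / σT.wt t ≤ 2) :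
    Ex μ (fun t _ _ => ind (Gd t ∧ B t)) ≤ 2 * ∑ t, σT.wt t * ind (B t) := by
  rw [mul_sum]
  refine sum_le_sum fun z _ => ?_
  by_cases hz : Gd z ∧ B z
  · obtain ⟨h1, h2⟩ := hE z hz.1
    simp only [← sum_div, div_le_iff₀ h1] at h2
    simpa only [ind_pos hz, ind_pos hz.2, mul_one] using h2
  · simp only [ind_neg hz, mul_zero, sum_const_zero]
    exact mul_nonneg zero_le_two (mul_nonneg (h'.nonneg z) (ind_nonneg _))

theorem fl_mono (h : b.OkK kp ε) (h' : σ.OkK b kp ε) {E E' E'' : Z → X → Prop}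
    (hE : ∀ z x, σ.on x z → E z x → E' z x ∨ E'' z x) : Fl σ b E ≤ Fl σ b E' + Fl σ b E'' := by
  simp only [Fl, ← sum_add_distrib, ← mul_add]
  refine sum_le_sum fun z _ => sum_le_sum fun x _ => ?_
  by_cases e : σ.on x z
  · refine mul_le_mul_of_nonneg_left (ind_le_of (add_nonneg (ind_nonneg _) (ind_nonneg _)) fun k => ?_)
      (flag_nonneg h h' x z)
    rcases hE z x e k with k | k
    · rw [ind_pos k]; linarith [ind_nonneg (E'' z x)]
    · rw [ind_pos k]; linarith [ind_nonneg (E' z x)]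
  · simp [Side.flag, Side.m, e]

theorem fl_inv (h : b.OkK kp ε) (hi : ∀ x z, σ.on x z → σ.on (b.ι x) z) (E : Z → X → Prop) :
    Fl σ b (fun z x => E z (b.ι x)) = Fl σ b E :=
  sum_congr rfl fun z _ => Fintype.sum_equiv (Function.Involutive.toPerm b.ι h.ι_ι) _ _ fun x => by
    have : σ.on (b.ι x) z ↔ σ.on x z := ⟨fun k => h.ι_ι x ▸ hi _ _ k, hi x z⟩
    simp [Side.flag, Side.m, this, h.pr_ι]

/-- the median step -/
theorem final (h : DesK kp b σT σS u μ ε) (e : ε ≤ 1 / 2) {c₀ δ η L : ℝ} (hc : 0 < c₀)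
    (hH : ∀ i < b.N, c₀ ≤ b.N * P1 b.N u i)
    (hone : ∀ (E : T → X → Prop) (E' : S → X → Prop),
      ∑ x, b.w (b.pr x) / b.q (b.pr x) * P1 b.N u (b.lev (b.pr x)) *
        ((∑ t, σT.c1 b x t * ind (E t x)) * ∑ s, σS.c1 b x s * ind (E' s x)) ≤
      Ex μ (fun t s x => ind (E t (x 0)) * ind (E' s (x 0))) + δ)
    (hi : ∀ x t, σT.on x t → σT.on (b.ι x) t) (c : X → T → ℝ) (ψ : S → X → ℝ)
    (hc' : ∀ x t, σT.on x t → c (b.ι x) t = -c x t)
    (hη : Ex μ (fun t s x => ind (L < |c (x 0) t - ψ s (x 0)|)) ≤ η) :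
    ∃ m : X → ℝ, (∀ x, m (b.ι x) = -m x) ∧
      Fl σT b (fun t x => L < |c x t - m x|) ≤ 16 * (η + δ) / c₀ := by
  choose m h1 h2 using fun x => median (σS.c1 b x) (fun s => ψ s x) (c1_nonneg h.base h.sS x)
  have key : ∀ (E : T → X → Prop) (E' : S → X → Prop),
      (∀ x, (∑ s, σS.c1 b x s) / 2 ≤ ∑ s, σS.c1 b x s * ind (E' s x)) →
      (∀ t s x, E t x → E' s x → L < |c x t - ψ s x|) → Fl σT b E ≤ 4 * (η + δ) / c₀ :=
    fun E E' k1 k2 => by
      have k3 := one_ge h hH hc.le E E' fun x => by linarith [k1 x, tot_ge h.base h.sS e x]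
      have k4 : Ex μ (fun t s x => ind (E t (x 0)) * ind (E' s (x 0))) ≤ η :=
        (Ex.mono h.mix.tup.nonneg fun t s x _ => by
          rw [ind_and]
          exact ind_le_of (ind_nonneg _) fun k => (ind_pos (k2 _ _ _ k.1 k.2)).ge).trans hη
      rw [le_div_iff₀ hc]
      linarith [hone E E']
  have k1 := key (fun t x => m x + L < c x t) (fun s x => ψ s x ≤ m x) h1 fun t s x a b =>
    lt_abs.2 (Or.inl (by linarith))
  have k2 := key (fun t x => c x t < m x - L) (fun s x => m x ≤ ψ s x) h2 fun t s x a b =>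
    lt_abs.2 (Or.inr (by linarith))
  have k3 := fl_mono h.base h.sT (E := fun t x => L < |c x t - m x|)
    (E' := fun t x => m x + L < c x t) (E'' := fun t x => c x t < m x - L) fun t x _ k =>
      (lt_abs.1 k).imp (fun _ => by linarith) fun _ => by linarith
  have k4 := fl_mono h.base h.sT (E := fun t x => L < |c x t - (m x - m (b.ι x)) / 2|)
    (E' := fun t x => L < |c x t - m x|) (E'' := fun t x => L < |c (b.ι x) t - m (b.ι x)|)
    fun t x k k' => by
      rw [hc' x t k]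
      by_contra hn
      obtain ⟨n1, n2⟩ := not_or.1 hn
      obtain ⟨n3, n4⟩ := abs_le.1 (not_lt.1 n1)
      obtain ⟨n5, n6⟩ := abs_le.1 (not_lt.1 n2)
      exact k'.not_ge (abs_le.2 ⟨by linarith, by linarith⟩)
  rw [fl_inv h.base hi (fun t x => L < |c x t - m x|)] at k4
  refine ⟨fun x => (m x - m (b.ι x)) / 2, fun x => by simp only [h.base.ι_ι]; ring, ?_⟩
  refine k4.trans (le_of_le_of_eq (by linarith : _ ≤ 4 * (4 * (η + δ) / c₀)) (by ring))

/-- an event that forces two bad indices -/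
theorem pairs (h : Tup b σT σS u μ) (GT : T → Prop) (GS : S → Prop) (bT : T → X → Prop)
    (bS : S → X → Prop) (E : T → S → (Fin (u + 2) → X) → Prop)
    (hE : ∀ t s x, μ t s x ≠ 0 → GT t → GS s → E t s x →
      (bT t (x 0) ∨ bS s (x 0)) ∧ ∃ i, i ≠ 0 ∧ (bT t (x i) ∨ bS s (x i))) :
    Ex μ (fun t s x => ind (E t s x)) ≤
      (u + 1) * (Ex μ (fun t _ x => ind (GT t ∧ bT t (x 0) ∧ bT t (x 1))) +
        Ex μ (fun _ s x => ind (GS s ∧ bS s (x 0) ∧ bS s (x 1))) +
        2 * Ex μ (fun t s x => ind (GT t ∧ bT t (x 0)) * ind (GS s ∧ bS s (x 1)))) +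
      Ex μ (fun t _ _ => ind (¬ GT t)) + Ex μ (fun _ s _ => ind (¬ GS s)) := by
  let F : T → S → (Fin (u + 2) → X) → ℝ := fun t s x =>
    ind (GT t ∧ bT t (x 0) ∧ bT t (x 1)) + ind (GS s ∧ bS s (x 0) ∧ bS s (x 1)) +
      ind (GT t ∧ bT t (x 0)) * ind (GS s ∧ bS s (x 1)) +
      ind (GT t ∧ bT t (x 1)) * ind (GS s ∧ bS s (x 0))
  have F0 : ∀ t s x, 0 ≤ F t s x := fun t s x =>
    add_nonneg (add_nonneg (add_nonneg (ind_nonneg _) (ind_nonneg _))
      (mul_nonneg (ind_nonneg _) (ind_nonneg _))) (mul_nonneg (ind_nonneg _) (ind_nonneg _))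
  have F1 : ∀ t s x, GT t → GS s → (bT t (x 0) ∨ bS s (x 0)) → (bT t (x 1) ∨ bS s (x 1)) →
      1 ≤ F t s x := fun t s x k1 k2 k3 k4 => by
    have n1 := ind_nonneg (GT t ∧ bT t (x 0) ∧ bT t (x 1))
    have n2 := ind_nonneg (GS s ∧ bS s (x 0) ∧ bS s (x 1))
    have n3 := ind_nonneg ((GT t ∧ bT t (x 0)) ∧ GS s ∧ bS s (x 1))
    have n4 := ind_nonneg ((GT t ∧ bT t (x 1)) ∧ GS s ∧ bS s (x 0))
    simp only [F, ind_and]
    rcases k3 with k3 | k3 <;> rcases k4 with k4 | k4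
    · linarith [ind_pos (⟨k1, k3, k4⟩ : GT t ∧ bT t (x 0) ∧ bT t (x 1))]
    · linarith [ind_pos (⟨⟨k1, k3⟩, k2, k4⟩ : (GT t ∧ bT t (x 0)) ∧ GS s ∧ bS s (x 1))]
    · linarith [ind_pos (⟨⟨k1, k4⟩, k2, k3⟩ : (GT t ∧ bT t (x 1)) ∧ GS s ∧ bS s (x 0))]
    · linarith [ind_pos (⟨k2, k3, k4⟩ : GS s ∧ bS s (x 0) ∧ bS s (x 1))]
  have h1 := Ex.mono (f := fun t s x => ind (E t s x)) (g := fun t s x =>
      ∑ i ∈ univ.erase (0 : Fin (u + 2)), F t s (x ∘ Equiv.swap 1 i) + ind (¬ GT t) + ind (¬ GS s))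
    h.nonneg fun t s x e => by
      have k0 := sum_nonneg (s := univ.erase (0 : Fin (u + 2)))
        fun i _ => F0 t s (x ∘ Equiv.swap 1 i)
      have k1 := ind_nonneg (¬ GT t)
      have k2 := ind_nonneg (¬ GS s)
      refine ind_le_of (by linarith) fun k => ?_
      by_cases a : GT t
      · by_cases a' : GS s
        · obtain ⟨k3, i, hi, k4⟩ := hE t s x e a a' k
          have k5 := single_le_sum (f := fun i => F t s (x ∘ Equiv.swap 1 i))
            (fun i _ => F0 t s _) (mem_erase.2 ⟨hi, mem_univ i⟩)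
          have k6 := F1 t s (x ∘ Equiv.swap 1 i) a a'
            (by rwa [Function.comp_apply, Equiv.swap_apply_of_ne_of_ne zero_ne_one hi.symm])
            (by rwa [Function.comp_apply, Equiv.swap_apply_left])
          linarith
        · rw [ind_pos a']; linarith
      · rw [ind_pos a]; linarith
  rw [Ex.add, Ex.add, Ex.sum] at h1
  simp only [Ex.perm h.symm, sum_const, card_erase_of_mem (mem_univ _), card_univ,
    Fintype.card_fin, nsmul_eq_mul] at h1
  have h2 := Ex.perm (f := fun t s x => ind (GT t ∧ bT t (x 0)) * ind (GS s ∧ bS s (x 1))) h.symm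
    (Equiv.swap 0 1)
  simp only [Function.comp_apply, Equiv.swap_apply_left, Equiv.swap_apply_right] at h2
  simp only [F, Ex.add, h2] at h1
  refine h1.trans_eq ?_
  rw [show u + 2 - 1 = u + 1 from rfl]
  push_cast
  ring

end

end Pool.Agent.P.MP_b8021b_nt.VC.B.Tail
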