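import Pool.Agent.P.MP_b8021b_nt.VC.StG
import Pool.Agent.P.MP_b8021b_nt.VC.BasicN

/-! Small elements of a lattice without a size hypothesis; positivity of the density of ideals. -/

namespace Pool.Agent.P.MP_b8021b_nt.VC

open Polynomial NumberField Finset MeasureTheory Pool.Agent.P.MP_b8021b_nt.VE
open scoped Classical ComplexConjugate Pointwise ENNReal

/-- the lattice points in a centred ball: at least the volume of the half ball over the covolume -/
lemma corput {V : Type} [NormedAddCommGroup V] [NormedSpace ℝ V] [FiniteDimensional ℝ V]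
    [MeasurableSpace V] [BorelSpace V] (μ : Measure V) [μ.IsAddHaarMeasure] (Λ : Submodule ℤ V)
    [DiscreteTopology Λ] [IsZLattice ℝ Λ] (ϱ : ℝ) :
    ∃ T : Finset V, (∀ x ∈ T, x ∈ Λ ∧ ‖x‖ ≤ ϱ) ∧
      μ.real (Metric.closedBall 0 (ϱ / 2)) ≤ T.card * ZLattice.covolume Λ μ := by
  have hfin : (Metric.closedBall (0 : V) ϱ ∩ (Λ : Set V)).Finite := by
    have h1 : IsClosed (Λ.toAddSubgroup : Set V) := AddSubgroup.isClosed_of_discrete
    exact Metric.finite_isBounded_inter_isClosed DiscreteTopology.isDiscrete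
      Metric.isBounded_closedBall h1
  refine ⟨hfin.toFinset, fun x hx => ?_, ?_⟩
  · rw [Set.Finite.mem_toFinset] at hx
    exact ⟨hx.2, by simpa using hx.1⟩
  have hF := ZLattice.isAddFundamentalDomain (Module.Free.chooseBasis ℤ Λ) μ
  set F := ZSpan.fundamentalDomain ((Module.Free.chooseBasis ℤ Λ).ofZLatticeBasis ℝ) with hFd
  have i1 : MeasurableVAdd Λ V := (inferInstance : MeasurableVAdd Λ.toAddSubgroup V)
  have i2 : VAddInvariantMeasure Λ V μ :=
    (inferInstance : VAddInvariantMeasure Λ.toAddSubgroup V μ)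
  have hFt : μ F ≠ ⊤ :=
    ((ZSpan.fundamentalDomain_isBounded _).measure_lt_top).ne
  set s : Set V := Metric.closedBall 0 (ϱ / 2) with hs
  have hm : ∀ g : Λ, MeasurableSet (g +ᵥ s) := fun g =>
    (Metric.isClosed_closedBall.measurableSet).const_vadd g
  have key : μ s ≤ (hfin.toFinset.card : ℝ≥0∞) * μ F := by
    rw [hF.measure_eq_tsum s]
    have e1 : ∀ g : Λ, μ ((g +ᵥ s) ∩ F) = ∫⁻ x in F, (g +ᵥ s).indicator 1 x ∂μ := fun g => by
      rw [lintegral_indicator_one (hm g), Measure.restrict_apply (hm g)]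
    simp_rw [e1]
    rw [← lintegral_tsum fun g => (measurable_one.indicator (hm g)).aemeasurable,
      ← setLIntegral_const]
    refine lintegral_mono fun x => ?_
    by_cases hx : ∃ g₀ : Λ, x ∈ g₀ +ᵥ s
    · obtain ⟨g₀, h₀⟩ := hx
      have hn : ∀ g : Λ, x ∈ g +ᵥ s → ‖x - g‖ ≤ ϱ / 2 := fun g hg => by
        obtain ⟨z, hz, rfl⟩ := hg
        have : (g +ᵥ z : V) - g = z := by
          change (g : V) + z - g = z
          abel
        simpa [this] using (by simpa [hs] using hz : ‖z‖ ≤ ϱ / 2)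
      have hsub : ∀ g : Λ, x ∈ g +ᵥ s → ((g : V) - g₀) ∈ hfin.toFinset := fun g hg => by
        rw [Set.Finite.mem_toFinset]
        refine ⟨?_, Λ.sub_mem g.2 g₀.2⟩
        have e : (g : V) - g₀ = (x - g₀) - (x - g) := by abel
        rw [mem_closedBall_zero_iff, e]
        have := norm_sub_le (x - g₀) (x - g)
        linarith [hn g hg, hn g₀ h₀]
      have hinj : Function.Injective fun g : Λ => (g : V) - g₀ := fun a b h =>
        Subtype.ext (sub_left_injective h)
      calc ∑' g : Λ, (g +ᵥ s).indicator (1 : V → ℝ≥0∞) x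
          ≤ ∑' g : Λ, (fun v : V => if v ∈ hfin.toFinset then (1 : ℝ≥0∞) else 0) ((g : V) - g₀) := by
            refine ENNReal.tsum_le_tsum fun g => ?_
            by_cases hg : x ∈ g +ᵥ s
            · simp only [Set.indicator_of_mem hg, Pi.one_apply, if_pos (hsub g hg), le_refl]
            · simp only [Set.indicator_of_notMem hg, zero_le]
        _ ≤ ∑' v : V, if v ∈ hfin.toFinset then (1 : ℝ≥0∞) else 0 :=
            ENNReal.tsum_comp_le_tsum_of_injective hinj _
        _ = hfin.toFinset.card := by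
            rw [tsum_eq_sum (s := hfin.toFinset) fun v hv => if_neg hv,
              Finset.sum_congr rfl fun v hv => if_pos hv]
            simp
    · have : ∀ g : Λ, (g +ᵥ s).indicator (1 : V → ℝ≥0∞) x = 0 := fun g =>
        Set.indicator_of_notMem (fun h => hx ⟨g, h⟩) _
      simp [this]
  rw [ZLattice.covolume_eq_measure_fundamentalDomain Λ μ hF, measureReal_def, measureReal_def]
  have := ENNReal.toReal_mono (ENNReal.mul_ne_top (ENNReal.natCast_ne_top _) hFt) key
  simpa using this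

/-- small elements of an ideal -/
lemma small_ideal (hE : S_Emb) {k : Type} [Field k] [NumberField k] [Algebra k ℂ] (K : BF k)
    {E : Type} [Field E] [NumberField E] [Algebra k E] (𝔟 : Ideal (𝓞 E)) (hb : 𝔟 ≠ ⊥) (ϱ : ℝ)
    (hϱ : 0 < ϱ) : ∃ T : Finset (𝓞 E), (∀ α ∈ T, α ∈ 𝔟 ∧ ‖emb k α‖ ≤ ϱ) ∧
      ϱ ^ (2 * Module.finrank k E) /
        (2 ^ Module.finrank k E * (Ideal.absNorm 𝔟 * cov2 k E)) ≤ T.card := by
  obtain ⟨C, h⟩ := hE k K (Module.finrank k E)
  obtain ⟨hc, -, -, -, -, hmem, hlat, hcov, -⟩ := h E rfl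
  obtain ⟨⟨i1, i2⟩, hv⟩ := hlat 𝔟 hb
  obtain ⟨T, hT, hc2⟩ := corput volume (lat k 𝔟) ϱ
  have hch : ∀ z : T, ∃ a ∈ 𝔟, emb k a = z := fun z => (hmem 𝔟 z).mp (hT z z.2).1
  choose f hf1 hf2 using hch
  have hinj : Function.Injective f := fun a b e => Subtype.ext (by rw [← hf2, ← hf2, e])
  refine ⟨Finset.univ.image f, fun α hα => ?_, ?_⟩
  · obtain ⟨z, -, rfl⟩ := Finset.mem_image.mp hα
    exact ⟨hf1 z, by rw [hf2]; exact (hT z z.2).2⟩
  rw [Finset.card_image_of_injective _ hinj, Finset.card_univ, Fintype.card_coe]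
  have hN : (0 : ℝ) < Ideal.absNorm 𝔟 := by
    exact_mod_cast Nat.pos_of_ne_zero fun h0 => hb (Ideal.absNorm_eq_zero_iff.mp h0)
  have hcv : 0 < cov2 k E := lt_of_lt_of_le (by positivity) hcov
  rw [hv, measureReal_def, volume_pi_closedBall _ (by positivity)] at hc2
  simp only [Pi.zero_apply, Complex.volume_closedBall, Finset.prod_const, Finset.card_univ, hc,
    ENNReal.toReal_pow, ENNReal.toReal_mul, ENNReal.toReal_ofReal (by positivity : 0 ≤ ϱ / 2),
    ENNReal.coe_toReal, NNReal.coe_real_pi] at hc2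
  rw [div_le_iff₀ (by positivity)]
  have h1 : ϱ ^ 2 ≤ 2 * ((ϱ / 2) ^ 2 * Real.pi) := by
    have := Real.two_le_pi
    nlinarith [sq_nonneg ϱ]
  calc ϱ ^ (2 * Module.finrank k E) = (ϱ ^ 2) ^ Module.finrank k E := pow_mul _ _ _
    _ ≤ (2 * ((ϱ / 2) ^ 2 * Real.pi)) ^ Module.finrank k E :=
        pow_le_pow_left₀ (by positivity) h1 _
    _ = 2 ^ Module.finrank k E * ((ϱ / 2) ^ 2 * Real.pi) ^ Module.finrank k E := mul_pow _ _ _
    _ ≤ 2 ^ Module.finrank k E * (T.card * (Ideal.absNorm 𝔟 * cov2 k E)) :=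
        mul_le_mul_of_nonneg_left hc2 (by positivity)
    _ = _ := by ring

lemma Rs_one_pos (E : Type) [Field E] [NumberField E] : 0 < Rs E 1 := by
  have h := (NumberField.Ideal.tendsto_norm_le_div_atTop E).comp tendsto_natCast_atTop_atTop
  have e : (fun X : ℕ => (Set.ncard {I : Ideal (𝓞 E) | Cop 1 I ∧ Ideal.absNorm I ≤ X} : ℝ) / X) =
      (fun s : ℝ => (Nat.card {I : Ideal (𝓞 E) // (Ideal.absNorm I : ℝ) ≤ s} : ℝ) / s) ∘
        Nat.cast := by
    funext X
    have : {I : Ideal (𝓞 E) | Cop 1 I ∧ Ideal.absNorm I ≤ X} =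
        {I : Ideal (𝓞 E) | (Ideal.absNorm I : ℝ) ≤ (X : ℝ)} := by
      ext I
      simp [Cop, Ideal.isCoprime_iff_sup_eq]
    rw [this]
    rfl
  unfold Rs
  rw [e, h.limUnder_eq]
  have h1 := Units.regulator_pos E
  have h2 : (0 : ℝ) < classNumber E := by exact_mod_cast classNumber_pos E
  have h3 : (0 : ℝ) < Units.torsionOrder E := by exact_mod_cast Units.torsionOrder_pos E
  have h4 : (discr E : ℝ) ≠ 0 := by exact_mod_cast discr_ne_zero E
  have h5 := Real.sqrt_pos.mpr (abs_pos.mpr h4)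
  have h6 := Real.pi_pos
  positivity

lemma Rs_pos (hE : S_Emb) (hP : S_PSs) {k : Type} [Field k] [NumberField k] [Algebra k ℂ]
    (K : BF k) (E : Type) [Field E] [NumberField E] [Algebra k E] {n : ℕ} (hn : 1 ≤ n) :
    0 < Rs E n := by
  rcases hn.eq_or_lt with rfl | h2
  · exact Rs_one_pos E
  obtain ⟨C, h⟩ := hE k K (Module.finrank k E)
  obtain ⟨-, -, -, -, -, -, -, -, ⟨Q, hQ, hS⟩, -⟩ := h E rfl
  obtain ⟨C', h'⟩ := hP k K (Module.finrank k E)
  exact (h' E rfl Q n hQ hS h2).1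

end Pool.Agent.P.MP_b8021b_nt.VC
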