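import Pool.Agent.P.MP_b8021b_nt.VC.DefT
import Pool.Agent.P.MP_b8021b_nt.VC.BasicA

/-! Shared lemmas on the design: membership, weights, `Fix.Ev`, `Qs` and `Es`. -/

namespace Pool.Agent.P.MP_b8021b_nt.VC

open Polynomial Finset Filter Pool.Agent.P.MP_b8021b_nt.VE
open scoped Classical

/-! ### primes and weights -/

lemma mem_strat {y : ℝ} {N i q : ℕ} :
    q ∈ strat y N i ↔ q < ⌈3 * y⌉₊ + 1 ∧ q.Prime ∧ ⌊N * Real.log (q / y)⌋ = i := by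
  simp only [strat, mem_filter, mem_range]

lemma mem_Pset {y : ℝ} {N q : ℕ} : q ∈ Pset y N ↔ ∃ i < N, q ∈ strat y N i := by
  simp only [Pset, mem_biUnion, mem_range]

lemma lv_of_mem_strat {y : ℝ} {N i q : ℕ} (h : q ∈ strat y N i) : lv y N q = i := by
  have := (mem_strat.mp h).2.2
  rw [lv, ← Int.floor_toNat, this, Int.toNat_natCast]

lemma strat_subset_Pset {y : ℝ} {N i : ℕ} (h : i < N) : strat y N i ⊆ Pset y N :=
  fun _ hq => mem_Pset.mpr ⟨i, h, hq⟩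

lemma prime_of_mem_Pset {y : ℝ} {N q : ℕ} (h : q ∈ Pset y N) : q.Prime := by
  obtain ⟨_, -, hi⟩ := mem_Pset.mp h
  exact (mem_strat.mp hi).2.1

lemma lv_lt_of_mem_Pset {y : ℝ} {N q : ℕ} (h : q ∈ Pset y N) : lv y N q < N := by
  obtain ⟨_, h1, hi⟩ := mem_Pset.mp h
  rwa [lv_of_mem_strat hi]

lemma mem_strat_lv {y : ℝ} {N q : ℕ} (h : q ∈ Pset y N) : q ∈ strat y N (lv y N q) := by
  obtain ⟨_, -, hi⟩ := mem_Pset.mp h
  rwa [lv_of_mem_strat hi]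

/-- a sum over the window is a sum over the strata -/
lemma sum_Pset {M : Type*} [AddCommMonoid M] (y : ℝ) (N : ℕ) (f : ℕ → M) :
    ∑ q ∈ Pset y N, f q = ∑ i ∈ range N, ∑ q ∈ strat y N i, f q := by
  refine sum_biUnion fun i _ j _ hij => disjoint_left.mpr fun q hi hj => hij ?_
  rw [← lv_of_mem_strat hi, lv_of_mem_strat hj]

lemma wk_nonneg (r : ℕ) (y : ℝ) (N q : ℕ) : 0 ≤ wk r y N q := by
  unfold wk
  split_ifs
  · exact div_nonneg (Real.log_natCast_nonneg _)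
      (mul_nonneg zero_le_two (sum_nonneg fun _ _ => Real.log_natCast_nonneg _))
  · exact le_rfl

lemma wk_of_not_spl {r : ℕ} {y : ℝ} {N q : ℕ} (h : ¬ spl r q) : wk r y N q = 0 := if_neg h

variable {R : Type} [CommRing R] [Algebra ℤ[X] R]

lemma wt_nonneg (p : Par R) (y : ℝ) (N q : ℕ) : 0 ≤ wt p y N q :=
  div_nonneg (mul_nonneg (by positivity) (wk_nonneg _ _ _ _)) (Nat.cast_nonneg _)

lemma Par.rho_nonneg (p : Par R) (t : ℤ × ℤ) (q : ℕ) : 0 ≤ p.rho t q := by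
  unfold Par.rho; positivity

/-! ### points -/

namespace Par

variable {p : Par R}

lemma r_pos (p : Par R) : 0 < p.r := p.hr.pos

lemma two_le_r (p : Par R) : 2 ≤ p.r := p.hr.two_le

lemma e_pos (p : Par R) : 0 < p.e := p.he.pos

lemma inv_inv {x : p.Pn} (h : x.2.2.1 ≤ x.1) : p.inv (p.inv x) = x := by
  obtain ⟨q, a, w, v⟩ := x
  simp only [inv, Prod.mk.injEq, true_and, and_true] at h ⊢
  omega

@[simp] lemma inv_fst (x : p.Pn) : (p.inv x).1 = x.1 := rfl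

lemma onT_inv (x : p.Pn) (t : ℤ × ℤ) : p.OnT (p.inv x) t ↔ p.OnT x t := Iff.rfl

lemma IsPt.prime {x : p.Pn} (h : p.IsPt x) : x.1.Prime := h.1

lemma IsPt.inv_inv {x : p.Pn} (h : p.IsPt x) : p.inv (p.inv x) = x := Par.inv_inv h.2.2.2.2.1.le

lemma IsPt.ne_two {x : p.Pn} (h : p.IsPt x) : x.1 ≠ 2 := fun e =>
  h.2.1 (e ▸ dvd_mul_right 2 p.r)

lemma IsPt.ne_r {x : p.Pn} (h : p.IsPt x) : x.1 ≠ p.r := fun e =>
  h.2.1 (e ▸ dvd_mul_left _ 2)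

end Par

lemma fst_mem_Pset {p : Par R} {y : ℝ} {N : ℕ} {x : p.Pn} (h : x ∈ Xset p y N) :
    x.1 ∈ Pset y N := (mem_Xset.mp h).1

lemma isPt_of_mem_Xset {p : Par R} {y : ℝ} {N : ℕ} {x : p.Pn} (h : x ∈ Xset p y N) :
    p.IsPt x := (mem_Xset.mp h).2

lemma inv_mem_Xset {p : Par R} {y : ℝ} {N : ℕ} {x : p.Pn} (h : x ∈ Xset p y N) :
    p.inv x ∈ Xset p y N := mem_Xset.mpr ⟨(mem_Xset.mp h).1, (mem_Xset.mp h).2.inv⟩

/-- a sum over the points of the window is a sum over the primes -/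
lemma sum_Xset {M : Type*} [AddCommMonoid M] (p : Par R) (y : ℝ) (N : ℕ) (f : p.Pn → M) :
    ∑ x ∈ Xset p y N, f x = ∑ q ∈ Pset y N, ∑ x ∈ Xq p q, f x := by
  refine sum_biUnion fun i _ j _ hij => disjoint_left.mpr fun x hi hj => hij ?_
  rw [← (mem_Xq.mp hi).1, (mem_Xq.mp hj).1]

lemma filter_Xset (p : Par R) {y : ℝ} {N q : ℕ} (h : q ∈ Pset y N) :
    (Xset p y N).filter (fun x => x.1 = q) = Xq p q := by
  ext x
  rw [mem_filter, mem_Xset, mem_Xq]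
  exact ⟨fun h' => ⟨h'.2, h'.1.2⟩, fun h' => ⟨⟨h'.1 ▸ h, h'.2⟩, h'.1⟩⟩

/-! ### sections and fibres -/

lemma mem_Sset {p : Par R} {S0 L : ℕ} {s : p.Co} :
    s ∈ Sset p S0 L ↔ ∀ j, |s j - cen p S0 j| < L := by
  simp only [Sset, Fintype.mem_piFinset, Finset.mem_Ioo, abs_lt]
  exact forall_congr' fun j => by constructor <;> rintro ⟨h1, h2⟩ <;> constructor <;> linarith

lemma wS_nonneg (p : Par R) (S0 L : ℕ) (s : p.Co) : 0 ≤ wS p S0 L s :=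
  prod_nonneg fun _ _ => div_nonneg (tent_nonneg _) (Nat.cast_nonneg _)

lemma Tset_prop {p : Par R} {c : Cfg} {t : ℤ × ℤ} (h : t ∈ Tset p c) :
    c.B ≤ t.2 ∧ t.2 < c.B * (1 + c.η) ∧ c.τ0 ≤ (t.1 : ℝ) / t.2 ∧ (t.1 : ℝ) / t.2 < c.τ0 + c.η ∧
      (p.r : ℤ) ^ p.n0 ∣ t.1 - 1 ∧ (p.r : ℤ) ^ p.n0 ∣ t.2 - p.r ^ p.b0 ∧
      (Mf p c.z : ℤ) ∣ t.1 ∧ (Mf p c.z : ℤ) ∣ t.2 - 1 :=
  (mem_filter.mp h).2

lemma Mf_pos (p : Par R) (z : ℕ) : 0 < Mf p z :=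
  Nat.mul_pos (M0_pos _ _) (pow_pos p.e_pos _)

lemma M0_dvd_Mf (p : Par R) (z : ℕ) : M0 p.r z ∣ Mf p z := dvd_mul_right _ _

lemma pow_dvd_Mf (p : Par R) (z : ℕ) : p.e ^ p.ke ∣ Mf p z := dvd_mul_left _ _

lemma prime_dvd_Mf {p : Par R} {z l : ℕ} (hl : l.Prime) :
    l ∣ Mf p z ↔ (l ≤ z ∧ l ≠ p.r) ∨ l = p.e := by
  rw [Mf, hl.dvd_mul, prime_dvd_M0 hl]
  refine or_congr Iff.rfl ⟨fun h => ?_, fun h => ?_⟩
  · exact (Nat.prime_dvd_prime_iff_eq hl p.he).mp (hl.dvd_of_dvd_pow h)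
  · exact h ▸ dvd_pow_self _ (Nat.succ_ne_zero _)

lemma coprime_Mf (p : Par R) (z : ℕ) : (Mf p z).Coprime p.r := by
  rw [Nat.coprime_comm, p.hr.coprime_iff_not_dvd, prime_dvd_Mf p.hr]
  rintro (h | h)
  · exact h.2 rfl
  · exact p.re.ne h

lemma one_le_Pi (p : Par R) (z n : ℕ) : 1 ≤ Pi p z n :=
  Finset.one_le_prod fun l _ => le_add_of_nonneg_right (by positivity)

lemma Wg_nonneg (p : Par R) (c : Cfg) (u : ℕ) (t : ℤ × ℤ) (s : p.Co) (x x' : p.Pn) :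
    0 ≤ Wg p c u t s x x' :=
  sum_nonneg fun _ _ => prod_nonneg fun _ _ => wt_nonneg _ _ _ _

lemma t2_nonneg {p : Par R} {c : Cfg} {t : ℤ × ℤ} (ht : t ∈ Tset p c) : 0 ≤ t.2 :=
  (Finset.mem_Icc.mp (mem_product.mp (mem_filter.mp ht).1).2).1

/-- the weights of the fibres are nonnegative -/
lemma wT_nonneg {p : Par R} {c : Cfg} {t : ℤ × ℤ} (ht : t ∈ Tset p c) : 0 ≤ wT p c t :=
  div_nonneg (inv_nonneg.mpr (by exact_mod_cast t2_nonneg ht))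
    (sum_nonneg fun _ ht' => inv_nonneg.mpr (by exact_mod_cast t2_nonneg ht'))

lemma sum_wT_le (p : Par R) (c : Cfg) : ∑ t ∈ Tset p c, wT p c t ≤ 1 := by
  simp only [wT]
  rw [← sum_div]
  exact (div_self_le_one _)

lemma sum_wT {p : Par R} {c : Cfg} (h : ∑ t ∈ Tset p c, ((t.2 : ℝ))⁻¹ ≠ 0) :
    ∑ t ∈ Tset p c, wT p c t = 1 := by
  simp only [wT]
  rw [← sum_div, div_self h]

/-! ### large `y` -/

namespace Fix

section

variable {F : Fix R} {Φ Ψ : Cfg → Prop}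

lemma Ev.and (h : F.Ev Φ) (h' : F.Ev Ψ) : F.Ev fun c => Φ c ∧ Ψ c := by
  obtain ⟨a, ha⟩ := h
  obtain ⟨b, hb⟩ := h'
  exact ⟨max a b, fun c hc hi =>
    ⟨ha c ((le_max_left _ _).trans hc) hi, hb c ((le_max_right _ _).trans hc) hi⟩⟩

lemma Ev.mono (h : F.Ev Φ) (h' : ∀ c, F.In c → Φ c → Ψ c) : F.Ev Ψ := by
  obtain ⟨a, ha⟩ := h
  exact ⟨a, fun c hc hi => h' c hi (ha c hc hi)⟩

lemma Ev.of_forall (h : ∀ c, F.In c → Φ c) : F.Ev Φ := ⟨0, fun c _ hi => h c hi⟩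

lemma Ev.of_eventually {φ : ℝ → Prop} (h : ∀ᶠ y in atTop, φ y) : F.Ev fun c => φ c.y := by
  obtain ⟨a, ha⟩ := eventually_atTop.mp h
  exact ⟨a, fun c hc _ => ha c.y hc⟩

lemma Ev.of_exists {φ : ℝ → Prop} (h : ∃ y₀, ∀ y, y₀ ≤ y → φ y) : F.Ev fun c => φ c.y := by
  obtain ⟨a, ha⟩ := h
  exact ⟨a, fun c hc _ => ha c.y hc⟩

lemma ev_y_ge (F : Fix R) (a : ℝ) : F.Ev fun c => a ≤ c.y := ⟨a, fun _ hc _ => hc⟩

lemma ev_log_ge (F : Fix R) (a : ℝ) : F.Ev fun c => a ≤ Real.log c.y :=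
  Ev.of_eventually (φ := fun y => a ≤ Real.log y) (Real.tendsto_log_atTop.eventually_ge_atTop a)

lemma Ev.forall_finset {ι : Type*} (s : Finset ι) {Φ : ι → Cfg → Prop} (h : ∀ i ∈ s, F.Ev (Φ i)) :
    F.Ev fun c => ∀ i ∈ s, Φ i c := by
  induction s using Finset.induction_on with
  | empty => exact Ev.of_forall (by simp)
  | insert a s _ ih =>
    refine ((h a (mem_insert_self _ _)).and (ih fun i hi => h i (mem_insert_of_mem hi))).mono ?_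
    intro c _ hc i hi
    rcases mem_insert.mp hi with rfl | hi
    exacts [hc.1, hc.2 i hi]

lemma Ev.forall_fintype {ι : Type*} [Finite ι] {Φ : ι → Cfg → Prop} (h : ∀ i, F.Ev (Φ i)) :
    F.Ev fun c => ∀ i, Φ i c := by
  have := Fintype.ofFinite ι
  exact (Ev.forall_finset univ fun i _ => h i).mono fun c _ hc i => hc i (mem_univ i)

end

lemma ev_log_pow_le (F : Fix R) (C : ℝ) (A : ℕ) {δ : ℝ} (hδ : 0 < δ) :
    F.Ev fun c => C * Real.log c.y ^ A ≤ c.y ^ δ :=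
  Ev.of_eventually (φ := fun y => C * Real.log y ^ A ≤ y ^ δ) (VE.ev_log_pow_le C A hδ)

lemma ev_log_pow_le_self (F : Fix R) (C : ℝ) (A : ℕ) :
    F.Ev fun c => C * Real.log c.y ^ A ≤ c.y :=
  Ev.of_eventually (φ := fun y => C * Real.log y ^ A ≤ y) (VE.ev_log_pow_le_self C A)

lemma ev_rpow_ge (F : Fix R) (C : ℝ) {δ : ℝ} (hδ : 0 < δ) : F.Ev fun c => C ≤ c.y ^ δ := by
  simpa using F.ev_log_pow_le C 0 hδ

/-- the exponent of the logarithm that bounds `N` -/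
def AN (F : Fix R) : ℕ := (4 * F.p.e + 2) * F.A + 1

/-- `1 ≤ N ≤ (log y) ^ AN`, the shape used by `S_ThetaK`, `S_Wt`, `S_E2`, `S_Bom` -/
lemma ev_N (F : Fix R) : F.Ev fun c => 1 ≤ c.N ∧ (c.N : ℝ) ≤ Real.log c.y ^ F.AN := by
  refine (F.ev_log_ge 2).mono fun c hi hc => ⟨?_, ?_⟩
  · have : (1 : ℝ) ≤ c.N := (one_le_pow₀ (by linarith)).trans hi.N_ge
    exact_mod_cast this
  · rw [AN, pow_succ]
    have : 0 ≤ Real.log c.y ^ ((4 * F.p.e + 2) * F.A) := pow_nonneg (by linarith) _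
    nlinarith [hi.N_le]

lemma ev_N_ge (F : Fix R) (a : ℝ) : F.Ev fun c => a ≤ c.N := by
  refine ((F.ev_log_ge a).and (F.ev_log_ge 1)).mono fun c hi hc => ?_
  refine hc.1.trans ((le_self_pow₀ hc.2 ?_).trans hi.N_ge)
  have := F.hA
  positivity

/-- every power of `N` is smaller than a power of `y` -/
lemma ev_N_pow_le (F : Fix R) (C : ℝ) (m : ℕ) {δ : ℝ} (hδ : 0 < δ) :
    F.Ev fun c => C * (c.N : ℝ) ^ m ≤ c.y ^ δ := by
  refine (F.ev_N.and (F.ev_log_pow_le |C| (F.AN * m) hδ)).mono fun c _ hc => ?_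
  refine le_trans ?_ hc.2
  rw [pow_mul]
  exact mul_le_mul (le_abs_self _) (pow_le_pow_left₀ (Nat.cast_nonneg _) hc.1.2 _)
    (by positivity) (abs_nonneg _)

lemma ev_N_pow_le_self (F : Fix R) (C : ℝ) (m : ℕ) : F.Ev fun c => C * (c.N : ℝ) ^ m ≤ c.y := by
  simpa using F.ev_N_pow_le C m one_pos

/-- powers of `N` and of the logarithm together -/
lemma ev_N_log_le (F : Fix R) (C : ℝ) (m a : ℕ) {δ : ℝ} (hδ : 0 < δ) :
    F.Ev fun c => C * (c.N : ℝ) ^ m * Real.log c.y ^ a ≤ c.y ^ δ := by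
  refine ((F.ev_N.and (F.ev_log_ge 0)).and
    (F.ev_log_pow_le |C| (F.AN * m + a) hδ)).mono fun c _ hc => ?_
  refine le_trans ?_ hc.2
  rw [pow_add, pow_mul, ← mul_assoc]
  refine mul_le_mul_of_nonneg_right ?_ (pow_nonneg hc.1.2 _)
  exact mul_le_mul (le_abs_self _) (pow_le_pow_left₀ (Nat.cast_nonneg _) hc.1.1.2 _)
    (by positivity) (abs_nonneg _)

lemma ev_N_log_le_self (F : Fix R) (C : ℝ) (m a : ℕ) :
    F.Ev fun c => C * (c.N : ℝ) ^ m * Real.log c.y ^ a ≤ c.y := by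
  simpa using F.ev_N_log_le C m a one_pos

/-- a statement for all `N` in the range of `S_Wt` holds for the parameters -/
lemma Ev.of_N {F : Fix R} {φ : ℝ → ℕ → Prop}
    (h : ∃ y₀ : ℝ, ∀ y, y₀ ≤ y → ∀ N : ℕ, 1 ≤ N → (N : ℝ) ≤ Real.log y ^ F.AN → φ y N) :
    F.Ev fun c => φ c.y c.N :=
  ((Ev.of_exists h).and F.ev_N).mono fun c _ hc => hc.1 c.N hc.2.1 hc.2.2

lemma cE_ge (p : Par R) : 28 ≤ p.cE := by unfold Par.cE; omega

lemma σ_ge (F : Fix R) : 84 ≤ F.σ := by have := F.hσ; have := cE_ge F.p; omega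

/-- `y ^ (σ - 1) ≤ L ≤ S0` -/
lemma ev_L (F : Fix R) : F.Ev fun c => c.y ^ (F.σ - 1) ≤ c.L ∧ c.L ≤ c.S0 := by
  refine ((F.ev_y_ge (2 / F.η)).and (F.ev_y_ge 0)).mono fun c hi hc => ⟨?_, ?_⟩
  · have h1 : 2 ≤ c.η * c.y := by
      rw [hi.η, mul_comm]; exact (div_le_iff₀ F.ηpos).mp hc.1
    have h2 : 0 ≤ c.y ^ (F.σ - 1) := pow_nonneg hc.2 _
    have h3 : 0 < c.η := hi.η ▸ F.ηpos
    have h4 : c.η * c.y ^ F.σ ≤ c.η * c.S0 := mul_le_mul_of_nonneg_left hi.S_ge h3.le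
    have h5 : c.η * c.y ^ F.σ = c.η * c.y * c.y ^ (F.σ - 1) := by
      rw [mul_assoc, ← pow_succ', Nat.sub_add_cancel (by have := F.σ_ge; omega)]
    nlinarith [hi.L_ge]
  · have h3 : c.η ≤ 1 := hi.η ▸ F.ηle
    have : (c.L : ℝ) ≤ c.S0 := hi.L_le.trans (by
      have : (0 : ℝ) ≤ c.S0 := Nat.cast_nonneg _
      nlinarith)
    exact_mod_cast this

/-- `y ^ m ≤ L` for `m < σ` -/
lemma ev_L_ge (F : Fix R) {m : ℕ} (hm : m < F.σ) : F.Ev fun c => c.y ^ m ≤ c.L :=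
  (F.ev_L.and (F.ev_y_ge 1)).mono fun _ _ hc =>
    (pow_le_pow_right₀ hc.2 (by omega)).trans hc.1.1

variable {F : Fix R} {c : Cfg}

lemma In.η_pos (h : F.In c) : 0 < c.η := h.η ▸ F.ηpos

lemma In.η_le (h : F.In c) : c.η ≤ 1 := h.η ▸ F.ηle

lemma In.τ0_le (h : F.In c) : c.τ0 ≤ -2 := h.τ0 ▸ F.p.τle

lemma In.z_ge (h : F.In c) : 8 * F.p.e ≤ c.z := h.z ▸ F.hz

lemma In.one_le_B (h : F.In c) (hy : 1 ≤ c.y) : 1 ≤ c.B := (one_le_pow₀ hy).trans h.B_ge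

lemma In.B_pos (h : F.In c) (hy : 1 ≤ c.y) : 0 < c.B := one_pos.trans_le (h.one_le_B hy)

lemma In.one_le_S0 (h : F.In c) (hy : 1 ≤ c.y) : (1 : ℝ) ≤ c.S0 := (one_le_pow₀ hy).trans h.S_ge

lemma In.L_pos (h : F.In c) (hy : 1 ≤ c.y) : 0 < c.L := by
  have : (0 : ℝ) < c.L := lt_of_lt_of_le (by
    have := h.η_pos
    have := h.one_le_S0 hy
    positivity) h.L_ge
  exact_mod_cast this

lemma In.t2_pos (h : F.In c) (hy : 1 ≤ c.y) {t : ℤ × ℤ} (ht : t ∈ Tset F.p c) : 0 < t.2 := by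
  have : (0 : ℝ) < t.2 := by linarith [(Tset_prop ht).1, h.one_le_B hy]
  exact_mod_cast this

lemma In.t2_le (h : F.In c) (hy : 1 ≤ c.y) {t : ℤ × ℤ} (ht : t ∈ Tset F.p c) :
    (t.2 : ℝ) ≤ 2 * c.B := by
  nlinarith [(Tset_prop ht).2.1, h.one_le_B hy, h.η_le]

lemma In.t1_neg (h : F.In c) (hy : 1 ≤ c.y) {t : ℤ × ℤ} (ht : t ∈ Tset F.p c) : t.1 < 0 := by
  have h2 : (0 : ℝ) < t.2 := by exact_mod_cast h.t2_pos hy ht
  have h3 : (t.1 : ℝ) / t.2 < 0 := by linarith [(Tset_prop ht).2.2.2.1, h.τ0_le, h.η_le]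
  have : (t.1 : ℝ) < 0 := by simpa using (div_lt_iff₀ h2).mp h3
  exact_mod_cast this

lemma In.abs_t1_le (h : F.In c) (hy : 1 ≤ c.y) {t : ℤ × ℤ} (ht : t ∈ Tset F.p c) :
    |(t.1 : ℝ)| ≤ 2 * |F.p.τ0| * c.B := by
  have h2 : (0 : ℝ) < t.2 := by exact_mod_cast h.t2_pos hy ht
  have h1 : (t.1 : ℝ) < 0 := by exact_mod_cast h.t1_neg hy ht
  have h3 := (le_div_iff₀ h2).mp (Tset_prop ht).2.2.1
  have h4 : F.p.τ0 ≤ -2 := F.p.τle
  rw [h.τ0] at h3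
  rw [abs_of_neg h1, abs_of_neg (by linarith)]
  nlinarith [h.t2_le hy ht]

lemma In.adm (h : F.In c) (hy : 1 ≤ c.y) {t : ℤ × ℤ} (ht : t ∈ Tset F.p c) : F.p.Adm t := by
  obtain ⟨-, -, h3, h4, h5, h6, h7, h8⟩ := Tset_prop ht
  have h9 : (F.p.e : ℤ) ^ F.p.ke ∣ (Mf F.p c.z : ℤ) := by exact_mod_cast pow_dvd_Mf F.p c.z
  exact ⟨h.t2_pos hy ht, h.τ0 ▸ h3, by rw [← h.τ0]; linarith [h.η_le], h5, h6, h9.trans h7,
    h9.trans h8⟩

lemma In.wT_nonneg (_h : F.In c) (_hy : 1 ≤ c.y) {t : ℤ × ℤ} (ht : t ∈ Tset F.p c) :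
    0 ≤ wT F.p c t := VC.wT_nonneg ht

end Fix

/-! ### conditional expectations -/

section Es

variable (p : Par R) (c : Cfg) (x x' : p.Pn)

lemma Es_eq (Φ : p.Co → ℝ) : Es p c x x' Φ = (x.1 * x'.1) *
    ∑ s ∈ Sset p c.S0 c.L with p.OnS x s ∧ p.OnS x' s, wS p c.S0 c.L s * Φ s := by
  rw [Es, mul_sum]
  exact sum_congr rfl fun _ _ => by ring

lemma Es_add (Φ Ψ : p.Co → ℝ) :
    Es p c x x' (fun s => Φ s + Ψ s) = Es p c x x' Φ + Es p c x x' Ψ := by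
  simp only [Es, mul_add, sum_add_distrib]

lemma Es_sub (Φ Ψ : p.Co → ℝ) :
    Es p c x x' (fun s => Φ s - Ψ s) = Es p c x x' Φ - Es p c x x' Ψ := by
  simp only [Es, mul_sub, sum_sub_distrib]

lemma Es_mul (a : ℝ) (Φ : p.Co → ℝ) : Es p c x x' (fun s => a * Φ s) = a * Es p c x x' Φ := by
  rw [Es, Es, mul_sum]
  exact sum_congr rfl fun _ _ => by ring

lemma Es_const (a : ℝ) : Es p c x x' (fun _ => a) = a * Es p c x x' fun _ => 1 := by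
  rw [← Es_mul]; simp only [mul_one]

lemma Es_congr {Φ Ψ : p.Co → ℝ}
    (h : ∀ s ∈ Sset p c.S0 c.L, p.OnS x s → p.OnS x' s → Φ s = Ψ s) :
    Es p c x x' Φ = Es p c x x' Ψ :=
  sum_congr rfl fun s hs => by
    obtain ⟨h1, h2, h3⟩ := mem_filter.mp hs
    rw [h s h1 h2 h3]

lemma Es_mono {Φ Ψ : p.Co → ℝ}
    (h : ∀ s ∈ Sset p c.S0 c.L, p.OnS x s → p.OnS x' s → Φ s ≤ Ψ s) :
    Es p c x x' Φ ≤ Es p c x x' Ψ :=
  sum_le_sum fun s hs => by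
    obtain ⟨h1, h2, h3⟩ := mem_filter.mp hs
    exact mul_le_mul_of_nonneg_left (h s h1 h2 h3)
      (mul_nonneg (wS_nonneg _ _ _ _) (by positivity))

lemma Es_nonneg {Φ : p.Co → ℝ} (h : ∀ s ∈ Sset p c.S0 c.L, p.OnS x s → p.OnS x' s → 0 ≤ Φ s) :
    0 ≤ Es p c x x' Φ :=
  sum_nonneg fun s hs => by
    obtain ⟨h1, h2, h3⟩ := mem_filter.mp hs
    exact mul_nonneg (mul_nonneg (wS_nonneg _ _ _ _) (by positivity)) (h s h1 h2 h3)

lemma abs_Es_le' {Φ Ψ : p.Co → ℝ}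
    (h : ∀ s ∈ Sset p c.S0 c.L, p.OnS x s → p.OnS x' s → |Φ s| ≤ Ψ s) :
    |Es p c x x' Φ| ≤ Es p c x x' Ψ := by
  refine (abs_sum_le_sum_abs _ _).trans (sum_le_sum fun s hs => ?_)
  obtain ⟨h1, h2, h3⟩ := mem_filter.mp hs
  have h0 : 0 ≤ wS p c.S0 c.L s * (x.1 * x'.1) := mul_nonneg (wS_nonneg _ _ _ _) (by positivity)
  rw [abs_mul, abs_of_nonneg h0]
  exact mul_le_mul_of_nonneg_left (h s h1 h2 h3) h0

lemma abs_Es_le {Φ Ψ : p.Co → ℝ} (h : ∀ s ∈ Sset p c.S0 c.L, |Φ s| ≤ Ψ s) :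
    |Es p c x x' Φ| ≤ Es p c x x' Ψ := abs_Es_le' p c x x' fun s hs _ _ => h s hs

end Es

/-! ### sums over quadruples -/

section Qs

variable (p : Par R) (c : Cfg)

/-- the weight of a quadruple -/
noncomputable def wq (x x' : p.Pn) (t t' : ℤ × ℤ) : ℝ :=
  if IsQ p c x x' t t' then
    wt p c.y c.N x.1 * wt p c.y c.N x'.1 * (x.1 * x'.1) * wT p c t * wT p c t' / c.N ^ 2
  else 0

lemma Qs_eq (Φ : p.Pn → p.Pn → ℤ × ℤ → ℤ × ℤ → ℝ) : Qs p c Φ =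
    ∑ x ∈ Xset p c.y c.N, ∑ x' ∈ Xset p c.y c.N, ∑ t ∈ Tset p c, ∑ t' ∈ Tset p c,
      wq p c x x' t t' * Φ x x' t t' := by
  unfold Qs wq
  refine sum_congr rfl fun x _ => sum_congr rfl fun x' _ => sum_congr rfl fun t _ =>
    sum_congr rfl fun t' _ => ?_
  split_ifs
  · rfl
  · rw [zero_mul]

lemma Qs_add (Φ Ψ : p.Pn → p.Pn → ℤ × ℤ → ℤ × ℤ → ℝ) :
    Qs p c (fun x x' t t' => Φ x x' t t' + Ψ x x' t t') = Qs p c Φ + Qs p c Ψ := by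
  simp only [Qs_eq, mul_add, sum_add_distrib]

lemma Qs_sub (Φ Ψ : p.Pn → p.Pn → ℤ × ℤ → ℤ × ℤ → ℝ) :
    Qs p c (fun x x' t t' => Φ x x' t t' - Ψ x x' t t') = Qs p c Φ - Qs p c Ψ := by
  simp only [Qs_eq, mul_sub, sum_sub_distrib]

lemma Qs_mul (a : ℝ) (Φ : p.Pn → p.Pn → ℤ × ℤ → ℤ × ℤ → ℝ) :
    Qs p c (fun x x' t t' => a * Φ x x' t t') = a * Qs p c Φ := by
  simp only [Qs_eq, mul_sum]
  refine sum_congr rfl fun x _ => sum_congr rfl fun x' _ => sum_congr rfl fun t _ =>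
    sum_congr rfl fun t' _ => ?_
  ring

lemma Qs_const (a : ℝ) : Qs p c (fun _ _ _ _ => a) = a * Qs p c fun _ _ _ _ => 1 := by
  rw [← Qs_mul]; simp only [mul_one]

lemma Qs_zero : Qs p c (fun _ _ _ _ => 0) = 0 := by rw [Qs_const, zero_mul]

lemma Qs_sum {ι : Type*} (s : Finset ι) (Φ : ι → p.Pn → p.Pn → ℤ × ℤ → ℤ × ℤ → ℝ) :
    Qs p c (fun x x' t t' => ∑ i ∈ s, Φ i x x' t t') = ∑ i ∈ s, Qs p c (Φ i) := by
  induction s using Finset.induction_on with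
  | empty => simp only [sum_empty, Qs_zero]
  | insert a s ha ih => simp only [sum_insert ha, Qs_add, ih]

variable {p c}

lemma wq_of_not {x x' : p.Pn} {t t' : ℤ × ℤ} (h : ¬ IsQ p c x x' t t') : wq p c x x' t t' = 0 :=
  if_neg h

lemma wq_nonneg (x x' : p.Pn) (t t' : ℤ × ℤ) : 0 ≤ wq p c x x' t t' := by
  unfold wq
  split_ifs with h
  · have h1 := wt_nonneg p c.y c.N x.1
    have h2 := wt_nonneg p c.y c.N x'.1
    have h3 := wT_nonneg h.ht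
    have h4 := wT_nonneg h.ht'
    positivity
  · exact le_rfl

lemma Qs_congr {Φ Ψ : p.Pn → p.Pn → ℤ × ℤ → ℤ × ℤ → ℝ}
    (h : ∀ x x' t t', IsQ p c x x' t t' → Φ x x' t t' = Ψ x x' t t') : Qs p c Φ = Qs p c Ψ := by
  unfold Qs
  refine sum_congr rfl fun x _ => sum_congr rfl fun x' _ => sum_congr rfl fun t _ =>
    sum_congr rfl fun t' _ => ?_
  split_ifs with hq
  · rw [h x x' t t' hq]
  · rfl

lemma Qs_mono {Φ Ψ : p.Pn → p.Pn → ℤ × ℤ → ℤ × ℤ → ℝ}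
    (h : ∀ x x' t t', IsQ p c x x' t t' → Φ x x' t t' ≤ Ψ x x' t t') : Qs p c Φ ≤ Qs p c Ψ := by
  rw [Qs_eq, Qs_eq]
  refine sum_le_sum fun x _ => sum_le_sum fun x' _ => sum_le_sum fun t _ =>
    sum_le_sum fun t' _ => ?_
  by_cases hq : IsQ p c x x' t t'
  · exact mul_le_mul_of_nonneg_left (h x x' t t' hq) (wq_nonneg x x' t t')
  · rw [wq_of_not hq, zero_mul, zero_mul]

lemma Qs_nonneg {Φ : p.Pn → p.Pn → ℤ × ℤ → ℤ × ℤ → ℝ}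
    (h : ∀ x x' t t', IsQ p c x x' t t' → 0 ≤ Φ x x' t t') : 0 ≤ Qs p c Φ :=
  (Qs_zero p c).ge.trans (Qs_mono h)

lemma abs_Qs_le {Φ Ψ : p.Pn → p.Pn → ℤ × ℤ → ℤ × ℤ → ℝ}
    (h : ∀ x x' t t', IsQ p c x x' t t' → |Φ x x' t t'| ≤ Ψ x x' t t') :
    |Qs p c Φ| ≤ Qs p c Ψ := by
  refine abs_le.mpr ⟨?_, Qs_mono fun x x' t t' hq => (le_abs_self _).trans (h x x' t t' hq)⟩
  have := Qs_mono (Φ := fun x x' t t' => -1 * Ψ x x' t t') (Ψ := Φ) fun x x' t t' hq => by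
    linarith [neg_abs_le (Φ x x' t t'), h x x' t t' hq]
  rw [Qs_mul] at this
  linarith

/-- the inequality of Markov -/
lemma Qs_markov {Φ : p.Pn → p.Pn → ℤ × ℤ → ℤ × ℤ → ℝ}
    {P : p.Pn → p.Pn → ℤ × ℤ → ℤ × ℤ → Prop} [∀ x x' t t', Decidable (P x x' t t')] {a : ℝ}
    (h0 : ∀ x x' t t', IsQ p c x x' t t' → 0 ≤ Φ x x' t t')
    (h : ∀ x x' t t', IsQ p c x x' t t' → P x x' t t' → a ≤ Φ x x' t t') :
    a * Qs p c (fun x x' t t' => if P x x' t t' then 1 else 0) ≤ Qs p c Φ := by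
  rw [← Qs_mul]
  refine Qs_mono fun x x' t t' hq => ?_
  split_ifs with hP
  · rw [mul_one]; exact h x x' t t' hq hP
  · rw [mul_zero]; exact h0 x x' t t' hq

lemma IsQ.swap {x x' : p.Pn} {t t' : ℤ × ℤ} (h : IsQ p c x x' t t') : IsQ p c x x' t' t :=
  ⟨h.hx, h.hx', h.ht', h.ht, h.ne, h.o12, h.o11, h.o22, h.o21, h.pr', h.pr⟩

lemma IsQ.swapx {x x' : p.Pn} {t t' : ℤ × ℤ} (h : IsQ p c x x' t t') : IsQ p c x' x t t' :=
  ⟨h.hx', h.hx, h.ht, h.ht', h.ne.symm, h.o21, h.o22, h.o11, h.o12, h.pr, h.pr'⟩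

lemma wq_swap (x x' : p.Pn) (t t' : ℤ × ℤ) : wq p c x x' t' t = wq p c x x' t t' := by
  unfold wq
  by_cases h : IsQ p c x x' t t'
  · rw [if_pos h, if_pos h.swap]; ring
  · rw [if_neg h, if_neg fun h' => h h'.swap]

variable (p c) in
lemma Qs_swap (Φ : p.Pn → p.Pn → ℤ × ℤ → ℤ × ℤ → ℝ) :
    Qs p c (fun x x' t t' => Φ x x' t' t) = Qs p c Φ := by
  rw [Qs_eq, Qs_eq]
  refine sum_congr rfl fun x _ => sum_congr rfl fun x' _ => ?_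
  rw [sum_comm]
  exact sum_congr rfl fun t _ => sum_congr rfl fun t' _ => by rw [wq_swap]

lemma nn_swap (p : Par R) (x x' : p.Pn) (t t' : ℤ × ℤ) : nn p x x' t' t = nn p x x' t t' := by
  unfold nn
  rw [← Int.natAbs_neg]
  congr 1
  unfold dl
  ring

end Qs

end Pool.Agent.P.MP_b8021b_nt.VC
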