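import Pool.Agent.P.MP_b8021b_nt.VC.CPert
import Pool.Agent.P.MP_b8021b_nt.VC.CBCm

/-! The disc lemma over an arbitrary ground field from the algebraically closed case. -/

namespace Pool.Agent.P.MP_b8021b_nt.VC

open Polynomial Finset Pool.Agent.P.MP_b8021b_nt.VE
open scoped Classical

/-- functions of the small ring define the topology of the points of the base change -/
theorem BCd.near_basis {F F' A A' Ω : Type} [Field F] [Field F'] [Algebra F F'] [CommRing A]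
    [Algebra F A] [CommRing A'] [Algebra F' A'] [NormedField Ω] [Algebra F' Ω] {cv : Cv F A}
    {cv' : Cv F' A'} {ι : A →+* A'} (h : BCd cv cv' ι) (P₀ : A' →ₐ[F'] Ω) (W' : Finset A') {ε : ℝ}
    (hε : 0 < ε) : ∃ (W : Finset A) (ε' : ℝ), 0 < ε' ∧ ∀ P : A' →ₐ[F'] Ω,
      (∀ w ∈ W, ‖P (ι w) - P₀ (ι w)‖ < ε') → P ∈ Near W' ε P₀ := by
  have key : ∀ w' : A', ∀ ε : ℝ, 0 < ε → ∃ (W : Finset A) (ε' : ℝ), 0 < ε' ∧ ∀ P : A' →ₐ[F'] Ω,
      (∀ w ∈ W, ‖P (ι w) - P₀ (ι w)‖ < ε') → ‖P w' - P₀ w'‖ < ε := by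
    intro w'
    have hw : w' ∈ Submodule.span F' (ι '' cv.L (cv'.δ w')) := h.span _ (le_refl (cv'.δ w'))
    generalize cv'.δ w' = n at hw
    induction hw using Submodule.span_induction with
    | mem x hx =>
      obtain ⟨a, -, rfl⟩ := hx
      exact fun ε hε => ⟨{a}, ε, hε, fun P hP => hP a (by simp)⟩
    | zero => exact fun ε hε => ⟨∅, 1, one_pos, fun P _ => by simpa using hε⟩
    | add x y _ _ hx hy =>
      intro ε hε
      obtain ⟨W1, e1, h1, h1'⟩ := hx (ε / 2) (by positivity)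
      obtain ⟨W2, e2, h2, h2'⟩ := hy (ε / 2) (by positivity)
      refine ⟨W1 ∪ W2, min e1 e2, lt_min h1 h2, fun P hP => ?_⟩
      have h3 := h1' P fun w hw => (hP w (by simp [hw])).trans_le (min_le_left _ _)
      have h4 := h2' P fun w hw => (hP w (by simp [hw])).trans_le (min_le_right _ _)
      rw [map_add, map_add, add_sub_add_comm]
      linarith [norm_add_le (P x - P₀ x) (P y - P₀ y)]
    | smul c x _ hx =>
      intro ε hε
      have hK : 0 < ‖algebraMap F' Ω c‖ + 1 := by positivity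
      obtain ⟨W1, e1, h1, h1'⟩ := hx (ε / (‖algebraMap F' Ω c‖ + 1)) (by positivity)
      refine ⟨W1, e1, h1, fun P hP => ?_⟩
      have h3 := h1' P hP
      rw [map_smul, map_smul, ← smul_sub, Algebra.smul_def, norm_mul]
      rw [lt_div_iff₀ hK] at h3
      nlinarith [norm_nonneg (P x - P₀ x)]
  choose W e he hW using fun w' => key w' ε hε
  obtain ⟨x, hx, hxe⟩ := CPert.exists_pos_le W' e fun w _ => he w
  exact ⟨W'.biUnion W, x, hx, fun P hP w' hw' => hW w' P fun w hw =>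
    (hP w (Finset.mem_biUnion.2 ⟨w', hw', hw⟩)).trans_le (hxe w' hw')⟩

theorem c_discT (hCv : S_Cv) (hPts : S_Pts) (hBC : S_BC) (h0 : S_Disc0) : S_Disc := by
  intro F A Ω _ _ _ _ _ _ _ _ _ cv P₀ π hπ hm
  have : CharZero Ω := charZero_of_injective_algebraMap (algebraMap F Ω).injective
  obtain ⟨A', _, _, cv', ι, h1, h2, h3, h4, h5, -⟩ := hBC F Ω A cv
  have hB : BCd cv cv' ι := ⟨h1, h2, h3, h4, h5⟩
  obtain ⟨e, he, hmI⟩ := c_bCm hCv hPts F Ω A A' Ω cv cv' ι hB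
  obtain ⟨P₁, rfl⟩ := e.surjective P₀
  have hne : ∀ f : A, f ≠ 0 → ι f ≠ 0 := fun f hf h => hf (h2 (h.trans (map_zero ι).symm))
  obtain ⟨W', ε₁', ε₀', hε₁', hε₀', hD⟩ := h0 A' Ω cv' P₁ (ι π) (hne π hπ) (by rw [← hmI P₁ π hπ, hm])
  obtain ⟨W, ε₁, hε₁, hW⟩ := hB.near_basis P₁ W' hε₁'
  obtain ⟨-, hL, -⟩ := hD ε₀' _ hε₀' le_rfl rfl
  choose C hC using hL
  have hK : 0 < ∑ w ∈ W, |C (ι w)| + 1 := by positivity
  refine ⟨W, ε₁, min ε₀' (ε₁ / (∑ w ∈ W, |C (ι w)| + 1)), hε₁, lt_min hε₀' (by positivity),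
    fun ε U hε hεle hU => ?_⟩
  obtain ⟨hb, hl, hf⟩ := hD ε _ hε (hεle.trans (min_le_left _ _)) rfl
  set U' := {P : A' →ₐ[Ω] Ω | P ∈ Near W' ε₁' P₁ ∧ ‖P (ι π)‖ < ε} with hU'
  have hiff : ∀ P, e P ∈ U ↔ P ∈ U' := by
    intro P
    rw [hU, hU', Set.mem_ofPred_eq, Set.mem_ofPred_eq, he]
    refine and_congr_left fun hP => ⟨fun h => hW P fun w hw => ?_, fun h w hw => ?_⟩
    · simpa only [he] using h w hw
    · rw [he, he]
      have h6 := hC (ι w) P ⟨h, hP.trans_le (hεle.trans (min_le_left _ _))⟩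
      have h7 : |C (ι w)| ≤ ∑ w ∈ W, |C (ι w)| :=
        Finset.single_le_sum (f := fun w => |C (ι w)|) (fun _ _ => abs_nonneg _) hw
      have h8 := hP.trans_le (hεle.trans (min_le_right _ _))
      rw [lt_div_iff₀ hK] at h8
      nlinarith [le_abs_self (C (ι w)), norm_nonneg (P (ι π)), abs_nonneg (C (ι w))]
  have hUe : U = e '' U' := by
    ext P
    obtain ⟨Q, rfl⟩ := e.surjective P
    rw [hiff, e.injective.mem_set_image]
  refine ⟨?_, fun w => ?_, fun f hf0 => ?_⟩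
  · refine ⟨fun P hP => ?_, fun P hP Q hQ h => ?_, fun a ha => ?_⟩
    · obtain ⟨Q, rfl⟩ := e.surjective P
      simpa only [he] using hb.1 ((hiff Q).1 hP)
    · obtain ⟨P', rfl⟩ := e.surjective P
      obtain ⟨Q', rfl⟩ := e.surjective Q
      rw [hb.2.1 ((hiff P').1 hP) ((hiff Q').1 hQ) (by simpa only [he] using h)]
    · obtain ⟨Q, hQ, rfl⟩ := hb.2.2 ha
      exact ⟨e Q, (hiff Q).2 hQ, he Q π⟩
  · obtain ⟨C', hC'⟩ := hl (ι w)
    refine ⟨C', fun P hP => ?_⟩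
    obtain ⟨Q, rfl⟩ := e.surjective P
    simpa only [he] using hC' Q ((hiff Q).1 hP)
  · obtain ⟨C', hC0, hC'⟩ := hf (ι f) (hne f hf0)
    refine ⟨C', hC0, fun P hP => ?_⟩
    obtain ⟨Q, rfl⟩ := e.surjective P
    rw [hUe, finprod_mem_image e.injective.injOn]
    simpa only [he, hmI _ f hf0] using hC' Q ((hiff Q).1 hP)

end Pool.Agent.P.MP_b8021b_nt.VC
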