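import Pool.Agent.P.MP_b8021b_nt.VC.CPert

/-! One move: a multiple real zero is split. -/

namespace Pool.Agent.P.MP_b8021b_nt.VC

open Polynomial Finset Pool.Agent.P.MP_b8021b_nt.VE
open scoped Classical

namespace CMv

variable {A : Type} [CommRing A] [Algebra ℝ A]

theorem real_iff (P : A →ₐ[ℝ] ℂ) : cjP Complex.conjAe P = P ↔ ∀ a, (P a).im = 0 := by
  constructor
  · intro h a
    have : (starRingEnd ℂ) (P a) = P a := by simpa [cjP_apply] using congrArg (fun Q => Q a) h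
    exact Complex.conj_eq_iff_im.1 this
  · intro h
    ext a
    simpa [cjP_apply] using Complex.conj_eq_iff_im.2 (h a)

theorem near_conj {W : Finset A} {ε : ℝ} {Q : A →ₐ[ℝ] ℂ} (hQ : ∀ a, (Q a).im = 0) :
    ∀ P ∈ Near W ε Q, cjP Complex.conjAe P ∈ Near W ε Q := by
  intro P hP w hw
  have h1 : cjP Complex.conjAe P w - Q w = (starRingEnd ℂ) (P w - Q w) := by
    rw [map_sub, Complex.conj_eq_iff_im.2 (hQ w)]; rfl
  rw [h1, Complex.norm_conj]
  exact hP w hw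

theorem exists_real (hPts : S_Pts) (cv : Cv ℝ A) (P : A →ₐ[ℝ] ℂ) (h : ∀ a, (P a).im = 0) :
    ∃ Q : A →ₐ[ℝ] ℝ, P = (Algebra.ofId ℝ ℂ).comp Q := by
  refine (hPts ℝ A ℂ cv).2.2.2.2.2.2.2.1 P fun g a => ?_
  have : P a = algebraMap ℝ ℂ (P a).re := Complex.ext (by simp) (by simp [h a])
  rw [this, g.commutes]

/-- two independent functions in an ideal of small codimension -/
theorem exists_indep {F A : Type} [Field F] [CharZero F] [CommRing A] [Algebra F A] (hCv : S_Cv)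
    (cv : Cv F A) {C : Ideal A} (hC : C ≠ ⊥) {n : ℕ} (hn : dg F C + cv.g + 1 ≤ n) (s : A) :
    ∃ t ∈ C, cv.δ t ≤ n ∧ ∀ c : F, t ≠ c • s := by
  by_contra hh
  push Not at hh
  obtain ⟨hfin, hdim⟩ := (hCv F A cv).2.2.2.2.2.1 n
  have := (hCv F A cv).1 C hC
  let l : cv.L n →ₗ[F] A ⧸ C := (Ideal.Quotient.mkₐ F C).toLinearMap ∘ₗ (cv.L n).subtype
  have h1 := LinearMap.finrank_range_add_finrank_ker l
  have h2 : Module.finrank F (LinearMap.range l) ≤ dg F C := Submodule.finrank_le _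
  have h3 : (LinearMap.ker l).map (cv.L n).subtype ≤ Submodule.span F {s} := by
    rintro _ ⟨x, hx, rfl⟩
    have hx' : (x : A) ∈ C := Ideal.Quotient.eq_zero_iff_mem.1 hx
    obtain ⟨c, hc⟩ := hh x hx' x.2
    exact Submodule.mem_span_singleton.2 ⟨c, hc.symm⟩
  have h4 := Submodule.finrank_mono h3
  rw [Submodule.finrank_map_subtype_eq] at h4
  have h5 : Module.finrank F (Submodule.span F ({s} : Set A)) ≤ 1 := by
    simpa using finrank_span_le_card (R := F) ({s} : Set A)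
  omega

theorem dg_prod {F A : Type} [Field F] [CharZero F] [CommRing A] [Algebra F A] (hCv : S_Cv)
    (cv : Cv F A) {ι : Type*} (T : Finset ι) (J : ι → Ideal A) (hJ : ∀ i, J i ≠ ⊥ ∧ dg F (J i) = 1) :
    ∏ i ∈ T, J i ≠ ⊥ ∧ dg F (∏ i ∈ T, J i) = T.card := by
  have := cv.dom
  induction T using Finset.induction_on with
  | empty =>
    refine ⟨by simp, ?_⟩
    rw [Finset.prod_empty, Ideal.one_eq_top, Finset.card_empty, dg]
    exact Module.finrank_zero_of_subsingleton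
  | insert a T ha ih =>
    rw [Finset.prod_insert ha, Finset.card_insert_of_notMem ha]
    exact ⟨mul_ne_zero (hJ a).1 ih.1, by rw [(hCv F A cv).2.1 _ _ (hJ a).1 ih.1, (hJ a).2, ih.2,
      add_comm]⟩

/-- the direction of the move -/
theorem exists_dir (hCv : S_Cv) (hPts : S_Pts) (cv : Cv ℝ A) {s : A} (hs : s ≠ 0)
    (Q : Fin (cv.g + 1) → (A →ₐ[ℝ] ℝ)) (hQ : cv.RigF Q) (hz : ∀ i, Q i s = 0) (i₀ : Fin (cv.g + 1)) :
    ∃ (t : A) (C : Ideal A), t ≠ 0 ∧ cv.δ t ≤ cv.δ s ∧ C ≠ ⊥ ∧ s ∈ C ∧ t ∈ C ∧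
      (∀ P : A →ₐ[ℝ] ℂ, mI P (Ideal.span {s}) ≤ mI P C + 1) ∧
      mI ((Algebra.ofId ℝ ℂ).comp (Q i₀)) (Ideal.span {t}) <
        mI ((Algebra.ofId ℝ ℂ).comp (Q i₀)) (Ideal.span {s}) := by
  have := cv.ded
  have hrat := (hPts ℝ A ℂ cv).2.2.2.2.2.2.2.2
  set R : Fin (cv.g + 1) → (A →ₐ[ℝ] ℂ) := fun i => (Algebra.ofId ℝ ℂ).comp (Q i) with hR
  have hRinj : Function.Injective R := by
    intro i j h
    refine hQ.1 (AlgHom.ext fun a => ?_)
    have := congrArg (fun P => P a) h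
    simpa [hR, Algebra.ofId_apply] using this
  have hk : ∀ i, RingHom.ker (Q i) ≠ ⊥ ∧ dg ℝ (RingHom.ker (Q i)) = 1 := fun i =>
    ⟨(hrat (Q i) (R i)).1, (hrat (Q i) (R i)).2.1⟩
  obtain ⟨hI0, hIdg⟩ := dg_prod hCv cv univ (fun i => RingHom.ker (Q i)) hk
  obtain ⟨hD0, -⟩ := dg_prod hCv cv (univ.erase i₀) (fun i => RingHom.ker (Q i)) hk
  have hImI : ∀ P : A →ₐ[ℝ] ℂ, mI P (∏ i, RingHom.ker (Q i)) = (univ.filter fun i => P = R i).card := by
    intro P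
    rw [mI_prod hPts cv _ _ fun i _ => (hk i).1, Finset.card_filter]
    exact Finset.sum_congr rfl fun i _ => (hrat (Q i) P).2.2
  have hle1 : ∀ P : A →ₐ[ℝ] ℂ, mI P (∏ i, RingHom.ker (Q i)) ≤ 1 := by
    intro P
    rw [hImI, Finset.card_le_one]
    intro i hi j hj
    exact hRinj ((Finset.mem_filter.1 hi).2.symm.trans (Finset.mem_filter.1 hj).2)
  have hdvd : (∏ i, RingHom.ker (Q i)) ∣ Ideal.span {s} := by
    refine dvd_of_mI ℂ hPts cv hI0 (span_ne_bot hs) fun P => ?_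
    by_cases h : mI P (∏ i, RingHom.ker (Q i)) = 0
    · omega
    have h1 := h
    rw [hImI, ← Ne, Finset.card_ne_zero] at h1
    obtain ⟨i, hi⟩ := h1
    have h2 : P s = 0 := by rw [(Finset.mem_filter.1 hi).2]; simp [hR, hz i]
    have := (mI_span_ne_zero hPts cv hs P).2 h2
    have := hle1 P
    omega
  obtain ⟨C, hC⟩ := hdvd
  have hC0 : C ≠ ⊥ := by
    rintro rfl
    exact span_ne_bot hs (by simpa using hC)
  have hdgC : dg ℝ C + cv.g + 1 = cv.δ s := by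
    rw [← (hCv ℝ A cv).2.2.1 s hs, hC, (hCv ℝ A cv).2.1 _ _ hI0 hC0, hIdg]
    simp only [Finset.card_univ, Fintype.card_fin]
    ring
  obtain ⟨t, htC, htd, hind⟩ := exists_indep hCv cv hC0 hdgC.le s
  have ht0 : t ≠ 0 := by simpa using hind 0
  have hsC : s ∈ C := by
    have : Ideal.span {s} ≤ C := hC ▸ Ideal.mul_le_right
    exact this (Ideal.mem_span_singleton_self s)
  have hms : ∀ P : A →ₐ[ℝ] ℂ, mI P (Ideal.span {s}) = mI P (∏ i, RingHom.ker (Q i)) + mI P C :=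
    fun P => by rw [hC, mI_mul hPts cv hI0 hC0]
  refine ⟨t, C, ht0, htd, hC0, hsC, htC, fun P => by have := hms P; have := hle1 P; omega, ?_⟩
  obtain ⟨K, hK⟩ : C ∣ Ideal.span {t} :=
    Ideal.dvd_iff_le.2 ((Ideal.span_singleton_le_iff_mem _).2 htC)
  have hK0 : K ≠ ⊥ := by
    rintro rfl
    exact span_ne_bot ht0 (by simpa using hK)
  have h1 : mI (R i₀) (∏ i, RingHom.ker (Q i)) ≠ 0 := by
    rw [hImI, Finset.card_ne_zero]
    exact ⟨i₀, by simp⟩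
  have h2 : mI (R i₀) K = 0 := by
    by_contra h
    have h3 : K ≤ RingHom.ker (Q i₀) := by
      intro a ha
      have := (mI_ne_zero hPts cv hK0 (R i₀)).1 h ha
      simpa [hR, RingHom.mem_ker, Algebra.ofId_apply] using this
    obtain ⟨J, hJ⟩ := Ideal.dvd_iff_le.2 h3
    have hJ0 : J ≠ ⊥ := by
      rintro rfl
      exact hK0 (by simpa using hJ)
    have hdJ : dg ℝ J ≤ cv.g := by
      have h4 := (hCv ℝ A cv).2.2.1 t ht0
      rw [hK, (hCv ℝ A cv).2.1 _ _ hC0 hK0, hJ, (hCv ℝ A cv).2.1 _ _ (hk i₀).1 hJ0, (hk i₀).2] at h4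
      omega
    have h5 : Ideal.span {s} * J =
        Ideal.span {t} * ∏ j ∈ univ.erase i₀, RingHom.ker (Q j) := by
      rw [hC, hK, hJ, ← Finset.mul_prod_erase univ _ (Finset.mem_univ i₀)]
      ring
    have h6 := hQ.2 i₀ J s t hJ0 hdJ hs ht0 h5
    rw [h6] at h5
    obtain ⟨c, -, hc⟩ := cv.smul_of_span_eq (mul_right_cancel₀ hD0 h5).symm
    exact hind c hc
  have h3 := hms (R i₀)
  rw [hK, mI_mul hPts cv hC0 hK0]
  change mI (R i₀) C + mI (R i₀) K < mI (R i₀) (Ideal.span {s})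
  omega

end CMv

open CMv in
theorem c_mv (hCv : S_Cv) (hPts : S_Pts) (hStab : S_Stab) : S_Mv := by
  intro A _ _ cv V s hs hopen hrig hz hne hm
  obtain ⟨P₀, hP₀⟩ := hm
  have hP₀s : P₀ s = 0 := (mI_span_ne_zero hPts cv hs P₀).1 (by omega)
  obtain ⟨i₀, hi₀⟩ := (hz P₀ hP₀s).2
  have hR : ∀ i, ∃ Q : A →ₐ[ℝ] ℝ, (Algebra.ofId ℝ ℂ).comp Q ∈ V i ∧ Q s = 0 ∧
      (i = i₀ → (Algebra.ofId ℝ ℂ).comp Q = P₀) := by
    intro i
    obtain ⟨P, hPV, hPs, hP⟩ : ∃ P ∈ V i, P s = 0 ∧ (i = i₀ → P = P₀) := by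
      by_cases h : i = i₀
      · exact ⟨P₀, h ▸ hi₀, hP₀s, fun _ => rfl⟩
      · obtain ⟨P, h1, h2⟩ := hne i
        exact ⟨P, h1, h2, fun hh => absurd hh h⟩
    obtain ⟨Q, rfl⟩ := exists_real hPts cv P (hz P hPs).1
    exact ⟨Q, hPV, by simpa [Algebra.ofId_apply] using hPs, hP⟩
  choose Q hQV hQs hQ0 using hR
  obtain ⟨t, C, ht0, htd, hC0, hsC, htC, hle, hlt⟩ :=
    exists_dir hCv hPts cv hs Q (hrig Q hQV) hQs i₀
  rw [hQ0 i₀ rfl] at hlt
  have hfin := zeros_finite' (Ω := ℂ) hPts cv hs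
  have hch : ∀ x : (A →ₐ[ℝ] ℂ) × Fin (cv.g + 1), ∃ (W : Finset A) (ε : ℝ), 0 < ε ∧
      (x.1 ∈ V x.2 → Near W ε x.1 ⊆ V x.2) := by
    intro x
    by_cases h : x.1 ∈ V x.2
    · obtain ⟨W, ε, h1, h2⟩ := hopen x.2 x.1 h
      exact ⟨W, ε, h1, fun _ => h2⟩
    · exact ⟨∅, 1, one_pos, fun hh => absurd hh h⟩
  choose W0 e0 he0 hW0 using hch
  obtain ⟨ε₁, hε₁, hε₁e⟩ := CPert.exists_pos_le (hfin.toFinset ×ˢ univ) e0 fun x _ => he0 x
  obtain ⟨W, ε, hW, hε, hεle, hdis, hp⟩ :=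
    c_pert hCv hPts hStab ℝ A ℂ cv s ((hfin.toFinset ×ˢ univ).biUnion W0) ε₁ hs hε₁
  have hsub : ∀ (P : A →ₐ[ℝ] ℂ) (i), P s = 0 → P ∈ V i → Near W ε P ⊆ V i := by
    intro P i h1 h2
    have hx : (P, i) ∈ hfin.toFinset ×ˢ (univ : Finset (Fin (cv.g + 1))) := by simp [h1]
    exact (near_mono ((Finset.subset_biUnion_of_mem W0 hx).trans hW) (hεle.trans (hε₁e _ hx))
      P).trans (hW0 (P, i) h2)
  obtain ⟨η, hη, hq⟩ := hp Unit fun _ => t
  obtain ⟨hf0, hcount, hrest⟩ := hq (fun _ => η / 2)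
    (fun _ => by rw [Real.norm_eq_abs, abs_of_pos (by positivity)]; linarith)
    (s + (η / 2) • t) (by simp)
  set f := s + (η / 2) • t with hf
  have hc0 : η / 2 ≠ 0 := by positivity
  have hdf : cv.δ f ≤ cv.δ s := (cv.add _ _).trans (max_le le_rfl ((cv.smul_le _ _).trans htd))
  have hfC : f ∈ C := C.add_mem hsC (by rw [Algebra.smul_def]; exact C.mul_mem_left _ htC)
  have hge : ∀ P : A →ₐ[ℝ] ℂ, mI P (Ideal.span {s}) ≤ mI P (Ideal.span {f}) + 1 := fun P =>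
    (hle P).trans (Nat.succ_le_succ (mI_le_of_mem hPts cv hf0 hfC P))
  have hlt' : mI P₀ (Ideal.span {f}) < mI P₀ (Ideal.span {s}) := by
    by_contra h
    push Not at h
    have h1 := (le_mI_iff hPts cv (span_ne_bot hf0) P₀ _).1 h
    have h2 := (le_mI_iff hPts cv (span_ne_bot hs) P₀ _).1 le_rfl
    rw [Ideal.span_singleton_le_iff_mem] at h1 h2
    have h3 : t = algebraMap ℝ A (η / 2)⁻¹ * (f - s) := by
      rw [hf, add_sub_cancel_left, ← Algebra.smul_def, smul_smul, inv_mul_cancel₀ hc0, one_smul]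
    have h4 : t ∈ RingHom.ker P₀ ^ mI P₀ (Ideal.span {s}) :=
      h3 ▸ Ideal.mul_mem_left _ _ (Ideal.sub_mem _ h1 h2)
    rw [← Ideal.span_singleton_le_iff_mem, ← le_mI_iff hPts cv (span_ne_bot ht0)] at h4
    omega
  have hr0 := (nZ_eq_zero hPts cv (span_ne_bot hf0)).1 (by omega :
    nZ (Ideal.span {f}) {P : A →ₐ[ℝ] ℂ | ∀ Q : A →ₐ[ℝ] ℂ, Q s = 0 → P ∉ Near W ε Q} = 0)
  have hex : ∀ R : A →ₐ[ℝ] ℂ, R s = 0 → ∃ P ∈ Near W ε R, P f = 0 := by
    intro R hR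
    obtain ⟨P, h1, h2⟩ := exists_zero_of_nZ hPts cv (span_ne_bot hf0) (V := Near W ε R)
      (by rw [hcount R hR]; exact (mI_span_ne_zero hPts cv hs R).2 hR)
    exact ⟨P, h1, span_le_ker.1 h2⟩
  refine ⟨f, hf0, by omega, fun P hP => ?_, fun i => ?_, ?_⟩
  · obtain ⟨R, hR, hPR⟩ : ∃ R : A →ₐ[ℝ] ℂ, R s = 0 ∧ P ∈ Near W ε R := by
      by_contra hh
      push Not at hh
      exact hr0 P hh (span_le_ker.2 hP)
    obtain ⟨hRr, i, hRi⟩ := hz R hR
    refine ⟨(real_iff P).1 (fixed_of_nZ hPts cv (span_ne_bot hf0) Complex.conjAe (near_conj hRr)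
      (T := {R}) (by simpa using ⟨near_self W hε R, (real_iff R).2 hRr⟩) ?_ hPR
      (span_le_ker.2 hP)), i, hsub R i hR hRi hPR⟩
    rw [hcount R hR, Finset.sum_singleton]
    exact hge R
  · obtain ⟨R, h1, h2⟩ := hne i
    obtain ⟨P, h3, h4⟩ := hex R h2
    exact ⟨P, hsub R i h2 h1 h3, h4⟩
  · have hP₀f : P₀ f = 0 := (mI_span_ne_zero hPts cv hf0 P₀).1 (by have := hge P₀; omega)
    have hφ : ∀ R : A →ₐ[ℝ] ℂ, ∃ P : A →ₐ[ℝ] ℂ, R s = 0 →
        P ∈ Near W ε R ∧ P f = 0 ∧ (R = P₀ → P = P₀) := by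
      intro R
      by_cases h : R = P₀
      · exact ⟨P₀, fun _ => ⟨h ▸ near_self W hε R, hP₀f, fun _ => rfl⟩⟩
      by_cases hR : R s = 0
      · obtain ⟨P, h1, h2⟩ := hex R hR
        exact ⟨P, fun _ => ⟨h1, h2, fun hh => absurd hh h⟩⟩
      · exact ⟨R, fun hh => absurd hh hR⟩
    choose φ hφ using hφ
    have hinj : Set.InjOn φ {P : A →ₐ[ℝ] ℂ | P s = 0} := by
      intro R hR R' hR' h
      by_contra hh
      exact Set.disjoint_left.1 (hdis R R' hR hR' hh) (hφ R hR).1 (h ▸ (hφ R' hR').1)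
    obtain ⟨P₁, hP₁, hP₁f⟩ := exists_zero_of_nZ hPts cv (span_ne_bot hf0)
      (V := Near W ε P₀ \ {P₀}) (by
        have h1 := nZ_union hPts cv (span_ne_bot hf0)
          (Set.disjoint_sdiff_right (s := {P₀}) (t := Near W ε P₀))
        rw [Set.union_sdiff_cancel (Set.singleton_subset_iff.2 (near_self W hε P₀)), nZ_single,
          hcount P₀ hP₀s] at h1
        omega)
    rw [← hinj.ncard_image]
    refine Set.ncard_lt_ncard ⟨?_, fun hh => ?_⟩ (zeros_finite' hPts cv hf0)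
    · rintro _ ⟨R, hR, rfl⟩
      exact (hφ R hR).2.1
    · obtain ⟨R, hR, h⟩ := hh (span_le_ker.1 hP₁f)
      by_cases hRP : R = P₀
      · exact hP₁.2 (h ▸ (hφ R hR).2.2 hRP)
      · exact Set.disjoint_left.1 (hdis R P₀ hR hP₀s hRP) (h ▸ (hφ R hR).1) hP₁.1

end Pool.Agent.P.MP_b8021b_nt.VC
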