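import Pool.Agent.P.MP_b8021b_nt.VC.StC2

/-! Roots of polynomials move continuously. -/

namespace Pool.Agent.P.MP_b8021b_nt.VC

open Polynomial Finset Filter
open scoped Classical Topology

namespace CRoot

variable {K ι : Type} [NormedField K] {N : ℕ} {l : Filter ι} {F : ι → K[X]} {f₀ : K[X]}

theorem ev (h0 : f₀.natDegree ≤ N) (hF : ∀ k, (F k).natDegree ≤ N)
    (hc : ∀ i, Tendsto (fun k => (F k).coeff i) l (𝓝 (f₀.coeff i))) {x : ι → K} {a : K}
    (hx : Tendsto x l (𝓝 a)) : Tendsto (fun k => (F k).eval (x k)) l (𝓝 (f₀.eval a)) := by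
  simp only [fun k => eval_eq_sum_range' (Nat.lt_succ_of_le (hF k)),
    eval_eq_sum_range' (Nat.lt_succ_of_le h0)]
  exact tendsto_finsetSum _ fun i _ => (hc i).mul (hx.pow i)

theorem dv {f : K[X]} (h : f.natDegree ≤ N) (b : K) (j : ℕ) :
    (f /ₘ (X - C b)).coeff j = ∑ i ∈ Icc (j + 1) N, b ^ (i - (j + 1)) * f.coeff i := by
  rw [coeff_divByMonic_X_sub_C]
  refine sum_subset (Icc_subset_Icc_right h) fun i h1 h2 => ?_
  rw [mem_Icc] at h1 h2
  rw [coeff_eq_zero_of_natDegree_lt (by omega), mul_zero]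

theorem dg {f : K[X]} (h : f.natDegree ≤ N) (b : K) : (f /ₘ (X - C b)).natDegree ≤ N := by
  rw [natDegree_divByMonic _ (monic_X_sub_C b)]
  omega

theorem pr (s : Multiset K) (a x : K) {δ : ℝ} (hδ : 0 < δ) (h : ∀ r ∈ s, δ ≤ ‖r - a‖) :
    ‖(s.map (x - ·)).prod‖ ≤ ‖(s.map (a - ·)).prod‖ * (1 + ‖x - a‖ / δ) ^ s.card := by
  induction s using Multiset.induction_on with
  | empty => simp
  | cons r s ih =>
    have h1 := h r (Multiset.mem_cons_self r s)
    have h2 := ih fun y hy => h y (Multiset.mem_cons_of_mem hy)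
    have h3 : ‖x - r‖ ≤ ‖a - r‖ * (1 + ‖x - a‖ / δ) := by
      have h4 : ‖x - r‖ ≤ ‖x - a‖ + ‖a - r‖ := norm_sub_le_norm_sub_add_norm_sub x a r
      rw [norm_sub_rev] at h1
      have h5 : δ * (‖x - a‖ / δ) ≤ ‖a - r‖ * (‖x - a‖ / δ) :=
        mul_le_mul_of_nonneg_right h1 (by positivity)
      rw [mul_div_cancel₀ _ hδ.ne'] at h5
      linarith
    rw [Multiset.map_cons, Multiset.map_cons, Multiset.prod_cons, Multiset.prod_cons, norm_mul,
      norm_mul, Multiset.card_cons, pow_succ']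
    exact (mul_le_mul h3 h2 (norm_nonneg _) (by positivity)).trans_eq (by ring)

variable [IsAlgClosed K]

theorem near (hf : f₀ ≠ 0) (h0 : f₀.natDegree ≤ N) (hF : ∀ k, (F k).natDegree ≤ N)
    (hc : ∀ i, Tendsto (fun k => (F k).coeff i) l (𝓝 (f₀.coeff i))) {a : K} (ha : f₀.IsRoot a)
    {δ : ℝ} (hδ : 0 < δ) : ∀ᶠ k in l, ∃ r ∈ (F k).roots, ‖r - a‖ < δ := by
  obtain ⟨x, hx⟩ : ∃ x, f₀.eval x ≠ 0 := by
    by_contra h
    push Not at h
    exact hf (Polynomial.funext fun x => by rw [h, eval_zero])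
  have h1 := (ev h0 hF hc (tendsto_const_nhds (x := a))).norm.mul_const ((1 + ‖x - a‖ / δ) ^ N)
  rw [ha.eq_zero, norm_zero, zero_mul] at h1
  filter_upwards [h1.eventually_lt (ev h0 hF hc (tendsto_const_nhds (x := x))).norm
    (norm_pos_iff.2 hx)] with k hk
  by_contra h
  push Not at h
  have h2 := pr _ a x hδ h
  have h3 : (1 + ‖x - a‖ / δ) ^ (F k).roots.card ≤ (1 + ‖x - a‖ / δ) ^ N :=
    pow_le_pow_right₀ (le_add_of_nonneg_right (by positivity)) ((card_roots' _).trans (hF k))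
  rw [(IsAlgClosed.splits (F k)).eval_eq_prod_roots, (IsAlgClosed.splits (F k)).eval_eq_prod_roots,
    norm_mul, norm_mul, mul_assoc] at hk
  exact hk.not_ge (mul_le_mul_of_nonneg_left
    (h2.trans (mul_le_mul_of_nonneg_left h3 (norm_nonneg _))) (norm_nonneg _))

theorem main (a : K) (m : ℕ) : ∀ (f₀ : K[X]) (F : ι → K[X]), f₀ ≠ 0 → rootMultiplicity a f₀ = m →
    f₀.natDegree ≤ N → (∀ k, (F k).natDegree ≤ N) →
    (∀ i, Tendsto (fun k => (F k).coeff i) l (𝓝 (f₀.coeff i))) →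
    ∃ ε₀ : ℝ, 0 < ε₀ ∧ ∀ ε : ℝ, 0 < ε → ε ≤ ε₀ → ∀ᶠ k in l,
      F k ≠ 0 ∧ Multiset.card ((F k).roots.filter fun x => ‖x - a‖ < ε) = m := by
  induction m with
  | zero =>
    intro f₀ F hf hm h0 hF hc
    have ha : f₀.eval a ≠ 0 := fun h => hf (rootMultiplicity_eq_zero_iff.1 hm h)
    have h1 := (ev (l := l ×ˢ 𝓝 a) (F := fun p : ι × K => F p.1) h0 (fun p => hF p.1)
      (fun i => (hc i).comp tendsto_fst) tendsto_snd).eventually_ne ha
    obtain ⟨pa, hpa, pb, hpb, h2⟩ := eventually_prod_iff.1 h1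
    obtain ⟨ε₀, h3, h4⟩ := Metric.eventually_nhds_iff.1 hpb
    refine ⟨ε₀, h3, fun ε h5 h6 => hpa.mono fun k hk => ⟨fun h => ?_, ?_⟩⟩
    · exact h2 hk (h4 (y := a) (by simpa using h3)) (by simp [h])
    · rw [Multiset.card_eq_zero, Multiset.filter_eq_nil]
      intro x hx h7
      exact h2 hk (h4 (y := x) (by rw [dist_eq_norm]; exact h7.trans_le h6))
        (isRoot_of_mem_roots hx)
  | succ m ih =>
    intro f₀ F hf hm h0 hF hc
    have ha : f₀.IsRoot a := (rootMultiplicity_pos hf).1 (by omega)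
    have hb : ∀ k, ∃ b : K, ∀ r ∈ (F k).roots, b ∈ (F k).roots ∧ ‖b - a‖ ≤ ‖r - a‖ := fun k => by
      rcases (F k).roots.toFinset.eq_empty_or_nonempty with h | h
      · exact ⟨a, fun r hr => absurd (h ▸ Multiset.mem_toFinset.2 hr) (notMem_empty r)⟩
      · obtain ⟨b, h1, h2⟩ := exists_min_image _ (fun r => ‖r - a‖) h
        exact ⟨b, fun r hr => ⟨Multiset.mem_toFinset.1 h1, h2 r (Multiset.mem_toFinset.2 hr)⟩⟩
    choose b hb using hb
    have h1 : ∀ δ : ℝ, 0 < δ → ∀ᶠ k in l, b k ∈ (F k).roots ∧ ‖b k - a‖ < δ := fun δ hδ =>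
      (near hf h0 hF hc ha hδ).mono fun k ⟨r, h2, h3⟩ => ⟨(hb k r h2).1, (hb k r h2).2.trans_lt h3⟩
    have h2 : Tendsto b l (𝓝 a) := Metric.tendsto_nhds.2 fun δ hδ =>
      (h1 δ hδ).mono fun k hk => by rw [dist_eq_norm]; exact hk.2
    have h3 := mul_divByMonic_eq_iff_isRoot.2 ha
    have h4 : f₀ /ₘ (X - C a) ≠ 0 := fun h => hf (by rw [← h3, h, mul_zero])
    have h5 : rootMultiplicity a (f₀ /ₘ (X - C a)) = m := by
      rw [← h3, rootMultiplicity_mul (h3.symm ▸ hf), rootMultiplicity_X_sub_C_self] at hm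
      omega
    obtain ⟨ε₀, h6, h7⟩ := ih _ (fun k => F k /ₘ (X - C (b k))) h4 h5 (dg h0 a)
      (fun k => dg (hF k) _) fun j => by
        simp only [fun k => dv (hF k), dv h0]
        exact tendsto_finsetSum _ fun i _ => (h2.pow _).mul (hc i)
    refine ⟨ε₀, h6, fun ε h8 h9 => ?_⟩
    filter_upwards [h7 ε h8 h9, h1 ε h8] with k hk hk'
    have e1 := mul_divByMonic_eq_iff_isRoot.2 (isRoot_of_mem_roots hk'.1)
    have e2 := ne_zero_of_mem_roots hk'.1
    refine ⟨e2, ?_⟩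
    rw [← e1, roots_mul (e1.symm ▸ e2), roots_X_sub_C, Multiset.singleton_add,
      Multiset.filter_cons_of_pos (p := fun x => ‖x - a‖ < ε) _ hk'.2,
      Multiset.card_cons, hk.2]

end CRoot

theorem c_root : S_Root := by
  intro K _ _ f₀ n a hf
  let N := max n f₀.natDegree
  let φ : {f : K[X] // f.natDegree ≤ N} → Fin (N + 1) → K := fun f i => f.1.coeff i
  obtain ⟨ε₀, h1, h2⟩ := CRoot.main (N := N)
    (l := comap φ (𝓝 fun i : Fin (N + 1) => f₀.coeff i)) a _ f₀ Subtype.val hf rfl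
    (le_max_right _ _) (fun f => f.2) fun i => by
      by_cases hi : i < N + 1
      · exact ((continuous_apply (A := fun _ => K) (⟨i, hi⟩ : Fin (N + 1))).tendsto _).comp
          tendsto_comap
      · have e : ∀ f : K[X], f.natDegree ≤ N → f.coeff i = 0 := fun f h =>
          coeff_eq_zero_of_natDegree_lt (by omega)
        simp only [fun f : {f : K[X] // f.natDegree ≤ N} => e f.1 f.2, e f₀ (le_max_right _ _)]
        exact tendsto_const_nhds
  refine ⟨ε₀, h1, fun ε h3 h4 => ?_⟩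
  obtain ⟨η, h5, h6⟩ := Metric.eventually_nhds_iff.1 (eventually_comap.1 (h2 ε h3 h4))
  refine ⟨η, h5, fun f h7 h8 => h6 (y := φ ⟨f, h7.trans (le_max_left _ _)⟩) ?_ _ rfl⟩
  exact (dist_pi_lt_iff h5).2 fun i => by rw [dist_eq_norm]; exact h8 i

end Pool.Agent.P.MP_b8021b_nt.VC
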