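import Pool.Agent.P.MP_b8021b_nt.VC.StC2

/-! The topology of the points of a curve with values in a normed field. -/

namespace Pool.Agent.P.MP_b8021b_nt.VC

open Polynomial NumberField Finset Pool.Agent.P.MP_b8021b_nt.VE Filter
open scoped Classical Topology

namespace CTop

variable {F A Ω : Type} [Field F] [CommRing A] [Algebra F A] [NormedField Ω] [Algebra F Ω]

theorem cont_aeval (c : F[X]) : Continuous fun t : Ω => aeval t c := by
  have : (fun t : Ω => aeval t c) = fun t => (c.map (algebraMap F Ω)).eval t := by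
    funext t
    rw [eval_map, aeval_def]
  rw [this]
  exact Polynomial.continuous _

/-- roots of nearby monic polynomials are near the roots -/
theorem near_root [IsAlgClosed Ω] (g : Polynomial Ω) (hg : g.Monic) (hn : 0 < g.natDegree) (δ : ℝ)
    (hδ : 0 < δ) : ∃ ε : ℝ, 0 < ε ∧ ∀ (f : Polynomial Ω) (x : Ω), f.Monic → f.natDegree = g.natDegree →
      (∀ i, ‖g.coeff i - f.coeff i‖ < ε) → f.eval x = 0 → ∃ b ∈ g.roots, ‖x - b‖ < δ := by
  obtain ⟨B, hB0, hB⟩ : ∃ B : ℝ, 0 ≤ B ∧ ∀ b ∈ g.roots, ‖b‖ ≤ B :=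
    ⟨∑ b ∈ g.roots.toFinset, ‖b‖, Finset.sum_nonneg fun _ _ => norm_nonneg _, fun b hb =>
      Finset.single_le_sum (f := fun b : Ω => ‖b‖) (fun _ _ => norm_nonneg _)
        (Multiset.mem_toFinset.2 hb)⟩
  set κ : ℝ := min (1 / 2) (δ / (2 * B + 1)) with hκ
  have hκ0 : 0 < κ := lt_min (by norm_num) (by positivity)
  refine ⟨κ ^ g.natDegree / (g.natDegree + 1), by positivity, fun f x hf hd hc hx => ?_⟩
  obtain ⟨b, hb, hlt⟩ := exists_roots_norm_sub_lt_of_norm_coeff_sub_lt (by positivity) hx hf hg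
    hd.symm hc (IsAlgClosed.splits g)
  refine ⟨b, hb, ?_⟩
  have h1 : ((f.natDegree : ℝ) + 1) * (κ ^ g.natDegree / (g.natDegree + 1)) = κ ^ g.natDegree := by
    rw [hd]
    field_simp
  rw [h1, hd, Real.pow_rpow_inv_natCast hκ0.le hn.ne'] at hlt
  have h2 : κ ≤ 1 / 2 := min_le_left _ _
  have h3 : κ * (2 * B + 1) ≤ δ := by
    have := min_le_right (1 / 2 : ℝ) (δ / (2 * B + 1))
    rwa [← hκ, le_div_iff₀ (by positivity)] at this
  have h4 : ‖x‖ ≤ ‖x - b‖ + B := by
    have := norm_add_le (x - b) b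
    rw [sub_add_cancel] at this
    linarith [hB b hb]
  have h5 : max ‖x‖ 1 ≤ 2 * B + 1 := by
    rcases le_total ‖x‖ 1 with h | h
    · rw [max_eq_right h]
      linarith
    · rw [max_eq_left h] at hlt ⊢
      nlinarith [norm_nonneg x]
  exact hlt.trans_le ((mul_le_mul_of_nonneg_left h5 hκ0.le).trans h3)

/-- along an ultrafilter, roots of a converging family of monic polynomials converge -/
theorem root_lim [IsAlgClosed Ω] {I : Type} (U : Ultrafilter I) (q : F[X][X]) (hq : q.Monic)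
    (hn : 0 < q.natDegree) (t x : I → Ω) (a : Ω) (ht : Tendsto t U (𝓝 a))
    (hx : ∀ k, (q.map (aeval (t k) : F[X] →ₐ[F] Ω).toRingHom).eval (x k) = 0) :
    ∃ b, Tendsto x U (𝓝 b) := by
  set g : Polynomial Ω := q.map (aeval a : F[X] →ₐ[F] Ω).toRingHom with hg
  have hgm : g.Monic := hq.map _
  have hgd : g.natDegree = q.natDegree := hq.natDegree_map _
  have key : ∀ δ : ℝ, 0 < δ → ∃ b ∈ g.roots.toFinset, ∀ᶠ k in U, ‖x k - b‖ < δ := by
    intro δ hδ
    obtain ⟨ε, hε, H⟩ := near_root g hgm (hgd ▸ hn) δ hδ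
    have h1 : ∀ᶠ k in (U : Filter I), ∀ i ∈ range (q.natDegree + 1),
        ‖aeval a (q.coeff i) - aeval (t k) (q.coeff i)‖ < ε := by
      refine (eventually_all_finset _).2 fun i _ => ?_
      have h2 := ((cont_aeval (Ω := Ω) (q.coeff i)).tendsto a).comp ht
      filter_upwards [Metric.tendsto_nhds.1 h2 ε hε] with k hk
      rwa [dist_comm, dist_eq_norm] at hk
    have h3 : ∀ᶠ k in (U : Filter I), ∃ b ∈ (g.roots.toFinset : Set Ω), ‖x k - b‖ < δ := by
      filter_upwards [h1] with k hk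
      obtain ⟨b, hb, hlt⟩ := H _ (x k) (hq.map _) ((hq.natDegree_map _).trans hgd.symm)
        (fun i => by
          rw [hg, coeff_map, coeff_map]
          by_cases hi : i ∈ range (q.natDegree + 1)
          · exact hk i hi
          · rw [coeff_eq_zero_of_natDegree_lt (by simpa using hi)]
            simpa using hε) (hx k)
      exact ⟨b, Finset.mem_coe.2 (Multiset.mem_toFinset.2 hb), hlt⟩
    obtain ⟨b, hb, h⟩ := (Ultrafilter.eventually_exists_mem_iff (Finset.finite_toSet _)).1 h3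
    exact ⟨b, Finset.mem_coe.1 hb, h⟩
  by_contra hcon
  have h4 : ∀ b : Ω, ∃ d : ℝ, 0 < d ∧ ¬ ∀ᶠ k in (U : Filter I), ‖x k - b‖ < d := by
    intro b
    by_contra h5
    refine hcon ⟨b, Metric.tendsto_nhds.2 fun d hd => ?_⟩
    by_contra h6
    refine h5 ⟨d, hd, fun h7 => h6 ?_⟩
    simpa only [dist_eq_norm] using h7
  choose d hd hd' using h4
  have h8 : ∀ᶠ δ in 𝓝[>] (0 : ℝ), ∀ b ∈ g.roots.toFinset, δ ∈ Set.Ioo 0 (d b) :=
    (eventually_all_finset _).2 fun b _ => Ioo_mem_nhdsGT (hd b)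
  obtain ⟨δ, h9, h10⟩ := (h8.and self_mem_nhdsWithin).exists
  obtain ⟨b, hb, h⟩ := key δ h10
  exact hd' b (h.mono fun k hk => hk.trans (h9 b hb).2)

/-- convergence on the generators gives convergence everywhere -/
theorem tend_all {I : Type} (𝓕 : Filter I) (P : I → (A →ₐ[F] Ω)) (P₀ : A →ₐ[F] Ω) (z : A) {n : ℕ}
    (y : Fin n → A) (hy : ∀ a, ∃ c : Fin n → F[X], a = ∑ i, aeval z (c i) * y i)
    (hz : Tendsto (fun k => P k z) 𝓕 (𝓝 (P₀ z)))
    (hy' : ∀ i, Tendsto (fun k => P k (y i)) 𝓕 (𝓝 (P₀ (y i)))) (a : A) :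
    Tendsto (fun k => P k a) 𝓕 (𝓝 (P₀ a)) := by
  obtain ⟨c, rfl⟩ := hy a
  simp only [map_sum, map_mul, ← aeval_algHom_apply]
  exact tendsto_finsetSum _ fun i _ =>
    (((cont_aeval (Ω := Ω) (c i)).tendsto _).comp hz).mul (hy' i)

end CTop

open CTop in
theorem c_top (hCv : S_Cv) (hNrm : S_Nrm) : S_Top := by
  intro F A Ω _ _ _ _ _ _ cv
  refine ⟨?_, ?_⟩
  · obtain ⟨n₀, h₀⟩ := cv.cof
    obtain ⟨z, -, hz⟩ := h₀ (n₀ + 1) (Nat.le_succ _)
    obtain ⟨y, -, -, hy, -⟩ := (hCv F A cv).2.2.2.2.2.2.2.2 z (by omega)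
    refine ⟨insert z (univ.image y), fun P₀ W ε hε => ?_⟩
    let 𝓕 : Filter (A →ₐ[F] Ω) :=
      comap (fun P => fun w : (insert z (univ.image y) : Finset A) => P w) (𝓝 fun w => P₀ w)
    have hW : ∀ w ∈ (insert z (univ.image y) : Finset A),
        Tendsto (fun P : A →ₐ[F] Ω => P w) 𝓕 (𝓝 (P₀ w)) := fun w hw =>
      tendsto_pi_nhds.1 (tendsto_comap (f := fun P : A →ₐ[F] Ω =>
        fun w : (insert z (univ.image y) : Finset A) => P w)) ⟨w, hw⟩
    have hall := tend_all 𝓕 (fun P => P) P₀ z y hy (hW z (mem_insert_self _ _))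
      fun i => hW _ (mem_insert_of_mem (mem_image_of_mem _ (mem_univ i)))
    have h1 : ∀ᶠ P in 𝓕, P ∈ Near W ε P₀ := by
      refine (eventually_all_finset W).2 fun w _ => ?_
      simpa only [dist_eq_norm] using Metric.tendsto_nhds.1 (hall w) ε hε
    obtain ⟨t, ht, hsub⟩ := mem_comap.1 h1
    obtain ⟨ε', hε', hb⟩ := Metric.mem_nhds_iff.1 ht
    refine ⟨ε', hε', fun P hP => hsub (hb ?_)⟩
    rw [Metric.mem_ball, dist_pi_lt_iff hε']
    intro w
    rw [dist_eq_norm]
    exact hP w w.2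
  · intro hΩ w a W ε hw hε
    obtain ⟨M, -, -, -, hM, -⟩ := hNrm F A cv w hw
    by_contra hcon
    have h1 : ∀ k : ℕ, ∃ P : A →ₐ[F] Ω, ‖P w - a‖ < 1 / ((k : ℝ) + 1) ∧
        ¬ ∃ Q : A →ₐ[F] Ω, Q w = a ∧ P ∈ Near W ε Q := by
      intro k
      by_contra h2
      refine hcon ⟨1 / ((k : ℝ) + 1), by positivity, fun P hP => ?_⟩
      by_contra h3
      exact h2 ⟨P, hP, h3⟩
    choose P hP hP' using h1
    let U : Ultrafilter ℕ := Ultrafilter.of atTop
    have hU : (U : Filter ℕ) ≤ atTop := Ultrafilter.of_le _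
    have hw' : Tendsto (fun k => P k w) U (𝓝 a) := by
      refine Tendsto.mono_left ?_ hU
      rw [tendsto_iff_norm_sub_tendsto_zero]
      exact squeeze_zero (fun _ => norm_nonneg _) (fun k => (hP k).le)
        tendsto_one_div_add_atTop_nhds_zero_nat
    have hlim : ∀ f : A, ∃ b, Tendsto (fun k => P k f) U (𝓝 b) := by
      intro f
      refine root_lim U (M f).charpoly (Matrix.charpoly_monic _)
        (by rwa [Matrix.charpoly_natDegree_eq_dim, Fintype.card_fin]) (fun k => P k w) _ a hw'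
        fun k => ?_
      have h4 := congrArg (P k).toRingHom (hM f)
      rw [hom_eval₂, map_zero] at h4
      have h5 : (P k).toRingHom.comp (aeval w : F[X] →ₐ[F] A).toRingHom =
          (aeval (P k w) : F[X] →ₐ[F] Ω).toRingHom := by
        rw [aeval_algHom]
        rfl
      rw [h5] at h4
      rw [eval_map]
      exact h4
    choose q hq using hlim
    let Q : A →ₐ[F] Ω :=
      { toFun := q
        map_one' := tendsto_nhds_unique (hq 1) (by simpa only [map_one] using tendsto_const_nhds)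
        map_mul' := fun f g => tendsto_nhds_unique (hq (f * g))
          (by simpa only [map_mul] using (hq f).mul (hq g))
        map_zero' := tendsto_nhds_unique (hq 0) (by simpa only [map_zero] using tendsto_const_nhds)
        map_add' := fun f g => tendsto_nhds_unique (hq (f + g))
          (by simpa only [map_add] using (hq f).add (hq g))
        commutes' := fun c => tendsto_nhds_unique (hq _)
          (by simpa only [AlgHom.commutes] using tendsto_const_nhds) }
    have h6 : ∀ᶠ k in (U : Filter ℕ), P k ∈ Near W ε Q := by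
      refine (eventually_all_finset W).2 fun f _ => ?_
      have h7 := Metric.tendsto_nhds.1 (hq f) ε hε
      simp only [dist_eq_norm] at h7
      exact h7
    obtain ⟨k, hk⟩ := h6.exists
    exact hP' k ⟨Q, tendsto_nhds_unique (hq w) hw', hk⟩

end Pool.Agent.P.MP_b8021b_nt.VC
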