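import Pool.Agent.P.MP_b8021b_nt.VC.PDescS
import Pool.Agent.P.MP_b8021b_nt.VC.StG
import Pool.Agent.P.MP_b8021b_nt.VC.BasicN

/-! Descent of an invariant character to the base field. -/

namespace Pool.Agent.P.MP_b8021b_nt.VC

open Polynomial NumberField Finset Pool.Agent.P.MP_b8021b_nt.VE
open scoped Classical ComplexConjugate

namespace DDesc

variable {k : Type} [Field k] [NumberField k] [Algebra k ℂ]

/-- the Galois group is transitive on the embeddings -/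
lemma trans {N : Type} [Field N] [NumberField N] [Algebra k N] [IsGalois k N] (φ φ' : Emb k N) :
    ∃ σ : N ≃ₐ[k] N, φ.comp (σ : N →ₐ[k] N) = φ' := by
  have hinj : Function.Injective fun σ : N ≃ₐ[k] N => φ.comp (σ : N →ₐ[k] N) := fun σ σ' h =>
    AlgEquiv.ext fun x => φ.injective (congrArg (fun f : Emb k N => f x) h)
  have hb : Function.Bijective fun σ : N ≃ₐ[k] N => φ.comp (σ : N →ₐ[k] N) := by
    rw [Nat.bijective_iff_injective_and_card]
    exact ⟨hinj, by rw [IsGalois.card_aut_eq_finrank, Nat.card_eq_fintype_card, AlgHom.card]⟩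
  exact hb.2 φ'

omit [NumberField k] in
/-- every embedding extends -/
lemma ext_emb {L : Type} (N : Type) [Field L] [NumberField L] [Algebra k L] [Field N]
    [NumberField N] [Algebra k N] [Algebra L N] [IsScalarTower k L N] (φ : Emb k L) :
    ∃ φ' : Emb k N, φ'.comp (IsScalarTower.toAlgHom k L N) = φ := by
  let _ : Algebra L ℂ := φ.toRingHom.toAlgebra
  have : IsScalarTower k L ℂ := IsScalarTower.of_algebraMap_eq fun x => (φ.commutes x).symm
  let f : N →ₐ[L] ℂ := IsAlgClosed.lift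
  exact ⟨f.restrictScalars k, AlgHom.ext fun x => f.commutes x⟩

/-- an invariant character has a constant type -/
lemma const (hTyp : S_Typ) (hBCN : S_BCN) (K : BF k) {N : Type} [Field N] [NumberField N]
    [Algebra k N] [IsGalois k N] {n : ℕ} (hn : 2 ≤ n) {κ : Emb k N → ℤ} {τ : Emb k N → ℝ}
    {ψ : Ideal (𝓞 N) →* ℂ} (h : IsH k n κ τ ψ)
    (hi : ∀ (σ : N ≃ₐ[k] N) (I : Ideal (𝓞 N)), ψ (act (σ : N →+* N) I) = ψ I) :
    ∃ j : ℤ, (∀ φ, κ φ = j) ∧ ∀ φ, τ φ = 0 := by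
  have key : ∀ φ φ', κ φ = κ φ' ∧ τ φ = τ φ' := by
    intro φ φ'
    obtain ⟨σ, rfl⟩ := trans φ φ'
    obtain ⟨ψ', h1, h2⟩ := (hBCN.2 k K N n κ τ ψ hn h).2.2.2.2.2.1 σ.symm
    obtain ⟨h3, h4⟩ := hTyp k K N n _ _ _ _ hn h.sum h2.sum fun α hα => by
      rw [← h.prin α hα, ← h2.prin α hα, h1, hi]
    exact ⟨congrFun h3 φ, congrFun h4 φ⟩
  let φ₀ : Emb k N := IsAlgClosed.lift
  refine ⟨κ φ₀, fun φ => (key φ φ₀).1, fun φ => ?_⟩
  have h1 := h.sum
  rw [Finset.sum_congr rfl fun φ' _ => (key φ' φ).2, Finset.sum_const, nsmul_eq_mul,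
    mul_eq_zero] at h1
  refine h1.resolve_left ?_
  have : Nonempty (Emb k N) := ⟨φ₀⟩
  exact_mod_cast (Finset.card_pos.2 Finset.univ_nonempty).ne'

lemma ty_base (j : ℤ) (E : Type) [Field E] [NumberField E] [Algebra k E] (α : 𝓞 k) :
    ty (fun _ => j) 0 (emb k (algebraMap (𝓞 k) (𝓞 E) α)) =
      (dir (algebraMap k ℂ α) ^ j) ^ Module.finrank k E := by
  have h1 : ∀ φ : Emb k E, emb k (algebraMap (𝓞 k) (𝓞 E) α) φ = algebraMap k ℂ α := fun φ =>
    φ.commutes _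
  rw [ty_tau_zero]
  simp only [h1]
  rw [Finset.prod_const, Finset.card_univ, AlgHom.card]

lemma ty_k (j : ℤ) (α : 𝓞 k) : ty (fun _ => j) 0 (emb k α) = dir (algebraMap k ℂ α) ^ j := by
  have h1 : ∀ φ : Emb k k, emb k α φ = algebraMap k ℂ α := fun φ => φ.commutes _
  rw [ty_tau_zero]
  simp only [h1]
  rw [Finset.prod_const, Finset.card_univ, AlgHom.card, Module.finrank_self, pow_one]

omit [Algebra k ℂ] [NumberField k] in
lemma cop_map {E : Type} [Field E] [Algebra k E] {n : ℕ} {I : Ideal (𝓞 k)} (h : Cop n I) :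
    Cop n (I.map (algebraMap (𝓞 k) (𝓞 E))) := by
  have := h.map (Ideal.mapHom (algebraMap (𝓞 k) (𝓞 E)))
  rwa [Ideal.mapHom_apply, Ideal.mapHom_apply, Ideal.map_span, Set.image_singleton,
    map_natCast] at this

lemma eq_of_pow {a b : ℂ} {m e : ℕ} (hb : b ≠ 0) (hc : m.Coprime e) (h1 : a ^ m = b ^ m)
    (h2 : a ^ e = b ^ e) : a = b := by
  have h3 : (a / b) ^ m.gcd e = 1 := pow_gcd_eq_one.2
    ⟨by rw [div_pow, h1, div_self (pow_ne_zero _ hb)], by rw [div_pow, h2, div_self (pow_ne_zero _ hb)]⟩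
  rw [hc, pow_one] at h3
  exact (div_eq_one_iff_eq hb).1 h3

/-- pairs of an ideal coprime to `n` and an element congruent to one -/
def Pr (k L : Type) [Field k] [Field L] (n : ℕ) : Submonoid (Ideal (𝓞 L) × 𝓞 k) where
  carrier := {x | Cop n x.1 ∧ (n : 𝓞 k) ^ 2 ∣ x.2 - 1}
  one_mem' := ⟨isCoprime_one_left, by simp⟩
  mul_mem' := fun {a b} ha hb => ⟨cop_mul.2 ⟨ha.1, hb.1⟩, by
    have : (a * b).2 - 1 = (a.2 - 1) * b.2 + (b.2 - 1) := by rw [Prod.snd_mul]; ring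
    rw [this]
    exact dvd_add (ha.2.mul_right _) hb.2⟩

end DDesc

open DDesc in
theorem d_desc (hTyp : S_Typ) (hBCN : S_BCN) (hKer : S_Ker) (hExt : S_Ext) (hCyc : S_Cyc) : S_Desc := by
  intro k _ _ _ K L N _ _ _ _ _ _ _ _ e P M n θ κ τ χ h hS hM hn0 hχ hi he
  have hn : 2 ≤ n := by
    have h1 : (2 : ℤ) ∣ (n : ℤ) :=
      ((dvd_mul_right 2 K.D).trans h.dvd).trans (Int.natCast_dvd_natCast.2 hM)
    omega
  have hn2 : 2 ≤ n ^ 2 := by nlinarith
  obtain ⟨hG, F, f1, f2, f3, f4, f5⟩ := hCyc k K L N e P M θ h hS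
  obtain ⟨j, hj, hτ⟩ := const hTyp hBCN K hn ((hBCN.2 k K L n κ τ χ hn hχ).2.2.2.2.2.2 N) hi
  obtain rfl : κ = fun _ => j := funext fun φ => by
    obtain ⟨φ', rfl⟩ := ext_emb N φ
    exact hj φ'
  obtain rfl : τ = 0 := funext fun φ => by
    obtain ⟨φ', rfl⟩ := ext_emb N φ
    exact hτ φ'
  have hψ : IsH k n (fun _ => j) 0 (nrm N χ) := (hBCN.2 k K L n _ _ χ hn hχ).2.2.2.2.2.2 N
  have hres := (hBCN.2 k K L n _ _ χ hn hχ).2.2.1
  rw [Finset.sum_const, Finset.card_univ, AlgHom.card, h.fin] at hres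
  have hroot : aeval (algebraMap L N θ) P = 0 := by
    have := congrArg (algebraMap L N) (congrArg (algebraMap (𝓞 L) L) h.root)
    rwa [← aeval_algebraMap_apply, ← aeval_algebraMap_apply, map_zero, map_zero] at this
  have hbc := (hBCN.1 k L F N (f1.trans h.fin.symm) (top_le_iff.1 (f4.symm.le.trans
    (Algebra.adjoin_mono (by simp))))).2
  have hd : ∀ {α : 𝓞 k}, (n : 𝓞 k) ^ 2 ∣ α - 1 → (n : 𝓞 k) ∣ α - 1 := fun hα =>
    (dvd_pow_self _ two_ne_zero).trans hα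
  have h0 : ∀ {α : 𝓞 k}, (n : 𝓞 k) ^ 2 ∣ α - 1 → algebraMap k ℂ α ≠ 0 := fun hα => by
    rw [_root_.map_ne_zero]
    exact_mod_cast ne_zero_of_dvd hn (hd hα)
  have ht : χ ⊤ = 1 := by rw [← Ideal.one_eq_top, map_one]
  let ν : Pr k L n →* Ideal (𝓞 k) :=
    { toFun := fun x => Ideal.relNorm (𝓞 k) x.1.1 * Ideal.span {x.1.2}
      map_one' := by simp
      map_mul' := fun x y => by
        simp only [Submonoid.coe_mul, Prod.fst_mul, Prod.snd_mul, map_mul,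
          ← Ideal.span_singleton_mul_span_singleton]
        ring }
  let f : Pr k L n →* ℂ :=
    { toFun := fun x => χ x.1.1 * dir (algebraMap k ℂ x.1.2) ^ j
      map_one' := by simp [dir_one, ht]
      map_mul' := fun x y => by
        simp only [Submonoid.coe_mul, Prod.fst_mul, Prod.snd_mul, map_mul, dir_mul, mul_zpow]
        ring }
  have hf : ∀ x, ‖f x‖ = 1 := fun x => by
    change ‖χ x.1.1 * dir (algebraMap k ℂ x.1.2) ^ j‖ = 1
    rw [norm_mul, hχ.norm_cop _ x.2.1, norm_zpow, norm_dir (h0 x.2.2), one_zpow, one_mul]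
  have p1 : ∀ x, f x ^ e = res k χ (ν x) := fun x => by
    change (χ x.1.1 * dir (algebraMap k ℂ x.1.2) ^ j) ^ e =
      res k χ (Ideal.relNorm (𝓞 k) x.1.1 * Ideal.span {x.1.2})
    rw [map_mul, hres.prin _ (hd x.2.2), ty_k, mul_pow, he, nrm_apply, nsmul_eq_mul, mul_comm _ j,
      zpow_mul, zpow_natCast]
  have p2 : ∀ x : Pr k L n, f x ^ Module.finrank L N =
      nrm N χ (x.1.1.map (algebraMap (𝓞 L) (𝓞 N))) *
        ty (fun _ => j) 0 (emb k (algebraMap (𝓞 k) (𝓞 F) x.1.2)) := fun x => by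
    change (χ x.1.1 * dir (algebraMap k ℂ x.1.2) ^ j) ^ _ = _
    rw [ty_base, f2, nrm_apply, Ideal.relNorm_algebraMap,
      IsFractionRing.finrank_eq (𝓞 L) L (𝓞 N) N, map_pow, mul_pow]
  have p3 : ∀ x : Pr k L n, Ideal.relNorm (𝓞 F) (x.1.1.map (algebraMap (𝓞 L) (𝓞 N))) *
      Ideal.span {algebraMap (𝓞 k) (𝓞 F) x.1.2} = (ν x).map (algebraMap (𝓞 k) (𝓞 F)) := fun x => by
    change _ = (Ideal.relNorm (𝓞 k) x.1.1 * Ideal.span {x.1.2}).map _
    rw [hbc, Ideal.map_mul, Ideal.map_span, Set.image_singleton]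
  have p4 : ∀ x : Pr k L n, (n : 𝓞 F) ^ 2 ∣ algebraMap (𝓞 k) (𝓞 F) x.1.2 - 1 := fun x => by
    simpa using map_dvd (algebraMap (𝓞 k) (𝓞 F)) x.2.2
  obtain ⟨ξ, h1, h2⟩ := hExt k (n ^ 2) (Pr k L n) ν f hn2
    (fun x => (cop_pow_nat two_pos).2 (cop_mul.2 ⟨cop_rel.2 x.2.1, cop_span_of_dvd (hd x.2.2)⟩))
    hf fun x y hxy => by
      refine eq_of_pow (fun h' => by simpa [h'] using hf y) f3 ?_ (by rw [p1, p1, hxy])
      rw [p2, p2]
      exact hKer k K F N P M n _ j _ _ _ _ _ (f1 ▸ h.he) (f1 ▸ h.h3) h.monic (h.deg.trans f1.symm)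
        hroot f4 h.sep hM hn (f1 ▸ f5) hψ (fun σ I => hi (σ.restrictScalars k) I)
        (cop_map x.2.1) (cop_map y.2.1) (p4 x) (p4 y) (by rw [p3, p3, hxy])
  refine ⟨j, ξ, ⟨h1, by simp, fun α hα => ?_⟩, fun I hI => ?_⟩
  · have := h2 ⟨(1, α), isCoprime_one_left, by exact_mod_cast hα⟩
    change ξ (Ideal.relNorm (𝓞 k) 1 * Ideal.span {α}) = χ 1 * dir (algebraMap k ℂ α) ^ j at this
    rw [map_one, map_one, one_mul, one_mul] at this
    rw [this, ty_k]
  · have := h2 ⟨(I, 1), hI, by simp⟩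
    change ξ (Ideal.relNorm (𝓞 k) I * Ideal.span {1}) =
      χ I * dir (algebraMap k ℂ (1 : 𝓞 k)) ^ j at this
    simpa [dir_one] using this.symm

end Pool.Agent.P.MP_b8021b_nt.VC
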