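import Pool.Agent.P.MP_b8021b_nt.VC.PDescS
import Pool.Agent.P.MP_b8021b_nt.VC.BasicN

/-! The action of a cyclic Galois group on fractional ideals. -/

namespace Pool.Agent.P.MP_b8021b_nt.VC.HNP

open NumberField Finset Pool.Agent.P.MP_b8021b_nt.VE Cy FractionalIdeal
open scoped Classical Pointwise nonZeroDivisors

set_option linter.unusedSectionVars false

noncomputable section

theorem relIndex_le_card {G ι : Type} [CommGroup G] [Finite ι] (H K : Subgroup G) (f : ι → G)
    (h : ∀ x ∈ K, ∃ i, x / f i ∈ H) : H.relIndex K ≤ Nat.card ι := by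
  choose g hg using h
  refine Nat.card_le_card_of_injective (fun q : K ⧸ H.subgroupOf K => g q.out.1 q.out.2)
    fun q q' e => ?_
  have e' : g q.out.1 q.out.2 = g q'.out.1 q'.out.2 := e
  have h1 := H.div_mem (hg _ q'.out.2) (hg _ q.out.2)
  rw [e', div_div_div_cancel_right] at h1
  rw [← QuotientGroup.out_eq' q, ← QuotientGroup.out_eq' q']
  refine QuotientGroup.eq.2 (Subgroup.mem_subgroupOf.2 ?_)
  rwa [Subgroup.coe_mul, Subgroup.coe_inv, mul_comm, ← div_eq_mul_inv]

theorem coe_iter {M : Type} [Monoid M] (f : M →* M) (u : Mˣ) (i : ℕ) :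
    (((Units.map f)^[i] u : Mˣ) : M) = f^[i] u := by
  induction i with
  | zero => rfl
  | succ i ih => rw [Function.iterate_succ_apply', Function.iterate_succ_apply', ← ih]; rfl

theorem prod_pow_eq {G M : Type} [Group G] [Fintype G] [CommMonoid M] {σ : G}
    (h : ∀ g, g ∈ Subgroup.zpowers σ) (f : G → M) :
    ∏ i ∈ range (Nat.card G), f (σ ^ i) = ∏ g, f g := by
  rw [← orderOf_eq_card_of_forall_mem_zpowers h, ← IsCyclic.image_range_orderOf h, prod_image]
  intro i hi j hj e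
  exact pow_injOn_Iio_orderOf (mem_range.1 hi) (mem_range.1 hj) e

variable {F K : Type} [Field F] [NumberField F] [Field K] [NumberField K] [Algebra F K]

/-- fractional ideals -/
abbrev FI (K : Type) [Field K] := FractionalIdeal (𝓞 K)⁰ K

/-- the action on fractional ideals -/
def sF (g : K ≃ₐ[F] K) : FI K →+* FI K :=
  extendedHom' K (f := MulSemiringAction.toRingHom (K ≃ₐ[F] K) (𝓞 K) g)
    (nonZeroDivisors_le_comap_nonZeroDivisors_of_injective _ (MulAction.injective g))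

theorem sF_coe (g : K ≃ₐ[F] K) (I : Ideal (𝓞 K)) :
    sF g (I : FI K) = ((g • I : Ideal (𝓞 K)) : FI K) := extended_coeIdeal_eq_map _ _ I

theorem sF_span (g : K ≃ₐ[F] K) (x : K) : sF g (spanSingleton _ x) = spanSingleton _ (g x) := by
  refine (extended_spanSingleton _ _ x).trans ?_
  rw [IsLocalization.map_unique _ (g : K →+* K) fun _ => rfl]
  rfl

theorem sF_iter_coe (g : K ≃ₐ[F] K) (I : Ideal (𝓞 K)) (i : ℕ) :
    (sF g)^[i] (I : FI K) = ((g ^ i • I : Ideal (𝓞 K)) : FI K) := by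
  induction i with
  | zero => simp
  | succ i ih => rw [Function.iterate_succ_apply', ih, sF_coe, pow_succ', mul_smul]

theorem sF_iter_span (g : K ≃ₐ[F] K) (x : K) (i : ℕ) :
    (sF g)^[i] (spanSingleton _ x) = spanSingleton _ ((g ^ i) x) := by
  induction i with
  | zero => simp
  | succ i ih => rw [Function.iterate_succ_apply', ih, sF_span, pow_succ', AlgEquiv.mul_apply]

/-- the action on invertible fractional ideals -/
def σD (g : K ≃ₐ[F] K) : (FI K)ˣ →* (FI K)ˣ := Units.map (sF g).toMonoidHom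

/-- the action on nonzero elements -/
def σA (g : K ≃ₐ[F] K) : Kˣ →* Kˣ := Units.map (g : K →+* K).toMonoidHom

theorem coe_σD (g : K ≃ₐ[F] K) (x : (FI K)ˣ) : (σD g x : FI K) = sF g x := rfl

theorem coe_σA (g : K ≃ₐ[F] K) (x : Kˣ) : (σA g x : K) = g x := rfl

theorem coe_σD_iter (g : K ≃ₐ[F] K) (x : (FI K)ˣ) (i : ℕ) :
    (((σD g)^[i] x : (FI K)ˣ) : FI K) = (sF g)^[i] x := coe_iter _ x i

theorem coe_σA_iter (g : K ≃ₐ[F] K) (x : Kˣ) (i : ℕ) :
    (((σA g)^[i] x : Kˣ) : K) = (g ^ i) x := by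
  induction i with
  | zero => rfl
  | succ i ih => rw [Function.iterate_succ_apply', coe_σA, ih, pow_succ', AlgEquiv.mul_apply]

theorem σD_iter {g : K ≃ₐ[F] K} {e : ℕ} (h : g ^ e = 1) (x : (FI K)ˣ) : (σD g)^[e] x = x := by
  refine Units.ext ?_
  obtain ⟨a, I, -, hx⟩ := exists_eq_spanSingleton_mul (x : FI K)
  rw [coe_σD_iter, hx, iterate_map_mul, sF_iter_coe, sF_iter_span, h, one_smul, AlgEquiv.one_apply]

theorem σA_iter {g : K ≃ₐ[F] K} {e : ℕ} (h : g ^ e = 1) (x : Kˣ) : (σA g)^[e] x = x :=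
  Units.ext (by rw [coe_σA_iter, h, AlgEquiv.one_apply])

theorem uσ_iter {g : K ≃ₐ[F] K} {e : ℕ} (h : g ^ e = 1) (x : (𝓞 K)ˣ) : (uσ g)^[e] x = x := by
  have : ∀ i, (((uσ g)^[i] x : (𝓞 K)ˣ) : 𝓞 K) = g ^ i • (x : 𝓞 K) := fun i => by
    induction i with
    | zero => simp
    | succ i ih => rw [Function.iterate_succ_apply', pow_succ', mul_smul, ← ih]; rfl
  exact Units.ext (by rw [this, h, one_smul])

/-- the units as nonzero elements -/
def ιE (K : Type) [Field K] : (𝓞 K)ˣ →* Kˣ := Units.map (algebraMap (𝓞 K) K).toMonoidHom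

/-- principal ideals -/
abbrev dv (K : Type) [Field K] [NumberField K] : Kˣ →* (FI K)ˣ := toPrincipalIdeal (𝓞 K) K

theorem ιE_inj : Function.Injective (ιE K) :=
  Units.map_injective (IsFractionRing.injective (𝓞 K) K)

theorem ιE_range : (ιE K).range = (dv K).ker := by
  ext x
  rw [MonoidHom.mem_ker, toPrincipalIdeal_eq_iff, Units.val_one, ← spanSingleton_one,
    spanSingleton_eq_spanSingleton]
  constructor
  · rintro ⟨u, rfl⟩
    exact ⟨u⁻¹, by simp [ιE, Units.smul_def, Algebra.smul_def, ← map_mul]⟩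
  · rintro ⟨u, hu⟩
    refine ⟨u⁻¹, Units.ext ?_⟩
    have : (x : K) = u⁻¹ • (1 : K) := by rw [← hu, inv_smul_smul]
    rw [this]
    simp [ιE, Units.smul_def, Algebra.smul_def]

theorem dv_index : (dv K).range.index ≠ 0 := by
  have : Finite ((FI K)ˣ ⧸ (dv K).range) :=
    Finite.of_equiv _ (ClassGroup.equiv (R := 𝓞 K) K).toEquiv
  exact Subgroup.index_ne_zero_of_finite

theorem dv_σ (g : K ≃ₐ[F] K) (a : Kˣ) : dv K (σA g a) = σD g (dv K a) :=
  Units.ext (by rw [coe_σD, coe_toPrincipalIdeal, coe_toPrincipalIdeal, sF_span, coe_σA])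

variable (F K) in
/-- the elements of the small field -/
def ιF : Fˣ →* Kˣ := Units.map (algebraMap F K).toMonoidHom

theorem coe_ιF (a : Fˣ) : (ιF F K a : K) = algebraMap F K a := rfl

theorem ιF_inj : Function.Injective (ιF F K) := Units.map_injective (algebraMap F K).injective

variable [IsGalois F K] {σ : K ≃ₐ[F] K}

theorem coe_nmA (h : ∀ g, g ∈ Subgroup.zpowers σ) (a : Kˣ) :
    (nm (σA σ) (Module.finrank F K) a : K) = algebraMap F K (Algebra.norm F (a : K)) := by
  rw [nm_apply, Units.coe_prod, Algebra.norm_eq_prod_automorphisms, ← IsGalois.card_aut_eq_finrank,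
    ← prod_pow_eq h fun g => g (a : K)]
  exact prod_congr rfl fun i _ => coe_σA_iter σ a i

theorem h90 (h : ∀ g, g ∈ Subgroup.zpowers σ) :
    (nm (σA σ) (Module.finrank F K)).ker ≤ (df (σA σ)).range := fun a ha => by
  have : IsCyclic (K ≃ₐ[F] K) := ⟨σ, h⟩
  have h1 := coe_nmA h a
  rw [MonoidHom.mem_ker.1 ha, Units.val_one, eq_comm, map_eq_one_iff _ (algebraMap F K).injective]
    at h1
  obtain ⟨y, hy⟩ := groupCohomology.exists_div_of_norm_eq_one h h1
  refine ⟨y⁻¹, Units.ext ?_⟩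
  rw [df_apply, map_inv, inv_div_inv, Units.val_div_eq_div_val, coe_σA, hy]

theorem fx_σA (h : ∀ g, g ∈ Subgroup.zpowers σ) : fx (σA σ) = (ιF F K).range := by
  ext x
  rw [mem_fx]
  constructor
  · intro hx
    have h1 : ∀ g : K ≃ₐ[F] K, g (x : K) = x := fun g =>
      (show Subgroup.zpowers σ ≤ MulAction.stabilizer _ (x : K) from
        Subgroup.zpowers_le.2 (congrArg Units.val hx)) (h g)
    obtain ⟨y, hy⟩ := (IsGalois.mem_range_algebraMap_iff_fixed (x : K)).2 h1
    have : y ≠ 0 := fun e => x.ne_zero (by rw [← hy, e, map_zero])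
    exact ⟨Units.mk0 y this, Units.ext hy⟩
  · rintro ⟨y, rfl⟩
    exact Units.ext (σ.commutes _)

theorem coe_nmD (hNG : S_NG) (h : ∀ g, g ∈ Subgroup.zpowers σ) {x : (FI K)ˣ} {I : Ideal (𝓞 K)}
    (hx : (x : FI K) = I) : (nm (σD σ) (Module.finrank F K) x : FI K) =
      (((Ideal.relNorm (𝓞 F) I).map (algebraMap (𝓞 F) (𝓞 K)) : Ideal (𝓞 K)) : FI K) := by
  rw [(hNG F K).2.1, nm_apply, Units.coe_prod, ← IsGalois.card_aut_eq_finrank,
    ← prod_pow_eq h fun g => g • I, ← coeIdealHom_apply, map_prod]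
  exact prod_congr rfl fun i _ => by rw [coe_σD_iter, hx, sF_iter_coe, coeIdealHom_apply]

end

end Pool.Agent.P.MP_b8021b_nt.VC.HNP
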