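import Pool.Agent.P.MP_b8021b_nt.VC.PDescS
import Pool.Agent.P.MP_b8021b_nt.VC.StG
import Pool.Agent.P.MP_b8021b_nt.VC.BasicN

/-! Package DKer: an invariant character is trivial on the kernel of the norm. -/

namespace Pool.Agent.P.MP_b8021b_nt.VC

open Polynomial NumberField Finset Pool.Agent.P.MP_b8021b_nt.VE
open scoped Classical Pointwise

namespace DKer

variable {E E' : Type} [Field E] [NumberField E] [Field E'] [NumberField E'] [Algebra E E']

theorem coe_nm (x : 𝓞 E') :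
    ((Algebra.intNorm (𝓞 E) (𝓞 E') x : 𝓞 E) : E) = Algebra.norm E (x : E') :=
  Algebra.algebraMap_intNorm (A := 𝓞 E) (K := E) (L := E') (B := 𝓞 E') x

theorem nm_ne {x : 𝓞 E'} (hx : x ≠ 0) : Algebra.intNorm (𝓞 E) (𝓞 E') x ≠ 0 := by
  intro h
  have h1 := coe_nm (E := E) x
  rw [h] at h1
  have h2 : Algebra.norm E (x : E') = 0 := by rw [← h1]; rfl
  rw [Algebra.norm_eq_zero_iff] at h2
  exact hx (RingOfIntegers.ext h2)

theorem nm_cong [IsGalois E E'] {m : ℕ} (hm : m ≠ 0) {x : 𝓞 E'} (h : (m : 𝓞 E') ∣ x - 1) :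
    (m : 𝓞 E) ∣ Algebra.intNorm (𝓞 E) (𝓞 E') x - 1 := by
  have h1 : (m : 𝓞 E') ∣ ∏ σ : E' ≃ₐ[E] E', RingOfIntegers.mapRingHom (σ : E' →+* E') x - 1 := by
    refine Finset.prod_induction _ (fun y : 𝓞 E' => (m : 𝓞 E') ∣ y - 1) (fun a b ha hb => ?_)
      (by simp) fun σ _ => ?_
    · have : a * b - 1 = (a - 1) * b + (b - 1) := by ring
      rw [this]
      exact dvd_add (ha.mul_right _) hb
    · simpa using map_dvd (RingOfIntegers.mapRingHom (σ : E' →+* E')) h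
  obtain ⟨w, hw⟩ := h1
  have hmE : (m : E) ≠ 0 := Nat.cast_ne_zero.2 hm
  have hmE' : (m : E') ≠ 0 := Nat.cast_ne_zero.2 hm
  have h2 : algebraMap E E' ((Algebra.norm E (x : E') - 1) / m) = (w : E') := by
    have h3 := congrArg (algebraMap (𝓞 E') E') hw
    rw [map_sub, map_prod, map_one, map_mul, map_natCast] at h3
    rw [map_div₀, map_sub, map_one, map_natCast, Algebra.norm_eq_prod_automorphisms,
      div_eq_iff hmE', mul_comm]
    exact h3
  have h4 : IsIntegral ℤ ((Algebra.norm E (x : E') - 1) / m) := by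
    rw [← isIntegral_algebraMap_iff (algebraMap E E').injective, h2]
    exact w.isIntegral_coe
  refine ⟨⟨_, h4⟩, RingOfIntegers.ext ?_⟩
  change algebraMap (𝓞 E) E _ = algebraMap (𝓞 E) E _
  rw [map_sub, map_one, map_mul, map_natCast]
  change ((Algebra.intNorm (𝓞 E) (𝓞 E') x : 𝓞 E) : E) - 1 = m * ((Algebra.norm E (x : E') - 1) / m)
  rw [coe_nm, mul_div_cancel₀ _ hmE]

theorem ty_nm (hEmb : S_Emb) {k : Type} [Field k] [NumberField k] [Algebra k ℂ] (K : BF k)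
    [Algebra k E] [Algebra k E'] [IsScalarTower k E E'] (j : ℤ) (x : 𝓞 E') :
    ty (fun _ => j) 0 (emb k x) = ty (fun _ => j) 0 (emb k (Algebra.intNorm (𝓞 E) (𝓞 E') x)) := by
  obtain ⟨_, h1⟩ := hEmb k K (Module.finrank k E)
  obtain ⟨_, h2⟩ := hEmb k K (Module.finrank k E')
  have e1 := (h1 E rfl).2.2.2.2.1 ((Algebra.intNorm (𝓞 E) (𝓞 E') x : 𝓞 E) : E)
  have e2 := (h2 E' rfl).2.2.2.2.1 (x : E')
  rw [ty_const, ty_const]
  simp only [emb_apply]
  rw [e1, e2, coe_nm, Algebra.norm_norm]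

end DKer

open DKer in
theorem d_ker (hEmb : S_Emb) (hUnr : S_Unr) (hNG : S_NG) (hHNP : S_HNP) (hUn : S_Un) (hL90 : S_L90) : S_Ker := by
  intro k _ _ _ K E E' _ _ _ _ _ _ _ _ _ P M n θ j ψ α β A B he h3 hP hdeg hθ hadj hsep hM hn hram
    hψ hinv hA hB hα hβ hAB
  have hn0 : n ≠ 0 := by omega
  have hα1 : (n : 𝓞 E) ∣ α - 1 := (dvd_pow_self _ two_ne_zero).trans hα
  have hβ1 : (n : 𝓞 E) ∣ β - 1 := (dvd_pow_self _ two_ne_zero).trans hβ
  have cop : ∀ x : 𝓞 E, (n : 𝓞 E) ∣ x - 1 → IsCoprime x n := fun x ⟨c, hc⟩ =>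
    ⟨1, -c, by linear_combination hc⟩
  obtain ⟨δ, hδ⟩ := hHNP k K E E' n α β A B he h3 hn (fun 𝔓 h1 h2 => ⟨by
    obtain ⟨c, rfl⟩ := hM
    rw [Nat.cast_mul]
    exact Ideal.mul_mem_right _ _ ((hUnr.2.2 E E' P M θ hP hsep hθ hadj).1 𝔓 h1 h2),
    hram 𝔓 h1 h2⟩) hα1 hβ1 (Cop_ne_bot hn hA) (Cop_ne_bot hn hB) hAB
  obtain ⟨a, b, -, hb, hab⟩ := hUn E E' n δ α β he hn0 (cop α hα1) (cop β hβ1) hδ
  obtain ⟨b', u, hb'⟩ := (hb.pow_right (n := 2))
  set N := Algebra.intNorm (𝓞 E) (𝓞 E') with hN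
  have hab' : N a * α = N b * β := by
    apply RingOfIntegers.ext
    change algebraMap (𝓞 E) E _ = algebraMap (𝓞 E) E _
    rw [map_mul, map_mul]
    exact (congrArg (· * (α : E)) (coe_nm a)).trans
      (hab.trans (congrArg (· * (β : E)) (coe_nm b)).symm)
  have hbb : ((n ^ 2 : ℕ) : 𝓞 E') ∣ b * b' - 1 := ⟨-u, by push_cast; linear_combination hb'⟩
  have h1 := nm_cong (E := E) (pow_ne_zero 2 hn0) hbb
  rw [Nat.cast_pow, ← hN, map_mul] at h1
  have h2 : (n : 𝓞 E) ^ 2 ∣ N (a * b') - 1 := by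
    have e : N (a * b') - 1 = (N b * N b' - 1) * β + (β - 1) - N (a * b') * (α - 1) := by
      rw [map_mul]
      linear_combination N b' * hab'
    rw [e]
    exact dvd_sub (dvd_add (h1.mul_right _) hβ) (hα.mul_left _)
  obtain ⟨z, hz⟩ := h2
  obtain ⟨a₁, b₁, ha₁, hb₁, h4⟩ := hL90 E E' P M n θ (a * b') z he hP hdeg hθ hadj hsep hM hn (by
    have := congrArg (algebraMap (𝓞 E) E) hz
    rw [map_sub, map_one, map_mul (algebraMap (𝓞 E) E), map_pow, map_natCast] at this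
    rw [← coe_nm]
    exact eq_add_of_sub_eq' this)
  have h5 : N (a * b') * N b₁ = N a₁ := by
    apply RingOfIntegers.ext
    change algebraMap (𝓞 E) E _ = algebraMap (𝓞 E) E _
    rw [map_mul]
    rw [← coe_nm, ← coe_nm, ← coe_nm] at h4
    exact h4
  set c := b * b' * b₁ with hc
  have hc1 : (n : 𝓞 E') ∣ c - 1 := by
    have e : c - 1 = (b * b' - 1) * b₁ + (b₁ - 1) := by rw [hc]; ring
    rw [e]
    refine dvd_add (Dvd.dvd.mul_right (dvd_trans ?_ hbb) _) hb₁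
    rw [Nat.cast_pow]
    exact dvd_pow_self _ two_ne_zero
  have h6 : N a₁ * α = N c * β := by
    rw [← h5, hc, map_mul, map_mul, map_mul]
    linear_combination N b' * N b₁ * hab'
  have hβ0 : β ≠ 0 := ne_zero_of_dvd hn hβ1
  have hα0 : α ≠ 0 := ne_zero_of_dvd hn hα1
  have hc0 : N c ≠ 0 := nm_ne (ne_zero_of_dvd hn hc1)
  have ha0 : N a₁ ≠ 0 := nm_ne (ne_zero_of_dvd hn ha₁)
  have h7 : Ideal.relNorm (𝓞 E) (A * Ideal.span {c}) =
      Ideal.relNorm (𝓞 E) (B * Ideal.span {a₁}) := by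
    have hsp : Ideal.span {β} ≠ (⊥ : Ideal (𝓞 E)) := by
      rw [Ne, Ideal.span_singleton_eq_bot]; exact hβ0
    apply mul_right_cancel₀ hsp
    rw [map_mul, map_mul, Ideal.relNorm_singleton, Ideal.relNorm_singleton, ← hN, mul_assoc,
      Ideal.span_singleton_mul_span_singleton, ← h6, ← Ideal.span_singleton_mul_span_singleton,
      mul_left_comm, hAB]
    ring
  obtain ⟨g1, -, g3, -⟩ := hNG E E'
  have h8 := g3 ψ _ _ (fun g I => by rw [← g1, hinv]) h7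
  rw [map_mul, map_mul, hψ.prin c hc1, hψ.prin a₁ ha₁, ty_nm (E := E) hEmb K, ty_nm (E := E) hEmb K j a₁,
    ← hN] at h8
  have h9 := congrArg (fun x : 𝓞 E => ty (fun _ => j) 0 (emb k x)) h6
  simp only [ty_emb_mul _ _ ha0 hα0, ty_emb_mul _ _ hc0 hβ0] at h9
  apply mul_right_cancel₀ (ty_ne_zero (fun _ => j) 0 (emb_ne_zero (k := k) hc0))
  linear_combination ty (fun _ => j) 0 (emb k α) * h8 + ψ B * h9

end Pool.Agent.P.MP_b8021b_nt.VC
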