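import Pool.Agent.P.MP_b8021b_nt.VC.PDescS

/-! The subgroup of elements that are `e`-th powers at the ramified primes. -/

namespace Pool.Agent.P.MP_b8021b_nt.VC

open Polynomial NumberField Finset Pool.Agent.P.MP_b8021b_nt.VE
open scoped Classical Pointwise

namespace DU1

theorem ne_zero_of_cop {R k : Type} [CommRing R] [Field k] (φ : R →+* k) {a n : R}
    (hn : φ n = 0) (h : IsCoprime a n) : φ a ≠ 0 := by
  intro h0
  obtain ⟨u, v, huv⟩ := h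
  have := congrArg φ huv
  simp [h0, hn] at this

/-- reduction of the elements prime to `n` -/
theorem exists_red {R F k : Type} [CommRing R] [Field F] [Field k] (ι : R →+* F)
    (hι : Function.Injective ι) (φ : R →+* k) (n : R) (hn : φ n = 0) (U : Subgroup Fˣ)
    (hU : ∀ γ ∈ U, ∃ a b : R, IsCoprime a n ∧ IsCoprime b n ∧ (γ : F) * ι b = ι a) :
    ∃ ρ : U →* kˣ, ∀ (γ : U) (a b : R), ((γ : Fˣ) : F) * ι b = ι a → (ρ γ : k) * φ b = φ a := by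
  choose! a₀ b₀ ha hb hab using hU
  have spec : ∀ (γ : U) (a b : R), ((γ : Fˣ) : F) * ι b = ι a →
      φ (a₀ γ) / φ (b₀ γ) * φ b = φ a := by
    intro γ a b h
    have h1 : a * b₀ γ = a₀ γ * b := by
      apply hι
      rw [map_mul, map_mul, ← h, ← hab γ γ.2]
      ring
    have h2 := congrArg φ h1
    rw [map_mul, map_mul] at h2
    have h3 := ne_zero_of_cop φ hn (hb γ γ.2)
    rw [div_mul_eq_mul_div, ← h2, mul_div_cancel_right₀ _ h3]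
  let r : U →* k :=
    { toFun := fun γ => φ (a₀ γ) / φ (b₀ γ)
      map_one' := by simpa using spec 1 1 1 (by simp)
      map_mul' := by
        intro γ γ'
        have h1 := spec (γ * γ') (a₀ γ * a₀ γ') (b₀ γ * b₀ γ') (by
          rw [map_mul, map_mul, ← hab γ γ.2, ← hab γ' γ'.2]
          push_cast
          ring)
        have h3 := ne_zero_of_cop φ hn (hb γ γ.2)
        have h4 := ne_zero_of_cop φ hn (hb γ' γ'.2)
        rw [map_mul, map_mul] at h1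
        rw [div_mul_div_comm, eq_div_iff (mul_ne_zero h3 h4), h1] }
  exact ⟨r.toHomUnits, fun γ a b h => spec γ a b h⟩

theorem mem_range_pow {k : Type} [Field k] {e : ℕ} (he : e ≠ 0) (r : kˣ) {x y : k}
    (h : (r : k) * x ^ e = y ^ e) (hxy : x ≠ 0 ∨ y ≠ 0) :
    r ∈ (powMonoidHom e : kˣ →* kˣ).range := by
  have hx : x ≠ 0 := by
    rintro rfl
    rcases hxy with h0 | h0
    · exact h0 rfl
    · rw [zero_pow he, mul_zero] at h
      exact pow_ne_zero e h0 h.symm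
  have hy : y ≠ 0 := by
    rintro rfl
    rw [zero_pow he] at h
    exact mul_ne_zero r.ne_zero (pow_ne_zero e hx) h
  refine ⟨Units.mk0 (y / x) (div_ne_zero hy hx), ?_⟩
  ext
  simp only [powMonoidHom_apply, Units.val_pow_eq_pow_val, Units.val_mk0]
  rw [div_pow, ← h, mul_div_cancel_right₀ _ (pow_ne_zero e hx)]

/-- the index of the subgroup of elements that are `e`-th powers everywhere -/
theorem exists_index {U ι : Type} [Group U] [Fintype ι] (G : ι → Type) [∀ i, CommGroup (G i)]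
    [∀ i, Finite (G i)] [∀ i, IsCyclic (G i)] (e : ℕ) (he : ∀ i, e ∣ Nat.card (G i))
    (ρ : ∀ i, U →* G i) (hρ : ∀ x : ∀ i, G i, ∃ u, ∀ i, ρ i u = x i) :
    ∃ V : Subgroup U, V.index = e ^ Fintype.card ι ∧
      ∀ u, (∀ i, ρ i u ∈ (powMonoidHom e : G i →* G i).range) → u ∈ V := by
  let ψ : U →* ∀ i, G i ⧸ (powMonoidHom e : G i →* G i).range :=
    MonoidHom.pi fun i => (QuotientGroup.mk' _).comp (ρ i)
  have hs : Function.Surjective ψ := by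
    intro y
    choose x hx using fun i => QuotientGroup.mk'_surjective _ (y i)
    obtain ⟨u, hu⟩ := hρ x
    refine ⟨u, funext fun i => ?_⟩
    simp only [ψ, MonoidHom.pi_apply, MonoidHom.comp_apply, hu, hx]
  refine ⟨ψ.ker, ?_, fun u hu => ?_⟩
  · rw [Subgroup.index_ker, MonoidHom.range_eq_top.2 hs, Subgroup.card_top, Nat.card_pi]
    have : ∀ i, Nat.card (G i ⧸ (powMonoidHom e : G i →* G i).range) = e := fun i => by
      rw [← Subgroup.index_eq_card, IsCyclic.index_powMonoidHom_range, Nat.gcd_eq_right (he i)]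
    simp [this]
  · rw [MonoidHom.mem_ker]
    funext i
    simpa [ψ] using hu i

/-- the Chinese remainder theorem at the primes containing `n` -/
theorem crt {R : Type} [CommRing R] [IsDedekindDomain R] {n : R} (hn : n ≠ 0) (g : Ideal R → R)
    (hg : ∀ 𝔮 : Ideal R, 𝔮.IsMaximal → g 𝔮 ∉ 𝔮) :
    ∃ a : R, IsCoprime a n ∧ ∀ 𝔮 : Ideal R, 𝔮.IsMaximal → n ∈ 𝔮 → a - g 𝔮 ∈ 𝔮 := by
  have hb : Ideal.span {n} ≠ (⊥ : Ideal R) := by simpa using hn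
  have hfin : {𝔮 : Ideal R | 𝔮.IsMaximal ∧ n ∈ 𝔮}.Finite := by
    refine (UniqueFactorizationMonoid.normalizedFactors (Ideal.span {n})).finite_toSet.subset ?_
    rintro 𝔮 ⟨h1, h2⟩
    exact (Ideal.mem_normalizedFactors_iff hb).2
      ⟨h1.isPrime, (Ideal.span_singleton_le_iff_mem _).2 h2⟩
  have := hfin.to_subtype
  obtain ⟨a, ha⟩ := Ideal.exists_forall_sub_mem_ideal
    (I := fun 𝔮 : {𝔮 : Ideal R | 𝔮.IsMaximal ∧ n ∈ 𝔮} => 𝔮.1)
    (fun i j hij => by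
      have := i.2.1
      have := j.2.1
      exact Ideal.isCoprime_of_isMaximal fun h => hij (Subtype.ext h)) (fun 𝔮 => g 𝔮.1)
  refine ⟨a, ?_, fun 𝔮 h1 h2 => ha ⟨𝔮, h1, h2⟩⟩
  rw [← Ideal.isCoprime_span_singleton_iff, Ideal.isCoprime_iff_sup_eq]
  by_contra hne
  obtain ⟨𝔮, h1, h2⟩ := Ideal.exists_le_maximal _ hne
  have h3 : a ∈ 𝔮 := h2 (Ideal.mem_sup_left (Ideal.mem_span_singleton_self a))
  have h4 : n ∈ 𝔮 := h2 (Ideal.mem_sup_right (Ideal.mem_span_singleton_self n))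
  have h5 := 𝔮.sub_mem h3 (ha ⟨𝔮, h1, h4⟩)
  rw [sub_sub_cancel] at h5
  exact hg 𝔮 h1 h5

theorem finite_quot {E : Type} [Field E] [NumberField E] (𝔓 : Ideal (𝓞 E)) (h : 𝔓.IsMaximal) :
    Finite (𝓞 E ⧸ 𝔓) :=
  Ideal.finiteQuotientOfFreeOfNeBot 𝔓
    (Ring.ne_bot_of_isMaximal_of_not_isField h (RingOfIntegers.not_isField E))

/-- norms at a totally ramified prime -/
theorem norm_cong {F K : Type} [Field F] [NumberField F] [Field K] [NumberField K] [Algebra F K]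
    [IsGalois F K] (𝔓 : Ideal (𝓞 K)) (h : 𝔓.IsMaximal)
    (hσ : ∀ σ : K ≃ₐ[F] K, act (σ : K →+* K) 𝔓 = 𝔓)
    (hN : Ideal.absNorm 𝔓 = Ideal.absNorm (𝔓.comap (algebraMap (𝓞 F) (𝓞 K)))) (a : 𝓞 K) :
    ∃ a₀ : 𝓞 F, a - algebraMap (𝓞 F) (𝓞 K) a₀ ∈ 𝔓 ∧
      RingOfIntegers.norm F a - a₀ ^ Module.finrank F K ∈ 𝔓.comap (algebraMap (𝓞 F) (𝓞 K)) := by
  have := finite_quot 𝔓 h
  have hb := (Ideal.quotientMap_injective (I := 𝔓)
    (f := algebraMap (𝓞 F) (𝓞 K))).bijective_of_nat_card_le (by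
      rw [Ideal.absNorm_apply, Ideal.absNorm_apply, Submodule.cardQuot_apply,
        Submodule.cardQuot_apply] at hN
      exact hN.le)
  obtain ⟨y, hy⟩ := hb.2 (Ideal.Quotient.mk 𝔓 a)
  obtain ⟨a₀, rfl⟩ := Ideal.Quotient.mk_surjective y
  rw [Ideal.quotientMap_mk] at hy
  have h1 : a - algebraMap (𝓞 F) (𝓞 K) a₀ ∈ 𝔓 := Ideal.Quotient.eq.1 hy.symm
  refine ⟨a₀, h1, ?_⟩
  have h2 : algebraMap (𝓞 F) (𝓞 K) (RingOfIntegers.norm F a) =
      ∏ σ : K ≃ₐ[F] K, RingOfIntegers.mapRingHom (σ : K →+* K) a := by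
    apply RingOfIntegers.coe_injective
    rw [map_prod]
    exact Algebra.norm_eq_prod_automorphisms F (a : K)
  have h3 : ∀ σ : K ≃ₐ[F] K, Ideal.Quotient.mk 𝔓 (RingOfIntegers.mapRingHom (σ : K →+* K) a) =
      Ideal.Quotient.mk 𝔓 (algebraMap (𝓞 F) (𝓞 K) a₀) := by
    intro σ
    have h4 : RingOfIntegers.mapRingHom (σ : K →+* K) (a - algebraMap (𝓞 F) (𝓞 K) a₀) ∈
        act (σ : K →+* K) 𝔓 := Ideal.mem_map_of_mem _ h1
    have h5 : RingOfIntegers.mapRingHom (σ : K →+* K) (algebraMap (𝓞 F) (𝓞 K) a₀) =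
        algebraMap (𝓞 F) (𝓞 K) a₀ := by
      apply RingOfIntegers.coe_injective
      exact σ.commutes (a₀ : F)
    rw [hσ, map_sub, h5] at h4
    exact Ideal.Quotient.eq.2 h4
  rw [Ideal.mem_comap, map_sub, ← Ideal.Quotient.eq, h2, map_prod, Finset.prod_congr rfl
    fun σ _ => h3 σ, prod_const, card_univ, ← Nat.card_eq_fintype_card,
    IsGalois.card_aut_eq_finrank, map_pow, map_pow]

end DU1

open DU1 in
theorem d_u1 (hT : S_Tame) : S_U1 := by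
  intro F K _ _ _ _ _ _ n S U he hn hS hU
  let p : S → Ideal (𝓞 F) := fun 𝔓 => 𝔓.1.comap (algebraMap (𝓞 F) (𝓞 K))
  have hT' := fun 𝔓 : S => hT F K 𝔓.1 he (hS _ 𝔓.2).1 (hS _ 𝔓.2).2.1
  have hmax : ∀ 𝔓 : S, (p 𝔓).IsMaximal := fun 𝔓 => by
    have := (hS _ 𝔓.2).1
    exact Ideal.isMaximal_comap_of_isIntegral_of_isMaximal 𝔓.1
  have hnp : ∀ 𝔓 : S, (n : 𝓞 F) ∈ p 𝔓 := fun 𝔓 => by
    simpa [p, Ideal.mem_comap] using (hS _ 𝔓.2).2.2.1
  have hinj : Function.Injective p := by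
    intro 𝔓 𝔔 h
    have h1 : 𝔓.1 ^ Module.finrank F K = 𝔔.1 ^ Module.finrank F K := by
      rw [← (hT' 𝔓).1, ← (hT' 𝔔).1]
      exact congrArg _ h
    have h2 : 𝔓.1 ≤ 𝔔.1 := by
      have := (hS _ 𝔔.2).1.isPrime
      exact Ideal.IsPrime.le_of_pow_le (h1.le.trans (Ideal.pow_le_self he.ne_zero))
    exact Subtype.ext ((hS _ 𝔓.2).1.eq_of_le (hS _ 𝔔.2).1.ne_top h2)
  let _ : ∀ 𝔓 : S, Field (𝓞 F ⧸ p 𝔓) := fun 𝔓 => Ideal.Quotient.field (p 𝔓)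
  have _ : ∀ 𝔓 : S, Finite (𝓞 F ⧸ p 𝔓) := fun 𝔓 => finite_quot _ (hmax 𝔓)
  choose ρ hρ using fun 𝔓 : S => exists_red (algebraMap (𝓞 F) F) RingOfIntegers.coe_injective
    (Ideal.Quotient.mk (p 𝔓)) (n : 𝓞 F) (Ideal.Quotient.eq_zero_iff_mem.2 (hnp 𝔓)) U
    fun γ hγ => (hU γ).1 hγ
  obtain ⟨V, hV, hVm⟩ := exists_index (fun 𝔓 : S => (𝓞 F ⧸ p 𝔓)ˣ) (Module.finrank F K)
    (fun 𝔓 => by
      have h1 := (hT' 𝔓).2.2.2 (hS _ 𝔓.2).2.2.2
      rw [(hT' 𝔓).2.2.1, Ideal.absNorm_apply, Submodule.cardQuot_apply] at h1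
      rw [Nat.card_units]
      exact h1) ρ (fun x => by
      choose t ht using fun 𝔓 : S => Ideal.Quotient.mk_surjective ((x 𝔓 : _) : 𝓞 F ⧸ p 𝔓)
      have htn : ∀ 𝔓, t 𝔓 ∉ p 𝔓 := fun 𝔓 h =>
        (x 𝔓).ne_zero ((ht 𝔓).symm.trans (Ideal.Quotient.eq_zero_iff_mem.2 h))
      obtain ⟨a, ha, hat⟩ := crt (R := 𝓞 F) (n := n) (Nat.cast_ne_zero.2 hn)
        (fun 𝔮 => if h : ∃ 𝔓, p 𝔓 = 𝔮 then t h.choose else 1) (fun 𝔮 hq => by
          split_ifs with h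
          · have h1 := htn h.choose
            rwa [h.choose_spec] at h1
          · exact (Ideal.ne_top_iff_one _).1 hq.ne_top)
      have hat' : ∀ 𝔓, a - t 𝔓 ∈ p 𝔓 := fun 𝔓 => by
        have h1 := hat _ (hmax 𝔓) (hnp 𝔓)
        have h2 : ∃ 𝔔, p 𝔔 = p 𝔓 := ⟨𝔓, rfl⟩
        rwa [dif_pos h2, hinj h2.choose_spec] at h1
      by_cases h0 : a = 0
      · refine ⟨1, fun 𝔓 => absurd ?_ (htn 𝔓)⟩
        simpa [h0] using hat' 𝔓
      · have h1 : (a : F) ≠ 0 := RingOfIntegers.coe_ne_zero_iff.2 h0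
        refine ⟨⟨Units.mk0 _ h1, (hU _).2 ⟨a, 1, ha, isCoprime_one_left, by simp⟩⟩, fun 𝔓 => ?_⟩
        ext
        have h2 := hρ 𝔓 ⟨Units.mk0 _ h1, (hU _).2 ⟨a, 1, ha, isCoprime_one_left, by simp⟩⟩ a 1
          (by simp)
        rw [map_one, mul_one] at h2
        rw [h2, ← ht]
        exact Ideal.Quotient.eq.2 (hat' 𝔓))
  refine ⟨V.map U.subtype, Subgroup.map_subtype_le V, ?_, ?_, ?_⟩
  · rw [Subgroup.relIndex, Subgroup.subgroupOf, Subgroup.comap_map_eq_self_of_injective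
      U.subtype_injective, hV, Fintype.card_coe]
  · rintro γ hγ ⟨δ, hδ⟩
    refine ⟨⟨γ, hγ⟩, hVm _ fun 𝔓 => ?_, rfl⟩
    have hm := (hS _ 𝔓.2).1
    obtain ⟨c, d, hcd⟩ := IsDedekindDomain.HeightOneSpectrum.exists_primeCompl_mul_eq_or_mul_eq
      (K := K) ⟨𝔓.1, hm.isPrime,
        Ring.ne_bot_of_isMaximal_of_not_isField hm (RingOfIntegers.not_isField K)⟩ δ
    obtain ⟨c₀, -, hc⟩ := norm_cong 𝔓.1 hm (hT' 𝔓).2.1 (hT' 𝔓).2.2.1 c
    obtain ⟨d₀, hd₀, hd⟩ := norm_cong 𝔓.1 hm (hT' 𝔓).2.1 (hT' 𝔓).2.2.1 d.1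
    have hd0 : Ideal.Quotient.mk (p 𝔓) d₀ ≠ 0 := by
      intro h
      have h1 : algebraMap (𝓞 F) (𝓞 K) d₀ ∈ 𝔓.1 :=
        (Ideal.Quotient.eq_zero_iff_mem (I := p 𝔓)).1 h
      have h2 := 𝔓.1.add_mem hd₀ h1
      rw [sub_add_cancel] at h2
      exact d.2 h2
    have hc' := (Ideal.Quotient.eq (I := p 𝔓)).2 hc
    have hd' := (Ideal.Quotient.eq (I := p 𝔓)).2 hd
    rw [map_pow] at hc' hd'
    have key : ∀ u v : 𝓞 K, δ * algebraMap (𝓞 K) K u = algebraMap (𝓞 K) K v →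
        (ρ 𝔓 ⟨γ, hγ⟩ : 𝓞 F ⧸ p 𝔓) * Ideal.Quotient.mk (p 𝔓) (RingOfIntegers.norm F u) =
          Ideal.Quotient.mk (p 𝔓) (RingOfIntegers.norm F v) := fun u v h => by
      refine hρ 𝔓 _ _ _ ?_
      have h1 := congrArg (Algebra.norm F) h
      rw [map_mul, hδ] at h1
      exact h1
    rcases hcd with h | h
    · have h1 := key _ _ h
      rw [hc', hd'] at h1
      exact mem_range_pow he.ne_zero _ h1 (Or.inl hd0)
    · have h1 := key _ _ h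
      rw [hc', hd'] at h1
      exact mem_range_pow he.ne_zero _ h1 (Or.inr hd0)
  · intro γ a b ha hb hab
    have hc : ∀ x : 𝓞 F, (n : 𝓞 F) ∣ x - 1 → IsCoprime x n := by
      rintro x ⟨c, hc⟩
      exact ⟨1, -c, by linear_combination hc⟩
    have h1 : ∀ (𝔓 : S) (x : 𝓞 F), (n : 𝓞 F) ∣ x - 1 → Ideal.Quotient.mk (p 𝔓) x = 1 := by
      rintro 𝔓 x ⟨c, hc⟩
      rw [← map_one (Ideal.Quotient.mk (p 𝔓)), Ideal.Quotient.eq, hc]
      exact Ideal.mul_mem_right _ _ (hnp 𝔓)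
    have hγ : γ ∈ U := (hU γ).2 ⟨a, b, hc a ha, hc b hb, hab⟩
    refine ⟨⟨γ, hγ⟩, hVm _ fun 𝔓 => ?_, rfl⟩
    have h2 := hρ 𝔓 ⟨γ, hγ⟩ a b hab
    rw [h1 𝔓 a ha, h1 𝔓 b hb, mul_one] at h2
    rw [Units.val_eq_one.1 h2]
    exact one_mem _

end Pool.Agent.P.MP_b8021b_nt.VC
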