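import Pool.Agent.P.MP_b8021b_nt.VC.Stmt
import Pool.Agent.P.MP_b8021b_nt.VE.Defs

/-!
Auxiliary definitions (parts S, C, A) for the theorem that `V(C)` is torsion for curves over
number fields. See h47_VC.md in the team store for the mathematics.
-/

namespace Pool.Agent.P.MP_b8021b_nt.VC

open Polynomial NumberField Finset Pool.Agent.P.MP_b8021b_nt.VE
open scoped Classical WithZero

noncomputable section

/-! ### part S: functionals on geometric points -/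

/-- the point `q` lies over the point `p` along `j` -/
def Le {F M : Type} [Field F] [Field M] (j : F →+* M) (q : GPt M) (p : GPt F) : Prop :=
  ∀ a c, p.Val a c → q.Val (j a) c

/-- `p'` is the conjugate of `p` by `σ` -/
def Gal {F : Type} [Field F] (σ : Qb ≃+* Qb) (p p' : GPt F) : Prop :=
  ∀ a c, p.Val a c → p'.Val a (σ c)

/-- the tame symbol up to sign -/
def Tm {F : Type} [Field F] (p : GPt F) (f g : F) (c : Qb) : Prop :=
  p.Val (f ^ p.ord g / g ^ p.ord f) c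

/-- a functional that kills the tame symbols -/
structure KFn {F : Type} [Field F] (l : GPt F → Qb → ℝ) : Prop where
  mul : ∀ p u v, u ≠ 0 → v ≠ 0 → l p (u * v) = l p u + l p v
  symb : ∀ f g : F, f ≠ 0 → g ≠ 0 → ∀ c : GPt F → Qb, (∀ p, Tm p f g (c p)) →
    ∑ᶠ p, l p (c p) = 0

/-- a Galois invariant functional that kills the tame symbols -/
structure GFn {F : Type} [Field F] (l : GPt F → Qb → ℝ) : Prop extends KFn l where
  gal : ∀ (σ : Qb ≃+* Qb) p p', Gal σ p p' → ∀ u, u ≠ 0 → l p' (σ u) = l p u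

/-- `u` is a unit outside `r` -/
def RU (r : ℕ) (u : Qb) : Prop :=
  u ≠ 0 ∧ ∃ n : ℕ, IsIntegral ℤ ((r : Qb) ^ n * u) ∧ IsIntegral ℤ ((r : Qb) ^ n * u⁻¹)

/-- the coefficients of `P` have the coefficients of `Pb` as values at `p` -/
def Red {F : Type} [Field F] (p : GPt F) (P : F[X]) (Pb : Qb[X]) : Prop :=
  ∀ l, p.Val (P.coeff l) (Pb.coeff l)

/-- the Newton polygon of `P` is one segment without interior lattice points -/
def EisV {K : Type} [Field K] (v : Valuation K ℤᵐ⁰) (P : K[X]) (m : ℤ) : Prop :=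
  v (P.coeff 0) = WithZero.exp (-m) ∧ IsCoprime m (P.natDegree : ℤ) ∧
    ∀ l < P.natDegree, v (P.coeff l) ^ P.natDegree ≤ WithZero.exp (-m) ^ (P.natDegree - l)

/-- the values at `O` are constants -/
def IsRat (k : Type) {F : Type} [Field k] [Field F] [Algebra k F] (O : GPt F) : Prop :=
  ∀ a c, O.Val a c → ∃ b : k, O.Val (algebraMap k F b) c

/-- two points induce the same embedding of the constants -/
def SameC (k : Type) {F : Type} [Field k] [Field F] [Algebra k F] (p p' : GPt F) : Prop :=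
  ∀ (b : k) c, p.Val (algebraMap k F b) c → p'.Val (algebraMap k F b) c

/-- `f` is regular outside the place of `O` -/
def Reg {F : Type} [Field F] (O : GPt F) (f : F) : Prop :=
  ∀ p : GPt F, p.v ≠ O.v → f ∈ p.v.valuationSubring

/-! ### part C: curves with one rational point at infinity -/

/-- the ring of functions regular outside one rational point, with the order of the pole -/
structure Cv (F A : Type) [Field F] [CommRing A] [Algebra F A] where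
  δ : A → ℕ
  ded : IsDedekindDomain A
  mul : ∀ f g, f ≠ 0 → g ≠ 0 → δ (f * g) = δ f + δ g
  add : ∀ f g, δ (f + g) ≤ max (δ f) (δ g)
  const : ∀ c, δ (algebraMap F A c) = 0
  lc : ∀ f g, f ≠ 0 → g ≠ 0 → δ f = δ g → ∃ c : F, f = c • g ∨ δ (f - c • g) < δ f
  cof : ∃ n₀, ∀ n, n₀ ≤ n → ∃ f, f ≠ 0 ∧ δ f = n

section C

variable {F A Ω : Type} [Field F] [CommRing A] [Algebra F A]

/-- the genus -/
def Cv.g (cv : Cv F A) : ℕ := Set.ncard {n | ¬ ∃ f, f ≠ 0 ∧ cv.δ f = n}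

/-- the functions with a pole of order at most `n` -/
def Cv.L (cv : Cv F A) (n : ℕ) : Submodule F A where
  carrier := {f | cv.δ f ≤ n}
  add_mem' ha hb := (cv.add _ _).trans (max_le ha hb)
  zero_mem' := by
    have := cv.const 0
    rw [map_zero] at this
    simp [this]
  smul_mem' c f hf := by
    have := cv.ded
    have h0 := cv.const 0
    rw [map_zero] at h0
    rw [Set.mem_ofPred_eq, Algebra.smul_def]
    by_cases h1 : algebraMap F A c = 0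
    · simp [h1, h0]
    by_cases h2 : f = 0
    · simp [h2, h0]
    rw [cv.mul _ _ h1 h2, cv.const, zero_add]
    exact hf

/-- the divisor `E` is alone in its class -/
def Cv.Rig (cv : Cv F A) (E : Ideal A) : Prop :=
  ∀ (J : Ideal A) (a b : A), J ≠ ⊥ → dg F J ≤ cv.g → a ≠ 0 → b ≠ 0 →
    Ideal.span {a} * J = Ideal.span {b} * E → J = E

/-- `g + 1` rational points such that any `g` of them form a rigid divisor -/
def Cv.RigF (cv : Cv F A) (Q : Fin (cv.g + 1) → (A →ₐ[F] F)) : Prop :=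
  Function.Injective Q ∧ ∀ i, cv.Rig (∏ j ∈ univ.erase i, RingHom.ker (Q j))

/-- multiplicity of an ideal at a point -/
def mI [Field Ω] [Algebra F Ω] (P : A →ₐ[F] Ω) (J : Ideal A) : ℕ :=
  multiplicity (RingHom.ker P) J

/-- number of zeros in a set of points -/
def nZ [Field Ω] [Algebra F Ω] (J : Ideal A) (V : Set (A →ₐ[F] Ω)) : ℕ := ∑ᶠ P ∈ V, mI P J

/-- a basic neighbourhood of a point -/
def Near [NormedField Ω] [Algebra F Ω] (W : Finset A) (ε : ℝ) (Q : A →ₐ[F] Ω) :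
    Set (A →ₐ[F] Ω) := {P | ∀ w ∈ W, ‖P w - Q w‖ < ε}

/-- the zero divisors of the ideals `J k` converge to `D` -/
def Conv [NormedField Ω] [Algebra F Ω] (J : ℕ → Ideal A) (D : (A →ₐ[F] Ω) → ℕ) : Prop :=
  ∀ P, ∃ (W₀ : Finset A) (ε₀ : ℝ), 0 < ε₀ ∧ ∀ (W : Finset A) (ε : ℝ), W₀ ⊆ W → 0 < ε → ε ≤ ε₀ →
    ∀ᶠ k in Filter.atTop, nZ (J k) (Near W ε P) = D P

end C

/-! ### part A: algebra -/

/-- the constant quadratic extension -/
structure Dbl (A A' : Type) [CommRing A] [CommRing A'] [Algebra ℚ A'] (r : ℕ) where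
  j : A →+* A'
  ω : A'
  sq : ω ^ 2 = -(r : A')
  surj : ∀ h : A', ∃ g c : A, h = j g + j c * ω
  inj : ∀ g c : A, j g + j c * ω = 0 → g = 0 ∧ c = 0
  ι : A' ≃ₐ[ℚ] A'
  ιj : ∀ a, ι (j a) = j a
  ιω : ι ω = -ω

/-- a free algebra over `ℤ[X]` with a weighted basis -/
structure Tab (R : Type) [CommRing R] [Algebra ℤ[X] R] where
  e : ℕ
  he : e.Prime
  h3 : 3 ≤ e
  y : Module.Basis (Fin e) ℤ[X] R
  δ : Fin e → ℕ
  δmod : ∀ i, δ i % e = i.1
  y0 : ∀ i, i.1 = 0 → y i = 1 ∧ δ i = 0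
  tab : ∀ i j l, y.repr (y i * y j) l ≠ 0 →
    e * (y.repr (y i * y j) l).natDegree + δ l ≤ δ i + δ j

namespace Tab

variable {R : Type} [CommRing R] [Algebra ℤ[X] R] (T : Tab R)

def i0 : Fin T.e := ⟨0, T.he.pos⟩

def i1 : Fin T.e := ⟨1, T.he.one_lt⟩

/-- the weight divided by `e`, rounded up -/
def κ (i : Fin T.e) : ℕ := (T.δ i + T.e - 1) / T.e

/-- the characteristic polynomial of `y 1` -/
def P : ℤ[X][X] := (Algebra.leftMulMatrix T.y (T.y T.i1)).charpoly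

/-- the leading coefficient of the norm of `y 1` -/
def N0 : ℕ := (T.P.coeff 0).leadingCoeff.natAbs

/-- the polynomial of the fibre `t` -/
def Pt (t : ℤ × ℤ) : ℤ[X] :=
  ∑ l ∈ range (T.e + 1), C (hev ((T.e - l) * T.κ T.i1) (T.P.coeff l) t.1 t.2) * X ^ l

/-- an element from its coordinates -/
def el (g : Fin T.e → ℤ[X]) : R := ∑ i, g i • T.y i

/-- the norm of `g + c √(-r)` -/
def nm (r : ℕ) (g c : Fin T.e → ℤ[X]) : ℤ[X] :=
  Algebra.norm ℤ[X] (T.el g ^ 2 + (r : R) * T.el c ^ 2)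

end Tab

/-- the coordinate function -/
def zR (R : Type) [CommRing R] [Algebra ℤ[X] R] : R := algebraMap ℤ[X] R X

/-- an integral model with totally real fibres over an interval -/
structure Mod (R : Type) [CommRing R] [Algebra ℤ[X] R] extends Tab R where
  P0 : toTab.P.coeff 0 ≠ 0 ∧ (toTab.P.coeff 0).natDegree = δ toTab.i1
  Dp : ℤ[X]
  dD : ℕ
  hD : Dp.natDegree ≤ dD
  sep : ∀ t : ℤ × ℤ, ∃ a b : ℤ[X],
    a * toTab.Pt t + b * derivative (toTab.Pt t) = C (hev dD Dp t.1 t.2)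
  sepX : ∃ a b : ℤ[X][X], a * toTab.P + b * derivative toTab.P = C Dp
  G : ℤ[X]
  monic : G.Monic
  G0 : G.coeff 0 = 0
  u : R
  c : ℤ
  c0 : c ≠ 0
  hu : zR R ∣ u * (u - c)
  hu1 : X ∣ Algebra.norm ℤ[X] u
  hu2 : X ∣ Algebra.norm ℤ[X] (u - c)
  τ0 : ℝ
  τle : τ0 ≤ -2
  real : ∀ (f : R →+* ℂ) (a : ℝ), τ0 ≤ a → a ≤ τ0 + 1 → f (zR R) = a → ∀ x, (f x).im = 0
  good : ∀ a : ℝ, τ0 ≤ a → a ≤ τ0 + 1 → aeval a Dp ≠ 0 ∧ aeval a G ≠ 0

/-- all roots of `F` have the same distance from the roots of `G` at the primes over `r` -/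
def Slope (r : ℕ) (F G : ℤ[X]) (a b : ℕ) : Prop :=
  ∀ (K : Type) [Field K] [NumberField K] (v : IsDedekindDomain.HeightOneSpectrum (𝓞 K)) (θ : K),
    (r : 𝓞 K) ∈ v.asIdeal → aeval θ F = 0 →
      v.valuation K (aeval θ G) ^ a = v.valuation K (r : K) ^ b

/-- the fixed arithmetic data -/
structure Par (R : Type) [CommRing R] [Algebra ℤ[X] R] extends Mod R where
  r : ℕ
  hr : r.Prime
  re : r < e
  b0 : ℕ
  n0 : ℕ
  dd : ℕ
  e1 : ℕ
  hb : e * padicValNat r toTab.N0 < b0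
  cop : ¬ e ∣ b0 * (e * toTab.κ toTab.i1 - δ toTab.i1) + padicValNat r toTab.N0
  hn : b0 < n0
  he1 : e1 < 2 * n0
  hdd : ∀ i, G.natDegree + toTab.κ i + 2 ≤ dd
  g0 : Fin e → ℤ[X]
  k0 : Fin e → ℤ[X]
  dg : ∀ i, (g0 i).natDegree ≤ dd - toTab.κ i
  dk : ∀ i, (k0 i).natDegree ≤ dd - toTab.κ i
  mem : ∃ (E : ℕ) (a b : ℤ[X]), a * toTab.nm r g0 k0 + b * G = C ((r : ℤ) ^ E)
  top : (r : ℤ) ^ e1 ∣ (g0 toTab.i0).coeff dd ^ 2 + r * (k0 toTab.i0).coeff dd ^ 2 ∧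
    ¬ (r : ℤ) ^ (e1 + 1) ∣ (g0 toTab.i0).coeff dd ^ 2 + r * (k0 toTab.i0).coeff dd ^ 2
  slope : ∃ a b : ℕ, 0 < a ∧ ∀ g k : Fin e → ℤ[X], (∀ i, (g i).natDegree ≤ dd - toTab.κ i) →
    (∀ i, (k i).natDegree ≤ dd - toTab.κ i) → (∀ i, C ((r : ℤ) ^ n0) ∣ g i - g0 i) →
    (∀ i, C ((r : ℤ) ^ n0) ∣ k i - k0 i) → Slope r (toTab.nm r g k) G a b

namespace Par

variable {R : Type} [CommRing R] [Algebra ℤ[X] R] (p : Par R)

/-- the degree of `G` -/
def ρ : ℕ := p.G.natDegree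

/-- the valuation of the norms at `r` -/
def e0 : ℕ := p.e * p.e1

/-- the power of `e` that divides the numerators of the fibres -/
def ke : ℕ := p.e * padicValInt p.e p.c + 1

/-- degree of the free part of a coordinate -/
def d (i : Fin p.e) : ℕ := p.dd - p.ρ - p.κ i

/-- indices of the free coefficients of a section -/
abbrev Ix := Σ i : Fin p.e × Bool, Fin (p.d i.1 + 1)

/-- free coefficients of a section -/
abbrev Co := p.Ix → ℤ

def hp (s : p.Co) (i : Fin p.e × Bool) : ℤ[X] := ∑ j : Fin (p.d i.1 + 1), C (s ⟨i, j⟩) * X ^ j.1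

def gp (s : p.Co) (i : Fin p.e) : ℤ[X] := p.g0 i + C ((p.r : ℤ) ^ p.n0) * p.G * p.hp s (i, false)

def cp (s : p.Co) (i : Fin p.e) : ℤ[X] := p.k0 i + C ((p.r : ℤ) ^ p.n0) * p.G * p.hp s (i, true)

def F (s : p.Co) : ℤ[X] := p.nm p.r (p.gp s) (p.cp s)

def FR (s : p.Co) : ℝ[X] := (p.F s).map (Int.castRingHom ℝ)

def gt (s : p.Co) (t : ℤ × ℤ) (i : Fin p.e) : ℤ := hev (p.dd - p.κ i) (p.gp s i) t.1 t.2

def ct (s : p.Co) (t : ℤ × ℤ) (i : Fin p.e) : ℤ := hev (p.dd - p.κ i) (p.cp s i) t.1 t.2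

/-- the norm of the section `s` on the fibre `t` -/
def N (s : p.Co) (t : ℤ × ℤ) : ℤ := hev (2 * p.e * p.dd) (p.F s) t.1 t.2

def Gt (t : ℤ × ℤ) : ℤ := hev p.ρ p.G t.1 t.2

def Dt (t : ℤ × ℤ) : ℤ := hev p.dD p.Dp t.1 t.2

/-- the integer attached to the field of the fibre `t` -/
def Mt (t : ℤ × ℤ) : ℕ := (2 * p.r * p.Dt t).natAbs

/-- a point of the curve modulo a prime: `(q, τ, w, v)` -/
abbrev Pn := ℕ × ℕ × ℕ × (Fin p.e → ℕ)

def IsPt (x : p.Pn) : Prop :=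
  x.1.Prime ∧ ¬ x.1 ∣ 2 * p.r ∧ x.2.1 < x.1 ∧ 0 < x.2.2.1 ∧ x.2.2.1 < x.1 ∧
    (∀ i, x.2.2.2 i < x.1) ∧ x.1 ∣ x.2.2.1 ^ 2 + p.r ∧
    ¬ (x.1 : ℤ) ∣ p.G.eval (x.2.1 : ℤ) * p.Dp.eval (x.2.1 : ℤ) ∧
    ∃ f : R →+* ZMod x.1, f (zR R) = x.2.1 ∧ ∀ i, f (p.y i) = x.2.2.2 i

def inv (x : p.Pn) : p.Pn := (x.1, x.2.1, x.1 - x.2.2.1, x.2.2.2)

/-- `x` lies on the fibre `t` -/
def OnT (x : p.Pn) (t : ℤ × ℤ) : Prop := (x.1 : ℤ) ∣ t.1 - x.2.1 * t.2 ∧ ¬ (x.1 : ℤ) ∣ t.2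

/-- `x` lies on the section `s` -/
def OnS (x : p.Pn) (s : p.Co) : Prop :=
  (x.1 : ℤ) ∣ ∑ i, ((p.gp s i).eval (x.2.1 : ℤ) + (p.cp s i).eval (x.2.1 : ℤ) * x.2.2.1) *
    x.2.2.2 i

/-- fibres that are allowed at the primes `r`, `e` and at infinity -/
def Adm (t : ℤ × ℤ) : Prop :=
  0 < t.2 ∧ p.τ0 ≤ (t.1 : ℝ) / t.2 ∧ (t.1 : ℝ) / t.2 ≤ p.τ0 + 1 ∧ (p.r : ℤ) ^ p.n0 ∣ t.1 - 1 ∧
    (p.r : ℤ) ^ p.n0 ∣ t.2 - p.r ^ p.b0 ∧ (p.e : ℤ) ^ p.ke ∣ t.1 ∧ (p.e : ℤ) ^ p.ke ∣ t.2 - 1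

/-- the intersection of `t` and `s` is the sum of the points `x i`, away from `r` -/
def Good {u : ℕ} (t : ℤ × ℤ) (s : p.Co) (x : Fin u → p.Pn) : Prop :=
  (∀ i, p.IsPt (x i) ∧ p.OnT (x i) t ∧ p.OnS (x i) s) ∧ (Function.Injective fun i => (x i).1) ∧
    p.N s t = (p.r : ℤ) ^ p.e0 * ∏ i, ((x i).1 : ℤ)

end Par

/-- `A` is obtained from `R` by inverting the nonzero integers -/
structure Gen {R A : Type} [CommRing R] [CommRing A] (j : R →+* A) : Prop where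
  inj : Function.Injective j
  surj : ∀ a : A, ∃ (m : ℕ) (g : R), 0 < m ∧ (m : A) * a = j g

section

variable {R A A' : Type} [CommRing R] [Algebra ℤ[X] R] [CommRing A] [CommRing A'] [Algebra ℚ A']

/-- the function with coordinates `g`, `c` -/
def Dbl.fn {r : ℕ} (D : Dbl A A' r) (j : R →+* A) (T : Tab R) (g c : Fin T.e → ℤ[X]) : A' :=
  D.j (j (T.el g)) + D.j (j (T.el c)) * D.ω

/-- a polynomial in the coordinate function -/
def Dbl.pz {r : ℕ} (D : Dbl A A' r) (j : R →+* A) (g : ℤ[X]) : A' :=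
  D.j (j (algebraMap ℤ[X] R g))

/-- the section as a function -/
def Par.sec (p : Par R) (D : Dbl A A' p.r) (j : R →+* A) (s : p.Co) : A' :=
  D.fn j p.toTab (p.gp s) (p.cp s)

/-- the equation of the fibre -/
def Par.fib (p : Par R) (D : Dbl A A' p.r) (j : R →+* A) (t : ℤ × ℤ) : A' :=
  D.pz j (C t.2 * X - C t.1)

/-- the value to be killed -/
def Par.beta (p : Par R) (D : Dbl A A' p.r) (j : R →+* A) (φ : MaximalSpectrum A' → A' → ℝ) : ℝ :=
  pair φ (D.pz j p.G) (D.fn j p.toTab p.g0 p.k0)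

end

/-- the imaginary quadratic base field with its complex embedding -/
structure BF (k : Type) [Field k] [NumberField k] [Algebra k ℂ] extends IQ k where
  hσ : ∀ a, σ a = algebraMap k ℂ a

/-- the field of the fibre `t` -/
structure Fb {R : Type} [CommRing R] [Algebra ℤ[X] R] (p : Par R) (t : ℤ × ℤ) (k L : Type)
    [Field k] [Field L] [Algebra k L] where
  q : R →+* L
  hq : (t.2 : L) * q (zR R) = t.1
  fin : Module.finrank k L = p.e
  η : Fin p.e → 𝓞 L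
  hη : ∀ i, (η i : L) = (t.2 : L) ^ p.κ i * q (p.y i)
  gen : Submodule.span k (Set.range fun i => q (p.y i)) = ⊤

section

variable {R : Type} [CommRing R] [Algebra ℤ[X] R] {p : Par R} {t : ℤ × ℤ} {k L : Type}
  [Field k] [NumberField k] [Algebra k ℂ] [Field L] [Algebra k L]

/-- the square root of `-r` in an extension -/
def BF.om (K : BF k) (L : Type) [Field L] [Algebra k L] : 𝓞 L := algebraMap (𝓞 k) (𝓞 L) K.ω

/-- the value of the section `s` on the fibre `t` -/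
def Fb.al (Φ : Fb p t k L) (K : BF k) (s : p.Co) : 𝓞 L :=
  ∑ i, ((p.gt s t i : 𝓞 L) + (p.ct s t i : 𝓞 L) * K.om L) * Φ.η i

/-- the ideal attached to a point on the fibre `t` -/
def Fb.J (Φ : Fb p t k L) (K : BF k) (x : p.Pn) : Ideal (𝓞 L) :=
  Ideal.span {(x.1 : 𝓞 L), K.om L - (x.2.2.1 : 𝓞 L)} ⊔
    Ideal.span (Set.range fun i => Φ.η i - ((t.2 ^ p.κ i * x.2.2.2 i : ℤ) : 𝓞 L))

end

end

end Pool.Agent.P.MP_b8021b_nt.VC
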