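import Pool.Agent.P.MP_b8021b_nt.VC.DefA

/-!
Auxiliary definitions (part N, number fields over an imaginary quadratic base field) for the
theorem that `V(C)` is torsion for curves over number fields. See h47_VC.md in the team store.
-/

namespace Pool.Agent.P.MP_b8021b_nt.VC

open Polynomial NumberField Finset MeasureTheory Pool.Agent.P.MP_b8021b_nt.VE
open scoped Classical ComplexConjugate

noncomputable section

/-! ### functions on `ι → ℂ` -/

section Vec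

variable {ι : Type} [Fintype ι]

/-- the quasi character of type `(κ, τ)` -/
def ty (κ : ι → ℤ) (τ : ι → ℝ) (z : ι → ℂ) : ℂ :=
  ∏ φ, dir (z φ) ^ κ φ * Complex.exp (Complex.I * ((τ φ * Real.log ‖z φ‖ : ℝ) : ℂ))

/-- the norm form -/
def nz (z : ι → ℂ) : ℝ := ∏ φ, ‖z φ‖ ^ 2

/-- the logarithmic vector -/
def lg (z : ι → ℂ) : ι → ℝ := fun φ => Real.log ‖z φ‖

end Vec

/-- a bounded Lipschitz function with support in `[1 / 3, 3]` -/
structure Bump (g : ℝ → ℝ) (Λ : ℝ) : Prop where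
  one_le : 1 ≤ Λ
  abs_le : ∀ x, |g x| ≤ 1
  lip : ∀ x x', |g x - g x'| ≤ Λ * |x - x'|
  supp : ∀ x, g x ≠ 0 → 1 / 3 ≤ x ∧ x ≤ 3

/-! ### fields over the base field -/

/-- the complex embeddings over the base field -/
abbrev Emb (k E : Type) [Field k] [Algebra k ℂ] [Field E] [Algebra k E] : Type := E →ₐ[k] ℂ

section Fld

variable (k : Type) [Field k] [NumberField k] [Algebra k ℂ] {E : Type} [Field E] [NumberField E]
  [Algebra k E]

/-- the embedding of the ring of integers -/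
def emb (a : 𝓞 E) : Emb k E → ℂ := fun φ => φ a

/-- a ray class character of modulus `n` and type `(κ, τ)` -/
structure IsH (n : ℕ) (κ : Emb k E → ℤ) (τ : Emb k E → ℝ) (χ : Ideal (𝓞 E) →* ℂ) : Prop
    extends IsChar n χ where
  sum : ∑ φ, τ φ = 0
  prin : ∀ α : 𝓞 E, (n : 𝓞 E) ∣ α - 1 → χ (Ideal.span {α}) = ty κ τ (emb k α)

/-- the characters of modulus `n` and bounded type -/
def Chs (n : ℕ) (Kb Tb : ℝ) : Set (Ideal (𝓞 E) →* ℂ) :=
  {χ | ∃ κ τ, (∀ φ, |(κ φ : ℝ)| < Kb) ∧ (∀ φ, |τ φ| ≤ Tb) ∧ IsH k n κ τ χ}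

/-- the lattice attached to an ideal -/
def lat (𝔟 : Ideal (𝓞 E)) : Submodule ℤ (Emb k E → ℂ) :=
  Submodule.span ℤ (emb k '' (𝔟 : Set (𝓞 E)))

/-- the sum over the ideals of relative norm `𝔪` -/
def lamk (χ : Ideal (𝓞 E) → ℂ) (𝔪 : Ideal (𝓞 k)) : ℂ :=
  ∑ᶠ I ∈ {I : Ideal (𝓞 E) | Ideal.relNorm (𝓞 k) I = 𝔪}, χ I

variable (E)

/-- the field has an integral basis over `k` of size at most `Q` -/
def Small (Q : ℝ) : Prop :=
  ∃ b : Fin (Module.finrank k E) → 𝓞 E, LinearIndependent k (fun i => (b i : E)) ∧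
    ∀ i φ, ‖emb k (b i) φ‖ ≤ Q

/-- the covolume of the ring of integers -/
def cov2 : ℝ := ZLattice.covolume (lat k (⊤ : Ideal (𝓞 E)))

/-- the ray class number -/
def hn (n : ℕ) : ℕ := Set.ncard {χ : Ideal (𝓞 E) →* ℂ | IsH k n 0 0 χ}

/-- independent units congruent to one modulo `n`, with coordinates on the logarithmic space -/
structure UB (n : ℕ) (ℓ : ℝ) where
  m : ℕ
  hm : m + 1 = Module.finrank k E
  ε : Fin m → (𝓞 E)ˣ
  cong : ∀ j, (n : 𝓞 E) ∣ (ε j : 𝓞 E) - 1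
  co : (Emb k E → ℝ) →ₗ[ℝ] (Fin m → ℝ)
  co_one : co (fun _ => 1) = 0
  co_ε : ∀ j, co (lg (emb k (ε j : 𝓞 E))) = Pi.single j 1
  span : ∀ x : Emb k E → ℝ, ∑ φ, x φ = 0 → ∑ j, co x j • lg (emb k (ε j : 𝓞 E)) = x
  small : ∀ x, ‖co x‖ ≤ ‖x‖ / 100
  one_le : 1 ≤ ℓ
  size : ∀ j, ‖lg (emb k (ε j : 𝓞 E))‖ ≤ ℓ

end Fld

/-- the trivial character of modulus `n` -/
def triv (E : Type) [Field E] (n : ℕ) : Ideal (𝓞 E) →* ℂ where
  toFun I := if Cop n I then 1 else 0
  map_one' := if_pos isCoprime_one_left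
  map_mul' I J := by
    unfold Cop
    rw [IsCoprime.mul_left_iff]
    by_cases h : IsCoprime I (Ideal.span {(n : 𝓞 E)}) <;>
      by_cases h' : IsCoprime J (Ideal.span {(n : 𝓞 E)}) <;> simp [h, h']

/-- the composition of a character with the relative norm -/
def nrm {E : Type} [Field E] [NumberField E] (E' : Type) [Field E'] [NumberField E'] [Algebra E E']
    (χ : Ideal (𝓞 E) →* ℂ) : Ideal (𝓞 E') →* ℂ := χ.comp (Ideal.relNorm (𝓞 E)).toMonoidHom

/-- the composition of a character with the extension of ideals -/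
def res (E : Type) [Field E] {E' : Type} [Field E'] [Algebra E E']
    (χ : Ideal (𝓞 E') →* ℂ) : Ideal (𝓞 E) →* ℂ :=
  χ.comp (Ideal.mapHom (algebraMap (𝓞 E) (𝓞 E'))).toMonoidHom

/-- the conjugate character -/
def cj {E : Type} [Field E] (χ : Ideal (𝓞 E) →* ℂ) : Ideal (𝓞 E) →* ℂ :=
  (starRingEnd ℂ).toMonoidHom.comp χ

/-- the density of the ideals coprime to `n` -/
def Rs (E : Type) [Field E] [NumberField E] (n : ℕ) : ℝ :=
  Filter.limUnder Filter.atTop fun X : ℕ =>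
    (Set.ncard {I : Ideal (𝓞 E) | Cop n I ∧ Ideal.absNorm I ≤ X} : ℝ) / X

namespace UB

variable {k : Type} [Field k] [NumberField k] [Algebra k ℂ] {E : Type} [Field E] [NumberField E]
  [Algebra k E] {n : ℕ} {ℓ : ℝ} (U : UB k E n ℓ)

/-- the vector with given coordinates -/
def lv (x : Fin U.m → ℝ) : Emb k E → ℝ := ∑ j, x j • lg (emb k (U.ε j : 𝓞 E))

/-- the partition of unity -/
def β (z : Emb k E → ℂ) : ℝ := ∏ j, tent (U.co (lg z) j)

/-- the volume of a fundamental domain for the units -/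
def vol : ℝ := ∫ z : Emb k E → ℂ, U.β z * tent (nz z - 2)

/-- the index of the units of `U` in the units congruent to one -/
def j0 : ℝ := ∑ᶠ η ∈ {η : (𝓞 E)ˣ | (n : 𝓞 E) ∣ (η : 𝓞 E) - 1}, U.β (emb k (η : 𝓞 E))

/-- the normalising factor of the orthogonality relation -/
def ρ : ℝ := U.j0 / hn k E n

/-- the type is trivial on the units -/
def Tr (κ : Emb k E → ℤ) (τ : Emb k E → ℝ) : Prop := ∀ j, ty κ τ (emb k (U.ε j : 𝓞 E)) = 1

/-- the units are totally positive -/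
def Pos : Prop := ∀ j φ, dir (emb k (U.ε j : 𝓞 E) φ) = 1

end UB

/-- the field has a complex conjugation -/
def IsCM (E : Type) [Field E] : Prop :=
  ∃ c : 𝓞 E ≃+* 𝓞 E, ∀ (φ : E →+* ℂ) (a : 𝓞 E), φ (c a) = conj (φ a)

/-- a ray class character of the base field -/
abbrev IsK {k : Type} [Field k] [NumberField k] [Algebra k ℂ] (n : ℕ) (j : ℤ)
    (ξ : Ideal (𝓞 k) →* ℂ) : Prop := IsH k n (fun _ => j) 0 ξ

/-- the Dirichlet series over primes -/
def dsum (a : ℕ → ℂ) (s : ℝ) : ℝ := ∑' q : Nat.Primes, (a q).re * (q : ℝ) ^ (-s)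

/-! ### polynomials -/

/-- `M` lies in the ideal generated by `P` and its derivative -/
def Sep (P : ℤ[X]) (M : ℕ) : Prop := ∃ a b : ℤ[X], a * P + b * derivative P = C (M : ℤ)

/-- the number of roots modulo `q` -/
def rts (P : ℤ[X]) (q : ℕ) : ℕ := ((range q).filter fun x : ℕ => (q : ℤ) ∣ P.eval (x : ℤ)).card

/-- the Newton polygon at `l` is one segment without interior lattice points -/
def EisZ (l : ℕ) (P : ℤ[X]) : Prop :=
  ∃ m : ℕ, m.Coprime P.natDegree ∧ (l : ℤ) ^ m ∣ P.coeff 0 ∧ ¬ (l : ℤ) ^ (m + 1) ∣ P.coeff 0 ∧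
    ∀ j < P.natDegree, (l : ℤ) ^ (m * (P.natDegree - j)) ∣ P.coeff j ^ P.natDegree

/-- some prime not dividing `M` is totally ramified for `P` -/
def Wit (P : ℤ[X]) (M : ℕ) : Prop := ∃ l : ℕ, l.Prime ∧ ¬ l ∣ M ∧ EisZ l P

section Rel

variable {k : Type} [Field k] [NumberField k] [Algebra k ℂ] {L L' : Type} [Field L] [NumberField L]
  [Algebra k L] [Field L'] [NumberField L'] [Algebra k L']

/-- a non Galois extension of prime degree `e` in which no prime over `e` is totally ramified -/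
structure NF (K : BF k) (e : ℕ) (P : ℤ[X]) (M : ℕ) (θ : 𝓞 L) : Prop where
  he : e.Prime
  h3 : 3 ≤ e
  monic : P.Monic
  deg : P.natDegree = e
  root : aeval θ P = 0
  fin : Module.finrank k L = e
  irr : Irreducible (P.map (Int.castRingHom k))
  M0 : M ≠ 0
  sep : Sep P M
  dvd : 2 * K.D ∣ M
  nsplit : ¬ (P.map (Int.castRingHom L)).Splits
  wild : ∃ (u : 𝓞 L) (c : ℤ) (j : ℕ) (a a' : 𝓞 k), ¬ (e : ℤ) ^ (j + 1) ∣ c ∧
    Algebra.norm k (u : L) = (e : k) ^ (e * j + 1) * a ∧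
    Algebra.norm k ((u : L) - c) = (e : k) ^ (e * j + 1) * a'

/-- `χ` is the composition of `ξ` with the norm on the ideals coprime to `n` -/
def Ind (ξ : Ideal (𝓞 k) →* ℂ) (χ : Ideal (𝓞 L) →* ℂ) (n : ℕ) : Prop :=
  ∀ I, Cop n I → χ I = ξ (Ideal.relNorm (𝓞 k) I)

variable (k) in
/-- the relation forced on two characters by a pole of their Rankin-Selberg series -/
def Adj (χ : Ideal (𝓞 L) →* ℂ) (χ' : Ideal (𝓞 L') →* ℂ) (m : ℕ) : Prop :=
  ∀ P' : Ideal (𝓞 L'), (Ideal.absNorm P').Prime → ¬ Ideal.absNorm P' ∣ m →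
    (∀ A : Ideal (𝓞 L), Ideal.relNorm (𝓞 k) A = Ideal.relNorm (𝓞 k) P' → χ A = χ' P') ∧
      χ ((Ideal.relNorm (𝓞 k) P').map (algebraMap (𝓞 k) (𝓞 L))) = χ' P' ^ Module.finrank k L

end Rel

end

end Pool.Agent.P.MP_b8021b_nt.VC
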