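import Pool.Agent.P.MP_b8021b_nt.VE.Defs

/-! Geometry of numbers in a totally complex field with a small basis: the lattices. -/

namespace Pool.Agent.P.MP_b8021b_nt.VC.Geo

open MeasureTheory NumberField Finset
open scoped Classical

/-- one complex embedding for each place, and a small independent family of integers -/
structure Dat (K : Type) [Field K] [NumberField K] (ι : Type) [Fintype ι] (Q : ℝ) where
  τ : ι → (𝓞 K →+* ℂ)
  ne : Nonempty ι
  deg : Module.finrank ℚ K = 2 * Fintype.card ι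
  nrm : ∀ β : 𝓞 K, (Ideal.absNorm (Ideal.span {β}) : ℝ) = ∏ i, ‖τ i β‖ ^ 2
  b : Fin (2 * Fintype.card ι) → 𝓞 K
  li : LinearIndependent ℝ fun j i => τ i (b j)
  le : ∀ i j, ‖τ i (b j)‖ ≤ Q

lemma cov_rel {E : Type} [NormedAddCommGroup E] [NormedSpace ℝ E] [FiniteDimensional ℝ E]
    [MeasurableSpace E] [BorelSpace E] (μ : Measure E) [μ.IsAddHaarMeasure]
    (L₁ L₂ : Submodule ℤ E) [DiscreteTopology L₁] [IsZLattice ℝ L₁] [DiscreteTopology L₂]
    [IsZLattice ℝ L₂] (h : L₁ ≤ L₂) :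
    ZLattice.covolume L₁ μ =
      L₁.toAddSubgroup.relIndex L₂.toAddSubgroup * ZLattice.covolume L₂ μ := by
  let b₁ := Module.finBasisOfFinrankEq ℤ L₁ (ZLattice.rank ℝ L₁)
  let b₂ := Module.finBasisOfFinrankEq ℤ L₂ (ZLattice.rank ℝ L₂)
  rw [AddSubgroup.relIndex_eq_natAbs_det L₁.toAddSubgroup L₂.toAddSubgroup h b₁ b₂,
    Nat.cast_natAbs, Int.cast_abs,
    ZLattice.covolume_eq_det_mul_measureReal L₁ μ b₁ (b₂.ofZLatticeBasis ℝ),
    ZLattice.covolume_eq_measure_fundamentalDomain L₂ μ (ZLattice.isAddFundamentalDomain b₂ μ)]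
  congr 2
  rw [Module.Basis.det_apply, Module.Basis.det_apply, Int.cast_det]
  congr 1
  ext i j
  rw [Matrix.map_apply, Module.Basis.toMatrix_apply, Module.Basis.toMatrix_apply]
  exact (b₂.ofZLatticeBasis_repr_apply ℝ L₂ ⟨b₁ j, h (Submodule.coe_mem _)⟩ i)

variable {ι : Type} [Fintype ι]

/-- a polydisc -/
def box (c : ι → ℂ) (s : ι → ℝ) : Set (ι → ℂ) :=
  Set.pi Set.univ fun i => Metric.closedBall (c i) (s i)

omit [Fintype ι] in
lemma mem_box {c z : ι → ℂ} {s : ι → ℝ} : z ∈ box c s ↔ ∀ i, ‖z i - c i‖ ≤ s i := by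
  simp [box, dist_eq_norm]

lemma vol_box (c : ι → ℂ) {s : ι → ℝ} (hs : ∀ i, 0 ≤ s i) :
    volume (box c s) = ENNReal.ofReal (Real.pi ^ Fintype.card ι * ∏ i, s i ^ 2) := by
  rw [box, volume_pi_pi, ← card_univ, ← prod_const, ← prod_mul_distrib,
    ENNReal.ofReal_prod_of_nonneg fun i _ => by positivity]
  refine prod_congr rfl fun i _ => ?_
  rw [Complex.volume_closedBall, ENNReal.ofReal_mul Real.pi_pos.le, ENNReal.ofReal_pow (hs i),
    ← NNReal.coe_real_pi, ENNReal.ofReal_coe_nnreal, mul_comm]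

lemma volr_box (c : ι → ℂ) {s : ι → ℝ} (hs : ∀ i, 0 ≤ s i) :
    volume.real (box c s) = Real.pi ^ Fintype.card ι * ∏ i, s i ^ 2 := by
  rw [Measure.real, vol_box c hs, ENNReal.toReal_ofReal]
  have := Real.pi_pos
  exact mul_nonneg (by positivity) (prod_nonneg fun i _ => by positivity)

omit [Fintype ι] in
lemma box_compact (c : ι → ℂ) (s : ι → ℝ) : IsCompact (box c s) :=
  isCompact_univ_pi fun _ => isCompact_closedBall _ _

omit [Fintype ι] in
lemma box_convex (c : ι → ℂ) (s : ι → ℝ) : Convex ℝ (box c s) :=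
  convex_pi fun _ _ => convex_closedBall _ _

/-- coordinatewise multiplication -/
noncomputable def mm (a : ι → ℂ) : (ι → ℂ) →ₗ[ℝ] (ι → ℂ) :=
  LinearMap.pi fun i => (LinearMap.mul ℝ ℂ (a i)).comp (LinearMap.proj i)

omit [Fintype ι] in
lemma mm_apply (a z : ι → ℂ) : mm a z = a * z := rfl

lemma det_mm (a : ι → ℂ) : LinearMap.det (mm a) = ∏ i, ‖a i‖ ^ 2 := by
  have h : ∀ a : ℂ, LinearMap.det (LinearMap.mul ℝ ℂ a) = ‖a‖ ^ 2 := by
    intro a
    rw [← Complex.normSq_eq_norm_sq, ← Algebra.norm_complex_apply, Algebra.norm_apply]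
    rfl
  unfold mm
  rw [LinearMap.det_pi]
  simp only [h]

lemma finrank_pi : Module.finrank ℝ (ι → ℂ) = 2 * Fintype.card ι := by
  rw [Module.finrank_pi_fintype]
  simp [mul_comm]

lemma integral_mm {f : (ι → ℂ) → ℂ} (hf : AEStronglyMeasurable f volume) {a : ι → ℂ}
    (ha : ∀ i, a i ≠ 0) : ∫ w, f (a * w) = ((∏ i, ‖a i‖ ^ 2)⁻¹ : ℝ) * ∫ w, f w := by
  have hp : 0 < ∏ i, ‖a i‖ ^ 2 := prod_pos fun i _ => pow_pos (norm_pos_iff.2 (ha i)) 2
  have hd : LinearMap.det (mm a) ≠ 0 := by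
    rw [det_mm]
    exact hp.ne'
  have hm := Measure.map_linearMap_addHaar_eq_smul_addHaar (volume : Measure (ι → ℂ)) hd
  have := integral_map (μ := volume) (φ := mm a) (f := f)
    (mm a).continuous_of_finiteDimensional.aemeasurable (by
      rw [hm]
      exact hf.smul_measure _)
  rw [hm, integral_smul_measure, det_mm, ENNReal.toReal_ofReal (abs_nonneg _),
    abs_of_nonneg (by positivity), Complex.real_smul] at this
  exact this.symm

variable {K : Type} [Field K] [NumberField K] {Q : ℝ} (F : Dat K ι Q)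

/-- the embedding -/
noncomputable def Dat.ph : 𝓞 K →ₗ[ℤ] (ι → ℂ) := (RingHom.pi F.τ).toAddMonoidHom.toIntLinearMap

lemma ph_apply (β : 𝓞 K) (i : ι) : F.ph β i = F.τ i β := rfl

lemma ph_mul (β γ : 𝓞 K) : F.ph (β * γ) = F.ph β * F.ph γ := funext fun i => map_mul (F.τ i) β γ

lemma one_le_norm {I : Ideal (𝓞 K)} (h : I ≠ ⊥) : 1 ≤ Ideal.absNorm I :=
  Nat.one_le_iff_ne_zero.2 fun h0 => h (Ideal.absNorm_eq_zero_iff.1 h0)

lemma one_le_normR {I : Ideal (𝓞 K)} (h : I ≠ ⊥) : (1 : ℝ) ≤ Ideal.absNorm I := by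
  exact_mod_cast one_le_norm h

lemma one_le_prod {β : 𝓞 K} (h : β ≠ 0) : 1 ≤ ∏ i, ‖F.τ i β‖ ^ 2 := by
  rw [← F.nrm]
  exact one_le_normR (by simpa using h)

lemma tau_ne {β : 𝓞 K} (h : β ≠ 0) (i : ι) : F.τ i β ≠ 0 := by
  intro h0
  have := one_le_prod F h
  rw [prod_eq_zero (mem_univ i) (by simp [h0])] at this
  norm_num at this

lemma ph_inj : Function.Injective F.ph := by
  rw [injective_iff_map_eq_zero]
  intro β h
  by_contra hc
  obtain ⟨i⟩ := F.ne
  exact tau_ne F hc i (congrFun h i)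

lemma one_le_ph {β : 𝓞 K} (h : β ≠ 0) : 1 ≤ ‖F.ph β‖ := by
  by_contra hc
  have hc := not_le.mp hc
  have h1 := one_le_prod F h
  have := F.ne
  have h2 : ∏ i, ‖F.τ i β‖ ^ 2 < ∏ _i : ι, (1 : ℝ) := by
    refine prod_lt_prod_of_nonempty (fun i _ => pow_pos (norm_pos_iff.2 (tau_ne F h i)) 2)
      (fun i _ => ?_) univ_nonempty
    have h3 : ‖F.τ i β‖ ≤ ‖F.ph β‖ := norm_le_pi_norm (F.ph β) i
    nlinarith [norm_nonneg (F.τ i β)]
  rw [prod_const_one] at h2
  linarith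

include F in
lemma card_pos : 0 < Fintype.card ι := by
  have := F.ne
  exact Fintype.card_pos

include F in
lemma one_le_Q : 1 ≤ Q := by
  let j : Fin (2 * Fintype.card ι) := ⟨0, by have := card_pos F; omega⟩
  have h0 : F.b j ≠ 0 := fun h => F.li.ne_zero j (by
    funext i
    simp [h])
  have h1 := one_le_ph F h0
  obtain ⟨i⟩ := F.ne
  exact h1.trans ((pi_norm_le_iff_of_nonneg ((norm_nonneg _).trans (F.le i j))).2 fun i => F.le i j)

/-- the lattice of an ideal -/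
noncomputable def Dat.lat (𝔟 : Ideal (𝓞 K)) : Submodule ℤ (ι → ℂ) :=
  (𝔟.restrictScalars ℤ).map F.ph

lemma mem_lat {𝔟 : Ideal (𝓞 K)} {x : ι → ℂ} : x ∈ F.lat 𝔟 ↔ ∃ β ∈ 𝔟, F.ph β = x := Iff.rfl

instance lat_disc (𝔟 : Ideal (𝓞 K)) : DiscreteTopology (F.lat 𝔟) := by
  rw [discreteTopology_iff_isOpen_singleton_zero]
  have : ({0} : Set (F.lat 𝔟)) = (↑) ⁻¹' Metric.ball (0 : ι → ℂ) 1 := by
    ext x
    simp only [Set.mem_singleton_iff, Set.mem_preimage, mem_ball_zero_iff]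
    constructor
    · rintro rfl; simp
    · intro hx
      obtain ⟨β, -, hβ⟩ := (mem_lat F).mp x.2
      by_cases h : β = 0
      · apply Subtype.ext
        rw [← hβ, h, map_zero]; rfl
      · have := one_le_ph F h
        rw [hβ] at this
        linarith
  rw [this]
  exact Metric.isOpen_ball.preimage continuous_subtype_val

lemma li_mul {γ : 𝓞 K} (h : γ ≠ 0) : LinearIndependent ℝ fun j => F.ph (γ * F.b j) := by
  have hk : LinearMap.ker (mm (F.ph γ)) = ⊥ := by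
    rw [LinearMap.ker_eq_bot']
    intro w hw
    funext i
    exact (mul_eq_zero.1 (congrFun hw i)).resolve_left (tau_ne F h i)
  have := F.li.map' _ hk
  have e : (fun j => F.ph (γ * F.b j)) = mm (F.ph γ) ∘ fun j i => F.τ i (F.b j) := by
    funext j
    exact ph_mul F _ _
  rw [e]
  exact this

/-- a real basis inside the lattice -/
noncomputable def Dat.bas {γ : 𝓞 K} (h : γ ≠ 0) :
    Module.Basis (Fin (2 * Fintype.card ι)) ℝ (ι → ℂ) :=
  basisOfLinearIndependentOfCardEqFinrank' _ (li_mul F h) (by rw [finrank_pi, Fintype.card_fin])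

lemma bas_apply {γ : 𝓞 K} (h : γ ≠ 0) (j : Fin (2 * Fintype.card ι)) :
    F.bas h j = F.ph (γ * F.b j) := by
  simp [Dat.bas]

lemma absNorm_ne {𝔟 : Ideal (𝓞 K)} (h : 𝔟 ≠ ⊥) : ((Ideal.absNorm 𝔟 : ℕ) : 𝓞 K) ≠ 0 := by
  rw [Nat.cast_ne_zero, Ne, Ideal.absNorm_eq_zero_iff]
  exact h

lemma lat_isZ {𝔟 : Ideal (𝓞 K)} (h : 𝔟 ≠ ⊥) : IsZLattice ℝ (F.lat 𝔟) := by
  refine ⟨top_unique ?_⟩
  rw [← (F.bas (absNorm_ne h)).span_eq]
  apply Submodule.span_mono
  rintro _ ⟨j, rfl⟩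
  rw [bas_apply]
  exact (mem_lat F).mpr ⟨_, 𝔟.mul_mem_right _ (Ideal.absNorm_mem 𝔟), rfl⟩

lemma finite_bdd (ρ : ℝ) : {β : 𝓞 K | ‖F.ph β‖ ≤ ρ}.Finite := by
  have := lat_disc F ⊤
  have h1 : (Metric.closedBall (0 : ι → ℂ) ρ ∩ (F.lat ⊤ : Set (ι → ℂ))).Finite := by
    refine Metric.finite_isBounded_inter_isClosed DiscreteTopology.isDiscrete
      Metric.isBounded_closedBall ?_
    rw [← Submodule.coe_toAddSubgroup]
    exact AddSubgroup.isClosed_of_discrete
  refine (h1.preimage (ph_inj F).injOn).subset ?_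
  intro β hβ
  exact ⟨mem_closedBall_zero_iff.mpr hβ, (mem_lat F).mpr ⟨β, trivial, rfl⟩⟩

/-- the covolume of the ring of integers -/
noncomputable def Dat.cov : ℝ := ZLattice.covolume (F.lat ⊤) volume

lemma cov_eq {𝔟 : Ideal (𝓞 K)} (h : 𝔟 ≠ ⊥) :
    ZLattice.covolume (F.lat 𝔟) volume = Ideal.absNorm 𝔟 * F.cov := by
  have := lat_isZ F h
  have := lat_isZ F (𝔟 := ⊤) top_ne_bot
  rw [cov_rel volume (F.lat 𝔟) (F.lat ⊤) (Submodule.map_mono fun x _ => trivial)]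
  congr 2
  have e : ∀ 𝔠 : Ideal (𝓞 K), (F.lat 𝔠).toAddSubgroup =
      𝔠.toAddSubgroup.map F.ph.toAddMonoidHom := fun 𝔠 => rfl
  rw [e, e, AddSubgroup.relIndex_map_map_of_injective _ _ (ph_inj F), Ideal.absNorm_eq_index]
  exact AddSubgroup.relIndex_top_right _

lemma cov_pos : 0 < F.cov := by
  have := lat_isZ F (𝔟 := ⊤) top_ne_bot
  exact ZLattice.covolume_pos _ _

/-- the theorem of Minkowski -/
lemma mink0 {𝔟 : Ideal (𝓞 K)} (h : 𝔟 ≠ ⊥) {s : ι → ℝ} (hs : ∀ i, 0 ≤ s i)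
    (hv : 4 ^ Fintype.card ι * (Ideal.absNorm 𝔟 * F.cov) <
      Real.pi ^ Fintype.card ι * ∏ i, s i ^ 2) :
    ∃ γ ∈ 𝔟, γ ≠ 0 ∧ ∀ i, ‖F.τ i γ‖ ≤ s i := by
  have := lat_isZ F h
  let b := Module.Free.chooseBasis ℤ (F.lat 𝔟)
  have fund := ZLattice.isAddFundamentalDomain b (volume : Measure (ι → ℂ))
  rw [← cov_eq F h, ZLattice.covolume_eq_measure_fundamentalDomain _ _ fund] at hv
  have hfin : (volume : Measure (ι → ℂ)) (ZSpan.fundamentalDomain (b.ofZLatticeBasis ℝ)) ≠ ⊤ :=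
    (ZSpan.fundamentalDomain_isBounded _).measure_lt_top.ne
  have hcount : Countable (F.lat 𝔟).toAddSubgroup := (inferInstance : Countable (F.lat 𝔟))
  obtain ⟨x, hx0, hx⟩ := exists_ne_zero_mem_lattice_of_measure_mul_two_pow_lt_measure
    (L := (F.lat 𝔟).toAddSubgroup) (μ := volume) (s := box 0 s) fund
    (fun x hx => by
      rw [mem_box] at hx ⊢
      simpa using hx)
    (box_convex _ _) (by
      rw [vol_box _ hs, ← ENNReal.ofReal_toReal hfin, finrank_pi, pow_mul,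
        show (2 : ENNReal) ^ 2 = ENNReal.ofReal 4 by norm_num, ← ENNReal.ofReal_pow (by norm_num),
        ← ENNReal.ofReal_mul ENNReal.toReal_nonneg, ENNReal.ofReal_lt_ofReal_iff
          (lt_of_le_of_lt (by positivity) hv), mul_comm]
      exact hv)
  obtain ⟨β, hb, hβ⟩ := (mem_lat F).mp x.2
  refine ⟨β, hb, ?_, fun i => ?_⟩
  · rintro rfl
    apply hx0
    apply Subtype.ext
    rw [← hβ, map_zero]; rfl
  · have := mem_box.1 hx i
    rw [← hβ] at this
    simpa [ph_apply] using this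

lemma cov_ge : (1 / 2) ^ Fintype.card ι ≤ F.cov := by
  by_contra hc
  have hc := not_le.mp hc
  obtain ⟨γ, -, h0, h1⟩ := mink0 F (𝔟 := ⊤) top_ne_bot (s := fun _ => 9 / 10)
    (fun _ => by norm_num) (by
      rw [Ideal.absNorm_top, Nat.cast_one, one_mul, prod_const, card_univ, ← mul_pow]
      calc _ < (4 : ℝ) ^ Fintype.card ι * (1 / 2) ^ Fintype.card ι := by gcongr
        _ = (4 * (1 / 2)) ^ Fintype.card ι := by rw [mul_pow]
        _ ≤ _ := by
          refine pow_le_pow_left₀ (by norm_num) ?_ _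
          nlinarith [Real.pi_gt_three])
  have h2 := one_le_ph F h0
  have h3 : ‖F.ph γ‖ ≤ 9 / 10 := (pi_norm_le_iff_of_nonneg (by norm_num)).2 h1
  linarith

lemma norm_comb {γ : 𝓞 K} (h : γ ≠ 0) (c : Fin (2 * Fintype.card ι) → ℝ) (hc : ∀ j, |c j| ≤ 1)
    (i : ι) : ‖(∑ j, c j • F.bas h j) i‖ ≤ 2 * Fintype.card ι * Q * ‖F.τ i γ‖ := by
  rw [Finset.sum_apply]
  refine (norm_sum_le _ _).trans ?_
  have : ∀ j ∈ (univ : Finset (Fin (2 * Fintype.card ι))),
      ‖(c j • F.bas h j) i‖ ≤ Q * ‖F.τ i γ‖ := by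
    intro j _
    rw [Pi.smul_apply, norm_smul, Real.norm_eq_abs, bas_apply, ph_apply, map_mul, norm_mul]
    refine (mul_le_of_le_one_left (by positivity) (hc j)).trans ?_
    rw [mul_comm]
    exact mul_le_mul_of_nonneg_right (F.le i j) (norm_nonneg _)
  refine (sum_le_sum this).trans (le_of_eq ?_)
  simp only [sum_const, card_univ, Fintype.card_fin, nsmul_eq_mul]
  push_cast
  ring

lemma cov_le : F.cov ≤ (4 * (2 * Fintype.card ι * Q) ^ 2) ^ Fintype.card ι := by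
  have := lat_isZ F (𝔟 := ⊤) top_ne_bot
  have hQ := one_le_Q F
  let v := F.bas (one_ne_zero (α := 𝓞 K))
  have hle : Submodule.span ℤ (Set.range v) ≤ F.lat ⊤ := by
    refine Submodule.span_le.2 ?_
    rintro _ ⟨j, rfl⟩
    rw [bas_apply]
    exact (mem_lat F).2 ⟨_, trivial, rfl⟩
  have h1 := cov_rel volume (Submodule.span ℤ (Set.range v)) (F.lat ⊤) hle
  have h2 : 0 < ZLattice.covolume (Submodule.span ℤ (Set.range v)) volume :=
    ZLattice.covolume_pos _ _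
  have h3 : (1 : ℝ) ≤ ((Submodule.span ℤ (Set.range v)).toAddSubgroup.relIndex
      (F.lat ⊤).toAddSubgroup : ℕ) := by
    rw [Nat.one_le_cast, Nat.one_le_iff_ne_zero]
    intro h0
    rw [h0, Nat.cast_zero, zero_mul] at h1
    exact h2.ne' h1
  have h4 : F.cov ≤ ZLattice.covolume (Submodule.span ℤ (Set.range v)) volume := by
    rw [h1]
    exact le_mul_of_one_le_left (cov_pos F).le h3
  refine h4.trans ?_
  rw [ZLattice.covolume_eq_measure_fundamentalDomain _ _ (ZSpan.isAddFundamentalDomain v volume)]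
  have h5 : ZSpan.fundamentalDomain v ⊆ box 0 fun _ => 2 * Fintype.card ι * Q := by
    intro x hx
    rw [mem_box]
    intro i
    have := norm_comb F (one_ne_zero (α := 𝓞 K)) (fun j => v.repr x j) (fun j => by
      have := hx j
      rw [abs_of_nonneg this.1]
      exact this.2.le) i
    rw [v.sum_repr x] at this
    simpa using this
  refine (measureReal_mono h5 (box_compact _ _).measure_lt_top.ne).trans ?_
  rw [volr_box _ fun _ => by positivity, prod_const, card_univ, ← mul_pow]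
  gcongr
  exact Real.pi_le_four

/-- reduction modulo the lattice spanned by the `g * b j` -/
lemma reduce {g : 𝓞 K} (hg : g ≠ 0) (ζ : ι → ℂ) :
    ∃ t : 𝓞 K, ∀ i, ‖ζ i - F.τ i (g * t)‖ ≤ 2 * Fintype.card ι * Q * ‖F.τ i g‖ := by
  let v := F.bas hg
  refine ⟨∑ j, (⌊v.repr ζ j⌋ : 𝓞 K) * F.b j, fun i => ?_⟩
  have h1 := norm_comb F hg (fun j => Int.fract (v.repr ζ j)) (fun j => by
    rw [abs_of_nonneg (Int.fract_nonneg _)]
    exact (Int.fract_lt_one _).le) i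
  refine le_of_eq_of_le (congrArg _ ?_) h1
  have h2 := congrFun (v.sum_repr ζ) i
  rw [← h2]
  simp only [Finset.sum_apply, Pi.smul_apply, mul_sum, map_sum, ← sum_sub_distrib, Int.fract, v,
    bas_apply, ph_apply, map_mul, map_intCast, Complex.real_smul]
  refine sum_congr rfl fun j _ => ?_
  push_cast
  ring

lemma sum_conv (𝔟 : Ideal (𝓞 K)) (β₀ : 𝓞 K) (f : (ι → ℂ) → ℂ) :
    ∑ᶠ β ∈ {β : 𝓞 K | β - β₀ ∈ 𝔟}, f (F.ph β) =
      ∑ᶠ x ∈ (F.lat 𝔟 : Set (ι → ℂ)), f (F.ph β₀ + x) := by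
  refine finsum_mem_eq_of_bijOn (fun β => F.ph (β - β₀)) ⟨?_, ?_, ?_⟩ ?_
  · intro β hβ
    exact (mem_lat F).mpr ⟨_, hβ, rfl⟩
  · intro β _ β' _ h
    exact sub_left_injective (ph_inj F h)
  · intro x hx
    obtain ⟨β, hβ, rfl⟩ := (mem_lat F).mp hx
    exact ⟨β + β₀, by simpa using hβ, by simp⟩
  · intro β _
    simp

end Pool.Agent.P.MP_b8021b_nt.VC.Geo
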