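import Pool.Agent.P.MP_b8021b_nt.VC.GA

/-! Balanced elements, small representatives of ray classes and small units. -/

namespace Pool.Agent.P.MP_b8021b_nt.VC.Geo

open NumberField Finset Pool.Agent.P.MP_b8021b_nt.VE
open scoped Classical

variable {ι : Type} [Fintype ι] {K : Type} [Field K] [NumberField K] {Q : ℝ} (F : Dat K ι Q)

/-- the root of order `2 d` -/
noncomputable def rt (ι : Type) [Fintype ι] (x : ℝ) : ℝ := x ^ (1 / (2 * Fintype.card ι) : ℝ)

lemma rt_pos {x : ℝ} (hx : 0 < x) : 0 < rt ι x := Real.rpow_pos_of_pos hx _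

lemma rt_one : rt ι 1 = 1 := Real.one_rpow _

lemma one_le_rt {x : ℝ} (hx : 1 ≤ x) : 1 ≤ rt ι x := Real.one_le_rpow hx (by positivity)

lemma rt_pow [Nonempty ι] {x : ℝ} (hx : 0 ≤ x) : rt ι x ^ (2 * Fintype.card ι) = x := by
  have : (0 : ℝ) < Fintype.card ι := by exact_mod_cast Fintype.card_pos
  rw [rt, ← Real.rpow_natCast, ← Real.rpow_mul hx]
  push_cast
  rw [one_div_mul_cancel (by positivity), Real.rpow_one]

lemma prod_sq_exp (A : ℝ) {v : ι → ℝ} (hv : ∑ i, v i = 0) :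
    ∏ i, (A * Real.exp (v i)) ^ 2 = A ^ (2 * Fintype.card ι) := by
  rw [prod_pow, prod_mul_distrib, ← Real.exp_sum, hv, Real.exp_zero, mul_one, prod_const,
    card_univ, ← pow_mul, mul_comm]

/-- balanced elements -/
lemma mink {𝔞 : Ideal (𝓞 K)} (h : 𝔞 ≠ ⊥) {v : ι → ℝ} (hv : ∑ i, v i = 0) :
    ∃ γ ∈ 𝔞, γ ≠ 0 ∧ ∀ i, ‖F.τ i γ‖ ≤
      6 * Fintype.card ι * Q * rt ι (Ideal.absNorm 𝔞) * Real.exp (v i) := by
  have hN := one_le_normR h
  have hQ := one_le_Q F
  have := F.ne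
  have hd : (0 : ℝ) < Fintype.card ι := by exact_mod_cast card_pos F
  have hr := rt_pos (ι := ι) (x := Ideal.absNorm 𝔞) (by linarith)
  refine mink0 F h (fun i => by positivity) ?_
  rw [prod_sq_exp _ hv, mul_pow _ (rt ι _), rt_pow (by linarith)]
  calc _ ≤ (4 : ℝ) ^ Fintype.card ι *
        (Ideal.absNorm 𝔞 * (4 * (2 * Fintype.card ι * Q) ^ 2) ^ Fintype.card ι) := by
        gcongr
        exact cov_le F
    _ = (4 * (4 * (2 * Fintype.card ι * Q) ^ 2)) ^ Fintype.card ι * Ideal.absNorm 𝔞 := by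
        rw [mul_pow (4 : ℝ) (4 * _)]; ring
    _ < (Real.pi * (6 * Fintype.card ι * Q) ^ 2) ^ Fintype.card ι * Ideal.absNorm 𝔞 := by
        refine mul_lt_mul_of_pos_right
          (pow_lt_pow_left₀ ?_ (by positivity) (card_pos F).ne') (by linarith)
        have h1 : 0 < (Fintype.card ι * Q) ^ 2 := by positivity
        nlinarith [Real.pi_gt_three]
    _ = _ := by rw [mul_pow Real.pi, ← pow_mul]; ring

lemma split (m : ℕ) : ∀ M : ℕ, 1 ≤ M → ∃ d k : ℕ, 1 ≤ d ∧ d ≤ M ∧ d.Coprime m ∧ M ∣ d * m ^ k := by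
  intro M
  induction M using Nat.strong_induction_on with
  | _ M ih =>
    intro hM
    by_cases h : M.Coprime m
    · exact ⟨M, 0, hM, le_rfl, h, by simp⟩
    · obtain ⟨M', hM'⟩ := Nat.gcd_dvd_left M m
      have g0 : 0 < M.gcd m := Nat.gcd_pos_of_pos_left _ hM
      have g2 : 2 ≤ M.gcd m := by
        have : M.gcd m ≠ 1 := h
        omega
      have p0 : 1 ≤ M' := by
        rcases Nat.eq_zero_or_pos M' with h0 | h0
        · rw [h0] at hM'; omega
        · exact h0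
      have lt : M' < M := by nlinarith
      obtain ⟨d, k, h1, h2, h3, h4⟩ := ih M' lt p0
      refine ⟨d, k + 1, h1, h2.trans lt.le, h3, ?_⟩
      rw [hM', pow_succ, ← mul_assoc, mul_comm (M.gcd m)]
      exact Nat.mul_dvd_mul h4 (Nat.gcd_dvd_right _ _)

include F in
/-- small representatives of the inverse ray class -/
lemma rep (m d : ℕ) (𝔞 : Ideal (𝓞 K)) (hm : 1 ≤ m) (hd : 1 ≤ d) (h : 𝔞 ≠ ⊥)
    (hc : Cop m 𝔞) : ∃ (𝔠 : Ideal (𝓞 K)) (β : 𝓞 K), 𝔠 ≠ ⊥ ∧ Cop (m * d) 𝔠 ∧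
      (Ideal.absNorm 𝔠 : ℝ) ≤
        (24 * (Fintype.card ι : ℝ) ^ 2 * Q ^ 2 * m * d) ^ (2 * Fintype.card ι) ∧
      (m : 𝓞 K) ∣ β - 1 ∧ 𝔞 * 𝔠 = Ideal.span {β} := by
  have := F.ne
  have hQ := one_le_Q F
  obtain ⟨d', k, d1, d2, d3, d4⟩ := split m (2 * d) (by omega)
  have hd' : Ideal.span {(d' : 𝓞 K)} ≠ ⊥ := by
    rw [Ne, Ideal.span_singleton_eq_bot, Nat.cast_eq_zero]; omega
  obtain ⟨a, ha⟩ := IsDedekindDomain.exists_sup_span_eq
    (I := 𝔞 * Ideal.span {(d' : 𝓞 K)}) (J := 𝔞) Ideal.mul_le_left (mul_ne_zero h hd')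
  have hcop : IsCoprime (𝔞 * Ideal.span {(d' : 𝓞 K)}) (Ideal.span {(m : 𝓞 K)}) := by
    refine IsCoprime.mul_left hc ?_
    rw [Ideal.isCoprime_span_singleton_iff]
    exact Nat.isCoprime_iff_coprime.2 d3 |>.map (Int.castRingHom (𝓞 K)) |> fun h => by simpa using h
  obtain ⟨i, hi, j, hj, hij⟩ := Ideal.isCoprime_iff_exists.1 hcop
  obtain ⟨γ, g1, g2, g3⟩ := mink F h (v := 0) (by simp)
  have hmd : ((m * d' : ℕ) : 𝓞 K) ≠ 0 := by
    rw [Nat.cast_ne_zero]; positivity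
  obtain ⟨t, t3⟩ := reduce F (mul_ne_zero hmd g2) (F.ph (a * j + i))
  set β := a * j + i - ((m * d' : ℕ) : 𝓞 K) * γ * t with hβ
  have hγd : (d' : 𝓞 K) * γ ∈ 𝔞 * Ideal.span {(d' : 𝓞 K)} := by
    rw [mul_comm (d' : 𝓞 K)]; exact Ideal.mul_mem_mul g1 (Ideal.mem_span_singleton_self _)
  have b1 : (m : 𝓞 K) ∣ β - 1 := by
    obtain ⟨j', rfl⟩ := Ideal.mem_span_singleton.1 hj
    refine ⟨a * j' - j' - d' * γ * t, ?_⟩
    rw [hβ, ← hij]; push_cast; ring
  have b2 : β - a ∈ 𝔞 * Ideal.span {(d' : 𝓞 K)} := by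
    have e : β - a = (1 - a) * i - (m * t) * (d' * γ) := by
      have : j = 1 - i := by rw [← hij]; ring
      rw [hβ, this]; push_cast; ring
    rw [e]
    exact sub_mem (Ideal.mul_mem_left _ _ hi) (Ideal.mul_mem_left _ _ hγd)
  have ha' : a ∈ 𝔞 := ha ▸ Ideal.mem_sup_right (Ideal.mem_span_singleton_self a)
  have b3 : β ∈ 𝔞 := by
    have := add_mem (Ideal.mul_le_left b2) ha'
    simpa using this
  obtain ⟨𝔠, h𝔠⟩ := Ideal.dvd_span_singleton.2 b3
  have hβc : β ∈ 𝔠 := Ideal.mul_le_right (h𝔠 ▸ Ideal.mem_span_singleton_self β)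
  have c1 : IsCoprime 𝔠 (Ideal.span {(m : 𝓞 K)}) := by
    refine Ideal.isCoprime_iff_exists.2 ⟨β, hβc, 1 - β, ?_, by ring⟩
    rw [Ideal.mem_span_singleton, ← neg_sub]
    exact b1.neg_right
  have c2 : IsCoprime 𝔠 (Ideal.span {(d' : 𝓞 K)}) := by
    rw [Ideal.isCoprime_iff_sup_eq]
    apply mul_left_cancel₀ h
    rw [Ideal.mul_sup, ← h𝔠, Ideal.mul_top]
    refine le_antisymm (sup_le ((Ideal.span_singleton_le_iff_mem _).2 b3) Ideal.mul_le_left) ?_
    conv_lhs => rw [← ha]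
    refine sup_le le_sup_right ((Ideal.span_singleton_le_iff_mem _).2 ?_)
    have : a = β - (β - a) := by ring
    rw [this]
    exact sub_mem (Ideal.mem_sup_left (Ideal.mem_span_singleton_self _)) (Ideal.mem_sup_right b2)
  have c3 : IsCoprime 𝔠 (Ideal.span {((m * (2 * d) : ℕ) : 𝓞 K)}) := by
    have e := c2.mul_right (c1.pow_right (n := k + 1))
    rw [Ideal.span_singleton_pow, Ideal.span_singleton_mul_span_singleton] at e
    refine e.of_isCoprime_of_dvd_right ?_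
    rw [Ideal.dvd_iff_le, Ideal.span_singleton_le_span_singleton]
    have : m * (2 * d) ∣ d' * m ^ (k + 1) := by
      rw [pow_succ, ← mul_assoc d', mul_comm m (2 * d)]; exact Nat.mul_dvd_mul_right d4 m
    exact_mod_cast (Nat.cast_dvd_cast (α := 𝓞 K) this)
  have c4 : 𝔠 ≠ ⊥ := by
    rintro rfl
    rw [Ideal.isCoprime_iff_sup_eq, bot_sup_eq, Ideal.span_singleton_eq_top] at c3
    have e := c3.map (Algebra.norm ℤ)
    have e2 : ((m * (2 * d) : ℕ) : 𝓞 K) = algebraMap ℤ (𝓞 K) ((m * (2 * d) : ℕ) : ℤ) := by simp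
    rw [e2, Algebra.norm_algebraMap, RingOfIntegers.rank, F.deg,
      isUnit_pow_iff (by have := card_pos F; omega), Int.isUnit_iff] at e
    have : 2 ≤ m * (2 * d) := by nlinarith
    omega
  refine ⟨𝔠, β, c4, ?_, ?_, b1, h𝔠.symm⟩
  · refine c3.of_isCoprime_of_dvd_right ?_
    rw [Ideal.dvd_iff_le, Ideal.span_singleton_le_span_singleton]
    exact Nat.cast_dvd_cast ⟨2, by ring⟩
  · have hN' := one_le_normR h
    set n : ℝ := rt ι (Ideal.absNorm 𝔞) with hn
    have n0 : 0 < n := rt_pos (by linarith)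
    have n4 : n ^ (2 * Fintype.card ι) = Ideal.absNorm 𝔞 := rt_pow (by linarith)
    have d2' : (d' : ℝ) ≤ 2 * d := by exact_mod_cast d2
    have e1 : ∀ l, ‖F.τ l β‖ ≤ 24 * (Fintype.card ι : ℝ) ^ 2 * Q ^ 2 * m * d * n := by
      intro l
      have k1 := t3 l
      have k2 := g3 l
      rw [ph_apply, ← map_sub, map_mul, map_natCast, norm_mul, Complex.norm_natCast] at k1
      rw [Pi.zero_apply, Real.exp_zero, mul_one] at k2
      refine k1.trans ?_
      calc _ ≤ 2 * Fintype.card ι * Q * ((m * (2 * d)) * (6 * Fintype.card ι * Q * n)) := by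
            push_cast; gcongr
        _ = _ := by ring
    have e3 := F.nrm β
    rw [h𝔠, map_mul, Nat.cast_mul, ← n4] at e3
    have e5 : n ^ (2 * Fintype.card ι) * (Ideal.absNorm 𝔠 : ℝ) ≤ n ^ (2 * Fintype.card ι) *
        (24 * (Fintype.card ι : ℝ) ^ 2 * Q ^ 2 * m * d) ^ (2 * Fintype.card ι) := by
      rw [e3]
      calc _ ≤ ∏ _l : ι, (24 * (Fintype.card ι : ℝ) ^ 2 * Q ^ 2 * m * d * n) ^ 2 :=
            prod_le_prod (fun l _ => by positivity) fun l _ => by gcongr; exact e1 l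
        _ = _ := by rw [prod_const, card_univ, ← pow_mul, mul_pow, mul_comm]
    exact le_of_mul_le_mul_left e5 (by positivity)

/-- the vector of the logarithms of the absolute values -/
noncomputable def Dat.lg (β : 𝓞 K) (i : ι) : ℝ := Real.log ‖F.τ i β‖

lemma lg_mul {a b : 𝓞 K} (ha : a ≠ 0) (hb : b ≠ 0) (i : ι) :
    F.lg (a * b) i = F.lg a i + F.lg b i := by
  rw [Dat.lg, map_mul, norm_mul, Real.log_mul (norm_ne_zero_iff.2 (tau_ne F ha i))
    (norm_ne_zero_iff.2 (tau_ne F hb i))]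
  rfl

lemma sum_lg {a : 𝓞 K} (ha : a ≠ 0) :
    2 * ∑ i, F.lg a i = Real.log (Ideal.absNorm (Ideal.span {a})) := by
  rw [F.nrm, Real.log_prod fun i _ => pow_ne_zero 2 (norm_ne_zero_iff.2 (tau_ne F ha i)), mul_sum]
  refine sum_congr rfl fun i _ => ?_
  rw [Real.log_pow]
  rfl

lemma sum_lg_unit (u : (𝓞 K)ˣ) : ∑ i, F.lg u i = 0 := by
  have := sum_lg F u.ne_zero
  rw [Ideal.span_singleton_eq_top.2 u.isUnit, Ideal.absNorm_top, Nat.cast_one,
    Real.log_one] at this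
  linarith

/-- an integer of bounded norm whose logarithms are close to a given vector of trace zero -/
lemma near_lg {v : ι → ℝ} (hv : ∑ i, v i = 0) : ∃ γ : 𝓞 K, γ ≠ 0 ∧
    (∀ i, |F.lg γ i - v i| ≤ Fintype.card ι * (6 * Fintype.card ι * Q)) ∧
    (Ideal.absNorm (Ideal.span {γ}) : ℝ) ≤ (6 * Fintype.card ι * Q) ^ (2 * Fintype.card ι) := by
  obtain ⟨γ, -, g2, g3⟩ := mink F (𝔞 := ⊤) top_ne_bot hv
  have hQ := one_le_Q F
  have hd : (1 : ℝ) ≤ Fintype.card ι := by exact_mod_cast card_pos F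
  set A : ℝ := 6 * Fintype.card ι * Q with hA
  have A1 : 1 ≤ A := by rw [hA]; nlinarith
  simp only [Ideal.absNorm_top, Nat.cast_one, rt_one, mul_one] at g3
  have hlA : Real.log A ≤ A := (Real.log_le_sub_one_of_pos (by linarith)).trans (by linarith)
  have l1 : ∀ i, F.lg γ i - v i ≤ A := fun i => by
    have := Real.log_le_log (norm_pos_iff.2 (tau_ne F g2 i)) (g3 i)
    rw [Real.log_mul (by positivity) (by positivity), Real.log_exp] at this
    unfold Dat.lg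
    linarith
  have l2 : 0 ≤ ∑ i, (F.lg γ i - v i) := by
    rw [sum_sub_distrib, hv, sub_zero]
    have h1 := sum_lg F g2
    have h2 := Real.log_nonneg (one_le_normR (I := Ideal.span {γ}) (by simpa using g2))
    linarith
  refine ⟨γ, g2, fun i => abs_le.2 ⟨?_, (l1 i).trans (by nlinarith)⟩, ?_⟩
  · rw [← add_sum_erase _ _ (mem_univ i)] at l2
    have h1 : ∑ j ∈ univ.erase i, (F.lg γ j - v j) ≤ Fintype.card ι * A := by
      refine (sum_le_card_nsmul _ _ A fun j _ => l1 j).trans ?_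
      rw [nsmul_eq_mul]
      gcongr
      exact card_le_univ _
    linarith
  · rw [F.nrm, ← prod_sq_exp A hv]
    exact prod_le_prod (fun l _ => by positivity) fun l _ => by gcongr; exact g3 l

/-- two integers of the same norm that are congruent differ by a unit -/
lemma unit_of_congr (m : ℕ) {a b : 𝓞 K} (ha : a ≠ 0)
    (hN : Ideal.absNorm (Ideal.span {a}) = Ideal.absNorm (Ideal.span {b}))
    (h : ((Ideal.absNorm (Ideal.span {a}) * m : ℕ) : 𝓞 K) ∣ b - a) :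
    ∃ ε : (𝓞 K)ˣ, (m : 𝓞 K) ∣ ε - 1 ∧ b = a * ε := by
  obtain ⟨c, hc⟩ := h
  obtain ⟨x, hx⟩ := Ideal.mem_span_singleton.1 (Ideal.absNorm_mem (Ideal.span {a}))
  obtain ⟨y, hy⟩ := Ideal.mem_span_singleton.1 (Ideal.absNorm_mem (Ideal.span {b}))
  rw [← hN] at hy
  push_cast at hc
  have e1 : b = a * (1 + m * x * c) := by
    rw [hx] at hc
    linear_combination hc
  have e2 : a = b * (1 - m * y * c) := by
    rw [hy] at hc
    linear_combination -hc
  have e3 : (1 + m * x * c) * (1 - m * y * c) = 1 := by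
    apply mul_left_cancel₀ ha
    rw [← mul_assoc, ← e1, ← e2, mul_one]
  exact ⟨Units.mkOfMulEqOne _ _ e3, ⟨x * c, by simp [mul_assoc]⟩, e1⟩

include F in
lemma pigeon (m B : ℕ) (hm : 1 ≤ m) (γ : ℕ → 𝓞 K) (g0 : ∀ j, γ j ≠ 0)
    (g2 : ∀ j, Ideal.absNorm (Ideal.span {γ j}) ≤ B) :
    ∃ i j, i < j ∧ j ≤ B * (B * m) ^ (2 * Fintype.card ι) ∧
      ∃ ε : (𝓞 K)ˣ, (m : 𝓞 K) ∣ ε - 1 ∧ γ j = γ i * ε := by
  set N : ℕ → ℕ := fun j => Ideal.absNorm (Ideal.span {γ j}) with hN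
  have N1 : ∀ j, 1 ≤ N j := fun j => one_le_norm (by simpa using g0 j)
  set e := RingOfIntegers.basis K with he
  have hcard : (Icc 1 B ×ˢ Fintype.piFinset fun _ : Module.Free.ChooseBasisIndex ℤ (𝓞 K) =>
      Ico (0 : ℤ) (B * m : ℕ)).card < (range (B * (B * m) ^ (2 * Fintype.card ι) + 1)).card := by
    rw [card_product, Fintype.card_piFinset, prod_const, card_univ,
      ← Module.finrank_eq_card_chooseBasisIndex, RingOfIntegers.rank, F.deg, card_range,
      Nat.card_Icc, Int.card_Ico, sub_zero, Int.toNat_natCast, Nat.add_sub_cancel]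
    exact Nat.lt_succ_self _
  have hpos : ∀ j, (0 : ℤ) < (N j * m : ℕ) := fun j => by
    have := N1 j
    positivity
  have main : ∀ i j, N i = N j →
      (∀ l, e.repr (γ i) l % (N i * m : ℕ) = e.repr (γ j) l % (N j * m : ℕ)) →
      ∃ ε : (𝓞 K)ˣ, (m : 𝓞 K) ∣ ε - 1 ∧ γ j = γ i * ε := by
    intro i j hNN hrep
    refine unit_of_congr m (g0 i) hNN ?_
    rw [← e.sum_repr (γ j - γ i)]
    refine dvd_sum fun l _ => ?_
    have h1 := hrep l
    rw [← hNN] at h1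
    obtain ⟨c, hc⟩ : ((N i * m : ℕ) : ℤ) ∣ e.repr (γ j) l - e.repr (γ i) l := Int.ModEq.dvd h1
    refine ⟨c • e l, ?_⟩
    rw [map_sub, Finsupp.sub_apply, hc]
    simp [mul_assoc, N]
  obtain ⟨i, hi, j, hj, hne, hij⟩ := exists_ne_map_eq_of_card_lt_of_maps_to hcard
    (f := fun j => (N j, fun l => e.repr (γ j) l % (N j * m : ℕ)))
    (fun j _ => mem_coe.2 (mem_product.2 ⟨mem_Icc.2 ⟨N1 j, g2 j⟩, Fintype.mem_piFinset.2 fun l =>
      mem_Ico.2 ⟨Int.emod_nonneg _ (hpos j).ne', (Int.emod_lt_of_pos _ (hpos j)).trans_le (by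
        exact_mod_cast Nat.mul_le_mul_right m (g2 j))⟩⟩))
  simp only [Prod.mk.injEq] at hij
  rcases lt_or_gt_of_ne hne with h | h
  · exact ⟨i, j, h, Nat.lt_succ_iff.1 (mem_range.1 hj), main i j hij.1 fun l => congrFun hij.2 l⟩
  · exact ⟨j, i, h, Nat.lt_succ_iff.1 (mem_range.1 hi),
      main j i hij.1.symm fun l => (congrFun hij.2 l).symm⟩

/-- a unit that is small at all places but one -/
lemma unit_at (m : ℕ) (hm : 1 ≤ m) (D : ℝ) (hD : 0 ≤ D) (i : ι) : ∃ ε : (𝓞 K)ˣ,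
    (m : 𝓞 K) ∣ ε - 1 ∧ (∀ j, j ≠ i → F.lg ε j ≤ -D) ∧
      ∀ j, |F.lg ε j| ≤ (D + 1) * (6 * Fintype.card ι * Q * m) ^
        (4 * Fintype.card ι ^ 2 + 4 * Fintype.card ι + 4) := by
  have hQ := one_le_Q F
  have hd : (1 : ℝ) ≤ Fintype.card ι := by exact_mod_cast card_pos F
  have m1 : (1 : ℝ) ≤ m := by exact_mod_cast hm
  set d := Fintype.card ι with hdd
  set A : ℝ := 6 * d * Q with hA
  have A6 : 6 * d ≤ A := by rw [hA]; nlinarith
  set c : ℝ := 2 * (d * A) + D with hc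
  have c0 : 0 ≤ c := by positivity
  let v : ℕ → ι → ℝ := fun n j => (if j = i then d * (c * n) else 0) - c * n
  have hv : ∀ n, ∑ j, v n j = 0 := fun n => by
    simp only [v, sum_sub_distrib, sum_ite_eq', mem_univ, if_true, sum_const, card_univ,
      nsmul_eq_mul]
    ring
  choose γ g0 g1 g2 using fun n => near_lg F (hv n)
  obtain ⟨a, b, hab, hb, ε, h1, h2⟩ := pigeon F m ⌊A ^ (2 * d)⌋₊ hm γ g0 fun j => Nat.le_floor (g2 j)
  have hl : ∀ j, F.lg ε j = F.lg (γ b) j - F.lg (γ a) j := fun j => by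
    rw [h2, lg_mul F (g0 a) ε.ne_zero]; ring
  have a3 : (a : ℝ) + 1 ≤ b := by exact_mod_cast hab
  have a4 : (0 : ℝ) ≤ a := Nat.cast_nonneg _
  have hsm : ∀ j, j ≠ i → -(c * b) - 2 * (d * A) ≤ F.lg ε j ∧ F.lg ε j ≤ -D := fun j hj => by
    have k1 := abs_le.1 (g1 a j)
    have k2 := abs_le.1 (g1 b j)
    simp only [v, if_neg hj] at k1 k2
    rw [hl]
    constructor <;> nlinarith
  have hb' : (b : ℝ) ≤ (A * m) ^ (4 * d ^ 2 + 4 * d) := by
    have b1 : (b : ℝ) ≤ (⌊A ^ (2 * d)⌋₊ : ℝ) * ((⌊A ^ (2 * d)⌋₊ : ℝ) * m) ^ (2 * d) := by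
      exact_mod_cast hb
    have b2 : (⌊A ^ (2 * d)⌋₊ : ℝ) ≤ A ^ (2 * d) := Nat.floor_le (by positivity)
    have b3 : A ^ (2 * d) ≤ (A * m) ^ (2 * d) := by
      gcongr
      exact le_mul_of_one_le_right (by positivity) m1
    have b4 : (m : ℝ) ≤ A * m := le_mul_of_one_le_left (by positivity) (by linarith)
    calc (b : ℝ) ≤ (A * m) ^ (2 * d) * ((A * m) ^ (2 * d) * (A * m)) ^ (2 * d) :=
          b1.trans (by gcongr <;> exact b2.trans b3)
      _ = _ := by ring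
  have hAm : A ≤ A * m := le_mul_of_one_le_right (by positivity) m1
  have hX : d * (c * b + 2 * (d * A)) ≤ (D + 1) * (A * m) ^ (4 * d ^ 2 + 4 * d + 4) := by
    have b1 : (1 : ℝ) ≤ b := by linarith
    have k1 : c * b + 2 * (d * A) ≤ (4 * (d * A) + D) * b := by
      rw [hc]; nlinarith [mul_nonneg (by positivity : (0 : ℝ) ≤ d * A) (sub_nonneg.2 b1)]
    have k2 : d * (4 * (d * A) + D) ≤ (D + 1) * (A * m) ^ 4 := by
      have e1 : (d : ℝ) * (4 * (d * A)) ≤ A ^ 4 := by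
        have : 4 * (d : ℝ) ^ 2 ≤ A ^ 2 := by nlinarith
        have : A ≤ A ^ 2 := by nlinarith
        nlinarith
      have e2 : (d : ℝ) ≤ A ^ 4 := by
        have : A ≤ A ^ 4 := le_self_pow₀ (by linarith) (by norm_num)
        linarith
      have e3 : A ^ 4 ≤ (A * m) ^ 4 := by gcongr
      nlinarith
    calc _ ≤ d * ((4 * (d * A) + D) * b) := by gcongr
      _ = d * (4 * (d * A) + D) * b := by ring
      _ ≤ (D + 1) * (A * m) ^ 4 * (A * m) ^ (4 * d ^ 2 + 4 * d) := by gcongr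
      _ = _ := by ring
  have hpos : 0 ≤ c * b + 2 * (d * A) := by positivity
  refine ⟨ε, h1, fun j hj => (hsm j hj).2, fun j => le_trans ?_ hX⟩
  by_cases hj : j = i
  · subst hj
    have s0 := sum_lg_unit F ε
    rw [← add_sum_erase _ _ (mem_univ j), add_eq_zero_iff_eq_neg] at s0
    rw [s0, abs_neg]
    refine (abs_sum_le_sum_abs _ _).trans ((sum_le_card_nsmul _ _ (c * b + 2 * (d * A))
      fun l hl => ?_).trans ?_)
    · have := hsm l (ne_of_mem_erase hl)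
      rw [abs_le]
      constructor <;> linarith [this.1, this.2]
    · rw [nsmul_eq_mul]
      gcongr
      exact card_le_univ _
  · have := hsm j hj
    refine le_trans ?_ (le_mul_of_one_le_left hpos hd)
    rw [abs_le]
    constructor <;> linarith [this.1, this.2]

/-- diagonal dominance -/
lemma dominance {J : Type} [Fintype J] (a : J → J → ℝ) (D : ℝ)
    (h1 : ∀ i j, j ≠ i → a i j ≤ 0) (h2 : ∀ i, D ≤ ∑ j, a i j) (x : J → ℝ) :
    D * ∑ i, |x i| ≤ ∑ j, |∑ i, x i * a i j| := by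
  have k1 : ∀ j, ∑ i, |x i| * a i j ≤ |∑ i, x i * a i j| := by
    intro j
    rcases le_total 0 (x j) with h | h
    · refine le_trans (sum_le_sum fun i _ => ?_) (le_abs_self _)
      by_cases hij : j = i
      · rw [← hij, abs_of_nonneg h]
      · exact mul_le_mul_of_nonpos_right (le_abs_self _) (h1 i j hij)
    · refine le_trans ?_ (neg_le_abs _)
      rw [← sum_neg_distrib]
      refine sum_le_sum fun i _ => ?_
      rw [← neg_mul]
      by_cases hij : j = i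
      · rw [← hij, abs_of_nonpos h]
      · exact mul_le_mul_of_nonpos_right (neg_le_abs _) (h1 i j hij)
  refine le_trans ?_ (sum_le_sum fun j _ => k1 j)
  rw [sum_comm, mul_sum]
  refine sum_le_sum fun i _ => ?_
  rw [← mul_sum, mul_comm]
  exact mul_le_mul_of_nonneg_left (h2 i) (abs_nonneg _)

end Pool.Agent.P.MP_b8021b_nt.VC.Geo
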