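import Pool.Agent.P.MP_b8021b_nt.VE.PLamP

/-! The von Mangoldt function of a number field. -/

namespace Pool.Agent.P.MP_b8021b_nt.VC

open NumberField Finset UniqueFactorizationMonoid Pool.Agent.P.MP_b8021b_nt.VE
open scoped Classical ArithmeticFunction.vonMangoldt

namespace KE

variable {L : Type} [Field L] [NumberField L]

/-- the von Mangoldt function on ideals -/
noncomputable def vm (I : Ideal (𝓞 L)) : ℝ :=
  if h : IsPrimePow I then Real.log (Ideal.absNorm h.choose) else 0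

lemma eq_of_dvd_pow {P Q : Ideal (𝓞 L)} (hP : Prime P) (hQ : Prime Q) {a : ℕ} (h : Q ∣ P ^ a) :
    Q = P :=
  associated_iff_eq.1 (hQ.associated_of_dvd hP (hQ.dvd_of_dvd_pow h))

lemma vm_pow {P : Ideal (𝓞 L)} (hP : Prime P) {a : ℕ} (ha : 0 < a) :
    vm (P ^ a) = Real.log (Ideal.absNorm P) := by
  have h : IsPrimePow (P ^ a) := ⟨P, a, hP, ha, rfl⟩
  obtain ⟨b, h1, h2, h3⟩ := h.choose_spec
  rw [vm, dif_pos h, eq_of_dvd_pow hP h1 (h3 ▸ dvd_pow_self _ h2.ne')]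

lemma vm_nonneg (I : Ideal (𝓞 L)) : 0 ≤ vm I := by
  unfold vm
  split_ifs
  exacts [Real.log_natCast_nonneg _, le_rfl]

lemma of_vm_ne {I : Ideal (𝓞 L)} (h : vm I ≠ 0) : ∃ P a, Prime P ∧ 0 < a ∧ P ^ a = I := by
  by_contra h1
  exact h (dif_neg h1)

lemma fin_le (m : ℕ) : {I : Ideal (𝓞 L) | Ideal.absNorm I ≤ m}.Finite :=
  Ideal.finite_setOfPred_absNorm_le m

lemma fin_dvd {I : Ideal (𝓞 L)} (h : I ≠ 0) : {J | J ∣ I}.Finite :=
  (fin_le (Ideal.absNorm I)).subset fun _ hJ => Nat.le_of_dvd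
    (Nat.pos_of_ne_zero (mt Ideal.absNorm_eq_zero_iff.1 h)) (map_dvd _ hJ)

lemma sum_vm (I : Ideal (𝓞 L)) : I ≠ 0 →
    ∑ᶠ J ∈ {J | J ∣ I}, vm J = Real.log (Ideal.absNorm I) := by
  induction I using induction_on_prime with
  | h₁ => exact fun h => absurd rfl h
  | h₂ I hI =>
    intro _
    rw [Ideal.isUnit_iff.1 hI, Ideal.absNorm_top, Nat.cast_one, Real.log_one]
    refine finsum_mem_of_eqOn_zero fun J hJ => ?_
    by_contra h
    obtain ⟨P, a, h1, h2, rfl⟩ := of_vm_ne h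
    exact h1.not_isUnit (isUnit_of_dvd_unit ((dvd_pow_self _ h2.ne').trans hJ)
      (Ideal.isUnit_iff.2 rfl))
  | h₃ I P h0 hP ih =>
    intro _
    obtain ⟨a, C, hC, rfl⟩ := WfDvdMonoid.max_power_factor h0 hP.irreducible
    have hn : ¬ P ^ (a + 1) ∣ P ^ a * C := fun h => hC
      ((mul_dvd_mul_iff_left (pow_ne_zero a hP.ne_zero)).1 (by rwa [pow_succ] at h))
    rw [finsum_mem_inter_support_eq vm _ (insert (P ^ (a + 1)) {J | J ∣ P ^ a * C}),
      finsum_mem_insert vm hn (fin_dvd h0), ih h0, vm_pow hP a.succ_pos, map_mul _ P,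
      Nat.cast_mul, Real.log_mul]
    · exact_mod_cast mt Ideal.absNorm_eq_zero_iff.1 hP.ne_zero
    · exact_mod_cast mt Ideal.absNorm_eq_zero_iff.1 h0
    ext J
    simp only [Set.mem_inter_iff, Set.mem_insert_iff, Set.mem_ofPred_eq, Function.mem_support]
    refine and_congr_left fun hJ => ⟨fun h => ?_, fun h => ?_⟩
    · obtain ⟨Q, b, h1, h2, rfl⟩ := of_vm_ne hJ
      by_cases e : Q = P
      · subst e
        rcases le_or_gt b a with h3 | h3
        · exact .inr ((pow_dvd_pow _ h3).mul_right _)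
        · rcases eq_or_lt_of_le (Nat.succ_le_of_lt h3) with h4 | h4
          · exact .inl (by rw [← h4])
          · refine absurd ((mul_dvd_mul_iff_left h1.ne_zero).1 ?_) hn
            rw [← pow_succ']
            exact (pow_dvd_pow _ h4).trans h
      · exact .inr (h1.pow_dvd_of_dvd_mul_left b
          (fun h3 => e (eq_of_dvd_pow hP h1 (a := 1) (by simpa using h3))) h)
    · rcases h with rfl | h
      · rw [← mul_assoc, ← pow_succ']
        exact dvd_mul_right _ _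
      · exact h.mul_left _

/-- convolution -/
lemma lam_conv (f g : Ideal (𝓞 L) → ℂ) {m : ℕ} (hm : m ≠ 0) :
    ∑ x ∈ m.divisorsAntidiagonal, lam f x.1 * lam g x.2 =
      lam (fun I => ∑ᶠ z ∈ {z : Ideal (𝓞 L) × Ideal (𝓞 L) | z.1 * z.2 = I}, f z.1 * g z.2) m := by
  set B := (fin_le (L := L) m).toFinset with hB
  set S := (B ×ˢ B).filter fun z => Ideal.absNorm z.1 * Ideal.absNorm z.2 = m with hS
  have mS : ∀ z, z ∈ S ↔ Ideal.absNorm z.1 * Ideal.absNorm z.2 = m := fun z => by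
    simp only [hS, hB, mem_filter, mem_product, Set.Finite.mem_toFinset, Set.mem_ofPred_eq]
    exact ⟨fun h => h.2, fun h => ⟨⟨Nat.le_of_dvd (by omega) ⟨_, h.symm⟩,
      Nat.le_of_dvd (by omega) ⟨_, by rw [mul_comm]; exact h.symm⟩⟩, h⟩⟩
  trans ∑ z ∈ S, f z.1 * g z.2
  · rw [← sum_fiberwise_of_maps_to (s := S) (t := m.divisorsAntidiagonal)
      (g := fun z => (Ideal.absNorm z.1, Ideal.absNorm z.2))
      fun z hz => Nat.mem_divisorsAntidiagonal.2 ⟨(mS z).1 hz, hm⟩]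
    refine sum_congr rfl fun x hx => ?_
    rw [LamP.lam_eq, LamP.lam_eq, sum_mul_sum, ← sum_product']
    refine sum_congr ?_ fun _ _ => rfl
    ext z
    simp only [mem_product, Set.Finite.mem_toFinset, mem_filter, mS, LamP.nI, Set.mem_ofPred_eq,
      Prod.ext_iff]
    exact ⟨fun h => ⟨by rw [h.1, h.2]; exact (Nat.mem_divisorsAntidiagonal.1 hx).1, h⟩,
      fun h => h.2⟩
  · rw [LamP.lam_eq, ← sum_fiberwise_of_maps_to (s := S) (t := (LamP.fin (L := L) m).toFinset)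
      (g := fun z => z.1 * z.2) fun z hz => by
        simpa only [Set.Finite.mem_toFinset, LamP.nI, Set.mem_ofPred_eq, map_mul] using (mS z).1 hz]
    refine sum_congr rfl fun I hI => ?_
    rw [← finsum_mem_coe_finset]
    refine finsum_mem_congr ?_ fun _ _ => rfl
    ext z
    simp only [Set.Finite.mem_toFinset, LamP.nI, Set.mem_ofPred_eq] at hI
    simp only [coe_filter, mS, Set.mem_ofPred_eq]
    exact ⟨fun h => h.2, fun h => ⟨by rw [← map_mul, h, hI], h⟩⟩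

/-- the coefficients of the logarithmic derivative -/
noncomputable def Lk (χ : Ideal (𝓞 L) → ℂ) : ℕ → ℂ := lam fun I => vm I * χ I

lemma log_lam (χ : Ideal (𝓞 L) →* ℂ) {m : ℕ} (hm : m ≠ 0) :
    ∑ x ∈ m.divisorsAntidiagonal, Lk χ x.1 * lam χ x.2 = Real.log m * lam χ m := by
  rw [Lk, lam_conv _ _ hm, LamP.lam_eq, LamP.lam_eq, mul_sum]
  refine sum_congr rfl fun I hI => ?_
  simp only [Set.Finite.mem_toFinset, LamP.nI, Set.mem_ofPred_eq] at hI
  have h0 : I ≠ 0 := fun h => hm (by rw [← hI, h, map_zero])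
  rw [← hI, ← sum_vm I h0, finsum_mem_eq_finite_toFinset_sum _ (fin_dvd h0), Complex.ofReal_sum,
    sum_mul, ← finsum_mem_eq_finite_toFinset_sum _ (fin_dvd h0)]
  refine finsum_mem_eq_of_bijOn (fun z => z.1) ⟨fun z hz => ⟨z.2, hz.symm⟩, fun z hz z' hz' e => ?_,
    fun J ⟨C, hC⟩ => ⟨(J, C), hC.symm, rfl⟩⟩ fun z hz => ?_
  · have h1 : z.1 * z.2 = I := hz
    have h2 : z'.1 * z'.2 = I := hz'
    have e' : z.1 = z'.1 := e
    refine Prod.ext e' (mul_left_cancel₀ (left_ne_zero_of_mul (h1 ▸ h0)) ?_)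
    rw [h1, e', h2]
  · rw [← show z.1 * z.2 = I from hz, map_mul, mul_assoc]

lemma Lk_prime (χ : Ideal (𝓞 L) → ℂ) {p : ℕ} (hp : p.Prime) :
    Lk χ p = Real.log p * lam χ p := by
  rw [Lk, LamP.lam_eq, LamP.lam_eq, mul_sum]
  refine sum_congr rfl fun I hI => ?_
  simp only [Set.Finite.mem_toFinset, LamP.nI, Set.mem_ofPred_eq] at hI
  have h1 : Prime I := (Ideal.irreducible_of_irreducible_absNorm (hI ▸ hp)).prime
  rw [← hI, ← vm_pow h1 one_pos, pow_one]

lemma two_le {P : Ideal (𝓞 L)} (hP : Prime P) : 2 ≤ Ideal.absNorm P := by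
  have h0 := mt Ideal.absNorm_eq_zero_iff.1 hP.ne_zero
  have h1 := mt Ideal.absNorm_eq_one_iff.1 (mt Ideal.isUnit_iff.2 hP.not_isUnit)
  omega

lemma sum_vm_le (m : ℕ) :
    ∑ I ∈ (LamP.fin (L := L) m).toFinset, vm I ≤ Module.finrank ℚ L * Λ m := by
  rw [← sum_filter_ne_zero]
  set T := (LamP.fin (L := L) m).toFinset.filter fun I => vm I ≠ 0 with hT
  rcases T.eq_empty_or_nonempty with h | ⟨I₀, h₀⟩
  · rw [h, sum_empty]
    exact mul_nonneg (Nat.cast_nonneg _) ArithmeticFunction.vonMangoldt_nonneg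
  have mT : ∀ I ∈ T, ∃ P a, Prime P ∧ 0 < a ∧ P ^ a = I ∧ Ideal.absNorm P ^ a = m := fun I hI => by
    obtain ⟨h1, h2⟩ := mem_filter.1 hI
    obtain ⟨P, a, h3, h4, rfl⟩ := of_vm_ne h2
    exact ⟨P, a, h3, h4, rfl, by simpa [LamP.nI] using h1⟩
  choose! P a hP ha hI hm using mT
  have hmax := (Ideal.isPrime_of_prime (hP I₀ h₀)).isMaximal (hP I₀ h₀).ne_zero
  obtain ⟨p, f, f0, -, hp, hf⟩ := Ideal.exists_prime_and_absNorm_eq_pow (P I₀)
  have e : m = p ^ (f * a I₀) := by rw [pow_mul, ← hf, hm I₀ h₀]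
  have p0 : Ideal.span {(p : 𝓞 L)} ≠ 0 := by
    rw [Ne, Ideal.zero_eq_bot, Ideal.span_singleton_eq_bot]; exact_mod_cast hp.ne_zero
  have h1 := sum_vm _ p0
  rw [Ideal.absNorm_span_natCast, RingOfIntegers.rank, Nat.cast_pow, Real.log_pow,
    finsum_mem_eq_finite_toFinset_sum _ (fin_dvd p0)] at h1
  rw [e, ArithmeticFunction.vonMangoldt_apply_pow (Nat.mul_pos f0 (ha I₀ h₀)).ne',
    ArithmeticFunction.vonMangoldt_apply_prime hp, ← h1]
  have inj : Set.InjOn P T := fun I h I' h' e' => by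
    have h2 := (hm I h).trans (hm I' h').symm
    rw [e'] at h2
    rw [← hI I h, ← hI I' h', e', Nat.pow_right_injective (two_le (hP I' h')) h2]
  calc _ = ∑ I ∈ T, vm (P I) := sum_congr rfl fun I h => by
        conv_lhs => rw [← hI I h]
        rw [vm_pow (hP I h) (ha I h), ← vm_pow (hP I h) one_pos, pow_one]
    _ = ∑ J ∈ T.image P, vm J := (sum_image inj).symm
    _ ≤ _ := sum_le_sum_of_subset_of_nonneg (fun J hJ => ?_) fun _ _ _ => vm_nonneg _
  obtain ⟨I, h, rfl⟩ := mem_image.1 hJ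
  have hPp := Ideal.isPrime_of_prime (hP I h)
  have h2 : (p : 𝓞 L) ^ (f * a I₀) ∈ P I := by
    rw [← Nat.cast_pow, ← e, ← hm I h, Nat.cast_pow]
    exact Ideal.pow_mem_of_mem _ (Ideal.absNorm_mem _) _ (ha I h)
  rw [Set.Finite.mem_toFinset, Set.mem_ofPred_eq, Ideal.dvd_span_singleton]
  exact hPp.mem_of_pow_mem _ h2

lemma norm_Lk_le {χ : Ideal (𝓞 L) → ℂ} (h : ∀ I, ‖χ I‖ ≤ 1) (m : ℕ) :
    ‖Lk χ m‖ ≤ Module.finrank ℚ L * Λ m := by
  rw [Lk, LamP.lam_eq]
  refine (norm_sum_le _ _).trans ((sum_le_sum fun I _ => ?_).trans (sum_vm_le m))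
  rw [norm_mul, Complex.norm_real, Real.norm_of_nonneg (vm_nonneg I)]
  exact mul_le_of_le_one_right (vm_nonneg I) (h I)

/-- the number of ideals of norm `m` -/
noncomputable def cn (L : Type) [Field L] [NumberField L] (m : ℕ) : ℕ :=
  (LamP.fin (L := L) m).toFinset.card

lemma norm_lam_le {χ : Ideal (𝓞 L) → ℂ} (h : ∀ I, ‖χ I‖ ≤ 1) (m : ℕ) : ‖lam χ m‖ ≤ cn L m := by
  rw [LamP.lam_eq]
  refine (norm_sum_le _ _).trans ((sum_le_sum fun I _ => h I).trans ?_)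
  simp [cn]

variable (L) in
lemma sum_cn_le : ∃ A : ℝ, 1 ≤ A ∧ ∀ Y : ℕ, ∑ m ∈ Icc 1 Y, (cn L m : ℝ) ≤ A * Y := by
  obtain ⟨A, hA⟩ := ((Ideal.tendsto_norm_le_div_atTop L).comp
    tendsto_natCast_atTop_atTop).bddAbove_range
  refine ⟨max 1 A, le_max_left _ _, fun Y => ?_⟩
  rcases Nat.eq_zero_or_pos Y with rfl | hY
  · simp
  have h1 := hA ⟨Y, rfl⟩
  simp only [Function.comp_apply, Nat.cast_le] at h1
  rw [div_le_iff₀ (by exact_mod_cast hY)] at h1
  refine le_trans ?_ (h1.trans (mul_le_mul_of_nonneg_right (le_max_right _ _) (Nat.cast_nonneg _)))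
  rw [← Nat.cast_sum, Nat.cast_le]
  have h2 : Nat.card {I : Ideal (𝓞 L) // Ideal.absNorm I ≤ Y} = (fin_le (L := L) Y).toFinset.card := by
    rw [← Set.ncard_eq_toFinset_card _ (fin_le Y)]
    rfl
  rw [h2]
  unfold cn
  rw [← card_biUnion]
  · refine card_le_card fun I hI => ?_
    obtain ⟨m, h3, h4⟩ := mem_biUnion.1 hI
    simp only [Set.Finite.mem_toFinset, LamP.nI, Set.mem_ofPred_eq] at h4 ⊢
    exact h4 ▸ (mem_Icc.1 h3).2
  · intro m _ m' _ hne
    refine disjoint_left.2 fun I h3 h4 => hne ?_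
    simp only [Set.Finite.mem_toFinset, LamP.nI, Set.mem_ofPred_eq] at h3 h4
    exact h3.symm.trans h4

end KE

end Pool.Agent.P.MP_b8021b_nt.VC
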