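import Pool.Agent.P.MP_b8021b_nt.VC.KE1
import Pool.Agent.P.MP_0ad054_nt.An.Lup

/-! L-series of ideal characters to the right of the line `re s = 1`. -/

namespace Pool.Agent.P.MP_b8021b_nt.VC

open NumberField Finset Complex Filter Topology Pool.Agent.P.MP_b8021b_nt.VE
open scoped Classical ArithmeticFunction.vonMangoldt

namespace KE

variable {L : Type} [Field L] [NumberField L]

lemma absc {a : ℕ → ℂ} (hs : ∀ s : ℂ, 1 < s.re → LSeriesSummable a s) {x : ℝ} (hx : 1 < x) :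
    LSeries.abscissaOfAbsConv a < x :=
  (LSeries.abscissaOfAbsConv_le_of_forall_lt_LSeriesSummable (x := 1)
    fun y hy => hs y (by simpa using hy)).trans_lt (EReal.coe_lt_coe_iff.2 hx)

lemma summable_of_le {f g : ℕ → ℂ} {s : ℂ} (h : ∀ n, ‖f n‖ ≤ ‖g n‖) (hg : LSeriesSummable g s) :
    LSeriesSummable f s :=
  Summable.of_norm_bounded hg.norm fun n => LSeries.norm_term_le s (h n)

lemma summable_cn {s : ℂ} (hs : 1 < s.re) : LSeriesSummable (fun n => (cn L n : ℂ)) s := by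
  obtain ⟨A, -, hA⟩ := sum_cn_le L
  refine LSeriesSummable_of_sum_norm_bigO (r := 1) (Asymptotics.IsBigO.of_bound A
    (Eventually.of_forall fun Y => ?_)) zero_le_one hs
  rw [Real.norm_of_nonneg (sum_nonneg fun _ _ => norm_nonneg _), Real.rpow_one, Real.norm_natCast]
  simpa using hA Y

lemma summable_lam {χ : Ideal (𝓞 L) → ℂ} (h : ∀ I, ‖χ I‖ ≤ 1) {s : ℂ} (hs : 1 < s.re) :
    LSeriesSummable (lam χ) s :=
  summable_of_le (fun n => by simpa using norm_lam_le h n) (summable_cn (L := L) hs)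

lemma summable_Lk {χ : Ideal (𝓞 L) → ℂ} (h : ∀ I, ‖χ I‖ ≤ 1) {s : ℂ} (hs : 1 < s.re) :
    LSeriesSummable (Lk χ) s :=
  summable_of_le (fun n => by
    simpa [abs_of_nonneg ArithmeticFunction.vonMangoldt_nonneg] using norm_Lk_le h n)
    ((ArithmeticFunction.LSeriesSummable_vonMangoldt hs).smul (Module.finrank ℚ L : ℂ))

lemma deriv_L {χ : Ideal (𝓞 L) →* ℂ} (h : ∀ I, ‖χ I‖ ≤ 1) {s : ℂ} (hs : 1 < s.re) :
    HasDerivAt (LSeries (lam χ)) (-(LSeries (Lk χ) s * LSeries (lam χ) s)) s := by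
  have h1 := LSeries_hasDerivAt (absc (fun s => summable_lam h) hs)
  rw [← LSeries_convolution' (summable_Lk h hs) (summable_lam h hs)]
  rwa [LSeries_congr (g := LSeries.convolution (Lk χ) (lam χ)) (fun {n} hn => ?_)] at h1
  rw [LSeries.convolution_def]
  simp only
  rw [log_lam χ hn, natCast_log]

/-- the coefficients of the logarithm -/
noncomputable def Gk (χ : Ideal (𝓞 L) → ℂ) (n : ℕ) : ℂ := Lk χ n / Real.log n

lemma Lk_one {χ : Ideal (𝓞 L) → ℂ} (h : ∀ I, ‖χ I‖ ≤ 1) : Lk χ 1 = 0 := by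
  simpa using norm_Lk_le h 1

lemma summable_Gk {χ : Ideal (𝓞 L) → ℂ} (h : ∀ I, ‖χ I‖ ≤ 1) {s : ℂ} (hs : 1 < s.re) :
    LSeriesSummable (Gk χ) s := by
  refine LSeriesSummable_of_bounded_of_one_lt_re (m := Module.finrank ℚ L) (fun n _ => ?_) hs
  rw [Gk, norm_div, norm_real, Real.norm_of_nonneg (Real.log_natCast_nonneg n)]
  refine div_le_of_le_mul₀ (Real.log_natCast_nonneg n) (Nat.cast_nonneg _)
    ((norm_Lk_le h n).trans ?_)
  exact mul_le_mul_of_nonneg_left ArithmeticFunction.vonMangoldt_le_log (Nat.cast_nonneg _)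

lemma deriv_G {χ : Ideal (𝓞 L) → ℂ} (h : ∀ I, ‖χ I‖ ≤ 1) {s : ℂ} (hs : 1 < s.re) :
    HasDerivAt (LSeries (Gk χ)) (-LSeries (Lk χ) s) s := by
  have h1 := LSeries_hasDerivAt (absc (fun s => summable_Gk h) hs)
  rwa [LSeries_congr (g := Lk χ) (fun {n} hn => ?_)] at h1
  simp only [LSeries.logMul, Gk]
  rcases eq_or_ne n 1 with rfl | h2
  · simp [Lk_one h]
  · rw [← natCast_log, mul_div_cancel₀]
    exact_mod_cast (Real.log_pos (by exact_mod_cast (by omega : 1 < n))).ne'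

lemma lam_one (χ : Ideal (𝓞 L) →* ℂ) : lam χ 1 = 1 := by
  rw [lam]
  simp only [Ideal.absNorm_eq_one_iff, Set.ofPred_eq_eq_singleton, finsum_mem_singleton]
  rw [← Ideal.one_eq_top, map_one]

lemma L_eq_exp {χ : Ideal (𝓞 L) →* ℂ} (h : ∀ I, ‖χ I‖ ≤ 1) {s : ℂ} (hs : 1 < s.re) :
    LSeries (lam χ) s = exp (LSeries (Gk χ) s) := by
  have hd : ∀ w : ℂ, 1 < w.re →
      HasDerivAt (fun w => LSeries (lam χ) w * exp (-LSeries (Gk χ) w)) 0 w := fun w hw => by
    have := (deriv_L h hw).mul (deriv_G h hw).neg.cexp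
    refine this.congr_deriv ?_
    simp only [Pi.neg_apply]
    ring
  have ho : IsOpen {w : ℂ | 1 < w.re} := isOpen_lt continuous_const continuous_re
  have hc : ∀ w : ℂ, 1 < w.re → LSeries (lam χ) w * exp (-LSeries (Gk χ) w) =
      LSeries (lam χ) s * exp (-LSeries (Gk χ) s) := fun w hw =>
    ho.is_const_of_deriv_eq_zero (convex_halfSpace_re_gt 1).isPreconnected
      (fun w hw => (hd w hw).differentiableAt.differentiableWithinAt)
      (fun w hw => (hd w hw).deriv) hw hs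
  have t1 := LSeries.tendsto_atTop ((absc (fun s => summable_lam h) one_lt_two).trans_le le_top)
  have t2 := LSeries.tendsto_atTop ((absc (fun s => summable_Gk h) one_lt_two).trans_le le_top)
  have t3 := t1.mul t2.neg.cexp
  rw [lam_one, Gk, Lk_one h, zero_div, neg_zero, exp_zero, one_mul] at t3
  have t4 := tendsto_nhds_unique (t3.congr' ((eventually_gt_atTop (1 : ℝ)).mono fun x hx =>
    hc x (by simpa using hx))) tendsto_const_nhds
  rw [exp_neg, eq_mul_inv_iff_mul_eq₀ (exp_ne_zero _), one_mul] at t4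
  exact t4.symm

lemma comb {z : ℂ} (hz : ‖z‖ ≤ 1) : 0 ≤ (3 + 4 * z + z ^ 2).re := by
  have h1 : z.re ^ 2 + z.im ^ 2 ≤ 1 := by
    have := Complex.sq_norm z
    rw [normSq_apply] at this
    nlinarith [norm_nonneg z]
  simp only [add_re, mul_re, re_ofNat, im_ofNat, zero_mul, sub_zero, sq]
  nlinarith [sq_nonneg (z.re + 1)]

lemma three41 {χ : Ideal (𝓞 L) →* ℂ} (h : ∀ I, ‖χ I‖ ≤ 1) {x : ℝ} (hx : 0 < x) (t : ℝ) :
    1 ≤ ‖LSeries (lam (1 : Ideal (𝓞 L) →* ℂ)) (1 + x)‖ ^ 3 * ‖LSeries (lam χ) (1 + x + I * t)‖ ^ 4 *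
      ‖LSeries (lam ⇑(χ ^ 2)) (1 + x + 2 * I * t)‖ := by
  have h1 : ∀ I, ‖(1 : Ideal (𝓞 L) →* ℂ) I‖ ≤ 1 := fun I => by simp
  have h2 : ∀ I, ‖(χ ^ 2) I‖ ≤ 1 := fun I => by
    rw [MonoidHom.pow_apply, norm_pow]; exact pow_le_one₀ (norm_nonneg _) (h I)
  have s1 : 1 < (1 + x : ℂ).re := by simpa using hx
  have s2 : 1 < (1 + x + I * t : ℂ).re := by simpa using hx
  have s3 : 1 < (1 + x + 2 * I * t : ℂ).re := by simpa using hx
  rw [L_eq_exp h1 s1, L_eq_exp h s2, L_eq_exp h2 s3, norm_exp, norm_exp, norm_exp, ← Real.exp_nat_mul,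
    ← Real.exp_nat_mul, ← Real.exp_add, ← Real.exp_add, Real.one_le_exp_iff]
  have a := hasSum_re (((((summable_Gk h1 s1).hasSum.mul_left 3).add
    ((summable_Gk h s2).hasSum.mul_left 4))).add (summable_Gk h2 s3).hasSum)
  have b := a.nonneg fun n => ?_
  · simpa [LSeries] using b
  rcases eq_or_ne n 0 with rfl | hn
  · simp
  have n0 : (n : ℂ) ≠ 0 := by exact_mod_cast hn
  have e : 3 * LSeries.term (Gk (1 : Ideal (𝓞 L) →* ℂ)) (1 + x) n +
      4 * LSeries.term (Gk χ) (1 + x + I * t) n + LSeries.term (Gk ⇑(χ ^ 2)) (1 + x + 2 * I * t) n =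
      ∑ J ∈ (LamP.fin (L := L) n).toFinset, ((vm J / Real.log n / (n : ℝ) ^ (1 + x) : ℝ) : ℂ) *
        (3 + 4 * (χ J / (n : ℂ) ^ (I * t)) + (χ J / (n : ℂ) ^ (I * t)) ^ 2) := by
    simp only [LSeries.term_of_ne_zero hn, Gk, Lk, LamP.lam_eq, sum_div, mul_sum,
      ← sum_add_distrib]
    refine sum_congr rfl fun J _ => ?_
    rw [show (2 : ℂ) * I * t = I * t + I * t by ring, cpow_add (1 + (x : ℂ)) (I * t) n0,
      cpow_add (1 + (x : ℂ)) _ n0, cpow_add (I * t) (I * t) n0, ofReal_div, ofReal_div,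
      ofReal_cpow (Nat.cast_nonneg _), MonoidHom.pow_apply, MonoidHom.one_apply]
    push_cast
    ring
  rw [e, re_sum]
  refine sum_nonneg fun J _ => ?_
  rw [re_ofReal_mul]
  refine mul_nonneg (div_nonneg (div_nonneg (vm_nonneg J) (Real.log_natCast_nonneg n))
    (by positivity)) (comb ?_)
  rw [norm_div, norm_natCast_cpow_of_pos (Nat.pos_of_ne_zero hn)]
  simpa using h J

end KE

end Pool.Agent.P.MP_b8021b_nt.VC
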