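import Pool.Agent.P.MP_b8021b_nt.VC.KE2
import Pool.Agent.P.MP_b8021b_nt.VC.KSt
import Pool.Agent.P.MP_b8021b_nt.VC.StG
import Pool.Agent.P.MP_b8021b_nt.VC.StH
import Pool.Agent.P.MP_b8021b_nt.VC.BasicN

/-! Siegel-Walfisz for the base field from the abstract theorem and Siegel's theorem. -/

namespace Pool.Agent.P.MP_b8021b_nt.VC

open NumberField Finset Complex Filter Topology MeasureTheory Pool.Agent.P.MP_b8021b_nt.VE
open scoped Classical ArithmeticFunction.vonMangoldt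

namespace KE

lemma norm_L_le {a : ℕ → ℂ} {A x : ℝ} (h : ∀ Y : ℕ, ∑ n ∈ Icc 1 Y, ‖a n‖ ≤ A * Y) (hA : 0 ≤ A)
    (hx : 0 < x) (hx' : x ≤ 1) : ‖LSeries a (1 + x)‖ ≤ 2 * A / x := by
  rw [LSeries_eq_mul_integral' a (r := 1) zero_le_one (by simpa using hx)
    (Asymptotics.IsBigO.of_bound A (Eventually.of_forall fun Y => by
      rw [Real.norm_of_nonneg (sum_nonneg fun _ _ => norm_nonneg _), Real.rpow_one,
        Real.norm_natCast]
      exact h Y)), norm_mul, mul_div_assoc]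
  refine mul_le_mul ?_ ?_ (norm_nonneg _) zero_le_two
  · refine (norm_add_le _ _).trans ?_
    rw [norm_one, norm_real, Real.norm_of_nonneg hx.le]
    linarith
  · have h1 := (integrableOn_Ioi_rpow_of_lt (a := -1 - x) (by linarith) one_pos).const_mul A
    refine (norm_integral_le_of_norm_le h1 ?_).trans (le_of_eq ?_)
    · filter_upwards [ae_restrict_mem measurableSet_Ioi] with t ht
      have t0 : 0 < t := one_pos.trans ht
      rw [norm_mul, norm_cpow_eq_rpow_re_of_pos t0,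
        show (-1 - x : ℝ) = 1 + (-(1 + (x : ℂ) + 1)).re by simp; ring, Real.rpow_add t0,
        Real.rpow_one, ← mul_assoc]
      gcongr
      exact (norm_sum_le _ _).trans ((h _).trans
        (mul_le_mul_of_nonneg_left (Nat.floor_le t0.le) hA))
    · rw [integral_const_mul, integral_Ioi_rpow_of_lt (by linarith) one_pos, Real.one_rpow,
        show -1 - x + 1 = -x by ring, neg_div_neg_eq, mul_one_div]

lemma norm_c_le {a : ℕ → ℂ} {c : ℂ} {A M θ : ℝ} (h : ∀ Y : ℕ, ∑ n ∈ Icc 1 Y, ‖a n‖ ≤ A * Y)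
    (hθ : 0 < θ) (hP : PSum a c M θ) : ‖c‖ ≤ A := by
  have t1 := (((tendsto_rpow_neg_atTop hθ).comp tendsto_natCast_atTop_atTop).const_mul M).const_add A
  rw [mul_zero, add_zero] at t1
  refine ge_of_tendsto t1 ((eventually_ge_atTop 1).mono fun X hX => ?_)
  have X0 : (0 : ℝ) < X := by exact_mod_cast hX
  have h1 := hP X hX
  have h2 := norm_sub_norm_le (c * X) (∑ n ∈ Icc 1 X, a n)
  rw [norm_sub_rev, norm_mul, Complex.norm_natCast] at h2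
  rw [sub_eq_add_neg 1, Real.rpow_add X0, Real.rpow_one] at h1
  refine le_of_mul_le_mul_right ?_ X0
  simp only [Function.comp_apply]
  nlinarith [(norm_sum_le _ _).trans (h X)]

lemma primes_le {L : Type} [Field L] [NumberField L] {χ : Ideal (𝓞 L) → ℂ} (h : ∀ I, ‖χ I‖ ≤ 1)
    {X : ℕ} (hX : 1 ≤ X) : ‖∑ q ∈ Icc 1 X with q.Prime, (Real.log q : ℂ) * lam χ q‖ ≤
      ‖∑ n ∈ Icc 1 X, Lk χ n‖ + Module.finrank ℚ L * (2 * √X * Real.log X) := by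
  have h1 : ∑ q ∈ Icc 1 X with q.Prime, (Real.log q : ℂ) * lam χ q =
      ∑ n ∈ Icc 1 X, Lk χ n - ∑ n ∈ Icc 1 X with ¬ n.Prime, Lk χ n := by
    rw [← sum_filter_add_sum_filter_not (Icc 1 X) Nat.Prime, add_sub_cancel_right]
    exact sum_congr rfl fun q hq => (Lk_prime χ (mem_filter.1 hq).2).symm
  rw [h1]
  refine (norm_sub_le _ _).trans (add_le_add_right ?_ _)
  have h2 := Chebyshev.psi_sub_theta_le (x := X) (by exact_mod_cast hX)
  rw [Chebyshev.psi_sub_theta_eq_sum_not_prime, Nat.floor_natCast] at h2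
  refine (norm_sum_le _ _).trans ((sum_le_sum fun n _ => norm_Lk_le h n).trans ?_)
  rw [← mul_sum]
  exact mul_le_mul_of_nonneg_left h2 (Nat.cast_nonneg _)

lemma sqrt_log (A : ℕ) {X : ℝ} (hX : 1 < X) :
    √X * Real.log X ≤ (2 * (A + 1)) ^ (A + 1) * X / Real.log X ^ A := by
  have l0 := Real.log_pos hX
  have h1 := Real.log_le_rpow_div (x := X) (by linarith) (ε := 1 / (2 * (A + 1))) (by positivity)
  have h2 := pow_le_pow_left₀ l0.le h1 (A + 1)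
  rw [div_div_eq_mul_div, div_one, mul_pow, ← Real.rpow_mul_natCast (by linarith),
    show 1 / (2 * (A + 1 : ℝ)) * ((A + 1 : ℕ) : ℝ) = 1 / 2 by push_cast; field_simp,
    ← Real.sqrt_eq_rpow] at h2
  rw [le_div_iff₀ (by positivity), mul_assoc, ← pow_succ']
  calc _ ≤ √X * (√X * (2 * (A + 1)) ^ (A + 1)) := by gcongr
    _ = _ := by rw [← mul_assoc, Real.mul_self_sqrt (by linarith), mul_comm]

variable {k : Type} [Field k] [NumberField k] [Algebra k ℂ]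

lemma isK_mul {n m : ℕ} (hn : 2 ≤ n * m) {j j' : ℤ} {ξ ξ' : Ideal (𝓞 k) →* ℂ} (h : IsK n j ξ)
    (h' : IsK m j' ξ') {d : ℕ} (hd : ∀ I : Ideal (𝓞 k), Cop d I ↔ Cop n I ∧ Cop m I) (h1 : n ∣ d)
    (h2 : m ∣ d) : IsK d (j + j') (ξ * ξ') := by
  refine ⟨⟨fun I hI => ?_, fun I hI => ?_⟩, by simp, fun α hα => ?_⟩
  · rw [MonoidHom.mul_apply, norm_mul, h.norm_cop I ((hd I).1 hI).1, h'.norm_cop I ((hd I).1 hI).2,
      one_mul]
  · rw [hd, not_and_or] at hI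
    rw [MonoidHom.mul_apply, mul_eq_zero]
    exact hI.imp (h.zero I) (h'.zero I)
  · have a0 : α ≠ 0 := (cop_mul_nat.2 ((hd _).1 (cop_span_of_dvd hα)) |> Cop_ne_bot hn).imp
      fun e => by rw [e, Ideal.span_singleton_eq_bot]
    rw [MonoidHom.mul_apply, h.prin α ((Nat.cast_dvd_cast h1).trans hα),
      h'.prin α ((Nat.cast_dvd_cast h2).trans hα), ← ty_add _ _ _ _ (emb_ne_zero a0), add_zero]
    rfl

/-- sharp sums on the base field -/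
lemma kps (hEmb : S_Emb) (hPSs : S_PSs) (K : BF k) : ∃ (A : ℝ) (C : ℕ), 1 ≤ A ∧
    ∀ n : ℕ, 2 ≤ n → PSum (lam (triv k n)) (Rs k n) (A * (n : ℝ) ^ C) (1 / 4) ∧
      ∀ (j : ℤ) (ξ : Ideal (𝓞 k) →* ℂ) (Kb : ℝ), 1 ≤ Kb → |(j : ℝ)| ≤ Kb → IsK n j ξ →
        ¬ IsTriv n ξ → PSum (lam ξ) 0 (A * (n * Kb) ^ C) (1 / 4) := by
  obtain ⟨_, h1⟩ := hEmb k K 1
  obtain ⟨Q, Q2, hQ⟩ := (h1 k (Module.finrank_self k)).2.2.2.2.2.2.2.2.1
  obtain ⟨C, h2⟩ := hPSs k K 1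
  refine ⟨Q ^ C, C, one_le_pow₀ (by linarith), fun n hn => ?_⟩
  obtain ⟨-, -, h3, h4⟩ := h2 k (Module.finrank_self k) Q n Q2 hQ hn
  refine ⟨fun X _ => ?_, fun j ξ Kb k1 k2 k3 k4 X _ => ?_⟩
  · simpa [mul_pow] using h3 X
  · simpa [mul_pow, mul_assoc] using
      h4 X Kb _ _ ξ k1 (fun _ => k2) (fun _ => by simp; linarith) k3 k4

/-- Siegel's theorem for the base field -/
def SiegSt : Prop :=
  ∀ (L : Type) [Field L] [NumberField L] (_ : IQ L) (e : ℝ), 0 < e → ∃ c : ℝ, 0 < c ∧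
    ∀ (n : ℕ) (χ : Ideal (𝓞 L) →* ℂ), n ≠ 0 → IsChar n χ →
      (∀ a : 𝓞 L, (n : 𝓞 L) ∣ a - 1 → χ (Ideal.span {a}) = 1) → IsTriv n (χ ^ 2) → ¬ IsTriv n χ →
      ∃ F : ℂ → ℂ, DifferentiableOn ℂ F {s | 0 < s.re} ∧
        (∀ s : ℂ, 1 < s.re → F s = LSeries (lam χ) s) ∧ c * (n : ℝ) ^ (-e) ≤ ‖F 1‖

theorem swk_of (hA : S_SWabs) (hS : SiegSt) (hEmb : S_Emb) (hPSs : S_PSs) (hTyp : S_Typ) :
    S_SWk := by
  intro k _ _ _ K A B
  obtain ⟨A₁, C, A1, hP⟩ := kps hEmb hPSs K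
  obtain ⟨A₂, A2, hc⟩ := sum_cn_le k
  choose! sg sg0 hsg using hS k K.toIQ
  obtain ⟨A₀, a1, a2, a3⟩ : ∃ A₀ : ℝ, A₁ * 2 ^ C ≤ A₀ ∧ A₂ ≤ A₀ ∧ (2 * A₂) ^ 3 ≤ A₀ :=
    ⟨max (A₁ * 2 ^ C) (max A₂ ((2 * A₂) ^ 3)), le_max_left _ _,
      (le_max_left _ _).trans (le_max_right _ _), (le_max_right _ _).trans (le_max_right _ _)⟩
  have D0 : 0 < Module.finrank ℚ k := Module.finrank_pos
  obtain ⟨C', C0, hC⟩ := hA (1 / 4) A₀ C (Module.finrank ℚ k) sg (by norm_num) (A2.trans a2) D0 sg0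
    A (3 * B)
  refine ⟨Module.finrank ℚ k * (C' + 2 * (2 * (A + 1)) ^ (A + 1)), by positivity,
    fun X n j ξ hX hn h1 h2 h3 h4 => ?_⟩
  have n2 : (2 : ℝ) ≤ n := by exact_mod_cast hn
  have j0 : (0 : ℝ) ≤ |(j : ℝ)| := abs_nonneg _
  have hq : ((n * (j.natAbs + 1) : ℕ) : ℝ) = n * (|(j : ℝ)| + 1) := by
    push_cast [Nat.cast_natAbs]; rfl
  have hs : ∀ χ : Ideal (𝓞 k) →* ℂ, (∀ I, ‖χ I‖ ≤ 1) → ∀ Y : ℕ,
      ∑ m ∈ Icc 1 Y, ‖lam χ m‖ ≤ A₂ * Y := fun χ h Y =>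
    (sum_le_sum fun m _ => norm_lam_le h m).trans (hc Y)
  have hs' : ∀ χ : Ideal (𝓞 k) →* ℂ, (∀ I, ‖χ I‖ ≤ 1) → ∀ Y : ℕ,
      ∑ m ∈ Icc 1 Y, ‖lam χ m‖ ≤ A₀ * Y := fun χ h Y =>
    (hs χ h Y).trans (mul_le_mul_of_nonneg_right a2 (Nat.cast_nonneg _))
  have mono : ∀ (a : ℕ → ℂ) (c : ℂ) (v : ℝ), 0 ≤ v → v ≤ 2 * (n * (|(j : ℝ)| + 1)) →
      PSum a c (A₁ * v ^ C) (1 / 4) →
      PSum a c (A₀ * ((n * (j.natAbs + 1) : ℕ) : ℝ) ^ C) (1 / 4) := fun a c v v0 v1 h Y hY => by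
    refine (h Y hY).trans (mul_le_mul_of_nonneg_right ?_ (by positivity))
    rw [hq]
    calc _ ≤ A₁ * (2 * (n * (|(j : ℝ)| + 1))) ^ C := by gcongr
      _ = A₁ * 2 ^ C * (n * (|(j : ℝ)| + 1)) ^ C := by rw [mul_pow, mul_assoc]
      _ ≤ _ := by gcongr
  have h5 : IsK n (j + j) (ξ ^ 2) := by
    rw [sq]
    exact isK_mul (by nlinarith) h3 h3 (fun I => and_self_iff.symm) dvd_rfl dvd_rfl
  obtain ⟨c, c1, c2⟩ : ∃ c : ℂ, PSum (lam ⇑(ξ ^ 2)) c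
      (A₀ * ((n * (j.natAbs + 1) : ℕ) : ℝ) ^ C) (1 / 4) ∧ (c = 0 ∨ IsTriv n (ξ ^ 2)) := by
    by_cases h6 : IsTriv n (ξ ^ 2)
    · refine ⟨Rs k n, mono _ _ n (by linarith) (by nlinarith) ?_, .inr h6⟩
      rw [eq_triv h5.toIsChar h6]
      exact (hP n hn).1
    · refine ⟨0, mono _ _ _ (by positivity) (by nlinarith)
        ((hP n hn).2 _ _ (2 * (|(j : ℝ)| + 1)) (by linarith) ?_ h5 h6), .inl rfl⟩
      push_cast
      linarith [abs_add_le (j : ℝ) j]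
  have D1 : ((Module.finrank ℚ k : ℕ) : ℂ) ≠ 0 := by exact_mod_cast D0.ne'
  have key := hC X (n * (j.natAbs + 1)) (lam ξ) (lam ⇑(ξ ^ 2))
    (fun m => (Module.finrank ℚ k : ℂ)⁻¹ * Lk ξ m) c hX (Nat.mul_pos (by omega) (by omega)) ?_
    (hs' _ h3.norm_le) (hs' _ h5.norm_le) (norm_c_le (hs' _ h5.norm_le) (by norm_num) c1)
    (mono _ _ _ (by positivity) (by nlinarith)
      ((hP n hn).2 _ _ (|(j : ℝ)| + 1) (by linarith) (by linarith) h3 h4)) c1 (fun m _ => ?_)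
    (fun s hs => ⟨?_, ?_⟩) (fun x t x0 x1 => ?_) (c2.imp_right fun h6 ε hε => ?_)
  · rw [← mul_sum, norm_mul, norm_inv, Complex.norm_natCast,
      inv_mul_le_iff₀ (by exact_mod_cast D0)] at key
    have h6 := sqrt_log A (X := X) (by exact_mod_cast hX)
    refine (primes_le h3.norm_le (by omega)).trans ((add_le_add key
      (mul_le_mul_of_nonneg_left (show _ ≤ 2 * ((2 * (A + 1)) ^ (A + 1) * X / Real.log X ^ A) by
        linarith) (Nat.cast_nonneg _))).trans (le_of_eq (by ring)))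
  · rw [hq, mul_comm 3, pow_mul]
    set T := Real.log X ^ B
    calc _ ≤ T * (T + 1) := mul_le_mul h1 (by linarith) (by linarith) (by linarith)
      _ ≤ T * (T * T) := mul_le_mul_of_nonneg_left (by nlinarith) (by linarith)
      _ = _ := by ring
  · rw [norm_mul, norm_inv, Complex.norm_natCast, inv_mul_le_iff₀ (by exact_mod_cast D0)]
    refine (norm_Lk_le h3.norm_le m).trans (mul_le_mul_of_nonneg_left ?_ (Nat.cast_nonneg _))
    linarith [ArithmeticFunction.vonMangoldt_le_log (n := m)]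
  · rw [L_eq_exp h3.norm_le hs]
    exact exp_ne_zero _
  · rw [(deriv_L h3.norm_le hs).deriv]
    have := LSeries_smul (Lk ξ) (Module.finrank ℚ k : ℂ)⁻¹ s
    rw [show (fun m => (Module.finrank ℚ k : ℂ)⁻¹ * Lk ξ m) =
      (Module.finrank ℚ k : ℂ)⁻¹ • Lk ξ from rfl, this, mul_inv_cancel_left₀ D1]
  · have h6 := three41 h3.norm_le x0 t
    have h7 := norm_L_le (hs 1 fun I => by simp) (by linarith) x0 x1
    calc x ^ 3 = x ^ 3 * 1 := (mul_one _).symm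
      _ ≤ x ^ 3 * ((2 * A₂ / x) ^ 3 * ‖LSeries (lam ξ) (1 + x + I * t)‖ ^ 4 *
          ‖LSeries (lam ⇑(ξ ^ 2)) (1 + x + 2 * I * t)‖) := by
        gcongr
        exact h6.trans (by gcongr)
      _ = (2 * A₂) ^ 3 * ‖LSeries (lam ξ) (1 + x + I * t)‖ ^ 4 *
          ‖LSeries (lam ⇑(ξ ^ 2)) (1 + x + 2 * I * t)‖ := by field_simp
      _ ≤ _ := by gcongr
  · have h7 : j + j = 0 := congrFun (hTyp k K k n (fun _ => j + j) 0 0 0 hn (by simp) (by simp)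
      fun α hα => by rw [← h5.prin α hα, h6 _ (cop_span_of_dvd hα), ty_zero]).1 (Algebra.ofId k ℂ)
    obtain rfl : j = 0 := by omega
    obtain ⟨F, F1, F2, F3⟩ := hsg ε hε n ξ (by omega) h3.toIsChar
      (fun a ha => (h3.prin a ha).trans (ty_zero _)) h6 h4
    refine ⟨F, (F1.differentiableAt ((isOpen_lt continuous_const continuous_re).mem_nhds
      (by simp))).continuousAt, F2, ?_⟩
    simpa using F3

end KE

end Pool.Agent.P.MP_b8021b_nt.VC
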