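import Pool.Agent.P.MP_b8021b_nt.VE.PIqb

/-! Gaussian sums of periodic functions on the integers of an imaginary quadratic field. -/

namespace Pool.Agent.P.MP_b8021b_nt.VC.KS

open Real NumberField Finset VE

noncomputable section

theorem th1 (a : ℝ) {x : ℝ} (hx : 0 < x) :
    ∃ S, HasSum (fun m : ℤ => rexp (-π * (m + a) ^ 2 * x)) S ∧ |S * √x - 1| ≤ x := by
  refine ⟨_, HurwitzZeta.hasSum_int_evenKernel a hx, ?_⟩
  have hu : 0 < 1 / x := by positivity
  have hq : rexp (-π * (1 / x)) < 1 := exp_lt_one_iff.2 (by nlinarith [pi_pos])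
  rw [HurwitzZeta.evenKernel_functional_equation, ← sqrt_eq_rpow, mul_right_comm,
    one_div_mul_cancel (sqrt_pos.2 hx).ne', one_mul, ← Real.norm_eq_abs]
  refine (HasSum.norm_le_of_bounded (HurwitzZeta.hasSum_nat_cosKernel₀ a hu)
    ((hasSum_geometric_of_lt_one (exp_pos _).le hq).mul_left (2 * rexp (-π * (1 / x))))
    fun n => ?_).trans ?_
  · rw [norm_mul, norm_mul, Real.norm_two, Real.norm_of_nonneg (exp_pos _).le, mul_assoc,
      mul_assoc (2 : ℝ) (rexp _), ← pow_succ', ← exp_nat_mul]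
    gcongr
    refine (mul_le_of_le_one_left (exp_pos _).le (abs_cos_le_one _)).trans (exp_le_exp.2 ?_)
    have h1 : 0 ≤ π * (1 / x) * (n * (n + 1)) := by positivity
    push_cast
    nlinarith
  · have h1 := add_one_le_exp (π * (1 / x))
    have h2 : rexp (-π * (1 / x)) * rexp (π * (1 / x)) = 1 := by rw [← exp_add]; simp
    have h3 : π * (1 / x) * x = π := by field_simp
    have h4 := exp_pos (-π * (1 / x))
    rw [← div_eq_mul_inv, div_le_iff₀ (by linarith)]
    nlinarith [pi_gt_three, mul_le_mul_of_nonneg_left h1 (mul_pos h4 hx).le]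

/-- periodic modulo `K` -/
def Per (K : ℕ) (f : ℤ × ℤ → ℂ) : Prop := ∀ z u : ℤ × ℤ, f (z + (K : ℤ) • u) = f z

/-- the sum over a period -/
def tot (K : ℕ) [NeZero K] (f : ℤ × ℤ → ℂ) : ℂ :=
  ∑ j : ZMod K × ZMod K, f (j.1.val, j.2.val)

variable {K : ℕ} [NeZero K] {f : ℤ × ℤ → ℂ}

omit [NeZero K] in
theorem Per.eq (h : Per K f) {z z' : ℤ × ℤ} (h1 : (z.1 : ZMod K) = z'.1)
    (h2 : (z.2 : ZMod K) = z'.2) : f z = f z' := by
  obtain ⟨u, hu⟩ := ((ZMod.intCast_eq_intCast_iff_dvd_sub _ _ _).1 h1)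
  obtain ⟨v, hv⟩ := ((ZMod.intCast_eq_intCast_iff_dvd_sub _ _ _).1 h2)
  rw [← h z (u, v)]
  congr 1
  ext <;> simp <;> linarith

theorem Per.tot_shift (h : Per K f) (v : ℤ × ℤ) : tot K (fun z => f (z + v)) = tot K f :=
  Fintype.sum_equiv (Equiv.addRight ((v.1 : ZMod K), (v.2 : ZMod K))) _ _ fun j =>
    h.eq (by simp) (by simp)

theorem per2 (h : Per K f) (hb : ∀ z, ‖f z‖ ≤ 1) {x y : ℝ} (hx : 0 < x) (hy : 0 < y) :
    ∃ S, HasSum (fun z : ℤ × ℤ => f z * rexp (-π * (z.1 ^ 2 * x + z.2 ^ 2 * y))) S ∧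
      ‖S - tot K f / (K ^ 2 * (√x * √y) : ℝ)‖ ≤ (K ^ 2 * (x + y) + K ^ 4 * (x * y)) / (√x * √y) := by
  classical
  have hK : (0 : ℝ) < K := Nat.cast_pos.2 (NeZero.pos K)
  have hK' : (K : ℤ) ≠ 0 := Nat.cast_ne_zero.2 (NeZero.ne K)
  choose S h1 h2 using fun j : ZMod K => th1 (j.val / K) (show 0 < K ^ 2 * x by positivity)
  choose T h3 h4 using fun j : ZMod K => th1 (j.val / K) (show 0 < K ^ 2 * y by positivity)
  have hs : 0 < √x * √y := by positivity
  refine ⟨∑ j : ZMod K × ZMod K, f (j.1.val, j.2.val) * (S j.1 * T j.2 : ℝ), ?_, ?_⟩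
  · have key : ∀ j : ZMod K × ZMod K, HasSum (fun z : ℤ × ℤ =>
        if ((z.1 : ZMod K), (z.2 : ZMod K)) = j then
          f z * rexp (-π * (z.1 ^ 2 * x + z.2 ^ 2 * y)) else 0)
        (f (j.1.val, j.2.val) * (S j.1 * T j.2 : ℝ)) := fun j => by
      have hi : Function.Injective fun q : ℤ × ℤ => ((j.1.val, j.2.val) : ℤ × ℤ) + (K : ℤ) • q :=
        (add_right_injective _).comp (smul_right_injective _ hK')
      rw [← hi.hasSum_iff fun z hz => if_neg fun e => hz ?_]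
      · have h5 := Complex.hasSum_ofReal.2 ((h1 j.1).mul (h3 j.2) ((h1 j.1).summable.mul_of_nonneg
          (h3 j.2).summable (fun _ => (exp_pos _).le) fun _ => (exp_pos _).le))
        refine (h5.mul_left _).congr_fun fun q => ?_
        rw [Function.comp, if_pos (by ext <;> simp), h, ← exp_add]
        congr 3
        simp only [Prod.fst_add, Prod.snd_add, Prod.smul_fst, Prod.smul_snd, smul_eq_mul]
        push_cast
        field_simp
        ring
      · subst e
        refine ⟨(z.1 / K, z.2 / K), ?_⟩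
        ext <;> simp only [ZMod.val_intCast, Prod.fst_add, Prod.snd_add, Prod.smul_fst,
          Prod.smul_snd, smul_eq_mul, Int.emod_add_mul_ediv]
    simpa using hasSum_sum fun j (_ : j ∈ univ) => key j
  · simp only [sqrt_mul (sq_nonneg _), sqrt_sq hK.le] at h2 h4
    have key : ∀ j : ZMod K × ZMod K, |S j.1 * T j.2 - 1 / (K ^ 2 * (√x * √y))| ≤
        (K ^ 2 * (x + y) + K ^ 4 * (x * y)) / (K ^ 2 * (√x * √y)) := fun j => by
      have e : S j.1 * T j.2 - 1 / (K ^ 2 * (√x * √y)) = ((S j.1 * (K * √x) - 1) +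
          (T j.2 * (K * √y) - 1) + (S j.1 * (K * √x) - 1) * (T j.2 * (K * √y) - 1)) /
            (K ^ 2 * (√x * √y)) := by
        field_simp
        ring
      rw [e, abs_div, abs_of_pos (show 0 < (K : ℝ) ^ 2 * (√x * √y) by positivity)]
      gcongr
      refine (abs_add_three _ _ _).trans ?_
      rw [abs_mul]
      nlinarith [h2 j.1, h4 j.2, mul_le_mul (h2 j.1) (h4 j.2) (abs_nonneg _) (by positivity)]
    rw [tot, sum_div, ← sum_sub_distrib]
    refine (norm_sum_le_of_le _ fun j _ => (?_ : _ ≤ (K ^ 2 * (x + y) + K ^ 4 * (x * y)) /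
      (K ^ 2 * (√x * √y)))).trans_eq ?_
    · rw [div_eq_mul_one_div, ← mul_sub, norm_mul, ← Complex.ofReal_one, ← Complex.ofReal_div,
        ← Complex.ofReal_sub, Complex.norm_real]
      exact (mul_le_of_le_one_left (norm_nonneg _) (hb _)).trans (key j)
    · rw [sum_const, card_univ, Fintype.card_prod, ZMod.card, nsmul_eq_mul]
      push_cast
      field_simp

variable {L : Type} [Field L] [NumberField L]

/-- periodic modulo `M` and bounded by one -/
def PO (M : ℕ) (φ : 𝓞 L → ℂ) : Prop := (∀ β u, φ (β + M * u) = φ β) ∧ ∀ β, ‖φ β‖ ≤ 1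

theorem latK (K : IQ L) : ∃ C : ℝ, 1 ≤ C ∧ ∀ M : ℕ, M ≠ 0 → ∃ m : (𝓞 L → ℂ) →ₗ[ℂ] ℂ,
    ∀ φ, PO M φ → (∀ γ, m (fun β => φ (β + γ)) = m φ) ∧ ∀ s : ℝ, 0 < s → s ≤ 1 →
      ∃ S, HasSum (fun β => φ β * rexp (-(s * ‖K.σ β‖ ^ 2))) S ∧ ‖S - m φ / s‖ ≤ C * M ^ 4 := by
  obtain ⟨h1, h2, -, h4, -⟩ := p_iqb L K
  choose a b hab using h1
  obtain ⟨N, hN⟩ := Int.eq_ofNat_of_zero_le (show 0 ≤ -(2 * K.D) by linarith [K.neg])
  have hD : (1 : ℝ) ≤ -K.D := by exact_mod_cast (show 1 ≤ -K.D by linarith [K.neg])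
  have hN' : (N : ℝ) = 2 * -K.D := by rw [mul_neg]; exact_mod_cast hN.symm
  have hN0 : (2 * K.D : 𝓞 L) ≠ 0 := by exact_mod_cast (show 2 * K.D ≠ 0 by linarith [K.neg])
  have hNO : (N : 𝓞 L) = -(2 * K.D) := by exact_mod_cast congrArg (Int.cast : ℤ → 𝓞 L) hN.symm
  set e : 𝓞 L → ℤ × ℤ := fun β => (a β, b β) with he
  have e1 : ∀ β z, e β = z ↔ 2 * K.D * β = z.1 + z.2 * K.ω := fun β z =>
    ⟨fun h => h ▸ hab β, fun h => by
      obtain ⟨h5, h6⟩ := h2 (a β - z.1) (b β - z.2) (by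
        push_cast
        linear_combination h - hab β)
      exact Prod.ext (sub_eq_zero.1 h5) (sub_eq_zero.1 h6)⟩
  have hi : Function.Injective e := fun β β' h =>
    mul_left_cancel₀ hN0 (((e1 β _).1 h).trans (hab β').symm)
  have e2 : ∀ (φ : 𝓞 L → ℂ) γ z, Function.extend e φ 0 (z + e γ) =
      Function.extend e (fun β => φ (β + γ)) 0 z := fun φ γ z => by
    by_cases h : ∃ β, e β = z
    · obtain ⟨β, rfl⟩ := h
      rw [← (e1 (β + γ) (e β + e γ)).2 (by
        simp only [he, Prod.fst_add, Prod.snd_add]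
        push_cast
        linear_combination hab β + hab γ), hi.extend_apply, hi.extend_apply]
    · rw [Function.extend_apply' _ _ _ h, Function.extend_apply']
      · rfl
      · rintro ⟨β, h5⟩
        refine h ⟨β - γ, (e1 _ _).2 ?_⟩
        have h6 := (e1 _ _).1 h5
        simp only [he, Prod.fst_add, Prod.snd_add] at h6
        push_cast at h6
        linear_combination h6 - hab γ
  refine ⟨N ^ 2 * (1 + 2 * -K.D), by nlinarith, fun M hM => ?_⟩
  have hM' : (1 : ℝ) ≤ M := by exact_mod_cast Nat.one_le_iff_ne_zero.2 hM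
  have : NeZero (N * M) := ⟨mul_ne_zero (by rintro rfl; simp at hN'; linarith [K.neg]) hM⟩
  refine ⟨⟨⟨fun φ => tot (N * M) (Function.extend e φ 0) * (π / (M ^ 2 * √(-K.D)) : ℝ),
    fun φ ψ => ?_⟩, fun r φ => ?_⟩, fun φ hφ => ?_⟩
  · rw [← add_mul, tot, tot, tot, ← sum_add_distrib, ← add_zero (0 : ℤ × ℤ → ℂ),
      Function.extend_add, add_zero]
    rfl
  · have h5 := Function.extend_smul r e φ 0
    rw [smul_zero] at h5
    simp only [h5, tot, RingHom.id_apply, smul_eq_mul, Pi.smul_apply, ← mul_sum, mul_assoc]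
  have hP : Per (N * M) (Function.extend e φ 0) := fun z u => by
    rw [← (e1 (M * -(u.1 + u.2 * K.ω)) (((N * M : ℕ) : ℤ) • u)).2 (by
      simp only [Prod.smul_fst, Prod.smul_snd, smul_eq_mul]
      push_cast
      rw [hNO]
      ring), e2]
    simp only [hφ.1]
  refine ⟨fun γ => ?_, fun s s0 s1 => ?_⟩
  · simp only [LinearMap.coe_mk, AddHom.coe_mk]
    rw [← hP.tot_shift (e γ)]
    simp only [tot, e2]
  have hN2 : (0 : ℝ) < N := by linarith
  have hd : 1 ≤ √(-K.D : ℝ) := one_le_sqrt.2 hD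
  obtain ⟨S, a1, a2⟩ := per2 hP (fun z => by
      by_cases h : ∃ β, e β = z
      · obtain ⟨β, rfl⟩ := h
        rw [hi.extend_apply]
        exact hφ.2 β
      · rw [Function.extend_apply' _ _ _ h]
        simp) (x := s / (π * N ^ 2)) (y := s / (π * N ^ 2) * -K.D) (by positivity) (by positivity)
  rw [sqrt_mul (by positivity), ← mul_assoc (√_), mul_self_sqrt (by positivity)] at a2
  refine ⟨S, ((hi.hasSum_iff fun z hz => ?_).2 a1).congr_fun fun β => ?_, ?_⟩
  · rw [Function.extend_apply' _ _ _ hz]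
    simp
  · have h5 := h4 (a β) (b β)
    rw [← hab, ← neg_neg (2 * K.D : 𝓞 L), ← hNO] at h5
    simp only [map_mul, map_neg, map_natCast, norm_mul, norm_neg,
      Complex.norm_natCast, mul_pow] at h5
    rw [Function.comp, hi.extend_apply]
    congr 3
    simp only [he]
    field_simp
    linear_combination -h5
  · rw [LinearMap.coe_mk, AddHom.coe_mk, mul_div_assoc, ← Complex.ofReal_div, show
      π / (M ^ 2 * √(-K.D)) / s = 1 / (((N * M : ℕ) : ℝ) ^ 2 * (s / (π * N ^ 2) * √(-K.D))) by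
        push_cast; field_simp, Complex.ofReal_div, Complex.ofReal_one, mul_one_div]
    refine a2.trans ?_
    rw [div_le_iff₀ (by positivity)]
    push_cast
    have h5 : (M : ℝ) ^ 2 ≤ M ^ 4 := pow_le_pow_right₀ hM' (by norm_num)
    have h6 : s / π ≤ 1 := (div_le_one pi_pos).2 (by linarith [pi_gt_three])
    calc _ = s / π * (M ^ 2 * (1 + -K.D) + M ^ 4 * -K.D * (s / π)) := by field_simp
      _ ≤ s / π * (M ^ 4 * (1 + -K.D) + M ^ 4 * -K.D * 1) := by gcongr
      _ ≤ s / π * (M ^ 4 * (1 + -K.D) + M ^ 4 * -K.D * 1) * √(-K.D) :=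
        le_mul_of_one_le_right (by positivity) hd
      _ = _ := by field_simp; ring

end

end Pool.Agent.P.MP_b8021b_nt.VC.KS
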