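import Pool.Agent.P.MP_b8021b_nt.VC.KS1

/-! Theta series of ray class characters of an imaginary quadratic field. -/

namespace Pool.Agent.P.MP_b8021b_nt.VC.KS

open Real NumberField Finset VE Ideal
open scoped Classical nonZeroDivisors

noncomputable section

variable {L : Type} [Field L] [NumberField L] {n : ℕ} {χ : Ideal (𝓞 L) →* ℂ}
  {c A : Ideal (𝓞 L)} {β : 𝓞 L}

/-- a ray class character of finite order -/
def T0 (n : ℕ) (χ : Ideal (𝓞 L) →* ℂ) : Prop :=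
  IsChar n χ ∧ ∀ α : 𝓞 L, (n : 𝓞 L) ∣ α - 1 → χ (span {α}) = 1

/-- the value at the quotient of `(β)` by `c` -/
def hq (χ : Ideal (𝓞 L) →* ℂ) (c : Ideal (𝓞 L)) (β : 𝓞 L) : ℂ :=
  if h : c ∣ span {β} then χ h.choose else 0

theorem hq_eq (hc : c ≠ ⊥) (h : span {β} = c * A) : hq χ c β = χ A := by
  rw [hq, dif_pos ⟨A, h⟩, mul_left_cancel₀ hc ((Dvd.intro A h.symm).choose_spec.symm.trans h)]

theorem hq_zero (h : β ∉ c) : hq χ c β = 0 :=
  dif_neg fun a => h ((span_singleton_le_iff_mem _).1 (dvd_iff_le.1 a))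

omit [NumberField L] in
theorem norm_le (h : IsChar n χ) (A : Ideal (𝓞 L)) : ‖χ A‖ ≤ 1 := by
  by_cases a : Cop n A
  · exact (h.norm_cop A a).le
  · simp [h.zero A a]

theorem quo (h : β ∈ c) : ∃ A, span {β} = c * A :=
  dvd_iff_le.2 ((span_singleton_le_iff_mem _).2 h)

theorem hq_per0 (h : T0 n χ) (hc : c ≠ ⊥) {γ : 𝓞 L} (hγ : γ ∈ c) (h0 : hq χ c β ≠ 0) :
    hq χ c (β + n * γ) = hq χ c β := by
  have hβ : β ∈ c := by_contra fun a => h0 (hq_zero a)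
  obtain ⟨A, hA⟩ := quo hβ
  obtain ⟨A', hA'⟩ := quo (c.add_mem hβ (c.mul_mem_left n hγ))
  rw [hq_eq hc hA] at h0
  have h1 : Cop n A := by_contra fun a => h0 (h.1.zero A a)
  obtain ⟨m, hm, c', h2⟩ : ∃ m : 𝓞 L, m ≠ 0 ∧ ∃ c', span {m} = c * c' :=
    ⟨_, Nat.cast_ne_zero.2 (absNorm_eq_zero_iff.not.2 hc), quo (absNorm_mem c)⟩
  have h3 : m ∈ span {β} * c' ⊔ span {(n : 𝓞 L)} * span {m} := by
    rw [hA, h2, mul_right_comm, mul_comm (span _), ← Ideal.mul_sup, isCoprime_iff_sup_eq.1 h1,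
      mul_top, ← h2]
    exact mem_span_singleton_self m
  obtain ⟨x, hx, y, hy, h4⟩ := Submodule.mem_sup.1 h3
  obtain ⟨g, hg, rfl⟩ := mem_span_singleton_mul.1 hx
  rw [span_singleton_mul_span_singleton, mem_span_singleton'] at hy
  obtain ⟨u, rfl⟩ := hy
  obtain ⟨v, hv⟩ := mem_span_singleton'.1 (h2 ▸ mul_mem_mul hγ hg : γ * g ∈ span {m})
  obtain ⟨D, hD⟩ := quo hg
  have key : ∀ (b α : 𝓞 L) (B : Ideal (𝓞 L)), span {b} = c * B → α * m = b * g →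
      (n : 𝓞 L) ∣ α - 1 → χ B * χ D = 1 := fun b α B a1 a2 a3 => by
    rw [← map_mul, ← h.2 α a3]
    congr 1
    refine mul_right_cancel₀ (span_singleton_eq_bot.not.2 hm) ?_
    rw [span_singleton_mul_span_singleton, a2, ← span_singleton_mul_span_singleton, a1, hD, h2]
    ring
  have h5 := key β (1 - n * u) A hA (by linear_combination -h4) ⟨-u, by ring⟩
  have h6 := key _ (1 - n * u + n * v) A' hA' (by linear_combination -h4 + n * hv) ⟨v - u, by ring⟩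
  rw [hq_eq hc hA, hq_eq hc hA']
  exact mul_right_cancel₀ (right_ne_zero_of_mul_eq_one h5) (h6.trans h5.symm)

theorem hq_per (h : T0 n χ) (hc : c ≠ ⊥) {γ : 𝓞 L} (hγ : γ ∈ c) (β : 𝓞 L) :
    hq χ c (β + n * γ) = hq χ c β := by
  by_cases h0 : hq χ c β = 0
  · by_contra h1
    have h2 := hq_per0 h hc (c.neg_mem hγ) (h0 ▸ h1)
    rw [mul_neg, add_neg_cancel_right] at h2
    exact h1 h2.symm
  · exact hq_per0 h hc hγ h0

theorem hq_po (h : T0 n χ) (hc : c ≠ ⊥) {M : ℕ} (hM : n * absNorm c ∣ M) : PO M (hq χ c) := by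
  obtain ⟨v, rfl⟩ := hM
  refine ⟨fun β u => ?_, fun β => ?_⟩
  · rw [← hq_per h hc (c.mul_mem_right (v * u) (absNorm_mem c)) β]
    congr 1
    push_cast
    ring
  · unfold hq
    split_ifs
    · exact norm_le h.1 _
    · simp

/-- the term of the theta series -/
def tm (χ : Ideal (𝓞 L) →* ℂ) (t : ℝ) (A : Ideal (𝓞 L)) : ℂ :=
  if A = ⊥ then 0 else χ A * rexp (-(t * absNorm A))

theorem cls (K : IQ L) (hc : c ≠ ⊥) {t : ℝ} {S : ℂ}
    (h : HasSum (fun β => hq χ c β * rexp (-(t / absNorm c * ‖K.σ β‖ ^ 2))) S) :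
    HasSum (fun A => if (c * A).IsPrincipal then tm χ t A else 0) ((S - χ ⊥) / wu L) := by
  obtain ⟨-, -, h3, -, -, -, hf, -⟩ := p_iqb L K
  have := Fintype.ofFinite (𝓞 L)ˣ
  have hw : (wu L : ℂ) ≠ 0 := Nat.cast_ne_zero.2 Nat.card_pos.ne'
  have hN : (absNorm c : ℝ) ≠ 0 := Nat.cast_ne_zero.2 (absNorm_eq_zero_iff.not.2 hc)
  have h0 := hasSum_ite_sub_hasSum h 0
  rw [hq_eq hc (A := ⊥) (by simp)] at h0
  let P := {A : Ideal (𝓞 L) // A ≠ ⊥ ∧ (c * A).IsPrincipal}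
  choose g hg using fun A : P => A.2.2.principal
  have e1 : ∀ z : P × (𝓞 L)ˣ, span {g z.1 * z.2} = c * z.1 := fun z => by
    rw [span_singleton_mul_right_unit z.2.isUnit, hg]
  have e2 : ∀ z : P × (𝓞 L)ˣ, g z.1 * z.2 ≠ 0 := fun z =>
    span_singleton_eq_bot.not.1 (e1 z ▸ mul_ne_zero hc z.1.2.1)
  have hi : Function.Injective fun z : P × (𝓞 L)ˣ => g z.1 * z.2 := by
    rintro ⟨A, u⟩ ⟨B, v⟩ e
    obtain rfl : A = B := Subtype.ext (mul_left_cancel₀ hc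
      ((e1 (A, u)).symm.trans ((congrArg (fun x => span {x}) e).trans (e1 (B, v)))))
    exact congrArg _ (Units.ext (mul_left_cancel₀ (left_ne_zero_of_mul (e2 (A, u))) e))
  rw [← hi.hasSum_iff fun β hβ => ?_] at h0
  · have h1 := (h0.prod_fiberwise fun A => hasSum_fintype _).div_const (wu L)
    simp only [map_zero, norm_zero, ne_eq, OfNat.ofNat_ne_zero, not_false_eq_true, zero_pow,
      mul_zero, neg_zero, exp_zero, Complex.ofReal_one, mul_one] at h1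
    refine (Subtype.val_injective.hasSum_iff fun A hA => ?_).1 (h1.congr_fun fun A => ?_)
    · split_ifs with a
      · exact if_pos (by_contra fun b => hA ⟨⟨A, b, a⟩, rfl⟩)
      · rfl
    · rw [Function.comp, if_pos A.2.2, tm, if_neg A.2.1, eq_div_iff hw, wu, Nat.card_eq_fintype_card,
        ← card_univ, mul_comm, ← nsmul_eq_mul, ← sum_const]
      refine sum_congr rfl fun u _ => ?_
      rw [Function.comp, if_neg (e2 (A, u)), hq_eq hc (e1 (A, u)), ← h3, e1 (A, u), map_mul]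
      congr 3
      push_cast
      field_simp
  · split_ifs with a
    · rfl
    rw [hq_zero fun b => hβ ?_, zero_mul]
    obtain ⟨A, hA⟩ := quo b
    let A' : P := ⟨A, by rintro rfl; simp [a] at hA, hA ▸ inferInstance⟩
    obtain ⟨u, hu⟩ := span_singleton_eq_span_singleton.1 ((hg A').symm.trans hA.symm)
    exact ⟨(A', u), hu⟩

theorem sys (K : IQ L) : ∃ C : ℝ, 1 ≤ C ∧ ∀ M : ℕ, M ≠ 0 → ∃ m : (𝓞 L → ℂ) →ₗ[ℂ] ℂ,
    (∀ φ, PO M φ → ∀ γ, m (fun β => φ (β + γ)) = m φ) ∧ ∀ (n : ℕ) (χ : Ideal (𝓞 L) →* ℂ)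
      (c : ClassGroup (𝓞 L) → (Ideal (𝓞 L))⁰) (x : ClassGroup (𝓞 L)), T0 n χ →
      (∀ i, ClassGroup.mk0 (c i) = i * x) → (∀ i, n * absNorm (c i).1 ∣ M) →
      ∀ t : ℝ, 0 < t → t ≤ 1 → ∃ S, HasSum (tm χ t) S ∧
        ‖S - (∑ i, m (hq χ (c i)) * absNorm (c i).1 / wu L) / t‖ ≤ C * M ^ 4 := by
  obtain ⟨C, C1, hC⟩ := latK K
  obtain ⟨-, -, -, -, -, -, hf, -⟩ := p_iqb L K
  have hw : (1 : ℝ) ≤ wu L := Nat.one_le_cast.2 Nat.card_pos
  have hh : (1 : ℝ) ≤ Fintype.card (ClassGroup (𝓞 L)) := Nat.one_le_cast.2 Fintype.card_pos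
  refine ⟨Fintype.card (ClassGroup (𝓞 L)) * (C + 1), by nlinarith, fun M hM => ?_⟩
  obtain ⟨m, hm⟩ := hC M hM
  refine ⟨m, fun φ h => (hm φ h).1, fun n χ c x h h1 h2 t t0 t1 => ?_⟩
  have hc : ∀ i, (c i).1 ≠ ⊥ := fun i => nonZeroDivisors.coe_ne_zero _
  have hN : ∀ i, (1 : ℝ) ≤ absNorm (c i).1 := fun i =>
    Nat.one_le_cast.2 (Nat.pos_of_ne_zero (absNorm_eq_zero_iff.not.2 (hc i)))
  choose S a1 a2 using fun i => (hm _ (hq_po h (hc i) (h2 i))).2 (t / absNorm (c i).1)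
    (div_pos t0 (by linarith [hN i])) ((div_le_one (by linarith [hN i])).2 (t1.trans (hN i)))
  refine ⟨_, (hasSum_sum fun i (_ : i ∈ univ) => cls K (hc i) (a1 i)).congr_fun fun A => ?_, ?_⟩
  · by_cases hA : A = ⊥
    · simp [tm, hA]
    have hA' := mem_nonZeroDivisors_of_ne_zero hA
    have key : ∀ i, ((c i).1 * A).IsPrincipal ↔ i = (x * ClassGroup.mk0 ⟨A, hA'⟩)⁻¹ := fun i => by
      rw [← ClassGroup.mk0_eq_one_iff (mul_mem (c i).2 hA'), eq_inv_iff_mul_eq_one, ← mul_assoc,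
        ← h1, ← map_mul]
      rfl
    simp [key]
  · rw [sum_div, ← sum_sub_distrib]
    refine (norm_sum_le_of_le _ fun i _ => (?_ : _ ≤ (C + 1) * M ^ 4)).trans_eq
      (by rw [sum_const, card_univ, nsmul_eq_mul, mul_assoc])
    have h3 : (1 : ℝ) ≤ M ^ 4 := one_le_pow₀ (Nat.one_le_cast.2 (Nat.pos_of_ne_zero hM))
    rw [show (S i - χ ⊥) / wu L - m (hq χ (c i)) * absNorm (c i).1 / wu L / t =
      (S i - m (hq χ (c i)) / (t / absNorm (c i).1 : ℝ) - χ ⊥) / wu L by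
        push_cast; rw [div_div_eq_mul_div]; ring, norm_div, Complex.norm_natCast]
    refine (div_le_self (norm_nonneg _) hw).trans ((norm_sub_le _ _).trans ?_)
    linarith [a2 i, norm_le h.1 ⊥]

theorem shift {M : ℕ} {m : (𝓞 L → ℂ) →ₗ[ℂ] ℂ}
    (hm : ∀ φ, PO M φ → ∀ γ, m (fun β => φ (β + γ)) = m φ) (h : T0 n χ) (hc : c ≠ ⊥) (hA : A ≠ ⊥)
    (h1 : Cop n A) (hM : n * absNorm (c * A) ∣ M) :
    m (hq χ c) = absNorm A * (χ A * m (hq χ (c * A))) := by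
  obtain ⟨a, ha⟩ := IsDedekindDomain.exists_sup_span_eq (mul_le_left (I := c) (J := A))
    (mul_ne_zero hc hA)
  obtain ⟨x, hx, y, hy, h2⟩ := Submodule.mem_sup.1
    (isCoprime_iff_sup_eq.1 h1 ▸ Submodule.mem_top : (1 : 𝓞 L) ∈ A ⊔ span {(n : 𝓞 L)})
  obtain ⟨v, rfl⟩ := mem_span_singleton'.1 hy
  have h3 : a ∈ c := ha ▸ mem_sup_right (mem_span_singleton_self a)
  have := (finiteQuotientOfFreeOfNeBot A hA)
  have := Fintype.ofFinite (𝓞 L ⧸ A)
  have key : hq χ c = ∑ q : 𝓞 L ⧸ A,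
      fun β => χ A * hq χ (c * A) (β + n * -(q.out * v * a)) := by
    funext β
    have h4 : ∀ q : 𝓞 L ⧸ A, -(q.out * v * a) ∈ c := fun q => c.neg_mem (c.mul_mem_left _ h3)
    rw [Finset.sum_apply]
    by_cases hβ : β ∈ c
    · obtain ⟨z, hz, y, hy, rfl⟩ := Submodule.mem_sup.1 (ha.ge hβ)
      obtain ⟨r, rfl⟩ := mem_span_singleton'.1 hy
      have h5 : ∀ q : 𝓞 L ⧸ A, z + r * a + n * -(q.out * v * a) =
          z + a * (q.out * x) + a * (r - q.out) := fun q => by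
        linear_combination (-q.out * a) * h2
      have h6 := fun q : 𝓞 L ⧸ A => (c * A).add_mem hz (mul_mem_mul h3 (A.mul_mem_left q.out hx))
      rw [sum_eq_single (Ideal.Quotient.mk A r) (fun q _ hq => ?_) (by simp)]
      · obtain ⟨B, hB⟩ := quo (h5 _ ▸ (c * A).add_mem (h6 (Ideal.Quotient.mk A r))
          (mul_mem_mul h3 (Ideal.Quotient.eq.1 (Ideal.Quotient.mk_out _).symm)))
        rw [hq_eq (mul_ne_zero hc hA) hB, ← map_mul, ← hq_eq hc (hB.trans (mul_assoc _ _ _)),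
          hq_per h hc (h4 _)]
      · rw [hq_zero fun b => hq ?_, mul_zero]
        rw [h5, (c * A).add_mem_iff_right (h6 q)] at b
        have h7 : c * span {r - q.out} ≤ c * A := by
          conv_lhs => rw [← ha, Ideal.sup_mul, span_singleton_mul_span_singleton]
          exact sup_le mul_le_left ((span_singleton_le_iff_mem _).2 b)
        rw [← dvd_iff_le, mul_dvd_mul_iff_left hc, dvd_iff_le, span_singleton_le_iff_mem] at h7
        rw [Ideal.Quotient.eq.2 h7, Ideal.Quotient.mk_out]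
    · rw [hq_zero hβ]
      refine (sum_eq_zero fun q _ => ?_).symm
      rw [hq_zero fun b => hβ ?_, mul_zero]
      exact (c.add_mem_iff_left (c.mul_mem_left n (h4 q))).1 (mul_le_left b)
  rw [key, map_sum, absNorm_apply, Submodule.cardQuot_apply, Nat.card_eq_fintype_card, ← card_univ,
    ← nsmul_eq_mul, ← sum_const]
  refine sum_congr rfl fun q _ => ?_
  rw [← hm _ (hq_po h (mul_ne_zero hc hA) hM) (n * -(q.out * v * a))]
  exact m.map_smul (χ A) _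

theorem uniq {F : ℝ → ℂ} {a b : ℂ} {B B' : ℝ} (h : ∀ t : ℝ, 0 < t → t ≤ 1 → ‖F t - a / t‖ ≤ B)
    (h' : ∀ t : ℝ, 0 < t → t ≤ 1 → ‖F t - b / t‖ ≤ B') : a = b := by
  refine sub_eq_zero.1 (norm_le_zero_iff.1 (le_of_forall_pos_le_add fun ε hε => ?_))
  have h0 : 0 ≤ B + B' := add_nonneg ((norm_nonneg _).trans (h 1 one_pos le_rfl))
    ((norm_nonneg _).trans (h' 1 one_pos le_rfl))
  have h1 : 0 < ε / (ε + (B + B')) := by positivity
  have h2 : ε / (ε + (B + B')) ≤ 1 := (div_le_one (by positivity)).2 (by linarith)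
  have h3 := (norm_sub_le _ _).trans (add_le_add (h' _ h1 h2) (h _ h1 h2))
  rw [sub_sub_sub_cancel_left, ← sub_div, norm_div, Complex.norm_real, Real.norm_of_nonneg h1.le,
    div_le_iff₀ h1, mul_div_assoc', le_div_iff₀ (by positivity)] at h3
  nlinarith [norm_nonneg (a - b)]

theorem thK (K : IQ L) : ∃ C : ℝ, 1 ≤ C ∧ ∀ (n : ℕ) (χ : Ideal (𝓞 L) →* ℂ), n ≠ 0 → T0 n χ →
    ∃ a : ℂ, (¬ IsTriv n χ → a = 0) ∧ ∀ t : ℝ, 0 < t → t ≤ 1 →
      ∃ S, HasSum (tm χ t) S ∧ ‖S - a / t‖ ≤ C * n ^ 4 := by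
  obtain ⟨C, C1, hC⟩ := sys K
  choose c hc using ClassGroup.mk0_surjective (R := 𝓞 L)
  have hN : ∀ I : (Ideal (𝓞 L))⁰, absNorm I.1 ≠ 0 := fun I =>
    absNorm_eq_zero_iff.not.2 (nonZeroDivisors.coe_ne_zero _)
  set P := ∏ i, absNorm (c i).1 with hP
  have P0 : P ≠ 0 := prod_ne_zero_iff.2 fun i _ => hN _
  have hd : ∀ i, absNorm (c i).1 ∣ P := fun i => dvd_prod_of_mem _ (mem_univ i)
  refine ⟨C * P ^ 4, one_le_mul_of_one_le_of_one_le C1
    (one_le_pow₀ (Nat.one_le_cast.2 (Nat.pos_of_ne_zero P0))), fun n χ hn h => ?_⟩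
  obtain ⟨m, -, h1⟩ := hC (n * P) (mul_ne_zero hn P0)
  have h2 := h1 n χ c 1 h (fun i => by rw [hc, mul_one]) fun i => mul_dvd_mul_left n (hd i)
  refine ⟨_, fun h3 => ?_, fun t t0 t1 => (h2 t t0 t1).imp fun S a => ⟨a.1, a.2.trans_eq (by
    push_cast; ring)⟩⟩
  obtain ⟨A, a1, a2⟩ : ∃ A, Cop n A ∧ χ A ≠ 1 := by simpa [IsTriv] using h3
  have hA : A ≠ ⊥ := by
    rintro rfl
    refine h3 fun I _ => mul_left_cancel₀ (norm_ne_zero_iff.1 ((h.1.norm_cop _ a1).trans_ne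
      one_ne_zero)) ?_
    rw [← map_mul, bot_mul, mul_one]
  let A' : (Ideal (𝓞 L))⁰ := ⟨A, mem_nonZeroDivisors_of_ne_zero hA⟩
  obtain ⟨m', h4, h5⟩ := hC (n * (P * absNorm A)) (mul_ne_zero hn (mul_ne_zero P0 (hN A')))
  have h6 : ∀ i, n * absNorm (c i * A').1 ∣ n * (P * absNorm A) := fun i =>
    mul_dvd_mul_left n (by rw [Submonoid.coe_mul, map_mul]; exact mul_dvd_mul_right (hd i) _)
  have h7 := h5 n χ c 1 h (fun i => by rw [hc, mul_one]) fun i =>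
    mul_dvd_mul_left n ((hd i).mul_right _)
  have h8 := h5 n χ (fun i => c i * A') (ClassGroup.mk0 A') h (fun i => by rw [map_mul, hc]) h6
  have u : ∀ {a b : ℂ} {B B' : ℝ},
      (∀ t : ℝ, 0 < t → t ≤ 1 → ∃ S, HasSum (tm χ t) S ∧ ‖S - a / t‖ ≤ B) →
      (∀ t : ℝ, 0 < t → t ≤ 1 → ∃ S, HasSum (tm χ t) S ∧ ‖S - b / t‖ ≤ B') → a = b :=
    fun a b => uniq (F := fun t => ∑' A, tm χ t A)
      (fun t t0 t1 => let ⟨_, a1, a2⟩ := a t t0 t1; a1.tsum_eq ▸ a2)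
      fun t t0 t1 => let ⟨_, a1, a2⟩ := b t t0 t1; a1.tsum_eq ▸ a2
  rw [u h2 h8]
  refine eq_zero_of_mul_eq_self_left a2 (Eq.trans ?_ (u h7 h8))
  rw [mul_sum]
  refine sum_congr rfl fun i _ => ?_
  rw [shift h4 h (nonZeroDivisors.coe_ne_zero (c i)) hA a1 (h6 i), Submonoid.coe_mul, map_mul]
  push_cast
  ring

end

end Pool.Agent.P.MP_b8021b_nt.VC.KS
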