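import Pool.Agent.P.MP_b8021b_nt.VC.StC

/-! Base change of a curve: a basis indexed by pole orders and the weight on a based algebra. -/

namespace Pool.Agent.P.MP_b8021b_nt.VC.BC

open Finset
open scoped Classical

section A

variable {F A : Type} [Field F] [CommRing A] [Algebra F A] (cv : Cv F A)

lemma del_zero : cv.δ 0 = 0 := by
  have := cv.const 0
  rwa [map_zero] at this

lemma smul_ne {c : F} (hc : c ≠ 0) {f : A} (hf : f ≠ 0) : c • f ≠ 0 := by
  intro h
  apply hf
  have : c⁻¹ • (c • f) = 0 := by rw [h, smul_zero]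
  rwa [smul_smul, inv_mul_cancel₀ hc, one_smul] at this

lemma del_smul {c : F} (hc : c ≠ 0) (f : A) : cv.δ (c • f) = cv.δ f := by
  have := cv.ded
  by_cases hf : f = 0
  · rw [hf, smul_zero]
  have h1 : algebraMap F A c ≠ 0 := by
    rw [Algebra.algebraMap_eq_smul_one]
    exact smul_ne hc one_ne_zero
  rw [Algebra.smul_def, cv.mul _ _ h1 hf, cv.const, zero_add]

lemma del_add {f g : A} (h : cv.δ f < cv.δ g) : cv.δ (g + f) = cv.δ g := by
  apply le_antisymm
  · exact (cv.add _ _).trans (max_le le_rfl h.le)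
  · have h1 : g = (g + f) + (-1 : F) • f := by simp
    have h2 := cv.add (g + f) ((-1 : F) • f)
    rw [← h1, del_smul cv (by norm_num)] at h2
    rcases le_max_iff.1 h2 with h3 | h3
    · exact h3
    · omega

lemma del_sum {I : Type} (b : I → A) (w : I → ℕ) (hw : Function.Injective w)
    (hb : ∀ i, b i ≠ 0 ∧ cv.δ (b i) = w i) (c : I → F) (s : Finset I) (hc : ∀ i ∈ s, c i ≠ 0) :
    (s.Nonempty → ∑ i ∈ s, c i • b i ≠ 0) ∧ cv.δ (∑ i ∈ s, c i • b i) = s.sup w := by
  induction s using Finset.induction_on_max_value w with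
  | empty => simp [del_zero cv]
  | insert a s has hmax ih =>
    have ha : c a ≠ 0 := hc a (mem_insert_self _ _)
    obtain ⟨_, ih2⟩ := ih fun i hi => hc i (mem_insert_of_mem hi)
    rw [sum_insert has, sup_insert]
    have hda : cv.δ (c a • b a) = w a := by rw [del_smul cv ha, (hb a).2]
    rcases s.eq_empty_or_nonempty with rfl | hs
    · simp only [sum_empty, add_zero, sup_empty]
      exact ⟨fun _ => smul_ne ha (hb a).1, by simpa using hda⟩
    · obtain ⟨i, hi, hsup⟩ := Finset.exists_mem_eq_sup s hs w
      have hlt : w i < w a := lt_of_le_of_ne (hmax i hi) fun h => has (hw h ▸ hi)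
      have h1 : cv.δ (c a • b a + ∑ i ∈ s, c i • b i) = w a := by
        rw [del_add cv (by rw [ih2, hsup, hda]; exact hlt), hda]
      refine ⟨fun _ h0 => ?_, ?_⟩
      · rw [h0, del_zero cv] at h1
        omega
      · rw [h1, hsup]
        exact (sup_eq_left.2 hlt.le).symm

/-- a basis whose members have distinct pole orders -/
lemma exists_basis : ∃ (I : Type) (b : Module.Basis I F A) (w : I → ℕ), Function.Injective w ∧
    (∀ i, cv.δ (b i) = w i) ∧ ∀ a, cv.δ a = (b.repr a).support.sup w := by
  let I : Type := {n : ℕ // ∃ f : A, f ≠ 0 ∧ cv.δ f = n}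
  let v : I → A := fun i => i.2.choose
  have hv : ∀ i : I, v i ≠ 0 ∧ cv.δ (v i) = i.1 := fun i => i.2.choose_spec
  have hw : Function.Injective (fun i : I => i.1) := Subtype.val_injective
  have hli : LinearIndependent F v := by
    rw [linearIndependent_iff]
    intro l hl
    by_contra h0
    have := (del_sum cv v _ hw hv l l.support fun i hi => Finsupp.mem_support_iff.1 hi).1
      (Finsupp.support_nonempty_iff.2 h0)
    apply this
    rwa [Finsupp.linearCombination_apply, Finsupp.sum] at hl
  have hsp : ∀ n (f : A), cv.δ f = n → f ∈ Submodule.span F (Set.range v) := by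
    intro n
    induction n using Nat.strong_induction_on with
    | _ n ih =>
      intro f hf
      by_cases h0 : f = 0
      · rw [h0]; exact Submodule.zero_mem _
      let i : I := ⟨n, f, h0, hf⟩
      have hi : v i ∈ Submodule.span F (Set.range v) := Submodule.subset_span ⟨i, rfl⟩
      obtain ⟨c, hc | hc⟩ := cv.lc f (v i) h0 (hv i).1 (by rw [hf, (hv i).2])
      · rw [hc]; exact Submodule.smul_mem _ _ hi
      · have h1 := ih _ (hf ▸ hc) _ rfl
        have h2 : f = (f - c • v i) + c • v i := by simp
        rw [h2]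
        exact Submodule.add_mem _ h1 (Submodule.smul_mem _ _ hi)
  let b : Module.Basis I F A := Module.Basis.mk hli fun f _ => hsp _ f rfl
  have hb : ∀ i, b i = v i := fun i => Module.Basis.mk_apply _ _ i
  refine ⟨I, b, fun i => i.1, hw, fun i => by rw [hb, (hv i).2], fun a => ?_⟩
  have h1 := (del_sum cv b _ hw (fun i => by rw [hb]; exact hv i) (b.repr a) (b.repr a).support
    fun i hi => Finsupp.mem_support_iff.1 hi).2
  have h2 := b.linearCombination_repr a
  rw [Finsupp.linearCombination_apply, Finsupp.sum] at h2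
  rwa [h2] at h1

end A

section B

variable {k B I : Type} [Field k] [CommRing B] [Algebra k B] (b : Module.Basis I k B) (w : I → ℕ)

/-- the largest weight that occurs -/
noncomputable def D (x : B) : ℕ := (b.repr x).support.sup w

lemma le_D {x : B} {i : I} (h : b.repr x i ≠ 0) : w i ≤ D b w x :=
  Finset.le_sup (f := w) (Finsupp.mem_support_iff.2 h)

lemma D_le {x : B} {n : ℕ} (h : ∀ i, b.repr x i ≠ 0 → w i ≤ n) : D b w x ≤ n :=
  Finset.sup_le fun i hi => h i (Finsupp.mem_support_iff.1 hi)

lemma exists_top {x : B} (hx : x ≠ 0) : ∃ i, b.repr x i ≠ 0 ∧ D b w x = w i := by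
  have : b.repr x ≠ 0 := fun h => hx (b.repr.map_eq_zero_iff.1 h)
  obtain ⟨i, hi, h⟩ := Finset.exists_mem_eq_sup _ (Finsupp.support_nonempty_iff.2 this) w
  exact ⟨i, Finsupp.mem_support_iff.1 hi, h⟩

lemma D_add (x y : B) : D b w (x + y) ≤ max (D b w x) (D b w y) := by
  refine D_le b w fun i hi => ?_
  rw [map_add, Finsupp.add_apply] at hi
  by_cases h : b.repr x i = 0
  · rw [h, zero_add] at hi
    exact le_max_of_le_right (le_D b w hi)
  · exact le_max_of_le_left (le_D b w h)

lemma D_smul (c : k) (x : B) : D b w (c • x) ≤ D b w x := by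
  refine D_le b w fun i hi => le_D b w fun h => hi ?_
  rw [map_smul, Finsupp.smul_apply, h, smul_zero]

lemma D_lc (hw : Function.Injective w) (f g : B) (hg : g ≠ 0)
    (h : D b w f = D b w g) : ∃ c : k, f = c • g ∨ D b w (f - c • g) < D b w f := by
  obtain ⟨j, hj, hjw⟩ := exists_top b w hg
  refine ⟨b.repr f j / b.repr g j, ?_⟩
  by_cases h0 : f - (b.repr f j / b.repr g j) • g = 0
  · exact Or.inl (sub_eq_zero.1 h0)
  right
  obtain ⟨i, hi, hiw⟩ := exists_top b w h0
  have hle : D b w (f - (b.repr f j / b.repr g j) • g) ≤ D b w f := by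
    rw [sub_eq_add_neg, ← neg_smul]
    exact (D_add b w _ _).trans (max_le le_rfl ((D_smul b w _ _).trans h.ge))
  refine lt_of_le_of_ne hle fun he => hi ?_
  have : i = j := hw (by rw [← hiw, he, h, hjw])
  rw [this, map_sub, map_smul, Finsupp.sub_apply, Finsupp.smul_apply, smul_eq_mul,
    div_mul_cancel₀ _ hj, sub_self]

lemma D_mul (hw : Function.Injective w)
    (ht : ∀ i j, b i * b j ≠ 0 ∧ D b w (b i * b j) = w i + w j) (x y : B) (hx : x ≠ 0)
    (hy : y ≠ 0) : x * y ≠ 0 ∧ D b w (x * y) = D b w x + D b w y := by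
  obtain ⟨i, hi, hiw⟩ := exists_top b w hx
  obtain ⟨j, hj, hjw⟩ := exists_top b w hy
  have key : ∀ l, w i + w j ≤ w l →
      b.repr (x * y) l = b.repr x i * b.repr y j * b.repr (b i * b j) l := by
    intro l hl
    have h1 := b.linearCombination_repr x
    have h2 := b.linearCombination_repr y
    rw [Finsupp.linearCombination_apply, Finsupp.sum] at h1 h2
    have h3 : x * y = ∑ p ∈ (b.repr x).support ×ˢ (b.repr y).support,
        (b.repr x p.1 * b.repr y p.2) • (b p.1 * b p.2) := by
      conv_lhs => rw [← h1, ← h2, Finset.sum_mul_sum]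
      rw [Finset.sum_product]
      refine Finset.sum_congr rfl fun p _ => Finset.sum_congr rfl fun q _ => ?_
      rw [smul_mul_smul_comm]
    rw [h3, map_sum, Finsupp.finsetSum_apply, Finset.sum_eq_single (i, j)]
    · rw [map_smul, Finsupp.smul_apply, smul_eq_mul]
    · intro p hp hne
      rw [map_smul, Finsupp.smul_apply, smul_eq_mul]
      by_contra h0
      have h4 := le_D b w (right_ne_zero_of_mul h0)
      rw [(ht _ _).2] at h4
      rw [Finset.mem_product, Finsupp.mem_support_iff, Finsupp.mem_support_iff] at hp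
      have h5 := le_D b w hp.1
      have h6 := le_D b w hp.2
      exact hne (Prod.ext (hw (by simp only; omega)) (hw (by simp only; omega)))
    · intro h
      exact absurd (Finset.mem_product.2
        ⟨Finsupp.mem_support_iff.2 hi, Finsupp.mem_support_iff.2 hj⟩) h
  obtain ⟨l, hl, hlw⟩ := exists_top b w (ht i j).1
  rw [(ht i j).2] at hlw
  have hne : b.repr (x * y) l ≠ 0 := by
    rw [key l hlw.le]
    exact mul_ne_zero (mul_ne_zero hi hj) hl
  refine ⟨fun h => hne (by rw [h, map_zero, Finsupp.zero_apply]), le_antisymm ?_ ?_⟩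
  · refine D_le b w fun m hm => ?_
    by_contra hlt
    rw [hiw, hjw] at hlt
    rw [key m (by omega)] at hm
    have := le_D b w (right_ne_zero_of_mul hm)
    rw [(ht i j).2] at this
    exact hlt this
  · rw [hiw, hjw, hlw]
    exact le_D b w hne

end B

end Pool.Agent.P.MP_b8021b_nt.VC.BC
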