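import Pool.Agent.P.MP_b8021b_nt.VC.StC

/-! Base change of a curve: the extended ring is integrally closed. -/

namespace Pool.Agent.P.MP_b8021b_nt.VC.BC

open Polynomial Finset
open scoped Classical

/-- a relation whose derivative does not vanish -/
lemma exists_sep {R A k : Type} [CommRing R] [IsDomain R] [CharZero R] [CommRing A] [Field k]
    (θ : R →+* A) (π : A →+* k) (hinj : ∀ c, π (θ c) = 0 → c = 0) (a : A) (p : R[X])
    (hp : p ≠ 0) (h : π (p.eval₂ θ a) = 0) :
    ∃ q : R[X], π (q.eval₂ θ a) = 0 ∧ π ((derivative q).eval₂ θ a) ≠ 0 := by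
  induction hn : p.natDegree using Nat.strong_induction_on generalizing p with
  | _ n ih =>
    by_cases h1 : π ((derivative p).eval₂ θ a) = 0
    · have h0 : p.natDegree ≠ 0 := by
        intro h0
        rw [eq_C_of_natDegree_eq_zero h0, eval₂_C] at h
        apply hp
        rw [eq_C_of_natDegree_eq_zero h0, hinj _ h, map_zero]
      exact ih _ (hn ▸ natDegree_derivative_lt h0) (derivative p)
        (fun h2 => h0 (derivative_eq_zero.1 h2)) h1 rfl
    · exact ⟨p, h, h1⟩

/-- two first order neighbours agree at a simple root -/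
lemma agree {R A Q : Type} [CommRing R] [CommRing A] [CommRing Q] (θ : R →+* A) (φ ψ : A →+* Q)
    (hθ : ∀ c, φ (θ c) = ψ (θ c)) (a : A) (hsq : (φ a - ψ a) ^ 2 = 0) (q : R[X])
    (h1 : φ (q.eval₂ θ a) = ψ (q.eval₂ θ a)) (h2 : IsUnit (ψ ((derivative q).eval₂ θ a))) :
    φ a = ψ a := by
  have hc : φ.comp θ = ψ.comp θ := RingHom.ext hθ
  have h3 := eval_add_of_sq_eq_zero (q.map (ψ.comp θ)) (ψ a) (φ a - ψ a) hsq
  rw [add_sub_cancel, derivative_map, eval_map, eval_map, eval_map, ← hom_eval₂, ← hom_eval₂,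
    ← hc, ← hom_eval₂, h1] at h3
  have h4 : ψ ((derivative q).eval₂ θ a) * (φ a - ψ a) = 0 := by simpa using h3.symm
  exact sub_eq_zero.1 ((h2.mul_right_eq_zero).1 h4)

lemma gen {F A k B : Type} [Field F] [CharZero F] [CommRing A] [IsDedekindDomain A] [Algebra F A]
    [Field k] [CommRing B] [Algebra k B] (j : F →+* k) (ι : A →+* B)
    (halg : ∀ c, ι (algebraMap F A c) = algebraMap k B (j c))
    (hsp : ∀ x, x ∈ Submodule.span k (Set.range ι))
    (hfin : ∀ I : Ideal A, I ≠ ⊥ → FiniteDimensional F (A ⧸ I)) (z : A)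
    (hz : ∀ p : F[X], aeval z p = 0 → p = 0)
    (hint : ∀ a, (aeval z : F[X] →ₐ[F] A).toRingHom.IsIntegralElem a) (P : B →ₐ[k] k) :
    ∃ t, t ∈ RingHom.ker P ∧
      RingHom.ker P ≤ Ideal.span {t} ⊔ RingHom.ker P * RingHom.ker P := by
  set M := RingHom.ker P with hM
  let π : A →+* k := P.toRingHom.comp ι
  have hπ : ∀ a, π a = P (ι a) := fun _ => rfl
  have hd : ∀ a, ι a - algebraMap k B (π a) ∈ M := fun a => by
    rw [hM, RingHom.mem_ker, map_sub, AlgHom.commutes, hπ]
    simp
  suffices h : ∃ t₀ : A, ∀ a, ι a - algebraMap k B (π a) ∈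
      Ideal.span {ι t₀ - algebraMap k B (π t₀)} ⊔ M * M by
    obtain ⟨t₀, h⟩ := h
    refine ⟨_, hd t₀, fun x hx => ?_⟩
    have h1 : ∀ x ∈ Submodule.span k (Set.range ι), x - algebraMap k B (P x) ∈
        Ideal.span {ι t₀ - algebraMap k B (π t₀)} ⊔ M * M := by
      intro x hx
      induction hx using Submodule.span_induction with
      | mem x hx =>
        obtain ⟨a, rfl⟩ := hx
        exact h a
      | zero => simp
      | add x y _ _ hx hy =>
        rw [map_add, map_add, add_sub_add_comm]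
        exact Ideal.add_mem _ hx hy
      | smul c x _ hx =>
        rw [map_smul, smul_eq_mul, map_mul, Algebra.smul_def, ← mul_sub]
        exact Ideal.mul_mem_left _ _ hx
    have h2 := h1 x (hsp x)
    rwa [RingHom.mem_ker.1 hx, map_zero, sub_zero] at h2
  have main : ∀ (t₀ : A) (N : Ideal B), N = Ideal.span {ι t₀ - algebraMap k B (π t₀)} ⊔ M * M →
      ∀ (R : Type) [CommRing R] [IsDomain R] [CharZero R] (θ : R →+* A),
      (∀ c, π (θ c) = 0 → c = 0) → (∀ c, ι (θ c) - algebraMap k B (π (θ c)) ∈ N) →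
      (∀ m, π m = 0 → ι m ∈ N) → (∀ a, ∃ p : R[X], p ≠ 0 ∧ π (p.eval₂ θ a) = 0) →
      ∀ a, ι a - algebraMap k B (π a) ∈ N := by
    intro t₀ N hN R _ _ _ θ h1 h2 h3 h4 a
    obtain ⟨p, hp, hpa⟩ := h4 a
    obtain ⟨q, hq, hq'⟩ := exists_sep θ π h1 a p hp hpa
    have := agree θ ((Ideal.Quotient.mk N).comp ι)
      ((Ideal.Quotient.mk N).comp ((algebraMap k B).comp π))
      (fun c => Ideal.Quotient.eq.2 (h2 c)) a ?_ q ?_ ?_
    · exact Ideal.Quotient.eq.1 this
    · simp only [RingHom.comp_apply]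
      rw [← map_sub, ← map_pow, Ideal.Quotient.eq_zero_iff_mem, hN, sq]
      exact Ideal.mem_sup_right (Ideal.mul_mem_mul (hd a) (hd a))
    · simp only [RingHom.comp_apply]
      rw [hq, map_zero, map_zero, Ideal.Quotient.eq_zero_iff_mem]
      exact h3 _ hq
    · simp only [RingHom.comp_apply]
      exact ((isUnit_iff_ne_zero.2 hq').map _).map _
  have hc : ∀ c : F, π (algebraMap F A c) = j c := fun c => by
    rw [hπ, halg, AlgHom.commutes]
    rfl
  by_cases hm : RingHom.ker π = ⊥
  · have hm' : ∀ m, π m = 0 → m = 0 := fun m h => by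
      have : m ∈ RingHom.ker π := h
      rwa [hm, Ideal.mem_bot] at this
    refine ⟨z, main z _ rfl F[X] (aeval z : F[X] →ₐ[F] A).toRingHom
      (fun c h => hz c (hm' _ h)) (fun c => ?_) (fun m h => ?_) fun a => ?_⟩
    · rw [← Ideal.Quotient.eq]
      have : (Ideal.Quotient.mk (Ideal.span {ι z - algebraMap k B (π z)} ⊔ M * M)).comp
            (ι.comp (aeval z : F[X] →ₐ[F] A).toRingHom) =
          (Ideal.Quotient.mk _).comp ((algebraMap k B).comp
            (π.comp (aeval z : F[X] →ₐ[F] A).toRingHom)) := by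
        refine Polynomial.ringHom_ext (fun c => ?_) ?_
        · simp [halg, hc]
        · simp only [RingHom.comp_apply, AlgHom.toRingHom_eq_coe, RingHom.coe_coe, aeval_X]
          exact Ideal.Quotient.eq.2 (Ideal.mem_sup_left (Ideal.mem_span_singleton_self _))
      exact RingHom.congr_fun this c
    · rw [hm' m h, map_zero]
      exact Ideal.zero_mem _
    · obtain ⟨p, hp, hpa⟩ := hint a
      exact ⟨p, hp.ne_zero, by rw [hpa, map_zero]⟩
  · have hpr : (RingHom.ker π).IsPrime := RingHom.ker_isPrime π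
    obtain ⟨t₀, ht, ht'⟩ := SetLike.exists_of_lt (Ideal.pow_succ_lt_pow hm 1)
    have hsup : Ideal.span {t₀} ⊔ RingHom.ker π ^ (1 + 1) = RingHom.ker π ^ 1 := by
      refine Ideal.eq_prime_pow_of_succ_lt_of_le hm (lt_of_le_of_ne le_sup_right fun h => ht' ?_)
        (sup_le ((Ideal.span_singleton_le_iff_mem _).2 ht) (Ideal.pow_succ_lt_pow hm 1).le)
      rw [h]
      exact Ideal.mem_sup_left (Ideal.mem_span_singleton_self _)
    rw [pow_one] at ht
    rw [pow_succ, pow_one] at hsup
    refine ⟨t₀, main t₀ _ rfl F (algebraMap F A) (fun c h => ?_) (fun c => ?_) (fun m h => ?_)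
      fun a => ?_⟩
    · rw [hc] at h
      exact (map_eq_zero j).1 h
    · rw [hc, halg, sub_self]
      exact Ideal.zero_mem _
    · have h1 : m ∈ RingHom.ker π := h
      rw [← hsup] at h1
      have h2 : Ideal.map ι (RingHom.ker π) ≤ M := Ideal.map_le_iff_le_comap.2 fun x hx => hx
      have h3 := Ideal.mem_map_of_mem ι h1
      rw [Ideal.map_sup, Ideal.map_mul, Ideal.map_span, Set.image_singleton] at h3
      rw [RingHom.mem_ker.1 ht, map_zero, sub_zero]
      exact sup_le_sup_left (Ideal.mul_mono h2 h2) _ h3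
    · have := hfin _ hm
      obtain ⟨p, hp, hpa⟩ : IsIntegral F (Ideal.Quotient.mk (RingHom.ker π) a) :=
        Algebra.IsIntegral.isIntegral _
      refine ⟨p, hp.ne_zero, ?_⟩
      rw [← RingHom.mem_ker, ← Ideal.Quotient.eq_zero_iff_mem, hom_eval₂]
      exact hpa

/-- maximal ideals that are principal to the first order -/
lemma closed_of_gen {B : Type} [CommRing B] [IsDomain B] [IsNoetherianRing B]
    (h : ∀ M : Ideal B, M.IsMaximal → ∃ t, t ∈ M ∧ M ≤ Ideal.span {t} ⊔ M * M) :
    IsIntegrallyClosed B := by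
  refine IsIntegrallyClosed.of_localization_maximal fun M _ hM => ?_
  obtain ⟨t, ht, hle⟩ := h M hM
  have : IsNoetherianRing (Localization.AtPrime M) :=
    IsLocalization.isNoetherianRing M.primeCompl _ inferInstance
  have h1 : (IsLocalRing.maximalIdeal (Localization.AtPrime M)).IsPrincipal := by
    refine ⟨algebraMap B _ t, le_antisymm ?_ ?_⟩
    · refine Submodule.le_of_le_smul_of_le_jacobson_bot (IsNoetherian.noetherian _)
        (IsLocalRing.maximalIdeal_le_jacobson _) ?_
      have h2 := Ideal.map_mono (f := algebraMap B (Localization.AtPrime M)) hle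
      rw [Ideal.map_sup, Ideal.map_mul, Ideal.map_span, Set.image_singleton,
        Localization.AtPrime.map_eq_maximalIdeal] at h2
      exact h2
    · rw [← Localization.AtPrime.map_eq_maximalIdeal]
      exact (Ideal.span_singleton_le_iff_mem _).2 (Ideal.mem_map_of_mem _ ht)
  have h2 := ((tfae_of_isNoetherianRing_of_isLocalRing_of_isDomain
    (Localization.AtPrime M)).out 4 3).1 h1
  exact h2.1

/-- descent along a split inclusion -/
lemma closed_of_retract {B C : Type} [CommRing B] [IsDomain B] [CommRing C] [IsDomain C]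
    [IsIntegrallyClosed C] (j : B →+* C) (ρ : C → B) (h1 : ρ 1 = 1) (h0 : ρ 0 = 0)
    (hρ : ∀ b y, ρ (j b * y) = b * ρ y) : IsIntegrallyClosed B := by
  have hj : Function.Injective j := by
    rw [injective_iff_map_eq_zero]
    intro b hb
    have := hρ b 1
    rw [hb, zero_mul, h0, h1, mul_one] at this
    exact this.symm
  rw [isIntegrallyClosed_iff (FractionRing B)]
  intro x hx
  let J : FractionRing B →+* FractionRing C := IsFractionRing.map hj
  have hJ : ∀ b, J (algebraMap B _ b) = algebraMap C _ (j b) := fun b => by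
    simp [J, IsFractionRing.map]
  have h2 : IsIntegral C (J x) :=
    IsIntegral.map_of_comp_eq j J (RingHom.ext fun b => (hJ b).symm) hx
  obtain ⟨y, hy⟩ := (isIntegrallyClosed_iff (FractionRing C)).1 inferInstance h2
  obtain ⟨a, b, hb, rfl⟩ := IsFractionRing.div_surjective (A := B) x
  have hb0 : b ≠ 0 := nonZeroDivisors.ne_zero hb
  have hb1 : algebraMap B (FractionRing B) b ≠ 0 := by simpa using hb0
  have hb2 : algebraMap C (FractionRing C) (j b) ≠ 0 := by
    simpa using fun h => hb0 (hj (by rw [h, map_zero]))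
  rw [map_div₀, hJ, hJ, eq_div_iff hb2, ← map_mul] at hy
  have h3 : j b * y = j a * 1 := by
    rw [mul_one, mul_comm]
    exact IsFractionRing.injective C (FractionRing C) hy
  have h4 := hρ b y
  rw [h3, hρ, h1, mul_one] at h4
  exact ⟨ρ y, by rw [eq_div_iff hb1, ← map_mul, h4, mul_comm]⟩

end Pool.Agent.P.MP_b8021b_nt.VC.BC
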