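import Pool.Agent.P.MP_b8021b_nt.VC.StA
import Pool.Agent.P.MP_b8021b_nt.VC.BDefs

/-! The core statement from an abstract family of mixing designs supported on good tuples. -/

namespace Pool.Agent.P.MP_b8021b_nt.VC

open Polynomial Finset Pool.Agent.P.MP_b8021b_nt.VE
open scoped Classical

namespace PCore

/-- a mixing design whose points, fibres and sections are those of the curve -/
structure Abs {R : Type} [CommRing R] [Algebra ℤ[X] R] (p : Par R) {P Y T S : Type} [Fintype P]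
    [Fintype Y] [Fintype T] [Fintype S] {Nc : ℕ} (κ ε y : ℝ) (u : ℕ) (b : Base P Y)
    (σT : Side Y T) (σS : Side Y S) (β : Box T Nc) (fx : Y → p.Pn) (ft : T → ℤ × ℤ)
    (fs : S → p.Co) : Prop where
  ypos : 0 < y
  box : β.Ok σT b ε
  adm : ∀ t, p.Adm (ft t)
  pt : ∀ x, p.IsPt (fx x)
  on : ∀ x t, σT.on x t → p.OnT (fx x) (ft t)
  inv : ∀ x, fx (b.ι x) = p.inv (fx x)
  v : ∀ x, b.v (b.pr x) = Real.log (((fx x).1 : ℝ) / y)
  τ : ∀ t, β.τ t = ((ft t).1 : ℝ) / (ft t).2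
  bb : ∀ t, β.b t = (ft t).2
  pos : ∀ s, ∀ a ∈ Set.Icc β.τ0 (β.τ0 + β.η), 0 < (p.FR (fs s)).eval a
  flat : ∀ s, ∀ a ∈ Set.Icc β.τ0 (β.τ0 + β.η), ∀ a' ∈ Set.Icc β.τ0 (β.τ0 + β.η),
    (p.FR (fs s)).eval a ≤ 2 * (p.FR (fs s)).eval a'
  des : ∃ μ, DesK κ b σT σS u μ ε ∧
    ∀ t s x, μ t s x ≠ 0 → p.Good (ft t) (fs s) fun i => fx (x i)

theorem two_le {R : Type} [CommRing R] [Algebra ℤ[X] R] (p : Par R) :
    2 * p.e * p.dd - 1 + 1 = 2 * p.e * p.dd := by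
  have h1 := p.h3
  have h2 := p.hdd p.toTab.i0
  have h3 : 1 ≤ 2 * p.e * p.dd := Nat.mul_pos (by omega) (by omega)
  omega

theorem sys (hDeg : S_Deg) (hC1 : S_C1) {R A A' : Type} [CommRing R] [Algebra ℤ[X] R] [CommRing A]
    [CommRing A'] [IsDedekindDomain A'] [Algebra ℚ A'] (p : Par R) (D : Dbl A A' p.r)
    (j : R →+* A) {φ : MaximalSpectrum A' → A' → ℝ} (hj : Gen j) (hφ : IsFn φ) (ha : Anti D.ι φ)
    (c₂ : p.Co → p.Pn → ℝ) (Q : p.Co → ℝ[X]) (Ar : p.Co → ℝ → ℝ) (β₀ : ℝ)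
    (h1 : ∀ s, (Q s).natDegree ≤ 2 * p.e * p.dd - 1)
    (h2 : ∀ s a, (p.FR s).eval a ≠ 0 → HasDerivAt (Ar s) ((Q s).eval a / (p.FR s).eval a) a)
    (h3 : ∀ s, Q s = 0 → ∀ a, Ar s a = 0)
    (h4 : ∀ s (n : ℕ) (t : ℤ × ℤ) (x : Fin n → p.Pn), p.Adm t → p.Good t s x →
      pair φ (p.sec D j s) (p.fib D j t) = β₀ + ∑ i, c₂ s (x i) + Ar s ((t.1 : ℝ) / t.2))
    {P Y T S : Type} [Fintype P] [Fintype Y] [Fintype T] [Fintype S] {Nc : ℕ} {κ ε y : ℝ} {u : ℕ}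
    {b : Base P Y} {σT : Side Y T} {σS : Side Y S} {β : Box T Nc} {fx : Y → p.Pn}
    {ft : T → ℤ × ℤ} {fs : S → p.Co} (hF : Abs p κ ε y u b σT σS β fx ft fs) :
    ∃ G : Sys P Y T S Nc u, G.OkK κ (2 * p.e * p.dd - 1) ε ∧ G.b = b ∧ G.σS = σS ∧
      G.c₂ = (fun x s => c₂ (fs s) (fx x)) ∧ G.β = β₀ := by
  obtain ⟨μ, hμ, hg⟩ := hF.des
  obtain ⟨-, -, -, -, -, -, hd, hN, -⟩ := hDeg R p
  choose c₁ a1 a2 using fun t : T => hC1 R A A' p D j φ hj hφ ha (ft t) (hF.adm t)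
  refine ⟨⟨b, σT, σS, β, μ, fun x t => c₁ t (fx x), fun x s => c₂ (fs s) (fx x),
    fun s => p.FR (fs s), fun s => Q (fs s), fun s => Ar (fs s),
    -(p.e0 * Real.log p.r) - (u + 2) * Real.log y, β₀⟩,
    ⟨hμ, hF.box, fun x t h => ?_, fun s => ?_, fun s => h1 _, hF.pos, hF.flat,
      fun s a ha => h2 _ a (hF.pos s a ha).ne', fun s h a _ => h3 _ h a,
      fun t s x h => ?_, fun t s x h => ?_⟩, rfl, rfl, rfl, rfl⟩
  · change c₁ t (fx (b.ι x)) = -c₁ t (fx x)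
    rw [hF.inv]
    exact a1 t _ (hF.pt x) (hF.on x t h)
  · rw [two_le]
    exact natDegree_map_le.trans (hd (fs s)).2.1.le
  · obtain ⟨g1, -, g3⟩ := hg t s x h
    have hb : (0 : ℝ) < (ft t).2 := by exact_mod_cast (hF.adm t).1
    have hr : (0 : ℝ) < p.r := by exact_mod_cast p.hr.pos
    have hq : ∀ i, (0 : ℝ) < (fx (x i)).1 := fun i => by exact_mod_cast (g1 i).1.1.pos
    have e := hN (fs s) (ft t) (hF.adm t).1.ne'
    rw [g3] at e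
    push_cast at e
    have hp' : 0 < ∏ i, ((fx (x i)).1 : ℝ) := Finset.prod_pos fun i _ => hq i
    have hF0 : (p.FR (fs s)).eval (((ft t).1 : ℝ) / (ft t).2) ≠ 0 := fun h0 => by
      rw [h0, mul_zero] at e
      exact (mul_pos (pow_pos hr _) hp').ne' e
    have e' := congrArg Real.log e
    rw [Real.log_mul (pow_pos hr _).ne' hp'.ne', Real.log_mul (pow_pos hb _).ne' hF0,
      Real.log_pow, Real.log_pow, Real.log_prod fun i _ => (hq i).ne'] at e'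
    have hk : ((2 * p.e * p.dd - 1 : ℕ) : ℝ) + 1 = (2 * p.e * p.dd : ℕ) := by
      exact_mod_cast two_le p
    change ∑ i, b.v (b.pr (x i)) = Real.log ((p.FR (fs s)).eval (β.τ t)) +
      (((2 * p.e * p.dd - 1 : ℕ) : ℝ) + 1) * Real.log (β.b t) +
      (-(p.e0 * Real.log p.r) - (u + 2) * Real.log y)
    rw [hk, hF.τ, hF.bb, Finset.sum_congr rfl fun i _ =>
      (hF.v (x i)).trans (Real.log_div (hq i).ne' hF.ypos.ne'),
      Finset.sum_sub_distrib, Finset.sum_const, Finset.card_univ, Fintype.card_fin, nsmul_eq_mul]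
    push_cast at e' ⊢
    linarith
  · change ∑ i, c₁ t (fx (x i)) = β₀ + ∑ i, c₂ (fs s) (fx (x i)) + Ar (fs s) (β.τ t)
    rw [hF.τ]
    exact (a2 t _ (fs s) _ (hg t s x h)).symm.trans (h4 (fs s) _ (ft t) _ (hF.adm t) (hg t s x h))

/-- two designs on the same points and sections, at every precision, kill the value -/
theorem core (hDeg : S_Deg) (hC1 : S_C1) (hC2 : S_C2) (hB : S_BK) {R A A' : Type} [CommRing R]
    [Algebra ℤ[X] R] [CommRing A] [CommRing A'] [IsDedekindDomain A'] [Algebra ℚ A'] (p : Par R)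
    (D : Dbl A A' p.r) (j : R →+* A) {φ : MaximalSpectrum A' → A' → ℝ} (hj : Gen j) (hφ : IsFn φ)
    (ha : Anti D.ι φ) (κ : ℝ) (u : ℕ) (hu : 6 ≤ u)
    (H : ∀ (Nc : ℕ) [NeZero Nc] (ε : ℝ), 0 < ε →
      ∃ (P Y T T' S : Type) (_ : Fintype P) (_ : Fintype Y) (_ : Fintype T) (_ : Fintype T')
        (_ : Fintype S) (y y' : ℝ) (b : Base P Y) (σT : Side Y T) (σT' : Side Y T')
        (σS : Side Y S) (β : Box T Nc) (β' : Box T' Nc) (fx : Y → p.Pn) (ft : T → ℤ × ℤ)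
        (ft' : T' → ℤ × ℤ) (fs : S → p.Co),
        Abs p κ ε y u b σT σS β fx ft fs ∧ Abs p κ ε y' (u + 1) b σT' σS β' fx ft' fs) :
    p.beta D j φ = 0 := by
  obtain ⟨Nc, ε, hNc, hε, hb⟩ := hB κ u (2 * p.e * p.dd - 1) hu
  have : NeZero Nc := ⟨by omega⟩
  obtain ⟨P, Y, T, T', S, _, _, _, _, _, y, y', b, σT, σT', σS, β, β', fx, ft, ft', fs, f1, f2⟩ :=
    H Nc ε hε
  choose c₂ Q Ar h1 h2 h3 h4 using hC2 R A A' p D j φ hj hφ
  obtain ⟨G₁, a1, a2, a3, a4, a5⟩ := sys hDeg hC1 p D j hj hφ ha c₂ Q Ar _ h1 h2 h3 h4 f1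
  obtain ⟨G₂, b1, b2, b3, b4, b5⟩ := sys hDeg hC1 p D j hj hφ ha c₂ Q Ar _ h1 h2 h3 h4 f2
  have h0 := a5.symm.trans (hb _ _ _ _ _ G₁ G₂ a1 b1 (b2.trans a2.symm) (b3.trans a3.symm)
    (b4.trans a4.symm) (b5.trans a5.symm))
  have hρ : (p.ρ : ℝ) ≠ 0 := by
    have := (hDeg R p).2.2.1.2.1
    exact_mod_cast (by omega : p.ρ ≠ 0)
  exact (div_eq_zero_iff.1 h0).resolve_right hρ

end PCore

end Pool.Agent.P.MP_b8021b_nt.VC
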