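import Pool.Agent.P.MP_b8021b_nt.VE.PFejP
import Pool.Agent.P.MP_b8021b_nt.VE.PTf

/-! The transfer lemma on a product of two tori, with two different degrees. -/

namespace Pool.Agent.P.MP_b8021b_nt.VC

open Finset Pool.Agent.P.MP_b8021b_nt.VE
open scoped Classical ComplexConjugate

noncomputable section

namespace TF2

variable {I D J : Type} [Fintype I] [Fintype D]

/-- a monomial -/
def mono (θ : I → ℂ) (κ : I → ℤ) : ℂ := ∏ i, θ i ^ κ i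

/-- the exponents of size less than `R` -/
def bx (I : Type) [Fintype I] (R : ℕ) : Finset (I → ℤ) :=
  Fintype.piFinset fun _ => Finset.Ioo (-(R : ℤ)) R

/-- distance from a grid point -/
def ds (R : ℕ) (θ : I → ℂ) (g : I → Fin (R + 1)) : ℝ := ∑ i, ‖θ i - rt (R + 1) (g i)‖

/-- the moments of `p` are those of `M` times the uniform measure, up to `E` -/
def Mom (s : Finset J) (θ : J → I → ℂ) (χ : J → D → ℂ) (R₁ R₂ : ℕ) (p : J → ℝ) (M E : ℝ) : Prop :=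
  ∑ κ ∈ bx I R₁, ∑ k ∈ bx D R₂, ‖∑ a ∈ s, (p a : ℂ) * (mono (θ a) κ * mono (χ a) k) -
    if κ = 0 ∧ k = 0 then (M : ℂ) else 0‖ ≤ E

/-- the product kernel -/
def Kr (R : ℕ) (θ : I → ℂ) (g : I → Fin (R + 1)) : ℝ :=
  ∏ i, fej R (θ i * conj (rt (R + 1) (g i)))

/-- its coefficients -/
def cf (R : ℕ) (g : I → Fin (R + 1)) (κ : I → ℤ) : ℂ :=
  ∏ i, (((1 - |(κ i : ℝ)| / R : ℝ) : ℂ) * conj (rt (R + 1) (g i)) ^ κ i)

lemma nrm {z : ℂ} (hz : ‖z‖ = 1) (M j : ℕ) : ‖z * conj (rt M j)‖ = 1 := by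
  rw [norm_mul, hz, Complex.norm_conj, Tf.norm_rt, one_mul]

lemma fej_coe (R : ℕ) {z : ℂ} (hz : ‖z‖ = 1) :
    (fej R z : ℂ) = ∑ k ∈ Finset.Ioo (-(R : ℤ)) R, ((1 - |(k : ℝ)| / R : ℝ) : ℂ) * z ^ k := by
  unfold fej
  rw [← Complex.conj_eq_iff_re, map_sum]
  refine sum_nbij' (fun k => -k) (fun k => -k) (fun k hk => ?_) (fun k hk => ?_) (by simp) (by simp)
    fun k _ => ?_
  · simp only [Finset.mem_Ioo] at hk ⊢; omega
  · simp only [Finset.mem_Ioo] at hk ⊢; omega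
  · rw [map_mul, Complex.conj_ofReal, map_zpow₀, ← Complex.inv_eq_conj hz, inv_zpow', Int.cast_neg,
      abs_neg]

variable {R : ℕ} {θ : I → ℂ}

lemma Kr_nonneg (hR : 1 ≤ R) (hθ : ∀ i, ‖θ i‖ = 1) (g : I → Fin (R + 1)) : 0 ≤ Kr R θ g :=
  prod_nonneg fun i _ => (p_fejP R _ hR (nrm (hθ i) _ _)).1

lemma sum_one (hR : 1 ≤ R) {z : ℂ} (hz : ‖z‖ = 1) :
    ∑ j : Fin (R + 1), fej R (z * conj (rt (R + 1) j)) = ((R + 1 : ℕ) : ℝ) := by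
  rw [Fin.sum_univ_eq_sum_range (fun j => fej R (z * conj (rt (R + 1) j))) (R + 1)]
  exact (p_fejP R z hR hz).2.2.2.1 (R + 1) (by omega)

lemma sum_Kr (hR : 1 ≤ R) (hθ : ∀ i, ‖θ i‖ = 1) :
    ∑ g, Kr R θ g = ((R + 1 : ℕ) : ℝ) ^ Fintype.card I := by
  unfold Kr
  rw [← Fintype.piFinset_univ, ← prod_univ_sum (fun _ => univ)
    fun i (j : Fin (R + 1)) => fej R (θ i * conj (rt (R + 1) j)),
    prod_congr rfl fun i _ => sum_one hR (hθ i), prod_const, card_univ]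

lemma sum_Kr_ds (hR : 1 ≤ R) (hθ : ∀ i, ‖θ i‖ = 1) :
    ∑ g, Kr R θ g * ds R θ g ≤
      ((R + 1 : ℕ) : ℝ) ^ Fintype.card I * (2 * Fintype.card I / √R) := by
  have key : ∀ i₀, ∑ g, Kr R θ g * ‖θ i₀ - rt (R + 1) (g i₀)‖ ≤
      ((R + 1 : ℕ) : ℝ) ^ Fintype.card I * (2 / √R) := by
    intro i₀
    have e1 : ∀ g : I → Fin (R + 1), Kr R θ g * ‖θ i₀ - rt (R + 1) (g i₀)‖ =
        ∏ i, (fej R (θ i * conj (rt (R + 1) (g i))) *
          if i = i₀ then ‖θ i - rt (R + 1) (g i)‖ else 1) := fun g => by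
      rw [prod_mul_distrib, prod_ite_eq' univ i₀ fun i => ‖θ i - rt (R + 1) (g i)‖,
        if_pos (mem_univ _)]
      rfl
    rw [sum_congr rfl fun g _ => e1 g, ← Fintype.piFinset_univ, ← prod_univ_sum (fun _ => univ)
      fun i (j : Fin (R + 1)) => fej R (θ i * conj (rt (R + 1) j)) *
        if i = i₀ then ‖θ i - rt (R + 1) j‖ else 1]
    have e2 : ((R + 1 : ℕ) : ℝ) ^ Fintype.card I * (2 / √R) =
        ∏ i, (((R + 1 : ℕ) : ℝ) * if i = i₀ then 2 / √(R : ℝ) else 1) := by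
      rw [prod_mul_distrib, prod_ite_eq' univ i₀ fun _ => 2 / √(R : ℝ), if_pos (mem_univ _),
        prod_const, card_univ]
    rw [e2]
    refine prod_le_prod (fun i _ => sum_nonneg fun j _ => mul_nonneg
      (p_fejP R _ hR (nrm (hθ i) _ _)).1 (by split_ifs <;> positivity)) fun i _ => ?_
    split_ifs
    · rw [Fin.sum_univ_eq_sum_range
        (fun j => fej R (θ i * conj (rt (R + 1) j)) * ‖θ i - rt (R + 1) j‖) (R + 1)]
      exact Tf.first p_fejP R hR _ (hθ i)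
    · simp only [mul_one]
      exact (sum_one hR (hθ i)).le
  unfold ds
  simp only [mul_sum]
  rw [sum_comm]
  refine (sum_le_sum fun i _ => key i).trans_eq ?_
  rw [sum_const, card_univ, nsmul_eq_mul]
  ring

lemma Kr_coe (hθ : ∀ i, ‖θ i‖ = 1) (g : I → Fin (R + 1)) :
    (Kr R θ g : ℂ) = ∑ κ ∈ bx I R, cf R g κ * mono θ κ := by
  unfold Kr bx cf mono
  rw [Complex.ofReal_prod, prod_congr rfl fun i _ => fej_coe R (nrm (hθ i) _ _), prod_univ_sum]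
  refine sum_congr rfl fun κ _ => ?_
  rw [← prod_mul_distrib]
  exact prod_congr rfl fun i _ => by rw [mul_zpow]; ring

lemma cf_zero (g : I → Fin (R + 1)) : cf R g 0 = 1 := by simp [cf]

lemma zero_mem (hR : 1 ≤ R) : (0 : I → ℤ) ∈ bx I R :=
  Fintype.mem_piFinset.2 fun i => by simp only [Finset.mem_Ioo, Pi.zero_apply]; omega

lemma cf_le (hR : 1 ≤ R) (g : I → Fin (R + 1)) {κ : I → ℤ} (h : κ ∈ bx I R) : ‖cf R g κ‖ ≤ 1 := by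
  unfold cf
  rw [norm_prod]
  refine prod_le_one (fun _ _ => norm_nonneg _) fun i _ => ?_
  rw [norm_mul, norm_zpow, Complex.norm_conj, Tf.norm_rt, one_zpow, mul_one, Complex.norm_real,
    Real.norm_eq_abs]
  have hR0 : (0 : ℝ) < R := by exact_mod_cast hR
  have hk' : |(κ i : ℝ)| ≤ R := by
    have := Finset.mem_Ioo.mp (Fintype.mem_piFinset.1 h i)
    have h1 : |κ i| ≤ (R : ℤ) := abs_le.mpr ⟨this.1.le, this.2.le⟩
    exact_mod_cast h1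
  have h2 : 0 ≤ |(κ i : ℝ)| / R := by positivity
  have h3 : |(κ i : ℝ)| / R ≤ 1 := (div_le_one hR0).mpr hk'
  rw [abs_le]
  constructor <;> linarith

section

variable {s : Finset J} {θ : J → I → ℂ} {χ : J → D → ℂ} {R₁ R₂ : ℕ} {p : J → ℝ} {M E : ℝ}

lemma Mom.ker (h : Mom s θ χ R₁ R₂ p M E) (h1 : 1 ≤ R₁) (h2 : 1 ≤ R₂)
    (hθ : ∀ a ∈ s, ∀ i, ‖θ a i‖ = 1) (hχ : ∀ a ∈ s, ∀ i, ‖χ a i‖ = 1) (g : I → Fin (R₁ + 1))
    (l : D → Fin (R₂ + 1)) : |∑ a ∈ s, p a * (Kr R₁ (θ a) g * Kr R₂ (χ a) l) - M| ≤ E := by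
  refine le_trans ?_ h
  have e : ((∑ a ∈ s, p a * (Kr R₁ (θ a) g * Kr R₂ (χ a) l) - M : ℝ) : ℂ) =
      ∑ κ ∈ bx I R₁, ∑ k ∈ bx D R₂, cf R₁ g κ * cf R₂ l k *
        (∑ a ∈ s, (p a : ℂ) * (mono (θ a) κ * mono (χ a) k) -
          if κ = 0 ∧ k = 0 then (M : ℂ) else 0) := by
    simp only [mul_sub, sum_sub_distrib]
    rw [Complex.ofReal_sub]
    congr 1
    · push_cast
      rw [sum_congr rfl fun a ha => by
        rw [Kr_coe (hθ a ha), Kr_coe (hχ a ha), sum_mul_sum, mul_sum], sum_comm]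
      refine sum_congr rfl fun κ _ => ?_
      simp only [mul_sum]
      rw [sum_comm]
      exact sum_congr rfl fun k _ => sum_congr rfl fun a _ => by ring
    · rw [sum_eq_single_of_mem 0 (zero_mem h1), sum_eq_single_of_mem 0 (zero_mem h2)]
      · simp [cf_zero]
      · intro k _ hk; simp [hk]
      · intro κ _ hκ; simp [hκ]
  rw [← Real.norm_eq_abs, ← Complex.norm_real, e]
  refine (norm_sum_le _ _).trans (sum_le_sum fun κ hκ => (norm_sum_le _ _).trans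
    (sum_le_sum fun k hk => ?_))
  rw [norm_mul, norm_mul]
  exact mul_le_of_le_one_left (norm_nonneg _)
    (mul_le_one₀ (cf_le h1 g hκ) (norm_nonneg _) (cf_le h2 l hk))

lemma Mom.marg (h : Mom s θ χ R₁ R₂ p M E) (h1 : 1 ≤ R₁) (h2 : 1 ≤ R₂)
    (hθ : ∀ a ∈ s, ∀ i, ‖θ a i‖ = 1) (hχ : ∀ a ∈ s, ∀ i, ‖χ a i‖ = 1) (l : D → Fin (R₂ + 1)) :
    ∑ a ∈ s, p a * Kr R₂ (χ a) l ≤ M + E := by
  have hG : (0 : ℝ) < ((R₁ + 1 : ℕ) : ℝ) ^ Fintype.card I := by positivity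
  refine le_of_mul_le_mul_left ?_ hG
  have k := sum_le_sum fun g (_ : g ∈ univ) =>
    sub_le_iff_le_add'.1 (abs_le.1 (h.ker h1 h2 hθ hχ g l)).2
  rw [sum_const, card_univ, Fintype.card_fun, Fintype.card_fin, nsmul_eq_mul, Nat.cast_pow,
    sum_comm] at k
  refine le_of_eq_of_le ?_ k
  rw [mul_sum]
  refine sum_congr rfl fun a ha => ?_
  rw [← mul_sum, ← sum_mul, sum_Kr h1 (hθ a ha)]
  ring

lemma Mom.tot (h : Mom s θ χ R₁ R₂ p M E) (h1 : 1 ≤ R₁) (h2 : 1 ≤ R₂)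
    (hθ : ∀ a ∈ s, ∀ i, ‖θ a i‖ = 1) (hχ : ∀ a ∈ s, ∀ i, ‖χ a i‖ = 1) :
    ∑ a ∈ s, p a ≤ M + E := by
  have hG : (0 : ℝ) < ((R₂ + 1 : ℕ) : ℝ) ^ Fintype.card D := by positivity
  refine le_of_mul_le_mul_left ?_ hG
  have k := sum_le_sum fun l (_ : l ∈ univ) => h.marg h1 h2 hθ hχ l
  rw [sum_const, card_univ, Fintype.card_fun, Fintype.card_fin, nsmul_eq_mul, Nat.cast_pow,
    sum_comm] at k
  refine le_of_eq_of_le ?_ k
  rw [mul_sum]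
  refine sum_congr rfl fun a ha => ?_
  rw [← mul_sum, sum_Kr h2 (hχ a ha)]
  ring

/-- the smoothing error -/
lemma Mom.err (h : Mom s θ χ R₁ R₂ p M E) (h1 : 1 ≤ R₁) (h2 : 1 ≤ R₂)
    (hθ : ∀ a ∈ s, ∀ i, ‖θ a i‖ = 1) (hχ : ∀ a ∈ s, ∀ i, ‖χ a i‖ = 1) (hp : ∀ a ∈ s, 0 ≤ p a)
    (S : Finset (D → Fin (R₂ + 1))) {δ Λ₁ Λ₂ : ℝ} (hδ : 0 ≤ δ) (hΛ₁ : 0 ≤ Λ₁) (hΛ₂ : 0 ≤ Λ₂) :
    ∑ a ∈ s, p a * ∑ g, ∑ l, Kr R₁ (θ a) g * Kr R₂ (χ a) l *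
      ((if l ∈ S then δ + Λ₁ * ds R₁ (θ a) g else 0) + Λ₂ * ds R₂ (χ a) l) ≤
      ((R₁ + 1 : ℕ) : ℝ) ^ Fintype.card I * ((M + E) *
        (S.card * (δ + Λ₁ * (2 * Fintype.card I / √R₁)) +
          ((R₂ + 1 : ℕ) : ℝ) ^ Fintype.card D * (Λ₂ * (2 * Fintype.card D / √R₂)))) := by
  set G₁ : ℝ := ((R₁ + 1 : ℕ) : ℝ) ^ Fintype.card I with hG₁
  set G₂ : ℝ := ((R₂ + 1 : ℕ) : ℝ) ^ Fintype.card D with hG₂
  set A : ℝ := δ + Λ₁ * (2 * Fintype.card I / √R₁) with hA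
  set B : ℝ := Λ₂ * (2 * Fintype.card D / √R₂) with hB
  have hA0 : 0 ≤ A := by positivity
  have hB0 : 0 ≤ B := by positivity
  have k1 : ∀ a ∈ s, ∑ g, ∑ l, Kr R₁ (θ a) g * Kr R₂ (χ a) l *
      ((if l ∈ S then δ + Λ₁ * ds R₁ (θ a) g else 0) + Λ₂ * ds R₂ (χ a) l) ≤
      G₁ * A * ∑ l ∈ S, Kr R₂ (χ a) l + G₁ * (G₂ * B) := by
    intro a ha
    have e : ∑ g, ∑ l, Kr R₁ (θ a) g * Kr R₂ (χ a) l *
        ((if l ∈ S then δ + Λ₁ * ds R₁ (θ a) g else 0) + Λ₂ * ds R₂ (χ a) l) =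
        (δ * ∑ g, Kr R₁ (θ a) g + Λ₁ * ∑ g, Kr R₁ (θ a) g * ds R₁ (θ a) g) *
          ∑ l ∈ S, Kr R₂ (χ a) l +
        (∑ g, Kr R₁ (θ a) g) * (Λ₂ * ∑ l, Kr R₂ (χ a) l * ds R₂ (χ a) l) := by
      rw [mul_sum _ _ δ, mul_sum _ _ Λ₁, ← sum_add_distrib, sum_mul, sum_mul, ← sum_add_distrib]
      refine sum_congr rfl fun g _ => ?_
      rw [← univ_inter S, ← sum_ite_mem, univ_inter, mul_sum, mul_sum, mul_sum, ← sum_add_distrib]
      refine sum_congr rfl fun l _ => ?_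
      split_ifs <;> ring
    rw [e, sum_Kr h1 (hθ a ha)]
    have a1 := mul_le_mul_of_nonneg_left (sum_Kr_ds h1 (hθ a ha)) hΛ₁
    have a2 := mul_le_mul_of_nonneg_left (sum_Kr_ds h2 (hχ a ha)) hΛ₂
    refine add_le_add (mul_le_mul_of_nonneg_right ?_ (sum_nonneg fun l _ =>
      Kr_nonneg h2 (hχ a ha) l)) (mul_le_mul_of_nonneg_left ?_ (by positivity))
    · rw [hA]; linarith
    · rw [hB]; linarith
  refine (sum_le_sum fun a ha => mul_le_mul_of_nonneg_left (k1 a ha) (hp a ha)).trans ?_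
  have k2 : ∑ a ∈ s, p a * ∑ l ∈ S, Kr R₂ (χ a) l ≤ S.card * (M + E) := by
    simp only [mul_sum]
    rw [sum_comm, ← nsmul_eq_mul]
    exact sum_le_card_nsmul _ _ _ fun l _ => h.marg h1 h2 hθ hχ l
  have k3 := mul_le_mul_of_nonneg_left k2 (show 0 ≤ G₁ * A by positivity)
  have k4 := mul_le_mul_of_nonneg_right (h.tot h1 h2 hθ hχ) (show 0 ≤ G₁ * (G₂ * B) by positivity)
  simp only [mul_add (p _), sum_add_distrib, mul_left_comm (p _) (G₁ * A), ← mul_sum _ _ (G₁ * A),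
    ← sum_mul]
  linarith

end

end TF2

open TF2 in
/-- the transfer lemma -/
theorem tf2 {I D J : Type} [Fintype I] [Fintype D] {s : Finset J} {θ : J → I → ℂ}
    {χ : J → D → ℂ} {R₁ R₂ : ℕ} {p q ω : J → ℝ} {M E Ω₀ Ω δ Λ₁ Λ₂ : ℝ} (h1 : 1 ≤ R₁) (h2 : 1 ≤ R₂)
    (hθ : ∀ a ∈ s, ∀ i, ‖θ a i‖ = 1) (hχ : ∀ a ∈ s, ∀ i, ‖χ a i‖ = 1) (hp : ∀ a ∈ s, 0 ≤ p a)
    (hq : ∀ a ∈ s, 0 ≤ q a) (mp : Mom s θ χ R₁ R₂ p M E) (mq : Mom s θ χ R₁ R₂ q M E)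
    (S : Finset (D → Fin (R₂ + 1))) (f : (I → Fin (R₁ + 1)) → (D → Fin (R₂ + 1)) → ℝ)
    (hΩ : 0 ≤ Ω) (hδ : 0 ≤ δ) (hΛ₁ : 0 ≤ Λ₁) (hΛ₂ : 0 ≤ Λ₂)
    (hf : ∀ g l, |f g l| ≤ if l ∈ S then Ω₀ else 0)
    (hω : ∀ a ∈ s, ∀ g l, |ω a - f g l| ≤
      Ω * ((if l ∈ S then δ + Λ₁ * ds R₁ (θ a) g else 0) + Λ₂ * ds R₂ (χ a) l)) :
    |∑ a ∈ s, (p a - q a) * ω a| ≤
      2 * Ω₀ * (S.card / ((R₂ + 1 : ℕ) : ℝ) ^ Fintype.card D) * E + 2 * Ω * (M + E) *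
        (S.card / ((R₂ + 1 : ℕ) : ℝ) ^ Fintype.card D * (δ + Λ₁ * (2 * Fintype.card I / √R₁)) +
          Λ₂ * (2 * Fintype.card D / √R₂)) := by
  have e1 := mp.err h1 h2 hθ hχ hp S hδ hΛ₁ hΛ₂
  have e2 := mq.err h1 h2 hθ hχ hq S hδ hΛ₁ hΛ₂
  set G₁ : ℝ := ((R₁ + 1 : ℕ) : ℝ) ^ Fintype.card I with hG₁
  set G₂ : ℝ := ((R₂ + 1 : ℕ) : ℝ) ^ Fintype.card D with hG₂
  have g1 : 0 < G₁ := by positivity
  have g2 : 0 < G₂ := by positivity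
  set K : J → (I → Fin (R₁ + 1)) → (D → Fin (R₂ + 1)) → ℝ :=
    fun a g l => Kr R₁ (θ a) g * Kr R₂ (χ a) l with hK
  have K0 : ∀ a ∈ s, ∀ g l, 0 ≤ K a g l := fun a ha g l =>
    mul_nonneg (Kr_nonneg h1 (hθ a ha) g) (Kr_nonneg h2 (hχ a ha) l)
  have hs : G₁ * G₂ * ∑ a ∈ s, (p a - q a) * ω a =
      ∑ g, ∑ l, f g l * ∑ a ∈ s, (p a - q a) * K a g l +
        ∑ a ∈ s, (p a - q a) * ∑ g, ∑ l, K a g l * (ω a - f g l) := by
    have k : ∑ g, ∑ l, f g l * ∑ a ∈ s, (p a - q a) * K a g l =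
        ∑ a ∈ s, (p a - q a) * ∑ g, ∑ l, K a g l * f g l := by
      simp only [mul_sum]
      rw [sum_congr rfl fun g _ => sum_comm, sum_comm]
      exact sum_congr rfl fun a _ => sum_congr rfl fun g _ => sum_congr rfl fun l _ => by ring
    rw [k, ← sum_add_distrib, mul_sum]
    refine sum_congr rfl fun a ha => ?_
    rw [← mul_add, ← sum_add_distrib, sum_congr rfl fun g _ => sum_add_distrib.symm]
    simp only [← mul_add, add_sub_cancel, ← sum_mul, hK]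
    rw [← sum_mul_sum, sum_Kr h1 (hθ a ha), sum_Kr h2 (hχ a ha)]
    ring
  have hA : |∑ g, ∑ l, f g l * ∑ a ∈ s, (p a - q a) * K a g l| ≤ G₁ * (S.card * (Ω₀ * (2 * E))) := by
    refine (abs_sum_le_sum_abs _ _).trans ((sum_le_card_nsmul _ _ (S.card * (Ω₀ * (2 * E)))
      fun g _ => (abs_sum_le_sum_abs _ _).trans ?_).trans_eq ?_)
    · rw [← nsmul_eq_mul, ← sum_const, ← univ_inter S, ← sum_ite_mem]
      refine sum_le_sum fun l _ => ?_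
      have a1 := abs_le.1 (mp.ker h1 h2 hθ hχ g l)
      have a2 := abs_le.1 (mq.ker h1 h2 hθ hχ g l)
      have a3 : |∑ a ∈ s, (p a - q a) * K a g l| ≤ 2 * E := by
        simp only [sub_mul, sum_sub_distrib, hK]
        rw [abs_le]
        constructor <;> linarith [a1.1, a1.2, a2.1, a2.2]
      rw [abs_mul]
      refine (mul_le_mul (hf g l) a3 (abs_nonneg _) ((abs_nonneg _).trans (hf g l))).trans_eq ?_
      split_ifs <;> simp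
    · rw [card_univ, Fintype.card_fun, Fintype.card_fin, nsmul_eq_mul, Nat.cast_pow]
  have hB : |∑ a ∈ s, (p a - q a) * ∑ g, ∑ l, K a g l * (ω a - f g l)| ≤
      Ω * ∑ a ∈ s, (p a + q a) * ∑ g, ∑ l, K a g l *
        ((if l ∈ S then δ + Λ₁ * ds R₁ (θ a) g else 0) + Λ₂ * ds R₂ (χ a) l) := by
    rw [mul_sum]
    refine (abs_sum_le_sum_abs _ _).trans (sum_le_sum fun a ha => ?_)
    rw [abs_mul, mul_left_comm]
    refine mul_le_mul ((abs_sub _ _).trans_eq ?_) ?_ (abs_nonneg _) (add_nonneg (hp a ha) (hq a ha))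
    · rw [abs_of_nonneg (hp a ha), abs_of_nonneg (hq a ha)]
    · rw [mul_sum]
      refine (abs_sum_le_sum_abs _ _).trans (sum_le_sum fun g _ => ?_)
      rw [mul_sum]
      refine (abs_sum_le_sum_abs _ _).trans (sum_le_sum fun l _ => ?_)
      rw [abs_mul, abs_of_nonneg (K0 a ha g l), mul_left_comm]
      exact mul_le_mul_of_nonneg_left (hω a ha g l) (K0 a ha g l)
  simp only [add_mul (p _), sum_add_distrib] at hB
  have hB' := hB.trans (mul_le_mul_of_nonneg_left (add_le_add e1 e2) hΩ)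
  refine le_of_mul_le_mul_left ?_ (mul_pos g1 g2)
  rw [← abs_of_pos (mul_pos g1 g2), ← abs_mul, hs, abs_of_pos (mul_pos g1 g2)]
  refine (abs_add_le _ _).trans ((add_le_add hA hB').trans_eq ?_)
  field_simp
  ring

open TF2 in
/-- the mass of a localised function -/
theorem tf2_mass {I D J : Type} [Fintype I] [Fintype D] {s : Finset J} {θ : J → I → ℂ}
    {χ : J → D → ℂ} {R₁ R₂ : ℕ} {p ω : J → ℝ} {M E Λ₂ : ℝ} (h1 : 1 ≤ R₁) (h2 : 1 ≤ R₂)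
    (hθ : ∀ a ∈ s, ∀ i, ‖θ a i‖ = 1) (hχ : ∀ a ∈ s, ∀ i, ‖χ a i‖ = 1) (hp : ∀ a ∈ s, 0 ≤ p a)
    (mp : Mom s θ χ R₁ R₂ p M E) (S : Finset (D → Fin (R₂ + 1))) (hΛ₂ : 0 ≤ Λ₂)
    (hω : ∀ a ∈ s, ∀ l, ω a ≤ (if l ∈ S then 1 else 0) + Λ₂ * ds R₂ (χ a) l) :
    ∑ a ∈ s, p a * ω a ≤ (M + E) * (S.card / ((R₂ + 1 : ℕ) : ℝ) ^ Fintype.card D +
      Λ₂ * (2 * Fintype.card D / √R₂)) := by
  have e1 := mp.err h1 h2 hθ hχ hp S zero_le_one le_rfl hΛ₂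
  simp only [zero_mul, add_zero, mul_one] at e1
  set G₁ : ℝ := ((R₁ + 1 : ℕ) : ℝ) ^ Fintype.card I with hG₁
  set G₂ : ℝ := ((R₂ + 1 : ℕ) : ℝ) ^ Fintype.card D with hG₂
  have g1 : 0 < G₁ := by positivity
  have g2 : 0 < G₂ := by positivity
  refine le_of_mul_le_mul_left ?_ (mul_pos g1 g2)
  refine le_trans ?_ (e1.trans_eq (by field_simp))
  rw [mul_sum]
  refine sum_le_sum fun a ha => ?_
  rw [mul_left_comm]
  refine mul_le_mul_of_nonneg_left ?_ (hp a ha)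
  rw [hG₁, hG₂, ← sum_Kr h1 (hθ a ha), ← sum_Kr h2 (hχ a ha), sum_mul_sum, sum_mul]
  refine sum_le_sum fun g _ => ?_
  rw [sum_mul]
  exact sum_le_sum fun l _ => mul_le_mul_of_nonneg_left (hω a ha l)
    (mul_nonneg (Kr_nonneg h1 (hθ a ha) g) (Kr_nonneg h2 (hχ a ha) l))

end

end Pool.Agent.P.MP_b8021b_nt.VC
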