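import Pool.Agent.P.MP_b8021b_nt.VC.DefN
import Pool.Agent.P.MP_b8021b_nt.VC.PTF2

/-! Units, reduced elements, unfolding and types. -/

namespace Pool.Agent.P.MP_b8021b_nt.VC

open NumberField Finset Pool.Agent.P.MP_b8021b_nt.VE
open scoped Classical ComplexConjugate

noncomputable section

namespace Cos

variable {k : Type} [Field k] [NumberField k] [Algebra k ℂ] {E : Type} [Field E] [NumberField E]
  [Algebra k E] {n : ℕ} {ℓ : ℝ} (U : UB k E n ℓ)

omit [NumberField k] [NumberField E] in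
lemma emb_mul (a b : 𝓞 E) (φ : Emb k E) : emb k (a * b) φ = emb k a φ * emb k b φ := by
  simp [emb]

omit [NumberField k] [NumberField E] in
lemma emb_sub (a b : 𝓞 E) : emb k (a - b) = emb k a - emb k b := by
  funext φ
  simp [emb]

omit [NumberField k] [NumberField E] in
lemma emb_ne {a : 𝓞 E} (h : a ≠ 0) (φ : Emb k E) : emb k a φ ≠ 0 := by
  simpa [emb] using h

omit [NumberField k] [NumberField E] in
lemma lg_mul {a b : 𝓞 E} (ha : a ≠ 0) (hb : b ≠ 0) :
    lg (emb k (a * b)) = lg (emb k a) + lg (emb k b) := by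
  funext φ
  simp only [lg, Pi.add_apply, emb_mul, norm_mul]
  exact Real.log_mul (norm_ne_zero_iff.2 (emb_ne ha φ)) (norm_ne_zero_iff.2 (emb_ne hb φ))

lemma dir_mul (z w : ℂ) : dir (z * w) = dir z * dir w := by
  simp only [dir, norm_mul, Complex.ofReal_mul]
  exact mul_div_mul_comm _ _ _ _

lemma norm_dir {z : ℂ} (h : z ≠ 0) : ‖dir z‖ = 1 := by
  unfold dir
  rw [norm_div, Complex.norm_real, norm_norm, div_self (norm_ne_zero_iff.mpr h)]

/-- the unit with given exponents -/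
def un (j : Fin U.m → ℤ) : (𝓞 E)ˣ := ∏ i, U.ε i ^ j i

/-- an embedding on the units -/
def hom (φ : Emb k E) : (𝓞 E)ˣ →* ℂ where
  toFun η := emb k (η : 𝓞 E) φ
  map_one' := by simp [emb]
  map_mul' a b := by simp [emb]

lemma emb_un (j : Fin U.m → ℤ) (φ : Emb k E) :
    emb k (un U j : 𝓞 E) φ = ∏ i, emb k (U.ε i : 𝓞 E) φ ^ j i := by
  change hom φ (un U j) = _
  rw [un, map_prod]
  exact prod_congr rfl fun i _ => map_zpow _ _ _

lemma lg_un (j : Fin U.m → ℤ) : lg (emb k (un U j : 𝓞 E)) = U.lv fun i => j i := by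
  funext φ
  simp only [lg, emb_un, UB.lv, Finset.sum_apply, Pi.smul_apply, smul_eq_mul, norm_prod, norm_zpow]
  rw [Real.log_prod fun i _ => zpow_ne_zero _ (norm_ne_zero_iff.2 (emb_ne (U.ε i).ne_zero φ))]
  exact sum_congr rfl fun i _ => Real.log_zpow _ _

lemma dir_un (h : U.Pos) (j : Fin U.m → ℤ) (φ : Emb k E) : dir (emb k (un U j : 𝓞 E) φ) = 1 := by
  have e : ∀ i, emb k (U.ε i : 𝓞 E) φ = (‖emb k (U.ε i : 𝓞 E) φ‖ : ℝ) := fun i =>
    (div_eq_one_iff_eq (by simpa using emb_ne (U.ε i).ne_zero φ)).1 (h i φ)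
  refine (div_eq_one_iff_eq (by simpa using emb_ne (un U j).ne_zero φ)).2 ?_
  rw [emb_un, norm_prod, Complex.ofReal_prod]
  exact prod_congr rfl fun i _ => by rw [norm_zpow, Complex.ofReal_zpow, ← e]

lemma co_lv (x : Fin U.m → ℝ) : U.co (U.lv x) = x := by
  simp only [UB.lv, map_sum, map_smul, U.co_ε]
  funext i
  simp [Finset.sum_apply, Pi.single_apply]

lemma lv_sub (x y : Fin U.m → ℝ) : U.lv (x - y) = U.lv x - U.lv y := by
  simp only [UB.lv, Pi.sub_apply, sub_smul, sum_sub_distrib]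

lemma norm_lv (x : Fin U.m → ℝ) : ‖U.lv x‖ ≤ ℓ * ∑ j, |x j| := by
  rw [UB.lv, mul_sum]
  refine (norm_sum_le _ _).trans (sum_le_sum fun j _ => ?_)
  rw [norm_smul, Real.norm_eq_abs, mul_comm]
  exact mul_le_mul_of_nonneg_right (U.size j) (abs_nonneg _)

lemma un_cong (j : Fin U.m → ℤ) : (n : 𝓞 E) ∣ (un U j : 𝓞 E) - 1 := by
  have h : ∀ η : (𝓞 E)ˣ, (n : 𝓞 E) ∣ (η : 𝓞 E) - 1 ↔
      Units.map (Ideal.Quotient.mk (Ideal.span {(n : 𝓞 E)})).toMonoidHom η = 1 := fun η => by
    rw [← Ideal.mem_span_singleton, ← Ideal.Quotient.eq, Units.ext_iff]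
    simp
  rw [h, un, map_prod]
  exact prod_eq_one fun i _ => by rw [map_zpow, (h _).1 (U.cong i), one_zpow]

lemma un_add (j j' : Fin U.m → ℤ) : un U (j + j') = un U j * un U j' := by
  simp only [un, Pi.add_apply, zpow_add, prod_mul_distrib]

lemma un_zero : un U 0 = 1 := by simp [un]

/-- the coordinates of an integer -/
def cx (a : 𝓞 E) : Fin U.m → ℝ := U.co (lg (emb k a))

lemma cx_mul {a : 𝓞 E} (ha : a ≠ 0) (j : Fin U.m → ℤ) (i : Fin U.m) :
    cx U (a * un U j) i = cx U a i + j i := by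
  rw [cx, lg_mul ha (un U j).ne_zero, map_add, lg_un, co_lv]
  rfl

/-- reduced elements -/
def Red (a : 𝓞 E) : Prop := ∀ i, round (cx U a i) = 0

lemma Red.abs_le {a : 𝓞 E} (h : Red U a) (i : Fin U.m) : |cx U a i| ≤ 1 / 2 := by
  simpa [h i] using abs_sub_round (cx U a i)

lemma tent_sum {c : ℝ} (h : |c| ≤ 1 / 2) :
    ∑ j ∈ ({-1, 0, 1} : Finset ℤ), tent (c + j) = 1 := by
  rw [sum_insert (by simp), sum_pair (by simp)]
  obtain ⟨h1, h2⟩ := abs_le.1 h
  simp only [tent, Int.cast_neg, Int.cast_one, Int.cast_zero, add_zero]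
  rw [abs_of_nonpos (by linarith : c + -1 ≤ 0), abs_of_nonneg (by linarith : 0 ≤ c + 1)]
  rcases le_total 0 c with h3 | h3
  · rw [abs_of_nonneg h3, max_eq_right (by linarith), max_eq_right (by linarith),
      max_eq_left (by linarith)]
    ring
  · rw [abs_of_nonpos h3, max_eq_left (by linarith), max_eq_right (by linarith),
      max_eq_right (by linarith)]
    ring

/-- unfolding -/
lemma unfold {A : Set (𝓞 E)} {F : 𝓞 E → ℂ} (s : Finset (𝓞 E)) (h0 : ∀ a ∈ A, F a ≠ 0 → a ≠ 0)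
    (hA : ∀ a ∈ A, ∀ j, a * un U j ∈ A ∧ F (a * un U j) = F a)
    (hs : ∀ a ∈ s, a ∈ A ∧ Red U a ∧ a ≠ 0) (hs' : ∀ a ∈ A, Red U a → F a ≠ 0 → a ∈ s) :
    ∑ᶠ a ∈ A, (U.β (emb k a) : ℂ) * F a = ∑ a ∈ s, F a := by
  set T : Finset (Fin U.m → ℤ) := Fintype.piFinset fun _ => {-1, 0, 1} with hT
  have hr : ∀ a ∈ s, ∀ j i, round (cx U (a * un U j) i) = j i := fun a ha j i => by
    rw [cx_mul U (hs a ha).2.2, round_add_intCast, (hs a ha).2.1 i, zero_add]
  have inj : Set.InjOn (fun x : 𝓞 E × (Fin U.m → ℤ) => x.1 * un U x.2) (s ×ˢ T : Finset _) := by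
    rintro ⟨a, j⟩ h ⟨a', j'⟩ h' e
    have h1 := (mem_product.1 h).1
    have h2 := (mem_product.1 h').1
    simp only at e h1 h2
    have : j = j' := funext fun i => by rw [← hr a h1 j i, e, hr a' h2 j' i]
    subst this
    rw [mul_right_cancel₀ (un U j).ne_zero e]
  rw [finsum_mem_eq_sum_of_inter_support_eq _ (t := (s ×ˢ T).image
      fun x : 𝓞 E × (Fin U.m → ℤ) => x.1 * un U x.2),
    sum_image inj, sum_product]
  · refine sum_congr rfl fun a ha => ?_
    rw [sum_congr rfl fun j _ => by rw [(hA a (hs a ha).1 j).2], ← sum_mul]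
    have : ∑ j ∈ T, U.β (emb k (a * un U j)) = 1 := by
      have e : ∀ j, U.β (emb k (a * un U j)) = ∏ i, tent (cx U a i + j i) := fun j =>
        prod_congr rfl fun i _ => by rw [← cx_mul U (hs a ha).2.2]; rfl
      rw [sum_congr rfl fun j _ => e j, hT, ← prod_univ_sum (fun _ => ({-1, 0, 1} : Finset ℤ))
        fun i j => tent (cx U a i + j)]
      exact prod_eq_one fun i _ => tent_sum ((hs a ha).2.1.abs_le U i)
    rw [← Complex.ofReal_sum, this, Complex.ofReal_one, one_mul]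
  · ext a
    simp only [Set.mem_inter_iff, Function.mem_support, coe_image, Set.mem_image, mem_coe,
      mem_product]
    refine and_congr_left fun h => ⟨fun ha => ?_, ?_⟩
    · have hF := right_ne_zero_of_mul h
      have a0 := h0 a ha hF
      set j : Fin U.m → ℤ := fun i => round (cx U a i) with hj
      have h1 := hA a ha (-j)
      refine ⟨(a * un U (-j), j), ⟨hs' _ h1.1 (fun i => ?_) (h1.2 ▸ hF), ?_⟩, ?_⟩
      · rw [cx_mul U a0, round_add_intCast]
        simp [hj]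
      · refine Fintype.mem_piFinset.2 fun i => ?_
        have h2 : tent (cx U a i) ≠ 0 := fun h3 => left_ne_zero_of_mul h
          (Complex.ofReal_eq_zero.2 (prod_eq_zero (mem_univ i) h3))
        have h3 : |cx U a i| < 1 := by
          by_contra h4
          exact h2 (max_eq_left (by linarith [not_lt.1 h4]))
        have h4 := abs_le.1 (abs_sub_round (cx U a i))
        have h5 := abs_lt.1 h3
        have h6 : (-2 : ℝ) < j i ∧ (j i : ℝ) < 2 := by
          constructor <;> simp only [hj] <;> linarith [h4.1, h4.2, h5.1, h5.2]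
        have h7 : -2 < j i ∧ j i < 2 := by exact_mod_cast h6
        simp only [mem_insert, mem_singleton]
        omega
      · simp only
        rw [mul_assoc, ← Units.val_mul, ← un_add, neg_add_cancel, un_zero, Units.val_one, mul_one]
    · rintro ⟨x, hx, rfl⟩
      exact (hA _ (hs _ hx.1).1 _).1

/-- `exp (2 π i x)` -/
def ex (x : ℝ) : ℂ := Complex.exp (Complex.I * ((2 * Real.pi * x : ℝ) : ℂ))

lemma norm_ex (x : ℝ) : ‖ex x‖ = 1 := by
  rw [ex, mul_comm]
  exact Complex.norm_exp_ofReal_mul_I _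

lemma ex_add (x y : ℝ) : ex (x + y) = ex x * ex y := by
  rw [ex, ex, ex, ← Complex.exp_add]
  congr 1
  push_cast
  ring

lemma ex_int (j : ℤ) : ex j = 1 := by
  rw [ex, ← Complex.exp_int_mul_two_pi_mul_I j]
  congr 1
  push_cast
  ring

/-- the type attached to a character of the torus of the units -/
def tau (κ : Fin U.m → ℤ) (φ : Emb k E) : ℝ :=
  2 * Real.pi * ∑ j, κ j * U.co (Pi.single φ 1) j

lemma sum_tau (κ : Fin U.m → ℤ) (x : Emb k E → ℝ) :
    ∑ φ, tau U κ φ * x φ = ∑ j, κ j * (2 * Real.pi * U.co x j) := by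
  conv_rhs => rw [← univ_sum_single x, map_sum]
  simp only [tau, Finset.sum_apply, mul_sum, sum_mul]
  rw [sum_comm]
  refine sum_congr rfl fun j _ => sum_congr rfl fun φ _ => ?_
  have : (Pi.single φ (x φ) : Emb k E → ℝ) = x φ • Pi.single φ 1 := by
    rw [← Pi.single_smul', smul_eq_mul, mul_one]
  rw [this, map_smul, Pi.smul_apply, smul_eq_mul]
  ring

lemma tau_sum (κ : Fin U.m → ℤ) : ∑ φ, tau U κ φ = 0 := by
  simpa [U.co_one] using sum_tau U κ fun _ => 1

lemma tau_inj {κ κ' : Fin U.m → ℤ} (h : tau U κ = tau U κ') : κ = κ' := by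
  funext i
  have h1 := sum_tau U κ (lg (emb k (U.ε i : 𝓞 E)))
  rw [h, sum_tau, U.co_ε] at h1
  simp only [Pi.single_apply, mul_ite, mul_one, mul_zero, sum_ite_eq', mem_univ, if_true] at h1
  exact_mod_cast (mul_right_cancel₀ (by positivity) h1).symm

lemma tau_zero : tau U 0 = 0 := by
  funext φ
  simp [tau]

lemma mem_bx {I : Type} [Fintype I] {R : ℕ} {κ : I → ℤ} :
    κ ∈ TF2.bx I R ↔ ∀ i, |κ i| < R := by
  simp only [TF2.bx, Fintype.mem_piFinset, Finset.mem_Ioo, abs_lt]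

lemma tau_le {κ : Fin U.m → ℤ} {R : ℕ} (h : κ ∈ TF2.bx (Fin U.m) R) (φ : Emb k E) :
    |tau U κ φ| ≤ U.m * R := by
  have h1 : |∑ j, κ j * U.co (Pi.single φ 1) j| ≤ U.m * (R * (1 / 100)) := by
    refine (abs_sum_le_sum_abs _ _).trans ((sum_le_card_nsmul _ _ (R * (1 / 100) : ℝ)
      fun j _ => ?_).trans_eq (by simp))
    have h3 := (mem_bx.1 h j).le
    have h4 := (norm_le_pi_norm _ j).trans (U.small (Pi.single φ 1))
    rw [Pi.norm_single, norm_one, Real.norm_eq_abs] at h4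
    rw [abs_mul]
    exact mul_le_mul (by exact_mod_cast h3) h4 (abs_nonneg _) (by positivity)
  rw [tau, abs_mul, abs_of_pos (by positivity)]
  have h2 : 2 * Real.pi ≤ 100 := by linarith [Real.pi_le_four]
  refine (mul_le_mul h2 h1 (abs_nonneg _) (by norm_num)).trans_eq (by ring)

lemma ty_eq (κ : Emb k E → ℤ) (κ' : Fin U.m → ℤ) (z : Emb k E → ℂ) :
    ty κ (tau U κ') z = TF2.mono (fun φ => dir (z φ)) κ *
      TF2.mono (fun j => ex (U.co (lg z) j)) κ' := by
  rw [ty, prod_mul_distrib, TF2.mono, TF2.mono, ← Complex.exp_sum]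
  congr 1
  simp only [ex, ← Complex.exp_int_mul]
  rw [← Complex.exp_sum, ← mul_sum, ← Complex.ofReal_sum]
  have := sum_tau U κ' (lg z)
  simp only [lg] at this ⊢
  rw [this, Complex.ofReal_sum, mul_sum]
  congr 1
  refine sum_congr rfl fun j _ => ?_
  push_cast
  ring

lemma ty_un (h : U.Pos) (κ : Emb k E → ℤ) (κ' : Fin U.m → ℤ) {a : 𝓞 E} (ha : a ≠ 0)
    (j : Fin U.m → ℤ) : ty κ (tau U κ') (emb k (a * un U j)) = ty κ (tau U κ') (emb k a) := by
  rw [ty_eq, ty_eq]
  congr 2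
  · funext φ
    rw [emb_mul, dir_mul, dir_un U h, mul_one]
  · funext i
    change ex (cx U _ i) = ex (cx U a i)
    rw [cx_mul U ha, ex_add, ex_int, mul_one]

lemma tr_tau (h : U.Pos) (κ : Emb k E → ℤ) (κ' : Fin U.m → ℤ) : U.Tr κ (tau U κ') := by
  intro j
  rw [ty_eq, U.co_ε]
  have : ∀ i, ex ((Pi.single j 1 : Fin U.m → ℝ) i) = 1 := fun i => by
    rw [Pi.single_apply]
    split_ifs
    · simpa using ex_int 1
    · simpa using ex_int 0
  simp [TF2.mono, h j, this]

end Cos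

end

end Pool.Agent.P.MP_b8021b_nt.VC
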