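import Pool.Agent.P.MP_b8021b_nt.VC.PCos1

/-! The transfer lemma on one shell of a coset. -/

namespace Pool.Agent.P.MP_b8021b_nt.VC

open NumberField Finset Pool.Agent.P.MP_b8021b_nt.VE
open scoped Classical ComplexConjugate

noncomputable section

namespace Cos

lemma exp_lip {a b c : ℝ} (ha : a ≤ c) (hb : b ≤ c) :
    |Real.exp a - Real.exp b| ≤ Real.exp c * |a - b| := by
  wlog h : b ≤ a generalizing a b
  · rw [abs_sub_comm, abs_sub_comm a]
    exact this hb ha (not_le.mp h).le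
  rw [abs_of_nonneg (sub_nonneg.mpr (Real.exp_le_exp.mpr h)), abs_of_nonneg (sub_nonneg.mpr h)]
  have h1 : Real.exp b = Real.exp a * Real.exp (b - a) := by
    rw [← Real.exp_add]
    congr 1
    ring
  have h2 := Real.add_one_le_exp (b - a)
  have h3 := Real.exp_le_exp.mpr ha
  have h4 := Real.exp_pos a
  rw [h1]
  nlinarith [mul_le_mul_of_nonneg_left h2 h4.le, mul_le_mul_of_nonneg_right h3 (sub_nonneg.mpr h)]

lemma ex_dist {c x : ℝ} (h : |c - x| ≤ 3 / 4) : |c - x| ≤ ‖ex c - ex x‖ := by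
  have e : ex c - ex x = ex x * (ex (c - x) - 1) := by
    rw [mul_sub, ← ex_add, add_sub_cancel, mul_one]
  rw [e, norm_mul, norm_ex, one_mul, ex, Complex.norm_exp_I_mul_ofReal_sub_one, Real.norm_eq_abs,
    abs_mul, abs_two]
  generalize c - x = t at h ⊢
  have key : ∀ t : ℝ, 0 ≤ t → t ≤ 1 / 2 → 2 * t ≤ Real.sin (Real.pi * t) := fun t h0 h1 => by
    have := Real.mul_le_sin (x := Real.pi * t) (by positivity)
      (by nlinarith [Real.pi_pos])
    rwa [← mul_assoc, div_mul_cancel₀ _ Real.pi_ne_zero] at this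
  have e2 : |Real.sin (2 * Real.pi * t / 2)| = |Real.sin (Real.pi * |t|)| := by
    rcases abs_choice t with h1 | h1 <;> rw [h1]
    · congr 2
      ring
    · rw [mul_neg, Real.sin_neg, abs_neg]
      congr 2
      ring
  rw [e2]
  have h0 := abs_nonneg t
  generalize |t| = r at h h0 ⊢
  have h3 := le_abs_self (Real.sin (Real.pi * r))
  rcases le_total r (1 / 2) with h1 | h1
  · linarith [key r h0 h1]
  · have h2 := key (1 - r) (by linarith) (by linarith)
    rw [mul_sub Real.pi, mul_one, Real.sin_pi_sub] at h2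
    linarith

/-- the centred representative -/
def zc (R : ℕ) (l : Fin (R + 1)) : ℤ := if 2 * l.1 ≤ R then l.1 else l.1 - (R + 1)

lemma zc_inj {R : ℕ} {l l' : Fin (R + 1)} (h : zc R l = zc R l') : l = l' := by
  have := l.2
  have := l'.2
  unfold zc at h
  ext
  split_ifs at h <;> omega

lemma zc_le (R : ℕ) (l : Fin (R + 1)) : |(zc R l : ℝ) / (R + 1)| ≤ 1 / 2 := by
  have h : 2 * |zc R l| ≤ R + 1 := by
    have := l.2
    rcases abs_choice (zc R l) with h | h <;> rw [h, zc] <;> split_ifs <;> omega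
  have h' : 2 * |(zc R l : ℝ)| ≤ R + 1 := by exact_mod_cast h
  rw [abs_div, abs_of_pos (by positivity : (0 : ℝ) < R + 1), div_le_iff₀ (by positivity)]
  linarith

lemma ex_zc (R : ℕ) (l : Fin (R + 1)) : ex ((zc R l : ℝ) / (R + 1)) = rt (R + 1) l := by
  have e : ex ((l.1 : ℝ) / (R + 1)) = rt (R + 1) l := by
    rw [ex, rt]
    congr 1
    push_cast
    ring
  unfold zc
  split_ifs
  · simpa using e
  · rw [← e, ← mul_one (ex ((l.1 : ℝ) / _)), ← ex_int (-1), ← ex_add]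
    congr 1
    push_cast
    field_simp
    ring

variable {k : Type} [Field k] [NumberField k] [Algebra k ℂ] {E : Type} [Field E] [NumberField E]
  [Algebra k E] {n : ℕ} {ℓ : ℝ} (U : UB k E n ℓ)

/-- the grid in the logarithmic coordinates -/
def xc (R : ℕ) (l : Fin U.m → Fin (R + 1)) : Fin U.m → ℝ := fun j => (zc R (l j) : ℝ) / (R + 1)

/-- the grid points near the origin -/
def SS (R : ℕ) : Finset (Fin U.m → Fin (R + 1)) := univ.filter fun l => ‖U.lv (xc U R l)‖ ≤ 4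

lemma card_SS {R : ℕ} {v c : ℝ} (hv : 0 < v)
    (hf : {γ : Fin U.m → ℤ | ‖U.lv fun j => (γ j : ℝ) / (R + 1 : ℕ)‖ ≤ 4}.Finite)
    (h : v * Set.ncard {γ : Fin U.m → ℤ | ‖U.lv fun j => (γ j : ℝ) / (R + 1 : ℕ)‖ ≤ 4} ≤
      c * ((R + 1 : ℕ) : ℝ) ^ U.m) :
    (SS U R).card / ((R + 1 : ℕ) : ℝ) ^ Fintype.card (Fin U.m) ≤ c / v := by
  rw [Fintype.card_fin, div_le_div_iff₀ (by positivity) hv, mul_comm]
  refine le_trans (mul_le_mul_of_nonneg_left (Nat.cast_le.2 ?_) hv.le) h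
  rw [← Set.ncard_coe_finset]
  refine Set.ncard_le_ncard_of_injOn (fun l j => zc R (l j)) (fun l hl => ?_)
    (fun l _ l' _ e => funext fun j => zc_inj (congrFun e j)) hf
  have := (mem_filter.1 hl).2
  simp only [Set.mem_ofPred_eq, Nat.cast_add, Nat.cast_one]
  exact this

lemma card_emb : Fintype.card (Emb k E) = U.m + 1 := by
  rw [U.hm]
  exact AlgHom.card k E ℂ

lemma lv_co (x : Emb k E → ℝ) (φ : Emb k E) :
    U.lv (U.co x) φ = x φ - (∑ ψ, x ψ) / (U.m + 1) := by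
  set c : ℝ := (∑ ψ, x ψ) / (U.m + 1) with hc
  have h1 : U.co (x - c • fun _ => 1) = U.co x := by
    rw [map_sub, map_smul, U.co_one, smul_zero, sub_zero]
  have h2 := U.span (x - c • fun _ => 1) (by
    simp only [Pi.sub_apply, Pi.smul_apply, smul_eq_mul, mul_one, sum_sub_distrib, sum_const,
      card_univ, card_emb U, nsmul_eq_mul, hc]
    push_cast
    field_simp
    ring)
  rw [h1] at h2
  rw [UB.lv, h2]
  simp

omit [NumberField k] [NumberField E] in
lemma log_nz [Fintype (Emb k E)] {a : 𝓞 E} (h : a ≠ 0) :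
    0 < nz (emb k a) ∧ Real.log (nz (emb k a)) = 2 * ∑ φ, lg (emb k a) φ := by
  have h1 : ∀ φ, 0 < ‖emb k a φ‖ ^ 2 := fun φ => pow_pos (norm_pos_iff.2 (emb_ne h φ)) 2
  refine ⟨prod_pos fun φ _ => h1 φ, ?_⟩
  rw [nz, Real.log_prod fun φ _ => (h1 φ).ne', mul_sum]
  exact sum_congr rfl fun φ _ => by rw [Real.log_pow, lg]; norm_num

variable (k) in
/-- `a` lies in the shell number `m` -/
def Near (u N : ℕ) (Z : ℝ) (m : ℕ) (a : 𝓞 E) : Prop :=
  a ≠ 0 ∧ |N * Real.log (nz (emb k a) / Z) - m| ≤ u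

lemma norm_emb {X : ℝ} (hX : 0 < X) {a : 𝓞 E} (h : a ≠ 0) (φ : Emb k E) :
    ‖emb k a φ‖ = X * Real.exp (U.lv (cx U a) φ +
      Real.log (nz (emb k a) / X ^ (2 * (U.m + 1))) / (2 * (U.m + 1))) := by
  rw [cx, lv_co, Real.log_div (log_nz h).1.ne' (by positivity), (log_nz h).2, Real.log_pow,
    ← Real.exp_log hX, ← Real.exp_add, Real.log_exp,
    ← Real.exp_log (norm_pos_iff.2 (emb_ne h φ))]
  congr 1
  rw [lg]
  push_cast
  field_simp
  ring

lemma Near.rad {u N m : ℕ} (hN : 1 ≤ N) (hm : m ≤ u * N) {Z : ℝ} {a : 𝓞 E} (h : Near k u N Z m a)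
    (d : ℕ) : Real.log (nz (emb k a) / Z) / (2 * (d + 1)) ≤ u ∧ m / (N * (2 * (d + 1))) ≤ (u : ℝ) ∧
      |Real.log (nz (emb k a) / Z) / (2 * (d + 1)) - m / (N * (2 * (d + 1)))| ≤ u / N := by
  have h1 := h.2
  generalize Real.log (nz (emb k a) / Z) = t at h1 ⊢
  have hN' : (1 : ℝ) ≤ N := by exact_mod_cast hN
  have hm' : (m : ℝ) ≤ u * N := by exact_mod_cast hm
  have hu : (0 : ℝ) ≤ u := Nat.cast_nonneg u
  have hd : (2 : ℝ) ≤ 2 * (d + 1) := by linarith [(Nat.cast_nonneg d : (0 : ℝ) ≤ d)]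
  generalize (2 * (d + 1) : ℝ) = D at hd ⊢
  have h2 := abs_le.1 h1
  have h3 : t ≤ u * 2 := by
    by_contra h4
    nlinarith [not_le.1 h4, h2.2]
  refine ⟨?_, ?_, ?_⟩
  · rw [div_le_iff₀ (by linarith)]
    nlinarith
  · rw [div_le_iff₀ (by positivity)]
    nlinarith [mul_nonneg hu (zero_le_one.trans hN')]
  · have : t / D - m / (N * D) = (N * t - m) / (N * D) := by field_simp
    rw [this, abs_div, abs_of_pos (by positivity : 0 < N * D)]
    gcongr
    nlinarith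

variable (k) in
/-- the angles -/
def th (a : 𝓞 E) : Emb k E → ℂ := fun φ => dir (emb k a φ)

/-- the point on the torus of the units -/
def ch (a : 𝓞 E) : Fin U.m → ℂ := fun j => ex (cx U a j)

lemma lv_dist {a : 𝓞 E} {R : ℕ} (l : Fin U.m → Fin (R + 1)) (h : Red U a)
    (h' : ‖U.lv (cx U a)‖ ≤ 4 ∨ ‖U.lv (xc U R l)‖ ≤ 4) :
    ‖U.lv (cx U a) - U.lv (xc U R l)‖ ≤ ℓ * TF2.ds R (ch U a) l := by
  rw [← lv_sub]
  refine (norm_lv U _).trans (mul_le_mul_of_nonneg_left (sum_le_sum fun j _ => ?_)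
    (zero_le_one.trans U.one_le))
  rw [← ex_zc]
  refine ex_dist ?_
  have k1 : ∀ x : Fin U.m → ℝ, ‖U.lv x‖ ≤ 4 → |x j| ≤ 1 / 4 := fun x hx => by
    have := (norm_le_pi_norm _ j).trans (U.small (U.lv x))
    rw [co_lv, Real.norm_eq_abs] at this
    linarith
  have k2 := abs_sub (cx U a j) (xc U R l j)
  have k3 := h.abs_le U j
  have k4 : |xc U R l j| ≤ 1 / 2 := zc_le R (l j)
  change |cx U a j - xc U R l j| ≤ _
  rcases h' with h' | h' <;> linarith [k1 _ h']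

lemma ds_nonneg {I : Type} [Fintype I] (R : ℕ) (θ : I → ℂ) (g : I → Fin (R + 1)) :
    0 ≤ TF2.ds R θ g := sum_nonneg fun _ _ => norm_nonneg _

/-- the constant of the transfer -/
def cT (u d : ℕ) : ℝ := Real.exp (u + 5) * (u + 1 + 4 * (d + 1))

lemma one_le_cT (u d : ℕ) : 1 ≤ cT u d :=
  one_le_mul_of_one_le_of_one_le (Real.one_le_exp (by positivity))
    (by linarith [(Nat.cast_nonneg d : (0 : ℝ) ≤ d), (Nat.cast_nonneg u : (0 : ℝ) ≤ u)])

/-- the transfer on one shell -/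
lemma level {u N m R : ℕ} (hN : 1 ≤ N) (hm : m ≤ u * N) (hR : 1 ≤ R) {X μ M Er Ω Λ δ : ℝ}
    (hX : 0 < X) {A : Set (𝓞 E)} {s : Finset (𝓞 E)} {p q ω : 𝓞 E → ℝ}
    (hs : ∀ a ∈ s, a ∈ A ∧ Red U a ∧ Near k u N (X ^ (2 * (U.m + 1))) m a)
    (hp : ∀ a ∈ s, 0 ≤ p a) (hq : ∀ a ∈ s, 0 ≤ q a)
    (mp : TF2.Mom s (th k) (ch U) (N ^ 2) R p M Er) (mq : TF2.Mom s (th k) (ch U) (N ^ 2) R q M Er)
    (hM : 0 ≤ M) (hE : 0 ≤ Er)
    (hμ : (SS U R).card / ((R + 1 : ℕ) : ℝ) ^ Fintype.card (Fin U.m) ≤ μ) (hℓ : ℓ / √R ≤ μ / N)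
    (hc : ∀ ζ, ∃ a ∈ A, ‖emb k a - ζ‖ ≤ X / N) (hΩ : 0 ≤ Ω) (hΛ : 0 ≤ Λ) (hδ : 0 ≤ δ)
    (hb : ∀ a ∈ A, |ω a| ≤ Ω) (hsupp : ∀ a ∈ A, ω a ≠ 0 → ‖U.lv (cx U a)‖ ≤ 3)
    (hl : ∀ a ∈ A, ∀ a' ∈ A, |ω a - ω a'| ≤ Ω * (Λ * ‖emb k a - emb k a'‖ / X + δ)) :
    |∑ a ∈ s, (p a - q a) * ω a| ≤
      2 * cT u U.m * Ω * μ * (Er + (M + Er) * (δ + (1 + Λ) / N)) := by
  choose pt hpt hd using hc
  set c : ℝ := Real.exp (u + 5) with hc
  have c1 : 1 ≤ c := Real.one_le_exp (by positivity)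
  have hN' : (1 : ℝ) ≤ N := by exact_mod_cast hN
  have l0 : 0 ≤ ℓ := zero_le_one.trans U.one_le
  set ζ : (Emb k E → Fin (N ^ 2 + 1)) → (Fin U.m → Fin (R + 1)) → Emb k E → ℂ := fun g l φ =>
    (X * Real.exp (U.lv (xc U R l) φ + m / (N * (2 * (U.m + 1)))) : ℝ) * rt (N ^ 2 + 1) (g φ)
    with hζ
  have key := tf2 (θ := th k) (χ := ch U) (ω := ω) (Ω₀ := Ω) (Ω := Ω) (δ := δ + Λ * ((c * u + 1) / N)) (Λ₁ := Λ * c)
    (Λ₂ := (2 + Λ * c) * ℓ) (Nat.one_le_pow _ _ hN) hR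
    (fun a ha φ => norm_dir (emb_ne (hs a ha).2.2.1 φ)) (fun a _ j => norm_ex _) hp hq mp mq
    (SS U R) (fun g l => if l ∈ SS U R then ω (pt (ζ g l)) else 0) hΩ (by positivity)
    (by positivity) (by positivity) (fun g l => by
      split_ifs
      · exact hb _ (hpt _)
      · simp) ?_
  · refine key.trans ?_
    rw [card_emb U]
    generalize (SS U R).card / ((R + 1 : ℕ) : ℝ) ^ Fintype.card (Fin U.m) = ν at hμ
    have e1 : √((N ^ 2 : ℕ) : ℝ) = N := by rw [Nat.cast_pow, Real.sqrt_sq (by positivity)]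
    have μ0 : 0 ≤ μ / N := le_trans (by positivity) hℓ
    have μ1 : 0 ≤ μ := by
      rwa [le_div_iff₀ (by positivity), zero_mul] at μ0
    have T1 := one_le_cT u U.m
    have a1 : (2 + Λ * c) * ℓ * (2 * Fintype.card (Fin U.m) / √R) ≤
        μ * ((2 + Λ * c) * (2 * (U.m + 1)) / N) := by
      rw [Fintype.card_fin]
      calc _ = ℓ / √R * ((2 + Λ * c) * (2 * U.m)) := by ring
        _ ≤ μ / N * ((2 + Λ * c) * (2 * (U.m + 1))) := by gcongr; linarith
        _ = _ := by ring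
    have a2 : δ + Λ * ((c * u + 1) / N) + Λ * c * (2 * ((U.m + 1 : ℕ) : ℝ) / N) +
        (2 + Λ * c) * (2 * (U.m + 1)) / N ≤ cT u U.m * (δ + (1 + Λ) / N) := by
      have b1 : Λ * (c * u + 1) + Λ * c * (2 * (U.m + 1)) + (2 + Λ * c) * (2 * (U.m + 1)) ≤
          cT u U.m * (1 + Λ) := by
        rw [cT, ← hc]
        have := mul_le_mul_of_nonneg_left c1 hΛ
        have := mul_le_mul_of_nonneg_right c1 (show (0 : ℝ) ≤ U.m + 1 by positivity)
        have : 0 ≤ c * (u + 1) := by positivity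
        linarith
      have b2 := div_le_div_of_nonneg_right b1 (show (0 : ℝ) ≤ N by positivity)
      have b3 := mul_le_mul_of_nonneg_right T1 hδ
      push_cast
      calc _ = δ + (Λ * (c * u + 1) + Λ * c * (2 * (U.m + 1)) +
            (2 + Λ * c) * (2 * (U.m + 1))) / N := by ring
        _ ≤ cT u U.m * δ + cT u U.m * (1 + Λ) / N := by linarith
        _ = _ := by ring
    rw [e1]
    calc _ ≤ 2 * Ω * (cT u U.m * μ) * Er + 2 * Ω * (M + Er) * (μ * (δ + Λ * ((c * u + 1) / N) +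
          Λ * c * (2 * ((U.m + 1 : ℕ) : ℝ) / N)) + μ * ((2 + Λ * c) * (2 * (U.m + 1)) / N)) := by
          gcongr
          exact hμ.trans (le_mul_of_one_le_left μ1 T1)
      _ = 2 * Ω * (cT u U.m * μ) * Er + 2 * Ω * (M + Er) * (μ * (δ + Λ * ((c * u + 1) / N) +
          Λ * c * (2 * ((U.m + 1 : ℕ) : ℝ) / N) + (2 + Λ * c) * (2 * (U.m + 1)) / N)) := by ring
      _ ≤ 2 * Ω * (cT u U.m * μ) * Er + 2 * Ω * (M + Er) *
          (μ * (cT u U.m * (δ + (1 + Λ) / N))) := by gcongr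
      _ = _ := by ring
  intro a ha g l
  obtain ⟨a1, a2, a3⟩ := hs a ha
  have d1 := ds_nonneg (N ^ 2) (th k a) g
  have d2 := mul_nonneg l0 (ds_nonneg R (ch U a) l)
  rw [mul_assoc (2 + Λ * c)]
  generalize hD : ℓ * TF2.ds R (ch U a) l = D at d2 ⊢
  have Lc : 0 ≤ Λ * c := by positivity
  split_ifs with hl'
  · have b1 := (mem_filter.1 hl').2
    have b2 := lv_dist U l a2 (Or.inr b1)
    rw [hD] at b2
    have b0 : 0 ≤ δ + Λ * ((c * u + 1) / N) + Λ * c * TF2.ds (N ^ 2) (th k a) g := by positivity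
    rcases le_total D 1 with h1 | h1
    · refine (hl a a1 _ (hpt _)).trans (mul_le_mul_of_nonneg_left ?_ hΩ)
      obtain ⟨r1, r2, r3⟩ := a3.rad hN hm U.m
      have b3 : ‖emb k a - ζ g l‖ ≤ X * (c * (D + u / N + TF2.ds (N ^ 2) (th k a) g)) := by
        refine (pi_norm_le_iff_of_nonneg (by positivity)).2 fun φ => ?_
        have f1 := (norm_le_pi_norm _ φ).trans b1
        have f2 := (norm_le_pi_norm _ φ).trans b2
        rw [Real.norm_eq_abs] at f1 f2
        rw [Pi.sub_apply] at f2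
        have f3 := norm_emb U hX a3.1 φ
        have f4 : ‖th k a φ - rt (N ^ 2 + 1) (g φ)‖ ≤ TF2.ds (N ^ 2) (th k a) g :=
          single_le_sum (f := fun φ => ‖th k a φ - rt (N ^ 2 + 1) (g φ)‖) (fun _ _ => norm_nonneg _)
            (mem_univ φ)
        have f5 : emb k a φ = (‖emb k a φ‖ : ℝ) * th k a φ := by
          rw [th, dir, mul_div_cancel₀]
          simpa using emb_ne a3.1 φ
        have f6 : ‖th k a φ‖ = 1 := norm_dir (emb_ne a3.1 φ)
        rw [Pi.sub_apply, f5, f3]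
        simp only [hζ]
        generalize U.lv (cx U a) φ = v at f2 ⊢
        generalize U.lv (xc U R l) φ = w at f1 f2 ⊢
        generalize Real.log (nz (emb k a) / X ^ (2 * (U.m + 1))) / (2 * (U.m + 1)) = t at r1 r3 ⊢
        generalize (m : ℝ) / (N * (2 * (U.m + 1))) = t' at r2 r3 ⊢
        have g1 : v + t ≤ u + 5 := by linarith [(abs_le.1 f1).2, (abs_le.1 f2).2]
        have g2 : w + t' ≤ u + 5 := by linarith [(abs_le.1 f1).2]
        have g3 : |v + t - (w + t')| ≤ D + u / N := by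
          rw [show v + t - (w + t') = v - w + (t - t') by ring]
          exact (abs_add_le _ _).trans (add_le_add f2 r3)
        have g4 := (exp_lip g1 g2).trans (mul_le_mul_of_nonneg_left g3 (Real.exp_pos _).le)
        have g5 := Real.exp_le_exp.2 g2
        have e : ((X * Real.exp (v + t) : ℝ) : ℂ) * th k a φ -
            (X * Real.exp (w + t') : ℝ) * rt (N ^ 2 + 1) (g φ) =
            (X : ℝ) * ((Real.exp (v + t) - Real.exp (w + t') : ℝ) * th k a φ +
              (Real.exp (w + t') : ℝ) * (th k a φ - rt (N ^ 2 + 1) (g φ))) := by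
          simp only [Complex.ofReal_mul, Complex.ofReal_sub]
          ring
        rw [e, norm_mul, Complex.norm_real, Real.norm_of_nonneg hX.le]
        refine mul_le_mul_of_nonneg_left ((norm_add_le _ _).trans ?_) hX.le
        rw [norm_mul, norm_mul, f6, Complex.norm_real, Complex.norm_real, Real.norm_eq_abs,
          Real.norm_of_nonneg (Real.exp_pos _).le, mul_one, mul_add c (D + u / N)]
        exact add_le_add g4 (mul_le_mul g5 f4 (norm_nonneg _) (by positivity))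
      have b4 := norm_sub_le_norm_sub_add_norm_sub (emb k a) (ζ g l) (emb k (pt (ζ g l)))
      rw [norm_sub_rev (ζ g l)] at b4
      have b5 : ‖emb k a - emb k (pt (ζ g l))‖ / X ≤
          c * (D + u / N + TF2.ds (N ^ 2) (th k a) g) + 1 / N := by
        rw [div_le_iff₀ hX]
        have := hd (ζ g l)
        calc _ ≤ X * (c * (D + u / N + TF2.ds (N ^ 2) (th k a) g)) + X / N := by linarith
          _ = _ := by ring
      rw [mul_div_assoc]
      calc _ ≤ Λ * (c * (D + u / N + TF2.ds (N ^ 2) (th k a) g) + 1 / N) + δ := by gcongr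
        _ = δ + Λ * ((c * u + 1) / N) + Λ * c * TF2.ds (N ^ 2) (th k a) g + Λ * c * D := by ring
        _ ≤ _ := by nlinarith
    · have := abs_sub (ω a) (ω (pt (ζ g l)))
      have h2 : 2 ≤ δ + Λ * ((c * u + 1) / N) + Λ * c * TF2.ds (N ^ 2) (th k a) g +
        (2 + Λ * c) * D := by nlinarith
      linarith [hb a a1, hb _ (hpt (ζ g l)), mul_le_mul_of_nonneg_left h2 hΩ]
  · rw [sub_zero, zero_add]
    by_cases h0 : ω a = 0
    · rw [h0, abs_zero]
      positivity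
    have b1 := hsupp a a1 h0
    have b2 := lv_dist U l a2 (Or.inl (by linarith))
    have b3 : ¬ ‖U.lv (xc U R l)‖ ≤ 4 := fun h => hl' (mem_filter.2 ⟨mem_univ _, h⟩)
    have b4 := norm_le_norm_add_norm_sub (U.lv (cx U a)) (U.lv (xc U R l))
    have b5 : 1 ≤ (2 + Λ * c) * D := by nlinarith [not_le.1 b3]
    exact (hb a a1).trans (le_mul_of_one_le_right hΩ b5)

/-- the mass of the central part of one shell -/
lemma level_mass {N R : ℕ} (hN : 1 ≤ N) (hR : 1 ≤ R) {μ M Er : ℝ} {s : Finset (𝓞 E)}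
    {p : 𝓞 E → ℝ} (hs : ∀ a ∈ s, Red U a ∧ a ≠ 0) (hp : ∀ a ∈ s, 0 ≤ p a)
    (mp : TF2.Mom s (th k) (ch U) (N ^ 2) R p M Er) (hM : 0 ≤ M + Er)
    (hμ : (SS U R).card / ((R + 1 : ℕ) : ℝ) ^ Fintype.card (Fin U.m) ≤ μ) (hℓ : ℓ / √R ≤ μ / N) :
    ∑ a ∈ s with ‖U.lv (cx U a)‖ ≤ 3, p a ≤ (1 + 2 * U.m) * μ * (M + Er) := by
  have l0 : 0 ≤ ℓ := zero_le_one.trans U.one_le
  have hN' : (1 : ℝ) ≤ N := by exact_mod_cast hN
  have key := tf2_mass (θ := th k) (χ := ch U) (ω := fun a => if ‖U.lv (cx U a)‖ ≤ 3 then 1 else 0)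
    (Λ₂ := ℓ) (Nat.one_le_pow _ _ hN) hR (fun a ha φ => norm_dir (emb_ne (hs a ha).2 φ))
    (fun a _ j => norm_ex _) hp mp (SS U R) l0 fun a ha l => by
      have d2 := mul_nonneg l0 (ds_nonneg R (ch U a) l)
      split_ifs with h1 h2
      · linarith
      · have b2 := lv_dist U l (hs a ha).1 (Or.inl (by linarith))
        have b3 : ¬ ‖U.lv (xc U R l)‖ ≤ 4 := fun h => h2 (mem_filter.2 ⟨mem_univ _, h⟩)
        have b4 := norm_le_norm_add_norm_sub (U.lv (cx U a)) (U.lv (xc U R l))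
        linarith [not_le.1 b3]
      · linarith
      · linarith
  simp only [mul_ite, mul_one, mul_zero] at key
  rw [sum_filter, mul_comm]
  refine key.trans (mul_le_mul_of_nonneg_left ?_ hM)
  have μ0 : 0 ≤ μ / N := le_trans (by positivity) hℓ
  have μ1 : 0 ≤ μ := by rwa [le_div_iff₀ (by positivity), zero_mul] at μ0
  have a1 : ℓ * (2 * Fintype.card (Fin U.m) / √R) ≤ 2 * U.m * μ := by
    rw [Fintype.card_fin]
    calc _ = 2 * U.m * (ℓ / √R) := by ring
      _ ≤ _ := by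
        gcongr
        exact hℓ.trans (div_le_self μ1 hN')
  linarith

end Cos

end

end Pool.Agent.P.MP_b8021b_nt.VC
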