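import Pool.Agent.P.MP_b8021b_nt.VC.PCos2
import Pool.Agent.P.MP_b8021b_nt.VC.StG
import Pool.Agent.P.MP_b8021b_nt.VE.PCos1
import Pool.Agent.P.MP_b8021b_nt.VE.PShell3

/-! The moments of the two weights on one shell. -/

namespace Pool.Agent.P.MP_b8021b_nt.VC

open NumberField Finset MeasureTheory Pool.Agent.P.MP_b8021b_nt.VE
open scoped Classical ComplexConjugate

noncomputable section

namespace Cos

/-- the radial profile -/
def gN (N : ℕ) (x : ℝ) : ℝ := tent (N * Real.log (max x (1 / 3)))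

lemma log_third : Real.log (1 / 3) ≤ -1 := by
  rw [one_div, Real.log_inv, neg_le_neg_iff, Real.le_log_iff_exp_le (by norm_num)]
  linarith [Real.exp_one_lt_d9]

lemma tent_small {N : ℕ} (hN : 1 ≤ N) {x : ℝ} (h0 : 0 < x) (h : x ≤ 1 / 3) :
    tent (N * Real.log x) = 0 := by
  have h1 := (Real.log_le_log h0 h).trans log_third
  have h2 : (1 : ℝ) ≤ N := by exact_mod_cast hN
  have h3 := neg_le_abs (N * Real.log x)
  exact max_eq_left (by nlinarith)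

lemma gN_eq {N : ℕ} (hN : 1 ≤ N) {x : ℝ} (h0 : 0 < x) : gN N x = tent (N * Real.log x) := by
  rcases le_total x (1 / 3) with h | h
  · rw [gN, max_eq_right h, tent_small hN h0 h, tent_small hN (by norm_num) le_rfl]
  · rw [gN, max_eq_left h]

lemma gN_bump {N : ℕ} (hN : 1 ≤ N) : Bump (gN N) (3 * N) where
  one_le := by
    have h2 : (1 : ℝ) ≤ N := by exact_mod_cast hN
    linarith
  abs_le x := by
    rw [gN, abs_of_nonneg (Shell.tent_nonneg _)]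
    exact Shell.tent_le _
  lip x x' := by
    refine (Shell.tent_lip _ _).trans ?_
    rw [← mul_sub, abs_mul, Nat.abs_cast]
    have h1 := Shell.log_lip (c := 1 / 3) (by norm_num) (le_max_right x _) (le_max_right x' _)
    have h2 := abs_max_sub_max_le_abs x x' (1 / 3)
    calc _ ≤ N * (3 * |x - x'|) := by
          gcongr
          linarith
      _ = _ := by ring
  supp x h := by
    have h0 : 1 / 3 ≤ x := by
      by_contra h1
      exact h (by rw [gN, max_eq_right (not_le.1 h1).le, tent_small hN (by norm_num) le_rfl])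
    refine ⟨h0, ?_⟩
    by_contra h1
    have h2 := Shell.tent_ne h
    rw [max_eq_left h0] at h2
    have h3 : 1 ≤ Real.log x := by
      rw [Real.le_log_iff_exp_le (by linarith)]
      linarith [Real.exp_one_lt_d9, not_le.1 h1]
    have h4 : (1 : ℝ) ≤ N := by exact_mod_cast hN
    nlinarith [le_abs_self (N * Real.log x)]

lemma gN_int {N : ℕ} (hN : 1 ≤ N) : |N * (∫ x, gN N x) - 1| ≤ 1 / N := by
  have hN1 : (1 : ℝ) ≤ N := by exact_mod_cast hN
  have hN0 : (0 : ℝ) < N := by linarith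
  have him : (fun v : ℝ => Real.exp (1 / N * v)) '' Set.univ = Set.Ioi 0 := by
    ext r
    refine ⟨?_, fun hr => ⟨N * Real.log r, trivial, ?_⟩⟩
    · rintro ⟨v, -, rfl⟩
      exact Real.exp_pos _
    · simp only
      rw [← mul_assoc, one_div_mul_cancel hN0.ne', one_mul, Real.exp_log hr]
  have hd : ∀ v, HasDerivAt (fun v : ℝ => Real.exp (1 / N * v))
      (Real.exp (1 / N * v) * (1 / N)) v := fun v => by
    simpa using ((hasDerivAt_id v).const_mul (1 / N : ℝ)).exp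
  have e : N * ∫ x, gN N x = ∫ v, tent v * Real.exp (1 / N * v) := by
    rw [← setIntegral_eq_integral_of_forall_compl_eq_zero (s := Set.Ioi 0) fun x hx => by
      by_contra h
      exact hx (lt_of_lt_of_le (by norm_num) ((gN_bump hN).supp x h).1), ← him,
      integral_image_eq_integral_abs_deriv_smul MeasurableSet.univ
        (fun v _ => (hd v).hasDerivWithinAt) (fun a _ b _ h => mul_left_cancel₀ (by positivity)
          (Real.exp_injective h)), Measure.restrict_univ, ← integral_const_mul]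
    refine integral_congr_ae (Filter.Eventually.of_forall fun v => ?_)
    simp only [smul_eq_mul]
    rw [gN_eq hN (Real.exp_pos _), Real.log_exp, abs_of_pos (by positivity),
      show N * (1 / N * v) = v by field_simp]
    field_simp
  have h1 : (1 : ℝ) / N ≤ 1 := (div_le_one hN0).2 hN1
  rw [e]
  refine (Shell.tent_exp (by rwa [abs_of_pos (by positivity)])).trans ?_
  rw [sq]
  exact mul_le_of_le_one_left (by positivity) h1

lemma card_bx (I : Type) [Fintype I] (R : ℕ) :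
    ((TF2.bx I R).card : ℝ) ≤ (2 * R) ^ Fintype.card I := by
  rw [TF2.bx, Fintype.card_piFinset, prod_const, card_univ, Int.card_Ioo, Nat.cast_pow]
  gcongr
  have : ((R : ℤ) - -R - 1).toNat ≤ 2 * R := by omega
  exact_mod_cast this

variable {k : Type} [Field k] [NumberField k] [Algebra k ℂ] {E : Type} [Field E] [NumberField E]
  [Algebra k E] {n : ℕ} {ℓ : ℝ} (U : UB k E n ℓ) {u N : ℕ}

lemma coset_un {𝔞 : Ideal (𝓞 E)} {α₀ a : 𝓞 E} (h0 : α₀ ∈ 𝔞)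
    (h : a - α₀ ∈ Ideal.span {(n : 𝓞 E)} * 𝔞) (j : Fin U.m → ℤ) :
    a * un U j - α₀ ∈ Ideal.span {(n : 𝓞 E)} * 𝔞 := by
  have h1 : a ∈ 𝔞 := by simpa using 𝔞.add_mem (Ideal.mul_le_right h) h0
  rw [show a * un U j - α₀ = ((un U j : 𝓞 E) - 1) * a + (a - α₀) by ring]
  exact Ideal.add_mem _ (Ideal.mul_mem_mul (Ideal.mem_span_singleton.2 (un_cong U j)) h1) h

omit [NumberField k] in
lemma coset_ne (hn : ¬ IsUnit (n : 𝓞 E)) {𝔞 : Ideal (𝓞 E)} (ha : 𝔞 ≠ ⊥) {α₀ a : 𝓞 E}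
    (h0 : UnitC n 𝔞 α₀) (h : a - α₀ ∈ Ideal.span {(n : 𝓞 E)} * 𝔞) : a ≠ 0 := by
  rintro rfl
  obtain ⟨𝔟, h1, h2⟩ := h0
  rw [zero_sub, neg_mem_iff, ← Ideal.span_singleton_le_iff_mem, h1, ← Ideal.dvd_iff_le, mul_comm,
    mul_dvd_mul_iff_left ha] at h
  exact hn (Ideal.span_singleton_eq_top.1 (Ideal.isUnit_iff.1
    (IsCoprime.isUnit_of_dvd' h2 h dvd_rfl)))

omit [NumberField k] [NumberField E] in
lemma norm_ty [Fintype (Emb k E)] (κ : Emb k E → ℤ) (τ : Emb k E → ℝ) {a : 𝓞 E} (h : a ≠ 0) :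
    ‖ty κ τ (emb k a)‖ = 1 := by
  rw [ty, norm_prod]
  refine prod_eq_one fun φ _ => ?_
  rw [norm_mul, norm_zpow, norm_dir (emb_ne h φ), one_zpow, one_mul, mul_comm]
  exact Complex.norm_exp_ofReal_mul_I _

/-- the moments of the smooth weight -/
lemma L_mom (hP : U.Pos) (hu : 1 ≤ u) (hN : 1 ≤ N)
    (hz : ∀ a : 𝓞 E, (Ideal.absNorm (Ideal.span {a}) : ℝ) = nz (emb k a)) {𝔞 : Ideal (𝓞 E)}
    {α₀ : 𝓞 E} (h0 : α₀ ∈ 𝔞) (hne : ∀ a, a - α₀ ∈ Ideal.span {(n : 𝓞 E)} * 𝔞 → a ≠ 0) {Z : ℝ}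
    (hZ : 0 < Z) {m R₁ R₂ : ℕ} (h1 : 1 ≤ R₁) (h2 : 1 ≤ R₂) {s : Finset (𝓞 E)}
    (hs : ∀ a, a ∈ s ↔ a - α₀ ∈ Ideal.span {(n : 𝓞 E)} * 𝔞 ∧ Red U a ∧ Near k u N Z m a)
    {c M V Wr : ℝ} (hc : 0 ≤ c) (hM : 0 ≤ M) (hV : c * V = M * N)
    (hW : ∀ κ ∈ TF2.bx (Emb k E) R₁, ∀ κ' ∈ TF2.bx (Fin U.m) R₂,
      ‖∑ᶠ a ∈ {a : 𝓞 E | a - α₀ ∈ Ideal.span {(n : 𝓞 E)} * 𝔞}, ty κ (tau U κ') (emb k a) *
        (U.β (emb k a) * gN N (nz (emb k a) / (Z * Real.exp (m / N))) : ℝ) -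
        if κ = 0 ∧ tau U κ' = 0 then ((V * ∫ x, gN N x : ℝ) : ℂ) else 0‖ ≤ Wr) :
    TF2.Mom s (th k) (ch U) R₁ R₂ (fun a => c * tent (N * Real.log (nz (emb k a) / Z) - m)) M
      ((2 * R₁) ^ (U.m + 1) * (2 * R₂) ^ U.m * (c * Wr) + M / N) := by
  have hN0 : (0 : ℝ) < N := by exact_mod_cast hN
  have e1 : ∀ a : 𝓞 E, a ≠ 0 → gN N (nz (emb k a) / (Z * Real.exp (m / N))) =
      tent (N * Real.log (nz (emb k a) / Z) - m) := fun a ha => by
    have := (log_nz (k := k) ha).1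
    rw [gN_eq hN (by positivity), ← div_div, Real.log_div (by positivity) (by positivity),
      Real.log_exp, mul_sub, mul_div_cancel₀ _ hN0.ne']
  have W0 : 0 ≤ Wr := (norm_nonneg _).trans (hW 0 (TF2.zero_mem h1) 0 (TF2.zero_mem h2))
  have key : ∀ κ ∈ TF2.bx (Emb k E) R₁, ∀ κ' ∈ TF2.bx (Fin U.m) R₂,
      ‖∑ a ∈ s, ((c * tent (N * Real.log (nz (emb k a) / Z) - m) : ℝ) : ℂ) *
        (TF2.mono (th k a) κ * TF2.mono (ch U a) κ') - if κ = 0 ∧ κ' = 0 then (M : ℂ) else 0‖ ≤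
        c * Wr + if κ = 0 then if κ' = 0 then M / N else 0 else 0 := by
    intro κ hκ κ' hκ'
    have k1 := hW κ hκ κ' hκ'
    have k2 := unfold U (A := {a : 𝓞 E | a - α₀ ∈ Ideal.span {(n : 𝓞 E)} * 𝔞})
      (F := fun a => ty κ (tau U κ') (emb k a) *
        (gN N (nz (emb k a) / (Z * Real.exp (m / N))) : ℝ)) s (fun a ha _ => hne a ha)
      (fun a ha j => ⟨coset_un U h0 ha j, by
        rw [ty_un U hP _ _ (hne a ha), ← hz, ← hz,
          Ideal.span_singleton_mul_right_unit (un U j).isUnit]⟩)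
      (fun a ha => ⟨((hs a).1 ha).1, ((hs a).1 ha).2.1, ((hs a).1 ha).2.2.1⟩)
      (fun a ha hr hF => (hs a).2 ⟨ha, hr, hne a ha, by
        have h3 := right_ne_zero_of_mul hF
        rw [e1 a (hne a ha), Complex.ofReal_ne_zero] at h3
        exact (Shell.tent_ne h3).le.trans (by exact_mod_cast hu)⟩)
    simp only [Complex.ofReal_mul, mul_left_comm (ty _ _ _)] at k1
    rw [k2] at k1
    have k3 : ∑ a ∈ s, ((c * tent (N * Real.log (nz (emb k a) / Z) - m) : ℝ) : ℂ) *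
        (TF2.mono (th k a) κ * TF2.mono (ch U a) κ') = c * ∑ a ∈ s, ty κ (tau U κ') (emb k a) *
        (gN N (nz (emb k a) / (Z * Real.exp (m / N))) : ℝ) := by
      rw [mul_sum]
      refine sum_congr rfl fun a ha => ?_
      rw [e1 a ((hs a).1 ha).2.2.1, ty_eq, Complex.ofReal_mul, mul_assoc, mul_comm (_ * _ : ℂ)]
      rfl
    rw [k3]
    have k4 : tau U κ' = 0 ↔ κ' = 0 :=
      ⟨fun h => tau_inj U (h.trans (tau_zero U).symm), fun h => h ▸ tau_zero U⟩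
    simp only [k4] at k1
    generalize ∑ a ∈ s, ty κ (tau U κ') (emb k a) *
      ((gN N (nz (emb k a) / (Z * Real.exp (m / N))) : ℝ) : ℂ) = T at k1 ⊢
    have k5 := mul_le_mul_of_nonneg_left k1 hc
    rw [← Real.norm_of_nonneg hc, ← Complex.norm_real, ← norm_mul, Complex.norm_real,
      Real.norm_of_nonneg hc] at k5
    by_cases h : κ = 0 ∧ κ' = 0
    · rw [if_pos h] at k5 ⊢
      rw [if_pos h.1, if_pos h.2]
      have e : (c : ℂ) * T - M = c * (T - V * (∫ x, gN N x : ℝ)) +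
          ((M * (N * (∫ x, gN N x) - 1) : ℝ) : ℂ) := by
        have : (c : ℂ) * V = M * N := by exact_mod_cast hV
        simp only [Complex.ofReal_mul, Complex.ofReal_sub, Complex.ofReal_natCast,
          Complex.ofReal_one]
        linear_combination ((∫ x, gN N x : ℝ) : ℂ) * this
      rw [e]
      refine (norm_add_le _ _).trans (add_le_add k5 ?_)
      rw [Complex.norm_real, Real.norm_eq_abs, abs_mul, abs_of_nonneg hM, div_eq_mul_one_div]
      exact mul_le_mul_of_nonneg_left (gN_int hN) hM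
    · rw [if_neg h, sub_zero] at k5 ⊢
      refine k5.trans (le_add_of_nonneg_right ?_)
      split_ifs <;> positivity
  refine (sum_le_sum fun κ hκ => sum_le_sum fun κ' hκ' => key κ hκ κ' hκ').trans ?_
  simp only [sum_add_distrib, sum_const, nsmul_eq_mul, sum_ite_irrel, sum_ite_eq',
    TF2.zero_mem h1, TF2.zero_mem h2, if_true, mul_zero, ← mul_assoc]
  have c1 := card_bx (Emb k E) R₁
  have c2 := card_bx (Fin U.m) R₂
  rw [card_emb U] at c1
  rw [Fintype.card_fin] at c2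
  gcongr

/-- the weighted number of factorisations with prescribed levels -/
def Wi (w : ℕ → ℝ) (y : ℝ) (i : Fin u → Fin N) (𝔞 : Ideal (𝓞 E)) (α : 𝓞 E) : ℝ :=
  ∑ q ∈ Fintype.piFinset fun j => strat y N (i j), (∏ j, w (q j)) *
    ∑ I ∈ Fintype.piFinset fun j => VE.Cos.T E (q j),
      if Ideal.span {α} = 𝔞 * ∏ j, I j then 1 else 0

/-- the weighted sum over a stratum -/
def Sw (w : ℕ → ℝ) (y : ℝ) (N i : ℕ) (a : ℕ → ℂ) : ℂ := ∑ q ∈ strat y N i, w q * a q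

omit [NumberField k] in
lemma Wi_nonneg {w : ℕ → ℝ} {y : ℝ} (hw : ∀ q ∈ Pset y N, 0 ≤ w q) (i : Fin u → Fin N)
    (𝔞 : Ideal (𝓞 E)) (α : 𝓞 E) : 0 ≤ Wi w y i 𝔞 α :=
  sum_nonneg fun _ hq => mul_nonneg (prod_nonneg fun j _ => hw _ (mem_biUnion.2
    ⟨i j, mem_range.2 (i j).2, Fintype.mem_piFinset.1 hq j⟩))
    (sum_nonneg fun _ _ => by split_ifs <;> norm_num)

lemma near_fac (hz : ∀ a : 𝓞 E, (Ideal.absNorm (Ideal.span {a}) : ℝ) = nz (emb k a)) {y : ℝ}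
    (hy : 0 < y) {𝔞 : Ideal (𝓞 E)} (ha : 𝔞 ≠ ⊥) (i : Fin u → Fin N) {q : Fin u → ℕ}
    (hq : ∀ j, q j ∈ strat y N (i j)) {I : Fin u → Ideal (𝓞 E)}
    (hI : ∀ j, I j ∈ VE.Cos.T E (q j)) {α : 𝓞 E} (h0 : α ≠ 0)
    (h : Ideal.span {α} = 𝔞 * ∏ j, I j) :
    Near k u N (Ideal.absNorm 𝔞 * y ^ u) (∑ j, (i j).1) α := by
  have hA : (0 : ℝ) < Ideal.absNorm 𝔞 := by
    exact_mod_cast Nat.pos_of_ne_zero fun h0 => ha (Ideal.absNorm_eq_zero_iff.mp h0)
  have hq0 : ∀ j, (0 : ℝ) < q j := fun j => by exact_mod_cast (VE.Cos.mem_strat (hq j)).1.pos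
  have h2 : nz (emb k α) / (Ideal.absNorm 𝔞 * y ^ u) = ∏ j, ((q j : ℝ) / y) := by
    rw [← hz, h, map_mul, map_prod, prod_congr rfl fun j _ => VE.Cos.mem_T.mp (hI j),
      prod_div_distrib, prod_const, card_univ, Fintype.card_fin]
    push_cast
    field_simp
  refine ⟨h0, ?_⟩
  rw [h2, Real.log_prod fun j _ => (div_pos (hq0 j) hy).ne', mul_sum]
  push_cast
  rw [← sum_sub_distrib]
  refine (abs_sum_le_sum_abs _ _).trans ?_
  have : ∑ j, |N * Real.log ((q j : ℝ) / y) - ((i j).1 : ℝ)| ≤ ∑ _j : Fin u, (1 : ℝ) :=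
    sum_le_sum fun j _ => by
      have := VE.Cos.mem_strat (hq j)
      rw [abs_le]
      constructor <;> linarith [this.2.1, this.2.2]
  simpa using this

lemma near_Wi (hz : ∀ a : 𝓞 E, (Ideal.absNorm (Ideal.span {a}) : ℝ) = nz (emb k a)) {y : ℝ}
    (hy : 0 < y) {𝔞 : Ideal (𝓞 E)} (ha : 𝔞 ≠ ⊥) {w : ℕ → ℝ} (i : Fin u → Fin N) {α : 𝓞 E}
    (h0 : α ≠ 0) (h : Wi w y i 𝔞 α ≠ 0) :
    Near k u N (Ideal.absNorm 𝔞 * y ^ u) (∑ j, (i j).1) α := by
  obtain ⟨q, hq, h1⟩ := exists_ne_zero_of_sum_ne_zero h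
  obtain ⟨I, hI, h2⟩ := exists_ne_zero_of_sum_ne_zero (right_ne_zero_of_mul h1)
  refine near_fac hz hy ha i (Fintype.mem_piFinset.mp hq) (Fintype.mem_piFinset.mp hI) h0 ?_
  by_contra h3
  simp [h3] at h2

omit [NumberField k] in
/-- the character expansion for one tuple of levels -/
lemma expand (w : ℕ → ℝ) (y : ℝ) (i : Fin u → Fin N) (𝔞 𝔟₀ : Ideal (𝓞 E)) (s : Finset (𝓞 E))
    (F : 𝓞 E → ℂ) (c : ℂ) (𝒳 : Finset (Ideal (𝓞 E) →* ℂ))
    (h : ∀ (q : Fin u → ℕ) (I : Fin u → Ideal (𝓞 E)), (∀ j, q j ∈ strat y N (i j)) →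
      (∀ j, I j ∈ VE.Cos.T E (q j)) →
      ∑ α ∈ s with Ideal.span {α} = 𝔞 * ∏ j, I j, F α =
        c * ∑ χ ∈ 𝒳, χ (∏ j, I j) * conj (χ 𝔟₀)) :
    ∑ α ∈ s, (Wi w y i 𝔞 α : ℂ) * F α =
      c * ∑ χ ∈ 𝒳, conj (χ 𝔟₀) * ∏ j, Sw w y N (i j) (lam χ) := by
  have e1 : ∑ α ∈ s, (Wi w y i 𝔞 α : ℂ) * F α =
      ∑ q ∈ Fintype.piFinset fun j => strat y N (i j), (∏ j, (w (q j) : ℂ)) *
        ∑ I ∈ Fintype.piFinset fun j => VE.Cos.T E (q j),
          ∑ α ∈ s with Ideal.span {α} = 𝔞 * ∏ j, I j, F α := by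
    unfold Wi
    push_cast
    simp only [sum_mul, mul_sum, sum_filter]
    rw [sum_comm]
    refine sum_congr rfl fun q _ => ?_
    rw [sum_comm]
    refine sum_congr rfl fun I _ => sum_congr rfl fun α _ => ?_
    split_ifs <;> simp
  have e2 : ∀ χ : Ideal (𝓞 E) →* ℂ, ∏ j, Sw w y N (i j) (lam χ) =
      ∑ q ∈ Fintype.piFinset fun j => strat y N (i j), (∏ j, (w (q j) : ℂ)) *
        ∑ I ∈ Fintype.piFinset fun j => VE.Cos.T E (q j), χ (∏ j, I j) := by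
    intro χ
    unfold Sw
    rw [prod_univ_sum]
    refine sum_congr rfl fun q _ => ?_
    rw [prod_mul_distrib]
    congr 1
    simp only [VE.Cos.lam_eq, map_prod]
    rw [prod_univ_sum]
  rw [e1]
  simp only [e2]
  rw [sum_congr rfl fun q hq => by
    rw [sum_congr rfl fun I hI =>
      h q I (Fintype.mem_piFinset.mp hq) (Fintype.mem_piFinset.mp hI)]]
  simp only [mul_sum]
  rw [sum_comm (s := 𝒳)]
  refine sum_congr rfl fun q _ => ?_
  rw [sum_comm (s := 𝒳)]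
  refine sum_congr rfl fun I _ => sum_congr rfl fun χ _ => ?_
  ring

lemma triv_H (n : ℕ) : IsH k n 0 0 (triv E n) where
  norm_cop I h := by simp [triv, h]
  zero I h := by simp [triv, h]
  sum := by simp
  prin α h := by simp [triv, ty, VE.Cos.cop_of_dvd h]

omit [NumberField E] in
lemma eq_triv {χ : Ideal (𝓞 E) →* ℂ} (h : IsChar n χ) (ht : IsTriv n χ) : χ = triv E n := by
  ext I
  by_cases h1 : Cop n I
  · simp [triv, h1, ht I h1]
  · simp [triv, h1, h.zero I h1]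

/-- the moments of the arithmetic weight -/
lemma W_mom (K : BF k) (hEq : S_Eq2) (hT : S_Typ) (hP : U.Pos) (hn : 2 ≤ n) (hu : 1 ≤ u)
    (hN : 1 ≤ N) (hρ : 0 ≤ U.ρ)
    (hz : ∀ a : 𝓞 E, (Ideal.absNorm (Ideal.span {a}) : ℝ) = nz (emb k a)) {𝔞 : Ideal (𝓞 E)}
    (ha : 𝔞 ≠ ⊥) {α₀ : 𝓞 E} (h0 : UnitC n 𝔞 α₀)
    (hne : ∀ a, a - α₀ ∈ Ideal.span {(n : 𝓞 E)} * 𝔞 → a ≠ 0) {y ε Tb : ℝ} (hy : 0 < y) {R : ℕ}
    (hR : 1 ≤ R) (hTb : U.m * R ≤ Tb) (w : ℕ → ℝ) (hε : ε ≤ 1)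
    (h1 : ∀ i < N, ‖Sw w y N i (lam (triv E n)) - 1‖ ≤ ε)
    (h2 : ∀ 𝒴 : Finset (Ideal (𝓞 E) →* ℂ),
      (∀ χ ∈ 𝒴, χ ∈ Chs k n ((N : ℝ) ^ 2) Tb ∧ ¬ IsTriv n χ) →
        ∑ χ ∈ 𝒴, ∑ i ∈ range N, ‖Sw w y N i (lam χ)‖ ^ u ≤ ε) :
    ∃ B : (Fin u → Fin N) → ℝ, (∀ i, 0 ≤ B i) ∧ ∑ i, B i ≤ (2 ^ u + 1) * ε * (N ^ u * U.ρ) ∧
      ∀ (m : ℕ) (s : Finset (𝓞 E)), (∀ a, a ∈ s ↔ a - α₀ ∈ Ideal.span {(n : 𝓞 E)} * 𝔞 ∧ Red U a ∧
        Near k u N (Ideal.absNorm 𝔞 * y ^ u) m a) →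
        TF2.Mom s (th k) (ch U) (N ^ 2) R (fun a => ∑ i ∈ VE.Cos.fib u N m, Wi w y i 𝔞 a)
          (cnt u N m * U.ρ) (∑ i ∈ VE.Cos.fib u N m, B i) := by
  obtain ⟨𝔟₀, hb0, hc⟩ := h0
  have m0 : α₀ ∈ 𝔞 := Ideal.mul_le_left (hb0.le (Ideal.mem_span_singleton_self α₀))
  have a0 : α₀ ≠ 0 := hne α₀ (by simp)
  have hε0 : 0 ≤ ε := (norm_nonneg _).trans (h1 0 hN)
  choose 𝒳 hX1 _ hX2 using fun κ κ' => hEq k K E n κ (tau U κ') hn (tau_sum U κ')
  have typ : ∀ {κ κ' κ₁ κ₁' χ}, χ ∈ 𝒳 κ κ' → χ ∈ 𝒳 κ₁ κ₁' → κ = κ₁ ∧ κ' = κ₁' := fun h h' => by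
    have := hT k K E n _ _ _ _ hn (tau_sum U _) (tau_sum U _) fun α hα =>
      (((hX1 _ _ _).1 h).prin α hα).symm.trans (((hX1 _ _ _).1 h').prin α hα)
    exact ⟨this.1, tau_inj U this.2⟩
  have t0 : triv E n ∈ 𝒳 0 0 := (hX1 _ _ _).2 (by rw [tau_zero]; exact triv_H n)
  have tt : IsTriv n (triv E n) := fun I h => by simp [triv, h]
  set 𝒩 := fun κ κ' => (𝒳 κ κ').filter fun χ => ¬ IsTriv n χ with h𝒩
  set P := TF2.bx (Emb k E) (N ^ 2) ×ˢ TF2.bx (Fin U.m) R with hPd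
  refine ⟨fun i => U.ρ * (2 ^ u * ε) + ∑ x ∈ P, U.ρ * ∑ χ ∈ 𝒩 x.1 x.2,
    ∏ j, ‖Sw w y N (i j) (lam χ)‖, fun i => by positivity, ?_, fun m s hs => ?_⟩
  · rw [sum_add_distrib, sum_const, card_univ, Fintype.card_fun, Fintype.card_fin,
      Fintype.card_fin, nsmul_eq_mul, sum_comm]
    have e1 := h2 (P.biUnion fun x => 𝒩 x.1 x.2) fun χ hχ => by
      obtain ⟨x, hx, h⟩ := mem_biUnion.1 hχ
      refine ⟨⟨x.1, tau U x.2, fun φ => ?_, fun φ => (tau_le U (mem_product.1 hx).2 φ).trans hTb,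
        (hX1 _ _ _).1 (mem_filter.1 h).1⟩, (mem_filter.1 h).2⟩
      exact_mod_cast mem_bx.1 (mem_product.1 hx).1 φ
    rw [sum_biUnion fun x _ x' _ hx => disjoint_left.2 fun χ h h' => hx
      (Prod.ext_iff.2 (typ (mem_filter.1 h).1 (mem_filter.1 h').1))] at e1
    have e2 : ∀ χ : Ideal (𝓞 E) →* ℂ, ∑ i : Fin u → Fin N, ∏ j, ‖Sw w y N (i j) (lam χ)‖ ≤
        (N : ℝ) ^ u * ∑ i ∈ range N, ‖Sw w y N i (lam χ)‖ ^ u := by
      intro χ
      have e3 := prod_univ_sum (fun _ : Fin u => (univ : Finset (Fin N)))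
        fun _ (i : Fin N) => ‖Sw w y N i (lam χ)‖
      rw [Fintype.piFinset_univ] at e3
      rw [← e3, prod_const, card_univ, Fintype.card_fin,
        Fin.sum_univ_eq_sum_range (fun i => ‖Sw w y N i (lam χ)‖) N]
      obtain ⟨v, rfl⟩ := Nat.exists_eq_add_of_le' hu
      refine (pow_sum_le_card_mul_sum_pow (fun _ _ => norm_nonneg _) v).trans ?_
      rw [card_range]
      have : (1 : ℝ) ≤ N := by exact_mod_cast hN
      gcongr
      omega
    have e4 : ∑ x ∈ P, ∑ i : Fin u → Fin N, U.ρ * ∑ χ ∈ 𝒩 x.1 x.2,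
        ∏ j, ‖Sw w y N (i j) (lam χ)‖ ≤ U.ρ * ((N : ℝ) ^ u * ε) := by
      refine le_trans ?_ (mul_le_mul_of_nonneg_left
        (mul_le_mul_of_nonneg_left e1 (by positivity)) hρ)
      rw [mul_sum, mul_sum]
      refine sum_le_sum fun x _ => ?_
      rw [← mul_sum, sum_comm, mul_sum (a := (N : ℝ) ^ u)]
      exact mul_le_mul_of_nonneg_left (sum_le_sum fun χ _ => e2 χ) hρ
    rw [Nat.cast_pow]
    linarith
  · have key : ∀ i ∈ VE.Cos.fib u N m, ∀ κ κ', ‖∑ a ∈ s, (Wi w y i 𝔞 a : ℂ) *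
        (TF2.mono (th k a) κ * TF2.mono (ch U a) κ') - if κ = 0 ∧ κ' = 0 then (U.ρ : ℂ) else 0‖ ≤
        (if κ = 0 then if κ' = 0 then U.ρ * (2 ^ u * ε) else 0 else 0) +
          U.ρ * ∑ χ ∈ 𝒩 κ κ', ∏ j, ‖Sw w y N (i j) (lam χ)‖ := by
      intro i hi κ κ'
      have k1 := expand w y i 𝔞 𝔟₀ s (fun a => ty κ (tau U κ') (emb k a)) _ (𝒳 κ κ')
        fun q I hq hI => (unfold U (A := {α | Ideal.span {α} = 𝔞 * ∏ j, I j ∧
          α - α₀ ∈ Ideal.span {(n : 𝓞 E)} * 𝔞}) _ (fun a h _ => hne a h.2)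
          (fun a h j => ⟨⟨(Ideal.span_singleton_mul_right_unit (un U j).isUnit a).trans h.1,
            coset_un U m0 h.2 j⟩, ty_un U hP _ _ (hne a h.2) j⟩)
          (fun a h => ⟨⟨(mem_filter.1 h).2, ((hs a).1 (mem_filter.1 h).1).1⟩,
            ((hs a).1 (mem_filter.1 h).1).2.1, ((hs a).1 (mem_filter.1 h).1).2.2.1⟩)
          (fun a h hr _ => mem_filter.2 ⟨(hs a).2 ⟨h.2, hr, VE.Cos.mem_fib.1 hi ▸
            near_fac hz hy ha i hq hI (hne a h.2) h.1⟩, h.1⟩)).symm.trans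
          (hX2 κ κ' ℓ U 𝔞 𝔟₀ _ α₀ (tr_tau U hP κ κ') ha hb0 hc)
      have k2 : ∀ a, TF2.mono (th k a) κ * TF2.mono (ch U a) κ' = ty κ (tau U κ') (emb k a) :=
        fun a => (ty_eq U κ κ' _).symm
      simp only [k2]
      rw [k1, ← sum_filter_add_sum_filter_not (𝒳 κ κ') (IsTriv n), mul_add, add_sub_right_comm]
      refine (norm_add_le _ _).trans (add_le_add ?_ ?_)
      · by_cases h : κ = 0 ∧ κ' = 0
        · obtain ⟨rfl, rfl⟩ := h
          have : (𝒳 0 0).filter (IsTriv n) = {triv E n} := by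
            ext χ
            simp only [mem_filter, mem_singleton]
            refine ⟨fun h => eq_triv ((hX1 _ _ _).1 h.1).toIsChar h.2, ?_⟩
            rintro rfl
            exact ⟨t0, tt⟩
          rw [this, sum_singleton, tt _ hc, tau_zero]
          simp only [ty, Pi.zero_apply, zpow_zero, zero_mul, Complex.ofReal_zero, mul_zero,
            Complex.exp_zero, mul_one, prod_const_one, map_one, one_mul, and_self, if_true]
          rw [← mul_sub_one, norm_mul, Complex.norm_real, Real.norm_of_nonneg hρ]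
          gcongr
          refine (VE.Cos.prod_sub_one univ _ hε fun j => h1 _ (i j).2).trans ?_
          rw [card_univ, Fintype.card_fin]
          gcongr
          linarith
        · rw [if_neg h, sum_eq_zero, mul_zero, sub_zero, norm_zero]
          · split_ifs <;> positivity
          · intro χ hχ
            have := eq_triv ((hX1 _ _ _).1 (mem_filter.1 hχ).1).toIsChar (mem_filter.1 hχ).2
            exact absurd (typ (this ▸ (mem_filter.1 hχ).1) t0) h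
      · rw [norm_mul, norm_mul, norm_ty _ _ a0, mul_one, Complex.norm_real, Real.norm_of_nonneg hρ]
        gcongr
        refine (norm_sum_le _ _).trans (sum_le_sum fun χ hχ => ?_)
        rw [norm_mul, Complex.norm_conj, ((hX1 _ _ χ).mp (mem_filter.mp hχ).1).norm_cop _ hc,
          one_mul, norm_prod]
    have e : ∀ κ κ', ‖∑ a ∈ s, ((∑ i ∈ VE.Cos.fib u N m, Wi w y i 𝔞 a : ℝ) : ℂ) *
        (TF2.mono (th k a) κ * TF2.mono (ch U a) κ') -
        if κ = 0 ∧ κ' = 0 then ((cnt u N m * U.ρ : ℝ) : ℂ) else 0‖ ≤ ∑ i ∈ VE.Cos.fib u N m, _ :=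
      fun κ κ' => le_trans (le_of_eq_of_le (congrArg _ (by
        simp only [Complex.ofReal_sum, sum_mul, sum_sub_distrib, sum_const, VE.Cos.cnt_eq]
        rw [sum_comm]
        split_ifs <;> simp)) (norm_sum_le _ _)) (sum_le_sum fun i hi => key i hi κ κ')
    refine (sum_le_sum fun κ _ => sum_le_sum fun κ' _ => e κ κ').trans_eq ?_
    rw [sum_congr rfl fun κ _ => sum_comm, sum_comm]
    refine sum_congr rfl fun i _ => ?_
    simp only [sum_add_distrib, sum_ite_irrel, sum_ite_eq', TF2.zero_mem hR,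
      TF2.zero_mem (Nat.one_le_pow 2 _ hN), if_true, sum_const_zero, hPd, sum_product]

end Cos

end

end Pool.Agent.P.MP_b8021b_nt.VC
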