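import Pool.Agent.P.MP_b8021b_nt.VC.StC
import Pool.Agent.P.MP_b8021b_nt.VC.PCov1A

/-! A plane model of a curve with a rational point. -/

namespace Pool.Agent.P.MP_b8021b_nt.VC

open Polynomial NumberField Finset Pool.Agent.P.MP_b8021b_nt.VE
open scoped Classical WithZero IntermediateField

namespace Cov1

/-- evaluation of a polynomial in two variables -/
noncomputable def ev {k E : Type} [Field k] [CommRing E] (ι : k →+* E) (x y : E) :
    k[X][X] →+* E := eval₂RingHom (eval₂RingHom ι x) y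

theorem ev_eq {k E : Type} [Field k] [CommRing E] (ι : k →+* E) (x y : E) (Q : k[X][X]) :
    ev ι x y Q = (Q.map (eval₂RingHom ι x)).eval y := by
  rw [eval_map]; rfl

theorem hom_ev {k E E' : Type} [Field k] [CommRing E] [CommRing E'] (j : E →+* E') (ι : k →+* E)
    (x y : E) (Q : k[X][X]) : j (ev ι x y Q) = ev (j.comp ι) (j x) (j y) Q := by
  have : j.comp (eval₂RingHom ι x) = eval₂RingHom (j.comp ι) (j x) :=
    Polynomial.ringHom_ext (fun a => by simp) (by simp)
  rw [ev, ev, coe_eval₂RingHom, coe_eval₂RingHom, hom_eval₂, this]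

theorem ev_c {k E : Type} [Field k] [CommRing E] (ι : k →+* E) (x y : E) (b : k) :
    ev ι x y (C (C b)) = ι b := by simp [ev]

theorem ev_x {k E : Type} [Field k] [CommRing E] (ι : k →+* E) (x y : E) :
    ev ι x y (C X) = x := by simp [ev]

theorem ev_y {k E : Type} [Field k] [CommRing E] (ι : k →+* E) (x y : E) :
    ev ι x y X = y := by simp [ev]

theorem val_ev {k E : Type} [Field k] [Field E] (p : GPt E) {ι : k →+* E} {σ : k →+* Qb}
    (h : ∀ b, p.Val (ι b) (σ b)) {x y : E} {a c : Qb} (hx : p.Val x a) (hy : p.Val y c)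
    (Q : k[X][X]) : p.Val (ev ι x y Q) (ev σ a c Q) :=
  p.val_eval₂ (ι := eval₂RingHom ι x) (τ := eval₂RingHom σ a) (fun g => p.val_eval₂ h hx g) hy Q

theorem red {k E : Type} [Field k] [Field E] (p : GPt E) {ι : k →+* E} {σ : k →+* Qb}
    (h : ∀ b, p.Val (ι b) (σ b)) {x : E} {a : Qb} (hx : p.Val x a) (Q : k[X][X]) :
    Red p (Q.map (eval₂RingHom ι x)) (Q.map (eval₂RingHom σ a)) := fun l => by
  rw [coeff_map, coeff_map]
  exact p.val_eval₂ h hx _

/-- a plane model -/
structure Mdl (k : Type) {F : Type} [Field k] [Field F] [Algebra k F] (O : GPt F) where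
  d : ℕ
  hd : 1 ≤ d
  f : F
  u : F
  P : k[X][X]
  R : Set Qb
  fin : R.Finite
  rf : Reg O f
  ru : Reg O u
  pole : O.ord f < 0
  mon : P.Monic
  deg : P.natDegree = d
  c0 : P.coeff 0 ≠ 0 ∧ (P.coeff 0).natDegree = d + 1
  cl : ∀ l, P.coeff l ≠ 0 → d * (P.coeff l).natDegree ≤ (d - l) * (d + 1)
  ker : ∀ Q, ev (algebraMap k F) f u Q = 0 ↔ P ∣ Q
  frac : ∀ x : F, ∃ a b, ev (algebraMap k F) f u b ≠ 0 ∧
    x * ev (algebraMap k F) f u b = ev (algebraMap k F) f u a
  sep : ∀ (σ : k →+* Qb) a, a ∉ R → (P.map (eval₂RingHom σ a)).Separable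
  uniq : ∀ (p p' : GPt F) (σ : k →+* Qb) a c, a ∉ R → (∀ b, p.Val (algebraMap k F b) (σ b)) →
    (∀ b, p'.Val (algebraMap k F b) (σ b)) → p.Val f a → p'.Val f a → p.Val u c → p'.Val u c →
    p = p'

theorem indep {k F : Type} [Field k] [NumberField k] [Field F] (O : GPt F) (ι : k →+* F) {f u : F}
    {d : ℕ} (hd : 1 ≤ d) (hf : O.v f = WithZero.exp (d : ℤ))
    (hu : O.v u = WithZero.exp ((d : ℤ) + 1)) (Q : k[X][X]) (hQ : Q.natDegree < d)
    (h : ev ι f u Q = 0) : Q = 0 := by
  by_contra h0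
  have h1 : 1 < O.v f := by
    rw [hf, ← WithZero.exp_zero, WithZero.exp_lt_exp]; omega
  have hv : ∀ i ∈ Q.support, O.v ((Q.coeff i).eval₂ ι f * u ^ i) =
      WithZero.exp ((d * (Q.coeff i).natDegree + (d + 1) * i : ℕ) : ℤ) := fun i hi => by
    rw [map_mul, map_pow, v_eval O ι h1 (mem_support_iff.1 hi), hf, hu, ← WithZero.exp_nsmul,
      ← WithZero.exp_nsmul, ← WithZero.exp_add]
    congr 1
    simp only [nsmul_eq_mul]
    push_cast
    ring
  obtain ⟨j, hj, hmax⟩ := exists_max_image Q.support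
    (fun i => d * (Q.coeff i).natDegree + (d + 1) * i) (support_nonempty.2 h0)
  have h2 : O.v (∑ i ∈ Q.support, (Q.coeff i).eval₂ ι f * u ^ i) =
      O.v ((Q.coeff j).eval₂ ι f * u ^ j) := by
    refine O.v.map_sum_eq_of_lt (f := fun i => (Q.coeff i).eval₂ ι f * u ^ i) hj fun i hi => ?_
    rw [mem_sdiff, mem_singleton] at hi
    rw [hv i hi.1, hv j hj, WithZero.exp_lt_exp, Nat.cast_lt]
    refine lt_of_le_of_ne (hmax i hi.1) fun he => hi.2 ?_
    have hi' : i < d := (le_natDegree_of_mem_supp i hi.1).trans_lt hQ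
    have hj' : j < d := (le_natDegree_of_mem_supp j hj).trans_lt hQ
    have h3 := congrArg (· % d) he
    simp only [add_mul, one_mul, ← add_assoc, ← mul_add, Nat.mul_add_mod] at h3
    rwa [Nat.mod_eq_of_lt hi', Nat.mod_eq_of_lt hj'] at h3
  have h4 : ∑ i ∈ Q.support, (Q.coeff i).eval₂ ι f * u ^ i = 0 := by
    rw [ev, coe_eval₂RingHom, eval₂_eq_sum] at h
    exact h
  rw [h4, map_zero, hv j hj] at h2
  exact WithZero.exp_ne_zero h2.symm

theorem model (h0 : VE.S_S0) (hC : S_CvEx) (hN : S_Nrm) {k F : Type} [Field k] [NumberField k]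
    [Field F] [Algebra k F] [Algebra ℚ F] (hF : IsCurve F) (O : GPt F) (hO : IsRat k O) :
    Nonempty (Mdl k O) := by
  obtain ⟨A, cv, hA, hfr, hord⟩ := hC k F hF O hO
  have hded := cv.ded
  obtain ⟨n₀, hn⟩ := cv.cof
  obtain ⟨f, f0, hf⟩ := hn (n₀ + 1) (by omega)
  obtain ⟨u, u0, hu⟩ := hn (cv.δ f + 1) (by omega)
  have hd : 1 ≤ cv.δ f := by omega
  obtain ⟨M, -, hM2, hM3, hM4, hM5, -⟩ := hN k A cv f hd
  have hne : ∀ a : A, a ≠ 0 → (a : F) ≠ 0 := fun a ha h => ha (Subtype.ext h)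
  have hvf : O.v f = WithZero.exp (cv.δ f : ℤ) := by
    rw [O.v_eq (hne f f0), hord f f0, neg_neg]
  have hvu : O.v u = WithZero.exp ((cv.δ f : ℤ) + 1) := by
    rw [O.v_eq (hne u u0), hord u u0, neg_neg, hu]; rfl
  have hev : ∀ (Q : k[X][X]) (y : A),
      ((Q.eval₂ (aeval f : k[X] →ₐ[k] A).toRingHom y : A) : F) =
        ev (algebraMap k F) (f : F) (y : F) Q := fun Q y =>
    hom_ev A.val.toRingHom (algebraMap k A) f y Q
  have hdeg : ∀ y, (M y).charpoly.natDegree = cv.δ f := fun y => by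
    rw [Matrix.charpoly_natDegree_eq_dim, Fintype.card_fin]
  have hc0 : ∀ y, y ≠ 0 → (M y).charpoly.coeff 0 ≠ 0 ∧
      ((M y).charpoly.coeff 0).natDegree = cv.δ y := fun y hy => by
    obtain ⟨h1, h2⟩ := hM2 y hy
    rw [Matrix.det_eq_sign_charpoly_coeff] at h1 h2
    refine ⟨right_ne_zero_of_mul h1, ?_⟩
    rw [← h2]
    rcases neg_one_pow_eq_or k[X] (Fintype.card (Fin (cv.δ f))) with h | h <;> rw [h] <;> simp
  set P := (M u).charpoly with hP
  have mon : P.Monic := Matrix.charpoly_monic _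
  have hP0 : ev (algebraMap k F) (f : F) (u : F) P = 0 := by rw [← hev, hM4 u]; rfl
  have hker : ∀ Q, ev (algebraMap k F) (f : F) (u : F) Q = 0 ↔ P ∣ Q := by
    refine dvd_iff _ mon hP0 fun Q hQ h => ?_
    by_contra hQ0
    refine hQ0 (indep O _ hd hvf hvu Q ?_ h)
    rw [← hdeg u]
    exact natDegree_lt_natDegree hQ0 hQ
  have hlt : (derivative P).natDegree < cv.δ f := by
    rw [← hdeg u]
    exact natDegree_derivative_lt (by rw [hdeg u]; omega)
  have hy : ev (algebraMap k F) (f : F) (u : F) (derivative P) ≠ 0 := fun h => by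
    have h1 := derivative_eq_zero.1 (indep O _ hd hvf hvu _ hlt h)
    rw [hdeg u] at h1
    omega
  have hyA : ∀ a : A, ∃ g, ev (algebraMap k F) (f : F) (u : F) (derivative P) * a =
      ev (algebraMap k F) (f : F) (u : F) g := fun a => by
    obtain ⟨g, -, hg⟩ := hM5 u a
    exact ⟨g, by rw [← hev, ← hev, ← hg]; rfl⟩
  set y : A := (derivative P).eval₂ (aeval f : k[X] →ₐ[k] A).toRingHom u with hydef
  have y0 : y ≠ 0 := fun h => hy (by rw [← hev, ← hydef, h]; rfl)
  obtain ⟨D, hD, hDP⟩ : ∃ D : k[X], D ≠ 0 ∧ ∃ a b, a * P + b * derivative P = C D := by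
    refine ⟨(M y).charpoly.coeff 0, (hc0 y y0).1, ?_⟩
    have h1 : ev (algebraMap k F) (f : F) (u : F) ((M y).charpoly.comp (derivative P)) = 0 := by
      rw [← hev, eval₂_comp, ← hydef, hM4 y]; rfl
    obtain ⟨a, ha⟩ := (hker _).1 h1
    refine ⟨a, -(divX (M y).charpoly).comp (derivative P), ?_⟩
    have h2 := congrArg (·.comp (derivative P)) (divX_mul_X_add (M y).charpoly)
    simp only [add_comp, mul_comp, X_comp, C_comp] at h2
    rw [mul_comm a, ← ha, ← h2]
    ring
  have hsep : ∀ (σ : k →+* Qb) a, D.eval₂ σ a ≠ 0 → (P.map (eval₂RingHom σ a)).Separable := by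
    intro σ a ha
    obtain ⟨b, c, hbc⟩ := hDP
    have h1 := congrArg (Polynomial.map (eval₂RingHom σ a)) hbc
    rw [Polynomial.map_add, Polynomial.map_mul, Polynomial.map_mul, map_C,
      ← derivative_map, coe_eval₂RingHom] at h1
    refine ⟨C (D.eval₂ σ a)⁻¹ * b.map (eval₂RingHom σ a),
      C (D.eval₂ σ a)⁻¹ * c.map (eval₂RingHom σ a), ?_⟩
    rw [mul_assoc, mul_assoc, ← mul_add, h1, ← C_mul, inv_mul_cancel₀ ha, C_1]
  have hpole : O.ord (f : F) < 0 := by rw [hord f f0]; omega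
  refine ⟨{ d := cv.δ f
            hd := hd
            f := f
            u := u
            P := P
            R := ⋃ σ : k →+* Qb, {a | D.eval₂ σ a = 0}
            fin := Set.finite_iUnion fun σ => ?_
            rf := (hA f).1 f.2
            ru := (hA u).1 u.2
            pole := hpole
            mon := mon
            deg := hdeg u
            c0 := hu ▸ hc0 u u0
            cl := fun l hl => hu ▸ hM3 u l hl
            ker := hker
            frac := fun x => ?_
            sep := fun σ a ha => hsep σ a fun h => ha (Set.mem_iUnion.2 ⟨σ, h⟩)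
            uniq := fun p p' σ a c ha h1 h2 h3 h4 h5 h6 => ?_ }⟩
  · have h1 := finite_setOfPred_isRoot ((Polynomial.map_ne_zero_iff σ.injective).2 hD)
    simpa only [IsRoot, eval_map] using h1
  · obtain ⟨a, b, hb, rfl⟩ := IsFractionRing.div_surjective A x
    obtain ⟨g, hg⟩ := hyA a
    obtain ⟨g', hg'⟩ := hyA b
    have hb' : (b : F) ≠ 0 := hne b (nonZeroDivisors.ne_zero hb)
    refine ⟨g, g', hg' ▸ mul_ne_zero hy hb', ?_⟩
    rw [← hg, ← hg']
    change (a : F) / b * _ = _
    field_simp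
  · have hs := hsep σ a fun h => ha (Set.mem_iUnion.2 ⟨σ, h⟩)
    have hreg : ∀ q : GPt F, q.Val (f : F) a → ∀ r : A,
        algebraMap A F r ∈ q.v.valuationSubring := fun q hq r => by
      refine (hA r).1 r.2 q fun he => ?_
      have h7 := hq.mem
      rw [he] at h7
      exact (O.ord_neg_iff _).1 hpole h7
    have hroot : ev σ a c P = 0 := by
      have h7 := val_ev p h1 h3 h5 P
      rw [hP0] at h7
      exact h7.unique p.val_zero
    have hder : ev σ a c (derivative P) ≠ 0 := by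
      rw [ev_eq] at hroot ⊢
      rw [← derivative_map]
      exact hs.eval₂_derivative_ne_zero (RingHom.id _) hroot
    obtain ⟨s, s0, hs1⟩ := (h0 A F).2.1 p (hreg p h3)
    obtain ⟨s', -, hs2⟩ := (h0 A F).2.1 p' (hreg p' h4)
    have hss : ∀ r, s' r = s r := fun r => by
      obtain ⟨g, hg⟩ := hyA r
      have e1 := (val_ev p h1 h3 h5 (derivative P)).mul (hs1 r)
      have e2 := (val_ev p' h2 h4 h6 (derivative P)).mul (hs2 r)
      change p.Val (_ * (r : F)) _ at e1
      change p'.Val (_ * (r : F)) _ at e2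
      rw [hg] at e1 e2
      exact mul_left_cancel₀ hder
        ((e2.unique (val_ev p' h2 h4 h6 g)).trans ((val_ev p h1 h3 h5 g).unique e1))
    exact ((h0 A F).1 s s0).unique hs1 fun r => hss r ▸ hs2 r

end Cov1

end Pool.Agent.P.MP_b8021b_nt.VC
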