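import Pool.Agent.P.MP_b8021b_nt.VC.PCov1B

/-! The Weil restriction cover. -/

namespace Pool.Agent.P.MP_b8021b_nt.VC

open Polynomial NumberField Finset Pool.Agent.P.MP_b8021b_nt.VE
open scoped Classical WithZero IntermediateField

namespace Cov1

theorem exists_sep (K : Type) [Field K] [NumberField K] :
    ∃ θ : K, Function.Injective fun s : K ≃ₐ[ℚ] K => s θ := by
  obtain ⟨θ, h⟩ := exists_linearIndependent_algEquiv_apply ℚ K
  exact ⟨θ, h.injective⟩

theorem exists_nat {I : Type} [Finite I] (R : Set Qb) (hR : R.Finite) (a : Qb) (c : I → Qb) :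
    ∃ n : ℕ, n ≠ 0 ∧ ∀ i, c i ≠ 0 → a + n / c i ∉ R := by
  have h1 : (insert 0 (⋃ i, (fun ρ => (ρ - a) * c i) '' R)).Finite :=
    (Set.finite_iUnion fun i => hR.image _).insert 0
  obtain ⟨n, hn⟩ := (h1.preimage (Nat.cast_injective (R := Qb)).injOn).exists_notMem
  refine ⟨n, fun h => hn (Or.inl (by simp [h])), fun i hi h =>
    hn (Or.inr (Set.mem_iUnion.2 ⟨i, _, h, ?_⟩))⟩
  field_simp
  ring

theorem ext_tower {K M I : Type} [Field K] [Field M] [Algebra (RatFunc K) M] {u : I → M}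
    (h : IntermediateField.adjoin (RatFunc K) (Set.range u) = ⊤) {g g' : M →+* M}
    (h1 : ∀ b, g (algebraMap _ M (algebraMap K (RatFunc K) b)) =
      g' (algebraMap _ M (algebraMap K (RatFunc K) b)))
    (h2 : g (algebraMap (RatFunc K) M RatFunc.X) = g' (algebraMap (RatFunc K) M RatFunc.X))
    (h3 : ∀ i, g (u i) = g' (u i)) : g = g' := by
  have h4 : (g.comp (algebraMap (RatFunc K) M)).comp (algebraMap K[X] (RatFunc K)) =
      (g'.comp (algebraMap (RatFunc K) M)).comp (algebraMap K[X] (RatFunc K)) :=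
    Polynomial.ringHom_ext (fun a => by simpa using h1 a) (by simpa using h2)
  have h5 : g.comp (algebraMap (RatFunc K) M) = g'.comp (algebraMap (RatFunc K) M) :=
    IsFractionRing.ringHom_ext (A := K[X]) fun x => RingHom.congr_fun h4 x
  ext x
  have hx : x ∈ IntermediateField.adjoin (RatFunc K) (Set.range u) := h ▸ trivial
  induction hx using IntermediateField.adjoin_induction with
  | mem y hy => obtain ⟨i, rfl⟩ := hy; exact h3 i
  | algebraMap y => exact RingHom.congr_fun h5 y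
  | add y z _ _ hy hz => rw [map_add, map_add, hy, hz]
  | inv y _ hy => rw [map_inv₀, map_inv₀, hy]
  | mul y z _ _ hy hz => rw [map_mul, map_mul, hy, hz]

theorem exists_conj {K : Type} [Field K] (g : K ≃+* K) : ∃ γ : RatFunc K ≃+* RatFunc K,
    (∀ b, γ (algebraMap K _ b) = algebraMap K _ (g b)) ∧ γ RatFunc.X = RatFunc.X := by
  refine ⟨IsFractionRing.ringEquivOfRingEquiv (Polynomial.mapEquiv g), fun b => ?_, ?_⟩
  · have := IsFractionRing.ringEquivOfRingEquiv_algebraMap (K := RatFunc K) (L := RatFunc K)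
      (Polynomial.mapEquiv g) (C b)
    simpa using this
  · have := IsFractionRing.ringEquivOfRingEquiv_algebraMap (K := RatFunc K) (L := RatFunc K)
      (Polynomial.mapEquiv g) X
    simpa using this

theorem X_sub_ne {K : Type} [Field K] (b : K) : RatFunc.X - algebraMap K (RatFunc K) b ≠ 0 := by
  have : RatFunc.X - algebraMap K (RatFunc K) b = algebraMap K[X] _ (X - C b) := by simp
  rw [this]
  exact RatFunc.algebraMap_ne_zero (X_sub_C_ne_zero b)

theorem eis {k F E : Type} [Field k] [NumberField k] [Field F] [Algebra k F] {O : GPt F}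
    (m : Mdl k O) [Field E] (p : GPt E) (ι : k →+* E) {x : E} (hx : p.v x = WithZero.exp 1) :
    Function.Injective (eval₂RingHom ι x) ∧
      EisV p.v (m.P.map (eval₂RingHom ι x)) (-((m.d : ℤ) + 1)) := by
  have h1 : 1 < p.v x := by rw [hx, ← WithZero.exp_zero, WithZero.exp_lt_exp]; omega
  have h2 : ∀ c : k[X], c ≠ 0 → p.v (c.eval₂ ι x) = WithZero.exp (c.natDegree : ℤ) := fun c hc => by
    rw [v_eval p ι h1 hc, hx, ← WithZero.exp_nsmul]; simp
  refine ⟨(injective_iff_map_eq_zero _).2 fun c hc => ?_, ?_, ?_, fun l hl => ?_⟩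
  · by_contra h
    have h3 := h2 c h
    rw [coe_eval₂RingHom] at hc
    rw [hc, map_zero] at h3
    exact WithZero.exp_ne_zero h3.symm
  · rw [coeff_map, coe_eval₂RingHom, h2 _ m.c0.1, m.c0.2, neg_neg]; rfl
  · rw [m.mon.natDegree_map, m.deg]
    exact ⟨-1, -1, by ring⟩
  · rw [m.mon.natDegree_map, m.deg] at hl ⊢
    rw [coeff_map, coe_eval₂RingHom, neg_neg]
    by_cases h : m.P.coeff l = 0
    · rw [h, eval₂_zero, map_zero, zero_pow (by omega)]
      exact zero_le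
    · rw [h2 _ h, ← WithZero.exp_nsmul, ← WithZero.exp_nsmul, WithZero.exp_le_exp, nsmul_eq_mul,
        nsmul_eq_mul]
      exact_mod_cast m.cl l h

theorem geom (hCrv : S_Crv) (hRes : S_Res) (hTrans : S_Trans) (hEis : S_Eis) (hT : S_Tower)
    {k F : Type} [Field k] [NumberField k] [Field F] [Algebra k F] {O : GPt F} (m : Mdl k O)
    {K : Type} [Field K] [NumberField K] (τ : K →+* Qb) (ι₀ : k →+* K) (a₀ : ℕ)
    (ha₀ : (a₀ : Qb) ∉ m.R) (ρ₀ : K) (hρ : ev ι₀ a₀ ρ₀ m.P = 0) :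
    ∃ (M : Type) (_ : Field M) (_ : Algebra ℚ M) (c : K →+* M) (j : (K ≃ₐ[ℚ] K) → F →+* M)
      (act : (K ≃ₐ[ℚ] K) →* RingAut M) (O' : GPt M) (S : Set Qb), IsCurve M ∧
      (∀ g b, act g (c b) = c (g b)) ∧ (∀ g s a, act g (j s a) = j (g * s) a) ∧
      (∀ s b, j s (algebraMap k F b) = c (s (ι₀ b))) ∧
      (∀ (σ : Qb ≃+* Qb) g, (∀ x, σ (τ x) = τ (g x)) → ∀ q : GPt M,
        (∀ a e, O'.Val a e → q.Val (act g a) (σ e)) → q = O') ∧ S.Finite ∧
      ∀ a, a ∉ S → ∃ b : (K ≃ₐ[ℚ] K) → Qb, b 1 = a ∧ (∀ s, b s ∉ m.R) ∧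
        ∀ e : (K ≃ₐ[ℚ] K) → Qb,
          (∀ s : K ≃ₐ[ℚ] K, ev (τ.comp ((s : K →+* K).comp ι₀)) (b s) (e s) m.P = 0) →
          ∃ q : GPt M, (∀ x, q.Val (c x) (τ x)) ∧
            ∀ s, q.Val (j s m.f) (b s) ∧ q.Val (j s m.u) (e s) := by
  obtain ⟨θ, hθ⟩ := exists_sep K
  obtain ⟨n, n0, hn⟩ := exists_nat m.R m.fin a₀
    fun i : (K ≃ₐ[ℚ] K) × (K ≃ₐ[ℚ] K) => τ (i.1 θ) - τ (i.2 θ)
  have n0' : (n : Qb) ≠ 0 := Nat.cast_ne_zero.2 n0
  obtain ⟨cK, hpt, hinf, hord, -⟩ := hCrv.2.2 K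
  set C₀ := algebraMap K (RatFunc K) with hC₀
  let x : (K ≃ₐ[ℚ] K) → RatFunc K := fun s =>
    (a₀ : RatFunc K) + (n : RatFunc K) / (RatFunc.X - C₀ (s θ))
  let ι : (K ≃ₐ[ℚ] K) → k →+* RatFunc K := fun s => C₀.comp ((s : K →+* K).comp ι₀)
  let σ : (K ≃ₐ[ℚ] K) → k →+* Qb := fun s => τ.comp ((s : K →+* K).comp ι₀)
  let P : (K ≃ₐ[ℚ] K) → (RatFunc K)[X] := fun s => m.P.map (eval₂RingHom (ι s) (x s))
  have vx : ∀ (p : GPt (RatFunc K)) t s, (∀ b, p.Val (C₀ b) (τ b)) → p.Val RatFunc.X t →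
      t - τ (s θ) ≠ 0 → p.Val (x s) (a₀ + n / (t - τ (s θ))) := fun p t s h1 h2 h3 =>
    (p.val_natCast a₀).add ((p.val_natCast n).div (h2.sub (h1 _)) h3)
  choose pt hpt1 hpt2 using fun t => (hpt τ t).exists
  obtain ⟨pi, ⟨hi1, hi2⟩, hi3⟩ := hinf τ
  have vi : ∀ s, pi.Val (x s) a₀ := fun s => by
    have h1 := (pi.val_natCast a₀).add (((pi.val_natCast n).mul hi2).div
      (pi.val_one.sub ((hi1 (s θ)).mul hi2)) (by simp))
    have h2 : (n : RatFunc K) * RatFunc.X⁻¹ / (1 - C₀ (s θ) * RatFunc.X⁻¹) =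
        (n : RatFunc K) / (RatFunc.X - C₀ (s θ)) := by
      have := X_sub_ne (s θ)
      have := RatFunc.X_ne_zero (K := K)
      field_simp
    rw [h2] at h1
    simpa using h1
  have hv : ∀ s, (pt (τ (s θ))).v (x s) = WithZero.exp 1 := fun s => by
    have h1 := hord (pt (τ (s θ))) (s θ) (by simpa using (hpt2 (τ (s θ))).sub (hpt1 _ (s θ)))
    have h2 : (pt (τ (s θ))).v ((n : RatFunc K) / (RatFunc.X - C₀ (s θ))) = WithZero.exp 1 := by
      rw [map_div₀, ((pt _).val_natCast n).v_eq_one n0', GPt.v_eq _ (X_sub_ne _), h1,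
        WithZero.exp_neg, one_div, inv_inv]
    rw [← h2]
    refine Valuation.map_add_eq_of_lt_right _ ?_
    rw [h2]
    refine lt_of_le_of_lt ((pt _).val_natCast a₀).mem ?_
    rw [← WithZero.exp_zero, WithZero.exp_lt_exp]; omega
  have hmon : ∀ s, (P s).Monic := fun s => m.mon.map _
  have hdeg : ∀ s, (P s).natDegree = m.d := fun s => by rw [m.mon.natDegree_map, m.deg]
  obtain ⟨M, _, _, _, u, hu0, hadj, hq, haut⟩ := hT (RatFunc K) cK (K ≃ₐ[ℚ] K) P m.d
    (fun s => pt (τ (s θ))) m.hd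
    (fun s => ⟨hmon s, hdeg s, _, (eis m _ (ι s) (hv s)).2⟩) (fun s s' h => by
      have h1 : τ (s θ) - τ (s' θ) ≠ 0 := sub_ne_zero.2 fun e => h (hθ (τ.injective e))
      exact ⟨_, red _ (σ := σ s') (fun b => hpt1 _ _) (vx _ _ s' (hpt1 _) (hpt2 _) h1) m.P,
        m.sep _ _ (hn (s, s') h1)⟩)
  set A := algebraMap (RatFunc K) M with hA
  have : CharZero M := (RingHom.charZero_iff (A.comp C₀).injective).1 inferInstance
  have cM : IsCurve M := (hCrv.1 (RatFunc K) M).1 cK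
  have hev : ∀ s (Q : k[X][X]), ev (A.comp (ι s)) (A (x s)) (u s) Q =
      aeval (u s) (Q.map (eval₂RingHom (ι s) (x s))) := fun s Q => by
    have : A.comp (eval₂RingHom (ι s) (x s)) = eval₂RingHom (A.comp (ι s)) (A (x s)) :=
      Polynomial.ringHom_ext (fun a => by simp) (by simp)
    rw [aeval_def, eval₂_map, this]; rfl
  have hj : ∀ s, ∃ j : F →+* M, ∀ Q, j (ev (algebraMap k F) m.f m.u Q) =
      ev (A.comp (ι s)) (A (x s)) (u s) Q := fun s => by
    refine ext_hom _ _ (fun Q => ?_) m.frac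
    obtain ⟨h1, h2⟩ := eis m _ (ι s) (hv s)
    have h3 := minpoly.eq_of_irreducible_of_monic
      (hEis _ _ _ _ (hmon s) (by rw [hdeg]; exact m.hd) h2) (hu0 s) (hmon s)
    rw [m.ker, hev, ← map_dvd_map _ h1 m.mon]
    exact ⟨fun h => aeval_eq_zero_of_dvd_aeval_eq_zero h (hu0 s),
      fun h => (dvd_of_eq h3).trans (minpoly.dvd _ _ h)⟩
  choose j hj using hj
  have jf : ∀ s, j s m.f = A (x s) := fun s => by simpa only [ev_x] using hj s (C X)
  have ju : ∀ s, j s m.u = u s := fun s => by simpa only [ev_y] using hj s X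
  have jc : ∀ s b, j s (algebraMap k F b) = A (C₀ (s (ι₀ b))) := fun s b => by
    have h1 := hj s (C (C b))
    rwa [ev_c, ev_c] at h1
  have hact : ∀ g : K ≃ₐ[ℚ] K, ∃ a : M ≃+* M, (∀ b, a (A (C₀ b)) = A (C₀ (g b))) ∧
      a (A RatFunc.X) = A RatFunc.X ∧ ∀ s, a (u s) = u (g * s) := fun g => by
    obtain ⟨γ, h1, h2⟩ := exists_conj g.toRingEquiv
    obtain ⟨a, h3, h4⟩ := haut γ (Equiv.mulLeft g) fun s => by
      have : (γ : RatFunc K →+* RatFunc K).comp (eval₂RingHom (ι s) (x s)) =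
          eval₂RingHom (ι (g * s)) (x (g * s)) := by
        refine Polynomial.ringHom_ext (fun a => ?_) ?_
        · rw [RingHom.comp_apply, coe_eval₂RingHom, coe_eval₂RingHom, eval₂_C, eval₂_C]
          exact h1 (s (ι₀ a))
        · simp only [RingHom.comp_apply, coe_eval₂RingHom, eval₂_X, x, map_add, map_div₀,
            map_natCast, map_sub, RingHom.coe_coe, h2]
          rw [h1]; rfl
      simp only [P]
      rw [Polynomial.map_map, this]; rfl
    exact ⟨a, fun b => by rw [h3, h1]; rfl, by rw [h3, h2], h4⟩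
  choose a ha1 ha2 ha3 using hact
  let act : (K ≃ₐ[ℚ] K) →* RingAut M := MonoidHom.mk' a fun g h => by
    have : ((a (g * h) : M ≃+* M) : M →+* M) = (a g : M →+* M).comp (a h : M →+* M) :=
      ext_tower hadj (fun b => by simp [← hA, ← hC₀, ha1]) (by simp [← hA, ha2])
        fun s => by simp [ha3, mul_assoc]
    exact RingEquiv.ext fun y => RingHom.congr_fun this y
  have hax : ∀ g s, a g (A (x s)) = A (x (g * s)) := fun g s => by
    simp only [x, map_add, map_div₀, map_natCast, map_sub, ha1, ha2, AlgEquiv.mul_apply]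
  obtain ⟨O', ⟨hO1, hO2⟩, hO3⟩ := hq pi (fun s => m.P.map (eval₂RingHom (σ s) a₀))
    (fun s => τ (s ρ₀)) fun s => ⟨red _ (ι := ι s) (σ := σ s) (fun b => hi1 _) (vi s) m.P,
      m.sep _ _ ha₀, by
      have h1 := hom_ev (τ.comp (s : K →+* K)) ι₀ a₀ ρ₀ m.P
      rw [hρ, map_zero, map_natCast, ev_eq] at h1
      exact h1.symm⟩
  obtain ⟨res, hr1, hr2, -⟩ := res_hom hCrv hRes hTrans cK cM A
  let B : Set Qb := ⋃ s : K ≃ₐ[ℚ] K, insert (τ (s θ)) ((fun ρ => τ (s θ) + n / (ρ - a₀)) '' m.R)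
  have hB : B.Finite := Set.finite_iUnion fun s => (m.fin.image _).insert _
  refine ⟨M, inferInstance, inferInstance, A.comp C₀, j, act, O',
    insert (a₀ : Qb) ((fun t => a₀ + n / (t - τ θ)) '' B), cM, ha1, fun g s y => ?_, jc,
    fun ϕ g hg q h => ?_, (hB.image _).insert _, fun y hy => ?_⟩
  · have : (a g : M →+* M).comp (j s) = j (g * s) := by
      refine hom_ext _ m.frac fun Q => ?_
      have h1 : (a g : M →+* M).comp (A.comp (ι s)) = A.comp (ι (g * s)) :=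
        RingHom.ext fun b => ha1 g (s (ι₀ b))
      rw [RingHom.comp_apply, hj, hj, hom_ev, h1, RingHom.coe_coe, hax, ha3]
    exact RingHom.congr_fun this y
  · refine hO3 q ⟨(hr1 q pi).2 (hi3 _ ⟨fun b => hr2 q _ _ ?_, hr2 q _ _ ?_⟩), fun s => ?_⟩
    · have h1 := h _ _ (hO1 _ _ (hi1 (g.symm b)))
      change q.Val (a g _) _ at h1
      rwa [ha1, hg, g.apply_symm_apply] at h1
    · have h1 := h _ _ (hO1 _ _ hi2)
      change q.Val (a g _) _ at h1
      rwa [map_zero, map_inv₀, map_inv₀, ha2, ← map_inv₀] at h1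
    · have h1 := h _ _ (hO2 (g⁻¹ * s))
      change q.Val (a g _) _ at h1
      rwa [ha3, hg, ← AlgEquiv.mul_apply, mul_inv_cancel_left] at h1
  · have y0 : y - a₀ ≠ 0 := sub_ne_zero.2 fun h => hy (Or.inl h)
    set t := τ θ + n / (y - a₀) with ht
    have h1 : a₀ + n / (t - τ θ) = y := by
      rw [ht, add_sub_cancel_left, div_div_cancel₀ n0', add_sub_cancel]
    have h2 : t ∉ B := fun h => hy (Or.inr ⟨t, h, h1⟩)
    have h3 : ∀ s : K ≃ₐ[ℚ] K, t - τ (s θ) ≠ 0 := fun s h =>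
      h2 (Set.mem_iUnion.2 ⟨s, Or.inl (sub_eq_zero.1 h)⟩)
    have h4 : ∀ s : K ≃ₐ[ℚ] K, a₀ + n / (t - τ (s θ)) ∉ m.R := fun s h =>
      h2 (Set.mem_iUnion.2 ⟨s, Or.inr ⟨_, h, by
        simp only [add_sub_cancel_left, div_div_cancel₀ n0', add_sub_cancel]⟩⟩)
    refine ⟨fun s => a₀ + n / (t - τ (s θ)), h1, h4, fun e he => ?_⟩
    have h5 := fun s => vx (pt t) t s (hpt1 t) (hpt2 t) (h3 s)
    obtain ⟨q, ⟨hq1, hq2⟩, -⟩ := hq (pt t)
      (fun s => m.P.map (eval₂RingHom (σ s) (a₀ + n / (t - τ (s θ))))) e fun s =>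
      ⟨red _ (ι := ι s) (σ := σ s) (fun b => hpt1 t _) (h5 s) m.P, m.sep _ _ (h4 s), by
        have h6 := he s
        rwa [ev_eq] at h6⟩
    exact ⟨q, fun b => hq1 _ _ (hpt1 t b), fun s => ⟨jf s ▸ hq1 _ _ (h5 s), ju s ▸ hq2 s⟩⟩

end Cov1

end Pool.Agent.P.MP_b8021b_nt.VC
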