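import Pool.Agent.P.MP_b8021b_nt.VC.StS
import Pool.Agent.P.MP_b8021b_nt.VE.BasicS

/-! Curve fields and the points of the projective line. -/

namespace Pool.Agent.P.MP_b8021b_nt.VC

open Polynomial NumberField Finset Pool.Agent.P.MP_b8021b_nt.VE
open scoped Classical WithZero IntermediateField

namespace CrvP

/-- finiteness passes to a larger base field -/
theorem fin_of_map {E E' F : Type} [Field E] [Field E'] [Field F] [Algebra E F] [Algebra E' F]
    (j : E →+* E') (hj : ∀ a, algebraMap E' F (j a) = algebraMap E F a)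
    (h : FiniteDimensional E F) : FiniteDimensional E' F := by
  let : Algebra E E' := j.toAlgebra
  have : IsScalarTower E E' F := IsScalarTower.of_algebraMap_eq fun a => (hj a).symm
  exact Module.Finite.of_restrictScalars_finite E E' F

/-- finiteness over `k(t)` does not depend on the transcendental element `t` -/
theorem swap {k F : Type} [Field k] [Field F] [Algebra k F] {s t : F} (hs : Transcendental k s)
    (ht : Transcendental k t) (h : FiniteDimensional k⟮s⟯ F) : FiniteDimensional k⟮t⟯ F := by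
  let e := RatFunc.algEquivOfTranscendental s hs
  let : Algebra (RatFunc k) F :=
    ((algebraMap k⟮s⟯ F).comp (e : RatFunc k →+* k⟮s⟯)).toAlgebra
  have : IsScalarTower k (RatFunc k) F := IsScalarTower.of_algebraMap_eq fun a => by
    change _ = algebraMap k⟮s⟯ F (e (algebraMap k (RatFunc k) a))
    rw [e.commutes, ← IsScalarTower.algebraMap_apply]
  have : FiniteDimensional (RatFunc k) F :=
    fin_of_map (E := k⟮s⟯) (e.symm : k⟮s⟯ →+* RatFunc k) (fun a => by
      change algebraMap k⟮s⟯ F (e (e.symm a)) = _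
      rw [e.apply_symm_apply]) h
  exact FunctionField.finiteDimensional_of_adjoin_transcendental ht

theorem down {k F M : Type} [Field k] [Field F] [Field M] [Algebra k F] [Algebra k M] [Algebra F M]
    [IsScalarTower k F M] {t : F} (ht : Transcendental k t)
    (h : FiniteDimensional k⟮algebraMap F M t⟯ M) : FiniteDimensional k⟮t⟯ M := by
  have ht' : Transcendental k (algebraMap F M t) :=
    (transcendental_algebraMap_iff (algebraMap F M).injective).2 ht
  let e := (RatFunc.algEquivOfTranscendental _ ht').symm.trans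
    (RatFunc.algEquivOfTranscendental _ ht)
  refine fin_of_map (E := k⟮algebraMap F M t⟯) (e : k⟮algebraMap F M t⟯ →+* k⟮t⟯) (fun a => ?_) h
  obtain ⟨u, rfl⟩ := (RatFunc.algEquivOfTranscendental _ ht').surjective a
  change algebraMap F M (e (RatFunc.algEquivOfTranscendental _ ht' u) : F) =
    (RatFunc.algEquivOfTranscendental _ ht' u : M)
  simp only [e, AlgEquiv.trans_apply, AlgEquiv.symm_apply_apply,
    RatFunc.algEquivOfTranscendental_apply, map_div₀, aeval_algebraMap_apply]

theorem adj_mem {k F : Type} [Field k] [Field F] [Algebra k F] (E : Subfield F) {t : F}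
    (hk : ∀ b, algebraMap k F b ∈ E) (ht : t ∈ E) (g : k[X]) : aeval t g ∈ E := by
  rw [aeval_eq_sum_range]
  exact sum_mem fun i _ => by
    rw [Algebra.smul_def]
    exact mul_mem (hk _) (pow_mem ht _)

theorem tower (F M : Type) [Field F] [Field M] [Algebra ℚ F] [Algebra ℚ M] [Algebra F M] :
    IsScalarTower ℚ F M :=
  IsScalarTower.of_algebraMap_eq' (Subsingleton.elim _ _)

theorem part1 (F M : Type) [Field F] [Field M] [Algebra ℚ F] [Algebra ℚ M] [Algebra F M]
    [FiniteDimensional F M] : IsCurve F ↔ IsCurve M := by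
  have := tower F M
  have hinj := (algebraMap F M).injective
  constructor
  · rintro ⟨t, ht, hf⟩
    refine ⟨algebraMap F M t, (transcendental_algebraMap_iff hinj).2 ht, ?_⟩
    have : FiniteDimensional ℚ⟮t⟯ M := Module.Finite.trans F M
    exact Module.Finite.of_restrictScalars_finite ℚ⟮t⟯ _ _
  · rintro ⟨s, hs, hf⟩
    have h1 : ∃ t : F, Transcendental ℚ t := by
      by_contra h
      have : Algebra.IsAlgebraic ℚ F := ⟨fun t => by_contra fun ht => h ⟨t, ht⟩⟩
      have : Algebra.IsAlgebraic ℚ M := Algebra.IsAlgebraic.trans ℚ F M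
      exact hs (Algebra.IsAlgebraic.isAlgebraic s)
    obtain ⟨t, ht⟩ := h1
    have ht' : Transcendental ℚ (algebraMap F M t) := (transcendental_algebraMap_iff hinj).2 ht
    have h2 := swap hs ht' hf
    have := down ht h2
    exact ⟨t, ht, Module.Finite.left ℚ⟮t⟯ F M⟩

theorem part2 (k F : Type) [Field k] [NumberField k] [Field F] [Algebra k F] [Algebra ℚ F] (t : F)
    (ht : Transcendental k t) : IsCurve F ↔ FiniteDimensional k⟮t⟯ F := by
  have := tower k F
  have ht' : Transcendental ℚ t := ht.of_tower_top ℚ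
  constructor
  · rintro ⟨s, hs, hf⟩
    have hle : ℚ⟮t⟯ ≤ k⟮t⟯.restrictScalars ℚ :=
      IntermediateField.adjoin_simple_le_iff.2 (IntermediateField.mem_adjoin_simple_self k t)
    exact fin_of_map (E := ℚ⟮t⟯)
      ((algebraMap ℚ⟮t⟯ F).codRestrict k⟮t⟯.toSubfield.toSubring fun a => hle a.2)
      (fun a => rfl) (swap hs ht' hf)
  · intro hf
    refine ⟨t, ht', ?_⟩
    obtain ⟨α, hα⟩ := Field.exists_primitive_element ℚ k
    have hi : IsIntegral ℚ⟮t⟯ (algebraMap k F α) :=
      ((Algebra.IsIntegral.isIntegral (R := ℚ) α).map (IsScalarTower.toAlgHom ℚ k F)).tower_top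
    have := IntermediateField.adjoin.finiteDimensional hi
    set E := ℚ⟮t⟯⟮algebraMap k F α⟯ with hE
    have hk : ∀ b : k, algebraMap k F b ∈ E := fun b => by
      have hb : b ∈ ℚ⟮α⟯ := hα ▸ IntermediateField.mem_top
      obtain ⟨r, s, rfl⟩ := (IntermediateField.mem_adjoin_simple_iff ℚ b).1 hb
      have h1 : ∀ g : ℚ[X], algebraMap k F (aeval α g) ∈ E := fun g => by
        rw [← aeval_algebraMap_apply]
        exact adj_mem E.toSubfield (fun q => (E.restrictScalars ℚ).algebraMap_mem q)
          (IntermediateField.mem_adjoin_simple_self _ _) g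
      rw [map_div₀]
      exact div_mem (h1 r) (h1 s)
    have htE : t ∈ E := E.algebraMap_mem ⟨t, IntermediateField.mem_adjoin_simple_self ℚ t⟩
    have hle : ∀ a : k⟮t⟯, (a : F) ∈ E := fun a => by
      obtain ⟨r, s, e⟩ := (IntermediateField.mem_adjoin_simple_iff k (a : F)).1 a.2
      have h1 : ∀ g : k[X], aeval t g ∈ E := adj_mem E.toSubfield hk htE
      rw [e]
      exact div_mem (h1 r) (h1 s)
    have : FiniteDimensional E F := fin_of_map (E := k⟮t⟯)
      ((algebraMap k⟮t⟯ F).codRestrict E.toSubfield.toSubring hle) (fun a => rfl) hf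
    exact Module.Finite.trans E F

section Line

variable {K F : Type} [Field K] [NumberField K] [Field F] [Algebra K F]

theorem ker_ne (τ : K →+* Qb) (a : Qb) : RingHom.ker (eval₂RingHom τ a) ≠ ⊥ := by
  obtain ⟨q, hq, h0⟩ := (AlgebraicClosure.isAlgebraic ℚ).isAlgebraic a
  intro h
  have h1 : q.map (algebraMap ℚ K) ∈ RingHom.ker (eval₂RingHom τ a) := by
    rw [RingHom.mem_ker, coe_eval₂RingHom, eval₂_map,
      Subsingleton.elim (τ.comp (algebraMap ℚ K)) (algebraMap ℚ Qb)]
    exact h0
  rw [h, Ideal.mem_bot, Polynomial.map_eq_zero_iff (algebraMap ℚ K).injective] at h1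
  exact hq h1

/-- the affine line with coordinate `t` -/
theorem line (hS0 : S_S0) {t : F} (ht : Transcendental K t) (htop : K⟮t⟯ = ⊤) :
    (∀ (τ : K →+* Qb) (a : Qb), ∃! p : GPt F, (∀ b, p.Val (algebraMap K F b) (τ b)) ∧ p.Val t a) ∧
    ∀ (p : GPt F) (b : K), p.Val (t - algebraMap K F b) 0 → p.ord (t - algebraMap K F b) = 1 := by
  let : Algebra K[X] F := (eval₂RingHom (algebraMap K F) t).toAlgebra
  have hmap : ∀ g : K[X], algebraMap K[X] F g = g.eval₂ (algebraMap K F) t := fun _ => rfl
  have : FaithfulSMul K[X] F := (faithfulSMul_iff_algebraMap_injective _ _).2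
    (transcendental_iff_injective.1 ht)
  have : IsFractionRing K[X] F := IsFractionRing.of_field _ _ fun z =>
    (IntermediateField.mem_adjoin_simple_iff K z).1 (htop ▸ IntermediateField.mem_top)
  obtain ⟨s1, -, s3⟩ := hS0 K[X] F
  refine ⟨fun τ a => ?_, fun p b hb => ?_⟩
  · obtain ⟨p, hp, hu⟩ := s1 _ (ker_ne τ a)
    refine ⟨p, ⟨fun b => ?_, ?_⟩, fun q hq => hu q fun r => q.val_eval₂ hq.1 hq.2 r⟩
    · simpa [hmap] using hp (C b)
    · simpa [hmap] using hp X
  · obtain ⟨τ, hτ⟩ := p.exists_emb (algebraMap K F)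
    have h1 : p.Val t (τ b) := by simpa using hb.add (hτ b)
    have h2 := s3 p (eval₂RingHom (τ : K →+* Qb) (τ b))
      (fun r => p.val_eval₂ (τ := (τ : K →+* Qb)) hτ h1 r) (X - C b) (X_sub_C_ne_zero b)
    have h3 : RingHom.ker (eval₂RingHom (τ : K →+* Qb) (τ b)) = Ideal.span {X - C b} := by
      rw [← ker_evalRingHom]
      ext g
      rw [RingHom.mem_ker, RingHom.mem_ker, coe_eval₂RingHom, coe_evalRingHom]
      exact (eval₂_at_apply (τ : K →+* Qb) b ▸ Iff.rfl : _ ↔ (τ : K →+* Qb) (g.eval b) = 0).trans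
        (_root_.map_eq_zero _)
    rw [h3, multiplicity_self, hmap] at h2
    simpa using h2

end Line

end CrvP

theorem p_crv (hS0 : VE.S_S0) : S_Crv := by
  refine ⟨CrvP.part1, CrvP.part2, fun K _ _ _ => ?_⟩
  have hX : Transcendental K (RatFunc.X : RatFunc K) := RatFunc.transcendental_X
  have hX' : Transcendental K (RatFunc.X : RatFunc K)⁻¹ := fun h => hX (IsAlgebraic.inv_iff.1 h)
  have htop : K⟮(RatFunc.X : RatFunc K)⟯ = ⊤ := RatFunc.adjoin_X
  have htop' : K⟮(RatFunc.X : RatFunc K)⁻¹⟯ = ⊤ := by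
    rw [eq_top_iff, ← htop, IntermediateField.adjoin_simple_le_iff]
    simpa using inv_mem (IntermediateField.mem_adjoin_simple_self K (RatFunc.X : RatFunc K)⁻¹)
  obtain ⟨a1, a2⟩ := CrvP.line hS0 hX htop
  obtain ⟨b1, b2⟩ := CrvP.line hS0 hX' htop'
  refine ⟨(CrvP.part2 K _ _ hX).2 ?_, a1, fun τ => b1 τ 0, a2, fun p hp => ?_⟩
  · rw [htop]
    exact Module.Finite.of_surjective (Algebra.linearMap _ _) fun z =>
      ⟨⟨z, IntermediateField.mem_top⟩, rfl⟩
  · have h := b2 p 0 (by simpa using hp)
    rw [map_zero, sub_zero, p.ord_inv] at h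
    omega

end Pool.Agent.P.MP_b8021b_nt.VC
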