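import Pool.Agent.P.MP_b8021b_nt.VC.StS
import Pool.Agent.P.MP_b8021b_nt.VE.BasicS

/-! The ring of functions that are regular wherever a given function is regular. -/

namespace Pool.Agent.P.MP_b8021b_nt.VC.CvExP

open Polynomial Finset WithZero IsDedekindDomain Pool.Agent.P.MP_b8021b_nt.VE
open scoped Classical WithZero IntermediateField IntermediateField.algebraAdjoinAdjoin

variable {k F : Type} [Field k] [NumberField k] [Field F] [Algebra k F]

/-- functions regular on a set of points -/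
def regOn (k : Type) [Field k] [NumberField k] [Algebra k F] (S : Set (GPt F)) :
    Subalgebra k F where
  carrier := {b | ∀ p ∈ S, b ∈ p.v.valuationSubring}
  mul_mem' ha hb p hp := mul_mem (ha p hp) (hb p hp)
  add_mem' ha hb p hp := add_mem (ha p hp) (hb p hp)
  algebraMap_mem' c p _ := p.mem_of_alg (algebraMap k F) c

theorem mem_regOn {S : Set (GPt F)} {b : F} :
    b ∈ regOn k S ↔ ∀ p ∈ S, b ∈ p.v.valuationSubring := Iff.rfl

section Ded

variable {R : Type} [CommRing R] [IsDedekindDomain R] [Algebra R F] [IsFractionRing R F]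

theorem v_prime (h0 : S_S0) (p : GPt F) (σ : R →+* Qb) (h : ∀ r, p.Val (algebraMap R F r) (σ r))
    (P : HeightOneSpectrum R) (hP : P.asIdeal = RingHom.ker σ) : p.v = P.valuation F := by
  have key : ∀ r : R, p.v (algebraMap R F r) = P.valuation F (algebraMap R F r) := fun r => by
    rcases eq_or_ne r 0 with rfl | hr
    · simp
    have h1 : algebraMap R F r ≠ 0 := (map_ne_zero_iff _ (IsFractionRing.injective R F)).2 hr
    rw [p.v_eq h1, (h0 R F).2.2 p σ h r hr, P.valuation_of_algebraMap,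
      P.intValuation_eq_exp_neg_multiplicity hr, hP]
  refine Valuation.ext fun x => ?_
  obtain ⟨a, b, -, rfl⟩ := IsFractionRing.div_surjective (A := R) x
  rw [map_div₀, map_div₀, key, key]

theorem mem_range (h0 : S_S0)
    (hR : ∀ P : Ideal R, P.IsMaximal → ∃ σ : R →+* Qb, RingHom.ker σ = P) (b : F)
    (hb : ∀ p : GPt F, (∀ r, algebraMap R F r ∈ p.v.valuationSubring) →
      b ∈ p.v.valuationSubring) : b ∈ (algebraMap R F).range := by
  refine HeightOneSpectrum.mem_integers_of_valuation_le_one F b fun P => ?_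
  obtain ⟨σ, hσ⟩ := hR P.asIdeal P.isMaximal
  obtain ⟨p, hp, -⟩ := (h0 R F).1 σ (hσ ▸ P.ne_bot)
  rw [← v_prime h0 p σ hp P hσ.symm]
  exact hb p fun r => (hp r).mem

/-- a function with a simple pole at `O` and no other pole on the affine curve -/
theorem exists_pole (h0 : S_S0) (O : GPt F) (hO : ∀ r, algebraMap R F r ∈ O.v.valuationSubring)
    (t : R) (ht : O.ord (algebraMap R F t) = 1) :
    ∃ w : F, O.ord w = -1 ∧ algebraMap R F t * w ∈ (algebraMap R F).range ∧ ∀ p : GPt F,
      (∀ r, algebraMap R F r ∈ p.v.valuationSubring) → p.v ≠ O.v → w ∈ p.v.valuationSubring := by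
  obtain ⟨σ, hσ0, hσ⟩ := (h0 R F).2.1 O hO
  have ht0 : algebraMap R F t ≠ 0 := fun h => by
    rw [h, O.ord_zero] at ht
    exact zero_ne_one ht
  have hm : ∀ r, r ∈ RingHom.ker σ ↔ O.v (algebraMap R F r) < 1 := fun r => by
    rw [RingHom.mem_ker, ← O.val_zero_iff]
    exact ⟨fun h => h ▸ hσ r, fun h => (hσ r).unique h⟩
  have htm : t ∈ RingHom.ker σ := (hm t).2 ((O.ord_pos_iff ht0).1 (by omega))
  obtain ⟨J, hJ⟩ : RingHom.ker σ ∣ Ideal.span {t} :=
    Ideal.dvd_iff_le.2 ((Ideal.span_singleton_le_iff_mem _).2 htm)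
  have hle : ∀ r ∈ RingHom.ker σ, O.v (algebraMap R F r) ≤ exp (-1) := fun r hr => by
    rcases eq_or_ne (algebraMap R F r) 0 with h | h
    · simp [h]
    · have := (O.ord_pos_iff h).2 ((hm r).1 hr)
      rw [O.v_eq h, exp_le_exp]
      omega
  obtain ⟨s, hsJ, hs⟩ : ∃ s ∈ J, s ∉ RingHom.ker σ := by
    by_contra hc
    push Not at hc
    have h1 : ∀ r ∈ RingHom.ker σ * J, O.v (algebraMap R F r) ≤ exp (-2) := fun r hr => by
      refine Submodule.mul_induction_on hr (fun a ha b hb => ?_) fun a b ha hb => ?_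
      · rw [map_mul, map_mul, show (-2 : ℤ) = -1 + -1 by norm_num, exp_add]
        exact mul_le_mul' (hle a ha) (hle b (hc b hb))
      · rw [map_add]
        exact O.v.map_add_le ha hb
    have h2 := h1 t (hJ ▸ Ideal.mem_span_singleton_self t)
    rw [O.v_eq ht0, ht, exp_le_exp] at h2
    omega
  have hs1 := (hσ s).ord_eq_zero hs
  refine ⟨algebraMap R F s / algebraMap R F t, ?_, ⟨s, by field_simp⟩, fun p hp hne => ?_⟩
  · rw [O.ord_div ((hσ s).ne_zero hs) ht0, hs1, ht]
    rfl
  obtain ⟨τ, hτ0, hτ⟩ := (h0 R F).2.1 p hp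
  obtain ⟨a, ha, ha'⟩ : ∃ a ∈ RingHom.ker σ, a ∉ RingHom.ker τ := by
    by_contra hc
    push Not at hc
    let P : HeightOneSpectrum R := ⟨RingHom.ker σ, RingHom.ker_isPrime σ, hσ0⟩
    have h1 : RingHom.ker σ = RingHom.ker τ :=
      P.isMaximal.eq_of_le (RingHom.ker_isPrime τ).ne_top hc
    exact hne ((v_prime h0 p τ hτ P h1).trans (v_prime h0 O σ hσ P rfl).symm)
  obtain ⟨c, hc⟩ := Ideal.mem_span_singleton'.1 (hJ ▸ Ideal.mul_mem_mul ha hsJ)
  have h1 : algebraMap R F s / algebraMap R F t = algebraMap R F c / algebraMap R F a := by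
    rw [div_eq_div_iff ht0 ((hτ a).ne_zero ha'), ← map_mul, ← map_mul, hc, mul_comm]
  rw [h1]
  exact ((hτ c).div (hτ a) ha').mem

end Ded

theorem exists_hom {R : Type} [CommRing R] [Algebra k R] [Algebra.FiniteType k R] (P : Ideal R)
    (hP : P.IsMaximal) : ∃ σ : R →+* Qb, RingHom.ker σ = P := by
  let _ := Ideal.Quotient.field P
  have : Module.Finite k (R ⧸ P) := finite_of_finite_type_of_isJacobsonRing k (R ⧸ P)
  let _ : Algebra k Qb := (IsAlgClosed.lift (R := ℚ) (S := k) (M := Qb)).toAlgebra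
  let f : (R ⧸ P) →ₐ[k] Qb := IsAlgClosed.lift
  refine ⟨(f : (R ⧸ P) →+* Qb).comp (Ideal.Quotient.mk P), ?_⟩
  ext r
  simp [RingHom.mem_ker, Ideal.Quotient.eq_zero_iff_mem]

/-- the functions that are regular wherever `t` is regular -/
abbrev B (k : Type) [Field k] [NumberField k] [Algebra k F] (t : F) : Subalgebra k F :=
  regOn k {p | t ∈ p.v.valuationSubring}

theorem adjoin_le (t : F) : Algebra.adjoin k {t} ≤ B k t :=
  Algebra.adjoin_le (Set.singleton_subset_iff.2 fun _ hp => hp)

theorem int_iff (h0 : S_S0) (t : F) [FiniteDimensional k⟮t⟯ F] (b : F) :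
    IsIntegral (Algebra.adjoin k {t}) b ↔ b ∈ B k t := by
  have : IsPrincipalIdealRing (Algebra.adjoin k {t}) := by
    rw [Algebra.adjoin_singleton_eq_range_aeval]
    exact .of_surjective (aeval t : k[X] →ₐ[k] F).rangeRestrict (AlgHom.rangeRestrict_surjective _)
  have : CharZero F := charZero_of_injective_algebraMap (algebraMap k F).injective
  refine ⟨fun h p hp => ?_, fun h => ?_⟩
  · obtain ⟨q, hq, h1⟩ := h
    let j : Algebra.adjoin k {t} →+* p.v.integer :=
      (algebraMap _ F).codRestrict p.v.integer fun a => adjoin_le t a.2 p hp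
    refine (Valuation.integer.integers p.v).mem_of_integral ⟨q.map j, hq.map j, ?_⟩
    rw [eval₂_map]
    exact h1
  · let R := integralClosure (Algebra.adjoin k {t}) F
    have : IsDedekindDomain R := integralClosure.isDedekindDomain _ k⟮t⟯ F
    have : IsFractionRing R F := integralClosure.isFractionRing_of_finite_extension k⟮t⟯ F
    have : Module.Finite (Algebra.adjoin k {t}) R := IsIntegralClosure.finite _ k⟮t⟯ F R
    have : Algebra.FiniteType k (Algebra.adjoin k {t}) := .adjoin_of_finite (Set.finite_singleton t)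
    have : Algebra.FiniteType k R := .trans this inferInstance
    obtain ⟨r, rfl⟩ := mem_range h0 (exists_hom (k := k) (R := R)) b fun p hp =>
      h p (hp (algebraMap (Algebra.adjoin k {t}) R ⟨t, Algebra.self_mem_adjoin_singleton k t⟩))
    exact r.2

theorem struct (h0 : S_S0) (t : F) [FiniteDimensional k⟮t⟯ F] :
    IsDedekindDomain (B k t) ∧ IsFractionRing (B k t) F ∧ ∃ (n : ℕ) (z : Fin n → F),
      (∀ j, z j ∈ B k t) ∧ ∀ T : Submodule k F, (∀ l j, t ^ l * z j ∈ T) → ∀ b ∈ B k t, b ∈ T := by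
  have : IsPrincipalIdealRing (Algebra.adjoin k {t}) := by
    rw [Algebra.adjoin_singleton_eq_range_aeval]
    exact .of_surjective (aeval t : k[X] →ₐ[k] F).rangeRestrict (AlgHom.rangeRestrict_surjective _)
  have : CharZero F := charZero_of_injective_algebraMap (algebraMap k F).injective
  let _ : Algebra (Algebra.adjoin k {t}) (B k t) := (Subalgebra.inclusion (adjoin_le t)).toAlgebra
  have : IsScalarTower (Algebra.adjoin k {t}) (B k t) F := .of_algebraMap_eq fun _ => rfl
  have : IsIntegralClosure (B k t) (Algebra.adjoin k {t}) F :=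
    ⟨Subtype.val_injective, fun {x} => (int_iff h0 t x).trans
      ⟨fun h => ⟨⟨x, h⟩, rfl⟩, fun ⟨y, hy⟩ => hy ▸ y.2⟩⟩
  have : Module.Finite (Algebra.adjoin k {t}) (B k t) := IsIntegralClosure.finite _ k⟮t⟯ F _
  refine ⟨IsIntegralClosure.isDedekindDomain (Algebra.adjoin k {t}) k⟮t⟯ F _,
    IsIntegralClosure.isFractionRing_of_finite_extension (Algebra.adjoin k {t}) k⟮t⟯ F _, ?_⟩
  obtain ⟨n, z, hz⟩ := Module.Finite.exists_fin (R := Algebra.adjoin k {t}) (M := B k t)
  refine ⟨n, fun j => z j, fun j => (z j).2, fun T hT b hb => ?_⟩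
  obtain ⟨c, hc⟩ := (Submodule.mem_span_range_iff_exists_fun _).1
    (hz ▸ Submodule.mem_top : (⟨b, hb⟩ : B k t) ∈ Submodule.span _ (Set.range z))
  have h1 : b = ∑ j, (c j : F) * z j := by
    have := congrArg (B k t).val hc
    rw [map_sum] at this
    exact this.symm
  rw [h1]
  refine T.sum_mem fun j _ => ?_
  obtain ⟨g, hg⟩ : (c j : F) ∈ (aeval t : k[X] →ₐ[k] F).range :=
    Algebra.adjoin_singleton_eq_range_aeval k t ▸ (c j).2
  rw [← hg, AlgHom.toRingHom_eq_coe, RingHom.coe_coe, aeval_eq_sum_range, sum_mul]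
  exact T.sum_mem fun l _ => by
    rw [smul_mul_assoc]
    exact T.smul_mem _ (hT l j)

end Pool.Agent.P.MP_b8021b_nt.VC.CvExP
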