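import Pool.Agent.P.MP_b8021b_nt.VC.StH

/-! Sub-statements for the packages `HNP`, `Ker`, `Desc` of part N. -/

namespace Pool.Agent.P.MP_b8021b_nt.VC

open Polynomial NumberField Finset Pool.Agent.P.MP_b8021b_nt.VE
open scoped Classical Pointwise

noncomputable section

namespace Cy

variable {A : Type} [CommGroup A]

/-- the norm map of an endomorphism of order `e` -/
def nm (σ : A →* A) (e : ℕ) : A →* A where
  toFun a := ∏ i ∈ range e, σ^[i] a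
  map_one' := by simp
  map_mul' a b := by simp [iterate_map_mul, prod_mul_distrib]

/-- the fixed elements -/
def fx (σ : A →* A) : Subgroup A := σ.eqLocus (MonoidHom.id A)

/-- the map `a ↦ σ a / a` -/
def df (σ : A →* A) : A →* A := σ / MonoidHom.id A

/-- the order of the zeroth Tate cohomology group (zero if it is infinite) -/
def h0 (σ : A →* A) (e : ℕ) : ℕ := (nm σ e).range.relIndex (fx σ)

/-- the order of the first cohomology group (zero if it is infinite) -/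
def h1 (σ : A →* A) (e : ℕ) : ℕ := (df σ).range.relIndex (nm σ e).ker

theorem nm_apply (σ : A →* A) (e : ℕ) (a : A) : nm σ e a = ∏ i ∈ range e, σ^[i] a := rfl

theorem mem_fx {σ : A →* A} {a : A} : a ∈ fx σ ↔ σ a = a := Iff.rfl

theorem df_apply (σ : A →* A) (a : A) : df σ a = σ a / a := rfl

/-- the action of an automorphism on the units of the ring of integers -/
def uσ {F K : Type} [Field F] [Field K] [Algebra F K] (σ : K ≃ₐ[F] K) : (𝓞 K)ˣ →* (𝓞 K)ˣ :=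
  Units.map (MulSemiringAction.toRingHom (K ≃ₐ[F] K) (𝓞 K) σ).toMonoidHom

end Cy

open Cy

/-- the group theory behind the Hasse norm theorem -/
def S_HA : Prop :=
  ∀ (E A D : Type) [CommGroup E] [CommGroup A] [CommGroup D] (e : ℕ) (σE : E →* E) (σ : A →* A)
    (σD : D →* D) (ι : E →* A) (dv : A →* D) (U₁ : Subgroup A) (J : Subgroup D), 0 < e →
    (∀ x, σE^[e] x = x) → (∀ a, σ^[e] a = a) → (∀ x, σD^[e] x = x) →
    Function.Injective ι → ι.range = dv.ker → (∀ x, ι (σE x) = σ (ι x)) →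
    (∀ a, dv (σ a) = σD (dv a)) → (nm σ e).ker ≤ (df σ).range → dv.range.index ≠ 0 →
    h0 σE e ≠ 0 → h1 σE e ≠ 0 → e * h0 σE e ≤ h1 σE e → J ≤ fx σD → U₁ ≤ fx σ ⊓ J.comap dv →
    (J ⊔ (fx σ).map dv).relIndex (fx σD) ≤ U₁.relIndex (fx σ ⊓ J.comap dv) →
    fx σ ⊓ J.comap dv ⊓ (nm σ e).range ≤ U₁ →
    (U₁.map dv ⊔ (nm σD e).range).relIndex J ≤ e →
    ∀ γ ∈ U₁, dv γ ∈ (nm σD e).range → γ ∈ (nm σ e).range

/-- the Herbrand quotient of a finitely generated group -/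
def S_H1A : Prop :=
  ∀ (E : Type) [CommGroup E] [Module.Finite ℤ (Additive E)] (e : ℕ) (σ : E →* E), e.Prime →
    (∀ x, σ^[e] x = x) →
    Module.finrank ℤ (Additive E) + 1 = e * (Module.finrank ℤ (Additive (fx σ)) + 1) →
    h0 σ e ≠ 0 ∧ h1 σ e ≠ 0 ∧ e * h0 σ e ≤ h1 σ e

/-- the Herbrand quotient of the units -/
def S_H1 : Prop :=
  ∀ (k : Type) [Field k] [NumberField k] [Algebra k ℂ] (_ : BF k) (F K : Type) [Field F]
    [NumberField F] [Algebra k F] [Field K] [NumberField K] [Algebra F K] [IsGalois F K]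
    (σ : K ≃ₐ[F] K), (Module.finrank F K).Prime → σ ≠ 1 →
    h0 (uσ σ) (Module.finrank F K) ≠ 0 ∧ h1 (uσ σ) (Module.finrank F K) ≠ 0 ∧
      Module.finrank F K * h0 (uσ σ) (Module.finrank F K) ≤ h1 (uσ σ) (Module.finrank F K)

/-- ideals in a Galois extension: the norm, invariant functions, invariant ideals -/
def S_NG : Prop :=
  ∀ (F K : Type) [Field F] [NumberField F] [Field K] [NumberField K] [Algebra F K] [IsGalois F K],
    (∀ (g : K ≃ₐ[F] K) (I : Ideal (𝓞 K)), act (g : K →+* K) I = g • I) ∧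
    (∀ I : Ideal (𝓞 K), (Ideal.relNorm (𝓞 F) I).map (algebraMap (𝓞 F) (𝓞 K)) =
      ∏ g : K ≃ₐ[F] K, g • I) ∧
    (∀ (ψ : Ideal (𝓞 K) →* ℂ) (A B : Ideal (𝓞 K)), (∀ (g : K ≃ₐ[F] K) I, ψ (g • I) = ψ I) →
      Ideal.relNorm (𝓞 F) A = Ideal.relNorm (𝓞 F) B → ψ A = ψ B) ∧
    ∀ (I : Ideal (𝓞 K)) (S : Finset (Ideal (𝓞 K))), (Module.finrank F K).Prime → I ≠ ⊥ →
      (∀ g : K ≃ₐ[F] K, g • I = I) → (∀ 𝔓, 𝔓.IsMaximal → RamP F 𝔓 → 𝔓 ∈ S) →
      ∃ (𝔞 : Ideal (𝓞 F)) (a : S → Fin (Module.finrank F K)),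
        I = 𝔞.map (algebraMap (𝓞 F) (𝓞 K)) * ∏ 𝔓 : S, 𝔓.1 ^ (a 𝔓).1

/-- the subgroup of elements that are norms at the ramified primes -/
def S_U1 : Prop :=
  ∀ (F K : Type) [Field F] [NumberField F] [Field K] [NumberField K] [Algebra F K] [IsGalois F K]
    (n : ℕ) (S : Finset (Ideal (𝓞 K))) (U : Subgroup Fˣ), (Module.finrank F K).Prime → n ≠ 0 →
    (∀ 𝔓 ∈ S, 𝔓.IsMaximal ∧ RamP F 𝔓 ∧ (n : 𝓞 K) ∈ 𝔓 ∧ ((Module.finrank F K : ℕ) : 𝓞 K) ∉ 𝔓) →
    (∀ γ : Fˣ, γ ∈ U ↔ ∃ a b : 𝓞 F, IsCoprime a n ∧ IsCoprime b n ∧ (γ : F) * b = a) →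
    ∃ U₁ : Subgroup Fˣ, U₁ ≤ U ∧ Module.finrank F K ^ S.card ≤ U₁.relIndex U ∧
      (∀ γ ∈ U, (∃ δ : K, Algebra.norm F δ = γ) → γ ∈ U₁) ∧
      ∀ (γ : Fˣ) (a b : 𝓞 F), (n : 𝓞 F) ∣ a - 1 → (n : 𝓞 F) ∣ b - 1 → (γ : F) * b = a → γ ∈ U₁

/-- a norm that is prime to `n` is the norm of an element prime to `n` -/
def S_Un : Prop :=
  ∀ (F K : Type) [Field F] [NumberField F] [Field K] [NumberField K] [Algebra F K] [IsGalois F K]
    (n : ℕ) (δ : K) (α β : 𝓞 F), (Module.finrank F K).Prime → n ≠ 0 → IsCoprime α n →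
    IsCoprime β n → Algebra.norm F δ * α = β →
    ∃ a b : 𝓞 K, IsCoprime a n ∧ IsCoprime b n ∧
      Algebra.norm F (a : K) * α = Algebra.norm F (b : K) * β

/-- approximate form of Hilbert's theorem 90 -/
def S_L90 : Prop :=
  ∀ (F K : Type) [Field F] [NumberField F] [Field K] [NumberField K] [Algebra F K] [IsGalois F K]
    (P : ℤ[X]) (M n : ℕ) (θ : K) (d : 𝓞 K) (z : 𝓞 F), (Module.finrank F K).Prime → P.Monic →
    P.natDegree = Module.finrank F K → aeval θ P = 0 → Algebra.adjoin F {θ} = ⊤ → Sep P M →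
    M ∣ n → 2 ≤ n → Algebra.norm F (d : K) = 1 + (n : F) ^ 2 * z →
    ∃ a b : 𝓞 K, (n : 𝓞 K) ∣ a - 1 ∧ (n : 𝓞 K) ∣ b - 1 ∧
      Algebra.norm F (d : K) * Algebra.norm F (b : K) = Algebra.norm F (a : K)

/-- extension of a character -/
def S_Ext : Prop :=
  ∀ (E : Type) [Field E] [NumberField E] (n : ℕ) (X : Type) [Monoid X]
    (ν : X →* Ideal (𝓞 E)) (f : X →* ℂ), 2 ≤ n → (∀ x, Cop n (ν x)) → (∀ x, ‖f x‖ = 1) →
    (∀ x y, ν x = ν y → f x = f y) →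
    ∃ ξ : Ideal (𝓞 E) →* ℂ, IsChar n ξ ∧ ∀ x, ξ (ν x) = f x

/-- the cyclic subextension of the splitting field -/
def S_Cyc : Prop :=
  ∀ (k : Type) [Field k] [NumberField k] [Algebra k ℂ] (K : BF k) (L N : Type) [Field L]
    [NumberField L] [Algebra k L] [Field N] [NumberField N] [Algebra k N] [Algebra L N]
    [IsScalarTower k L N] (e : ℕ) (P : ℤ[X]) (M : ℕ) (θ : 𝓞 L), NF K e P M θ →
    IsSplittingField k N (P.map (Int.castRingHom k)) →
    IsGalois k N ∧ ∃ F : IntermediateField k N, Module.finrank F N = e ∧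
      Module.finrank k F = Module.finrank L N ∧ (Module.finrank L N).Coprime e ∧
      Algebra.adjoin F {algebraMap L N θ} = ⊤ ∧
      ∀ 𝔓 : Ideal (𝓞 N), 𝔓.IsMaximal → RamP F 𝔓 → (e : 𝓞 N) ∉ 𝔓

end

end Pool.Agent.P.MP_b8021b_nt.VC
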