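import Pool.Agent.P.MP_b8021b_nt.VC.BasicC

/-! The sheet through a simple zero and polynomial approximation on it. -/

namespace Pool.Agent.P.MP_b8021b_nt.VC.PDisc

open Polynomial Finset Pool.Agent.P.MP_b8021b_nt.VE
open scoped Classical Topology

section

variable {Ω : Type} [NontriviallyNormedField Ω] [IsUltrametricDist Ω]

theorem norm_eq_of_lt {x y : Ω} (h : ‖x - y‖ < ‖y‖) : ‖x‖ = ‖y‖ := by
  have h1 := IsUltrametricDist.norm_add_le_max (x - y) y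
  have h2 := IsUltrametricDist.norm_add_le_max x (-(x - y))
  rw [sub_add_cancel] at h1
  rw [norm_neg, show x + -(x - y) = y by ring] at h2
  rcases le_max_iff.1 h2 with h3 | h3
  · exact le_antisymm (h1.trans (max_le h.le le_rfl)) h3
  · exact absurd h (not_lt.2 h3)

theorem one_sub_pow {y : Ω} (h : ‖y‖ ≤ 1) (n : ℕ) : ‖1 - y ^ n‖ ≤ ‖1 - y‖ := by
  induction n with
  | zero => simp
  | succ n ih =>
    rw [show 1 - y ^ (n + 1) = (1 - y ^ n) * y + (1 - y) by ring]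
    refine (IsUltrametricDist.norm_add_le_max _ _).trans (max_le ?_ le_rfl)
    rw [norm_mul]
    exact (mul_le_of_le_one_right (norm_nonneg _) h).trans ih

theorem near_one {x : Ω} (h : ‖x - 1‖ < 1 / 2) (n : ℕ) :
    ‖1 - (1 - x ^ n) ^ n - 1‖ ≤ (1 / 2) ^ n := by
  have h1 : ‖x‖ ≤ 1 := by
    rw [norm_eq_of_lt (y := 1) (by rw [norm_one]; linarith), norm_one]
  rw [show 1 - (1 - x ^ n) ^ n - 1 = -(1 - x ^ n) ^ n by ring, norm_neg, norm_pow]
  refine pow_le_pow_left₀ (norm_nonneg _) ((one_sub_pow h1 n).trans ?_) n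
  rw [norm_sub_rev]; exact h.le

theorem near_zero {x : Ω} (h : ‖x‖ < 1 / 2) (n : ℕ) : ‖1 - (1 - x ^ n) ^ n‖ ≤ (1 / 2) ^ n := by
  have h1 : ‖x ^ n‖ ≤ (1 / 2) ^ n := by
    rw [norm_pow]; exact pow_le_pow_left₀ (norm_nonneg _) h.le n
  have h2 : ‖1 - x ^ n‖ ≤ 1 := by
    rw [sub_eq_add_neg]
    refine (IsUltrametricDist.norm_add_le_max _ _).trans (max_le norm_one.le ?_)
    rw [norm_neg]
    exact h1.trans (pow_le_one₀ (by norm_num) (by norm_num))
  refine (one_sub_pow h2 n).trans ?_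
  rwa [sub_sub_cancel]

end

variable {A Ω : Type} [CommRing A] [NontriviallyNormedField Ω] [CharZero Ω] [IsUltrametricDist Ω]
  [IsAlgClosed Ω] [Algebra Ω A]

/-- the sheet through `P₀` over a small disc -/
structure Sheet (P₀ : A →ₐ[Ω] Ω) (π χ : A) (W : Finset A) (ε₁ η : ℝ) (sec : Ω → (A →ₐ[Ω] Ω)) :
    Prop where
  near : ∀ a, ‖a‖ < η → sec a ∈ Near W ε₁ P₀
  val : ∀ a, ‖a‖ < η → sec a π = a
  mult : ∀ a, ‖a‖ < η → mI (sec a) (Ideal.span {π - algebraMap Ω A a}) = 1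
  one : ∀ a, ‖a‖ < η → ‖sec a χ - 1‖ < 1 / 2
  uniq : ∀ a, ‖a‖ < η → ∀ P : A →ₐ[Ω] Ω, P π = a → P ∈ Near W ε₁ P₀ → P = sec a
  zero : ∀ a, ‖a‖ < η → ∀ P : A →ₐ[Ω] Ω, P π = a → P ≠ sec a → ‖P χ‖ < 1 / 2

omit [IsUltrametricDist Ω] [CharZero Ω] [IsAlgClosed Ω] in
theorem exists_chi (P₀ : A →ₐ[Ω] Ω) {T : Set (A →ₐ[Ω] Ω)} (hT : T.Finite) :
    ∃ χ : A, P₀ χ = 1 ∧ ∀ Q ∈ T, Q ≠ P₀ → Q χ = 0 := by
  induction T, hT using Set.Finite.induction_on with
  | empty => exact ⟨1, map_one _, by simp⟩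
  | @insert Q T _ _ ih =>
    obtain ⟨χ, h1, h2⟩ := ih
    by_cases hQ : Q = P₀
    · exact ⟨χ, h1, fun R hR hne => h2 R (hR.resolve_left (hQ ▸ hne)) hne⟩
    obtain ⟨a, ha⟩ : ∃ a, P₀ a - Q a ≠ 0 := by
      by_contra hh
      push Not at hh
      exact hQ (AlgHom.ext fun a => (sub_eq_zero.1 (hh a)).symm)
    refine ⟨χ * ((P₀ a - Q a)⁻¹ • (a - algebraMap Ω A (Q a))), by simp [h1, ha], ?_⟩
    rintro R (rfl | hR) hne
    · simp
    · simp [h2 R hR hne]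

omit [IsUltrametricDist Ω] in
theorem exists_sheet (hP : S_Pts) (hPert : S_Pert) (cv : Cv Ω A) (P₀ : A →ₐ[Ω] Ω) {π : A}
    (hπ : π ≠ 0) (h1 : mI P₀ (Ideal.span {π}) = 1) : ∃ χ W ε₁ η sec, 0 < ε₁ ∧ 0 < η ∧ η ≤ 1 ∧
      Sheet P₀ π χ W ε₁ η sec := by
  have h0 : P₀ π = 0 := (mI_span_ne_zero hP cv hπ P₀).1 (by omega)
  have hδ := cv.pos_of_zero P₀ hπ h0
  obtain ⟨χ, c1, c2⟩ := exists_chi P₀ (zeros_finite' (Ω := Ω) hP cv hπ)
  obtain ⟨W, ε, hW, hε, hε', -, h⟩ := hPert Ω A Ω cv π {χ} (1 / 2) hπ (by norm_num)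
  obtain ⟨η, hη, h⟩ := h Unit fun _ => 1
  have hχ : χ ∈ W := hW (mem_singleton_self _)
  have key : ∀ a : Ω, ‖a‖ < η → ∃ S : A →ₐ[Ω] Ω, S ∈ Near W ε P₀ ∧ S π = a ∧
      mI S (Ideal.span {π - algebraMap Ω A a}) = 1 ∧ ‖S χ - 1‖ < 1 / 2 ∧
      (∀ P : A →ₐ[Ω] Ω, P π = a → P ∈ Near W ε P₀ → P = S) ∧
      ∀ P : A →ₐ[Ω] Ω, P π = a → P ≠ S → ‖P χ‖ < 1 / 2 := by
    intro a ha
    obtain ⟨f0, f1, f2⟩ := h (fun _ => -a) (fun _ => by rwa [norm_neg]) (π - algebraMap Ω A a)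
      (by simp [Algebra.algebraMap_eq_smul_one, sub_eq_add_neg])
    have f3 := f1 P₀ h0
    rw [h1] at f3
    rw [cv.sub_const hδ] at f2
    have z : ∀ P : A →ₐ[Ω] Ω, Ideal.span {π - algebraMap Ω A a} ≤ RingHom.ker P ↔ P π = a := by
      intro P
      rw [span_le_ker, map_sub, AlgHom.commutes, sub_eq_zero]; rfl
    obtain ⟨S, s1, s2⟩ := exists_zero_of_nZ hP cv (span_ne_bot f0) (f3.trans_ne one_ne_zero)
    have m : ∀ P : A →ₐ[Ω] Ω, P π = a → mI P (Ideal.span {π - algebraMap Ω A a}) ≠ 0 :=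
      fun P hp => (mI_ne_zero hP cv (span_ne_bot f0) P).2 ((z P).2 hp)
    have u : ∀ P : A →ₐ[Ω] Ω, P π = a → P ∈ Near W ε P₀ → P = S := by
      intro P p1 p2
      by_contra hne
      have := sum_le_nZ hP cv (span_ne_bot f0) (V := Near W ε P₀) (T := {P, S}) (by
        intro Q hQ
        rcases mem_insert.1 hQ with rfl | hQ
        · exact p2
        · rw [mem_singleton.1 hQ]; exact s1)
      rw [sum_pair hne] at this
      have := m P p1
      have := m S ((z S).1 s2)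
      omega
    refine ⟨S, s1, (z S).1 s2, ?_, ?_, u, fun P p1 p2 => ?_⟩
    · have := mI_le_nZ hP cv (span_ne_bot f0) s1
      have := m S ((z S).1 s2)
      omega
    · rw [← c1]; exact (s1 χ hχ).trans_le hε'
    · have := (nZ_eq_zero hP cv (span_ne_bot f0)).1 (Nat.add_eq_right.1 f2) P
      simp only [Set.mem_ofPred_eq, z, p1, not_true_eq_false, imp_false, not_forall, not_not] at this
      obtain ⟨Q, q1, q2⟩ := this
      have q3 := q2 χ hχ
      rw [c2 Q q1 (by rintro rfl; exact p2 (u P p1 q2)), sub_zero] at q3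
      exact q3.trans_le hε'
  have : Nonempty (A →ₐ[Ω] Ω) := ⟨P₀⟩
  choose! sec k1 k2 k3 k4 k5 k6 using key
  have l : ∀ a : Ω, ‖a‖ < min η 1 → ‖a‖ < η := fun a ha => ha.trans_le (min_le_left _ _)
  exact ⟨χ, W, ε, min η 1, sec, hε, lt_min hη one_pos, min_le_right _ _, fun a h => k1 a (l a h),
    fun a h => k2 a (l a h), fun a h => k3 a (l a h), fun a h => k4 a (l a h),
    fun a h => k5 a (l a h), fun a h => k6 a (l a h)⟩

omit [IsUltrametricDist Ω] [CharZero Ω] [IsAlgClosed Ω] in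
theorem bounded (hI : S_Inf) [CharZero Ω] (cv : Cv Ω A) {π : A} (hδ : 0 < cv.δ π) (f : A) :
    ∃ B : ℝ, 1 ≤ B ∧ ∀ P : A →ₐ[Ω] Ω, ‖P π‖ ≤ 1 → ‖P f‖ ≤ B := by
  obtain ⟨C, -, h⟩ := hI Ω A Ω cv π f hδ
  refine ⟨max 1 C, le_max_left _ _, fun P hp => ?_⟩
  have h1 := h P
  rw [max_eq_left hp, one_pow, mul_one] at h1
  by_cases h2 : ‖P f‖ ≤ 1
  · exact h2.trans (le_max_left _ _)
  · exact ((le_self_pow₀ (not_le.1 h2).le hδ.ne').trans h1).trans (le_max_right _ _)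

omit [IsUltrametricDist Ω] in
/-- trace and norm are polynomials; the fibre is the point of the sheet and other points -/
theorem fibres (hN : S_Nrm) (cv : Cv Ω A) {P₀ : A →ₐ[Ω] Ω} {π χ : A} {W ε₁ η sec}
    (hδ : 0 < cv.δ π) (hS : Sheet P₀ π χ W ε₁ η sec) : ∃ (R : Ω → Multiset (A →ₐ[Ω] Ω))
      (tr nm : A → Polynomial Ω), (∀ f, f ≠ 0 → nm f ≠ 0) ∧ ∀ a, ‖a‖ < η →
        Multiset.card (R a) ≤ cv.δ π ∧ (∀ P ∈ R a, P π = a ∧ P ≠ sec a) ∧
        ∀ f, (tr f).eval a = sec a f + ((R a).map fun P => P f).sum ∧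
          ‖(nm f).eval a‖ = ‖sec a f‖ * ((R a).map fun P => ‖P f‖).prod := by
  obtain ⟨M, -, m2, -, -, -, m6⟩ := hN Ω A cv π hδ
  choose Z z1 z2 z3 using fun a => (m6 Ω a).2
  refine ⟨fun a => (Z a).erase (sec a), fun f => -(M f).charpoly.coeff (cv.δ π - 1),
    fun f => (M f).charpoly.coeff 0, fun f hf h => (m2 f hf).1 ?_, fun a ha => ?_⟩
  · rw [Matrix.det_eq_sign_charpoly_coeff, show (M f).charpoly.coeff 0 = 0 from h, mul_zero]
  have hm : sec a ∈ Z a := (z1 a _).2 (hS.val a ha)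
  have hc : (Z a).count (sec a) = 1 := by
    rw [z2 a _ hm, ← hS.mult a ha, show minpoly Ω a = X - C a from minpoly.eq_X_sub_C Ω a]
    simp
  have hcard : Multiset.card (Z a) = cv.δ π := by
    have h := congrArg natDegree (z3 a 0)
    rw [(Matrix.charpoly_monic _).natDegree_map, Matrix.charpoly_natDegree_eq_dim,
      Fintype.card_fin, show ((Z a).map fun P => X - C (P 0)) =
        ((Z a).map fun P => P 0).map fun x => X - C x by rw [Multiset.map_map]; rfl,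
      natDegree_multiset_prod_X_sub_C_eq_card, Multiset.card_map] at h
    exact h.symm
  refine ⟨(Multiset.card_erase_le).trans hcard.le, fun P hp => ⟨(z1 a P).1
    (Multiset.mem_of_mem_erase hp), fun e => ?_⟩, fun f => ⟨?_, ?_⟩⟩
  · have := Multiset.count_pos.2 hp
    rw [e, Multiset.count_erase_self, hc] at this
    omega
  · have h := congrArg (coeff · (cv.δ π - 1)) (z3 a f)
    have h2 := multiset_prod_X_sub_C_coeff_card_pred ((Z a).map fun P => P f)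
      (by rw [Multiset.card_map, hcard]; exact hδ)
    rw [Multiset.map_map, Multiset.card_map, hcard] at h2
    simp only [coeff_map] at h
    rw [eval_neg, ← coe_aeval_eq_eval]
    refine (neg_eq_iff_eq_neg.2 (h.trans h2)).trans ?_
    conv_lhs => rw [← Multiset.cons_erase hm, Multiset.map_cons, Multiset.sum_cons]
  · have h := congrArg (coeff · 0) (z3 a f)
    simp only [coeff_map] at h
    rw [← coe_aeval_eq_eval]
    refine (congrArg norm h).trans ?_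
    rw [coeff_zero_eq_eval_zero, eval_multiset_prod, Multiset.map_map, ← normHom_apply,
      map_multiset_prod, Multiset.map_map]
    conv_lhs => rw [← Multiset.cons_erase hm, Multiset.map_cons, Multiset.prod_cons]
    simp

end Pool.Agent.P.MP_b8021b_nt.VC.PDisc
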