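import Pool.Agent.P.MP_b8021b_nt.VC.PDisc1

/-! The absolute value of a function on a small disc, over an algebraically closed field. -/

namespace Pool.Agent.P.MP_b8021b_nt.VC.PDisc

open Polynomial Finset Pool.Agent.P.MP_b8021b_nt.VE
open scoped Classical Topology

variable {A Ω : Type} [CommRing A] [NontriviallyNormedField Ω] [CharZero Ω] [IsUltrametricDist Ω]
  [IsAlgClosed Ω] [Algebra Ω A] {P₀ : A →ₐ[Ω] Ω} {π χ : A} {W : Finset A} {ε₁ η : ℝ}
  {sec : Ω → (A →ₐ[Ω] Ω)}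

theorem approx (hN : S_Nrm) (hI : S_Inf) (cv : Cv Ω A) (hδ : 0 < cv.δ π) (hη : η ≤ 1)
    (hS : Sheet P₀ π χ W ε₁ η sec) (f : A) (t : ℝ) (ht : 0 < t) :
    ∃ h : Polynomial Ω, ∀ a, ‖a‖ < η → ‖h.eval a - sec a f‖ < t := by
  obtain ⟨R, tr, nm, -, h⟩ := fibres hN cv hδ hS
  obtain ⟨B, b1, b2⟩ := bounded hI cv hδ f
  have hpos : 0 < (cv.δ π + 1 : ℝ) * B := by positivity
  obtain ⟨n, hn⟩ := exists_pow_lt_of_lt_one (div_pos ht hpos) (show (1 / 2 : ℝ) < 1 by norm_num)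
  refine ⟨tr (f * (1 - (1 - χ ^ n) ^ n)), fun a ha => ?_⟩
  obtain ⟨h1, h2, h3⟩ := h a ha
  have e : ∀ P : A →ₐ[Ω] Ω, P (f * (1 - (1 - χ ^ n) ^ n)) = P f * (1 - (1 - P χ ^ n) ^ n) := by
    intro P; simp
  have k1 : ‖sec a (f * (1 - (1 - χ ^ n) ^ n)) - sec a f‖ ≤ B * (1 / 2) ^ n := by
    rw [e, ← mul_sub_one, norm_mul]
    exact mul_le_mul (b2 _ (by rw [hS.val a ha]; linarith)) (near_one (hS.one a ha) n)
      (norm_nonneg _) (by linarith)
  have k2 : ‖((R a).map fun P => P (f * (1 - (1 - χ ^ n) ^ n))).sum‖ ≤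
      cv.δ π * (B * (1 / 2) ^ n) := by
    refine (norm_multiset_sum_le _).trans ((Multiset.sum_le_card_nsmul _ (B * (1 / 2) ^ n)
      fun x hx => ?_).trans ?_)
    · rw [Multiset.map_map] at hx
      obtain ⟨P, hp, rfl⟩ := Multiset.mem_map.1 hx
      rw [Function.comp_apply, e, norm_mul]
      exact mul_le_mul (b2 _ (by rw [(h2 P hp).1]; linarith))
        (near_zero (hS.zero a ha P (h2 P hp).1 (h2 P hp).2) n) (norm_nonneg _) (by linarith)
    · rw [Multiset.card_map, Multiset.card_map, nsmul_eq_mul]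
      exact mul_le_mul_of_nonneg_right (by exact_mod_cast h1) (by positivity)
  rw [(h3 _).1, add_sub_right_comm]
  refine (norm_add_le _ _).trans_lt ((add_le_add k1 k2).trans_lt ?_)
  rw [lt_div_iff₀ hpos] at hn
  linarith

omit [IsUltrametricDist Ω] in
theorem lower (hN : S_Nrm) (hI : S_Inf) (cv : Cv Ω A) (hδ : 0 < cv.δ π) (hη : η ≤ 1)
    (hS : Sheet P₀ π χ W ε₁ η sec) {f : A} (hf : f ≠ 0) : ∃ (c : ℝ) (D : Polynomial Ω), 0 < c ∧
      D ≠ 0 ∧ ∀ a, ‖a‖ < η → c * ‖D.eval a‖ ≤ ‖sec a f‖ := by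
  obtain ⟨R, tr, nm, h0, h⟩ := fibres hN cv hδ hS
  obtain ⟨B, b1, b2⟩ := bounded hI cv hδ f
  have hpos : 0 < B ^ cv.δ π := by positivity
  refine ⟨(B ^ cv.δ π)⁻¹, nm f, inv_pos.2 hpos, h0 f hf, fun a ha => ?_⟩
  obtain ⟨h1, h2, h3⟩ := h a ha
  rw [(h3 f).2, inv_mul_le_iff₀ hpos, mul_comm]
  refine mul_le_mul_of_nonneg_right ?_ (norm_nonneg _)
  have key : ∀ s : Multiset (A →ₐ[Ω] Ω), (∀ P ∈ s, ‖P f‖ ≤ B) →
      (s.map fun P => ‖P f‖).prod ≤ B ^ Multiset.card s := by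
    intro s
    induction s using Multiset.induction_on with
    | empty => simp
    | cons P s ih =>
      intro hs
      rw [Multiset.map_cons, Multiset.prod_cons, Multiset.card_cons, pow_succ']
      exact mul_le_mul (hs P (by simp)) (ih fun Q hQ => hs Q (by simp [hQ]))
        (Multiset.prod_nonneg fun x hx => by
          obtain ⟨Q, -, rfl⟩ := Multiset.mem_map.1 hx
          exact norm_nonneg _) (by linarith)
  exact (key _ fun P hp => b2 _ (by rw [(h2 P hp).1]; linarith)).trans (pow_le_pow_right₀ b1 h1)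

theorem ev_norm (hN : S_Nrm) (hI : S_Inf) (cv : Cv Ω A) (hδ : 0 < cv.δ π) (hη : η ≤ 1)
    (hS : Sheet P₀ π χ W ε₁ η sec) {ρ : Ω} (hρ : ‖ρ‖ < η) {b : A} (hb : sec ρ b ≠ 0) :
    ∀ᶠ a in 𝓝 ρ, ‖sec a b‖ = ‖sec ρ b‖ := by
  have hp := norm_pos_iff.2 hb
  obtain ⟨h, hh⟩ := approx hN hI cv hδ hη hS b _ hp
  have h1 : ∀ᶠ a in 𝓝 ρ, ‖a‖ < η := continuous_norm.continuousAt.eventually_lt continuousAt_const hρ
  have h2 : ∀ᶠ a in 𝓝 ρ, ‖h.eval a - h.eval ρ‖ < ‖sec ρ b‖ :=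
    (h.continuous.sub continuous_const).norm.continuousAt.eventually_lt continuousAt_const
      (by simpa using hp)
  filter_upwards [h1, h2] with a a1 a2
  refine norm_eq_of_lt ?_
  rw [show sec a b - sec ρ b = (-(h.eval a - sec a b) + (h.eval a - h.eval ρ)) +
    (h.eval ρ - sec ρ b) by ring]
  refine (IsUltrametricDist.norm_add_le_max _ _).trans_lt (max_lt
    ((IsUltrametricDist.norm_add_le_max _ _).trans_lt (max_lt ?_ a2)) (hh ρ hρ))
  rw [norm_neg]; exact hh a a1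

omit [IsUltrametricDist Ω] in
theorem factor (hP : S_Pts) (cv : Cv Ω A) (Q : A →ₐ[Ω] Ω) {u f : A} (hu : u ≠ 0) (hf : f ≠ 0)
    (h1 : mI Q (Ideal.span {u}) = 1) : ∃ b c : A, Q b ≠ 0 ∧ Q c ≠ 0 ∧
      f * b = u ^ mI Q (Ideal.span {f}) * c := by
  have := cv.ded
  obtain ⟨χ, c1, c2⟩ := exists_chi Q (zeros_finite' (Ω := Ω) hP cv hu)
  have hχ : χ ≠ 0 := by rintro rfl; simp at c1
  set μ := mI Q (Ideal.span {f}) with hμ
  set K := μ * dg Ω (Ideal.span {u}) with hK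
  have hb : Q (χ ^ K) ≠ 0 := by simp [c1]
  have h0 := (mI_span_eq_zero hP cv (pow_ne_zero K hχ) Q).2 hb
  have hfb := mul_ne_zero hf (pow_ne_zero K hχ)
  have hd := dvd_of_mI Ω hP cv (span_ne_bot (pow_ne_zero μ hu)) (span_ne_bot hfb) fun P => by
    rw [mI_span_pow hP cv hu, mI_span_mul hP cv hf (pow_ne_zero K hχ), mI_span_pow hP cv hχ]
    by_cases e : P = Q
    · rw [e, h1, mul_one]; omega
    by_cases z : P u = 0
    · have a1 := (mI_span_ne_zero hP cv hχ P).2 (c2 P z e)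
      have a2 := (mI_le_nZ hP cv (span_ne_bot hu) (Set.mem_univ P)).trans
        (nZ_le_dg hP cv (span_ne_bot hu) _)
      have a3 := Nat.mul_le_mul_left μ a2
      have a4 : K ≤ K * mI P (Ideal.span {χ}) := Nat.le_mul_of_pos_right _ (by omega)
      omega
    · rw [(mI_span_eq_zero hP cv hu P).2 z]; omega
  obtain ⟨c, hc⟩ := Ideal.span_singleton_le_span_singleton.1 (Ideal.dvd_iff_le.1 hd)
  have hc0 : c ≠ 0 := by rintro rfl; exact hfb (by rw [hc, mul_zero])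
  refine ⟨χ ^ K, c, hb, (mI_span_eq_zero hP cv hc0 Q).1 ?_, hc⟩
  have := congrArg (fun x => mI Q (Ideal.span {x})) hc
  simp only [mI_span_mul hP cv hf (pow_ne_zero K hχ), mI_span_mul hP cv (pow_ne_zero μ hu) hc0,
    mI_span_pow hP cv hu, h0, h1] at this
  omega

theorem disc0 (hP : S_Pts) (hN : S_Nrm) (hI : S_Inf) (hPert : S_Pert) (hU : S_UPoly) :
    S_Disc0 := by
  intro A Ω _ _ _ _ _ _ cv P₀ π hπ h1
  have h0 : P₀ π = 0 := (mI_span_ne_zero hP cv hπ P₀).1 (by omega)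
  have hδ := cv.pos_of_zero P₀ hπ h0
  obtain ⟨χ, W, ε₁, η, sec, hε₁, hη, hη1, hS⟩ := exists_sheet hP hPert cv P₀ hπ h1
  refine ⟨W, ε₁, η, hε₁, hη, fun ε U hε hεη hUe => ?_⟩
  have l : ∀ {a : Ω}, ‖a‖ < ε → ‖a‖ < η := fun h => h.trans_le hεη
  have mU : ∀ P, P ∈ U ↔ P ∈ Near W ε₁ P₀ ∧ ‖P π‖ < ε := fun P => by rw [hUe]; rfl
  have sU : ∀ P ∈ U, P = sec (P π) := fun P hp =>
    hS.uniq _ (l ((mU P).1 hp).2) P rfl ((mU P).1 hp).1
  have bij : Set.BijOn (fun P : A →ₐ[Ω] Ω => P π) U (Metric.ball 0 ε) := by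
    refine ⟨fun P hp => mem_ball_zero_iff.2 ((mU P).1 hp).2, fun P hp Q hq e => ?_, fun a ha => ?_⟩
    · rw [sU P hp, sU Q hq]; exact congrArg sec e
    · have ha' := mem_ball_zero_iff.1 ha
      exact ⟨sec a, (mU _).2 ⟨hS.near a (l ha'), by rwa [hS.val a (l ha')]⟩, hS.val a (l ha')⟩
  have main : ∀ f, f ≠ 0 → ∃ C : ℝ, 0 < C ∧ ∀ P ∈ U,
      ‖P f‖ = C * ∏ᶠ Q ∈ U, ‖P π - Q π‖ ^ mI Q (Ideal.span {f}) := by
    intro f hf
    obtain ⟨c, D, c0, D0, hD⟩ := lower hN hI cv hδ hη1 hS hf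
    obtain ⟨C, C0, hC⟩ := hU Ω (fun a => sec a f) ε c D (fun ρ => mI (sec ρ) (Ideal.span {f})) hε
      c0 D0 (fun t ht => (approx hN hI cv hδ hη1 hS f t ht).imp fun h hh a ha => hh a (l ha))
      (fun a ha => hD a (l ha)) fun ρ hρ => by
        have hu : π - algebraMap Ω A ρ ≠ 0 := cv.ne_zero_of_pos (by rwa [cv.sub_const hδ])
        obtain ⟨b, c, b0, c0, e⟩ := factor hP cv (sec ρ) hu hf (hS.mult ρ (l hρ))
        have b1 := norm_pos_iff.2 b0
        refine ⟨‖sec ρ c‖ / ‖sec ρ b‖, div_pos (norm_pos_iff.2 c0) b1, ?_⟩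
        filter_upwards [ev_norm hN hI cv hδ hη1 hS (l hρ) b0, ev_norm hN hI cv hδ hη1 hS (l hρ) c0,
          continuous_norm.continuousAt.eventually_lt continuousAt_const (l hρ)] with a a1 a2 a3
        have := congrArg (fun x => ‖sec a x‖) e
        simp only [map_mul, map_pow, map_sub, AlgHom.commutes, hS.val a a3, norm_mul, norm_pow, a1,
          a2, Algebra.algebraMap_self, RingHom.id_apply] at this
        rw [div_mul_eq_mul_div, eq_div_iff b1.ne', this, mul_comm]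
    refine ⟨C, C0, fun P hp => ?_⟩
    have := hC (P π) ((mU P).1 hp).2
    rw [← sU P hp] at this
    rw [this]
    congr 1
    exact (finprod_mem_eq_of_bijOn _ bij fun Q hq => by rw [← sU Q hq]).symm
  refine ⟨bij, fun w => ?_, main⟩
  by_cases hf : w - algebraMap Ω A (P₀ w) = 0
  · refine ⟨0, fun P _ => ?_⟩
    have := congrArg P hf
    simp only [map_sub, AlgHom.commutes, Algebra.algebraMap_self, RingHom.id_apply,
      map_zero] at this
    rw [this]; simp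
  obtain ⟨C, C0, hC⟩ := main _ hf
  refine ⟨C, fun P hp => ?_⟩
  have e := hC P hp
  simp only [map_sub, AlgHom.commutes, Algebra.algebraMap_self, RingHom.id_apply] at e
  rw [e]
  refine mul_le_mul_of_nonneg_left ?_ C0.le
  have p0 : P₀ ∈ U := (mU _).2 ⟨near_self W hε₁ _, by rwa [h0, norm_zero]⟩
  have m0 := (mI_span_ne_zero hP cv hf P₀).2 (by simp)
  have le1 : ∀ Q ∈ U, ‖P π - Q π‖ ≤ 1 := by
    intro Q hq
    rw [sub_eq_add_neg]
    refine (IsUltrametricDist.norm_add_le_max _ _).trans (max_le ?_ ?_)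
    · linarith [((mU P).1 hp).2]
    · rw [norm_neg]; linarith [((mU Q).1 hq).2]
  have fin := zeros_finite' (Ω := Ω) hP cv hf
  rw [finprod_mem_eq_prod_of_inter_mulSupport_eq _ (t := fin.toFinset.filter (· ∈ U)) (by
    ext Q
    simp only [Set.mem_inter_iff, Function.mem_mulSupport, coe_filter, Set.Finite.mem_toFinset,
      Set.mem_ofPred_eq]
    refine ⟨fun h => ⟨⟨(mI_span_ne_zero hP cv hf Q).1 fun z => h.2 (by rw [z, pow_zero]), h.1⟩,
      h.2⟩, fun h => ⟨h.1.2, h.2⟩⟩),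
    ← mul_prod_erase _ _ (a := P₀) (by simp [p0])]
  refine (mul_le_of_le_one_right (by positivity) (prod_le_one (fun _ _ => by positivity)
    fun Q hq => pow_le_one₀ (norm_nonneg _) (le1 Q (mem_filter.1 (mem_of_mem_erase hq)).2))).trans ?_
  have := le1 P₀ p0
  rw [h0, sub_zero] at this ⊢
  exact pow_le_of_le_one (norm_nonneg _) this m0

end Pool.Agent.P.MP_b8021b_nt.VC.PDisc
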