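import Pool.Agent.P.MP_b8021b_nt.VC.PDisc2

/-! Transfer of the disc statement from the algebraic closure to the ground field. -/

namespace Pool.Agent.P.MP_b8021b_nt.VC.PDisc

open Polynomial Finset Pool.Agent.P.MP_b8021b_nt.VE
open scoped Classical Topology

theorem span_near {A A' Ω : Type} [CommRing A'] [NontriviallyNormedField Ω] [Algebra Ω A']
    (ι : A → A') (Q : A' →ₐ[Ω] Ω) {w : A'} (hw : w ∈ Submodule.span Ω (Set.range ι)) :
    ∀ t : ℝ, 0 < t → ∃ (W : Finset A) (ε : ℝ), 0 < ε ∧ ∀ P : A' →ₐ[Ω] Ω,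
      (∀ a ∈ W, ‖P (ι a) - Q (ι a)‖ < ε) → ‖P w - Q w‖ < t := by
  induction hw using Submodule.span_induction with
  | mem x hx =>
    obtain ⟨a, rfl⟩ := hx
    exact fun t ht => ⟨{a}, t, ht, fun P h => h a (mem_singleton_self _)⟩
  | zero => exact fun t ht => ⟨∅, 1, one_pos, fun P _ => by simpa using ht⟩
  | add x y _ _ hx hy =>
    intro t ht
    obtain ⟨W, ε, h0, h⟩ := hx (t / 2) (half_pos ht)
    obtain ⟨W', ε', h0', h'⟩ := hy (t / 2) (half_pos ht)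
    refine ⟨W ∪ W', min ε ε', lt_min h0 h0', fun P hp => ?_⟩
    have a1 := h P fun a ha => (hp a (mem_union_left _ ha)).trans_le (min_le_left _ _)
    have a2 := h' P fun a ha => (hp a (mem_union_right _ ha)).trans_le (min_le_right _ _)
    rw [map_add, map_add, add_sub_add_comm]
    exact (norm_add_le _ _).trans_lt (by linarith)
  | smul c x _ hx =>
    intro t ht
    have hc : 0 < ‖c‖ + 1 := by positivity
    obtain ⟨W, ε, h0, h⟩ := hx (t / (‖c‖ + 1)) (div_pos ht hc)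
    refine ⟨W, ε, h0, fun P hp => ?_⟩
    have a1 := h P hp
    rw [lt_div_iff₀ hc] at a1
    rw [map_smul, map_smul, ← smul_sub, norm_smul]
    nlinarith [norm_nonneg (P x - Q x)]

theorem span_near' {A A' Ω : Type} [CommRing A'] [NontriviallyNormedField Ω] [Algebra Ω A']
    (ι : A → A') (Q : A' →ₐ[Ω] Ω) (hι : ∀ w, w ∈ Submodule.span Ω (Set.range ι)) (W' : Finset A')
    (t : ℝ) (ht : 0 < t) : ∃ (W : Finset A) (ε : ℝ), 0 < ε ∧ ∀ P : A' →ₐ[Ω] Ω,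
      (∀ a ∈ W, ‖P (ι a) - Q (ι a)‖ < ε) → P ∈ Near W' t Q := by
  induction W' using Finset.induction_on with
  | empty => exact ⟨∅, 1, one_pos, fun P _ w hw => absurd hw (notMem_empty _)⟩
  | insert w W' _ ih =>
    obtain ⟨W₁, ε₁, h1, k1⟩ := ih
    obtain ⟨W₂, ε₂, h2, k2⟩ := span_near ι Q (hι w) t ht
    refine ⟨W₁ ∪ W₂, min ε₁ ε₂, lt_min h1 h2, fun P hp x hx => ?_⟩
    rcases mem_insert.1 hx with rfl | hx
    · exact k2 P fun a ha => (hp a (mem_union_right _ ha)).trans_le (min_le_right _ _)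
    · exact k1 P (fun a ha => (hp a (mem_union_left _ ha)).trans_le (min_le_left _ _)) x hx

theorem transfer (hBC : S_BC) (hm : S_BCm) (h0 : S_Disc0) : S_Disc := by
  intro F A Ω _ _ _ _ _ _ _ _ _ cv P₀ π hπ h1
  have : CharZero Ω := charZero_of_injective_algebraMap (algebraMap F Ω).injective
  obtain ⟨A', _, _, cv', ι, b1, b2, b3, b4, b5, -⟩ := hBC F Ω A cv
  obtain ⟨e, e1, e2⟩ := hm F Ω A A' Ω cv cv' ι ⟨b1, b2, b3, b4, b5⟩
  obtain ⟨Q₀, rfl⟩ := e.surjective P₀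
  have ne : ∀ f : A, f ≠ 0 → ι f ≠ 0 := fun f hf h => hf (b2 (h.trans (map_zero ι).symm))
  obtain ⟨W', ε₁', ε₀', p1, p2, h⟩ := h0 A' Ω cv' Q₀ (ι π) (ne π hπ) (by rw [← e2 _ _ hπ, h1])
  obtain ⟨W, ε₁, p3, hW⟩ := span_near' ι Q₀ (fun w => Submodule.span_mono
    (Set.image_subset_range _ _) (b4 (cv'.δ w) (cv'.mem_L.2 le_rfl))) W' ε₁' p1
  obtain ⟨-, lip, -⟩ := h ε₀' _ p2 le_rfl rfl
  choose C hC using lip
  obtain ⟨B, B0, hB⟩ : ∃ B : ℝ, 0 < B ∧ ∀ a ∈ W, C (ι a) ≤ B :=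
    ⟨∑ a ∈ W, |C (ι a)| + 1, by positivity, fun a ha => (le_abs_self _).trans
      ((single_le_sum (f := fun a => |C (ι a)|) (fun _ _ => abs_nonneg _) ha).trans (by linarith))⟩
  refine ⟨W, ε₁, min ε₀' (ε₁ / B), p3, lt_min p2 (div_pos p3 B0), fun ε U hε hle hU => ?_⟩
  obtain ⟨U', hU'⟩ : ∃ U', U' = {P : A' →ₐ[Ω] Ω | P ∈ Near W' ε₁' Q₀ ∧ ‖P (ι π)‖ < ε} := ⟨_, rfl⟩
  obtain ⟨bij, lip, frm⟩ := h ε U' hε (hle.trans (min_le_left _ _)) hU'
  have mem : ∀ P, e P ∈ U ↔ P ∈ U' := by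
    intro P
    rw [hU, hU']
    simp only [Set.mem_ofPred_eq, mem_near (W := W), e1]
    refine and_congr_left fun hp => ⟨hW P, fun hn a ha => ?_⟩
    have a1 := hC (ι a) P ⟨hn, hp.trans_le (hle.trans (min_le_left _ _))⟩
    have a2 := hp.trans_le (hle.trans (min_le_right _ _))
    rw [lt_div_iff₀ B0] at a2
    have a3 := mul_le_mul_of_nonneg_right (hB a ha) (norm_nonneg (P (ι π)))
    linarith
  have eb : Set.BijOn e U' U := ⟨fun P hp => (mem P).2 hp, e.injective.injOn, fun P hp => by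
    obtain ⟨Q, rfl⟩ := e.surjective P
    exact ⟨Q, (mem Q).1 hp, rfl⟩⟩
  refine ⟨⟨fun P hp => ?_, fun P hp Q hq hh => ?_, fun a ha => ?_⟩, fun w => ?_, fun f hf => ?_⟩
  · obtain ⟨Q, rfl⟩ := e.surjective P
    simpa only [e1] using bij.1 ((mem Q).1 hp)
  · obtain ⟨P, rfl⟩ := e.surjective P
    obtain ⟨Q, rfl⟩ := e.surjective Q
    rw [bij.2.1 ((mem P).1 hp) ((mem Q).1 hq) (by simpa only [e1] using hh)]
  · obtain ⟨P, hp, rfl⟩ := bij.2.2 ha
    exact ⟨e P, (mem P).2 hp, e1 _ _⟩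
  · obtain ⟨c, hc⟩ := lip (ι w)
    refine ⟨c, fun P hp => ?_⟩
    obtain ⟨Q, rfl⟩ := e.surjective P
    simpa only [e1] using hc Q ((mem Q).1 hp)
  · obtain ⟨c, c0, hc⟩ := frm (ι f) (ne f hf)
    refine ⟨c, c0, fun P hp => ?_⟩
    obtain ⟨Q, rfl⟩ := e.surjective P
    rw [e1, hc Q ((mem Q).1 hp)]
    congr 1
    exact finprod_mem_eq_of_bijOn e eb fun R _ => by rw [e1, e1, e2 _ _ hf]

end Pool.Agent.P.MP_b8021b_nt.VC.PDisc
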