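import Pool.Agent.P.MP_b8021b_nt.VE.PDvd1
import Pool.Agent.P.MP_b8021b_nt.VC.StT

/-! Sums over quadruples. -/

namespace Pool.Agent.P.MP_b8021b_nt.VC.Dvd

open Polynomial Finset Pool.Agent.P.MP_b8021b_nt.VE
open Pool.Agent.P.MP_b8021b_nt.VE.Dvd (card_le_gap2 card_le_one_of_dvd)
open scoped Classical

variable {R : Type} [CommRing R] [Algebra ℤ[X] R]

/-- the facts about the parameters that are used -/
structure Set0 (p : Par R) (c : Cfg) (ϑ W C₁ : ℝ) (Mx : ℕ) : Prop where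
  pr : ∀ q ∈ Pset c.y c.N, q.Prime ∧ (q : ℝ) < 3 * c.y ∧ 0 ≤ wt p c.y c.N q ∧ wt p c.y c.N q ≤ ϑ
  sum : ∑ q ∈ Pset c.y c.N, wt p c.y c.N q ≤ c.N
  Npos : 1 ≤ c.N
  box : Tset p c ⊆ Icc (-(Mx : ℤ)) (-(Mx : ℤ) + Mx) ×ˢ Icc 0 (0 + (Mx : ℤ))
  wT0 : ∀ t ∈ Tset p c, 0 ≤ wT p c t ∧ wT p c t ≤ W / c.B ^ 2
  wT1 : ∑ t ∈ Tset p c, wT p c t ≤ 1
  Mle : (Mx : ℝ) + 1 ≤ C₁ * c.B
  Bpos : 0 < c.B
  By : 9 * c.y ^ 2 ≤ c.B
  W0 : 0 ≤ W
  card : ∀ (q : ℕ) (t : ℤ × ℤ), ((Xq p q).filter fun x => p.OnT x t).card ≤ 2 * p.e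

variable {p : Par R} {c : Cfg} {ϑ W C₁ : ℝ} {Mx : ℕ}

lemma fst_mem_Pset {y : ℝ} {N : ℕ} {x : p.Pn} (hx : x ∈ Xset p y N) : x.1 ∈ Pset y N :=
  (mem_Xset.mp hx).1

lemma IsQ.swapT {x x' : p.Pn} {t t' : ℤ × ℤ} (h : IsQ p c x x' t t') : IsQ p c x x' t' t :=
  ⟨h.hx, h.hx', h.ht', h.ht, h.ne, h.o12, h.o11, h.o22, h.o21, h.pr', h.pr⟩

lemma IsQ.swapX {x x' : p.Pn} {t t' : ℤ × ℤ} (h : IsQ p c x x' t t') : IsQ p c x' x t t' :=
  ⟨h.hx', h.hx, h.ht, h.ht', h.ne.symm, h.o21, h.o22, h.o11, h.o12, h.pr, h.pr'⟩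

lemma Qs_swapT (Φ : p.Pn → p.Pn → ℤ × ℤ → ℤ × ℤ → ℝ) :
    Qs p c Φ = Qs p c fun x x' t t' => Φ x x' t' t := by
  unfold Qs
  refine sum_congr rfl fun x _ => sum_congr rfl fun x' _ => ?_
  rw [sum_comm]
  refine sum_congr rfl fun t _ => sum_congr rfl fun t' _ => ?_
  by_cases h : IsQ p c x x' t t'
  · rw [if_pos h, if_pos (IsQ.swapT h)]; ring
  · rw [if_neg h, if_neg fun h' => h (IsQ.swapT h')]

lemma Qs_swapX (Φ : p.Pn → p.Pn → ℤ × ℤ → ℤ × ℤ → ℝ) :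
    Qs p c Φ = Qs p c fun x x' t t' => Φ x' x t t' := by
  unfold Qs
  rw [sum_comm]
  refine sum_congr rfl fun x _ => sum_congr rfl fun x' _ => ?_
  refine sum_congr rfl fun t _ => sum_congr rfl fun t' _ => ?_
  by_cases h : IsQ p c x x' t t'
  · rw [if_pos h, if_pos (IsQ.swapX h)]; ring
  · rw [if_neg h, if_neg fun h' => h (IsQ.swapX h')]

lemma Qs_add (Φ Ψ : p.Pn → p.Pn → ℤ × ℤ → ℤ × ℤ → ℝ) :
    Qs p c (fun x x' t t' => Φ x x' t t' + Ψ x x' t t') = Qs p c Φ + Qs p c Ψ := by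
  unfold Qs
  simp only [← sum_add_distrib]
  refine sum_congr rfl fun x _ => sum_congr rfl fun x' _ => sum_congr rfl fun t _ =>
    sum_congr rfl fun t' _ => ?_
  split_ifs <;> ring

lemma Qs_sum {ι : Type} (s : Finset ι) (Φ : ι → p.Pn → p.Pn → ℤ × ℤ → ℤ × ℤ → ℝ) :
    Qs p c (fun x x' t t' => ∑ i ∈ s, Φ i x x' t t') = ∑ i ∈ s, Qs p c (Φ i) := by
  induction s using Finset.induction_on with
  | empty => simp [Qs]
  | insert i s hi ih =>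
    simp only [sum_insert hi]
    rw [Qs_add, ih]

lemma Set0.wt0 (H : Set0 p c ϑ W C₁ Mx) {x : p.Pn} (hx : x ∈ Xset p c.y c.N) :
    0 ≤ wt p c.y c.N x.1 := (H.pr _ (fst_mem_Pset hx)).2.2.1

lemma Set0.Qs_mono (H : Set0 p c ϑ W C₁ Mx) {Φ Ψ : p.Pn → p.Pn → ℤ × ℤ → ℤ × ℤ → ℝ}
    (h : ∀ x x' t t', IsQ p c x x' t t' → Φ x x' t t' ≤ Ψ x x' t t') : Qs p c Φ ≤ Qs p c Ψ := by
  unfold Qs
  refine sum_le_sum fun x hx => sum_le_sum fun x' hx' => sum_le_sum fun t ht =>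
    sum_le_sum fun t' ht' => ?_
  split_ifs with hq
  · have := H.wt0 hx
    have := H.wt0 hx'
    have := (H.wT0 t ht).1
    have := (H.wT0 t' ht').1
    exact mul_le_mul_of_nonneg_left (h _ _ _ _ hq) (by positivity)
  · exact le_rfl

/-- mass of a set of fibres from a count -/
lemma Set0.mass_le (H : Set0 p c ϑ W C₁ Mx) (S : Finset (ℤ × ℤ)) (hS : S ⊆ Tset p c) (ℒ m : ℕ)
    (hℒ : 1 ≤ ℒ) (h : (S.card : ℝ) ≤ (Mx + 1) * (m * (Mx / ℒ + 1))) :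
    ∑ t ∈ S, wT p c t ≤ W * C₁ * m * (C₁ / ℒ + 1 / c.B) := by
  have hB := H.Bpos
  have hW := H.W0
  have hL : (0 : ℝ) < ℒ := by exact_mod_cast hℒ
  have h1 : ∑ t ∈ S, wT p c t ≤ S.card * (W / c.B ^ 2) := by
    rw [← nsmul_eq_mul]
    exact sum_le_card_nsmul _ _ _ fun t ht => (H.wT0 t (hS ht)).2
  have h2 : (Mx : ℝ) ≤ C₁ * c.B := by linarith [H.Mle]
  have h3 : (0 : ℝ) ≤ C₁ * c.B := le_trans (by positivity) h2
  calc _ ≤ _ := h1
    _ ≤ (C₁ * c.B) * (m * (C₁ * c.B / ℒ + 1)) * (W / c.B ^ 2) := by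
      refine mul_le_mul_of_nonneg_right (h.trans ?_) (by positivity)
      gcongr
      exact H.Mle
    _ = _ := by field_simp

lemma Set0.on_sum (H : Set0 p c ϑ W C₁ Mx) (t : ℤ × ℤ) (g : ℕ → ℝ) (hg : ∀ q, 0 ≤ g q) :
    ∑ x ∈ Xset p c.y c.N with p.OnT x t, wt p c.y c.N x.1 * g x.1 ≤
      2 * p.e * ∑ q ∈ Pset c.y c.N, wt p c.y c.N q * g q := by
  rw [← sum_fiberwise_of_maps_to (g := fun x : p.Pn => x.1) (t := Pset c.y c.N)
    (fun x hx => fst_mem_Pset (mem_filter.mp hx).1), mul_sum]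
  refine sum_le_sum fun q hq => ?_
  rw [sum_congr rfl (g := fun _ => wt p c.y c.N q * g q)
    (fun x hx => by rw [(mem_filter.mp hx).2]), sum_const, nsmul_eq_mul]
  refine mul_le_mul_of_nonneg_right ?_ (mul_nonneg (H.pr q hq).2.2.1 (hg q))
  have hsub : ((Xset p c.y c.N).filter fun x => p.OnT x t).filter (fun x => x.1 = q) ⊆
      (Xq p q).filter fun x => p.OnT x t := by
    intro x hx
    obtain ⟨h1, h2⟩ := mem_filter.mp hx
    obtain ⟨h3, h4⟩ := mem_filter.mp h1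
    exact mem_filter.mpr ⟨mem_Xq.mpr ⟨h2, (mem_Xset.mp h3).2⟩, h4⟩
  have := (card_le_card hsub).trans (H.card q t)
  exact_mod_cast this

/-- reduction to the conditional sum over the second fibre -/
lemma Set0.Qs_le (H : Set0 p c ϑ W C₁ Mx) (Φ : p.Pn → p.Pn → ℤ × ℤ → ℤ × ℤ → ℝ) (g : ℕ → ℝ)
    (e : ℤ × ℤ → ℝ) (hg : ∀ q, 0 ≤ g q) (he : ∀ t, 0 ≤ e t)
    (h : ∀ x x' t, ∑ t' ∈ Tset p c with IsQ p c x x' t t', x.1 * x'.1 * wT p c t' * Φ x x' t t' ≤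
      g x.1 * e t) :
    Qs p c Φ ≤ (2 * p.e) ^ 2 * ((∑ q ∈ Pset c.y c.N, wt p c.y c.N q * g q) / c.N) *
      ∑ t ∈ Tset p c, wT p c t * e t := by
  have hN : (0 : ℝ) < c.N := by exact_mod_cast H.Npos
  have h1 : Qs p c Φ ≤ ∑ t ∈ Tset p c, wT p c t * e t / c.N ^ 2 *
      ((∑ x ∈ Xset p c.y c.N with p.OnT x t, wt p c.y c.N x.1 * g x.1) *
        ∑ x' ∈ Xset p c.y c.N with p.OnT x' t, wt p c.y c.N x'.1 * 1) := by
    have e1 : ∀ t ∈ Tset p c, wT p c t * e t / c.N ^ 2 *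
        ((∑ x ∈ Xset p c.y c.N with p.OnT x t, wt p c.y c.N x.1 * g x.1) *
          ∑ x' ∈ Xset p c.y c.N with p.OnT x' t, wt p c.y c.N x'.1 * 1) =
        ∑ x ∈ Xset p c.y c.N, ∑ x' ∈ Xset p c.y c.N, if p.OnT x t ∧ p.OnT x' t then
        wT p c t * e t / c.N ^ 2 * (wt p c.y c.N x.1 * g x.1 * (wt p c.y c.N x'.1 * 1)) else 0 := by
      intro t _
      rw [sum_filter, sum_filter, sum_mul_sum, mul_sum]
      refine sum_congr rfl fun x _ => ?_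
      rw [mul_sum]
      refine sum_congr rfl fun x' _ => ?_
      by_cases h0 : p.OnT x t <;> by_cases h1 : p.OnT x' t <;> simp [h0, h1]
    rw [sum_congr rfl e1, sum_comm (s := Tset p c)]
    unfold Qs
    refine sum_le_sum fun x hx => ?_
    rw [sum_comm (s := Tset p c) (t := Xset p c.y c.N)]
    refine sum_le_sum fun x' hx' => sum_le_sum fun t ht => ?_
    have a1 := H.wt0 hx
    have a2 := H.wt0 hx'
    have a3 := (H.wT0 t ht).1
    split_ifs with h0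
    · have := mul_le_mul_of_nonneg_left (h x x' t)
        (show 0 ≤ wT p c t / c.N ^ 2 * (wt p c.y c.N x.1 * wt p c.y c.N x'.1) by positivity)
      rw [sum_filter, mul_sum] at this
      refine le_trans (le_of_eq (sum_congr rfl fun t' _ => ?_)) (this.trans (le_of_eq (by ring)))
      split_ifs <;> ring
    · refine le_of_eq (sum_eq_zero fun t' _ => if_neg fun hq => h0 ⟨hq.o11, hq.o21⟩)
  refine h1.trans ?_
  rw [mul_sum]
  refine sum_le_sum fun t ht => ?_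
  have a3 := (H.wT0 t ht).1
  have a4 := he t
  have b1 := H.on_sum t g hg
  have b2 := H.on_sum t (fun _ => 1) (fun _ => zero_le_one)
  have b3 : ∑ q ∈ Pset c.y c.N, wt p c.y c.N q * 1 ≤ c.N := by simpa using H.sum
  have b4 : 0 ≤ ∑ q ∈ Pset c.y c.N, wt p c.y c.N q * g q :=
    sum_nonneg fun q hq => mul_nonneg (H.pr q hq).2.2.1 (hg q)
  have b5 : 0 ≤ ∑ x' ∈ Xset p c.y c.N with p.OnT x' t, wt p c.y c.N x'.1 * 1 :=
    sum_nonneg fun x hx => by simpa using H.wt0 (mem_filter.mp hx).1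
  calc _ ≤ wT p c t * e t / c.N ^ 2 *
        ((2 * p.e * ∑ q ∈ Pset c.y c.N, wt p c.y c.N q * g q) * (2 * p.e * c.N)) := by
        refine mul_le_mul_of_nonneg_left (mul_le_mul b1
          (b2.trans (mul_le_mul_of_nonneg_left b3 (by positivity))) b5 (by positivity))
          (by positivity)
    _ = _ := by field_simp

/-- two fibres through the same two points with the same second coordinate -/
lemma dvd_diff {x x' : p.Pn} {t : ℤ × ℤ} {a a' b : ℤ} (h : IsQ p c x x' t (a, b))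
    (h' : IsQ p c x x' t (a', b)) : (x.1 : ℤ) ∣ a - a' ∧ (x'.1 : ℤ) ∣ a - a' := by
  constructor
  · have := h.o12.1.sub h'.o12.1
    simpa using this
  · have := h.o22.1.sub h'.o22.1
    simpa using this

/-- the conditional mass of a set of second fibres in which first coordinates are congruent
modulo `x.1 * x'.1 * g` -/
lemma Set0.cond_le (H : Set0 p c ϑ W C₁ Mx) (x x' : p.Pn) (t : ℤ × ℤ) (E : ℤ × ℤ → Prop) (h g : ℕ)
    (hh : 1 ≤ h) (hg : h ≤ g) (c1 : ∀ t', IsQ p c x x' t t' → E t' → g.Coprime (x.1 * x'.1))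
    (c2 : ∀ a a' b, IsQ p c x x' t (a, b) → E (a, b) → E (a', b) → (g : ℤ) ∣ a - a') :
    ∑ t' ∈ Tset p c with IsQ p c x x' t t', x.1 * x'.1 * wT p c t' * (if E t' then 1 else 0) ≤
      W * C₁ * (C₁ / h + 9 * c.y ^ 2 / c.B) := by
  have hB := H.Bpos
  have hW := H.W0
  have hC : 0 ≤ C₁ := by
    have := H.Mle
    by_contra hc
    have : C₁ * c.B < 0 := mul_neg_of_neg_of_pos (not_le.mp hc) hB
    have : (0 : ℝ) ≤ Mx := by positivity
    linarith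
  set S := (Tset p c).filter fun t' => IsQ p c x x' t t' ∧ E t' with hS
  have e1 : ∑ t' ∈ Tset p c with IsQ p c x x' t t', x.1 * x'.1 * wT p c t' * (if E t' then 1 else 0)
      = x.1 * x'.1 * ∑ t' ∈ S, wT p c t' := by
    rw [hS, ← filter_filter, sum_filter (s := filter _ _) (p := E), mul_sum]
    refine sum_congr rfl fun t' _ => ?_
    split_ifs <;> ring
  rw [e1]
  rcases S.eq_empty_or_nonempty with h0 | ⟨t₀, ht₀⟩
  · rw [h0, sum_empty, mul_zero]; positivity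
  obtain ⟨hq, hE⟩ := (mem_filter.mp ht₀).2
  obtain ⟨p1, p2, -⟩ := H.pr _ (fst_mem_Pset hq.hx)
  obtain ⟨p1', p2', -⟩ := H.pr _ (fst_mem_Pset hq.hx')
  have hpos : 1 ≤ x.1 * x'.1 * h := Nat.mul_pos (Nat.mul_pos p1.pos p1'.pos) hh
  have hcop := c1 t₀ hq hE
  have hm := H.mass_le S (filter_subset _ _) (x.1 * x'.1 * h) 1 hpos
    (card_le_gap2 S _ _ Mx _ 1 hpos ((filter_subset _ _).trans H.box) ?_)
  · have q1 : (0 : ℝ) < x.1 := by exact_mod_cast p1.pos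
    have q2 : (0 : ℝ) < x'.1 := by exact_mod_cast p1'.pos
    have q3 : (0 : ℝ) < h := by exact_mod_cast hh
    have q4 : (x.1 : ℝ) * x'.1 ≤ 9 * c.y ^ 2 := by nlinarith
    calc _ ≤ x.1 * x'.1 * (W * C₁ * (1 : ℕ) * (C₁ / (x.1 * x'.1 * h : ℕ) + 1 / c.B)) :=
          mul_le_mul_of_nonneg_left hm (by positivity)
      _ = W * C₁ * (C₁ / h + x.1 * x'.1 / c.B) := by push_cast; field_simp
      _ ≤ _ := by gcongr
  · intro b V hV hV'
    refine card_le_one_of_dvd V (x.1 * x'.1 * g) _ (Nat.mul_le_mul_left _ hg) ?_ hV'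
    intro a ha a' ha'
    obtain ⟨k1, k2⟩ := (mem_filter.mp (hV a ha)).2
    obtain ⟨k1', k2'⟩ := (mem_filter.mp (hV a' ha')).2
    obtain ⟨d1, d2⟩ := dvd_diff k1 k1'
    have d3 := c2 a a' b k1 k2 k2'
    have d4 : ((x.1 * x'.1 : ℕ) : ℤ) ∣ a - a' := by
      push_cast
      exact IsCoprime.mul_dvd (Nat.isCoprime_iff_coprime.mpr
        ((Nat.coprime_primes p1 p1').mpr hq.ne)) d1 d2
    rw [Nat.cast_mul]
    exact IsCoprime.mul_dvd (Nat.isCoprime_iff_coprime.mpr hcop.symm) d4 d3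

end Pool.Agent.P.MP_b8021b_nt.VC.Dvd
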