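import Pool.Agent.P.MP_b8021b_nt.VC.PDvd2
import Pool.Agent.P.MP_b8021b_nt.VE.BasicP

/-! The events that cover the divisibility condition. -/

namespace Pool.Agent.P.MP_b8021b_nt.VC.Dvd

open Polynomial Finset Pool.Agent.P.MP_b8021b_nt.VE
open Pool.Agent.P.MP_b8021b_nt.VE.Dvd (card_le_gap2 card_le_gap2' card_le_one_of_dvd exists_gcd_ge)
open scoped Classical

/-- values of a polynomial at `n + 1` points control its coefficients -/
lemma dvd_det_mul {n : ℕ} (v cf : Fin (n + 1) → ℤ) (q : ℤ)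
    (h : ∀ i, q ∣ ∑ j : Fin (n + 1), v i ^ (j : ℕ) * cf j) (j : Fin (n + 1)) :
    q ∣ (Matrix.vandermonde v).det * cf j := by
  have h1 : ((Matrix.vandermonde v).adjugate).mulVec ((Matrix.vandermonde v).mulVec cf) =
      (Matrix.vandermonde v).det • cf := by
    rw [Matrix.mulVec_mulVec, Matrix.adjugate_mul, Matrix.smul_mulVec, Matrix.one_mulVec]
  have h2 := congrFun h1 j
  rw [Pi.smul_apply, smul_eq_mul] at h2
  rw [← h2]
  simp only [Matrix.mulVec, dotProduct, Matrix.vandermonde_apply]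
  exact Finset.dvd_sum fun i _ => (h i).mul_left _

/-- a form has few roots modulo `q` in a short window -/
lemma card_le_form (g : ℤ[X]) (hg : g ≠ 0) (b : ℤ) (V : Finset ℤ) (q ℒ m : ℕ) (hℒ : 1 ≤ ℒ)
    (hm : (g.natDegree + 1) ^ 2 + 1 ≤ m) (hq : ℒ ^ m ≤ q)
    (h : ∀ a ∈ V, (q : ℤ) ∣ hev g.natDegree g a b) (h' : ∀ a ∈ V, ∀ a' ∈ V, |a - a'| < ℒ) :
    V.card ≤ g.natDegree + 2 * g.leadingCoeff.natAbs := by
  by_cases hl : ℒ ≤ g.leadingCoeff.natAbs
  · rcases V.eq_empty_or_nonempty with rfl | ⟨a, ha⟩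
    · simp
    have hsub : V ⊆ Finset.Ioo (a - ℒ) (a + ℒ) := fun a' ha' => by
      have := abs_lt.mp (h' a ha a' ha')
      rw [mem_Ioo]
      omega
    have := card_le_card hsub
    rw [Int.card_Ioo] at this
    omega
  by_contra hc
  obtain ⟨U, hU, hcard⟩ := exists_subset_card_eq (s := V) (n := g.natDegree + 1) (by omega)
  let v : Fin (g.natDegree + 1) → ℤ := fun i => U.orderEmbOfFin hcard i
  have hv : ∀ i, v i ∈ V := fun i => hU (U.orderEmbOfFin_mem hcard i)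
  have hinj : Function.Injective v := (U.orderEmbOfFin hcard).injective
  have hd := dvd_det_mul v (fun j => g.coeff j * b ^ (g.natDegree - j)) q (fun i => by
    have := h _ (hv i)
    rw [hev, Finset.sum_range] at this
    refine this.trans (dvd_of_eq (sum_congr rfl fun j _ => by ring))) (Fin.last _)
  simp only [Fin.val_last, Nat.sub_self, pow_zero, mul_one, coeff_natDegree] at hd
  have hne : (Matrix.vandermonde v).det * g.leadingCoeff ≠ 0 :=
    mul_ne_zero (Matrix.det_vandermonde_ne_zero_iff.mpr hinj) (leadingCoeff_ne_zero.mpr hg)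
  refine hne (Int.eq_zero_of_abs_lt_dvd hd ?_)
  have hL : (1 : ℤ) ≤ ℒ := by exact_mod_cast hℒ
  have h1 : |(Matrix.vandermonde v).det| ≤ (ℒ : ℤ) ^ ((g.natDegree + 1) ^ 2) := by
    rw [Matrix.det_vandermonde, abs_prod]
    calc _ ≤ ∏ _i : Fin (g.natDegree + 1), (ℒ : ℤ) ^ (g.natDegree + 1) := by
          refine prod_le_prod (fun _ _ => abs_nonneg _) fun i _ => ?_
          rw [abs_prod]
          calc _ ≤ ∏ _j ∈ Ioi i, (ℒ : ℤ) :=
                prod_le_prod (fun _ _ => abs_nonneg _) fun j _ => (h' _ (hv j) _ (hv i)).le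
            _ ≤ _ := by
                rw [prod_const]
                refine pow_le_pow_right₀ hL ((card_le_univ _).trans (by simp))
      _ = _ := by rw [prod_const, card_univ, Fintype.card_fin, ← pow_mul, sq]
  have h2 : |g.leadingCoeff| < ℒ := by
    rw [Int.abs_eq_natAbs]
    exact_mod_cast not_le.mp hl
  have h3 : (ℒ : ℤ) ^ m ≤ q := by exact_mod_cast hq
  rw [abs_mul]
  calc _ ≤ (ℒ : ℤ) ^ ((g.natDegree + 1) ^ 2) * |g.leadingCoeff| :=
        mul_le_mul_of_nonneg_right h1 (abs_nonneg _)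
    _ < (ℒ : ℤ) ^ ((g.natDegree + 1) ^ 2) * ℒ := mul_lt_mul_of_pos_left h2 (by positivity)
    _ ≤ (ℒ : ℤ) ^ m := by rw [← pow_succ]; exact pow_le_pow_right₀ hL hm
    _ ≤ q := h3

/-- a divisor of a constant times a power of a product -/
lemma exists_gcd_pow (d c G m : ℕ) (l : List ℕ) (hd : d ∣ c * l.prod ^ (m + 1)) (hc : 0 < c)
    (hl : l ≠ []) (hG : c * G ^ (l.length * (m + 1)) ≤ d) : ∃ F ∈ l, G ≤ Nat.gcd d F := by
  obtain ⟨F, hF, h⟩ := exists_gcd_ge d c G (List.replicate (m + 1) l).flatten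
    (by simpa [List.prod_flatten] using hd) hc (by simp [List.replicate_succ, hl])
    (by simpa [List.length_flatten, mul_comm] using hG)
  obtain ⟨l', h1, h2⟩ := List.mem_flatten.mp hF
  rw [List.eq_of_mem_replicate h1] at h2
  exact ⟨F, h2, h⟩

variable {R : Type} [CommRing R] [Algebra ℤ[X] R] {p : Par R} {c : Cfg} {ϑ W C₁ : ℝ} {Mx : ℕ}

/-- the discriminant form without its power of the second coordinate -/
def D0 (p : Par R) (t : ℤ × ℤ) : ℤ := hev p.Dp.natDegree p.Dp t.1 t.2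

/-- the exponent of the windows -/
def mm (p : Par R) : ℕ := (p.G.natDegree + p.Dp.natDegree + 1) ^ 2 + 1

/-- the number of roots in the windows -/
def kk (p : Par R) : ℕ :=
  (p.G.natDegree + 2 * p.G.leadingCoeff.natAbs) + 1 +
    (p.Dp.natDegree + 2 * p.Dp.leadingCoeff.natAbs)

/-- the total exponent -/
def TT (p : Par R) : ℕ := 2 * mm p * (9 * (2 * p.dD + 1 + 1))

lemma mm_pos (p : Par R) : 1 ≤ mm p := Nat.le_add_left _ _

lemma Dt_dvd (t : ℤ × ℤ) : p.Dt t * t.2 ∣ (D0 p t * t.2) ^ (p.dD + 1) := by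
  obtain ⟨K, hK⟩ := Nat.exists_eq_add_of_le p.hD
  have e : p.Dt t = D0 p t * t.2 ^ K := by
    rw [Par.Dt, D0, ← hev_add_deg le_rfl, ← hK]
  rw [e, mul_assoc, ← pow_succ, mul_pow]
  exact mul_dvd_mul (dvd_pow_self _ (by omega)) (pow_dvd_pow _ (by omega))

/-- a large divisor of `d` divides one of the forms of one fibre -/
def E1 (p : Par R) (d h : ℕ) (t : ℤ × ℤ) : Prop :=
  ∃ e ∈ d.divisors, h ^ mm p ≤ e ∧ ((e : ℤ) ∣ p.Gt t ∨ (e : ℤ) ∣ t.2 ∨ (e : ℤ) ∣ D0 p t)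

/-- a large divisor of `d` divides the determinant -/
def E3 (p : Par R) (d h e : ℕ) (x x' : p.Pn) (t t' : ℤ × ℤ) : Prop :=
  h ^ (2 * mm p) ≤ e ∧ Nat.gcd e t.2.natAbs < h ^ mm p ∧ ¬ x.1 ∣ d ∧ ¬ x'.1 ∣ d ∧ (e : ℤ) ∣ dl t t'

lemma Set0.C0 (H : Set0 p c ϑ W C₁ Mx) : 0 ≤ C₁ := by
  have hB := H.Bpos
  have := H.Mle
  by_contra hc
  have : C₁ * c.B < 0 := mul_neg_of_neg_of_pos (not_le.mp hc) hB
  have : (0 : ℝ) ≤ Mx := by positivity
  linarith

lemma cover {x x' : p.Pn} {t t' : ℤ × ℤ} (hx : x.1.Prime) (hx' : x'.1.Prime) {d h : ℕ} (hd : 1 ≤ d)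
    (hh : 1 ≤ h) (hc : h = 1 ∨ 4 * p.r ^ (2 * (p.n0 + 1)) * h ^ TT p ≤ d)
    (hdv : d ∣ nn p x x' t t' ^ 2) :
    x.1 ∣ d ∨ x'.1 ∣ d ∨ E1 p d h t ∨ E1 p d h t' ∨ ∃ e ∈ d.divisors, E3 p d h e x x' t t' := by
  have hd0 : d ≠ 0 := by omega
  have triv : h = 1 → E1 p d h t := fun h1 =>
    ⟨1, Nat.one_mem_divisors.mpr hd0, by simp [h1], Or.inl (by simp)⟩
  rcases hc with hc | hc
  · exact Or.inr (Or.inr (Or.inl (triv hc)))
  have hm1 := mm_pos p
  have h6 : h ^ mm p ≤ h ^ (2 * mm p) := Nat.pow_le_pow_right hh (by omega)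
  have hm : ∀ F : ℕ, Nat.gcd d F ∈ d.divisors := fun F =>
    Nat.mem_divisors.mpr ⟨Nat.gcd_dvd_left _ _, hd0⟩
  have hz : ∀ a : ℤ, ((Nat.gcd d a.natAbs : ℕ) : ℤ) ∣ a := fun a =>
    Int.natCast_dvd.mpr (Nat.gcd_dvd_right _ _)
  have hp : ∀ q : ℕ, q.Prime → h ^ (2 * mm p) ≤ Nat.gcd d q → q ∣ d ∨ h = 1 := by
    intro q hq hg
    by_cases h1 : q ∣ d
    · exact Or.inl h1
    · right
      rw [((Nat.Prime.coprime_iff_not_dvd hq).mpr h1).symm.gcd_eq_one] at hg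
      have := Nat.le_self_pow (n := 2 * mm p) (by omega) h
      omega
  let l : List ℕ := [x.1, x'.1, (p.Gt t).natAbs, (p.Gt t').natAbs, (dl t t').natAbs, t.2.natAbs,
    (D0 p t).natAbs, t'.2.natAbs, (D0 p t').natAbs]
  have hr := p.hr.pos
  have hn : nn p x x' t t' ∣ 2 * p.r ^ (p.n0 + 1) * l.prod ^ (p.dD + 1) := by
    have e1 : (2 * (p.r : ℤ) ^ (p.n0 + 1) * x.1 * x'.1 * p.Gt t * p.Gt t' * dl t t' * p.Dt t *
        p.Dt t' * t.2 * t'.2) ∣ 2 * (p.r : ℤ) ^ (p.n0 + 1) *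
        ((x.1 * x'.1 * p.Gt t * p.Gt t' * dl t t') ^ (p.dD + 1) *
          ((D0 p t * t.2) ^ (p.dD + 1) * (D0 p t' * t'.2) ^ (p.dD + 1))) := by
      refine (dvd_of_eq ?_).trans (mul_dvd_mul_left _ (mul_dvd_mul (dvd_pow_self _ (by omega))
        (mul_dvd_mul (Dt_dvd t) (Dt_dvd t'))))
      ring
    refine (Int.natAbs_dvd_natAbs.mpr e1).trans (dvd_of_eq ?_)
    simp only [l, Int.natAbs_mul, Int.natAbs_pow, Int.natAbs_natCast, List.prod_cons, List.prod_nil]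
    have : (2 : ℤ).natAbs = 2 := rfl
    rw [this]
    ring
  obtain ⟨F, hF, hG⟩ := exists_gcd_pow d (4 * p.r ^ (2 * (p.n0 + 1))) (h ^ (2 * mm p))
    (2 * p.dD + 1) l (by
      refine hdv.trans ((pow_dvd_pow_of_dvd hn 2).trans (dvd_of_eq ?_))
      ring) (by positivity) (by simp [l]) (by
      have : l.length = 9 := rfl
      rw [this, ← pow_mul]
      exact hc)
  simp only [l, List.mem_cons, List.not_mem_nil, or_false] at hF
  rcases hF with rfl | rfl | rfl | rfl | rfl | rfl | rfl | rfl | rfl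
  · rcases hp _ hx hG with h1 | h1
    · exact Or.inl h1
    · exact Or.inr (Or.inr (Or.inl (triv h1)))
  · rcases hp _ hx' hG with h1 | h1
    · exact Or.inr (Or.inl h1)
    · exact Or.inr (Or.inr (Or.inl (triv h1)))
  · exact Or.inr (Or.inr (Or.inl ⟨_, hm _, h6.trans hG, Or.inl (hz _)⟩))
  · exact Or.inr (Or.inr (Or.inr (Or.inl ⟨_, hm _, h6.trans hG, Or.inl (hz _)⟩)))
  · by_cases h1 : x.1 ∣ d
    · exact Or.inl h1
    by_cases h2 : x'.1 ∣ d
    · exact Or.inr (Or.inl h2)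
    by_cases h3 : Nat.gcd (Nat.gcd d (dl t t').natAbs) t.2.natAbs < h ^ mm p
    · exact Or.inr (Or.inr (Or.inr (Or.inr ⟨_, hm _, hG, h3, h1, h2, hz _⟩)))
    · refine Or.inr (Or.inr (Or.inl ⟨_, ?_, not_lt.mp h3, Or.inr (Or.inl ?_)⟩))
      · exact Nat.mem_divisors.mpr ⟨(Nat.gcd_dvd_left _ _).trans (Nat.gcd_dvd_left _ _), hd0⟩
      · exact Int.natCast_dvd.mpr (Nat.gcd_dvd_right _ _)
  · exact Or.inr (Or.inr (Or.inl ⟨_, hm _, h6.trans hG, Or.inr (Or.inl (hz _))⟩))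
  · exact Or.inr (Or.inr (Or.inl ⟨_, hm _, h6.trans hG, Or.inr (Or.inr (hz _))⟩))
  · exact Or.inr (Or.inr (Or.inr (Or.inl ⟨_, hm _, h6.trans hG, Or.inr (Or.inl (hz _))⟩)))
  · exact Or.inr (Or.inr (Or.inr (Or.inl ⟨_, hm _, h6.trans hG, Or.inr (Or.inr (hz _))⟩)))

lemma Set0.mass_one (H : Set0 p c ϑ W C₁ Mx) (hD : p.Dp ≠ 0) {e h : ℕ} (hh : 1 ≤ h)
    (he : h ^ mm p ≤ e) :
    ∑ t ∈ Tset p c, wT p c t * ((if (e : ℤ) ∣ p.Gt t then 1 else 0) +
      (if (e : ℤ) ∣ t.2 then 1 else 0) + (if (e : ℤ) ∣ D0 p t then 1 else 0)) ≤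
      kk p * (W * C₁ * (C₁ / h + 1 / c.B)) := by
  have h1 : h ≤ e := (Nat.le_self_pow (by have := mm_pos p; omega) h).trans he
  have a1 := H.mass_le ((Tset p c).filter fun t => (e : ℤ) ∣ p.Gt t) (filter_subset _ _) h _ hh
    (card_le_gap2 _ _ _ Mx _ _ hh ((filter_subset _ _).trans H.box) fun b V hV hV' =>
      card_le_form p.G p.monic.ne_zero b V e h (mm p) hh
        (Nat.succ_le_succ (Nat.pow_le_pow_left (by omega) _)) he
        (fun a ha => (mem_filter.mp (hV a ha)).2) hV')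
  have a2 := H.mass_le ((Tset p c).filter fun t => (e : ℤ) ∣ t.2) (filter_subset _ _) h 1 hh
    (card_le_gap2' _ _ _ Mx _ 1 hh ((filter_subset _ _).trans H.box) fun b V hV hV' =>
      card_le_one_of_dvd V e h h1 (fun a ha a' ha' =>
        dvd_sub (mem_filter.mp (hV a ha)).2 (mem_filter.mp (hV a' ha')).2) hV')
  have a3 := H.mass_le ((Tset p c).filter fun t => (e : ℤ) ∣ D0 p t) (filter_subset _ _) h _ hh
    (card_le_gap2 _ _ _ Mx _ _ hh ((filter_subset _ _).trans H.box) fun b V hV hV' =>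
      card_le_form p.Dp hD b V e h (mm p) hh
        (Nat.succ_le_succ (Nat.pow_le_pow_left (by omega) _)) he
        (fun a ha => (mem_filter.mp (hV a ha)).2) hV')
  rw [sum_filter] at a1 a2 a3
  simp only [mul_add, sum_add_distrib, mul_ite, mul_one, mul_zero]
  refine (add_le_add (add_le_add a1 a2) a3).trans (le_of_eq ?_)
  rw [kk]
  push_cast
  ring

lemma Set0.mass_E1 (H : Set0 p c ϑ W C₁ Mx) (hD : p.Dp ≠ 0) (d : ℕ) {h : ℕ} (hh : 1 ≤ h) :
    ∑ t ∈ Tset p c, wT p c t * (if E1 p d h t then 1 else 0) ≤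
      d.divisors.card * (kk p * (W * C₁ * (C₁ / h + 1 / c.B))) := by
  have hB := H.Bpos
  have hW := H.W0
  have hC := H.C0
  calc _ ≤ ∑ t ∈ Tset p c, ∑ e ∈ d.divisors with h ^ mm p ≤ e, wT p c t *
        ((if (e : ℤ) ∣ p.Gt t then 1 else 0) + (if (e : ℤ) ∣ t.2 then 1 else 0) +
          (if (e : ℤ) ∣ D0 p t then 1 else 0)) := by
        refine sum_le_sum fun t ht => ?_
        rw [← mul_sum]
        refine mul_le_mul_of_nonneg_left ?_ (H.wT0 t ht).1
        have h0 : ∀ e ∈ d.divisors.filter fun e => h ^ mm p ≤ e, (0 : ℝ) ≤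
            (if (e : ℤ) ∣ p.Gt t then 1 else 0) + (if (e : ℤ) ∣ t.2 then 1 else 0) +
              (if (e : ℤ) ∣ D0 p t then 1 else 0) := fun e _ => by positivity
        split_ifs with hE
        · obtain ⟨e, h1, h2, h3⟩ := hE
          refine le_trans ?_ (single_le_sum h0 (mem_filter.mpr ⟨h1, h2⟩))
          split_ifs <;> first | (exfalso; tauto) | norm_num
        · exact sum_nonneg h0
    _ ≤ ∑ e ∈ d.divisors with h ^ mm p ≤ e, kk p * (W * C₁ * (C₁ / h + 1 / c.B)) := by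
        rw [sum_comm]
        exact sum_le_sum fun e he => H.mass_one hD hh (mem_filter.mp he).2
    _ ≤ _ := by
        rw [sum_const, nsmul_eq_mul]
        refine mul_le_mul_of_nonneg_right ?_ (by positivity)
        exact_mod_cast card_filter_le _ _

lemma Set0.cond_one (H : Set0 p c ϑ W C₁ Mx) (x x' : p.Pn) (t : ℤ × ℤ) (a : ℝ) (ha : 0 ≤ a) :
    ∑ t' ∈ Tset p c with IsQ p c x x' t t', x.1 * x'.1 * wT p c t' * a ≤ W * C₁ * (C₁ + 1) * a := by
  have hB := H.Bpos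
  have hW := H.W0
  have hC := H.C0
  have := H.cond_le x x' t (fun _ => True) 1 1 le_rfl le_rfl (fun _ _ _ => Nat.coprime_one_left _)
    (fun _ _ _ _ _ _ => by simp)
  rw [← sum_mul]
  refine mul_le_mul_of_nonneg_right (le_trans (le_of_eq ?_) (this.trans ?_)) ha
  · simp
  · have : 9 * c.y ^ 2 / c.B ≤ 1 := (div_le_one hB).mpr H.By
    simp only [Nat.cast_one, div_one]
    gcongr

lemma Set0.avg_le (H : Set0 p c ϑ W C₁ Mx) {a : ℝ} (ha : 0 ≤ a) :
    (∑ q ∈ Pset c.y c.N, wt p c.y c.N q * a) / c.N ≤ a := by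
  have hN : (0 : ℝ) < c.N := by exact_mod_cast H.Npos
  rw [← sum_mul, div_le_iff₀ hN, mul_comm]
  exact mul_le_mul_of_nonneg_left H.sum ha

lemma Set0.Qs_E1 (H : Set0 p c ϑ W C₁ Mx) (hD : p.Dp ≠ 0) (d : ℕ) {h : ℕ} (hh : 1 ≤ h) :
    Qs p c (fun _ _ t _ => if E1 p d h t then 1 else 0) ≤
      (2 * p.e) ^ 2 * (W * C₁ * (C₁ + 1)) * (d.divisors.card * (kk p * (W * C₁ * (C₁ / h + 1 / c.B)))) := by
  have hW := H.W0
  have hC := H.C0
  refine (H.Qs_le _ (fun _ => W * C₁ * (C₁ + 1)) (fun t => if E1 p d h t then 1 else 0)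
    (fun _ => by positivity) (fun _ => by positivity)
    fun x x' t => H.cond_one x x' t _ (by positivity)).trans ?_
  refine mul_le_mul (mul_le_mul_of_nonneg_left (H.avg_le (by positivity)) (by positivity))
    (H.mass_E1 hD d hh) (sum_nonneg fun t ht => mul_nonneg (H.wT0 t ht).1 (by positivity))
    (by positivity)

lemma Set0.sum_dvd (H : Set0 p c ϑ W C₁ Mx) {d : ℕ} (hd : 1 ≤ d) (hϑ : 0 ≤ ϑ) :
    ∑ q ∈ Pset c.y c.N, wt p c.y c.N q * (if q ∣ d then 1 else 0) ≤ d.divisors.card * ϑ := by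
  calc _ ≤ ∑ q ∈ Pset c.y c.N, if q ∈ d.divisors then ϑ else 0 := by
        refine sum_le_sum fun q hq => ?_
        by_cases h : q ∣ d
        · rw [if_pos h, if_pos (Nat.mem_divisors.mpr ⟨h, by omega⟩), mul_one]
          exact (H.pr q hq).2.2.2
        · rw [if_neg h, if_neg fun h' => h (Nat.mem_divisors.mp h').1, mul_zero]
    _ ≤ _ := by
        rw [sum_ite_mem, sum_const, nsmul_eq_mul]
        refine mul_le_mul_of_nonneg_right ?_ hϑ
        exact Nat.cast_le.mpr (card_le_card inter_subset_right)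

lemma Set0.Qs_pr (H : Set0 p c ϑ W C₁ Mx) {d : ℕ} (hd : 1 ≤ d) (hϑ : 0 ≤ ϑ) :
    Qs p c (fun x _ _ _ => if x.1 ∣ d then 1 else 0) ≤
      (2 * p.e) ^ 2 * (W * C₁ * (C₁ + 1)) * (d.divisors.card * ϑ) := by
  have hW := H.W0
  have hC := H.C0
  have hN : (1 : ℝ) ≤ c.N := by exact_mod_cast H.Npos
  have hK : 0 ≤ W * C₁ * (C₁ + 1) := by positivity
  have h0 : ∀ q : ℕ, (0 : ℝ) ≤ if q ∣ d then 1 else 0 := fun q => by split_ifs <;> norm_num
  have a0 := H.Qs_le (fun x _ _ _ => if x.1 ∣ d then 1 else 0) (fun q => if q ∣ d then 1 else 0)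
    (fun _ => W * C₁ * (C₁ + 1)) h0 (fun _ => hK)
    fun x x' t => (H.cond_one x x' t _ (h0 x.1)).trans (le_of_eq (mul_comm _ _))
  have a1 := H.sum_dvd hd hϑ
  have a2 : ∑ t ∈ Tset p c, wT p c t * (W * C₁ * (C₁ + 1)) ≤ W * C₁ * (C₁ + 1) := by
    rw [← sum_mul]
    exact mul_le_of_le_one_left hK H.wT1
  have a3 : 0 ≤ ∑ t ∈ Tset p c, wT p c t * (W * C₁ * (C₁ + 1)) :=
    sum_nonneg fun t ht => mul_nonneg (H.wT0 t ht).1 hK
  have a4 : 0 ≤ (d.divisors.card : ℝ) * ϑ := by positivity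
  calc _ ≤ _ := a0
    _ ≤ (2 * p.e) ^ 2 * (d.divisors.card * ϑ) * (W * C₁ * (C₁ + 1)) := by
        refine mul_le_mul (mul_le_mul_of_nonneg_left ?_ (by positivity)) a2 a3 (by positivity)
        exact (div_le_div_of_nonneg_right a1 (by linarith)).trans (div_le_self a4 hN)
    _ = _ := by ring

lemma Set0.Qs_E3 (H : Set0 p c ϑ W C₁ Mx) {d h e : ℕ} (hh : 1 ≤ h) (he : e ∈ d.divisors) :
    Qs p c (fun x x' t t' => if E3 p d h e x x' t t' then 1 else 0) ≤
      (2 * p.e) ^ 2 * (W * C₁ * (C₁ / h + 9 * c.y ^ 2 / c.B)) := by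
  have hB := H.Bpos
  have hW := H.W0
  have hC := H.C0
  have hed := (Nat.mem_divisors.mp he).1
  have he0 : 0 < e := Nat.pos_of_mem_divisors he
  refine (H.Qs_le _ (fun _ => W * C₁ * (C₁ / h + 9 * c.y ^ 2 / c.B)) (fun _ => 1)
    (fun _ => by positivity) (fun _ => by positivity) fun x x' t => ?_).trans ?_
  · rw [mul_one]
    by_cases h0 : h ^ (2 * mm p) ≤ e ∧ Nat.gcd e t.2.natAbs < h ^ mm p
    swap
    · refine le_trans (le_of_eq (sum_eq_zero fun t' _ => ?_)) (by positivity)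
      rw [if_neg fun hE => h0 ⟨hE.1, hE.2.1⟩, mul_zero]
    have hg : 0 < Nat.gcd e t.2.natAbs := Nat.gcd_pos_of_pos_left _ he0
    obtain ⟨g, b, hcop, e1, e2⟩ := Nat.exists_coprime e t.2.natAbs
    have hgd : g ∣ d := (Dvd.intro _ e1.symm).trans hed
    refine H.cond_le x x' t (E3 p d h e x x' t) h g hh ?_ ?_ ?_
    · by_contra hlt
      have h1 : g * Nat.gcd e t.2.natAbs ≤ h * h ^ mm p := Nat.mul_le_mul (not_le.mp hlt).le h0.2.le
      have h2 : g * Nat.gcd e t.2.natAbs < h * h ^ mm p :=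
        Nat.mul_lt_mul_of_lt_of_le (not_le.mp hlt) h0.2.le (by positivity)
      have h3 : h * h ^ mm p ≤ h ^ (2 * mm p) := by
        rw [← pow_succ']; exact Nat.pow_le_pow_right hh (by have := mm_pos p; omega)
      omega
    · intro t' hq hE
      have p1 := (H.pr _ (fst_mem_Pset hq.hx)).1
      have p2 := (H.pr _ (fst_mem_Pset hq.hx')).1
      exact Nat.Coprime.mul_right
        ((Nat.Prime.coprime_iff_not_dvd p1).mpr fun h' => hE.2.2.1 (h'.trans hgd)).symm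
        ((Nat.Prime.coprime_iff_not_dvd p2).mpr fun h' => hE.2.2.2.1 (h'.trans hgd)).symm
    · intro a a' b' _ hE hE'
      have h1 : (e : ℤ) ∣ (a - a') * t.2 := by
        have := dvd_sub hE'.2.2.2.2 hE.2.2.2.2
        simp only [dl] at this
        rwa [show t.1 * b' - a' * t.2 - (t.1 * b' - a * t.2) = (a - a') * t.2 by ring] at this
      rw [Int.natCast_dvd, Int.natAbs_mul] at h1
      rw [Int.natCast_dvd]
      generalize Nat.gcd e t.2.natAbs = G at hg e1 e2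
      rw [e2, e1, ← mul_assoc] at h1
      exact hcop.dvd_of_dvd_mul_right (Nat.dvd_of_mul_dvd_mul_right hg h1)
  · have a2 : ∑ t ∈ Tset p c, wT p c t * 1 ≤ 1 := by simpa using H.wT1
    have a3 : 0 ≤ ∑ t ∈ Tset p c, wT p c t * 1 :=
      sum_nonneg fun t ht => mul_nonneg (H.wT0 t ht).1 zero_le_one
    refine (mul_le_mul (mul_le_mul_of_nonneg_left (H.avg_le (by positivity)) (by positivity)) a2 a3
      (by positivity)).trans (le_of_eq (mul_one _))

/-- the main estimate -/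
lemma Set0.core (H : Set0 p c ϑ W C₁ Mx) (hD : p.Dp ≠ 0) {d h : ℕ} (hd : 1 ≤ d) (hh : 1 ≤ h) (hϑ : 0 ≤ ϑ)
    (hc : h = 1 ∨ 4 * p.r ^ (2 * (p.n0 + 1)) * h ^ TT p ≤ d) :
    Qs p c (fun x x' t t' => if dl t t' ≠ 0 ∧ d ∣ nn p x x' t t' ^ 2 then 1 else 0) ≤
      d.divisors.card * (2 * (2 * p.e) ^ 2 * (W * C₁ * (C₁ + 1)) * (ϑ + kk p * (W * C₁ * (C₁ / h + 1 / c.B))) +
        (2 * p.e) ^ 2 * (W * C₁ * (C₁ / h + 9 * c.y ^ 2 / c.B))) := by
  have a1 := H.Qs_pr hd hϑ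
  have a2 := a1
  rw [Qs_swapX] at a2
  have a3 := H.Qs_E1 hD d hh
  have a4 := a3
  rw [Qs_swapT] at a4
  have a5 : Qs p c (fun x x' t t' => ∑ e ∈ d.divisors, if E3 p d h e x x' t t' then 1 else 0) ≤
      d.divisors.card * ((2 * p.e) ^ 2 * (W * C₁ * (C₁ / h + 9 * c.y ^ 2 / c.B))) := by
    rw [Qs_sum d.divisors fun e x x' t t' => if E3 p d h e x x' t t' then 1 else 0, ← nsmul_eq_mul]
    exact sum_le_card_nsmul _ _ _ fun e he => H.Qs_E3 hh he
  have a6 := add_le_add (add_le_add (add_le_add (add_le_add a1 a2) a3) a4) a5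
  rw [← Qs_add, ← Qs_add, ← Qs_add, ← Qs_add] at a6
  refine (H.Qs_mono fun x x' t t' hq => ?_).trans (a6.trans (le_of_eq (by ring)))
  have b5 : ∀ e ∈ d.divisors, (0 : ℝ) ≤ if E3 p d h e x x' t t' then 1 else 0 :=
    fun e _ => by positivity
  have b6 := sum_nonneg b5
  have b1 : (0 : ℝ) ≤ if x.1 ∣ d then 1 else 0 := by positivity
  have b2 : (0 : ℝ) ≤ if x'.1 ∣ d then 1 else 0 := by positivity
  have b3 : (0 : ℝ) ≤ if E1 p d h t then 1 else 0 := by positivity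
  have b4 : (0 : ℝ) ≤ if E1 p d h t' then 1 else 0 := by positivity
  by_cases hE : dl t t' ≠ 0 ∧ d ∣ nn p x x' t t' ^ 2
  · rw [if_pos hE]
    rcases cover (H.pr _ (fst_mem_Pset hq.hx)).1 (H.pr _ (fst_mem_Pset hq.hx')).1 hd hh hc hE.2
      with k | k | k | k | ⟨e, he, k⟩
    · rw [if_pos k]; linarith
    · rw [if_pos k]; linarith
    · rw [if_pos k]; linarith
    · rw [if_pos k]; linarith
    · have := single_le_sum b5 he
      rw [if_pos k] at this
      linarith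
  · rw [if_neg hE]; linarith

end Pool.Agent.P.MP_b8021b_nt.VC.Dvd
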