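import Mathlib

/-! Powers of sums over primes of a monoid and the inequality of Bombieri. -/

namespace Pool.Agent.P.MP_b8021b_nt.VC.E2

open Finset
open scoped Classical ComplexConjugate

theorem bombieri {ι κ : Type} (F : Finset ι) (T : Finset κ) (φ : ι → κ → ℂ) (a : κ → ℂ) {Δ : ℝ}
    (hΔ : 0 ≤ Δ) (h : ∀ i ∈ F, ∑ j ∈ F, ‖∑ n ∈ T, φ i n * conj (φ j n)‖ ≤ Δ) :
    ∑ i ∈ F, ‖∑ n ∈ T, a n * φ i n‖ ^ 2 ≤ Δ * ∑ n ∈ T, ‖a n‖ ^ 2 := by
  set S : ι → ℂ := fun i => ∑ n ∈ T, a n * φ i n with hS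
  set G : ι → ι → ℂ := fun i j => ∑ n ∈ T, φ i n * conj (φ j n) with hG
  set b : κ → ℂ := fun n => ∑ i ∈ F, conj (S i) * φ i n with hb
  set U := ∑ i ∈ F, ‖S i‖ ^ 2 with hU
  have U0 : 0 ≤ U := sum_nonneg fun _ _ => by positivity
  have A0 : 0 ≤ ∑ n ∈ T, ‖a n‖ ^ 2 := sum_nonneg fun _ _ => by positivity
  have e1 : (U : ℂ) = ∑ n ∈ T, a n * b n := by
    simp only [hb, mul_sum]
    rw [sum_comm, hU, Complex.ofReal_sum]
    refine sum_congr rfl fun i _ => ?_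
    rw [Complex.ofReal_pow, ← Complex.conj_mul', hS]
    simp only
    rw [mul_sum]
    exact sum_congr rfl fun n _ => by ring
  have e2 : U ≤ ∑ n ∈ T, ‖a n‖ * ‖b n‖ := by
    rw [← Real.norm_of_nonneg U0, ← Complex.norm_real, e1]
    exact (norm_sum_le _ _).trans (le_of_eq (sum_congr rfl fun n _ => norm_mul _ _))
  have e3 : ((∑ n ∈ T, ‖b n‖ ^ 2 : ℝ) : ℂ) = ∑ i ∈ F, ∑ j ∈ F, conj (S i) * S j * G i j := by
    rw [Complex.ofReal_sum]
    calc _ = ∑ n ∈ T, ∑ i ∈ F, ∑ j ∈ F, conj (S i) * S j * (φ i n * conj (φ j n)) := by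
          refine sum_congr rfl fun n _ => ?_
          rw [Complex.ofReal_pow, ← Complex.mul_conj', hb]
          simp only [map_sum, map_mul, Complex.conj_conj]
          rw [sum_mul_sum]
          exact sum_congr rfl fun i _ => sum_congr rfl fun j _ => by ring
      _ = _ := by
          rw [sum_comm]
          refine sum_congr rfl fun i _ => ?_
          rw [sum_comm]
          exact sum_congr rfl fun j _ => (mul_sum _ _ _).symm
  have sy : ∀ i j, ‖G j i‖ = ‖G i j‖ := fun i j => by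
    rw [← Complex.norm_conj, hG]
    simp only [map_sum, map_mul, Complex.conj_conj]
    exact congrArg _ (sum_congr rfl fun n _ => mul_comm _ _)
  have e4 : ∑ n ∈ T, ‖b n‖ ^ 2 ≤ Δ * U := by
    have h1 : ∑ i ∈ F, ∑ j ∈ F, ‖S i‖ ^ 2 * ‖G i j‖ ≤ Δ * U := by
      rw [hU, mul_sum]
      refine sum_le_sum fun i hi => ?_
      rw [← mul_sum, mul_comm]
      exact mul_le_mul_of_nonneg_right (h i hi) (by positivity)
    have h2 : ∑ i ∈ F, ∑ j ∈ F, ‖S j‖ ^ 2 * ‖G i j‖ = ∑ i ∈ F, ∑ j ∈ F, ‖S i‖ ^ 2 * ‖G i j‖ := by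
      rw [sum_comm]
      exact sum_congr rfl fun i _ => sum_congr rfl fun j _ => by rw [sy]
    have h3 : ∑ n ∈ T, ‖b n‖ ^ 2 ≤
        ∑ i ∈ F, ∑ j ∈ F, (‖S i‖ ^ 2 * ‖G i j‖ + ‖S j‖ ^ 2 * ‖G i j‖) / 2 := by
      rw [← Real.norm_of_nonneg (sum_nonneg fun n _ => sq_nonneg ‖b n‖), ← Complex.norm_real, e3]
      refine (norm_sum_le _ _).trans (sum_le_sum fun i _ => (norm_sum_le _ _).trans
        (sum_le_sum fun j _ => ?_))
      rw [norm_mul, norm_mul, Complex.norm_conj]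
      nlinarith [mul_nonneg (sq_nonneg (‖S i‖ - ‖S j‖)) (norm_nonneg (G i j))]
    simp only [← sum_div, sum_add_distrib] at h3
    linarith
  have e5 := sum_mul_sq_le_sq_mul_sq T (fun n => ‖a n‖) fun n => ‖b n‖
  have e6 : U ^ 2 ≤ (∑ n ∈ T, ‖a n‖ ^ 2) * (Δ * U) :=
    (pow_le_pow_left₀ U0 e2 2).trans (e5.trans (mul_le_mul_of_nonneg_left e4 A0))
  rcases U0.eq_or_lt with h0 | h0
  · rw [← h0]; positivity
  · refine le_of_mul_le_mul_right ?_ h0
    nlinarith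

variable {M : Type} [CommMonoidWithZero M] [IsCancelMulZero M] [Subsingleton Mˣ] {s T : Finset M}
  {w : M → ℝ} {W : ℝ} {k : ℕ}

/-- coefficients of a power of a sum -/
noncomputable def co (s : Finset M) (w : M → ℝ) (k : ℕ) (n : M) : ℝ :=
  ∑ f ∈ (Fintype.piFinset fun _ : Fin k => s) with ∏ j, f j = n, ∏ j, w (f j)

omit [IsCancelMulZero M] [Subsingleton Mˣ] in
theorem pow_eq (hT : ∀ f ∈ Fintype.piFinset fun _ : Fin k => s, ∏ j, f j ∈ T) (w : M → ℝ)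
    (χ : M →* ℂ) : (∑ q ∈ s, (w q : ℂ) * χ q) ^ k = ∑ n ∈ T, (co s w k n : ℂ) * χ n := by
  rw [sum_pow', ← sum_fiberwise_of_maps_to (g := fun f : Fin k → M => ∏ j, f j) hT]
  refine sum_congr rfl fun n _ => ?_
  rw [co, Complex.ofReal_sum, sum_mul]
  refine sum_congr rfl fun f hf => ?_
  rw [← (mem_filter.1 hf).2, prod_mul_distrib, Complex.ofReal_prod, map_prod]

omit [IsCancelMulZero M] [Subsingleton Mˣ] in
theorem co_sum (hT : ∀ f ∈ Fintype.piFinset fun _ : Fin k => s, ∏ j, f j ∈ T) (w : M → ℝ) :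
    ∑ n ∈ T, co s w k n = (∑ q ∈ s, w q) ^ k := by
  rw [sum_pow', ← sum_fiberwise_of_maps_to (g := fun f : Fin k → M => ∏ j, f j) hT]
  rfl

theorem card_fib (hs : ∀ q ∈ s, Prime q) (k : ℕ) (n : M) :
    ((Fintype.piFinset fun _ : Fin k => s).filter fun f => ∏ j, f j = n).card ≤ k ^ k := by
  rcases ((Fintype.piFinset fun _ : Fin k => s).filter fun f => ∏ j, f j = n).eq_empty_or_nonempty
    with h | ⟨f, hf⟩
  · simp [h]
  obtain ⟨hf1, hf2⟩ := mem_filter.1 hf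
  rw [Fintype.mem_piFinset] at hf1
  have h1 : ((Fintype.piFinset fun _ : Fin k => s).filter fun f => ∏ j, f j = n) ⊆
      Fintype.piFinset fun _ : Fin k => univ.image f := fun g hg => by
    obtain ⟨hg1, hg2⟩ := mem_filter.1 hg
    rw [Fintype.mem_piFinset] at hg1 ⊢
    intro j
    have h2 : g j ∣ ∏ j, f j := by
      rw [hf2, ← hg2]; exact dvd_prod_of_mem _ (mem_univ j)
    obtain ⟨i, -, hi⟩ := (Prime.dvd_finsetProd_iff (hs _ (hg1 j)) _).1 h2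
    exact mem_image.2 ⟨i, mem_univ _,
      ((prime_dvd_prime_iff_eq (hs _ (hg1 j)) (hs _ (hf1 i))).1 hi).symm⟩
  refine (card_le_card h1).trans ?_
  rw [Fintype.card_piFinset, prod_const, card_univ, Fintype.card_fin]
  exact Nat.pow_le_pow_left (card_image_le.trans (by simp)) _

omit [IsCancelMulZero M] [Subsingleton Mˣ] in
theorem co_nonneg (hw : ∀ q ∈ s, 0 ≤ w q) (k : ℕ) (n : M) : 0 ≤ co s w k n :=
  sum_nonneg fun _ hf => prod_nonneg fun j _ => hw _ (Fintype.mem_piFinset.1 (mem_filter.1 hf).1 j)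

theorem co_le (hs : ∀ q ∈ s, Prime q) (hW : 0 ≤ W) (hw : ∀ q ∈ s, 0 ≤ w q ∧ w q ≤ W) (k : ℕ)
    (n : M) : co s w k n ≤ (k * W) ^ k := by
  refine (sum_le_card_nsmul _ _ (W ^ k) fun f hf => ?_).trans ?_
  · have h := Fintype.mem_piFinset.1 (mem_filter.1 hf).1
    calc ∏ j, w (f j) ≤ ∏ _j : Fin k, W :=
          prod_le_prod (fun j _ => (hw _ (h j)).1) fun j _ => (hw _ (h j)).2
      _ = W ^ k := by simp
  · rw [nsmul_eq_mul, mul_pow]
    gcongr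
    exact_mod_cast card_fib hs k n

/-- the large sieve for a power -/
theorem ls_pow {ι : Type} (F : Finset ι) (φ : ι → M →* ℂ) {Δ : ℝ} (hΔ : 0 ≤ Δ)
    (h : ∀ i ∈ F, ∑ j ∈ F, ‖∑ n ∈ T, φ i n * conj (φ j n)‖ ≤ Δ)
    (hT : ∀ f ∈ Fintype.piFinset fun _ : Fin k => s, ∏ j, f j ∈ T) (hs : ∀ q ∈ s, Prime q)
    (hW : 0 ≤ W) (hw : ∀ q ∈ s, 0 ≤ w q ∧ w q ≤ W) (h2 : ∑ q ∈ s, w q ≤ 2) :
    ∑ i ∈ F, ‖∑ q ∈ s, (w q : ℂ) * φ i q‖ ^ (2 * k) ≤ Δ * (2 * k * W) ^ k := by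
  have h1 := bombieri F T (fun i n => φ i n) (fun n => co s w k n) hΔ h
  simp only [← pow_eq hT, norm_pow, ← pow_mul, mul_comm k 2] at h1
  refine h1.trans (mul_le_mul_of_nonneg_left ?_ hΔ)
  calc _ ≤ ∑ n ∈ T, (k * W) ^ k * co s w k n := sum_le_sum fun n _ => by
        have h0 := co_nonneg (fun q hq => (hw q hq).1) k n
        rw [Complex.norm_real, Real.norm_of_nonneg h0, sq]
        exact mul_le_mul_of_nonneg_right (co_le hs hW hw k n) h0
    _ ≤ (k * W) ^ k * 2 ^ k := by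
        rw [← mul_sum, co_sum hT]
        gcongr
        exact sum_nonneg fun q hq => (hw q hq).1
    _ = _ := by rw [← mul_pow]; ring

end Pool.Agent.P.MP_b8021b_nt.VC.E2
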