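import Pool.Agent.P.MP_b8021b_nt.VC.StG
import Pool.Agent.P.MP_b8021b_nt.VC.StH
import Pool.Agent.P.MP_b8021b_nt.VC.StT
import Pool.Agent.P.MP_b8021b_nt.VC.BasicN
import Pool.Agent.P.MP_b8021b_nt.VC.PE21
import Pool.Agent.P.MP_b8021b_nt.VE.StN

/-! Primitive characters of the base field and their orthogonality. -/

namespace Pool.Agent.P.MP_b8021b_nt.VC.E2

open NumberField Finset Pool.Agent.P.MP_b8021b_nt.VE
open scoped Classical ComplexConjugate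

variable {k : Type} [Field k] [NumberField k]

variable (k) in
/-- the ideals with norm in `S` -/
noncomputable def idl (S : Finset ℕ) : Finset (Ideal (𝓞 k)) :=
  S.biUnion fun m => (finite_absNorm (E := k) m).toFinset

lemma mem_idl {S : Finset ℕ} {I : Ideal (𝓞 k)} : I ∈ idl k S ↔ Ideal.absNorm I ∈ S := by
  simp [idl]

lemma sum_idl (S : Finset ℕ) (F : ℕ → ℂ) (χ : Ideal (𝓞 k) → ℂ) :
    ∑ I ∈ idl k S, F (Ideal.absNorm I) * χ I = ∑ m ∈ S, F m * lam χ m := by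
  rw [← sum_fiberwise_of_maps_to (g := fun I : Ideal (𝓞 k) => Ideal.absNorm I) (t := S)
    fun I hI => mem_idl.1 hI]
  refine sum_congr rfl fun m hm => ?_
  rw [lam_eq_sum, mul_sum]
  refine sum_congr ?_ fun I hI => by rw [show Ideal.absNorm I = m by simpa using hI]
  ext I
  rw [mem_filter, mem_idl, Set.Finite.mem_toFinset]
  exact ⟨fun h => h.2, fun h => ⟨(show Ideal.absNorm I = m from h) ▸ hm, h⟩⟩

lemma sum_idl' (S : Finset ℕ) (χ : Ideal (𝓞 k) → ℂ) :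
    ∑ I ∈ idl k S, χ I = ∑ m ∈ S, lam χ m := by
  simpa using sum_idl S (fun _ => 1) χ

lemma prime_of {I : Ideal (𝓞 k)} (h : (Ideal.absNorm I).Prime) : Prime I :=
  UniqueFactorizationMonoid.irreducible_iff_prime.1 (Ideal.irreducible_of_irreducible_absNorm h)

lemma prod_mem {s : Finset ℕ} {Y κ : ℕ} (hs : ∀ q ∈ s, q.Prime ∧ q ≤ Y) :
    ∀ f ∈ Fintype.piFinset fun _ : Fin κ => idl k s, ∏ j, f j ∈ idl k (Icc 1 (Y ^ κ)) := by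
  intro f hf
  rw [Fintype.mem_piFinset] at hf
  rw [mem_idl, map_prod]
  refine mem_Icc.2 ⟨Nat.one_le_iff_ne_zero.2 (prod_ne_zero_iff.2 fun j _ =>
    (hs _ (mem_idl.1 (hf j))).1.ne_zero), ?_⟩
  simpa using prod_le_pow_card univ (fun j => Ideal.absNorm (f j)) Y
    fun j _ => (hs _ (mem_idl.1 (hf j))).2

variable [Algebra k ℂ] {Kb : ℝ} {d d' m : ℕ} {j j' : ℤ} {ξ ξ' : Ideal (𝓞 k) →* ℂ}

lemma norm_lam_le (hLam : VE.S_Lam) (K : BF k) {χ : Ideal (𝓞 k) → ℂ} (h : ∀ I, ‖χ I‖ ≤ 1) {q : ℕ}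
    (hq : q.Prime) : ‖lam χ q‖ ≤ 4 := by
  have := (hLam k).2.1 χ q hq.one_le h
  rw [K.deg, hq.divisors, card_pair hq.one_lt.ne] at this
  norm_num at this
  exact this

lemma norm_sum_le_two (hLam : VE.S_Lam) (K : BF k) {χ : Ideal (𝓞 k) → ℂ} (h : ∀ I, ‖χ I‖ ≤ 1)
    {s : Finset ℕ} {w : ℕ → ℝ} (hs : ∀ q ∈ s, q.Prime) (hw : ∀ q ∈ s, 0 ≤ w q)
    (h1 : ∑ q ∈ s, 2 * w q = 1) : ‖∑ q ∈ s, (w q : ℂ) * lam χ q‖ ≤ 2 := by
  refine (norm_sum_le _ _).trans ((sum_le_sum (g := fun q => 2 * (2 * w q)) fun q hq => ?_).trans ?_)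
  · rw [norm_mul, Complex.norm_real, Real.norm_of_nonneg (hw q hq)]
    linarith [mul_le_mul_of_nonneg_left (norm_lam_le hLam K h (hs q hq)) (hw q hq)]
  · rw [← mul_sum, h1, mul_one]

lemma sum_w_le (hLam : VE.S_Lam) (K : BF k) {s : Finset ℕ} {w : ℕ → ℝ} (hs : ∀ q ∈ s, q.Prime)
    (hw : ∀ q ∈ s, 0 ≤ w q) (h1 : ∑ q ∈ s, 2 * w q = 1) :
    ∑ I ∈ idl k s, w (Ideal.absNorm I) ≤ 2 := by
  have := norm_sum_le_two hLam K (χ := fun _ => 1) (fun _ => norm_one.le) hs hw h1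
  rw [← sum_idl s (fun q => (w q : ℂ))] at this
  simp only [mul_one, ← Complex.ofReal_sum, Complex.norm_real] at this
  exact (le_abs_self _).trans this

lemma isSquare_of (K : BF k) {I : Ideal (𝓞 k)} {q : ℕ} (hq : q.Prime) (h : Ideal.absNorm I = q) :
    IsSquare (K.D : ZMod q) := by
  have h0 : I ≠ ⊥ := fun e => hq.ne_zero (by rw [← h, e, Ideal.absNorm_bot])
  have : Finite (𝓞 k ⧸ I) := Ideal.finiteQuotientOfFreeOfNeBot I h0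
  have := Fintype.ofFinite (𝓞 k ⧸ I)
  have e := ZMod.ringEquivOfPrime (𝓞 k ⧸ I) hq (by
    rw [← h, Ideal.absNorm_apply, Submodule.cardQuot_apply, Nat.card_eq_fintype_card])
  refine ⟨e.symm (Ideal.Quotient.mk I K.ω), ?_⟩
  rw [← map_mul, ← map_mul, ← sq, K.sq, map_intCast, map_intCast]

lemma lam_nspl (K : BF k) {r q : ℕ} (hD : K.D = -r) (hq : q.Prime) (h2 : ¬ q ∣ 2 * r)
    (h : ¬ spl r q) (χ : Ideal (𝓞 k) → ℂ) : lam χ q = 0 :=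
  finsum_mem_eq_zero_of_forall_eq_zero fun I hI => absurd ⟨h2, by
    simpa [hD] using isSquare_of K hq hI⟩ h

lemma of_Chs (h : ξ ∈ Chs k m Kb 0) : ∃ j : ℤ, |(j : ℝ)| < Kb ∧ IsK m j ξ := by
  obtain ⟨κ, τ, h1, h2, h3⟩ := h
  obtain rfl : τ = 0 := funext fun φ => abs_nonpos_iff.1 (h2 φ)
  refine ⟨κ (Algebra.ofId k ℂ), h1 _, ?_⟩
  have : κ = fun _ => κ (Algebra.ofId k ℂ) := funext fun φ => congrArg κ (Subsingleton.elim _ _)
  rw [this] at h3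
  exact h3

lemma Chs_mono : Chs k (E := k) m Kb 0 ⊆ Chs k m Kb 1 := fun _ ⟨κ, τ, h1, h2, h3⟩ =>
  ⟨κ, τ, h1, fun φ => (h2 φ).trans zero_le_one, h3⟩

/-- a nontrivial character that does not come from a smaller even modulus -/
def Pr (Kb : ℝ) (d : ℕ) (ξ : Ideal (𝓞 k) →* ℂ) : Prop :=
  2 ≤ d ∧ 2 ∣ d ∧ ¬ IsTriv d ξ ∧ ∃ j : ℤ, |(j : ℝ)| < Kb ∧ IsK d j ξ ∧
    ∀ (d' : ℕ) (ξ' : Ideal (𝓞 k) →* ℂ), 2 ∣ d' → d' ∣ d → IsK d' j ξ' →
      (∀ I, Cop d I → ξ I = ξ' I) → d ≤ d'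

lemma Pr.mem (h : Pr Kb d ξ) : ξ ∈ Chs k d Kb 1 := by
  obtain ⟨-, -, -, j, h1, h2, -⟩ := h
  exact ⟨fun _ => j, 0, fun _ => h1, fun _ => by simp, h2⟩

lemma Pr.isChar (h : Pr Kb d ξ) : IsChar d ξ := by
  obtain ⟨-, -, -, j, -, h2, -⟩ := h
  exact h2.toIsChar

lemma exists_pr (hm : 1 ≤ m) (h2 : 2 ∣ m) (h : ξ ∈ Chs k m Kb 0) (ht : ¬ IsTriv m ξ) :
    ∃ d, d ∣ m ∧ ∃ ξ₀, Pr Kb d ξ₀ ∧ ∀ I, Cop m I → ξ I = ξ₀ I := by
  obtain ⟨j, j1, j2⟩ := of_Chs h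
  have ex : ∃ d : ℕ, 2 ∣ d ∧ d ∣ m ∧ ∃ ξ₀, IsK d j ξ₀ ∧ ∀ I, Cop m I → ξ I = ξ₀ I :=
    ⟨m, h2, dvd_rfl, ξ, j2, fun _ _ => rfl⟩
  obtain ⟨a1, a2, ξ₀, a3, a4⟩ := Nat.find_spec ex
  refine ⟨_, a2, ξ₀, ⟨Nat.le_of_dvd (Nat.pos_of_dvd_of_pos a2 hm) a1, a1,
    fun t => ht fun I hI => (a4 I hI).trans (t I (Cop_of_dvd hI a2)), j, j1, a3,
    fun d' ξ' b1 b2 b3 b4 => Nat.find_min' ex ⟨b1, b2.trans a2, ξ', b3,
      fun I hI => (a4 I hI).trans (b4 I (Cop_of_dvd hI a2))⟩⟩, a4⟩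

lemma isK_mul (hd : 2 ≤ d) (h : IsK d j ξ) (h' : IsK d' j' ξ') :
    IsK (d * d') (j - j') (ξ * cj ξ') where
  norm_cop I hI := by
    rw [MonoidHom.mul_apply, cj_apply, norm_mul, Complex.norm_conj, h.norm_cop I (cop_mul_nat.1 hI).1,
      h'.norm_cop I (cop_mul_nat.1 hI).2, one_mul]
  zero I hI := by
    rw [MonoidHom.mul_apply, cj_apply]
    rcases not_and_or.1 (mt cop_mul_nat.2 hI) with c | c
    · rw [h.zero I c, zero_mul]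
    · rw [h'.zero I c, map_zero, mul_zero]
  sum := by simp
  prin α hα := by
    have a1 := (Nat.cast_dvd_cast (α := 𝓞 k) (dvd_mul_right d d')).trans hα
    have a2 := (Nat.cast_dvd_cast (α := 𝓞 k) (dvd_mul_left d' d)).trans hα
    have a3 := emb_ne_zero (k := k) (ne_zero_of_dvd hd a1)
    rw [MonoidHom.mul_apply, cj_apply, h.prin α a1, h'.prin α a2, ← ty_neg _ _ a3, ← ty_add _ _ _ _ a3]
    rw [neg_zero, add_zero]
    rfl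

lemma orth (hG : S_Gcd) (K : BF k) (h : Pr Kb d ξ) (h' : Pr Kb d' ξ')
    (ht : IsTriv (d * d') (ξ * cj ξ')) : d = d' ∧ ξ = ξ' := by
  obtain ⟨a1, a2, -, j, -, a3, a4⟩ := h
  obtain ⟨b1, b2, -, j', -, b3, b4⟩ := h'
  have g2 : 2 ∣ d.gcd d' := Nat.dvd_gcd a2 b2
  obtain ⟨rfl, ξ₀, c1, c2, c3⟩ := hG k K d d' j j' ξ ξ' (by omega) (by omega)
    (Nat.le_of_dvd (Nat.gcd_pos_of_pos_left _ (by omega)) g2) a3 b3 fun I hI => by
      have e1 := ht I hI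
      have e2 := char_mul_conj b3.toIsChar (cop_mul_nat.1 hI).2
      rw [MonoidHom.mul_apply, cj_apply] at e1
      exact mul_right_cancel₀ (right_ne_zero_of_mul_eq_one e2) (e1.trans e2.symm)
  have e1 := a4 _ ξ₀ g2 (Nat.gcd_dvd_left _ _) c1 c2
  have e2 := b4 _ ξ₀ g2 (Nat.gcd_dvd_right _ _) c1 c3
  have e3 := Nat.gcd_le_left d' (show 0 < d by omega)
  have e4 := Nat.gcd_le_right d (show 0 < d' by omega)
  obtain rfl : d = d' := by omega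
  exact ⟨rfl, char_ext a3.toIsChar b3.toIsChar fun I hI => (c2 I hI).trans (c3 I hI).symm⟩

variable (k) in
/-- the primitive characters of modulus `d` -/
noncomputable def prim (Kb : ℝ) (d : ℕ) : Finset (Ideal (𝓞 k) →* ℂ) :=
  if h : {ξ : Ideal (𝓞 k) →* ℂ | Pr Kb d ξ}.Finite then h.toFinset else ∅

lemma pr_of_mem (h : ξ ∈ prim k Kb d) : Pr Kb d ξ := by
  unfold prim at h
  split_ifs at h with hf
  · simpa using h
  · simp at h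

/-- the analytic input -/
structure Inp (k : Type) [Field k] [NumberField k] [Algebra k ℂ] (Q A₀ : ℝ) (C : ℕ) : Prop where
  hQ : 2 ≤ Q
  hA : 0 ≤ A₀
  num : ∀ (Kb : ℝ) (n : ℕ), 2 ≤ n → 1 ≤ Kb → (Chs k (E := k) n Kb 1).Finite ∧
    ((Chs k (E := k) n Kb 1).ncard : ℝ) ≤ (Q * n * Kb) ^ C
  diag : ∀ X : ℕ, 1 ≤ X → ‖∑ j ∈ Icc 1 X, lam (triv k 2) j‖ ≤ A₀ * X
  off : ∀ (X n : ℕ) (Kb : ℝ) (j : ℤ) (ξ : Ideal (𝓞 k) →* ℂ), 2 ≤ n → 1 ≤ Kb → |(j : ℝ)| ≤ Kb →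
    IsK n j ξ → ¬ IsTriv n ξ → ‖∑ j ∈ Icc 1 X, lam ξ j‖ ≤ (Q * n * Kb) ^ C * (X : ℝ) ^ (3 / 4 : ℝ)

lemma inp (hE : S_Emb) (hP : S_PSs) (hN : S_NumCh) (K : BF k) : ∃ Q A₀ C, Inp k Q A₀ C := by
  obtain ⟨_, h0⟩ := hE k K 1
  obtain ⟨-, -, -, -, -, -, -, -, ⟨Q, Q2, hQ⟩, -⟩ := h0 k (Module.finrank_self k)
  obtain ⟨C1, h1⟩ := hN k K 1
  obtain ⟨C2, h2⟩ := hP k K 1
  have e : (1 - 1 / (4 * ((1 : ℕ) : ℝ)) : ℝ) = 3 / 4 := by norm_num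
  have b : ∀ (n : ℕ) (Kb : ℝ), 2 ≤ n → 1 ≤ Kb → 1 ≤ Q * n * Kb := fun n Kb hn hK => by
    have : (2 : ℝ) ≤ n := by exact_mod_cast hn
    exact one_le_mul_of_one_le_of_one_le (by nlinarith) hK
  obtain ⟨r0, -, r1, -⟩ := h2 k (Module.finrank_self k) Q 2 Q2 hQ le_rfl
  refine ⟨Q, Rs k 2 + (Q * (2 : ℕ)) ^ C2, C1 + C2, Q2, by positivity, fun Kb n hn hK => ?_,
    fun X hX => ?_, fun X n Kb j ξ hn hK hj h ht => ?_⟩
  · obtain ⟨a1, a2⟩ := h1 k (Module.finrank_self k) Q Kb 1 n Q2 hQ hn hK le_rfl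
    rw [mul_one] at a2
    exact ⟨a1, a2.trans (pow_le_pow_right₀ (b n Kb hn hK) (by omega))⟩
  · have a1 := r1 X
    have X1 : (1 : ℝ) ≤ X := by exact_mod_cast hX
    have a2 : (X : ℝ) ^ (3 / 4 : ℝ) ≤ X := by
      simpa using Real.rpow_le_rpow_of_exponent_le X1 (show (3 / 4 : ℝ) ≤ 1 by norm_num)
    have a3 := norm_sub_norm_le (∑ j ∈ Icc 1 X, lam (triv k 2) j) ((Rs k 2 * X : ℝ) : ℂ)
    rw [Complex.norm_real, Real.norm_of_nonneg (by positivity)] at a3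
    rw [e] at a1
    rw [add_mul]
    exact sub_le_iff_le_add'.1 (a3.trans (a1.trans (mul_le_mul_of_nonneg_left a2 (by positivity))))
  · have a1 := (h2 k (Module.finrank_self k) Q n Q2 hQ hn).2.2.2 X Kb _ 0 ξ hK (fun _ => hj)
      (fun _ => by simp; linarith) h ht
    rw [e] at a1
    exact a1.trans (mul_le_mul_of_nonneg_right (pow_le_pow_right₀ (b n Kb hn hK) (by omega))
      (by positivity))

variable {Q A₀ : ℝ} {C : ℕ}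

lemma Inp.mem_prim (H : Inp k Q A₀ C) (hK : 1 ≤ Kb) (h : Pr Kb d ξ) : ξ ∈ prim k Kb d := by
  have hf : {ξ : Ideal (𝓞 k) →* ℂ | Pr Kb d ξ}.Finite :=
    (H.num Kb d h.1 hK).1.subset fun _ h' => Pr.mem h'
  unfold prim
  rw [dif_pos hf]
  simpa using h

lemma Inp.card_prim (H : Inp k Q A₀ C) (hK : 1 ≤ Kb) (d : ℕ) :
    ((prim k Kb d).card : ℝ) ≤ (Q * d * Kb) ^ C := by
  have := H.hQ
  rcases (prim k Kb d).eq_empty_or_nonempty with h | ⟨ξ, h⟩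
  · rw [h, card_empty, Nat.cast_zero]; positivity
  · obtain ⟨a1, a2⟩ := H.num Kb d (pr_of_mem h).1 hK
    refine le_trans ?_ a2
    rw [← Set.ncard_coe_finset]
    exact_mod_cast Set.ncard_le_ncard (fun _ h' => Pr.mem (pr_of_mem h')) a1

lemma Inp.diag' (H : Inp k Q A₀ C) (h : Pr Kb d ξ) {X : ℕ} (hX : 1 ≤ X) :
    ‖∑ I ∈ idl k (Icc 1 X), ξ I * conj (ξ I)‖ ≤ A₀ * X := by
  refine (norm_sum_le _ _).trans (le_trans ?_ ((Complex.re_le_norm _).trans (H.diag X hX)))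
  rw [← sum_idl', Complex.re_sum]
  refine sum_le_sum fun I _ => ?_
  by_cases c : Cop d I
  · rw [char_mul_conj h.isChar c, triv_cop (Cop_of_dvd c h.2.1)]
    simp
  · rw [h.isChar.zero I c, zero_mul, norm_zero, triv_apply]
    split_ifs <;> simp

/-- the rows of the Gram matrix -/
lemma Inp.gram (H : Inp k Q A₀ C) (hG : S_Gcd) (K : BF k) (hK : 1 ≤ Kb) {R X : ℕ} (hX : 1 ≤ X) :
    ∀ a ∈ (Icc 1 R).sigma (prim k Kb), ∑ b ∈ (Icc 1 R).sigma (prim k Kb),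
      ‖∑ I ∈ idl k (Icc 1 X), a.2 I * conj (b.2 I)‖ ≤
      A₀ * X + R * (Q * R * Kb) ^ C * ((Q * R ^ 2 * (2 * Kb)) ^ C * (X : ℝ) ^ (3 / 4 : ℝ)) := by
  intro a ha
  have := H.hQ
  rw [← add_sum_erase _ _ ha]
  obtain ⟨a1, a2⟩ := mem_sigma.1 ha
  have a3 := pr_of_mem a2
  refine add_le_add (H.diag' a3 hX) ((sum_le_card_nsmul _ _
    ((Q * R ^ 2 * (2 * Kb)) ^ C * (X : ℝ) ^ (3 / 4 : ℝ)) fun b hb => ?_).trans ?_)
  · obtain ⟨b0, hb⟩ := mem_erase.1 hb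
    obtain ⟨b1, b2⟩ := mem_sigma.1 hb
    have b3 := pr_of_mem b2
    have ht : ¬ IsTriv (a.1 * b.1) (a.2 * cj b.2) := fun t => by
      obtain ⟨e1, e2⟩ := orth hG K a3 b3 t
      exact b0 (Sigma.ext e1.symm (heq_of_eq e2.symm))
    obtain ⟨c1, -, -, j, j1, j2, -⟩ := a3
    obtain ⟨c2, -, -, j', j1', j2', -⟩ := b3
    have h := H.off X _ (2 * Kb) (j - j') _ (by nlinarith) (by linarith)
      (by push_cast; linarith [abs_sub (j : ℝ) j']) (isK_mul c1 j2 j2') ht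
    rw [← sum_idl'] at h
    refine h.trans ?_
    have r1 : (a.1 : ℝ) ≤ R := by exact_mod_cast (mem_Icc.1 a1).2
    have r2 : (b.1 : ℝ) ≤ R := by exact_mod_cast (mem_Icc.1 b1).2
    rw [Nat.cast_mul, sq]
    gcongr
  · rw [nsmul_eq_mul]
    refine mul_le_mul_of_nonneg_right ?_ (by positivity)
    refine le_trans (Nat.cast_le.2 card_erase_le) ?_
    rw [card_sigma, Nat.cast_sum]
    refine (sum_le_card_nsmul _ _ ((Q * R * Kb) ^ C) fun d hd => (H.card_prim hK d).trans ?_).trans ?_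
    · have r1 : (d : ℝ) ≤ R := by exact_mod_cast (mem_Icc.1 hd).2
      gcongr
    · rw [nsmul_eq_mul, Nat.card_Icc, Nat.add_sub_cancel]

end Pool.Agent.P.MP_b8021b_nt.VC.E2
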