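import Pool.Agent.P.MP_b8021b_nt.VC.PFlat1

/-! Flat: the norm form is almost constant; sizes. -/

namespace Pool.Agent.P.MP_b8021b_nt.VC

open Polynomial NumberField Finset Pool.Agent.P.MP_b8021b_nt.VE

namespace Flat

variable {R : Type} [CommRing R] [Algebra ℤ[X] R]

theorem dvd_hev {d : ℕ} {g : ℤ[X]} (hg : g.coeff 0 = 0) (a b : ℤ) : a ∣ hev d g a b := by
  refine dvd_sum fun i _ => ?_
  rcases Nat.eq_zero_or_pos i with rfl | hi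
  · simp [hg]
  · exact ((dvd_pow_self a hi.ne').mul_left _).mul_right _

/-- sizes on the fibres -/
theorem sizes (p : Par R) : ∃ K : ℝ, 1 ≤ K ∧ ∀ c : Cfg, c.τ0 = p.τ0 → c.η ≤ 1 → 0 < c.B →
    ∀ t ∈ Tset p c, p.Adm t ∧ c.B ≤ t.2 ∧ (t.2 : ℝ) ≤ c.B * (1 + c.η) ∧
      (t.1 : ℝ) / t.2 ∈ Set.Icc p.τ0 (p.τ0 + c.η) ∧ |(t.1 : ℝ)| ≤ K * c.B ∧
      c.B ^ p.ρ ≤ K * |(p.Gt t : ℝ)| ∧ |(p.Gt t : ℝ)| ≤ K * c.B ^ p.ρ ∧
      |(p.Dt t : ℝ)| ≤ K * c.B ^ p.dD ∧ (M0 p.r c.z : ℤ) ∣ p.Gt t ∧ p.Gt t ≠ 0 ∧ p.Dt t ≠ 0 := by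
  obtain ⟨G1, hG1, h1⟩ := exists_bd (fun _ : Unit => p.G) p.τ0
  obtain ⟨G2, hG2, h2⟩ := exists_bd (fun _ : Unit => p.Dp) p.τ0
  obtain ⟨m, hm, h3⟩ := (isCompact_Icc (a := p.τ0) (b := p.τ0 + 1)).exists_forall_le'
    (f := fun a : ℝ => |aeval a p.G|) (Polynomial.continuous_aeval p.G).abs.continuousOn (a := 0)
    fun a ha => abs_pos.2 (p.good a ha.1 ha.2).2
  have hτ := p.τle
  have hT : |p.τ0| = -p.τ0 := abs_of_neg (by linarith)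
  have a1 : 0 ≤ m⁻¹ := by positivity
  have a2 : 0 ≤ G1 * 2 ^ p.ρ := by positivity
  have a3 : 0 ≤ G2 * 2 ^ p.dD := by positivity
  refine ⟨2 * |p.τ0| + m⁻¹ + G1 * 2 ^ p.ρ + G2 * 2 ^ p.dD, by linarith,
    fun c hc hη hB t ht => ?_⟩
  obtain ⟨b1, b2, b3, b4, b5, b6, b7, b8⟩ := (mem_filter.1 ht).2
  rw [hc] at b3 b4
  have h0 : (0 : ℝ) < t.2 := hB.trans_le b1
  have h5 : (t.2 : ℝ) ≤ 2 * c.B := by nlinarith
  have hI : (t.1 : ℝ) / t.2 ∈ Set.Icc p.τ0 (p.τ0 + 1) := ⟨b3, by linarith⟩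
  have eG : (p.Gt t : ℝ) = (t.2 : ℝ) ^ p.ρ * aeval ((t.1 : ℝ) / t.2) p.G :=
    hev_div le_rfl _ h0.ne'
  have eD : (p.Dt t : ℝ) = (t.2 : ℝ) ^ p.dD * aeval ((t.1 : ℝ) / t.2) p.Dp :=
    hev_div p.hD _ h0.ne'
  have hup : ∀ (n : ℕ) (x G : ℝ), |x| ≤ G → |(t.2 : ℝ) ^ n * x| ≤ G * 2 ^ n * c.B ^ n := by
    intro n x G hx
    rw [abs_mul, abs_of_pos (pow_pos h0 n), mul_assoc, ← mul_pow, mul_comm]
    exact mul_le_mul hx (pow_le_pow_left₀ h0.le h5 n) (by positivity) ((abs_nonneg _).trans hx)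
  have hMf : ∀ x : ℤ, (Mf p c.z : ℤ) ∣ x → (M0 p.r c.z : ℤ) ∣ x ∧ (p.e : ℤ) ^ p.ke ∣ x := by
    intro x hx
    rw [Mf, Nat.cast_mul, Nat.cast_pow] at hx
    exact ⟨(dvd_mul_right _ _).trans hx, (dvd_mul_left _ _).trans hx⟩
  have g := p.good _ hI.1 hI.2
  refine ⟨⟨by exact_mod_cast h0, b3, hI.2, b5, b6, (hMf _ b7).2, (hMf _ b8).2⟩, b1, b2.le,
    ⟨b3, b4.le⟩, ?_, ?_, ?_, ?_, (hMf _ b7).1.trans (dvd_hev p.G0 _ _), ?_, ?_⟩
  · have h6 : (t.1 : ℝ) < 0 := by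
      have : (t.1 : ℝ) / t.2 < 0 := by linarith
      rw [div_lt_iff₀ h0] at this
      linarith
    have h7 : |(t.1 : ℝ)| ≤ 2 * |p.τ0| * c.B := by
      rw [abs_of_neg h6, hT]
      rw [le_div_iff₀ h0] at b3
      nlinarith
    exact h7.trans (mul_le_mul_of_nonneg_right (by linarith) hB.le)
  · have h6 : c.B ^ p.ρ ≤ m⁻¹ * |(p.Gt t : ℝ)| := by
      rw [eG, abs_mul, abs_of_pos (pow_pos h0 _), le_inv_mul_iff₀ hm, mul_comm]
      exact mul_le_mul (pow_le_pow_left₀ hB.le b1 _) (h3 _ hI) hm.le (by positivity)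
    exact h6.trans (mul_le_mul_of_nonneg_right (by linarith [abs_nonneg p.τ0]) (abs_nonneg _))
  · rw [eG]
    exact (hup _ _ _ (h1 _ hI ())).trans
      (mul_le_mul_of_nonneg_right (by linarith [abs_nonneg p.τ0]) (by positivity))
  · rw [eD]
    exact (hup _ _ _ (h2 _ hI ())).trans
      (mul_le_mul_of_nonneg_right (by linarith [abs_nonneg p.τ0]) (by positivity))
  · have : (p.Gt t : ℝ) ≠ 0 := by
      rw [eG]
      exact mul_ne_zero (pow_ne_zero _ h0.ne') g.2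
    exact_mod_cast this
  · have : (p.Dt t : ℝ) ≠ 0 := by
      rw [eD]
      exact mul_ne_zero (pow_ne_zero _ h0.ne') g.1
    exact_mod_cast this

theorem x_le {p : Par R} {y : ℝ} {N : ℕ} {x : p.Pn} (hy : 1 ≤ y) (hx : x ∈ Xset p y N) :
    (x.1 : ℝ) ≤ 4 * y ∧ x.1 ≠ 0 := by
  obtain ⟨i, -, hi⟩ := mem_biUnion.mp (mem_Xset.1 hx).1
  have h := mem_range.mp (mem_filter.mp hi).1
  have h1 : (x.1 : ℝ) ≤ ⌈3 * y⌉₊ := by exact_mod_cast Nat.lt_succ_iff.1 h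
  have h2 := Nat.ceil_lt_add_one (show 0 ≤ 3 * y by linarith)
  exact ⟨by linarith, (mem_Xset.1 hx).2.1.ne_zero⟩

theorem absorb {K B y : ℝ} {a n m : ℕ} (hy : 1 ≤ y) (hK : K ≤ y) (hB0 : 0 ≤ B) (hB : B ≤ y ^ 6)
    (h : 1 + a + 6 * n ≤ m) : K * (y ^ a * B ^ n) ≤ y ^ m := by
  calc K * (y ^ a * B ^ n) ≤ y * (y ^ a * (y ^ 6) ^ n) := by gcongr
    _ = y ^ (1 + a + 6 * n) := by ring
    _ ≤ y ^ m := pow_le_pow_right₀ hy h

section Fld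

variable {p : Par R} {t : ℤ × ℤ} {k L : Type} [Field k] [NumberField k] [Algebra k ℂ] [Field L]
  [NumberField L] [Algebra k L]

theorem emb_η (Φ : Fb p t k L) (i : Fin p.e) (φ : Emb k L) :
    emb k (Φ.η i) φ = (t.2 : ℂ) ^ p.κ i * φ (Φ.q (p.y i)) := by
  rw [emb, Φ.hη, map_mul, map_pow, map_intCast]

theorem norm_om (K : BF k) (hK : K.D = -p.r) (φ : Emb k L) : ‖φ (K.om L : 𝓞 L)‖ ≤ p.r := by
  have h1 : (K.om L) ^ 2 = ((-p.r : ℤ) : 𝓞 L) := by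
    rw [BF.om, ← map_pow, K.sq, hK, map_intCast]
  have h2 : (φ (K.om L : 𝓞 L)) ^ 2 = ((-p.r : ℤ) : ℂ) := by
    have := congrArg (fun x : 𝓞 L => φ (algebraMap (𝓞 L) L x)) h1
    simpa only [map_pow, map_intCast] using this
  have h3 := congrArg norm h2
  rw [norm_pow, Int.cast_neg, norm_neg, Int.cast_natCast, Complex.norm_natCast] at h3
  have h4 : (1 : ℝ) ≤ p.r := by exact_mod_cast p.hr.one_lt.le
  nlinarith [norm_nonneg (φ (K.om L : 𝓞 L))]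

theorem emb_al (Φ : Fb p t k L) (K : BF k) (ht : (t.2 : ℝ) ≠ 0) (s : p.Co) (φ : Emb k L) :
    emb k (Φ.al K s) φ = (t.2 : ℂ) ^ p.dd * ∑ i, (((aeval ((t.1 : ℝ) / t.2) (p.gp s i) : ℝ) : ℂ) +
      ((aeval ((t.1 : ℝ) / t.2) (p.cp s i) : ℝ) : ℂ) * φ (K.om L : 𝓞 L)) * φ (Φ.q (p.y i)) := by
  have e : emb k (Φ.al K s) φ =
      ∑ i, ((p.gt s t i : ℂ) + (p.ct s t i : ℂ) * φ (K.om L : 𝓞 L)) * emb k (Φ.η i) φ := by
    change φ (algebraMap (𝓞 L) L (Φ.al K s)) = _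
    simp only [Fb.al, map_sum, map_mul, map_add, map_intCast]
    rfl
  rw [e, mul_sum]
  refine sum_congr rfl fun i _ => ?_
  have h1 := congrArg (fun x : ℝ => (x : ℂ)) (hev_div (K := ℝ) (p.natDegree_gp s i) t.1 ht)
  have h2 := congrArg (fun x : ℝ => (x : ℂ)) (hev_div (K := ℝ) (p.natDegree_cp s i) t.1 ht)
  simp only [Complex.ofReal_mul, Complex.ofReal_pow, Complex.ofReal_intCast] at h1 h2
  rw [emb_η, Par.gt, Par.ct, h1, h2, ← pow_sub_mul_pow (t.2 : ℂ) (p.κ_le i)]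
  ring

theorem small (Φ : Fb p t k L) (ht : t.2 ≠ 0) {Q : ℝ} (hQ : ∀ i, ‖emb k (Φ.η i)‖ ≤ Q) :
    Small k L Q := by
  have hli : LinearIndependent k fun i => (Φ.η i : L) := by
    refine linearIndependent_of_top_le_span_of_card_eq_finrank ?_ (by simp [Φ.fin])
    rw [← Φ.gen, Submodule.span_le]
    rintro _ ⟨i, rfl⟩
    have h0 : ((t.2 : k) ^ p.κ i) ≠ 0 := pow_ne_zero _ (Int.cast_ne_zero.2 ht)
    have e : Φ.q (p.y i) = ((t.2 : k) ^ p.κ i)⁻¹ • (Φ.η i : L) := by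
      rw [eq_inv_smul_iff₀ h0, Φ.hη, Algebra.smul_def, map_pow, map_intCast]
    show Φ.q (p.y i) ∈ _
    rw [e]
    exact Submodule.smul_mem _ _ (Submodule.subset_span ⟨i, rfl⟩)
  exact ⟨fun i => Φ.η (Fin.cast Φ.fin i), hli.comp _ (Fin.cast_injective _),
    fun i φ => (norm_le_pi_norm _ φ).trans (hQ _)⟩

theorem al_near (Φ : Fb p t k L) (K : BF k) (hK : K.D = -p.r) (s : p.Co) (φ : Emb k L)
    {B η P K1 Cw : ℝ} (hB : 0 < B) (hη : 0 < η) (hη1 : η ≤ 1) (h1 : B ≤ t.2)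
    (h2 : t.2 ≤ B * (1 + η)) (hP : P ≠ 0) (hK1 : 0 ≤ K1) (hw : ∀ i, ‖φ (Φ.q (p.y i))‖ ≤ Cw)
    (hc : ∀ i, |aeval ((t.1 : ℝ) / t.2) (p.gp s i) / P - (if i = p.toTab.i0 then 1 else 0)| ≤
      K1 * η ∧ |aeval ((t.1 : ℝ) / t.2) (p.cp s i) / P| ≤ K1 * η) :
    ‖emb k (Φ.al K s) φ / ((B ^ p.dd * P : ℝ) : ℂ) - 1‖ ≤
      (2 ^ p.dd * (p.e * ((K1 + K1 * p.r) * Cw)) + p.dd * 2 ^ p.dd) * η := by
  have h0 : (0 : ℝ) < t.2 := hB.trans_le h1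
  have hw0 : 0 ≤ Cw := (norm_nonneg _).trans (hw p.toTab.i0)
  have hPc : (P : ℂ) ≠ 0 := Complex.ofReal_ne_zero.2 hP
  have hBc : (B : ℂ) ≠ 0 := Complex.ofReal_ne_zero.2 hB.ne'
  set u : Fin p.e → ℝ := fun i =>
    aeval ((t.1 : ℝ) / t.2) (p.gp s i) / P - (if i = p.toTab.i0 then 1 else 0) with hu
  set v : Fin p.e → ℝ := fun i => aeval ((t.1 : ℝ) / t.2) (p.cp s i) / P with hv
  set w := φ (K.om L : 𝓞 L) with hwd
  set Z : ℂ := ∑ i, ((u i : ℂ) + v i * w) * φ (Φ.q (p.y i)) with hZ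
  set b : ℝ := ((t.2 : ℝ) / B) ^ p.dd with hb
  have hone : ∑ i, (((if i = p.toTab.i0 then 1 else 0 : ℝ) : ℂ)) * φ (Φ.q (p.y i)) = 1 := by
    rw [sum_eq_single p.toTab.i0]
    · rw [if_pos rfl, Tab.y_i0, map_one, map_one]
      simp
    · intro l _ hl
      simp [hl]
    · simp
  have e : emb k (Φ.al K s) φ / ((B ^ p.dd * P : ℝ) : ℂ) - 1 = b * Z + ((b - 1 : ℝ) : ℂ) := by
    have e1 : ∑ i, (((aeval ((t.1 : ℝ) / t.2) (p.gp s i) : ℝ) : ℂ) +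
        ((aeval ((t.1 : ℝ) / t.2) (p.cp s i) : ℝ) : ℂ) * w) * φ (Φ.q (p.y i)) = P * (Z + 1) := by
      rw [← hone, hZ, ← sum_add_distrib, mul_sum]
      refine sum_congr rfl fun i _ => ?_
      simp only [hu, hv, Complex.ofReal_sub, Complex.ofReal_div]
      field_simp
      ring
    rw [emb_al Φ K h0.ne', ← hwd, e1, hb]
    push_cast
    rw [div_pow]
    field_simp
    ring
  have hq1 : 1 ≤ (t.2 : ℝ) / B := (one_le_div hB).2 h1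
  have hq2 : (t.2 : ℝ) / B ≤ 1 + η := by rwa [div_le_iff₀ hB, mul_comm]
  have hb1 : |b| ≤ 2 ^ p.dd := by
    rw [hb, abs_of_nonneg (by positivity)]
    exact pow_le_pow_left₀ (by linarith) (by linarith) _
  have hb2 : |b - 1| ≤ p.dd * 2 ^ p.dd * η := by
    have h3 := abs_pow_sub_pow_le ((t.2 : ℝ) / B) 1 p.dd
    rw [one_pow, abs_one, abs_of_nonneg (by linarith : 0 ≤ (t.2 : ℝ) / B - 1),
      abs_of_nonneg (by linarith : 0 ≤ (t.2 : ℝ) / B), max_eq_left hq1] at h3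
    refine h3.trans ?_
    have h4 : ((t.2 : ℝ) / B) ^ (p.dd - 1) ≤ 2 ^ p.dd :=
      (pow_le_pow_left₀ (by linarith) (by linarith) _).trans
        (pow_le_pow_right₀ one_le_two (Nat.sub_le _ _))
    calc _ ≤ η * p.dd * 2 ^ p.dd := by
          gcongr
          linarith
      _ = _ := by ring
  have hZb : ‖Z‖ ≤ p.e * ((K1 + K1 * p.r) * Cw) * η := by
    refine (norm_sum_le _ _).trans
      ((sum_le_card_nsmul _ _ ((K1 * η + K1 * η * p.r) * Cw) fun i _ => ?_).trans (le_of_eq ?_))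
    · rw [norm_mul]
      refine mul_le_mul ((norm_add_le _ _).trans ?_) (hw i) (norm_nonneg _) (by positivity)
      rw [norm_mul, Complex.norm_real, Complex.norm_real]
      exact add_le_add (hc i).1
        (mul_le_mul (hc i).2 (norm_om K hK φ) (norm_nonneg _) (by positivity))
    · rw [card_univ, Fintype.card_fin, nsmul_eq_mul]
      ring
  rw [e]
  refine (norm_add_le _ _).trans ?_
  rw [norm_mul, Complex.norm_real, Complex.norm_real, add_mul, mul_assoc]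
  exact add_le_add (mul_le_mul hb1 hZb (norm_nonneg _) (by positivity)) hb2

end Fld

end Flat

open Flat in
theorem p_flat (hWc : S_Wc) : S_Flat := by
  intro R _ _ p
  refine ⟨g1_ne p, ?_⟩
  obtain ⟨K0, hK0, hflat⟩ := flat p
  obtain ⟨K1, hK1, hcoord⟩ := coord p
  obtain ⟨K2, hK2, hsz⟩ := sizes p
  obtain ⟨Cw, hCw, hw⟩ := hWc R p
  set K3 : ℝ := 2 ^ p.dd * Cw with hK3
  set K4 : ℝ := 2 ^ p.dd * (p.e * ((K1 + K1 * p.r) * Cw)) + p.dd * 2 ^ p.dd with hK4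
  have hK30 : 0 ≤ K3 := by positivity
  have hK40 : 0 ≤ K4 := by positivity
  refine ⟨K0 + K2 + K3 + K4, by linarith, ?_⟩
  rintro F rfl
  set K5 : ℝ := 2 * F.p.r * 2 * K2 * K2 with hK5
  set K6 : ℝ := 2 * (F.p.r : ℝ) ^ (F.p.n0 + 1) * 4 * 4 * K2 * K2 * (4 * K2) * K2 * K2 * 2 * 2
    with hK6
  have hK50 : 0 ≤ K5 := by positivity
  have hK60 : 0 ≤ K6 := by positivity
  have hηi : 0 ≤ F.η⁻¹ := inv_nonneg.2 F.ηpos.le
  refine ⟨1 + F.η⁻¹ + K3 + K5 + K6, fun c hc hI => ?_⟩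
  have hy1 : 1 ≤ c.y := by linarith
  have hη : 0 < c.η := hI.η ▸ F.ηpos
  have hη1 : c.η ≤ 1 := hI.η ▸ F.ηle
  have hB1 : 1 ≤ c.B := (one_le_pow₀ hy1).trans hI.B_ge
  have hB : 0 < c.B := by linarith
  have hS : 1 ≤ c.η * c.S0 := by
    have h1 : c.η⁻¹ ≤ c.y := by
      rw [hI.η]
      linarith
    have h2 : F.σ ≠ 0 := by
      have := F.hσ
      rw [Par.cE] at this
      omega
    rw [← inv_le_iff_one_le_mul₀' hη]
    exact h1.trans ((le_self_pow₀ hy1 h2).trans hI.S_ge)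
  have hs := hsz c hI.τ0 hη1 hB
  have ht2 : ∀ t ∈ Tset F.p c, |(t.2 : ℝ)| ≤ 2 * c.B := fun t ht => by
    obtain ⟨-, h1, h2, -⟩ := hs t ht
    rw [abs_of_pos (hB.trans_le h1)]
    nlinarith
  refine ⟨fun s hs' a ha => ?_, fun t ht => ?_, fun x x' t t' hQ => ?_, ?_⟩
  · exact (hflat _ _ _ hη hη1 hS hI.L_le s hs' a ha).trans
      (mul_le_mul_of_nonneg_right (by linarith) hη.le)
  · obtain ⟨h1, -, -, -, h2, h3, h4, h5, h6, h7, h8⟩ := hs t ht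
    refine ⟨h1, h2.trans (mul_le_mul_of_nonneg_right (by linarith) hB.le),
      h3.trans (mul_le_mul_of_nonneg_right (by linarith) (abs_nonneg _)),
      h4.trans (mul_le_mul_of_nonneg_right (by linarith) (by positivity)),
      h5.trans (mul_le_mul_of_nonneg_right (by linarith) (by positivity)), h6, ?_, ?_⟩
    · have h9 : (F.p.r : ℤ) ≠ 0 := Nat.cast_ne_zero.2 F.p.hr.ne_zero
      exact Int.natAbs_pos.2 (mul_ne_zero (mul_ne_zero (mul_ne_zero (mul_ne_zero two_ne_zero h9)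
        h1.1.ne') h7) h8)
    · have e : (F.p.Mb t : ℝ) = 2 * F.p.r * |(t.2 : ℝ)| * |(F.p.Gt t : ℝ)| * |(F.p.Dt t : ℝ)| := by
        rw [Par.Mb, Nat.cast_natAbs]
        push_cast
        simp only [abs_mul, Nat.abs_cast, abs_two]
      have h9 := ht2 t ht
      rw [e]
      calc _ ≤ 2 * F.p.r * (2 * c.B) * (K2 * c.B ^ F.p.ρ) * (K2 * c.B ^ F.p.dD) := by gcongr
        _ = K5 * (c.y ^ 0 * c.B ^ (1 + F.p.ρ + F.p.dD)) := by
          rw [hK5]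
          ring
        _ ≤ _ := absorb hy1 (by linarith) hB.le hI.B_le (by rw [Par.cE]; omega)
  · obtain ⟨h1, -, -, -, h2, -, h4, h5, h6, h7, h8⟩ := hs t hQ.ht
    obtain ⟨h1', -, -, -, h2', -, h4', h5', -, h7', h8'⟩ := hs t' hQ.ht'
    have h3 := ht2 t hQ.ht
    have h3' := ht2 t' hQ.ht'
    obtain ⟨hx, hx0⟩ := x_le hy1 hQ.hx
    obtain ⟨hx', hx0'⟩ := x_le hy1 hQ.hx'
    refine ⟨?_, ?_, ?_, ?_, fun hd => ?_⟩
    · have hdl : |(dl t t' : ℝ)| ≤ 4 * K2 * c.B ^ 2 := by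
        rw [dl]
        push_cast
        refine (abs_sub _ _).trans ?_
        rw [abs_mul, abs_mul]
        have h9 := mul_le_mul h2 h3' (abs_nonneg _) (by positivity)
        have h10 := mul_le_mul h2' h3 (abs_nonneg _) (by positivity)
        linarith
      have e : (nn F.p x x' t t' : ℝ) = 2 * (F.p.r : ℝ) ^ (F.p.n0 + 1) * x.1 * x'.1 *
          |(F.p.Gt t : ℝ)| * |(F.p.Gt t' : ℝ)| * |(dl t t' : ℝ)| * |(F.p.Dt t : ℝ)| *
          |(F.p.Dt t' : ℝ)| * |(t.2 : ℝ)| * |(t'.2 : ℝ)| := by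
        rw [nn, Nat.cast_natAbs]
        push_cast
        simp only [abs_mul, abs_pow, Nat.abs_cast, abs_two]
      rw [e]
      calc _ ≤ 2 * (F.p.r : ℝ) ^ (F.p.n0 + 1) * (4 * c.y) * (4 * c.y) * (K2 * c.B ^ F.p.ρ) *
            (K2 * c.B ^ F.p.ρ) * (4 * K2 * c.B ^ 2) * (K2 * c.B ^ F.p.dD) *
            (K2 * c.B ^ F.p.dD) * (2 * c.B) * (2 * c.B) := by gcongr
        _ = K6 * (c.y ^ 2 * c.B ^ (2 * F.p.ρ + 2 * F.p.dD + 4)) := by
          rw [hK6]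
          ring
        _ ≤ _ := absorb hy1 (by linarith) hB.le hI.B_le (by rw [Par.cE]; omega)
    · exact Int.natAbs_dvd_natAbs.2 ⟨(F.p.r : ℤ) ^ F.p.n0 * x.1 * x'.1 * F.p.Gt t' * dl t t' *
        F.p.Dt t' * t'.2, by ring⟩
    · exact Int.natAbs_dvd_natAbs.2 ⟨(F.p.r : ℤ) ^ F.p.n0 * x.1 * x'.1 * F.p.Gt t * dl t t' *
        F.p.Dt t * t.2, by ring⟩
    · obtain ⟨g, hg⟩ := h6
      refine Int.natCast_dvd.1 ⟨2 * (F.p.r : ℤ) ^ F.p.n0 * x.1 * x'.1 * g * F.p.Gt t' * dl t t' *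
        F.p.Dt t * F.p.Dt t' * t.2 * t'.2, ?_⟩
      rw [hg]
      push_cast
      ring
    · refine Nat.le_of_dvd (Int.natAbs_pos.2 ?_) (Int.natCast_dvd.1
        ⟨(F.p.r : ℤ) ^ (F.p.n0 + 1) * x.1 * x'.1 * F.p.Gt t * F.p.Gt t' * dl t t' *
          F.p.Dt t * F.p.Dt t' * t.2 * t'.2, by push_cast; ring⟩)
      have h9 : (F.p.r : ℤ) ≠ 0 := Nat.cast_ne_zero.2 F.p.hr.ne_zero
      have h10 := h1.1.ne'
      have h11 := h1'.1.ne'
      simp [h7, h7', h8, h8', hd, hx0, hx0', h10, h11, F.p.hr.ne_zero]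
  · intro k _ _ _ K t L _ _ _ Φ hK ht
    obtain ⟨h1, h2, h3, h4, -⟩ := hs t ht
    have hw1 := (hw k K t L Φ hK h1).1
    have h5 : ∀ i, ‖emb k (Φ.η i)‖ ≤ K3 * c.B ^ F.p.κ i := fun i => by
      refine (pi_norm_le_iff_of_nonneg (by positivity)).2 fun φ => ?_
      have h6 := ht2 t ht
      have h7 := hw1 i φ
      have h8 : (2 : ℝ) ^ F.p.κ i ≤ 2 ^ F.p.dd := pow_le_pow_right₀ one_le_two (F.p.κ_le i)
      rw [emb_η, norm_mul, norm_pow, Complex.norm_intCast]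
      calc _ ≤ (2 * c.B) ^ F.p.κ i * Cw := by gcongr
        _ = 2 ^ F.p.κ i * Cw * c.B ^ F.p.κ i := by ring
        _ ≤ _ := by
          rw [hK3]
          gcongr
    have h6 : ∀ i, ‖emb k (Φ.η i)‖ ≤ c.y ^ F.p.cE := fun i => by
      have h7 := F.p.κ_le i
      calc _ ≤ K3 * c.B ^ F.p.κ i := h5 i
        _ = K3 * (c.y ^ 0 * c.B ^ F.p.κ i) := by ring
        _ ≤ _ := absorb hy1 (by linarith) hB.le hI.B_le (by rw [Par.cE]; omega)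
    refine ⟨small Φ h1.1.ne' h6, fun i => ⟨(h5 i).trans
      (mul_le_mul_of_nonneg_right (by linarith) (by positivity)), h6 i⟩, fun s hs' φ => ?_⟩
    have hS0 : (0 : ℝ) < c.S0 := by
      by_contra h
      nlinarith
    exact (al_near Φ K hK s φ hB hη hη1 h2 h3 (mul_ne_zero hS0.ne' (g1_ne F.p)) hK1
      (fun i => hw1 i φ) (hcoord _ _ _ hη hη1 hS hI.L_le s hs' _ h4)).trans
      (mul_le_mul_of_nonneg_right (by linarith) hη.le)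

end Pool.Agent.P.MP_b8021b_nt.VC
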