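import Pool.Agent.P.MP_b8021b_nt.VC.StT
import Pool.Agent.P.MP_b8021b_nt.VC.BasicA

/-! Flat, first file: the coordinates of a section and the norm form. -/

namespace Pool.Agent.P.MP_b8021b_nt.VC

open Polynomial Finset Pool.Agent.P.MP_b8021b_nt.VE

namespace Flat

theorem exists_bd {ι : Type} [Fintype ι] (f : ι → ℤ[X]) (τ0 : ℝ) :
    ∃ G : ℝ, 1 ≤ G ∧ ∀ a ∈ Set.Icc τ0 (τ0 + 1), ∀ i, |aeval a (f i)| ≤ G := by
  have hc : Continuous fun (a : ℝ) (i : ι) => aeval a (f i) :=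
    continuous_pi fun i => Polynomial.continuous_aeval (f i)
  obtain ⟨G, hG⟩ := (isCompact_Icc (a := τ0) (b := τ0 + 1)).exists_bound_of_continuousOn
    hc.continuousOn
  refine ⟨max 1 G, le_max_left _ _, fun a ha i => ?_⟩
  exact ((norm_le_pi_norm (fun i => aeval a (f i)) i).trans (hG a ha)).trans (le_max_right _ _)

theorem exists_lip (g : ℤ[X]) (τ0 : ℝ) : ∃ G : ℝ, 0 ≤ G ∧ ∀ a ∈ Set.Icc τ0 (τ0 + 1),
    |aeval a g - aeval τ0 g| ≤ G * |a - τ0| := by
  obtain ⟨Q, hQ⟩ := X_sub_C_dvd_sub_C_eval (a := τ0) (p := g.map (Int.castRingHom ℝ))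
  obtain ⟨G, hG⟩ := (isCompact_Icc (a := τ0) (b := τ0 + 1)).exists_bound_of_continuousOn
    Q.continuous.continuousOn
  refine ⟨max 0 G, le_max_left _ _, fun a ha => ?_⟩
  have h := congrArg (eval a) hQ
  rw [eval_sub, eval_C, eval_mul, eval_sub, eval_X, eval_C, ← aeval_eq_eval_map,
    ← aeval_eq_eval_map] at h
  rw [h, abs_mul, mul_comm]
  exact mul_le_mul_of_nonneg_right ((hG a ha).trans (le_max_right _ _)) (abs_nonneg _)

theorem det_near (n : Type) [Fintype n] [DecidableEq n] (D : ℝ) (hD : 0 ≤ D) :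
    ∃ K : ℝ, 0 ≤ K ∧ ∀ (W : Matrix n n ℝ) (δ : ℝ), 0 ≤ δ → δ ≤ D → (∀ i j, |W i j| ≤ δ) →
      |(1 + W).det - 1| ≤ K * δ := by
  let f : MultilinearMap ℝ (fun _ : n => n → ℝ) ℝ :=
    (Matrix.detRowAlternating : (n → ℝ) [⋀^n]→ₗ[ℝ] ℝ).toMultilinearMap
  have hf : ∀ M : Matrix n n ℝ, f M = M.det := fun M => rfl
  have hc : Continuous f := Continuous.matrix_det (A := fun M : n → n → ℝ => M) continuous_id
  obtain ⟨K, hK, hb⟩ := f.exists_bound_of_continuous hc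
  refine ⟨K * Fintype.card n * (1 + D) ^ (Fintype.card n - 1), by positivity,
    fun W δ h0 h1 hW => ?_⟩
  let m₁ : n → n → ℝ := fun i j => (1 + W) i j
  let m₂ : n → n → ℝ := fun i j => (1 : Matrix n n ℝ) i j
  have h := f.norm_image_sub_le_of_bound hK.le hb m₁ m₂
  have e1 : f m₁ = (1 + W).det := rfl
  have e2 : f m₂ = 1 := (hf 1).trans Matrix.det_one
  have hone : ∀ i j, |(1 : Matrix n n ℝ) i j| ≤ 1 := fun i j => by
    rw [Matrix.one_apply]
    split_ifs <;> simp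
  have n1 : ‖m₁‖ ≤ 1 + D := (pi_norm_le_iff_of_nonneg (by linarith)).2 fun i =>
    (pi_norm_le_iff_of_nonneg (by linarith)).2 fun j => by
      have := hone i j
      have := hW i j
      exact (abs_add_le _ _).trans (by linarith)
  have n2 : ‖m₂‖ ≤ 1 + D := (pi_norm_le_iff_of_nonneg (by linarith)).2 fun i =>
    (pi_norm_le_iff_of_nonneg (by linarith)).2 fun j => (hone i j).trans (by linarith)
  have n3 : ‖m₁ - m₂‖ ≤ δ := (pi_norm_le_iff_of_nonneg h0).2 fun i =>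
    (pi_norm_le_iff_of_nonneg h0).2 fun j => by
      have : (m₁ - m₂) i j = W i j := by simp [m₁, m₂]
      rw [this]
      exact hW i j
  rw [e1, e2] at h
  refine h.trans ?_
  have n4 : max ‖m₁‖ ‖m₂‖ ≤ 1 + D := max_le n1 n2
  have n5 : 0 ≤ max ‖m₁‖ ‖m₂‖ := le_max_of_le_left (norm_nonneg _)
  gcongr

theorem sq_entry {n : Type} [Fintype n] [DecidableEq n] {U : Matrix n n ℝ} {δ : ℝ} (h0 : 0 ≤ δ)
    (hU : ∀ i j, |U i j| ≤ δ) (i j : n) : |(U * U) i j| ≤ Fintype.card n * δ ^ 2 := by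
  rw [Matrix.mul_apply]
  refine (abs_sum_le_sum_abs _ _).trans ((sum_le_card_nsmul _ _ (δ ^ 2) fun l _ => ?_).trans ?_)
  · rw [abs_mul, sq]
    exact mul_le_mul (hU _ _) (hU _ _) (abs_nonneg _) h0
  · rw [card_univ, nsmul_eq_mul]

variable {R : Type} [CommRing R] [Algebra ℤ[X] R]

theorem mem_S {p : Par R} {S0 L : ℕ} {s : p.Co} (hs : s ∈ Sset p S0 L) (j : p.Ix) :
    |(s j : ℝ) - (cen p S0 j : ℝ)| ≤ L := by
  have h := mem_Ioo.1 (Fintype.mem_piFinset.1 hs j)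
  have h1 : ((cen p S0 j - L : ℤ) : ℝ) < s j := Int.cast_lt.2 h.1
  have h2 : (s j : ℝ) < ((cen p S0 j + L : ℤ) : ℝ) := Int.cast_lt.2 h.2
  push_cast at h1 h2
  rw [abs_le]
  constructor <;> linarith

theorem hp_eval (p : Par R) (S0 : ℕ) (s : p.Co) (j : Fin p.e × Bool) (a : ℝ) :
    aeval a (p.hp s j) = (if j = (p.toTab.i0, false) then S0 * a ^ (p.dd - p.ρ) else 0) +
      ∑ m : Fin (p.d j.1 + 1), ((s ⟨j, m⟩ : ℝ) - (cen p S0 ⟨j, m⟩ : ℝ)) * a ^ m.1 := by
  have e : ∑ m : Fin (p.d j.1 + 1), (cen p S0 ⟨j, m⟩ : ℝ) * a ^ m.1 =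
      if j = (p.toTab.i0, false) then S0 * a ^ (p.dd - p.ρ) else 0 := by
    split_ifs with h
    · subst h
      rw [sum_eq_single (Fin.last _)]
      · have : p.d p.toTab.i0 = p.dd - p.ρ := by rw [Par.d, Tab.κ_i0, Nat.sub_zero]
        simp [cen, this]
      · intro m _ hm
        have : ¬ m.1 = p.d p.toTab.i0 := fun h => hm (Fin.ext h)
        simp [cen, this]
      · simp
    · simp [cen, h]
  simp only [sub_mul, sum_sub_distrib, e]
  simp [Par.hp]

theorem g1_ne (p : Par R) : p.g1 ≠ 0 := by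
  have h1 := (p.good p.τ0 le_rfl (by linarith)).2
  have h2 : p.τ0 ≠ 0 := by have := p.τle; linarith
  have h3 : (p.r : ℝ) ≠ 0 := Nat.cast_ne_zero.2 p.hr.ne_zero
  exact mul_ne_zero (mul_ne_zero (pow_ne_zero _ h3) h1) (pow_ne_zero _ h2)

/-- the coordinates of a section are close to those of the central section -/
theorem coord (p : Par R) : ∃ K : ℝ, 0 ≤ K ∧ ∀ (S0 L : ℕ) (η : ℝ), 0 < η → η ≤ 1 → 1 ≤ η * S0 →
    L ≤ η * S0 → ∀ s ∈ Sset p S0 L, ∀ a ∈ Set.Icc p.τ0 (p.τ0 + η), ∀ i,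
    |aeval a (p.gp s i) / (S0 * p.g1) - (if i = p.toTab.i0 then 1 else 0)| ≤ K * η ∧
      |aeval a (p.cp s i) / (S0 * p.g1)| ≤ K * η := by
  obtain ⟨G1, hG1, h1⟩ := exists_bd p.g0 p.τ0
  obtain ⟨G2, hG2, h2⟩ := exists_bd p.k0 p.τ0
  obtain ⟨G3, hG3, h3⟩ := exists_bd (fun _ : Unit => C ((p.r : ℤ) ^ p.n0) * p.G) p.τ0
  obtain ⟨G4, hG4, h4⟩ := exists_lip (C ((p.r : ℤ) ^ p.n0) * p.G * X ^ (p.dd - p.ρ)) p.τ0
  set T := |p.τ0| with hT
  have hτ := p.τle
  have hT' : T = -p.τ0 := abs_of_neg (by linarith)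
  have hT1 : 1 ≤ T := by linarith
  have hg := abs_pos.2 (g1_ne p)
  refine ⟨(G1 + G2 + G3 * ((p.dd + 1) * T ^ p.dd) + G4) / |p.g1|, by positivity,
    fun S0 L η hη hη1 hS hL s hs a ha i => ?_⟩
  have ha' : a ∈ Set.Icc p.τ0 (p.τ0 + 1) := ⟨ha.1, by linarith [ha.2]⟩
  have haT : |a| ≤ T := by
    rw [abs_le]
    constructor <;> linarith [ha.1, ha.2]
  have hS0 : (0 : ℝ) < S0 := by
    by_contra h
    nlinarith
  have hZ : ∀ j : Fin p.e × Bool, |∑ m : Fin (p.d j.1 + 1),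
      ((s ⟨j, m⟩ : ℝ) - (cen p S0 ⟨j, m⟩ : ℝ)) * a ^ m.1| ≤ (p.dd + 1) * T ^ p.dd * (η * S0) := by
    intro j
    have hd := p.d_add j.1
    refine (abs_sum_le_sum_abs _ _).trans
      ((sum_le_card_nsmul _ _ (η * S0 * T ^ p.dd) fun m _ => ?_).trans ?_)
    · rw [abs_mul, abs_pow]
      refine mul_le_mul ((mem_S hs _).trans hL) ?_ (by positivity) (by positivity)
      exact (pow_le_pow_left₀ (abs_nonneg _) haT _).trans
        (pow_le_pow_right₀ hT1 (by have := m.2; omega))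
    · rw [card_univ, Fintype.card_fin, nsmul_eq_mul]
      have : ((p.d j.1 + 1 : ℕ) : ℝ) ≤ p.dd + 1 := by exact_mod_cast (by omega)
      calc _ ≤ (p.dd + 1) * (η * S0 * T ^ p.dd) := by gcongr
        _ = _ := by ring
  have hP : |S0 * p.g1| = S0 * |p.g1| := by rw [abs_mul, abs_of_pos hS0]
  have hP0 : S0 * p.g1 ≠ 0 := mul_ne_zero hS0.ne' (g1_ne p)
  have key : ∀ x : ℝ, |x| ≤ (G1 + G2 + G3 * ((p.dd + 1) * T ^ p.dd) + G4) * (η * S0) →
      |x / (S0 * p.g1)| ≤ (G1 + G2 + G3 * ((p.dd + 1) * T ^ p.dd) + G4) / |p.g1| * η := by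
    intro x hx
    rw [abs_div, hP, div_le_iff₀ (by positivity)]
    refine hx.trans (le_of_eq ?_)
    field_simp
  have h3' := h3 a ha' ()
  set H : ℝ := aeval a (C ((p.r : ℤ) ^ p.n0) * p.G) with hH
  have hZ' : ∀ j : Fin p.e × Bool, |H * ∑ m : Fin (p.d j.1 + 1),
      ((s ⟨j, m⟩ : ℝ) - (cen p S0 ⟨j, m⟩ : ℝ)) * a ^ m.1| ≤
        G3 * ((p.dd + 1) * T ^ p.dd) * (η * S0) := fun j => by
    rw [abs_mul, mul_assoc G3]
    exact mul_le_mul h3' (hZ j) (abs_nonneg _) (by linarith)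
  have hG1' : G1 ≤ G1 * (η * S0) := le_mul_of_one_le_right (by linarith) hS
  have hG2' : G2 ≤ G2 * (η * S0) := le_mul_of_one_le_right (by linarith) hS
  have hG4' : 0 ≤ G4 * (η * S0) := by positivity
  constructor
  · have e : aeval a (p.gp s i) / (S0 * p.g1) - (if i = p.toTab.i0 then 1 else 0) =
        (aeval a (p.g0 i) + (if i = p.toTab.i0 then S0 * (H * a ^ (p.dd - p.ρ) - p.g1) else 0) +
          H * ∑ m : Fin (p.d i + 1),
            ((s ⟨(i, false), m⟩ : ℝ) - (cen p S0 ⟨(i, false), m⟩ : ℝ)) * a ^ m.1) /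
          (S0 * p.g1) := by
      rw [Par.gp, map_add, map_mul, ← hH, hp_eval p S0]
      by_cases hi : i = p.toTab.i0
      · rw [if_pos hi, if_pos hi, if_pos (by rw [hi]), div_sub_one hP0]
        congr 1
        ring
      · rw [if_neg hi, if_neg hi, if_neg (by simpa using hi)]
        simp
    rw [e]
    refine key _ ((abs_add_three _ _ _).trans ?_)
    have h5 : |(if i = p.toTab.i0 then S0 * (H * a ^ (p.dd - p.ρ) - p.g1) else 0)| ≤
        G4 * (η * S0) := by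
      split_ifs
      · have h6 := h4 a ha'
        have e1 : aeval p.τ0 (C ((p.r : ℤ) ^ p.n0) * p.G * X ^ (p.dd - p.ρ)) = p.g1 := by
          simp [Par.g1]
        rw [e1, map_mul, ← hH, map_pow, aeval_X] at h6
        have h7 : |a - p.τ0| ≤ η := by
          rw [abs_le]
          constructor <;> linarith [ha.1, ha.2]
        rw [abs_mul, abs_of_pos hS0]
        calc _ ≤ S0 * (G4 * η) := by
              exact mul_le_mul_of_nonneg_left
                (h6.trans (mul_le_mul_of_nonneg_left h7 hG4)) hS0.le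
          _ = _ := by ring
      · simpa using hG4'
    have h8 := h1 a ha' i
    have h9 := hZ' (i, false)
    linarith
  · have e : aeval a (p.cp s i) = aeval a (p.k0 i) + H * ∑ m : Fin (p.d i + 1),
        ((s ⟨(i, true), m⟩ : ℝ) - (cen p S0 ⟨(i, true), m⟩ : ℝ)) * a ^ m.1 := by
      rw [Par.cp, map_add, map_mul, ← hH, hp_eval p S0, if_neg (by simp), zero_add]
    rw [e]
    refine key _ ((abs_add_le _ _).trans ?_)
    have h8 := h2 a ha' i
    have h9 := hZ' (i, true)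
    linarith

/-- the regular representation on the fibre over `a` -/
noncomputable def rep (T : Tab R) (a : ℝ) : R →+* Matrix (Fin T.e) (Fin T.e) ℝ :=
  (aeval a : ℤ[X] →ₐ[ℤ] ℝ).toRingHom.mapMatrix.comp (Algebra.leftMulMatrix T.y).toRingHom

theorem rep_apply (T : Tab R) (a : ℝ) (x : R) (i j : Fin T.e) :
    rep T a x i j = aeval a (Algebra.leftMulMatrix T.y x i j) := rfl

theorem rep_el (T : Tab R) (a : ℝ) (g : Fin T.e → ℤ[X]) :
    rep T a (T.el g) = ∑ l, (aeval a (g l) : ℝ) • rep T a (T.y l) := by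
  ext i j
  rw [rep_apply, Tab.el, map_sum, Matrix.sum_apply, Matrix.sum_apply, map_sum]
  refine sum_congr rfl fun l _ => ?_
  rw [map_smul, Matrix.smul_apply, Matrix.smul_apply, smul_eq_mul, smul_eq_mul, map_mul,
    rep_apply]

theorem FR_eval (p : Par R) (s : p.Co) (a : ℝ) : (p.FR s).eval a =
    (rep p.toTab a (p.el (p.gp s)) ^ 2 + (p.r : ℝ) • rep p.toTab a (p.el (p.cp s)) ^ 2).det := by
  have h := RingHom.map_det (aeval a : ℤ[X] →ₐ[ℤ] ℝ).toRingHom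
    (Algebra.leftMulMatrix p.y (p.el (p.gp s) ^ 2 + (p.r : R) * p.el (p.cp s) ^ 2))
  rw [Par.FR, ← aeval_eq_eval_map, Par.F, Tab.nm, Tab.norm_eq]
  refine h.trans (congrArg Matrix.det ?_)
  have : rep p.toTab a (p.el (p.gp s) ^ 2 + (p.r : R) * p.el (p.cp s) ^ 2) =
      rep p.toTab a (p.el (p.gp s)) ^ 2 + (p.r : ℝ) • rep p.toTab a (p.el (p.cp s)) ^ 2 := by
    rw [map_add, map_mul, map_pow, map_pow, map_natCast, Nat.cast_smul_eq_nsmul, nsmul_eq_mul]
  exact this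

/-- the norm form is almost constant -/
theorem flat (p : Par R) : ∃ K : ℝ, 0 ≤ K ∧ ∀ (S0 L : ℕ) (η : ℝ), 0 < η → η ≤ 1 → 1 ≤ η * S0 →
    L ≤ η * S0 → ∀ s ∈ Sset p S0 L, ∀ a ∈ Set.Icc p.τ0 (p.τ0 + η),
    |(p.FR s).eval a / (S0 * p.g1) ^ (2 * p.e) - 1| ≤ K * η := by
  obtain ⟨K, hK, hc⟩ := coord p
  obtain ⟨G, hG, hb⟩ := exists_bd (fun x : Fin p.e × Fin p.e × Fin p.e =>
    Algebra.leftMulMatrix p.y (p.y x.1) x.2.1 x.2.2) p.τ0
  set K1 : ℝ := p.e * (K * G) with hK1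
  have hK10 : 0 ≤ K1 := by positivity
  set K2 : ℝ := 2 * K1 + p.e * K1 ^ 2 + p.r * (p.e * K1 ^ 2) with hK2
  have hK20 : 0 ≤ K2 := by positivity
  obtain ⟨K3, hK3, hd⟩ := det_near (Fin p.e) K2 hK20
  refine ⟨K3 * K2, by positivity, fun S0 L η hη hη1 hS hL s hs a ha => ?_⟩
  have ha' : a ∈ Set.Icc p.τ0 (p.τ0 + 1) := ⟨ha.1, by linarith [ha.2]⟩
  have hS0 : (0 : ℝ) < S0 := by
    by_contra h
    nlinarith
  have hP0 : S0 * p.g1 ≠ 0 := mul_ne_zero hS0.ne' (g1_ne p)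
  have hc' := hc S0 L η hη hη1 hS hL s hs a ha
  set P : ℝ := S0 * p.g1 with hP
  have hent : ∀ u : Fin p.e → ℝ, (∀ l, |u l| ≤ K * η) → ∀ i j,
      |(∑ l, u l • rep p.toTab a (p.y l)) i j| ≤ K1 * η := fun u hu i j => by
    rw [Matrix.sum_apply]
    refine (abs_sum_le_sum_abs _ _).trans
      ((sum_le_card_nsmul _ _ (K * η * G) fun l _ => ?_).trans (le_of_eq ?_))
    · rw [Matrix.smul_apply, smul_eq_mul, abs_mul, rep_apply]
      exact mul_le_mul (hu l) (hb a ha' (l, i, j)) (abs_nonneg _) (by positivity)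
    · rw [card_univ, Fintype.card_fin, nsmul_eq_mul, hK1]
      ring
  set U := ∑ l, (aeval a (p.gp s l) / P - (if l = p.toTab.i0 then 1 else 0)) •
    rep p.toTab a (p.y l) with hU
  set V := ∑ l, (aeval a (p.cp s l) / P) • rep p.toTab a (p.y l) with hV
  have hUb := hent _ fun l => (hc' l).1
  have hVb := hent _ fun l => (hc' l).2
  rw [← hU] at hUb
  rw [← hV] at hVb
  have eU : rep p.toTab a (p.el (p.gp s)) = P • (1 + U) := by
    have : ∑ l, (if l = p.toTab.i0 then (1 : ℝ) else 0) • rep p.toTab a (p.y l) = 1 := by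
      rw [sum_eq_single p.toTab.i0]
      · rw [if_pos rfl, one_smul, Tab.y_i0, map_one]
      · intro l _ hl
        rw [if_neg hl, zero_smul]
      · simp
    rw [rep_el, hU]
    simp only [sub_smul, sum_sub_distrib, this, add_sub_cancel, smul_sum, smul_smul]
    refine sum_congr rfl fun l _ => ?_
    rw [mul_div_cancel₀ _ hP0]
  have eV : rep p.toTab a (p.el (p.cp s)) = P • V := by
    rw [rep_el, hV]
    simp only [smul_sum, smul_smul]
    refine sum_congr rfl fun l _ => ?_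
    rw [mul_div_cancel₀ _ hP0]
  have e : (P • (1 + U)) ^ 2 + (p.r : ℝ) • (P • V) ^ 2 =
      P ^ 2 • (1 + (U + U + U * U + (p.r : ℝ) • (V * V))) := by
    rw [_root_.smul_pow, _root_.smul_pow, smul_comm (p.r : ℝ), ← smul_add, sq (1 + U), sq V, add_mul, mul_add,
      mul_add, one_mul, one_mul, mul_one]
    congr 1
    abel
  rw [FR_eval, eU, eV, e, Matrix.det_smul, Fintype.card_fin, ← pow_mul,
    mul_div_cancel_left₀ _ (pow_ne_zero _ hP0), mul_assoc]
  refine hd _ _ (by positivity) (mul_le_of_le_one_right hK20 hη1) fun i j => ?_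
  have h1 := sq_entry (by positivity) hUb i j
  have h2 := sq_entry (by positivity) hVb i j
  have h3 := hUb i j
  rw [Fintype.card_fin] at h1 h2
  have h4 : (p.e : ℝ) * (K1 * η) ^ 2 ≤ p.e * K1 ^ 2 * η := by
    calc (p.e : ℝ) * (K1 * η) ^ 2 = p.e * K1 ^ 2 * η * η := by ring
      _ ≤ p.e * K1 ^ 2 * η * 1 := by gcongr
      _ = _ := mul_one _
  have h5 : |((p.r : ℝ) • (V * V)) i j| ≤ p.r * (p.e * K1 ^ 2 * η) := by
    rw [Matrix.smul_apply, smul_eq_mul, abs_mul, Nat.abs_cast]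
    exact mul_le_mul_of_nonneg_left (h2.trans h4) (Nat.cast_nonneg _)
  rw [Matrix.add_apply, Matrix.add_apply, Matrix.add_apply]
  refine (abs_add_le _ _).trans ?_
  have h6 := abs_add_three (U i j) (U i j) ((U * U) i j)
  rw [hK2]
  linarith

end Flat

end Pool.Agent.P.MP_b8021b_nt.VC
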