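import Pool.Agent.P.MP_b8021b_nt.VC.StS
import Pool.Agent.P.MP_b8021b_nt.VE.BasicS

/-! A functional that vanishes at the points at infinity, seen on the affine ring. -/

namespace Pool.Agent.P.MP_b8021b_nt.VC

open Polynomial NumberField Finset Pool.Agent.P.MP_b8021b_nt.VE
open scoped Classical WithZero IntermediateField nonZeroDivisors

namespace Geo2

section add

variable {φ : Qb → ℝ} (hm : ∀ u v, u ≠ 0 → v ≠ 0 → φ (u * v) = φ u + φ v)

include hm

theorem f_one : φ 1 = 0 := by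
  have := hm 1 1 one_ne_zero one_ne_zero
  rw [mul_one] at this
  linarith

theorem f_inv {u : Qb} (hu : u ≠ 0) : φ u⁻¹ = -φ u := by
  have := hm u u⁻¹ hu (inv_ne_zero hu)
  rw [mul_inv_cancel₀ hu, f_one hm] at this
  linarith

theorem f_pow {u : Qb} (hu : u ≠ 0) (n : ℕ) : φ (u ^ n) = n * φ u := by
  induction n with
  | zero => simp [f_one hm]
  | succ n ih =>
    rw [pow_succ, hm _ _ (pow_ne_zero _ hu) hu, ih]
    push_cast
    ring

theorem f_neg_one : φ (-1) = 0 := by
  have := hm (-1) (-1) (neg_ne_zero.2 one_ne_zero) (neg_ne_zero.2 one_ne_zero)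
  rw [neg_mul_neg, mul_one, f_one hm] at this
  linarith

theorem f_prod (s : Multiset Qb) (c : ℝ) (h : ∀ a ∈ s, a ≠ 0 ∧ φ a = c) :
    φ s.prod = s.card * c := by
  induction s using Multiset.induction_on with
  | empty => simp [f_one hm]
  | cons a s ih =>
    have h1 := fun b hb => h b (Multiset.mem_cons_of_mem hb)
    have h2 := h a (Multiset.mem_cons_self a s)
    rw [Multiset.prod_cons, hm _ _ h2.1 (Multiset.prod_ne_zero fun h0 => (h1 0 h0).1 rfl), ih h1,
      h2.2, Multiset.card_cons]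
    push_cast
    ring

end add

section ru

variable {r : ℕ}

theorem ru_mul {u v : Qb} (hu : RU r u) (hv : RU r v) : RU r (u * v) := by
  obtain ⟨h0, n, h1, h2⟩ := hu
  obtain ⟨h0', m, h1', h2'⟩ := hv
  refine ⟨mul_ne_zero h0 h0', n + m, ?_, ?_⟩
  · rw [show (r : Qb) ^ (n + m) * (u * v) = (r : Qb) ^ n * u * ((r : Qb) ^ m * v) by ring]
    exact h1.mul h1'
  · rw [show (r : Qb) ^ (n + m) * (u * v)⁻¹ = (r : Qb) ^ n * u⁻¹ * ((r : Qb) ^ m * v⁻¹) by
      rw [mul_inv]; ring]
    exact h2.mul h2'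

theorem ru_one : RU r 1 := ⟨one_ne_zero, 0, by simpa using isIntegral_one, by
  simpa using isIntegral_one⟩

theorem ru_neg_one : RU r (-1) := ⟨neg_ne_zero.2 one_ne_zero, 0, by
  simpa using isIntegral_one.neg, by simpa [inv_neg] using isIntegral_one.neg⟩

theorem ru_pow {u : Qb} (hu : RU r u) (n : ℕ) : RU r (u ^ n) := by
  induction n with
  | zero => simpa using ru_one
  | succ n ih => rw [pow_succ]; exact ru_mul ih hu

theorem ru_prod (s : Multiset Qb) (h : ∀ a ∈ s, RU r a) : RU r s.prod := by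
  induction s using Multiset.induction_on with
  | empty => simpa using ru_one
  | cons a s ih =>
    rw [Multiset.prod_cons]
    exact ru_mul (h a (Multiset.mem_cons_self a s)) (ih fun b hb => h b (Multiset.mem_cons_of_mem hb))

theorem ru_map (σ : Qb ≃+* Qb) {u : Qb} (hu : RU r u) : RU r (σ u) := by
  obtain ⟨h0, n, h1, h2⟩ := hu
  have key : ∀ x : Qb, IsIntegral ℤ x → IsIntegral ℤ (σ x) := fun x ⟨q, hq, h⟩ => ⟨q, hq, by
    have := hom_eval₂ q (algebraMap ℤ Qb) σ.toRingHom x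
    rw [h, map_zero, RingHom.ext_int (σ.toRingHom.comp (algebraMap ℤ Qb)) (algebraMap ℤ Qb)] at this
    exact this.symm⟩
  refine ⟨(map_ne_zero σ).2 h0, n, ?_, ?_⟩
  · simpa using key _ h1
  · simpa using key _ h2

end ru

/-- summation over the fibres of a relation -/
theorem fib {X Y : Type} (C : X → Y → Prop) (hu : ∀ x y y', C x y → C x y' → y = y') (g : X → ℝ)
    (hg : (Function.support g).Finite) :
    ∑ᶠ y, ∑ᶠ x, (if C x y then g x else 0) = ∑ᶠ x, if ∃ y, C x y then g x else 0 := by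
  have s1 : ∀ D : X → Prop, ∑ᶠ x, (if D x then g x else 0) =
      ∑ x ∈ hg.toFinset, if D x then g x else 0 := fun D =>
    finsum_eq_sum_of_support_subset _ fun x hx => by
      simp only [Set.Finite.coe_toFinset, Function.mem_support] at hx ⊢
      intro h0
      exact hx (by simp [h0])
  simp only [s1]
  rw [finsum_sum_comm]
  · refine sum_congr rfl fun x _ => ?_
    by_cases h : ∃ y, C x y
    · obtain ⟨y, hy⟩ := h
      rw [finsum_eq_single _ y fun y' h' => if_neg fun h2 => h' (hu x y' y h2 hy), if_pos hy,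
        if_pos ⟨y, hy⟩]
    · rw [if_neg h]
      exact finsum_eq_zero_of_forall_eq_zero fun y => if_neg fun h' => h ⟨y, h'⟩
  · intro x _
    refine Set.Subsingleton.finite fun y hy y' hy' => hu x y y' ?_ ?_
    · by_contra h
      exact hy (if_neg h)
    · by_contra h
      exact hy' (if_neg h)

variable {K : Type} [Field K]

/-- the value of a function, zero at a pole -/
noncomputable def val (p : GPt K) (a : K) : Qb :=
  if h : a ∈ p.v.valuationSubring then p.ρ ⟨a, h⟩ else 0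

theorem val_eq {p : GPt K} {a : K} {c : Qb} (h : p.Val a c) : val p a = c := by
  obtain ⟨h, rfl⟩ := h
  exact dif_pos h

/-- the point `a ↦ q (g a)` -/
noncomputable def pl (g : K ≃+* K) (q : GPt K) : GPt K where
  v := q.v.comap g.toRingHom
  ρ := q.ρ.comp ((g.toRingHom.comp (q.v.comap g.toRingHom).valuationSubring.subtype).codRestrict
    q.v.valuationSubring.toSubring fun a => a.2)
  surj := q.surj.comp g.surjective
  ker a := q.ker ⟨g a, a.2⟩

theorem pl_Val (g : K ≃+* K) (q : GPt K) (a : K) (c : Qb) :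
    (pl g q).Val a c ↔ q.Val (g a) c := Iff.rfl

theorem pl_val (g : K ≃+* K) (q : GPt K) (a : K) : val (pl g q) a = val q (g a) := rfl

theorem pl_pl (g : K ≃+* K) (q : GPt K) : pl g (pl g.symm q) = q := by
  refine GPt.ext_val ?_ fun a c h => ?_
  · ext a
    exact congrArg q.v (g.symm_apply_apply a)
  · rwa [pl_Val, pl_Val, g.symm_apply_apply] at h

theorem pl_bij (g : K ≃+* K) : Function.Bijective (pl g) :=
  Function.bijective_iff_has_inverse.2 ⟨pl g.symm, pl_pl g.symm, pl_pl g⟩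

theorem v_ord {p q : GPt K} (h : ∀ a, a ≠ 0 → p.ord a = q.ord a) : p.v = q.v := by
  ext a
  rcases eq_or_ne a 0 with rfl | ha
  · simp
  · rw [p.v_eq ha, q.v_eq ha, h a ha]

variable {R : Type} [CommRing R] [Algebra R K]

/-- the point `p` is centred at `P` -/
def Cen (p : GPt K) (P : MaximalSpectrum R) : Prop :=
  ∃ s : R →+* Qb, RingHom.ker s = P.asIdeal ∧ ∀ a, p.Val (algebraMap R K a) (s a)

theorem Cen.unique {p : GPt K} {P P' : MaximalSpectrum R} (h : Cen p P) (h' : Cen p P') :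
    P = P' := by
  obtain ⟨s, h1, h2⟩ := h
  obtain ⟨s', h1', h2'⟩ := h'
  obtain rfl : s = s' := RingHom.ext fun a => (h2 a).unique (h2' a)
  exact MaximalSpectrum.ext (h1.symm.trans h1')

/-- extension by zero -/
noncomputable def lz (l : GPt K → Qb → ℝ) (p : GPt K) (u : Qb) : ℝ := if u = 0 then 0 else l p u

/-- the family attached to a functional -/
noncomputable def phi (l : GPt K → Qb → ℝ) (P : MaximalSpectrum R) (h : R) : ℝ :=
  ∑ᶠ p, if Cen p P then lz l p (val p (algebraMap R K h)) else 0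

theorem anti [Algebra ℚ R] {l : GPt K → Qb → ℝ} (ι : R ≃ₐ[ℚ] R) (g : K ≃+* K)
    (hg : ∀ a, g (algebraMap R K a) = algebraMap R K (ι a))
    (hl : ∀ q q', Le (g : K →+* K) q q' → ∀ u, u ≠ 0 → l q' u = -l q u) : Anti ι (phi l) := by
  intro P Q hPQ h
  rw [phi, phi, ← finsum_neg_distrib]
  refine finsum_eq_of_bijective (pl g) (pl_bij g) fun q => ?_
  have e : Cen (pl g q) P ↔ Cen q Q := by
    constructor
    · rintro ⟨s, h1, h2⟩
      refine ⟨s.comp ι.symm.toRingEquiv.toRingHom, Ideal.ext fun a => ?_, fun a => ?_⟩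
      · obtain ⟨b, rfl⟩ := ι.surjective a
        rw [← hPQ, ← h1]
        simp [RingHom.mem_ker]
      · obtain ⟨b, rfl⟩ := ι.surjective a
        have := h2 b
        rw [pl_Val, hg] at this
        simpa using this
    · rintro ⟨s, h1, h2⟩
      refine ⟨s.comp ι.toRingEquiv.toRingHom, Ideal.ext fun a => ?_, fun a => ?_⟩
      · rw [hPQ, ← h1]
        simp [RingHom.mem_ker]
      · rw [pl_Val, hg]
        exact h2 _
  rw [e, pl_val, hg]
  by_cases h1 : Cen q Q
  · rw [if_pos h1, if_pos h1, lz, lz]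
    by_cases h2 : val q (algebraMap R K (ι h)) = 0
    · rw [if_pos h2, if_pos h2, neg_zero]
    · rw [if_neg h2, if_neg h2, hl q (pl g q) (fun a c h => h) _ h2, neg_neg]
  · rw [if_neg h1, if_neg h1, neg_zero]

variable [IsDedekindDomain R] [IsFractionRing R K] (h0 : VE.S_S0)
  (hfin : ∀ f : K, f ≠ 0 → {p : GPt K | p.ord f ≠ 0}.Finite)

include h0

theorem Cen.ord {p : GPt K} {P : MaximalSpectrum R} (h : Cen p P) {a : R} (ha : a ≠ 0) :
    p.ord (algebraMap R K a) = VE.ord P a := by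
  obtain ⟨s, h1, h2⟩ := h
  rw [(h0 R K).2.2 p s h2 a ha, h1, VE.ord]

theorem Cen.ne_bot {p : GPt K} {P : MaximalSpectrum R} (h : Cen p P) : P.asIdeal ≠ ⊥ := by
  obtain ⟨s, h1, h2⟩ := h
  obtain ⟨s', h1', h2'⟩ := (h0 R K).2.1 p fun a => (h2 a).mem
  obtain rfl : s = s' := RingHom.ext fun a => (h2 a).unique (h2' a)
  exact h1 ▸ h1'

theorem exists_cen {p : GPt K} (h : ∀ a, algebraMap R K a ∈ p.v.valuationSubring) :
    ∃ P : MaximalSpectrum R, Cen p P := by
  obtain ⟨s, h1, h2⟩ := (h0 R K).2.1 p h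
  exact ⟨⟨RingHom.ker s, (RingHom.ker_isPrime s).isMaximal h1⟩, s, rfl, h2⟩

theorem Cen.v_eq {p p' : GPt K} {P : MaximalSpectrum R} (h : Cen p P) (h' : Cen p' P) :
    p.v = p'.v := by
  refine v_ord fun a ha => ?_
  obtain ⟨x, y, hy, rfl⟩ := IsFractionRing.div_surjective R a
  have hy' : y ≠ 0 := nonZeroDivisors.ne_zero hy
  have hx : x ≠ 0 := fun h => ha (by rw [h, map_zero, zero_div])
  have i1 : ∀ w : R, w ≠ 0 → algebraMap R K w ≠ 0 := fun w hw =>
    (map_ne_zero_iff _ (IsFractionRing.injective R K)).2 hw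
  rw [GPt.ord_div _ (i1 x hx) (i1 y hy'), GPt.ord_div _ (i1 x hx) (i1 y hy'), h.ord h0 hx,
    h.ord h0 hy', h'.ord h0 hx, h'.ord h0 hy']

include hfin

theorem cen_fin (P : MaximalSpectrum R) : {p : GPt K | Cen p P}.Finite := by
  by_cases h : P.asIdeal = ⊥
  · exact Set.Finite.subset Set.finite_empty fun p hp => Cen.ne_bot h0 hp h
  · obtain ⟨a, h1, h2⟩ := Submodule.exists_mem_ne_zero_of_ne_bot h
    have h3 : algebraMap R K a ≠ 0 := (map_ne_zero_iff _ (IsFractionRing.injective R K)).2 h2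
    refine (hfin _ h3).subset fun p hp => ?_
    obtain ⟨s, h4, h5⟩ := hp
    have h6 := h5 a
    rw [← h4, RingHom.mem_ker] at h1
    rw [h1] at h6
    exact (h6.ord_pos h3).ne'

theorem cen_supp (P : MaximalSpectrum R) (g : GPt K → ℝ) :
    Function.HasFiniteSupport fun p : GPt K => if Cen p P then g p else 0 :=
  (cen_fin h0 hfin P).subset fun p hp => by
    by_contra h
    exact hp (if_neg h)

theorem pair_eq (l : GPt K → Qb → ℝ) {f : R} (hf : f ≠ 0) (h : R) :
    pair (phi l) f h = ∑ᶠ p : GPt K, if ∃ P : MaximalSpectrum R, Cen p P then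
      (p.ord (algebraMap R K f) : ℝ) * lz l p (val p (algebraMap R K h)) else 0 := by
  have h3 : algebraMap R K f ≠ 0 := (map_ne_zero_iff _ (IsFractionRing.injective R K)).2 hf
  rw [← fib (fun (p : GPt K) (P : MaximalSpectrum R) => Cen p P) (fun _ _ _ => Cen.unique) _
    ((hfin _ h3).subset fun p hp h => hp (by simp [h])), pair]
  refine finsum_congr fun P => ?_
  rw [phi, mul_finsum]
  refine finsum_congr fun p => ?_
  by_cases h1 : Cen p P
  · rw [if_pos h1, if_pos h1, h1.ord h0 hf, Int.cast_natCast]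
  · rw [if_neg h1, if_neg h1, mul_zero]

theorem isFn {l : GPt K → Qb → ℝ} (hl : KFn l)
    (hinf : ∀ p : GPt K, (∃ a, algebraMap R K a ∉ p.v.valuationSubring) → ∀ u, l p u = 0) :
    IsFn (phi l : MaximalSpectrum R → R → ℝ) where
  zero P h hh := finsum_eq_zero_of_forall_eq_zero fun p => by
    by_cases h1 : Cen p P
    · rw [if_pos h1]
      obtain ⟨s, h2, h3⟩ := h1
      rw [← h2, RingHom.mem_ker] at hh
      rw [val_eq (h3 h), hh, lz, if_pos rfl]
    · exact if_neg h1
  congr P h h' hh := finsum_congr fun p => by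
    by_cases h1 : Cen p P
    · rw [if_pos h1, if_pos h1]
      obtain ⟨s, h2, h3⟩ := h1
      rw [← h2, RingHom.mem_ker, map_sub, sub_eq_zero] at hh
      rw [val_eq (h3 h), val_eq (h3 h'), hh]
    · rw [if_neg h1, if_neg h1]
  mul P h h' hh hh' := by
    rw [phi, phi, phi, ← finsum_add_distrib (cen_supp h0 hfin P _) (cen_supp h0 hfin P _)]
    refine finsum_congr fun p => ?_
    by_cases h1 : Cen p P
    · rw [if_pos h1, if_pos h1, if_pos h1]
      obtain ⟨s, h2, h3⟩ := h1
      rw [← h2, RingHom.mem_ker] at hh hh'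
      rw [val_eq (h3 h), val_eq (h3 h'), val_eq (h3 _), map_mul, lz, lz, lz, if_neg hh, if_neg hh',
        if_neg (mul_ne_zero hh hh'), hl.mul p _ _ hh hh']
    · rw [if_neg h1, if_neg h1, if_neg h1, add_zero]
  recip f h hf hh hc := by
    have i1 : ∀ w : R, w ≠ 0 → algebraMap R K w ≠ 0 := fun w hw =>
      (map_ne_zero_iff _ (IsFractionRing.injective R K)).2 hw
    have ex : ∀ p : GPt K, ∃ c, Tm p (algebraMap R K f) (algebraMap R K h) c := fun p => by
      refine p.exists_val ((p.ord_nonneg_iff (div_ne_zero (zpow_ne_zero _ (i1 f hf))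
        (zpow_ne_zero _ (i1 h hh)))).1 ?_)
      rw [p.ord_div (zpow_ne_zero _ (i1 f hf)) (zpow_ne_zero _ (i1 h hh))]
      have e : ∀ (a : K) (n : ℤ), p.ord (a ^ n) = n * p.ord a := fun a n => by
        simp only [GPt.ord, map_zpow₀, WithZero.log_zpow, zsmul_eq_mul, mul_neg, Int.cast_id]
      rw [e, e, mul_comm, sub_self]
    choose c hc' using ex
    have key := hl.symb _ _ (i1 f hf) (i1 h hh) c hc'
    have sp : ∀ (w : R) (g : GPt K → ℝ), w ≠ 0 → Function.HasFiniteSupport fun p : GPt K =>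
        if ∃ P : MaximalSpectrum R, Cen p P then (p.ord (algebraMap R K w) : ℝ) * g p else 0 :=
      fun w g hw => (hfin _ (i1 w hw)).subset fun p hp h => hp (by simp [h])
    rw [pair_eq h0 hfin l hf, pair_eq h0 hfin l hh, eq_comm, ← sub_eq_zero,
      ← finsum_sub_distrib (sp _ _ hh) (sp _ _ hf), ← key]
    refine finsum_congr fun p => ?_
    by_cases h1 : ∃ P : MaximalSpectrum R, Cen p P
    · rw [if_pos h1, if_pos h1]
      obtain ⟨P, s, -, h3⟩ := h1
      obtain ⟨a, b, hab⟩ := hc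
      have h4 := congrArg s hab
      rw [map_add, map_mul, map_mul, map_one] at h4
      have h5 := hc' p
      rw [val_eq (h3 h), val_eq (h3 f)]
      obtain ⟨n, hn⟩ := Int.eq_ofNat_of_zero_le (p.ord_nonneg (h3 f).mem)
      obtain ⟨m, hm⟩ := Int.eq_ofNat_of_zero_le (p.ord_nonneg (h3 h).mem)
      rw [Tm, hn, hm, zpow_natCast, zpow_natCast] at h5
      rw [hn, hm]
      by_cases h6 : s h = 0
      · have h7 : s f ≠ 0 := fun h7 => by simp [h6, h7] at h4
        obtain rfl : n = 0 := by exact_mod_cast hn.symm.trans ((h3 f).ord_eq_zero h7)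
        rw [pow_zero, div_one] at h5
        rw [h5.unique ((h3 f).pow m), f_pow (hl.mul p) h7, lz, if_neg h7]
        simp
      · obtain rfl : m = 0 := by exact_mod_cast hm.symm.trans ((h3 h).ord_eq_zero h6)
        rw [pow_zero, one_div] at h5
        rw [h5.unique (((h3 h).pow n).inv (pow_ne_zero _ h6)), f_inv (hl.mul p) (pow_ne_zero _ h6),
          f_pow (hl.mul p) h6, lz, lz, if_neg h6]
        simp
    · rw [if_neg h1, if_neg h1, sub_self, hinf p]
      by_contra h2
      exact h1 (exists_cen h0 fun a => by_contra fun h3 => h2 ⟨a, h3⟩)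

theorem phi_val {l : GPt K → Qb → ℝ} (hl : GFn l)
    (hv : ∀ p p' : GPt K, p.v = p'.v → ∃ σ : Qb ≃+* Qb, Gal σ p p') {p : GPt K}
    {P : MaximalSpectrum R} {s : R →+* Qb} (h1 : RingHom.ker s = P.asIdeal)
    (h2 : ∀ a, p.Val (algebraMap R K a) (s a)) {γ : R} (hγ : s γ ≠ 0) (h : phi l P γ = 0) :
    l p (s γ) = 0 := by
  have hf := cen_fin h0 hfin P
  have hp : Cen p P := ⟨s, h1, h2⟩
  rw [phi, finsum_eq_sum_of_support_subset (s := hf.toFinset) _ (fun q hq => by
    by_contra h3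
    exact hq (if_neg fun h4 => h3 (by simpa using h4))),
    sum_congr rfl (g := fun _ => l p (s γ)) fun q hq => ?_, sum_const, nsmul_eq_mul] at h
  · refine (mul_eq_zero.1 h).resolve_left ?_
    exact_mod_cast (card_pos.2 ⟨p, hf.mem_toFinset.2 hp⟩).ne'
  · have hq' : Cen q P := hf.mem_toFinset.1 hq
    obtain ⟨σ, hσ⟩ := hv p q (hp.v_eq h0 hq')
    rw [if_pos hq', val_eq (hσ _ _ (h2 γ)), lz, if_neg ((map_ne_zero σ).2 hγ), hl.gal σ p q hσ _ hγ]

/-- vanishing on values of elements of the ring gives vanishing on all units outside `r` -/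
theorem vanish [Algebra ℚ R] {l : GPt K → Qb → ℝ} (hl : GFn l)
    (hv : ∀ p p' : GPt K, p.v = p'.v → ∃ σ : Qb ≃+* Qb, Gal σ p p')
    (hg : ∀ (σ : Qb ≃+* Qb) (p : GPt K), ∃ p', Gal σ p p') {r : ℕ}
    (H : ∀ (P : MaximalSpectrum R) (s : R →+* Qb) (γ : R), RingHom.ker s = P.asIdeal →
      RU r (s γ) → phi l P γ = 0) {p : GPt K}
    (hp : ∀ a, algebraMap R K a ∈ p.v.valuationSubring) {u : Qb} (hu : RU r u) : l p u = 0 := by
  obtain ⟨P, hP⟩ := exists_cen h0 hp
  have hb := hP.ne_bot h0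
  obtain ⟨s, h1, h2⟩ := hP
  have := P.isMaximal
  let _ := Ideal.Quotient.field P.asIdeal
  let τ : R ⧸ P.asIdeal →+* Qb := Ideal.Quotient.lift P.asIdeal s fun a ha => by
    rwa [← h1, RingHom.mem_ker] at ha
  let _ : Algebra (R ⧸ P.asIdeal) Qb := τ.toAlgebra
  have : Algebra.IsAlgebraic ℚ Qb := AlgebraicClosure.isAlgebraic ℚ
  have : IsScalarTower ℚ (R ⧸ P.asIdeal) Qb :=
    IsScalarTower.of_algebraMap_eq' (Subsingleton.elim _ _)
  have : Algebra.IsAlgebraic (R ⧸ P.asIdeal) Qb := Algebra.IsAlgebraic.tower_top (K := ℚ) _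
  have : IsAlgClosure (R ⧸ P.asIdeal) Qb := ⟨inferInstance, inferInstance⟩
  have ha : IsAlgebraic (R ⧸ P.asIdeal) u := Algebra.IsAlgebraic.isAlgebraic u
  set m := (minpoly (R ⧸ P.asIdeal) u).map τ with hm
  have hmon : m.Monic := (minpoly.monic ha.isIntegral).map τ
  have hs : m.Splits := IsAlgClosed.splits m
  have hr : ∀ a ∈ m.roots, RU r a ∧ l p a = l p u := fun a h => by
    have h3 : aeval a (minpoly (R ⧸ P.asIdeal) u) = 0 := by
      have := (mem_roots hmon.ne_zero).1 h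
      rwa [IsRoot, hm, eval_map] at this
    obtain ⟨σ, hσ⟩ := minpoly.exists_algEquiv_of_root' ha h3
    obtain ⟨p', hp'⟩ := hg σ.toRingEquiv p
    obtain rfl : p = p' := ((h0 R K).1 s (h1 ▸ hb)).unique h2 fun b => by
      have h4 := hp' _ _ (h2 b)
      have h5 : σ.toRingEquiv (s b) = s b := σ.commutes (Ideal.Quotient.mk P.asIdeal b)
      rwa [h5] at h4
    rw [← hσ]
    exact ⟨ru_map σ.toRingEquiv hu, hl.gal σ.toRingEquiv p p hp' u hu.1⟩
  obtain ⟨γ, hγ⟩ := Ideal.Quotient.mk_surjective ((minpoly (R ⧸ P.asIdeal) u).coeff 0)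
  have e : s γ = (-1) ^ m.natDegree * m.roots.prod := by
    rw [← hs.coeff_zero_eq_prod_roots_of_monic hmon, hm, coeff_map, ← hγ]
    rfl
  have r1 : RU r m.roots.prod := ru_prod _ fun a h => (hr a h).1
  have r2 : RU r (s γ) := e ▸ ru_mul (ru_pow ru_neg_one _) r1
  have h6 := phi_val h0 hfin hl hv h1 h2 r2.1 (H P s γ h1 r2)
  rw [e, hl.mul p _ _ (ru_pow (r := r) ru_neg_one _).1 r1.1,
    f_pow (hl.mul p) (neg_ne_zero.2 one_ne_zero), f_neg_one (hl.mul p), mul_zero, zero_add,
    f_prod (hl.mul p) _ (l p u) fun a h => ⟨(hr a h).1.1, (hr a h).2⟩] at h6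
  refine (mul_eq_zero.1 h6).resolve_left ?_
  rw [← hs.natDegree_eq_card_roots, hm, natDegree_map]
  exact_mod_cast (minpoly.natDegree_pos ha.isIntegral).ne'

end Geo2

end Pool.Agent.P.MP_b8021b_nt.VC
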