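import Pool.Agent.P.MP_b8021b_nt.VC.StC

/-! Package Lem, part 1: zeros of a function, products over a disc, counting in conjugate discs. -/

namespace Pool.Agent.P.MP_b8021b_nt.VC

open Polynomial NumberField Finset Pool.Agent.P.MP_b8021b_nt.VE
open scoped Classical

namespace LemP

section gen

variable {X : Type}

theorem fsum_eq (U : Set X) (Z : Finset X) (m : X → ℕ) (hm : ∀ x, m x ≠ 0 → x ∈ Z) :
    ∑ᶠ x ∈ U, m x = ∑ x ∈ Z.filter (· ∈ U), m x := by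
  apply finsum_mem_eq_sum_of_inter_support_eq
  ext x
  simp only [Set.mem_inter_iff, Function.mem_support, coe_filter, Set.mem_ofPred_eq]
  constructor
  · rintro ⟨h1, h2⟩
    exact ⟨⟨hm x h2, h1⟩, h2⟩
  · rintro ⟨⟨_, h1⟩, h2⟩
    exact ⟨h1, h2⟩

theorem fprod_eq (U : Set X) (Z : Finset X) (m : X → ℕ) (hm : ∀ x, m x ≠ 0 → x ∈ Z)
    (t : X → ℝ) : ∏ᶠ x ∈ U, t x ^ m x = ∏ x ∈ Z.filter (· ∈ U), t x ^ m x := by
  apply finprod_mem_eq_prod_of_inter_mulSupport_eq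
  ext x
  simp only [Set.mem_inter_iff, Function.mem_mulSupport, coe_filter, Set.mem_ofPred_eq]
  constructor
  · rintro ⟨h1, h2⟩
    refine ⟨⟨hm x ?_, h1⟩, h2⟩
    intro h0
    rw [h0, pow_zero] at h2
    exact h2 rfl
  · rintro ⟨⟨_, h1⟩, h2⟩
    exact ⟨h1, h2⟩

theorem two_radii {A B ρ₁ ρ₂ : ℝ} {m n : ℕ} (hA : 0 < A) (h1 : 0 < ρ₁) (h12 : ρ₁ < ρ₂)
    (e1 : A * ρ₁ ^ m = B * ρ₁ ^ n) (e2 : A * ρ₂ ^ m = B * ρ₂ ^ n) : m = n := by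
  have h2 : 0 < ρ₂ := h1.trans h12
  have hq : (ρ₂ / ρ₁) ^ m = (ρ₂ / ρ₁) ^ n := by
    rw [div_pow, div_pow, div_eq_div_iff (pow_pos h1 _).ne' (pow_pos h1 _).ne']
    have : A * (ρ₂ ^ m * ρ₁ ^ n) = A * (ρ₂ ^ n * ρ₁ ^ m) := by
      calc A * (ρ₂ ^ m * ρ₁ ^ n) = (A * ρ₂ ^ m) * ρ₁ ^ n := by ring
        _ = (B * ρ₂ ^ n) * ρ₁ ^ n := by rw [e2]
        _ = (B * ρ₁ ^ n) * ρ₂ ^ n := by ring
        _ = (A * ρ₁ ^ m) * ρ₂ ^ n := by rw [e1]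
        _ = A * (ρ₂ ^ n * ρ₁ ^ m) := by ring
    exact mul_left_cancel₀ hA.ne' this
  have hgt : 1 < ρ₂ / ρ₁ := (one_lt_div h1).2 h12
  exact pow_right_injective₀ (zero_lt_one.trans hgt) hgt.ne' hq

end gen

/-- the absolute values of an algebraically closed field are dense -/
theorem dense_norm (Ω : Type) [NontriviallyNormedField Ω] [IsAlgClosed Ω] {a b : ℝ} (ha : 0 ≤ a)
    (hab : a < b) : ∃ x : Ω, a < ‖x‖ ∧ ‖x‖ < b := by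
  -- reduce to `0 < a`
  obtain ⟨a', ha', haa, hab'⟩ : ∃ a', 0 < a' ∧ a ≤ a' ∧ a' < b :=
    ⟨(a + b) / 2, by linarith, by linarith, by linarith⟩
  obtain ⟨y, hy⟩ := NormedField.exists_one_lt_norm Ω
  have hq : 1 < b / a' := (one_lt_div ha').2 hab'
  obtain ⟨n, hn⟩ := pow_unbounded_of_one_lt ‖y‖ hq
  have hn0 : 0 < n := by
    rcases Nat.eq_zero_or_pos n with h | h
    · rw [h, pow_zero] at hn
      linarith
    · exact h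
  obtain ⟨z, hz⟩ := IsAlgClosed.exists_pow_nat_eq y hn0
  have hzn : ‖z‖ ^ n = ‖y‖ := by rw [← norm_pow, hz]
  have hz1 : 1 < ‖z‖ := by
    by_contra h
    have : ‖z‖ ^ n ≤ 1 := pow_le_one₀ (norm_nonneg _) (not_lt.1 h)
    linarith
  have hz2 : ‖z‖ < b / a' := by
    apply lt_of_pow_lt_pow_left₀ n (zero_lt_one.trans hq).le
    rw [hzn]
    exact hn
  obtain ⟨k, hk1, hk2⟩ := exists_mem_Ico_zpow ha' hz1
  refine ⟨z ^ (k + 1), ?_, ?_⟩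
  · rw [norm_zpow]
    exact haa.trans_lt hk2
  · rw [norm_zpow, zpow_add_one₀ (zero_lt_one.trans hz1).ne']
    calc ‖z‖ ^ k * ‖z‖ ≤ a' * ‖z‖ := mul_le_mul_of_nonneg_right hk1 (norm_nonneg _)
      _ < a' * (b / a') := mul_lt_mul_of_pos_left hz2 ha'
      _ = b := by field_simp

section pts

variable {F A Ω : Type} [Field F] [CharZero F] [CommRing A] [Algebra F A] [Field Ω] [Algebra F Ω]
  [IsAlgClosed Ω] [Algebra.IsAlgebraic F Ω]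

theorem span_ne {f : A} (hf : f ≠ 0) : Ideal.span {f} ≠ (⊥ : Ideal A) := by
  rw [Ne, Ideal.span_singleton_eq_bot]
  exact hf

theorem mI_ne_iff (hPts : S_Pts) (cv : Cv F A) {f : A} (hf : f ≠ 0) (P : A →ₐ[F] Ω) :
    mI P (Ideal.span {f}) ≠ 0 ↔ P f = 0 := by
  rw [(hPts F A Ω cv).2.2.1 P _ (span_ne hf), Ideal.span_singleton_le_iff_mem, RingHom.mem_ker]

theorem exists_Z (hCv : S_Cv) (hPts : S_Pts) (cv : Cv F A) {f : A} (hf : f ≠ 0) :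
    ∃ Z : Finset (A →ₐ[F] Ω), (∀ P, P ∈ Z ↔ P f = 0) ∧
      ∑ P ∈ Z, mI P (Ideal.span {f}) = cv.δ f := by
  obtain ⟨hfin, hsum⟩ := (hPts F A Ω cv).1 _ (span_ne hf)
  have hmem : ∀ P, P ∈ hfin.toFinset ↔ P f = 0 := by
    intro P
    rw [Set.Finite.mem_toFinset, Set.mem_ofPred_eq, Ideal.span_singleton_le_iff_mem,
      RingHom.mem_ker]
  refine ⟨hfin.toFinset, hmem, ?_⟩
  rw [← (hCv F A cv).2.2.1 f hf, ← hsum]
  symm
  apply finsum_eq_sum_of_support_subset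
  intro P hP
  rw [Finset.mem_coe, hmem]
  exact (mI_ne_iff hPts cv hf P).1 hP

/-- the conjugate of a point -/
def cj (σ : Ω ≃ₐ[F] Ω) (P : A →ₐ[F] Ω) : A →ₐ[F] Ω := (σ : Ω →ₐ[F] Ω).comp P

omit [CharZero F] [IsAlgClosed Ω] [Algebra.IsAlgebraic F Ω] in
theorem cj_apply (σ : Ω ≃ₐ[F] Ω) (P : A →ₐ[F] Ω) (a : A) : cj σ P a = σ (P a) := rfl

omit [CharZero F] [IsAlgClosed Ω] [Algebra.IsAlgebraic F Ω] in
theorem ker_cj (σ : Ω ≃ₐ[F] Ω) (P : A →ₐ[F] Ω) : RingHom.ker (cj σ P) = RingHom.ker P := by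
  ext a
  rw [RingHom.mem_ker, RingHom.mem_ker, cj_apply]
  exact map_eq_zero_iff σ σ.injective

omit [CharZero F] [IsAlgClosed Ω] [Algebra.IsAlgebraic F Ω] in
theorem mI_congr {P Q : A →ₐ[F] Ω} (h : RingHom.ker P = RingHom.ker Q) (J : Ideal A) :
    mI P J = mI Q J := by
  unfold mI
  rw [h]

/-- conjugation as a permutation of the points -/
def cjE (σ : Ω ≃ₐ[F] Ω) : (A →ₐ[F] Ω) ≃ (A →ₐ[F] Ω) where
  toFun := cj σ
  invFun := cj σ.symm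
  left_inv P := by
    ext a
    simp [cj_apply]
  right_inv P := by
    ext a
    simp [cj_apply]

/-- a uniformiser -/
theorem exists_pi (hPts : S_Pts) (cv : Cv F A) (P₀ : A →ₐ[F] Ω) :
    ∃ π : A, π ≠ 0 ∧ P₀ π = 0 ∧ mI P₀ (Ideal.span {π}) = 1 := by
  have := cv.ded
  obtain ⟨hmax, hne, -⟩ := (hPts F A Ω cv).2.2.2.2.1 P₀
  obtain ⟨π, h1, h2⟩ := Ideal.exists_mem_pow_notMem_pow_succ (RingHom.ker P₀) hne hmax.ne_top 1
  refine ⟨π, ?_, ?_, ?_⟩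
  · rintro rfl
    exact h2 (Ideal.zero_mem _)
  · rw [pow_one] at h1
    exact h1
  · unfold mI
    apply multiplicity_eq_of_dvd_of_not_dvd
    · rw [Ideal.dvd_span_singleton]
      exact h1
    · rw [Ideal.dvd_span_singleton]
      exact h2

omit [CharZero F] in
theorem del_pow (cv : Cv F A) {s : A} (hs : s ≠ 0) (i : ℕ) : cv.δ (s ^ i) = i * cv.δ s := by
  have := cv.ded
  induction i with
  | zero =>
    have h := cv.const 1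
    rw [map_one] at h
    simpa using h
  | succ i ih =>
    rw [pow_succ, cv.mul _ _ (pow_ne_zero _ hs) hs, ih]
    ring

omit [CharZero F] in
theorem del_aeval (cv : Cv F A) {s : A} (hs : s ≠ 0) (h : F[X]) :
    cv.δ (aeval s h) ≤ h.natDegree * cv.δ s := by
  change aeval s h ∈ cv.L (h.natDegree * cv.δ s)
  rw [aeval_eq_sum_range]
  apply Submodule.sum_mem
  intro i hi
  apply Submodule.smul_mem
  change cv.δ (s ^ i) ≤ _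
  rw [del_pow cv hs]
  exact Nat.mul_le_mul_right _ (Nat.lt_succ_iff.1 (mem_range.1 hi))

end pts

section normed

variable {F A Ω : Type} [Field F] [CharZero F] [CommRing A] [Algebra F A]
  [NontriviallyNormedField Ω] [IsUltrametricDist Ω] [Algebra F Ω]
  [IsAlgClosed Ω] [Algebra.IsAlgebraic F Ω]

/-- the disc around `R` -/
def Ud (W : Finset A) (ε₁ : ℝ) (π : A) (R : A →ₐ[F] Ω) (ε : ℝ) : Set (A →ₐ[F] Ω) :=
  {P | P ∈ Near W ε₁ R ∧ ‖P π‖ < ε}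

theorem prod_of_lt (hCv : S_Cv) (hPts : S_Pts) (cv : Cv F A) {f : A} (hf : f ≠ 0) (π : A)
    (U : Set (A →ₐ[F] Ω)) (x : Ω) (h : ∀ Q ∈ U, Q f = 0 → ‖Q π‖ < ‖x‖) :
    ∏ᶠ Q ∈ U, ‖x - Q π‖ ^ mI Q (Ideal.span {f}) = ‖x‖ ^ nZ (Ideal.span {f}) U := by
  obtain ⟨Z, hZ, -⟩ := exists_Z (Ω := Ω) hCv hPts cv hf
  have hm : ∀ P : A →ₐ[F] Ω, mI P (Ideal.span {f}) ≠ 0 → P ∈ Z := fun P hP =>
    (hZ P).2 ((mI_ne_iff hPts cv hf P).1 hP)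
  unfold nZ
  rw [fprod_eq U Z _ hm, fsum_eq U Z _ hm, ← prod_pow_eq_pow_sum]
  apply prod_congr rfl
  intro Q hQ
  rw [mem_filter] at hQ
  have h1 := h Q hQ.2 ((hZ Q).1 hQ.1)
  rw [sub_eq_add_neg, IsUltrametricDist.norm_add_eq_max_of_norm_ne_norm (by
    rw [norm_neg]; exact h1.ne'), norm_neg, max_eq_left h1.le]

theorem prod_le_of (hCv : S_Cv) (hPts : S_Pts) (cv : Cv F A) {f : A} (hf : f ≠ 0) (π : A)
    (U : Set (A →ₐ[F] Ω)) (x : Ω) (ε : ℝ) (hx : ‖x‖ ≤ ε) (h : ∀ Q ∈ U, Q f = 0 → ‖Q π‖ ≤ ε) :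
    ∏ᶠ Q ∈ U, ‖x - Q π‖ ^ mI Q (Ideal.span {f}) ≤ ε ^ nZ (Ideal.span {f}) U := by
  obtain ⟨Z, hZ, -⟩ := exists_Z (Ω := Ω) hCv hPts cv hf
  have hm : ∀ P : A →ₐ[F] Ω, mI P (Ideal.span {f}) ≠ 0 → P ∈ Z := fun P hP =>
    (hZ P).2 ((mI_ne_iff hPts cv hf P).1 hP)
  unfold nZ
  rw [fprod_eq U Z _ hm, fsum_eq U Z _ hm, ← prod_pow_eq_pow_sum]
  apply prod_le_prod
  · intro Q _
    positivity
  intro Q hQ
  rw [mem_filter] at hQ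
  have h1 := h Q hQ.2 ((hZ Q).1 hQ.1)
  apply pow_le_pow_left₀ (norm_nonneg _)
  rw [sub_eq_add_neg]
  refine (IsUltrametricDist.norm_add_le_max _ _).trans (max_le hx ?_)
  rw [norm_neg]
  exact h1

omit [CharZero F] [IsUltrametricDist Ω] [IsAlgClosed Ω] [Algebra.IsAlgebraic F Ω] in
theorem cj_mem_Ud (hiso : ∀ (σ : Ω ≃ₐ[F] Ω) (x : Ω), ‖σ x‖ = ‖x‖) (σ : Ω ≃ₐ[F] Ω)
    (W : Finset A) (ε₁ : ℝ) (π : A) (R P : A →ₐ[F] Ω) (ε : ℝ) :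
    cj σ P ∈ Ud W ε₁ π (cj σ R) ε ↔ P ∈ Ud W ε₁ π R ε := by
  simp only [Ud, Near, Set.mem_ofPred_eq, cj_apply, ← map_sub, hiso]

omit [IsUltrametricDist Ω] in
theorem nZ_cj (hCv : S_Cv) (hPts : S_Pts) (cv : Cv F A)
    (hiso : ∀ (σ : Ω ≃ₐ[F] Ω) (x : Ω), ‖σ x‖ = ‖x‖) {f : A} (hf : f ≠ 0)
    (W : Finset A) (ε₁ : ℝ) (π : A) (P₀ R : A →ₐ[F] Ω) (ε : ℝ)
    (hR : RingHom.ker P₀ = RingHom.ker R) :
    nZ (Ideal.span {f}) (Ud W ε₁ π R ε) = nZ (Ideal.span {f}) (Ud W ε₁ π P₀ ε) := by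
  obtain ⟨σ, hσ⟩ := (hPts F A Ω cv).2.2.2.2.2.2.1 P₀ R hR
  have hRe : R = cj σ P₀ := by
    ext a
    exact hσ a
  obtain ⟨Z, hZ, -⟩ := exists_Z (Ω := Ω) hCv hPts cv hf
  have hm : ∀ P : A →ₐ[F] Ω, mI P (Ideal.span {f}) ≠ 0 → P ∈ Z := fun P hP =>
    (hZ P).2 ((mI_ne_iff hPts cv hf P).1 hP)
  unfold nZ
  rw [fsum_eq _ Z _ hm, fsum_eq _ Z _ hm]
  symm
  apply Finset.sum_equiv (cjE σ)
  · intro P
    rw [mem_filter, mem_filter, hZ, hZ, hRe]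
    change _ ↔ cj σ P f = 0 ∧ cj σ P ∈ _
    rw [cj_mem_Ud hiso, cj_apply, map_eq_zero_iff σ σ.injective]
  · intro P _
    exact mI_congr (ker_cj σ P).symm _

end normed

end LemP

end Pool.Agent.P.MP_b8021b_nt.VC
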