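import Pool.Agent.P.MP_b8021b_nt.VC.PLem1

/-! Package Lem, part 2: counting zeros in conjugate discs; a function with all zeros in them. -/

namespace Pool.Agent.P.MP_b8021b_nt.VC

open Polynomial NumberField Finset Pool.Agent.P.MP_b8021b_nt.VE
open scoped Classical

namespace LemP

section normed

variable {F A Ω : Type} [Field F] [CharZero F] [CommRing A] [Algebra F A]
  [NontriviallyNormedField Ω] [IsUltrametricDist Ω] [Algebra F Ω]
  [IsAlgClosed Ω] [Algebra.IsAlgebraic F Ω]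

omit [IsUltrametricDist Ω] in
theorem eq_cj (hPts : S_Pts) (cv : Cv F A) {P Q : A →ₐ[F] Ω}
    (h : RingHom.ker P = RingHom.ker Q) : ∃ σ : Ω ≃ₐ[F] Ω, Q = cj σ P := by
  obtain ⟨σ, hσ⟩ := (hPts F A Ω cv).2.2.2.2.2.2.1 P Q h
  refine ⟨σ, ?_⟩
  ext a
  exact hσ a

omit [IsUltrametricDist Ω] in
theorem norm_congr (hPts : S_Pts) (cv : Cv F A)
    (hiso : ∀ (σ : Ω ≃ₐ[F] Ω) (x : Ω), ‖σ x‖ = ‖x‖) {P Q : A →ₐ[F] Ω}
    (h : RingHom.ker P = RingHom.ker Q) (a : A) : ‖P a‖ = ‖Q a‖ := by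
  obtain ⟨σ, rfl⟩ := eq_cj hPts cv h
  rw [cj_apply, hiso]

omit [CharZero F] [IsAlgClosed Ω] [Algebra.IsAlgebraic F Ω] in
theorem norm_sub_lt {x y z : Ω} {ε : ℝ} (h1 : ‖x - y‖ < ε) (h2 : ‖y - z‖ < ε) : ‖x - z‖ < ε := by
  have : x - z = (x - y) + (y - z) := by ring
  rw [this]
  exact (IsUltrametricDist.norm_add_le_max _ _).trans_lt (max_lt h1 h2)

theorem disc_unique (hPts : S_Pts) (cv : Cv F A)
    (hiso : ∀ (σ : Ω ≃ₐ[F] Ω) (x : Ω), ‖σ x‖ = ‖x‖) (W : Finset A) {ε₁ ε₂ : ℝ} (π : A)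
    (P₀ : A →ₐ[F] Ω) (hε₁ : 0 < ε₁) (hε₂ : 0 < ε₂) (hπ : P₀ π = 0)
    (hinj : Set.InjOn (fun P : A →ₐ[F] Ω => P π) (Ud W ε₁ π P₀ ε₂)) {R R' Q : A →ₐ[F] Ω}
    (hR : RingHom.ker P₀ = RingHom.ker R) (hR' : RingHom.ker P₀ = RingHom.ker R')
    (h : Q ∈ Ud W ε₁ π R ε₂) (h' : Q ∈ Ud W ε₁ π R' ε₂) : R = R' := by
  obtain ⟨σ, rfl⟩ := eq_cj hPts cv hR
  have hR'π : R' π = 0 := by
    rw [← RingHom.mem_ker, ← hR', RingHom.mem_ker]
    exact hπ
  have h1 : R' ∈ Ud W ε₁ π (cj σ P₀) ε₂ := by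
    refine ⟨fun w hw => ?_, by rw [hR'π, norm_zero]; exact hε₂⟩
    refine norm_sub_lt (y := Q w) ?_ (h.1 w hw)
    rw [norm_sub_rev]
    exact h'.1 w hw
  have h2 : cj σ (cj σ.symm R') = R' := (cjE σ).right_inv R'
  rw [← h2, cj_mem_Ud hiso] at h1
  have h3 : P₀ ∈ Ud W ε₁ π P₀ ε₂ :=
    ⟨fun w _ => by rw [sub_self, norm_zero]; exact hε₁, by rw [hπ, norm_zero]; exact hε₂⟩
  have h4 : P₀ = cj σ.symm R' := by
    apply hinj h3 h1
    change P₀ π = σ.symm (R' π)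
    rw [hπ, hR'π, map_zero]
  rw [h4, h2]

theorem count (hCv : S_Cv) (hPts : S_Pts) (cv : Cv F A)
    (hiso : ∀ (σ : Ω ≃ₐ[F] Ω) (x : Ω), ‖σ x‖ = ‖x‖) (W : Finset A) {ε₁ ε₂ : ℝ} (π : A)
    (P₀ : A →ₐ[F] Ω) (hε₁ : 0 < ε₁) (hε₂ : 0 < ε₂) (hπ : P₀ π = 0)
    (hinj : Set.InjOn (fun P : A →ₐ[F] Ω => P π) (Ud W ε₁ π P₀ ε₂)) {s f : A} (hs : s ≠ 0)
    (hf : f ≠ 0) (d : ℕ) (hδ : cv.δ f ≤ d * cv.δ s)
    (hN : nZ (Ideal.span {f}) (Ud W ε₁ π P₀ ε₂) = d * nZ (Ideal.span {s}) (Ud W ε₁ π P₀ ε₂))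
    (hall : ∀ P : A →ₐ[F] Ω, P s = 0 → ∃ R ∈ Ud W ε₁ π P₀ ε₂, RingHom.ker R = RingHom.ker P)
    (Q : A →ₐ[F] Ω) (hQ : Q f = 0) : ∃ R ∈ Ud W ε₁ π P₀ ε₂, RingHom.ker R = RingHom.ker Q := by
  obtain ⟨hmax, hne, -⟩ := (hPts F A Ω cv).2.2.2.2.1 P₀
  have hfin := ((hPts F A Ω cv).1 _ hne).1
  set T := hfin.toFinset with hT
  have hTm : ∀ R, R ∈ T ↔ RingHom.ker P₀ = RingHom.ker R := by
    intro R
    rw [hT, Set.Finite.mem_toFinset, Set.mem_ofPred_eq]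
    constructor
    · intro h
      exact hmax.eq_of_le ((hPts F A Ω cv).2.2.2.2.1 R).1.ne_top h
    · intro h
      exact h.le
  have hV : ∀ P : A →ₐ[F] Ω, (∃ R ∈ Ud W ε₁ π P₀ ε₂, RingHom.ker R = RingHom.ker P) ↔
      ∃ R ∈ T, P ∈ Ud W ε₁ π R ε₂ := by
    intro P
    constructor
    · rintro ⟨R, hR, hk⟩
      obtain ⟨σ, rfl⟩ := eq_cj hPts cv hk
      exact ⟨cj σ P₀, (hTm _).2 (ker_cj σ P₀).symm, (cj_mem_Ud hiso σ W ε₁ π P₀ R ε₂).2 hR⟩
    · rintro ⟨R, hR, hP⟩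
      obtain ⟨σ, rfl⟩ := eq_cj hPts cv ((hTm R).1 hR)
      have h2 : cj σ (cj σ.symm P) = P := (cjE σ).right_inv P
      rw [← h2, cj_mem_Ud hiso] at hP
      exact ⟨_, hP, ker_cj _ _⟩
  have hsum : ∀ h : A, h ≠ 0 → ∀ Z : Finset (A →ₐ[F] Ω), (∀ P, P ∈ Z ↔ P h = 0) →
      T.card * nZ (Ideal.span {h}) (Ud W ε₁ π P₀ ε₂) =
        ∑ P ∈ Z, (T.filter fun R => P ∈ Ud W ε₁ π R ε₂).card * mI P (Ideal.span {h}) := by
    intro h hh Z hZ
    have hm : ∀ P : A →ₐ[F] Ω, mI P (Ideal.span {h}) ≠ 0 → P ∈ Z := fun P hP =>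
      (hZ P).2 ((mI_ne_iff hPts cv hh P).1 hP)
    calc T.card * nZ (Ideal.span {h}) (Ud W ε₁ π P₀ ε₂)
        = ∑ R ∈ T, nZ (Ideal.span {h}) (Ud W ε₁ π R ε₂) := by
          rw [card_eq_sum_ones, sum_mul]
          apply sum_congr rfl
          intro R hR
          rw [one_mul, nZ_cj hCv hPts cv hiso hh W ε₁ π P₀ R ε₂ ((hTm R).1 hR)]
      _ = ∑ R ∈ T, ∑ P ∈ Z, if P ∈ Ud W ε₁ π R ε₂ then mI P (Ideal.span {h}) else 0 := by
          apply sum_congr rfl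
          intro R _
          unfold nZ
          rw [fsum_eq _ Z _ hm, sum_filter]
      _ = ∑ P ∈ Z, ∑ R ∈ T, if P ∈ Ud W ε₁ π R ε₂ then mI P (Ideal.span {h}) else 0 :=
          sum_comm
      _ = _ := by
          apply sum_congr rfl
          intro P _
          rw [← sum_filter, sum_const, smul_eq_mul]
  obtain ⟨Zs, hZs, hds⟩ := exists_Z (Ω := Ω) hCv hPts cv hs
  obtain ⟨Zf, hZf, hdf⟩ := exists_Z (Ω := Ω) hCv hPts cv hf
  have h1 : cv.δ s ≤ T.card * nZ (Ideal.span {s}) (Ud W ε₁ π P₀ ε₂) := by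
    rw [hsum s hs Zs hZs, ← hds]
    apply sum_le_sum
    intro P hP
    obtain ⟨R, hR, hPR⟩ := (hV P).1 (hall P ((hZs P).1 hP))
    apply Nat.le_mul_of_pos_left
    exact card_pos.2 ⟨R, mem_filter.2 ⟨hR, hPR⟩⟩
  by_contra hcon
  rw [hV] at hcon
  have h2 : T.card * nZ (Ideal.span {f}) (Ud W ε₁ π P₀ ε₂) < cv.δ f := by
    rw [hsum f hf Zf hZf, ← hdf]
    apply sum_lt_sum
    · intro P _
      have : (T.filter fun R => P ∈ Ud W ε₁ π R ε₂).card ≤ 1 := by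
        rw [card_le_one]
        intro R hR R' hR'
        rw [mem_filter] at hR hR'
        exact disc_unique hPts cv hiso W π P₀ hε₁ hε₂ hπ hinj ((hTm R).1 hR.1) ((hTm R').1 hR'.1)
          hR.2 hR'.2
      calc _ ≤ 1 * mI P (Ideal.span {f}) := Nat.mul_le_mul_right _ this
        _ = _ := one_mul _
    · refine ⟨Q, (hZf Q).2 hQ, ?_⟩
      have : (T.filter fun R => Q ∈ Ud W ε₁ π R ε₂) = ∅ := by
        rw [filter_eq_empty_iff]
        intro R hR hQR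
        exact hcon ⟨R, hR, hQR⟩
      rw [this, card_empty, zero_mul]
      exact Nat.pos_of_ne_zero ((mI_ne_iff hPts cv hf Q).2 hQ)
  rw [hN] at h2
  have h3 : d * cv.δ s ≤ d * (T.card * nZ (Ideal.span {s}) (Ud W ε₁ π P₀ ε₂)) :=
    Nat.mul_le_mul_left _ h1
  have h4 : d * (T.card * nZ (Ideal.span {s}) (Ud W ε₁ π P₀ ε₂)) =
      T.card * (d * nZ (Ideal.span {s}) (Ud W ε₁ π P₀ ε₂)) := by ring
  omega

omit [CharZero F] in
/-- the value of the minimal polynomial of a small element -/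
theorem norm_aeval_minpoly (hiso : ∀ (σ : Ω ≃ₐ[F] Ω) (x : Ω), ‖σ x‖ = ‖x‖) (α x : Ω)
    (h : ‖α‖ < ‖x‖) : ‖aeval x (minpoly F α)‖ = ‖x‖ ^ (minpoly F α).natDegree := by
  have hint : IsIntegral F α := (Algebra.IsAlgebraic.isAlgebraic α).isIntegral
  have : IsAlgClosure F Ω := ⟨inferInstance, inferInstance⟩
  have hsp : ((minpoly F α).map (algebraMap F Ω)).Splits := IsAlgClosed.splits _
  rw [hsp.aeval_eq_prod_aroots_of_monic (minpoly.monic hint)]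
  have hcard : Multiset.card ((minpoly F α).aroots Ω) = (minpoly F α).natDegree := by
    rw [aroots, ← hsp.natDegree_eq_card_roots, natDegree_map]
  rw [← hcard]
  have key : ∀ m : Multiset Ω, (∀ β ∈ m, ‖β‖ < ‖x‖) →
      ‖(m.map (x - ·)).prod‖ = ‖x‖ ^ Multiset.card m := by
    intro m
    induction m using Multiset.induction_on with
    | empty => simp
    | cons β m ih =>
      intro hm
      rw [Multiset.map_cons, Multiset.prod_cons, norm_mul, Multiset.card_cons, pow_succ',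
        ih fun γ hγ => hm γ (Multiset.mem_cons_of_mem hγ)]
      have h1 := hm β (Multiset.mem_cons_self _ _)
      rw [sub_eq_add_neg, IsUltrametricDist.norm_add_eq_max_of_norm_ne_norm (by
        rw [norm_neg]; exact h1.ne'), norm_neg, max_eq_left h1.le]
  apply key
  intro β hβ
  rw [mem_aroots] at hβ
  obtain ⟨σ, hσ⟩ := minpoly.exists_algEquiv_of_root' (Algebra.IsAlgebraic.isAlgebraic α) hβ.2
  rw [← hσ, hiso]
  exact h

end normed

section ex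

variable {F F₁ A Ω : Type} [NontriviallyNormedField F] [CharZero F] [CommRing A] [Algebra F A]
  [NontriviallyNormedField Ω] [IsUltrametricDist Ω] [NormedAlgebra F Ω]
  [IsAlgClosed Ω] [Algebra.IsAlgebraic F Ω]
  [NontriviallyNormedField F₁] [ProperSpace F₁] [Algebra F F₁] [NormedAlgebra F₁ Ω]
  [IsScalarTower F F₁ Ω] [FiniteDimensional F F₁]

theorem exists_s_aux (hPts : S_Pts) (hBC : S_BC) (hRig : S_Rig1) (hUnif : S_Unif) (cv : Cv F A)
    (hiso : ∀ (σ : Ω ≃ₐ[F] Ω) (x : Ω), ‖σ x‖ = ‖x‖) (W : Finset A) {ε₁ ε : ℝ} (π : A)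
    (P₀ : A →ₐ[F] Ω) (hε₁ : 0 < ε₁) (hε : 0 < ε)
    (hP₀ : ∀ a, P₀ a ∈ Set.range (algebraMap F₁ Ω))
    (hbij : Set.BijOn (fun P : A →ₐ[F] Ω => P π) (Ud W ε₁ π P₀ ε) (Metric.ball 0 ε)) :
    ∃ s : A, s ≠ 0 ∧ (∀ P : A →ₐ[F] Ω, P s = 0 →
      ∃ R ∈ Ud W ε₁ π P₀ ε, RingHom.ker R = RingHom.ker P) ∧ ∃ R ∈ Ud W ε₁ π P₀ ε, R s = 0 := by
  have : CharZero F₁ := charZero_of_injective_algebraMap (algebraMap F F₁).injective
  have : Algebra.IsAlgebraic F₁ Ω := Algebra.IsAlgebraic.tower_top (K := F) F₁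
  have : IsAlgClosure F₁ Ω := ⟨inferInstance, inferInstance⟩
  have : IsGalois F₁ Ω := inferInstance
  obtain ⟨A', _, _, cv', ι, halg, -, -, -, hlift, hnorm⟩ := hBC F F₁ A cv
  -- restriction of points
  let res : (A' →ₐ[F₁] Ω) → (A →ₐ[F] Ω) := fun P' =>
    { toRingHom := (P' : A' →+* Ω).comp ι
      commutes' := fun c => by
        change P' (ι (algebraMap F A c)) = _
        rw [halg, AlgHom.commutes, ← IsScalarTower.algebraMap_apply] }
  have hres : ∀ P' a, res P' a = P' (ι a) := fun _ _ => rfl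
  let S : Set (A' →ₐ[F₁] F₁) := {Q | res ((Algebra.ofId F₁ Ω).comp Q) ∈ Ud W ε₁ π P₀ ε}
  have hS : S.Infinite := by
    have hball : (Metric.ball (0 : F) ε).Infinite :=
      infinite_of_mem_nhds (0 : F) (Metric.ball_mem_nhds _ hε)
    have hball' : (algebraMap F Ω '' Metric.ball (0 : F) ε).Infinite :=
      hball.image (algebraMap F Ω).injective.injOn
    apply Set.Infinite.of_image fun Q : A' →ₐ[F₁] F₁ => algebraMap F₁ Ω (Q (ι π))
    refine hball'.mono ?_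
    rintro _ ⟨x, hx, rfl⟩
    have hx' : algebraMap F Ω x ∈ Metric.ball (0 : Ω) ε := by
      rw [mem_ball_zero_iff] at hx ⊢
      rw [norm_algebraMap']
      exact hx
    obtain ⟨P, hP, hPx⟩ := hbij.surjOn hx'
    have hPx' : P π = algebraMap F Ω x := hPx
    have hrat : ∀ a, P a ∈ Set.range (algebraMap F₁ Ω) := by
      intro a
      rw [InfiniteGalois.mem_range_algebraMap_iff_fixed]
      intro σ
      have h0 : cj (σ.restrictScalars F) P₀ = P₀ := by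
        ext b
        obtain ⟨c, hc⟩ := hP₀ b
        change σ (P₀ b) = P₀ b
        rw [← hc, AlgEquiv.commutes]
      have h1 : cj (σ.restrictScalars F) P ∈ Ud W ε₁ π P₀ ε := by
        have := (cj_mem_Ud hiso (σ.restrictScalars F) W ε₁ π P₀ P ε).2 hP
        rwa [h0] at this
      have h2 : cj (σ.restrictScalars F) P = P := by
        apply hbij.injOn h1 hP
        change (σ.restrictScalars F) (P π) = P π
        rw [hPx', AlgEquiv.commutes]
      exact DFunLike.congr_fun h2 a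
    choose p hp using hrat
    have hinj := (algebraMap F₁ Ω).injective
    let f : A →+* F₁ :=
      { toFun := p
        map_one' := hinj (by rw [hp, map_one, map_one])
        map_mul' := fun a b => hinj (by rw [map_mul, hp, hp, hp, map_mul])
        map_zero' := hinj (by rw [hp, map_zero, map_zero])
        map_add' := fun a b => hinj (by rw [map_add, hp, hp, hp, map_add]) }
    obtain ⟨g, hg1, hg2⟩ := hlift F₁ (RingHom.id F₁) f fun c => hinj (by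
      change algebraMap F₁ Ω (p _) = algebraMap F₁ Ω (algebraMap F F₁ c)
      rw [hp, AlgHom.commutes, ← IsScalarTower.algebraMap_apply])
    let Q : A' →ₐ[F₁] F₁ := { toRingHom := g, commutes' := hg2 }
    have hQ : ∀ a, algebraMap F₁ Ω (Q (ι a)) = P a := by
      intro a
      change algebraMap F₁ Ω (g (ι a)) = P a
      rw [hg1]
      exact hp a
    refine ⟨Q, ?_, by rw [← hPx']; exact hQ π⟩
    have : res ((Algebra.ofId F₁ Ω).comp Q) = P := by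
      ext a
      exact hQ a
    change res ((Algebra.ofId F₁ Ω).comp Q) ∈ Ud W ε₁ π P₀ ε
    rw [this]
    exact hP
  obtain ⟨Q, hQS, hQR⟩ := hRig F₁ A' cv' S hS
  obtain ⟨s', j, P, hs', -, -, hnear, hmul⟩ := hUnif F₁ A' Ω cv' Q hQR ((insert π W).image ι)
    (min ε₁ ε) (lt_min hε₁ hε)
  have hPU : ∀ i, res (P i) ∈ Ud W ε₁ π P₀ ε := by
    intro i
    have hq : res ((Algebra.ofId F₁ Ω).comp (Q i)) ∈ Ud W ε₁ π P₀ ε := hQS i
    refine ⟨fun w hw => ?_, ?_⟩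
    · refine norm_sub_lt ?_ (hq.1 w hw)
      exact (hnear i (ι w) (mem_image_of_mem _ (mem_insert_of_mem hw))).trans_le (min_le_left _ _)
    · rw [← sub_zero (res (P i) π)]
      refine norm_sub_lt (y := res ((Algebra.ofId F₁ Ω).comp (Q i)) π) ?_ ?_
      · exact (hnear i (ι π) (mem_image_of_mem _ (mem_insert_self _ _))).trans_le (min_le_right _ _)
      · rw [sub_zero]
        exact hq.2
  have hzero : ∀ R' : A' →ₐ[F₁] Ω, R' s' = 0 → res R' ∈ Ud W ε₁ π P₀ ε := by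
    intro R' hR'
    have h1 := (mI_ne_iff hPts cv' hs' R').2 hR'
    rw [hmul] at h1
    by_cases h2 : ∃ i, P i = R'
    · obtain ⟨i, rfl⟩ := h2
      exact hPU i
    by_cases h3 : ∃ i, (Algebra.ofId F₁ Ω).comp (Q i) = R'
    · obtain ⟨i, rfl⟩ := h3
      exact hQS i
    exfalso
    apply h1
    rw [filter_eq_empty_iff.2 fun i _ hi => h2 ⟨i, hi⟩,
      filter_eq_empty_iff.2 fun i _ hi => h3 ⟨i, hi⟩]
    simp
  obtain ⟨s, hs, hdvd, hz⟩ := hnorm inferInstance s' hs'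
  refine ⟨s, hs, fun R hR => ?_, res (P 0), hPU 0, ?_⟩
  · obtain ⟨P', hP'1, hP'2⟩ := hz Ω R hR
    have := cv'.ded
    have hne : RingHom.ker P' ≠ ⊥ := by
      intro h
      have : s' ∈ RingHom.ker P' := hP'2
      rw [h, Ideal.mem_bot] at this
      exact hs' this
    have hmax : (RingHom.ker P').IsMaximal := (RingHom.ker_isPrime P').isMaximal hne
    obtain ⟨R', hR'⟩ := (hPts F₁ A' Ω cv').2.2.2.2.2.1 _ hmax
    refine ⟨res R', hzero R' ?_, ?_⟩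
    · rw [← RingHom.mem_ker, hR']
      exact hP'2
    · ext a
      rw [RingHom.mem_ker, RingHom.mem_ker, hres, ← hP'1, ← RingHom.mem_ker, hR', RingHom.mem_ker]
  · have h1 : P 0 s' = 0 := by
      rw [← mI_ne_iff hPts cv' hs', hmul]
      have : 0 < (univ.filter fun i => P i = P 0).card :=
        card_pos.2 ⟨0, mem_filter.2 ⟨mem_univ _, rfl⟩⟩
      omega
    obtain ⟨t, ht⟩ := hdvd
    rw [hres, ht, map_mul, h1, zero_mul]

end ex

end LemP

end Pool.Agent.P.MP_b8021b_nt.VC
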