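import Pool.Agent.P.MP_b8021b_nt.VC.BasicA

/-! Polynomial lemmas for the integral model. -/

namespace Pool.Agent.P.MP_b8021b_nt.VC.PMod

open Polynomial Finset Pool.Agent.P.MP_b8021b_nt.VE
open scoped Classical

noncomputable section

/-- the substitution `X = a / b`, `U = U / b ^ κ` -/
def sub (κ : ℕ) (t : ℤ × ℤ) : ℤ[X][X] →+* ℚ[X] :=
  (compRingHom (C (((t.2 : ℚ) ^ κ)⁻¹) * X)).comp
    (mapRingHom (aeval ((t.1 : ℚ) / t.2) : ℤ[X] →ₐ[ℤ] ℚ).toRingHom)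

theorem sub_C (κ : ℕ) (t : ℤ × ℤ) (g : ℤ[X]) :
    sub κ t (C g) = C (aeval ((t.1 : ℚ) / t.2) g) := by simp [sub]

theorem sub_X (κ : ℕ) (t : ℤ × ℤ) : sub κ t X = C (((t.2 : ℚ) ^ κ)⁻¹) * X := by simp [sub]

theorem der_sub (κ : ℕ) (t : ℤ × ℤ) (Q : ℤ[X][X]) :
    derivative (sub κ t Q) = C (((t.2 : ℚ) ^ κ)⁻¹) * sub κ t (derivative Q) := by
  simp [sub, derivative_comp]

theorem hev_q {d : ℕ} {g : ℤ[X]} (hg : g.natDegree ≤ d) {t : ℤ × ℤ} (ht : t.2 ≠ 0) :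
    ((hev d g t.1 t.2 : ℤ) : ℚ) = (t.2 : ℚ) ^ d * aeval ((t.1 : ℚ) / t.2) g :=
  hev_cast hg (by have : (t.2 : ℚ) ≠ 0 := Int.cast_ne_zero.2 ht; field_simp)

theorem exists_hom (κ : ℕ) (Q : ℤ[X][X]) : ∃ N : ℕ, ∀ (k : ℕ) (t : ℤ × ℤ), t.2 ≠ 0 →
    ∃ H : ℤ[X], H.map (Int.castRingHom ℚ) = C ((t.2 : ℚ) ^ (N + k)) * sub κ t Q := by
  suffices h : ∃ N : ℕ, ∀ t : ℤ × ℤ, t.2 ≠ 0 →
      ∃ H : ℤ[X], H.map (Int.castRingHom ℚ) = C ((t.2 : ℚ) ^ N) * sub κ t Q by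
    obtain ⟨N, h⟩ := h
    refine ⟨N, fun k t ht => ?_⟩
    obtain ⟨H, hH⟩ := h t ht
    refine ⟨C (t.2 ^ k) * H, ?_⟩
    rw [Polynomial.map_mul, hH, map_C, ← mul_assoc, ← C_mul, pow_add, mul_comm ((t.2 : ℚ) ^ N)]
    simp
  induction Q using Polynomial.induction_on with
  | C g =>
    refine ⟨g.natDegree, fun t ht => ⟨C (hev g.natDegree g t.1 t.2), ?_⟩⟩
    rw [map_C, sub_C, ← C_mul, ← hev_q le_rfl ht]
    rfl
  | add p q hp hq =>
    obtain ⟨N, hp⟩ := hp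
    obtain ⟨M, hq⟩ := hq
    refine ⟨N + M, fun t ht => ?_⟩
    obtain ⟨H, hH⟩ := hp t ht
    obtain ⟨K, hK⟩ := hq t ht
    refine ⟨C (t.2 ^ M) * H + C (t.2 ^ N) * K, ?_⟩
    rw [Polynomial.map_add, Polynomial.map_mul, Polynomial.map_mul, hH, hK, map_add, map_C, map_C,
      pow_add, C_mul]
    simp only [eq_intCast, Int.cast_pow]
    ring
  | monomial n g h =>
    obtain ⟨N, h⟩ := h
    refine ⟨N + κ, fun t ht => ?_⟩
    obtain ⟨H, hH⟩ := h t ht
    refine ⟨H * X, ?_⟩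
    have h1 : C ((t.2 : ℚ) ^ κ) * C (((t.2 : ℚ) ^ κ)⁻¹) = 1 := by
      rw [← C_mul, mul_inv_cancel₀ (pow_ne_zero _ (Int.cast_ne_zero.2 ht)), C_1]
    rw [Polynomial.map_mul, hH, map_X, pow_succ, ← mul_assoc, map_mul _ _ X, sub_X, pow_add, C_mul]
    linear_combination (-(C ((t.2 : ℚ) ^ N) * sub κ t (C g * X ^ n) * X)) * h1

variable {R : Type} [CommRing R] [Algebra ℤ[X] R] (T : Tab R)

theorem map_Pt {t : ℤ × ℤ} (ht : t.2 ≠ 0) : (T.Pt t).map (Int.castRingHom ℚ) =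
    C ((t.2 : ℚ) ^ (T.e * T.κ T.i1)) * sub (T.κ T.i1) t T.P := by
  have h0 : (t.2 : ℚ) ≠ 0 := Int.cast_ne_zero.2 ht
  have h1 : T.P = ∑ l ∈ range (T.e + 1), C (T.P.coeff l) * X ^ l := by
    conv_lhs => rw [T.P.as_sum_range_C_mul_X_pow, T.P_eq, T.natDegree_cp]
    rfl
  rw [h1, map_sum, mul_sum, Tab.Pt, Polynomial.map_sum]
  refine sum_congr rfl fun l hl => ?_
  have h2 : l ≤ T.e := Nat.lt_succ_iff.1 (mem_range.1 hl)
  have h3 : (T.P.coeff l).natDegree ≤ (T.e - l) * T.κ T.i1 :=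
    Tab.natDegree_cp_coeff (T.y_mem_Lw_κ _) l
  rw [Polynomial.map_mul, map_C, Polynomial.map_pow, map_X, map_mul, map_pow (sub _ _), sub_C, sub_X,
    eq_intCast, hev_q h3 ht, mul_pow, ← C_pow,
    ← mul_assoc, ← mul_assoc, ← C_mul, ← C_mul]
  congr 2
  rw [show T.e * T.κ T.i1 = (T.e - l) * T.κ T.i1 + T.κ T.i1 * l by
    rw [mul_comm _ l, ← add_mul, Nat.sub_add_cancel h2], pow_add, pow_mul _ (T.κ T.i1), inv_pow]
  field_simp

theorem sep_of {a b : ℤ[X][X]} {D : ℤ[X]} (h : T.P * a + derivative T.P * b = C D) :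
    ∃ dD, D.natDegree ≤ dD ∧ ∀ t : ℤ × ℤ, ∃ a b : ℤ[X],
      a * T.Pt t + b * derivative (T.Pt t) = C (hev dD D t.1 t.2) := by
  obtain ⟨N, hN⟩ := exists_hom (T.κ T.i1) a
  obtain ⟨M, hM⟩ := exists_hom (T.κ T.i1) b
  refine ⟨N + M + D.natDegree + 1 + T.e * T.κ T.i1, by omega, fun t => ?_⟩
  by_cases ht : t.2 = 0
  · refine ⟨0, 0, ?_⟩
    rw [ht, hev_b_zero, coeff_eq_zero_of_natDegree_lt (by omega)]
    simp
  obtain ⟨H, hH⟩ := hN (M + D.natDegree + 1) t ht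
  obtain ⟨K, hK⟩ := hM (N + D.natDegree + 1 + T.κ T.i1) t ht
  refine ⟨H, K, map_injective (Int.castRingHom ℚ) Int.cast_injective ?_⟩
  have h1 : C ((t.2 : ℚ) ^ T.κ T.i1) * C (((t.2 : ℚ) ^ T.κ T.i1)⁻¹) = 1 := by
    rw [← C_mul, mul_inv_cancel₀ (pow_ne_zero _ (Int.cast_ne_zero.2 ht)), C_1]
  have h2 := congrArg (sub (T.κ T.i1) t) h
  rw [map_add, map_mul, map_mul, sub_C] at h2
  rw [Polynomial.map_add, Polynomial.map_mul, Polynomial.map_mul, ← derivative_map, map_Pt T ht,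
    derivative_C_mul, der_sub, hH, hK, map_C, eq_intCast, hev_q (by omega) ht, C_mul, ← h2]
  simp only [pow_add, C_mul]
  linear_combination (C ((t.2 : ℚ) ^ M) * C ((t.2 : ℚ) ^ N) * C ((t.2 : ℚ) ^ D.natDegree) *
    C ((t.2 : ℚ) ^ 1) * C ((t.2 : ℚ) ^ (T.e * T.κ T.i1)) * sub (T.κ T.i1) t b *
    sub (T.κ T.i1) t (derivative T.P)) * h1

theorem natDegree_det_le {ι : Type} [Fintype ι] [DecidableEq ι] (M : Matrix ι ι ℤ[X]) {B : ℕ}
    (h : ∀ i j, (M i j).natDegree ≤ B) : M.det.natDegree ≤ Fintype.card ι * B := by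
  rw [Matrix.det_apply']
  refine natDegree_sum_le_of_forall_le _ _ fun σ _ => natDegree_mul_le.trans ?_
  rw [natDegree_intCast, zero_add]
  exact (natDegree_prod_le _ _).trans ((sum_le_card_nsmul _ _ _ fun i _ => h _ _).trans_eq rfl)

theorem exists_D (P : ℤ[X][X]) (hm : P.Monic) (hi : Irreducible P) {B : ℕ}
    (h : ∀ l, (P.coeff l).natDegree ≤ B) : ∃ (a b : ℤ[X][X]) (D : ℤ[X]), D ≠ 0 ∧
      D.natDegree ≤ 2 * P.natDegree * B ∧ P * a + derivative P * b = C D := by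
  obtain ⟨a, b, -, -, h1⟩ := exists_mul_add_mul_eq_C_resultant P (derivative P) le_rfl le_rfl
    (Or.inl fun h => hi.not_isUnit (by rw [hm.natDegree_eq_zero.1 h]; exact isUnit_one))
  refine ⟨a, b, _, fun h0 => ?_, ?_, h1⟩
  · have hinj := IsFractionRing.injective ℤ[X] (FractionRing ℤ[X])
    have h2 := (hm.irreducible_iff_irreducible_map_fraction_map (K := FractionRing ℤ[X])).1 hi
    refine resultant_ne_zero _ _ h2.separable ?_
    rw [derivative_map, natDegree_map_eq_of_injective hinj, natDegree_map_eq_of_injective hinj,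
      resultant_map_map, h0, map_zero]
  · refine (natDegree_det_le _ (B := B) fun i j => ?_).trans (Nat.mul_le_mul_right _ ?_)
    · refine Fin.addCases (fun j => ?_) (fun j => ?_) j
      · simp only [sylvester, Matrix.of_apply, Fin.addCases_left]
        split_ifs
        · rw [coeff_derivative]
          refine natDegree_mul_le.trans ?_
          rw [← Nat.cast_succ, natDegree_natCast]
          exact h _
        · simp
      · simp only [sylvester, Matrix.of_apply, Fin.addCases_right]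
        split_ifs
        · exact h _
        · simp
    · have := natDegree_derivative_le P
      rw [Fintype.card_fin]
      omega

theorem exists_gap (W : ℤ[X]) (hW : W ≠ 0) {B : ℕ} (h : W.natDegree ≤ B) :
    ∃ τ : ℝ, τ ≤ -2 ∧ -(2 * B + 3) ≤ τ ∧ ∀ a : ℝ, τ ≤ a → a ≤ τ + 1 → aeval a W ≠ 0 := by
  by_contra hc
  push Not at hc
  choose f h1 h2 h3 using fun k : Fin (B + 1) => hc (-(2 * k + 3))
    (by have := Nat.cast_nonneg (α := ℝ) k; linarith)
    (by have : (k : ℝ) ≤ B := Nat.cast_le.2 (Nat.lt_succ_iff.1 k.2); linarith)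
  have key : ∀ k l : Fin (B + 1), f k = f l → k ≤ l := fun k l e => by
    have h4 : (k : ℝ) < l + 1 := by linarith [h1 l, h2 k]
    exact Nat.lt_succ_iff.1 (by exact_mod_cast h4)
  refine (Polynomial.map_ne_zero_iff (f := algebraMap ℤ ℝ) Int.cast_injective).2 hW
    (eq_zero_of_natDegree_lt_card_of_eval_eq_zero _
      (fun k l e => le_antisymm (key k l e) (key l k e.symm))
      (fun k => by rw [eval_map_algebraMap, h3]) ?_)
  rw [Fintype.card_fin]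
  exact Nat.lt_succ_of_le (natDegree_map_le.trans h)

theorem exists_G {K : Type} [CommRing K] [CharZero K] {x : K} (hx : IsAlgebraic ℤ x) :
    ∃ (l : ℤ) (d : ℕ), l ≠ 0 ∧ ∀ n : ℤ, ∃ G : ℤ[X], G.Monic ∧ G.coeff 0 = 0 ∧ G.natDegree ≤ d ∧
      aeval (((n * l : ℤ) : K) * x) G = 0 := by
  obtain ⟨g, hg, h⟩ := hx
  refine ⟨g.leadingCoeff, 1 + g.natDegree, leadingCoeff_ne_zero.2 hg, fun n =>
    ⟨X * g.integralNormalization.scaleRoots n, monic_X.mul
      ((monic_scaleRoots_iff n).2 (monic_integralNormalization hg)), by simp, ?_, ?_⟩⟩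
  · refine natDegree_mul_le.trans ?_
    rw [natDegree_X, natDegree_scaleRoots, natDegree_integralNormalization]
  · have := scaleRoots_aeval_eq_zero (r := n)
      (integralNormalization_aeval_eq_zero h fun x hx => Int.cast_eq_zero.1 hx)
    rw [map_mul, Int.cast_mul, mul_assoc]
    exact mul_eq_zero_of_right _ this

end

end Pool.Agent.P.MP_b8021b_nt.VC.PMod
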