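import Mathlib

/-! General lemmas on norms and characteristic polynomials of free algebras. -/

namespace Pool.Agent.P.MP_b8021b_nt.VC

open Polynomial Finset
open scoped Classical

namespace PNrm

theorem det_exact {k U V W : Type*} [Field k] [AddCommGroup U] [Module k U] [AddCommGroup V]
    [Module k V] [AddCommGroup W] [Module k W] [FiniteDimensional k V] (i : U →ₗ[k] V)
    (q : V →ₗ[k] W) (hi : Function.Injective i) (hq : Function.Surjective q)
    (hex : LinearMap.range i = LinearMap.ker q) (fU : U →ₗ[k] U) (fV : V →ₗ[k] V)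
    (fW : W →ₗ[k] W) (h1 : ∀ x, fV (i x) = i (fU x)) (h2 : ∀ x, q (fV x) = fW (q x)) :
    LinearMap.det fV = LinearMap.det fU * LinearMap.det fW := by
  have he : LinearMap.ker q ≤ (LinearMap.ker q).comap fV := by
    intro x hx
    rw [Submodule.mem_comap, LinearMap.mem_ker, h2, LinearMap.mem_ker.1 hx, map_zero]
  rw [LinearMap.det_eq_det_mul_det _ fV he]
  let e1 : U ≃ₗ[k] LinearMap.ker q :=
    (LinearEquiv.ofInjective i hi).trans (LinearEquiv.ofEq _ _ hex)
  have he1 : ∀ x, (e1 x : V) = i x := fun x => rfl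
  let e2 := q.quotKerEquivOfSurjective hq
  have he2 : ∀ x, e2 (Submodule.Quotient.mk x) = q x := fun x => rfl
  congr 1
  · rw [← LinearMap.det_conj fU e1]
    congr 1
    ext x
    obtain ⟨y, rfl⟩ := e1.surjective x
    simp [he1, h1]
  · rw [← LinearMap.det_conj fW e2.symm]
    congr 1
    refine LinearMap.ext fun x => ?_
    obtain ⟨y, rfl⟩ := Submodule.Quotient.mk_surjective _ x
    apply e2.injective
    simp [he2, h2]

/-- an `A`-linear map between quotients is linear over compatible scalars -/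
def toK {k A : Type*} [Field k] [CommRing A] {I J : Ideal A} [Algebra k (A ⧸ I)]
    [Algebra k (A ⧸ J)] (h : ∀ c : k, ∃ u : A, algebraMap k (A ⧸ I) c = Ideal.Quotient.mk I u ∧
      algebraMap k (A ⧸ J) c = Ideal.Quotient.mk J u) (f : (A ⧸ I) →ₗ[A] (A ⧸ J)) :
    (A ⧸ I) →ₗ[k] (A ⧸ J) where
  toFun := f
  map_add' := f.map_add
  map_smul' c x := by
    obtain ⟨u, h1, h2⟩ := h c
    rw [RingHom.id_apply, Algebra.smul_def, Algebra.smul_def, h1, h2]
    exact f.map_smul u x

theorem norm_mul_quot {k A : Type*} [Field k] [CommRing A] [IsDedekindDomain A] (I J : Ideal A)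
    (hIJ : I * J ≠ 0) [Algebra k (A ⧸ I * J)] [Algebra k (A ⧸ I)] [Algebra k (A ⧸ J)]
    [FiniteDimensional k (A ⧸ I * J)]
    (h : ∀ c : k, ∃ u : A, algebraMap k (A ⧸ I * J) c = Ideal.Quotient.mk _ u ∧
      algebraMap k (A ⧸ I) c = Ideal.Quotient.mk I u ∧
      algebraMap k (A ⧸ J) c = Ideal.Quotient.mk J u) (g : A) :
    Algebra.norm k (Ideal.Quotient.mk (I * J) g) =
      Algebra.norm k (Ideal.Quotient.mk I g) * Algebra.norm k (Ideal.Quotient.mk J g) := by
  have hJ : J ≠ 0 := right_ne_zero_of_mul hIJ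
  obtain ⟨a, ha⟩ := IsDedekindDomain.exists_sup_span_eq (Ideal.mul_le_right (I := I) (J := J)) hIJ
  have haJ : a ∈ J := ha ▸ Ideal.mem_sup_right (Ideal.mem_span_singleton_self a)
  let φ : (A ⧸ I * J) →ₗ[A] (A ⧸ J) := Submodule.factor Ideal.mul_le_right
  let ψ0 : A →ₗ[A] (A ⧸ I * J) := (I * J).mkQ ∘ₗ LinearMap.toSpanSingleton A A a
  have hψ : ∀ r, ψ0 r = Ideal.Quotient.mk (I * J) (r * a) := fun r => rfl
  have hker : LinearMap.ker ψ0 = I := by
    ext r
    have e : r ∈ LinearMap.ker ψ0 ↔ r * a ∈ I * J := by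
      rw [LinearMap.mem_ker, hψ, Ideal.Quotient.eq_zero_iff_mem]
    rw [e]
    have h0 : r ∈ I → r * a ∈ I * J := fun h => Ideal.mul_mem_mul h haJ
    refine Iff.intro (fun h => ?_) h0
    have h1 : Ideal.span {r} * J ≤ I * J := by
      conv_lhs => rw [← ha]
      rw [Ideal.mul_sup, Ideal.span_singleton_mul_span_singleton]
      exact sup_le Ideal.mul_le_right ((Ideal.span_singleton_le_iff_mem _).2 h)
    rw [← Ideal.dvd_iff_le, mul_dvd_mul_iff_right hJ, Ideal.dvd_span_singleton] at h1
    exact h1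
  let ψ : (A ⧸ I) →ₗ[A] (A ⧸ I * J) := Submodule.liftQ I ψ0 hker.ge
  have hψ' : ∀ r, ψ (Ideal.Quotient.mk I r) = Ideal.Quotient.mk (I * J) (r * a) := fun r => rfl
  have hφ' : ∀ r, φ (Ideal.Quotient.mk (I * J) r) = Ideal.Quotient.mk J r := fun r => rfl
  have hinj : Function.Injective ψ :=
    LinearMap.ker_eq_bot.1 (Submodule.ker_liftQ_eq_bot _ _ _ hker.le)
  simp only [Algebra.norm_apply]
  refine det_exact (toK (fun c => (h c).imp fun u hu => ⟨hu.2.1, hu.1⟩) ψ)
    (toK (fun c => (h c).imp fun u hu => ⟨hu.1, hu.2.2⟩) φ) hinj ?_ ?_ _ _ _ ?_ ?_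
  · intro z
    obtain ⟨b, rfl⟩ := Ideal.Quotient.mk_surjective z
    exact ⟨Ideal.Quotient.mk _ b, rfl⟩
  · ext z
    obtain ⟨b, rfl⟩ := Ideal.Quotient.mk_surjective z
    rw [LinearMap.mem_ker, LinearMap.mem_range]
    change (∃ y, ψ y = _) ↔ φ _ = 0
    rw [hφ', Ideal.Quotient.eq_zero_iff_mem]
    constructor
    · rintro ⟨r, hr⟩
      obtain ⟨r, rfl⟩ := Ideal.Quotient.mk_surjective r
      rw [hψ', Ideal.Quotient.eq] at hr
      have h2 := sub_mem (J.mul_mem_left r haJ) (Ideal.mul_le_right hr)
      rwa [sub_sub_cancel] at h2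
    · intro hb
      rw [← ha] at hb
      obtain ⟨u, hu, v, hv, rfl⟩ := Submodule.mem_sup.1 hb
      obtain ⟨r, rfl⟩ := Ideal.mem_span_singleton'.1 hv
      refine ⟨Ideal.Quotient.mk _ r, ?_⟩
      rw [hψ', Ideal.Quotient.eq]
      simpa using hu
  · intro x
    obtain ⟨r, rfl⟩ := Ideal.Quotient.mk_surjective x
    change Ideal.Quotient.mk _ g * ψ _ = ψ (Ideal.Quotient.mk I g * Ideal.Quotient.mk I r)
    rw [← map_mul, hψ', hψ', ← map_mul, mul_assoc]
  · intro x
    obtain ⟨r, rfl⟩ := Ideal.Quotient.mk_surjective x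
    change φ (Ideal.Quotient.mk _ g * Ideal.Quotient.mk _ r) = Ideal.Quotient.mk J g * φ _
    rw [← map_mul, hφ', hφ', ← map_mul]

/-- the norm commutes with reduction modulo an element of the base -/
theorem norm_red {R A k ι : Type*} [CommRing R] [CommRing A] [Algebra R A] [Field k] [Fintype ι]
    (b : Module.Basis ι R A) (π : R) (τ : R →+* k) (hτ : Function.Surjective τ)
    (hπ : τ π = 0) (J : Ideal A) (hJ : J = Ideal.span {algebraMap R A π}) [Algebra k (A ⧸ J)]
    (h : ∀ r, algebraMap k (A ⧸ J) (τ r) = Ideal.Quotient.mk J (algebraMap R A r)) :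
    FiniteDimensional k (A ⧸ J) ∧
      ∀ g, Algebra.norm k (Ideal.Quotient.mk J g) = τ (Algebra.norm R g) := by
  have hsum : ∀ c : ι → R, ∑ i, τ (c i) • Ideal.Quotient.mk J (b i) =
      Ideal.Quotient.mk J (∑ i, c i • b i) := by
    intro c
    rw [map_sum]
    refine Finset.sum_congr rfl fun i _ => ?_
    rw [Algebra.smul_def, Algebra.smul_def, h, map_mul]
  have hli : LinearIndependent k fun i => Ideal.Quotient.mk J (b i) := by
    rw [Fintype.linearIndependent_iff]
    intro c hc i
    choose c' hc' using fun i => hτ (c i)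
    simp only [← hc'] at hc ⊢
    rw [hsum, Ideal.Quotient.eq_zero_iff_mem, hJ, Ideal.mem_span_singleton] at hc
    obtain ⟨t, ht⟩ := hc
    have h1 := congrArg (fun x => b.repr x i) ht
    simp only [b.repr_sum_self, ← Algebra.smul_def, map_smul, Finsupp.smul_apply,
      smul_eq_mul] at h1
    rw [h1, map_mul, hπ, zero_mul]
  have hsp : ⊤ ≤ Submodule.span k (Set.range fun i => Ideal.Quotient.mk J (b i)) := by
    intro x _
    obtain ⟨x, rfl⟩ := Ideal.Quotient.mk_surjective x
    rw [← b.sum_repr x, ← hsum]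
    exact Submodule.sum_mem _ fun i _ =>
      Submodule.smul_mem _ _ (Submodule.subset_span ⟨i, rfl⟩)
  let b' := Module.Basis.mk hli hsp
  have hb' : ∀ i, b' i = Ideal.Quotient.mk J (b i) := fun i => Module.Basis.mk_apply _ _ _
  have hrepr : ∀ x i, b'.repr (Ideal.Quotient.mk J x) i = τ (b.repr x i) := by
    intro x i
    conv_lhs => rw [← b.sum_repr x, ← hsum]
    simp only [← hb', b'.repr_sum_self]
  refine ⟨Module.Finite.of_basis b', fun g => ?_⟩
  rw [Algebra.norm_eq_matrix_det b', Algebra.norm_eq_matrix_det b, RingHom.map_det]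
  congr 1
  ext i j
  rw [Algebra.leftMulMatrix_eq_repr_mul, hb', ← map_mul, hrepr, RingHom.mapMatrix_apply,
    Matrix.map_apply, Algebra.leftMulMatrix_eq_repr_mul]

/-- the derivative of the characteristic polynomial multiplies the algebra into `R[f]` -/
theorem der_mul {R A n : Type*} [CommRing R] [Nontrivial R] [CommRing A] [Algebra R A]
    [Fintype n] [DecidableEq n] [Nonempty n] (M : A →ₐ[R] Matrix n n R) (hM : Function.Injective M) (f a : A) :
    ∃ g : R[X], g.natDegree < Fintype.card n ∧
      aeval f (derivative (M f).charpoly) * a = aeval f g := by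
  let Φ : A[X] →+* Matrix n n R[X] := RingHom.polyToMatrix M.toRingHom
  have hΦ : Function.Injective Φ :=
    matPolyEquiv.symm.injective.comp (Polynomial.map_injective _ hM)
  have hΦ1 : Φ.comp (mapRingHom (algebraMap R A)) = algebraMap R[X] (Matrix n n R[X]) := by
    refine RingHom.ext fun p => ?_
    apply matPolyEquiv.injective
    rw [Algebra.algebraMap_eq_smul_one, matPolyEquiv_smul_one]
    change matPolyEquiv (matPolyEquiv.symm ((p.map (algebraMap R A)).map M.toRingHom)) = _
    rw [AlgEquiv.apply_symm_apply, Polynomial.map_map]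
    congr 1
    exact M.comp_algebraMap
  set x : A[X] := C f + X * C a with hx
  set Q := (Φ x).charpoly with hQ
  have h1 : Q.eval₂ (mapRingHom (algebraMap R A)) x = 0 := by
    apply hΦ
    rw [hom_eval₂, hΦ1, map_zero]
    exact Matrix.aeval_self_charpoly _
  have h2 : Q.map (evalRingHom 0) = (M f).charpoly := by
    rw [hQ, ← Matrix.charpoly_map]
    congr 1
    have := RingHom.congr_fun (evalRingHom_mapMatrix_comp_polyToMatrix M.toRingHom) x
    refine Eq.trans this ?_
    simp [hx]
  have hdeg : Q.natDegree = Fintype.card n := Matrix.charpoly_natDegree_eq_dim _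
  have hmon : Q.Monic := Matrix.charpoly_monic _
  have hpos : 0 < Fintype.card n := Fintype.card_pos
  refine ⟨-∑ l ∈ range (Fintype.card n), monomial l ((derivative (Q.coeff l)).eval 0), ?_, ?_⟩
  · rw [natDegree_neg]
    refine lt_of_le_of_lt (natDegree_sum_le_of_forall_le _ _ (n := Fintype.card n - 1) ?_) (by omega)
    intro l hl
    have := mem_range.1 hl
    exact (natDegree_monomial_le _).trans (by omega)
  · rw [eval₂_eq_sum_range] at h1
    have h3 := congrArg (fun p => (derivative p).eval 0) h1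
    simp only [derivative_sum, eval_finsetSum, derivative_mul, derivative_pow, hx, coe_mapRingHom,
      derivative_map, eval_add, eval_mul, eval_pow, eval_C, eval_X, derivative_add, derivative_C,
      derivative_X, eval_zero, derivative_zero, zero_mul, add_zero, zero_add, one_mul, mul_zero,
      eval_map, eval₂_at_zero, sum_add_distrib] at h3
    have h4 : aeval f (derivative (M f).charpoly) * a =
        ∑ l ∈ range (Q.natDegree + 1), algebraMap R A ((Q.coeff l).coeff 0) *
          ((l : A) * f ^ (l - 1) * a) := by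
      rw [← h2]
      conv_lhs => rw [Q.as_sum_range]
      simp only [Polynomial.map_sum, map_monomial, derivative_monomial, map_sum,
        aeval_monomial, sum_mul, coe_evalRingHom, map_mul, map_natCast, coeff_zero_eq_eval_zero]
      exact sum_congr rfl fun l _ => by ring
    have h5 : algebraMap R A ((derivative (Q.coeff Q.natDegree)).coeff 0) = 0 := by
      rw [hmon.coeff_natDegree]; simp
    rw [sum_range_succ, h5, zero_mul, add_zero, ← h4, hdeg] at h3
    rw [map_neg, map_sum, eq_neg_iff_add_eq_zero, add_comm, ← h3]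
    simp only [aeval_monomial, coeff_zero_eq_eval_zero]

/-- degrees of the coefficients of a characteristic polynomial from weighted entries -/
theorem deg_charpoly {F n : Type*} [Field F] [Fintype n] [DecidableEq n] (N : Matrix n n F[X])
    (e d : ℕ) (y : n → ℕ) (h : ∀ i j, N i j ≠ 0 → e * (N i j).natDegree + y i ≤ d + y j) (l : ℕ)
    (hl : N.charpoly.coeff l ≠ 0) :
    e * (N.charpoly.coeff l).natDegree ≤ (Fintype.card n - l) * d := by
  have hle : l ≤ Fintype.card n := by
    rw [← Matrix.charpoly_natDegree_eq_dim N]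
    exact le_natDegree_of_ne_zero hl
  obtain ⟨k, hk, rfl⟩ : ∃ k, k ≤ Fintype.card n ∧ l = Fintype.card n - k :=
    ⟨Fintype.card n - l, by omega, by omega⟩
  rw [Matrix.charpoly_coeff_eq_sum_minors N k hk, show Fintype.card n - (Fintype.card n - k) = k by
    omega]
  have key : ∀ p : F[X], e * p.natDegree ≤ k * d ↔ e = 0 ∨ p.natDegree ≤ k * d / e := by
    intro p
    rcases Nat.eq_zero_or_pos e with he | he
    · simp [he]
    · rw [Nat.le_div_iff_mul_le he, mul_comm]
      simp [he.ne']
  rw [key]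
  rcases Nat.eq_zero_or_pos e with he | he
  · exact Or.inl he
  right
  refine natDegree_mul_le.trans ?_
  have h0 : ((-1 : F[X]) ^ k).natDegree = 0 := by simp
  rw [h0, zero_add]
  refine natDegree_sum_le_of_forall_le _ _ fun s hs => ?_
  rw [Matrix.det_apply]
  refine natDegree_sum_le_of_forall_le _ _ fun σ _ => ?_
  refine (natDegree_smul_le _ _).trans ?_
  by_cases hz : ∃ i : s, N (σ i) i = 0
  · obtain ⟨i, hi⟩ := hz
    rw [prod_eq_zero (mem_univ i) (by simpa using hi)]
    simp
  · push Not at hz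
    rw [Nat.le_div_iff_mul_le he]
    have h1 : (∏ i : s, N.submatrix Subtype.val Subtype.val (σ i) i).natDegree ≤
        ∑ i : s, (N (σ i) i).natDegree := natDegree_prod_le _ _
    have h2 : ∑ i : s, (e * (N (σ i) i).natDegree + y (σ i)) ≤ ∑ i : s, (d + y i) :=
      sum_le_sum fun i _ => h _ _ (hz i)
    rw [sum_add_distrib, sum_add_distrib, ← mul_sum, Equiv.sum_comp σ fun i : s => y i] at h2
    simp only [sum_const, card_univ, Fintype.card_coe, (mem_powersetCard.1 hs).2,
      smul_eq_mul] at h2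
    have h3 := Nat.mul_le_mul_left e h1
    rw [mul_comm]
    omega

theorem prod_map_rep {α M : Type*} [CommMonoid M] (T : Finset α) (m : α → ℕ) (f : α → M) :
    ((∑ P ∈ T, Multiset.replicate (m P) P).map f).prod = ∏ P ∈ T, f P ^ m P := by
  induction T using Finset.induction_on with
  | empty => simp
  | insert a s ha ih => simp [sum_insert ha, prod_insert ha, ih]

end PNrm

end Pool.Agent.P.MP_b8021b_nt.VC
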