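import Pool.Agent.P.MP_b8021b_nt.VC.BasicC
import Pool.Agent.P.MP_b8021b_nt.VC.PNrm1

/-! Norms along one fibre of a function on a curve. -/

namespace Pool.Agent.P.MP_b8021b_nt.VC

open Polynomial Finset Pool.Agent.P.MP_b8021b_nt.VE
open scoped Classical

namespace PNrm

variable {F A Ω : Type} [Field F] [CommRing A] [Algebra F A] [Field Ω] [Algebra F Ω]
  [Algebra F[X] A] [IsScalarTower F F[X] A]

theorem pt_alg (P : A →ₐ[F] Ω) (r : F[X]) :
    P (algebraMap F[X] A r) = aeval (P (algebraMap F[X] A X)) r := by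
  rw [aeval_algHom_apply, aeval_algebraMap_apply, aeval_X_left_apply]

theorem emb {k : Type} [Field k] (τ : F[X] →+* k) (hτ : Function.Surjective τ) [Algebra k Ω]
    (a : Ω) (hΩ : ∀ r, algebraMap k Ω (τ r) = aeval a r) (m : Ideal A) [Algebra k (A ⧸ m)]
    (h : ∀ r, algebraMap k (A ⧸ m) (τ r) = Ideal.Quotient.mk m (algebraMap F[X] A r)) :
    ∃ φ : ((A ⧸ m) →ₐ[k] Ω) → (A →ₐ[F] Ω), Function.Injective φ ∧
      (∀ σ x, φ σ x = σ (Ideal.Quotient.mk m x)) ∧
      ∀ P, (∃ σ, φ σ = P) ↔ P (algebraMap F[X] A X) = a ∧ m ≤ RingHom.ker P := by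
  have h1 : ∀ (σ : (A ⧸ m) →ₐ[k] Ω) r,
      σ (Ideal.Quotient.mk m (algebraMap F[X] A r)) = aeval a r := fun σ r => by
    rw [← h, AlgHom.commutes, hΩ]
  let φ : ((A ⧸ m) →ₐ[k] Ω) → (A →ₐ[F] Ω) := fun σ =>
    { σ.toRingHom.comp (Ideal.Quotient.mk m) with
      commutes' := fun c => by
        have := h1 σ (algebraMap F F[X] c)
        rw [← IsScalarTower.algebraMap_apply, AlgHom.commutes] at this
        exact this }
  have hφ : ∀ σ x, φ σ x = σ (Ideal.Quotient.mk m x) := fun σ x => rfl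
  refine ⟨φ, fun σ σ' e => ?_, hφ, fun P => ⟨?_, ?_⟩⟩
  · refine AlgHom.ext fun x => ?_
    obtain ⟨x, rfl⟩ := Ideal.Quotient.mk_surjective x
    rw [← hφ, ← hφ, e]
  · rintro ⟨σ, rfl⟩
    refine ⟨by rw [hφ, h1, aeval_X], fun x hx => ?_⟩
    rw [RingHom.mem_ker, hφ, Ideal.Quotient.eq_zero_iff_mem.2 hx, map_zero]
  · rintro ⟨hP, hm⟩
    refine ⟨{ Ideal.Quotient.lift m P.toRingHom fun x hx => hm hx with
      commutes' := fun c => ?_ }, ?_⟩
    · obtain ⟨r, rfl⟩ := hτ c
      rw [h, hΩ, ← hP, ← pt_alg]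
      rfl
    · ext x
      rfl

variable [CharZero F] [IsAlgClosed Ω] [Algebra.IsAlgebraic F Ω] (hP : S_Pts) (cv : Cv F A)
include hP cv

omit [Algebra F[X] A] [IsScalarTower F F[X] A] in
theorem mI_max {m : Ideal A} (hm : m.IsMaximal) (h0 : m ≠ ⊥) (P : A →ₐ[F] Ω) :
    mI P m = if m ≤ RingHom.ker P then 1 else 0 := by
  split_ifs with h
  · obtain ⟨h1, -, h3⟩ := (hP F A Ω cv).2.2.2.2.1 P
    rwa [← hm.eq_of_le h1.ne_top h] at h3
  · by_contra h1
    exact h ((mI_ne_zero hP cv h0 P).1 h1)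

theorem norm_prod {k : Type} [Field k] (τ : F[X] →+* k) (hτ : Function.Surjective τ) [Algebra k Ω]
    (a : Ω) (hΩ : ∀ r, algebraMap k Ω (τ r) = aeval a r) (T : Finset (A →ₐ[F] Ω))
    (hT : ∀ P, P ∈ T ↔ P (algebraMap F[X] A X) = a) (g : A) (J : Ideal A) :
    ∀ [Algebra k (A ⧸ J)] [FiniteDimensional k (A ⧸ J)],
      (∀ r, algebraMap k (A ⧸ J) (τ r) = Ideal.Quotient.mk J (algebraMap F[X] A r)) → J ≠ ⊥ →
      algebraMap k Ω (Algebra.norm k (Ideal.Quotient.mk J g)) = ∏ P ∈ T, P g ^ mI P J := by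
  have := cv.ded
  have : CharZero Ω := charZero_of_injective_algebraMap (algebraMap F Ω).injective
  have : CharZero k := (algebraMap k Ω).charZero
  induction J using UniqueFactorizationMonoid.induction_on_prime with
  | h₁ => exact fun _ h => absurd rfl h
  | h₂ J hJ =>
    intro _ _ _ _
    obtain rfl := Ideal.isUnit_iff.1 hJ
    rw [Algebra.norm_apply, LinearMap.det_eq_one_of_subsingleton, map_one]
    simp [mI_top hP cv]
  | h₃ J m hJ hmp ih =>
    intro _ _ h h0
    have hm : m.IsMaximal := (Ideal.isPrime_of_prime hmp).isMaximal hmp.ne_zero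
    let := ((Ideal.Quotient.factor (Ideal.mul_le_left (I := m) (J := J))).comp
      (algebraMap k (A ⧸ m * J))).toAlgebra
    let := ((Ideal.Quotient.factor (Ideal.mul_le_right (I := m) (J := J))).comp
      (algebraMap k (A ⧸ m * J))).toAlgebra
    have hc : ∀ c : k, ∃ u : A, algebraMap k (A ⧸ m * J) c = Ideal.Quotient.mk _ u ∧
        algebraMap k (A ⧸ m) c = Ideal.Quotient.mk m u ∧
        algebraMap k (A ⧸ J) c = Ideal.Quotient.mk J u := by
      intro c
      obtain ⟨u, hu⟩ := Ideal.Quotient.mk_surjective (algebraMap k (A ⧸ m * J) c)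
      refine ⟨u, hu.symm, ?_, ?_⟩
      · rw [RingHom.algebraMap_toAlgebra, RingHom.comp_apply, ← hu, Ideal.Quotient.factor_mk]
      · rw [RingHom.algebraMap_toAlgebra, RingHom.comp_apply, ← hu, Ideal.Quotient.factor_mk]
    have h1 : ∀ r, algebraMap k (A ⧸ m) (τ r) = Ideal.Quotient.mk m (algebraMap F[X] A r) :=
      fun r => by rw [RingHom.algebraMap_toAlgebra, RingHom.comp_apply, h, Ideal.Quotient.factor_mk]
    have h2 : ∀ r, algebraMap k (A ⧸ J) (τ r) = Ideal.Quotient.mk J (algebraMap F[X] A r) :=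
      fun r => by rw [RingHom.algebraMap_toAlgebra, RingHom.comp_apply, h, Ideal.Quotient.factor_mk]
    have : FiniteDimensional k (A ⧸ m) := Module.Finite.of_surjective
      (toK (fun c => (hc c).imp fun u hu => ⟨hu.1, hu.2.1⟩) (Submodule.factor Ideal.mul_le_left))
      fun z => by
        obtain ⟨b, rfl⟩ := Ideal.Quotient.mk_surjective z
        exact ⟨Ideal.Quotient.mk _ b, rfl⟩
    have : FiniteDimensional k (A ⧸ J) := Module.Finite.of_surjective
      (toK (fun c => (hc c).imp fun u hu => ⟨hu.1, hu.2.2⟩) (Submodule.factor Ideal.mul_le_right))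
      fun z => by
        obtain ⟨b, rfl⟩ := Ideal.Quotient.mk_surjective z
        exact ⟨Ideal.Quotient.mk _ b, rfl⟩
    rw [norm_mul_quot m J h0 hc, map_mul, ih h2 hJ]
    simp only [mI_mul hP cv hmp.ne_zero hJ, pow_add, prod_mul_distrib]
    congr 1
    let := Ideal.Quotient.field m
    obtain ⟨φ, hφ1, hφ2, hφ3⟩ := emb τ hτ a hΩ m h1
    rw [Algebra.norm_eq_prod_embeddings]
    simp only [mI_max hP cv hm hmp.ne_zero, pow_ite, pow_one, pow_zero]
    rw [← prod_filter, show T.filter (fun P => m ≤ RingHom.ker P) = univ.image φ by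
      ext P
      simp only [mem_filter, mem_image, mem_univ, true_and, hφ3, hT], prod_image hφ1.injOn]
    simp only [hφ2]

omit hP cv [IsAlgClosed Ω] in
theorem root_one (a : Ω) : rootMultiplicity a ((minpoly F a).map (algebraMap F Ω)) = 1 := by
  have hi : IsIntegral F a := Algebra.IsIntegral.isIntegral a
  have hs : ((minpoly F a).map (algebraMap F Ω)).Separable := (minpoly.irreducible hi).separable.map
  refine le_antisymm (rootMultiplicity_le_one_of_separable hs a) ?_
  refine (rootMultiplicity_pos hs.ne_zero).2 ?_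
  rw [IsRoot, eval_map_algebraMap, minpoly.aeval]

omit hP cv [CharZero F] [IsAlgClosed Ω] [Algebra.IsAlgebraic F Ω] in
theorem root_assoc (a : Ω) {p q : F[X]} (h : Ideal.span {p} = Ideal.span {q}) :
    rootMultiplicity a (p.map (algebraMap F Ω)) = rootMultiplicity a (q.map (algebraMap F Ω)) := by
  obtain ⟨u, rfl⟩ := Ideal.span_singleton_eq_span_singleton.1 h
  by_cases hp : p = 0
  · simp [hp]
  obtain ⟨c, hc, hu⟩ := Polynomial.isUnit_iff.1 u.isUnit
  rw [← hu, Polynomial.map_mul, map_C, rootMultiplicity_mul, rootMultiplicity_C, add_zero]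
  exact mul_ne_zero (Polynomial.map_ne_zero hp) (C_ne_zero.2 (by simpa using hc.ne_zero))

theorem ord_norm [IsDedekindDomain A] [Module.Finite F[X] A] [Module.IsTorsionFree F[X] A] (a : Ω)
    (T : Finset (A →ₐ[F] Ω)) (hT : ∀ P, P ∈ T ↔ P (algebraMap F[X] A X) = a) (J : Ideal A) :
    J ≠ ⊥ → ∀ d : F[X], Ideal.relNorm F[X] J = Ideal.span {d} →
      rootMultiplicity a (d.map (algebraMap F Ω)) = ∑ P ∈ T, mI P J := by
  have hi : IsIntegral F a := Algebra.IsIntegral.isIntegral a
  have hirr := minpoly.irreducible hi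
  induction J using UniqueFactorizationMonoid.induction_on_prime with
  | h₁ => exact fun h => absurd rfl h
  | h₂ J hJ =>
    intro _ d hd
    obtain rfl := Ideal.isUnit_iff.1 hJ
    rw [Ideal.relNorm_top, ← Ideal.span_singleton_one] at hd
    rw [← root_assoc a hd]
    simp [mI_top hP cv]
  | h₃ J m hJ hmp ih =>
    intro h0 d hd
    have hm : m.IsMaximal := (Ideal.isPrime_of_prime hmp).isMaximal hmp.ne_zero
    obtain ⟨d₁, hd₁⟩ := (IsPrincipalIdealRing.principal (Ideal.relNorm F[X] m)).principal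
    obtain ⟨d₂, hd₂⟩ := (IsPrincipalIdealRing.principal (Ideal.relNorm F[X] J)).principal
    rw [Ideal.submodule_span_eq] at hd₁ hd₂
    have n₁ : d₁ ≠ 0 := by
      rintro rfl
      rw [Ideal.span_singleton_zero, Ideal.relNorm_eq_bot_iff] at hd₁
      exact hmp.ne_zero hd₁
    have n₂ : d₂ ≠ 0 := by
      rintro rfl
      rw [Ideal.span_singleton_zero, Ideal.relNorm_eq_bot_iff] at hd₂
      exact hJ hd₂
    rw [map_mul, hd₁, hd₂, Ideal.span_singleton_mul_span_singleton] at hd
    rw [← root_assoc a hd, Polynomial.map_mul, rootMultiplicity_mul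
      (mul_ne_zero (Polynomial.map_ne_zero n₁) (Polynomial.map_ne_zero n₂)), ih hJ d₂ hd₂]
    simp only [mI_mul hP cv hmp.ne_zero hJ, sum_add_distrib]
    congr 1
    simp only [mI_max hP cv hm hmp.ne_zero]
    rw [← card_filter]
    have hpm : (Ideal.span {minpoly F a}).IsMaximal :=
      PrincipalIdealRing.isMaximal_of_irreducible hirr
    have hmem : ∀ r, r ∈ Ideal.span {minpoly F a} ↔ aeval a r = 0 := fun r => by
      rw [Ideal.mem_span_singleton, minpoly.dvd_iff]
    have : CharZero (FractionRing F[X]) :=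
      charZero_of_injective_algebraMap (algebraMap F (FractionRing F[X])).injective
    by_cases hq : m.under F[X] = Ideal.span {minpoly F a}
    · have : m.LiesOver (Ideal.span {minpoly F a}) := ⟨hq.symm⟩
      rw [Ideal.relNorm_eq_pow_of_isMaximal m (Ideal.span {minpoly F a}),
        Ideal.inertiaDeg_eq_of_isMaximal (Ideal.span {minpoly F a}),
        Ideal.span_singleton_pow] at hd₁
      rw [← root_assoc a hd₁]
      let := Ideal.Quotient.field (Ideal.span {minpoly F a})
      let := Ideal.Quotient.field m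
      let : Algebra (F[X] ⧸ Ideal.span {minpoly F a}) Ω :=
        (Ideal.Quotient.lift _ (aeval a : F[X] →ₐ[F] Ω).toRingHom
          fun r hr => (hmem r).1 hr).toAlgebra
      have : CharZero Ω := charZero_of_injective_algebraMap (algebraMap F Ω).injective
      have : CharZero (F[X] ⧸ Ideal.span {minpoly F a}) := (algebraMap _ Ω).charZero
      obtain ⟨φ, hφ1, -, hφ3⟩ := emb (Ideal.Quotient.mk (Ideal.span {minpoly F a}))
        Ideal.Quotient.mk_surjective a (fun r => rfl) m (fun r => rfl)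
      rw [show T.filter (fun P => m ≤ RingHom.ker P) = univ.image φ by
        ext P
        simp only [mem_filter, mem_image, mem_univ, true_and, hφ3, hT],
        card_image_of_injective _ hφ1, card_univ, AlgHom.card]
      generalize Module.finrank (F[X] ⧸ Ideal.span {minpoly F a}) (A ⧸ m) = n
      induction n with
      | zero => simp
      | succ n ihn =>
        rw [pow_succ, Polynomial.map_mul, rootMultiplicity_mul (mul_ne_zero
          (Polynomial.map_ne_zero (pow_ne_zero _ hirr.ne_zero))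
          (Polynomial.map_ne_zero hirr.ne_zero)), ihn, root_one]
    · have hne : ¬ m.under F[X] ≤ Ideal.span {minpoly F a} := fun h =>
        hq ((Ideal.IsMaximal.under F[X] m).eq_of_le hpm.ne_top h)
      rw [rootMultiplicity_eq_zero, eq_comm, card_eq_zero, filter_eq_empty_iff]
      · intro P hPT hle
        refine hne fun r hr => (hmem r).2 ?_
        rw [← (hT P).1 hPT, ← pt_alg]
        exact hle hr
      · intro hr
        rw [IsRoot, eval_map_algebraMap, ← hmem, ← Ideal.span_singleton_le_iff_mem, ← hd₁] at hr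
        obtain ⟨s, hs⟩ := Ideal.exists_relNorm_eq_pow_of_isPrime m (m.under F[X])
        rw [hs] at hr
        exact hne (hpm.isPrime.le_of_pow_le hr)

end PNrm

end Pool.Agent.P.MP_b8021b_nt.VC
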