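import Pool.Agent.P.MP_b8021b_nt.VC.StG

/-! The number of ray class characters of bounded type. -/

namespace Pool.Agent.P.MP_b8021b_nt.VC

open Polynomial NumberField Finset MeasureTheory Pool.Agent.P.MP_b8021b_nt.VE
open scoped Classical ComplexConjugate

namespace NumCh

section Vec

variable {ι : Type} [Fintype ι]

/-- the pairing of a type with a logarithmic vector -/
noncomputable def ip (τ x : ι → ℝ) : ℝ := ∑ φ, τ φ * x φ

lemma ty_eq (κ : ι → ℤ) (τ : ι → ℝ) (z : ι → ℂ) :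
    ty κ τ z = (∏ φ, dir (z φ) ^ κ φ) * Complex.exp (Complex.I * (ip τ (lg z) : ℝ)) := by
  unfold ty ip lg
  rw [Finset.prod_mul_distrib, ← Complex.exp_sum, ← Finset.mul_sum, Complex.ofReal_sum]

lemma ip_eq_of_floor {κ : ι → ℤ} {τ τ' : ι → ℝ} {z : ι → ℂ} (h : ty κ τ z = 1)
    (h' : ty κ τ' z = 1) (hf : ⌊ip τ (lg z)⌋ = ⌊ip τ' (lg z)⌋) : ip τ (lg z) = ip τ' (lg z) := by
  rw [ty_eq] at h h'
  have hA : (∏ φ, dir (z φ) ^ κ φ) ≠ 0 := left_ne_zero_of_mul_eq_one h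
  have he := mul_left_cancel₀ hA (h.trans h'.symm)
  obtain ⟨m, hm⟩ := Complex.exp_eq_exp_iff_exists_int.1 he
  have hm' : ip τ (lg z) = ip τ' (lg z) + m * (2 * Real.pi) := by
    have h1 : Complex.I * (ip τ (lg z) : ℝ) =
        Complex.I * ((ip τ' (lg z) + m * (2 * Real.pi) : ℝ) : ℂ) := by
      rw [hm]; push_cast; ring
    exact_mod_cast mul_left_cancel₀ Complex.I_ne_zero h1
  have hab := Int.abs_sub_lt_one_of_floor_eq_floor hf
  have hm0 : m = 0 := by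
    by_contra hne
    have h1 : (1 : ℝ) ≤ |(m : ℝ)| := by exact_mod_cast Int.one_le_abs hne
    have h2 : ip τ (lg z) - ip τ' (lg z) = m * (2 * Real.pi) := by linarith
    rw [h2, abs_mul, abs_of_pos (by positivity : (0 : ℝ) < 2 * Real.pi)] at hab
    nlinarith [Real.pi_gt_three]
  rw [hm', hm0]; simp

lemma abs_ip_le {τ x : ι → ℝ} {T l : ℝ} (hτ : ∀ φ, |τ φ| ≤ T) (hx : ‖x‖ ≤ l) :
    |ip τ x| ≤ Fintype.card ι * (T * l) := by
  unfold ip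
  refine (Finset.abs_sum_le_sum_abs _ _).trans ?_
  have h : ∀ φ ∈ (Finset.univ : Finset ι), |τ φ * x φ| ≤ T * l := by
    intro φ _
    rw [abs_mul]
    have h1 : |x φ| ≤ l := by
      have := norm_le_pi_norm x φ
      rw [Real.norm_eq_abs] at this
      exact this.trans hx
    exact mul_le_mul (hτ φ) h1 (abs_nonneg _) ((abs_nonneg _).trans (hτ φ))
  have := Finset.sum_le_card_nsmul _ _ _ h
  simpa [nsmul_eq_mul] using this

end Vec

variable {k : Type} [Field k] [NumberField k] [Algebra k ℂ] {E : Type} [Field E] [NumberField E]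
  [Algebra k E] {n : ℕ} {ℓ : ℝ}

lemma tr_of_isH (U : UB k E n ℓ) {κ : Emb k E → ℤ} {τ : Emb k E → ℝ} {χ : Ideal (𝓞 E) →* ℂ}
    (h : IsH k n κ τ χ) : U.Tr κ τ := by
  intro j
  rw [← h.prin _ (U.cong j), Ideal.span_singleton_eq_top.2 (U.ε j).isUnit, ← Ideal.one_eq_top,
    map_one]

lemma tau_eq (U : UB k E n ℓ) {τ τ' : Emb k E → ℝ} (h : ∑ φ, τ φ = 0) (h' : ∑ φ, τ' φ = 0)
    (he : ∀ j, ip τ (lg (emb k (U.ε j : 𝓞 E))) = ip τ' (lg (emb k (U.ε j : 𝓞 E)))) : τ = τ' := by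
  have hs : ∑ φ, (τ - τ') φ = 0 := by
    simp only [Pi.sub_apply, Finset.sum_sub_distrib, h, h', sub_zero]
  have hx := U.span _ hs
  have h0 : ∀ j, ∑ φ, (τ - τ') φ * lg (emb k (U.ε j : 𝓞 E)) φ = 0 := by
    intro j
    have := he j
    unfold ip at this
    simp only [Pi.sub_apply, sub_mul, Finset.sum_sub_distrib, this, sub_self]
  have h1 : ∑ φ, (τ - τ') φ * (τ - τ') φ = 0 := by
    calc ∑ φ, (τ - τ') φ * (τ - τ') φ
        = ∑ φ, (τ - τ') φ * (∑ j, U.co (τ - τ') j • lg (emb k (U.ε j : 𝓞 E))) φ := by rw [hx]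
      _ = ∑ j, U.co (τ - τ') j * ∑ φ, (τ - τ') φ * lg (emb k (U.ε j : 𝓞 E)) φ := by
          simp only [Finset.sum_apply, Pi.smul_apply, smul_eq_mul, Finset.mul_sum]
          rw [Finset.sum_comm]
          refine Finset.sum_congr rfl fun j _ => Finset.sum_congr rfl fun φ _ => by ring
      _ = 0 := by simp only [h0, mul_zero, Finset.sum_const_zero]
  have h2 := (Finset.sum_eq_zero_iff_of_nonneg
    (fun φ _ => mul_self_nonneg ((τ - τ') φ))).1 h1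
  funext φ
  have := mul_self_eq_zero.1 (h2 φ (Finset.mem_univ φ))
  exact sub_eq_zero.1 this

lemma card_Icc_le (x : ℝ) (hx : 1 ≤ x) : ((Finset.Icc (-⌈x⌉) ⌈x⌉).card : ℝ) ≤ 5 * x := by
  have h0 : 0 ≤ ⌈x⌉ := Int.ceil_nonneg (by linarith)
  have h1 : ((Finset.Icc (-⌈x⌉) ⌈x⌉).card : ℤ) = ⌈x⌉ + 1 - -⌈x⌉ :=
    Int.card_Icc_of_le _ _ (by omega)
  have h2 : ((Finset.Icc (-⌈x⌉) ⌈x⌉).card : ℝ) = (⌈x⌉ : ℝ) + 1 - -(⌈x⌉ : ℝ) := by
    exact_mod_cast h1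
  have h3 := Int.ceil_lt_add_one x
  rw [h2]; linarith

lemma mem_Icc_of_abs {a : ℤ} {x : ℝ} (h : |(a : ℝ)| ≤ x) : a ∈ Finset.Icc (-⌈x⌉) ⌈x⌉ := by
  have h1 := abs_le.1 (h.trans (Int.le_ceil x))
  rw [Finset.mem_Icc]
  constructor
  · exact_mod_cast h1.1
  · exact_mod_cast h1.2

lemma floor_mem {y x : ℝ} (h : |y| ≤ x) : ⌊y⌋ ∈ Finset.Icc (-⌈x⌉) ⌈x⌉ := by
  have h1 := abs_le.1 (h.trans (Int.le_ceil x))
  rw [Finset.mem_Icc]
  constructor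
  · rw [Int.le_floor]; push_cast; exact h1.1
  · have := (Int.floor_le y).trans h1.2
    exact_mod_cast this

lemma count (K : BF k) (hEq : S_Eq2) (U : UB k E n ℓ) (hn2 : 2 ≤ n) (Kb Tb : ℝ) (hK : 1 ≤ Kb)
    (hT : 1 ≤ (Fintype.card (Emb k E) : ℝ) * (Tb * ℓ)) :
    (Chs k (E := E) n Kb Tb).Finite ∧ ((Chs k (E := E) n Kb Tb).ncard : ℝ) ≤
      (5 * Kb) ^ Fintype.card (Emb k E) * (5 * (Fintype.card (Emb k E) * (Tb * ℓ))) ^ U.m *
        hn k E n := by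
  have hX : ∀ p : (Emb k E → ℤ) × (Fin U.m → ℤ), ∃ 𝒳 : Finset (Ideal (𝓞 E) →* ℂ),
      𝒳.card ≤ hn k E n ∧ ∀ τ χ, IsH k n p.1 τ χ →
        (∀ j, ⌊ip τ (lg (emb k (U.ε j : 𝓞 E)))⌋ = p.2 j) → χ ∈ 𝒳 := by
    intro p
    by_cases hp : ∃ τ χ, IsH k n p.1 τ χ ∧ ∀ j, ⌊ip τ (lg (emb k (U.ε j : 𝓞 E)))⌋ = p.2 j
    · obtain ⟨τ0, χ0, h0, hf0⟩ := hp
      obtain ⟨𝒳, hm, hc, -⟩ := hEq k K E n p.1 τ0 hn2 h0.sum
      refine ⟨𝒳, hc, fun τ χ h hf => (hm χ).2 ?_⟩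
      have : τ = τ0 := tau_eq U h.sum h0.sum fun j =>
        ip_eq_of_floor (tr_of_isH U h j) (tr_of_isH U h0 j) ((hf j).trans (hf0 j).symm)
      exact this ▸ h
    · exact ⟨∅, by simp, fun τ χ h hf => (hp ⟨τ, χ, h, hf⟩).elim⟩
  choose 𝒳 hc hm using hX
  set x : ℝ := Fintype.card (Emb k E) * (Tb * ℓ) with hx
  let B : Finset ((Emb k E → ℤ) × (Fin U.m → ℤ)) :=
    (Fintype.piFinset fun _ => Finset.Icc (-⌈Kb⌉) ⌈Kb⌉) ×ˢ
      (Fintype.piFinset fun _ => Finset.Icc (-⌈x⌉) ⌈x⌉)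
  have hsub : Chs k (E := E) n Kb Tb ⊆ ↑(B.biUnion 𝒳) := by
    rintro χ ⟨κ, τ, hκ, hτ, h⟩
    rw [Finset.mem_coe, Finset.mem_biUnion]
    refine ⟨(κ, fun j => ⌊ip τ (lg (emb k (U.ε j : 𝓞 E)))⌋), ?_, hm _ τ χ h fun _ => rfl⟩
    rw [Finset.mem_product, Fintype.mem_piFinset, Fintype.mem_piFinset]
    exact ⟨fun φ => mem_Icc_of_abs (hκ φ).le, fun j => floor_mem (abs_ip_le hτ (U.size j))⟩
  refine ⟨(Finset.finite_toSet _).subset hsub, ?_⟩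
  have h1 : (Chs k (E := E) n Kb Tb).ncard ≤ B.card * hn k E n := by
    refine (Set.ncard_le_ncard hsub (Finset.finite_toSet _)).trans ?_
    rw [Set.ncard_coe_finset]
    exact Finset.card_biUnion_le_card_mul _ _ _ fun p _ => hc p
  have h2 : (B.card : ℝ) ≤ (5 * Kb) ^ Fintype.card (Emb k E) * (5 * x) ^ U.m := by
    have hB : B.card = (Finset.Icc (-⌈Kb⌉) ⌈Kb⌉).card ^ Fintype.card (Emb k E) *
        (Finset.Icc (-⌈x⌉) ⌈x⌉).card ^ U.m := by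
      simp only [B, Finset.card_product, Fintype.card_piFinset, Finset.prod_const,
        Finset.card_univ, Fintype.card_fin]
    rw [hB]; push_cast
    exact mul_le_mul (pow_le_pow_left₀ (Nat.cast_nonneg _) (card_Icc_le _ hK) _)
      (pow_le_pow_left₀ (Nat.cast_nonneg _) (card_Icc_le _ hT) _) (by positivity) (by positivity)
  calc ((Chs k (E := E) n Kb Tb).ncard : ℝ) ≤ (B.card : ℝ) * hn k E n := by exact_mod_cast h1
    _ ≤ _ := mul_le_mul_of_nonneg_right h2 (Nat.cast_nonneg _)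

lemma arith {D m C1 C2 : ℕ} {Y Kb Tb h : ℝ} (hm : m ≤ D) (hY : 4 ≤ Y) (hK : 1 ≤ Kb) (hT : 1 ≤ Tb)
    (hD : 1 ≤ D) (hh0 : 0 ≤ h) (hh : h ≤ Y ^ C2) :
    (5 * Kb) ^ D * (5 * (D * (Tb * Y ^ C1))) ^ m * h ≤
      (Y * Kb * Tb) ^ (3 * D + (D + 3 + C1) * D + C2) := by
  set X := Y * Kb * Tb with hX
  have hYK : Y ≤ Y * Kb := le_mul_of_one_le_right (by linarith) hK
  have hYX : Y ≤ X := hYK.trans (le_mul_of_one_le_right (by linarith) hT)
  have hX4 : 4 ≤ X := hY.trans hYX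
  have hKX : Kb ≤ X := by
    have : Kb ≤ Y * Kb := le_mul_of_one_le_left (by linarith) (by linarith)
    exact this.trans (le_mul_of_one_le_right (by linarith) hT)
  have hTX : Tb ≤ X := le_mul_of_one_le_left (by linarith) (by linarith)
  have h5 : (5 : ℝ) ≤ X ^ 2 := by nlinarith
  have hDX : (D : ℝ) ≤ X ^ D := by
    have h1 : (D : ℝ) ≤ 2 ^ D := by exact_mod_cast (Nat.lt_two_pow_self (n := D)).le
    exact h1.trans (pow_le_pow_left₀ (by norm_num) (by linarith) _)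
  have hl : Y ^ C1 ≤ X ^ C1 := pow_le_pow_left₀ (by linarith) hYX _
  have h1 : 5 * Kb ≤ X ^ 3 := by
    calc 5 * Kb ≤ X ^ 2 * X := mul_le_mul h5 hKX (by linarith) (by positivity)
      _ = X ^ 3 := by ring
  have hY0 : 0 < Y := by linarith
  have hX0 : 0 < X := by linarith
  have h2 : 5 * (D * (Tb * Y ^ C1)) ≤ X ^ (D + 3 + C1) := by
    calc 5 * (D * (Tb * Y ^ C1)) ≤ X ^ 2 * (X ^ D * (X * X ^ C1)) := by
          refine mul_le_mul h5 (mul_le_mul hDX (mul_le_mul hTX hl (by positivity) hX0.le)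
            (by positivity) (by positivity)) (by positivity) (by positivity)
      _ = X ^ (D + 3 + C1) := by ring
  have h3 : (5 * (D * (Tb * Y ^ C1))) ^ m ≤ (X ^ (D + 3 + C1)) ^ D :=
    (pow_le_pow_left₀ (by positivity) h2 _).trans
      (pow_le_pow_right₀ (one_le_pow₀ (by linarith)) hm)
  have h4 : h ≤ X ^ C2 := hh.trans (pow_le_pow_left₀ hY0.le hYX _)
  calc (5 * Kb) ^ D * (5 * (D * (Tb * Y ^ C1))) ^ m * h
      ≤ (X ^ 3) ^ D * (X ^ (D + 3 + C1)) ^ D * X ^ C2 :=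
        mul_le_mul (mul_le_mul (pow_le_pow_left₀ (by positivity) h1 _) h3 (by positivity)
          (by positivity)) h4 hh0 (by positivity)
    _ = X ^ (3 * D + (D + 3 + C1) * D + C2) := by
        rw [← pow_mul, ← pow_mul, ← pow_add, ← pow_add]

end NumCh

theorem p_numCh (hEmb : S_Emb) (hUnit : S_Unit) (hRep : S_Rep2) (hEq : S_Eq2) : S_NumCh := by
  intro k _ _ _ K D
  obtain ⟨C0, h0⟩ := hEmb k K D
  obtain ⟨C1, h1⟩ := hUnit k K D
  obtain ⟨C2, h2⟩ := hRep k K D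
  refine ⟨3 * D + (D + 3 + C1) * D + C2, ?_⟩
  intro E _ _ _ hE Q Kb Tb n hQ hS hn2 hK hT
  obtain ⟨hcard, -, hD, -⟩ := h0 E hE
  obtain ⟨⟨U⟩, -⟩ := h1 E hE Q n hQ hS (by omega)
  obtain ⟨-, -, hh, -⟩ := h2 E hE Q n 1 hQ hS hn2 le_rfl
  have hn' : (2 : ℝ) ≤ n := by exact_mod_cast hn2
  have hY : 4 ≤ Q * n := by nlinarith
  have hD' : (1 : ℝ) ≤ D := by exact_mod_cast hD
  have hx : 1 ≤ (Fintype.card (Emb k E) : ℝ) * (Tb * (Q * n) ^ C1) := by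
    rw [hcard]
    exact one_le_mul_of_one_le_of_one_le hD' (one_le_mul_of_one_le_of_one_le hT U.one_le)
  obtain ⟨hf, hc⟩ := NumCh.count K hEq U hn2 Kb Tb hK hx
  refine ⟨hf, hc.trans ?_⟩
  rw [hcard]
  have hm : U.m ≤ D := by have := U.hm; omega
  exact NumCh.arith hm hY hK hT hD (Nat.cast_nonneg _) hh

end Pool.Agent.P.MP_b8021b_nt.VC
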