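import Pool.Agent.P.MP_b8021b_nt.VC.StT
import Pool.Agent.P.MP_b8021b_nt.VC.StG
import Pool.Agent.P.MP_b8021b_nt.VC.BasicN
import Pool.Agent.P.MP_b8021b_nt.VE.PPairEst3

/-! Pair correlation estimate: elementary lemmas. -/

namespace Pool.Agent.P.MP_b8021b_nt.VC.PairE

open Polynomial NumberField Finset Pool.Agent.P.MP_b8021b_nt.VE
open scoped Classical

variable {R : Type} [CommRing R] [Algebra ℤ[X] R]

/-! ### large `y` -/

lemma ev_and {F : VC.Fix R} {Φ Ψ : Cfg → Prop} (h : F.Ev Φ) (h' : F.Ev Ψ) :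
    F.Ev fun c => Φ c ∧ Ψ c := by
  obtain ⟨a, ha⟩ := h
  obtain ⟨b, hb⟩ := h'
  exact ⟨max a b, fun c hc hi =>
    ⟨ha c ((le_max_left _ _).trans hc) hi, hb c ((le_max_right _ _).trans hc) hi⟩⟩

lemma ev_mono {F : VC.Fix R} {Φ Ψ : Cfg → Prop} (h : F.Ev Φ) (h' : ∀ c, F.In c → Φ c → Ψ c) :
    F.Ev Ψ := by
  obtain ⟨a, ha⟩ := h
  exact ⟨a, fun c hc hi => h' c hi (ha c hc hi)⟩

lemma ev_of (F : VC.Fix R) {φ : ℝ → Prop} (h : ∀ᶠ y in Filter.atTop, φ y) : F.Ev fun c => φ c.y := by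
  obtain ⟨a, ha⟩ := Filter.eventually_atTop.mp h
  exact ⟨a, fun c hc _ => ha c.y hc⟩

lemma ev_log (F : VC.Fix R) (a : ℝ) : F.Ev fun c => a ≤ Real.log c.y :=
  ev_of F (φ := fun y => a ≤ Real.log y) (Real.tendsto_log_atTop.eventually_ge_atTop a)

lemma ev_y (F : VC.Fix R) (a : ℝ) : F.Ev fun c => a ≤ c.y := ⟨a, fun _ hc _ => hc⟩

lemma ev_lp (F : VC.Fix R) (C : ℝ) (A : ℕ) : F.Ev fun c => C * Real.log c.y ^ A ≤ c.y :=
  ev_of F (φ := fun y => C * Real.log y ^ A ≤ y) (VE.ev_log_pow_le_self C A)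

lemma ev_N (F : VC.Fix R) :
    F.Ev fun c => 1 ≤ c.N ∧ (c.N : ℝ) ≤ Real.log c.y ^ ((4 * F.p.e + 2) * F.A + 1) := by
  refine ev_mono (ev_log F 2) fun c hi hc => ⟨?_, ?_⟩
  · have : (1 : ℝ) ≤ c.N := (one_le_pow₀ (by linarith)).trans hi.N_ge
    exact_mod_cast this
  · rw [pow_succ]
    have : 0 ≤ Real.log c.y ^ ((4 * F.p.e + 2) * F.A) := pow_nonneg (by linarith) _
    nlinarith [hi.N_le]

lemma ev_ofN (F : VC.Fix R) {φ : ℝ → ℕ → Prop}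
    (h : ∃ y₀ : ℝ, ∀ y, y₀ ≤ y → ∀ N : ℕ, 1 ≤ N →
      (N : ℝ) ≤ Real.log y ^ ((4 * F.p.e + 2) * F.A + 1) → φ y N) : F.Ev fun c => φ c.y c.N := by
  obtain ⟨a, ha⟩ := h
  exact ev_mono (ev_and (ev_y F a) (ev_N F)) fun c _ hc => ha c.y hc.1 c.N hc.2.1 hc.2.2

/-! ### conditional expectations -/

lemma wS_nn (p : VC.Par R) (S0 L : ℕ) (s : p.Co) : 0 ≤ VC.wS p S0 L s :=
  prod_nonneg fun _ _ => div_nonneg (tent_nonneg _) (Nat.cast_nonneg _)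

section Es

variable (p : VC.Par R) (c : Cfg) (x x' : p.Pn)

lemma Es_eq (Φ : p.Co → ℝ) : VC.Es p c x x' Φ = (x.1 * x'.1) *
    ∑ s ∈ VC.Sset p c.S0 c.L with p.OnS x s ∧ p.OnS x' s, VC.wS p c.S0 c.L s * Φ s := by
  rw [VC.Es, mul_sum]
  exact sum_congr rfl fun _ _ => by ring

lemma Es_add (Φ Ψ : p.Co → ℝ) :
    VC.Es p c x x' (fun s => Φ s + Ψ s) = VC.Es p c x x' Φ + VC.Es p c x x' Ψ := by
  simp only [VC.Es, mul_add, sum_add_distrib]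

lemma Es_sub (Φ Ψ : p.Co → ℝ) :
    VC.Es p c x x' (fun s => Φ s - Ψ s) = VC.Es p c x x' Φ - VC.Es p c x x' Ψ := by
  simp only [VC.Es, mul_sub, sum_sub_distrib]

lemma Es_mul (a : ℝ) (Φ : p.Co → ℝ) :
    VC.Es p c x x' (fun s => a * Φ s) = a * VC.Es p c x x' Φ := by
  rw [VC.Es, VC.Es, mul_sum]
  exact sum_congr rfl fun _ _ => by ring

lemma abs_Es_le {Φ Ψ : p.Co → ℝ} (h : ∀ s ∈ VC.Sset p c.S0 c.L, |Φ s| ≤ Ψ s) :
    |VC.Es p c x x' Φ| ≤ VC.Es p c x x' Ψ := by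
  refine (abs_sum_le_sum_abs _ _).trans (sum_le_sum fun s hs => ?_)
  have h0 : 0 ≤ VC.wS p c.S0 c.L s * (x.1 * x'.1) := mul_nonneg (wS_nn _ _ _ _) (by positivity)
  rw [abs_mul, abs_of_nonneg h0]
  exact mul_le_mul_of_nonneg_left (h s (mem_filter.mp hs).1) h0

end Es

/-! ### symmetry and the modulus -/

lemma nn_symm (p : VC.Par R) (x x' : p.Pn) (t t' : ℤ × ℤ) :
    VC.nn p x x' t' t = VC.nn p x x' t t' := by
  unfold VC.nn dl
  rw [← Int.natAbs_neg]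
  congr 1
  ring

lemma isQ_symm {p : VC.Par R} {c : Cfg} {x x' : p.Pn} {t t' : ℤ × ℤ} (h : VC.IsQ p c x x' t t') :
    VC.IsQ p c x x' t' t :=
  ⟨h.hx, h.hx', h.ht', h.ht, h.ne, h.o12, h.o11, h.o22, h.o21, h.pr', h.pr⟩

lemma le_span {L : Type} [Field L] (p : VC.Par R) (x x' : p.Pn) (t t' : ℤ × ℤ) (𝔞 : Ideal (𝓞 L)) :
    Ideal.span {(VC.nn p x x' t t' : 𝓞 L)} * 𝔞 ≤
      Ideal.span {((2 * (p.r : ℤ) ^ (p.n0 + 1) * p.Gt t * dl t t' * p.Dt t : ℤ) : 𝓞 L)} := by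
  refine Ideal.mul_le_left.trans (Ideal.span_singleton_le_span_singleton.mpr ?_)
  have h : 2 * (p.r : ℤ) ^ (p.n0 + 1) * p.Gt t * dl t t' * p.Dt t ∣ (VC.nn p x x' t t' : ℤ) := by
    rw [VC.nn, Int.dvd_natAbs]
    exact ⟨x.1 * x'.1 * p.Gt t' * p.Dt t' * t.2 * t'.2, by ring⟩
  have := Int.cast_dvd_cast (α := 𝓞 L) _ _ h
  rwa [Int.cast_natCast] at this

lemma le_span' {L : Type} [Field L] (p : VC.Par R) (x x' : p.Pn) (t t' : ℤ × ℤ) (𝔞 : Ideal (𝓞 L)) :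
    Ideal.span {(VC.nn p x x' t t' : 𝓞 L)} * 𝔞 ≤
      Ideal.span {((2 * (p.r : ℤ) ^ (p.n0 + 1) * p.Gt t' * dl t t' * p.Dt t' : ℤ) : 𝓞 L)} := by
  rw [← nn_symm]
  refine (le_span p x x' t' t 𝔞).trans (Ideal.span_singleton_le_span_singleton.mpr ?_)
  exact Int.cast_dvd_cast _ _ ⟨-1, by unfold dl; ring⟩

lemma one_le_Pi (p : VC.Par R) (z n : ℕ) : 1 ≤ VC.Pi p z n :=
  Finset.one_le_prod fun l _ => le_add_of_nonneg_right (by positivity)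

/-- the product of the two local densities -/
lemma cc_mul_le (hRs : S_Rs) {k : Type} [Field k] [NumberField k] [Algebra k ℂ] (K : BF k)
    (p : VC.Par R) {L L' : Type} [Field L] [NumberField L] [Algebra k L] [Field L'] [NumberField L']
    [Algebra k L'] (hL : Module.finrank k L = p.e) (hL' : Module.finrank k L' = p.e) {z n : ℕ}
    (hz : 8 * p.e ≤ z) (hn : n ≠ 0) (hd : M0 p.r z * p.r ∣ n) (h0 : 0 < VC.Rs L n)
    (h0' : 0 < VC.Rs L' n) :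
    1 ≤ VC.cc L (M0 p.r z * p.r) n ∧ 1 ≤ VC.cc L' (M0 p.r z * p.r) n ∧
      VC.cc L (M0 p.r z * p.r) n * VC.cc L' (M0 p.r z * p.r) n ≤ VC.Pi p z n := by
  have hm : 2 ≤ M0 p.r z * p.r := by
    have := Nat.mul_le_mul (M0_pos p.r z) p.hr.two_le
    omega
  obtain ⟨a1, a2⟩ := hRs k K L _ n hm hn fun l _ h => h.trans hd
  obtain ⟨a3, a4⟩ := hRs k K L' _ n hm hn fun l _ h => h.trans hd
  rw [hL] at a2
  rw [hL'] at a4
  have h1 : 1 ≤ VC.cc L (M0 p.r z * p.r) n := (one_le_div h0).mpr a1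
  have h3 : 1 ≤ VC.cc L' (M0 p.r z * p.r) n := (one_le_div h0').mpr a3
  have h2 := (div_le_iff₀' h0).mpr a2
  have h4 := (div_le_iff₀' h0').mpr a4
  refine ⟨h1, h3, (mul_le_mul h2 h4 (zero_le_one.trans h3) ((zero_le_one.trans h1).trans h2)).trans ?_⟩
  have hsub : n.primeFactors.filter (fun l => ¬ l ∣ M0 p.r z * p.r) ⊆
      n.primeFactors.filter fun l => z < l := by
    intro l hl
    obtain ⟨h5, h6⟩ := mem_filter.mp hl
    refine mem_filter.mpr ⟨h5, ?_⟩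
    by_contra h7
    by_cases h8 : l = p.r
    · exact h6 (h8 ▸ dvd_mul_left _ _)
    · exact h6 ((dvd_M0 (Nat.prime_of_mem_primeFactors h5) (by omega) h8).mul_right _)
  rw [← prod_mul_distrib]
  refine le_trans (prod_le_prod (g := fun l : ℕ => 1 + 20 * p.e / (l : ℝ)) ?_ ?_) ?_
  · exact fun l _ => mul_self_nonneg _
  · intro l hl
    have he : (3 : ℝ) ≤ p.e := by exact_mod_cast p.h3
    have h5 : 8 * (p.e : ℝ) ≤ l := by
      have := (mem_filter.mp (hsub hl)).2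
      exact_mod_cast (by omega : 8 * p.e ≤ l)
    have h6 : 0 < 1 / (l : ℝ) := by
      have : (0 : ℝ) < l := by linarith
      positivity
    have h7 : 8 * (p.e : ℝ) * (1 / l) ≤ 1 := by
      rw [mul_one_div, div_le_one (by linarith)]; exact h5
    rw [show 20 * (p.e : ℝ) / l = 20 * p.e * (1 / l) by ring]
    generalize 1 / (l : ℝ) = v at h6 h7
    have h8 : 0 < 1 - v := by nlinarith
    rw [← pow_add, inv_pow, inv_le_iff_one_le_mul₀ (by positivity)]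
    have h9 := one_add_mul_le_pow (a := -v) (by linarith) (2 * p.e + 2 * p.e)
    rw [← sub_eq_add_neg 1 v] at h9
    push_cast at h9
    have h10 : 0 ≤ (p.e : ℝ) * v := by positivity
    have h11 : 1 ≤ (1 + 20 * (p.e * v)) * (1 - 4 * (p.e * v)) := by nlinarith
    refine h11.trans (mul_le_mul (by linarith) (by linarith) (by linarith) (by linarith))
  · exact prod_le_prod_of_subset_of_one_le hsub (fun l _ => by positivity)
      fun l _ _ => le_add_of_nonneg_right (by positivity)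

/-- the final assembly -/
lemma final {p : VC.Par R} {c : Cfg} {x x' : p.Pn} {W W' V V' l l' b b' : p.Co → ℝ}
    {U U' : p.Co → Prop} {M Q CL Cw cq cq' : ℝ} (hy : 1 ≤ c.y) (hη : 0 < c.η) (hη1 : c.η ≤ 1)
    (hM : 1 ≤ M) (hCL : 1 ≤ CL) (hq : 1 ≤ cq) (hq' : 1 ≤ cq') (hQ : cq * cq' ≤ Q)
    (hW : ∀ s ∈ VC.Sset p c.S0 c.L,
      (0 ≤ W s ∧ W s ≤ M) ∧ (0 ≤ V s ∧ V s ≤ M) ∧ 0 ≤ b s ∧ (W s ≠ V s → 1 ≤ b s))
    (hW' : ∀ s ∈ VC.Sset p c.S0 c.L,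
      (0 ≤ W' s ∧ W' s ≤ M) ∧ (0 ≤ V' s ∧ V' s ≤ M) ∧ 0 ≤ b' s ∧ (W' s ≠ V' s → 1 ≤ b' s))
    (hb : VC.Es p c x x' b ≤ Cw / c.y) (hb' : VC.Es p c x x' b' ≤ Cw / c.y)
    (hs : 4 * Cw / c.η * M ^ 2 ≤ c.y) (h1 : |VC.Es p c x x' (fun _ => 1) - 1| ≤ c.y⁻¹)
    (hU : VC.Es p c x x' (fun s => if U s then 0 else 1) ≤ Q - 1)
    (hl : ∀ s ∈ VC.Sset p c.S0 c.L, |l s - cq| ≤ CL * c.η * cq)
    (hl' : ∀ s ∈ VC.Sset p c.S0 c.L, |l' s - cq'| ≤ CL * c.η * cq')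
    (hp : |VC.Es p c x x' fun s => (V s - 1) * (V' s - 1) -
      ((if U s then l s else 0) - 1) * ((if U' s then l' s else 0) - 1)| ≤ c.η * Q) :
    |VC.Es p c x x' fun s => (W s - 1) * (W' s - 1)| ≤ (6 * CL ^ 2 + 3) * (Q - 1 + c.η * Q) := by
  have hQ1 : 1 ≤ Q := (one_le_mul_of_one_le_of_one_le hq hq').trans hQ
  have hy0 : 0 < c.y := by linarith
  have k1 : |VC.Es p c x x' fun s => (W s - 1) * (W' s - 1) - (V s - 1) * (V' s - 1)| ≤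
      c.η * Q := by
    refine (abs_Es_le p c x x' (Ψ := fun s => 2 * M ^ 2 * (b s + b' s)) fun s hs => ?_).trans ?_
    · obtain ⟨a1, a2, a3, a4⟩ := hW s hs
      obtain ⟨b1, b2, b3, b4⟩ := hW' s hs
      exact VE.PairEst.ptw_bad hM a1.1 a1.2 b1.1 b1.2 a2.1 a2.2 b2.1 b2.2 a3 b3 a4 b4
    · rw [Es_mul, Es_add]
      calc _ ≤ 2 * M ^ 2 * (Cw / c.y + Cw / c.y) := by gcongr
        _ = c.η * (4 * Cw / c.η * M ^ 2 / c.y) := by field_simp; ring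
        _ ≤ c.η * Q := by
          gcongr
          exact ((div_le_one hy0).mpr hs).trans hQ1
  have hθ : 0 ≤ CL * c.η := by positivity
  have k2 : |VC.Es p c x x' fun s =>
      ((if U s then l s else 0) - 1) * ((if U' s then l' s else 0) - 1)| ≤
      2 * (Q * (1 + CL * c.η) ^ 2 - 1) + (Q - 1) := by
    refine (abs_Es_le p c x x' fun s hs =>
      VE.PairEst.ptw_main hq hq' hθ hQ (hl s hs) (hl' s hs)).trans ?_
    rw [Es_add, Es_mul]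
    have a1 : VC.Es p c x x' (fun _ => 1) ≤ 2 := by
      linarith [(abs_le.mp h1).2, inv_le_one_of_one_le₀ hy]
    have a2 : 0 ≤ Q * (1 + CL * c.η) ^ 2 - 1 := by nlinarith [sq_nonneg (CL * c.η)]
    nlinarith
  have e : (VC.Es p c x x' fun s => (W s - 1) * (W' s - 1)) =
      (VC.Es p c x x' fun s => (W s - 1) * (W' s - 1) - (V s - 1) * (V' s - 1)) +
      (VC.Es p c x x' fun s => (V s - 1) * (V' s - 1) -
        ((if U s then l s else 0) - 1) * ((if U' s then l' s else 0) - 1)) +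
      VC.Es p c x x' fun s => ((if U s then l s else 0) - 1) * ((if U' s then l' s else 0) - 1) := by
    rw [Es_sub, Es_sub]; ring
  rw [e]
  refine (abs_add_three _ _ _).trans ?_
  have k3 : (1 + CL * c.η) ^ 2 ≤ 1 + 3 * CL ^ 2 * c.η := by
    have a1 : CL ≤ CL ^ 2 := by nlinarith
    have a2 : CL * c.η ≤ CL ^ 2 * c.η := mul_le_mul_of_nonneg_right a1 hη.le
    have a3 : CL ^ 2 * c.η * c.η ≤ CL ^ 2 * c.η * 1 := by gcongr
    nlinarith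
  have k4 := mul_le_mul_of_nonneg_left k3 (zero_le_one.trans hQ1)
  have k5 : 0 ≤ CL ^ 2 * (Q - 1) := mul_nonneg (sq_nonneg _) (by linarith)
  have k6 : 0 ≤ c.η * Q := by positivity
  nlinarith

/-- the final numerical inequalities -/
lemma num {Co C CL η m N S0 Lr Bk X : ℝ} (d : ℕ) (hCo : 1 ≤ Co) (hCL : 1 ≤ CL)
    (hη : 0 < η) (hm : 1 ≤ m) (hS : 0 < S0) (hB : 0 < Bk) (hL : η * S0 / 2 ≤ Lr)
    (hN : m ^ (4 * d + 2) ≤ N)
    (hK : 8 * Co * C ^ 2 * (2 / η) ^ (4 * d) * (2 + 2 * Co * CL / η) / η ≤ m) :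
    (X ≤ CL * (S0 * Bk) → Co / (m⁻¹ * Lr * Bk) * X ≤ 2 * Co * CL / η * m ∧
      (m ^ (4 * d + 1))⁻¹ + (1 + Co / (m⁻¹ * Lr * Bk) * X) / N ≤
        (2 + 2 * Co * CL / η) / m ^ (4 * d + 1)) ∧
    ∀ cq cq' Q e : ℝ, cq * cq' ≤ Q → 0 ≤ Q → 0 ≤ e → e ≤ 2 →
      4 * (Co / (m⁻¹ * Lr * Bk) ^ (4 * d) * (C * cq * (S0 * Bk) ^ (2 * d)) *
        (C * cq' * (S0 * Bk) ^ (2 * d)) * ((2 + 2 * Co * CL / η) / m ^ (4 * d + 1))) * e ≤ η * Q := by
  have hm0 : 0 < m := by linarith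
  have hL0 : 0 < Lr := lt_of_lt_of_le (by positivity) hL
  have h1 : S0 * Bk / (m⁻¹ * Lr * Bk) ≤ 2 * m / η := by
    rw [div_le_div_iff₀ (by positivity) hη]
    calc S0 * Bk * η = 2 * Bk * (η * S0 / 2) := by ring
      _ ≤ 2 * Bk * Lr := by gcongr
      _ = _ := by field_simp
  have h0 : 0 ≤ S0 * Bk / (m⁻¹ * Lr * Bk) := by positivity
  refine ⟨fun hX => ?_, fun cq cq' Q e hq hQ he0 he => ?_⟩
  · have a1 : Co / (m⁻¹ * Lr * Bk) * X ≤ 2 * Co * CL / η * m :=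
      calc _ ≤ Co / (m⁻¹ * Lr * Bk) * (CL * (S0 * Bk)) := by gcongr
        _ = Co * CL * (S0 * Bk / (m⁻¹ * Lr * Bk)) := by ring
        _ ≤ Co * CL * (2 * m / η) := by gcongr
        _ = _ := by ring
    have a2 : (1 + Co / (m⁻¹ * Lr * Bk) * X) / N ≤ (m + 2 * Co * CL / η * m) / m ^ (4 * d + 2) :=
      div_le_div₀ (by positivity) (add_le_add hm a1) (by positivity) hN
    refine ⟨a1, (add_le_add le_rfl a2).trans (le_of_eq ?_)⟩
    rw [pow_succ m (4 * d + 1)]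
    field_simp
    ring
  · have e1 : (S0 * Bk) ^ (4 * d) = (S0 * Bk) ^ (2 * d) * (S0 * Bk) ^ (2 * d) := by
      rw [← pow_add]; congr 1; ring
    calc _ = 4 * Co * C ^ 2 * (cq * cq') * (S0 * Bk / (m⁻¹ * Lr * Bk)) ^ (4 * d) *
          ((2 + 2 * Co * CL / η) / m ^ (4 * d + 1)) * e := by rw [div_pow, e1]; ring
      _ ≤ 4 * Co * C ^ 2 * Q * (2 * m / η) ^ (4 * d) *
          ((2 + 2 * Co * CL / η) / m ^ (4 * d + 1)) * 2 := by gcongr
      _ = η * Q * (8 * Co * C ^ 2 * (2 / η) ^ (4 * d) * (2 + 2 * Co * CL / η) / η / m) := by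
          rw [show 2 * m / η = 2 / η * m by ring, mul_pow, pow_succ m]
          field_simp
          ring
      _ ≤ η * Q * 1 := by
        gcongr
        exact (div_le_one hm0).mpr hK
      _ = _ := mul_one _

end Pool.Agent.P.MP_b8021b_nt.VC.PairE
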