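import Pool.Agent.P.MP_b8021b_nt.VC.PPairEst1

/-! Pair correlation estimate: construction of a side. -/

namespace Pool.Agent.P.MP_b8021b_nt.VC.PairE

open Polynomial NumberField Finset Pool.Agent.P.MP_b8021b_nt.VE
open scoped Classical

section

variable (k : Type) [Field k] [NumberField k] [Algebra k ℂ] {L : Type} [Field L] [NumberField L]
  [Algebra k L]

/-- bounded, supported on comparable elements and Lipschitz on a coset -/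
def Lip (𝔟 : Ideal (𝓞 L)) (H δ : ℝ) (α₀ : 𝓞 L) (ω : 𝓞 L → ℝ) (Ω : ℝ) : Prop :=
  (∀ α, α - α₀ ∈ 𝔟 → |ω α| ≤ Ω ∧ (ω α ≠ 0 → Cmp k α)) ∧ ∀ α α', α - α₀ ∈ 𝔟 → α' - α₀ ∈ 𝔟 →
    |ω α - ω α'| ≤ Ω * (H * ‖emb k α - emb k α'‖ + δ)

/-- restriction to the comparable elements -/
noncomputable def Ct (f : 𝓞 L → ℝ) (α : 𝓞 L) : ℝ := if Cmp k α then f α else 0

omit [NumberField k] [NumberField L] in
lemma Ct_nonneg {f : 𝓞 L → ℝ} (h : ∀ α, 0 ≤ f α) (α : 𝓞 L) : 0 ≤ Ct k f α := by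
  unfold Ct
  split_ifs
  exacts [h α, le_rfl]

end

variable {L : Type} [Field L] [NumberField L]

lemma Wan_nn {w : ℕ → ℝ} {y : ℝ} {N : ℕ} (hw : ∀ q ∈ Pset y N, 0 ≤ w q) (u : ℕ) (𝔞 : Ideal (𝓞 L))
    (α : 𝓞 L) : 0 ≤ VC.Wan w y N u 𝔞 α :=
  sum_nonneg fun _ hq => mul_nonneg (prod_nonneg fun j _ => hw _ (Fintype.mem_piFinset.mp hq j))
    (Nat.cast_nonneg _)

lemma Lam_nn {y : ℝ} (hy : 0 ≤ y) (N u : ℕ) {n : ℕ} (h : 0 < VC.Rs L n) (𝔞 : Ideal (𝓞 L))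
    (α : 𝓞 L) : 0 ≤ VC.Lam y N u n 𝔞 α := by
  unfold VC.Lam
  split_ifs
  · exact le_rfl
  · exact sum_nonneg fun m _ => mul_nonneg (by positivity) (tent_nonneg _)

lemma absNorm_n {d : ℕ} (h : Module.finrank ℚ L = d) (n : ℕ) (𝔞 : Ideal (𝓞 L)) :
    Ideal.absNorm (Ideal.span {(n : 𝓞 L)} * 𝔞) = n ^ d * Ideal.absNorm 𝔞 := by
  rw [map_mul, Ideal.absNorm_span_natCast, RingOfIntegers.rank, h]

lemma ne_zero_of_unitC {n : ℕ} (hn : 2 ≤ n) {𝔞 : Ideal (𝓞 L)} (h0 : 𝔞 ≠ ⊥) {α : 𝓞 L}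
    (h : UnitC n 𝔞 α) : α ≠ 0 := by
  obtain ⟨𝔟, h1, h2⟩ := h
  intro e
  rw [e, Ideal.span_singleton_zero, eq_comm, Ideal.mul_eq_bot] at h1
  exact h1.elim h0 (Cop_ne_bot hn h2)

lemma sd_of (hCos : S_Cos) (hBall : S_Ball) (k : Type) [Field k] [NumberField k] [Algebra k ℂ]
    (K : BF k) (e : ℕ) : ∃ a b : ℕ, 1 ≤ a ∧ ∀ u : ℕ, 1 ≤ u → ∃ C : ℝ, 1 ≤ C ∧
    ∀ (σ : Type) (S : Finset σ) (P : σ → Prop) (L : Type) [Field L] [NumberField L] [Algebra k L]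
      (al : σ → 𝓞 L) (n N : ℕ) (𝔞 : Ideal (𝓞 L)) (y Q Q₀ X ε H κ cq Z CL E : ℝ) (w : ℕ → ℝ),
      Module.finrank k L = e → Module.finrank ℚ L = 2 * e → IsCM L → C ≤ Q → 2 ≤ Q₀ → Q₀ ≤ Q →
      Small k L Q₀ → 2 ≤ n → (n : ℝ) ≤ Q → 1 ≤ N → (N : ℝ) ≤ Q → 2 ≤ y → 𝔞 ≠ ⊥ →
      (Ideal.absNorm 𝔞 : ℝ) ≤ Q → Q ^ a ≤ X → X ^ (2 * e) = Ideal.absNorm 𝔞 * y ^ u →
      (∀ q ∈ Pset y N, 0 ≤ w q) → (∀ i, ∀ q ∈ strat y N i, lv y N q = i) → ε ≤ 1 →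
      VC.EqD k L w y N u n (Q ^ a) ε → 0 ≤ H → H * X ≤ Q → 0 ≤ κ → 1 ≤ CL → 1 ≤ cq →
      0 < cov2 k L → 0 < VC.Rs L n →
      κ * Th k L N u n * ((n : ℝ) ^ (2 * e) * cov2 k L) ≤ CL * cq * y ^ u → X ≤ CL * Z →
      (n * Ideal.absNorm 𝔞 : ℕ) * Q₀ ^ b ≤ CL * Z → (∀ s ∈ S, ‖emb k (al s)‖ ≤ CL * Z) →
      (∀ s, P s ↔ al s ∈ 𝔞) → ε + (1 + H * X) / N ≤ E → 0 ≤ E →
      VE.PairEst.Sd S P al (Ideal.span {(n : 𝓞 L)} * 𝔞)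
        (VE.PairEst.Rs n 𝔞 κ (Ct k (VC.Wan w y N u 𝔞)))
        (VE.PairEst.Rs n 𝔞 κ (Ct k (VC.Lam y N u n 𝔞)))
        (Lip k (Ideal.span {(n : 𝓞 L)} * 𝔞) H (Q ^ a)⁻¹)
        (Ideal.absNorm (Ideal.span {(n : 𝓞 L)} * 𝔞) * cov2 k L)
        (C * CL ^ (2 * e + 1) * cq * Z ^ (2 * e)) E := by
  obtain ⟨a, ha, hcos⟩ := hCos k K e
  obtain ⟨b, hball⟩ := hBall k K e
  refine ⟨a, b, ha, fun u hu => ?_⟩
  obtain ⟨Cc, hCc, hcos⟩ := hcos u hu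
  have hb1 : (1 : ℝ) ≤ 2 ^ b := one_le_pow₀ one_le_two
  refine ⟨Cc * 2 ^ b, one_le_mul_of_one_le_of_one_le hCc hb1, ?_⟩
  intro σ S P L _ _ _ al n N 𝔞 y Q Q₀ X ε H κ cq Z CL E w hfin hfin' hCM hCQ hQ₀ hQQ hsm hn hnQ hN hNQ
    hy h0 haQ hX hX2 hw hlv hε hE hH hHX hκ hCL hcq hcov hRs h1 h2 h3 h4 h5 h6 hE0
  have hsm' : Small k L Q := by
    obtain ⟨v, hv1, hv2⟩ := hsm
    exact ⟨v, hv1, fun i φ => (hv2 i φ).trans hQQ⟩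
  have hCQ' : Cc ≤ Q := le_trans (le_mul_of_one_le_right (by linarith) hb1) hCQ
  have hNa : 1 ≤ Ideal.absNorm 𝔞 :=
    Nat.pos_of_ne_zero fun h => h0 (Ideal.absNorm_eq_zero_iff.mp h)
  have hNa' : (1 : ℝ) ≤ Ideal.absNorm 𝔞 := by exact_mod_cast hNa
  have hn' : (2 : ℝ) ≤ n := by exact_mod_cast hn
  have hn1 : 1 ≤ n * Ideal.absNorm 𝔞 := Nat.mul_pos (by omega) hNa
  have hmem : ((n * Ideal.absNorm 𝔞 : ℕ) : 𝓞 L) ∈ Ideal.span {(n : 𝓞 L)} * 𝔞 := by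
    rw [Nat.cast_mul]
    exact Ideal.mul_mem_mul (Ideal.mem_span_singleton_self _) (Ideal.absNorm_mem 𝔞)
  have hX0 : 0 < X := lt_of_lt_of_le (pow_pos (by linarith) a) hX
  have hZ : 0 ≤ Z := by
    by_contra h
    push Not at h
    nlinarith
  have hvol : ((Ideal.absNorm (Ideal.span {(n : 𝓞 L)} * 𝔞) : ℕ) : ℝ) * cov2 k L =
      n ^ (2 * e) * Ideal.absNorm 𝔞 * cov2 k L := by rw [absNorm_n hfin']; push_cast; rfl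
  have hvol0 : 0 < (n : ℝ) ^ (2 * e) * Ideal.absNorm 𝔞 * cov2 k L := by positivity
  have hTh : 0 ≤ Th k L N u n := by unfold Th; positivity
  have hM : κ * (Cc * Th k L N u n) ≤ Cc * 2 ^ b * CL ^ (2 * e + 1) * cq * Z ^ (2 * e) /
      ((Ideal.absNorm (Ideal.span {(n : 𝓞 L)} * 𝔞) : ℕ) * cov2 k L) := by
    rw [hvol, le_div_iff₀ hvol0]
    calc _ = Cc * (κ * Th k L N u n * (n ^ (2 * e) * cov2 k L)) * Ideal.absNorm 𝔞 := by ring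
      _ ≤ Cc * (CL * cq * y ^ u) * Ideal.absNorm 𝔞 := by gcongr
      _ = Cc * 1 * CL * cq * X ^ (2 * e) := by rw [hX2]; ring
      _ ≤ Cc * 2 ^ b * CL * cq * (CL * Z) ^ (2 * e) := by gcongr
      _ = _ := by ring
  have hG : 0 ≤ Cc * 2 ^ b * CL ^ (2 * e + 1) * cq * Z ^ (2 * e) := by positivity
  refine ⟨hvol ▸ hvol0, hG, fun s s₀ b1 b2 => ?_, ?_, fun α₀ => ?_⟩
  · rw [h5] at b1 ⊢
    simpa using 𝔞.add_mem (Ideal.mul_le_right b2) b1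
  · refine VE.PairEst.side_f h0 hκ (div_nonneg hG (hvol ▸ hvol0.le)) hE0
      (Ct_nonneg k (Wan_nn hw u 𝔞)) (Ct_nonneg k (Lam_nn (by linarith) N u hRs 𝔞))
      (fun α₀ => ⟨fun _ _ => by simp, fun _ _ _ _ => by simp⟩) fun α₀ ω Ω hU hΩ hl => ?_
    obtain ⟨s, b1, b2, b3, b4, b5⟩ := hcos L n N 𝔞 α₀ y Q X ε Ω (H * X) w ω hfin hCM hCQ' hsm' hn hnQ
      hN hNQ hy h0 haQ hU hX hX2 hw hlv hε hE hΩ (by positivity) hHX hl.1 (fun α α' c1 c2 => by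
        have := hl.2 α α' c1 c2
        rwa [show H * X * ‖emb k α - emb k α'‖ / X = H * ‖emb k α - emb k α'‖ by field_simp])
    have hc : ∀ f : 𝓞 L → ℝ, ∀ α ∈ s, Ct k f α = f α := fun f α h => if_pos (b1 α h).2
    refine ⟨s, fun α h => (b1 α h).1, fun α c1 c2 => ?_, ?_, ?_, ?_⟩
    · unfold Ct
      split_ifs with c3
      exacts [b2 α c1 c3 c2, ⟨rfl, rfl⟩]
    · rw [sum_congr rfl fun α h => by rw [hc _ α h, hc _ α h]]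
      calc _ ≤ κ * (Cc * Ω * Th k L N u n * E) :=
            mul_le_mul_of_nonneg_left (b3.trans (by gcongr)) hκ
        _ = Ω * (κ * (Cc * Th k L N u n) * E) := by ring
        _ ≤ _ := by gcongr
    · rw [sum_congr rfl (hc _)]
      exact (mul_le_mul_of_nonneg_left b4 hκ).trans hM
    · rw [sum_congr rfl (hc _)]
      exact (mul_le_mul_of_nonneg_left b5 hκ).trans hM
  · obtain ⟨b1, b2⟩ := hball L hfin
    have b5 : {α : 𝓞 L | α - α₀ ∈ Ideal.span {(n : 𝓞 L)} * 𝔞 ∧ ‖emb k α - 0‖ ≤ CL * Z}.Finite :=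
      (b1 0 (CL * Z)).subset fun α h => h.2
    refine ⟨b5.toFinset, fun α h => (b5.mem_toFinset.mp h).1, fun s hs h =>
      b5.mem_toFinset.mpr ⟨h, by rw [sub_zero]; exact h4 s hs⟩, ?_⟩
    rw [← Set.ncard_eq_toFinset_card _ b5]
    refine (b2 Q₀ (CL * Z) _ _ α₀ 0 hQ₀ hsm hn1 hmem h3).2.trans
      (div_le_div_of_nonneg_right ?_ (hvol ▸ hvol0.le))
    calc _ = 1 * 2 ^ b * (CL ^ (2 * e) * 1) * 1 * Z ^ (2 * e) := by ring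
      _ ≤ Cc * 2 ^ b * (CL ^ (2 * e) * CL) * cq * Z ^ (2 * e) := by gcongr
      _ = _ := by ring

end Pool.Agent.P.MP_b8021b_nt.VC.PairE
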