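import Pool.Agent.P.MP_b8021b_nt.VC.StT
import Pool.Agent.P.MP_b8021b_nt.VC.BasicT
import Pool.Agent.P.MP_b8021b_nt.VE.PPiP3

/-! Mass estimates for the averages over the quadruples. -/

namespace Pool.Agent.P.MP_b8021b_nt.VC.PiC

open Polynomial Finset Pool.Agent.P.MP_b8021b_nt.VE
open Pool.Agent.P.MP_b8021b_nt.VE.PiP (Per sR cR mem_sR cR_mul per_all cR_prod per_lin cR_lin)
open scoped Classical

lemma per_hev (l n : ℕ) (g : ℤ[X]) : Per l fun t => (l : ℤ) ∣ hev n g t.1 t.2 := by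
  intro t t' h1 h2 h
  have e1 : ((t'.1 : ℤ) : ZMod l) = t.1 := (ZMod.intCast_eq_intCast_iff_dvd_sub _ _ _).mpr h1
  have e2 : ((t'.2 : ℤ) : ZMod l) = t.2 := (ZMod.intCast_eq_intCast_iff_dvd_sub _ _ _).mpr h2
  show (l : ℤ) ∣ hev n g t'.1 t'.2
  rw [← ZMod.intCast_zmod_eq_zero_iff_dvd] at h ⊢
  unfold hev at h ⊢
  push_cast at h ⊢
  rw [e1, e2]; exact h

lemma cR_hev {l n : ℕ} (hl : l.Prime) {g : ℤ[X]} (hg : g.natDegree ≤ n)
    (hc : ¬ (l : ℤ) ∣ g.leadingCoeff) :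
    cR l (fun t => (l : ℤ) ∣ hev n g t.1 t.2) ≤ (n + 1) * l := by
  have : Fact l.Prime := ⟨hl⟩
  unfold cR
  set s := sR l fun t => (l : ℤ) ∣ hev n g t.1 t.2 with hs
  rw [← card_filter_add_card_filter_not (s := s) (fun ab => ab.2 = 0)]
  have h0 : (s.filter fun ab => ab.2 = 0).card ≤ l := by
    refine le_trans (card_le_card_of_injOn (t := range l) Prod.fst ?_ ?_) (by simp)
    · intro ab hab
      exact mem_coe.mpr (mem_range.mpr (mem_sR.mp (mem_filter.mp (mem_coe.mp hab)).1).1.1)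
    · intro ab hab ab' hab' he
      exact Prod.ext he ((mem_filter.mp (mem_coe.mp hab)).2.trans
        (mem_filter.mp (mem_coe.mp hab')).2.symm)
  have h1 : (s.filter fun ab => ¬ ab.2 = 0).card ≤ n * l := by
    refine le_trans (card_le_mul_card_image (f := Prod.snd) _ n ?_) (Nat.mul_le_mul_left _ ?_)
    · intro b hb
      obtain ⟨ab0, hab0, rfl⟩ := mem_image.mp hb
      have hb0 := (mem_filter.mp hab0).2
      have hbl := (mem_sR.mp (mem_filter.mp hab0).1).1.2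
      have hbz : (((ab0.2 : ℕ) : ℤ) : ZMod l) ≠ 0 := by
        rw [Int.cast_natCast, Ne, ZMod.natCast_eq_zero_iff]
        exact fun h => hb0 (Nat.eq_zero_of_dvd_of_lt h hbl)
      have hg0 : g.map (algebraMap ℤ (ZMod l)) ≠ 0 := fun e => hc (by
        have := congrArg (fun f => coeff f g.natDegree) e
        simp only [coeff_map, coeff_natDegree, coeff_zero, eq_intCast] at this
        exact (ZMod.intCast_zmod_eq_zero_iff_dvd _ _).mp this)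
      refine le_trans (card_le_card_of_injOn (t := (g.map (algebraMap ℤ (ZMod l))).roots.toFinset)
        (fun ab : ℕ × ℕ => (((ab.1 : ℕ) : ℤ) : ZMod l) / (((ab0.2 : ℕ) : ℤ) : ZMod l)) ?_ ?_)
        ((Multiset.toFinset_card_le _).trans ((card_roots' _).trans
          (natDegree_map_le.trans hg)))
      · intro ab hab
        obtain ⟨h2, h3⟩ := mem_filter.mp (mem_coe.mp hab)
        have h4 := (mem_sR.mp (mem_filter.mp h2).1).2
        rw [← ZMod.intCast_zmod_eq_zero_iff_dvd] at h4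
        simp only [h3] at h4
        rw [hev_div hg _ hbz] at h4
        refine mem_coe.mpr (Multiset.mem_toFinset.mpr ((mem_roots hg0).mpr ?_))
        rw [IsRoot, eval_map_algebraMap]
        exact (mul_eq_zero.mp h4).resolve_left (pow_ne_zero _ hbz)
      · intro ab hab ab' hab' he
        obtain ⟨h2, h3⟩ := mem_filter.mp (mem_coe.mp hab)
        obtain ⟨h2', h3'⟩ := mem_filter.mp (mem_coe.mp hab')
        have a1 := (mem_sR.mp (mem_filter.mp h2).1).1.1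
        have a2 := (mem_sR.mp (mem_filter.mp h2').1).1.1
        have he' := (div_left_inj' hbz).mp he
        rw [Int.cast_natCast, Int.cast_natCast] at he'
        exact Prod.ext (Nat.ModEq.eq_of_lt_of_lt ((ZMod.natCast_eq_natCast_iff _ _ _).mp he') a1 a2)
          (h3.trans h3'.symm)
    · refine le_trans (card_le_card (t := range l) ?_) (by simp)
      intro b hb
      obtain ⟨ab0, hab0, rfl⟩ := mem_image.mp hb
      exact mem_range.mpr (mem_sR.mp (mem_filter.mp hab0).1).1.2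
  rw [add_mul, one_mul]
  omega

variable {R : Type} [CommRing R] [Algebra ℤ[X] R]

/-- the facts on the parameters that are used -/
structure Ctx (p : Par R) (c : Cfg) : Prop where
  τ0 : c.τ0 ≤ -2
  ηpos : 0 < c.η
  ηle : c.η ≤ 1
  y1 : 2 ≤ c.y
  B : c.y ^ 4 ≤ c.B
  big : 180 * ((Mf p c.z * p.r ^ p.n0 : ℕ) : ℝ) ≤ c.η * c.y
  ez : p.e ≤ c.z
  zy : (c.z : ℝ) < c.y
  N1 : 1 ≤ c.N
  sum : ∑ x ∈ Xset p c.y c.N, wt p c.y c.N x.1 / x.1 = c.N
  pr : ∀ q ∈ Pset c.y c.N, q.Prime ∧ c.y ≤ q ∧ q < 3 * c.y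

variable {p : Par R} {c : Cfg}

lemma Ctx.Bpos (h : Ctx p c) : 0 < c.B := lt_of_lt_of_le (by have := h.y1; positivity) h.B

lemma Ctx.cop (h : Ctx p c) {l : ℕ} (hl : l.Prime) (hz : c.z < l) :
    l.Coprime (Mf p c.z * p.r) := by
  have h1 := h.ez
  have h2 := p.re
  refine Nat.Coprime.mul_right (hl.coprime_iff_not_dvd.mpr fun e => ?_) ?_
  · rcases (prime_dvd_Mf hl).mp e with e | e <;> omega
  · exact (Nat.coprime_primes hl p.hr).mpr (by omega)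

lemma Ctx.est (h : Ctx p c) (hT : S_TEq) {d : ℕ} (hd : 1 ≤ d)
    (hc : d.Coprime (Mf p c.z * p.r)) {κ : ℝ} (hκ : κ ≤ 1)
    (hdκ : (d : ℝ) ≤ 9 * κ * c.y ^ 3) {P : ℤ × ℤ → Prop} (hP : Per d P) {τ₁ τ₂ : ℝ}
    (h1 : c.τ0 ≤ τ₁) (h2 : τ₁ ≤ τ₂) (h3 : τ₂ ≤ c.τ0 + c.η) :
    ∑ t ∈ Tset p c, (if τ₁ ≤ (t.1 : ℝ) / t.2 ∧ (t.1 : ℝ) / t.2 < τ₂ ∧ P t then wT p c t else 0) ≤
      ((τ₂ - τ₁) / c.η + κ) * (cR d P / (d : ℝ) ^ 2) := by
  have hB := h.Bpos
  have hη := h.ηpos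
  have hy : 0 < c.y := by linarith [h.y1]
  have hd0 : (0 : ℝ) < d := by exact_mod_cast hd
  have hκ0 : 0 ≤ κ := by
    by_contra hn
    have : 9 * κ * c.y ^ 3 < 0 := mul_neg_of_neg_of_pos (by linarith) (by positivity)
    linarith
  set M : ℝ := ((Mf p c.z * p.r ^ p.n0 : ℕ) : ℝ) with hM
  have hM0 : 0 ≤ M := by positivity
  have hMd : ((Mf p c.z * p.r ^ p.n0 * d : ℕ) : ℝ) = M * d := by rw [hM]; push_cast; ring
  have key : 20 * (M * d) ≤ κ * (c.η * c.B) := by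
    calc 20 * (M * d) ≤ 20 * (M * (9 * κ * c.y ^ 3)) := by gcongr
      _ = (180 * M) * (κ * c.y ^ 3) := by ring
      _ ≤ (c.η * c.y) * (κ * c.y ^ 3) := mul_le_mul_of_nonneg_right h.big (by positivity)
      _ = κ * (c.η * c.y ^ 4) := by ring
      _ ≤ κ * (c.η * c.B) := by gcongr; exact h.B
  set U : Finset (ZMod d × ZMod d) :=
    (sR d P).image fun ab => ((ab.1 : ZMod d), (ab.2 : ZMod d)) with hU
  have h6 : 6 * ((Mf p c.z * p.r ^ p.n0 * d : ℕ) : ℝ) ≤ c.η * c.B := by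
    rw [hMd]
    have : κ * (c.η * c.B) ≤ 1 * (c.η * c.B) := by gcongr
    have : 0 ≤ M * d := by positivity
    linarith
  have hmain := (hT R p c d U τ₁ τ₂ c.B (c.B * (1 + c.η)) h.τ0 hη h.ηle hd hc h6 h1 h2 h3 le_rfl
    (by nlinarith) le_rfl).2
  have hRc : (U.card : ℝ) ≤ cR d P := by exact_mod_cast card_image_le
  have hle : ∑ t ∈ Tset p c,
      (if τ₁ ≤ (t.1 : ℝ) / t.2 ∧ (t.1 : ℝ) / t.2 < τ₂ ∧ P t then wT p c t else 0) ≤
      ∑ t ∈ Tset p c with τ₁ ≤ (t.1 : ℝ) / t.2 ∧ (t.1 : ℝ) / t.2 < τ₂ ∧ c.B ≤ t.2 ∧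
        t.2 < c.B * (1 + c.η) ∧ ((t.1 : ZMod d), (t.2 : ZMod d)) ∈ U, wT p c t := by
    rw [sum_filter]
    refine sum_le_sum fun t ht => ?_
    have hw := wT_nonneg ht
    by_cases hp : τ₁ ≤ (t.1 : ℝ) / t.2 ∧ (t.1 : ℝ) / t.2 < τ₂ ∧ P t
    · rw [if_pos hp, if_pos]
      refine ⟨hp.1, hp.2.1, (Tset_prop ht).1, (Tset_prop ht).2.1, ?_⟩
      have hdz : (0 : ℤ) < d := by exact_mod_cast hd
      have e : ∀ a : ℤ, (((a % d).toNat : ℕ) : ℤ) = a % d := fun a =>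
        Int.toNat_of_nonneg (Int.emod_nonneg _ hdz.ne')
      have lt : ∀ a : ℤ, (a % d).toNat < d := fun a => by
        have := Int.emod_lt_of_pos a hdz
        have := e a
        omega
      have dv : ∀ a : ℤ, (d : ℤ) ∣ a - (((a % d).toNat : ℕ) : ℤ) := fun a => by
        rw [e]; exact Int.dvd_self_sub_emod
      have ca : ∀ a : ℤ, (((a % d).toNat : ℕ) : ZMod d) = (a : ZMod d) := fun a => by
        have := (ZMod.intCast_eq_intCast_iff_dvd_sub _ _ _).mpr (dv a)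
        exact_mod_cast this
      refine mem_image.mpr ⟨((t.1 % d).toNat, (t.2 % d).toNat),
        mem_sR.mpr ⟨⟨lt _, lt _⟩, hP _ _ (dv _) (dv _) hp.2.2⟩, ?_⟩
      simp only [ca]
    · rw [if_neg hp]
      split_ifs
      · exact hw
      · exact le_rfl
  refine hle.trans ?_
  have h7 := (abs_le.mp hmain).2
  have e1 : (τ₂ - τ₁) * (c.B * (1 + c.η) - c.B) / (c.η ^ 2 * c.B) = (τ₂ - τ₁) / c.η := by
    field_simp; ring
  rw [e1, hMd] at h7
  have h8 : 20 * (M * d / (c.η * c.B)) ≤ κ := by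
    rw [← mul_div_assoc, div_le_iff₀ (by positivity)]; exact key
  have h9 : 0 ≤ (τ₂ - τ₁) / c.η := div_nonneg (by linarith) hη.le
  have h10 : (0 : ℝ) ≤ U.card / (d : ℝ) ^ 2 := by positivity
  calc _ ≤ ((τ₂ - τ₁) / c.η + 20 * (M * d / (c.η * c.B))) * (U.card / (d : ℝ) ^ 2) := by linarith
    _ ≤ ((τ₂ - τ₁) / c.η + κ) * (cR d P / (d : ℝ) ^ 2) := by gcongr

/-- a form with small local densities at the primes above `z` -/
def Frm (z K : ℕ) (G : ℤ × ℤ → ℤ) : Prop :=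
  ∀ l : ℕ, l.Prime → z < l →
    Per l (fun t => (l : ℤ) ∣ G t) ∧ cR l (fun t => (l : ℤ) ∣ G t) ≤ K * l

lemma frm_lin (z : ℕ) {K : ℕ} (hK : 1 ≤ K) {α β : ℤ} (h : IsCoprime α β) :
    Frm z K fun t => α * t.2 - t.1 * β := fun l hl _ =>
  ⟨per_lin l α β, (cR_lin hl.pos h).trans (Nat.le_mul_of_pos_left _ hK)⟩

lemma frm_hev {z n : ℕ} {g : ℤ[X]} (hg : g.natDegree ≤ n) (h0 : g ≠ 0)
    (hz : g.leadingCoeff.natAbs ≤ z) : Frm z (n + 1) fun t => hev n g t.1 t.2 := fun l hl hzl =>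
  ⟨per_hev l n g, cR_hev hl hg fun e => by
    have := Nat.le_of_dvd (Int.natAbs_pos.mpr (leadingCoeff_ne_zero.mpr h0))
      (Int.natCast_dvd.mp e)
    omega⟩

/-- the congruence condition of a point -/
def On (x : p.Pn) (t : ℤ × ℤ) : Prop := (x.1 : ℤ) ∣ (x.2.1 : ℤ) * t.2 - t.1 * 1

lemma on_of {x : p.Pn} {t : ℤ × ℤ} (h : p.OnT x t) : On x t := by
  have := h.1.neg_right
  rwa [show -(t.1 - (x.2.1 : ℤ) * t.2) = (x.2.1 : ℤ) * t.2 - t.1 * 1 by ring] at this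

lemma Ctx.est3 (h : Ctx p c) (hT : S_TEq) {x x' : p.Pn} (hq : x.1 ∈ Pset c.y c.N)
    (hq' : x'.1 ∈ Pset c.y c.N) (hne : x.1 ≠ x'.1) {K : ℕ}
    {G : ℤ × ℤ → ℤ} (hG : Frm c.z K G) (S : Finset ℕ)
    (hS : ∀ l ∈ S, l.Prime ∧ c.z < l ∧ (l : ℝ) < c.y) (hD : ((∏ l ∈ S, l : ℕ) : ℝ) ≤ c.y)
    {τ₁ τ₂ : ℝ} (h1 : c.τ0 ≤ τ₁) (h2 : τ₁ ≤ τ₂) (h3 : τ₂ ≤ c.τ0 + c.η) :
    ∑ t' ∈ Tset p c, (if τ₁ ≤ (t'.1 : ℝ) / t'.2 ∧ (t'.1 : ℝ) / t'.2 < τ₂ ∧
        (On x t' ∧ On x' t' ∧ ∀ l ∈ S, (l : ℤ) ∣ G t') then wT p c t' else 0) ≤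
      ((τ₂ - τ₁) / c.η + ((∏ l ∈ S, l : ℕ) : ℝ) / c.y) *
        ((∏ l ∈ S, K / (l : ℝ)) / (x.1 * x'.1)) := by
  obtain ⟨a1, a2, a3⟩ := h.pr _ hq
  obtain ⟨b1, b2, b3⟩ := h.pr _ hq'
  have hy : 0 < c.y := by linarith [h.y1]
  set D : ℕ := ∏ l ∈ S, l with hDdef
  have hDpos : 0 < D := prod_pos fun l hl => (hS l hl).1.pos
  have cD : ∀ a : ℕ, a.Prime → c.y ≤ a → a.Coprime D := fun a ha hay =>
    Nat.Coprime.prod_right fun l hl => (Nat.coprime_primes ha (hS l hl).1).mpr fun e => by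
      have := (hS l hl).2.2
      rw [← e] at this
      linarith
  have zq : ∀ a : ℕ, c.y ≤ a → c.z < a := fun a ha => by
    have := lt_of_lt_of_le h.zy ha
    exact_mod_cast this
  have P1 : Per x.1 fun t' => On x t' := per_lin x.1 x.2.1 1
  have P2 : Per x'.1 fun t' => On x' t' := per_lin x'.1 x'.2.1 1
  have P3 := per_all S (fun l t' => (l : ℤ) ∣ G t') fun l hl =>
    (hG l (hS l hl).1 (hS l hl).2.1).1
  have P23 : Per (x'.1 * D) fun t' => On x' t' ∧ ∀ l ∈ S, (l : ℤ) ∣ G t' :=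
    fun s s' e1 e2 hs => ⟨P2.of_dvd (dvd_mul_right _ _) s s' e1 e2 hs.1,
      P3.of_dvd (dvd_mul_left _ _) s s' e1 e2 hs.2⟩
  have P123 : Per (x.1 * (x'.1 * D)) fun t' =>
      On x t' ∧ On x' t' ∧ ∀ l ∈ S, (l : ℤ) ∣ G t' :=
    fun s s' e1 e2 hs => ⟨P1.of_dvd (dvd_mul_right _ _) s s' e1 e2 hs.1,
      P23.of_dvd (dvd_mul_left _ _) s s' e1 e2 hs.2⟩
  have c1 := cR_mul a1.pos (Nat.mul_pos b1.pos hDpos)
    (Nat.Coprime.mul_right ((Nat.coprime_primes a1 b1).mpr hne) (cD _ a1 a2)) P1 P23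
  have c2 := cR_mul b1.pos hDpos (cD _ b1 b2) P2 P3
  have c3 := cR_prod S (fun l hl => (hS l hl).1) (fun l t' => (l : ℤ) ∣ G t')
    fun l hl => (hG l (hS l hl).1 (hS l hl).2.1).1
  have c4 : ∏ l ∈ S, cR l (fun t' => (l : ℤ) ∣ G t') ≤ ∏ l ∈ S, K * l :=
    prod_le_prod' fun l hl => (hG l (hS l hl).1 (hS l hl).2.1).2
  have c5 : cR x.1 (fun t' => On x t') ≤ x.1 := cR_lin a1.pos isCoprime_one_right
  have c6 : cR x'.1 (fun t' => On x' t') ≤ x'.1 := cR_lin b1.pos isCoprime_one_right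
  have c7 := c1.trans (Nat.mul_le_mul c5 (c2.trans (Nat.mul_le_mul c6 (c3.trans c4))))
  have hq0 : (0 : ℝ) < x.1 := by exact_mod_cast a1.pos
  have hq0' : (0 : ℝ) < x'.1 := by exact_mod_cast b1.pos
  have hD0 : (0 : ℝ) < D := by exact_mod_cast hDpos
  have hest := h.est hT (d := x.1 * (x'.1 * D)) (Nat.mul_pos a1.pos (Nat.mul_pos b1.pos hDpos))
    (Nat.Coprime.mul_left (h.cop a1 (zq _ a2)) (Nat.Coprime.mul_left (h.cop b1 (zq _ b2))
      (Nat.Coprime.prod_left fun l hl => h.cop (hS l hl).1 (hS l hl).2.1)))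
    (κ := D / c.y) ((div_le_one hy).mpr hD) (by
      push_cast
      calc (x.1 : ℝ) * (x'.1 * D) ≤ (3 * c.y) * ((3 * c.y) * D) := by gcongr
        _ = 9 * (D / c.y) * c.y ^ 3 := by field_simp; ring) P123 h1 h2 h3
  refine le_trans (le_of_eq (sum_congr rfl fun t' _ => ?_)) (hest.trans ?_)
  · by_cases hh : τ₁ ≤ (t'.1 : ℝ) / t'.2 ∧ (t'.1 : ℝ) / t'.2 < τ₂ ∧
        (On x t' ∧ On x' t' ∧ ∀ l ∈ S, (l : ℤ) ∣ G t')
    · exact (if_pos hh).trans (if_pos hh).symm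
    · exact (if_neg hh).trans (if_neg hh).symm
  refine mul_le_mul_of_nonneg_left ?_
    (add_nonneg (div_nonneg (by linarith) h.ηpos.le) (by positivity))
  have e : ∏ l ∈ S, K / (l : ℝ) = ((∏ l ∈ S, K * l : ℕ) : ℝ) / (D : ℝ) ^ 2 := by
    rw [hDdef]
    push_cast
    rw [← prod_pow, ← prod_div_distrib]
    refine prod_congr rfl fun l hl => ?_
    have : (l : ℝ) ≠ 0 := by exact_mod_cast (hS l hl).1.ne_zero
    field_simp
  rw [e]
  have c8 : (cR (x.1 * (x'.1 * D)) (fun t' =>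
      On x t' ∧ On x' t' ∧ ∀ l ∈ S, (l : ℤ) ∣ G t') : ℝ) ≤
      x.1 * (x'.1 * ((∏ l ∈ S, K * l : ℕ) : ℝ)) := by exact_mod_cast c7
  calc _ ≤ x.1 * (x'.1 * ((∏ l ∈ S, K * l : ℕ) : ℝ)) / ((x.1 * (x'.1 * D) : ℕ) : ℝ) ^ 2 := by
        gcongr
    _ = _ := by rw [Nat.cast_mul, Nat.cast_mul]; field_simp

lemma Ctx.mass (h : Ctx p c) (hT : S_TEq) {x x' : p.Pn} (hq : x.1 ∈ Pset c.y c.N)
    (hq' : x'.1 ∈ Pset c.y c.N) (hne : x.1 ≠ x'.1) {K : ℕ}
    {G : ℤ × ℤ → ℤ} (hG : Frm c.z K G) (S : Finset ℕ)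
    (hS : ∀ l ∈ S, l.Prime ∧ c.z < l ∧ (l : ℝ) < c.y) (hD : ((∏ l ∈ S, l : ℕ) : ℝ) ≤ c.y) :
    ∑ t' ∈ Tset p c, (if On x t' ∧ On x' t' then
        wT p c t' * (if ∀ l ∈ S, (l : ℤ) ∣ G t' then 1 else 0) else 0) ≤
      2 * (∏ l ∈ S, K / (l : ℝ)) / (x.1 * x'.1) := by
  have hy : 0 < c.y := by linarith [h.y1]
  have hη := h.ηpos
  have := h.est3 hT hq hq' hne hG S hS hD (τ₁ := c.τ0) (τ₂ := c.τ0 + c.η) le_rfl
    (by linarith) le_rfl
  refine le_trans (sum_le_sum fun t' ht' => le_of_eq ?_) (this.trans ?_)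
  · obtain ⟨-, -, s3, s4, -⟩ := Tset_prop ht'
    by_cases g1 : On x t' ∧ On x' t'
    · by_cases g2 : ∀ l ∈ S, (l : ℤ) ∣ G t'
      · rw [if_pos g1, if_pos g2, if_pos ⟨s3, s4, g1.1, g1.2, g2⟩, mul_one]
      · rw [if_pos g1, if_neg g2, if_neg fun hh => g2 hh.2.2.2.2, mul_zero]
    · rw [if_neg g1, if_neg fun hh => g1 ⟨hh.2.2.1, hh.2.2.2.1⟩]
  · rw [mul_div_assoc]
    refine mul_le_mul_of_nonneg_right ?_
      (div_nonneg (prod_nonneg fun _ _ => by positivity) (by positivity))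
    have b1 : (c.τ0 + c.η - c.τ0) / c.η = 1 := by field_simp; ring
    have b2 := (div_le_one hy).mpr hD
    linarith

lemma Ctx.mass1 (h : Ctx p c) (hT : S_TEq) {x x' : p.Pn} (hq : x.1 ∈ Pset c.y c.N)
    (hq' : x'.1 ∈ Pset c.y c.N) (hne : x.1 ≠ x'.1) :
    ∑ t' ∈ Tset p c, (if On x t' ∧ On x' t' then wT p c t' else 0) ≤ 2 / (x.1 * x'.1) := by
  have := h.mass hT hq hq' hne (frm_lin c.z le_rfl (isCoprime_one_right (x := 0))) ∅ (by simp)
    (by simp; linarith [h.y1])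
  simpa using this

/-- the mass of pairs of fibres through two points -/
noncomputable def inn (p : Par R) (c : Cfg) (x x' : p.Pn) (Φ : ℤ × ℤ → ℤ × ℤ → ℝ) : ℝ :=
  ∑ t ∈ Tset p c, ∑ t' ∈ Tset p c,
    if (IsCoprime t.1 t.2 ∧ On x t ∧ On x' t) ∧ (IsCoprime t'.1 t'.2 ∧ On x t' ∧ On x' t') then
      wT p c t * wT p c t' * Φ t t' else 0

lemma inn_swap (p : Par R) (c : Cfg) (x x' : p.Pn) (Φ : ℤ × ℤ → ℤ × ℤ → ℝ) :
    inn p c x x' (fun t t' => Φ t' t) = inn p c x x' Φ := by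
  unfold inn
  rw [sum_comm]
  refine sum_congr rfl fun t _ => sum_congr rfl fun t' _ => ?_
  exact if_congr and_comm (by ring) rfl

lemma inn_add (p : Par R) (c : Cfg) (x x' : p.Pn) (Φ Ψ : ℤ × ℤ → ℤ × ℤ → ℝ) :
    inn p c x x' (fun t t' => Φ t t' + Ψ t t') = inn p c x x' Φ + inn p c x x' Ψ := by
  unfold inn
  rw [← sum_add_distrib]
  refine sum_congr rfl fun t _ => ?_
  rw [← sum_add_distrib]
  refine sum_congr rfl fun t' _ => ?_
  split_ifs <;> ring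

lemma inn_mul (p : Par R) (c : Cfg) (x x' : p.Pn) (a : ℝ) (Φ : ℤ × ℤ → ℤ × ℤ → ℝ) :
    inn p c x x' (fun t t' => a * Φ t t') = a * inn p c x x' Φ := by
  unfold inn
  rw [mul_sum]
  refine sum_congr rfl fun t _ => ?_
  rw [mul_sum]
  refine sum_congr rfl fun t' _ => ?_
  split_ifs <;> ring

lemma Ctx.inn_le (h : Ctx p c) (hT : S_TEq) {x x' : p.Pn} (hq : x.1 ∈ Pset c.y c.N)
    (hq' : x'.1 ∈ Pset c.y c.N) (hne : x.1 ≠ x'.1) {Φ : ℤ × ℤ → ℤ × ℤ → ℝ} {β : ℝ} (hβ : 0 ≤ β)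
    (h0 : ∀ t t', 0 ≤ Φ t t')
    (h1 : ∀ t ∈ Tset p c, IsCoprime t.1 t.2 → ∑ t' ∈ Tset p c,
      (if On x t' ∧ On x' t' then wT p c t' * Φ t t' else 0) ≤ β / (x.1 * x'.1)) :
    inn p c x x' Φ ≤ 2 * β / (x.1 * x'.1) ^ 2 := by
  have hβ' : 0 ≤ β / (x.1 * x'.1) := by positivity
  calc inn p c x x' Φ ≤ ∑ t ∈ Tset p c,
        (if On x t ∧ On x' t then wT p c t else 0) * (β / (x.1 * x'.1)) := by
        refine sum_le_sum fun t ht => ?_
        have hw := wT_nonneg ht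
        by_cases hp : IsCoprime t.1 t.2 ∧ On x t ∧ On x' t
        · rw [if_pos hp.2]
          refine le_trans ?_ (mul_le_mul_of_nonneg_left (h1 t ht hp.1) hw)
          rw [mul_sum]
          refine sum_le_sum fun t' ht' => ?_
          have hw' := wT_nonneg ht'
          have := h0 t t'
          by_cases hd : On x t' ∧ On x' t'
          · rw [if_pos hd]
            split_ifs
            · exact le_of_eq (by ring)
            · positivity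
          · rw [if_neg hd, if_neg fun hh => hd hh.2.2]; simp
        · rw [sum_eq_zero fun t' _ => if_neg fun hh => hp hh.1]
          refine mul_nonneg ?_ hβ'
          split_ifs
          · exact hw
          · exact le_rfl
    _ ≤ 2 / (x.1 * x'.1) * (β / (x.1 * x'.1)) := by
        rw [← sum_mul]
        exact mul_le_mul_of_nonneg_right (h.mass1 hT hq hq' hne) hβ'
    _ = _ := by rw [div_mul_div_comm, sq]

lemma Ctx.qs_le (h : Ctx p c) {Ψ : p.Pn → p.Pn → ℤ × ℤ → ℤ × ℤ → ℝ} {Φ : ℤ × ℤ → ℤ × ℤ → ℝ}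
    {β : ℝ} (hβ : 0 ≤ β) (h0 : ∀ t t', 0 ≤ Φ t t')
    (hΨ : ∀ x x' t t', IsQ p c x x' t t' → Ψ x x' t t' ≤ Φ t t')
    (h1 : ∀ x x' : p.Pn, x.1 ∈ Pset c.y c.N → x'.1 ∈ Pset c.y c.N → x.1 ≠ x'.1 →
      inn p c x x' Φ ≤ β / (x.1 * x'.1) ^ 2) :
    Qs p c Ψ ≤ β := by
  have hN : (0 : ℝ) < c.N := by exact_mod_cast h.N1
  have s3 : β = ∑ x ∈ Xset p c.y c.N, ∑ x' ∈ Xset p c.y c.N,
      wt p c.y c.N x.1 / x.1 * (wt p c.y c.N x'.1 / x'.1) * (β / c.N ^ 2) := by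
    simp only [← sum_mul, ← mul_sum, h.sum]
    field_simp
  rw [s3]
  unfold Qs
  refine sum_le_sum fun x hx => sum_le_sum fun x' hx' => ?_
  have w1 := wt_nonneg p c.y c.N x.1
  have w2 := wt_nonneg p c.y c.N x'.1
  have hq := fst_mem_Pset hx
  have hq' := fst_mem_Pset hx'
  by_cases hne : x.1 = x'.1
  · rw [sum_eq_zero fun t _ => sum_eq_zero fun t' _ => if_neg fun hI => hI.ne hne]
    positivity
  have hq0 : (0 : ℝ) < x.1 := by exact_mod_cast (h.pr _ hq).1.pos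
  have hq0' : (0 : ℝ) < x'.1 := by exact_mod_cast (h.pr _ hq').1.pos
  calc _ ≤ wt p c.y c.N x.1 * wt p c.y c.N x'.1 * (x.1 * x'.1) / c.N ^ 2 * inn p c x x' Φ := by
        unfold inn
        rw [mul_sum]
        refine sum_le_sum fun t ht => ?_
        rw [mul_sum]
        refine sum_le_sum fun t' ht' => ?_
        have a1 := wT_nonneg ht
        have a2 := wT_nonneg ht'
        have a3 := h0 t t'
        by_cases hI : IsQ p c x x' t t'
        · rw [if_pos hI, if_pos ⟨⟨hI.pr, on_of hI.o11, on_of hI.o21⟩,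
            hI.pr', on_of hI.o12, on_of hI.o22⟩]
          refine (mul_le_mul_of_nonneg_left (hΨ _ _ _ _ hI) (by positivity)).trans (le_of_eq ?_)
          ring
        · rw [if_neg hI]
          refine mul_nonneg (by positivity) ?_
          split_ifs
          · positivity
          · exact le_rfl
    _ ≤ wt p c.y c.N x.1 * wt p c.y c.N x'.1 * (x.1 * x'.1) / c.N ^ 2 *
          (β / (x.1 * x'.1) ^ 2) :=
        mul_le_mul_of_nonneg_left (h1 x x' hq hq' hne) (by positivity)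
    _ = _ := by field_simp

end Pool.Agent.P.MP_b8021b_nt.VC.PiC
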