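import Pool.Agent.P.MP_b8021b_nt.VC.PPi1

/-! Three of the four averages over the quadruples, under explicit hypotheses. -/

namespace Pool.Agent.P.MP_b8021b_nt.VC.PiC

open Polynomial Finset Pool.Agent.P.MP_b8021b_nt.VE
open Pool.Agent.P.MP_b8021b_nt.VE.PiP (sum_inv_sq_le HH one_le_HH prod_sub_one)
open scoped Classical

variable {R : Type} [CommRing R] [Algebra ℤ[X] R] {p : Par R} {c : Cfg}

lemma Ctx.part4 (h : Ctx p c) (hT : S_TEq) {ζ : ℝ} (hζ : c.y⁻¹ ≤ ζ) :
    Qs p c (fun _ _ t t' => if |(t.1 : ℝ) / t.2 - (t'.1 : ℝ) / t'.2| < ζ then 1 else 0) ≤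
      2 * (2 / c.η + 1) * ζ := by
  have hy : 0 < c.y := by linarith [h.y1]
  have hζ0 : 0 < ζ := lt_of_lt_of_le (inv_pos.mpr hy) hζ
  have hη := h.ηpos
  rw [mul_assoc]
  refine h.qs_le (Φ := fun t t' => if |(t.1 : ℝ) / t.2 - (t'.1 : ℝ) / t'.2| < ζ then 1 else 0)
    (by positivity) (fun t t' => by split_ifs <;> norm_num) (fun _ _ _ _ _ => le_rfl) ?_
  intro x x' hq hq' hne
  refine h.inn_le hT hq hq' hne (by positivity) (fun t t' => by split_ifs <;> norm_num)
    fun t ht _ => ?_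
  obtain ⟨-, -, t3, t4, -⟩ := Tset_prop ht
  have := h.est3 hT hq hq' hne (frm_lin c.z le_rfl (isCoprime_one_right (x := 0))) ∅ (by simp)
    (by simp; linarith [h.y1])
    (τ₁ := max c.τ0 ((t.1 : ℝ) / t.2 - ζ)) (τ₂ := min (c.τ0 + c.η) ((t.1 : ℝ) / t.2 + ζ))
    (le_max_left _ _) (le_trans (max_le t3 (by linarith)) (le_min t4.le (by linarith)))
    (min_le_left _ _)
  refine le_trans (sum_le_sum fun t' ht' => ?_) (this.trans ?_)
  · obtain ⟨-, -, s3, s4, -⟩ := Tset_prop ht'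
    have hw := wT_nonneg ht'
    by_cases hh : (On x t' ∧ On x' t') ∧ |(t.1 : ℝ) / t.2 - (t'.1 : ℝ) / t'.2| < ζ
    · obtain ⟨b1, b2⟩ := abs_lt.mp hh.2
      rw [if_pos hh.1, if_pos hh.2, if_pos ⟨max_le s3 (by linarith), lt_min s4 (by linarith),
        hh.1.1, hh.1.2, by simp⟩, mul_one]
    · refine le_trans (le_of_eq ?_) (b := 0) (by split_ifs <;> simp [hw])
      split_ifs with g1 g2
      · exact absurd ⟨g1, g2⟩ hh
      · simp
      · rfl
  · simp only [prod_empty, Nat.cast_one]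
    rw [mul_one_div]
    refine div_le_div_of_nonneg_right ?_ (by positivity)
    have b1 : min (c.τ0 + c.η) ((t.1 : ℝ) / t.2 + ζ) - max c.τ0 ((t.1 : ℝ) / t.2 - ζ) ≤ 2 * ζ := by
      linarith [min_le_right (c.τ0 + c.η) ((t.1 : ℝ) / t.2 + ζ),
        le_max_right c.τ0 ((t.1 : ℝ) / t.2 - ζ)]
    have b2 := div_le_div_of_nonneg_right b1 hη.le
    have b3 : (2 / c.η + 1) * ζ = 2 * ζ / c.η + ζ := by ring
    rw [b3, one_div]
    linarith

lemma Ctx.inn_one (h : Ctx p c) (hT : S_TEq) {x x' : p.Pn} (hq : x.1 ∈ Pset c.y c.N)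
    (hq' : x'.1 ∈ Pset c.y c.N) (hne : x.1 ≠ x'.1) :
    inn p c x x' (fun _ _ => 1) ≤ 2 * 2 / (x.1 * x'.1) ^ 2 := by
  refine h.inn_le hT hq hq' hne (by positivity) (fun _ _ => zero_le_one) fun t _ _ => ?_
  simpa using h.mass1 hT hq hq' hne

lemma Ctx.part1 (h : Ctx p c) (hT : S_TEq) : Qs p c (fun _ _ _ _ => 1) ≤ 10 :=
  (h.qs_le (Φ := fun _ _ => 1) (β := 2 * 2) (by norm_num) (fun _ _ => zero_le_one)
    (fun _ _ _ _ _ => le_rfl) fun _ _ hq hq' hne => h.inn_one hT hq hq' hne).trans (by norm_num)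

lemma Ctx.inn_HH (h : Ctx p c) (hT : S_TEq) {x x' : p.Pn} (hq : x.1 ∈ Pset c.y c.N)
    (hq' : x'.1 ∈ Pset c.y c.N) (hne : x.1 ≠ x'.1) {G : ℤ × ℤ → ℤ × ℤ → ℤ} {m : ℕ}
    (hG : ∀ t, IsCoprime t.1 t.2 → Frm c.z m (G t)) (S : Finset ℕ)
    (hS : ∀ l ∈ S, l.Prime ∧ c.z < l ∧ (l : ℝ) < c.y) (hD : ((∏ l ∈ S, l : ℕ) : ℝ) ≤ c.y)
    {K : ℝ} (hK : 0 ≤ K) (hz : 1 ≤ c.z) :
    inn p c x x' (fun t t' => HH S K (G t t') - 1) ≤
      2 * (2 * (Real.exp (m * K / c.z) - 1)) / (x.1 * x'.1) ^ 2 := by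
  have hexp : 0 ≤ Real.exp (m * K / c.z) - 1 := by
    have := Real.one_le_exp (x := m * K / c.z) (by positivity)
    linarith
  refine h.inn_le hT hq hq' hne (by positivity) (fun t t' => by linarith [one_le_HH S hK (G t t')])
    fun t _ hc => ?_
  have e : ∀ t', (if On x t' ∧ On x' t' then
      wT p c t' * (HH S K (G t t') - 1) else 0) = ∑ U ∈ S.powerset.erase ∅,
        (∏ l ∈ U, K / (l : ℝ)) * (if On x t' ∧ On x' t' then
          wT p c t' * (if ∀ l ∈ U, (l : ℤ) ∣ G t t' then 1 else 0) else 0) := fun t' => by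
    by_cases g1 : On x t' ∧ On x' t'
    · simp only [if_pos g1]
      unfold HH
      rw [prod_sub_one, mul_sum]
      refine sum_congr rfl fun U _ => ?_
      rw [prod_ite_zero]
      split_ifs <;> ring
    · simp [if_neg g1]
  rw [sum_congr rfl fun t' _ => e t', sum_comm]
  calc _ ≤ ∑ U ∈ S.powerset.erase ∅, (∏ l ∈ U, K / (l : ℝ)) *
        (2 * (∏ l ∈ U, m / (l : ℝ)) / (x.1 * x'.1)) := by
        refine sum_le_sum fun U hU => ?_
        have hUS : U ⊆ S := mem_powerset.mp (mem_of_mem_erase hU)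
        rw [← mul_sum]
        refine mul_le_mul_of_nonneg_left (h.mass hT hq hq' hne (hG t hc) U
          (fun l hl => hS l (hUS hl)) (le_trans ?_ hD)) (prod_nonneg fun _ _ => by positivity)
        exact_mod_cast Nat.le_of_dvd (prod_pos fun l hl => (hS l hl).1.pos)
          (prod_dvd_prod_of_subset _ _ _ hUS)
    _ = 2 * (∏ l ∈ S, (1 + m * K * ((l : ℝ) ^ 2)⁻¹) - 1) / (x.1 * x'.1) := by
        rw [prod_sub_one, mul_sum, sum_div]
        refine sum_congr rfl fun U _ => ?_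
        have : ∏ l ∈ U, m * K * ((l : ℝ) ^ 2)⁻¹ =
            (∏ l ∈ U, K / (l : ℝ)) * ∏ l ∈ U, m / (l : ℝ) := by
          rw [← prod_mul_distrib]
          exact prod_congr rfl fun l _ => by ring
        rw [this]; ring
    _ ≤ _ := by
        refine div_le_div_of_nonneg_right (mul_le_mul_of_nonneg_left (sub_le_sub_right ?_ _)
          (by norm_num)) (by positivity)
        calc _ ≤ ∏ l ∈ S, Real.exp (m * K * ((l : ℝ) ^ 2)⁻¹) :=
              prod_le_prod (fun _ _ => by positivity) fun l _ => by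
                linarith [Real.add_one_le_exp (m * K * ((l : ℝ) ^ 2)⁻¹)]
          _ = Real.exp (m * K * ∑ l ∈ S, ((l : ℝ) ^ 2)⁻¹) := by rw [mul_sum, Real.exp_sum]
          _ ≤ _ := by
              refine Real.exp_le_exp.mpr ?_
              rw [div_eq_mul_inv]
              exact mul_le_mul_of_nonneg_left
                (sum_inv_sq_le S hz fun l hl => (hS l hl).2.1) (by positivity)

lemma three {a b d a' b' d' : ℝ} (ha : 1 ≤ a) (hb : 1 ≤ b) (hd : 1 ≤ d) (ha' : a ^ 3 ≤ a')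
    (hb' : b ^ 3 ≤ b') (hd' : d ^ 3 ≤ d') : a * b * d ≤ 1 + ((a' - 1) + (b' - 1) + (d' - 1)) := by
  have h1 := one_le_pow₀ (n := 3) ha
  have h2 := one_le_pow₀ (n := 3) hb
  have h3 := one_le_pow₀ (n := 3) hd
  have h4 : 3 * (a * b * d) ≤ a ^ 3 + b ^ 3 + d ^ 3 := by
    have : 0 ≤ (a + b + d) * ((a - b) ^ 2 + (b - d) ^ 2 + (d - a) ^ 2) := by positivity
    nlinarith
  linarith

lemma HH_pow (S : Finset ℕ) {K : ℝ} (hK : 0 ≤ K) (hS : ∀ l ∈ S, 0 < l ∧ K ≤ l) (n : ℤ) :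
    HH S K n ^ 3 ≤ HH S (7 * K) n := by
  unfold HH
  rw [← prod_pow]
  refine prod_le_prod (fun l _ => by split_ifs <;> positivity) fun l hl => ?_
  split_ifs
  · have h1 : (0 : ℝ) < l := by exact_mod_cast (hS l hl).1
    have h2 : K / l ≤ 1 := (div_le_one h1).mpr (hS l hl).2
    have h3 : (0 : ℝ) ≤ K / l := by positivity
    rw [mul_div_assoc]
    set x := K / l
    have h4 : x ^ 2 ≤ x := by nlinarith
    have h5 : x ^ 3 ≤ x := by nlinarith
    nlinarith
  · simp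

lemma pi_le (z n : ℕ) {Y K a : ℝ} (hK : 0 ≤ K) (ha : 0 ≤ a) (hY : 1 < Y)
    (hn : (n : ℝ) ≤ Real.exp (a * Y)) :
    ∏ l ∈ n.primeFactors.filter (fun l => z < l), (1 + K / (l : ℝ)) ≤
      HH ((range (⌊Y⌋₊ + 1)).filter fun l => l.Prime ∧ z < l) K n *
        Real.exp (a * K / Real.log Y) := by
  have hlog := Real.log_pos hY
  set S := (range (⌊Y⌋₊ + 1)).filter fun l => l.Prime ∧ z < l with hS
  rcases Nat.eq_zero_or_pos n with rfl | hn0
  · rw [Nat.primeFactors_zero, filter_empty, prod_empty]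
    exact one_le_mul_of_one_le_of_one_le (one_le_HH _ hK _) (Real.one_le_exp (by positivity))
  set A := n.primeFactors.filter fun l => z < l with hA
  rw [← prod_filter_mul_prod_filter_not A fun l : ℕ => (l : ℝ) ≤ Y]
  refine mul_le_mul ?_ ?_ (prod_nonneg fun _ _ => by positivity)
    (zero_le_one.trans (one_le_HH _ hK _))
  · unfold HH
    have hsub : A.filter (fun l : ℕ => (l : ℝ) ≤ Y) ⊆ S := fun l hl => by
      obtain ⟨h1, h2⟩ := mem_filter.mp hl
      obtain ⟨h3, h4⟩ := mem_filter.mp h1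
      exact mem_filter.mpr ⟨mem_range.mpr (Nat.lt_succ_of_le (Nat.le_floor h2)),
        Nat.prime_of_mem_primeFactors h3, h4⟩
    refine le_trans (le_of_eq (prod_congr rfl fun l hl => ?_))
      (prod_le_prod_of_subset_of_one_le hsub (fun l _ => by split_ifs <;> positivity)
        fun l _ _ => ?_)
    · rw [if_pos]
      exact_mod_cast Nat.dvd_of_mem_primeFactors (mem_filter.mp (mem_filter.mp hl).1).1
    · split_ifs
      · exact le_add_of_nonneg_right (by positivity)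
      · simp
  · set L := A.filter fun l : ℕ => ¬ (l : ℝ) ≤ Y with hL
    have hLs : L ⊆ n.primeFactors := (filter_subset _ _).trans (filter_subset _ _)
    have h1 : Y ^ L.card ≤ n := by
      calc Y ^ L.card = ∏ _l ∈ L, Y := by simp
        _ ≤ ∏ l ∈ L, (l : ℝ) := prod_le_prod (fun _ _ => by linarith) fun l hl =>
            (not_le.mp (mem_filter.mp hl).2).le
        _ = ((∏ l ∈ L, l : ℕ) : ℝ) := by push_cast; rfl
        _ ≤ n := by
            exact_mod_cast Nat.le_of_dvd hn0 ((prod_dvd_prod_of_subset _ _ _ hLs).trans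
              (Nat.prod_primeFactors_dvd n))
    have h2 : L.card * Real.log Y ≤ a * Y := by
      rw [← Real.log_pow, Real.log_le_iff_le_exp (by positivity)]
      exact h1.trans hn
    calc _ ≤ ∏ _l ∈ L, Real.exp (K / Y) := prod_le_prod (fun _ _ => by positivity) fun l hl => by
          have h3 := (not_le.mp (mem_filter.mp hl).2).le
          have h4 : K / l ≤ K / Y := by gcongr
          linarith [Real.add_one_le_exp (K / Y)]
      _ = Real.exp (L.card * (K / Y)) := by rw [prod_const, Real.exp_nat_mul]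
      _ ≤ _ := by
          refine Real.exp_le_exp.mpr ?_
          rw [le_div_iff₀ hlog]
          calc L.card * (K / Y) * Real.log Y = (L.card * Real.log Y) * (K / Y) := by ring
            _ ≤ (a * Y) * (K / Y) := by gcongr
            _ = a * K := by field_simp

/-- the form of one fibre -/
noncomputable def WW (p : Par R) (t : ℤ × ℤ) : ℤ := hev (p.ρ + p.dD + 1) (p.G * p.Dp) t.1 t.2

lemma deg_GD (p : Par R) : (p.G * p.Dp).natDegree ≤ p.ρ + p.dD :=
  natDegree_mul_le.trans (Nat.add_le_add le_rfl p.hD)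

lemma WW_eq (p : Par R) (t : ℤ × ℤ) : WW p t = t.2 * (p.Gt t * p.Dt t) := by
  rw [WW, hev_succ (deg_GD p), hev_mul (d := p.ρ) (g := p.G) le_rfl p.hD]
  rfl

lemma GD_ne (p : Par R) : p.G * p.Dp ≠ 0 :=
  mul_ne_zero p.monic.ne_zero fun e => (p.good p.τ0 le_rfl (by linarith)).1 (by rw [e, map_zero])

lemma Ctx.HH_nn (h : Ctx p c) {K : ℝ} (hK : 0 ≤ K) (S : Finset ℕ)
    (hS : ∀ l ∈ S, l.Prime ∧ c.z < l ∧ (l : ℝ) < c.y) {x x' : p.Pn} {t t' : ℤ × ℤ}
    (hI : IsQ p c x x' t t') : HH S K (nn p x x' t t') ≤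
      HH S K (WW p t) * HH S K (WW p t') * HH S K (dl t t') := by
  unfold HH
  rw [← prod_mul_distrib, ← prod_mul_distrib]
  have one : ∀ (l : ℕ) (n : ℤ), (1 : ℝ) ≤ 1 + if (l : ℤ) ∣ n then K / (l : ℝ) else 0 :=
    fun l n => by
      split_ifs
      · exact le_add_of_nonneg_right (by positivity)
      · simp
  refine prod_le_prod (fun l _ => zero_le_one.trans (one _ _)) fun l hl => ?_
  obtain ⟨l1, l2, l3⟩ := hS l hl
  have o1 := one l (WW p t)
  have o2 := one l (WW p t')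
  have o3 := one l (dl t t')
  by_cases hd : (l : ℤ) ∣ ((nn p x x' t t' : ℕ) : ℤ)
  · have hp : Prime (l : ℤ) := Nat.prime_iff_prime_int.mp l1
    have nq : ∀ q ∈ Pset c.y c.N, ¬ (l : ℤ) ∣ (q : ℤ) := fun q hq e => by
      obtain ⟨a1, a2, -⟩ := h.pr q hq
      have := (Nat.prime_dvd_prime_iff_eq l1 a1).mp (Int.natCast_dvd_natCast.mp e)
      rw [this] at l3
      linarith
    have h0 : (l : ℤ) ∣ (2 * (p.r : ℤ) ^ (p.n0 + 1) * x.1 * x'.1) *
        (WW p t * WW p t' * dl t t') := by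
      refine (Int.dvd_natAbs.mp hd).trans (dvd_of_eq ?_)
      rw [WW_eq, WW_eq]
      ring
    have he := h.ez
    have h3 := p.h3
    have hr := p.re
    have h1 : (l : ℤ) ∣ WW p t * WW p t' * dl t t' := by
      refine (hp.dvd_or_dvd h0).resolve_left fun h0 => ?_
      rcases hp.dvd_or_dvd h0 with h0 | h0
      swap
      · exact nq _ (fst_mem_Pset hI.hx') h0
      rcases hp.dvd_or_dvd h0 with h0 | h0
      swap
      · exact nq _ (fst_mem_Pset hI.hx) h0
      rcases hp.dvd_or_dvd h0 with h0 | h0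
      · have := Int.le_of_dvd (by norm_num) h0
        omega
      · have := (Nat.prime_dvd_prime_iff_eq l1 p.hr).mp
          (Int.natCast_dvd_natCast.mp (hp.dvd_of_dvd_pow h0))
        omega
    have k0 : (0 : ℝ) ≤ 1 + K / l := by positivity
    rw [if_pos hd]
    rcases hp.dvd_or_dvd h1 with h1 | h1
    · rcases hp.dvd_or_dvd h1 with h1 | h1
      · rw [if_pos h1, mul_assoc]
        exact le_mul_of_one_le_right k0 (one_le_mul_of_one_le_of_one_le o2 o3)
      · rw [if_pos h1]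
        rw [mul_right_comm]
        exact le_mul_of_one_le_left k0 (one_le_mul_of_one_le_of_one_le o1 o3)
    · rw [if_pos h1]
      exact le_mul_of_one_le_left k0 (one_le_mul_of_one_le_of_one_le o1 o2)
  · rw [if_neg hd, add_zero]
    exact one_le_mul_of_one_le_of_one_le (one_le_mul_of_one_le_of_one_le o1 o2) o3

lemma Ctx.part2 (h : Ctx p c) (hT : S_TEq) (hz : 20 * p.e ≤ c.z)
    (hz' : (p.G * p.Dp).leadingCoeff.natAbs ≤ c.z) (hY : 1 < Real.log c.y / 2) {δ : ℝ}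
    (hδ : Real.exp (2 * p.cE * (20 * p.e) / Real.log (Real.log c.y / 2)) ≤ 1 + δ) (hδ1 : δ ≤ 1)
    (hn : ∀ x x' t t', IsQ p c x x' t t' → (nn p x x' t t' : ℝ) ≤ c.y ^ p.cE) :
    Qs p c (fun x x' t t' => if dl t t' ≠ 0 then Pi p c.z (nn p x x' t t') - 1 else 0) ≤
      24 * (Real.exp ((p.ρ + p.dD + 1 + 1 : ℕ) * (7 * (20 * p.e)) / c.z) - 1) + 4 * δ := by
  have hy : 0 < c.y := by linarith [h.y1]
  set Y := Real.log c.y / 2 with hYdef
  set K : ℝ := 20 * p.e with hKdef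
  have hK : 0 ≤ K := by positivity
  have hK7 : 0 ≤ 7 * K := by positivity
  have hyY : c.y = Real.exp (2 * Y) := by
    rw [hYdef, mul_div_cancel₀ _ two_ne_zero, Real.exp_log hy]
  have hδ0 : 0 ≤ δ := by
    have := Real.one_le_exp (x := 2 * p.cE * K / Real.log Y)
      (div_nonneg (by positivity) (Real.log_pos hY).le)
    linarith
  set S := (range (⌊Y⌋₊ + 1)).filter fun l => l.Prime ∧ c.z < l with hSdef
  have hfl : (⌊Y⌋₊ : ℝ) ≤ Y := Nat.floor_le (by linarith)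
  have hS : ∀ l ∈ S, l.Prime ∧ c.z < l ∧ (l : ℝ) < c.y := fun l hl => by
    obtain ⟨h1, h2, h3⟩ := mem_filter.mp hl
    refine ⟨h2, h3, ?_⟩
    have h4 : (l : ℝ) ≤ ⌊Y⌋₊ := by exact_mod_cast Nat.lt_succ_iff.mp (mem_range.mp h1)
    rw [hyY]
    linarith [Real.add_one_le_exp (2 * Y)]
  have hD : ((∏ l ∈ S, l : ℕ) : ℝ) ≤ c.y := by
    have h1 : ∏ l ∈ S, l ≤ 4 ^ ⌊Y⌋₊ := by
      refine le_trans (Nat.le_of_dvd (primorial_pos _) ?_) (primorial_le_four_pow _)
      exact prod_dvd_prod_of_subset _ _ _ fun l hl =>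
        mem_filter.mpr ⟨(mem_filter.mp hl).1, (mem_filter.mp hl).2.1⟩
    have h2 : (4 : ℝ) ≤ Real.exp 2 := by
      have := Real.add_one_le_exp 1
      rw [show (2 : ℝ) = 1 + 1 by norm_num, Real.exp_add]
      nlinarith
    calc _ ≤ (4 : ℝ) ^ ⌊Y⌋₊ := by exact_mod_cast h1
      _ ≤ Real.exp 2 ^ ⌊Y⌋₊ := by gcongr
      _ = Real.exp (⌊Y⌋₊ * 2) := (Real.exp_nat_mul _ _).symm
      _ ≤ c.y := by rw [hyY]; exact Real.exp_le_exp.mpr (by linarith)
  set E := Real.exp ((p.ρ + p.dD + 1 + 1 : ℕ) * (7 * K) / c.z) - 1 with hE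
  have hexp : 0 ≤ E := by
    have := Real.one_le_exp (x := (p.ρ + p.dD + 1 + 1 : ℕ) * (7 * K) / c.z) (by positivity)
    linarith
  have h0 : ∀ t t', 0 ≤ (HH S (7 * K) (WW p t) - 1) + (HH S (7 * K) (WW p t') - 1) +
      (HH S (7 * K) (dl t t') - 1) := fun t t' => by
    linarith [one_le_HH S hK7 (WW p t), one_le_HH S hK7 (WW p t'), one_le_HH S hK7 (dl t t')]
  refine h.qs_le (Φ := fun t t' => 2 * ((HH S (7 * K) (WW p t) - 1) +
      (HH S (7 * K) (WW p t') - 1) + (HH S (7 * K) (dl t t') - 1)) + δ * 1) (by positivity)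
    (fun t t' => by linarith [h0 t t']) (fun x x' t t' hI => ?_) fun x x' hq hq' hne => ?_
  · have a4 := h0 t t'
    split_ifs
    · have a1 : Pi p c.z (nn p x x' t t') ≤ _ :=
        pi_le c.z (nn p x x' t t') (a := 2 * p.cE) hK (by positivity) hY
          ((hn _ _ _ _ hI).trans (le_of_eq (by
            rw [hyY, ← Real.exp_nat_mul]; congr 1; ring)))
      have a2 := h.HH_nn hK S hS hI
      have hp : ∀ n, HH S K n ^ 3 ≤ HH S (7 * K) n := HH_pow S hK fun l hl =>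
        ⟨(hS l hl).1.pos, by rw [hKdef]; exact_mod_cast hz.trans (hS l hl).2.1.le⟩
      have a3 := three (one_le_HH S hK (WW p t)) (one_le_HH S hK (WW p t'))
        (one_le_HH S hK (dl t t')) (hp _) (hp _) (hp _)
      set σ := (HH S (7 * K) (WW p t) - 1) + (HH S (7 * K) (WW p t') - 1) +
        (HH S (7 * K) (dl t t') - 1)
      have a5 : Pi p c.z (nn p x x' t t') ≤ (1 + σ) * (1 + δ) :=
        a1.trans (mul_le_mul (a2.trans a3) hδ (Real.exp_pos _).le (by linarith))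
      nlinarith
    · linarith
  · have hz1 : 1 ≤ c.z := by have := p.h3; omega
    have b := fun (G : ℤ × ℤ → ℤ × ℤ → ℤ)
        (hG : ∀ t, IsCoprime t.1 t.2 → Frm c.z (p.ρ + p.dD + 1 + 1) (G t)) =>
      h.inn_HH hT hq hq' hne hG S hS hD hK7 hz1
    have b2 := b (fun _ t' => WW p t') fun _ _ =>
      frm_hev ((deg_GD p).trans (Nat.le_succ _)) (GD_ne p) hz'
    have b3 := b dl fun _ ht => frm_lin _ (Nat.le_add_left _ _) ht
    have b1 := b2
    rw [← inn_swap] at b1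
    have b5 := mul_le_mul_of_nonneg_left (h.inn_one hT hq hq' hne) hδ0
    rw [inn_add, inn_mul, inn_mul, inn_add, inn_add]
    have e : (24 * E + 4 * δ) / ((x.1 : ℝ) * x'.1) ^ 2 =
        6 * (2 * (2 * E) / (x.1 * x'.1) ^ 2) + δ * (2 * 2 / (x.1 * x'.1) ^ 2) := by ring
    rw [e]
    linarith

end Pool.Agent.P.MP_b8021b_nt.VC.PiC
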