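import Pool.Agent.P.MP_b8021b_nt.VC.StS
import Pool.Agent.P.MP_b8021b_nt.VE.BasicS

/-! Push-forward of functionals along a finite extension of function fields. -/

namespace Pool.Agent.P.MP_b8021b_nt.VC

open Polynomial Finset WithZero Pool.Agent.P.MP_b8021b_nt.VE
open scoped Classical WithZero

namespace Push

variable {F M K : Type} [Field F] [Field M] [Field K]

theorem ord_zpow (p : GPt K) (a : K) (n : ℤ) : p.ord (a ^ n) = n * p.ord a := by
  simp only [GPt.ord, map_zpow₀, log_zpow, smul_eq_mul, mul_neg]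

theorem exists_unif (p : GPt K) : ∃ t : K, t ≠ 0 ∧ p.ord t = 1 := by
  obtain ⟨t, ht⟩ := p.surj (exp (-1))
  have h1 : p.ord t = 1 := by simp [GPt.ord, ht]
  refine ⟨t, fun h => ?_, h1⟩
  rw [h, p.ord_zero] at h1
  exact zero_ne_one h1

/-- the conjugate of a point -/
noncomputable def cj (s : Qb ≃+* Qb) (p : GPt K) : GPt K where
  v := p.v
  ρ := s.toRingHom.comp p.ρ
  surj := p.surj
  ker a := by rw [← p.ker a]; exact s.map_eq_zero_iff

theorem gal_cj (s : Qb ≃+* Qb) (p : GPt K) : Gal s p (cj s p) :=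
  fun _ _ ⟨h, e⟩ => ⟨h, congrArg s e⟩

theorem cj_symm (s : Qb ≃+* Qb) (p : GPt K) : cj s.symm (cj s p) = p :=
  GPt.ext_val rfl fun _ _ ⟨h, e⟩ => ⟨h, (s.symm_apply_apply _).symm.trans e⟩

theorem cj_symm' (s : Qb ≃+* Qb) (p : GPt K) : cj s (cj s.symm p) = p := cj_symm s.symm p

theorem le_cj {j : F →+* M} {q : GPt M} {p : GPt F} (h : Le j q p) (s : Qb ≃+* Qb) :
    Le j (cj s q) (cj s p) := by
  rintro a c ⟨h1, rfl⟩
  obtain ⟨h2, h3⟩ := h a _ ⟨h1, rfl⟩
  exact ⟨h2, congrArg s h3⟩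

theorem tm_ne {p : GPt K} {f g : K} {c : Qb} (hf : f ≠ 0) (hg : g ≠ 0) (h : Tm p f g c) :
    c ≠ 0 := by
  refine GPt.Val.ne_of_ord h (div_ne_zero (zpow_ne_zero _ hf) (zpow_ne_zero _ hg)) ?_
  rw [p.ord_div (zpow_ne_zero _ hf) (zpow_ne_zero _ hg), ord_zpow, ord_zpow]
  ring

theorem tm_one {p : GPt K} {f g : K} {c : Qb} (hf : p.ord f = 0) (hg : p.ord g = 0)
    (h : Tm p f g c) : c = 1 := by
  rw [Tm, hf, hg, zpow_zero, zpow_zero, div_one] at h
  exact h.unique p.val_one

theorem tm_le {j : F →+* M} {q : GPt M} {p : GPt F} (h : Le j q p) {n : ℕ}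
    (hn : ∀ a, q.ord (j a) = n * p.ord a) {f g : F} {c : Qb} (hc : Tm p f g c) :
    Tm q (j f) (j g) (c ^ n) := by
  have := h _ _ (GPt.Val.pow hc n)
  rwa [div_pow, ← zpow_natCast, ← zpow_natCast, ← zpow_mul, ← zpow_mul, map_div₀, map_zpow₀,
    map_zpow₀, mul_comm (p.ord g), mul_comm (p.ord f), ← hn, ← hn] at this

theorem l_one {l : GPt K → Qb → ℝ} (hl : KFn l) (p : GPt K) : l p 1 = 0 := by
  have := hl.mul p 1 1 one_ne_zero one_ne_zero
  rw [mul_one] at this
  linarith

theorem l_pow {l : GPt K → Qb → ℝ} (hl : KFn l) (p : GPt K) {u : Qb} (hu : u ≠ 0) (n : ℕ) :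
    l p (u ^ n) = n * l p u := by
  induction n with
  | zero => simpa using l_one hl p
  | succ n ih =>
    rw [pow_succ, hl.mul p _ _ (pow_ne_zero n hu) hu, ih]
    push_cast
    ring

end Push

open Push in
theorem p_push (hFin : S_Fin) (hRes : S_Res) : S_Push := by
  intro F M _ _ _ _ _ hF res e l hres he hl
  obtain ⟨res', e', h1, -, h3, -⟩ := hRes F M hF
  obtain ⟨hf1, -, -, -, hf5⟩ := hFin F hF
  have hr : ∀ q p, Le (algebraMap F M) q p ↔ res q = p := fun q p => by
    rw [h1, (h1 q (res q)).1 (hres q)]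
  have hfin : ∀ p, {q | res q = p}.Finite := fun p => by
    refine (h3 p).1.subset fun q hq => ?_
    exact (h1 q p).1 ((hr q p).2 hq)
  have hsum : ∀ (p : GPt F) (φ : GPt M → ℝ),
      ∑ᶠ q ∈ {q | res q = p}, φ q = ∑ q ∈ (hfin p).toFinset, φ q := fun p φ =>
    finsum_mem_eq_finite_toFinset_sum φ (hfin p)
  refine ⟨⟨fun p u v hu hv => ?_, fun f g hf hg c hc => ?_⟩, fun σ p p' hp u hu => ?_⟩
  · simp only [hsum]
    rw [← sum_add_distrib]
    refine sum_congr rfl fun q _ => ?_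
    rw [hl.mul q u v hu hv, mul_add]
  · have hj : ∀ a : F, a ≠ 0 → algebraMap F M a ≠ 0 := fun a ha => (_root_.map_ne_zero _).2 ha
    have key := hl.symb _ _ (hj f hf) (hj g hg) (fun q => c (res q) ^ e q)
      fun q => tm_le (hres q) (he q) (hc (res q))
    have hT : ({p : GPt F | p.ord f ≠ 0} ∪ {p : GPt F | p.ord g ≠ 0}).Finite :=
      (hf1 f hf).union (hf1 g hg)
    have hout : ∀ p, p ∉ hT.toFinset → c p = 1 := fun p hp => by
      rw [Set.Finite.mem_toFinset, Set.mem_union, not_or] at hp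
      exact tm_one (not_not.1 hp.1) (not_not.1 hp.2) (hc p)
    have hmem : ∀ q p, q ∈ (hfin p).toFinset ↔ res q = p := fun q p => Set.Finite.mem_toFinset _
    rw [finsum_eq_sum_of_support_subset (s := hT.toFinset.biUnion fun p => (hfin p).toFinset)
      _ fun q hq => ?_, sum_biUnion fun p _ p' _ hpp => ?_] at key
    · rw [finsum_eq_sum_of_support_subset (s := hT.toFinset) _ fun p hp => ?_, ← key]
      · refine sum_congr rfl fun p _ => ?_
        rw [hsum]
        refine sum_congr rfl fun q hq => ?_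
        rw [(hmem q p).1 hq, l_pow hl.toKFn q (tm_ne hf hg (hc p))]
      · by_contra h
        refine hp ?_
        simp only [hsum, hout p h, l_one hl.toKFn, mul_zero, sum_const_zero]
    · refine disjoint_left.2 fun q hq hq' => hpp ?_
      rw [← (hmem q p).1 hq, ← (hmem q p').1 hq']
    · rw [mem_coe, mem_biUnion]
      refine ⟨res q, by_contra fun h => hq ?_, (hmem q _).2 rfl⟩
      simp only [hout _ h, one_pow, l_one hl.toKFn]
  · obtain rfl : p' = cj σ p := (hf5 σ p).unique hp (gal_cj σ p)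
    have hc : ∀ (s : Qb ≃+* Qb) q, res (cj s q) = cj s (res q) := fun s q =>
      (hr _ _).1 (le_cj (hres q) s)
    have hec : ∀ q, e (cj σ q) = e q := fun q => by
      obtain ⟨t, -, ht⟩ := exists_unif (res q)
      have a1 := he q t
      have a2 := he (cj σ q) t
      rw [hc] at a2
      change q.ord _ = e (cj σ q) * (res q).ord t at a2
      rw [ht, mul_one] at a1 a2
      exact_mod_cast a2.symm.trans a1
    symm
    refine finsum_mem_eq_of_bijOn (cj σ) ⟨fun q hq => ?_, fun q _ q' _ h => ?_, fun q hq => ?_⟩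
      fun q _ => ?_
    · change res (cj σ q) = cj σ p
      rw [hc, show res q = p from hq]
    · rw [← cj_symm σ q, h, cj_symm]
    · refine ⟨cj σ.symm q, ?_, cj_symm' σ q⟩
      change res (cj σ.symm q) = p
      rw [hc, show res q = cj σ p from hq, cj_symm]
    · rw [hec, hl.gal σ q _ (gal_cj σ q) u hu]

end Pool.Agent.P.MP_b8021b_nt.VC
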