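import Pool.Agent.P.MP_b8021b_nt.VC.StA
import Pool.Agent.P.MP_b8021b_nt.VC.BasicA
import Pool.Agent.P.MP_b8021b_nt.VE.PIqb1

/-! The field of a fibre: the order, coordinates, norms and the complex conjugation. -/

namespace Pool.Agent.P.MP_b8021b_nt.VC

open Polynomial NumberField Finset Pool.Agent.P.MP_b8021b_nt.VE
open scoped Classical ComplexConjugate

noncomputable section

namespace QF

/-- a homomorphism from a graph -/
theorem ext_hom {A L F : Type} [CommRing A] [CommRing L] [Field F] (j : A →+* L)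
    (Γ : Subring (L × F)) (h0 : ∀ u, ((0 : L), u) ∈ Γ → u = 0) (m : ℤ) (hm : (m : F) ≠ 0)
    (h : ∀ a, ∃ (N : ℕ) (u : F), ((m : L) ^ N * j a, u) ∈ Γ) :
    ∃ φ : A →+* F, ∀ a (n : ℤ) u, ((n : L) * j a, u) ∈ Γ → n * φ a = u := by
  choose N u hu using h
  have key : ∀ a (n : ℤ) u', ((n : L) * j a, u') ∈ Γ → n * (u a / m ^ N a) = u' := by
    intro a n u' h1
    have h2 := sub_mem (mul_mem (pow_mem (intCast_mem Γ m) (N a)) h1)
      (mul_mem (intCast_mem Γ n) (hu a))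
    have h3 : ((m : L × F) ^ N a * ((n : L) * j a, u') - (n : L × F) * ((m : L) ^ N a * j a, u a)) =
        (0, (m : F) ^ N a * u' - n * u a) := Prod.ext (by simp; ring) (by simp)
    rw [h3] at h2
    have h4 := h0 _ h2
    field_simp
    linear_combination -h4
  have key' : ∀ a (n : ℕ) u', ((m : L) ^ n * j a, u') ∈ Γ → (m : F) ^ n * (u a / m ^ N a) = u' :=
    fun a n u' h1 => by simpa using key a (m ^ n) u' (by simpa using h1)
  refine ⟨⟨⟨⟨fun a => u a / m ^ N a, ?_⟩, fun a b => ?_⟩, ?_, fun a b => ?_⟩, key⟩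
  · simpa using key' 1 0 1 (by rw [pow_zero, one_mul, map_one]; exact Γ.one_mem)
  · have h1 := key' (a * b) (N a + N b) (u a * u b) (by
      have := mul_mem (hu a) (hu b)
      rwa [Prod.mk_mul_mk, mul_mul_mul_comm, ← pow_add, ← map_mul] at this)
    apply mul_left_cancel₀ (pow_ne_zero (N a + N b) hm)
    simp only
    rw [h1]
    field_simp
    ring
  · simpa using key 0 1 0 (by rw [map_zero, mul_zero]; exact Γ.zero_mem)
  · have h1 := key' (a + b) (N a + N b) (m ^ N b * u a + m ^ N a * u b) (by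
      have := add_mem (mul_mem (pow_mem (intCast_mem Γ m) (N b)) (hu a))
        (mul_mem (pow_mem (intCast_mem Γ m) (N a)) (hu b))
      have h3 : (m : L × F) ^ N b * ((m : L) ^ N a * j a, u a) +
          (m : L × F) ^ N a * ((m : L) ^ N b * j b, u b) =
          ((m : L) ^ (N a + N b) * j (a + b), (m : F) ^ N b * u a + m ^ N a * u b) :=
        Prod.ext (by simp; ring) (by simp)
      rwa [h3] at this)
    apply mul_left_cancel₀ (pow_ne_zero (N a + N b) hm)
    simp only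
    rw [h1]
    field_simp
    ring

section ord

variable {R S : Type} [CommRing R] [Algebra ℤ[X] R] [CommRing S] (T : Tab R) (Q : R →+* S)
  (t : ℤ × ℤ)

/-- the lattice of a fibre -/
def lam : Submodule ℤ S := Submodule.span ℤ (Set.range fun i => (t.2 : S) ^ T.κ i * Q (T.y i))

variable {T Q t} (hq : (t.2 : S) * Q (zR R) = t.1)
include hq

theorem mem_lam {d : ℕ} {x : R} (hx : x ∈ T.Lw (T.e * d)) :
    (t.2 : S) ^ d * Q x ∈ lam T Q t := by
  rw [← T.el_repr x, T.el_eq, map_sum, mul_sum]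
  refine sum_mem fun i _ => ?_
  by_cases h : T.y.repr x i = 0
  · simp [h]
  have h1 := (T.wle_iff _ _ _).1 (Tab.mem_Lw.1 hx i h)
  have h2 : (t.2 : S) ^ d * Q (algebraMap ℤ[X] R (T.y.repr x i) * T.y i) =
      (hev (d - T.κ i) (T.y.repr x i) t.1 t.2) • ((t.2 : S) ^ T.κ i * Q (T.y i)) := by
    rw [zsmul_eq_mul, hev_fib Q hq (by omega), map_mul,
      ← pow_sub_mul_pow (t.2 : S) (show T.κ i ≤ d by omega)]
    ring
  rw [h2]
  exact Submodule.smul_mem _ _ (Submodule.subset_span ⟨i, rfl⟩)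

theorem lam_one : (1 : S) ∈ lam T Q t := by
  simpa using mem_lam (T := T) hq (d := 0) (x := 1) (by simpa using Tab.one_mem_Lw)

theorem lam_mul {u v : S} (hu : u ∈ lam T Q t) (hv : v ∈ lam T Q t) : u * v ∈ lam T Q t := by
  have : lam T Q t * lam T Q t ≤ lam T Q t := by
    rw [lam, Submodule.span_mul_span, Submodule.span_le]
    rintro _ ⟨_, ⟨i, rfl⟩, _, ⟨j, rfl⟩, rfl⟩
    have := mem_lam hq (d := T.κ i + T.κ j) (x := T.y i * T.y j) (by
      rw [mul_add]; exact Tab.mul_mem_Lw (T.y_mem_Lw_κ i) (T.y_mem_Lw_κ j))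
    rwa [pow_add, map_mul, mul_mul_mul_comm] at this
  exact this (Submodule.mul_mem_mul hu hv)

variable (T) in
/-- the order of a fibre -/
def ordr (W : S) (r : ℕ) (hW : W ^ 2 = -(r : S)) : Subring S where
  carrier := {x | ∃ u ∈ lam T Q t, ∃ v ∈ lam T Q t, x = u + v * W}
  zero_mem' := ⟨0, zero_mem _, 0, zero_mem _, by simp⟩
  one_mem' := ⟨1, lam_one hq, 0, zero_mem _, by simp⟩
  add_mem' := by
    rintro _ _ ⟨u, hu, v, hv, rfl⟩ ⟨u', hu', v', hv', rfl⟩
    exact ⟨u + u', add_mem hu hu', v + v', add_mem hv hv', by ring⟩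
  neg_mem' := by
    rintro _ ⟨u, hu, v, hv, rfl⟩
    exact ⟨-u, neg_mem hu, -v, neg_mem hv, by ring⟩
  mul_mem' := by
    rintro _ _ ⟨u, hu, v, hv, rfl⟩ ⟨u', hu', v', hv', rfl⟩
    refine ⟨u * u' - r • (v * v'), sub_mem (lam_mul hq hu hu') (nsmul_mem (lam_mul hq hv hv') r),
      u * v' + v * u', add_mem (lam_mul hq hu hv') (lam_mul hq hv hu'), ?_⟩
    rw [nsmul_eq_mul]
    linear_combination (v * v') * hW

theorem mem_ordr {W : S} {r : ℕ} {hW : W ^ 2 = -(r : S)} {x : S} : x ∈ ordr T hq W r hW ↔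
    ∃ g c : Fin T.e → ℤ, x = ∑ i, ((g i : S) + c i * W) * ((t.2 : S) ^ T.κ i * Q (T.y i)) := by
  have key : ∀ g c : Fin T.e → ℤ, ∑ i, ((g i : S) + c i * W) * ((t.2 : S) ^ T.κ i * Q (T.y i)) =
      ∑ i, g i • ((t.2 : S) ^ T.κ i * Q (T.y i)) +
        (∑ i, c i • ((t.2 : S) ^ T.κ i * Q (T.y i))) * W := fun g c => by
    rw [sum_mul, ← sum_add_distrib]
    exact sum_congr rfl fun i _ => by rw [zsmul_eq_mul, zsmul_eq_mul]; ring
  constructor
  · rintro ⟨u, hu, v, hv, rfl⟩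
    obtain ⟨g, rfl⟩ := (Submodule.mem_span_range_iff_exists_fun ℤ).1 hu
    obtain ⟨c, rfl⟩ := (Submodule.mem_span_range_iff_exists_fun ℤ).1 hv
    exact ⟨g, c, (key g c).symm⟩
  · rintro ⟨g, c, rfl⟩
    exact ⟨_, (Submodule.mem_span_range_iff_exists_fun ℤ).2 ⟨g, rfl⟩, _,
      (Submodule.mem_span_range_iff_exists_fun ℤ).2 ⟨c, rfl⟩, key g c⟩

theorem W_mem {W : S} {r : ℕ} {hW : W ^ 2 = -(r : S)} : W ∈ ordr T hq W r hW :=
  ⟨0, zero_mem _, 1, lam_one hq, by simp⟩

theorem eta_mem {W : S} {r : ℕ} {hW : W ^ 2 = -(r : S)} (i : Fin T.e) :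
    (t.2 : S) ^ T.κ i * Q (T.y i) ∈ ordr T hq W r hW :=
  ⟨_, Submodule.subset_span ⟨i, rfl⟩, 0, zero_mem _, by simp⟩

end ord

section base

variable {k : Type} [Field k] [NumberField k] (K : IQ k)

theorem kli : LinearIndependent ℚ ![(1 : k), (K.ω : k)] := by
  refine LinearIndependent.pair_iff.2 fun s t h => ?_
  have h0 := congrArg K.σ h
  obtain ⟨hr, hi⟩ := Iqb.sig_re K
  have h1 := congrArg Complex.re h0
  have h2 := congrArg Complex.im h0
  simp [Rat.smul_def, hr] at h1 h2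
  have hD : (K.D : ℝ) < 0 := by exact_mod_cast K.neg
  refine ⟨h1, ?_⟩
  rcases h2 with h2 | h2
  · exact h2
  · rw [h2] at hi
    linarith

theorem kindep {g c : ℚ} (h : (g : k) + c * (K.ω : k) = 0) : g = 0 ∧ c = 0 :=
  LinearIndependent.pair_iff.1 (kli K) g c (by simpa [Rat.smul_def] using h)

theorem kcoord (a : k) : ∃ g c : ℚ, a = g + c * (K.ω : k) := by
  let b := basisOfLinearIndependentOfCardEqFinrank (kli K) (by simp [K.deg])
  have hb := b.sum_repr a
  simp only [b, Fin.sum_univ_two, coe_basisOfLinearIndependentOfCardEqFinrank,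
    Matrix.cons_val_zero, Matrix.cons_val_one, Rat.smul_def, mul_one] at hb
  exact ⟨_, _, hb.symm⟩

end base

section fib

variable {R : Type} [CommRing R] [Algebra ℤ[X] R] {p : Par R} {k : Type} [Field k] [NumberField k]
  [Algebra k ℂ] (K : BF k) {t : ℤ × ℤ} {L : Type} [Field L] [NumberField L] [Algebra k L]
  (Φ : Fb p t k L)

omit [NumberField L] in
theorem om_coe : ((K.om L : 𝓞 L) : L) = algebraMap k L (K.ω : k) := rfl

omit [NumberField L] in
theorem om_sq {r : ℕ} (hD : K.D = -r) : K.om L ^ 2 = -(r : 𝓞 L) := by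
  rw [BF.om, ← map_pow, K.sq, hD]
  simp

omit [NumberField L] in
theorem om_sq' {r : ℕ} (hD : K.D = -r) : ((K.om L : 𝓞 L) : L) ^ 2 = -(r : L) := by
  simpa using congrArg (fun x : 𝓞 L => (x : L)) (om_sq K hD)

/-- the basis of the field of the fibre -/
def bas : Module.Basis (Fin p.e) k L :=
  basisOfTopLeSpanOfCardEqFinrank (fun i => Φ.q (p.y i)) Φ.gen.ge (by simp [Φ.fin])

omit [NumberField k] [Algebra k ℂ] [NumberField L] in
theorem bas_apply (i : Fin p.e) : bas Φ i = Φ.q (p.y i) := by simp [bas]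

omit [Algebra k ℂ] [NumberField k] [NumberField L] in
include Φ in
theorem fin : FiniteDimensional k L := Module.Finite.of_basis (bas Φ)

include K Φ in
theorem rank : Module.finrank ℤ (𝓞 L) = 2 * p.e := by
  rw [RingOfIntegers.rank, ← Module.finrank_mul_finrank ℚ k L, K.deg, Φ.fin]

theorem indep (ht : t.2 ≠ 0) (g c : Fin p.e → ℚ)
    (h : ∑ i, ((g i : L) + (c i : L) * (K.om L : 𝓞 L)) * (Φ.η i : 𝓞 L) = 0) : g = 0 ∧ c = 0 := by
  have h1 := Fintype.linearIndependent_iff.1 (bas Φ).linearIndependent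
    (fun i => ((g i : k) + c i * (K.ω : k)) * (t.2 : k) ^ p.κ i) (by
      rw [← h]
      refine sum_congr rfl fun i _ => ?_
      rw [Algebra.smul_def, bas_apply, Φ.hη, om_coe]
      simp only [map_mul, map_add, map_pow, map_intCast, map_ratCast]
      ring)
  have h2 : ∀ i, g i = 0 ∧ c i = 0 := fun i => kindep K.toIQ ((mul_eq_zero.1 (h1 i)).resolve_right
    (pow_ne_zero _ (Int.cast_ne_zero.2 ht)))
  exact ⟨funext fun i => (h2 i).1, funext fun i => (h2 i).2⟩

theorem coord (x : L) :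
    ∃ g c : Fin p.e → ℚ, x = ∑ i, ((g i : L) + (c i : L) * (K.om L : 𝓞 L)) * Φ.q (p.y i) := by
  choose g c h using fun i => kcoord K.toIQ ((bas Φ).repr x i)
  refine ⟨g, c, ?_⟩
  conv_lhs => rw [← (bas Φ).sum_repr x]
  refine sum_congr rfl fun i _ => ?_
  rw [Algebra.smul_def, bas_apply, h, om_coe]
  simp only [map_mul, map_add, map_ratCast]

omit [Algebra k ℂ] [NumberField k] in
theorem q_alg (ht : t.2 ≠ 0) (g : ℤ[X]) :
    Φ.q (algebraMap ℤ[X] R g) = algebraMap k L (aeval ((t.1 : k) / t.2) g) := by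
  have h : Φ.q (zR R) = algebraMap k L ((t.1 : k) / t.2) := by
    rw [map_div₀, map_intCast, map_intCast, eq_div_iff (Int.cast_ne_zero.2 ht), mul_comm, Φ.hq]
  rw [map_alg, h]
  exact aeval_algebraMap_apply L _ g

omit [Algebra k ℂ] [NumberField k] in
/-- the norm of a function on the fibre -/
theorem norm_q (ht : t.2 ≠ 0) (x : R) :
    Algebra.norm k (Φ.q x) = aeval ((t.1 : k) / t.2) (Algebra.norm ℤ[X] x) := by
  let ev : ℤ[X] →+* k := (aeval ((t.1 : k) / t.2) : ℤ[X] →ₐ[ℤ] k)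
  have h : Algebra.leftMulMatrix (bas Φ) (Φ.q x) =
      ev.mapMatrix (Algebra.leftMulMatrix p.y x) := by
    ext i j
    rw [Algebra.leftMulMatrix_eq_repr_mul, RingHom.mapMatrix_apply, Matrix.map_apply,
      Algebra.leftMulMatrix_eq_repr_mul, bas_apply, ← map_mul]
    have h1 : Φ.q (x * p.y j) = ∑ l, ev (p.y.repr (x * p.y j) l) • bas Φ l := by
      conv_lhs => rw [← p.toTab.el_repr (x * p.y j), p.toTab.el_eq, map_sum]
      refine sum_congr rfl fun l _ => ?_
      rw [map_mul, q_alg Φ ht, Algebra.smul_def, bas_apply]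
      rfl
    rw [h1, Module.Basis.repr_sum_self]
  rw [Algebra.norm_eq_matrix_det (bas Φ), h, ← RingHom.map_det, p.toTab.norm_eq]
  rfl

omit [NumberField k] [Algebra k ℂ] [NumberField L] in
theorem conj_q (ht : p.Adm t) (φ : L →+* ℂ) (x : R) : conj (φ (Φ.q x)) = φ (Φ.q x) := by
  refine Complex.conj_eq_iff_im.2 (p.real (φ.comp Φ.q) _ ht.2.1 ht.2.2.1 ?_ x)
  have h := congrArg φ Φ.hq
  rw [map_mul, map_intCast, map_intCast] at h
  have h0 : (t.2 : ℂ) ≠ 0 := Int.cast_ne_zero.2 ht.1.ne'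
  push_cast
  rw [eq_div_iff h0, mul_comm]
  exact h

omit [NumberField L] in
theorem conj_om {r : ℕ} (hD : K.D = -r) (φ : L →+* ℂ) :
    conj (φ (K.om L : 𝓞 L)) = -φ (K.om L : 𝓞 L) := by
  have h := (Iqb.sig_re { K.toIQ with σ := φ.comp (algebraMap k L) }).1
  have _ := hD
  apply Complex.ext
  · have h' : (φ (K.om L : 𝓞 L)).re = 0 := h
    simp [h']
  · simp

include Φ in
/-- the complex conjugation of the field of the fibre -/
theorem exists_conj (hD : K.D = -p.r) (ht : p.Adm t) :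
    ∃ c : L ≃+* L, ∀ (φ : L →+* ℂ) (x : L), φ (c x) = conj (φ x) := by
  have h : ∀ x : L, ∃ x', ∀ φ : L →+* ℂ, φ x' = conj (φ x) := by
    intro x
    obtain ⟨g, c, rfl⟩ := coord K Φ x
    refine ⟨∑ i, ((g i : L) - (c i : L) * (K.om L : 𝓞 L)) * Φ.q (p.y i), fun φ => ?_⟩
    simp only [map_sum, map_mul, map_add, map_sub, map_ratCast, conj_q Φ ht, conj_om K hD]
    exact sum_congr rfl fun i _ => by ring
  choose c hc using h
  obtain ⟨φ⟩ : Nonempty (L →+* ℂ) := inferInstance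
  have hcc : ∀ x, c (c x) = x := fun x => φ.injective (by rw [hc, hc, Complex.conj_conj])
  exact ⟨⟨⟨c, c, hcc, hcc⟩, fun x y => φ.injective (by simp only [hc, map_mul]),
    fun x y => φ.injective (by simp only [hc, map_add])⟩, fun φ x => hc x φ⟩

omit [NumberField L] in
theorem al_coe (s : p.Co) : ((Φ.al K s : 𝓞 L) : L) =
    (t.2 : L) ^ p.dd * (Φ.q (p.el (p.gp s)) + Φ.q (p.el (p.cp s)) * (K.om L : 𝓞 L)) := by
  rw [mul_add, ← mul_assoc, Tab.el_fib Φ.q Φ.hq p.κ_le (p.natDegree_gp s),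
    Tab.el_fib Φ.q Φ.hq p.κ_le (p.natDegree_cp s), sum_mul, ← sum_add_distrib, Fb.al]
  simp only [map_sum, map_mul, map_add, map_intCast]
  refine sum_congr rfl fun i _ => ?_
  have h : algebraMap (𝓞 L) L (Φ.η i) = _ := Φ.hη i
  rw [h, Par.gt, Par.ct]
  change (_ + _ * ((K.om L : 𝓞 L) : L)) * _ = _
  ring

/-- the norm of the value of a section -/
theorem norm_al (hD : K.D = -p.r) (ht : p.Adm t) (s : p.Co) :
    (Ideal.absNorm (Ideal.span {Φ.al K s}) : ℤ) = p.N s t := by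
  have := fin Φ
  obtain ⟨c, hc⟩ := exists_conj K Φ hD ht
  obtain ⟨φ⟩ : Nonempty (L →+* ℂ) := inferInstance
  have ht0 : t.2 ≠ 0 := ht.1.ne'
  obtain ⟨α, hα⟩ : ∃ α : L, α = ((Φ.al K s : 𝓞 L) : L) := ⟨_, rfl⟩
  have h1 : α * c α = algebraMap k L ((t.2 : k) ^ (2 * p.dd)) *
      Φ.q (p.el (p.gp s) ^ 2 + (p.r : R) * p.el (p.cp s) ^ 2) := by
    have h2 : c α = (t.2 : L) ^ p.dd *
        (Φ.q (p.el (p.gp s)) - Φ.q (p.el (p.cp s)) * (K.om L : 𝓞 L)) := φ.injective (by
      rw [hc, hα, al_coe]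
      simp only [map_mul, map_add, map_sub, map_pow, map_intCast, conj_q Φ ht, conj_om K hD]
      ring)
    rw [h2, hα, al_coe]
    simp only [map_mul, map_add, map_pow, map_intCast, map_natCast]
    linear_combination (-((t.2 : L) ^ p.dd) ^ 2 * Φ.q (p.el (p.cp s)) ^ 2) * om_sq' (L := L) K hD
  have h3 : Algebra.norm k (α * c α) = (p.N s t : k) := by
    rw [h1, map_mul, Algebra.norm_algebraMap, Φ.fin, norm_q Φ ht0, Par.N,
      hev_div (p.natDegree_F_le s) _ (Int.cast_ne_zero.2 ht0), ← pow_mul,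
      show 2 * p.dd * p.e = 2 * p.e * p.dd by ring]
    rfl
  have h4 : 0 ≤ p.N s t := by
    have h5 := Algebra.norm_eq_prod_embeddings k ℂ (α * c α)
    rw [h3, map_intCast] at h5
    have h6 : ∀ σ : L →ₐ[k] ℂ, σ (α * c α) = ((Complex.normSq (σ α) : ℝ) : ℂ) := fun σ => by
      rw [map_mul, ← Complex.mul_conj]
      exact congrArg _ (hc σ α)
    simp only [h6] at h5
    have h7 : (p.N s t : ℝ) = ∏ σ : L →ₐ[k] ℂ, Complex.normSq (σ α) := by exact_mod_cast h5
    have h8 : (0 : ℝ) ≤ p.N s t := h7 ▸ prod_nonneg fun σ _ => Complex.normSq_nonneg _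
    exact_mod_cast h8
  have h5 : Algebra.norm ℚ α ^ 2 = (p.N s t : ℚ) ^ 2 := by
    have h6 : Algebra.norm ℚ (c α) = Algebra.norm ℚ α :=
      Algebra.norm_eq_of_algEquiv c.toRatAlgEquiv α
    rw [sq, ← h6]
    nth_rewrite 1 [h6]
    rw [← map_mul, ← Algebra.norm_norm (S := k), h3, ← map_intCast (algebraMap ℚ k),
      Algebra.norm_algebraMap, K.deg]
  rw [Ideal.absNorm_span_singleton]
  have h6 : (Algebra.norm ℤ (Φ.al K s)) ^ 2 = p.N s t ^ 2 := by
    rw [hα, ← Algebra.coe_norm_int] at h5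
    exact_mod_cast h5
  rw [Int.natCast_natAbs, ← abs_of_nonneg h4]
  exact sq_eq_sq_iff_abs_eq_abs _ _ |>.1 h6

end fib

end QF

end

end Pool.Agent.P.MP_b8021b_nt.VC
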