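import Pool.Agent.P.MP_b8021b_nt.VC.PQF1
import Pool.Agent.P.MP_b8021b_nt.VC.PFbEx

/-! The field of a fibre: the index of the order and the ramification at `r`. -/

namespace Pool.Agent.P.MP_b8021b_nt.VC

open Polynomial NumberField Finset Pool.Agent.P.MP_b8021b_nt.VE
open scoped Classical WithZero IntermediateField

noncomputable section

namespace QF

/-- the valuation of a root of a polynomial whose Newton polygon is one segment -/
theorem root_val {S : Type} [CommRing S] (w : Valuation S ℤᵐ⁰) (c : ℕ → S) (e : ℕ) (he : e ≠ 0)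
    (θ : S) (g : ℤᵐ⁰) (hg : g ≠ 0) (h : θ ^ e + ∑ l ∈ range e, c l * θ ^ l = 0)
    (h0 : w (c 0) = g) (hl : ∀ l < e, w (c l) ^ e ≤ g ^ (e - l)) : w θ ^ e = g := by
  have hg' : 0 < g := zero_lt_iff.2 hg
  have key : ∀ l < e, w (c l * θ ^ l) ^ e ≤ g ^ (e - l) * (w θ ^ e) ^ l := fun l h1 => by
    rw [map_mul, mul_pow, map_pow, ← pow_mul, mul_comm l e, pow_mul]
    exact mul_le_mul_left (hl l h1) _
  rcases lt_trichotomy (w θ ^ e) g with h1 | h1 | h1
  · exfalso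
    obtain ⟨n, rfl⟩ := Nat.exists_eq_succ_of_ne_zero he
    rw [sum_range_succ', pow_zero, mul_one, ← add_assoc, add_eq_zero_iff_neg_eq] at h
    have h2 : w (∑ l ∈ range n, c (l + 1) * θ ^ (l + 1)) < g := by
      refine w.map_sum_lt hg fun l hl' => ?_
      have h3 : l + 1 < n + 1 := by simpa using hl'
      refine lt_of_pow_lt_pow_left₀ (n + 1) zero_le ((key _ h3).trans_lt ?_)
      calc g ^ (n + 1 - (l + 1)) * (w θ ^ (n + 1)) ^ (l + 1)
          < g ^ (n + 1 - (l + 1)) * g ^ (l + 1) :=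
            mul_lt_mul_of_pos_left (pow_lt_pow_left₀ h1 zero_le (by omega)) (pow_pos hg' _)
        _ = g ^ (n + 1) := by rw [← pow_add, Nat.sub_add_cancel h3.le]
    have h4 := w.map_add_lt (x := θ ^ (n + 1)) (by rwa [map_pow]) h2
    rw [← w.map_neg, h, h0] at h4
    exact lt_irrefl _ h4
  · exact h1
  · exfalso
    have h2 : w (∑ l ∈ range e, c l * θ ^ l) < w θ ^ e := by
      refine w.map_sum_lt (hg'.trans h1).ne' fun l hl' => ?_
      have h3 : l < e := mem_range.1 hl'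
      refine lt_of_pow_lt_pow_left₀ e zero_le ((key _ h3).trans_lt ?_)
      calc g ^ (e - l) * (w θ ^ e) ^ l < (w θ ^ e) ^ (e - l) * (w θ ^ e) ^ l :=
            mul_lt_mul_of_pos_right (pow_lt_pow_left₀ h1 zero_le (by omega))
              (pow_pos (hg'.trans h1) _)
        _ = (w θ ^ e) ^ e := by rw [← pow_add, Nat.sub_add_cancel h3.le]
    rw [← eq_neg_iff_add_eq_zero] at h
    rw [← w.map_neg, ← h, map_pow] at h2
    exact lt_irrefl _ h2

variable {R : Type} [CommRing R] [Algebra ℤ[X] R] {p : Par R} {k : Type} [Field k] [NumberField k]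
  [Algebra k ℂ] (K : BF k) {t : ℤ × ℤ} {L : Type} [Field L] [NumberField L] [Algebra k L]
  (Φ : Fb p t k L)

omit [NumberField k] [Algebra k ℂ] [NumberField L] in
theorem aeval_eta : aeval (Φ.η p.i1) (p.Pt t) = 0 := by
  apply RingOfIntegers.ext
  have h := p.toTab.aeval_Pt Φ.q Φ.hq
  rw [← Φ.hη] at h
  exact (aeval_algebraMap_apply L (Φ.η p.i1) (p.Pt t)).symm.trans h

omit [Algebra k ℂ] [NumberField L] in
theorem adj_top (ht : t.2 ≠ 0) : k⟮(Φ.η p.i1 : L)⟯ = ⊤ := by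
  have := IntermediateField.isSimpleOrder_of_finrank_prime k L (Φ.fin ▸ p.he)
  refine (eq_bot_or_eq_top _).resolve_left fun h => ?_
  obtain ⟨a, ha⟩ := IntermediateField.mem_bot.1 (IntermediateField.adjoin_simple_eq_bot_iff.1 h)
  have h1 : a • bas Φ p.i0 = (t.2 : k) ^ p.κ p.i1 • bas Φ p.i1 := by
    rw [bas_apply, bas_apply, p.toTab.y_i0, map_one, Algebra.smul_def, mul_one, ha, Φ.hη,
      Algebra.smul_def, map_pow, map_intCast]
  have h2 := congrArg (fun x => (bas Φ).repr x p.i1) h1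
  have h3 : p.i0 ≠ p.i1 := fun h => by simpa [Tab.i0, Tab.i1] using congrArg Fin.val h
  simp [h3] at h2
  exact pow_ne_zero _ (Int.cast_ne_zero.2 ht) h2.symm

omit [Algebra k ℂ] [NumberField L] in
theorem minpoly_eta (ht : t.2 ≠ 0) :
    minpoly (𝓞 k) (Φ.η p.i1) = (p.Pt t).map (algebraMap ℤ (𝓞 k)) := by
  have := fin Φ
  have hi : IsIntegral (𝓞 k) (Φ.η p.i1) := Algebra.IsIntegral.isIntegral _
  have h1 := minpoly.isIntegrallyClosed_eq_field_fractions k L hi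
  have h2 := (Field.primitive_element_iff_minpoly_natDegree_eq k _).1 (adj_top Φ ht)
  have h3 : (minpoly (𝓞 k) (Φ.η p.i1)).natDegree = p.e := by
    rw [← Φ.fin, ← h2, ← (minpoly.monic hi).natDegree_map (algebraMap (𝓞 k) k), ← h1]
  refine (eq_of_monic_of_dvd_of_natDegree_le (minpoly.monic hi) ((p.toTab.Pt_monic t).map _)
    (minpoly.isIntegrallyClosed_dvd hi ?_) ?_).symm
  · rw [aeval_map_algebraMap, aeval_eta]
  · rw [(p.toTab.Pt_monic t).natDegree_map, Tab.natDegree_Pt, h3]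

/-- the index of the order -/
theorem index (hD : K.D = -p.r) (ht : t.2 ≠ 0) (β : 𝓞 L) :
    ((p.Mt t : ℤ) : L) * (β : L) ∈ ordr p.toTab Φ.hq _ p.r (om_sq' (L := L) K hD) := by
  have := fin Φ
  have h1 := conductor_mul_differentIdeal (𝓞 k) k L (Φ.η p.i1)
    (IntermediateField.adjoin_eq_top_iff.1 (adj_top Φ ht))
  have h2 : aeval (Φ.η p.i1) (derivative (p.Pt t)) ∈ conductor (𝓞 k) (Φ.η p.i1) := by
    refine Ideal.mul_le_left (J := differentIdeal (𝓞 k) (𝓞 L)) ?_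
    rw [h1, minpoly_eta Φ ht, derivative_map, aeval_map_algebraMap]
    exact Ideal.mem_span_singleton_self _
  obtain ⟨a, b, hab⟩ := p.sep t
  have h3 : ((p.Dt t : ℤ) : 𝓞 L) ∈ conductor (𝓞 k) (Φ.η p.i1) := by
    have h4 := congrArg (aeval (Φ.η p.i1)) hab
    rw [map_add, map_mul, map_mul, aeval_eta, mul_zero, zero_add, aeval_C, eq_intCast] at h4
    rw [Par.Dt, ← h4]
    exact Ideal.mul_mem_left _ _ h2
  have h4 := mem_conductor_iff.1 h3 β
  rw [Algebra.adjoin_singleton_eq_range_aeval] at h4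
  obtain ⟨g, hg⟩ := h4
  have h5 : (2 * K.D : 𝓞 L) * (p.Dt t * β) =
      ∑ i ∈ range (g.natDegree + 1),
        algebraMap (𝓞 k) (𝓞 L) (2 * K.D * g.coeff i) * Φ.η p.i1 ^ i := by
    rw [← hg]
    change _ * aeval _ g = _
    rw [aeval_eq_sum_range, mul_sum]
    refine sum_congr rfl fun i _ => ?_
    rw [Algebra.smul_def, map_mul, map_mul, map_intCast, map_ofNat, ← mul_assoc]
  have h6 : ((2 * p.r * p.Dt t : ℤ) : L) * (β : L) ∈
      ordr p.toTab Φ.hq _ p.r (om_sq' (L := L) K hD) := by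
    have h7 : ((2 * p.r * p.Dt t : ℤ) : L) * (β : L) =
        -algebraMap (𝓞 L) L ((2 * K.D : 𝓞 L) * (p.Dt t * β)) := by
      rw [hD]
      simp only [map_mul, map_intCast, map_ofNat]
      push_cast
      ring
    rw [h7, h5, map_sum]
    refine neg_mem (sum_mem fun i _ => ?_)
    obtain ⟨u, v, huv⟩ := Iqb.coord K.toIQ (g.coeff i)
    rw [huv, map_mul, map_pow, map_add, map_mul, map_intCast, map_intCast, map_add, map_mul,
      map_intCast, map_intCast]
    refine mul_mem (add_mem (intCast_mem _ _) (mul_mem (intCast_mem _ _) (W_mem _))) (pow_mem ?_ _)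
    have h8 : algebraMap (𝓞 L) L (Φ.η p.i1) = _ := Φ.hη p.i1
    rw [h8]
    exact eta_mem _ _
  rw [Par.Mt, Int.natCast_natAbs]
  rcases abs_choice (2 * p.r * p.Dt t : ℤ) with h | h
  · rwa [h]
  · rw [h, Int.cast_neg, neg_mul]
    exact neg_mem h6

theorem index' (hD : K.D = -p.r) (ht : t.2 ≠ 0) (β : 𝓞 L) : ∃ g c : Fin p.e → ℤ,
    (p.Mt t : 𝓞 L) * β = ∑ i, ((g i : 𝓞 L) + (c i : 𝓞 L) * K.om L) * Φ.η i := by
  obtain ⟨g, c, h⟩ := (mem_ordr _).1 (index K Φ hD ht β)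
  refine ⟨g, c, RingOfIntegers.ext ?_⟩
  simp only [map_sum, map_mul, map_add, map_intCast, map_natCast]
  rw [Int.cast_natCast] at h
  refine h.trans (sum_congr rfl fun i _ => ?_)
  rw [← Φ.hη]

include K Φ in
/-- the prime `r` is totally ramified -/
theorem ram (hD : K.D = -p.r) (ht : p.Adm t) :
    ∃ 𝔮 : Ideal (𝓞 L), 𝔮 ^ (2 * p.e) = Ideal.span {(p.r : 𝓞 L)} := by
  have : Fact p.r.Prime := ⟨p.hr⟩
  have hr0 : (p.r : 𝓞 L) ≠ 0 := Nat.cast_ne_zero.2 p.hr.ne_zero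
  have hn : Ideal.absNorm (Ideal.span {(p.r : 𝓞 L)}) = p.r ^ (2 * p.e) := by
    rw [Ideal.absNorm_span_natCast, rank K Φ]
  have he := p.toTab.epos
  obtain ⟨𝔮, h1, h2, h3⟩ := Ideal.exists_isMaximal_dvd_of_dvd_absNorm' p.hr
    (Ideal.span {(p.r : 𝓞 L)}) (hn ▸ dvd_pow_self _ (by omega))
  have hrq : (p.r : 𝓞 L) ∈ 𝔮 := Ideal.dvd_span_singleton.1 h3
  let v : IsDedekindDomain.HeightOneSpectrum (𝓞 L) :=
    ⟨𝔮, h1.isPrime, fun h => hr0 (by rwa [h, Ideal.mem_bot] at hrq)⟩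
  obtain ⟨N, hN⟩ : ∃ N : ℕ, v.intValuation (p.r : 𝓞 L) = WithZero.exp (-(N : ℤ)) :=
    ⟨_, v.intValuation_if_neg hr0⟩
  have hN0 : N ≠ 0 := by
    rintro rfl
    exact IsDedekindDomain.HeightOneSpectrum.intValuation_eq_one_iff.1 hN hrq
  have hv : ∀ n : ℤ, v.intValuation (n : 𝓞 L) = Int.padicValuation p.r n ^ N := by
    intro n
    rcases eq_or_ne n 0 with rfl | hn0
    · simp [hN0]
    obtain ⟨j, u, hu, rfl⟩ := WfDvdMonoid.max_power_factor' hn0
      (Nat.prime_iff_prime_int.1 p.hr).not_isUnit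
    have h4 : v.intValuation (u : 𝓞 L) = 1 :=
      IsDedekindDomain.HeightOneSpectrum.intValuation_eq_one_iff.2 fun h => hu (by
        rw [← Ideal.mem_span_singleton, ← h2, Ideal.mem_comap]
        simpa using h)
    rw [Int.cast_mul, Int.cast_pow, Int.cast_natCast, map_mul, map_pow, h4, hN, map_mul, map_pow,
      Int.padicValuation_self, Int.padicValuation_eq_one_iff.2 hu, mul_one, mul_one, ← pow_mul,
      ← WithZero.exp_nsmul, ← WithZero.exp_nsmul]
    congr 1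
    simp
  obtain ⟨e1, e2, e3⟩ := FbEx.eis p ht
  rw [(p.toTab.Pt_monic t).natDegree_map, Tab.natDegree_Pt] at e2 e3
  simp only [coeff_map, eq_intCast, Rat.padicValuation_cast] at e1 e3
  generalize ((p.b0 * (p.e * p.κ p.toTab.i1 - p.δ p.toTab.i1) +
    padicValNat p.r p.toTab.N0 : ℕ) : ℤ) = m at e1 e2 e3
  have h4 := root_val v.intValuation (fun l => (((p.Pt t).coeff l : ℤ) : 𝓞 L)) p.e he.ne'
    (Φ.η p.i1) (WithZero.exp (-m) ^ N) (pow_ne_zero _ WithZero.exp_ne_zero) (by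
      have h5 := aeval_eta Φ
      rw [aeval_eq_sum_range, Tab.natDegree_Pt, sum_range_succ, Tab.Pt_eq, Tab.coeff_cpt_top,
        one_smul, add_comm] at h5
      simpa only [zsmul_eq_mul, Tab.Pt_eq] using h5) (by rw [hv, e1]) fun l hl => by
      rw [hv, ← pow_mul, mul_comm, pow_mul, ← pow_mul _ N, mul_comm N, pow_mul]
      exact pow_le_pow_left' (e3 l hl) N
  have h5 : v.intValuation (K.om L) ^ 2 = WithZero.exp (-(N : ℤ)) := by
    rw [← map_pow, om_sq K hD, Valuation.map_neg, hN]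
  have key : ∀ (x : ℤᵐ⁰) (n : ℕ) (z : ℤ), n ≠ 0 → x ^ n = WithZero.exp z → (n : ℤ) ∣ z := by
    intro x n z hn hx
    have hx0 : x ≠ 0 := by
      rintro rfl
      rw [zero_pow hn] at hx
      exact WithZero.exp_ne_zero hx.symm
    rw [← WithZero.exp_log hx0, ← WithZero.exp_nsmul, WithZero.exp_inj, nsmul_eq_mul] at hx
    exact ⟨_, hx.symm⟩
  have h6 : (p.e : ℤ) ∣ N := by
    have h7 := key _ _ (N • -m) he.ne' (by rw [h4, WithZero.exp_nsmul])
    rw [nsmul_eq_mul, mul_neg, dvd_neg] at h7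
    exact e2.symm.dvd_of_dvd_mul_right h7
  have h7 : ((2 : ℕ) : ℤ) ∣ N := dvd_neg.1 (key _ _ _ two_ne_zero h5)
  have h8 : 2 * p.e ∣ N := by
    refine Nat.Coprime.mul_dvd_of_dvd_of_dvd ?_ (Int.natCast_dvd_natCast.1 h7)
      (Int.natCast_dvd_natCast.1 h6)
    have := p.h3
    exact (Nat.coprime_primes Nat.prime_two p.he).2 (by omega)
  obtain ⟨J, hJ⟩ : 𝔮 ^ (2 * p.e) ∣ Ideal.span {(p.r : 𝓞 L)} :=
    (pow_dvd_pow 𝔮 (Nat.le_of_dvd (Nat.pos_of_ne_zero hN0) h8)).trans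
      ((v.intValuation_le_pow_iff_dvd _ N).1 hN.le)
  have h9 : p.r ∣ Ideal.absNorm 𝔮 := by
    have h10 : ((Ideal.absNorm 𝔮 : ℤ)) ∈ 𝔮.under ℤ := by
      rw [Ideal.mem_comap]
      simpa using Ideal.absNorm_mem 𝔮
    rw [h2, Ideal.mem_span_singleton] at h10
    exact Int.natCast_dvd_natCast.1 h10
  obtain ⟨n, hn'⟩ := h9
  rw [hJ, map_mul, map_pow, hn', mul_pow, mul_assoc] at hn
  have h10 := (mul_right_eq_self₀.1 hn).resolve_right (pow_ne_zero _ p.hr.ne_zero)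
  refine ⟨𝔮, ?_⟩
  rw [hJ, Ideal.absNorm_eq_one_iff.1 (Nat.eq_one_of_mul_eq_one_left h10), Ideal.mul_top]

end QF

end

end Pool.Agent.P.MP_b8021b_nt.VC
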