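import Mathlib

/-! Local lemmas at the prime `r` for the construction of the base sections. -/

namespace Pool.Agent.P.MP_b8021b_nt.VC.Rad

open Polynomial NumberField Filter

section ultra

variable {Ω : Type*} [NormedField Ω] [IsUltrametricDist Ω]

theorem norm_sub_le_max (a b : Ω) : ‖a - b‖ ≤ max ‖a‖ ‖b‖ := by
  rw [sub_eq_add_neg, ← norm_neg b]
  exact IsUltrametricDist.norm_add_le_max _ _

theorem coeff_prod_le (s : Multiset Ω) {c : ℝ} (hc : 0 ≤ c) (hc1 : c ≤ 1)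
    (hs : ∀ ρ ∈ s, ‖ρ‖ ≤ c) (k : ℕ) : ‖(s.map fun ρ => X - C ρ).prod.coeff k‖ ≤ 1 ∧
      (k < s.card → ‖(s.map fun ρ => X - C ρ).prod.coeff k‖ ≤ c) := by
  induction s using Multiset.induction_on generalizing k with
  | empty =>
    simp only [Multiset.map_zero, Multiset.prod_zero, coeff_one, Multiset.card_zero, not_lt_zero,
      IsEmpty.forall_iff, and_true]
    split_ifs <;> simp
  | cons ρ s ih =>
    have h1 := hs ρ (Multiset.mem_cons_self _ _)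
    have ih' := ih fun x hx => hs x (Multiset.mem_cons_of_mem hx)
    have h2 : ∀ k, ‖ρ * (s.map fun ρ => X - C ρ).prod.coeff k‖ ≤ c := fun k => by
      rw [norm_mul]
      exact (mul_le_mul h1 (ih' k).1 (norm_nonneg _) hc).trans_eq (mul_one c)
    rw [Multiset.map_cons, Multiset.prod_cons, sub_mul, coeff_sub, coeff_C_mul,
      Multiset.card_cons]
    rcases k with _ | k
    · rw [coeff_X_mul_zero, zero_sub, norm_neg]
      exact ⟨(h2 0).trans hc1, fun _ => h2 0⟩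
    · rw [coeff_X_mul]
      exact ⟨(norm_sub_le_max _ _).trans (max_le (ih' k).1 ((h2 _).trans hc1)), fun h =>
        (norm_sub_le_max _ _).trans (max_le ((ih' k).2 (by omega)) (h2 _))⟩

theorem coeff_le [IsAlgClosed Ω] {μ : Polynomial Ω} (hμ : μ.Monic) {c : ℝ} (hc : 0 ≤ c) (hc1 : c ≤ 1)
    (h : ∀ ρ, μ.IsRoot ρ → ‖ρ‖ ≤ c) (k : ℕ) :
    ‖μ.coeff k‖ ≤ 1 ∧ (k < μ.natDegree → ‖μ.coeff k‖ ≤ c) := by
  have := coeff_prod_le μ.roots hc hc1 (fun ρ hρ => h ρ (isRoot_of_mem_roots hρ)) k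
  rwa [← (IsAlgClosed.splits μ).eq_prod_roots_of_monic hμ,
    ← (IsAlgClosed.splits μ).natDegree_eq_card_roots] at this

omit [IsUltrametricDist Ω] in
theorem coeff_zero_norm [IsAlgClosed Ω] {μ : Polynomial Ω} (hμ : μ.Monic) {c : ℝ}
    (h : ∀ ρ, μ.IsRoot ρ → ‖ρ‖ = c) : ‖μ.coeff 0‖ = c ^ μ.natDegree := by
  rw [(IsAlgClosed.splits μ).coeff_zero_eq_prod_roots_of_monic hμ, norm_mul, norm_pow, norm_neg,
    norm_one, one_pow, one_mul, (IsAlgClosed.splits μ).natDegree_eq_card_roots]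
  have : ∀ s : Multiset Ω, (∀ ρ ∈ s, ‖ρ‖ = c) → ‖s.prod‖ = c ^ s.card := fun s hs => by
    induction s using Multiset.induction_on with
    | empty => simp
    | cons a s ih =>
      rw [Multiset.prod_cons, norm_mul, hs a (Multiset.mem_cons_self _ _),
        ih fun x hx => hs x (Multiset.mem_cons_of_mem hx), Multiset.card_cons, pow_succ']
  exact this _ fun ρ hρ => h ρ (isRoot_of_mem_roots hρ)

/-- the size of `t` at a zero of `t ^ j + lam + small` -/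
theorem zero_norm {t h h' h'' lam : Ω} {j : ℕ} {η η' c : ℝ} (hc : 0 < c) (hη : η < c)
    (hl : c ^ (j + 1) < ‖lam‖) (hl1 : ‖lam‖ < 1) (hη' : η' < ‖lam‖) (h1 : ‖h‖ ≤ η * max 1 ‖t‖)
    (h2 : ‖h'‖ ≤ η * max 1 ‖t‖) (h3 : ‖h''‖ ≤ η' * max 1 ‖t‖ ^ (j + 1))
    (h0 : t ^ j * (t + h) + lam * (1 + h') + h'' = 0) : ‖t‖ ^ (j + 1) = ‖lam‖ := by
  by_contra hne
  have hc1 : c < 1 := by
    by_contra h'
    have := one_le_pow₀ (n := j + 1) (not_lt.1 h')
    linarith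
  have hl0 : 0 < ‖lam‖ := (pow_pos hc _).trans hl
  have e1 : t ^ (j + 1) + lam = -(t ^ j * h + lam * h' + h'') := by linear_combination h0
  have e2 : ‖t ^ (j + 1) + lam‖ = max (‖t‖ ^ (j + 1)) ‖lam‖ := by
    rw [IsUltrametricDist.norm_add_eq_max_of_norm_ne_norm (by rwa [norm_pow]), norm_pow]
  set M := max (‖t‖ ^ (j + 1)) ‖lam‖ with hM
  have hM1 : ‖t‖ ^ (j + 1) ≤ M := le_max_left _ _
  have hM2 : ‖lam‖ ≤ M := le_max_right _ _
  have ht := norm_nonneg t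
  have k : ‖t ^ j * h‖ < M ∧ ‖lam * h'‖ < M ∧ ‖h''‖ < M := by
    rw [norm_mul, norm_mul, norm_pow]
    rcases le_total ‖t‖ 1 with ht1 | ht1
    · rw [max_eq_left ht1, mul_one] at h1 h2
      rw [max_eq_left ht1, one_pow, mul_one] at h3
      refine ⟨?_, by nlinarith, by linarith⟩
      rcases le_total ‖t‖ c with h4 | h4
      · have := pow_le_pow_left₀ ht h4 j
        have h5 := pow_pos hc j
        rw [pow_succ] at hl
        nlinarith [norm_nonneg h, pow_nonneg ht j]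
      · have h5 := pow_pos (hc.trans_le h4) j
        rw [pow_succ] at hM1
        nlinarith
    · rw [max_eq_right ht1] at h1 h2 h3
      have h5 : 1 ≤ ‖t‖ ^ j := one_le_pow₀ ht1
      rw [pow_succ] at hM1 h3
      have h6 : ‖t‖ ≤ ‖t‖ ^ j * ‖t‖ := by nlinarith
      have h7 : ‖h‖ < ‖t‖ := by nlinarith
      have h8 : ‖h'‖ < ‖t‖ := by nlinarith
      refine ⟨by nlinarith, by nlinarith [norm_nonneg h'], by nlinarith⟩
  rw [e1, norm_neg] at e2
  have := (IsUltrametricDist.norm_add_le_max (t ^ j * h + lam * h') h'').trans_lt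
    (max_lt ((IsUltrametricDist.norm_add_le_max _ _).trans_lt (max_lt k.1 k.2.1)) k.2.2)
  linarith

/-- integral elements are bounded -/
theorem norm_le_one {x : Ω} (h : IsIntegral ℤ x) : ‖x‖ ≤ 1 := by
  obtain ⟨f, hf, hx⟩ := h
  by_contra h1
  rw [not_le] at h1
  rw [eval₂_eq_sum_range, Finset.sum_range_succ, hf.coeff_natDegree, map_one, one_mul,
    add_eq_zero_iff_neg_eq] at hx
  have h2 : ‖x ^ f.natDegree‖ ≤ ‖x‖ ^ f.natDegree / ‖x‖ := by
    rw [← hx, norm_neg]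
    refine IsUltrametricDist.norm_sum_le_of_forall_le_of_nonneg (by positivity) fun i hi => ?_
    rw [norm_mul, norm_pow, eq_intCast, le_div_iff₀ (by positivity), mul_assoc, ← pow_succ]
    exact (mul_le_of_le_one_left (by positivity) (IsUltrametricDist.norm_intCast_le_one Ω _)).trans
      (pow_le_pow_right₀ h1.le (Finset.mem_range.1 hi))
  rw [norm_pow] at h2
  exact absurd h2 (not_le.2 (div_lt_self (by positivity) h1))

end ultra

variable {r : ℕ} [Fact r.Prime]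

theorem norm_alg (x : ℚ_[r]) : ‖algebraMap ℚ_[r] (PadicAlgCl r) x‖ = ‖x‖ :=
  PadicAlgCl.norm_extends r x

theorem norm_r : ‖(r : PadicAlgCl r)‖ = (r : ℝ)⁻¹ := by
  rw [← map_natCast (algebraMap ℚ_[r] (PadicAlgCl r)), norm_alg, Padic.norm_p]

theorem norm_r_pos : 0 < ‖(r : PadicAlgCl r)‖ :=
  norm_pos_iff.2 (Nat.cast_ne_zero.2 (Fact.out : r.Prime).ne_zero)

theorem norm_r_lt : ‖(r : PadicAlgCl r)‖ < 1 := by
  rw [norm_r]
  exact inv_lt_one_of_one_lt₀ (by exact_mod_cast (Fact.out : r.Prime).one_lt)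

theorem norm_aut (g : PadicAlgCl r ≃ₐ[ℚ_[r]] PadicAlgCl r) (x : PadicAlgCl r) : ‖g x‖ = ‖x‖ :=
  (spectralNorm_eq_of_equiv g x).symm

theorem norm_root {x ρ : PadicAlgCl r} (h : aeval ρ (minpoly ℚ_[r] x) = 0) : ‖ρ‖ = ‖x‖ := by
  change spectralNorm ℚ_[r] _ ρ = spectralNorm ℚ_[r] _ x
  rw [spectralNorm, spectralNorm,
    ← minpoly.eq_of_root (Algebra.IsAlgebraic.isAlgebraic x) h]

theorem norm_root' {x ρ : PadicAlgCl r}
    (h : ((minpoly ℚ_[r] x).map (algebraMap ℚ_[r] (PadicAlgCl r))).IsRoot ρ) : ‖ρ‖ = ‖x‖ :=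
  norm_root (by rwa [IsRoot, eval_map_algebraMap] at h)

/-- absolute values are rational powers of the absolute value of `r` -/
theorem norm_pow_eq {x : PadicAlgCl r} (hx : x ≠ 0) :
    ∃ (a : ℕ) (b : ℤ), 0 < a ∧ ‖x‖ ^ a = ‖(r : PadicAlgCl r)‖ ^ b := by
  have hi : IsIntegral ℚ_[r] x := Algebra.IsIntegral.isIntegral x
  have h := coeff_zero_norm ((minpoly.monic hi).map (algebraMap ℚ_[r] (PadicAlgCl r)))
    fun ρ hρ => norm_root' hρ
  rw [coeff_map, norm_alg, natDegree_map,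
    Padic.norm_eq_zpow_neg_valuation (minpoly.coeff_zero_ne_zero hi hx)] at h
  exact ⟨_, _, minpoly.natDegree_pos hi, by rw [← h, norm_r, inv_zpow']⟩

theorem norm_pow_eq_nat {x : PadicAlgCl r} (hx : x ≠ 0) (h1 : ‖x‖ ≤ 1) :
    ∃ a b : ℕ, 0 < a ∧ ‖x‖ ^ a = ‖(r : PadicAlgCl r)‖ ^ b := by
  obtain ⟨a, b, ha, h⟩ := norm_pow_eq hx
  have hb : 0 ≤ b := by
    by_contra hb
    have h2 := one_lt_zpow_of_neg₀ (norm_r_pos (r := r)) norm_r_lt (not_le.1 hb)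
    have h3 := pow_le_one₀ (n := a) (norm_nonneg x) h1
    linarith
  obtain ⟨b, rfl⟩ := Int.eq_ofNat_of_zero_le hb
  exact ⟨a, b, ha, by rw [h, zpow_natCast]⟩

/-- a monic integral polynomial that vanishes on a finite set -/
theorem exists_poly (s : Finset (PadicAlgCl r)) (hs : ∀ x ∈ s, ‖x‖ ≤ 1) :
    ∃ μ : ℤ_[r][X], μ.Monic ∧ (∀ x ∈ s, μ.eval₂
        ((algebraMap ℚ_[r] (PadicAlgCl r)).comp (algebraMap ℤ_[r] ℚ_[r])) x = 0) ∧
      ((∀ x ∈ s, ‖x‖ = 1) → IsUnit (μ.coeff 0)) ∧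
      ((∀ x ∈ s, ‖x‖ < 1) → ∀ k < μ.natDegree, (r : ℤ_[r]) ∣ μ.coeff k) := by
  classical
  set ν : ℚ_[r][X] := ∏ x ∈ s, minpoly ℚ_[r] x with hν
  have hm : ν.Monic := monic_prod_of_monic _ _ fun x _ =>
    minpoly.monic (Algebra.IsIntegral.isIntegral x)
  have hm' := hm.map (algebraMap ℚ_[r] (PadicAlgCl r))
  have hr : ∀ ρ, (ν.map (algebraMap ℚ_[r] (PadicAlgCl r))).IsRoot ρ → ∃ x ∈ s, ‖ρ‖ = ‖x‖ :=
    fun ρ hρ => by
      rw [IsRoot, eval_map_algebraMap, hν, map_prod, Finset.prod_eq_zero_iff] at hρ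
      exact hρ.imp fun x hx => ⟨hx.1, norm_root hx.2⟩
  have h1 : ∀ k, ‖ν.coeff k‖ ≤ 1 := fun k => by
    have := (coeff_le hm' zero_le_one le_rfl (fun ρ hρ => by
      obtain ⟨x, hx, e⟩ := hr ρ hρ
      exact e ▸ hs x hx) k).1
    rwa [coeff_map, norm_alg] at this
  obtain ⟨μ, hμ, hd, hμm⟩ := lifts_and_natDegree_eq_and_monic
    (f := algebraMap ℤ_[r] ℚ_[r]) ((lifts_iff_coeff_lifts ν).2 fun k => ⟨⟨_, h1 k⟩, rfl⟩) hm
  have hc : ∀ k, ‖μ.coeff k‖ = ‖(ν.map (algebraMap ℚ_[r] (PadicAlgCl r))).coeff k‖ := fun k => by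
    rw [coeff_map, norm_alg, ← hμ, coeff_map]; rfl
  refine ⟨μ, hμm, fun x hx => ?_, fun h => ?_, fun h k hk => ?_⟩
  · rw [← eval₂_map, hμ, ← aeval_def, hν, map_prod]
    exact Finset.prod_eq_zero hx (minpoly.aeval _ _)
  · rw [PadicInt.isUnit_iff, hc, coeff_zero_norm hm' (c := 1) fun ρ hρ => by
      obtain ⟨x, hx, e⟩ := hr ρ hρ
      exact e.trans (h x hx), one_pow]
  · rw [← PadicInt.norm_lt_one_iff_dvd, hc]
    obtain ⟨c, hc0, hc1, hcs⟩ : ∃ c : ℝ, 0 ≤ c ∧ c < 1 ∧ ∀ x ∈ s, ‖x‖ ≤ c := by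
      rcases s.eq_empty_or_nonempty with rfl | hne
      · exact ⟨0, le_rfl, one_pos, by simp⟩
      · obtain ⟨x, hx, hx'⟩ := s.exists_max_image (fun x => ‖x‖) hne
        exact ⟨‖x‖, norm_nonneg _, h x hx, hx'⟩
    refine ((coeff_le hm' hc0 hc1.le (fun ρ hρ => ?_) k).2 (by rwa [natDegree_map, ← hd])).trans_lt
      hc1
    obtain ⟨x, hx, e⟩ := hr ρ hρ
    exact e ▸ hcs x hx

/-- `z` is `r ^ N` times an integral combination of the first `d` powers of `x` -/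
def Sm {B : Type*} [CommRing B] (κ : ℤ_[r] →+* B) (x : B) (d N : ℕ) (z : B) : Prop :=
  ∃ t : ℕ → ℤ_[r], z = ∑ i ∈ Finset.range d, κ (r ^ N * t i) * x ^ i

theorem exists_sum {μ : ℤ_[r][X]} (hμ : μ.Monic) (z : AdjoinRoot μ) : ∃ t : ℕ → ℤ_[r],
    z = ∑ i ∈ Finset.range (μ.natDegree + 1), AdjoinRoot.of μ (t i) * AdjoinRoot.root μ ^ i := by
  obtain ⟨p, rfl⟩ := AdjoinRoot.mk_surjective z
  refine ⟨(p %ₘ μ).coeff, ?_⟩
  have h1 : AdjoinRoot.mk μ p = AdjoinRoot.mk μ (p %ₘ μ) :=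
    AdjoinRoot.mk_eq_mk.2 ⟨p /ₘ μ, by linear_combination -modByMonic_add_div p μ⟩
  rw [h1, ← AdjoinRoot.aeval_eq,
    aeval_eq_sum_range' (Nat.lt_succ_of_le (natDegree_modByMonic_le p hμ))]
  simp only [Algebra.smul_def, AdjoinRoot.algebraMap_eq]

theorem sm_of_dvd {B : Type*} [CommRing B] (κ : ℤ_[r] →+* B) (x : B) {μ : ℤ_[r][X]} (hμ : μ.Monic)
    (hx : μ.eval₂ κ x = 0) {N : ℕ} {z : AdjoinRoot μ} (h : (r : AdjoinRoot μ) ^ N ∣ z) :
    Sm κ x (μ.natDegree + 1) N (AdjoinRoot.lift κ x hx z) := by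
  obtain ⟨w, rfl⟩ := h
  obtain ⟨t, rfl⟩ := exists_sum hμ w
  refine ⟨t, ?_⟩
  simp only [map_mul, map_pow, map_natCast, map_sum, AdjoinRoot.lift_of, AdjoinRoot.lift_root,
    Finset.mul_sum, mul_assoc]

theorem pw_lt {B : Type*} [CommRing B] (κ : ℤ_[r] →+* B) (x : B) {μ : ℤ_[r][X]} (hμ : μ.Monic)
    (hx : μ.eval₂ κ x = 0) (h : ∀ k < μ.natDegree, (r : ℤ_[r]) ∣ μ.coeff k) (N : ℕ) :
    ∀ᶠ n in atTop, Sm κ x (μ.natDegree + 1) N (x ^ n) := by
  have h1 : (r : AdjoinRoot μ) ∣ AdjoinRoot.root μ ^ μ.natDegree := by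
    have h2 := AdjoinRoot.eval₂_root μ
    rw [eval₂_eq_sum_range, Finset.sum_range_succ, hμ.coeff_natDegree, map_one, one_mul,
      add_eq_zero_iff_neg_eq] at h2
    rw [← h2, dvd_neg]
    refine Finset.dvd_sum fun i hi => Dvd.dvd.mul_right ?_ _
    simpa using map_dvd (AdjoinRoot.of μ) (h i (Finset.mem_range.1 hi))
  filter_upwards [eventually_ge_atTop (μ.natDegree * N)] with n hn
  have := sm_of_dvd κ x hμ hx (z := AdjoinRoot.root μ ^ n) ((pow_dvd_pow_of_dvd h1 N).trans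
    (by rw [← pow_mul]; exact pow_dvd_pow _ hn))
  rwa [map_pow, AdjoinRoot.lift_root] at this

theorem pw_eq {B : Type*} [CommRing B] (κ : ℤ_[r] →+* B) (x : B) {μ : ℤ_[r][X]} (hμ : μ.Monic)
    (hx : μ.eval₂ κ x = 0) (h : IsUnit (μ.coeff 0)) (N : ℕ) :
    ∀ᶠ n : ℕ in atTop, Sm κ x (μ.natDegree + 1) N (x ^ n.factorial - 1) := by
  let I : Ideal (AdjoinRoot μ) := Ideal.span {(r : AdjoinRoot μ) ^ N}
  have hfin : Finite (AdjoinRoot μ ⧸ I) := by
    refine Finite.of_surjective (fun f : Fin (μ.natDegree + 1) → Fin (r ^ N) =>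
      Ideal.Quotient.mk I (∑ i, ((f i).1 : AdjoinRoot μ) * AdjoinRoot.root μ ^ i.1)) fun z => ?_
    obtain ⟨z, rfl⟩ := Ideal.Quotient.mk_surjective z
    obtain ⟨t, rfl⟩ := exists_sum hμ z
    refine ⟨fun i => ⟨(t i).appr N, PadicInt.appr_lt _ _⟩, (Ideal.Quotient.eq.2 ?_).symm⟩
    rw [Finset.sum_range, ← Finset.sum_sub_distrib]
    refine Ideal.sum_mem _ fun i _ => ?_
    rw [← sub_mul]
    refine Ideal.mul_mem_right _ _ (Ideal.mem_span_singleton.2 ?_)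
    simpa using map_dvd (AdjoinRoot.of μ)
      (Ideal.mem_span_singleton.1 (PadicInt.appr_spec N (t i)))
  have hu : IsUnit (AdjoinRoot.root μ) := by
    have h2 := AdjoinRoot.eval₂_root μ
    rw [← μ.divX_mul_X_add, eval₂_add, eval₂_mul, eval₂_X, eval₂_C, μ.divX_mul_X_add,
      add_eq_zero_iff_neg_eq] at h2
    have h3 := h.map (AdjoinRoot.of μ)
    rw [← h2, IsUnit.neg_iff] at h3
    exact isUnit_of_mul_isUnit_right h3
  have hu' := hu.map (Ideal.Quotient.mk I)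
  filter_upwards [eventually_ge_atTop (Nat.card (AdjoinRoot μ ⧸ I)ˣ)] with n hn
  obtain ⟨c, hc⟩ := Nat.dvd_factorial Nat.card_pos hn
  have h1 : Ideal.Quotient.mk I (AdjoinRoot.root μ ^ n.factorial) = Ideal.Quotient.mk I 1 := by
    rw [map_pow, ← hu'.unit_spec, ← Units.val_pow_eq_pow_val, hc, pow_mul, pow_card_eq_one',
      one_pow, map_one, Units.val_one]
  have := sm_of_dvd κ x hμ hx (Ideal.mem_span_singleton.1 (Ideal.Quotient.eq.1 h1))
  rwa [map_sub, map_pow, AdjoinRoot.lift_root, map_one] at this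

section nf

variable {K : Type} [Field K] [NumberField K]

theorem val_nat (v : IsDedekindDomain.HeightOneSpectrum (𝓞 K)) (hv : (r : 𝓞 K) ∈ v.asIdeal)
    {n : ℕ} (hn : ¬ r ∣ n) : v.valuation K (n : K) = 1 := by
  rw [← map_natCast (algebraMap (𝓞 K) K), v.valuation_eq_one_iff_notMem]
  intro h
  obtain ⟨a, b, hab⟩ := Nat.isCoprime_iff_coprime.2
    ((Nat.Prime.coprime_iff_not_dvd Fact.out).2 hn)
  have h1 := congrArg (Int.cast : ℤ → 𝓞 K) hab
  push_cast at h1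
  exact v.isPrime.ne_top ((Ideal.eq_top_iff_one _).2
    (h1 ▸ add_mem (Ideal.mul_mem_left _ _ hv) (Ideal.mul_mem_left _ _ h)))

theorem val_rat (v : IsDedekindDomain.HeightOneSpectrum (𝓞 K)) (hv : (r : 𝓞 K) ∈ v.asIdeal)
    {q : ℚ} (hq : ‖(q : PadicAlgCl r)‖ ≤ 1) : v.valuation K (q : K) ≤ 1 := by
  rw [← map_ratCast (algebraMap ℚ_[r] (PadicAlgCl r)), norm_alg] at hq
  have h1 := PadicInt.isUnit_den q hq
  rw [PadicInt.isUnit_iff, PadicInt.norm_natCast_eq_one_iff,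
    Nat.Prime.coprime_iff_not_dvd Fact.out] at h1
  rw [Rat.cast_def, map_div₀, val_nat v hv h1, div_one, ← map_intCast (algebraMap (𝓞 K) K)]
  exact v.valuation_le_one _

/-- an element that is integral under all embeddings is integral at the primes over `r` -/
theorem emb_le (v : IsDedekindDomain.HeightOneSpectrum (𝓞 K)) (hv : (r : 𝓞 K) ∈ v.asIdeal) {x : K}
    (h : ∀ σ : K →+* PadicAlgCl r, ‖σ x‖ ≤ 1) : v.valuation K x ≤ 1 := by
  have hi : IsIntegral ℚ x := Algebra.IsIntegral.isIntegral x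
  have hm := minpoly.monic hi
  have h1 : ∀ k, v.valuation K ((minpoly ℚ x).coeff k : K) ≤ 1 := fun k => by
    refine val_rat v hv ?_
    have := (coeff_le (hm.map (algebraMap ℚ (PadicAlgCl r))) zero_le_one le_rfl (fun ρ hρ => by
      have h2 : ρ ∈ (minpoly ℚ x).rootSet (PadicAlgCl r) :=
        mem_rootSet.2 ⟨hm.ne_zero, by rwa [IsRoot, eval_map_algebraMap] at hρ⟩
      rw [← NumberField.Embeddings.range_eval_eq_rootSet_minpoly] at h2
      obtain ⟨σ, rfl⟩ := h2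
      exact h σ) k).1
    rwa [coeff_map, eq_ratCast] at this
  by_contra h2
  rw [not_le] at h2
  have h3 := minpoly.aeval ℚ x
  rw [aeval_eq_sum_range, Finset.sum_range_succ, hm.coeff_natDegree, one_smul,
    add_eq_zero_iff_neg_eq] at h3
  have h4 : v.valuation K (x ^ (minpoly ℚ x).natDegree) <
      v.valuation K x ^ (minpoly ℚ x).natDegree := by
    rw [← h3, Valuation.map_neg]
    refine Valuation.map_sum_lt _ (pow_ne_zero _ (zero_lt_one.trans h2).ne') fun i hi => ?_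
    rw [Algebra.smul_def, map_mul, map_pow, eq_ratCast]
    exact (mul_le_of_le_one_left' (h1 i)).trans_lt
      (pow_lt_pow_right₀ h2 (Finset.mem_range.1 hi))
  rw [map_pow] at h4
  exact lt_irrefl _ h4

theorem emb_eq (v : IsDedekindDomain.HeightOneSpectrum (𝓞 K)) (hv : (r : 𝓞 K) ∈ v.asIdeal)
    {x y : K} (hy : y ≠ 0) (h : ∀ σ : K →+* PadicAlgCl r, ‖σ x‖ = ‖σ y‖) :
    v.valuation K x = v.valuation K y := by
  have h0 : ∀ σ : K →+* PadicAlgCl r, ‖σ y‖ ≠ 0 := fun σ => by simpa using hy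
  have h1 := emb_le v hv (x := x / y) fun σ => by rw [map_div₀, norm_div, h, div_self (h0 σ)]
  have h2 := emb_le v hv (x := y / x) fun σ => by rw [map_div₀, norm_div, h, div_self (h0 σ)]
  have hx : x ≠ 0 := by
    rintro rfl
    obtain ⟨σ⟩ : Nonempty (K →+* PadicAlgCl r) := ⟨(IsAlgClosed.lift : K →ₐ[ℚ] _).toRingHom⟩
    exact h0 σ (by rw [← h, map_zero, norm_zero])
  rw [map_div₀, div_le_one₀ ((Valuation.pos_iff _).2 ‹_›)] at h1 h2
  exact le_antisymm h1 h2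

theorem norm_of_coprime (σ : K →+* PadicAlgCl r) {c : 𝓞 K} (hc : IsCoprime c (r : 𝓞 K)) :
    ‖σ c‖ = 1 := by
  have h1 : ∀ a : 𝓞 K, ‖σ a‖ ≤ 1 := fun a =>
    norm_le_one ((RingOfIntegers.isIntegral_coe a).map σ.toIntAlgHom)
  refine le_antisymm (h1 c) (not_lt.1 fun h => ?_)
  obtain ⟨a, b, hab⟩ := hc
  have h2 := congrArg (fun z : 𝓞 K => ‖σ z‖) hab
  simp only [map_add, map_mul, map_natCast, map_one, norm_one] at h2
  have h3 := IsUltrametricDist.norm_add_le_max (σ a * σ c) (σ b * r)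
  rw [norm_mul, norm_mul] at h3
  have h4 := (mul_le_of_le_one_left (norm_nonneg _) (h1 a)).trans_lt h
  have h5 := (mul_le_of_le_one_left (norm_nonneg _) (h1 b)).trans_lt (norm_r_lt (r := r))
  exact absurd (h2.symm.le.trans h3) (not_le.2 (max_lt h4 h5))

omit [Fact r.Prime] in
theorem split_ideal (I : Ideal (𝓞 K)) (hI : I ≠ 0) : ∃ (I₁ I₂ : Ideal (𝓞 K)) (n : ℕ), I = I₁ * I₂ ∧
    I₁ ∣ Ideal.span {(r : 𝓞 K)} ^ n ∧ IsCoprime I₂ (Ideal.span {(r : 𝓞 K)}) := by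
  induction I using UniqueFactorizationMonoid.induction_on_prime with
  | h₁ => exact absurd rfl hI
  | h₂ I h => exact ⟨1, I, 0, (one_mul _).symm, one_dvd _, by
      rw [isUnit_iff_eq_one.1 h]; exact isCoprime_one_left⟩
  | h₃ I 𝔭 h h𝔭 ih =>
    obtain ⟨I₁, I₂, n, rfl, h1, h2⟩ := ih h
    by_cases hd : 𝔭 ∣ Ideal.span {(r : 𝓞 K)}
    · exact ⟨𝔭 * I₁, I₂, n + 1, by ring, by rw [pow_succ']; exact mul_dvd_mul hd h1, h2⟩
    · refine ⟨I₁, 𝔭 * I₂, n, by ring, h1, IsCoprime.mul_left ?_ h2⟩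
      have hm := (Ideal.isPrime_of_prime h𝔭).isMaximal h𝔭.ne_zero
      rw [Ideal.isCoprime_iff_sup_eq]
      exact hm.1.2 _ (lt_of_le_of_ne le_sup_left fun e =>
        hd (Ideal.dvd_iff_le.2 (e ▸ le_sup_right)))

/-- a power of an integer has the absolute values over `r` of a divisor of a power of `r` -/
theorem nf_dec {b : 𝓞 K} (hb : b ≠ 0) : ∃ (h n : ℕ) (Γ : 𝓞 K), 0 < h ∧ Γ ∣ (r : 𝓞 K) ^ n ∧
    ∀ σ : K →+* PadicAlgCl r, ‖σ Γ‖ = ‖σ b‖ ^ h := by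
  obtain ⟨I₁, I₂, n, h1, h2, h3⟩ := split_ideal (r := r) (Ideal.span {b}) (by simpa using hb)
  have h0 : I₁ ≠ 0 := fun h => hb (by simpa [h] using h1)
  set h := Fintype.card (ClassGroup (𝓞 K))
  have h4 : (I₁ ^ h).IsPrincipal := by
    have := (ClassGroup.mk0_eq_one_iff (pow_mem (mem_nonZeroDivisors_of_ne_zero h0) h)).1 (by
      have e := map_pow ClassGroup.mk0 (⟨I₁, mem_nonZeroDivisors_of_ne_zero h0⟩ :
        nonZeroDivisors (Ideal (𝓞 K))) h
      rw [pow_card_eq_one] at e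
      exact e)
    exact this
  obtain ⟨Γ, hΓ⟩ := h4.principal
  have hΓ' : I₁ ^ h = Ideal.span {Γ} := hΓ
  have h5 : Ideal.span {b ^ h} = Ideal.span {Γ} * I₂ ^ h := by
    rw [← Ideal.span_singleton_pow, h1, mul_pow, hΓ']
  obtain ⟨c, hc⟩ : Γ ∣ b ^ h := Ideal.mem_span_singleton.1 (Ideal.dvd_span_singleton.1 ⟨_, h5⟩)
  have h6 : Ideal.span {c} = I₂ ^ h := by
    refine mul_left_cancel₀ (hΓ' ▸ pow_ne_zero h h0 : Ideal.span {Γ} ≠ 0) ?_
    rw [← h5, hc, Ideal.span_singleton_mul_span_singleton]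
  refine ⟨h, n * h, Γ, Fintype.card_pos, ?_, fun σ => ?_⟩
  · rw [← Ideal.mem_span_singleton, ← Ideal.dvd_span_singleton, ← hΓ', ← Ideal.span_singleton_pow,
      pow_mul]
    exact pow_dvd_pow_of_dvd h2 h
  · have h7 := congrArg (fun z : 𝓞 K => ‖σ z‖) hc
    simp only [map_mul, map_pow, norm_mul, norm_pow] at h7
    have h8 := norm_of_coprime σ (c := c) (by
      rw [← Ideal.isCoprime_span_singleton_iff, h6]; exact h3.pow_left)
    change ‖σ (algebraMap _ K c)‖ = 1 at h8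
    rw [h8, mul_one] at h7
    exact h7.symm

end nf

end Pool.Agent.P.MP_b8021b_nt.VC.Rad
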