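import Pool.Agent.P.MP_b8021b_nt.VC.PRad1
import Pool.Agent.P.MP_b8021b_nt.VC.BasicC
import Pool.Agent.P.MP_b8021b_nt.VC.BasicA

/-! The local construction: a function with a prescribed class modulo `g` whose zeros lie on a
level set of a given function. -/

namespace Pool.Agent.P.MP_b8021b_nt.VC.Rad

open Polynomial Filter Finset

variable {r : ℕ} [Fact r.Prime] {F : IntermediateField ℚ_[r] (PadicAlgCl r)} {A : Type}
  [CommRing A] [Algebra F A]

theorem map_smul' (P : A →ₐ[F] PadicAlgCl r) (c : F) (a : A) : P (c • a) = c * P a := by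
  rw [map_smul]; rfl

theorem inf_fam (hI : S_Inf) (cv : Cv F A) {s : A} (hs : 0 < cv.δ s) (j : ℕ) {I : Type}
    [Fintype I] (b : I → A) (hb : ∀ i, cv.δ (b i) ≤ j * cv.δ s) :
    ∃ C : ℝ, 0 < C ∧ ∀ (c : I → F) (η : ℝ), 0 ≤ η → (∀ i, ‖(c i : PadicAlgCl r)‖ ≤ η) →
      ∀ P : A →ₐ[F] PadicAlgCl r, ‖P (∑ i, c i • b i)‖ ≤ η * C * max 1 ‖P s‖ ^ j := by
  choose C hC h using fun i => hI F A (PadicAlgCl r) cv s (b i) hs
  have h0 : 0 ≤ ∑ i, C i := sum_nonneg fun i _ => (hC i).le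
  refine ⟨1 + ∑ i, C i, by positivity, fun c η hη hc P => ?_⟩
  have hT : 1 ≤ max 1 ‖P s‖ := le_max_left _ _
  rw [map_sum]
  refine IsUltrametricDist.norm_sum_le_of_forall_le_of_nonneg (by positivity) fun i _ => ?_
  rw [map_smul', norm_mul, mul_assoc]
  refine mul_le_mul (hc i) ?_ (norm_nonneg _) hη
  refine le_of_pow_le_pow_left₀ hs.ne' (by positivity) ((h i P).trans ?_)
  rw [mul_pow, ← pow_mul]
  refine mul_le_mul ?_ (pow_le_pow_right₀ hT (hb i)) (by positivity) (by positivity)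
  have h1 := single_le_sum (f := C) (fun i _ => (hC i).le) (mem_univ i)
  exact (by linarith : C i ≤ 1 + ∑ i, C i).trans (le_self_pow₀ (by linarith) hs.ne')

/-- `a` is congruent to a small combination of the `b i` -/
def Nb (g : A) {I : Type} [Fintype I] (b : I → A) (η : ℝ) (a : A) : Prop :=
  ∃ c : I → F, (∀ i, ‖(c i : PadicAlgCl r)‖ ≤ η) ∧ g ∣ a - ∑ i, c i • b i

section Nb

variable {g : A} {I : Type} [Fintype I] {b : I → A} {η η' : ℝ} {a a' : A}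

theorem Nb.mono (h : Nb (F := F) g b η a) (hη : η ≤ η') : Nb (F := F) g b η' a :=
  h.imp fun _ hc => ⟨fun i => (hc.1 i).trans hη, hc.2⟩

theorem Nb.congr (h : Nb (F := F) g b η a) (h' : g ∣ a' - a) : Nb (F := F) g b η a' :=
  h.imp fun _ hc => ⟨hc.1, by simpa using dvd_add h' hc.2⟩

theorem Nb.add (h : Nb (F := F) g b η a) (h' : Nb (F := F) g b η a') :
    Nb (F := F) g b η (a + a') := by
  obtain ⟨c, h1, h2⟩ := h
  obtain ⟨c', h1', h2'⟩ := h'
  refine ⟨c + c', fun i => (IsUltrametricDist.norm_add_le_max _ _).trans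
    (max_le (h1 i) (h1' i)), (dvd_add h2 h2').trans (dvd_of_eq ?_)⟩
  simp only [Pi.add_apply, add_smul, sum_add_distrib]
  ring

theorem Nb.smul (h : Nb (F := F) g b η a) (t : F) :
    Nb (F := F) g b (‖(t : PadicAlgCl r)‖ * η) (t • a) := by
  obtain ⟨c, h1, h2⟩ := h
  refine ⟨fun i => t * c i, fun i => ?_, ?_⟩
  · rw [MulMemClass.coe_mul, norm_mul]
    exact mul_le_mul_of_nonneg_left (h1 i) (norm_nonneg _)
  · simp only [mul_smul]
    rw [← smul_sum, ← smul_sub, Algebra.smul_def]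
    exact h2.mul_left _

theorem Nb.sub (h : Nb (F := F) g b η a) (h' : Nb (F := F) g b η a') :
    Nb (F := F) g b η (a - a') := by
  have := h.add (by simpa using h'.smul (-1))
  rwa [sub_eq_add_neg]

theorem nb_sum (hη : 0 ≤ η) {ι : Type*} (s : Finset ι) (f : ι → A)
    (h : ∀ i ∈ s, Nb (F := F) g b η (f i)) : Nb (F := F) g b η (∑ i ∈ s, f i) :=
  Finset.sum_induction f _ (fun _ _ => Nb.add) ⟨0, fun _ => by simpa using hη, by simp⟩ h

/-- the structure map -/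
noncomputable def kap (F : IntermediateField ℚ_[r] (PadicAlgCl r)) : ℤ_[r] →+* F :=
  (algebraMap ℚ_[r] F).comp (algebraMap ℤ_[r] ℚ_[r])

theorem norm_kap (t : ℤ_[r]) : ‖(kap F t : PadicAlgCl r)‖ = ‖t‖ := norm_alg (t : ℚ_[r])

theorem nb_of_sm (hb : ∀ a, ∃ c : I → F, g ∣ a - ∑ i, c i • b i) (x m : A) (d : ℕ) (hη : 0 < η) :
    ∃ N, ∀ z, Sm (((Ideal.Quotient.mk (Ideal.span {g})).comp (algebraMap F A)).comp (kap F))
      (Ideal.Quotient.mk _ x) d N (Ideal.Quotient.mk _ z) → Nb (F := F) g b η (m * z) := by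
  choose c hc using hb
  set M : ℝ := 1 + ∑ k ∈ range d, ∑ i, ‖(c (m * x ^ k) i : PadicAlgCl r)‖ with hM
  have hM0 : 0 < M := by positivity
  have h1 : ∀ k ∈ range d, Nb (F := F) g b M (m * x ^ k) := fun k hk => ⟨_, fun i => by
    have h2 := single_le_sum (f := fun i => ‖(c (m * x ^ k) i : PadicAlgCl r)‖)
      (fun _ _ => norm_nonneg _) (mem_univ i)
    have h3 := single_le_sum (f := fun k => ∑ i, ‖(c (m * x ^ k) i : PadicAlgCl r)‖)
      (fun _ _ => by positivity) hk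
    linarith, hc _⟩
  obtain ⟨N, hN⟩ := exists_pow_lt_of_lt_one (div_pos hη hM0)
    (PadicInt.norm_lt_one_iff_dvd (r : ℤ_[r]) |>.2 dvd_rfl)
  refine ⟨N, fun z ⟨t, ht⟩ => (nb_sum hη.le (range d) (fun k => kap F (r ^ N * t k) • (m * x ^ k))
    fun k hk => ((h1 k hk).smul _).mono ?_).congr ?_⟩
  · rw [norm_kap, ← le_div_iff₀ hM0, norm_mul, norm_pow]
    exact (mul_le_of_le_one_right (by positivity) (t k).norm_le_one).trans hN.le
  · rw [← Ideal.mem_span_singleton, ← Ideal.Quotient.eq, map_mul, ht, map_sum, mul_sum]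
    refine sum_congr rfl fun k _ => ?_
    rw [Algebra.smul_def, map_mul _ (algebraMap F A _), map_mul _ m, map_pow _ x, mul_left_comm]
    rfl

end Nb

variable (hP : S_Pts) (cv : Cv F A)
include hP cv

theorem exists_pt {𝔪 : Ideal A} (h : 𝔪.IsMaximal) :
    ∃ P : A →ₐ[F] PadicAlgCl r, RingHom.ker P = 𝔪 :=
  (hP F A (PadicAlgCl r) cv).2.2.2.2.2.1 𝔪 h

theorem ker_max (P : A →ₐ[F] PadicAlgCl r) : (RingHom.ker P).IsMaximal :=
  ((hP F A (PadicAlgCl r) cv).2.2.2.2.1 P).1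

theorem norm_of_ker {P Q : A →ₐ[F] PadicAlgCl r} (h : RingHom.ker P = RingHom.ker Q) (a : A) :
    ‖Q a‖ = ‖P a‖ := by
  obtain ⟨g, hg⟩ := (hP F A (PadicAlgCl r) cv).2.2.2.2.2.2.1 P Q h
  rw [hg]
  exact norm_aut (g.restrictScalars ℚ_[r]) _

theorem dvd_pow {g z : A} (hg : g ≠ 0) (h : ∀ P : A →ₐ[F] PadicAlgCl r, P g = 0 → P z = 0) :
    ∃ k, g ∣ z ^ k := by
  have := cv.ded
  have h1 : z ∈ (Ideal.span {g}).radical := by
    rw [Ideal.radical_eq_sInf]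
    refine Ideal.mem_sInf.2 fun {J} hJ => ?_
    have h2 : g ∈ J := hJ.1 (Ideal.mem_span_singleton_self g)
    obtain ⟨P, rfl⟩ := exists_pt hP cv (hJ.2.isMaximal fun h0 => hg (by simpa [h0] using h2))
    exact h P h2
  exact h1.imp fun _ hk => Ideal.mem_span_singleton.1 hk

theorem exists_inv {g u : A} (h : ∀ P : A →ₐ[F] PadicAlgCl r, P g = 0 → P u ≠ 0) :
    ∃ u', g ∣ u * u' - 1 := by
  obtain ⟨a, b, hab⟩ : IsCoprime g u := VE.isCoprime_of_forall fun 𝔪 h1 h2 => by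
    obtain ⟨P, hP'⟩ := exists_pt hP cv 𝔪.isMaximal
    rw [← hP'] at h1 h2
    exact h P h1 h2
  exact ⟨b, -a, by linear_combination hab⟩

theorem exists_poly' {g : A} (hg : g ≠ 0) {x : A}
    (hx : ∀ P : A →ₐ[F] PadicAlgCl r, P g = 0 → ‖P x‖ ≤ 1) : ∃ μ : ℤ_[r][X], μ.Monic ∧
      μ.eval₂ (((Ideal.Quotient.mk (Ideal.span {g})).comp (algebraMap F A)).comp (kap F))
        (Ideal.Quotient.mk _ x) = 0 ∧
      ((∀ P : A →ₐ[F] PadicAlgCl r, P g = 0 → ‖P x‖ = 1) → IsUnit (μ.coeff 0)) ∧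
      ((∀ P : A →ₐ[F] PadicAlgCl r, P g = 0 → ‖P x‖ < 1) →
        ∀ k < μ.natDegree, (r : ℤ_[r]) ∣ μ.coeff k) := by
  classical
  have hfin := zeros_finite' (Ω := PadicAlgCl r) hP cv hg
  have hall : ∀ {q : PadicAlgCl r → Prop}, (∀ P : A →ₐ[F] PadicAlgCl r, P g = 0 → q (P x)) →
      ∀ y ∈ hfin.toFinset.image fun P => P x, q y := fun h y hy => by
    obtain ⟨P, h1, rfl⟩ := mem_image.1 hy
    exact h P (hfin.mem_toFinset.1 h1)
  obtain ⟨μ, hm, h1, h2, h3⟩ := exists_poly _ (hall (q := fun y => ‖y‖ ≤ 1) hx)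
  obtain ⟨k, hk⟩ := dvd_pow hP cv (z := μ.eval₂ ((algebraMap F A).comp (kap F)) x) hg fun P h => by
    have := hom_eval₂ μ ((algebraMap F A).comp (kap F)) (P : A →+* PadicAlgCl r) x
    refine this.trans ?_
    rw [← h1 (P x) (mem_image_of_mem _ (hfin.mem_toFinset.2 h))]
    congr 1
    exact RingHom.ext fun t => P.commutes _
  refine ⟨μ ^ k, hm.pow k, ?_, fun h => ?_, fun h i hi => ?_⟩
  · rw [eval₂_pow, RingHom.comp_assoc, ← hom_eval₂, ← map_pow, Ideal.Quotient.eq_zero_iff_mem]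
    exact Ideal.mem_span_singleton.2 hk
  · rw [coeff_zero_eq_eval_zero, eval_pow, ← coeff_zero_eq_eval_zero]
    exact (h2 (hall (q := fun y => ‖y‖ = 1) h)).pow k
  · have h4 : C (r : ℤ_[r]) ∣ μ - X ^ μ.natDegree := (C_dvd_iff_dvd_coeff _ _).2 fun i => by
      rw [coeff_sub, coeff_X_pow]
      rcases lt_trichotomy i μ.natDegree with h5 | h5 | h5
      · rw [if_neg h5.ne, sub_zero]
        exact h3 (hall (q := fun y => ‖y‖ < 1) h) i h5
      · rw [if_pos h5, h5, hm.coeff_natDegree, sub_self]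
        exact dvd_zero _
      · rw [if_neg h5.ne', coeff_eq_zero_of_natDegree_lt h5, sub_self]
        exact dvd_zero _
    have h5 := (C_dvd_iff_dvd_coeff _ _).1 (h4.trans (sub_dvd_pow_sub_pow _ _ k)) i
    rw [hm.natDegree_pow] at hi
    rwa [coeff_sub, ← pow_mul, coeff_X_pow, if_neg (by rw [mul_comm]; exact hi.ne),
      sub_zero] at h5

theorem exists_idem {g : A} (hg : g ≠ 0) (P₀ : A →ₐ[F] PadicAlgCl r) :
    ∃ ε : A, g ∣ ε * (1 - ε) ∧ ∀ P : A →ₐ[F] PadicAlgCl r, P g = 0 →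
      (RingHom.ker P = RingHom.ker P₀ → P ε = 1) ∧ (RingHom.ker P ≠ RingHom.ker P₀ → P ε = 0) := by
  classical
  have := cv.ded
  have hm := ker_max hP cv P₀
  obtain ⟨k, J, h1, h2⟩ : ∃ k J, RingHom.ker P₀ ⊔ J = ⊤ ∧
      Ideal.span {g} = RingHom.ker P₀ ^ k * J :=
    ⟨_, Ideal.eq_prime_pow_mul_coprime (span_ne_bot hg) (RingHom.ker P₀)⟩
  obtain ⟨a, ha, ε, hε, hab⟩ := Ideal.isCoprime_iff_exists.1
    ((Ideal.isCoprime_iff_sup_eq.2 h1).pow_left (m := k + 1))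
  have e : 1 - ε = a := by linear_combination -hab
  refine ⟨ε, ?_, fun P hg' => ⟨fun h => ?_, fun h => ?_⟩⟩
  · rw [← Ideal.mem_span_singleton, h2, e, mul_comm ε]
    exact Ideal.mul_mem_mul (Ideal.pow_le_pow_right k.le_succ ha) hε
  · have h3 : a ∈ RingHom.ker P := h ▸ Ideal.pow_le_self k.succ_ne_zero ha
    rw [← e, RingHom.mem_ker, map_sub, map_one, sub_eq_zero] at h3
    exact h3.symm
  · have hm' := ker_max hP cv P
    have h3 := span_le_ker.2 hg'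
    rw [h2] at h3
    rcases hm'.isPrime.mul_le.1 h3 with h4 | h4
    · exact absurd (hm.eq_of_le hm'.ne_top (hm'.isPrime.le_of_pow_le h4)).symm h
    · exact h4 hε

omit hP cv in
theorem idem_pow {B : Type*} [CommRing B] {ε : B} (h : ε * (1 - ε) = 0) (a b : B) (n : ℕ) :
    (a * (1 - ε) + b * ε) ^ n = a ^ n * (1 - ε) + b ^ n * ε := by
  induction n with
  | zero => simp
  | succ n ih =>
    rw [pow_succ, ih]
    linear_combination (a ^ n * b + b ^ n * a - a ^ (n + 1) - b ^ (n + 1)) * h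

theorem build (hI : S_Inf) (hCv : S_Cv) {g s Γ : A} (hg : g ≠ 0) (P₀ : A →ₐ[F] PadicAlgCl r)
    {c₁ c₃ : ℝ} (hs : 0 < cv.δ s) (hsurj : ∀ a, ∃ b ∈ cv.L (cv.δ s), a - b ∈ Ideal.span {g})
    (hc₁ : 0 < c₁) (hc₃ : c₃ ≤ 1) (hc₃' : 0 < c₃) (h₀ : ‖P₀ s‖ ≤ c₁)
    (h₁ : ∀ P : A →ₐ[F] PadicAlgCl r, P g = 0 → RingHom.ker P ≠ RingHom.ker P₀ → c₃ ≤ ‖P s‖)
    {j l : ℕ} (hj : 0 < j) (hΓ : ∀ P : A →ₐ[F] PadicAlgCl r, P g = 0 →
      (RingHom.ker P = RingHom.ker P₀ → ‖P Γ‖ = ‖(r : PadicAlgCl r)‖ ^ l) ∧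
      (RingHom.ker P ≠ RingHom.ker P₀ → ‖P Γ‖ = ‖P s‖ ^ j))
    (w₁ : c₁ ^ j < ‖(r : PadicAlgCl r)‖ ^ l) (w₃ : ‖(r : PadicAlgCl r)‖ ^ l < c₃ ^ j) (N₀ : ℕ) :
    ∃ n, N₀ ≤ n ∧ ∃ S, cv.δ S ≤ j * n.factorial * cv.δ s ∧ g ∣ S - Γ ^ n.factorial ∧
      ∀ (I : Type) [Fintype I] (b : I → A), (∀ i, cv.δ (b i) ≤ j * n.factorial * cv.δ s) →
        ∃ η : ℝ, 0 < η ∧ ∀ c : I → F, (∀ i, ‖(c i : PadicAlgCl r)‖ ≤ η) →
          ∀ P : A →ₐ[F] PadicAlgCl r, P (S + ∑ i, c i • b i) = 0 →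
            ‖P s‖ ^ j = ‖(r : PadicAlgCl r)‖ ^ l := by
  have := cv.ded
  have := ((hCv F A cv).2.2.2.2.2.1 (cv.δ s)).1
  let β := Module.finBasis F (cv.L (cv.δ s))
  have hβ : ∀ i, cv.δ (β i : A) ≤ 1 * cv.δ s := fun i => (one_mul (cv.δ s)).symm ▸ (β i).2
  have hb : ∀ a, ∃ c : Fin _ → F, g ∣ a - ∑ i, c i • (β i : A) := fun a => by
    obtain ⟨b, h1, h2⟩ := hsurj a
    refine ⟨β.repr ⟨b, h1⟩, ?_⟩
    have := congrArg (fun x : cv.L (cv.δ s) => (x : A)) (β.sum_repr ⟨b, h1⟩)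
    simp only [AddSubmonoidClass.coe_finsetSum, SetLike.val_smul] at this
    rw [this]
    exact Ideal.mem_span_singleton.1 h2
  obtain ⟨C, hC, hCb⟩ := inf_fam hI cv hs 1 _ hβ
  obtain ⟨ε, hε, hε'⟩ := exists_idem hP cv hg P₀
  set ρ := ‖(r : PadicAlgCl r)‖ ^ l with hρ
  have hρ0 : 0 < ρ := pow_pos norm_r_pos l
  have hρ1 : ρ < 1 := w₃.trans_le (pow_le_one₀ hc₃'.le hc₃)
  set u := s ^ j * (1 - ε) + (r : A) ^ l * ε with hu
  set v := (r : A) ^ l * (1 - ε) + s ^ j * ε with hv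
  have key : ∀ P : A →ₐ[F] PadicAlgCl r, P g = 0 → ‖P Γ‖ = ‖P u‖ ∧ ‖P v‖ < ‖P u‖ := fun P h => by
    simp only [hu, hv, map_add, map_mul, map_sub, map_pow, map_natCast, map_one]
    by_cases hk : RingHom.ker P = RingHom.ker P₀
    · simp only [(hε' P h).1 hk, sub_self, mul_zero, mul_one, zero_add, norm_pow]
      refine ⟨(hΓ P h).1 hk, lt_of_le_of_lt (pow_le_pow_left₀ (norm_nonneg _) ?_ j) w₁⟩
      rwa [norm_of_ker hP cv hk.symm]
    · simp only [(hε' P h).2 hk, sub_zero, mul_zero, mul_one, add_zero, norm_pow]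
      exact ⟨(hΓ P h).2 hk, w₃.trans_le (pow_le_pow_left₀ hc₃'.le (h₁ P h hk) j)⟩
  have hu0 : ∀ P : A →ₐ[F] PadicAlgCl r, P g = 0 → 0 < ‖P u‖ := fun P h =>
    (norm_nonneg _).trans_lt (key P h).2
  obtain ⟨u', hu'⟩ := exists_inv hP cv fun P h => norm_pos_iff.1 (hu0 P h)
  have hinv : ∀ P : A →ₐ[F] PadicAlgCl r, P g = 0 → ‖P u‖ * ‖P u'‖ = 1 := fun P h => by
    have := map_dvd P hu'
    rw [h, zero_dvd_iff, map_sub, map_mul, map_one, sub_eq_zero] at this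
    rw [← norm_mul, this, norm_one]
  have hx : ∀ P : A →ₐ[F] PadicAlgCl r, P g = 0 → ‖P (Γ * u')‖ = 1 := fun P h => by
    rw [map_mul, norm_mul, (key P h).1, hinv P h]
  have hy : ∀ P : A →ₐ[F] PadicAlgCl r, P g = 0 → ‖P (v * u')‖ < 1 := fun P h => by
    rw [map_mul, norm_mul, ← hinv P h]
    refine mul_lt_mul_of_pos_right (key P h).2 (pos_of_mul_pos_left ?_ (norm_nonneg (P u)))
    rw [mul_comm, hinv P h]
    exact one_pos
  obtain ⟨μ, a1, a2, a3, -⟩ := exists_poly' hP cv hg fun P h => (hx P h).le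
  obtain ⟨ν, b1, b2, -, b3⟩ := exists_poly' hP cv hg fun P h => (hy P h).le
  have hη : 0 < c₁ / 2 / C := by positivity
  have small : ∀ m, ∀ᶠ n : ℕ in atTop, Nb (F := F) g (fun i => (β i : A)) (c₁ / 2 / C)
      (m * ((Γ * u') ^ n.factorial - 1 - (v * u') ^ n.factorial)) := fun m => by
    obtain ⟨N, hN⟩ := nb_of_sm hb (Γ * u') m (μ.natDegree + 1) hη
    obtain ⟨N', hN'⟩ := nb_of_sm hb (v * u') m (ν.natDegree + 1) hη
    filter_upwards [pw_eq _ _ a1 a2 (a3 hx) N, (tendsto_atTop_mono Nat.self_le_factorial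
      tendsto_id).eventually (pw_lt _ _ b1 b2 (b3 hy) N')] with n h1 h2
    rw [mul_sub]
    exact (hN _ (by rwa [map_sub, map_pow, map_one])).sub (hN' _ (by rwa [map_pow]))
  obtain ⟨n, hn, ⟨c, hc, hc'⟩, c', hd, hd'⟩ :=
    ((eventually_ge_atTop N₀).and ((small (s * (1 - ε))).and (small ε))).exists
  obtain ⟨k, hk⟩ : ∃ k, j * n.factorial = k + 1 :=
    ⟨_, (Nat.succ_pred_eq_of_pos (Nat.mul_pos hj n.factorial_pos)).symm⟩
  set h := ∑ i, c i • (β i : A) with hh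
  set h' := ∑ i, c' i • (β i : A) with hh'
  have hL : ∀ c : Fin _ → F, cv.δ (∑ i, c i • (β i : A)) ≤ cv.δ s := fun c =>
    Submodule.sum_mem (cv.L (cv.δ s)) fun i _ => Submodule.smul_mem _ _ (β i).2
  refine ⟨n, hn, s ^ k * (s + h) + (r : A) ^ (l * n.factorial) * (1 + h'), ?_, ?_,
    fun I _ b hb => ?_⟩
  · rw [hk]
    refine (cv.add _ _).trans (max_le ((cv.mul_le _ _).trans ?_) ((cv.mul_le _ _).trans ?_))
    · have := (cv.add s h).trans (max_le le_rfl (hL c))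
      rw [cv.pow, add_mul]
      omega
    · have h1 := (cv.add 1 h').trans (max_le (cv.one.trans_le (Nat.zero_le _)) (hL c'))
      have h2 := cv.const (r : F)
      rw [map_natCast] at h2
      rw [cv.pow, h2, add_mul]
      omega
  · rw [← Ideal.mem_span_singleton, ← Ideal.Quotient.eq] at hc' hd' hu' ⊢
    rw [← Ideal.mem_span_singleton, ← Ideal.Quotient.eq_zero_iff_mem] at hε
    simp only [map_add, map_mul, map_sub, map_pow, map_one, map_natCast] at hc' hd' hu' hε ⊢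
    rw [← hc', ← hd']
    have e1 := idem_pow hε (Ideal.Quotient.mk _ s ^ j) ((r : A ⧸ Ideal.span {g}) ^ l) n.factorial
    have e2 := idem_pow hε ((r : A ⧸ Ideal.span {g}) ^ l) (Ideal.Quotient.mk _ s ^ j) n.factorial
    have e3 := congrArg (· ^ n.factorial) hu'
    simp only [hu, hv, map_add, map_mul, map_sub, map_pow, map_one, map_natCast, mul_pow, e1, e2,
      one_pow] at e3 ⊢
    rw [← pow_mul, ← pow_mul, hk] at e3 ⊢
    linear_combination (Ideal.Quotient.mk (Ideal.span {g}) Γ ^ n.factorial -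
      ((r : A ⧸ Ideal.span {g}) ^ (l * n.factorial) * (1 - Ideal.Quotient.mk (Ideal.span {g}) ε) +
        Ideal.Quotient.mk (Ideal.span {g}) s ^ (k + 1) * Ideal.Quotient.mk (Ideal.span {g}) ε)) * e3
  · obtain ⟨C', hC', hb'⟩ := inf_fam hI cv hs _ b hb
    have hl : ‖(r : PadicAlgCl r) ^ (l * n.factorial)‖ = ρ ^ n.factorial := by
      rw [norm_pow, pow_mul]
    have hρn : 0 < ρ ^ n.factorial := pow_pos hρ0 _
    refine ⟨ρ ^ n.factorial / 2 / C', by positivity, fun c'' hc'' P hP0 => ?_⟩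
    have e1 := hCb c _ hη.le hc P
    have e2 := hCb c' _ hη.le hd P
    have e3 := hb' c'' _ (by positivity) hc'' P
    rw [div_mul_cancel₀ _ hC.ne', pow_one] at e1 e2
    rw [div_mul_cancel₀ _ hC'.ne', hk] at e3
    have := zero_norm (lam := (r : PadicAlgCl r) ^ (l * n.factorial)) hc₁ (half_lt_self hc₁)
      (by rw [hl, ← hk, pow_mul]; exact pow_lt_pow_left₀ w₁ (by positivity) n.factorial_ne_zero)
      (by rw [hl]; exact pow_lt_one₀ hρ0.le hρ1 n.factorial_ne_zero)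
      (by rw [hl]; exact half_lt_self hρn) e1 e2 e3
      (by simpa only [map_add, map_mul, map_pow, map_natCast, map_one] using hP0)
    rw [hl, ← hk, pow_mul] at this
    exact (pow_left_inj₀ (by positivity) hρ0.le n.factorial_ne_zero).1 this

end Pool.Agent.P.MP_b8021b_nt.VC.Rad
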