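import Pool.Agent.P.MP_b8021b_nt.VC.PRad2

/-! From the local construction to integral sections. -/

namespace Pool.Agent.P.MP_b8021b_nt.VC.Rad

open Polynomial Finset NumberField Pool.Agent.P.MP_b8021b_nt.VE
open scoped TensorProduct

section gen

variable {R A : Type} [CommRing R] [Algebra ℤ[X] R] [CommRing A]

theorem root_pt (T : Tab R) {Ω : Type} [Field Ω] [IsAlgClosed Ω] {θ : Ω} {x : R}
    (h : aeval θ (Algebra.norm ℤ[X] x) = 0) : ∃ f : R →+* Ω, f (zR R) = θ ∧ f x = 0 := by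
  let _ : Algebra ℤ[X] Ω := (aeval θ : ℤ[X] →ₐ[ℤ] Ω).toRingHom.toAlgebra
  have := Module.Free.of_basis T.y
  have := Module.Finite.of_basis T.y
  have h1 : ¬ IsUnit ((1 : Ω) ⊗ₜ[ℤ[X]] x) := fun hu => by
    have h2 := hu.map (Algebra.norm Ω)
    rw [Algebra.norm_apply, ← Algebra.baseChange_lmul, LinearMap.det_baseChange,
      ← Algebra.norm_apply] at h2
    exact h2.ne_zero h
  obtain ⟨𝔪, h2, h3⟩ := exists_max_ideal_of_mem_nonunits h1
  let _ := Ideal.Quotient.field 𝔪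
  let f : ((Ω ⊗[ℤ[X]] R) ⧸ 𝔪) →ₐ[Ω] Ω := IsAlgClosed.lift
  refine ⟨(f.comp (Ideal.Quotient.mkₐ Ω 𝔪)).toRingHom.comp
    (Algebra.TensorProduct.includeRight (R := ℤ[X]) (A := Ω) (B := R)).toRingHom, ?_, ?_⟩
  · have e : Algebra.TensorProduct.includeRight (R := ℤ[X]) (A := Ω) (zR R) =
        algebraMap Ω (Ω ⊗[ℤ[X]] R) θ := by
      rw [zR, AlgHom.commutes, IsScalarTower.algebraMap_apply ℤ[X] Ω]
      exact congrArg _ (aeval_X θ)
    exact (congrArg (f.comp (Ideal.Quotient.mkₐ Ω 𝔪)) e).trans (AlgHom.commutes _ θ)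
  · exact (congrArg f (Ideal.Quotient.eq_zero_iff_mem.2 h3)).trans (map_zero f)

theorem dvd_of_dvd (T : Tab R) {j : R →+* A} (hj : Gen j) {G : ℤ[X]} (hG : G.Monic) {x : R}
    (h : j (algebraMap ℤ[X] R G) ∣ j x) : algebraMap ℤ[X] R G ∣ x := by
  obtain ⟨a, ha⟩ := h
  obtain ⟨n, g, hn, hg⟩ := hj.surj a
  have h1 : algebraMap ℤ[X] R (C (n : ℤ)) * x = algebraMap ℤ[X] R G * g := hj.inj (by
    rw [map_mul, map_mul, ← hg, ha]
    simp only [map_natCast]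
    ring)
  rw [← T.el_repr x, ← T.el_mul] at h1
  rw [← T.el_repr x, T.alg_dvd_el]
  intro i
  have h2 := (modByMonic_eq_zero_iff_dvd hG).2 (T.alg_dvd_el.1 ⟨g, h1⟩ i)
  rw [← smul_eq_C_mul, smul_modByMonic, smul_eq_zero] at h2
  exact (modByMonic_eq_zero_iff_dvd hG).1 (h2.resolve_left (by exact_mod_cast hn.ne'))

/-- a polynomial from its coefficients -/
noncomputable def pl {d : ℕ} (u : Fin (d + 1) → ℤ) : ℤ[X] := ∑ a, C (u a) * X ^ a.1

theorem natDegree_pl {d : ℕ} (u : Fin (d + 1) → ℤ) : (pl u).natDegree ≤ d :=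
  natDegree_sum_le_of_forall_le _ _ fun a _ =>
    (natDegree_C_mul_X_pow_le _ _).trans (Nat.lt_succ_iff.1 a.2)

theorem coeff_pl {d : ℕ} (u : Fin (d + 1) → ℤ) (a : Fin (d + 1)) : (pl u).coeff a = u a := by
  rw [pl, finsetSum_coeff, sum_eq_single a]
  · simp
  · intro k _ hk
    rw [coeff_C_mul_X_pow, if_neg fun h => hk (Fin.ext h.symm)]
  · simp

variable [Algebra ℚ A] (cv : Cv ℚ A) (T : Tab R) {j : R →+* A} (hj : Gen j)
  (hz : cv.δ (j (zR R)) = T.e) (hy : ∀ i, cv.δ (j (T.y i)) = T.δ i)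
include hj hz hy

theorem del_term {g : ℤ[X]} (hg : g ≠ 0) (i : Fin T.e) :
    cv.δ (aeval (j (zR R)) g * j (T.y i)) = T.e * g.natDegree + T.δ i := by
  have hinj : Function.Injective (algebraMap ℤ ℚ) := RingHom.injective_int _
  obtain ⟨h1, h2⟩ := cv.aeval_eq (hz ▸ T.epos) ((Polynomial.map_ne_zero_iff hinj).2 hg)
  rw [aeval_map_algebraMap] at h1 h2
  rw [cv.mul _ _ h1 fun h => T.y.ne_zero i (hj.inj (h.trans (map_zero j).symm)), h2, hy, hz,
    natDegree_map_eq_of_injective hinj, mul_comm]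

theorem del_le {n : ℕ} {x : R} (hx : x ∈ T.Lw n) : cv.δ (j x) ≤ n := by
  rw [← T.el_repr x, T.map_el]
  refine cv.sum_le _ _ _ fun i _ => ?_
  by_cases h : T.y.repr x i = 0
  · simp [h, cv.zero]
  · rw [del_term cv T hj hz hy h]
    exact Tab.mem_Lw.1 hx i h

theorem mem_of_del {n : ℕ} {x : R} (hx : cv.δ (j x) ≤ n) : x ∈ T.Lw n := by
  classical
  refine Tab.mem_Lw.2 fun i hi => ?_
  obtain ⟨i₀, h1, h2⟩ := exists_max_image (univ.filter fun i => T.y.repr x i ≠ 0)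
    (fun i => T.e * (T.y.repr x i).natDegree + T.δ i) ⟨i, by simpa using hi⟩
  refine (h2 i (by simpa using hi)).trans ?_
  have h3 := del_term cv T hj hz hy (mem_filter.1 h1).2 i₀
  rcases Nat.eq_zero_or_pos (T.e * (T.y.repr x i₀).natDegree + T.δ i₀) with h0 | h0
  · omega
  rw [← T.el_repr x, T.map_el, ← add_sum_erase _ _ (mem_univ i₀), cv.add_of_lt, h3] at hx
  · exact hx
  rw [h3]
  refine lt_of_le_of_lt (cv.sum_le _ _ _ fun k hk => ?_) (Nat.sub_one_lt h0.ne')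
  by_cases h : T.y.repr x k = 0
  · simp [h, cv.zero]
  rw [del_term cv T hj hz hy h]
  refine Nat.le_sub_one_of_lt (lt_of_le_of_ne (h2 k (by simpa using h)) fun e => ?_)
  have e' := congrArg (· % T.e) e
  simp only [Nat.mul_add_mod, T.δmod] at e'
  exact (mem_erase.1 hk).1 (Fin.ext e')

end gen

variable {r : ℕ} [Fact r.Prime]

theorem round (α : ℚ_[r]) : ∃ m₀ : ℕ, ∀ m, m₀ ≤ m → ∀ N : ℕ, ∃ u : ℤ,
    ‖(r : PadicAlgCl r) ^ m * algebraMap ℚ_[r] _ α - u‖ ≤ ‖(r : PadicAlgCl r)‖ ^ N := by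
  obtain ⟨m₀, h⟩ := exists_pow_lt_of_lt_one (x := (‖α‖ + 1)⁻¹) (by positivity)
    (Padic.norm_p_lt_one (p := r))
  refine ⟨m₀, fun m hm N => ?_⟩
  have h1 : ‖(r : ℚ_[r]) ^ m * α‖ ≤ 1 := by
    rw [norm_mul, norm_pow]
    have h2 := (pow_le_pow_of_le_one (norm_nonneg _) Padic.norm_p_lt_one.le hm).trans h.le
    refine (mul_le_mul_of_nonneg_right h2 (norm_nonneg _)).trans ?_
    rw [inv_mul_le_iff₀ (by positivity)]
    linarith
  obtain ⟨z, hz⟩ : ∃ z : ℤ_[r], (z : ℚ_[r]) = r ^ m * α := ⟨⟨_, h1⟩, rfl⟩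
  refine ⟨((z.appr N : ℕ) : ℤ), ?_⟩
  have h2 := (PadicInt.norm_le_pow_iff_mem_span_pow _ N).2 (PadicInt.appr_spec N z)
  rw [PadicInt.norm_def, ← norm_alg, PadicInt.coe_sub, PadicInt.coe_natCast, hz, map_sub, map_mul,
    map_pow, map_natCast, map_natCast] at h2
  rw [norm_r, inv_pow, ← zpow_natCast (r : ℝ), ← zpow_neg]
  rwa [Int.cast_natCast]

/-- the data of the construction -/
structure Ctx (R A A' : Type) [CommRing R] [Algebra ℤ[X] R] [CommRing A] [Algebra ℚ A]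
    [CommRing A'] [Algebra ℚ A'] (r : ℕ) [Fact r.Prime]
    (F : IntermediateField ℚ_[r] (PadicAlgCl r)) (B : Type) [CommRing B] [Algebra F B] where
  cv : Cv ℚ A
  D : Dbl A A' r
  m : Mod R
  j : R →+* A
  hj : Gen j
  hz : cv.δ (j (zR R)) = m.e
  hy : ∀ i, cv.δ (j (m.y i)) = m.δ i
  re : r < m.e
  w : F
  hw : w ^ 2 = -r
  hF : ∀ x : F, ∃ α β : ℚ_[r], (x : PadicAlgCl r) = algebraMap _ _ α + algebraMap _ _ β * w
  τ : PadicAlgCl r ≃ₐ[ℚ_[r]] PadicAlgCl r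
  hτ : τ w = -w
  cvB : Cv F B
  ι : A →+* B
  inj : Function.Injective ι
  del : ∀ a, cvB.δ (ι a) = cv.δ a
  span : ∀ n, cvB.L n ≤ Submodule.span F (ι '' cv.L n)
  lift : ∀ f : A →+* PadicAlgCl r, ∃ P : B →ₐ[F] PadicAlgCl r, ∀ a, P (ι a) = f a
  ψ : A' →+* B
  ψj : ∀ a, ψ (D.j a) = ι a
  ψω : ψ D.ω = algebraMap F B w

namespace Ctx

variable {R A A' : Type} [CommRing R] [Algebra ℤ[X] R] [CommRing A] [Algebra ℚ A] [CommRing A']
  [Algebra ℚ A'] {F : IntermediateField ℚ_[r] (PadicAlgCl r)} {B : Type} [CommRing B]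
  [Algebra F B] (c : Ctx R A A' r F B)

/-- a function from its integral coordinates -/
noncomputable abbrev fn (g k : Fin c.m.e → ℤ[X]) : A' := c.D.fn c.j c.m.toTab g k

/-- the equation of the modulus -/
noncomputable abbrev G : A' := c.D.pz c.j c.m.G

/-- the monomials -/
noncomputable def mon (i : Fin c.m.e) (a : ℕ) : B := c.ι (c.j (zR R ^ a * c.m.y i))

theorem hw' : (c.w : PadicAlgCl r) ^ 2 = -r := by exact_mod_cast congrArg Subtype.val c.hw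

theorem norm_w : ‖(c.w : PadicAlgCl r)‖ ≤ 1 := by
  have h := congrArg norm c.hw'
  rw [norm_pow, norm_neg] at h
  exact (pow_le_one_iff_of_nonneg (norm_nonneg _) two_ne_zero).1 (h ▸ norm_r_lt.le)

theorem ψG : c.ψ c.G = c.ι (c.j (algebraMap ℤ[X] R c.m.G)) := c.ψj _

theorem ψG_ne : c.ψ c.G ≠ 0 := fun h => c.m.monic.ne_zero (c.m.alg_injective (c.hj.inj (c.inj
  (by rw [← ψG, h]; simp))))

theorem del_le {n : ℕ} {x : R} (hx : x ∈ c.m.Lw n) : c.cvB.δ (c.ι (c.j x)) ≤ n :=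
  (c.del _).trans_le (Rad.del_le c.cv c.m.toTab c.hj c.hz c.hy hx)

theorem del_mon {i : Fin c.m.e} {a d : ℕ} (h : a + c.m.κ i ≤ d) :
    c.cvB.δ (c.mon i a) ≤ c.m.e * d := by
  refine c.del_le (Tab.Lw_mono ((c.m.wle_iff i a d).2 h) (Tab.mul_mem_Lw ?_ (Tab.y_mem_Lw i)))
  rw [zR, ← map_pow]
  exact Tab.alg_mem_Lw (natDegree_X_pow_le a)

theorem del_G : c.cvB.δ (c.ψ c.G) = c.m.e * c.m.G.natDegree := by
  have := del_term c.cv c.m.toTab c.hj c.hz c.hy c.m.monic.ne_zero c.m.i0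
  rwa [Tab.y_i0, map_one, mul_one, Tab.δ_i0, add_zero, ← map_alg, ← c.del, ← ψG] at this

theorem del_fn {d : ℕ} {g k : Fin c.m.e → ℤ[X]} (hd : ∀ i, c.m.κ i ≤ d)
    (hg : ∀ i, (g i).natDegree ≤ d - c.m.κ i) (hk : ∀ i, (k i).natDegree ≤ d - c.m.κ i) :
    c.cvB.δ (c.ψ (c.fn g k)) ≤ c.m.e * d := by
  rw [fn, Dbl.fn, map_add, map_mul, c.ψj, c.ψj, c.ψω]
  refine (c.cvB.add _ _).trans (max_le (c.del_le (Tab.el_mem_Lw hd hg))
    ((c.cvB.mul_le _ _).trans ?_))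
  rw [c.cvB.const]
  exact c.del_le (Tab.el_mem_Lw hd hk)

theorem expand0 {d : Fin c.m.e → ℕ} {g : Fin c.m.e → ℤ[X]} (hg : ∀ i, (g i).natDegree ≤ d i) :
    c.ι (c.j (c.m.el g)) =
      ∑ x : Σ i, Fin (d i + 1), (((g x.1).coeff x.2 : ℤ) : F) • c.mon x.1 x.2 := by
  rw [Fintype.sum_sigma]
  refine (c.m.map_el (c.ι.comp c.j) g).trans (sum_congr rfl fun i _ => ?_)
  rw [aeval_eq_sum_range' (Nat.lt_succ_of_le (hg i)), sum_range, sum_mul]
  refine sum_congr rfl fun a _ => ?_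
  simp [mon, Algebra.smul_def, mul_assoc]

theorem expand {d : Fin c.m.e → ℕ} {g k : Fin c.m.e → ℤ[X]} (hg : ∀ i, (g i).natDegree ≤ d i)
    (hk : ∀ i, (k i).natDegree ≤ d i) : c.ψ (c.fn g k) = ∑ x : Σ i, Fin (d i + 1),
      ((((g x.1).coeff x.2 : ℤ) : F) + (((k x.1).coeff x.2 : ℤ) : F) * c.w) • c.mon x.1 x.2 := by
  rw [fn, Dbl.fn, map_add, map_mul, c.ψj, c.ψj, c.ψω, c.expand0 hg, c.expand0 hk, sum_mul,
    ← sum_add_distrib]
  refine sum_congr rfl fun x _ => ?_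
  simp only [Algebra.smul_def, map_add, map_mul]
  ring

theorem exists_coef {d : ℕ} {H : B} (hH : c.cvB.δ H ≤ c.m.e * d) :
    ∃ a : (Σ i, Fin (d - c.m.κ i + 1)) → F, ∑ x, a x • c.mon x.1 x.2 = H := by
  rw [← Submodule.mem_span_range_iff_exists_fun]
  refine Submodule.span_le.2 ?_ (c.span _ hH)
  rintro _ ⟨a, ha, rfl⟩
  obtain ⟨n, x, hn, hx⟩ := c.hj.surj a
  have h1 : x ∈ c.m.Lw (c.m.e * d) := mem_of_del c.cv c.m.toTab c.hj c.hz c.hy (by
    rw [← hx, ← nsmul_eq_mul]; exact nsmul_mem ha n)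
  have h2 : c.ι a = (n : F)⁻¹ • c.ι (c.j x) := by
    rw [← hx, map_mul, map_natCast, ← map_natCast (algebraMap F B), ← Algebra.smul_def,
      inv_smul_smul₀ (Nat.cast_ne_zero.2 hn.ne')]
  rw [SetLike.mem_coe, h2, ← c.m.el_repr x, c.expand0 (Tab.natDegree_repr_le h1)]
  exact Submodule.smul_mem _ _ (Submodule.sum_mem _ fun x _ =>
    Submodule.smul_mem _ _ (Submodule.subset_span ⟨x, rfl⟩))

theorem round' {I : Type} [Fintype I] (a : I → F) : ∃ m : ℕ, ∀ N : ℕ, ∃ u v : I → ℤ, ∀ i,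
    ‖((u i + v i * c.w - r ^ m * a i : F) : PadicAlgCl r)‖ ≤ ‖(r : PadicAlgCl r)‖ ^ N := by
  choose α β h using fun i => c.hF (a i)
  choose m hm using round (r := r)
  have k : ∀ i, m (α i) + m (β i) ≤ ∑ i, (m (α i) + m (β i)) := fun i =>
    single_le_sum (f := fun i => m (α i) + m (β i)) (fun _ _ => Nat.zero_le _) (mem_univ i)
  refine ⟨∑ i, (m (α i) + m (β i)), fun N => ?_⟩
  choose u hu using fun i => hm (α i) _ (le_of_add_le_left (k i)) N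
  choose v hv using fun i => hm (β i) _ (le_of_add_le_right (k i)) N
  refine ⟨u, v, fun i => ?_⟩
  push_cast
  rw [h i, ← norm_neg]
  refine le_trans (le_of_eq (congrArg _ (by ring))) ((IsUltrametricDist.norm_add_le_max _ _).trans
    (max_le (hu i) ((norm_mul_le _ c.w.1).trans
      ((mul_le_of_le_one_right (norm_nonneg _) c.norm_w).trans (hv i)))))

theorem fn_add (g k g' k' : Fin c.m.e → ℤ[X]) :
    c.fn (fun i => g i + g' i) (fun i => k i + k' i) = c.fn g k + c.fn g' k' := by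
  simp only [fn, Dbl.fn, Tab.el_add, map_add]
  ring

theorem fn_mul (a : ℤ[X]) (g k : Fin c.m.e → ℤ[X]) :
    c.fn (fun i => a * g i) (fun i => a * k i) = c.D.pz c.j a * c.fn g k := by
  simp only [fn, Dbl.fn, Dbl.pz, Tab.el_mul, map_mul]
  ring

/-- rounding -/
theorem base {q : (B →ₐ[F] PadicAlgCl r) → Prop} {d : ℕ} {S : B} (γ κ : Fin c.m.e → ℤ[X])
    (hd : ∀ i, c.m.G.natDegree + c.m.κ i + 2 ≤ d) (hS : c.cvB.δ S ≤ c.m.e * d)
    (hG : c.ψ c.G ∣ S - c.ψ (c.fn γ κ))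
    (h : ∀ (I : Type) [Fintype I] (b : I → B), (∀ i, c.cvB.δ (b i) ≤ c.m.e * d) →
      ∃ η : ℝ, 0 < η ∧ ∀ a : I → F, (∀ i, ‖(a i : PadicAlgCl r)‖ ≤ η) →
        ∀ P : B →ₐ[F] PadicAlgCl r, P (S + ∑ i, a i • b i) = 0 → q P) :
    ∃ (g₀ k₀ : Fin c.m.e → ℤ[X]) (m N : ℕ), (∀ i, (g₀ i).natDegree ≤ d - c.m.κ i) ∧
      (∀ i, (k₀ i).natDegree ≤ d - c.m.κ i) ∧ c.G ∣ c.fn g₀ k₀ - (r : A') ^ m * c.fn γ κ ∧
      ∀ g k : Fin c.m.e → ℤ[X], (∀ i, (g i).natDegree ≤ d - c.m.κ i) →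
        (∀ i, (k i).natDegree ≤ d - c.m.κ i) → (∀ i, C ((r : ℤ) ^ N) ∣ g i - g₀ i) →
        (∀ i, C ((r : ℤ) ^ N) ∣ k i - k₀ i) →
        ∀ P : B →ₐ[F] PadicAlgCl r, P (c.ψ (c.fn g k)) = 0 → q P := by
  set ρ := c.m.G.natDegree with hρ
  have hκ : ∀ i, c.m.κ i ≤ d := fun i => by have := hd i; omega
  have hmod : ∀ (a : ℤ[X]) i, (a %ₘ c.m.G).natDegree ≤ d - c.m.κ i := fun a i => by
    have := natDegree_modByMonic_le a c.m.monic
    have := hd i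
    omega
  have hdv : ∀ a : ℤ[X], c.m.G ∣ a - a %ₘ c.m.G := fun a =>
    ⟨a /ₘ c.m.G, by linear_combination -modByMonic_add_div a c.m.G⟩
  set Γ := c.fn (fun i => γ i %ₘ c.m.G) fun i => κ i %ₘ c.m.G with hΓ
  have h1 : c.G ∣ c.fn γ κ - Γ := c.D.pz_dvd_fn_sub c.j _ (fun i => hdv _) fun i => hdv _
  obtain ⟨H, hH⟩ : c.ψ c.G ∣ S - c.ψ Γ := by
    have := dvd_add hG (map_dvd c.ψ h1)
    rwa [map_sub, sub_add_sub_cancel] at this
  have hρd : ρ ≤ d := by have := hd c.m.i0; omega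
  have hHd : c.cvB.δ H ≤ c.m.e * (d - ρ) := by
    by_cases h0 : H = 0
    · simp [h0, c.cvB.zero]
    have := (c.cvB.sub S (c.ψ Γ)).trans (max_le hS (c.del_fn hκ (fun i => hmod _ i) fun i => hmod _ i))
    rw [hH, c.cvB.mul _ _ c.ψG_ne h0, c.del_G, ← hρ] at this
    rw [Nat.mul_sub]
    omega
  obtain ⟨a, ha⟩ := c.exists_coef hHd
  obtain ⟨m, hm⟩ := c.round' a
  obtain ⟨η, hη, hq⟩ := h ((Σ i, Fin (d - ρ - c.m.κ i + 1)) ⊕ (Σ i, Fin (d - c.m.κ i + 1)))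
    (Sum.elim (fun x => c.ψ c.G * c.mon x.1 x.2) fun x => c.mon x.1 x.2) (by
      rintro (x | x)
      · refine (c.cvB.mul_le _ _).trans ?_
        have := c.del_mon (i := x.1) (a := x.2) (d := d - ρ) (by
          have := x.2.2; have := hd x.1; omega)
        have h2 := Nat.mul_le_mul_left c.m.e hρd
        rw [Nat.mul_sub] at this
        rw [c.del_G, ← hρ]
        omega
      · exact c.del_mon (by have := x.2.2; have := hκ x.1; omega))
  have hr0 := norm_r_pos (r := r)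
  obtain ⟨N, hN⟩ := exists_pow_lt_of_lt_one (mul_pos (pow_pos hr0 m) hη) (norm_r_lt (r := r))
  obtain ⟨u, v, huv⟩ := hm N
  have hdeg : ∀ (a : ℤ[X]) (i) (u : Fin (d - ρ - c.m.κ i + 1) → ℤ),
      (C ((r : ℤ) ^ m) * (a %ₘ c.m.G) + c.m.G * pl u).natDegree ≤ d - c.m.κ i := fun a i u =>
    natDegree_add_le_of_degree_le ((natDegree_C_mul_le _ _).trans (hmod a i))
      (natDegree_mul_le.trans (by have := natDegree_pl u; have := hd i; omega))
  have e0 : c.fn (fun i => C ((r : ℤ) ^ m) * (γ i %ₘ c.m.G) + c.m.G * pl fun a => u ⟨i, a⟩)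
      (fun i => C ((r : ℤ) ^ m) * (κ i %ₘ c.m.G) + c.m.G * pl fun a => v ⟨i, a⟩) =
      (r : A') ^ m * Γ + c.G * c.fn (fun i => pl fun a => u ⟨i, a⟩) fun i => pl fun a => v ⟨i, a⟩ := by
    rw [fn_add, fn_mul, fn_mul, Dbl.pz_C]
    push_cast
    rfl
  refine ⟨_, _, m, N, fun i => hdeg (γ i) i fun a => u ⟨i, a⟩,
    fun i => hdeg (κ i) i fun a => v ⟨i, a⟩, ?_, fun g k hg hk hg' hk' P hP => ?_⟩
  · rw [e0, add_sub_right_comm, ← mul_sub]
    exact dvd_add ((dvd_sub_comm.1 h1).mul_left _) (dvd_mul_right _ _)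
  set g₀ := fun i => C ((r : ℤ) ^ m) * (γ i %ₘ c.m.G) + c.m.G * pl fun a => u ⟨i, a⟩ with hg₀
  set k₀ := fun i => C ((r : ℤ) ^ m) * (κ i %ₘ c.m.G) + c.m.G * pl fun a => v ⟨i, a⟩ with hk₀
  have hrF : ((r : F) ^ m) ≠ 0 := pow_ne_zero _ (Nat.cast_ne_zero.2 (Fact.out : r.Prime).ne_zero)
  have sm : ∀ x : F, ‖(x : PadicAlgCl r)‖ ≤ ‖(r : PadicAlgCl r)‖ ^ N →
      ‖((((r : F) ^ m)⁻¹ * x : F) : PadicAlgCl r)‖ ≤ η := fun x hx => by
    push_cast
    rw [norm_mul, norm_inv, norm_pow, inv_mul_le_iff₀ (pow_pos hr0 m)]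
    exact hx.trans hN.le
  have si : ∀ z : ℤ, (r : ℤ) ^ N ∣ z → ‖(z : PadicAlgCl r)‖ ≤ ‖(r : PadicAlgCl r)‖ ^ N := by
    rintro _ ⟨z, rfl⟩
    push_cast
    rw [norm_mul, norm_pow]
    exact mul_le_of_le_one_right (by positivity) (IsUltrametricDist.norm_intCast_le_one _ z)
  refine hq (Sum.elim (fun x => ((r : F) ^ m)⁻¹ * (u x + v x * c.w - r ^ m * a x)) fun x =>
    ((r : F) ^ m)⁻¹ * ((((g x.1 - g₀ x.1).coeff x.2 : ℤ) : F) +
      (((k x.1 - k₀ x.1).coeff x.2 : ℤ) : F) * c.w)) ?_ P ?_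
  · rintro (x | x)
    · exact sm _ (huv x)
    · refine sm _ ?_
      rw [AddMemClass.coe_add, MulMemClass.coe_mul, SubringClass.coe_intCast,
        SubringClass.coe_intCast]
      exact (IsUltrametricDist.norm_add_le_max _ _).trans (max_le
        (si _ ((C_dvd_iff_dvd_coeff _ _).1 (hg' x.1) _)) ((norm_mul_le _ _).trans
        ((mul_le_of_le_one_right (norm_nonneg _) c.norm_w).trans
          (si _ ((C_dvd_iff_dvd_coeff _ _).1 (hk' x.1) _)))))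
  · have e1 : c.fn g k = c.fn g₀ k₀ + c.fn (fun i => g i - g₀ i) fun i => k i - k₀ i := by
      rw [← fn_add]
      simp only [add_sub_cancel]
    have e2 := c.expand (d := fun i => d - c.m.κ i) (g := fun i => g i - g₀ i)
      (k := fun i => k i - k₀ i)
      (fun i => (natDegree_sub_le _ _).trans (max_le (hg i) (hdeg _ _ _)))
      fun i => (natDegree_sub_le _ _).trans (max_le (hk i) (hdeg _ _ _))
    have e3 := c.expand (d := fun i => d - ρ - c.m.κ i) (g := fun i => pl fun a => u ⟨i, a⟩)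
      (k := fun i => pl fun a => v ⟨i, a⟩) (fun i => natDegree_pl _) fun i => natDegree_pl _
    simp only [coeff_pl] at e3
    rw [e1, e0, map_add c.ψ, map_add c.ψ, map_mul c.ψ, map_mul c.ψ, e2, e3, map_pow,
      map_natCast] at hP
    rw [Fintype.sum_sum_type]
    simp only [Sum.elim_inl, Sum.elim_inr, mul_smul, sub_smul, ← mul_smul_comm]
    rw [← mul_sum, ← smul_sum, ← smul_sum, sum_sub_distrib, ← smul_sum, ha, ← hP]
    refine mul_left_cancel₀ (a := ((r : F) ^ m : F).1) (by exact_mod_cast hrF) ?_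
    rw [hP, mul_zero, ← map_smul', ← hP, smul_add, smul_add, ← mul_smul_comm, smul_inv_smul₀ hrF,
      smul_inv_smul₀ hrF, sub_eq_iff_eq_add.1 hH]
    congr 1
    simp only [Algebra.smul_def _ H, Algebra.smul_def _ (_ + c.ψ Γ), map_pow, map_natCast]
    ring

end Ctx

end Pool.Agent.P.MP_b8021b_nt.VC.Rad
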