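import Pool.Agent.P.MP_b8021b_nt.VC.PRad3
import Pool.Agent.P.MP_b8021b_nt.VC.StA

/-! A base section with a prescribed class modulo `G`. -/

namespace Pool.Agent.P.MP_b8021b_nt.VC.Rad

open Polynomial Finset NumberField Pool.Agent.P.MP_b8021b_nt.VE

theorem exists_b0 {R : Type} [CommRing R] [Algebra ℤ[X] R] (T : Tab R) (v : ℕ) :
    ∃ b, T.e * v < b ∧ ¬ T.e ∣ b * (T.e * T.κ T.i1 - T.δ T.i1) + v := by
  have h1 := T.δ_le T.i1
  have h2 := T.κ_lt T.i1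
  have h3 : T.δ T.i1 % T.e = 1 := T.δmod T.i1
  have h4 : T.δ T.i1 ≠ T.e * T.κ T.i1 := fun h => by simp [h] at h3
  by_contra h
  push Not at h
  have h5 := (Nat.dvd_sub (h (T.e * v + 1 + 1) (by omega)) (h (T.e * v + 1) (by omega)))
  rw [add_mul _ 1 (_ - _), one_mul, Nat.add_sub_add_right, Nat.add_sub_cancel_left] at h5
  have := Nat.le_of_dvd (by omega) h5
  omega

theorem exists_val {r : ℕ} (hr : r.Prime) {T : ℤ} (hT : T ≠ 0) :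
    ∃ n : ℕ, (r : ℤ) ^ n ∣ T ∧ ¬ (r : ℤ) ^ (n + 1) ∣ T :=
  ⟨_, pow_multiplicity_dvd _ _, (Int.finiteMultiplicity_iff.2
    ⟨by simpa using hr.ne_one, hT⟩).not_pow_dvd_of_multiplicity_lt (Nat.lt_succ_self _)⟩

theorem hom_aeval {K Ω : Type} [CommRing K] [CommRing Ω] (σ : K →+* Ω) (θ : K) (q : ℤ[X]) :
    σ (aeval θ q) = aeval (σ θ) q := (aeval_algHom_apply σ.toIntAlgHom θ q).symm

/-- congruence modulo `G` up to powers of `r` -/
def rel {A' : Type} [CommRing A'] (G : A') (r : ℕ) : Con A' where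
  r x y := ∃ a b : ℕ, G ∣ (r : A') ^ a * x - (r : A') ^ b * y
  iseqv := ⟨fun x => ⟨0, 0, by simp⟩, fun ⟨a, b, h⟩ => ⟨b, a, dvd_sub_comm.1 h⟩,
    fun ⟨a, b, h⟩ ⟨a', b', h'⟩ => ⟨a' + a, b + b', (dvd_add (h.mul_left ((r : A') ^ a'))
      (h'.mul_left ((r : A') ^ b))).trans (dvd_of_eq (by ring))⟩⟩
  mul' := fun {x y z t} ⟨a, b, h⟩ ⟨a', b', h'⟩ => ⟨a + a', b + b',
    (dvd_add (h.mul_right ((r : A') ^ a' * z)) (h'.mul_left ((r : A') ^ b * y))).trans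
      (dvd_of_eq (by ring))⟩

variable {r : ℕ} [Fact r.Prime]

namespace Ctx

variable {R A A' : Type} [CommRing R] [Algebra ℤ[X] R] [CommRing A] [Algebra ℚ A] [CommRing A']
  [Algebra ℚ A'] {F : IntermediateField ℚ_[r] (PadicAlgCl r)} {B : Type} [CommRing B]
  [Algebra F B] (c : Ctx R A A' r F B)

theorem map_ψ (P : B →ₐ[F] PadicAlgCl r) (a b : A) :
    P (c.ψ (c.D.j a + c.D.j b * c.D.ω)) = P (c.ι a) + P (c.ι b) * c.w := by
  rw [map_add, map_mul, c.ψj, c.ψj, c.ψω, map_add, map_mul, P.commutes]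
  rfl

theorem pt (f : A' →+* PadicAlgCl r) : ∃ (P : B →ₐ[F] PadicAlgCl r)
    (g : PadicAlgCl r ≃ₐ[ℚ_[r]] PadicAlgCl r), ∀ x, f x = g (P (c.ψ x)) := by
  have key : ∀ f : A' →+* PadicAlgCl r, f c.D.ω = c.w → ∃ P : B →ₐ[F] PadicAlgCl r,
      ∀ x, f x = P (c.ψ x) := fun f hf => by
    obtain ⟨P, hP⟩ := c.lift (f.comp c.D.j)
    refine ⟨P, fun x => ?_⟩
    obtain ⟨a, b, rfl⟩ := c.D.surj x
    rw [c.map_ψ, hP, hP, map_add, map_mul, hf]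
    rfl
  have h := congrArg f c.D.sq
  rw [map_pow, map_neg, map_natCast, ← c.hw', sq_eq_sq_iff_eq_or_eq_neg] at h
  rcases h with h | h
  · obtain ⟨P, hP⟩ := key f h
    exact ⟨P, AlgEquiv.refl, hP⟩
  · obtain ⟨P, hP⟩ := key ((c.τ : PadicAlgCl r →+* PadicAlgCl r).comp f) (by simp [h, c.hτ])
    exact ⟨P, c.τ.symm, fun x => by rw [← hP]; simp⟩

theorem slope {g k : Fin c.m.e → ℤ[X]} {a b : ℕ}
    (h : ∀ P : B →ₐ[F] PadicAlgCl r, P (c.ψ (c.fn g k)) = 0 →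
      ‖P (c.ψ c.G)‖ ^ a = ‖(r : PadicAlgCl r)‖ ^ b) : Slope r (c.m.nm r g k) c.m.G a b := by
  intro K _ _ v θ hv hθ
  rw [← map_pow (v.valuation K), ← map_pow (v.valuation K)]
  refine emb_eq v hv (pow_ne_zero _ (Nat.cast_ne_zero.2 (Fact.out : r.Prime).ne_zero)) fun σ => ?_
  have e := hom_aeval σ θ
  obtain ⟨f, h1, h2⟩ := root_pt c.m.toTab (x := c.m.el g ^ 2 + r * c.m.el k ^ 2)
    ((e (c.m.nm r g k)).symm.trans (by rw [hθ, map_zero]))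
  obtain ⟨f₁, h3⟩ := c.hj.exists_lift f
  have key : ∀ w : PadicAlgCl r, w ^ 2 = -r → f (c.m.el g) + f (c.m.el k) * w = 0 →
      ‖σ (aeval θ c.m.G ^ a)‖ = ‖σ ((r : K) ^ b)‖ := fun w hw h4 => by
    obtain ⟨f₂, h5, h6⟩ := c.D.exists_lift f₁ w hw
    obtain ⟨P, τ, hP⟩ := c.pt f₂
    have h7 := h P (τ.injective (by
      rw [← hP, map_zero, fn, Dbl.fn, map_add, map_mul, h5, h5, h3, h3, h6, h4]))
    rw [← norm_aut τ, ← hP, G, Dbl.pz, h5, h3, map_alg, h1, ← e] at h7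
    rw [map_pow, map_pow, map_natCast, norm_pow, norm_pow, h7]
  have h4 : (f (c.m.el g) + f (c.m.el k) * c.w) * (f (c.m.el g) + f (c.m.el k) * -c.w) = 0 := by
    rw [map_add, map_mul, map_pow, map_pow, map_natCast] at h2
    linear_combination h2 - f (c.m.el k) ^ 2 * c.hw'
  rcases mul_eq_zero.1 h4 with h | h
  · exact key _ c.hw' h
  · exact key _ (by rw [neg_sq, c.hw']) h

theorem mem {g k g' k' : Fin c.m.e → ℤ[X]} {M : ℕ}
    (h : c.G ∣ c.fn g k * c.fn g' k' - (r : A') ^ M) :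
    ∃ (E : ℕ) (a b : ℤ[X]), a * c.m.nm r g k + b * c.m.G = C ((r : ℤ) ^ E) := by
  have h1 := map_dvd c.D.ι h
  rw [Dbl.ι_pz, map_sub, map_mul, map_pow, map_natCast] at h1
  have h2 : c.G ∣ c.D.j (c.j ((c.m.el g ^ 2 + r * c.m.el k ^ 2) *
      (c.m.el g' ^ 2 + r * c.m.el k' ^ 2) - algebraMap ℤ[X] R (C ((r : ℤ) ^ (2 * M))))) +
        c.D.j 0 * c.D.ω := by
    rw [map_sub, map_sub, map_mul c.j, map_mul c.D.j, ← Dbl.fn_mul_ι, ← Dbl.fn_mul_ι]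
    refine (dvd_add (h.mul_right (c.D.ι (c.fn g k) * c.D.ι (c.fn g' k')))
      (h1.mul_left ((r : A') ^ M))).trans (dvd_of_eq ?_)
    simp only [map_pow, map_natCast, map_zero]
    ring
  obtain ⟨b, hb⟩ := c.m.dvd_norm_sub (dvd_of_dvd c.m.toTab c.hj c.m.monic (c.D.dvd_el.1 h2).1)
  rw [map_mul, c.m.norm_alg, ← map_pow, ← pow_mul] at hb
  exact ⟨_, c.m.nm r g' k', -b, by rw [Tab.nm, Tab.nm]; linear_combination hb⟩

/-- the base section -/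
theorem par {d : ℕ} {S : B} {γ κ γ' κ' : Fin c.m.e → ℤ[X]} {M a b : ℕ} (ha : 0 < a)
    (hM : c.G ∣ c.fn γ κ * c.fn γ' κ' - (r : A') ^ M)
    (hd : ∀ i, c.m.G.natDegree + c.m.κ i + 2 ≤ d) (hS : c.cvB.δ S ≤ c.m.e * d)
    (hG : c.ψ c.G ∣ S - c.ψ (c.fn γ κ))
    (h : ∀ (I : Type) [Fintype I] (β : I → B), (∀ i, c.cvB.δ (β i) ≤ c.m.e * d) →
      ∃ η : ℝ, 0 < η ∧ ∀ t : I → F, (∀ i, ‖(t i : PadicAlgCl r)‖ ≤ η) →
        ∀ P : B →ₐ[F] PadicAlgCl r, P (S + ∑ i, t i • β i) = 0 →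
          ‖P (c.ψ c.G)‖ ^ a = ‖(r : PadicAlgCl r)‖ ^ b) :
    ∃ p : Par R, p.toMod = c.m ∧ p.r = r ∧
      rel c.G r (c.D.fn c.j p.toTab p.g0 p.k0) (c.fn γ κ) := by
  have hr : r.Prime := Fact.out
  obtain ⟨g₀, k₀, m, N, h1, h2, h3, h4⟩ := c.base γ κ hd hS hG h
  obtain ⟨t, ht⟩ : ∃ t : ℤ, (g₀ c.m.i0).coeff d + r ^ N * t ≠ 0 := by
    by_cases h : (g₀ c.m.i0).coeff d = 0
    · exact ⟨1, by simp [h, hr.ne_zero]⟩
    · exact ⟨0, by simpa using h⟩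
  set u : Fin c.m.e → ℤ[X] := fun i => if i = c.m.i0 then C t * X ^ (d - c.m.G.natDegree) else 0
    with hu
  set g₁ : Fin c.m.e → ℤ[X] := fun i => g₀ i + C ((r : ℤ) ^ N) * c.m.G * u i with hg₁
  have hρ := hd c.m.i0
  have d1 : ∀ i, (g₁ i).natDegree ≤ d - c.m.κ i := fun i => by
    refine natDegree_add_le_of_degree_le (h1 i) ?_
    simp only [hu]
    split_ifs with hi
    · have e1 := natDegree_C_mul_le ((r : ℤ) ^ N) c.m.G
      have e2 := natDegree_C_mul_X_pow_le t (d - c.m.G.natDegree)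
      rw [hi, c.m.κ_i0]
      exact natDegree_mul_le.trans (by omega)
    · simp
  have d2 : (g₁ c.m.i0).coeff d = (g₀ c.m.i0).coeff d + r ^ N * t := by
    have e := coeff_mul_X_pow c.m.G (d - c.m.G.natDegree) c.m.G.natDegree
    rw [show c.m.G.natDegree + (d - c.m.G.natDegree) = d by omega, c.m.monic.coeff_natDegree] at e
    simp only [hg₁, hu, if_true]
    rw [coeff_add, mul_assoc, coeff_C_mul, mul_left_comm, coeff_C_mul, e, mul_one]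
  have d3 : c.G ∣ c.fn g₁ k₀ - (r : A') ^ m * c.fn γ κ := by
    have := c.D.pz_dvd_fn_sub c.j c.m.toTab (a := c.m.G) (g := g₁) (g' := g₀) (c := k₀) (c' := k₀)
      (fun i => ⟨C ((r : ℤ) ^ N) * u i, by simp only [hg₁]; ring⟩) fun i => by simp
    simpa using dvd_add this h3
  have hn : ∀ b e, N ≤ N + b + e + 1 ∧ b < N + b + e + 1 ∧ e < 2 * (N + b + e + 1) :=
    fun _ _ => by omega
  obtain ⟨e1, he⟩ := exists_val hr (T := (g₁ c.m.i0).coeff d ^ 2 + r * (k₀ c.m.i0).coeff d ^ 2)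
    (ne_of_gt (add_pos_of_pos_of_nonneg (pow_two_pos_of_ne_zero (d2 ▸ ht)) (by positivity)))
  obtain ⟨b0, hb, hc⟩ := exists_b0 c.m.toTab (padicValNat r c.m.N0)
  have hN : C ((r : ℤ) ^ N) ∣ C ((r : ℤ) ^ (N + b0 + e1 + 1)) :=
    map_dvd (C : ℤ →+* ℤ[X]) (pow_dvd_pow (r : ℤ) (hn b0 e1).1)
  have hmem := c.mem (g := g₁) (k := k₀) (g' := γ') (k' := κ') (M := m + M)
    ((dvd_add (d3.mul_right (c.fn γ' κ')) (hM.mul_left ((r : A') ^ m))).trans (dvd_of_eq (by ring)))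
  have hsl : ∀ g k : Fin c.m.e → ℤ[X], (∀ i, (g i).natDegree ≤ d - c.m.κ i) →
      (∀ i, (k i).natDegree ≤ d - c.m.κ i) →
      (∀ i, C ((r : ℤ) ^ (N + b0 + e1 + 1)) ∣ g i - g₁ i) →
      (∀ i, C ((r : ℤ) ^ (N + b0 + e1 + 1)) ∣ k i - k₀ i) → Slope r (c.m.nm r g k) c.m.G a b :=
    fun g k hg hk hg' hk' => c.slope (h4 g k hg hk (fun i => by
      have := dvd_add (hN.trans (hg' i)) ((dvd_mul_right _ c.m.G).mul_right (u i))
      rwa [hg₁, ← sub_sub, sub_add_cancel] at this) fun i => hN.trans (hk' i))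
  have d4 : rel c.G r (c.fn g₁ k₀) (c.fn γ κ) := ⟨0, m, by rwa [pow_zero, one_mul]⟩
  exact ⟨⟨c.m, r, hr, c.re, b0, N + b0 + e1 + 1, d, e1, hb, hc, (hn b0 e1).2.1, (hn b0 e1).2.2,
    hd, g₁, k₀, d1, h2, hmem, he, a, b, ha, hsl⟩, rfl, rfl, d4⟩

end Ctx

end Pool.Agent.P.MP_b8021b_nt.VC.Rad
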