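import Pool.Agent.P.MP_b8021b_nt.VC.StA

/-! Units outside `r` are generated up to torsion by units outside one prime over `r`. -/

namespace Pool.Agent.P.MP_b8021b_nt.VC

open Polynomial NumberField Pool.Agent.P.MP_b8021b_nt.VE
open scoped Classical nonZeroDivisors

namespace PUGen

variable {r : ℕ} [Fact r.Prime] {K : Type} [Field K] [NumberField K]

theorem norm_le {x : PadicAlgCl r} (h : IsIntegral ℤ x) : ‖x‖ ≤ 1 :=
  (Valuation.integer.integers (NormedField.valuation (K := PadicAlgCl r))).mem_of_integral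
    h.tower_top

omit [NumberField K] in
theorem norm_int (τ : K →+* PadicAlgCl r) (a : 𝓞 K) : ‖τ a‖ ≤ 1 :=
  norm_le (map_isIntegral_int τ a.isIntegral_coe)

theorem norm_r : ‖(r : PadicAlgCl r)‖ < 1 := by
  rw [← map_natCast (algebraMap ℚ_[r] (PadicAlgCl r)), norm_algebraMap']
  exact Padic.norm_p_lt_one

/-- two embeddings that are not conjugate are separated -/
theorem sep (τ₀ τ : K →+* PadicAlgCl r)
    (h : ¬ ∃ g : PadicAlgCl r ≃ₐ[ℚ_[r]] PadicAlgCl r, ∀ a, τ a = g (τ₀ a)) :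
    ∃ x, ‖τ₀ x‖ < 1 ∧ 1 < ‖τ x‖ := by
  let pb := Field.powerBasisOfFiniteOfSeparable ℚ K
  have h1 : aeval (τ pb.gen) (minpoly ℚ_[r] (τ₀ pb.gen)) ≠ 0 := fun h1 => by
    obtain ⟨g, hg⟩ := (isConjRoot_of_aeval_eq_zero (Algebra.IsIntegral.isIntegral _)
      h1).symm.exists_algEquiv
    have := pb.algHom_ext (f := τ.toRatAlgHom)
      (g := ((g : PadicAlgCl r →+* PadicAlgCl r).comp τ₀).toRatAlgHom) hg.symm
    exact h ⟨g, fun a => DFunLike.congr_fun this a⟩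
  let S := (τ₀.prod τ).range.topologicalClosure
  have h2 : ∀ c : ℚ_[r], (algebraMap ℚ_[r] (PadicAlgCl r) c, algebraMap ℚ_[r] (PadicAlgCl r) c) ∈ S := by
    refine fun c => (Padic.denseRange_ratCast r).induction_on c
      ((τ₀.prod τ).range.isClosed_topologicalClosure.preimage
        ((continuous_algebraMap _ _).prodMk (continuous_algebraMap _ _))) fun q => ?_
    exact Subring.le_topologicalClosure _ ⟨q, by simp⟩
  have h3 : ∀ q : ℚ_[r][X], (aeval (τ₀ pb.gen) q, aeval (τ pb.gen) q) ∈ S := fun q => by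
    induction q using Polynomial.induction_on' with
    | add p q hp hq =>
      simp only [map_add]
      exact S.add_mem hp hq
    | monomial n c =>
      simp only [aeval_monomial]
      exact S.mul_mem (h2 c) (S.pow_mem (x := (τ₀ pb.gen, τ pb.gen))
        (Subring.le_topologicalClosure _ ⟨pb.gen, rfl⟩) n)
  obtain ⟨c, hc⟩ := NormedField.exists_lt_norm ℚ_[r]
    ‖aeval (τ pb.gen) (minpoly ℚ_[r] (τ₀ pb.gen))‖⁻¹
  obtain ⟨_, h4, x, rfl⟩ := mem_closure_iff.1 (h3 (C c * minpoly ℚ_[r] (τ₀ pb.gen)))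
    {p | ‖p.1‖ < 1 ∧ 1 < ‖p.2‖}
    ((isOpen_lt continuous_fst.norm continuous_const).inter
      (isOpen_lt continuous_const continuous_snd.norm)) ⟨by simp, by
      simp only [map_mul, aeval_C, norm_mul, norm_algebraMap']
      exact (inv_lt_iff_one_lt_mul₀ (norm_pos_iff.2 h1)).1 hc⟩
  exact ⟨x, h4⟩

/-- the prime attached to an embedding -/
def pr (τ : K →+* PadicAlgCl r) : Ideal (𝓞 K) where
  carrier := {a | ‖τ a‖ < 1}
  add_mem' {a b} ha hb := by
    show ‖τ (a + b : 𝓞 K)‖ < 1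
    rw [RingOfIntegers.coe_eq_algebraMap, map_add, map_add]
    exact (IsUltrametricDist.norm_add_le_max _ _).trans_lt (max_lt ha hb)
  zero_mem' := by simp
  smul_mem' c a ha := by
    show ‖τ (c * a : 𝓞 K)‖ < 1
    rw [RingOfIntegers.coe_eq_algebraMap, map_mul, map_mul, norm_mul]
    exact mul_lt_one_of_nonneg_of_lt_one_right (norm_int τ c) (norm_nonneg _) ha

theorem mem_pr {τ : K →+* PadicAlgCl r} {a : 𝓞 K} : a ∈ pr τ ↔ ‖τ (algebraMap _ K a)‖ < 1 :=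
  Iff.rfl

theorem not_mem_pr {τ : K →+* PadicAlgCl r} {a : 𝓞 K} (h : a ∉ pr τ) :
    ‖τ (algebraMap _ K a)‖ = 1 := le_antisymm (norm_int τ a) (not_lt.1 h)

theorem pr_prime (τ : K →+* PadicAlgCl r) : (pr τ).IsPrime := by
  refine ⟨(Ideal.ne_top_iff_one _).2 (by simp [mem_pr]), fun {a b} h => ?_⟩
  by_contra h1
  rw [not_or] at h1
  rw [mem_pr, map_mul, map_mul, norm_mul, not_mem_pr h1.1, not_mem_pr h1.2] at h
  simp at h

theorem conj {τ₀ τ : K →+* PadicAlgCl r} (h : pr τ₀ = pr τ) :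
    ∃ g : PadicAlgCl r ≃ₐ[ℚ_[r]] PadicAlgCl r, ∀ a, τ a = g (τ₀ a) := by
  by_contra h1
  obtain ⟨x, h2, h3⟩ := sep τ₀ τ h1
  have h4 : pr τ ≠ ⊥ := fun h4 => by
    have : (r : 𝓞 K) ∈ pr τ := by simpa [mem_pr] using norm_r
    rw [h4, Ideal.mem_bot] at this
    exact (Fact.out : r.Prime).ne_zero (by exact_mod_cast this)
  obtain ⟨n, ⟨d, hd⟩, e | e⟩ := IsDedekindDomain.HeightOneSpectrum.exists_primeCompl_mul_eq_or_mul_eq
    (K := K) ⟨pr τ, pr_prime τ, h4⟩ x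
  · have := congrArg (fun y => ‖τ y‖) e
    simp only [map_mul, norm_mul, not_mem_pr hd, mul_one] at this
    exact (norm_int τ n).not_gt (h3.trans_eq this)
  · have := congrArg (fun y => ‖τ₀ y‖) e
    simp only [map_mul, norm_mul, not_mem_pr (τ := τ₀) (a := d) (by rw [h]; exact hd)] at this
    exact (mul_lt_one_of_nonneg_of_lt_one_left (norm_nonneg _) h2 (norm_int τ₀ n)).ne this

omit [NumberField K] in
theorem ru (σ : K →+* Qb) {γ : 𝓞 K} {m : ℕ} (h : γ ∣ (r : 𝓞 K) ^ m) :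
    RU r (σ (algebraMap _ K γ)) := by
  obtain ⟨b, hb⟩ := h
  have h1 : (r : Qb) ^ m = σ (algebraMap _ K γ) * σ (algebraMap _ K b) := by
    rw [← map_mul, ← map_mul, ← hb, map_pow, map_pow, map_natCast, map_natCast]
  have h2 : σ (algebraMap _ K γ) ≠ 0 := left_ne_zero_of_mul
    (h1 ▸ pow_ne_zero _ (Nat.cast_ne_zero.2 (Fact.out : r.Prime).ne_zero))
  refine ⟨h2, m, ?_, ?_⟩
  · exact (isIntegral_natCast r |>.pow m).mul (map_isIntegral_int σ γ.isIntegral_coe)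
  · rw [h1, mul_right_comm, mul_inv_cancel₀ h2, one_mul]
    exact map_isIntegral_int σ b.isIntegral_coe

theorem prin : ∃ c : ℕ, c ≠ 0 ∧ ∀ I : Ideal (𝓞 K), I ≠ ⊥ → ∃ g, Ideal.span {g} = I ^ c := by
  refine ⟨Nat.card (ClassGroup (𝓞 K)), Nat.card_pos.ne', fun I hI => ?_⟩
  have h1 : I ∈ (Ideal (𝓞 K))⁰ := mem_nonZeroDivisors_of_ne_zero hI
  have h2 := pow_card_eq_one' (x := ClassGroup.mk0 ⟨I, h1⟩)
  rw [← map_pow, SubmonoidClass.mk_pow, ClassGroup.mk0_eq_one_iff] at h2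
  exact ⟨_, Ideal.span_singleton_generator _⟩

end PUGen

open PUGen in
theorem p_uGen : S_UGen := by
  intro r _ K _ _ σ Φ hm h u hu
  have hr : (r : 𝓞 K) ≠ 0 := Nat.cast_ne_zero.2 (Fact.out : r.Prime).ne_zero
  have inj := FaithfulSMul.algebraMap_injective (𝓞 K) K
  have k1 : ∀ (γ : 𝓞 K) (m : ℕ), γ ∣ (r : 𝓞 K) ^ m →
      (∀ Q Q' : Ideal (𝓞 K), Q.IsPrime → Q'.IsPrime → γ ∈ Q → γ ∈ Q' → Q = Q') →
      Φ (algebraMap _ K γ) = 0 := fun γ m h1 h2 => by
    refine h _ (ru σ h1) ?_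
    by_cases h3 : ∃ τ₀ : K →+* PadicAlgCl r, γ ∈ pr τ₀
    · obtain ⟨τ₀, h3⟩ := h3
      refine ⟨τ₀, fun τ => ?_⟩
      by_cases h4 : γ ∈ pr τ
      · exact Or.inr (conj (h2 _ _ (pr_prime _) (pr_prime _) h3 h4))
      · exact Or.inl (not_mem_pr h4)
    · exact ⟨(IsAlgClosed.lift : K →ₐ[ℚ] PadicAlgCl r), fun τ =>
        Or.inl (not_mem_pr fun h4 => h3 ⟨τ, h4⟩)⟩
  obtain ⟨c, c0, hc⟩ := prin (K := K)
  have k2 : ∀ (m : ℕ) (I : Ideal (𝓞 K)), ∀ g, Ideal.span {g} = I ^ c → g ∣ (r : 𝓞 K) ^ m →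
      Φ (algebraMap _ K g) = 0 := fun m I => by
    induction I using UniqueFactorizationMonoid.induction_on_prime with
    | h₁ =>
      intro g h1 h2
      rw [zero_pow c0, Ideal.zero_eq_bot, Ideal.span_singleton_eq_bot] at h1
      rw [h1, zero_dvd_iff] at h2
      exact absurd h2 (pow_ne_zero _ hr)
    | h₂ I hI =>
      intro g h1 h2
      rw [Ideal.isUnit_iff.1 hI, Ideal.top_pow, Ideal.span_singleton_eq_top] at h1
      exact k1 g m h2 fun Q _ hQ _ h3 _ => absurd (Q.eq_top_of_isUnit_mem h3 h1) hQ.ne_top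
    | h₃ J P hJ hP ih =>
      intro g h1 h2
      obtain ⟨γ, hγ⟩ := hc P hP.ne_zero
      rw [mul_pow, ← hγ] at h1
      obtain ⟨g', rfl⟩ : γ ∣ g := Ideal.mem_span_singleton.1
        (Ideal.le_of_dvd ⟨_, h1⟩ (Ideal.mem_span_singleton_self g))
      have h3 : γ * g' ≠ 0 := ne_zero_of_dvd_ne_zero (pow_ne_zero _ hr) h2
      rw [← Ideal.span_singleton_mul_span_singleton] at h1
      have h4 := mul_left_cancel₀ (hγ ▸ pow_ne_zero _ hP.ne_zero) h1
      have h5 : ∀ Q : Ideal (𝓞 K), Q.IsPrime → γ ∈ Q → P = Q := fun Q hQ h5 =>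
        ((Ideal.isPrime_of_prime hP).isMaximal hP.ne_zero).eq_of_le hQ.ne_top
          (hQ.le_of_pow_le (hγ ▸ (Ideal.span_singleton_le_iff_mem _).2 h5))
      rw [map_mul, hm _ _ ((map_ne_zero_iff _ inj).2 (left_ne_zero_of_mul h3))
        ((map_ne_zero_iff _ inj).2 (right_ne_zero_of_mul h3)),
        ih g' h4 ((Dvd.intro_left _ rfl).trans h2),
        k1 γ m ((Dvd.intro _ rfl).trans h2) fun Q Q' hQ hQ' a a' =>
          (h5 Q hQ a).symm.trans (h5 Q' hQ' a'), add_zero]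
  have k3 : ∀ (x : K) (n : ℕ), x ≠ 0 → Φ (x ^ n) = n * Φ x := fun x n hx => by
    induction n with
    | zero =>
      have := hm 1 1 one_ne_zero one_ne_zero
      rw [mul_one] at this
      rw [pow_zero]
      push_cast
      linarith
    | succ n ih =>
      rw [pow_succ, hm _ _ (pow_ne_zero _ hx) hx, ih]
      push_cast
      ring
  have k4 : ∀ (m : ℕ) (a : 𝓞 K), a ∣ (r : 𝓞 K) ^ m → Φ (algebraMap _ K a) = 0 := fun m a h1 => by
    have h2 := k2 (m * c) (Ideal.span {a}) (a ^ c) (Ideal.span_singleton_pow a c).symm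
      (by rw [pow_mul]; exact pow_dvd_pow_of_dvd h1 c)
    rw [map_pow, k3 _ _ ((map_ne_zero_iff _ inj).2 (ne_zero_of_dvd_ne_zero (pow_ne_zero _ hr) h1))]
      at h2
    exact (mul_eq_zero.1 h2).resolve_left (Nat.cast_ne_zero.2 c0)
  obtain ⟨u0, n, h1, h2⟩ := hu
  have u1 : u ≠ 0 := fun e => u0 (by rw [e, map_zero])
  have i1 : ∀ y : K, IsIntegral ℤ ((r : Qb) ^ n * σ y) → IsIntegral ℤ ((r : K) ^ n * y) :=
    fun y hy => (isIntegral_algHom_iff σ.toIntAlgHom σ.injective).1 (by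
      rw [map_mul, map_pow, map_natCast]
      exact hy)
  have h3 := k4 (n + n) ⟨_, i1 u h1⟩ ⟨⟨_, i1 u⁻¹ (by rwa [map_inv₀])⟩, inj (by
    simp only [map_pow, map_natCast, map_mul, RingOfIntegers.map_mk]
    rw [mul_mul_mul_comm, mul_inv_cancel₀ u1, mul_one, pow_add])⟩
  have h4 := k4 n _ dvd_rfl
  rw [map_pow, map_natCast] at h4
  rw [RingOfIntegers.map_mk, hm _ _ (pow_ne_zero _
    (Nat.cast_ne_zero.2 (Fact.out : r.Prime).ne_zero)) u1, h4, zero_add] at h3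
  exact h3

end Pool.Agent.P.MP_b8021b_nt.VC
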