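import Pool.Agent.P.MP_b8021b_nt.VC.PRad4
import Pool.Agent.P.MP_b8021b_nt.VC.PAlg
import Pool.Agent.P.MP_b8021b_nt.VC.PUGen

/-! Units outside `r` with prescribed absolute values, and the base section attached to them. -/

namespace Pool.Agent.P.MP_b8021b_nt.VC.Rad

open Polynomial Finset NumberField Filter Pool.Agent.P.MP_b8021b_nt.VE

section ru

variable {r : ℕ}

theorem ru_mul {u v : Qb} (hu : RU r u) (hv : RU r v) : RU r (u * v) := by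
  obtain ⟨h0, n, h1, h2⟩ := hu
  obtain ⟨h0', m, h1', h2'⟩ := hv
  refine ⟨mul_ne_zero h0 h0', n + m, ?_, ?_⟩
  · rw [pow_add, mul_mul_mul_comm]
    exact h1.mul h1'
  · rw [pow_add, mul_inv, mul_mul_mul_comm]
    exact h2.mul h2'

theorem ru_one : RU r 1 := ⟨one_ne_zero, 0, by simpa using isIntegral_one, by
  simpa using isIntegral_one⟩

theorem ru_pow {u : Qb} (hu : RU r u) (n : ℕ) : RU r (u ^ n) := by
  induction n with
  | zero => simpa using ru_one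
  | succ n ih => rw [pow_succ]; exact ru_mul ih hu

theorem ru_inv {u : Qb} (hu : RU r u) : RU r u⁻¹ :=
  ⟨inv_ne_zero hu.1, hu.2.imp fun _ h => ⟨h.2, by rw [_root_.inv_inv]; exact h.1⟩⟩

theorem ru_tr {K : Type} [Field K] (σ σ' : K →+* Qb) {y : K} (h : RU r (σ y)) : RU r (σ' y) := by
  have key : ∀ (n : ℕ) (y : K), IsIntegral ℤ ((r : Qb) ^ n * σ y) →
      IsIntegral ℤ ((r : Qb) ^ n * σ' y) := fun n y h => by
    have h1 : IsIntegral ℤ ((r : K) ^ n * y) :=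
      (isIntegral_algHom_iff σ.toIntAlgHom σ.injective).1 (by
        rw [RingHom.toIntAlgHom_apply, map_mul, map_pow, map_natCast]; exact h)
    have h2 := map_isIntegral_int σ' h1
    rw [map_mul, map_pow, map_natCast] at h2
    exact h2
  obtain ⟨h0, n, h1, h2⟩ := h
  refine ⟨by simpa using h0, n, key n y h1, ?_⟩
  rw [← map_inv₀] at h2 ⊢
  exact key n _ h2

end ru

variable {r : ℕ} [Fact r.Prime]

theorem nf_dec' {K : Type} [Field K] [NumberField K] {b : K} (hb : b ≠ 0) :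
    ∃ (h : ℕ) (Γ : K), 0 < h ∧ (∀ σ : K →+* Qb, RU r (σ Γ)) ∧
      ∀ f : K →+* PadicAlgCl r, ‖f Γ‖ = ‖f b‖ ^ h := by
  obtain ⟨x, y, hy, rfl⟩ := IsFractionRing.div_surjective (A := 𝓞 K) b
  obtain ⟨h, n, Γ, h1, h2, h3⟩ := nf_dec (r := r) (b := x) (by rintro rfl; simp at hb)
  obtain ⟨h', n', Γ', h1', h2', h3'⟩ := nf_dec (r := r) (nonZeroDivisors.ne_zero hy)
  refine ⟨h * h', (Γ : K) ^ h' / (Γ' : K) ^ h, Nat.mul_pos h1 h1', fun σ => ?_, fun f => ?_⟩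
  · rw [map_div₀, map_pow, map_pow, div_eq_mul_inv]
    exact ru_mul (ru_pow (PUGen.ru σ h2) _) (ru_inv (ru_pow (PUGen.ru σ h2') _))
  · rw [map_div₀, map_div₀, norm_div, norm_div, map_pow, map_pow, norm_pow, norm_pow, h3, h3',
      div_pow, ← pow_mul, ← pow_mul, mul_comm h']

section ded

variable {A' : Type} [CommRing A'] [IsDedekindDomain A'] {G : A'} (hG : G ≠ 0)
include hG

omit [Fact r.Prime] in
theorem crt (x : zs G → A') : ∃ y, ∀ Q : Ideal A', ∀ (h : Q.IsMaximal) (h' : G ∈ Q),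
    y - x ⟨⟨Q, h⟩, (mem_zs hG).2 h'⟩ ∈ Q :=
  (Ideal.exists_forall_sub_mem_ideal (I := fun Q : zs G => Q.1.asIdeal)
    (fun _ _ h => MaximalSpectrum.isCoprime_of_ne (Subtype.coe_ne_coe.2 h)) x).imp
      fun _ hy Q h h' => hy ⟨⟨Q, h⟩, (mem_zs hG).2 h'⟩

omit [Fact r.Prime] in
theorem ker_max' {L : Type} [Field L] {f : A' →+* L} (h : f G = 0) : (RingHom.ker f).IsMaximal :=
  (RingHom.ker_isPrime f).isMaximal fun h0 => hG (by
    rwa [← RingHom.mem_ker, h0, Ideal.mem_bot] at h)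

theorem unit_A [Algebra ℚ A'] [Algebra.FiniteType ℚ A'] {a : A'}
    (ha : ∀ f : A' →+* PadicAlgCl r, f G = 0 → f a ≠ 0) : ∃ (x : A') (h : ℕ), 0 < h ∧
      (∀ σ : A' →+* Qb, σ G = 0 → RU r (σ x)) ∧
      ∀ f : A' →+* PadicAlgCl r, f G = 0 → ‖f x‖ = ‖f a‖ ^ h := by
  have key : ∀ Q : zs G, ∃ (x : A') (h : ℕ), 0 < h ∧
      (∀ σ : A' →+* Qb, RingHom.ker σ = Q.1.asIdeal → RU r (σ x)) ∧
      ∀ f : A' →+* PadicAlgCl r, RingHom.ker f = Q.1.asIdeal → ‖f x‖ = ‖f a‖ ^ h := fun Q => by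
    obtain ⟨K, _, _, π, hπ, hk⟩ := PAlg.exists_res Q.1.asIdeal Q.1.isMaximal
    let f₀ : K →ₐ[ℚ] PadicAlgCl r := IsAlgClosed.lift
    have h0 : π G = 0 := by rw [← RingHom.mem_ker, hk]; exact (mem_zs hG).1 Q.2
    obtain ⟨h, Γ, h1, h2, h3⟩ := nf_dec' (r := r) (b := π a) fun h =>
      ha (f₀.toRingHom.comp π) (by simp [h0]) (by simp [h])
    obtain ⟨x, rfl⟩ := hπ Γ
    refine ⟨x, h, h1, fun σ hσ => ?_, fun f hf => ?_⟩
    · obtain ⟨σ', e⟩ := PAlg.exists_fac π hπ σ (by rw [hk, hσ])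
      exact e x ▸ h2 σ'
    · obtain ⟨f', e⟩ := PAlg.exists_fac π hπ f (by rw [hk, hf])
      rw [← e, ← e, h3]
  choose x h h1 h2 h3 using key
  choose k hk using fun Q => dvd_prod_of_mem h (mem_univ Q)
  obtain ⟨y, hy⟩ := crt hG fun Q => x Q ^ k Q
  refine ⟨y, ∏ Q, h Q, prod_pos fun Q _ => h1 Q, fun σ hσ => ?_, fun f hf => ?_⟩
  · have := hy _ (ker_max' hG hσ) hσ
    rw [RingHom.mem_ker, map_sub, sub_eq_zero, map_pow] at this
    exact this ▸ ru_pow (h2 _ σ rfl) _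
  · have := hy _ (ker_max' hG hf) hf
    rw [RingHom.mem_ker, map_sub, sub_eq_zero, map_pow] at this
    rw [this, norm_pow, h3 _ f rfl, ← pow_mul, ← hk]

end ded

namespace Ctx

variable {R A A' : Type} [CommRing R] [Algebra ℤ[X] R] [CommRing A] [Algebra ℚ A] [CommRing A']
  [Algebra ℚ A'] {F : IntermediateField ℚ_[r] (PadicAlgCl r)} {B : Type} [CommRing B]
  [Algebra F B] (c : Ctx R A A' r F B)

theorem G_ne : c.G ≠ 0 := fun h => c.ψG_ne (by rw [h, map_zero])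

/-- the integral functions -/
def O : Subring A' where
  carrier := {x | ∃ a b : R, x = c.D.j (c.j a) + c.D.j (c.j b) * c.D.ω}
  mul_mem' := by
    rintro _ _ ⟨a, b, rfl⟩ ⟨a', b', rfl⟩
    exact ⟨a * a' - r * (b * b'), a * b' + b * a', by
      simp only [Dbl.el_mul, map_sub c.j, map_add c.j, map_mul c.j, map_natCast]⟩
  one_mem' := ⟨1, 0, by simp⟩
  add_mem' := by
    rintro _ _ ⟨a, b, rfl⟩ ⟨a', b', rfl⟩
    exact ⟨a + a', b + b', by simp only [map_add]; ring⟩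
  zero_mem' := ⟨0, 0, by simp⟩
  neg_mem' := by
    rintro _ ⟨a, b, rfl⟩
    exact ⟨-a, -b, by simp only [map_neg]; ring⟩

theorem mem_O {x : A'} : x ∈ c.O ↔ ∃ g k, x = c.fn g k :=
  ⟨fun ⟨a, b, h⟩ => ⟨c.m.y.repr a, c.m.y.repr b, by rw [h, fn, Dbl.fn, Tab.el_repr, Tab.el_repr]⟩,
    fun ⟨_, _, h⟩ => ⟨_, _, h⟩⟩

theorem fg_O : (c.O.map (Ideal.Quotient.mk (Ideal.span {c.G}))).toAddSubgroup.FG := by
  let κ := Ideal.quotientMap (I := Ideal.span {c.m.G}) (Ideal.span {c.G})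
    (c.D.j.comp (c.j.comp (algebraMap ℤ[X] R))) ((Ideal.span_singleton_le_iff_mem _).2
      (Ideal.mem_span_singleton_self c.G))
  let φ : (Fin c.m.e → ℤ[X] ⧸ Ideal.span {c.m.G}) × (Fin c.m.e → ℤ[X] ⧸ Ideal.span {c.m.G}) →+
      A' ⧸ Ideal.span {c.G} := AddMonoidHom.mk' (fun x => ∑ i, (κ (x.1 i) + κ (x.2 i) *
        Ideal.Quotient.mk _ c.D.ω) * Ideal.Quotient.mk _ (c.D.j (c.j (c.m.y i)))) fun x y => by
      rw [← sum_add_distrib]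
      refine sum_congr rfl fun i _ => ?_
      simp only [Prod.fst_add, Prod.snd_add, Pi.add_apply, map_add]
      ring
  have hφ : ∀ g k, φ (fun i => Ideal.Quotient.mk _ (g i), fun i => Ideal.Quotient.mk _ (k i)) =
      Ideal.Quotient.mk _ (c.fn g k) := fun g k => by
    simp only [φ, κ, AddMonoidHom.mk'_apply, Ideal.quotientMap_mk, fn, Dbl.fn, Tab.el_eq, map_sum,
      map_add, map_mul, RingHom.comp_apply, sum_mul, ← sum_add_distrib]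
    exact sum_congr rfl fun i _ => by ring
  have := c.m.monic.finite_quotient
  have : AddGroup.FG ((Fin c.m.e → ℤ[X] ⧸ Ideal.span {c.m.G}) ×
    (Fin c.m.e → ℤ[X] ⧸ Ideal.span {c.m.G})) := Module.Finite.iff_addGroup_fg.1 inferInstance
  have e : (c.O.map (Ideal.Quotient.mk (Ideal.span {c.G}))).toAddSubgroup = φ.range := by
    ext x
    constructor
    · rintro ⟨y, hy, rfl⟩
      obtain ⟨g, k, rfl⟩ := c.mem_O.1 hy
      exact ⟨_, hφ g k⟩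
    · rintro ⟨⟨g, k⟩, rfl⟩
      choose g' hg using fun i => Ideal.Quotient.mk_surjective (g i)
      choose k' hk using fun i => Ideal.Quotient.mk_surjective (k i)
      exact ⟨_, c.mem_O.2 ⟨g', k', rfl⟩, by rw [← hφ, funext hg, funext hk]⟩
  rw [e, ← AddGroup.fg_iff_addSubgroup_fg]
  infer_instance

theorem ord (hO : S_Ord) {x : A'} (hx : ∀ σ : A' →+* Qb, σ c.G = 0 → RU r (σ x)) :
    ∃ n m : ℕ, 0 < n ∧ ∃ a ∈ c.O, ∃ a' ∈ c.O, c.G ∣ (r : A') ^ m * x ^ n - a ∧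
      c.G ∣ a * a' - (r : A') ^ (2 * m) := by
  have h1 : ∀ b, ∃ m : ℕ, 0 < m ∧ (m : A' ⧸ Ideal.span {c.G}) * b ∈
      c.O.map (Ideal.Quotient.mk (Ideal.span {c.G})) := fun b => by
    obtain ⟨b, rfl⟩ := Ideal.Quotient.mk_surjective b
    obtain ⟨m, g, k, hm, h⟩ := c.hj.exists_fn c.D c.m.toTab b
    exact ⟨m, hm, _, c.mem_O.2 ⟨g, k, h⟩, by simp⟩
  have : FiniteDimensional ℚ (A' ⧸ Ideal.span {c.G}) := by
    obtain ⟨S, hS⟩ := c.fg_O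
    refine ⟨S, eq_top_iff.2 fun b _ => ?_⟩
    obtain ⟨m, hm, h⟩ := h1 b
    have h2 : AddSubgroup.closure (S : Set (A' ⧸ Ideal.span {c.G})) ≤
      (Submodule.span ℚ (S : Set (A' ⧸ Ideal.span {c.G}))).toAddSubgroup :=
        (AddSubgroup.closure_le _).2 Submodule.subset_span
    rw [hS] at h2
    have h3 := Submodule.smul_mem _ (m : ℚ)⁻¹ (h2 h)
    rwa [← nsmul_eq_mul, ← Nat.cast_smul_eq_nsmul ℚ,
      inv_smul_smul₀ (Nat.cast_ne_zero.2 hm.ne')] at h3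
  obtain ⟨n, m, hn, _, ⟨a, ha, rfl⟩, _, ⟨a', ha', rfl⟩, h2, h3⟩ := hO _ _ r
    (Ideal.Quotient.mk _ x) Fact.out c.fg_O h1 fun σ => hx (σ.comp (Ideal.Quotient.mk _)) (by
      rw [RingHom.comp_apply, Ideal.Quotient.eq_zero_iff_mem.2 (Ideal.mem_span_singleton_self _),
        map_zero])
  refine ⟨n, m, hn, a, ha, a', ha', ?_, ?_⟩ <;>
    rw [← Ideal.mem_span_singleton, ← Ideal.Quotient.eq]
  · simpa using h2
  · simpa using h3

theorem approx (hP : S_Pts) {u : B} (hu : ∀ P : B →ₐ[F] PadicAlgCl r, P (c.ψ c.G) = 0 → P u ≠ 0) :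
    ∃ a : A', ∀ P : B →ₐ[F] PadicAlgCl r, P (c.ψ c.G) = 0 → ‖P (c.ψ a)‖ = ‖P u‖ := by
  obtain ⟨a, ha⟩ := c.exists_coef (d := c.cvB.δ u) (H := u) (Nat.le_mul_of_pos_left _ c.m.epos)
  obtain ⟨m, hm⟩ := c.round' a
  have hr0 := norm_r_pos (r := r)
  have h1 : ∀ᶠ N : ℕ in atTop, ∀ P ∈ {P : B →ₐ[F] PadicAlgCl r | P (c.ψ c.G) = 0},
      ‖(r : PadicAlgCl r)‖ ^ N * ∑ x : Σ i, Fin (c.cvB.δ u - c.m.κ i + 1), ‖P (c.mon x.1 x.2)‖ <
        ‖(r : PadicAlgCl r)‖ ^ m * ‖P u‖ := by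
    refine (eventually_all_finite (zeros_finite' hP c.cvB c.ψG_ne)).2 fun P h => ?_
    refine Tendsto.eventually_lt_const (mul_pos (pow_pos hr0 m) (norm_pos_iff.2 (hu P h))) ?_
    simpa using (tendsto_pow_atTop_nhds_zero_of_lt_one hr0.le norm_r_lt).mul_const _
  obtain ⟨N, hN⟩ := h1.exists
  obtain ⟨v, w, h⟩ := hm N
  obtain ⟨ρ, hρ⟩ := (PAlg.isUnit_r (A' := A') (Fact.out : r.Prime).ne_zero).exists_right_inv
  have e := c.expand (d := fun i => c.cvB.δ u - c.m.κ i) (g := fun i => pl fun a => v ⟨i, a⟩)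
    (k := fun i => pl fun a => w ⟨i, a⟩) (fun i => natDegree_pl _) fun i => natDegree_pl _
  simp only [coeff_pl] at e
  refine ⟨ρ ^ m * c.fn (fun i => pl fun a => v ⟨i, a⟩) fun i => pl fun a => w ⟨i, a⟩,
    fun P hP' => mul_left_cancel₀ (pow_pos hr0 m).ne' ?_⟩
  have h2 : (r : PadicAlgCl r) * P (c.ψ ρ) = 1 := by simpa using congrArg (fun x => P (c.ψ x)) hρ
  have h3 := hN P hP'
  rw [← norm_pow _ m, ← norm_mul] at h3
  rw [← norm_pow, ← norm_mul, ← norm_mul, map_mul, map_mul, map_pow, map_pow, ← mul_assoc,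
    ← mul_pow, h2, one_pow, one_mul, ← norm_neg (_ * _)]
  refine IsUltrametricDist.norm_eq_of_add_norm_lt_max
    (lt_max_of_lt_right (lt_of_le_of_lt ?_ (h3.trans_eq (norm_neg _).symm)))
  rw [e, ← congrArg P ha, map_sum, map_sum, mul_sum, ← sub_eq_add_neg, ← sum_sub_distrib, mul_sum]
  refine norm_sum_le_of_le _ fun x _ => ?_
  rw [map_smul', map_smul', ← mul_assoc, ← sub_mul, norm_mul]
  refine mul_le_mul_of_nonneg_right ?_ (norm_nonneg _)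
  exact_mod_cast h x

theorem unit_B [IsDedekindDomain A'] (hP : S_Pts) {u : B}
    (hu : ∀ P : B →ₐ[F] PadicAlgCl r, P (c.ψ c.G) = 0 → P u ≠ 0) : ∃ (x : A') (h : ℕ), 0 < h ∧
      (∀ σ : A' →+* Qb, σ c.G = 0 → RU r (σ x)) ∧
      ∀ P : B →ₐ[F] PadicAlgCl r, P (c.ψ c.G) = 0 → ‖P (c.ψ x)‖ = ‖P u‖ ^ h := by
  obtain ⟨a, ha⟩ := c.approx hP hu
  have := PAlg.finiteType c.D c.m.toTab c.hj
  obtain ⟨x, h, h1, h2, h3⟩ := unit_A (r := r) c.G_ne (a := a) fun f hf => by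
    obtain ⟨P, g, e⟩ := c.pt f
    have h0 : P (c.ψ c.G) = 0 := g.injective (by rw [← e, hf, map_zero])
    rw [e, ← norm_pos_iff, norm_aut, ha P h0, norm_pos_iff]
    exact hu P h0
  exact ⟨x, h, h1, h2, fun P h0 => ha P h0 ▸ h3 (P.toRingHom.comp c.ψ) h0⟩

/-- the data of the level function -/
structure Lm (P₀ : B →ₐ[F] PadicAlgCl r) (s : B) (c₁ c₃ C : ℝ) (a b : ℕ) : Prop where
  pos : 0 < c.cvB.δ s
  surj : ∀ a, ∃ b ∈ c.cvB.L (c.cvB.δ s), a - b ∈ Ideal.span {c.ψ c.G}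
  h1 : 0 < c₁
  h13 : c₁ < c₃
  h3 : c₃ ≤ 1
  hC : 0 < C
  ha : 0 < a
  h0 : ‖P₀ s‖ ≤ c₁
  lev : ∀ P : B →ₐ[F] PadicAlgCl r, c₁ < ‖P s‖ → ‖P s‖ < c₃ →
    ‖P (c.ψ c.G)‖ ^ a = C * ‖P s‖ ^ b ∧ ‖P (c.ψ c.G)‖ ≤ 1
  out : ∀ P : B →ₐ[F] PadicAlgCl r, P (c.ψ c.G) = 0 → RingHom.ker P ≠ RingHom.ker P₀ → c₃ ≤ ‖P s‖

variable {c} {P₀ : B →ₐ[F] PadicAlgCl r} {s : B} {c₁ c₃ C : ℝ} {a b : ℕ}

theorem Lm.slope (L : c.Lm P₀ s c₁ c₃ C a b) {j l : ℕ} (hj : 0 < j)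
    (w₁ : c₁ ^ j < ‖(r : PadicAlgCl r)‖ ^ l) (w₃ : ‖(r : PadicAlgCl r)‖ ^ l < c₃ ^ j) :
    ∃ a' b' : ℕ, 0 < a' ∧ ∀ P : B →ₐ[F] PadicAlgCl r, ‖P s‖ ^ j = ‖(r : PadicAlgCl r)‖ ^ l →
      ‖P (c.ψ c.G)‖ ^ a' = ‖(r : PadicAlgCl r)‖ ^ b' := by
  have key : ∀ P : B →ₐ[F] PadicAlgCl r, ‖P s‖ ^ j = ‖(r : PadicAlgCl r)‖ ^ l →
      c₁ < ‖P s‖ ∧ ‖P s‖ < c₃ := fun P h =>
    ⟨lt_of_pow_lt_pow_left₀ j (norm_nonneg _) (h ▸ w₁),
      lt_of_pow_lt_pow_left₀ j (L.h1.trans L.h13).le (h ▸ w₃)⟩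
  by_cases h : ∃ P : B →ₐ[F] PadicAlgCl r, ‖P s‖ ^ j = ‖(r : PadicAlgCl r)‖ ^ l
  · obtain ⟨Q, hQ⟩ := h
    obtain ⟨h1, h2⟩ := L.lev Q (key Q hQ).1 (key Q hQ).2
    obtain ⟨a', b', h3, h4⟩ := norm_pow_eq_nat (x := Q (c.ψ c.G)) (fun h0 => by
      rw [h0, norm_zero, zero_pow L.ha.ne'] at h1
      exact (mul_pos L.hC (pow_pos (L.h1.trans (key Q hQ).1) b)).ne h1) h2
    refine ⟨a', b', h3, fun P hP => ?_⟩
    have h5 := (L.lev P (key P hP).1 (key P hP).2).1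
    rw [(pow_left_inj₀ (norm_nonneg _) (norm_nonneg _) hj.ne').1 (hP.trans hQ.symm), ← h1,
      pow_left_inj₀ (norm_nonneg _) (norm_nonneg _) L.ha.ne'] at h5
    rw [h5, h4]
  · exact ⟨1, 0, one_pos, fun P hP => absurd ⟨P, hP⟩ h⟩

theorem Lm.par (L : c.Lm P₀ s c₁ c₃ C a b) (hCv : S_Cv) (hP : S_Pts) (hI : S_Inf) (hO : S_Ord)
    {x : A'} (hx : ∀ σ : A' →+* Qb, σ c.G = 0 → RU r (σ x)) {j l : ℕ} (hj : 0 < j)
    (hΓ : ∀ P : B →ₐ[F] PadicAlgCl r, P (c.ψ c.G) = 0 →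
      (RingHom.ker P = RingHom.ker P₀ → ‖P (c.ψ x)‖ = ‖(r : PadicAlgCl r)‖ ^ l) ∧
      (RingHom.ker P ≠ RingHom.ker P₀ → ‖P (c.ψ x)‖ = ‖P s‖ ^ j))
    (w₁ : c₁ ^ j < ‖(r : PadicAlgCl r)‖ ^ l) (w₃ : ‖(r : PadicAlgCl r)‖ ^ l < c₃ ^ j) :
    ∃ (p : Par R) (n : ℕ), 0 < n ∧ p.toMod = c.m ∧ p.r = r ∧
      rel c.G r (c.D.fn c.j p.toTab p.g0 p.k0) (x ^ n) := by
  obtain ⟨n₁, m, hn₁, y, hy, y', hy', h1, h2⟩ := c.ord hO hx
  obtain ⟨a', b', ha', hs⟩ := L.slope hj w₁ w₃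
  set K := c.m.G.natDegree + ∑ i, c.m.κ i + 2 with hK
  obtain ⟨n, hn, S, hS, hG, h⟩ := build hP c.cvB hI hCv c.ψG_ne P₀ L.pos L.surj L.h1 L.h3
    (L.h1.trans L.h13) L.h0 L.out hj hΓ w₁ w₃ (c.m.e * K + n₁ + c.m.e)
  obtain ⟨k, hk⟩ := Nat.dvd_factorial hn₁ (by omega : n₁ ≤ n)
  obtain ⟨d, hd⟩ := Nat.dvd_factorial c.m.epos (by omega : c.m.e ≤ n)
  have e : j * n.factorial * c.cvB.δ s = c.m.e * (j * d * c.cvB.δ s) := by rw [hd]; ring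
  have hKd : K ≤ j * d * c.cvB.δ s := Nat.le_of_mul_le_mul_left (by
    rw [← e]
    exact ((by omega : c.m.e * K ≤ n).trans n.self_le_factorial).trans
      ((Nat.le_mul_of_pos_left _ hj).trans (Nat.le_mul_of_pos_right _ L.pos))) c.m.epos
  rw [e] at hS h
  obtain ⟨γ, κ, hγ⟩ := c.mem_O.1 (pow_mem hy k)
  obtain ⟨γ', κ', hγ'⟩ := c.mem_O.1 (pow_mem hy' k)
  have h3 : c.G ∣ (r : A') ^ (m * k) * x ^ n.factorial - c.fn γ κ := by
    rw [← hγ, hk, pow_mul, pow_mul, ← mul_pow]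
    exact h1.trans (sub_dvd_pow_sub_pow _ _ k)
  have hrF : ((r : F) ^ (m * k)) ≠ 0 :=
    pow_ne_zero _ (Nat.cast_ne_zero.2 (Fact.out : r.Prime).ne_zero)
  have hr0 := pow_pos (norm_r_pos (r := r)) (m * k)
  obtain ⟨p, h4, h5, h6⟩ := c.par (d := j * d * c.cvB.δ s) (S := (r : F) ^ (m * k) • S) (γ := γ)
    (κ := κ) (γ' := γ') (κ' := κ') (M := 2 * m * k) (b := b') ha' (by
      rw [← hγ, ← hγ', pow_mul, ← mul_pow]
      exact h2.trans (sub_dvd_pow_sub_pow _ _ k)) (fun i => by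
      have := single_le_sum (f := c.m.κ) (fun _ _ => Nat.zero_le _) (mem_univ i)
      omega) ((c.cvB.smul_le _ _).trans hS) (by
      refine (dvd_add (hG.mul_left ((r : B) ^ (m * k))) (map_dvd c.ψ h3)).trans (dvd_of_eq ?_)
      simp only [Algebra.smul_def, map_sub, map_mul, map_pow, map_natCast]
      ring) fun I _ β hβ => by
      obtain ⟨η, hη, h⟩ := h I β hβ
      refine ⟨_, mul_pos hr0 hη, fun t ht P h0 => hs P (h
        (fun i => ((r : F) ^ (m * k))⁻¹ * t i) (fun i => ?_) P ?_)⟩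
      · push_cast
        rw [norm_mul, norm_inv, norm_pow, inv_mul_le_iff₀ hr0]
        exact ht i
      · simp only [mul_smul]
        rw [← smul_sum, ← inv_smul_smul₀ hrF S, ← smul_add, map_smul, h0, smul_zero]
  exact ⟨p, n.factorial, n.factorial_pos, h4, h5, (rel c.G r).trans h6 ⟨0, m * k, by
    rw [pow_zero, one_mul]; exact dvd_sub_comm.1 h3⟩⟩

end Ctx

end Pool.Agent.P.MP_b8021b_nt.VC.Rad
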