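import Pool.Agent.P.MP_b8021b_nt.VC.BasicC
import Pool.Agent.P.MP_b8021b_nt.VC.CTop

/-! Rigidity is an open condition on configurations of rational points. -/

namespace Pool.Agent.P.MP_b8021b_nt.VC

open Polynomial Finset Pool.Agent.P.MP_b8021b_nt.VE Filter
open scoped Classical Topology

namespace PRig2

section

variable {F A : Type} [Field F] [CharZero F] [CommRing A] [Algebra F A]

/-- a divisor that moves in its class can be moved through a given rational point -/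
theorem move (hCv : S_Cv) (cv : Cv F A) {E : Ideal A} (hE : E ≠ ⊥) (hd : dg F E ≤ cv.g)
    (hr : ¬ cv.Rig E) (Q : A →ₐ[F] F) (hQ : RingHom.ker Q ≠ ⊥) :
    ∃ D : Ideal A, D ≠ ⊥ ∧ dg F D ≤ cv.g ∧ D ≤ RingHom.ker Q ∧ ∃ a b : A, a ≠ 0 ∧ b ≠ 0 ∧
      Ideal.span {a} * D = Ideal.span {b} * E := by
  have := cv.ded
  obtain ⟨-, hmul, hsp, -⟩ := hCv F A cv
  simp only [Cv.Rig, not_forall] at hr
  obtain ⟨J, a, b, hJ, hJd, ha, hb, hab, hne⟩ := hr
  by_cases hER : E ≤ RingHom.ker Q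
  · exact ⟨E, hE, hd, hER, 1, 1, one_ne_zero, one_ne_zero, rfl⟩
  obtain ⟨s₀, hs₀, hs0⟩ := Submodule.exists_mem_ne_zero_of_ne_bot hE
  obtain ⟨C₀, hC₀⟩ : E ∣ Ideal.span {s₀} :=
    Ideal.dvd_iff_le.2 ((Ideal.span_singleton_le_iff_mem _).2 hs₀)
  have hC0 : C₀ ≠ ⊥ := by
    rintro rfl
    exact span_ne_bot hs0 (by simpa using hC₀)
  set C := Ideal.span {a} * C₀ with hC
  have hC1 : C ≠ ⊥ := mul_ne_zero (span_ne_bot ha) hC0
  have e1 : Ideal.span {a * s₀} = C * E := by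
    rw [← Ideal.span_singleton_mul_span_singleton, hC₀, hC]; ring
  have e2 : Ideal.span {b * s₀} = C * J := by
    rw [← Ideal.span_singleton_mul_span_singleton, hC₀, ← mul_assoc, ← hab, hC]; ring
  obtain ⟨x, hx, hxR⟩ := Set.not_subset.1 hER
  have hx0 : Q x ≠ 0 := hxR
  have hs' : b * s₀ ∈ C := (Ideal.span_singleton_le_iff_mem _).1 (e2 ▸ Ideal.mul_le_left)
  obtain ⟨y, hy⟩ : ∃ y, y * (a * s₀) = b * s₀ * x := by
    rw [← Ideal.mem_span_singleton', e1]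
    exact Ideal.mul_mem_mul hs' hx
  have hs : a * s₀ ∈ C := (Ideal.span_singleton_le_iff_mem _).1 (e1 ▸ Ideal.mul_le_left)
  set t := b * s₀ - (Q y / Q x) • (a * s₀) with ht
  have htm : t ∈ C * RingHom.ker Q := by
    have h1 : t = (Q x)⁻¹ • (a * s₀ * (y - algebraMap F A (Q y)) -
        b * s₀ * (x - algebraMap F A (Q x))) := by
      rw [eq_inv_smul_iff₀ hx0, ht, smul_sub, smul_smul, mul_div_cancel₀ _ hx0, Algebra.smul_def,
        Algebra.smul_def]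
      linear_combination -hy
    rw [h1, Algebra.smul_def]
    refine Ideal.mul_mem_left _ _ (Ideal.sub_mem _ (Ideal.mul_mem_mul hs ?_)
      (Ideal.mul_mem_mul hs' ?_))
    · simp [RingHom.mem_ker]
    · simp [RingHom.mem_ker]
  have has : a * s₀ ≠ 0 := mul_ne_zero ha hs0
  have hbs : b * s₀ ≠ 0 := mul_ne_zero hb hs0
  have ht0 : t ≠ 0 := by
    intro h
    have h1 : b * s₀ = (Q y / Q x) • (a * s₀) := sub_eq_zero.1 h
    have h2 : Q y / Q x ≠ 0 := by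
      intro h2
      rw [h2, zero_smul] at h1
      exact hbs h1
    have h3 : Ideal.span {b * s₀} = Ideal.span {a * s₀} := by
      rw [h1, Algebra.smul_def]
      exact Ideal.span_singleton_mul_left_unit ((IsUnit.mk0 _ h2).map _) _
    rw [e1, e2] at h3
    exact hne (mul_left_cancel₀ hC1 h3)
  obtain ⟨D', hD'⟩ : C * RingHom.ker Q ∣ Ideal.span {t} :=
    Ideal.dvd_iff_le.2 ((Ideal.span_singleton_le_iff_mem _).2 htm)
  have hD0 : D' ≠ ⊥ := by
    rintro rfl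
    exact span_ne_bot ht0 (by simpa using hD')
  have hD1 : RingHom.ker Q * D' ≠ ⊥ := mul_ne_zero hQ hD0
  refine ⟨RingHom.ker Q * D', hD1, ?_, Ideal.mul_le_left, a * s₀, t, has, ht0, ?_⟩
  · have d1 := hsp _ has
    have d2 := hsp _ hbs
    have d3 := hsp _ ht0
    rw [e1, hmul _ _ hC1 hE] at d1
    rw [e2, hmul _ _ hC1 hJ] at d2
    rw [hD', mul_assoc, hmul _ _ hC1 hD1] at d3
    have d4 := cv.sub (b * s₀) ((Q y / Q x) • (a * s₀))
    have d5 := cv.smul_le (Q y / Q x) (a * s₀)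
    rw [← ht] at d4
    rcases le_max_iff.1 d4 with h | h <;> omega
  · rw [e1, hD']; ring

variable {Ω : Type} [Field Ω] [Algebra F Ω] [IsAlgClosed Ω] [Algebra.IsAlgebraic F Ω]

theorem nZ_ker (hP : S_Pts) (cv : Cv F A) (Q : A →ₐ[F] F) (V : Set (A →ₐ[F] Ω)) :
    nZ (RingHom.ker Q) V = if (Algebra.ofId F Ω).comp Q ∈ V then 1 else 0 := by
  have h := (hP F A Ω cv).2.2.2.2.2.2.2.2 Q
  have h0 := (h ((Algebra.ofId F Ω).comp Q)).1
  rw [nZ_eq_sum hP cv h0 V {(Algebra.ofId F Ω).comp Q} (fun P _ hle => by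
    have h1 := (mI_ne_zero hP cv h0 P).2 hle
    rw [(h P).2.2] at h1
    by_contra h2
    exact h1 (if_neg (by simpa using h2))), Finset.sum_filter, Finset.sum_singleton, (h _).2.2,
    if_pos rfl]

theorem nZ_prod (hP : S_Pts) (cv : Cv F A) {ι : Type} (s : Finset ι) (Q : ι → (A →ₐ[F] F))
    (V : Set (A →ₐ[F] Ω)) : (∏ j ∈ s, RingHom.ker (Q j)) ≠ ⊥ ∧ nZ (∏ j ∈ s, RingHom.ker (Q j)) V =
      ∑ j ∈ s, if (Algebra.ofId F Ω).comp (Q j) ∈ V then 1 else 0 := by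
  have := cv.dom
  induction s using Finset.induction_on with
  | empty =>
    refine ⟨by simp, ?_⟩
    rw [Finset.prod_empty, Finset.sum_empty, Ideal.one_eq_top, nZ_eq_zero hP cv top_ne_bot]
    exact fun P _ h => RingHom.ker_ne_top P (top_le_iff.1 h)
  | insert a s ha ih =>
    have h0 := ((hP F A Ω cv).2.2.2.2.2.2.2.2 (Q a) ((Algebra.ofId F Ω).comp (Q a))).1
    rw [Finset.prod_insert ha, Finset.sum_insert ha, nZ_mul hP cv h0 ih.1, ih.2, nZ_ker hP cv]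
    exact ⟨mul_ne_zero h0 ih.1, rfl⟩

end

variable {F A Ω : Type} [NontriviallyNormedField F] [CharZero F] [CommRing A]
    [Algebra F A] [NontriviallyNormedField Ω] [NormedAlgebra F Ω] [IsAlgClosed Ω]
    [Algebra.IsAlgebraic F Ω]

theorem conv_prod (hP : S_Pts) (cv : Cv F A) {ι : Type} (s : Finset ι) (Q : ι → (A →ₐ[F] F))
    (Q' : ℕ → ι → (A →ₐ[F] F))
    (h : ∀ (W : Finset A) (ε : ℝ), 0 < ε → ∀ j ∈ s, ∀ᶠ k in atTop, Q' k j ∈ Near W ε (Q j)) :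
    Conv (fun k => ∏ j ∈ s, RingHom.ker (Q' k j))
      (fun P : A →ₐ[F] Ω => mI P (∏ j ∈ s, RingHom.ker (Q j))) := by
  intro P
  obtain ⟨W₀, ε₀, hε₀, hd⟩ := exists_disjoint_near (F := F) (A := A) (Ω := Ω)
    (T := insert P ((fun j => (Algebra.ofId F Ω).comp (Q j)) '' (s : Set ι)))
    ((s.finite_toSet.image _).insert _)
  refine ⟨W₀, ε₀, hε₀, fun W ε hW hε hle => ?_⟩
  filter_upwards [(eventually_all_finset s).2 (h W ε hε)] with k hk
  rw [(nZ_prod hP cv s _ _).2, ← nZ_single, (nZ_prod hP cv s _ _).2]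
  refine Finset.sum_congr rfl fun j hj => ?_
  have h1 : (Algebra.ofId F Ω).comp (Q' k j) ∈ Near W ε ((Algebra.ofId F Ω).comp (Q j)) := by
    intro w hw
    have := hk j hj w hw
    rwa [AlgHom.comp_apply, AlgHom.comp_apply, ← map_sub, Algebra.ofId_apply, norm_algebraMap']
  by_cases h2 : (Algebra.ofId F Ω).comp (Q j) = P
  · rw [if_pos (h2 ▸ h1), if_pos (Set.mem_singleton_iff.2 h2)]
  · rw [if_neg, if_neg (fun h3 => h2 (Set.mem_singleton_iff.1 h3))]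
    intro h3
    exact Set.disjoint_left.1 (hd _ (Set.mem_insert_of_mem _ ⟨j, hj, rfl⟩) P (Set.mem_insert _ _) h2)
      (near_mono hW hle _ h1) (near_mono hW hle _ h3)

end PRig2

open PRig2 in
theorem p_rig2 (hCv : S_Cv) (hPts : S_Pts) (hNrm : S_Nrm) (hLim : S_Lim) : S_Rig2 := by
  intro F A Ω _ _ _ _ _ _ _ _ _ cv Q hQ
  have := cv.dom
  obtain ⟨W₁, hW₁⟩ := (c_top hCv hNrm F A F cv).1
  have key : ∀ i, ∃ ε : ℝ, 0 < ε ∧ ∀ Q' : Fin (cv.g + 1) → (A →ₐ[F] F),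
      (∀ j, Q' j ∈ Near W₁ ε (Q j)) → cv.Rig (∏ j ∈ univ.erase i, RingHom.ker (Q' j)) := by
    intro i
    by_contra hcon
    have h1 : ∀ k : ℕ, ∃ Q' : Fin (cv.g + 1) → (A →ₐ[F] F),
        (∀ j, Q' j ∈ Near W₁ (1 / ((k : ℝ) + 1)) (Q j)) ∧
          ¬ cv.Rig (∏ j ∈ univ.erase i, RingHom.ker (Q' j)) := by
      intro k
      by_contra h2
      refine hcon ⟨1 / ((k : ℝ) + 1), by positivity, fun Q' h3 => ?_⟩
      by_contra h4
      exact h2 ⟨Q', h3, h4⟩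
    choose Q' hQ' hr using h1
    have hne : ∀ R : Fin (cv.g + 1) → (A →ₐ[F] F),
        (∏ j ∈ univ.erase i, RingHom.ker (R j)) ≠ ⊥ := fun R =>
      (nZ_prod (Ω := Ω) hPts cv _ R Set.univ).1
    have hdg : ∀ R : Fin (cv.g + 1) → (A →ₐ[F] F),
        dg F (∏ j ∈ univ.erase i, RingHom.ker (R j)) ≤ cv.g := fun R => by
      rw [← nZ_univ (Ω := Ω) hPts cv (hne R), (nZ_prod hPts cv _ R Set.univ).2]
      simp
    have hR := ((hPts F A Ω cv).2.2.2.2.2.2.2.2 (Q i) ((Algebra.ofId F Ω).comp (Q i))).1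
    choose D hD0 hDd hDR hD using fun k => move hCv cv (hne (Q' k)) (hdg (Q' k)) (hr k) (Q i) hR
    obtain ⟨φ, Y, hφ, hY⟩ := (hLim F A Ω cv).1 D cv.g fun k => ⟨hD0 k, hDd k⟩
    have htop : (⊤ : Ideal A) ≠ ⊥ ∧ dg F (⊤ : Ideal A) ≤ cv.g := by
      refine ⟨top_ne_bot, ?_⟩
      rw [← nZ_univ (Ω := Ω) hPts cv top_ne_bot, (nZ_eq_zero hPts cv top_ne_bot).2
        fun P _ h => RingHom.ker_ne_top P (top_le_iff.1 h)]
      exact Nat.zero_le _
    have hc : Conv (fun _ : ℕ => (⊤ : Ideal A)) (fun _ : A →ₐ[F] Ω => 0) := fun P =>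
      ⟨∅, 1, one_pos, fun W ε _ _ _ => Eventually.of_forall fun _ =>
        (nZ_eq_zero hPts cv top_ne_bot).2 fun P _ h => RingHom.ker_ne_top P (top_le_iff.1 h)⟩
    have hE := conv_prod (Ω := Ω) hPts cv (univ.erase i) Q (fun k => Q' (φ k)) (by
      intro W ε hε j _
      obtain ⟨ε', hε', hsub⟩ := hW₁ (Q j) W ε hε
      have h5 := (tendsto_one_div_add_atTop_nhds_zero_nat (𝕜 := ℝ)).comp hφ.tendsto_atTop
      filter_upwards [h5.eventually (gt_mem_nhds hε')] with k hk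
      exact hsub (near_mono le_rfl hk.le _ (hQ' (φ k) j)))
    have h6 := (hLim F A Ω cv).2 _ (D ∘ φ) _ _ _ cv.g _ Y (hne Q) (hQ.2 i)
      (fun k => ⟨hD0 _, hDd _⟩) (fun k => ⟨hne (Q' (φ k)), hdg (Q' (φ k))⟩) (fun _ => htop)
      (fun _ => htop) (fun k => by simpa only [Ideal.mul_top, Function.comp] using hD (φ k))
      hE hc hc hY ((Algebra.ofId F Ω).comp (Q i))
    replace h6 : Y ((Algebra.ofId F Ω).comp (Q i)) = 0 := by
      rw [h6, ← nZ_single, (nZ_prod hPts cv _ _ _).2]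
      refine Finset.sum_eq_zero fun j hj => if_neg fun h7 => ?_
      refine (Finset.mem_erase.1 hj).1 (hQ.1 (AlgHom.ext fun a => ?_))
      exact (algebraMap F Ω).injective (DFunLike.congr_fun (Set.mem_singleton_iff.1 h7) a)
    obtain ⟨W₀, ε₀, hε₀, h8⟩ := hY ((Algebra.ofId F Ω).comp (Q i))
    obtain ⟨k, hk⟩ := (h8 W₀ ε₀ le_rfl hε₀ le_rfl).exists
    rw [h6, Function.comp_apply, nZ_eq_zero hPts cv (hD0 _)] at hk
    refine hk _ (near_self W₀ hε₀ _) ((hDR _).trans fun a ha => ?_)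
    rw [RingHom.mem_ker] at ha ⊢
    rw [AlgHom.comp_apply, ha, map_zero]
  choose e he hk using key
  obtain ⟨W₂, ε₂, hε₂, hd⟩ := exists_disjoint_near (F := F) (A := A) (Ω := F)
    (Set.finite_range Q)
  have h9 : ∀ᶠ ε in 𝓝[>] (0 : ℝ), ε ∈ Set.Ioo 0 ε₂ ∧ ∀ i, ε ∈ Set.Ioo 0 (e i) :=
    Eventually.and (Ioo_mem_nhdsGT hε₂) (eventually_all.2 fun i => Ioo_mem_nhdsGT (he i))
  obtain ⟨ε, h10, h11⟩ := h9.exists
  refine ⟨W₁ ∪ W₂, ε, h10.1, fun Q' hQ' => ⟨fun j j' hjj => ?_, fun i => hk i Q' fun j =>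
    near_mono Finset.subset_union_left (h11 i).2.le _ (hQ' j)⟩⟩
  by_contra hne
  exact Set.disjoint_left.1 (hd _ ⟨j, rfl⟩ _ ⟨j', rfl⟩ fun h => hne (hQ.1 h))
    (near_mono Finset.subset_union_right h10.2.le _ (hQ' j))
    (near_mono Finset.subset_union_right h10.2.le _ (hjj ▸ hQ' j'))

end Pool.Agent.P.MP_b8021b_nt.VC
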