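import Pool.Agent.P.MP_b8021b_nt.VC.StC

/-! Continuity of the roots of polynomials of bounded degree. -/

namespace Pool.Agent.P.MP_b8021b_nt.VC.Stab

open Polynomial Finset Filter Topology
open scoped Classical

variable {K ι : Type} [NormedField K] {l : Filter ι}

/-- coefficientwise convergence -/
def CT (l : Filter ι) (p : ι → K[X]) (p₀ : K[X]) : Prop :=
  ∀ k, Tendsto (fun i => (p i).coeff k) l (𝓝 (p₀.coeff k))

lemma CT.const (q : K[X]) : CT l (fun _ => q) q := fun _ => tendsto_const_nhds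

lemma CT.add {p q : ι → K[X]} {p₀ q₀ : K[X]} (hp : CT l p p₀) (hq : CT l q q₀) :
    CT l (fun i => p i + q i) (p₀ + q₀) := fun k => by
  simp only [coeff_add]
  exact (hp k).add (hq k)

lemma CT.mul {p q : ι → K[X]} {p₀ q₀ : K[X]} (hp : CT l p p₀) (hq : CT l q q₀) :
    CT l (fun i => p i * q i) (p₀ * q₀) := fun k => by
  simp only [coeff_mul]
  exact tendsto_finsetSum _ fun x _ => (hp _).mul (hq _)

lemma CT.sum {α : Type} (s : Finset α) {p : α → ι → K[X]} {p₀ : α → K[X]}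
    (hp : ∀ a ∈ s, CT l (p a) (p₀ a)) : CT l (fun i => ∑ a ∈ s, p a i) (∑ a ∈ s, p₀ a) :=
  fun k => by
  simp only [finsetSum_coeff]
  exact tendsto_finsetSum _ fun a ha => hp a ha k

lemma CT.prod {α : Type} (s : Finset α) {p : α → ι → K[X]} {p₀ : α → K[X]}
    (hp : ∀ a ∈ s, CT l (p a) (p₀ a)) : CT l (fun i => ∏ a ∈ s, p a i) (∏ a ∈ s, p₀ a) := by
  induction s using Finset.induction_on with
  | empty => simpa using CT.const 1
  | insert a s ha ih =>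
    simp only [Finset.prod_insert ha]
    exact (hp a (mem_insert_self _ _)).mul (ih fun b hb => hp b (mem_insert_of_mem hb))

lemma CT.det {n : Type} [Fintype n] [DecidableEq n] {N : ι → Matrix n n K[X]}
    {N₀ : Matrix n n K[X]} (h : ∀ a b, CT l (fun i => N i a b) (N₀ a b)) :
    CT l (fun i => (N i).det) N₀.det := by
  simp only [Matrix.det_apply']
  exact CT.sum _ fun σ _ => (CT.const _).mul (CT.prod _ fun a _ => h _ _)

lemma CT.ne_zero {p : ι → K[X]} {p₀ : K[X]} (hp : CT l p p₀) (h0 : p₀ ≠ 0) :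
    ∀ᶠ i in l, p i ≠ 0 := by
  filter_upwards [(hp p₀.natDegree).eventually_ne (leadingCoeff_ne_zero.mpr h0)] with i hi h
  exact hi (by rw [h, coeff_zero])

lemma CT.unif {p : ι → K[X]} {p₀ : K[X]} (hp : CT l p p₀) {n : ℕ} (hn : ∀ i, (p i).natDegree ≤ n)
    (h0 : p₀.natDegree ≤ n) (R : ℝ) {κ : ℝ} (hκ : 0 < κ) :
    ∀ᶠ i in l, ∀ x : K, ‖x‖ ≤ R → ‖(p i).eval x - p₀.eval x‖ < κ := by
  have h1 : Tendsto (fun i => ∑ k ∈ range (n + 1), ‖(p i).coeff k - p₀.coeff k‖ * R ^ k) l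
      (𝓝 (∑ k ∈ range (n + 1), 0 * R ^ k)) :=
    tendsto_finsetSum _ fun k _ => (tendsto_iff_norm_sub_tendsto_zero.mp (hp k)).mul_const _
  simp only [zero_mul, Finset.sum_const_zero] at h1
  filter_upwards [h1.eventually_lt_const hκ] with i hi x hx
  refine lt_of_le_of_lt ?_ hi
  rw [eval_eq_sum_range' (Nat.lt_succ_of_le (hn i)), eval_eq_sum_range' (Nat.lt_succ_of_le h0),
    ← Finset.sum_sub_distrib]
  refine (norm_sum_le _ _).trans (Finset.sum_le_sum fun k _ => ?_)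
  rw [← sub_mul, norm_mul, norm_pow]
  exact mul_le_mul_of_nonneg_left (pow_le_pow_left₀ (norm_nonneg _) hx _) (norm_nonneg _)

lemma CT.eval {p : ι → K[X]} {p₀ : K[X]} (hp : CT l p p₀) {n : ℕ} (hn : ∀ i, (p i).natDegree ≤ n)
    (h0 : p₀.natDegree ≤ n) (x : K) : Tendsto (fun i => (p i).eval x) l (𝓝 (p₀.eval x)) := by
  rw [Metric.tendsto_nhds]
  intro κ hκ
  filter_upwards [hp.unif hn h0 ‖x‖ hκ] with i hi
  rw [dist_eq_norm]
  exact hi x le_rfl

lemma low_prod (S : Set K) (s : Multiset K) (h : ∀ ρ ∈ s, ∃ δ : ℝ, 0 < δ ∧ ∀ x ∈ S, δ ≤ ‖x - ρ‖) :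
    ∃ κ : ℝ, 0 < κ ∧ ∀ x ∈ S, κ ≤ ‖(s.map (x - ·)).prod‖ := by
  induction s using Multiset.induction_on with
  | empty => exact ⟨1, one_pos, fun x _ => by simp⟩
  | cons a s ih =>
    obtain ⟨κ, hκ, h1⟩ := ih fun ρ hρ => h ρ (Multiset.mem_cons_of_mem hρ)
    obtain ⟨δ, hδ, h2⟩ := h a (Multiset.mem_cons_self _ _)
    refine ⟨δ * κ, mul_pos hδ hκ, fun x hx => ?_⟩
    rw [Multiset.map_cons, Multiset.prod_cons, norm_mul]
    exact mul_le_mul (h2 x hx) (h1 x hx) hκ.le (norm_nonneg _)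

lemma ratio_prod (s : Multiset K) (a x : K) {ε : ℝ} (hε : 0 < ε) (h : ∀ ρ ∈ s, ε ≤ ‖a - ρ‖) :
    ‖(s.map (x - ·)).prod‖ ≤ (1 + ‖x - a‖ / ε) ^ s.card * ‖(s.map (a - ·)).prod‖ := by
  induction s using Multiset.induction_on with
  | empty => simp
  | cons b s ih =>
    have h1 := ih fun ρ hρ => h ρ (Multiset.mem_cons_of_mem hρ)
    have h2 := h b (Multiset.mem_cons_self _ _)
    have h3 : ‖x - b‖ ≤ (1 + ‖x - a‖ / ε) * ‖a - b‖ := by
      have h4 : ‖x - b‖ ≤ ‖x - a‖ + ‖a - b‖ := norm_sub_le_norm_sub_add_norm_sub _ _ _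
      have h5 : ‖x - a‖ / ε * ε ≤ ‖x - a‖ / ε * ‖a - b‖ :=
        mul_le_mul_of_nonneg_left h2 (by positivity)
      rw [div_mul_cancel₀ _ hε.ne'] at h5
      linarith
    simp only [Multiset.map_cons, Multiset.prod_cons, norm_mul, Multiset.card_cons, pow_succ]
    calc _ ≤ ((1 + ‖x - a‖ / ε) * ‖a - b‖) *
          ((1 + ‖x - a‖ / ε) ^ s.card * ‖(s.map (a - ·)).prod‖) :=
          mul_le_mul h3 h1 (norm_nonneg _) (by positivity)
      _ = _ := by ring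

variable [IsAlgClosed K]

/-- no roots on a bounded set that stays away from the roots of the limit -/
lemma CT.no_root {p : ι → K[X]} {p₀ : K[X]} (hp : CT l p p₀) {n : ℕ}
    (hn : ∀ i, (p i).natDegree ≤ n) (h0 : p₀.natDegree ≤ n) (hne : p₀ ≠ 0) (S : Set K) (R : ℝ)
    (hR : ∀ x ∈ S, ‖x‖ ≤ R) (h : ∀ ρ ∈ p₀.roots, ∃ δ : ℝ, 0 < δ ∧ ∀ x ∈ S, δ ≤ ‖x - ρ‖) :
    ∀ᶠ i in l, ∀ x ∈ S, (p i).eval x ≠ 0 := by
  obtain ⟨κ, hκ, h1⟩ := low_prod S _ h
  have hc : 0 < ‖p₀.leadingCoeff‖ := norm_pos_iff.mpr (leadingCoeff_ne_zero.mpr hne)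
  filter_upwards [hp.unif hn h0 R (mul_pos hc hκ)] with i hi x hx h2
  have h3 := hi x (hR x hx)
  rw [h2, zero_sub, norm_neg, (IsAlgClosed.splits p₀).eval_eq_prod_roots, norm_mul] at h3
  exact absurd (mul_le_mul_of_nonneg_left (h1 x hx) hc.le) (not_le.mpr h3)

/-- a root of the limit is a limit of roots -/
lemma CT.near_root {p : ι → K[X]} {p₀ : K[X]} (hp : CT l p p₀) {n : ℕ}
    (hn : ∀ i, (p i).natDegree ≤ n) (h0 : p₀.natDegree ≤ n) (hne : p₀ ≠ 0) {a₀ : K}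
    (ha : p₀.eval a₀ = 0) {ε : ℝ} (hε : 0 < ε) :
    ∀ᶠ i in l, ∃ a, (p i).eval a = 0 ∧ ‖a - a₀‖ < ε := by
  obtain ⟨x, hx⟩ := Infinite.exists_notMem_finset p₀.roots.toFinset
  have hx0 : 0 < ‖p₀.eval x‖ := by
    rw [norm_pos_iff]
    intro h
    exact hx (Multiset.mem_toFinset.mpr ((mem_roots hne).mpr h))
  have h1 := ((hp.eval hn h0 a₀).norm.const_mul ((1 + ‖x - a₀‖ / ε) ^ n)).eventually_lt
    (hp.eval hn h0 x).norm (by rw [ha, norm_zero, mul_zero]; exact hx0)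
  filter_upwards [h1, hp.ne_zero hne] with i hi hi0
  by_contra hc
  push Not at hc
  have h2 := ratio_prod (p i).roots a₀ x hε fun ρ hρ => by
    rw [norm_sub_rev]
    exact hc ρ ((mem_roots hi0).mp hρ)
  have h3 : (1 + ‖x - a₀‖ / ε) ^ (p i).roots.card ≤ (1 + ‖x - a₀‖ / ε) ^ n :=
    pow_le_pow_right₀ (le_add_of_nonneg_right (by positivity)) ((card_roots' _).trans (hn i))
  rw [(IsAlgClosed.splits (p i)).eval_eq_prod_roots, (IsAlgClosed.splits (p i)).eval_eq_prod_roots,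
    norm_mul, norm_mul] at hi
  refine absurd hi (not_lt.mpr ?_)
  rw [mul_left_comm]
  exact mul_le_mul_of_nonneg_left (h2.trans (mul_le_mul_of_nonneg_right h3 (norm_nonneg _)))
    (norm_nonneg _)

omit [IsAlgClosed K] in
lemma CT.div {p : ι → K[X]} {p₀ : K[X]} (hp : CT l p p₀) {n : ℕ}
    (hn : ∀ i, (p i).natDegree ≤ n) (h0 : p₀.natDegree ≤ n) {a : ι → K} {a₀ : K}
    (ha : Tendsto a l (𝓝 a₀)) : CT l (fun i => p i /ₘ (X - C (a i))) (p₀ /ₘ (X - C a₀)) := by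
  have key : ∀ j k, n + 1 ≤ k + j → Tendsto (fun i => (p i /ₘ (X - C (a i))).coeff k) l
      (𝓝 ((p₀ /ₘ (X - C a₀)).coeff k)) := by
    intro j
    induction j with
    | zero =>
      intro k hk
      have e : ∀ (q : K[X]) (b : K), q.natDegree ≤ n → (q /ₘ (X - C b)).coeff k = 0 :=
        fun q b hq => coeff_eq_zero_of_natDegree_lt (by
          rw [natDegree_divByMonic _ (monic_X_sub_C b)]
          omega)
      simp only [e _ _ (hn _), e _ _ h0]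
      exact tendsto_const_nhds
    | succ j ih =>
      intro k hk
      simp only [coeff_divByMonic_X_sub_C_rec _ _ k]
      exact (hp _).add (ha.mul (ih (k + 1) (by omega)))
  exact fun k => key (n + 1) k (by omega)

/-- the number of roots in a small ball -/
lemma count_roots (n : ℕ) (a₀ : K) {r : ℝ} (hr : 0 < r) (m : ℕ) :
    ∀ (ι : Type) (l : Filter ι) (p : ι → K[X]) (p₀ : K[X]), CT l p p₀ →
      (∀ i, (p i).natDegree ≤ n) → p₀.natDegree ≤ n → p₀ ≠ 0 → rootMultiplicity a₀ p₀ = m →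
      (∀ ρ ∈ p₀.roots, ρ ≠ a₀ → r < ‖ρ - a₀‖) →
      ∀ᶠ i in l, ((p i).roots.filter fun x => ‖x - a₀‖ < r).card = m := by
  induction m with
  | zero =>
    intro ι l p p₀ hp hn h0 hne hm hs
    have h1 := hp.no_root hn h0 hne {x | ‖x - a₀‖ < r} (r + ‖a₀‖)
      (fun x hx => (norm_le_norm_sub_add x a₀).trans (by linarith [show ‖x - a₀‖ < r from hx]))
      (fun ρ hρ => ⟨‖ρ - a₀‖ - r, sub_pos.mpr (hs ρ hρ (by
        rintro rfl
        exact (rootMultiplicity_pos hne).mpr ((mem_roots hne).mp hρ) |>.ne' hm)), fun x hx => by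
        have h2 : ‖ρ - a₀‖ ≤ ‖ρ - x‖ + ‖x - a₀‖ := norm_sub_le_norm_sub_add_norm_sub _ _ _
        rw [norm_sub_rev x]
        linarith [show ‖x - a₀‖ < r from hx]⟩)
    filter_upwards [h1] with i hi
    rw [Multiset.card_eq_zero, Multiset.filter_eq_nil]
    exact fun x hx hx' => hi x hx' (mem_roots'.mp hx).2
  | succ m ih =>
    intro ι l p p₀ hp hn h0 hne hm hs
    have ha : p₀.IsRoot a₀ := (rootMultiplicity_pos hne).mp (by omega)
    have e0 := mul_divByMonic_eq_iff_isRoot.mpr ha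
    have hq : p₀ /ₘ (X - C a₀) ≠ 0 := fun h => hne (by rw [← e0, h, mul_zero])
    have hd : ∀ (q : K[X]) (b : K), q.natDegree ≤ n → (q /ₘ (X - C b)).natDegree ≤ n :=
      fun q b hq => by
        rw [natDegree_divByMonic _ (monic_X_sub_C b)]
        omega
    have h1 := ih (ι × K) (l ×ˢ 𝓝 a₀) (fun x => p x.1 /ₘ (X - C x.2)) (p₀ /ₘ (X - C a₀))
      (CT.div (p := fun x : ι × K => p x.1) (fun k => (hp k).comp tendsto_fst) (fun x => hn x.1)
        h0 tendsto_snd) (fun x => hd _ _ (hn _)) (hd _ _ h0) hq (by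
        rw [← e0, rootMultiplicity_mul (by rw [e0]; exact hne), rootMultiplicity_X_sub_C_self] at hm
        omega) (fun ρ hρ => hs ρ (by
        rw [← e0, roots_mul (by rw [e0]; exact hne)]
        exact Multiset.mem_add.mpr (Or.inr hρ)))
    obtain ⟨pa, h2, ε, hε, h3⟩ := Metric.eventually_prod_nhds_iff.mp h1
    filter_upwards [h2, hp.near_root hn h0 hne ha (lt_min hε hr), hp.ne_zero hne] with i hi hb hi0
    obtain ⟨a, ha1, ha2⟩ := hb
    have e1 := mul_divByMonic_eq_iff_isRoot.mpr ha1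
    have h4 := h3 hi (x := a) (by rw [dist_eq_norm]; exact ha2.trans_le (min_le_left _ _))
    rw [← e1, roots_mul (by rw [e1]; exact hi0), roots_X_sub_C, Multiset.filter_add,
      Multiset.card_add, h4, Multiset.filter_singleton,
      if_pos (ha2.trans_le (min_le_right _ _)), Multiset.card_singleton, add_comm]

/-- the roots of monic polynomials accumulate at the roots of the limit -/
lemma CT.monic_root {p : ι → K[X]} {p₀ : K[X]} (hp : CT l p p₀) {n : ℕ}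
    (hn : ∀ i, (p i).natDegree ≤ n) (h0 : p₀.natDegree ≤ n) (hne : p₀ ≠ 0)
    (hm : ∀ i, (p i).Monic) {ε : ℝ} (hε : 0 < ε) :
    ∀ᶠ i in l, ∀ x, (p i).eval x = 0 → ∃ ρ ∈ p₀.roots, ‖x - ρ‖ < ε := by
  set R : ℝ := ∑ k ∈ range n, ‖p₀.coeff k‖ + 1 + 1 with hR
  have h1 := hp.no_root hn h0 hne {x | ‖x‖ ≤ R ∧ ∀ ρ ∈ p₀.roots, ε ≤ ‖x - ρ‖} R
    (fun x hx => hx.1) (fun ρ hρ => ⟨ε, hε, fun x hx => hx.2 ρ hρ⟩)
  have h2 : Tendsto (fun i => ∑ k ∈ range n, ‖(p i).coeff k‖) l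
      (𝓝 (∑ k ∈ range n, ‖p₀.coeff k‖)) := tendsto_finsetSum _ fun k _ => (hp k).norm
  filter_upwards [h1, h2.eventually_lt_const (lt_add_one _)] with i hi hi2 x hx
  by_contra hc
  push Not at hc
  refine hi x ⟨?_, hc⟩ hx
  have h3 := IsRoot.norm_lt_cauchyBound (hm i).ne_zero hx
  rw [cauchyBound, (hm i).leadingCoeff, nnnorm_one, div_one] at h3
  have h4 : (range (p i).natDegree).sup (fun k => ‖(p i).coeff k‖₊) ≤
      ∑ k ∈ range n, ‖(p i).coeff k‖₊ :=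
    Finset.sup_le fun k hk => Finset.single_le_sum (f := fun k => ‖(p i).coeff k‖₊)
      (fun _ _ => zero_le) (mem_range.mpr ((mem_range.mp hk).trans_le (hn i)))
  have h5 : ‖x‖ < ∑ k ∈ range n, ‖(p i).coeff k‖ + 1 := by
    have := NNReal.coe_lt_coe.mpr (h3.trans_le (add_le_add_left h4 1))
    simpa only [coe_nnnorm, NNReal.coe_add, NNReal.coe_sum, NNReal.coe_one] using this
  linarith

/-- along an ultrafilter a root of monic polynomials has a limit -/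
lemma CT.ultra {U : Ultrafilter ι} {p : ι → K[X]} {p₀ : K[X]} (hp : CT U p p₀) {n : ℕ}
    (hn : ∀ i, (p i).natDegree ≤ n) (h0 : p₀.natDegree ≤ n) (hne : p₀ ≠ 0)
    (hm : ∀ i, (p i).Monic) {x : ι → K} (hx : ∀ i, (p i).eval (x i) = 0) :
    ∃ ρ, Tendsto x U (𝓝 ρ) := by
  by_contra hc
  push Not at hc
  have h1 : ∀ ρ : K, ∃ ε : ℝ, 0 < ε ∧ ∀ᶠ i in U, ε ≤ ‖x i - ρ‖ := by
    intro ρ
    have h2 := hc ρ
    rw [Metric.tendsto_nhds] at h2
    push Not at h2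
    obtain ⟨ε, hε, h3⟩ := h2
    exact ⟨ε, hε, by simpa only [dist_eq_norm] using h3⟩
  choose ε hε h2 using h1
  have h3 : ∀ᶠ i in U, ∀ ρ ∈ p₀.roots.toFinset, ∀ y, (p i).eval y = 0 →
      ∃ ρ' ∈ p₀.roots, ‖y - ρ'‖ < ε ρ :=
    (eventually_all_finset _).mpr fun ρ _ => hp.monic_root hn h0 hne hm (hε ρ)
  have h4 : ∀ᶠ i in U, ∀ ρ ∈ p₀.roots.toFinset, ε ρ ≤ ‖x i - ρ‖ :=
    (eventually_all_finset _).mpr fun ρ _ => h2 ρ
  obtain ⟨i, ρ₁, hρ₁, -⟩ := ((hp.monic_root hn h0 hne hm one_pos).mono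
    fun i hi => hi (x i) (hx i)).exists
  obtain ⟨ρ₀, hρ₀, hmin⟩ := p₀.roots.toFinset.exists_min_image ε
    ⟨ρ₁, Multiset.mem_toFinset.mpr hρ₁⟩
  obtain ⟨i, h5, h6⟩ := (h3.and h4).exists
  obtain ⟨ρ, hρ, h7⟩ := h5 ρ₀ hρ₀ (x i) (hx i)
  have hρ' := Multiset.mem_toFinset.mpr hρ
  linarith [h6 ρ hρ', hmin ρ hρ']

end Pool.Agent.P.MP_b8021b_nt.VC.Stab
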