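import Mathlib

/-! The method of Stepanov for a ring with a derivation: linear algebra. -/

namespace Pool.Agent.P.MP_b8021b_nt.VC.Step

open Finset

section Der

variable {K B : Type} [Field K] [CommRing B] [Algebra K B] (D : Derivation K B B)

/-- the iterates of a derivation -/
noncomputable def it (k : ℕ) : B →ₗ[K] B := (D.toLinearMap : Module.End K B) ^ k

theorem it_zero (x : B) : it D 0 x = x := rfl

theorem it_succ (k : ℕ) (x : B) : it D (k + 1) x = it D k (D x) := by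
  rw [it, pow_succ]; rfl

theorem it_succ' (k : ℕ) (x : B) : it D (k + 1) x = D (it D k x) := by
  rw [it, pow_succ']; rfl

theorem D_pow_mul (g h : B) (n : ℕ) :
    D (g ^ (n + 1) * h) = g ^ n * ((n + 1 : ℕ) * D g * h + g * D h) := by
  rw [D.leibniz, D.leibniz_pow]
  simp only [smul_eq_mul, nsmul_eq_mul, Nat.add_sub_cancel]
  ring

theorem it_const {c : B} (hc : D c = 0) (k : ℕ) (x : B) : it D k (c * x) = c * it D k x := by
  induction k generalizing x with
  | zero => rfl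
  | succ k ih => rw [it_succ, it_succ, D.leibniz, hc, smul_zero, add_zero, smul_eq_mul, ih]

variable (φ : B →ₐ[K] K)

theorem van_lt {g : B} (hg : φ g = 0) (k n : ℕ) (h : B) (hk : k < n) :
    φ (it D k (g ^ n * h)) = 0 := by
  induction k generalizing n h with
  | zero => rw [it_zero, map_mul, map_pow, hg, zero_pow hk.ne', zero_mul]
  | succ k ih =>
    obtain ⟨n, rfl⟩ : ∃ m, n = m + 1 := ⟨n - 1, by omega⟩
    rw [it_succ, D_pow_mul, ih _ _ (by omega)]

theorem van_eq {g : B} (hg : φ g = 0) (k : ℕ) (h : B) :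
    φ (it D k (g ^ k * h)) = (k.factorial : K) * φ (D g) ^ k * φ h := by
  induction k generalizing h with
  | zero => simp [it_zero]
  | succ k ih =>
    rw [it_succ, D_pow_mul, ih, Nat.factorial_succ]
    simp only [map_add, map_mul, hg, map_natCast, Nat.cast_mul]
    ring

theorem van_mul (k : ℕ) (x g : B) (hx : ∀ i ≤ k, φ (it D i x) = 0) :
    φ (it D k (x * g)) = 0 := by
  induction k generalizing x g with
  | zero =>
    have := hx 0 le_rfl
    rw [it_zero] at this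
    rw [it_zero, map_mul, this, zero_mul]
  | succ k ih =>
    rw [it_succ, D.leibniz, map_add, map_add, smul_eq_mul, smul_eq_mul, mul_comm g,
      ih x _ fun i hi => hx i (by omega),
      ih (D x) g fun i hi => by rw [← it_succ]; exact hx _ (by omega), add_zero]

theorem indep {ι : Type} [Fintype ι] (φ : ι → B →ₐ[K] K) (hφ : Function.Injective φ) (z : B)
    (hz : ∀ i, φ i (D z) ≠ 0) (M : ℕ) (hM : ∀ k < M, (k.factorial : K) ≠ 0) :
    ∃ f : ι × Fin M → B, ∀ c : ι × Fin M → K,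
      (∀ i, ∀ k < M, φ i (it D k (∑ t, c t • f t)) = 0) → ∀ t, c t = 0 := by
  classical
  have h1 : ∀ i j, ∃ b, (i ≠ j → φ j b = 0) ∧ φ i b ≠ 0 := by
    intro i j
    by_cases h : i = j
    · exact ⟨1, fun h' => absurd h h', by simp⟩
    · obtain ⟨b, hb⟩ := DFunLike.ne_iff.1 (hφ.ne h)
      exact ⟨b - algebraMap K B (φ j b), fun _ => by simp, by simpa using sub_ne_zero.2 hb⟩
  choose b hb hb' using h1
  have h2 : ∀ i j, i ≠ j → φ j (∏ l, b i l) = 0 := fun i j h => by
    rw [map_prod]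
    exact prod_eq_zero (mem_univ j) (hb i j h)
  have h3 : ∀ i, φ i (∏ l, b i l) ≠ 0 := fun i => by
    rw [map_prod]
    exact prod_ne_zero_iff.2 fun l _ => hb' i l
  refine ⟨fun t => (z - algebraMap K B (φ t.1 z)) ^ t.2.1 * (∏ l, b t.1 l) ^ M, fun c hc => ?_⟩
  suffices h : ∀ k (hk : k < M) i, c (i, ⟨k, hk⟩) = 0 from fun t => h _ t.2.2 t.1
  intro k
  induction k using Nat.strong_induction_on with
  | _ k ih =>
    intro hk i
    have h4 : φ i (z - algebraMap K B (φ i z)) = 0 := by simp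
    have h5 := hc i k hk
    rw [map_sum, map_sum, sum_eq_single (i, ⟨k, hk⟩)] at h5
    · rw [map_smul, map_smul, van_eq D _ h4, map_pow, map_sub, D.map_algebraMap, sub_zero] at h5
      exact (smul_eq_zero.1 h5).resolve_right
        (mul_ne_zero (mul_ne_zero (hM k hk) (pow_ne_zero _ (hz i))) (pow_ne_zero _ (h3 i)))
    · rintro ⟨j, l, hl⟩ - hne
      rw [map_smul, map_smul]
      by_cases hj : j = i
      · subst hj
        rcases lt_trichotomy l k with h | h | h
        · rw [ih l h hl, zero_smul]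
        · subst h
          exact absurd rfl hne
        · rw [van_lt D _ h4 _ _ _ h, smul_zero]
      · beta_reduce
        rw [mul_comm, van_lt D _ (h2 j i hj) _ _ _ hk, smul_zero]
    · simp

end Der

section Box

variable (K : Type) {B : Type} [Field K] [CommRing B] [Algebra K B]

/-- the span of the monomials in a box -/
def Bx (z u : B) (e n : ℕ) : Submodule K B :=
  Submodule.span K (Set.range fun t : Fin (n + 1) × Fin e => z ^ t.1.1 * u ^ t.2.1)

variable {K} {z u : B} {e κ n m : ℕ} {x y : B}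

theorem mem_Bx {a i : ℕ} (ha : a ≤ n) (hi : i < e) : z ^ a * u ^ i ∈ Bx K z u e n :=
  Submodule.subset_span ⟨(⟨a, Nat.lt_succ_of_le ha⟩, ⟨i, hi⟩), rfl⟩

theorem Bx_ind (f : B →ₗ[K] B) (W : Submodule K B)
    (h : ∀ a ≤ n, ∀ i < e, f (z ^ a * u ^ i) ∈ W) (hx : x ∈ Bx K z u e n) : f x ∈ W := by
  refine (Submodule.span_le (p := W.comap f)).2 ?_ hx
  rintro _ ⟨t, rfl⟩
  exact h _ (Nat.le_of_lt_succ t.1.2) _ t.2.2

theorem Bx_mono (h : n ≤ m) (hx : x ∈ Bx K z u e n) : x ∈ Bx K z u e m :=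
  Bx_ind LinearMap.id _ (fun _ ha _ hi => mem_Bx (ha.trans h) hi) hx

theorem zmul (a : ℕ) (hx : x ∈ Bx K z u e n) : z ^ a * x ∈ Bx K z u e (n + a) :=
  Bx_ind (LinearMap.mulLeft K (z ^ a)) _ (fun b hb i hi => by
    rw [LinearMap.mulLeft_apply, ← mul_assoc, ← pow_add]
    exact mem_Bx (by omega) hi) hx

theorem umul (hu : u ^ e ∈ Bx K z u e κ) (i : ℕ) (hx : x ∈ Bx K z u e n) :
    u ^ i * x ∈ Bx K z u e (n + i * κ) := by
  induction i with
  | zero => simpa using hx
  | succ i ih =>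
    rw [pow_succ', mul_assoc, add_mul, one_mul, ← add_assoc]
    refine Bx_ind (LinearMap.mulLeft K u) _ (fun b hb l hl => ?_) ih
    rw [LinearMap.mulLeft_apply, mul_left_comm, ← pow_succ']
    rcases Nat.lt_or_eq_of_le (Nat.succ_le_of_lt hl) with h | h
    · exact mem_Bx (by omega) h
    · rw [show l + 1 = e from h]
      exact Bx_mono (by omega) (zmul b hu)

theorem Bx_mul (hu : u ^ e ∈ Bx K z u e κ) (hx : x ∈ Bx K z u e n) (hy : y ∈ Bx K z u e m) :
    x * y ∈ Bx K z u e (n + m + e * κ) :=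
  Bx_ind (LinearMap.mulRight K y) _ (fun a ha i hi => by
    rw [LinearMap.mulRight_apply, mul_assoc]
    have := Nat.mul_le_mul_right κ hi.le
    exact Bx_mono (by omega) (zmul a (umul hu i hy))) hx

theorem Bx_D (D : Derivation K B B) (hu : u ^ e ∈ Bx K z u e κ) (h1 : D z ∈ Bx K z u e κ)
    (h2 : D u ∈ Bx K z u e κ) (k : ℕ) (hx : x ∈ Bx K z u e n) :
    it D k x ∈ Bx K z u e (n + k * (κ + e * κ)) := by
  induction k with
  | zero => simpa [it_zero] using hx
  | succ k ih =>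
    rw [it_succ', add_mul, one_mul, ← add_assoc, ← add_assoc]
    refine Bx_ind D.toLinearMap _ (fun a ha i hi => ?_) ih
    have e1 : D.toLinearMap (z ^ a * u ^ i) =
        i • (z ^ a * u ^ (i - 1) * D u) + a • (z ^ (a - 1) * u ^ i * D z) := by
      rw [Derivation.coeFn_coe, D.leibniz, D.leibniz_pow, D.leibniz_pow]
      simp only [smul_eq_mul, nsmul_eq_mul]
      ring
    rw [e1]
    exact add_mem (nsmul_mem (Bx_mul hu (mem_Bx ha (by omega)) h2) _)
      (nsmul_mem (Bx_mul hu (mem_Bx (by omega) hi) h1) _)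

instance : Module.Finite K (Bx K z u e n) := Module.Finite.span_of_finite K (Set.finite_range _)

theorem finrank_Bx : Module.finrank K (Bx K z u e n) ≤ (n + 1) * e :=
  (finrank_range_le_card _).trans (by simp)

theorem exists_sol {ι T : Type} [Fintype ι] [Fintype T] (g : ι → T → B)
    (hg : ∀ i t, g i t ∈ Bx K z u e n) (h : Fintype.card ι * ((n + 1) * e) < Fintype.card T) :
    ∃ α : T → K, (∀ i, ∑ t, α t • g i t = 0) ∧ ∃ t, α t ≠ 0 := by
  have h1 : ¬ LinearIndependent K fun t i => (⟨g i t, hg i t⟩ : Bx K z u e n) := fun h1 => by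
    have h2 := h1.fintype_card_le_finrank
    rw [Module.finrank_pi_fintype, sum_const, card_univ, smul_eq_mul] at h2
    exact absurd (h2.trans (Nat.mul_le_mul_left _ finrank_Bx)) h.not_ge
  obtain ⟨α, h2, h3⟩ := Fintype.not_linearIndependent_iff.1 h1
  refine ⟨α, fun i => ?_, h3⟩
  simpa using congrArg Subtype.val (congrFun h2 i)

theorem card_le {T : Type} [Fintype T] (g : T → B) (hg : ∀ t, g t ∈ Bx K z u e n)
    (h : LinearIndependent K g) : Fintype.card T ≤ (n + 1) * e := by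
  rw [← finrank_span_eq_card h]
  exact (Submodule.finrank_mono (Submodule.span_le.2 (Set.range_subset_iff.2 hg))).trans finrank_Bx

end Box

section Main

variable {K B Ω ι : Type} [Field K] [CommRing B] [Algebra K B] [Field Ω] [Algebra K Ω] [Fintype ι]
  {z u : B} {e κ δ : ℕ}

theorem wt_inj (hδ : δ % e = 1) {a a' i i' : ℕ} (hi : i < e) (hi' : i' < e)
    (h : e * a + δ * i = e * a' + δ * i') : a = a' ∧ i = i' := by
  have h1 := congrArg (· % e) h
  simp only [Nat.mul_add_mod] at h1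
  rw [Nat.mul_mod, hδ, one_mul, Nat.mod_mod, Nat.mod_eq_of_lt hi, Nat.mul_mod, hδ, one_mul,
    Nat.mod_mod, Nat.mod_eq_of_lt hi'] at h1
  subst h1
  exact ⟨Nat.eq_of_mul_eq_mul_left (Nat.zero_lt_of_lt hi) (by omega), rfl⟩

/-- monomials of different weights are independent -/
def Li (K : Type) {Ω : Type} [Field K] [Field Ω] [Algebra K Ω] (z u : Ω) (e δ : ℕ) : Prop :=
  ∀ (T : Type) [Fintype T] (a i : T → ℕ), (Function.Injective fun t => e * a t + δ * i t) →
    ∀ c : T → K, ∑ t, c t • (z ^ a t * u ^ i t) = 0 → ∀ t, c t = 0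

theorem count (D : Derivation K B B) (π : B →ₐ[K] Ω) (hδ : δ % e = 1)
    (hli : Li K (π z) (π u) e δ) (hu : u ^ e ∈ Bx K z u e κ) (hgen : ∀ x, ∃ n, x ∈ Bx K z u e n)
    (φ : ι → B →ₐ[K] K) (hφ : Function.Injective φ) (hz : ∀ i, φ i (D z) ≠ 0) {M : ℕ}
    (hM : ∀ k < M, (k.factorial : K) ≠ 0) {Ψ : B} {b : ℕ} (hb : Ψ ∈ Bx K z u e b)
    (h0 : π Ψ ≠ 0) (hv : ∀ i, ∀ k < M, φ i (it D k Ψ) = 0) :
    Fintype.card ι * M ≤ (b + e * κ) * e := by
  obtain ⟨f, hf⟩ := indep D φ hφ z hz M hM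
  choose n hn using hgen
  set N := ∑ t, n (f t) with hN
  have h := card_le (K := K) (z := z) (u := u) (e := e) (n := b + N + e * κ)
    (Sum.elim f fun t : Fin (N + 1) × Fin e => Ψ * (z ^ t.1.1 * u ^ t.2.1)) ?_ ?_
  · simp only [Fintype.card_sum, Fintype.card_prod, Fintype.card_fin] at h
    nlinarith
  · rintro (t | t)
    · have : n (f t) ≤ N := single_le_sum (f := fun t => n (f t)) (fun _ _ => Nat.zero_le _)
        (mem_univ t)
      exact Bx_mono (by omega) (hn (f t))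
    · exact Bx_mul hu hb (mem_Bx (Nat.le_of_lt_succ t.1.2) t.2.2)
  · rw [Fintype.linearIndependent_iff]
    intro c hc
    rw [Fintype.sum_sum_type] at hc
    simp only [Sum.elim_inl, Sum.elim_inr, ← mul_smul_comm _ Ψ, ← mul_sum] at hc
    have h1 := hf (fun t => c (Sum.inl t)) fun i k hk => by
      rw [eq_neg_of_add_eq_zero_left hc, ← mul_neg]
      exact van_mul D _ _ _ _ fun j hj => hv i j (hj.trans_lt hk)
    simp only [h1, zero_smul, sum_const_zero, zero_add] at hc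
    have h2 := congrArg π hc
    simp only [map_mul, map_sum, map_smul, map_pow, map_zero] at h2
    have h3 := hli (Fin (N + 1) × Fin e) (fun t => t.1.1) (fun t => t.2.1) (fun t t' h =>
      Prod.ext (Fin.ext (wt_inj hδ t.2.2 t'.2.2 h).1) (Fin.ext (wt_inj hδ t.2.2 t'.2.2 h).2))
      (fun t => c (Sum.inr t)) ((mul_eq_zero.1 h2).resolve_left h0)
    rintro (t | t)
    exacts [h1 t, h3 t]

theorem step {d ρ m ν p : ℕ} (hp : p.Prime) [CharP K p] (he : e = d + 1) (D : Derivation K B B)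
    (π : B →ₐ[K] Ω) (hδ : δ % e = 1) (hli : Li K (π z) (π u) e δ) (hu : u ^ e ∈ Bx K z u e κ)
    (hgen : ∀ x, ∃ n, x ∈ Bx K z u e n) (h1 : D z ∈ Bx K z u e κ) (h2 : D u ∈ Bx K z u e κ)
    (r : Fin e → Fin d → B) (hr : ∀ l l', r l l' ∈ Bx K z u e ρ)
    (φ : ι → B →ₐ[K] K) (hφ : Function.Injective φ) (hz : ∀ i, φ i (D z) ≠ 0)
    (hz' : ∀ i, φ i z ^ p = φ i z)
    (hr' : ∀ i l, (φ i u ^ p) ^ l.1 = ∑ l', φ i (r l l') * (φ i u ^ p) ^ l'.1)
    (hν : m * d * (e * m * (κ + e * κ) + d * m + ρ + e * κ + 1) < ν) (hp1 : e * ν + δ * e ≤ p)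
    (hp2 : e * m ≤ p) : Fintype.card ι * m ≤ ν + p * (d * m) + (p + 2) * (e * κ) := by
  have he0 : 0 < e := by omega
  obtain ⟨α, hα, t₀, ht₀⟩ := exists_sol (K := K) (z := z) (u := u) (e := e)
    (n := ν + e * m * (κ + e * κ) + d * m + ρ + e * κ)
    (fun (s : Fin (e * m) × Fin d) (t : (Fin (d * m + 1) × Fin e) × Fin ν × Fin e) =>
      z ^ t.1.1.1 * it D s.1.1 (z ^ t.2.1.1 * u ^ t.2.2.1) * r t.1.2 s.2) (fun s t => by
      refine Bx_mul hu (Bx_mono ?_ (zmul _ (Bx_D D hu h1 h2 _ (mem_Bx t.2.1.2.le t.2.2.2))))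
        (hr _ _)
      have a1 := Nat.mul_le_mul_right (κ + e * κ) s.1.2.le
      have a2 := t.1.1.2
      omega) (by
      simp only [Fintype.card_prod, Fintype.card_fin]
      have := Nat.mul_lt_mul_of_pos_left hν (Nat.mul_pos he0 he0)
      nlinarith)
  have hc : ∀ (x : B) (j : ℕ), D (x ^ (p * j)) = 0 := fun x j => by
    rw [D.leibniz_pow, nsmul_eq_mul, Nat.cast_mul, ← map_natCast (algebraMap K B) p,
      CharP.cast_eq_zero, map_zero, zero_mul, zero_mul]
  have h := count (M := e * m) D π hδ hli hu hgen φ hφ hz (fun k hk h => by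
      rw [CharP.cast_eq_zero_iff K p, hp.dvd_factorial] at h
      omega)
    (Ψ := ∑ t, α t • (z ^ (t.2.1.1 + p * t.1.1.1) * u ^ (t.2.2.1 + p * t.1.2.1)))
    (b := ν + p * (d * m) + (e + p * e) * κ) (Submodule.sum_mem _ fun t _ => Submodule.smul_mem _ _ ?_)
    (fun h => ht₀ ?_) fun i k hk => ?_
  · refine Nat.le_of_mul_le_mul_right (le_trans (le_of_eq ?_) (h.trans_eq ?_)) he0 <;> ring
  · have a1 := umul hu (t.2.2.1 + p * t.1.2.1) (mem_Bx (K := K) (z := z) (u := u)
      (le_refl (t.2.1.1 + p * t.1.1.1)) he0)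
    rw [pow_zero, mul_one, mul_comm (u ^ _)] at a1
    refine Bx_mono (add_le_add (add_le_add t.2.1.2.le ?_) ?_) a1
    · exact Nat.mul_le_mul_left _ (Nat.le_of_lt_succ t.1.1.2)
    · exact Nat.mul_le_mul_right _ (add_le_add t.2.2.2.le (Nat.mul_le_mul_left _ t.1.2.2.le))
  · simp only [map_mul, map_sum, map_smul, map_pow] at h
    refine hli _ _ _ (fun t t' h => ?_) α h t₀
    have b : ∀ t : (Fin (d * m + 1) × Fin e) × Fin ν × Fin e, e * t.2.1.1 + δ * t.2.2.1 < p :=
      fun t => (add_lt_add_of_lt_of_le (Nat.mul_lt_mul_of_pos_left t.2.1.2 he0)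
        (Nat.mul_le_mul_left _ t.2.2.2.le)).trans_le hp1
    have e1 : e * t.2.1.1 + δ * t.2.2.1 + p * (e * t.1.1.1 + δ * t.1.2.1) =
        e * t'.2.1.1 + δ * t'.2.2.1 + p * (e * t'.1.1.1 + δ * t'.1.2.1) := by
      beta_reduce at h
      linarith
    have e2 := congrArg (· % p) e1
    simp only [Nat.add_mul_mod_self_left, Nat.mod_eq_of_lt (b _)] at e2
    rw [e2] at e1
    have e3 := Nat.eq_of_mul_eq_mul_left hp.pos (Nat.add_left_cancel e1)
    have e4 := wt_inj hδ t.2.2.2 t'.2.2.2 e2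
    have e5 := wt_inj hδ t.1.2.2 t'.1.2.2 e3
    exact Prod.ext (Prod.ext (Fin.ext e5.1) (Fin.ext e5.2)) (Prod.ext (Fin.ext e4.1) (Fin.ext e4.2))
  · have e1 : ∀ t : (Fin (d * m + 1) × Fin e) × Fin ν × Fin e,
        φ i (it D k (α t • (z ^ (t.2.1.1 + p * t.1.1.1) * u ^ (t.2.2.1 + p * t.1.2.1)))) =
        ∑ l' : Fin d, φ i (α t • (z ^ t.1.1.1 * it D k (z ^ t.2.1.1 * u ^ t.2.2.1) * r t.1.2 l')) *
          (φ i u ^ p) ^ l'.1 := by
      intro t
      rw [show z ^ (t.2.1.1 + p * t.1.1.1) * u ^ (t.2.2.1 + p * t.1.2.1) =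
        z ^ (p * t.1.1.1) * (u ^ (p * t.1.2.1) * (z ^ t.2.1.1 * u ^ t.2.2.1)) by ring,
        map_smul, it_const D (hc _ _), it_const D (hc _ _)]
      simp only [map_smul, map_mul, map_pow, pow_mul, hz', hr', smul_eq_mul, sum_mul, mul_sum]
      exact sum_congr rfl fun l' _ => by ring
    rw [map_sum, map_sum, sum_congr rfl fun t _ => e1 t, sum_comm]
    refine sum_eq_zero fun l' _ => ?_
    rw [← sum_mul, ← map_sum, hα (⟨k, hk⟩, l'), map_zero, zero_mul]

end Main

end Pool.Agent.P.MP_b8021b_nt.VC.Step
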