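import Pool.Agent.P.MP_b8021b_nt.VC.StT

/-! Fibres in boxes and residue classes. -/

namespace Pool.Agent.P.MP_b8021b_nt.VC

open Polynomial Finset Pool.Agent.P.MP_b8021b_nt.VE
open scoped Classical

namespace TEq

theorem cnt1 {q : ℤ} (hq : 0 < q) (a0 : ℤ) {α β : ℝ} (h : α ≤ β) (s : Finset ℤ)
    (hs : ∀ a, a ∈ s ↔ α ≤ a ∧ a < β ∧ q ∣ a - a0) : |(s.card : ℝ) - (β - α) / q| ≤ 1 := by
  have hq' : (0 : ℝ) < q := by exact_mod_cast hq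
  have e : s = (Ico ⌈(α - a0) / q⌉ ⌈(β - a0) / q⌉).image fun k => a0 + q * k := by
    ext a
    rw [hs, mem_image]
    constructor
    · rintro ⟨h1, h2, k, hk⟩
      have e : (a : ℝ) - a0 = q * k := by exact_mod_cast hk
      refine ⟨k, mem_Ico.2 ⟨Int.ceil_le.2 ?_, Int.lt_ceil.2 ?_⟩, by omega⟩
      · rw [div_le_iff₀ hq']; linarith
      · rw [lt_div_iff₀ hq']; linarith
    · rintro ⟨k, hk, rfl⟩
      obtain ⟨h1, h2⟩ := mem_Ico.1 hk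
      rw [Int.ceil_le, div_le_iff₀ hq'] at h1
      rw [Int.lt_ceil, lt_div_iff₀ hq'] at h2
      push_cast
      exact ⟨by linarith, by linarith, k, by ring⟩
  have hm : ⌈(α - a0) / q⌉ ≤ ⌈(β - a0) / q⌉ := Int.ceil_le_ceil (by gcongr)
  rw [e, card_image_of_injective _ fun x y hxy => mul_left_cancel₀ hq.ne' (add_left_cancel hxy),
    Int.card_Ico]
  have e2 : (((⌈(β - a0) / q⌉ - ⌈(α - a0) / q⌉).toNat : ℕ) : ℝ) =
      (⌈(β - a0) / q⌉ : ℝ) - ⌈(α - a0) / q⌉ := by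
    rw [← Int.cast_natCast, Int.toNat_of_nonneg (by omega)]
    push_cast
    rfl
  have e3 : (β - α) / q = (β - a0) / q - (α - a0) / q := by ring
  have h1 := Int.le_ceil ((α - a0) / q)
  have h2 := Int.le_ceil ((β - a0) / q)
  have h3 := Int.ceil_lt_add_one ((α - a0) / q)
  have h4 := Int.ceil_lt_add_one ((β - a0) / q)
  rw [e2, e3, abs_le]
  constructor <;> linarith

theorem cnt2 {q : ℤ} (hq : 0 < q) (a0 b0 : ℤ) {τ₁ τ₂ B₁ B₂ η B : ℝ} (hB : 0 < B) (h1 : B ≤ B₁)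
    (h2 : B₁ ≤ B₂) (h3 : B₂ - B₁ ≤ η * B) (h4 : τ₁ ≤ τ₂) (h5 : τ₂ - τ₁ ≤ η) (S : Finset (ℤ × ℤ))
    (hS : ∀ t, t ∈ S ↔ (B₁ ≤ t.2 ∧ t.2 < B₂ ∧ q ∣ t.2 - b0) ∧
      τ₁ * t.2 ≤ t.1 ∧ t.1 < τ₂ * t.2 ∧ q ∣ t.1 - a0) :
    |∑ t ∈ S, ((t.2 : ℝ))⁻¹ - (τ₂ - τ₁) * (B₂ - B₁) / q ^ 2| ≤ 2 * η / q + 1 / B := by
  have hq' : (0 : ℝ) < q := by exact_mod_cast hq
  let T := (Ico ⌈B₁⌉ ⌈B₂⌉).filter fun b => q ∣ b - b0
  have hT : ∀ b, b ∈ T ↔ B₁ ≤ b ∧ b < B₂ ∧ q ∣ b - b0 := fun b => by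
    simp [T, Int.ceil_le, Int.lt_ceil, and_assoc]
  have c1 := cnt1 hq b0 h2 T hT
  have c2 : ∀ b ∈ T, |∑ t ∈ S with t.2 = b, ((t.2 : ℝ))⁻¹ - (τ₂ - τ₁) / q| ≤ 1 / B := by
    intro b hb
    have hb1 : B ≤ b := h1.trans ((hT b).1 hb).1
    have hb0 : (0 : ℝ) < b := hB.trans_le hb1
    have c := cnt1 hq a0 (α := τ₁ * b) (β := τ₂ * b) (by gcongr)
      ((S.filter fun t => t.2 = b).image Prod.fst) fun a => by
        rw [mem_image]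
        constructor
        · rintro ⟨t, ht, rfl⟩
          obtain ⟨ht', rfl⟩ := mem_filter.1 ht
          exact ((hS t).1 ht').2
        · exact fun h => ⟨(a, b), mem_filter.2 ⟨(hS _).2 ⟨(hT b).1 hb, h⟩, rfl⟩, rfl⟩
    rw [card_image_of_injOn fun x hx y hy e => Prod.ext e
      ((mem_filter.1 hx).2.trans (mem_filter.1 hy).2.symm)] at c
    rw [sum_congr rfl (g := fun _ => (b : ℝ)⁻¹) fun t ht => by rw [(mem_filter.1 ht).2],
      sum_const, nsmul_eq_mul]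
    have e : ((S.filter fun t => t.2 = b).card : ℝ) * (b : ℝ)⁻¹ - (τ₂ - τ₁) / q =
        ((S.filter fun t => t.2 = b).card - (τ₂ * b - τ₁ * b) / q) / b := by field_simp
    rw [e, abs_div, abs_of_pos hb0]
    gcongr
  rw [← sum_fiberwise_of_maps_to (s := S) (t := T) (g := Prod.snd)
    fun t ht => (hT _).2 ((hS t).1 ht).1]
  have e : ∑ b ∈ T, ∑ t ∈ S with t.2 = b, ((t.2 : ℝ))⁻¹ - (τ₂ - τ₁) * (B₂ - B₁) / q ^ 2 =
      ∑ b ∈ T, (∑ t ∈ S with t.2 = b, ((t.2 : ℝ))⁻¹ - (τ₂ - τ₁) / q) +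
        (τ₂ - τ₁) / q * (T.card - (B₂ - B₁) / q) := by
    rw [sum_sub_distrib, sum_const, nsmul_eq_mul]
    ring
  rw [e]
  refine (abs_add_le _ _).trans ?_
  have c3 := (abs_sum_le_sum_abs _ _).trans (sum_le_sum c2)
  rw [sum_const, nsmul_eq_mul] at c3
  have c4 : (T.card : ℝ) ≤ η * B / q + 1 := by
    have := (abs_le.1 c1).2
    have : (B₂ - B₁) / q ≤ η * B / q := by gcongr
    linarith
  have c5 : (T.card : ℝ) * (1 / B) ≤ η / q + 1 / B := by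
    refine (mul_le_mul_of_nonneg_right c4 (by positivity)).trans (le_of_eq ?_)
    field_simp
  have c6 : |(τ₂ - τ₁) / q * (T.card - (B₂ - B₁) / q)| ≤ η / q := by
    have h0 : 0 ≤ (τ₂ - τ₁) / q := div_nonneg (by linarith) hq'.le
    rw [abs_mul, abs_of_nonneg h0]
    refine (mul_le_of_le_one_right h0 c1).trans ?_
    gcongr
  have : 2 * η / q = η / q + η / q := by ring
  linarith

theorem crt {m n : ℤ} (h : IsCoprime m n) (u v : ℤ) :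
    ∃ w, ∀ a, (m ∣ a - u ∧ n ∣ a - v) ↔ m * n ∣ a - w := by
  obtain ⟨x, y, e⟩ := id h
  refine ⟨v * x * m + u * y * n, fun a => ?_⟩
  have e1 : a - (v * x * m + u * y * n) = a - u + m * (x * (u - v)) := by
    linear_combination (-u) * e
  have e2 : a - (v * x * m + u * y * n) = a - v + n * (y * (v - u)) := by
    linear_combination (-v) * e
  constructor
  · rintro ⟨h1, h2⟩
    exact h.mul_dvd (e1 ▸ h1.add (dvd_mul_right _ _)) (e2 ▸ h2.add (dvd_mul_right _ _))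
  · intro h1
    have h2 := dvd_of_mul_right_dvd h1
    have h3 := dvd_of_mul_left_dvd h1
    rw [e1] at h2
    rw [e2] at h3
    exact ⟨(dvd_add_left (dvd_mul_right _ _)).1 h2, (dvd_add_left (dvd_mul_right _ _)).1 h3⟩

variable {A : Type} [CommRing A] [Algebra ℤ[X] A]

theorem Mf_pos' (p : Par A) (z : ℕ) : 0 < Mf p z :=
  Nat.mul_pos (prod_pos fun _ hl => (mem_filter.1 hl).2.1.pos) (pow_pos p.he.pos _)

theorem Mf_cop (p : Par A) (z : ℕ) : (Mf p z).Coprime p.r :=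
  Nat.Coprime.mul_left (Nat.Coprime.prod_left fun _ hl =>
    (Nat.coprime_primes (mem_filter.1 hl).2.1 p.hr).2 (mem_filter.1 hl).2.2)
    (((Nat.coprime_primes p.he p.hr).2 p.re.ne').pow_left _)

theorem crt3 {r M : ℕ} (hM : M.Coprime r) (n : ℕ) {d : ℕ} (hd : d.Coprime (M * r)) (u v : ℤ)
    (ρ : ZMod d) : ∃ w : ℤ, ∀ a : ℤ, ((r : ℤ) ^ n ∣ a - u ∧ (M : ℤ) ∣ a - v ∧ (a : ZMod d) = ρ) ↔
      ((M * r ^ n * d : ℕ) : ℤ) ∣ a - w := by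
  obtain ⟨s, rfl⟩ := ZMod.intCast_surjective ρ
  obtain ⟨w₁, h₁⟩ := crt (Nat.isCoprime_iff_coprime.2 (hM.pow_right n)) v u
  obtain ⟨w₂, h₂⟩ := crt (Nat.isCoprime_iff_coprime.2 (Nat.Coprime.mul_left
    (Nat.Coprime.coprime_mul_right_right hd).symm
    ((Nat.Coprime.coprime_mul_left_right hd).symm.pow_left n))) w₁ s
  refine ⟨w₂, fun a => ?_⟩
  push_cast at h₁ h₂ ⊢
  rw [← h₂, ← h₁, eq_comm, ZMod.intCast_eq_intCast_iff_dvd_sub]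
  tauto

theorem num (p : Par A) (c : Cfg) (d : ℕ) (R : Finset (ZMod d × ZMod d)) {τ₁ τ₂ B₁ B₂ : ℝ}
    (h0 : c.τ0 ≤ -2) (hη : c.η ≤ 1) (hd : 1 ≤ d) (hc : d.Coprime (Mf p c.z * p.r))
    (hB : 0 < c.B) (h1 : c.τ0 ≤ τ₁) (h2 : τ₁ ≤ τ₂) (h3 : τ₂ ≤ c.τ0 + c.η) (h4 : c.B ≤ B₁)
    (h5 : B₁ ≤ B₂) (h6 : B₂ ≤ c.B * (1 + c.η)) :
    |∑ t ∈ Tset p c with τ₁ ≤ (t.1 : ℝ) / t.2 ∧ (t.1 : ℝ) / t.2 < τ₂ ∧ B₁ ≤ t.2 ∧ t.2 < B₂ ∧
        ((t.1 : ZMod d), (t.2 : ZMod d)) ∈ R, ((t.2 : ℝ))⁻¹ -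
      R.card * ((τ₂ - τ₁) * (B₂ - B₁) / (Mf p c.z * p.r ^ p.n0 * d : ℕ) ^ 2)| ≤
      R.card * (2 * c.η / (Mf p c.z * p.r ^ p.n0 * d : ℕ) + 1 / c.B) := by
  have hq : (0 : ℤ) < (Mf p c.z * p.r ^ p.n0 * d : ℕ) := by
    have := Mf_pos' p c.z
    have := p.hr.pos
    positivity
  rw [← sum_fiberwise_of_maps_to (t := R) (g := fun t : ℤ × ℤ => ((t.1 : ZMod d), (t.2 : ZMod d)))
    (fun t ht => (mem_filter.1 ht).2.2.2.2.2), ← nsmul_eq_mul, ← nsmul_eq_mul, ← sum_const,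
    ← sum_const, ← sum_sub_distrib]
  refine (abs_sum_le_sum_abs _ _).trans (sum_le_sum fun ρ hρ => ?_)
  obtain ⟨a0, ha⟩ := crt3 (Mf_cop p c.z) p.n0 hc 1 0 ρ.1
  obtain ⟨b0, hb⟩ := crt3 (Mf_cop p c.z) p.n0 hc (p.r ^ p.b0) 1 ρ.2
  have key := cnt2 hq a0 b0 (η := c.η) hB h4 h5 (by linarith) h2 (by linarith)
  rw [Int.cast_natCast] at key
  refine key _ fun t => ?_
  rw [← ha, ← hb, sub_zero, mem_filter, mem_filter, Tset, mem_filter, Prod.ext_iff]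
  constructor
  · rintro ⟨⟨⟨-, -, -, -, -, a1, a2, a3, a4⟩, a5, a6, a7, a8, -⟩, a9, a10⟩
    have ht : (0 : ℝ) < t.2 := by linarith
    exact ⟨⟨a7, a8, a2, a4, a10⟩, (le_div_iff₀ ht).1 a5, (div_lt_iff₀ ht).1 a6, a1, a3, a9⟩
  · rintro ⟨⟨a7, a8, a2, a4, a10⟩, a5, a6, a1, a3, a9⟩
    have ht : (0 : ℝ) < t.2 := by linarith
    have b1 := (le_div_iff₀ ht).2 a5
    have b2 := (div_lt_iff₀ ht).2 a6
    have b3 : (t.2 : ℝ) ≤ 2 * c.B := by nlinarith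
    refine ⟨⟨⟨mem_product.2 ⟨mem_Icc.2 ⟨?_, ?_⟩, mem_Icc.2 ⟨?_, ?_⟩⟩, by linarith, by linarith,
      by linarith, by linarith, a1, a2, a3, a4⟩, b1, b2, a7, a8, ?_⟩, a9, a10⟩
    · have : ((⌊2 * c.B * c.τ0⌋ : ℤ) : ℝ) ≤ t.1 := (Int.floor_le _).trans (by nlinarith)
      exact_mod_cast this
    · have : (t.1 : ℝ) ≤ 0 := by nlinarith
      exact_mod_cast this
    · exact_mod_cast ht.le
    · have : (t.2 : ℝ) ≤ ((⌈2 * c.B⌉ : ℤ) : ℝ) := b3.trans (Int.le_ceil _)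
      exact_mod_cast this
    · rw [a9, a10]; exact hρ

theorem fin {N Z U v k x : ℝ} (hU : 0 < U) (hv : 0 ≤ v) (hv1 : v ≤ 1) (hk : 0 ≤ k) (hx : 0 ≤ x)
    (hx1 : 6 * x ≤ 1) (hZ : |Z - U| ≤ U * (x * (2 + x)))
    (hN : |N - k * (v * U)| ≤ k * (U * (x * (2 + x)))) :
    U / 2 ≤ Z ∧ |N / Z - v * k| ≤ 20 * k * x := by
  have e1 : x * (2 + x) ≤ 3 * x := by nlinarith
  have e2 : U * (x * (2 + x)) ≤ U * (3 * x) := by gcongr
  have h1 : U / 2 ≤ Z := by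
    have := (abs_le.1 hZ).1
    nlinarith
  have hZ0 : 0 < Z := by linarith
  refine ⟨h1, ?_⟩
  have e : N / Z - v * k = (N - k * (v * U) - k * v * (Z - U)) / Z := by field_simp; ring
  rw [e, abs_div, abs_of_pos hZ0, div_le_iff₀ hZ0]
  refine (abs_sub _ _).trans ?_
  rw [abs_mul, abs_of_nonneg (mul_nonneg hk hv)]
  have h2 : k * v * |Z - U| ≤ k * 1 * (U * (3 * x)) := by
    gcongr
    exact hZ.trans e2
  have h3 : k * (U * (x * (2 + x))) ≤ k * (U * (3 * x)) := by gcongr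
  have h4 : 20 * k * x * (U / 2) ≤ 20 * k * x * Z := by gcongr
  have h5 : 0 ≤ k * x * U := by positivity
  nlinarith

end TEq

open TEq in
theorem p_tEq : S_TEq := by
  intro A _ _ p c d R τ₁ τ₂ B₁ B₂ h0 hη hη1 hd hc hq h1 h2 h3 h4 h5 h6
  have hm : (0 : ℝ) < (Mf p c.z * p.r ^ p.n0 : ℕ) := by
    have := Mf_pos' p c.z
    have := p.hr.pos
    positivity
  have hd' : (1 : ℝ) ≤ d := by exact_mod_cast hd
  rw [Nat.cast_mul _ d] at hq ⊢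
  have hB : 0 < c.B := by
    have : 0 < c.η * c.B := lt_of_lt_of_le (by positivity) hq
    exact (mul_pos_iff_of_pos_left hη).1 this
  have k1 := num p c d R h0 hη1 hd hc hB h1 h2 h3 h4 h5 h6
  have k2 := num p c 1 univ h0 hη1 le_rfl (Nat.coprime_one_left _) hB le_rfl (by linarith) le_rfl
    le_rfl (by nlinarith) le_rfl
  rw [filter_true_of_mem fun t ht => by
    obtain ⟨-, a1, a2, a3, a4, -⟩ := mem_filter.1 ht
    exact ⟨a3, a4, a1, a2, mem_univ _⟩] at k2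
  rw [Nat.cast_mul _ d] at k1
  rw [mul_one, card_univ, Fintype.card_prod, ZMod.card, mul_one, Nat.cast_one, one_mul,
    one_mul] at k2
  generalize ((Mf p c.z * p.r ^ p.n0 : ℕ) : ℝ) = m at *
  have hx : 6 * (m * d / (c.η * c.B)) ≤ 1 := by
    rw [← mul_div_assoc, div_le_one (by positivity)]
    exact hq
  have key := fin (N := ∑ t ∈ Tset p c with τ₁ ≤ (t.1 : ℝ) / t.2 ∧ (t.1 : ℝ) / t.2 < τ₂ ∧
      B₁ ≤ t.2 ∧ t.2 < B₂ ∧ ((t.1 : ZMod d), (t.2 : ZMod d)) ∈ R, ((t.2 : ℝ))⁻¹)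
    (Z := ∑ t ∈ Tset p c, ((t.2 : ℝ))⁻¹) (U := c.η ^ 2 * c.B / m ^ 2)
    (v := (τ₂ - τ₁) * (B₂ - B₁) / (c.η ^ 2 * c.B)) (k := R.card / (d : ℝ) ^ 2)
    (x := m * d / (c.η * c.B)) (by positivity)
    (div_nonneg (mul_nonneg (by linarith) (by linarith)) (by positivity))
    (by
      rw [div_le_one (by positivity)]
      calc _ ≤ c.η * (c.η * c.B) := by gcongr <;> linarith
        _ = _ := by ring)
    (by positivity) (by positivity) hx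
    (by
      have e1 : (c.τ0 + c.η - c.τ0) * (c.B * (1 + c.η) - c.B) / m ^ 2 = c.η ^ 2 * c.B / m ^ 2 := by
        ring
      rw [e1] at k2
      refine k2.trans ?_
      calc _ = c.η ^ 2 * c.B / m ^ 2 * (m * 1 / (c.η * c.B) * (2 + m * 1 / (c.η * c.B))) := by
            field_simp
        _ ≤ _ := by gcongr)
    (by
      refine le_of_eq_of_le ?_ (k1.trans (le_of_eq ?_))
      · congr 2
        field_simp
      · field_simp)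
  refine ⟨le_of_eq_of_le (by ring) key.1, le_of_eq_of_le ?_ key.2⟩
  rw [sum_div]
  rfl

end Pool.Agent.P.MP_b8021b_nt.VC
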