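import Pool.Agent.P.MP_b8021b_nt.VC.StA
import Pool.Agent.P.MP_b8021b_nt.VC.StT
import Pool.Agent.P.MP_b8021b_nt.VC.BasicN
import Pool.Agent.P.MP_b8021b_nt.VE.PWw1
import Pool.Agent.P.MP_b8021b_nt.VE.PWw2

/-! Algebraic lemmas for the package `WW`. -/

namespace Pool.Agent.P.MP_b8021b_nt.VC.WW

open Polynomial NumberField Finset Pool.Agent.P.MP_b8021b_nt.VE
open scoped Classical

section

variable {L : Type} [Field L] [NumberField L]

/-- the primes over `l` -/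
lemma exists_T (L : Type) [Field L] [NumberField L] (l : ℕ) (hl : l.Prime) :
    ∃ T : Finset (Ideal (𝓞 L)), T.card ≤ Module.finrank ℚ L ∧
      (∀ P ∈ T, (l : 𝓞 L) ∈ P ∧ l ≤ Ideal.absNorm P ∧ ∀ m : ℤ, (m : 𝓞 L) ∈ P → (l : ℤ) ∣ m) ∧
      ∀ I : Ideal (𝓞 L), l ∣ Ideal.absNorm I → ∃ P ∈ T, P ∣ I := by
  have hp : Prime (l : ℤ) := Nat.prime_iff_prime_int.mp hl
  have h0 : Ideal.span {(l : ℤ)} ≠ ⊥ := by simpa using hl.ne_zero
  have : (Ideal.span {(l : ℤ)}).IsMaximal :=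
    ((Ideal.span_singleton_prime hp.ne_zero).mpr hp).isMaximal h0
  refine ⟨IsDedekindDomain.primesOverFinset (Ideal.span {(l : ℤ)}) (𝓞 L),
    Ideal.card_primesOverFinset_le_finrank (𝓞 L) ℚ L h0, fun P hP => ?_, fun I hI => ?_⟩
  · obtain ⟨-, h2⟩ := (IsDedekindDomain.mem_primesOverFinset_iff h0 _).mp hP
    have h3 : ∀ m : ℤ, (m : 𝓞 L) ∈ P ↔ (l : ℤ) ∣ m := fun m => by
      rw [← Ideal.mem_span_singleton, h2.over, Ideal.under, Ideal.mem_comap, eq_intCast]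
    have h4 : (l : 𝓞 L) ∈ P := by simpa using (h3 l).2 dvd_rfl
    refine ⟨h4, Nat.le_of_dvd (Nat.pos_of_ne_zero fun h => ?_) ?_, fun m => (h3 m).1⟩
    · rw [Ideal.absNorm_eq_zero_iff.1 h, Ideal.mem_bot] at h4
      exact hl.ne_zero (by exact_mod_cast h4)
    · exact Int.natCast_dvd_natCast.1 ((h3 _).1 (by simpa using Ideal.absNorm_mem P))
  · obtain ⟨P, h1, h2, h3⟩ := Ideal.exists_isMaximal_dvd_of_dvd_absNorm' hl I hI
    exact ⟨P, (IsDedekindDomain.mem_primesOverFinset_iff h0 _).mpr ⟨h1.isPrime, ⟨h2.symm⟩⟩, h3⟩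

/-- the minimal ideals whose norm is divisible by `l ^ 2` -/
lemma exists_T2 (L : Type) [Field L] [NumberField L] (l : ℕ) (hl : l.Prime) :
    ∃ T : Finset (Ideal (𝓞 L)), T.card ≤ Module.finrank ℚ L * (Module.finrank ℚ L + 1) ∧
      (∀ A ∈ T, ((l ^ 2 : ℕ) : 𝓞 L) ∈ A ∧ l ^ 2 ≤ Ideal.absNorm A) ∧
      ∀ I : Ideal (𝓞 L), l ^ 2 ∣ Ideal.absNorm I → ∃ A ∈ T, A ∣ I := by
  obtain ⟨T, h1, h2, h3⟩ := exists_T L l hl
  refine ⟨((T ×ˢ insert ⊤ T).image fun z => z.1 * z.2).filter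
    fun A => l ^ 2 ≤ Ideal.absNorm A, ?_, fun A hA => ?_, fun I hI => ?_⟩
  · refine (card_filter_le _ _).trans (card_image_le.trans ?_)
    rw [card_product]
    exact Nat.mul_le_mul h1 ((card_insert_le _ _).trans (by omega))
  · obtain ⟨h4, h5⟩ := mem_filter.1 hA
    obtain ⟨z, hz, rfl⟩ := mem_image.1 h4
    obtain ⟨h6, h7⟩ := mem_product.1 hz
    refine ⟨?_, h5⟩
    rw [Nat.cast_pow, sq]
    refine Ideal.mul_mem_mul (h2 _ h6).1 ?_
    rcases mem_insert.1 h7 with h | h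
    · rw [h]; exact Submodule.mem_top
    · exact (h2 _ h).1
  · obtain ⟨P, hP, C, rfl⟩ := h3 I ((dvd_pow_self _ two_ne_zero).trans hI)
    by_cases hC : l ∣ Ideal.absNorm C
    · obtain ⟨P', hP', h4⟩ := h3 C hC
      refine ⟨P * P', mem_filter.2 ⟨mem_image.2 ⟨(P, P'), mem_product.2
        ⟨hP, mem_insert_of_mem hP'⟩, rfl⟩, ?_⟩, mul_dvd_mul_left _ h4⟩
      rw [map_mul, sq]
      exact Nat.mul_le_mul (h2 _ hP).2.1 (h2 _ hP').2.1
    · refine ⟨P * ⊤, mem_filter.2 ⟨mem_image.2 ⟨(P, ⊤), mem_product.2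
        ⟨hP, mem_insert_self _ _⟩, rfl⟩, ?_⟩, by rw [Ideal.mul_top]; exact dvd_mul_right _ _⟩
      rw [Ideal.mul_top]
      rw [map_mul] at hI
      exact Nat.le_of_dvd (hl.pos.trans_le (h2 _ hP).2.1)
        ((Nat.Coprime.pow_left 2 (hl.coprime_iff_not_dvd.2 hC)).dvd_of_dvd_mul_right hI)

end

/-- an ideal that meets the integers in the multiples of `d` contains few residue classes -/
lemma dens {O : Type} [CommRing O] {e d : ℕ} [NeZero d] (η : Fin e → O) (ω : O) (i0 : Fin e)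
    (h0 : η i0 = 1) (𝔞 : Ideal O) (hd : (d : O) ∈ 𝔞) (hz : ∀ m : ℤ, (m : O) ∈ 𝔞 → (d : ℤ) ∣ m) :
    ∃ S : Finset ((Fin e → ZMod d) × (Fin e → ZMod d)), S.card * d ≤ d ^ (2 * e) ∧
      ∀ g c : Fin e → ℤ, ∑ i, ((g i : O) + (c i : O) * ω) * η i ∈ 𝔞 →
        (fun i => (g i : ZMod d), fun i => (c i : ZMod d)) ∈ S := by
  let ψ : ZMod d →+ O ⧸ 𝔞 := ZMod.lift d ⟨Int.castAddHom _, by
    simpa using Ideal.Quotient.eq_zero_iff_mem.2 hd⟩
  have hψ : ∀ m : ℤ, ψ (m : ZMod d) = (m : O ⧸ 𝔞) := fun m => ZMod.lift_coe _ _ m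
  have hi : Function.Injective ψ := by
    refine (injective_iff_map_eq_zero ψ).2 fun a ha => ?_
    obtain ⟨m, rfl⟩ := ZMod.intCast_surjective a
    rw [hψ, ← map_intCast (Ideal.Quotient.mk 𝔞), Ideal.Quotient.eq_zero_iff_mem] at ha
    exact (ZMod.intCast_zmod_eq_zero_iff_dvd m d).2 (hz m ha)
  let φ : (Fin e → ZMod d) × (Fin e → ZMod d) → O ⧸ 𝔞 := fun z =>
    ∑ i, (ψ (z.1 i) + ψ (z.2 i) * Ideal.Quotient.mk 𝔞 ω) * Ideal.Quotient.mk 𝔞 (η i)
  have hφ : ∀ z m, φ (z.1 + Pi.single i0 m, z.2) = φ z + ψ m := by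
    intro z m
    have h1 : ∑ i, ψ ((Pi.single i0 m : Fin e → ZMod d) i) * Ideal.Quotient.mk 𝔞 (η i) = ψ m := by
      rw [sum_eq_single i0 (fun b _ hb => by simp [Pi.single_eq_of_ne hb]) (by simp)]
      simp [h0]
    simp only [φ, ← h1, ← sum_add_distrib, Pi.add_apply, map_add]
    exact sum_congr rfl fun i _ => by ring
  refine ⟨univ.filter fun z => φ z = 0, ?_, fun g c h => ?_⟩
  · have h1 := card_le_card_of_injOn (s := (univ.filter fun z => φ z = 0) ×ˢ (univ : Finset (ZMod d)))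
      (t := (univ : Finset ((Fin e → ZMod d) × (Fin e → ZMod d))))
      (fun w => (w.1.1 + Pi.single i0 w.2, w.1.2)) (fun _ _ => mem_coe.2 (mem_univ _)) (by
        rintro ⟨z, m⟩ hz ⟨z', m'⟩ hz' h
        have h2 := (mem_filter.1 (mem_product.1 (mem_coe.1 hz)).1).2
        have h3 := (mem_filter.1 (mem_product.1 (mem_coe.1 hz')).1).2
        have h4 := congrArg φ h
        simp only [hφ] at h4
        simp only at h2 h3
        rw [h2, h3, zero_add, zero_add] at h4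
        obtain rfl := hi h4
        simp only [Prod.mk.injEq, add_left_inj] at h
        exact Prod.ext (Prod.ext h.1 h.2) rfl)
    rw [card_product, card_univ, card_univ, ZMod.card, Fintype.card_prod, Fintype.card_fun,
      ZMod.card, Fintype.card_fin, ← pow_add, ← two_mul] at h1
    exact h1
  · refine mem_filter.2 ⟨mem_univ _, ?_⟩
    have h1 := Ideal.Quotient.eq_zero_iff_mem.2 h
    simpa only [φ, hψ, map_sum, map_mul, map_add, map_intCast] using h1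

lemma ub2 {σ ι : Type} (S : Finset σ) (w : σ → ℝ) (hw : ∀ s, 0 ≤ w s) (I : Finset ι)
    (E : ι → σ → Prop) [∀ i, DecidablePred (E i)] [DecidablePred fun s => ∃ i ∈ I, E i s] :
    ∑ s ∈ S with ∃ i ∈ I, E i s, w s ≤ ∑ i ∈ I, ∑ s ∈ S with E i s, w s := by
  simp only [sum_filter]
  rw [sum_comm]
  refine sum_le_sum fun s _ => ?_
  have h1 : ∀ i ∈ I, 0 ≤ if E i s then w s else 0 := fun i _ => by
    split_ifs
    · exact hw s
    · exact le_rfl
  split_ifs with h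
  · obtain ⟨i, hi, he⟩ := h
    refine le_trans ?_ (single_le_sum h1 hi)
    simp only [he, if_true, le_refl]
  · exact sum_nonneg h1

lemma mem_Pset {y : ℝ} {N q : ℕ} (hy : 1 ≤ y) (h : q ∈ Pset y N) :
    q.Prime ∧ y ≤ q ∧ (q : ℝ) ≤ 4 * y := by
  obtain ⟨i, hi, h1⟩ := mem_biUnion.mp h
  obtain ⟨h2, h3, h4⟩ := mem_filter.mp h1
  have hN : (0 : ℝ) < N := by exact_mod_cast (Nat.zero_le i).trans_lt (mem_range.1 hi)
  have hq : (0 : ℝ) < q := by exact_mod_cast h3.pos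
  have y0 : 0 < y := by linarith
  refine ⟨h3, ?_, ?_⟩
  · have h5 : 0 ≤ (N : ℝ) * Real.log (q / y) := Int.floor_nonneg.1 (by rw [h4]; positivity)
    have h6 := (Real.log_nonneg_iff (div_pos hq y0)).1 (nonneg_of_mul_nonneg_right h5 hN)
    rwa [le_div_iff₀ y0, one_mul] at h6
  · have h5 : (q : ℝ) ≤ ⌈3 * y⌉₊ := by exact_mod_cast Nat.lt_succ_iff.1 (mem_range.1 h2)
    have h6 := Nat.ceil_lt_add_one (show 0 ≤ 3 * y by linarith)
    linarith

lemma card_Pset (y : ℝ) (N : ℕ) (hy : 2 ≤ y) : ((Pset y N).card : ℝ) ≤ 4 * y := by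
  have h1 : Pset y N ⊆ range (⌈3 * y⌉₊ + 1) := fun q hq => by
    obtain ⟨i, -, hi⟩ := mem_biUnion.mp hq
    exact (mem_filter.mp hi).1
  have h2 := card_le_card h1
  rw [card_range] at h2
  have h3 : ((Pset y N).card : ℝ) ≤ (⌈3 * y⌉₊ : ℝ) + 1 := by exact_mod_cast h2
  have h4 := Nat.ceil_lt_add_one (show 0 ≤ 3 * y by linarith)
  linarith

variable {R : Type} [CommRing R] [Algebra ℤ[X] R] {p : Par R} {t : ℤ × ℤ} {k L : Type} [Field k]
  [NumberField k] [Algebra k ℂ] [Field L] [NumberField L] [Algebra k L]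

omit [NumberField k] [Algebra k ℂ] [NumberField L] in
lemma eta_zero (Φ : Fb p t k L) : Φ.η p.toTab.i0 = 1 := by
  obtain ⟨h1, h2⟩ := p.toTab.y0 p.toTab.i0 rfl
  have h3 : p.toTab.κ p.toTab.i0 = 0 := by
    unfold Tab.κ
    rw [h2]
    exact Nat.div_eq_of_lt (by have := p.toTab.h3; omega)
  have h4 := Φ.hη p.toTab.i0
  rw [h1, h3, map_one, pow_zero, one_mul] at h4
  exact RingOfIntegers.ext h4

/-- off the exceptional event, good tuples are factorisations -/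
lemma wg_eq (K : BF k) (Φ : Fb p t k L) (c : Cfg) (u n : ℕ) (s : p.Co) (x x' : p.Pn)
    (𝔮 : Ideal (𝓞 L)) (hP : ∀ q ∈ Pset c.y c.N, q.Prime)
    (hx : p.IsPt x) (hx' : p.IsPt x') (ox : p.OnT x t) (ox' : p.OnT x' t) (hne : x.1 ≠ x'.1)
    (sx : p.OnS x s) (sx' : p.OnS x' s)
    (hN : (Ideal.absNorm (Ideal.span {Φ.al K s}) : ℤ) = p.N s t)
    (h3 : ∀ x, p.IsPt x → p.OnT x t → Ideal.absNorm (Φ.J K x) = x.1 ∧
      (p.OnS x s ↔ Φ.al K s ∈ Φ.J K x))
    (h4 : ∀ x x', p.IsPt x → p.OnT x t → p.IsPt x' → p.OnT x' t → Φ.J K x = Φ.J K x' → x = x')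
    (h5 : ∀ (q : ℕ) (I : Ideal (𝓞 L)), q.Prime → ¬ (q : ℤ) ∣ 2 * p.r * t.2 * p.Gt t * p.Dt t →
      Ideal.absNorm I = q → ∃ x : p.Pn, x.1 = q ∧ p.IsPt x ∧ p.OnT x t ∧ Φ.J K x = I)
    (h6 : ∀ (x : Fin (u + 2) → p.Pn), p.Good t s x →
      Ideal.span {Φ.al K s} = 𝔮 ^ p.e0 * ∏ i, Φ.J K (x i))
    (ha : Ideal.absNorm (Φ.a0 K 𝔮 x x') = p.r ^ p.e0 * x.1 * x'.1)
    (hn1 : p.Mb t ∣ n) (hn2 : x.1 ∣ n) (hn3 : x'.1 ∣ n)
    (b1 : ∀ l ∈ Pset c.y c.N, ¬ l ∣ n → ¬ (l : ℤ) ^ 2 ∣ p.N s t)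
    (b2 : ∀ 𝔠, Ideal.span {Φ.al K s} = Φ.J K x * Φ.J K x' * 𝔠 → ∀ l ∈ Pset c.y c.N, l ∣ n →
      ¬ l ∣ Ideal.absNorm 𝔠) :
    Wg p c u t s x x' = if UnitC n (Φ.a0 K 𝔮 x x') (Φ.al K s)
      then Wan (wt p c.y c.N) c.y c.N u (Φ.a0 K 𝔮 x x') (Φ.al K s) else 0 := by
  have fac : ∀ v : Fin u → p.Pn, p.Good t s (Fin.cons x (Fin.cons x' v) : Fin (u + 2) → p.Pn) →
      Ideal.span {Φ.al K s} = Φ.a0 K 𝔮 x x' * ∏ j, Φ.J K (v j) := by
    intro v hv
    rw [h6 _ hv, Fin.prod_univ_succ, Fin.prod_univ_succ]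
    simp only [Fin.cons_zero, Fin.cons_succ, Fb.a0, mul_assoc]
  have pt : ∀ v : Fin u → p.Pn, p.Good t s (Fin.cons x (Fin.cons x' v) : Fin (u + 2) → p.Pn) →
      ∀ j, p.IsPt (v j) ∧ p.OnT (v j) t := by
    intro v hv j
    have := hv.1 j.succ.succ
    simp only [Fin.cons_succ] at this
    exact ⟨this.1, this.2.1⟩
  have a0 : Φ.a0 K 𝔮 x x' ≠ 0 := by
    intro h
    rw [h, map_zero] at ha
    exact mul_ne_zero (mul_ne_zero (pow_ne_zero _ p.hr.ne_zero) hx.1.ne_zero) hx'.1.ne_zero ha.symm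
  split_ifs with hU
  · obtain ⟨𝔟, hb, hcb⟩ := hU
    unfold Wg Wan
    rw [← sum_fiberwise_of_maps_to (t := Fintype.piFinset fun _ : Fin u => Pset c.y c.N)
      (g := fun v j => (v j).1) (fun v hv => Fintype.mem_piFinset.mpr fun j =>
        (mem_Xset.1 (Fintype.mem_piFinset.mp (mem_filter.mp hv).1 j)).1)]
    refine sum_congr rfl fun q hq => ?_
    rw [sum_congr rfl (g := fun _ => ∏ j, wt p c.y c.N (q j)) (fun v hv => by
      rw [← (mem_filter.mp hv).2]), sum_const, nsmul_eq_mul, mul_comm]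
    congr 2
    rw [← Set.ncard_coe_finset]
    have hq' := Fintype.mem_piFinset.mp hq
    refine Set.ncard_congr (fun v _ j => Φ.J K (v j)) ?_ ?_ ?_
    · intro v hv
      obtain ⟨h1, h2⟩ := mem_filter.mp (mem_coe.mp hv)
      have g := (mem_filter.mp h1).2
      refine ⟨fun j => ?_, fac v g⟩
      rw [← h2]
      exact (h3 _ (pt v g j).1 (pt v g j).2).1
    · intro v v' hv hv' h
      have g := (mem_filter.mp (mem_filter.mp (mem_coe.mp hv)).1).2
      have g' := (mem_filter.mp (mem_filter.mp (mem_coe.mp hv')).1).2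
      funext j
      exact h4 _ _ (pt v g j).1 (pt v g j).2 (pt v' g' j).1 (pt v' g' j).2 (congrFun h j)
    · rintro I ⟨hI, hf⟩
      have e : 𝔟 = ∏ j, I j := mul_left_cancel₀ a0 (hb.symm.trans hf)
      have nb : Ideal.absNorm 𝔟 = ∏ j, q j := by
        rw [e, map_prod]
        exact prod_congr rfl fun j _ => hI j
      have cq : ∀ j, ¬ q j ∣ n := fun j h => by
        have h1 := cop_iff_coprime.mp hcb
        rw [nb] at h1
        exact (hP _ (hq' j)).one_lt.ne'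
          (Nat.eq_one_of_dvd_coprimes h1 (dvd_prod_of_mem q (mem_univ j)) h)
      have ex : ∀ j, ∃ z : p.Pn, z.1 = q j ∧ p.IsPt z ∧ p.OnT z t ∧ Φ.J K z = I j := fun j =>
        h5 (q j) (I j) (hP _ (hq' j)) (fun h => cq j ((Int.natCast_dvd.mp h).trans hn1)) (hI j)
      choose v v1 v2 v3 v4 using ex
      have hNN : p.N s t = (p.r : ℤ) ^ p.e0 * (x.1 * (x'.1 * ∏ j, (q j : ℤ))) := by
        rw [← hN, hb, map_mul, ha, nb]
        push_cast
        ring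
      refine ⟨v, mem_coe.mpr (mem_filter.mpr ⟨mem_filter.mpr ⟨Fintype.mem_piFinset.mpr fun j =>
        mem_Xset.2 ⟨v1 j ▸ hq' j, v2 j⟩, ?_, ?_, ?_⟩, funext v1⟩), funext v4⟩
      · intro i
        refine Fin.cases ?_ (fun i => Fin.cases ?_ (fun j => ?_) i) i
        · exact ⟨hx, ox, sx⟩
        · exact ⟨hx', ox', sx'⟩
        · simp only [Fin.cons_succ]
          refine ⟨v2 j, v3 j, (h3 _ (v2 j) (v3 j)).2.mpr ?_⟩
          rw [v4 j, ← Ideal.span_singleton_le_iff_mem, hf]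
          exact Ideal.le_of_dvd (Dvd.dvd.mul_left (dvd_prod_of_mem I (mem_univ j)) _)
      · have e2 : (fun i => ((Fin.cons x (Fin.cons x' v) : Fin (u + 2) → p.Pn) i).1) =
            (Fin.cons x.1 (Fin.cons x'.1 q) : Fin (u + 2) → ℕ) := by
          funext i
          refine Fin.cases rfl (fun i => Fin.cases rfl (fun j => ?_) i) i
          simp only [Fin.cons_succ, v1]
        rw [e2, Fin.cons_injective_iff, Fin.cons_injective_iff]
        refine ⟨?_, ?_, fun i j hij => ?_⟩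
        · rintro ⟨i, hi⟩
          revert hi
          refine Fin.cases (fun hi => hne hi.symm) (fun j hi => ?_) i
          simp only [Fin.cons_succ] at hi
          exact cq j (hi ▸ hn2)
        · rintro ⟨j, hi⟩
          exact cq j (hi ▸ hn3)
        · by_contra hne'
          refine b1 _ (hq' i) (cq i) ?_
          rw [hNN]
          refine Dvd.dvd.mul_left (Dvd.dvd.mul_left (Dvd.dvd.mul_left ?_ _) _) _
          have := prod_dvd_prod_of_subset {i, j} univ (fun j => (q j : ℤ)) (subset_univ _)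
          rwa [prod_pair hne', ← hij, ← sq] at this
      · rw [hNN, Fin.prod_univ_succ, Fin.prod_univ_succ]
        simp only [Fin.cons_zero, Fin.cons_succ, v1]
  · unfold Wg
    refine sum_eq_zero fun v hv => absurd ?_ hU
    obtain ⟨h1, g⟩ := mem_filter.mp hv
    refine ⟨_, fac v g, cop_iff_coprime.mpr ?_⟩
    rw [map_prod]
    refine Nat.Coprime.prod_left fun j _ => ?_
    have m1 := (mem_Xset.1 (Fintype.mem_piFinset.mp h1 j)).1
    rw [(h3 _ (pt v g j).1 (pt v g j).2).1, (hP _ m1).coprime_iff_not_dvd]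
    intro h
    refine b2 (𝔮 ^ p.e0 * ∏ j, Φ.J K (v j)) (by rw [fac v g, Fb.a0]; ring) _ m1 h ?_
    rw [map_mul, map_prod, ← (h3 _ (pt v g j).1 (pt v g j).2).1]
    exact Dvd.dvd.mul_left (dvd_prod_of_mem (fun j => Ideal.absNorm (Φ.J K (v j))) (mem_univ j)) _

end Pool.Agent.P.MP_b8021b_nt.VC.WW
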