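import Pool.Agent.P.MP_b8021b_nt.VC.StC

/-! Auxiliary interface statements of part C. -/

namespace Pool.Agent.P.MP_b8021b_nt.VC

open Polynomial NumberField Finset Pool.Agent.P.MP_b8021b_nt.VE
open scoped Classical Topology

/-- the data of a base change: the first five conclusions of `S_BC` -/
structure BCd {F F' A A' : Type} [Field F] [Field F'] [Algebra F F'] [CommRing A] [Algebra F A]
    [CommRing A'] [Algebra F' A'] (cv : Cv F A) (cv' : Cv F' A') (ι : A →+* A') : Prop where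
  alg : ∀ c, ι (algebraMap F A c) = algebraMap F' A' (algebraMap F F' c)
  inj : Function.Injective ι
  del : ∀ a, cv'.δ (ι a) = cv.δ a
  span : ∀ n, cv'.L n ≤ Submodule.span F' (ι '' cv.L n)
  lift : ∀ (S : Type) [CommRing S] (j : F' →+* S) (f : A →+* S),
    (∀ c, f (algebraMap F A c) = j (algebraMap F F' c)) →
    ∃ g : A' →+* S, (∀ a, g (ι a) = f a) ∧ ∀ c, g (algebraMap F' A' c) = j c

/-- the tensor product is a Dedekind domain as soon as it is a domain -/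
def S_Ded : Prop :=
  ∀ (F F' A : Type) [Field F] [CharZero F] [Field F'] [Algebra F F'] [CommRing A] [Algebra F A]
    (_ : Cv F A), IsDomain (TensorProduct F F' A) → IsDedekindDomain (TensorProduct F F' A)

/-- points and multiplicities under an algebraic base change -/
def S_BCm : Prop :=
  ∀ (F F' A A' Ω : Type) [Field F] [CharZero F] [Field F'] [Algebra F F'] [CommRing A]
    [Algebra F A] [CommRing A'] [Algebra F' A'] [Field Ω] [Algebra F Ω] [Algebra F' Ω]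
    [IsScalarTower F F' Ω] [IsAlgClosed Ω] [Algebra.IsAlgebraic F Ω] (cv : Cv F A) (cv' : Cv F' A')
    (ι : A →+* A'), BCd cv cv' ι → ∃ e : (A' →ₐ[F'] Ω) ≃ (A →ₐ[F] Ω), (∀ P a, e P a = P (ι a)) ∧
      ∀ P f, f ≠ 0 → mI (e P) (Ideal.span {f}) = mI P (Ideal.span {ι f})

/-- roots of polynomials move continuously; the degree may jump -/
def S_Root : Prop :=
  ∀ (Ω : Type) [NormedField Ω] [IsAlgClosed Ω] (f₀ : Polynomial Ω) (n : ℕ) (a : Ω), f₀ ≠ 0 →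
    ∃ ε₀ : ℝ, 0 < ε₀ ∧ ∀ ε : ℝ, 0 < ε → ε ≤ ε₀ → ∃ η : ℝ, 0 < η ∧ ∀ f : Polynomial Ω, f.natDegree ≤ n →
      (∀ i, ‖f.coeff i - f₀.coeff i‖ < η) →
      f ≠ 0 ∧ Multiset.card (f.roots.filter fun x => ‖x - a‖ < ε) = rootMultiplicity a f₀

/-- finitely many functions define the topology of the points, and a point of a nearby fibre is
near a point of the fibre -/
def S_Top : Prop :=
  ∀ (F A Ω : Type) [Field F] [CharZero F] [CommRing A] [Algebra F A] [NormedField Ω] [Algebra F Ω]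
    (cv : Cv F A),
    (∃ W₁ : Finset A, ∀ (P₀ : A →ₐ[F] Ω) (W : Finset A) (ε : ℝ), 0 < ε →
      ∃ ε' : ℝ, 0 < ε' ∧ Near W₁ ε' P₀ ⊆ Near W ε P₀) ∧
    (IsAlgClosed Ω → ∀ (w : A) (a : Ω) (W : Finset A) (ε : ℝ), 0 < cv.δ w → 0 < ε →
      ∃ η : ℝ, 0 < η ∧ ∀ P : A →ₐ[F] Ω, ‖P w - a‖ < η → ∃ Q : A →ₐ[F] Ω, Q w = a ∧ P ∈ Near W ε Q)

/-- all zeros of a small perturbation at once -/
def S_Pert : Prop :=
  ∀ (F A Ω : Type) [NormedField F] [CharZero F] [CommRing A] [Algebra F A]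
    [NontriviallyNormedField Ω] [NormedAlgebra F Ω] [IsAlgClosed Ω] [Algebra.IsAlgebraic F Ω]
    (cv : Cv F A) (s : A) (W₁ : Finset A) (ε₁ : ℝ), s ≠ 0 → 0 < ε₁ →
    ∃ (W : Finset A) (ε : ℝ), W₁ ⊆ W ∧ 0 < ε ∧ ε ≤ ε₁ ∧
      (∀ P Q : A →ₐ[F] Ω, P s = 0 → Q s = 0 → P ≠ Q → Disjoint (Near W ε P) (Near W ε Q)) ∧
      ∀ (I : Type) [Fintype I] (b : I → A), ∃ η : ℝ, 0 < η ∧ ∀ c : I → F, (∀ i, ‖c i‖ < η) →
        ∀ f, f = s + ∑ i, c i • b i → f ≠ 0 ∧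
          (∀ P : A →ₐ[F] Ω, P s = 0 →
            nZ (Ideal.span {f}) (Near W ε P) = mI P (Ideal.span {s})) ∧
          nZ (Ideal.span {f}) {P : A →ₐ[F] Ω | ∀ Q : A →ₐ[F] Ω, Q s = 0 → P ∉ Near W ε Q} +
            cv.δ s = cv.δ f

/-- a real function of large degree with simple real zeros -/
def S_RS0 : Prop :=
  ∀ (A : Type) [CommRing A] [Algebra ℝ A] (cv : Cv ℝ A) (n : ℕ), ∃ s : A, s ≠ 0 ∧
    n ≤ cv.δ s ∧ ∀ P : A →ₐ[ℝ] ℂ, P s = 0 → mI P (Ideal.span {s}) = 1 ∧ ∀ a, (P a).im = 0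

/-- one move: a multiple real zero is split -/
def S_Mv : Prop :=
  ∀ (A : Type) [CommRing A] [Algebra ℝ A] (cv : Cv ℝ A) (V : Fin (cv.g + 1) → Set (A →ₐ[ℝ] ℂ))
    (s : A), s ≠ 0 →
    (∀ i, ∀ P ∈ V i, ∃ (W : Finset A) (ε : ℝ), 0 < ε ∧ Near W ε P ⊆ V i) →
    (∀ Q : Fin (cv.g + 1) → (A →ₐ[ℝ] ℝ), (∀ i, (Algebra.ofId ℝ ℂ).comp (Q i) ∈ V i) → cv.RigF Q) →
    (∀ P : A →ₐ[ℝ] ℂ, P s = 0 → (∀ a, (P a).im = 0) ∧ ∃ i, P ∈ V i) →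
    (∀ i, ∃ P ∈ V i, P s = 0) → (∃ P : A →ₐ[ℝ] ℂ, 2 ≤ mI P (Ideal.span {s})) →
    ∃ f : A, f ≠ 0 ∧ cv.δ f = cv.δ s ∧
      (∀ P : A →ₐ[ℝ] ℂ, P f = 0 → (∀ a, (P a).im = 0) ∧ ∃ i, P ∈ V i) ∧
      (∀ i, ∃ P ∈ V i, P f = 0) ∧
      {P : A →ₐ[ℝ] ℂ | P s = 0}.ncard < {P : A →ₐ[ℝ] ℂ | P f = 0}.ncard

/-- the absolute value of a uniform limit of polynomials on an ultrametric disc -/
def S_UPoly : Prop :=
  ∀ (Ω : Type) [NontriviallyNormedField Ω] [IsUltrametricDist Ω] [IsAlgClosed Ω] (φ : Ω → Ω)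
    (ε c : ℝ) (D : Polynomial Ω) (m : Ω → ℕ), 0 < ε → 0 < c → D ≠ 0 →
    (∀ η : ℝ, 0 < η → ∃ h : Polynomial Ω, ∀ a, ‖a‖ < ε → ‖h.eval a - φ a‖ < η) →
    (∀ a, ‖a‖ < ε → c * ‖D.eval a‖ ≤ ‖φ a‖) →
    (∀ ρ, ‖ρ‖ < ε → ∃ C : ℝ, 0 < C ∧ ∀ᶠ a in 𝓝 ρ, ‖φ a‖ = C * ‖a - ρ‖ ^ m ρ) →
    ∃ C : ℝ, 0 < C ∧ ∀ a, ‖a‖ < ε → ‖φ a‖ = C * ∏ᶠ ρ ∈ Metric.ball (0 : Ω) ε, ‖a - ρ‖ ^ m ρ

/-- `S_Disc` over an algebraically closed ground field -/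
def S_Disc0 : Prop :=
  ∀ (A Ω : Type) [CommRing A] [NontriviallyNormedField Ω] [CharZero Ω] [IsUltrametricDist Ω]
    [IsAlgClosed Ω] [Algebra Ω A] (_ : Cv Ω A)
    (P₀ : A →ₐ[Ω] Ω) (π : A), π ≠ 0 → mI P₀ (Ideal.span {π}) = 1 →
    ∃ (W : Finset A) (ε₁ ε₀ : ℝ), 0 < ε₁ ∧ 0 < ε₀ ∧ ∀ (ε : ℝ) (U : Set (A →ₐ[Ω] Ω)), 0 < ε →
      ε ≤ ε₀ → U = {P | P ∈ Near W ε₁ P₀ ∧ ‖P π‖ < ε} →
      Set.BijOn (fun P => P π) U (Metric.ball 0 ε) ∧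
      (∀ w, ∃ C : ℝ, ∀ P ∈ U, ‖P w - P₀ w‖ ≤ C * ‖P π‖) ∧
      ∀ f, f ≠ 0 → ∃ C : ℝ, 0 < C ∧ ∀ P ∈ U,
        ‖P f‖ = C * ∏ᶠ Q ∈ U, ‖P π - Q π‖ ^ mI Q (Ideal.span {f})

/-- a function all of whose zeros lie in small discs around the conjugates of a point -/
def S_Lem0 : Prop :=
  ∀ (r : ℕ) [Fact r.Prime] (F : IntermediateField ℚ_[r] (PadicAlgCl r)) [FiniteDimensional ℚ_[r] F]
    (A : Type) [CommRing A] [Algebra F A] (_ : Cv F A) (P₀ : A →ₐ[F] PadicAlgCl r) (π : A)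
    (W : Finset A) (ε₁ ε : ℝ) (U : Set (A →ₐ[F] PadicAlgCl r)), 0 < ε₁ → 0 < ε →
    U = {P | P ∈ Near W ε₁ P₀ ∧ ‖P π‖ < ε} → Set.BijOn (fun P => P π) U (Metric.ball 0 ε) →
    ∃ s : A, s ≠ 0 ∧ (∃ P ∈ U, P s = 0) ∧ ∀ P : A →ₐ[F] PadicAlgCl r, P s = 0 →
      ∃ (σ : PadicAlgCl r ≃ₐ[F] PadicAlgCl r), ∃ Q ∈ U, ∀ a, P a = σ (Q a)

end Pool.Agent.P.MP_b8021b_nt.VC
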