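import Mathlib

/-!
Bloch's group `V(X)` of a smooth projective curve `X` over a number field `k`, in terms of its
function field `F`: the kernel of the norm on the sum of the multiplicative groups of the residue
fields of the closed points, modulo the tame symbols of pairs of rational functions.
-/

open scoped WithZero IntermediateField Classical

namespace Pool.Agent.P.MP_b8021b_nt.VC

noncomputable section

/-- A closed point of the smooth projective curve with function field `F` over `k`: a normalised
discrete valuation of `F` that is trivial on `k`. -/
structure Place (k F : Type) [Field k] [Field F] [Algebra k F] where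
  /-- the valuation -/
  v : Valuation F ℤᵐ⁰
  surj : Function.Surjective v
  triv : ∀ c : k, c ≠ 0 → v (algebraMap k F c) = 1

variable {k F : Type} [Field k] [Field F] [Algebra k F]

/-- The residue field of a closed point. -/
abbrev Place.κ (p : Place k F) : Type := IsLocalRing.ResidueField p.v.valuationSubring

/-- Constants are regular at every point. -/
def Place.const (p : Place k F) : k →+* p.v.valuationSubring :=
  (algebraMap k F).codRestrict p.v.valuationSubring fun c => by
    rw [Valuation.mem_valuationSubring_iff]
    by_cases h : c = 0
    · simp [h]
    · exact (p.triv c h).le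

/-- The residue field is an extension of the field of constants. -/
instance (p : Place k F) : Algebra k p.κ :=
  ((IsLocalRing.residue p.v.valuationSubring).comp p.const).toAlgebra

/-- The order of vanishing of `f` at `p` (Mathlib's valuations are multiplicative). -/
def Place.ord (p : Place k F) (f : F) : ℤ := - WithZero.log (p.v f)

/-- `c` is the tame symbol of `f` and `g` at `p`: the residue of `(-1) ^ (a b) f ^ b / g ^ a`,
where `a` and `b` are the orders of `f` and `g` at `p`. -/
def Place.IsTame (p : Place k F) (f g : F) (c : p.κ) : Prop :=
  ∃ h : (-1) ^ (p.ord f * p.ord g) * f ^ p.ord g / g ^ p.ord f ∈ p.v.valuationSubring,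
    IsLocalRing.residue p.v.valuationSubring ⟨_, h⟩ = c

/-- The direct sum of the multiplicative groups of the residue fields, written additively. -/
abbrev Chain (k F : Type) [Field k] [Field F] [Algebra k F] : Type :=
  Π₀ p : Place k F, Additive p.κˣ

/-- The image of `K₂(F)`: the subgroup generated by the families of tame symbols. -/
def symbols (k F : Type) [Field k] [Field F] [Algebra k F] : AddSubgroup (Chain k F) :=
  AddSubgroup.closure {D | ∃ f g : F, f ≠ 0 ∧ g ≠ 0 ∧
    ∀ p : Place k F, p.IsTame f g (Additive.toMul (D p) : p.κˣ)}

/-- The product of the norms of the components of a chain. -/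
def Chain.norm (D : Chain k F) : k :=
  D.prod fun p u => Algebra.norm k ((Additive.toMul u : p.κˣ) : p.κ)

/-- The statement. -/
def S_Main : Prop :=
  ∀ (k F : Type) [Field k] [NumberField k] [Field F] [Algebra k F],
    (∃ t : F, Transcendental k t ∧ FiniteDimensional k⟮t⟯ F) → algebraicClosure k F = ⊥ →
    ∀ D : Chain k F, D.norm = 1 → ∃ n : ℕ, 0 < n ∧ n • D ∈ symbols k F

end

end Pool.Agent.P.MP_b8021b_nt.VC
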