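import Mathlib

/-! Extension of homomorphisms, primitive elements and factorisations. -/

namespace Pool.Agent.P.MP_b8021b_nt.VX

open Polynomial Finset
open scoped Classical nonZeroDivisors IntermediateField

theorem ext_int {B C L : Type} [CommRing B] [CommRing C] [Algebra B C] [Algebra.IsIntegral B C]
    [Field L] [IsAlgClosed L] (f : B →+* L) (h : RingHom.ker (algebraMap B C) ≤ RingHom.ker f) :
    ∃ g : C →+* L, ∀ b, g (algebraMap B C b) = f b := by
  have := RingHom.ker_isPrime f
  obtain ⟨Q, -, hQ, e⟩ := Ideal.exists_ideal_over_prime_of_isIntegral (S := C) (RingHom.ker f) ⊥ h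
  have : Q.LiesOver (RingHom.ker f) := ⟨e.symm⟩
  let _ : Algebra (B ⧸ RingHom.ker f) L := (RingHom.kerLift f).toAlgebra
  have : FaithfulSMul (B ⧸ RingHom.ker f) L :=
    (faithfulSMul_iff_algebraMap_injective _ _).2 (RingHom.kerLift_injective f)
  let g : (C ⧸ Q) →ₐ[B ⧸ RingHom.ker f] L := IsAlgClosed.lift
  exact ⟨g.toRingHom.comp (Ideal.Quotient.mk Q), fun b => g.commutes (Ideal.Quotient.mk _ b)⟩

theorem ext_alg {K B C L : Type} [CommRing K] [CommRing B] [CommRing C] [Field L] [IsAlgClosed L]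
    [Algebra K B] [Algebra K C] [Algebra K L] (i : B →ₐ[K] C) (hi : (i : B →+* C).IsIntegral)
    (f : B →ₐ[K] L) (h : ∀ b, i b = 0 → f b = 0) : ∃ g : C →ₐ[K] L, ∀ b, g (i b) = f b := by
  let _ : Algebra B C := (i : B →+* C).toAlgebra
  have : Algebra.IsIntegral B C := ⟨hi⟩
  obtain ⟨g, hg⟩ := ext_int (C := C) (f : B →+* L) h
  exact ⟨⟨g, fun c => by
    rw [← i.commutes, ← f.commutes]
    exact hg _⟩, hg⟩

theorem fact {R K : Type} [CommRing R] [IsDomain R] [Field K] (e : R →+* K) (S : Set K)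
    (P : R[X]) (hP : P.Monic) (h : ∀ G : R[X], G.Monic → Irreducible G → G ∣ P →
      ∀ a a', (G.map e).IsRoot a → (G.map e).IsRoot a' → a ∈ S → a' ∈ S) :
    ∃ Q Q' : R[X], Q.Monic ∧ Q'.Monic ∧ P = Q * Q' ∧ (∀ a, (Q.map e).IsRoot a → a ∈ S) ∧
      ∀ a, (Q'.map e).IsRoot a → a ∉ S := by
  have h1 : ∀ a, ¬ ((1 : R[X]).map e).IsRoot a := fun a => by simp
  induction hn : P.natDegree using Nat.strong_induction_on generalizing P with
  | _ n ih =>
  by_cases h0 : P = 1
  · exact ⟨1, 1, monic_one, monic_one, by simp [h0], fun a ha => (h1 a ha).elim,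
      fun a ha => (h1 a ha).elim⟩
  by_cases hi : Irreducible P
  · by_cases hS : ∃ a, (P.map e).IsRoot a ∧ a ∈ S
    · obtain ⟨a, ha, ha'⟩ := hS
      exact ⟨P, 1, hP, monic_one, (mul_one _).symm, fun b hb => h P hP hi dvd_rfl a b ha hb ha',
        fun a ha => (h1 a ha).elim⟩
    · exact ⟨1, P, monic_one, hP, (one_mul _).symm, fun a ha => (h1 a ha).elim,
        fun a ha hs => hS ⟨a, ha, hs⟩⟩
  rw [hP.irreducible_iff_natDegree, and_iff_right h0] at hi
  push Not at hi
  obtain ⟨f, g, hf, hg, rfl, f0, g0⟩ := hi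
  rw [hf.natDegree_mul hg] at hn
  obtain ⟨Q₁, Q₁', a1, a2, a3, a4, a5⟩ := ih _ (by omega) f hf
    (fun G m i d => h G m i (d.mul_right _)) rfl
  obtain ⟨Q₂, Q₂', b1, b2, b3, b4, b5⟩ := ih _ (by omega) g hg
    (fun G m i d => h G m i (d.mul_left _)) rfl
  refine ⟨Q₁ * Q₂, Q₁' * Q₂', a1.mul b1, a2.mul b2, by rw [a3, b3]; ring, fun a ha => ?_,
    fun a ha => ?_⟩ <;> rw [Polynomial.map_mul, root_mul] at ha
  exacts [ha.elim (a4 a) (b4 a), ha.elim (a5 a) (b5 a)]

attribute [local instance] FractionRing.liftAlgebra in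
theorem prim (B A : Type) [CommRing B] [IsDomain B] [CharZero B] [IsIntegrallyClosed B]
    [CommRing A] [IsDomain A] [Algebra B A] [FaithfulSMul B A] [Module.Finite B A] :
    ∃ θ : A, (∀ a : A, ∃ s : B, s ≠ 0 ∧ ∃ q : B[X], algebraMap B A s * a = aeval θ q) ∧
      ∃ δ : B, δ ≠ 0 ∧ ∃ p q : B[X],
        minpoly B θ * p + derivative (minpoly B θ) * q = C δ := by
  let K := FractionRing B
  let L := FractionRing A
  have : FiniteDimensional K L := .of_isLocalization B A B⁰
  have : CharZero K := IsFractionRing.charZero B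
  obtain ⟨α, hα⟩ := Field.exists_primitive_element K L
  obtain ⟨x, y, hy, rfl⟩ := IsFractionRing.div_surjective (A := A) α
  have hy0 := nonZeroDivisors.ne_zero hy
  obtain ⟨θ, d, hd, e⟩ := Algebra.IsAlgebraic.exists_smul_eq_mul (R := B) x hy0
  have hi : IsIntegral B θ := Algebra.IsIntegral.isIntegral θ
  have hL := IsFractionRing.injective A L
  have hK := IsFractionRing.injective B K
  have h1 : K⟮algebraMap A L θ⟯ = ⊤ := by
    rw [eq_top_iff, ← hα, IntermediateField.adjoin_simple_le_iff]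
    have h2 : algebraMap B L d ≠ 0 :=
      (_root_.map_ne_zero_iff _ (FaithfulSMul.algebraMap_injective B L)).2 hd
    have h3 : algebraMap A L x / algebraMap A L y = algebraMap A L θ / algebraMap B L d := by
      rw [div_eq_div_iff ((_root_.map_ne_zero_iff _ hL).2 hy0) h2, IsScalarTower.algebraMap_apply B A L,
        ← map_mul, ← map_mul, mul_comm θ, ← e, Algebra.smul_def, mul_comm]
    rw [h3, IsScalarTower.algebraMap_apply B K L]
    exact div_mem (IntermediateField.mem_adjoin_simple_self _ _)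
      (IntermediateField.algebraMap_mem _ _)
  refine ⟨θ, fun a => ?_, ?_⟩
  · have h2 : algebraMap A L a ∈ K⟮algebraMap A L θ⟯.toSubalgebra := by rw [h1]; trivial
    rw [IntermediateField.adjoin_simple_toSubalgebra_of_isAlgebraic
      (Algebra.IsAlgebraic.isAlgebraic _), Algebra.adjoin_singleton_eq_range_aeval] at h2
    obtain ⟨q, hq⟩ := h2
    obtain ⟨s, hs, e⟩ := IsLocalization.integerNormalization_spec B⁰ q
    refine ⟨s, nonZeroDivisors.ne_zero hs, IsLocalization.integerNormalization B⁰ q, hL ?_⟩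
    rw [← aeval_algebraMap_apply, ← aeval_map_algebraMap K, e, map_mul, ← hq,
      ← IsScalarTower.algebraMap_apply, ← algebraMap_smul K, map_smul, algebraMap_smul,
      Algebra.smul_def]
    rfl
  · have h2 := minpoly.isIntegrallyClosed_eq_field_fractions K L hi
    have h3 : (minpoly K (algebraMap A L θ)).Separable := Algebra.IsSeparable.isSeparable K _
    rw [h2, separable_def, derivative_map] at h3
    have h4 := resultant_ne_zero _ _ h3
    rw [natDegree_map_eq_of_injective hK, natDegree_map_eq_of_injective hK, resultant_map_map] at h4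
    obtain ⟨p, q, -, -, e⟩ := exists_mul_add_mul_eq_C_resultant (minpoly B θ)
      (derivative (minpoly B θ)) le_rfl le_rfl (Or.inl (minpoly.natDegree_pos hi).ne')
    exact ⟨_, fun h => h4 (by rw [h, map_zero]), p, q, e⟩

end Pool.Agent.P.MP_b8021b_nt.VX
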