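import Pool.Agent.P.MP_b8021b_nt.VC.XHens
import Pool.Agent.P.MP_b8021b_nt.VC.XPrim

/-! Two points of an irreducible affine variety are joined by a chain of irreducible curves. -/

namespace Pool.Agent.P.MP_b8021b_nt.VX

open Polynomial Finset
open scoped Classical

/-- a function on the points that is constant on all irreducible curves -/
def CurveConst {K A Z : Type} [Field K] [CommRing A] [Algebra K A] (c : (A →ₐ[K] K) → Z) : Prop :=
  ∀ (C : Type) [CommRing C] [IsDomain C] [Algebra K C] (τ : K[X] →ₐ[K] C),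
    Function.Injective τ → (τ : K[X] →+* C).IsIntegral →
    ∀ (γ : A →ₐ[K] C) (φ ψ : C →ₐ[K] K), c (φ.comp γ) = c (ψ.comp γ)

theorem aeval_int (K : Type) {R S : Type} [CommRing K] [CommRing R] [CommRing S] [Algebra K R]
    [Algebra K S] [Algebra R S] [IsScalarTower K R S] [Algebra.IsIntegral R S] (x : S) :
    (((aeval x : R[X] →ₐ[R] S).restrictScalars K : R[X] →ₐ[K] S) : R[X] →+* S).IsIntegral :=
  RingHom.IsIntegral.tower_top (C : R →+* R[X]) _ (by
    convert (algebraMap_isIntegral_iff (R := R) (A := S)).2 inferInstance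
    ext; simp)

variable {K B A Z : Type} [Field K] [IsAlgClosed K] [CommRing B] [IsDomain B]
  [IsIntegrallyClosed B] [CommRing A] [IsDomain A] [Algebra K B] [Algebra K A] [Algebra B A]
  [IsScalarTower K B A] [FaithfulSMul B A] [Algebra.IsIntegral B A] {c : (A →ₐ[K] K) → Z}

attribute [local instance] Polynomial.algebra in
theorem down (hc : CurveConst c) (l : B →ₐ[K] K[X]) (φ : A →ₐ[K] K)
    (h1 : ∀ x, (l x).eval 1 = φ (algebraMap B A x)) :
    ∃ ψ : A →ₐ[K] K, c ψ = c φ ∧ ∀ x, ψ (algebraMap B A x) = (l x).eval 0 := by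
  have : FaithfulSMul B[X] A[X] := (faithfulSMul_iff_algebraMap_injective _ _).2
    (map_injective _ (FaithfulSMul.algebraMap_injective B A))
  let E : B[X] →ₐ[K] K[X] := aevalTower l X
  let Φ : A[X] →ₐ[K] K := aevalTower φ 1
  have hE : ∀ g : K[X], E (g.map (algebraMap K B)) = g := fun g => by
    have : E.comp (mapAlgHom (Algebra.ofId K B)) = AlgHom.id K K[X] := by
      ext; simp [E]
    exact DFunLike.congr_fun this g
  have hΦ : ∀ g : B[X], Φ (algebraMap B[X] A[X] g) = (E g).eval 1 := fun g => by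
    have : (Φ : A[X] →+* K).comp (mapRingHom (algebraMap B A)) =
        (evalRingHom 1).comp (E : B[X] →+* K[X]) := by
      ext x
      · simp [Φ, E, h1]
      · simp [Φ, E]
    exact DFunLike.congr_fun this g
  have := RingHom.ker_isPrime E
  have := RingHom.ker_isPrime Φ
  obtain ⟨q, hq, _, hl⟩ := Ideal.exists_ideal_le_liesOver_of_le (p := RingHom.ker E)
    (q := (RingHom.ker Φ).under B[X]) (RingHom.ker Φ) fun g hg => by
      rw [Ideal.mem_under, RingHom.mem_ker, hΦ, RingHom.mem_ker.1 hg, eval_zero]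
  have hm : ∀ g : B[X], algebraMap B[X] A[X] g ∈ q ↔ E g = 0 := fun g =>
    (Ideal.mem_of_liesOver q (RingHom.ker E) g).symm
  let τ : K[X] →ₐ[K] A[X] ⧸ q := (Ideal.Quotient.mkₐ K q).comp (mapAlgHom (Algebra.ofId K A))
  have hτ : ∀ g : K[X], τ g =
      Ideal.Quotient.mk q (algebraMap B[X] A[X] (g.map (algebraMap K B))) := fun g => by
    change Ideal.Quotient.mk q (g.map (algebraMap K A)) =
      Ideal.Quotient.mk q ((g.map (algebraMap K B)).map (algebraMap B A))
    rw [Polynomial.map_map, ← IsScalarTower.algebraMap_eq]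
  have hτE : ∀ g : B[X], τ (E g) = Ideal.Quotient.mk q (algebraMap B[X] A[X] g) := fun g => by
    rw [hτ, Ideal.Quotient.eq, ← map_sub, hm, map_sub, hE, sub_self]
  have t1 : Function.Injective τ := (injective_iff_map_eq_zero _).2 fun g hg => by
    rwa [hτ, Ideal.Quotient.eq_zero_iff_mem, hm, hE] at hg
  have t2 : (τ : K[X] →+* A[X] ⧸ q).IsIntegral := fun a => by
    obtain ⟨a, rfl⟩ := Ideal.Quotient.mk_surjective a
    obtain ⟨P, hP, h0⟩ : IsIntegral B[X] a := Algebra.IsIntegral.isIntegral a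
    refine ⟨P.map (E : B[X] →+* K[X]), hP.map _, ?_⟩
    have e : (τ : K[X] →+* A[X] ⧸ q).comp (E : B[X] →+* K[X]) =
        (Ideal.Quotient.mk q).comp (algebraMap B[X] A[X]) := RingHom.ext hτE
    rw [eval₂_map, e, ← hom_eval₂, h0, map_zero]
  obtain ⟨φ₀, h0⟩ := ext_alg τ t2 (aeval (0 : K)) fun b hb => by
    rw [(injective_iff_map_eq_zero _).1 t1 b hb, map_zero]
  let γ : A →ₐ[K] A[X] ⧸ q := (Ideal.Quotient.mkₐ K q).comp (IsScalarTower.toAlgHom K A A[X])
  refine ⟨φ₀.comp γ, (hc _ τ t1 t2 γ φ₀ (Ideal.Quotient.liftₐ q Φ fun a ha => hq ha)).trans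
    (congrArg c (AlgHom.ext fun a => aevalTower_C φ 1 a)), fun x => ?_⟩
  have e : γ (algebraMap B A x) = τ (E (C x)) := by
    rw [hτE]
    exact congrArg (Ideal.Quotient.mk q) (map_C _).symm
  rw [AlgHom.comp_apply, e, h0, coe_aeval_eq_eval]
  exact congrArg _ (aevalTower_C l X x)

theorem link (hc : CurveConst c) (l : B →ₐ[K] K[X]) (θ : A) (G : K[X][X]) (hG : G.Monic)
    (hi : Irreducible G) (hd : G ∣ (minpoly B θ).map (l : B →+* K[X])) :
    ∃ z : Z, ∀ a, (G.map (evalRingHom 0)).IsRoot a → ∃ ψ : A →ₐ[K] K, c ψ = z ∧ ψ θ = a ∧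
      ∀ x, ψ (algebraMap B A x) = (l x).eval 0 := by
  let L := AlgebraicClosure (FractionRing K[X])
  have : FaithfulSMul K[X] L := (faithfulSMul_iff_algebraMap_injective _ _).2 (by
    rw [IsScalarTower.algebraMap_eq K[X] (FractionRing K[X]) L]
    exact (algebraMap (FractionRing K[X]) L).injective.comp (IsFractionRing.injective _ _))
  obtain ⟨ω, hω⟩ := IsAlgClosed.exists_aeval_eq_zero L G
    (hG.degree_pos_of_not_isUnit hi.not_isUnit).ne'
  have hωi : IsIntegral K[X] ω := ⟨G, hG, hω⟩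
  let lL : B →ₐ[K] L := (IsScalarTower.toAlgHom K K[X] L).comp l
  have hev : ∀ (g : B[X]) (w : L), aevalTower lL w g = aeval w (g.map (l : B →+* K[X])) :=
    fun g w => by
      rw [aeval_def, eval₂_map]
      rfl
  obtain ⟨γ₀, hγ⟩ := ext_alg ((aeval θ : B[X] →ₐ[B] A).restrictScalars K)
    (aeval_int K θ) (aevalTower lL ω) fun g hg => by
    obtain ⟨r, rfl⟩ := minpoly.isIntegrallyClosed_dvd (Algebra.IsIntegral.isIntegral θ) hg
    obtain ⟨s, hs⟩ := hd
    rw [map_mul, hev, hs, map_mul, hω, zero_mul, zero_mul]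
  have g1 : ∀ x, γ₀ (algebraMap B A x) = algebraMap K[X] L (l x) := fun x =>
    (congrArg γ₀ (aeval_C θ x).symm).trans ((hγ (C x)).trans (aevalTower_C _ _ _))
  have g2 : γ₀ θ = ω := (congrArg γ₀ (aeval_X θ).symm).trans ((hγ X).trans (aevalTower_X _ _))
  let R := integralClosure K[X] L
  let γ : A →ₐ[K] R := γ₀.codRestrict (R.restrictScalars K) fun a => by
    obtain ⟨P, hP, h0⟩ : IsIntegral B a := Algebra.IsIntegral.isIntegral a
    refine ⟨P.map (l : B →+* K[X]), hP.map _, ?_⟩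
    have e : (algebraMap K[X] L).comp (l : B →+* K[X]) =
        (γ₀ : A →+* L).comp (algebraMap B A) := RingHom.ext fun x => (g1 x).symm
    rw [eval₂_map, e]
    exact (hom_eval₂ P _ (γ₀ : A →+* L) a).symm.trans (by rw [h0, map_zero])
  let ω' : R := ⟨ω, hωi⟩
  have key : ∀ a, (G.map (evalRingHom 0)).IsRoot a → ∃ φ : R →ₐ[K] K, φ ω' = a ∧
      ∀ g, φ (algebraMap K[X] R g) = g.eval 0 := fun a ha => by
    obtain ⟨φ, hφ⟩ := ext_alg ((aeval ω' : K[X][X] →ₐ[K[X]] R).restrictScalars K)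
      (aeval_int K ω') (aevalTower (aeval (0 : K)) a) fun g hg => by
      have h1 : aeval ω g = 0 := by
        have := congrArg R.val hg
        rwa [map_zero, AlgHom.restrictScalars_apply, ← aeval_algHom_apply] at this
      have h2 := (minpoly.irreducible hωi).associated_of_dvd hi
        (minpoly.isIntegrallyClosed_dvd hωi hω)
      obtain ⟨r, rfl⟩ := h2.symm.dvd.trans (minpoly.isIntegrallyClosed_dvd hωi h1)
      rw [map_mul]
      refine mul_eq_zero_of_left (Eq.trans ?_ ha) _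
      rw [eval_map]
      exact congrArg (eval₂ · a G) (RingHom.ext fun f => coe_aeval_eq_eval (0 : K) ▸ rfl)
    exact ⟨φ, (congrArg φ (aeval_X ω').symm).trans ((hφ X).trans (aevalTower_X _ _)), fun g =>
      (congrArg φ (aeval_C ω' g).symm).trans ((hφ (C g)).trans ((aevalTower_C _ _ _).trans
        (congrFun (coe_aeval_eq_eval 0) g)))⟩
  obtain ⟨a₀, ha₀⟩ := IsAlgClosed.exists_root (G.map (evalRingHom 0)) (by
    rw [hG.degree_map]
    exact (hG.degree_pos_of_not_isUnit hi.not_isUnit).ne')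
  obtain ⟨φ₀, -⟩ := key a₀ ha₀
  refine ⟨c (φ₀.comp γ), fun a ha => ?_⟩
  obtain ⟨φ, h1, h2⟩ := key a ha
  refine ⟨φ.comp γ, hc R (IsScalarTower.toAlgHom K K[X] R)
    (FaithfulSMul.algebraMap_injective K[X] R)
    ((algebraMap_isIntegral_iff (R := K[X]) (A := R)).2 inferInstance) γ φ φ₀, ?_, fun x => ?_⟩
  · exact (congrArg φ (Subtype.ext g2)).trans h1
  · exact (congrArg φ (Subtype.ext (g1 x))).trans (h2 _)

theorem conn_aux [CharZero K] [Module.Finite B A] (hc : CurveConst c)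
    (hsep : ∀ f : B, (∀ b : B →ₐ[K] K, b f = 0) → f = 0)
    (hl : ∀ b : B →ₐ[K] K, ∃ l : B →ₐ[K] B[X], ∀ x, (l x).eval 1 = x ∧
      (l x).eval 0 = algebraMap K B (b x)) (φ ψ : A →ₐ[K] K) : c φ = c ψ := by
  have : CharZero B := charZero_of_injective_algebraMap (algebraMap K B).injective
  obtain ⟨θ, h1, δ, hδ, p, q, hpq⟩ := prim B A
  have hi : IsIntegral B θ := Algebra.IsIntegral.isIntegral θ
  have hP := minpoly.monic hi
  choose s hs r hr using h1
  obtain ⟨T, hT⟩ := Module.Finite.fg_top (R := B) (M := A)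
  obtain ⟨b, hb⟩ : ∃ b : B →ₐ[K] K, b (δ * ∏ a ∈ T, s a) ≠ 0 := by
    by_contra h
    push Not at h
    exact mul_ne_zero hδ (prod_ne_zero_iff.2 fun a _ => hs a) (hsep _ h)
  rw [map_mul, map_prod, mul_ne_zero_iff, prod_ne_zero_iff] at hb
  have hev : ∀ χ : A →ₐ[K] K, (∀ x, χ (algebraMap B A x) = b x) → ∀ g : B[X],
      χ (aeval θ g) = (g.map (b : B →+* K)).eval (χ θ) := fun χ h g => by
    rw [eval_map, aeval_def]
    exact (hom_eval₂ g _ (χ : A →+* K) θ).trans (congrArg (eval₂ · _ g) (RingHom.ext h))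
  have uniq : ∀ χ χ' : A →ₐ[K] K, (∀ x, χ (algebraMap B A x) = b x) →
      (∀ x, χ' (algebraMap B A x) = b x) → χ θ = χ' θ → χ = χ' := fun χ χ' h h' e => by
    refine AlgHom.ext fun a => ?_
    have ha : a ∈ Submodule.span B (T : Set A) := hT ▸ Submodule.mem_top
    induction ha using Submodule.span_induction with
    | mem a ha =>
      refine mul_left_cancel₀ (hb.2 a ha) ?_
      rw [← h, ← map_mul, hr, hev χ h, h, ← h', ← map_mul, hr, hev χ' h', e]
    | zero => rw [map_zero, map_zero]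
    | add x y _ _ hx hy => rw [map_add, map_add, hx, hy]
    | smul t x _ hx => rw [Algebra.smul_def, map_mul, map_mul, h, h', hx]
  obtain ⟨l, hl⟩ := hl b
  let m : (B →ₐ[K] K) → B →ₐ[K] K[X] := fun e => (mapAlgHom e).comp l
  have hm : ∀ e x t, (m e x).eval (algebraMap K K t) = e ((l x).eval (algebraMap K B t)) :=
    fun e x t => by
      rw [← e.commutes]
      exact (eval_map _ _).trans (eval₂_at_apply (e : B →+* K) _)
  have m0 : ∀ e x, (m e x).eval 0 = b x := fun e x => by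
    have := hm e x 0
    rwa [map_zero, map_zero, (hl x).2, e.commutes] at this
  have m1 : ∀ e x, (m e x).eval 1 = e x := fun e x => by
    have := hm e x 1
    rwa [map_one, map_one, (hl x).1] at this
  obtain ⟨φ', e1, e2⟩ := down hc (m (φ.comp (IsScalarTower.toAlgHom K B A))) φ (m1 _)
  obtain ⟨ψ', e3, e4⟩ := down hc (m (ψ.comp (IsScalarTower.toAlgHom K B A))) ψ (m1 _)
  simp only [m0] at e2 e4
  rw [← e1, ← e3]
  by_contra hne
  let S : Set K := {a | ∃ χ : A →ₐ[K] K, (∀ x, χ (algebraMap B A x) = b x) ∧ χ θ = a ∧ c χ = c φ'}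
  have hsp : ((minpoly B θ).map (b : B →+* K)).Separable := by
    rw [separable_def, derivative_map]
    refine ⟨C (b δ)⁻¹ * p.map (b : B →+* K), C (b δ)⁻¹ * q.map (b : B →+* K), ?_⟩
    rw [mul_assoc, mul_assoc, ← mul_add, ← Polynomial.map_mul, ← Polynomial.map_mul,
      ← Polynomial.map_add, mul_comm p, mul_comm q, hpq, map_C, ← map_mul]
    exact congrArg C (inv_mul_cancel₀ hb.1)
  obtain ⟨Q, Q', hQ, hQ', e, n1, n2⟩ := hens (fun e : B →ₐ[K] K => e) hsep
    ((minpoly B θ).map (l : B →+* B[X])) (hP.map _) _ hsp (IsAlgClosed.splits _) (by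
      rw [Polynomial.map_map, Polynomial.map_map]
      exact congrArg (Polynomial.map · _) (RingHom.ext fun x => (hl x).2)) S fun e => by
    rw [Polynomial.map_map]
    refine fact (evalRingHom 0) S _ (hP.map _) fun G hG hi hd a a' ha ha' ⟨χ, c1, c2, c3⟩ => ?_
    obtain ⟨z, hz⟩ := link hc (m e) θ G hG hi hd
    obtain ⟨χ₁, d1, d2, d3⟩ := hz a ha
    obtain ⟨χ₂, f1, f2, f3⟩ := hz a' ha'
    simp only [m0] at d3 f3
    exact ⟨χ₂, f3, f2, by rw [f1, ← d1, uniq χ₁ χ d3 c1 (d2.trans c2.symm), c3]⟩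
  have hr : ∀ χ : A →ₐ[K] K, (∀ x, χ (algebraMap B A x) = b x) →
      χ θ ∈ ((minpoly B θ).map (b : B →+* K)).roots.toFinset := fun χ h => by
    rw [Multiset.mem_toFinset, mem_roots hsp.ne_zero, IsRoot, ← hev χ h, minpoly.aeval, map_zero]
  have e' := congrArg (Polynomial.map (evalRingHom 1)) e
  rw [Polynomial.map_map, Polynomial.map_mul,
    show (evalRingHom 1).comp (l : B →+* B[X]) = RingHom.id B from RingHom.ext fun x => (hl x).1,
    Polynomial.map_id] at e'
  rcases (hP.irreducible_iff_natDegree.1 (minpoly.irreducible hi)).2 _ _ (hQ.map _) (hQ'.map _)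
    e'.symm with h | h
  · rw [hQ.natDegree_map, n1, card_eq_zero, filter_eq_empty_iff] at h
    exact h (hr φ' e2) ⟨φ', e2, rfl, rfl⟩
  · rw [hQ'.natDegree_map, n2, card_eq_zero, filter_eq_empty_iff] at h
    obtain ⟨χ, c1, c2, c3⟩ := not_not.1 (h (hr ψ' e4))
    exact hne (by rw [← c3, uniq χ ψ' c1 e4 c2])

theorem conn {K A Z : Type} [Field K] [IsAlgClosed K] [CharZero K] [CommRing A] [IsDomain A]
    [Algebra K A] [Algebra.FiniteType K A] {c : (A →ₐ[K] K) → Z} (hc : CurveConst c)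
    (φ ψ : A →ₐ[K] K) : c φ = c ψ := by
  obtain ⟨d, g, h1, h2⟩ := exists_finite_inj_algHom_of_fg K A
  let B := MvPolynomial (Fin d) K
  let _ : Algebra B A := (g : B →+* A).toAlgebra
  have : IsScalarTower K B A := IsScalarTower.of_algebraMap_eq fun x => (g.commutes x).symm
  have : FaithfulSMul B A := (faithfulSMul_iff_algebraMap_injective _ _).2 h1
  have : Module.Finite B A := h2
  refine conn_aux (B := B) hc (fun f hf => MvPolynomial.funext fun x => ?_) (fun b => ?_) φ ψ
  · rw [map_zero, ← MvPolynomial.coe_aeval_eq_eval]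
    exact hf (MvPolynomial.aeval x)
  · let l : B →ₐ[K] B[X] := MvPolynomial.aeval fun i => C (algebraMap K B (b (MvPolynomial.X i))) +
      X * C (MvPolynomial.X i - algebraMap K B (b (MvPolynomial.X i)))
    have e1 : ((aeval 1 : B[X] →ₐ[B] B).restrictScalars K).comp l = AlgHom.id K B :=
      MvPolynomial.algHom_ext fun i => by simp [l, B]
    have e0 : ((aeval 0 : B[X] →ₐ[B] B).restrictScalars K).comp l = (Algebra.ofId K B).comp b :=
      MvPolynomial.algHom_ext fun i => by simp [l]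
    exact ⟨l, fun x => ⟨(congrFun (coe_aeval_eq_eval 1) _).symm.trans (DFunLike.congr_fun e1 x),
      (congrFun (coe_aeval_eq_eval 0) _).symm.trans (DFunLike.congr_fun e0 x)⟩⟩

end Pool.Agent.P.MP_b8021b_nt.VX
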