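import Pool.Agent.P.MP_b8021b_nt.VC.XSch
import Pool.Agent.P.MP_b8021b_nt.VC.PMain

/-! Specialisation of points of a proper scheme and functionals on curves. -/

namespace Pool.Agent.P.MP_b8021b_nt.VX

open AlgebraicGeometry CategoryTheory Finset
open Pool.Agent.P.MP_b8021b_nt.VE Pool.Agent.P.MP_b8021b_nt.VC Pool.Agent.P.MP_b8021b_nt.VC.Main
open scoped Classical

noncomputable section

theorem sum_emb {K M : Type} [Field K] [Field M] [NumberField M] {ψ : K → ℝ} (h : Ad ψ)
    (j : K →+* M) (u : Units M) :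
    ∑ e : M →+* Qb, nuE ψ (e.comp j) (e u) / Nat.card (K →+* Qb) = ψ (normAlong j u).val := by
  let _ : Algebra K M := j.toAlgebra
  have : CharZero K := (RingHom.charZero_iff j.injective).2 inferInstance
  have : IsScalarTower ℚ K M := IsScalarTower.of_algebraMap_eq' (Subsingleton.elim _ _)
  have : FiniteDimensional ℚ K := Module.Finite.left ℚ K M
  have : FiniteDimensional K M := Module.Finite.right ℚ K M
  have : NumberField K := {}
  have h1 : ∀ e : M →+* Qb, nuE ψ (e.comp j) (e u) = nu ψ (u : M) := fun e => by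
    have := @minpoly.algHom_eq K M Qb _ _ _ j.toAlgebra (e.comp j).toAlgebra
      (@AlgHom.mk K M Qb _ _ _ j.toAlgebra (e.comp j).toAlgebra e fun _ => rfl) e.injective u
    exact congrArg (fun P : Polynomial K => ψ (P.coeff 0) / P.natDegree) this
  have h2 : (Module.finrank ℚ K : ℝ) ≠ 0 := Nat.cast_ne_zero.2 Module.finrank_pos.ne'
  simp only [h1]
  rw [sum_const, card_univ, Nat.card_eq_fintype_card, NumberField.Embeddings.card,
    NumberField.Embeddings.card, ← Module.finrank_mul_finrank ℚ K M, nsmul_eq_mul]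
  refine Eq.trans ?_ (nu_norm h u.ne_zero).symm
  push_cast
  field_simp

theorem nuE_div_ad {K : Type} [Field K] {ψ : K → ℝ} (h : Ad ψ) (e : K →+* Qb) (d : ℝ) :
    Ad fun u => nuE ψ e u / d := fun a b ha hb => by
  simp only [nuE_ad h e a b ha hb, add_div]

theorem symbX (hCrv : S_Crv) (hFin : S_Fin) {k F : Type} [Field k] [NumberField k] [Field F]
    [Algebra k F] [Algebra ℚ F] (hF : IsCurve F) (K : Place k F → Type) [∀ v, Field (K v)]
    (ψ : ∀ v, K v → ℝ) (hψ : ∀ v, Ad (ψ v)) (j : ∀ v, K v →+* v.κ) (l : GPt F → Qb → ℝ)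
    (hl : ∀ v e, l (gp v e) = fun u => nuE (ψ v) (e.comp (j v)) u / Nat.card (K v →+* Qb))
    (h0 : ∀ f g : F, f ≠ 0 → g ≠ 0 → ∀ (S : Finset (Place k F)) (u : ∀ v : Place k F, Units v.κ),
      (∀ v, v ∉ S → v.ord f = 0 ∧ v.ord g = 0) → (∀ v : Place k F, v.IsTame f g (u v)) →
      ∑ v ∈ S, ψ v (normAlong (j v) (u v)).val = 0) : KFn l := by
  have hN : ∀ v : Place k F, NumberField v.κ := nf hCrv hFin hF
  have had : ∀ v e, Ad (l (gp v e)) := fun v e => hl v e ▸ nuE_div_ad (hψ v) _ _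
  refine ⟨fun p => ?_, fun f g hf hg c hc => ?_⟩
  · obtain ⟨⟨v, e⟩, rfl⟩ := (eqv (k := k)).surjective p
    exact had v e
  choose u hu1 hu2 hu3 using fun v : Place k F => tame v hf hg
  let S : Finset (Place k F) :=
    (((hFin F hF).1 f hf).toFinset ∪ ((hFin F hF).1 g hg).toFinset).image (pl k)
  have hS : ∀ v, v ∉ S → v.ord f = 0 ∧ v.ord g = 0 := fun v hv => by
    obtain ⟨e⟩ : Nonempty (v.κ →+* Qb) := inferInstance
    have h1 : gp v e ∉ ((hFin F hF).1 f hf).toFinset ∪ ((hFin F hF).1 g hg).toFinset :=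
      fun h => hv (mem_image.2 ⟨_, h, rfl⟩)
    simp only [mem_union, Set.Finite.mem_toFinset, Set.mem_ofPred_eq, not_or, not_not] at h1
    exact h1
  have h1 : ∀ v e, l (gp v e) (c (gp v e)) = l (gp v e) (e (u v)) := fun v e => by
    have h2 := hu3 v e _ (hc _)
    have h3 : c (gp v e) ≠ 0 := fun h => by
      rw [h, mul_zero] at h2
      exact (u v).ne_zero ((_root_.map_eq_zero e).1 h2)
    rw [h2, (had v e).sign _ h3]
  rw [← finsum_comp_equiv (eqv (k := k)), finsum_eq_sum_of_support_subset _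
    (s := S.sigma fun _ => univ) fun x hx => ?_, sum_sigma, ← h0 f g hf hg S u hS hu1]
  · refine sum_congr rfl fun v _ => ?_
    rw [← sum_emb (hψ v)]
    exact sum_congr rfl fun e _ => (h1 v e).trans (congrFun (hl v e) _)
  · rw [mem_coe, mem_sigma]
    refine ⟨by_contra fun h => hx ?_, mem_univ _⟩
    refine (h1 x.1 x.2).trans ?_
    rw [hu2 _ (hS _ h).1 (hS _ h).2, Units.val_one, map_one, (had _ _).one]

theorem specOf_comp {R S T : Type} [CommRing R] [CommRing S] [CommRing T] (f : R →+* S)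
    (g : S →+* T) {X : Scheme.{0}} (h : Sp R ⟶ X) :
    specOf g ≫ specOf f ≫ h = specOf (g.comp f) ≫ h :=
  (Spec.map_comp_assoc (CommRingCat.ofHom f) (CommRingCat.ofHom g) h).symm

theorem specOf_id {R : Type} [CommRing R] {X : Scheme.{0}} (h : Sp R ⟶ X) :
    specOf (RingHom.id R) ≫ h = h := by
  rw [specOf, CommRingCat.ofHom_id, Spec.map_id, Category.id_comp]

variable {k F M : Type} [Field k] [Field F] [Field M] {X : Scheme.{0}}

theorem lift_uniq (π : X ⟶ Sp k) [IsSeparated π] (O : ValuationSubring F) {η η' : Sp O ⟶ X}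
    (h : specOf O.subtype ≫ η = specOf O.subtype ≫ η') : η = η' := by
  have e : η' ≫ π = η ≫ π := by
    obtain ⟨a, ha⟩ := Spec.map_surjective (η ≫ π)
    obtain ⟨a', ha'⟩ := Spec.map_surjective (η' ≫ π)
    have h1 : a' ≫ CommRingCat.ofHom O.subtype = a ≫ CommRingCat.ofHom O.subtype := by
      rw [← Spec.map_inj, Spec.map_comp, Spec.map_comp, ha, ha', ← Category.assoc, ← Category.assoc]
      exact congrArg (· ≫ π) h.symm
    rw [← ha, ← ha']
    exact congrArg _ (CommRingCat.hom_ext (RingHom.ext fun x => Subtype.ext congr($h1 x)))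
  let S : ValuativeCommSq π :=
    { R := O, K := F, i₁ := specOf O.subtype ≫ η, i₂ := η ≫ π, commSq := ⟨Category.assoc _ _ _⟩ }
  have := IsSeparated.valuativeCriterion π S
  exact congrArg CommSq.LiftStruct.l (Subsingleton.elim (α := S.commSq.LiftStruct)
    ⟨η, rfl, rfl⟩ ⟨η', h.symm, e⟩)

theorem lift_ex (π : X ⟶ Sp k) [IsProper π] (O : ValuationSubring F) (ξ : Sp F ⟶ X)
    (a : k →+* F) (ha : ξ ≫ π = specOf a) (h : ∀ c, a c ∈ O) :
    ∃ η : Sp O ⟶ X, specOf O.subtype ≫ η = ξ := by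
  let S : ValuativeCommSq π :=
    { R := O, K := F, i₁ := ξ, i₂ := specOf (a.codRestrict O h)
      commSq := ⟨ha.trans (Spec.map_comp (CommRingCat.ofHom (a.codRestrict O h))
        (CommRingCat.ofHom O.subtype))⟩ }
  have h1 : ValuativeCriterion π := (IsProper.eq_valuativeCriterion.le _ _ π inferInstance).1.1.1
  obtain ⟨η, h2, -⟩ := (h1.existence S).exists_lift
  exact ⟨η, h2⟩

/-- the point `ξ` specialises to `y` at `p` -/
def Spz (ξ : Sp F ⟶ X) (p : GPt F) (y : Sp Qb ⟶ X) : Prop :=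
  ∃ η : Sp p.v.valuationSubring ⟶ X,
    specOf p.v.valuationSubring.subtype ≫ η = ξ ∧ specOf p.ρ ≫ η = y

theorem Spz.uniq (π : X ⟶ Sp k) [IsSeparated π] {ξ : Sp F ⟶ X} {p : GPt F} {y y' : Sp Qb ⟶ X}
    (h : Spz ξ p y) (h' : Spz ξ p y') : y = y' := by
  obtain ⟨η, h1, rfl⟩ := h
  obtain ⟨η', h2, rfl⟩ := h'
  rw [lift_uniq π _ (h1.trans h2.symm)]

theorem Spz.ex [NumberField k] (π : X ⟶ Sp k) [IsProper π] (ξ : Sp F ⟶ X) (p : GPt F) :
    ∃ y, Spz ξ p y := by
  obtain ⟨a, ha⟩ := Spec.map_surjective (ξ ≫ π)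
  obtain ⟨η, h⟩ := lift_ex π p.v.valuationSubring ξ a.hom ha.symm (p.mem_of_alg a.hom)
  exact ⟨_, η, h, rfl⟩

theorem Spz.of_val {A : Type} [CommRing A] (ι : Sp A ⟶ X) {ξ : A →+* F} {φ : A →+* Qb} {p : GPt F}
    (h : ∀ a, p.Val (ξ a) (φ a)) : Spz (specOf ξ ≫ ι) p (specOf φ ≫ ι) :=
  ⟨specOf (ξ.codRestrict p.v.valuationSubring fun a => (h a).1) ≫ ι, specOf_comp _ _ _,
    (specOf_comp _ _ _).trans (congrArg (specOf · ≫ ι) (RingHom.ext fun a => (h a).2))⟩

theorem Spz.map {ξ : Sp F ⟶ X} {p : GPt F} {y : Sp Qb ⟶ X} (h : Spz ξ p y) (j : F →+* M)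
    (σ : Qb →+* Qb) {q : GPt M} (hq : ∀ a c, p.Val a c → q.Val (j a) (σ c)) :
    Spz (specOf j ≫ ξ) q (specOf σ ≫ y) := by
  obtain ⟨η, rfl, rfl⟩ := h
  rw [specOf_comp, specOf_comp]
  exact Spz.of_val η fun a => hq _ _ ⟨a.2, rfl⟩

theorem pt_eq (ξ : Sp F ⟶ X) :
    ∃ (x : X) (e : PtField x →+* F), ξ = specOf e ≫ X.fromSpecResidueField x := by
  obtain ⟨⟨x, e⟩, rfl⟩ := (Scheme.SpecToEquivOfField F X).symm.surjective ξ
  exact ⟨x, e.hom, rfl⟩

theorem const_spec (π : X ⟶ Sp k) (x : X) :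
    X.fromSpecResidueField x ≫ π = specOf (constMap π x) := (Spec.map_preimage _).symm

theorem closed_of_emb (π : X ⟶ Sp k) [IsSeparated π] {x : X} (e : PtField x →+* Qb) :
    IsClosed ({x} : Set X) := by
  have : Algebra.IsAlgebraic ℚ Qb := AlgebraicClosure.isAlgebraic ℚ
  have : CharZero (PtField x) := (RingHom.charZero_iff e.injective).2 inferInstance
  have : CharZero k := (RingHom.charZero_iff (constMap π x).injective).2 inferInstance
  have : IsIntegralHom (X.fromSpecResidueField x ≫ π) := by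
    rw [const_spec]
    refine IsIntegralHom.SpecMap_iff.2 (RingHom.IsIntegral.tower_top (algebraMap ℚ k) _ fun a => ?_)
    have h1 : IsIntegral ℚ a := (isIntegral_algHom_iff e.toRatAlgHom e.injective).1
      (Algebra.IsIntegral.isIntegral _)
    rwa [Subsingleton.elim (RingHom.comp _ _) (algebraMap ℚ (PtField x))]
  have := IsIntegralHom.of_comp (X.fromSpecResidueField x) π
  rw [← X.range_fromSpecResidueField x]
  exact (X.fromSpecResidueField x).isClosedMap.isClosed_range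

theorem nf_closed [NumberField k] (π : X ⟶ Sp k) [LocallyOfFiniteType π] {x : X}
    (hx : IsClosed ({x} : Set X)) : NumberField (PtField x) := by
  have : IsFinite (X.fromSpecResidueField x ≫ π) := by
    rw [isClosed_singleton_iff_isClosedImmersion] at hx
    rw [isFinite_iff_locallyOfFiniteType_of_jacobsonSpace]
    infer_instance
  rw [const_spec] at this
  let _ := (constMap π x).toAlgebra
  have : Module.Finite k (PtField x) := (IsFinite.SpecMap_iff _).1 this
  exact NumberField.of_module_finite k _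

end

end Pool.Agent.P.MP_b8021b_nt.VX
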