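import Mathlib

/-! A polynomial that factors compatibly on all lines through a point factors. -/

namespace Pool.Agent.P.MP_b8021b_nt.VX

open Polynomial Finset
open scoped Classical

theorem coeff_swap {R : Type} [CommRing R] (p : R[X][X]) (i j : ℕ) :
    ((Bivariate.swap p).coeff i).coeff j = (p.coeff j).coeff i := by
  induction p using Polynomial.induction_on' with
  | add p q hp hq => simp [hp, hq]
  | monomial n f =>
    induction f using Polynomial.induction_on' with
    | add p q hp hq => simp only [map_add, coeff_add, hp, hq]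
    | monomial m r =>
      rw [Bivariate.swap_monomial_monomial]
      simp only [coeff_monomial]
      split_ifs <;> simp_all [coeff_monomial]

theorem swap_deg {R : Type} [CommRing R] (p : R[X][X]) (N : ℕ) :
    (Bivariate.swap p).natDegree ≤ N ↔ ∀ j, (p.coeff j).natDegree ≤ N := by
  simp only [natDegree_le_iff_coeff_eq_zero]
  refine ⟨fun h j i hi => ?_, fun h i hi => ?_⟩
  · rw [← coeff_swap, h i hi, coeff_zero]
  · ext j
    rw [coeff_swap, h j i hi, coeff_zero]

theorem deg_of_dvd {R : Type} [CommRing R] [IsDomain R] {P Q : R[X][X]} (h : Q ∣ P) (h0 : P ≠ 0)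
    {N : ℕ} (hN : ∀ j, (P.coeff j).natDegree ≤ N) (j : ℕ) : (Q.coeff j).natDegree ≤ N := by
  refine (swap_deg Q N).1 (le_trans (natDegree_le_of_dvd (_root_.map_dvd _ h) ?_)
    ((swap_deg P N).2 hN)) j
  exact (_root_.map_ne_zero_iff _ (Bivariate.swap (R := R)).injective).2 h0

theorem prod_dvd {R J : Type} [CommRing R] [IsDomain R] {Q : R[X]} (h0 : Q ≠ 0) (T : Finset J)
    (u : J → R) (hu : Set.InjOn u T) (h : ∀ a ∈ T, Q.IsRoot (u a)) :
    ∏ a ∈ T, (X - C (u a)) ∣ Q := by
  have h1 : (T.val.map u) ≤ Q.roots := by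
    rw [Multiset.le_iff_subset (T.nodup.map_on fun x hx y hy e => hu hx hy e)]
    intro x hx
    obtain ⟨a, ha, rfl⟩ := Multiset.mem_map.1 hx
    exact (mem_roots h0).2 (h a ha)
  have := (Multiset.prod_X_sub_C_dvd_iff_le_roots h0 _).2 h1
  rwa [Multiset.map_map] at this

theorem cc_eval {R : Type} [CommRing R] (P : R[X][X]) (u : PowerSeries R) :
    PowerSeries.constantCoeff ((P.map coeToPowerSeries.ringHom).eval u) =
      (P.map (evalRingHom 0)).eval (PowerSeries.constantCoeff u) := by
  rw [eval_map, eval_map, hom_eval₂]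
  congr 1
  refine RingHom.ext fun f => ?_
  simp [coeff_zero_eq_eval_zero]

theorem hens {K B J : Type} [Field K] [CommRing B] [IsDomain B] [Algebra K B]
    (ev : J → B →ₐ[K] K) (hev : ∀ b, (∀ c, ev c b = 0) → b = 0) (P : B[X][X]) (hP : P.Monic)
    (p : K[X]) (hs : p.Separable) (hsp : p.Splits)
    (h0 : P.map (evalRingHom 0) = p.map (algebraMap K B)) (S : Set K)
    (hS : ∀ c, ∃ Q Q' : K[X][X], Q.Monic ∧ Q'.Monic ∧
      P.map (mapRingHom (ev c : B →+* K)) = Q * Q' ∧
      (∀ a, (Q.map (evalRingHom 0)).IsRoot a → a ∈ S) ∧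
      ∀ a, (Q'.map (evalRingHom 0)).IsRoot a → a ∉ S) :
    ∃ Q Q' : B[X][X], Q.Monic ∧ Q'.Monic ∧ P = Q * Q' ∧
      Q.natDegree = #{a ∈ p.roots.toFinset | a ∈ S} ∧
      Q'.natDegree = #{a ∈ p.roots.toFinset | a ∉ S} := by
  have hinj := (algebraMap K B).injective
  have hp0 : p ≠ 0 := hs.ne_zero
  let ι : B[X] →+* PowerSeries B := coeToPowerSeries.ringHom
  have hι : Function.Injective ι := Polynomial.coe_injective B
  have hu : ∀ a ∈ p.roots.toFinset, ∃ u : PowerSeries B, (P.map ι).IsRoot u ∧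
      PowerSeries.constantCoeff u = algebraMap K B a := fun a ha => by
    have ha' : p.IsRoot a := (mem_roots hp0).1 (Multiset.mem_toFinset.1 ha)
    obtain ⟨u, h1, h2⟩ := HenselianRing.is_henselian (I := Ideal.span {PowerSeries.X}) (P.map ι)
      (hP.map ι) (PowerSeries.C (algebraMap K B a)) (by
        rw [Ideal.mem_span_singleton, PowerSeries.X_dvd_iff, cc_eval, h0,
          PowerSeries.constantCoeff_C, eval_map_algebraMap, aeval_algebraMap_apply, coe_aeval_eq_eval,
          ha'.eq_zero, map_zero]) (by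
        refine IsUnit.map _ (PowerSeries.isUnit_iff_constantCoeff.2 ?_)
        rw [derivative_map, cc_eval, ← derivative_map, h0, derivative_map,
          PowerSeries.constantCoeff_C, eval_map_algebraMap, aeval_algebraMap_apply, coe_aeval_eq_eval]
        exact (IsUnit.mk0 _ (hs.eval₂_derivative_ne_zero (RingHom.id K) ha')).map _)
    refine ⟨u, h1, ?_⟩
    rw [Ideal.mem_span_singleton, PowerSeries.X_dvd_iff, map_sub, PowerSeries.constantCoeff_C,
      sub_eq_zero] at h2
    exact h2
  choose! u hu1 hu2 using hu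
  have hn : P.natDegree = #p.roots.toFinset := by
    rw [Multiset.toFinset_card_of_nodup (nodup_roots hs), ← hsp.natDegree_eq_card_roots,
      ← natDegree_map_eq_of_injective hinj, ← h0, hP.natDegree_map]
  have hA : ∀ T : Finset K, (∏ a ∈ T, (X - C (u a))).Monic ∧
      (∏ a ∈ T, (X - C (u a))).natDegree = #T := fun T =>
    ⟨monic_prod_of_monic _ _ fun _ _ => monic_X_sub_C _, natDegree_finsetProd_X_sub_C_eq_card _ _⟩
  have hP1 : P.map ι = ∏ a ∈ p.roots.toFinset, (X - C (u a)) := by
    refine eq_of_monic_of_dvd_of_natDegree_le (hA _).1 (hP.map ι)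
      (prod_dvd (hP.map ι).ne_zero _ u (fun a ha b hb e => hinj ?_) hu1) ?_
    · rw [← hu2 a ha, ← hu2 b hb, e]
    · rw [hP.natDegree_map, hn, (hA _).2]
  obtain ⟨N, hN⟩ : ∃ N, ∀ j, (P.coeff j).natDegree ≤ N :=
    ⟨_, (swap_deg P _).1 le_rfl⟩
  have key : ∀ (S' : Set K), (∀ c, ∃ Q Q' : K[X][X], Q.Monic ∧ Q'.Monic ∧
      P.map (mapRingHom (ev c : B →+* K)) = Q * Q' ∧
      (∀ a, (Q.map (evalRingHom 0)).IsRoot a → a ∈ S') ∧
      ∀ a, (Q'.map (evalRingHom 0)).IsRoot a → a ∉ S') →
      ∃ Q : B[X][X], Q.map ι = ∏ a ∈ p.roots.toFinset with a ∈ S', (X - C (u a)) ∧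
        Q.natDegree = (∏ a ∈ p.roots.toFinset with a ∈ S', (X - C (u a))).natDegree ∧ Q.Monic := by
    intro S' hS'
    refine lifts_and_natDegree_eq_and_monic ((lifts_iff_coeff_lifts _).2 fun j => ?_) (hA _).1
    refine ⟨PowerSeries.trunc (N + 1)
      ((∏ a ∈ p.roots.toFinset with a ∈ S', (X - C (u a))).coeff j), PowerSeries.ext fun m => ?_⟩
    change PowerSeries.coeff m ((PowerSeries.trunc (N + 1) _ : B[X]) : PowerSeries B) = _
    rw [coeff_coe, PowerSeries.coeff_trunc]
    split_ifs with hm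
    · rfl
    refine (hev _ fun c => ?_).symm
    obtain ⟨Q, Q', hQ, hQ', e, h1, h2⟩ := hS' c
    let μ : PowerSeries B →+* PowerSeries K := PowerSeries.map (ev c : B →+* K)
    let ι' : K[X] →+* PowerSeries K := coeToPowerSeries.ringHom
    have hc : ∀ a ∈ p.roots.toFinset, PowerSeries.constantCoeff (μ (u a)) = a := fun a ha => by
      rw [← PowerSeries.coeff_zero_eq_constantCoeff_apply, PowerSeries.coeff_map,
        PowerSeries.coeff_zero_eq_constantCoeff_apply, hu2 a ha]
      exact (ev c).commutes a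
    have e1 : (P.map ι).map μ = Q.map ι' * Q'.map ι' := by
      rw [← Polynomial.map_mul, ← e, Polynomial.map_map, Polynomial.map_map]
      congr 1
      refine RingHom.ext fun f => PowerSeries.ext fun i => ?_
      simp [μ, ι, ι']
    have hr : ∀ a ∈ p.roots.toFinset,
        (Q.map ι').eval (μ (u a)) * (Q'.map ι').eval (μ (u a)) = 0 := fun a ha => by
      rw [← eval_mul, ← e1, eval_map, eval₂_at_apply, (hu1 a ha).eq_zero, map_zero]
    have hi : ∀ T ⊆ p.roots.toFinset, Set.InjOn (fun a => μ (u a)) T := fun T hT a ha b hb e => by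
      rw [← hc a (hT ha), ← hc b (hT hb)]
      exact congrArg _ e
    have d1 := prod_dvd (hQ.map ι').ne_zero {a ∈ p.roots.toFinset | a ∈ S'} (fun a => μ (u a))
      (hi _ (filter_subset _ _)) fun a ha => by
        rw [mem_filter] at ha
        refine (mul_eq_zero.1 (hr a ha.1)).resolve_right fun h => h2 a ?_ ha.2
        have := cc_eval Q' (μ (u a))
        rw [hc a ha.1] at this
        exact this.symm.trans ((congrArg _ h).trans (map_zero _))
    have d2 := prod_dvd (hQ'.map ι').ne_zero {a ∈ p.roots.toFinset | a ∉ S'} (fun a => μ (u a))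
      (hi _ (filter_subset _ _)) fun a ha => by
        rw [mem_filter] at ha
        refine (mul_eq_zero.1 (hr a ha.1)).resolve_left fun h => ha.2 (h1 a ?_)
        have := cc_eval Q (μ (u a))
        rw [hc a ha.1] at this
        exact this.symm.trans ((congrArg _ h).trans (map_zero _))
    have n1 := natDegree_le_of_dvd d2 (hQ'.map ι').ne_zero
    have n2 := congrArg natDegree e1
    rw [((hP.map ι)).natDegree_map, hP.natDegree_map, hn, (hQ.map ι').natDegree_mul (hQ'.map ι'),
      ← card_filter_add_card_filter_not (fun a => a ∈ S')] at n2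
    rw [natDegree_finsetProd_X_sub_C_eq_card] at n1
    have e2 := eq_of_monic_of_dvd_of_natDegree_le
      (monic_prod_of_monic _ _ fun _ _ => monic_X_sub_C _) (hQ.map ι') d1
      (by rw [natDegree_finsetProd_X_sub_C_eq_card]; omega)
    have e3 : (∏ a ∈ p.roots.toFinset with a ∈ S', (X - C (u a))).map μ = Q.map ι' := by
      rw [e2, Polynomial.map_prod]
      simp
    have e4 := congrArg (fun f => PowerSeries.coeff m (f.coeff j)) e3
    simp only [coeff_map] at e4
    refine (PowerSeries.coeff_map _ _ _).symm.trans (e4.trans ?_)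
    change PowerSeries.coeff m (Q.coeff j : PowerSeries K) = 0
    rw [coeff_coe]
    refine coeff_eq_zero_of_natDegree_lt (lt_of_le_of_lt (deg_of_dvd (P := Q * Q') (N := N)
      (dvd_mul_right _ _) (hQ.mul hQ').ne_zero (fun i => ?_) j) (by omega))
    rw [← e, coeff_map]
    exact natDegree_map_le.trans (hN i)
  obtain ⟨Q, e1, n1, m1⟩ := key S hS
  obtain ⟨Q', e2, n2, m2⟩ := key Sᶜ fun c => by
    obtain ⟨Q, Q', hQ, hQ', e, h1, h2⟩ := hS c
    exact ⟨Q', Q, hQ', hQ, e.trans (mul_comm _ _), h2, fun a ha h => h (h1 a ha)⟩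
  simp only [Set.mem_compl_iff] at e2 n2
  refine ⟨Q, Q', m1, m2, map_injective ι hι ?_, n1.trans (hA _).2, n2.trans (hA _).2⟩
  rw [Polynomial.map_mul, e1, e2, hP1]
  exact (prod_filter_mul_prod_filter_not _ _ _).symm

end Pool.Agent.P.MP_b8021b_nt.VX
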