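import Pool.Agent.P.MP_b8021b_nt.VC.XConn
import Pool.Agent.P.MP_b8021b_nt.VC.StS
import Pool.Agent.P.MP_b8021b_nt.VE.BasicS

/-! Functionals on the points of an affine variety. -/

namespace Pool.Agent.P.MP_b8021b_nt.VX

open Polynomial IntermediateField Pool.Agent.P.MP_b8021b_nt.VE Pool.Agent.P.MP_b8021b_nt.VC
open scoped Classical

theorem fin_of_le (A B M : Type) [Field A] [Field B] [Field M] [Algebra A M] [Algebra B M]
    [FiniteDimensional A M] (h : ∀ a, ∃ b, algebraMap B M b = algebraMap A M a) :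
    FiniteDimensional B M := by
  obtain ⟨S, hS⟩ := Module.finite_def.1 (inferInstance : Module.Finite A M)
  refine Module.finite_def.2 ⟨S, eq_top_iff.2 fun x hx => ?_⟩
  clear hx
  have hx : x ∈ Submodule.span A (S : Set M) := hS ▸ Submodule.mem_top
  induction hx using Submodule.span_induction with
  | mem x hx => exact Submodule.subset_span hx
  | zero => exact zero_mem _
  | add x y _ _ hx hy => exact add_mem hx hy
  | smul a x _ hx =>
    obtain ⟨b, hb⟩ := h a
    rw [Algebra.smul_def, ← hb, ← Algebra.smul_def]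
    exact Submodule.smul_mem _ b hx

theorem mem_adj_map {k F M : Type} [Field k] [Field F] [Field M] [Algebra k F] [Algebra k M]
    (j : F →ₐ[k] M) (t : F) (x : M) : x ∈ k⟮j t⟯ ↔ ∃ a ∈ k⟮t⟯, j a = x := by
  rw [← Set.image_singleton, ← adjoin_map]
  rfl

theorem fin_sub (hCrv : S_Crv) {F M : Type} [Field F] [Field M] [Algebra ℚ F] [Algebra ℚ M]
    [Algebra F M] (hM : IsCurve M) {t : F} (ht : Transcendental ℚ t) : FiniteDimensional F M := by
  have : IsScalarTower ℚ F M := IsScalarTower.of_algebraMap_eq' (Subsingleton.elim _ _)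
  have := (hCrv.2.1 ℚ M _ ((transcendental_algebraMap_iff (algebraMap F M).injective).2 ht)).1 hM
  refine fin_of_le ℚ⟮algebraMap F M t⟯ _ M fun a => ?_
  obtain ⟨b, -, e⟩ := (mem_adj_map (IsScalarTower.toAlgHom ℚ F M) t _).1 a.2
  exact ⟨b, e⟩

theorem nf_of_alg (hFin : S_Fin) {F K : Type} [Field F] [Algebra ℚ F] (hF : IsCurve F) [Field K]
    [Algebra ℚ K] [Algebra.IsAlgebraic ℚ K] (e : K →+* F) : NumberField K := by
  have : CharZero K := algebraRat.charZero K
  obtain ⟨t, ht, -⟩ := id hF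
  obtain ⟨p, -⟩ := (hFin F hF).2.2.1 t ht
  obtain ⟨τ, hτ⟩ := p.exists_emb e
  obtain ⟨L, hL, hLv⟩ := (hFin F hF).2.1 p
  have h1 : FiniteDimensional ℚ K :=
    FiniteDimensional.of_injective (τ.toLinearMap.codRestrict L.toSubmodule
      fun x => (hLv _).2 ⟨_, hτ x⟩) fun x y h => τ.injective (congrArg Subtype.val h)
  exact { to_finiteDimensional := by convert h1; exact Subsingleton.elim _ _ }

theorem const_of_alg {M : Type} [Field M] [Algebra ℚ M] (χ : Qb →+* M) {a : M}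
    (h : IsAlgebraic ℚ a) : ∃ c, χ c = a := by
  let _ : Algebra Qb M := χ.toAlgebra
  have : IsScalarTower ℚ Qb M := IsScalarTower.of_algebraMap_eq' (Subsingleton.elim _ _)
  exact minpoly.mem_range_of_degree_eq_one Qb a (IsAlgClosed.degree_eq_one_of_irreducible Qb
    (minpoly.irreducible (h.tower_top Qb).isIntegral))

theorem same (hFin : S_Fin) (hConst : S_Const) {F : Type} [Field F] [Algebra ℚ F] (hF : IsCurve F)
    {l : GPt F → Qb → ℝ} (hl : GFn l) {p q : GPt F}
    (h : ∀ b : F, IsAlgebraic ℚ b → ∀ c, p.Val b c → q.Val b c) {u : Qb} (hu : u ≠ 0) :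
    l p u = l q u := by
  have := @nf_of_alg hFin F (algebraicClosure ℚ F) _ _ hF _ (algebraicClosure ℚ F).algebra'
    (algebraicClosure.isAlgebraic ℚ F) (algebraMap (algebraicClosure ℚ F) F)
  exact hConst (algebraicClosure ℚ F) F hF (algebraicClosure.algebraicClosure_eq_bot ℚ F) l hl p q
    (fun b c => h b (mem_algebraicClosure_iff.1 b.2) c) u hu

/-- the function on the points comes from invariant functionals on all curves -/
def Pull {A : Type} [CommRing A] (lam : (A →+* Qb) → Qb → ℝ) : Prop :=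
  ∀ (F : Type) [Field F] [Algebra ℚ F], IsCurve F → ∀ ξ : A →+* F, ∃ l : GPt F → Qb → ℝ,
    GFn l ∧ ∀ p φ, (∀ a, p.Val (ξ a) (φ a)) → l p = lam φ

theorem link1 (hFin : S_Fin) (hExtp : S_Extp) (hConst : S_Const) {A : Type} [CommRing A]
    [Algebra ℚ A] [Algebra.FiniteType ℚ A] {lam : (A →+* Qb) → Qb → ℝ} (H : Pull lam) {C M : Type}
    [CommRing C] [Algebra Qb C] [Field M] [Algebra ℚ M] (i : C →+* M) (hi : Function.Injective i)
    (τ : Qb[X] →ₐ[Qb] C) (h1 : Function.Injective τ) (h2 : (τ : Qb[X] →+* C).IsIntegral)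
    (γ : A →+* C) (φ ψ : C →ₐ[Qb] Qb) {u : Qb} (hu : u ≠ 0) :
    lam ((φ : C →+* Qb).comp γ) u = lam ((ψ : C →+* Qb).comp γ) u := by
  have : Algebra.IsAlgebraic ℚ Qb := AlgebraicClosure.isAlgebraic ℚ
  let T : M := i (τ X)
  let χ : Qb →+* M := i.comp (algebraMap Qb C)
  have hev : ∀ {N : Type} [Field N] [Algebra ℚ N] (j : C →+* N) (g : ℚ[X]),
      aeval (j (τ X)) g = j (τ (g.map (algebraMap ℚ Qb))) := fun j g => by
    have : (aeval (j (τ X)) : ℚ[X] →ₐ[ℚ] _).toRingHom =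
        (j.comp (τ : Qb[X] →+* C)).comp (mapRingHom (algebraMap ℚ Qb)) :=
      Polynomial.ringHom_ext' (Subsingleton.elim _ _) (by simp)
    exact DFunLike.congr_fun this g
  have hT : Transcendental ℚ T := fun ⟨g, hg, e⟩ => by
    rw [hev, _root_.map_eq_zero_iff _ hi, _root_.map_eq_zero_iff _ h1,
      Polynomial.map_eq_zero] at e
    exact hg e
  have hint : ∀ c : C, IsIntegral ℚ⟮T⟯ (i c) := fun c => by
    let E := algebraicClosure ℚ⟮T⟯ M
    have hE : ∀ g : Qb[X], i (τ g) ∈ E := fun g => by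
      induction g using Polynomial.induction_on with
      | C a =>
        rw [← Polynomial.algebraMap_eq, τ.commutes]
        exact mem_algebraicClosure_iff.2 (((Algebra.IsAlgebraic.isAlgebraic (R := ℚ) a).algHom
          χ.toRatAlgHom).tower_top _)
      | add p q hp hq => rw [_root_.map_add, _root_.map_add]; exact add_mem hp hq
      | monomial n a h =>
        rw [pow_succ, ← mul_assoc, _root_.map_mul, _root_.map_mul]
        exact mul_mem h (E.algebraMap_mem ⟨T, mem_adjoin_simple_self ℚ T⟩)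
    obtain ⟨P, hP, h0⟩ := h2 c
    let j : Qb[X] →+* E := (i.comp (τ : Qb[X] →+* C)).codRestrict E hE
    refine isIntegral_trans (A := E) _ ⟨P.map j, hP.map j, ?_⟩
    rw [eval₂_map]
    exact (hom_eval₂ P _ i c).symm.trans (by rw [h0, map_zero])
  obtain ⟨s, hs⟩ := Algebra.FiniteType.out (R := ℚ) (A := A)
  let F : IntermediateField ℚ⟮T⟯ M := adjoin ℚ⟮T⟯ ((fun a => i (γ a)) '' s)
  have : Finite ((fun a => i (γ a)) '' s) := (s.finite_toSet.image _).to_subtype
  have : FiniteDimensional ℚ⟮T⟯ F := finiteDimensional_adjoin (by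
    rintro _ ⟨a, -, rfl⟩
    exact hint _)
  have hK : ∀ x ∈ ℚ⟮T⟯, x ∈ F := fun x hx => F.algebraMap_mem ⟨x, hx⟩
  let t : F := ⟨T, hK T (mem_adjoin_simple_self ℚ T)⟩
  have hF : IsCurve F := by
    refine ⟨t, (transcendental_algebraMap_iff (algebraMap F M).injective).1 hT,
      fin_of_le ℚ⟮T⟯ _ F fun a => ?_⟩
    obtain ⟨b, hb, e⟩ := (mem_adj_map (IsScalarTower.toAlgHom ℚ F M) t _).1 a.2
    exact ⟨⟨b, hb⟩, Subtype.ext e⟩
  have hγ : ∀ a, i (γ a) ∈ F := fun a => by
    have : Algebra.adjoin ℚ (s : Set A) ≤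
        (F.toSubalgebra.restrictScalars ℚ).comap (i.comp γ).toRatAlgHom :=
      Algebra.adjoin_le fun a ha => subset_adjoin _ _ ⟨a, ha, rfl⟩
    exact this (hs ▸ Algebra.mem_top)
  have key : ∀ φ : C →ₐ[Qb] Qb, ∃ q : GPt F, ∀ (c : C) (h : i c ∈ F), q.Val ⟨i c, h⟩ (φ c) :=
    fun φ => by
      let B : Subring C := F.toSubfield.toSubring.comap i
      have hm := minpoly.ne_zero (Algebra.IsIntegral.isIntegral (R := ℚ) (φ (τ X)))
      obtain ⟨q, hq⟩ := hExtp F hF B ((i.comp B.subtype).codRestrict F fun b => b.2)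
        ((φ : C →+* Qb).comp B.subtype) (fun b hb => by
          have : (b : C) = 0 := hi ((congrArg Subtype.val hb).trans (map_zero i).symm)
          exact (congrArg φ this).trans (map_zero φ))
        ⟨⟨τ ((minpoly ℚ (φ (τ X))).map (algebraMap ℚ Qb)), hK _ (by
          rw [← hev]
          exact algebra_adjoin_le_adjoin ℚ _ (aeval_mem_adjoin_singleton ℚ _))⟩,
          fun h => hT ⟨_, hm, (hev i _).trans (congrArg Subtype.val h)⟩,
          (hev (φ : C →+* Qb) _).symm.trans (minpoly.aeval ℚ _)⟩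
      exact ⟨q, fun c h => hq ⟨c, h⟩⟩
  obtain ⟨l, hl, hl'⟩ := H F hF ((i.comp γ).codRestrict F hγ)
  obtain ⟨p, hp⟩ := key φ
  obtain ⟨q, hq⟩ := key ψ
  rw [← hl' p ((φ : C →+* Qb).comp γ) fun a => hp _ (hγ a),
    ← hl' q ((ψ : C →+* Qb).comp γ) fun a => hq _ (hγ a)]
  refine same hFin hConst hF hl (fun b hb c h => ?_) hu
  obtain ⟨β, hβ⟩ := const_of_alg χ (hb.algHom (IsScalarTower.toAlgHom ℚ F M))
  have h3 : i (algebraMap Qb C β) ∈ F := by
    change χ β ∈ F
    rw [hβ]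
    exact b.2
  have h4 : b = ⟨_, h3⟩ := Subtype.ext hβ.symm
  rw [h4] at h ⊢
  rw [h.unique (hp _ h3), φ.commutes, ← ψ.commutes]
  exact hq _ h3

theorem core (hFin : S_Fin) (hExtp : S_Extp) (hConst : S_Const) {A : Type} [CommRing A]
    [Algebra ℚ A] [Algebra.FiniteType ℚ A] {lam : (A →+* Qb) → Qb → ℝ} (H : Pull lam) {R : Type}
    [CommRing R] [Algebra Qb R] [Algebra.FiniteType Qb R] (γ : A →+* R) (P : Ideal R) [P.IsPrime]
    (φ ψ : R →ₐ[Qb] Qb) (h1 : ∀ a ∈ P, φ a = 0) (h2 : ∀ a ∈ P, ψ a = 0) {u : Qb} (hu : u ≠ 0) :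
    lam ((φ : R →+* Qb).comp γ) u = lam ((ψ : R →+* Qb).comp γ) u := by
  refine conn (K := Qb) (A := R ⧸ P)
    (c := fun χ => lam ((χ : R ⧸ P →+* Qb).comp ((Ideal.Quotient.mk P).comp γ)) u)
    (fun C _ _ _ τ t1 t2 g χ χ' => ?_) (Ideal.Quotient.liftₐ P φ h1) (Ideal.Quotient.liftₐ P ψ h2)
  have : CharZero C := charZero_of_injective_algebraMap (algebraMap Qb C).injective
  have : CharZero (FractionRing C) := IsFractionRing.charZero C
  exact link1 hFin hExtp hConst H (algebraMap C (FractionRing C)) (IsFractionRing.injective _ _)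
    τ t1 t2 ((g : R ⧸ P →+* C).comp ((Ideal.Quotient.mk P).comp γ)) χ χ' hu

end Pool.Agent.P.MP_b8021b_nt.VX
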