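import Pool.Agent.P.MP_b8021b_nt.VC.XStmt

/-! The statement for proper schemes. -/

open AlgebraicGeometry CategoryTheory

namespace Pool.Agent.P.MP_b8021b_nt.VX

/-- The statement: `V(X)` is a torsion group. -/
def S_MainX : Prop :=
  ∀ (k : Type) [Field k] [NumberField k] (X : Scheme.{0}) (π : X ⟶ Spec (CommRingCat.of k))
    [IsProper π] [GeometricallyConnected π] (D : UnitChain X), chainNorm π D = 1 →
    ∃ n : ℕ, 0 < n ∧ n • D ∈ tameBoundaries π

end Pool.Agent.P.MP_b8021b_nt.VX
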