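import Pool.Agent.P.MP_b8021b_nt.VC.XFun
import Pool.Agent.P.MP_b8021b_nt.VC.XSt

/-! The group `V(X)` is torsion. -/

namespace Pool.Agent.P.MP_b8021b_nt.VX

open AlgebraicGeometry CategoryTheory Finset
open Pool.Agent.P.MP_b8021b_nt.VE Pool.Agent.P.MP_b8021b_nt.VC Pool.Agent.P.MP_b8021b_nt.VC.Main
open scoped Classical

noncomputable section

variable {k F : Type} [Field k] [Field F] {X : Scheme.{0}}

/-- the components of a functional on chains -/
def cm (φ : UnitChain X →+ ℝ) (x : X) (c : PtField x) : ℝ :=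
  if h : IsClosed ({x} : Set X) ∧ c ≠ 0 then φ (ClosedPt.chain ⟨x, h.1⟩ (Units.mk0 c h.2)) else 0

theorem cm_unit (φ : UnitChain X →+ ℝ) (x : ClosedPt X) (u : Units (PtField x.pt)) :
    cm φ x.pt u.val = φ (x.chain u) := by
  rw [cm, dif_pos ⟨x.closed, u.ne_zero⟩, Units.mk0_val]

theorem cm_ad (φ : UnitChain X →+ ℝ) (x : X) : Ad (cm φ x) := fun a b ha hb => by
  by_cases h : IsClosed ({x} : Set X)
  · rw [cm, cm, cm, dif_pos ⟨h, mul_ne_zero ha hb⟩, dif_pos ⟨h, ha⟩, dif_pos ⟨h, hb⟩, ← map_add,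
      ClosedPt.chain, ClosedPt.chain, ClosedPt.chain, ← DFinsupp.single_add, Units.mk0_mul]
    rfl
  · simp [cm, h]

/-- the functional on points with an embedding of the residue field -/
def LaS (φ : UnitChain X →+ ℝ) (s : Σ x : X, X.residueField x ⟶ .of Qb) (u : Qb) : ℝ :=
  nuE (cm φ s.1) s.2.hom u / Nat.card (PtField s.1 →+* Qb)

/-- the functional on geometric points -/
def La (φ : UnitChain X →+ ℝ) (y : Sp Qb ⟶ X) : Qb → ℝ :=
  LaS φ (Scheme.SpecToEquivOfField Qb X y)

theorem La_mk (φ : UnitChain X →+ ℝ) (x : X) (e : PtField x →+* Qb) :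
    La φ (specOf e ≫ X.fromSpecResidueField x) =
      fun u => nuE (cm φ x) e u / Nat.card (PtField x →+* Qb) := by
  have h1 : specOf e ≫ X.fromSpecResidueField x =
      (Scheme.SpecToEquivOfField Qb X).symm ⟨x, CommRingCat.ofHom e⟩ := rfl
  rw [La, h1, Equiv.apply_symm_apply]
  rfl

theorem La_ad (φ : UnitChain X →+ ℝ) (y : Sp Qb ⟶ X) : Ad (La φ y) :=
  nuE_div_ad (cm_ad φ _) _ _

theorem La_gal (φ : UnitChain X →+ ℝ) (σ : Qb ≃+* Qb) (y : Sp Qb ⟶ X) (u : Qb) :
    La φ (specOf (σ : Qb →+* Qb) ≫ y) (σ u) = La φ y u := by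
  obtain ⟨x, e, rfl⟩ := pt_eq y
  rw [specOf_comp, La_mk, La_mk]
  exact congrArg (· / _) (nuE_gal σ e u)

variable [NumberField k] (π : X ⟶ Sp k) [IsProper π]

/-- the functional on a curve -/
def lc (φ : UnitChain X →+ ℝ) (ξ : Sp F ⟶ X) (p : GPt F) : Qb → ℝ := La φ (Spz.ex π ξ p).choose

theorem lc_eq (φ : UnitChain X →+ ℝ) {ξ : Sp F ⟶ X} {p : GPt F} {y : Sp Qb ⟶ X}
    (h : Spz ξ p y) : lc π φ ξ p = La φ y :=
  congrArg (La φ) ((Spz.ex π ξ p).choose_spec.uniq π h)

theorem kfn0 (hCrv : S_Crv) (hFin : S_Fin) {φ : UnitChain X →+ ℝ}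
    (hφ : ∀ D ∈ tameBoundaries π, φ D = 0) (y : X) [Algebra ℚ (PtField y)]
    (hy : IsCurve (PtField y)) : KFn (lc π φ (X.fromSpecResidueField y)) := by
  let _ := (constMap π y).toAlgebra
  have hc : IsCurvePoint π y := by
    have : IsScalarTower ℚ k (PtField y) := IsScalarTower.of_algebraMap_eq' (Subsingleton.elim _ _)
    obtain ⟨t, ht, -⟩ := id hy
    exact ⟨t, ht.extendScalars k, (hCrv.2.1 k _ t (ht.extendScalars k)).1 hy⟩
  have hN : ∀ v : Place k (PtField y), NumberField v.κ := nf hCrv hFin hy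
  have h1 : ∀ v : Place k (PtField y), ∃ (x : ClosedPt X) (j : PtField x.pt →+* v.κ)
      (η : Sp v.v.valuationSubring ⟶ X),
      specOf v.v.valuationSubring.subtype ≫ η = X.fromSpecResidueField y ∧
      specOf (IsLocalRing.residue v.v.valuationSubring) ≫ η =
        specOf j ≫ X.fromSpecResidueField x.pt := fun v => by
    obtain ⟨η, h⟩ := lift_ex π v.v.valuationSubring _ _ (const_spec π y) fun c => (v.const c).2
    obtain ⟨x, j, e⟩ := pt_eq (F := v.κ) (specOf (IsLocalRing.residue _) ≫ η)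
    obtain ⟨τ⟩ : Nonempty (v.κ →+* Qb) := inferInstance
    exact ⟨⟨x, closed_of_emb π (τ.comp j)⟩, j, η, h, e⟩
  choose x j η a1 a2 using h1
  refine symbX hCrv hFin hy (fun v => PtField (x v).pt) (fun v => cm φ (x v).pt)
    (fun v => cm_ad φ _) j _ (fun v e => ?_) fun f g hf hg S u s1 s2 => ?_
  · rw [← La_mk]
    refine lc_eq π φ ⟨η v, a1 v, ?_⟩
    rw [← specOf_comp, ← a2, specOf_comp]
    rfl
  · let E : Place k (PtField y) ≃ CurvePlace (constMap π y) :=
      ⟨fun v => ⟨v.v, v.surj, v.triv⟩, fun v => ⟨v.v, v.surj, v.triv⟩, fun _ => rfl, fun _ => rfl⟩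
    simp only [cm_unit]
    rw [← map_sum]
    refine hφ _ (AddSubgroup.subset_closure ⟨y, hc, f, g, hf, hg, S.map E.toEmbedding,
      fun p => x (E.symm p), fun p => j (E.symm p), fun p => u (E.symm p),
      fun p hp => s1 (E.symm p) fun h => hp (mem_map_equiv.2 h),
      fun p => ⟨⟨η (E.symm p), a1 (E.symm p), a2 (E.symm p)⟩, s2 (E.symm p)⟩, ?_⟩)
    rw [sum_map]
    rfl

theorem gfn (hCrv : S_Crv) (hFin : S_Fin) (hRes : S_Res) (hTrans : S_Trans) (hWeil : S_Weil)
    {φ : UnitChain X →+ ℝ} (hφ : ∀ D ∈ tameBoundaries π, φ D = 0) [Algebra ℚ F] (hF : IsCurve F)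
    (ξ : Sp F ⟶ X) : GFn (lc π φ ξ) := by
  refine ⟨?_, fun σ p p' h u _ => ?_⟩
  · obtain ⟨y, e, rfl⟩ := pt_eq ξ
    have : CharZero F := algebraRat.charZero F
    have : CharZero (PtField y) := (RingHom.charZero_iff e.injective).2 inferInstance
    let _ : Algebra (PtField y) F := e.toAlgebra
    by_cases h : Algebra.IsAlgebraic ℚ (PtField y)
    · have := nf_of_alg hFin hF e
      choose τ hτ using fun p : GPt F => p.exists_emb e
      have := hWeil (PtField y) F hF (fun σ => La φ (specOf σ ≫ X.fromSpecResidueField y))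
        (fun p => τ p) (fun σ => La_ad φ _) hτ
      convert this using 2 with p
      exact lc_eq π φ (Spz.of_val _ (hτ p))
    · obtain ⟨t, ht⟩ := (Algebra.transcendental_iff_not_isAlgebraic.2 h).transcendental
      have := fin_sub hCrv hF ht
      have hy : IsCurve (PtField y) := (hCrv.1 _ F).2 hF
      obtain ⟨res, -, h1, -⟩ := hRes (PtField y) F hy
      have := (hTrans (PtField y) F hy res _ fun q => (h1 q _).2 rfl).1 (kfn0 π hCrv hFin hφ y hy)
      convert this using 2 with q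
      have h2 := (Spz.ex π (X.fromSpecResidueField y) (res q)).choose_spec.map e (RingHom.id Qb)
        ((h1 q _).2 rfl)
      rw [specOf_id] at h2
      exact lc_eq π φ h2
  · have h2 := (Spz.ex π ξ p).choose_spec.map (RingHom.id F) (σ : Qb →+* Qb) h
    rw [specOf_id] at h2
    rw [lc_eq π φ h2, La_gal]
    rfl

end

theorem p_mainX (hCrv : S_Crv) (hFin : S_Fin) (hRes : S_Res) (hExtp : S_Extp) (hTrans : S_Trans)
    (hWeil : S_Weil) (hConst : S_Const) : S_MainX := by
  intro k _ _ X π _ _ D hD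
  by_contra hc
  obtain ⟨φ, hφ, hφD⟩ := exists_fun (tameBoundaries π) D fun n hn h => hc ⟨n, hn, h⟩
  have hcst := fun y y' e u hu => geo_const hFin hExtp hConst π (La φ) (fun A _ ι F _ _ hF ξ =>
    ⟨_, gfn π hCrv hFin hRes hTrans hWeil hφ hF (specOf ξ ≫ ι),
      fun p ψ h => lc_eq π φ (Spz.of_val ι h)⟩) (y := y) (y' := y') e (u := u) hu
  have hN : ∀ x : ClosedPt X, NumberField (PtField x.pt) := fun x => nf_closed π x.closed
  obtain ⟨x₀, -⟩ : D.support.Nonempty := nonempty_iff_ne_empty.2 fun h =>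
    hφD (by rw [DFinsupp.support_eq_empty.1 h, map_zero])
  obtain ⟨e₀⟩ : Nonempty (PtField x₀.pt →+* Qb) := inferInstance
  let _ : Algebra k Qb := (e₀.comp (constMap π x₀.pt)).toAlgebra
  let μ := La φ (specOf e₀ ≫ X.fromSpecResidueField x₀.pt)
  have hμ : Ad μ := La_ad φ _
  have key : ∀ (x : ClosedPt X) (u : Units (PtField x.pt)), φ (x.chain u) =
      Module.finrank ℚ k * μ (algebraMap k Qb (normAlong (constMap π x.pt) u).val) := fun x u => by
    let _ := (constMap π x.pt).toAlgebra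
    have : IsScalarTower ℚ k (PtField x.pt) :=
      IsScalarTower.of_algebraMap_eq' (Subsingleton.elim _ _)
    have : FiniteDimensional k (PtField x.pt) := Module.Finite.right ℚ k _
    have h1 : ∀ e : PtField x.pt →ₐ[k] Qb, μ (e u) =
        φ (x.chain u) / (Module.finrank ℚ k * Module.finrank k (PtField x.pt) : ℕ) := fun e => by
      have h2 := hcst (specOf e₀ ≫ X.fromSpecResidueField x₀.pt)
        (specOf (e : PtField x.pt →+* Qb) ≫ X.fromSpecResidueField x.pt) (by
          rw [Category.assoc, Category.assoc, const_spec, const_spec, ← Spec.map_comp,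
            ← Spec.map_comp]
          exact congrArg _ (CommRingCat.hom_ext (RingHom.ext fun c => (e.commutes c).symm)))
        (e u) ((_root_.map_ne_zero e).2 u.ne_zero)
      refine h2.trans ((congrFun (La_mk φ _ _) _).trans ?_)
      rw [Nat.card_eq_fintype_card, NumberField.Embeddings.card, Module.finrank_mul_finrank,
        ← cm_unit]
      exact congrArg (· / _) (nuE_map (cm_ad φ _) (e : PtField x.pt →+* Qb) u.ne_zero)
    have h2 : (Module.finrank ℚ k : ℝ) ≠ 0 := Nat.cast_ne_zero.2 Module.finrank_pos.ne'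
    have h3 : (Module.finrank k (PtField x.pt) : ℝ) ≠ 0 := Nat.cast_ne_zero.2 Module.finrank_pos.ne'
    change _ = _ * μ (algebraMap k Qb (Algebra.norm k (u : PtField x.pt)))
    rw [Algebra.norm_eq_prod_embeddings k Qb,
      hμ.prod _ _ fun e _ => (_root_.map_ne_zero e).2 u.ne_zero, sum_congr rfl fun e _ => h1 e,
      sum_const, card_univ, AlgHom.card, nsmul_eq_mul]
    push_cast
    field_simp
  refine hφD ?_
  have h4 : φ D = ∑ x ∈ D.support, φ (x.chain (Additive.toMul (D x))) := by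
    rw [← map_sum]
    exact congrArg φ DFinsupp.sum_single.symm
  have h5 : ∏ x ∈ D.support, normAlong (constMap π x.pt) (Additive.toMul (D x)) = 1 := hD
  rw [h4, sum_congr rfl fun x _ => key x _, ← mul_sum,
    ← hμ.prod _ _ fun x _ => (_root_.map_ne_zero _).2 (Units.ne_zero _), ← map_prod,
    ← Units.coe_prod, h5, Units.val_one, map_one, hμ.one, mul_zero]

end Pool.Agent.P.MP_b8021b_nt.VX
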