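import Mathlib

/-!
The group `SK₁(X)` of a scheme `X` of finite type over a field `k` (Bloch, Kato and Saito): the
cokernel of the boundary map from the sum of the groups `K₂(κ(y))` over the points `y` of
dimension one to the sum of the groups `κ(x)ˣ` over the closed points `x`. For `X` proper, `V(X)`
is the kernel of the norm from `SK₁(X)` to `kˣ`.
-/

open AlgebraicGeometry CategoryTheory
open scoped Classical

namespace Pool.Agent.P.MP_b8021b_nt.VX

noncomputable section

/-- A closed point of the regular projective curve with function field `F` over `k`, where
`c : k → F` is the inclusion of the constants: a normalised discrete valuation of `F` that is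
trivial on `k`. -/
structure CurvePlace {k F : Type} [Field k] [Field F] (c : k →+* F) where
  /-- the valuation -/
  v : Valuation F (WithZero (Multiplicative ℤ))
  surj : Function.Surjective v
  triv : ∀ a : k, a ≠ 0 → v (c a) = 1

variable {k F : Type} [Field k] [Field F] {c : k →+* F}

/-- The valuation ring of a place. -/
abbrev CurvePlace.valRing (p : CurvePlace c) : ValuationSubring F := p.v.valuationSubring

/-- The residue field of a place. -/
abbrev CurvePlace.resField (p : CurvePlace c) : Type := IsLocalRing.ResidueField p.valRing

/-- The order of vanishing of `f` at `p` (Mathlib's valuations are multiplicative). -/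
def CurvePlace.vanOrd (p : CurvePlace c) (f : F) : ℤ := - WithZero.log (p.v f)

/-- The function `(-1) ^ (a b) f ^ b / g ^ a`, where `a` and `b` are the orders of `f` and `g`
at `p`. -/
def CurvePlace.tameFn (p : CurvePlace c) (f g : F) : F :=
  (-1) ^ (p.vanOrd f * p.vanOrd g) * f ^ p.vanOrd g / g ^ p.vanOrd f

/-- `u` is the tame symbol of `f` and `g` at `p`: the residue of `p.tameFn f g`. -/
def CurvePlace.IsTameSymbol (p : CurvePlace c) (f g : F) (u : Units p.resField) : Prop :=
  ∃ h : p.tameFn f g ∈ p.valRing, IsLocalRing.residue p.valRing ⟨_, h⟩ = u.val

/-- The norm of the field extension given by `j`, on nonzero elements. -/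
def normAlong {K L : Type} [Field K] [Field L] (j : K →+* L) (u : Units L) : Units K :=
  Units.map (@Algebra.norm K L _ _ j.toAlgebra) u

/-- `F` is a function field of one variable over `k`: a finite extension of `k(t)` for a
transcendental element `t`. -/
def IsCurveField (k F : Type) [Field k] [Field F] [Algebra k F] : Prop :=
  ∃ t : F, Transcendental k t ∧ FiniteDimensional (IntermediateField.adjoin k {t}) F

variable {X : Scheme.{0}}

/-- The residue field of a point of a scheme. -/
abbrev PtField (x : X) : Type := X.residueField x

/-- The inclusion of the constants in the residue field of a point of a scheme over `k`. -/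
def constMap (π : X ⟶ Spec (CommRingCat.of k)) (x : X) : k →+* PtField x :=
  (Spec.preimage (X.fromSpecResidueField x ≫ π)).hom

/-- `y` is the generic point of an integral curve on `X`: its residue field is a function field
of one variable over `k`. -/
def IsCurvePoint (π : X ⟶ Spec (CommRingCat.of k)) (y : X) : Prop :=
  @IsCurveField k (PtField y) _ _ (constMap π y).toAlgebra

/-- The morphism of affine schemes given by a ring homomorphism. -/
abbrev specOf {R S : Type} [CommRing R] [CommRing S] (f : R →+* S) :
    Spec (CommRingCat.of S) ⟶ Spec (CommRingCat.of R) := Spec.map (CommRingCat.ofHom f)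

/-- The place `p` of the residue field of `y` has centre `x` on `X`, and `j` is the induced
extension of residue fields: the point `y` extends to a morphism from the spectrum of the
valuation ring of `p`, which on the closed point is given by `x` and `j`. -/
def HasCentre {y : X} {c : k →+* PtField y} (p : CurvePlace c) (x : X)
    (j : PtField x →+* p.resField) : Prop :=
  ∃ η : Spec (CommRingCat.of p.valRing) ⟶ X,
    specOf p.valRing.subtype ≫ η = X.fromSpecResidueField y ∧
    specOf (IsLocalRing.residue p.valRing) ≫ η = specOf j ≫ X.fromSpecResidueField x

/-- A closed point of a scheme. -/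
structure ClosedPt (X : Scheme.{0}) where
  /-- the point -/
  pt : X
  closed : IsClosed ({pt} : Set X)

/-- The multiplicative group of the residue field of a closed point, written additively. -/
abbrev ClosedPt.Grp (x : ClosedPt X) : Type := Additive (Units (PtField x.pt))

/-- The direct sum of the multiplicative groups of the residue fields of the closed points. -/
abbrev UnitChain (X : Scheme.{0}) : Type := DFinsupp (ClosedPt.Grp (X := X))

/-- The chain with the single component `u` at `x`. -/
def ClosedPt.chain (x : ClosedPt X) (u : Units (PtField x.pt)) : UnitChain X :=
  DFinsupp.single x (Additive.ofMul u)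

/-- `D` is the boundary of the symbol `{f, g}` of two nonzero functions on the integral curve with
generic point `y`: the sum, over the places `p` where `f` or `g` has a zero or a pole, of the norm
of the tame symbol at `p` to the residue field of the centre of `p`. -/
def IsBoundary {y : X} (c : k →+* PtField y) (f g : PtField y) (D : UnitChain X) : Prop :=
  ∃ (S : Finset (CurvePlace c)) (x : CurvePlace c → ClosedPt X)
    (j : ∀ p : CurvePlace c, PtField (x p).pt →+* p.resField)
    (u : ∀ p : CurvePlace c, Units p.resField),
    (∀ p, p ∉ S → p.vanOrd f = 0 ∧ p.vanOrd g = 0) ∧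
    (∀ p, HasCentre p (x p).pt (j p) ∧ p.IsTameSymbol f g (u p)) ∧
    D = ∑ p ∈ S, (x p).chain (normAlong (j p) (u p))

/-- The image of the boundary map. -/
def tameBoundaries (π : X ⟶ Spec (CommRingCat.of k)) : AddSubgroup (UnitChain X) :=
  AddSubgroup.closure {D | ∃ y : X, IsCurvePoint π y ∧
    ∃ f g : PtField y, f ≠ 0 ∧ g ≠ 0 ∧ IsBoundary (constMap π y) f g D}

/-- The norm to `k` of a nonzero element of the residue field of a closed point. -/
def ClosedPt.normTo (π : X ⟶ Spec (CommRingCat.of k)) (x : ClosedPt X) (u : x.Grp) :
    Units k :=
  normAlong (constMap π x.pt) (Additive.toMul u)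

/-- The product of the norms to `k` of the components of a chain. -/
def chainNorm (π : X ⟶ Spec (CommRingCat.of k)) (D : UnitChain X) : Units k :=
  D.prod (ClosedPt.normTo π)

end

end Pool.Agent.P.MP_b8021b_nt.VX
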