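import Pool.Agent.P.MP_b8021b_nt.VC.XLink
import Pool.Agent.P.MP_b8021b_nt.VC.XStmt

/-! Functionals on the geometric points of a geometrically connected scheme. -/

namespace Pool.Agent.P.MP_b8021b_nt.VX

open AlgebraicGeometry CategoryTheory Limits TopologicalSpace
open Pool.Agent.P.MP_b8021b_nt.VE Pool.Agent.P.MP_b8021b_nt.VC
open scoped Classical

theorem top_const {Y Z : Type} [TopologicalSpace Y] [ConnectedSpace Y] [JacobsonSpace Y]
    [NoetherianSpace Y] (c : Y → Z) (h : ∀ y, ∃ V : Set Y, IsOpen V ∧ y ∈ V ∧ ∀ W : Set Y,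
      IsIrreducible W → ∀ z ∈ W ∩ V, ∀ w ∈ W ∩ V, IsClosed {z} → IsClosed {w} → c z = c w)
    {x y : Y} (hx : IsClosed {x}) (hy : IsClosed {y}) : c x = c y := by
  have h1 : ∀ W : Set Y, IsIrreducible W → IsClosed W → ∀ z ∈ W, ∀ w ∈ W, IsClosed {z} →
      IsClosed {w} → c z = c w := fun W hW hW' z hz w hw cz cw => by
    obtain ⟨V, o1, m1, e1⟩ := h z
    obtain ⟨V', o2, m2, e2⟩ := h w
    obtain ⟨t, ht, ct⟩ := nonempty_inter_closedPoints
      (hW.2 V V' o1 o2 ⟨z, hz, m1⟩ ⟨w, hw, m2⟩)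
      (hW'.isLocallyClosed.inter (o1.inter o2).isLocallyClosed)
    exact (e1 W hW z ⟨hz, m1⟩ t ⟨ht.1, ht.2.1⟩ cz ct).trans
      (e2 W hW t ⟨ht.1, ht.2.2⟩ w ⟨hw, m2⟩ ct cw)
  let P : Set Y → Prop := fun W => ∀ z ∈ W, IsClosed {z} → c z = c x
  have cl : ∀ Q : Set Y → Prop, IsClosed (⋃₀ {W ∈ irreducibleComponents Y | Q W}) := fun Q => by
    rw [Set.sUnion_eq_biUnion]
    exact (NoetherianSpace.finite_irreducibleComponents.subset fun _ h => h.1).isClosed_biUnion
      fun W hW => isClosed_of_mem_irreducibleComponents W hW.1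
  have hm : ∀ z, irreducibleComponent z ∈ irreducibleComponents Y :=
    irreducibleComponent_mem_irreducibleComponents
  by_contra hne
  obtain ⟨t, -, ⟨W, ⟨a1, a2⟩, a3⟩, W', ⟨b1, b2⟩, b3⟩ := isPreconnected_closed_iff.1
    (isPreconnected_univ (α := Y)) _ _ (cl P) (cl fun W => ¬ P W) (fun z _ => by
      by_cases hz : P (irreducibleComponent z)
      · exact Or.inl ⟨_, ⟨hm z, hz⟩, mem_irreducibleComponent⟩
      · exact Or.inr ⟨_, ⟨hm z, hz⟩, mem_irreducibleComponent⟩)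
    ⟨x, trivial, _, ⟨hm x, fun z hz cz => h1 _ isIrreducible_irreducibleComponent
      isClosed_irreducibleComponent z hz x mem_irreducibleComponent cz hx⟩,
      mem_irreducibleComponent⟩
    ⟨y, trivial, _, ⟨hm y, fun hP => hne (hP y mem_irreducibleComponent hy).symm⟩,
      mem_irreducibleComponent⟩
  have c1 := isClosed_of_mem_irreducibleComponents W a1
  have c2 := isClosed_of_mem_irreducibleComponents W' b1
  obtain ⟨s, hs, cs⟩ := nonempty_inter_closedPoints (Z := W ∩ W') ⟨t, a3, b3⟩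
    (c1.inter c2).isLocallyClosed
  exact b2 fun z hz cz => (h1 W' b1.1 c2 z hz s hs.2 cz cs).trans (a2 s hs.1 cs)

/-- the spectrum of a ring -/
noncomputable abbrev Sp (R : Type) [CommRing R] : Scheme.{0} := Spec (CommRingCat.of R)

theorem ft_of {K : Type} [CommRing K] {R : CommRingCat.{0}} (g : Spec R ⟶ Sp K)
    [LocallyOfFiniteType g] : ∃ a : K →+* R, a.FiniteType ∧ Spec.map (CommRingCat.ofHom a) = g := by
  obtain ⟨a, rfl⟩ := Spec.map_surjective g
  exact ⟨a.hom, (HasRingHomProperty.Spec_iff (P := @LocallyOfFiniteType)).1 inferInstance, rfl⟩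

theorem geo_const (hFin : S_Fin) (hExtp : S_Extp) (hConst : S_Const) {k : Type} [Field k]
    [NumberField k] {X : Scheme.{0}} (π : X ⟶ Sp k) [IsProper π] [GeometricallyConnected π]
    (L : (Sp Qb ⟶ X) → Qb → ℝ)
    (H : ∀ (A : Type) [CommRing A] (ι : Sp A ⟶ X), Pull fun φ : A →+* Qb => L (specOf φ ≫ ι))
    {y y' : Sp Qb ⟶ X} (e : y ≫ π = y' ≫ π) {u : Qb} (hu : u ≠ 0) : L y u = L y' u := by
  let Y := pullback π (y ≫ π)
  let f : Y ⟶ X := pullback.fst _ _
  let g : Y ⟶ Sp Qb := pullback.snd _ _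
  have : ConnectedSpace Y :=
    GeometricallyConnected.geometrically_connectedSpace _ _ _ (.of_hasPullback _ _)
  have : IsProper g := MorphismProperty.pullback_snd _ _ inferInstance
  have : JacobsonSpace Y := LocallyOfFiniteType.jacobsonSpace g
  have : IsLocallyNoetherian Y := LocallyOfFiniteType.isLocallyNoetherian g
  have : CompactSpace Y := QuasiCompact.compactSpace_of_compactSpace g
  have : IsNoetherian Y := {}
  let c : Y → ℝ := fun z => if h : IsClosed {z} then L (pointOfClosedPoint g z h ≫ f) u else 0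
  have hc : ∀ s : Sp Qb ⟶ Y, s ≫ g = 𝟙 _ → IsClosed {s (IsLocalRing.closedPoint Qb)} ∧
      c (s (IsLocalRing.closedPoint Qb)) = L (s ≫ f) u := fun s hs => by
    have h : IsClosed {s (IsLocalRing.closedPoint Qb)} := (pointEquivClosedPoint g ⟨s, hs⟩).2
    exact ⟨h, (dif_pos h).trans (congrArg (fun s => L (s ≫ f) u) (ext_of_apply_closedPoint_eq g
      (pointOfClosedPoint_comp g _ h) hs (pointOfClosedPoint_apply g _ h _)))⟩
  have s1 := hc (pullback.lift y (𝟙 _) (Category.id_comp _).symm) (pullback.lift_snd _ _ _)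
  have s2 := hc (pullback.lift y' (𝟙 _) (by rw [Category.id_comp, e])) (pullback.lift_snd _ _ _)
  have := top_const c (fun t => ?_) s1.1 s2.1
  · rwa [s1.2, s2.2, pullback.lift_fst, pullback.lift_fst] at this
  obtain ⟨U, hU, tU, -⟩ := exists_isAffineOpen_mem_and_subset (X := X) (x := f t) (U := ⊤) trivial
  obtain ⟨V, hV, tV, hVU⟩ := exists_isAffineOpen_mem_and_subset (X := Y) (x := t) (U := f ⁻¹ᵁ U) tU
  refine ⟨V, V.2, tV, fun W hW z hz w hw cz cw => ?_⟩
  obtain ⟨a, ha, ea⟩ := ft_of (hU.fromSpec ≫ π)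
  obtain ⟨b, hb, eb⟩ := ft_of (hV.fromSpec ≫ g)
  let _ : Algebra ℚ Γ(X, U) := (a.comp (algebraMap ℚ k)).toAlgebra
  have : Algebra.FiniteType ℚ Γ(X, U) :=
    ha.comp (RingHom.finiteType_algebraMap.2 inferInstance)
  let _ : Algebra Qb Γ(Y, V) := b.toAlgebra
  have : Algebra.FiniteType Qb Γ(Y, V) := hb
  let W' : Set (PrimeSpectrum Γ(Y, V)) := hV.fromSpec ⁻¹' W
  have hW' : IsIrreducible W' := hW.preimage hV.fromSpec.isOpenEmbedding
    ⟨z, hz.1, hV.range_fromSpec.ge hz.2⟩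
  have := PrimeSpectrum.isIrreducible_iff_vanishingIdeal_isPrime.1 hW'
  have key : ∀ z ∈ W ∩ V, IsClosed {z} → ∃ φ : Γ(Y, V) →ₐ[Qb] Qb,
      (∀ r ∈ PrimeSpectrum.vanishingIdeal W', φ r = 0) ∧
      c z = L (specOf ((φ : Γ(Y, V) →+* Qb).comp (f.appLE U V hVU).hom) ≫ hU.fromSpec) u :=
    fun z hz cz => by
      have hr : Set.range (pointOfClosedPoint g z cz) ⊆ Set.range hV.fromSpec := by
        rw [hV.range_fromSpec]
        rintro _ ⟨t, rfl⟩
        rw [pointOfClosedPoint_apply]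
        exact hz.2
      obtain ⟨φ, hφ⟩ := Spec.map_surjective
        (IsOpenImmersion.lift hV.fromSpec (pointOfClosedPoint g z cz) hr)
      have e1 : Spec.map φ ≫ hV.fromSpec = pointOfClosedPoint g z cz := by
        rw [hφ, IsOpenImmersion.lift_fac]
      have e2 : CommRingCat.ofHom b ≫ φ = 𝟙 _ := by
        rw [← Spec.map_inj, Spec.map_comp, eb, ← Category.assoc, e1, pointOfClosedPoint_comp,
          Spec.map_id]
      refine ⟨⟨φ.hom, fun r => congr($e2 r)⟩, fun r hr => ?_, (dif_pos cz).trans ?_⟩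
      · have h1 : Spec.map φ (IsLocalRing.closedPoint Qb) ∈ W' := by
          change (Spec.map φ ≫ hV.fromSpec) _ ∈ W
          rw [e1, pointOfClosedPoint_apply]
          exact hz.1
        have h2 : φ.hom r ∈ IsLocalRing.maximalIdeal Qb :=
          (PrimeSpectrum.mem_vanishingIdeal _ _).1 hr _ h1
        rwa [IsLocalRing.maximalIdeal_eq_bot, Ideal.mem_bot] at h2
      · rw [← e1, Category.assoc, ← IsAffineOpen.SpecMap_appLE_fromSpec f hU hV hVU,
          ← Spec.map_comp_assoc]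
        rfl
  obtain ⟨φ, p1, p2⟩ := key z hz cz
  obtain ⟨ψ, q1, q2⟩ := key w hw cw
  rw [p2, q2]
  exact core hFin hExtp hConst (H Γ(X, U) hU.fromSpec) _ _ φ ψ p1 q1 hu

end Pool.Agent.P.MP_b8021b_nt.VX
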